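import Mathlib

/-! The Moebius function of a subset of a finite lattice, and Weisner's lemma. -/

namespace Pool.Agent.P.MP_d34769_ag

open Classical

section
variable {L : Type} [PartialOrder L] [OrderBot L] [Finite L]

/-- Moebius function from the bottom, with respect to the elements satisfying `G`. -/
noncomputable def mob (G : L → Prop) : L → ℤ :=
  (wellFounded_lt (α := L)).fix fun Y ih =>
    (if Y = ⊥ then 1 else 0) -
      ∑ U ∈ (@Finset.univ L (Fintype.ofFinite L)), if h : U < Y ∧ G U then ih U h.1 else 0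

lemma mob_eq (G : L → Prop) [Fintype L] (Y : L) :
    mob G Y = (if Y = ⊥ then 1 else 0) -
      ∑ U ∈ Finset.univ.filter (fun U => U < Y ∧ G U), mob G U := by
  conv_lhs => rw [mob, WellFounded.fix_eq]
  congr 1
  rw [Finset.sum_filter]
  refine Finset.sum_congr (by ext; simp) fun U _ => ?_
  split_ifs with h
  · rfl
  · rfl

lemma mob_sum (G : L → Prop) [Fintype L] {Y : L} (hY : G Y) :
    ∑ U ∈ Finset.univ.filter (fun U => U ≤ Y ∧ G U), mob G U = if Y = ⊥ then 1 else 0 := by
  have : Finset.univ.filter (fun U => U ≤ Y ∧ G U) =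
      insert Y (Finset.univ.filter (fun U => U < Y ∧ G U)) := by
    ext U
    simp only [Finset.mem_filter, Finset.mem_univ, true_and, Finset.mem_insert]
    constructor
    · rintro ⟨h1, h2⟩
      rcases h1.eq_or_lt with h | h
      · exact Or.inl h
      · exact Or.inr ⟨h, h2⟩
    · rintro (rfl | ⟨h1, h2⟩)
      · exact ⟨le_rfl, hY⟩
      · exact ⟨h1.le, h2⟩
  rw [this, Finset.sum_insert (by simp), mob_eq G Y]
  ring

lemma mob_transport {L' : Type} [PartialOrder L'] [OrderBot L'] [Finite L']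
    (G : L → Prop) (G' : L' → Prop) (φ : L → L') (hle : ∀ U V, φ U ≤ φ V ↔ U ≤ V)
    (hbot : φ ⊥ = ⊥) (hG : ∀ U, G U → G' (φ U))
    (hG' : ∀ Y U', U' ≤ φ Y → G' U' → ∃ U, G U ∧ φ U = U') (Y : L) :
    mob G' (φ Y) = mob G Y := by
  have := Fintype.ofFinite L
  have := Fintype.ofFinite L'
  have hinj : Function.Injective φ := fun U V h =>
    le_antisymm ((hle _ _).1 h.le) ((hle _ _).1 h.ge)
  have hlt : ∀ U V, φ U < φ V ↔ U < V := fun U V => by
    simp only [lt_iff_le_not_ge, hle]
  induction Y using (wellFounded_lt (α := L)).induction with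
  | _ Y ih =>
  rw [mob_eq G', mob_eq G]
  congr 1
  · rw [← hbot, hinj.eq_iff]
  · symm
    refine Finset.sum_bij (fun U _ => φ U) ?_ ?_ ?_ ?_
    · intro U hU
      simp only [Finset.mem_filter, Finset.mem_univ, true_and] at hU ⊢
      exact ⟨(hlt _ _).2 hU.1, hG _ hU.2⟩
    · intro U _ V _ h
      exact hinj h
    · intro U' hU'
      simp only [Finset.mem_filter, Finset.mem_univ, true_and] at hU' ⊢
      obtain ⟨U, hU, rfl⟩ := hG' Y U' hU'.1.le hU'.2
      exact ⟨U, ⟨(hlt _ _).1 hU'.1, hU⟩, rfl⟩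
    · intro U hU
      simp only [Finset.mem_filter, Finset.mem_univ, true_and] at hU
      exact (ih U hU.1).symm
end

/-- Weisner's lemma. -/
lemma weisner {L : Type} [SemilatticeSup L] [OrderBot L] [Fintype L] (G : L → Prop) (S : L)
    (hS : S ≠ ⊥) (hcl : ∀ U, G U → G (U ⊔ S)) (Y : L) (hY : G Y) (hSY : S ≤ Y) :
    ∑ U ∈ Finset.univ.filter (fun U => G U ∧ U ⊔ S = Y), mob G U = 0 := by
  induction Y using (wellFounded_lt (α := L)).induction with
  | _ Y ih =>
  have h1 := mob_sum G hY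
  have hY0 : Y ≠ ⊥ := fun h => hS (le_bot_iff.1 (h ▸ hSY))
  rw [if_neg hY0] at h1
  rw [← Finset.sum_fiberwise_of_maps_to (t := Finset.univ.filter (fun Z => Z ≤ Y ∧ G Z ∧ S ≤ Z))
    (g := fun U => U ⊔ S)] at h1
  · rw [Finset.sum_eq_single Y] at h1
    · rw [← h1]
      refine Finset.sum_congr ?_ fun _ _ => rfl
      ext U
      simp only [Finset.mem_filter, Finset.mem_univ, true_and]
      constructor
      · rintro ⟨h1, h2⟩
        exact ⟨⟨h2 ▸ le_sup_left, h1⟩, h2⟩
      · rintro ⟨h1, h2⟩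
        exact ⟨h1.2, h2⟩
    · intro Z hZ hne
      simp only [Finset.mem_filter, Finset.mem_univ, true_and] at hZ
      rw [← ih Z (lt_of_le_of_ne hZ.1 hne) hZ.2.1 hZ.2.2]
      refine Finset.sum_congr ?_ fun _ _ => rfl
      ext U
      simp only [Finset.mem_filter, Finset.mem_univ, true_and]
      constructor
      · rintro ⟨h1, h2⟩
        exact ⟨h1.2, h2⟩
      · rintro ⟨h1, h2⟩
        exact ⟨⟨(le_sup_left.trans h2.le).trans hZ.1, h1⟩, h2⟩
    · intro h
      exact absurd (by simp [hY, hSY]) h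
  · intro U hU
    simp only [Finset.mem_filter, Finset.mem_univ, true_and] at hU ⊢
    exact ⟨sup_le hU.1 hSY, hcl U hU.2, le_sup_right⟩

end Pool.Agent.P.MP_d34769_ag
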