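import Pool.Agent.K.MP_d34769_ag.C9

namespace Pool.Agent.P.MP_d34769_ag

open LaurentPolynomial Matrix Module

variable {K : Type} [Field K]

lemma adapted_nat {W : Type} [AddCommGroup W] [Module K W] [FiniteDimensional K W]
    (Λ : ℕ → Submodule K W) (hΛ : Monotone Λ) :
    ∃ s : Set W, LinearIndepOn K id s ∧ (∃ N, s ⊆ Λ N) ∧
      ∀ m, Λ m ≤ Submodule.span K (s ∩ Λ m) := by
  have key : ∀ N, ∃ s : Set W, LinearIndepOn K id s ∧ s ⊆ Λ N ∧
      ∀ m ≤ N, Λ m ≤ Submodule.span K (s ∩ Λ m) := by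
    intro N
    induction N with
    | zero =>
      obtain ⟨b, hb1, -, hb3, hb4⟩ := exists_linearIndepOn_id_extension (K := K)
        (s := (∅ : Set W)) (t := (Λ 0 : Set W)) (linearIndepOn_empty K id) (Set.empty_subset _)
      refine ⟨b, hb4, hb1, fun m hm => ?_⟩
      obtain rfl : m = 0 := by omega
      rw [Set.inter_eq_left.2 hb1]
      exact hb3
    | succ N ih =>
      obtain ⟨s, hs1, hs2, hs3⟩ := ih
      obtain ⟨b, hb1, hb2, hb3, hb4⟩ := exists_linearIndepOn_id_extension (K := K)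
        (s := s) (t := (Λ (N + 1) : Set W)) hs1 (hs2.trans (hΛ (Nat.le_succ N)))
      refine ⟨b, hb4, hb1, fun m hm => ?_⟩
      rcases Nat.lt_or_eq_of_le hm with h | h
      · exact (hs3 m (by omega)).trans
          (Submodule.span_mono (Set.inter_subset_inter_left _ hb2))
      · subst h
        rw [Set.inter_eq_left.2 hb1]
        exact hb3
  obtain ⟨N, hN⟩ := monotone_stabilizes_iff_noetherian.2
    (inferInstance : IsNoetherian K W) ⟨Λ, hΛ⟩
  obtain ⟨s, hs1, hs2, hs3⟩ := key N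
  refine ⟨s, hs1, ⟨N, hs2⟩, fun m => ?_⟩
  by_cases hm : m ≤ N
  · exact hs3 m hm
  · have : Λ N = Λ m := hN m (by omega)
    rw [← this]
    exact hs3 N le_rfl

lemma adapted {W : Type} [AddCommGroup W] [Module K W] [FiniteDimensional K W]
    (Λ : ℤ → Submodule K W) (hΛ : Monotone Λ) (m0 : ℤ) (h0 : ∀ m < m0, Λ m = ⊥) :
    ∃ (r : ℕ) (l : Fin r → W) (ν : Fin r → ℤ), LinearIndependent K l ∧ (∀ j, l j ∈ Λ (ν j)) ∧
      ∀ m, ∀ v ∈ Λ m, ∃ a : Fin r → K, (∀ j, m < ν j → a j = 0) ∧ v = ∑ j, a j • l j := by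
  classical
  obtain ⟨s, hs1, ⟨N, hN⟩, hs3⟩ := adapted_nat (fun i : ℕ => Λ (m0 + i))
    (fun i j hij => hΛ (by omega))
  have hfin : s.Finite := LinearIndependent.set_finite_of_isNoetherian hs1
  have : Finite s := hfin
  obtain ⟨r, ⟨e⟩⟩ := Finite.exists_equiv_fin s
  have hex : ∀ j : Fin r, ∃ i : ℕ, (e.symm j : W) ∈ Λ (m0 + i) := fun j => ⟨N, hN (e.symm j).2⟩
  refine ⟨r, fun j => (e.symm j : W), fun j => m0 + Nat.find (hex j), ?_,
    fun j => Nat.find_spec (hex j), fun m v hv => ?_⟩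
  · exact LinearIndependent.comp hs1 _ e.symm.injective
  · by_cases hm : m < m0
    · rw [h0 m hm, Submodule.mem_bot] at hv
      exact ⟨0, fun _ _ => rfl, by simp [hv]⟩
    · obtain ⟨i, rfl⟩ : ∃ i : ℕ, m = m0 + i := ⟨(m - m0).toNat, by omega⟩
      have h1 := hs3 i hv
      refine Submodule.span_induction (p := fun v _ => ∃ a : Fin r → K,
        (∀ j, m0 + i < m0 + (Nat.find (hex j) : ℤ) → a j = 0) ∧
          v = ∑ j, a j • (e.symm j : W)) ?_ ?_ ?_ ?_ h1
      · rintro w ⟨hw1, hw2⟩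
        refine ⟨Pi.single (e ⟨w, hw1⟩) 1, fun j hj => ?_, ?_⟩
        · rw [Pi.single_eq_of_ne]
          rintro rfl
          have : Nat.find (hex (e ⟨w, hw1⟩)) ≤ i := Nat.find_min' _ (by simpa using hw2)
          omega
        · rw [Finset.sum_eq_single (e ⟨w, hw1⟩)]
          · simp
          · intro b _ hb; simp [Pi.single_eq_of_ne hb]
          · simp
      · exact ⟨0, fun _ _ => rfl, by simp⟩
      · rintro x y _ _ ⟨a, ha, rfl⟩ ⟨b, hb, rfl⟩
        refine ⟨a + b, fun j hj => by simp [ha j hj, hb j hj], ?_⟩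
        simp [add_smul, Finset.sum_add_distrib]
      · rintro c x _ ⟨a, ha, rfl⟩
        refine ⟨c • a, fun j hj => by simp [ha j hj], ?_⟩
        simp [Finset.smul_sum, smul_smul]

lemma smul_mem_of_ge {n : ℕ} {M : Submodule K (Fin n → LaurentPolynomial K)}
    (hT : ∀ p ∈ M, (T 1 : LaurentPolynomial K) • p ∈ M) {f : LaurentPolynomial K} (hf : Ge 0 f)
    {p : Fin n → LaurentPolynomial K} (hp : p ∈ M) : f • p ∈ M := by
  have hpow : ∀ i : ℕ, (T (i : ℤ) : LaurentPolynomial K) • p ∈ M := by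
    intro i
    induction i with
    | zero => simpa using hp
    | succ i ih =>
      have := hT _ ih
      rw [smul_smul, ← T_add] at this
      convert this using 3
      push_cast; ring
  obtain ⟨a, ha⟩ := exists_le f
  rw [eq_sum_of_win hf ha, Finset.sum_smul]
  refine M.sum_mem fun i _ => ?_
  rw [smul_assoc]
  exact M.smul_mem _ (hpow i)

lemma mulVec_smul_K {n r : ℕ} (A : Matrix (Fin n) (Fin r) (LaurentPolynomial K)) (c : K)
    (p : Fin r → LaurentPolynomial K) : A *ᵥ (c • p) = c • (A *ᵥ p) := by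
  have : c • p = (C c : LaurentPolynomial K) • p := by
    ext1 i; simp [smul_eq_C_mul]
  rw [this, Matrix.mulVec_smul]
  ext1 i; simp [smul_eq_C_mul]

/-- Reduced basis of a `K[t]`-submodule of `K[t]^n` with respect to the lattice at infinity. -/
theorem reduced {n : ℕ} (g h : Matrix (Fin n) (Fin n) (LaurentPolynomial K)) (hgh : g * h = 1)
    (M : Submodule K (Fin n → LaurentPolynomial K))
    (hT : ∀ p ∈ M, (T 1 : LaurentPolynomial K) • p ∈ M) (hP : ∀ p ∈ M, ∀ i, Ge 0 (p i)) :
    ∃ (r : ℕ) (A : Matrix (Fin n) (Fin r) (LaurentPolynomial K)) (b : Fin r → ℤ),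
      (∀ j, (fun i => A i j) ∈ M) ∧ (∀ i j, Le (-b j) ((h * A) i j)) ∧
      Function.Injective A.mulVec ∧
      ∀ m, ∀ p ∈ M, (∀ i, Le m ((h *ᵥ p) i)) →
        ∃ c : Fin r → LaurentPolynomial K, (∀ j, Ge 0 (c j) ∧ Le (m + b j) (c j)) ∧
          p = A *ᵥ c := by
  classical
  let Λ : ℤ → Submodule K (Fin n → K) := fun m =>
    { carrier := {v | ∃ p ∈ M, (∀ i, Le m ((h *ᵥ p) i)) ∧ v = fun i => ((h *ᵥ p) i).coeff m}
      add_mem' := by
        rintro _ _ ⟨p, hp, hp1, rfl⟩ ⟨q, hq, hq1, rfl⟩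
        refine ⟨p + q, M.add_mem hp hq, fun i => ?_, ?_⟩
        · rw [Matrix.mulVec_add]; exact (hp1 i).add (hq1 i)
        · ext i; simp [Matrix.mulVec_add]
      zero_mem' := ⟨0, M.zero_mem, fun i => by simpa using Le.zero m, by ext i; simp⟩
      smul_mem' := by
        rintro c _ ⟨p, hp, hp1, rfl⟩
        refine ⟨c • p, M.smul_mem c hp, fun i => ?_, ?_⟩
        · rw [mulVec_smul_K]; exact (hp1 i).smul c
        · ext i; simp [mulVec_smul_K] }
  have hshift : ∀ (a : ℤ) (p : Fin n → LaurentPolynomial K) (i),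
      (h *ᵥ ((T a : LaurentPolynomial K) • p)) i = T a * (h *ᵥ p) i := by
    intro a p i; rw [Matrix.mulVec_smul]; rfl
  have hΛ : Monotone Λ := by
    intro m m' hmm
    rintro _ ⟨p, hp, hp1, rfl⟩
    refine ⟨(T (m' - m) : LaurentPolynomial K) • p,
      smul_mem_of_ge hT ((Ge.T _).mono (by omega)) hp, fun i => ?_, ?_⟩
    · rw [hshift, le_T_mul]; simpa using hp1 i
    · ext i; rw [hshift, coeff_T_mul]; congr 1; ring
  obtain ⟨G, hG⟩ := exists_le_fam (fun ij : Fin n × Fin n => g ij.1 ij.2)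
  have hzero : ∀ m < -G, ∀ p ∈ M, (∀ i, Le m ((h *ᵥ p) i)) → p = 0 := by
    intro m hm p hp hp1
    ext1 i
    have h1 : p = g *ᵥ (h *ᵥ p) := by rw [Matrix.mulVec_mulVec, hgh, Matrix.one_mulVec]
    have h2 : Le (G + m) (p i) := by
      rw [h1]; exact Le.mulVec (fun i j => hG (i, j)) hp1 i
    exact eq_zero_of_le_of_ge h2 (hP p hp i) (by omega)
  have h0 : ∀ m < -G, Λ m = ⊥ := by
    intro m hm
    rw [eq_bot_iff]
    rintro _ ⟨p, hp, hp1, rfl⟩
    rw [hzero m hm p hp hp1]
    ext i; simp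
  obtain ⟨r, l, ν, hl, hlν, hsp⟩ := adapted Λ hΛ (-G) h0
  choose e he1 he2 he3 using hlν
  have hcol : ∀ i j, (h * Matrix.of (fun i j => e j i)) i j = (h *ᵥ e j) i := by
    intro i j; simp [Matrix.mul_apply, Matrix.mulVec, dotProduct]
  have hA : ∀ (c : Fin r → LaurentPolynomial K) (i),
      (h *ᵥ (Matrix.of (fun i j => e j i) *ᵥ c)) i = ∑ j, (h *ᵥ e j) i * c j := by
    intro c i
    rw [Matrix.mulVec_mulVec]
    simp only [Matrix.mulVec, dotProduct]
    rfl
  refine ⟨r, Matrix.of (fun i j => e j i), fun j => -ν j, fun j => he1 j, fun i j => ?_, ?_, ?_⟩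
  · rw [hcol, neg_neg]; exact he2 j i
  · rw [← Matrix.coe_mulVecLin, injective_iff_map_eq_zero]
    intro c hc
    by_contra hne
    have hs : (Finset.univ.filter fun j => c j ≠ 0).Nonempty := by
      by_contra hs
      apply hne
      ext1 j
      by_contra hj
      exact hs ⟨j, by simpa using hj⟩
    have hτ : ∀ j, ∃ a, c j ≠ 0 → Le a (c j) ∧ (c j).coeff a ≠ 0 := by
      intro j
      by_cases hj : c j = 0
      · exact ⟨0, fun h => (h hj).elim⟩
      · obtain ⟨a, ha⟩ := exists_top hj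
        exact ⟨a, fun _ => ha⟩
    choose τ hτ using hτ
    obtain ⟨j0, hj0, hmax⟩ := Finset.exists_max_image _ (fun j => τ j + ν j) hs
    have hj0' : c j0 ≠ 0 := by simpa using hj0
    have hle : ∀ j, Le (τ j0 + ν j0 - ν j) (c j) := by
      intro j
      by_cases hj : c j = 0
      · rw [hj]; exact Le.zero _
      · have := hmax j (by simpa using hj)
        exact (hτ j hj).1.mono (by omega)
    have hsum : ∑ j, (c j).coeff (τ j0 + ν j0 - ν j) • l j = 0 := by
      ext i
      have h1 := hA c i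
      rw [Matrix.coe_mulVecLin] at hc
      rw [hc, Matrix.mulVec_zero] at h1
      have h2 := congrArg (fun f : LaurentPolynomial K => f.coeff (τ j0 + ν j0)) h1
      simp only [Pi.zero_apply, AddMonoidAlgebra.coeff_zero, Finsupp.coe_zero,
        AddMonoidAlgebra.coeff_sum, Finsupp.coe_finsetSum, Finset.sum_apply] at h2
      rw [Finset.sum_apply, Pi.zero_apply, h2]
      refine Finset.sum_congr rfl fun j _ => ?_
      have h3 := (he2 j i).coeff_mul (hle j)
      rw [show ν j + (τ j0 + ν j0 - ν j) = τ j0 + ν j0 by ring] at h3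
      rw [h3, he3 j, Pi.smul_apply, smul_eq_mul, mul_comm]
    have := Fintype.linearIndependent_iff.1 hl _ hsum j0
    rw [show τ j0 + ν j0 - ν j0 = τ j0 by ring] at this
    exact (hτ j0 hj0').2 this
  · have key : ∀ N : ℕ, ∀ p ∈ M, (∀ i, Le (-G - 1 + N) ((h *ᵥ p) i)) →
        ∃ c : Fin r → LaurentPolynomial K,
          (∀ j, Ge 0 (c j) ∧ Le (-G - 1 + N + -ν j) (c j)) ∧
          p = Matrix.of (fun i j => e j i) *ᵥ c := by
      intro N
      induction N with
      | zero =>
        intro p hp hp1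
        refine ⟨0, fun j => ⟨Ge.zero _, Le.zero _⟩, ?_⟩
        rw [hzero _ (by omega) p hp hp1, Matrix.mulVec_zero]
      | succ N ih =>
        intro p hp hp1
        set m : ℤ := -G - 1 + ((N + 1 : ℕ) : ℤ) with hm
        obtain ⟨a, ha1, ha2⟩ := hsp m _ ⟨p, hp, hp1, rfl⟩
        let c0 : Fin r → LaurentPolynomial K := fun j => a j • T (m - ν j)
        have hc0 : ∀ j, Ge 0 (c0 j) ∧ Le (m + -ν j) (c0 j) := by
          intro j
          by_cases hj : m < ν j
          · simp only [c0, ha1 j hj, zero_smul]; exact ⟨Ge.zero _, Le.zero _⟩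
          · exact ⟨((Ge.T _).mono (by omega)).smul _, ((Le.T _).mono (by omega)).smul _⟩
        have hmem : Matrix.of (fun i j => e j i) *ᵥ c0 ∈ M := by
          have : Matrix.of (fun i j => e j i) *ᵥ c0 = ∑ j, c0 j • e j := by
            ext1 i; simp [Matrix.mulVec, dotProduct, mul_comm]
          rw [this]
          exact M.sum_mem fun j _ => smul_mem_of_ge hT (hc0 j).1 (he1 j)
        obtain ⟨c, hc1, hc2⟩ := ih (p - Matrix.of (fun i j => e j i) *ᵥ c0) (M.sub_mem hp hmem)
          (by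
            intro i k hk
            rw [Matrix.mulVec_sub, Pi.sub_apply, hA]
            have hk' : m ≤ k := by omega
            rcases lt_or_eq_of_le hk' with hlt | heq
            · have h1 : Le m (∑ j, (h *ᵥ e j) i * c0 j) := Le.sum fun j _ => by
                have := (he2 j i).mul (hc0 j).2
                rwa [show ν j + (m + -ν j) = m by ring] at this
              exact ((hp1 i).sub h1) k hlt
            · subst heq
              have h2 := congrFun ha2 i
              simp only [AddMonoidAlgebra.coeff_sub, Finsupp.coe_sub, Pi.sub_apply,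
                AddMonoidAlgebra.coeff_sum, Finsupp.coe_finsetSum, Finset.sum_apply]
              rw [h2, Finset.sum_apply, sub_eq_zero]
              refine Finset.sum_congr rfl fun j _ => ?_
              have h3 := (he2 j i).coeff_mul (hc0 j).2
              rw [show ν j + (m + -ν j) = m by ring] at h3
              rw [h3, he3 j, Pi.smul_apply, smul_eq_mul, mul_comm]
              congr 1
              simp [c0, sub_eq_add_neg])
        refine ⟨c + c0, fun j => ⟨(hc1 j).1.add (hc0 j).1,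
          ((hc1 j).2.mono (by omega)).add (hc0 j).2⟩, ?_⟩
        rw [Matrix.mulVec_add, ← hc2]; abel
    intro m p hp hp1
    by_cases hm : m < -G
    · exact ⟨0, fun j => ⟨Ge.zero _, Le.zero _⟩, by
        rw [hzero m hm p hp hp1, Matrix.mulVec_zero]⟩
    · obtain ⟨N, rfl⟩ : ∃ N : ℕ, m = -G - 1 + N := ⟨(m + G + 1).toNat, by omega⟩
      exact key N p hp hp1

end Pool.Agent.P.MP_d34769_ag
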