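import Pool.Agent.K.MP_d34769_ag.C25

/-! Diagrams of compact spaces and their total complexes. -/

open Set
open Pool.Agent.HT (BG)

noncomputable section
namespace Pool.Agent.CS

/-- A diagram of compact spaces. -/
structure Dg (S : Sh) where
  X : S.ι → Type
  [top : ∀ i, TopologicalSpace (X i)]
  [cpt : ∀ i, CompactSpace (X i)]
  [t2 : ∀ i, T2Space (X i)]
  mp : ∀ {i j}, S.rel i j → C(X i, X j)
  comp : ∀ {i j k} (h : S.rel i j) (h' : S.rel j k) x, mp h' (mp h x) = mp (S.trans h h') x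

attribute [instance] Dg.top Dg.cpt Dg.t2

/-- cochains that vanish near `K` -/
abbrev zz {X : Type} [TopologicalSpace X] [CompactSpace X] [T2Space X] (K : Set X) :
    Submodule ℂ (AS X) := (AS.sc X).zz K

section zz
variable {X Y : Type} [TopologicalSpace X] [CompactSpace X] [T2Space X] [TopologicalSpace Y]
  [CompactSpace Y] [T2Space Y] {K A : Set X} {L : Set Y}

theorem zz_iff {φ : AS X} : φ ∈ zz K ↔ ∀ t ∈ K, φ ∈ AS.z t := SC.mem_zz _

theorem zz_pl {g : C(X, Y)} (h : MapsTo g K L) {φ : AS Y} (hφ : φ ∈ zz L) :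
    AS.pull g φ ∈ zz K :=
  zz_iff.2 fun _ ht => AS.z_pull g.continuous.continuousAt (zz_iff.1 hφ _ (h ht))

theorem cp_mor_id {K₁ A₁ : Set X} (h : K₁ ⊆ K) (h' : A₁ ⊆ A) :
    (CP K A).Mor (CP K₁ A₁) LinearMap.id 0 :=
  ⟨fun n _ hx => Cx.Gcast (C := CP K₁ A₁) ⟨hx.1, SC.zz_anti h' hx.2⟩ (add_zero n).symm,
    fun _ _ _ hx => SC.zz_anti h hx,
    fun _ x _ => Cx.meq (Submodule.zero_mem _) (sub_self (AS.d x)).symm⟩

theorem cp_exc {A₁ : Set X} (hK : IsClosed K) (hA : IsClosed A) (hA₁ : IsClosed A₁) (h : A₁ ⊆ A)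
    (h' : A ∩ K ⊆ A₁) : (CP K A).QIa (CP K A₁) LinearMap.id 0 := by
  have e : A₁ ∩ K = A ∩ K :=
    Subset.antisymm (inter_subset_inter_left _ h) (subset_inter h' inter_subset_right)
  have q := SC.cx_exc (S := AS.sc X) hK hA
  rw [← e] at q
  exact Cx.QIa.left (cp_mor_id Subset.rfl h) (cp_mor_id Subset.rfl inter_subset_left)
    (SC.cx_exc hK hA₁) q

variable {B : Type} [TopologicalSpace B]

theorem zz_fib_open [T2Space B] (π : C(X, B)) (hK : IsClosed K) (φ : AS X) :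
    IsOpen {t | φ ∈ zz (K ∩ π ⁻¹' {t})} := by
  have h1 : IsClosed (π '' (K ∩ {y | φ ∈ AS.z y}ᶜ)) :=
    ((hK.inter ((AS.sc X).opn φ).isClosed_compl).isCompact.image π.continuous).isClosed
  have h2 : {t | φ ∈ zz (K ∩ π ⁻¹' {t})} = (π '' (K ∩ {y | φ ∈ AS.z y}ᶜ))ᶜ := by
    ext t
    constructor
    · rintro h ⟨u, hu, e⟩
      exact hu.2 (zz_iff.1 h u ⟨hu.1, e⟩)
    · intro h
      refine zz_iff.2 fun u hu => ?_
      by_contra h'
      exact h ⟨u, ⟨hu.1, h'⟩, hu.2⟩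
  rw [h2]
  exact h1.isOpen_compl

theorem zz_fib_glue (π : C(X, B)) (hK : IsClosed K) (hA : IsClosed A) {K₁ K₂ : Set B}
    (h₁ : IsClosed K₁) (h₂ : IsClosed K₂) {n : ℤ} {a : AS X} (ha : a ∈ (CP K A).G n)
    (h : ∀ t ∈ K₁ ∩ K₂, a ∈ zz (K ∩ π ⁻¹' {t})) :
    ∃ c ∈ (CP K A).G n, (∀ t ∈ K₁, c - a ∈ zz (K ∩ π ⁻¹' {t})) ∧
      ∀ t ∈ K₂, c ∈ zz (K ∩ π ⁻¹' {t}) := by
  obtain ⟨c, hc, e₁, e₂⟩ := (AS.sc X).glue (K ∩ π ⁻¹' K₁) (K ∩ π ⁻¹' K₂ ∪ A)
    (hK.inter (h₁.preimage π.continuous)) ((hK.inter (h₂.preimage π.continuous)).union hA) n a ha.1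
    fun u hu => hu.2.elim (fun h' => zz_iff.1 (h (π u) ⟨hu.1.2, h'.2⟩) u ⟨h'.1, rfl⟩)
      fun h' => zz_iff.1 ha.2 u h'
  refine ⟨c, ⟨hc, zz_iff.2 fun u hu => e₂ u (Or.inr hu)⟩, fun t ht => zz_iff.2 fun u hu =>
    e₁ u ⟨hu.1, ?_⟩, fun t ht => zz_iff.2 fun u hu => e₂ u (Or.inl ⟨hu.1, ?_⟩)⟩ <;>
  · have e : π u = t := hu.2
    rwa [mem_preimage, e]

end zz

namespace Dg
variable {S S' : Sh} (P : Dg S) (P' : Dg S')

/-- the module of cochains -/
abbrev T : Type := ∀ i, AS (P.X i)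

/-- the system of cochain complexes -/
def sys : Sys S fun i => AS (P.X i) where
  A i := AS.gc (P.X i)
  pl h := AS.pl (P.mp h)
  pd _ x := AS.pull_d _ x
  pe _ n x := AS.pull_e _ n x
  pp h h' x := (AS.pull_pull _ _ x).trans (congrArg (AS.pull · x) (funext (P.comp h h')))

/-- a family of subsets that is stable under the maps -/
@[ext] structure Fam where
  A : ∀ i, Set (P.X i)
  mp : ∀ {i j} (h : S.rel i j), MapsTo (P.mp h) (A i) (A j)

variable {P P'}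

/-- all members are closed -/
def Fam.Cl (K : P.Fam) : Prop := ∀ i, IsClosed (K.A i)

instance : Top P.Fam := ⟨⟨fun _ => univ, fun _ => mapsTo_univ _ _⟩⟩
instance : Bot P.Fam := ⟨⟨fun _ => ∅, fun _ => mapsTo_empty _ _⟩⟩
instance : Min P.Fam := ⟨fun K L => ⟨fun i => K.A i ∩ L.A i, fun h => (K.mp h).inter_inter (L.mp h)⟩⟩
instance : Max P.Fam := ⟨fun K L => ⟨fun i => K.A i ∪ L.A i, fun h => (K.mp h).union_union (L.mp h)⟩⟩

@[simp] theorem Fam.top_A (i : S.ι) : (⊤ : P.Fam).A i = univ := rfl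
@[simp] theorem Fam.bot_A (i : S.ι) : (⊥ : P.Fam).A i = ∅ := rfl
@[simp] theorem Fam.inf_A (K L : P.Fam) (i : S.ι) : (K ⊓ L).A i = K.A i ∩ L.A i := rfl
@[simp] theorem Fam.sup_A (K L : P.Fam) (i : S.ι) : (K ⊔ L).A i = K.A i ∪ L.A i := rfl
theorem Fam.cl_top : (⊤ : P.Fam).Cl := fun _ => isClosed_univ
theorem Fam.cl_bot : (⊥ : P.Fam).Cl := fun _ => isClosed_empty
theorem Fam.Cl.inf {K L : P.Fam} (h : K.Cl) (h' : L.Cl) : (K ⊓ L).Cl := fun i => (h i).inter (h' i)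
theorem Fam.Cl.sup {K L : P.Fam} (h : K.Cl) (h' : L.Cl) : (K ⊔ L).Cl := fun i => (h i).union (h' i)

theorem Fam.top_inf (K : P.Fam) : ⊤ ⊓ K = K := Fam.ext (funext fun _ => univ_inter _)
theorem Fam.inf_top (K : P.Fam) : K ⊓ ⊤ = K := Fam.ext (funext fun _ => inter_univ _)
theorem Fam.inf_bot (K : P.Fam) : K ⊓ ⊥ = ⊥ := Fam.ext (funext fun _ => inter_empty _)
theorem Fam.bot_sup (K : P.Fam) : ⊥ ⊔ K = K := Fam.ext (funext fun _ => empty_union _)
theorem Fam.sup_bot (K : P.Fam) : K ⊔ ⊥ = K := Fam.ext (funext fun _ => union_empty _)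

theorem Fam.stab (K : P.Fam) : P.sys.Stab fun i => zz (K.A i) where
  d _ := SC.zz_d _
  e _ n _ hx := zz_iff.2 fun t ht => AS.z_e (zz_iff.1 hx t ht) n
  s _ _ hx := zz_iff.2 fun t ht => AS.z_s (zz_iff.1 hx t ht)
  pl h _ hx := zz_pl (K.mp h) hx

/-- the double complex of cochains near `K` that vanish near `A` -/
def bc (K A : P.Fam) : Bc P.T := P.sys.bc A.stab K.stab

variable {K A K₁ A₁ : P.Fam} {K' A' : P'.Fam} {c : P.T} {n : ℤ} {p : ℕ}

theorem bc_bg (K A : P.Fam) : (bc K A).toBG = P.sys.bg := rfl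
theorem bc_U (K A : P.Fam) : (bc K A).U = Submodule.pi univ fun i => zz (A.A i) := rfl
theorem bc_N (K A : P.Fam) : (bc K A).N = Submodule.pi univ fun i => zz (K.A i) := rfl
theorem cx_d (K A : P.Fam) : (bc K A).cx.d = P.sys.bg.D := rfl
theorem col_d (K A : P.Fam) (p : ℕ) : ((bc K A).col p).d = P.sys.bg.d := rfl
theorem cx_G (K A : P.Fam) (n : ℤ) : (bc K A).cx.G n = degZ P.sys.bg n ⊓ (bc K A).U := rfl
theorem col_G (K A : P.Fam) (p : ℕ) (n : ℤ) :
    ((bc K A).col p).G n = rowZ P.sys.bg p n ⊓ (bc K A).U := rfl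
theorem N_eq (K A A₁ : P.Fam) : (bc K A).N = (bc K A₁).N := (bc_N K A).trans (bc_N K A₁).symm
theorem U_eq (K K₁ A : P.Fam) : (bc K A).U = (bc K₁ A).U := (bc_U K A).trans (bc_U K₁ A).symm

theorem mem_U : c ∈ (bc K A).U ↔ ∀ i, c i ∈ zz (A.A i) :=
  ⟨fun h i => h i trivial, fun h i _ => h i⟩

theorem mem_N : c ∈ (bc K A).N ↔ ∀ i, c i ∈ zz (K.A i) :=
  ⟨fun h i => h i trivial, fun h i _ => h i⟩

theorem mem_col_G : c ∈ ((bc K A).col p).G n ↔
    ∀ i, (S.deg i = p → c i ∈ (CP (K.A i) (A.A i)).G n) ∧ (S.deg i ≠ p → c i = 0) :=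
  Sys.mem_col_G A.stab K.stab

theorem mem_col_Z : c ∈ ((bc K A).col p).Z n ↔
    ∀ i, (S.deg i = p → c i ∈ (CP (K.A i) (A.A i)).Z n) ∧ (S.deg i ≠ p → c i = 0) :=
  Sys.mem_col_Z A.stab K.stab

theorem mem_col_B : c ∈ ((bc K A).col p).B n ↔
    ∀ i, (S.deg i = p → c i ∈ (CP (K.A i) (A.A i)).B n) ∧ (S.deg i ≠ p → c i ∈ zz (K.A i)) :=
  Sys.mem_col_B A.stab K.stab

theorem mem_cx_G : c ∈ (bc K A).cx.G n ↔ ∀ i, c i ∈ (CP (K.A i) (A.A i)).G (n - S.deg i) :=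
  Sys.mem_cx_G A.stab K.stab

theorem N_D (K : P.Fam) : ∀ x ∈ (bc K A).N, (bc K₁ A₁).cx.d x ∈ (bc K A).N := (bc K A).cx.dN

theorem N_anti (h : ∀ i, K₁.A i ⊆ K.A i) : (bc K A).cx.N ≤ (bc K₁ A₁).N :=
  fun _ hx i _ => SC.zz_anti (h i) (hx i trivial)

theorem U_sup (K₂ : P.Fam) : (bc K A).U ⊓ (bc K₁ A₁).N = (bc K₂ (A ⊔ K₁)).U := by
  ext c
  rw [Submodule.mem_inf, mem_U, mem_U, mem_N, ← forall_and]
  exact forall_congr' fun i => by rw [Fam.sup_A, zz, zz, zz, SC.zz_union, Submodule.mem_inf]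

theorem cx_sub : (bc K A).cx.sub (bc K₁ A₁).N (N_D K₁) = (bc K (A ⊔ K₁)).cx :=
  Cx.ext_YA2 ((cx_d K A).trans (cx_d _ _).symm) (funext fun n => by
    rw [cx_G, ← U_sup (K := K) (A₁ := A₁), ← inf_assoc, ← cx_G]; rfl) (N_eq K A (A ⊔ K₁))

theorem cx_quo (h : ∀ i, K₁.A i ⊆ K.A i) :
    (bc K A).cx.quo (bc K₁ A₁).N (N_D K₁) (N_anti h) = (bc K₁ A).cx :=
  Cx.ext_YA2 ((cx_d K A).trans (cx_d _ _).symm) (funext fun n => by
    rw [cx_G, ← U_eq K, ← cx_G]; rfl) (N_eq K₁ A₁ A)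

/-- changing the families -/
theorem mor_id (h : ∀ i, K₁.A i ⊆ K.A i) (h' : ∀ i, A₁.A i ⊆ A.A i) :
    (bc K A).Mor (bc K₁ A₁) LinearMap.id 0 where
  fG p n _ hx := by
    rw [add_zero, col_G]
    rw [col_G] at hx
    exact ⟨hx.1, mem_U.2 fun i => SC.zz_anti (h' i) (mem_U.1 hx.2 i)⟩
  fN _ _ hx := N_anti (A := A) h hx
  fd x _ := by rw [bc_bg, bc_bg, LinearMap.id_apply, LinearMap.id_apply, sub_self]; exact zero_mem _
  fδ x _ := by rw [bc_bg, bc_bg, LinearMap.id_apply, LinearMap.id_apply, sub_self]; exact zero_mem _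

/-- only the part of `A` in `K` matters -/
theorem col_exc (hK : K.Cl) (hA : A.Cl) (hA₁ : A₁.Cl) (h : ∀ i, A₁.A i ⊆ A.A i)
    (h' : ∀ i, A.A i ∩ K.A i ⊆ A₁.A i) (p : ℕ) :
    ((bc K A).col p).QIa ((bc K A₁).col p) LinearMap.id 0 := fun k =>
  Sys.col_qi A.stab K.stab A₁.stab K.stab (fun _ => LinearMap.id) p fun i _ =>
    cp_exc (hK i) (hA i) (hA₁ i) (h i) (h' i) k

/-- if `K ⊆ A` there is nothing -/
theorem ac_of_subset (h : ∀ i, K.A i ⊆ A.A i) (n : ℤ) : (bc K A).cx.Ac n :=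
  fun _ hx => Cx.N_le_B fun i _ => SC.zz_anti (h i) (hx.1.2 i trivial)

section hom

/-- A map of diagrams over a map of shapes. -/
structure Hom (φ : ShH S S') (P : Dg S) (P' : Dg S') where
  g : ∀ {i j}, φ.R i j → C(P.X i, P'.X j)
  gl : ∀ {i i' j} (h : S.rel i i') (h' : φ.R i' j) x, g h' (P.mp h x) = g (φ.l h h') x
  gr : ∀ {i j j'} (h : φ.R i j) (h' : S'.rel j j') x, P'.mp h' (g h x) = g (φ.r h h') x

variable {φ : ShH S S'} (F : Hom φ P P')

/-- the map of systems -/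
def Hom.sys : SysH φ P.sys P'.sys where
  g h := AS.pl (F.g h)
  gd _ x := AS.pull_d _ x
  ge _ n x := AS.pull_e _ n x
  gl h h' x := (AS.pull_pull _ _ x).trans (congrArg (AS.pull · x) (funext (F.gl h h')))
  gr h h' x := (AS.pull_pull _ _ x).trans (congrArg (AS.pull · x) (funext (F.gr h h')))

/-- the map on cochains -/
abbrev Hom.map : P'.T →ₗ[ℂ] P.T := F.sys.map

/-- the map sends the family `K` to the family `K'` -/
def Hom.Maps (K : P.Fam) (K' : P'.Fam) : Prop :=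
  ∀ {i j} (h : φ.R i j), MapsTo (F.g h) (K.A i) (K'.A j)

theorem Hom.mor (hK : F.Maps K K') (hA : F.Maps A A') : (bc K' A').Mor (bc K A) F.map 0 :=
  F.sys.mor A.stab K.stab A'.stab K'.stab (fun h _ _ hx => zz_pl (hA h) hx)
    fun h _ _ _ hx => zz_pl (hK h) hx

end hom

section diag
variable {Q : Dg S} (g : ∀ i, C(P.X i, Q.X i))

/-- the maps `g i` commute with the maps of the diagrams -/
def Com : Prop := ∀ {i j} (h : S.rel i j) x, g j (P.mp h x) = Q.mp h (g i x)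

/-- the diagonal pull-back -/
abbrev dpl : Q.T →ₗ[ℂ] P.T := LinearMap.piMap fun i => AS.pl (g i)

variable {g} {L M : Q.Fam}

/-- the preimage of a family -/
def Com.comap (hg : Com g) (L : Q.Fam) : P.Fam where
  A i := g i ⁻¹' L.A i
  mp h x hx := by rw [mem_preimage, hg]; exact L.mp h hx

theorem Com.mor (hg : Com g) (hK : ∀ i, MapsTo (g i) (K.A i) (L.A i))
    (hA : ∀ i, MapsTo (g i) (A.A i) (M.A i)) : (bc L M).Mor (bc K A) (dpl g) 0 :=
  Sys.mor_diag M.stab L.stab A.stab K.stab _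
    (fun i n _ hx hx' => ⟨(add_zero n).symm ▸ AS.pull_mem_G _ hx, zz_pl (hA i) hx'⟩)
    (fun i _ _ hx => zz_pl (hK i) hx)
    (fun i x _ => Cx.meq (Submodule.zero_mem _) (sub_eq_zero.2 (AS.pull_d (g i) x)).symm)
    (fun i x => Gc.map_s (AS.pull_e (g i)) x)
    fun h x => (AS.pull_pull _ _ x).trans ((congrArg (AS.pull · x) (funext (hg h)).symm).trans
      (AS.pull_pull _ _ x).symm)

theorem dpl_col_qi (p : ℕ) (q : ∀ i, S.deg i = p →
    (CP (L.A i) (M.A i)).QI (CP (K.A i) (A.A i)) (AS.pl (g i)) 0 n) :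
    ((bc L M).col p).QI ((bc K A).col p) (dpl g) 0 n :=
  Sys.col_qi M.stab L.stab A.stab K.stab _ p q

/-- the restriction of a diagram to a closed family -/
def res (K : P.Fam) (hK : K.Cl) : Dg S where
  X i := K.A i
  cpt i := isCompact_iff_compactSpace.1 (hK i).isCompact
  mp h := ⟨(K.mp h).restrict _ _ _, (P.mp h).continuous.restrict _⟩
  comp h h' x := Subtype.ext (P.comp h h' x)

/-- the inclusion of the restriction -/
def inc (K : P.Fam) (hK : K.Cl) (i : S.ι) : C((res K hK).X i, P.X i) :=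
  ⟨Subtype.val, continuous_subtype_val⟩

theorem inc_com (K : P.Fam) (hK : K.Cl) : Com (inc K hK) := fun _ _ => rfl

end diag

section base
variable {B : Type} [TopologicalSpace B]

/-- A diagram over a base. -/
structure Ov (P : Dg S) (B : Type) [TopologicalSpace B] where
  π : ∀ i, C(P.X i, B)
  comm : ∀ {i j} (h : S.rel i j) x, π j (P.mp h x) = π i x

variable (O : Ov P B)

/-- the family over a subset of the base -/
def Ov.fam (V : Set B) : P.Fam where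
  A i := O.π i ⁻¹' V
  mp h x hx := by rw [mem_preimage, O.comm]; exact hx

theorem Ov.fam_cl {V : Set B} (h : IsClosed V) : (O.fam V).Cl := fun i =>
  h.preimage (O.π i).continuous

theorem Ov.fam_univ : O.fam univ = ⊤ := rfl

theorem Ov.fam_empty : O.fam ∅ = ⊥ := rfl

theorem Ov.N_fam {V : Set B} :
    c ∈ (bc (K ⊓ O.fam V) A).N ↔ ∀ t ∈ V, c ∈ (bc (K ⊓ O.fam {t}) A).N :=
  ⟨fun h _ ht => N_anti (A := A) (fun _ => inter_subset_inter_right _
      (preimage_mono (singleton_subset_iff.2 ht))) h,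
    fun h i _ => zz_iff.2 fun u hu => zz_iff.1 (h (O.π i u) hu.2 i trivial) u ⟨hu.1, rfl⟩⟩

variable [T2Space B]

theorem Ov.N_open (hK : K.Cl) (c : P.T) : IsOpen {t | c ∈ (bc (K ⊓ O.fam {t}) A).N} := by
  have e : {t | c ∈ (bc (K ⊓ O.fam {t}) A).N} = ⋂ i, {t | c i ∈ zz (K.A i ∩ O.π i ⁻¹' {t})} :=
    Set.ext fun t => by rw [mem_iInter]; exact mem_N (A := A)
  rw [e]
  exact isOpen_iInter_of_finite fun i => zz_fib_open (O.π i) (hK i) (c i)

/-- the total complex of the pair `(K, A)` as a soft complex over the base -/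
def Ov.scr (hK : K.Cl) (hA : A.Cl) : SC B P.T where
  d := (bc K A).cx.d
  G := (bc K A).cx.G
  z t := (bc (K ⊓ O.fam {t}) A).N
  dG := (bc K A).cx.dG
  dz t := N_D _
  dd _ x := Cx.meq (Submodule.zero_mem _) (P.sys.bg.DD x).symm
  neg := ⟨0, fun n hn x hx => funext fun i => by
    have h := (mem_cx_G.1 hx i).1
    rwa [show (AS.sc (P.X i)).G (n - S.deg i) = ⊥ from Gc.G_neg (by omega)] at h⟩
  opn := O.N_open hK
  glue K₁ K₂ h₁ h₂ n a ha h := by
    choose c hc e₁ e₂ using fun i => zz_fib_glue (O.π i) (hK i) (hA i) h₁ h₂ (mem_cx_G.1 ha i)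
      fun t ht => h t ht i trivial
    exact ⟨c, mem_cx_G.2 hc, fun t ht i _ => e₁ i t ht, fun t ht i _ => e₂ i t ht⟩

theorem Ov.scr_zz (hK : K.Cl) (hA : A.Cl) (V : Set B) :
    (O.scr hK hA).zz V = (bc (K ⊓ O.fam V) A).N :=
  Submodule.ext fun _ => (SC.mem_zz _).trans O.N_fam.symm

theorem Ov.scr_cx (hK : K.Cl) (hA : A.Cl) (V W : Set B) :
    (O.scr hK hA).cx V W = (bc (K ⊓ O.fam V) (A ⊔ K ⊓ O.fam W)).cx :=
  Cx.ext_YA2 ((cx_d K A).trans (cx_d _ _).symm) (funext fun n => by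
    rw [cx_G, ← U_sup (K := K) (A₁ := A), ← inf_assoc, ← cx_G, ← O.scr_zz hK hA W]; rfl)
    ((O.scr_zz hK hA V).trans (N_eq _ A (A ⊔ K ⊓ O.fam W)))

/-- a column of the pair `(K, A)` as a soft complex over the base -/
def Ov.scc (hK : K.Cl) (hA : A.Cl) (p : ℕ) : SC B P.T where
  d := ((bc K A).col p).d
  G := ((bc K A).col p).G
  z t := (bc (K ⊓ O.fam {t}) A).N
  dG := ((bc K A).col p).dG
  dz t := (bc (K ⊓ O.fam {t}) A).dN
  dd _ x := Cx.meq (Submodule.zero_mem _) (P.sys.bg.dd x).symm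
  neg := ⟨0, fun n hn x hx => funext fun i => by
    by_cases e : S.deg i = p
    · have h := ((mem_col_G.1 hx i).1 e).1
      rwa [show (AS.sc (P.X i)).G n = ⊥ from Gc.G_neg hn] at h
    · exact (mem_col_G.1 hx i).2 e⟩
  opn := O.N_open hK
  glue K₁ K₂ h₁ h₂ n a ha h := by
    have h0 : ∀ i, ∃ c : AS (P.X i), ((S.deg i = p → c ∈ (CP (K.A i) (A.A i)).G n) ∧
        (S.deg i ≠ p → c = 0)) ∧ (∀ t ∈ K₁, c - a i ∈ zz (K.A i ∩ O.π i ⁻¹' {t})) ∧
        ∀ t ∈ K₂, c ∈ zz (K.A i ∩ O.π i ⁻¹' {t}) := fun i => by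
      by_cases e : S.deg i = p
      · obtain ⟨c, hc, e'⟩ := zz_fib_glue (O.π i) (hK i) (hA i) h₁ h₂ ((mem_col_G.1 ha i).1 e)
          fun t ht => h t ht i trivial
        exact ⟨c, ⟨fun _ => hc, fun h => (h e).elim⟩, e'⟩
      · exact ⟨0, ⟨fun h => (e h).elim, fun _ => rfl⟩,
          fun t _ => by simp [(mem_col_G.1 ha i).2 e], fun t _ => Submodule.zero_mem _⟩
    choose c hc e₁ e₂ using h0
    exact ⟨c, mem_col_G.2 hc, fun t ht i _ => e₁ i t ht, fun t ht i _ => e₂ i t ht⟩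

theorem Ov.scc_zz (hK : K.Cl) (hA : A.Cl) (p : ℕ) (V : Set B) :
    (O.scc hK hA p).zz V = (bc (K ⊓ O.fam V) A).N :=
  Submodule.ext fun _ => (SC.mem_zz _).trans O.N_fam.symm

theorem Ov.scc_cx (hK : K.Cl) (hA : A.Cl) (p : ℕ) (V W : Set B) :
    (O.scc hK hA p).cx V W = (bc (K ⊓ O.fam V) (A ⊔ K ⊓ O.fam W)).col p :=
  Cx.ext_YA2 ((col_d K A p).trans (col_d _ _ p).symm) (funext fun n => by
    rw [col_G, ← U_sup (K := K) (A₁ := A), ← inf_assoc, ← col_G, ← O.scc_zz hK hA p W]; rfl)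
    ((O.scc_zz hK hA p V).trans (N_eq _ A (A ⊔ K ⊓ O.fam W)))

/-- the total complex as a soft complex over the base -/
abbrev Ov.sc : SC B P.T := O.scr Fam.cl_top Fam.cl_bot

theorem Ov.sc_cx (V W : Set B) : O.sc.cx V W = (bc (O.fam V) (O.fam W)).cx := by
  rw [O.scr_cx, Fam.top_inf, Fam.top_inf, Fam.bot_sup]

theorem Ov.scc_cx' (p : ℕ) (V W : Set B) :
    (O.scc Fam.cl_top Fam.cl_bot p).cx V W = (bc (O.fam V) (O.fam W)).col p := by
  rw [O.scc_cx, Fam.top_inf, Fam.top_inf, Fam.bot_sup]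

theorem Hom.sc_mor {φ : ShH S S'} (F : Hom φ P P') (O' : Ov P' B)
    (h : ∀ {i j} (h : φ.R i j) x, O'.π j (F.g h x) = O.π i x) (hK : K.Cl) (hA : A.Cl)
    (hK' : K'.Cl) (hA' : A'.Cl) (mK : F.Maps K K') (mA : F.Maps A A') :
    (O'.scr hK' hA').Mor (O.scr hK hA) F.map 0 where
  fG := (F.mor mK mA).cx.fG
  fz t x hx := by
    have m : F.Maps (K ⊓ O.fam {t}) (K' ⊓ O'.fam {t}) :=
      fun r u hu => ⟨mK r hu.1, (h r u).trans hu.2⟩
    exact (mem_N (A := A)).2 fun i => mat_mem (g := @F.sys.g) fun j r _ =>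
      zz_pl (m r) ((mem_N (A := A')).1 hx j)
  fd _ x := by
    have h1 : F.map ((bc K' A').cx.d x) = (bc K A).cx.d (F.map x) := by
      rw [cx_d, cx_d, BG.D_apply, BG.D_apply, map_add, F.sys.map_d, F.sys.map_δ]
    exact Cx.meq (Submodule.zero_mem _) (sub_eq_zero.2 h1).symm

/-- fibrewise acyclic implies acyclic -/
theorem Ov.acf [CompactSpace B] (hK : K.Cl) (hA : A.Cl)
    (h : ∀ t, ∀ k ≤ n, (bc (K ⊓ O.fam {t}) A).cx.Ac k) : ∀ k ≤ n, (bc K A).cx.Ac k := by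
  have h1 := SC.soft (S := O.scr hK hA) (n := n) isClosed_univ isClosed_empty fun t _ => by
    rw [O.scr_cx, O.fam_empty, Fam.inf_bot, Fam.sup_bot]
    exact h t
  rwa [O.scr_cx, O.fam_empty, O.fam_univ, Fam.inf_bot, Fam.sup_bot, Fam.inf_top] at h1

end base

section act

/-- An action of a group on a diagram, with signs. -/
structure Act (P : Dg S) (Γ : Type) [Group Γ] where
  a : Γ →* Equiv.Perm S.ι
  s : Γ → S.ι → ℤˣ
  t : ∀ g {i j}, a g i = j → C(P.X i, P.X j)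
  deg : ∀ g i, S.deg (a g i) = S.deg i
  ε : ∀ g i j, s g i * S.ε (a g i) (a g j) = S.ε i j * s g j
  s_mul : ∀ g g' i, s (g * g') i = s g (a g' i) * s g' i
  t_one : ∀ {i} (h : a 1 i = i) x, t 1 h x = x
  t_mul : ∀ g g' {i j k} (h' : a g' i = j) (h : a g j = k) (h'' : a (g * g') i = k) x,
    t g h (t g' h' x) = t (g * g') h'' x
  t_mp : ∀ g {i j i' j'} (h : S.rel i j) (h' : S.rel i' j') (e : a g i = i') (e' : a g j = j') x,
    P.mp h' (t g e x) = t g e' (P.mp h x)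

variable {Γ : Type} [Group Γ] (G : Act P Γ)

theorem Act.s_one (i : S.ι) : G.s 1 i = 1 := by
  have h := G.s_mul 1 1 i
  rw [mul_one, map_one, Equiv.Perm.one_apply] at h
  exact mul_eq_left.1 h.symm

theorem Act.t_congr {g g' : Γ} (e : g = g') {i j : S.ι} (h : G.a g i = j) (h' : G.a g' i = j)
    (x : P.X i) : G.t g h x = G.t g' h' x := by subst e; rfl

/-- the contravariant action on cochains -/
def Act.r0 (g : Γ) : Module.End ℂ P.T := LinearMap.pi fun i =>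
  ((G.s g i : ℤ) : ℂ) • AS.pl (G.t g (rfl : G.a g i = _)) ∘ₗ LinearMap.proj (G.a g i)

theorem Act.r0_apply (g : Γ) (c : P.T) {i j : S.ι} (e : G.a g i = j) :
    G.r0 g c i = ((G.s g i : ℤ) : ℂ) • AS.pull (G.t g e) (c j) := by subst e; rfl

theorem Act.r0_one : G.r0 1 = 1 := by
  refine LinearMap.ext fun c => funext fun i => ?_
  have e : G.a 1 i = i := by rw [map_one, Equiv.Perm.one_apply]
  rw [G.r0_apply 1 c e, G.s_one, show ⇑(G.t 1 e) = id from funext (G.t_one e), AS.pull_id]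
  simp

theorem Act.r0_mul (g g' : Γ) : G.r0 (g * g') = G.r0 g' * G.r0 g := by
  refine LinearMap.ext fun c => funext fun i => ?_
  have e : G.a (g * g') i = G.a g (G.a g' i) := by rw [map_mul, Equiv.Perm.mul_apply]
  rw [G.r0_apply _ c e, Module.End.mul_apply, G.r0_apply g' _ rfl, G.r0_apply g c rfl, map_smul,
    AS.pull_pull, smul_smul, G.s_mul, Units.val_mul, Int.cast_mul, mul_comm]
  exact congrArg (_ • AS.pull · _) (funext fun x => (G.t_mul g g' rfl rfl e x).symm)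

theorem Act.mat_r0 (G' : Act P' Γ) {R : S.ι → S'.ι → Prop} {μ : S.ι → S'.ι → ℤ}
    (f : ∀ {i j}, R i j → C(P.X i, P'.X j)) (sup : ∀ i j, μ i j ≠ 0 → R i j) (g : Γ)
    (hμ : ∀ i j, G.s g i * μ (G.a g i) (G'.a g j) = μ i j * G'.s g j)
    (ht : ∀ {i j i' j'} (h : R i j) (h' : R i' j') (e : G.a g i = i') (e' : G'.a g j = j') x,
      f h' (G.t g e x) = G'.t g e' (f h x)) (c : P'.T) :
    mat (T := fun i => AS (P.X i)) (T' := fun j => AS (P'.X j)) μ (fun {_ _} h => AS.pl (f h)) (G'.r0 g c) =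
      G.r0 g (mat (T := fun i => AS (P.X i)) (T' := fun j => AS (P'.X j)) μ (fun {_ _} h => AS.pl (f h)) c) := by
  funext i
  rw [G.r0_apply g _ rfl, mat_apply, mat_apply, map_sum, Finset.smul_sum]
  refine Fintype.sum_equiv (G'.a g) _ _ fun j => ?_
  have h1 := hμ i j
  by_cases h0 : μ i j = 0
  · rw [h0, zero_mul, Units.mul_right_eq_zero] at h1
    simp [h0, h1]
  have h2 : μ (G.a g i) (G'.a g j) ≠ 0 := fun h => by
    rw [h, mul_zero, eq_comm, Units.mul_left_eq_zero] at h1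
    exact h0 h1
  rw [dif_pos (sup _ _ h0), dif_pos (sup _ _ h2), G'.r0_apply g c rfl, map_smul, map_smul,
    smul_smul, smul_smul, ← Int.cast_mul, ← Int.cast_mul, h1]
  refine congrArg (_ • ·) ((AS.pull_pull _ _ _).trans (Eq.trans ?_ (AS.pull_pull _ _ _).symm))
  exact congrArg (AS.pull · _) (funext fun x => (ht _ _ rfl rfl x).symm)

/-- the action on cochains -/
def Act.r : Γ →* Module.End ℂ P.T where
  toFun g := LinearMap.pi fun i =>
    ((G.s g⁻¹ i : ℤ) : ℂ) • AS.pl (G.t g⁻¹ (rfl : G.a g⁻¹ i = _)) ∘ₗ LinearMap.proj (G.a g⁻¹ i)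
  map_one' := by exact (congrArg G.r0 inv_one).trans G.r0_one
  map_mul' g g' := by exact (congrArg G.r0 (mul_inv_rev g g')).trans (G.r0_mul _ _)

theorem Act.r_apply (g : Γ) (c : P.T) {i j : S.ι} (e : G.a g⁻¹ i = j) :
    G.r g c i = ((G.s g⁻¹ i : ℤ) : ℂ) • AS.pull (G.t g⁻¹ e) (c j) := by subst e; rfl

theorem Act.mem_fix : c ∈ Fix G.r ↔
    ∀ g {i j} (e : G.a g i = j), c i = ((G.s g i : ℤ) : ℂ) • AS.pull (G.t g e) (c j) := by
  rw [mem_Fix]
  refine ⟨fun h g i j e => ?_, fun h g => funext fun i => (h g⁻¹ rfl).symm⟩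
  rw [← G.r0_apply g c e, ← show G.r g⁻¹ = G.r0 g from congrArg G.r0 (inv_inv g), h]

/-- an invariant family -/
def Act.Inv (K : P.Fam) : Prop := ∀ g {i j} (e : G.a g i = j), MapsTo (G.t g e) (K.A i) (K.A j)

theorem Act.inv_top : G.Inv ⊤ := fun _ _ _ _ => mapsTo_univ _ _

theorem Act.inv_bot : G.Inv ⊥ := fun _ _ _ _ => mapsTo_empty _ _

theorem Act.Inv.inf {G : Act P Γ} (h : G.Inv K) (h' : G.Inv K₁) : G.Inv (K ⊓ K₁) :=
  fun g _ _ e => (h g e).inter_inter (h' g e)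

theorem Act.Inv.sup {G : Act P Γ} (h : G.Inv K) (h' : G.Inv K₁) : G.Inv (K ⊔ K₁) :=
  fun g _ _ e => (h g e).union_union (h' g e)

theorem Act.act (hK : G.Inv K) (hA : G.Inv A) : (bc K A).Act G.r where
  d g x := funext fun i =>
    (congrArg (_ • ·) (AS.pull_d (G.t g⁻¹ rfl) (x _))).trans (map_smul AS.d _ _).symm
  δ g x := funext fun i => by
    have h1 := congrFun (G.mat_r0 G (@P.mp) (fun i j h => (S.sup i j h).1) g⁻¹ (G.ε g⁻¹)
      (G.t_mp g⁻¹) x) i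
    refine Eq.trans ?_ (congrArg (AS.gc (P.X i)).s h1).symm
    exact (congrArg (_ • ·) (Gc.map_s (f := AS.pl (G.t g⁻¹ rfl)) (AS.pull_e _) _)).trans (map_smul _ _ _).symm
  e g p n x := funext fun i => by
    refine (G.r_apply g _ rfl).trans (Eq.trans ?_ (P.sys.bg_e p n _ i).symm)
    rw [show (bc K A).e p n x (G.a g⁻¹ i) = _ from P.sys.bg_e p n x _, G.deg]
    split_ifs
    · exact (congrArg (_ • ·) (AS.pull_e _ n _)).trans (map_smul _ _ _).symm
    · rw [map_zero, smul_zero]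
  U g _ hx _ _ := Submodule.smul_mem _ _ (zz_pl (hA g⁻¹ rfl) (hx _ trivial))
  N g _ hx _ _ := Submodule.smul_mem _ _ (zz_pl (hK g⁻¹ rfl) (hx _ trivial))

/-- the invariant double complex -/
abbrev Act.bc (hK : G.Inv K) (hA : G.Inv A) : Bc P.T := (G.act hK hA).inv

theorem Act.inv_fam {B : Type} [TopologicalSpace B] (O : Ov P B)
    (h : ∀ g {i j} (e : G.a g i = j) x, O.π j (G.t g e x) = O.π i x) (V : Set B) :
    G.Inv (O.fam V) := fun g _ _ e x hx => (congrArg (· ∈ V) (h g e x)).mpr hx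

theorem Act.sc_act {B : Type} [TopologicalSpace B] [T2Space B] (O : Ov P B)
    (h : ∀ g {i j} (e : G.a g i = j) x, O.π j (G.t g e x) = O.π i x) (hK : K.Cl) (hA : A.Cl)
    (iK : G.Inv K) (iA : G.Inv A) : (O.scr hK hA).Act G.r :=
  ⟨(G.act iK iA).cx.d, (G.act iK iA).cx.G,
    fun g t => (G.act (iK.inf (G.inv_fam O h {t})) iA).N g⟩

theorem Act.scc_act {B : Type} [TopologicalSpace B] [T2Space B] (O : Ov P B)
    (h : ∀ g {i j} (e : G.a g i = j) x, O.π j (G.t g e x) = O.π i x) (hK : K.Cl) (hA : A.Cl)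
    (iK : G.Inv K) (iA : G.Inv A) (p : ℕ) : (O.scc hK hA p).Act G.r :=
  ⟨(G.act iK iA).d, ((G.act iK iA).col p).G,
    fun g t => (G.act (iK.inf (G.inv_fam O h {t})) iA).N g⟩

/-- an equivariant map of diagrams -/
theorem Hom.map_r {φ : ShH S S'} (F : Hom φ P P') (G' : Act P' Γ)
    (hμ : ∀ g i j, G.s g i * φ.μ (G.a g i) (G'.a g j) = φ.μ i j * G'.s g j)
    (ht : ∀ g {i j i' j'} (h : φ.R i j) (h' : φ.R i' j') (e : G.a g i = i') (e' : G'.a g j = j') x,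
      F.g h' (G.t g e x) = G'.t g e' (F.g h x)) (g : Γ) (c : P'.T) :
    F.map (G'.r g c) = G.r g (F.map c) :=
  G.mat_r0 G' (@F.g) (fun i j h => (φ.sup i j h).1) g⁻¹ (hμ g⁻¹) (ht g⁻¹) c

/-- the action of a group through a homomorphism -/
def Act.comap {Γ' : Type} [Group Γ'] (f : Γ' →* Γ) : Act P Γ' where
  a := G.a.comp f
  s g := G.s (f g)
  t g _ _ e := G.t (f g) e
  deg g := G.deg (f g)
  ε g := G.ε (f g)
  s_mul g g' i := (congrArg (G.s · i) (map_mul f g g')).trans (G.s_mul _ _ i)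
  t_one h x := (G.t_congr (map_one f) h (by rw [map_one, Equiv.Perm.one_apply]) x).trans
    (G.t_one _ x)
  t_mul g g' _ _ _ h' h h'' x := (G.t_mul (f g) (f g') h' h (map_mul f g g' ▸ h'') x).trans
    (G.t_congr (map_mul f g g').symm _ h'' x)
  t_mp g := G.t_mp (f g)

theorem Act.comap_r {Γ' : Type} [Group Γ'] (f : Γ' →* Γ) : (G.comap f).r = G.r.comp f :=
  MonoidHom.ext fun g => congrArg G.r0 (map_inv f g)

/-- the action on the restriction to an invariant closed family -/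
def Act.res (hK : K.Cl) (iK : G.Inv K) : Act (res K hK) Γ :=
  { G with
    t := fun g _ _ e => ⟨(iK g e).restrict _ _ _, (G.t g e).continuous.restrict _⟩
    t_one := fun h x => Subtype.ext (G.t_one h x.1)
    t_mul := fun g g' _ _ _ h' h h'' x => Subtype.ext (G.t_mul g g' h' h h'' x.1)
    t_mp := fun g _ _ _ _ h h' e e' x => Subtype.ext (G.t_mp g h h' e e' x.1) }

theorem Act.dpl_r {Q : Dg S} (G' : Act Q Γ) (u : ∀ i, C(P.X i, Q.X i)) (ha : G.a = G'.a)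
    (hs : G.s = G'.s) (ht : ∀ g {i j} (e : G.a g i = j) (e' : G'.a g i = j) x,
      u j (G.t g e x) = G'.t g e' (u i x)) (g : Γ) (c : Q.T) :
    dpl u (G'.r g c) = G.r g (dpl u c) := by
  funext i
  have e' : G'.a g⁻¹ i = G.a g⁻¹ i := by rw [ha]
  refine Eq.trans (congrArg (AS.pull (u i)) (G'.r_apply g c e')) ?_
  rw [G.r_apply g _ rfl, map_smul, hs, AS.pull_pull]
  refine congrArg (_ • ·) (Eq.trans ?_ (AS.pull_pull _ _ _).symm)
  exact congrArg (AS.pull · _) (funext fun x => (ht g⁻¹ rfl e' x).symm)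

end act

end Dg

end Pool.Agent.CS
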