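import Pool.Agent.K.MP_d34769_ag.C52

/-! Block unitary matrices: spectral theorem, KAK, QR and flags, for matrices supported on an
equivalence relation. -/

open Matrix Module

noncomputable section
namespace Pool.Agent.CS

variable {I : Type} [Fintype I] [DecidableEq I]

section support
variable {e : I → I → Prop} {g h : Matrix I I ℂ}

omit [DecidableEq I] in
theorem e4_mul (ht : ∀ i j l, e i j → e j l → e i l) (hg : ∀ i j, g i j ≠ 0 → e i j)
    (hh : ∀ i j, h i j ≠ 0 → e i j) : ∀ i j, (g * h) i j ≠ 0 → e i j := by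
  intro i j hij
  rw [Matrix.mul_apply] at hij
  obtain ⟨l, -, hl⟩ := Finset.exists_ne_zero_of_sum_ne_zero hij
  exact ht _ _ _ (hg _ _ (left_ne_zero_of_mul hl)) (hh _ _ (right_ne_zero_of_mul hl))

omit [Fintype I] in
theorem e4_diagonal (hr : ∀ i, e i i) (t : I → ℂ) : ∀ i j, diagonal t i j ≠ 0 → e i j := by
  intro i j hij
  by_cases h : i = j
  · subst h; exact hr i
  · exact absurd (diagonal_apply_ne t h) hij

omit [Fintype I] in
theorem e4_one (hr : ∀ i, e i i) : ∀ i j, (1 : Matrix I I ℂ) i j ≠ 0 → e i j :=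
  e4_diagonal hr _

omit [Fintype I] [DecidableEq I] in
theorem e4_ct (hs : ∀ i j, e i j → e j i) (hg : ∀ i j, g i j ≠ 0 → e i j) :
    ∀ i j, gᴴ i j ≠ 0 → e i j := by
  intro i j hij
  refine hs _ _ (hg _ _ fun h0 => hij ?_)
  simp [conjTranspose_apply, h0]

/-- The inverse of a matrix supported on a preorder is supported on it. -/
theorem e4_inv (hr : ∀ i, e i i) (ht : ∀ i j l, e i j → e j l → e i l)
    (hg : ∀ i j, g i j ≠ 0 → e i j) : ∀ i j, g⁻¹ i j ≠ 0 → e i j := by
  by_cases hu : IsUnit g.det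
  swap
  · intro i j hij
    rw [nonsing_inv_apply_not_isUnit _ hu] at hij
    exact absurd rfl hij
  let S : Submodule ℂ (Matrix I I ℂ) :=
    { carrier := {x | ∀ i j, x i j ≠ 0 → e i j}
      add_mem' := by
        intro a b ha hb i j hij
        by_contra hn
        apply hij
        have h1 : a i j = 0 := by by_contra h; exact hn (ha i j h)
        have h2 : b i j = 0 := by by_contra h; exact hn (hb i j h)
        simp [h1, h2]
      zero_mem' := fun i j hij => absurd rfl hij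
      smul_mem' := by
        intro c a ha i j hij
        exact ha i j (right_ne_zero_of_mul hij) }
  let L : S →ₗ[ℂ] S := (LinearMap.mulLeft ℂ g).restrict (p := S) (q := S)
    fun x hx => e4_mul ht hg hx
  have hinj : Function.Injective L := by
    intro x y hxy
    have h1 : g * x.1 = g * y.1 := congrArg Subtype.val hxy
    apply Subtype.ext
    have := congrArg (g⁻¹ * ·) h1
    simpa [← Matrix.mul_assoc, nonsing_inv_mul _ hu] using this
  obtain ⟨x, hx⟩ := LinearMap.surjective_of_injective hinj ⟨1, e4_one hr⟩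
  have h1 : g * x.1 = 1 := congrArg Subtype.val hx
  rw [inv_eq_right_inv h1]
  exact x.2

end support

/-- An orthogonal family of subspaces, large enough for a labelling of the indices, contains the
columns of a unitary matrix. -/
theorem e4_core {Λ : Type} (lab : I → Λ) (W : Λ → Submodule ℂ (EuclideanSpace ℂ I))
    (ho : ∀ a b, a ≠ b → ∀ v ∈ W a, ∀ w ∈ W b, inner ℂ v w = 0)
    (hd : ∀ a, Nat.card {i // lab i = a} ≤ finrank ℂ (W a)) :
    ∃ k ∈ unitaryGroup I ℂ, ∀ j, WithLp.toLp 2 (fun i => k i j) ∈ W (lab j) := by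
  classical
  have hι : ∀ a, Nonempty ({i // lab i = a} ↪ Fin (finrank ℂ (W a))) := fun a =>
    Function.Embedding.nonempty_of_card_le (by simpa [Nat.card_eq_fintype_card] using hd a)
  let ι := fun a => (hι a).some
  let u : ∀ a, {i // lab i = a} → EuclideanSpace ℂ I := fun a x =>
    (stdOrthonormalBasis ℂ (W a) (ι a x) : W a)
  have hu : ∀ a b (x : {i // lab i = a}) (y : {i // lab i = b}),
      inner ℂ (u a x) (u b y) = if x.1 = y.1 then (1 : ℂ) else 0 := by
    intro a b x y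
    by_cases hab : a = b
    · subst hab
      have := orthonormal_iff_ite.1 (stdOrthonormalBasis ℂ (W a)).orthonormal (ι a x) (ι a y)
      simp only [u]
      rw [← Submodule.coe_inner, this]
      simp [Subtype.ext_iff]
    · rw [ho a b hab _ (Subtype.property _) _ (Subtype.property _), if_neg]
      intro h
      exact hab (x.2.symm.trans (h ▸ y.2))
  refine ⟨Matrix.of fun i j => (u (lab j) ⟨j, rfl⟩).ofLp i, ?_, fun j => Subtype.property _⟩
  rw [mem_unitaryGroup_iff']
  ext i j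
  have := hu (lab i) (lab j) ⟨i, rfl⟩ ⟨j, rfl⟩
  rw [PiLp.inner_apply] at this
  simp only [Matrix.mul_apply, star_apply, of_apply, one_apply]
  rw [← this]
  refine Finset.sum_congr rfl fun l _ => ?_
  simp [mul_comm]

section blocks
variable {κ : Type} [Fintype κ] [DecidableEq κ] (c : I → κ)

/-- The matrix with prescribed diagonal blocks along the fibres of `c`. -/
def e4asm (K : ∀ q, Matrix {i // c i = q} {i // c i = q} ℂ) : Matrix I I ℂ :=
  (blockDiagonal' K).submatrix (Equiv.sigmaFiberEquiv c).symm (Equiv.sigmaFiberEquiv c).symm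

omit [DecidableEq I] in
theorem e4asm_mul (K K' : ∀ q, Matrix {i // c i = q} {i // c i = q} ℂ) :
    e4asm c (fun q => K q * K' q) = e4asm c K * e4asm c K' := by
  simp only [e4asm]
  rw [submatrix_mul_equiv, ← blockDiagonal'_mul]

omit [Fintype I] [DecidableEq I] [Fintype κ] in
theorem e4asm_ct (K : ∀ q, Matrix {i // c i = q} {i // c i = q} ℂ) :
    e4asm c (fun q => (K q)ᴴ) = (e4asm c K)ᴴ := by
  simp only [e4asm]
  rw [conjTranspose_submatrix, blockDiagonal'_conjTranspose]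

omit [Fintype I] [Fintype κ] in
theorem e4asm_diagonal (t : ∀ q, {i // c i = q} → ℂ) :
    e4asm c (fun q => diagonal (t q)) = diagonal fun i => t (c i) ⟨i, rfl⟩ := by
  simp only [e4asm]
  rw [blockDiagonal'_diagonal, submatrix_diagonal_equiv]
  rfl

omit [Fintype I] [DecidableEq I] [Fintype κ] in
theorem e4asm_supp (K : ∀ q, Matrix {i // c i = q} {i // c i = q} ℂ) (i j : I)
    (h : e4asm c K i j ≠ 0) : c i = c j := by
  by_contra hn
  exact h (blockDiagonal'_apply_ne K ⟨i, rfl⟩ ⟨j, rfl⟩ hn)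

omit [Fintype I] [DecidableEq I] [Fintype κ] in
theorem e4asm_sub (A : Matrix I I ℂ) (hA : ∀ i j, A i j ≠ 0 → c i = c j) :
    e4asm c (fun _ => A.submatrix Subtype.val Subtype.val) = A := by
  ext i j
  by_cases h : c i = c j
  · have : ∀ (a b : κ) (x : {i // c i = a}) (y : {i // c i = b}), a = b →
        blockDiagonal' (fun q => A.submatrix (Subtype.val : {i // c i = q} → I)
          (Subtype.val : {i // c i = q} → I)) ⟨a, x⟩ ⟨b, y⟩ = A x y := by
      intro a b x y hab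
      subst hab
      rw [blockDiagonal'_apply_eq]; rfl
    exact this _ _ ⟨i, rfl⟩ ⟨j, rfl⟩ h
  · have h1 : A i j = 0 := by by_contra h2; exact h (hA i j h2)
    rw [h1]
    by_contra h2
    exact h (e4asm_supp c _ i j h2)

end blocks

variable {e : I → I → Prop}

/-- Spectral theorem with a block unitary matrix. -/
theorem e4_spec (he : Equivalence e) {A : Matrix I I ℂ} (hA : A.IsHermitian)
    (hb : ∀ i j, A i j ≠ 0 → e i j) :
    ∃ k ∈ unitaryGroup I ℂ, (∀ i j, k i j ≠ 0 → e i j) ∧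
      ∃ s : I → ℝ, A = k * diagonal (fun i => (s i : ℂ)) * kᴴ := by
  classical
  let st : Setoid I := ⟨e, he⟩
  let c : I → Quotient st := Quotient.mk st
  let _ : Fintype (Quotient st) := Fintype.ofFinite _
  have hq : ∀ q, (A.submatrix (Subtype.val : {i // c i = q} → I) Subtype.val).IsHermitian :=
    fun q => hA.submatrix _
  refine ⟨e4asm c fun q => (hq q).eigenvectorUnitary.1, ?_, fun i j h =>
    Quotient.exact (e4asm_supp c _ i j h), fun i => (hq (c i)).eigenvalues ⟨i, rfl⟩, ?_⟩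
  · rw [mem_unitaryGroup_iff, star_eq_conjTranspose, ← e4asm_ct, ← e4asm_mul]
    have : (fun q => (hq q).eigenvectorUnitary.1 * (hq q).eigenvectorUnitary.1ᴴ) =
        fun q => diagonal fun _ => 1 := by
      funext q
      exact mem_unitaryGroup_iff.1 (hq q).eigenvectorUnitary.2
    rw [this, e4asm_diagonal]; rfl
  · rw [← e4asm_ct, ← e4asm_diagonal c fun q i => ((hq q).eigenvalues i : ℂ), ← e4asm_mul,
      ← e4asm_mul]
    conv_lhs => rw [← e4asm_sub c A fun i j h => Quotient.sound (hb i j h)]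
    congr 1
    funext q
    exact (hq q).spectral_theorem

/-- KAK decomposition inside the block group. -/
theorem e4_kak (he : Equivalence e) {g : Matrix I I ℂ} (hu : IsUnit g.det)
    (hb : ∀ i j, g i j ≠ 0 → e i j) :
    ∃ k ∈ unitaryGroup I ℂ, ∃ k' ∈ unitaryGroup I ℂ, (∀ i j, k i j ≠ 0 → e i j) ∧
      (∀ i j, k' i j ≠ 0 → e i j) ∧ ∃ t : I → ℝ, (∀ i, 0 < t i) ∧
        g = k * diagonal (fun i => (t i : ℂ)) * k' := by
  have ht : ∀ i j l, e i j → e j l → e i l := fun _ _ _ => he.trans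
  have hs : ∀ i j, e i j → e j i := fun _ _ => he.symm
  obtain ⟨u, hu1, hu2, s, hs1⟩ := e4_spec he (isHermitian_conjTranspose_mul_self g)
    (e4_mul ht (e4_ct hs hb) hb)
  have h1 : uᴴ * u = 1 := mem_unitaryGroup_iff'.1 hu1
  have h2 : u * uᴴ = 1 := mem_unitaryGroup_iff.1 hu1
  have h3 : (g * u)ᴴ * (g * u) = diagonal fun i => (s i : ℂ) := by
    rw [conjTranspose_mul, Matrix.mul_assoc, ← Matrix.mul_assoc gᴴ, hs1]
    simp only [← Matrix.mul_assoc, h1, Matrix.one_mul]
    rw [Matrix.mul_assoc, h1, Matrix.mul_one]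
  have hpos : ∀ i, 0 < s i := by
    intro i
    have h4 := congrFun (congrFun h3 i) i
    rw [diagonal_apply_eq, Matrix.mul_apply] at h4
    have h5 : s i = ∑ l, Complex.normSq ((g * u) l i) := by
      apply Complex.ofReal_injective
      rw [← h4, Complex.ofReal_sum]
      refine Finset.sum_congr rfl fun l _ => ?_
      rw [conjTranspose_apply, Complex.normSq_eq_conj_mul_self]; rfl
    rw [h5]
    refine lt_of_le_of_ne (Finset.sum_nonneg fun l _ => Complex.normSq_nonneg _) fun h0 => ?_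
    have h6 := (Finset.sum_eq_zero_iff_of_nonneg fun l _ => Complex.normSq_nonneg _).1 h0.symm
    have h7 : (uᴴ * g⁻¹ * (g * u)) i i = 0 := by
      rw [Matrix.mul_apply]
      exact Finset.sum_eq_zero fun l _ => by
        rw [Complex.normSq_eq_zero.1 (h6 l (Finset.mem_univ _)), mul_zero]
    rw [Matrix.mul_assoc, ← Matrix.mul_assoc g⁻¹, nonsing_inv_mul _ hu, Matrix.one_mul, h1] at h7
    simp at h7
  have hsq : ∀ i, ((√(s i) : ℝ) : ℂ) ≠ 0 := fun i => by
    exact_mod_cast (Real.sqrt_pos.2 (hpos i)).ne'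
  refine ⟨g * u * diagonal fun i => ((√(s i) : ℝ) : ℂ)⁻¹, ?_, uᴴ, ?_,
    e4_mul ht (e4_mul ht hb hu2) (e4_diagonal he.refl _), e4_ct hs hu2, fun i => √(s i),
    fun i => Real.sqrt_pos.2 (hpos i), ?_⟩
  · rw [mem_unitaryGroup_iff', star_eq_conjTranspose, conjTranspose_mul, Matrix.mul_assoc,
      ← Matrix.mul_assoc (g * u)ᴴ, h3, diagonal_conjTranspose, diagonal_mul_diagonal,
      diagonal_mul_diagonal, ← diagonal_one]
    congr 1
    funext i
    have h8 : (s i : ℂ) = ((√(s i) : ℝ) : ℂ) * ((√(s i) : ℝ) : ℂ) := by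
      rw [← Complex.ofReal_mul, Real.mul_self_sqrt (hpos i).le]
    have h9 := hsq i
    simp only [Pi.star_apply, RCLike.star_def, map_inv₀, Complex.conj_ofReal]
    rw [h8]; field_simp
  · rw [mem_unitaryGroup_iff, star_eq_conjTranspose, conjTranspose_conjTranspose, h1]
  · rw [Matrix.mul_assoc (g * u), diagonal_mul_diagonal]
    have : (fun i => ((√(s i) : ℝ) : ℂ)⁻¹ * ((√(s i) : ℝ) : ℂ)) = fun _ => 1 :=
      funext fun i => inv_mul_cancel₀ (hsq i)
    rw [this, diagonal_one, Matrix.mul_one, Matrix.mul_assoc, h2, Matrix.mul_one]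

omit [Fintype I] [DecidableEq I] in
theorem e4_mem_sp {F : Set I} {v : I → ℂ} : v ∈ sp F ↔ ∀ i, i ∉ F → v i = 0 := by
  simp [sp, Submodule.mem_iInf]

omit [DecidableEq I] in
theorem e4_finrank_sp (F : Set I) : finrank ℂ (sp F) = F.ncard := by
  have : sp F = Pi.spanSubset ℂ F := by
    ext v; rw [e4_mem_sp, Pi.mem_spanSubset_iff]
  rw [this, Pi.dim_spanSubset]

theorem e4_finrank_map {k : Matrix I I ℂ} (hk : IsUnit k.det) (U : Submodule ℂ (I → ℂ)) :
    finrank ℂ (U.map k.mulVecLin) = finrank ℂ U := by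
  have : Function.Injective k.mulVecLin :=
    Matrix.mulVec_injective_iff_isUnit.2 ((isUnit_iff_isUnit_det k).2 hk)
  exact (LinearEquiv.finrank_eq (Submodule.equivMapOfInjective _ this U)).symm

theorem e4_unit_det {k : Matrix I I ℂ} (hk : k ∈ unitaryGroup I ℂ) : IsUnit k.det :=
  isUnit_det_of_right_inverse (mem_unitaryGroup_iff.1 hk)

omit [DecidableEq I] in
/-- The image of a coordinate subspace lies in `U` when the columns do. -/
theorem e4_map_le {k : Matrix I I ℂ} {F : Set I} {U : Submodule ℂ (I → ℂ)}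
    (h : ∀ j ∈ F, (fun i => k i j) ∈ U) : (sp F).map k.mulVecLin ≤ U := by
  rintro _ ⟨v, hv, rfl⟩
  have : k.mulVecLin v = ∑ j, v j • fun i => k i j := by
    funext i
    simp [mulVec, dotProduct, Finset.sum_apply, mul_comm]
  rw [this]
  refine U.sum_mem fun j _ => ?_
  by_cases hj : j ∈ F
  · exact U.smul_mem _ (h j hj)
  · rw [e4_mem_sp.1 hv j hj, zero_smul]; exact U.zero_mem

omit [DecidableEq I] in
open Classical in
/-- A graded subspace lies in `V` when its graded pieces do. -/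
theorem e4_le_of_gr (he : Equivalence e) {U V : Submodule ℂ (I → ℂ)}
    (hU : ∀ i, ∀ v ∈ U, (fun j => if e i j then v j else 0) ∈ U)
    (h : ∀ i, U ⊓ sp {j | e i j} ≤ V) : U ≤ V := by
  intro v hv
  let st : Setoid I := ⟨e, he⟩
  let _ : Fintype (Quotient st) := Fintype.ofFinite _
  have : v = ∑ q : Quotient st, fun j => if e q.out j then v j else 0 := by
    funext j
    rw [Finset.sum_apply, Finset.sum_eq_single (Quotient.mk st j)]
    · rw [if_pos (show e (Quotient.mk st j).out j from Quotient.mk_out (s := st) j)]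
    · intro q _ hq
      rw [if_neg]
      intro hh
      exact hq ((Quotient.out_eq q).symm.trans (Quotient.sound hh))
    · simp
  rw [this]
  refine V.sum_mem fun q _ => h q.out ⟨hU _ v hv, e4_mem_sp.2 fun j hj => if_neg hj⟩

open Classical in
/-- A flag of graded subspaces with the dimensions of the coordinate flag `{r < a}` is the image of
that flag under a block unitary matrix. -/
theorem e4_flag (he : Equivalence e) (r : I → ℕ) (U : ℕ → Submodule ℂ (I → ℂ)) (hm : Monotone U)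
    (hU : ∀ a i, ∀ v ∈ U a, (fun j => if e i j then v j else 0) ∈ U a)
    (hd : ∀ a i, finrank ℂ ↥(U a ⊓ sp {j | e i j}) = {j | e i j ∧ r j < a}.ncard) :
    ∃ k ∈ unitaryGroup I ℂ, (∀ i j, k i j ≠ 0 → e i j) ∧
      ∀ a, U a = (sp {j | r j < a}).map k.mulVecLin := by
  let st : Setoid I := ⟨e, he⟩
  let T := (WithLp.linearEquiv 2 ℂ (I → ℂ)).symm
  let V : Quotient st → ℕ → Submodule ℂ (EuclideanSpace ℂ I) := fun q a =>
    (U a ⊓ sp {j | e q.out j}).map T.toLinearMap
  have hVm : ∀ q a b, a ≤ b → V q a ≤ V q b := fun q a b h =>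
    Submodule.map_mono (inf_le_inf_right _ (hm h))
  have hVd : ∀ q a, finrank ℂ (V q a) = {j | e q.out j ∧ r j < a}.ncard := fun q a => by
    rw [← hd, LinearEquiv.finrank_map_eq]
  have hVs : ∀ q a, ∀ v ∈ V q a, ∀ j, Quotient.mk st j ≠ q → v.ofLp j = 0 := by
    rintro q a _ ⟨v, hv, rfl⟩ j hj
    exact e4_mem_sp.1 hv.2 j fun h => hj ((Quotient.sound (he.symm h)).trans (Quotient.out_eq q))
  obtain ⟨k, hk, hc⟩ := e4_core (fun i => (Quotient.mk st i, r i))
    (fun x => (V x.1 x.2)ᗮ ⊓ V x.1 (x.2 + 1)) (by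
      rintro ⟨q, a⟩ ⟨q', b⟩ hne v hv w hw
      by_cases hq : q = q'
      · subst hq
        have hab : a ≠ b := fun h => hne (by rw [h])
        rcases lt_or_gt_of_ne hab with h | h
        · exact Submodule.inner_right_of_mem_orthogonal (hVm q _ _ h hv.2) hw.1
        · exact Submodule.inner_left_of_mem_orthogonal (hVm q _ _ h hw.2) hv.1
      · rw [PiLp.inner_apply]
        refine Finset.sum_eq_zero fun j _ => ?_
        by_cases hj : Quotient.mk st j = q
        · rw [hVs _ _ w hw.2 j fun h => hq (hj.symm.trans h), inner_zero_right]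
        · rw [hVs _ _ v hv.2 j hj, inner_zero_left]) (by
      rintro ⟨q, a⟩
      have h1 := Submodule.finrank_add_inf_finrank_orthogonal (hVm q a (a + 1) a.le_succ)
      rw [hVd, hVd] at h1
      have h2 : {j | e q.out j ∧ r j < a + 1} =
          {j | e q.out j ∧ r j < a} ∪ {j | (Quotient.mk st j, r j) = (q, a)} := by
        ext j
        have : Quotient.mk st j = q ↔ e q.out j :=
          ⟨fun h => h ▸ Quotient.mk_out (s := st) j, fun h =>
            (Quotient.sound (he.symm h)).trans (Quotient.out_eq q)⟩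
        simp only [Set.mem_ofPred_eq, Set.mem_union, Prod.mk.injEq, this]
        constructor
        · rintro ⟨h, h'⟩
          rcases Nat.lt_succ_iff_lt_or_eq.1 h' with h' | h'
          exacts [Or.inl ⟨h, h'⟩, Or.inr ⟨h, h'⟩]
        · rintro (⟨h, h'⟩ | ⟨h, h'⟩)
          exacts [⟨h, by omega⟩, ⟨h, by omega⟩]
      rw [h2, Set.ncard_union_eq (by
        rw [Set.disjoint_left]
        rintro j ⟨-, h⟩ h'
        have : r j = a := congrArg Prod.snd h'
        omega)] at h1
      have h3 : Nat.card {i // (Quotient.mk st i, r i) = (q, a)} =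
          {j | (Quotient.mk st j, r j) = (q, a)}.ncard := rfl
      rw [h3]
      exact le_of_eq (Nat.add_left_cancel h1).symm)
  have hcol : ∀ j, (fun i => k i j) ∈ U (r j + 1) ⊓ sp {l | e j l} := by
    intro j
    obtain ⟨v, hv, h⟩ := (hc j).2
    have : v = fun i => k i j := congrArg WithLp.ofLp h
    subst this
    refine ⟨hv.1, e4_mem_sp.2 fun l hl => e4_mem_sp.1 hv.2 l fun h' => hl ?_⟩
    exact he.trans (he.symm (Quotient.mk_out (s := st) j)) h'
  refine ⟨k, hk, fun i j h => he.symm ?_, fun a => le_antisymm ?_ ?_⟩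
  · by_contra hn
    exact h (e4_mem_sp.1 (hcol j).2 i hn)
  · refine e4_le_of_gr he (hU a) fun i => ?_
    have h1 : (sp {j | e i j ∧ r j < a}).map k.mulVecLin ≤ U a ⊓ sp {j | e i j} :=
      e4_map_le fun j hj => ⟨hm hj.2 (hcol j).1, e4_mem_sp.2 fun l hl =>
        e4_mem_sp.1 (hcol j).2 l fun h => hl (he.trans hj.1 h)⟩
    rw [← Submodule.eq_of_le_of_finrank_eq h1 (by
      rw [e4_finrank_map (e4_unit_det hk), e4_finrank_sp, hd])]
    exact Submodule.map_mono fun v hv => e4_mem_sp.2 fun l hl => e4_mem_sp.1 hv l fun h => hl h.2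
  · exact e4_map_le fun j hj => hm hj (hcol j).1

omit [DecidableEq I] in
open Classical in
/-- A block matrix commutes with the projections onto the classes. -/
theorem e4_proj_mulVec (he : Equivalence e) {g : Matrix I I ℂ} (hb : ∀ i j, g i j ≠ 0 → e i j)
    (i : I) (v : I → ℂ) :
    (fun j => if e i j then (g *ᵥ v) j else 0) = g *ᵥ fun j => if e i j then v j else 0 := by
  funext j
  simp only [mulVec, dotProduct]
  split_ifs with h
  · refine Finset.sum_congr rfl fun l _ => ?_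
    by_cases h0 : g j l = 0
    · simp [h0]
    · rw [if_pos (he.trans h (hb j l h0))]
  · refine (Finset.sum_eq_zero fun l _ => ?_).symm
    by_cases h0 : g j l = 0
    · simp [h0]
    · rw [if_neg fun h' => h (he.trans h' (he.symm (hb j l h0))), mul_zero]

omit [DecidableEq I] in
open Classical in
/-- The image of a graded subspace under a block matrix is graded. -/
theorem e4_gr_map (he : Equivalence e) {g : Matrix I I ℂ} (hb : ∀ i j, g i j ≠ 0 → e i j)
    {U : Submodule ℂ (I → ℂ)} (hU : ∀ i, ∀ v ∈ U, (fun j => if e i j then v j else 0) ∈ U) :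
    ∀ i, ∀ v ∈ U.map g.mulVecLin, (fun j => if e i j then v j else 0) ∈ U.map g.mulVecLin := by
  rintro i _ ⟨v, hv, rfl⟩
  exact ⟨_, hU i v hv, (e4_proj_mulVec he hb i v).symm⟩

omit [Fintype I] [DecidableEq I] in
open Classical in
theorem e4_gr_sp (F : Set I) :
    ∀ i, ∀ v ∈ sp F, (fun j => if e i j then v j else 0) ∈ sp F := by
  intro i v hv
  refine e4_mem_sp.2 fun j hj => ?_
  rw [e4_mem_sp.1 hv j hj, ite_self]

omit [DecidableEq I] in
open Classical in
/-- The graded pieces of the image of a graded subspace under a block matrix. -/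
theorem e4_map_inf (he : Equivalence e) {g : Matrix I I ℂ} (hb : ∀ i j, g i j ≠ 0 → e i j)
    {U : Submodule ℂ (I → ℂ)} (hU : ∀ i, ∀ v ∈ U, (fun j => if e i j then v j else 0) ∈ U)
    (i : I) : U.map g.mulVecLin ⊓ sp {j | e i j} = (U ⊓ sp {j | e i j}).map g.mulVecLin := by
  apply le_antisymm
  · rintro _ ⟨⟨v, hv, rfl⟩, h2⟩
    refine ⟨_, ⟨hU i v hv, e4_mem_sp.2 fun j hj => if_neg hj⟩, ?_⟩
    refine (e4_proj_mulVec he hb i v).symm.trans ?_
    funext j
    split_ifs with h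
    · rfl
    · exact (e4_mem_sp.1 h2 j h).symm
  · rintro _ ⟨v, hv, rfl⟩
    refine ⟨⟨v, hv.1, rfl⟩, e4_mem_sp.2 fun j hj => ?_⟩
    refine Finset.sum_eq_zero fun l _ => ?_
    by_cases h0 : g j l = 0
    · simp [h0]
    · rw [e4_mem_sp.1 hv.2 l fun h' => hj (he.trans h' (he.symm (hb j l h0))), mul_zero]

omit [Fintype I] [DecidableEq I] in
theorem e4_sp_inf (F G : Set I) : sp F ⊓ sp G = sp (F ∩ G) := by
  ext v
  simp only [Submodule.mem_inf, e4_mem_sp, Set.mem_inter_iff, not_and_or]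
  exact ⟨fun h i hi => hi.elim (h.1 i) (h.2 i),
    fun h => ⟨fun i hi => h i (Or.inl hi), fun i hi => h i (Or.inr hi)⟩⟩

omit [Fintype I] [DecidableEq I] in
theorem e4_sp_mono {F G : Set I} (h : F ⊆ G) : sp F ≤ sp G :=
  fun _ hv => e4_mem_sp.2 fun j hj => e4_mem_sp.1 hv j fun h' => hj (h h')

/-- QR decomposition inside the block group, for a preorder that is total on the classes. -/
theorem e4_qr (he : Equivalence e) {r : I → I → Prop} (hr : ∀ i, r i i)
    (ht : ∀ i j l, r i j → r j l → r i l) (htot : ∀ i j, e i j → r i j ∨ r j i)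
    {g : Matrix I I ℂ} (hu : IsUnit g.det) (hb : ∀ i j, g i j ≠ 0 → e i j) :
    ∃ b : Matrix I I ℂ, IsUnit b.det ∧ (∀ i j, b i j ≠ 0 → e i j ∧ r i j) ∧
      ∃ k ∈ unitaryGroup I ℂ, (∀ i j, k i j ≠ 0 → e i j) ∧ g = b * k := by
  classical
  have het : ∀ i j l, e i j → e j l → e i l := fun _ _ _ => he.trans
  have hi := e4_inv he.refl het hb
  have hiu : IsUnit g⁻¹.det := isUnit_nonsing_inv_det g hu
  let o : I → ℕ := fun j => {i | r i j}.ncard
  obtain ⟨k, hk, hkb, hU⟩ := e4_flag he o (fun a => (sp {j | o j < a}).map g⁻¹.mulVecLin)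
    (fun a b h => Submodule.map_mono (e4_sp_mono fun j (hj : o j < a) => hj.trans_le h))
    (fun a => e4_gr_map he hi (e4_gr_sp _)) (fun a i => by
      rw [e4_map_inf he hi (e4_gr_sp _), e4_finrank_map hiu, e4_sp_inf, e4_finrank_sp,
        Set.inter_comm]; rfl)
  have h2 : k * kᴴ = 1 := mem_unitaryGroup_iff.1 hk
  refine ⟨g * k, by rw [det_mul]; exact hu.mul (e4_unit_det hk), fun i j h => ?_, kᴴ, ?_,
    e4_ct (fun _ _ => he.symm) hkb, by rw [Matrix.mul_assoc, h2, Matrix.mul_one]⟩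
  · have hij := e4_mul het hb hkb i j h
    refine ⟨hij, ?_⟩
    by_contra hn
    have hji := (htot i j hij).resolve_left hn
    have hlt : o j < o i := Set.ncard_lt_ncard
      ⟨fun l (hl : r l j) => ht _ _ _ hl hji, fun hh => hn (hh (hr i))⟩
    have h3 : k.mulVecLin (Pi.single j 1) ∈ (sp {l | o l < o j + 1}).map g⁻¹.mulVecLin := by
      rw [hU]
      refine ⟨_, e4_mem_sp.2 fun l hl => Pi.single_eq_of_ne ?_ _, rfl⟩
      rintro rfl
      exact hl (Nat.lt_succ_self _)
    obtain ⟨v, hv, h4⟩ := h3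
    have h5 : v = (g * k) *ᵥ Pi.single j 1 := by
      rw [← mulVec_mulVec]
      have h6 : g⁻¹ *ᵥ v = k *ᵥ Pi.single j 1 := h4
      rw [← h6, mulVec_mulVec, mul_nonsing_inv _ hu, one_mulVec]
    apply h
    have h7 := e4_mem_sp.1 hv i (by simp only [Set.mem_ofPred_eq]; omega)
    rw [h5] at h7
    simpa using h7
  · rw [mem_unitaryGroup_iff', star_eq_conjTranspose, conjTranspose_conjTranspose, h2]

omit [DecidableEq I] in
/-- An enumeration of each class. -/
theorem e4_enum (he : Equivalence e) : ∃ o : I → ℕ,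
    ∀ i n, n ≤ {j | e i j}.ncard → {j | e i j ∧ o j < n}.ncard = n := by
  classical
  let st : Setoid I := ⟨e, he⟩
  let c : I → Quotient st := Quotient.mk st
  let E := fun q => Fintype.equivFin {j // c j = q}
  refine ⟨fun j => E (c j) ⟨j, rfl⟩, fun i n hn => ?_⟩
  have hc : ∀ j, e i j ↔ c j = c i := fun j =>
    ⟨fun h => Quotient.sound (he.symm h), fun h => he.symm (Quotient.exact h)⟩
  have hE : ∀ q (x : {j // c j = q}), (E (c x) ⟨x, rfl⟩ : ℕ) = E q x := by
    rintro q ⟨x, rfl⟩; rfl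
  have hcard : n ≤ Fintype.card {j // c j = c i} := by
    rw [← Nat.card_eq_fintype_card]
    simp only [hc] at hn
    exact hn
  have : {j | e i j ∧ (E (c j) ⟨j, rfl⟩ : ℕ) < n} =
      Set.range fun x : Fin n => ((E (c i)).symm (Fin.castLE hcard x)).1 := by
    ext j
    constructor
    · rintro ⟨h1, h2⟩
      refine ⟨⟨_, h2⟩, ?_⟩
      have : Fin.castLE hcard ⟨_, h2⟩ = E (c i) ⟨j, (hc j).1 h1⟩ :=
        Fin.ext (hE (c i) ⟨j, (hc j).1 h1⟩)
      simp only [this, Equiv.symm_apply_apply]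
    · rintro ⟨x, rfl⟩
      refine ⟨(hc _).2 ((E (c i)).symm (Fin.castLE hcard x)).2, ?_⟩
      rw [hE]; simp
  rw [this, Set.ncard_range_of_injective, Nat.card_eq_fintype_card, Fintype.card_fin]
  intro x y h
  exact Fin.castLE_injective _ ((E (c i)).symm.injective (Subtype.ext h))

open Classical in
/-- A chain of graded subspaces with the dimensions of a chain of coordinate subspaces is the image
of that chain under a block unitary matrix. -/
theorem e4_chain_of (he : Equivalence e) {A : Type} (U : A → Submodule ℂ (I → ℂ)) (F : A → Set I)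
    (hc : ∀ a b, (U a ≤ U b ∧ F a ⊆ F b) ∨ (U b ≤ U a ∧ F b ⊆ F a))
    (hU : ∀ a i, ∀ v ∈ U a, (fun j => if e i j then v j else 0) ∈ U a)
    (hd : ∀ a i, finrank ℂ ↥(U a ⊓ sp {j | e i j}) = {j | e i j ∧ j ∈ F a}.ncard) :
    ∃ k ∈ unitaryGroup I ℂ, (∀ i j, k i j ≠ 0 → e i j) ∧
      ∀ a, U a = (sp (F a)).map k.mulVecLin := by
  let U' : Option A → Submodule ℂ (I → ℂ) := fun x => x.elim ⊤ U
  let F' : Option A → Set I := fun x => x.elim Set.univ F
  have hc' : ∀ a b, (U' a ≤ U' b ∧ F' a ⊆ F' b) ∨ (U' b ≤ U' a ∧ F' b ⊆ F' a) := by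
    rintro (_ | a) (_ | b)
    exacts [Or.inl ⟨le_rfl, le_rfl⟩, Or.inr ⟨le_top, Set.subset_univ _⟩,
      Or.inl ⟨le_top, Set.subset_univ _⟩, hc a b]
  have hU' : ∀ a i, ∀ v ∈ U' a, (fun j => if e i j then v j else 0) ∈ U' a := by
    rintro (_ | a)
    exacts [fun _ _ _ => Submodule.mem_top, hU a]
  have hd' : ∀ a i, finrank ℂ ↥(U' a ⊓ sp {j | e i j}) = {j | e i j ∧ j ∈ F' a}.ncard := by
    rintro (_ | a) i
    · show finrank ℂ ↥(⊤ ⊓ sp {j | e i j}) = {j | e i j ∧ j ∈ Set.univ}.ncard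
      rw [top_inf_eq, e4_finrank_sp]; simp
    · exact hd a i
  have key : ∀ a b, (F' a).ncard ≤ (F' b).ncard → U' a ≤ U' b ∧ F' a ⊆ F' b := by
    intro a b h
    rcases hc' a b with h1 | ⟨h1, h2⟩
    · exact h1
    · have h3 : F' b = F' a := Set.eq_of_subset_of_ncard_le h2 h
      refine ⟨e4_le_of_gr he (hU' a) fun i => ?_, h3.ge⟩
      rw [← Submodule.eq_of_le_of_finrank_eq (inf_le_inf_right (sp {j | e i j}) h1)
        (by rw [hd', hd', h3])]
      exact inf_le_left
  have hex : ∀ j, ∃ n, ∃ a, j ∈ F' a ∧ (F' a).ncard = n := fun j => ⟨_, none, trivial, rfl⟩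
  let r : I → ℕ := fun j => Nat.find (hex j)
  have hr : ∀ j n, r j < n ↔ ∃ a, (F' a).ncard < n ∧ j ∈ F' a := fun j n => by
    rw [Nat.find_lt_iff]
    exact ⟨fun ⟨m, hm, a, h1, h2⟩ => ⟨a, h2 ▸ hm, h1⟩, fun ⟨a, h1, h2⟩ => ⟨_, h1, a, h2, rfl⟩⟩
  let V : ℕ → Submodule ℂ (I → ℂ) := fun n => ⨆ (a) (_ : (F' a).ncard < n), U' a
  have hV : ∀ n a, (F' a).ncard < n → (∀ b, (F' b).ncard < n → (F' b).ncard ≤ (F' a).ncard) →
      V n = U' a ∧ {j | r j < n} = F' a := by
    intro n a h1 h2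
    refine ⟨le_antisymm (iSup₂_le fun b hb => (key b a (h2 b hb)).1)
      (le_iSup₂_of_le (f := fun a (_ : (F' a).ncard < n) => U' a) a h1 le_rfl), ?_⟩
    ext j
    exact (hr j n).trans ⟨fun ⟨b, hb, hj⟩ => (key b a (h2 b hb)).2 hj, fun hj => ⟨a, h1, hj⟩⟩
  have hV' : ∀ n, (V n = ⊥ ∧ {j | r j < n} = ∅) ∨ ∃ a, V n = U' a ∧ {j | r j < n} = F' a := by
    intro n
    by_cases h : ∃ a, (F' a).ncard < n
    · obtain ⟨m, ⟨a, h1, rfl⟩, h2⟩ := Set.Finite.exists_maximal
        (s := {m | ∃ a, (F' a).ncard < n ∧ (F' a).ncard = m})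
        ((Set.finite_lt_nat n).subset fun m ⟨a, h1, h2⟩ => (h2 ▸ h1 : m < n))
        (h.elim fun a ha => ⟨_, a, ha, rfl⟩)
      exact Or.inr ⟨a, hV n a h1 fun b hb => le_of_not_gt fun h3 =>
        h3.not_ge (h2 ⟨b, hb, rfl⟩ h3.le)⟩
    · refine Or.inl ⟨le_bot_iff.1 (iSup₂_le fun a ha => absurd ⟨a, ha⟩ h), ?_⟩
      ext j
      exact (hr j n).trans ⟨fun ⟨a, ha, _⟩ => h ⟨a, ha⟩, False.elim⟩
  obtain ⟨k, hk, hkb, h⟩ := e4_flag he r V
    (fun m n hmn => iSup₂_le fun a ha =>
      le_iSup₂_of_le (f := fun a (_ : (F' a).ncard < n) => U' a) a (ha.trans_le hmn) le_rfl)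
    (fun n i v hv => by
      rcases hV' n with ⟨h1, -⟩ | ⟨a, h1, -⟩
      · rw [h1] at hv ⊢
        rw [(Submodule.mem_bot ℂ).1 hv]
        exact (Submodule.mem_bot ℂ).2 (funext fun j => ite_self _)
      · rw [h1] at hv ⊢; exact hU' a i v hv)
    (fun n i => by
      have h0 : {j | e i j ∧ r j < n} = {j | e i j ∧ j ∈ {j | r j < n}} := rfl
      rcases hV' n with ⟨h1, h2⟩ | ⟨a, h1, h2⟩
      · rw [h0, h1, h2]; simp
      · rw [h0, h1, h2, hd'])
  refine ⟨k, hk, hkb, fun a => ?_⟩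
  obtain ⟨h1, h2⟩ := hV _ (some a) (Nat.lt_succ_self _) fun b hb => Nat.lt_succ_iff.1 hb
  have := h ((F' (some a)).ncard + 1)
  rw [h1, h2] at this
  exact this

open Classical in
/-- A chain of graded subspaces is the image of a chain of coordinate subspaces under a block
unitary matrix. -/
theorem e4_chain (he : Equivalence e) {A : Type} (U : A → Submodule ℂ (I → ℂ))
    (hc : ∀ a b, U a ≤ U b ∨ U b ≤ U a)
    (hU : ∀ a i, ∀ v ∈ U a, (fun j => if e i j then v j else 0) ∈ U a) :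
    ∃ k ∈ unitaryGroup I ℂ, (∀ i j, k i j ≠ 0 → e i j) ∧ ∃ F : A → Finset I,
      (∀ a b, U a ≤ U b → F a ⊆ F b) ∧ ∀ a, U a = (sp (F a : Set I)).map k.mulVecLin := by
  obtain ⟨o, ho⟩ := e4_enum he
  let F : A → Finset I := fun a =>
    Finset.univ.filter fun j => o j < finrank ℂ ↥(U a ⊓ sp {l | e j l})
  have hF : ∀ a b, U a ≤ U b → F a ⊆ F b := fun a b h j hj => by
    simp only [F, Finset.mem_filter, Finset.mem_univ, true_and] at hj ⊢
    exact hj.trans_le (Submodule.finrank_mono (inf_le_inf_right _ h))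
  obtain ⟨k, hk, hkb, h⟩ := e4_chain_of he U (fun a => F a)
    (fun a b => (hc a b).imp (fun h => ⟨h, hF a b h⟩) fun h => ⟨h, hF b a h⟩) hU (fun a i => by
      rw [← ho i (finrank ℂ ↥(U a ⊓ sp {j | e i j}))
        ((Submodule.finrank_mono inf_le_right).trans (e4_finrank_sp _).le)]
      congr 1
      ext j
      refine and_congr_right fun hij => ?_
      have : {l | e j l} = {l | e i l} :=
        Set.ext fun l => ⟨fun h => he.trans hij h, fun h => he.trans (he.symm hij) h⟩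
      simp only [F, Finset.coe_filter, Finset.mem_univ, true_and, Set.mem_ofPred_eq]
      rw [this])
  exact ⟨k, hk, hkb, F, hF, h⟩

open Classical in
/-- A graded subspace is the image of a coordinate subspace under a block unitary matrix. -/
theorem e4_sub (he : Equivalence e) {U : Submodule ℂ (I → ℂ)}
    (hU : ∀ i, ∀ v ∈ U, (fun j => if e i j then v j else 0) ∈ U) :
    ∃ k ∈ unitaryGroup I ℂ, (∀ i j, k i j ≠ 0 → e i j) ∧ ∃ F : Finset I,
      U = (sp (F : Set I)).map k.mulVecLin := by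
  obtain ⟨k, hk, hkb, F, -, h⟩ := e4_chain he (fun _ : Unit => U) (fun _ _ => Or.inl le_rfl)
    fun _ => hU
  exact ⟨k, hk, hkb, F (), h ()⟩

open Classical in
/-- The same with a prescribed coordinate subspace. -/
theorem e4_sub_of (he : Equivalence e) {U : Submodule ℂ (I → ℂ)} {F : Set I}
    (hU : ∀ i, ∀ v ∈ U, (fun j => if e i j then v j else 0) ∈ U)
    (hd : ∀ i, finrank ℂ ↥(U ⊓ sp {j | e i j}) = {j | e i j ∧ j ∈ F}.ncard) :
    ∃ k ∈ unitaryGroup I ℂ, (∀ i j, k i j ≠ 0 → e i j) ∧ U = (sp F).map k.mulVecLin := by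
  obtain ⟨k, hk, hkb, h⟩ := e4_chain_of he (fun _ : Unit => U) (fun _ => F)
    (fun _ _ => Or.inl ⟨le_rfl, le_rfl⟩) (fun _ => hU) fun _ => hd
  exact ⟨k, hk, hkb, h ()⟩

theorem e4_map_inj {k : Matrix I I ℂ} (hk : IsUnit k.det) {F G : Set I}
    (h : (sp F).map k.mulVecLin ≤ (sp G).map k.mulVecLin) : F ⊆ G := by
  have : Function.Injective k.mulVecLin :=
    Matrix.mulVec_injective_iff_isUnit.2 ((isUnit_iff_isUnit_det k).2 hk)
  rw [Submodule.map_le_map_iff_of_injective this] at h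
  intro j hj
  by_contra hn
  have h1 : (Pi.single j 1 : I → ℂ) ∈ sp F := e4_mem_sp.2 fun l hl =>
    Pi.single_eq_of_ne (fun h' : l = j => hl (h' ▸ hj)) _
  simpa using e4_mem_sp.1 (h h1) j hn

open Classical in
/-- A flag from `⊥` to `⊤`, with a rank function on the indices. -/
theorem e4_rank (he : Equivalence e) (U : ℕ → Submodule ℂ (I → ℂ)) (hm : Monotone U)
    (h0 : U 0 = ⊥) {N : ℕ} (hN : U N = ⊤)
    (hU : ∀ a i, ∀ v ∈ U a, (fun j => if e i j then v j else 0) ∈ U a) :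
    ∃ k ∈ unitaryGroup I ℂ, (∀ i j, k i j ≠ 0 → e i j) ∧ ∃ r : I → ℕ, (∀ j, r j < N) ∧
      ∀ a, U a = (sp {j | r j < a}).map k.mulVecLin := by
  obtain ⟨k, hk, hkb, F, hF, h⟩ := e4_chain he U
    (fun a b => (le_total a b).imp (fun h => hm h) fun h => hm h) hU
  have hu := e4_unit_det hk
  have hall : ∀ j, j ∈ F N := fun j =>
    e4_map_inj hu (F := Set.univ) (by rw [← h, hN]; exact le_top) (Set.mem_univ j)
  have hnone : ∀ j, j ∉ F 0 := fun j hj =>
    e4_map_inj hu (G := ∅) (by rw [← h, h0]; exact bot_le) hj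
  have hex : ∀ j, ∃ a, j ∈ F (a + 1) := fun j => ⟨N, hF _ _ (hm N.le_succ) (hall j)⟩
  have hr : ∀ j a, Nat.find (hex j) < a ↔ j ∈ F a := fun j a => by
    rw [Nat.find_lt_iff]
    refine ⟨fun ⟨m, h1, h2⟩ => hF _ _ (hm h1) h2, fun h1 => ?_⟩
    cases a with
    | zero => exact absurd h1 (hnone j)
    | succ a => exact ⟨a, a.lt_succ_self, h1⟩
  refine ⟨k, hk, hkb, fun j => Nat.find (hex j), fun j => (hr j N).2 (hall j), fun a => ?_⟩
  rw [h a]
  congr 2
  exact Set.ext fun j => (hr j a).symm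

namespace Dat
variable (D : Dat I)

theorem e4_cc : Equivalence D.cc :=
  ⟨fun i => ⟨rfl, D.cp_eq.1 i⟩, fun h => ⟨h.1.symm, D.cp_eq.2 h.2⟩,
    fun h h' => ⟨h.1.trans h'.1, D.cp_eq.3 h.2 h'.2⟩⟩

theorem e4_memP {g : Matrix I I ℂ} :
    g ∈ D.P ↔ (∀ i j, g i j ≠ 0 → D.gp i j) ∧ IsUnit g.det :=
  and_congr_left' ⟨fun h i j hij => by_contra fun hn => hij (h i j hn),
    fun h i j hn => by_contra fun hij => hn (h i j hij)⟩

theorem e4_memG {g : Matrix I I ℂ} :
    g ∈ D.base.P ↔ (∀ i j, g i j ≠ 0 → D.cc i j) ∧ IsUnit g.det := D.base.e4_memP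

/-- KAK in the group of the base datum. -/
theorem kak {g : Matrix I I ℂ} (hg : g ∈ D.base.P) :
    ∃ k ∈ unitaryGroup I ℂ, ∃ k' ∈ unitaryGroup I ℂ, k ∈ D.base.P ∧ k' ∈ D.base.P ∧
      ∃ t : I → ℝ, (∀ i, 0 < t i) ∧ g = k * diagonal (fun i => (t i : ℂ)) * k' := by
  obtain ⟨k, hk, k', hk', h1, h2, h3⟩ := e4_kak D.e4_cc hg.2 (D.e4_memG.1 hg).1
  exact ⟨k, hk, k', hk', D.e4_memG.2 ⟨h1, e4_unit_det hk⟩, D.e4_memG.2 ⟨h2, e4_unit_det hk'⟩, h3⟩

/-- QR: the group of the base datum is the group of the datum times its unitary subgroup. -/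
theorem qr {g : Matrix I I ℂ} (hg : g ∈ D.base.P) :
    ∃ b ∈ D.P, ∃ k ∈ unitaryGroup I ℂ, k ∈ D.base.P ∧ g = b * k := by
  obtain ⟨b, h1, h2, k, hk, h3, h4⟩ := e4_qr D.e4_cc D.gl_refl (fun _ _ _ => D.gl_trans)
    (fun i j h => D.tot i j h.1 h.2) hg.2 (D.e4_memG.1 hg).1
  exact ⟨b, D.e4_memP.2 ⟨fun i j h => ⟨(h2 i j h).1.1, (h2 i j h).2⟩, h1⟩, k, hk,
    D.e4_memG.2 ⟨h3, e4_unit_det hk⟩, h4⟩

theorem e4_P_inv {g : Matrix I I ℂ} (hg : g ∈ D.P) : g⁻¹ ∈ D.P :=
  D.e4_memP.2 ⟨e4_inv (fun i => ⟨rfl, D.gl_refl i⟩)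
    (fun _ _ _ h h' => ⟨h.1.trans h'.1, D.gl_trans h.2 h'.2⟩) (D.e4_memP.1 hg).1,
    isUnit_nonsing_inv_det g hg.2⟩

theorem e4_P_mul {g h : Matrix I I ℂ} (hg : g ∈ D.P) (hh : h ∈ D.P) : g * h ∈ D.P :=
  D.e4_memP.2 ⟨e4_mul (fun _ _ _ h h' => ⟨h.1.trans h'.1, D.gl_trans h.2 h'.2⟩)
    (D.e4_memP.1 hg).1 (D.e4_memP.1 hh).1, by rw [det_mul]; exact hg.2.mul hh.2⟩

end Dat

end Pool.Agent.CS
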