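import Pool.Agent.K.MP_d34769_ag.C25
import Pool.Agent.K.MP_d34769_ag.C99
import Pool.Agent.K.MP_d34769_ag.C26
import Pool.Agent.K.MP_d34769_ag.C29
import Pool.Agent.K.MP_d34769_ag.C85
import Pool.Agent.K.MP_d34769_ag.C56
import Pool.Agent.K.MP_d34769_ag.C54

-- part Pool.Agent.P.MP_d34769_ag.YK1
section

/-! The simplicial shape, cutting a shape along an upper set, and matchings. -/

noncomputable section
namespace Pool.Agent.CS

/-- the shape of the (augmented) simplex on `α` -/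
abbrev Sh.simp (α : Type) [Fintype α] [LinearOrder α] : Sh where
  ι := Finset α
  deg := Finset.card
  rel R R' := R' ⊆ R
  ε := sgn
  sup _ _ h := ⟨sgn_sub h, sgn_card h⟩
  trans h h' := h'.trans h
  εε := sgn_sgn

open Classical in
/-- forget the arrows that leave the upper set `a` -/
abbrev Sh.cut (S : Sh) (a : S.ι → Prop) (ha : ∀ {i j}, S.rel i j → a j → a i) : Sh where
  ι := S.ι
  deg := S.deg
  rel i j := S.rel i j ∧ (a i → a j)
  ε i j := if a i → a j then S.ε i j else 0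
  sup i j h := by
    by_cases e : a i → a j
    · rw [if_pos e] at h; exact ⟨⟨(S.sup i j h).1, e⟩, (S.sup i j h).2⟩
    · exact (h (if_neg e)).elim
  trans h h' := ⟨S.trans h.1 h'.1, fun e => h'.2 (h.2 e)⟩
  εε i k := by
    by_cases e : a i → a k
    · refine Eq.trans (Finset.sum_congr rfl fun j _ => ?_) (S.εε i k)
      by_cases h1 : S.ε i j = 0
      · simp [h1]
      by_cases h2 : S.ε j k = 0
      · simp [h2]
      rw [if_pos fun x => ha (S.sup j k h2).1 (e x), if_pos fun x => e (ha (S.sup i j h1).1 x)]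
    · refine Finset.sum_eq_zero fun j _ => ?_
      by_cases h1 : a i → a j
      · rw [if_neg fun h2 : a j → a k => e fun x => h2 (h1 x), mul_zero]
      · rw [if_neg h1, zero_mul]

variable {S : Sh} {T : S.ι → Type} [∀ i, AddCommGroup (T i)] [∀ i, Module ℂ (T i)]

open Classical in
theorem Sys.D_apply (Y : Sys S T) (c : ∀ i, T i) (i : S.ι) : Y.bg.D c i = (Y.A i).d (c i) +
    (Y.A i).s (∑ j, if h : S.rel i j then (S.ε i j : ℂ) • Y.pl h (c j) else 0) := by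
  rw [← mat_apply S.ε (@Y.pl) c i]; rfl

/-- a system whose indices are matched in pairs along isomorphisms is acyclic -/
theorem Sys.ac_of_match {Y : Sys S T} {U N : ∀ i, Submodule ℂ (T i)} (hU : Y.Stab U)
    (hN : Y.Stab N) (up : S.ι → Prop) (h1 : ∀ k, up k → ∃! i, ¬up i ∧ S.ε k i ≠ 0)
    (h2 : ∀ i, ¬up i → ∃! k, up k ∧ S.ε k i ≠ 0)
    (hs : ∀ {k i} (h : S.rel k i), up k → ¬up i → S.ε k i ≠ 0 → ∀ n, ∀ y ∈ (Y.A k).G n, y ∈ U k →
      ∃ x ∈ (Y.A i).G n, x ∈ U i ∧ y - Y.pl h x ∈ N k)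
    (hi : ∀ {k i} (h : S.rel k i), up k → ¬up i → S.ε k i ≠ 0 → ∀ x, Y.pl h x ∈ N k → x ∈ N i)
    (n : ℤ) : (Y.bc hU hN).cx.Ac n := by
  classical
  have key : ∀ (c : ∀ i, T i) {k i} (h : S.rel k i), up k → ¬up i → S.ε k i ≠ 0 →
      (∀ j, up j → c j ∈ N j) → Y.bg.D c k - (S.ε k i : ℂ) • (Y.A k).s (Y.pl h (c i)) ∈ N k := by
    intro c k i h hk hi' he hc
    rw [Y.D_apply, ← Finset.add_sum_erase _ _ (Finset.mem_univ i), dif_pos h, map_add, map_smul,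
      add_sub_assoc, add_sub_cancel_left]
    refine (N k).add_mem (hN.d k _ (hc k hk)) (hN.s k _ ((N k).sum_mem fun j hj => ?_))
    split_ifs with hr
    · by_cases e : S.ε k j = 0
      · simp [e]
      by_cases u : up j
      · exact (N k).smul_mem _ (hN.pl hr _ (hc j u))
      · exact ((Finset.mem_erase.1 hj).1 ((h1 k hk).unique ⟨u, e⟩ ⟨hi', he⟩)).elim
    · exact (N k).zero_mem
  intro c hc
  have hG := (Sys.mem_cx_G hU hN).1 hc.1
  have hb : ∀ i, ∃ b ∈ (Y.A i).G (n - 1 - S.deg i), b ∈ U i ∧ (up i → b = 0) ∧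
      ∀ k (h : S.rel k i), up k → ¬up i → S.ε k i ≠ 0 →
        c k - (S.ε k i : ℂ) • (Y.A k).s (Y.pl h b) ∈ N k := by
    intro i
    by_cases u : up i
    · exact ⟨0, Submodule.zero_mem _, Submodule.zero_mem _, fun _ => rfl, fun _ _ _ h => (h u).elim⟩
    obtain ⟨k, ⟨hk, he⟩, hu⟩ := h2 i u
    have hd : n - 1 - S.deg i = n - S.deg k := by rw [(S.sup k i he).2]; push_cast; ring
    have hsG : (Y.A k).s (c k) ∈ (Y.A k).G (n - S.deg k) := Gc.mem_G.2 fun m hm => by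
      rw [← Gc.se, Gc.mem_G.1 (hG k).1 m hm, map_zero]
    obtain ⟨x, hx, hx', hy⟩ := hs (S.sup k i he).1 hk u he _ _ hsG (hU.s k _ (hG k).2)
    have he' : (S.ε k i : ℂ) ≠ 0 := Int.cast_ne_zero.2 he
    refine ⟨(S.ε k i : ℂ)⁻¹ • x, hd ▸ Submodule.smul_mem _ _ hx, Submodule.smul_mem _ _ hx',
      fun h => (u h).elim, fun k' h hk' _ he'' => ?_⟩
    obtain rfl := hu k' ⟨hk', he''⟩
    have := hN.s _ _ hy
    rwa [map_smul, map_smul, smul_smul, mul_inv_cancel₀ he', one_smul, ← Gc.ss (A := Y.A k') (c k'),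
      ← map_sub]
  choose b hb1 hb2 hb3 hb4 using hb
  have hbG : b ∈ (Y.bc hU hN).cx.G (n - 1) := (Sys.mem_cx_G hU hN).2 fun i => ⟨hb1 i, hb2 i⟩
  have hup : ∀ k, up k → (c - Y.bg.D b) k ∈ N k := by
    intro k hk
    obtain ⟨i, ⟨u, he⟩, _⟩ := h1 k hk
    have h3 := key b (S.sup k i he).1 hk u he fun j hj => by rw [hb3 j hj]; exact (N j).zero_mem
    have h4 := (N k).sub_mem (hb4 i k (S.sup k i he).1 hk u he) h3
    rwa [sub_sub_sub_cancel_right] at h4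
  refine Cx.mem_B.2 ⟨b, hbG, fun i _ => ?_⟩
  change (c - Y.bg.D b) i ∈ N i
  by_cases u : up i
  · exact hup i u
  obtain ⟨k, ⟨hk, he⟩, _⟩ := h2 i u
  have h3 := key _ (S.sup k i he).1 hk u he hup
  have h4 : Y.bg.D (c - Y.bg.D b) k ∈ N k := by
    rw [map_sub]
    exact (N k).sub_mem (hc.2 k trivial) ((Y.bc hU hN).cx.dd _ b hbG k trivial)
  have h5 := hN.s _ _ ((N k).smul_mem (S.ε k i : ℂ)⁻¹ ((N k).sub_mem h4 h3))
  rw [sub_sub_cancel, smul_smul, inv_mul_cancel₀ (Int.cast_ne_zero.2 he), one_smul, Gc.ss] at h5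
  exact hi _ hk u he _ h5

end Pool.Agent.CS
end
end

-- part Pool.Agent.P.MP_d34769_ag.YG6a
section

/-! A class that dies on the first column of a degenerate diagram dies where the diagram is
acyclic. -/

open Set

noncomputable section
namespace Pool.Agent.CS

theorem Dg.hn_col {S : Sh} {P : Dg S} (E : (Dg.bc (⊤ : P.Fam) ⊥).E2a) {K : P.Fam} {n : ℕ}
    (ac : (Dg.bc K ⊥).cx.Ac n) {i₀ : S.ι} (h0 : S.deg i₀ = 0) {y : AS (P.X i₀)}
    (hy : y ∈ (CC (P.X i₀)).Z n) (h1 : ∀ i (h : S.rel i i₀), S.deg i = 1 →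
      AS.pull (P.mp h) y ∈ (CC (P.X i)).B n) : y ∈ (CP (K.A i₀) ∅).B n := by
  classical
  have m := Dg.mor_id (K := ⊤) (A := ⊥) (K₁ := K) (A₁ := ⊥) (fun _ => subset_univ _)
    fun _ => subset_rfl
  have a0 : (Pi.single i₀ y : P.T) ∈ ((Dg.bc ⊤ ⊥).col 0).Z n := Dg.mem_col_Z.2 fun i => by
    by_cases e : i = i₀
    · subst e
      exact ⟨fun _ => by simpa using hy, fun h => absurd h0 h⟩
    · rw [Pi.single_eq_of_ne e]
      exact ⟨fun _ => zero_mem _, fun _ => rfl⟩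
  have a1 : ∀ i, (Dg.bc (⊤ : P.Fam) ⊥).δ (Pi.single i₀ y) i = if h : S.rel i i₀ then
      ((S.ε i i₀ : ℂ) * (-1) ^ n) • AS.pull (P.mp h) y else 0 := fun i => by
    change (AS.gc _).s (mat S.ε (@P.sys.pl) _ i) = _
    rw [mat_apply, Finset.sum_eq_single i₀ (fun j _ e => by simp [Pi.single_eq_of_ne e]) (by simp),
      Pi.single_eq_same]
    split_ifs with h
    · rw [map_smul, mul_smul, ← AS.s_of_G (AS.pull_mem_G _ hy.1.1)]
      rfl
    · exact map_zero _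
  obtain ⟨x, hx, e⟩ := E 0 n _ a0 (Dg.mem_col_B.2 fun i => by
    rw [a1]
    split_ifs with h
    · refine ⟨fun e => Submodule.smul_mem _ _ (h1 i h e), fun e => ?_⟩
      rw [show S.ε i i₀ = 0 from by_contra fun c => e (by rw [(S.sup _ _ c).2, h0])]
      simp
    · exact ⟨fun _ => zero_mem _, fun _ => zero_mem _⟩)
  have a2 := (m.fil 0).mem_Z hx
  rw [add_zero] at a2
  have a3 := Bc.lead_fil_B a2.1 (by
    rw [Bc.fil_zero] at a2 ⊢
    rw [Nat.cast_zero, zero_add] at a2 ⊢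
    exact ac a2)
  have a4 := (m.col 0).mem_B (sub_mem (Bc.lead_Z hx).1.1 a0.1) e
  rw [add_zero] at a4
  have a5 : (Pi.single i₀ y : P.T) ∈ ((Dg.bc K ⊥).col 0).B n := by
    have := sub_mem a3 a4
    rwa [LinearMap.id_apply, LinearMap.id_apply, show (Dg.bc K ⊥).e = (Dg.bc ⊤ ⊥).e from rfl, sub_sub_cancel] at this
  simpa using (Dg.mem_col_B.1 a5 i₀).1 h0

/-- the shape of a family of simplices that is closed under faces -/
abbrev Sh.good {α : Type} [Fintype α] [LinearOrder α] (p : Finset α → Prop)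
    (hp : ∀ R R', R' ⊆ R → p R → p R') : Sh where
  ι := {R // p R}
  fin := Fintype.ofFinite _
  deg R := R.1.card
  rel R R' := R'.1 ⊆ R.1
  ε R R' := sgn R.1 R'.1
  sup _ _ h := ⟨sgn_sub h, sgn_card h⟩
  trans h h' := h'.trans h
  εε R R'' := @sgn_sgn_sub α _ _ p (Fintype.ofFinite _) R.1 R''.1 fun _ _ h => hp _ _ h R.2

/-- the empty spaces can be dropped -/
theorem Dg.ac_sub {S S' : Sh} {P : Dg S} {Q : Dg S'} {τ : S.ι → S'.ι} (hτ : Function.Injective τ)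
    (hr : ∀ i j, S.rel i j ↔ S'.rel (τ i) (τ j)) (hε : ∀ i j, S.ε i j = S'.ε (τ i) (τ j))
    (hd : ∀ i, S.deg i = S'.deg (τ i)) (hc : ∀ i j, S'.rel (τ i) j → j ∈ range τ)
    (e : ∀ i, P.X i ≃ₜ Q.X (τ i))
    (he : ∀ {i j} (h : S.rel i j) x, e j (P.mp h x) = Q.mp ((hr i j).1 h) (e i x))
    (hem : ∀ j, j ∉ range τ → IsEmpty (Q.X j)) {K : P.Fam} {L : Q.Fam}
    (hK : ∀ i, K.A i = e i ⁻¹' L.A (τ i)) {n : ℤ} (ac : (Dg.bc L ⊥).cx.Ac n) :
    (Dg.bc K ⊥).cx.Ac n := by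
  classical
  let f : Q.T →ₗ[ℂ] P.T := LinearMap.pi fun i => AS.pl (e i) ∘ₗ LinearMap.proj (τ i)
  have fD : ∀ c, f ((Dg.bc L ⊥).cx.d c) = (Dg.bc K ⊥).cx.d (f c) := fun c => funext fun i => by
    change AS.pull (e i) (Q.sys.bg.D c (τ i)) = P.sys.bg.D (f c) i
    rw [Sys.D_apply, Sys.D_apply, map_add]
    refine congrArg₂ _ (AS.pull_d _ _) ((Gc.map_s (f := AS.pl (e i)) (AS.pull_e _) _).trans
      (congrArg _ ?_))
    rw [map_sum]
    refine (Fintype.sum_of_injective τ hτ _ _ (fun j h => ?_) fun j => ?_).symm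
    · rw [dif_neg fun c => h (hc i j c), map_zero]
    · by_cases h : S.rel i j
      · rw [dif_pos h, dif_pos ((hr i j).1 h), map_smul, hε]
        exact congrArg _ ((AS.pull_pull _ _ _).trans ((congrArg (AS.pull · _)
          (funext (he h))).trans (AS.pull_pull _ _ _).symm))
      · rw [dif_neg h, dif_neg fun c => h ((hr i j).2 c), map_zero]
  have fN : ∀ c, f c ∈ (Dg.bc K ⊥).N ↔ c ∈ (Dg.bc L ⊥).N := fun c => by
    rw [Dg.mem_N, Dg.mem_N]
    refine ⟨fun h j => (SC.mem_zz _).2 fun t ht => ?_, fun h i => (SC.mem_zz _).2 fun t ht =>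
      AS.z_pull (e i).continuous.continuousAt ((SC.mem_zz _).1 (h (τ i)) _ (by rwa [hK] at ht))⟩
    by_cases hj : j ∈ range τ
    · obtain ⟨i, rfl⟩ := hj
      have := AS.z_pull (e i).symm.continuous.continuousAt ((SC.mem_zz _).1 (h i)
        ((e i).symm t) (by rw [hK]; simpa using ht))
      change AS.pull _ (AS.pull (e i) (c _)) ∈ _ at this
      rwa [AS.pull_pull, Homeomorph.self_comp_symm, AS.pull_id] at this
    · exact (hem j hj).elim t
  intro x hx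
  have hx' : ∀ j, ∃ y ∈ (CP (L.A j) ∅).G (n - S'.deg j), ∀ i (h : τ i = j),
      AS.pull (e i) (h ▸ y) = x i := fun j => by
    by_cases hj : j ∈ range τ
    · obtain ⟨i, rfl⟩ := hj
      refine ⟨AS.pull (e i).symm (x i), AS.mem_cp_G.2
        ⟨AS.pull_mem_G _ (hd i ▸ (Dg.mem_cx_G.1 hx.1 i).1), by simp⟩, fun i' h => ?_⟩
      obtain rfl := hτ h
      rw [AS.pull_pull, Homeomorph.symm_comp_self, AS.pull_id]
    · exact ⟨0, zero_mem _, fun i h => absurd ⟨i, h⟩ hj⟩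
  choose x' h1 h2 using hx'
  have e1 : f x' = x := funext fun i => h2 _ i rfl
  obtain ⟨u, hu, h⟩ := Cx.mem_B.1 (ac (x := x') ⟨Dg.mem_cx_G.2 h1,
    (fN _).1 (by rw [fD, e1]; exact hx.2)⟩)
  refine Cx.mem_B.2 ⟨f u, Dg.mem_cx_G.2 fun i => AS.mem_cp_G.2
    ⟨AS.pull_mem_G _ (hd i ▸ (Dg.mem_cx_G.1 hu (τ i)).1), by simp⟩, ?_⟩
  rw [← fD, ← e1, ← map_sub]
  exact (fN _).2 h

end Pool.Agent.CS
end
end

-- part Pool.Agent.P.MP_d34769_ag.YG6b
section

/-! The standard coordinate subspace in the orbit of a graded subspace. -/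

open Matrix Module

noncomputable section
namespace Pool.Agent.CS

variable {I : Type} [Fintype I] [DecidableEq I]

namespace Dat
variable (D : Dat I)

/-- the standard set of indices with the dimension vector of `U` -/
def ty (U : Submodule ℂ (I → ℂ)) : Finset I :=
  Finset.univ.filter fun j => (e4_enum D.cc_eq).choose j < finrank ℂ ↥(U ⊓ sp {l | D.cc j l})

variable {D} {U U' : Submodule ℂ (I → ℂ)} {ρ σ : Rp I} {g : Matrix I I ℂ} {t : Fin 3 → ℤ}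
  {C : Finset (Finset I)} {h : Chn C}

theorem ty_mono (h : U ≤ U') : D.ty U ⊆ D.ty U' := fun j hj => by
  simp only [ty, Finset.mem_filter, Finset.mem_univ, true_and] at hj ⊢
  exact hj.trans_le (Submodule.finrank_mono (inf_le_inf_right _ h))

theorem ty_card (U : Submodule ℂ (I → ℂ)) (i : I) :
    finrank ℂ ↥(U ⊓ sp {j | D.cc i j}) = {j | D.cc i j ∧ j ∈ (D.ty U : Set I)}.ncard := by
  rw [← (e4_enum D.cc_eq).choose_spec i (finrank ℂ ↥(U ⊓ sp {j | D.cc i j}))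
    ((Submodule.finrank_mono inf_le_right).trans (e4_finrank_sp _).le)]
  congr 1
  ext j
  refine and_congr_right fun hij => ?_
  have : {l | D.cc j l} = {l | D.cc i l} :=
    Set.ext fun l => ⟨fun h => D.cc_eq.trans hij h, fun h => D.cc_eq.trans (D.cc_eq.symm hij) h⟩
  simp only [ty, Finset.coe_filter, Finset.mem_univ, true_and, Set.mem_ofPred_eq]
  rw [this]

theorem ty_act (hg : g ∈ D.base.P) (hU : D.Sub ρ U) : D.ty (U.map g.mulVecLin) = D.ty U :=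
  Finset.filter_congr fun j _ => by
    rw [e4_map_inf D.cc_eq (fun i j e => by_contra fun c => e (hg.1 i j c)) hU.gr,
      e4_finrank_map hg.2]

theorem exists_ty {A : Type} (U : A → Submodule ℂ (I → ℂ)) (hc : ∀ a b, U a ≤ U b ∨ U b ≤ U a)
    (hU : ∀ a, D.Sub ρ (U a)) :
    ∃ k ∈ D.base.P, ∀ a, U a = (sp (D.ty (U a) : Set I)).map k.mulVecLin := by
  obtain ⟨k, hk, hb, e⟩ := e4_chain_of D.cc_eq U (fun a => D.ty (U a))
    (fun a b => (hc a b).imp (fun h => ⟨h, ty_mono h⟩) fun h => ⟨h, ty_mono h⟩)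
    (fun a => (hU a).gr) fun a => ty_card _
  exact ⟨k, ⟨fun i j c => by_contra fun e => c (hb i j e), e4_unit_det hk⟩, e⟩

theorem sub_zero_sp (F : Set I) : D.Sub 0 (sp F) := sub_sp.2 fun _ _ _ _ _ => rfl

theorem Sub.ty (hU : D.Sub ρ U) : D.wt t U = D.tw t (D.ty U) ∧
    finrank ℂ U = (D.ty U).card ∧ D.ty (sp (D.ty U : Set I)) = D.ty U := by
  obtain ⟨k, hk, e⟩ := exists_ty (fun _ : Unit => U) (fun _ _ => Or.inl le_rfl) fun _ => hU
  refine ⟨?_, ?_, ?_⟩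
  · conv_lhs => rw [e (), wt_act hk (sub_zero_sp _).cg, wt_sp]
    rfl
  · conv_lhs => rw [e (), e4_finrank_map hk.2, finrank_sp]
  · conv_rhs => rw [e (), ty_act hk (sub_zero_sp _)]

theorem Sub.eq_of_ty (hU : D.Sub ρ U) (hU' : D.Sub σ U') (h : U ≤ U') (e : D.ty U = D.ty U') :
    U = U' :=
  Submodule.eq_of_le_of_finrank_eq h (by rw [(hU.ty (t := 0)).2.1, (hU'.ty (t := 0)).2.1, e])

theorem mem_P_cf (hg : g ∈ D.base.P) (e : ∀ F ∈ C, (sp (F : Set I)).map g.mulVecLin ≤ sp F) :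
    g ∈ (D.cf C h).P :=
  ⟨fun i j c => by_contra fun n => c ⟨by_contra fun k => n (hg.1 i j fun a => k a.1),
    by_contra fun k => n (hg.1 i j fun a => k a.2),
    fun F hF hj => by_contra fun k => n (map_sp_le.1 (e F hF) i j k hj)⟩, hg.2⟩

theorem mem_R_cf : ρ ∈ (D.cf C h).R ↔ ρ ∈ D.base.R ∧ ∀ F ∈ C, D.Sub ρ (sp (F : Set I)) :=
  ⟨fun e => ⟨(D.cf C h).R_le e, fun F hF => sub_sp.2 fun a i j hi hj =>
    e a i j fun c => hi (c.2.2.2 F hF hj)⟩, fun e a i j c => by_contra fun n =>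
    c ⟨by_contra fun k => n (e.1 a i j fun b => k b.1),
      by_contra fun k => n (e.1 a i j fun b => k b.2.1),
      by_contra fun k => n (e.1 a i j fun b => k b.2.2),
      fun F hF hj => by_contra fun k => n (sub_sp.1 (e.2 F hF) a i j k hj)⟩⟩

omit [Fintype I] [DecidableEq I] in
theorem Chn.mono {C' : Finset (Finset I)} (h : Chn C) (s : C' ⊆ C) : Chn C' :=
  fun F a F' b => h F (s a) F' (s b)

/-- forget part of the flag -/
def cfMor (D : Dat I) {C' : Finset (Finset I)} (h : Chn C) (h' : Chn C') (s : C' ⊆ C) :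
    Mor (D.cf C h) (D.cf C' h') where
  w := Equiv.refl I
  ι _ := Function.Embedding.refl _
  col _ := rfl
  th := rfl
  gp _ _ e := ⟨e.1, e.2.1, fun F hF => e.2.2 F (s hF)⟩
  rl _ _ e := ⟨e.1, fun F hF => e.2 F (s hF)⟩
  cp _ _ e := e
  ι_eq _ _ _ := rfl
  ι_ne _ _ e e' := absurd e' e

theorem cfMor_F {C' : Finset (Finset I)} (h : Chn C) (h' : Chn C') (s : C' ⊆ C) (p : Pt I D.m) :
    (D.cfMor h h' s).F p = p := by
  refine Prod.ext (funext fun a => by simp [Mor.F, cfMor]) (funext fun i => funext fun r => ?_)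
  exact (Function.Embedding.refl _).injective.extend_apply (p.2 i) 0 r

/-- forget the flag -/
def Bs.mor (hD : D.Bs) (h : Chn C) : Mor (D.cf C h) D where
  w := Equiv.refl I
  ι _ := Function.Embedding.refl _
  col _ := rfl
  th := rfl
  gp _ _ e := ⟨e.1, hD _ _ e.2.1⟩
  rl _ _ e := D.gl_rl (hD _ _ e.1)
  cp _ _ e := e
  ι_eq _ _ _ := rfl
  ι_ne _ _ e e' := absurd e' e

theorem Bs.mor_F (hD : D.Bs) (h : Chn C) (p : Pt I D.m) : (hD.mor h).F p = p := by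
  refine Prod.ext (funext fun a => by simp [Mor.F, Bs.mor]) (funext fun i => funext fun r => ?_)
  exact (Function.Embedding.refl _).injective.extend_apply (p.2 i) 0 r

theorem Bs.mem_R (hD : D.Bs) (e : ρ ∈ D.base.R) : ρ ∈ D.R := fun a i j c =>
  e a i j fun k => c ⟨k.1, k.2.1, D.gl_rl (hD _ _ k.2.2)⟩

theorem Bs.mem_P (hD : D.Bs) (e : g ∈ D.base.P) : g ∈ D.P :=
  ⟨fun i j c => e.1 i j fun k => c ⟨k.1, hD _ _ k.2⟩, e.2⟩

/-- a numbering of the sets of indices that is compatible with inclusion -/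
theorem exists_num (I : Type) [Fintype I] [DecidableEq I] :
    ∃ (n : ℕ) (e : Fin n ≃ Finset I), ∀ r r', e r ⊆ e r' → r ≤ r' := by
  let _ : Fintype (LinearExtension (Finset I)) := inferInstanceAs (Fintype (Finset I))
  let e := monoEquivOfFin (LinearExtension (Finset I)) rfl
  exact ⟨_, e.toEquiv, fun r r' h => e.le_iff_le.1
    ((toLinearExtension (α := Finset I)).monotone h)⟩

end Dat

end Pool.Agent.CS
end
end

-- part Pool.Agent.P.MP_d34769_ag.YK2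
section

/-! Inserting a least upper bound into chains. -/

open Set

noncomputable section
namespace Pool.Agent.CS

theorem sgn_match {α : Type} [LinearOrder α] {r₀ : α} (ε : Finset α → Finset α → ℤ)
    (h : ∀ R R', ε R R' ≠ 0 → sgn R R' ≠ 0) (h' : ∀ R, r₀ ∈ R → ε R (R.erase r₀) ≠ 0) :
    (∀ k i, r₀ ∈ k → r₀ ∉ i → ε k i ≠ 0 → i = k.erase r₀) ∧
      (∀ k, r₀ ∈ k → ∃! i, r₀ ∉ i ∧ ε k i ≠ 0) ∧ ∀ i, r₀ ∉ i → ∃! k, r₀ ∈ k ∧ ε k i ≠ 0 := by
  have h0 : ∀ k i, r₀ ∈ k → r₀ ∉ i → ε k i ≠ 0 → i = k.erase r₀ := fun k i hk hi he => by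
    obtain ⟨r, _, rfl⟩ := sgn_ne (h k i he)
    by_contra e
    exact hi (Finset.mem_erase.2 ⟨fun x => e (by rw [x]), hk⟩)
  refine ⟨h0, fun k hk => ⟨k.erase r₀, ⟨Finset.notMem_erase _ _, h' k hk⟩,
    fun i hi => h0 k i hk hi.1 hi.2⟩, fun i hi => ⟨insert r₀ i, ⟨Finset.mem_insert_self _ _, ?_⟩,
      fun k hk => ?_⟩⟩
  · have := h' _ (Finset.mem_insert_self r₀ i)
    rwa [Finset.erase_insert hi] at this
  · rw [h0 k i hk.1 hi hk.2, Finset.insert_erase hk.1]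

theorem sgn_erase_ne {α : Type} [LinearOrder α] {R : Finset α} {r : α} (h : r ∈ R) :
    sgn R (R.erase r) ≠ 0 := left_ne_zero_of_mul_eq_one (sgn_sq h)

namespace GP
variable {B E : Type} [TopologicalSpace B] [TopologicalSpace E] {n : ℕ} {S : GP B E n}
  {R R' : Finset (Fin n)} {r₀ : Fin n} {t : B} {s u w : E}

theorem exists_ins (hr : r₀ ∈ R) (c : S.Ch (R.erase r₀)) (hw : (S.pr _ c, w) ∈ S.Q r₀)
    (h1 : ∀ r, r.1 < r₀ → S.le (S.el r c) w) (h2 : ∀ r, r₀ < r.1 → S.le w (S.el r c)) :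
    ∃ c' : S.Ch R, S.face (R.erase_subset r₀) c' = c ∧ S.el ⟨r₀, hr⟩ c' = w := by
  refine ⟨⟨(S.pr _ c, fun r => if h : r.1 = r₀ then w else
    S.el ⟨r.1, Finset.mem_erase.2 ⟨h, r.2⟩⟩ c), fun r => ?_, fun r r' e => ?_⟩,
      Ch.ext rfl fun r => dif_neg (Finset.mem_erase.1 r.2).1, dif_pos rfl⟩
  · dsimp only
    split_ifs with h
    · rwa [h]
    · exact el_mem c ⟨r.1, _⟩
  · dsimp only
    split_ifs with h h' h'
    · exact absurd (h.trans h'.symm) e.ne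
    · exact h2 _ (h ▸ e)
    · exact h1 _ (h' ▸ e)
    · exact el_le c _ _ e.le

theorem face_inj (hr : r₀ ∈ R) {c c' : S.Ch R}
    (h : S.face (R.erase_subset r₀) c = S.face (R.erase_subset r₀) c')
    (h' : S.el ⟨r₀, hr⟩ c = S.el ⟨r₀, hr⟩ c') : c = c' := by
  refine Ch.ext (congrArg (S.pr (R.erase r₀)) h) fun r => ?_
  by_cases e : r.1 = r₀
  · rwa [show r = ⟨r₀, hr⟩ from Subtype.ext e]
  · exact congrArg (S.el ⟨r.1, Finset.mem_erase.2 ⟨e, r.2⟩⟩) h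

variable (S) in
/-- chains over `t` whose elements of rank `≥ j` lie above `s` -/
def up (t : B) (s : E) (j : ℕ) (R : Finset (Fin n)) : Set (S.Ch R) :=
  {c | S.pr R c = t ∧ ∀ r : R, j ≤ r.1.1 → S.le s (S.el r c)}

theorem up_closed [T1Space B] (j : ℕ) : IsClosed (S.up t s j R) := by
  have := (isClosed_singleton (x := t)).preimage (S.pr R).continuous |>.inter
    (isClosed_iInter fun r : R => isClosed_iInter fun _ : j ≤ r.1.1 =>
      S.cl.preimage ((continuous_const (y := s)).prodMk (S.el r).continuous))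
  refine Eq.mp (congrArg IsClosed (Set.ext fun p => ?_)) this
  simp only [Set.mem_inter_iff, Set.mem_iInter]
  rfl

theorem up_face (j : ℕ) (h : R' ⊆ R) : MapsTo (S.face h) (S.up t s j R) (S.up t s j R') :=
  fun _ hc => ⟨hc.1, fun r e => hc.2 ⟨r.1, h r.2⟩ e⟩

theorem up_mono (j : ℕ) : S.up t s j R ⊆ S.up t s (j + 1) R :=
  fun _ hc => ⟨hc.1, fun r e => hc.2 r (by omega)⟩

theorem up_top : S.up t s n R = S.pr R ⁻¹' {t} :=
  Set.ext fun _ => ⟨fun h => h.1, fun h => ⟨h, fun r e => absurd r.1.2 (not_lt.2 e)⟩⟩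

theorem up_of_not_mem {j : Fin n} (h : j ∉ R) : S.up t s (j + 1) R ⊆ S.up t s j R :=
  fun _ hc => ⟨hc.1, fun r e => hc.2 r (lt_of_le_of_ne e fun x => h (by rw [Fin.ext x]; exact r.2))⟩

theorem up_zero_bij (hs : (t, s) ∈ S.Q r₀) (hr : r₀ ∈ R) :
    BijOn (S.face (R.erase_subset r₀)) (S.up t s 0 R) (S.up t s 0 (R.erase r₀)) := by
  have h0 : ∀ c ∈ S.up t s 0 R, s = S.el ⟨r₀, hr⟩ c := fun c hc =>
    (S.gr _ _ t _ _ hs (hc.1 ▸ el_mem c ⟨r₀, hr⟩) (hc.2 _ (Nat.zero_le _))).elim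
      (fun e => absurd e (lt_irrefl _)) fun e => e.2
  refine ⟨up_face 0 _, fun c hc c' hc' e => face_inj hr e ((h0 c hc).symm.trans (h0 c' hc')),
    fun c hc => ?_⟩
  obtain ⟨c', rfl, e⟩ := exists_ins hr c (hc.1 ▸ hs) (fun r h => absurd h (not_lt.2
    (rank_le hs (hc.1 ▸ el_mem c r) (hc.2 r (Nat.zero_le _))))) fun r _ => hc.2 r (Nat.zero_le _)
  refine ⟨c', ⟨hc.1, fun r _ => ?_⟩, rfl⟩
  by_cases h : r.1 = r₀
  · rw [show r = ⟨r₀, hr⟩ from Subtype.ext h, e]; exact S.refl _ _ hs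
  · exact hc.2 ⟨r.1, Finset.mem_erase.2 ⟨h, r.2⟩⟩ (Nat.zero_le _)

variable (S) in
/-- the element of rank `j`, or `s` if there is none -/
def at' (s : E) (j : Fin n) (R : Finset (Fin n)) : C(S.Ch R, E) :=
  if h : j ∈ R then S.el ⟨j, h⟩ else ContinuousMap.const _ s

theorem at'_pos {j : Fin n} (h : j ∈ R) (c : S.Ch R) : S.at' s j R c = S.el ⟨j, h⟩ c := by
  rw [at', dif_pos h]

theorem at'_neg {j : Fin n} (h : j ∉ R) (c : S.Ch R) : S.at' s j R c = s := by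
  rw [at', dif_neg h]; rfl

theorem at'_face {j : Fin n} (h : R' ⊆ R) (h' : j ∈ R → j ∈ R') (c : S.Ch R) :
    S.at' s j R' (S.face h c) = S.at' s j R c := by
  by_cases e : j ∈ R
  · rw [at'_pos e, at'_pos (h' e)]; rfl
  · rw [at'_neg e, at'_neg fun x => e (h x)]

theorem up_inter (hs : S.le s s) (j : Fin n) :
    S.up t s (j + 1) R ∩ S.at' s j R ⁻¹' {u | S.le s u} = S.up t s j R := by
  ext c
  by_cases e : j ∈ R
  · refine ⟨fun h => ⟨h.1.1, fun r x => ?_⟩, fun h => ⟨up_mono _ h, ?_⟩⟩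
    · rcases x.lt_or_eq with x | x
      · exact h.1.2 r x
      · rw [show r = ⟨j, e⟩ from Subtype.ext (Fin.ext x.symm), ← at'_pos (s := s) e]; exact h.2
    · rw [mem_preimage, at'_pos e]; exact h.2 _ le_rfl
  · exact ⟨fun h => up_of_not_mem e h.1, fun h => ⟨up_mono _ h, by
      rw [mem_preimage, at'_neg e]; exact hs⟩⟩

theorem fib_mem (hs : S.le s s) (hu : ¬S.le s u) {j : Fin n} {c : S.Ch R}
    (hc : c ∈ S.up t s (j + 1) R ∩ S.at' s j R ⁻¹' {u}) :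
    ∃ h : j ∈ R, S.el ⟨j, h⟩ c = u ∧ (t, u) ∈ S.Q j := by
  by_cases e : j ∈ R
  · have h : S.el ⟨j, e⟩ c = u := (at'_pos e c).symm.trans hc.2
    exact ⟨e, h, hc.1.1 ▸ h ▸ el_mem c ⟨j, e⟩⟩
  · exact (hu (((at'_neg e c).symm.trans hc.2) ▸ hs)).elim

theorem fib_bij (hs : S.le s s) (hu : ¬S.le s u) {j : Fin n} (hj : (t, u) ∈ S.Q j)
    (hw : (t, w) ∈ S.Q r₀) (h1 : S.le u w) (h2 : S.le s w)
    (h3 : ∀ r v, (t, v) ∈ S.Q r → S.le u v → S.le s v → S.le w v) :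
    j ≠ r₀ ∧ ∀ R, r₀ ∈ R → BijOn (S.face (R.erase_subset r₀))
      (S.up t s (j + 1) R ∩ S.at' s j R ⁻¹' {u})
      (S.up t s (j + 1) (R.erase r₀) ∩ S.at' s j (R.erase r₀) ⁻¹' {u}) := by
  have hlt : j < r₀ := (S.gr _ _ t _ _ hj hw h1).elim id fun e => (hu (e.2 ▸ h2)).elim
  have h4 : ∀ {R : Finset (Fin n)}, ∀ c ∈ S.up t s (j + 1) R ∩ S.at' s j R ⁻¹' {u}, ∀ r : R,
      j < r.1 → S.le w (S.el r c) := fun c hc r e => by
    obtain ⟨h, h', _⟩ := fib_mem hs hu hc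
    exact h3 _ _ (hc.1.1 ▸ el_mem c r) (h' ▸ el_le c ⟨j, h⟩ r e.le) (hc.1.2 r e)
  refine ⟨hlt.ne, fun R hr => ?_⟩
  have hf : j ∈ R → j ∈ R.erase r₀ := fun h => Finset.mem_erase.2 ⟨hlt.ne, h⟩
  have h0 : ∀ c ∈ S.up t s (j + 1) R ∩ S.at' s j R ⁻¹' {u}, w = S.el ⟨r₀, hr⟩ c := fun c hc =>
    (S.gr _ _ t _ _ hw (hc.1.1 ▸ el_mem c ⟨r₀, hr⟩) (h4 c hc _ hlt)).elim
      (fun e => absurd e (lt_irrefl _)) fun e => e.2
  refine ⟨fun c hc => ⟨up_face _ _ hc.1, (at'_face _ hf c).trans hc.2⟩,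
    fun c hc c' hc' e => face_inj hr e ((h0 c hc).symm.trans (h0 c' hc')), fun c hc => ?_⟩
  obtain ⟨c', rfl, e⟩ := exists_ins hr c (hc.1.1 ▸ hw) (fun r h => by
    obtain ⟨hj', h', _⟩ := fib_mem hs hu hc
    have : r.1 ≤ j := not_lt.1 fun x =>
      absurd h (not_lt.2 (rank_le hw (hc.1.1 ▸ el_mem c r) (h4 c hc r x)))
    exact S.trans (h' ▸ el_le c r ⟨j, hj'⟩ this) h1) fun r h => h4 c hc r (hlt.trans h)
  refine ⟨c', ⟨⟨hc.1.1, fun r x => ?_⟩, (at'_face _ hf c').symm.trans hc.2⟩, rfl⟩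
  by_cases h : r.1 = r₀
  · rw [show r = ⟨r₀, hr⟩ from Subtype.ext h, e]; exact h2
  · exact hc.1.2 ⟨r.1, Finset.mem_erase.2 ⟨h, r.2⟩⟩ x

end GP

end Pool.Agent.CS
end
end
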