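import Pool.Agent.K.MP_d34769_ag.C26
import Pool.Agent.K.MP_d34769_ag.C29
import Pool.Agent.K.MP_d34769_ag.C100

/-! The diagram of chains of a graded poset is acyclic if there is a cone point. -/

open Set

noncomputable section
namespace Pool.Agent.CS

theorem AS.taut_k {X : Type} [TopologicalSpace X] [CompactSpace X] [T2Space X] {K : Set X}
    (hK : IsClosed K) [CompactSpace K] :
    (CP K ∅).QIa (CP (univ : Set K) ∅) (AS.pl (Subtype.val : K → X)) 0 := by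
  let π : C(K, X) := ⟨Subtype.val, continuous_subtype_val⟩
  have hm : (AS.sc X).Mor ((AS.sc K).push π) (AS.pl (Subtype.val : K → X)) 0 :=
    ⟨fun n x hx => by rw [add_zero]; exact AS.pull_mem_G _ hx,
      fun t x hx => (AS.sc K).mem_zz.2 fun u hu => AS.z_pull continuous_subtype_val.continuousAt
        (by rwa [show u.1 = t from hu]),
      fun t x => by
        have : AS.pl (Subtype.val : K → X) ((AS.sc X).d x) -
          ((AS.sc K).push π).d (AS.pl Subtype.val x) = 0 := sub_eq_zero.2 (AS.pull_d _ x)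
        rw [this]; exact zero_mem _⟩
  have := SC.soft_qia hm hK isClosed_empty fun t ht => by
    rw [SC.push_cx, preimage_empty, show π ⁻¹' {t} = {⟨t, ht.1⟩} from
      Set.ext fun u => ⟨fun h => Subtype.ext h, fun h => congrArg Subtype.val h⟩]
    exact AS.stalk_qia (Subtype.val : K → X) ⟨t, ht.1⟩
  rwa [SC.push_cx, preimage_empty, show π ⁻¹' K = univ from eq_univ_of_forall fun u => u.2] at this

namespace Dg
variable {S : Sh} {P : Dg S} {K A : P.Fam}

/-- a family that is matched in pairs along bijections is acyclic -/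
theorem ac_of_bij (hK : K.Cl) (up : S.ι → Prop) (h1 : ∀ k, up k → ∃! i, ¬up i ∧ S.ε k i ≠ 0)
    (h2 : ∀ i, ¬up i → ∃! k, up k ∧ S.ε k i ≠ 0)
    (hb : ∀ {k i} (h : S.rel k i), up k → ¬up i → S.ε k i ≠ 0 → BijOn (P.mp h) (K.A k) (K.A i))
    (n : ℤ) : (bc K ⊥).cx.Ac n := by
  have hm : (bc K ⊥).Mor (bc (P := res K hK) ⊤ ⊥) (dpl (inc K hK)) 0 :=
    Com.mor (inc_com K hK) (fun _ x _ => x.2) fun _ => mapsTo_empty _ _
  have hq := Bc.filta_cx hm fun p k => dpl_col_qi p fun i _ =>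
    haveI : CompactSpace (K.A i) := (res K hK).cpt i
    AS.taut_k (hK i) k
  have he : ∀ {k i} (h : S.rel k i), up k → ¬up i → S.ε k i ≠ 0 →
      ∃ σ : C((res K hK).X i, (res K hK).X k), (∀ x, σ ((res K hK).mp h x) = x) ∧
        ∀ x, (res K hK).mp h (σ x) = x := fun h a b c => by
    let e := ((res K hK).mp h).continuous.homeoOfEquivCompactToT2
      (f := Equiv.ofBijective ((res K hK).mp h) (hb h a b c).bijective)
    exact ⟨⟨e.symm, e.symm.continuous⟩, e.left_inv, e.right_inv⟩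
  refine Cx.Ac.of_inj (hq.inj n) hm.cx (Sys.ac_of_match _ _ up h1 h2 ?_ ?_ _)
  · intro k i h a b c m y hy _
    obtain ⟨σ, e, _⟩ := he h a b c
    refine ⟨AS.pull σ y, AS.pull_mem_G _ hy, (SC.mem_zz _).2 fun _ x => x.elim, ?_⟩
    have : y - (res K hK).sys.pl h (AS.pull σ y) = 0 := sub_eq_zero.2
      ((AS.pull_pull _ _ y).trans ((congrArg (AS.pull · y) (funext e)).trans (AS.pull_id y))).symm
    rw [this]; exact zero_mem _
  · intro k i h a b c x hx
    obtain ⟨σ, _, e⟩ := he h a b c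
    have : AS.pull σ ((res K hK).sys.pl h x) = x :=
      (AS.pull_pull _ _ x).trans ((congrArg (AS.pull · x) (funext e)).trans (AS.pull_id x))
    exact (SC.mem_zz _).2 fun t _ => this ▸ AS.z_pull σ.continuous.continuousAt
      ((SC.mem_zz _).1 hx _ trivial)

variable (a : S.ι → Prop) (ha : ∀ {i j}, S.rel i j → a j → a i)

/-- the diagram without the arrows that leave the upper set `a` -/
abbrev cut (P : Dg S) : Dg (S.cut a ha) where
  X := P.X
  top := P.top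
  cpt := P.cpt
  t2 := P.t2
  mp h := P.mp h.1
  comp h h' := P.comp h.1 h'.1

/-- the same family on the smaller diagram -/
def Fam.cut (K : P.Fam) : (P.cut a ha).Fam := ⟨K.A, fun h => K.mp h.1⟩

theorem ac_of_cut (h : ∀ j, ¬a j → K.A j ⊆ A.A j) {n : ℤ}
    (H : (bc (K.cut a ha) (A.cut a ha)).cx.Ac n) : (bc K A).cx.Ac n := by
  classical
  have hG : ∀ m c, c ∈ (bc K A).cx.G m ↔ c ∈ (bc (K.cut a ha) (A.cut a ha)).cx.G m :=
    fun m c => mem_cx_G.trans (mem_cx_G (K := K.cut a ha) (A := A.cut a ha)).symm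
  have hN : ∀ c, c ∈ (bc K A).cx.N ↔ c ∈ (bc (K.cut a ha) (A.cut a ha)).cx.N :=
    fun c => (mem_N (K := K) (A := A)).trans (mem_N (K := K.cut a ha) (A := A.cut a ha)).symm
  have hD : ∀ m, ∀ c ∈ (bc K A).cx.G m,
      (bc K A).cx.d c - (bc (K.cut a ha) (A.cut a ha)).cx.d c ∈ (bc K A).cx.N := by
    intro m c hc
    refine (mem_N (K := K) (A := A)).2 fun i => ?_
    have e1 := P.sys.D_apply c i
    have e2 := (P.cut a ha).sys.D_apply c i
    change P.sys.bg.D c i - (P.cut a ha).sys.bg.D c i ∈ _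
    rw [e1, e2]
    change _ + _ - ((P.sys.A i).d (c i) + (P.sys.A i).s _) ∈ _
    rw [add_sub_add_left_eq_sub, ← map_sub]
    refine K.stab.s i _ ?_
    change ∑ j : S.ι, _ - ∑ j : S.ι, _ ∈ _
    rw [← Finset.sum_sub_distrib]
    refine Submodule.sum_mem _ fun j _ => ?_
    by_cases r : S.rel i j
    · by_cases e : a i → a j
      · rw [dif_pos r, dif_pos (show (S.cut a ha).rel i j from ⟨r, e⟩),
          show (S.cut a ha).ε i j = S.ε i j from if_pos e]
        exact (Submodule.Quotient.eq _).1 rfl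
      · rw [dif_pos r, dif_neg (show ¬(S.cut a ha).rel i j from fun x => e x.2), sub_zero]
        exact Submodule.smul_mem _ _ (K.stab.pl r _
          (SC.zz_anti (h j fun x => e fun _ => x) (mem_cx_G.1 hc j).2))
    · rw [dif_neg r, dif_neg (show ¬(S.cut a ha).rel i j from fun x => r x.1), sub_zero]
      exact zero_mem _
  intro c hc
  have h1 := (bc K A).cx.N.sub_mem hc.2 (hD n c hc.1)
  rw [sub_sub_cancel] at h1
  obtain ⟨b, hb, e⟩ := Cx.mem_B.1 (H ⟨(hG n c).1 hc.1, (hN _).1 h1⟩)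
  have h2 := (bc K A).cx.N.sub_mem ((hN _).2 e) (hD _ b ((hG _ b).2 hb))
  exact Cx.mem_B.2 ⟨b, (hG _ b).2 hb, by rwa [sub_sub, add_sub_cancel] at h2⟩

end Dg

namespace GP
variable {B E : Type} [TopologicalSpace B] [CompactSpace B] [T2Space B] [TopologicalSpace E]
  [T2Space E] {n : ℕ} (S : GP B E n)

/-- the diagram of chains -/
abbrev dg : Dg (Sh.simp (Fin n)) where
  X := S.Ch
  mp h := S.face h
  comp _ _ _ := rfl

/-- the diagram of chains over the base -/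
def ov : Dg.Ov S.dg B := ⟨S.pr, fun _ _ => rfl⟩

/-- the filtration of the fibre over `t` -/
def upF (t : B) (s : E) (j : ℕ) : S.dg.Fam := ⟨S.up t s j, fun h => up_face j h⟩

variable {S} {t : B} {s : E}

theorem upF_cl (j : ℕ) : (S.upF t s j).Cl := fun _ => up_closed j

theorem step (h : S.Cone t s) (j : Fin n) (k : ℤ) :
    (Dg.bc (S.upF t s (j + 1)) (S.upF t s j)).cx.Ac k := by
  obtain ⟨r, hr⟩ := h.1
  have hs : S.le s s := S.refl _ _ hr
  have ha : ∀ {R R'}, (Sh.simp (Fin n)).rel R R' → j ∈ R' → j ∈ R := fun h x => h x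
  refine Dg.ac_of_cut (fun R : Finset (Fin n) => j ∈ R) ha (fun R h => up_of_not_mem h) ?_
  have : CompactSpace (insert s (Prod.snd '' S.Q j) : Set E) :=
    isCompact_iff_compactSpace.1 (((S.cpt j).image continuous_snd).insert s)
  have hm : ∀ R (c : S.Ch R), S.at' s j R c ∈ insert s (Prod.snd '' S.Q j) := fun R c => by
    by_cases e : j ∈ R
    · rw [at'_pos e]; exact Or.inr ⟨_, el_mem c ⟨j, e⟩, rfl⟩
    · rw [at'_neg e]; exact Or.inl rfl
  let O : Dg.Ov (S.dg.cut (fun R : Finset (Fin n) => j ∈ R) ha)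
      (insert s (Prod.snd '' S.Q j) : Set E) :=
    ⟨fun R => ⟨fun c => ⟨S.at' s j R c, hm R c⟩, (S.at' s j R).continuous.subtype_mk (hm R)⟩,
      fun h x => Subtype.ext (at'_face h.1 h.2 x)⟩
  have hK : ((S.upF t s (j + 1)).cut (fun R : Finset (Fin n) => j ∈ R) ha).Cl :=
    fun _ => up_closed _
  have := SC.soft (S := O.scr hK Dg.Fam.cl_bot) (n := k) isClosed_univ
    (S.cl.preimage ((continuous_const (y := s)).prodMk continuous_subtype_val)) (fun u hu k _ => by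
      have hu' : ¬S.le s u.1 := hu.2
      have e : ∀ R, ((S.upF t s (j + 1)).cut _ ha ⊓ O.fam {u}).A R =
          S.up t s (j + 1) R ∩ S.at' s j R ⁻¹' {u.1} := fun R =>
        Set.ext fun c => and_congr_right' Subtype.ext_iff
      rw [Dg.Ov.scr_cx, show ⊥ ⊔ (S.upF t s (j + 1)).cut _ ha ⊓ O.fam ∅ = ⊥ from
        Dg.Fam.ext (funext fun _ => (empty_union _).trans (inter_empty _))]
      by_cases hj : (t, u.1) ∈ S.Q j
      · obtain ⟨r₀, w, hw, h1, h2, h3⟩ := h.2 j u.1 hj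
        obtain ⟨hne, hb⟩ := fib_bij hs hu' hj hw h1 h2 h3
        obtain ⟨h4, h5, h6⟩ := sgn_match (r₀ := r₀)
          ((Sh.simp (Fin n)).cut (fun R : Finset (Fin n) => j ∈ R) ha).ε
          (fun _ _ x y => x (by simp [y])) fun R x => by
            rw [show ((Sh.simp (Fin n)).cut (fun R : Finset (Fin n) => j ∈ R) ha).ε R (R.erase r₀)
              = sgn R (R.erase r₀) from if_pos fun y => Finset.mem_erase.2 ⟨hne, y⟩]
            exact sgn_erase_ne x
        refine Dg.ac_of_bij (hK.inf (O.fam_cl isClosed_singleton))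
          (fun R : Finset (Fin n) => r₀ ∈ R) h5 h6 ?_ k
        intro R R' hr a b c
        obtain rfl := h4 R R' a b c
        rw [e, e]
        exact hb R a
      · refine Dg.ac_of_subset (fun R c hc => (hj ?_).elim) k
        rw [e] at hc
        exact (fib_mem hs hu' hc).2.2) k le_rfl
  rwa [Dg.Ov.scr_cx, show (S.upF t s (j + 1)).cut _ ha ⊓ O.fam univ =
    (S.upF t s (j + 1)).cut _ ha from Dg.Fam.ext (funext fun _ => inter_univ _),
    show ⊥ ⊔ (S.upF t s (j + 1)).cut _ ha ⊓ O.fam ((fun x => (s, x.1)) ⁻¹' {p | S.le p.1 p.2}) =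
      (S.upF t s j).cut _ ha from
      Dg.Fam.ext (funext fun _ => (empty_union _).trans (up_inter hs j))] at this

theorem cone_stalk (h : S.Cone t s) (k : ℤ) : (Dg.bc (S.ov.fam {t}) ⊥).cx.Ac k := by
  have key : ∀ j ≤ n, (Dg.bc (S.upF t s j) ⊥).cx.Ac k := by
    intro j
    induction j with
    | zero =>
      intro _
      obtain ⟨r₀, hs⟩ := h.1
      obtain ⟨h0, h1, h2⟩ := sgn_match (r₀ := r₀) sgn (fun _ _ x => x) fun _ => sgn_erase_ne
      refine Dg.ac_of_bij (upF_cl 0) (fun R : Finset (Fin n) => r₀ ∈ R) h1 h2 ?_ k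
      intro R R' hr a b c
      obtain rfl := h0 R R' a b c
      exact up_zero_bij hs a
    | succ j ih =>
      intro hj
      refine Cx.ac_mid (C := (Dg.bc (S.upF t s (j + 1)) ⊥).cx) (Dg.N_D (A := ⊥) (S.upF t s j))
        (Dg.N_anti fun _ => up_mono j) ?_ ?_
      · rw [Dg.cx_sub, show ⊥ ⊔ S.upF t s j = S.upF t s j from
          Dg.Fam.ext (funext fun _ => empty_union _)]
        exact step h ⟨j, hj⟩ k
      · rw [Dg.cx_quo fun _ => up_mono j]
        exact ih (by omega)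
  rw [show S.ov.fam {t} = S.upF t s n from Dg.Fam.ext (funext fun _ => up_top.symm)]
  exact key n le_rfl

/-- CONE -/
theorem cone {K A : Set B} (hK : IsClosed K) (hA : IsClosed A)
    (h : ∀ t ∈ K \ A, ∃ s, S.Cone t s) (k : ℤ) : (Dg.bc (S.ov.fam K) (S.ov.fam A)).cx.Ac k := by
  rw [← Dg.Ov.sc_cx]
  refine SC.soft hK hA (fun t ht k _ => ?_) k le_rfl
  obtain ⟨s, hs⟩ := h t ht
  rw [Dg.Ov.sc_cx]
  exact cone_stalk hs k

end GP

section op
variable {μ B : Type} [Fintype μ] [TopologicalSpace B] [CompactSpace B]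
  {𝒬 : Set (B × Matrix μ μ ℂ)} (h : IsClosed 𝒬) {n : ℕ} {t : B}

/-- a cone point from a family in a lattice -/
theorem GP.ofOP_cone {L : Type} [SemilatticeSup L] (𝒜 : Set L) (N : L → Matrix μ μ ℂ)
    (hQ : ∀ Q, (t, Q) ∈ 𝒬 ↔ ∃ U ∈ 𝒜, N U = Q) (hN : ∀ U ∈ 𝒜, ∃ r < n, OP r (N U))
    (hle : ∀ U ∈ 𝒜, ∀ V ∈ 𝒜, N V * N U = N U ↔ U ≤ V) {s : L} (hs : s ∈ 𝒜)
    (hj : ∀ U ∈ 𝒜, U ⊔ s ∈ 𝒜) : (GP.ofOP 𝒬 h n).Cone t (N s) := by
  have h0 : ∀ U ∈ 𝒜, ∃ r, (t, N U) ∈ (GP.ofOP 𝒬 h n).Q r := fun U hU => by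
    obtain ⟨r, hr, e⟩ := hN U hU
    exact ⟨⟨r, hr⟩, (hQ _).2 ⟨U, hU, rfl⟩, e⟩
  refine ⟨h0 s hs, fun r u hu => ?_⟩
  obtain ⟨U, hU, rfl⟩ := (hQ _).1 hu.1
  obtain ⟨r', hw⟩ := h0 _ (hj U hU)
  refine ⟨r', _, hw, (hle _ hU _ (hj U hU)).2 le_sup_left, (hle _ hs _ (hj U hU)).2 le_sup_right,
    fun r'' v hv a b => ?_⟩
  obtain ⟨V, hV, rfl⟩ := (hQ _).1 hv.1
  exact (hle _ (hj U hU) _ hV).2 (sup_le ((hle _ hU _ hV).1 a) ((hle _ hs _ hV).1 b))

theorem mul_eq_iff_range {U V : Matrix μ μ ℂ} (hV : V * V = V) :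
    V * U = U ↔ LinearMap.range U.mulVecLin ≤ LinearMap.range V.mulVecLin := by
  classical
  refine ⟨fun e => ?_, fun e => Matrix.toLin'.injective (LinearMap.ext fun x => ?_)⟩
  · rintro _ ⟨x, rfl⟩
    exact ⟨U.mulVec x, by rw [Matrix.mulVecLin_apply, Matrix.mulVec_mulVec, e]; rfl⟩
  · obtain ⟨y, hy⟩ := e ⟨x, rfl⟩
    rw [Matrix.mulVecLin_apply, Matrix.mulVecLin_apply] at hy
    rw [Matrix.toLin'_apply, Matrix.toLin'_apply, ← Matrix.mulVec_mulVec, ← hy,
      Matrix.mulVec_mulVec, hV]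

/-- a cone point in terms of ranges -/
theorem GP.ofOP_cone_range (hN : ∀ U, (t, U) ∈ 𝒬 → ∃ r < n, OP r U) {s : Matrix μ μ ℂ}
    (hs : (t, s) ∈ 𝒬) (hj : ∀ U, (t, U) ∈ 𝒬 → ∃ W, (t, W) ∈ 𝒬 ∧ LinearMap.range W.mulVecLin =
      LinearMap.range U.mulVecLin ⊔ LinearMap.range s.mulVecLin) : (GP.ofOP 𝒬 h n).Cone t s := by
  obtain ⟨r, hr, e⟩ := hN s hs
  refine ⟨⟨⟨r, hr⟩, hs, e⟩, fun _ u hu => ?_⟩
  obtain ⟨w, hw, e'⟩ := hj u hu.1
  obtain ⟨r', hr', hw'⟩ := hN w hw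
  refine ⟨⟨r', hr'⟩, w, ⟨hw, hw'⟩, (mul_eq_iff_range hw'.idem).2 (e' ▸ le_sup_left),
    (mul_eq_iff_range hw'.idem).2 (e' ▸ le_sup_right), fun _ v hv a b => ?_⟩
  exact (mul_eq_iff_range hv.2.idem).2 (e' ▸ sup_le ((mul_eq_iff_range hv.2.idem).1 a)
    ((mul_eq_iff_range hv.2.idem).1 b))

end op

end Pool.Agent.CS
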