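import Pool.Agent.K.MP_d34769_ag.C97
import Pool.Agent.K.MP_d34769_ag.C100
import Pool.Agent.K.MP_d34769_ag.C101
import Pool.Agent.K.MP_d34769_ag.C35

/-! A class that vanishes on all destabilising flags vanishes on the unstable locus. -/

open MvPolynomial Function Matrix

noncomputable section
namespace Pool.Agent.CS.Dat

variable {I : Type} [Fintype I] [DecidableEq I] {D : Dat I} {o : I → ℕ} {t : Fin 3 → ℤ}
  {C : Finset (Finset I)} {h : Chn C} {F : Finset I} {p : Pt I D.m} {g : Matrix I I ℂ}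
  {u : Matrix D.Mu D.Mu ℂ}

/-- `u` is the projector of a destabilising subrepresentation of type `F` -/
def Qp (D : Dat I) (t : Fin 3 → ℤ) (F : Finset I) (p : Pt I D.m) (u : Matrix D.Mu D.Mu ℂ) : Prop :=
  ∃ U, D.Sub p.1 U ∧ D.ty U = F ∧ 0 < D.wt t U ∧ D.Nn p U = u

/-- standard sets of positive weight -/
def Std (D : Dat I) (t : Fin 3 → ℤ) (F : Finset I) : Prop :=
  D.ty (sp (F : Set I)) = F ∧ 0 < D.tw t F

/-- the unstable locus -/
def Bad (D : Dat I) (t : Fin 3 → ℤ) : Set D.XS := {x | ¬ D.SS t (D.sec x).1}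

theorem Qp.act (hg : g ∈ D.base.P) : D.Qp t F p u → D.Qp t F (act g p) u :=
  fun ⟨U, a, b, c, e⟩ => ⟨U.map g.mulVecLin, (sub_act hg).2 a, (ty_act hg a).trans b,
    by rwa [wt_act hg a.cg], (Nn_act hg p U).trans e⟩

theorem Qp.std : D.Qp t F p u → D.Std t F := fun ⟨_, a, b, c, _⟩ =>
  b ▸ ⟨(a.ty (t := t)).2.2, a.ty.1 ▸ c⟩

theorem qp_pt (hp : D.St p) : D.Qp t F (D.sec (pt p hp)) u ↔ D.Qp t F p u :=
  iff_of_eq (desc_eq (f := fun p => D.Qp t F p u) (fun p _ _ hg => propext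
    ⟨fun q => act_inv hg.2 p ▸ q.act (D.P_le (D.inv_mem_P hg)), Qp.act (D.P_le hg)⟩) hp)

theorem bad_pt (hp : D.St p) : pt p hp ∈ D.Bad t ↔ ¬ D.SS t p.1 :=
  iff_of_eq (desc_eq (f := fun p => ¬ D.SS t p.1) (fun p _ _ hg => propext (not_congr
    ⟨fun q => congrArg Prod.fst (act_inv hg.2 p) ▸ q.act (D.P_le (D.inv_mem_P hg)),
      SS.act (D.P_le hg)⟩)) hp)

theorem Bs.st_cf (hD : D.Bs) :
    (D.cf C h).St p ↔ D.St p ∧ ∀ F ∈ C, D.Sub p.1 (sp (F : Set I)) :=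
  ⟨fun a => ⟨⟨hD.mem_R (mem_R_cf.1 a.1).1, a.2, a.3⟩, (mem_R_cf.1 a.1).2⟩,
    fun a => ⟨mem_R_cf.2 ⟨D.R_le a.1.1, a.2⟩, a.1.2, a.1.3⟩⟩

theorem Bs.mc_pt (hD : D.Bs) {p : Pt I (D.cf C h).m} (hp : (D.cf C h).St p) :
    (hD.mor h).mc (pt p hp) = pt (D := D) p (hD.st_cf.1 hp).1 :=
  Subtype.ext (((hD.mor h).mp_pt0 hp).trans (congrArg D.pt0 (hD.mor_F h p)))

/-- the projector of a step of the flag -/
def fl (h : Chn C) (F : Finset I) (x : (D.cf C h).XS) : Matrix D.Mu D.Mu ℂ :=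
  D.Nn ((D.cf C h).sec x) (sp (F : Set I))

theorem fl_act (hF : F ∈ C) (p : Pt I D.m) (hg : g ∈ (D.cf C h).P) :
    D.Nn (act g p) (sp (F : Set I)) = D.Nn p (sp (F : Set I)) :=
  Nn_sp_act (D := D.cf C h) hg p fun _ _ e => e.2.2 F hF

theorem fl_pt (hF : F ∈ C) {p : Pt I (D.cf C h).m} (hp : (D.cf C h).St p) :
    fl h F (pt p hp) = D.Nn p (sp (F : Set I)) :=
  desc_eq (D := D.cf C h) (f := fun p => D.Nn p (sp (F : Set I)))
    (fun p _ _ => fl_act (D := D) (h := h) hF p) hp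

theorem fl_cont (hF : F ∈ C) : Continuous (fl (D := D) h F) :=
  desc_cont (D := D.cf C h) (f := fun p => D.Nn p (sp (F : Set I)))
    (fun p _ _ => fl_act (D := D) (h := h) hF p) ((Nn_cont _).mono fun _ hp => St.toBase (D := D.cf C h) hp)

theorem Bs.fl_qp (hD : D.Bs) (hF : F ∈ C) (s : D.Std t F) (x : (D.cf C h).XS) :
    D.Qp t F (D.sec ((hD.mor h).mc x)) (fl h F x) := by
  obtain ⟨p, hp, rfl⟩ := exists_pt x
  rw [hD.mc_pt, fl_pt hF]
  exact (qp_pt _).2 ⟨_, (hD.st_cf.1 hp).2 F hF, s.1, by rw [wt_sp]; exact s.2, rfl⟩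

theorem Bs.fl_inj (hD : D.Bs) {x x' : (D.cf C h).XS} (e : (hD.mor h).mc x = (hD.mor h).mc x')
    (e' : ∀ F ∈ C, fl h F x = fl h F x') : x = x' := by
  obtain ⟨p, hp, rfl⟩ := exists_pt x
  obtain ⟨q, hq, rfl⟩ := exists_pt x'
  rw [hD.mc_pt, hD.mc_pt] at e
  obtain ⟨g, hg, rfl⟩ := (pt_eq_iff _ _).1 e
  refine (pt_eq_iff _ _).2 ⟨g, mem_P_cf (D.P_le hg) fun F hF => le_of_eq ?_, rfl⟩
  exact Nn_inj (D := D) hq.toBase ((Nn_act (D.P_le hg) p _).trans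
    ((fl_pt hF hp).symm.trans ((e' F hF).trans (fl_pt hF hq))))

theorem Qp.le (hp : D.St p) {F' : Finset I} {v : Matrix D.Mu D.Mu ℂ} (a : D.Qp t F p u)
    (b : D.Qp t F' p v) (e : v * u = u) : F ⊆ F' ∧ (F = F' → u = v) := by
  obtain ⟨U, a1, rfl, -, rfl⟩ := a
  obtain ⟨V, b1, rfl, -, rfl⟩ := b
  have := (Nn_le_iff hp.toBase).1 e
  exact ⟨ty_mono this, fun e => by rw [a1.eq_of_ty b1 this e]⟩

theorem Bs.fl_sur (hD : D.Bs) {A : Type} {F : A → Finset I} {u : A → Matrix D.Mu D.Mu ℂ} {x : D.XS}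
    (hq : ∀ a, D.Qp t (F a) (D.sec x) (u a)) (hc : ∀ a b, u b * u a = u a ∨ u a * u b = u b)
    (hC : ∀ G, G ∈ C ↔ ∃ a, F a = G) :
    ∃ y : (D.cf C h).XS, (hD.mor h).mc y = x ∧ ∀ a, fl h (F a) y = u a := by
  have hp := sec_st x.2
  choose U a1 a2 a3 a4 using hq
  obtain ⟨k, hk, e⟩ := exists_ty U (fun a b => by
    simpa only [← a4, Nn_le_iff hp.toBase] using hc a b) a1
  have hi := D.base.inv_mem_P hk
  have hs : (D.cf C h).St (act k⁻¹ (D.sec x)) := hD.st_cf.2 ⟨hp.act (hD.mem_P hi), fun G hG => by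
    obtain ⟨a, rfl⟩ := (hC G).1 hG
    refine (sub_act hk).1 ?_
    rw [← a2, ← e]
    exact (congrArg (fun p => D.Sub p.1 (U a)) (act_inv' hk.2 (D.sec x))).mpr (a1 a)⟩
  refine ⟨pt (D := D.cf C h) _ hs, (hD.mc_pt hs).trans
    ((Subtype.ext (pt0_act (hD.mem_P hi) _)).trans (pt_sec x)), fun a =>
      (fl_pt ((hC _).2 ⟨a, rfl⟩) hs).trans ?_⟩
  rw [← a4, e, a2]
  exact (Nn_act hk _ _).symm.trans (congrArg (D.Nn · _) (act_inv' hk.2 _))

theorem Bs.qp_cpt (hD : D.Bs) (t : Fin 3 → ℤ) (F : Finset I) :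
    IsCompact {y : D.XS × Matrix D.Mu D.Mu ℂ | D.Qp t F (D.sec y.1) y.2} := by
  by_cases s : D.Std t F
  · have m := Finset.mem_singleton_self F
    refine Eq.subst (Set.ext fun y => ⟨?_, fun q => ?_⟩)
      (isCompact_range ((hD.mor (chn_one F)).mc.continuous.prodMk (fl_cont m)))
    · rintro ⟨x, rfl⟩
      exact hD.fl_qp m s x
    · obtain ⟨U, -, -, -, e⟩ := id q
      obtain ⟨x, a, b⟩ := hD.fl_sur (h := chn_one F) (F := fun _ : Unit => F) (u := fun _ => y.2)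
        (fun _ => q) (fun _ _ => .inl (e ▸ (Nn_prj _ _).idem)) (by simp [eq_comm])
      exact ⟨x, Prod.ext a (b ())⟩
  · exact Eq.subst (Set.eq_empty_of_forall_notMem fun y q => s (Qp.std q)).symm isCompact_empty

theorem Bs.bad_closed (hD : D.Bs) (t : Fin 3 → ℤ) : IsClosed (D.Bad t) := by
  refine Eq.subst (Set.ext fun x => ?_) (isClosed_iUnion_of_finite fun F =>
    ((hD.qp_cpt t F).image continuous_fst).isClosed)
  simp only [Set.mem_iUnion, Bad, SS, Set.mem_ofPred_eq, not_forall, not_le]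
  constructor
  · rintro ⟨_, _, ⟨U, a, -, b, -⟩, rfl⟩
    exact ⟨U, a, b⟩
  · rintro ⟨U, a, b⟩
    exact ⟨_, (x, D.Nn (D.sec x) U), ⟨U, a, rfl, b, rfl⟩, rfl⟩

variable {n : ℕ} (e : Fin n ≃ Finset I)

/-- the poset of destabilising subrepresentations -/
def Bs.gp (hD : D.Bs) (t : Fin 3 → ℤ) (he : ∀ r r', e r ⊆ e r' → r ≤ r') :
    GP D.XS (Matrix D.Mu D.Mu ℂ) n where
  Q r := {y | D.Qp t (e r) (D.sec y.1) y.2}
  le P Q := Q * P = P
  cpt r := hD.qp_cpt t (e r)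
  cl := isClosed_eq (continuous_snd.matrix_mul continuous_fst) continuous_fst
  trans {a b c} h h' := by rw [← h, ← Matrix.mul_assoc, h']
  refl _ _ := fun ⟨_, _, _, _, a⟩ => a ▸ (Nn_prj _ _).idem
  gr r r' x _ _ a b l := have := Qp.le (sec_st x.2) a b l
    (he r r' this.1).lt_or_eq.imp_right fun c => ⟨c, this.2 (congrArg e c)⟩

theorem Bs.gp_cone (hD : D.Bs) (he : ∀ r r', e r ⊆ e r' → r ≤ r') {x : D.XS} (hx : x ∈ D.Bad t) :
    ∃ s, (hD.gp e t he).Cone x s := by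
  obtain ⟨s, hs, hm⟩ := exists_max t (D.sec x).1
  have hp := (sec_st x.2).toBase
  have a : ∀ U, D.Sub (D.sec x).1 U → 0 < D.wt t U → ∃ r, (x, D.Nn (D.sec x) U) ∈ (hD.gp e t he).Q r :=
    fun U a b => ⟨e.symm (D.ty U), U, a, (e.apply_symm_apply _).symm, b, rfl⟩
  refine ⟨D.Nn (D.sec x) s, a s hs (not_le.1 fun c => hx fun U hU => (hm U hU).1.trans c), ?_⟩
  rintro r u ⟨U, b1, -, b2, rfl : D.Nn (D.sec x) U = u⟩
  obtain ⟨r', c⟩ := a _ (b1.sup hs) (b2.trans_le (hm U b1).2)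
  refine ⟨r', _, c, (Nn_le_iff hp).2 le_sup_left, (Nn_le_iff hp).2 le_sup_right, ?_⟩
  rintro r'' v ⟨V, -, -, -, rfl : D.Nn (D.sec x) V = v⟩ c1 c2
  exact (Nn_le_iff hp).2 (sup_le ((Nn_le_iff hp).1 c1) ((Nn_le_iff hp).1 c2))

/-- the sets of ranks of the chains -/
def Gd (D : Dat I) (t : Fin 3 → ℤ) (R : Finset (Fin n)) : Prop :=
  Chn (R.image e) ∧ ∀ r ∈ R, D.Std t (e r)

theorem Gd.mono (R R' : Finset (Fin n)) (s : R' ⊆ R) (h : D.Gd e t R) : D.Gd e t R' :=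
  ⟨h.1.mono (Finset.image_subset_image s), fun r hr => h.2 r (s hr)⟩

theorem cfMor_mp {C' : Finset (Finset I)} (h : Chn C) (h' : Chn C') (s : C' ⊆ C) :
    (D.cfMor h h' s).mp = fun x => (D.cf C' h').pt0 ((D.cf C h).sec x) :=
  funext fun _ => congrArg (D.cf C' h').pt0 (cfMor_F h h' s _)

theorem cfMor_pt {C' : Finset (Finset I)} (h' : Chn C') (s : C' ⊆ C) {p : Pt I (D.cf C h).m}
    (hp : (D.cf C h).St p) (hp' : (D.cf C' h').St p) :
    (D.cfMor h h' s).mc (pt p hp) = pt (D := D.cf C' h') p hp' :=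
  Subtype.ext ((Mor.mp_pt0 _ hp).trans (congrArg (D.cf C' h').pt0 (cfMor_F h h' s p)))

/-- the diagram of the spaces of destabilising flags -/
def hnS (D : Dat I) (t : Fin 3 → ℤ) : SDg (Sh.good (D.Gd e t) (Gd.mono e)) where
  M R := (D.cf _ R.2.1).M
  X R := (D.cf _ R.2.1).XS
  f R R' x := (D.cf _ R'.2.1).pt0 ((D.cf _ R.2.1).sec x)
  dm R := (D.cf _ R.2.1).dim
  mf R := (D.cf _ R.2.1).mf
  maps {R R'} s := cfMor_mp R.2.1 R'.2.1 (Finset.image_subset_image s) ▸ Mor.mp_maps _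
  hol {R R'} s := cfMor_mp R.2.1 R'.2.1 (Finset.image_subset_image s) ▸ Mor.mp_hol _
  comp {R R' R''} s s' x hx := by
    have b := Finset.image_subset_image (f := e) s'
    have c := cfMor_F R.2.1 R'.2.1 (Finset.image_subset_image s) ((D.cf _ R.2.1).sec x) ▸
      (D.cfMor R.2.1 R'.2.1 (Finset.image_subset_image s)).st (sec_st hx)
    exact (congrFun (cfMor_mp _ _ b) _).symm.trans (((D.cfMor R'.2.1 R''.2.1 b).mp_pt0 c).trans
      (congrArg (D.cf _ R''.2.1).pt0 (cfMor_F _ _ b _)))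

theorem hnS_mp {R R' : (Sh.good (D.Gd e t) (Gd.mono e)).ι} (s : R'.1 ⊆ R.1) :
    (D.hnS e t).toDg.mp (i := R) (j := R') s =
      (D.cfMor R.2.1 R'.2.1 (Finset.image_subset_image s)).mc :=
  ContinuousMap.ext fun x => Subtype.ext (congrFun (cfMor_mp _ _ _) x.1).symm

/-- flags as chains -/
def Bs.hq (hD : D.Bs) (he : ∀ r r', e r ⊆ e r' → r ≤ r') {R : Finset (Fin n)} (s : D.Gd e t R) :
    (D.cf _ s.1).XS ≃ₜ (hD.gp e t he).Ch R :=
  have m : ∀ r : R, e r ∈ R.image e := fun r => Finset.mem_image_of_mem e r.2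
  Continuous.homeoOfEquivCompactToT2 (f := Equiv.ofBijective
    (fun x => ⟨((hD.mor s.1).mc x, fun r => fl s.1 (e r) x),
      fun r => hD.fl_qp (m r) (s.2 r r.2) x, fun r r' l =>
        (Nn_le_iff (sec_st x.2).toBase).2 (e4_sp_mono ((s.1 _ (m r) _ (m r')).resolve_right
          fun c => (he _ _ c).not_gt l))⟩)
    ⟨fun x x' a => hD.fl_inj (congrArg (·.1.1) a) fun F hF => by
      obtain ⟨r, hr, rfl⟩ := Finset.mem_image.1 hF
      exact congrArg (·.1.2 ⟨r, hr⟩) a, fun y => by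
      obtain ⟨x, a, b⟩ := hD.fl_sur (h := s.1) (GP.el_mem y)
        (fun r r' => (le_total r.1 r'.1).imp (GP.el_le y r r') (GP.el_le y r' r)) (by simp)
      exact ⟨x, GP.Ch.ext a b⟩⟩)
    (((hD.mor s.1).mc.continuous.prodMk (continuous_pi fun r => fl_cont (m r))).subtype_mk _)

theorem Bs.hn_ac (hD : D.Bs) (he : ∀ r r', e r ⊆ e r' → r ≤ r') :
    ∃ K : (D.hnS e t).toDg.Fam, (∀ R, K.A R = (D.cf _ R.2.1).Bad t) ∧
      ∀ k, (Dg.bc K ⊥).cx.Ac k := by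
  have a : ∀ {R R' : (Sh.good (D.Gd e t) (Gd.mono e)).ι} (s : R'.1 ⊆ R.1) x,
      hD.hq e he R'.2 ((D.hnS e t).toDg.mp (i := R) (j := R') s x) =
        (hD.gp e t he).face s (hD.hq e he R.2 x) := fun {R R'} s x => by
    obtain ⟨p, hp, rfl⟩ := exists_pt (D := D.cf _ R.2.1) x
    have hp' : (D.cf _ R'.2.1).St p := hD.st_cf.2 ⟨(hD.st_cf.1 hp).1, fun F hF =>
      (hD.st_cf.1 hp).2 F (Finset.image_subset_image s hF)⟩
    refine (congrArg (hD.hq e he R'.2) ((DFunLike.congr_fun (hnS_mp e s) _).trans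
      (cfMor_pt _ _ hp hp'))).trans ?_
    exact GP.Ch.ext ((hD.mc_pt hp').trans (hD.mc_pt hp).symm) fun r =>
      (fl_pt (Finset.mem_image_of_mem e r.2) hp').trans
        (fl_pt (Finset.mem_image_of_mem e (s r.2)) hp).symm
  let L := (hD.gp e t he).ov.fam (D.Bad t)
  refine ⟨⟨fun R => hD.hq e he R.2 ⁻¹' L.A R.1, fun s x hx =>
    (congrArg (· ∈ L.A _) (a s x)).mpr (L.mp s hx)⟩, fun R => Set.ext fun x => ?_, fun k =>
    Dg.ac_sub (P := (D.hnS e t).toDg) (Q := (hD.gp e t he).dg) (L := L) (τ := Subtype.val) Subtype.val_injective (fun _ _ => Iff.rfl) (fun _ _ => rfl)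
      (fun _ => rfl) (fun R R' s => ⟨⟨R', Gd.mono e _ _ s R.2⟩, rfl⟩) (fun R => hD.hq e he R.2) a
      (fun R c => ⟨fun y => c ⟨⟨R, fun F hF F' hF' => ?_, fun r hr => Qp.std (GP.el_mem y ⟨r, hr⟩)⟩,
        rfl⟩⟩) (fun _ => rfl)
      (GP.cone (hD.bad_closed t) isClosed_empty (fun x hx => hD.gp_cone e he hx.1) k)⟩
  · obtain ⟨p, hp, rfl⟩ := exists_pt (D := D.cf _ R.2.1) x
    exact ((congrArg (· ∈ D.Bad t) (hD.mc_pt hp)).to_iff.trans (bad_pt _)).trans (bad_pt hp).symm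
  · obtain ⟨r, hr, rfl⟩ := Finset.mem_image.1 hF
    obtain ⟨r', hr', rfl⟩ := Finset.mem_image.1 hF'
    have b := fun (r r' : R) l => (Qp.le (sec_st (GP.pr _ R y).2) (GP.el_mem y r) (GP.el_mem y r')
      (GP.el_le y r r' l)).1
    exact (le_total r r').imp (b ⟨r, hr⟩ ⟨r', hr'⟩) (b ⟨r', hr'⟩ ⟨r, hr⟩)

theorem Bs.hn (hD : D.Bs) {c : MvPolynomial I ℂ} (hi : D.Inv c) {q : ℕ} (hc : c.IsHomogeneous q)
    (h : ∀ F, 0 < D.tw t F → c ∈ (D.cf {F} (chn_one F)).Kr) : HR.res (D.Bad t) (D.evD c) = 0 := by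
  obtain ⟨n, e, he⟩ := exists_num I
  obtain ⟨K, h1, h2⟩ := hD.hn_ac (t := t) e he
  have hi' : ∀ {C} (h : Chn C), (D.cf C h).Inv c := fun h => by
    simpa [Bs.mor] using (hD.mor h).inv hi
  have g0 : D.Gd e t ∅ := ⟨chn_empty, by simp⟩
  have e0 : D.cf _ g0.1 = D := hD.cf_empty
  have key : IsClosed ((D.cf _ g0.1).Bad t) →
      HR.res ((D.cf _ g0.1).Bad t) ((D.cf _ g0.1).evD c) = 0 := fun cl => by
    obtain ⟨y, hy, e1⟩ := exists_cl (n := (2 * q : ℕ))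
      (show (D.cf _ g0.1).evD c ∈ _ by exact_mod_cast evD_gr hc)
    rw [← e1, res_cl_eq_zero cl hy, ← h1 ⟨∅, g0⟩]
    refine Dg.hn_col (D.hnS e t).e2a (h2 _) (i₀ := ⟨∅, g0⟩) rfl hy fun R s c1 => ?_
    obtain ⟨r, hr⟩ := Finset.card_eq_one.1 c1
    rw [hnS_mp e s]
    refine (cl_eq_zero (pull_mem_Z _ hy)).1 ((pull_cl _ (Z_Zc hy)).symm.trans ?_)
    rw [e1]
    refine (evD_mor _ (hi' _)).trans ((evD_eq_zero (Mor.inv _ (hi' _))).2 ?_)
    have : ∀ C (h' : Chn C), C = {e r} → c ∈ (D.cf C h').Kr := by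
      rintro _ _ rfl
      exact h _ (R.2.2 r (hr ▸ Finset.mem_singleton_self r)).2
    simpa [cfMor] using this _ R.2.1 (by rw [hr, Finset.image_singleton])
  rw [e0] at key
  exact key (hD.bad_closed t)

theorem bad_hat (o : I → ℕ) : (D.hat o).Bad t = (D.hatMor o).mc ⁻¹' D.Bad t := Set.ext fun x => by
  obtain ⟨p, hp, rfl⟩ := exists_pt x
  exact (bad_pt hp).trans ((congrArg (· ∈ D.Bad t) (hat_mc hp)).to_iff.trans (bad_pt _)).symm

theorem hn_closed (hD : D.Bs) (o : I → ℕ) :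
    IsClosed {x : (D.zero.hat o).XS | ¬ D.SS D.th ((D.zero.hat o).sec x).1} :=
  (congrArg IsClosed (bad_hat (D := D.zero) (t := D.th) o)).mpr <|
    (Bs.bad_closed (D := D.zero) hD D.th).preimage (D.zero.hatMor o).mc.continuous

/-- HN -/
theorem hn_res (hD : D.Bs) (ho : Injective o) {c : MvPolynomial I ℂ} (hi : D.Inv c) {q : ℕ}
    (hc : c.IsHomogeneous q)
    (h : ∀ F, 0 < D.tw D.th F → c ∈ (D.zero.cf {F} (chn_one F)).Kr) :
    HR.res {x : (D.zero.hat o).XS | ¬ D.SS D.th ((D.zero.hat o).sec x).1} (D.zero.evO ho c) = 0 := by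
  have := isCompact_iff_compactSpace.1 (hn_closed hD o).isCompact
  rw [← evD_spec (D := D.zero) ho hi, HR.pull_pull]
  exact pull_eq_zero_of (K := D.zero.Bad D.th) _
    (fun ⟨_, h⟩ => (bad_hat (D := D.zero) (t := D.th) o).subset h) (Bs.hn (D := D.zero) hD hi hc h)

end Pool.Agent.CS.Dat
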