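import Mathlib

/-! Poincaré duality algebras and the algebraic part of the kernel theorem. -/

open MvPolynomial

namespace Pool.Agent.CS

variable {I : Type}

/-- `Λ` is a functional of degree `N` whose radical is `K`. -/
structure PD (N : ℕ) (K : Ideal (MvPolynomial I ℂ)) (Λ : MvPolynomial I ℂ →ₗ[ℂ] ℂ) : Prop where
  deg : ∀ p c, IsHomogeneous c p → p ≠ N → Λ c = 0
  rad : ∀ c, c ∈ K ↔ ∀ b, Λ (c * b) = 0

namespace PD

variable {N : ℕ} {K : Ideal (MvPolynomial I ℂ)} {Λ : MvPolynomial I ℂ →ₗ[ℂ] ℂ} (h : PD N K Λ)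
include h

theorem zero {c : MvPolynomial I ℂ} (hc : c ∈ K) : Λ c = 0 := by
  simpa using (h.rad c).1 hc 1

theorem comp {c : MvPolynomial I ℂ} {p q : ℕ} (hc : c.IsHomogeneous p) (e : p + q = N)
    (b : MvPolynomial I ℂ) : Λ (c * b) = Λ (c * homogeneousComponent q b) := by
  have h0 : ∀ j, j ≠ q → Λ (c * homogeneousComponent j b) = 0 := fun j hj =>
    h.deg _ _ (hc.mul (homogeneousComponent_isHomogeneous j b)) (by omega)
  conv_lhs => rw [← sum_homogeneousComponent b, Finset.mul_sum, map_sum]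
  refine Finset.sum_eq_single q (fun j _ => h0 j) fun hq => ?_
  rw [homogeneousComponent_eq_zero _ _ (by simpa [Nat.succ_le_iff] using hq), mul_zero, map_zero]

theorem dual {c : MvPolynomial I ℂ} {p : ℕ} (hc : c.IsHomogeneous p) (hK : c ∉ K) :
    ∃ q b, p + q = N ∧ IsHomogeneous b q ∧ Λ (c * b) ≠ 0 := by
  obtain ⟨b, hb⟩ := not_forall.1 fun h1 => hK ((h.rad c).2 h1)
  rw [← sum_homogeneousComponent b, Finset.mul_sum, map_sum] at hb
  obtain ⟨q, -, hq⟩ := Finset.exists_ne_zero_of_sum_ne_zero hb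
  exact ⟨q, _, by_contra fun e => hq (h.deg _ _
    (hc.mul (homogeneousComponent_isHomogeneous q b)) e), homogeneousComponent_isHomogeneous q b, hq⟩

theorem top {c : MvPolynomial I ℂ} (hc : c.IsHomogeneous N) (h0 : Λ c = 0) : c ∈ K := by
  by_contra hK
  obtain ⟨q, b, e, hb, h1⟩ := h.dual hc hK
  obtain rfl : q = 0 := by omega
  rw [totalDegree_eq_zero_iff_eq_C.1 ((totalDegree_zero_iff_isHomogeneous _).2 hb), mul_comm,
    ← smul_eq_C_mul, map_smul, h0, smul_zero] at h1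
  exact h1 rfl

theorem high {c : MvPolynomial I ℂ} {p : ℕ} (hc : c.IsHomogeneous p) (hp : N < p) : c ∈ K := by
  by_contra hK
  obtain ⟨q, b, e, -⟩ := h.dual hc hK
  omega

theorem sep [Finite I] {r : ℕ} (free : ∀ c, IsHomogeneous c r → c ∈ K → c = 0)
    {J : Ideal (MvPolynomial I ℂ)} (hJ : ∀ j ∈ J, homogeneousComponent r j ∈ J)
    {ψ : MvPolynomial I ℂ} (hψ : ψ.IsHomogeneous r) (hn : ψ ∉ J) :
    ∃ q c, q + r = N ∧ IsHomogeneous c q ∧ Λ (c * ψ) ≠ 0 ∧ ∀ j ∈ J, Λ (c * j) = 0 := by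
  let V := homogeneousSubmodule I ℂ r
  have : Module.Finite ℂ V := Module.Finite.iff_fg.2 (homogeneousSubmodule_fg I ℂ r)
  let T : MvPolynomial I ℂ →ₗ[ℂ] Module.Dual ℂ V :=
    ((LinearMap.mul ℂ _).compr₂ Λ).compl₂ V.subtype
  have hT : LinearMap.range T = ⊤ := by
    rw [← Subspace.dualCoannihilator_dualAnnihilator_eq (W := LinearMap.range T),
      Submodule.dualAnnihilator_eq_top_iff, eq_bot_iff]
    intro u hu
    refine Subtype.ext (free u u.2 ((h.rad _).2 fun b => ?_))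
    rw [mul_comm]
    exact (Submodule.mem_dualCoannihilator _).1 hu _ ⟨b, rfl⟩
  obtain ⟨μ, h1, h2⟩ := ((J.restrictScalars ℂ).comap V.subtype).exists_dual_map_eq_bot_of_notMem
    (x := ⟨ψ, hψ⟩) hn inferInstance
  obtain ⟨b, rfl⟩ := LinearMap.range_eq_top.1 hT μ
  change Λ (b * ψ) ≠ 0 at h1
  obtain ⟨q, -, e, -⟩ := h.dual hψ fun hK => h1 (mul_comm ψ b ▸ (h.rad _).1 hK b)
  have hb := homogeneousComponent_isHomogeneous q b
  refine ⟨q, _, by omega, hb, ?_, fun j hj => ?_⟩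
  · rwa [mul_comm, ← h.comp hψ e, mul_comm]
  · have hj' := homogeneousComponent_isHomogeneous r j
    rw [h.comp hb (q := r) (by omega), mul_comm, ← h.comp hj' e, mul_comm]
    exact (Submodule.eq_bot_iff _).1 h2 _ ⟨⟨_, hj'⟩, hJ j hj, rfl⟩

/-- A class orthogonal to the multiples of `e` vanishes on the zero locus of `e`. -/
theorem sub {N' d q : ℕ} {K' : Ideal (MvPolynomial I ℂ)} {Λ' : MvPolynomial I ℂ →ₗ[ℂ] ℂ}
    (h' : PD N' K' Λ') (hd : N' + d = N) {e c : MvPolynomial I ℂ} (he : e.IsHomogeneous d)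
    (heK : e ∉ K) (hK : ∀ a ∈ K', a * e ∈ K) (hc : c.IsHomogeneous q)
    (h0 : ∀ t, Λ (c * (t * e)) = 0) : c ∈ K' := by
  by_contra hn
  obtain ⟨q', t, e1, ht, h1⟩ := h'.dual hc hn
  obtain ⟨q₀, t₀, e2, ht₀, h2⟩ := h.dual he heK
  obtain rfl : q₀ = N' := by omega
  have h3 : t₀ - (Λ' t₀ / Λ' (c * t)) • (c * t) ∈ K' :=
    h'.top ((homogeneousSubmodule I ℂ q₀).sub_mem ht₀
      ((homogeneousSubmodule I ℂ q₀).smul_mem _ (e1 ▸ hc.mul ht)))
      (by rw [map_sub, map_smul, smul_eq_mul, div_mul_cancel₀ _ h1, sub_self])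
  have h4 := h.zero (hK _ h3)
  rw [sub_mul, smul_mul_assoc, map_sub, map_smul, mul_assoc, h0, smul_zero, sub_zero,
    mul_comm] at h4
  exact h2 h4

/-- The top line is spanned by `Δ` times an invariant class. -/
theorem exists_top {δ : ℕ} {Δ : MvPolynomial I ℂ} (hΔ : Δ.IsHomogeneous δ) (hK : K ≠ ⊤)
    {Inv : MvPolynomial I ℂ → Prop}
    (sp : ∀ c : MvPolynomial I ℂ, c ∈ K.restrictScalars ℂ ⊔ Submodule.span ℂ
      {x | ∃ k j ψ t, j ≤ δ ∧ Inv ψ ∧ IsHomogeneous ψ k ∧ IsHomogeneous t j ∧ x = ψ * t})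
    (can : ∀ k ψ, Inv ψ → IsHomogeneous ψ k → Δ * ψ ∈ K → ψ ∈ K) :
    ∃ k ψ, Inv ψ ∧ IsHomogeneous ψ k ∧ δ + k = N ∧ Λ (Δ * ψ) ≠ 0 := by
  by_contra hn
  refine hK ((Ideal.eq_top_iff_one K).2 ((h.rad 1).2 fun b => ?_))
  refine (sup_le (fun x hx => h.zero hx) (Submodule.span_le.2 ?_) : _ ≤ LinearMap.ker Λ) (sp _)
  rintro _ ⟨k, j, ψ, t, hj, h1, h2, h3, rfl⟩
  by_contra h4
  have e : k + j = N := by_contra fun e => h4 (h.deg _ _ (h2.mul h3) e)
  have h5 : Δ * ψ ∉ K := fun h5 => h4 ((h.rad _).1 (can k ψ h1 h2 h5) t)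
  obtain ⟨q, -, e', -⟩ := h.dual (hΔ.mul h2) h5
  exact hn ⟨k, ψ, h1, h2, by omega, fun h6 => h5 (h.top (by
    rw [show N = δ + k by omega]
    exact hΔ.mul h2) h6)⟩

/-- A permutation acts on the top line as on `Δ`. -/
theorem sign {w : I ≃ I} (hw : ∀ c ∈ K, rename w c ∈ K) {t : MvPolynomial I ℂ} {s : ℂ}
    (ht : t.IsHomogeneous N) (h0 : Λ t ≠ 0) (hs : rename w t = s • t) (c : MvPolynomial I ℂ) :
    Λ (rename w c) = s * Λ c := by
  have h1 : ∀ p c, IsHomogeneous c p → Λ (rename w c) = s * Λ c := fun p c hc => by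
    by_cases e : p = N
    · subst e
      have h2 := h.zero (hw _ (h.top (c := c - (Λ c / Λ t) • t)
        ((homogeneousSubmodule I ℂ p).sub_mem hc ((homogeneousSubmodule I ℂ p).smul_mem _ ht))
        (by rw [map_sub, map_smul, smul_eq_mul, div_mul_cancel₀ _ h0, sub_self])))
      rw [map_sub, map_smul, hs, map_sub, map_smul, map_smul, smul_eq_mul, smul_eq_mul,
        mul_left_comm, div_mul_cancel₀ _ h0] at h2
      exact sub_eq_zero.1 h2
    · rw [h.deg _ _ hc e, h.deg _ _ hc.rename_isHomogeneous e, mul_zero]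
  rw [← sum_homogeneousComponent c, map_sum, map_sum, map_sum, Finset.mul_sum]
  exact Finset.sum_congr rfl fun p _ => h1 p _ (homogeneousComponent_isHomogeneous p c)

end PD

attribute [local instance] MvPolynomial.gradedAlgebra in
theorem span_comp {s : Set (MvPolynomial I ℂ)} (hs : ∀ e ∈ s, ∃ d, IsHomogeneous e d) (r : ℕ)
    {j : MvPolynomial I ℂ} (hj : j ∈ Ideal.span s) : homogeneousComponent r j ∈ Ideal.span s :=
  homogeneousComponent_mem_of_mem (Ideal.homogeneous_span _ s hs) hj r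

/-- The algebraic part of the kernel theorem. -/
theorem ker_alg [Finite I] {N n p δ : ℕ} {K : Ideal (MvPolynomial I ℂ)}
    {Λ : MvPolynomial I ℂ →ₗ[ℂ] ℂ} (h : PD N K Λ)
    (free : ∀ r ≤ n, ∀ c, IsHomogeneous c r → c ∈ K → c = 0) (W : Subgroup (Equiv.Perm I))
    (hK : ∀ w ∈ W, ∀ c ∈ K, rename w c ∈ K) {Δ φ : MvPolynomial I ℂ} (hΔ : Δ.IsHomogeneous δ)
    (sΔ : ∀ w ∈ W, ∃ s : ℂ, s ≠ 0 ∧ rename w Δ = s • Δ) (hφ : φ.IsHomogeneous p)
    (iφ : ∀ w ∈ W, rename w φ = φ) (hn : δ + p ≤ n)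
    (sp : ∀ c : MvPolynomial I ℂ, c ∈ K.restrictScalars ℂ ⊔ Submodule.span ℂ
      {x | ∃ k j ψ t, j ≤ δ ∧ (∀ w ∈ W, rename w ψ = ψ) ∧ IsHomogeneous ψ k ∧ IsHomogeneous t j ∧
        x = ψ * t})
    (can : ∀ k ψ, (∀ w ∈ W, rename w ψ = ψ) → IsHomogeneous ψ k → Δ * ψ ∈ K → ψ ∈ K)
    {J : Ideal (MvPolynomial I ℂ)} (hJ : ∀ r, ∀ j ∈ J, homogeneousComponent r j ∈ J)
    (sJ : ∀ w ∈ W, ∀ j ∈ J, rename w j ∈ J) {κ : Type} {KF : κ → Ideal (MvPolynomial I ℂ)}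
    (hF : ∀ F, KF F = ⊤ ∨ ∃ N' d Λ' e, PD N' (KF F) Λ' ∧ N' + d = N ∧ d ≤ n ∧
      IsHomogeneous e d ∧ e ≠ 0 ∧ e ∈ J ∧ ∀ a ∈ KF F, a * e ∈ K)
    (geo : ∀ q c, q + (δ + p) = N → IsHomogeneous c q → (∀ w ∈ W, rename w c = c) →
      (∀ F, c ∈ KF F) → c * (Δ * φ) ∈ K) : Δ * φ ∈ J := by
  classical
  by_contra hm
  obtain ⟨q, c, e, hc, h1, h2⟩ := h.sep (free _ hn) (hJ _) (hΔ.mul hφ) hm
  obtain ⟨k, ψ, p1, p2, p3, p4⟩ := h.exists_top hΔ (fun e => h1 (h.zero (e ▸ Submodule.mem_top)))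
    sp can
  have hs : ∀ w : W, ∃ s : ℂ, s ≠ 0 ∧ rename w.1 Δ = s • Δ ∧ ∀ c, Λ (rename w.1 c) = s * Λ c :=
    fun w => by
      obtain ⟨s, s1, s2⟩ := sΔ w w.2
      exact ⟨s, s1, s2, h.sign (hK w w.2) (p3 ▸ hΔ.mul p2) p4
        (by rw [map_mul, s2, p1 w w.2, smul_mul_assoc])⟩
  have : Fintype W := Fintype.ofFinite W
  have h3 : ∀ j ∈ J, Λ ((∑ w : W, rename w.1 c) * j) = 0 := fun j hj => by
    rw [Finset.sum_mul, map_sum]
    refine Finset.sum_eq_zero fun w _ => ?_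
    obtain ⟨s, -, -, s3⟩ := hs w
    have := s3 (c * rename (w⁻¹).1 j)
    rw [h2 _ (sJ _ (w⁻¹).2 j hj), mul_zero, map_mul, rename_rename] at this
    simpa using this
  have h4 : IsHomogeneous (∑ w : W, rename w.1 c) q :=
    IsHomogeneous.sum _ _ _ fun w _ => hc.rename_isHomogeneous
  have h5 := h.zero (geo q _ e h4 (fun w hw => by
    rw [map_sum]
    exact Fintype.sum_equiv (Equiv.mulLeft ⟨w, hw⟩) _ _ fun v => by
      rw [rename_rename]
      rfl) fun F => by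
    rcases hF F with hF | ⟨N', d, Λ', e', a1, a2, a3, a4, a5, a6, a7⟩
    · exact hF ▸ Submodule.mem_top
    · exact h.sub a1 a2 a4 (fun hh => a5 (free d a3 _ a4 hh)) a7 h4
        fun t => h3 _ (J.mul_mem_left t a6))
  have h6 : ∀ w : W, Λ (rename w.1 c * (Δ * φ)) = Λ (c * (Δ * φ)) := fun w => by
    obtain ⟨s, s1, s2, s3⟩ := hs w
    have := s3 (c * (Δ * φ))
    rw [map_mul (rename w.1), map_mul (rename w.1), s2, iφ w w.2, smul_mul_assoc, mul_smul_comm,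
      map_smul] at this
    exact mul_left_cancel₀ s1 this
  rw [Finset.sum_mul, map_sum] at h5
  simp only [h6, Finset.sum_const, nsmul_eq_mul] at h5
  exact mul_ne_zero (Nat.cast_ne_zero.2 Fintype.card_ne_zero) h1 h5

end Pool.Agent.CS
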