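import Pool.Agent.K.MP_d34769_ag.C98
import Pool.Agent.K.MP_d34769_ag.C102
import Pool.Agent.K.MP_d34769_ag.C93

/-! The kernel theorem. -/

open MvPolynomial Function Matrix

noncomputable section
namespace Pool.Agent.CS

variable {I : Type} [Fintype I] [DecidableEq I] {D : Dat I} {o : I → ℕ}

omit [Fintype I] [DecidableEq I] in
theorem PD.le {N N' : ℕ} {K : Ideal (MvPolynomial I ℂ)} {Λ Λ' : MvPolynomial I ℂ →ₗ[ℂ] ℂ}
    (h : PD N K Λ) (h' : PD N' K Λ') (hK : K ≠ ⊤) : N ≤ N' := by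
  obtain ⟨q, b, e, hb, h1⟩ := h.dual (isHomogeneous_one I ℂ) ((Ideal.ne_top_iff_one K).1 hK)
  exact le_of_not_gt fun c => h1 (h.zero (K.mul_mem_left _ (h'.high hb (by omega))))

namespace Dat

/-- A top class that is a product of a class that vanishes on the unstable locus and a relation
of the stable locus vanishes. -/
theorem geo (hD : D.Hat) {c φ : MvPolynomial I ℂ}
    (hB : IsClosed {x : D.zero.XS | ¬ D.SS D.th (D.zero.sec x).1})
    (hc : HR.res {x : D.zero.XS | ¬ D.SS D.th (D.zero.sec x).1} (evH (D := D.zero) hD c) = 0)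
    (hφ : evH hD φ = 0)
    (hi : ∀ a p, 0 < p → IsHomogeneous a p → evH (D := D.zero) hD (c * φ * a) = 0) :
    evH (D := D.zero) hD (c * φ) = 0 := by
  cases isEmpty_or_nonempty D.XS with
  | inl he =>
    rw [map_mul]
    refine (supp hB hc fun K _ hK => ?_).2
    have : IsEmpty K := ⟨fun x => Set.disjoint_left.1 hK x.2 fun s =>
      have a := sec_st x.1.2
      he.false (pt (D := D) _ ⟨a.mem, s, fun U b c e => absurd (a.gen U b c e) (by simp [zero])⟩)⟩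
    exact HR.subsingleton.elim _ _
  | inr he =>
  have hp := sec_st he.some.2
  obtain ⟨E, Γ, h, a1, a2, h1, h2, h3, h4⟩ := exists_cor (X := D.zero.XS) (M := D.zero.Mu) hD hp
    (tb (D := D.zero) hD) (t := 0) (fun _ _ => ss_zero _)
    (S := fun x p A B => ∃ hp, pt (D := D.zero) p hp = x ∧ D.zero.Xp p = A ∧ D.zero.Xi p = B)
    (fun x => (exists_pt x).imp fun _ h => ⟨_, _, h.imp fun _ e => ⟨e, rfl, rfl⟩⟩) (by
      rintro _ p _ _ ⟨hp, rfl, rfl, rfl⟩
      have a := tb_at (D := D.zero) hD hp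
      exact ⟨⟨a.1, a.2, a.3⟩, hp.mem, fun _ hσ _ => hom0 (D := D.zero) hp.gen hσ⟩)
  refine diag_top (ev := evH (D := D.zero) hD) h1 h2 (fun _ s u v l => slant s u v l) (D.eD_hom _)
    (eD_ne hD hp) hi (h3 _ ?_)
  have : CompactSpace Γ := isCompact_iff_compactSpace.1 a1.isCompact
  have c1 : Continuous fun y : Γ => y.1.1 := continuous_fst.comp continuous_subtype_val
  rw [map_mul, map_mul, map_mul]
  refine (supp (hB.preimage c1) ?_ fun K _ hK => ?_).2
  · rw [HR.pull_pull, HR.pull_pull]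
    have := congrArg (HR.pull ⟨Set.MapsTo.restrict (fun y : Γ => y.1.1) _ _
      (Set.mapsTo_preimage _ _), c1.restrict _⟩) hc
    rwa [map_zero, HR.pull_pull] at this
  · have := congrArg (HR.pull (⟨fun y => y.1.1.2, by fun_prop⟩ : C(K, D.XS))) hφ
    rw [map_zero, evH, pull_evL] at this
    rw [HR.pull_pull, HR.pull_pull, ← this]
    refine (pull_evL _ _ _).trans ?_
    rw [evL, evL]
    congr 2
    funext i
    refine (Bun.x_iso _ _ (a2.comp (continuous_subtype_val.comp continuous_subtype_val)) ?_).symm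
    rintro ⟨⟨⟨x, y⟩, hy⟩, hk⟩
    obtain ⟨q, hq, rfl⟩ := exists_pt y
    have a := sec_st x.2
    obtain ⟨k, b1, b2, b3, b4⟩ := h4 x _ _ _ q hq ⟨a, pt_sec x, rfl, rfl⟩ hy
    have b5 := line_ne (D := D) (ell_frm (D := D.zero) hD a) (ell_frm hD hq) hD b1 (inv_mem_Lie b1)
      (mul_nonsing_inv _ (hom1 hq.gen (not_not.1 (Set.disjoint_left.1 hK hk)) (D.Lie_le b1) b3 b4))
      (i := i) (by simpa using ((ell (D := D.zero) hD i).op _).tr)
      (by simpa using ((ell hD i).op _).tr)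
    rwa [← b2, pt_sec] at b5

theorem Bs.symm (hD : D.Bs) {i j : I} (h : D.gp i j) : D.gp j i :=
  ⟨h.1.symm, hD _ _ (D.cp_eq.2 (gp_cc h).2)⟩

theorem Bs.card_ap (hD : D.Bs) (F : Finset I) :
    Nat.card {x : Fin 3 × I × I // D.ap x.1 x.2.1 x.2.2} =
      Nat.card {x : Fin 3 × I × I // (D.cf {F} (chn_one F)).ap x.1 x.2.1 x.2.2} + D.eN F := by
  classical
  have h : D.eN F = ∑ a, ∑ i, ∑ j, if j ∈ F ∧ i ∉ F ∧ D.ap a i j then 1 else 0 :=
    Finset.sum_congr rfl fun a _ => by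
      rw [Finset.sum_comm, ← Fintype.sum_ite_mem F]
      refine Finset.sum_congr rfl fun j _ => ?_
      rw [Finset.card_filter, ← Fintype.sum_ite_mem Fᶜ]
      split_ifs with c <;> simp [c, ite_and]
  simp only [Nat.card_eq_fintype_card, Fintype.card_subtype, h, Finset.card_filter,
    Fintype.sum_prod_type, ← Finset.sum_add_distrib]
  refine Finset.sum_congr rfl fun a _ => Finset.sum_congr rfl fun i _ =>
    Finset.sum_congr rfl fun j _ => ?_
  have e : (D.cf {F} (chn_one F)).ap a i j ↔ D.ap a i j ∧ (j ∈ F → i ∈ F) :=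
    ⟨fun c => ⟨⟨c.1, c.2.1, D.gl_rl (hD _ _ c.2.2.1)⟩, c.2.2.2 F (by simp)⟩, fun c =>
      ⟨c.1.1, c.1.2.1, D.rl_cp c.1.2.2, fun _ e => Finset.mem_singleton.1 e ▸ c.2⟩⟩
  by_cases c1 : D.ap a i j <;> by_cases c2 : j ∈ F <;> by_cases c3 : i ∈ F <;> simp [e, c1, c2, c3]

/-- The locus where `F` spans a subrepresentation is the zero locus of the Euler class. -/
theorem sub_pd (hD : D.Bs) (F : Finset I) {N : ℕ} {Λ : MvPolynomial I ℂ →ₗ[ℂ] ℂ}
    (h : PD N D.Kr Λ) (hK : D.Kr ≠ ⊤) : (D.cf {F} (chn_one F)).Kr = ⊤ ∨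
    ∃ N' Λ', PD N' (D.cf {F} (chn_one F)).Kr Λ' ∧ N' + D.eN F = N ∧
      ∀ a ∈ (D.cf {F} (chn_one F)).Kr, a * D.eT F ∈ D.Kr := by
  classical
  obtain ⟨o, ho, hF⟩ := D.exists_hat_first F fun i k a _ _ => hD.symm a
  have g1 : ∀ i j, (D.hat o).gp i j → ((D.cf {F} (chn_one F)).hat o).gp i j := fun i j a =>
    ⟨a.1, ⟨(gp_cc a).2, fun _ e => Finset.mem_singleton.1 e ▸ hF i j a⟩,
      fun b => a.2.2 (hD _ _ b.1)⟩
  have g2 : ∀ i j, ((D.cf {F} (chn_one F)).hat o).gp i j → (D.hat o).gp i j := fun i j a =>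
    ⟨a.1, hD _ _ a.2.1.1, fun b => le_of_not_gt fun c =>
      c.not_ge (a.2.2 (g1 j i ⟨a.1.symm, b, fun _ => c.le⟩).2.1)⟩
  let k : Mor ((D.cf {F} (chn_one F)).hat o) (D.hat o) :=
    ⟨Equiv.refl I, fun _ => Function.Embedding.refl _, fun _ => rfl, rfl, g2,
      fun _ _ e => D.gl_rl (hD _ _ e.1), fun _ _ e => e, fun _ _ _ => rfl,
      fun _ _ e e' => absurd e' e⟩
  have k1 : ∀ p, k.F p = p := hD.mor_F (chn_one F)
  have k2 : ∀ p, ((D.cf {F} (chn_one F)).hat o).St p → (D.hat o).St p := fun p a =>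
    ⟨hD.mem_R ((D.cf {F} (chn_one F)).R_le a.mem), a.ss, a.gen⟩
  have k3 : ∀ p hp, k.mc (pt p hp) = pt (D := D.hat o) p (k2 p hp) := fun p hp => by
    rw [k.mc_pt hp ((k1 p).symm ▸ k2 p hp)]
    exact Subtype.ext (congrArg (D.hat o).pt0 (k1 p))
  rcases pd_or ((D.cf {F} (chn_one F)).hat_Hat ho) with e | ⟨p, hp, Λ', e⟩
  · exact .inl ((ker_evO ho).symm.trans e)
  obtain ⟨Λ₀, e₀⟩ := (pd (D.hat_Hat ho) (k2 p hp)).2
  rw [ker_evO ho] at e e₀
  refine .inr ⟨_, Λ', e, ?_, fun a ha => ?_⟩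
  · have d1 := dim_add hp
    have d2 := dim_add (k2 p hp)
    rw [Nat.card_congr (Equiv.subtypeEquivRight fun x : I × I => ⟨g2 x.1 x.2, g1 x.1 x.2⟩)] at d1
    have d3 := hD.card_ap F
    rw [h.le e₀ hK |>.antisymm (e₀.le h hK)]
    change _ = Nat.card {x : Fin 3 × I × I // D.ap x.1 x.2.1 x.2.2} + Fintype.card I * D.m at d2
    change _ = Nat.card {x : Fin 3 × I × I // (D.cf {F} (chn_one F)).ap x.1 x.2.1 x.2.2} +
      Fintype.card I * D.m at d1
    omega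
  · rw [mem_Kr ho, map_mul]
    refine (supp (isCompact_range k.mc.continuous).isClosed
      ((pull_eq_zero_iff k.mc (fun x y e => ?_) _).1 ?_) fun K b1 b2 => ?_).2
    · obtain ⟨p, hp, rfl⟩ := exists_pt x
      obtain ⟨q, hq, rfl⟩ := exists_pt y
      obtain ⟨g, hg, e⟩ := (pt_eq_iff (k2 p hp) (k2 q hq)).1
        ((k3 p hp).symm.trans (e.trans (k3 q hq)))
      exact (pt_eq_iff hp hq).2 ⟨g, ⟨fun i j c => hg.1 i j fun b => c (g1 i j b), hg.2⟩, e⟩
    · rw [k.xmor ((D.cf {F} (chn_one F)).hat_Hat ho)]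
      simpa [k] using (mem_Kr ho).1 ha
    · have : CompactSpace K := isCompact_iff_compactSpace.1 b1.isCompact
      refine pull_eT (D := D.hat o) _ hF _ fun y p hp e c => Set.disjoint_left.1 b2 y.2 ?_
      have a : ((D.cf {F} (chn_one F)).hat o).St p := ⟨(mem_R_cf (h := chn_one F)).2
        ⟨D.R_le hp.mem, fun _ e => Finset.mem_singleton.1 e ▸ c⟩, hp.ss, hp.gen⟩
      exact ⟨pt p a, (k3 p a).trans e.symm⟩

/-- KER -/
theorem ker_J (hD : D.Bs) {n p : ℕ} (hm : Fintype.card I + n ≤ D.m)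
    (hn : p + 4 * Fintype.card I ^ 2 ≤ n) (ho : Injective o) {φ : MvPolynomial I ℂ} (hi : D.Inv φ)
    (hp : φ.IsHomogeneous p) (h : φ ∈ D.Kr) : D.dis o * φ ∈ D.J := by
  have hK : D.zero.Kr ≠ ⊤ := fun e => one_ne_zero
    (Kr_free hD hm n.zero_le (isHomogeneous_one I ℂ) (e ▸ Submodule.mem_top))
  obtain ⟨-, -, Λ, h1⟩ := (pd_or (D.zero.hat_Hat ho)).resolve_left fun e =>
    hK ((ker_evO ho).symm.trans e)
  rw [ker_evO ho] at h1
  have h2 := D.del_le o
  refine ker_alg h1 (fun r hr c => Kr_free hD hm hr) D.W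
    (fun w hw c => Kr_rename (D := D.zero) hw) (D.dis_hom o)
    (fun w hw => (D.dis_rename (fun _ _ _ e => ho e) hw).imp fun s a =>
      ⟨left_ne_zero_of_mul_eq_one a.1, a.2⟩) hp hi (by omega) (D.zero.Kr_sp ho)
    (fun _ _ a _ => Kr_can (D := D.zero) ho a)
    (fun r j => span_comp (by rintro _ ⟨F, -, rfl⟩; exact ⟨_, D.eT_hom F⟩) r)
    (fun w hw j => D.J_rename hw) (κ := {F // 0 < D.tw D.th F})
    (KF := fun F => (D.zero.cf {F.1} (chn_one _)).Kr) (fun F => ?_) fun q c e a1 a2 a3 => ?_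
  · have h3 := D.eN_le F.1
    exact (sub_pd (D := D.zero) hD F.1 h1 hK).imp_right fun ⟨N', Λ', b1, b2, b3⟩ =>
      ⟨N', _, Λ', _, b1, b2, le_trans h3 (by omega), D.eT_hom _, D.eT_ne _,
        Ideal.subset_span ⟨_, F.2, rfl⟩, b3⟩
  · exact (mem_Kr ho).2 (geo (D := D.hat o) (D.hat_Hat ho) (hn_closed hD o)
      (hn_res hD ho a2 a1 fun F b => a3 ⟨F, b⟩) ((mem_Kr ho).1 (D.Kr.mul_mem_left _ h))
      fun a r b1 b2 => (mem_Kr (D := D.zero) ho).1
        (h1.high ((a1.mul ((D.dis_hom o).mul hp)).mul b2) (by omega)))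

end Dat

end Pool.Agent.CS
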