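import Pool.Agent.K.MP_d34769_ag.C85
import Pool.Agent.P.MP_d34769_ag.HDef

/-! The data of lists of words and the tautological relations. -/

open MvPolynomial Function Pool.Agent.P.MP_d34769_ag

noncomputable section
namespace Pool.Agent.CS

variable {I : Type} [Fintype I] [DecidableEq I]

omit [Fintype I] [DecidableEq I] in
theorem Ord.anti {l : List (Finset I)} (hl : l.Pairwise Disjoint) {i j : I} (h : Ord l i j)
    (h' : Ord l j i) : ∃ b ∈ l, i ∈ b ∧ j ∈ b := by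
  induction l with
  | nil => simpa using h.mem.1
  | cons c l ih =>
    rw [List.pairwise_cons] at hl
    rw [ord_cons] at h h'
    rcases h with h | h <;> rcases h' with h' | h'
    · exact ⟨c, by simp, h.1, h'.1⟩
    · obtain ⟨b, hb, hj⟩ := h'.mem.2
      exact absurd hj (Finset.disjoint_left.1 (hl.1 b hb) h.1)
    · obtain ⟨b, hb, hj⟩ := h.mem.2
      exact absurd hj (Finset.disjoint_left.1 (hl.1 b hb) h'.1)
    · obtain ⟨b, hb, e⟩ := ih hl.2 h h'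
      exact ⟨b, by simp [hb], e⟩

omit [DecidableEq I] in
theorem Part.uniq {l : List (Finset I)} (h : Part l) {a b : Finset I} (ha : a ∈ l) (hb : b ∈ l)
    {i : I} (hi : i ∈ a) (hj : i ∈ b) : a = b :=
  by_contra fun e => Finset.disjoint_left.1 (h.pw.forall ha hb e) hi hj

omit [DecidableEq I] in
theorem Part.prod {M : Type} [CommMonoid M] {l : List (Finset I)} (h : Part l) (g : I → M) :
    ∏ k, g k = (l.map fun b => ∏ k ∈ b, g k).prod := by
  rw [Finset.prod, ← h.2]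
  clear h
  induction l with
  | nil => simp
  | cons c l ih => simp [ih]

theorem Dat.eT_eq_eul (D : Dat I) {F' F b : Finset I} (h : F ⊆ F') (h' : ∀ l ∈ b \ F, l ∉ F')
    (e : ∀ k ∈ F', ∀ l ∉ F', D.rl l k ↔ k ∈ F ∧ l ∈ b) : D.eT F' = eul D.col b F := by
  classical
  have h1 : ∀ (k l : I) (x : MvPolynomial I ℂ), (∏ a, if D.ap a l k then x else 1) =
      if D.rl l k then x ^ (if D.col l = 1 then ![2, 0, 1] (D.col k) else 0) else 1 := by
    intro k l x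
    simp only [Dat.ap, Fin.prod_univ_three, src]
    have h3 : ∀ c : Fin 3, c = 0 ∨ c = 1 ∨ c = 2 := by decide
    by_cases h1 : D.rl l k <;> by_cases h2 : D.col l = 1 <;> rcases h3 (D.col k) with c | c | c <;>
      simp [h1, h2, c, pow_two]
  simp only [Dat.eT, Finset.prod_filter]
  rw [Finset.prod_comm, eul, ← Finset.prod_subset h fun k hk hF => ?_]
  · refine Finset.prod_congr rfl fun k hk => ?_
    rw [Finset.prod_comm, ← Finset.prod_subset (s₁ := b \ F) (fun l hl => by simpa using h' l hl)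
      fun l hl hb => ?_]
    · exact Finset.prod_congr rfl fun l hl => by
        rw [h1, if_pos ((e k (h hk) l (h' l hl)).2 ⟨hk, (Finset.mem_sdiff.1 hl).1⟩)]
    · have hl := Finset.mem_compl.1 hl
      rw [h1, if_neg fun r => hb (Finset.mem_sdiff.2 ⟨((e k (h hk) l hl).1 r).2, fun c => hl (h c)⟩)]
  · rw [Finset.prod_comm]
    exact Finset.prod_eq_one fun l hl => by
      rw [h1, if_neg fun r => hF ((e k hk l (Finset.mem_compl.1 hl)).1 r).1]

open Classical in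
theorem Dat.exists_class (D : Dat I) {t : Fin 3 → ℤ} {F : Finset I} (h : 0 < D.tw t F) :
    ∃ i, 0 < D.tw t (F.filter (D.cp i)) ∧ D.eT (F.filter (D.cp i)) ∣ D.eT F := by
  let s : Setoid I := ⟨D.cp, D.cp_eq⟩
  rw [Dat.tw, ← Finset.sum_fiberwise F (Quotient.mk s)] at h
  obtain ⟨q, -, hq⟩ := Finset.exists_lt_of_sum_lt (f := fun _ => (0 : ℤ)) (Finset.sum_const_zero.trans_lt h)
  obtain ⟨i, rfl⟩ := q.exists_rep
  refine ⟨i, ?_, Finset.prod_dvd_prod_of_dvd _ _ fun a _ => (Finset.prod_dvd_prod_of_dvd _ _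
    fun k hk => Finset.prod_dvd_prod_of_subset _ _ _ fun l hl => ?_).trans
    (Finset.prod_dvd_prod_of_subset _ _ _ (Finset.filter_subset _ _))⟩
  · rwa [Finset.filter_congr (q := D.cp i) fun j _ => Quotient.eq.trans ⟨D.cp_eq.2, D.cp_eq.2⟩] at hq
  · simp only [Finset.mem_filter, Finset.mem_compl] at hk hl ⊢
    exact ⟨fun c => hl.1 ⟨c, D.cp_eq.3 hk.2 (D.cp_eq.2 (D.rl_cp hl.2.2.2))⟩, hl.2⟩

/-- the direct sum of the components -/
theorem Dat.exists_sum {D D' : Dat I} (hm : Fintype.card I * D.m ≤ D'.m) (hc : D'.col = D.col)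
    (ht : D'.th = D.th) (hp : ∀ i j, D.cp i j → D'.cp i j) (hg : ∀ i j, D.gp i j → D'.gp i j)
    (hr : ∀ i j, D.rl i j → D'.rl i j) : ∃ k : Dat.Mor D D', k.w = Equiv.refl I := by
  let s : Setoid I := ⟨D.cp, D.cp_eq⟩
  let β : I → Fin (Fintype.card I) := fun i => Fintype.equivFin I (Quotient.mk s i).out
  have hβ : ∀ i j, β i = β j ↔ D.cp i j := fun i j =>
    (Fintype.equivFin I).injective.eq_iff.trans (Quotient.out_inj.trans Quotient.eq)
  refine ⟨⟨Equiv.refl I, fun i => ⟨fun r => Fin.castLE hm (finProdFinEquiv (β i, r)), fun r r' e =>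
    (Prod.ext_iff.1 (finProdFinEquiv.injective (Fin.castLE_injective hm e))).2⟩, congrFun hc, ht, hg,
    hr, hp, fun i j e => by simp only [(hβ i j).2 e], fun i j e _ r r' k => e ((hβ i j).1 ?_)⟩, rfl⟩
  exact (Prod.ext_iff.1 (finProdFinEquiv.injective (Fin.castLE_injective hm k))).1

variable {col : I → Fin 3} {th : Fin 3 → ℤ} {L : List (List (Finset I))} (h : Adm col th L) (m : ℕ)

theorem mdat_blk {i j : I} :
    (mdat m h).rl i j ∧ (mdat m h).rl j i ↔ ∃ b ∈ L.flatten, i ∈ b ∧ j ∈ b := by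
  constructor
  · rintro ⟨⟨u, hu, a⟩, v, hv, b⟩
    obtain rfl := h.part.word hu hv a.mem.2 b.mem.1
    obtain ⟨c, hc, e⟩ := a.anti ((List.pairwise_flatten.1 h.part.pw).1 u hu) b
    exact ⟨c, List.mem_flatten.2 ⟨u, hu, hc⟩, e⟩
  · rintro ⟨b, hb, hi, hj⟩
    obtain ⟨u, hu, hb⟩ := List.mem_flatten.1 hb
    exact ⟨⟨u, hu, b, b, hi, hj, Or.inl ⟨rfl, hb⟩⟩, u, hu, b, b, hj, hi, Or.inl ⟨rfl, hb⟩⟩

theorem mdat_cl {i j : I} :
    (mdat m h).cl i j ↔ col i = col j ∧ ∃ b ∈ L.flatten, i ∈ b ∧ j ∈ b := by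
  rw [← mdat_blk h m]
  exact ⟨fun e => ⟨e.1.1, e.1.2, e.2.2⟩, fun e => ⟨⟨e.1, e.2.1⟩, e.1.symm, e.2.2⟩⟩

theorem mdat_dis (o : I → ℕ) : (mdat m h).dis o = (L.flatten.map (dis col o)).prod := by
  rw [Dat.dis, h.part.prod]
  refine congrArg _ (List.map_congr_left fun b hb => Finset.prod_congr rfl fun k hk =>
    Finset.prod_congr (Finset.ext fun l => ?_) fun _ _ => rfl)
  simp only [Finset.mem_filter, Finset.mem_univ, true_and, mdat_cl]
  exact ⟨fun ⟨⟨e, c, hc, h1, h2⟩, e'⟩ => ⟨h.part.uniq hc hb h1 hk ▸ h2, e, e'⟩,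
    fun e => ⟨⟨e.2.1, b, hb, hk, e.1⟩, e.2.2⟩⟩

theorem mdat_eul {b F : Finset I} (hb : b ∈ L.flatten) (hF : F ⊆ b) :
    ∃ F', (mdat m h).tw th F' = ∑ j ∈ F, th (col j) ∧ (mdat m h).eT F' = eul col b F ∧
      ∀ i k, (mdat m h).gp i k → k ∈ F' → i ∉ F' → (mdat m h).gp k i := by
  classical
  obtain ⟨z, hz⟩ := h.part.1 b hb
  let A := Finset.univ.filter fun i => (mdat m h).rl i z ∧ i ∉ b
  have hA : ∀ i, i ∈ A ↔ (mdat m h).rl i z ∧ i ∉ b := by simp [A]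
  have e : ∀ {i j}, i ∈ b → j ∈ b → (mdat m h).rl i j := fun hi hj =>
    ((mdat_blk h m).2 ⟨b, hb, hi, hj⟩).1
  have dn : ∀ {i k}, (mdat m h).rl i k → k ∈ A → i ∈ A := fun {i k} r hk => by
    rw [hA] at hk ⊢
    refine ⟨(mdat m h).rl_trans r hk.1, fun hi => hk.2 ?_⟩
    obtain ⟨c, hc, h1, h2⟩ := (mdat_blk h m).1 ⟨hk.1, (mdat m h).rl_trans (e hz hi) r⟩
    exact h.part.uniq hc hb h2 hz ▸ h1
  have key : ∀ k ∈ A ∪ F, ∀ l ∉ A ∪ F, (mdat m h).rl l k ↔ k ∈ F ∧ l ∈ b := fun k hk l hl => by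
    rw [Finset.mem_union] at hk hl
    refine ⟨fun r => ?_, fun r => e r.2 (hF r.1)⟩
    have hk := hk.resolve_left fun c => hl (Or.inl (dn r c))
    exact ⟨hk, by_contra fun c => hl (Or.inl ((hA l).2 ⟨(mdat m h).rl_trans r (e (hF hk) hz), c⟩))⟩
  refine ⟨A ∪ F, ?_, (mdat m h).eT_eq_eul Finset.subset_union_right (fun l hl c => ?_) key,
    fun i k g hk hi => ⟨g.1.symm, ?_⟩⟩
  · rw [Dat.tw, Finset.sum_union (Finset.disjoint_left.2 fun i hi c => ((hA i).1 hi).2 (hF c)),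
      sum_union_zero (fun j => th ((mdat m h).col j)) (u := L.flatten.filter (· ⊆ A)) (h.part.pw.filter _)
        (fun c hc => h.bal c (List.mem_of_mem_filter hc)) A fun j => ⟨fun hj => ?_, ?_⟩, zero_add]
    · rfl
    · obtain ⟨c, hc, hj'⟩ := h.part.mem j
      exact ⟨c, List.mem_filter.2 ⟨hc, decide_eq_true fun i hi =>
        dn ((mdat_blk h m).2 ⟨c, hc, hi, hj'⟩).1 hj⟩, hj'⟩
    · rintro ⟨c, hc, hj⟩
      exact of_decide_eq_true (List.mem_filter.1 hc).2 hj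
  · rw [Finset.mem_sdiff] at hl
    exact (Finset.mem_union.1 c).elim (fun c => ((hA l).1 c).2 hl.1) hl.2
  · have := (key k hk i hi).1 g.2
    exact e (hF this.1) this.2

omit [Fintype I] [DecidableEq I] in
theorem flatten_sgl (l : List (Finset I)) : (l.map fun b => [b]).flatten = l := by
  induction l with
  | nil => rfl
  | cons c l ih => simp [ih]

omit [DecidableEq I] in
include h in
/-- every letter as a word -/
theorem Adm.sgl : Adm col th (L.flatten.map fun b => [b]) :=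
  ⟨by rw [flatten_sgl]; exact h.part, fun u hu => by obtain ⟨b, -, rfl⟩ := List.mem_map.1 hu; simp,
    by rw [flatten_sgl]; exact h.bal⟩

theorem sgl_cp {i j : I} : (mdat m h.sgl).cp i j ↔ ∃ b ∈ L.flatten, i ∈ b ∧ j ∈ b := by
  constructor
  · rintro ⟨u, hu, a, ha, b, hb, hi, hj⟩
    obtain ⟨c, hc, rfl⟩ := List.mem_map.1 hu
    rw [List.mem_singleton] at ha hb
    exact ⟨c, hc, ha ▸ hi, hb ▸ hj⟩
  · rintro ⟨b, hb, hi, hj⟩
    exact ⟨[b], List.mem_map_of_mem hb, b, by simp, b, by simp, hi, hj⟩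

theorem sgl_Bs : (mdat m h.sgl).Bs := fun _ _ e =>
  ((mdat_blk h.sgl m).2 (by rw [flatten_sgl]; exact (sgl_cp h m).1 e)).1

theorem sgl_mor {m m' : ℕ} (hm : Fintype.card I * m' ≤ m) :
    ∃ k : Dat.Mor (mdat m' h.sgl) (mdat m h), k.w = Equiv.refl I := by
  have e : ∀ i j, (mdat m' h.sgl).rl i j → (mdat m h).rl i j := fun i j r =>
    ((mdat_blk h m).2 ((sgl_cp h m').1 ((mdat m' h.sgl).rl_cp r))).1
  exact Dat.exists_sum hm rfl rfl (fun i j c => (mdat m h).rl_cp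
    ((mdat_blk h m).2 ((sgl_cp h m').1 c)).1) (fun i j g => ⟨g.1, e i j g.2⟩) e

theorem sgl_J {θ : (Fin 3 → ℕ) → ℝ}
    (hθ : ∀ F : Finset I, 0 < θ (dvec col F) ↔ 0 < ∑ j ∈ F, th (col j)) : (mdat m h.sgl).J ≤
    Ideal.span {e | ∃ b ∈ L.flatten, ∃ F ⊆ b, 0 < θ (dvec col F) ∧ e = eul col b F} := by
  classical
  refine Ideal.span_le.2 ?_
  rintro _ ⟨F, hF, rfl⟩
  obtain ⟨i, h1, h2⟩ := Dat.exists_class _ hF
  obtain ⟨b, hb, hi⟩ := h.part.mem i
  have e : ∀ {k l}, k ∈ b → ((mdat m h.sgl).cp k l ↔ l ∈ b) := fun hk => (sgl_cp h m).trans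
    ⟨fun ⟨c, hc, h1, h2⟩ => h.part.uniq hc hb h1 hk ▸ h2, fun hl => ⟨b, hb, hk, hl⟩⟩
  have s : F.filter ((mdat m h.sgl).cp i) ⊆ b := fun k hk => (e hi).1 (Finset.mem_filter.1 hk).2
  refine Ideal.mem_of_dvd _ h2 (Ideal.subset_span ⟨b, hb, _, s, (hθ _).2 h1,
    Dat.eT_eq_eul _ le_rfl (fun l hl => (Finset.mem_sdiff.1 hl).2) fun k hk l _ => ?_⟩)
  exact ⟨fun r => ⟨hk, (e (s hk)).1 ((mdat m h.sgl).cp_eq.2 ((mdat m h.sgl).rl_cp r))⟩,
    fun r => (mdat m h.sgl).gl_rl (sgl_Bs h m _ _ ((e r.2).2 (s hk)))⟩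

end Pool.Agent.CS
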