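import Mathlib

/-! Abstract mixed Hodge structures: strictness, good maps, Tate structures. -/

noncomputable section
namespace Pool.Agent.CS

section rank
variable {H H' : Type} [AddCommGroup H] [Module ℂ H] [AddCommGroup H'] [Module ℂ H']

/-- the subquotient `A / (A ⊓ B)`, as a submodule of `H / B` -/
abbrev Sq (A B : Submodule ℂ H) : Submodule ℂ (H ⧸ B) := A.map B.mkQ

/-- the map from `A` onto the subquotient -/
def Sq.mk (A B : Submodule ℂ H) : A →ₗ[ℂ] Sq A B :=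
  (B.mkQ ∘ₗ A.subtype).codRestrict _ fun x => ⟨x.1, x.2, rfl⟩

theorem Sq.mk_surj (A B : Submodule ℂ H) : Function.Surjective (Sq.mk A B) := by
  rintro ⟨_, x, hx, rfl⟩
  exact ⟨⟨x, hx⟩, rfl⟩

theorem Sq.mk_eq_zero {A B : Submodule ℂ H} {x : A} : Sq.mk A B x = 0 ↔ x.1 ∈ B := by
  rw [Subtype.ext_iff]
  exact Submodule.Quotient.mk_eq_zero _

/-- the map of subquotients induced by a linear map on `A` -/
theorem Sq.exists_map {A B : Submodule ℂ H} {A' B' : Submodule ℂ H'} (g : A →ₗ[ℂ] Sq A' B')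
    (h : ∀ x : A, x.1 ∈ B → g x = 0) :
    ∃ φ : Sq A B →ₗ[ℂ] Sq A' B', ∀ x, φ (Sq.mk A B x) = g x := by
  refine ⟨(LinearMap.ker (Sq.mk A B)).liftQ g (fun x hx => h x (Sq.mk_eq_zero.1 hx)) ∘ₗ
    ((Sq.mk A B).quotKerEquivOfSurjective (Sq.mk_surj A B)).symm.toLinearMap, fun x => ?_⟩
  have : ((Sq.mk A B).quotKerEquivOfSurjective (Sq.mk_surj A B)).symm (Sq.mk A B x) =
      Submodule.Quotient.mk x := by
    rw [LinearEquiv.symm_apply_eq]
    rfl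
  simp [this]

theorem Sq.exists_inj {A B : Submodule ℂ H} {A' B' : Submodule ℂ H'} (g : H →ₗ[ℂ] H')
    (h1 : ∀ x ∈ A, g x ∈ A') (h2 : ∀ x ∈ A, g x ∈ B' ↔ x ∈ B) :
    ∃ φ : Sq A B →ₗ[ℂ] Sq A' B', Function.Injective φ ∧
      ∀ x : A, φ (Sq.mk A B x) = Sq.mk A' B' ⟨g x.1, h1 _ x.2⟩ := by
  obtain ⟨φ, hφ⟩ := Sq.exists_map (B := B) (Sq.mk A' B' ∘ₗ g.restrict h1)
    fun x hx => Sq.mk_eq_zero.2 ((h2 _ x.2).2 hx)
  refine ⟨φ, (injective_iff_map_eq_zero _).2 fun a ha => ?_, hφ⟩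
  obtain ⟨x, rfl⟩ := Sq.mk_surj A B a
  rw [hφ] at ha
  exact Sq.mk_eq_zero.2 ((h2 _ x.2).1 (Sq.mk_eq_zero.1 ha))

theorem Sq.equiv {A B : Submodule ℂ H} {A' B' : Submodule ℂ H'} (g : H →ₗ[ℂ] H')
    (h1 : ∀ x ∈ A, g x ∈ A') (h2 : ∀ x ∈ A, g x ∈ B' ↔ x ∈ B)
    (h3 : ∀ y ∈ A', ∃ x ∈ A, y - g x ∈ B') : Nonempty (Sq A B ≃ₗ[ℂ] Sq A' B') := by
  obtain ⟨φ, hi, hφ⟩ := Sq.exists_inj g h1 h2
  refine ⟨LinearEquiv.ofBijective φ ⟨hi, fun b => ?_⟩⟩
  obtain ⟨y, rfl⟩ := Sq.mk_surj A' B' b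
  obtain ⟨x, hx, e⟩ := h3 y.1 y.2
  refine ⟨Sq.mk A B ⟨x, hx⟩, ?_⟩
  rw [hφ, eq_comm, ← sub_eq_zero, ← map_sub]
  exact Sq.mk_eq_zero.2 e

theorem Sq.rank_eq {A B : Submodule ℂ H} {A' B' : Submodule ℂ H'} (g : H →ₗ[ℂ] H')
    (h1 : ∀ x ∈ A, g x ∈ A') (h2 : ∀ x ∈ A, g x ∈ B' ↔ x ∈ B)
    (h3 : ∀ y ∈ A', ∃ x ∈ A, y - g x ∈ B') : Module.rank ℂ (Sq A B) = Module.rank ℂ (Sq A' B') :=
  (Sq.equiv g h1 h2 h3).elim fun e => e.rank_eq

theorem Sq.eq_bot {A B : Submodule ℂ H} (h : A ≤ B) : Sq A B = ⊥ := by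
  rw [eq_bot_iff]
  rintro _ ⟨x, hx, rfl⟩
  exact (Submodule.Quotient.mk_eq_zero _).2 (h hx)

theorem Sq.finrank_add (A B : Submodule ℂ H) [Module.Finite ℂ A] :
    Module.finrank ℂ (Sq A B) + Module.finrank ℂ (A ⊓ B : Submodule ℂ H) = Module.finrank ℂ A := by
  have h := (Sq.mk A B).finrank_range_add_finrank_ker
  rw [LinearMap.range_eq_top.2 (Sq.mk_surj A B), finrank_top] at h
  rw [← h]
  congr 1
  have e : LinearMap.ker (Sq.mk A B) = (A ⊓ B).submoduleOf A := by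
    ext x
    rw [LinearMap.mem_ker, Sq.mk_eq_zero]
    exact ⟨fun h => ⟨x.2, h⟩, fun h => h.2⟩
  rw [e]
  exact (Submodule.submoduleOfEquivOfLe inf_le_left).finrank_eq.symm

/-- the dimension of a filtered space is the sum of the dimensions of the graded pieces -/
theorem finrank_eq_sum_gr (K : Submodule ℂ H) [Module.Finite ℂ K] (W : ℕ → Submodule ℂ H)
    (hW : Antitone W) (h0 : K ≤ W 0) (n : ℕ) (hn : K ⊓ W n = ⊥) :
    Module.finrank ℂ K =
      ∑ c ∈ Finset.range n, Module.finrank ℂ (Sq (K ⊓ W c) (W (c + 1))) := by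
  have key : ∀ m, Module.finrank ℂ K = ∑ c ∈ Finset.range m,
      Module.finrank ℂ (Sq (K ⊓ W c) (W (c + 1))) +
        Module.finrank ℂ (K ⊓ W m : Submodule ℂ H) := by
    intro m
    induction m with
    | zero => rw [inf_eq_left.2 h0]; simp
    | succ m ih =>
      have : Module.Finite ℂ (K ⊓ W m : Submodule ℂ H) := Submodule.finiteDimensional_inf_left _ _
      have h := Sq.finrank_add (K ⊓ W m) (W (m + 1))
      rw [inf_assoc, inf_eq_right.2 (hW (Nat.le_succ m))] at h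
      rw [Finset.sum_range_succ, ih, ← h, add_assoc]
  rw [key n, hn, finrank_bot, add_zero]

end rank

/-- A mixed Hodge structure on `H`: `W c / W (c + 1)` is pure of weight `j - c`. -/
structure MHS (H : Type) [AddCommGroup H] [Module ℂ H] (j : ℕ) where
  W : ℕ → Submodule ℂ H
  F : ℕ → Submodule ℂ H
  Fb : ℕ → Submodule ℂ H
  aW : Antitone W
  aF : Antitone F
  aFb : Antitone Fb
  W0 : W 0 = ⊤
  Wj : W (j + 1) = ⊥
  F0 : F 0 = ⊤
  Fb0 : Fb 0 = ⊤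
  span : ∀ c b b', c + b + b' ≤ j + 1 → W c ≤ W c ⊓ F b ⊔ W c ⊓ Fb b' ⊔ W (c + 1)
  disj : ∀ c b b', j + 1 ≤ c + b + b' → ∀ x ∈ W c ⊓ F b, ∀ x' ∈ W c ⊓ Fb b',
    x - x' ∈ W (c + 1) → x ∈ W (c + 1)

namespace MHS
variable {H H' H'' : Type} [AddCommGroup H] [Module ℂ H] [AddCommGroup H'] [Module ℂ H']
  [AddCommGroup H''] [Module ℂ H''] {j : ℕ} (M : MHS H j) (M' : MHS H' j) (M'' : MHS H'' j)

/-- morphisms -/
structure Mor (f : H →ₗ[ℂ] H') : Prop where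
  W : ∀ c, ∀ x ∈ M.W c, f x ∈ M'.W c
  F : ∀ b, ∀ x ∈ M.F b, f x ∈ M'.F b
  Fb : ∀ b, ∀ x ∈ M.Fb b, f x ∈ M'.Fb b

/-- good maps -/
structure Good (f : H →ₗ[ℂ] H') : Prop where
  W : ∀ c x, x ∈ M.W c ↔ f x ∈ M'.W c
  F : ∀ c b, ∀ x ∈ M.W c ⊓ M.F b, f x ∈ M'.W c ⊓ M'.F b ⊔ M'.W (c + 1)
  Fb : ∀ c b, ∀ x ∈ M.W c ⊓ M.Fb b, f x ∈ M'.W c ⊓ M'.Fb b ⊔ M'.W (c + 1)

/-- only classes of type (a, a) -/
def Tate : Prop := ∀ c b, j < c + 2 * b →
  M.W c ⊓ M.F b ≤ M.W (c + 1) ∧ M.W c ⊓ M.Fb b ≤ M.W (c + 1)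

/-- the Hodge numbers -/
def hod (c a : ℕ) : Cardinal :=
  Module.rank ℂ (Sq (M.W c ⊓ M.F a) (M.W c ⊓ M.F (a + 1) ⊔ M.W (c + 1) ⊓ M.F a))

/-- exchange of the two Hodge filtrations -/
def swap : MHS H j where
  W := M.W
  F := M.Fb
  Fb := M.F
  aW := M.aW
  aF := M.aFb
  aFb := M.aF
  W0 := M.W0
  Wj := M.Wj
  F0 := M.Fb0
  Fb0 := M.F0
  span c b b' h := (M.span c b' b (by omega)).trans_eq (by rw [sup_comm (M.W c ⊓ M.F b')])
  disj c b b' h x hx x' hx' e := by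
    have h1 := M.disj c b' b (by omega) x' hx' x hx (by simpa using neg_mem e)
    simpa using add_mem e h1

/-- transport along an isomorphism -/
def map (e : H ≃ₗ[ℂ] H') : MHS H' j where
  W c := (M.W c).comap e.symm.toLinearMap
  F c := (M.F c).comap e.symm.toLinearMap
  Fb c := (M.Fb c).comap e.symm.toLinearMap
  aW _ _ h := Submodule.comap_mono (M.aW h)
  aF _ _ h := Submodule.comap_mono (M.aF h)
  aFb _ _ h := Submodule.comap_mono (M.aFb h)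
  W0 := by rw [M.W0, Submodule.comap_top]
  Wj := by rw [M.Wj, Submodule.comap_bot, LinearEquiv.ker]
  F0 := by rw [M.F0, Submodule.comap_top]
  Fb0 := by rw [M.Fb0, Submodule.comap_top]
  span c b b' h x hx := by
    obtain ⟨_, h1, w, hw, e1⟩ := Submodule.mem_sup.1 (M.span c b b' h hx)
    obtain ⟨u, hu, v, hv, rfl⟩ := Submodule.mem_sup.1 h1
    have : x = e u + e v + e w := by
      rw [← map_add, ← map_add, e1]
      simp
    rw [this]
    exact add_mem (Submodule.mem_sup_left (add_mem (Submodule.mem_sup_left (by simpa using hu))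
      (Submodule.mem_sup_right (by simpa using hv)))) (Submodule.mem_sup_right (by simpa using hw))
  disj c b b' h x hx x' hx' h1 := M.disj c b b' h _ hx _ hx' (by simpa using h1)

variable {M M' M''} {f : H →ₗ[ℂ] H'} {g : H' →ₗ[ℂ] H''} {c : ℕ} {x : H}

theorem mem_map_W {e : H ≃ₗ[ℂ] H'} {y : H'} : y ∈ (M.map e).W c ↔ e.symm y ∈ M.W c := Iff.rfl
theorem mem_map_F {e : H ≃ₗ[ℂ] H'} {y : H'} : y ∈ (M.map e).F c ↔ e.symm y ∈ M.F c := Iff.rfl
theorem mem_map_Fb {e : H ≃ₗ[ℂ] H'} {y : H'} : y ∈ (M.map e).Fb c ↔ e.symm y ∈ M.Fb c := Iff.rfl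

theorem Mor.id (M : MHS H j) : M.Mor M LinearMap.id := ⟨fun _ _ h => h, fun _ _ h => h, fun _ _ h => h⟩

theorem Mor.comp (h' : M'.Mor M'' g) (h : M.Mor M' f) : M.Mor M'' (g ∘ₗ f) :=
  ⟨fun c x hx => h'.W c _ (h.W c x hx), fun c x hx => h'.F c _ (h.F c x hx),
    fun c x hx => h'.Fb c _ (h.Fb c x hx)⟩

theorem Mor.swap (h : M.Mor M' f) : M.swap.Mor M'.swap f := ⟨h.W, h.Fb, h.F⟩

theorem mor_map (M : MHS H j) (e : H ≃ₗ[ℂ] H') : M.Mor (M.map e) e.toLinearMap :=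
  ⟨fun _ _ h => by simpa [mem_map_W] using h, fun _ _ h => by simpa [mem_map_F] using h,
    fun _ _ h => by simpa [mem_map_Fb] using h⟩

theorem map_mor (M : MHS H j) (e : H ≃ₗ[ℂ] H') : (M.map e).Mor M e.symm.toLinearMap :=
  ⟨fun _ _ h => h, fun _ _ h => h, fun _ _ h => h⟩

theorem eq_zero (hc : j < c) (hx : x ∈ M.W c) : x = 0 := by
  have := M.aW hc hx
  rwa [M.Wj] at this

theorem span' {b b' : ℕ} (h : b' ≤ j + 1 - (c + b)) (hx : x ∈ M.W c) :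
    ∃ u ∈ M.W c ⊓ M.F b, ∃ v ∈ M.W c ⊓ M.Fb b', x - u - v ∈ M.W (c + 1) := by
  rcases Nat.eq_zero_or_pos b' with rfl | hb
  · exact ⟨0, zero_mem _, x, ⟨hx, by rw [M.Fb0]; trivial⟩, by simp⟩
  obtain ⟨_, h1, w, hw, e1⟩ := Submodule.mem_sup.1 (M.span c b b' (by omega) hx)
  obtain ⟨u, hu, v, hv, rfl⟩ := Submodule.mem_sup.1 h1
  exact ⟨u, hu, v, hv, by rw [← e1]; simpa [add_sub_assoc, sub_sub] using hw⟩

variable (M) in
/-- the tail of Deligne's sum -/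
def R (c q r : ℕ) : Submodule ℂ H := ⨆ s ∈ {s | r ≤ s}, M.W (c + s) ⊓ M.Fb (q - (s - 1))

theorem mem_R {q r s : ℕ} (h : r ≤ s) (hx : x ∈ M.W (c + s) ⊓ M.Fb (q - (s - 1))) :
    x ∈ M.R c q r :=
  (le_iSup₂_of_le (f := fun s (_ : s ∈ {s | r ≤ s}) => M.W (c + s) ⊓ M.Fb (q - (s - 1))) s h
    le_rfl) hx

theorem R_le {q r : ℕ} : M.R c q r ≤ M.W (c + r) :=
  iSup₂_le fun _ hs => inf_le_left.trans (M.aW (Nat.add_le_add_left hs c))

theorem R_split {q r : ℕ} (hx : x ∈ M.R c q r) :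
    ∃ v ∈ M.W (c + r) ⊓ M.Fb (q - (r - 1)), x - v ∈ M.R c q (r + 1) := by
  have : M.R c q r ≤ M.W (c + r) ⊓ M.Fb (q - (r - 1)) ⊔ M.R c q (r + 1) :=
    iSup₂_le fun s hs y hy => by
      rcases (show r ≤ s from hs).eq_or_lt with rfl | h
      · exact Submodule.mem_sup_left hy
      · exact Submodule.mem_sup_right (mem_R h hy)
  obtain ⟨v, hv, u, hu, rfl⟩ := Submodule.mem_sup.1 (this hx)
  exact ⟨v, hv, by simpa using hu⟩

theorem Mor.R (h : M.Mor M' f) {q r : ℕ} (hx : x ∈ M.R c q r) : f x ∈ M'.R c q r :=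
  (iSup₂_le (a := (M'.R c q r).comap f) fun _ hs y hy =>
    mem_R hs ⟨h.W _ y hy.1, h.Fb _ y hy.2⟩) hx

theorem I_zero {p q : ℕ} (hj : c + p + q = j) (hF : x ∈ M.F p) (hR : x ∈ M.R c q 0)
    (hW : x ∈ M.W (c + 1)) : x = 0 := by
  have key : ∀ r, x ∈ M.W (c + (r + 1)) ∧ x ∈ M.R c q (r + 1) := by
    intro r
    induction r with
    | zero =>
      obtain ⟨v, hv, h⟩ := R_split hR
      have h1 : v ∈ M.W (c + 1) := by simpa using sub_mem hW (R_le h)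
      exact ⟨hW, by simpa using add_mem h (mem_R (s := 1) le_rfl ⟨h1, hv.2⟩)⟩
    | succ r ih =>
      obtain ⟨v, hv, h⟩ := R_split ih.2
      have h0 : x ∈ M.W (c + (r + 1 + 1)) :=
        M.disj (c + (r + 1)) p _ (by omega) x ⟨ih.1, hF⟩ v hv (R_le h :)
      have h1 : v ∈ M.W (c + (r + 1 + 1)) := by simpa using sub_mem h0 (R_le h)
      exact ⟨h0, by
        simpa using add_mem h (mem_R (s := r + 1 + 1) le_rfl ⟨h1, M.aFb (by omega) hv.2⟩)⟩
  exact eq_zero (by omega) (key j).1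

theorem exists_I {p q : ℕ} (hj : c + p + q = j) {y y' : H} (hy : y ∈ M.F p)
    (hy' : y' ∈ M.W c ⊓ M.Fb q) (e : y - y' ∈ M.W (c + 1)) :
    ∃ z ∈ M.F p ⊓ M.R c q 0, y - z ∈ M.W (c + 1) := by
  have key : ∀ r, ∃ z ∈ M.F p, y - z ∈ M.W (c + 1) ∧
      ∃ t ∈ M.R c q 0, z - t ∈ M.W (c + (r + 1)) := by
    intro r
    induction r with
    | zero => exact ⟨y, hy, by simp, y', mem_R (s := 0) le_rfl hy', e⟩
    | succ r ih =>
      obtain ⟨z, hz, h1, t, ht, h2⟩ := ih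
      obtain ⟨u, hu, v, hv, h3⟩ := span' (b := p) (b' := q - (r + 1 - 1)) (by omega) h2
      refine ⟨z - u, sub_mem hz hu.2, ?_, t + v,
        add_mem ht (mem_R (s := r + 1) (Nat.zero_le _) hv), ?_⟩
      · have := add_mem h1 (M.aW (show c + 1 ≤ c + (r + 1) by omega) hu.1)
        rwa [show y - z + u = y - (z - u) by abel] at this
      · rwa [show z - u - (t + v) = z - t - u - v by abel]
  obtain ⟨z, hz, h1, t, ht, h2⟩ := key j
  obtain rfl := sub_eq_zero.1 (eq_zero (by omega) h2)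
  exact ⟨z, ⟨hz, ht⟩, h1⟩

/-- morphisms are strict for `W` -/
theorem Mor.strict (h : M.Mor M' f) (hx : x ∈ M.W c) (hf : f x ∈ M'.W (c + 1)) :
    x ∈ M.W (c + 1) ⊔ LinearMap.ker f := by
  have key : ∀ k p, c + p + k = j + 1 → ∀ x ∈ M.W c ⊓ M.F p, f x ∈ M'.W (c + 1) →
      x ∈ M.W (c + 1) ⊔ LinearMap.ker f := by
    intro k
    induction k with
    | zero =>
      exact fun p hp x hx _ => Submodule.mem_sup_left
        (M.disj c p 0 (by omega) x hx x ⟨hx.1, by rw [M.Fb0]; trivial⟩ (by simp))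
    | succ q ih =>
      intro p hp x hx hf
      obtain ⟨a, ha, a', ha', hw⟩ := span' (b := p + 1) (b' := q) (by omega) hx.1
      have h1 : f a ∈ M'.W (c + 1) := by
        refine M'.disj c (p + 1) q (by omega) _ ⟨h.W _ _ ha.1, h.F _ _ ha.2⟩ (-f a')
          (neg_mem ⟨h.W _ _ ha'.1, h.Fb _ _ ha'.2⟩) ?_
        have := sub_mem hf (h.W _ _ hw)
        rwa [map_sub, map_sub, show f x - (f x - f a - f a') = f a - -f a' by abel] at this
      obtain ⟨z, hz, h2⟩ := exists_I (by omega) (sub_mem hx.2 (M.aF (Nat.le_succ p) ha.2)) ha' hw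
      have h3 : f z = 0 := by
        refine I_zero (c := c) (p := p) (q := q) (by omega) (h.F _ _ hz.1) (h.R hz.2) ?_
        have := sub_mem (sub_mem hf h1) (h.W _ _ h2)
        rwa [map_sub, map_sub, sub_sub_cancel] at this
      have := add_mem (add_mem (Submodule.mem_sup_left h2) (Submodule.mem_sup_right h3))
        (ih (p + 1) (by omega) a ha h1)
      simpa using this
  by_cases hc : j < c
  · rw [eq_zero hc hx]
    exact zero_mem _
  exact key (j + 1 - c) 0 (by omega) x ⟨hx, by rw [M.F0]; trivial⟩ hf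

theorem Mor.W_iff (h : M.Mor M' f) (hi : Function.Injective f) (c : ℕ) (x : H) :
    x ∈ M.W c ↔ f x ∈ M'.W c := by
  refine ⟨h.W c x, fun hf => ?_⟩
  induction c with
  | zero => rw [M.W0]; trivial
  | succ c ih =>
    have := h.strict (ih (M'.aW (Nat.le_succ c) hf)) hf
    rwa [LinearMap.ker_eq_bot.2 hi, sup_bot_eq] at this

/-- an injective morphism is good -/
theorem Mor.good (h : M.Mor M' f) (hi : Function.Injective f) : M.Good M' f :=
  ⟨h.W_iff hi, fun _ _ x hx => Submodule.mem_sup_left ⟨h.W _ x hx.1, h.F _ x hx.2⟩,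
    fun _ _ x hx => Submodule.mem_sup_left ⟨h.W _ x hx.1, h.Fb _ x hx.2⟩⟩

theorem Mor.inv_F (h : M.Mor M' f) (hi : Function.Injective f) {b : ℕ}
    (hx : f x ∈ M'.W c ⊓ M'.F b) : x ∈ M.W c ⊓ M.F b ⊔ M.W (c + 1) := by
  obtain ⟨a, ha, a', ha', hw⟩ := span' (b := b) le_rfl ((h.W_iff hi c x).2 hx.1)
  have h1 : f (x - a) ∈ M'.W (c + 1) := by
    refine M'.disj c b (j + 1 - (c + b)) (by omega) _ ?_ (f a') ⟨h.W _ _ ha'.1, h.Fb _ _ ha'.2⟩
      (by rw [← map_sub]; exact h.W _ _ hw)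
    rw [map_sub]
    exact sub_mem hx ⟨h.W _ _ ha.1, h.F _ _ ha.2⟩
  simpa using add_mem (Submodule.mem_sup_right ((h.W_iff hi _ _).2 h1)) (Submodule.mem_sup_left ha)

/-- the inverse of a bijective morphism is good -/
theorem Mor.good_inv (h : M.Mor M' f) (hi : Function.Injective f) {g : H' →ₗ[ℂ] H}
    (hg : ∀ y, f (g y) = y) : M'.Good M g :=
  ⟨fun c y => by rw [h.W_iff hi, hg], fun _ _ y hy => h.inv_F hi (by rwa [hg]),
    fun _ _ y hy => h.swap.inv_F hi (by rwa [hg])⟩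

theorem Mor.good_symm (h : M.Mor M' f) (hb : Function.Bijective f) :
    M'.Good M (LinearEquiv.ofBijective f hb).symm.toLinearMap :=
  h.good_inv hb.1 (LinearEquiv.ofBijective f hb).apply_symm_apply

theorem Good.inj (h : M.Good M' f) : Function.Injective f :=
  (injective_iff_map_eq_zero _).2 fun x hx =>
    eq_zero (Nat.lt_succ_self j) ((h.W _ x).2 (by rw [hx]; exact zero_mem _))

theorem Good.comp (h' : M'.Good M'' g) (h : M.Good M' f) : M.Good M'' (g ∘ₗ f) := by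
  refine ⟨fun c x => (h.W c x).trans (h'.W c _), fun c b x hx => ?_, fun c b x hx => ?_⟩
  · obtain ⟨u, hu, w, hw, e⟩ := Submodule.mem_sup.1 (h.F c b x hx)
    rw [LinearMap.comp_apply, ← e, map_add]
    exact add_mem (h'.F c b u hu) (Submodule.mem_sup_right ((h'.W _ _).1 hw))
  · obtain ⟨u, hu, w, hw, e⟩ := Submodule.mem_sup.1 (h.Fb c b x hx)
    rw [LinearMap.comp_apply, ← e, map_add]
    exact add_mem (h'.Fb c b u hu) (Submodule.mem_sup_right ((h'.W _ _).1 hw))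

theorem Good.tate (h : M.Good M' f) (t : M'.Tate) : M.Tate := fun c b hb =>
  ⟨fun x hx => (h.W _ x).2 (sup_le (t c b hb).1 le_rfl (h.F c b x hx)),
    fun x hx => (h.W _ x).2 (sup_le (t c b hb).2 le_rfl (h.Fb c b x hx))⟩

theorem Good.gr (h : M.Good M' f) (c : ℕ) : Module.rank ℂ (Sq (M.W c) (M.W (c + 1))) =
    Module.rank ℂ (Sq (LinearMap.range f ⊓ M'.W c) (M'.W (c + 1))) :=
  Sq.rank_eq f (fun x hx => ⟨⟨x, rfl⟩, (h.W c x).1 hx⟩) (fun x _ => (h.W _ x).symm)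
    (by rintro _ ⟨⟨x, rfl⟩, hx⟩; exact ⟨x, (h.W c x).2 hx, by simp⟩)

theorem Tate.hod_zero (t : M.Tate) {a : ℕ} (h : j ≠ 2 * a + c) : M.hod c a = 0 := by
  rw [hod, Sq.eq_bot, rank_bot]
  intro x hx
  rcases h.lt_or_gt with h | h
  · exact Submodule.mem_sup_right ⟨(t c a (by omega)).1 hx, hx.2⟩
  · obtain ⟨u, hu, v, hv, hw⟩ := span' (b := a + 1) (b' := j - c - a) (by omega) hx.1
    have h1 : x - u ∈ M.W (c + 1) := by
      simpa using add_mem hw ((t c _ (by omega)).2 hv)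
    have := add_mem (Submodule.mem_sup_right (S := M.W c ⊓ M.F (a + 1))
      (show x - u ∈ M.W (c + 1) ⊓ M.F a from ⟨h1, sub_mem hx.2 (M.aF (Nat.le_succ a) hu.2)⟩))
      (Submodule.mem_sup_left hu)
    simpa using this

theorem Tate.span (t : M.Tate) {a : ℕ} (h : j = 2 * a + c) (hx : x ∈ M.W c) :
    ∃ u ∈ M.W c ⊓ M.F a, x - u ∈ M.W (c + 1) := by
  obtain ⟨u, hu, v, hv, hw⟩ := span' (b := a) (b' := a + 1) (by omega) hx
  exact ⟨u, hu, by simpa using add_mem hw ((t c _ (by omega)).2 hv)⟩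

theorem Tate.hod_eq (t : M.Tate) {a : ℕ} (h : j = 2 * a + c) :
    M.hod c a = Module.rank ℂ (Sq (M.W c) (M.W (c + 1))) :=
  Sq.rank_eq LinearMap.id (fun _ hx => hx.1)
    (fun _ hx => ⟨fun h => Submodule.mem_sup_right ⟨h, hx.2⟩,
      fun h' => sup_le (t c (a + 1) (by omega)).1 inf_le_left h'⟩)
    fun _ hy => t.span h hy

end MHS

end Pool.Agent.CS
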