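import Pool.Agent.K.MP_d34769_ag.C56

/-! Blocks, restriction along an embedding, morphisms of data and products. -/

open Matrix Classical

noncomputable section
namespace Pool.Agent.CS

variable {I I' I'' : Type} [Fintype I] [DecidableEq I] [Fintype I'] [DecidableEq I'] [Fintype I'']
  [DecidableEq I'']

/-- the block of a triple along `e` -/
def resR (e : I' → I) (ρ : Rp I) : Rp I' := fun a => (ρ a).submatrix e e

/-- extension by zero along `e` -/
def inc (e : I' → I) : Matrix I I' ℂ := fun i j => if i = e j then 1 else 0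

section ye2
variable {e : I' → I}

omit [Fintype I] [DecidableEq I'] in
lemma ye2_inc_out (u : I' → ℂ) {i : I} (hi : i ∉ Set.range e) : (inc e *ᵥ u) i = 0 := by
  simp only [mulVec, dotProduct, inc]
  refine Finset.sum_eq_zero fun j _ => ?_
  rw [if_neg fun h => hi ⟨j, h.symm⟩, zero_mul]

omit [Fintype I] [DecidableEq I'] in
lemma ye2_inc_in (he : Function.Injective e) (u : I' → ℂ) (j : I') : (inc e *ᵥ u) (e j) = u j := by
  simp only [mulVec, dotProduct, inc]
  rw [Finset.sum_eq_single j (fun k _ hk => by rw [if_neg fun h => hk (he h).symm, zero_mul])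
    (by simp), if_pos rfl, one_mul]

omit [Fintype I] [DecidableEq I'] in
lemma ye2_inc_eq (he : Function.Injective e) {u : I' → ℂ} {v : I → ℂ} (h1 : ∀ j, v (e j) = u j)
    (h2 : ∀ i, i ∉ Set.range e → v i = 0) : inc e *ᵥ u = v := by
  funext i
  by_cases hi : i ∈ Set.range e
  · obtain ⟨j, rfl⟩ := hi
    rw [ye2_inc_in he, h1]
  · rw [ye2_inc_out u hi, h2 i hi]

omit [Fintype I] [DecidableEq I'] in
lemma ye2_inc_inj (he : Function.Injective e) : Function.Injective (inc e).mulVecLin := by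
  intro u v h
  funext j
  have := congrFun h (e j)
  simpa only [mulVecLin_apply, ye2_inc_in he] using this

omit [Fintype I] [DecidableEq I'] in
lemma ye2_mem_map (he : Function.Injective e) {U : Submodule ℂ (I' → ℂ)} {u : I' → ℂ} :
    inc e *ᵥ u ∈ U.map (inc e).mulVecLin ↔ u ∈ U :=
  ⟨fun ⟨_, hw, h⟩ => ye2_inc_inj he (a₂ := u) h ▸ hw, fun h => ⟨u, h, rfl⟩⟩

omit [Fintype I] [DecidableEq I'] in
lemma ye2_map_top (he : Function.Injective e) :
    (⊤ : Submodule ℂ (I' → ℂ)).map (inc e).mulVecLin = sp (Set.range e) := by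
  ext v
  rw [mem_sp]
  constructor
  · rintro ⟨u, -, rfl⟩ i hi
    exact ye2_inc_out u hi
  · exact fun h => ⟨fun j => v (e j), trivial, ye2_inc_eq he (fun _ => rfl) h⟩

omit [Fintype I] [DecidableEq I'] in
lemma ye2_map_le (he : Function.Injective e) (U : Submodule ℂ (I' → ℂ)) :
    U.map (inc e).mulVecLin ≤ sp (Set.range e) :=
  ye2_map_top he ▸ Submodule.map_mono le_top

omit [Fintype I] [DecidableEq I'] in
lemma ye2_exists (he : Function.Injective e) {U : Submodule ℂ (I → ℂ)}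
    (hU : U ≤ sp (Set.range e)) : ∃ V : Submodule ℂ (I' → ℂ), V.map (inc e).mulVecLin = U :=
  ⟨U.comap (inc e).mulVecLin, Submodule.map_comap_eq_self (by
    rw [LinearMap.range_eq_map, ye2_map_top he]; exact hU)⟩

omit [DecidableEq I'] in
lemma ye2_comm (he : Function.Injective e) {ρ : Rp I}
    (hρ : ∀ a i j, i ∉ Set.range e → ρ a i (e j) = 0) (a : Fin 3) (u : I' → ℂ) :
    inc e *ᵥ (resR e ρ a *ᵥ u) = ρ a *ᵥ (inc e *ᵥ u) := by
  have key : ∀ i, (ρ a *ᵥ (inc e *ᵥ u)) i = ∑ j, ρ a i (e j) * u j := by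
    intro i
    rw [mulVec_mulVec]
    simp only [mulVec, dotProduct, mul_apply, inc, mul_ite, mul_one, mul_zero, Finset.sum_ite_eq',
      Finset.mem_univ, if_true]
  refine ye2_inc_eq he (fun j => ?_) fun i hi => ?_
  · rw [key]
    rfl
  · rw [key]
    exact Finset.sum_eq_zero fun j _ => by rw [hρ a i j hi, zero_mul]

lemma ye2_pr_comm {G : Set I} {h : Matrix I I ℂ} (hG : ∀ i j, ¬ (i ∈ G ↔ j ∈ G) → h i j = 0) :
    pr G * h = h * pr G := by
  ext i j
  rw [pr_mul_apply, mul_pr_apply]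
  by_cases hi : i ∈ G <;> by_cases hj : j ∈ G
  · rw [if_pos hi, if_pos hj]
  · rw [if_pos hi, if_neg hj, hG i j (by tauto)]
  · rw [if_neg hi, if_pos hj, hG i j (by tauto)]
  · rw [if_neg hi, if_neg hj]

omit [Fintype I] [DecidableEq I] in
lemma ye2_block {F : Set I} {V : Submodule ℂ (I → ℂ)} (hV : V ≤ sp F) (h : V ⊔ sp Fᶜ = ⊤) :
    sp F ≤ V := by
  intro x hx
  have hx' : x ∈ V ⊔ sp Fᶜ := h ▸ trivial
  obtain ⟨a, ha, b, hb, rfl⟩ := Submodule.mem_sup.1 hx'
  have h1 : b ∈ sp F ⊓ sp Fᶜ := ⟨by simpa using (sp F).sub_mem hx (hV ha), hb⟩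
  rw [← sp_inter, Set.inter_compl_self, sp_empty, Submodule.mem_bot] at h1
  rw [h1, add_zero]
  exact ha

lemma ye2_mem_sup {F : Set I} {V : Submodule ℂ (I → ℂ)} {v : I → ℂ} (h : pr F *ᵥ v ∈ V) :
    v ∈ V ⊔ sp Fᶜ := by
  have h1 : v = pr F *ᵥ v + pr Fᶜ *ᵥ v := by rw [← add_mulVec, pr_add_compl, one_mulVec]
  rw [h1]
  refine Submodule.add_mem_sup h ?_
  rw [← range_pr]
  exact ⟨v, rfl⟩

end ye2

namespace Dat
variable (D : Dat I)

/-- the part on `F` is semistable -/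
def SSOn (t : Fin 3 → ℤ) (ρ : Rp I) (F : Set I) : Prop :=
  ∀ U, D.Sub ρ U → U ≤ sp F → D.wt t U ≤ 0

/-- the part on `F` is stable -/
def StbOn (ρ : Rp I) (F : Set I) : Prop :=
  F.Nonempty ∧ ∀ U, D.Sub ρ U → U ≤ sp F → U ≠ ⊥ → U ≠ sp F → D.wt D.th U < 0

/-- `e` identifies `D'` with a part of `D` -/
structure Emb (D' : Dat I') (D : Dat I) (e : I' → I) : Prop where
  inj : Function.Injective e
  col : ∀ i, D.col (e i) = D'.col i
  cp : ∀ i j, D.cp (e i) (e j) ↔ D'.cp i j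

variable {D} {D' : Dat I'} {D'' : Dat I''} {t : Fin 3 → ℤ} {ρ : Rp I}

lemma ssOn_univ : D.SSOn t ρ Set.univ ↔ D.SS t ρ := by
  simp only [SSOn, SS, sp_univ, le_top, forall_true_left]

lemma stbOn_univ : D.StbOn ρ Set.univ ↔ D.Stb ρ := by
  simp only [StbOn, Stb, sp_univ, le_top, forall_true_left, Set.nonempty_iff_univ_nonempty]

lemma SS.on (h : D.SS t ρ) (F : Set I) : D.SSOn t ρ F := fun U hU _ => h U hU

lemma StbOn.ssOn {F : Set I} (h : D.StbOn ρ F) (h0 : D.wt D.th (sp F) = 0) :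
    D.SSOn D.th ρ F := by
  intro U hU hF
  by_cases h1 : U = ⊥
  · rw [h1, wt_bot]
  by_cases h2 : U = sp F
  · rw [h2, h0]
  exact (h.2 U hU hF h1 h2).le

/-- a block diagonal triple with semistable blocks is semistable -/
lemma ss_of_blocks {κ : Type} (s : I → κ) (hb : ∀ a i j, s i ≠ s j → ρ a i j = 0)
    (h : ∀ c, D.SSOn t ρ {i | s i = c}) : D.SS t ρ := by
  have key : ∀ T : Finset κ, D.SSOn t ρ {i | s i ∈ T} := by
    intro T
    induction T using Finset.induction_on with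
    | empty =>
      intro U _ hU
      have : U = ⊥ := by simpa using hU
      rw [this, wt_bot]
    | insert c T _ ih =>
      intro U hU hF
      have hc : ∀ a, pr {i | s i = c} * ρ a = ρ a * pr {i | s i = c} := fun a =>
        ye2_pr_comm fun i j hij => hb a i j fun k => hij (by simp only [Set.mem_ofPred_eq, k])
      have hL := D.base.pr_mem_Lie {i | s i = c}
      have h1 := wt_map (D := D) (D' := D) (t := t) (h := pr {i | s i = c})
        (fun i j hij => diagonal_apply_ne _ fun k => hij (by rw [k])) hU.cg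
      have h2 := ih _ (SubE.inf (sub_comap hL hc SubE.bot) hU) (by
        rintro v ⟨hv1, hv2⟩
        have h3 : v ∈ sp {i | s i = c}ᶜ := by rw [← ker_pr]; exact hv1
        have h4 := hF hv2
        rw [mem_sp] at h3 h4 ⊢
        intro i hi
        by_cases h5 : s i = c
        · exact h3 i (by simpa using h5)
        · exact h4 i (by simpa using ⟨h5, hi⟩))
      have h3 := h c _ (sub_map hL hc hU) (by rw [← range_pr]; exact LinearMap.map_le_range)
      rw [Submodule.comap_bot] at h2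
      omega
  have := key (Finset.univ.image s)
  rwa [show {i | s i ∈ Finset.univ.image s} = Set.univ by ext i; simp, ssOn_univ] at this

lemma Emb.ye2_cc {e : I' → I} (he : Emb D' D e) (i j : I') : D.cc (e i) (e j) ↔ D'.cc i j := by
  simp only [cc, he.col, he.cp]

lemma Emb.sub_iff {e : I' → I} (he : Emb D' D e) (hρ : ∀ a i j, i ∉ Set.range e → ρ a i (e j) = 0)
    {U : Submodule ℂ (I' → ℂ)} :
    D.Sub ρ (U.map (inc e).mulVecLin) ↔ D'.Sub (resR e ρ) U := by
  have key : ∀ (i : I') (u : I' → ℂ), inc e *ᵥ (fun j => if D'.cc i j then u j else 0) =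
      fun j => if D.cc (e i) j then (inc e *ᵥ u) j else 0 := fun i u =>
    ye2_inc_eq he.inj (fun j => by simp only [he.ye2_cc, ye2_inc_in he.inj])
      fun j hj => by simp only [ye2_inc_out u hj, ite_self]
  constructor
  · intro h
    refine ⟨fun i u hu => (ye2_mem_map he.inj).1 ?_, fun a u hu => (ye2_mem_map he.inj).1 ?_⟩
    · rw [key]
      exact h.gr (e i) _ ⟨u, hu, rfl⟩
    · rw [ye2_comm he.inj hρ]
      exact h.st a _ ⟨u, hu, rfl⟩
  · intro h
    constructor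
    · rintro i _ ⟨u, hu, rfl⟩
      by_cases hi : ∃ k, D.cc i (e k)
      · obtain ⟨k, hk⟩ := hi
        have h1 := (ye2_mem_map he.inj).2 (h.gr k u hu)
        rw [key] at h1
        have h2 : ∀ j, D.cc i j ↔ D.cc (e k) j := fun j =>
          ⟨D.cc_eq.3 (D.cc_eq.2 hk), D.cc_eq.3 hk⟩
        simpa only [h2, mulVecLin_apply] using h1
      · refine Set.mem_of_eq_of_mem ?_ (Submodule.zero_mem _)
        funext j
        by_cases hj : j ∈ Set.range e
        · obtain ⟨k, rfl⟩ := hj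
          exact if_neg fun c => hi ⟨k, c⟩
        · simp only [mulVecLin_apply, ye2_inc_out u hj, ite_self, Pi.zero_apply]
    · rintro a _ ⟨u, hu, rfl⟩
      rw [mulVecLin_apply, ← ye2_comm he.inj hρ]
      exact (ye2_mem_map he.inj).2 (h.st a u hu)

lemma Emb.wt_eq {e : I' → I} (he : Emb D' D e) {U : Submodule ℂ (I' → ℂ)} (hU : D'.Cg U) :
    D.wt t (U.map (inc e).mulVecLin) = D'.wt t U := by
  have h1 := wt_map (D := D') (D' := D) (t := t) (h := inc e)
    (fun i j hij => if_neg fun k => hij (by rw [k, he.col])) hU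
  rwa [LinearMap.ker_eq_bot.2 (ye2_inc_inj he.inj), bot_inf_eq, wt_bot, zero_add] at h1

lemma Emb.ssOn_iff {e : I' → I} (he : Emb D' D e)
    (hρ : ∀ a i j, i ∉ Set.range e → ρ a i (e j) = 0) :
    D.SSOn t ρ (Set.range e) ↔ D'.SS t (resR e ρ) := by
  constructor
  · intro h U hU
    rw [← he.wt_eq hU.cg]
    exact h _ ((he.sub_iff hρ).2 hU) (ye2_map_le he.inj U)
  · intro h U hU hF
    obtain ⟨V, rfl⟩ := ye2_exists he.inj hF
    have hV := (he.sub_iff hρ).1 hU
    rw [he.wt_eq hV.cg]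
    exact h V hV

lemma Emb.stbOn_iff {e : I' → I} (he : Emb D' D e) (ht : D'.th = D.th)
    (hρ : ∀ a i j, i ∉ Set.range e → ρ a i (e j) = 0) :
    D.StbOn ρ (Set.range e) ↔ D'.Stb (resR e ρ) := by
  have hi := Submodule.map_injective_of_injective (ye2_inc_inj he.inj)
  refine and_congr Set.range_nonempty_iff_nonempty ⟨fun h U hU h1 h2 => ?_, fun h U hU hF h1 h2 => ?_⟩
  · rw [ht, ← he.wt_eq hU.cg]
    refine h _ ((he.sub_iff hρ).2 hU) (ye2_map_le he.inj U) (fun k => h1 (hi ?_)) fun k => h2 (hi ?_)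
    · rw [k, Submodule.map_bot]
    · rw [k, ye2_map_top he.inj]
  · obtain ⟨V, rfl⟩ := ye2_exists he.inj hF
    have hV := (he.sub_iff hρ).1 hU
    rw [he.wt_eq hV.cg, ← ht]
    refine h V hV (fun k => h1 ?_) fun k => h2 ?_
    · rw [k, Submodule.map_bot]
    · rw [k, ye2_map_top he.inj]

lemma ye2_wt_congr {E : Dat I} (hc : E.col = D.col) (U : Submodule ℂ (I → ℂ)) :
    E.wt t U = D.wt t U := by
  unfold wt
  rw [hc]

lemma ye2_sub_mono {E : Dat I} (hc : E.col = D.col) (hp : ∀ i j, D.cp i j → E.cp i j)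
    {U : Submodule ℂ (I → ℂ)} (h : D.Sub ρ U) : E.Sub ρ U :=
  h.mono D.cc_eq E.cc_eq fun i j k => ⟨by rw [hc]; exact k.1, hp i j k.2⟩

lemma ye2_sub_congr {E : Dat I} (hc : E.col = D.col) (hp : ∀ i j, D.cp i j → E.cp i j)
    {F : Set I} (hF : ∀ i ∈ F, ∀ j ∈ F, D.cp i j) {U : Submodule ℂ (I → ℂ)} (hU : U ≤ sp F)
    (h : E.Sub ρ U) : D.Sub ρ U := by
  refine ⟨fun i v hv => ?_, h.st⟩
  have h0 := mem_sp.1 (hU hv)
  by_cases hi : ∃ k ∈ F, D.cp i k
  · obtain ⟨k, hk, hik⟩ := hi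
    refine Set.mem_of_eq_of_mem ?_ (h.gr i v hv)
    funext j
    by_cases hj : j ∈ F
    · have h1 : D.cp i j := D.cp_eq.3 hik (hF k hk j hj)
      simp only [cc, hc, h1, hp i j h1]
    · simp only [h0 j hj, ite_self]
  · refine Set.mem_of_eq_of_mem ?_ (Submodule.zero_mem U)
    funext j
    by_cases hj : j ∈ F
    · exact if_neg fun c => hi ⟨j, hj, c.2⟩
    · simp only [h0 j hj, ite_self, Pi.zero_apply]

lemma ye2_R_cp (hρ : ρ ∈ D.base.R) (a : Fin 3) {i j : I} (h : ¬ D.cp i j) : ρ a i j = 0 :=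
  hρ a i j fun k => h k.2.2

lemma ye2_A_sp {F : Set I} (hρ : ∀ a i j, i ∉ F → j ∈ F → ρ a i j = 0)
    (hF : ∀ i j, D.cp i j → i ∈ F → j ∈ F) : D.A ρ (sp F) := by
  refine ⟨sub_sp.2 hρ, ?_⟩
  rw [← Set.coe_toFinset F, wt_sp]
  exact sum_th _ fun i j h => by simpa using hF i j h

/-- semistability does not depend on the components -/
lemma ss_congr {E : Dat I} (hc : E.col = D.col) (hp : ∀ i j, D.cp i j → E.cp i j)
    (hρ : ρ ∈ D.base.R) : E.SS t ρ ↔ D.SS t ρ := by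
  constructor
  · intro h U hU
    rw [← ye2_wt_congr hc]
    exact h U (ye2_sub_mono hc hp hU)
  · intro h
    refine ss_of_blocks (fun i => {j | D.cp i j}) (fun a i j hij => ye2_R_cp hρ a fun k => hij ?_)
      fun c U hU hF => ?_
    · ext l
      exact ⟨D.cp_eq.3 (D.cp_eq.2 k), D.cp_eq.3 k⟩
    · rw [ye2_wt_congr hc]
      refine h U (ye2_sub_congr hc hp (fun i hi j hj => ?_) hF hU)
      have h1 : j ∈ {l | D.cp j l} := D.cp_eq.1 j
      rw [Set.mem_ofPred_eq] at hi hj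
      rwa [hj, ← hi] at h1

/-- stability of a part of a component does not depend on the other components -/
lemma stbOn_congr {E : Dat I} (hc : E.col = D.col) (ht : E.th = D.th)
    (hp : ∀ i j, D.cp i j → E.cp i j) {F : Set I} (hF : ∀ i ∈ F, ∀ j ∈ F, D.cp i j) :
    E.StbOn ρ F ↔ D.StbOn ρ F := by
  refine and_congr_right fun _ => ⟨fun h U hU h1 h2 h3 => ?_, fun h U hU h1 h2 h3 => ?_⟩
  · rw [← ye2_wt_congr hc, ← ht]
    exact h U (ye2_sub_mono hc hp hU) h1 h2 h3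
  · rw [ye2_wt_congr hc, ht]
    exact h U (ye2_sub_congr hc hp hF h1 hU) h1 h2 h3

lemma Mor.F_fst (h : Mor D D') (p : Pt I D.m) (a : Fin 3) (i j : I) :
    (h.F p).1 a (h.w i) (h.w j) = p.1 a i j := by
  simp [Mor.F]

lemma Mor.F_snd (h : Mor D D') (p : Pt I D.m) (i : I) (r : Fin D.m) :
    (h.F p).2 (h.w i) (h.ι i r) = p.2 i r := by
  simp only [Mor.F, Equiv.symm_apply_apply]
  exact (h.ι i).injective.extend_apply _ _ _

lemma Mor.F_snd_zero (h : Mor D D') (p : Pt I D.m) (i : I) (r : Fin D'.m)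
    (hr : ∀ s, h.ι i s ≠ r) : (h.F p).2 (h.w i) r = 0 := by
  simp only [Mor.F, Equiv.symm_apply_apply]
  exact Function.extend_apply' _ _ _ fun ⟨s, hs⟩ => hr s hs

lemma Mor.ye2_ext (h : Mor D D') (p : Pt I D.m) {q : Pt I' D'.m}
    (h1 : ∀ a i j, q.1 a (h.w i) (h.w j) = p.1 a i j)
    (h2 : ∀ i r, q.2 (h.w i) (h.ι i r) = p.2 i r)
    (h3 : ∀ i r, (∀ s, h.ι i s ≠ r) → q.2 (h.w i) r = 0) : h.F p = q := by
  refine Prod.ext ?_ ?_
  · funext a
    ext i j
    obtain ⟨i, rfl⟩ := h.w.surjective i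
    obtain ⟨j, rfl⟩ := h.w.surjective j
    rw [h.F_fst, h1]
  · ext i r
    obtain ⟨i, rfl⟩ := h.w.surjective i
    by_cases hr : ∃ s, h.ι i s = r
    · obtain ⟨s, rfl⟩ := hr
      rw [h.F_snd, h2]
    · rw [h.F_snd_zero p i r (not_exists.1 hr), h3 i r (not_exists.1 hr)]

lemma Mor.continuous_F (h : Mor D D') : Continuous h.F := by
  have k : Continuous fun p => ((h.F p).1, (h.F p).2) := by
    refine Continuous.prodMk (continuous_pi fun a => continuous_matrix fun i j => ?_)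
      (continuous_matrix fun i r => ?_)
    · obtain ⟨i, rfl⟩ := h.w.surjective i
      obtain ⟨j, rfl⟩ := h.w.surjective j
      simp only [h.F_fst]
      exact ((continuous_apply a).comp continuous_fst).matrix_elem i j
    · obtain ⟨i, rfl⟩ := h.w.surjective i
      by_cases hr : ∃ s, h.ι i s = r
      · obtain ⟨s, rfl⟩ := hr
        simp only [h.F_snd]
        exact continuous_snd.matrix_elem i s
      · simp only [fun p => h.F_snd_zero p i r (not_exists.1 hr)]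
        exact continuous_const
  exact k

lemma Mor.F_inj (h : Mor D D') : Function.Injective h.F := by
  intro p q k
  refine Prod.ext ?_ ?_
  · funext a
    ext i j
    rw [← h.F_fst p, k, h.F_fst]
  · ext i r
    rw [← h.F_snd p, k, h.F_snd]

lemma Mor.F_add (h : Mor D D') (p q : Pt I D.m) : h.F (p + q) = h.F p + h.F q := by
  refine h.ye2_ext _ (fun a i j => ?_) (fun i r => ?_) fun i r hr => ?_
  · simp only [Prod.fst_add, Pi.add_apply, Matrix.add_apply, h.F_fst]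
  · simp only [Prod.snd_add, Matrix.add_apply, h.F_snd]
  · simp only [Prod.snd_add, Matrix.add_apply, fun p => h.F_snd_zero p i r hr, add_zero]

lemma Mor.F_smul (h : Mor D D') (c : ℂ) (p : Pt I D.m) : h.F (c • p) = c • h.F p := by
  refine h.ye2_ext _ (fun a i j => ?_) (fun i r => ?_) fun i r hr => ?_
  · simp only [Prod.smul_fst, Pi.smul_apply, Matrix.smul_apply, h.F_fst]
  · simp only [Prod.smul_snd, Matrix.smul_apply, h.F_snd]
  · simp only [Prod.smul_snd, Matrix.smul_apply, fun p => h.F_snd_zero p i r hr, smul_zero]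

lemma Mor.mem_R (h : Mor D D') {p : Pt I D.m} (hp : p.1 ∈ D.R) : (h.F p).1 ∈ D'.R := by
  intro a i j k
  obtain ⟨i, rfl⟩ := h.w.surjective i
  obtain ⟨j, rfl⟩ := h.w.surjective j
  rw [h.F_fst]
  exact hp a i j fun c => k ⟨(h.col i).trans c.1, (h.col j).trans c.2.1, h.rl i j c.2.2⟩

lemma Mor.mem_Lie (h : Mor D D') {g : Matrix I I ℂ} (hg : g ∈ D.Lie) :
    reindex h.w h.w g ∈ D'.Lie := by
  intro i j k
  obtain ⟨i, rfl⟩ := h.w.surjective i
  obtain ⟨j, rfl⟩ := h.w.surjective j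
  simp only [reindex_apply, submatrix_apply, Equiv.symm_apply_apply]
  exact hg i j fun c => k (h.gp i j c)

lemma Mor.mem_P (h : Mor D D') {g : Matrix I I ℂ} (hg : g ∈ D.P) :
    reindex h.w h.w g ∈ D'.P :=
  ⟨h.mem_Lie hg.1, by rw [det_reindex_self]; exact hg.2⟩

lemma Mor.F_act (h : Mor D D') {g : Matrix I I ℂ} (hg : g ∈ D.base.Lie) (p : Pt I D.m) :
    h.F (act g p) = act (reindex h.w h.w g) (h.F p) := by
  have key : ∀ i r, (act (reindex h.w h.w g) (h.F p)).2 (h.w i) r =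
      ∑ j, g i j * (h.F p).2 (h.w j) r := by
    intro i r
    simp only [act, mul_apply, reindex_apply, submatrix_apply, Equiv.symm_apply_apply]
    rw [← h.w.sum_comp]
    simp only [Equiv.symm_apply_apply]
  have hι : ∀ i j, g i j = 0 ∨ h.ι i = h.ι j := fun i j => by
    by_cases k : D.cc i j
    · exact Or.inr (h.ι_eq i j k.2)
    · exact Or.inl (hg i j k)
  refine h.ye2_ext _ (fun a i j => ?_) (fun i r => ?_) fun i r hr => ?_
  · simp only [act, actR, Mor.F, reindex_apply, inv_submatrix_equiv, submatrix_mul_equiv,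
      submatrix_apply, Equiv.symm_apply_apply]
  · rw [key]
    refine Eq.trans (Finset.sum_congr rfl fun j _ => ?_) (mul_apply (M := g) (N := p.2)).symm
    rcases hι i j with k | k
    · rw [k, zero_mul, zero_mul]
    · rw [k, h.F_snd]
  · rw [key]
    refine Finset.sum_eq_zero fun j _ => ?_
    rcases hι i j with k | k
    · rw [k, zero_mul]
    · rw [h.F_snd_zero p j r (k ▸ hr), mul_zero]

lemma Mor.F_id (p : Pt I D.m) : (Mor.id D).F p = p :=
  (Mor.id D).ye2_ext p (fun _ _ _ => rfl) (fun _ _ => rfl) fun _ r hr => absurd rfl (hr r)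

lemma Mor.F_comp (h' : Mor D' D'') (h : Mor D D') (p : Pt I D.m) :
    (h'.comp h).F p = h'.F (h.F p) := by
  refine (h'.comp h).ye2_ext p (fun a i j => ?_) (fun i r => ?_) fun i r hr => ?_
  · exact (h'.F_fst _ a _ _).trans (h.F_fst p a i j)
  · exact (h'.F_snd _ _ _).trans (h.F_snd p i r)
  · by_cases k : ∃ s, h'.ι (h.w i) s = r
    · obtain ⟨s, rfl⟩ := k
      refine (h'.F_snd _ _ _).trans (h.F_snd_zero p i s fun u hu => hr u ?_)
      rw [← hu]
      rfl
    · exact h'.F_snd_zero _ _ r (not_exists.1 k)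

lemma Mor.F_ofLe {E : Dat I} (hm : D.m = E.m) (hc : E.col = D.col) (ht : E.th = D.th)
    (hp : ∀ i j, D.cp i j ↔ E.cp i j) (hg : ∀ i j, D.gp i j → E.gp i j)
    (hr : ∀ i j, D.rl i j → E.rl i j) (p : Pt I D.m) :
    (Mor.ofLe hm hc ht hp hg hr).F p = (p.1, p.2.submatrix _root_.id (Fin.cast hm.symm)) :=
  (Mor.ofLe hm hc ht hp hg hr).ye2_ext p (fun _ _ _ => rfl) (fun _ _ => rfl)
    fun _ r k => absurd rfl (k (Fin.cast hm.symm r))

/-- the datum transported along a bijection -/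
def ye2_pull (D' : Dat I') (w : I ≃ I') : Dat I where
  col i := D'.col (w i)
  th := D'.th
  m := D'.m
  cp i j := D'.cp (w i) (w j)
  gl i j := D'.gl (w i) (w j)
  rl i j := D'.rl (w i) (w j)
  cp_eq := ⟨fun _ => D'.cp_eq.1 _, D'.cp_eq.2, D'.cp_eq.3⟩
  gl_refl _ := D'.gl_refl _
  gl_trans := D'.gl_trans
  rl_trans := D'.rl_trans
  gl_rl := D'.gl_rl
  rl_cp := D'.rl_cp
  tot _ _ := D'.tot _ _
  bal i F hF := by
    have := D'.bal (w i) (F.map w.toEmbedding) fun j => by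
      obtain ⟨j, rfl⟩ := w.surjective j
      rw [← hF]
      exact Finset.mem_map' w.toEmbedding
    rwa [Finset.sum_map] at this

/-- MORST -/
theorem Mor.st (h : Mor D D') {p : Pt I D.m} (hp : D.St p) : D'.St (h.F p) := by
  have he : Emb (ye2_pull D' h.w) D' h.w := ⟨h.w.injective, fun _ => rfl, fun _ _ => Iff.rfl⟩
  have hc : (ye2_pull D' h.w).col = D.col := funext h.col
  have hp' : ∀ i j, D.cp i j → (ye2_pull D' h.w).cp i j := h.cp
  have hR := D.R_le hp.mem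
  have hr : Set.range h.w = Set.univ := h.w.surjective.range_eq
  have hρ : ∀ a i j, i ∉ Set.range h.w → (h.F p).1 a i (h.w j) = 0 := fun a i j k =>
    absurd (h.w.surjective i) k
  have hres : resR h.w (h.F p).1 = p.1 := by
    funext a
    ext i j
    exact h.F_fst p a i j
  have hsE : (ye2_pull D' h.w).SS D'.th p.1 := (ss_congr hc hp' hR).2 (h.th ▸ hp.ss)
  have hs : D'.SS D'.th (h.F p).1 := by
    rw [← ssOn_univ, ← hr, he.ssOn_iff hρ, hres]
    exact hsE
  refine st_iff.2 ⟨h.mem_R hp.mem, hs, (gen_iff hs).2 fun U' hU' hf => ?_⟩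
  obtain ⟨U, rfl⟩ := ye2_exists (U := U') h.w.injective (by rw [hr, sp_univ]; exact le_top)
  have hU1 : (ye2_pull D' h.w).Sub p.1 U := hres ▸ (he.sub_iff hρ).1 hU'.1
  have hU : (ye2_pull D' h.w).A p.1 U := ⟨hU1, (he.wt_eq hU1.cg).symm.trans hU'.2⟩
  have key : ∀ s, sp {j | D.cp s j} ≤ U := by
    intro s
    have a1 : D.A p.1 (sp {j | D.cp s j}) :=
      ye2_A_sp (fun a i j hi hj => ye2_R_cp hR a fun k => hi (D.cp_eq.3 hj (D.cp_eq.2 k)))
        fun i j k hi => D.cp_eq.3 hi k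
    have a2 : D.A p.1 (sp {j | D.cp s j}ᶜ) :=
      ye2_A_sp (fun a i j hi hj => ye2_R_cp hR a fun k => hj (D.cp_eq.3 (not_not.1 hi) k))
        fun i j k hi hj => hi (D.cp_eq.3 hj (D.cp_eq.2 k))
    have a3 : (ye2_pull D' h.w).A p.1 (U ⊓ sp {j | D.cp s j}) :=
      A.inf hsE hU ⟨ye2_sub_mono hc hp' a1.1, by
        rw [ye2_wt_congr hc]; exact (congrArg (D.wt · _) h.th).trans a1.2⟩
    have a4 : D.A p.1 (U ⊓ sp {j | D.cp s j}) :=
      ⟨ye2_sub_congr hc hp' (fun i hi j hj => D.cp_eq.3 (D.cp_eq.2 hi) hj) inf_le_right a3.1, by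
        rw [← ye2_wt_congr hc, ← h.th]; exact a3.2⟩
    refine (ye2_block inf_le_right ((gen_iff hp.ss).1 hp.gen _ (A.sup hp.ss a4 a2) fun r =>
      ye2_mem_sup ⟨?_, by rw [← range_pr]; exact ⟨_, rfl⟩⟩)).trans inf_le_left
    have b1 : (fun j => (h.F p).2 (h.w j) (h.ι s r)) ∈ U := by
      rw [← ye2_mem_map h.w.injective,
        ye2_inc_eq h.w.injective (v := fun i => (h.F p).2 i (h.ι s r)) (fun _ => rfl)
          fun i k => absurd (h.w.surjective i) k]
      exact hf _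
    have b2 := hU1.pr_mem (ye2_pull D' h.w).cc_eq (F := {j | D'.cp (h.w s) (h.w j)})
      (fun i j k hi => D'.cp_eq.3 hi k.2) b1
    refine (congrArg (· ∈ U) ?_).mpr b2
    funext j
    rw [pr_mulVec, pr_mulVec]
    by_cases k : D.cp s j
    · rw [if_pos (show j ∈ {j | D.cp s j} from k),
        if_pos (show j ∈ {j | D'.cp (h.w s) (h.w j)} from h.cp s j k), h.ι_eq s j k, h.F_snd]
    · rw [if_neg (show j ∉ {j | D.cp s j} from k)]
      split_ifs with k2
      · exact (h.F_snd_zero p j _ fun u hu => h.ι_ne s j k k2 r u hu.symm).symm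
      · rfl
  have hT : U = ⊤ := by
    refine eq_top_iff.2 fun v _ => ?_
    rw [← Finset.univ_sum_single v]
    refine U.sum_mem fun i _ => key i (mem_sp.2 fun j hj => Pi.single_eq_of_ne ?_ _)
    rintro rfl
    exact hj (D.cp_eq.1 _)
  rw [hT, ye2_map_top h.w.injective, hr, sp_univ]

lemma Emb.ye2_gen {e : I' → I} (he : Emb D' D e) (ht : D'.th = D.th)
    (hcl : ∀ i j, D.cp i j → (i ∈ Set.range e ↔ j ∈ Set.range e))
    (hρ : ∀ a i j, ¬ (i ∈ Set.range e ↔ j ∈ Set.range e) → ρ a i j = 0) (hs : D.SS D.th ρ)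
    {μ : Type} (f : Matrix I μ ℂ) :
    D'.Gen (resR e ρ) (f.submatrix e id) ↔
      ∀ U, D.A ρ U → (∀ r, (fun i => f i r) ∈ U) → sp (Set.range e) ≤ U := by
  have h1 : ∀ a i j, i ∉ Set.range e → ρ a i (e j) = 0 := fun a i j k =>
    hρ a i _ fun c => k (c.2 ⟨j, rfl⟩)
  have hs' : D'.SS D'.th (resR e ρ) := ht ▸ (he.ssOn_iff h1).1 (hs.on _)
  have hA : ∀ V, D.A ρ (V.map (inc e).mulVecLin) ↔ D'.A (resR e ρ) V := fun V => by
    rw [A, A, he.sub_iff h1]
    exact and_congr_right fun k => by rw [he.wt_eq k.cg, ht]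
  have hcol : ∀ r, inc e *ᵥ (fun i => f.submatrix e id i r) = pr (Set.range e) *ᵥ fun i => f i r :=
    fun r => ye2_inc_eq he.inj (fun j => by rw [pr_mulVec, if_pos ⟨j, rfl⟩]; rfl)
      fun i hi => by rw [pr_mulVec, if_neg hi]
  rw [gen_iff hs']
  constructor
  · intro h U hU hf
    have a1 : D.A ρ (sp (Set.range e)) :=
      ye2_A_sp (fun a i j hi hj => hρ a i j fun c => hi (c.2 hj)) fun i j k => (hcl i j k).1
    obtain ⟨V, hV⟩ := ye2_exists (U := U ⊓ sp (Set.range e)) he.inj inf_le_right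
    have a2 := h V ((hA V).1 (hV ▸ A.inf hs hU a1)) fun r => by
      rw [← ye2_mem_map he.inj, hV, hcol]
      exact ⟨hU.1.pr_mem D.cc_eq (fun i j k => (hcl i j k.2).1) (hf r),
        by rw [← range_pr]; exact ⟨_, rfl⟩⟩
    rw [← ye2_map_top he.inj, ← a2, hV]
    exact inf_le_left
  · intro h V hV hf
    have a1 : D.A ρ (sp (Set.range e)ᶜ) :=
      ye2_A_sp (fun a i j hi hj => hρ a i j fun c => hj (c.1 (not_not.1 hi)))
        fun i j k hi hj => hi ((hcl i j k).2 hj)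
    have a2 := h _ (A.sup hs ((hA V).2 hV) a1) fun r =>
      ye2_mem_sup (hcol r ▸ (ye2_mem_map he.inj).2 (hf r))
    have a3 : V.map (inc e).mulVecLin ⊔ sp (Set.range e)ᶜ = ⊤ := by
      rw [eq_top_iff, ← sp_univ, ← Set.union_compl_self (Set.range e), sp_union]
      exact sup_le a2 le_sup_right
    refine eq_top_iff.2 fun u _ => (ye2_mem_map he.inj).1 (ye2_block (ye2_map_le he.inj V) a3 ?_)
    exact ye2_map_le he.inj ⊤ ⟨u, trivial, rfl⟩

omit [Fintype I] [DecidableEq I] in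
lemma ye2_gen_col {μ ν : Type} {g : ν → μ} (hg : Function.Surjective g) {e : I' → I}
    {σ : Rp I'} (f : Matrix I μ ℂ) : D'.Gen σ (f.submatrix e g) ↔ D'.Gen σ (f.submatrix e id) :=
  forall₂_congr fun U _ => imp_congr_left
    (hg.forall (p := fun r => (fun i => f.submatrix e id i r) ∈ U)).symm

/-- `I` is the disjoint union of the parts `D'` and `D''` -/
structure Spl (D : Dat I) (D' : Dat I') (D'' : Dat I'') (e' : I' → I) (e'' : I'' → I) : Prop where
  l : Emb D' D e'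
  r : Emb D'' D e''
  cov : ∀ i, i ∈ Set.range e' ∨ i ∈ Set.range e''
  sep : ∀ i j, ¬ D.cp (e' i) (e'' j)
  thl : D'.th = D.th
  thr : D''.th = D.th
  rll : ∀ i j, D.rl (e' i) (e' j) ↔ D'.rl i j
  rlr : ∀ i j, D.rl (e'' i) (e'' j) ↔ D''.rl i j

variable {e' : I' → I} {e'' : I'' → I}

lemma Spl.ye2_not (h : Spl D D' D'' e' e'') (i : I) : i ∈ Set.range e'' ↔ i ∉ Set.range e' := by
  refine ⟨?_, (h.cov i).resolve_left⟩
  rintro ⟨j, rfl⟩ ⟨k, hk⟩
  exact h.sep k j (hk ▸ D.cp_eq.1 _)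

lemma Spl.ye2_off (h : Spl D D' D'' e' e'') {P : I → I → Prop}
    (hP : ∀ i j, P (e' i) (e'' j) ∧ P (e'' j) (e' i)) (i j : I)
    (k : ¬ (i ∈ Set.range e' ↔ j ∈ Set.range e')) : P i j := by
  by_cases hi : i ∈ Set.range e'
  · obtain ⟨b, rfl⟩ := (h.ye2_not j).2 fun c => k (iff_of_true hi c)
    obtain ⟨a, rfl⟩ := hi
    exact (hP a b).1
  · obtain ⟨a, rfl⟩ : j ∈ Set.range e' := by
      by_contra c
      exact k (iff_of_false hi c)
    obtain ⟨b, rfl⟩ := (h.ye2_not i).2 hi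
    exact (hP a b).2

lemma Spl.mem_R (h : Spl D D' D'' e' e'') : ρ ∈ D.R ↔
    (∀ a i j, ρ a (e' i) (e'' j) = 0 ∧ ρ a (e'' j) (e' i) = 0) ∧
      resR e' ρ ∈ D'.R ∧ resR e'' ρ ∈ D''.R := by
  have k1 : ∀ a i j, D.ap a (e' i) (e' j) ↔ D'.ap a i j := fun a i j => by
    simp only [ap, h.l.col, h.rll]
  have k2 : ∀ a i j, D.ap a (e'' i) (e'' j) ↔ D''.ap a i j := fun a i j => by
    simp only [ap, h.r.col, h.rlr]
  constructor
  · exact fun k => ⟨fun a i j => ⟨k a _ _ fun c => h.sep i j (D.rl_cp c.2.2),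
      k a _ _ fun c => h.sep i j (D.cp_eq.2 (D.rl_cp c.2.2))⟩,
      fun a i j c => k a _ _ fun c' => c ((k1 a i j).1 c'),
      fun a i j c => k a _ _ fun c' => c ((k2 a i j).1 c')⟩
  · rintro ⟨h1, h2, h3⟩ a i j c
    rcases h.cov i with ⟨i, rfl⟩ | ⟨i, rfl⟩ <;> rcases h.cov j with ⟨j, rfl⟩ | ⟨j, rfl⟩
    · exact h2 a i j fun c' => c ((k1 a i j).2 c')
    · exact (h1 a i j).1
    · exact (h1 a j i).2
    · exact h3 a i j fun c' => c ((k2 a i j).2 c')

lemma Spl.ss_iff (h : Spl D D' D'' e' e'')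
    (hρ : ∀ a i j, ρ a (e' i) (e'' j) = 0 ∧ ρ a (e'' j) (e' i) = 0) :
    D.SS t ρ ↔ D'.SS t (resR e' ρ) ∧ D''.SS t (resR e'' ρ) := by
  have k0 := fun a => h.ye2_off (P := fun i j => ρ a i j = 0) (hρ a)
  have k1 : ∀ a i j, i ∉ Set.range e' → ρ a i (e' j) = 0 := fun a i j k =>
    k0 a i _ fun c => k (c.2 ⟨j, rfl⟩)
  have k2 : ∀ a i j, i ∉ Set.range e'' → ρ a i (e'' j) = 0 := fun a i j k =>
    k0 a i _ fun c => (h.ye2_not _).1 ⟨j, rfl⟩ (c.1 ((h.cov i).resolve_right k))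
  rw [← h.l.ssOn_iff k1, ← h.r.ssOn_iff k2]
  refine ⟨fun k => ⟨k.on _, k.on _⟩, fun k => ss_of_blocks (fun i => i ∈ Set.range e')
    (fun a i j c => k0 a i j fun c' => c (propext c')) fun c => ?_⟩
  by_cases hc : c
  · refine (congrArg (D.SSOn t ρ) ?_).mpr k.1
    ext i
    simp only [Set.mem_ofPred_eq, eq_iff_iff, hc, iff_true]
  · refine (congrArg (D.SSOn t ρ) ?_).mpr k.2
    ext i
    simp only [Set.mem_ofPred_eq, eq_iff_iff, hc, iff_false, h.ye2_not]

lemma Spl.gen_iff (h : Spl D D' D'' e' e'')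
    (hρ : ∀ a i j, ρ a (e' i) (e'' j) = 0 ∧ ρ a (e'' j) (e' i) = 0) (hs : D.SS D.th ρ)
    {μ : Type} (f : Matrix I μ ℂ) :
    D.Gen ρ f ↔ D'.Gen (resR e' ρ) (f.submatrix e' id) ∧
      D''.Gen (resR e'' ρ) (f.submatrix e'' id) := by
  have k0 := fun a => h.ye2_off (P := fun i j => ρ a i j = 0) (hρ a)
  have k1 : ∀ i j, D.cp i j → (i ∈ Set.range e' ↔ j ∈ Set.range e') := fun i j k => by
    by_contra c
    exact h.ye2_off (P := fun i j => ¬ D.cp i j)
      (fun a b => ⟨h.sep a b, fun c => h.sep a b (D.cp_eq.2 c)⟩) i j c k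
  rw [h.l.ye2_gen h.thl k1 k0 hs, h.r.ye2_gen h.thr
    (fun i j k => by rw [h.ye2_not, h.ye2_not, k1 i j k])
    (fun a i j k => k0 a i j fun c => k (by rw [h.ye2_not, h.ye2_not, c])) hs, Dat.gen_iff hs]
  refine ⟨fun k => ⟨fun U a b => k U a b ▸ le_top, fun U a b => k U a b ▸ le_top⟩,
    fun k U a b => ?_⟩
  rw [eq_top_iff, ← sp_univ, ← Set.eq_univ_of_forall (s := Set.range e' ∪ Set.range e'') h.cov,
    sp_union]
  exact sup_le (k.1 U a b) (k.2 U a b)

/-- PRODST -/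
theorem Spl.st_iff (h : Spl D D' D'' e' e'') (hl : D'.m = D.m) (hr : D''.m = D.m) (p : Pt I D.m) :
    D.St p ↔ (∀ a i j, p.1 a (e' i) (e'' j) = 0 ∧ p.1 a (e'' j) (e' i) = 0) ∧
      D'.St (resR e' p.1, p.2.submatrix e' (Fin.cast hl)) ∧
      D''.St (resR e'' p.1, p.2.submatrix e'' (Fin.cast hr)) := by
  rw [Dat.st_iff, Dat.st_iff, Dat.st_iff, h.mem_R, h.thl, h.thr]
  simp only [ye2_gen_col (g := Fin.cast hl) (finCongr hl).surjective,
    ye2_gen_col (g := Fin.cast hr) (finCongr hr).surjective]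
  constructor
  · rintro ⟨⟨h1, h2, h3⟩, h4, h5⟩
    have h6 := (h.ss_iff h1).1 h4
    have h7 := (h.gen_iff h1 h4 p.2).1 h5
    exact ⟨h1, ⟨h2, h6.1, h7.1⟩, h3, h6.2, h7.2⟩
  · rintro ⟨h1, ⟨h2, h3, h4⟩, h5, h6, h7⟩
    have h8 := (h.ss_iff h1).2 ⟨h3, h6⟩
    exact ⟨⟨h1, h2, h5⟩, h8, (h.gen_iff h1 h8 p.2).2 ⟨h4, h7⟩⟩

end Dat

end Pool.Agent.CS
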