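import Pool.Agent.K.MP_d34769_ag.C72
import Pool.Agent.K.MP_d34769_ag.C84
import Pool.Agent.K.MP_d34769_ag.C105
import Pool.Agent.K.MP_d34769_ag.C35

/-! The first page of the cobar diagrams. -/

open Set MvPolynomial

noncomputable section
namespace Pool.Agent.CS
open Pool.Agent.P.MP_d34769_ag

variable {I I' : Type} [Fintype I] [DecidableEq I] [Fintype I'] [DecidableEq I'] {col : I → Fin 3}
  {th : Fin 3 → ℤ} {k k' m m' n p c : ℕ}

/-- the cocycle `y` represents the invariant polynomial `φ` -/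
def Dat.EvC (D : Dat I) (p : ℕ) : Submodule ℂ (MvPolynomial I ℂ × AS D.XS) where
  carrier := {z | D.Inv z.1 ∧ z.2 ∈ (CC D.XS).Z (2 * p : ℕ) ∧ D.evD z.1 = CS.cl z.2}
  add_mem' a b := ⟨a.1.add b.1, add_mem a.2.1 b.2.1, by
    rw [Prod.fst_add, Prod.snd_add, map_add, a.2.2, b.2.2, cl_add (Z_Zc a.2.1) (Z_Zc b.2.1)]⟩
  zero_mem' := ⟨fun _ _ => map_zero _, zero_mem _, (map_zero _).trans cl_zero.symm⟩
  smul_mem' r _ a := ⟨a.1.smul r, Submodule.smul_mem _ r a.2.1, by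
    rw [Prod.smul_fst, Prod.smul_snd, map_smul, a.2.2, cl_smul]⟩

theorem Dat.Mor.evC {D : Dat I} {D' : Dat I'} (h : Dat.Mor D D') {φ : MvPolynomial I' ℂ}
    {y : AS D'.XS} (e : (φ, y) ∈ D'.EvC p) :
    (rename h.w.symm φ, AS.pull h.mc y) ∈ D.EvC p :=
  ⟨h.inv e.1, by simpa using (mor_pl h.mc (mapsTo_univ _ _) (mapsTo_empty _ _)).mem_Z e.2.1, by
    rw [← Dat.evD_mor h e.1, e.2.2, pull_cl _ (Z_Zc e.2.1)]⟩

theorem Dat.Mor.evC' {D D' : Dat I} (h : Dat.Mor D D') (hw : h.w = Equiv.refl I)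
    {φ : MvPolynomial I ℂ} {y : AS D'.XS} (e : (φ, y) ∈ D'.EvC p) :
    (φ, AS.pull h.mc y) ∈ D.EvC p := by
  simpa [hw] using h.evC e

theorem Dat.exists_evC {D : Dat I} {φ : MvPolynomial I ℂ} (h : D.Inv φ) (hp : φ.IsHomogeneous p) :
    ∃ y, (φ, y) ∈ D.EvC p := by
  obtain ⟨y, h1, h2⟩ := exists_cl (Dat.evD_gr (D := D) hp)
  exact ⟨y, h, by simpa using h1, h2.symm⟩

theorem Dat.exists_evC' {D : Dat I} {y : AS D.XS} (h : y ∈ (CC D.XS).Z (2 * p : ℕ)) :
    ∃ φ : MvPolynomial I ℂ, φ.IsHomogeneous p ∧ (φ, y) ∈ D.EvC p := by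
  obtain ⟨φ, h1, h2, h3⟩ := Dat.evD_surj (D := D) (p := p) (by simpa using cl_mem_hr h)
  exact ⟨φ, h2, h1, h, h3⟩

theorem pair_sum {A B κ : Type} [AddCommGroup A] [Module ℂ A] [AddCommGroup B] [Module ℂ B]
    {E : Submodule ℂ (A × B)} (s : Finset κ) {f : κ → A} {g : κ → B}
    (h : ∀ a ∈ s, (f a, g a) ∈ E) : (∑ a ∈ s, f a, ∑ a ∈ s, g a) ∈ E := by
  rw [prod_mk_sum]
  exact sum_mem h

theorem ev_mat {μ : Wx col th k → Wx col th k' → ℤ} {R : Wx col th k → Wx col th k' → Prop}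
    (g : ∀ {L K}, R L K → AS (K.dat m').XS →ₗ[ℂ] AS (L.dat m).XS) (L : Wx col th k) {φ : MC I}
    {y : ∀ K : Wx col th k', AS (K.dat m').XS}
    (h : ∀ K, μ L K ≠ 0 → ∃ r : R L K, (φ K.1, g r (y K)) ∈ (L.dat m).EvC p) :
    (∑ K, μ L K • φ K.1, mat μ (@g) y L) ∈ (L.dat m).EvC p := by
  rw [mat_apply]
  refine pair_sum _ fun K _ => ?_
  by_cases e : μ L K = 0
  · simp only [e, zero_smul, Int.cast_zero, dite_eq_ite, ite_self]
    exact zero_mem _
  · obtain ⟨r, hr⟩ := h K e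
    rw [dif_pos r, ← Int.cast_smul_eq_zsmul ℂ]
    exact Submodule.smul_mem _ _ hr

variable (col th k m) in
/-- evaluation in column `c` -/
def evT (c p : ℕ) : Submodule ℂ (MC I × (dgT col th k m).T) where
  carrier := {z | ∀ L : Wx col th k, (shT col th k).deg L = c → (z.1 L.1, z.2 L) ∈ (L.dat m).EvC p}
  add_mem' {x y} a b L h := (congrArg (· ∈ (L.dat m).EvC p) (Prod.ext (Pi.add_apply x.1 y.1 L.1)
    (Pi.add_apply x.2 y.2 L))).mpr (((L.dat m).EvC p).add_mem (a L h) (b L h))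
  zero_mem' L _ := ((L.dat m).EvC p).zero_mem
  smul_mem' r _ a L h := Submodule.smul_mem _ r (a L h)

variable (col) in
/-- the action on algebraic cochains -/
def rhoW : Wc col →* Module.End ℂ (MC I) where
  toFun w := LinearMap.pi fun L => (rename w.1).toLinearMap ∘ₗ LinearMap.proj (rlb w.1⁻¹ L)
  map_one' := LinearMap.ext fun φ => funext fun L => by simp [rlb_one]
  map_mul' w w' := LinearMap.ext fun φ => funext fun L => by simp [rlb_mul, rename_rename]

omit [Fintype I] in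
theorem rhoW_apply (w : Wc col) (φ : MC I) (L) : rhoW col w φ L = rename w.1 (φ (rlb w.1⁻¹ L)) :=
  rfl

omit [Fintype I] in
theorem mem_Cc {φ : MC I} : φ ∈ Cc col p ↔ (∀ L, (φ L).IsHomogeneous p) ∧ φ ∈ Fix (rhoW col) := by
  refine and_congr_right fun _ => ⟨fun h => mem_Fix.2 fun w => funext fun L => ?_,
    fun h w hw L => ?_⟩
  · rw [rhoW_apply, ← h w.1 w.2]
    exact congrArg φ (by rw [← rlb, ← rlb_mul, mul_inv_cancel, rlb_one])
  · have := congrFun (mem_Fix.1 h ⟨w, hw⟩) (rlb w L)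
    rw [rhoW_apply, ← rlb_mul, inv_mul_cancel, rlb_one] at this
    exact this.symm

theorem evT_act {φ : MC I} {y : (dgT col th k m).T} (h : (φ, y) ∈ evT col th k m c p) (w : Wc col) :
    (rhoW col w φ, (actT col th k m).r w y) ∈ evT col th k m c p := fun L hL => by
  have := (actMor w⁻¹ (L := L) rfl m).evC (h _ (((actT col th k m).deg w⁻¹ L).trans hL))
  have e : (actT col th k m).r w y L = AS.pull (actMor w⁻¹ (L := L) rfl m).mc (y _) :=
    ((actT col th k m).r_apply w y rfl).trans (by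
      change (((1 : ℤˣ) : ℤ) : ℂ) • _ = _
      rw [Units.val_one, Int.cast_one, one_smul]
      rfl)
  change (_, (actT col th k m).r w y L) ∈ _
  rw [e]
  exact this

theorem evT_avg {φ : MC I} {y : (dgT col th k m).T} (h : (φ, y) ∈ evT col th k m c p) :
    (avg (rhoW col) φ, avg (actT col th k m).r y) ∈ evT col th k m c p := by
  have := Submodule.smul_mem _ (Fintype.card (Wc col) : ℂ)⁻¹
    (pair_sum Finset.univ fun w _ => evT_act h w)
  simpa only [avg, LinearMap.smul_apply, LinearMap.sum_apply, Prod.smul_mk] using this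

theorem rlb_of_W {L : Wx col th k} {w : Equiv.Perm I} (hw : w ∈ (L.dat m).W) : rlb w L.1 = L.1 := by
  refine (List.map_congr_left fun u hu => (List.map_congr_left fun b hb => ?_).trans
    (List.map_id u)).trans (List.map_id _)
  have hb' := List.mem_flatten.2 ⟨u, hu, hb⟩
  refine Finset.eq_of_subset_of_card_le (fun _ hi => ?_)
    (Finset.card_image_of_injective _ w.injective).ge
  obtain ⟨i, hj, rfl⟩ := Finset.mem_image.1 hi
  obtain ⟨-, a, ha, h1, h2⟩ := (mdat_cl L.2.1 m).1 (hw i)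
  exact L.2.1.part.uniq ha hb' h2 hj ▸ h1

theorem inv_of_Cc {φ : MC I} (h : φ ∈ Cc col p) (L : Wx col th k) : (L.dat m).Inv (φ L.1) :=
  fun w hw => (h.2 w (fun i => (hw i).1.1) L.1).symm.trans (congrArg φ (rlb_of_W hw))

/-- the real weight has the same signs as the integer weight -/
def Sgn (col : I → Fin 3) (θ : (Fin 3 → ℕ) → ℝ) (th : Fin 3 → ℤ) : Prop :=
  ∀ F : Finset I, (0 < θ (dvec col F) ↔ 0 < ∑ j ∈ F, th (col j)) ∧
    (θ (dvec col F) = 0 ↔ ∑ j ∈ F, th (col j) = 0)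

variable {θ : (Fin 3 → ℕ) → ℝ} {o : I → ℕ}

omit [DecidableEq I] in
theorem Sgn.cm (h : Sgn col θ th) {ℓ : ℕ} {L : List (List (Finset I))} :
    Cm col θ k ℓ L ↔ (Adm col th L ∧ L.length = k) ∧ L.flatten.length = ℓ :=
  ⟨fun e => ⟨⟨⟨⟨fun b hb => (e.cmp.1 b hb).1, e.cmp.2⟩, e.ne,
    fun b hb => (h b).2.1 (e.cmp.1 b hb).2⟩, e.len⟩, e.tot⟩, fun e => ⟨e.1.2, e.1.1.ne,
      ⟨fun b hb => ⟨e.1.1.part.1 b hb, (h b).2.2 (e.1.1.bal b hb)⟩, e.1.1.part.2⟩, e.2⟩⟩

theorem deg_iff (hk : 0 < k) (L : Wx col th k) :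
    (shT col th k).deg L = c ↔ L.1.flatten.length = c + 1 := by
  have := L.2.1.len_le
  rw [L.2.2] at this
  change L.1.flatten.length - 1 = c ↔ _
  omega

theorem bcT_col : (bcT col th k m).col c = (((actT col th k m).act (actT col th k m).inv_top
    (actT col th k m).inv_bot).col c).inv := Bc.Act.inv_col _ _

theorem mem_colZ {j : ℤ} {y : (dgT col th k m).T} : y ∈ ((bcT col th k m).col c).Z j ↔
    y ∈ ((sdT col th k m).bc.col c).Z j ∧ y ∈ Fix (actT col th k m).r := by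
  rw [bcT_col]
  exact ⟨fun h => ⟨⟨h.1.1, h.2⟩, h.1.2⟩, fun h => ⟨⟨h.1.1, h.2⟩, h.1.2⟩⟩

theorem mem_colB {j : ℤ} {y : (dgT col th k m).T} (h : y ∈ ((bcT col th k m).col c).Z j) :
    y ∈ ((bcT col th k m).col c).B j ↔ ∀ L : Wx col th k, (shT col th k).deg L = c →
      y L ∈ (CC (L.dat m).XS).B j := by
  have h1 := Dg.mem_col_Z.1 (mem_colZ.1 h).1
  constructor
  · intro e L hL
    have := ((Bc.Act.mor_inc _).col c).mem_B h.1 e
    rw [add_zero] at this
    exact (Dg.mem_col_B.1 this L).1 hL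
  · intro e
    rw [bcT_col] at h ⊢
    refine Cx.Act.inj _ j y h ?_
    rw [add_zero]
    exact Dg.mem_col_B.2 fun L => ⟨e L, fun k => by
      rw [LinearMap.id_apply, (h1 L).2 k]; exact zero_mem _⟩

theorem evT_δ {φ : MC I} {y : (dgT col th k m).T} (h : (φ, y) ∈ evT col th k m c p) :
    (dL φ, (bcT col th k m).δ y) ∈ evT col th k m (c + 1) p := fun L hL => by
  have h1 : (∑ K : Wx col th k, (shT col th k).ε L K • φ K.1,
      mat (shT col th k).ε (@(dgT col th k m).sys.pl) y L) ∈ (L.dat m).EvC p :=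
    ev_mat (R := (shT col th k).rel) _ L fun K e => by
      obtain ⟨r, hd⟩ := (shT col th k).sup L K e
      refine ⟨r, ?_⟩
      change (_, AS.pull ((dgT col th k m).mp r) (y K)) ∈ _
      rw [dgT_mp]
      exact (relMor r m).evC' rfl (h K (by omega))
  have h2 := AS.s_of_G h1.2.1.1.1
  rw [pow_mul, neg_one_sq, one_pow, one_smul] at h2
  exact (congrArg (· ∈ (L.dat m).EvC p) (Prod.ext (cobM_sum L φ) h2)).mpr h1

/-- the hypotheses under which the first page is known up to degree `n` -/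
structure Big (col : I → Fin 3) (θ : (Fin 3 → ℕ) → ℝ) (th : Fin 3 → ℤ) (o : I → ℕ) (n m : ℕ) :
    Prop where
  sg : Sgn col θ th
  ho : ∀ k l, col k = col l → o k = o l → k = l
  hm : ∀ p ≤ n, mG (Fintype.card I) p ≤ m

omit [DecidableEq I] in
theorem Big.mono (h : Big col θ th o n m) (e : m ≤ m') : Big col θ th o n m' :=
  ⟨h.sg, h.ho, fun p hp => (h.hm p hp).trans e⟩

/-- the model of the first page -/
def mdlT (H : Big col θ th o n m) (hk : 0 < k) : Mdl (bcT col th k m) (MC I) n where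
  b := dL
  C := Cc col
  R c := NlW col θ o k (c + 1)
  ev := evT col th k m
  bC _ _ := dL_Cc
  b0 φ L h := by
    rw [dL_apply, (cobM_nat L).eq_zero fun K e => by
      have := e.fc.length
      have := h.tot
      omega]
    exact (RelI col θ o _).zero_mem
  ex c p φ h := by
    classical
    choose y hy using fun L : Wx col th k => Dat.exists_evC (inv_of_Cc (m := m) h L) (h.1 L.1)
    let y0 : (dgT col th k m).T := fun L => if (shT col th k).deg L = c then y L else 0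
    have h1 : (φ, y0) ∈ evT col th k m c p := fun L e => by
      change (_, if _ then _ else _) ∈ _
      rw [if_pos e]
      exact hy L
    have h2 : y0 ∈ ((sdT col th k m).bc.col c).Z (2 * p : ℕ) :=
      Dg.mem_col_Z.2 fun L => ⟨fun e => (h1 L e).2.1, fun e => if_neg e⟩
    refine ⟨_, ?_, avg_of_mem (mem_Cc.1 h).2 ▸ evT_avg h1⟩
    rw [bcT_col]
    simpa using (Cx.Act.mor_avg _).mem_Z h2
  su c p y h := by
    classical
    have h1 := Dg.mem_col_Z.1 (mem_colZ.1 h).1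
    have : ∀ L : Wx col th k, ∃ ψ : MvPolynomial I ℂ, ψ.IsHomogeneous p ∧
        ((shT col th k).deg L = c → (ψ, y L) ∈ (L.dat m).EvC p) := fun L => by
      by_cases e : (shT col th k).deg L = c
      · exact (Dat.exists_evC' ((h1 L).1 e)).imp fun _ a => ⟨a.1, fun _ => a.2⟩
      · exact ⟨0, isHomogeneous_zero _ _ _, fun a => absurd a e⟩
    choose ψ h2 h3 using this
    let φ : MC I := fun L => if e : Adm col th L ∧ L.length = k then ψ ⟨L, e⟩ else 0
    have h4 : (φ, y) ∈ evT col th k m c p := fun L e => by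
      change (dite _ _ _, _) ∈ _
      rw [dif_pos L.2]
      exact h3 L e
    have h5 : ∀ L, (φ L).IsHomogeneous p := fun L => by
      simp only [φ]
      split_ifs
      exacts [h2 _, isHomogeneous_zero _ _ _]
    refine ⟨_, mem_Cc.2 ⟨fun L => ?_, avg_mem φ⟩, avg_of_mem (mem_colZ.1 h).2 ▸ evT_avg h4⟩
    exact avg_mem_of (r := rhoW col) (x := φ)
      (U := (homogeneousSubmodule I ℂ p).comap (LinearMap.proj L : MC I →ₗ[ℂ] _))
      fun w => (h5 _).rename_isHomogeneous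
  ker c p hp φ h y hy e := by
    have key : ∀ L : Wx col th k, (shT col th k).deg L = c →
        (y L ∈ (CC (L.dat m).XS).B (2 * p : ℕ) ↔ Rel col θ o L.1.flatten (φ L.1)) := fun L hL =>
      (cl_eq_zero (e L hL).2.1).symm.trans ((iff_of_eq (congrArg (· = 0) (e L hL).2.2.symm)).trans
        (evD_iff_Rel L.2.1 (fun F => (H.sg F).1) H.ho (H.hm p hp) (e L hL).1 (h.1 _)))
    rw [mem_colB hy]
    exact ⟨fun a L hL => have b := (deg_iff hk ⟨L, (H.sg.cm.1 hL).1⟩).2 hL.tot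
      (key _ b).1 (a _ b), fun a L hL =>
        (key L hL).2 (a L.1 (H.sg.cm.2 ⟨L.2, (deg_iff hk L).1 hL⟩))⟩
  nul c p y hy e L hL :=
    have h1 := (Dg.mem_col_Z.1 (mem_colZ.1 hy).1 L).1 hL
    ⟨fun _ _ => map_zero _, h1, (map_zero _).trans
      ((cl_eq_zero h1).2 ((mem_colB hy).1 e L hL)).symm⟩
  evb _ _ _ _ _ _ := evT_δ
  odd c p y hy := (mem_colB hy).2 fun L hL =>
    (ac_iff _).2 (Dat.hr_odd _ (by exact_mod_cast odd_two_mul_add_one p))
      ((Dg.mem_col_Z.1 (mem_colZ.1 hy).1 L).1 hL)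
  e2a := Bc.Act.e2a _ (sdT col th k m).e2a
  e2b := Bc.Act.e2b _ (sdT col th k m).e2b

theorem mdlT_Z (H : Big col θ th o n m) (hk : 0 < k) :
    (mdlT H hk).Z c p = Zk col θ o k (c + 1) p := rfl

theorem mdlT_Bd (H : Big col θ th o n m) (hk : 0 < k) :
    (mdlT H hk).Bd c p = Bk col θ o k (c + 1) p := rfl

theorem evT_hom {A : WOp col th k k'} {e : ℕ → Fin m ↪ Fin m'} (he : A.Fr e) {φ : MC I}
    {y : (dgT col th k' m').T} (h : (φ, y) ∈ evT col th k' m' c p) :
    (lin A.nat φ, (WOp.hom he).map y) ∈ evT col th k m c p := fun L hL => by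
  have h1 : (∑ K : Wx col th k', A.sh.μ L K • φ K.1,
      mat A.sh.μ (@(WOp.hom he).sys.g) y L) ∈ (L.dat m).EvC p :=
    ev_mat (R := A.sh.R) _ L fun K a => ⟨(A.sh.sup L K a).1,
      (WOp.mor he (A.sh.sup L K a).1).evC' rfl (h K ((A.sh.sup L K a).2.symm.trans hL))⟩
  exact (congrArg (fun a => (a, (WOp.hom he).map y L) ∈ (L.dat m).EvC p) (A.sum L φ)).mpr h1

theorem WOp.lead {A : WOp col th k k'} {e : ℕ → Fin m ↪ Fin m'} (he : A.Fr e)
    (H : Big col θ th o n m) (hk : 0 < k) (H' : Big col θ th o n m') (hk' : 0 < k') {φ : MC I}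
    {x : (dgT col th k' m').T} (h : (mdlT H' hk').Lead c p φ x) (hc : lin A.nat φ ∈ Cc col p) :
    (mdlT H hk).Lead c p (lin A.nat φ) ((WOp.hom he).map x) := by
  exact h.map (q := 0) (WOp.bmor he) rfl hc (evT_hom he h.e)

theorem lead_KT (H : Big col θ th o n m) (hk : 0 < k) (h : 2 * m ≤ m') {j : ℕ} (hj : j ≤ n)
    (c p : ℕ) (e : j = c + 2 * p) (x : (bcT col th k m').cx.Z j) (φ : MC I)
    (a : (mdlT (H.mono (by omega : m ≤ m')) hk).Lead c p φ x.1)
    (b : (bcT col th k m').cx.cls j x ∈ KT col th k h j) : φ ∈ Kk col θ o k (c + 1) p := by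
  have hp : p ≤ n := by omega
  have e' : (j : ℤ) = c + (2 * p : ℕ) := by omega
  rw [mem_KT] at b
  refine (mem_Kk _ _ _).2 ⟨a.mem_Z hp, ?_, fun i hi => ?_⟩
  · exact (WOp.lead (fr_S h) H k.succ_pos _ hk a (sL_Cc a.m)).bd_of_B hp (e' ▸ b.1)
  · exact ((WOp.lead (fr_T i) _ hk _ hk a (tL_Cc i a.m)).sub a).bd_of_B hp (e' ▸ b.2 i hi)

/-- the graded pieces of the symmetric primitive classes are bounded by the algebraic ones -/
theorem KT_le (H : Big col θ th o n m) (hk : 0 < k) (h : 2 * m ≤ m') {j : ℕ} (hj : j ≤ n) :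
    Module.Finite ℂ (KT col th k h j) ∧ (Module.finrank ℂ (KT col th k h j) =
      ∑ c ∈ Finset.range (j + 1), grd ((bcT col th k m').W j) (KT col th k h j) c) ∧
    ∀ c ≤ j, grd ((bcT col th k m').W j) (KT col th k h j) c ≤
      par (fun c p => ak col θ o k (c + 1) p) j c :=
  have hQ : ∀ c p, Module.Finite ℂ ((Kk col θ o k (c + 1) p).map
      ((mdlT (H.mono (by omega : m ≤ m')) hk).Bd c p).mkQ) :=
    fun _ _ => cc_fin _ _ _ _ fun _ a => a.1.1.1
  have h1 := Mdl.finrank_le _ hj _ _ hQ (lead_KT H hk h hj)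
  ⟨h1.1, h1.2, fun _ hc => (Mdl.gr_le_par _ hj _ _ hQ (lead_KT H hk h hj) hc).2⟩

theorem finite_T (H : Big col θ th o n m) {j : ℕ} (hj : j ≤ n) :
    Module.Finite ℂ ((bcT col th 1 m).cx.H j) ∧ ∑ c ∈ Finset.range (j + 1),
      par (fun c p => xt col θ o (c + 1) p) j c ≤ Module.finrank ℂ ((bcT col th 1 m).cx.H j) :=
  (mdlT H one_pos).finite_H hj fun _ _ => cc_fin _ _ _ _ fun _ a => a.1

end Pool.Agent.CS
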