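import Pool.Agent.K.MP_d34769_ag.C72
import Pool.Agent.K.MP_d34769_ag.C26

-- part Pool.Agent.P.MP_d34769_ag.YHE1
section

/-! The linear algebra of the dimension count. -/

open Module

noncomputable section
namespace Pool.Agent.CS
variable {H H' : Type} [AddCommGroup H] [Module ℂ H] [AddCommGroup H'] [Module ℂ H']

theorem he_count [Module.Finite ℂ H] [Module.Finite ℂ H'] (r : H →ₗ[ℂ] H') {K : Submodule ℂ H}
    (hK : LinearMap.ker r ≤ K) (s : Finset ℕ) {g a : ℕ → ℕ}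
    (h1 : finrank ℂ H' + ∑ c ∈ s, a c ≤ finrank ℂ H) (h2 : finrank ℂ K = ∑ c ∈ s, g c)
    (h3 : ∀ c ∈ s, g c ≤ a c) :
    Function.Surjective r ∧ LinearMap.ker r = K ∧ ∀ c ∈ s, g c = a c := by
  have e1 := r.finrank_range_add_finrank_ker
  have e2 := Submodule.finrank_mono hK
  have e3 := Finset.sum_le_sum h3
  have e4 := (LinearMap.range r).finrank_le
  exact ⟨LinearMap.range_eq_top.1 (Submodule.eq_top_of_finrank_eq (by omega)),
    Submodule.eq_of_le_of_finrank_eq hK (by omega), (Finset.sum_eq_sum_iff_of_le h3).1 (by omega)⟩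

theorem grd_map {W : ℕ → Submodule ℂ H} {W' : ℕ → Submodule ℂ H'} (f : H →ₗ[ℂ] H')
    (h : ∀ c a, f a ∈ W' c ↔ a ∈ W c) (K : Submodule ℂ H) [Module.Finite ℂ K] (c : ℕ) :
    grd W' (K.map f) c = grd W K c := by
  have f1 : Module.Finite ℂ ↥(K ⊓ W c) := Submodule.finiteDimensional_inf_left _ _
  have f2 : Module.Finite ℂ ↥(K.map f ⊓ W' c) := Submodule.finiteDimensional_inf_left _ _
  refine le_antisymm
    (rel_le (Q := K ⊓ W c) (f.graph.comap (LinearEquiv.prodComm ℂ _ _).toLinearMap) ?_ ?_).2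
    (rel_le (P := K ⊓ W c) (Q := K.map f ⊓ W' c) f.graph
      (fun a ha => ⟨f a, ⟨⟨a, ha.1, rfl⟩, (h c a).2 ha.2⟩, rfl⟩) ?_).2
  · rintro _ ⟨⟨a, ha, rfl⟩, e⟩
    exact ⟨a, ⟨ha, (h c a).1 e⟩, rfl⟩
  · rintro _ a (rfl : _ = f a) e
    exact (h _ a).2 e
  · rintro a _ (rfl : _ = f a) e
    exact (h _ a).1 e

theorem par_sum_le {κ : Type} (s : Finset κ) {a : κ → ℕ → ℕ → ℕ} {e : ℕ → ℕ → ℕ}
    (h : ∀ c p, ∑ k ∈ s, a k c p ≤ e c p) (j c : ℕ) : ∑ k ∈ s, par (a k) j c ≤ par e j c := by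
  unfold par
  split_ifs
  · exact h _ _
  · simp

theorem par_even (a : ℕ → ℕ → ℕ) (c p : ℕ) : par a (2 * p + c) c = a c p := by
  simp [par]

theorem SC.finrank_chain {B T : Type} [TopologicalSpace B] [AddCommGroup T] [Module ℂ T]
    (S : SC B T) {N : ℕ → Set B} (hN : Antitone N) (j : ℤ) (b : ℕ → ℕ) {e : ℕ} (he : N (e + 1) = ∅)
    (i : ℕ) : ∀ a, a + i = e + 1 → (∀ k, a ≤ k → Module.Finite ℂ ((S.cx (N k) (N (k + 1))).H j) ∧
      finrank ℂ ((S.cx (N k) (N (k + 1))).H j) ≤ b k) → Module.Finite ℂ ((S.cx (N a) ∅).H j) ∧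
        finrank ℂ ((S.cx (N a) ∅).H j) ≤ ∑ k ∈ Finset.Icc a e, b k := by
  induction i with
  | zero =>
    rintro a (rfl : a = e + 1) -
    have : Subsingleton ((S.cx (N (e + 1)) ∅).H j) := subsingleton_of_forall_eq 0 fun x => by
      obtain ⟨x, rfl⟩ := Cx.cls_surj j x
      exact Cx.cls_eq_zero.2 (Cx.N_le_B (S.mem_zz.2 (by simp [he])))
    exact ⟨inferInstance, by rw [finrank_zero_of_subsingleton]; exact Nat.zero_le _⟩
  | succ i ih =>
    intro a ha h
    obtain ⟨f1, g1⟩ := ih (a + 1) (by omega) fun k hk => h k (by omega)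
    obtain ⟨f2, g2⟩ := h a le_rfl
    rw [← SC.cx_quo (hN a.le_succ) ∅] at f1 g1
    rw [← Set.empty_union (N (a + 1)), ← SC.cx_sub] at f2 g2
    obtain ⟨f3, g3⟩ := Cx.finrank_les (C := S.cx (N a) ∅) (n := j) (SC.zz_d (N (a + 1)))
      (SC.zz_anti (hN a.le_succ))
    refine ⟨f3, g3.trans ?_⟩
    rw [← Finset.insert_Icc_add_one_left_eq_Icc (by omega), Finset.sum_insert (by simp)]
    exact Nat.add_le_add g2 g1

end Pool.Agent.CS
end
end

-- part Pool.Agent.P.MP_d34769_ag.YP1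
section

/-! Products of diagrams. -/

open Set

noncomputable section
namespace Pool.Agent.CS

/-- every index is related to itself -/
def Sh.Refl (S : Sh) : Prop := ∀ i, S.rel i i

theorem Sh.ε_self (S : Sh) (i : S.ι) : S.ε i i = 0 := by
  by_contra h
  have := (S.sup i i h).2
  omega

theorem Sh.sgn_ε (S : Sh) (a : ℕ) (i j : S.ι) :
    S.ε i j * (-1) ^ (S.deg j + a) = -((-1) ^ (S.deg i + a) * S.ε i j) := by
  by_cases h : S.ε i j = 0
  · simp [h]
  · rw [(S.sup i j h).2]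
    ring

open Classical in
/-- The product of two shapes, with the degrees shifted by `a`. -/
def Sh.prod (S S' : Sh) (hS : S.Refl) (hS' : S'.Refl) (a : ℕ) : Sh where
  ι := S.ι × S'.ι
  deg p := S.deg p.1 + S'.deg p.2 + a
  rel p q := S.rel p.1 q.1 ∧ S'.rel p.2 q.2
  ε p q := (if p.2 = q.2 then S.ε p.1 q.1 else 0) +
    if p.1 = q.1 then (-1) ^ (S.deg p.1 + a) * S'.ε p.2 q.2 else 0
  sup := by
    rintro ⟨i, j⟩ ⟨i', j'⟩ h
    dsimp only at h ⊢
    by_cases e : i = i'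
    · subst e
      rw [S.ε_self, ite_self, zero_add, if_pos rfl] at h
      obtain ⟨h1, h2⟩ := S'.sup j j' (right_ne_zero_of_mul h)
      exact ⟨⟨hS i, h1⟩, by omega⟩
    · rw [if_neg e, add_zero] at h
      by_cases e' : j = j'
      · subst e'
        rw [if_pos rfl] at h
        obtain ⟨h1, h2⟩ := S.sup i i' h
        exact ⟨⟨h1, hS' j⟩, by omega⟩
      · exact absurd (if_neg e') h
  trans h h' := ⟨S.trans h.1 h'.1, S'.trans h.2 h'.2⟩
  εε := by
    rintro ⟨i, j⟩ ⟨k, l⟩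
    simp only [Fintype.sum_prod_type, add_mul, mul_add, Finset.sum_add_distrib]
    simp only [ite_mul, mul_ite, zero_mul, mul_zero]
    have h1 : ∑ x, ∑ y, (if y = l then if j = y then S.ε i x * S.ε x k else 0 else 0) = 0 := by
      simp [S.εε]
    have h2 : ∑ x, ∑ y, (if y = l then if i = x then
        (-1) ^ (S.deg i + a) * S'.ε j y * S.ε x k else 0 else 0) =
        (-1) ^ (S.deg i + a) * S'.ε j l * S.ε i k := by simp
    have h3 : ∑ x, ∑ y, (if x = k then if j = y then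
        S.ε i x * ((-1) ^ (S.deg x + a) * S'.ε y l) else 0 else 0) =
        S.ε i k * ((-1) ^ (S.deg k + a) * S'.ε j l) := by
      rw [Finset.sum_comm]; simp
    have h4 : ∑ x, ∑ y, (if x = k then if i = x then (-1) ^ (S.deg i + a) * S'.ε j y *
        ((-1) ^ (S.deg x + a) * S'.ε y l) else 0 else 0) = 0 := by
      rw [Finset.sum_comm]
      by_cases e : i = k
      · subst e
        simp only [Finset.sum_ite_eq', Finset.mem_univ, if_true]
        rw [Finset.sum_congr rfl fun y _ => mul_mul_mul_comm _ _ _ _, ← Finset.mul_sum, S'.εε,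
          mul_zero]
      · simp [e]
    rw [h1, h2, h3, h4, ← mul_assoc, S.sgn_ε]
    ring

namespace Dg
variable {S S' : Sh} {hS : S.Refl} {hS' : S'.Refl} {a : ℕ}

/-- the maps from an index to itself are identities -/
def Id (P : Dg S) : Prop := ∀ i (h : S.rel i i) x, P.mp h x = x

/-- The product of two diagrams. -/
def prod (P : Dg S) (Q : Dg S') (hS : S.Refl) (hS' : S'.Refl) (a : ℕ) :
    Dg (S.prod S' hS hS' a) where
  X p := P.X p.1 × Q.X p.2
  mp h := (P.mp h.1).prodMap (Q.mp h.2)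
  comp h h' x := Prod.ext (P.comp h.1 h'.1 x.1) (Q.comp h.2 h'.2 x.2)

/-- the identity between the spaces at equal indices -/
def castM (P : Dg S) {i j : S.ι} (e : i = j) : C(P.X i, P.X j) :=
  ⟨cast (congrArg P.X e), by subst e; exact continuous_id⟩

variable {P : Dg S} {Q : Dg S'}

/-- the product of two families -/
def Fam.prod (K : P.Fam) (L : Q.Fam) : (P.prod Q hS hS' a).Fam where
  A p := K.A p.1 ×ˢ L.A p.2
  mp h _ hx := ⟨K.mp h.1 hx.1, L.mp h.2 hx.2⟩

theorem Fam.Cl.prod {K : P.Fam} {L : Q.Fam} (h : K.Cl) (h' : L.Cl) :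
    (K.prod L : (P.prod Q hS hS' a).Fam).Cl := fun p => (h p.1).prod (h' p.2)

theorem Fam.top_prod : ((⊤ : P.Fam).prod ⊤ : (P.prod Q hS hS' a).Fam) = ⊤ :=
  Fam.ext (funext fun _ => univ_prod_univ)

theorem Fam.bot_prod (L : Q.Fam) : ((⊥ : P.Fam).prod L : (P.prod Q hS hS' a).Fam) = ⊥ :=
  Fam.ext (funext fun _ => empty_prod)

variable {Γ : Type} [Group Γ]

open Classical in
/-- the action on the product through the first factor -/
def Act.lft (G : Act P Γ) (Q : Dg S') (hS : S.Refl) (hS' : S'.Refl) (a : ℕ) :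
    Act (P.prod Q hS hS' a) Γ where
  a :=
    { toFun := fun g => (G.a g).prodCongr (Equiv.refl _)
      map_one' := by rw [map_one]; rfl
      map_mul' := fun g g' => by rw [map_mul]; rfl }
  s g p := G.s g p.1
  t g p q e := (G.t g (congrArg Prod.fst e :)).prodMap (Q.castM (congrArg Prod.snd e :))
  deg g p := congrArg (· + S'.deg p.2 + a) (G.deg g p.1)
  ε g p q := by
    show (G.s g p.1 : ℤ) * ((if p.2 = q.2 then S.ε (G.a g p.1) (G.a g q.1) else 0) +
      if G.a g p.1 = G.a g q.1 then (-1) ^ (S.deg (G.a g p.1) + a) * S'.ε p.2 q.2 else 0) =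
      ((if p.2 = q.2 then S.ε p.1 q.1 else 0) +
        if p.1 = q.1 then (-1) ^ (S.deg p.1 + a) * S'.ε p.2 q.2 else 0) * G.s g q.1
    simp only [mul_add, add_mul, mul_ite, ite_mul, mul_zero, zero_mul, G.ε, G.deg,
      EmbeddingLike.apply_eq_iff_eq]
    congr 1
    split_ifs with e
    · rw [e, mul_comm]
    · rfl
  s_mul g g' p := G.s_mul g g' p.1
  t_one h x := Prod.ext (G.t_one _ x.1) rfl
  t_mul g g' _ _ _ h' h h'' x := Prod.ext (G.t_mul g g' _ _ _ x.1) (cast_cast _ _ _)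
  t_mp g p q p' q' h h' e e' x := by
    subst e e'
    exact Prod.ext (G.t_mp g h.1 h'.1 _ _ x.1) rfl

open Classical in
/-- the action on the product through the second factor -/
def Act.rgt (G : Act Q Γ) (P : Dg S) (hS : S.Refl) (hS' : S'.Refl) (a : ℕ) :
    Act (P.prod Q hS hS' a) Γ where
  a :=
    { toFun := fun g => (Equiv.refl _).prodCongr (G.a g)
      map_one' := by rw [map_one]; rfl
      map_mul' := fun g g' => by rw [map_mul]; rfl }
  s g p := G.s g p.2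
  t g p q e := (P.castM (congrArg Prod.fst e :)).prodMap (G.t g (congrArg Prod.snd e :))
  deg g p := congrArg (S.deg p.1 + · + a) (G.deg g p.2)
  ε g p q := by
    show (G.s g p.2 : ℤ) * ((if G.a g p.2 = G.a g q.2 then S.ε p.1 q.1 else 0) +
      if p.1 = q.1 then (-1) ^ (S.deg p.1 + a) * S'.ε (G.a g p.2) (G.a g q.2) else 0) =
      ((if p.2 = q.2 then S.ε p.1 q.1 else 0) +
        if p.1 = q.1 then (-1) ^ (S.deg p.1 + a) * S'.ε p.2 q.2 else 0) * G.s g q.2
    simp only [mul_add, add_mul, mul_ite, ite_mul, mul_zero, zero_mul,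
      EmbeddingLike.apply_eq_iff_eq]
    congr 1
    · split_ifs with e
      · rw [e, mul_comm]
      · rfl
    · split_ifs
      · rw [mul_left_comm, G.ε, mul_assoc]
      · rfl
  s_mul g g' p := G.s_mul g g' p.2
  t_one h x := Prod.ext rfl (G.t_one _ x.2)
  t_mul g g' _ _ _ h' h h'' x := Prod.ext (cast_cast _ _ _) (G.t_mul g g' _ _ _ x.2)
  t_mp g p q p' q' h h' e e' x := by
    subst e e'
    exact Prod.ext rfl (G.t_mp g h.2 h'.2 _ _ x.2)

theorem Act.mem_fix_lft (G : Act P Γ) {w : (P.prod Q hS hS' a).T} :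
    w ∈ Fix (G.lft Q hS hS' a).r ↔ ∀ g {i i'} (e : G.a g i = i') j, w (i, j) =
      ((G.s g i : ℤ) : ℂ) • AS.pull (Prod.map (G.t g e) id : P.X i × Q.X j → P.X i' × Q.X j)
        (w (i', j)) := by
  rw [Act.mem_fix]
  refine ⟨fun h g i i' e j => h g (i := (i, j)) (j := (i', j)) (Prod.ext e rfl), ?_⟩
  rintro h g ⟨i, j⟩ ⟨i', j'⟩ e
  obtain rfl : j = j' := (congrArg Prod.snd e :)
  exact h g (congrArg Prod.fst e :) j

theorem Act.mem_fix_rgt (G : Act Q Γ) {w : (P.prod Q hS hS' a).T} :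
    w ∈ Fix (G.rgt P hS hS' a).r ↔ ∀ g {j j'} (e : G.a g j = j') i, w (i, j) =
      ((G.s g j : ℤ) : ℂ) • AS.pull (Prod.map id (G.t g e) : P.X i × Q.X j → P.X i × Q.X j')
        (w (i, j')) := by
  rw [Act.mem_fix]
  refine ⟨fun h g j j' e i => h g (i := (i, j)) (j := (i, j')) (Prod.ext rfl e), ?_⟩
  rintro h g ⟨i, j⟩ ⟨i', j'⟩ e
  obtain rfl : i = i' := (congrArg Prod.fst e :)
  exact h g (congrArg Prod.snd e :) i

theorem Act.inv_lft (G : Act P Γ) {K : P.Fam} (h : G.Inv K) (L : Q.Fam) :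
    (G.lft Q hS hS' a).Inv (K.prod L) := by
  rintro g ⟨i, j⟩ ⟨i', j'⟩ e x hx
  obtain rfl : j = j' := (congrArg Prod.snd e :)
  exact ⟨h g (congrArg Prod.fst e :) hx.1, hx.2⟩

theorem Act.inv_rgt (G : Act Q Γ) (K : P.Fam) {L : Q.Fam} (h : G.Inv L) :
    (G.rgt P hS hS' a).Inv (K.prod L) := by
  rintro g ⟨i, j⟩ ⟨i', j'⟩ e x hx
  obtain rfl : i = i' := (congrArg Prod.fst e :)
  exact ⟨hx.1, h g (congrArg Prod.snd e :) hx.2⟩

/-- the cross product with a cochain `c` of total degree `q` -/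
def cross (P : Dg S) (hS : S.Refl) (hS' : S'.Refl) (a q : ℕ) (c : Q.T) :
    P.T →ₗ[ℂ] (P.prod Q hS hS' a).T :=
  LinearMap.pi fun p => (-1 : ℂ) ^ (q * S.deg p.1 + (S.deg p.1 + a) * S'.deg p.2) •
    LinearMap.mulRight ℂ (AS.pull (Prod.snd : P.X p.1 × Q.X p.2 → _) (c p.2)) ∘ₗ
      AS.pl (Prod.fst : P.X p.1 × Q.X p.2 → _) ∘ₗ LinearMap.proj p.1

theorem cross_apply (q : ℕ) (c : Q.T) (x : P.T) (i : S.ι) (j : S'.ι) :
    cross P hS hS' a q c x (i, j) = (-1 : ℂ) ^ (q * S.deg i + (S.deg i + a) * S'.deg j) •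
      (AS.pull (Prod.fst : P.X i × Q.X j → _) (x i) *
        AS.pull (Prod.snd : P.X i × Q.X j → _) (c j)) := rfl

end Dg

end Pool.Agent.CS
end
end
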