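import Pool.Agent.K.MP_d34769_ag.C25

/-! Sums of shifted copies, total complexes as graded complexes, bases of the cohomology. -/

open Pool.Agent.HT (BG)

noncomputable section
namespace Pool.Agent.CS

section cw
variable {V : Type} [AddCommGroup V] [Module ℂ V] {β : Type}

/-- an operator on every coordinate -/
def cw (f : β → Module.End ℂ V) : Module.End ℂ (β →₀ V) :=
  Finsupp.lsum ℂ fun b => Finsupp.lsingle b ∘ₗ f b

theorem cw_apply (f : β → Module.End ℂ V) (u : β →₀ V) (b : β) : cw f u b = f b (u b) := by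
  classical
  rw [cw, Finsupp.lsum_apply, Finsupp.sum, Finsupp.finsetSum_apply, Finset.sum_eq_single b]
  · exact Finsupp.single_eq_same
  · exact fun c _ h => Finsupp.single_eq_of_ne h.symm
  · intro h
    rw [Finsupp.notMem_support_iff.1 h, map_zero, Finsupp.zero_apply]

/-- a submodule in every coordinate -/
def fsub (β : Type) (U : Submodule ℂ V) : Submodule ℂ (β →₀ V) := ⨅ b, U.comap (Finsupp.lapply b)

theorem mem_fsub {U : Submodule ℂ V} {u : β →₀ V} : u ∈ fsub β U ↔ ∀ b, u b ∈ U :=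
  Submodule.mem_iInf _

namespace Gc
variable (A : Gc V)

/-- the projection to the degree `n - k` -/
def sh (k n : ℕ) : Module.End ℂ V := if k ≤ n then A.e (n - k) else 0

theorem sh_add (k m : ℕ) : A.sh k (k + m) = A.e m := by
  rw [sh, if_pos (Nat.le_add_right k m), Nat.add_sub_cancel_left]

theorem sh_lt {k n : ℕ} (h : n < k) : A.sh k n = 0 := if_neg (not_le.2 h)

theorem sh_G {k : ℕ} {n : ℤ} {x : V} :
    (∀ m : ℕ, (m : ℤ) ≠ n → A.sh k m x = 0) ↔ x ∈ A.G (n - k) := by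
  rw [mem_G]
  refine ⟨fun h m e => A.sh_add k m ▸ h _ (by push_cast; omega), fun h m e => ?_⟩
  rcases lt_or_ge m k with l | l
  · rw [A.sh_lt l]; rfl
  · obtain ⟨m, rfl⟩ := Nat.exists_eq_add_of_le l
    rw [sh_add]
    exact h m (by push_cast at e; omega)

theorem sh_mem {U : Submodule ℂ V} (h : ∀ n, ∀ x ∈ U, A.e n x ∈ U) (k n : ℕ) :
    ∀ x ∈ U, A.sh k n x ∈ U := fun x hx => by
  unfold sh
  split_ifs
  exacts [h _ x hx, U.zero_mem]

theorem sh_map {V' : Type} [AddCommGroup V'] [Module ℂ V'] {A' : Gc V'} {f : V →ₗ[ℂ] V'}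
    (h : ∀ n x, f (A.e n x) = A'.e n (f x)) (k n : ℕ) (x : V) :
    f (A.sh k n x) = A'.sh k n (f x) := by
  unfold sh
  split_ifs
  exacts [h _ x, map_zero f]

theorem sh_s (k n : ℕ) (x : V) :
    A.sh k n ((-1 : ℂ) ^ k • A.s x) = (-1 : ℂ) ^ n • A.sh k n x := by
  rcases lt_or_ge n k with l | l
  · rw [A.sh_lt l]; simp
  · obtain ⟨m, rfl⟩ := Nat.exists_eq_add_of_le l
    rw [sh_add, map_smul, A.es, smul_smul, pow_add]

theorem s_of_G {n : ℕ} {x : V} (h : x ∈ A.G n) : A.s x = (-1 : ℂ) ^ n • x := A.ext' fun m => by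
  rw [A.es, map_smul]
  by_cases e : m = n
  · rw [e]
  · rw [mem_G.1 h m (by omega), smul_zero, smul_zero]

theorem s_mem_G {n : ℤ} {x : V} (h : x ∈ A.G n) : A.s x ∈ A.G n :=
  mem_G.2 fun m e => by rw [A.es, mem_G.1 h m e, smul_zero]

/-- the sum of shifted copies -/
def fs (β : Type) (q : β → ℕ) : Gc (β →₀ V) where
  d := Finsupp.mapRange.linearMap A.d
  e n := cw fun b => A.sh (q b) n
  s := cw fun b => (-1 : ℂ) ^ q b • A.s
  ee n x := Finsupp.ext fun b => by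
    simp only [cw_apply, sh]
    split_ifs
    exacts [A.ee _ _, rfl]
  ee' n m x h := Finsupp.ext fun b => by
    simp only [cw_apply, sh]
    split_ifs
    exacts [A.ee' _ _ _ (by omega), map_zero _, rfl, rfl]
  ext x h := Finsupp.ext fun b => A.ext _ fun m => by
    have := DFunLike.congr_fun (h (q b + m)) b
    rwa [cw_apply, sh_add] at this
  ed n x := Finsupp.ext fun b => by
    show cw _ _ b = A.d (cw _ x b)
    rw [cw_apply, cw_apply]
    show A.sh _ _ (A.d (x b)) = _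
    rcases lt_trichotomy (q b) (n + 1) with l | l | l
    · obtain ⟨m, rfl⟩ := Nat.exists_eq_add_of_le (Nat.lt_succ_iff.1 l)
      rw [add_assoc, sh_add, sh_add, A.ed]
    · rw [show n + 1 = q b + 0 from l.symm, sh_add, A.ed0, A.sh_lt (by omega)]
      exact (map_zero _).symm
    · rw [A.sh_lt l, A.sh_lt (by omega)]
      exact (map_zero _).symm
  ed0 x := Finsupp.ext fun b => by
    rw [cw_apply]
    show A.sh _ _ (A.d (x b)) = 0
    unfold sh
    split_ifs
    · rw [Nat.zero_sub, A.ed0]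
    · rfl
  dd x := Finsupp.ext fun b => A.dd (x b)
  es n x := Finsupp.ext fun b => by
    rw [Finsupp.smul_apply, cw_apply, cw_apply, cw_apply]
    exact A.sh_s _ _ _

variable {A} {q : β → ℕ}

theorem mem_fs_G {n : ℤ} {u : β →₀ V} : u ∈ (A.fs β q).G n ↔ ∀ b, u b ∈ A.G (n - q b) := by
  simp only [mem_G (A := A.fs β q), ← sh_G]
  refine ⟨fun h b m e => ?_, fun h m e => Finsupp.ext fun b => ?_⟩
  · exact (cw_apply _ u b).symm.trans (DFunLike.congr_fun (h m e) b)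
  · exact (cw_apply _ u b).trans (h b m e)

theorem fs_e (n : ℕ) (u : β →₀ V) (b : β) : (A.fs β q).e n u b = A.sh (q b) n (u b) :=
  cw_apply _ u b

theorem fs_s (u : β →₀ V) (b : β) : (A.fs β q).s u b = (-1 : ℂ) ^ q b • A.s (u b) := cw_apply _ u b

end Gc

end cw

section sys
variable {S : Sh} {T : S.ι → Type} [∀ i, AddCommGroup (T i)] [∀ i, Module ℂ (T i)] (Y : Sys S T)

/-- the system of sums of shifted copies -/
def Sys.fs (β : Type) (q : β → ℕ) : Sys S fun i => β →₀ T i where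
  A i := (Y.A i).fs β q
  pl h := Finsupp.mapRange.linearMap (Y.pl h)
  pd h x := Finsupp.ext fun b => Y.pd h (x b)
  pe h n x := Finsupp.ext fun b => by
    rw [Gc.fs_e]
    exact (congrArg (Y.pl h) (Gc.fs_e n x b)).trans (Gc.sh_map _ (Y.pe h) _ _ _)
  pp h h' x := Finsupp.ext fun b => Y.pp h h' (x b)

theorem Sys.Stab.fs {Y : Sys S T} {U : ∀ i, Submodule ℂ (T i)} (h : Y.Stab U) (β : Type)
    (q : β → ℕ) : (Sys.fs Y β q).Stab fun i => fsub β (U i) where
  d i _ hx := mem_fsub.2 fun b => h.d i _ (mem_fsub.1 hx b)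
  e i n x hx := mem_fsub.2 fun b =>
    (Gc.fs_e n x b).symm ▸ Gc.sh_mem _ (h.e i) _ _ _ (mem_fsub.1 hx b)
  s i x hx := mem_fsub.2 fun b =>
    (Gc.fs_s x b).symm ▸ Submodule.smul_mem _ _ (h.s i _ (mem_fsub.1 hx b))
  pl r _ hx := mem_fsub.2 fun b => h.pl r _ (mem_fsub.1 hx b)

theorem Sys.tr_apply (n : ℕ) (c : ∀ i, T i) (i : S.ι) :
    Y.bg.tr n c i = (Y.A i).sh (S.deg i) n (c i) := by
  simp only [BG.tr, LinearMap.coe_sum, Finset.sum_apply, Sys.bg_e, Finset.sum_ite_eq,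
    Finset.mem_range, Gc.sh, Nat.lt_succ_iff]
  split_ifs <;> rfl

/-- the total complex as a graded complex -/
def Sys.tot : Gc (∀ i, T i) where
  d := Y.bg.D
  e := Y.bg.tr
  s := LinearMap.pi fun i => (-1 : ℂ) ^ S.deg i • (Y.A i).s ∘ₗ LinearMap.proj i
  ee n x := Y.bg.tr_of_mem (Y.bg.tr_mem n x)
  ee' n m x h := Y.bg.ext _ fun p k => by
    rw [BG.e_tr, BG.e_tr]
    split_ifs
    exacts [by omega, rfl, rfl]
  ext x h := Y.bg.ext _ fun p k => by
    have := Y.bg.e_tr (p + k) p k x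
    rw [h, map_zero, if_pos rfl] at this
    exact this.symm
  ed := Y.bg.tr_D
  ed0 := Y.bg.tr_D_zero
  dd x := by simp [BG.D_apply, Y.bg.dd, Y.bg.δδ, Y.bg.dδ]
  es n x := funext fun i => by
    rw [Pi.smul_apply, Sys.tr_apply, Sys.tr_apply]
    exact Gc.sh_s _ _ _ _

theorem Sys.tot_s (c : ∀ i, T i) (i : S.ι) :
    Y.tot.s c i = (-1 : ℂ) ^ S.deg i • (Y.A i).s (c i) := rfl

theorem Sys.tot_d (c : ∀ i, T i) (i : S.ι) :
    Y.tot.d c i = (Y.A i).d (c i) + (Y.A i).s (mat S.ε (@Y.pl) c i) := rfl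

theorem Sys.mem_tot_G {n : ℤ} {c : ∀ i, T i} :
    c ∈ Y.tot.G n ↔ ∀ i, c i ∈ (Y.A i).G (n - S.deg i) := by
  simp only [Gc.mem_G (A := Y.tot), ← Gc.sh_G]
  refine ⟨fun h i m e => ?_, fun h m e => funext fun i => ?_⟩
  · exact (Y.tr_apply m c i).symm.trans (congrFun (h m e) i)
  · exact (Y.tr_apply m c i).trans (h i m e)

end sys

namespace Cx
variable {T T' : Type} [AddCommGroup T] [Module ℂ T] [AddCommGroup T'] [Module ℂ T']
  {C : Cx T} {C' : Cx T'}

/-- an isomorphism of complexes -/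
structure Iso (C : Cx T) (C' : Cx T') (f : T →ₗ[ℂ] T') (s : ℤ) : Prop where
  sur : Function.Surjective f
  d : ∀ x, f (C.d x) = C'.d (f x)
  G : ∀ n x, f x ∈ C'.G (n + s) ↔ x ∈ C.G n
  N : ∀ x, f x ∈ C'.N ↔ x ∈ C.N

theorem Iso.Z {f : T →ₗ[ℂ] T'} {s n : ℤ} (h : Iso C C' f s) {x : T} :
    f x ∈ C'.Z (n + s) ↔ x ∈ C.Z n := by
  rw [mem_Z, mem_Z, h.G, ← h.d, h.N]

theorem Iso.B {f : T →ₗ[ℂ] T'} {s n : ℤ} (h : Iso C C' f s) {x : T} :
    f x ∈ C'.B (n + s) ↔ x ∈ C.B n := by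
  rw [mem_B, mem_B, show n + s - 1 = n - 1 + s by ring, h.sur.exists]
  simp only [h.G, ← h.d, ← map_sub, h.N]

/-- the classes of the `c b`, of degree `q b`, form a basis of the cohomology -/
structure Bas (C : Cx T) {β : Type} (q : β → ℕ) (c : β → T) : Prop where
  mem : ∀ b, c b ∈ C.Z (q b)
  span : ∀ n, ∀ y ∈ C.Z n, ∃ u : β →₀ ℂ, (∀ b ∈ u.support, (q b : ℤ) = n) ∧
    y - Finsupp.linearCombination ℂ c u ∈ C.B n
  ind : ∀ (n : ℤ) (u : β →₀ ℂ), (∀ b ∈ u.support, (q b : ℤ) = n) →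
    Finsupp.linearCombination ℂ c u ∈ C.B n → u = 0

theorem exists_bas (C : Cx T) (h : ∀ n < 0, C.Ac n) :
    ∃ (β : Type) (q : β → ℕ) (c : β → T), C.Bas q c := by
  classical
  let bs := fun n : ℕ => Module.Basis.ofVectorSpace ℂ (C.H n)
  choose r hr using fun (n : ℕ) i => cls_surj (C := C) n (bs n i)
  let c : (Σ n : ℕ, Module.Basis.ofVectorSpaceIndex ℂ (C.H n)) → T := fun b => (r b.1 b.2).1
  have k1 : ∀ n v, Finsupp.linearCombination ℂ c (Finsupp.mapDomain (Sigma.mk n) v) =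
      (Finsupp.linearCombination ℂ (r n) v).1 := fun n v => by
    rw [Finsupp.linearCombination_mapDomain]
    exact (Finsupp.apply_linearCombination ℂ (C.Z n).subtype (r n) v).symm
  have k2 : ∀ (n : ℕ) v, C.cls n (Finsupp.linearCombination ℂ (r n) v) =
      Finsupp.linearCombination ℂ (bs n) v := fun n v => by
    rw [Finsupp.apply_linearCombination, show C.cls n ∘ r n = bs n from funext (hr n)]
  refine ⟨_, Sigma.fst, c, fun b => (r b.1 b.2).2, fun n y hy => ?_, fun n u hu hb => ?_⟩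
  · rcases lt_or_ge n 0 with l | l
    · exact ⟨0, by simp, by simpa using h n l hy⟩
    obtain ⟨n, rfl⟩ := Int.eq_ofNat_of_zero_le l
    refine ⟨Finsupp.mapDomain (Sigma.mk n) ((bs n).repr (C.cls n ⟨y, hy⟩)), fun b hb => ?_, ?_⟩
    · obtain ⟨i, -, rfl⟩ := Finset.mem_image.1 (Finsupp.mapDomain_support hb)
      rfl
    · rw [k1]
      exact (cls_eq (x := ⟨y, hy⟩)).1 (by rw [k2, Module.Basis.linearCombination_repr])
  · by_contra h0
    obtain ⟨b, hb'⟩ := Finsupp.support_nonempty_iff.2 h0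
    obtain rfl := hu b hb'
    have e := Finsupp.mapDomain_comapDomain (Sigma.mk b.1) sigma_mk_injective u (by
      rintro ⟨m, i⟩ hi
      obtain rfl : m = b.1 := by exact_mod_cast hu _ hi
      exact ⟨i, rfl⟩)
    rw [← e, k1, ← cls_eq_zero, k2] at hb
    rw [linearIndependent_iff.1 (bs b.1).linearIndependent _ hb, Finsupp.mapDomain_zero] at e
    exact h0 e.symm

end Cx

end Pool.Agent.CS
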