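import Pool.Agent.K.MP_d34769_ag.C41
import Pool.Agent.K.MP_d34769_ag.C42
import Pool.Agent.K.MP_d34769_ag.C29

-- part Pool.Agent.P.MP_d34769_ag.YBZ
section

/-! The class of a line bundle in the cohomology ring. -/

open Matrix Set

noncomputable section
namespace Pool.Agent.CS

variable {μ ν : Type} [Fintype μ] [Fintype ν] {X Y : Type} [TopologicalSpace X]
  [TopologicalSpace Y]

theorem cl_eq_of {a b β : AS Y} (ha : a ∈ Zc Y) (hb : b ∈ Zc Y)
    (h : ∀ y, a - b - AS.d β ∈ AS.z y) : cl a = cl b := by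
  rw [cl_mk ⟨a, ha⟩, cl_mk ⟨b, hb⟩]
  exact Ideal.Quotient.eq.2 ⟨β, mem_Nl.2 h⟩

theorem Bun.xq_Zc (L : Bun Y μ 1) : L.xq ∈ Zc Y :=
  ⟨mem_Nl.2 L.d_xq, 3, fun l hl => AS.mem_G.1 L.xq_mem_G l (by omega)⟩

theorem Bun.cl_xq_mem (L : Bun Y μ 1) : cl L.xq ∈ hr Y 2 := mem_hr.2 fun m hm => by
  have h := L.xq_mem_G
  simp only [Gc.G, Submodule.mem_iInf, LinearMap.mem_ker] at h
  rw [hp_cl L.xq_Zc, h m hm, cl_zero]

/-- the class of a line -/
def Bun.x (L : Bun Y μ 1) : HE Y := ⟨cl L.xq, hr_le_HE L.cl_xq_mem even_two⟩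

theorem Bun.x_val (L : Bun Y μ 1) : L.x.1 = cl L.xq := rfl

theorem Bun.x_mem (L : Bun Y μ 1) : L.x.1 ∈ hr Y 2 := L.cl_xq_mem

theorem Bun.pull_x_val (L : Bun Y μ 1) (f : C(X, Y)) : HR.pull f L.x.1 = (L.comap f).x.1 := by
  rw [L.x_val, pull_cl f L.xq_Zc, L.xq_comap, Bun.x_val]

theorem Bun.pull_x (L : Bun Y μ 1) (f : C(X, Y)) : HE.pull f L.x = (L.comap f).x :=
  Subtype.ext (L.pull_x_val f)

/-- X1: isomorphic lines have the same class -/
theorem Bun.x_iso (L : Bun Y μ 1) (L' : Bun Y ν 1) {A : Y → Matrix ν μ ℂ} (hA : Continuous A)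
    (h : ∀ y, L'.Q y * A y * L.Q y ≠ 0) : L'.x = L.x :=
  Subtype.ext (cl_eq_of L'.xq_Zc L.xq_Zc fun y =>
    L.xq_iso_z L' hA.continuousAt hA.matrix_conjTranspose.continuousAt (iso_ne (h y)))

/-- X2: the class of a tensor product -/
theorem Bun.x_tens (L : Bun Y μ 1) (L' : Bun Y ν 1) : (L.tens L').x = L.x + L'.x :=
  Subtype.ext ((cl_eq_of (β := 0) (L.tens L').xq_Zc (add_mem L.xq_Zc L'.xq_Zc) fun y => by
    rw [map_zero, sub_zero]; exact L.xq_tens L' y).trans (cl_add L.xq_Zc L'.xq_Zc))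

/-- X3: the class of a constant line -/
theorem Bun.x_const {Q : Matrix μ μ ℂ} (h : OP 1 Q) : (Bun.const Y h).x = 0 :=
  Subtype.ext (by rw [Bun.x_val, Bun.xq_const, cl_zero]; rfl)

/-- X3: a line with a nowhere vanishing section has class zero -/
theorem Bun.x_sec (L : Bun Y μ 1) {σ : Y → μ → ℂ} (hσ : Continuous σ)
    (h : ∀ y, L.Q y *ᵥ σ y ≠ 0) : L.x = 0 := by
  have h1 : OP 1 (1 : Matrix Unit Unit ℂ) := ⟨by simp, by simp, by simp⟩
  rw [(Bun.const Y h1).x_iso L (A := fun y => replicateCol Unit (σ y))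
    (continuous_matrix fun i _ => (continuous_apply i).comp hσ) fun y e => h y <| by
      ext i
      simpa [mul_apply, mulVec, dotProduct] using congrFun (congrFun e i) (), Bun.x_const]

theorem Bun.x_vec (v : Y → μ → ℂ) (hc : Continuous v) (h : ∀ y, v y ≠ 0) :
    (Bun.vec v hc h).x = 0 :=
  Bun.x_sec _ hc fun y => by rw [Bun.vec_Q, lnv_mulVec (h y)]; exact h y

/-- X4: the class of the dual line -/
theorem Bun.x_tr (L : Bun Y μ 1) : L.tr.x = -L.x := by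
  have h1 := (L.tens L.tr).x_sec (σ := fun y p => L.Q y p.1 p.2)
    (continuous_pi fun p => L.cont.matrix_elem p.1 p.2) fun y e => (L.op y).ne_zero <| by
      ext i j
      have h2 := congrFun e (i, j)
      have h3 := congrFun (congrFun (show L.Q y * L.Q y * L.Q y = L.Q y by
        rw [(L.op y).idem, (L.op y).idem]) i) j
      rw [← h3, Matrix.zero_apply, ← show _ = (0 : ℂ) from h2]
      simp only [mul_apply, mulVec, dotProduct, Bun.tens_Q, Bun.tr_Q, kroneckerMap_apply,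
        transpose_apply, Fintype.sum_prod_type, Finset.sum_mul]
      rw [Finset.sum_comm]
      exact Finset.sum_congr rfl fun k _ => Finset.sum_congr rfl fun l _ => by ring
  rw [Bun.x_tens] at h1
  exact eq_neg_of_add_eq_zero_right h1

/-- a map from `L` to `L'` that does not vanish on `K` gives equal classes on `K` -/
theorem Bun.res_x_iso (L : Bun Y μ 1) (L' : Bun Y ν 1) {A : Y → Matrix ν μ ℂ} (hA : Continuous A)
    {K : Set Y} (h : ∀ y ∈ K, L'.Q y * A y * L.Q y ≠ 0) : HR.res K (L'.x - L.x).1 = 0 := by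
  rw [AddSubgroupClass.coe_sub, map_sub, Bun.pull_x_val, Bun.pull_x_val, sub_eq_zero]
  exact congrArg Subtype.val (Bun.x_iso _ _ (hA.comp continuous_subtype_val) fun y => h y.1 y.2)

theorem Bun.res_x_sec (L : Bun Y μ 1) {σ : Y → μ → ℂ} (hσ : Continuous σ) {K : Set Y}
    (h : ∀ y ∈ K, L.Q y *ᵥ σ y ≠ 0) : HR.res K L.x.1 = 0 := by
  rw [Bun.pull_x_val]
  exact congrArg Subtype.val (Bun.x_sec _ (hσ.comp continuous_subtype_val) fun y => h y.1 y.2)

/-- B1 -/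
theorem IsPP.x_ne_zero [CompactSpace X] [T2Space X] {Q : Matrix μ μ ℂ} {L : Bun X μ 1}
    (h : IsPP Q L) (hQ : OP 2 Q) : L.x ≠ 0 := fun e =>
  h.xq_not_mem hQ ((cl_eq_zero L.xq_mem).1 (congrArg Subtype.val e))

end Pool.Agent.CS
end
end

-- part Pool.Agent.P.MP_d34769_ag.YBc
section

/-! The open cell of projective space and the tower structure of spaces of orthogonal lines. -/

open Matrix

noncomputable section
namespace Pool.Agent.CS

variable {μ ν K : Type} [Fintype μ] [Fintype ν] {r s k m : ℕ} {Q : Matrix μ μ ℂ}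
  {X Y B : Type} [TopologicalSpace X] [TopologicalSpace Y] [TopologicalSpace B]

/-- the closed cube -/
abbrev Cube (m : ℕ) : Type := Metric.closedBall (0 : Fin m → ℝ) 1

theorem cell_ne {e : μ → ℂ} (he : e ≠ 0) {T : (Fin m → ℝ) →ₗ[ℝ] (μ → ℂ)}
    (hT : Function.Injective T) (h : ∀ v, star e ⬝ᵥ T v = 0) (v : Fin m → ℝ) :
    ((1 - ‖v‖ : ℝ) : ℂ) • e + T v ≠ 0 := fun h0 => by
  have h1 := congrArg (star e ⬝ᵥ ·) h0
  simp only [dotProduct_add, dotProduct_smul, h, add_zero, dotProduct_zero, smul_eq_mul,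
    mul_eq_zero, star_dot_ne he, or_false] at h1
  rw [h1, zero_smul, zero_add, map_eq_zero_iff _ hT] at h0
  simp [h0] at h1

/-- the characteristic map of the open cell -/
theorem IsPP.cell [CompactSpace X] {L : Bun X μ 1} (h : IsPP Q L) (hQ : OP r Q) {e : μ → ℂ}
    (he : e ≠ 0) (hQe : Q *ᵥ e = e) {T : (Fin m → ℝ) →ₗ[ℝ] (μ → ℂ)} (hT : Function.Injective T)
    (hr : ∀ w, (∃ v, T v = w) ↔ Q *ᵥ w = w ∧ star e ⬝ᵥ w = 0) :
    ∃ g : C(Cube m, X), (∀ v, L.Q (g v) = lnv (((1 - ‖v.1‖ : ℝ) : ℂ) • e + T v.1)) ∧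
      (∀ v, L.Q (g v) *ᵥ e = 0 ↔ ‖v.1‖ = 1) ∧ ∀ x, L.Q x *ᵥ e ≠ 0 → ∃! v, g v = x := by
  have h0 : ∀ v, star e ⬝ᵥ T v = 0 := fun v => ((hr _).1 ⟨v, rfl⟩).2
  have hn := cell_ne he hT h0
  have hd := star_dot_ne he
  obtain ⟨g, hg⟩ := h.exists_lift hQ (Bun.vec (fun v : Cube m => ((1 - ‖v.1‖ : ℝ) : ℂ) • e + T v.1)
    (((Complex.continuous_ofReal.comp (continuous_const.sub continuous_subtype_val.norm)).smul
      continuous_const).add (T.continuous_of_finiteDimensional.comp continuous_subtype_val))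
    fun v => hn v.1) fun v => le_lnv (by rw [mulVec_add, mulVec_smul, hQe, ((hr _).1 ⟨_, rfl⟩).1])
  have hg' : ∀ v, L.Q (g v) = lnv (((1 - ‖v.1‖ : ℝ) : ℂ) • e + T v.1) := fun v =>
    congrFun (congrArg Bun.Q hg) v
  have key : ∀ w : μ → ℂ, w ≠ 0 → (lnv w *ᵥ e = 0 ↔ star e ⬝ᵥ w = 0) := fun w hw => by
    rw [lnv, smul_mulVec, vecMulVec_mulVec, op_smul_eq_smul, smul_smul, smul_eq_zero,
      or_iff_left hw, mul_eq_zero, or_iff_right (inv_ne_zero (star_dot_ne hw)),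
      star_dotProduct, star_eq_zero]
  have hdot : ∀ v : Fin m → ℝ, star e ⬝ᵥ (((1 - ‖v‖ : ℝ) : ℂ) • e + T v) =
      ((1 - ‖v‖ : ℝ) : ℂ) * (star e ⬝ᵥ e) := fun v => by
    rw [dotProduct_add, h0, add_zero, dotProduct_smul, smul_eq_mul]
  have h2 : ∀ v, L.Q (g v) *ᵥ e = 0 ↔ ‖v.1‖ = 1 := fun v => by
    rw [hg', key _ (hn _), hdot, mul_eq_zero, or_iff_left hd, Complex.ofReal_eq_zero, sub_eq_zero,
      eq_comm]
  refine ⟨g, hg', h2, fun x hx => ?_⟩
  obtain ⟨w, hw, ew⟩ := (L.op x).exists_lnv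
  have hc : star e ⬝ᵥ w ≠ 0 := fun e0 => hx (by rw [ew, key w hw, e0])
  have hQw : Q *ᵥ w = w := (le_lnv_iff hw).1 (ew ▸ h.le x)
  obtain ⟨u, hu⟩ := (hr (((star e ⬝ᵥ e) / (star e ⬝ᵥ w)) • w - e)).2
    ⟨by rw [mulVec_sub, mulVec_smul, hQw, hQe],
      by rw [dotProduct_sub, dotProduct_smul, smul_eq_mul, div_mul_cancel₀ _ hc, sub_self]⟩
  have hp : 0 < 1 + ‖u‖ := by positivity
  have hs : ∀ v : Fin m → ℝ, ‖v‖ ≠ 1 → ((1 - ‖v‖ : ℝ) : ℂ) ≠ 0 := fun v hv =>
    Complex.ofReal_ne_zero.2 (sub_ne_zero.2 hv.symm)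
  have key2 : ∀ v : Cube m, g v = x ↔ v.1 = (1 - ‖v.1‖) • u := fun v => by
    constructor
    · intro ev
      obtain ⟨c, ec⟩ := (lnv_eq_iff hw (hn v.1)).1 (by rw [← ew, ← ev, hg'])
      have h3 := hdot v.1
      rw [ec, dotProduct_smul, smul_eq_mul] at h3
      apply hT
      rw [map_smul, hu, ← Complex.coe_smul, smul_sub, smul_smul, ← mul_div_assoc, ← h3,
        mul_div_cancel_right₀ _ hc, ← ec, add_sub_cancel_left]
    · intro ev
      have h1 : ‖v.1‖ ≠ 1 := fun e1 => by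
        rw [e1, sub_self, zero_smul] at ev
        simp [ev] at e1
      apply h.inj
      rw [hg', ew]
      conv_lhs => rw [ev, map_smul, hu, ← ev, ← Complex.coe_smul, ← smul_add, add_sub_cancel,
        smul_smul]
      exact lnv_smul hw (mul_ne_zero (hs _ h1) (div_ne_zero hd hc))
  have hu' : ‖(1 + ‖u‖)⁻¹ • u‖ = (1 + ‖u‖)⁻¹ * ‖u‖ := by
    rw [norm_smul, Real.norm_of_nonneg (by positivity)]
  refine ⟨⟨(1 + ‖u‖)⁻¹ • u, ?_⟩, (key2 _).2 ?_, fun v hv => Subtype.ext ?_⟩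
  · rw [mem_closedBall_zero_iff, hu', inv_mul_le_iff₀ hp]; linarith
  · simp only [hu']
    congr 1
    field_simp
    ring
  · have h3 := (key2 v).1 hv
    have h4 : ‖v.1‖ = (1 - ‖v.1‖) * ‖u‖ := by
      conv_lhs => rw [h3, norm_smul, Real.norm_of_nonneg
        (sub_nonneg.2 (mem_closedBall_zero_iff.1 v.2))]
    rw [h3]
    congr 1
    field_simp
    linarith

/-- real coordinates on the range of a projector -/
theorem OP.exists_coord (hQ : OP r Q) : ∃ T : (Fin (2 * r) → ℝ) →ₗ[ℝ] (μ → ℂ),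
    Function.Injective T ∧ ∀ w, (∃ v, T v = w) ↔ Q *ᵥ w = w := by
  obtain ⟨u, h1, h2⟩ := hQ.exists_iso
  let c : (Fin (2 * r) → ℝ) ≃ₗ[ℝ] (Fin r → ℂ) := LinearEquiv.ofFinrankEq _ _ (by
    rw [← Module.finrank_mul_finrank ℝ ℂ (Fin r → ℂ)]; simp)
  refine ⟨(u.mulVecLin.restrictScalars ℝ) ∘ₗ c.toLinearMap, fun v w e => c.injective ?_,
    fun w => ⟨?_, fun h => ⟨c.symm (uᴴ *ᵥ w), ?_⟩⟩⟩
  · simpa [h1] using congrArg (uᴴ *ᵥ ·) e
  · rintro ⟨v, rfl⟩
    simp [← h2, Matrix.mul_assoc, h1]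
  · simp [h2, h]

/-- the hyperplane orthogonal to `e` -/
theorem IsPP.hyp {L : Bun X μ 1} (h : IsPP Q L) (hQ : OP r Q) {e : μ → ℂ} (he : e ≠ 0)
    (hQe : Q *ᵥ e = e) : IsPP (Q - lnv e) (L.comap ⟨Subtype.val, continuous_subtype_val⟩ :
      Bun {x | L.Q x *ᵥ e = 0} μ 1) := by
  refine ⟨fun x => ?_, fun x y e => Subtype.ext (h.inj e), fun l hl e' => ?_⟩
  · change (Q - lnv e) * L.Q x.1 = L.Q x.1
    rw [sub_mul, h.le, (L.op x.1).comm0 (OP.lnv he) ((mul_lnv_eq_zero he).2 x.2), sub_zero]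
  · have h1 : Q * l = l := by
      rw [← e', ← Matrix.mul_assoc, mul_sub, hQ.idem, le_lnv hQe]
    obtain ⟨x, rfl⟩ := h.sur l hl h1
    rw [sub_mul, h1, sub_eq_self] at e'
    exact ⟨⟨x, (mul_lnv_eq_zero he).1 ((OP.lnv he).comm0 hl e')⟩, rfl⟩

/-- forget the first line -/
def LD.comp (D : LD B μ K) {K' : Type} (e : K' → K) : LD B μ K' :=
  ⟨fun a b => D.cl (e a) (e b), ⟨fun _ => D.eqv.refl _, D.eqv.symm, D.eqv.trans⟩,
    fun a => D.r (e a), fun a => D.P (e a), fun _ _ => D.req _ _, fun _ _ => D.eq _ _⟩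

theorem IsLn.comp {π : C(X, B)} {D : LD B μ K} {l : K → Bun X μ 1} (h : IsLn π D l) {K' : Type}
    (e : K' ≃ K) : IsLn π (D.comp e) fun a => l (e a) := by
  refine ⟨fun a => h.le _, fun a b n => h.orth _ _ (e.injective.ne n),
    fun x x' a b => h.inj x x' a fun c => by simpa using b (e.symm c), fun t q hq ho => ?_⟩
  obtain ⟨x, hx, hl⟩ := h.sur t (fun a => q (e.symm a))
    (fun a => by obtain ⟨a, rfl⟩ := e.surjective a; rw [e.symm_apply_apply]; exact hq a)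
    fun a b n c => ho _ _ (e.symm.injective.ne n) (by simpa [LD.comp] using c)
  exact ⟨x, hx, fun a => by simpa using hl (e a)⟩

theorem LD.n_comp (D : LD B μ K) {K' : Type} (e : K' ≃ K) (a : K') :
    (D.comp e).n a = D.n (e a) := Nat.card_congr (e.subtypeEquiv fun _ => Iff.rfl)

open Classical in
/-- the indices after `a` in the class of `a` -/
def LD.aft {n : ℕ} (D : LD B μ (Fin n)) (a : Fin n) : Finset (Fin n) :=
  Finset.univ.filter fun b => D.cl a b ∧ a < b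

theorem LD.mem_aft {n : ℕ} (D : LD B μ (Fin n)) {a b : Fin n} :
    b ∈ D.aft a ↔ D.cl a b ∧ a < b := by simp [LD.aft]

theorem LD.aft_lt {n : ℕ} (D : LD B μ (Fin n)) (a : Fin n) : (D.aft a).card < D.n a := by
  classical
  rw [LD.n, Nat.card_eq_fintype_card, Fintype.card_subtype]
  refine Finset.card_lt_card ⟨fun b hb => by simpa using (D.mem_aft.1 hb).1, fun h => ?_⟩
  simpa using (D.mem_aft.1 (h (show a ∈ _ by simpa using D.eqv.refl a))).2

theorem LD.aft_succ {n : ℕ} (D : LD B μ (Fin (n + 1))) (a : Fin n) :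
    D.aft a.succ = ((D.comp Fin.succ).aft a).map (Fin.succEmb n) := by
  ext b
  rcases Fin.eq_zero_or_eq_succ b with rfl | ⟨b, rfl⟩
  · simp [LD.mem_aft]
  · simp [LD.mem_aft, LD.comp]

theorem LD.n_succ {n : ℕ} (D : LD B μ (Fin (n + 1))) (a : Fin n) :
    (D.comp Fin.succ).n a ≤ D.n a.succ :=
  Nat.card_le_card_of_injective (fun b => ⟨b.1.succ, b.2⟩)
    fun _ _ e => Subtype.ext (Fin.succ_injective _ (congrArg Subtype.val e))

/-- the complement of the later lines -/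
def IsLn.res {n : ℕ} {π : C(X, B)} {D : LD B μ (Fin n)} {l : Fin n → Bun X μ 1} (h : IsLn π D l)
    (hn : ∀ a, D.n a ≤ D.r a) (a : Fin n) : Bun X μ (D.r a - (D.aft a).card) :=
  ((D.P a).comap π).sub (Bun.sum (D.aft a) l fun b hb c hc e => h.orth b c e
    (D.eqv.trans (D.eqv.symm (D.mem_aft.1 hb).1) (D.mem_aft.1 hc).1))
    (fun x => by
      rw [Bun.sum_Q, Finset.mul_sum]
      exact Finset.sum_congr rfl fun b hb => by
        rw [Bun.comap_Q, D.eq a b (D.mem_aft.1 hb).1, h.le])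
    (by have := D.aft_lt a; have := hn a; omega)

theorem IsLn.res_Q {n : ℕ} {π : C(X, B)} {D : LD B μ (Fin n)} {l : Fin n → Bun X μ 1}
    (h : IsLn π D l) (hn : ∀ a, D.n a ≤ D.r a) (a : Fin n) (x : X) :
    (h.res hn a).Q x = (D.P a).Q (π x) - ∑ b ∈ D.aft a, (l b).Q x := rfl

/-- one step of the tower -/
theorem IsLn.step [CompactSpace B] [T2Space B] {n : ℕ} {π : C(X, B)} {D : LD B μ (Fin (n + 1))}
    {l : Fin (n + 1) → Bun X μ 1} (h : IsLn π D l) (hn : ∀ a, D.n a ≤ D.r a) :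
    ∃ (p : C(X, Ln (D.comp Fin.succ))) (E : Bun (Ln (D.comp Fin.succ)) μ (D.r 0 - (D.aft 0).card)),
      (Ln.π _).comp p = π ∧ (∀ a, (Ln.l _ a).comap p = l a.succ) ∧ IsPE p E (l 0) ∧
      E.comap p = h.res hn 0 := by
  classical
  let D' := D.comp (Fin.succ (n := n))
  have h' := Ln.isLn D'
  obtain ⟨p, hp, hl⟩ := h'.exists_lift π (fun a => l a.succ) (fun a => h.le _)
    fun a b e => h.orth _ _ ((Fin.succ_injective n).ne e)
  have hp' : ∀ x, Ln.π D' (p x) = π x := fun x => congrArg (· x) hp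
  have hl' : ∀ a x, (Ln.l D' a).Q (p x) = (l a.succ).Q x := fun a x =>
    congrFun (congrArg Bun.Q (hl a)) x
  let S : Finset (Fin n) := Finset.univ.filter fun b => D.cl 0 b.succ
  have hS : D.aft 0 = S.map (Fin.succEmb n) := by
    ext b
    rcases Fin.eq_zero_or_eq_succ b with rfl | ⟨b, rfl⟩
    · simp [LD.mem_aft]
    · simp [LD.mem_aft, S]
  have hS' : ∀ b ∈ S, D.cl 0 b.succ := fun b hb => (Finset.mem_filter.1 hb).2
  have hP : ∀ b ∈ S, ∀ y, (D.P 0).Q (Ln.π D' y) * (Ln.l D' b).Q y = (Ln.l D' b).Q y :=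
    fun b hb y => by rw [D.eq _ _ (hS' b hb)]; exact h'.le b y
  let E : Bun (Ln D') μ (D.r 0 - (D.aft 0).card) := ((D.P 0).comap (Ln.π D')).sub
    (Bun.sum S (Ln.l D') fun b hb c hc e => h'.orth b c e
      (D.eqv.trans (D.eqv.symm (hS' b hb)) (hS' c hc)))
    (fun y => by rw [Bun.sum_Q, Finset.mul_sum]; exact Finset.sum_congr rfl fun b hb => hP b hb y)
    (by have := D.aft_lt 0; have := hn 0; rw [hS, Finset.card_map] at *; omega)
  have hE : ∀ y, E.Q y = (D.P 0).Q (Ln.π D' y) - ∑ b ∈ S, (Ln.l D' b).Q y := fun _ => rfl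
  refine ⟨p, E, hp, hl, ⟨fun x => ?_, fun x x' e e' => ?_, fun y q hq e => ?_⟩, ?_⟩
  · rw [hE, hp', sub_mul, h.le, Finset.sum_mul, Finset.sum_eq_zero fun b hb => by
      rw [hl', h.orth _ _ (Fin.succ_ne_zero b) (D.eqv.symm (hS' b hb))], sub_zero]
  · refine h.inj x x' (by rw [← hp', e, hp']) fun a => ?_
    rcases Fin.eq_zero_or_eq_succ a with rfl | ⟨a, rfl⟩
    exacts [e', by rw [← hl', e, hl']]
  · have h1 : ∀ b ∈ S, (Ln.l D' b).Q y * q = 0 := fun b hb => by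
      rw [← e, hE, ← Matrix.mul_assoc, mul_sub, ((D.P 0).op _).comm ((Ln.l D' b).op y) (hP b hb y),
        Finset.mul_sum, Finset.sum_eq_single_of_mem b hb fun c hc n => h'.orth b c n.symm
          (D.eqv.trans (D.eqv.symm (hS' b hb)) (hS' c hc)) y, ((Ln.l D' b).op y).idem, sub_self,
        Matrix.zero_mul]
    have h2 : (D.P 0).Q (Ln.π D' y) * q = q := by
      rwa [hE, sub_mul, Finset.sum_mul, Finset.sum_eq_zero h1, sub_zero] at e
    obtain ⟨x, hx, hq'⟩ := h.sur (Ln.π D' y) (Fin.cons q fun b => (Ln.l D' b).Q y)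
      (Fin.cases ⟨hq, h2⟩ fun b => ⟨(Ln.l D' b).op y, h'.le b y⟩)
      (Fin.cases (Fin.cases (fun n => (n rfl).elim) fun b _ c => ((Ln.l D' b).op y).comm0 hq
        (h1 b (by simpa [S] using c))) fun a => Fin.cases
          (fun _ c => h1 a (by simpa [S] using D.eqv.symm c))
          fun b n c => h'.orth a b (fun e => n (congrArg _ e)) c y)
    exact ⟨x, h'.inj _ _ (by rw [hp', hx]) fun a => by rw [hl', hq']; rfl, hq' 0⟩
  · refine Bun.ext (funext fun x => ?_)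
    rw [Bun.comap_Q, hE, h.res_Q, hS, Finset.sum_map, hp']
    simp only [hl']
    rfl

end Pool.Agent.CS
end
end

-- part Pool.Agent.P.MP_d34769_ag.YST
section

/-! Tautness, excision, acyclic fibres, homotopy invariance. -/

open Set Topology unitInterval

noncomputable section
namespace Pool.Agent.CS.AS
variable {X Y : Type} [TopologicalSpace X] [TopologicalSpace Y] [CompactSpace X] [T2Space X]
  [CompactSpace Y] [T2Space Y] {K A : Set X} {K' A' : Set Y} {n : ℤ} {φ : AS X} {g : X → Y}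

theorem sc_mor (g : C(X, Y)) : (sc Y).Mor ((sc X).push g) (pl g) 0 where
  fG n x hx := by rw [add_zero]; exact pull_mem_G g hx
  fz t x hx := (sc X).mem_zz.2 fun s hs => z_pull g.continuous.continuousAt
    (by obtain rfl : g s = t := hs; exact hx)
  fd t x := Cx.meq (zero_mem _) (sub_eq_zero.2 (pull_d g x)).symm

/-- VB: a map that is a quasi-isomorphism on the fibres -/
theorem vb (hg : Continuous g) (hK : IsClosed K') (hA : IsClosed A')
    (h : ∀ t ∈ K' \ A', (CP {t} ∅).QI (CP (g ⁻¹' {t}) ∅) (pl g) 0 n) :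
    (CP K' A').QI (CP (g ⁻¹' K') (g ⁻¹' A')) (pl g) 0 n := by
  have := SC.soft_qi (n := n) (sc_mor ⟨g, hg⟩) hK hA fun t ht => by
    rw [SC.push_cx]; exact h t ht
  rwa [SC.push_cx] at this

theorem vba (hg : Continuous g) (hK : IsClosed K') (hA : IsClosed A')
    (h : ∀ t ∈ K' \ A', (CP {t} ∅).QIa (CP (g ⁻¹' {t}) ∅) (pl g) 0) :
    (CP K' A').QIa (CP (g ⁻¹' K') (g ⁻¹' A')) (pl g) 0 :=
  fun n => vb hg hK hA fun t ht => h t ht n

/-- EXC: a map that is bijective over `K' \ A'` -/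
theorem exc (hg : Continuous g) (hK : IsClosed K') (hA : IsClosed A')
    (h : ∀ t ∈ K' \ A', ∃! x, g x = t) :
    (CP K' A').QIa (CP (g ⁻¹' K') (g ⁻¹' A')) (pl g) 0 := by
  refine vba hg hK hA fun t ht => ?_
  obtain ⟨x, rfl, hx⟩ := h t ht
  have : g ⁻¹' {g x} = {x} := Set.ext fun y => ⟨hx y, fun e => congrArg g e⟩
  rw [this]
  exact stalk_qia g x

/-- EXC with the preimages named -/
theorem exc' (hg : Continuous g) (hK : IsClosed K') (hA : IsClosed A')
    (h : ∀ t ∈ K' \ A', ∃! x, g x = t) (eK : g ⁻¹' K' = K) (eA : g ⁻¹' A' = A) :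
    (CP K' A').QIa (CP K A) (pl g) 0 := eK ▸ eA ▸ exc hg hK hA h

/-- TAUT for an injective map -/
theorem taut (hg : Continuous g) (hi : Function.Injective g) (hK : IsClosed K') (hA : IsClosed A')
    (h : K' \ A' ⊆ range g) : (CP K' A').QIa (CP (g ⁻¹' K') (g ⁻¹' A')) (pl g) 0 :=
  exc hg hK hA fun _ ht => (h ht).imp fun _ e => ⟨e, fun _ e' => hi (e'.trans e.symm)⟩

theorem taut_range (hg : Continuous g) (hi : Function.Injective g) (hA : IsClosed A') :
    (CP (range g) A').QIa (CP univ (g ⁻¹' A')) (pl g) 0 := by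
  have := taut hg hi (isCompact_range hg).isClosed hA sdiff_subset
  rwa [preimage_range] at this

theorem taut_range0 (hg : Continuous g) (hi : Function.Injective g) :
    (CP (range g) ∅).QIa (CC X) (pl g) 0 := taut_range hg hi isClosed_empty

theorem taut_image (hg : Continuous g) (hi : Function.Injective g) (hK : IsClosed K)
    (hA : IsClosed A) : (CP (g '' K) (g '' A)).QIa (CP K A) (pl g) 0 :=
  exc' hg (hK.isCompact.image hg).isClosed (hA.isCompact.image hg).isClosed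
    (fun _ ⟨⟨x, _, e⟩, _⟩ => ⟨x, e, fun _ e' => hi (e'.trans e.symm)⟩)
    (preimage_image_eq _ hi) (preimage_image_eq _ hi)

/-- TAUT for a closed subspace -/
theorem taut_val (K : Set X) [CompactSpace K] (hA : IsClosed A) :
    (CP K A).QIa (CP univ (Subtype.val ⁻¹' A : Set K)) (pl Subtype.val) 0 := by
  have := taut_range (g := (Subtype.val : K → X)) continuous_subtype_val Subtype.val_injective hA
  rwa [Subtype.range_val] at this

/-- maps that agree on `K` induce the same map -/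
theorem eqOn_B {f : X → Y} (hf : Continuous f) (hg : Continuous g) (hK : IsClosed K)
    (hA : IsClosed A) (e : EqOn f g K) (fK : MapsTo f K K') (fA : MapsTo f A A')
    (gA : MapsTo g A A') {ψ : AS Y} (h : ψ ∈ (CP K' A').Z n) :
    pull f ψ - pull g ψ ∈ (CP K A).B n := by
  have := isCompact_iff_compactSpace.1 hK.isCompact
  refine (taut_val K hA).inj n _ (sub_mem (Cx.Zcast ((pull_mor hf fK fA).mem_Z h) (add_zero n))
    (Cx.Zcast ((pull_mor hg (fK.congr e) gA).mem_Z h) (add_zero n))) (Cx.meq (zero_mem _) ?_)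
  have : f ∘ (Subtype.val : K → X) = g ∘ Subtype.val := funext fun x => e x.2
  show 0 = pull _ (pull f ψ - pull g ψ)
  rw [map_sub, pull_pull, pull_pull, this, sub_self]

omit [TopologicalSpace X] [CompactSpace X] [T2Space X] in
theorem d_val (φ : AS X) (x : X) : (d φ).1 [x] = 0 := by
  rw [coe_d]; simp [LA.da_cons]

theorem B_val (h : φ ∈ (CP K A).B n) {x : X} (hx : x ∈ K) : φ.1 [x] = 0 := by
  obtain ⟨b, -, e⟩ := mem_cp_B.1 h
  simpa [d_val] using z_val (e x hx)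

omit [TopologicalSpace X] [CompactSpace X] [T2Space X] [TopologicalSpace Y] [CompactSpace Y]
  [T2Space Y] in
theorem val_smul_one_G (h : φ ∈ G X n) (x : X) : φ.1 [x] • (1 : AS Y) ∈ G Y n := by
  by_cases hn : n = 0
  · subst hn; exact Submodule.smul_mem _ _ one_mem_G
  · rw [mem_G.1 h [x] (by simp; omega), zero_smul]; exact zero_mem _

omit [TopologicalSpace X] [CompactSpace X] [T2Space X] in
theorem val_smul_one_Z (h : φ ∈ G X n) (x : X) : φ.1 [x] • (1 : AS Y) ∈ (CP K' ∅).Z n :=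
  mem_cp_Z.2 ⟨⟨val_smul_one_G h x, by simp⟩, fun t _ => by
    rw [map_smul, d_one, smul_zero]; exact zero_mem _⟩

/-- the set `K` has the cohomology of a point -/
def Acy (K : Set X) : Prop :=
  K.Nonempty ∧ ∀ n, ∀ φ ∈ (CP K ∅).Z n, ∃ c : ℂ, φ - c • 1 ∈ (CP K ∅).B n

theorem Acy.spec (h : Acy K) (hφ : φ ∈ (CP K ∅).Z n) {x : X} (hx : x ∈ K) :
    φ - φ.1 [x] • 1 ∈ (CP K ∅).B n := by
  obtain ⟨c, e⟩ := h.2 n φ hφ
  have : φ.1 [x] = c := by simpa [val_one, sub_eq_zero] using B_val e hx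
  rwa [this]

theorem Acy.ac (h : Acy K) (hn : n ≠ 0) : (CP K ∅).Ac n := fun φ hφ => by
  obtain ⟨x, hx⟩ := h.1
  have := h.spec hφ hx
  rwa [mem_G.1 (mem_cp_Z.1 hφ).1.1 [x] (by simp; omega), zero_smul, sub_zero] at this

theorem acy_singleton (x : X) : Acy {x} := ⟨⟨x, rfl⟩, fun _ _ h => ⟨_, stalk_B h⟩⟩

theorem Acy.qia (h : Acy K) (h' : Acy K') (hK : MapsTo g K K') :
    (CP K' ∅).QIa (CP K ∅) (pl g) 0 := by
  obtain ⟨x, hx⟩ := h.1
  refine Cx.qia_iff.2 fun n => ⟨fun ψ hψ e => ?_, fun φ hφ => ?_⟩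
  · have := h'.spec hψ (hK hx)
    rwa [show ψ.1 [g x] = 0 from B_val (φ := pull g ψ) e hx, zero_smul, sub_zero] at this
  · rw [add_zero] at hφ ⊢
    exact ⟨_, val_smul_one_Z (mem_cp_Z.1 hφ).1.1 x, by simpa using h.spec hφ hx⟩

theorem Acy.of_inj (h : Acy K) (hg : Continuous g) (hK : MapsTo g K K')
    (q : ∀ n, (CP K' ∅).Inj (CP K ∅) (pl g) 0 n) : Acy K' := by
  obtain ⟨x, hx⟩ := h.1
  refine ⟨⟨_, hK hx⟩, fun n ψ hψ => ⟨ψ.1 [g x], q n _
    (sub_mem hψ (val_smul_one_Z (mem_cp_Z.1 hψ).1.1 _)) ?_⟩⟩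
  simpa using h.spec ((pull_mor hg hK (mapsTo_empty _ _)).mem_Z hψ) hx

theorem Acy.of_sur (h : Acy K') (hg : Continuous g) (hK : MapsTo g K K') (hne : K.Nonempty)
    (q : ∀ n, (CP K' ∅).Sur (CP K ∅) (pl g) 0 n) : Acy K := by
  refine ⟨hne, fun n φ hφ => ?_⟩
  obtain ⟨ψ, hψ, e⟩ := q n φ (Cx.Zcast hφ (add_zero n).symm)
  obtain ⟨y, hy⟩ := h.1
  have := (pull_mor hg hK (mapsTo_empty _ _)).mem_B
    (sub_mem hψ (val_smul_one_Z (mem_cp_Z.1 hψ).1.1 y)).1 (h.spec hψ hy)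
  exact ⟨ψ.1 [y], by simpa using add_mem e this⟩

theorem Acy.image (h : Acy K) (hK : IsClosed K) (hg : Continuous g) (hi : Function.Injective g) :
    Acy (g '' K) := h.of_inj hg (mapsTo_image _ _) fun n => by
  simpa using (taut_image hg hi hK isClosed_empty).inj n

theorem Acy.range (h : Acy (univ : Set X)) (hg : Continuous g) (hi : Function.Injective g) :
    Acy (range g) := image_univ (f := g) ▸ h.image isClosed_univ hg hi

theorem acy_val_iff (K : Set X) [CompactSpace K] : Acy (univ : Set K) ↔ Acy K := by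
  refine ⟨fun h => ?_, fun h => h.of_sur continuous_subtype_val (fun x _ => x.2)
    (h.1.to_subtype.elim fun x => ⟨x, trivial⟩) (taut_val K isClosed_empty).sur⟩
  simpa using h.range continuous_subtype_val Subtype.val_injective

/-- VB for acyclic fibres -/
theorem vb_acy (hg : Continuous g) (hK : IsClosed K') (hA : IsClosed A')
    (h : ∀ t ∈ K' \ A', Acy (g ⁻¹' {t})) :
    (CP K' A').QIa (CP (g ⁻¹' K') (g ⁻¹' A')) (pl g) 0 :=
  vba hg hK hA fun t ht => (h t ht).qia (acy_singleton t) fun _ h => h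

/-- an acyclic set is exact relative to an acyclic subset -/
theorem Acy.ac_rel (h : Acy K) (h' : Acy A) (hA : A ⊆ K) (n : ℤ) : (CP K A).Ac n := by
  intro φ hφ
  obtain ⟨x, hx⟩ := h'.1
  rw [mem_cp_Z] at hφ
  have := h.spec (mem_cp_Z.2 ⟨⟨hφ.1.1, by simp⟩, hφ.2⟩) (hA hx)
  rw [z_val (hφ.1.2 x hx), zero_smul, sub_zero] at this
  obtain ⟨b, hb, e⟩ := mem_cp_B.1 this
  obtain ⟨u, hu, e'⟩ := mem_cp_B.1 (h'.spec (φ := b) (mem_cp_Z.2 ⟨⟨hb.1, by simp⟩, fun t ht =>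
    Cx.meq (sub_mem (hφ.1.2 t ht) (e t (hA ht))) (sub_sub_cancel _ _)⟩) hx)
  refine mem_cp_B.2 ⟨_, ⟨sub_mem (sub_mem hb.1 (val_smul_one_G hb.1 x))
    (by simpa using d_mem_G hu.1), e'⟩, fun t ht => ?_⟩
  rw [map_sub, map_sub, map_smul, d_one, d_d, smul_zero, sub_zero, sub_zero]
  exact e t ht

theorem acy_of_rel (h' : Acy A) (hA : A ⊆ K) (h : ∀ n, (CP K A).Ac n) : Acy K := by
  refine h'.of_inj continuous_id hA fun n φ hφ e => ?_
  have e : pull id φ ∈ (CP A ∅).B (n + 0) := e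
  rw [pull_id, add_zero] at e
  obtain ⟨b, hb, e⟩ := mem_cp_B.1 e
  rw [mem_cp_Z] at hφ
  obtain ⟨u, hu, e'⟩ := mem_cp_B.1 (h n (mem_cp_Z.2 ⟨⟨sub_mem hφ.1.1
    (by simpa using d_mem_G hb.1), e⟩, fun t ht => by
      rw [map_sub, d_d, sub_zero]; exact hφ.2 t ht⟩))
  exact mem_cp_B.2 ⟨b + u, ⟨add_mem hb.1 hu.1, by simp⟩, fun t ht =>
    Cx.meq (e' t ht) (by rw [map_add, sub_sub])⟩

theorem ac_I (n : ℤ) : (CP (univ : Set I) {0}).Ac n := by
  intro φ hφ
  rw [mem_cp_Z] at hφ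
  let P : I → Prop := fun s => ∃ b, (b ∈ G I (n - 1) ∧ b ∈ z (0 : I)) ∧ ∀ t ∈ Iic s, φ - d b ∈ z t
  have mono : ∀ s t, s ≤ t → P t → P s := fun s t h ⟨b, hb, e⟩ =>
    ⟨b, hb, fun u hu => e u (le_trans hu h)⟩
  have lc : IsLocallyConstant P := by
    refine (IsLocallyConstant.iff_eventually_eq P).2 fun s => ?_
    obtain ⟨b', hb', e'⟩ := mem_cp_B.1 (stalk_B (x := s) (mem_cp_Z.2 ⟨⟨hφ.1.1, by simp⟩,
      fun t _ => hφ.2 t trivial⟩))
    let O := {t | φ - φ.1 [s] • 1 - d b' ∈ z t}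
    have up : ∀ t u, t ≤ u → Icc t u ⊆ O → P t → P u := by
      rintro t u htu hO ⟨b, hb, e⟩
      have h1 := hO ⟨le_rfl, htu⟩
      have h2 := e t (mem_Iic.2 le_rfl)
      have h0 : φ.1 [s] = 0 := by
        simpa [d_val, val_one] using z_val (sub_mem h2 h1)
      have hO : ∀ v ∈ Icc t u, φ - d b' ∈ z v := fun v hv => by simpa [O, h0] using hO hv
      obtain ⟨w, hw, e1⟩ := mem_cp_B.1 (stalk_B (x := t) (φ := b - b') (n := n - 1)
        (mem_cp_Z.2 ⟨⟨sub_mem hb.1 hb'.1, by simp⟩, fun v hv => by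
          obtain rfl : v = t := hv
          exact Cx.meq (sub_mem (hO v ⟨le_rfl, htu⟩) h2) (by rw [map_sub]; abel)⟩))
      have hG : b - b' - (b - b').1 [t] • 1 - d w ∈ G I (n - 1) :=
        sub_mem (sub_mem (sub_mem hb.1 hb'.1) (val_smul_one_G (sub_mem hb.1 hb'.1) t))
          (by simpa using d_mem_G hw.1)
      obtain ⟨c, hc, c1, c2⟩ := (sc I).glue (Iic t) (Icc t u) isClosed_Iic isClosed_Icc (n - 1) _
        hG fun v hv => e1 v (le_antisymm hv.1 hv.2.1)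
      refine ⟨b - (b - b' - (b - b').1 [t] • 1 - d w) + c, ⟨add_mem (sub_mem hb.1 hG) hc, ?_⟩,
        fun v hv => ?_⟩
      · exact Cx.meq (add_mem hb.2 (c1 0 (mem_Iic.2 t.2.1))) (by abel)
      · rcases le_total v t with h | h
        · exact Cx.meq (sub_mem (e v h) (z_d (c1 v h))) (by simp only [map_sub, map_add]; abel)
        · refine Cx.meq (sub_mem (hO v ⟨h, hv⟩) (z_d (c2 v ⟨h, hv⟩))) ?_
          simp only [map_sub, map_add, map_smul, d_one, d_d, smul_zero]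
          abel
    have hO : O ∈ 𝓝 s := (z_open _).mem_nhds (e' s rfl)
    filter_upwards [ordConnectedComponent_mem_nhds.2 hO] with t ht
    have ht : uIcc s t ⊆ O := ht
    rcases le_total s t with h | h
    · exact propext ⟨mono s t h, up s t h (by rwa [uIcc_of_le h] at ht)⟩
    · exact propext ⟨up t s h (by rwa [uIcc_of_ge h] at ht), mono t s h⟩
  have p0 : P 0 := ⟨0, ⟨zero_mem _, zero_mem _⟩, fun t ht => by
    obtain rfl : t = 0 := le_antisymm ht bot_le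
    simpa using hφ.1.2 0 rfl⟩
  obtain ⟨b, hb, e⟩ : P 1 := lc.apply_eq_of_preconnectedSpace 0 1 ▸ p0
  exact mem_cp_B.2 ⟨b, ⟨hb.1, fun t ht => ht ▸ hb.2⟩, fun t _ => e t (mem_Iic.2 t.2.2)⟩

/-- the interval is acyclic -/
theorem acy_I : Acy (univ : Set I) := acy_of_rel (acy_singleton 0) (subset_univ _) ac_I

/-- the projection from a product with an acyclic factor -/
theorem fst_qia (h : Acy (univ : Set Y)) (hK : IsClosed K) (hA : IsClosed A) :
    (CP K A).QIa (CP (Prod.fst ⁻¹' K : Set (X × Y)) (Prod.fst ⁻¹' A)) (pl Prod.fst) 0 := by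
  refine vb_acy continuous_fst hK hA fun t _ => ?_
  have := h.range (g := Prod.mk t) (by fun_prop) (Prod.mk_right_injective t)
  rwa [show range (Prod.mk t : Y → X × Y) = Prod.fst ⁻¹' {t} from
    Set.ext fun ⟨a, b⟩ => by simp [eq_comm]] at this

/-- HTPY with an acyclic space of parameters -/
theorem hty_acy {P : Type} [TopologicalSpace P] [CompactSpace P] [T2Space P]
    (hP : Acy (univ : Set P)) {F : P → X → Y} (hF : Continuous fun p : X × P => F p.2 p.1)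
    (hK : IsClosed K) (hA : IsClosed A) (FK : ∀ s, MapsTo (F s) K K')
    (FA : ∀ s, MapsTo (F s) A A') {ψ : AS Y} (h : ψ ∈ (CP K' A').Z n) (s t : P) :
    pull (F s) ψ - pull (F t) ψ ∈ (CP K A).B n := by
  have h1 := (pull_mor (K := Prod.fst ⁻¹' K) (A := Prod.fst ⁻¹' A) hF (fun p hp => FK p.2 hp)
    (fun p hp => FA p.2 hp)).mem_Z h
  obtain ⟨u, hu, e⟩ := (fst_qia hP hK hA).sur n _ h1
  have key : ∀ s, pull (F s) ψ - u ∈ (CP K A).B n := fun s => by
    have := (pull_mor (g := fun x => (x, s)) (K := K) (A := A) (K' := Prod.fst ⁻¹' K)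
      (A' := Prod.fst ⁻¹' A) (by fun_prop) (fun _ h => h) fun _ h => h).mem_B
      (sub_mem h1 ((pull_mor continuous_fst (fun _ h => h) fun _ h => h).mem_Z hu)).1 e
    rw [add_zero, add_zero] at this
    refine Cx.meq this ?_
    show pull _ (pull _ ψ - pull _ u) = _
    rw [map_sub, pull_pull, pull_pull]
    exact congrArg₂ _ rfl (pull_id u)
  exact Cx.meq (sub_mem (key s) (key t)) (sub_sub_sub_cancel_right _ _ _)

/-- HTPY -/
theorem hty {F : I → X → Y} (hF : Continuous fun p : X × I => F p.2 p.1)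
    (hK : IsClosed K) (hA : IsClosed A) (FK : ∀ s, MapsTo (F s) K K')
    (FA : ∀ s, MapsTo (F s) A A') {ψ : AS Y} (h : ψ ∈ (CP K' A').Z n) :
    pull (F 0) ψ - pull (F 1) ψ ∈ (CP K A).B n := hty_acy acy_I hF hK hA FK FA h 0 1

/-- HTPY with a real parameter -/
theorem htyR {F : ℝ → X → Y} (hF : Continuous fun p : X × I => F p.2 p.1)
    (hK : IsClosed K) (hA : IsClosed A) (FK : ∀ s ∈ Icc (0 : ℝ) 1, MapsTo (F s) K K')
    (FA : ∀ s ∈ Icc (0 : ℝ) 1, MapsTo (F s) A A') {ψ : AS Y} (h : ψ ∈ (CP K' A').Z n) :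
    pull (F 0) ψ - pull (F 1) ψ ∈ (CP K A).B n :=
  hty (F := fun s : I => F s) hF hK hA (fun s => FK s s.2) (fun s => FA s s.2) h

/-- a pair that deforms into the small set is exact -/
theorem ac_of_deform {F : I → X → X} (hF : Continuous fun p : X × I => F p.2 p.1)
    (hK : IsClosed K) (hA : IsClosed A) (FK : ∀ s, MapsTo (F s) K K) (FA : ∀ s, MapsTo (F s) A A)
    (F0 : ∀ x ∈ K, F 0 x = x) (F1 : MapsTo (F 1) K A) (n : ℤ) : (CP K A).Ac n := fun φ hφ => by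
  have hc : ∀ s, Continuous (F s) := fun s => hF.comp (f := fun x => (x, s)) (by fun_prop)
  have h0 := eqOn_B continuous_id (hc 0) hK hA (fun x hx => (F0 x hx).symm) (mapsTo_id _)
    (mapsTo_id _) (FA 0) hφ
  have h2 : pull (F 1) φ ∈ (CP K A).B n := Cx.N_le_B (mem_cp_N.2 fun t ht =>
    z_pull (hc 1).continuousAt ((mem_cp_Z.1 hφ).1.2 _ (F1 ht)))
  rw [pull_id] at h0
  exact Cx.meq (add_mem (add_mem h0 (hty hF hK hA FK FA hφ)) h2) (by abel)

/-- a contractible set is acyclic -/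
theorem acy_of_contr {F : I → X → X} (hF : Continuous fun p : X × I => F p.2 p.1)
    (hK : IsClosed K) (FK : ∀ s, MapsTo (F s) K K) (F0 : ∀ x ∈ K, F 0 x = x) {x₀ : X}
    (F1 : ∀ x ∈ K, F 1 x = x₀) (h₀ : x₀ ∈ K) : Acy K := by
  refine ⟨⟨x₀, h₀⟩, fun n φ hφ => ⟨φ.1 [x₀], ?_⟩⟩
  have hc : ∀ s, Continuous (F s) := fun s => hF.comp (f := fun x => (x, s)) (by fun_prop)
  have h0 := eqOn_B continuous_id (hc 0) hK isClosed_empty (fun x hx => (F0 x hx).symm)
    (mapsTo_id _) (mapsTo_id _) (mapsTo_empty _ _) hφ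
  have h1 := hty hF hK isClosed_empty FK (fun _ => mapsTo_empty _ _) hφ
  have hx : φ ∈ (CP {x₀} ∅).Z n := mem_cp_Z.2 ⟨(mem_cp_Z.1 hφ).1, fun t ht =>
    (mem_cp_Z.1 hφ).2 t (ht ▸ h₀)⟩
  have h2 := (pull_mor (K := K) (K' := {x₀}) (hc 1) F1 (mapsTo_empty _ _)).mem_B
    (sub_mem hx (val_smul_one_Z (mem_cp_Z.1 hφ).1.1 x₀)).1 (stalk_B hx)
  rw [pull_id] at h0
  rw [add_zero] at h2
  exact Cx.meq (add_mem (add_mem h0 h1) h2) (by simp)

/-- a compact star-convex set is acyclic -/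
theorem acy_star {V : Type} [AddCommGroup V] [Module ℝ V] [TopologicalSpace V]
    [IsTopologicalAddGroup V] [ContinuousSMul ℝ V] [T2Space V] {s : Set V} [CompactSpace s]
    {v : V} (hv : v ∈ s) (h : StarConvex ℝ v s) : Acy (univ : Set s) := by
  refine acy_of_contr (F := fun t x => ⟨(t : ℝ) • v + (1 - t : ℝ) • x.1,
    h x.2 t.2.1 (sub_nonneg.2 t.2.2) (by ring)⟩) (by fun_prop) isClosed_univ
    (fun _ => mapsTo_univ _ _) (fun x _ => by simp) (x₀ := ⟨v, hv⟩) (fun x _ => by simp) trivial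

end Pool.Agent.CS.AS
end
end
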