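import Pool.Agent.K.MP_d34769_ag.C108
import Pool.Agent.K.MP_d34769_ag.C26
import Pool.Agent.K.MP_d34769_ag.C43

/-! The product of a space and a diagram. -/

open Set
open Pool.Agent.HT (BG)

noncomputable section
namespace Pool.Agent.CS

theorem AS.s_mul {X : Type} (φ ψ : AS X) :
    (AS.gc X).s (φ * ψ) = (AS.gc X).s φ * (AS.gc X).s ψ := AS.ext fun l => by
  simp only [AS.coe_s, AS.coe_mul, LA.cup_apply, LA.sg_apply, Finset.mul_sum]
  refine Finset.sum_congr rfl fun i hi => ?_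
  obtain ⟨k, hk⟩ := Nat.exists_eq_add_of_lt (Finset.mem_range.1 hi)
  rw [List.length_take, List.length_drop, hk, min_eq_left (by omega),
    show i + k + 1 - i = k + 1 by omega]
  ring

theorem AS.pull_sg {X Y : Type} (g : X → Y) (φ : AS Y) :
    AS.pull g ((AS.gc Y).s φ) = (AS.gc X).s (AS.pull g φ) :=
  Gc.map_s (f := AS.pl g) (AS.pull_e g) φ

namespace AS
variable {X Y X' Y' : Type}

/-- the cross product -/
def xp : AS X →ₗ[ℂ] AS Y →ₗ[ℂ] AS (X × Y) :=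
  (LinearMap.mul ℂ _).compl₁₂ (pl Prod.fst) (pl Prod.snd)

theorem xp_apply (φ : AS X) (ψ : AS Y) : xp φ ψ = pull Prod.fst φ * pull Prod.snd ψ := rfl

theorem xp_d (φ : AS X) (ψ : AS Y) : d (xp φ ψ) = xp (d φ) ψ + xp ((gc X).s φ) (d ψ) := by
  simp only [xp_apply, d_mul, pull_d, pull_sg]

theorem xp_s (φ : AS X) (ψ : AS Y) : (gc _).s (xp φ ψ) = xp ((gc X).s φ) ((gc Y).s ψ) := by
  simp only [xp_apply, s_mul, pull_sg]

theorem xp_pull (f : X' → X) (g : Y' → Y) (φ : AS X) (ψ : AS Y) :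
    pull (Prod.map f g) (xp φ ψ) = xp (pull f φ) (pull g ψ) := by
  simp only [xp_apply, map_mul, pull_pull]
  rfl

theorem xp_left (f : X' → X) (φ : AS X) (ψ : AS Y) :
    pull (Prod.map f id) (xp φ ψ) = xp (pull f φ) ψ := by rw [xp_pull, pull_id]

theorem xp_right (g : Y' → Y) (φ : AS X) (ψ : AS Y) :
    pull (Prod.map id g) (xp φ ψ) = xp φ (pull g ψ) := by rw [xp_pull, pull_id]

theorem xp_one (t : X) (ψ : AS Y) : pull (Prod.mk t) (xp 1 ψ) = ψ := by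
  rw [xp_apply, map_one, one_mul, pull_pull]
  exact pull_id _

theorem xp_G {p q : ℤ} {φ : AS X} {ψ : AS Y} (h : φ ∈ G X p) (h' : ψ ∈ G Y q) :
    xp φ ψ ∈ G (X × Y) (p + q) := mul_mem_G (pull_mem_G _ h) (pull_mem_G _ h')

variable [TopologicalSpace X] [CompactSpace X] [T2Space X] [TopologicalSpace Y] [CompactSpace Y]
  [T2Space Y] {V : Set X}

theorem xp_zz {φ : AS X} (h : φ ∈ zz V) (ψ : AS Y) (L : Set Y) : xp φ ψ ∈ zz (V ×ˢ L) :=
  (sc _).mem_zz.2 fun _ ht => z_mul_right (z_pull continuousAt_fst ((sc _).mem_zz.1 h _ ht.1)) _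

theorem xp_zz' (V : Set X) (φ : AS X) {ψ : AS Y} {L : Set Y} (h : ψ ∈ zz L) :
    xp φ ψ ∈ zz (V ×ˢ L) :=
  (sc _).mem_zz.2 fun _ ht => z_mul_left _ (z_pull continuousAt_snd ((sc _).mem_zz.1 h _ ht.2))

end AS

theorem Sys.tot_G {S : Sh} {T : S.ι → Type} [∀ i, AddCommGroup (T i)] [∀ i, Module ℂ (T i)]
    (Y : Sys S T) (n : ℤ) : Y.tot.G n = degZ Y.bg n := by
  ext x
  rw [Gc.mem_G, mem_degZ]
  refine ⟨fun h p q e => ?_, fun h m e => Y.bg.ext _ fun p q => ?_⟩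
  · have := Y.bg.e_tr (p + q) p q x
    rw [show Y.bg.tr (p + q) x = 0 from h _ (by push_cast; exact e), map_zero, if_pos rfl] at this
    exact this.symm
  · refine (Y.bg.e_tr m p q x).trans ?_
    split_ifs with e'
    exacts [h p q (by omega), rfl]

namespace Dg
variable {S : Sh} (Q : Dg S) (X : Type) [TopologicalSpace X] [CompactSpace X] [T2Space X]
  {Γ : Type} [Group Γ]

/-- the product of a space and a diagram -/
def lp : Dg S where
  X j := X × Q.X j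
  mp h := (ContinuousMap.id X).prodMap (Q.mp h)
  comp h h' x := Prod.ext rfl (Q.comp h h' x.2)

/-- the projection to the space -/
def lpOv : Ov (Q.lp X) X := ⟨fun _ => ContinuousMap.fst, fun _ _ => rfl⟩

variable {Q}

/-- the action on the product -/
def Act.lp (G : Act Q Γ) : Act (Q.lp X) Γ :=
  { G with
    t := fun g _ _ e => (ContinuousMap.id X).prodMap (G.t g e)
    t_one := fun h x => Prod.ext rfl (G.t_one h x.2)
    t_mul := fun g g' _ _ _ h' h h'' x => Prod.ext rfl (G.t_mul g g' h' h h'' x.2)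
    t_mp := fun g _ _ _ _ h h' e e' x => Prod.ext rfl (G.t_mp g h h' e e' x.2) }

variable {X}

/-- the product of a set and a family -/
def Fam.lp (V : Set X) (K : Q.Fam) : (Q.lp X).Fam :=
  ⟨fun j => V ×ˢ K.A j, fun h _ hx => ⟨hx.1, K.mp h hx.2⟩⟩

theorem Fam.Cl.lp {V : Set X} {K : Q.Fam} (hV : IsClosed V) (hK : K.Cl) : (Fam.lp V K).Cl :=
  fun j => hV.prod (hK j)

theorem Fam.lp_inf (V : Set X) (K : Q.Fam) : Fam.lp univ K ⊓ (Q.lpOv X).fam V = Fam.lp V K :=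
  Fam.ext (funext fun _ => Set.ext fun _ => ⟨fun h => ⟨h.2, h.1.2⟩, fun h => ⟨⟨trivial, h.2⟩, h.1⟩⟩)

theorem Fam.bot_sup' (K : Q.Fam) : ⊥ ⊔ K = K := Fam.ext (funext fun _ => empty_union _)

theorem Act.inv_lp (G : Act Q Γ) (V : Set X) {K : Q.Fam} (h : G.Inv K) :
    (G.lp X).Inv (Fam.lp V K) := fun g _ _ e _ hx => ⟨hx.1, h g e hx.2⟩

/-- the cross product of a cochain on the space with `c` -/
def lcr (c : Q.T) : AS X →ₗ[ℂ] (Q.lp X).T := LinearMap.pi fun j => AS.xp.flip (c j)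

theorem lcr_apply (c : Q.T) (z : AS X) (j : S.ι) : lcr c z j = AS.xp z (c j) := rfl

theorem lcr_d (c : Q.T) (z : AS X) : (Q.lp X).sys.tot.d (lcr c z) =
    lcr c (AS.d z) + lcr (Q.sys.tot.d c) ((AS.gc X).s z) := by
  funext j
  have h := mat_op (μ := S.ε) (g := @Q.sys.pl) (g₂ := @(Q.lp X).sys.pl) (i := j) (c := c)
    (c' := lcr c z) (AS.xp z) fun k r _ => (AS.xp_right _ _ _).symm
  rw [Sys.tot_d, ← h]
  show AS.d (AS.xp z (c j)) + (AS.gc (X × Q.X j)).s (AS.xp z _) =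
    AS.xp (AS.d z) (c j) + AS.xp ((AS.gc X).s z) (AS.d (c j) + (AS.gc (Q.X j)).s _)
  rw [AS.xp_d, AS.xp_s, map_add, add_assoc]
  rfl

theorem lcr_s (c : Q.T) (z : AS X) :
    (Q.lp X).sys.tot.s (lcr c z) = lcr (Q.sys.tot.s c) ((AS.gc X).s z) := by
  funext j
  show (-1 : ℂ) ^ S.deg j • (AS.gc (X × Q.X j)).s (AS.xp z (c j)) =
    AS.xp ((AS.gc X).s z) ((-1 : ℂ) ^ S.deg j • (AS.gc (Q.X j)).s (c j))
  rw [AS.xp_s, map_smul]

theorem lcr_G {c : Q.T} {z : AS X} {p q : ℤ} (hz : z ∈ AS.G X p) (hc : c ∈ Q.sys.tot.G q) :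
    lcr c z ∈ (Q.lp X).sys.tot.G (p + q) := (Sys.mem_tot_G _).2 fun j => by
  rw [add_sub_assoc]
  exact AS.xp_G hz ((Sys.mem_tot_G _).1 hc j)

theorem lcr_r (G : Act Q Γ) (g : Γ) (c : Q.T) (z : AS X) :
    (G.lp X).r g (lcr c z) = lcr (G.r g c) z := by
  funext j
  rw [(G.lp X).r_apply g _ rfl, lcr_apply, lcr_apply, G.r_apply g c rfl, map_smul]
  exact congrArg _ (AS.xp_right _ _ _)

variable {β : Type} {q : β → ℕ} {c : β → Q.T} {K : Q.Fam}

/-- the sum of the cross products -/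
def kmap (c : β → Q.T) : (β →₀ AS X) →ₗ[ℂ] (Q.lp X).T := Finsupp.lsum ℂ fun b => lcr (c b)

theorem kmap_apply (u : β →₀ AS X) : kmap c u = ∑ b ∈ u.support, lcr (c b) (u b) := rfl

theorem kmap_mem {U : Submodule ℂ (Q.lp X).T} {u : β →₀ AS X} (h : ∀ b, lcr (c b) (u b) ∈ U) :
    kmap c u ∈ U := U.sum_mem fun b _ => h b

theorem kmap_single (b : β) (z : AS X) : kmap c (Finsupp.single b z) = lcr (c b) z := by
  rw [kmap, Finsupp.lsum_single]

theorem cw_single {V : Type} [AddCommGroup V] [Module ℂ V] (f : β → Module.End ℂ V) (b : β)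
    (z : V) : cw f (Finsupp.single b z) = Finsupp.single b (f b z) := by
  rw [cw, Finsupp.lsum_single]; rfl

theorem kmap_d (u : β →₀ AS X) : (Q.lp X).sys.tot.d (kmap c u) =
    kmap c (((AS.gc X).fs β q).d u) +
      kmap (fun b => Q.sys.tot.d (c b)) (cw (fun _ => (AS.gc X).s) u) := by
  induction u using Finsupp.induction_linear with
  | zero => simp
  | add u v h h' => simp only [map_add, h, h']; abel
  | single b z =>
    rw [kmap_single, lcr_d, cw_single, kmap_single]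
    congr 1
    exact (kmap_single b _).symm.trans (congrArg _ (Finsupp.mapRange_single (hf := map_zero _)).symm)

theorem kmap_s (hc : ∀ b, c b ∈ Q.sys.tot.G (q b)) (u : β →₀ AS X) :
    kmap c (((AS.gc X).fs β q).s u) = (Q.lp X).sys.tot.s (kmap c u) := by
  induction u using Finsupp.induction_linear with
  | zero => simp
  | add u v h h' => simp only [map_add, h, h']
  | single b z =>
    rw [kmap_single, lcr_s, Gc.s_of_G _ (hc b)]
    refine (congrArg _ (cw_single _ b z)).trans ((kmap_single b _).trans ?_)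
    rw [LinearMap.smul_apply, map_smul]
    exact funext fun j => (map_smul (AS.xp _) _ _).symm

theorem mem_Z_tot {A : Q.Fam} {n : ℤ} {x : Q.T} : x ∈ (bc K A).cx.Z n ↔
    (x ∈ Q.sys.tot.G n ∧ ∀ j, x j ∈ zz (A.A j)) ∧ ∀ j, Q.sys.tot.d x j ∈ zz (K.A j) := by
  rw [Sys.tot_G, ← mem_U (K := K), ← mem_N (A := A)]
  rfl

variable [Fintype Γ] {G : Act Q Γ} (hK : K.Cl) (iK : G.Inv K)

/-- the invariant cochains near `X × K` as a soft complex over `X` -/
abbrev lpSc : SC X (Q.lp X).T :=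
  ((G.lp X).sc_act (Q.lpOv X) (fun _ _ _ _ _ => rfl) (hK.lp isClosed_univ) Fam.cl_bot
    (G.inv_lp univ iK) (G.lp X).inv_bot).inv

theorem lpSc_cx (V W : Set X) : (lpSc hK iK).cx V W =
    ((G.lp X).bc (G.inv_lp V iK) (G.inv_lp W iK)).cx := by
  have h := (Q.lpOv X).scr_cx (hK.lp isClosed_univ) Fam.cl_bot V W
  rw [Fam.lp_inf, Fam.lp_inf, Fam.bot_sup'] at h
  rw [SC.Act.inv_cx, Bc.Act.inv_cx]
  exact SC.ya3_ext rfl (funext fun n => congrArg (fun C : Cx _ => C.G n ⊓ Fix (G.lp X).r) h)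
    (congrArg Cx.N h :)

theorem kmap_mor (hc : ∀ b, c b ∈ (G.bc iK G.inv_bot).cx.Z (q b)) :
    ((AS.sc X).fs β q).Mor (lpSc hK iK) (kmap c) 0 := by
  have h0 : ∀ b, c b ∈ (bc K ⊥).cx.Z (q b) := fun b => ⟨⟨(hc b).1.1, (hc b).1.2.1⟩, (hc b).2⟩
  have hz : ∀ (t : X) (x : (Q.lp X).T), x ∈ (lpSc hK iK).z t ↔ ∀ j, x j ∈ zz ({t} ×ˢ K.A j) :=
    fun t x => by
      show x ∈ (bc (Fam.lp univ K ⊓ (Q.lpOv X).fam {t}) ⊥).N ↔ _
      rw [Fam.lp_inf, mem_N]
      rfl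
  refine ⟨fun n u hu => ?_, fun t u hu => kmap_mem fun b => (hz t _).2 fun j => AS.xp_zz ?_ _ _,
    fun t u => ?_⟩
  · rw [SC.Act.inv_G, add_zero]
    refine kmap_mem fun b => ⟨⟨?_, mem_U.2 fun j => (AS.sc _).mem_zz.2 fun _ h => h.elim⟩,
      mem_Fix.2 fun g => by rw [lcr_r, mem_Fix.1 (hc b).1.2.2]⟩
    have := lcr_G ((Submodule.mem_iInf _).1 hu b) (mem_Z_tot.1 (h0 b)).1.1
    rwa [sub_add_cancel, Sys.tot_G] at this
  · exact (AS.sc _).mem_zz.2 fun _ e => e ▸ (Submodule.mem_iInf _).1 hu b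
  · have e : kmap c (((AS.sc X).fs β q).d u) - (lpSc hK iK).d (kmap c u) =
        -kmap (fun b => Q.sys.tot.d (c b)) (cw (fun _ => (AS.gc X).s) u) := by
      rw [show (lpSc hK iK).d (kmap c u) = _ from kmap_d (q := q) u, ← sub_sub]
      exact (congrArg (· - _) (sub_self _)).trans (zero_sub _)
    rw [e]
    exact neg_mem (kmap_mem fun b => (hz t _).2 fun j => AS.xp_zz' _ _ ((mem_Z_tot.1 (h0 b)).2 j))

/-- the slice over a point -/
def sl (Q : Dg S) (t : X) (j : S.ι) : C(Q.X j, (Q.lp X).X j) := ⟨Prod.mk t, by fun_prop⟩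

theorem sl_mor (t : X) : (bc (Fam.lp {t} K) (Fam.lp ∅ K)).Mor (bc K ⊥) (dpl (Q.sl t)) 0 :=
  Com.mor (fun _ _ => rfl) (fun _ _ h => ⟨rfl, h⟩) fun _ => mapsTo_empty _ _

omit [Fintype Γ] in
theorem sl_r (t : X) (g : Γ) (x : (Q.lp X).T) :
    dpl (Q.sl t) ((G.lp X).r g x) = G.r g (dpl (Q.sl t) x) :=
  G.dpl_r (G.lp X) (Q.sl t) rfl rfl (fun _ _ _ _ _ _ => rfl) g x

theorem sl_qia (t : X) : ((lpSc hK iK).cx {t} ∅).Mor (G.bc iK G.inv_bot).cx (dpl (Q.sl t)) 0 ∧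
    ((lpSc hK iK).cx {t} ∅).QIa (G.bc iK G.inv_bot).cx (dpl (Q.sl t)) 0 := by
  rw [lpSc_cx, Bc.Act.inv_cx, Bc.Act.inv_cx]
  refine ⟨Cx.Act.mor_inv _ _ (sl_mor t).cx (sl_r t), fun n => Cx.Act.qi_inv _ _ (sl_mor t).cx (sl_r t)
    (Bc.filta_cx (sl_mor t) (fun p n => dpl_col_qi p fun j _ => ?_) n)⟩
  refine AS.exc' (Q.sl t j).continuous (isClosed_singleton.prod (hK j))
    (isClosed_empty.prod (hK j)) ?_ ?_ ?_ n
  · rintro ⟨_, y⟩ ⟨⟨rfl, -⟩, -⟩
    exact ⟨y, rfl, fun _ e => congrArg Prod.snd e⟩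
  · exact Set.ext fun _ => ⟨fun h => h.2, fun h => ⟨rfl, h⟩⟩
  · exact Set.ext fun _ => ⟨fun h => h.1, fun h => h.elim⟩

theorem stalk_qia (hb : (G.bc iK G.inv_bot).cx.Bas q c) (t : X) :
    (((AS.sc X).fs β q).cx {t} ∅).QIa ((lpSc hK iK).cx {t} ∅) (kmap c) 0 := by
  have m₁ := (kmap_mor (X := X) hK iK hb.mem).cx {t} ∅
  obtain ⟨m₂, q₂⟩ := sl_qia hK iK t
  have m := m₂.comp m₁
  refine Cx.QIa.left m₁ m₂ q₂ (Cx.qia_iff.2 fun n => ?_)
  let o : (β →₀ ℂ) →ₗ[ℂ] β →₀ AS X :=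
    Finsupp.mapRange.linearMap (LinearMap.toSpanSingleton ℂ _ (1 : AS X))
  have ho : ∀ v b, o v b = v b • (1 : AS X) := fun _ _ => rfl
  have h1 : ∀ v, (dpl (Q.sl t) ∘ₗ kmap c) (o v) = Finsupp.linearCombination ℂ c v := fun v => by
    induction v using Finsupp.induction_linear with
    | zero => simp only [map_zero]
    | add u v h h' => simp only [map_add, h, h']
    | single b a =>
      rw [Finsupp.linearCombination_single, show o (Finsupp.single b a) =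
        Finsupp.single b (a • 1) from Finsupp.mapRange_single (hf := map_zero _),
        LinearMap.comp_apply, kmap_single, map_smul, map_smul]
      exact congrArg _ (funext fun j => AS.xp_one t _)
  have hG : ∀ {k : ℤ} {u : β →₀ AS X}, u ∈ (((AS.sc X).fs β q).cx {t} ∅).G k ↔
      ∀ b, u b ∈ AS.G X (k - q b) :=
    ⟨fun h => (Submodule.mem_iInf _).1 h.1,
      fun h => ⟨(Submodule.mem_iInf _).2 h, (SC.mem_zz _).2 fun _ h => h.elim⟩⟩
  have hN : ∀ {u : β →₀ AS X}, u ∈ (((AS.sc X).fs β q).cx {t} ∅).N ↔ ∀ b, u b ∈ AS.z t :=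
    ⟨fun h => (Submodule.mem_iInf _).1 ((SC.mem_zz _).1 h t rfl),
      fun h => (SC.mem_zz _).2 fun _ e => e ▸ (Submodule.mem_iInf _).2 h⟩
  have h2 : ∀ v : β →₀ ℂ, (∀ b ∈ v.support, (q b : ℤ) = n) →
      o v ∈ (((AS.sc X).fs β q).cx {t} ∅).Z n := fun v hv => by
    refine ⟨hG.2 fun b => ?_, hN.2 fun b => ?_⟩
    · by_cases e : b ∈ v.support
      · rw [ho, hv b e, sub_self]
        exact Submodule.smul_mem _ _ AS.one_mem_G
      · rw [ho, Finsupp.notMem_support_iff.1 e, zero_smul]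
        exact zero_mem _
    · show AS.d (v b • 1) ∈ _
      rw [map_smul, AS.d_one, smul_zero]
      exact zero_mem _
  refine ⟨fun u hu e => ?_, fun y hy => ?_⟩
  · let v : β →₀ ℂ := u.mapRange (fun z => z.1 [t]) rfl
    have hv : ∀ b ∈ v.support, (q b : ℤ) = n := fun b h => by
      by_contra e'
      exact Finsupp.mem_support_iff.1 h (AS.mem_G.1 (hG.1 hu.1 b) [t] (by simp; omega))
    have h3 : u - o v ∈ (((AS.sc X).fs β q).cx {t} ∅).B n :=
      Cx.mem_B.2 ⟨Finsupp.mapRange.linearMap (AS.cone t) u, hG.2 fun b => by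
        rw [sub_right_comm]; exact AS.cone_mem_G t (hG.1 hu.1 b),
        hN.2 fun b => AS.stalk (hN.1 hu.2 b)⟩
    have h4 := sub_mem e (m.mem_B (sub_mem hu.1 (h2 v hv).1) h3)
    rw [map_sub, sub_sub_cancel, h1] at h4
    rwa [hb.ind n v hv (Cx.Bcast h4 (by simp)), map_zero, sub_zero] at h3
  · obtain ⟨v, hv, e⟩ := hb.span n y (Cx.Zcast hy (by simp))
    exact ⟨o v, h2 v hv, by rw [h1]; exact Cx.Bcast e (by simp)⟩

include hK in
/-- the Kuenneth formula for the product of a space and a diagram -/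
theorem lp_qia (hb : (G.bc iK G.inv_bot).cx.Bas q c) {V W : Set X} (hV : IsClosed V)
    (hW : IsClosed W) :
    (((AS.sc X).fs β q).cx V W).Mor ((G.lp X).bc (G.inv_lp V iK) (G.inv_lp W iK)).cx (kmap c) 0 ∧
    (((AS.sc X).fs β q).cx V W).QIa ((G.lp X).bc (G.inv_lp V iK) (G.inv_lp W iK)).cx
      (kmap c) 0 := by
  rw [← lpSc_cx hK iK]
  exact ⟨(kmap_mor hK iK hb.mem).cx V W,
    SC.soft_qia (kmap_mor hK iK hb.mem) hV hW fun t _ => stalk_qia hK iK hb t⟩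

end Dg

end Pool.Agent.CS
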