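import Pool.Agent.K.MP_d34769_ag.C10

namespace Pool.Agent.P.MP_d34769_ag

open LaurentPolynomial Matrix Module

variable {K : Type} [Field K]

namespace Bundle

variable {n : ℕ} {d : ℤ} (E : Bundle K n d)

lemma isUnit_det : IsUnit E.g.det := by
  obtain ⟨c, hc, h⟩ := E.det_eq
  rw [h]
  exact ((Ne.isUnit hc).map C).mul (isUnit_T d)

/-- inverse transition matrix -/
noncomputable def h : Matrix (Fin n) (Fin n) (LaurentPolynomial K) := E.g⁻¹

lemma g_h : E.g * E.h = 1 := Matrix.mul_nonsing_inv _ E.isUnit_det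
lemma h_g : E.h * E.g = 1 := Matrix.nonsing_inv_mul _ E.isUnit_det

lemma sec_iff (m : ℤ) (p : Fin n → LaurentPolynomial K) :
    Sec E m p ↔ (∀ i, Ge 0 (p i)) ∧ ∀ i, Le m ((E.h *ᵥ p) i) := by
  refine and_congr Iff.rfl ⟨?_, fun hp => ?_⟩
  · rintro ⟨r, hr, rfl⟩ i
    rw [Matrix.mulVec_smul, Matrix.mulVec_mulVec, E.h_g, Matrix.one_mulVec, Pi.smul_apply,
      smul_eq_mul, le_T_mul, sub_self]
    exact hr i
  · refine ⟨(T (-m) : LaurentPolynomial K) • (E.h *ᵥ p), fun i => ?_, ?_⟩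
    · rw [inv_iff, Pi.smul_apply, smul_eq_mul, le_T_mul]; simpa using hp i
    · rw [Matrix.mulVec_smul, Matrix.mulVec_mulVec, E.g_h, Matrix.one_mulVec, smul_smul,
        T_mul_T_neg, one_smul]

/-- sections of `E(m)` -/
def F (m : ℤ) : Submodule K (Fin n → LaurentPolynomial K) where
  carrier := {p | Sec E m p}
  add_mem' := by
    intro p q hp hq
    rw [Set.mem_ofPred_eq, sec_iff] at *
    exact ⟨fun i => (hp.1 i).add (hq.1 i), fun i => by
      rw [Matrix.mulVec_add]; exact (hp.2 i).add (hq.2 i)⟩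
  zero_mem' := by
    rw [Set.mem_ofPred_eq, sec_iff]
    exact ⟨fun i => Ge.zero _, fun i => by simpa using Le.zero m⟩
  smul_mem' := by
    intro c p hp
    rw [Set.mem_ofPred_eq, sec_iff] at *
    exact ⟨fun i => (hp.1 i).smul c, fun i => by rw [mulVec_smul_K]; exact (hp.2 i).smul c⟩

lemma mem_F {m : ℤ} {p : Fin n → LaurentPolynomial K} : p ∈ E.F m ↔ Sec E m p := Iff.rfl

lemma F_mono {m m' : ℤ} (hm : m ≤ m') : E.F m ≤ E.F m' := by
  intro p hp
  rw [mem_F, sec_iff] at *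
  exact ⟨hp.1, fun i => (hp.2 i).mono hm⟩

lemma T_smul_mem {m : ℤ} {p : Fin n → LaurentPolynomial K} (hp : p ∈ E.F m) :
    (T 1 : LaurentPolynomial K) • p ∈ E.F (m + 1) := by
  rw [mem_F, sec_iff] at *
  refine ⟨fun i => ?_, fun i => ?_⟩
  · rw [Pi.smul_apply, smul_eq_mul, ge_T_mul]; exact (hp.1 i).mono (by omega)
  · rw [Matrix.mulVec_smul, Pi.smul_apply, smul_eq_mul, le_T_mul]; simpa using hp.2 i

lemma mem_of_T_smul {m : ℤ} {p : Fin n → LaurentPolynomial K} (h0 : ∀ i, Ge 0 (p i))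
    (hp : (T 1 : LaurentPolynomial K) • p ∈ E.F (m + 1)) : p ∈ E.F m := by
  rw [mem_F, sec_iff] at *
  refine ⟨h0, fun i => ?_⟩
  have := hp.2 i
  rw [Matrix.mulVec_smul, Pi.smul_apply, smul_eq_mul, le_T_mul] at this
  simpa using this

lemma exists_mem_F {p : Fin n → LaurentPolynomial K} (hp : ∀ i, Ge 0 (p i)) :
    ∃ m, p ∈ E.F m := by
  obtain ⟨m, hm⟩ := exists_le_fam (fun i => (E.h *ᵥ p) i)
  exact ⟨m, (E.sec_iff m p).2 ⟨hp, hm⟩⟩

end Bundle

/-- vectors with `j`-th entry in the window `[0, a j]` -/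
noncomputable def winPi (K : Type) [Field K] {r : ℕ} (a : Fin r → ℤ) :
    Submodule K (Fin r → LaurentPolynomial K) := Submodule.pi Set.univ fun j => win K (a j)

lemma mem_winPi {r : ℕ} {a : Fin r → ℤ} {c : Fin r → LaurentPolynomial K} :
    c ∈ winPi K a ↔ ∀ j, Ge 0 (c j) ∧ Le (a j) (c j) := by
  simp only [winPi, Submodule.mem_pi, Set.mem_univ, true_imp_iff]; rfl

/-- product decomposition -/
noncomputable def winPiEquiv (K : Type) [Field K] {r : ℕ} (a : Fin r → ℤ) :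
    winPi K a ≃ₗ[K] ((j : Fin r) → win K (a j)) where
  toFun c := fun j => ⟨c.1 j, mem_winPi.1 c.2 j⟩
  map_add' _ _ := rfl
  map_smul' _ _ := rfl
  invFun c := ⟨fun j => (c j).1, mem_winPi.2 fun j => (c j).2⟩
  left_inv _ := rfl
  right_inv _ := rfl

instance {r : ℕ} (a : Fin r → ℤ) : FiniteDimensional K (winPi K a) :=
  (winPiEquiv K a).symm.finiteDimensional

lemma finrank_winPi {r : ℕ} (a : Fin r → ℤ) :
    finrank K (winPi K a) = ∑ j, (a j + 1).toNat := by
  rw [(winPiEquiv K a).finrank_eq, Module.finrank_pi_fintype]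
  simp [finrank_win]

/-- multiplication by a matrix over `K[t,1/t]` as a `K`-linear map -/
noncomputable def mv {n r : ℕ} (A : Matrix (Fin n) (Fin r) (LaurentPolynomial K)) :
    (Fin r → LaurentPolynomial K) →ₗ[K] (Fin n → LaurentPolynomial K) where
  toFun c := A *ᵥ c
  map_add' := Matrix.mulVec_add A
  map_smul' := mulVec_smul_K A

@[simp] lemma mv_apply {n r : ℕ} (A : Matrix (Fin n) (Fin r) (LaurentPolynomial K)) (c) :
    mv A c = A *ᵥ c := rfl

/-- the diagonal matrix of the split bundle -/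
noncomputable def dT {r : ℕ} (K : Type) [Field K] (b : Fin r → ℤ) :
    Matrix (Fin r) (Fin r) (LaurentPolynomial K) := Matrix.diagonal fun j => T (b j)

lemma dT_mul_neg {r : ℕ} (b : Fin r → ℤ) : dT K b * dT K (-b) = 1 := by
  rw [dT, dT, Matrix.diagonal_mul_diagonal, ← Matrix.diagonal_one]
  congr 1
  ext1 j
  exact T_mul_T_neg _

lemma neg_mul_dT {r : ℕ} (b : Fin r → ℤ) : dT K (-b) * dT K b = 1 := by
  simpa using dT_mul_neg (K := K) (-b)

lemma det_dT {r : ℕ} (b : Fin r → ℤ) : (dT K b).det = T (∑ j, b j) := by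
  rw [dT, Matrix.det_diagonal]
  induction (Finset.univ : Finset (Fin r)) using Finset.induction_on with
  | empty => simp
  | insert a s ha ih => rw [Finset.prod_insert ha, Finset.sum_insert ha, T_add, ih]

/-- the split bundle -/
noncomputable def Ob {r : ℕ} (K : Type) [Field K] (b : Fin r → ℤ) (d : ℤ) (hd : ∑ j, b j = d) :
    Bundle K r d := ⟨dT K b, 1, one_ne_zero, by rw [det_dT, hd]; simp⟩

lemma Ob_h {r : ℕ} (b : Fin r → ℤ) (d : ℤ) (hd : ∑ j, b j = d) :
    (Ob K b d hd).h = dT K (-b) := Matrix.inv_eq_right_inv (dT_mul_neg b)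

lemma Ob_F {r : ℕ} (b : Fin r → ℤ) (d : ℤ) (hd : ∑ j, b j = d) (m : ℤ) :
    (Ob K b d hd).F m = winPi K (fun j => m + b j) := by
  ext c
  rw [Bundle.mem_F, Bundle.sec_iff, mem_winPi, Ob_h, ← forall_and]
  refine forall_congr' fun j => and_congr Iff.rfl ?_
  rw [dT, Matrix.mulVec_diagonal, le_T_mul]
  simp

/-- data of a split subsheaf of `E` with affine module `M` -/
structure SubSplit {n : ℕ} {d : ℤ} (E : Bundle K n d)
    (M : Submodule K (Fin n → LaurentPolynomial K)) where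
  r : ℕ
  A : Matrix (Fin n) (Fin r) (LaurentPolynomial K)
  b : Fin r → ℤ
  col : ∀ j, (fun i => A i j) ∈ M
  pol : ∀ i j, Ge 0 (A i j)
  inv : ∀ i j, Le 0 ((E.h * A * dT K b) i j)
  inj : Function.Injective A.mulVec
  eq : ∀ m, M ⊓ E.F m = (winPi K (fun j => m + b j)).map (mv A)

theorem exists_subSplit {n : ℕ} {d : ℤ} (E : Bundle K n d)
    (M : Submodule K (Fin n → LaurentPolynomial K))
    (hT : ∀ p ∈ M, (T 1 : LaurentPolynomial K) • p ∈ M) (hP : ∀ p ∈ M, ∀ i, Ge 0 (p i)) :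
    Nonempty (SubSplit E M) := by
  obtain ⟨r, A, b, h1, h2, h3, h4⟩ := reduced E.g E.h E.g_h M hT hP
  refine ⟨⟨r, A, b, h1, fun i j => hP _ (h1 j) i, fun i j => ?_, h3, fun m => ?_⟩⟩
  · rw [dT, Matrix.mul_diagonal, mul_comm, le_T_mul]; simpa using h2 i j
  · ext p
    constructor
    · rintro ⟨hp, hp'⟩
      obtain ⟨c, hc, rfl⟩ := h4 m p hp ((E.sec_iff m p).1 hp').2
      exact ⟨c, mem_winPi.2 hc, rfl⟩
    · rintro ⟨c, hc, rfl⟩
      have hc := mem_winPi.1 hc
      have hmem : A *ᵥ c ∈ M := by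
        have : A *ᵥ c = ∑ j, c j • fun i => A i j := by
          ext1 i; simp [Matrix.mulVec, dotProduct, mul_comm]
        rw [this]
        exact M.sum_mem fun j _ => smul_mem_of_ge hT (hc j).1 (h1 j)
      refine ⟨hmem, (E.sec_iff m _).2 ⟨hP _ hmem, fun i => ?_⟩⟩
      rw [mv_apply, Matrix.mulVec_mulVec]
      refine Le.sum fun j _ => ?_
      have := (h2 i j).mul (hc j).2
      rwa [show -b j + (m + b j) = m by ring] at this

namespace SubSplit

variable {n : ℕ} {d : ℤ} {E : Bundle K n d} {M : Submodule K (Fin n → LaurentPolynomial K)}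
  (D : SubSplit E M)

lemma finrank_eq (m : ℤ) : finrank K ↥(M ⊓ E.F m) = ∑ j, (m + D.b j + 1).toNat := by
  rw [D.eq, ← finrank_winPi (K := K)]
  exact (Submodule.equivMapOfInjective (mv D.A) D.inj _).symm.finrank_eq

include D in
lemma finiteDim (m : ℤ) : FiniteDimensional K ↥(M ⊓ E.F m) := by
  rw [D.eq]; infer_instance

lemma exists_coord {m : ℤ} {p : Fin n → LaurentPolynomial K} (hp : p ∈ M) (hp' : p ∈ E.F m) :
    ∃ c, (∀ j, Ge 0 (c j) ∧ Le (m + D.b j) (c j)) ∧ p = D.A *ᵥ c := by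
  have : p ∈ M ⊓ E.F m := ⟨hp, hp'⟩
  rw [D.eq] at this
  obtain ⟨c, hc, rfl⟩ := this
  exact ⟨c, mem_winPi.1 hc, rfl⟩

lemma mem_of_coord {m : ℤ} {c : Fin D.r → LaurentPolynomial K}
    (hc : ∀ j, Ge 0 (c j) ∧ Le (m + D.b j) (c j)) : D.A *ᵥ c ∈ M ∧ D.A *ᵥ c ∈ E.F m := by
  have : D.A *ᵥ c ∈ M ⊓ E.F m := by
    rw [D.eq]; exact ⟨c, mem_winPi.2 hc, rfl⟩
  exact this

end SubSplit

/-- the full module `K[t]^n` -/
def M0 (K : Type) [Field K] (n : ℕ) : Submodule K (Fin n → LaurentPolynomial K) where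
  carrier := {p | ∀ i, Ge 0 (p i)}
  add_mem' := fun hp hq i => (hp i).add (hq i)
  zero_mem' := fun _ => Ge.zero _
  smul_mem' := fun c _ hp i => (hp i).smul c

lemma M0_inf {n : ℕ} {d : ℤ} (E : Bundle K n d) (m : ℤ) : M0 K n ⊓ E.F m = E.F m :=
  inf_eq_right.2 fun p hp => ((E.sec_iff m p).1 hp).1

/-- Grothendieck splitting -/
structure Splitting {n : ℕ} {d : ℤ} (E : Bundle K n d) where
  A : Matrix (Fin n) (Fin n) (LaurentPolynomial K)
  B : Matrix (Fin n) (Fin n) (LaurentPolynomial K)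
  b : Fin n → ℤ
  AB : A * B = 1
  BA : B * A = 1
  polA : ∀ i j, Ge 0 (A i j)
  polB : ∀ i j, Ge 0 (B i j)
  invA : ∀ i j, Le 0 ((E.h * A * dT K b) i j)
  invB : ∀ i j, Le 0 ((dT K (-b) * B * E.g) i j)
  sum_b : ∑ j, b j = d
  eq : ∀ m, E.F m = (winPi K (fun j => m + b j)).map (mv A)

theorem exists_splitting {n : ℕ} {d : ℤ} (E : Bundle K n d) : Nonempty (Splitting E) := by
  classical
  obtain ⟨D⟩ := exists_subSplit E (M0 K n)
    (fun p hp i => by
      rw [Pi.smul_apply, smul_eq_mul, ge_T_mul]; exact (hp i).mono (by omega))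
    (fun p hp => hp)
  have hcoord : ∀ p : Fin n → LaurentPolynomial K, (∀ i, Ge 0 (p i)) →
      ∃ c, (∀ j, Ge 0 (c j)) ∧ p = D.A *ᵥ c := by
    intro p hp
    obtain ⟨m, hm⟩ := E.exists_mem_F hp
    obtain ⟨c, hc, h⟩ := D.exists_coord hp hm
    exact ⟨c, fun j => (hc j).1, h⟩
  have hsingle : ∀ j i : Fin n, Ge 0 ((Pi.single j (1 : LaurentPolynomial K) : Fin n → _) i) := by
    intro j i
    by_cases h : i = j
    · subst h; simpa using Ge.one
    · rw [Pi.single_eq_of_ne h]; exact Ge.zero _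
  choose c hc1 hc2 using fun j : Fin n => hcoord (Pi.single j 1) (hsingle j)
  let B : Matrix (Fin D.r) (Fin n) (LaurentPolynomial K) := Matrix.of fun i j => c j i
  have hAB : D.A * B = 1 := by
    ext1 i j
    have := congrFun (hc2 j) i
    rw [Matrix.mul_apply, Matrix.one_apply]
    simp only [Matrix.mulVec, dotProduct] at this
    simp only [B, Matrix.of_apply, ← this, Pi.single_apply]
  have hBA : B * D.A = 1 := by
    have h1 : D.A * (B * D.A) = D.A * (1 : Matrix (Fin D.r) (Fin D.r) (LaurentPolynomial K)) := by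
      rw [← Matrix.mul_assoc, hAB]; simp
    ext1 i j
    have h2 : D.A *ᵥ (fun i => (B * D.A) i j) = D.A *ᵥ (fun i => (1 : Matrix _ _ _) i j) := by
      ext1 k
      exact congrFun (congrFun h1 k) j
    exact congrFun (D.inj h2) i
  have hr : D.r = n := by
    have e : (Fin D.r → LaurentPolynomial K) ≃ₗ[LaurentPolynomial K]
        (Fin n → LaurentPolynomial K) :=
      LinearEquiv.ofLinearMap D.A.mulVecLin B.mulVecLin
        (by rw [← Matrix.mulVecLin_mul, hAB, Matrix.mulVecLin_one])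
        (by rw [← Matrix.mulVecLin_mul, hBA, Matrix.mulVecLin_one])
    simpa using e.finrank_eq
  have hinvB : ∀ i j, Le 0 ((dT K (-D.b) * B * E.g) i j) := by
    intro i j
    obtain ⟨N, hN⟩ := exists_ge_fam (fun i => E.g i j)
    have hp : ∀ i, Ge 0 (((T (-N) : LaurentPolynomial K) • fun i => E.g i j) i) := by
      intro i; rw [Pi.smul_apply, smul_eq_mul, ge_T_mul]; simpa using hN i
    have hF : ((T (-N) : LaurentPolynomial K) • fun i => E.g i j) ∈ E.F (-N) := by
      rw [Bundle.mem_F, Bundle.sec_iff]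
      refine ⟨hp, fun i => ?_⟩
      rw [Matrix.mulVec_smul, Pi.smul_apply, smul_eq_mul, le_T_mul, sub_self]
      have : (E.h *ᵥ fun i => E.g i j) i = (E.h * E.g) i j := rfl
      rw [this, E.h_g, Matrix.one_apply]
      split_ifs
      · exact Le.one
      · exact Le.zero _
    obtain ⟨c', hc', h⟩ := D.exists_coord hp hF
    have h2 : c' = (T (-N) : LaurentPolynomial K) • (B *ᵥ fun i => E.g i j) := by
      rw [← Matrix.mulVec_smul, h, Matrix.mulVec_mulVec, hBA, Matrix.one_mulVec]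
    have h3 := (hc' i).2
    rw [h2, Pi.smul_apply, smul_eq_mul, le_T_mul] at h3
    rw [Matrix.mul_assoc, dT, Matrix.diagonal_mul, le_T_mul]
    have h4 : (B * E.g) i j = (B *ᵥ fun i => E.g i j) i := rfl
    rw [h4]
    convert h3 using 1
    simp
  have hpolB : ∀ i j, Ge 0 (B i j) := fun i j => hc1 j i
  have heq : ∀ m, E.F m = (winPi K (fun j => m + D.b j)).map (mv D.A) := fun m => by
    rw [← D.eq, M0_inf]
  have hpolA := D.pol
  have hinvA := D.inv
  clear_value B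
  generalize D.A = A at *
  generalize D.b = b at *
  generalize D.r = r at *
  subst hr
  refine ⟨⟨A, B, b, hAB, hBA, hpolA, hpolB, hinvA, hinvB, ?_, heq⟩⟩
  obtain ⟨c1, hc1, e1⟩ := const_of_ge (Ge.det hpolA) (Ge.det hpolB)
    (by rw [← Matrix.det_mul, hAB, Matrix.det_one])
  obtain ⟨c2, hc2, e2⟩ := const_of_le (Le.det hinvA) (Le.det hinvB)
    (by
      rw [← Matrix.det_mul]
      have : E.h * A * dT K b * (dT K (-b) * B * E.g) = 1 := by
        calc E.h * A * dT K b * (dT K (-b) * B * E.g)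
            = E.h * (A * ((dT K b * dT K (-b)) * B)) * E.g := by simp only [Matrix.mul_assoc]
          _ = 1 := by rw [dT_mul_neg, Matrix.one_mul, hAB, Matrix.mul_one, E.h_g]
      rw [this, Matrix.det_one])
  obtain ⟨c0, hc0, e0⟩ := E.det_eq
  have e3 : E.g * (E.h * A * dT K b) = A * dT K b := by
    rw [Matrix.mul_assoc, ← Matrix.mul_assoc, E.g_h, Matrix.one_mul]
  have e4 := congrArg Matrix.det e3
  rw [Matrix.det_mul, Matrix.det_mul A, e0, e1, e2, det_dT] at e4
  have e5 : (C c1 * T (∑ j, b j) : LaurentPolynomial K) = C (c0 * c2) * T d := by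
    rw [← e4, map_mul]; ring
  exact T_inj hc1 e5

end Pool.Agent.P.MP_d34769_ag
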