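import Pool.Agent.K.MP_d34769_ag.C110
import Pool.Agent.K.MP_d34769_ag.C84

-- part Pool.Agent.P.MP_d34769_ag.YP3b
section

/-! The cross product and the Kuenneth formula. -/

open Set

noncomputable section
namespace Pool.Agent.CS

/-- the sum of shifted copies of a complex -/
def Cx.fs {T : Type} [AddCommGroup T] [Module ℂ T] (C : Cx T) (β : Type) (q : β → ℕ) :
    Cx (β →₀ T) where
  d := Finsupp.mapRange.linearMap C.d
  G n := ⨅ b, (C.G (n - q b)).comap (Finsupp.lapply b)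
  N := fsub β C.N
  dG n x hx := (Submodule.mem_iInf _).2 fun b =>
    Cx.Gcast (C.dG _ _ ((Submodule.mem_iInf _).1 hx b)) (by ring)
  dN x hx := mem_fsub.2 fun b => C.dN _ (mem_fsub.1 hx b)
  dd n x hx := mem_fsub.2 fun b => C.dd _ _ ((Submodule.mem_iInf _).1 hx b)

section fs
variable {T : Type} [AddCommGroup T] [Module ℂ T] {C : Cx T} {β : Type} {q : β → ℕ} {n : ℤ}
  {u : β →₀ T}

theorem Cx.mem_fs_G : u ∈ (C.fs β q).G n ↔ ∀ b, u b ∈ C.G (n - q b) := Submodule.mem_iInf _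

theorem Cx.mem_fs_Z : u ∈ (C.fs β q).Z n ↔ ∀ b, u b ∈ C.Z (n - q b) :=
  ⟨fun h b => ⟨Cx.mem_fs_G.1 h.1 b, mem_fsub.1 h.2 b⟩,
    fun h => ⟨Cx.mem_fs_G.2 fun b => (h b).1, mem_fsub.2 fun b => (h b).2⟩⟩

theorem Cx.fs_B (h : u ∈ (C.fs β q).B n) (b : β) : u b ∈ C.B (n - q b) := by
  obtain ⟨v, hv, e⟩ := Cx.mem_B.1 h
  exact Cx.mem_B.2 ⟨v b, Cx.Gcast (Cx.mem_fs_G.1 hv b) (by ring), mem_fsub.1 e b⟩

end fs

namespace Dg
variable {S S' : Sh} {hS : S.Refl} {hS' : S'.Refl} {a : ℕ} {P : Dg S} {Q : Dg S'}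
  {Γ : Type} [Group Γ] {β : Type} {q : β → ℕ} {K₁ A : P.Fam} {K : Q.Fam}

theorem mem_G_tot {n : ℤ} {x : P.T} :
    x ∈ (bc K₁ A).cx.G n ↔ x ∈ P.sys.tot.G n ∧ ∀ j, x j ∈ zz (A.A j) := by
  rw [Sys.tot_G, ← mem_U (K := K₁)]
  rfl

theorem mem_cN {x : P.T} : x ∈ (bc K₁ A).cx.N ↔ ∀ j, x j ∈ zz (K₁.A j) := mem_N (A := A)

theorem cross_eq (k : ℕ) (c : Q.T) (x : P.T) : cross P hS hS' a k c x =
    kap hS hS' a P Q fun i => (-1 : ℂ) ^ (k * S.deg i) • lcr c (x i) := by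
  funext ⟨i, j⟩
  rw [cross_apply, pow_add, mul_comm, mul_smul]
  rfl

theorem cross_add (k : ℕ) (c c' : Q.T) (x : P.T) :
    cross P hS hS' a k (c + c') x = cross P hS hS' a k c x + cross P hS hS' a k c' x := by
  funext ⟨i, j⟩
  have e : ∀ (s : ℂ) (y : AS (P.X i)) (z z' : AS (Q.X j)),
      s • AS.xp y (z + z') = s • AS.xp y z + s • AS.xp y z' := fun s y z z' => by
    rw [map_add, smul_add]
  exact e _ _ _ _

theorem cross_zero (k : ℕ) (x : P.T) : cross P hS hS' a k (0 : Q.T) x = 0 := by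
  have := cross_add (hS := hS) (hS' := hS') (a := a) k (0 : Q.T) 0 x
  rwa [add_zero, left_eq_add] at this

theorem cross_d (hP : P.Id) (hQ : Q.Id) {k : ℕ} {c : Q.T} (hc : c ∈ Q.sys.tot.G k) (x : P.T) :
    (P.prod Q hS hS' a).sys.tot.d (cross P hS hS' a k c x) =
      cross P hS hS' a k c (P.sys.tot.d x) +
        cross P hS hS' a (k + 1) (Q.sys.tot.d c) (P.sys.tot.s x) := by
  rw [cross_eq, cross_eq, cross_eq, ← kap_d hP hQ, ← map_add]
  refine congrArg _ (funext fun i => ?_)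
  have h := mat_op (μ := S.ε) (g := @P.sys.pl) (g₂ := @(P.sys2 Q).pl) (i := i) (c := x)
    (c' := fun i => (-1 : ℂ) ^ (k * S.deg i) • lcr c (x i))
    (((-1 : ℂ) ^ k * (-1) ^ (k * S.deg i)) • lcr c) fun l r e => by
      rw [map_smul, (S.sup i l e).2, mul_add, mul_one, pow_add, mul_left_comm, ← mul_pow,
        neg_one_mul, neg_neg, one_pow, mul_one, LinearMap.smul_apply]
      exact congrArg _ (funext fun j => (AS.xp_left _ _ _).symm)
  have e : ∀ y : AS (P.X i), lcr ((-1 : ℂ) ^ k • c) y = (-1 : ℂ) ^ k • lcr c y :=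
    fun y => funext fun j => map_smul (AS.xp y) _ _
  have key : ∀ y m : AS (P.X i),
      (Q.lp (P.X i)).sys.tot.d ((-1 : ℂ) ^ (k * S.deg i) • lcr c y) + (Q.lp (P.X i)).sys.tot.s
        (((-1 : ℂ) ^ k * (-1) ^ (k * S.deg i)) • lcr c m) =
      (-1 : ℂ) ^ (k * S.deg i) • lcr c (AS.d y + (AS.gc _).s m) + (-1 : ℂ) ^ ((k + 1) * S.deg i) •
        lcr (Q.sys.tot.d c) ((-1 : ℂ) ^ S.deg i • (AS.gc _).s y) := fun y m => by
    rw [map_smul, map_smul, lcr_d, lcr_s, Gc.s_of_G _ hc, e, map_add, map_smul, add_mul, one_mul,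
      pow_add, mul_smul ((-1 : ℂ) ^ (k * S.deg i)), sgn_sgn', mul_comm ((-1 : ℂ) ^ k), mul_smul,
      sgn_sgn', smul_add, smul_add, add_right_comm]
  rw [Sys.tot_d, ← h]
  exact key _ _

theorem cross_G {k : ℕ} {c : Q.T} (hc : c ∈ Q.sys.tot.G k) {n : ℤ} {x : P.T}
    (hx : x ∈ P.sys.tot.G n) :
    cross P hS hS' a k c x ∈ (P.prod Q hS hS' a).sys.tot.G (n + (k + a)) :=
  (Sys.mem_tot_G _).2 fun p => sgn_mem.2 (by
    have := AS.xp_G ((Sys.mem_tot_G _).1 hx p.1) ((Sys.mem_tot_G _).1 hc p.2)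
    rwa [show n - S.deg p.1 + (k - S'.deg p.2) = n + (k + a) - (S.deg p.1 + S'.deg p.2 + a : ℕ) by
      push_cast; ring] at this)

theorem cross_zz (k : ℕ) (c : Q.T) {x : P.T} (h : ∀ i, x i ∈ zz (A.A i)) (L : Q.Fam)
    (p : (S.prod S' hS hS' a).ι) :
    cross P hS hS' a k c x p ∈ zz ((A.prod L : (P.prod Q hS hS' a).Fam).A p) :=
  sgn_mem.2 (AS.xp_zz (h p.1) _ _)

theorem cross_zz' (k : ℕ) {c : Q.T} (x : P.T) (h : ∀ j, c j ∈ zz (K.A j)) (A : P.Fam)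
    (p : (S.prod S' hS hS' a).ι) :
    cross P hS hS' a k c x p ∈ zz ((A.prod K : (P.prod Q hS hS' a).Fam).A p) :=
  sgn_mem.2 (AS.xp_zz' _ _ (h p.2))

theorem cross_mor (hP : P.Id) (hQ : Q.Id) {k : ℕ} {c : Q.T} (hc : c ∈ (bc K ⊥).cx.Z k)
    (L : Q.Fam) : (bc K₁ A).cx.Mor (bc (K₁.prod K) (A.prod L)).cx (cross P hS hS' a k c) (k + a) := by
  rw [mem_Z_tot] at hc
  refine ⟨fun n x hx => mem_G_tot.2 ⟨cross_G hc.1.1 (mem_G_tot.1 hx).1,
    cross_zz _ _ (mem_G_tot.1 hx).2 _⟩, fun n x _ hx => mem_cN.2 (cross_zz _ _ (mem_cN.1 hx) _),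
    fun n x _ => ?_⟩
  refine Cx.meq (neg_mem (mem_cN.2 (cross_zz' (k + 1) (P.sys.tot.s x) hc.2 K₁))) ?_
  exact ((congrArg (_ - ·) (cross_d hP hQ hc.1.1 x)).trans (sub_add_cancel_left _ _)).symm

/-- the cross product with a coboundary -/
theorem cross_B (hP : P.Id) (hQ : Q.Id) {k : ℕ} {c : Q.T} (hc : c ∈ (bc K ⊥).cx.B k) (L : Q.Fam)
    {n : ℤ} {x : P.T} (hx : x ∈ (bc K₁ A).cx.Z n) :
    cross P hS hS' a k c x ∈ (bc (K₁.prod K) (A.prod L)).cx.B (n + (k + a)) := by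
  obtain ⟨e, he, h⟩ := Cx.mem_B.1 hc
  rw [mem_Z_tot] at hx
  replace he := (mem_G_tot.1 he).1
  rw [← sub_add_cancel c (Q.sys.tot.d e), cross_add]
  refine add_mem (Cx.N_le_B (mem_cN.2 (cross_zz' _ _ (mem_cN.1 h) _))) ?_
  cases k with
  | zero =>
    rw [Gc.G_neg (by simp), Submodule.mem_bot] at he
    rw [he, map_zero, cross_zero]
    exact zero_mem _
  | succ k =>
    rw [Nat.cast_succ, add_sub_cancel_right] at he
    have hs : ∀ {F : P.Fam} {y : P.T}, (∀ i, y i ∈ zz (F.A i)) →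
        ∀ i, P.sys.tot.s y i ∈ zz (F.A i) := fun h i => sgn_mem.2 ((Fam.stab _).s i _ (h i))
    refine Cx.mem_B.2 ⟨cross P hS hS' a k e (P.sys.tot.s x), mem_G_tot.2 ⟨?_,
      cross_zz _ _ (hs hx.1.2) _⟩, ?_⟩
    · rw [show n + ((k + 1 : ℕ) + a) - 1 = n + (k + a) by push_cast; ring]
      exact cross_G he (Gc.s_mem_G _ hx.1.1)
    · have h2 := cross_d (hS := hS) (hS' := hS') (a := a) hP hQ he (P.sys.tot.s x)
      rw [Gc.ss, Gc.ds, map_neg] at h2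
      refine Cx.meq (mem_cN.2 (cross_zz k e (hs hx.2) K)) ?_
      exact ((congrArg (_ - ·) h2).trans (by abel)).symm

theorem cross_lft (G : Act P Γ) (g : Γ) (k : ℕ) (c : Q.T) (x : P.T) :
    (G.lft Q hS hS' a).r g (cross P hS hS' a k c x) = cross P hS hS' a k c (G.r g x) := by
  funext ⟨i, j⟩
  have e : ∀ (s t : ℂ) (f : P.X i → P.X (G.a g⁻¹ i)) (y : AS (P.X (G.a g⁻¹ i))) (z : AS (Q.X j)),
      s • AS.pull (Prod.map f id) (t • AS.xp y z) = t • AS.xp (s • AS.pull f y) z :=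
    fun s t f y z => by
      rw [map_smul, AS.xp_left, map_smul, LinearMap.smul_apply, smul_smul, smul_smul, mul_comm]
  refine (e _ _ _ _ _).trans ?_
  rw [cross_apply]
  show (-1 : ℂ) ^ (k * S.deg (G.a g⁻¹ i) + (S.deg (G.a g⁻¹ i) + a) * S'.deg j) • _ = _
  rw [G.deg]
  rfl

variable (P q) in
/-- exchanging the sum and the product -/
def rho : (β →₀ P.T) →ₗ[ℂ] ∀ i, β →₀ AS (P.X i) :=
  LinearMap.pi fun i => cw (fun b => (-1 : ℂ) ^ (q b * S.deg i) • LinearMap.id) ∘ₗ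
    Finsupp.mapRange.linearMap (LinearMap.proj i)

theorem rho_apply (u : β →₀ P.T) (i : S.ι) (b : β) :
    P.rho q u i b = (-1 : ℂ) ^ (q b * S.deg i) • u b i := cw_apply _ _ b

theorem rho_iso : Cx.Iso ((bc K₁ A).cx.fs β q)
    ((P.sys.fs β q).bc (A.stab.fs β q) (K₁.stab.fs β q)).cx (P.rho q) 0 where
  sur v := by
    classical
    refine ⟨Finsupp.onFinset (Finset.univ.biUnion fun i => (v i).support)
      (fun b i => (-1 : ℂ) ^ (q b * S.deg i) • v i b) fun b hb => ?_,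
      funext fun i => Finsupp.ext fun b => (rho_apply _ i b).trans (sgn_sgn' _ _)⟩
    obtain ⟨i, hi⟩ := Function.ne_iff.1 hb
    exact Finset.mem_biUnion.2 ⟨i, Finset.mem_univ i, Finsupp.mem_support_iff.2 fun e =>
      hi (by rw [e, smul_zero]; rfl)⟩
  d u := funext fun i => Finsupp.ext fun b => by
    have h := mat_op (μ := S.ε) (g := @(P.sys.fs β q).pl) (g₂ := @P.sys.pl) (i := i)
      (c := P.rho q u) (c' := u b)
      (((-1 : ℂ) ^ (q b * S.deg i) * (-1) ^ q b) • Finsupp.lapply b) fun l r e => by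
        show (_ : ℂ) • P.sys.pl r (P.rho q u l b) = _
        rw [rho_apply, map_smul, (S.sup i l e).2, mul_add, mul_one, pow_add, mul_assoc, ← mul_pow,
          neg_one_mul, neg_neg, one_pow, mul_one, sgn_sgn']
    rw [rho_apply]
    show (_ : ℂ) • (AS.d (u b i) + (AS.gc _).s (mat S.ε (@P.sys.pl) (u b) i)) =
      AS.d (P.rho q u i b) + ((AS.gc _).fs β q).s (mat S.ε (@(P.sys.fs β q).pl) (P.rho q u) i) b
    rw [← h, rho_apply, Gc.fs_s, map_smul, smul_add, LinearMap.smul_apply, map_smul, mul_smul,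
      sgn_sgn']
    rfl
  G n u := by
    rw [add_zero, Sys.mem_cx_G, Cx.mem_fs_G]
    simp only [mem_cx_G]
    refine ⟨fun h b i => ⟨?_, ?_⟩, fun h i => ⟨Gc.mem_fs_G.2 fun b => ?_, mem_fsub.2 fun b => ?_⟩⟩
    · rw [sub_right_comm]
      exact sgn_mem.1 (rho_apply u i b ▸ Gc.mem_fs_G.1 (h i).1 b)
    · exact sgn_mem.1 (rho_apply u i b ▸ mem_fsub.1 (h i).2 b)
    · rw [rho_apply, sub_right_comm]
      exact sgn_mem.2 (h b i).1
    · rw [rho_apply]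
      exact sgn_mem.2 (h b i).2
  N u := ⟨fun h => mem_fsub.2 fun b => mem_cN.2 fun i =>
      sgn_mem.1 (rho_apply u i b ▸ mem_fsub.1 (h i trivial) b),
    fun h i _ => mem_fsub.2 fun b =>
      Cx.meq (sgn_mem.2 (mem_cN.1 (mem_fsub.1 h b) i)) (rho_apply u i b).symm⟩

variable (P hS hS' a q) in
/-- the sum of the cross products -/
def xmap (c : β → Q.T) : (β →₀ P.T) →ₗ[ℂ] (P.prod Q hS hS' a).T :=
  Finsupp.lsum ℂ fun b => cross P hS hS' a (q b) (c b)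

variable {c : β → Q.T}

theorem xmap_apply (u : β →₀ P.T) :
    xmap hS hS' a P q c u = ∑ b ∈ u.support, cross P hS hS' a (q b) (c b) (u b) := rfl

theorem xmap_eq (u : β →₀ P.T) : xmap hS hS' a P q c u =
    kap hS hS' a P Q (LinearMap.piMap (fun _ => kmap c) (P.rho q u)) := by
  induction u using Finsupp.induction_linear with
  | zero => simp only [map_zero]
  | add u v h h' => simp only [map_add, h, h']
  | single b x =>
    rw [xmap, Finsupp.lsum_single, cross_eq]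
    refine congrArg _ (funext fun i => ?_)
    have e : P.rho q (Finsupp.single b x) i =
        Finsupp.single b ((-1 : ℂ) ^ (q b * S.deg i) • x i) :=
      (congrArg (cw _) (Finsupp.mapRange_single (hf := map_zero _))).trans (cw_single _ _ _)
    show _ = kmap c (P.rho q (Finsupp.single b x) i)
    rw [e, kmap_single, map_smul]

variable [Fintype Γ] {G : Act Q Γ}

theorem two_qia (hK₁ : K₁.Cl) (hA : A.Cl) (hK : K.Cl) (iK : G.Inv K)
    (hb : (G.bc iK G.inv_bot).cx.Bas q c) :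
    ((P.sys.fs β q).bc (A.stab.fs β q) (K₁.stab.fs β q)).cx.QIa
      ((P.sys2 Q).bc (stab2' G A K) (stab2 K₁ K)).cx (LinearMap.piMap fun _ => kmap c) 0 := by
  have h : ∀ i, (((P.sys.fs β q).A i).cx _ _ ((A.stab.fs β q).d i) ((K₁.stab.fs β q).d i)).Mor
      (((P.sys2 Q).A i).cx _ _ ((stab2' G A K).d i) ((stab2 K₁ K).d i)) (kmap c) 0 ∧
      (((P.sys.fs β q).A i).cx _ _ ((A.stab.fs β q).d i) ((K₁.stab.fs β q).d i)).QIa
      (((P.sys2 Q).A i).cx _ _ ((stab2' G A K).d i) ((stab2 K₁ K).d i)) (kmap c) 0 := fun i => by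
    have z : ∀ V : Set (P.X i), fsub β (zz V) = ((AS.sc (P.X i)).fs β q).zz V := fun V =>
      Submodule.ext fun u => by
        rw [mem_fsub, SC.mem_zz]
        exact ⟨fun h t ht => (Submodule.mem_iInf _).2 fun b => (SC.mem_zz _).1 (h b) t ht,
          fun h b => (SC.mem_zz _).2 fun t ht => (Submodule.mem_iInf _).1 (h t ht) b⟩
    have e₁ : ((P.sys.fs β q).A i).cx _ _ ((A.stab.fs β q).d i) ((K₁.stab.fs β q).d i) =
        ((AS.sc (P.X i)).fs β q).cx (K₁.A i) (A.A i) :=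
      SC.ya3_ext rfl (funext fun n => congrArg₂ (· ⊓ ·) (Submodule.ext fun u =>
        Gc.mem_fs_G.trans ⟨fun h => (Submodule.mem_iInf _).2 h,
          fun h => (Submodule.mem_iInf _).1 h⟩) (z _)) (z _)
    have e₂ : ((P.sys2 Q).A i).cx _ _ ((stab2' G A K).d i) ((stab2 K₁ K).d i) =
        ((G.lp (P.X i)).bc (G.inv_lp (K₁.A i) iK) (G.inv_lp (A.A i) iK)).cx :=
      SC.ya3_ext rfl (funext fun n => congrArg₂ (· ⊓ ·) (Sys.tot_G _ n) rfl) rfl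
    rw [e₁, e₂]
    exact lp_qia hK iK hb (hK₁ i) (hA i)
  have hc : ∀ b, c b ∈ (bc K ⊥).cx.Z (q b) := fun b =>
    ⟨⟨(hb.mem b).1.1, (hb.mem b).1.2.1⟩, (hb.mem b).2⟩
  refine Bc.filta_cx (Sys.mor_diag _ _ _ _ _ (fun i n x hx hU => (h i).1.fG n x ⟨hx, hU⟩)
    (fun i x _ hx => kmap_mem fun b => mem_N.2 fun j => AS.xp_zz (mem_fsub.1 hx b) _ _)
    (fun i x _ => ?_) (fun i => kmap_s fun b => (mem_Z_tot.1 (hc b)).1.1) fun r x => ?_)
    fun p n => Sys.col_qi _ _ _ _ _ p fun i _ => (h i).2 n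
  · refine Cx.meq (neg_mem (kmap_mem (c := fun b => Q.sys.tot.d (c b))
      (u := cw (fun _ => (AS.gc _).s) x) fun b => mem_N.2 fun j =>
        AS.xp_zz' _ _ ((mem_Z_tot.1 (hc b)).2 j))) ?_
    exact ((congrArg (_ - ·) (kmap_d (q := q) x)).trans (sub_add_cancel_left _ _)).symm
  · induction x using Finsupp.induction_linear with
    | zero => simp only [map_zero]
    | add u v h h' => simp only [map_add, h, h']
    | single b z =>
      rw [kmap_single]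
      exact (congrArg (kmap c) (Finsupp.mapRange_single (hf := map_zero _))).trans
        ((kmap_single b _).trans (funext fun j => (AS.xp_left _ _ _).symm))

/-- the Kuenneth formula -/
theorem kun (hP : P.Id) (hQ : Q.Id) (hK₁ : K₁.Cl) (hA : A.Cl) (hK : K.Cl) (iK : G.Inv K)
    (hb : (G.bc iK G.inv_bot).cx.Bas q c) : ((bc K₁ A).cx.fs β q).QIa
      ((G.rgt P hS hS' a).bc (G.inv_rgt K₁ iK) (G.inv_rgt A iK)).cx (xmap hS hS' a P q c) a := by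
  have h := two_qia hK₁ hA hK iK hb
  have i₁ := rho_iso (q := q) (K₁ := K₁) (A := A)
  have i₂ := kap_iso (hS := hS) (hS' := hS') (a := a) hP hQ G K₁ A iK
  refine Cx.qia_iff.2 fun n => ⟨fun u hu e => ?_, fun w hw => ?_⟩
  · rw [xmap_eq, i₂.B] at e
    exact i₁.B.1 (Cx.Bcast (h.inj n _ (Cx.Zcast (i₁.Z.2 hu) (add_zero n))
      (Cx.Bcast e (add_zero n).symm)) (add_zero n).symm)
  · obtain ⟨w, rfl⟩ := i₂.sur w
    obtain ⟨v, hv, e⟩ := h.sur n w (Cx.Zcast (i₂.Z.1 hw) (add_zero n).symm)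
    obtain ⟨u, rfl⟩ := i₁.sur v
    refine ⟨u, i₁.Z.1 (Cx.Zcast hv (add_zero n).symm), ?_⟩
    rw [xmap_eq, ← map_sub, i₂.B]
    exact Cx.Bcast e (add_zero n)

end Dg

end Pool.Agent.CS
end
end

-- part Pool.Agent.P.MP_d34769_ag.YP4
section

/-! Injectivity on relative cohomology passes to products. -/

open Set

noncomputable section
namespace Pool.Agent.CS
namespace Dg
variable {S S' : Sh} {hS : S.Refl} {hS' : S'.Refl} {a : ℕ} {P : Dg S} {Q : Dg S'}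
  {Γ Γ' : Type} [Group Γ] [Group Γ'] [Fintype Γ] [Fintype Γ']

omit [Fintype Γ'] in
theorem yp4_bas (G : Act Q Γ') {K : Q.Fam} (iK : G.Inv K) :
    ∃ (β : Type) (q : β → ℕ) (c : β → Q.T), (G.bc iK G.inv_bot).cx.Bas q c :=
  Cx.exists_bas _ fun n hn x hx => by
    have : x ∈ degZ _ n := hx.1.1
    rw [degZ_neg _ hn, Submodule.mem_bot] at this
    exact this ▸ zero_mem _

omit [Fintype Γ] in
theorem yp4_Z {G : Act P Γ} {K A : P.Fam} {iK : G.Inv K} {iA : G.Inv A} {n : ℤ} {x : P.T} :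
    x ∈ (G.bc iK iA).cx.Z n ↔ x ∈ (bc K A).cx.Z n ∧ x ∈ Fix G.r :=
  ⟨fun h => ⟨⟨⟨h.1.1, h.1.2.1⟩, h.2⟩, h.1.2.2⟩, fun h => ⟨⟨h.1.1.1, h.1.1.2, h.2⟩, h.1.2⟩⟩

theorem yp4_B {G : Act P Γ} {K A : P.Fam} {iK : G.Inv K} {iA : G.Inv A} {n : ℤ} {x : P.T}
    (hx : x ∈ Fix G.r) : x ∈ (G.bc iK iA).cx.B n ↔ x ∈ (bc K A).cx.B n := by
  rw [Bc.Act.inv_cx]
  exact ⟨(G.act iK iA).cx.ya3_le, fun h => avg_of_mem hx ▸ (G.act iK iA).cx.ya3_B h⟩

omit [Fintype Γ] in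
theorem yp4_le {G : Act P Γ} {K A : P.Fam} {iK : G.Inv K} {iA : G.Inv A} {n : ℤ} {x : P.T}
    (h : x ∈ (G.bc iK iA).cx.B n) : x ∈ (bc K A).cx.B n := by
  rw [Bc.Act.inv_cx] at h
  exact (G.act iK iA).cx.ya3_le h

theorem yp4_monoZ {K A K' A' : P.Fam} (h : ∀ i, K'.A i ⊆ K.A i) (h' : ∀ i, A'.A i ⊆ A.A i) {n : ℤ}
    {x : P.T} (hx : x ∈ (bc K A).cx.Z n) : x ∈ (bc K' A').cx.Z n :=
  Cx.Zcast ((mor_id h h').cx.mem_Z hx) (add_zero n)

theorem yp4_monoB {K A K' A' : P.Fam} (h : ∀ i, K'.A i ⊆ K.A i) (h' : ∀ i, A'.A i ⊆ A.A i) {n : ℤ}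
    {x : P.T} (hx : x ∈ (bc K A).cx.B n) : x ∈ (bc K' A').cx.B n := by
  obtain ⟨b, hb, e⟩ := Cx.mem_B.1 hx
  exact Cx.mem_B.2 ⟨b, Cx.Gcast ((mor_id h h').cx.fG _ b hb) (add_zero _),
    mem_cN.2 fun i => SC.zz_anti (h i) (mem_cN.1 e i)⟩

theorem yp4_A (hP : P.Id) (hQ : Q.Id) (G : Act P Γ) (G' : Act Q Γ') {A : P.Fam} (hA : A.Cl)
    (iA : G.Inv A) {n : ℤ} (jP : ∀ k ≤ n, ∀ x ∈ (bc ⊤ A).cx.Z k, x ∈ Fix G.r →
      x ∈ (bc ⊤ ⊥).cx.B k → x ∈ (bc ⊤ A).cx.B k)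
    {m : ℤ} (hm : m ≤ n) {w : (P.prod Q hS hS' a).T}
    (hw : w ∈ (bc ((⊤ : P.Fam).prod ⊤) (A.prod ⊤)).cx.Z (m + a))
    (h1 : w ∈ Fix (G.lft Q hS hS' a).r) (h2 : w ∈ Fix (G'.rgt P hS hS' a).r)
    (hb : w ∈ (bc ⊤ ⊥).cx.B (m + a)) :
    w ∈ (bc ((⊤ : P.Fam).prod ⊤) (A.prod ⊤)).cx.B (m + a) := by
  obtain ⟨β, q, c, hc⟩ := yp4_bas G' G'.inv_top
  have hc' := fun b => yp4_Z.1 (hc.mem b)
  obtain ⟨u, hu, e⟩ := (kun hP hQ Fam.cl_top hA Fam.cl_top G'.inv_top hc).sur m w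
    (yp4_Z.2 ⟨hw, h2⟩)
  let v := Finsupp.mapRange.linearMap (avg G.r) u
  have hv : ∀ b, v b ∈ (bc ⊤ A).cx.Z (m - q b) := fun b =>
    Cx.Zcast ((yp4_Z (iK := G.inv_top) (iA := iA)).1 (by
      rw [Bc.Act.inv_cx]
      exact (G.act G.inv_top iA).cx.mor_avg.mem_Z (Cx.mem_fs_Z.1 hu b))).1 (add_zero _)
  have e1 : ∀ u, avg (G.lft Q hS hS' a).r (xmap hS hS' a P q c u) =
      xmap hS hS' a P q c (Finsupp.mapRange.linearMap (avg G.r) u) := fun u => by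
    induction u using Finsupp.induction_linear with
    | zero => simp only [map_zero]
    | add u v h h' => simp only [map_add, h, h']
    | single b x =>
      rw [show Finsupp.mapRange.linearMap (avg G.r) (Finsupp.single b x) =
        Finsupp.single b (avg G.r x) from Finsupp.mapRange_single (hf := map_zero _), xmap,
        Finsupp.lsum_single, Finsupp.lsum_single]
      exact (ya3_comm (fun g x => (cross_lft G g _ _ x).symm) x).symm
  have e2 : w - xmap hS hS' a P q c v ∈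
      (bc ((⊤ : P.Fam).prod ⊤) (A.prod ⊤)).cx.B (m + a) := by
    have h := (G.lft Q hS hS' a).act (G.inv_lft G.inv_top ⊤) (G.inv_lft iA ⊤)
    have := h.cx.ya3_le (h.cx.ya3_B (yp4_le e))
    rwa [map_sub, avg_of_mem h1, e1] at this
  have hf : xmap hS hS' a P q c v ∈ Fix (G'.rgt P hS hS' a).r :=
    Submodule.sum_mem _ fun b _ => Cx.meq ((kap_fix G').2 fun i => Submodule.smul_mem _ _
      (mem_Fix.2 fun g => by rw [lcr_r, mem_Fix.1 (hc' b).2])) (cross_eq _ _ _).symm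
  have s0 : ∀ (F : (P.prod Q hS hS' a).Fam) p,
      ((⊥ : P.Fam).prod ⊤ : (P.prod Q hS hS' a).Fam).A p ⊆ F.A p := fun _ _ _ h => h.1.elim
  have e3 := (kun hP hQ Fam.cl_top Fam.cl_bot Fam.cl_top G'.inv_top hc).inj m v
    (Cx.mem_fs_Z.2 fun b => yp4_monoZ (fun _ => Subset.rfl) (fun _ => empty_subset _) (hv b))
    ((yp4_B hf).2 (Cx.meq (sub_mem
      (yp4_monoB (fun _ => subset_univ _) (s0 _) hb)
      (yp4_monoB (fun _ => Subset.rfl) (s0 _) e2)) (sub_sub_cancel _ _)))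
  refine Cx.meq (add_mem e2 (Submodule.sum_mem _ fun b _ => ?_)) (sub_add_cancel _ _)
  exact Cx.Bcast ((cross_mor hP hQ (hc' b).1 ⊤).mem_B (hv b).1 (jP _ (by omega) _ (hv b)
    (avg_mem _) (Cx.fs_B e3 b))) (by ring)

theorem yp4_N (hP : P.Id) (hQ : Q.Id) (G' : Act Q Γ') {A : P.Fam} {N : Q.Fam}
    (hA : A.Cl) (hN : N.Cl) (iN : G'.Inv N) {n : ℤ}
    (jQ : ∀ k < n, ∀ y ∈ (bc N ⊥).cx.Z k, y ∈ Fix G'.r →
      ∃ x ∈ (bc ⊤ ⊥).cx.Z k, x ∈ Fix G'.r ∧ y - x ∈ (bc N ⊥).cx.B k)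
    {m : ℤ} (hm : m < n) {w : (P.prod Q hS hS' a).T}
    (hw : w ∈ (bc ((⊤ : P.Fam).prod N) (A.prod N)).cx.Z (m + a))
    (h2 : w ∈ Fix (G'.rgt P hS hS' a).r) :
    ∃ x ∈ (bc ((⊤ : P.Fam).prod ⊤) (A.prod ⊤)).cx.Z (m + a),
      w - x ∈ (bc ((⊤ : P.Fam).prod N) (A.prod N)).cx.B (m + a) := by
  obtain ⟨β, q, c, hc⟩ := yp4_bas G' iN
  obtain ⟨u, hu, e1⟩ := (kun hP hQ Fam.cl_top hA hN iN hc).sur m w (yp4_Z.2 ⟨hw, h2⟩)
  rw [Cx.mem_fs_Z] at hu
  have h0 : ∀ b, ∃ x ∈ (bc ⊤ ⊥).cx.Z (q b), u b ≠ 0 → c b - x ∈ (bc N ⊥).cx.B (q b) := fun b => by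
    by_cases l : (q b : ℤ) < n
    · obtain ⟨x, hx, -, e⟩ := jQ _ l _ (yp4_Z.1 (hc.mem b)).1 (yp4_Z.1 (hc.mem b)).2
      exact ⟨x, hx, fun _ => e⟩
    · refine ⟨0, zero_mem _, fun e => (e ?_).elim⟩
      have := (mem_Z_tot.1 (hu b)).1.1
      rwa [Gc.G_neg (by omega), Submodule.mem_bot] at this
  choose c' hc' e2 using h0
  refine ⟨xmap hS hS' a P q c' u, Submodule.sum_mem _ fun b _ =>
    Cx.Zcast ((cross_mor hP hQ (hc' b) ⊤).mem_Z (hu b)) (by ring),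
    Cx.meq (add_mem (yp4_le e1) ?_) (sub_add_sub_cancel _ _ _)⟩
  rw [xmap_apply, xmap_apply, ← Finset.sum_sub_distrib]
  refine Submodule.sum_mem _ fun b hb => ?_
  rw [← sub_add_cancel (c b) (c' b), cross_add, add_sub_cancel_right]
  exact Cx.Bcast (cross_B hP hQ (e2 b (Finsupp.mem_support_iff.1 hb)) N (hu b)) (by ring)

theorem yp4_fin {U A N M : P.Fam} (hU : ∀ p, univ ⊆ U.A p) (hA : A.Cl) (hN : N.Cl) (hM : M.Cl)
    (s : ∀ p, M.A p ⊆ A.A p) (s' : ∀ p, A.A p ∩ N.A p ⊆ M.A p) {m : ℤ} {w b : P.T}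
    (hw : w ∈ (bc ⊤ (A ⊔ N)).cx.Z (m + 1)) (hb : b ∈ (bc U A).cx.G m)
    (e : w - P.sys.tot.d b ∈ (bc U A).cx.N)
    (h : b ∈ (bc N M).cx.Z m → ∃ x ∈ (bc U A).cx.Z m, b - x ∈ (bc N M).cx.B m) :
    w ∈ (bc ⊤ (A ⊔ N)).cx.B (m + 1) := by
  replace e : ∀ p, (w - P.sys.tot.d b) p ∈ zz univ := fun p => SC.zz_anti (hU p) (mem_cN.1 e p)
  have hG : b ∈ (bc N A).cx.Z m := mem_Z_tot.2 ⟨mem_G_tot.1 hb, fun p => Cx.meq (sub_mem
    (SC.zz_anti subset_union_right ((mem_Z_tot.1 hw).1.2 p)) (SC.zz_anti (subset_univ _) (e p)))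
      (sub_sub_cancel _ _)⟩
  obtain ⟨x, hx, e3⟩ := h (yp4_monoZ (fun _ => Subset.rfl) s hG)
  have hx' := yp4_monoZ (K' := N) (fun p => (subset_univ _).trans (hU p)) (fun _ => Subset.rfl) hx
  obtain ⟨y, hy, e4⟩ := Cx.mem_B.1 ((Bc.filta_cx (mor_id (fun _ => Subset.rfl) s)
    (col_exc hN hA hM s s')).inj m _ (sub_mem hG hx') (Cx.Bcast e3 (add_zero _).symm))
  have g1 := mem_G_tot.1 (sub_mem (sub_mem hG.1 hx'.1)
    (Cx.Gcast ((bc N A).cx.dG _ y hy) (sub_add_cancel _ _)))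
  refine Cx.mem_B.2 ⟨_, mem_G_tot.2 ⟨by rw [add_sub_cancel_right]; exact g1.1,
    fun p => (SC.mem_zz _).2 fun t ht =>
      ht.elim ((SC.mem_zz _).1 (g1.2 p) t) ((SC.mem_zz _).1 (mem_cN.1 e4 p) t)⟩,
    mem_cN.2 fun p => ?_⟩
  have e5 : ∀ x y z : P.T, w - P.sys.tot.d (x - y - P.sys.tot.d z) =
      w - P.sys.tot.d x + P.sys.tot.d y := fun x y z => by
    rw [map_sub, map_sub, Gc.dd]
    abel
  exact Cx.meq (add_mem (e p) (SC.zz_anti (hU p) ((mem_Z_tot.1 hx).2 p)))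
    (congrFun (e5 b _ y) p).symm

theorem kun_ki (hP : P.Id) (hQ : Q.Id) (G : Act P Γ) (G' : Act Q Γ') {A : P.Fam} {N : Q.Fam}
    (hA : A.Cl) (hN : N.Cl) (iA : G.Inv A) (iN : G'.Inv N) {n : ℤ}
    (jP : ∀ k ≤ n, ∀ x ∈ (bc ⊤ A).cx.Z k, x ∈ Fix G.r → x ∈ (bc ⊤ ⊥).cx.B k →
      x ∈ (bc ⊤ A).cx.B k)
    (jQ : ∀ k < n, ∀ y ∈ (bc N ⊥).cx.Z k, y ∈ Fix G'.r →
      ∃ x ∈ (bc ⊤ ⊥).cx.Z k, x ∈ Fix G'.r ∧ y - x ∈ (bc N ⊥).cx.B k)
    {m : ℤ} (hm : m ≤ n + a) {w : (P.prod Q hS hS' a).T}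
    (hw : w ∈ (bc ⊤ (A.prod ⊤ ⊔ (⊤ : P.Fam).prod N)).cx.Z m)
    (h1 : w ∈ Fix (G.lft Q hS hS' a).r) (h2 : w ∈ Fix (G'.rgt P hS hS' a).r)
    (hb : w ∈ (bc ⊤ ⊥).cx.B m) : w ∈ (bc ⊤ (A.prod ⊤ ⊔ (⊤ : P.Fam).prod N)).cx.B m := by
  obtain ⟨m, rfl⟩ : ∃ k, m = k + a + 1 := ⟨m - 1 - a, by ring⟩
  have hA' := yp4_A hP hQ G G' hA iA jP (m := m + 1) (by omega)
    (yp4_monoZ (fun _ => subset_univ _) (fun _ => subset_union_left) (Cx.Zcast hw (by ring)))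
    h1 h2 (Cx.Bcast hb (by ring))
  obtain ⟨b, hb', e⟩ := Cx.mem_B.1 ((yp4_B (iK := G'.inv_rgt ⊤ G'.inv_top)
    (iA := G'.inv_rgt A G'.inv_top) h2).2 hA')
  rw [show m + 1 + a - 1 = m + a by ring] at hb'
  exact yp4_fin (U := (⊤ : P.Fam).prod ⊤) (fun _ _ _ => ⟨trivial, trivial⟩) (hA.prod Fam.cl_top)
    (Fam.cl_top.prod hN) (hA.prod hN) (fun _ _ h => ⟨h.1, trivial⟩)
    (fun _ _ h => ⟨h.1.1, h.2.2⟩) hw ⟨hb'.1, hb'.2.1⟩ e
    fun h => yp4_N hP hQ G' hA hN iN jQ (by omega) h hb'.2.2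

end Dg

end Pool.Agent.CS
end
end

-- part Pool.Agent.P.MP_d34769_ag.YHD0
section

/-! Images from higher degrees, and blocks of a diagram. -/

open Set

noncomputable section
namespace Pool.Agent.CS

theorem Cx.Act.ki_iff {T Γ : Type} [AddCommGroup T] [Module ℂ T] [Group Γ] [Fintype Γ] {C : Cx T}
    {r : Γ →* Module.End ℂ T} (h : C.Act r) {U : Submodule ℂ T} (hU : ∀ x ∈ U, C.d x ∈ U)
    (hN : C.N ≤ U) (hr : ∀ g, ∀ x ∈ U, r g x ∈ U) (k : ℤ) :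
    (∀ x ∈ (C.sub U hU).Z (k + 1), x ∈ Fix r → x ∈ C.B (k + 1) → x ∈ (C.sub U hU).B (k + 1)) ↔
      ∀ y ∈ (C.quo U hU hN).Z k, y ∈ Fix r →
        ∃ x ∈ C.Z k, x ∈ Fix r ∧ y - x ∈ (C.quo U hU hN).B k := by
  have h' : (C.sub U hU).Act r := ⟨h.d, fun g n x hx => ⟨h.G g n x hx.1, hr g x hx.2⟩, h.N⟩
  constructor
  · intro a y hy hf
    have h2 := h.fix_d y hf
    have h3 := h'.ya3_B (a _ (Cx.d_mem_subZ hU hN hy) h2 (Cx.d_mem_B hy.1 rfl))
    rw [avg_of_mem h2] at h3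
    obtain ⟨u, hu, e⟩ := (Cx.mem_B' rfl).1 h3
    exact ⟨y - u, ⟨sub_mem hy.1 hu.1.1, Cx.meq (U := C.N) e (map_sub C.d y u).symm⟩,
      sub_mem hf hu.2, Cx.N_le_B (Cx.meq (U := U) hu.1.2 (sub_sub_cancel y u).symm)⟩
  · intro a x hx hf hb
    have h3 := h.ya3_B hb
    rw [avg_of_mem hf] at h3
    obtain ⟨u, hu, e⟩ := (Cx.mem_B' rfl).1 h3
    have e : x - C.d u ∈ C.N := e
    obtain ⟨z, hz, -, e1⟩ := a u ⟨hu.1, Cx.meq (U := U) (sub_mem hx.1.2 (hN e))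
      (sub_sub_cancel x (C.d u))⟩ hu.2
    obtain ⟨v, hv, e2⟩ := Cx.mem_B.1 e1
    have h4 : C.d v ∈ C.Z k := Cx.Zcast (Cx.d_mem_Z hv) (by ring)
    refine (Cx.mem_subB hU rfl).2 ⟨_, ⟨sub_mem (sub_mem hu.1 hz.1) h4.1, e2⟩,
      Cx.meq (add_mem (add_mem e (Cx.mem_Z.1 hz).2) (Cx.mem_Z.1 h4).2) ?_⟩
    rw [map_sub, map_sub]
    abel

namespace Dg
variable {S S' : Sh} {P : Dg S} {Q : Dg S'} {Γ Γ' : Type} [Group Γ] [Group Γ']

/-- the images of the spaces of degree at least `d` -/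
def up (P : Dg S) (d : ℕ) : P.Fam where
  A i := {x | ∃ j, ∃ h : S.rel j i, d ≤ S.deg j ∧ ∃ y, P.mp h y = x}
  mp h := by
    rintro _ ⟨j, h', a, y, rfl⟩
    exact ⟨j, S.trans h' h, a, y, (P.comp h' h y).symm⟩

theorem up_cl (d : ℕ) : (P.up d).Cl := fun i => by
  have e : (P.up d).A i = ⋃ j, ⋃ h : S.rel j i, ⋃ _ : d ≤ S.deg j, range (P.mp h) :=
    Set.ext fun x => by simp only [mem_iUnion, exists_prop]; rfl
  rw [e]
  exact isClosed_iUnion_of_finite fun j => isClosed_iUnion_of_finite fun h =>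
    isClosed_iUnion_of_finite fun _ => (isCompact_range (P.mp h).continuous).isClosed

theorem Act.inv_up (G : Act P Γ) (h : ∀ g i j, S.rel i j → S.rel (G.a g i) (G.a g j)) (d : ℕ) :
    G.Inv (P.up d) := by
  rintro g i _ rfl _ ⟨j, h', a, y, rfl⟩
  exact ⟨_, h g j i h', (G.deg g j).symm ▸ a, _, G.t_mp g h' _ rfl rfl y⟩

theorem up_prod {hS : S.Refl} {hS' : S'.Refl} (hP : P.Id) (hQ : Q.Id) {a d d' e : ℕ}
    (h1 : ∀ i, d ≤ S.deg i + 1) (h2 : ∀ i, d' ≤ S'.deg i + 1) (he : e + 1 = d + d' + a) :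
    (P.prod Q hS hS' a).up e = (P.up d).prod ⊤ ⊔ (⊤ : P.Fam).prod (Q.up d') := by
  refine Fam.ext (funext fun p => Set.ext fun x => ⟨?_, ?_⟩)
  · rintro ⟨q, h, b, y, rfl⟩
    change _ ≤ S.deg q.1 + S'.deg q.2 + a at b
    have := h1 q.1
    by_cases c : d ≤ S.deg q.1
    · exact Or.inl ⟨⟨_, h.1, c, y.1, rfl⟩, trivial⟩
    · exact Or.inr ⟨trivial, _, h.2, by omega, y.2, rfl⟩
  · rintro (⟨⟨i, h, b, y, e⟩, -⟩ | ⟨-, j, h, b, y, e⟩)
    · refine ⟨(i, p.2), ⟨h, hS' _⟩, ?_, (y, x.2), Prod.ext e (hQ _ _ _)⟩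
      have := h2 p.2
      change _ ≤ S.deg i + S'.deg p.2 + a
      omega
    · refine ⟨(p.1, j), ⟨hS _, h⟩, ?_, (x.1, y), Prod.ext (hP _ _ _) e⟩
      have := h1 p.1
      change _ ≤ S.deg p.1 + S'.deg j + a
      omega

theorem D_apply (K A : P.Fam) (c : P.T) (i : S.ι) : (bc K A).cx.d c i =
    AS.d (c i) + (AS.gc _).s (mat S.ε (@P.sys.pl) c i) := rfl

/-- `Q` is a part of `P` that is closed under faces -/
structure Blk (Q : Dg S') (P : Dg S) where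
  j : S'.ι → S.ι
  inj : Function.Injective j
  e : ∀ i, P.X (j i) ≃ₜ Q.X i
  deg : ∀ i, S.deg (j i) = S'.deg i
  ε : ∀ i i', S.ε (j i) (j i') = S'.ε i i'
  up : ∀ i x, S.ε (j i) x ≠ 0 → x ∈ range j
  com : ∀ {i i'} (h : S'.rel i i') (h' : S.rel (j i) (j i')) x, e i' (P.mp h' x) = Q.mp h (e i x)

namespace Blk
variable (b : Blk Q P) {A : P.Fam} {A' : Q.Fam} {c : Q.T} {w : P.T} {n : ℤ}

/-- the identification as a continuous map -/
def hom (i : S'.ι) : C(P.X (b.j i), Q.X i) := ⟨b.e i, (b.e i).continuous⟩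

/-- the inverse identification -/
def inv (i : S'.ι) : C(Q.X i, P.X (b.j i)) := ⟨(b.e i).symm, (b.e i).symm.continuous⟩

/-- restriction to the block -/
def res : P.T →ₗ[ℂ] Q.T := LinearMap.pi fun i => AS.pl (b.e i).symm ∘ₗ LinearMap.proj (b.j i)

/-- extension by zero -/
def ext : Q.T →ₗ[ℂ] P.T := mat (R := fun x i => b.j i = x) (fun _ _ => 1)
  fun {_ i} h => AS.pl fun y => b.e i (cast (congrArg P.X h.symm) y)

theorem res_apply (w : P.T) (i : S'.ι) : b.res w i = AS.pull (b.e i).symm (w (b.j i)) := rfl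

theorem ext_j (c : Q.T) (i : S'.ι) : b.ext c (b.j i) = AS.pull (b.e i) (c i) := by
  classical
  rw [ext, mat_apply, Finset.sum_eq_single i (fun i' _ h => dif_neg fun e => h (b.inj e)) (by simp),
    dif_pos rfl, Int.cast_one, one_smul]
  rfl

theorem ext_out (c : Q.T) {x : S.ι} (h : x ∉ range b.j) : b.ext c x = 0 :=
  mat_eq_zero fun i r _ => absurd ⟨i, r⟩ h

theorem pull_res (w : P.T) (i : S'.ι) : AS.pull (b.e i) (b.res w i) = w (b.j i) := by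
  rw [res_apply, AS.pull_pull, Homeomorph.symm_comp_self, AS.pull_id]

theorem res_ext (c : Q.T) : b.res (b.ext c) = c := funext fun i => by
  rw [res_apply, ext_j, AS.pull_pull, Homeomorph.self_comp_symm, AS.pull_id]

theorem d_j (K A : P.Fam) (K' A' : Q.Fam) (w : P.T) (i : S'.ι) :
    (bc K A).cx.d w (b.j i) = AS.pull (b.e i) ((bc K' A').cx.d (b.res w) i) := by
  classical
  rw [D_apply, D_apply, map_add, AS.pull_d, pull_res]
  refine congrArg _ (Eq.trans (congrArg _ ?_) (Gc.map_s (f := AS.pl (b.e i)) (AS.pull_e _) _).symm)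
  rw [mat_apply, mat_apply, map_sum]
  refine (Fintype.sum_of_injective b.j b.inj _ _ (fun x hx => ?_) fun i' => ?_).symm
  · rw [show S.ε (b.j i) x = 0 from not_not.1 fun h => hx (b.up i x h)]
    simp
  · rw [b.ε]
    by_cases h : S'.ε i i' = 0
    · simp [h]
    have h' := (S.sup _ _ (b.ε i i' ▸ h)).1
    rw [dif_pos (S'.sup _ _ h).1, dif_pos h', map_smul]
    refine congrArg _ ((AS.pull_pull _ _ _).trans ((AS.pull_pull _ _ _).trans ?_))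
    exact congrArg (AS.pull · _) (funext fun x => (b.e i').symm_apply_eq.2 (b.com _ h' x).symm)

theorem res_mor (hA : ∀ i x, b.e i x ∈ A'.A i → x ∈ A.A (b.j i)) :
    (bc ⊤ A).cx.Mor (bc ⊤ A').cx b.res 0 where
  fG n x hx := mem_cx_G.2 fun i => by
    have h := mem_cx_G.1 hx (b.j i)
    rw [b.deg] at h
    rw [add_zero]
    exact ⟨AS.pull_mem_G _ h.1, zz_pl (g := b.inv i)
      (fun y hy => hA i _ (((b.e i).apply_symm_apply y).symm ▸ hy)) h.2⟩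
  fN _ x _ hx := (mem_N (A := A')).2 fun i =>
    zz_pl (g := b.inv i) (mapsTo_univ _ _) ((mem_N (A := A)).1 hx (b.j i))
  fd _ x _ := by
    have e : b.res ((bc ⊤ A).cx.d x) = (bc ⊤ A').cx.d (b.res x) := funext fun i => by
      rw [res_apply, b.d_j ⊤ A ⊤ A', AS.pull_pull, Homeomorph.self_comp_symm, AS.pull_id]
    rw [e, sub_self]
    exact zero_mem _

theorem ext_mor (hA : ∀ i x, x ∈ A.A (b.j i) → b.e i x ∈ A'.A i)
    (hd : ∀ x i (h : S.rel x (b.j i)), x ∉ range b.j → S.ε x (b.j i) ≠ 0 →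
      ∀ y, b.e i (P.mp h y) ∈ A'.A i) : (bc ⊤ A').cx.Mor (bc ⊤ A).cx b.ext 0 where
  fG n c hc := mem_cx_G.2 fun x => by
    by_cases h : x ∈ range b.j
    · obtain ⟨i, rfl⟩ := h
      have h := mem_cx_G.1 hc i
      rw [b.deg, add_zero, ext_j]
      exact ⟨AS.pull_mem_G _ h.1, zz_pl (g := b.hom i) (hA i) h.2⟩
    · rw [b.ext_out c h]
      exact zero_mem _
  fN _ c _ hc := (mem_N (A := A)).2 fun x => by
    by_cases h : x ∈ range b.j
    · obtain ⟨i, rfl⟩ := h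
      rw [ext_j]
      exact zz_pl (g := b.hom i) (mapsTo_univ _ _) ((mem_N (A := A')).1 hc i)
    · rw [b.ext_out c h]
      exact zero_mem _
  fd n c hc := (mem_N (A := A)).2 fun x => by
    rw [Pi.sub_apply]
    by_cases h : x ∈ range b.j
    · obtain ⟨i, rfl⟩ := h
      rw [ext_j, b.d_j ⊤ A ⊤ A', res_ext, sub_self]
      exact zero_mem _
    · rw [b.ext_out _ h, D_apply, b.ext_out _ h, map_zero, zero_add, zero_sub]
      refine neg_mem ((⊤ : P.Fam).stab.s x _ (mat_mem (g := @P.sys.pl) fun x' r h0 => ?_))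
      by_cases h' : x' ∈ range b.j
      · obtain ⟨i, rfl⟩ := h'
        rw [ext_j]
        exact Cx.meq (zz_pl (g := (b.hom i).comp (P.mp r)) (fun y _ => hd x i r h h0 y)
          (mem_cx_G.1 hc i).2) (AS.pull_pull (P.mp r) (b.e i) (c i)).symm
      · rw [b.ext_out _ h', map_zero]
        exact zero_mem _

theorem ext_inj (hA : ∀ i x, b.e i x ∈ A'.A i → x ∈ A.A (b.j i)) (h : b.ext c ∈ (bc ⊤ A).cx.G n)
    (hb : b.ext c ∈ (bc ⊤ A).cx.B n) : c ∈ (bc ⊤ A').cx.B n := by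
  have := (b.res_mor hA).mem_B h hb
  rwa [res_ext, add_zero] at this

theorem up_iff (h1 : ∀ i i', S'.rel i i' → S.rel (b.j i) (b.j i'))
    (h2 : ∀ x i, S.rel x (b.j i) → ∃ i', b.j i' = x ∧ S'.rel i' i) (d : ℕ) (i : S'.ι)
    (x : P.X (b.j i)) : x ∈ (P.up d).A (b.j i) ↔ b.e i x ∈ (Q.up d).A i := by
  constructor
  · rintro ⟨k, h, a, y, rfl⟩
    obtain ⟨i', rfl, h'⟩ := h2 k i h
    exact ⟨i', h', b.deg i' ▸ a, _, (b.com h' h y).symm⟩
  · rintro ⟨i', h, a, y, e⟩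
    refine ⟨_, h1 _ _ h, (b.deg i').symm ▸ a, (b.e i').symm y, (b.e i).injective ?_⟩
    rw [b.com h, Homeomorph.apply_symm_apply, e]

/-- the group elements `g` and `g'` act in the same way on the block -/
def Rel (G : Act P Γ) (G' : Act Q Γ') (g : Γ) (g' : Γ') : Prop :=
  ∀ i, ∃ h : G.a g (b.j i) = b.j (G'.a g' i), G.s g (b.j i) = G'.s g' i ∧
    ∀ x, b.e _ (G.t g h x) = G'.t g' rfl (b.e i x)

variable {G : Act P Γ} {G' : Act Q Γ'}

theorem res_fix (h : ∀ g', ∃ g, b.Rel G G' g g') (hw : w ∈ Fix G.r) : b.res w ∈ Fix G'.r := by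
  refine G'.mem_fix.2 ?_
  rintro g' i _ rfl
  obtain ⟨g, h⟩ := h g'
  obtain ⟨h1, h2, h3⟩ := h i
  rw [res_apply, res_apply, G.mem_fix.1 hw g h1, h2, map_smul, AS.pull_pull, AS.pull_pull]
  refine congrArg (_ • AS.pull · _) (funext fun x => (b.e _).eq_symm_apply.2 ?_)
  rw [Function.comp_apply, h3, Homeomorph.apply_symm_apply]

theorem ext_fix (h : ∀ g, ∃ g', b.Rel G G' g g') (hc : c ∈ Fix G'.r) : b.ext c ∈ Fix G.r := by
  refine G.mem_fix.2 fun g x x' e => ?_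
  by_cases hx : x ∈ range b.j
  · obtain ⟨i, rfl⟩ := hx
    obtain ⟨g', h⟩ := h g
    obtain ⟨h1, h2, h3⟩ := h i
    obtain rfl := h1.symm.trans e
    rw [ext_j, ext_j, G'.mem_fix.1 hc g' rfl, h2, map_smul, AS.pull_pull, AS.pull_pull]
    exact congrArg (_ • AS.pull · _) (funext fun x => (h3 x).symm)
  · have hx' : x' ∉ range b.j := by
      rintro ⟨i, rfl⟩
      obtain ⟨g', h⟩ := h g⁻¹
      refine hx ⟨_, (h i).1.symm.trans ?_⟩
      rw [← e, map_inv]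
      exact (G.a g).symm_apply_apply x
    rw [b.ext_out c hx, b.ext_out c hx', map_zero, smul_zero]

end Blk

/-- a cochain bounds when it bounds on every block -/
theorem blk_B {κ : Type} [Fintype κ] {T : κ → Sh} {R : ∀ F, Dg (T F)} (b : ∀ F, Blk (R F) P)
    (cov : ∀ x, ∃! F, x ∈ range (b F).j) {A : P.Fam} {A' : ∀ F, (R F).Fam}
    (hA : ∀ F i x, x ∈ A.A ((b F).j i) ↔ (b F).e i x ∈ (A' F).A i) {w : P.T} {n : ℤ}
    (hw : w ∈ (bc ⊤ A).cx.G n) (h : ∀ F, (b F).res w ∈ (bc ⊤ (A' F)).cx.B n) :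
    w ∈ (bc ⊤ A).cx.B n := by
  have e : ∑ F, (b F).ext ((b F).res w) = w := funext fun x => by
    obtain ⟨F, ⟨i, rfl⟩, u⟩ := cov x
    rw [Finset.sum_apply, Finset.sum_eq_single F (fun F' _ c => (b F').ext_out _ fun k => c (u _ k))
      (by simp), Blk.ext_j, Blk.pull_res]
  refine Cx.meq (Submodule.sum_mem _ fun F _ => ?_) e
  have m := (b F).ext_mor (A := A) (A' := A' F) (fun i x => (hA F i x).1) fun x i _ hx h0 => by
    obtain ⟨F', ⟨i', rfl⟩, -⟩ := cov x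
    obtain rfl := (cov _).unique ((b F').up i' _ h0) ⟨i, rfl⟩
    exact absurd ⟨i', rfl⟩ hx
  have h1 := ((b F).res_mor fun i x => (hA F i x).2).fG n w hw
  rw [add_zero] at h1
  exact Cx.Bcast (m.mem_B h1 (h F)) (add_zero n)

variable [Fintype Γ] (G : Act P Γ) (A : P.Fam) (n : ℤ)

/-- relative invariant classes inject into absolute classes -/
def Act.KI : Prop := ∀ k ≤ n, ∀ x ∈ (Dg.bc ⊤ A).cx.Z k, x ∈ Fix G.r → x ∈ (Dg.bc ⊤ ⊥).cx.B k →
  x ∈ (Dg.bc ⊤ A).cx.B k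

/-- invariant classes on `A` lift -/
def Act.Lf : Prop := ∀ k < n, ∀ y ∈ (Dg.bc A ⊥).cx.Z k, y ∈ Fix G.r →
  ∃ x ∈ (Dg.bc ⊤ ⊥).cx.Z k, x ∈ Fix G.r ∧ y - x ∈ (Dg.bc A ⊥).cx.B k

variable {G A n}

theorem ki_iff (iA : G.Inv A) : G.KI A n ↔ G.Lf A n := by
  have key := fun k => (G.act G.inv_top G.inv_bot).cx.ki_iff (U := (bc A ⊥).N) (N_D A)
    (N_anti fun _ => subset_univ _) (G.act iA G.inv_bot).N k
  rw [cx_sub, cx_quo fun _ => subset_univ _, Fam.bot_sup] at key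
  refine ⟨fun h k hk => (key k).1 (h _ hk), fun h k hk => ?_⟩
  obtain ⟨k, rfl⟩ : ∃ j, k = j + 1 := ⟨k - 1, by ring⟩
  exact (key k).2 (h k hk)

end Dg

end Pool.Agent.CS
end
end

-- part Pool.Agent.P.MP_d34769_ag.YHD1
section

/-! The points of the cobar diagrams that come from longer lists. -/

open Set

noncomputable section
namespace Pool.Agent.CS

variable {I : Type} [Fintype I] [DecidableEq I] {col : I → Fin 3} {th : Fin 3 → ℤ} {k m : ℕ}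

theorem shT_refl : (shT col th k).Refl := fun L => RS.refl L.1

theorem dgT_mp' {L K : Wx col th k} (h : RS id L.1 K.1) (x : (L.dat m).XS) :
    (dgT col th k m).mp (i := L) (j := K) h x = (relMor h m).mc x :=
  DFunLike.congr_fun (dgT_mp h) x

theorem dgT_id : (dgT col th k m).Id := fun _ h x =>
  (dgT_mp' h x).trans (mc_one _ (fun _ => rfl) (fun _ _ => rfl) x)

omit [DecidableEq I] in
theorem Wx.le (L : Wx col th k) : k ≤ L.1.flatten.length := L.2.2.symm.trans_le L.2.1.len_le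

theorem shT_deg (L : Wx col th k) : (shT col th k).deg L = L.1.flatten.length - 1 := rfl

omit [Fintype I] in
theorem RS.rlb {L K : List (List (Finset I))} (h : RS id L K) (w : Equiv.Perm I) :
    RS id (rlb w L) (rlb w K) := by
  refine ⟨fun i j e => ?_, fun i => ?_⟩
  · have h1 := OrdM.rlb w⁻¹ e
    rw [← rlb_mul, inv_mul_cancel, rlb_one] at h1
    simpa using OrdM.rlb w (h.ord _ _ h1)
  · obtain ⟨i, rfl⟩ := w.surjective i
    rw [slot_rlb, slot_rlb, h.sl]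

variable (col th k m) in
/-- the points that come from a list with more than `k` letters -/
abbrev BT : (dgT col th k m).Fam := (dgT col th k m).up k

theorem inv_BT : (actT col th k m).Inv (BT col th k m) :=
  (actT col th k m).inv_up (fun w _ _ h => RS.rlb h w.1) k

theorem mem_BT (hk : 0 < k) {L : Wx col th k} {x : (L.dat m).XS} : x ∈ (BT col th k m).A L ↔
    ∃ (K : Wx col th k) (h : RS id K.1 L.1), k < K.1.flatten.length ∧
      ∃ y, (relMor h m).mc y = x :=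
  exists₂_congr fun K h => and_congr (by have := shT_deg K; omega)
    (exists_congr fun y => Eq.congr_left (dgT_mp' h y))

theorem BT_univ (L : Wx col th k) (h : k < L.1.flatten.length) :
    (BT col th k m).A L = univ :=
  eq_univ_of_forall fun x => ⟨L, shT_refl L, by rw [shT_deg]; omega, x, dgT_id _ _ x⟩

theorem BT_one (h0 : Adm col th [[Finset.univ]]) : BT col th 1 m = (ovT m h0).fam (NX m h0 2) := by
  refine Dg.Fam.ext (funext fun L => Set.ext fun x => ⟨?_, fun hx => ?_⟩)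
  · rintro ⟨K, h, a, y, rfl⟩
    exact (mem_NX h0 (x := (ovT m h0).π L _)).2
      ⟨K, by have := shT_deg K; omega, y, ((ovT m h0).comm h y).symm⟩
  · by_cases c : (shT col th 1).deg L = 0
    · obtain rfl := eq_top h0 c
      obtain ⟨K, a, y, e⟩ := (mem_NX h0 (x := (ovT m h0).π (top h0) x)).1 hx
      exact ⟨K, rel_top h0 K, by rw [shT_deg]; omega, y, e.trans (ovT_top h0 x)⟩
    · exact ⟨L, shT_refl L, by omega, x, dgT_id _ _ x⟩

end Pool.Agent.CS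
end
end
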