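import Pool.Agent.P.MP_d34769_ag.HDef

/-! The complex of ordered partitions of a finite set contracts onto its top degree. -/

namespace Pool.Agent.CS

open Pool.Agent.P.MP_d34769_ag

section cob
variable {X M M' : Type} [AddCommGroup M] [AddCommGroup M'] [Union X]

/-- The first face. -/
def mrg (a : X) (φ : List X → M) : List X → M
  | [] => 0
  | b :: l => φ ((a ∪ b) :: l)

theorem cob_nil (φ : List X → M) : cob [] φ = 0 := by simp [cob]

theorem cob_cons (a : X) (l : List X) (φ : List X → M) :
    cob (a :: l) φ = mrg a φ l - cob l fun w => φ (a :: w) := by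
  cases l with
  | nil => simp [cob, mrg]
  | cons b l => simp [cob, mrg]

theorem cob_hom (f : M →+ M') (l : List X) : ∀ φ : List X → M,
    cob l (fun w => f (φ w)) = f (cob l φ) := by
  induction l with
  | nil => intro φ; simp [cob_nil]
  | cons a l ih =>
    intro φ
    rw [cob_cons, cob_cons, map_sub, ih fun w => φ (a :: w)]
    cases l <;> simp [mrg]

theorem cob_sub (l : List X) : ∀ φ ψ : List X → M,
    cob l (fun w => φ w - ψ w) = cob l φ - cob l ψ := by
  induction l with
  | nil => intro φ ψ; simp [cob_nil]
  | cons a l ih =>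
    intro φ ψ
    rw [cob_cons, cob_cons, cob_cons, ih (fun w => φ (a :: w)) fun w => ψ (a :: w)]
    cases l <;> simp only [mrg] <;> abel

theorem cob_zero (l : List X) : cob l (fun _ => (0 : M)) = 0 := by
  simpa using cob_sub l (fun _ => (0 : M)) fun _ => 0

theorem cob_neg (l : List X) (φ : List X → M) : cob l (fun w => -φ w) = -cob l φ := by
  simpa [cob_zero] using cob_sub l (fun _ => (0 : M)) φ

/-- The signed sum over all orderings kills coboundaries. -/
theorem sum_sign_cob (hc : ∀ a b : X, a ∪ b = b ∪ a) (k : ℕ) : ∀ (f : Fin k → X) (ψ : List X → M),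
    ∑ σ : Equiv.Perm (Fin k), ((Equiv.Perm.sign σ : ℤˣ) : ℤ) •
      cob (List.ofFn fun i => f (σ i)) ψ = 0 := by
  induction k with
  | zero => intro f ψ; simp [cob_nil]
  | succ k ih =>
    intro f ψ
    simp only [List.ofFn_succ, cob_cons, smul_sub, Finset.sum_sub_distrib]
    have h2 : ∑ σ : Equiv.Perm (Fin (k + 1)), ((Equiv.Perm.sign σ : ℤˣ) : ℤ) •
        cob (List.ofFn fun i : Fin k => f (σ i.succ)) (fun w => ψ (f (σ 0) :: w)) = 0 := by
      rw [← Equiv.sum_comp Equiv.Perm.decomposeFin.symm, Fintype.sum_prod_type]
      refine Finset.sum_eq_zero fun p _ => ?_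
      simp only [Equiv.Perm.decomposeFin.symm_sign, Equiv.Perm.decomposeFin_symm_apply_zero,
        Equiv.Perm.decomposeFin_symm_apply_succ, Units.val_mul, mul_smul]
      rw [← Finset.smul_sum, ih (fun i => f (Equiv.swap 0 p i.succ)) fun w => ψ (f p :: w), smul_zero]
    rw [h2, sub_zero]
    cases k with
    | zero => simp [mrg]
    | succ k =>
      have h01 : (0 : Fin (k + 2)) ≠ 1 := Fin.zero_ne_one
      refine Finset.sum_involution (fun σ _ => σ * Equiv.swap 0 1) (fun σ _ => ?_)
        (fun σ _ _ h => ?_) (fun _ _ => Finset.mem_univ _) fun σ _ => ?_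
      · have h3 : ∀ i : Fin k, Equiv.swap (0 : Fin (k + 2)) 1 i.succ.succ = i.succ.succ := fun i =>
          Equiv.swap_apply_of_ne_of_ne (Fin.succ_ne_zero _) (Fin.succ_succ_ne_one i)
        simp only [List.ofFn_succ, mrg, Equiv.Perm.sign_mul, Equiv.Perm.sign_swap h01,
          Equiv.Perm.mul_apply, Fin.succ_zero_eq_one, Equiv.swap_apply_left, Equiv.swap_apply_right,
          h3, mul_neg, mul_one, Units.val_neg, neg_smul, hc (f (σ 1))]
        exact add_neg_cancel _
      · have h3 := congrArg (fun τ : Equiv.Perm (Fin (k + 2)) => τ 0) h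
        simp only [Equiv.Perm.mul_apply, Equiv.swap_apply_left] at h3
        exact h01 (σ.injective h3).symm
      · rw [mul_assoc, Equiv.swap_mul_self, mul_one]

end cob

section cox
variable {K M M' : Type} [DecidableEq K] [AddCommGroup M] [AddCommGroup M']

/-- The multiset of letters of a list of blocks. -/
def lets (l : List (Finset K)) : Multiset K := (l.map Finset.val).sum

/-- `l` is an ordered partition of the multiset `s` into nonempty blocks. -/
def OPs (s : Multiset K) (l : List (Finset K)) : Prop := (∀ b ∈ l, b.Nonempty) ∧ lets l = s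

omit [DecidableEq K] in
theorem lets_nil : lets ([] : List (Finset K)) = 0 := rfl

omit [DecidableEq K] in
theorem lets_cons (b : Finset K) (l : List (Finset K)) : lets (b :: l) = b.val + lets l := by
  simp [lets]

omit [DecidableEq K] in
theorem OPs.length_le {s : Multiset K} {l : List (Finset K)} (h : OPs s l) :
    l.length ≤ Multiset.card s := by
  obtain ⟨h1, rfl⟩ := h
  induction l with
  | nil => simp
  | cons b l ih =>
    have h2 := ih fun c hc => h1 c (List.mem_cons_of_mem _ hc)
    have h3 : 0 < b.card := (h1 b List.mem_cons_self).card_pos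
    rw [lets_cons, Multiset.card_add, List.length_cons, Finset.card_val]
    omega

omit [DecidableEq K] in
theorem finite_OPs [Finite K] (s : Multiset K) : {l : List (Finset K) | OPs s l}.Finite :=
  (List.finite_length_le (Finset K) (Multiset.card s)).subset fun _ h => OPs.length_le h

/-- `cob l` only reads ordered partitions of the same set with one block less. -/
theorem cob_loc (l : List (Finset K)) : ∀ φ : List (Finset K) → M, (lets l).Nodup →
    (∀ b ∈ l, b.Nonempty) → (∀ w, OPs (lets l) w → w.length + 1 = l.length → φ w = 0) →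
    cob l φ = 0 := by
  induction l with
  | nil => intro φ _ _ _; exact cob_nil φ
  | cons a l ih =>
    intro φ hn hne h
    rw [lets_cons, Multiset.nodup_add] at hn
    have h1 : cob l (fun w => φ (a :: w)) = 0 := by
      refine ih _ hn.2.1 (fun b hb => hne b (List.mem_cons_of_mem _ hb)) fun w hw hl => h _ ⟨?_, ?_⟩ ?_
      · exact List.forall_mem_cons.mpr ⟨hne a List.mem_cons_self, hw.1⟩
      · rw [lets_cons, lets_cons, hw.2]
      · simp [hl]
    rw [cob_cons, h1, sub_zero]
    cases l with
    | nil => rfl
    | cons b l =>
      refine h _ ⟨List.forall_mem_cons.mpr ⟨(hne a List.mem_cons_self).mono Finset.subset_union_left,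
        fun c hc => hne c (List.mem_cons_of_mem _ (List.mem_cons_of_mem _ hc))⟩, ?_⟩ (by simp)
      have h2 : Disjoint a b := by
        have h3 := hn.2.2
        rw [lets_cons, Multiset.disjoint_add_right] at h3
        exact Finset.disjoint_val.mp h3.1
      rw [lets_cons, lets_cons, lets_cons, ← add_assoc, ← Finset.disjUnion_eq_union a b h2]
      rfl

theorem cob_congr {l : List (Finset K)} {s : Multiset K} (hs : s.Nodup) (hl : OPs s l)
    {φ ψ : List (Finset K) → M} (h : ∀ w, OPs s w → w.length + 1 = l.length → φ w = ψ w) :
    cob l φ = cob l ψ := by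
  obtain ⟨h1, rfl⟩ := hl
  rw [← sub_eq_zero, ← cob_sub]
  exact cob_loc l _ hs h1 fun w hw hw' => sub_eq_zero.mpr (h w hw hw')

/-- The signed sum over the insertions of the block `{x}`. -/
def insI (x : K) : List (Finset K) → (List (Finset K) → M) → M
  | [], φ => φ [{x}]
  | a :: u, φ => φ ({x} :: a :: u) - insI x u fun w => φ (a :: w)

/-- The homotopy that moves `x` out of its block to the right. -/
def outH (x : K) : List (Finset K) → (List (Finset K) → M) → M
  | [], _ => 0
  | b :: l, φ => if x ∈ b then (if b = {x} then 0 else insI x l fun w => φ (b.erase x :: w))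
      else -outH x l fun w => φ (b :: w)

/-- Extension by zero to the lists that start with `{x}`. -/
def extP (x : K) (ψ : List (Finset K) → M) : List (Finset K) → M
  | [] => 0
  | b :: u => if b = {x} then ψ u else 0

/-- The contracting homotopy. -/
def coxH : List K → (List (Finset K) → M) → List (Finset K) → M
  | [], _, _ => 0
  | x :: g, φ, l => outH x l φ - extP x (coxH g fun w => insI x w φ) l

/-- The augmentation. -/
def coxA : List K → (List (Finset K) → M) → M
  | [], φ => φ []
  | x :: g, φ => coxA g fun w => insI x w φ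

omit [DecidableEq K] in
theorem insI_hom (f : M →+ M') (x : K) (u : List (Finset K)) : ∀ φ : List (Finset K) → M,
    insI x u (fun w => f (φ w)) = f (insI x u φ) := by
  induction u with
  | nil => intro φ; rfl
  | cons a u ih => intro φ; simp only [insI, map_sub, ih fun w => φ (a :: w)]

omit [DecidableEq K] in
theorem insI_sub (x : K) (u : List (Finset K)) : ∀ φ ψ : List (Finset K) → M,
    insI x u (fun w => φ w - ψ w) = insI x u φ - insI x u ψ := by
  induction u with
  | nil => intro φ ψ; rfl
  | cons a u ih =>
    intro φ ψ
    simp only [insI, ih (fun w => φ (a :: w)) fun w => ψ (a :: w)]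
    abel

theorem outH_hom (f : M →+ M') (x : K) (l : List (Finset K)) : ∀ φ : List (Finset K) → M,
    outH x l (fun w => f (φ w)) = f (outH x l φ) := by
  induction l with
  | nil => intro φ; simp [outH]
  | cons b l ih =>
    intro φ
    simp only [outH, ih fun w => φ (b :: w), insI_hom f x l fun w => φ (b.erase x :: w)]
    split_ifs <;> simp

theorem outH_sub (x : K) (l : List (Finset K)) : ∀ φ ψ : List (Finset K) → M,
    outH x l (fun w => φ w - ψ w) = outH x l φ - outH x l ψ := by
  induction l with
  | nil => intro φ ψ; simp [outH]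
  | cons b l ih =>
    intro φ ψ
    simp only [outH, ih (fun w => φ (b :: w)) fun w => ψ (b :: w),
      insI_sub x l (fun w => φ (b.erase x :: w)) fun w => ψ (b.erase x :: w)]
    split_ifs
    · simp
    · rfl
    · abel

theorem coxH_hom (f : M →+ M') (g : List K) : ∀ (φ : List (Finset K) → M) (l : List (Finset K)),
    coxH g (fun w => f (φ w)) l = f (coxH g φ l) := by
  induction g with
  | nil => intro φ l; simp [coxH]
  | cons x g ih =>
    intro φ l
    simp only [coxH, map_sub, outH_hom, insI_hom]
    cases l with
    | nil => simp [extP]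
    | cons b u =>
      simp only [extP, ih]
      split_ifs <;> simp

/-- The insertion sum is a chain map up to sign. -/
theorem insI_cob (x : K) (u : List (Finset K)) : ∀ φ : List (Finset K) → M,
    insI x u (fun w => cob w φ) = -cob u fun w => insI x w φ := by
  induction u with
  | nil => intro φ; simp [insI, cob]
  | cons a u ih =>
    intro φ
    simp only [insI, cob_cons a, cob_cons ({x} : Finset K), insI_sub, ih fun w => φ (a :: w), cob_sub]
    cases u with
    | nil => simp [mrg, insI, cob_nil, Finset.union_comm]
    | cons b l =>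
      simp only [mrg, insI, Finset.union_comm a {x}]
      abel

theorem outH_cob (x : K) (l : List (Finset K)) : ∀ φ : List (Finset K) → M, (lets l).Nodup →
    (∀ b ∈ l, b.Nonempty) → x ∈ lets l →
    cob l (fun w => outH x w φ) + outH x l (fun w => cob w φ) =
      φ l - extP x (fun w => insI x w φ) l := by
  induction l with
  | nil => intro φ _ _ hx; simp [lets_nil] at hx
  | cons b u ih =>
    intro φ hn hne hx
    rw [lets_cons, Multiset.nodup_add] at hn
    have hb := hne b List.mem_cons_self
    have hne' : ∀ c ∈ u, c.Nonempty := fun c hc => hne c (List.mem_cons_of_mem _ hc)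
    by_cases hxb : x ∈ b
    · have hxu : x ∉ lets u := fun h => Multiset.disjoint_left.mp hn.2.2 hxb h
      by_cases hbx : b = {x}
      · subst hbx
        simp only [cob_cons, outH, hxb, if_true, extP, cob_zero, sub_zero, add_zero]
        cases u with
        | nil => simp [mrg, insI]
        | cons a u =>
          have hxa : x ∉ a := fun h => hxu (by rw [lets_cons]; exact Multiset.mem_add.mpr (Or.inl h))
          have h1 : ({x} ∪ a : Finset K) ≠ {x} := by
            intro h
            obtain ⟨y, hy⟩ := hne' a List.mem_cons_self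
            have h2 : y ∈ ({x} : Finset K) := h ▸ Finset.mem_union_right _ hy
            exact hxa (Finset.mem_singleton.mp h2 ▸ hy)
          have h2 : ({x} ∪ a : Finset K).erase x = a := by
            rw [Finset.singleton_union, Finset.erase_insert hxa]
          simp only [mrg, outH, Finset.mem_union, Finset.mem_singleton, true_or, if_true, h1, if_false,
            h2, insI]
          abel
      · simp only [cob_cons, outH, hxb, if_true, hbx, if_false, extP, insI_sub, insI_cob, sub_zero]
        have h3 : b.erase x ∪ {x} = b := by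
          rw [Finset.union_comm, Finset.singleton_union, Finset.insert_erase hxb]
        cases u with
        | nil => simp [mrg, insI, cob_nil, h3]
        | cons a u =>
          have hxa : x ∉ a := fun h => hxu (by rw [lets_cons]; exact Multiset.mem_add.mpr (Or.inl h))
          have h1 : b ∪ a ≠ {x} := fun h => hbx
            (hb.subset_singleton_iff.mp (h ▸ Finset.subset_union_left))
          have h2 : (b ∪ a).erase x = b.erase x ∪ a := by
            rw [Finset.erase_union_distrib, Finset.erase_eq_of_notMem hxa]
          simp only [mrg, outH, Finset.mem_union, hxb, true_or, if_true, h1, if_false, h2, insI, h3]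
          abel
    · have hxu : x ∈ lets u := by
        rw [lets_cons, Multiset.mem_add] at hx
        exact hx.resolve_left hxb
      have hbx : b ≠ {x} := fun h => hxb (h ▸ Finset.mem_singleton_self x)
      have h0 := ih (fun w => φ (b :: w)) hn.2.1 hne' hxu
      simp only [cob_cons, outH, hxb, if_false, extP, hbx, cob_neg, outH_sub, sub_zero]
      have h4 : mrg b (fun w => outH x w φ) u - outH x u (fun w => mrg b φ w) =
          extP x (fun w => insI x w fun w => φ (b :: w)) u := by
        cases u with
        | nil => simp [lets_nil] at hxu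
        | cons c u =>
          have h1 : b ∪ c ≠ {x} := fun h => hbx
            (hb.subset_singleton_iff.mp (h ▸ Finset.subset_union_left))
          have h2 : (b ∪ c).erase x = b ∪ c.erase x := by
            rw [Finset.erase_union_distrib, Finset.erase_eq_of_notMem hxb]
          simp only [mrg, outH, extP, Finset.mem_union, hxb, false_or, h1, if_false, h2]
          by_cases hcx : c = {x}
          · subst hcx
            simp
          · simp [hcx]
      rw [← h4] at h0
      linear_combination (norm := abel) h0

theorem extP_cob (x : K) (ψ : List (Finset K) → M) (l : List (Finset K)) (hn : (lets l).Nodup)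
    (hne : ∀ b ∈ l, b.Nonempty) : cob l (extP x ψ) = -extP x (fun w => cob w ψ) l := by
  cases l with
  | nil => simp [cob_nil, extP]
  | cons b u =>
    rw [lets_cons, Multiset.nodup_add] at hn
    have hb := hne b List.mem_cons_self
    have h1 : mrg b (extP x ψ) u = 0 := by
      cases u with
      | nil => rfl
      | cons c u =>
        refine if_neg fun h => ?_
        have h2 : b = {x} := hb.subset_singleton_iff.mp (h ▸ Finset.subset_union_left)
        have h3 : c = {x} := (hne c (List.mem_cons_of_mem _ List.mem_cons_self)).subset_singleton_iff.mp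
          (h ▸ Finset.subset_union_right)
        exact Multiset.disjoint_left.mp hn.2.2 (show x ∈ b.val by simp [h2]) (by simp [lets_cons, h3])
    rw [cob_cons, h1]
    by_cases hbx : b = {x} <;> simp [extP, hbx, cob_zero]

/-- The homotopy identity. -/
theorem coxH_cob (g : List K) : ∀ (φ : List (Finset K) → M) (l : List (Finset K)), g.Nodup →
    OPs (g : Multiset K) l → cob l (coxH g φ) + coxH g (fun w => cob w φ) l =
      φ l - if l = g.map (fun x => {x}) then coxA g φ else 0 := by
  induction g with
  | nil =>
    intro φ l _ hl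
    have h1 : l = [] := List.length_eq_zero_iff.mp (Nat.le_zero.mp hl.length_le)
    subst h1
    simp [cob_nil, coxH, coxA]
  | cons x g ih =>
    intro φ l hg hl
    have hn : (lets l).Nodup := hl.2 ▸ Multiset.coe_nodup.mpr hg
    have h1 := outH_cob x l φ hn hl.1 (by rw [hl.2]; simp)
    have h2 := extP_cob x (coxH g fun w => insI x w φ) l hn hl.1
    have h3 : (coxH (x :: g) φ) = fun w => outH x w φ - extP x (coxH g fun w => insI x w φ) w := rfl
    have h4 : (coxH g fun w => -cob w fun w => insI x w φ) =
        fun l => -coxH g (fun w => cob w fun w => insI x w φ) l :=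
      funext fun l => coxH_hom (negAddMonoidHom : M →+ M) g (fun w => cob w fun w => insI x w φ) l
    rw [h3, cob_sub, h2]
    simp only [coxH, insI_cob, h4]
    cases l with
    | nil => simpa [extP] using h1
    | cons b u =>
      by_cases hbx : b = {x}
      · have hu : OPs (g : Multiset K) u := by
          refine ⟨fun c hc => hl.1 c (List.mem_cons_of_mem _ hc), ?_⟩
          have h5 := hl.2
          rw [lets_cons, hbx, Finset.singleton_val, Multiset.singleton_add, ← Multiset.cons_coe] at h5
          exact (Multiset.cons_inj_right x).mp h5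
        have h5 := ih (fun w => insI x w φ) u (List.nodup_cons.mp hg).2 hu
        simp only [extP, hbx, if_true, List.map_cons, List.cons.injEq, true_and, coxA] at h1 ⊢
        linear_combination (norm := abel) h1 + h5
      · simp only [extP, hbx, if_false, List.map_cons, List.cons.injEq, false_and] at h1 ⊢
        linear_combination (norm := abel) h1

omit [DecidableEq K] in
theorem insI_loc (x : K) (u : List (Finset K)) : ∀ φ : List (Finset K) → M, (∀ b ∈ u, b.Nonempty) →
    (∀ w, OPs (x ::ₘ lets u) w → w.length = u.length + 1 → φ w = 0) → insI x u φ = 0 := by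
  induction u with
  | nil => intro φ _ h; exact h _ ⟨by simp, by simp [lets]⟩ rfl
  | cons a u ih =>
    intro φ hne h
    have h1 : φ ({x} :: a :: u) = 0 :=
      h _ ⟨List.forall_mem_cons.mpr ⟨Finset.singleton_nonempty x, hne⟩, by simp [lets_cons]⟩ rfl
    rw [insI, h1, ih _ (fun b hb => hne b (List.mem_cons_of_mem _ hb)), sub_zero]
    intro w hw hl
    refine h _ ⟨List.forall_mem_cons.mpr ⟨hne a List.mem_cons_self, hw.1⟩, ?_⟩ (by simp [hl])
    rw [lets_cons, lets_cons, hw.2, Multiset.add_cons]

theorem outH_loc (x : K) (l : List (Finset K)) : ∀ φ : List (Finset K) → M, (∀ b ∈ l, b.Nonempty) →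
    (∀ w, OPs (lets l) w → w.length = l.length + 1 → φ w = 0) → outH x l φ = 0 := by
  induction l with
  | nil => intro φ _ _; rfl
  | cons b l ih =>
    intro φ hne h
    have hne' : ∀ c ∈ l, c.Nonempty := fun c hc => hne c (List.mem_cons_of_mem _ hc)
    rw [outH]
    split_ifs with h1 h2
    · rfl
    · refine insI_loc x l _ hne' fun w hw hl => h _ ⟨List.forall_mem_cons.mpr ⟨?_, hw.1⟩, ?_⟩
        (by simp [hl])
      · rw [Finset.nonempty_iff_ne_empty, Ne, Finset.erase_eq_empty_iff]
        rintro (h3 | h3)
        · exact absurd (h3 ▸ h1) (Finset.notMem_empty x)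
        · exact h2 h3
      · rw [lets_cons, lets_cons, hw.2, Multiset.add_cons, ← Multiset.cons_add, Finset.erase_val,
          Multiset.cons_erase (Finset.mem_val.mpr h1)]
    · rw [ih _ hne', neg_zero]
      intro w hw hl
      refine h _ ⟨List.forall_mem_cons.mpr ⟨hne b List.mem_cons_self, hw.1⟩, ?_⟩ (by simp [hl])
      rw [lets_cons, lets_cons, hw.2]

theorem coxH_loc (g : List K) : ∀ (φ : List (Finset K) → M) (l : List (Finset K)),
    (∀ b ∈ l, b.Nonempty) → (∀ w, OPs (lets l) w → w.length = l.length + 1 → φ w = 0) →
    coxH g φ l = 0 := by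
  induction g with
  | nil => intro φ l _ _; rfl
  | cons x g ih =>
    intro φ l hne h
    rw [coxH, outH_loc x l φ hne h, zero_sub, neg_eq_zero]
    cases l with
    | nil => rfl
    | cons b u =>
      rw [extP]
      split_ifs with hbx
      · refine ih _ u (fun c hc => hne c (List.mem_cons_of_mem _ hc)) fun w hw hl =>
          insI_loc x w φ hw.1 fun w' hw' hl' => h w' ⟨hw'.1, ?_⟩ (by simp [hl', hl])
        rw [hw'.2, hw.2, lets_cons, hbx, Finset.singleton_val, Multiset.singleton_add]
      · rfl

omit [DecidableEq K] in
theorem lets_sing (g : List K) : lets (g.map fun x => {x}) = (g : Multiset K) := by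
  induction g with
  | nil => rfl
  | cons x g ih => rw [List.map_cons, lets_cons, ih, Finset.singleton_val, Multiset.singleton_add,
      Multiset.cons_coe]

/-- The ordering of `K` given by `e` and `σ`, as a list of one-letter blocks. -/
def topL {k : ℕ} (e : Fin k ≃ K) (σ : Equiv.Perm (Fin k)) : List (Finset K) :=
  List.ofFn fun i => {e (σ i)}

omit [DecidableEq K] in
theorem coe_ofFn_equiv [Fintype K] {k : ℕ} (e : Fin k ≃ K) :
    ((List.ofFn e : List K) : Multiset K) = Finset.univ.val := by
  rw [← Fin.univ_val_map, Multiset.map_univ_val_equiv]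

omit [DecidableEq K] in
theorem topL_OPs [Fintype K] {k : ℕ} (e : Fin k ≃ K) (σ : Equiv.Perm (Fin k)) :
    OPs Finset.univ.val (topL e σ) := by
  have h1 : topL e σ = (List.ofFn (σ.trans e)).map fun x => {x} := by
    rw [List.map_ofFn]
    rfl
  refine ⟨fun b hb => ?_, by rw [h1, lets_sing, coe_ofFn_equiv]⟩
  obtain ⟨i, rfl⟩ := List.mem_ofFn.mp hb
  exact Finset.singleton_nonempty _

omit [DecidableEq K] in
theorem topL_length {k : ℕ} (e : Fin k ≃ K) (σ : Equiv.Perm (Fin k)) : (topL e σ).length = k :=
  List.length_ofFn

omit [DecidableEq K] in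
theorem topL_inj {k : ℕ} (e : Fin k ≃ K) : Function.Injective (topL e) := by
  intro σ τ h
  ext i
  have h1 := congrFun (List.ofFn_injective h) i
  rw [e.injective (Finset.singleton_injective h1)]

/-- The signed sum over all orderings. -/
def coxS {k : ℕ} (e : Fin k ≃ K) (φ : List (Finset K) → M) : M :=
  ∑ σ : Equiv.Perm (Fin k), ((Equiv.Perm.sign σ : ℤˣ) : ℤ) • φ (topL e σ)

theorem coxS_cob {k : ℕ} (e : Fin k ≃ K) (ψ : List (Finset K) → M) :
    coxS e (fun w => cob w ψ) = 0 :=
  sum_sign_cob Finset.union_comm k (fun i => {e i}) ψ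

theorem coxA_eq [Fintype K] {k : ℕ} (e : Fin k ≃ K) (φ : List (Finset K) → M) :
    coxA (List.ofFn e) φ = coxS e φ := by
  have h0 : (List.ofFn e).map (fun x => ({x} : Finset K)) = topL e 1 := by
    rw [List.map_ofFn]
    rfl
  have h1 : ∀ σ, cob (topL e σ) (coxH (List.ofFn e) φ) =
      φ (topL e σ) - if σ = 1 then coxA (List.ofFn e) φ else 0 := by
    intro σ
    have h2 := coxH_cob (List.ofFn e) φ (topL e σ) (List.nodup_ofFn.mpr e.injective)
      (by rw [coe_ofFn_equiv]; exact topL_OPs e σ)
    rw [coxH_loc _ _ _ (topL_OPs e σ).1, add_zero, h0] at h2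
    · simpa only [(topL_inj e).eq_iff] using h2
    · intro w hw hl
      have h3 := hw.length_le
      rw [(topL_OPs e σ).2, hl, topL_length, Finset.card_val, Finset.card_univ,
        ← Fintype.card_congr e, Fintype.card_fin] at h3
      omega
  have h2 := coxS_cob e (coxH (List.ofFn e) φ)
  simp only [coxS, h1, smul_sub, Finset.sum_sub_distrib, smul_ite, smul_zero, Finset.sum_ite_eq',
    Finset.mem_univ, if_true, Equiv.Perm.sign_one, Units.val_one, one_smul] at h2
  exact (sub_eq_zero.mp h2).symm

/-- COX: an integer matrix `μ` contracts the complex of ordered partitions onto the signed sum over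
all orderings, for coefficients in any abelian group. -/
theorem cox [Fintype K] {k : ℕ} (e : Fin k ≃ K) :
    ∃ μ : List (Finset K) → List (Finset K) → ℤ,
      (∀ l l', OPs Finset.univ.val l → μ l l' ≠ 0 →
        OPs Finset.univ.val l' ∧ l'.length = l.length + 1) ∧
      ∀ (M : Type) [AddCommGroup M] (T : Finset (List (Finset K))),
        (∀ l, OPs Finset.univ.val l → l ∈ T) → ∀ (φ : List (Finset K) → M) (l : List (Finset K)),
        OPs Finset.univ.val l →
        cob l (fun w => ∑ l' ∈ T, μ w l' • φ l') + ∑ l' ∈ T, μ l l' • cob l' φ =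
          φ l - if l = topL e 1 then coxS e φ else 0 := by
  classical
  set c : List (Finset K) → (List (Finset K) →₀ ℤ) :=
    coxH (List.ofFn e) fun w => Finsupp.single w 1 with hc
  have hs : ∀ l l', OPs Finset.univ.val l → c l l' ≠ 0 →
      OPs Finset.univ.val l' ∧ l'.length = l.length + 1 := by
    intro l l' hl h
    by_contra h1
    refine h ?_
    have h2 := coxH_hom (Finsupp.applyAddHom l' : (List (Finset K) →₀ ℤ) →+ ℤ) (List.ofFn e)
      (fun w => Finsupp.single w 1) l
    rw [coxH_loc _ _ _ hl.1] at h2
    · exact h2.symm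
    · intro w hw hw'
      rw [hl.2] at hw
      exact Finsupp.single_eq_of_ne fun h3 => h1 (h3 ▸ ⟨hw, hw'⟩)
  refine ⟨fun l l' => c l l', hs, fun M _ T hT φ l hl => ?_⟩
  have h1 : ∀ (ψ : List (Finset K) → M) w, OPs Finset.univ.val w →
      ∑ l' ∈ T, c w l' • ψ l' = coxH (List.ofFn e) ψ w := by
    intro ψ w hw
    have h2 := coxH_hom (Finsupp.linearCombination ℤ ψ).toAddMonoidHom (List.ofFn e)
      (fun w => Finsupp.single w 1) w
    simp only [LinearMap.toAddMonoidHom_coe, Finsupp.linearCombination_single, one_smul] at h2
    rw [h2, Finsupp.linearCombination_apply]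
    exact (Finsupp.sum_of_support_subset (c w)
      (fun l' hl' => hT l' (hs w l' hw (Finsupp.mem_support_iff.mp hl')).1)
      (fun l' n => n • ψ l') fun _ _ => zero_smul ℤ _).symm
  have h0 : (List.ofFn e).map (fun x => ({x} : Finset K)) = topL e 1 := by
    rw [List.map_ofFn]
    rfl
  rw [cob_congr Finset.univ.nodup hl fun w hw _ => h1 φ w hw, h1 (fun w => cob w φ) l hl,
    coxH_cob (List.ofFn e) φ l (List.nodup_ofFn.mpr e.injective) (by rwa [coe_ofFn_equiv]), h0,
    coxA_eq]

/-- `cob` through its integer matrix. -/
theorem cob_matrix {s : Multiset K} (hs : s.Nodup) (T : Finset (List (Finset K)))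
    (hT : ∀ l, OPs s l → l ∈ T) (φ : List (Finset K) → M) {l : List (Finset K)} (hl : OPs s l) :
    cob l φ = ∑ l' ∈ T, cob l (fun w => if w = l' then (1 : ℤ) else 0) • φ l' := by
  have h1 : ∀ l', cob l (fun w => if w = l' then (1 : ℤ) else 0) • φ l' =
      cob l fun w => if w = l' then φ l' else 0 := by
    intro l'
    have h2 := cob_hom (zmultiplesHom M (φ l')) l fun w => if w = l' then (1 : ℤ) else 0
    simp only [zmultiplesHom_apply, ite_smul, one_smul, zero_smul] at h2
    exact h2.symm
  simp only [h1]
  have h2 : ∀ (T : Finset (List (Finset K))) (F : List (Finset K) → List (Finset K) → M),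
      ∑ l' ∈ T, cob l (F l') = cob l fun w => ∑ l' ∈ T, F l' w := by
    intro T F
    induction T using Finset.induction_on with
    | empty => simp [cob_zero]
    | insert a T ha ih =>
      simp only [Finset.sum_insert ha, ih]
      have h3 := cob_sub l (fun w => F a w + ∑ l' ∈ T, F l' w) (F a)
      simp only [add_sub_cancel_left] at h3
      rw [h3]
      abel
  rw [h2]
  refine cob_congr hs hl fun w hw _ => ?_
  rw [Finset.sum_ite_eq, if_pos (hT w hw)]

omit [DecidableEq K] in
theorem cmp_zero_iff [Fintype K] (col : K → Fin 3) (l : List (Finset K)) :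
    Cmp col (fun _ => 0) l ↔ OPs Finset.univ.val l := by
  simp [Cmp, OPs, lets]

end cox

end Pool.Agent.CS
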