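import Pool.Agent.K.MP_d34769_ag.C26
import Pool.Agent.K.MP_d34769_ag.C73

/-! Constant diagrams on a contractible shape; the Coxeter shape. -/

open Set Pool.Agent.P.MP_d34769_ag

noncomputable section
namespace Pool.Agent.CS

/-- The shape `S` contracts onto the vertex `i0`, with augmentation `sg` and homotopy `μ`. -/
structure Ctr (S : Sh) [DecidableEq S.ι] (i0 : S.ι) (sg : S.ι → ℤ) (μ : S.ι → S.ι → ℤ) : Prop where
  dμ : ∀ i j, μ i j ≠ 0 → S.deg j = S.deg i + 1
  dsg : ∀ j, sg j ≠ 0 → S.deg j = S.deg i0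
  one : sg i0 = 1
  top : ∀ i, S.ε i i0 = 0
  sε : ∀ k, ∑ j, sg j * S.ε j k = 0
  hh : ∀ i k, ∑ j, S.ε i j * μ j k + ∑ j, μ i j * S.ε j k =
    (if i = k then 1 else 0) - if i = i0 then sg k else 0

/-- the weighted sum of the components -/
def augL {ι V : Type} [Fintype ι] [AddCommGroup V] [Module ℂ V] (sg : ι → ℤ) : (ι → V) →ₗ[ℂ] V :=
  ∑ j, (sg j : ℂ) • LinearMap.proj j

theorem augL_apply {ι V : Type} [Fintype ι] [AddCommGroup V] [Module ℂ V] (sg : ι → ℤ) (c : ι → V) :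
    augL sg c = ∑ j, (sg j : ℂ) • c j := by
  simp [augL, LinearMap.sum_apply]

section sys
variable {S : Sh} {V : Type} [AddCommGroup V] [Module ℂ V] (A : Gc V)

/-- the constant system -/
def cstSys (S : Sh) (A : Gc V) : Sys S fun _ => V where
  A _ := A
  pl _ := LinearMap.id
  pd _ _ := rfl
  pe _ _ _ := rfl
  pp _ _ _ := rfl

variable {A} {Y : Sys S fun _ => V}

theorem cq_δ (hA : ∀ i, Y.A i = A) (hp : ∀ {i j} (h : S.rel i j) x, Y.pl h x = x) (c : S.ι → V)
    (i : S.ι) : Y.bg.D c i = A.d (c i) + A.s (∑ j, (S.ε i j : ℂ) • c j) := by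
  rw [HT.BG.D_apply, Pi.add_apply, Sys.bg_d, Sys.bg_δ, hA, mat_apply]
  refine congrArg (fun x => A.d (c i) + A.s x) (Finset.sum_congr rfl fun j _ => ?_)
  split_ifs with h
  · rw [hp]
  · have h1 : S.ε i j = 0 := by
      by_contra h2
      exact h (S.sup i j h2).1
    rw [h1, Int.cast_zero, zero_smul]

theorem cq_sG {n : ℤ} {x : V} (h : x ∈ A.G n) : A.s x ∈ A.G n :=
  Gc.mem_G.2 fun m hm => by rw [← Gc.se, Gc.mem_G.1 h m hm, map_zero]

theorem cq_sum {ι : Type} [Fintype ι] {W : Submodule ℂ V} {a : ι → ℤ} {c : ι → V}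
    (h : ∀ j, a j ≠ 0 → c j ∈ W) : ∑ j, (a j : ℂ) • c j ∈ W :=
  W.sum_mem fun j _ => by
    by_cases h1 : a j = 0
    · rw [h1, Int.cast_zero, zero_smul]
      exact W.zero_mem
    · exact W.smul_mem _ (h j h1)

theorem cq_mm {ι : Type} [Fintype ι] (a : ι → ℤ) (b : ι → ι → ℤ) (c : ι → V) :
    ∑ j, (a j : ℂ) • ∑ k, (b j k : ℂ) • c k = ∑ k, ((∑ j, a j * b j k : ℤ) : ℂ) • c k := by
  simp only [Finset.smul_sum, smul_smul, Int.cast_sum, Int.cast_mul, Finset.sum_smul]
  exact Finset.sum_comm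

/-- A constant system on a contractible shape computes the cohomology of its member. -/
theorem Sys.ctr_qi [DecidableEq S.ι] {i0 : S.ι} {sg : S.ι → ℤ} {μ : S.ι → S.ι → ℤ}
    (H : Ctr S i0 sg μ) (hA : ∀ i, Y.A i = A) (hp : ∀ {i j} (h : S.rel i j) x, Y.pl h x = x)
    {U N : Submodule ℂ V} (hU : Y.Stab fun _ => U) (hN : Y.Stab fun _ => N)
    (dU : ∀ x ∈ U, A.d x ∈ U) (dN : ∀ x ∈ N, A.d x ∈ N) :
    (Y.bc hU hN).cx.Mor (A.cx U N dU dN) (augL sg) (-(S.deg i0 : ℤ)) ∧
      (Y.bc hU hN).cx.QIa (A.cx U N dU dN) (augL sg) (-(S.deg i0 : ℤ)) := by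
  have hG : ∀ n (c : S.ι → V), c ∈ (Y.bc hU hN).cx.G n ↔ ∀ i, c i ∈ A.G (n - S.deg i) ⊓ U := by
    intro n c
    rw [Sys.mem_cx_G]
    refine forall_congr' fun i => ?_
    show c i ∈ (Y.A i).G _ ⊓ U ↔ _
    rw [hA]
  have hNN : ∀ c : S.ι → V, c ∈ (Y.bc hU hN).cx.N ↔ ∀ i, c i ∈ N := fun c =>
    ⟨fun h i => h i trivial, fun h i _ => h i⟩
  have hD : ∀ (c : S.ι → V) i, (Y.bc hU hN).cx.d c i =
      A.d (c i) + A.s (∑ j, (S.ε i j : ℂ) • c j) := fun c i => cq_δ hA hp c i
  have sU : ∀ x ∈ U, A.s x ∈ U := fun x hx => hA i0 ▸ hU.s i0 x hx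
  have sN : ∀ x ∈ N, A.s x ∈ N := fun x hx => hA i0 ▸ hN.s i0 x hx
  have ha : ∀ c : S.ι → V, augL sg ((Y.bc hU hN).cx.d c) = A.d (augL sg c) := by
    intro c
    simp only [augL_apply, hD, smul_add, Finset.sum_add_distrib, ← map_smul, ← map_sum]
    rw [cq_mm]
    simp [H.sε]
  have m1 : (Y.bc hU hN).cx.Mor (A.cx U N dU dN) (augL sg) (-(S.deg i0 : ℤ)) := by
    refine ⟨fun n c hc => ?_, fun n c _ hc => ?_, fun n c _ => ?_⟩
    · rw [augL_apply]
      refine cq_sum (W := A.G _ ⊓ U) fun j hj => ?_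
      have h1 := (hG n c).1 hc j
      rwa [H.dsg j hj] at h1
    · rw [augL_apply]
      exact cq_sum (W := N) fun j _ => (hNN c).1 hc j
    · rw [ha]
      exact Cx.meq N.zero_mem (sub_self _).symm
  have hi : ∀ x : V, (Y.bc hU hN).cx.d (Pi.single i0 x) = Pi.single i0 (A.d x) := by
    intro x
    funext i
    rw [hD, Finset.sum_eq_single i0 (fun j _ hj => by rw [Pi.single_eq_of_ne hj, smul_zero])
      (fun h => absurd (Finset.mem_univ _) h), H.top, Int.cast_zero, zero_smul, map_zero, add_zero]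
    exact Pi.apply_single (fun _ => A.d) (fun _ => map_zero _) i0 x i
  have m2 : (A.cx U N dU dN).Mor (Y.bc hU hN).cx (LinearMap.single ℂ (fun _ => V) i0)
      (- -(S.deg i0 : ℤ)) := by
    refine ⟨fun n x hx => (hG _ _).2 fun i => ?_, fun n x _ hx => (hNN _).2 fun i => ?_,
      fun n x _ => ?_⟩
    · by_cases h : i = i0
      · subst h
        rw [LinearMap.coe_single, Pi.single_eq_same, neg_neg, add_sub_cancel_right]
        exact hx
      · rw [LinearMap.coe_single, Pi.single_eq_of_ne h]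
        exact Submodule.zero_mem _
    · by_cases h : i = i0
      · subst h
        rw [LinearMap.coe_single, Pi.single_eq_same]
        exact hx
      · rw [LinearMap.coe_single, Pi.single_eq_of_ne h]
        exact Submodule.zero_mem _
    · rw [LinearMap.coe_single, hi]
      exact Cx.meq (Submodule.zero_mem _) (sub_self _).symm
  refine ⟨m1, Cx.qia_of_inv _ m1 m2 (fun n c hc => ?_) fun n y _ => ?_⟩
  · set h : (S.ι → V) → S.ι → V := fun c i => A.s (∑ j, (μ i j : ℂ) • c j) with hh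
    have key : (Y.bc hU hN).cx.d (h c) + h ((Y.bc hU hN).cx.d c) =
        c - Pi.single i0 (augL sg c) := by
      funext i
      simp only [Pi.add_apply, hD, hh, smul_add, Finset.sum_add_distrib, ← map_smul, ← map_sum,
        map_add, Gc.ss, Gc.ds, cq_mm, Pi.sub_apply]
      rw [add_add_add_comm, neg_add_cancel, zero_add, ← Finset.sum_add_distrib]
      simp only [← add_smul, ← Int.cast_add, H.hh]
      by_cases h1 : i = i0
      · subst h1
        simp [sub_smul, Finset.sum_sub_distrib, augL_apply]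
      · simp [h1]
    refine Cx.mem_B.2 ⟨-h c, neg_mem ((hG _ _).2 fun i => ?_), ?_⟩
    · have h1 : ∑ j, (μ i j : ℂ) • c j ∈ A.G (n - 1 - S.deg i) ⊓ U := cq_sum fun j hj => by
        have h2 := (hG n c).1 hc.1 j
        rw [H.dμ i j hj] at h2
        rwa [show n - 1 - (S.deg i : ℤ) = n - (S.deg i + 1 : ℕ) by push_cast; ring]
      exact ⟨cq_sG h1.1, sU _ h1.2⟩
    · have h1 : -h ((Y.bc hU hN).cx.d c) ∈ (Y.bc hU hN).cx.N :=
        neg_mem ((hNN _).2 fun i => sN _ (cq_sum fun j _ => (hNN _).1 hc.2 j))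
      refine Cx.meq h1 ?_
      rw [map_neg, LinearMap.coe_single, eq_sub_of_add_eq key]
      abel
  · have h1 : augL sg (Pi.single i0 y : S.ι → V) = y := by
      rw [augL_apply, Finset.sum_eq_single i0
        (fun j _ hj => by rw [Pi.single_eq_of_ne hj, smul_zero])
        (fun h => absurd (Finset.mem_univ _) h), H.one, Pi.single_eq_same, Int.cast_one, one_smul]
    rw [LinearMap.coe_single, h1, sub_self]
    exact Submodule.zero_mem _

end sys

section dg
variable (S : Sh) (F : Type) [TopologicalSpace F] [CompactSpace F] [T2Space F]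

/-- the constant diagram -/
def Dg.cst : Dg S where
  X _ := F
  mp _ := ContinuousMap.id F
  comp _ _ _ := rfl

variable {F}

/-- the constant family -/
def Dg.cfam (K : Set F) : (Dg.cst S F).Fam where
  A _ := K
  mp _ := mapsTo_id K

variable {S}

theorem Dg.ctr_qi [DecidableEq S.ι] {i0 : S.ι} {sg : S.ι → ℤ} {μ : S.ι → S.ι → ℤ}
    (H : Ctr S i0 sg μ) (K A : Set F) :
    (Dg.bc (Dg.cfam S K) (Dg.cfam S A)).cx.Mor (CP K A) (augL (V := AS F) sg) (-(S.deg i0 : ℤ)) ∧
      (Dg.bc (Dg.cfam S K) (Dg.cfam S A)).cx.QIa (CP K A) (augL (V := AS F) sg)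
        (-(S.deg i0 : ℤ)) :=
  Sys.ctr_qi (Y := (Dg.cst S F).sys) (A := AS.gc F) H (fun _ => rfl) (fun _ x => AS.pull_id x)
    (Dg.cfam S A).stab (Dg.cfam S K).stab ((Dg.cfam S A).stab.d i0) ((Dg.cfam S K).stab.d i0)

end dg

theorem Dg.cfam_univ (S : Sh) (F : Type) [TopologicalSpace F] [CompactSpace F] [T2Space F] :
    Dg.cfam S (univ : Set F) = ⊤ := rfl

theorem Dg.cfam_empty (S : Sh) (F : Type) [TopologicalSpace F] [CompactSpace F] [T2Space F] :
    Dg.cfam S (∅ : Set F) = ⊥ := rfl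

section cox
variable {K : Type} [Fintype K] [DecidableEq K] {k : ℕ} (e : Fin k ≃ K) {S : Sh}

/-- The shape `S` is the complex of ordered partitions of `K`, through `u`. -/
structure IsCox (S : Sh) (u : S.ι → List (Finset K)) (a : ℕ) : Prop where
  inj : Function.Injective u
  op : ∀ i, OPs Finset.univ.val (u i)
  sur : ∀ l, OPs Finset.univ.val l → ∃ i, u i = l
  deg : ∀ i, (u i).length = S.deg i + a
  ε : ∀ i j, S.ε i j = cob (u i) fun w => if w = u j then (1 : ℤ) else 0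

variable {u : S.ι → List (Finset K)} {a : ℕ}

theorem IsCox.cob_eq (h : IsCox S u a) {M : Type} [AddCommGroup M] (φ : List (Finset K) → M)
    (i : S.ι) : cob (u i) φ = ∑ j, S.ε i j • φ (u j) := by
  rw [cob_matrix Finset.univ.nodup (Finset.univ.image u) (fun l hl => ?_) φ (h.op i),
    Finset.sum_image fun x _ y _ hxy => h.inj hxy]
  · simp only [h.ε]
  · obtain ⟨j, rfl⟩ := h.sur l hl
    exact Finset.mem_image_of_mem u (Finset.mem_univ j)

theorem IsCox.exists_top (h : IsCox S u a) : ∃ t : Equiv.Perm (Fin k) → S.ι, ∀ σ, u (t σ) = topL e σ :=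
  ⟨fun σ => (h.sur _ (topL_OPs e σ)).choose, fun σ => (h.sur _ (topL_OPs e σ)).choose_spec⟩

/-- The Coxeter shape contracts onto the signed sum over the orderings. -/
theorem IsCox.ctr [DecidableEq S.ι] (h : IsCox S u a) {t : Equiv.Perm (Fin k) → S.ι}
    (ht : ∀ σ, u (t σ) = topL e σ) : ∃ sg μ, Ctr S (t 1) sg μ ∧
      ∀ (V : Type) [AddCommGroup V] [Module ℂ V] (c : S.ι → V), augL sg c =
        ∑ σ : Equiv.Perm (Fin k), (((Equiv.Perm.sign σ : ℤˣ) : ℤ) : ℂ) • c (t σ) := by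
  obtain ⟨ν, h1, h2⟩ := cox e
  set sg : S.ι → ℤ := fun j => coxS e fun w => if w = u j then (1 : ℤ) else 0 with hsg
  have hs : ∀ j, sg j = ∑ σ : Equiv.Perm (Fin k),
      if t σ = j then ((Equiv.Perm.sign σ : ℤˣ) : ℤ) else 0 := by
    intro j
    simp only [hsg, coxS, ← ht, h.inj.eq_iff, smul_eq_mul, mul_ite, mul_one, mul_zero]
  have ha : ∀ c : S.ι → ℤ, ∑ j, sg j * c j =
      ∑ σ : Equiv.Perm (Fin k), ((Equiv.Perm.sign σ : ℤˣ) : ℤ) * c (t σ) := by
    intro c
    simp only [hs, Finset.sum_mul, ite_mul, zero_mul]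
    rw [Finset.sum_comm]
    simp
  have hti : Function.Injective t := fun σ τ hh => topL_inj e (by rw [← ht, ← ht, hh])
  have hd : ∀ σ, S.deg (t σ) + a = k := fun σ => by rw [← h.deg, ht, topL_length]
  refine ⟨sg, fun i j => ν (u i) (u j), ⟨fun i j hn => ?_, fun j hj => ?_, ?_, fun i => ?_,
    fun j => ?_, fun i j => ?_⟩, fun V _ _ c => ?_⟩
  · have h3 := (h1 _ _ (h.op i) hn).2
    rw [h.deg, h.deg] at h3
    omega
  · rw [hs] at hj
    obtain ⟨σ, _, h3⟩ := Finset.exists_ne_zero_of_sum_ne_zero hj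
    have h4 : t σ = j := by
      by_contra h5
      exact h3 (if_neg h5)
    have h5 := hd σ
    have h6 := hd 1
    rw [h4] at h5
    omega
  · rw [hs]
    simp [hti.eq_iff]
  · by_contra h3
    have h4 := (S.sup _ _ h3).2
    have h5 := (h.op i).length_le
    have h6 := hd 1
    rw [h.deg, Finset.card_val, Finset.card_univ, ← Fintype.card_congr e, Fintype.card_fin] at h5
    omega
  · rw [ha]
    have h3 := coxS_cob e fun w => if w = u j then (1 : ℤ) else 0
    simpa only [coxS, ← ht, ← h.ε, smul_eq_mul] using h3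
  · have h3 := h2 ℤ (Finset.univ.image u) (fun l hl => ?_) (fun w => if w = u j then (1 : ℤ) else 0)
      (u i) (h.op i)
    · simp only [Finset.sum_image fun x _ y _ hxy => h.inj hxy, h.cob_eq, h.inj.eq_iff, ← ht,
        smul_eq_mul, mul_ite, mul_one, mul_zero, Finset.sum_ite_eq', Finset.mem_univ, if_true] at h3
      exact h3
    · obtain ⟨j, rfl⟩ := h.sur l hl
      exact Finset.mem_image_of_mem u (Finset.mem_univ j)
  · simp only [augL_apply, hs, Int.cast_sum, Int.cast_ite, Int.cast_zero, Finset.sum_smul, ite_smul,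
      zero_smul]
    rw [Finset.sum_comm]
    simp

variable {F : Type} [TopologicalSpace F] [CompactSpace F] [T2Space F]

/-- the signed sum over the orderings, on cochains -/
def coxL (t : Equiv.Perm (Fin k) → S.ι) (V : Type) [AddCommGroup V] [Module ℂ V] :
    (S.ι → V) →ₗ[ℂ] V :=
  ∑ σ : Equiv.Perm (Fin k), (((Equiv.Perm.sign σ : ℤˣ) : ℤ) : ℂ) • LinearMap.proj (t σ)

theorem coxL_apply (t : Equiv.Perm (Fin k) → S.ι) {V : Type} [AddCommGroup V] [Module ℂ V]
    (c : S.ι → V) : coxL t V c =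
      ∑ σ : Equiv.Perm (Fin k), (((Equiv.Perm.sign σ : ℤˣ) : ℤ) : ℂ) • c (t σ) := by
  simp [coxL, LinearMap.sum_apply]

/-- HC(3). -/
theorem IsCox.qi (h : IsCox S u a) {t : Equiv.Perm (Fin k) → S.ι} (ht : ∀ σ, u (t σ) = topL e σ)
    (A B : Set F) :
    (Dg.bc (Dg.cfam S A) (Dg.cfam S B)).cx.Mor (CP A B) (coxL t (AS F)) ((a : ℤ) - k) ∧
      (Dg.bc (Dg.cfam S A) (Dg.cfam S B)).cx.QIa (CP A B) (coxL t (AS F)) ((a : ℤ) - k) := by
  classical
  obtain ⟨sg, μ, H, h1⟩ := h.ctr e ht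
  have h2 : coxL t (AS F) = augL sg := LinearMap.ext fun c => by rw [coxL_apply, h1]
  have h3 : S.deg (t 1) + a = k := by rw [← h.deg, ht, topL_length]
  rw [h2, show (a : ℤ) - k = -(S.deg (t 1) : ℤ) by omega]
  exact Dg.ctr_qi H A B

end cox

end Pool.Agent.CS
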