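import Mathlib

/-! Framed representations of the quiver `0 ⇉ 1 ← 2` with patterns. -/

open Matrix

noncomputable section
namespace Pool.Agent.CS

/-- the source of an arrow (the target is always `1`) -/
def src : Fin 3 → Fin 3 := ![0, 0, 2]

/-- A quotient datum: weights, framing, components, group pattern and arrow pattern. -/
structure Dat (I : Type) [Fintype I] [DecidableEq I] where
  col : I → Fin 3
  th : Fin 3 → ℤ
  m : ℕ
  cp : I → I → Prop
  gl : I → I → Prop
  rl : I → I → Prop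
  cp_eq : Equivalence cp
  gl_refl : ∀ i, gl i i
  gl_trans : ∀ {i j k}, gl i j → gl j k → gl i k
  rl_trans : ∀ {i j k}, rl i j → rl j k → rl i k
  gl_rl : ∀ {i j}, gl i j → rl i j
  rl_cp : ∀ {i j}, rl i j → cp i j
  tot : ∀ i j, col i = col j → cp i j → gl i j ∨ gl j i
  bal : ∀ i (F : Finset I), (∀ j, j ∈ F ↔ cp i j) → ∑ j ∈ F, th (col j) = 0

/-- triples of matrices -/
abbrev Rp (I : Type) := Fin 3 → Matrix I I ℂ

/-- framed triples -/
abbrev Pt (I : Type) (m : ℕ) := Rp I × Matrix I (Fin m) ℂ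

variable {I I' I'' : Type} [Fintype I] [DecidableEq I] [Fintype I'] [DecidableEq I'] [Fintype I'']
  [DecidableEq I'']

/-- vectors supported in `F` -/
def sp (F : Set I) : Submodule ℂ (I → ℂ) := ⨅ i ∈ Fᶜ, LinearMap.ker (LinearMap.proj i)

/-- the action on triples -/
def actR (g : Matrix I I ℂ) (ρ : Rp I) : Rp I := fun a => g * ρ a * g⁻¹

/-- the action on framed triples -/
def act {m : ℕ} (g : Matrix I I ℂ) (p : Pt I m) : Pt I m := (actR g p.1, g * p.2)

open Classical in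
/-- subrepresentations that are graded for the relation `e` -/
structure SubE (e : I → I → Prop) (ρ : Rp I) (U : Submodule ℂ (I → ℂ)) : Prop where
  gr : ∀ i, ∀ v ∈ U, (fun j => if e i j then v j else 0) ∈ U
  st : ∀ a, ∀ v ∈ U, ρ a *ᵥ v ∈ U

namespace Dat
variable (D : Dat I)

/-- the group pattern -/
def gp (i j : I) : Prop := D.col i = D.col j ∧ D.gl i j

/-- the classes of the group pattern -/
def cl (i j : I) : Prop := D.gp i j ∧ D.gp j i

/-- same colour and component -/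
def cc (i j : I) : Prop := D.col i = D.col j ∧ D.cp i j

/-- the arrow pattern -/
def ap (a : Fin 3) (i j : I) : Prop := D.col i = 1 ∧ D.col j = src a ∧ D.rl i j

/-- the Lie algebra of the group -/
def Lie : Submodule ℂ (Matrix I I ℂ) where
  carrier := {h | ∀ i j, ¬ D.gp i j → h i j = 0}
  add_mem' ha hb i j h := by simp [ha i j h, hb i j h]
  zero_mem' _ _ _ := rfl
  smul_mem' c _ ha i j h := by simp [ha i j h]

/-- the group -/
def P : Set (Matrix I I ℂ) := {g | g ∈ D.Lie ∧ IsUnit g.det}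

/-- the representations with the pattern -/
def R : Submodule ℂ (Rp I) where
  carrier := {ρ | ∀ a i j, ¬ D.ap a i j → ρ a i j = 0}
  add_mem' ha hb a i j h := by simp [ha a i j h, hb a i j h]
  zero_mem' _ _ _ _ := rfl
  smul_mem' c _ ha a i j h := by simp [ha a i j h]

/-- the datum without flags -/
def base : Dat I :=
  { D with
    gl := D.cp
    rl := D.cp
    gl_refl := D.cp_eq.1
    gl_trans := D.cp_eq.3
    rl_trans := D.cp_eq.3
    gl_rl := id
    rl_cp := id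
    tot := fun _ _ _ h => Or.inl h }

/-- the group is a Borel subgroup -/
def Hat : Prop := ∀ i j, D.cl i j → i = j

/-- a refinement with a Borel subgroup when `o` is injective -/
def hat (o : I → ℕ) : Dat I :=
  { D with
    gl := fun i j => D.gl i j ∧ (D.gl j i → o i ≤ o j)
    gl_refl := fun i => ⟨D.gl_refl i, fun _ => le_rfl⟩
    gl_trans := fun a b => ⟨D.gl_trans a.1 b.1, fun c =>
      (a.2 (D.gl_trans b.1 c)).trans (b.2 (D.gl_trans c a.1))⟩
    gl_rl := fun e => D.gl_rl e.1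
    tot := fun i j a b => by
      by_cases h : D.gl i j <;> by_cases h' : D.gl j i
      · exact (le_total (o i) (o j)).imp (fun c => ⟨h, fun _ => c⟩) fun c => ⟨h', fun _ => c⟩
      · exact Or.inl ⟨h, fun c => absurd c h'⟩
      · exact Or.inr ⟨h', fun c => absurd c h⟩
      · exact absurd (D.tot i j a b) (by simp [h, h']) }

lemma hat_Hat {o : I → ℕ} (ho : Function.Injective o) : (D.hat o).Hat := fun _ _ h =>
  ho (le_antisymm (h.1.2.2 h.2.2.1) (h.2.2.2 h.1.2.1))

/-- subrepresentations -/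
abbrev Sub (ρ : Rp I) (U : Submodule ℂ (I → ℂ)) : Prop := SubE D.cc ρ U

/-- the weight of a graded subspace for the weights `t` -/
def wt (t : Fin 3 → ℤ) (U : Submodule ℂ (I → ℂ)) : ℤ :=
  ∑ v, t v * Module.finrank ℂ ↥(U ⊓ sp {i | D.col i = v})

/-- semistable for the weights `t` -/
def SS (t : Fin 3 → ℤ) (ρ : Rp I) : Prop := ∀ U, D.Sub ρ U → D.wt t U ≤ 0

/-- stable -/
def Stb (ρ : Rp I) : Prop := Nonempty I ∧ ∀ U, D.Sub ρ U → U ≠ ⊥ → U ≠ ⊤ → D.wt D.th U < 0

/-- stable framed representations -/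
structure St (p : Pt I D.m) : Prop where
  mem : p.1 ∈ D.R
  ss : D.SS D.th p.1
  gen : ∀ U, D.Sub p.1 U → (∀ r, (fun i => p.2 i r) ∈ U) → U ≠ ⊤ → D.wt D.th U < 0

/-- a morphism of data -/
structure Mor (D : Dat I) (D' : Dat I') where
  w : I ≃ I'
  ι : I → Fin D.m ↪ Fin D'.m
  col : ∀ i, D'.col (w i) = D.col i
  th : D'.th = D.th
  gp : ∀ i j, D.gp i j → D'.gp (w i) (w j)
  rl : ∀ i j, D.rl i j → D'.rl (w i) (w j)
  cp : ∀ i j, D.cp i j → D'.cp (w i) (w j)
  ι_eq : ∀ i j, D.cp i j → ι i = ι j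
  ι_ne : ∀ i j, ¬ D.cp i j → D'.cp (w i) (w j) → ∀ r s, ι i r ≠ ι j s

/-- the map on framed representations -/
def Mor.F {D : Dat I} {D' : Dat I'} (h : Mor D D') (p : Pt I D.m) : Pt I' D'.m :=
  (fun a => reindex h.w h.w (p.1 a),
    fun i r => Function.extend (h.ι (h.w.symm i)) (p.2 (h.w.symm i)) 0 r)

/-- the identity -/
def Mor.id (D : Dat I) : Mor D D where
  w := Equiv.refl I
  ι _ := Function.Embedding.refl _
  col _ := rfl
  th := rfl
  gp _ _ h := h
  rl _ _ h := h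
  cp _ _ h := h
  ι_eq _ _ _ := rfl
  ι_ne _ _ h h' := absurd h' h

/-- composition -/
def Mor.comp {D : Dat I} {D' : Dat I'} {D'' : Dat I''} (h' : Mor D' D'') (h : Mor D D') :
    Mor D D'' where
  w := h.w.trans h'.w
  ι i := (h.ι i).trans (h'.ι (h.w i))
  col i := (h'.col _).trans (h.col i)
  th := h'.th.trans h.th
  gp i j e := h'.gp _ _ (h.gp i j e)
  rl i j e := h'.rl _ _ (h.rl i j e)
  cp i j e := h'.cp _ _ (h.cp i j e)
  ι_eq i j e := by rw [h.ι_eq i j e, h'.ι_eq _ _ (h.cp i j e)]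
  ι_ne i j e e' r s := by
    by_cases c : D'.cp (h.w i) (h.w j)
    · intro k
      simp only [Function.Embedding.trans_apply, h'.ι_eq _ _ c] at k
      exact h.ι_ne i j e c r s ((h'.ι _).injective k)
    · exact h'.ι_ne _ _ c e' _ _

/-- the morphism that forgets part of the patterns -/
def Mor.ofLe {D D' : Dat I} (hm : D.m = D'.m) (hc : D'.col = D.col) (ht : D'.th = D.th)
    (hp : ∀ i j, D.cp i j ↔ D'.cp i j) (hg : ∀ i j, D.gp i j → D'.gp i j)
    (hr : ∀ i j, D.rl i j → D'.rl i j) : Mor D D' where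
  w := Equiv.refl I
  ι _ := (finCongr hm).toEmbedding
  col i := congrFun hc i
  th := ht
  gp := hg
  rl := hr
  cp i j := (hp i j).1
  ι_eq _ _ _ := rfl
  ι_ne i j h h' := absurd ((hp i j).2 h') h

/-- the permutations that lie in the group -/
def W : Subgroup (Equiv.Perm I) where
  carrier := {w | ∀ i, D.cl (w i) i}
  mul_mem' {a b} ha hb i := ⟨⟨(ha _).1.1.trans (hb i).1.1, D.gl_trans (ha _).1.2 (hb i).1.2⟩,
    (hb i).2.1.trans (ha _).2.1, D.gl_trans (hb i).2.2 (ha _).2.2⟩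
  one_mem' i := ⟨⟨rfl, D.gl_refl i⟩, rfl, D.gl_refl i⟩
  inv_mem' {a} ha i := by
    have := ha (a⁻¹ i)
    rw [show a (a⁻¹ i) = i by simp] at this
    exact this.symm

end Dat

/-- `i` lies in a letter of `l` that is not later than a letter that contains `j` -/
def Ord (l : List (Finset I)) (i j : I) : Prop :=
  ∃ a b, i ∈ a ∧ j ∈ b ∧ (a = b ∧ a ∈ l ∨ [a, b].Sublist l)

/-- `l` is an ordered partition of `I` into nonempty blocks -/
def Part (l : List (Finset I)) : Prop :=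
  (∀ b ∈ l, b.Nonempty) ∧ (l.map Finset.val).sum = Finset.univ.val

omit [Fintype I] [DecidableEq I] in
lemma ord_cons (c : Finset I) (l : List (Finset I)) (i j : I) :
    Ord (c :: l) i j ↔ (i ∈ c ∧ (j ∈ c ∨ ∃ b ∈ l, j ∈ b)) ∨ Ord l i j := by
  constructor
  · rintro ⟨a, b, hi, hj, ⟨rfl, h⟩ | h⟩
    · rcases List.mem_cons.1 h with rfl | h
      · exact Or.inl ⟨hi, Or.inl hj⟩
      · exact Or.inr ⟨a, a, hi, hj, Or.inl ⟨rfl, h⟩⟩
    · rcases List.sublist_cons_iff.1 h with h | ⟨r, h1, h2⟩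
      · exact Or.inr ⟨a, b, hi, hj, Or.inr h⟩
      · obtain ⟨rfl, rfl⟩ := List.cons.inj h1
        exact Or.inl ⟨hi, Or.inr ⟨b, List.singleton_sublist.1 h2, hj⟩⟩
  · rintro (⟨hi, hj | ⟨b, hb, hj⟩⟩ | ⟨a, b, hi, hj, h⟩)
    · exact ⟨c, c, hi, hj, Or.inl ⟨rfl, by simp⟩⟩
    · exact ⟨c, b, hi, hj, Or.inr ((List.singleton_sublist.2 hb).cons_cons c)⟩
    · exact ⟨a, b, hi, hj, h.imp (fun h => ⟨h.1, by simp [h.2]⟩) fun h => h.cons c⟩

omit [Fintype I] [DecidableEq I] in
lemma Ord.mem {l : List (Finset I)} {i j : I} (h : Ord l i j) :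
    (∃ a ∈ l, i ∈ a) ∧ ∃ b ∈ l, j ∈ b := by
  obtain ⟨a, b, hi, hj, ⟨rfl, h⟩ | h⟩ := h
  · exact ⟨⟨a, h, hi⟩, a, h, hj⟩
  · exact ⟨⟨a, h.subset (by simp), hi⟩, b, h.subset (by simp), hj⟩

omit [Fintype I] [DecidableEq I] in
lemma Ord.trans {l : List (Finset I)} (hl : l.Pairwise Disjoint) {i j k : I} (h : Ord l i j)
    (h' : Ord l j k) : Ord l i k := by
  induction l with
  | nil => simpa using h.mem.1
  | cons c l ih =>
    rw [List.pairwise_cons] at hl
    rw [ord_cons] at h h' ⊢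
    rcases h with h | h <;> rcases h' with h' | h'
    · exact Or.inl ⟨h.1, h'.2⟩
    · exact Or.inl ⟨h.1, Or.inr h'.mem.2⟩
    · obtain ⟨b, hb, hj⟩ := h.mem.2
      exact absurd hj (Finset.disjoint_left.1 (hl.1 b hb) h'.1)
    · exact Or.inr (ih hl.2 h h')

omit [Fintype I] [DecidableEq I] in
lemma ord_total {l : List (Finset I)} {i j : I} (hi : ∃ a ∈ l, i ∈ a) (hj : ∃ b ∈ l, j ∈ b) :
    Ord l i j ∨ Ord l j i := by
  induction l with
  | nil => simp at hi
  | cons c l ih =>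
    simp only [List.mem_cons, exists_eq_or_imp, ord_cons] at hi hj ⊢
    rcases hi with hi | hi
    · exact Or.inl (Or.inl ⟨hi, hj⟩)
    · rcases hj with hj | hj
      · exact Or.inr (Or.inl ⟨hj, Or.inr hi⟩)
      · exact (ih hi hj).imp Or.inr Or.inr

omit [DecidableEq I] in
lemma Part.mem {l : List (Finset I)} (h : Part l) (i : I) : ∃ a ∈ l, i ∈ a := by
  have : i ∈ (l.map Finset.val).sum := by rw [h.2]; simp
  clear h
  induction l with
  | nil => simp at this
  | cons c l ih =>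
    simp only [List.map_cons, List.sum_cons, Multiset.mem_add, List.mem_cons,
      exists_eq_or_imp] at this ⊢
    exact this.imp id ih

omit [DecidableEq I] in
lemma Part.pw {l : List (Finset I)} (h : Part l) : l.Pairwise Disjoint := by
  have : (l.map Finset.val).sum.Nodup := by rw [h.2]; exact Finset.univ.nodup
  clear h
  induction l with
  | nil => simp
  | cons c l ih =>
    rw [List.map_cons, List.sum_cons, Multiset.nodup_add] at this
    refine List.pairwise_cons.2 ⟨fun b hb => ?_, ih this.2.1⟩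
    exact Finset.disjoint_val.1 (this.2.2.mono_right
      (List.single_le_sum (fun _ _ => zero_le) _ (List.mem_map_of_mem hb)))

omit [DecidableEq I] in
lemma Part.refl {l : List (Finset I)} (h : Part l) (i : I) : Ord l i i :=
  (ord_total (h.mem i) (h.mem i)).elim id id

omit [Fintype I] in
lemma sum_union_zero (f : I → ℤ) {u : List (Finset I)} (hu : u.Pairwise Disjoint)
    (hb : ∀ b ∈ u, ∑ j ∈ b, f j = 0) (F : Finset I) (hF : ∀ j, j ∈ F ↔ ∃ a ∈ u, j ∈ a) :
    ∑ j ∈ F, f j = 0 := by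
  induction u generalizing F with
  | nil => rw [Finset.eq_empty_of_forall_notMem (s := F) (by simpa using hF)]; rfl
  | cons c l ih =>
    rw [List.pairwise_cons] at hu
    rw [← Finset.sum_sdiff (s₁ := c) fun j hj => (hF j).2 ⟨c, by simp, hj⟩, hb c (by simp),
      ih hu.2 (fun b h => hb b (by simp [h])) (F \ c) fun j => ?_, add_zero]
    simp only [Finset.mem_sdiff, hF, List.mem_cons, exists_eq_or_imp]
    exact ⟨fun h => h.1.resolve_left h.2, fun ⟨b, h, hj⟩ =>
      ⟨Or.inr ⟨b, h, hj⟩, fun h' => Finset.disjoint_left.1 (hu.1 b h) h' hj⟩⟩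

omit [DecidableEq I] in
lemma Part.word {L : List (List (Finset I))} (h : Part L.flatten) {u v : List (Finset I)}
    (hu : u ∈ L) (hv : v ∈ L) {i : I} (hi : ∃ a ∈ u, i ∈ a) (hj : ∃ b ∈ v, i ∈ b) : u = v := by
  by_contra hne
  obtain ⟨a, ha, hi⟩ := hi
  obtain ⟨b, hb, hj⟩ := hj
  have : Std.Symm fun u v : List (Finset I) => ∀ x ∈ u, ∀ y ∈ v, Disjoint x y :=
    ⟨fun _ _ h x hx y hy => (h y hy x hx).symm⟩
  exact Finset.disjoint_left.1
    ((List.pairwise_flatten.1 h.pw).2.forall hu hv hne a ha b hb) hi hj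

omit [DecidableEq I] in
lemma Part.mem_word {L : List (List (Finset I))} (h : Part L.flatten) (i : I) :
    ∃ u ∈ L, ∃ a ∈ u, i ∈ a := by
  obtain ⟨a, ha, hi⟩ := h.mem i
  obtain ⟨u, hu, ha⟩ := List.mem_flatten.1 ha
  exact ⟨u, hu, a, ha, hi⟩

omit [DecidableEq I] in
lemma Part.ord_trans {L : List (List (Finset I))} (h : Part L.flatten) {i j k : I}
    (h1 : ∃ u ∈ L, Ord u i j) (h2 : ∃ u ∈ L, Ord u j k) : ∃ u ∈ L, Ord u i k := by
  obtain ⟨u, hu, a⟩ := h1
  obtain ⟨v, hv, b⟩ := h2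
  obtain rfl := h.word hu hv a.mem.2 b.mem.1
  exact ⟨u, hu, a.trans ((List.pairwise_flatten.1 h.pw).1 u hu) b⟩

/-- the base datum with the flag given by the ordered partition `l` -/
def Dat.flag (D : Dat I) (l : List (Finset I)) (h : Part l) : Dat I :=
  { D with
    gl := fun i j => D.cp i j ∧ Ord l i j
    rl := fun i j => D.cp i j ∧ Ord l i j
    gl_refl := fun i => ⟨D.cp_eq.1 i, h.refl i⟩
    gl_trans := fun a b => ⟨D.cp_eq.3 a.1 b.1, a.2.trans h.pw b.2⟩
    rl_trans := fun a b => ⟨D.cp_eq.3 a.1 b.1, a.2.trans h.pw b.2⟩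
    gl_rl := id
    rl_cp := fun e => e.1
    tot := fun i j _ e => (ord_total (h.mem i) (h.mem j)).imp (fun c => ⟨e, c⟩)
      fun c => ⟨D.cp_eq.2 e, c⟩ }

/-- admissible lists of words: the letters partition `I` and have weight zero -/
structure Adm (col : I → Fin 3) (th : Fin 3 → ℤ) (L : List (List (Finset I))) : Prop where
  part : Part L.flatten
  ne : ∀ u ∈ L, u ≠ []
  bal : ∀ b ∈ L.flatten, ∑ j ∈ b, th (col j) = 0

/-- the datum of a list of words: one component for each word, one flag step for each letter -/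
def mdat {col : I → Fin 3} {th : Fin 3 → ℤ} (m : ℕ) {L : List (List (Finset I))}
    (h : Adm col th L) : Dat I where
  col := col
  th := th
  m := m
  cp i j := ∃ u ∈ L, ∃ a ∈ u, ∃ b ∈ u, i ∈ a ∧ j ∈ b
  gl i j := ∃ u ∈ L, Ord u i j
  rl i j := ∃ u ∈ L, Ord u i j
  cp_eq := ⟨fun i => by
      obtain ⟨u, hu, a, ha, hi⟩ := h.part.mem_word i
      exact ⟨u, hu, a, ha, a, ha, hi, hi⟩,
    fun ⟨u, hu, a, ha, b, hb, hi, hj⟩ => ⟨u, hu, b, hb, a, ha, hj, hi⟩,
    fun ⟨u, hu, a, ha, b, hb, hi, hj⟩ ⟨v, hv, c, hc, e, he, hj', hk⟩ => by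
      obtain rfl := h.part.word hu hv ⟨b, hb, hj⟩ ⟨c, hc, hj'⟩
      exact ⟨u, hu, a, ha, e, he, hi, hk⟩⟩
  gl_refl i := by
    obtain ⟨u, hu, hi⟩ := h.part.mem_word i
    exact ⟨u, hu, (ord_total hi hi).elim id id⟩
  gl_trans := h.part.ord_trans
  rl_trans := h.part.ord_trans
  gl_rl := id
  rl_cp := fun ⟨u, hu, e⟩ => by
    obtain ⟨⟨a, ha, hi⟩, b, hb, hj⟩ := e.mem
    exact ⟨u, hu, a, ha, b, hb, hi, hj⟩
  tot := fun _ _ _ ⟨u, hu, a, ha, b, hb, hi, hj⟩ =>
    (ord_total ⟨a, ha, hi⟩ ⟨b, hb, hj⟩).imp (fun e => ⟨u, hu, e⟩) fun e => ⟨u, hu, e⟩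
  bal i F hF := by
    obtain ⟨u, hu, hi⟩ := h.part.mem_word i
    refine sum_union_zero _ ((List.pairwise_flatten.1 h.part.pw).1 u hu)
      (fun b hb => h.bal b (List.mem_flatten.2 ⟨u, hu, hb⟩)) F fun j => (hF j).trans ⟨?_, ?_⟩
    · rintro ⟨v, hv, a, ha, b, hb, hi', hj⟩
      obtain rfl := h.part.word hu hv hi ⟨a, ha, hi'⟩
      exact ⟨b, hb, hj⟩
    · rintro ⟨b, hb, hj⟩
      obtain ⟨a, ha, hi⟩ := hi
      exact ⟨u, hu, a, ha, b, hb, hi, hj⟩

/-- the same datum with weight zero -/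
def Dat.zero (D : Dat I) : Dat I := { D with th := 0, bal := fun _ _ _ => by simp }

end Pool.Agent.CS
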