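import Pool.Agent.K.MP_d34769_ag.C74
import Pool.Agent.K.MP_d34769_ag.C99
import Pool.Agent.K.MP_d34769_ag.C52

/-! Words, their initial sets and their sets of ranks. -/

set_option linter.unusedSectionVars false

noncomputable section
namespace Pool.Agent.CS
open Pool.Agent.P.MP_d34769_ag

variable {I K M : Type} [Fintype I] [DecidableEq I] [Fintype K] [DecidableEq K] [AddCommGroup M]
  {u v : List (Finset I)} {F F' : Finset I} {i j : I}

/-- `F` is a proper nonempty initial set of the word `u` -/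
structure Dn (u : List (Finset I)) (F : Finset I) : Prop where
  ne : F ≠ ∅
  nu : F ≠ Finset.univ
  dn : ∀ i j, Ord u i j → j ∈ F → i ∈ F

theorem yhc1_ord_ofFn {k : ℕ} {L : Fin k → Finset I} :
    Ord (List.ofFn L) i j ↔ ∃ a b, a ≤ b ∧ i ∈ L a ∧ j ∈ L b := by
  induction k with
  | zero => simp [Ord]
  | succ k ih =>
    rw [List.ofFn_succ, ord_cons, ih]
    simp only [Fin.exists_fin_succ, List.mem_ofFn, exists_exists_eq_and, le_refl, true_and,
      Fin.zero_le, Fin.succ_le_succ_iff, (Fin.succ_pos _).not_ge, false_and, false_or]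
    constructor
    · rintro (⟨h, h' | ⟨b, h'⟩⟩ | h)
      · exact Or.inl (Or.inl ⟨h, h'⟩)
      · exact Or.inl (Or.inr ⟨b, h, h'⟩)
      · exact Or.inr h
    · rintro ((⟨h, h'⟩ | ⟨b, h, h'⟩) | h)
      · exact Or.inl ⟨h, Or.inl h'⟩
      · exact Or.inl ⟨h, Or.inr ⟨b, h'⟩⟩
      · exact Or.inr h

theorem yhc1_part_ofFn {k : ℕ} {L : Fin k → Finset I} :
    Part (List.ofFn L) ↔ (∀ a, (L a).Nonempty) ∧ ∀ i, ∃! a, i ∈ L a := by
  refine and_congr List.forall_mem_ofFn_iff ?_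
  rw [List.map_ofFn, List.sum_ofFn, Multiset.ext]
  refine forall_congr' fun i => ?_
  have e : ∀ a, Multiset.count i ((Finset.val ∘ L) a) = if i ∈ L a then 1 else 0 := fun a =>
    Multiset.count_eq_of_nodup (L a).nodup
  rw [Multiset.count_sum', Multiset.count_univ, Finset.sum_congr rfl fun a _ => e a,
    ← Finset.card_filter, Finset.card_eq_one_iff_existsUnique]
  simp

/-- `ρ i` is the position of the letter that contains `i` -/
structure Yhc1Rk (u : List (Finset I)) (ρ : I → ℕ) : Prop where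
  lt : ∀ i, ρ i < u.length
  mem : ∀ i k (hk : k < u.length), i ∈ u[k] ↔ ρ i = k
  sur : ∀ k, k < u.length → ∃ i, ρ i = k

theorem yhc1_rk (hu : Part u) : ∃ ρ, Yhc1Rk u ρ := by
  rw [← List.ofFn_getElem (xs := u), yhc1_part_ofFn] at hu
  choose ρ h1 h2 using hu.2
  have h3 : ∀ i k (hk : k < u.length), i ∈ u[k] ↔ (ρ i : ℕ) = k := fun i k hk =>
    ⟨fun h => congrArg Fin.val (h2 i ⟨k, hk⟩ h).symm, by rintro rfl; exact h1 i⟩
  refine ⟨fun i => ρ i, fun i => (ρ i).2, h3, fun k hk => ?_⟩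
  obtain ⟨i, hi⟩ := hu.1 ⟨k, hk⟩
  exact ⟨i, (h3 i k hk).1 hi⟩

/-- the elements of position `< k` -/
def yhc1_lo (ρ : I → ℕ) (k : ℕ) : Finset I := Finset.univ.filter fun i => ρ i < k

theorem yhc1_mem_lo {ρ : I → ℕ} {k : ℕ} : i ∈ yhc1_lo ρ k ↔ ρ i < k := by simp [yhc1_lo]

namespace Yhc1Rk
variable {ρ ρ' : I → ℕ}

theorem part (h : Yhc1Rk u ρ) : Part u := by
  rw [← List.ofFn_getElem (xs := u), yhc1_part_ofFn]
  refine ⟨fun a => (h.sur a a.2).imp fun i e => (h.mem i a a.2).2 e, fun i =>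
    ⟨⟨ρ i, h.lt i⟩, (h.mem i _ (h.lt i)).2 rfl, fun a e => Fin.ext ((h.mem i a a.2).1 e).symm⟩⟩

theorem ord (h : Yhc1Rk u ρ) : Ord u i j ↔ ρ i ≤ ρ j := by
  rw [← List.ofFn_getElem (xs := u), yhc1_ord_ofFn]
  constructor
  · rintro ⟨a, b, e, hi, hj⟩
    rw [(h.mem i a a.2).1 hi, (h.mem j b b.2).1 hj]
    exact e
  · exact fun e => ⟨⟨ρ i, h.lt i⟩, ⟨ρ j, h.lt j⟩, e, (h.mem i _ (h.lt i)).2 rfl,
      (h.mem j _ (h.lt j)).2 rfl⟩

theorem dn (h : Yhc1Rk u ρ) : Dn u F ↔ ∃ k, 0 < k ∧ k < u.length ∧ F = yhc1_lo ρ k := by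
  constructor
  · intro hF
    obtain ⟨j, hj, hm⟩ := Finset.exists_min_image Fᶜ ρ (by
      rw [Finset.nonempty_iff_ne_empty, Ne, Finset.compl_eq_empty_iff]; exact hF.nu)
    have e : F = yhc1_lo ρ (ρ j) := by
      ext x
      rw [yhc1_mem_lo]
      exact ⟨fun hx => not_le.1 fun c => Finset.mem_compl.1 hj (hF.dn j x (h.ord.2 c) hx),
        fun hx => by_contra fun c => (hm x (Finset.mem_compl.2 c)).not_gt hx⟩
    refine ⟨ρ j, ?_, h.lt j, e⟩
    obtain ⟨x, hx⟩ := Finset.nonempty_iff_ne_empty.2 hF.ne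
    rw [e, yhc1_mem_lo] at hx
    omega
  · rintro ⟨k, h0, hk, rfl⟩
    obtain ⟨x, hx⟩ := h.sur 0 (h0.trans hk)
    obtain ⟨y, hy⟩ := h.sur k hk
    refine ⟨Finset.ne_empty_of_mem (a := x) (yhc1_mem_lo.2 (by omega)), fun c => ?_,
      fun i j e hj => yhc1_mem_lo.2 ((h.ord.1 e).trans_lt (yhc1_mem_lo.1 hj))⟩
    have : y ∈ yhc1_lo ρ k := c ▸ Finset.mem_univ y
    rw [yhc1_mem_lo] at this
    omega

theorem le (h : Yhc1Rk u ρ) (e : ∀ i j, ρ' i ≤ ρ' j → ρ i ≤ ρ j) (n : ℕ) :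
    ∀ i, ρ i = n → n ≤ ρ' i := by
  induction n with
  | zero => exact fun _ _ => Nat.zero_le _
  | succ n ih =>
    intro i hi
    obtain ⟨j, hj⟩ := h.sur n (by have := h.lt i; omega)
    have h1 := ih j hj
    by_contra c
    have := e i j (by omega)
    omega

theorem ext (h : Yhc1Rk u ρ) (h' : Yhc1Rk v ρ) : u = v := by
  have key : ∀ {u v : List (Finset I)}, Yhc1Rk u ρ → Yhc1Rk v ρ → u.length ≤ v.length :=
    fun {u v} h h' => not_lt.1 fun c => by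
      obtain ⟨i, hi⟩ := h.sur _ c
      have := h'.lt i
      omega
  refine List.ext_getElem (le_antisymm (key h h') (key h' h)) fun k h1 h2 => ?_
  ext i
  rw [h.mem, h'.mem]

theorem card_lt (h : Yhc1Rk u ρ) {k m : ℕ} (hk : k < m) (hm : k < u.length) :
    (yhc1_lo ρ k).card < (yhc1_lo ρ m).card := by
  obtain ⟨x, hx⟩ := h.sur k hm
  refine Finset.card_lt_card ⟨fun y hy => yhc1_mem_lo.2 ((yhc1_mem_lo.1 hy).trans hk), fun c => ?_⟩
  have := yhc1_mem_lo.1 (c (yhc1_mem_lo.2 (show ρ x < m by omega)))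
  omega

end Yhc1Rk

theorem yhc1_word (f : I → ℕ) : ∃ u, Part u ∧ ∀ i j, Ord u i j ↔ f i ≤ f j := by
  obtain ⟨S, hS⟩ : ∃ S, S = Finset.univ.image f := ⟨_, rfl⟩
  have hf : ∀ i, f i ∈ S := fun i => hS ▸ Finset.mem_image_of_mem f (Finset.mem_univ i)
  have e := S.orderIsoOfFin rfl
  refine ⟨List.ofFn fun a => Finset.univ.filter fun i => e.symm ⟨f i, hf i⟩ = a,
    yhc1_part_ofFn.2 ⟨fun a => ?_, fun i => by simp⟩, fun i j => ?_⟩
  · obtain ⟨i, -, hi⟩ := Finset.mem_image.1 (hS ▸ (e a).2 : (e a).1 ∈ Finset.univ.image f)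
    refine ⟨i, Finset.mem_filter.2 ⟨Finset.mem_univ _, ?_⟩⟩
    rw [e.symm_apply_eq]
    exact Subtype.ext hi
  · rw [yhc1_ord_ofFn]
    simp

theorem yhc1_ord_fc (s t : List (Finset I)) (a b : Finset I) :
    Ord (s ++ (a ∪ b) :: t) i j ↔ Ord (s ++ a :: b :: t) i j ∨ (i ∈ b ∧ j ∈ a) := by
  induction s with
  | nil =>
    simp only [List.nil_append, ord_cons, List.mem_cons, exists_eq_or_imp, Finset.mem_union]
    generalize Ord t i j = p
    generalize (∃ b ∈ t, j ∈ b) = q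
    by_cases i ∈ a <;> by_cases i ∈ b <;> by_cases j ∈ a <;> simp [*]
  | cons c s ih =>
    simp only [List.cons_append, ord_cons, ih, List.mem_append, List.mem_cons, or_and_right,
      exists_or, exists_eq_left, Finset.mem_union, or_assoc]

theorem yhc1_disj {s t : List (Finset I)} {a b : Finset I} (hu : Part (s ++ a :: b :: t)) :
    Disjoint a b :=
  (List.pairwise_cons.1 (List.pairwise_append.1 hu.pw).2.1).1 b (by simp)

/-- merge the letters `k` and `k + 1` -/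
def yhc1_mg {X : Type} [Union X] : ℕ → List X → List X
  | 0, a :: b :: t => (a ∪ b) :: t
  | k + 1, a :: l => a :: yhc1_mg k l
  | _, _ => []

theorem yhc1_cob {X : Type} [Union X] (l : List X) : ∀ φ : List X → M,
    cob l φ = ∑ k ∈ Finset.range (l.length - 1), (-1 : ℤ) ^ k • φ (yhc1_mg k l) := by
  induction l with
  | nil => intro φ; simp [cob_nil]
  | cons a l ih =>
    intro φ
    cases l with
    | nil => simp [cob]
    | cons b t =>
      rw [cob, ih]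
      simp only [List.length_cons, Nat.add_sub_cancel]
      rw [Finset.sum_range_succ', sub_eq_neg_add, ← Finset.sum_neg_distrib]
      simp only [yhc1_mg, pow_succ, pow_zero, one_smul, mul_neg, mul_one, neg_smul]

theorem yhc1_mg_eq {X : Type} [Union X] (k : ℕ) : ∀ l : List X, k + 1 < l.length →
    ∃ s a b t, s.length = k ∧ l = s ++ a :: b :: t ∧ yhc1_mg k l = s ++ (a ∪ b) :: t := by
  induction k with
  | zero =>
    intro l h
    match l, h with
    | a :: b :: t, _ => exact ⟨[], a, b, t, rfl, rfl, rfl⟩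
  | succ k ih =>
    intro l h
    match l, h with
    | c :: l, h =>
      obtain ⟨s, a, b, t, h1, h2, h3⟩ := ih l (by simpa using h)
      exact ⟨c :: s, a, b, t, by simp [h1], by simp [h2], by rw [yhc1_mg, h3]; rfl⟩

theorem Yhc1Rk.dn_mg {ρ : I → ℕ} (h : Yhc1Rk u ρ) {k : ℕ} (hk : k + 1 < u.length) :
    Dn (yhc1_mg k u) F ↔ Dn u F ∧ F ≠ yhc1_lo ρ (k + 1) := by
  obtain ⟨s, a, b, t, h1, h2, h3⟩ := yhc1_mg_eq k u hk
  have ha : ∀ x, x ∈ a ↔ ρ x = k := fun x => by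
    rw [← h.mem x k (by omega)]; subst h2; simp [← h1]
  have hb : ∀ x, x ∈ b ↔ ρ x = k + 1 := fun x => by
    rw [← h.mem x (k + 1) hk]; subst h2; simp [← h1]
  have ho : ∀ i j, Ord (yhc1_mg k u) i j ↔ Ord u i j ∨ (ρ i = k + 1 ∧ ρ j = k) := fun i j => by
    rw [h3, yhc1_ord_fc, ← h2, ha, hb]
  obtain ⟨x, hx⟩ := h.sur k (by omega)
  obtain ⟨y, hy⟩ := h.sur (k + 1) hk
  constructor
  · intro hF
    refine ⟨⟨hF.ne, hF.nu, fun i j e => hF.dn i j ((ho i j).2 (Or.inl e))⟩, ?_⟩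
    rintro rfl
    have := yhc1_mem_lo.1 (hF.dn y x ((ho _ _).2 (Or.inr ⟨hy, hx⟩)) (yhc1_mem_lo.2 (by omega)))
    omega
  · rintro ⟨hF, hne⟩
    refine ⟨hF.ne, hF.nu, fun i j e hj => ((ho i j).1 e).elim (fun e => hF.dn i j e hj) ?_⟩
    obtain ⟨m, -, -, rfl⟩ := h.dn.1 hF
    have : m ≠ k + 1 := fun c => hne (by rw [c])
    rw [yhc1_mem_lo] at hj ⊢
    omega

theorem part_iff : Part u ↔ OPs Finset.univ.val u := Iff.rfl

theorem Dn.chain (hu : Part u) (h : Dn u F) (h' : Dn u F') : F ⊆ F' ∨ F' ⊆ F := by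
  by_contra c
  rw [not_or, Finset.not_subset, Finset.not_subset] at c
  obtain ⟨⟨i, hi, hi'⟩, j, hj, hj'⟩ := c
  exact (ord_total (hu.mem i) (hu.mem j)).elim (fun e => hi' (h'.dn i j e hj))
    fun e => hj' (h.dn j i e hi)

theorem Dn.eq_of_card (hu : Part u) (h : Dn u F) (h' : Dn u F') (e : F.card = F'.card) :
    F = F' :=
  (h.chain hu h').elim (fun c => Finset.eq_of_subset_of_card_le c e.ge)
    fun c => (Finset.eq_of_subset_of_card_le c e.le).symm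

theorem Dn.sub_of_card (hu : Part u) (h : Dn u F) (h' : Dn u F') (e : F.card ≤ F'.card) :
    F ⊆ F' :=
  (h.chain hu h').elim id fun c => (Finset.eq_of_subset_of_card_le c e).ge

theorem Dn.anti (e : ∀ i j, Ord u i j → Ord v i j) (h : Dn v F) : Dn u F :=
  ⟨h.ne, h.nu, fun i j a => h.dn i j (e i j a)⟩

theorem Dn.sum (hu : Part u) (f : I → ℤ) (hb : ∀ b ∈ u, ∑ j ∈ b, f j = 0) (h : Dn u F) :
    ∑ j ∈ F, f j = 0 := by
  refine sum_union_zero f (u := u.filter (· ⊆ F)) (hu.pw.filter _)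
    (fun b e => hb b (List.mem_of_mem_filter e)) F fun j => ⟨fun hj => ?_, ?_⟩
  · obtain ⟨a, ha, hj'⟩ := hu.mem j
    exact ⟨a, List.mem_filter.2 ⟨ha, decide_eq_true fun i hi =>
      h.dn i j ⟨a, a, hi, hj', Or.inl ⟨rfl, ha⟩⟩ hj⟩, hj'⟩
  · rintro ⟨a, ha, hj⟩
    exact of_decide_eq_true (List.mem_filter.1 ha).2 hj

theorem Part.bal (hu : Part u) (f : I → ℤ) (h0 : ∑ j, f j = 0)
    (h : ∀ F, Dn u F → ∑ j ∈ F, f j = 0) : ∀ b ∈ u, ∑ j ∈ b, f j = 0 := by
  obtain ⟨ρ, hρ⟩ := yhc1_rk hu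
  have h1 : ∀ k, ∑ j ∈ yhc1_lo ρ k, f j = 0 := fun k => by
    rcases Nat.eq_zero_or_pos k with rfl | hk
    · simp [yhc1_lo]
    · by_cases c : k < u.length
      · exact h _ (hρ.dn.2 ⟨k, hk, c, rfl⟩)
      · rw [Finset.eq_univ_of_forall (s := yhc1_lo ρ k) fun i =>
          yhc1_mem_lo.2 ((hρ.lt i).trans_le (not_lt.1 c)), h0]
  intro b hb
  obtain ⟨k, hk, rfl⟩ := List.getElem_of_mem hb
  have h2 := Finset.sum_sdiff (f := f) (s₁ := yhc1_lo ρ k) (s₂ := yhc1_lo ρ (k + 1))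
    fun i hi => yhc1_mem_lo.2 ((yhc1_mem_lo.1 hi).trans k.lt_succ_self)
  rw [h1, h1, add_zero] at h2
  rw [← h2]
  refine Finset.sum_congr (Finset.ext fun i => ?_) fun _ _ => rfl
  rw [Finset.mem_sdiff, yhc1_mem_lo, yhc1_mem_lo, hρ.mem]
  omega

theorem ord_iff_dn (hu : Part u) : Ord u i j ↔ ∀ F, Dn u F → j ∈ F → i ∈ F := by
  refine ⟨fun e F h => h.dn i j e, fun h => ?_⟩
  obtain ⟨ρ, hρ⟩ := yhc1_rk hu
  rw [hρ.ord]
  by_contra c
  have := hρ.lt i
  have := yhc1_mem_lo.1 (h _ (hρ.dn.2 ⟨ρ i, by omega, this, rfl⟩) (yhc1_mem_lo.2 (not_le.1 c)))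
  omega

theorem Part.ext (hu : Part u) (hv : Part v) (h : ∀ i j, Ord u i j ↔ Ord v i j) : u = v := by
  obtain ⟨ρ, hρ⟩ := yhc1_rk hu
  obtain ⟨ρ', hρ'⟩ := yhc1_rk hv
  have e : ∀ i j, ρ i ≤ ρ j ↔ ρ' i ≤ ρ' j := fun i j => by rw [← hρ.ord, ← hρ'.ord, h]
  obtain rfl : ρ = ρ' := funext fun i => le_antisymm (hρ.le (fun i j => (e i j).2) _ i rfl)
    (hρ'.le (fun i j => (e i j).1) _ i rfl)
  exact hρ.ext hρ'

theorem Part.ext_dn (hu : Part u) (hv : Part v) (h : ∀ F, Dn u F ↔ Dn v F) : u = v :=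
  hu.ext hv fun i j => by simp only [ord_iff_dn hu, ord_iff_dn hv, h]

/-- every chain of proper nonempty sets comes from a word -/
theorem exists_word (C : Set (Finset I)) (h : ∀ F ∈ C, F ≠ ∅ ∧ F ≠ Finset.univ)
    (hc : ∀ F ∈ C, ∀ F' ∈ C, F ⊆ F' ∨ F' ⊆ F) : ∃ u, Part u ∧ ∀ F, Dn u F ↔ F ∈ C := by
  classical
  obtain ⟨S, hS⟩ : ∃ S : I → Finset (Finset I), ∀ i F, F ∈ S i ↔ F ∈ C ∧ i ∉ F :=
    ⟨fun i => Finset.univ.filter fun F => F ∈ C ∧ i ∉ F, by simp⟩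
  have h1 : ∀ i j, (S i).card ≤ (S j).card ↔ ∀ F ∈ C, j ∈ F → i ∈ F := fun i j => by
    refine ⟨fun e F hF hj => by_contra fun hi => ?_, fun e => Finset.card_le_card fun F hF =>
      (hS _ _).2 ⟨((hS _ _).1 hF).1, fun c => ((hS _ _).1 hF).2 (e F ((hS _ _).1 hF).1 c)⟩⟩
    refine e.not_gt (Finset.card_lt_card ⟨fun G hG => ?_, fun c =>
      ((hS _ _).1 (c ((hS i F).2 ⟨hF, hi⟩))).2 hj⟩)
    obtain ⟨hG, hG'⟩ := (hS _ _).1 hG
    exact (hS _ _).2 ⟨hG, fun c => (hc F hF G hG).elim (fun d => hG' (d hj)) fun d => hi (d c)⟩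
  obtain ⟨u, hu, ho⟩ := yhc1_word fun i => (S i).card
  refine ⟨u, hu, fun F => ⟨fun hF => ?_, fun hF => ⟨(h F hF).1, (h F hF).2, fun i j e =>
    (h1 i j).1 ((ho i j).1 e) F hF⟩⟩⟩
  obtain ⟨i, hi, hm⟩ := Finset.exists_max_image F (fun i => (S i).card)
    (Finset.nonempty_iff_ne_empty.2 hF.ne)
  obtain ⟨j, hj, hm'⟩ := Finset.exists_min_image Fᶜ (fun i => (S i).card) (by
    rw [Finset.nonempty_iff_ne_empty, Ne, Finset.compl_eq_empty_iff]; exact hF.nu)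
  have h2 : ¬ ∀ G ∈ C, i ∈ G → j ∈ G := fun c =>
    Finset.mem_compl.1 hj (hF.dn j i ((ho j i).2 ((h1 j i).2 c)) hi)
  push Not at h2
  obtain ⟨G, hG, hi', hj'⟩ := h2
  have : F = G := Finset.ext fun x => ⟨fun hx => (h1 x i).1 (hm x hx) G hG hi', fun hx =>
    by_contra fun c => hj' ((h1 j x).1 (hm' x (Finset.mem_compl.2 c)) G hG hx)⟩
  exact this ▸ hG

theorem Fc.part (hu : Part u) (h : Fc u v) :
    Part v ∧ v.length + 1 = u.length ∧ ∀ i j, Ord u i j → Ord v i j := by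
  obtain ⟨s, a, b, t, rfl, rfl⟩ := h
  refine ⟨⟨fun c hc => ?_, ?_⟩, by simp [add_assoc], fun i j e => (yhc1_ord_fc s t a b).2 (Or.inl e)⟩
  · simp only [List.mem_append, List.mem_cons] at hc
    rcases hc with hc | rfl | hc
    · exact hu.1 c (by simp [hc])
    · exact (hu.1 a (by simp)).mono Finset.subset_union_left
    · exact hu.1 c (by simp [hc])
  · rw [← hu.2, ← Finset.disjUnion_eq_union a b (yhc1_disj hu)]
    simp only [List.map_append, List.map_cons, List.sum_append, List.sum_cons,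
      Finset.disjUnion_val, add_assoc]

theorem Fc.bal (hu : Part u) (h : Fc u v) (f : I → ℤ) (hb : ∀ b ∈ u, ∑ j ∈ b, f j = 0) :
    ∀ b ∈ v, ∑ j ∈ b, f j = 0 := by
  obtain ⟨s, a, b, t, rfl, rfl⟩ := h
  intro c hc
  simp only [List.mem_append, List.mem_cons] at hc
  rcases hc with hc | rfl | hc
  · exact hb c (by simp [hc])
  · rw [Finset.sum_union (yhc1_disj hu), hb a (by simp), hb b (by simp), add_zero]
  · exact hb c (by simp [hc])

open Classical in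
/-- the sizes of the initial sets -/
def rks (u : List (Finset I)) : Finset (Fin (Fintype.card I)) :=
  Finset.univ.filter fun r => ∃ F, Dn u F ∧ F.card = r

theorem mem_rks {r : Fin (Fintype.card I)} : r ∈ rks u ↔ ∃ F, Dn u F ∧ F.card = r := by
  simp [rks]

theorem Dn.mem_rks (h : Dn u F) : ∃ r ∈ rks u, F.card = r :=
  ⟨⟨F.card, Finset.card_lt_iff_ne_univ F |>.2 h.nu⟩, CS.mem_rks.2 ⟨F, h, rfl⟩, rfl⟩

/-- the initial set of size `r` -/
def pf (u : List (Finset I)) (r : rks u) : Finset I := (mem_rks.1 r.2).choose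

theorem pf_dn (r : rks u) : Dn u (pf u r) := (mem_rks.1 r.2).choose_spec.1

theorem pf_card (r : rks u) : (pf u r).card = r.1 := (mem_rks.1 r.2).choose_spec.2

theorem pf_eq (hu : Part u) (r : rks u) (h : Dn u F) (e : F.card = r.1) : pf u r = F :=
  (pf_dn r).eq_of_card hu h ((pf_card r).trans e.symm)

theorem rks_anti (e : ∀ i j, Ord u i j → Ord v i j) : rks v ⊆ rks u := fun _ h =>
  mem_rks.2 ((mem_rks.1 h).imp fun _ a => ⟨a.1.anti e, a.2⟩)

theorem Yhc1Rk.rks_eq {ρ : I → ℕ} (h : Yhc1Rk u ρ) :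
    ∃ e : Fin (u.length - 1) ↪o Fin (Fintype.card I),
      (∀ k, (e k : ℕ) = (yhc1_lo ρ (k + 1)).card) ∧ rks u = Finset.univ.map e.toEmbedding := by
  have h1 : ∀ k : Fin (u.length - 1), Dn u (yhc1_lo ρ (k + 1)) := fun k =>
    h.dn.2 ⟨k + 1, k.1.succ_pos, by have := k.2; omega, rfl⟩
  refine ⟨OrderEmbedding.ofStrictMono (fun k => ⟨(yhc1_lo ρ (k + 1)).card,
    (Finset.card_lt_iff_ne_univ _).2 (h1 k).nu⟩) fun k m e =>
      h.card_lt (Nat.succ_lt_succ e) (by have := k.2; omega), fun _ => rfl, ?_⟩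
  ext r
  rw [mem_rks, Finset.mem_map]
  constructor
  · rintro ⟨F, hF, e⟩
    obtain ⟨k, h0, hk, rfl⟩ := h.dn.1 hF
    obtain ⟨k, rfl⟩ : ∃ m, k = m + 1 := ⟨k - 1, by omega⟩
    exact ⟨⟨k, by omega⟩, Finset.mem_univ _, Fin.ext e⟩
  · rintro ⟨k, -, rfl⟩
    exact ⟨_, h1 k, rfl⟩

theorem rks_card (hu : Part u) : (rks u).card = u.length - 1 := by
  obtain ⟨ρ, hρ⟩ := yhc1_rk hu
  obtain ⟨e, -, he⟩ := hρ.rks_eq
  rw [he, Finset.card_map, Finset.card_univ, Fintype.card_fin]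

/-- merging two letters forgets one rank -/
theorem cob_rks (hu : Part u) (ψ : Finset (Fin (Fintype.card I)) → M) :
    cob u (fun w => ψ (rks w)) = ∑ R, sgn (rks u) R • ψ R := by
  obtain ⟨ρ, hρ⟩ := yhc1_rk hu
  obtain ⟨e, h1, he⟩ := hρ.rks_eq
  rw [sum_sgn, yhc1_cob, Finset.sum_range, Finset.sum_congr he fun _ _ => rfl, Finset.sum_map]
  refine Finset.sum_congr rfl fun k _ => ?_
  have hk : k.1 + 1 < u.length := by have := k.2; omega
  have h2 : ((rks u).filter (· < e.toEmbedding k)).card = k := by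
    rw [he, Finset.filter_map, Finset.card_map, ← Fin.card_Iio k]
    exact congrArg Finset.card (Finset.ext fun m => by simp)
  have h3 : rks (yhc1_mg k u) = (rks u).erase (e.toEmbedding k) := by
    ext r
    simp only [Finset.mem_erase, mem_rks, hρ.dn_mg hk]
    constructor
    · rintro ⟨F, ⟨hF, hne⟩, c⟩
      refine ⟨?_, F, hF, c⟩
      rintro rfl
      exact hne (hF.eq_of_card hu (hρ.dn.2 ⟨_, k.1.succ_pos, hk, rfl⟩) (c.trans (h1 k)))
    · rintro ⟨hne, F, hF, c⟩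
      refine ⟨F, ⟨hF, ?_⟩, c⟩
      rintro rfl
      exact hne (Fin.ext (c.symm.trans (h1 k).symm))
  rw [h2, h3]

/-- the preimage of a finite set -/
def pre (s : I → K) (b : Finset K) : Finset I := Finset.univ.filter fun i => s i ∈ b

@[simp] theorem mem_pre {s : I → K} {b : Finset K} : i ∈ pre s b ↔ s i ∈ b := by simp [pre]

theorem pre_union (s : I → K) (a b : Finset K) : pre s (a ∪ b) = pre s a ∪ pre s b := by
  ext i; simp

theorem image_eq_pre (w : Equiv.Perm I) (b : Finset I) : b.image w = pre (⇑w⁻¹) b := by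
  ext i
  rw [mem_pre, Finset.mem_image]
  exact ⟨by rintro ⟨a, ha, rfl⟩; simpa using ha, fun h => ⟨_, h, by simp⟩⟩

variable {s : I → K} {π : List (Finset K)}

theorem ord_pre : Ord (π.map (pre s)) i j ↔ Ord π (s i) (s j) := by
  induction π with
  | nil => simp [Ord]
  | cons c l ih => simp [ord_cons, ih]

theorem Yhc1Rk.pre {ρ : K → ℕ} (hs : Function.Surjective s) (h : Yhc1Rk π ρ) :
    Yhc1Rk (π.map (CS.pre s)) fun i => ρ (s i) := by
  refine ⟨fun i => by simpa using h.lt (s i), fun i k hk => ?_, fun k hk => ?_⟩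
  · rw [List.getElem_map, mem_pre, h.mem]
  · obtain ⟨x, hx⟩ := h.sur k (by simpa using hk)
    obtain ⟨i, rfl⟩ := hs x
    exact ⟨i, hx⟩

theorem yhc1_card_pre (w : Equiv.Perm I) (b : Finset I) : (pre w b).card = b.card := by
  have := image_eq_pre w⁻¹ b
  rw [inv_inv] at this
  rw [← this, Finset.card_image_of_injective _ (Equiv.injective _)]

theorem Part.pre (hs : Function.Surjective s) (h : Part π) : Part (π.map (pre s)) :=
  ((yhc1_rk h).choose_spec.pre hs).part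

theorem dn_pre (hs : Function.Surjective s) (h : Part π) :
    Dn (π.map (pre s)) F ↔ ∃ b, Dn π b ∧ F = pre s b := by
  obtain ⟨ρ, hρ⟩ := yhc1_rk h
  have e : ∀ k, yhc1_lo (fun i => ρ (s i)) k = pre s (yhc1_lo ρ k) := fun k => by
    ext i; simp [yhc1_mem_lo]
  simp only [(hρ.pre hs).dn, hρ.dn, List.length_map, e]
  exact ⟨fun ⟨k, h0, h1, h2⟩ => ⟨_, ⟨k, h0, h1, rfl⟩, h2⟩,
    by rintro ⟨_, ⟨k, h0, h1, rfl⟩, h2⟩; exact ⟨k, h0, h1, h2⟩⟩

theorem rks_perm (w : Equiv.Perm I) (hu : Part u) : rks (u.map (pre w)) = rks u := by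
  ext r
  simp only [mem_rks, dn_pre w.surjective hu]
  constructor
  · rintro ⟨_, ⟨b, hb, rfl⟩, e⟩
    exact ⟨b, hb, (yhc1_card_pre w b).symm.trans e⟩
  · rintro ⟨b, hb, e⟩
    exact ⟨_, ⟨b, hb, rfl⟩, (yhc1_card_pre w b).trans e⟩

/-- two words whose initial sets correspond under a permutation -/
theorem Part.eq_pre (hu : Part u) (hv : Part v) (w : Equiv.Perm I) (e : rks u = rks v)
    (h : ∀ F F', Dn u F → Dn v F' → F.card = F'.card → ∀ i ∈ F, w i ∈ F') :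
    u = v.map (CS.pre w) := by
  have h1 : ∀ F F', Dn u F → Dn v F' → F.card = F'.card → F = CS.pre w F' := fun F F' a b c =>
    Finset.eq_of_subset_of_card_le (fun i hi => mem_pre.2 (h F F' a b c i hi))
      ((yhc1_card_pre w F').trans c.symm).le
  refine hu.ext_dn (hv.pre w.surjective) fun F => ?_
  rw [dn_pre w.surjective hv]
  constructor
  · intro hF
    obtain ⟨r, hr, c⟩ := hF.mem_rks
    obtain ⟨b, hb, c'⟩ := mem_rks.1 (e ▸ hr)
    exact ⟨b, hb, h1 F b hF hb (c.trans c'.symm)⟩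
  · rintro ⟨b, hb, rfl⟩
    obtain ⟨r, hr, c⟩ := hb.mem_rks
    obtain ⟨F, hF, c'⟩ := mem_rks.1 (e ▸ hr : r ∈ rks u)
    exact h1 F b hF hb (c'.trans c.symm) ▸ hF

theorem ord_ofFn {k : ℕ} {L : Fin k → Finset I} :
    Ord (List.ofFn L) i j ↔ ∃ a b, a ≤ b ∧ i ∈ L a ∧ j ∈ L b := yhc1_ord_ofFn

theorem part_ofFn {k : ℕ} {L : Fin k → Finset I} :
    Part (List.ofFn L) ↔ (∀ a, (L a).Nonempty) ∧ ∀ i, ∃! a, i ∈ L a := yhc1_part_ofFn

end Pool.Agent.CS
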