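import Pool.Agent.K.MP_d34769_ag.C59
import Pool.Agent.K.MP_d34769_ag.C58

-- part Pool.Agent.P.MP_d34769_ag.YE5b
section

/-! The strata `N k`. -/

open Matrix Classical

noncomputable section
namespace Pool.Agent.CS

variable {I : Type} [Fintype I] [DecidableEq I]

namespace Dat
variable {D : Dat I} {ρ σ : Rp I} {k : ℕ}

lemma e5b_A {s : I → Fin k} (h : D.Slot s) (hρ : Tri (le s) ρ) (j : ℕ) :
    D.A ρ (sp {i | (s i : ℕ) < j}) :=
  ⟨sub_sp.2 fun a i l hi hl => hρ a i l fun e => hi (lt_of_le_of_lt (Fin.le_def.1 e) hl),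
    h.wt_pre {a | (a : ℕ) < j}⟩

omit [Fintype I] in
lemma e5b_lt {s : I → Fin k} (h : Function.Surjective s) {j : ℕ} (hj : j < k) :
    sp {i | (s i : ℕ) < j} < sp {i | (s i : ℕ) < j + 1} := by
  refine lt_of_le_not_ge (sp_le_sp.2 fun i (hi : (s i : ℕ) < j) => Nat.lt_succ_of_lt hi) fun e => ?_
  obtain ⟨i, hi⟩ := h ⟨j, hj⟩
  have : (s i : ℕ) < j := sp_le_sp.1 e (show (s i : ℕ) < j + 1 by simp [hi])
  simp [hi] at this

omit [Fintype I] [DecidableEq I] in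
lemma e5b_zero (s : I → Fin k) : sp {i | (s i : ℕ) < 0} = ⊥ := by simp

omit [Fintype I] [DecidableEq I] in
lemma e5b_top (s : I → Fin k) : sp {i | (s i : ℕ) < k} = ⊤ := by simp

omit [Fintype I] [DecidableEq I] in
lemma e5b_succ (s : I → Fin k) (a : Fin k) :
    sp {i | (s i : ℕ) < a + 1} = sp {i | (s i : ℕ) < a} ⊔ sp {i | s i = a} := by
  rw [← sp_union]
  congr 1
  ext i
  simp only [Set.mem_union, Set.mem_ofPred_eq, Fin.ext_iff]
  omega

omit [Fintype I] [DecidableEq I] in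
lemma e5b_disj (s : I → Fin k) (a : Fin k) :
    sp {i | (s i : ℕ) < a} ⊓ sp {i | s i = a} = ⊥ := by
  rw [← sp_inter, ← sp_empty]
  congr 1
  ext i
  simp only [Set.mem_inter_iff, Set.mem_ofPred_eq, Fin.ext_iff, Set.mem_empty_iff_false,
    iff_false]
  omega

lemma e5b_chain (h : D.N k ρ) : ∃ U : ℕ → Submodule ℂ (I → ℂ), U 0 = ⊥ ∧ U k = ⊤ ∧
    (∀ j < k, U j < U (j + 1)) ∧ ∀ j ≤ k, D.A ρ (U j) := by
  obtain ⟨s, hs, g, hg, ht⟩ := h
  have hg' := inv_mem_P hg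
  have hi : Function.Injective g⁻¹.mulVecLin :=
    Matrix.mulVec_injective_iff_isUnit.2 ((isUnit_iff_isUnit_det _).2 hg'.2)
  refine ⟨fun j => (sp {i | (s i : ℕ) < j}).map g⁻¹.mulVecLin, ?_, ?_, fun j hj => ?_,
    fun j _ => ?_⟩
  · simp
  · simp only [e5b_top]
    exact maptop_YE1 hg'.2
  · exact Submodule.map_strictMono_of_injective hi (e5b_lt hs.surj hj)
  · have := (a_act hg').2 (e5b_A hs ht j)
    rwa [actR_inv hg.2] at this

lemma e5b_K {U : ℕ → Submodule ℂ (I → ℂ)} (h0 : U 0 = ⊥) (hk : U k = ⊤)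
    (hl : ∀ j < k, U j < U (j + 1)) (hA : ∀ j ≤ k, D.A ρ (U j)) :
    ∃ s : I → Fin k, D.Slot s ∧ ∃ u ∈ D.K, Tri (le s) (actR u ρ) := by
  have hm : Monotone fun a => U (min a k) := monotone_nat_of_le_succ fun a => by
    by_cases c : a < k
    · rw [min_eq_left c.le, min_eq_left c]
      exact (hl a c).le
    · rw [min_eq_right (by omega), min_eq_right (by omega)]
  obtain ⟨u, hu, hb, r, hr, hU⟩ := e4_rank D.cc_eq (fun a => U (min a k)) hm (by simpa using h0)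
    (N := k) (by simpa using hk) fun a => (hA _ (min_le_right _ _)).1.gr
  have hP : u ∈ D.base.P := D.e4_memG.2 ⟨hb, e4_unit_det hu⟩
  have hU' : ∀ a ≤ k, U a = (sp {j | r j < a}).map u.mulVecLin := fun a ha => by
    rw [← hU a, min_eq_left ha]
  have hB : ∀ a ≤ k, D.A (actR u⁻¹ ρ) (sp {j | r j < a}) := fun a ha => by
    rw [← a_act hP, actR_inv' hP.2, ← hU' a ha]
    exact hA a ha
  have hw : ∀ a ≤ k, ∑ j with r j < a, D.th (D.col j) = 0 := fun a ha => by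
    rw [← wt_sp, ← (hB a ha).2]
    congr 2
    ext j
    simp
  refine ⟨fun j => ⟨r j, hr j⟩, ⟨fun a => by_contra fun c => (hl a a.2).ne ?_, fun a => ?_⟩, u⁻¹, ?_,
    fun a i j c => ?_⟩
  · rw [hU' a a.2.le, hU' _ a.2]
    congr 2
    ext j
    have : r j ≠ a := fun e => c ⟨j, Fin.ext e⟩
    simp only [Set.mem_ofPred_eq]
    omega
  · have h1 := hw (a + 1) a.2
    rw [← Finset.sum_filter_add_sum_filter_not _ fun j => r j < a, Finset.filter_filter,
      Finset.filter_filter, Finset.filter_congr (q := fun j => r j < a) fun j _ => by omega,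
      hw a a.2.le, zero_add] at h1
    rw [← h1]
    refine Finset.sum_congr (Finset.filter_congr fun j _ => ?_) fun _ _ => rfl
    rw [Fin.ext_iff]
    show r j = a ↔ _
    omega
  · rw [inv_eq_right_inv (show u * uᴴ = 1 from mem_unitaryGroup_iff.1 hu)]
    exact star_mem_K ⟨hP.1, hu⟩
  · have c' : ¬ r i ≤ r j := c
    exact sub_sp.1 (hB (r j + 1) (hr j)).1 a i j (show ¬ r i < r j + 1 by omega)
      (show r j < r j + 1 by omega)

theorem n_iff_K : D.N k ρ ↔ ∃ s : I → Fin k, D.Slot s ∧ ∃ u ∈ D.K, Tri (le s) (actR u ρ) :=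
  ⟨fun h => let ⟨_, a, b, c, d⟩ := e5b_chain h; e5b_K a b c d,
    fun ⟨s, hs, u, hu, h⟩ => ⟨s, hs, u, D.K_le hu, h⟩⟩

theorem n_iff_list : D.N k ρ ↔
    ∃ l, D.Cm l ∧ l.length = k ∧ ∃ g ∈ D.base.P, Tri (Ord l) (actR g ρ) := by
  constructor
  · rintro ⟨s, hs, g, hg, h⟩
    exact ⟨fib s, hs.cm, List.length_ofFn, g, hg, fun a i j c =>
      h a i j fun e => c ((ord_fib s i j).2 e)⟩
  · rintro ⟨l, hl, rfl, g, hg, h⟩
    obtain ⟨s, hs, e, -⟩ := hl.exists_slot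
    refine ⟨s, hs, g, hg, fun a i j c => h a i j fun o => c ((ord_fib s i j).1 ?_)⟩
    rwa [e]

theorem n_iff_chain : D.N k ρ ↔ ∃ U : ℕ → Submodule ℂ (I → ℂ), U 0 = ⊥ ∧ U k = ⊤ ∧
    (∀ j < k, U j < U (j + 1)) ∧ ∀ j ≤ k, D.A ρ (U j) :=
  ⟨e5b_chain, fun ⟨_, a, b, c, d⟩ => n_iff_K.2 (e5b_K a b c d)⟩

theorem N.anti {k' : ℕ} (h : D.N k' ρ) (h1 : 1 ≤ k) (h2 : k ≤ k') : D.N k ρ := by
  obtain ⟨U, a, -, c, d⟩ := e5b_chain h
  refine n_iff_chain.2 ⟨fun j => if j < k then U j else ⊤, ?_, by simp, fun j hj => ?_,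
    fun j hj => ?_⟩
  · exact (if_pos h1).trans a
  · beta_reduce
    rw [if_pos hj]
    split_ifs
    · exact c j (by omega)
    · exact (c j (by omega)).trans_le le_top
  · show D.A ρ (if _ then _ else _)
    split_ifs
    · exact d j (by omega)
    · exact A.top ρ

theorem n_one [Nonempty I] (ρ : Rp I) : D.N 1 ρ := by
  refine n_iff_chain.2 ⟨fun j => if j = 0 then ⊥ else ⊤, rfl, rfl, fun j hj => ?_, fun j _ => ?_⟩
  · obtain rfl : j = 0 := by omega
    exact bot_lt_top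
  · show D.A ρ (if _ then _ else _)
    split_ifs
    · exact A.bot ρ
    · exact A.top ρ

theorem N.le_card (h : D.N k ρ) : k ≤ Fintype.card I := by
  obtain ⟨s, hs, -⟩ := h
  simpa using Fintype.card_le_of_surjective s hs.surj

theorem isClosed_n (k : ℕ) : IsClosed {ρ | D.N k ρ} := by
  have := isCompact_iff_compactSpace.1 D.isCompact_K
  have e : {ρ | D.N k ρ} = ⋃ s : I → Fin k, ⋃ _ : D.Slot s, Prod.snd ''
      ((fun p : D.K × Rp I => fun a => p.1.1 * p.2 a * p.1.1ᴴ) ⁻¹' {σ | Tri (le s) σ}) := by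
    ext ρ
    simp only [Set.mem_ofPred_eq, n_iff_K, Set.mem_iUnion, Set.mem_image, Set.mem_preimage]
    refine exists_congr fun s => ⟨fun ⟨hs, u, hu, h⟩ => ⟨hs, (⟨u, hu⟩, ρ), ?_, rfl⟩,
      fun ⟨hs, p, h, e⟩ => ⟨hs, p.1.1, p.1.2, ?_⟩⟩
    · rwa [actR_unitary hu.2] at h
    · rwa [actR_unitary p.1.2.2, ← e]
  rw [e]
  refine isClosed_iUnion_of_finite fun s => isClosed_iUnion_of_finite fun _ =>
    isClosedMap_snd_of_compactSpace _ ((isClosed_tri _).preimage (continuous_pi fun a => ?_))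
  have c : Continuous fun p : D.K × Rp I => p.1.1 := continuous_subtype_val.comp continuous_fst
  exact (c.matrix_mul ((continuous_apply a).comp continuous_snd)).matrix_mul
    c.matrix_conjTranspose

theorem exists_n (ρ : Rp I) : ∃ k, D.N k ρ ∧ ¬ D.N (k + 1) ρ := by
  have h0 : ∃ k, D.N k ρ := by
    rcases isEmpty_or_nonempty I with c | c
    · exact ⟨0, n_iff_chain.2 ⟨fun _ => ⊥, rfl, Subsingleton.elim _ _, fun j hj => by omega,
        fun _ _ => A.bot ρ⟩⟩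
    · exact ⟨1, n_one ρ⟩
  obtain ⟨k, hk⟩ := h0
  by_contra! c
  have : ∀ n, D.N (k + n) ρ := fun n => by
    induction n with
    | zero => exact hk
    | succ n ih => exact c _ ih
  have := (this (Fintype.card I + 1)).le_card
  omega

/-- insertion of a member in a chain -/
lemma e5b_ins {U : ℕ → Submodule ℂ (I → ℂ)} (h0 : U 0 = ⊥) (hk : U k = ⊤)
    (hl : ∀ j < k, U j < U (j + 1)) (hA : ∀ j ≤ k, D.A ρ (U j)) {a : ℕ} (ha : a < k)
    {W : Submodule ℂ (I → ℂ)} (hW : D.A ρ W) (h1 : U a < W) (h2 : W < U (a + 1)) :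
    D.N (k + 1) ρ := by
  refine n_iff_chain.2 ⟨fun j => if j ≤ a then U j else if j = a + 1 then W else U (j - 1),
    by simpa using h0, ?_, fun j hj => ?_, fun j hj => ?_⟩
  · beta_reduce
    rw [if_neg (by omega), if_neg (by omega)]
    exact hk
  · show (if _ then _ else _) < (if _ then _ else _)
    rcases lt_trichotomy j a with c | rfl | c
    · rw [if_pos c.le, if_pos (show j + 1 ≤ a from c)]
      exact hl j (by omega)
    · rwa [if_pos le_rfl, if_neg (by omega), if_pos rfl]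
    · rw [if_neg (by omega), if_neg (show ¬ j + 1 ≤ a by omega),
        if_neg (show ¬ j + 1 = a + 1 by omega)]
      split_ifs with c'
      · rwa [c']
      · have := hl (j - 1) (by omega)
        rwa [show j - 1 + 1 = j + 1 - 1 by omega] at this
  · show D.A ρ (if _ then _ else _)
    split_ifs
    · exact hA j (by omega)
    · exact hW
    · exact hA _ (by omega)

theorem stb_iff [Nonempty I] : D.Stb ρ ↔ D.SS D.th ρ ∧ ¬ D.N 2 ρ := by
  refine ⟨fun h => ⟨h.ss, fun c => ?_⟩, fun h => ⟨inferInstance, fun U hU h0 h1 =>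
    lt_of_le_of_ne (h.1 U hU) fun e => h.2 ?_⟩⟩
  · obtain ⟨U, a, b, c, d⟩ := e5b_chain c
    exact (h.2 _ (d 1 (by omega)).1 (a ▸ c 0 (by omega)).ne' (b ▸ c 1 (by omega)).ne).ne
      (d 1 (by omega)).2
  · refine e5b_ins (U := fun j => if j = 0 then ⊥ else ⊤) (k := 1) rfl rfl (fun j hj => ?_)
      (fun j _ => ?_) (a := 0) (by omega) ⟨hU, e⟩ (bot_lt_iff_ne_bot.2 h0) (lt_top_iff_ne_top.2 h1)
    · obtain rfl : j = 0 := by omega
      exact bot_lt_top
    · show D.A ρ (if _ then _ else _)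
      split_ifs
      · exact A.bot ρ
      · exact A.top ρ

/-- a block that is not stable gives a longer filtration of the graded triple and of `ρ` -/
theorem n_succ_of_not_stb {s : I → Fin k} (h : D.Slot s) (hs : D.SS D.th ρ) (hρ : Tri (le s) ρ)
    {a : Fin k} (ha : ¬ D.StbOn (gr (le s) ρ) {i | s i = a}) : D.N (k + 1) ρ := by
  have hn : ({i | s i = a} : Set I).Nonempty := h.surj a
  simp only [StbOn, hn, true_and, not_forall] at ha
  obtain ⟨U, hU, hF, h0, h1, hw⟩ := ha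
  have hw' : D.wt D.th U = 0 := le_antisymm (hs.gr h.toBal hρ U hU) (not_lt.1 hw)
  have hL := e5b_A h hρ a
  have hi : U ⊓ sp {i | (s i : ℕ) < a} = ⊥ :=
    le_bot_iff.1 ((inf_le_inf_right _ hF).trans (by rw [inf_comm, e5b_disj]))
  have hg : Tri (le s) (CS.gr (le s) ρ) := fun b i j c => if_neg fun e => c e.1
  refine e5b_ins (U := fun j => sp {i | (s i : ℕ) < j}) (e5b_zero s) (e5b_top s)
    (fun j hj => e5b_lt h.surj hj) (fun j _ => e5b_A h hρ j) a.2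
    (W := U ⊔ sp {i | (s i : ℕ) < a}) ⟨⟨(hU.sup (e5b_A h hg a).1).gr, fun b v hv => ?_⟩, ?_⟩
    (lt_of_le_not_ge le_sup_right fun c => h0 ?_) (lt_of_le_of_ne ?_ fun c => h1 ?_)
  · obtain ⟨x, hx, y, hy, rfl⟩ := Submodule.mem_sup.1 hv
    rw [mulVec_add]
    refine add_mem ?_ (Submodule.mem_sup_right (hL.1.st b y hy))
    refine Submodule.mem_sup.2 ⟨_, hU.st b x hx, (ρ b - CS.gr (le s) ρ b) *ᵥ x,
      mem_sp.2 fun i hi => Finset.sum_eq_zero fun j _ => ?_, by rw [sub_mulVec]; abel⟩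
    by_cases c : s j = a
    · have hi' : ¬ (s i : ℕ) < a := hi
      show (ρ b i j - CS.gr (le s) ρ b i j) * x j = 0
      rw [gr_le]
      split_ifs with e
      · simp
      · rw [hρ b i j fun o => e (le_antisymm o (c ▸ not_lt.1 hi'))]
        simp
    · rw [mem_sp.1 (hF hx) j c, mul_zero]
  · have := wt_sup_inf (t := D.th) hU.cg hL.1.cg
    rw [hi, wt_bot, hw', hL.2] at this
    simpa using this
  · rw [← hi, inf_eq_left.2 (le_sup_left.trans c)]
  · rw [e5b_succ, sup_comm]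
    exact sup_le_sup_left hF _
  · have := sup_inf_assoc_of_le (sp {i | (s i : ℕ) < a}) hF
    rw [c, e5b_disj, sup_bot_eq, e5b_succ, inf_eq_right.2 le_sup_right] at this
    exact this.symm

theorem n_of_blocks {s : I → Fin k} (h : D.Slot s) (hb : ∀ a i j, s i ≠ s j → ρ a i j = 0) :
    D.N k ρ :=
  ⟨s, h, 1, D.base.one_mem_P, by
    rw [actR_one]
    exact fun a i j c => hb a i j fun e => c e.le⟩

/-- Jordan-Hoelder: a direct sum of `k` stable blocks has length `k` -/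
theorem not_n_succ {s : I → Fin k} (h : D.Slot s) (hb : ∀ a i j, s i ≠ s j → ρ a i j = 0)
    (hs : ∀ a, D.StbOn ρ {i | s i = a}) : ¬ D.N (k + 1) ρ := by
  intro c
  obtain ⟨U, -, -, hl, hA⟩ := e5b_chain c
  have hF : ∀ a, D.A ρ (sp {i | s i = a}) := fun a =>
    ⟨sub_sp.2 fun b i j hi hj => hb b i j fun e => hi (e.trans hj), h.wt_pre {a}⟩
  have hS : D.SS D.th ρ := ss_of_blocks s hb fun a => (hs a).ssOn (hF a).2
  let V : ℕ → Submodule ℂ (I → ℂ) := fun j => sp {i | (s i : ℕ) < j}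
  have hV : ∀ j, D.A ρ (V j) := e5b_A h fun a i j c => hb a i j fun e => c e.le
  have hm : ∀ j, V j ≤ V (j + 1) := fun j =>
    sp_le_sp.2 fun i (hi : (s i : ℕ) < j) => Nat.lt_succ_of_lt hi
  have gap : ∀ (a : Fin k) W, D.A ρ W → V a ≤ W → W ≤ V (a + 1) → ¬ V (a + 1) ≤ W → W = V a := by
    intro a W hW h1 h2 h3
    have e : W = V a ⊔ sp {i | s i = a} ⊓ W := by
      rw [← sup_inf_assoc_of_le _ h1, ← e5b_succ, inf_eq_right.2 h2]
    have hX := A.inf hS (hF a) hW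
    by_cases c0 : sp {i | s i = a} ⊓ W = ⊥
    · rwa [c0, sup_bot_eq] at e
    refine absurd hX.2 ((hs a).2 _ hX.1 inf_le_left c0 fun c1 => h3 ?_).ne
    rw [e, c1]
    exact (e5b_succ s a).le
  let T : Submodule ℂ (I → ℂ) → Finset (Fin k) := fun W =>
    Finset.univ.filter fun a => V (a + 1) ≤ W ⊓ V (a + 1) ⊔ V a
  have hT : ∀ W W', D.A ρ W → D.A ρ W' → W < W' → (T W).card < (T W').card := by
    intro W W' hW hW' hlt
    have mono : ∀ j, W ⊓ V (j + 1) ⊔ V j ≤ W' ⊓ V (j + 1) ⊔ V j := fun j =>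
      sup_le_sup_right (inf_le_inf_right _ hlt.le) _
    refine Finset.card_lt_card ⟨fun a ha => Finset.mem_filter.2 ⟨Finset.mem_univ _,
      (Finset.mem_filter.1 ha).2.trans (mono a)⟩, fun hc => hlt.ne ?_⟩
    have : ∀ j ≤ k, W ⊓ V j = W' ⊓ V j := fun j => by
      induction j with
      | zero => intro _; simp [V]
      | succ j ih =>
        intro hj
        refine eq_of_le_of_inf_le_of_le_sup (z := V j) (inf_le_inf_right _ hlt.le) ?_ ?_
        · rw [inf_assoc, inf_eq_right.2 (hm j), ← ih (by omega)]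
          exact inf_le_inf_left _ (hm j)
        · by_cases c : V (j + 1) ≤ W' ⊓ V (j + 1) ⊔ V j
          · exact inf_le_right.trans (Finset.mem_filter.1
              (hc (Finset.mem_filter.2 ⟨Finset.mem_univ (⟨j, hj⟩ : Fin k), c⟩))).2
          · exact le_sup_left.trans ((gap ⟨j, hj⟩ _ (A.sup hS (A.inf hS hW' (hV _)) (hV _))
              le_sup_right (sup_le inf_le_right (hm j)) c).le.trans le_sup_right)
    simpa [V] using this k le_rfl
  have : ∀ j ≤ k + 1, j ≤ (T (U j)).card := fun j => by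
    induction j with
    | zero => simp
    | succ j ih =>
      exact fun hj => (ih (by omega)).trans_lt (hT _ _ (hA j (by omega)) (hA _ hj) (hl j hj))
  have h2 := (this _ le_rfl).trans (Finset.card_le_univ _)
  simp at h2

theorem n_succ_iff {s : I → Fin k} (h : D.Slot s) (hs : D.SS D.th ρ)
    (hb : ∀ a i j, s i ≠ s j → ρ a i j = 0) :
    D.N (k + 1) ρ ↔ ∃ a, ¬ D.StbOn ρ {i | s i = a} := by
  refine ⟨fun c => by_contra fun e => not_n_succ h hb (fun a => by_contra fun o => e ⟨a, o⟩) c,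
    fun ⟨a, ha⟩ => n_succ_of_not_stb h hs (fun a i j c => hb a i j fun e => c e.le) (a := a) ?_⟩
  rwa [show gr (le s) ρ = ρ from funext fun b => Matrix.ext fun i j => by
    rw [gr_le]
    split_ifs with e
    · rfl
    · exact (hb b i j e).symm]

/-- E5 (a) -/
theorem exists_jh (hs : D.SS D.th ρ) (h1 : D.N k ρ) (h2 : ¬ D.N (k + 1) ρ) :
    ∃ s : I → Fin k, D.Slot s ∧ ∃ u ∈ D.K, Tri (le s) (actR u ρ) ∧
      ∀ a, D.StbOn (gr (le s) (actR u ρ)) {i | s i = a} := by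
  obtain ⟨s, h, u, hu, ht⟩ := n_iff_K.1 h1
  exact ⟨s, h, u, hu, ht, fun a => by_contra fun c => h2 (Iso.n (Iso.symm ⟨u, D.K_le hu, rfl⟩)
    (n_succ_of_not_stb h (hs.act (D.K_le hu)) ht c))⟩

end Dat

end Pool.Agent.CS
end
end

-- part Pool.Agent.P.MP_d34769_ag.YE6
section

/-! Limits of pairs of isomorphic triples. -/

open Matrix Classical

noncomputable section
namespace Pool.Agent.CS

variable {I : Type} [Fintype I] [DecidableEq I]

namespace Dat
variable {D : Dat I} {ρ σ : Rp I}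

/-- SEP -/
theorem sep (hρ : D.SS D.th ρ) (hσ : D.SS D.th σ)
    (h : (ρ, σ) ∈ closure {x : Rp I × Rp I | D.Iso x.1 x.2}) :
    ∃ r, D.Bal r ∧ ∃ u ∈ D.K, ∃ u' ∈ D.K, Tri r (actR u ρ) ∧ Tri (flip r) (actR u' σ) ∧
      D.Iso (gr r (actR u ρ)) (gr r (actR u' σ)) := by
  have hsub : {x : Rp I × Rp I | D.Iso x.1 x.2} ⊆
      {x : Rp I × Rp I | ∃ g ∈ D.base.P, x.2 = actR g x.1} := by
    rintro x ⟨g, hg, hx⟩
    exact ⟨g, hg, hx.symm⟩
  obtain ⟨k, hk, hkP, k', hk', hkP', r, -, h2, h3, h4, h5, s, hs, h6⟩ := D.sep_core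
    (closure_mono hsub h)
  have hs' : ∀ i, (s i : ℂ) ≠ 0 := fun i => by exact_mod_cast (hs i).ne'
  have hinv : diagonal (fun i => (s i : ℂ)) * diagonal (fun i => (s i : ℂ)⁻¹) = 1 := by
    rw [diagonal_mul_diagonal, ← diagonal_one]
    congr 1
    exact funext fun i => mul_inv_cancel₀ (hs' i)
  refine ⟨r, ⟨h3, h2, fun i0 => ?_⟩, k, ⟨hkP.1, hk⟩, k', ⟨hkP'.1, hk'⟩, h4, h5,
    diagonal fun i => (s i : ℂ), ⟨D.base.diagonal_mem_Lie _, isUnit_det_of_right_inverse hinv⟩, ?_⟩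
  · let F : Finset I := Finset.univ.filter fun j => r j i0
    have hF : ∀ j, j ∈ F ↔ r j i0 := fun j => by simp [F]
    have a1 := hρ.act hkP _ (sub_sp (F := (F : Set I)) |>.2 fun c i j hi hj =>
      h4 c i j fun hij => hi ((hF i).2 (h2 _ _ _ hij ((hF j).1 hj))))
    have a2 := hσ.act hkP' _ (sub_sp (F := ((Fᶜ : Finset I) : Set I)) |>.2 fun c i j hi hj =>
      h5 c i j fun hji => Finset.mem_compl.1 hj ((hF j).2 (h2 _ _ _ hji
        ((hF i).1 (by simpa using hi)))))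
    have a3 : D.wt D.th ⊤ = 0 := wt_top
    rw [wt_top', ← Finset.sum_add_sum_compl F] at a3
    rw [wt_sp] at a1 a2
    rw [show {j | r j i0} = (F : Set I) from Set.ext fun j => (hF j).symm, wt_sp]
    omega
  · funext c
    ext i j
    conv_lhs => rw [actR, inv_eq_right_inv hinv, mul_diagonal, diagonal_mul]
    simp only [gr]
    split_ifs with hh
    · exact (h6 c i j hh.1 hh.2).symm
    · simp

end Dat

end Pool.Agent.CS
end
end

-- part Pool.Agent.P.MP_d34769_ag.YE7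
section

/-! S-equivalence. -/

open Matrix Classical

noncomputable section
namespace Pool.Agent.CS

variable {I : Type} [Fintype I] [DecidableEq I]

namespace Dat
variable (D : Dat I)

/-- the semisimple points in the closure of the orbit -/
def ps (ρ : Rp I) : Set (Rp I) := {σ | D.Sem σ ∧ σ ∈ closure {x | D.Iso ρ x}}

/-- S-equivalence -/
def Sim (ρ σ : Rp I) : Prop := D.ps ρ = D.ps σ

variable {D} {ρ σ τ : Rp I} {r : I → I → Prop} {k : ℕ}

lemma Sim.refl (ρ : Rp I) : D.Sim ρ ρ := rfl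

lemma Sim.symm (h : D.Sim ρ σ) : D.Sim σ ρ := Eq.symm h

lemma Sim.trans (h : D.Sim ρ σ) (h' : D.Sim σ τ) : D.Sim ρ τ := Eq.trans h h'

lemma e7_iso {u : Matrix I I ℂ} (hu : u ∈ D.K) (ρ : Rp I) : D.Iso ρ (actR u ρ) :=
  ⟨u, D.K_le hu, rfl⟩

lemma e7_jh (hs : D.SS D.th ρ) : ∃ (k : ℕ) (s : I → Fin k) (u : Matrix I I ℂ), D.Slot s ∧
    u ∈ D.K ∧ D.N k ρ ∧ Tri (le s) (actR u ρ) ∧ ¬ D.N (k + 1) (gr (le s) (actR u ρ)) ∧
      gr (le s) (actR u ρ) ∈ D.ps ρ := by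
  obtain ⟨k, h1, h2⟩ := exists_n (D := D) ρ
  obtain ⟨s, h, u, hu, ht, hb⟩ := exists_jh hs h1 h2
  have h0 : ∀ a i j, s i ≠ s j → gr (le s) (actR u ρ) a i j = 0 := fun a i j e => by
    rw [gr_le, if_neg e]
  exact ⟨k, s, u, h, hu, h1, ht, not_n_succ h h0 hb, sem_of_blocks h h0 hb,
    closure_orb_mono (subset_closure (e7_iso hu ρ)) (gr_mem_closure h.toBal ht)⟩

lemma e7_cont : Continuous fun p : D.K × Rp I => actR p.1.1 p.2 := by
  have e : (fun p : D.K × Rp I => actR p.1.1 p.2) = fun p a => p.1.1 * p.2 a * p.1.1ᴴ :=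
    funext fun p => actR_unitary p.1.2.2 p.2
  rw [e]
  fun_prop

lemma e7_closed (r r' : I → I → Prop) : IsClosed {x : Rp I × Rp I | ∃ u ∈ D.K, ∃ u' ∈ D.K,
    Tri r (actR u x.1) ∧ Tri r' (actR u' x.2) ∧ (gr r (actR u x.1), gr r' (actR u' x.2)) ∈
      closure {x : Rp I × Rp I | D.Iso x.1 x.2}} := by
  have := isCompact_iff_compactSpace.1 (isCompact_K (D := D))
  have c1 : Continuous fun p : (D.K × D.K) × Rp I × Rp I => actR p.1.1.1 p.2.1 :=
    e7_cont.comp (f := fun p : (D.K × D.K) × Rp I × Rp I => (p.1.1, p.2.1)) (by fun_prop)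
  have c2 : Continuous fun p : (D.K × D.K) × Rp I × Rp I => actR p.1.2.1 p.2.2 :=
    e7_cont.comp (f := fun p : (D.K × D.K) × Rp I × Rp I => (p.1.2, p.2.2)) (by fun_prop)
  have h := isClosedMap_snd_of_compactSpace _ (((isClosed_tri r).preimage c1).inter
    (((isClosed_tri r').preimage c2).inter
      ((isClosed_closure (s := {x : Rp I × Rp I | D.Iso x.1 x.2})).preimage
        (((continuous_gr r).comp c1).prodMk ((continuous_gr r').comp c2)))))
  refine (congrArg IsClosed (Set.ext fun x => ⟨?_, ?_⟩)).mp h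
  · rintro ⟨⟨⟨u, u'⟩, y⟩, hp, rfl⟩
    exact ⟨u.1, u.2, u'.1, u'.2, hp⟩
  · rintro ⟨u, hu, u', hu', hp⟩
    exact ⟨((⟨u, hu⟩, ⟨u', hu'⟩), x), hp, rfl⟩

lemma ps_nonempty (hs : D.SS D.th ρ) : (D.ps ρ).Nonempty := by
  obtain ⟨k, s, u, -, -, -, -, -, h⟩ := e7_jh hs
  exact ⟨_, h⟩

lemma ps_iso (h : σ ∈ D.ps ρ) (h' : τ ∈ D.ps ρ) : D.Iso σ τ := by
  have h1 : (σ, τ) ∈ closure ({x | D.Iso ρ x} ×ˢ {x | D.Iso ρ x}) := by
    rw [closure_prod_eq]
    exact ⟨h.2, h'.2⟩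
  obtain ⟨r, hr, u, hu, u', hu', t1, t2, e⟩ := sep h.1.1 h'.1.1
    (closure_mono (fun x hx => hx.1.symm.trans hx.2) h1)
  have a := ((e7_iso hu' τ).sem h'.1).iso_gr hr.flip t2
  rw [gr_flip] at a
  exact (((e7_iso hu σ).trans (((e7_iso hu σ).sem h.1).iso_gr hr t1)).trans e).trans
    ((e7_iso hu' τ).trans a).symm

lemma ps_of_iso (h : σ ∈ D.ps ρ) (h' : D.Iso σ τ) : τ ∈ D.ps ρ :=
  ⟨h'.sem h.1, closure_orb_mono h.2 (subset_closure h')⟩

lemma Sem.mem_ps (h : D.Sem ρ) : ρ ∈ D.ps ρ := ⟨h, subset_closure (Iso.refl ρ)⟩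

lemma ps_mem_R (hρ : ρ ∈ D.base.R) (h : σ ∈ D.ps ρ) : σ ∈ D.base.R := by
  refine closure_minimal ?_ D.base.isClosed_R h.2
  rintro _ ⟨g, hg, rfl⟩
  exact actR_mem hg hρ

lemma Iso.sim (h : D.Iso ρ σ) : D.Sim ρ σ :=
  Set.ext fun _ => and_congr_right fun _ => ⟨fun a => closure_orb_mono (subset_closure h.symm) a,
    fun a => closure_orb_mono (subset_closure h) a⟩

lemma sim_of_closure (hσ : D.SS D.th σ) (h : σ ∈ closure {x | D.Iso ρ x}) : D.Sim ρ σ := by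
  obtain ⟨π, hπ⟩ := ps_nonempty hσ
  exact Set.Subset.antisymm
    (fun τ hτ => ps_of_iso hπ (ps_iso ⟨hπ.1, closure_orb_mono h hπ.2⟩ hτ))
    fun τ hτ => ⟨hτ.1, closure_orb_mono h hτ.2⟩

lemma sim_of_ps (h : σ ∈ D.ps ρ) : D.Sim ρ σ := sim_of_closure h.1.1 h.2

lemma sim_gr (hs : D.SS D.th ρ) (hr : D.Bal r) (hρ : Tri r ρ) : D.Sim ρ (gr r ρ) :=
  sim_of_closure (hs.gr hr hρ) (gr_mem_closure hr hρ)

lemma Sim.iso (h : D.Sim ρ σ) (hρ : D.Sem ρ) (hσ : D.Sem σ) : D.Iso ρ σ :=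
  ps_iso hρ.mem_ps (Eq.symm h ▸ hσ.mem_ps)

theorem sim_of_pair (hρ : D.SS D.th ρ) (hσ : D.SS D.th σ)
    (h : (ρ, σ) ∈ closure {x : Rp I × Rp I | D.Iso x.1 x.2}) : D.Sim ρ σ := by
  obtain ⟨r, hr, u, hu, u', hu', t1, t2, e⟩ := sep hρ hσ h
  have a := sim_gr ((e7_iso hu' σ).ss hσ) hr.flip t2
  rw [gr_flip] at a
  exact (((e7_iso hu ρ).sim.trans (sim_gr ((e7_iso hu ρ).ss hρ) hr t1)).trans e.sim).trans
    ((e7_iso hu' σ).sim.trans a).symm

/-- S-equivalence is closed on semistable triples -/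
theorem sim_closed (hρ : D.SS D.th ρ) (hσ : D.SS D.th σ)
    (h : (ρ, σ) ∈ closure {x : Rp I × Rp I | D.SS D.th x.1 ∧ D.SS D.th x.2 ∧ D.Sim x.1 x.2}) :
    D.Sim ρ σ := by
  have hc : IsClosed (⋃ q : {q : (I → I → Prop) × (I → I → Prop) // D.Bal q.1 ∧ D.Bal q.2},
      {x : Rp I × Rp I | ∃ u ∈ D.K, ∃ u' ∈ D.K, Tri q.1.1 (actR u x.1) ∧ Tri q.1.2 (actR u' x.2) ∧
        (gr q.1.1 (actR u x.1), gr q.1.2 (actR u' x.2)) ∈
          closure {x : Rp I × Rp I | D.Iso x.1 x.2}}) :=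
    isClosed_iUnion_of_finite fun q => e7_closed q.1.1 q.1.2
  obtain ⟨⟨⟨r, r'⟩, hr, hr'⟩, u, hu, u', hu', t1, t2, e⟩ :=
    Set.mem_iUnion.1 (closure_minimal (fun x hx => by
      obtain ⟨k, s, u, h1, h2, -, h3, -, h4⟩ := e7_jh hx.1
      obtain ⟨k', s', u', h1', h2', -, h3', -, h4'⟩ := e7_jh hx.2.1
      exact Set.mem_iUnion.2 ⟨⟨(le s, le s'), h1.toBal, h1'.toBal⟩, u, h2, u', h2', h3, h3',
        subset_closure (ps_iso h4 (Eq.symm hx.2.2 ▸ h4'))⟩) hc h)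
  have a := (e7_iso hu ρ).ss hρ
  have b := (e7_iso hu' σ).ss hσ
  exact (((e7_iso hu ρ).sim.trans (sim_gr a hr t1)).trans
    (sim_of_pair (a.gr hr t1) (b.gr hr' t2) e)).trans
    ((e7_iso hu' σ).sim.trans (sim_gr b hr' t2)).symm

theorem Sim.n (h : D.Sim ρ σ) (hρ : D.SS D.th ρ) (hσ : D.SS D.th σ) (hn : D.N k ρ) :
    D.N k σ := by
  obtain ⟨k', s, u, -, -, h1, -, h2, h3⟩ := e7_jh hσ
  have h4 : gr (le s) (actR u σ) ∈ D.ps ρ := Eq.symm h ▸ h3
  have h5 : D.N k (gr (le s) (actR u σ)) :=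
    closure_minimal (fun _ hx => Iso.n hx hn) (isClosed_n k) h4.2
  have h6 : k ≤ k' := by
    by_contra h7
    exact h2 (h5.anti (by omega) (by omega))
  rcases Nat.eq_zero_or_pos k with rfl | h0
  · obtain ⟨t, ht, g, hg, -⟩ := hn
    exact ⟨t, ht, g, hg, fun _ i => (t i).elim0⟩
  · exact h1.anti h0 h6

theorem Sim.iso_of_stb (h : D.Sim ρ σ) (hρ : D.Stb ρ) (hσ : D.SS D.th σ) : D.Iso ρ σ := by
  have := hρ.1
  have h1 := stb_iff.1 hρ
  exact h.iso hρ.sem (stb_iff.2 ⟨hσ, fun h2 => h1.2 (h.symm.n hσ h1.1 h2)⟩).sem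

end Dat

end Pool.Agent.CS
end
end
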