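import Mathlib

-- part Pool.Agent.P.MP_d34769_ag.YA0
section

/-! Complexes written on one module, with a submodule of null elements. -/

noncomputable section
namespace Pool.Agent.CS

/-- A complex: `G n` are the cochains of degree `n`, `N` the null elements. -/
structure Cx (T : Type) [AddCommGroup T] [Module ℂ T] where
  d : Module.End ℂ T
  G : ℤ → Submodule ℂ T
  N : Submodule ℂ T
  dG : ∀ n, ∀ x ∈ G n, d x ∈ G (n + 1)
  dN : ∀ x ∈ N, d x ∈ N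
  dd : ∀ n, ∀ x ∈ G n, d (d x) ∈ N

namespace Cx
variable {T T' T'' : Type} [AddCommGroup T] [Module ℂ T] [AddCommGroup T'] [Module ℂ T']
  [AddCommGroup T''] [Module ℂ T''] (C : Cx T) (C' : Cx T') (C'' : Cx T'')

/-- cocycles -/
def Z (n : ℤ) : Submodule ℂ T := C.G n ⊓ C.N.comap C.d

/-- coboundaries and null elements -/
def B (n : ℤ) : Submodule ℂ T := (C.G (n - 1)).map C.d ⊔ C.N

/-- exact in degree `n` -/
def Ac (n : ℤ) : Prop := C.Z n ≤ C.B n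

/-- the subcomplex cut out by a stable submodule -/
def sub (U : Submodule ℂ T) (h : ∀ x ∈ U, C.d x ∈ U) : Cx T where
  d := C.d
  G n := C.G n ⊓ U
  N := C.N
  dG n x hx := ⟨C.dG n x hx.1, h x hx.2⟩
  dN := C.dN
  dd n x hx := C.dd n x hx.1

/-- the quotient by a stable submodule that contains the null elements -/
def quo (U : Submodule ℂ T) (h : ∀ x ∈ U, C.d x ∈ U) (hN : C.N ≤ U) : Cx T where
  d := C.d
  G := C.G
  N := U
  dG := C.dG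
  dN := h
  dd n x hx := hN (C.dd n x hx)

/-- `f` is a map of complexes of degree `s` -/
structure Mor (f : T →ₗ[ℂ] T') (s : ℤ) : Prop where
  fG : ∀ n, ∀ x ∈ C.G n, f x ∈ C'.G (n + s)
  fN : ∀ n, ∀ x ∈ C.G n, x ∈ C.N → f x ∈ C'.N
  fd : ∀ n, ∀ x ∈ C.G n, f (C.d x) - C'.d (f x) ∈ C'.N

/-- injective on cohomology of degree `n` -/
def Inj (f : T →ₗ[ℂ] T') (s n : ℤ) : Prop := ∀ x ∈ C.Z n, f x ∈ C'.B (n + s) → x ∈ C.B n

/-- surjective on cohomology from degree `n` -/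
def Sur (f : T →ₗ[ℂ] T') (s n : ℤ) : Prop :=
  ∀ y ∈ C'.Z (n + s), ∃ x ∈ C.Z n, y - f x ∈ C'.B (n + s)

/-- injective in degrees `≤ n`, surjective in degrees `< n` -/
def QI (f : T →ₗ[ℂ] T') (s n : ℤ) : Prop :=
  (∀ k ≤ n, C.Inj C' f s k) ∧ ∀ k < n, C.Sur C' f s k

/-- quasi-isomorphism -/
def QIa (f : T →ₗ[ℂ] T') (s : ℤ) : Prop := ∀ n, C.QI C' f s n

/-- cohomology -/
def H (n : ℤ) : Type := C.Z n ⧸ (C.B n).submoduleOf (C.Z n)

instance (n : ℤ) : AddCommGroup (C.H n) :=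
  inferInstanceAs (AddCommGroup (C.Z n ⧸ (C.B n).submoduleOf (C.Z n)))
instance (n : ℤ) : Module ℂ (C.H n) :=
  inferInstanceAs (Module ℂ (C.Z n ⧸ (C.B n).submoduleOf (C.Z n)))

/-- the class of a cocycle -/
def cls (n : ℤ) : C.Z n →ₗ[ℂ] C.H n := ((C.B n).submoduleOf (C.Z n)).mkQ

variable {C C' C''} {f g : T →ₗ[ℂ] T'} {f' : T' →ₗ[ℂ] T''} {s s' n m : ℤ} {x : T}

theorem mem_Z : x ∈ C.Z n ↔ x ∈ C.G n ∧ C.d x ∈ C.N := Iff.rfl

theorem mem_B : x ∈ C.B n ↔ ∃ b ∈ C.G (n - 1), x - C.d b ∈ C.N := by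
  constructor
  · intro h
    obtain ⟨_, ⟨b, hb, rfl⟩, z, hz, rfl⟩ := Submodule.mem_sup.1 h
    exact ⟨b, hb, by simpa using hz⟩
  · rintro ⟨b, hb, h⟩
    exact Submodule.mem_sup.2 ⟨_, ⟨b, hb, rfl⟩, _, h, by simp⟩

theorem N_le_B : C.N ≤ C.B n := le_sup_right

theorem d_mem_B (h : x ∈ C.G n) (e : n + 1 = m) : C.d x ∈ C.B m :=
  mem_B.2 ⟨x, by rwa [← e, add_sub_cancel_right], by simp⟩

theorem d_mem_Z (h : x ∈ C.G n) : C.d x ∈ C.Z (n + 1) := ⟨C.dG n x h, C.dd n x h⟩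

theorem Mor.mem_Z (h : C.Mor C' f s) (hx : x ∈ C.Z n) : f x ∈ C'.Z (n + s) := by
  refine ⟨h.fG n x hx.1, ?_⟩
  have h1 := h.fN _ _ (C.dG n x hx.1) hx.2
  have h2 := C'.N.sub_mem h1 (h.fd n x hx.1)
  rwa [sub_sub_cancel] at h2

theorem Mor.mem_B (h : C.Mor C' f s) (hG : x ∈ C.G n) (hx : x ∈ C.B n) : f x ∈ C'.B (n + s) := by
  obtain ⟨b, hb, e⟩ := Cx.mem_B.1 hx
  have h0 : C.d b ∈ C.G n := by simpa using C.dG _ b hb
  refine Cx.mem_B.2 ⟨f b, by have := h.fG _ b hb; rwa [show n - 1 + s = n + s - 1 by ring] at this, ?_⟩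
  have h1 := C'.N.add_mem (h.fN n _ ((C.G n).sub_mem hG h0) e) (h.fd _ b hb)
  rwa [map_sub, sub_add_sub_cancel] at h1

theorem cls_surj (n : ℤ) : Function.Surjective (C.cls n) := Submodule.mkQ_surjective _

theorem cls_eq_zero {x : C.Z n} : C.cls n x = 0 ↔ x.1 ∈ C.B n := Submodule.Quotient.mk_eq_zero _

theorem cls_eq {x y : C.Z n} : C.cls n x = C.cls n y ↔ x.1 - y.1 ∈ C.B n :=
  Submodule.Quotient.eq _

/-- the induced map on cohomology -/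
def Mor.hm (h : C.Mor C' f s) (e : n + s = m) : C.H n →ₗ[ℂ] C'.H m :=
  Submodule.mapQ _ _ (f.restrict (p := C.Z n) (q := C'.Z m) fun _ hx => e ▸ h.mem_Z hx)
    fun x hx => by subst e; exact h.mem_B x.2.1 hx

theorem Mor.hm_cls (h : C.Mor C' f s) (e : n + s = m) (x : C.Z n) :
    h.hm e (C.cls n x) = C'.cls m ⟨f x.1, e ▸ h.mem_Z x.2⟩ := rfl

theorem Mor.inj_iff (h : C.Mor C' f s) (e : n + s = m) :
    C.Inj C' f s n ↔ Function.Injective (h.hm e) := by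
  subst e
  rw [injective_iff_map_eq_zero]
  constructor
  · intro hi a ha
    obtain ⟨x, rfl⟩ := cls_surj n a
    exact cls_eq_zero.2 (hi x.1 x.2 (cls_eq_zero.1 ha))
  · intro hi x hx hb
    exact cls_eq_zero.1 (hi (C.cls n ⟨x, hx⟩) (cls_eq_zero.2 hb))

theorem Mor.sur_iff (h : C.Mor C' f s) (e : n + s = m) :
    C.Sur C' f s n ↔ Function.Surjective (h.hm e) := by
  subst e
  constructor
  · intro hs a
    obtain ⟨y, rfl⟩ := cls_surj _ a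
    obtain ⟨x, hx, e⟩ := hs y.1 y.2
    exact ⟨C.cls n ⟨x, hx⟩, (cls_eq.2 e).symm⟩
  · intro hs y hy
    obtain ⟨a, ha⟩ := hs (C'.cls _ ⟨y, hy⟩)
    obtain ⟨x, rfl⟩ := cls_surj n a
    exact ⟨x.1, x.2, cls_eq.1 ha.symm⟩

theorem QI.mono (h : C.QI C' f s n) (hm : m ≤ n) : C.QI C' f s m :=
  ⟨fun k hk => h.1 k (hk.trans hm), fun k hk => h.2 k (hk.trans_le hm)⟩

theorem QIa.inj (h : C.QIa C' f s) (n : ℤ) : C.Inj C' f s n := (h n).1 n le_rfl

theorem QIa.sur (h : C.QIa C' f s) (n : ℤ) : C.Sur C' f s n := (h (n + 1)).2 n (by omega)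

theorem qia_iff : C.QIa C' f s ↔ ∀ n, C.Inj C' f s n ∧ C.Sur C' f s n :=
  ⟨fun h n => ⟨h.inj n, h.sur n⟩, fun h _ => ⟨fun k _ => (h k).1, fun k _ => (h k).2⟩⟩

end Cx

end Pool.Agent.CS
end
end

-- part Pool.Agent.P.MP_d34769_ag.YA1
section

/-! Composition, homotopies, long exact sequences. -/

noncomputable section
namespace Pool.Agent.CS
namespace Cx
variable {T T' T'' : Type} [AddCommGroup T] [Module ℂ T] [AddCommGroup T'] [Module ℂ T']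
  [AddCommGroup T''] [Module ℂ T''] {C : Cx T} {C' : Cx T'} {C'' : Cx T''}
  {f g : T →ₗ[ℂ] T'} {f' : T' →ₗ[ℂ] T''} {s s' n m : ℤ}

theorem meq {U : Submodule ℂ T} {a b : T} (h : a ∈ U) (e : a = b) : b ∈ U := e ▸ h

theorem Gcast {x : T} (h : x ∈ C.G n) (e : n = m) : x ∈ C.G m := e ▸ h

theorem Zcast {x : T} (h : x ∈ C.Z n) (e : n = m) : x ∈ C.Z m := e ▸ h

theorem Bcast {x : T} (h : x ∈ C.B n) (e : n = m) : x ∈ C.B m := e ▸ h

theorem mem_B' {x : T} (e : n + 1 = m) : x ∈ C.B m ↔ ∃ b ∈ C.G n, x - C.d b ∈ C.N := by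
  rw [mem_B, ← e, add_sub_cancel_right]

theorem Mor.id (C : Cx T) : C.Mor C LinearMap.id 0 :=
  ⟨fun n _ hx => Gcast hx (add_zero n).symm, fun _ _ _ h => h, fun _ _ _ => by simp⟩

theorem Mor.comp (h' : C'.Mor C'' f' s') (h : C.Mor C' f s) : C.Mor C'' (f' ∘ₗ f) (s + s') := by
  refine ⟨fun n x hx => Gcast (h'.fG _ _ (h.fG n x hx)) (add_assoc _ _ _),
    fun n x hx hn => h'.fN _ _ (h.fG n x hx) (h.fN n x hx hn), fun n x hx => ?_⟩
  exact meq (C''.N.add_mem (h'.fN (n + 1 + s) _ ((C'.G _).sub_mem (h.fG _ _ (C.dG n x hx))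
    (Gcast (C'.dG _ _ (h.fG n x hx)) (by ring))) (h.fd n x hx)) (h'.fd _ _ (h.fG n x hx))) (by simp only [map_sub, map_add, LinearMap.comp_apply]; abel)

theorem Mor.add (h : C.Mor C' f s) (h' : C.Mor C' g s) : C.Mor C' (f + g) s :=
  ⟨fun n x hx => (C'.G _).add_mem (h.fG n x hx) (h'.fG n x hx),
    fun n x hx hn => C'.N.add_mem (h.fN n x hx hn) (h'.fN n x hx hn),
    fun n x hx => meq (C'.N.add_mem (h.fd n x hx) (h'.fd n x hx))
      (by simp only [LinearMap.add_apply, map_add]; abel)⟩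

theorem Mor.smul (h : C.Mor C' f s) (a : ℂ) : C.Mor C' (a • f) s :=
  ⟨fun n x hx => (C'.G _).smul_mem a (h.fG n x hx),
    fun n x hx hn => C'.N.smul_mem a (h.fN n x hx hn),
    fun n x hx => meq (C'.N.smul_mem a (h.fd n x hx))
      (by simp only [LinearMap.smul_apply, map_smul, smul_sub])⟩

theorem Mor.sum {κ : Type} (t : Finset κ) {F : κ → T →ₗ[ℂ] T'} (h : ∀ k ∈ t, C.Mor C' (F k) s) :
    C.Mor C' (∑ k ∈ t, F k) s := by
  refine Finset.sum_induction F (fun g => C.Mor C' g s) (fun _ _ => Mor.add) ?_ h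
  exact ⟨fun _ _ _ => by simp, fun _ _ _ _ => by simp, fun _ _ _ => by simp⟩

theorem Inj.comp (h : C.Mor C' f s) (i' : C'.Inj C'' f' s' (n + s)) (i : C.Inj C' f s n) :
    C.Inj C'' (f' ∘ₗ f) (s + s') n :=
  fun x hx hb => i x hx (i' _ (h.mem_Z hx) (Bcast hb (add_assoc _ _ _).symm))

theorem Inj.of_comp (h : C.Mor C' f s) (h' : C'.Mor C'' f' s')
    (i : C.Inj C'' (f' ∘ₗ f) (s + s') n) : C.Inj C' f s n :=
  fun x hx hb => i x hx (Bcast (h'.mem_B (h.fG n x hx.1) hb) (add_assoc _ _ _))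

theorem Inj.of_comp_sur (h : C.Mor C' f s) (h' : C'.Mor C'' f' s')
    (i : C.Inj C'' (f' ∘ₗ f) (s + s') n) (u : C.Sur C' f s n) : C'.Inj C'' f' s' (n + s) := by
  intro y hy hb
  obtain ⟨x, hx, e⟩ := u y hy
  have h1 := h'.mem_B ((C'.G _).sub_mem hy.1 (h.fG n x hx.1)) e
  have h2 := i x hx (Bcast (meq ((C''.B _).sub_mem hb h1) (by simp only [map_sub, map_add, LinearMap.comp_apply]; abel)) (add_assoc _ _ _))
  exact meq ((C'.B _).add_mem e (h.mem_B hx.1 h2)) (sub_add_cancel _ _)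

theorem Sur.comp (h : C.Mor C' f s) (h' : C'.Mor C'' f' s') (u' : C'.Sur C'' f' s' (n + s))
    (u : C.Sur C' f s n) : C.Sur C'' (f' ∘ₗ f) (s + s') n := by
  intro z hz
  obtain ⟨y, hy, e⟩ := u' z (Zcast hz (add_assoc _ _ _).symm)
  obtain ⟨x, hx, e'⟩ := u y hy
  exact ⟨x, hx, Bcast (meq ((C''.B _).add_mem e
    (h'.mem_B ((C'.G _).sub_mem hy.1 (h.fG n x hx.1)) e')) (by simp only [map_sub, map_add, LinearMap.comp_apply]; abel)) (add_assoc _ _ _)⟩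

theorem Sur.of_comp (h : C.Mor C' f s) (u : C.Sur C'' (f' ∘ₗ f) (s + s') n) :
    C'.Sur C'' f' s' (n + s) := by
  intro z hz
  obtain ⟨x, hx, e⟩ := u z (Zcast hz (add_assoc _ _ _))
  exact ⟨f x, h.mem_Z hx, Bcast e (add_assoc _ _ _).symm⟩

theorem Sur.of_comp_inj (h : C.Mor C' f s) (h' : C'.Mor C'' f' s')
    (u : C.Sur C'' (f' ∘ₗ f) (s + s') n) (i : C'.Inj C'' f' s' (n + s)) : C.Sur C' f s n := by
  intro y hy
  obtain ⟨x, hx, e⟩ := u (f' y) (Zcast (h'.mem_Z hy) (add_assoc _ _ _))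
  exact ⟨x, hx, i _ ((C'.Z _).sub_mem hy (h.mem_Z hx))
    (Bcast (meq e (map_sub f' _ _).symm) (add_assoc _ _ _).symm)⟩

theorem QI.comp (h : C.Mor C' f s) (h' : C'.Mor C'' f' s') (q' : C'.QI C'' f' s' (n + s))
    (q : C.QI C' f s n) : C.QI C'' (f' ∘ₗ f) (s + s') n :=
  ⟨fun k hk => (q'.1 _ (by omega)).comp h (q.1 k hk),
    fun k hk => (q'.2 _ (by omega)).comp h h' (q.2 k hk)⟩

theorem QIa.comp (h : C.Mor C' f s) (h' : C'.Mor C'' f' s') (q' : C'.QIa C'' f' s')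
    (q : C.QIa C' f s) : C.QIa C'' (f' ∘ₗ f) (s + s') := fun n => (q' _).comp h h' (q n)

theorem QIa.left (h : C.Mor C' f s) (h' : C'.Mor C'' f' s') (q' : C'.QIa C'' f' s')
    (q : C.QIa C'' (f' ∘ₗ f) (s + s')) : C.QIa C' f s :=
  fun n => ⟨fun k _ => (q.inj k).of_comp h h', fun k _ => (q.sur k).of_comp_inj h h' (q'.inj _)⟩

theorem QIa.right (h : C.Mor C' f s) (h' : C'.Mor C'' f' s') (q : C.QIa C' f s)
    (q' : C.QIa C'' (f' ∘ₗ f) (s + s')) : C'.QIa C'' f' s' := by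
  refine qia_iff.2 fun k => ?_
  obtain ⟨j, rfl⟩ : ∃ j, k = j + s := ⟨k - s, by ring⟩
  exact ⟨(q'.inj j).of_comp_sur h h' (q.sur j), (q'.sur j).of_comp h⟩

theorem QI.left (h : C.Mor C' f s) (h' : C'.Mor C'' f' s') (q' : C'.QIa C'' f' s')
    (q : C.QI C'' (f' ∘ₗ f) (s + s') n) : C.QI C' f s n :=
  ⟨fun k hk => (q.1 k hk).of_comp h h', fun k hk => (q.2 k hk).of_comp_inj h h' (q'.inj _)⟩

theorem QI.right (h : C.Mor C' f s) (h' : C'.Mor C'' f' s') (q : C.QIa C' f s)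
    (q' : C.QI C'' (f' ∘ₗ f) (s + s') n) : C'.QI C'' f' s' (n + s) := by
  refine ⟨fun k hk => ?_, fun k hk => ?_⟩ <;>
    obtain ⟨j, rfl⟩ : ∃ j, k = j + s := ⟨k - s, by ring⟩
  · exact (q'.1 j (by omega)).of_comp_sur h h' (q.sur j)
  · exact (q'.2 j (by omega)).of_comp h

/-- maps that agree on cohomology -/
theorem Inj.congr (e : ∀ x ∈ C.Z n, f x - g x ∈ C'.B (n + s)) (i : C.Inj C' f s n) :
    C.Inj C' g s n :=
  fun x hx hb => i x hx (meq ((C'.B _).add_mem (e x hx) hb) (sub_add_cancel _ _))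

theorem Sur.congr (e : ∀ x ∈ C.Z n, f x - g x ∈ C'.B (n + s)) (u : C.Sur C' f s n) :
    C.Sur C' g s n := by
  intro y hy
  obtain ⟨x, hx, h⟩ := u y hy
  exact ⟨x, hx, meq ((C'.B _).add_mem h (e x hx)) (by abel)⟩

theorem Inj.smul (i : C.Inj C' f s n) {a : ℂ} (ha : a ≠ 0) : C.Inj C' (a • f) s n :=
  fun x hx hb => i x hx (((C'.B _).smul_mem_iff ha).1 hb)

theorem Sur.smul (u : C.Sur C' f s n) {a : ℂ} (ha : a ≠ 0) : C.Sur C' (a • f) s n := by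
  intro y hy
  obtain ⟨x, hx, h⟩ := u y hy
  refine ⟨a⁻¹ • x, (C.Z n).smul_mem _ hx, ?_⟩
  rwa [LinearMap.smul_apply, map_smul, smul_inv_smul₀ ha]

/-- a chain homotopy -/
theorem hty (h : T →ₗ[ℂ] T') (hG : ∀ x ∈ C.G n, h x ∈ C'.G (n + s - 1))
    (hN : ∀ x ∈ C.G (n + 1), x ∈ C.N → h x ∈ C'.N)
    (e : ∀ x ∈ C.G n, f x - g x - C'.d (h x) - h (C.d x) ∈ C'.N) :
    ∀ x ∈ C.Z n, f x - g x ∈ C'.B (n + s) :=
  fun x hx => mem_B.2 ⟨h x, hG x hx.1, meq (C'.N.add_mem (e x hx.1)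
    (hN _ (C.dG n x hx.1) hx.2)) (sub_add_cancel _ _)⟩

/-- a map with an inverse up to null elements -/
theorem qia_of_inv (g : T' →ₗ[ℂ] T) (h : C.Mor C' f s) (h' : C'.Mor C g (-s))
    (e : ∀ n, ∀ x ∈ C.Z n, g (f x) - x ∈ C.B n) (e' : ∀ n, ∀ y ∈ C'.Z n, f (g y) - y ∈ C'.B n) :
    C.QIa C' f s := by
  refine qia_iff.2 fun n => ⟨fun x hx hb => ?_, fun y hy => ?_⟩
  · exact meq ((C.B n).sub_mem (Bcast (h'.mem_B (h.fG n x hx.1) hb) (by ring)) (e n x hx))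
      (sub_sub_cancel _ _)
  · exact ⟨g y, Zcast (h'.mem_Z hy) (by ring), meq ((C'.B _).neg_mem (e' _ y hy)) (neg_sub _ _)⟩

theorem Ac.of_inj (i : C.Inj C' f s n) (h : C.Mor C' f s) (a : C'.Ac (n + s)) : C.Ac n :=
  fun x hx => i x hx (a (h.mem_Z hx))

theorem Ac.of_sur (u : C.Sur C' f s n) (h : C.Mor C' f s) (a : C.Ac n) : C'.Ac (n + s) := by
  intro y hy
  obtain ⟨x, hx, e⟩ := u y hy
  exact meq ((C'.B _).add_mem e (h.mem_B hx.1 (a hx))) (sub_add_cancel _ _)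

theorem Ac.inj (a : C.Ac n) : C.Inj C' f s n := fun _ hx _ => a hx

theorem Ac.sur (a : C'.Ac (n + s)) : C.Sur C' f s n :=
  fun y hy => ⟨0, (C.Z n).zero_mem, by simpa using a hy⟩

section les
variable {U : Submodule ℂ T} (hU : ∀ x ∈ U, C.d x ∈ U) (hN : C.N ≤ U)
  {U' : Submodule ℂ T'} (hU' : ∀ x ∈ U', C'.d x ∈ U') (hN' : C'.N ≤ U')

theorem mem_subZ {x : T} : x ∈ (C.sub U hU).Z n ↔ x ∈ C.Z n ∧ x ∈ U :=
  ⟨fun h => ⟨⟨h.1.1, h.2⟩, h.1.2⟩, fun h => ⟨⟨h.1.1, h.2⟩, h.1.2⟩⟩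

theorem mem_subB {x : T} (e : n + 1 = m) :
    x ∈ (C.sub U hU).B m ↔ ∃ b, (b ∈ C.G n ∧ b ∈ U) ∧ x - C.d b ∈ C.N := mem_B' e

theorem mem_quoZ {x : T} : x ∈ (C.quo U hU hN).Z n ↔ x ∈ C.G n ∧ C.d x ∈ U := Iff.rfl

theorem mem_quoB {x : T} (e : n + 1 = m) :
    x ∈ (C.quo U hU hN).B m ↔ ∃ b ∈ C.G n, x - C.d b ∈ U := mem_B' e

theorem subB_le : (C.sub U hU).B n ≤ C.B n := fun _ h => by
  obtain ⟨b, hb, e⟩ := (mem_subB hU (sub_add_cancel n 1)).1 h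
  exact mem_B.2 ⟨b, hb.1, e⟩

theorem Z_le_quo : C.Z n ≤ (C.quo U hU hN).Z n := fun _ h => ⟨h.1, hN h.2⟩

theorem B_le_quo : C.B n ≤ (C.quo U hU hN).B n := fun _ h => by
  obtain ⟨b, hb, e⟩ := mem_B.1 h
  exact mem_B.2 ⟨b, hb, hN e⟩

theorem U_le_quo : U ≤ (C.quo U hU hN).B n := N_le_B (C := C.quo U hU hN)

theorem d_mem_subZ {x : T} (h : x ∈ (C.quo U hU hN).Z n) : C.d x ∈ (C.sub U hU).Z (n + 1) :=
  (mem_subZ hU).2 ⟨d_mem_Z h.1, h.2⟩

theorem mor_sub : (C.sub U hU).Mor C LinearMap.id 0 :=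
  ⟨fun n _ hx => Gcast hx.1 (add_zero n).symm, fun _ _ _ h => h,
    fun _ x _ => meq C.N.zero_mem (sub_self (C.d x)).symm⟩

theorem mor_quo : C.Mor (C.quo U hU hN) LinearMap.id 0 :=
  ⟨fun n _ hx => Gcast (C := C) hx (add_zero n).symm, fun _ _ _ h => hN h,
    fun _ x _ => meq U.zero_mem (sub_self (C.d x)).symm⟩

/-- exactness at `C` -/
theorem les_mid {x : T} (hx : x ∈ C.Z n) (h : x ∈ (C.quo U hU hN).B n) :
    ∃ y ∈ (C.sub U hU).Z n, x - y ∈ C.B n := by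
  obtain ⟨b, hb, e⟩ := (mem_quoB hU hN (sub_add_cancel n 1)).1 h
  exact ⟨x - C.d b, (mem_subZ hU).2 ⟨(C.Z n).sub_mem hx (Zcast (d_mem_Z hb) (by ring)), e⟩,
    meq (d_mem_B hb (by ring)) (sub_sub_cancel _ _).symm⟩

theorem inj_sub_iff : (C.sub U hU).Inj C LinearMap.id 0 (n + 1) ↔
    C.Sur (C.quo U hU hN) LinearMap.id 0 n := by
  refine ⟨fun i y hy => ?_, fun u x hx hb => ?_⟩
  · have hy' := Zcast hy (add_zero n)
    obtain ⟨b, hb, e⟩ := (mem_subB hU rfl).1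
      (i _ (d_mem_subZ hU hN hy') (d_mem_B hy'.1 (add_zero _).symm))
    exact ⟨y - b, mem_Z.2 ⟨(C.G n).sub_mem hy'.1 hb.1, meq e (map_sub _ _ _).symm⟩,
      U_le_quo hU hN (meq hb.2 (sub_sub_cancel _ _).symm)⟩
  · obtain ⟨b, hb, e⟩ := (mem_B' (add_zero (n + 1)).symm).1 hb
    have e : x - C.d b ∈ C.N := e
    obtain ⟨z, hz, h1⟩ := u b (Zcast ((mem_quoZ hU hN).2
      ⟨hb, meq (U.sub_mem hx.1.2 (hN e)) (sub_sub_cancel _ _)⟩) (add_zero n).symm)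
    obtain ⟨c, hc, h2⟩ := (mem_quoB hU hN (n := n - 1) (by ring)).1 h1
    have h2 : b - z - C.d c ∈ U := h2
    exact (mem_subB hU rfl).2 ⟨_, ⟨(C.G n).sub_mem ((C.G n).sub_mem hb hz.1)
      (Gcast (C.dG _ c hc) (by ring)), h2⟩,
      meq (C.N.add_mem (C.N.add_mem e hz.2) (C.dd _ c hc)) (by simp only [map_sub, map_add, LinearMap.comp_apply]; abel)⟩

theorem inj_quo_iff : C.Inj (C.quo U hU hN) LinearMap.id 0 n ↔
    ∀ x ∈ (C.sub U hU).Z n, x ∈ C.B n := by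
  refine ⟨fun i x hx => i x ((mem_subZ hU).1 hx).1 (U_le_quo hU hN hx.1.2), fun h x hx hb => ?_⟩
  obtain ⟨y, hy, e⟩ := les_mid hU hN hx (Bcast hb (add_zero n))
  exact meq ((C.B n).add_mem e (h y hy)) (sub_add_cancel _ _)

theorem ac_mid (a : (C.sub U hU).Ac n) (b : (C.quo U hU hN).Ac n) : C.Ac n :=
  fun x hx => (inj_quo_iff hU hN).2 (fun _ hy => subB_le hU (a hy)) x hx
    (Bcast (b (Z_le_quo hU hN hx)) (add_zero n).symm)

theorem ac_sub (a : C.Ac (n + 1)) (b : (C.quo U hU hN).Ac n) : (C.sub U hU).Ac (n + 1) :=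
  Ac.of_inj ((inj_sub_iff hU hN).2 (Ac.sur (by rwa [add_zero]))) (mor_sub hU) (by rwa [add_zero])

theorem ac_quo (a : C.Ac n) (b : (C.sub U hU).Ac (n + 1)) : (C.quo U hU hN).Ac n := by
  have := Ac.of_sur ((inj_sub_iff hU hN).1 b.inj) (mor_quo hU hN) a
  rwa [add_zero] at this

theorem qi_quo (a : ∀ k ≤ n, (C.sub U hU).Ac k) : C.QI (C.quo U hU hN) LinearMap.id 0 n :=
  ⟨fun k hk => (inj_quo_iff hU hN).2 fun _ hx => subB_le hU (a k hk hx),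
    fun k hk => (inj_sub_iff hU hN).1 (a (k + 1) hk).inj⟩

theorem qi_sub (a : ∀ k < n, (C.quo U hU hN).Ac k) : (C.sub U hU).QI C LinearMap.id 0 n := by
  refine ⟨fun k hk => ?_, fun k hk y hy => ?_⟩
  · obtain ⟨j, rfl⟩ : ∃ j, k = j + 1 := ⟨k - 1, by ring⟩
    exact (inj_sub_iff hU hN).2 (Ac.sur (by rw [add_zero]; exact a j hk))
  · rw [add_zero] at hy ⊢
    exact les_mid hU hN hy (a k hk (Z_le_quo hU hN hy))

theorem finrank_les [Module.Finite ℂ ((C.sub U hU).H n)] [Module.Finite ℂ ((C.quo U hU hN).H n)] :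
    Module.Finite ℂ (C.H n) ∧ Module.finrank ℂ (C.H n) ≤
      Module.finrank ℂ ((C.sub U hU).H n) + Module.finrank ℂ ((C.quo U hU hN).H n) := by
  have hk : LinearMap.ker ((mor_quo hU hN).hm (add_zero n)) ≤
      LinearMap.range ((mor_sub hU).hm (add_zero n)) := fun a ha => by
    obtain ⟨x, rfl⟩ := cls_surj n a
    obtain ⟨y, hy, e⟩ := les_mid hU hN x.2 (cls_eq_zero.1 (LinearMap.mem_ker.1 ha))
    exact ⟨(C.sub U hU).cls n ⟨y, hy⟩, (cls_eq.2 e).symm⟩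
  have h1 := Submodule.finiteDimensional_of_le hk
  have h2 : Module.Finite ℂ (C.H n) := ⟨Submodule.fg_of_fg_map_of_fg_inf_ker
    ((mor_quo hU hN).hm (add_zero n)) (IsNoetherian.noetherian _)
    (by rw [top_inf_eq]; exact Module.Finite.iff_fg.1 h1)⟩
  refine ⟨h2, ?_⟩
  rw [← LinearMap.finrank_range_add_finrank_ker ((mor_quo hU hN).hm (add_zero n)), add_comm]
  exact add_le_add ((Submodule.finrank_mono hk).trans (LinearMap.finrank_range_le _))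
    (Submodule.finrank_le _)

variable (h : C.Mor C' f s) (hf : ∀ n, ∀ x ∈ C.G n, x ∈ U → f x ∈ U')
include h hf

theorem Mor.sub : (C.sub U hU).Mor (C'.sub U' hU') f s :=
  ⟨fun n x hx => ⟨h.fG n x hx.1, hf n x hx.1 hx.2⟩, fun n x hx => h.fN n x hx.1,
    fun n x hx => h.fd n x hx.1⟩

theorem Mor.quo : (C.quo U hU hN).Mor (C'.quo U' hU' hN') f s :=
  ⟨h.fG, hf, fun n x hx => hN' (h.fd n x hx)⟩

/-- five lemma -/
theorem five_mid (a : (C.sub U hU).QI (C'.sub U' hU') f s n)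
    (b : (C.quo U hU hN).QI (C'.quo U' hU' hN') f s n) : C.QI C' f s n := by
  refine ⟨fun k hk x hx hb => ?_, fun k hk y' hy' => ?_⟩
  · obtain ⟨j, rfl⟩ : ∃ j, k = j + 1 := ⟨k - 1, by ring⟩
    obtain ⟨y, hy, e⟩ := les_mid hU hN hx
      (b.1 _ hk x (Z_le_quo hU hN hx) (B_le_quo hU' hN' hb))
    obtain ⟨hy1, hy2⟩ := (mem_subZ hU).1 hy
    obtain ⟨c', hc', e1⟩ := (mem_B' (n := j + s) (by ring)).1 (meq ((C'.B _).sub_mem hb
      (h.mem_B ((C.G _).sub_mem hx.1 hy1.1) e)) (show _ = f y by simp only [map_sub, map_add, LinearMap.comp_apply]; abel))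
    obtain ⟨c, hc, e2⟩ := b.2 j hk c' ((mem_quoZ hU' hN').2 ⟨hc',
      meq (U'.sub_mem (hf _ y hy1.1 hy2) (hN' e1)) (sub_sub_cancel _ _)⟩)
    obtain ⟨e', he', e3⟩ := (mem_quoB hU' hN' (sub_add_cancel _ 1)).1 e2
    have h1 := a.1 _ hk (y - C.d c) (Submodule.sub_mem _ hy (d_mem_subZ hU hN hc))
      ((mem_subB hU' (n := j + s) (by ring)).2 ⟨_, ⟨(C'.G _).sub_mem ((C'.G _).sub_mem hc'
        (h.fG j c hc.1)) (Gcast (C'.dG _ e' he') (by ring)), e3⟩,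
        meq (C'.N.add_mem (C'.N.sub_mem e1 (h.fd j c hc.1)) (C'.dd _ e' he')) (by simp only [map_sub, map_add, LinearMap.comp_apply]; abel)⟩)
    exact meq ((C.B _).add_mem ((C.B _).add_mem e (subB_le hU h1)) (d_mem_B hc.1 rfl)) (by abel)
  · obtain ⟨x, hx, e⟩ := b.2 k hk y' (Z_le_quo hU' hN' hy')
    obtain ⟨c', hc', e1⟩ := (mem_quoB hU' hN' (sub_add_cancel _ 1)).1 e
    have hd := Zcast (d_mem_Z hc') (sub_add_cancel _ 1)
    have g1 := (C'.G _).sub_mem ((C'.G _).sub_mem hy'.1 (h.fG k x hx.1)) hd.1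
    obtain ⟨u, hu, e2⟩ := (mem_subB hU rfl).1 (a.1 (k + 1) hk _ (d_mem_subZ hU hN hx)
      ((mem_subB hU' (n := k + s) (by ring)).2 ⟨_, ⟨(C'.G _).neg_mem g1, U'.neg_mem e1⟩,
        meq (C'.N.sub_mem (C'.N.add_mem (h.fd k x hx.1) hy'.2) hd.2)
          (by simp only [map_sub, map_neg]; abel)⟩))
    have hz : x - u ∈ C.Z k := mem_Z.2 ⟨(C.G k).sub_mem hx.1 hu.1, meq e2 (map_sub _ _ _).symm⟩
    obtain ⟨v, hv, e3⟩ := a.2 k hk (y' - f (x - u) - C'.d c') ((mem_subZ hU').2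
      ⟨(C'.Z _).sub_mem ((C'.Z _).sub_mem hy' (h.mem_Z hz)) hd,
        meq (U'.add_mem e1 (hf k u hu.1 hu.2)) (by simp only [map_sub, map_add, LinearMap.comp_apply]; abel)⟩)
    exact ⟨x - u + v, (C.Z k).add_mem hz ((mem_subZ hU).1 hv).1,
      meq ((C'.B _).add_mem (subB_le hU' e3) (d_mem_B hc' (by ring))) (by simp only [map_sub, map_add, LinearMap.comp_apply]; abel)⟩

theorem five_sub (a : C.QI C' f s n) (b : (C.quo U hU hN).QI (C'.quo U' hU' hN') f s n) :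
    (C.sub U hU).QI (C'.sub U' hU') f s n := by
  refine ⟨fun k hk y hy hb => ?_, fun k hk y' hy' => ?_⟩ <;>
    obtain ⟨j, rfl⟩ : ∃ j, k = j + 1 := ⟨k - 1, by ring⟩
  · obtain ⟨hy1, hy2⟩ := (mem_subZ hU).1 hy
    obtain ⟨u', hu', e1⟩ := (mem_subB hU' (n := j + s) (by ring)).1 hb
    obtain ⟨c, hc, e2⟩ := (mem_B' rfl).1 (a.1 _ hk y hy1 (subB_le hU' hb))
    have hq : c ∈ (C.quo U hU hN).Z j :=
      (mem_quoZ hU hN).2 ⟨hc, meq (U.sub_mem hy2 (hN e2)) (sub_sub_cancel _ _)⟩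
    obtain ⟨z, hz, e3⟩ := a.2 j hk (f c - u') (mem_Z.2 ⟨(C'.G _).sub_mem (h.fG j c hc) hu'.1,
      meq (C'.N.sub_mem (C'.N.sub_mem e1 (h.fN _ _ ((C.G _).sub_mem hy1.1 (C.dG j c hc)) e2))
        (h.fd j c hc)) (by simp only [map_sub]; abel)⟩)
    obtain ⟨e, he, e4⟩ := (mem_quoB hU hN (sub_add_cancel _ 1)).1 (b.1 j (by omega) (c - z)
      (Submodule.sub_mem _ hq (Z_le_quo hU hN hz))
      (meq (Submodule.add_mem _ (B_le_quo hU' hN' e3) (U_le_quo hU' hN' hu'.2)) (by simp only [map_sub, map_add, LinearMap.comp_apply]; abel)))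
    exact (mem_subB hU rfl).2 ⟨_, ⟨(C.G j).sub_mem ((C.G j).sub_mem hc hz.1)
      (Gcast (C.dG _ e he) (by ring)), e4⟩,
      meq (C.N.add_mem (C.N.add_mem e2 hz.2) (C.dd _ e he)) (by simp only [map_sub, map_add, LinearMap.comp_apply]; abel)⟩
  · obtain ⟨hy1, hy2⟩ := (mem_subZ hU').1 hy'
    obtain ⟨x, hx, e⟩ := a.2 _ hk y' hy1
    obtain ⟨y, hy, e0⟩ := les_mid hU hN hx (b.1 _ hk.le x (Z_le_quo hU hN hx)
      (meq (Submodule.sub_mem _ (U_le_quo hU' hN' hy2) (B_le_quo hU' hN' e)) (sub_sub_cancel _ _)))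
    obtain ⟨hz1, hz2⟩ := (mem_subZ hU).1 hy
    obtain ⟨c', hc', e1⟩ := (mem_B' (n := j + s) (by ring)).1 (meq ((C'.B _).add_mem e
      (h.mem_B ((C.G _).sub_mem hx.1 hz1.1) e0)) (show _ = y' - f y by simp only [map_sub, map_add, LinearMap.comp_apply]; abel))
    obtain ⟨c, hc, e2⟩ := b.2 j (by omega) c' ((mem_quoZ hU' hN').2 ⟨hc',
      meq (U'.sub_mem (U'.sub_mem hy2 (hf _ y hz1.1 hz2)) (hN' e1)) (sub_sub_cancel _ _)⟩)
    obtain ⟨e', he', e3⟩ := (mem_quoB hU' hN' (sub_add_cancel _ 1)).1 e2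
    exact ⟨y + C.d c, Submodule.add_mem _ hy (d_mem_subZ hU hN hc),
      (mem_subB hU' (n := j + s) (by ring)).2 ⟨_, ⟨(C'.G _).sub_mem ((C'.G _).sub_mem hc'
        (h.fG j c hc.1)) (Gcast (C'.dG _ e' he') (by ring)), e3⟩,
        meq (C'.N.add_mem (C'.N.sub_mem e1 (h.fd j c hc.1)) (C'.dd _ e' he')) (by simp only [map_sub, map_add, LinearMap.comp_apply]; abel)⟩⟩

theorem five_quo (a : C.QI C' f s (n + 1)) (b : (C.sub U hU).QI (C'.sub U' hU') f s (n + 1)) :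
    (C.quo U hU hN).QI (C'.quo U' hU' hN') f s n := by
  refine ⟨fun k hk x hx hb => ?_, fun k hk y' hy' => ?_⟩
  · obtain ⟨c', hc', e1⟩ := (mem_quoB hU' hN' (sub_add_cancel _ 1)).1 hb
    have hd := Zcast (d_mem_Z hc') (sub_add_cancel _ 1)
    have g1 := (C'.G _).sub_mem (h.fG k x hx.1) hd.1
    obtain ⟨u, hu, e2⟩ := (mem_subB hU rfl).1 (b.1 (k + 1) (by omega) _ (d_mem_subZ hU hN hx)
      ((mem_subB hU' (n := k + s) (by ring)).2 ⟨_, ⟨g1, e1⟩,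
        meq (C'.N.add_mem (h.fd k x hx.1) hd.2) (by simp only [map_sub, map_add, LinearMap.comp_apply]; abel)⟩))
    have hz : x - u ∈ C.Z k := mem_Z.2 ⟨(C.G k).sub_mem hx.1 hu.1, meq e2 (map_sub _ _ _).symm⟩
    obtain ⟨v, hv, e3⟩ := b.2 k (by omega) (f (x - u) - C'.d c') ((mem_subZ hU').2
      ⟨(C'.Z _).sub_mem (h.mem_Z hz) hd, meq (U'.sub_mem e1 (hf k u hu.1 hu.2)) (by simp only [map_sub, map_add, LinearMap.comp_apply]; abel)⟩)
    obtain ⟨hv1, hv2⟩ := (mem_subZ hU).1 hv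
    have h1 := a.1 k (by omega) (x - u - v) ((C.Z k).sub_mem hz hv1)
      (meq ((C'.B _).add_mem (subB_le hU' e3) (d_mem_B hc' (by ring))) (by simp only [map_sub, map_add, LinearMap.comp_apply]; abel))
    exact meq (Submodule.add_mem _ (B_le_quo hU hN h1) (U_le_quo hU hN (U.add_mem hu.2 hv2)))
      (by abel)
  · obtain ⟨v, hv, e⟩ := b.2 (k + 1) (by omega) _ (Zcast (d_mem_subZ hU' hN' hy') (by ring))
    obtain ⟨hv1, hv2⟩ := (mem_subZ hU).1 hv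
    obtain ⟨u', hu', e1⟩ := (mem_subB hU' (n := k + s) (by ring)).1 e
    obtain ⟨x, hx, e2⟩ := (mem_B' rfl).1 (a.1 (k + 1) (by omega) v hv1
      (meq ((C'.B _).sub_mem (d_mem_B hy'.1 (by ring)) (subB_le hU' e)) (sub_sub_cancel _ _)))
    obtain ⟨z, hz, e3⟩ := a.2 k (by omega) (y' - u' - f x)
      (mem_Z.2 ⟨(C'.G _).sub_mem ((C'.G _).sub_mem hy'.1 hu'.1) (h.fG k x hx),
        meq (C'.N.add_mem (C'.N.add_mem e1 (h.fN _ _ ((C.G _).sub_mem hv1.1 (C.dG k x hx)) e2))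
          (h.fd k x hx)) (by simp only [map_sub]; abel)⟩)
    exact ⟨x + z, Submodule.add_mem _ ((mem_quoZ hU hN).2
      ⟨hx, meq (U.sub_mem hv2 (hN e2)) (sub_sub_cancel _ _)⟩) (Z_le_quo hU hN hz),
      meq (Submodule.add_mem _ (B_le_quo hU' hN' e3) (U_le_quo hU' hN' hu'.2)) (by simp only [map_sub, map_add, LinearMap.comp_apply]; abel)⟩

end les

end Cx

end Pool.Agent.CS
end
end

-- part Pool.Agent.P.MP_d34769_ag.YA2
section

/-! Soft complexes over a compact base. -/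

open Set

noncomputable section
namespace Pool.Agent.CS

theorem Cx.ext_YA2 {T : Type} [AddCommGroup T] [Module ℂ T] {C C' : Cx T} (hd : C.d = C'.d)
    (hG : C.G = C'.G) (hN : C.N = C'.N) : C = C' := by
  cases C
  cases C'
  cases hd
  cases hG
  cases hN
  rfl

/-- exactness of a mapping cone -/
theorem Cx.cone_ac_iff {T T' : Type} [AddCommGroup T] [Module ℂ T] [AddCommGroup T'] [Module ℂ T']
    {C : Cx T} {C' : Cx T'} {f : T →ₗ[ℂ] T'} {s : ℤ} (hf : C.Mor C' f s) (D : Cx (T × T'))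
    (hd : ∀ x y, D.d (x, y) = (C.d x, f x - C'.d y))
    (hG : ∀ k x y, (x, y) ∈ D.G k ↔ x ∈ C.G k ∧ y ∈ C'.G (k - 1 + s))
    (hN : ∀ x y, (x, y) ∈ D.N ↔ x ∈ C.N ∧ y ∈ C'.N) (k : ℤ) :
    D.Ac k ↔ C.Inj C' f s k ∧ C.Sur C' f s (k - 1) := by
  have e1 : k + s - 1 = k - 1 + s := by ring
  have e2 : k - 1 + s - 1 = k - 1 - 1 + s := by ring
  constructor
  · intro h
    constructor
    · intro x hx hb
      obtain ⟨y, hy, e⟩ := Cx.mem_B.1 hb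
      rw [e1] at hy
      have hz : (x, y) ∈ D.Z k := Cx.mem_Z.2 ⟨(hG _ _ _).2 ⟨hx.1, hy⟩, by
        rw [hd]
        exact (hN _ _).2 ⟨hx.2, e⟩⟩
      obtain ⟨⟨b, w⟩, hbw, e'⟩ := Cx.mem_B.1 (h hz)
      rw [hd, Prod.mk_sub_mk] at e'
      exact Cx.mem_B.2 ⟨b, ((hG _ _ _).1 hbw).1, ((hN _ _).1 e').1⟩
    · intro y hy
      have hz : ((0 : T), y) ∈ D.Z k := Cx.mem_Z.2 ⟨(hG _ _ _).2 ⟨zero_mem _, hy.1⟩, by
        rw [hd]
        refine (hN _ _).2 ⟨by simp, ?_⟩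
        rw [map_zero, zero_sub]
        exact neg_mem hy.2⟩
      obtain ⟨⟨b, w⟩, hbw, e'⟩ := Cx.mem_B.1 (h hz)
      rw [hd, Prod.mk_sub_mk] at e'
      obtain ⟨h1, h2⟩ := (hN _ _).1 e'
      obtain ⟨h3, h4⟩ := (hG _ _ _).1 hbw
      refine ⟨b, Cx.mem_Z.2 ⟨h3, ?_⟩, Cx.mem_B.2 ⟨-w, ?_, ?_⟩⟩
      · rw [zero_sub] at h1
        exact neg_mem_iff.1 h1
      · rw [e2]
        exact neg_mem h4
      · have e3 : y - f b - C'.d (-w) = y - (f b - C'.d w) := by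
          rw [map_neg]
          abel
        rw [e3]
        exact h2
  · rintro ⟨hi, hs⟩ ⟨x, y⟩ hz
    obtain ⟨h1, h2⟩ := Cx.mem_Z.1 hz
    rw [hd] at h2
    obtain ⟨hx, hy⟩ := (hG _ _ _).1 h1
    obtain ⟨hdx, hdy⟩ := (hN _ _).1 h2
    obtain ⟨b, hb, e⟩ := Cx.mem_B.1 (hi x ⟨hx, hdx⟩ (Cx.mem_B.2 ⟨y, e1 ▸ hy, hdy⟩))
    have hdb : C.d b ∈ C.G k := by simpa using C.dG _ b hb
    have hz' : y - f b ∈ C'.Z (k - 1 + s) := by
      refine Cx.mem_Z.2 ⟨sub_mem hy (hf.fG _ b hb), ?_⟩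
      have e3 : C'.d (y - f b) =
          f (x - C.d b) + (f (C.d b) - C'.d (f b)) - (f x - C'.d y) := by
        rw [map_sub, map_sub]
        abel
      rw [e3]
      exact sub_mem (add_mem (hf.fN k _ (sub_mem hx hdb) e) (hf.fd _ b hb)) hdy
    obtain ⟨x0, hx0, e'⟩ := hs _ hz'
    obtain ⟨w, hw, e''⟩ := Cx.mem_B.1 e'
    refine Cx.mem_B.2 ⟨(b + x0, -w), (hG _ _ _).2 ⟨add_mem hb hx0.1, neg_mem (e2 ▸ hw)⟩, ?_⟩
    rw [hd, Prod.mk_sub_mk]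
    refine (hN _ _).2 ⟨?_, ?_⟩
    · have e3 : x - C.d (b + x0) = x - C.d b - C.d x0 := by
        rw [map_add]
        abel
      rw [e3]
      exact sub_mem e hx0.2
    · have e3 : y - (f (b + x0) - C'.d (-w)) = y - f b - f x0 - C'.d w := by
        rw [map_add, map_neg]
        abel
      rw [e3]
      exact e''

/-- A soft complex over `B`: `z t` are the elements that vanish near `t`. -/
structure SC (B : Type) [TopologicalSpace B] (T : Type) [AddCommGroup T] [Module ℂ T] where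
  d : Module.End ℂ T
  G : ℤ → Submodule ℂ T
  z : B → Submodule ℂ T
  dG : ∀ n, ∀ x ∈ G n, d x ∈ G (n + 1)
  dz : ∀ t, ∀ x ∈ z t, d x ∈ z t
  dd : ∀ t x, d (d x) ∈ z t
  neg : ∃ n₀, ∀ n < n₀, ∀ x ∈ G n, x = 0
  opn : ∀ x, IsOpen {t | x ∈ z t}
  glue : ∀ K₁ K₂ : Set B, IsClosed K₁ → IsClosed K₂ → ∀ n, ∀ a ∈ G n, (∀ t ∈ K₁ ∩ K₂, a ∈ z t) →
    ∃ c ∈ G n, (∀ t ∈ K₁, c - a ∈ z t) ∧ ∀ t ∈ K₂, c ∈ z t

namespace SC
variable {B B' : Type} [TopologicalSpace B] [TopologicalSpace B'] {T T' : Type} [AddCommGroup T]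
  [Module ℂ T] [AddCommGroup T'] [Module ℂ T'] (S : SC B T) (S' : SC B T')

/-- elements that vanish near `K` -/
def zz (K : Set B) : Submodule ℂ T := ⨅ t ∈ K, S.z t

theorem mem_zz {K : Set B} {x : T} : x ∈ S.zz K ↔ ∀ t ∈ K, x ∈ S.z t := by simp [zz]

/-- sections near `K` that vanish near `A` -/
def cx (K A : Set B) : Cx T where
  d := S.d
  G n := S.G n ⊓ S.zz A
  N := S.zz K
  dG n x hx := ⟨S.dG n x hx.1, S.mem_zz.2 fun t ht => S.dz t x (S.mem_zz.1 hx.2 t ht)⟩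
  dN x hx := S.mem_zz.2 fun t ht => S.dz t x (S.mem_zz.1 hx t ht)
  dd _ x _ := S.mem_zz.2 fun t _ => S.dd t x

/-- a map of soft complexes -/
structure Mor (f : T →ₗ[ℂ] T') (s : ℤ) : Prop where
  fG : ∀ n, ∀ x ∈ S.G n, f x ∈ S'.G (n + s)
  fz : ∀ t, ∀ x ∈ S.z t, f x ∈ S'.z t
  fd : ∀ t x, f (S.d x) - S'.d (f x) ∈ S'.z t

/-- the direct image -/
def push [CompactSpace B] [T2Space B'] (π : C(B, B')) : SC B' T where
  d := S.d
  G := S.G
  z t := S.zz (π ⁻¹' {t})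
  dG := S.dG
  dz t x hx := S.mem_zz.2 fun u hu => S.dz u x (S.mem_zz.1 hx u hu)
  dd _ x := S.mem_zz.2 fun u _ => S.dd u x
  neg := S.neg
  opn x := by
    have h1 : IsClosed (π '' {t | x ∈ S.z t}ᶜ) :=
      ((S.opn x).isClosed_compl.isCompact.image π.continuous).isClosed
    have h2 : {t : B' | x ∈ S.zz (π ⁻¹' {t})} = (π '' {t | x ∈ S.z t}ᶜ)ᶜ := by
      ext t
      simp only [mem_ofPred_eq, mem_zz, mem_compl_iff, mem_image, mem_preimage, mem_singleton_iff]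
      constructor
      · rintro h ⟨u, hu, e⟩
        exact hu (h u e)
      · intro h u e
        by_contra hu
        exact h ⟨u, hu, e⟩
    rw [h2]
    exact h1.isOpen_compl
  glue K₁ K₂ h₁ h₂ n a ha h := by
    obtain ⟨c, hc, e₁, e₂⟩ := S.glue (π ⁻¹' K₁) (π ⁻¹' K₂) (h₁.preimage π.continuous)
      (h₂.preimage π.continuous) n a ha fun u hu => S.mem_zz.1 (h (π u) hu) u rfl
    refine ⟨c, hc, fun t ht => S.mem_zz.2 fun u hu => e₁ u ?_,
      fun t ht => S.mem_zz.2 fun u hu => e₂ u ?_⟩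
    · have e : π u = t := hu
      show π u ∈ K₁
      rwa [e]
    · have e : π u = t := hu
      show π u ∈ K₂
      rwa [e]

theorem push_zz [CompactSpace B] [T2Space B'] (π : C(B, B')) (K : Set B') :
    (S.push π).zz K = S.zz (π ⁻¹' K) := by
  ext x
  rw [mem_zz, mem_zz]
  constructor
  · intro h u hu
    exact S.mem_zz.1 (h (π u) hu) u rfl
  · intro h t ht
    refine S.mem_zz.2 fun u hu => h u ?_
    have e : π u = t := hu
    show π u ∈ K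
    rwa [e]

theorem push_cx [CompactSpace B] [T2Space B'] (π : C(B, B')) (K A : Set B') :
    (S.push π).cx K A = S.cx (π ⁻¹' K) (π ⁻¹' A) := by
  refine Cx.ext_YA2 rfl (funext fun n => ?_) (S.push_zz π K)
  show S.G n ⊓ (S.push π).zz A = S.G n ⊓ S.zz (π ⁻¹' A)
  rw [push_zz]

/-- shifted direct sum of copies -/
def fs (β : Type) (q : β → ℕ) : SC B (β →₀ T) where
  d := Finsupp.mapRange.linearMap S.d
  G n := ⨅ b, (S.G (n - q b)).comap (Finsupp.lapply b)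
  z t := ⨅ b, (S.z t).comap (Finsupp.lapply b)
  dG n x hx := by
    refine (Submodule.mem_iInf _).2 fun b => ?_
    have h := S.dG _ _ ((Submodule.mem_iInf _).1 hx b)
    rw [show n - (q b : ℤ) + 1 = n + 1 - q b by ring] at h
    exact h
  dz t x hx := (Submodule.mem_iInf _).2 fun b => S.dz t _ ((Submodule.mem_iInf _).1 hx b)
  dd t x := (Submodule.mem_iInf _).2 fun b => S.dd t (x b)
  neg := by
    obtain ⟨n₀, h⟩ := S.neg
    refine ⟨n₀, fun n hn x hx => Finsupp.ext fun b => ?_⟩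
    exact h (n - q b) (by omega) (x b) ((Submodule.mem_iInf _).1 hx b)
  opn x := by
    have h : {t | x ∈ ⨅ b, (S.z t).comap (Finsupp.lapply b : (β →₀ T) →ₗ[ℂ] T)} =
        ⋂ b ∈ x.support, {t | x b ∈ S.z t} := by
      ext t
      simp only [mem_ofPred_eq, Submodule.mem_iInf, Submodule.mem_comap, Finsupp.lapply_apply,
        mem_iInter]
      refine ⟨fun h b _ => h b, fun h b => ?_⟩
      by_cases hb : b ∈ x.support
      · exact h b hb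
      · rw [Finsupp.notMem_support_iff.1 hb]
        exact zero_mem _
    rw [h]
    exact isOpen_biInter_finset fun b _ => S.opn (x b)
  glue K₁ K₂ h₁ h₂ n a ha h := by
    have h0 : ∀ b, ∃ c ∈ S.G (n - q b), ((∀ t ∈ K₁, c - a b ∈ S.z t) ∧ ∀ t ∈ K₂, c ∈ S.z t) ∧
        (c ≠ 0 → b ∈ a.support) := by
      intro b
      by_cases hb : b ∈ a.support
      · obtain ⟨c, hc, e⟩ := S.glue K₁ K₂ h₁ h₂ _ (a b) ((Submodule.mem_iInf _).1 ha b)
          fun t ht => (Submodule.mem_iInf _).1 (h t ht) b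
        exact ⟨c, hc, e, fun _ => hb⟩
      · refine ⟨0, zero_mem _, ⟨fun t _ => ?_, fun t _ => zero_mem _⟩, fun e => (e rfl).elim⟩
        rw [Finsupp.notMem_support_iff.1 hb, sub_zero]
        exact zero_mem _
    choose c hc e hs using h0
    exact ⟨Finsupp.onFinset a.support c hs, (Submodule.mem_iInf _).2 hc,
      fun t ht => (Submodule.mem_iInf _).2 fun b => (e b).1 t ht,
      fun t ht => (Submodule.mem_iInf _).2 fun b => (e b).2 t ht⟩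

/-- restriction to a submodule of allowed cochains that is the image of a local projector -/
def cut (p : Module.End ℂ T) (hp : ∀ x, p (p x) = p x) (h : S.Mor S p 0)
    (hd : ∀ x, p (S.d x) = S.d (p x)) : SC B T where
  d := S.d
  G n := S.G n ⊓ LinearMap.range p
  z := S.z
  dG n x hx := by
    obtain ⟨h1, y, rfl⟩ := hx
    exact ⟨S.dG n _ h1, S.d y, hd y⟩
  dz := S.dz
  dd := S.dd
  neg := by
    obtain ⟨n₀, h⟩ := S.neg
    exact ⟨n₀, fun n hn x hx => h n hn x hx.1⟩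
  opn := S.opn
  glue K₁ K₂ h₁ h₂ n a ha e := by
    obtain ⟨h1, y, rfl⟩ := ha
    obtain ⟨c, hc, e₁, e₂⟩ := S.glue K₁ K₂ h₁ h₂ n _ h1 e
    refine ⟨p c, ⟨by simpa using h.fG n c hc, c, rfl⟩, fun t ht => ?_,
      fun t ht => h.fz t c (e₂ t ht)⟩
    have h2 := h.fz t _ (e₁ t ht)
    rwa [map_sub, hp] at h2

/-- the mapping cone -/
def cone (f : T →ₗ[ℂ] T') (s : ℤ) (h : S.Mor S' f s) : SC B (T × T') where
  d := (S.d ∘ₗ LinearMap.fst ℂ T T').prod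
    (f ∘ₗ LinearMap.fst ℂ T T' - S'.d ∘ₗ LinearMap.snd ℂ T T')
  G n := (S.G n).prod (S'.G (n - 1 + s))
  z t := (S.z t).prod (S'.z t)
  dG n x hx := by
    refine ⟨S.dG n _ hx.1, ?_⟩
    have h1 := h.fG n _ hx.1
    have h2 := S'.dG _ _ hx.2
    rw [show n - 1 + s + 1 = n + s by ring] at h2
    rw [show n + 1 - 1 + s = n + s by ring]
    exact sub_mem h1 h2
  dz t x hx := ⟨S.dz t _ hx.1, sub_mem (h.fz t _ hx.1) (S'.dz t _ hx.2)⟩
  dd t x := by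
    refine ⟨S.dd t x.1, ?_⟩
    show f (S.d x.1) - S'.d (f x.1 - S'.d x.2) ∈ S'.z t
    have e : f (S.d x.1) - S'.d (f x.1 - S'.d x.2) =
        f (S.d x.1) - S'.d (f x.1) + S'.d (S'.d x.2) := by
      rw [map_sub]
      abel
    rw [e]
    exact add_mem (h.fd t _) (S'.dd t _)
  neg := by
    obtain ⟨n₀, h0⟩ := S.neg
    obtain ⟨n₁, h1⟩ := S'.neg
    refine ⟨min n₀ (n₁ - s), fun n hn x hx => Prod.ext ?_ ?_⟩
    · exact h0 n (by omega) _ hx.1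
    · exact h1 (n - 1 + s) (by omega) _ hx.2
  opn x := (S.opn x.1).inter (S'.opn x.2)
  glue K₁ K₂ h₁ h₂ n a ha e := by
    obtain ⟨c, hc, e₁, e₂⟩ := S.glue K₁ K₂ h₁ h₂ n a.1 ha.1 fun t ht => (e t ht).1
    obtain ⟨c', hc', e₁', e₂'⟩ := S'.glue K₁ K₂ h₁ h₂ _ a.2 ha.2 fun t ht => (e t ht).2
    exact ⟨(c, c'), ⟨hc, hc'⟩, fun t ht => ⟨e₁ t ht, e₁' t ht⟩, fun t ht => ⟨e₂ t ht, e₂' t ht⟩⟩

variable {S S'} {f : T →ₗ[ℂ] T'} {s n : ℤ} {K A : Set B}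

theorem zz_anti (h : A ⊆ K) : S.zz K ≤ S.zz A :=
  fun _ hx => S.mem_zz.2 fun t ht => S.mem_zz.1 hx t (h ht)

theorem zz_d (K : Set B) : ∀ x ∈ S.zz K, S.d x ∈ S.zz K := (S.cx K ∅).dN

theorem Mor.cx (h : S.Mor S' f s) (K A : Set B) : (S.cx K A).Mor (S'.cx K A) f s :=
  ⟨fun n x hx => ⟨h.fG n x hx.1, S'.mem_zz.2 fun t ht => h.fz t x (S.mem_zz.1 hx.2 t ht)⟩,
    fun _ x _ hx => S'.mem_zz.2 fun t ht => h.fz t x (S.mem_zz.1 hx t ht),
    fun _ x _ => S'.mem_zz.2 fun t _ => h.fd t x⟩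

theorem zz_union (A A' : Set B) : S.zz (A ∪ A') = S.zz A ⊓ S.zz A' := by
  ext x
  rw [Submodule.mem_inf, mem_zz, mem_zz, mem_zz]
  exact ⟨fun h => ⟨fun t ht => h t (Or.inl ht), fun t ht => h t (Or.inr ht)⟩,
    fun h t ht => ht.elim (h.1 t) (h.2 t)⟩

theorem cx_sub (K A A' : Set B) : (S.cx K A).sub (S.zz A') (zz_d A') = S.cx K (A ∪ A') := by
  refine Cx.ext_YA2 rfl (funext fun n => ?_) rfl
  show S.G n ⊓ S.zz A ⊓ S.zz A' = S.G n ⊓ S.zz (A ∪ A')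
  rw [zz_union, inf_assoc]

theorem cx_quo {K' : Set B} (h : K' ⊆ K) (A : Set B) :
    (S.cx K A).quo (S.zz K') (zz_d K') (zz_anti h) = S.cx K' A := rfl

theorem soft_step [CompactSpace B] [T2Space B] (hK : IsClosed K) (hA : IsClosed A) {k : ℤ}
    (h : ∀ t ∈ K \ A, (S.cx {t} ∅).Ac k)
    (ih : ∀ K', IsClosed K' → K' ⊆ K → (S.cx K' A).Ac (k - 1)) : (S.cx K A).Ac k := by
  intro x hx
  obtain ⟨⟨hxG, hxA⟩, hdx⟩ := Cx.mem_Z.1 hx
  have hxA' := S.mem_zz.1 hxA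
  have hdx' := S.mem_zz.1 hdx
  have key : ∃ b ∈ S.G (k - 1), (∀ t ∈ A, b ∈ S.z t) ∧
      ∀ t ∈ closure K ∩ K, x - S.d b ∈ S.z t := by
    refine hK.isCompact.induction_on (p := fun M => ∃ b ∈ S.G (k - 1), (∀ t ∈ A, b ∈ S.z t) ∧
      ∀ t ∈ closure M ∩ K, x - S.d b ∈ S.z t) ?_ ?_ ?_ ?_
    · exact ⟨0, zero_mem _, fun t _ => zero_mem _, by simp⟩
    · rintro M M' hM ⟨b, hb, e1, e2⟩
      exact ⟨b, hb, e1, fun t ht => e2 t ⟨closure_mono hM ht.1, ht.2⟩⟩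
    · rintro M M' ⟨b, hb, e1, e2⟩ ⟨b', hb', e1', e2'⟩
      have c1 : IsClosed (closure M ∩ K) := isClosed_closure.inter hK
      have c2 : IsClosed (closure M' ∩ K) := isClosed_closure.inter hK
      have hz : b - b' ∈ (S.cx ((closure M ∩ K) ∩ (closure M' ∩ K)) A).Z (k - 1) := by
        refine Cx.mem_Z.2 ⟨⟨sub_mem hb hb', S.mem_zz.2 fun t ht => sub_mem (e1 t ht) (e1' t ht)⟩,
          S.mem_zz.2 fun t ht => ?_⟩
        show S.d (b - b') ∈ S.z t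
        have e : S.d (b - b') = (x - S.d b') - (x - S.d b) := by
          rw [map_sub]
          abel
        rw [e]
        exact sub_mem (e2' t ht.2) (e2 t ht.1)
      obtain ⟨u, ⟨hu, huA⟩, e3⟩ := Cx.mem_B.1 (ih _ (c1.inter c2) (fun t ht => ht.1.2) hz)
      have huA' := S.mem_zz.1 huA
      have e3' : ∀ t ∈ (closure M ∩ K) ∩ (closure M' ∩ K), b - b' - S.d u ∈ S.z t := S.mem_zz.1 e3
      have hdu : S.d u ∈ S.G (k - 1) := by simpa using S.dG _ u hu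
      obtain ⟨c, hc, e4, e5⟩ := S.glue (closure M ∩ K) ((closure M' ∩ K) ∪ A) c1 (c2.union hA)
        (k - 1) (b - b' - S.d u) (sub_mem (sub_mem hb hb') hdu) (by
          rintro t ⟨ht, ht' | ht'⟩
          · exact e3' t ⟨ht, ht'⟩
          · exact sub_mem (sub_mem (e1 t ht') (e1' t ht')) (S.dz t u (huA' t ht')))
      refine ⟨b' + S.d u + c, add_mem (add_mem hb' hdu) hc, fun t ht =>
        add_mem (add_mem (e1' t ht) (S.dz t u (huA' t ht))) (e5 t (Or.inr ht)), ?_⟩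
      rintro t ⟨ht, htK⟩
      rw [closure_union] at ht
      rcases ht with ht | ht
      · have e : x - S.d (b' + S.d u + c) = (x - S.d b) - S.d (c - (b - b' - S.d u)) := by
          simp only [map_add, map_sub]
          abel
        rw [e]
        exact sub_mem (e2 t ⟨ht, htK⟩) (S.dz t _ (e4 t ⟨ht, htK⟩))
      · have e : x - S.d (b' + S.d u + c) = (x - S.d b') - S.d (S.d u) - S.d c := by
          simp only [map_add]
          abel
        rw [e]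
        exact sub_mem (sub_mem (e2' t ⟨ht, htK⟩) (S.dd t u)) (S.dz t _ (e5 t (Or.inl ⟨ht, htK⟩)))
    · intro t ht
      by_cases htA : t ∈ A
      · obtain ⟨M, hM, hMc, hMs⟩ := exists_mem_nhds_isClosed_subset
          ((S.opn x).mem_nhds (hxA' t htA))
        refine ⟨M, mem_nhdsWithin_of_mem_nhds hM, 0, zero_mem _, fun t _ => zero_mem _,
          fun u hu => ?_⟩
        rw [map_zero, sub_zero]
        rw [hMc.closure_eq] at hu
        exact hMs hu.1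
      · have hz : x ∈ (S.cx {t} ∅).Z k :=
          Cx.mem_Z.2 ⟨⟨hxG, S.mem_zz.2 fun _ e => e.elim⟩, S.mem_zz.2 fun u hu => by
            rw [mem_singleton_iff.1 hu]
            exact hdx' t ht⟩
        obtain ⟨b, ⟨hb, -⟩, e⟩ := Cx.mem_B.1 (h t ⟨ht, htA⟩ hz)
        have e' : x - S.d b ∈ S.z t := S.mem_zz.1 e t rfl
        obtain ⟨M, hM, hMc, hMs⟩ := exists_mem_nhds_isClosed_subset
          (((S.opn (x - S.d b)).inter hA.isOpen_compl).mem_nhds ⟨e', htA⟩)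
        obtain ⟨c, hc, e4, e5⟩ := S.glue M A hMc hA (k - 1) b hb
          fun u hu => ((hMs hu.1).2 hu.2).elim
        refine ⟨M, mem_nhdsWithin_of_mem_nhds hM, c, hc, e5, fun u hu => ?_⟩
        rw [hMc.closure_eq] at hu
        have e6 : x - S.d c = (x - S.d b) - S.d (c - b) := by
          rw [map_sub]
          abel
        rw [e6]
        exact sub_mem (hMs hu.1).1 (S.dz u _ (e4 u hu.1))
  obtain ⟨b, hb, e1, e2⟩ := key
  exact Cx.mem_B.2 ⟨b, ⟨hb, S.mem_zz.2 e1⟩, S.mem_zz.2 fun t ht => e2 t ⟨subset_closure ht, ht⟩⟩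

/-- stalkwise exact implies exact -/
theorem soft [CompactSpace B] [T2Space B] (hK : IsClosed K) (hA : IsClosed A)
    (h : ∀ t ∈ K \ A, ∀ k ≤ n, (S.cx {t} ∅).Ac k) : ∀ k ≤ n, (S.cx K A).Ac k := by
  obtain ⟨n₀, h0⟩ := S.neg
  have key : ∀ j : ℕ, ∀ k < n₀ + j, k ≤ n → ∀ K', IsClosed K' → K' ⊆ K → (S.cx K' A).Ac k := by
    intro j
    induction j with
    | zero =>
      intro k hk _ K' _ _ x hx
      rw [h0 k (by simpa using hk) x hx.1.1]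
      exact zero_mem _
    | succ j ih =>
      intro k hk hn K' hK' hs
      exact soft_step hK' hA (fun t ht => h t ⟨hs ht.1, ht.2⟩ k hn) fun K'' hK'' hs' =>
        ih (k - 1) (by push_cast at hk; omega) (by omega) K'' hK'' (hs'.trans hs)
  intro k hk
  exact key ((k - n₀).toNat + 1) k (by push_cast; omega) hk K hK Subset.rfl

theorem cone_ac (hf : S.Mor S' f s) (K A : Set B) (k : ℤ) :
    ((S.cone S' f s hf).cx K A).Ac k ↔
      (S.cx K A).Inj (S'.cx K A) f s k ∧ (S.cx K A).Sur (S'.cx K A) f s (k - 1) := by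
  have hz : ∀ (M : Set B) (x : T) (y : T'),
      (x, y) ∈ (S.cone S' f s hf).zz M ↔ x ∈ S.zz M ∧ y ∈ S'.zz M := by
    intro M x y
    rw [mem_zz, mem_zz, mem_zz]
    exact ⟨fun h => ⟨fun t ht => (h t ht).1, fun t ht => (h t ht).2⟩,
      fun h t ht => ⟨h.1 t ht, h.2 t ht⟩⟩
  refine Cx.cone_ac_iff (hf.cx K A) _ (fun _ _ => rfl) (fun k x y => ?_) (hz K) k
  exact ⟨fun h => ⟨⟨h.1.1, ((hz A x y).1 h.2).1⟩, h.1.2, ((hz A x y).1 h.2).2⟩,
    fun h => ⟨⟨h.1.1, h.2.1⟩, (hz A x y).2 ⟨h.1.2, h.2.2⟩⟩⟩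

theorem soft_qi [CompactSpace B] [T2Space B] (hf : S.Mor S' f s) (hK : IsClosed K)
    (hA : IsClosed A) (h : ∀ t ∈ K \ A, (S.cx {t} ∅).QI (S'.cx {t} ∅) f s n) :
    (S.cx K A).QI (S'.cx K A) f s n := by
  have key := soft (S := S.cone S' f s hf) (n := n) hK hA fun t ht k hk =>
    (cone_ac hf _ _ k).2 ⟨(h t ht).1 k hk, (h t ht).2 (k - 1) (by omega)⟩
  refine ⟨fun k hk => ((cone_ac hf K A k).1 (key k hk)).1, fun k hk => ?_⟩
  have h1 := ((cone_ac hf K A (k + 1)).1 (key (k + 1) (by omega))).2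
  rwa [add_sub_cancel_right] at h1

theorem soft_qia [CompactSpace B] [T2Space B] (hf : S.Mor S' f s) (hK : IsClosed K)
    (hA : IsClosed A) (h : ∀ t ∈ K \ A, (S.cx {t} ∅).QIa (S'.cx {t} ∅) f s) :
    (S.cx K A).QIa (S'.cx K A) f s := fun n => soft_qi hf hK hA fun t ht => h t ht n

/-- excision inside one soft complex -/
theorem cx_exc (hK : IsClosed K) (hA : IsClosed A) :
    (S.cx K A).QIa (S.cx K (A ∩ K)) LinearMap.id 0 := by
  refine Cx.qia_iff.2 fun k => ⟨fun x hx hb => ?_, fun y hy => ?_⟩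
  · rw [add_zero] at hb
    obtain ⟨b, ⟨hb, hbA⟩, e⟩ := Cx.mem_B.1 hb
    obtain ⟨c, hc, e1, e2⟩ := S.glue K A hK hA _ b hb
      fun t ht => S.mem_zz.1 hbA t ⟨ht.2, ht.1⟩
    refine Cx.mem_B.2 ⟨c, ⟨hc, S.mem_zz.2 e2⟩, S.mem_zz.2 fun t ht => ?_⟩
    have e3 : x - S.d b ∈ S.z t := S.mem_zz.1 e t ht
    show x - S.d c ∈ S.z t
    have e4 : x - S.d c = (x - S.d b) - S.d (c - b) := by
      rw [map_sub]
      abel
    rw [e4]
    exact sub_mem e3 (S.dz t _ (e1 t ht))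
  · rw [add_zero] at hy
    obtain ⟨⟨hG, hyA⟩, hd⟩ := Cx.mem_Z.1 hy
    obtain ⟨c, hc, e1, e2⟩ := S.glue K A hK hA _ y hG
      fun t ht => S.mem_zz.1 hyA t ⟨ht.2, ht.1⟩
    refine ⟨c, Cx.mem_Z.2 ⟨⟨hc, S.mem_zz.2 e2⟩, S.mem_zz.2 fun t ht => ?_⟩,
      Cx.N_le_B (S.mem_zz.2 fun t ht => ?_)⟩
    · show S.d c ∈ S.z t
      have e3 : S.d y ∈ S.z t := S.mem_zz.1 hd t ht
      have e4 : S.d c = S.d y + S.d (c - y) := by
        rw [map_sub]
        abel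
      rw [e4]
      exact add_mem e3 (S.dz t _ (e1 t ht))
    · show y - c ∈ S.z t
      rw [← neg_sub]
      exact neg_mem (e1 t ht)

end SC

end Pool.Agent.CS
end
end
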