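import Pool.Agent.K.MP_d34769_ag.C23
import Pool.Agent.K.MP_d34769_ag.C24

/-! Total complexes of finite diagrams. -/

open Pool.Agent.HT (BG)

noncomputable section
namespace Pool.Agent.CS

/-- The shape of a diagram: `rel i j` means that there is a map from the space `i` to the space
`j`, and `ε` are the coefficients of the differential. -/
structure Sh where
  ι : Type
  [fin : Fintype ι]
  deg : ι → ℕ
  rel : ι → ι → Prop
  ε : ι → ι → ℤ
  sup : ∀ i j, ε i j ≠ 0 → rel i j ∧ deg i = deg j + 1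
  trans : ∀ {i j k}, rel i j → rel j k → rel i k
  εε : ∀ i k, ∑ j, ε i j * ε j k = 0

attribute [instance] Sh.fin

/-- A map of shapes, from the spaces of `S` to the spaces of `S'`. -/
structure ShH (S S' : Sh) where
  R : S.ι → S'.ι → Prop
  μ : S.ι → S'.ι → ℤ
  sup : ∀ i j, μ i j ≠ 0 → R i j ∧ S.deg i = S'.deg j
  l : ∀ {i i' j}, S.rel i i' → R i' j → R i j
  r : ∀ {i j j'}, R i j → S'.rel j j' → R i j'
  comm : ∀ i j, ∑ i', S.ε i i' * μ i' j = ∑ j', μ i j' * S'.ε j' j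

/-- A contravariant system of graded complexes on a shape. -/
structure Sys (S : Sh) (T : S.ι → Type) [∀ i, AddCommGroup (T i)] [∀ i, Module ℂ (T i)] where
  A : ∀ i, Gc (T i)
  pl : ∀ {i j}, S.rel i j → T j →ₗ[ℂ] T i
  pd : ∀ {i j} (h : S.rel i j) x, pl h ((A j).d x) = (A i).d (pl h x)
  pe : ∀ {i j} (h : S.rel i j) n x, pl h ((A j).e n x) = (A i).e n (pl h x)
  pp : ∀ {i j k} (h : S.rel i j) (h' : S.rel j k) x, pl h (pl h' x) = pl (S.trans h h') x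

open Classical in
/-- the matrix of linear maps with coefficients `μ` -/
def mat {ι κ : Type} [Fintype κ] {T : ι → Type} {T' : κ → Type} [∀ i, AddCommGroup (T i)]
    [∀ i, Module ℂ (T i)] [∀ i, AddCommGroup (T' i)] [∀ i, Module ℂ (T' i)] {R : ι → κ → Prop}
    (μ : ι → κ → ℤ) (g : ∀ {i j}, R i j → T' j →ₗ[ℂ] T i) : (∀ j, T' j) →ₗ[ℂ] ∀ i, T i :=
  LinearMap.pi fun i => ∑ j, if h : R i j then (μ i j : ℂ) • g h ∘ₗ LinearMap.proj j else 0

open Classical in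
theorem mat_apply {ι κ : Type} [Fintype κ] {T : ι → Type} {T' : κ → Type}
    [∀ i, AddCommGroup (T i)] [∀ i, Module ℂ (T i)] [∀ i, AddCommGroup (T' i)]
    [∀ i, Module ℂ (T' i)] {R : ι → κ → Prop} (μ : ι → κ → ℤ)
    (g : ∀ {i j}, R i j → T' j →ₗ[ℂ] T i) (c : ∀ j, T' j) (i : ι) :
    mat μ (@g) c i = ∑ j, if h : R i j then (μ i j : ℂ) • g h (c j) else 0 := by
  simp only [mat, LinearMap.pi_apply, LinearMap.sum_apply]
  refine Finset.sum_congr rfl fun j _ => ?_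
  split_ifs <;> rfl

section mat
variable {ι κ ν : Type} [Fintype κ] [Fintype ν] {T : ι → Type} {T' : κ → Type} {T'' : ν → Type}
  [∀ i, AddCommGroup (T i)] [∀ i, Module ℂ (T i)] [∀ i, AddCommGroup (T' i)]
  [∀ i, Module ℂ (T' i)] [∀ i, AddCommGroup (T'' i)] [∀ i, Module ℂ (T'' i)]
  {R : ι → κ → Prop} {μ : ι → κ → ℤ} {g : ∀ {i j}, R i j → T' j →ₗ[ℂ] T i}

/-- a linear map applied to one coordinate of a matrix map -/
theorem mat_op {T₂ : ι → Type} {T₂' : κ → Type} [∀ i, AddCommGroup (T₂ i)]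
    [∀ i, Module ℂ (T₂ i)] [∀ i, AddCommGroup (T₂' i)] [∀ i, Module ℂ (T₂' i)]
    {g₂ : ∀ {i j}, R i j → T₂' j →ₗ[ℂ] T₂ i} {i : ι} (O : T i →ₗ[ℂ] T₂ i) {c : ∀ j, T' j}
    {c' : ∀ j, T₂' j} (h : ∀ j (r : R i j), μ i j ≠ 0 → O (g r (c j)) = g₂ r (c' j)) :
    O (mat μ (@g) c i) = mat μ (@g₂) c' i := by
  rw [mat_apply, mat_apply, map_sum]
  refine Finset.sum_congr rfl fun j _ => ?_
  split_ifs with r
  · by_cases h0 : μ i j = 0
    · simp [h0]
    · rw [map_smul, h j r h0]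
  · exact map_zero _

theorem mat_mem {i : ι} {U : Submodule ℂ (T i)} {c : ∀ j, T' j}
    (h : ∀ j (r : R i j), μ i j ≠ 0 → g r (c j) ∈ U) : mat μ (@g) c i ∈ U := by
  rw [mat_apply]
  refine U.sum_mem fun j _ => ?_
  split_ifs with r
  · by_cases h0 : μ i j = 0
    · simp [h0]
    · exact U.smul_mem _ (h j r h0)
  · exact U.zero_mem

theorem mat_eq_zero {i : ι} {c : ∀ j, T' j}
    (h : ∀ j (r : R i j), μ i j ≠ 0 → g r (c j) = 0) : mat μ (@g) c i = 0 :=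
  (Submodule.mem_bot ℂ).1 (mat_mem (U := ⊥) h)

/-- the product of two matrix maps -/
theorem mat_mat {R' : κ → ν → Prop} {μ' : κ → ν → ℤ} {g' : ∀ {j k}, R' j k → T'' k →ₗ[ℂ] T' j}
    {R'' : ι → ν → Prop} {g'' : ∀ {i k}, R'' i k → T'' k →ₗ[ℂ] T i}
    (s : ∀ i j, μ i j ≠ 0 → R i j) (s' : ∀ j k, μ' j k ≠ 0 → R' j k)
    (t : ∀ {i j k}, R i j → R' j k → R'' i k)
    (e : ∀ {i j k} (h : R i j) (h' : R' j k) x, g h (g' h' x) = g'' (t h h') x)
    (c : ∀ k, T'' k) :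
    mat μ (@g) (mat μ' (@g') c) = mat (fun i k => ∑ j, μ i j * μ' j k) (@g'') c := by
  classical
  funext i
  have h1 : mat (fun i k => ∑ j, μ i j * μ' j k) (@g'') c i =
      ∑ j, mat (fun i k => μ i j * μ' j k) (@g'') c i := by
    simp only [mat_apply]
    rw [Finset.sum_comm]
    refine Finset.sum_congr rfl fun k _ => ?_
    split_ifs with r
    · rw [← Finset.sum_smul, Int.cast_sum]
    · simp
  rw [h1, mat_apply]
  refine Finset.sum_congr rfl fun j _ => ?_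
  by_cases h0 : μ i j = 0
  · rw [mat_eq_zero (μ := fun i k => μ i j * μ' j k) fun k _ h => (h (by simp [h0])).elim]
    simp [h0]
  rw [dif_pos (s i j h0), mat_apply, mat_apply, map_sum, Finset.smul_sum]
  refine Finset.sum_congr rfl fun k _ => ?_
  by_cases h2 : μ' j k = 0
  · simp [h2]
  · rw [dif_pos (s' j k h2), dif_pos (t (s i j h0) (s' j k h2)), map_smul, e, smul_smul,
      Int.cast_mul]

end mat

variable {S S' : Sh} {T : S.ι → Type} [∀ i, AddCommGroup (T i)] [∀ i, Module ℂ (T i)]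
  {T' : S'.ι → Type} [∀ i, AddCommGroup (T' i)] [∀ i, Module ℂ (T' i)]

namespace Gc
variable {V V' : Type} [AddCommGroup V] [Module ℂ V] [AddCommGroup V'] [Module ℂ V']
  {A : Gc V} {A' : Gc V'}

theorem mem_G {n : ℤ} {x : V} : x ∈ A.G n ↔ ∀ m : ℕ, (m : ℤ) ≠ n → A.e m x = 0 := by simp [G]

theorem ext' {x y : V} (h : ∀ n, A.e n x = A.e n y) : x = y :=
  sub_eq_zero.1 (A.ext _ fun n => by rw [map_sub, h, sub_self])

theorem mem_G_nat {n : ℕ} {x : V} : x ∈ A.G n ↔ A.e n x = x := by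
  rw [mem_G]
  constructor
  · intro h
    refine A.ext' fun m => ?_
    by_cases e : m = n
    · rw [e, A.ee]
    · rw [A.ee' _ _ _ e, h m (by exact_mod_cast e)]
  · intro h m e
    rw [← h, A.ee' _ _ _ (by rintro rfl; exact e rfl)]

theorem G_neg {n : ℤ} (h : n < 0) : A.G n = ⊥ :=
  eq_bot_iff.2 fun x hx => A.ext x fun m => mem_G.1 hx m (by omega)

theorem d_mem_G {n : ℤ} {x : V} (h : x ∈ A.G n) : A.d x ∈ A.G (n + 1) := by
  refine mem_G.2 fun m e => ?_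
  cases m with
  | zero => exact A.ed0 x
  | succ m => rw [A.ed, mem_G.1 h m (by omega), map_zero]

theorem ds (x : V) : A.d (A.s x) = -A.s (A.d x) := by
  refine A.ext' fun m => ?_
  cases m with
  | zero => rw [map_neg, A.es, A.ed0, A.ed0, smul_zero, neg_zero]
  | succ m => rw [map_neg, A.es, A.ed, A.ed, A.es, map_smul, pow_succ, mul_neg_one, neg_smul,
      neg_neg]

theorem ss (x : V) : A.s (A.s x) = x :=
  A.ext' fun m => by rw [A.es, A.es, smul_smul, ← mul_pow, neg_one_mul, neg_neg, one_pow, one_smul]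

theorem se (n : ℕ) (x : V) : A.s (A.e n x) = A.e n (A.s x) := by
  refine A.ext' fun m => ?_
  by_cases e : m = n
  · rw [e, A.es, A.ee, A.ee, A.es]
  · rw [A.es, A.ee' _ _ _ e, A.ee' _ _ _ e, smul_zero]

theorem map_s {f : V →ₗ[ℂ] V'} (h : ∀ n x, f (A.e n x) = A'.e n (f x)) (x : V) :
    f (A.s x) = A'.s (f x) :=
  A'.ext' fun m => by rw [← h, A.es, A'.es, map_smul, h]

/-- the complex with allowed elements `U` and null elements `N` -/
def cx (A : Gc V) (U N : Submodule ℂ V) (hU : ∀ x ∈ U, A.d x ∈ U) (hN : ∀ x ∈ N, A.d x ∈ N) :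
    Cx V where
  d := A.d
  G n := A.G n ⊓ U
  N := N
  dG _ x hx := ⟨d_mem_G hx.1, hU x hx.2⟩
  dN := hN
  dd _ x _ := by rw [A.dd]; exact N.zero_mem

end Gc

/-- the total double complex -/
def Sys.bg (Y : Sys S T) : BG (∀ i, T i) where
  d := LinearMap.pi fun i => (Y.A i).d ∘ₗ LinearMap.proj i
  δ := LinearMap.pi (fun i => (Y.A i).s ∘ₗ LinearMap.proj i) ∘ₗ mat S.ε (@Y.pl)
  e p n := LinearMap.pi fun i => if S.deg i = p then (Y.A i).e n ∘ₗ LinearMap.proj i else 0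
  ee p n x := funext fun i => by
    by_cases h : S.deg i = p <;> simp [h, (Y.A i).ee]
  ee' p n p' n' x e := funext fun i => by
    by_cases h : S.deg i = p
    · by_cases h' : p = p'
      · subst h'
        simp [h, (Y.A i).ee' n n' _ fun h => e ⟨rfl, h⟩]
      · simp [h, h']
    · simp [h]
  ext x h := funext fun i => (Y.A i).ext _ fun n => by
    simpa using congrFun (h (S.deg i) n) i
  ed p n x := funext fun i => by
    by_cases h : S.deg i = p <;> simp [h, (Y.A i).ed]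
  ed0 p x := funext fun i => by
    by_cases h : S.deg i = p <;> simp [h, (Y.A i).ed0]
  eδ p n x := funext fun i => by
    simp only [LinearMap.pi_apply, LinearMap.comp_apply, LinearMap.proj_apply]
    split_ifs with h
    · simp only [LinearMap.pi_apply, LinearMap.comp_apply, LinearMap.proj_apply]
      rw [← Gc.se]
      refine congrArg _ (mat_op ((Y.A i).e n) fun j r h0 => ?_)
      have : S.deg j = p := by have := (S.sup i j h0).2; omega
      simp [this, Y.pe]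
    · rw [mat_eq_zero, map_zero, LinearMap.zero_apply]
      intro j r h0
      have : S.deg j ≠ p := by have := (S.sup i j h0).2; omega
      simp [this]
  eδ0 n x := funext fun i => by
    simp only [LinearMap.pi_apply, Pi.zero_apply]
    split_ifs with h
    · simp only [LinearMap.pi_apply, LinearMap.comp_apply, LinearMap.proj_apply]
      rw [mat_eq_zero, map_zero, map_zero]
      intro j r h0
      have := (S.sup i j h0).2
      omega
    · rfl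
  dd x := funext fun i => (Y.A i).dd _
  δδ x := funext fun i => by
    have h1 : (Y.A i).s (mat S.ε (@Y.pl) (fun j => (Y.A j).s (mat S.ε (@Y.pl) x j)) i) =
        mat S.ε (@Y.pl) (mat S.ε (@Y.pl) x) i :=
      mat_op (Y.A i).s fun j r _ => by
        rw [← Gc.map_s (Y.pe r), Gc.ss]
    refine h1.trans ?_
    rw [mat_mat (g'' := @Y.pl) (fun i j h => (S.sup i j h).1) (fun i j h => (S.sup i j h).1)
      S.trans Y.pp]
    exact mat_eq_zero fun k _ h => (h (S.εε i k)).elim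
  dδ x := funext fun i => by
    have h1 : (Y.A i).d (mat S.ε (@Y.pl) x i) =
        mat S.ε (@Y.pl) (fun j => (Y.A j).d (x j)) i :=
      mat_op (Y.A i).d fun j r _ => (Y.pd r _).symm
    exact (Gc.ds _).trans (congrArg (fun y => -(Y.A i).s y) h1)

theorem Sys.bg_d (Y : Sys S T) (c : ∀ i, T i) (i : S.ι) : Y.bg.d c i = (Y.A i).d (c i) := rfl

theorem Sys.bg_δ (Y : Sys S T) (c : ∀ i, T i) (i : S.ι) :
    Y.bg.δ c i = (Y.A i).s (mat S.ε (@Y.pl) c i) := rfl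

theorem Sys.bg_e (Y : Sys S T) (p n : ℕ) (c : ∀ i, T i) (i : S.ι) :
    Y.bg.e p n c i = if S.deg i = p then (Y.A i).e n (c i) else 0 := by
  simp only [Sys.bg, LinearMap.pi_apply]
  split_ifs <;> rfl

/-- a family of submodules that is stable under all operations -/
structure Sys.Stab (Y : Sys S T) (U : ∀ i, Submodule ℂ (T i)) : Prop where
  d : ∀ i, ∀ x ∈ U i, (Y.A i).d x ∈ U i
  e : ∀ i n, ∀ x ∈ U i, (Y.A i).e n x ∈ U i
  s : ∀ i, ∀ x ∈ U i, (Y.A i).s x ∈ U i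
  pl : ∀ {i j} (h : S.rel i j), ∀ x ∈ U j, Y.pl h x ∈ U i

theorem Sys.Stab.bg_e {Y : Sys S T} {U : ∀ i, Submodule ℂ (T i)} (hU : Y.Stab U) (p n : ℕ) :
    ∀ x ∈ Submodule.pi Set.univ U, Y.bg.e p n x ∈ Submodule.pi Set.univ U := fun x hx i _ => by
  rw [Sys.bg_e]
  split_ifs
  · exact hU.e i n _ (hx i trivial)
  · exact (U i).zero_mem

theorem Sys.Stab.bg_d {Y : Sys S T} {U : ∀ i, Submodule ℂ (T i)} (hU : Y.Stab U) :
    ∀ x ∈ Submodule.pi Set.univ U, Y.bg.d x ∈ Submodule.pi Set.univ U :=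
  fun _ hx i _ => hU.d i _ (hx i trivial)

theorem Sys.Stab.bg_δ {Y : Sys S T} {U : ∀ i, Submodule ℂ (T i)} (hU : Y.Stab U) :
    ∀ x ∈ Submodule.pi Set.univ U, Y.bg.δ x ∈ Submodule.pi Set.univ U :=
  fun _ hx i _ => hU.s i _ (mat_mem fun j r _ => hU.pl r _ (hx j trivial))

/-- the total double complex with allowed and null elements -/
def Sys.bc (Y : Sys S T) {U N : ∀ i, Submodule ℂ (T i)} (hU : Y.Stab U) (hN : Y.Stab N) :
    Bc (∀ i, T i) :=
  { Y.bg with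
    U := Submodule.pi Set.univ U
    N := Submodule.pi Set.univ N
    eU := hU.bg_e
    dU := hU.bg_d
    δU := hU.bg_δ
    eN := hN.bg_e
    dN := hN.bg_d
    δN := hN.bg_δ }

section col
variable {Y : Sys S T} {U N : ∀ i, Submodule ℂ (T i)} (hU : Y.Stab U) (hN : Y.Stab N) {p : ℕ}
  {n : ℤ} {c : ∀ i, T i}

theorem Sys.mem_col_G : c ∈ ((Y.bc hU hN).col p).G n ↔
    ∀ i, (S.deg i = p → c i ∈ ((Y.A i).cx _ _ (hU.d i) (hN.d i)).G n) ∧
      (S.deg i ≠ p → c i = 0) := by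
  have h1 : c ∈ ((Y.bc hU hN).col p).G n ↔ c ∈ rowZ Y.bg p n ∧ ∀ i, c i ∈ U i :=
    and_congr Iff.rfl ⟨fun h i => h i trivial, fun h i _ => h i⟩
  rw [h1, mem_rowZ]
  constructor
  · rintro ⟨h, hc⟩ i
    have h2 : ∀ q : ℕ, ¬(S.deg i = p ∧ (q : ℤ) = n) → (Y.A i).e q (c i) = 0 := fun q hq => by
      simpa [Sys.bg_e] using congrFun (h (S.deg i) q hq) i
    exact ⟨fun _ => ⟨Gc.mem_G.2 fun q hq => h2 q fun h => hq h.2, hc i⟩,
      fun e => (Y.A i).ext _ fun q => h2 q fun h => e h.1⟩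
  · intro h
    refine ⟨fun p' q hq => funext fun i => ?_, fun i => ?_⟩
    · rw [Sys.bg_e]
      split_ifs with e
      · by_cases e' : S.deg i = p
        · exact Gc.mem_G.1 ((h i).1 e').1 q fun h => hq ⟨e.symm.trans e', h⟩
        · rw [(h i).2 e', map_zero]; rfl
      · rfl
    · by_cases e' : S.deg i = p
      · exact ((h i).1 e').2
      · rw [(h i).2 e']; exact (U i).zero_mem

theorem Sys.mem_col_Z : c ∈ ((Y.bc hU hN).col p).Z n ↔
    ∀ i, (S.deg i = p → c i ∈ ((Y.A i).cx _ _ (hU.d i) (hN.d i)).Z n) ∧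
      (S.deg i ≠ p → c i = 0) := by
  rw [Cx.mem_Z, Sys.mem_col_G]
  constructor
  · rintro ⟨h, hd⟩ i
    exact ⟨fun e => ⟨(h i).1 e, hd i trivial⟩, (h i).2⟩
  · intro h
    refine ⟨fun i => ⟨fun e => ((h i).1 e).1, (h i).2⟩, fun i _ => ?_⟩
    by_cases e : S.deg i = p
    · exact ((h i).1 e).2
    · exact hN.d i (c i) (by rw [(h i).2 e]; exact (N i).zero_mem)

theorem Sys.mem_col_B : c ∈ ((Y.bc hU hN).col p).B n ↔
    ∀ i, (S.deg i = p → c i ∈ ((Y.A i).cx _ _ (hU.d i) (hN.d i)).B n) ∧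
      (S.deg i ≠ p → c i ∈ N i) := by
  rw [Cx.mem_B]
  constructor
  · rintro ⟨b, hb, h⟩ i
    rw [Sys.mem_col_G] at hb
    have h1 : c i - (Y.A i).d (b i) ∈ N i := h i trivial
    refine ⟨fun e => Cx.mem_B.2 ⟨b i, (hb i).1 e, h1⟩, fun e => ?_⟩
    rwa [(hb i).2 e, map_zero, sub_zero] at h1
  · intro h
    have h1 : ∀ i, ∃ b : T i, ((S.deg i = p → b ∈ ((Y.A i).cx _ _ (hU.d i) (hN.d i)).G (n - 1)) ∧
        (S.deg i ≠ p → b = 0)) ∧ c i - (Y.A i).d b ∈ N i := fun i => by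
      by_cases e : S.deg i = p
      · obtain ⟨b, hb, h2⟩ := Cx.mem_B.1 ((h i).1 e)
        exact ⟨b, ⟨fun _ => hb, fun h => (h e).elim⟩, h2⟩
      · exact ⟨0, ⟨fun h => (e h).elim, fun _ => rfl⟩, by simpa using (h i).2 e⟩
    choose b hb h2 using h1
    exact ⟨b, (Sys.mem_col_G hU hN).2 hb, fun i _ => h2 i⟩

theorem Sys.mem_cx_G : c ∈ (Y.bc hU hN).cx.G n ↔
    ∀ i, c i ∈ ((Y.A i).cx _ _ (hU.d i) (hN.d i)).G (n - S.deg i) := by
  have h1 : c ∈ (Y.bc hU hN).cx.G n ↔ c ∈ degZ Y.bg n ∧ ∀ i, c i ∈ U i :=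
    and_congr Iff.rfl ⟨fun h i => h i trivial, fun h i _ => h i⟩
  rw [h1, mem_degZ]
  constructor
  · rintro ⟨h, hc⟩ i
    refine ⟨Gc.mem_G.2 fun q hq => ?_, hc i⟩
    simpa [Sys.bg_e] using congrFun (h (S.deg i) q (by omega)) i
  · intro h
    refine ⟨fun p q hq => funext fun i => ?_, fun i => (h i).2⟩
    rw [Sys.bg_e]
    split_ifs with e
    · exact Gc.mem_G.1 (h i).1 q (by omega)
    · rfl

theorem Sys.mem_Col {k : ℕ} : c ∈ Y.bg.Col k ↔ ∀ i, S.deg i < k → c i = 0 := by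
  rw [BG.mem_Col]
  constructor
  · intro h i hi
    refine (Y.A i).ext _ fun q => ?_
    simpa [Sys.bg_e] using congrFun (h (S.deg i) hi q) i
  · intro h p hp q
    funext i
    rw [Sys.bg_e]
    split_ifs with e
    · rw [h i (by omega), map_zero]; rfl
    · rfl

end col

/-- A map of systems over a map of shapes (contravariant). -/
structure SysH (φ : ShH S S') (Y : Sys S T) (Y' : Sys S' T') where
  g : ∀ {i j}, φ.R i j → T' j →ₗ[ℂ] T i
  gd : ∀ {i j} (h : φ.R i j) x, g h ((Y'.A j).d x) = (Y.A i).d (g h x)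
  ge : ∀ {i j} (h : φ.R i j) n x, g h ((Y'.A j).e n x) = (Y.A i).e n (g h x)
  gl : ∀ {i i' j} (h : S.rel i i') (h' : φ.R i' j) x, Y.pl h (g h' x) = g (φ.l h h') x
  gr : ∀ {i j j'} (h : φ.R i j) (h' : S'.rel j j') x, g h (Y'.pl h' x) = g (φ.r h h') x

namespace SysH
variable {φ : ShH S S'} {Y : Sys S T} {Y' : Sys S' T'} (F : SysH φ Y Y')

/-- the map on total complexes -/
def map : (∀ j, T' j) →ₗ[ℂ] ∀ i, T i := mat φ.μ (@F.g)

theorem map_d (c : ∀ j, T' j) : F.map (Y'.bg.d c) = Y.bg.d (F.map c) :=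
  funext fun i => (mat_op (Y.A i).d fun _ r _ => (F.gd r _).symm).symm

theorem map_δ (c : ∀ j, T' j) : F.map (Y'.bg.δ c) = Y.bg.δ (F.map c) := by
  funext i
  have h1 : (Y.A i).s (F.map (mat S'.ε (@Y'.pl) c) i) = F.map (Y'.bg.δ c) i :=
    mat_op (Y.A i).s fun j r _ => (Gc.map_s (F.ge r) _).symm
  rw [← h1, Sys.bg_δ, map,
    mat_mat (g'' := @F.g) (fun i j h => (φ.sup i j h).1) (fun i j h => (S'.sup i j h).1) φ.r F.gr,
    mat_mat (g'' := @F.g) (fun i j h => (S.sup i j h).1) (fun i j h => (φ.sup i j h).1) φ.l F.gl]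
  simp only [φ.comm]

theorem map_e (p n : ℕ) (c : ∀ j, T' j) : F.map (Y'.bg.e p n c) = Y.bg.e p n (F.map c) := by
  funext i
  rw [Sys.bg_e]
  split_ifs with e
  · refine (mat_op ((Y.A i).e n) fun j r h => ?_).symm
    rw [Sys.bg_e, if_pos ((φ.sup i j h).2.symm.trans e), F.ge]
  · refine mat_eq_zero fun j r h => ?_
    rw [Sys.bg_e, if_neg fun e' => e ((φ.sup i j h).2.trans e'), map_zero]

theorem mor {U N : ∀ i, Submodule ℂ (T i)} (hU : Y.Stab U) (hN : Y.Stab N)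
    {U' N' : ∀ i, Submodule ℂ (T' i)} (hU' : Y'.Stab U') (hN' : Y'.Stab N')
    (gU : ∀ {i j} (h : φ.R i j), φ.μ i j ≠ 0 → ∀ x ∈ U' j, F.g h x ∈ U i)
    (gN : ∀ {i j} (h : φ.R i j), φ.μ i j ≠ 0 → ∀ x ∈ U' j, x ∈ N' j → F.g h x ∈ N i) :
    (Y'.bc hU' hN').Mor (Y.bc hU hN) F.map 0 where
  fG p n x hx := by
    refine ⟨mem_rowZ.2 fun p' q hq => ?_, fun i _ => mat_mem fun j r h => gU r h _ (hx.2 j trivial)⟩
    have h1 : Y'.bg.e p' q x = 0 := mem_rowZ.1 hx.1 p' q (by simpa using hq)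
    exact (F.map_e p' q x).symm.trans (by rw [h1, map_zero])
  fN x hx hx' i _ := mat_mem fun j r h => gN r h _ (hx j trivial) (hx' j trivial)
  fd x _ := by
    have h1 : F.map (Y'.bg.d x) - Y.bg.d (F.map x) = 0 := sub_eq_zero.2 (F.map_d x)
    exact h1 ▸ Submodule.zero_mem _
  fδ x _ := by
    have h1 : F.map (Y'.bg.δ x) - Y.bg.δ (F.map x) = 0 := sub_eq_zero.2 (F.map_δ x)
    exact h1 ▸ Submodule.zero_mem _

end SysH

/-- a diagonal family of quasi-isomorphisms is one on every column -/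
theorem Sys.col_qi {T₂ : S.ι → Type} [∀ i, AddCommGroup (T₂ i)] [∀ i, Module ℂ (T₂ i)]
    {Y : Sys S T} {Y₂ : Sys S T₂} {U N : ∀ i, Submodule ℂ (T i)} (hU : Y.Stab U) (hN : Y.Stab N)
    {U₂ N₂ : ∀ i, Submodule ℂ (T₂ i)} (hU₂ : Y₂.Stab U₂) (hN₂ : Y₂.Stab N₂)
    (g : ∀ i, T i →ₗ[ℂ] T₂ i) {s k : ℤ} (p : ℕ)
    (q : ∀ i, S.deg i = p → ((Y.A i).cx _ _ (hU.d i) (hN.d i)).QI
      ((Y₂.A i).cx _ _ (hU₂.d i) (hN₂.d i)) (g i) s k) :
    ((Y.bc hU hN).col p).QI ((Y₂.bc hU₂ hN₂).col p) (LinearMap.piMap g) s k := by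
  refine ⟨fun m hm x hx hb => ?_, fun m hm y hy => ?_⟩
  · rw [Sys.mem_col_Z] at hx
    rw [Sys.mem_col_B] at hb ⊢
    refine fun i => ⟨fun e => (q i e).1 m hm _ ((hx i).1 e) ((hb i).1 e), fun e => ?_⟩
    rw [(hx i).2 e]
    exact (N i).zero_mem
  · rw [Sys.mem_col_Z] at hy
    have h1 : ∀ i, ∃ x : T i, ((S.deg i = p → x ∈ ((Y.A i).cx _ _ (hU.d i) (hN.d i)).Z m) ∧
        (S.deg i ≠ p → x = 0)) ∧ (S.deg i = p →
          y i - g i x ∈ ((Y₂.A i).cx _ _ (hU₂.d i) (hN₂.d i)).B (m + s)) ∧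
        (S.deg i ≠ p → y i - g i x ∈ N₂ i) := fun i => by
      by_cases e : S.deg i = p
      · obtain ⟨x, hx, h2⟩ := (q i e).2 m hm _ ((hy i).1 e)
        exact ⟨x, ⟨fun _ => hx, fun h => (h e).elim⟩, fun _ => h2, fun h => (h e).elim⟩
      · exact ⟨0, ⟨fun h => (e h).elim, fun _ => rfl⟩, fun h => (e h).elim,
          fun _ => by simp [(hy i).2 e]⟩
    choose x hx h2 using h1
    exact ⟨x, (Sys.mem_col_Z hU hN).2 hx, (Sys.mem_col_B hU₂ hN₂).2 h2⟩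

/-- a diagonal map of systems (even row shift) -/
theorem Sys.mor_diag {T₂ : S.ι → Type} [∀ i, AddCommGroup (T₂ i)] [∀ i, Module ℂ (T₂ i)]
    {Y : Sys S T} {Y₂ : Sys S T₂} {U N : ∀ i, Submodule ℂ (T i)} (hU : Y.Stab U) (hN : Y.Stab N)
    {U₂ N₂ : ∀ i, Submodule ℂ (T₂ i)} (hU₂ : Y₂.Stab U₂) (hN₂ : Y₂.Stab N₂)
    (g : ∀ i, T i →ₗ[ℂ] T₂ i) {s : ℤ}
    (gG : ∀ i n, ∀ x ∈ (Y.A i).G n, x ∈ U i → g i x ∈ (Y₂.A i).G (n + s) ∧ g i x ∈ U₂ i)
    (gN : ∀ i, ∀ x ∈ U i, x ∈ N i → g i x ∈ N₂ i)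
    (gd : ∀ i, ∀ x ∈ U i, g i ((Y.A i).d x) - (Y₂.A i).d (g i x) ∈ N₂ i)
    (gs : ∀ i x, g i ((Y.A i).s x) = (Y₂.A i).s (g i x))
    (gp : ∀ {i j} (h : S.rel i j) x, g i (Y.pl h x) = Y₂.pl h (g j x)) :
    (Y.bc hU hN).Mor (Y₂.bc hU₂ hN₂) (LinearMap.piMap g) s where
  fG p n x hx := by
    rw [Sys.mem_col_G] at hx ⊢
    refine fun i => ⟨fun e => gG i n _ ((hx i).1 e).1 ((hx i).1 e).2, fun e => ?_⟩
    exact (congrArg (g i) ((hx i).2 e)).trans (map_zero _)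
  fN x hx hx' i _ := gN i _ (hx i trivial) (hx' i trivial)
  fd x hx i _ := gd i _ (hx i trivial)
  fδ x _ i _ := by
    have h1 : g i (mat S.ε (@Y.pl) x i) = mat S.ε (@Y₂.pl) (LinearMap.piMap g x) i :=
      mat_op (g i) fun j r _ => gp r _
    have h2 : g i (Y.bg.δ x i) - Y₂.bg.δ (LinearMap.piMap g x) i = 0 := by
      rw [Sys.bg_δ, Sys.bg_δ, gs, h1, sub_self]
    exact (congrArg (· ∈ N₂ i) h2).mpr (N₂ i).zero_mem

end Pool.Agent.CS
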