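import Pool.Agent.P.MP_65ad7c_ag.XI1
import Pool.Agent.P.MP_65ad7c_ag.XG8
import Pool.Agent.P.MP_65ad7c_ag.VPrime
import Pool.Agent.P.MP_65ad7c_ag.VRat
import Pool.Agent.P.MP_65ad7c_ag.LDenC
import Pool.Agent.P.MP_65ad7c_ag.XG2
import Pool.Agent.P.MP_65ad7c_ag.XI4
import Pool.Agent.P.MP_65ad7c_ag.XG6

-- part Pool.Agent.P.MP_d34769_ag.YD0
section

/-! Projective algebraic sets, relations, maps and modifications (not in any statement). -/

open Set Filter Topology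
open Pool.Agent.HT (Amb proj)
open Pool.Agent.PWV (ZC ZI Dim)
open Pool.Agent.HIR (Prj Mf HolP tens ptr)

noncomputable section
namespace Pool.Agent.CS

variable {M N K : ℕ}

/-- The cone over a subset of projective space. -/
def cn (X : Set (Amb M)) : Set (Fin M → ℂ) := {v | v ≠ 0 ∧ proj v ∈ X}

/-- Projective algebraic sets. -/
def PA (X : Set (Amb M)) : Prop :=
  X ⊆ Prj M ∧ ∃ V, ZC V ∧ ∀ v, v ≠ 0 → (proj v ∈ X ↔ v ∈ V)

/-- Dimension less than `k`. -/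
def Dm (X : Set (Amb M)) (k : ℕ) : Prop := Dim (cn X) (k + 1)

/-- Irreducible projective algebraic sets. -/
structure Irr (X : Set (Amb M)) : Prop where
  pa : PA X
  ne : X.Nonempty
  irr : ∀ A B, PA A → PA B → X ⊆ A ∪ B → X ⊆ A ∨ X ⊆ B

/-- Algebraic relations. -/
def AR (R : Amb M → Amb N → Prop) : Prop :=
  (∀ x y, R x y → x ∈ Prj M ∧ y ∈ Prj N) ∧ ∃ V : Set (Fin M ⊕ Fin N → ℂ), ZC V ∧
    ∀ v w, v ≠ 0 → w ≠ 0 → (R (proj v) (proj w) ↔ Sum.elim v w ∈ V)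

/-- Continuous maps with an algebraic graph. -/
structure AG (X : Set (Amb M)) (f : Amb M → Amb N) : Prop where
  cont : ContinuousOn f X
  ar : AR fun x y => x ∈ X ∧ f x = y

/-- `g` preserves holomorphic maps into `A`. -/
def HP (A : Set (Amb M)) (g : Amb M → Amb N) : Prop :=
  ∀ (e K : ℕ) (Y : Set (Amb K)) (ph : Amb K → Amb M), Mf e Y → HolP e Y ph → MapsTo ph Y A →
    HolP e Y (g ∘ ph)

/-- Modifications. -/
structure Mod (A' : Set (Amb M)) (A : Set (Amb N)) (π : Amb M → Amb N) : Prop where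
  irr' : Irr A'
  irr : Irr A
  ag : AG A' π
  hp : HP A' π
  im : π '' A' = A
  inj : ∃ S, PA S ∧ ¬ A ⊆ S ∧ InjOn π (A' \ π ⁻¹' S)

/-- The Segre map. -/
def seg (x : Amb M) (y : Amb N) : Amb (M * N) :=
  WithLp.toLp 2 fun p => x ((finProdFinEquiv.symm p.1).1, (finProdFinEquiv.symm p.2).1) *
    y ((finProdFinEquiv.symm p.1).2, (finProdFinEquiv.symm p.2).2)

/-- The second partial trace. -/
def ptr2 (M N : ℕ) (x : Amb (M * N)) : Amb N :=
  WithLp.toLp 2 fun p => ∑ i, x (finProdFinEquiv (i, p.1), finProdFinEquiv (i, p.2))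

/-- The image of a relation under the Segre map. -/
def Sgr (R : Amb M → Amb N → Prop) : Set (Amb (M * N)) := {s | ∃ x y, R x y ∧ s = seg x y}

/-- Diagrams of projective algebraic sets. -/
structure Dia (ι : Type) [Preorder ι] where
  M : ι → ℕ
  X : ∀ i, Set (Amb (M i))
  f : ∀ i j, Amb (M i) → Amb (M j)
  ag : ∀ i j, i ≤ j → AG (X i) (f i j)
  maps : ∀ i j, i ≤ j → MapsTo (f i j) (X i) (X j)
  id : ∀ i, ∀ x ∈ X i, f i i x = x
  comp : ∀ i j k, i ≤ j → j ≤ k → ∀ x ∈ X i, f j k (f i j x) = f i k x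

end Pool.Agent.CS
end
end

-- part Pool.Agent.P.MP_d34769_ag.YD1
section

/-! Images of affine algebraic sets. -/

open Set Filter Topology
open Pool.Agent.HT (Amb proj cj)
open Pool.Agent.PWV (ZC ZI Dim zcl pm)
open Pool.Agent.HIR

noncomputable section
namespace Pool.Agent.CS

open MvPolynomial

variable {σ τ : Type} [Finite σ] [Finite τ] {p : Ideal (MvPolynomial σ ℂ)}
  {h δ : MvPolynomial σ ℂ} {V : Set (σ → ℂ)}

theorem yd1_nz (hp : p.IsPrime) (hh : h ∉ p) : ∃ x ∈ ZI p, eval x h ≠ 0 := by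
  by_contra hc
  push Not at hc
  exact hh (PWV.null hp hc)

omit [Finite σ] [Finite τ] in
theorem yd1_pm (G : τ → MvPolynomial σ ℂ) (x : σ → ℂ) (f : MvPolynomial τ ℂ) :
    eval (pm G x) f = eval x (aeval G f) := (PWV.vdim_subst x G f).symm

theorem chev (hp : p.IsPrime) (hh : h ∉ p) (G : τ → MvPolynomial σ ℂ) :
    ∃ δ ∉ p.comap (aeval G : MvPolynomial τ ℂ →ₐ[ℂ] _).toRingHom,
      ∀ y ∈ ZI (p.comap (aeval G : MvPolynomial τ ℂ →ₐ[ℂ] _).toRingHom), eval y δ ≠ 0 →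
        ∃ x ∈ ZI p, eval x h ≠ 0 ∧ pm G x = y := by
  set φ := (aeval G : MvPolynomial τ ℂ →ₐ[ℂ] MvPolynomial σ ℂ).toRingHom with hφ
  have h1 : φ.FinitePresentation := by
    refine RingHom.FinitePresentation.of_finiteType.1
      (RingHom.FiniteType.of_comp_finiteType (f := algebraMap ℂ _) ?_)
    have e : φ.comp (algebraMap ℂ _) = algebraMap ℂ _ := RingHom.ext fun c => by simp [hφ]
    rw [e]
    exact RingHom.finiteType_algebraMap.2 inferInstance
  obtain ⟨n, g, hg⟩ := Submodule.fg_iff_exists_fin_generating_family.1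
    (IsNoetherian.noetherian p)
  have hm : ∀ P : PrimeSpectrum (MvPolynomial σ ℂ),
      P ∈ PrimeSpectrum.ConstructibleSetData.toSet {⟨h, n, g⟩} ↔ p ≤ P.asIdeal ∧ h ∉ P.asIdeal := by
    intro P
    simp only [PrimeSpectrum.ConstructibleSetData.toSet, Finset.mem_singleton,
      PrimeSpectrum.BasicConstructibleSetData.toSet, iUnion_iUnion_eq_left, Set.mem_sdiff,
      PrimeSpectrum.mem_zeroLocus, singleton_subset_iff, SetLike.mem_coe]
    rw [← hg, Submodule.span_le]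
  obtain ⟨T, hT⟩ := PrimeSpectrum.exists_constructibleSetData_iff.2
    (PrimeSpectrum.isConstructible_comap_image h1
      (PrimeSpectrum.ConstructibleSetData.isConstructible_toSet {⟨h, n, g⟩}))
  have h2 : PrimeSpectrum.comap φ ⟨p, hp⟩ ∈ T.toSet := hT ▸ ⟨_, (hm _).2 ⟨le_rfl, hh⟩, rfl⟩
  obtain ⟨B, hC, h3, h4⟩ := mem_iUnion₂.1 h2
  refine ⟨B.f, fun k => h4 (singleton_subset_iff.2 k), fun y hy hδ => ?_⟩
  have h5 : (⟨RingHom.ker (eval y), RingHom.ker_isPrime _⟩ : PrimeSpectrum _) ∈ T.toSet :=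
    mem_iUnion₂.2 ⟨B, hC, fun f hf => hy f (h3 hf), fun k => hδ (k (mem_singleton _))⟩
  rw [hT] at h5
  obtain ⟨P, hP, e⟩ := h5
  obtain ⟨x, hx, hx'⟩ := yd1_nz P.2 ((hm P).1 hP).2
  refine ⟨x, fun f hf => hx f (((hm P).1 hP).1 hf), hx', _root_.funext fun i => ?_⟩
  have h6 : X i - C (y i) ∈ (PrimeSpectrum.comap φ P).asIdeal := by
    rw [e]
    simp [RingHom.mem_ker]
  have h7 := hx _ h6
  simpa [hφ, pm, sub_eq_zero] using h7

theorem dens (hp : p.IsPrime) (hδ : δ ∉ p) : ZI p ⊆ closure (ZI p ∩ {x | eval x δ ≠ 0}) := by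
  intro x hx
  let φ : (MvPolynomial σ ℂ ⧸ p) →ₐ[ℂ] ℂ := Ideal.Quotient.liftₐ p (aeval x) fun f hf => hx f hf
  obtain ⟨U, ψ, h1, h2⟩ := PW.L.dens_red _ (Ideal.Quotient.mk p δ) φ fun o ho => by
    rw [(mul_eq_zero.1 ho).resolve_right (mt Ideal.Quotient.eq_zero_iff_mem.1 hδ), map_zero]
  have e : ∀ k f, eval (fun i => ψ k (Ideal.Quotient.mk p (X i))) f =
      ψ k (Ideal.Quotient.mk p f) := fun k f =>
    DFunLike.congr_fun (algHom_ext (f := aeval fun i => ψ k (Ideal.Quotient.mk p (X i)))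
      (g := (ψ k).comp (Ideal.Quotient.mkₐ ℂ p)) fun i => by simp) f
  refine mem_closure_of_tendsto (f := fun k i => ψ k (Ideal.Quotient.mk p (X i))) (b := U)
    (tendsto_pi_nhds.2 fun i => ?_) (Eventually.of_forall fun k => ⟨fun f hf => ?_, ?_⟩)
  · have h3 := h2 (Ideal.Quotient.mk p (X i))
    rwa [show φ (Ideal.Quotient.mk p (X i)) = x i from aeval_X x i] at h3
  · rw [e, Ideal.Quotient.eq_zero_iff_mem.2 hf, map_zero]
  · exact (e k δ).trans_ne (h1 k)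

theorem img_zc (hV : ZC V) (h : MvPolynomial σ ℂ) (G : τ → MvPolynomial σ ℂ) :
    ZC (closure (pm G '' (V ∩ {x | eval x h ≠ 0}))) := by
  obtain ⟨s, hs, h1, -, rfl⟩ := hV.exists_primes
  have hz : ZC (⋃ p ∈ {p ∈ s | h ∉ p},
      ZI (p.comap (aeval G : MvPolynomial τ ℂ →ₐ[ℂ] _).toRingHom)) :=
    PWV.zc_biUnion (hs.subset (sep_subset _ _)) fun _ _ => PWV.zc_ZI _
  refine (Subset.antisymm (closure_minimal ?_ hz.isClosed) ?_).symm ▸ hz
  · rintro _ ⟨x, ⟨hx, hx'⟩, rfl⟩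
    obtain ⟨p, hp, hxp⟩ := mem_iUnion₂.1 hx
    exact mem_iUnion₂.2 ⟨p, ⟨hp, fun k => hx' (hxp _ k)⟩, fun f hf =>
      (yd1_pm G x f).trans (hxp _ hf)⟩
  · refine iUnion₂_subset fun p hp => ?_
    obtain ⟨δ, hδ, h2⟩ := chev (h1 p hp.1) hp.2 G
    have := h1 p hp.1
    refine (dens (Ideal.comap_isPrime _ _) hδ).trans (closure_mono fun y hy => ?_)
    obtain ⟨x, hx, hx', e⟩ := h2 y hy.1 hy.2
    exact ⟨x, ⟨mem_iUnion₂.2 ⟨p, hp.1, hx⟩, hx'⟩, e⟩

theorem alg_of_inj (hp : p.IsPrime) (hh : h ∉ p) (G : τ → MvPolynomial σ ℂ)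
    (hi : InjOn (pm G) (ZI p ∩ {x | eval x h ≠ 0})) :
    Algebra.IsAlgebraic ((Ideal.Quotient.mkₐ ℂ p).comp (aeval G)).range
      (MvPolynomial σ ℂ ⧸ p) := by
  set φ := (Ideal.Quotient.mkₐ ℂ p).comp (aeval G : MvPolynomial τ ℂ →ₐ[ℂ] _) with hφ
  refine ⟨fun a => ?_⟩
  obtain ⟨a, rfl⟩ := Ideal.Quotient.mk_surjective a
  by_contra ht
  obtain ⟨δ, hδ, h1⟩ := chev hp hh fun o : Option τ => o.elim a G
  obtain ⟨y, hy, hy'⟩ := yd1_nz (Ideal.comap_isPrime _ _) hδ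
  have e1 : ∀ f : MvPolynomial (Option τ) ℂ, Polynomial.aeval (Ideal.Quotient.mk p a)
      ((optionEquivLeft ℂ τ f).map φ.rangeRestrict.toRingHom) =
      Ideal.Quotient.mk p (aeval (fun o : Option τ => o.elim a G) f) := by
    intro f
    induction f using MvPolynomial.induction_on with
    | C c => simp [optionEquivLeft_C]; rfl
    | add f g hf hg => simp only [map_add, Polynomial.map_add, hf, hg]
    | mul_X f o hf =>
      simp only [map_mul, Polynomial.map_mul, hf]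
      cases o with
      | none => simp [optionEquivLeft_X_none]
      | some i => simp [optionEquivLeft_X_some, hφ]
  have e2 : ∀ t : ℂ, (fun o : Option τ => o.elim t fun i => y (some i)) ∈ ZI (p.comap (aeval
      (fun o : Option τ => o.elim a G) : MvPolynomial (Option τ) ℂ →ₐ[ℂ] _).toRingHom) := by
    intro t f hf
    have h2 : (optionEquivLeft ℂ τ f).map φ.rangeRestrict.toRingHom = 0 := by
      by_contra h0
      exact ht ⟨_, h0, (e1 f).trans (Ideal.Quotient.eq_zero_iff_mem.2 hf)⟩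
    have h3 : (optionEquivLeft ℂ τ f).map (eval fun i => y (some i)) = 0 := by
      ext k
      have h4 : φ ((optionEquivLeft ℂ τ f).coeff k) = 0 := by
        have h5 := congrArg (fun q => (Polynomial.coeff q k).1) h2
        simpa using h5
      have h5 := hy (rename some ((optionEquivLeft ℂ τ f).coeff k)) (by
        change aeval _ (rename some _) ∈ p
        rw [aeval_rename]
        exact Ideal.Quotient.eq_zero_iff_mem.1 h4)
      rw [eval_rename] at h5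
      rw [Polynomial.coeff_map, Polynomial.coeff_zero]
      exact h5
    rw [optionEquivLeft_elim_eval, h3, Polynomial.eval_zero]
  have e3 : (optionEquivLeft ℂ τ δ).map (eval fun i => y (some i)) ≠ 0 := fun k => hy' (by
    have h2 := optionEquivLeft_elim_eval ℂ τ (fun i => y (some i)) (y none) δ
    rw [k, Polynomial.eval_zero] at h2
    rw [← h2]
    exact congrArg (fun u => eval u δ) (_root_.funext fun o => by cases o <;> rfl))
  obtain ⟨t, ht1, t', ht2, hne⟩ :=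
    ((Polynomial.finite_setOfPred_isRoot e3).infinite_compl).nontrivial
  obtain ⟨x, hx, hx', e⟩ := h1 _ (e2 t) (by rw [optionEquivLeft_elim_eval]; exact ht1)
  obtain ⟨x', hz, hz', e'⟩ := h1 _ (e2 t') (by rw [optionEquivLeft_elim_eval]; exact ht2)
  obtain rfl : x = x' := hi ⟨hx, hx'⟩ ⟨hz, hz'⟩
    (_root_.funext fun i => (congrFun e (some i)).trans (congrFun e' (some i)).symm)
  exact hne ((congrFun e none).symm.trans (congrFun e' none))

theorem yd1_indep {A : Type} [CommRing A] [IsDomain A] [Algebra ℂ A] (B : Subalgebra ℂ A)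
    (ha : Algebra.IsAlgebraic B A) {e : ℕ} {f : Fin e → A} (h : AlgebraicIndependent ℂ f) :
    ∃ b : Fin e → A, AlgebraicIndependent ℂ b ∧ ∀ i, b i ∈ B := by
  have h2 := h.cardinalMk_le_trdeg
  rw [← trdeg_add_eq ℂ B, trdeg_eq_zero (R := B), add_zero] at h2
  obtain ⟨s, hs⟩ := exists_isTranscendenceBasis ℂ B
  rw [← hs.cardinalMk_eq_trdeg] at h2
  obtain ⟨j⟩ := (Cardinal.le_def _ _).1 h2
  exact ⟨_, (hs.1.comp j j.injective).map' (f := B.val) Subtype.val_injective, fun i => (j i).1.2⟩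

omit [Finite σ] in
theorem dim_of_alg (hp : p.IsPrime) (G : τ → MvPolynomial σ ℂ)
    (ha : Algebra.IsAlgebraic ((Ideal.Quotient.mkₐ ℂ p).comp (aeval G)).range
      (MvPolynomial σ ℂ ⧸ p)) {e : ℕ}
    (hd : Dim (ZI (p.comap (aeval G : MvPolynomial τ ℂ →ₐ[ℂ] _).toRingHom)) e) : Dim (ZI p) e := by
  intro f
  by_contra hc
  have h1 : AlgebraicIndependent ℂ fun i => Ideal.Quotient.mkₐ ℂ p (f i) := by
    refine algebraicIndependent_iff.2 fun P hP => ?_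
    by_contra h0
    refine hc ⟨P, h0, fun x hx => (PWV.vdim_subst x f P).symm.trans (hx _ ?_)⟩
    rw [← Ideal.Quotient.eq_zero_iff_mem, ← hP]
    exact (DFunLike.congr_fun (comp_aeval f (Ideal.Quotient.mkₐ ℂ p)) P)
  obtain ⟨b, hb, h2⟩ := yd1_indep _ ha h1
  choose g hg using h2
  obtain ⟨P, h0, hP⟩ := hd g
  refine h0 (algebraicIndependent_iff.1 hb P ?_)
  have h3 : aeval g P ∈ p.comap (aeval G : MvPolynomial τ ℂ →ₐ[ℂ] _).toRingHom :=
    PWV.null (Ideal.comap_isPrime _ _) fun y hy => (PWV.vdim_subst y g P).trans (hP y hy)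
  have h4 : ((Ideal.Quotient.mkₐ ℂ p).comp (aeval G)) (aeval g P) = 0 :=
    Ideal.Quotient.eq_zero_iff_mem.2 h3
  rw [← h4, ← AlgHom.comp_apply, comp_aeval]
  exact congrArg (fun u => aeval u P) (_root_.funext fun i => (hg i).symm)

theorem dim_of_inj (hV : ZC V) (h : MvPolynomial σ ℂ) (G : τ → MvPolynomial σ ℂ)
    (hi : InjOn (pm G) (V ∩ {x | eval x h ≠ 0})) {e : ℕ}
    (hd : Dim (pm G '' (V ∩ {x | eval x h ≠ 0})) e) : Dim (V ∩ {x | eval x h ≠ 0}) e := by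
  obtain ⟨s, hs, h1, -, rfl⟩ := hV.exists_primes
  refine (PWV.dim_biUnion (hs.subset (sep_subset _ fun p => h ∉ p)) (f := ZI) fun p hp => ?_).mono
    fun x hx => ?_
  · have hp' := h1 p hp.1
    have hsub : ZI p ∩ {x | eval x h ≠ 0} ⊆ (⋃ p ∈ s, ZI p) ∩ {x | eval x h ≠ 0} :=
      inter_subset_inter_left _ (subset_biUnion_of_mem (u := ZI) hp.1)
    refine dim_of_alg hp' G (alg_of_inj hp' hp.2 G (hi.mono hsub)) (hd.zcl.mono fun y hy f hf => ?_)
    refine hy f ((hp'.mem_or_mem (PWV.null hp' (f := aeval G f * h) fun x hx => ?_)).resolve_right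
      hp.2)
    by_cases k : eval x h = 0
    · rw [map_mul, k, mul_zero]
    · rw [map_mul, ← yd1_pm, hf _ ⟨x, hsub ⟨hx, k⟩, rfl⟩, zero_mul]
  · obtain ⟨p, hp, hxp⟩ := mem_iUnion₂.1 hx.1
    exact mem_iUnion₂.2 ⟨p, ⟨hp, fun k => hx.2 (hxp _ k)⟩, hxp⟩

theorem proj0 {N : ℕ} {V : Set (σ ⊕ Fin N → ℂ)} (hV : ZC V) {D : Set (σ → ℂ)} (hD : IsOpen D)
    (hs : ∀ u ∈ D, ∀ (w : Fin N → ℂ) (c : ℂ), w ≠ 0 → c ≠ 0 → Sum.elim u w ∈ V →
      Sum.elim u (c • w) ∈ V) :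
    ∃ V', ZC V' ∧ ∀ u ∈ D, (u ∈ V' ↔ ∃ w, w ≠ 0 ∧ Sum.elim u w ∈ V) := by
  have hP : IsClosed (Prod.fst '' {q : (σ → ℂ) × Metric.sphere (0 : Fin N → ℂ) 1 |
      Sum.elim q.1 q.2.1 ∈ V}) := by
    refine isClosedMap_fst_of_compactSpace _ (hV.isClosed.preimage (continuous_pi fun i => ?_))
    cases i with
    | inl i => exact (continuous_apply i).comp continuous_fst
    | inr i => exact (continuous_apply i).comp (continuous_subtype_val.comp continuous_snd)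
  refine ⟨⋃ j ∈ (univ : Set (Fin N)), closure (pm (fun i => X (Sum.inl i)) ''
    (V ∩ {x | eval x (X (Sum.inr j)) ≠ 0})),
    PWV.zc_biUnion finite_univ fun j _ => img_zc hV _ _, fun u hu => ⟨fun h => ?_, ?_⟩⟩
  · obtain ⟨j, -, hj⟩ := mem_iUnion₂.1 h
    suffices k : D ∩ pm (fun i => X (Sum.inl i)) '' (V ∩ {x | eval x (X (Sum.inr j)) ≠ 0}) ⊆ _ by
      obtain ⟨q, hq, rfl⟩ := closure_minimal k hP (hD.inter_closure ⟨hu, hj⟩)
      exact ⟨q.2.1, Metric.ne_of_mem_sphere q.2.2 one_ne_zero, hq⟩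
    · rintro _ ⟨h1, x, ⟨hx, hx'⟩, rfl⟩
      have e : pm (fun i => X (Sum.inl i)) x = x ∘ Sum.inl := _root_.funext fun i => eval_X _
      have h0 : x ∘ Sum.inr ≠ 0 := fun k => hx' ((eval_X _).trans (congrFun k j))
      have h2 : ‖x ∘ Sum.inr‖ ≠ 0 := norm_ne_zero_iff.2 h0
      rw [e] at h1 ⊢
      refine ⟨(_, ⟨((‖x ∘ Sum.inr‖ : ℂ))⁻¹ • (x ∘ Sum.inr), ?_⟩),
        hs _ h1 _ _ h0 (inv_ne_zero (Complex.ofReal_ne_zero.2 h2)) ?_, rfl⟩
      · rw [mem_sphere_zero_iff_norm, norm_smul, norm_inv, Complex.norm_real, norm_norm,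
          inv_mul_cancel₀ h2]
      · rwa [Sum.elim_comp_inl_inr]
  · rintro ⟨w, hw, h⟩
    obtain ⟨j, hj⟩ := Function.ne_iff.1 hw
    exact mem_iUnion₂.2 ⟨j, mem_univ _, subset_closure ⟨_, ⟨h, (eval_X _).trans_ne hj⟩,
      _root_.funext fun i => eval_X _⟩⟩

end Pool.Agent.CS
end
end

-- part Pool.Agent.P.MP_d34769_ag.YD2
section

/-! The calculus of algebraic sets, relations and maps. -/

open Set Filter Topology
open Pool.Agent.HT (Amb proj cj)
open Pool.Agent.PWV (ZC ZI Dim zcl pm)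
open Pool.Agent.HIR

noncomputable section
namespace Pool.Agent.CS

variable {M N K : ℕ} {X A B : Set (Amb M)} {Y : Set (Amb N)} {R R' : Amb M → Amb N → Prop}
  {f f' : Amb M → Amb N}

theorem zc_pre {σ τ : Type} {V : Set (τ → ℂ)} (h : ZC V) (e : τ → σ) :
    ZC {x : σ → ℂ | x ∘ e ∈ V} := by
  simpa only [MvPolynomial.eval_X, Function.comp_def] using h.preimage fun i => MvPolynomial.X (e i)

theorem pa_empty : PA (∅ : Set (Amb M)) :=
  ⟨empty_subset _, ∅, PWV.zc_empty, fun _ _ => Iff.rfl⟩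

theorem pa_Prj : PA (Prj M) :=
  ⟨Subset.rfl, univ, PWV.zc_univ, fun v hv => ⟨fun _ => trivial, fun _ => ⟨v, hv, rfl⟩⟩⟩

theorem PA.inter (hA : PA A) (hB : PA B) : PA (A ∩ B) := by
  obtain ⟨a, V, hV, h⟩ := hA
  obtain ⟨_, W, hW, h'⟩ := hB
  exact ⟨inter_subset_left.trans a, V ∩ W, hV.inter hW, fun v hv => and_congr (h v hv) (h' v hv)⟩

theorem PA.union (hA : PA A) (hB : PA B) : PA (A ∪ B) := by
  obtain ⟨a, V, hV, h⟩ := hA
  obtain ⟨b, W, hW, h'⟩ := hB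
  exact ⟨union_subset a b, V ∪ W, hV.union hW, fun v hv => or_congr (h v hv) (h' v hv)⟩

theorem pa_biUnion {ι : Type*} {s : Set ι} (hs : s.Finite) {A : ι → Set (Amb M)}
    (h : ∀ i ∈ s, PA (A i)) : PA (⋃ i ∈ s, A i) := by
  induction s, hs using Set.Finite.induction_on with
  | empty => simpa using pa_empty
  | insert _ _ ih =>
    rw [biUnion_insert]
    exact (h _ (mem_insert _ _)).union (ih fun i hi => h i (mem_insert_of_mem _ hi))

theorem pa_iUnion {ι : Sort*} [Finite ι] {A : ι → Set (Amb M)} (h : ∀ i, PA (A i)) :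
    PA (⋃ i, A i) := by
  have := pa_biUnion (finite_range A) (A := id) (by rintro _ ⟨i, rfl⟩; exact h i)
  simpa using this

theorem PA.compact (h : PA X) : IsCompact X := by
  obtain ⟨a, V, hV, h⟩ := h
  have hne : ∀ v ∈ Metric.sphere (0 : Fin M → ℂ) 1, v ≠ 0 := fun v hv e => by simp [e] at hv
  have : X = proj '' (Metric.sphere (0 : Fin M → ℂ) 1 ∩ V) := by
    ext x
    constructor
    · intro hx
      obtain ⟨v, hv, rfl⟩ := a hx
      have h1 : ‖v‖ ≠ 0 := norm_ne_zero_iff.2 hv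
      have h2 : ((‖v‖ : ℂ))⁻¹ ≠ 0 := inv_ne_zero (Complex.ofReal_ne_zero.2 h1)
      refine ⟨((‖v‖ : ℂ))⁻¹ • v, ⟨by simp [norm_smul, h1], (h _ (smul_ne_zero h2 hv)).1 ?_⟩,
        proj_smul h2 v⟩
      rwa [proj_smul h2]
    · rintro ⟨v, hv, rfl⟩
      exact (h v (hne v hv.1)).2 hv.2
  rw [this]
  exact ((isCompact_sphere _ _).inter_right hV.isClosed).image_of_continuousOn
    fun v hv => (cont_proj (hne v hv.1)).continuousWithinAt

theorem PA.closed (h : PA X) : IsClosed X := h.compact.isClosed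

theorem PA.exists_hom (h : PA X) {v : Fin M → ℂ} (hv : v ≠ 0) (hx : proj v ∉ X) :
    ∃ (P : MvPolynomial (Fin M) ℂ) (k : ℕ), P.IsHomogeneous k ∧ ev P v ≠ 0 ∧
      ∀ u, u ≠ 0 → proj u ∈ X → ev P u = 0 := by
  obtain ⟨_, _, ⟨S, rfl⟩, h⟩ := h
  obtain ⟨P, hP, h0⟩ : ∃ P ∈ S, ev P v ≠ 0 := by
    by_contra c
    push Not at c
    exact hx ((h v hv).2 c)
  have e : ∀ u, ev P u = ∑ k ∈ Finset.range (P.totalDegree + 1),
      ev (MvPolynomial.homogeneousComponent k P) u := fun u => by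
    conv_lhs => rw [← MvPolynomial.sum_homogeneousComponent P]
    simp only [ev, map_sum]
  rw [e] at h0
  obtain ⟨k, hk, h1⟩ := Finset.exists_ne_zero_of_sum_ne_zero h0
  refine ⟨_, k, MvPolynomial.homogeneousComponent_isHomogeneous k P, h1, fun u hu hX => ?_⟩
  have q : (∑ k ∈ Finset.range (P.totalDegree + 1),
      Polynomial.monomial k (ev (MvPolynomial.homogeneousComponent k P) u)) = 0 := by
    refine Polynomial.eq_zero_of_infinite_isRoot _ ((finite_singleton (0 : ℂ)).infinite_compl.mono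
      fun c hc => ?_)
    have h2 : ev P (c • u) = 0 := (h _ (smul_ne_zero hc hu)).1 (by rwa [proj_smul hc]) P hP
    rw [e] at h2
    simp only [ev_smul (MvPolynomial.homogeneousComponent_isHomogeneous _ P)] at h2
    simpa [Polynomial.eval_finsetSum, mul_comm] using h2
  have := congrArg (Polynomial.coeff · k) q
  simpa [Polynomial.coeff_monomial, hk] using this

theorem pa_of_hom (h0 : X ⊆ Prj M) (h : ∀ v, v ≠ 0 → proj v ∉ X →
    ∃ P : MvPolynomial (Fin M) ℂ, ev P v ≠ 0 ∧ ∀ u, u ≠ 0 → proj u ∈ X → ev P u = 0) : PA X := by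
  refine ⟨h0, zcl (cn X), PWV.zc_zcl _, fun v hv => ⟨fun k => PWV.subset_zcl _ ⟨hv, k⟩, fun k => ?_⟩⟩
  by_contra c
  obtain ⟨P, h1, h2⟩ := h v hv c
  exact h1 (k P fun u hu => h2 u hu.1 hu.2)

theorem pa_closure_img {σ : Type} [Finite σ] {V : Set (σ → ℂ)} (hV : ZC V)
    (h : MvPolynomial σ ℂ) (G : Fin M → MvPolynomial σ ℂ)
    (h0 : ∀ x ∈ V, MvPolynomial.eval x h ≠ 0 → pm G x ≠ 0) :
    PA (closure ((fun x => proj (pm G x)) '' (V ∩ {x | MvPolynomial.eval x h ≠ 0}))) := by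
  have e1 : ∀ z : Option σ → ℂ, pm (fun i => MvPolynomial.X none * MvPolynomial.rename some (G i)) z =
      z none • pm G (z ∘ some) := fun z => by
    funext i
    simp [pm, MvPolynomial.eval_rename]
  refine ⟨closure_minimal ?_ (compact_XI1 M).isClosed, _,
    img_zc (zc_pre hV some) (MvPolynomial.rename some h)
      (fun i => MvPolynomial.X none * MvPolynomial.rename some (G i)), fun v hv => ⟨fun k => ?_,
      fun k => ?_⟩⟩
  · rintro _ ⟨x, hx, rfl⟩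
    exact ⟨_, h0 x hx.1 hx.2, rfl⟩
  · obtain ⟨j, hj⟩ := Function.ne_iff.1 hv
    have ha : (starRingEnd ℂ) (v j) / ∑ j, v j * (starRingEnd ℂ) (v j) ≠ 0 :=
      div_ne_zero ((map_ne_zero _).2 hj) (sum_ne_XE1 hv)
    have c : Continuous fun (x : Amb M) =>
        ((starRingEnd ℂ) (v j) / ∑ j, v j * (starRingEnd ℂ) (v j))⁻¹ • fun i => x (i, j) := by
      fun_prop
    have := map_mem_closure c k (t := pm (fun i => MvPolynomial.X none *
      MvPolynomial.rename some (G i)) '' ({x : Option σ → ℂ | x ∘ some ∈ V} ∩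
        {x | MvPolynomial.eval x (MvPolynomial.rename some h) ≠ 0})) (by
      rintro _ ⟨x, hx, rfl⟩
      simp only [proj_col, smul_smul]
      refine ⟨fun o => o.elim _ x, ⟨hx.1, ?_⟩, e1 _⟩
      rw [mem_ofPred_eq, MvPolynomial.eval_rename]
      exact hx.2)
    rwa [proj_col, inv_smul_smul₀ ha] at this
  · have k' := (isOpen_ne (x := (0 : Fin M → ℂ))).inter_closure ⟨hv, k⟩
    refine closure_mono ?_ ((cont_proj hv).continuousWithinAt.mem_closure_image k')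
    rintro _ ⟨_, ⟨h1, z, hz, rfl⟩, rfl⟩
    rw [mem_ofPred_eq, e1] at h1
    refine ⟨z ∘ some, ⟨hz.1, ?_⟩, ?_⟩
    · have := hz.2
      rwa [mem_ofPred_eq, MvPolynomial.eval_rename] at this
    · rw [e1, proj_smul (left_ne_zero_of_smul h1)]

theorem AR.congr (h : AR R) (e : ∀ x y, R' x y ↔ R x y) : AR R' := by
  rwa [show R' = R from funext₂ fun x y => propext (e x y)]

theorem AR.and (h : AR R) (h' : AR R') : AR fun x y => R x y ∧ R' x y := by
  obtain ⟨a, V, hV, h⟩ := h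
  obtain ⟨_, W, hW, h'⟩ := h'
  exact ⟨fun x y k => a x y k.1, V ∩ W, hV.inter hW,
    fun v w hv hw => and_congr (h v w hv hw) (h' v w hv hw)⟩

theorem AR.swap (h : AR R) : AR fun y x => R x y := by
  obtain ⟨a, V, hV, h⟩ := h
  refine ⟨fun y x k => (a x y k).symm, _, zc_pre hV Sum.swap, fun w v hw hv => ?_⟩
  have e : Sum.elim w v ∘ Sum.swap = Sum.elim v w := by funext i; cases i <;> rfl
  rw [mem_ofPred_eq, e]
  exact h v w hv hw

theorem ar_prod (hX : PA X) (hY : PA Y) : AR fun x y => x ∈ X ∧ y ∈ Y := by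
  obtain ⟨a, V, hV, h⟩ := hX
  obtain ⟨b, W, hW, h'⟩ := hY
  exact ⟨fun x y k => ⟨a k.1, b k.2⟩, _, (zc_pre hV Sum.inl).inter (zc_pre hW Sum.inr),
    fun v w hv hw => and_congr (h v hv) (h' w hw)⟩

theorem AR.comp {S : Amb N → Amb K → Prop} (h : AR R) (h' : AR S) :
    AR fun x z => ∃ y, R x y ∧ S y z := by
  obtain ⟨a, V, hV, h⟩ := h
  obtain ⟨b, W, hW, h'⟩ := h'
  have e1 : ∀ (u : Fin M ⊕ Fin K → ℂ) (w : Fin N → ℂ),
      Sum.elim u w ∘ Sum.map Sum.inl id = Sum.elim (u ∘ Sum.inl) w := fun u w => by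
    funext i; cases i <;> rfl
  have e2 : ∀ (u : Fin M ⊕ Fin K → ℂ) (w : Fin N → ℂ),
      Sum.elim u w ∘ Sum.elim Sum.inr (Sum.inl ∘ Sum.inr) = Sum.elim w (u ∘ Sum.inr) :=
    fun u w => by funext i; cases i <;> rfl
  obtain ⟨U, hU, hU'⟩ := proj0 (σ := Fin M ⊕ Fin K) ((zc_pre hV (Sum.map Sum.inl id)).inter
    (zc_pre hW (Sum.elim Sum.inr (Sum.inl ∘ Sum.inr))))
    (D := {u | u ∘ Sum.inl ≠ 0} ∩ {u | u ∘ Sum.inr ≠ 0})
    ((isOpen_ne_fun (by fun_prop) continuous_const).inter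
      (isOpen_ne_fun (by fun_prop) continuous_const)) (fun u hu w c hw hc k => by
      simp only [mem_inter_iff, mem_ofPred_eq, e1, e2] at k ⊢
      rwa [← h _ _ hu.1 (smul_ne_zero hc hw), ← h' _ _ (smul_ne_zero hc hw) hu.2, proj_smul hc,
        h _ _ hu.1 hw, h' _ _ hw hu.2])
  refine ⟨fun x z ⟨y, k, k'⟩ => ⟨(a _ _ k).1, (b _ _ k').2⟩, U, hU, fun v w hv hw => ?_⟩
  rw [hU' (Sum.elim v w) ⟨hv, hw⟩]
  simp only [mem_inter_iff, mem_ofPred_eq, e1, e2, Sum.elim_comp_inl, Sum.elim_comp_inr]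
  constructor
  · rintro ⟨y, k, k'⟩
    obtain ⟨u, hu, rfl⟩ := (a _ _ k).2
    exact ⟨u, hu, (h _ _ hv hu).1 k, (h' _ _ hu hw).1 k'⟩
  · rintro ⟨u, hu, k, k'⟩
    exact ⟨_, (h _ _ hv hu).2 k, (h' _ _ hu hw).2 k'⟩

theorem AR.dom (h : AR R) : PA {x | ∃ y, R x y} := by
  obtain ⟨a, V, hV, h⟩ := h
  obtain ⟨U, hU, hU'⟩ := proj0 hV (D := {u | u ≠ 0}) isOpen_ne fun u hu w c hw hc k => by
    rwa [← h _ _ hu (smul_ne_zero hc hw), proj_smul hc, h _ _ hu hw]
  refine ⟨fun x ⟨y, k⟩ => (a _ _ k).1, U, hU, fun v hv => ?_⟩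
  rw [hU' v hv]
  constructor
  · rintro ⟨y, k⟩
    obtain ⟨u, hu, rfl⟩ := (a _ _ k).2
    exact ⟨u, hu, (h _ _ hv hu).1 k⟩
  · rintro ⟨u, hu, k⟩
    exact ⟨_, (h _ _ hv hu).2 k⟩

theorem ar_diag : AR fun x y : Amb M => x ∈ Prj M ∧ x = y := by
  refine ⟨fun x y k => ⟨k.1, k.2 ▸ k.1⟩, _, ⟨range fun p : Fin M × Fin M =>
    MvPolynomial.X (Sum.inl p.1) * MvPolynomial.X (Sum.inr p.2) -
      MvPolynomial.X (Sum.inl p.2) * MvPolynomial.X (Sum.inr p.1), rfl⟩, fun v w hv hw => ?_⟩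
  refine ((and_iff_right ⟨v, hv, rfl⟩).trans (proj_eq_iff hv hw)).trans ?_
  simp only [mem_ofPred_eq, forall_mem_range, map_sub, map_mul, MvPolynomial.eval_X, Sum.elim_inl,
    Sum.elim_inr, sub_eq_zero]
  constructor
  · rintro ⟨c, _, rfl⟩ p
    simp only [Pi.smul_apply, smul_eq_mul]
    ring
  · intro k
    obtain ⟨j, hj⟩ := Function.ne_iff.1 hv
    have hj : v j ≠ 0 := hj
    have e : w = (w j / v j) • v := by
      funext i
      have := k (j, i)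
      simp only [Pi.smul_apply, smul_eq_mul]
      field_simp
      linear_combination this
    exact ⟨_, fun z => hw (by rw [e, z, zero_smul]), e⟩

theorem ag_id (h : PA X) : AG X id :=
  ⟨continuousOn_id, (ar_diag.and (ar_prod h pa_Prj)).congr fun _ _ =>
    ⟨fun k => ⟨⟨h.1 k.1, k.2⟩, k.1, k.2 ▸ h.1 k.1⟩, fun k => ⟨k.2.1, k.1.2⟩⟩⟩

theorem AG.pa (h : AG X f) : PA X := by
  simpa using h.ar.dom

theorem AG.prj (h : AG X f) : MapsTo f X (Prj N) := fun x hx => (h.ar.1 x _ ⟨hx, rfl⟩).2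

theorem AG.mono (h : AG X f) (hA : PA A) (s : A ⊆ X) : AG A f :=
  ⟨h.cont.mono s, (h.ar.and (ar_prod hA pa_Prj)).congr fun _ _ =>
    ⟨fun k => ⟨⟨s k.1, k.2⟩, k.1, k.2 ▸ h.prj (s k.1)⟩, fun k => ⟨k.2.1, k.1.2⟩⟩⟩

theorem AG.congr (h : AG X f) (e : EqOn f' f X) : AG X f' :=
  ⟨h.cont.congr e, h.ar.congr fun _ _ => and_congr_right fun k => by rw [e k]⟩

theorem AG.comp {g : Amb N → Amb K} (hg : AG Y g) (h : AG X f) (m : MapsTo f X Y) :
    AG X (g ∘ f) :=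
  ⟨hg.cont.comp h.cont m, (h.ar.comp hg.ar).congr fun x _ =>
    ⟨fun k => ⟨f x, ⟨k.1, rfl⟩, m k.1, k.2⟩, fun ⟨_, k, k'⟩ => ⟨k.1, by
      rw [Function.comp_apply, k.2, k'.2]⟩⟩⟩

theorem AG.image (h : AG X f) (hA : PA A) (s : A ⊆ X) : PA (f '' A) := (h.mono hA s).ar.swap.dom

theorem AG.preimage (h : AG X f) (hY : PA Y) : PA (X ∩ f ⁻¹' Y) := by
  have := (h.ar.and (ar_prod h.pa hY)).dom
  rwa [show X ∩ f ⁻¹' Y = {x | ∃ y, (x ∈ X ∧ f x = y) ∧ x ∈ X ∧ y ∈ Y} from Set.ext fun x =>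
    ⟨fun k => ⟨f x, ⟨k.1, rfl⟩, k⟩, fun ⟨_, k, k'⟩ => ⟨k.1, show f x ∈ Y from k.2 ▸ k'.2⟩⟩]

end Pool.Agent.CS
end
end

-- part Pool.Agent.P.MP_d34769_ag.YD4
section

/-! The Segre map; manifolds and holomorphic maps are algebraic. -/

open Set Filter Topology
open Pool.Agent.HT (Amb proj cj)
open Pool.Agent.PWV (ZC ZI Dim zcl pm)
open Pool.Agent.HIR
open scoped ComplexConjugate

noncomputable section
namespace Pool.Agent.CS

variable {M N K e : ℕ} {X A : Set (Amb M)} {Y : Set (Amb N)} {R : Amb M → Amb N → Prop}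
  {f : Amb M → Amb N} {x : Amb M} {y : Amb N}

theorem seg_proj (v : Fin M → ℂ) (w : Fin N → ℂ) : seg (proj v) (proj w) = proj (tens v w) := by
  have h1 : ∑ k, tens v w k * conj (tens v w k) =
      (∑ i, v i * conj (v i)) * ∑ a, w a * conj (w a) := by
    rw [← finProdFinEquiv.sum_comp, Fintype.sum_prod_type, Finset.sum_mul_sum]
    refine Finset.sum_congr rfl fun i _ => Finset.sum_congr rfl fun a _ => ?_
    rw [tens_apply_XG8, map_mul]
    ring
  ext p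
  simp only [seg, proj, h1]
  simp only [tens, map_mul]
  rw [div_mul_div_comm]
  congr 1
  ring

theorem ptr_seg (hx : x ∈ Prj M) (hy : y ∈ Prj N) : ptr M N (seg x y) = x := by
  obtain ⟨v, -, rfl⟩ := hx
  obtain ⟨w, hw, rfl⟩ := hy
  rw [seg_proj, ptr_tens hw]

theorem ptr2_seg (hx : x ∈ Prj M) (hy : y ∈ Prj N) : ptr2 M N (seg x y) = y := by
  obtain ⟨v, hv, rfl⟩ := hx
  ext p
  simp only [ptr2, seg, Equiv.symm_apply_apply, proj]
  rw [← Finset.sum_mul, ← Finset.sum_div, div_self (nsq_ne_XG8 hv), one_mul]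

theorem cont_seg : Continuous fun p : Amb M × Amb N => seg p.1 p.2 := by
  unfold seg
  fun_prop

theorem cont_ptr2 : Continuous (ptr2 M N) := by
  unfold ptr2
  fun_prop

theorem sgr_prj_YD4 (h0 : ∀ x y, R x y → x ∈ Prj M ∧ y ∈ Prj N) : Sgr R ⊆ Prj (M * N) := by
  rintro _ ⟨x, y, h, rfl⟩
  obtain ⟨⟨v, hv, rfl⟩, w, hw, rfl⟩ := h0 x y h
  exact ⟨_, tens_ne hv hw, (seg_proj v w).symm⟩

theorem mem_sgr_YD4 (h0 : ∀ x y, R x y → x ∈ Prj M ∧ y ∈ Prj N) {u : Fin (M * N) → ℂ}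
    (hu : u ≠ 0) (h : proj u ∈ Sgr R) :
    ∃ v w, v ≠ 0 ∧ w ≠ 0 ∧ R (proj v) (proj w) ∧ u = tens v w := by
  obtain ⟨x, y, h, e⟩ := h
  obtain ⟨⟨v, hv, rfl⟩, w, hw, rfl⟩ := h0 x y h
  rw [seg_proj] at e
  obtain ⟨c, hc, rfl⟩ := (proj_eq_iff (tens_ne hv hw) hu).1 e.symm
  refine ⟨c • v, w, smul_ne_zero hc hv, hw, by rwa [proj_smul hc], ?_⟩
  simpa using (tens_smul c 1 v w).symm

theorem AR.sgr (h : AR R) : PA (Sgr R) := by
  obtain ⟨h0, V, ⟨S, rfl⟩, hV⟩ := h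
  refine pa_of_hom (sgr_prj_YD4 h0) fun u hu hx => ?_
  obtain ⟨k, hk⟩ := Function.ne_iff.1 hu
  obtain ⟨⟨i, a⟩, rfl⟩ := finProdFinEquiv.surjective k
  have hk' : u (finProdFinEquiv (i, a)) ≠ 0 := hk
  by_cases hm : ∀ j b, u (finProdFinEquiv (i, a)) * u (finProdFinEquiv (j, b)) =
      u (finProdFinEquiv (j, a)) * u (finProdFinEquiv (i, b))
  · have n1 : ∀ u' : Fin (M * N) → ℂ, u' (finProdFinEquiv (i, a)) ≠ 0 →
        (fun j => u' (finProdFinEquiv (j, a))) ≠ 0 ∧ (fun b => u' (finProdFinEquiv (i, b))) ≠ 0 :=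
      fun u' h' => ⟨fun e => h' (congrFun e i), fun e => h' (congrFun e a)⟩
    have hR : ¬ R (proj fun j => u (finProdFinEquiv (j, a)))
        (proj fun b => u (finProdFinEquiv (i, b))) := fun hR => hx ⟨_, _, hR, by
      rw [seg_proj, ← proj_smul hk' u]
      refine congrArg proj (funext fun k => ?_)
      obtain ⟨⟨j, b⟩, rfl⟩ := finProdFinEquiv.surjective k
      rw [tens_apply_XG8]
      exact hm j b⟩
    rw [hV _ _ (n1 u hk').1 (n1 u hk').2] at hR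
    obtain ⟨f, hf, hne⟩ : ∃ f ∈ S, MvPolynomial.eval (Sum.elim (fun j => u (finProdFinEquiv (j, a)))
        fun b => u (finProdFinEquiv (i, b))) f ≠ 0 := by
      by_contra hc
      push Not at hc
      exact hR hc
    have e : ∀ u' : Fin (M * N) → ℂ, ev (MvPolynomial.X (finProdFinEquiv (i, a)) *
        MvPolynomial.rename (Sum.elim (fun j => finProdFinEquiv (j, a))
          fun b => finProdFinEquiv (i, b)) f) u' = u' (finProdFinEquiv (i, a)) *
        MvPolynomial.eval (Sum.elim (fun j => u' (finProdFinEquiv (j, a)))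
          fun b => u' (finProdFinEquiv (i, b))) f := fun u' => by
      rw [ev, map_mul, MvPolynomial.eval_X, MvPolynomial.eval_rename, Sum.comp_elim]
      rfl
    refine ⟨_, by rw [e]; exact mul_ne_zero hk' hne, fun u' hu' hx' => ?_⟩
    rw [e]
    by_cases h1 : u' (finProdFinEquiv (i, a)) = 0
    · rw [h1, zero_mul]
    · obtain ⟨v, w, hv, hw, hR', rfl⟩ := mem_sgr_YD4 h0 hu' hx'
      rw [(hV _ _ (n1 _ h1).1 (n1 _ h1).2).1 ?_ f hf, mul_zero]
      rw [tens_apply_XG8] at h1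
      have e1 : (fun j => tens v w (finProdFinEquiv (j, a))) = w a • v :=
        funext fun j => by rw [tens_apply_XG8, mul_comm]; rfl
      have e2 : (fun b => tens v w (finProdFinEquiv (i, b))) = v i • w :=
        funext fun b => by rw [tens_apply_XG8]; rfl
      rwa [e1, e2, proj_smul (right_ne_zero_of_mul h1), proj_smul (left_ne_zero_of_mul h1)]
  · push Not at hm
    obtain ⟨j, b, hm⟩ := hm
    refine ⟨MvPolynomial.X (finProdFinEquiv (i, a)) * MvPolynomial.X (finProdFinEquiv (j, b)) -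
      MvPolynomial.X (finProdFinEquiv (j, a)) * MvPolynomial.X (finProdFinEquiv (i, b)), ?_,
      fun u' hu' hx' => ?_⟩
    · simpa only [ev, map_sub, map_mul, MvPolynomial.eval_X] using sub_ne_zero.2 hm
    · obtain ⟨v, w, -, -, -, rfl⟩ := mem_sgr_YD4 h0 hu' hx'
      simp only [ev, map_sub, map_mul, MvPolynomial.eval_X, tens_apply_XG8]
      ring

theorem ar_of_sgr (h0 : ∀ x y, R x y → x ∈ Prj M ∧ y ∈ Prj N) (h : PA (Sgr R)) : AR R := by
  obtain ⟨-, V, hV, h1⟩ := h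
  refine ⟨h0, _, hV.preimage fun k => (MvPolynomial.X (Sum.inl (finProdFinEquiv.symm k).1) *
    MvPolynomial.X (Sum.inr (finProdFinEquiv.symm k).2) : MvPolynomial (Fin M ⊕ Fin N) ℂ),
    fun v w hv hw => ?_⟩
  have e : pm (fun k => (MvPolynomial.X (Sum.inl (finProdFinEquiv.symm k).1) *
      MvPolynomial.X (Sum.inr (finProdFinEquiv.symm k).2) : MvPolynomial (Fin M ⊕ Fin N) ℂ))
      (Sum.elim v w) = tens v w := funext fun k => by
    simp only [pm, map_mul, MvPolynomial.eval_X, Sum.elim_inl, Sum.elim_inr, tens]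
  refine Iff.trans ?_ ((h1 _ (tens_ne hv hw)).trans (by rw [← e]; rfl))
  rw [← seg_proj]
  refine ⟨fun hR => ⟨_, _, hR, rfl⟩, ?_⟩
  rintro ⟨x, y, hR, e⟩
  have e1 := congrArg (ptr M N) e
  have e2 := congrArg (ptr2 M N) e
  rw [ptr_seg ⟨v, hv, rfl⟩ ⟨w, hw, rfl⟩, ptr_seg (h0 x y hR).1 (h0 x y hR).2] at e1
  rw [ptr2_seg ⟨v, hv, rfl⟩ ⟨w, hw, rfl⟩, ptr2_seg (h0 x y hR).1 (h0 x y hR).2] at e2
  rwa [e1, e2]

/-- on `X` the map `f` is locally a selection of coordinates -/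
structure Sel_YD4 {κ : Type} (X : Set (Amb M)) (f : Amb M → Amb N) (s : κ → Fin N → Fin M) :
    Prop where
  ex : ∀ u, u ≠ 0 → proj u ∈ X → ∃ a, u ∘ s a ≠ 0
  eq : ∀ u, u ≠ 0 → proj u ∈ X → ∀ a, u ∘ s a ≠ 0 → f (proj u) = proj (u ∘ s a)

theorem Sel_YD4.hp {κ : Type} {s : κ → Fin N → Fin M} (h : Sel_YD4 X f s) : HP X f := by
  intro e K Y ph _ h2 h3 φ z x hp
  obtain ⟨g, hg, h0, he⟩ := h2 φ z x hp
  have hm : ∀ᶠ y in 𝓝 z, proj (g y) ∈ X := by
    filter_upwards [he, hp.ev] with y a b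
    exact (show ph (φ y) = proj (g y) from a) ▸ h3 b.mem
  obtain ⟨a, ha⟩ := h.ex _ h0 hm.self_of_nhds
  have hg' : AnalyticAt ℂ (fun y => g y ∘ s a) z := AnalyticAt.pi fun i => an_app_XE2 hg (s a i)
  refine ⟨_, hg', ha, ?_⟩
  filter_upwards [he, hm, hg.continuousAt.eventually_ne h0, hg'.continuousAt.eventually_ne ha]
    with y a1 a2 a3 a4
  simp only [Function.comp_apply] at a1 ⊢
  rw [a1, h.eq _ a3 a2 a a4]

theorem Sel_YD4.ag {κ : Type} {s : κ → Fin N → Fin M} (h : Sel_YD4 X f s) (hX : PA X)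
    (hc : ContinuousOn f X) : AG X f := by
  have h1 : AR fun (x : Amb M) (y : Amb N) => ∃ u w, u ≠ 0 ∧ w ≠ 0 ∧ proj u = x ∧ proj w = y ∧
      ∀ a i j, u (s a i) * w j = u (s a j) * w i := by
    refine ⟨fun x y ⟨u, w, hu, hw, e1, e2, _⟩ => ⟨⟨u, hu, e1⟩, w, hw, e2⟩, _,
      ⟨range fun q : κ × Fin N × Fin N =>
        MvPolynomial.X (Sum.inl (s q.1 q.2.1)) * MvPolynomial.X (Sum.inr q.2.2) -
          MvPolynomial.X (Sum.inl (s q.1 q.2.2)) * MvPolynomial.X (Sum.inr q.2.1), rfl⟩,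
      fun u w hu hw => ?_⟩
    simp only [mem_ofPred_eq, forall_mem_range, map_sub, map_mul, MvPolynomial.eval_X,
      Sum.elim_inl, Sum.elim_inr, sub_eq_zero, Prod.forall]
    refine ⟨?_, fun h => ⟨u, w, hu, hw, rfl, rfl, h⟩⟩
    rintro ⟨u', w', hu', hw', e1, e2, h⟩ a i j
    obtain ⟨c, -, rfl⟩ := (proj_eq_iff hu' hu).1 e1
    obtain ⟨c', -, rfl⟩ := (proj_eq_iff hw' hw).1 e2
    simp only [Pi.smul_apply, smul_eq_mul]
    linear_combination c * c' * h a i j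
  refine ⟨hc, ((ar_prod hX pa_Prj).and h1).congr fun x y => ⟨?_, ?_⟩⟩
  · rintro ⟨hx, rfl⟩
    obtain ⟨u, hu, rfl⟩ := hX.1 hx
    obtain ⟨a, ha⟩ := h.ex u hu hx
    refine ⟨⟨hx, _, ha, (h.eq u hu hx a ha).symm⟩, u, _, hu, ha, rfl, (h.eq u hu hx a ha).symm,
      fun b i j => ?_⟩
    by_cases hb : u ∘ s b = 0
    · rw [show u (s b i) = 0 from congrFun hb i, show u (s b j) = 0 from congrFun hb j, zero_mul,
        zero_mul]
    · obtain ⟨c, -, e⟩ := (proj_eq_iff hb ha).1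
        ((h.eq u hu hx b hb).symm.trans (h.eq u hu hx a ha))
      rw [e]
      simp only [Pi.smul_apply, smul_eq_mul, Function.comp_apply]
      ring
  · rintro ⟨⟨hx, -⟩, u, w, hu, hw, rfl, rfl, e⟩
    obtain ⟨a, ha⟩ := h.ex u hu hx
    refine ⟨hx, (h.eq u hu hx a ha).trans ((proj_eq_iff ha hw).2 ?_)⟩
    obtain ⟨i, hi⟩ := Function.ne_iff.1 ha
    have hi' : u (s a i) ≠ 0 := hi
    have e' : w = (w i / u (s a i)) • u ∘ s a := funext fun j => by
      simp only [Pi.smul_apply, smul_eq_mul, Function.comp_apply]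
      field_simp
      linear_combination e a i j
    exact ⟨_, fun h0 => hw (by rw [e', h0, zero_smul]), e'⟩

theorem sel_ptr_YD4 (h0 : ∀ x y, R x y → x ∈ Prj M ∧ y ∈ Prj N) :
    Sel_YD4 (Sgr R) (ptr M N) fun a i => finProdFinEquiv (i, a) := by
  have e : ∀ (v : Fin M → ℂ) (w : Fin N → ℂ) a,
      (tens v w ∘ fun i => finProdFinEquiv (i, a)) = w a • v := fun v w a =>
    funext fun j => (tens_apply_XG8 v w j a).trans (mul_comm _ _)
  refine ⟨fun u hu hx => ?_, fun u hu hx a ha => ?_⟩ <;>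
    obtain ⟨v, w, hv, hw, -, rfl⟩ := mem_sgr_YD4 h0 hu hx
  · obtain ⟨a, ha⟩ := Function.ne_iff.1 hw
    exact ⟨a, by rw [e]; exact smul_ne_zero ha hv⟩
  · rw [e] at ha ⊢
    rw [ptr_tens hw, proj_smul (left_ne_zero_of_smul ha)]

theorem sel_ptr2_YD4 (h0 : ∀ x y, R x y → x ∈ Prj M ∧ y ∈ Prj N) :
    Sel_YD4 (Sgr R) (ptr2 M N) fun i a => finProdFinEquiv (i, a) := by
  have e : ∀ (v : Fin M → ℂ) (w : Fin N → ℂ) i,
      (tens v w ∘ fun a => finProdFinEquiv (i, a)) = v i • w := fun v w i =>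
    funext fun a => tens_apply_XG8 v w i a
  refine ⟨fun u hu hx => ?_, fun u hu hx a ha => ?_⟩ <;>
    obtain ⟨v, w, hv, hw, -, rfl⟩ := mem_sgr_YD4 h0 hu hx
  · obtain ⟨a, ha⟩ := Function.ne_iff.1 hv
    exact ⟨a, by rw [e]; exact smul_ne_zero ha hw⟩
  · rw [e] at ha ⊢
    rw [← seg_proj, ptr2_seg ⟨v, hv, rfl⟩ ⟨w, hw, rfl⟩, proj_smul (left_ne_zero_of_smul ha)]

theorem AR.ag_ptr (h : AR R) : AG (Sgr R) (ptr M N) := by
  exact (sel_ptr_YD4 h.1).ag h.sgr cont_ptr.continuousOn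

theorem AR.ag_ptr2 (h : AR R) : AG (Sgr R) (ptr2 M N) := by
  exact (sel_ptr2_YD4 h.1).ag h.sgr cont_ptr2.continuousOn

theorem AR.hp_ptr (h : AR R) : HP (Sgr R) (ptr M N) := by
  exact (sel_ptr_YD4 h.1).hp

theorem AR.hp_ptr2 (h : AR R) : HP (Sgr R) (ptr2 M N) := by
  exact (sel_ptr2_YD4 h.1).hp

theorem hp_id : HP X id := by
  exact fun _ _ _ _ _ h _ => h

theorem HP.mono (h : HP X f) (s : A ⊆ X) : HP A f := by
  exact fun e K Y ph h1 h2 h3 => h e K Y ph h1 h2 (h3.mono_right s)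

theorem HP.congr {f' : Amb M → Amb N} (h : HP X f) (e : EqOn f' f X) : HP X f' := by
  intro e' K Y ph h1 h2 h3 φ z x hp
  obtain ⟨g, hg, h0, he⟩ := h e' K Y ph h1 h2 h3 φ z x hp
  refine ⟨g, hg, h0, ?_⟩
  filter_upwards [he, hp.ev] with y a b
  exact (e (h3 b.mem)).trans a

theorem HP.comp {g : Amb N → Amb K} (hg : HP Y g) (h : HP X f) (m : MapsTo f X Y) :
    HP X (g ∘ f) := by
  exact fun e K Z ph h1 h2 h3 => hg e _ Z (f ∘ ph) h1 (h e K Z ph h1 h2 h3) (m.comp h3)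

theorem HP.hol (h : HP X f) (hX : Mf e X) : HolP e X f := by
  exact h e M X id hX holP_id (mapsTo_id X)

theorem hp_of_hol (hX : Mf e X) (h : HolP e X f) : HP X f := by
  intro e' K Y ph _ h2 h3 φ z x hp
  obtain ⟨g, hg, h0, he⟩ := h2 φ z x hp
  obtain ⟨ψ, w, hq⟩ := hX.chart _ (h3 hp.mem)
  obtain ⟨τ, hτ, hw, e1⟩ := hq.factor hg h0 (by rw [← hp.eq]; exact he.self_of_nhds.symm) (by
    filter_upwards [he, hp.ev] with y a b
    exact (show ph (φ y) = proj (g y) from a) ▸ h3 b.mem)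
  obtain ⟨g', hg', h0', he'⟩ := h ψ w _ hq
  have key := pull_XI4 hg' h0' he' hτ hw (e1.trans he.symm)
  exact ⟨g' ∘ τ, key⟩

theorem pa_of_mf (hX : Mf e X) : PA X := by
  refine pa_of_hom (fun x hx => hX.rep hx) fun v hv hx => ?_
  obtain ⟨P, -, -, h1, h2⟩ := chow1 hX holP_id (fun x hx => subset_closure ⟨hx, by
    obtain ⟨φ, z, hp⟩ := hX.chart x hx
    exact hp.immP⟩) hv (by rwa [image_id])
  exact ⟨P, h1, fun u hu h => h2 u hu (by rwa [image_id])⟩

theorem ag_of_hol (hX : Mf e X) (h : HolP e X f) : AG X f := by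
  have h0 : ∀ x y, x ∈ X ∧ f x = y → x ∈ Prj M ∧ y ∈ Prj N := fun x y a =>
    ⟨hX.rep a.1, a.2 ▸ h.prj hX a.1⟩
  have key : ∀ (φ : E e → Amb M) z x, Pt X φ z x → ∃ g : E e → Fin (M * N) → ℂ,
      AnalyticAt ℂ g z ∧ g z ≠ 0 ∧ (fun x => seg x (f x)) ∘ φ =ᶠ[𝓝 z] proj ∘ g ∧
      ∀ (v : E e) (c : ℂ), fderiv ℂ g z v = c • g z → v = 0 := fun φ z x hp => by
    obtain ⟨g, hg, n1, he⟩ := h φ z x hp
    obtain ⟨g', rfl, hg', n2, hi⟩ := hp.rep
    refine ⟨fun w => tens (g' w) (g w), an_tens hg' hg, tens_ne n2 n1, ?_, fun v c hv => ?_⟩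
    · filter_upwards [he] with y a
      simp only [Function.comp_apply] at a ⊢
      rw [a, seg_proj]
    · obtain ⟨⟨a, ha⟩, -⟩ := imm_tens hg' hg n2 n1 hv
      exact hi v a ha
  have e1 : Sgr (fun x y => x ∈ X ∧ f x = y) = (fun x => seg x (f x)) '' X := by
    ext s
    constructor
    · rintro ⟨x, _, ⟨hx, rfl⟩, rfl⟩
      exact ⟨x, hx, rfl⟩
    · rintro ⟨x, hx, rfl⟩
      exact ⟨x, _, ⟨hx, rfl⟩, rfl⟩
  refine ⟨h.cont hX, ar_of_sgr h0 (pa_of_hom (sgr_prj_YD4 h0) fun v hv hx => ?_)⟩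
  rw [e1] at hx ⊢
  obtain ⟨P, -, -, h1, h2⟩ := chow1 (ph := fun x => seg x (f x)) hX
    (fun φ z x hp => (key φ z x hp).imp fun g a => ⟨a.1, a.2.1, a.2.2.1⟩)
    (fun x hx => subset_closure ⟨hx, by
      obtain ⟨φ, z, hp⟩ := hX.chart x hx
      obtain ⟨g, a⟩ := key φ z x hp
      exact ⟨φ, z, g, hp, a⟩⟩) hv hx
  exact ⟨P, h1, h2⟩

end Pool.Agent.CS
end
end

-- part Pool.Agent.P.MP_d34769_ag.YI0
section

/-! Strata of a normal crossing pair and products of manifolds are manifolds. -/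

open Set Filter Topology
open Pool.Agent.HT (Amb proj IsSNC strat)
open Pool.Agent.HIR

noncomputable section
namespace Pool.Agent.CS

variable {M N e e' : ℕ} {ι : Type}

theorem snc_closed {Z : Set (Amb N)} {D : ι → Set (Amb N)} (h : IsSNC e Z D) (i : ι) :
    IsClosed (D i) := by
  refine isClosed_of_closure_subset fun x hx => ?_
  have hZ : x ∈ Z := h.compact.isClosed.closure_subset (closure_mono (h.sub i) hx)
  obtain ⟨O, f, κ, hc, ⟨z, hz, rfl⟩, -, hD⟩ := h.chart x hZ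
  have hp : Pt Z (proj ∘ f) z ((proj ∘ f) z) := ⟨O, f, hc, rfl, hz, rfl⟩
  by_contra hn
  refine not_mem_closure hp (h.sub i) ?_ hx
  rcases hk : κ i with _ | k
  · filter_upwards [hc.isOpen.mem_nhds hz] with w hw e
    simpa [hk] using (hD i w hw).1 e
  · have h0 : z k ≠ 0 := fun e => hn ((hD i z hz).2 ⟨k, hk, e⟩)
    filter_upwards [hc.isOpen.mem_nhds hz, (continuous_apply k).continuousAt.eventually_ne h0]
      with w hw h1 e
    exact h1 (by simpa [hk] using (hD i w hw).1 e)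

theorem mf_strat [Finite ι] {Z : Set (Amb N)} {D : ι → Set (Amb N)} (h : IsSNC e Z D) {p : ℕ}
    (J : Fin p → ι) : Mf (e - (range J).ncard) (strat Z D J) := by
  refine ⟨h.compact.inter_right (isClosed_iInter fun j => snc_closed h _), fun x hx => ?_⟩
  obtain ⟨O, f, κ, hc, ⟨z, hz, rfl⟩, hκ, hD⟩ := h.chart x hx.1
  have hp : Pt Z (proj ∘ f) z ((proj ∘ f) z) := ⟨O, f, hc, rfl, hz, rfl⟩
  choose k hk _ using fun j => (hD (J j) z hz).1 (mem_iInter.1 hx.2 j)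
  have hT : (range J).ncard = (Finset.univ.image k).card := by
    rw [← ncard_coe_finset,
      ← ncard_image_of_injective (Finset.univ.image k : Set (Fin e)) (Option.some_injective _),
      ← InjOn.ncard_image (f := κ) (s := range J)]
    · congr 1
      rw [Finset.coe_image, Finset.coe_univ, image_univ, ← range_comp, ← range_comp]
      exact congrArg _ (funext hk)
    · rintro _ ⟨a, rfl⟩ _ ⟨b, rfl⟩ e
      exact hκ _ _ _ (hk a) (e ▸ hk a)
  have h1 : (Finset.univ.image k).card ≤ e := by simpa using Finset.card_le_univ (Finset.univ.image k)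
  obtain ⟨t, ht⟩ := exists_emb (e := e - (range J).ncard) (Finset.univ.image k) (by omega)
  refine ⟨_, _, (hp.sub inter_subset_left hx ?_ t ht).2⟩
  filter_upwards [hc.isOpen.mem_nhds hz, hp.ev] with w hw h2
  simp only [strat, mem_inter_iff, h2.mem, true_and, mem_iInter, Finset.forall_mem_image,
    Finset.mem_univ, true_imp_iff]
  exact forall_congr' fun j => (hD _ w hw).trans (by simp [hk])

theorem mem_prj_of_mf {X : Set (Amb M)} (hX : Mf e X) : X ⊆ Prj M := fun _ hx => hX.rep hx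

theorem sgr_eq (X : Set (Amb M)) (Y : Set (Amb N)) :
    (Sgr fun x y => x ∈ X ∧ y ∈ Y) = (fun p : Amb M × Amb N => seg p.1 p.2) '' X ×ˢ Y :=
  Set.ext fun _ => ⟨fun ⟨x, y, h, e⟩ => ⟨(x, y), h, e.symm⟩, fun ⟨p, h, e⟩ => ⟨p.1, p.2, h, e.symm⟩⟩

theorem map_seg {X : Set (Amb M)} {Y : Set (Amb N)} (hX : X ⊆ Prj M) (hY : Y ⊆ Prj N)
    {x : Amb M} {y : Amb N} (hx : x ∈ X) (hy : y ∈ Y) :
    Filter.map (fun p : Amb M × Amb N => seg p.1 p.2) (𝓝[X] x ×ˢ 𝓝[Y] y) =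
      𝓝[Sgr fun x y => x ∈ X ∧ y ∈ Y] seg x y := by
  rw [← nhdsWithin_prod_eq, sgr_eq]
  have hl : LeftInvOn (fun s => (ptr M N s, ptr2 M N s)) (fun p : Amb M × Amb N => seg p.1 p.2)
      (X ×ˢ Y) := fun p hp => Prod.ext (ptr_seg (hX hp.1) (hY hp.2)) (ptr2_seg (hX hp.1) (hY hp.2))
  exact hl.map_nhdsWithin_eq (hl (show (x, y) ∈ X ×ˢ Y from ⟨hx, hy⟩))
    (cont_ptr.prodMk cont_ptr2).continuousWithinAt cont_seg.continuousWithinAt

/-- the product of two charts -/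
theorem pt_sgr {X : Set (Amb M)} {Y : Set (Amb N)} (hX : X ⊆ Prj M) (hY : Y ⊆ Prj N)
    {φ : E e → Amb M} {ψ : E e' → Amb N} {z : E e} {z' : E e'} {x : Amb M} {y : Amb N}
    (h : Pt X φ z x) (h' : Pt Y ψ z' y) : Pt (Sgr fun x y => x ∈ X ∧ y ∈ Y)
      (fun w : E (e + e') => seg (φ (w ∘ Fin.castAdd e')) (ψ (w ∘ Fin.natAdd e)))
      (Fin.append z z') (seg x y) := by
  obtain ⟨g, rfl, ha, h0, hi⟩ := h.rep
  obtain ⟨g', rfl, ha', h0', hi'⟩ := h'.rep
  let L : E (e + e') →L[ℂ] E e := ContinuousLinearMap.pi fun i => .proj (Fin.castAdd e' i)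
  let L' : E (e + e') →L[ℂ] E e' := ContinuousLinearMap.pi fun i => .proj (Fin.natAdd e i)
  have hL : L (Fin.append z z') = z := funext fun i => Fin.append_left z z' i
  have hL' : L' (Fin.append z z') = z' := funext fun i => Fin.append_right z z' i
  rw [← hL] at ha h0 hi
  rw [← hL'] at ha' h0' hi'
  have a1 := ha.comp (L.analyticAt _)
  have a2 := ha'.comp (L'.analyticAt _)
  have e1 : (fun w : E (e + e') => seg ((proj ∘ g) (w ∘ Fin.castAdd e'))
      ((proj ∘ g') (w ∘ Fin.natAdd e))) = proj ∘ fun w => tens ((g ∘ L) w) ((g' ∘ L') w) :=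
    funext fun w => seg_proj _ _
  have e2 : seg x y = proj (tens ((g ∘ L) (Fin.append z z')) ((g' ∘ L') (Fin.append z z'))) := by
    rw [← seg_proj, Function.comp_apply, Function.comp_apply, hL, hL', ← h.eq, ← h'.eq]; rfl
  rw [e1, e2]
  refine pt_of_imm (an_tens a1 a2) (tens_ne h0 h0') (fun v c hv => ?_) ?_
  · obtain ⟨⟨a, b1⟩, b, b2⟩ := imm_tens a1 a2 h0 h0' hv
    rw [fderiv_comp _ ha.differentiableAt L.differentiableAt, L.fderiv] at b1
    rw [fderiv_comp _ ha'.differentiableAt L'.differentiableAt, L'.fderiv] at b2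
    funext i
    exact Fin.addCases (fun i => congrFun (hi _ a b1) i) (fun i => congrFun (hi' _ b b2) i) i
  · rw [← e1, ← e2, ← map_seg hX hY h.mem h'.mem, ← h.map, ← h'.map, prod_map_map_eq,
      ← nhds_prod_eq, Filter.map_map,
      show Fin.append z z' = Fin.appendHomeomorph e e' (z, z') from rfl,
      ← (Fin.appendHomeomorph e e').map_nhds_eq, Filter.map_map]
    congr 1
    funext p
    have a : Fin.append p.1 p.2 ∘ Fin.castAdd e' = p.1 := funext (Fin.append_left p.1 p.2)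
    have b : Fin.append p.1 p.2 ∘ Fin.natAdd e = p.2 := funext (Fin.append_right p.1 p.2)
    exact congrArg₂ seg (congrArg (proj ∘ g) a) (congrArg (proj ∘ g') b)

theorem mf_sgr {X : Set (Amb M)} {Y : Set (Amb N)} (hX : Mf e X) (hY : Mf e' Y) :
    Mf (e + e') (Sgr fun x y => x ∈ X ∧ y ∈ Y) := by
  refine ⟨sgr_eq X Y ▸ (hX.compact.prod hY.compact).image cont_seg, ?_⟩
  rintro _ ⟨x, y, ⟨hx, hy⟩, rfl⟩
  obtain ⟨φ, z, h⟩ := hX.chart x hx
  obtain ⟨ψ, z', h'⟩ := hY.chart y hy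
  exact ⟨_, _, pt_sgr (mem_prj_of_mf hX) (mem_prj_of_mf hY) h h'⟩

end Pool.Agent.CS
end
end
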