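import Pool.Agent.K.MP_d34769_ag.C79
import Pool.Agent.K.MP_d34769_ag.C25
import Pool.Agent.K.MP_d34769_ag.C52
import Pool.Agent.K.MP_d34769_ag.C53
import Pool.Agent.K.MP_d34769_ag.C54
import Pool.Agent.P.MP_65ad7c_ag.LProj
import Pool.Agent.P.MP_65ad7c_ag.VPrime
import Pool.Agent.K.MP_d34769_ag.C36
import Pool.Agent.K.MP_d34769_ag.C58

-- part Pool.Agent.P.MP_d34769_ag.YW9
section

/-! The results of the word algebra. -/

open MvPolynomial

noncomputable section
namespace Pool.Agent.CS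
open Pool.Agent.P.MP_d34769_ag

section ops
variable {X M : Type} [AddCommGroup M] [Union X]

theorem cobM_cobM [Std.Associative (α := X) (· ∪ ·)] (L : List (List X)) (φ : List (List X) → M) :
    (cobM L fun K => cobM K φ) = 0 := HA.cobM_cobM L φ

theorem sM_cobM [Std.Commutative (α := X) (· ∪ ·)] (L : List (List X)) (φ : List (List X) → M) :
    (sM L fun K => cobM K φ) = cobM L fun K => sM K φ := HA.sM_cobM L φ

theorem tau_cobM (i : ℕ) (L : List (List X)) (φ : List (List X) → M) :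
    (tau i L fun K => cobM K φ) = cobM L fun K => tau i K φ := HA.tau_cobM i L φ

end ops

variable {I : Type} [Fintype I] [DecidableEq I] {col : I → Fin 3} {θ : (Fin 3 → ℕ) → ℝ} {o : I → ℕ}

theorem sL_Zk {k ℓ p : ℕ} {φ : MC I} (h : φ ∈ Zk col θ o k ℓ p) :
    sL φ ∈ Zk col θ o (k + 1) ℓ p := HA.tr_sC φ ▸ (HA.sC_good k).zk h

theorem sL_Bk {k ℓ p : ℕ} {φ : MC I} (h : φ ∈ Bk col θ o k ℓ p) :
    sL φ ∈ Bk col θ o (k + 1) ℓ p := HA.tr_sC φ ▸ (HA.sC_good k).bk h

theorem tL_Zk (i : ℕ) {k ℓ p : ℕ} {φ : MC I} (h : φ ∈ Zk col θ o k ℓ p) :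
    tL i φ ∈ Zk col θ o k ℓ p := HA.tr_tC i φ ▸ (HA.tC_good i k).zk h

theorem tL_Bk (i : ℕ) {k ℓ p : ℕ} {φ : MC I} (h : φ ∈ Bk col θ o k ℓ p) :
    tL i φ ∈ Bk col θ o k ℓ p := HA.tr_tC i φ ▸ (HA.tC_good i k).bk h

omit [Fintype I] in
theorem sL_Cc {p : ℕ} {φ : MC I} (h : φ ∈ Cc col p) : sL φ ∈ Cc col p :=
  HA.tr_sC φ ▸ (HA.sC_good 0).cc h

omit [Fintype I] in
theorem tL_Cc (i : ℕ) {p : ℕ} {φ : MC I} (h : φ ∈ Cc col p) : tL i φ ∈ Cc col p :=
  HA.tr_tC i φ ▸ (HA.tC_good i 0).cc h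

variable (col θ o)

/-- HA4 -/
theorem sum_ak_le (K ℓ p : ℕ) : ∑ k ∈ Finset.Icc 1 K, ak col θ o k ℓ p ≤ xt col θ o ℓ p :=
  HA.sum_ak_le col θ o K ℓ p

/-- HA5 -/
theorem ak_one (ℓ p : ℕ) : ak col θ o 1 (ℓ + 1) p = har col θ o (ℓ + 1) p := HA.ak_one col θ o ℓ p

end Pool.Agent.CS
end
end

-- part Pool.Agent.P.MP_d34769_ag.YHB0
section

/-! The shapes of the diagrams indexed by lists of words. -/

noncomputable section
namespace Pool.Agent.CS
open Pool.Agent.P.MP_d34769_ag

variable {I : Type} [Fintype I] [DecidableEq I] {col : I → Fin 3} {th : Fin 3 → ℤ}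

/-- `i` lies in a letter of `u` -/
def Has (u : List (Finset I)) (i : I) : Prop := ∃ b ∈ u, i ∈ b

open Classical in
/-- the number of the word that contains `i` -/
def slot : List (List (Finset I)) → I → ℕ
  | [], _ => 0
  | u :: L, i => if Has u i then 0 else slot L i + 1

/-- the order of a list of words -/
def OrdM (L : List (List (Finset I))) (i j : I) : Prop := ∃ u ∈ L, Ord u i j

/-- `L` refines `K`, and the words of `L` go to the words of `K` through `σ` -/
structure RS (σ : ℕ → ℕ) (L K : List (List (Finset I))) : Prop where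
  ord : ∀ i j, OrdM L i j → OrdM K i j
  sl : ∀ i, slot K i = σ (slot L i)

/-- relabelling -/
def rlb (w : Equiv.Perm I) (L : List (List (Finset I))) : List (List (Finset I)) :=
  L.map (List.map fun b => b.image w)

section words
omit [Fintype I] [DecidableEq I]
variable {L K M : List (List (Finset I))} {u v w : List (Finset I)} {i j : I} {σ τ : ℕ → ℕ}

theorem RS.comp (h : RS σ L K) (h' : RS τ K M) : RS (τ ∘ σ) L M :=
  ⟨fun i j e => h'.ord i j (h.ord i j e), fun i => by rw [h'.sl, h.sl]; rfl⟩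

theorem RS.refl (L : List (List (Finset I))) : RS id L L := ⟨fun _ _ => id, fun _ => rfl⟩

theorem slot_eq_iff (h : L.flatten.Pairwise Disjoint) (hi : ∃ u ∈ L, Has u i)
    (hj : ∃ u ∈ L, Has u j) : slot L i = slot L j ↔ ∃ u ∈ L, Has u i ∧ Has u j := by
  induction L with
  | nil => simp at hi
  | cons u L ih =>
    rw [List.flatten_cons, List.pairwise_append] at h
    have key : ∀ i, Has u i → ∀ v ∈ L, ¬ Has v i := fun i ⟨a, ha, hi⟩ v hv ⟨b, hb, hj⟩ =>
      Finset.disjoint_left.1 (h.2.2 a ha b (List.mem_flatten.2 ⟨v, hv, hb⟩)) hi hj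
    simp only [List.mem_cons, exists_eq_or_imp, slot] at hi hj ⊢
    by_cases a : Has u i <;> by_cases b : Has u j
    · simp [a, b]
    · simp only [a, b, if_true, if_false, and_false, false_or]
      exact ⟨fun e => by omega, fun ⟨v, hv, e⟩ => absurd e.1 (key i a v hv)⟩
    · simp only [a, b, if_true, if_false, false_and, false_or]
      exact ⟨fun e => by omega, fun ⟨v, hv, e⟩ => absurd e.2 (key j b v hv)⟩
    · simp only [a, b, if_false, false_and, false_or, Nat.add_right_cancel_iff]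
      exact ih h.2.1 (hi.resolve_left a) (hj.resolve_left b)

theorem slot_lt (hi : ∃ u ∈ L, Has u i) : slot L i < L.length := by
  induction L with
  | nil => simp at hi
  | cons u L ih =>
    simp only [List.mem_cons, exists_eq_or_imp, slot, List.length_cons] at hi ⊢
    split_ifs with a
    · omega
    · exact Nat.succ_lt_succ (ih (hi.resolve_left a))

theorem Ord.sub (h : Ord u i j) (e : u.Sublist w) : Ord w i j := by
  obtain ⟨a, b, hi, hj, k⟩ := h
  exact ⟨a, b, hi, hj, k.imp (fun k => ⟨k.1, e.subset k.2⟩) fun k => k.trans e⟩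

theorem SfM.rs (h : SfM L K) : RS (· - 1) L K := by
  obtain ⟨u, v, w, T, rfl, rfl, h1, h2, h3⟩ := h
  refine ⟨?_, fun i => ?_⟩
  · simp only [OrdM, List.mem_cons, exists_eq_or_imp]
    rintro i j (e | e | e)
    exacts [Or.inl (e.sub h1), Or.inl (e.sub h2), Or.inr e]
  · have : Has w i ↔ Has u i ∨ Has v i := by
      simp only [Has, h3.mem_iff, List.mem_append, or_and_right, exists_or]
    simp only [slot]
    by_cases a : Has u i <;> by_cases b : Has v i <;> simp [a, b, this]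

theorem SfM.perm (h : SfM L K) : K.flatten.Perm L.flatten := by
  obtain ⟨u, v, w, T, rfl, rfl, -, -, h3⟩ := h
  simpa using h3.append_right T.flatten

theorem Sw.perm {n : ℕ} (h : Sw n L K) : K.Perm L := by
  obtain ⟨A, u, v, B, -, rfl, rfl⟩ := h
  exact (List.Perm.swap u v B).append_left A

theorem Sw.rs {n : ℕ} (h : Sw n L K) (hp : L.flatten.Pairwise Disjoint) :
    RS (Equiv.swap n (n + 1)) L K := by
  refine ⟨fun i j ⟨u, hu, e⟩ => ⟨u, h.perm.mem_iff.2 hu, e⟩, fun i => ?_⟩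
  obtain ⟨A, u, v, B, rfl, rfl, rfl⟩ := h
  induction A with
  | nil =>
    have : ¬(Has u i ∧ Has v i) := fun ⟨⟨a, ha, hi⟩, b, hb, hj⟩ => by
      simp only [List.nil_append, List.flatten_cons, List.pairwise_append] at hp
      exact Finset.disjoint_left.1 (hp.2.2 a ha b (List.mem_append_left _ hb)) hi hj
    simp only [List.nil_append, slot, List.length_nil]
    by_cases a : Has u i <;> by_cases b : Has v i
    · exact absurd ⟨a, b⟩ this
    · simp [a, b]
    · simp [a, b]
    · simp only [a, b, if_false]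
      rw [Equiv.swap_apply_of_ne_of_ne] <;> omega
  | cons a A ih =>
    rw [List.cons_append, List.flatten_cons, List.pairwise_append] at hp
    simp only [List.cons_append, slot, List.length_cons, ih hp.2.1]
    split_ifs
    · rw [Equiv.swap_apply_of_ne_of_ne] <;> omega
    · simp only [Equiv.swap_apply_def]
      split_ifs <;> omega

end words

section fc
omit [Fintype I]
variable {L K : List (List (Finset I))} {u w : List (Finset I)} {i j : I}

theorem Fc.has (h : Fc u w) : Has w i ↔ Has u i := by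
  obtain ⟨s, a, b, t, rfl, rfl⟩ := h
  simp only [Has, List.mem_append, List.mem_cons, or_and_right, exists_or, exists_eq_left,
    Finset.mem_union, or_assoc]

theorem Fc.ord (h : Fc u w) (e : Ord u i j) : Ord w i j := by
  obtain ⟨s, a, b, t, rfl, rfl⟩ := h
  induction s with
  | nil =>
    simp only [List.nil_append, ord_cons, List.mem_cons, exists_eq_or_imp, Finset.mem_union] at e ⊢
    rcases e with e | e | e
    exacts [Or.inl ⟨Or.inl e.1, or_assoc.2 e.2⟩, Or.inl ⟨Or.inr e.1, e.2.imp_left Or.inr⟩, Or.inr e]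
  | cons c s ih =>
    rw [List.cons_append, ord_cons] at e ⊢
    exact e.imp (fun e => ⟨e.1, e.2.imp id (Fc.has ⟨s, a, b, t, rfl, rfl⟩).2⟩) ih

theorem FcM.rs (h : FcM L K) : RS id L K := by
  obtain ⟨A, u, w, B, rfl, rfl, h⟩ := h
  refine ⟨?_, fun i => ?_⟩
  · simp only [OrdM, List.mem_append, List.mem_cons, or_and_right, exists_or, exists_eq_left]
    exact fun i j e => e.imp id (Or.imp h.ord id)
  · induction A with
    | nil => simp only [List.nil_append, slot, id]; rw [propext h.has]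
    | cons a A ih => simp only [List.cons_append, slot, ih, id]

theorem FcM.fc (h : FcM L K) : Fc L.flatten K.flatten := by
  obtain ⟨A, _, _, B, rfl, rfl, s, a, b, t, rfl, rfl⟩ := h
  exact ⟨A.flatten ++ s, a, b, t ++ B.flatten, by simp, by simp⟩

theorem Fc.length (h : Fc u w) : u.length = w.length + 1 ∧ 0 < w.length := by
  obtain ⟨s, a, b, t, rfl, rfl⟩ := h
  simp only [List.length_append, List.length_cons]
  omega

theorem has_map (w : Equiv.Perm I) : Has (u.map fun b => b.image w) (w i) ↔ Has u i := by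
  simp [Has]

theorem slot_rlb (w : Equiv.Perm I) : slot (rlb w L) (w i) = slot L i := by
  induction L with
  | nil => rfl
  | cons u L ih => simp only [rlb, List.map_cons, slot] at ih ⊢; rw [propext (has_map w), ih]

theorem OrdM.rlb (w : Equiv.Perm I) (h : OrdM L i j) : OrdM (rlb w L) (w i) (w j) := by
  obtain ⟨u, hu, a, b, hi, hj, k⟩ := h
  exact ⟨_, List.mem_map_of_mem hu, a.image w, b.image w, Finset.mem_image_of_mem _ hi,
    Finset.mem_image_of_mem _ hj, k.imp (fun k => ⟨by rw [k.1], List.mem_map_of_mem k.2⟩)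
      fun k => k.map fun b : Finset I => b.image w⟩

theorem rlb_one : rlb 1 L = L := by simp [rlb]

theorem rlb_mul (w w' : Equiv.Perm I) : rlb (w * w') L = rlb w (rlb w' L) := by
  simp [rlb, Function.comp_def, Finset.image_image]

theorem rlb_inj (w : Equiv.Perm I) : rlb w L = rlb w K ↔ L = K :=
  ⟨fun e => by simpa [← rlb_mul, rlb_one] using congrArg (rlb w⁻¹) e, congrArg _⟩

theorem flatten_rlb (w : Equiv.Perm I) :
    (rlb w L).flatten = L.flatten.map fun b => b.image w := by simp [rlb, List.map_flatten]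

end fc

section adm
variable {L K : List (List (Finset I))}

omit [DecidableEq I] in
theorem Adm.of_perm (h : Adm col th L) (e : K.flatten.Perm L.flatten) (hn : ∀ u ∈ K, u ≠ []) :
    Adm col th K :=
  ⟨⟨fun b hb => h.part.1 b (e.mem_iff.1 hb), ((e.map _).sum_eq).trans h.part.2⟩, hn,
    fun b hb => h.bal b (e.mem_iff.1 hb)⟩

omit [DecidableEq I] in
theorem Adm.sfM (h : Adm col th L) (e : SfM L K) : Adm col th K ∧ K.length + 1 = L.length := by
  refine ⟨h.of_perm e.perm ?_, ?_⟩ <;> obtain ⟨u, v, w, T, rfl, rfl, h1, -⟩ := e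
  · exact List.forall_mem_cons.2 ⟨fun k => h.ne u (by simp) (by simpa [k] using h1),
      fun x hx => h.ne x (by simp [hx])⟩
  · rfl

omit [DecidableEq I] in
theorem Adm.sw {n : ℕ} (h : Adm col th L) (e : Sw n L K) : Adm col th K ∧ K.length = L.length :=
  ⟨h.of_perm e.perm.flatten fun u hu => h.ne u (e.perm.mem_iff.1 hu), e.perm.length_eq⟩

theorem Adm.fcM (h : Adm col th L) (e : FcM L K) : Adm col th K ∧ K.length = L.length := by
  obtain ⟨s, a, b, t, h1, h2⟩ := e.fc
  have hp := h.part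
  have hd : Disjoint a b := by
    have := hp.pw
    rw [h1, List.pairwise_append, List.pairwise_cons] at this
    exact this.2.1.1 b (by simp)
  have hb := h.bal
  rw [h1] at hp hb
  refine ⟨⟨?_, ?_, ?_⟩, ?_⟩
  · rw [h2]
    refine ⟨fun c hc => ?_, ?_⟩
    · simp only [List.mem_append, List.mem_cons] at hc
      rcases hc with hc | rfl | hc
      exacts [hp.1 c (by simp [hc]), (hp.1 a (by simp)).mono Finset.subset_union_left,
        hp.1 c (by simp [hc])]
    · rw [← hp.2, ← Finset.disjUnion_eq_union a b hd]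
      simp only [List.map_append, List.map_cons, List.sum_append, List.sum_cons, ← add_assoc a.val]
      rfl
  · obtain ⟨A, u, w, B, rfl, rfl, k⟩ := e
    intro x hx
    simp only [List.mem_append, List.mem_cons] at hx
    rcases hx with hx | rfl | hx
    exacts [h.ne x (by simp [hx]), List.ne_nil_of_length_pos k.length.2, h.ne x (by simp [hx])]
  · rw [h2]
    intro c hc
    simp only [List.mem_append, List.mem_cons] at hc
    rcases hc with hc | rfl | hc
    exacts [hb c (by simp [hc]), by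
      rw [Finset.sum_union hd, hb a (by simp), hb b (by simp), add_zero], hb c (by simp [hc])]
  · obtain ⟨A, u, w, B, rfl, rfl, -⟩ := e
    simp

theorem Adm.rlb (h : Adm col th L) {w : Equiv.Perm I} (hw : ∀ i, col (w i) = col i) :
    Adm col th (rlb w L) := by
  refine ⟨⟨?_, ?_⟩, ?_, ?_⟩
  · rw [flatten_rlb]
    exact List.forall_mem_map.2 fun b hb => (h.part.1 b hb).image w
  · have : ∀ l : List (Finset I), ((l.map fun b => b.image w).map Finset.val).sum =
        (l.map Finset.val).sum.map w := fun l => by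
      induction l with
      | nil => rfl
      | cons b l ih =>
        simp only [List.map_cons, List.sum_cons, ih, Multiset.map_add,
          Finset.image_val_of_injOn w.injective.injOn]
    rw [flatten_rlb, this, h.part.2]
    exact Multiset.map_univ_val_equiv w
  · exact List.forall_mem_map.2 fun u hu k => h.ne u hu (List.map_eq_nil_iff.1 k)
  · rw [flatten_rlb]
    exact List.forall_mem_map.2 fun b hb => by
      rw [Finset.sum_image w.injective.injOn]
      simpa only [hw] using h.bal b hb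

theorem Adm.cp_iff (h : Adm col th L) (m : ℕ) {i j : I} :
    (mdat m h).cp i j ↔ slot L i = slot L j := by
  rw [slot_eq_iff h.part.pw (h.part.mem_word i) (h.part.mem_word j)]
  exact ⟨fun ⟨u, hu, a, ha, b, hb, hi, hj⟩ => ⟨u, hu, ⟨a, ha, hi⟩, b, hb, hj⟩,
    fun ⟨u, hu, ⟨a, ha, hi⟩, b, hb, hj⟩ => ⟨u, hu, a, ha, b, hb, hi, hj⟩⟩

omit [DecidableEq I] in
theorem Adm.tot_le (h : Adm col th L) : L.flatten.length ≤ Fintype.card I :=
  OPs.length_le (s := Finset.univ.val) h.part

omit [DecidableEq I] in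
theorem Adm.len_le (h : Adm col th L) : L.length ≤ L.flatten.length := by
  have := h.ne
  clear h
  induction L with
  | nil => simp
  | cons u L ih =>
    have h1 := List.length_pos_of_ne_nil (this u (by simp))
    have h2 := ih fun v hv => this v (by simp [hv])
    simp only [List.length_cons, List.flatten_cons, List.length_append]
    omega

end adm

variable (col th)

/-- admissible lists of `k` words -/
def Wx (k : ℕ) : Type := {L : List (List (Finset I)) // Adm col th L ∧ L.length = k}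

instance (k : ℕ) : Finite (Wx col th k) := by
  have : Finite {u : List (Finset I) // u.length ≤ Fintype.card I} :=
    List.finite_length_le (Finset I) (Fintype.card I)
  refine ((List.finite_length_eq {u : List (Finset I) // u.length ≤ Fintype.card I} k).image
    (List.map Subtype.val)).subset (t := {L | Adm col th L ∧ L.length = k}) fun L hL => ?_
  lift L to List {u : List (Finset I) // u.length ≤ Fintype.card I} using fun u hu =>
    (List.sublist_flatten_of_mem hu).length_le.trans hL.1.tot_le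
  exact ⟨L, by simpa using hL.2, rfl⟩

instance (k : ℕ) : Fintype (Wx col th k) := Fintype.ofFinite _

instance (k : ℕ) : DecidableEq (Wx col th k) := inferInstanceAs (DecidableEq (Subtype _))

/-- the indicator function of a list -/
abbrev ind (K : List (List (Finset I))) : List (List (Finset I)) → ℤ := fun b => if b = K then 1 else 0

variable {col th} in
theorem NatOp.sum_Wx {M : Type} [AddCommGroup M] {k : ℕ}
    {O : ∀ (M : Type) [AddCommGroup M], (List (List (Finset I)) → M) → M}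
    {F : List (List (Finset I)) → Prop} (h : NatOp O F)
    (hF : ∀ K, F K → Adm col th K ∧ K.length = k) (φ : List (List (Finset I)) → M) :
    O M φ = ∑ K : Wx col th k, O ℤ (ind K.1) • φ K.1 := by
  rw [h.matrix (Finset.univ.map ⟨fun K : Wx col th k => K.1, Subtype.val_injective⟩)
    (fun K hK => Finset.mem_map.2 ⟨⟨K, hF K hK⟩, Finset.mem_univ _, rfl⟩), Finset.sum_map]
  rfl

variable {col th} in
theorem cobM_sum {M : Type} [AddCommGroup M] {k : ℕ} (L : Wx col th k)
    (φ : List (List (Finset I)) → M) :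
    cobM L.1 φ = ∑ K : Wx col th k, cobM L.1 (ind K.1) • φ K.1 :=
  (cobM_nat L.1).sum_Wx (fun _ h => ⟨(L.2.1.fcM h).1, (L.2.1.fcM h).2.trans L.2.2⟩) φ

/-- the shape of the cobar diagram on `k` words -/
def shT (k : ℕ) : Sh where
  ι := Wx col th k
  deg L := L.1.flatten.length - 1
  rel L K := RS id L.1 K.1
  ε L K := cobM L.1 (ind K.1)
  sup L K h := by
    have h1 := (cobM_nat L.1).of_ne h
    have h2 := h1.fc.length
    exact ⟨h1.rs, by omega⟩
  trans h h' := h.comp h'
  εε L K := (cobM_sum L fun b => cobM b (ind K.1)).symm.trans (cobM_cobM _ _)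

/-- an operator on cochains of lists that commutes with the coboundary -/
structure WOp (k k' : ℕ) where
  σ : ℕ → ℕ
  O : List (List (Finset I)) → ∀ (M : Type) [AddCommGroup M], (List (List (Finset I)) → M) → M
  F : List (List (Finset I)) → List (List (Finset I)) → Prop
  nat : ∀ L, NatOp (O L) (F L)
  sup : ∀ (L : Wx col th k) K, F L.1 K → (Adm col th K ∧ K.length = k') ∧ RS σ L.1 K ∧
    K.flatten.length = L.1.flatten.length
  cob : ∀ (L : Wx col th k) (φ : List (List (Finset I)) → ℤ),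
    (O L.1 ℤ fun K => cobM K φ) = cobM L.1 fun K => O K ℤ φ
  map : ∀ {M : Type} [AddCommGroup M] (w : Equiv.Perm I) L (φ : List (List (Finset I)) → M),
    O (rlb w L) M φ = O L M fun K => φ (rlb w K)

variable {col th} in
theorem WOp.sum {k k' : ℕ} (A : WOp col th k k') {M : Type} [AddCommGroup M] (L : Wx col th k)
    (φ : List (List (Finset I)) → M) :
    A.O L.1 M φ = ∑ K : Wx col th k', A.O L.1 ℤ (ind K.1) • φ K.1 :=
  (A.nat L.1).sum_Wx (fun K h => (A.sup L K h).1) φ

variable {col th} in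
/-- the map of shapes of an operator -/
def WOp.sh {k k' : ℕ} (A : WOp col th k k') : ShH (shT col th k) (shT col th k') where
  R L K := RS A.σ L.1 K.1
  μ L K := A.O L.1 ℤ (ind K.1)
  sup L K h := by
    have h1 := A.sup L K.1 ((A.nat L.1).of_ne h)
    exact ⟨h1.2.1, congrArg (· - 1) h1.2.2.symm⟩
  l h h' := h.comp h'
  r h h' := h.comp h'
  comm L K := (cobM_sum L fun b => A.O b ℤ (ind K.1)).symm.trans
    ((A.cob L _).symm.trans (A.sum L fun b => cobM b (ind K.1)))

/-- the shuffle of the first two words -/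
def opS (k : ℕ) : WOp col th (k + 1) k where
  σ := (· - 1)
  O L _ _ φ := sM L φ
  F := SfM
  nat := sM_nat
  sup L _ h := ⟨⟨(L.2.1.sfM h).1, Nat.succ_injective ((L.2.1.sfM h).2.trans L.2.2)⟩, h.rs,
    h.perm.length_eq⟩
  cob _ _ := sM_cobM _ _
  map _ _ _ := sM_map _ _ _

/-- the exchange of two neighbouring words -/
def opT (k n : ℕ) : WOp col th k k where
  σ := Equiv.swap n (n + 1)
  O L _ _ φ := tau n L φ
  F := Sw n
  nat := tau_nat n
  sup L _ h := ⟨⟨(L.2.1.sw h).1, (L.2.1.sw h).2.trans L.2.2⟩, h.rs L.2.1.part.pw,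
    h.perm.flatten.length_eq⟩
  cob _ _ := tau_cobM _ _ _
  map _ _ _ := tau_map _ _ _ _

/-- the permutations that keep the colours -/
def Wc : Subgroup (Equiv.Perm I) where
  carrier := {w | ∀ i, col (w i) = col i}
  mul_mem' ha hb i := (ha _).trans (hb i)
  one_mem' _ := rfl
  inv_mem' {a} ha i := by simpa using (ha (a⁻¹ i)).symm

instance : Fintype (Wc col) := Fintype.ofFinite _

variable {col th} in
/-- relabelling of an index -/
def Wx.rlb {k : ℕ} (w : Wc col) (L : Wx col th k) : Wx col th k :=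
  ⟨CS.rlb w.1 L.1, L.2.1.rlb w.2, by rw [CS.rlb, List.length_map, L.2.2]⟩

/-- the action on the indices -/
def actI (k : ℕ) : Wc col →* Equiv.Perm (Wx col th k) where
  toFun w :=
    { toFun := Wx.rlb w
      invFun := Wx.rlb w⁻¹
      left_inv := fun L => Subtype.ext (by simp [Wx.rlb, ← rlb_mul, rlb_one])
      right_inv := fun L => Subtype.ext (by simp [Wx.rlb, ← rlb_mul, rlb_one]) }
  map_one' := Equiv.ext fun _ => Subtype.ext rlb_one
  map_mul' w w' := Equiv.ext fun _ => Subtype.ext (rlb_mul w.1 w'.1)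

variable {col th}

theorem actI_val {k : ℕ} (w : Wc col) (L : Wx col th k) : (actI col th k w L).1 = rlb w.1 L.1 := rfl

omit [Fintype I] in
theorem cobM_rlb {M : Type} [AddCommGroup M] (w : Equiv.Perm I) (L : List (List (Finset I)))
    (φ : List (List (Finset I)) → M) : cobM (rlb w L) φ = cobM L fun K => φ (rlb w K) :=
  cobM_map _ (fun _ _ => Finset.image_union _ _) L φ

theorem shT_ε_rlb {k : ℕ} (w : Wc col) (L K : Wx col th k) :
    (shT col th k).ε (actI col th k w L) (actI col th k w K) = (shT col th k).ε L K :=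
  (cobM_rlb w.1 L.1 _).trans (congrArg _ (funext fun _ => if_congr (rlb_inj _) rfl rfl))

theorem WOp.μ_rlb {k k' : ℕ} (A : WOp col th k k') (w : Wc col) (L : Wx col th k)
    (K : Wx col th k') : A.sh.μ (actI col th k w L) (actI col th k' w K) = A.sh.μ L K :=
  (A.map w.1 L.1 _).trans (congrArg _ (funext fun _ => if_congr (rlb_inj _) rfl rfl))

/-- the morphism of data that belongs to a refinement; word `a` is framed through `e a` -/
def RS.mor {σ : ℕ → ℕ} {L K : List (List (Finset I))} (h : RS σ L K) (hL : Adm col th L)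
    (hK : Adm col th K) {m m' : ℕ} (e : ℕ → Fin m ↪ Fin m')
    (he : ∀ a < L.length, ∀ b < L.length, a ≠ b → σ a = σ b → ∀ r s, e a r ≠ e b s) :
    Dat.Mor (mdat m hL) (mdat m' hK) where
  w := Equiv.refl I
  ι i := e (slot L i)
  col _ := rfl
  th := rfl
  gp i j k := ⟨k.1, h.ord i j k.2⟩
  rl := h.ord
  cp i j k := (hK.cp_iff m').2 (by rw [Equiv.refl_apply, Equiv.refl_apply, h.sl, h.sl,
    (hL.cp_iff m).1 k])
  ι_eq i j k := by rw [(hL.cp_iff m).1 k]
  ι_ne i j k k' := he _ (slot_lt (hL.part.mem_word i)) _ (slot_lt (hL.part.mem_word j))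
    (fun c => k ((hL.cp_iff m).2 c)) (by rw [← h.sl, ← h.sl]; exact (hK.cp_iff m').1 k')

/-- the morphism of data that belongs to a relabelling -/
def morW {L K : List (List (Finset I))} (hL : Adm col th L) (hK : Adm col th K) (m : ℕ)
    (w : Wc col) (e : rlb w.1 L = K) : Dat.Mor (mdat m hL) (mdat m hK) where
  w := w.1
  ι _ := Function.Embedding.refl _
  col := w.2
  th := rfl
  gp i j k := ⟨(w.2 i).trans (k.1.trans (w.2 j).symm), e ▸ OrdM.rlb w.1 k.2⟩
  rl i j k := e ▸ OrdM.rlb w.1 k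
  cp i j k := (hK.cp_iff m).2 (by rw [← e, slot_rlb, slot_rlb, (hL.cp_iff m).1 k])
  ι_eq _ _ _ := rfl
  ι_ne i j k k' := absurd ((hL.cp_iff m).2 (by
    rw [← slot_rlb w.1, ← slot_rlb w.1 (i := j), e]; exact (hK.cp_iff m).1 k')) k

theorem Dat.Mor.ext' {I' : Type} [Fintype I'] [DecidableEq I'] {D : Dat I} {D' : Dat I'}
    {h h' : Dat.Mor D D'} (e : ∀ i, h.w i = h'.w i) (e' : ∀ i r, h.ι i r = h'.ι i r) : h = h' := by
  cases h
  cases h'
  congr
  exacts [Equiv.ext e, funext fun i => Function.Embedding.ext (e' i)]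

end Pool.Agent.CS
end
end

-- part Pool.Agent.P.MP_d34769_ag.YF1a
section

/-! The character, the energy and the layer lemma. -/

open Matrix Filter Topology

set_option linter.unusedSectionVars false

noncomputable section
namespace Pool.Agent.CS

variable {I : Type} [Fintype I] [DecidableEq I]

/-- the layer lemma for nonnegative functions -/
theorem layer_pos (w : I → ℝ) (n : ℕ) : ∀ τ : I → ℝ, (Finset.univ.filter fun i => τ i ≠ 0).card ≤ n →
    (∀ i, 0 ≤ τ i) →
    (∀ l : ℝ, 0 < l → (∃ i, l ≤ τ i) → 0 < ∑ i ∈ Finset.univ.filter (fun i => l ≤ τ i), w i) →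
    τ = 0 ∨ 0 < ∑ i, w i * τ i := by
  induction n with
  | zero =>
    intro τ hc _ _
    left
    funext i
    by_contra h
    have : i ∈ Finset.univ.filter fun i => τ i ≠ 0 := by simpa using h
    rw [Nat.le_zero, Finset.card_eq_zero] at hc
    simp [hc] at this
  | succ n ih =>
    intro τ hc h0 hl
    by_cases hz : τ = 0
    · exact Or.inl hz
    right
    have hne : (Finset.univ.filter fun i => τ i ≠ 0).Nonempty := by
      obtain ⟨i, hi⟩ := Function.ne_iff.1 hz
      exact ⟨i, by simpa using hi⟩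
    obtain ⟨i0, hi0, hmin⟩ := Finset.exists_min_image _ τ hne
    have hi0' : τ i0 ≠ 0 := by simpa using hi0
    have hp : 0 < τ i0 := lt_of_le_of_ne (h0 i0) hi0'.symm
    have hmin' : ∀ i, τ i ≠ 0 → τ i0 ≤ τ i := fun i hi => hmin i (by simpa using hi)
    obtain ⟨τ', hτ'⟩ : ∃ τ' : I → ℝ, ∀ i, τ' i = if τ i0 ≤ τ i then τ i - τ i0 else 0 :=
      ⟨_, fun _ => rfl⟩
    have hsum : ∑ i, w i * τ i
        = τ i0 * ∑ i ∈ Finset.univ.filter (fun i => τ i0 ≤ τ i), w i + ∑ i, w i * τ' i := by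
      rw [Finset.sum_filter, Finset.mul_sum, ← Finset.sum_add_distrib]
      refine Finset.sum_congr rfl fun i _ => ?_
      rw [hτ']
      split_ifs with h
      · ring
      · have : τ i = 0 := by
          by_contra h'
          exact h (hmin' i h')
        simp [this]
    have h1 := mul_pos hp (hl _ hp ⟨i0, le_rfl⟩)
    have hiff : ∀ l : ℝ, 0 < l → ∀ i, l ≤ τ' i ↔ l + τ i0 ≤ τ i := fun l hl0 i => by
      rw [hτ']
      split_ifs with h
      · constructor <;> intro <;> linarith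
      · constructor <;> intro <;> linarith [not_le.1 h]
    have h2 := ih τ' (by
      have hsub : (Finset.univ.filter fun i => τ' i ≠ 0) ⊆
          (Finset.univ.filter fun i => τ i ≠ 0).erase i0 := by
        intro i hi
        have hi' : τ' i ≠ 0 := by simpa using hi
        rw [hτ'] at hi'
        have hle : τ i0 ≤ τ i := by
          by_contra h
          simp [h] at hi'
        rw [if_pos hle] at hi'
        refine Finset.mem_erase.2 ⟨?_, by simpa using (lt_of_lt_of_le hp hle).ne'⟩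
        rintro rfl
        simp at hi'
      have := Finset.card_le_card hsub
      rw [Finset.card_erase_of_mem hi0] at this
      omega)
      (fun i => by
        rw [hτ']
        split_ifs with h
        · linarith
        · exact le_rfl)
      (fun l hl0 ⟨i, hi⟩ => by
        have := hl (l + τ i0) (by linarith) ⟨i, (hiff l hl0 i).1 hi⟩
        rwa [Finset.filter_congr fun i _ => hiff l hl0 i])
    rcases h2 with h2 | h2
    · rw [hsum, h2]
      simpa using h1
    · linarith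

/-- the layer lemma -/
theorem layer (w σ : I → ℝ) (hσ : σ ≠ 0)
    (h1 : ∀ l : ℝ, l < 0 → (∃ i, σ i ≤ l) → ∑ i ∈ Finset.univ.filter (fun i => σ i ≤ l), w i < 0)
    (h2 : ∀ l : ℝ, 0 < l → (∃ i, l ≤ σ i) → 0 < ∑ i ∈ Finset.univ.filter (fun i => l ≤ σ i), w i) :
    0 < ∑ i, w i * σ i := by
  have a := layer_pos w _ (fun i => max (σ i) 0) le_rfl (fun i => le_max_right _ _)
    (fun l hl ⟨i, hi⟩ => by
      have hiff : ∀ i, l ≤ max (σ i) 0 ↔ l ≤ σ i := fun i => by
        rw [le_max_iff]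
        exact or_iff_left (not_le.2 hl)
      rw [Finset.filter_congr fun i _ => hiff i]
      exact h2 l hl ⟨i, (hiff i).1 hi⟩)
  have b := layer_pos (fun i => -w i) _ (fun i => max (-σ i) 0) le_rfl (fun i => le_max_right _ _)
    (fun l hl ⟨i, hi⟩ => by
      have hiff : ∀ i, l ≤ max (-σ i) 0 ↔ σ i ≤ -l := fun i => by
        rw [le_max_iff, or_iff_left (not_le.2 hl)]
        exact le_neg
      rw [Finset.filter_congr fun i _ => hiff i, Finset.sum_neg_distrib]
      exact neg_pos.2 (h1 (-l) (by linarith) ⟨i, (hiff i).1 hi⟩))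
  have hs : ∑ i, w i * σ i = ∑ i, w i * max (σ i) 0 + ∑ i, -w i * max (-σ i) 0 := by
    rw [← Finset.sum_add_distrib]
    refine Finset.sum_congr rfl fun i _ => ?_
    rcases le_total 0 (σ i) with h | h
    · rw [max_eq_left h, max_eq_right (by linarith)]
      ring
    · rw [max_eq_right h, max_eq_left (by linarith)]
      ring
  rw [hs]
  rcases a with a | a <;> rcases b with b | b
  · exfalso
    apply hσ
    funext i
    have h3 : max (σ i) 0 = 0 := congrFun a i
    have h4 : max (-σ i) 0 = 0 := congrFun b i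
    have h5 := le_max_left (σ i) 0
    have h6 := le_max_left (-σ i) 0
    show σ i = 0
    linarith
  · have : ∑ i, w i * max (σ i) 0 = 0 :=
      Finset.sum_eq_zero fun i _ => by rw [show max (σ i) 0 = 0 from congrFun a i, mul_zero]
    linarith
  · have : ∑ i, -w i * max (-σ i) 0 = 0 :=
      Finset.sum_eq_zero fun i _ => by rw [show max (-σ i) 0 = 0 from congrFun b i, mul_zero]
    linarith
  · linarith

/-- the squared norm of a matrix -/
def msq {J : Type} [Fintype J] (A : Matrix I J ℂ) : ℝ := ∑ i, ∑ j, ‖A i j‖ ^ 2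

theorem nsq_eq {m : ℕ} (p : Pt I m) : nsq p = ∑ a, msq (p.1 a) + msq p.2 := by
  simp only [nsq, msq, Fintype.sum_sum_type, Fintype.sum_prod_type, co, Sum.elim_inl, Sum.elim_inr,
    Complex.normSq_eq_norm_sq]

section
variable {J : Type} [Fintype J]

theorem msq_nonneg (A : Matrix I J ℂ) : 0 ≤ msq A := by
  unfold msq
  positivity

theorem le_msq (A : Matrix I J ℂ) (i : I) (j : J) : ‖A i j‖ ^ 2 ≤ msq A :=
  (Finset.single_le_sum (f := fun j => ‖A i j‖ ^ 2) (fun _ _ => by positivity)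
    (Finset.mem_univ j)).trans
    (Finset.single_le_sum (f := fun i => ∑ j, ‖A i j‖ ^ 2) (fun _ _ => by positivity)
      (Finset.mem_univ i))

theorem msq_eq (A : Matrix I J ℂ) : (msq A : ℂ) = (A * Aᴴ).trace := by
  simp only [msq, trace, diag, mul_apply, conjTranspose_apply, Complex.star_def, Complex.mul_conj']
  push_cast
  rfl

theorem msq_left {k : Matrix I I ℂ} (hk : kᴴ * k = 1) (A : Matrix I J ℂ) : msq (k * A) = msq A := by
  have : (msq (k * A) : ℂ) = msq A := by
    rw [msq_eq, msq_eq, conjTranspose_mul, ← Matrix.mul_assoc, trace_mul_comm, ← Matrix.mul_assoc,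
      ← Matrix.mul_assoc, hk, Matrix.one_mul]
  exact_mod_cast this

theorem msq_right [DecidableEq J] {k : Matrix J J ℂ} (hk : k * kᴴ = 1) (A : Matrix I J ℂ) :
    msq (A * k) = msq A := by
  have : (msq (A * k) : ℂ) = msq A := by
    rw [msq_eq, msq_eq, conjTranspose_mul, Matrix.mul_assoc, ← Matrix.mul_assoc k, hk,
      Matrix.one_mul]
  exact_mod_cast this

theorem continuous_msq : Continuous (msq : Matrix I J ℂ → ℝ) := by
  unfold msq
  fun_prop

end

theorem nsq_nonneg {m : ℕ} (p : Pt I m) : 0 ≤ nsq p :=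
  Finset.sum_nonneg fun _ _ => Complex.normSq_nonneg _

theorem le_nsq {m : ℕ} (p : Pt I m) (x : Co I m) : ‖co p x‖ ^ 2 ≤ nsq p := by
  rw [← Complex.normSq_eq_norm_sq]
  exact Finset.single_le_sum (f := fun x => Complex.normSq (co p x))
    (fun _ _ => Complex.normSq_nonneg _) (Finset.mem_univ x)

theorem continuous_nsq {m : ℕ} : Continuous (nsq : Pt I m → ℝ) :=
  continuous_finsetSum _ fun x _ =>
    Complex.continuous_normSq.comp ((continuous_apply x).comp continuous_co)

theorem nsq_pos {m : ℕ} {p : Pt I m} (h : p ≠ 0) : 0 < nsq p := by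
  refine lt_of_le_of_ne (nsq_nonneg p) fun e => h ?_
  apply (coL I m).injective
  rw [map_zero, coL_apply]
  funext x
  have := le_nsq p x
  rw [← e] at this
  exact norm_eq_zero.1 (pow_eq_zero_iff (two_ne_zero) |>.1 (le_antisymm this (by positivity)))

theorem inv_of_unitary {k : Matrix I I ℂ} (hk : kᴴ * k = 1) : k⁻¹ = kᴴ := inv_eq_left_inv hk

theorem nsq_unitary {m : ℕ} {k : Matrix I I ℂ} (hk : kᴴ * k = 1) (p : Pt I m) :
    nsq (act k p) = nsq p := by
  rw [nsq_eq, nsq_eq]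
  unfold act actR
  simp only [inv_of_unitary hk]
  rw [msq_left hk]
  congr 1
  refine Finset.sum_congr rfl fun a _ => ?_
  rw [msq_right (by rw [conjTranspose_conjTranspose]; exact hk), msq_left hk]

theorem act_mul' {m : ℕ} (g h : Matrix I I ℂ) (p : Pt I m) : act (g * h) p = act g (act h p) := by
  unfold act actR
  refine Prod.ext (funext fun a => ?_) ?_
  · simp only [Matrix.mul_inv_rev, Matrix.mul_assoc]
  · simp only [Matrix.mul_assoc]

theorem act_one' {m : ℕ} (p : Pt I m) : act 1 p = p := by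
  unfold act actR
  simp

/-- joint continuity of the action at invertible matrices -/
theorem tendsto_act {m : ℕ} {ι : Type} {l : Filter ι} {g : ι → Matrix I I ℂ} {g0 : Matrix I I ℂ}
    {p : ι → Pt I m} {p0 : Pt I m} (h0 : IsUnit g0.det) (hg : Tendsto g l (𝓝 g0))
    (hp : Tendsto p l (𝓝 p0)) : Tendsto (fun n => act (g n) (p n)) l (𝓝 (act g0 p0)) := by
  have hi : Tendsto (fun n => (g n)⁻¹) l (𝓝 g0⁻¹) := by
    refine (continuousAt_matrix_inv g0 ?_).tendsto.comp hg
    rw [Ring.inverse_eq_inv']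
    exact continuousAt_inv₀ h0.ne_zero
  have hm : ∀ {J : Type} {x : ι → Matrix I I ℂ} {x0 : Matrix I I ℂ} {y : ι → Matrix I J ℂ}
      {y0 : Matrix I J ℂ}, Tendsto x l (𝓝 x0) → Tendsto y l (𝓝 y0) →
      Tendsto (fun n => x n * y n) l (𝓝 (x0 * y0)) := fun hx hy =>
    ((continuous_fst.matrix_mul continuous_snd).tendsto _).comp (hx.prodMk_nhds hy)
  refine Tendsto.prodMk_nhds (tendsto_pi_nhds.2 fun a => hm (hm hg ?_) hi) (hm hg ?_)
  · exact (((continuous_apply a).comp continuous_fst).tendsto p0).comp hp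
  · exact (continuous_snd.tendsto p0).comp hp

theorem f1_continuous_act {m : ℕ} (g : Matrix I I ℂ) : Continuous (act g : Pt I m → Pt I m) :=
  Continuous.prodMk (continuous_pi fun a => (continuous_const.matrix_mul
    ((continuous_apply a).comp continuous_fst)).matrix_mul continuous_const)
    (continuous_const.matrix_mul continuous_snd)

namespace Dat
variable (D : Dat I)

/-- matrices that keep the colours -/
def Col (g : Matrix I I ℂ) : Prop := ∀ i j, D.col i ≠ D.col j → g i j = 0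

theorem Col.of_lie {D : Dat I} {g : Matrix I I ℂ} (h : g ∈ D.Lie) : D.Col g :=
  fun i j e => h i j fun c => e c.1

theorem Col.of_base {D : Dat I} {g : Matrix I I ℂ} (h : g ∈ D.base.Lie) : D.Col g :=
  fun i j e => h i j fun c => e c.1

theorem Col.cut_mul {D : Dat I} {g : Matrix I I ℂ} (hg : D.Col g) (h : Matrix I I ℂ) (v : Fin 3) :
    D.cut v (g * h) = D.cut v g * D.cut v h := by
  ext i j
  by_cases e : D.col i = v
  · simp only [cut, of_apply, mul_apply, if_pos e]
    refine Finset.sum_congr rfl fun k _ => ?_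
    split_ifs with e'
    · rfl
    · rw [hg i k (by rw [e]; exact fun c => e' c.symm), zero_mul, zero_mul]
  · simp only [cut, of_apply, mul_apply, if_neg e]
    rw [Finset.sum_eq_single i (fun k _ hk => by rw [one_apply_ne hk.symm, zero_mul]) (by simp),
      if_neg e, one_apply_eq, one_mul]

theorem cut_one (v : Fin 3) : D.cut v 1 = 1 := by
  ext i j
  simp [cut]

theorem Col.det_ne {D : Dat I} {g : Matrix I I ℂ} (hg : D.Col g) (hu : IsUnit g.det) (v : Fin 3) :
    (D.cut v g).det ≠ 0 := by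
  have h := congrArg Matrix.det (hg.cut_mul g⁻¹ v)
  rw [mul_nonsing_inv g hu, cut_one, det_one, det_mul] at h
  exact left_ne_zero_of_mul_eq_one h.symm

theorem Col.om_mul {D : Dat I} {g : Matrix I I ℂ} (hg : D.Col g) (h : Matrix I I ℂ) :
    D.om (g * h) = D.om g * D.om h := by
  simp only [om, hg.cut_mul, det_mul, mul_zpow, Finset.prod_mul_distrib]

theorem Col.om_ne {D : Dat I} {g : Matrix I I ℂ} (hg : D.Col g) (hu : IsUnit g.det) : D.om g ≠ 0 :=
  Finset.prod_ne_zero_iff.2 fun v _ => zpow_ne_zero _ (hg.det_ne hu v)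

theorem om_diagonal (t : I → ℂ) : D.om (diagonal t) = ∏ i, t i ^ D.eta (D.col i) := by
  have h : ∀ v, D.cut v (diagonal t) = diagonal fun i => if D.col i = v then t i else 1 := fun v => by
    ext i j
    simp only [cut, of_apply, diagonal_apply, one_apply]
    split_ifs <;> rfl
  simp only [om, h, det_diagonal, ← Finset.prod_zpow]
  rw [Finset.prod_comm]
  refine Finset.prod_congr rfl fun i _ => ?_
  rw [Finset.prod_eq_single (D.col i) (fun v _ hv => by rw [if_neg hv.symm, _root_.one_zpow])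
    (by simp), if_pos rfl]

theorem om_one' : D.om 1 = 1 := by
  simp [om, cut_one]

theorem Col.cut_ct {D : Dat I} {k : Matrix I I ℂ} (hk : D.Col k) (v : Fin 3) :
    D.cut v kᴴ = (D.cut v k)ᴴ := by
  ext i j
  simp only [cut, of_apply, conjTranspose_apply]
  by_cases e : D.col i = D.col j
  · rw [e]
    split_ifs
    · rfl
    · simp [one_apply, eq_comm]
  · have hij : i ≠ j := fun c => e (c ▸ rfl)
    rw [hk j i (Ne.symm e), one_apply_ne hij, one_apply_ne hij.symm]
    simp

theorem Col.norm_om {D : Dat I} {k : Matrix I I ℂ} (hk : D.Col k) (hu : kᴴ * k = 1) :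
    ‖D.om k‖ = 1 := by
  have hc : D.Col kᴴ := fun i j e => by
    rw [conjTranspose_apply, hk j i e.symm, star_zero]
  rw [om, norm_prod]
  refine Finset.prod_eq_one fun v _ => ?_
  have h1 := hc.cut_mul k v
  rw [hu] at h1
  have h4 := congrArg (fun A => ‖Matrix.det A‖) h1
  simp only [cut_one, hk.cut_ct, det_one, norm_one, det_mul, det_conjTranspose, norm_mul,
    norm_star] at h4
  have h5 : ‖(D.cut v k).det‖ = 1 := by
    nlinarith [norm_nonneg (D.cut v k).det]
  rw [norm_zpow, h5, _root_.one_zpow]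

theorem continuous_cut (v : Fin 3) : Continuous (D.cut v) := by
  refine continuous_matrix fun i j => ?_
  simp only [cut, of_apply]
  split_ifs
  · exact continuous_id.matrix_elem i j
  · exact continuous_const

theorem Col.continuousAt_om {D : Dat I} {g : Matrix I I ℂ} (hg : D.Col g) (hu : IsUnit g.det) :
    ContinuousAt D.om g :=
  tendsto_finsetProd _ fun v _ =>
    ((D.continuous_cut v).matrix_det.tendsto g).zpow₀ _ (Or.inl (hg.det_ne hu v))

/-- the energy -/
def en (g : Matrix I I ℂ) (p : Pt I D.m) : ℝ := nsq (act g p) + 2 * Real.log ‖D.om g‖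

theorem en_mul {g h : Matrix I I ℂ} (hg : D.Col g) (hu : IsUnit g.det) (hh : D.Col h)
    (hv : IsUnit h.det) (p : Pt I D.m) :
    D.en (g * h) p = D.en g (act h p) + 2 * Real.log ‖D.om h‖ := by
  rw [en, en, act_mul', hg.om_mul, norm_mul,
    Real.log_mul (norm_ne_zero_iff.2 (hg.om_ne hu)) (norm_ne_zero_iff.2 (hh.om_ne hv))]
  ring

theorem en_one (p : Pt I D.m) : D.en 1 p = nsq p := by
  simp [en, act_one', om_one']

theorem log_om_diagonal (t : I → ℝ) (ht : ∀ i, 0 < t i) :
    Real.log ‖D.om (diagonal fun i => (t i : ℂ))‖ = ∑ i, D.eta (D.col i) * Real.log (t i) := by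
  rw [om_diagonal, norm_prod, Real.log_prod]
  · refine Finset.sum_congr rfl fun i _ => ?_
    rw [norm_zpow, Complex.norm_real, Real.norm_eq_abs, abs_of_pos (ht i), Real.log_zpow]
  · intro i _
    exact norm_ne_zero_iff.2 (zpow_ne_zero _ (by exact_mod_cast (ht i).ne'))

end Dat

theorem act_diagonal {m : ℕ} (t : I → ℂ) (ht : ∀ i, t i ≠ 0) (p : Pt I m) :
    act (diagonal t) p = (fun a => of fun i j => t i / t j * p.1 a i j, of fun i r => t i * p.2 i r) := by
  have hi : (diagonal t)⁻¹ = diagonal fun i => (t i)⁻¹ := by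
    apply inv_eq_left_inv
    rw [diagonal_mul_diagonal, ← diagonal_one]
    congr 1
    funext i
    exact inv_mul_cancel₀ (ht i)
  unfold act actR
  refine Prod.ext (funext fun a => ?_) ?_
  · ext i j
    simp only [hi, mul_diagonal, diagonal_mul, of_apply]
    ring
  · ext i r
    simp only [diagonal_mul, of_apply]

end Pool.Agent.CS
end
end

-- part Pool.Agent.P.MP_d34769_ag.YF1b
section

/-! Invariance of stability, coordinate subspaces, diagonal matrices. -/

open Matrix Filter Topology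

set_option linter.unusedSectionVars false

noncomputable section
namespace Pool.Agent.CS

variable {I : Type} [Fintype I] [DecidableEq I]

theorem f1_sub_sp {e : I → I → Prop} {ρ : Rp I} {F : Set I}
    (h : ∀ a i j, i ∉ F → j ∈ F → ρ a i j = 0) : SubE e ρ (sp F) := by
  refine ⟨e4_gr_sp F, fun a v hv => e4_mem_sp.2 fun i hi => ?_⟩
  refine Finset.sum_eq_zero fun j _ => ?_
  show ρ a i j * v j = 0
  by_cases hj : j ∈ F
  · rw [h a i j hi hj, zero_mul]
  · rw [e4_mem_sp.1 hv j hj, mul_zero]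

theorem f1_of_sub_sp {e : I → I → Prop} {ρ : Rp I} {F : Set I} (h : SubE e ρ (sp F)) (a : Fin 3)
    {i j : I} (hi : i ∉ F) (hj : j ∈ F) : ρ a i j = 0 := by
  have := e4_mem_sp.1 (h.st a (Pi.single j 1) (e4_mem_sp.2 fun k hk =>
    Pi.single_eq_of_ne (fun c : k = j => hk (c ▸ hj)) _)) i hi
  simpa using this

theorem f1_map_map {g : Matrix I I ℂ} (hg : IsUnit g.det) (U : Submodule ℂ (I → ℂ)) :
    (U.map g.mulVecLin).map g⁻¹.mulVecLin = U := by
  rw [← Submodule.map_comp, ← mulVecLin_mul, nonsing_inv_mul g hg, mulVecLin_one, Submodule.map_id]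

theorem f1_inj {g : Matrix I I ℂ} (hg : IsUnit g.det) : Function.Injective g.mulVecLin :=
  mulVec_injective_of_isUnit ((isUnit_iff_isUnit_det g).2 hg)

theorem nsq_diag_le {m : ℕ} (t : I → ℝ) (ht : ∀ i, 0 < t i) (c : ℝ) (p : Pt I m)
    (h1 : ∀ a i j, p.1 a i j ≠ 0 → t i ≤ c * t j) (h2 : ∀ i r, p.2 i r ≠ 0 → t i ≤ c) :
    nsq (act (diagonal fun i => (t i : ℂ)) p) ≤ c ^ 2 * nsq p := by
  rw [act_diagonal _ (fun i => by exact_mod_cast (ht i).ne'), nsq, nsq, Finset.mul_sum]
  refine Finset.sum_le_sum fun x _ => ?_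
  rcases x with ⟨a, i, j⟩ | ⟨i, r⟩
  · simp only [co, Sum.elim_inl, of_apply]
    by_cases h : p.1 a i j = 0
    · simp [h]
    rw [Complex.normSq_mul, ← Complex.ofReal_div, Complex.normSq_ofReal]
    refine mul_le_mul_of_nonneg_right ?_ (Complex.normSq_nonneg _)
    have h3 : t i / t j ≤ c := (div_le_iff₀ (ht j)).2 (h1 a i j h)
    have h4 : 0 < t i / t j := div_pos (ht i) (ht j)
    nlinarith
  · simp only [co, Sum.elim_inr, of_apply]
    by_cases h : p.2 i r = 0
    · simp [h]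
    rw [Complex.normSq_mul, Complex.normSq_ofReal]
    refine mul_le_mul_of_nonneg_right ?_ (Complex.normSq_nonneg _)
    have h3 := h2 i r h
    have h4 := ht i
    nlinarith

namespace Dat
variable {D : Dat I} {g h : Matrix I I ℂ} {p : Pt I D.m}

theorem f1_le_base (hg : g ∈ D.P) : g ∈ D.base.P :=
  D.e4_memG.2 ⟨fun i j e => ⟨((D.e4_memP.1 hg).1 i j e).1,
    D.rl_cp (D.gl_rl ((D.e4_memP.1 hg).1 i j e).2)⟩, hg.2⟩

theorem f1_col (hg : g ∈ D.base.P) : D.Col g := Col.of_base hg.1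

theorem f1_diag (D : Dat I) {t : I → ℂ} (ht : ∀ i, t i ≠ 0) : diagonal t ∈ D.P :=
  D.e4_memP.2 ⟨e4_diagonal (fun i => ⟨rfl, D.gl_refl i⟩) t, by
    rw [det_diagonal]
    exact isUnit_iff_ne_zero.2 (Finset.prod_ne_zero_iff.2 fun i _ => ht i)⟩

theorem f1_one (D : Dat I) : (1 : Matrix I I ℂ) ∈ D.P := by
  rw [← diagonal_one]
  exact D.f1_diag fun _ => one_ne_zero

theorem f1_R (hg : g ∈ D.P) {ρ : Rp I} (hρ : ρ ∈ D.R) : actR g ρ ∈ D.R := by
  intro a i j hn
  have hi := D.e4_P_inv hg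
  simp only [actR, mul_apply]
  refine Finset.sum_eq_zero fun l _ => ?_
  by_cases h3 : g⁻¹ l j = 0
  · rw [h3, mul_zero]
  rw [Finset.sum_eq_zero, zero_mul]
  intro k _
  by_cases h1 : g i k = 0
  · rw [h1, zero_mul]
  rw [hρ a k l, mul_zero]
  intro h2
  have e1 := (D.e4_memP.1 hg).1 i k h1
  have e3 := (D.e4_memP.1 hi).1 l j h3
  exact hn ⟨e1.1.trans h2.1, e3.1.symm.trans h2.2.1,
    D.rl_trans (D.rl_trans (D.gl_rl e1.2) h2.2.2) (D.gl_rl e3.2)⟩

theorem f1_map_col (hg : g ∈ D.base.P) (v : Fin 3) :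
    (sp {i | D.col i = v}).map g.mulVecLin = sp {i | D.col i = v} := by
  refine Submodule.eq_of_le_of_finrank_eq (e4_map_le fun j hj => e4_mem_sp.2 fun i hi => ?_)
    (e4_finrank_map hg.2 _)
  exact f1_col hg i j fun c => hi (c.trans hj)

theorem f1_wt_map (hg : g ∈ D.base.P) (t : Fin 3 → ℤ) (U : Submodule ℂ (I → ℂ)) :
    D.wt t (U.map g.mulVecLin) = D.wt t U := by
  refine Finset.sum_congr rfl fun v _ => ?_
  rw [← e4_finrank_map hg.2 (U ⊓ _), Submodule.map_inf _ (f1_inj hg.2), f1_map_col hg]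

theorem f1_sub_map (hg : g ∈ D.base.P) {ρ : Rp I} {U : Submodule ℂ (I → ℂ)} (hU : D.Sub ρ U) :
    D.Sub (actR g ρ) (U.map g.mulVecLin) := by
  refine ⟨e4_gr_map D.e4_cc (D.e4_memG.1 hg).1 hU.gr, ?_⟩
  rintro a _ ⟨v, hv, rfl⟩
  refine ⟨ρ a *ᵥ v, hU.st a v hv, ?_⟩
  simp only [actR, mulVecLin_apply, mulVec_mulVec, Matrix.mul_assoc, nonsing_inv_mul g hg.2,
    Matrix.mul_one]

theorem f1_act_inv (hg : IsUnit g.det) {m : ℕ} (p : Pt I m) : act g⁻¹ (act g p) = p := by
  rw [← act_mul', nonsing_inv_mul g hg, act_one']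

theorem f1_St (hg : g ∈ D.P) (hp : D.St p) : D.St (act g p) := by
  have hi := f1_le_base (D.e4_P_inv hg)
  have hs : ∀ U, D.Sub (act g p).1 U → D.Sub p.1 (U.map g⁻¹.mulVecLin) := fun U hU => by
    have := f1_sub_map hi hU
    rwa [show actR g⁻¹ (act g p).1 = p.1 from congrArg Prod.fst (f1_act_inv hg.2 p)] at this
  refine ⟨f1_R hg hp.mem, fun U hU => ?_, fun U hU hc ht => ?_⟩
  · rw [← f1_wt_map hi]
    exact hp.ss _ (hs U hU)
  · rw [← f1_wt_map hi]
    refine hp.gen _ (hs U hU) (fun r => ⟨_, hc r, ?_⟩) fun e => ht ?_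
    · have := congrArg Prod.snd (f1_act_inv hg.2 p)
      funext i
      exact congrFun (congrFun this i) r
    · apply Submodule.eq_top_of_finrank_eq
      rw [← e4_finrank_map hi.2, e, finrank_top]

theorem f1_St_base (hp : D.St p) : D.base.St p :=
  ⟨fun a i j hn => hp.mem a i j fun c => hn ⟨c.1, c.2.1, D.rl_cp c.2.2⟩, hp.ss, hp.gen⟩

theorem f1_wt_sp (D : Dat I) (t : Fin 3 → ℤ) (F : Finset I) :
    D.wt t (sp (F : Set I)) = ∑ i ∈ F, t (D.col i) := by
  rw [← Finset.sum_fiberwise_of_maps_to (g := D.col) (t := Finset.univ) fun _ _ => Finset.mem_univ _]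
  refine Finset.sum_congr rfl fun v _ => ?_
  rw [e4_sp_inf, e4_finrank_sp, Finset.sum_congr rfl (g := fun _ => t v)
    (fun i hi => by rw [(Finset.mem_filter.1 hi).2]), Finset.sum_const, nsmul_eq_mul, mul_comm,
    ← Set.ncard_coe_finset]
  congr 3
  ext i
  simp

theorem f1_sum_th (D : Dat I) : ∑ i, D.th (D.col i) = 0 := by
  classical
  let s : Setoid I := ⟨D.cp, D.cp_eq⟩
  rw [← Finset.sum_fiberwise_of_maps_to (g := Quotient.mk s) (t := Finset.univ.image (Quotient.mk s))
    fun i hi => Finset.mem_image_of_mem _ hi]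
  refine Finset.sum_eq_zero fun q hq => ?_
  obtain ⟨i, -, rfl⟩ := Finset.mem_image.1 hq
  refine D.bal i _ fun j => ?_
  rw [Finset.mem_filter, Quotient.eq]
  exact ⟨fun h => D.cp_eq.2 h.2, fun h => ⟨Finset.mem_univ _, D.cp_eq.2 h⟩⟩

theorem f1_sum_eta (D : Dat I) (F : Finset I) :
    ∑ i ∈ F, D.eta (D.col i) = (Fintype.card I + 1) * ∑ i ∈ F, D.th (D.col i) - F.card := by
  simp only [eta, Finset.sum_sub_distrib, Finset.mul_sum, Finset.sum_const, nsmul_eq_mul, mul_one]

theorem f1_eta_pos (D : Dat I) {F : Finset I} (h : 0 < ∑ i ∈ F, D.th (D.col i)) :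
    0 < ∑ i ∈ F, D.eta (D.col i) := by
  rw [f1_sum_eta]
  have h1 : (F.card : ℤ) ≤ Fintype.card I := by exact_mod_cast Finset.card_le_univ F
  nlinarith

theorem f1_eta_neg (D : Dat I) {F : Finset I} (h : ∑ i ∈ F, D.th (D.col i) ≤ 0) (hF : F.Nonempty) :
    ∑ i ∈ F, D.eta (D.col i) < 0 := by
  rw [f1_sum_eta]
  have h1 : (0 : ℤ) < F.card := by exact_mod_cast hF.card_pos
  have h2 : (0 : ℤ) ≤ Fintype.card I := Nat.cast_nonneg _
  nlinarith

theorem f1_sp_ne_top {F : Finset I} (h : Fᶜ.Nonempty) : sp (F : Set I) ≠ ⊤ := fun e => by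
  obtain ⟨i, hi⟩ := h
  have := e4_mem_sp.1 (e ▸ Submodule.mem_top : (fun _ => (1 : ℂ)) ∈ sp (F : Set I)) i
    (by simpa using hi)
  exact one_ne_zero this

/-- the numerical criterion -/
theorem f1_layer (hp : D.St p) {σ : I → ℝ} (hσ : σ ≠ 0)
    (h1 : ∀ a i j, p.1 a i j ≠ 0 → σ i ≤ σ j) (h2 : ∀ i r, p.2 i r ≠ 0 → σ i ≤ 0) :
    0 < ∑ i, (D.eta (D.col i) : ℝ) * σ i := by
  refine layer _ σ hσ (fun l _ ⟨i, hi⟩ => ?_) fun l hl ⟨i, hi⟩ => ?_
  · have h3 := hp.ss (sp ((Finset.univ.filter fun i => σ i ≤ l : Finset I) : Set I))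
      (f1_sub_sp fun a i j hi hj => by
        by_contra h
        exact hi (by simpa using (h1 a i j h).trans (by simpa using hj)))
    rw [f1_wt_sp] at h3
    exact_mod_cast D.f1_eta_neg h3 ⟨i, by simpa using hi⟩
  · have h3 := hp.gen (sp (((Finset.univ.filter fun i => l ≤ σ i)ᶜ : Finset I) : Set I))
      (f1_sub_sp fun a i j hi hj => by
        by_contra h
        have hi' : l ≤ σ i := by simpa using hi
        have hj' : σ j < l := by simpa using hj
        linarith [h1 a i j h])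
      (fun r => e4_mem_sp.2 fun i hi => by
        by_contra h
        have hi' : l ≤ σ i := by simpa using hi
        linarith [h2 i r h])
      (f1_sp_ne_top ⟨i, by simpa using hi⟩)
    rw [f1_wt_sp] at h3
    have h4 := Finset.sum_add_sum_compl (Finset.univ.filter fun i => l ≤ σ i)
      fun i => D.th (D.col i)
    rw [f1_sum_th] at h4
    exact_mod_cast D.f1_eta_pos (F := Finset.univ.filter fun i => l ≤ σ i) (by linarith)

/-- two-valued diagonal matrices -/
theorem f1_norm_om_two (D : Dat I) (F : Finset I) {s : ℝ} (hs : 0 < s) :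
    ‖D.om (diagonal fun i => ((if i ∈ F then s else 1 : ℝ) : ℂ))‖ = s ^ ∑ i ∈ F, D.eta (D.col i) := by
  have hz : ∀ G : Finset I, s ^ ∑ i ∈ G, D.eta (D.col i) = ∏ i ∈ G, s ^ D.eta (D.col i) := by
    intro G
    induction G using Finset.induction_on with
    | empty => simp
    | insert a G ha ih => rw [Finset.sum_insert ha, Finset.prod_insert ha, zpow_add₀ hs.ne', ih]
  rw [om_diagonal, norm_prod, ← Finset.prod_mul_prod_compl F, Finset.prod_eq_one (s := Fᶜ)
    (fun i hi => by rw [if_neg (Finset.mem_compl.1 hi)]; simp), mul_one, hz]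
  refine Finset.prod_congr rfl fun i hi => ?_
  rw [if_pos hi, norm_zpow, Complex.norm_real, Real.norm_eq_abs, abs_of_pos hs]

/-- an unstable point is moved to the boundary without growth of the norm -/
theorem unst' (hp : p.1 ∈ D.base.R) (h : ¬ D.base.St p) {ε : ℝ} (hε : 0 < ε) :
    ∃ g ∈ D.base.P, nsq (act g p) ≤ nsq p ∧ ‖D.om g‖ < ε := by
  obtain ⟨U, hU, hw⟩ : ∃ U, D.Sub p.1 U ∧ (0 < D.wt D.th U ∨
      (∀ r, (fun i => p.2 i r) ∈ U) ∧ U ≠ ⊤ ∧ 0 ≤ D.wt D.th U) := by
    by_contra hn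
    refine h ⟨hp, fun U hU => ?_, fun U hU hc ht => ?_⟩
    · exact not_lt.1 fun c => hn ⟨U, hU, Or.inl c⟩
    · exact not_le.1 fun c => hn ⟨U, hU, Or.inr ⟨hc, ht, c⟩⟩
  obtain ⟨k, hk, hkc, F, rfl⟩ := e4_sub D.e4_cc hU.gr
  have hkP : k ∈ D.base.P := D.e4_memG.2 ⟨hkc, e4_unit_det hk⟩
  have hki := D.base.e4_P_inv hkP
  have hku : k⁻¹ᴴ * k⁻¹ = 1 := by
    rw [inv_of_unitary (mem_unitaryGroup_iff'.1 hk), conjTranspose_conjTranspose]
    exact mem_unitaryGroup_iff.1 hk
  have hs := f1_sub_map hki hU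
  rw [f1_map_map hkP.2] at hs
  rw [f1_wt_map hkP, f1_wt_sp] at hw
  obtain ⟨s, hs0, hs1, hs2⟩ : ∃ s : ℝ, 0 < s ∧ s ≤ 1 ∧ s < ε :=
    ⟨min 1 (ε / 2), lt_min one_pos (by linarith), min_le_left _ _,
      (min_le_right _ _).trans_lt (by linarith)⟩
  have key : ∀ t : I → ℝ, (∀ i, 0 < t i) → (∀ i j, i ∈ F ∨ j ∉ F → t i ≤ t j) →
      (∀ i r, (act k⁻¹ p).2 i r ≠ 0 → t i ≤ 1) → ‖D.om (diagonal fun i => (t i : ℂ))‖ ≤ s →
      ∃ g ∈ D.base.P, nsq (act g p) ≤ nsq p ∧ ‖D.om g‖ < ε := fun t ht h1 h2 h3 => by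
    have hd := D.base.f1_diag (t := fun i => (t i : ℂ)) fun i => by exact_mod_cast (ht i).ne'
    refine ⟨_, D.base.e4_P_mul hd hki, ?_, ?_⟩
    · have := nsq_diag_le t ht 1 (act k⁻¹ p) (fun a i j e => by
        rw [one_mul]
        refine h1 i j ?_
        by_contra c
        rw [not_or, not_not] at c
        exact e (f1_of_sub_sp hs a (by simpa using c.1) (by simpa using c.2))) h2
      rwa [nsq_unitary hku, one_pow, one_mul, ← act_mul'] at this
    · rw [(f1_col hd).om_mul, norm_mul, (f1_col hki).norm_om hku, mul_one]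
      linarith
  rcases hw with hw | ⟨hc, ht, hw⟩
  · refine key (fun i => if i ∈ F then s else 1) (fun i => by split_ifs <;> linarith)
      (fun i j e => ?_) (fun i r _ => by split_ifs <;> linarith) ?_
    · split_ifs with a b b
      · exact le_rfl
      · exact hs1
      · exact absurd e (by simp [a, b])
      · exact le_rfl
    · rw [f1_norm_om_two D F hs0]
      have := zpow_le_zpow_right_of_le_one₀ hs0 hs1 (show (1 : ℤ) ≤ _ from D.f1_eta_pos hw)
      rwa [_root_.zpow_one] at this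
  · have hi : 1 ≤ s⁻¹ := (one_le_inv₀ hs0).2 hs1
    refine key (fun i => if i ∈ Fᶜ then s⁻¹ else 1) (fun i => by split_ifs <;> linarith)
      (fun i j e => ?_) (fun i r e => ?_) ?_
    · split_ifs with a b b
      · exact le_rfl
      · exact absurd e (by simp [Finset.mem_compl.1 a, Finset.notMem_compl.1 b])
      · exact hi
      · exact le_rfl
    · rw [if_neg]
      intro c
      have h4 : (fun i => (act k⁻¹ p).2 i r) ∈ sp (F : Set I) := by
        rw [← f1_map_map hkP.2 (sp (F : Set I))]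
        exact ⟨_, hc r, rfl⟩
      exact e (e4_mem_sp.1 h4 i (by simpa using c))
    · have h4 := Finset.sum_add_sum_compl F fun i => D.th (D.col i)
      rw [f1_sum_th] at h4
      have h5 : Fᶜ.Nonempty := by
        rw [Finset.nonempty_iff_ne_empty]
        intro c
        apply ht
        apply Submodule.eq_top_of_finrank_eq
        rw [e4_finrank_map hkP.2, e4_finrank_sp, Finset.compl_eq_empty_iff] at *
        simp [c]
      have h6 := D.f1_eta_neg (F := Fᶜ) (by linarith) h5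
      rw [f1_norm_om_two D Fᶜ (inv_pos.2 hs0), _root_.inv_zpow']
      have := zpow_le_zpow_right_of_le_one₀ hs0 hs1
        (show (1 : ℤ) ≤ -∑ i ∈ Fᶜ, D.eta (D.col i) by omega)
      rwa [_root_.zpow_one] at this

end Dat

end Pool.Agent.CS
end
end

-- part Pool.Agent.P.MP_d34769_ag.YF1
section

/-! The character, properness of the action, the Kempf-Ness set. -/

open Matrix Filter Topology

set_option linter.unusedSectionVars false

noncomputable section
namespace Pool.Agent.CS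

variable {I : Type} [Fintype I] [DecidableEq I]

theorem f1_growth {κ : Type} {l : Filter κ} [l.NeBot] {s u a : κ → ℝ} {δ a0 C H : ℝ}
    (hs : Tendsto s l atTop) (hu : Tendsto u l (𝓝 δ)) (ha : Tendsto a l (𝓝 a0)) (h0 : 0 < a0)
    (hb : ∀ᶠ n in l, Real.exp (s n * u n) ^ 2 * a n ≤ C + H * s n) : δ ≤ 0 := by
  by_contra hd
  rw [not_le] at hd
  have h1 : Tendsto (fun n => s n * (s n * (u n ^ 2 * a n) + -H)) l atTop :=
    hs.atTop_mul_atTop₀ (tendsto_atTop_add_const_right _ _
      (hs.atTop_mul_pos (by positivity : 0 < δ ^ 2 * a0) ((hu.pow 2).mul ha)))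
  obtain ⟨n, h2, h3, h4, h5, h6⟩ := ((h1.eventually_gt_atTop C).and (hb.and
    ((hs.eventually_ge_atTop 0).and ((hu.eventually (lt_mem_nhds hd)).and
      (ha.eventually (lt_mem_nhds h0)))))).exists
  have h7 : 0 ≤ s n * u n := mul_nonneg h4 h5.le
  have h8 : s n * u n ≤ Real.exp (s n * u n) := by linarith [Real.add_one_le_exp (s n * u n)]
  have h9 := mul_le_mul_of_nonneg_right (pow_le_pow_left₀ h7 h8 2) h6.le
  nlinarith

theorem f1_compact_unitary : IsCompact (unitaryGroup I ℂ : Set (Matrix I I ℂ)) := by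
  have h : IsCompact (Set.pi Set.univ fun _ : I => Set.pi Set.univ fun _ : I =>
      Metric.closedBall (0 : ℂ) 1) :=
    isCompact_univ_pi fun _ => isCompact_univ_pi fun _ => isCompact_closedBall _ _
  refine IsCompact.of_isClosed_subset (s := (Set.pi Set.univ fun _ : I => Set.pi Set.univ fun _ : I =>
      Metric.closedBall (0 : ℂ) 1 : Set (Matrix I I ℂ))) h ?_ fun k hk i _ j _ => ?_
  · have : (unitaryGroup I ℂ : Set (Matrix I I ℂ)) = {k | k * kᴴ = 1} :=
      Set.ext fun k => mem_unitaryGroup_iff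
    rw [this]
    exact isClosed_eq (continuous_id.matrix_mul continuous_id.matrix_conjTranspose) continuous_const
  · exact mem_closedBall_zero_iff.2 (entry_norm_bound_of_unitary hk i j)

theorem f1_tendsto_mul {κ J : Type} {l : Filter κ} {x : κ → Matrix I I ℂ} {x0 : Matrix I I ℂ}
    {y : κ → Matrix I J ℂ} {y0 : Matrix I J ℂ} (hx : Tendsto x l (𝓝 x0)) (hy : Tendsto y l (𝓝 y0)) :
    Tendsto (fun n => x n * y n) l (𝓝 (x0 * y0)) :=
  ((continuous_fst.matrix_mul continuous_snd).tendsto _).comp (hx.prodMk_nhds hy)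

namespace Dat
variable {D : Dat I} {g h : Matrix I I ℂ} {p : Pt I D.m}

theorem om_one : D.om 1 = 1 := D.om_one'

theorem om_mul (hg : g ∈ D.base.P) (_hh : h ∈ D.base.P) : D.om (g * h) = D.om g * D.om h :=
  (f1_col hg).om_mul h

theorem om_ne (hg : g ∈ D.base.P) : D.om g ≠ 0 := (f1_col hg).om_ne hg.2

theorem om_star (hg : g ∈ D.base.P) : D.om gᴴ = star (D.om g) := by
  simp only [om, star_prod, star_zpow₀, (f1_col hg).cut_ct, det_conjTranspose]

theorem om_poly : ∃ F : Matrix I I ℂ × Matrix I I ℂ → ℂ,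
    IsPoly (fun z => Sum.elim (fun x : I × I => z.1 x.1 x.2) fun x : I × I => z.2 x.1 x.2) F ∧
      ∀ g ∈ D.base.P, F (g, g⁻¹) = D.om g := by
  refine ⟨fun z => ∏ v, ((D.cut v z.1).det ^ (D.eta v).toNat * (D.cut v z.2).det ^ (-D.eta v).toNat),
    IsPoly.prod _ fun v _ => IsPoly.mul (IsPoly.pow (IsPoly.det fun i j => ?_) _)
      (IsPoly.pow (IsPoly.det fun i j => ?_) _), fun g hg => Finset.prod_congr rfl fun v _ => ?_⟩
  · exact IsPoly.ite _ (IsPoly.coord (Sum.inl (i, j))) (IsPoly.const _)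
  · exact IsPoly.ite _ (IsPoly.coord (Sum.inr (i, j))) (IsPoly.const _)
  · have h := congrArg Matrix.det ((f1_col hg).cut_mul g⁻¹ v)
    rw [mul_nonsing_inv g hg.2, cut_one, det_one, det_mul] at h
    have hn := (f1_col hg).det_ne hg.2 v
    show (D.cut v g).det ^ _ * (D.cut v g⁻¹).det ^ _ = _
    rw [eq_inv_of_mul_eq_one_right h.symm, _root_.inv_pow, ← _root_.zpow_natCast,
      ← _root_.zpow_natCast, ← _root_.zpow_neg, ← zpow_add₀ hn]
    congr 1
    omega

theorem f1_closed_lie (D : Dat I) : IsClosed (D.Lie : Set (Matrix I I ℂ)) := by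
  have : (D.Lie : Set (Matrix I I ℂ)) = ⋂ i, ⋂ j, ⋂ _ : ¬ D.gp i j, {h | h i j = 0} := by
    ext h
    simp only [Set.mem_iInter]
    rfl
  rw [this]
  exact isClosed_iInter fun i => isClosed_iInter fun j => isClosed_iInter fun _ =>
    isClosed_eq (continuous_id.matrix_elem i j) continuous_const

theorem f1_closed_R (D : Dat I) : IsClosed {p : Pt I D.m | p.1 ∈ D.R} := by
  have : {p : Pt I D.m | p.1 ∈ D.R} = ⋂ a, ⋂ i, ⋂ j, ⋂ _ : ¬ D.ap a i j, {p | p.1 a i j = 0} := by
    ext h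
    simp only [Set.mem_iInter]
    rfl
  rw [this]
  exact isClosed_iInter fun a => isClosed_iInter fun i => isClosed_iInter fun j =>
    isClosed_iInter fun _ => isClosed_eq
      (((continuous_apply a).comp continuous_fst).matrix_elem i j) continuous_const

theorem f1_lim_unitary {κ : Type} (U : Ultrafilter κ) {k : κ → Matrix I I ℂ}
    (hk : ∀ n, k n ∈ unitaryGroup I ℂ) (hP : ∀ n, k n ∈ D.P) :
    ∃ k0 ∈ unitaryGroup I ℂ, k0 ∈ D.P ∧ Tendsto k U (𝓝 k0) := by
  obtain ⟨k0, h0, h1⟩ := (f1_compact_unitary.inter_right D.f1_closed_lie).ultrafilter_le_nhds'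
    (U.map k) (Filter.mem_map.2 (Eventually.of_forall fun n => ⟨hk n, (hP n).1⟩))
  exact ⟨k0, h0.1, ⟨h0.2, e4_unit_det h0.1⟩, h1⟩

/-- properness for diagonal matrices -/
theorem prop_diag {κ : Type} (U : Ultrafilter κ) {q : κ → Pt I D.m} {τ : κ → I → ℝ}
    (hq : Tendsto q U (𝓝 p)) (hp : D.St p) {C : ℝ}
    (hC : ∀ᶠ n in U, nsq (act (diagonal fun i => (Real.exp (τ n i) : ℂ)) (q n))
      + 2 * ∑ i, (D.eta (D.col i) : ℝ) * τ n i ≤ C) : ∃ τ0, Tendsto τ U (𝓝 τ0) := by
  by_cases hb : ∃ M : ℝ, ∀ᶠ n in U, ‖τ n‖ ≤ M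
  · obtain ⟨M, hM⟩ := hb
    obtain ⟨τ0, -, h1⟩ := (isCompact_closedBall (0 : I → ℝ) M).ultrafilter_le_nhds' (U.map τ)
      (Filter.mem_map.2 (hM.mono fun n hn => mem_closedBall_zero_iff.2 hn))
    exact ⟨τ0, h1⟩
  exfalso
  have hs : Tendsto (fun n => ‖τ n‖) U atTop := tendsto_atTop.2 fun M =>
    (Ultrafilter.eventually_not.2 fun c => hb ⟨M, c⟩).mono fun n hn => (not_le.1 hn).le
  have hpos := hs.eventually_gt_atTop 0
  obtain ⟨σ, hσ⟩ : ∃ σ : κ → I → ℝ, ∀ n, σ n = ‖τ n‖⁻¹ • τ n := ⟨_, fun _ => rfl⟩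
  have hτ : ∀ᶠ n in U, ∀ i, τ n i = ‖τ n‖ * σ n i := hpos.mono fun n hn i => by
    rw [hσ, Pi.smul_apply, smul_eq_mul, ← mul_assoc, mul_inv_cancel₀ hn.ne', one_mul]
  obtain ⟨σ0, h0, h1⟩ := (isCompact_sphere (0 : I → ℝ) 1).ultrafilter_le_nhds' (U.map σ)
    (Filter.mem_map.2 (hpos.mono fun n hn => mem_sphere_zero_iff_norm.2 (by
      rw [hσ, norm_smul, norm_inv, norm_norm, inv_mul_cancel₀ hn.ne'])))
  have h1' : ∀ i, Tendsto (fun n => σ n i) U (𝓝 (σ0 i)) := tendsto_pi_nhds.1 h1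
  have hne : σ0 ≠ 0 := fun e => by
    have := mem_sphere_zero_iff_norm.1 h0
    rw [e, norm_zero] at this
    exact zero_ne_one this
  have hco : ∀ x, Tendsto (fun n => ‖co (q n) x‖ ^ 2) U (𝓝 (‖co p x‖ ^ 2)) := fun x =>
    (((((continuous_apply x).comp continuous_co).tendsto p).comp hq).norm).pow 2
  have hH : ∀ᶠ n in U, nsq (act (diagonal fun i => (Real.exp (τ n i) : ℂ)) (q n))
      ≤ C + (2 * ∑ i, |(D.eta (D.col i) : ℝ)|) * ‖τ n‖ := hC.mono fun n hn => by
    have : -∑ i, (D.eta (D.col i) : ℝ) * τ n i ≤ (∑ i, |(D.eta (D.col i) : ℝ)|) * ‖τ n‖ := by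
      rw [Finset.sum_mul, ← Finset.sum_neg_distrib]
      refine Finset.sum_le_sum fun i _ => (neg_le_abs _).trans ?_
      rw [abs_mul]
      exact mul_le_mul_of_nonneg_left (norm_le_pi_norm (τ n) i) (abs_nonneg _)
    linarith
  have hγ := f1_layer hp hne (fun a i j e => ?_) fun i r e => ?_
  · have h2 : Tendsto (fun n => ‖τ n‖ * (2 * ∑ i, (D.eta (D.col i) : ℝ) * σ n i)) U atTop :=
      hs.atTop_mul_pos (mul_pos two_pos hγ)
        ((tendsto_finsetSum _ fun i _ => (h1' i).const_mul _).const_mul 2)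
    obtain ⟨n, h3, h4, h5⟩ := ((h2.eventually_gt_atTop C).and (hC.and hτ)).exists
    have h6 : ∑ i, (D.eta (D.col i) : ℝ) * τ n i = ‖τ n‖ * ∑ i, (D.eta (D.col i) : ℝ) * σ n i := by
      rw [Finset.mul_sum]
      exact Finset.sum_congr rfl fun i _ => by rw [mul_left_comm, ← h5 i]
    have := nsq_nonneg (act (diagonal fun i => (Real.exp (τ n i) : ℂ)) (q n))
    linarith
  · refine sub_nonpos.1 (f1_growth hs ((h1' i).sub (h1' j)) (hco (.inl (a, i, j)))
      (pow_pos (norm_pos_iff.2 e) 2) ((hH.and hτ).mono fun n hn => le_trans ?_ hn.1))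
    refine le_trans (le_of_eq ?_) (le_nsq _ (.inl (a, i, j)))
    rw [act_diagonal _ fun i => by exact_mod_cast (Real.exp_pos _).ne']
    simp only [co, Sum.elim_inl, of_apply]
    rw [norm_mul, mul_pow, ← Complex.ofReal_div, Complex.norm_real, Real.norm_eq_abs, sq_abs,
      ← Real.exp_sub, mul_sub, ← hn.2 i, ← hn.2 j]
  · refine f1_growth hs (h1' i) (hco (.inr (i, r)))
      (pow_pos (norm_pos_iff.2 e) 2) ((hH.and hτ).mono fun n hn => le_trans ?_ hn.1)
    refine le_trans (le_of_eq ?_) (le_nsq _ (.inr (i, r)))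
    rw [act_diagonal _ fun i => by exact_mod_cast (Real.exp_pos _).ne']
    simp only [co, Sum.elim_inr, of_apply]
    rw [norm_mul, mul_pow, Complex.norm_real, Real.norm_eq_abs, sq_abs, ← hn.2 i]

theorem prop {κ : Type} (U : Ultrafilter κ) {q : κ → Pt I D.m} {g : κ → Matrix I I ℂ}
    (hq : Tendsto q U (𝓝 p)) (hp : D.base.St p) (hg : ∀ᶠ n in U, g n ∈ D.base.P) {C : ℝ}
    (hC : ∀ᶠ n in U, nsq (act (g n) (q n)) + 2 * Real.log ‖D.om (g n)‖ ≤ C) :
    ∃ g₀ ∈ D.base.P, Tendsto g U (𝓝 g₀) := by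
  classical
  have hk : ∀ n, (if g n ∈ D.base.P then g n else 1) ∈ D.base.P := fun n => by
    split_ifs with e
    exacts [e, D.base.f1_one]
  choose k hk k' hk' hP hP' t ht e using fun n => D.kak (hk n)
  have he : ∀ᶠ n in U, g n = k n * diagonal (fun i => (Real.exp (Real.log (t n i)) : ℂ)) * k' n :=
    hg.mono fun n hn => by
      have := e n
      rw [if_pos hn] at this
      simp only [Real.exp_log (ht n _)]
      exact this
  obtain ⟨k0, -, h0, h1⟩ := f1_lim_unitary U hk hP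
  obtain ⟨k1, -, h2, h3⟩ := f1_lim_unitary U hk' hP'
  obtain ⟨τ0, h4⟩ := prop_diag (D := D.base) U (τ := fun n i => Real.log (t n i)) (C := C)
    (tendsto_act h2.2 h3 hq) (f1_St h2 hp) ((hC.and he).mono fun n hn => by
      have h5 := hn.1
      have hd := D.base.f1_diag (t := fun i => (Real.exp (Real.log (t n i)) : ℂ))
        fun i => by exact_mod_cast (Real.exp_pos _).ne'
      have u1 := mem_unitaryGroup_iff'.1 (hk n)
      have u2 := mem_unitaryGroup_iff'.1 (hk' n)
      rw [hn.2, Matrix.mul_assoc, act_mul', nsq_unitary u1, act_mul', (f1_col (hP n)).om_mul,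
        (f1_col hd).om_mul, norm_mul, norm_mul, (f1_col (hP n)).norm_om u1,
        (f1_col (hP' n)).norm_om u2, one_mul, mul_one,
        D.log_om_diagonal _ fun i => Real.exp_pos _] at h5
      simp only [Real.log_exp] at h5
      exact h5)
  refine ⟨k0 * diagonal (fun i => (Real.exp (τ0 i) : ℂ)) * k1, D.base.e4_P_mul (D.base.e4_P_mul h0
    (D.base.f1_diag fun i => by exact_mod_cast (Real.exp_pos _).ne')) h2, ?_⟩
  refine Tendsto.congr' (he.mono fun n hn => hn.symm) (f1_tendsto_mul (f1_tendsto_mul h1 ?_) h3)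
  have hc : Continuous fun τ : I → ℝ => diagonal fun i => (Real.exp (τ i) : ℂ) :=
    Continuous.matrix_diagonal (by fun_prop)
  exact (hc.tendsto τ0).comp h4

theorem unst (hp : p.1 ∈ D.base.R) (h : ¬ D.base.St p) :
    ∃ C : ℝ, ∀ ε > 0, ∃ g ∈ D.base.P, nsq (act g p) ≤ C ∧ ‖D.om g‖ < ε :=
  ⟨nsq p, fun _ hε => unst' hp h hε⟩

theorem LL_bdd (D : Dat I) : ∃ C : ℝ, ∀ p ∈ D.LL, nsq p ≤ C := by
  obtain ⟨t, ht⟩ : ∃ t : I → ℝ, ∀ i, t i = if D.col i = 1 then 1 / 4 else 1 / 2 := ⟨_, fun _ => rfl⟩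
  have h0 : ∀ i, 0 < t i := fun i => by
    rw [ht]
    split_ifs <;> norm_num
  refine ⟨4 * Real.log ‖D.om (diagonal fun i => (t i : ℂ))‖, fun p hp => ?_⟩
  have h1 := hp.2 _ (D.base.f1_diag (t := fun i => (t i : ℂ)) fun i => by exact_mod_cast (h0 i).ne')
  have h2 := nsq_diag_le t h0 (1 / 2) p (fun a i j e => by
    have h3 : D.base.ap a i j := by_contra fun c => e (hp.1 a i j c)
    have h4 : D.col j ≠ 1 := by
      rw [show D.col j = src a from h3.2.1]
      fin_cases a <;> decide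
    rw [ht, ht, if_pos (show D.col i = 1 from h3.1), if_neg h4]
    norm_num) fun i r _ => by
    rw [ht]
    split_ifs <;> norm_num
  have := nsq_nonneg p
  linarith

theorem compact_nsq {m : ℕ} (C : ℝ) : IsCompact {p : Pt I m | nsq p ≤ C} := by
  have hc : Continuous ((coL I m).symm : (Co I m → ℂ) → Pt I m) :=
    Continuous.prodMk (continuous_pi fun a => continuous_matrix fun i j => continuous_apply _)
      (continuous_matrix fun i j => continuous_apply _)
  refine ((isCompact_closedBall (0 : Co I m → ℂ) (Real.sqrt C)).image hc).of_isClosed_subset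
    (isClosed_le continuous_nsq continuous_const) fun p hp => ⟨co p, ?_, (coL I m).symm_apply_apply p⟩
  rw [mem_closedBall_zero_iff, pi_norm_le_iff_of_nonneg (Real.sqrt_nonneg _)]
  exact fun x => Real.le_sqrt_of_sq_le ((le_nsq p x).trans hp)

theorem LL_compact : IsCompact D.LL := by
  obtain ⟨C, hC⟩ := D.LL_bdd
  refine (compact_nsq C).of_isClosed_subset ?_ hC
  have : D.LL = {p : Pt I D.m | p.1 ∈ D.base.R} ∩ ⋂ g ∈ D.base.P,
      {p | nsq p ≤ nsq (act g p) + 2 * Real.log ‖D.om g‖} := by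
    ext p
    simp only [Set.mem_inter_iff, Set.mem_iInter]
    rfl
  rw [this]
  exact D.base.f1_closed_R.inter (isClosed_biInter fun g _ => isClosed_le continuous_nsq
    ((continuous_nsq.comp (f1_continuous_act g)).add continuous_const))

theorem LL_st (h : p ∈ D.LL) : D.base.St p := by
  by_contra hn
  obtain ⟨g, hg, h1, h2⟩ := unst' h.1 hn one_pos
  have h3 := h.2 g hg
  have h4 := Real.log_neg (norm_pos_iff.2 (om_ne hg)) h2
  linarith

theorem LL_unitary {k : Matrix I I ℂ} (hk : k ∈ unitaryGroup I ℂ) (hP : k ∈ D.base.P)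
    (h : p ∈ D.LL) : act k p ∈ D.LL := by
  have u := mem_unitaryGroup_iff'.1 hk
  refine ⟨f1_R hP h.1, fun g hg => ?_⟩
  have := h.2 _ (D.base.e4_P_mul hg hP)
  rwa [om_mul hg hP, norm_mul, (f1_col hP).norm_om u, mul_one, act_mul', ← nsq_unitary u p] at this

theorem tendsto_en {κ : Type} {l : Filter κ} {g : κ → Matrix I I ℂ} {g0 : Matrix I I ℂ}
    (h0 : g0 ∈ D.base.P) (hg : Tendsto g l (𝓝 g0)) (p : Pt I D.m) :
    Tendsto (fun n => D.en (g n) p) l (𝓝 (D.en g0 p)) :=
  ((continuous_nsq.tendsto _).comp (tendsto_act h0.2 hg tendsto_const_nhds)).add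
    (((((f1_col h0).continuousAt_om h0.2).tendsto.comp hg).norm.log
      (norm_ne_zero_iff.2 (om_ne h0))).const_mul 2)

theorem exists_LL_base (h : D.base.St p) : ∃ g ∈ D.base.P, act g p ∈ D.LL := by
  have hc : IsCompact {g | g ∈ D.base.P ∧ D.en g p ≤ D.en 1 p} := by
    refine isCompact_iff_ultrafilter_le_nhds'.2 fun U hU => ?_
    obtain ⟨g0, h0, h1⟩ := prop U (g := id) (q := fun _ => p) (C := D.en 1 p) tendsto_const_nhds h
      (mem_of_superset hU fun _ e => e.1) (mem_of_superset hU fun _ e => e.2)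
    exact ⟨g0, ⟨h0, le_of_tendsto (tendsto_en h0 h1 p) (mem_of_superset hU fun _ e => e.2)⟩, h1⟩
  obtain ⟨g0, h0, h1⟩ := hc.exists_isMinOn ⟨1, D.base.f1_one, le_rfl⟩ (f := fun g => D.en g p)
    fun g hg => tendsto_en hg.1 (tendsto_id.mono_left nhdsWithin_le_nhds) p
  refine ⟨g0, h0.1, f1_R h0.1 h.mem, fun g hg => ?_⟩
  have h2 : D.en g0 p ≤ D.en (g * g0) p := by
    by_contra c
    exact c (h1 ⟨D.base.e4_P_mul hg h0.1, (not_le.1 c).le.trans h0.2⟩)
  rw [D.en_mul (f1_col hg) hg.2 (f1_col h0.1) h0.1.2] at h2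
  simp only [en] at h2
  linarith

theorem exists_LL (h : D.St p) : ∃ g ∈ D.P, act g p ∈ D.LL := by
  obtain ⟨g, hg, h1⟩ := exists_LL_base (f1_St_base h)
  obtain ⟨b, hb, k, hk, hP, e⟩ := D.qr (D.base.e4_P_inv hg)
  refine ⟨b⁻¹, D.e4_P_inv hb, ?_⟩
  have : b⁻¹ = k * g := by
    apply inv_eq_right_inv
    rw [← Matrix.mul_assoc, ← e, nonsing_inv_mul g hg.2]
  rw [this, act_mul']
  exact LL_unitary hk hP h1

theorem orb_closed {a : ℕ} (ha : 0 < a) (h : D.base.St p) :
    IsClosed {z : Pt I D.m × ℂ | ∃ g ∈ D.base.P, z = (act g p, D.om g ^ a)} := by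
  refine isClosed_iff_ultrafilter.2 fun x U hx hU => ?_
  have hU' : ∀ᶠ z : Pt I D.m × ℂ in U, ∃ g, g ∈ D.base.P ∧ z = (act g p, D.om g ^ a) := hU
  obtain ⟨g, hg⟩ := hU'.choice
  have h1 : ∀ᶠ z : Pt I D.m × ℂ in U, nsq z.1 < nsq x.1 + 1 :=
    hx (((continuous_nsq.comp continuous_fst).tendsto x).eventually (gt_mem_nhds (lt_add_one _)))
  have h2 : ∀ᶠ z : Pt I D.m × ℂ in U, ‖z.2‖ < ‖x.2‖ + 1 :=
    hx ((continuous_snd.norm.tendsto x).eventually (gt_mem_nhds (lt_add_one _)))
  obtain ⟨g0, h0, h3⟩ := prop U (g := g) (q := fun _ => p)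
    (C := nsq x.1 + 1 + 2 * Real.log (‖x.2‖ + 1)) tendsto_const_nhds h (hg.mono fun _ e => e.1)
    ((hg.and (h1.and h2)).mono fun z ⟨⟨e1, e2⟩, e3, e4⟩ => by
      rw [e2] at e3 e4
      have e5 : ‖D.om (g z)‖ ^ a < ‖x.2‖ + 1 := by rwa [← norm_pow]
      have e6 : ‖D.om (g z)‖ ≤ ‖x.2‖ + 1 := by
        rcases le_total ‖D.om (g z)‖ 1 with c | c
        · linarith [norm_nonneg x.2]
        · exact (le_self_pow₀ c ha.ne').trans e5.le
      have e7 := Real.log_le_log (norm_pos_iff.2 (om_ne e1)) e6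
      have e8 : nsq (act (g z) p) < nsq x.1 + 1 := e3
      linarith)
  refine ⟨g0, h0, tendsto_nhds_unique (l := (U : Filter (Pt I D.m × ℂ))) (f := id) hx ?_⟩
  exact Tendsto.congr' (hg.mono fun z e => e.2.symm)
    ((tendsto_act h0.2 h3 tendsto_const_nhds).prodMk_nhds
      ((((f1_col h0).continuousAt_om h0.2).tendsto.comp h3).pow a))

/-- stability is an open condition -/
theorem unst_closed (D : Dat I) : IsClosed {p : Pt I D.m | p.1 ∈ D.R ∧ ¬ D.St p} := by
  refine isClosed_iff_ultrafilter.2 fun x U hx hU => ?_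
  have hR : x ∈ {p : Pt I D.m | p.1 ∈ D.R} :=
    isClosed_iff_ultrafilter.1 D.f1_closed_R x U hx (mem_of_superset hU fun _ e => e.1)
  refine ⟨hR, fun hs => ?_⟩
  have h1 : ∀ᶠ z : Pt I D.m in U, ∃ g, g ∈ D.base.P ∧ nsq (act g z) ≤ nsq z ∧
      ‖D.om g‖ < min 1 (nsq (z - x)) := mem_of_superset hU fun z e =>
    unst' (fun a i j hn => e.1 a i j fun c => hn ⟨c.1, c.2.1, D.rl_cp c.2.2⟩)
      (fun c => e.2 ⟨e.1, c.ss, c.gen⟩)
      (lt_min one_pos (nsq_pos (sub_ne_zero.2 fun c => e.2 (c ▸ hs))))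
  obtain ⟨g, hg⟩ := h1.choice
  have h2 : ∀ᶠ z : Pt I D.m in U, nsq z < nsq x + 1 :=
    hx ((continuous_nsq.tendsto x).eventually (gt_mem_nhds (lt_add_one _)))
  obtain ⟨g0, h0, h3⟩ := prop U (g := g) (q := id) (C := nsq x + 1) hx (f1_St_base hs)
    (hg.mono fun _ e => e.1) ((hg.and h2).mono fun z ⟨⟨e1, e2, e3⟩, e4⟩ => by
      have := Real.log_neg (norm_pos_iff.2 (om_ne e1)) (e3.trans_le (min_le_left _ _))
      have e5 : nsq (act (g z) (id z)) ≤ nsq z := e2
      linarith)
  have h4 : Tendsto (fun z : Pt I D.m => nsq (z - x)) U (𝓝 (nsq (x - x))) :=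
    ((continuous_nsq.comp (continuous_id.sub continuous_const)).tendsto x).mono_left hx
  have h5 := le_of_tendsto_of_tendsto ((((f1_col h0).continuousAt_om h0.2).tendsto.comp h3).norm) h4
    (hg.mono fun z e => (e.2.2.trans_le (min_le_right _ _)).le)
  have h6 : nsq (x - x) = 0 := by
    rw [sub_self]
    exact Finset.sum_eq_zero fun y _ => by rcases y with y | y <;> simp [co]
  exact absurd (norm_pos_iff.2 (om_ne h0)) (not_lt.2 (h5.trans h6.le))

end Dat

end Pool.Agent.CS
end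
end

-- part Pool.Agent.P.MP_d34769_ag.YF3a
section

/-! Averaging of polynomial maps, polynomial solutions of linear systems, an open mapping lemma. -/

open Matrix Set Filter Topology
open Pool.Agent.PWV (ZC pm)

noncomputable section
namespace Pool.Agent.CS

open MvPolynomial hiding funext

section
variable {σ τ κ : Type} [Fintype σ] [DecidableEq σ] [Fintype τ] [DecidableEq τ] [Fintype κ]
  [DecidableEq κ]

/-- The tensor power of `(1, w)`. -/
def yf3aEv {R : Type} [CommRing R] (d : ℕ) (w : σ → R) (t : Fin d → Option σ) : R :=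
  ∏ k, (t k).elim 1 w

/-- The tensor power of `1 ⊕ A`. -/
def yf3aT (d : ℕ) (A : Matrix σ σ ℂ) : Matrix (Fin d → Option σ) (Fin d → Option σ) ℂ :=
  fun t s => ∏ k, (t k).elim ((s k).elim 1 0) fun i => (s k).elim 0 (A i)

omit [DecidableEq σ] in
theorem yf3a_mul (d : ℕ) (A : Matrix σ σ ℂ) (w : σ → ℂ) :
    yf3aT d A *ᵥ yf3aEv d w = yf3aEv d (A *ᵥ w) := by
  funext t
  simp only [mulVec, dotProduct, yf3aT, yf3aEv, ← Finset.prod_mul_distrib]
  rw [← Fintype.piFinset_univ, ← Finset.prod_univ_sum (fun _ => Finset.univ)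
    fun k (o : Option σ) => (t k).elim (o.elim 1 0) (fun i => o.elim 0 (A i)) * o.elim 1 w]
  refine Finset.prod_congr rfl fun k _ => ?_
  cases t k <;> simp [Fintype.sum_option, mulVec, dotProduct]

omit [Fintype σ] [DecidableEq σ] in
theorem yf3a_star (d : ℕ) (A : Matrix σ σ ℂ) : (yf3aT d A)ᴴ = yf3aT d Aᴴ := by
  ext t s
  simp only [conjTranspose_apply, yf3aT, star_prod]
  refine Finset.prod_congr rfl fun k _ => ?_
  cases t k <;> cases s k <;> simp

omit [Fintype σ] [DecidableEq σ] in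
theorem yf3a_span (p : MvPolynomial σ ℂ) : ∀ᶠ d in atTop, (fun w => eval w p) ∈
    Submodule.span ℂ (range fun (t : Fin d → Option σ) (w : σ → ℂ) => yf3aEv d w t) := by
  induction p using MvPolynomial.induction_on with
  | C a =>
    refine Eventually.of_forall fun d => ?_
    have := Submodule.smul_mem _ a (Submodule.subset_span (R := ℂ) (mem_range_self
      (f := fun (t : Fin d → Option σ) (w : σ → ℂ) => yf3aEv d w t) fun _ => none))
    exact mem_of_eq_of_mem (funext fun w => by simp [yf3aEv]) this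
  | add p q hp hq =>
    filter_upwards [hp, hq] with d h1 h2
    exact mem_of_eq_of_mem (funext fun w => by simp) (Submodule.add_mem _ h1 h2)
  | mul_X p i hp =>
    obtain ⟨d₀, h⟩ := eventually_atTop.1 hp
    refine eventually_atTop.2 ⟨d₀ + 1, fun d hd => ?_⟩
    obtain ⟨d, rfl⟩ := Nat.exists_eq_add_one_of_ne_zero (n := d) (by omega)
    have h1 := Submodule.mem_map_of_mem (f := LinearMap.mulRight ℂ fun w : σ → ℂ => w i)
      (h d (by omega))
    rw [Submodule.map_span] at h1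
    refine mem_of_eq_of_mem (funext fun w => by simp) (Submodule.span_mono ?_ h1)
    rintro _ ⟨_, ⟨t, rfl⟩, rfl⟩
    exact ⟨Fin.cons (some i) t, funext fun w => by simp [yf3aEv, Fin.prod_univ_succ, mul_comm]⟩

omit [DecidableEq τ] in
/-- A polynomial map that is equivariant on `Z` agrees on `Z` with an equivariant one. -/
theorem yf3a_rey (Z : Set (σ → ℂ)) (F : τ → MvPolynomial σ ℂ) : ∃ F₂ : τ → MvPolynomial σ ℂ,
    (∀ z ∈ Z, pm F₂ z = pm F z) ∧ ∀ (A : Matrix σ σ ℂ) (B : Matrix τ τ ℂ),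
      (∀ z ∈ Z, A *ᵥ z ∈ Z) → (∀ z ∈ Z, Aᴴ *ᵥ z ∈ Z) →
      (∀ z ∈ Z, pm F (A *ᵥ z) = B *ᵥ pm F z) → ∀ w, pm F₂ (A *ᵥ w) = B *ᵥ pm F₂ w := by
  obtain ⟨d, hd⟩ := (eventually_all.2 fun i => yf3a_span (F i)).exists
  choose Λ hΛ using fun i => (Submodule.mem_span_range_iff_exists_fun ℂ).1 (hd i)
  have h1 : ∀ w, pm F w = of Λ *ᵥ yf3aEv d w := fun w => funext fun i => by
    simpa [mulVec, dotProduct, pm] using (congrFun (hΛ i) w).symm
  obtain ⟨Q, hQ, -, q1, q2⟩ := PW.L.exists_proj (Submodule.span ℂ (yf3aEv d '' Z))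
  have h2 : ∀ w, pm (fun i => ∑ t, C ((of Λ * Q) i t) * yf3aEv d X t) w =
      of Λ *ᵥ Q *ᵥ yf3aEv d w := fun w => funext fun i => by
    rw [mulVec_mulVec]
    simp only [pm, map_sum, map_mul, eval_C, yf3aEv, map_prod, mulVec, dotProduct]
    refine Finset.sum_congr rfl fun t _ => congrArg _ (Finset.prod_congr rfl fun k _ => ?_)
    cases t k <;> simp
  have h3 : ∀ A : Matrix σ σ ℂ, (∀ z ∈ Z, A *ᵥ z ∈ Z) → Q * yf3aT d A * Q = yf3aT d A * Q :=
    fun A hA => PW.L.lproj_inv q1 q2 fun v hv => by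
      refine (Submodule.map_span_le (yf3aT d A).mulVecLin _ _).2 ?_ ⟨v, hv, rfl⟩
      rintro _ ⟨z, hz, rfl⟩
      exact Submodule.subset_span ⟨_, hA z hz, (yf3a_mul d A z).symm⟩
  refine ⟨_, fun z hz => by rw [h2, q2 _ (Submodule.subset_span ⟨z, hz, rfl⟩), h1],
    fun A B a1 a2 a3 w => ?_⟩
  have h4 := congrArg conjTranspose (h3 _ a2)
  simp only [conjTranspose_mul, hQ, yf3a_star, conjTranspose_conjTranspose] at h4
  have h5 : Q * yf3aT d A = yf3aT d A * Q := by rw [← h4, ← Matrix.mul_assoc, h3 A a1]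
  rw [h2, h2, ← yf3a_mul, mulVec_mulVec (yf3aEv d w), h5, ← mulVec_mulVec]
  refine Submodule.span_induction (p := fun v _ => of Λ *ᵥ yf3aT d A *ᵥ v = B *ᵥ of Λ *ᵥ v)
    ?_ (by simp) (fun x y _ _ hx hy => by simp only [mulVec_add, hx, hy])
    (fun c x _ hx => by simp only [mulVec_smul, hx]) (q1 _)
  rintro _ ⟨z, hz, rfl⟩
  rw [yf3a_mul, ← h1, ← h1, a3 z hz]

omit [DecidableEq σ] in
/-- The solution of an injective polynomial system on a closed set is polynomial. -/
theorem yf3a_cram {Z : Set (σ → ℂ)} (hZ : ZC Z) (L : Matrix τ κ (MvPolynomial σ ℂ))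
    (b : τ → MvPolynomial σ ℂ) (γ : (σ → ℂ) → κ → ℂ)
    (hi : ∀ z ∈ Z, Function.Injective (L.map (eval z)).mulVec)
    (he : ∀ z ∈ Z, L.map (eval z) *ᵥ γ z = pm b z) :
    ∃ G : κ → MvPolynomial σ ℂ, ∀ z ∈ Z, pm G z = γ z := by
  obtain ⟨S, rfl⟩ := hZ
  let J : Ideal (MvPolynomial σ ℂ) :=
    { carrier := {p | ∃ M : Matrix κ τ (MvPolynomial σ ℂ), M * L = p • 1}
      add_mem' := fun ⟨M, h⟩ ⟨M', h'⟩ => ⟨M + M', by rw [Matrix.add_mul, h, h', add_smul]⟩
      zero_mem' := ⟨0, by simp⟩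
      smul_mem' := fun c p ⟨M, h⟩ => ⟨c • M, by rw [Matrix.smul_mul, h, smul_assoc]⟩ }
  have top : J ⊔ Ideal.span S = ⊤ := by
    by_contra hne
    obtain ⟨m, hm, hle⟩ := Ideal.exists_le_maximal _ hne
    obtain ⟨x, rfl⟩ := isMaximal_iff_eq_vanishingIdeal_singleton.1 hm
    have h0 : ∀ p ∈ J ⊔ Ideal.span S, eval x p = 0 := fun p hp => by
      simpa using (mem_vanishingIdeal_singleton_iff x p).1 (hle hp)
    obtain ⟨l, hl⟩ := LinearMap.exists_leftInverse_of_injective (L.map (eval x)).toLin'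
      (LinearMap.ker_eq_bot.2 (hi x fun f hf => h0 f (Ideal.mem_sup_right (Ideal.subset_span hf))))
    have h1 : LinearMap.toMatrix' l * L.map (eval x) = 1 := by
      rw [← LinearMap.toMatrix'_toLin' (L.map (eval x)), ← LinearMap.toMatrix'_comp, hl,
        LinearMap.toMatrix'_id]
    obtain ⟨M, hM⟩ : ∃ M : Matrix κ τ (MvPolynomial σ ℂ),
        M.map (eval x) = LinearMap.toMatrix' l :=
      ⟨(LinearMap.toMatrix' l).map C, Matrix.ext fun _ _ => eval_C _⟩
    have h2 := h0 (M * L).det (Ideal.mem_sup_left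
      ⟨(M * L).adjugate * M, by rw [Matrix.mul_assoc, adjugate_mul]⟩)
    rw [RingHom.map_det, RingHom.mapMatrix_apply, Matrix.map_mul, hM, h1, det_one] at h2
    exact one_ne_zero h2
  obtain ⟨p, ⟨M, hM⟩, q, hq, e⟩ := Submodule.mem_sup.1 ((Ideal.eq_top_iff_one _).1 top)
  refine ⟨M *ᵥ b, fun z hz => ?_⟩
  have h1 : eval z q = 0 := Ideal.span_le.2 (fun f hf => (RingHom.mem_ker (f := eval z)).2 (hz f hf)) hq
  have h2 : eval z p = 1 := by simpa [h1] using congrArg (eval z) e
  have h3 : M.map (eval z) * L.map (eval z) = 1 := by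
    rw [← Matrix.map_mul, hM]
    ext i j
    simp [one_apply, apply_ite, h2]
  have h4 : pm (M *ᵥ b) z = M.map (eval z) *ᵥ pm b z :=
    funext fun i => RingHom.map_mulVec (eval z) M b i
  rw [h4, ← he z hz, mulVec_mulVec, h3, one_mulVec]

/-- A quadratic perturbation of a surjective linear map is open at zero. -/
theorem yf3a_open {E F : Type} [NormedAddCommGroup E] [NormedSpace ℂ E] [FiniteDimensional ℂ E]
    [NormedAddCommGroup F] [NormedSpace ℂ F] [FiniteDimensional ℂ F] (Λ : E →ₗ[ℂ] F)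
    (B : E →ₗ[ℂ] E →ₗ[ℂ] F) (h : Function.Surjective Λ) :
    map (fun x => Λ x + B x x) (𝓝 0) = 𝓝 0 := by
  have := FiniteDimensional.complete ℂ E
  have := FiniteDimensional.complete ℂ F
  let B' : E →L[ℂ] E →L[ℂ] F := LinearMap.toContinuousLinearMap
    ((LinearMap.toContinuousLinearMap (𝕜 := ℂ) (E := E) (F' := F)).toLinearMap ∘ₗ B)
  have h1 := (LinearMap.toContinuousLinearMap Λ).hasStrictFDerivAt (x := 0) |>.add
    (B'.hasStrictFDerivAt.clm_apply (hasStrictFDerivAt_id (0 : E)))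
  have h2 := h1.map_nhds_eq_of_surj (LinearMap.range_eq_top.2 fun y => (h y).imp fun x hx => by
    simpa using hx)
  simpa [B', Pi.add_def] using h2

end

theorem rey {σ τ : Type} [Fintype σ] [DecidableEq σ] [Fintype τ] (Z : Set (σ → ℂ))
    {F : (σ → ℂ) → τ → ℂ} (hF : ∀ t, IsPoly id fun z => F z t) :
    ∃ F' : (σ → ℂ) → τ → ℂ, (∀ t, IsPoly id fun z => F' z t) ∧ (∀ z ∈ Z, F' z = F z) ∧
      ∀ (A : Matrix σ σ ℂ) (B : Matrix τ τ ℂ), (∀ z ∈ Z, A *ᵥ z ∈ Z) → (∀ z ∈ Z, Aᴴ *ᵥ z ∈ Z) →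
        (∀ z ∈ Z, F (A *ᵥ z) = B *ᵥ F z) → ∀ w, F' (A *ᵥ w) = B *ᵥ F' w := by
  choose P hP using hF
  obtain rfl : F = pm P := funext fun z => funext fun t => hP t z
  obtain ⟨Q, h⟩ := yf3a_rey Z P
  exact ⟨pm Q, fun t => ⟨Q t, fun _ => rfl⟩, h⟩

theorem cram {σ κ τ : Type} [Finite σ] [Fintype κ] [Finite τ] {Z : Set (σ → ℂ)} (hZ : ZC Z)
    {L : (σ → ℂ) → Matrix τ κ ℂ} {b : (σ → ℂ) → τ → ℂ} {γ : (σ → ℂ) → κ → ℂ}
    (hL : ∀ t k, IsPoly id fun z => L z t k) (hb : ∀ t, IsPoly id fun z => b z t)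
    (hi : ∀ z ∈ Z, ∀ u, L z *ᵥ u = 0 → u = 0) (he : ∀ z ∈ Z, L z *ᵥ γ z = b z) :
    ∃ Γ : (σ → ℂ) → κ → ℂ, (∀ k, IsPoly id fun z => Γ z k) ∧ ∀ z ∈ Z, Γ z = γ z := by
  classical
  have := Fintype.ofFinite σ
  have := Fintype.ofFinite τ
  choose P hP using hL
  choose Q hQ using hb
  obtain rfl : L = fun z => (of P).map (eval z) := funext fun z => Matrix.ext fun t k => hP t k z
  obtain rfl : b = pm Q := funext fun z => funext fun t => hQ t z
  obtain ⟨G, h⟩ := yf3a_cram hZ (of P) Q γ (fun z hz =>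
    (injective_iff_map_eq_zero ((of P).map (eval z)).mulVecLin).2 (hi z hz)) he
  exact ⟨pm G, fun k => ⟨G k, fun _ => rfl⟩, h⟩

theorem open_quad {X Y : Type} [AddCommGroup X] [Module ℂ X] [TopologicalSpace X]
    [IsTopologicalAddGroup X] [ContinuousSMul ℂ X] [T2Space X] [FiniteDimensional ℂ X]
    [AddCommGroup Y] [Module ℂ Y] [TopologicalSpace Y] [IsTopologicalAddGroup Y]
    [ContinuousSMul ℂ Y] [T2Space Y] [FiniteDimensional ℂ Y] (Λ : X →ₗ[ℂ] Y)
    (hΛ : Function.Surjective Λ) (B : X →ₗ[ℂ] X →ₗ[ℂ] Y) :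
    map (fun x => Λ x + B x x) (𝓝 0) = 𝓝 0 := by
  let e := (Module.finBasis ℂ X).equivFunL
  let f := (Module.finBasis ℂ Y).equivFunL
  have h := yf3a_open (f.toLinearMap ∘ₗ Λ ∘ₗ e.symm.toLinearMap)
    ((B.compl₁₂ e.symm.toLinearMap e.symm.toLinearMap).compr₂ f.toLinearMap)
    (f.surjective.comp (hΛ.comp e.symm.surjective))
  have h1 : map e (𝓝 0) = 𝓝 0 := (e.toHomeomorph.map_nhds_eq 0).trans (congrArg _ (map_zero e))
  have h2 : map f.symm (𝓝 0) = 𝓝 0 :=
    (f.symm.toHomeomorph.map_nhds_eq 0).trans (congrArg _ (map_zero f.symm))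
  rw [← h2, ← h, ← h1, Filter.map_map, Filter.map_map]
  exact congrArg (Filter.map · (𝓝 0)) (funext fun x => by simp)

end Pool.Agent.CS
end
end

-- part Pool.Agent.P.MP_d34769_ag.YF3
section

/-! Existence of enough semi-invariants and covariants. -/

open Matrix MvPolynomial Filter Topology
open scoped Kronecker
open Pool.Agent.PWV (ZC pm)
open Pool.Agent.PW.L (lproj_vec lproj_kron)

set_option linter.unusedSectionVars false

noncomputable section
namespace Pool.Agent.CS

variable {I : Type} [Fintype I] [DecidableEq I]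

/-- the coordinates with one more variable -/
def yf3c {m : ℕ} (z : Pt I m × ℂ) (x : Option (Co I m)) : ℂ := x.elim z.2 (co z.1)

/-- the point with given coordinates -/
def yf3d {m : ℕ} (w : Option (Co I m) → ℂ) : Pt I m × ℂ := ((coL I m).symm fun x => w (some x), w none)

theorem yf3_dc {m : ℕ} (z : Pt I m × ℂ) : yf3d (yf3c z) = z := rfl

theorem yf3_cd {m : ℕ} (w : Option (Co I m) → ℂ) : yf3c (yf3d w) = w := by
  funext x
  rcases x with _ | x | x <;> rfl

/-- the matrix of the action -/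
def yf3A (m : ℕ) (g : Matrix I I ℂ) (c : ℂ) : Matrix (Option (Co I m)) (Option (Co I m)) ℂ :=
  fun x y => match x, y with
    | none, none => c
    | some (.inl x), some (.inl y) => if x.1 = y.1 then g x.2.1 y.2.1 * g⁻¹ y.2.2 x.2.2 else 0
    | some (.inr x), some (.inr y) => if x.2 = y.2 then g x.1 y.1 else 0
    | _, _ => 0

theorem yf3_A {m : ℕ} (g : Matrix I I ℂ) (c t : ℂ) (q : Pt I m) :
    yf3A m g c *ᵥ yf3c (q, t) = yf3c (act g q, c * t) := by
  funext x
  rcases x with _ | ⟨a, i, j⟩ | ⟨i, r⟩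
  · simp [mulVec, dotProduct, yf3A, yf3c, Fintype.sum_option]
  · simp only [mulVec, dotProduct, yf3A, yf3c, co, act, actR, Fintype.sum_option,
      Fintype.sum_sum_type, Fintype.sum_prod_type, Matrix.mul_apply, Finset.sum_mul, Option.elim,
      Sum.elim_inl, zero_mul, zero_add, add_zero, Finset.sum_const_zero, ite_mul]
    rw [Finset.sum_eq_single a (fun b _ hb => by simp [hb.symm]) (by simp), Finset.sum_comm]
    simp [mul_right_comm]
  · simp [mulVec, dotProduct, yf3A, yf3c, co, act, Fintype.sum_option, Fintype.sum_prod_type,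
      Matrix.mul_apply]

theorem yf3_As (m : ℕ) (g : Matrix I I ℂ) (c : ℂ) : (yf3A m g c)ᴴ = yf3A m gᴴ (star c) := by
  ext x y
  rcases x with _ | x | x <;> rcases y with _ | y | y <;>
    simp [yf3A, ← conjTranspose_nonsing_inv, eq_comm, apply_ite (starRingEnd ℂ)]

theorem yf3_zc {σ κ : Type} {F : κ → (σ → ℂ) → ℂ} (hF : ∀ k, IsPoly id (F k)) :
    ZC {x | ∀ k, F k x = 0} := by
  choose P hP using hF
  exact ⟨Set.range P, Set.ext fun x => by simp [hP]⟩

theorem yf3_exp {m : ℕ} {F : Pt I m × ℂ → ℂ} (hF : IsPoly yf3c F) :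
    ∃ P : Polynomial (MvPolynomial (Co I m) ℂ), ∀ q t,
      F (q, t) = (P.map (eval (co q))).eval t := by
  obtain ⟨P, hP⟩ := hF
  exact ⟨_, fun q t => (hP _).trans (optionEquivLeft_elim_eval ℂ _ (co q) t P)⟩

theorem yf3_coef {κ : Type} [Fintype κ] {p : Polynomial ℂ} {q : κ → Polynomial ℂ} {B : κ → ℂ}
    {k c : ℂ} (h : ∀ t, k * p.eval (c * t) = ∑ j, B j * (q j).eval t) (n : ℕ) :
    k * (c ^ n * p.coeff n) = ∑ j, B j * (q j).coeff n := by
  have e : Polynomial.C k * p.comp (Polynomial.C c * Polynomial.X) =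
      ∑ j, Polynomial.C (B j) * q j := Polynomial.funext fun t => by
    simpa [Polynomial.eval_finsetSum] using h t
  simpa [Polynomial.comp_C_mul_X_coeff, mul_comm (c ^ n)] using congrArg (·.coeff n) e

namespace Dat
variable {D : Dat I} {p : Pt I D.m}

/-- the orbit with the character -/
def yf3O (D : Dat I) (a : ℕ) (p : Pt I D.m) : Set (Option (Co I D.m) → ℂ) :=
  {w | ∃ g ∈ D.base.P, w = yf3c (act g p, D.om g ^ a)}

theorem yf3_O {a : ℕ} (ha : 0 < a) (h : D.base.St p) : ZC (D.yf3O a p) := by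
  classical
  let u : (I × I ⊕ I × I → ℂ) → Matrix I I ℂ := fun x => of fun i j => x (.inl (i, j))
  let v : (I × I ⊕ I × I → ℂ) → Matrix I I ℂ := fun x => of fun i j => x (.inr (i, j))
  have hu : ∀ i j, IsPoly id fun x => u x i j := fun i j => IsPoly.coord (c := id) _
  have hv : ∀ i j, IsPoly id fun x => v x i j := fun i j => IsPoly.coord (c := id) _
  obtain ⟨F, hF, hF'⟩ := D.om_poly
  have hG : ∀ t, IsPoly id fun x =>
      yf3c ((fun b => u x * p.1 b * v x, u x * p.2), F (u x, v x) ^ a) t := by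
    rintro (_ | ⟨b, i, j⟩ | ⟨i, r⟩)
    · exact (hF.comp (g := fun x => (u x, v x)) (by rintro (t | t); exacts [hu _ _, hv _ _])).pow a
    · exact IsPoly.mmul (A := fun x => u x * p.1 b) (B := v)
        (IsPoly.mmul (B := fun _ => p.1 b) hu fun _ _ => IsPoly.const _) hv i j
    · exact IsPoly.mmul (B := fun _ => p.2) hu (fun _ _ => IsPoly.const _) i r
  choose G hG using hG
  have hV := yf3_zc (F := fun (k : I × I ⊕ I × I) x => k.elim
    (fun k => if D.base.gp k.1 k.2 then 0 else u x k.1 k.2)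
      fun k => (u x * v x) k.1 k.2 - (1 : Matrix I I ℂ) k.1 k.2) (by
    rintro (k | k)
    exacts [IsPoly.ite _ (IsPoly.const 0) (hu _ _), (IsPoly.mmul hu hv _ _).sub (IsPoly.const _)])
  have hc : IsClosed (D.yf3O a p) := by
    have h1 : Continuous (yf3d : _ → Pt I D.m × ℂ) :=
      ((coL I D.m).symm.toLinearMap.continuous_of_finiteDimensional.comp (by fun_prop)).prodMk
        (continuous_apply none)
    refine (congrArg IsClosed (Set.ext fun w => exists_congr fun g => and_congr_right fun _ =>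
      ⟨fun e => ?_, fun e => ?_⟩)).mp ((orb_closed ha h).preimage h1)
    · rw [← e, yf3_cd]
    · rw [e, yf3_dc]
  refine (congrArg ZC ((congrArg closure (Set.ext fun w => ⟨?_, ?_⟩)).trans hc.closure_eq)).mp
    (img_zc hV 1 G)
  · rintro ⟨x, ⟨hx, -⟩, rfl⟩
    have h1 : u x * v x = 1 := Matrix.ext fun i j => sub_eq_zero.1 (hx (.inr (i, j)))
    have h2 : u x ∈ D.base.P := ⟨fun i j hij => (if_neg hij).symm.trans (hx (.inl (i, j))),
      isUnit_det_of_right_inverse h1⟩
    refine ⟨u x, h2, funext fun t => (hG t x).symm.trans ?_⟩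
    beta_reduce
    rw [← inv_eq_right_inv h1, hF' _ h2]
    rfl
  · rintro ⟨g, hg, rfl⟩
    refine ⟨Sum.elim (fun k => g k.1 k.2) fun k => g⁻¹ k.1 k.2, ⟨?_, by simp⟩,
      funext fun t => (hG t _).symm.trans ?_⟩
    · rintro (k | k)
      · exact ite_eq_left_iff.2 (hg.1 _ _)
      · exact sub_eq_zero.2 (congrFun₂ (mul_nonsing_inv g hg.2) _ _)
    · rw [← hF' g hg]
      rfl

open Classical in
/-- the equations for an element of the group -/
def yf3L (D : Dat I) (p q : Pt I D.m) : (I × I → ℂ) →ₗ[ℂ] Co I D.m ⊕ I × I → ℂ where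
  toFun h := Sum.elim (co (fun a => lproj_vec.symm h * p.1 a - q.1 a * lproj_vec.symm h,
    lproj_vec.symm h * p.2)) fun k => if D.base.gp k.1 k.2 then 0 else h k
  map_add' h k := by
    funext x
    rcases x with (x | x) | x
    · simp only [map_add, Matrix.add_mul, Matrix.mul_add, co, Sum.elim_inl, Pi.add_apply,
        Matrix.sub_apply, Matrix.add_apply]
      ring
    · simp [Matrix.add_mul, co]
    · simp [ite_add_ite]
  map_smul' c h := by
    funext x
    rcases x with (x | x) | x <;> simp [co, mul_sub]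

theorem yf3_inj {q : Pt I D.m} (hp : D.base.St p) (hq : D.base.St q) {h : I × I → ℂ}
    (e : D.yf3L p q h = 0) : h = 0 :=
  (map_eq_zero_iff _ lproj_vec.symm.injective).1 (hp.hom0 hq
    (fun i j hij => (if_neg hij).symm.trans (congrFun e (.inr (i, j))))
    (fun a => Matrix.ext fun i j => sub_eq_zero.1 (congrFun e (.inl (.inl (a, i, j)))))
    (Matrix.ext fun i r => congrFun e (.inl (.inr (i, r)))))

open Classical in
theorem yf3_sol {g : Matrix I I ℂ} (hg : g ∈ D.base.P) : D.yf3L p (act g p) (lproj_vec g) =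
    Sum.elim (co (0, (act g p).2)) 0 := by
  funext x
  rcases x with (⟨a, i, j⟩ | x) | x
  · exact sub_eq_zero.2 (congrFun₂ (nonsing_inv_mul_cancel_right g _ hg.2).symm i j)
  · rfl
  · exact ite_eq_left_iff.2 (hg.1 _ _)

theorem gen_t {a : ℕ} (ha : 0 < a) (h : D.base.St p) :
    ∃ (u : Pt I D.m × ℂ → ℂ) (L : Pt I D.m × ℂ → Matrix I I ℂ),
      IsPoly (fun z (x : Option (Co I D.m)) => x.elim z.2 (co z.1)) u ∧
      (∀ i j, IsPoly (fun z (x : Option (Co I D.m)) => x.elim z.2 (co z.1)) fun z => L z i j) ∧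
      u (p, 1) = 1 ∧ L (p, 1) = 1 ∧ ∀ g ∈ D.base.P, ∀ q t,
        D.om g ^ a * u (act g q, D.om g ^ a * t) = u (q, t) ∧
        L (act g q, D.om g ^ a * t) = g * L (q, t) := by
  classical
  have hZ := yf3_O ha h
  have ne : ∀ g ∈ D.base.P, D.om g ^ a ≠ 0 := fun g hg => pow_ne_zero a (om_ne hg)
  obtain ⟨u, u1, u2⟩ := cram (κ := Unit) (τ := Unit) hZ (L := fun z _ _ => z none)
    (b := fun _ _ => 1) (γ := fun z _ => (z none)⁻¹) (fun _ _ => IsPoly.coord (c := id) none)
    (fun _ => IsPoly.const 1) (by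
      rintro _ ⟨g, hg, rfl⟩ v hv
      exact funext fun x => by
        simpa [mulVec, dotProduct, yf3c, om_ne hg] using congrFun hv x) (by
      rintro _ ⟨g, hg, rfl⟩
      exact funext fun x => by simp [mulVec, dotProduct, yf3c, om_ne hg])
  choose! γ γ1 γ2 using fun w (hw : w ∈ D.yf3O a p) => hw
  have hq : ∀ w ∈ D.yf3O a p, (yf3d w).1 = act (γ w) p := fun w hw =>
    congrArg (fun w => (yf3d w).1) (γ2 w hw)
  have cq : ∀ b i j, IsPoly id fun w : Option (Co I D.m) → ℂ => (yf3d w).1.1 b i j :=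
    fun b i j => IsPoly.coord (c := id) (some (Sum.inl (b, i, j)))
  obtain ⟨Γ, g1, g2⟩ := cram hZ (L := fun w => LinearMap.toMatrix' (D.yf3L p (yf3d w).1))
    (b := fun w => Sum.elim (co (0, (yf3d w).1.2)) 0) (γ := fun w => lproj_vec (γ w)) (by
      rintro ((⟨b, i, j⟩ | x) | x) k
      · exact (IsPoly.const _).sub (IsPoly.mmul (B := fun _ => lproj_vec.symm _) (cq b)
          (fun _ _ => IsPoly.const _) i j)
      · exact IsPoly.const _
      · exact IsPoly.const _) (by
      rintro ((x | x) | x)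
      exacts [IsPoly.const 0, IsPoly.coord (c := id) (some (Sum.inr x)), IsPoly.const 0])
    (fun w hw v hv => yf3_inj h (hq w hw ▸ h.act (γ1 w hw))
      ((LinearMap.toMatrix'_mulVec _ _).symm.trans hv))
    fun w hw => by rw [LinearMap.toMatrix'_mulVec, hq w hw, yf3_sol (γ1 w hw)]
  have g3 : ∀ g ∈ D.base.P, Γ (yf3c (act g p, D.om g ^ a)) = lproj_vec g := fun g hg => by
    have a1 : yf3c (act g p, D.om g ^ a) ∈ D.yf3O a p := ⟨g, hg, rfl⟩
    have a2 : act g p = act (γ _) p := hq _ a1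
    rw [g2 _ a1, ← h.free hg (γ1 _ a1) a2]
  have mv : ∀ g ∈ D.base.P, ∀ k ∈ D.base.P, yf3A D.m g (D.om g ^ a) *ᵥ yf3c (act k p, D.om k ^ a) =
      yf3c (act (g * k) p, D.om (g * k) ^ a) := fun g hg k hk => by
    rw [yf3_A, act_mul, om_mul hg hk, mul_pow]
  have m1 : ∀ g ∈ D.base.P, ∀ w ∈ D.yf3O a p, yf3A D.m g (D.om g ^ a) *ᵥ w ∈ D.yf3O a p := by
    rintro g hg _ ⟨k, hk, rfl⟩
    exact ⟨_, mul_mem_P hg hk, mv g hg k hk⟩
  have m2 : ∀ g ∈ D.base.P, ∀ w ∈ D.yf3O a p, (yf3A D.m g (D.om g ^ a))ᴴ *ᵥ w ∈ D.yf3O a p :=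
    fun g hg => by
      rw [yf3_As, star_pow, ← om_star hg]
      exact m1 _ (star_mem_P hg)
  have one : yf3c (p, 1) = yf3c (act 1 p, D.om 1 ^ a) := by rw [act_one, om_one, one_pow]
  have one' : yf3c (p, 1) ∈ D.yf3O a p := ⟨1, D.base.one_mem_P, one⟩
  obtain ⟨u', a1, a2, a3⟩ := rey (D.yf3O a p) u1
  obtain ⟨Γ', b1, b2, b3⟩ := rey (D.yf3O a p) g1
  refine ⟨fun z => u' (yf3c z) (), fun z => lproj_vec.symm (Γ' (yf3c z)),
    (a1 ()).comp fun t => IsPoly.coord t, fun i j => (b1 (i, j)).comp fun t => IsPoly.coord t,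
    ?_, ?_, fun g hg q t => ⟨?_, ?_⟩⟩
  · beta_reduce
    rw [a2 _ one', u2 _ one']
    exact inv_one
  · beta_reduce
    rw [b2 _ one', one, g3 _ (D.base.one_mem_P), LinearEquiv.symm_apply_apply]
  · beta_reduce
    rw [← yf3_A, a3 _ (fun _ _ => (D.om g ^ a)⁻¹) (m1 g hg) (m2 g hg) fun w hw => ?_]
    · simp [mulVec, dotProduct, om_ne hg]
    · rw [u2 _ (m1 g hg w hw), u2 _ hw, ← yf3_cd w, yf3_A]
      exact funext fun _ => by simp [mulVec, dotProduct, yf3c, mul_comm]
  · beta_reduce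
    rw [← yf3_A, b3 _ (g ⊗ₖ 1) (m1 g hg) (m2 g hg) ?_, LinearEquiv.symm_apply_eq, ← lproj_kron,
      LinearEquiv.apply_symm_apply]
    rintro _ ⟨k, hk, rfl⟩
    rw [mv g hg k hk, g3 _ (mul_mem_P hg hk), g3 k hk, lproj_kron]

theorem gen_s (h : D.base.St p) : ∃ (a : ℕ) (s : Pt I D.m → ℂ), 0 < a ∧ IsPoly co s ∧ s p ≠ 0 ∧
    ∀ g ∈ D.base.P, ∀ q, D.om g ^ a * s (act g q) = s q := by
  obtain ⟨u, L, h1, -, h2, -, h3⟩ := gen_t one_pos h
  obtain ⟨P, hP⟩ := yf3_exp h1
  obtain ⟨n, hn⟩ : ∃ n, (P.map (eval (co p))).coeff n ≠ 0 := by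
    by_contra hc
    rw [hP, show P.map (eval (co p)) = 0 from Polynomial.ext fun n =>
      by_contra fun e => hc ⟨n, e⟩, Polynomial.eval_zero] at h2
    exact zero_ne_one h2
  refine ⟨n + 1, fun q => eval (co q) (P.coeff n), n.succ_pos, IsPoly.ev _,
    by rwa [Polynomial.coeff_map] at hn, fun g hg q => ?_⟩
  have := yf3_coef (κ := Unit) (B := fun _ => 1) (q := fun _ => P.map (eval (co q)))
    (fun t => by simpa only [hP, Fintype.sum_unique, one_mul] using (h3 g hg q t).1) n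
  simpa [pow_succ', mul_assoc] using this

theorem gen_l (h : D.base.St p) : ∃ (A : ℕ) (s : Pt I D.m → ℂ) (l : Pt I D.m → Matrix I I ℂ),
    0 < A ∧ IsPoly co s ∧ (∀ i j, IsPoly co fun q => l q i j) ∧ s p ≠ 0 ∧ IsUnit (l p).det ∧
    ∀ g ∈ D.base.P, ∀ q, D.om g ^ A * s (act g q) = s q ∧
      D.om g ^ A • l (act g q) = g * l q := by
  obtain ⟨a, s, ha, s1, s2, s3⟩ := gen_s h
  obtain ⟨u, L, -, h1, -, h2, h3⟩ := gen_t ha h
  choose P hP using fun i j => yf3_exp (h1 i j)
  obtain ⟨d, hd⟩ : ∃ d, ∀ k : I × I, (P k.1 k.2).natDegree ≤ d :=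
    ⟨_, fun k => Finset.le_sup (f := fun k : I × I => (P k.1 k.2).natDegree) (Finset.mem_univ k)⟩
  refine ⟨a * (d + 1), fun q => s q ^ (d + 1), fun q => of fun i j => ∑ n ∈ Finset.range (d + 1),
    ((s p)⁻¹ * s q) ^ (d + 1 - n) * eval (co q) ((P i j).coeff n), Nat.mul_pos ha d.succ_pos,
    s1.pow _, fun i j => IsPoly.sum (Finset.range (d + 1)) fun n _ =>
      (((IsPoly.const (s p)⁻¹).mul s1).pow (d + 1 - n)).mul (IsPoly.ev ((P i j).coeff n)),
    pow_ne_zero _ s2, ?_, fun g hg q => ⟨by rw [pow_mul, ← mul_pow, s3 g hg], ?_⟩⟩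
  · refine (congrArg (fun M : Matrix I I ℂ => IsUnit M.det) (h2.symm.trans
      (Matrix.ext fun i j => ?_))).mp (by simp)
    rw [hP, Polynomial.eval_eq_sum_range' (Nat.lt_succ_of_le
      (Polynomial.natDegree_map_le.trans (hd (i, j))))]
    simp [inv_mul_cancel₀ s2]
  · ext i j
    simp only [Matrix.smul_apply, of_apply, smul_eq_mul, Matrix.mul_apply, Finset.mul_sum]
    rw [Finset.sum_comm]
    refine Finset.sum_congr rfl fun n hn => ?_
    have := yf3_coef (k := 1) (B := g i) (q := fun k => (P k j).map (eval (co q)))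
      (p := (P i j).map (eval (co (act g q)))) (c := D.om g ^ a) (fun t => by
        simpa only [hP, one_mul, Matrix.mul_apply] using congrFun₂ (h3 g hg q t).2 i j) n
    simp only [Polynomial.coeff_map, one_mul] at this
    obtain ⟨e, he⟩ := Nat.exists_eq_add_of_le (Finset.mem_range.1 hn).le
    simp only [mul_left_comm (g i _), ← Finset.mul_sum, ← this, ← s3 g hg q, he,
      Nat.add_sub_cancel_left]
    ring

theorem nonempty_uni (D : Dat I) : Nonempty D.base.Uni := by
  choose! A s l hA s1 l1 s2 l2 eq using fun (p : Pt I D.m) (h : D.base.St p) => gen_l h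
  obtain ⟨t, ht, hc⟩ := (LL_compact (D := D)).elim_nhds_subcover
    (fun p => {q | s p q ≠ 0 ∧ (l p q).det ≠ 0}) fun p hp =>
      (((s1 p (LL_st hp)).continuous continuous_co).continuousAt.eventually_ne
        (s2 p (LL_st hp))).and (((IsPoly.det (l1 p (LL_st hp))).continuous
          continuous_co).continuousAt.eventually_ne (l2 p (LL_st hp)).ne_zero)
  let e : Fin t.card → Pt I D.m := fun k => t.equivFin.symm k
  have st : ∀ k, D.base.St (e k) := fun k => LL_st (ht _ (t.equivFin.symm k).2)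
  have hB : 0 < ∏ k, A (e k) := Finset.prod_pos fun k _ => hA _ (st k)
  have dv : ∀ k, ∃ n, ∏ k, A (e k) = A (e k) * (n + 1) := fun k => by
    obtain ⟨n, hn⟩ := Finset.dvd_prod_of_mem (fun k => A (e k)) (Finset.mem_univ k)
    obtain ⟨n, rfl⟩ := Nat.exists_eq_add_one_of_ne_zero (n := n) fun e => by simp [hn, e] at hB
    exact ⟨n, hn⟩
  choose n hn using dv
  choose S hS using fun k => (s1 _ (st k)).pow (n k + 1)
  choose L hL using fun k i j => ((s1 _ (st k)).pow (n k)).mul (l1 _ (st k) i j)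
  have hL' : ∀ k q, (of (L k)).map (eval (co q)) = s (e k) q ^ n k • l (e k) q := fun k q =>
    Matrix.ext fun i j => (hL k i j q).symm
  have hS' : ∀ k q, eval (co q) (S k) = s (e k) q ^ (n k + 1) := fun k q => (hS k q).symm
  have e1 : ∀ g ∈ D.base.P, ∀ q k, D.om g ^ (∏ k, A (e k)) * eval (co (act g q)) (S k) =
      eval (co q) (S k) := fun g hg q k => by
    rw [hS', hS', hn k, pow_mul, ← mul_pow, (eq _ (st k) g hg q).1]
  have e2 : ∀ g ∈ D.base.P, ∀ q k, D.om g ^ (∏ k, A (e k)) •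
      (of (L k)).map (eval (co (act g q))) = g * (of (L k)).map (eval (co q)) := fun g hg q k => by
    rw [hL', hL', Matrix.mul_smul, ← (eq _ (st k) g hg q).2, ← (eq _ (st k) g hg q).1, hn k,
      smul_smul, smul_smul]
    congr 1
    ring
  have e3 : ∀ q : Pt I D.m, D.base.St q →
      ∃ k, eval (co q) (S k) ≠ 0 ∧ IsUnit ((of (L k)).map (eval (co q))).det := fun q hq => by
    obtain ⟨g, hg, h1⟩ : ∃ g ∈ D.base.P, act g q ∈ D.LL := exists_LL hq
    obtain ⟨x, hx, h2, h3⟩ := Set.mem_iUnion₂.1 (hc h1)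
    obtain ⟨k, rfl⟩ : ∃ k, x = e k := ⟨t.equivFin ⟨x, hx⟩, by simp [e]⟩
    have c0 : D.om g ^ (∏ k, A (e k)) ≠ 0 := pow_ne_zero _ (om_ne hg)
    refine ⟨k, ?_, isUnit_iff_ne_zero.2 fun e0 => ?_⟩
    · rw [← e1 g hg q k, hS']
      exact mul_ne_zero c0 (pow_ne_zero _ h2)
    · have := congrArg det (e2 g hg q k)
      rw [det_mul, e0, mul_zero, hL', det_smul, det_smul] at this
      exact mul_ne_zero (pow_ne_zero _ c0) (mul_ne_zero (pow_ne_zero _ (pow_ne_zero _ h2)) h3) this
  exact ⟨⟨t.card, ∏ k, A (e k), S, fun k => of (L k), hB, e1, e2, e3⟩⟩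

end Dat

end Pool.Agent.CS
end
end

-- part Pool.Agent.P.MP_d34769_ag.YF3b
section

/-! Derivatives of polynomials by dual numbers. -/

open Matrix MvPolynomial Filter Topology

noncomputable section
namespace Pool.Agent.CS

/-- evaluation at `x + ε u` -/
def dl {σ : Type} (x u : σ → ℂ) : MvPolynomial σ ℂ →+* DualNumber ℂ :=
  eval₂Hom (algebraMap ℂ _) fun i => TrivSqZeroExt.inl (x i) + TrivSqZeroExt.inr (u i)

theorem dl_fst {σ : Type} (x u : σ → ℂ) (P : MvPolynomial σ ℂ) : (dl x u P).fst = eval x P := by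
  induction P using MvPolynomial.induction_on with
  | C a => simp [dl, TrivSqZeroExt.algebraMap_eq_inl]
  | add p q hp hq => simp only [map_add, TrivSqZeroExt.fst_add, hp, hq]
  | mul_X p i hp =>
    rw [map_mul, map_mul, TrivSqZeroExt.fst_mul, hp]
    simp [dl]

/-- a coordinate of a linear map -/
def yf3bC {σ : Type} {e : ℕ} (L : (Fin e → ℂ) →ₗ[ℂ] σ → ℂ) (i : σ) : (Fin e → ℂ) →L[ℂ] ℂ :=
  LinearMap.toContinuousLinearMap (LinearMap.proj (R := ℂ) (φ := fun _ : σ => ℂ) i ∘ₗ L)

theorem an_aff {σ : Type} {e : ℕ} (x : σ → ℂ) (L : (Fin e → ℂ) →ₗ[ℂ] σ → ℂ) (P : MvPolynomial σ ℂ)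
    (z : Fin e → ℂ) : AnalyticAt ℂ (fun n => eval (x + L n) P) z := by
  induction P using MvPolynomial.induction_on with
  | C a => simpa only [eval_C] using analyticAt_const
  | add p q hp hq => simpa only [map_add] using hp.fun_add hq
  | mul_X p i hp =>
    simp only [map_mul, eval_X]
    exact hp.fun_mul (analyticAt_const.fun_add ((yf3bC L i).analyticAt z))

theorem dl_snd {σ : Type} {e : ℕ} (x : σ → ℂ) (L : (Fin e → ℂ) →ₗ[ℂ] σ → ℂ) (P : MvPolynomial σ ℂ)
    (v : Fin e → ℂ) : fderiv ℂ (fun n => eval (x + L n) P) 0 v = (dl x (L v) P).snd := by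
  induction P using MvPolynomial.induction_on with
  | C a => simp [dl, TrivSqZeroExt.algebraMap_eq_inl]
  | add p q hp hq =>
    simp only [map_add, TrivSqZeroExt.snd_add, ← hp, ← hq]
    rw [fderiv_fun_add (an_aff x L p 0).differentiableAt (an_aff x L q 0).differentiableAt]
    rfl
  | mul_X p i hp =>
    have h : HasFDerivAt (fun n => (x + L n) i) _ 0 := (yf3bC L i).hasFDerivAt.const_add (x i)
    simp only [map_mul, eval_X]
    rw [((an_aff x L p 0).differentiableAt.hasFDerivAt.fun_mul h).fderiv, DualNumber.snd_mul,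
      dl_fst, ← hp]
    simp [dl, mul_comm, yf3bC]

end Pool.Agent.CS
end
end
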