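import Pool.Agent.K.MP_d34769_ag.C112
import Pool.Agent.K.MP_d34769_ag.C113
import Pool.Agent.K.MP_d34769_ag.C80
import Pool.Agent.K.MP_d34769_ag.C42
import Pool.Agent.K.MP_d34769_ag.C84
import Pool.Agent.K.MP_d34769_ag.C60
import Pool.Agent.K.MP_d34769_ag.C111

-- part Pool.Agent.P.MP_d34769_ag.YHC2
section

/-! Actions on one space, the Coxeter shape, one-column diagrams. -/

open Set

set_option linter.unusedSectionVars false

noncomputable section
namespace Pool.Agent.CS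
open Pool.Agent.P.MP_d34769_ag

/-- A continuous action. -/
structure TA (Γ F : Type) [Group Γ] [TopologicalSpace F] where
  t : Γ → C(F, F)
  one : ∀ x, t 1 x = x
  mul : ∀ g g' x, t g (t g' x) = t (g * g') x

variable {Γ F F' K : Type} [Group Γ] [TopologicalSpace F] [CompactSpace F] [T2Space F]
  [TopologicalSpace F'] [CompactSpace F'] [T2Space F'] [Fintype K] [DecidableEq K]

/-- the action on cochains, twisted by a character -/
def TA.r (A : TA Γ F) (χ : Γ →* ℤˣ) : Γ →* Module.End ℂ (AS F) where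
  toFun g := ((χ g : ℤ) : ℂ) • AS.pl (A.t g⁻¹)
  map_one' := LinearMap.ext fun c => by
    show ((χ 1 : ℤ) : ℂ) • AS.pull (A.t 1⁻¹) c = c
    rw [inv_one, show ⇑(A.t 1) = id from funext A.one, AS.pull_id, map_one]
    simp
  map_mul' g g' := LinearMap.ext fun c => by
    show ((χ (g * g') : ℤ) : ℂ) • AS.pull (A.t (g * g')⁻¹) c =
      ((χ g : ℤ) : ℂ) • AS.pull (A.t g⁻¹) (((χ g' : ℤ) : ℂ) • AS.pull (A.t g'⁻¹) c)
    rw [map_smul, AS.pull_pull, smul_smul, map_mul, Units.val_mul, Int.cast_mul, mul_inv_rev]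
    exact congrArg (_ • AS.pull · c) (funext fun x => (A.mul g'⁻¹ g⁻¹ x).symm)

theorem TA.r_apply (A : TA Γ F) (χ : Γ →* ℤˣ) (g : Γ) (c : AS F) :
    A.r χ g c = ((χ g : ℤ) : ℂ) • AS.pull (A.t g⁻¹) c := rfl

theorem TA.mem_fix (A : TA Γ F) (χ : Γ →* ℤˣ) {c : AS F} :
    c ∈ Fix (A.r χ) ↔ ∀ g, c = ((χ g : ℤ) : ℂ) • AS.pull (A.t g) c := by
  have e : ∀ g, A.r χ g⁻¹ c = ((χ g : ℤ) : ℂ) • AS.pull (A.t g) c := fun g => by
    rw [A.r_apply, inv_inv, map_inv, Int.units_inv_eq_self]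
  rw [mem_Fix]
  refine ⟨fun h g => (h g⁻¹).symm.trans (e g), fun h g => ?_⟩
  have := (e g⁻¹).trans (h g⁻¹).symm
  rwa [inv_inv] at this

theorem TA.act (A : TA Γ F) (χ : Γ →* ℤˣ) : (CC F).Act (A.r χ) :=
  ⟨fun g x => (congrArg (_ • ·) (AS.pull_d (A.t g⁻¹) x)).trans (map_smul AS.d _ _).symm,
    fun g n x hx => Submodule.smul_mem _ _ (Cx.Gcast
      ((mor_pl (A.t g⁻¹) (mapsTo_univ _ _) (mapsTo_empty _ _)).fG n x hx) (add_zero n)),
    fun g _ hx => Submodule.smul_mem _ _ (Nl_pull (A.t g⁻¹) hx)⟩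

theorem yhc2_cob {M : Type} [AddCommGroup M] [Fintype {u : List (Finset K) // Part u}]
    {u : List (Finset K)} (hu : Part u) (φ : List (Finset K) → M) :
    cob u φ = ∑ v : {u : List (Finset K) // Part u},
      (cob u fun w => if w = v.1 then (1 : ℤ) else 0) • φ v.1 := by
  rw [cob_matrix Finset.univ.nodup (Finset.univ.image fun v : {u : List (Finset K) // Part u} => v.1)
    (fun l hl => Finset.mem_image.2 ⟨⟨l, hl⟩, Finset.mem_univ _, rfl⟩) φ hu,
    Finset.sum_image fun x _ y _ hxy => Subtype.ext hxy]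

theorem yhc2_cob_cob {M : Type} [AddCommGroup M] (u : List (Finset K)) (φ : List (Finset K) → M) :
    (cob u fun w => cob w φ) = 0 := by
  have h := cobM_cobM [u] fun L => φ (L.headD [])
  simpa only [cobM_one, List.headD_cons] using h

theorem yhc2_sup {u v : List (Finset K)} (hu : Part u)
    (h : (cob u fun w => if w = v then (1 : ℤ) else 0) ≠ 0) :
    (∀ i j, Ord u i j → Ord v i j) ∧ u.length - 1 = v.length - 1 + 1 := by
  have h1 : Fc u v := (cob_nat u).of_ne h
  refine ⟨(h1.part hu).2.2, ?_⟩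
  obtain ⟨s, a, b, t, rfl, rfl⟩ := h1
  simp only [List.length_append, List.length_cons]
  omega

/-- the shape of the ordered partitions of `K` -/
def coxSh (K : Type) [Fintype K] [DecidableEq K] : Sh where
  ι := {u : List (Finset K) // Part u}
  fin := Set.Finite.fintype (s := {u | Part u}) (finite_OPs (Finset.univ : Finset K).val)
  deg u := u.1.length - 1
  rel u v := ∀ i j, Ord u.1 i j → Ord v.1 i j
  ε u v := cob u.1 fun w => if w = v.1 then 1 else 0
  sup u _ h := yhc2_sup u.2 h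
  trans h h' i j e := h' i j (h i j e)
  εε u v := (@yhc2_cob K _ _ ℤ _ (_) u.1 u.2
    fun w => cob w fun x => if x = v.1 then 1 else 0).symm.trans (yhc2_cob_cob _ _)

theorem coxSh_isCox [Nonempty K] : IsCox (coxSh K) Subtype.val 1 where
  inj := Subtype.val_injective
  op i := i.2
  sur l h := ⟨⟨l, h⟩, rfl⟩
  deg i := by
    obtain ⟨a, ha, -⟩ := i.2.mem (Classical.arbitrary K)
    exact (Nat.sub_add_cancel (List.length_pos_of_mem ha)).symm
  ε _ _ := rfl

/-- relabelling of ordered partitions -/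
def coxP (K : Type) [Fintype K] [DecidableEq K] : Equiv.Perm K →* Equiv.Perm (coxSh K).ι :=
  MonoidHom.toHomPerm
    { toFun := fun w u => ⟨u.1.map (pre ⇑w⁻¹), u.2.pre w⁻¹.surjective⟩
      map_one' := funext fun u => Subtype.ext
        ((List.map_congr_left fun b _ => Finset.ext fun i => by simp).trans (List.map_id' u.1))
      map_mul' := fun w w' => funext fun u => Subtype.ext
        ((List.map_congr_left fun b _ => Finset.ext fun i => by simp).trans
          (List.map_map (g := pre ⇑w⁻¹) (f := pre ⇑w'⁻¹) (l := u.1)).symm) }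

theorem coxP_val (w : Equiv.Perm K) (u : (coxSh K).ι) :
    (coxP K w u).1 = u.1.map (pre ⇑w⁻¹) := rfl

/-- the orderings -/
def coxT {k : ℕ} (σ : Equiv.Perm (Fin k)) : (coxSh (Fin k)).ι :=
  ⟨topL (Equiv.refl _) σ, part_iff.2 (topL_OPs _ σ)⟩

theorem coxT_val {k : ℕ} (σ : Equiv.Perm (Fin k)) :
    (coxT σ).1 = List.ofFn fun i => {σ i} := rfl

theorem yhc2_coxP_T {k : ℕ} (w σ : Equiv.Perm (Fin k)) :
    coxP (Fin k) w (coxT σ) = coxT (w * σ) := by
  refine Subtype.ext ?_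
  rw [coxP_val, coxT_val, coxT_val, List.map_ofFn]
  refine congrArg List.ofFn (funext fun i => Finset.ext fun a => ?_)
  rw [Function.comp_apply, mem_pre, Finset.mem_singleton, Finset.mem_singleton,
    Equiv.Perm.inv_eq_iff_eq, Equiv.Perm.mul_apply]

theorem yhc2_coxP_ε (w : Equiv.Perm K) (u v : (coxSh K).ι) :
    (coxSh K).ε (coxP K w u) (coxP K w v) = (coxSh K).ε u v := by
  have hi : Function.Injective (pre ⇑w⁻¹ : Finset K → Finset K) := fun a b e =>
    Finset.ext fun i => by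
      have := congrArg (w i ∈ ·) e
      simpa using this
  refine (cob_map (pre ⇑w⁻¹) (pre_union _) u.1 _).trans (congrArg (cob u.1) (funext fun x => ?_))
  exact if_congr (List.map_injective_iff.2 hi).eq_iff rfl rfl

/-- the action on the constant diagram -/
def TA.cox (A : TA Γ F) (ph : Γ →* Equiv.Perm K) : Dg.Act (Dg.cst (coxSh K) F) Γ where
  a := (coxP K).comp ph
  s _ _ := 1
  t g _ _ _ := A.t g
  deg _ _ := congrArg (· - 1) (List.length_map _)
  ε g u v := (one_mul _).trans ((yhc2_coxP_ε (ph g) u v).trans (mul_one _).symm)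
  s_mul _ _ _ := (one_mul 1).symm
  t_one _ := A.one
  t_mul g g' _ _ _ _ _ _ := A.mul g g'
  t_mp _ _ _ _ _ _ _ _ _ _ := rfl

theorem TA.cox_qi [Fintype Γ] {k : ℕ} (hk : 0 < k) (A : TA Γ F) (ph : Γ →* Equiv.Perm (Fin k)) :
    ((A.cox ph).bc (A.cox ph).inv_top (A.cox ph).inv_bot).cx.Mor
      (A.act (Equiv.Perm.sign.comp ph)).inv (coxL coxT (AS F)) (-((k - 1 : ℕ) : ℤ)) ∧
    ((A.cox ph).bc (A.cox ph).inv_top (A.cox ph).inv_bot).cx.QIa
      (A.act (Equiv.Perm.sign.comp ph)).inv (coxL coxT (AS F)) (-((k - 1 : ℕ) : ℤ)) := by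
  have : Nonempty (Fin k) := ⟨⟨0, hk⟩⟩
  obtain ⟨m, q⟩ := IsCox.qi (Equiv.refl (Fin k)) coxSh_isCox (t := coxT) (fun _ => rfl)
    (univ : Set F) ∅
  rw [show ((1 : ℕ) : ℤ) - k = -((k - 1 : ℕ) : ℤ) by omega] at m q
  have e : ∀ g (x : (coxSh (Fin k)).ι → AS F), coxL coxT (AS F) ((A.cox ph).r g x) =
      A.r (Equiv.Perm.sign.comp ph) g (coxL coxT (AS F) x) := fun g x => by
    refine (coxL_apply _ _).trans (Eq.trans ?_ (congrArg (A.r _ g) (coxL_apply _ _)).symm)
    rw [A.r_apply, map_sum, Finset.smul_sum]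
    refine Fintype.sum_equiv (Equiv.mulLeft (ph g⁻¹)) _ _ fun σ => ?_
    have h1 : ((A.cox ph).r g x (coxT σ) : AS F) =
        (((1 : ℤˣ) : ℤ) : ℂ) • AS.pull (A.t g⁻¹) (x (coxT (ph g⁻¹ * σ))) :=
      (A.cox ph).r_apply g x (yhc2_coxP_T (ph g⁻¹) σ)
    rw [h1, Equiv.coe_mulLeft, map_smul, smul_smul, smul_smul, ← Int.cast_mul, ← Int.cast_mul,
      ← Units.val_mul, ← Units.val_mul, mul_one, MonoidHom.comp_apply, ← map_mul, map_inv,
      mul_inv_cancel_left]
  rw [Bc.Act.inv_cx]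
  exact ⟨Cx.Act.mor_inv _ _ m e, fun n => Cx.Act.qi_inv _ _ m e (q n)⟩

theorem yhc2_mor {β : Type} [Fintype β] (ν : β → C(F', F)) :
    (CC F).Mor (CC F') (∑ b, AS.pl (ν b)) 0 :=
  Cx.Mor.sum _ fun b _ => mor_pl (ν b) (mapsTo_univ _ _) (mapsTo_empty _ _)

/-- maps that preserve generators of the cohomology rings -/
theorem sum_pl_qi {β : Type} [Fintype β] [Nonempty β] (ν : β → C(F', F)) (y : K → HE F)
    (y' : K → HE F') (hy : ∀ a, (y a).1 ∈ hr F 2) (hν : ∀ b a, HE.pull (ν b) (y a) = y' a)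
    (h1 : Function.Surjective (ev y)) (h2 : Function.Surjective (ev y')) {n : ℕ}
    (h3 : ∀ p ≤ n, ∀ φ : MvPolynomial K ℂ, φ.IsHomogeneous p → ev y' φ = 0 → φ = 0) :
    (CC F).Mor (CC F') (∑ b, AS.pl (ν b)) 0 ∧ (CC F).QI (CC F') (∑ b, AS.pl (ν b)) 0 n := by
  obtain ⟨b₀⟩ := ‹Nonempty β›
  have h4 : ∀ b φ, HR.pull (ν b) (ev y φ) = ev y' φ := fun b φ => by
    rw [pull_ev, funext (hν b)]
  have h5 : (Fintype.card β : ℂ) ≠ 0 := Nat.cast_ne_zero.2 Fintype.card_ne_zero
  have h6 : ∀ k, ∀ x ∈ (CC F).Z k, ((Fintype.card β : ℂ) • AS.pl (ν b₀)) x -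
      (∑ b, AS.pl (ν b)) x ∈ (CC F').B (k + 0) := fun k x hx => by
    obtain ⟨φ, e⟩ := h1 (cl x)
    have h7 : ∀ b, cl (AS.pull (ν b) x) = ev y' φ := fun b => by
      rw [← pull_cl _ (Z_Zc hx), ← e, h4]
    rw [add_zero, LinearMap.sum_apply]
    refine (cl_eq (Submodule.smul_mem _ _ (pull_mem_Z (ν b₀) hx))
      (Submodule.sum_mem _ fun b _ => pull_mem_Z (ν b) hx)).1 ?_
    rw [cl_smul, cl_sum _ fun b _ => Z_Zc (pull_mem_Z (ν b) hx), h7,
      Finset.sum_congr rfl fun b _ => h7 b, Finset.sum_const, Finset.card_univ,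
      Nat.cast_smul_eq_nsmul]
  refine ⟨yhc2_mor ν, fun k hk => Cx.Inj.congr (h6 k) (Cx.Inj.smul ?_ h5),
    fun k _ => Cx.Sur.congr (h6 k) (Cx.Sur.smul ?_ h5)⟩
  · refine (inj_pl_iff _ k).2 fun c hc e => ?_
    rcases lt_or_ge k 0 with h0 | h0
    · rwa [hr_neg h0] at hc
    lift k to ℕ using h0
    obtain ⟨φ, rfl⟩ := h1 c
    rw [mem_hr_nat] at hc
    rcases Nat.even_or_odd' k with ⟨p, rfl | rfl⟩
    · rw [hp_ev hy] at hc
      rw [← hc, h4] at e
      rw [← hc, h3 p (by omega) _ (MvPolynomial.homogeneousComponent_isHomogeneous p φ) e, map_zero]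
    · exact hc.symm.trans (ev_mem_HE y φ _ ⟨p, rfl⟩)
  · refine (sur_pl_iff _ k).2 fun c hc => ?_
    rcases lt_or_ge k 0 with h0 | h0
    · rw [hr_neg h0] at hc
      exact ⟨0, zero_mem _, (map_zero _).trans hc.symm⟩
    lift k to ℕ using h0
    obtain ⟨φ, rfl⟩ := h2 c
    exact ⟨_, hp_mem k (ev y φ), by rw [← hp_pull, h4, mem_hr_nat.1 hc]⟩

/-- the same on invariants -/
theorem sum_pl_inv [Fintype Γ] {β : Type} [Fintype β] (ν : β → C(F', F)) (A : TA Γ F)
    (A' : TA Γ F') (χ : Γ →* ℤˣ) (h : ∀ g, ∃ e : β ≃ β, ∀ b x, A.t g (ν b x) = ν (e b) (A'.t g x))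
    {n : ℤ} (q : (CC F).QI (CC F') (∑ b, AS.pl (ν b)) 0 n) :
    (A.act χ).inv.Mor (A'.act χ).inv (∑ b, AS.pl (ν b)) 0 ∧
      (A.act χ).inv.QI (A'.act χ).inv (∑ b, AS.pl (ν b)) 0 n := by
  have e : ∀ g x, (∑ b, AS.pl (ν b)) (A.r χ g x) = A'.r χ g ((∑ b, AS.pl (ν b)) x) := fun g x => by
    obtain ⟨e, he⟩ := h g⁻¹
    rw [A.r_apply, A'.r_apply, map_smul, LinearMap.sum_apply, LinearMap.sum_apply, map_sum]
    refine congrArg (_ • ·) (Fintype.sum_equiv e _ _ fun b => ?_)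
    exact (AS.pull_pull _ _ x).trans ((congrArg (AS.pull · x) (funext (he b))).trans
      (AS.pull_pull (A'.t g⁻¹) (ν (e b)) x).symm)
  exact ⟨Cx.Act.mor_inv _ _ (yhc2_mor ν) e, Cx.Act.qi_inv _ _ (yhc2_mor ν) e q⟩

/-- the shape with one column -/
def Sh.one (ι : Type) [Fintype ι] (p : ℕ) : Sh where
  ι := ι
  deg _ := p
  rel _ _ := False
  ε _ _ := 0
  sup _ _ h := absurd rfl h
  trans h _ := h
  εε _ _ := by simp

namespace Dg
variable {ι : Type} [Fintype ι] {p : ℕ} {P : Dg (Sh.one ι p)} {K A : P.Fam} {c : P.T} {n : ℤ}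

theorem one_d (c : P.T) (i : (Sh.one ι p).ι) : (bc K A).cx.d c i = AS.d (c i) := by
  rw [cx_d, HT.BG.D_apply, Pi.add_apply, Sys.bg_d, Sys.bg_δ, mat_eq_zero fun _ r _ => r.elim,
    map_zero, add_zero]
  rfl

theorem one_mem_G : c ∈ (bc K A).cx.G n ↔ ∀ i, c i ∈ (CP (K.A i) (A.A i)).G (n - p) := mem_cx_G

theorem one_mem_Z : c ∈ (bc K A).cx.Z n ↔ ∀ i, c i ∈ (CP (K.A i) (A.A i)).Z (n - p) := by
  rw [Cx.mem_Z, one_mem_G]
  simp only [Cx.mem_Z, forall_and]
  refine and_congr Iff.rfl ((mem_N (A := A)).trans (forall_congr' fun i => ?_))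
  rw [one_d]
  rfl

theorem one_mem_B : c ∈ (bc K A).cx.B n ↔ ∀ i, c i ∈ (CP (K.A i) (A.A i)).B (n - p) := by
  have e : n - 1 - p = n - p - 1 := by ring
  simp only [Cx.mem_B, one_mem_G, e]
  constructor
  · rintro ⟨b, hb, h⟩ i
    exact ⟨b i, hb i, one_d (K := K) (A := A) b i ▸ (mem_N (A := A)).1 h i⟩
  · intro h
    choose b hb h using h
    refine ⟨b, hb, (mem_N (A := A)).2 fun i => ?_⟩
    rw [Pi.sub_apply, one_d]
    exact h i

theorem one_mor (l : (Sh.one ι p).ι) (ξ : C(F, P.X l)) (h : ∀ x, ξ x ∈ K.A l) :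
    (bc K ⊥).cx.Mor (CC F) (AS.pl ξ ∘ₗ LinearMap.proj (φ := fun i => AS (P.X i)) l) (-p) := by
  have m : MapsTo ξ univ (K.A l) := fun x _ => h x
  refine ⟨fun n x hx => Cx.Gcast ((mor_pl ξ m (mapsTo_empty _ _)).fG _ _ (one_mem_G.1 hx l))
    (by ring), fun _ x _ hx => zz_pl m ((mem_N (A := ⊥)).1 hx l), fun _ x _ => ?_⟩
  refine Cx.meq (Submodule.zero_mem _) (sub_eq_zero.2 ?_).symm
  exact (congrArg (AS.pull ξ) (one_d x l)).trans (AS.pull_d ξ _)

end Dg

end Pool.Agent.CS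
end
end

-- part Pool.Agent.P.MP_d34769_ag.YHC5
section

/-! The one-column diagram of products of `k` spaces of framed representations. -/

open Set

set_option linter.unusedSectionVars false

noncomputable section
namespace Pool.Agent.CS
open Pool.Agent.P.MP_d34769_ag

variable {I : Type} [Fintype I] [DecidableEq I] {col : I → Fin 3} {th : Fin 3 → ℤ} {k m : ℕ}

variable (col th k) in
/-- ordered partitions into `k` nonempty slots of weight zero -/
def Sl : Type :=
  {s : I → Fin k // Function.Surjective s ∧ ∀ a, ∑ j with s j = a, th (col j) = 0}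

instance : Fintype (Sl col th k) := by
  unfold Sl
  exact Fintype.ofFinite _

theorem flatten_sing {α : Type} (l : List α) : (l.map fun b => [b]).flatten = l := by
  induction l with
  | nil => rfl
  | cons a l ih => simp only [List.map_cons, List.flatten_cons, ih, List.singleton_append]

/-- the list of one-letter words of a slot function -/
def Sl.wx (s : Sl col th k) : Wx col th k :=
  ⟨(fib s.1).map fun b => [b],
    ⟨by rw [flatten_sing]; exact fib_part s.2.1,
      fun u hu => by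
        obtain ⟨b, -, rfl⟩ := List.mem_map.1 hu
        exact List.cons_ne_nil _ _,
      fun b hb => by
        rw [flatten_sing] at hb
        obtain ⟨a, rfl⟩ := List.mem_ofFn.1 hb
        exact s.2.2 a⟩,
    by simp [fib]⟩

theorem Sl.wx_val (s : Sl col th k) : s.wx.1 = (fib s.1).map fun b => [b] := rfl

theorem Sl.flatten (s : Sl col th k) : s.wx.1.flatten = fib s.1 := flatten_sing _

theorem Sl.deg (s : Sl col th k) : (shT col th k).deg s.wx = k - 1 := by
  change s.wx.1.flatten.length - 1 = _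
  rw [s.flatten, fib, List.length_ofFn]

theorem Sl.ordM (s : Sl col th k) {i j : I} : OrdM s.wx.1 i j ↔ s.1 i = s.1 j := by
  constructor
  · rintro ⟨u, hu, e⟩
    obtain ⟨b, hb, rfl⟩ := List.mem_map.1 hu
    obtain ⟨a, rfl⟩ := List.mem_ofFn.1 hb
    obtain ⟨⟨c, hc, hi⟩, d, hd, hj⟩ := e.mem
    rw [List.mem_singleton] at hc hd
    subst hc hd
    exact (Finset.mem_filter.1 hi).2.trans (Finset.mem_filter.1 hj).2.symm
  · intro e
    refine ⟨[Finset.univ.filter fun x => s.1 x = s.1 j],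
      List.mem_map.2 ⟨_, List.mem_ofFn.2 ⟨s.1 j, rfl⟩, rfl⟩, _, _, ?_, ?_,
      Or.inl ⟨rfl, List.mem_singleton.2 rfl⟩⟩ <;> simp [e]

theorem Sl.gl_iff (s : Sl col th k) {i j : I} : (s.wx.dat m).gl i j ↔ s.1 i = s.1 j := s.ordM

theorem Sl.rl_iff (s : Sl col th k) {i j : I} : (s.wx.dat m).rl i j ↔ s.1 i = s.1 j := s.ordM

theorem Sl.cp_iff (s : Sl col th k) {i j : I} : (s.wx.dat m).cp i j ↔ s.1 i = s.1 j := by
  refine ⟨?_, fun e => (s.wx.dat m).rl_cp (s.rl_iff.2 e)⟩
  rintro ⟨u, hu, c, hc, d, hd, hi, hj⟩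
  obtain ⟨b, hb, rfl⟩ := List.mem_map.1 hu
  obtain ⟨a, rfl⟩ := List.mem_ofFn.1 hb
  rw [List.mem_singleton] at hc hd
  subst hc hd
  exact (Finset.mem_filter.1 hi).2.trans (Finset.mem_filter.1 hj).2.symm

theorem yhc5_slot : ∀ {k : ℕ} (f : Fin k → Finset I) (i : I) (a : Fin k),
    (∀ b, i ∈ f b ↔ b = a) → slot ((List.ofFn f).map fun b => [b]) i = a
  | 0, _, _, a, _ => a.elim0
  | k + 1, f, i, a, h => by
    have e : Has [f 0] i ↔ 0 = a := by
      rw [← h]
      exact ⟨fun ⟨b, hb, hi⟩ => List.mem_singleton.1 hb ▸ hi,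
        fun hi => ⟨_, List.mem_singleton.2 rfl, hi⟩⟩
    rw [List.ofFn_succ, List.map_cons, slot, e]
    induction a using Fin.cases with
    | zero => exact if_pos rfl
    | succ a =>
      rw [if_neg (Fin.succ_ne_zero a).symm,
        yhc5_slot (fun b => f b.succ) i a fun b => (h _).trans Fin.succ_inj, Fin.val_succ]

theorem Sl.slot (s : Sl col th k) (i : I) : slot s.wx.1 i = s.1 i :=
  yhc5_slot _ i _ fun _ => (Finset.mem_filter_univ i).trans eq_comm

theorem Sl.wx_inj : Function.Injective (Sl.wx : Sl col th k → Wx col th k) := fun s s' e =>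
  Subtype.ext (funext fun i => Fin.ext (by rw [← s.slot, ← s'.slot, e]))

theorem yhc5_len {α : Type} : ∀ L : List (List α), (∀ u ∈ L, u ≠ []) → L.length ≤ L.flatten.length
  | [], _ => Nat.zero_le _
  | u :: L, h => by
    have h1 := yhc5_len L fun v hv => h v (List.mem_cons_of_mem _ hv)
    have h2 := List.length_pos_iff.2 (h u List.mem_cons_self)
    rw [List.flatten_cons, List.length_append, List.length_cons]
    omega

theorem yhc5_sing {α : Type} : ∀ L : List (List α), (∀ u ∈ L, u ≠ []) →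
    L.flatten.length ≤ L.length → (L.flatten.map fun b => [b]) = L
  | [], _, _ => rfl
  | u :: L, h, e => by
    have h0 := fun v hv => h v (List.mem_cons_of_mem _ hv)
    have h1 := yhc5_len L h0
    have h2 := List.length_pos_iff.2 (h u List.mem_cons_self)
    rw [List.flatten_cons, List.length_append, List.length_cons] at e
    obtain ⟨b, rfl⟩ := List.length_eq_one_iff.1 (show u.length = 1 by omega)
    rw [List.flatten_cons, List.singleton_append, List.map_cons, yhc5_sing L h0 (by omega)]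

/-- the indices of the lowest degree are the slot functions -/
theorem Wx.exists_sl (L : Wx col th k) (h : L.1.flatten.length ≤ k) :
    ∃ s : Sl col th k, s.wx = L := by
  obtain ⟨L, hL, rfl⟩ := L
  have h1 := yhc5_sing L hL.ne h
  have h2 : L.flatten.length = L.length := le_antisymm h (yhc5_len L hL.ne)
  have key : ∀ {n : ℕ}, L.flatten.length = n →
      ∃ s : I → Fin n, Function.Surjective s ∧ fib s = L.flatten := by
    rintro _ rfl
    obtain ⟨s, hs, e, -⟩ := hL.part.exists_fib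
    exact ⟨s, hs, e⟩
  obtain ⟨s, hs, e⟩ := key h2
  refine ⟨⟨s, hs, fun a => hL.bal _ ?_⟩, Subtype.ext ?_⟩
  · rw [← e]
    exact List.mem_ofFn.2 ⟨a, rfl⟩
  · exact (congrArg (List.map fun b => [b]) e).trans h1

theorem Sl.toSlot (s : Sl col th k) {D : Dat I} (hc : D.col = col) (ht : D.th = th) :
    D.Slot s.1 := ⟨s.2.1, by rw [hc, ht]; exact s.2.2⟩

variable (col k) in
/-- relabelling of the basis and of the slots -/
abbrev Gm : Type := Wc col × Equiv.Perm (Fin k)

variable (col th k) in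
/-- the action on slot functions -/
def actS : Gm col k →* Equiv.Perm (Sl col th k) :=
  MonoidHom.toHomPerm
    { toFun := fun g s => ⟨fun i => g.2 (s.1 (g.1.1⁻¹ i)),
        g.2.surjective.comp (s.2.1.comp g.1.1⁻¹.surjective), fun a => by
          refine Eq.trans (Finset.sum_equiv g.1.1⁻¹ (fun i => ?_)
            fun i _ => congrArg th ((g.1⁻¹).2 i).symm) (s.2.2 (g.2⁻¹ a))
          simp only [Finset.mem_filter, Finset.mem_univ, true_and]
          exact (Equiv.eq_symm_apply g.2).symm⟩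
      map_one' := funext fun _ => Subtype.ext rfl
      map_mul' := fun _ _ => funext fun _ => Subtype.ext rfl }

theorem actS_val (g : Gm col k) (s : Sl col th k) (i : I) :
    (actS col th k g s).1 i = g.2 (s.1 (g.1.1⁻¹ i)) := rfl

theorem actS_eq {g : Gm col k} {s s' : Sl col th k} (e : actS col th k g s = s') (i : I) :
    s'.1 (g.1.1 i) = g.2 (s.1 i) := by
  rw [← e, actS_val]
  exact congrArg (fun x => g.2 (s.1 x)) (g.1.1.symm_apply_apply i)

theorem actS_iff {g : Gm col k} {s s' : Sl col th k} (e : actS col th k g s = s') {i j : I} :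
    s'.1 (g.1.1 i) = s'.1 (g.1.1 j) ↔ s.1 i = s.1 j := by
  rw [actS_eq e, actS_eq e, g.2.injective.eq_iff]

/-- the morphism of data along a relabelling -/
def morU (g : Gm col k) {s s' : Sl col th k} (e : actS col th k g s = s') (m : ℕ) :
    Dat.Mor (s.wx.dat m) (s'.wx.dat m) where
  w := g.1.1
  ι _ := Function.Embedding.refl _
  col := g.1.2
  th := rfl
  gp i j h := ⟨(g.1.2 i).trans (h.1.trans (g.1.2 j).symm),
    s'.gl_iff.2 ((actS_iff e).2 (s.gl_iff.1 h.2))⟩
  rl _ _ h := s'.rl_iff.2 ((actS_iff e).2 (s.rl_iff.1 h))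
  cp _ _ h := s'.cp_iff.2 ((actS_iff e).2 (s.cp_iff.1 h))
  ι_eq _ _ _ := rfl
  ι_ne _ _ h h' := absurd (s.cp_iff.2 ((actS_iff e).1 (s'.cp_iff.1 h'))) h

variable (col th k m) in
/-- the products of `k` spaces -/
def dgU : Dg (Sh.one (Sl col th k) (k - 1)) where
  X s := ((Sl.wx s).dat m).XS
  mp h := False.elim h
  comp h := False.elim h

variable (col th k m) in
/-- the action with the sign of the permutation of the slots -/
def actU : Dg.Act (dgU col th k m) (Gm col k) where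
  a := actS col th k
  s g _ := Equiv.Perm.sign g.2
  t g _ _ e := (morU g e m).mc
  deg _ _ := rfl
  ε _ _ _ := (mul_zero _).trans (zero_mul _).symm
  s_mul g g' _ := map_mul Equiv.Perm.sign g.2 g'.2
  t_one _ := mc_one _ (fun _ => rfl) fun _ _ => rfl
  t_mul _ _ _ _ _ _ _ _ := mc_tri _ _ _ (fun _ => rfl) fun _ _ => rfl
  t_mp _ _ _ _ _ h := False.elim h

theorem actU_t (g : Gm col k) {s s' : Sl col th k} (e : (actU col th k m).a g s = s') :
    (actU col th k m).t g e = (morU g e m).mc := rfl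

theorem mem_fixU {c : (dgU col th k m).T} : c ∈ Fix (actU col th k m).r ↔
    ∀ g {s s' : Sl col th k} (e : actS col th k g s = s'),
      c s = ((Equiv.Perm.sign g.2 : ℤ) : ℂ) • AS.pull (morU g e m).mc (c s') := Dg.Act.mem_fix _

variable (h0 : Adm col th [[Finset.univ]])

variable (k m) in
/-- the points with a filtration with `a` steps -/
def NU (a : ℕ) : (dgU col th k m).Fam where
  A s := {x | ∃ p hp, Dat.pt (D := (Sl.wx s).dat m) p hp = x ∧ ((top h0).dat m).N a p.1}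
  mp h := False.elim h

theorem yhc5_P {g : Matrix I I ℂ} (h : ∀ i j, col i ≠ col j → g i j = 0) (hu : IsUnit g.det) :
    g ∈ ((top h0).dat m).base.P :=
  ⟨fun i j e => h i j fun c => e ⟨c, [Finset.univ], List.mem_singleton.2 rfl, Finset.univ,
    List.mem_singleton.2 rfl, Finset.univ, List.mem_singleton.2 rfl, Finset.mem_univ i,
    Finset.mem_univ j⟩, hu⟩

theorem mem_NU {a : ℕ} {s : Sl col th k} {p : Pt I m} (hp : (s.wx.dat m).St p) :
    Dat.pt p hp ∈ (NU k m h0 a).A s ↔ ((top h0).dat m).N a p.1 := by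
  refine ⟨?_, fun h => ⟨p, hp, rfl, h⟩⟩
  rintro ⟨q, hq, e, h⟩
  obtain ⟨g, hg, rfl⟩ := (Dat.pt_eq_iff hq hp).1 e
  exact Dat.Iso.n ⟨g, yhc5_P h0 (fun i j c => hg.1 i j fun d => c d.1) hg.2, rfl⟩ h

theorem NU_cl (a : ℕ) : (NU k m h0 a).Cl := fun s => by
  obtain ⟨K, hK, hs, e⟩ := (s.wx.dat m).exists_cpt
  have h1 : IsCompact (K ∩ Prod.fst ⁻¹' {ρ | ((top h0).dat m).N a ρ}) :=
    hK.inter_right ((Dat.isClosed_n a).preimage continuous_fst)
  have h2 := (h1.image_of_continuousOn fun p hp =>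
    (Dat.pt0_cont (hs p hp.1)).continuousWithinAt).isClosed.preimage
      (continuous_subtype_val (p := (· ∈ (s.wx.dat m).XS)))
  refine (congrArg IsClosed (Set.ext fun x => ⟨fun hx => ?_, ?_⟩)).mpr h2
  · obtain ⟨q, hq, h⟩ := e.ge x.2
    have : Dat.pt q (hs q hq) = x := Subtype.ext h
    exact ⟨q, ⟨hq, (mem_NU h0 (hs q hq)).1 (this ▸ hx)⟩, h⟩
  · rintro ⟨q, hq, h⟩
    exact ⟨q, hs q hq.1, Subtype.ext h, hq.2⟩

open Matrix in
theorem NU_inv (a : ℕ) : (actU col th k m).Inv (NU k m h0 a) := by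
  rintro g s s' e _ ⟨p, hp, rfl, h⟩
  have h1 : (1 : Matrix I I ℂ).submatrix id g.1.1 * (1 : Matrix I I ℂ).submatrix g.1.1 id = 1 := by
    rw [submatrix_mul_equiv, Matrix.mul_one, submatrix_id_id]
  refine ⟨_, (morU g e m).st hp, ((morU g e m).mc_pt hp _).symm, Dat.Iso.n
    ⟨(1 : Matrix I I ℂ).submatrix id g.1.1, yhc5_P h0 (fun i j c => ?_)
      (isUnit_det_of_right_inverse h1), funext fun b => ?_⟩ h⟩
  · exact one_apply_ne fun d : i = g.1.1 j => c (d ▸ g.1.2 j)
  · change _ * p.1 b * _ = _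
    rw [inv_eq_right_inv h1, one_submatrix_mul, mul_submatrix_one]
    rfl

theorem NU_top : NU k m h0 k = ⊤ :=
  Dg.Fam.ext (funext fun s => eq_univ_of_forall fun x => by
    obtain ⟨p, hp, rfl⟩ := Dat.exists_pt (D := s.wx.dat m) x
    refine ⟨p, hp, rfl, s.1, s.toSlot rfl rfl, 1, Dat.one_mem_P _, ?_⟩
    rw [actR_one]
    exact fun a i j hn => hp.mem a i j fun h => hn (s.rl_iff.1 h.2.2).le)

variable (k m) in
/-- invariant cochains that vanish near the points with a longer filtration -/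
abbrev bcU : Bc (dgU col th k m).T :=
  (actU col th k m).bc (actU col th k m).inv_top (NU_inv h0 (k + 1))

end Pool.Agent.CS
end
end

-- part Pool.Agent.P.MP_d34769_ag.YHD2
section

/-! The points that come from longer lists are those with a longer filtration. -/

open Set

noncomputable section
namespace Pool.Agent.CS

variable {I : Type} [Fintype I] [DecidableEq I] {col : I → Fin 3} {th : Fin 3 → ℤ} {k m : ℕ}

theorem yhd2_F {L K : Wx col th k} (h : RS id L.1 K.1) (p : Pt I m) : (relMor h m).F p = p :=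
  (relMor h m).ye2_ext p (fun _ _ _ => rfl) (fun _ _ => rfl) fun _ r e => absurd rfl (e r)

theorem yhd2_mc {L K : Wx col th k} (h : RS id L.1 K.1) {p : Pt I m} (hp : (L.dat m).St p)
    (hq : (K.dat m).St p) : (relMor h m).mc (Dat.pt p hp) = Dat.pt p hq :=
  (Dat.Mor.mc_pt _ hp ((relMor h m).st hp)).trans
    (Subtype.ext (congrArg (K.dat m).pt0 (yhd2_F h p)))

theorem yhd2_split {A B : List (List (Finset I))} {b F : Finset I}
    (h : Adm col th (A ++ [b] :: B)) (hF : F ⊆ b) (h0 : F.Nonempty) (h1 : F ≠ b)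
    (hw : ∑ j ∈ F, th (col j) = 0) : Adm col th (A ++ [F, b \ F] :: B) := by
  have hb := h.bal b (by simp)
  have m1 : ∀ c ∈ (A ++ [F, b \ F] :: B).flatten,
      c = F ∨ c = b \ F ∨ c ∈ (A ++ [b] :: B).flatten := fun c hc => by
    simp only [List.flatten_append, List.flatten_cons, List.mem_append, List.mem_cons,
      List.not_mem_nil, or_false] at hc ⊢
    tauto
  refine ⟨⟨fun c hc => ?_, ?_⟩, fun u hu => ?_, fun c hc => ?_⟩
  · rcases m1 c hc with rfl | rfl | e
    exacts [h0, Finset.sdiff_nonempty.2 fun e => h1 (hF.antisymm e), h.part.1 c e]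
  · have : F.val + (b \ F).val = b.val := by
      rw [Finset.sdiff_val, add_tsub_cancel_of_le (Finset.val_le_iff.2 hF)]
    rw [← h.part.2]
    simp only [List.flatten_append, List.flatten_cons, List.map_append, List.sum_append,
      List.map_cons, List.sum_cons, List.map_nil, List.sum_nil, add_zero, this]
  · rcases List.mem_append.1 hu with e | e
    · exact h.ne u (List.mem_append_left _ e)
    · rcases List.mem_cons.1 e with rfl | e
      exacts [List.cons_ne_nil _ _, h.ne u (List.mem_append_right _ (List.mem_cons_of_mem _ e))]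
  · rcases m1 c hc with rfl | rfl | e
    exacts [hw, by rw [← Finset.sum_sdiff hF, hw, add_zero] at hb; exact hb, h.bal c e]

theorem yhd2_up (s : Sl col th k) {p : Pt I m} (hp : (s.wx.dat m).St p) {a : Fin k}
    (ha : ¬ (s.wx.dat m).StbOn p.1 {i | s.1 i = a}) :
    ∃ (K : Wx col th k) (h : RS id K.1 s.wx.1), k < K.1.flatten.length ∧
      ∃ y, (relMor h m).mc y = Dat.pt p hp := by
  simp only [Dat.StbOn, not_and, not_forall, not_lt] at ha
  obtain ⟨U, hU, h1, h2, h3, h4⟩ := ha (s.2.1 a)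
  obtain ⟨g, hg, hc, F, rfl⟩ := e4_sub (s.wx.dat m).e4_cc hU.gr
  have hu := e4_unit_det hg
  have gb : g ∈ (s.wx.dat m).base.P := (Dat.e4_memG _).2 ⟨hc, hu⟩
  have gP : g ∈ (s.wx.dat m).P := (Dat.e4_memP _).2
    ⟨fun i j e => ⟨(hc i j e).1, s.gl_iff.2 (s.cp_iff.1 (hc i j e).2)⟩, hu⟩
  have e1 : (sp {i | s.1 i = a}).map g.mulVecLin = sp {i | s.1 i = a} :=
    Submodule.eq_of_le_of_finrank_eq (map_sp_le.2 fun i j hi hj => by_contra fun e =>
      hi ((s.cp_iff.1 (hc i j e).2).trans hj)) (e4_finrank_map hu _)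
  obtain ⟨b, hb⟩ : ∃ b : Finset I, b = Finset.univ.filter fun i => s.1 i = a := ⟨_, rfl⟩
  have eb : (b : Set I) = {i | s.1 i = a} := by rw [hb]; ext i; simp
  have hF : F ⊆ b := Finset.coe_subset.1 (eb ▸ e4_map_inj hu (h1.trans e1.ge))
  obtain ⟨A, B, e2⟩ := List.append_of_mem (a := [b]) (l := s.wx.1)
    (List.mem_map.2 ⟨b, List.mem_ofFn.2 ⟨a, hb.symm⟩, rfl⟩)
  have hK := yhd2_split (e2 ▸ s.wx.2.1) hF
    (Finset.nonempty_iff_ne_empty.2 fun e => h2 (by simp [e]))
    (fun e => h3 (by rw [e, eb, e1]))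
    (((s.wx.dat m).e6_wt_sp th F).symm.trans (((s.wx.dat m).e6_wt_map th gb _).symm.trans
      (le_antisymm (hp.ss _ hU) h4)))
  have f : FcM (A ++ [F, b \ F] :: B) s.wx.1 :=
    ⟨A, _, _, B, rfl, e2, [], F, b \ F, [], rfl, by rw [Finset.union_sdiff_of_subset hF]; rfl⟩
  have hq := hp.act (Dat.inv_mem_P gP)
  have z : ∀ c i j, i ∉ F → j ∈ F → (act g⁻¹ p).1 c i j = 0 := fun c =>
    map_sp_le.1 (by
      rintro _ ⟨v, hv, rfl⟩
      exact ((Dat.sub_act gb).1 ((actR_inv' hu p.1).symm ▸ hU)).st c v hv)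
  let K : Wx col th k := ⟨_, hK, (hK.fcM f).2.symm.trans s.wx.2.2⟩
  have hs : ∀ {U}, (K.dat m).Sub (act g⁻¹ p).1 U → (s.wx.dat m).Sub (act g⁻¹ p).1 U :=
    Dat.ye2_sub_mono (D := K.dat m) (E := s.wx.dat m) rfl (relMor (L := K) f.rs m).cp
  have hy : (K.dat m).St (act g⁻¹ p) := by
    refine ⟨fun c i j n => by_contra fun e => n ?_, fun U hU => hq.ss U (hs hU),
      fun U hU => hq.gen U (hs hU)⟩
    obtain ⟨c1, c2, u, hu, o⟩ : (s.wx.dat m).ap c i j := by_contra fun n => e (hq.mem c i j n)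
    refine ⟨c1, c2, ?_⟩
    rw [e2] at hu
    rcases List.mem_append.1 hu with hu | hu
    · exact ⟨u, List.mem_append_left _ hu, o⟩
    rcases List.mem_cons.1 hu with rfl | hu
    · refine ⟨_, List.mem_append_right _ List.mem_cons_self, ?_⟩
      have := o.mem
      simp only [List.mem_singleton, exists_eq_left] at this
      simp only [ord_cons, List.mem_singleton, exists_eq_left, Finset.mem_sdiff, this, true_and]
      have := z c i j
      tauto
    · exact ⟨u, List.mem_append_right _ (List.mem_cons_of_mem _ hu), o⟩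
  refine ⟨K, f.rs, ?_, _, (yhd2_mc f.rs hy hq).trans
    ((Dat.pt_eq_iff hq hp).2 ⟨g, gP, (act_inv' hu p).symm⟩)⟩
  have := f.fc.length.1
  have := s.wx.le
  change k < (A ++ [F, b \ F] :: B).flatten.length
  omega

theorem pt_mem_BT (hk : 0 < k) (L : Wx col th k) {p : Pt I m} (hp : (L.dat m).St p) {E : Dat I}
    (hc : E.col = col) (ht : E.th = th) (h : ∀ i j, (L.dat m).cp i j → E.cp i j) :
    Dat.pt p hp ∈ (BT col th k m).A L ↔ E.N (k + 1) p.1 := by
  subst hc ht
  refine ⟨fun hx => ?_, fun hn => ?_⟩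
  · obtain ⟨K, r, l, y, e⟩ := (mem_BT hk).1 hx
    obtain ⟨q, hq, rfl⟩ := Dat.exists_pt y
    have hq' : (L.dat m).St q := yhd2_F r q ▸ (relMor r m).st hq
    obtain ⟨g, hg, rfl⟩ := (Dat.pt_eq_iff hq' hp).1 ((yhd2_mc r hq hq').symm.trans e)
    have hg' := (Dat.e4_memG _).1 ((L.dat m).P_le hg)
    refine Dat.Iso.n ⟨g, (Dat.e4_memG _).2 ⟨fun i j e => ⟨(hg'.1 i j e).1,
      h i j (hg'.1 i j e).2⟩, hg'.2⟩, rfl⟩ (Dat.N.anti (Dat.n_iff_list.2 ⟨K.1.flatten,
        ⟨K.2.1.part, K.2.1.bal⟩, rfl, 1, E.base.one_mem_P, ?_⟩) (by omega) l)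
    rw [actR_one]
    exact fun a i j n => hq.mem a i j fun ⟨_, _, u, hu, o⟩ =>
      n (o.sub (List.sublist_flatten_of_mem hu))
  · by_cases l : k < L.1.flatten.length
    · rw [BT_univ L l]
      trivial
    obtain ⟨s, rfl⟩ := L.exists_sl (not_lt.1 l)
    obtain ⟨a, ha⟩ := (Dat.n_succ_iff (s.toSlot rfl rfl)
      ((Dat.ss_congr (E := E) (D := s.wx.dat m) rfl h ((s.wx.dat m).R_le hp.mem)).2 hp.ss)
      fun a i j n => hp.mem a i j fun e => n (s.rl_iff.1 e.2.2)).1 hn
    exact (mem_BT hk).2 (yhd2_up s hp (mt (Dat.stbOn_congr (E := E) (D := s.wx.dat m) rfl rfl h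
      fun i hi j hj => s.cp_iff.2 (hi.trans hj.symm)).2 ha))

theorem NU_BT (hk : 0 < k) (h0 : Adm col th [[Finset.univ]]) (s : Sl col th k) :
    (NU k m h0 (k + 1)).A s = (BT col th k m).A s.wx := Set.ext fun x => by
  obtain ⟨p, hp, rfl⟩ := Dat.exists_pt x
  exact (mem_NU h0 hp).trans (pt_mem_BT hk s.wx hp (E := (top h0).dat m) rfl rfl
    fun _ _ _ => ⟨_, List.mem_singleton.2 rfl, _, List.mem_singleton.2 rfl, _,
      List.mem_singleton.2 rfl, Finset.mem_univ _, Finset.mem_univ _⟩).symm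

end Pool.Agent.CS
end
end
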