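import Pool.Agent.K.MP_d34769_ag.C88

/-! The space of orbits of a disconnected datum is a product. -/

open Matrix Filter Topology Set
open Pool.Agent.HT (Amb proj)
open Pool.Agent.HIR (Mf HolP)

set_option linter.unusedSectionVars false

noncomputable section
namespace Pool.Agent.CS

variable {I I' I'' J J' : Type} [Fintype I] [DecidableEq I] [Fintype I'] [DecidableEq I']
  [Fintype I''] [DecidableEq I''] [Fintype J] [DecidableEq J] [Fintype J'] [DecidableEq J']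

theorem f8_mul {α β : Type} {e : I' → I} (he : Function.Injective e) {A : Matrix α I ℂ}
    {B : Matrix I β ℂ} {γ δ : Type} {r : γ → α} {c : δ → β}
    (h : ∀ i j k, k ∉ range e → A (r i) k * B k (c j) = 0) :
    (A * B).submatrix r c = A.submatrix r e * B.submatrix e c := by
  ext i j
  exact (Fintype.sum_of_injective e he _ _ (h i j) fun _ => rfl).symm

theorem f8_blk {e : I' → I} {e'' : I'' → I} (he : Function.Injective e)
    (he'' : Function.Injective e'') (hc : ∀ i, i ∈ range e ∨ i ∈ range e'')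
    (hs : ∀ i j, e i ≠ e'' j) (A : Matrix I' I' ℂ) (B : Matrix I'' I'' ℂ) :
    ∃ C : Matrix I I ℂ, C.submatrix e e = A ∧ C.submatrix e'' e'' = B ∧
      (∀ i j, C (e i) (e'' j) = 0 ∧ C (e'' j) (e i) = 0) ∧ C.det = A.det * B.det := by
  let σ := Equiv.ofBijective (Sum.elim e e'') ⟨he.sumElim he'' hs, fun i =>
    (hc i).elim (fun ⟨j, k⟩ => ⟨.inl j, k⟩) fun ⟨j, k⟩ => ⟨.inr j, k⟩⟩
  have h1 : ∀ i, σ.symm (e i) = .inl i := fun i => σ.symm_apply_apply (.inl i)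
  have h2 : ∀ i, σ.symm (e'' i) = .inr i := fun i => σ.symm_apply_apply (.inr i)
  refine ⟨reindex σ σ (fromBlocks A 0 0 B), ?_, ?_, fun i j => ?_, ?_⟩
  · ext i j
    simp [h1]
  · ext i j
    simp [h2]
  · simp [h1, h2]
  · rw [det_reindex_self, det_fromBlocks_zero₂₁]

namespace Dat

/-- `D'` is the restriction of `D` to a union of components -/
structure Fac (D' : Dat I') (D : Dat I) (e : I' → I) : Prop extends Emb D' D e where
  cls : ∀ i j, D.cp (e i) j → j ∈ range e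
  th : D'.th = D.th
  m : D'.m = D.m
  rl : ∀ i j, D.rl (e i) (e j) ↔ D'.rl i j
  gp : ∀ i j, D.gp (e i) (e j) ↔ D'.gp i j

variable {D : Dat I} {D' : Dat I'} {D'' : Dat I''} {E : Dat J} {E' : Dat J'} {e : I' → I}
  {e'' : I'' → I} {u : J' → J} {p : Pt I D.m} {g : Matrix I I ℂ}

namespace Fac

/-- restriction of framed representations -/
def F (h : Fac D' D e) (p : Pt I D.m) : Pt I' D'.m := (resR e p.1, p.2.submatrix e (Fin.cast h.m))

theorem cp_iff (h : Fac D' D e) (i j : I) (k : D.cp i j) : i ∈ range e ↔ j ∈ range e :=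
  ⟨fun ⟨a, c⟩ => h.cls a j (c ▸ k), fun ⟨a, c⟩ => h.cls a i (c ▸ D.cp_eq.2 k)⟩

theorem st (h : Fac D' D e) (hp : D.St p) : D'.St (h.F p) := by
  have h0 : ∀ a i j, ¬ (i ∈ range e ↔ j ∈ range e) → p.1 a i j = 0 := fun a i j k =>
    ye2_R_cp (D.R_le hp.mem) a fun c => k (h.cp_iff i j c)
  refine st_iff.2 ⟨fun a i j c => hp.mem a _ _ fun k => c ?_, h.th ▸ (h.toEmb.ssOn_iff
    fun a i j k => h0 a i _ fun c => k (c.2 ⟨j, rfl⟩)).1 (hp.ss.on _), ?_⟩
  · simpa only [ap, h.col, h.rl] using k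
  · refine (ye2_gen_col (g := Fin.cast h.m) (finCongr h.m).surjective _).2
      ((h.toEmb.ye2_gen h.th h.cp_iff h0 hp.ss _).2 fun U a b => ?_)
    rw [(gen_iff hp.ss).1 hp.gen U a b]
    exact le_top

theorem off (h : Fac D' D e) (hg : g ∈ D.base.Lie) (i : I') {k : I} (hk : k ∉ range e) :
    g (e i) k = 0 ∧ g k (e i) = 0 :=
  ⟨hg _ _ fun c => hk (h.cls i k c.2), hg _ _ fun c => hk (h.cls i k (D.cp_eq.2 c.2))⟩

theorem mul_inv (h : Fac D' D e) (hg : g ∈ D.base.P) : g.submatrix e e * g⁻¹.submatrix e e = 1 := by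
  rw [← f8_mul h.inj fun i j k hk => by rw [(h.off hg.1 i hk).1, zero_mul], mul_nonsing_inv _ hg.2,
    submatrix_one _ h.inj]

theorem mem_P (h : Fac D' D e) (hg : g ∈ D.P) : g.submatrix e e ∈ D'.P :=
  ⟨fun i j c => hg.1 _ _ fun k => c ((h.gp i j).1 k),
    isUnit_det_of_right_inverse (h.mul_inv (D.P_le hg))⟩

theorem F_act (h : Fac D' D e) (hg : g ∈ D.base.P) (p : Pt I D.m) :
    h.F (act g p) = act (g.submatrix e e) (h.F p) := by
  refine Prod.ext (funext fun a => ?_)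
    (f8_mul h.inj fun i j k hk => by rw [(h.off hg.1 i hk).1, zero_mul])
  show (g * p.1 a * g⁻¹).submatrix e e = g.submatrix e e * (p.1 a).submatrix e e * _
  rw [f8_mul h.inj fun i j k hk => by rw [(h.off (D.base.inv_mem_Lie hg.1) j hk).2, mul_zero],
    f8_mul h.inj fun i j k hk => by rw [(h.off hg.1 i hk).1, zero_mul],
    inv_eq_right_inv (h.mul_inv hg)]

theorem pt0_act (h : Fac D' D e) (hg : g ∈ D.P) (p : Pt I D.m) :
    D'.pt0 (h.F (act g p)) = D'.pt0 (h.F p) := by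
  rw [h.F_act (D.P_le hg), Dat.pt0_act (h.mem_P hg)]

theorem F_poly (h : Fac D' D e) (t : Co I' D'.m) : IsPoly co fun p => co (h.F p) t := by
  rcases t with ⟨a, i, j⟩ | ⟨i, r⟩
  exacts [IsPoly.rho a (e i) (e j), IsPoly.fr (e i) (Fin.cast h.m r)]

/-- the projection to a factor -/
def mp (h : Fac D' D e) (x : Amb D.M) : Amb D'.M := D'.pt0 (h.F (D.sec x))

theorem mp_pt0 (h : Fac D' D e) (hp : D.St p) : h.mp (D.pt0 p) = D'.pt0 (h.F p) :=
  desc_eq (f := fun p => D'.pt0 (h.F p)) (fun p _ _ hg => h.pt0_act hg p) hp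

theorem mp_maps (h : Fac D' D e) : MapsTo h.mp D.XS D'.XS := fun _ hx => pt0_mem (h.st (sec_st hx))

theorem mp_hol (h : Fac D' D e) : HolP D.dim D.XS h.mp :=
  holP_desc (T := fun p => D'.Th (h.F p)) (fun k => (Th_poly k).comp h.F_poly)
    (fun _ hp => Th_ne (h.st hp)) fun p _ _ hg => h.pt0_act hg p

/-- the projection to a factor as a continuous map -/
def mc (h : Fac D' D e) : C(D.XS, D'.XS) :=
  ⟨fun x => ⟨h.mp x, h.mp_maps x.2⟩,
    (continuousOn_iff_continuous_restrict.1 (h.mp_hol.cont D.mf)).subtype_mk _⟩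

theorem mc_pt (h : Fac D' D e) (hp : D.St p) : h.mc (pt p hp) = pt (h.F p) (h.st hp) :=
  Subtype.ext (h.mp_pt0 hp)

theorem F_mor (h : Fac D' D e) (k : Fac E' E u) (f : Mor D E) (f' : Mor D' E')
    (hw : ∀ i, f.w (e i) = u (f'.w i))
    (hι : ∀ i r, (f.ι (e i) (Fin.cast h.m r)).1 = (f'.ι i r).1) (p : Pt I D.m) :
    k.F (f.F p) = f'.F (h.F p) := by
  refine (f'.ye2_ext _ (fun a i j => ?_) (fun i r => ?_) fun i r hr => ?_).symm
  · show (f.F p).1 a (u _) (u _) = _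
    rw [← hw, ← hw, f.F_fst]
    rfl
  · show (f.F p).2 (u _) (Fin.cast k.m _) = _
    rw [← hw, show Fin.cast k.m (f'.ι i r) = f.ι (e i) (Fin.cast h.m r) from Fin.ext (hι i r).symm,
      f.F_snd]
    rfl
  · show (f.F p).2 (u _) (Fin.cast k.m _) = _
    rw [← hw]
    exact f.F_snd_zero p _ _ fun s c => hr (Fin.cast h.m.symm s)
      (Fin.ext ((hι i _).symm.trans (congrArg Fin.val c)))

theorem mc_mor (h : Fac D' D e) (k : Fac E' E u) (f : Mor D E) (f' : Mor D' E')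
    (hw : ∀ i, f.w (e i) = u (f'.w i))
    (hι : ∀ i r, (f.ι (e i) (Fin.cast h.m r)).1 = (f'.ι i r).1) (x : D.XS) :
    k.mc (f.mc x) = f'.mc (h.mc x) := by
  obtain ⟨p, hp, rfl⟩ := exists_pt x
  rw [f.mc_pt hp (f.st hp), k.mc_pt, h.mc_pt, f'.mc_pt _ (f'.st (h.st hp))]
  simp only [F_mor h k f f' hw hι]

theorem spl (h : Fac D' D e) (h'' : Fac D'' D e'') (hc : ∀ i, i ∈ range e ∨ i ∈ range e'')
    (hs : ∀ i j, e i ≠ e'' j) : Spl D D' D'' e e'' :=
  ⟨h.toEmb, h''.toEmb, hc, fun i j k => (h.cls i _ k).elim fun a c => hs a j c, h.th, h''.th, h.rl,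
    h''.rl⟩

theorem F_ext (h : Fac D' D e) (h'' : Fac D'' D e'') (hc : ∀ i, i ∈ range e ∨ i ∈ range e'')
    (hs : ∀ i j, e i ≠ e'' j) {q : Pt I D.m} (hp : p.1 ∈ D.R) (hq : q.1 ∈ D.R)
    (h1 : h.F p = h.F q) (h2 : h''.F p = h''.F q) : p = q := by
  have a1 := ((h.spl h'' hc hs).mem_R.1 hp).1
  have a2 := ((h.spl h'' hc hs).mem_R.1 hq).1
  refine Prod.ext (funext fun a => Matrix.ext fun i j => ?_) (Matrix.ext fun i r => ?_)
  · rcases hc i with ⟨i, rfl⟩ | ⟨i, rfl⟩ <;> rcases hc j with ⟨j, rfl⟩ | ⟨j, rfl⟩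
    exacts [congrArg (·.1 a i j) h1, (a1 a i j).1.trans (a2 a i j).1.symm,
      (a1 a j i).2.trans (a2 a j i).2.symm, congrArg (·.1 a i j) h2]
  · rcases hc i with ⟨i, rfl⟩ | ⟨i, rfl⟩
    exacts [congrArg (·.2 i (Fin.cast h.m.symm r)) h1, congrArg (·.2 i (Fin.cast h''.m.symm r)) h2]

theorem bij (h : Fac D' D e) (h'' : Fac D'' D e'') (hc : ∀ i, i ∈ range e ∨ i ∈ range e'')
    (hs : ∀ i j, e i ≠ e'' j) : Function.Bijective fun x => (h.mc x, h''.mc x) := by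
  have S := h.spl h'' hc hs
  refine ⟨fun x y k => ?_, fun ⟨x, y⟩ => ?_⟩
  · obtain ⟨p, hp, rfl⟩ := exists_pt x
    obtain ⟨q, hq, rfl⟩ := exists_pt y
    simp only [mc_pt, Prod.mk.injEq, pt_eq_iff] at k
    obtain ⟨⟨A, hA, e1⟩, B, hB, e2⟩ := k
    obtain ⟨g, rfl, rfl, h3, h4⟩ := f8_blk h.inj h''.inj hc hs A B
    have hg : g ∈ D.P := by
      refine ⟨fun i j c => ?_, h4 ▸ hA.2.mul hB.2⟩
      rcases hc i with ⟨i, rfl⟩ | ⟨i, rfl⟩ <;> rcases hc j with ⟨j, rfl⟩ | ⟨j, rfl⟩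
      exacts [hA.1 i j fun k => c ((h.gp i j).2 k), (h3 i j).1, (h3 j i).2,
        hB.1 i j fun k => c ((h''.gp i j).2 k)]
    exact (pt_eq_iff hp hq).2 ⟨g, hg, h.F_ext h'' hc hs hq.mem (hp.act hg).mem
      (e1.trans (h.F_act (D.P_le hg) p).symm) (e2.trans (h''.F_act (D.P_le hg) p).symm)⟩
  · obtain ⟨p, hp, rfl⟩ := exists_pt x
    obtain ⟨q, hq, rfl⟩ := exists_pt y
    choose ρ h1 h2 h3 _ using fun a => f8_blk h.inj h''.inj hc hs (p.1 a) (q.1 a)
    obtain ⟨f, f1, f2⟩ : ∃ f : Matrix I (Fin D.m) ℂ, f.submatrix e (Fin.cast h.m) = p.2 ∧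
        f.submatrix e'' (Fin.cast h''.m) = q.2 :=
      ⟨Function.extend e (fun i r => p.2 i (Fin.cast h.m.symm r))
        (Function.extend e'' (fun i r => q.2 i (Fin.cast h''.m.symm r)) 0),
        Matrix.ext fun i r => by rw [submatrix_apply, h.inj.extend_apply]; rfl,
        Matrix.ext fun i r => by
          rw [submatrix_apply, Function.extend_apply' _ _ _ fun ⟨a, c⟩ => hs a i c,
            h''.inj.extend_apply]
          rfl⟩
    have e1 : h.F (ρ, f) = p := Prod.ext (funext h1) f1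
    have e2 : h''.F (ρ, f) = q := Prod.ext (funext h2) f2
    have hz : D.St (ρ, f) := (S.st_iff h.m h''.m _).2 ⟨h3, (e1 ▸ hp : D'.St (h.F (ρ, f))),
      (e2 ▸ hq : D''.St (h''.F (ρ, f)))⟩
    exact ⟨pt _ hz, by simp only [mc_pt, e1, e2]⟩

/-- PRODX -/
def homeo (h : Fac D' D e) (h'' : Fac D'' D e'') (hc : ∀ i, i ∈ range e ∨ i ∈ range e'')
    (hs : ∀ i j, e i ≠ e'' j) : D.XS ≃ₜ D'.XS × D''.XS :=
  Continuous.homeoOfEquivCompactToT2 (f := Equiv.ofBijective _ (h.bij h'' hc hs))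
    (h.mc.continuous.prodMk h''.mc.continuous)

theorem homeo_apply (h : Fac D' D e) (h'' : Fac D'' D e'') (hc : ∀ i, i ∈ range e ∨ i ∈ range e'')
    (hs : ∀ i j, e i ≠ e'' j) (x : D.XS) : h.homeo h'' hc hs x = (h.mc x, h''.mc x) := rfl

end Fac

end Dat

end Pool.Agent.CS
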