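import Pool.Agent.K.MP_d34769_ag.C111
import Pool.Agent.K.MP_d34769_ag.C115

/-! Juxtaposition of lists of words on complementary sets of indices. -/

open Set

set_option linter.unusedSectionVars false

noncomputable section
namespace Pool.Agent.CS

variable {I I' I'' : Type} [DecidableEq I]

/-- transport of a list of words along a map -/
def mapL (e : I' → I) (L : List (List (Finset I'))) : List (List (Finset I)) :=
  L.map (List.map fun b => b.image e)

section mapL
variable {e : I' → I} {u : List (Finset I')} {L : List (List (Finset I'))} {x y : I}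

theorem has_img : Has (u.map fun b => b.image e) x ↔ ∃ i, e i = x ∧ Has u i := by
  simp only [Has, List.mem_map, exists_exists_and_eq_and, Finset.mem_image]
  exact ⟨fun ⟨b, h, i, hi, c⟩ => ⟨i, c, b, h, hi⟩, fun ⟨i, c, b, h, hi⟩ => ⟨b, h, i, hi, c⟩⟩

theorem slot_mapL (he : Function.Injective e) (i : I') : slot (mapL e L) (e i) = slot L i := by
  induction L with
  | nil => rfl
  | cons u L ih =>
    have : Has (u.map fun b => b.image e) (e i) ↔ Has u i := by simp [has_img, he.eq_iff]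
    simp only [mapL, List.map_cons, slot] at ih ⊢
    rw [propext this, ih]

theorem has_mapL : (∃ v ∈ mapL e L, Has v x) ↔ ∃ i, e i = x ∧ ∃ u ∈ L, Has u i := by
  simp only [mapL, List.mem_map, exists_exists_and_eq_and, has_img]
  exact ⟨fun ⟨b, h, i, hi, c⟩ => ⟨i, hi, b, h, c⟩, fun ⟨i, c, b, h, hi⟩ => ⟨b, h, i, c, hi⟩⟩

theorem ord_img : Ord (u.map fun b => b.image e) x y ↔ ∃ i j, e i = x ∧ e j = y ∧ Ord u i j := by
  constructor
  · rintro ⟨a, b, hi, hj, ⟨rfl, h⟩ | h⟩
    · obtain ⟨c, hc, rfl⟩ := List.mem_map.1 h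
      obtain ⟨i, h1, h2⟩ := Finset.mem_image.1 hi
      obtain ⟨j, h3, h4⟩ := Finset.mem_image.1 hj
      exact ⟨i, j, h2, h4, c, c, h1, h3, Or.inl ⟨rfl, hc⟩⟩
    · obtain ⟨l, hl, e1⟩ := List.sublist_map_iff.1 h
      obtain ⟨c, l', rfl, rfl, e2⟩ := List.map_eq_cons_iff.1 e1.symm
      obtain ⟨d, l'', rfl, rfl, e3⟩ := List.map_eq_cons_iff.1 e2
      obtain rfl := List.map_eq_nil_iff.1 e3
      obtain ⟨i, h1, h2⟩ := Finset.mem_image.1 hi
      obtain ⟨j, h3, h4⟩ := Finset.mem_image.1 hj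
      exact ⟨i, j, h2, h4, c, d, h1, h3, Or.inr hl⟩
  · rintro ⟨i, j, rfl, rfl, a, b, hi, hj, k⟩
    exact ⟨a.image e, b.image e, Finset.mem_image_of_mem _ hi, Finset.mem_image_of_mem _ hj,
      k.imp (fun k => ⟨by rw [k.1], List.mem_map_of_mem k.2⟩) fun k =>
        k.map fun b : Finset I' => b.image e⟩

theorem ordM_mapL : OrdM (mapL e L) x y ↔ ∃ i j, e i = x ∧ e j = y ∧ OrdM L i j := by
  simp only [OrdM, mapL, List.mem_map, exists_exists_and_eq_and, ord_img]
  exact ⟨fun ⟨b, h, i, j, hi, hj, c⟩ => ⟨i, j, hi, hj, b, h, c⟩,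
    fun ⟨i, j, hi, hj, b, h, c⟩ => ⟨b, h, i, j, hi, hj, c⟩⟩

theorem flatten_mapL : (mapL e L).flatten = L.flatten.map fun b => b.image e := by
  simp [mapL, List.map_flatten]

theorem length_mapL : (mapL e L).length = L.length := List.length_map _

theorem mapL_inj (he : Function.Injective e) : Function.Injective (mapL e) :=
  (Finset.image_injective he).list_map.list_map

theorem sum_img (he : Function.Injective e) (l : List (Finset I')) :
    ((l.map fun b => b.image e).map Finset.val).sum = (l.map Finset.val).sum.map e := by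
  induction l with
  | nil => rfl
  | cons b l ih =>
    simp only [List.map_cons, List.sum_cons, ih, Multiset.map_add,
      Finset.image_val_of_injOn he.injOn]

theorem cobM_mapL [DecidableEq I'] (φ : List (List (Finset I)) → ℤ) :
    cobM (mapL e L) φ = cobM L fun K => φ (mapL e K) :=
  cobM_map _ (fun _ _ => Finset.image_union _ _) L φ

theorem exists_mapL {K : List (List (Finset I))} (h : ∀ i, (∃ u ∈ K, Has u i) → i ∈ range e) :
    ∃ L, mapL e L = K := by
  refine (Set.ext_iff.1 (range_list_map _) K).2 fun u hu =>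
    (Set.ext_iff.1 (range_list_map _) u).2 fun b hb => ?_
  obtain ⟨c, -, hc⟩ := Finset.subset_set_image_iff.1 (show (b : Set I) ⊆ e '' univ from
    fun i hi => image_univ ▸ h i ⟨u, hu, b, hb, hi⟩)
  exact ⟨c, hc⟩

end mapL

section append
omit [DecidableEq I]
variable {L K : List (List (Finset I))} {x y : I}

theorem slot_in (h : ∃ u ∈ L, Has u x) : slot (L ++ K) x = slot L x := by
  induction L with
  | nil => simp at h
  | cons u L ih =>
    simp only [List.mem_cons, exists_eq_or_imp, List.cons_append, slot] at h ⊢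
    split_ifs with a
    · rfl
    · rw [ih (h.resolve_left a)]

theorem slot_out (h : ¬∃ u ∈ L, Has u x) : slot (L ++ K) x = L.length + slot K x := by
  induction L with
  | nil => simp
  | cons u L ih =>
    simp only [List.mem_cons, exists_eq_or_imp, not_or, List.cons_append, slot] at h ⊢
    rw [if_neg h.1, ih h.2, List.length_cons, Nat.add_right_comm]

theorem ordM_append : OrdM (L ++ K) x y ↔ OrdM L x y ∨ OrdM K x y := by
  simp only [OrdM, List.mem_append, or_and_right, exists_or]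

end append

/-- `I` is the disjoint union of the images -/
structure Sp (e : I' → I) (f : I'' → I) : Prop where
  l : Function.Injective e
  r : Function.Injective f
  cov : ∀ i, i ∈ range e ∨ i ∈ range f
  ne : ∀ i j, e i ≠ f j

namespace Sp
variable {e : I' → I} {f : I'' → I} (h : Sp e f) {A K : List (List (Finset I'))}
  {B M : List (List (Finset I''))}
include h

theorem ord_l {i j : I'} : OrdM (mapL e A ++ mapL f B) (e i) (e j) ↔ OrdM A i j := by
  simp [ordM_append, ordM_mapL, h.l.eq_iff, (h.ne _ _).symm]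

theorem ord_r {i j : I''} : OrdM (mapL e A ++ mapL f B) (f i) (f j) ↔ OrdM B i j := by
  simp [ordM_append, ordM_mapL, h.r.eq_iff, h.ne _ _]

theorem slot_l {i : I'} (hi : ∃ u ∈ A, Has u i) : slot (mapL e A ++ mapL f B) (e i) = slot A i := by
  rw [slot_in (has_mapL.2 ⟨i, rfl, hi⟩), slot_mapL h.l]

theorem slot_r (i : I'') : slot (mapL e A ++ mapL f B) (f i) = A.length + slot B i := by
  rw [slot_out fun c => (has_mapL.1 c).elim fun j k => h.ne j i k.1, slot_mapL h.r, length_mapL]

theorem exists_ext (w : Equiv.Perm I') (v : Equiv.Perm I'') :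
    ∃ z : Equiv.Perm I, (∀ i, z (e i) = e (w i)) ∧ ∀ i, z (f i) = f (v i) := by
  let σ := Equiv.ofBijective (Sum.elim e f) ⟨h.l.sumElim h.r h.ne, fun i =>
    (h.cov i).elim (fun ⟨j, k⟩ => ⟨.inl j, k⟩) fun ⟨j, k⟩ => ⟨.inr j, k⟩⟩
  exact ⟨σ.permCongr (w.sumCongr v), fun i => congrArg (σ <| w.sumCongr v ·)
    (σ.symm_apply_apply (.inl i)), fun i => congrArg (σ <| w.sumCongr v ·)
    (σ.symm_apply_apply (.inr i))⟩

variable [Fintype I] [Fintype I'] [Fintype I''] [DecidableEq I'] [DecidableEq I'']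
  {col : I → Fin 3} {th : Fin 3 → ℤ} {k l m : ℕ}

theorem sum_iff {s : Multiset I'} {t : Multiset I''} :
    s.map e + t.map f = Finset.univ.val ↔ s = Finset.univ.val ∧ t = Finset.univ.val := by
  have h1 : ∀ i, (s.map e + t.map f).count (e i) = s.count i := fun i => by
    rw [Multiset.count_add, Multiset.count_map_eq_count' _ _ h.l, Multiset.count_eq_zero.2
      fun c => (Multiset.mem_map.1 c).elim fun j k => h.ne i j k.2.symm, add_zero]
  have h2 : ∀ i, (s.map e + t.map f).count (f i) = t.count i := fun i => by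
    rw [Multiset.count_add, Multiset.count_map_eq_count' _ _ h.r, Multiset.count_eq_zero.2
      fun c => (Multiset.mem_map.1 c).elim fun j k => h.ne j i k.2, zero_add]
  simp only [Multiset.ext, Multiset.count_univ]
  refine ⟨fun c => ⟨fun i => (h1 i).symm.trans (c _), fun i => (h2 i).symm.trans (c _)⟩,
    fun c i => ?_⟩
  rcases h.cov i with ⟨i, rfl⟩ | ⟨i, rfl⟩
  exacts [(h1 i).trans (c.1 i), (h2 i).trans (c.2 i)]

theorem adm_iff : Adm col th (mapL e A ++ mapL f B) ↔ Adm (col ∘ e) th A ∧ Adm (col ∘ f) th B := by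
  have h1 : ∀ {J : Type} [Fintype J] {c : J → Fin 3} {L : List (List (Finset J))}, Adm c th L ↔
      ((∀ b ∈ L.flatten, b.Nonempty) ∧ (L.flatten.map Finset.val).sum = Finset.univ.val) ∧
        (∀ u ∈ L, u ≠ []) ∧ ∀ b ∈ L.flatten, ∑ j ∈ b, th (c j) = 0 :=
    ⟨fun c => ⟨c.1, c.2, c.3⟩, fun c => ⟨c.1, c.2.1, c.2.2⟩⟩
  rw [h1, h1, h1, List.flatten_append, flatten_mapL, flatten_mapL, List.map_append, List.sum_append,
    sum_img h.l, sum_img h.r, h.sum_iff]
  simp only [mapL, List.forall_mem_append, List.forall_mem_map, Finset.image_nonempty,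
    Finset.sum_image h.l.injOn, Finset.sum_image h.r.injOn, Ne, List.map_eq_nil_iff,
    Function.comp_apply]
  exact ⟨fun ⟨⟨a, b⟩, c, d⟩ => ⟨⟨⟨a.1, b.1⟩, c.1, d.1⟩, ⟨a.2, b.2⟩, c.2, d.2⟩,
    fun ⟨⟨a, b, c⟩, d, e, f⟩ => ⟨⟨⟨a.1, d.1⟩, a.2, d.2⟩, ⟨b, e⟩, c, f⟩⟩

/-- juxtaposition -/
def join (p : Wx (col ∘ e) th k × Wx (col ∘ f) th l) : Wx col th (k + l) :=
  ⟨mapL e p.1.1 ++ mapL f p.2.1, h.adm_iff.2 ⟨p.1.2.1, p.2.2.1⟩, by
    rw [List.length_append, length_mapL, length_mapL, p.1.2.2, p.2.2.2]⟩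

variable (p q : Wx (col ∘ e) th k × Wx (col ∘ f) th l)

theorem join_l (i : I') : slot (h.join p).1 (e i) = slot p.1.1 i :=
  h.slot_l (p.1.2.1.part.mem_word i)

theorem join_r (i : I'') : slot (h.join p).1 (f i) = k + slot p.2.1 i :=
  (h.slot_r i).trans (by rw [p.1.2.2])

theorem join_lt (i : I') : slot p.1.1 i < k :=
  (slot_lt (p.1.2.1.part.mem_word i)).trans_eq p.1.2.2

theorem join_len : (h.join p).1.flatten.length = p.1.1.flatten.length + p.2.1.flatten.length := by
  simp only [join, List.flatten_append, flatten_mapL, List.length_append, List.length_map]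

theorem app_iff (c : A.length = K.length ∨ B.length = M.length) :
    mapL e A ++ mapL f B = mapL e K ++ mapL f M ↔ A = K ∧ B = M := by
  refine ⟨fun a => ?_, fun a => by rw [a.1, a.2]⟩
  refine And.imp (mapL_inj h.l ·) (mapL_inj h.r ·) (c.elim (fun c => List.append_inj a ?_)
    fun c => List.append_inj' a ?_) <;> rw [length_mapL, length_mapL, c]

theorem join_inj : Function.Injective (h.join : Wx (col ∘ e) th k × Wx (col ∘ f) th l → _) :=
  fun p q c => by
    have := (h.app_iff (Or.inl (p.1.2.2.trans q.1.2.2.symm))).1 (congrArg Subtype.val c)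
    exact Prod.ext (Subtype.ext this.1) (Subtype.ext this.2)

theorem mem_join {L : Wx col th (k + l)} :
    L ∈ range (h.join : Wx (col ∘ e) th k × Wx (col ∘ f) th l → _) ↔
      ∀ i, slot L.1 i < k ↔ i ∈ range e := by
  constructor
  · rintro ⟨p, rfl⟩ i
    rcases h.cov i with ⟨i, rfl⟩ | ⟨i, rfl⟩
    · rw [join_l]
      exact iff_of_true (h.join_lt p i) ⟨i, rfl⟩
    · rw [join_r]
      exact iff_of_false (by omega) fun ⟨j, c⟩ => h.ne j i c
  · intro c
    obtain ⟨L, h1, h2⟩ := L
    obtain ⟨L₁, L₂, rfl, rfl⟩ : ∃ L₁ L₂, L₁ ++ L₂ = L ∧ L₁.length = k :=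
      ⟨L.take k, L.drop k, L.take_append_drop k, List.length_take_of_le (by omega)⟩
    obtain ⟨A, rfl⟩ := exists_mapL (e := e) (K := L₁) fun i hi =>
      (c i).1 ((slot_in hi).trans_lt (slot_lt hi))
    obtain ⟨B, rfl⟩ := exists_mapL (e := f) (K := L₂) fun i ⟨v, hv, b, hb, hi⟩ =>
      (h.cov i).resolve_left fun a => by
        have h3 := (c i).2 a
        have h4 := h1.part.pw
        rw [List.flatten_append, List.pairwise_append] at h4
        rw [slot_out fun ⟨u, hu, a, ha, hj⟩ => Finset.disjoint_left.1 (h4.2.2 a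
          (List.mem_flatten.2 ⟨u, hu, ha⟩) b (List.mem_flatten.2 ⟨v, hv, hb⟩)) hj hi] at h3
        omega
    rw [List.length_append, Nat.add_left_cancel_iff, length_mapL] at h2
    exact ⟨(⟨A, (h.adm_iff.1 h1).1, length_mapL.symm⟩, ⟨B, (h.adm_iff.1 h1).2, h2⟩), rfl⟩

theorem join_rs : RS id (h.join p).1 (h.join q).1 ↔ RS id p.1.1 q.1.1 ∧ RS id p.2.1 q.2.1 := by
  constructor
  · intro c
    exact ⟨⟨fun i j a => h.ord_l.1 (c.ord _ _ (h.ord_l.2 a)), fun i =>
      (h.join_l q i).symm.trans ((c.sl _).trans (h.join_l p i))⟩,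
      fun i j a => h.ord_r.1 (c.ord _ _ (h.ord_r.2 a)), fun i =>
        Nat.add_left_cancel ((h.join_r q i).symm.trans ((c.sl _).trans (h.join_r p i)))⟩
  · refine fun c => ⟨fun x y a => ?_, fun x => ?_⟩
    · rcases ordM_append.1 a with a | a <;> obtain ⟨i, j, rfl, rfl, b⟩ := ordM_mapL.1 a
      exacts [h.ord_l.2 (c.1.ord i j b), h.ord_r.2 (c.2.ord i j b)]
    · rcases h.cov x with ⟨i, rfl⟩ | ⟨i, rfl⟩
      · rw [join_l, join_l, c.1.sl]
      · rw [join_r, join_r, c.2.sl, id, id]

theorem join_ε (hk : 0 < k) {d : Decidable (p.2 = q.2)} {d' : Decidable (p.1 = q.1)} :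
    cobM (h.join p).1 (ind (h.join q).1) = (if p.2 = q.2 then cobM p.1.1 (ind q.1.1) else 0) +
      if p.1 = q.1 then (-1) ^ (p.1.1.flatten.length - 1 + 1) * cobM p.2.1 (ind q.2.1) else 0 := by
  rw [Nat.sub_add_cancel (hk.trans_le p.1.le), join, join, HA.cobM_append, flatten_mapL,
    List.length_map, cobM_mapL, cobM_mapL, smul_eq_mul]
  congr 1
  · refine (congrArg _ (funext fun K => if_congr
      (h.app_iff (Or.inr (p.2.2.2.trans q.2.2.2.symm))) rfl rfl)).trans ?_
    split_ifs with c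
    · simp only [c, and_true]
    · simp only [show p.2.1 ≠ q.2.1 from fun a => c (Subtype.ext a), and_false, if_false]
      exact (cobM_nat _).zero
  · refine (congrArg (_ * cobM _ ·) (funext fun K => if_congr
      (h.app_iff (Or.inl (p.1.2.2.trans q.1.2.2.symm))) rfl rfl)).trans ?_
    split_ifs with c
    · simp only [c, true_and]
    · simp only [show p.1.1 ≠ q.1.1 from fun a => c (Subtype.ext a), false_and, if_false]
      exact mul_eq_zero_of_right _ (cobM_nat _).zero

theorem fac_l : Dat.Fac (p.1.dat m) ((h.join p).dat m) e where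
  inj := h.l
  col _ := rfl
  cp i j := by rw [Adm.cp_iff, Adm.cp_iff, join_l, join_l]
  cls i j c := (h.mem_join.1 ⟨p, rfl⟩ j).1 (by
    rw [← (Adm.cp_iff _ _).1 c, join_l]; exact h.join_lt p i)
  th := rfl
  m := rfl
  rl _ _ := h.ord_l
  gp _ _ := and_congr_right fun _ => h.ord_l

theorem fac_r : Dat.Fac (p.2.dat m) ((h.join p).dat m) f where
  inj := h.r
  col _ := rfl
  cp i j := by rw [Adm.cp_iff, Adm.cp_iff, join_r, join_r, Nat.add_left_cancel_iff]
  cls i j c := (h.cov j).resolve_left fun a => by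
    have := (h.mem_join.1 ⟨p, rfl⟩ j).2 a
    rw [← (Adm.cp_iff _ _).1 c, join_r] at this
    omega
  th := rfl
  m := rfl
  rl _ _ := h.ord_r
  gp _ _ := and_congr_right fun _ => h.ord_r

omit h [Fintype I] [Fintype I'] in
theorem rlb_map {z : Equiv.Perm I} {w : Equiv.Perm I'} (c : ∀ i, z (e i) = e (w i)) :
    rlb z (mapL e A) = mapL e (rlb w A) := by
  simp only [rlb, mapL, List.map_map, Function.comp_def, Finset.image_image, c]

theorem exists_W (w : Wc (col ∘ e)) (v : Wc (col ∘ f)) : ∃ z : Wc col,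
    (∀ i, z.1 (e i) = e (w.1 i)) ∧ (∀ i, z.1 (f i) = f (v.1 i)) ∧
      ∀ p : Wx (col ∘ e) th k × Wx (col ∘ f) th l,
        actI col th _ z (h.join p) = h.join (actI _ th k w p.1, actI _ th l v p.2) := by
  obtain ⟨z, h1, h2⟩ := h.exists_ext w.1 v.1
  refine ⟨⟨z, fun i => ?_⟩, h1, h2, fun p => Subtype.ext ?_⟩
  · rcases h.cov i with ⟨i, rfl⟩ | ⟨i, rfl⟩
    exacts [(congrArg col (h1 i)).trans (w.2 i), (congrArg col (h2 i)).trans (v.2 i)]
  · exact List.map_append.trans (congrArg₂ _ (rlb_map h1) (rlb_map h2))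

end Sp

end Pool.Agent.CS
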