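import Pool.Agent.K.MP_d34769_ag.C114
import Pool.Agent.K.MP_d34769_ag.C117
import Pool.Agent.K.MP_d34769_ag.C118

/-! The classes of a stratum give symmetric primitive classes. -/

open Set

noncomputable section
namespace Pool.Agent.CS

variable {I : Type} [Fintype I] [DecidableEq I] {col : I → Fin 3} {th : Fin 3 → ℤ}
  {k m m₁ m₂ : ℕ} (h0 : Adm col th [[Finset.univ]])

theorem hd_out (hk : 2 ≤ k) (h : 2 * m₂ ≤ m₁) {j : ℤ}
    (IH : ∀ (J : Type) [Fintype J] [DecidableEq J] (c : J → Fin 3),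
      Fintype.card J < Fintype.card I → ∀ h : Adm c th [[Finset.univ]], ∀ i < j, SurN m₁ h i) :
    ∃ J : (bcU k m₁ h0).cx.H j →ₗ[ℂ] (bcT col th k m₁).cx.H j,
      Function.Injective J ∧ ∀ a, J a ∈ KT col th k h j :=
  ext_out BT_univ (NU_BT (by omega) h0) inv_BT (NU_inv h0 (k + 1)) (fun x hx hb =>
    (Dg.yp4_B (Dg.yp4_Z.1 hx).2).2 (ki_all IH hk j le_rfl x (Dg.yp4_Z.1 hx).1 (Dg.yp4_Z.1 hx).2
      (Cx.Bcast (Dg.yp4_le hb) (add_zero j)))) h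

theorem hcd_of {n : ℕ} (hk : 2 ≤ k) (h : 2 * m₂ ≤ m₁) (hm : Fintype.card I * m₁ ≤ m)
    (IH : ∀ (J : Type) [Fintype J] [DecidableEq J] (c : J → Fin 3),
      Fintype.card J < Fintype.card I → ∀ h : Adm c th [[Finset.univ]], ∀ i : ℤ, i < n →
        SurN m₁ h i) {j : ℤ} (hj : j ≤ n)
    (hc : k * m₁ ≤ m → ∃ J : (bcN m h0 (NX m h0 k) (NX m h0 (k + 1))).cx.H j →ₗ[ℂ]
      (bcU k m₁ h0).cx.H j, Function.Injective J) :
    ∃ J : (bcN m h0 (NX m h0 k) (NX m h0 (k + 1))).cx.H j →ₗ[ℂ] (bcT col th k m₁).cx.H j,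
      Function.Injective J ∧ ∀ a, J a ∈ KT col th k h j := by
  rcases le_or_gt k (Fintype.card I) with c | c
  · obtain ⟨J, hJ⟩ := hc ((Nat.mul_le_mul_right _ c).trans hm)
    obtain ⟨J', h1, h2⟩ := hd_out h0 hk h fun J _ _ c a b i hi => IH J c a b i (hi.trans_le hj)
    exact ⟨J' ∘ₗ J, h1.comp hJ, fun a => h2 _⟩
  · refine ⟨0, (injective_iff_map_eq_zero _).2 fun a _ => ?_, fun _ => zero_mem _⟩
    obtain ⟨x, rfl⟩ := Cx.cls_surj j a
    have h1 := Dg.yp4_Z.1 x.2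
    refine Cx.cls_eq_zero.2 ((Dg.yp4_B h1.2).2 (Dg.ac_of_subset (fun L => ?_) j h1.1))
    rw [NX_big h0 c]
    exact empty_subset _

end Pool.Agent.CS
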