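import Pool.Agent.K.MP_d34769_ag.C50
import Mathlib

-- part Pool.Agent.P.MP_d34769_ag.YB7
section

/-! The cohomology of a space of orthogonal lines: induction along the tower. -/

open Matrix Set Polynomial

set_option linter.unusedSectionVars false

noncomputable section
namespace Pool.Agent.CS

variable {μ : Type} [Fintype μ] {B : Type} [TopologicalSpace B] [CompactSpace B] [T2Space B]

/-- the rank of the bundle at one step of the tower -/
def LD.bd {n : ℕ} (D : LD B μ (Fin n)) (a : Fin n) : ℕ := D.r a - (D.aft a).card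

theorem LD.bd_succ {n : ℕ} (D : LD B μ (Fin (n + 1))) (a : Fin n) :
    D.bd a.succ = (D.comp Fin.succ).bd a := by
  rw [LD.bd, LD.aft_succ, Finset.card_map]; rfl

theorem IsLn.base {X : Type} [TopologicalSpace X] [CompactSpace X] {π : C(X, B)}
    {D : LD B μ (Fin 0)} {l : Fin 0 → Bun X μ 1} (h : IsLn π D l) :
    ∃ F : C(B, X), π.comp F = .id B ∧ F.comp π = .id X := by
  obtain ⟨F, hF, -⟩ := h.exists_lift (.id B) Fin.elim0 (fun a => a.elim0) fun a => a.elim0
  exact ⟨F, hF, ContinuousMap.ext fun x => h.inj _ _ (congrArg (· (π x)) hF) fun a => a.elim0⟩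

theorem ln_span (n : ℕ) : ∀ {X : Type} [TopologicalSpace X] [CompactSpace X] [T2Space X]
    {π : C(X, B)} {D : LD B μ (Fin n)} {l : Fin n → Bun X μ 1}, IsLn π D l →
    (∀ a, D.n a ≤ D.r a) → ∀ m : ℤ, hr X m ≤ Submodule.span ℂ {z | ∃ k : ℤ, ∃ u ∈ hr B k,
      ∃ e : Fin n → ℕ, (∀ a, e a < D.bd a) ∧ k + (2 * ∑ a, e a : ℕ) = m ∧
        z = HR.pull π u * (∏ a, (l a).x ^ e a).1} := by
  induction n with
  | zero =>
    intro X _ _ _ π D l h _ m c hc
    obtain ⟨F, -, hF⟩ := h.base
    exact Submodule.subset_span ⟨m, _, pull_mem_hr F hc, Fin.elim0, fun a => a.elim0, by simp,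
      by simp [HR.pull_pull, hF, HR.pull_id]⟩
  | succ n ih =>
    intro X _ _ _ π D l h hn m c hc
    obtain ⟨p, E, h1, h2, h3, -⟩ := h.step hn
    obtain ⟨u, hu, rfl⟩ := h3.sur' hc
    refine Submodule.sum_mem _ fun j _ => ?_
    refine Submodule.mem_comap (f := LinearMap.mulRight ℂ ((l 0).x ^ j.1).1 ∘ₗ
      (HR.pull p).toLinearMap).1 (Submodule.span_le.2 ?_
        (ih (Ln.isLn _) (fun a => (D.n_succ a).trans (hn _)) _ (hu j)))
    rintro _ ⟨k, v, hv, e, he, hk, rfl⟩
    refine Submodule.subset_span ⟨k, v, hv, Fin.cons j e,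
      Fin.cases j.2 fun a => (he a).trans_eq (D.bd_succ a).symm, ?_, ?_⟩
    · rw [Fin.sum_cons]; omega
    · change HR.pull p (_ * _) * _ = _
      rw [map_mul, HR.pull_pull, h1, mul_assoc, ← HE.pull_val, map_prod, Fin.prod_univ_succ,
        mul_comm ((l 0).x ^ _)]
      simp only [map_pow, Bun.pull_x, h2]
      rfl

theorem ln_can (n : ℕ) : ∀ {X : Type} [TopologicalSpace X] [CompactSpace X] [T2Space X]
    {π : C(X, B)} {D : LD B μ (Fin n)} {l : Fin n → Bun X μ 1} (h : IsLn π D l)
    (hn : ∀ a, D.n a ≤ D.r a) (c : HR B),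
    HR.pull π c * (∏ a, (derivative (h.res hn a).g).eval (l a).x).1 = 0 → c = 0 := by
  induction n with
  | zero =>
    intro X _ _ _ π D l h _ c hc
    obtain ⟨F, hF, -⟩ := h.base
    have := congrArg (HR.pull F) hc
    simpa [HR.pull_pull, hF, HR.pull_id] using this
  | succ n ih =>
    intro X _ _ _ π D l h hn c hc
    obtain ⟨p, E, h1, h2, h3, h4⟩ := h.step hn
    have h' := Ln.isLn (D.comp Fin.succ)
    have hn' : ∀ a, (D.comp Fin.succ).n a ≤ (D.comp Fin.succ).r a :=
      fun a => (D.n_succ a).trans (hn _)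
    refine ih h' hn' c ?_
    set z := HR.pull (Ln.π _) c * (∏ a, (derivative (h'.res hn' a).g).eval (Ln.l _ a).x).1 with hz
    have e1 : ∀ a, (derivative (h.res hn a.succ).g).eval (l a.succ).x =
        HE.pull p ((derivative (h'.res hn' a).g).eval (Ln.l _ a).x) := fun a => by
      rw [(h.res hn a.succ).g_congr ((h'.res hn' a).comap p) (funext fun x => by
        rw [Bun.comap_Q, h.res_Q, h'.res_Q, D.aft_succ, Finset.sum_map, ← h1]
        simp only [Fin.coe_succEmb, ← h2]
        rfl) (D.bd_succ a), Bun.g_comap, derivative_map, ← h2, ← Bun.pull_x]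
      exact eval_map_apply _ _
    have hp : 0 < D.r 0 - (D.aft 0).card := by have := D.aft_lt 0; have := hn 0; omega
    have e2 : (derivative (h.res hn 0).g).eval (l 0).x = pev p (l 0).x (derivative E.g) := by
      rw [← h4, Bun.g_comap, derivative_map, pev_eq]
    rw [Fin.prod_univ_succ, mul_comm, e2, Finset.prod_congr rfl fun a _ => e1 a, ← map_prod,
      MulMemClass.coe_mul, ← mul_assoc, ← h1, ← HR.pull_pull, HE.pull_val, ← map_mul, ← hz,
      pev_sum p _ (r := D.r 0 - (D.aft 0).card)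
        ((natDegree_derivative_le _).trans_lt (by have := E.g_mo.1; omega)), Finset.mul_sum] at hc
    have := congrFun (h3.inj' (u := fun j => z * ((derivative E.g).coeff j).1)
      (by simpa only [map_mul, mul_assoc] using hc)) ⟨_, Nat.sub_one_lt hp.ne'⟩
    simp only [coeff_derivative, Nat.sub_add_cancel hp, E.g_mo.2, one_mul, Pi.zero_apply] at this
    rw [← Nat.cast_succ, SubringClass.coe_natCast, ← nsmul_one, mul_smul_comm, mul_one,
      ← Nat.cast_smul_eq_nsmul ℂ, smul_eq_zero] at this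
    exact this.resolve_left (Nat.cast_ne_zero.2 (Nat.succ_ne_zero _))

theorem ln_poly [Nonempty B] (n : ℕ) : ∀ {X : Type} [TopologicalSpace X] [CompactSpace X]
    [T2Space X] {π : C(X, B)} {D : LD B μ (Fin n)} {l : Fin n → Bun X μ 1}, IsLn π D l →
    (∀ a, D.n a ≤ D.r a) → ∀ φ : MvPolynomial (Fin n) ℂ, (∀ a, φ.degreeOf a < D.bd a) →
    MvPolynomial.aeval (fun a => (l a).x) φ = 0 → φ = 0 := by
  induction n with
  | zero =>
    intro X _ _ _ π D l h _ φ _ e
    obtain ⟨F, -, -⟩ := h.base
    have : Nonempty X := Nonempty.map F inferInstance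
    have := HR.nontrivial (X := X)
    rw [φ.eq_C_of_isEmpty] at e ⊢
    rw [MvPolynomial.aeval_C, map_eq_zero] at e
    rw [e, map_zero]
  | succ n ih =>
    intro X _ _ _ π D l h hn φ hφ e
    obtain ⟨p, E, -, h2, h3, -⟩ := h.step hn
    let f : MvPolynomial (Fin n) ℂ →+* HE (Ln (D.comp Fin.succ)) :=
      MvPolynomial.aeval (R := ℂ) fun a => (Ln.l (D.comp Fin.succ) a).x
    have key : ∀ ψ : MvPolynomial (Fin (n + 1)) ℂ, MvPolynomial.aeval (fun a => (l a).x) ψ =
        pev p (l 0).x ((MvPolynomial.finSuccEquiv ℂ n ψ).map f) := fun ψ => by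
      induction ψ using MvPolynomial.induction_on with
      | C a => simp [f, MvPolynomial.finSuccEquiv_apply]
      | add p q hp hq => simp only [map_add, Polynomial.map_add, hp, hq]
      | mul_X q a hq =>
        simp only [map_mul, Polynomial.map_mul, hq]
        congr 1
        rcases Fin.eq_zero_or_eq_succ a with rfl | ⟨a, rfl⟩
        · simp [MvPolynomial.finSuccEquiv_X_zero]
        · simp [MvPolynomial.finSuccEquiv_X_succ, f, Bun.pull_x, h2]
    have h5 := h3.pev_inj (degree_map_le.trans_lt (degree_le_natDegree.trans_lt (Nat.cast_lt.2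
      ((MvPolynomial.natDegree_finSuccEquiv φ).trans_lt (hφ 0))))) ((key φ).symm.trans e)
    refine (MvPolynomial.finSuccEquiv ℂ n).injective (Polynomial.ext fun j => ?_)
    rw [map_zero, coeff_zero]
    refine ih (Ln.isLn _) (fun a => (D.n_succ a).trans (hn _)) _ (fun a =>
      (MvPolynomial.degreeOf_coeff_finSuccEquiv φ a j).trans_lt
        ((hφ _).trans_eq (D.bd_succ a))) ?_
    have := congrArg (Polynomial.coeff · j) h5
    beta_reduce at this
    rwa [coeff_map, coeff_zero] at this

end Pool.Agent.CS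
end
end

-- part Pool.Agent.P.MP_d34769_ag.YBs
section

/-! Symmetric polynomials and invariants of spans of monomials. -/

open MvPolynomial

noncomputable section
namespace Pool.Agent.CS

variable {R A A' K : Type} [Ring R] [Algebra ℂ R] [CommRing A] [Algebra ℂ A] [Ring A']
  [Algebra ℂ A'] [Fintype K]

theorem sym_mem (S : Subalgebra ℂ A) (y : K → A)
    (h : ∀ j, (∏ b, (Polynomial.X - Polynomial.C (y b))).coeff j ∈ S) {φ : MvPolynomial K ℂ}
    (hφ : φ.IsSymmetric) : aeval y φ ∈ S := by
  classical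
  obtain ⟨θ, hθ⟩ := esymmAlgHom_surjective (σ := K) ℂ (n := Fintype.card K) le_rfl ⟨φ, hφ⟩
  have e : φ = aeval (fun i : Fin (Fintype.card K) => esymm K ℂ (i + 1)) θ := by
    rw [← esymmAlgHom_apply, hθ]
  have key : ∀ i : Fin (Fintype.card K), aeval y (esymm K ℂ (i + 1)) ∈ S := fun i => by
    have h1 := h (Fintype.card K - (i + 1))
    have hc : (Finset.univ.val.map y).card = Fintype.card K := by simp
    rw [Finset.prod_eq_multiset_prod, show (fun b => Polynomial.X - Polynomial.C (y b)) =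
      (fun t => Polynomial.X - Polynomial.C t) ∘ y from rfl, ← Multiset.map_map,
      Multiset.prod_X_sub_C_coeff _ (by omega), hc, Nat.sub_sub_self i.2] at h1
    rw [aeval_esymm_eq_multiset_esymm]
    have h2 := S.mul_mem (S.pow_mem (S.neg_mem S.one_mem) (i + 1)) h1
    rwa [← mul_assoc, ← mul_pow, neg_mul_neg, one_mul, one_pow, one_mul] at h2
  rw [e]
  clear e hθ
  induction θ using MvPolynomial.induction_on with
  | C a => simp
  | add p q hp hq => simpa only [map_add] using S.add_mem hp hq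
  | mul_X p i hp => simpa only [map_mul, aeval_X] using S.mul_mem hp (key i)

omit [Fintype K] in
theorem map_mono (ι : A →ₐ[ℂ] A') (α : A' →ₐ[ℂ] A') {y y' : K → A} (h : ∀ i, α (ι (y i)) = ι (y' i))
    (e : K → ℕ) (s : Finset K) : α (ι (∏ i ∈ s, y i ^ e i)) = ι (∏ i ∈ s, y' i ^ e i) := by
  classical
  induction s using Finset.induction_on with
  | empty => simp
  | insert a s ha ih => simp only [Finset.prod_insert ha, map_mul, map_pow, ih, h]

theorem desc_alg (φ : R →ₐ[ℂ] A') (ι : A →ₐ[ℂ] A') {cl : K → K → Prop} (hcl : Equivalence cl)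
    (y : K → A) (hs : ∀ (a) (ψ : MvPolynomial {b // cl a b} ℂ), ψ.IsSymmetric →
      ι (aeval (fun b => y b.1) ψ) ∈ φ.range) {c : A'}
    (hc : c ∈ Submodule.span ℂ {x | ∃ (u : R) (e : K → ℕ), x = φ u * ι (∏ i, y i ^ e i)})
    (hw : ∀ w : Equiv.Perm K, (∀ i, cl i (w i)) → ∃ α : A' →ₐ[ℂ] A', (∀ u, α (φ u) = φ u) ∧
      (∀ i, α (ι (y i)) = ι (y (w i))) ∧ α c = c) : c ∈ φ.range := by
  classical
  have key : ∀ S : Finset K, c ∈ Submodule.span ℂ {x | ∃ (u : R) (e : K → ℕ),
      (∀ a ∈ S, ∀ i, cl a i → e i = 0) ∧ x = φ u * ι (∏ i, y i ^ e i)} := fun S => by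
    induction S using Finset.induction_on with
    | empty => simpa using hc
    | insert a S _ ih =>
      choose α h1 h2 h3 using fun w : Equiv.Perm {b // cl a b} =>
        hw (Equiv.Perm.ofSubtype w) fun i => by
          by_cases hi : cl a i
          · rw [Equiv.Perm.ofSubtype_apply_of_mem w hi]
            exact hcl.trans (hcl.symm hi) (w ⟨i, hi⟩).2
          · rw [Equiv.Perm.ofSubtype_apply_of_not_mem w hi]
            exact hcl.refl i
      let T : A' →ₗ[ℂ] A' := ∑ w, (α w).toLinearMap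
      have hT : ∀ x, T x = ∑ w, α w x := fun x => by simp [T, LinearMap.sum_apply]
      have h4 : c = (Fintype.card (Equiv.Perm {b // cl a b}) : ℂ)⁻¹ • T c := by
        rw [hT, Finset.sum_congr rfl fun w _ => h3 w, Finset.sum_const, ← Nat.cast_smul_eq_nsmul ℂ,
          smul_smul, Finset.card_univ, inv_mul_cancel₀ (Nat.cast_ne_zero.2 Fintype.card_ne_zero),
          one_smul]
      rw [h4]
      refine Submodule.smul_mem _ _ (Submodule.mem_comap.1 (Submodule.span_le.2 ?_ ih))
      rintro _ ⟨u, e, he, rfl⟩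
      obtain ⟨u', hu'⟩ := hs a (∑ w : Equiv.Perm {b // cl a b}, ∏ i, X (w i) ^ e i.1) fun w => by
        simp only [map_sum, map_prod, map_pow, rename_X]
        exact Fintype.sum_equiv (Equiv.mulLeft w) _ _ fun _ => rfl
      refine Submodule.subset_span ⟨u * u', fun i => if cl a i then 0 else e i, fun b hb i hi => ?_, ?_⟩
      · rcases Finset.mem_insert.1 hb with rfl | hb
        · exact if_pos hi
        · simp [he b hb i hi]
      · have h5 : φ u' = _ := hu'
        rw [hT, map_mul, h5, mul_assoc, ← map_mul]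
        simp only [map_mul (α _), h1, map_mono ι _ (h2 _), ← Finset.mul_sum, ← map_sum ι]
        congr 2
        simp only [map_sum, map_prod, map_pow, aeval_X, Finset.sum_mul]
        refine Finset.sum_congr rfl fun w _ => ?_
        rw [← Fintype.prod_subtype_mul_prod_subtype (cl a),
          ← Fintype.prod_subtype_mul_prod_subtype (cl a) fun i => y i ^ if cl a i then 0 else e i,
          Finset.prod_eq_one (f := fun i : {b // cl a b} => y i ^ if cl a i then 0 else e i)
            fun i _ => by rw [if_pos i.2, pow_zero], one_mul]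
        congr 1
        · exact Finset.prod_congr rfl fun i _ => by rw [Equiv.Perm.ofSubtype_apply_coe]
        · exact Finset.prod_congr rfl fun i _ => by
            rw [Equiv.Perm.ofSubtype_apply_of_not_mem w i.2, if_neg i.2]
  refine (Submodule.span_le (p := Subalgebra.toSubmodule φ.range)).2 ?_ (key Finset.univ)
  rintro _ ⟨u, e, he, rfl⟩
  exact ⟨u, by simp [fun i => he i (Finset.mem_univ i) i (hcl.refl i)]⟩

end Pool.Agent.CS
end
end

-- part Pool.Agent.P.MP_d34769_ag.YB8
section

/-! The cohomology of a space of orthogonal lines. -/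

open Matrix Set Function

set_option linter.unusedSectionVars false

noncomputable section
namespace Pool.Agent.CS

variable {X B μ K : Type} [TopologicalSpace X] [TopologicalSpace B] [Fintype μ] [Fintype K]
  [CompactSpace X] [T2Space X] [CompactSpace B] [T2Space B] {π : C(X, B)} {D : LD B μ K}
  {l : K → Bun X μ 1}

theorem exists_sorted {o : K → ℕ} (ho : Injective o) :
    ∃ e : Fin (Fintype.card K) ≃ K, ∀ a b, o (e a) < o (e b) ↔ a < b :=
  letI := LinearOrder.lift' o ho
  ⟨(monoEquivOfFin K rfl).toEquiv, fun _ _ => (monoEquivOfFin K rfl).lt_iff_lt⟩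

open Classical in
theorem LD.n_eq (D : LD B μ K) (a : K) : D.n a = (Finset.univ.filter (D.cl a)).card := by
  rw [LD.n, Nat.card_eq_fintype_card, Fintype.card_subtype]

open Classical in
/-- the sum of the lines of one class -/
def IsLn.tot (h : IsLn π D l) (a : K) : Bun X μ (Finset.univ.filter (D.cl a)).card :=
  Bun.sum _ l fun b hb c hc e => h.orth b c e
    (D.eqv.trans (D.eqv.symm (Finset.mem_filter.1 hb).2) (Finset.mem_filter.1 hc).2)

theorem IsLn.tot_le (h : IsLn π D l) (a : K) (x : X) :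
    (D.P a).Q (π x) * (h.tot a).Q x = (h.tot a).Q x := by
  classical
  rw [IsLn.tot, Bun.sum_Q, Finset.mul_sum]
  exact Finset.sum_congr rfl fun b hb => by rw [D.eq a b (Finset.mem_filter.1 hb).2, h.le]

theorem IsLn.n_le (h : IsLn π D l) (x : X) (a : K) : D.n a ≤ D.r a :=
  (D.n_eq a).trans_le (((D.P a).op _).le_rank ((h.tot a).op x) (h.tot_le a x))

theorem IsLn.tot_eq (h : IsLn π D l) {a : K} (hn : D.n a = D.r a) (x : X) :
    (D.P a).Q (π x) = (h.tot a).Q x :=
  ((D.P a).op _).eq_of_le (by rw [← hn, D.n_eq]; exact (h.tot a).op x) (h.tot_le a x)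

open Classical in
theorem LD.card_aft {o : K → ℕ} {n : ℕ} {e : Fin n ≃ K} (he : ∀ a b, o (e a) < o (e b) ↔ a < b)
    (a : Fin n) : ((D.comp e).aft a).card =
      (Finset.univ.filter fun b => D.cl (e a) b ∧ o (e a) < o b).card :=
  Finset.card_equiv e fun b => by simp [LD.mem_aft, LD.comp, he]

open Classical in
/-- LN: the monomials in a box span -/
theorem IsLn.span (h : IsLn π D l) {o : K → ℕ} (ho : Injective o) (m : ℤ) :
    hr X m ≤ Submodule.span ℂ {z | ∃ k : ℤ, ∃ u ∈ hr B k, ∃ e : K → ℕ,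
      (∀ a, e a + (Finset.univ.filter fun b => D.cl a b ∧ o a < o b).card < D.r a) ∧
        k + (2 * ∑ a, e a : ℕ) = m ∧ z = HR.pull π u * (∏ a, (l a).x ^ e a).1} := by
  cases isEmpty_or_nonempty X with
  | inl _ => exact fun c _ => (HR.subsingleton (X := X)).elim 0 c ▸ zero_mem _
  | inr hX =>
    obtain ⟨s, hs⟩ := exists_sorted ho
    refine (ln_span _ (h.comp s) (fun a => (h.comp s).n_le hX.some a) m).trans
      (Submodule.span_mono ?_)
    rintro _ ⟨k, u, hu, e, he, hk, rfl⟩
    refine ⟨k, u, hu, e ∘ s.symm, fun a => ?_, ?_, ?_⟩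
    · have := he (s.symm a)
      rw [LD.bd, LD.card_aft hs] at this
      simp only [LD.comp, Equiv.apply_symm_apply] at this
      exact Nat.lt_sub_iff_add_lt.1 this
    · rw [← hk, ← s.sum_comp]; simp
    · rw [← s.prod_comp]; simp

theorem ev_mono (x : K → HE X) (e : K → ℕ) :
    (∏ a, x a ^ e a).1 = ev x (∏ a, MvPolynomial.X a ^ e a) := by
  have : MvPolynomial.aeval x (∏ a, MvPolynomial.X a ^ e a : MvPolynomial K ℂ) =
      ∏ a, x a ^ e a := by simp
  exact (congrArg Subtype.val this).symm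

theorem mono_hom (e : K → ℕ) :
    (∏ a, MvPolynomial.X a ^ e a : MvPolynomial K ℂ).IsHomogeneous (∑ a, e a) :=
  MvPolynomial.IsHomogeneous.prod _ _ _ fun a _ => MvPolynomial.isHomogeneous_X_pow a _

theorem exists_inj_nat (K : Type) [Fintype K] : ∃ o : K → ℕ, Injective o :=
  ⟨fun a => Fintype.equivFin K a, fun _ _ e => (Fintype.equivFin K).injective (Fin.ext e)⟩

theorem IsLn.span' (h : IsLn π D l) (c : HR X) : c ∈ Submodule.span ℂ
    {z | ∃ (u : HR B) (e : K → ℕ), z = HR.pull π u * (HE X).val (∏ a, (l a).x ^ e a)} := by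
  obtain ⟨o, ho⟩ := exists_inj_nat K
  refine hr_induction (P := fun c => c ∈ Submodule.span ℂ _) (zero_mem _) (fun _ _ => add_mem)
    (fun p a ha => Submodule.span_mono ?_ (h.span ho p ha)) c
  rintro _ ⟨k, u, -, e, -, -, rfl⟩
  exact ⟨u, e, rfl⟩

open Classical in
theorem LD.split (D : LD B μ K) {o : K → ℕ} (ho : Injective o) (a : K) :
    D.n a = (Finset.univ.filter fun b => D.cl a b ∧ o a < o b).card +
      (Finset.univ.filter fun b => D.cl b a ∧ o b < o a).card + 1 := by
  rw [D.n_eq, ← Finset.card_union_of_disjoint (Finset.disjoint_filter.2 fun b _ h h' => by omega),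
    ← Finset.card_insert_of_notMem (a := a) (by simp)]
  congr 1
  ext b
  simp only [Finset.mem_filter, Finset.mem_univ, true_and, Finset.mem_insert, Finset.mem_union]
  refine ⟨fun h => ?_, ?_⟩
  · rcases lt_trichotomy (o a) (o b) with e | e | e
    exacts [.inr (.inl ⟨h, e⟩), .inl (ho e).symm, .inr (.inr ⟨D.eqv.symm h, e⟩)]
  · rintro (rfl | h | h)
    exacts [D.eqv.refl _, h.1, D.eqv.symm h.1]

open Classical in
/-- LN, full case: polynomials of degree at most the degree of the discriminant span -/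
theorem IsLn.span_full (h : IsLn π D l) (hn : ∀ a, D.n a = D.r a) {o : K → ℕ} (ho : Injective o)
    (c : HR X) : c ∈ Submodule.span ℂ {x | ∃ u j t,
      j ≤ ∑ k, (Finset.univ.filter fun b => D.cl k b ∧ o k < o b).card ∧
        MvPolynomial.IsHomogeneous t j ∧ x = HR.pull π u * ev (fun a => (l a).x) t} := by
  refine hr_induction (P := fun c => c ∈ Submodule.span ℂ _) (zero_mem _) (fun _ _ => add_mem)
    (fun p a ha => Submodule.span_mono ?_ (h.span ho p ha)) c
  rintro _ ⟨k, u, -, e, he, -, rfl⟩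
  refine ⟨u, _, _, ?_, mono_hom e, by rw [ev_mono]⟩
  simp only [Finset.card_filter]
  rw [Finset.sum_comm]
  refine Finset.sum_le_sum fun a _ => ?_
  have h1 := he a
  have h2 := D.split ho a
  rw [← Finset.card_filter]
  rw [hn] at h2
  omega

theorem IsLn.inj_pull (h : IsLn π D l) (hn : ∀ a, D.n a ≤ D.r a) : Injective (HR.pull π) :=
  (injective_iff_map_eq_zero _).2 fun c e => ln_can _ (h.comp (Fintype.equivFin K).symm)
    (fun a => (D.n_comp _ a).trans_le (hn _)) c (by rw [e, zero_mul])

open Classical in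
/-- DCAN: the discriminant can be cancelled -/
theorem IsLn.can (h : IsLn π D l) (hn : ∀ a, D.n a = D.r a) {o : K → ℕ} (ho : Injective o)
    {c : HR B} (e : (∏ k, ∏ b with D.cl k b ∧ o k < o b, ((l b).x - (l k).x)).1 *
      HR.pull π c = 0) : c = 0 := by
  obtain ⟨s, hs⟩ := exists_sorted ho
  have h' := h.comp s
  have hn' : ∀ a, (D.comp s).n a = (D.comp s).r a := fun a => (D.n_comp _ a).trans (hn _)
  refine ln_can _ h' (fun a => (hn' a).le) c ?_
  rw [← HE_comm (Subtype.prop _), ← e]
  congr 2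
  rw [Finset.prod_comm' (t' := Finset.univ)
    (s' := fun b => Finset.univ.filter fun k => D.cl k b ∧ o k < o b) (by simp), ← s.prod_comp]
  refine Finset.prod_congr rfl fun a _ => ?_
  let S := Finset.univ.filter fun k => D.cl k (s a) ∧ o k < o (s a)
  have hS : s a ∉ S := by simp [S]
  have hc : ∀ b ∈ insert (s a) S, D.cl b (s a) := fun b hb => by
    rcases Finset.mem_insert.1 hb with rfl | hb
    exacts [D.eqv.refl _, (Finset.mem_filter.1 hb).2.1]
  rw [(h'.res (fun a => (hn' a).le) a).g_congr (Bun.sum (insert (s a) S) l fun b hb c hc' e =>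
    h.orth b c e (D.eqv.trans (hc b hb) (D.eqv.symm (hc c hc')))) (funext fun x => ?_) ?_,
    Bun.g_sum, Finset.prod_insert hS]
  · simp [Polynomial.eval_prod, S]
  · have h1 := D.split ho (s a)
    rw [LD.card_aft hs, Finset.card_insert_of_notMem hS]
    rw [hn] at h1
    change D.r (s a) - _ = _
    simp only [S]
    omega
  · rw [h'.res_Q, Bun.sum_Q, sub_eq_iff_eq_add]
    refine (h.tot_eq (hn _) x).trans ?_
    rw [IsLn.tot, Bun.sum_Q, Finset.sum_equiv (t := Finset.univ.filter fun b =>
      D.cl (s a) b ∧ o (s a) < o b) (g := fun b => (l b).Q x) s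
        (fun b => by simp [LD.mem_aft, LD.comp, hs]) fun _ _ => rfl, ← Finset.sum_union
      (Finset.disjoint_left.2 fun b hb hb' => by
        simp only [S, Finset.mem_insert, Finset.mem_filter] at hb hb'
        rcases hb with rfl | hb <;> omega)]
    congr 1
    ext b
    simp only [S, Finset.mem_filter, Finset.mem_univ, true_and, Finset.mem_insert, Finset.mem_union]
    refine ⟨fun h => ?_, ?_⟩
    · rcases lt_trichotomy (o (s a)) (o b) with e | e | e
      exacts [.inr ⟨h, e⟩, .inl (.inl (ho e).symm), .inl (.inr ⟨D.eqv.symm h, e⟩)]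
    · rintro ((rfl | h) | h)
      exacts [D.eqv.refl _, D.eqv.symm h.1, h.1]

/-- LN: no relations in low degrees -/
theorem IsLn.free [Nonempty B] (h : IsLn π D l) {n : ℕ} (hn : ∀ a, D.n a + n ≤ D.r a)
    {φ : MvPolynomial K ℂ} (hφ : φ.totalDegree ≤ n) (e : ev (fun a => (l a).x) φ = 0) : φ = 0 := by
  let s := (Fintype.equivFin K).symm
  refine MvPolynomial.rename_injective _ s.symm.injective ((ln_poly _ (h.comp s)
    (fun a => (D.n_comp _ a).trans_le (le_of_add_le_left (hn _))) _ (fun a => ?_) ?_).trans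
      (map_zero _).symm)
  · refine ((MvPolynomial.degreeOf_le_totalDegree _ _).trans
      ((MvPolynomial.totalDegree_rename_le _ _).trans hφ)).trans_lt ?_
    have h1 := (D.comp s).aft_lt a
    have h2 := hn (s a)
    rw [D.n_comp] at h1
    change n < D.r (s a) - _
    omega
  · rw [MvPolynomial.aeval_rename, show (fun a => (l (s a)).x) ∘ s.symm = fun a => (l a).x from
      funext fun a => by simp]
    exact Subtype.ext e

/-- permutations of the lines -/
theorem IsLn.act (h : IsLn π D l) {w : Equiv.Perm K} (hw : ∀ i, D.cl i (w i)) :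
    ∃ F : C(X, X), π.comp F = π ∧ ∀ a, (l a).comap F = l (w a) :=
  h.exists_lift π (fun a => l (w a)) (fun a y => by rw [D.eq _ _ (hw a)]; exact h.le _ y)
    fun a b n e => h.orth _ _ (w.injective.ne n) (D.eqv.3 (D.eqv.2 (hw a)) (D.eqv.3 e (hw b)))

/-- DESC: invariant classes come from the base -/
theorem IsLn.desc (h : IsLn π D l) (hn : ∀ a, D.n a = D.r a) {c : HR X}
    (hw : ∀ w : Equiv.Perm K, (∀ i, D.cl i (w i)) → ∃ F : C(X, X), π.comp F = π ∧
      (∀ a, (l a).comap F = l (w a)) ∧ HR.pull F c = c) : ∃ u, HR.pull π u = c := by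
  classical
  refine desc_alg (HR.pull π) (HE X).val D.eqv (fun a => (l a).x) (fun a ψ hψ => ?_) (h.span' c)
    fun w e => ?_
  · obtain ⟨u, hu⟩ := sym_mem (HE.pull π).range (fun b : {b // D.cl a b} => (l b.1).x)
      (fun j => ⟨((D.P a).g.coeff j), by
        rw [← Finset.prod_subtype (Finset.univ.filter (D.cl a)) (by simp)
          fun b => Polynomial.X - Polynomial.C (l b).x]
        exact (Polynomial.coeff_map _ j).symm.trans (congrArg (Polynomial.coeff · j)
          (((D.P a).g_comap π).symm.trans ((((D.P a).comap π).g_congr (h.tot a)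
            (funext (h.tot_eq (hn a))) (by rw [← hn, D.n_eq])).trans (Bun.g_sum _ _ _))))⟩) hψ
    exact ⟨u.1, congrArg Subtype.val hu⟩
  · obtain ⟨F, h1, h2, h3⟩ := hw w e
    exact ⟨HR.pull F, fun u => by rw [HR.pull_pull, h1],
      fun i => ((l i).pull_x_val F).trans (by rw [h2]; rfl), h3⟩

theorem IsLn.desc_ev (h : IsLn π D l) (hn : ∀ a, D.n a = D.r a) {φ : MvPolynomial K ℂ}
    (hφ : ∀ w : Equiv.Perm K, (∀ i, D.cl i (w i)) → MvPolynomial.rename w φ = φ) :
    ∃ u, HR.pull π u = ev (fun a => (l a).x) φ :=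
  h.desc hn fun w e => (h.act e).imp fun F hF => ⟨hF.1, hF.2, by
    conv_rhs => rw [← hφ w e, ev_rename]
    simp only [pull_ev, Bun.pull_x, hF.2]
    rfl⟩

theorem hr_pt [Subsingleton B] (u : HR B) : ∃ a : ℂ, u = a • 1 := by
  cases isEmpty_or_nonempty B with
  | inl _ => exact ⟨0, (HR.subsingleton (X := B)).elim _ _⟩
  | inr hB =>
    have := uniqueOfSubsingleton hB.some
    refine hr_induction (P := fun u => ∃ a : ℂ, u = a • 1) ⟨0, by simp⟩ ?_ (fun p a ha => ?_) u
    · rintro _ _ ⟨a, rfl⟩ ⟨b, rfl⟩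
      exact ⟨a + b, (add_smul _ _ _).symm⟩
    · exact (Submodule.mem_span_singleton.1 ((ptTo_unique B (p + 1)).2 p (lt_add_one _) ha)).imp
        fun _ => Eq.symm

/-- over a point every class is a polynomial -/
theorem IsLn.ev_surj [Subsingleton B] (h : IsLn π D l) : Surjective (ev fun a => (l a).x) :=
  fun c => (Submodule.span_le (p := Subalgebra.toSubmodule (ev fun a => (l a).x).range)).2 (by
    rintro _ ⟨u, e, rfl⟩
    obtain ⟨a, rfl⟩ := hr_pt u
    exact ⟨a • ∏ a, MvPolynomial.X a ^ e a, by simp [← ev_mono]⟩) (h.span' c)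

/-- FIB: over a point the invariant classes are the constants -/
theorem IsLn.fib [Subsingleton B] (h : IsLn π D l) (hn : ∀ a, D.n a = D.r a) {c : HR X}
    (hw : ∀ w : Equiv.Perm K, (∀ i, D.cl i (w i)) → ∃ F : C(X, X),
      (∀ a x, (l a).Q (F x) = (l (w a)).Q x) ∧ HR.pull F c = c) : ∃ a : ℂ, c = a • 1 := by
  obtain ⟨u, rfl⟩ := h.desc hn fun w e => (hw w e).imp fun F hF =>
    ⟨ContinuousMap.ext fun _ => Subsingleton.elim _ _, fun a => Bun.ext (funext (hF.1 a)), hF.2⟩
  obtain ⟨a, rfl⟩ := hr_pt u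
  exact ⟨a, by simp⟩

/-- the full space of orthogonal lines is not empty -/
theorem IsLn.nonempty [Nonempty B] (h : IsLn π D l) (hn : ∀ a, D.n a ≤ D.r a) : Nonempty X := by
  by_contra e
  have := not_nonempty_iff.1 e
  have := HR.nontrivial (X := B)
  exact zero_ne_one (h.inj_pull hn ((HR.subsingleton (X := X)).elim _ _))

end Pool.Agent.CS
end
end
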