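import Pool.Agent.K.MP_d34769_ag.C114
import Pool.Agent.K.MP_d34769_ag.C91
import Pool.Agent.K.MP_d34769_ag.C43

/-! Frames for spaces of orthogonal lines over a point. -/

open Set Matrix Topology

set_option linter.unusedSectionVars false

noncomputable section
namespace Pool.Agent.CS

variable {μ ν K Γ : Type} [Fintype μ] [Fintype ν] [Fintype K] [DecidableEq K] [Group Γ]

theorem yhc3_lnv (v w : μ → ℂ) : lnv v *ᵥ w = ((star v ⬝ᵥ v)⁻¹ * (star v ⬝ᵥ w)) • v := by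
  rw [lnv, smul_mulVec, vecMulVec_mulVec, op_smul_eq_smul, smul_smul]

theorem yhc3_orth {v w : μ → ℂ} (hv : v ≠ 0) (hw : w ≠ 0) :
    lnv v * lnv w = 0 ↔ star v ⬝ᵥ w = 0 := by
  rw [mul_lnv_eq_zero hw, yhc3_lnv, smul_eq_zero, or_iff_left hv, mul_eq_zero,
    or_iff_right (inv_ne_zero (star_dot_ne hv))]

theorem yhc3_diag (u : K → ℂ) (Φ : Matrix K μ ℂ) (a : K) : (diagonal u * Φ) a = u a • Φ a :=
  funext fun j => diagonal_mul u Φ a j

theorem yhc3_row (A : Matrix K K ℂ) (Φ : Matrix K μ ℂ) (a : K) : (A * Φ) a = ∑ b, A a b • Φ b :=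
  funext fun j => by rw [mul_apply, Finset.sum_apply]; rfl

namespace LD
variable (D : LD Unit μ K) (D' : LD Unit ν K)

/-- unit vectors, orthogonal inside every class -/
structure Fr (Φ : Matrix K μ ℂ) : Prop where
  le : ∀ a, (D.P a).Q () *ᵥ Φ a = Φ a
  unit : ∀ a, star (Φ a) ⬝ᵥ Φ a = 1
  orth : ∀ a b, a ≠ b → D.cl a b → star (Φ a) ⬝ᵥ Φ b = 0

variable {D D'} {Φ Ψ : Matrix K μ ℂ}

theorem Fr.ne (h : D.Fr Φ) (a : K) : Φ a ≠ 0 := fun e => by simpa [e] using h.unit a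

/-- the lines of a frame -/
def Fr.ln (h : D.Fr Φ) : Ln D :=
  ⟨((), fun a => lnv (Φ a)), fun a => ⟨OP.lnv (h.ne a), le_lnv (h.le a)⟩,
    fun a b n c => (yhc3_orth (h.ne a) (h.ne b)).2 (h.orth a b n c)⟩

theorem Fr.ln_l (h : D.Fr Φ) (a : K) : (Ln.l D a).Q h.ln = lnv (Φ a) := rfl

theorem ln_ext {x y : Ln D} (h : ∀ a, (Ln.l D a).Q x = (Ln.l D a).Q y) : x = y :=
  (Ln.isLn D).inj x y rfl h

theorem exists_fr (x : Ln D) : ∃ Φ, ∃ h : D.Fr Φ, h.ln = x := by
  choose v h1 h2 using fun a => (x.2.1 a).1.exists_vec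
  have h0 : ∀ a, v a ≠ 0 := fun a e => by simpa [e] using h1 a
  have h3 : ∀ a, lnv (v a) = x.1.2 a := fun a => by rw [lnv, h1, h2, inv_one, one_smul]
  exact ⟨v, ⟨fun a => (le_lnv_iff (h0 a)).1 (by rw [h3]; exact (x.2.1 a).2), h1,
    fun a b n c => (yhc3_orth (h0 a) (h0 b)).1 (by rw [h3, h3]; exact x.2.2 a b n c)⟩, ln_ext h3⟩

theorem Fr.ln_eq_iff (h : D.Fr Φ) (h' : D.Fr Ψ) :
    h.ln = h'.ln ↔ ∃ u : K → ℂ, (∀ a, u a ≠ 0) ∧ Ψ = diagonal u * Φ := by
  refine ⟨fun e => ?_, fun ⟨u, _, e⟩ => ln_ext fun a =>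
    (lnv_eq_iff (h.ne a) (h'.ne a)).2 ⟨u a, by rw [e, yhc3_diag]⟩⟩
  choose u hu using fun a => (lnv_eq_iff (h.ne a) (h'.ne a)).1 (congrArg (Ln.l D a).Q e)
  exact ⟨u, fun a c => h'.ne a (by rw [hu, c, zero_smul]),
    funext fun a => (hu a).trans (yhc3_diag u Φ a).symm⟩

theorem yhc3_cpt : CompactSpace {Φ // D.Fr Φ} := by
  have hc : ∀ a, Continuous fun Φ : Matrix K μ ℂ => Φ a := fun a => continuous_apply a
  refine isCompact_iff_compactSpace.1 (IsCompact.of_isClosed_subset (s := Set.pi univ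
    fun _ : K => Set.pi univ fun _ : μ => Metric.closedBall (0 : ℂ) 1) (isCompact_univ_pi fun _ =>
      isCompact_univ_pi fun _ => isCompact_closedBall _ _) ?_ fun Φ h a _ j _ => ?_)
  · have := ((isClosed_iInter fun a => isClosed_eq
      ((continuous_const (y := (D.P a).Q ())).matrix_mulVec (hc a)) (hc a)).inter
      (isClosed_iInter fun a => isClosed_eq ((hc a).star.dotProduct (hc a))
        (continuous_const (y := 1)))).inter (isClosed_iInter fun a => isClosed_iInter fun b =>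
        isClosed_iInter fun _ : a ≠ b => isClosed_iInter fun _ : D.cl a b =>
          isClosed_eq ((hc a).star.dotProduct (hc b)) (continuous_const (y := 0)))
    refine Eq.mp (congrArg IsClosed (Set.ext fun p => ?_)) this
    exact ⟨fun h => ⟨fun a => mem_iInter.1 h.1.1 a, fun a => mem_iInter.1 h.1.2 a, fun a b n c =>
      mem_iInter₂.1 (mem_iInter₂.1 h.2 a b) n c⟩, fun h => ⟨⟨mem_iInter.2 h.1, mem_iInter.2 h.2⟩,
        mem_iInter₂.2 fun a b => mem_iInter₂.2 (h.3 a b)⟩⟩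
  · have h1 := (OP.lnv (Fr.ne h a)).norm_le j j
    rw [lnv, Fr.unit h, inv_one, one_smul, vecMulVec_apply, norm_mul, Pi.star_apply,
      norm_star] at h1
    rw [mem_closedBall_zero_iff]
    nlinarith [norm_nonneg (Φ a j)]

theorem yhc3_cont {Y : Type} [TopologicalSpace Y] {F : Y → Matrix K μ ℂ} (hF : Continuous F)
    (h : ∀ y, D.Fr (F y)) : Continuous fun y => (h y).ln :=
  (continuous_const.prodMk (continuous_pi fun a => (Bun.vec (fun y => F y a)
    ((continuous_apply a).comp hF) fun y => (h y).ne a).cont)).subtype_mk _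

/-- a map on frames that does not see the phases is a map on lines -/
theorem exists_desc {Y : Type} [TopologicalSpace Y] (f : ∀ Φ, D.Fr Φ → Y)
    (hc : Continuous fun Φ : {Φ // D.Fr Φ} => f Φ.1 Φ.2)
    (hi : ∀ Φ (h : D.Fr Φ) Ψ (h' : D.Fr Ψ) (u : K → ℂ), (∀ a, u a ≠ 0) → Ψ = diagonal u * Φ →
      f Ψ h' = f Φ h) : ∃ κ : C(Ln D, Y), ∀ Φ (h : D.Fr Φ), κ h.ln = f Φ h := by
  have := yhc3_cpt (D := D)
  have hl : Continuous fun Φ : {Φ // D.Fr Φ} => Φ.2.ln := yhc3_cont continuous_subtype_val _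
  have hq := hl.isClosedMap.isQuotientMap hl fun x =>
    (exists_fr x).elim fun Φ h => h.elim fun h e => ⟨⟨Φ, h⟩, e⟩
  choose F hF e using exists_fr (D := D)
  have key : ∀ Φ (h : D.Fr Φ), f _ (hF h.ln) = f Φ h := fun Φ h => by
    obtain ⟨u, hu, e'⟩ := (h.ln_eq_iff (hF h.ln)).1 (e _).symm
    exact hi Φ h _ _ u hu e'
  exact ⟨⟨fun x => f _ (hF x), hq.continuous_iff.2 (hc.congr fun Φ => (key Φ.1 Φ.2).symm)⟩, key⟩

variable (D) in
/-- the permutations in the image of `ph` preserve the data -/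
structure Sy (ph : Γ →* Equiv.Perm K) : Prop where
  P : ∀ g a, (D.P (ph g a)).Q = (D.P a).Q
  cl : ∀ g a b, D.cl a b → D.cl (ph g a) (ph g b)

variable {ph : Γ →* Equiv.Perm K}

/-- the action on the lines -/
def Sy.ta (h : D.Sy ph) : TA Γ (Ln D) where
  t g := ⟨fun x => ⟨((), fun a => x.1.2 (ph g⁻¹ a)),
    fun a => ⟨(x.2.1 _).1, h.P g⁻¹ a ▸ (x.2.1 _).2⟩,
    fun a b n c => x.2.2 _ _ ((ph g⁻¹).injective.ne n) (h.cl g⁻¹ a b c)⟩,
    (continuous_const.prodMk (continuous_pi fun a => (Ln.l D (ph g⁻¹ a)).cont)).subtype_mk _⟩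
  one x := ln_ext fun a => congrArg x.1.2 (by rw [inv_one, map_one]; rfl)
  mul g g' x := ln_ext fun a => congrArg x.1.2 (by rw [_root_.mul_inv_rev, map_mul]; rfl)

theorem Sy.ta_l (h : D.Sy ph) (g : Γ) (x : Ln D) (a : K) :
    (Ln.l D a).Q (h.ta.t g x) = (Ln.l D (ph g⁻¹ a)).Q x := rfl

theorem Sy.fr (h : D.Sy ph) (g : Γ) (hΦ : D.Fr Φ) : D.Fr (Φ.submatrix (ph g⁻¹) id) :=
  ⟨fun a => h.P g⁻¹ a ▸ hΦ.le (ph g⁻¹ a), fun a => hΦ.unit (ph g⁻¹ a),
    fun a b n c => hΦ.orth _ _ ((ph g⁻¹).injective.ne n) (h.cl g⁻¹ a b c)⟩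

theorem Sy.ta_ln (h : D.Sy ph) (g : Γ) (hΦ : D.Fr Φ) : h.ta.t g hΦ.ln = (h.fr g hΦ).ln := rfl

/-- the classes of the lines -/
def y (D : LD Unit μ K) (a : K) : HE (Ln D) := (Ln.l D a).x

theorem y_mem (a : K) : (D.y a).1 ∈ hr (Ln D) 2 := Bun.x_mem _

theorem ev_surj (D : LD Unit μ K) : Function.Surjective (ev D.y) := (Ln.isLn D).ev_surj

theorem ev_inj {n : ℕ} (h : ∀ a, D.n a + n ≤ D.r a) :
    ∀ p ≤ n, ∀ φ : MvPolynomial K ℂ, φ.IsHomogeneous p → ev D.y φ = 0 → φ = 0 :=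
  fun _ hp _ hφ => (Ln.isLn D).free h (hφ.totalDegree_le.trans hp)

/-- isometric embeddings give a map of spaces of lines that keeps the classes -/
theorem exists_emb (J : K → Matrix μ ν ℂ)
    (h1 : ∀ Ψ, D'.Fr Ψ → D.Fr (of fun a => J a *ᵥ Ψ a)) :
    ∃ f : C(Ln D', Ln D), (∀ Ψ (h : D'.Fr Ψ), f h.ln = (h1 Ψ h).ln) ∧
      ∀ a, HE.pull f (D.y a) = D'.y a := by
  have hc : Continuous fun Ψ : Matrix K ν ℂ => (of fun a => J a *ᵥ Ψ a : Matrix K μ ℂ) :=
    continuous_pi fun a => continuous_const.matrix_mulVec (continuous_apply a)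
  obtain ⟨f, hf⟩ := exists_desc (D := D') (fun Ψ h => (h1 Ψ h).ln)
    (yhc3_cont (hc.comp continuous_subtype_val) _) fun Φ h Ψ h' u hu e =>
    (((h1 Φ h).ln_eq_iff (h1 Ψ h')).2 ⟨u, hu, funext fun a => by
      rw [yhc3_diag, e]
      exact (congrArg (J a *ᵥ ·) (yhc3_diag u Φ a)).trans (mulVec_smul _ _ _)⟩).symm
  refine ⟨f, hf, fun a => (Bun.pull_x _ f).trans ((Ln.l D' a).x_iso _ (A := fun _ => J a)
    continuous_const fun x e => ?_)⟩
  obtain ⟨Ψ, h, rfl⟩ := exists_fr x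
  rw [Bun.comap_Q, hf, Fr.ln_l, Fr.ln_l, mul_lnv_eq_zero (h.ne a), ← mulVec_mulVec] at e
  exact (h1 Ψ h).ne a ((lnv_mulVec ((h1 Ψ h).ne a)).symm.trans e)

/-- the lines `l a` that lie in the span of the `Φ b` with `b` equivalent to `a` -/
def Fr.fib (_h : D.Fr Φ) (e : K → K → Prop) : Set (Ln D) :=
  {x | ∃ (A : Matrix K K ℂ) (h' : D.Fr (A * Φ)), (∀ a b, A a b ≠ 0 → e a b) ∧ x = h'.ln}

open Classical in
/-- the data of the full flag variety spanned by a frame -/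
def Fr.full (h : D.Fr Φ) {e : K → K → Prop} (he : Equivalence e) (hle : ∀ a b, e a b → D.cl a b) :
    LD Unit μ K where
  cl := e
  eqv := he
  r a := (Finset.univ.filter (e a)).card
  P a := Bun.const Unit (OP.sum (Finset.univ.filter (e a)) (fun b _ => OP.lnv (h.ne b))
    fun b hb c hc n => (yhc3_orth (h.ne b) (h.ne c)).2 (h.orth b c n (hle b c (he.trans
      (he.symm (Finset.mem_filter.1 hb).2) (Finset.mem_filter.1 hc).2))))
  req _ _ c := congrArg Finset.card (Finset.filter_congr fun _ _ =>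
    ⟨he.trans (he.symm c), he.trans c⟩)
  eq _ _ c := funext fun _ => Finset.sum_congr (Finset.filter_congr fun _ _ =>
    ⟨he.trans (he.symm c), he.trans c⟩) fun _ _ => rfl

section full
variable (h : D.Fr Φ) {e : K → K → Prop} (he : Equivalence e) (hle : ∀ a b, e a b → D.cl a b)

theorem Fr.full_n (a : K) : (h.full he hle).n a = (h.full he hle).r a := by
  classical
  rw [LD.n, Nat.card_eq_fintype_card, Fintype.card_subtype]
  exact congrArg Finset.card (Finset.filter_congr_decidable _ _ _)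

theorem Fr.full_le {a : K} {v : μ → ℂ} : ((h.full he hle).P a).Q () *ᵥ v = v ↔
    ∃ u : K → ℂ, (∀ b, u b ≠ 0 → e a b) ∧ v = ∑ b, u b • Φ b := by
  classical
  have e1 : ∀ w, ((h.full he hle).P a).Q () *ᵥ w =
      ∑ b, (if e a b then star (Φ b) ⬝ᵥ w else 0) • Φ b := fun w => by
    refine (sum_mulVec _ _ _).trans ?_
    rw [Finset.sum_filter]
    refine Finset.sum_congr rfl fun b _ => ?_
    split_ifs
    · rw [yhc3_lnv, h.unit, inv_one, one_mul]
    · rw [zero_smul]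
  refine ⟨fun c => ⟨_, fun b n => by_contra fun d => n (if_neg d), c.symm.trans (e1 v)⟩, ?_⟩
  rintro ⟨u, hu, rfl⟩
  rw [e1]
  refine Finset.sum_congr rfl fun b _ => congrArg (· • Φ b) ?_
  split_ifs with c
  · rw [dotProduct_sum, Finset.sum_eq_single b, dotProduct_smul, h.unit, smul_eq_mul, mul_one]
    · intro d _ n
      by_cases z : u d = 0
      · rw [z, zero_smul, dotProduct_zero]
      · rw [dotProduct_smul, h.orth b d n.symm (hle _ _ (he.trans (he.symm c) (hu d z))), smul_zero]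
    · exact fun n => (n (Finset.mem_univ b)).elim
  · exact (by_contra fun n => c (hu b n) : u b = 0).symm

theorem Fr.full_fr (h' : (h.full he hle).Fr Ψ) : D.Fr Ψ := by
  choose u hu e1 using fun a => (h.full_le he hle).1 (h'.le a)
  refine ⟨fun a => ?_, h'.unit, fun a b n c => ?_⟩
  · rw [e1, mulVec_sum]
    refine Finset.sum_congr rfl fun b _ => ?_
    by_cases z : u a b = 0
    · rw [z, zero_smul, mulVec_zero]
    · rw [mulVec_smul, D.eq a b (hle _ _ (hu a b z)), h.le]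
  · by_cases d : e a b
    · exact h'.orth a b n d
    · rw [e1 a, e1 b, star_sum, sum_dotProduct]
      refine Finset.sum_eq_zero fun a' _ => ?_
      rw [dotProduct_sum]
      refine Finset.sum_eq_zero fun b' _ => ?_
      rw [star_smul, smul_dotProduct, dotProduct_smul]
      by_cases z : u a a' = 0
      · rw [z, star_zero, zero_smul]
      by_cases z' : u b b' = 0
      · rw [z', zero_smul, smul_zero]
      rw [h.orth a' b' (fun q => d (he.trans (hu a a' z) (he.symm (q ▸ hu b b' z'))))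
        (D.eqv.trans (D.eqv.symm (hle _ _ (hu a a' z))) (D.eqv.trans c (hle _ _ (hu b b' z')))),
        smul_zero, smul_zero]

theorem Fr.full_emb : ∃ j : C(Ln (h.full he hle), Ln D), Function.Injective j ∧
    range j = h.fib e ∧ ∀ x a, (Ln.l D a).Q (j x) = (Ln.l _ a).Q x := by
  obtain ⟨j, hj⟩ := exists_desc (D := h.full he hle) (fun Ψ h' => (h.full_fr he hle h').ln)
    (yhc3_cont continuous_subtype_val _) fun Φ' h1 Ψ h2 u hu e =>
      ((Fr.ln_eq_iff _ _).2 ⟨u, hu, e⟩).symm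
  have h3 : ∀ x a, (Ln.l D a).Q (j x) = (Ln.l _ a).Q x := fun x a => by
    obtain ⟨Ψ, h', rfl⟩ := exists_fr x
    rw [hj]; rfl
  refine ⟨j, fun x x' q => ln_ext fun a => by rw [← h3, q, h3], Set.ext fun x => ⟨?_, ?_⟩, h3⟩
  · rintro ⟨x, rfl⟩
    obtain ⟨Ψ, h', rfl⟩ := exists_fr x
    choose u hu e1 using fun a => (h.full_le he hle).1 (h'.le a)
    obtain rfl : Ψ = of u * Φ := funext fun a => (e1 a).trans (yhc3_row (of u) Φ a).symm
    exact ⟨of u, _, hu, hj _ h'⟩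
  · rintro ⟨A, h', hA, rfl⟩
    exact ⟨Fr.ln ⟨fun a => (h.full_le he hle).2 ⟨A a, hA a, yhc3_row A Φ a⟩, h'.unit,
      fun a b n c => h'.orth a b n (hle a b c)⟩, hj _ _⟩

end full

/-- invariant classes on a full flag variety are constant -/
theorem Fr.fib_const (h : D.Fr Φ) (hS : D.Sy ph) {e : K → K → Prop} (he : Equivalence e)
    (hle : ∀ a b, e a b → D.cl a b)
    (hw : ∀ w : Equiv.Perm K, (∀ a, e a (w a)) → ∃ g, ph g = w) {n : ℤ} {c : AS (Ln D)}
    (hc : c ∈ (CP (h.fib e) ∅).Z n)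
    (hi : ∀ g, (∀ a, e a (ph g a)) → AS.pull (hS.ta.t g) c = c) :
    ∃ a : ℂ, c - a • 1 ∈ (CP (h.fib e) ∅).B n := by
  obtain ⟨j, hj, hr, hl⟩ := h.full_emb he hle
  rw [← hr] at hc ⊢
  have q := (AS.taut_range0 j.continuous hj).inj n
  have h1 : AS.pull j c ∈ (CC _).Z n := by
    simpa using (mor_pl j (fun x _ => mem_range_self x) (mapsTo_empty _ _)).mem_Z hc
  obtain ⟨a, ha⟩ := (Ln.isLn _).fib (h.full_n he hle) (c := CS.cl (AS.pull j c)) fun w d => by
    have d' : ∀ a, e a (w⁻¹ a) := fun a => he.symm (by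
      have := d (w⁻¹ a)
      rwa [show w (w⁻¹ a) = a from w.apply_symm_apply a] at this)
    obtain ⟨g, hg⟩ := hw w⁻¹ d'
    have hg' : ph g⁻¹ = w := by rw [map_inv, hg, inv_inv]
    obtain ⟨α, -, hα⟩ := (Ln.isLn (h.full he hle)).act d
    have hα' : ∀ a x, (Ln.l _ a).Q (α x) = (Ln.l _ (w a)).Q x := fun a x =>
      congrFun (congrArg Bun.Q (hα a)) x
    refine ⟨α, hα', ?_⟩
    have : j ∘ α = hS.ta.t g ∘ j := funext fun x => ln_ext fun a =>
      (hl _ a).trans ((hα' a x).trans ((hl x _).symm.trans (by rw [← hg']; rfl)))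
    rw [pull_cl α (Z_Zc h1), AS.pull_pull, this, ← AS.pull_pull, hi g (hg ▸ d')]
  by_cases hn : n = 0
  · subst hn
    have h2 : ∀ {X : Type} [TopologicalSpace X] [CompactSpace X] [T2Space X] (A : Set X),
        a • (1 : AS X) ∈ (CP A ∅).Z 0 := fun A => Submodule.smul_mem _ a
      (AS.mem_cp_Z.2 ⟨⟨AS.one_mem_G, by simp⟩, by simp [AS.d_one]⟩)
    refine ⟨a, q _ (sub_mem hc (h2 _)) ?_⟩
    rw [← cl_one, ← cl_smul, cl_eq h1 (h2 _)] at ha
    simpa using ha
  · refine ⟨0, ?_⟩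
    rw [zero_smul, sub_zero]
    refine q c hc ?_
    simpa using (cl_eq_zero h1).1 (hr_disj (cl_mem_hr h1)
      (ha ▸ Submodule.smul_mem _ a one_mem_hr) hn)

end LD

end Pool.Agent.CS
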