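import Pool.Agent.K.MP_d34769_ag.C121

/-! Existence of the normal form, and uniqueness of the decomposition. -/

open Matrix Classical

noncomputable section
namespace Pool.Agent.CS

variable {I : Type} [Fintype I] [DecidableEq I]

namespace Dat
variable {D : Dat I} {k : ℕ} {ρ : Rp I}

/-- mutually inverse intertwiners between the parts on `F` and `G` -/
structure E8Is (D : Dat I) (ρ : Rp I) (F G : Set I) (x y : Matrix I I ℂ) : Prop where
  l1 : x ∈ D.base.Lie
  l2 : y ∈ D.base.Lie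
  i1 : ∀ c, x * ρ c = ρ c * x
  i2 : ∀ c, y * ρ c = ρ c * y
  e1 : y * x = pr F
  e2 : x * y = pr G
  s1 : x * pr F = x
  s2 : y * pr G = y

namespace E8Is
variable {F G H : Set I} {x y x' y' : Matrix I I ℂ}

lemma symm (h : D.E8Is ρ F G x y) : D.E8Is ρ G F y x :=
  ⟨h.l2, h.l1, h.i2, h.i1, h.e2, h.e1, h.s2, h.s1⟩

lemma trans (h : D.E8Is ρ F G x y) (h' : D.E8Is ρ G H x' y') :
    D.E8Is ρ F H (x' * x) (y * y') where
  l1 := mul_mem_Lie h'.l1 h.l1
  l2 := mul_mem_Lie h.l2 h'.l2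
  i1 c := by rw [Matrix.mul_assoc, h.i1, ← Matrix.mul_assoc, h'.i1, Matrix.mul_assoc]
  i2 c := by rw [Matrix.mul_assoc, h'.i2, ← Matrix.mul_assoc, h.i2, Matrix.mul_assoc]
  e1 := by rw [Matrix.mul_assoc, ← Matrix.mul_assoc y', h'.e1, ← Matrix.mul_assoc, h.s2, h.e1]
  e2 := by rw [Matrix.mul_assoc, ← Matrix.mul_assoc x, h.e2, ← Matrix.mul_assoc, h'.s1, h'.e2]
  s1 := by rw [Matrix.mul_assoc, h.s1]
  s2 := by rw [Matrix.mul_assoc, h'.s2]

lemma t1 (h : D.E8Is ρ F G x y) : pr G * x = x := by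
  rw [← h.e2, Matrix.mul_assoc, h.e1, h.s1]

lemma supp (h : D.E8Is ρ F G x y) {i j : I} (h0 : x i j ≠ 0) : i ∈ G ∧ j ∈ F := by
  refine ⟨by_contra fun hn => h0 ?_, by_contra fun hn => h0 ?_⟩
  · rw [← h.t1, pr_mul_apply, if_neg hn]
  · rw [← h.s1, mul_pr_apply, if_neg hn]

lemma perm (h : D.E8Is ρ F G x y) (hd : F = G ∨ Disjoint F G) :
    ∃ w : Equiv.Perm I, ∀ j, (j ∈ F ↔ w j ∈ G) ∧ (j ∈ F → D.cc (w j) j) := by
  rcases hd with rfl | hd
  · exact ⟨1, fun j => ⟨Iff.rfl, fun _ => D.cc_eq.refl j⟩⟩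
  have hd' := Set.disjoint_left.1 hd
  have z : ∀ {A B : Set I}, A ∩ B = ∅ → pr A * pr B = 0 := fun {A B} e => by
    rw [pr_mul_pr, e]; ext i j; simp [pr]
  have z1 : x * x = 0 := by
    calc x * x = x * pr F * (pr G * x) := by rw [h.s1, h.t1]
      _ = 0 := by rw [Matrix.mul_assoc, ← Matrix.mul_assoc (pr F), z hd.inter_eq]; simp
  have z2 : y * y = 0 := by
    calc y * y = y * pr G * (pr F * y) := by rw [h.s2, h.symm.t1]
      _ = 0 := by rw [Matrix.mul_assoc, ← Matrix.mul_assoc (pr G), z hd.symm.inter_eq]; simp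
  have z3 : x * pr (F ∪ G)ᶜ = 0 := by
    rw [← h.s1, Matrix.mul_assoc, z (by ext i; simp; tauto), Matrix.mul_zero]
  have z4 : y * pr (F ∪ G)ᶜ = 0 := by
    rw [← h.s2, Matrix.mul_assoc, z (by ext i; simp; tauto), Matrix.mul_zero]
  have z5 : pr (F ∪ G)ᶜ * x = 0 := by
    rw [← h.t1, ← Matrix.mul_assoc, z (by ext i; simp), Matrix.zero_mul]
  have z6 : pr (F ∪ G)ᶜ * y = 0 := by
    rw [← h.symm.t1, ← Matrix.mul_assoc, z (by ext i; simp; tauto), Matrix.zero_mul]
  have hM : (x + y + pr (F ∪ G)ᶜ) * (x + y + pr (F ∪ G)ᶜ) = 1 := by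
    simp only [Matrix.add_mul, Matrix.mul_add, z1, z2, z3, z4, z5, z6, h.e1, h.e2, pr_mul_pr,
      Set.inter_self, add_zero, zero_add]
    ext i j
    by_cases hij : i = j
    · subst hij
      by_cases h1 : i ∈ F <;> by_cases h2 : i ∈ G <;> simp [pr, h1, h2]
      exact hd' h1 h2
    · simp [pr, hij]
  obtain ⟨w, hw⟩ := exists_perm (isUnit_det_of_right_inverse hM)
  have key : ∀ j, j ∈ F ∨ w j ∈ G → x (w j) j ≠ 0 := by
    intro j hj h0
    apply hw j
    have a1 : y (w j) j = 0 := by_contra fun h1 =>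
      hj.elim (fun a => hd' a (h.symm.supp h1).2) fun a => hd' (h.symm.supp h1).1 a
    have a2 : pr (F ∪ G)ᶜ (w j) j = 0 := by
      by_cases h2 : w j = j
      · rw [h2] at hj ⊢
        simpa [pr] using fun a => hj.resolve_left a
      · simp [pr, h2]
    rw [Matrix.add_apply, Matrix.add_apply, h0, a1, a2, add_zero, add_zero]
  exact ⟨w, fun j => ⟨⟨fun a => (h.supp (key j (Or.inl a))).1, fun a =>
    (h.supp (key j (Or.inr a))).2⟩, fun a => by_contra fun hn => key j (Or.inl a) (h.l1 _ _ hn)⟩⟩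

end E8Is

lemma e8_pr_comm {s : I → Fin k} (hb : ∀ a i j, s i ≠ s j → ρ a i j = 0) (a : Fin k) (c : Fin 3) :
    pr {i | s i = a} * ρ c = ρ c * pr {i | s i = a} :=
  ye2_pr_comm fun i j hn => hb c i j fun e => hn (by simp [e])

lemma e8_is {s : I → Fin k} (h : D.Slot s) (hb : ∀ a i j, s i ≠ s j → ρ a i j = 0)
    (hs : ∀ a, D.StbOn ρ {i | s i = a}) {x : Matrix I I ℂ} (hx : x ∈ D.base.Lie)
    (hi : ∀ c, x * ρ c = ρ c * x) {i j : I} (h0 : x i j ≠ 0) :
    ∃ x y, D.E8Is ρ {l | s l = s j} {l | s l = s i} x y := by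
  set F := {l | s l = s j}
  set G := {l | s l = s i}
  have hA : ∀ a, D.A ρ (sp {l | s l = a}) := fun a =>
    ⟨sub_sp.2 fun c i j hi hj => hb c i j fun e => hi (e.trans hj), h.wt_pre {a}⟩
  set z := pr G * x * pr F with hz
  have l1 : z ∈ D.base.Lie :=
    mul_mem_Lie (mul_mem_Lie (D.base.pr_mem_Lie _) hx) (D.base.pr_mem_Lie _)
  have i1 : ∀ c, z * ρ c = ρ c * z := fun c => by
    rw [hz, Matrix.mul_assoc, e8_pr_comm hb, ← Matrix.mul_assoc, Matrix.mul_assoc _ x, hi,
      ← Matrix.mul_assoc, e8_pr_comm hb]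
    simp only [Matrix.mul_assoc]
    rfl
  have s1 : z * pr F = z := by rw [hz, Matrix.mul_assoc, pr_mul_pr, Set.inter_self]
  have t1 : pr G * z = z := by
    rw [hz, ← Matrix.mul_assoc, ← Matrix.mul_assoc, pr_mul_pr, Set.inter_self]
  obtain ⟨a1, a2⟩ := schur_on (hA (s j)) (hA (s i)) (hs _) (hs _) l1 i1
    (map_sp_le.2 fun a b ha _ => by rw [← t1, pr_mul_apply, if_neg ha]) (fun e => by
      have := map_sp_le.1 (e.trans sp_empty.symm).le i j id rfl
      rw [hz, mul_pr_apply, pr_mul_apply, if_pos (show j ∈ F from rfl),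
        if_pos (show i ∈ G from rfl)] at this
      exact h0 this)
  have a3 : ∀ M : Matrix I I ℂ, z * M = 0 → pr F * M = M → M = 0 := by
    intro M b1 b2
    ext a b
    have : (fun a => M a b) ∈ LinearMap.ker z.mulVecLin ⊓ sp F :=
      ⟨funext fun l => congrFun (congrFun b1 l) b,
        mem_sp.2 fun l hl => by rw [← b2, pr_mul_apply, if_neg hl]⟩
    rw [a1] at this
    exact congrFun ((Submodule.mem_bot ℂ).1 this) a
  have a4 : ∀ b, ∃ v ∈ sp F, z *ᵥ v = fun a => pr G a b := fun b => by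
    have : (fun a => pr G a b) ∈ (sp F).map z.mulVecLin := by
      rw [a2]
      refine mem_sp.2 fun l hl => ?_
      rw [← Matrix.mul_one (pr G), pr_mul_apply, if_neg hl]
    exact this
  choose v hv hv' using a4
  let y : Matrix I I ℂ := of fun a b => v b a
  have e2 : z * y = pr G := Matrix.ext fun a b => congrFun (hv' b) a
  have t2 : pr F * y = y := Matrix.ext fun a b => by
    rw [pr_mul_apply]
    split_ifs with hh
    · rfl
    · exact (mem_sp.1 (hv b) a hh).symm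
  have e1 : y * z = pr F := sub_eq_zero.1 (a3 _
    (by rw [Matrix.mul_sub, ← Matrix.mul_assoc, e2, t1, s1, sub_self])
    (by rw [Matrix.mul_sub, ← Matrix.mul_assoc, t2, pr_mul_pr, Set.inter_self]))
  have s2 : y * pr G = y := by rw [← e2, ← Matrix.mul_assoc, e1, t2]
  have com : ∀ M : Matrix I I ℂ, z * M = M * z → pr F * M = M * pr F → pr G * M = M * pr G →
      y * M = M * y := fun M b1 b2 b3 => by
    calc y * M = y * (M * (z * y)) := by rw [e2, ← b3, ← Matrix.mul_assoc, s2]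
      _ = M * y := by
        rw [← Matrix.mul_assoc M, ← b1, ← Matrix.mul_assoc, ← Matrix.mul_assoc, e1, b2,
          Matrix.mul_assoc, t2]
  refine ⟨z, y, l1, fun a b hn => ?_, i1, fun c => com _ (i1 c) (e8_pr_comm hb _ c)
    (e8_pr_comm hb _ c), e1, e2, s1, s2⟩
  have := com (pr {l | D.cc a l}) (ye2_pr_comm fun p q hpq => l1 p q fun e => hpq
    ⟨fun e' => D.cc_eq.trans e' e, fun e' => D.cc_eq.trans e' (D.cc_eq.symm e)⟩).symm
    (by rw [pr_mul_pr, pr_mul_pr, Set.inter_comm]) (by rw [pr_mul_pr, pr_mul_pr, Set.inter_comm])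
  have := congrFun (congrFun this a) b
  rw [mul_pr_apply, pr_mul_apply, if_neg (show b ∉ {l | D.cc a l} from hn),
    if_pos (show a ∈ {l | D.cc a l} from D.cc_eq.refl a)] at this
  exact this.symm

lemma e8_stbOn {F : Set I} (h : D.StbOn ρ F) {g : Matrix I I ℂ} (hg : g ∈ D.base.P)
    (hF' : ∀ i j, i ∉ F → j ∈ F → g⁻¹ i j = 0) :
    D.StbOn (actR g ρ) F := by
  refine ⟨h.1, fun U hU h1 h2 h3 => ?_⟩
  have hi := inv_mem_P hg
  have hinj : Function.Injective g⁻¹.mulVecLin :=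
    Matrix.mulVec_injective_iff_isUnit.2 ((isUnit_iff_isUnit_det _).2 hi.2)
  have h4 := (sub_act hi).2 hU
  rw [actR_inv hg.2] at h4
  rw [← wt_act hi hU.cg]
  refine h.2 _ h4 ((Submodule.map_mono h1).trans (map_sp_le.2 hF'))
    (fun e => h2 (Submodule.map_injective_of_injective hinj (by rw [e, Submodule.map_bot])))
    fun e => h3 (le_antisymm h1 fun v hv => ?_)
  have h5 : g⁻¹ *ᵥ v ∈ U.map g⁻¹.mulVecLin := e ▸ map_sp_le.2 hF' ⟨v, hv, rfl⟩
  obtain ⟨u, hu, h6⟩ := h5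
  exact hinj (a₁ := u) (a₂ := v) h6 ▸ hu

/-- a direct sum of stable blocks is brought to normal form inside the blocks -/
theorem exists_pol_of_blocks {s : I → Fin k} (h : D.Slot s) (hρ : ρ ∈ D.base.R)
    (hb : ∀ a i j, s i ≠ s j → ρ a i j = 0) (hs : ∀ a, D.StbOn ρ {i | s i = a}) :
    ∃ S : D.Pol k, S.slot = s ∧ ∃ g ∈ D.base.P, (∀ i j, s i ≠ s j → g i j = 0) ∧
      actR g ρ = S.P0 := by
  let st : Setoid (Fin k) := ⟨fun a b => ∃ x y, D.E8Is ρ {i | s i = a} {i | s i = b} x y,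
    fun a => ⟨_, _, D.base.pr_mem_Lie _, D.base.pr_mem_Lie _, e8_pr_comm hb a, e8_pr_comm hb a,
      by rw [pr_mul_pr, Set.inter_self], by rw [pr_mul_pr, Set.inter_self],
      by rw [pr_mul_pr, Set.inter_self], by rw [pr_mul_pr, Set.inter_self]⟩,
    fun ⟨_, _, e⟩ => ⟨_, _, e.symm⟩, fun ⟨_, _, e⟩ ⟨_, _, e'⟩ => ⟨_, _, e.trans e'⟩⟩
  let c : Fin k → Fin k := fun a => (Quotient.mk st a).out
  have hc : ∀ a, ∃ x y, D.E8Is ρ {i | s i = a} {i | s i = c a} x y := fun a =>
    st.symm (Quotient.mk_out (s := st) a)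
  choose x y hxy using hc
  have hw := fun a => (hxy a).perm (by
    by_cases e : a = c a
    · exact Or.inl (by rw [← e])
    · exact Or.inr (Set.disjoint_left.2 fun i (h1 : s i = a) (h2 : s i = c a) =>
        e (h1.symm.trans h2)))
  choose w hw using hw
  let g : Matrix I I ℂ := of fun i j => x (s i) (w (s i) i) j
  let g' : Matrix I I ℂ := of fun i j => y (s j) i (w (s j) j)
  have hg : ∀ i j, s i ≠ s j → g i j = 0 := fun i j e => by_contra fun h0 =>
    e ((hxy (s i)).supp h0).2.symm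
  have hg' : ∀ i j, s i ≠ s j → g' i j = 0 := fun i j e => by_contra fun h0 =>
    e ((hxy (s j)).symm.supp h0).1
  have hxy0 : ∀ a b, a ≠ b → x a * y b = 0 := fun a b e => by
    ext i j
    refine Finset.sum_eq_zero fun l _ => by_contra fun h0 => e ?_
    exact ((hxy a).supp (left_ne_zero_of_mul h0)).2.symm.trans
      ((hxy b).symm.supp (right_ne_zero_of_mul h0)).1
  have hτ : ∀ i, s (w (s i) i) = c (s i) := fun i => ((hw (s i) i).1.1 rfl :)
  have hform : ∀ (M : Matrix I I ℂ), (∀ a, x a * M = M * x a) → ∀ i j, (g * M * g') i j =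
      if s i = s j then M (w (s i) i) (w (s j) j) else 0 := by
    intro M hM i j
    have : (g * M * g') i j = (x (s i) * M * y (s j)) (w (s i) i) (w (s j) j) := rfl
    rw [this, hM, Matrix.mul_assoc]
    split_ifs with e
    · rw [e, (hxy _).e2, mul_pr_apply, if_pos (show w (s j) j ∈ {i | s i = c (s j)} from hτ j)]
    · rw [hxy0 _ _ e]; simp
  have hinv : g * g' = 1 := by
    ext i j
    have := hform 1 (by simp) i j
    rw [Matrix.mul_one] at this
    rw [this]
    split_ifs with e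
    · rw [e]; simp [one_apply]
    · rw [one_apply_ne fun e' => e (congrArg s e')]
  have hgi : g⁻¹ = g' := inv_eq_right_inv hinv
  have hgP : g ∈ D.base.P := ⟨fun i j hn => (hxy (s i)).l1 _ _ fun e =>
    hn (D.cc_eq.trans (D.cc_eq.symm ((hw (s i) i).2 rfl)) e), isUnit_det_of_right_inverse hinv⟩
  have hP : ∀ a i j, actR g ρ a i j = if s i = s j then ρ a (w (s i) i) (w (s j) j) else 0 :=
    fun a i j => by rw [actR, hgi, hform _ fun b => (hxy b).i1 a]
  refine ⟨⟨s, c, fun i => w (s i) i, actR g ρ, h, fun a => ?_, hτ, fun i => (hw (s i) i).2 rfl,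
    fun i j e e' => ?_, fun b i e => ?_, actR_mem hgP hρ, fun a i j e => by rw [hP, if_neg e],
    fun a i j i' j' e1 e2 e3 e4 => by rw [hP, hP, if_pos e1, if_pos e2, e3, e4],
    fun a => e8_stbOn (hs a) hgP
      fun i j hi hj => hgi ▸ hg' i j fun e => hi (e.trans hj), fun z hz hzi i j e => ?_⟩,
    rfl, g, hgP, hg, rfl⟩
  · simp only [c, Quotient.out_eq]
  · rw [e'] at e
    exact (w _).injective e
  · have h1 : s ((w b).symm (w (s i) i)) = b :=
      (hw b _).1.2 (by rw [Equiv.apply_symm_apply]; exact (hτ i).trans e.symm)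
    exact ⟨_, h1, by simp only [h1, Equiv.apply_symm_apply]⟩
  · have h1 := (actR_eq_iff hgP.2 (ρ := ρ)).1 rfl
    have h2 : g' * g = 1 := mul_eq_one_comm.1 hinv
    have h3 : ∀ a, g' * actR g ρ a = ρ a * g' := fun a => by
      rw [actR, hgi, ← Matrix.mul_assoc, ← Matrix.mul_assoc, h2, Matrix.one_mul]
    have h4 : ∀ l l', (g' * z * g) l l' ≠ 0 → c (s l) = c (s l') := fun l l' h0 =>
      congrArg Quotient.out (Quotient.sound (s := st) (st.symm (e8_is h hb hs
        (mul_mem_Lie (mul_mem_Lie (hgi ▸ inv_mem_Lie hgP.1) hz) hgP.1) (fun a => by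
          rw [Matrix.mul_assoc, h1, ← Matrix.mul_assoc, Matrix.mul_assoc g', hzi,
            ← Matrix.mul_assoc, h3]
          simp only [Matrix.mul_assoc]) h0)))
    have h5 : z = g * (g' * z * g) * g' := by
      simp only [← Matrix.mul_assoc, hinv, Matrix.one_mul]
      rw [Matrix.mul_assoc, hinv, Matrix.mul_one]
    by_contra h0
    rw [h5] at h0
    exact e (e4_mul (e := fun i j => c (s i) = c (s j)) (fun _ _ _ => Eq.trans)
      (e4_mul (e := fun i j => c (s i) = c (s j)) (fun _ _ _ => Eq.trans)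
        (fun i j h0 => congrArg c (by_contra fun e => h0 (hg i j e))) h4)
      (fun i j h0 => congrArg c (by_contra fun e => h0 (hg' i j e))) i j h0)

/-- STR -/
theorem exists_pol (hρ : ρ ∈ D.base.R) (hs : D.SS D.th ρ) (h1 : D.N k ρ) (h2 : ¬ D.N (k + 1) ρ) :
    ∃ S : D.Pol k, S.P0 ∈ D.ps ρ ∧ D.Sim ρ S.P0 := by
  obtain ⟨s, h3, u, hu, h4, h5⟩ := exists_jh hs h1 h2
  have huP := D.K_le hu
  obtain ⟨S, -, g, hg, -, h6⟩ := exists_pol_of_blocks h3 (ρ := gr (le s) (actR u ρ))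
    (fun a i j hn => by rw [gr_le, actR_mem huP hρ a i j hn, ite_self])
    (fun a i j e => by rw [gr_le, if_neg e]) h5
  have h7 : D.Sim ρ S.P0 := (Iso.sim ⟨u, huP, rfl⟩).trans
    ((sim_gr (hs.act huP) h3.toBal h4).trans (Iso.sim ⟨g, hg, h6⟩))
  exact ⟨S, h7 ▸ S.sem.mem_ps, h7⟩

/-- uniqueness of the decomposition into `k` blocks -/
theorem Pol.uniq (S : D.Pol k) {s : I → Fin k} (h : D.Slot s)
    (hb : ∀ a i j, s i ≠ s j → ρ a i j = 0) (hi : D.Iso S.P0 ρ) :
    ∃ σ : Equiv.Perm (Fin k), ∃ w : Equiv.Perm I, (∀ i, D.cc (w i) i ∧ s (w i) = σ (S.slot i)) ∧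
      ∃ g ∈ D.base.P, (∀ i j, s i ≠ σ (S.slot j) → g i j = 0) ∧ actR g S.P0 = ρ := by
  obtain ⟨g, hg, h1⟩ := hi
  have h2 := (actR_eq_iff hg.2).1 h1
  have h3 : ∀ c, g⁻¹ * ρ c = S.P0 c * g⁻¹ := fun c => by
    rw [← h1, actR, ← Matrix.mul_assoc, ← Matrix.mul_assoc, nonsing_inv_mul _ hg.2, Matrix.one_mul]
  have hA : ∀ a, ∃ A, S.Blk A ∧ g⁻¹ * pr {i | s i = a} * g = S.ten A := fun a =>
    S.exists_ten (mul_mem_Lie (mul_mem_Lie (inv_mem_Lie hg.1) (D.base.pr_mem_Lie _)) hg.1)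
      fun c => by
        rw [Matrix.mul_assoc, h2, ← Matrix.mul_assoc, Matrix.mul_assoc g⁻¹, e8_pr_comm hb,
          ← Matrix.mul_assoc, h3]
        simp only [Matrix.mul_assoc]
  choose A hA hA' using hA
  have hgA : ∀ a, g * S.ten (A a) = pr {i | s i = a} * g := fun a => by
    rw [← hA', ← Matrix.mul_assoc, ← Matrix.mul_assoc, mul_nonsing_inv _ hg.2, Matrix.one_mul]
  have hsum : ∑ a, A a = 1 := by
    refine S.ten_inj (fun a b e => ?_) (fun a b e => one_apply_ne fun e' => e (congrArg S.c e')) ?_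
    · rw [Matrix.sum_apply]
      exact Finset.sum_eq_zero fun l _ => hA l a b e
    · have a1 : S.ten (∑ a, A a) = ∑ a, S.ten (A a) := by
        ext i j
        simp only [Pol.ten, of_apply, Matrix.sum_apply]
        split_ifs <;> simp
      have a2 : ∑ a, pr {i | s i = a} = (1 : Matrix I I ℂ) := by
        ext i j
        simp only [Matrix.sum_apply, pr, diagonal_apply, one_apply, Set.mem_ofPred_eq]
        split_ifs
        · exact (Finset.sum_eq_single (s i) (fun b _ hb => if_neg hb.symm)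
            fun e => absurd (Finset.mem_univ _) e).trans (if_pos rfl)
        · simp
      rw [a1, S.ten_one]
      simp only [← hA', ← Finset.sum_mul, ← Finset.mul_sum, a2, Matrix.mul_one,
        nonsing_inv_mul _ hg.2]
  have hdet : ∑ φ : Fin k → Fin k, (of fun a b => A (φ b) a b).det = 1 := by
    have := (detRowAlternating (n := Fin k) (R := ℂ)).toMultilinearMap.map_sum
      fun b a => (A a)ᵀ b
    simp only [← det_transpose (of _)]
    refine this.symm.trans ?_
    have a1 : (fun b => ∑ a, (A a)ᵀ b) = (1 : Matrix (Fin k) (Fin k) ℂ) := by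
      rw [← transpose_one, ← hsum]
      funext b a
      simp [Matrix.sum_apply, Finset.sum_apply]
    rw [a1]
    exact det_one
  obtain ⟨φ, -, hφ⟩ := Finset.exists_ne_zero_of_sum_ne_zero (hdet.trans_ne one_ne_zero)
  set B : Matrix (Fin k) (Fin k) ℂ := of fun a b => A (φ b) a b
  have hB : S.Blk B := fun a b e => hA _ a b e
  obtain ⟨h4, h5⟩ := S.ten_fix hB (isUnit_iff_ne_zero.2 hφ)
  have h6 : ∀ i j, s i ≠ φ (S.slot j) → (g * S.ten B) i j = 0 := fun i j e => by
    have : (g * S.ten B) i j = (g * S.ten (A (φ (S.slot j)))) i j := rfl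
    rw [this, hgA, pr_mul_apply, if_neg (show i ∉ {i | s i = φ (S.slot j)} from e)]
  have h7 := mul_mem_P hg h4
  obtain ⟨w, hw⟩ := exists_perm h7.2
  have h8 : ∀ j, s (w j) = φ (S.slot j) := fun j => by_contra fun e => hw j (h6 _ _ e)
  have h9 : Function.Surjective φ := fun a => by
    obtain ⟨i, rfl⟩ := h.surj a
    exact ⟨_, (h8 (w.symm i)).symm.trans (by rw [Equiv.apply_symm_apply])⟩
  exact ⟨Equiv.ofBijective φ h9.bijective_of_finite, w,
    fun i => ⟨by_contra fun e => hw i (h7.1 _ _ e), h8 i⟩, _, h7, h6, by rw [actR_mul, h5, h1]⟩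

end Dat

end Pool.Agent.CS
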