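import Pool.Agent.K.MP_d34769_ag.C21

/-! Invariants of finite groups. -/

noncomputable section
namespace Pool.Agent.CS
variable {Γ : Type} [Group Γ] [Fintype Γ] {T T' : Type} [AddCommGroup T] [Module ℂ T]
  [AddCommGroup T'] [Module ℂ T']

/-- fixed vectors -/
def Fix (r : Γ →* Module.End ℂ T) : Submodule ℂ T := ⨅ g, LinearMap.ker (r g - 1)

/-- the average -/
def avg (r : Γ →* Module.End ℂ T) : Module.End ℂ T := (Fintype.card Γ : ℂ)⁻¹ • ∑ g, r g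

variable {r : Γ →* Module.End ℂ T} {r' : Γ →* Module.End ℂ T'} {x : T}

omit [Fintype Γ] in
theorem mem_Fix : x ∈ Fix r ↔ ∀ g, r g x = x := by
  simp [Fix, sub_eq_zero]

theorem ya3_avg (x : T) : avg r x = (Fintype.card Γ : ℂ)⁻¹ • ∑ g, r g x := by
  simp [avg, LinearMap.sum_apply]

theorem ya3_const (x : T) : (Fintype.card Γ : ℂ)⁻¹ • ∑ _g : Γ, x = x := by
  have h : (Fintype.card Γ : ℂ) ≠ 0 := Nat.cast_ne_zero.2 Fintype.card_ne_zero
  rw [Finset.sum_const, Finset.card_univ, ← Nat.cast_smul_eq_nsmul ℂ, smul_smul,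
    inv_mul_cancel₀ h, one_smul]

theorem ya3_comm {f : T →ₗ[ℂ] T'} (e : ∀ g x, f (r g x) = r' g (f x)) (x : T) :
    f (avg r x) = avg r' (f x) := by
  simp only [ya3_avg, map_smul, map_sum, e]

theorem avg_mem (x : T) : avg r x ∈ Fix r := by
  refine mem_Fix.2 fun g => ?_
  rw [ya3_avg, map_smul, map_sum]
  congr 1
  exact Fintype.sum_equiv (Equiv.mulLeft g) _ _ fun k => by simp

theorem avg_of_mem (h : x ∈ Fix r) : avg r x = x := by
  rw [ya3_avg, Finset.sum_congr rfl fun g _ => mem_Fix.1 h g, ya3_const]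

theorem range_avg : LinearMap.range (avg r) = Fix r := by
  refine le_antisymm ?_ fun x hx => ⟨x, avg_of_mem hx⟩
  rintro _ ⟨x, rfl⟩
  exact avg_mem x

theorem avg_mem_of {U : Submodule ℂ T} (h : ∀ g, r g x ∈ U) : avg r x ∈ U := by
  rw [ya3_avg]
  exact U.smul_mem _ (U.sum_mem fun g _ => h g)

theorem sub_avg_mem {U : Submodule ℂ T} (h : ∀ g, r g x - x ∈ U) : x - avg r x ∈ U := by
  have e : x - avg r x = -((Fintype.card Γ : ℂ)⁻¹ • ∑ g, (r g x - x)) := by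
    rw [Finset.sum_sub_distrib, smul_sub, ya3_const, ya3_avg, neg_sub]
  rw [e]
  exact U.neg_mem (U.smul_mem _ (U.sum_mem fun g _ => h g))

/-- the group acts on the complex -/
structure Cx.Act (C : Cx T) (r : Γ →* Module.End ℂ T) : Prop where
  d : ∀ g x, r g (C.d x) = C.d (r g x)
  G : ∀ g n, ∀ x ∈ C.G n, r g x ∈ C.G n
  N : ∀ g, ∀ x ∈ C.N, r g x ∈ C.N

namespace Cx
variable {C : Cx T} {C' : Cx T'} {n s : ℤ} {f : T →ₗ[ℂ] T'}

omit [Fintype Γ] in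
theorem Act.fix_d (h : C.Act r) : ∀ x ∈ Fix r, C.d x ∈ Fix r := fun x hx =>
  mem_Fix.2 fun g => by rw [h.d, mem_Fix.1 hx g]

/-- the invariant complex -/
abbrev Act.inv (h : C.Act r) : Cx T := C.sub (Fix r) h.fix_d

omit [Fintype Γ] in
theorem Act.mor (h : C.Act r) (g : Γ) : C.Mor C (r g) 0 :=
  ⟨fun n x hx => by rw [add_zero]; exact h.G g n x hx, fun _ x _ hx => h.N g x hx,
    fun _ x _ => by rw [h.d, sub_self]; exact C.N.zero_mem⟩

theorem Act.ya3_d (h : C.Act r) (x : T) : avg r (C.d x) = C.d (avg r x) :=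
  (ya3_comm (f := C.d) (fun g x => (h.d g x).symm) x).symm

theorem Act.ya3_B (h : C.Act r) (hx : x ∈ C.B n) : avg r x ∈ h.inv.B n := by
  obtain ⟨b, hb, e⟩ := mem_B.1 hx
  refine mem_B.2 ⟨avg r b, ⟨avg_mem_of fun g => h.G g _ b hb, avg_mem b⟩, ?_⟩
  have h1 : avg r (x - C.d b) ∈ C.N := avg_mem_of fun g => h.N g _ e
  rwa [map_sub, h.ya3_d] at h1

omit [Fintype Γ] in
theorem Act.ya3_le (h : C.Act r) (hx : x ∈ h.inv.B n) : x ∈ C.B n := by
  obtain ⟨b, hb, e⟩ := mem_B.1 hx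
  exact mem_B.2 ⟨b, hb.1, e⟩

theorem Act.mor_avg (h : C.Act r) : C.Mor h.inv (avg r) 0 :=
  ⟨fun n x hx => by rw [add_zero]; exact ⟨avg_mem_of fun g => h.G g n x hx, avg_mem x⟩,
    fun _ x _ hx => avg_mem_of fun g => h.N g x hx,
    fun _ x _ => by
      rw [h.ya3_d]
      exact (sub_self (C.d (avg r x))).symm ▸ C.N.zero_mem⟩

theorem Act.inj (h : C.Act r) (n : ℤ) : h.inv.Inj C LinearMap.id 0 n := fun x hx hb => by
  rw [add_zero] at hb
  exact avg_of_mem hx.1.2 ▸ h.ya3_B hb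

theorem Act.exists_inv (h : C.Act r) (hx : x ∈ C.Z n) (e : ∀ g, r g x - x ∈ C.B n) :
    avg r x ∈ h.inv.Z n ∧ x - avg r x ∈ C.B n :=
  ⟨by simpa using h.mor_avg.mem_Z hx, sub_avg_mem e⟩

theorem Act.ac (h : C.Act r) (a : C.Ac n) : h.inv.Ac n := fun x hx =>
  avg_of_mem (x := x) hx.1.2 ▸ h.ya3_B (a ⟨hx.1.1, hx.2⟩)

omit [Fintype Γ] in
theorem Act.mor_inv (h : C.Act r) (h' : C'.Act r') (hf : C.Mor C' f s)
    (e : ∀ g x, f (r g x) = r' g (f x)) : h.inv.Mor h'.inv f s :=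
  ⟨fun n x hx => ⟨hf.fG n x hx.1, mem_Fix.2 fun g => by rw [← e, mem_Fix.1 hx.2 g]⟩,
    fun n x hx => hf.fN n x hx.1, fun n x hx => hf.fd n x hx.1⟩

theorem Act.inj_inv (h : C.Act r) (h' : C'.Act r') (i : C.Inj C' f s n) :
    h.inv.Inj h'.inv f s n := fun x hx hb =>
  avg_of_mem (x := x) hx.1.2 ▸ h.ya3_B (i x ⟨hx.1.1, hx.2⟩ (h'.ya3_le hb))

theorem Act.sur_inv (h : C.Act r) (h' : C'.Act r') (hf : C.Mor C' f s)
    (e : ∀ g x, f (r g x) = r' g (f x)) (u : C.Sur C' f s n) : h.inv.Sur h'.inv f s n := by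
  intro y hy
  obtain ⟨x, hx, hb⟩ := u y ⟨hy.1.1, hy.2⟩
  refine ⟨avg r x, by simpa using h.mor_avg.mem_Z hx, ?_⟩
  have h1 := h'.ya3_B hb
  rwa [map_sub, avg_of_mem hy.1.2, ← ya3_comm e] at h1

theorem Act.qi_inv (h : C.Act r) (h' : C'.Act r') (hf : C.Mor C' f s)
    (e : ∀ g x, f (r g x) = r' g (f x)) (q : C.QI C' f s n) : h.inv.QI h'.inv f s n :=
  ⟨fun k hk => h.inj_inv h' (q.1 k hk), fun k hk => h.sur_inv h' hf e (q.2 k hk)⟩

end Cx

/-- the group acts on the soft complex, over the base -/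
structure SC.Act {B : Type} [TopologicalSpace B] (S : SC B T) (r : Γ →* Module.End ℂ T) : Prop where
  d : ∀ g x, r g (S.d x) = S.d (r g x)
  G : ∀ g n, ∀ x ∈ S.G n, r g x ∈ S.G n
  z : ∀ g t, ∀ x ∈ S.z t, r g x ∈ S.z t

namespace SC
variable {B : Type} [TopologicalSpace B] {S : SC B T}

omit [Fintype Γ] in
theorem Act.cx (h : S.Act r) (K A : Set B) : (S.cx K A).Act r :=
  ⟨h.d, fun g n x hx => ⟨h.G g n x hx.1, S.mem_zz.2 fun t ht => h.z g t x (S.mem_zz.1 hx.2 t ht)⟩,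
    fun g x hx => S.mem_zz.2 fun t ht => h.z g t x (S.mem_zz.1 hx t ht)⟩

theorem Act.ya3_d (h : S.Act r) (x : T) : avg r (S.d x) = S.d (avg r x) :=
  (ya3_comm (f := S.d) (fun g x => (h.d g x).symm) x).symm

theorem Act.ya3_mor (h : S.Act r) : S.Mor S (avg r) 0 :=
  ⟨fun n x hx => by rw [add_zero]; exact avg_mem_of fun g => h.G g n x hx,
    fun t x hx => avg_mem_of fun g => h.z g t x hx,
    fun t x => by rw [h.ya3_d, sub_self]; exact (S.z t).zero_mem⟩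

/-- the invariant soft complex -/
def Act.inv (h : S.Act r) : SC B T :=
  S.cut (avg r) (fun x => avg_of_mem (avg_mem x)) h.ya3_mor h.ya3_d

theorem ya3_ext {C C' : Cx T} (h1 : C.d = C'.d) (h2 : C.G = C'.G) (h3 : C.N = C'.N) : C = C' := by
  cases C
  cases C'
  cases h1
  cases h2
  cases h3
  rfl

theorem Act.inv_cx (h : S.Act r) (K A : Set B) : h.inv.cx K A = (h.cx K A).inv := by
  refine ya3_ext rfl (funext fun n => ?_) rfl
  show S.G n ⊓ LinearMap.range (avg r) ⊓ S.zz A = S.G n ⊓ S.zz A ⊓ Fix r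
  rw [range_avg, inf_right_comm]

theorem Act.inv_G (h : S.Act r) (n : ℤ) : h.inv.G n = S.G n ⊓ Fix r := by
  rw [← range_avg]
  rfl

end SC

end Pool.Agent.CS
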