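import Pool.Agent.K.MP_d34769_ag.C124
import Pool.Agent.K.MP_d34769_ag.C29

-- part Pool.Agent.P.MP_d34769_ag.YO1
section

/-! Invariant cochains are determined on a fundamental set. -/

open Set Topology

set_option linter.unusedSectionVars false

noncomputable section
namespace Pool.Agent.CS

/-- excision -/
theorem exc_YO {Y Z : Type} [TopologicalSpace Y] [CompactSpace Y] [T2Space Y] [TopologicalSpace Z]
    [CompactSpace Z] [T2Space Z] (g : C(Y, Z)) {K A : Set Z} (hK : IsClosed K) (hA : IsClosed A)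
    (h : ∀ t ∈ K \ A, ∃! y, g y = t) : (CP K A).QIa (CP (g ⁻¹' K) (g ⁻¹' A)) (AS.pl g) 0 := by
  have hm : (AS.sc Z).Mor ((AS.sc Y).push g) (AS.pl g) 0 :=
    ⟨fun n φ hφ => by rw [add_zero]; exact AS.pull_mem_G g hφ,
      fun t φ hφ => (AS.sc Y).mem_zz.2 fun y hy =>
        AS.z_pull g.continuous.continuousAt (by rw [show g y = t from hy]; exact hφ),
      fun t φ => by
        show AS.pull g (AS.d φ) - AS.d (AS.pull g φ) ∈ _
        rw [AS.pull_d, sub_self]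
        exact zero_mem _⟩
  have h1 := SC.soft_qia hm hK hA fun t ht => by
    obtain ⟨y, rfl, hy⟩ := h t ht
    have e : g ⁻¹' {g y} = {y} := Set.ext fun u => ⟨fun hu => hy u hu, fun hu => by
      rw [mem_singleton_iff.1 hu]; rfl⟩
    rw [SC.push_cx, e]
    exact AS.stalk_qia g y
  rwa [SC.push_cx] at h1

/-- tautness: an injective map onto a closed set -/
theorem taut_YO {Y Z : Type} [TopologicalSpace Y] [CompactSpace Y] [T2Space Y] [TopologicalSpace Z]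
    [CompactSpace Z] [T2Space Z] (g : C(Y, Z)) (hg : Function.Injective g) :
    (CP (range g) ∅).QIa (CC Y) (AS.pl g) 0 := by
  have h := exc_YO g (isCompact_range g.continuous).isClosed isClosed_empty fun t ht => by
    obtain ⟨y, rfl⟩ := ht.1
    exact ⟨y, rfl, fun u hu => hg hu⟩
  rwa [preimage_range] at h

variable {Λ : Type} {X : Λ → Type} [∀ i, TopologicalSpace (X i)] [∀ i, CompactSpace (X i)]
  [∀ i, T2Space (X i)]

namespace PAct
variable {Γ : Type} [Group Γ] {r : Γ →* Module.End ℂ (∀ i, AS (X i))} (ρ : PAct r)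
  {P : Λ → Prop} {F : ∀ i, Set (X i)} {i₀ : Λ} {K : Set (X i₀)}

/-- `K ⊆ F i₀` is a fundamental set for the family `F`. -/
structure Fund (P : Λ → Prop) (F : ∀ i, Set (X i)) {i₀ : Λ} (K : Set (X i₀)) : Prop where
  p : P i₀
  cl : IsClosed K
  ne : K.Nonempty
  sub : K ⊆ F i₀
  cov : ∀ i, P i → ∀ x ∈ F i, ∃ g, ∃ h : ρ.R g i i₀, ρ.a h x ∈ K
  dis : ∀ g (h : ρ.R g i₀ i₀), MapsTo (ρ.a h) K K ∨ ∀ x ∈ K, ρ.a h x ∉ K

variable {ρ}

theorem fix_eq {c : ∀ i, AS (X i)} (hc : c ∈ Fix r) {g : Γ} {i j : Λ} (h : ρ.R g i j) :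
    c i = ρ.s g i • AS.pull (ρ.a h) (c j) := by
  rw [← ρ.eq h, mem_Fix.1 hc]

theorem Fund.null (hK : ρ.Fund P F K) {c : ∀ i, AS (X i)} (hc : c ∈ Fix r)
    (h0 : ∀ i, ¬P i → c i = 0) (h : c i₀ ∈ (AS.sc _).zz K) : c ∈ (CPi P F fun _ => ∅).N := by
  refine CPi.mem_N.2 fun i => ?_
  by_cases hi : P i
  · refine (AS.sc _).mem_zz.2 fun x hx => ?_
    obtain ⟨g, e, hg⟩ := hK.cov i hi x hx
    rw [fix_eq hc e]
    exact Submodule.smul_mem _ _
      (AS.z_pull (ρ.a e).continuous.continuousAt ((AS.sc _).mem_zz.1 h _ hg))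
  · rw [h0 i hi]
    exact zero_mem _

variable [Fintype Γ]

open Classical in
/-- the elements that keep `K` -/
def keep (ρ : PAct r) {i₀ : Λ} (K : Set (X i₀)) : Finset Γ :=
  Finset.univ.filter fun g => ∃ h : ρ.R g i₀ i₀, MapsTo (ρ.a h) K K

theorem mem_keep {g : Γ} : g ∈ ρ.keep K ↔ ∃ h : ρ.R g i₀ i₀, MapsTo (ρ.a h) K K := by
  simp [keep]

theorem Fund.card_ne (hK : ρ.Fund P F K) : ((ρ.keep K).card : ℂ) ≠ 0 := by
  obtain ⟨x, hx⟩ := hK.ne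
  obtain ⟨g, e, hg⟩ := hK.cov i₀ hK.p x (hK.sub hx)
  refine Nat.cast_ne_zero.2 (Finset.card_ne_zero.2 ⟨g, mem_keep.2 ⟨e, ?_⟩⟩)
  exact (hK.dis g e).resolve_right fun h => h x hx hg

open Classical in
/-- the sum of the translates -/
def tr (ρ : PAct r) {i₀ : Λ} (K : Set (X i₀)) : Module.End ℂ (AS (X i₀)) :=
  ∑ g ∈ ρ.keep K, LinearMap.proj i₀ ∘ₗ r g⁻¹ ∘ₗ LinearMap.single ℂ (fun i => AS (X i)) i₀

theorem tr_mem {U : Submodule ℂ (AS (X i₀))} {a b : AS (X i₀)}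
    (h : ∀ g (e : ρ.R g i₀ i₀), MapsTo (ρ.a e) K K → ρ.s g i₀ • AS.pull (ρ.a e) b - a ∈ U) :
    ρ.tr K b - ((ρ.keep K).card : ℂ) • a ∈ U := by
  classical
  rw [tr, LinearMap.sum_apply, Nat.cast_smul_eq_nsmul, ← Finset.sum_const, ← Finset.sum_sub_distrib]
  refine U.sum_mem fun g hg => ?_
  obtain ⟨e, he⟩ := mem_keep.1 hg
  have := h g e he
  simpa [ρ.eq e] using this

theorem tr_d (b : AS (X i₀)) : ρ.tr K (AS.d b) = AS.d (ρ.tr K b) := by
  classical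
  rw [tr, LinearMap.sum_apply, LinearMap.sum_apply, map_sum]
  refine Finset.sum_congr rfl fun g hg => ?_
  obtain ⟨e, -⟩ := mem_keep.1 hg
  simp [ρ.eq e, AS.pull_d]

theorem tr_zz {b : AS (X i₀)} (h : b ∈ (AS.sc _).zz K) : ρ.tr K b ∈ (AS.sc _).zz K := by
  have := tr_mem (ρ := ρ) (K := K) (a := 0) (b := b) fun g e he => by
    rw [sub_zero]
    exact Submodule.smul_mem _ _ (zz_pull _ he h)
  rwa [smul_zero, sub_zero] at this

/-- an invariant cochain with prescribed germ along the fundamental set -/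
theorem Fund.lift (hK : ρ.Fund P F K) (ha : (CPi P F fun _ => ∅).Act r) {n : ℤ} {b : AS (X i₀)}
    (hb : b ∈ AS.G (X i₀) n) :
    ∃ c ∈ ha.inv.G n, c i₀ - ρ.tr K b ∈ (AS.sc _).zz K := by
  classical
  have hc : IsClosed (⋃ g, ⋃ e : ρ.R g i₀ i₀, ⋃ _ : ¬MapsTo (ρ.a e) K K, ρ.a e '' K) :=
    isClosed_iUnion_of_finite fun g => isClosed_iUnion_of_finite fun e =>
      isClosed_iUnion_of_finite fun _ => (hK.cl.isCompact.image (ρ.a e).continuous).isClosed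
  obtain ⟨b', hb', e₁, e₂⟩ := (AS.sc (X i₀)).glue K _ hK.cl hc n b hb (by
    rintro t ⟨ht, ht'⟩
    simp only [mem_iUnion] at ht'
    obtain ⟨g, e, he, x, hx, rfl⟩ := ht'
    exact (((hK.dis g e).resolve_left he) x hx ht).elim)
  have h1 : Pi.single i₀ b' ∈ (CPi P F fun _ => ∅).G n := CPi.mem_G.2 fun i => by
    by_cases hi : i = i₀
    · subst hi
      rw [Pi.single_eq_same]
      exact ⟨fun _ => AS.mem_cp_G.2 ⟨hb', fun _ e => e.elim⟩, fun h => (h hK.p).elim⟩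
    · rw [Pi.single_eq_of_ne hi]
      exact ⟨fun _ => zero_mem _, fun _ => rfl⟩
  refine ⟨∑ g, r g⁻¹ (Pi.single i₀ b'), ⟨Submodule.sum_mem _ fun g _ => ha.G _ n _ h1,
    mem_Fix.2 fun k => ?_⟩, ?_⟩
  · rw [map_sum]
    refine Fintype.sum_equiv (Equiv.mulRight k⁻¹) _ _ fun g => ?_
    simp
  · have e : (∑ g, r g⁻¹ (Pi.single i₀ b')) i₀ - ρ.tr K b =
        ∑ g ∈ (ρ.keep K)ᶜ, r g⁻¹ (Pi.single i₀ b') i₀ + ρ.tr K (b' - b) := by
      rw [Finset.sum_apply, ← Finset.sum_compl_add_sum (ρ.keep K), map_sub, add_sub_assoc]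
      congr 2
      rw [tr, LinearMap.sum_apply]
      rfl
    rw [e]
    refine add_mem (Submodule.sum_mem _ fun g hg => ?_) (tr_zz ((AS.sc _).mem_zz.2 e₁))
    obtain ⟨j, h⟩ := ρ.ex g i₀
    rw [ρ.eq h]
    by_cases hj : j = i₀
    · subst hj
      rw [Pi.single_eq_same]
      refine Submodule.smul_mem _ _ (zz_pull _ (fun x hx => ?_) ((AS.sc _).mem_zz.2 e₂))
      simp only [mem_iUnion]
      exact ⟨g, h, fun hm => Finset.mem_compl.1 hg (mem_keep.2 ⟨h, hm⟩), x, hx, rfl⟩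
    · rw [Pi.single_eq_of_ne hj, map_zero, smul_zero]
      exact zero_mem _

/-- an invariant cocycle that bounds along the fundamental set bounds -/
theorem Fund.inj (hK : ρ.Fund P F K) (ha : (CPi P F fun _ => ∅).Act r) {n : ℤ} {c : ∀ i, AS (X i)}
    (hc : c ∈ ha.inv.G n) (h : c i₀ ∈ (CP K ∅).B n) : c ∈ ha.inv.B n := by
  obtain ⟨b, hb, e⟩ := Cx.mem_B.1 h
  obtain ⟨u, hu, e'⟩ := hK.lift ha hb.1
  refine (Submodule.smul_mem_iff _ hK.card_ne).1 (Cx.mem_B.2 ⟨u, hu, hK.null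
    (sub_mem (Submodule.smul_mem _ _ hc.2) (ha.fix_d u hu.2)) (fun i hi => ?_) ?_⟩)
  · show ((ρ.keep K).card : ℂ) • c i - AS.d (u i) = 0
    rw [(hc.1 i).2 hi, (hu.1 i).2 hi, map_zero, smul_zero, sub_zero]
  · have h1 : ρ.tr K (c i₀) - ((ρ.keep K).card : ℂ) • c i₀ ∈ (AS.sc _).zz K :=
      tr_mem fun g e _ => by rw [← fix_eq hc.2 e, sub_self]; exact zero_mem _
    have h2 := tr_zz (ρ := ρ) (K := K) (b := c i₀ - AS.d b) e
    have h3 := SC.zz_d K _ e'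
    rw [map_sub, tr_d] at h2
    refine Cx.meq (sub_mem (sub_mem h2 h1) h3) ?_
    show _ - AS.d _ = ((ρ.keep K).card : ℂ) • c i₀ - AS.d (u i₀)
    rw [map_sub]
    abel

/-- an invariant class along the fundamental set comes from an invariant cocycle -/
theorem Fund.sur (hK : ρ.Fund P F K) (ha : (CPi P F fun _ => ∅).Act r) {n : ℤ} {x : AS (X i₀)}
    (hx : x ∈ (CP K ∅).Z n) (h : ∀ g (e : ρ.R g i₀ i₀), MapsTo (ρ.a e) K K →
      ρ.s g i₀ • AS.pull (ρ.a e) x - x ∈ (CP K ∅).B n) :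
    ∃ c ∈ ha.inv.Z n, x - c i₀ ∈ (CP K ∅).B n := by
  obtain ⟨u, hu, e⟩ := hK.lift ha hx.1.1
  refine ⟨((ρ.keep K).card : ℂ)⁻¹ • u, Submodule.smul_mem _ _ (Cx.mem_Z.2 ⟨hu,
    hK.null (ha.fix_d u hu.2) (fun i hi => ?_) ?_⟩), ?_⟩
  · show AS.d (u i) = 0
    rw [(hu.1 i).2 hi, map_zero]
  · have h2 := tr_zz (ρ := ρ) (K := K) (b := AS.d x) hx.2
    have h3 := SC.zz_d K _ e
    rw [tr_d] at h2
    refine Cx.meq (add_mem h3 h2) ?_
    show AS.d _ + _ = AS.d (u i₀)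
    rw [map_sub]
    abel
  · refine (Submodule.smul_mem_iff _ hK.card_ne).1 ?_
    rw [Pi.smul_apply, smul_sub, smul_inv_smul₀ hK.card_ne]
    refine Cx.meq (neg_mem (add_mem (tr_mem h) (Cx.N_le_B (C := CP K ∅) e))) ?_
    abel

/-- ORB: invariant cochains along `F` are the invariant cochains of a space `Y` that is embedded
as a fundamental set. -/
theorem orb {Y : Type} [TopologicalSpace Y] [CompactSpace Y] [T2Space Y] (ξ : C(Y, X i₀))
    (hξ : Function.Injective ξ) (hK : ρ.Fund P F (range ξ)) (ha : (CPi P F fun _ => ∅).Act r)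
    {H : Type} [Group H] [Fintype H] {r' : H →* Module.End ℂ (AS Y)} (ha' : (CC Y).Act r')
    (h1 : ∀ k, ∃ g, ∃ e : ρ.R g i₀ i₀, ∀ φ,
      r' k (AS.pull ξ φ) = ρ.s g i₀ • AS.pull ξ (AS.pull (ρ.a e) φ))
    (h2 : ∀ g (e : ρ.R g i₀ i₀), MapsTo (ρ.a e) (range ξ) (range ξ) → ∃ k, ∀ φ,
      r' k (AS.pull ξ φ) = ρ.s g i₀ • AS.pull ξ (AS.pull (ρ.a e) φ)) :
    ha.inv.Mor ha'.inv (AS.pl ξ ∘ₗ LinearMap.proj i₀) 0 ∧
      ha.inv.QIa ha'.inv (AS.pl ξ ∘ₗ LinearMap.proj i₀) 0 := by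
  have hm : (CP (F i₀) ∅).Mor (CC Y) (AS.pl ξ) 0 :=
    mor_pull ξ (fun y _ => hK.sub ⟨y, rfl⟩) (mapsTo_empty _ _)
  have hm' : (CP (range ξ) ∅).Mor (CC Y) (AS.pl ξ) 0 :=
    mor_pull ξ (fun y _ => ⟨y, rfl⟩) (mapsTo_empty _ _)
  have hq := taut_YO ξ hξ
  have hM : ha.inv.Mor ha'.inv (AS.pl ξ ∘ₗ LinearMap.proj i₀) 0 := by
    refine ⟨fun n c hc => ⟨hm.fG n _ ((hc.1 i₀).1 hK.p), mem_Fix.2 fun k => ?_⟩,
      fun n c hc hN => hm.fN n _ ((hc.1 i₀).1 hK.p) (hN i₀ trivial),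
      fun n c hc => hm.fd n _ ((hc.1 i₀).1 hK.p)⟩
    obtain ⟨g, e, he⟩ := h1 k
    show r' k (AS.pull ξ (c i₀)) = AS.pull ξ (c i₀)
    rw [he, ← map_smul, ← fix_eq hc.2 e]
  refine ⟨hM, Cx.qia_iff.2 fun n => ⟨fun c hc hb => hK.inj ha hc.1 (hq.inj n _ ?_ (ha'.ya3_le hb)),
    fun y hy => ?_⟩⟩
  · exact ⟨(hc.1.1 i₀).1 hK.p, SC.zz_anti hK.sub (hc.2 i₀ trivial)⟩
  · obtain ⟨x, hx, e⟩ := hq.sur n y ⟨hy.1.1, hy.2⟩
    obtain ⟨c, hc, e'⟩ := hK.sur ha hx fun g h hm => by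
      obtain ⟨k, hk⟩ := h2 g h hm
      have hz : ρ.s g i₀ • AS.pull (ρ.a h) x ∈ (CP (range ξ) ∅).Z n := Submodule.smul_mem _ _ (by
        simpa using (mor_pull (ρ.a h) hm (mapsTo_empty _ _)).mem_Z hx)
      refine hq.inj n _ (sub_mem hz hx) ?_
      have h3 := (ha'.mor k).mem_B (sub_mem hy.1.1 (hm'.fG n x hx.1)) e
      rw [map_sub, mem_Fix.1 hy.1.2 k, add_zero] at h3
      refine Cx.meq (sub_mem e h3) ?_
      show _ = AS.pull ξ (_ - x)
      rw [map_sub, map_smul, ← hk]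
      show y - AS.pull ξ x - (y - r' k (AS.pull ξ x)) = _
      abel
    refine ⟨c, hc, ?_⟩
    have h4 := hm'.mem_B (sub_mem hx.1 ((hc.1.1 i₀).1 hK.p)) e'
    have h5 : y - (AS.pl ξ ∘ₗ LinearMap.proj i₀) c ∈ (CC Y).B (n + 0 + 0) := by
      rw [add_zero (n + 0)]
      refine Cx.meq (add_mem e h4) ?_
      rw [map_sub]
      show _ = y - AS.pl ξ (c i₀)
      abel
    exact ha'.inj _ _ (sub_mem hy (hM.mem_Z hc)) h5

end PAct

end Pool.Agent.CS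
end
end

-- part Pool.Agent.P.MP_d34769_ag.YO2
section

/-! Descent along finite families of maps, with a group that permutes the family. -/

open Set Topology

set_option linter.unusedSectionVars false

noncomputable section
namespace Pool.Agent.CS

theorem Cx.Act.inv_congr {Γ T : Type} [Group Γ] [AddCommGroup T] [Module ℂ T] {C C' : Cx T}
    {r : Γ →* Module.End ℂ T} (e : C = C') (h : C.Act r) (h' : C'.Act r) : h.inv = h'.inv := by
  subst e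
  rfl

section one
variable {Y : Type} [TopologicalSpace Y] [CompactSpace Y] [T2Space Y]

theorem mem_zz_empty (φ : AS Y) : φ ∈ (AS.sc Y).zz ∅ := (AS.sc Y).mem_zz.2 fun _ e => e.elim

theorem const_zero {K A : Set Y} {k : ℤ} {x : AS Y} {a : ℂ} (hx : x ∈ AS.G Y k) (hk : k ≠ 0)
    (h : x - a • 1 ∈ (CP K A).B k) (hK : K.Nonempty) : a = 0 := by
  obtain ⟨t, ht⟩ := hK
  obtain ⟨b, -, e⟩ := AS.mem_cp_B.1 h
  have h1 := AS.z_val (e t ht)
  have h2 : (AS.d b).1 [t] = 0 := by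
    show dA [t] b.1 = 0
    simp [dA]
  rw [AS.val_sub, AS.val_sub, h2, AS.mem_G.1 hx [t] (by simp; omega), AS.val_smul, AS.val_one] at h1
  simpa using h1

/-- bounding along two disjoint closed sets -/
theorem B_union {K K' : Set Y} (hK : IsClosed K) (hK' : IsClosed K') (h : Disjoint K K') {n : ℤ}
    {x : AS Y} (h1 : x ∈ (CP K ∅).B n) (h2 : x ∈ (CP K' ∅).B n) : x ∈ (CP (K ∪ K') ∅).B n := by
  obtain ⟨b, hb, e⟩ := AS.mem_cp_B.1 h1
  obtain ⟨b', hb', e'⟩ := AS.mem_cp_B.1 h2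
  obtain ⟨c, hc, e₁, e₂⟩ := (AS.sc Y).glue K K' hK hK' _ (b - b') (sub_mem hb.1 hb'.1)
    fun t ht => (h.ne_of_mem ht.1 ht.2 rfl).elim
  refine AS.mem_cp_B.2 ⟨b' + c, ⟨add_mem hb'.1 hc, fun _ e => e.elim⟩, fun t ht => ?_⟩
  rcases ht with ht | ht
  · refine Cx.meq (sub_mem (e t ht) ((AS.sc Y).dz t _ (e₁ t ht))) ?_
    show _ - AS.d _ = _
    simp only [map_sub, map_add]
    abel
  · refine Cx.meq (sub_mem (e' t ht) ((AS.sc Y).dz t _ (e₂ t ht))) ?_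
    show _ - AS.d _ = _
    simp only [map_add]
    abel

theorem B_iUnion {κ : Type} [Finite κ] {K : κ → Set Y} (hK : ∀ i, IsClosed (K i))
    (h : ∀ i j, K i = K j ∨ Disjoint (K i) (K j)) {n : ℤ} {x : AS Y}
    (hx : ∀ i, x ∈ (CP (K i) ∅).B n) : x ∈ (CP (⋃ i, K i) ∅).B n := by
  classical
  have key : ∀ s : Finset κ, x ∈ (CP (⋃ i ∈ s, K i) ∅).B n := by
    intro s
    induction s using Finset.induction_on with
    | empty => exact Cx.N_le_B (AS.mem_cp_N.2 (by simp))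
    | insert j s _ ih =>
      rw [Finset.set_biUnion_insert]
      by_cases e : ∃ i ∈ s, K j = K i
      · obtain ⟨i, hi, e⟩ := e
        rwa [union_eq_self_of_subset_left (e ▸ subset_biUnion_of_mem (u := K) hi)]
      · refine B_union (hK j) (isClosed_biUnion_finset fun i _ => hK i) ?_ (hx j) ih
        simp only [disjoint_iUnion_right]
        exact fun i hi => (h j i).resolve_left fun e' => e ⟨i, hi, e'⟩
  have := Fintype.ofFinite κ
  simpa using key Finset.univ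

/-- DISJ: a cocycle along a union of embedded compact spaces that are equal or disjoint -/
theorem disj_YO {κ : Type} [Finite κ] {Z : κ → Type} [∀ i, TopologicalSpace (Z i)]
    [∀ i, CompactSpace (Z i)] [∀ i, T2Space (Z i)] (g : ∀ i, C(Z i, Y))
    (hg : ∀ i, Function.Injective (g i))
    (h : ∀ i j, range (g i) = range (g j) ∨ Disjoint (range (g i)) (range (g j))) {K : Set Y}
    (hK : K = ⋃ i, range (g i)) {n : ℤ} {x : AS Y} (hx : x ∈ (CP K ∅).Z n)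
    (hb : ∀ i, AS.pull (g i) x ∈ (CC (Z i)).B n) : x ∈ (CP K ∅).B n := by
  subst hK
  refine B_iUnion (fun i => (isCompact_range (g i).continuous).isClosed) h fun i =>
    (taut_YO (g i) (hg i)).inj n x ⟨hx.1, SC.zz_anti (subset_iUnion (fun i => range (g i)) i) hx.2⟩ ?_
  rw [add_zero]
  exact hb i

end one

variable {ι Λ : Type} {Y : ι → Type} [∀ i, TopologicalSpace (Y i)] [∀ i, CompactSpace (Y i)]
  [∀ i, T2Space (Y i)] {X : Λ → Type} [∀ i, TopologicalSpace (X i)] [∀ i, CompactSpace (X i)]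
  [∀ i, T2Space (X i)]

theorem CPi.G_le_N {P : Λ → Prop} {K A : ∀ i, Set (X i)} (h : ∀ i, P i → K i = ∅) {n : ℤ}
    {c : ∀ i, AS (X i)} (hc : c ∈ (CPi P K A).G n) : c ∈ (CPi P K A).N := CPi.mem_N.2 fun i => by
  by_cases hi : P i
  · rw [h i hi]
    exact mem_zz_empty _
  · rw [(hc i).2 hi]
    exact zero_mem _

theorem SPi.cx_eq' [Finite Λ] {B : Type} [TopologicalSpace B] [T2Space B] (P : Λ → Prop)
    (π : ∀ i, C(X i, B)) (K : Set B) :
    (SPi P π).cx K ∅ = CPi P (fun i => π i ⁻¹' K) fun _ => ∅ := by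
  simp only [SPi.cx_eq, preimage_empty]

/-- A family of maps `X l → Y (τ l)` with the induced map `F` on cochains. -/
structure Cov (F : (∀ i, AS (Y i)) →ₗ[ℂ] ∀ l, AS (X l)) where
  τ : Λ → ι
  q : ∀ {l i}, τ l = i → C(X l, Y i)
  μ : Λ → ℂ
  ne : ∀ l, μ l ≠ 0
  eq : ∀ {l i} (e : τ l = i) c, F c l = μ l • AS.pull (q e) (c i)

namespace Cov
variable {F : (∀ i, AS (Y i)) →ₗ[ℂ] ∀ l, AS (X l)} (C : Cov F) {Γ : Type} [Group Γ]
  {r : Γ →* Module.End ℂ (∀ l, AS (X l))} (ρ : PAct r) {P : ι → Prop} {P' : Λ → Prop}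

theorem mor (hP : ∀ l, P' l ↔ P (C.τ l)) {K A : ∀ i, Set (Y i)} {K' A' : ∀ l, Set (X l)}
    (hK : ∀ l, MapsTo (C.q rfl) (K' l) (K (C.τ l))) (hA : ∀ l, MapsTo (C.q rfl) (A' l) (A (C.τ l))) :
    (CPi P K A).Mor (CPi P' K' A') F 0 := by
  refine ⟨fun n c hc l => ?_, fun n c _ hc => CPi.mem_N.2 fun l => ?_,
    fun n c _ => CPi.mem_N.2 fun l => ?_⟩
  · rw [C.eq rfl]
    refine ⟨fun h => Submodule.smul_mem _ _ ((mor_pull _ (hK l) (hA l)).fG n _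
      ((hc _).1 ((hP l).1 h))), fun h => ?_⟩
    rw [(hc _).2 fun e => h ((hP l).2 e), map_zero, smul_zero]
  · rw [C.eq rfl]
    exact Submodule.smul_mem _ _ (zz_pull _ (hK l) (hc _ trivial))
  · rw [Pi.sub_apply, CPi.d_apply, C.eq rfl, C.eq rfl, CPi.d_apply, AS.pull_d, map_smul, sub_self]
    exact zero_mem _

/-- the maps are invariant under the group -/
structure Inv : Prop where
  τ : ∀ {g l l'}, ρ.R g l l' → C.τ l = C.τ l'
  q : ∀ {g l l' i} (h : ρ.R g l l') (e : C.τ l = i) (e' : C.τ l' = i) x, C.q e' (ρ.a h x) = C.q e x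
  s : ∀ {g l l'}, ρ.R g l l' → ρ.s g l * C.μ l' = C.μ l

/-- The invariant cohomology of the fibre over `y` is that of a point. -/
def Fib (i : ι) (y : Y i) : Prop :=
  ∃ (l₀ : Λ) (e₀ : C.τ l₀ = i) (K₀ : Set (X l₀)), IsClosed K₀ ∧ K₀.Nonempty ∧
    (∀ x ∈ K₀, C.q e₀ x = y) ∧
    (∀ l (e : C.τ l = i) x, C.q e x = y → ∃ g, ∃ h : ρ.R g l l₀, ρ.a h x ∈ K₀) ∧
    (∀ g (h : ρ.R g l₀ l₀), MapsTo (ρ.a h) K₀ K₀ ∨ ∀ x ∈ K₀, ρ.a h x ∉ K₀) ∧
    ∀ k, ∀ x ∈ (CP K₀ ∅).Z k, (∀ g (h : ρ.R g l₀ l₀), AS.pull (ρ.a h) x = x) →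
      ∃ a : ℂ, x - a • 1 ∈ (CP K₀ ∅).B k

variable {C ρ}

theorem Inv.fix (h : C.Inv ρ) (c : ∀ i, AS (Y i)) : F c ∈ Fix r := by
  refine mem_Fix.2 fun g => funext fun l => ?_
  obtain ⟨g, rfl⟩ := inv_surjective g
  obtain ⟨l', e⟩ := ρ.ex g l
  rw [ρ.eq e, C.eq (h.τ e).symm, C.eq rfl, map_smul, smul_smul, h.s e, AS.pull_pull]
  congr 3
  exact funext (h.q e rfl (h.τ e).symm)

theorem Inv.mor (h : C.Inv ρ) (hP : ∀ l, P' l ↔ P (C.τ l)) {K A : ∀ i, Set (Y i)}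
    {K' A' : ∀ l, Set (X l)} (hK : ∀ l, MapsTo (C.q rfl) (K' l) (K (C.τ l)))
    (hA : ∀ l, MapsTo (C.q rfl) (A' l) (A (C.τ l))) (ha : (CPi P' K' A').Act r) :
    (CPi P K A).Mor ha.inv F 0 :=
  ⟨fun n c hc => ⟨(C.mor hP hK hA).fG n c hc, h.fix c⟩, (C.mor hP hK hA).fN, (C.mor hP hK hA).fd⟩

variable [Fintype Γ]

theorem Inv.stalk (h : C.Inv ρ) (hP : ∀ l, P' l ↔ P (C.τ l)) {i : ι} {y : Y i}
    (hy : P i → C.Fib ρ i y) {E : ∀ i, Set (Y i)} (hE : E i = {y}) (hE' : ∀ j, j ≠ i → E j = ∅)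
    {E' : ∀ l, Set (X l)} (hF : ∀ l, E' l = C.q rfl ⁻¹' E (C.τ l))
    (ha : (CPi P' E' fun _ => ∅).Act r) : (CPi P E fun _ => ∅).QIa ha.inv F 0 := by
  classical
  have hM := h.mor hP (K := E) (A := fun _ => ∅) (fun l x hx => by rwa [hF] at hx)
    (fun l => mapsTo_empty _ _) ha
  refine Cx.qia_iff.2 fun k => ?_
  by_cases hi : P i
  swap
  · refine ⟨Cx.Ac.inj fun c hc => Cx.N_le_B (CPi.G_le_N (fun j hj => hE' j fun e => hi (e ▸ hj)) hc.1),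
      Cx.Ac.sur fun c hc => Cx.N_le_B (CPi.G_le_N (fun l hl => ?_) hc.1.1)⟩
    rw [hF, hE' _ fun e => hi (e ▸ (hP l).1 hl), preimage_empty]
  obtain ⟨l₀, e₀, K₀, h1, h2, h3, h4, h5, h6⟩ := hy hi
  have hmem : ∀ l x, x ∈ E' l ↔ ∃ e : C.τ l = i, C.q e x = y := by
    intro l x
    rw [hF, mem_preimage]
    by_cases e : C.τ l = i
    · subst e
      rw [hE]
      exact ⟨fun h => ⟨rfl, h⟩, fun h => h.2⟩
    · rw [hE' _ e]
      exact ⟨fun h => h.elim, fun h => (e h.1).elim⟩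
  have hK : ρ.Fund P' E' K₀ := ⟨(hP l₀).2 (e₀ ▸ hi), h1, h2, fun x hx => (hmem _ x).2 ⟨e₀, h3 x hx⟩,
    fun l _ x hx => by
      obtain ⟨e, he⟩ := (hmem l x).1 hx
      exact h4 l e x he, h5⟩
  constructor
  · intro c hc hb
    refine (CPi.mem_B fun j => (hc.1 j).2).2 fun j hj => ?_
    by_cases e : j = i
    · subst e
      have h7 := CPi.Z_comp hc hj
      rw [hE] at h7 ⊢
      obtain ⟨x, hx⟩ := h2
      have h8 := CPi.B_comp (ha.ya3_le hb) l₀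
      rw [C.eq e₀, Submodule.smul_mem_iff _ (C.ne l₀)] at h8
      rw [← h3 x hx] at h7 ⊢
      refine (AS.stalk_qia (C.q e₀) x).inj k _ h7 ?_
      obtain ⟨b, hb, e⟩ := AS.mem_cp_B.1 h8
      exact AS.mem_cp_B.2 ⟨b, hb, fun t ht => e t (hK.sub (by rwa [mem_singleton_iff.1 ht]))⟩
    · rw [hE' j e]
      exact Cx.N_le_B (mem_zz_empty _)
  · intro c hc
    rw [add_zero] at hc ⊢
    have h7 : c l₀ ∈ (CP K₀ ∅).Z k := ⟨(hc.1.1 l₀).1 hK.p, SC.zz_anti hK.sub (hc.2 l₀ trivial)⟩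
    obtain ⟨a, e⟩ := h6 k _ h7 fun g e => by
      have h8 := PAct.fix_eq hc.1.2 e
      rw [mul_left_eq_self₀.1 (h.s e) |>.resolve_right (C.ne l₀), one_smul] at h8
      exact h8.symm
    have h9 : Pi.single i (((C.μ l₀)⁻¹ * a) • (1 : AS (Y i))) ∈ (CPi P E fun _ => ∅).Z k := by
      by_cases hk : k = 0
      · subst hk
        refine CPi.mem_Z.2 fun j => ?_
        by_cases e : j = i
        · subst e
          rw [Pi.single_eq_same]
          exact ⟨fun _ => Submodule.smul_mem _ _ AS.one_mem_Z, fun h => (h hi).elim⟩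
        · rw [Pi.single_eq_of_ne e]
          exact ⟨fun _ => zero_mem _, fun _ => rfl⟩
      · rw [const_zero h7.1.1 hk e h2, mul_zero, zero_smul, Pi.single_zero]
        exact zero_mem _
    refine ⟨_, h9, hK.inj ha (sub_mem hc.1 (by simpa using hM.fG k _ h9.1)) ?_⟩
    rwa [Pi.sub_apply, C.eq e₀, Pi.single_eq_same, map_smul, map_one, smul_smul,
      mul_inv_cancel_left₀ (C.ne l₀)]

/-- DESC -/
theorem Inv.desc [Finite ι] [Finite Λ] (h : C.Inv ρ) (hP : ∀ l, P' l ↔ P (C.τ l))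
    {K A : ∀ i, Set (Y i)} (hK : ∀ i, IsClosed (K i)) (hA : ∀ i, IsClosed (A i))
    {K' A' : ∀ l, Set (X l)} (hK' : ∀ l, K' l = C.q rfl ⁻¹' K (C.τ l))
    (hA' : ∀ l, A' l = C.q rfl ⁻¹' A (C.τ l)) (hf : ∀ i, P i → ∀ y ∈ K i \ A i, C.Fib ρ i y)
    (ha : (CPi P' K' A').Act r) : (CPi P K A).QIa ha.inv F 0 := by
  obtain ⟨π, hπ⟩ : ∃ π : ∀ i, C(Y i, Σ i, Y i), ∀ i y, π i y = ⟨i, y⟩ :=
    ⟨fun i => ⟨Sigma.mk i, continuous_sigmaMk⟩, fun _ _ => rfl⟩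
  obtain ⟨π', hπ'⟩ : ∃ π' : ∀ l, C(X l, Σ i, Y i),
      ∀ {l i} (e : C.τ l = i) x, π' l x = π i (C.q e x) :=
    ⟨fun l => (π (C.τ l)).comp (C.q rfl), fun e x => by subst e; rfl⟩
  have hpre : ∀ (V : Set (Σ i, Y i)) l, π' l ⁻¹' V = C.q rfl ⁻¹' (π (C.τ l) ⁻¹' V) := fun V l =>
    Set.ext fun x => by rw [mem_preimage, hπ' rfl]; rfl
  have hs : (SPi P' π').Act r := ρ.sact
    (fun e => by rw [hP, hP, h.τ e]) fun e x => by rw [hπ' (h.τ e).symm, h.q e rfl, hπ' rfl]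
  have h0 := C.mor hP (K := fun _ => ∅) (A := fun _ => ∅) (K' := fun _ => ∅) (A' := fun _ => ∅)
    (fun _ => mapsTo_empty _ _) fun _ => mapsTo_empty _ _
  have hm : (SPi P π).Mor hs.inv F 0 := by
    refine ⟨fun n c hc => ?_, fun t c hc l _ => ?_, fun t c l _ => ?_⟩
    · rw [SC.Act.inv_G]
      exact ⟨h0.fG n c hc, h.fix c⟩
    · rw [C.eq rfl]
      exact Submodule.smul_mem _ _ (zz_pull _ (hpre {t} l).subset (hc _ trivial))
    · have e : F ((SPi P π).d c) l - AS.d (F c l) = 0 := by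
        rw [C.eq rfl, C.eq rfl, map_smul, ← AS.pull_d]
        exact sub_self _
      exact Cx.meq (zero_mem _) e.symm
  have hst : ∀ i (y : Y i), y ∈ K i \ A i →
      ((SPi P π).cx {⟨i, y⟩} ∅).QIa (hs.inv.cx {⟨i, y⟩} ∅) F 0 := by
    intro i y ht
    have e := SPi.cx_eq' P' π' {⟨i, y⟩}
    have ha' : (CPi P' (fun l => π' l ⁻¹' {⟨i, y⟩}) fun _ => ∅).Act r := by
      have h1 := hs.cx {⟨i, y⟩} ∅
      rwa [e] at h1
    have e1 : hs.inv.cx {⟨i, y⟩} ∅ = ha'.inv := (hs.inv_cx _ _).trans (Cx.Act.inv_congr e _ ha')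
    have h2 : π i ⁻¹' {⟨i, y⟩} = {y} := Set.ext fun u => by
      rw [mem_preimage, hπ]
      exact ⟨fun hu => sigma_mk_injective hu, fun hu => congrArg (Sigma.mk i) hu⟩
    have h3 : ∀ j, j ≠ i → π j ⁻¹' {⟨i, y⟩} = ∅ := fun j hj =>
      eq_empty_of_forall_notMem fun u hu => by
        rw [mem_preimage, hπ] at hu
        exact hj (congrArg Sigma.fst hu)
    have h4 := h.stalk hP (E := fun j => π j ⁻¹' {⟨i, y⟩}) (fun hi => hf i hi y ht) h2 h3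
      (hpre _) ha'
    rw [e1, SPi.cx_eq']
    exact h4
  have key := SC.soft_qia hm (K := {t : Σ i, Y i | t.2 ∈ K t.1}) (A := {t : Σ i, Y i | t.2 ∈ A t.1})
    (isClosed_sigma_iff.2 hK) (isClosed_sigma_iff.2 hA) fun t ht => hst t.1 t.2 ht
  have h5 : ∀ V : ∀ i, Set (Y i), (fun i => π i ⁻¹' {t : Σ i, Y i | t.2 ∈ V t.1}) = V :=
    fun V => funext fun i => Set.ext fun u => by rw [mem_preimage, hπ]; rfl
  have e0 : (SPi P' π').cx {t : Σ i, Y i | t.2 ∈ K t.1} {t : Σ i, Y i | t.2 ∈ A t.1} =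
      CPi P' K' A' := by
    rw [SPi.cx_eq]
    congr 1 <;> funext l
    · rw [hpre, hK', congrFun (h5 K)]
    · rw [hpre, hA', congrFun (h5 A)]
  rw [(hs.inv_cx _ _).trans (Cx.Act.inv_congr e0 _ ha), SPi.cx_eq, h5, h5] at key
  exact key

end Cov

end Pool.Agent.CS
end
end
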