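import Pool.Agent.K.MP_d34769_ag.C26
import Pool.Agent.K.MP_d34769_ag.C29

/-! The diagram of intersections of finitely many closed sets, indexed by short tuples. -/

open Set

noncomputable section
namespace Pool.Agent.CS

/-- tuples of length at most `P` -/
abbrev Tup (ι : Type) (P : ℕ) : Type := Σ p : Fin (P + 1), Fin p → ι

variable {ι : Type} {P : ℕ}

/-- the empty tuple -/
def Tup.nil : Tup ι P := ⟨0, Fin.elim0⟩

/-- the faces of a tuple -/
def Tup.face : (J : Tup ι P) → Fin J.1 → Tup ι P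
  | ⟨⟨0, _⟩, _⟩, j => j.elim0
  | ⟨⟨p + 1, h⟩, J⟩, j => ⟨⟨p, Nat.lt_of_succ_lt h⟩, j.removeNth J⟩

theorem Tup.face_sub (J : Tup ι P) (j : Fin J.1) : range (J.face j).2 ⊆ range J.2 := by
  obtain ⟨⟨_ | p, h⟩, J⟩ := J
  · exact j.elim0
  · rintro _ ⟨a, rfl⟩
    exact ⟨j.succAbove a, rfl⟩

theorem Tup.face_deg (J : Tup ι P) (j : Fin J.1) : (J.1 : ℕ) = (J.face j).1 + 1 := by
  obtain ⟨⟨_ | p, h⟩, J⟩ := J
  · exact j.elim0
  · rfl

theorem Tup.eq_nil {J : Tup ι P} (h : (J.1 : ℕ) = 0) : J = Tup.nil := by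
  obtain ⟨⟨_ | p, h'⟩, J⟩ := J
  · exact congrArg (Sigma.mk (β := fun p : Fin (P + 1) => Fin p → ι) ⟨0, h'⟩)
      (funext fun a => a.elim0)
  · exact absurd h (Nat.succ_ne_zero p)

open Classical in
theorem yi3_sum [Fintype (Tup ι P)] {V : Type} [AddCommGroup V] (J : Tup ι P) (φ : Tup ι P → V) :
    ∑ J', (∑ j : Fin J.1, if J.face j = J' then (-1 : ℤ) ^ (j : ℕ) else 0) • φ J' =
      ∑ j : Fin J.1, (-1 : ℤ) ^ (j : ℕ) • φ (J.face j) := by
  simp only [Finset.sum_smul, ite_smul, zero_smul]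
  rw [Finset.sum_comm]
  simp only [Finset.sum_ite_eq, Finset.mem_univ, if_true]

theorem yi3_ff (J : Tup ι P) (φ : Tup ι P → ℤ) :
    ∑ j : Fin J.1, (-1 : ℤ) ^ (j : ℕ) •
      ∑ l : Fin (J.face j).1, (-1 : ℤ) ^ (l : ℕ) • φ ((J.face j).face l) = 0 := by
  obtain ⟨⟨_ | _ | p, h⟩, J⟩ := J
  · exact Finset.sum_eq_zero fun j _ => j.elim0
  · exact Finset.sum_eq_zero fun j _ =>
      smul_eq_zero_of_right _ (Finset.sum_eq_zero fun l _ => Fin.elim0 l)
  · change ∑ j : Fin (p + 2), (-1 : ℤ) ^ (j : ℕ) • ∑ l : Fin (p + 1), (-1 : ℤ) ^ (l : ℕ) •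
      φ ⟨⟨p, by omega⟩, l.removeNth (j.removeNth J)⟩ = 0
    simp only [Finset.smul_sum, smul_smul, ← pow_add]
    rw [← Finset.sum_product']
    refine Finset.sum_involution (fun x _ => (x.1.succAbove x.2, x.2.predAbove x.1))
      (fun x _ => ?_) (fun x _ _ h => Fin.succAbove_ne _ _ (congrArg Prod.fst h))
      (fun _ _ => by simp) fun x _ => Prod.ext (Fin.succAbove_succAbove_predAbove _ _)
        (Fin.predAbove_predAbove_succAbove _ _)
    rw [Fin.neg_one_pow_succAbove_add_predAbove, ← Fin.removeNth_removeNth_eq_swap, neg_smul,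
      add_neg_cancel]

open Classical in
/-- the shape of short tuples -/
def tupSh (ι : Type) [Finite ι] (P : ℕ) : Sh where
  ι := Tup ι P
  fin := Fintype.ofFinite _
  deg J := J.1
  rel J J' := range J'.2 ⊆ range J.2
  ε J J' := ∑ j : Fin J.1, if J.face j = J' then (-1) ^ (j : ℕ) else 0
  sup J J' h := by
    obtain ⟨j, -, hj⟩ := Finset.exists_ne_zero_of_sum_ne_zero h
    obtain rfl : J.face j = J' := by
      by_contra e
      exact hj (if_neg e)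
    exact ⟨J.face_sub j, J.face_deg j⟩
  trans h h' := h'.trans h
  εε J K := by
    refine (@yi3_sum ι P (Fintype.ofFinite _) ℤ _ J _).trans
      (Eq.trans ?_ (yi3_ff J fun L => if L = K then 1 else 0))
    simp only [smul_eq_mul, mul_ite, mul_one, mul_zero]

variable [Finite ι]

theorem tup_sum {V : Type} [AddCommGroup V] [Module ℂ V] (J : Tup ι P) (φ : Tup ι P → V) :
    ∑ J' : (tupSh ι P).ι, (((tupSh ι P).ε J J' : ℤ) : ℂ) • φ J' =
      ∑ j : Fin J.1, (-1 : ℂ) ^ (j : ℕ) • φ (J.face j) := by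
  simp only [Int.cast_smul_eq_zsmul]
  refine (@yi3_sum ι P (Fintype.ofFinite _) V _ J φ).trans (Finset.sum_congr rfl fun j _ => ?_)
  rw [← Int.cast_smul_eq_zsmul ℂ, Int.cast_pow, Int.cast_neg, Int.cast_one]

theorem tup_mat {T : (tupSh ι P).ι → Type} [∀ i, AddCommGroup (T i)] [∀ i, Module ℂ (T i)]
    (g : ∀ {i j}, (tupSh ι P).rel i j → T j →ₗ[ℂ] T i) (c : ∀ j, T j) (J : Tup ι P) :
    mat (tupSh ι P).ε (@g) c J =
      ∑ j : Fin J.1, (-1 : ℂ) ^ (j : ℕ) • g (J.face_sub j) (c (J.face j)) := by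
  classical
  rw [mat_apply]
  refine Eq.trans (Finset.sum_congr rfl fun J' _ => ?_) ((tup_sum J fun J' =>
    if h : (tupSh ι P).rel J J' then g h (c J') else 0).trans
      (Finset.sum_congr rfl fun j _ => congrArg (_ • ·) (dif_pos (J.face_sub j))))
  split_ifs
  · rfl
  · exact (smul_zero _).symm

open Classical in
/-- a cochain on the space `i`, placed in a diagram -/
def Dg.sgl {S : Sh} (Q : Dg S) (i : S.ι) : AS (Q.X i) →ₗ[ℂ] Q.T :=
  LinearMap.single ℂ (fun i => AS (Q.X i)) i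

theorem Dg.sgl_same {S : Sh} (Q : Dg S) (i : S.ι) (u : AS (Q.X i)) : Q.sgl i u i = u := by
  classical
  exact Pi.single_eq_same (M := fun i => AS (Q.X i)) i u

theorem Dg.sgl_ne {S : Sh} (Q : Dg S) {i j : S.ι} (h : j ≠ i) (u : AS (Q.X i)) :
    Q.sgl i u j = 0 := by
  classical
  exact Pi.single_eq_of_ne (M := fun i => AS (Q.X i)) h u

/-- a vertex of degree zero such that all arrows into it land in `A` -/
theorem Dg.sgl_mor {S : Sh} (Q : Dg S) {i : S.ι} (h0 : S.deg i = 0) {A : Set (Q.X i)}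
    (h : ∀ j (e : S.rel j i), S.ε j i ≠ 0 → ∀ x, Q.mp e x ∈ A) :
    (CP univ A).Mor (Dg.bc (P := Q) ⊤ ⊥).cx (Q.sgl i) 0 := by
  refine ⟨fun n u hu => Dg.mem_cx_G.2 fun j => ?_,
    fun n u _ hu => (Dg.mem_N (A := ⊥)).2 fun j => ?_,
    fun n u hu => (Dg.mem_N (A := ⊥)).2 fun j => ?_⟩
  · by_cases e : j = i
    · subst e
      rw [Dg.sgl_same, h0]
      exact AS.mem_cp_G.2 ⟨Cx.Gcast (C := (AS.gc _).cx ⊤ ⊤ (fun _ => id) fun _ => id) ⟨hu.1, trivial⟩
        (by simp) |>.1, fun _ ht => ht.elim⟩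
    · rw [Dg.sgl_ne Q e]
      exact zero_mem _
  · by_cases e : j = i
    · subst e
      rw [Dg.sgl_same]
      exact hu
    · rw [Dg.sgl_ne Q e]
      exact zero_mem _
  · have h1 : Q.sgl i (AS.d u) j = AS.d (Q.sgl i u j) := by
      by_cases e : j = i
      · subst e
        rw [Dg.sgl_same, Dg.sgl_same]
      · rw [Dg.sgl_ne Q e, Dg.sgl_ne Q e, map_zero]
    have h2 : mat S.ε (@Q.sys.pl) (Q.sgl i u) j ∈ zz (univ : Set (Q.X j)) := by
      refine mat_mem (g := @Q.sys.pl) fun k r hk => ?_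
      by_cases e : k = i
      · subst e
        rw [Dg.sgl_same]
        exact zz_pl (fun x _ => h j r hk x) hu.2
      · rw [Dg.sgl_ne Q e, map_zero]
        exact zero_mem _
    refine Cx.meq (neg_mem ((⊤ : Q.Fam).stab.s j _ h2)) ?_
    change _ = Q.sgl i (AS.d u) j - (AS.d (Q.sgl i u j) + _)
    rw [h1, sub_add_cancel_left]
    rfl

theorem Tup.rel_nil (J : Tup ι P) : (tupSh ι P).rel J Tup.nil := by
  rintro _ ⟨a, -⟩
  exact a.elim0

/-- a double complex whose second page vanishes is acyclic -/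
theorem yi3_e2 {T : Type} [AddCommGroup T] [Module ℂ T] {B : Bc T} {k : ℤ}
    (h : ∀ c n : ℕ, (c : ℤ) + n = k → ∀ y ∈ (B.col c).Z n, B.δ y ∈ (B.col (c + 1)).B n →
      ∃ u ∈ B.prev c n, y - B.δ u ∈ (B.col c).B n) : B.cx.Ac k := fun x hx => by
  have key : ∀ c : ℕ, ∃ y ∈ (B.fil c).Z k, x - y ∈ B.cx.B k := fun c => by
    induction c with
    | zero => exact ⟨x, Bc.mem_filZ.2 ⟨hx, HT.BG.col_zero x⟩, by simp⟩
    | succ c ih =>
      obtain ⟨y, hy, e⟩ := ih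
      rcases lt_or_ge k c with h1 | h1
      · exact ⟨0, zero_mem _, by rwa [deg_zero hy.1.1.1 hy.1.2 h1] at e⟩
      obtain ⟨n, rfl⟩ : ∃ n : ℕ, k = c + n := ⟨(k - c).toNat, by omega⟩
      obtain ⟨u, hu, e1⟩ := h c n rfl _ (Bc.lead_Z hy).1 (Bc.lead_Z hy).2
      obtain ⟨z, hz, e'⟩ := Bc.lead_B hy hu e1
      exact ⟨z, hz, Cx.meq (Submodule.add_mem _ e e') (sub_add_sub_cancel _ _ _)⟩
  obtain ⟨y, hy, e⟩ := key (k.toNat + 1)
  rwa [deg_zero hy.1.1.1 hy.1.2 (by omega), sub_zero] at e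

/-- a tuple with one more entry in front -/
def Tup.yi3_cons (i : ι) (J : Tup ι P) (h : (J.1 : ℕ) < P) : Tup ι P :=
  ⟨⟨J.1 + 1, Nat.succ_lt_succ h⟩, Fin.cons i J.2⟩

omit [Finite ι] in
theorem yi3_cons_sum (i : ι) (J : Tup ι P) (h : (J.1 : ℕ) < P) (φ : Tup ι P → ℂ) :
    ∑ j : Fin (J.yi3_cons i h).1, (-1 : ℂ) ^ (j : ℕ) * φ ((J.yi3_cons i h).face j) =
      φ J - ∑ j : Fin J.1, (-1 : ℂ) ^ (j : ℕ) *
        φ ((J.face j).yi3_cons i (by have := J.face_deg j; omega)) := by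
  obtain ⟨⟨p, h'⟩, J⟩ := J
  change ∑ j : Fin (p + 1), (-1 : ℂ) ^ (j : ℕ) * 
    φ ⟨⟨p, h'⟩, j.removeNth (α := fun _ => ι) (Fin.cons i J)⟩ = _
  rw [Fin.sum_univ_succ, sub_eq_add_neg, ← Finset.sum_neg_distrib]
  refine congrArg₂ (· + ·) (by simp) (Finset.sum_congr rfl fun j _ => ?_)
  cases p with
  | zero => exact j.elim0
  | succ p =>
    rw [Fin.val_succ, pow_succ, mul_neg_one, neg_mul]
    refine congrArg (fun L => -((-1 : ℂ) ^ (j : ℕ) * φ ⟨⟨p + 1, h'⟩, L⟩)) (funext fun a => ?_)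
    refine Fin.cases ?_ (fun a => ?_) a <;> simp [Fin.removeNth] <;> rfl

theorem yi3_ac {X : Type} [TopologicalSpace X] [CompactSpace X] [T2Space X] {K : Set X}
    (hK : K.Subsingleton) {n : ℤ} (hn : n ≠ 0) : (CP K ∅).Ac n := by
  rcases hK.eq_empty_or_singleton with rfl | ⟨x, rfl⟩
  · exact fun _ _ => Cx.N_le_B (AS.mem_cp_N.2 fun _ h => h.elim)
  · exact AS.stalk_ac x hn

theorem yi3_stalk {Q : Dg (tupSh ι P)} {B : Type} [TopologicalSpace B] (O : Q.Ov B) (t : B) (i : ι)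
    (inj : ∀ J, Function.Injective (O.π J))
    (ex : ∀ (J : Tup ι P) h x, O.π J x = t → ∃ y, O.π (J.yi3_cons i h) y = t) {k : ℤ}
    (hk : k < P) : (Dg.bc (O.fam {t}) ⊥).cx.Ac k := by
  classical
  have hs : ∀ J, ((O.fam {t}).A J).Subsingleton := fun J x hx y hy =>
    inj J (Eq.trans hx (Eq.symm hy))
  refine yi3_e2 fun c n e y hy hδ => ?_
  rw [Dg.mem_col_Z] at hy
  rcases Nat.eq_zero_or_pos n with rfl | hn
  swap
  · refine ⟨0, zero_mem _, ?_⟩
    rw [map_zero, sub_zero, Dg.mem_col_B]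
    exact fun J => ⟨fun h => yi3_ac (hs J) (by omega) ((hy J).1 h),
      fun h => by rw [(hy J).2 h]; exact zero_mem _⟩
  have hc : c < P := by omega
  let v : Tup ι P → ℂ := fun J => if h : ∃ x, O.π J x = t then (y J).1 [h.choose] else 0
  have hv : ∀ (J : Tup ι P) x, O.π J x = t → v J = (y J).1 [x] := fun J x hx => by
    have h : ∃ x, O.π J x = t := ⟨x, hx⟩
    rw [show v J = _ from dif_pos h, inj J (h.choose_spec.trans hx.symm)]
  have hz : ∀ (J : Tup ι P) x, O.π J x = t → (J.1 : ℕ) = c + 1 →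
      ∑ j : Fin J.1, (-1 : ℂ) ^ (j : ℕ) * v (J.face j) = 0 := fun J x hx hJ => by
    have h1 := AS.z_s (AS.B_zero ((Dg.mem_col_B.1 hδ J).1 hJ) x hx)
    have h2 : (AS.gc _).s ((Dg.bc (O.fam {t}) ⊥).δ y J) =
        mat (tupSh ι P).ε (@Q.sys.pl) y J := Gc.ss _
    rw [h2, tup_mat] at h1
    refine Eq.trans ?_ (AS.z_val h1)
    refine Eq.trans (Finset.sum_congr rfl fun j _ => ?_) (map_sum
      (⟨⟨fun φ : AS (Q.X J) => φ.1 [x], rfl⟩, fun _ _ => rfl⟩ : AS (Q.X J) →+ ℂ) _ _).symm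
    rw [hv _ (Q.mp (J.face_sub j) x) ((O.comm _ x).trans hx)]
    rfl
  let u : Q.T := fun J : Tup ι P =>
    if h : (J.1 : ℕ) + 1 = c then v (J.yi3_cons i (by omega)) • 1 else 0
  refine ⟨u, ?_, Cx.N_le_B ((Dg.mem_N (A := ⊥)).2 fun J : Tup ι P => zz_iff.2 fun x hx => ?_)⟩
  · cases c with
    | zero => exact funext fun J => dif_neg (Nat.succ_ne_zero _)
    | succ c =>
      refine Dg.mem_col_Z.2 fun J : Tup ι P => ⟨fun h => ?_, fun h => dif_neg fun h' => h ?_⟩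
      · rw [show u J = _ from dif_pos (congrArg (· + 1) h)]
        exact Submodule.smul_mem _ _ AS.one_mem_Z
      · exact Nat.succ_injective h'
  change y J - (AS.gc _).s (mat (tupSh ι P).ε (@Q.sys.pl) u J) ∈ AS.z x
  rw [tup_mat]
  by_cases hJ : (J.1 : ℕ) = c
  · obtain ⟨x', hx'⟩ := ex J (by omega) x hx
    have h1 := hz _ x' hx' (congrArg (· + 1) hJ)
    rw [yi3_cons_sum, sub_eq_zero, hv J x hx] at h1
    have h2 : ∑ j : Fin J.1, (-1 : ℂ) ^ (j : ℕ) • Q.sys.pl (J.face_sub j) (u (J.face j)) =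
        (y J).1 [x] • (1 : AS (Q.X J)) := by
      rw [h1, Finset.sum_smul]
      refine Finset.sum_congr rfl fun j _ => ?_
      rw [show u (J.face j) = _ from dif_pos ((J.face_deg j).symm.trans hJ), map_smul, mul_smul]
      exact congrArg (_ • _ • ·) (map_one (AS.pull _))
    rw [h2, map_smul, AS.s_of_G (n := 0) AS.one_mem_G, pow_zero, one_smul]
    have h3 := (hy J).1 hJ
    rw [(hs J).eq_singleton_of_mem hx] at h3
    exact AS.stalk_zero h3
  · rw [(hy J).2 hJ, Finset.sum_eq_zero fun j _ => ?_, map_zero, sub_zero]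
    · exact zero_mem _
    · rw [show u (J.face j) = 0 from dif_neg fun h => hJ ((J.face_deg j).trans h), map_zero,
        smul_zero]

theorem yi3_one {S : Sh} {Q : Dg S} {i : S.ι} (h0 : S.deg i = 0) (F : Q.Fam)
    (hF : ∀ j, j ≠ i → ∀ x, x ∈ F.A j) :
    (CP univ (F.A i)).Mor (Dg.bc ⊤ F).cx (Q.sgl i) 0 ∧
      (CP univ (F.A i)).QIa (Dg.bc ⊤ F).cx (Q.sgl i) 0 := by
  have m0 : (CP univ (F.A i)).Mor (Dg.bc (P := Q) ⊤ ⊥).cx (Q.sgl i) 0 :=
    Q.sgl_mor h0 fun j e h x => F.mp e (hF j (fun e' => by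
      have h1 := (S.sup _ _ h).2
      rw [e'] at h1
      omega) x)
  have m1 : (CP univ (F.A i)).Mor (Dg.bc ⊤ F).cx (Q.sgl i) 0 := by
    refine ⟨fun n x hx => Dg.mem_cx_G.2 fun j => ⟨(Dg.mem_cx_G.1 (m0.fG n x hx) j).1, ?_⟩,
      fun n x hx h => Dg.N_anti (A := ⊥) (A₁ := F) (fun _ => Subset.rfl) (m0.fN n x hx h),
      fun n x hx => by
        rw [Dg.cx_d, ← Dg.cx_d ⊤ ⊥]
        exact Dg.N_anti (A := ⊥) (A₁ := F) (fun _ => Subset.rfl) (m0.fd n x hx)⟩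
    by_cases e : j = i
    · subst e
      rw [Dg.sgl_same]
      exact hx.2
    · rw [Dg.sgl_ne Q e]
      exact zero_mem _
  have m2 : (Dg.bc ⊤ F).cx.Mor (CP univ (F.A i)) (LinearMap.proj i) (-0) := by
    refine ⟨fun n c hc => ?_, fun n c _ hc => hc i trivial, fun n c _ => ?_⟩
    · have h1 := Dg.mem_cx_G.1 hc i
      rw [h0] at h1
      exact h1
    · change AS.d (c i) + (AS.gc _).s (mat S.ε (@Q.sys.pl) c i) - AS.d (c i) ∈ _
      rw [mat_eq_zero (g := @Q.sys.pl) fun j _ h => absurd (S.sup _ _ h).2 (by omega), map_zero,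
        add_zero, sub_self]
      exact zero_mem _
  refine ⟨m1, Cx.qia_of_inv _ m1 m2 (fun n x _ => Cx.meq (zero_mem _)
    (sub_eq_zero.2 (Q.sgl_same _ x)).symm) fun n c hc =>
      Cx.N_le_B ((Dg.mem_N (A := F)).2 fun j => ?_)⟩
  change Q.sgl i (c i) j - c j ∈ _
  by_cases e : j = i
  · subst e
    rw [Dg.sgl_same, sub_self]
    exact zero_mem _
  · rw [Dg.sgl_ne Q e, zero_sub]
    exact neg_mem (SC.zz_anti (fun x _ => hF j e x) (hc.1.2 j trivial))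

/-- the diagram of intersections computes the relative cohomology -/
theorem simp_qi (Q : Dg (tupSh ι P)) (A : ι → Set (Q.X Tup.nil)) (hA : ∀ i, IsClosed (A i))
    (h0 : ∀ x, Q.mp (Tup.rel_nil Tup.nil) x = x)
    (inj : ∀ J : Tup ι P, Function.Injective (Q.mp J.rel_nil))
    (rng : ∀ J : Tup ι P, range (Q.mp J.rel_nil) = {t | ∀ a, t ∈ A (J.2 a)}) :
    (CP univ (⋃ i, A i)).QI (Dg.bc (P := Q) ⊤ ⊥).cx (Q.sgl Tup.nil) 0 P := by
  let O : Q.Ov (Q.X Tup.nil) := ⟨fun J : Tup ι P => Q.mp J.rel_nil, fun h x => Q.comp h _ x⟩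
  have hW : IsClosed (⋃ i, A i) := isClosed_iUnion_of_finite hA
  have hr : ∀ (J : Tup ι P) x a, O.π J x ∈ A (J.2 a) := fun J x =>
    (Set.ext_iff.1 (rng J) _).1 (mem_range_self x)
  have hU : ∀ J : Tup ι P, J ≠ Tup.nil → ∀ x, O.π J x ∈ ⋃ i, A i := fun J h x =>
    mem_iUnion_of_mem _ (hr J x ⟨0, Nat.pos_of_ne_zero fun e => h (Tup.eq_nil e)⟩)
  have hn : (O.fam (⋃ i, A i)).A Tup.nil = ⋃ i, A i :=
    Set.ext fun x => iff_of_eq (congrArg (· ∈ ⋃ i, A i) (h0 x))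
  obtain ⟨m1, q1⟩ := yi3_one (Q := Q) (i := Tup.nil) rfl (O.fam (⋃ i, A i)) hU
  rw [hn] at m1 q1
  have a1 := SC.soft (S := O.sc) (n := P - 1) hW isClosed_empty fun t ht k hk => by
    obtain ⟨i, hi⟩ := mem_iUnion.1 ht.1
    rw [O.sc_cx, O.fam_empty]
    refine yi3_stalk O t i inj (fun J h x hx => (Set.ext_iff.1 (rng _) t).2 fun a => ?_)
      (by omega)
    exact Fin.cases hi (fun a => hx ▸ hr J x a) a
  rw [O.sc_cx, O.fam_empty] at a1
  have q2 := Cx.qi_sub (C := (Dg.bc (P := Q) ⊤ ⊥).cx) (n := P + 0)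
    (Dg.N_D (A := ⊥) (O.fam (⋃ i, A i))) (Dg.N_anti fun _ => subset_univ _) fun k hk => by
      rw [Dg.cx_quo fun _ => subset_univ _]
      exact a1 k (by omega)
  rw [Dg.cx_sub, Dg.Fam.bot_sup] at q2
  have q3 := Cx.QI.comp m1 (Dg.mor_id (K₁ := ⊤) (A₁ := ⊥) (fun _ => Subset.rfl)
    fun _ => empty_subset _).cx q2 (q1 P)
  rwa [LinearMap.id_comp, add_zero] at q3

end Pool.Agent.CS
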