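import Pool.Agent.K.MP_d34769_ag.C46

/-! Cohomology of a ball relative to its boundary. -/

open Set Metric

noncomputable section
namespace Pool.Agent.CS

/-- the cohomology of degree `n` is spanned by one class -/
def Cx.Le1 {T : Type} [AddCommGroup T] [Module ℂ T] (C : Cx T) (n : ℤ) : Prop :=
  ∃ a ∈ C.Z n, ∀ b ∈ C.Z n, ∃ r : ℂ, b - r • a ∈ C.B n

section
variable {T T' : Type} [AddCommGroup T] [Module ℂ T] [AddCommGroup T'] [Module ℂ T'] {C : Cx T}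
  {C' : Cx T'} {f : T →ₗ[ℂ] T'} {s n : ℤ}

theorem Cx.Le1.of_inj (i : C.Inj C' f s n) (h : C.Mor C' f s) (a : C'.Le1 (n + s)) : C.Le1 n := by
  obtain ⟨a', _, ha⟩ := a
  by_cases h0 : ∃ x ∈ C.Z n, x ∉ C.B n
  · obtain ⟨x, hx, hxB⟩ := h0
    refine ⟨x, hx, fun b hb => ?_⟩
    obtain ⟨r, hr⟩ := ha _ (h.mem_Z hx)
    obtain ⟨r', hr'⟩ := ha _ (h.mem_Z hb)
    have hr0 : r ≠ 0 := by
      rintro rfl
      rw [zero_smul, sub_zero] at hr
      exact hxB (i x hx hr)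
    refine ⟨r' / r, i _ ((C.Z n).sub_mem hb ((C.Z n).smul_mem _ hx)) ?_⟩
    refine Cx.meq ((C'.B _).sub_mem hr' ((C'.B _).smul_mem (r' / r) hr)) ?_
    rw [map_sub, map_smul, smul_sub, smul_smul, div_mul_cancel₀ _ hr0]
    abel
  · refine ⟨0, (C.Z n).zero_mem, fun b hb => ⟨0, ?_⟩⟩
    rw [smul_zero, sub_zero]
    by_contra h1
    exact h0 ⟨b, hb, h1⟩

theorem Cx.Le1.of_sur (u : C.Sur C' f s n) (h : C.Mor C' f s) (a : C.Le1 n) : C'.Le1 (n + s) := by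
  obtain ⟨a, ha, hb⟩ := a
  refine ⟨f a, h.mem_Z ha, fun y hy => ?_⟩
  obtain ⟨x, hx, e⟩ := u y hy
  obtain ⟨r, hr⟩ := hb x hx
  have h1 := h.mem_B ((C.G n).sub_mem hx.1 ((C.G n).smul_mem r ha.1)) hr
  refine ⟨r, Cx.meq ((C'.B _).add_mem e h1) ?_⟩
  rw [map_sub, map_smul]
  abel

theorem Cx.Ac.le1 (a : C.Ac n) : C.Le1 n :=
  ⟨0, (C.Z n).zero_mem, fun b hb => ⟨0, by rw [smul_zero, sub_zero]; exact a hb⟩⟩

/-- a nonzero map out of a line is injective -/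
theorem Cx.Le1.inj (a : C.Le1 n) (h : C.Mor C' f s) {x : T} (hx : x ∈ C.Z n)
    (e : f x ∉ C'.B (n + s)) : C.Inj C' f s n := by
  obtain ⟨a, ha, hb⟩ := a
  intro y hy hf
  obtain ⟨r, hr⟩ := hb x hx
  obtain ⟨r', hr'⟩ := hb y hy
  have h1 := h.mem_B ((C.G n).sub_mem hx.1 ((C.G n).smul_mem r ha.1)) hr
  have h2 := h.mem_B ((C.G n).sub_mem hy.1 ((C.G n).smul_mem r' ha.1)) hr'
  by_cases h0 : r' = 0
  · rwa [h0, zero_smul, sub_zero] at hr'
  · refine absurd ?_ e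
    have h3 : r' • f a ∈ C'.B (n + s) := by
      refine Cx.meq ((C'.B _).sub_mem hf h2) ?_
      rw [map_sub, map_smul, sub_sub_cancel]
    refine Cx.meq ((C'.B _).add_mem h1 ((C'.B _).smul_mem r (((C'.B _).smul_mem_iff h0).1 h3))) ?_
    rw [map_sub, map_smul, sub_add_cancel]

/-- the connecting map carries a line to a line -/
theorem Cx.le1_sub {U : Submodule ℂ T} (hU : ∀ x ∈ U, C.d x ∈ U) (hN : C.N ≤ U)
    (a : C.Ac (n + 1)) (b : (C.quo U hU hN).Le1 n) : (C.sub U hU).Le1 (n + 1) := by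
  obtain ⟨x, hx, hb⟩ := b
  refine ⟨C.d x, Cx.d_mem_subZ hU hN hx, fun y hy => ?_⟩
  obtain ⟨hy1, hy2⟩ := (Cx.mem_subZ hU).1 hy
  obtain ⟨c, hc, e⟩ := (Cx.mem_B' rfl).1 (a hy1)
  have h1 : C.d c ∈ U := Cx.meq (U.sub_mem hy2 (hN e)) (sub_sub_cancel _ _)
  obtain ⟨r, hr⟩ := hb c ((Cx.mem_quoZ hU hN).2 ⟨hc, h1⟩)
  obtain ⟨u, hu, e'⟩ := (Cx.mem_quoB hU hN (sub_add_cancel n 1)).1 hr
  have h2 : C.d u ∈ C.G n := Cx.Gcast (C.dG _ u hu) (sub_add_cancel n 1)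
  refine ⟨r, (Cx.mem_subB hU rfl).2 ⟨c - r • x - C.d u,
    ⟨(C.G n).sub_mem ((C.G n).sub_mem hc ((C.G n).smul_mem r hx.1)) h2, e'⟩, ?_⟩⟩
  refine Cx.meq (C.N.add_mem e (C.dd _ u hu)) ?_
  rw [map_sub, map_sub, map_smul]
  abel

/-- cohomology only in degree `m`, and there at most a line -/
def Cx.Sph (C : Cx T) (m : ℤ) : Prop := (∀ n, n ≠ m → C.Ac n) ∧ C.Le1 m

theorem Cx.Sph.le1 {m : ℤ} (h : C.Sph m) (n : ℤ) : C.Le1 n := by
  by_cases e : n = m
  · exact e ▸ h.2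
  · exact (h.1 n e).le1

theorem Cx.Sph.of_qia {m : ℤ} (q : C.QIa C' f 0) (h : C.Mor C' f 0) (a : C'.Sph m) : C.Sph m :=
  ⟨fun n e => Cx.Ac.of_inj (q.inj n) h (by rw [add_zero]; exact a.1 n e),
    Cx.Le1.of_inj (q.inj m) h (by rw [add_zero]; exact a.2)⟩

end

variable {X : Type} [TopologicalSpace X] [CompactSpace X] [T2Space X] {V : Type}
  [NormedAddCommGroup V] [NormedSpace ℝ V] [FiniteDimensional ℝ V]

/-- the closed unit ball -/
abbrev Bl (V : Type) [NormedAddCommGroup V] : Type := closedBall (0 : V) 1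

instance : CompactSpace (Bl V) :=
  haveI := FiniteDimensional.proper_real V
  isCompact_iff_compactSpace.1 (isCompact_closedBall 0 1)

/-- the unit sphere -/
def Bd (V : Type) [NormedAddCommGroup V] : Set (Bl V) := {v | ‖v.1‖ = 1}

theorem isClosed_Bd (V : Type) [NormedAddCommGroup V] : IsClosed (Bd V) :=
  isClosed_eq (continuous_norm.comp continuous_subtype_val) continuous_const

omit [NormedSpace ℝ V] [FiniteDimensional ℝ V] in
theorem ys5_le (v : Bl V) : ‖v.1‖ ≤ 1 := mem_closedBall_zero_iff.1 v.2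

theorem ys5_cell (κ : C(Bl V, X)) {K A : Set X} (hK : IsClosed K) (hA : IsClosed A)
    (mK : ∀ v, κ v ∈ K) (mA : ∀ v, κ v ∈ A ↔ v ∈ Bd V) (h : ∀ t ∈ K \ A, ∃! v, κ v = t) :
    (CP K A).QIa (CP univ (Bd V)) (AS.pl κ) 0 :=
  exc κ hK hA isClosed_univ (isClosed_Bd V) (fun v _ => mK v) (fun v hv => (mA v).2 hv)
    (fun v _ hv => (mA v).1 hv) fun t ht => by simpa using h t ht

theorem ys5_cell_sph (κ : C(Bl V, X)) {K A : Set X} (hK : IsClosed K) (hA : IsClosed A)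
    (mK : ∀ v, κ v ∈ K) (mA : ∀ v, κ v ∈ A ↔ v ∈ Bd V) (h : ∀ t ∈ K \ A, ∃! v, κ v = t) {m : ℤ}
    (a : (CP univ (Bd V)).Sph m) : (CP K A).Sph m :=
  a.of_qia (ys5_cell κ hK hA mK mA h)
    (mor_pl κ (fun v _ => mK v) fun v hv => (mA v).2 hv)

theorem ys5_zero (h : Module.finrank ℝ V = 0) : (CP univ (Bd V)).Sph 0 := by
  have : Subsingleton V := Module.finrank_zero_iff.1 h
  have h1 : Bd V = ∅ := eq_empty_of_forall_notMem fun v hv => by
    have h2 : ‖v.1‖ = 1 := hv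
    rw [Subsingleton.elim v.1 0, norm_zero] at h2
    exact zero_ne_one h2
  let x : Bl V := ⟨0, mem_closedBall_self zero_le_one⟩
  have h2 : (univ : Set (Bl V)) = {x} := (eq_univ_of_forall fun v => Subsingleton.elim v x).symm
  rw [h1, h2]
  refine ⟨fun n e => stalk_ac x e, 1, ⟨mem_CP_G.2 ⟨AS.one_mem_G, fun t ht => ht.elim⟩, ?_⟩,
    fun b hb => ⟨b.1 [x], Cx.N_le_B (mem_CP_N.2 fun t ht => ?_)⟩⟩
  · show AS.d (1 : AS (Bl V)) ∈ (CP {x} ∅).N
    rw [AS.d_one]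
    exact Submodule.zero_mem _
  · rw [mem_singleton_iff.1 ht]
    exact stalk_zero x hb

theorem ys5_equiv {W : Type} [NormedAddCommGroup W] [NormedSpace ℝ W] [FiniteDimensional ℝ W]
    (e : W ≃L[ℝ] V) {m : ℤ} (a : (CP univ (Bd W)).Sph m) : (CP univ (Bd V)).Sph m := by
  obtain ⟨h, -, h2, h3⟩ := exists_homeomorph_image_interior_closure_frontier_eq_unitBall
    (s := e '' closedBall 0 1) ((convex_closedBall 0 1).linear_image e.toLinearMap)
    (by
      have h1 := e.toHomeomorph.image_interior (closedBall 0 1)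
      rw [ContinuousLinearEquiv.coe_toHomeomorph] at h1
      rw [← h1, interior_closedBall _ one_ne_zero]
      exact ⟨e 0, 0, mem_ball_self one_pos, rfl⟩)
    (e.lipschitz.isBounded_image isBounded_closedBall)
  have h4 := e.toHomeomorph.image_closure (closedBall 0 1)
  have h5 := e.toHomeomorph.image_frontier (closedBall 0 1)
  rw [ContinuousLinearEquiv.coe_toHomeomorph] at h4 h5
  rw [← h4, isClosed_closedBall.closure_eq, image_image] at h2
  rw [← h5, frontier_closedBall _ one_ne_zero, image_image] at h3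
  have hi : Function.Injective fun w => h (e w) := h.injective.comp e.injective
  let κ : C(Bl W, Bl V) := ⟨fun w => ⟨h (e w.1), h2 ▸ mem_image_of_mem _ w.2⟩,
    ((h.continuous.comp e.continuous).comp continuous_subtype_val).subtype_mk _⟩
  refine ys5_cell_sph κ isClosed_univ (isClosed_Bd V) (fun _ => trivial) (fun w => ?_)
    (fun t _ => ?_) a
  · show ‖h (e w.1)‖ = 1 ↔ ‖w.1‖ = 1
    rw [← mem_sphere_zero_iff_norm, ← mem_sphere_zero_iff_norm, ← h3]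
    exact hi.mem_set_image
  · obtain ⟨w, hw, e1⟩ := h2.ge t.2
    refine ⟨⟨w, hw⟩, Subtype.ext e1, fun w' e2 => Subtype.ext (hi ?_)⟩
    exact (congrArg Subtype.val e2).trans e1.symm

theorem ys5_step {m : ℤ} (a : (CP univ (Bd V)).Sph m) : (CP univ (Bd (V × ℝ))).Sph (m + 1) := by
  have hle : ∀ x : Bl (V × ℝ), ‖x.1.1‖ ≤ 1 ∧ |x.1.2| ≤ 1 := fun x => by
    have h1 := ys5_le x
    rwa [Prod.norm_def, max_le_iff, Real.norm_eq_abs] at h1
  have hm : ∀ (v : V) (t : ℝ), ‖v‖ ≤ 1 → |t| ≤ 1 → (v, t) ∈ closedBall (0 : V × ℝ) 1 :=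
    fun v t h1 h2 => by
      rw [mem_closedBall_zero_iff, Prod.norm_def, max_le_iff]
      exact ⟨h1, h2⟩
  let A : Set (Bl (V × ℝ)) := {x | ‖x.1.1‖ = 1 ∨ x.1.2 = -1}
  have hA : IsClosed A := IsClosed.union (isClosed_eq (by fun_prop) continuous_const)
    (isClosed_eq (f := fun x : Bl (V × ℝ) => x.1.2) (by fun_prop) continuous_const)
  have hAB : A ⊆ Bd (V × ℝ) := fun x hx => by
    refine le_antisymm (ys5_le x) ?_
    rcases hx with h1 | h1
    · exact h1.ge.trans (norm_fst_le x.1)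
    · have h2 := norm_snd_le x.1
      rwa [h1, norm_neg, norm_one] at h2
  have hs : ∀ (s : unitInterval) (x : Bl (V × ℝ)), |(1 - s.1) * x.1.2 - s.1| ≤ 1 := fun s x => by
    have h1 := abs_le.1 (hle x).2
    have h2 := s.2.1
    have h3 := s.2.2
    rw [abs_le]
    constructor <;> nlinarith
  let r : C(Bl (V × ℝ), Bl (V × ℝ)) :=
    ⟨fun x => ⟨(x.1.1, -1), hm _ _ (hle x).1 (by simp)⟩, by fun_prop⟩
  let H : (ContinuousMap.id (Bl (V × ℝ))).Homotopy r :=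
    { toFun := fun p => ⟨(p.2.1.1, (1 - p.1.1) * p.2.1.2 - p.1.1), hm _ _ (hle p.2).1 (hs _ _)⟩
      continuous_toFun := by fun_prop
      map_zero_left := fun x => Subtype.ext (by simp)
      map_one_left := fun x => Subtype.ext (by simp [r]) }
  have h1 : ∀ n, (CP univ A).Ac n :=
    ac_of_deform H isClosed_univ hA (fun _ _ _ => trivial) (fun s x hx => hx.imp id fun h2 => by
      show (1 - s.1) * x.1.2 - s.1 = -1
      rw [h2]
      ring) fun x _ => Or.inr rfl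
  let κ : C(Bl V, Bl (V × ℝ)) := ⟨fun v => ⟨(v.1, 1), hm _ _ (ys5_le v) (by simp)⟩, by fun_prop⟩
  have h2 : (CP (Bd (V × ℝ)) A).Sph m := by
    refine ys5_cell_sph κ (isClosed_Bd _) hA (fun v => ?_) (fun v => ?_) (fun t ht => ?_) a
    · refine le_antisymm (ys5_le _) ?_
      exact (norm_one (α := ℝ)).ge.trans (norm_snd_le (κ v).1)
    · exact ⟨fun h3 => h3.resolve_right (by norm_num [κ]), Or.inl⟩
    · have h3 : t.1.2 = 1 := by
        have h4 : max ‖t.1.1‖ ‖t.1.2‖ = 1 := ht.1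
        have h5 := not_or.1 ht.2
        rcases max_choice ‖t.1.1‖ ‖t.1.2‖ with h6 | h6
        · exact absurd (h6.symm.trans h4) h5.1
        · exact ((abs_eq zero_le_one).1 (h6.symm.trans h4)).resolve_right h5.2
      refine ⟨⟨t.1.1, mem_closedBall_zero_iff.2 (hle t).1⟩, Subtype.ext (Prod.ext rfl h3.symm),
        fun v hv => Subtype.ext ?_⟩
      exact congrArg (fun x : Bl (V × ℝ) => x.1.1) hv
  have h3 := (AS.sc (Bl (V × ℝ))).cx_sub univ A (Bd (V × ℝ))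
  rw [union_eq_self_of_subset_left hAB] at h3
  rw [CP, ← h3]
  refine ⟨fun n e => ?_, Cx.le1_sub _ (SC.zz_anti (subset_univ _)) (h1 _) h2.2⟩
  obtain ⟨j, rfl⟩ : ∃ j, n = j + 1 := ⟨n - 1, by ring⟩
  exact Cx.ac_sub _ (SC.zz_anti (subset_univ _)) (h1 _) (h2.1 j fun h4 => e (by rw [h4]))

theorem ys5_ball (k : ℕ) : ∀ (V : Type) [NormedAddCommGroup V] [NormedSpace ℝ V]
    [FiniteDimensional ℝ V], Module.finrank ℝ V = k → (CP univ (Bd V)).Sph k := by
  induction k with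
  | zero => intro V _ _ _ h; exact ys5_zero h
  | succ k ih =>
    intro V _ _ _ h
    have h1 := ys5_step (ih (Fin k → ℝ) (by simp))
    exact ys5_equiv (ContinuousLinearEquiv.ofFinrankEq (by simp [h])) h1

theorem ball_ac {n : ℤ} (h : n ≠ Module.finrank ℝ V) : (CP univ (Bd V)).Ac n :=
  (ys5_ball _ V rfl).1 n h

theorem ball_le1 (n : ℤ) : (CP univ (Bd V)).Le1 n := (ys5_ball _ V rfl).le1 n

section
variable (κ : C(Bl V, X)) {K A : Set X} (hK : IsClosed K) (hA : IsClosed A) (mK : ∀ v, κ v ∈ K)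
  (mA : ∀ v, κ v ∈ A ↔ v ∈ Bd V) (h : ∀ t ∈ K \ A, ∃! v, κ v = t)
include hK hA mK mA h

theorem cell_qia : (CP K A).QIa (CP univ (Bd V)) (AS.pl κ) 0 := ys5_cell κ hK hA mK mA h

theorem cell_ac {n : ℤ} (e : n ≠ Module.finrank ℝ V) : (CP K A).Ac n :=
  (ys5_cell_sph κ hK hA mK mA h (ys5_ball _ V rfl)).1 n e

theorem cell_le1 (n : ℤ) : (CP K A).Le1 n :=
  (ys5_cell_sph κ hK hA mK mA h (ys5_ball _ V rfl)).le1 n

end

end Pool.Agent.CS
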