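import Pool.Agent.K.MP_d34769_ag.C43
import Pool.Agent.K.MP_d34769_ag.C45
import Pool.Agent.K.MP_d34769_ag.C47

/-! The cohomology of projective space. -/

open Matrix Set
open scoped Kronecker

noncomputable section
namespace Pool.Agent.CS

variable {μ ν : Type} [Fintype μ] [Fintype ν] {X Y B : Type} [TopologicalSpace X]
  [TopologicalSpace Y] [TopologicalSpace B] {r s : ℕ} {Q : Matrix μ μ ℂ}

/-- VAN: lines with sections that have no common zero -/
theorem van [CompactSpace Y] [T2Space Y] {τ : Type} {κ : τ → Type} [∀ t, Fintype (κ t)]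
    (S : Finset τ) (L : ∀ t, Bun Y (κ t) 1) (σ : ∀ t, Y → κ t → ℂ) (hσ : ∀ t ∈ S, Continuous (σ t))
    (h : ∀ y, ∃ t ∈ S, (L t).Q y *ᵥ σ t y ≠ 0) : ∏ t ∈ S, (L t).x = 0 :=
  supp_fin S (fun t => {y | (L t).Q y *ᵥ σ t y ≠ 0})
    (fun t ht => isOpen_ne_fun ((L t).cont.matrix_mulVec (hσ t ht)) continuous_const) h _
    fun t ht _ _ hK => (L t).res_x_sec (hσ t ht) fun _ hy => hK hy

/-- VAN for maps between lines -/
theorem van_iso [CompactSpace Y] [T2Space Y] {τ : Type} {κ κ' : τ → Type} [∀ t, Fintype (κ t)]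
    [∀ t, Fintype (κ' t)] (S : Finset τ) (L : ∀ t, Bun Y (κ t) 1) (L' : ∀ t, Bun Y (κ' t) 1)
    (A : ∀ t, Y → Matrix (κ' t) (κ t) ℂ) (hA : ∀ t ∈ S, Continuous (A t))
    (h : ∀ y, ∃ t ∈ S, (L' t).Q y * A t y * (L t).Q y ≠ 0) :
    ∏ t ∈ S, ((L' t).x - (L t).x) = 0 :=
  supp_fin S (fun t => {y | (L' t).Q y * A t y * (L t).Q y ≠ 0})
    (fun t ht => isOpen_ne_fun (((L' t).cont.matrix_mul (hA t ht)).matrix_mul (L t).cont)
      continuous_const) h _
    fun t ht _ _ hK => (L t).res_x_iso (L' t) (hA t ht) fun _ hy => hK hy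

theorem OP.kron' {P : Matrix ν ν ℂ} (h : OP r Q) (h' : OP s P) : OP (r * s) (Q ⊗ₖ P) :=
  ⟨by rw [conjTranspose_kronecker, h.herm, h'.herm], by rw [← mul_kronecker_mul, h.idem, h'.idem],
    by rw [trace_kronecker, h.tr, h'.tr]; simp⟩

theorem OP.exists_fix (h : OP (r + 1) Q) : ∃ e : μ → ℂ, e ≠ 0 ∧ Q *ᵥ e = e := by
  obtain ⟨i, j, hij⟩ : ∃ i j, Q i j ≠ 0 := by
    by_contra hc
    push Not at hc
    exact h.ne_zero (Matrix.ext hc)
  exact ⟨fun k => Q k j, fun e => hij (congrFun e i), funext fun k => congrFun (congrFun h.idem k) j⟩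

theorem OP.sub_lnv (h : OP (r + 1) Q) {e : μ → ℂ} (he : e ≠ 0) (hQe : Q *ᵥ e = e) :
    OP r (Q - CS.lnv e) := OP.sub (s := 1) (by rwa [add_comm]) (OP.lnv he) (le_lnv hQe)

theorem IsPP.isEmpty {L : Bun X μ 1} (h : IsPP Q L) (hQ : OP 0 Q) : IsEmpty X :=
  ⟨fun x => (L.op x).ne_zero (by rw [← h.le x, hQ.eq_zero, Matrix.zero_mul])⟩

theorem CP_B_CC [CompactSpace X] [T2Space X] {A : Set X} {a : AS X} {n : ℤ}
    (h : a ∈ (CP univ A).B n) : a ∈ (CC X).B n := by
  obtain ⟨b, hb, e⟩ := Cx.mem_B.1 h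
  exact Cx.mem_B.2 ⟨b, mem_CC_G.2 hb.1, e⟩

theorem isClosed_hyp (L : Bun X μ 1) (e : μ → ℂ) : IsClosed {x | L.Q x *ᵥ e = 0} :=
  isClosed_eq (L.cont.matrix_mulVec continuous_const) continuous_const

section
variable [CompactSpace X] [T2Space X] {L : Bun X μ 1}

/-- the cell that is the complement of a hyperplane -/
theorem IsPP.cell' (h : IsPP Q L) (hQ : OP (r + 1) Q) {e : μ → ℂ} (he : e ≠ 0) (hQe : Q *ᵥ e = e) :
    (∀ n : ℤ, n ≠ 2 * r → (CP univ {x | L.Q x *ᵥ e = 0}).Ac n) ∧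
      ∀ n, (CP univ {x | L.Q x *ᵥ e = 0}).Le1 n := by
  obtain ⟨T, hT, hr⟩ := (hQ.sub_lnv he hQe).exists_coord
  have hl : ∀ w, lnv e *ᵥ w = ((star e ⬝ᵥ e)⁻¹ * (star e ⬝ᵥ w)) • e := fun w => by
    rw [lnv, smul_mulVec, vecMulVec_mulVec, op_smul_eq_smul, smul_smul]
  obtain ⟨g, -, h1, h2⟩ := h.cell hQ he hQe hT fun w => (hr w).trans ⟨fun hw => by
      have a : lnv e *ᵥ w = 0 := by
        rw [← hw, mulVec_mulVec, mul_sub, hQ.comm (OP.lnv he) (le_lnv hQe), (OP.lnv he).idem,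
          sub_self, zero_mulVec]
      refine ⟨by rwa [sub_mulVec, a, sub_zero] at hw, ?_⟩
      rw [hl, smul_eq_zero, or_iff_left he, mul_eq_zero] at a
      exact a.resolve_left (inv_ne_zero (star_dot_ne he)),
    fun hw => by rw [sub_mulVec, hw.1, hl, hw.2, mul_zero, zero_smul, sub_zero]⟩
  exact ⟨fun n hn => cell_ac g isClosed_univ (isClosed_hyp L e) (fun _ => trivial) h1
      (fun t ht => h2 t ht.2) (by simpa using hn),
    cell_le1 g isClosed_univ (isClosed_hyp L e) (fun _ => trivial) h1 fun t ht => h2 t ht.2⟩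

/-- restriction to a hyperplane is injective below the top degree -/
theorem IsPP.res_inj (h : IsPP Q L) (hQ : OP (r + 1) Q) {e : μ → ℂ} (he : e ≠ 0)
    (hQe : Q *ᵥ e = e) {n : ℤ} (hn : n ≠ 2 * r) {c : HR X} (hc : c ∈ hr X n)
    (h0 : HR.res {x | L.Q x *ᵥ e = 0} c = 0) : c = 0 := by
  obtain ⟨a, ha, rfl⟩ := exists_rel (isClosed_hyp L e) hc h0
  exact (cl_eq_zero (CP_Z_CC ha)).2 (CP_B_CC ((h.cell' hQ he hQe).1 n hn ha))

end

theorem IsPP.hr_bot (r : ℕ) : ∀ {X : Type} [TopologicalSpace X] [CompactSpace X] [T2Space X]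
    {Q : Matrix μ μ ℂ} {L : Bun X μ 1}, IsPP Q L → OP r Q → ∀ n : ℤ, 2 * r ≤ n + 1 → hr X n = ⊥ := by
  induction r with
  | zero =>
    intro X _ _ _ Q L h hQ n _
    have := h.isEmpty hQ
    have := HR.subsingleton (X := X)
    exact Subsingleton.elim _ _
  | succ r ih =>
    intro X _ _ _ Q L h hQ n hn
    obtain ⟨e, he, hQe⟩ := hQ.exists_fix
    have := isCompact_iff_compactSpace.1 (isClosed_hyp L e).isCompact
    refine (Submodule.eq_bot_iff _).2 fun c hc => h.res_inj hQ he hQe (by omega) hc ?_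
    have := pull_mem_hr ⟨Subtype.val, continuous_subtype_val⟩ (X := X) (Y := {x | L.Q x *ᵥ e = 0}) hc
    rwa [ih (h.hyp hQ he hQe) (hQ.sub_lnv he hQe) n (by omega)] at this

theorem Bun.x_pow_mem (L : Bun Y μ 1) (j : ℕ) : (L.x ^ j).1 ∈ hr Y (2 * j : ℕ) := by
  have := pow_mem_hr L.x_mem j
  rw [mul_comm] at this
  exact_mod_cast this

section
variable [CompactSpace X] [T2Space X] {L : Bun X μ 1}

theorem IsPP.x_pow (h : IsPP Q L) (hQ : OP r Q) : L.x ^ r = 0 := by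
  have := L.x_pow_mem r
  rw [h.hr_bot r hQ _ (by omega)] at this
  exact Subtype.ext this

omit [T2Space X] in
/-- the classifying map of a line inside a trivial bundle of the same rank -/
theorem IsPP.exists_map (h : IsPP Q L) (hQ : OP r Q) {P : Matrix ν ν ℂ} (hP : OP r P)
    (M : Bun Y ν 1) (hM : ∀ y, P * M.Q y = M.Q y) : ∃ F : C(Y, X), HE.pull F L.x = M.x := by
  obtain ⟨u, u1, u2⟩ := hQ.exists_iso
  obtain ⟨w, w1, w2⟩ := hP.exists_iso
  have h0 : ∀ y, u * wᴴ * M.Q y ≠ 0 := fun y e => (M.op y).ne_zero (by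
    have := congrArg (w * uᴴ * ·) e
    simp only [Matrix.mul_zero] at this
    rw [← hM, ← this, ← w2]
    simp only [Matrix.mul_assoc]
    rw [← Matrix.mul_assoc uᴴ, u1, Matrix.one_mul])
  obtain ⟨M', m1, m2⟩ := M.exists_img (A := fun _ => u * wᴴ) continuous_const h0
  obtain ⟨F, hF⟩ := h.exists_lift hQ M' fun y => m2 y Q (by
    rw [← u2]
    simp only [Matrix.mul_assoc]
    rw [← Matrix.mul_assoc uᴴ, u1, Matrix.one_mul])
  refine ⟨F, ?_⟩
  rw [L.pull_x, hF]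
  exact M.x_iso M' (A := fun _ => u * wᴴ) continuous_const fun y => by
    rw [Matrix.mul_assoc, m1]; exact h0 y

end

theorem add_pow_sq_zero {R : Type} [CommRing R] {x y : R} (h : y ^ 2 = 0) (n : ℕ) :
    (x + y) ^ (n + 1) = x ^ (n + 1) + (n + 1) * (x ^ n * y) := by
  induction n with
  | zero => simp
  | succ n ih =>
    rw [pow_succ, ih]
    push_cast
    linear_combination ((n + 1) * x ^ n) * h

/-- some line in a trivial bundle of rank `r` has a class with nonzero `j`-th power -/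
def NZ (r j : ℕ) : Prop :=
  ∃ (Y ν : Type) (_ : TopologicalSpace Y) (_ : Fintype ν) (P : Matrix ν ν ℂ) (M : Bun Y ν 1),
    OP r P ∧ (∀ y, P * M.Q y = M.Q y) ∧ M.x ^ j ≠ 0

theorem NZ.pp [CompactSpace X] {L : Bun X μ 1} {j : ℕ} (z : NZ r j) (h : IsPP Q L) (hQ : OP r Q) :
    L.x ^ j ≠ 0 := fun e => by
  obtain ⟨Y, ν, _, _, P, M, hP, hM, hj⟩ := z
  obtain ⟨F, hF⟩ := h.exists_map hQ hP M hM
  exact hj (by rw [← hF, ← map_pow, e, map_zero])

theorem op_one (r : ℕ) : OP r (1 : Matrix (Fin r) (Fin r) ℂ) := by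
  simpa using OP.one (μ := Fin r)

theorem NZ.pred {j : ℕ} (z : NZ (r + 1) j) (hj : j ≠ r) : NZ r j := by
  have hQ := op_one (r + 1)
  have h := isPP_model hQ
  obtain ⟨e, he, hQe⟩ := hQ.exists_fix
  refine ⟨_, _, _, _, _, _, hQ.sub_lnv he hQe, (h.hyp hQ he hQe).le, fun e0 => z.pp h hQ ?_⟩
  refine Subtype.ext (h.res_inj hQ he hQe (by omega) (Bun.x_pow_mem _ j) ?_)
  rw [← Bun.pull_x, ← map_pow] at e0
  exact congrArg Subtype.val e0

theorem NZ.down {j : ℕ} (k : ℕ) (z : NZ (j + 1 + k) j) : NZ (j + 1) j := by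
  induction k with
  | zero => exact z
  | succ k ih => exact ih (NZ.pred z (by omega))

theorem nz (j : ℕ) : NZ (j + 1) j := by
  induction j with
  | zero =>
    have h1 : OP 1 (1 : Matrix Unit Unit ℂ) := ⟨by simp, by simp, by simp⟩
    have := HR.nontrivial (X := Unit)
    exact ⟨Unit, Unit, _, _, 1, Bun.const Unit h1, h1, fun _ => Matrix.one_mul _, fun e =>
      one_ne_zero (congrArg Subtype.val ((pow_zero _).symm.trans e))⟩
  | succ j ih =>
    have hQ := op_one (j + 1)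
    have hP := op_one 2
    have h := isPP_model hQ
    have h' := isPP_model hP
    refine NZ.down j ⟨_, _, _, _, _, ((Ln.l (Bun.const Unit hQ).ld ()).comap ContinuousMap.fst).tens
      ((Ln.l (Bun.const Unit hP).ld ()).comap ContinuousMap.snd), (show (j + 1) * 2 = j + 1 + 1 + j by ring) ▸
        hQ.kron' hP, fun y => ?_, ?_⟩
    · rw [one_kronecker_one, Matrix.one_mul]
    · rw [Bun.x_tens, ← Bun.pull_x, ← Bun.pull_x, add_pow_sq_zero (by
        rw [← map_pow, h'.x_pow hP, map_zero]), ← map_pow, h.x_pow hQ, map_zero, zero_add, ← map_pow]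
      intro e
      have e1 := congrArg (fun c => (((j : ℂ) + 1)⁻¹ • c).1) e
      rw [show ((j : HE _) + 1) = algebraMap ℂ _ ((j : ℂ) + 1) by simp, ← Algebra.smul_def,
        smul_smul, inv_mul_cancel₀ (Nat.cast_add_one_ne_zero j), one_smul, smul_zero] at e1
      exact cross_ne_zero (fun a => ih.pp h hQ (Subtype.ext a))
        (fun a => h'.x_ne_zero hP (Subtype.ext a)) e1

/-- B3 -/
theorem IsPP.x_pow_ne [CompactSpace X] {L : Bun X μ 1} (h : IsPP Q L) (hQ : OP r Q) {j : ℕ}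
    (hj : j < r) : L.x ^ j ≠ 0 := fun e => by
  obtain ⟨k, rfl⟩ := Nat.exists_eq_add_of_lt hj
  exact (nz (j + k)).pp h hQ (by rw [pow_add, e, zero_mul])

theorem IsPP.hr_le (r : ℕ) : ∀ {X : Type} [TopologicalSpace X] [CompactSpace X] [T2Space X]
    {Q : Matrix μ μ ℂ} {L : Bun X μ 1}, IsPP Q L → OP r Q → ∀ n : ℤ, ∀ c ∈ hr X n,
      c = 0 ∨ ∃ j < r, n = (2 * j : ℕ) ∧ ∃ t : ℂ, c = t • (L.x ^ j).1 := by
  induction r with
  | zero =>
    intro X _ _ _ Q L h hQ n c _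
    have := h.isEmpty hQ
    have := HR.subsingleton (X := X)
    exact Or.inl (Subsingleton.elim _ _)
  | succ r ih =>
    intro X _ _ _ Q L h hQ n c hc
    obtain ⟨e, he, hQe⟩ := hQ.exists_fix
    have := isCompact_iff_compactSpace.1 (isClosed_hyp L e).isCompact
    have h' := h.hyp hQ he hQe
    have hQ' := hQ.sub_lnv he hQe
    have hres : ∀ {c n}, c ∈ hr X n → HR.res {x | L.Q x *ᵥ e = 0} c ∈ hr _ n := pull_mem_hr _
    by_cases hn : n = 2 * r
    · obtain ⟨a, ha, h1⟩ := (h.cell' hQ he hQe).2 n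
      have key : ∀ c ∈ hr X n, ∃ t : ℂ, c = t • cl a := fun c hc => by
        have h2 := hres hc
        rw [h'.hr_bot r hQ' n (by omega)] at h2
        obtain ⟨b, hb, rfl⟩ := exists_rel (isClosed_hyp L e) hc h2
        obtain ⟨t, ht⟩ := h1 b hb
        exact ⟨t, by
          rw [← cl_smul, cl_eq (CP_Z_CC hb) (Submodule.smul_mem _ t (CP_Z_CC ha))]
          exact CP_B_CC ht⟩
      obtain ⟨t, ht⟩ := key c hc
      obtain ⟨t', ht'⟩ := key _ (by rw [hn]; exact_mod_cast L.x_pow_mem r)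
      have h3 : t' ≠ 0 := fun e0 => h.x_pow_ne hQ (Nat.lt_succ_self r)
        (Subtype.ext (by rw [ht', e0, zero_smul]; rfl))
      exact Or.inr ⟨r, Nat.lt_succ_self r, by exact_mod_cast hn, t / t', by
        rw [ht, ht', smul_smul, div_mul_cancel₀ _ h3]⟩
    · rcases ih h' hQ' n _ (hres hc) with h0 | ⟨j, hj, e1, t, ht⟩
      · exact Or.inl (h.res_inj hQ he hQe hn hc h0)
      · refine Or.inr ⟨j, by omega, e1, t, sub_eq_zero.1 (h.res_inj hQ he hQe hn
          (sub_mem hc (Submodule.smul_mem _ t (e1 ▸ L.x_pow_mem j))) ?_)⟩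
        rw [map_sub, ht, map_smul, ← Bun.pull_x, ← map_pow, HE.pull_val, sub_self]

/-- B2 and B3: the powers of the class of the tautological line are a basis -/
theorem IsPP.basTo [CompactSpace X] [T2Space X] {L : Bun X μ 1} (h : IsPP Q L) (hQ : OP r Q)
    (n : ℤ) : BasTo n (fun j : Fin r => 2 * j.1) fun j => (L.x ^ j.1).1 := by
  refine ⟨fun k _ => ?_, fun k _ c hc => ?_⟩
  · have : Subsingleton {j : Fin r // ((2 * j.1 : ℕ) : ℤ) = k} :=
      ⟨fun a b => Subtype.ext (Fin.ext (by have := a.2; have := b.2; omega))⟩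
    exact (linearIndependent_subsingleton_index_iff _).2 fun j e =>
      h.x_pow_ne hQ j.1.2 (Subtype.ext e)
  · rcases h.hr_le r hQ k c hc with rfl | ⟨j, hj, e, t, rfl⟩
    · exact zero_mem _
    · exact Submodule.smul_mem _ t (Submodule.subset_span ⟨⟨j, hj⟩, e.symm, rfl⟩)

theorem IsPE.fib {π : C(X, B)} {E : Bun B μ r} {L : Bun X μ 1} (h : IsPE π E L) (t : B) :
    IsPP (E.Q t) (L.comap ⟨Subtype.val, continuous_subtype_val⟩ : Bun (π ⁻¹' {t}) μ 1) :=
  ⟨fun x => (congrArg (fun t => E.Q t * L.Q x.1) (show π x.1 = t from x.2)).symm.trans (h.le x.1),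
    fun x y e => Subtype.ext (h.inj _ _ ((show π x.1 = t from x.2).trans (Eq.symm y.2)) e),
    fun l a b => by obtain ⟨x, hx, e⟩ := h.sur t l a b; exact ⟨⟨x, hx⟩, e⟩⟩

/-- the fibrewise basis of a projective bundle -/
theorem IsPE.basTo [CompactSpace X] [T2Space X] [T2Space B] {π : C(X, B)} {E : Bun B μ r}
    {L : Bun X μ 1} (h : IsPE π E L) (t : B) (n : ℤ) :
    BasTo n (fun j : Fin r => 2 * j.1) fun j => HR.res (π ⁻¹' {t}) (L.x ^ j.1).1 := by
  have := isCompact_iff_compactSpace.1 ((isClosed_singleton (x := t)).preimage π.continuous).isCompact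
  have := (h.fib t).basTo (E.op t) n
  simp only [← Bun.pull_x, ← map_pow, HE.pull_val] at this
  exact this

end Pool.Agent.CS
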