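import Pool.Agent.K.MP_d34769_ag.C15

namespace Pool.Agent.P.MP_d34769_ag

open LaurentPolynomial Matrix Module

variable {K : Type} [Field K]

lemma qiso_refl {n d k : ℕ} (ρ : Rep K n d k) : QIso ρ ρ :=
  ⟨1, 1, 1, isUnit_one, isUnit_one, isUnit_one, by simp, by simp, by simp⟩

lemma QIso.symm {n d k : ℕ} {ρ ρ' : Rep K n d k} (h : QIso ρ ρ') : QIso ρ' ρ := by
  obtain ⟨_, _, _, ⟨u₁, rfl⟩, ⟨u₀, rfl⟩, ⟨uQ, rfl⟩, hP⟩ := h
  have inv : ∀ {a : ℕ} {X X' : Matrix (Fin (n + d)) (Fin a) K} {u : (Matrix (Fin a) (Fin a) K)ˣ},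
      u₀.1 * X = X' * u.1 → (u₀⁻¹).1 * X' = X * (u⁻¹).1 := by
    intro a X X' u hX
    calc (u₀⁻¹).1 * X' = (u₀⁻¹).1 * (X' * u.1) * (u⁻¹).1 := by
          rw [Matrix.mul_assoc, Matrix.mul_assoc, Units.mul_inv, Matrix.mul_one]
      _ = X * (u⁻¹).1 := by rw [← hX, ← Matrix.mul_assoc, Units.inv_mul, Matrix.one_mul]
  exact ⟨_, _, _, (u₁⁻¹).isUnit, (u₀⁻¹).isUnit, (uQ⁻¹).isUnit, inv hP.1, inv hP.2.1, inv hP.2.2⟩

lemma QIso.trans {n d k : ℕ} {ρ ρ' ρ'' : Rep K n d k} (h : QIso ρ ρ') (h' : QIso ρ' ρ'') :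
    QIso ρ ρ'' := by
  obtain ⟨P₁, P₀, Q, h1, h0, hQ, e1, e2, e3⟩ := h
  obtain ⟨P₁', P₀', Q', h1', h0', hQ', e1', e2', e3'⟩ := h'
  refine ⟨P₁' * P₁, P₀' * P₀, Q' * Q, h1'.mul h1, h0'.mul h0, hQ'.mul hQ, ?_, ?_, ?_⟩
  · rw [Matrix.mul_assoc, e1, ← Matrix.mul_assoc, e1', Matrix.mul_assoc]
  · rw [Matrix.mul_assoc, e2, ← Matrix.mul_assoc, e2', Matrix.mul_assoc]
  · rw [Matrix.mul_assoc, e3, ← Matrix.mul_assoc, e3', Matrix.mul_assoc]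

lemma isMor_one {n k : ℕ} {d : ℤ} (S : CohSys K n d k) : IsMor S S 1 := by
  have h : ∀ i j : Fin n, Ge 0 ((1 : Matrix _ _ (LaurentPolynomial K)) i j) ∧
      Le 0 ((1 : Matrix _ _ (LaurentPolynomial K)) i j) := by
    intro i j
    rw [Matrix.one_apply]
    split_ifs
    · exact ⟨Ge.one, Le.one⟩
    · exact ⟨Ge.zero _, Le.zero _⟩
  exact ⟨fun i j => (h i j).1, ⟨1, fun i j => (h i j).2, by simp⟩, fun v hv => by simpa using hv⟩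

lemma iso_refl {n k : ℕ} {d : ℤ} (S : CohSys K n d k) : Iso S S :=
  ⟨1, 1, isMor_one S, isMor_one S, by simp, by simp⟩

/-- A general bijection of isomorphism classes, for properties matched by presentations. -/
theorem exists_equiv {n d k : ℕ} (P : CohSys K n d k → Prop) (Q : Rep K n d k → Prop)
    (hP : ∀ S, P S → S.E.NN) (hQ : ∀ ρ, Q ρ → ∃ S φ, Pres S ρ φ)
    (hPQ : ∀ S ρ φ, Pres S ρ φ → (P S ↔ Q ρ)) :
    ∃ Φ : Quot (fun S S' : {S : CohSys K n d k // P S} => Iso S.1 S'.1) ≃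
        Quot (fun ρ ρ' : {ρ : Rep K n d k // Q ρ} => QIso ρ.1 ρ'.1),
      ∀ S ρ, Φ (Quot.mk _ S) = Quot.mk _ ρ ↔ Presents S.1 ρ.1 := by
  choose R φ hR using fun S : {S : CohSys K n d k // P S} => exists_pres S.1 (hP S.1 S.2)
  choose Sy ψ hS using fun ρ : {ρ : Rep K n d k // Q ρ} => hQ ρ.1 ρ.2
  let f : {S : CohSys K n d k // P S} → {ρ : Rep K n d k // Q ρ} :=
    fun S => ⟨R S, (hPQ _ _ _ (hR S)).1 S.2⟩
  let g : {ρ : Rep K n d k // Q ρ} → {S : CohSys K n d k // P S} :=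
    fun ρ => ⟨Sy ρ, (hPQ _ _ _ (hS ρ)).2 ρ.2⟩
  have hE : Equivalence (fun ρ ρ' : {ρ : Rep K n d k // Q ρ} => QIso ρ.1 ρ'.1) :=
    ⟨fun ρ => qiso_refl ρ.1, QIso.symm, QIso.trans⟩
  refine ⟨⟨Quot.map f fun S S' h => ((hR S).iso_iff (hR S')).1 h,
    Quot.map g fun ρ ρ' h => ((hS ρ).iso_iff (hS ρ')).2 h, ?_, ?_⟩, fun S ρ => ?_⟩
  · rintro ⟨S⟩
    exact Quot.sound (((hS (f S)).iso_iff (hR S)).2 (qiso_refl _))
  · rintro ⟨ρ⟩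
    exact Quot.sound (((hR (g ρ)).iso_iff (hS ρ)).1 (iso_refl _))
  · change Quot.mk _ (f S) = Quot.mk _ ρ ↔ _
    rw [Quot.eq, hE.eqvGen_iff, presents_iff]
    constructor
    · intro h
      exact (hR S).of_qiso h.symm
    · rintro ⟨φ', h⟩
      exact ((hR S).iso_iff h).1 (iso_refl _)

theorem mainA (K : Type) [Field K] (n d k : ℕ) (hn : 0 < n) (hk : 0 < k) (α : ℝ) (hα : 0 < α) :
    (∀ (e : ℤ) (S : CohSys K n e k), Stable α S → 0 ≤ e) ∧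
    ∃ Φ : Quot (fun S S' : {S : CohSys K n d k // Stable α S} => Iso S.1 S'.1) ≃
        Quot (fun ρ ρ' : {ρ : Rep K n d k // QStable α ρ} => QIso ρ.1 ρ'.1),
      ∀ S ρ, Φ (Quot.mk _ S) = Quot.mk _ ρ ↔ Presents S.1 ρ.1 :=
  ⟨fun _ _ h => (h.nn hα hk).nonneg,
    exists_equiv _ _ (fun _ h => h.nn hα hk)
      (fun _ h => exists_sys (h.good hα hk) (h.injz hα hn))
      (fun _ _ _ h => h.stable_iff hα hn hk)⟩

end Pool.Agent.P.MP_d34769_ag
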