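import Pool.Agent.K.MP_d34769_ag.C53
import Pool.Agent.K.MP_d34769_ag.C61
import Pool.Agent.K.MP_d34769_ag.C36
import Pool.Agent.K.MP_d34769_ag.C49

-- part Pool.Agent.P.MP_d34769_ag.YI1
section

/-! The moduli space of coherent systems as a quotient of the stable representations. -/

open Set Filter Topology Matrix
open Pool.Agent.PQ (Amb proj)
open Pool.Agent.P.MP_d34769_ag

noncomputable section
namespace Pool.Agent.CS

/-- the stable representations -/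
def Dat.Rs {I : Type} [Fintype I] [DecidableEq I] (D : Dat I) : Set (Rp I) :=
  {ρ | ρ ∈ D.R ∧ D.Stb ρ}

/-- `zq` presents `G` as the quotient of the stable representations -/
structure Zq {I : Type} [Fintype I] [DecidableEq I] (D : Dat I) {N : ℕ} (G : Set (Amb N))
    (zq : Rp I → Amb N) : Prop where
  img : zq '' D.Rs = G
  eq : ∀ ρ ∈ D.Rs, ∀ ρ' ∈ D.Rs, zq ρ = zq ρ' ↔ ∃ g ∈ D.P, actR g ρ = ρ'
  cont : ContinuousOn zq D.Rs
  opn : ∀ ρ ∈ D.Rs, 𝓝[G] (zq ρ) ≤ map zq (𝓝[D.Rs] ρ)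
  reg : ∀ ρ ∈ D.Rs, ∃ v : Fin N → MvPolynomial (Co I D.m) ℂ, ∀ f,
    (fun i => MvPolynomial.eval (co (ρ, f)) (v i)) ≠ 0 ∧ ∀ p : Pt I D.m, p.1 ∈ D.Rs →
      (fun i => MvPolynomial.eval (co p) (v i)) ≠ 0 →
        zq p.1 = proj fun i => MvPolynomial.eval (co p) (v i)

theorem exists_zq {n d k : ℕ} {α : ℝ} {D : Dat (Ix n d k)} (h : Fits n d k α D)
    (hg : ∀ i j, D.gl i j) (hn : 0 < n) (hk : 0 < k) (hα : 0 < α)
    {N : ℕ} {G : Set (Amb N)} (q : @Homeomorph (GMod α n d k) G (modTop α n d k) _)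
    (hq : Reg fun x => (q x).1) : ∃ zq, Zq D G zq := by
  classical
  letI := modTop α n d k
  obtain ⟨pm, h1, h2, h3, h4, h5⟩ := h.exists_pm hn hk hα
  have hR : ∀ {ρ}, ρ ∈ D.Rs ↔ ρ ∈ D.base.R ∧ D.Stb ρ := and_congr_left fun _ => ⟨fun c => D.R_le c,
    fun c a i j k => c a i j fun e => k ⟨e.1, e.2.1, D.gl_rl (hg i j)⟩⟩
  have hP : ∀ {g}, g ∈ D.base.P → g ∈ D.P := fun c =>
    ⟨fun i j k => c.1 i j fun e => k ⟨e.1, hg i j⟩, c.2⟩
  let F : D.Rs → G := fun ρ => q (pm ⟨ρ.1, hR.1 ρ.2⟩)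
  have e0 : D.Rs = {ρ | ρ ∈ D.base.R ∧ D.Stb ρ} := Set.ext fun _ => hR
  have c1 : Continuous F := q.continuous.comp (h1.comp (Homeomorph.setCongr e0).continuous)
  have c2 : IsOpenMap F := q.isOpenMap.comp (h2.comp (Homeomorph.setCongr e0).isOpenMap)
  obtain ⟨zq, hz⟩ : ∃ zq : Rp (Ix n d k) → Amb N, ∀ ρ : D.Rs, zq ρ = F ρ :=
    ⟨fun ρ => if c : ρ ∈ D.Rs then F ⟨ρ, c⟩ else 0, fun ρ => dif_pos ρ.2⟩
  refine ⟨zq, ?_, fun ρ a σ b => ?_, ?_, fun ρ a => ?_, fun ρ a => ?_⟩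
  · refine Subset.antisymm ?_ fun z c => ?_
    · rintro _ ⟨ρ, a, rfl⟩
      exact hz ⟨ρ, a⟩ ▸ (F _).2
    · obtain ⟨ρ, e⟩ := h3 (q.symm ⟨z, c⟩)
      exact ⟨ρ.1, hR.2 ρ.2, (hz ⟨_, hR.2 ρ.2⟩).trans
        (congrArg Subtype.val ((congrArg q e).trans (q.apply_symm_apply _)))⟩
  · rw [hz ⟨ρ, a⟩, hz ⟨σ, b⟩, Subtype.val_inj, q.injective.eq_iff, h4]
    exact ⟨fun ⟨g, c, e⟩ => ⟨g, hP c, e⟩, fun ⟨g, c, e⟩ => ⟨g, D.P_le c, e⟩⟩
  · rw [continuousOn_iff_continuous_domRestrict, show D.Rs.domRestrict zq = _ from funext hz]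
    exact continuous_subtype_val.comp c1
  · rw [← map_nhds_subtype_val (s := D.Rs) ⟨ρ, a⟩, Filter.map_map,
      show zq ∘ Subtype.val = Subtype.val ∘ F from funext hz, hz ⟨ρ, a⟩, ← map_nhds_subtype_val]
    exact map_mono (m := Subtype.val) (c2.nhds_le _)
  · have hS : ∀ σ : D.Rs, ∃ S, Presents S.1 (frR σ.1) ∧ zq σ = q (Quot.mk _ S) := fun σ => by
      obtain ⟨S, e⟩ := Quot.exists_rep (pm ⟨σ.1, hR.1 σ.2⟩)
      exact ⟨S, (h5 _ S).1 e.symm, (hz σ).trans (congrArg (fun x => (q x).1) e.symm)⟩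
    obtain ⟨S, e, -⟩ := hS ⟨ρ, a⟩
    obtain ⟨v, v1, v2⟩ := hq S _ e
    have ev : ∀ (p : Pt (Ix n d k) D.m), (fun i => MvPolynomial.eval (co p)
        (MvPolynomial.rename (fun x => .inl (pos x)) (v i))) =
          fun i => MvPolynomial.eval (ent (frR p.1)) (v i) := fun p => funext fun i => by
      rw [MvPolynomial.eval_rename, show ent (frR p.1) = _ from funext (ent_frR p.1)]
      rfl
    refine ⟨fun i => MvPolynomial.rename (fun x => .inl (pos x)) (v i), fun f => ⟨?_, fun p b => ?_⟩⟩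
    · rwa [ev]
    · obtain ⟨S', e', k'⟩ := hS ⟨p.1, b⟩
      rw [ev]
      exact fun c => k'.trans (v2 S' _ e' c)

end Pool.Agent.CS
end
end

-- part Pool.Agent.P.MP_d34769_ag.YI2
section

/-! The closure of the graph of the map from framed stable representations to the moduli space. -/

open Set Filter Topology Matrix
open Pool.Agent.HT (Amb proj)
open Pool.Agent.PWV (pm)

noncomputable section
namespace Pool.Agent.CS

variable {I : Type} [Fintype I] [DecidableEq I] {M N : ℕ}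

/-- what is used about the space `X` of framed representations and the closed set `A` -/
structure Fq (D : Dat I) (Th : Fin M → MvPolynomial (Co I D.m) ℂ) (X A : Set (Amb M)) : Prop where
  all : ∀ i j, D.gl i j
  st : ∀ p, D.St p ↔ p.1 ∈ D.R ∧ pm Th (co p) ≠ 0
  img : (fun p => proj (pm Th (co p))) '' {p | D.St p} = X
  eq : ∀ p p', D.St p → D.St p' →
    (proj (pm Th (co p)) = proj (pm Th (co p')) ↔ ∃ g ∈ D.P, act g p = p')
  opn : ∀ p, D.St p →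
    𝓝[X] (proj (pm Th (co p))) ≤ map (fun p => proj (pm Th (co p))) (𝓝[{p | D.St p}] p)
  hom : ∃ e, 0 < e ∧ ∀ ρ f (c : ℂ), pm Th (co (ρ, c • f)) = c ^ e • pm Th (co (ρ, f))
  cl : IsClosed X
  pa : PA A
  mem : ∀ p, D.St p → (proj (pm Th (co p)) ∈ A ↔ ¬ D.Stb p.1)
  act : ∀ g ∈ D.P, ∀ p, D.St p → D.St (act g p)
  sep : ∀ ρ ∈ D.R, D.SS D.th ρ → ∀ ρ' ∈ D.Rs,
    (ρ, ρ') ∈ closure {x : Rp I × Rp I | x.1 ∈ D.Rs ∧ ∃ g ∈ D.P, actR g x.1 = x.2} → D.Stb ρ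
  schur : ∀ ρ ∈ D.Rs, ∀ g ∈ D.P, actR g ρ = ρ → ∃ c : ℂ, g = c • 1

/-- `R` is an algebraic correspondence between `X` and `Z` that is a projective bundle with fibre
the lines in `ℂ^μ` from `X \ A` to `G` -/
structure Gam (μ : Type) (X A : Set (Amb M)) (Z G : Set (Amb N)) (R : Amb M → Amb N → Prop) :
    Prop where
  ar : AR R
  mem : ∀ x z, R x z → x ∈ X ∧ z ∈ Z
  bd : ∀ x z, R x z → (x ∈ A ↔ z ∉ G)
  uni : ∀ x ∈ X \ A, ∃! z, R x z
  fib : ∀ z ∈ G, ∃ (e : ℕ) (v : (μ → ℂ) → Fin M → ℂ), 0 < e ∧ Continuous v ∧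
    (∀ u, u ≠ 0 → v u ≠ 0) ∧ (∀ (c : ℂ) u, v (c • u) = c ^ e • v u) ∧
    (∀ x, R x z ↔ ∃ u, u ≠ 0 ∧ x = proj (v u)) ∧
    ∀ u u', u ≠ 0 → u' ≠ 0 → proj (v u) = proj (v u') → ∃ c : ℂ, u' = c • u

theorem yi2_dense {W σ : Type} [AddCommGroup W] [Module ℂ W] [TopologicalSpace W]
    [ContinuousAdd W] [ContinuousSMul ℂ W] (c : W →ₗ[ℂ] σ → ℂ)
    (V : Submodule ℂ W) (h : MvPolynomial σ ℂ) {p₀ p : W} (h₀ : p₀ ∈ V)
    (hh : MvPolynomial.eval (c p₀) h ≠ 0) (hp : p ∈ V) :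
    p ∈ closure {q | q ∈ V ∧ MvPolynomial.eval (c q) h ≠ 0} := by
  have hl : Continuous fun t : ℂ => p + t • (p₀ - p) := by fun_prop
  have ha : AnalyticOnNhd ℂ (fun t : ℂ => MvPolynomial.eval (c (p + t • (p₀ - p))) h) univ := by
    refine AnalyticOnNhd.aeval_mvPolynomial (f := fun t : ℂ => c (p + t • (p₀ - p))) (fun i => ?_) h
    simp only [map_add, map_smul, Pi.add_apply, Pi.smul_apply, smul_eq_mul]
    exact analyticOnNhd_const.add (analyticOnNhd_id.mul analyticOnNhd_const)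
  by_contra hc
  have h1 : ∀ᶠ t in 𝓝 (0 : ℂ), p + t • (p₀ - p) ∈
      (closure {q | q ∈ V ∧ MvPolynomial.eval (c q) h ≠ 0})ᶜ :=
    hl.continuousAt.eventually_mem (isClosed_closure.isOpen_compl.mem_nhds (by simpa using hc))
  have h2 := ha.eqOn_zero_of_preconnected_of_eventuallyEq_zero isPreconnected_univ (mem_univ 0)
    (h1.mono fun t ht => by_contra fun e => ht (subset_closure
      ⟨V.add_mem hp (V.smul_mem t (V.sub_mem h₀ hp)), e⟩)) (mem_univ 1)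
  exact hh (by simpa using h2)

theorem exists_Gam {D : Dat I} {Th : Fin M → MvPolynomial (Co I D.m) ℂ} {X A : Set (Amb M)}
    (hF : Fq D Th X A) {Z B : Set (Amb N)} (hZ : PA Z) (hB : IsClosed B) {zq : Rp I → Amb N}
    (hz : Zq D (Z \ B) zq) : ∃ R, Gam (I × Fin D.m) X A Z (Z \ B) R := by
  let pt : Pt I D.m → Amb M := fun p => proj (pm Th (co p))
  let S : Set (Pt I D.m) := {p | D.St p ∧ D.Stb p.1}
  let Γ : Set (Amb M × Amb N) := (fun p => (pt p, zq p.1)) '' S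
  have hX : ∀ p, D.St p → pt p ∈ X := fun p hp => hF.img ▸ mem_image_of_mem _ hp
  have hX' : ∀ x ∈ X, ∃ p, D.St p ∧ pt p = x := fun x hx => by rwa [← hF.img] at hx
  have hG : ∀ ρ ∈ D.Rs, zq ρ ∈ Z \ B := fun ρ hρ => hz.img ▸ mem_image_of_mem _ hρ
  have hRs : ∀ p ∈ S, p.1 ∈ D.Rs := fun p hp => ⟨hp.1.mem, hp.2⟩
  have hXP : X ⊆ HIR.Prj M := fun x hx => by
    obtain ⟨p, hp, rfl⟩ := hX' x hx
    exact ⟨_, ((hF.st p).1 hp).2, rfl⟩
  have hΓ : closure Γ ⊆ X ×ˢ Z := closure_minimal (by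
    rintro _ ⟨p, hp, rfl⟩
    exact ⟨hX p hp.1, (hG _ (hRs p hp)).1⟩) (hF.cl.prod hZ.closed)
  have same : ∀ p₀ ∈ S, ∀ p, D.St p → pt p = pt p₀ → p ∈ S ∧ zq p.1 = zq p₀.1 :=
    fun p₀ h₀ p hp e => by
    have h1 : p ∈ S := ⟨hp, by_contra fun c =>
      (hF.mem p₀ h₀.1).1 (show pt p₀ ∈ A from e ▸ (hF.mem p hp).2 c) h₀.2⟩
    obtain ⟨g, hg, eg⟩ := (hF.eq p p₀ hp h₀.1).1 e
    exact ⟨h1, (hz.eq _ (hRs p h1) _ (hRs p₀ h₀)).2 ⟨g, hg, congrArg Prod.fst eg⟩⟩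
  have lift : ∀ p, D.St p → ∀ T ∈ 𝓝 p, ∃ U ∈ 𝓝 (pt p), ∀ x ∈ U, x ∈ X →
      ∃ q ∈ T, D.St q ∧ pt q = x := fun p hp T hT => by
    obtain ⟨U, hU, s⟩ := mem_nhdsWithin_iff_exists_mem_nhds_inter.1
      (hF.opn p hp (image_mem_map (inter_mem_nhdsWithin _ hT)))
    exact ⟨U, hU, fun x h1 h2 => by
      obtain ⟨q, hq, e⟩ := s ⟨h1, h2⟩
      exact ⟨q, hq.2, hq.1, e⟩⟩
  have K1 : ∀ p ∈ S, ∀ z, (pt p, z) ∈ closure Γ → z = zq p.1 := fun p hp z hc => by
    by_contra hne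
    obtain ⟨W', W, o', o, m', m, hd⟩ := t2_separation hne
    obtain ⟨T, hT, s⟩ := mem_nhdsWithin_iff_exists_mem_nhds_inter.1
      (hz.cont _ (hRs p hp) (o.mem_nhds m))
    obtain ⟨U, hU, hl⟩ := lift p hp.1 _ (continuous_fst.continuousAt hT)
    obtain ⟨_, ⟨h1, h2⟩, p₀, h₀, rfl⟩ := mem_closure_iff_nhds.1 hc _
      (prod_mem_nhds hU (o'.mem_nhds m'))
    obtain ⟨q, hq, h3, e⟩ := hl _ h1 (hX p₀ h₀.1)
    obtain ⟨h4, h5⟩ := same p₀ h₀ q h3 e
    exact disjoint_left.1 hd h2 (show zq p₀.1 ∈ W from h5 ▸ s ⟨hq, hRs q h4⟩)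
  have K2 : ∀ p, D.St p → ∀ z ∈ Z \ B, (pt p, z) ∈ closure Γ → p ∈ S := fun p hp z hzG hc => by
    rw [← hz.img] at hzG
    obtain ⟨ρ, hρ, rfl⟩ := hzG
    refine ⟨hp, hF.sep p.1 hp.mem hp.ss ρ hρ (mem_closure_iff_nhds.2 fun T hT => ?_)⟩
    obtain ⟨T₁, h1, T₂, h2, s⟩ := mem_nhds_prod_iff.1 hT
    obtain ⟨U, hU, hl⟩ := lift p hp _ (continuous_fst.continuousAt h1)
    obtain ⟨U', hU', s'⟩ := mem_nhdsWithin_iff_exists_mem_nhds_inter.1
      (hz.opn ρ hρ (image_mem_map (inter_mem_nhdsWithin _ h2)))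
    obtain ⟨_, ⟨h3, h4⟩, p₀, h₀, rfl⟩ := mem_closure_iff_nhds.1 hc _ (prod_mem_nhds hU hU')
    obtain ⟨q, hq, h5, e⟩ := hl _ h3 (hX p₀ h₀.1)
    obtain ⟨h6, h7⟩ := same p₀ h₀ q h5 e
    obtain ⟨σ, hσ, e'⟩ := s' ⟨h4, hG _ (hRs p₀ h₀)⟩
    exact ⟨(q.1, σ), s ⟨hq, hσ.2⟩, hRs q h6, (hz.eq _ (hRs q h6) _ hσ.1).1 (h7.trans e'.symm)⟩
  have h0 : ∀ x z, (x, z) ∈ closure Γ → x ∈ HIR.Prj M ∧ z ∈ HIR.Prj N := fun x z h =>
    ⟨hXP (hΓ h).1, hZ.1 (hΓ h).2⟩
  refine ⟨fun x z => (x, z) ∈ closure Γ, ar_of_sgr h0 ?_, fun x z h => hΓ h, fun x z h => ?_,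
    fun x hx => ?_, fun z hzG => ?_⟩
  · rcases S.eq_empty_or_nonempty with e | ⟨p₀, h₀⟩
    · have : Sgr (fun x z => (x, z) ∈ closure Γ) = ∅ := by
        simp [Sgr, Γ, e]
      rw [this]
      exact pa_empty
    have n₀ := ((hF.st p₀).1 h₀.1).2
    obtain ⟨i, hi⟩ := Function.ne_iff.1 n₀
    obtain ⟨P, -, -, hP, hP'⟩ := hF.pa.exists_hom n₀ fun c => (hF.mem p₀ h₀.1).1 c h₀.2
    obtain ⟨v, hv⟩ := hz.reg _ (hRs p₀ h₀)
    obtain ⟨j, hj⟩ := Function.ne_iff.1 (hv p₀.2).1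
    let h : MvPolynomial (Co I D.m) ℂ := Th i * MvPolynomial.aeval Th P * v j
    have eh : ∀ x, MvPolynomial.eval x h = pm Th x i * HIR.ev P (pm Th x) * pm v x j := fun x => by
      rw [map_mul, map_mul, HIR.ev, yd1_pm]
      rfl
    let V : Set (Co I D.m → ℂ) := {x | ((coL I D.m).symm x).1 ∈ D.R}
    have hV : PWV.ZC V := ⟨{f | ∃ a i j, ¬ D.ap a i j ∧ f = MvPolynomial.X (Sum.inl (a, i, j))},
      Set.ext fun x => ⟨by
        rintro hx _ ⟨a, i, j, c, rfl⟩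
        rw [MvPolynomial.eval_X]
        exact hx a i j c, fun hx a i j c => by
        have := hx _ ⟨a, i, j, c, rfl⟩
        rw [MvPolynomial.eval_X] at this
        exact this⟩⟩
    let G : Fin (M * N) → MvPolynomial (Co I D.m) ℂ := fun k =>
      Th (finProdFinEquiv.symm k).1 * v (finProdFinEquiv.symm k).2
    have eG : ∀ x, pm G x = HIR.tens (pm Th x) (pm v x) := fun x => funext fun k => map_mul _ _ _
    have good : ∀ p : Pt I D.m, p.1 ∈ D.R → MvPolynomial.eval (co p) h ≠ 0 → p ∈ S ∧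
        pm G (co p) ≠ 0 ∧ seg (pt p) (zq p.1) = proj (pm G (co p)) := fun p hp hh => by
      rw [eh] at hh
      have a1 : pm Th (co p) ≠ 0 := Function.ne_iff.2
        ⟨i, left_ne_zero_of_mul (left_ne_zero_of_mul hh)⟩
      have a2 : pm v (co p) ≠ 0 := Function.ne_iff.2 ⟨j, right_ne_zero_of_mul hh⟩
      have a3 := (hF.st p).2 ⟨hp, a1⟩
      have a4 : p ∈ S := ⟨a3, by_contra fun c =>
        right_ne_zero_of_mul (left_ne_zero_of_mul hh) (hP' _ a1 ((hF.mem p a3).2 c))⟩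
      rw [eG, ← seg_proj, (hv p₀.2).2 p (hRs p a4) a2]
      exact ⟨a4, HIR.tens_ne a1 a2, rfl⟩
    have key : Sgr (fun x z => (x, z) ∈ closure Γ) =
        closure ((fun x => proj (pm G x)) '' (V ∩ {x | MvPolynomial.eval x h ≠ 0})) := by
      refine Subset.antisymm ?_ (closure_minimal ?_ ?_)
      · rintro _ ⟨x, z, hc, rfl⟩
        rw [← closure_closure]
        refine map_mem_closure (x := (x, z)) cont_seg hc ?_
        rintro _ ⟨p, hp, rfl⟩
        have hd := yi2_dense (coL I D.m).toLinearMap (D.R.comap (LinearMap.fst ℂ _ _)) h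
          (p₀ := p₀) h₀.1.mem (by
            change MvPolynomial.eval (co p₀) h ≠ 0
            rw [eh]
            exact mul_ne_zero (mul_ne_zero hi hP) hj) (p := p) hp.1.mem
        have c1 : ContinuousAt pt p := (HIR.cont_proj ((hF.st p).1 hp.1).2).comp
          (f := fun p : Pt I D.m => pm Th (co p)) (continuous_pi fun k =>
            (MvPolynomial.continuous_eval _).comp continuous_co).continuousAt
        have c2 : ContinuousWithinAt (fun q : Pt I D.m => seg (pt q) (zq q.1)) S p :=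
          cont_seg.continuousAt.comp_continuousWithinAt (c1.continuousWithinAt.prodMk
            ((hz.cont _ (hRs p hp)).comp continuousWithinAt_fst hRs))
        refine closure_mono ?_ ((c2.mono fun q hq => (good q hq.1 hq.2).1).mem_closure_image hd)
        rintro _ ⟨q, hq, rfl⟩
        exact ⟨co q, ⟨hq.1, hq.2⟩, (good q hq.1 hq.2).2.2.symm⟩
      · rintro _ ⟨x, hx, rfl⟩
        obtain ⟨q, rfl⟩ := (coL I D.m).surjective x
        obtain ⟨a1, -, a2⟩ := good q hx.1 hx.2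
        exact ⟨_, _, subset_closure ⟨q, a1, rfl⟩, a2.symm⟩
      · have : Sgr (fun x z => (x, z) ∈ closure Γ) = (fun p => seg p.1 p.2) '' closure Γ :=
          Set.ext fun s => ⟨fun ⟨x, z, h, e⟩ => ⟨(x, z), h, e.symm⟩,
            fun ⟨p, h, e⟩ => ⟨p.1, p.2, h, e.symm⟩⟩
        rw [this]
        exact (((((HIR.compact_XI1 M).of_isClosed_subset hF.cl hXP).prod hZ.compact
          ).of_isClosed_subset isClosed_closure hΓ).image cont_seg).isClosed
    rw [key]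
    refine pa_closure_img hV h G fun x hx hh => ?_
    obtain ⟨q, rfl⟩ := (coL I D.m).surjective x
    exact (good q hx hh).2.1
  · obtain ⟨p, hp, rfl⟩ := hX' x (hΓ h).1
    refine (hF.mem p hp).trans ⟨fun c e => c (K2 p hp z e h).2, fun c e => c ?_⟩
    rw [K1 p ⟨hp, e⟩ z h]
    exact hG _ ⟨hp.mem, e⟩
  · obtain ⟨p, hp, rfl⟩ := hX' x hx.1
    have h1 : p ∈ S := ⟨hp, by_contra fun c => hx.2 ((hF.mem p hp).2 c)⟩
    exact ⟨zq p.1, subset_closure ⟨p, h1, rfl⟩, K1 p h1⟩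
  · have hzG' := hzG
    rw [← hz.img] at hzG'
    obtain ⟨ρ, hρ, rfl⟩ := hzG'
    obtain ⟨e, he, hom⟩ := hF.hom
    let mt : (I × Fin D.m → ℂ) → Matrix I (Fin D.m) ℂ := fun u => of fun i r => u (i, r)
    have st : ∀ f, D.St (ρ, f) ↔ f ≠ 0 := fun f =>
      Dat.st_iff.trans ⟨fun h => hρ.2.gen_iff.1 h.2.2, fun h => ⟨hρ.1, hρ.2.ss, hρ.2.gen_iff.2 h⟩⟩
    have st' : ∀ u, u ≠ 0 → D.St (ρ, mt u) := fun u hu => (st _).2 fun e =>
      hu (funext fun k => congrFun (congrFun e k.1) k.2)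
    refine ⟨e, fun u => pm Th (co (ρ, mt u)), he, continuous_pi fun k =>
      (MvPolynomial.continuous_eval _).comp (continuous_co.comp (continuous_const.prodMk
        (continuous_matrix fun i r => continuous_apply (i, r)))),
      fun u hu => ((hF.st _).1 (st' u hu)).2, fun c u => hom ρ (mt u) c,
      fun x => ⟨fun h => ?_, ?_⟩, fun u u' hu hu' h => ?_⟩
    · obtain ⟨p, hp, rfl⟩ := hX' x (hΓ h).1
      have h1 := K2 p hp _ hzG h
      obtain ⟨g, hg, eg⟩ := (hz.eq _ (hRs p h1) _ hρ).1 (K1 p h1 _ h).symm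
      have h2 : act g p = (ρ, g * p.2) := Prod.ext eg rfl
      have h3 := hF.act g hg p hp
      refine ⟨fun k => (g * p.2) k.1 k.2, fun c => (st _).1 (h2 ▸ h3)
        (Matrix.ext fun i r => congrFun c (i, r)), ?_⟩
      exact ((hF.eq p _ hp h3).2 ⟨g, hg, rfl⟩).trans (by rw [h2]; rfl)
    · rintro ⟨u, hu, rfl⟩
      exact subset_closure ⟨(ρ, mt u), ⟨st' u hu, hρ.2⟩, rfl⟩
    · obtain ⟨g, hg, eg⟩ := (hF.eq _ _ (st' u hu) (st' u' hu')).1 h
      obtain ⟨c, rfl⟩ := hF.schur ρ hρ g hg (congrArg Prod.fst eg)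
      refine ⟨c, funext fun k => ?_⟩
      have := congrFun (congrFun (congrArg Prod.snd eg) k.1) k.2
      simpa [act, mt] using this.symm

end Pool.Agent.CS
end
end

-- part Pool.Agent.P.MP_d34769_ag.YI2c
section

/-! The fibres of the correspondence are projective spaces. -/

open Set Filter Topology Matrix
open scoped Kronecker
open Pool.Agent.HT (Amb proj amat)
open Pool.Agent.HIR (Prj)

noncomputable section
namespace Pool.Agent.CS

variable {μ ν κ : Type} [Fintype μ] [Fintype ν] [Fintype κ] {Y : Type} [TopologicalSpace Y]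
  {M N : ℕ}

/-- a function of a vector that spans the line -/
theorem Bun.exists_desc (L : Bun Y μ 1) {T : Type} [TopologicalSpace T] (F : (μ → ℂ) → T)
    (hF : ∀ u, u ≠ 0 → ContinuousAt F u) (hs : ∀ (c : ℂ) u, c ≠ 0 → u ≠ 0 → F (c • u) = F u) :
    ∃ G : Y → T, Continuous G ∧ ∀ y u, u ≠ 0 → L.Q y = lnv u → G y = F u := by
  choose w hw e using fun y => (L.op y).exists_lnv
  have h : ∀ y u, u ≠ 0 → L.Q y = lnv u → F (w y) = F u := fun y u hu eu => by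
    obtain ⟨c, rfl⟩ := (lnv_eq_iff (hw y) hu).1 ((e y).symm.trans eu)
    exact (hs c _ (left_ne_zero_of_smul hu) (hw y)).symm
  refine ⟨fun y => F (w y), continuous_iff_continuousAt.2 fun y => ?_, h⟩
  have hc : Continuous fun z => L.Q z *ᵥ w y := L.cont.matrix_mulVec continuous_const
  have h0 : L.Q y *ᵥ w y ≠ 0 := by rw [e, lnv_mulVec (hw y)]; exact hw y
  refine ((hF _ h0).comp (f := fun z => L.Q z *ᵥ w y) hc.continuousAt).congr ?_
  filter_upwards [hc.continuousAt.eventually_ne h0] with z hz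
  exact (h z _ hz ((L.op z).eq_lnv hz (by rw [mulVec_mulVec, (L.op z).idem]))).symm

/-- `L'` is spanned by `v u` where `L` is spanned by `u`, and `v` is homogeneous of degree `e` -/
structure Hg (L : Bun Y μ 1) (e : ℕ) (L' : Bun Y ν 1) (v : (μ → ℂ) → ν → ℂ) : Prop where
  cont : Continuous v
  ne : ∀ u, u ≠ 0 → v u ≠ 0
  smul : ∀ (c : ℂ) u, v (c • u) = c ^ e • v u
  eq : ∀ y u, u ≠ 0 → L.Q y = lnv u → L'.Q y = lnv (v u)

theorem Hg.x_eq {L : Bun Y μ 1} {e : ℕ} {L' : Bun Y ν 1} {L'' : Bun Y κ 1} {v : (μ → ℂ) → ν → ℂ}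
    {t : (μ → ℂ) → κ → ℂ} (h : Hg L e L' v) (h' : Hg L e L'' t) : L'.x = L''.x := by
  obtain ⟨A, hA, eA⟩ := L.exists_desc
    (fun u => (star (t u) ⬝ᵥ t u)⁻¹ • vecMulVec (v u) (star (t u)))
    (fun u hu => ((h'.cont.star.dotProduct h'.cont).continuousAt.inv₀
      (star_dot_ne (h'.ne u hu))).smul (h.cont.matrix_vecMulVec h'.cont.star).continuousAt)
    fun c u hc hu => by
      have h1 := pow_ne_zero e hc
      have h2 : star (c ^ e) ≠ 0 := star_ne_zero.2 h1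
      have h3 := star_dot_ne (h'.ne u hu)
      rw [h.smul, h'.smul, star_smul, smul_dotProduct, dotProduct_smul, smul_vecMulVec,
        vecMulVec_smul, smul_smul, smul_smul]
      congr 1
      simp only [smul_eq_mul]
      field_simp
  refine L''.x_iso L' hA fun y e0 => ?_
  obtain ⟨u, hu, eu⟩ := (L.op y).exists_lnv
  have := congrArg (· *ᵥ t u) e0
  simp only [← mulVec_mulVec, zero_mulVec] at this
  rw [h'.eq y u hu eu, lnv_mulVec (h'.ne u hu), eA y u hu eu, smul_mulVec, vecMulVec_mulVec,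
    op_smul_eq_smul, smul_smul, inv_mul_cancel₀ (star_dot_ne (h'.ne u hu)), one_smul,
    h.eq y u hu eu, lnv_mulVec (h.ne u hu)] at this
  exact h.ne u hu this

theorem Bun.exists_pow (L : Bun Y μ 1) (e : ℕ) : ∃ (κ : Type) (_ : Fintype κ) (L' : Bun Y κ 1)
    (t : (μ → ℂ) → κ → ℂ), Hg L e L' t ∧ L'.x = e • L.x := by
  induction e with
  | zero =>
    have h1 : (1 : Unit → ℂ) ≠ 0 := one_ne_zero
    exact ⟨Unit, _, Bun.const Y (OP.lnv h1), fun _ => 1, ⟨continuous_const, fun _ _ => h1,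
      fun _ _ => by simp, fun _ _ _ _ => rfl⟩, by rw [Bun.x_const, zero_smul]⟩
  | succ e ih =>
    obtain ⟨κ, _, L', t, h, hx⟩ := ih
    have hn : ∀ u, u ≠ 0 → (fun p : κ × μ => t u p.1 * u p.2) ≠ 0 := fun u hu => by
      obtain ⟨i, hi⟩ := Function.ne_iff.1 (h.ne u hu)
      obtain ⟨j, hj⟩ := Function.ne_iff.1 hu
      exact Function.ne_iff.2 ⟨(i, j), mul_ne_zero hi hj⟩
    refine ⟨κ × μ, _, L'.tens L, fun u p => t u p.1 * u p.2, ⟨continuous_pi fun p =>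
      ((continuous_apply p.1).comp h.cont).mul (continuous_apply p.2), hn, fun c u => ?_,
      fun y u hu eu => ((L'.tens L).op y).eq_lnv (hn u hu) ?_⟩, by rw [Bun.x_tens, hx, succ_nsmul]⟩
    · funext p
      simp only [h.smul, Pi.smul_apply, smul_eq_mul]
      ring
    · funext p
      have h1 := congrFun (lnv_mulVec (h.ne u hu)) p.1
      have h2 := congrFun (lnv_mulVec hu) p.2
      rw [← h1, ← h2, Bun.tens_Q, h.eq y u hu eu, eu]
      simp only [mulVec, dotProduct, kroneckerMap_apply, Fintype.sum_prod_type, Finset.sum_mul_sum]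
      exact Finset.sum_congr rfl fun i _ => Finset.sum_congr rfl fun j _ => by ring

theorem Hg.x {L : Bun Y μ 1} {e : ℕ} {L' : Bun Y ν 1} {v : (μ → ℂ) → ν → ℂ} (h : Hg L e L' v) :
    L'.x = e • L.x := by
  obtain ⟨κ, _, L'', t, h', hx⟩ := L.exists_pow e
  rw [h.x_eq h', hx]

instance : CompactSpace (Prj M) := isCompact_iff_compactSpace.1 (HIR.compact_XI1 M)

variable {X A : Set (Amb M)} {Z G : Set (Amb N)} {R : Amb M → Amb N → Prop} {z : Amb N}

/-- a fibre is the image of a projective space, and the hyperplane class is a positive multiple of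
the generator -/
theorem Gam.exists_emb (h : Gam μ X A Z G R) (hz : z ∈ G) :
    ∃ (P : Type) (_ : TopologicalSpace P) (_ : CompactSpace P) (_ : T2Space P) (L : Bun P μ 1)
      (Q : Matrix μ μ ℂ) (φ : C(P, Prj M)) (e : ℕ), IsPP Q L ∧ OP (Fintype.card μ) Q ∧
      Function.Injective φ ∧ range φ = {x | R x.1 z} ∧ 0 < e ∧ HE.pull φ (tautL M).x = e • L.x := by
  classical
  obtain ⟨e, v, he, hc, h0, hs, hR, hi⟩ := h.fib z hz
  have hP := isPP_model (OP.one (μ := μ))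
  set L := Ln.l (Bun.const Unit (OP.one (μ := μ))).ld ()
  obtain ⟨φ, c, eφ⟩ := L.exists_desc (fun u => proj (v u))
    (fun u hu => (HIR.cont_proj (h0 u hu)).comp hc.continuousAt) fun c u hc _ => by
      rw [hs, HIR.proj_smul (pow_ne_zero e hc)]
  choose w hw ew using fun y => (L.op y).exists_lnv
  have m : ∀ y, φ y ∈ Prj M := fun y => ⟨_, h0 _ (hw y), (eφ y _ (hw y) (ew y)).symm⟩
  refine ⟨_, _, inferInstance, inferInstance, L, 1, ⟨fun y => ⟨φ y, m y⟩, c.subtype_mk m⟩, e, hP,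
    OP.one, fun a b k => ?_, Set.ext fun x => ⟨?_, fun k => ?_⟩, he, ?_⟩
  · obtain ⟨c, k'⟩ := hi _ _ (hw a) (hw b) ((eφ a _ (hw a) (ew a)).symm.trans
      ((congrArg Subtype.val k).trans (eφ b _ (hw b) (ew b))))
    exact hP.inj (by rw [ew, ew, (lnv_eq_iff (hw a) (hw b)).2 ⟨c, k'⟩])
  · rintro ⟨y, rfl⟩
    exact (hR _).2 ⟨_, hw y, eφ y _ (hw y) (ew y)⟩
  · obtain ⟨u, hu, k'⟩ := (hR _).1 k
    obtain ⟨y, hy⟩ := hP.sur _ (OP.lnv hu) (Matrix.one_mul _)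
    exact ⟨y, Subtype.ext ((eφ y u hu hy).trans k'.symm)⟩
  · rw [Bun.pull_x]
    exact Hg.x ⟨hc, h0, hs, fun y u hu eu =>
      (congrArg amat (eφ y u hu eu)).trans (amat_lnv_YC6 _)⟩

theorem Gam.closed (h : Gam μ X A Z G R) (hz : z ∈ G) : IsClosed {x : Prj M | R x.1 z} := by
  obtain ⟨P, _, _, _, L, Q, φ, e, -, -, -, hr, -⟩ := h.exists_emb hz
  rw [← hr]
  exact (isCompact_range φ.continuous).isClosed

theorem mor_CC_CP {Y : Type} [TopologicalSpace Y] [CompactSpace Y] [T2Space Y] (K : Set Y) :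
    (CC Y).Mor (CP K ∅) LinearMap.id 0 :=
  ⟨fun n x hx => by rw [add_zero]; exact hx,
    fun _ _ _ hx => mem_CP_N.2 fun t _ => mem_CP_N.1 hx t trivial,
    fun _ _ _ => Cx.meq (zero_mem _) (sub_self _).symm⟩

/-- restriction from projective space to a fibre, by germs -/
theorem Gam.qi (h : Gam μ X A Z G R) (hz : z ∈ G) :
    (CC (Prj M)).QI (CP {x : Prj M | R x.1 z} ∅) LinearMap.id 0 (2 * Fintype.card μ - 1) := by
  classical
  obtain ⟨P, _, _, _, L, Q, φ, e, hP, hQ, hφ, hr, he, hx⟩ := h.exists_emb hz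
  have he' : ∀ j : ℕ, ((e : ℂ) ^ j) ≠ 0 := fun j => pow_ne_zero j (Nat.cast_ne_zero.2 he.ne')
  have hp : ∀ j : ℕ, HR.pull φ ((tautL M).x ^ j).1 = (e : ℂ) ^ j • (L.x ^ j).1 := fun j => by
    rw [← HE.pull_val, map_pow, hx, ← Nat.cast_smul_eq_nsmul ℂ, smul_pow]
    rfl
  have q : (CC (Prj M)).QI (CC P) (AS.pl φ) 0 (2 * Fintype.card μ - 1) := by
    refine ⟨fun k hk => (inj_pl_iff φ k).2 fun c hc h0 => ?_,
      fun k _ => (sur_pl_iff φ k).2 fun c hc => ?_⟩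
    · rcases (isPP_taut M).hr_le _ OP.one k c hc with rfl | ⟨j, -, ej, t, rfl⟩
      · rfl
      · rw [map_smul, hp, smul_smul, smul_eq_zero, mul_eq_zero, or_iff_left (he' j)] at h0
        rw [h0.resolve_right fun a => hP.x_pow_ne hQ (j := j) (by omega) (Subtype.ext a), zero_smul]
    · rcases hP.hr_le _ hQ k c hc with rfl | ⟨j, -, ej, t, rfl⟩
      · exact ⟨0, zero_mem _, map_zero _⟩
      · exact ⟨(t / (e : ℂ) ^ j) • ((tautL M).x ^ j).1, Submodule.smul_mem _ _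
          (ej ▸ (tautL M).x_pow_mem j), by rw [map_smul, hp, smul_smul, div_mul_cancel₀ _ (he' j)]⟩
  rw [← hr]
  exact Cx.QI.left (mor_CC_CP _)
    (mor_pl φ (fun x _ => mem_range_self x) (mapsTo_empty _ _)) (taut_inj φ hφ) q

/-- restriction from projective space to a model of a fibre -/
theorem Gam.qi' (h : Gam μ X A Z G R) (hz : z ∈ G) {P : Type} [TopologicalSpace P]
    [CompactSpace P] [T2Space P] (φ : C(P, Prj M)) (hφ : Function.Injective φ)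
    (hr : range φ = {x | R x.1 z}) :
    (CC (Prj M)).QI (CC P) (AS.pl φ) 0 (2 * Fintype.card μ - 1) := by
  have q := h.qi hz
  rw [← hr] at q
  have := Cx.QI.comp (mor_CC_CP _)
    (mor_pl φ (K := univ) (A := ∅) (fun x _ => mem_range_self x) (mapsTo_empty _ _))
    (taut_inj φ hφ _) q
  rwa [LinearMap.comp_id, add_zero] at this

/-- the powers of the hyperplane class are a basis of the cohomology of a fibre -/
theorem Gam.basTo (h : Gam μ X A Z G R) (hz : z ∈ G) (n : ℤ) :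
    BasTo n (fun j : Fin (Fintype.card μ) => 2 * j.1) fun j =>
      HR.res {x : Prj M | R x.1 z} ((tautL M).x ^ j.1).1 := by
  obtain ⟨P, _, _, _, L, Q, φ, e, hP, hQ, hφ, hr, he, hx⟩ := h.exists_emb hz
  have he' : ∀ j : ℕ, ((e : ℂ) ^ j) ≠ 0 := fun j => pow_ne_zero j (Nat.cast_ne_zero.2 he.ne')
  rw [← hr, ← BasTo.pull (φ.continuous.isClosedEmbedding hφ).isEmbedding.toHomeomorph]
  have hp : ∀ j : ℕ, HR.pull ((φ.continuous.isClosedEmbedding hφ).isEmbedding.toHomeomorph :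
      C(P, range φ)) (HR.res (range φ) ((tautL M).x ^ j).1) = (e : ℂ) ^ j • (L.x ^ j).1 :=
    fun j => by
    rw [HR.pull_pull]
    change HR.pull φ _ = _
    rw [← HE.pull_val, map_pow, hx, ← Nat.cast_smul_eq_nsmul ℂ, smul_pow]
    rfl
  simp only [hp]
  obtain ⟨b1, b2⟩ := hP.basTo hQ n
  refine ⟨fun k hk => (b1 k hk).units_smul fun j => Units.mk0 _ (he' j.1), fun k hk =>
    (b2 k hk).trans (Submodule.span_le.2 ?_)⟩
  rintro _ ⟨j, hj, rfl⟩
  exact (Submodule.smul_mem_iff _ (he' j)).1 (Submodule.subset_span ⟨j, hj, rfl⟩)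

end Pool.Agent.CS
end
end

-- part Pool.Agent.P.MP_d34769_ag.YI7b
section

/-! The relative cohomology of the correspondence. -/

open Set
open Pool.Agent.HT (Amb proj)
open Pool.Agent.HIR (Prj ptr)

noncomputable section
namespace Pool.Agent.CS

/-- the powers of the class of a line that is given by a homogeneous map -/
theorem hom_basTo {F μ ν : Type} [TopologicalSpace F] [CompactSpace F] [T2Space F] [Fintype μ]
    [Fintype ν] (L : Bun F ν 1) {e : ℕ} {v : (μ → ℂ) → ν → ℂ} (he : 0 < e) (hc : Continuous v)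
    (h0 : ∀ u, u ≠ 0 → v u ≠ 0) (hh : ∀ (c : ℂ) u, v (c • u) = c ^ e • v u)
    (inj : Function.Injective L.Q) (sur : ∀ l, l ∈ range L.Q ↔ ∃ u, u ≠ 0 ∧ l = lnv (v u))
    (uni : ∀ u u', u ≠ 0 → u' ≠ 0 → lnv (v u) = lnv (v u') → ∃ c : ℂ, u' = c • u) (n : ℤ) :
    BasTo n (fun j : Fin (Fintype.card μ) => 2 * j.1) fun j => (L.x ^ j.1).1 := by
  classical
  have hP := isPP_model (OP.one (μ := μ))
  set L₀ := Ln.l (Bun.const Unit (OP.one (μ := μ))).ld ()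
  obtain ⟨φ, c, eφ⟩ := L₀.exists_desc (fun u => lnv (v u))
    (fun u hu => ((hc.star.dotProduct hc).continuousAt.inv₀ (star_dot_ne (h0 u hu))).smul
      (hc.matrix_vecMulVec hc.star).continuousAt) fun c u hc hu => by
      rw [hh, lnv_smul (h0 u hu) (pow_ne_zero e hc)]
  choose w hw ew using fun y => (L₀.op y).exists_lnv
  choose ψ hψ using fun y => (sur (φ y)).2 ⟨_, hw y, eφ y _ (hw y) (ew y)⟩
  have cψ : Continuous ψ := (L.cont.isClosedEmbedding inj).isInducing.continuous_iff.2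
    (by rwa [show L.Q ∘ ψ = φ from funext hψ])
  have bψ : Function.Bijective ψ := by
    refine ⟨fun a b k => ?_, fun f => ?_⟩
    · obtain ⟨t, k'⟩ := uni _ _ (hw a) (hw b) (by
        rw [← eφ a _ (hw a) (ew a), ← eφ b _ (hw b) (ew b), ← hψ, ← hψ, k])
      exact hP.inj (by rw [ew, ew, (lnv_eq_iff (hw a) (hw b)).2 ⟨t, k'⟩])
    · obtain ⟨u, hu, k⟩ := (sur _).1 (mem_range_self f)
      obtain ⟨y, hy⟩ := hP.sur _ (OP.lnv hu) (Matrix.one_mul _)
      exact ⟨y, inj (by rw [hψ, eφ y u hu hy, k])⟩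
  let η := (Equiv.ofBijective ψ bψ).toHomeomorphOfContinuousClosed cψ cψ.isClosedMap
  have hx : HE.pull (η : C(_, F)) L.x = e • L₀.x := by
    rw [Bun.pull_x]
    exact Hg.x ⟨hc, h0, hh, fun y u hu eu => (hψ y).trans (eφ y u hu eu)⟩
  have he' : ∀ j : ℕ, ((e : ℂ) ^ j) ≠ 0 := fun j => pow_ne_zero j (Nat.cast_ne_zero.2 he.ne')
  have hp : ∀ j : ℕ, HR.pull (η : C(_, F)) (L.x ^ j).1 = (e : ℂ) ^ j • (L₀.x ^ j).1 := fun j => by
    rw [← HE.pull_val, map_pow, hx, ← Nat.cast_smul_eq_nsmul ℂ, smul_pow]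
    rfl
  rw [← BasTo.pull η]
  simp only [hp]
  obtain ⟨b1, b2⟩ := hP.basTo OP.one n
  refine ⟨fun k hk => (b1 k hk).units_smul fun j => Units.mk0 _ (he' j.1), fun k hk =>
    (b2 k hk).trans (Submodule.span_le.2 ?_)⟩
  rintro _ ⟨j, hj, rfl⟩
  exact (Submodule.smul_mem_iff _ (he' j)).1 (Submodule.subset_span ⟨j, hj, rfl⟩)

variable {M N : ℕ} {μ : Type} [Fintype μ] {X A : Set (Amb M)} {Z B G : Set (Amb N)}
  {R : Amb M → Amb N → Prop}

theorem Gam.card_le (h : Gam μ X A Z G R) (hG : G.Nonempty) : Fintype.card μ ≤ M := by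
  obtain ⟨z, hz⟩ := hG
  obtain ⟨P, _, _, _, L, Q, φ, e, hP, hQ, -, -, he, hx⟩ := h.exists_emb hz
  have h1 : (tautL M).x ^ M = 0 := by
    have := (isPP_taut M).x_pow OP.one
    rwa [Fintype.card_fin] at this
  have h2 := congrArg (HE.pull φ) h1
  rw [map_pow, hx, map_zero, ← Nat.cast_smul_eq_nsmul ℂ, smul_pow, smul_eq_zero,
    or_iff_right (pow_ne_zero M (Nat.cast_ne_zero.2 he.ne'))] at h2
  exact not_lt.1 fun c => hP.x_pow_ne hQ c h2

theorem Gam.vb (h : Gam μ X A Z (Z \ B) R) (hZ : PA Z) (hB : IsClosed B)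
    {S Γ : Set (Amb (M * N))} (hS : S = Sgr fun x z => x ∈ Prj M ∧ z ∈ Z) (hΓ : Γ = Sgr R)
    [CompactSpace S] [CompactSpace Γ] (g : C(Γ, S)) (hg : ∀ x, (g x).1 = x.1) {n : ℤ}
    (hn : n + 1 < 2 * Fintype.card μ) :
    (CP univ {s : S | ptr2 M N s.1 ∈ B}).QI (CP univ {s : Γ | ptr2 M N s.1 ∈ B}) (AS.pl g) 0 n := by
  subst hS hΓ
  have := isCompact_iff_compactSpace.1 hZ.compact
  have mz : ∀ s : Sgr fun (x : Amb M) z => x ∈ Prj M ∧ z ∈ Z, ptr2 M N s.1 ∈ Z := fun s => by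
    obtain ⟨x, z, k, e⟩ := s.2
    rw [e, ptr2_seg k.1 (hZ.1 k.2)]
    exact k.2
  let π : C(Sgr fun (x : Amb M) z => x ∈ Prj M ∧ z ∈ Z, Z) :=
    ⟨fun s => ⟨_, mz s⟩, (cont_ptr2.comp continuous_subtype_val).subtype_mk mz⟩
  have hm : ((AS.sc _).push π).Mor ((AS.sc _).push (π.comp g)) (AS.pl g) 0 :=
    ⟨(AS.sc_mor g).fG, fun t x hx => (SC.mem_zz _).2 fun s hs =>
      AS.z_pull g.continuous.continuousAt ((SC.mem_zz _).1 hx _ hs),
      fun t x => Cx.meq (zero_mem _) (sub_eq_zero.2 (AS.pull_d g x)).symm⟩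
  have key := SC.soft_qi (n := n) hm isClosed_univ (hB.preimage continuous_subtype_val)
    fun t ht => by
    rw [SC.push_cx, SC.push_cx]
    have hz : t.1 ∈ Z \ B := ⟨t.2, ht.2⟩
    have hF := isCompact_iff_compactSpace.1 (h.closed hz).isCompact
    have cs : Continuous fun x : Prj M => seg x.1 t.1 :=
      cont_seg.comp (continuous_subtype_val.prodMk continuous_const)
    let a : C(Prj M, Sgr fun (x : Amb M) z => x ∈ Prj M ∧ z ∈ Z) :=
      ⟨fun x => ⟨seg x.1 t.1, _, _, ⟨x.2, t.2⟩, rfl⟩, cs.subtype_mk _⟩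
    let b : C({x : Prj M | R x.1 t.1}, Sgr R) :=
      ⟨fun x => ⟨seg x.1.1 t.1, _, _, x.2, rfl⟩, (cs.comp continuous_subtype_val).subtype_mk _⟩
    let i : C({x : Prj M | R x.1 t.1}, Prj M) := ⟨Subtype.val, continuous_subtype_val⟩
    have si : ∀ x y : Prj M, seg x.1 t.1 = seg y.1 t.1 → x = y := fun x y e => Subtype.ext (by
      rw [← ptr_seg x.2 (hZ.1 t.2), e, ptr_seg y.2 (hZ.1 t.2)])
    have ra : π ⁻¹' {t} = range a := Set.ext fun s => ⟨fun k => by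
      obtain ⟨_, x, z, k', rfl⟩ := s
      obtain rfl : z = t.1 := (ptr2_seg k'.1 (hZ.1 k'.2)).symm.trans (congrArg Subtype.val k)
      exact ⟨⟨x, k'.1⟩, rfl⟩, by
      rintro ⟨x, rfl⟩
      exact Subtype.ext (ptr2_seg x.2 (hZ.1 t.2))⟩
    have rb : π.comp g ⁻¹' {t} = range b := Set.ext fun s => ⟨fun k => by
      have k1 : ptr2 M N s.1 = t.1 := hg s ▸ congrArg Subtype.val k
      obtain ⟨_, x, z, k', rfl⟩ := s
      obtain rfl : z = t.1 := (ptr2_seg (h.ar.1 _ _ k').1 (h.ar.1 _ _ k').2).symm.trans k1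
      exact ⟨⟨⟨x, (h.ar.1 _ _ k').1⟩, k'⟩, rfl⟩, by
      rintro ⟨x, rfl⟩
      exact Subtype.ext ((congrArg (ptr2 M N) (hg _)).trans (ptr2_seg x.1.2 (hZ.1 t.2)))⟩
    have ma := mor_pl a (K := univ) (A := ∅) (fun x _ => mem_range_self x) (mapsTo_empty _ ∅)
    have q := Cx.QI.comp ma (mor_pl i (mapsTo_univ _ _) (mapsTo_empty _ _))
      ((h.qi' hz i Subtype.val_injective Subtype.range_val).mono (m := n + 0) (by omega))
      (taut_inj a (fun x y e => si x y (congrArg Subtype.val e)) n)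
    have e0 : AS.pl i ∘ₗ AS.pl a = AS.pl b ∘ₗ AS.pl g := LinearMap.ext fun φ =>
      (AS.pull_pull _ _ φ).trans ((congrArg (AS.pull · φ) (funext fun x =>
        Subtype.ext (hg (b x)).symm)).trans (AS.pull_pull _ _ φ).symm)
    rw [e0] at q
    rw [ra, rb]
    refine Cx.QI.left (mor_pl g (fun s hs => ?_) (mapsTo_empty _ _))
      (mor_pl b (fun x _ => mem_range_self x) (mapsTo_empty _ _))
      (taut_inj b fun x y e => Subtype.ext (si _ _ (congrArg Subtype.val e))) q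
    rw [← ra]
    rwa [← rb] at hs
  rw [SC.push_cx, SC.push_cx] at key
  have e1 : π.comp g ⁻¹' (Subtype.val ⁻¹' B) = {s : Sgr R | ptr2 M N s.1 ∈ B} :=
    Set.ext fun s => by rw [mem_ofPred_eq, ← hg]; rfl
  rw [e1] at key
  exact key

theorem Gam.exc (h : Gam μ X A Z (Z \ B) R) (hA : IsClosed A) {X' : Set (Amb M)}
    {Γ : Set (Amb (M * N))} (hX : X' = X) (hΓ : Γ = Sgr R) [CompactSpace X'] [CompactSpace Γ]
    (g : C(Γ, X')) (hg : ∀ x, (g x).1 = ptr M N x.1) :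
    (CP univ {x : X' | x.1 ∈ A}).QIa (CP univ {s : Γ | ptr2 M N s.1 ∈ B}) (AS.pl g) 0 := by
  subst hX hΓ
  have e1 : g ⁻¹' {x : X' | x.1 ∈ A} = {s : Sgr R | ptr2 M N s.1 ∈ B} := Set.ext fun s => by
    rw [mem_preimage, mem_ofPred_eq, mem_ofPred_eq, hg]
    obtain ⟨_, x, z, k, rfl⟩ := s
    rw [ptr_seg (h.ar.1 _ _ k).1 (h.ar.1 _ _ k).2, ptr2_seg (h.ar.1 _ _ k).1 (h.ar.1 _ _ k).2,
      h.bd _ _ k]
    exact ⟨fun c => by_contra fun c' => c ⟨(h.mem _ _ k).2, c'⟩, fun c c' => c'.2 c⟩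
  rw [← e1]
  refine exc_pre g isClosed_univ (hA.preimage continuous_subtype_val) fun t ht => ?_
  obtain ⟨z, k, u⟩ := h.uni t.1 ⟨t.2, ht.2⟩
  refine ⟨⟨_, _, _, k, rfl⟩, Subtype.ext ((hg _).trans
    (ptr_seg (h.ar.1 _ _ k).1 (h.ar.1 _ _ k).2)), ?_⟩
  rintro ⟨_, x, z', k', rfl⟩ e
  obtain rfl : x = t.1 := (ptr_seg (h.ar.1 _ _ k').1 (h.ar.1 _ _ k').2).symm.trans
    ((hg _).symm.trans (congrArg Subtype.val e))
  obtain rfl := u z' k'
  rfl

end Pool.Agent.CS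
end
end
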