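import Pool.Agent.K.MP_d34769_ag.C36
import Pool.Agent.K.MP_d34769_ag.C35

/-! Diagrams on shapes that come from one diagram of algebraic sets. -/

open Set
open Pool.Agent.HIR (Mf HolP)

noncomputable section
namespace Pool.Agent.CS

namespace Dia
variable {ι : Type} [PartialOrder ι] (G : Dia ι) {S S' : Sh}

/-- monotone maps from a shape -/
def Mono (S : Sh) (τ : S.ι → ι) : Prop := ∀ {a b}, S.rel a b → τ a ≤ τ b

/-- the diagram of spaces on a shape -/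
def dg (S : Sh) (τ : S.ι → ι) (h : Mono S τ) : Dg S where
  X a := G.X (τ a)
  cpt _ := isCompact_iff_compactSpace.1 (G.ag _ _ le_rfl).pa.compact
  mp e := rmap (G.ag _ _ (h e)).cont (G.maps _ _ (h e))
  comp e e' x := Subtype.ext (G.comp _ _ _ (h e) (h e') x.1 x.2)

variable {τ : S.ι → ι} {τ' : S'.ι → ι}

/-- the map of diagrams over a map of shapes -/
def hom (h : Mono S τ) (h' : Mono S' τ') (φ : ShH S S') (r : ∀ {a b}, φ.R a b → τ a ≤ τ' b) :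
    Dg.Hom φ (G.dg S τ h) (G.dg S' τ' h') where
  g e := rmap (G.ag _ _ (r e)).cont (G.maps _ _ (r e))
  gl e e' x := Subtype.ext (G.comp _ _ _ (h e) (r e') x.1 x.2)
  gr e e' x := Subtype.ext (G.comp _ _ _ (r e) (h' e') x.1 x.2)

theorem bmor (h : Mono S τ) (h' : Mono S' τ') (φ : ShH S S') (r : ∀ {a b}, φ.R a b → τ a ≤ τ' b) :
    (Dg.bc (⊤ : (G.dg S' τ' h').Fam) ⊥).Mor (Dg.bc (⊤ : (G.dg S τ h).Fam) ⊥)
      (G.hom h h' φ r).map 0 :=
  (G.hom h h' φ r).mor (fun _ => mapsTo_univ _ _) fun _ => mapsTo_empty _ _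

/-- the diagram of manifolds on a shape -/
def sdg (h : Mono S τ) (e : S.ι → ℕ) (mf : ∀ a, Mf (e a) (G.X (τ a)))
    (hol : ∀ {a b}, S.rel a b → HolP (e a) (G.X (τ a)) (G.f (τ a) (τ b))) : SDg S where
  M a := G.M (τ a)
  X a := G.X (τ a)
  f a b := G.f (τ a) (τ b)
  dm := e
  mf := mf
  maps r := G.maps _ _ (h r)
  hol := hol
  comp r r' := G.comp _ _ _ (h r) (h r')

/-- a compatible system of mixed Hodge structures -/
structure Zig where
  m : ∀ (S : Sh) (τ : S.ι → ι) (h : Mono S τ) (j : ℕ),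
    MHS ((Dg.bc (⊤ : (G.dg S τ h).Fam) ⊥).cx.H j) j
  mor : ∀ {S S' : Sh} {τ : S.ι → ι} {τ' : S'.ι → ι} (h : Mono S τ) (h' : Mono S' τ') (φ : ShH S S')
    (r : ∀ {a b}, φ.R a b → τ a ≤ τ' b) (j : ℕ),
    (m S' τ' h' j).Mor (m S τ h j) ((G.bmor h h' φ r).cx.hm (add_zero _))
  sm : ∀ {S : Sh} {τ : S.ι → ι} (h : Mono S τ) (e : S.ι → ℕ) (mf : ∀ a, Mf (e a) (G.X (τ a)))
    (hol : ∀ {a b}, S.rel a b → HolP (e a) (G.X (τ a)) (G.f (τ a) (τ b))) (j : ℕ),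
    ((G.sdg h e mf hol).mhs j).Mor (m S τ h j) LinearMap.id

end Dia
end Pool.Agent.CS
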