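import Pool.Agent.K.MP_d34769_ag.C51
import Pool.Agent.K.MP_d34769_ag.C62
import Pool.Agent.K.MP_d34769_ag.C70

/-! The zigzag of mixed Hodge structures. -/

open Set
open Pool.Agent.HT (Amb IsSNC strat)
open Pool.Agent.HIR (Prj Mf HolP ptr)

noncomputable section
namespace Pool.Agent.CS

section glue
variable {ι κ : Type} [PartialOrder ι] [PartialOrder κ]

/-- a monotone family of algebraic sets -/
def Dia.sub {M : ℕ} (Y : ι → Set (Amb M)) (h : ∀ i, PA (Y i)) (m : Monotone Y) : Dia ι where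
  M _ := M
  X := Y
  f _ _ x := x
  ag i _ _ := ag_id (h i)
  maps _ _ e := m e
  id _ _ _ := rfl
  comp _ _ _ _ _ _ _ := rfl

/-- a relation from one ordered set to another -/
structure Brg (ι κ : Type) [PartialOrder ι] [PartialOrder κ] where
  r : ι → κ → Prop
  l : ∀ {a a' b}, a ≤ a' → r a' b → r a b
  u : ∀ {a b b'}, r a b → b ≤ b' → r a b'

/-- the union of the two ordered sets -/
def Brg.T (_ : Brg ι κ) : Type := ι ⊕ κ

instance [Finite ι] [Finite κ] (B : Brg ι κ) : Finite B.T := inferInstanceAs (Finite (ι ⊕ κ))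

/-- the order on the union -/
def Brg.le (B : Brg ι κ) : B.T → B.T → Prop
  | .inl a, .inl a' => a ≤ a'
  | .inl a, .inr b => B.r a b
  | .inr _, .inl _ => False
  | .inr b, .inr b' => b ≤ b'

instance (B : Brg ι κ) : PartialOrder B.T where
  le := B.le
  le_refl := by rintro (a | a) <;> exact le_refl a
  le_trans := by
    rintro (a | a) (b | b) (c | c) h h'
    exacts [le_trans (α := ι) h h', B.l h h', h'.elim, B.u h h', h.elim, h.elim, h'.elim,
      le_trans (α := κ) h h']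
  le_antisymm := by
    rintro (a | a) (b | b) h h'
    exacts [congrArg _ (le_antisymm (α := ι) h h'), h'.elim, h.elim,
      congrArg _ (le_antisymm (α := κ) h h')]

/-- two diagrams that are joined along a relation -/
def Dia.glue (G : Dia ι) (G' : Dia κ) (B : Brg ι κ) (g : ∀ a b, Amb (G.M a) → Amb (G'.M b))
    (ag : ∀ a b, B.r a b → AG (G.X a) (g a b) ∧ MapsTo (g a b) (G.X a) (G'.X b))
    (gl : ∀ a a' b, a ≤ a' → B.r a' b → ∀ x ∈ G.X a, g a' b (G.f a a' x) = g a b x)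
    (gr : ∀ a b b', B.r a b → b ≤ b' → ∀ x ∈ G.X a, G'.f b b' (g a b x) = g a b' x) :
    Dia B.T where
  M := Sum.elim G.M G'.M
  X a := match a with
    | .inl a => G.X a
    | .inr b => G'.X b
  f a b := match a, b with
    | .inl a, .inl a' => G.f a a'
    | .inl a, .inr b => g a b
    | .inr _, .inl _ => 0
    | .inr b, .inr b' => G'.f b b'
  ag := by
    rintro (a | a) (b | b) h
    exacts [G.ag a b h, (ag a b h).1, h.elim, G'.ag a b h]
  maps := by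
    rintro (a | a) (b | b) h
    exacts [G.maps a b h, (ag a b h).2, h.elim, G'.maps a b h]
  id := by
    rintro (a | a)
    exacts [G.id a, G'.id a]
  comp := by
    rintro (a | a) (b | b) (c | c) h h'
    exacts [G.comp a b c h h', gl a b c h h', h'.elim, gr a b c h h', h.elim, h.elim, h'.elim,
      G'.comp a b c h h']

end glue

theorem _root_.IsClosed.of_eq_YI8 {X : Type} [TopologicalSpace X] {s t : Set X} (h : IsClosed s)
    (e : s = t) : IsClosed t := e ▸ h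

section cap
variable {M : ℕ} {ι : Type} [Finite ι] {Y : Set (Amb M)} {W : ι → Set (Amb M)}
  (hc : ∀ B, PA (cap Y W B)) (p : ℕ)

/-- the diagram of intersections -/
def capDg : Dg (tupSh ι p) where
  X J := cap Y W (range J.2)
  cpt _ := isCompact_iff_compactSpace.1 (hc _).compact
  mp e := rmap (f := fun x => x) continuousOn_id (cap_anti Subset.rfl e)
  comp _ _ _ := rfl

theorem cap_qi {A : Set ((capDg hc p).X (Tup.nil : Tup ι p))} (hA : ∀ x, x ∈ A ↔ ∃ i, x.1 ∈ W i) :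
    (CP univ A).Mor (capDg hc p).tot.cx ((capDg hc p).sgl Tup.nil) 0 ∧
      (CP univ A).QI (capDg hc p).tot.cx ((capDg hc p).sgl Tup.nil) 0 p := by
  refine ⟨(capDg hc p).sgl_mor rfl fun J _ e x => (hA _).2 ?_, ?_⟩
  · obtain ⟨i, hi⟩ := (tup_base ι p).ε J e
    exact ⟨i, x.2.2 i hi⟩
  obtain rfl : A = ⋃ i, {x | x.1 ∈ W i} := Set.ext fun x => by
    rw [mem_iUnion]; exact hA x
  refine simp_qi _ _ (fun i => ?_) (fun _ => rfl) (fun J x y e => Subtype.ext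
    (congrArg Subtype.val e :)) fun J => Set.ext fun x => ⟨?_, fun h => ⟨⟨x.1, x.2.1, ?_⟩, rfl⟩⟩
  · exact ((hc {i}).closed.preimage continuous_subtype_val).of_eq_YI8 (Set.ext fun x =>
      ⟨fun h => h.2 i rfl, fun h => ⟨x.2.1, fun _ e => e ▸ h⟩⟩)
  · rintro ⟨y, rfl⟩ a
    exact y.2.2 _ ⟨a, rfl⟩
  · rintro _ ⟨a, rfl⟩
    exact h a

end cap

/-- a diagram on a order with a greatest element whose boundary lands in `A` -/
structure SDg.Top {S : Sh} (P : SDg S) (o : S.ι) (A : Set (Amb (P.M o))) : Prop where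
  refl : ∀ a, S.rel a a
  anti : ∀ {a b}, S.rel a b → S.rel b a → a = b
  id : ∀ a, ∀ x ∈ P.X a, P.f a a x = x
  le : ∀ a, S.rel a o
  deg : S.deg o = 0
  pa : PA A
  sub : A ⊆ P.X o
  maps : ∀ a, a ≠ o → MapsTo (P.f a o) (P.X a) A

theorem ShH.base_one {S : Sh} {o : S.ι} {nz : S.ι → Prop} (h : S.Base o nz) (p : ℕ) :
    (ShH.base h p).μ o Tup.nil = 1 ∧ ∀ a, a ≠ o → (ShH.base h p).μ a Tup.nil = 0 := by
  simp [ShH.base, Tup.nil]

section big
variable {S : Sh} {P : SDg S} {o : S.ι} {A : Set (Amb (P.M o))} (hP : P.Top o A)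

/-- the vertices with their order -/
def SDg.Top.Po (_ : P.Top o A) : Type := S.ι

instance : Finite hP.Po := inferInstanceAs (Finite S.ι)

instance : PartialOrder hP.Po where
  le := S.rel
  le_refl := hP.refl
  le_trans _ _ _ := S.trans
  le_antisymm _ _ := hP.anti

/-- the diagram of algebraic sets -/
def SDg.Top.dia : Dia hP.Po where
  M := P.M
  X := P.X
  f := P.f
  ag a _ h := ag_of_hol (P.mf a) (P.hol h)
  maps _ _ h := P.maps h
  id := hP.id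
  comp _ _ _ h h' := P.comp h h'

include hP in
theorem SDg.Top.pc (B : Set Unit) : PA (cap (P.X o) (fun _ => A) B) :=
  pa_cap (pa_of_mf (P.mf o)) (fun _ => (pa_of_mf (P.mf o)).inter hP.pa) B

/-- the pair -/
def SDg.Top.pair : Dia (Set Unit)ᵒᵈ :=
  Dia.sub (fun B => cap (P.X o) (fun _ => A) (OrderDual.ofDual B)) (fun _ => hP.pc _)
    fun _ _ e => cap_anti Subset.rfl e

/-- the relation to the pair -/
def SDg.Top.brg : Brg hP.Po (Set Unit)ᵒᵈ where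
  r a B := (OrderDual.ofDual B).Nonempty → a ≠ o
  l e h k c := h k (hP.anti (hP.le _) (c ▸ e))
  u h e k := h (k.mono e)

/-- the diagram over the pair -/
def SDg.Top.ov : Dia hP.brg.T :=
  hP.dia.glue hP.pair hP.brg (fun a _ => P.f a o)
    (fun a _ h => ⟨ag_of_hol (P.mf a) (P.hol (hP.le a)), fun _ hx =>
      ⟨P.maps (hP.le a) hx, fun i hi => hP.maps a (h ⟨i, hi⟩) hx⟩⟩)
    (fun _ a' _ e _ => P.comp e (hP.le a')) fun _ _ _ _ _ _ _ => rfl

include hP in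
theorem SDg.Top.base : S.Base o (· ≠ o) :=
  ⟨hP.deg, fun e h c => h (hP.anti (hP.le _) (c ▸ e)), fun a h c => by
    have := (S.sup _ _ h).2
    rw [c] at this
    omega⟩

variable {N e : ℕ} {ι : Type} [Finite ι] {Z : Set (Amb N)} {D : ι → Set (Amb N)}
  (h : IsSNC e Z D) {μ : Type} {R : Amb (P.M o) → Amb N → Prop}
  (hG : Gam μ (P.X o) A Z (Z \ ⋃ i, D i) R)

omit [Finite ι] in
include hG in
theorem Gam.sub : Sgr R ⊆ prZ (P.M o) Z := fun _ ⟨x, z, k, e⟩ =>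
  ⟨x, z, ⟨(hG.ar.1 x z k).1, (hG.mem x z k).2⟩, e⟩

omit [Finite ι] in
include hG in
theorem Gam.pt {s : Amb (P.M o * N)} (hs : s ∈ Sgr R) :
    ptr _ N s ∈ P.X o ∧ (ptr _ N s ∈ A ↔ ptr2 _ N s ∈ ⋃ i, D i) := by
  obtain ⟨x, z, c, rfl⟩ := hs
  have hx := hG.ar.1 x z c
  rw [ptr_seg hx.1 hx.2, ptr2_seg hx.1 hx.2, hG.bd x z c, mem_sdiff, not_and, not_not]
  exact ⟨(hG.mem x z c).1, fun k => k (hG.mem x z c).2, fun k _ => k⟩

include h in
theorem pc_sgr {M : ℕ} {R : Amb M → Amb N → Prop} (hR : AR R) (B : Set ι) :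
    PA (cap (Sgr R) (fun i => ptr2 M N ⁻¹' D i) B) :=
  pa_cap hR.sgr (fun i => hR.ag_ptr2.preimage ((snc_pa h).2 i)) B

include h in
theorem pc_prZ (M : ℕ) (B : Set ι) : PA (cap (prZ M Z) (fun i => ptr2 M N ⁻¹' D i) B) :=
  pc_sgr h (ar_prod pa_Prj (snc_pa h).1) B

/-- the product and the correspondence with their boundaries -/
def srcDia : Dia (Bool × (Set ι)ᵒᵈ) :=
  Dia.sub (fun a => cap (cond a.1 (prZ (P.M o) Z) (Sgr R)) (fun i => ptr2 (P.M o) N ⁻¹' D i)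
    (OrderDual.ofDual a.2))
    (by rintro ⟨_ | _, B⟩; exacts [pc_sgr h hG.ar _, pc_prZ h _ _])
    (by
      rintro ⟨_ | _, B⟩ ⟨_ | _, B'⟩ k
      exacts [cap_anti Subset.rfl k.2, cap_anti hG.sub k.2, absurd k.1 (show ¬ true ≤ false by decide),
        cap_anti Subset.rfl k.2])

/-- the relation from the correspondence to the pair -/
def srcBrg (ι : Type) : Brg (Bool × (Set ι)ᵒᵈ) hP.brg.T where
  r a b := match b with
    | .inl _ => False
    | .inr B => a.1 = false ∧ ((OrderDual.ofDual B).Nonempty → (OrderDual.ofDual a.2).Nonempty)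
  l := by
    rintro a a' (b | b) k k'
    exacts [k', ⟨le_bot_iff.1 (k.1.trans k'.1.le), fun c => (k'.2 c).mono k.2⟩]
  u := by
    rintro a (b | b) (b' | b') k k'
    exacts [k, k.elim, k'.elim, ⟨k.1, fun c => k.2 (c.mono k')⟩]

/-- all spaces of the zigzag -/
def bigDia : Dia (srcBrg hP ι).T :=
  (srcDia h hG).glue hP.ov (srcBrg hP ι)
    (fun _ b => match b with
      | .inl _ => 0
      | .inr _ => ptr (P.M o) N)
    (by
      rintro ⟨b, B⟩ (_ | B') k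
      · exact k.elim
      obtain rfl : b = false := k.1
      refine ⟨hG.ar.ag_ptr.mono (pc_sgr h hG.ar _) fun _ c => c.1, ?_⟩
      refine fun x c => ⟨(hG.pt c.1).1, fun i hi => (hG.pt c.1).2.2 ?_⟩
      obtain ⟨i, hi⟩ := k.2 ⟨i, hi⟩
      exact mem_iUnion.2 ⟨i, c.2 i hi⟩)
    (by rintro _ _ (_ | _) _ k _ _; exacts [k.elim, rfl])
    (by rintro _ (_ | _) (_ | _) k k' _ _; exacts [k.elim, k.elim, k'.elim, rfl])

end big

theorem zigzag {S : Sh} {P : SDg S} {o : S.ι} {A : Set (Amb (P.M o))} (hP : P.Top o A)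
    {N e : ℕ} {ι : Type} [Finite ι] {Z : Set (Amb N)} {D : ι → Set (Amb N)} (h : IsSNC e Z D)
    {μ : Type} [Fintype μ] {R : Amb (P.M o) → Amb N → Prop}
    (hG : Gam μ (P.X o) A Z (Z \ ⋃ i, D i) R) {p j : ℕ} (hj : j < p)
    (hμ : j + 2 < 2 * Fintype.card μ) {A' : Set (P.toDg.X o)} (hA : ∀ x, x ∈ A' ↔ x.1 ∈ A)
    (a : (CP univ A').Mor P.bc.cx (P.toDg.sgl o) 0)
    (inj : (CP univ A').Inj P.bc.cx (P.toDg.sgl o) 0 j) :
    ∃ f, ((TP h (P.M o) p).mhs j).Good (P.mhs j) f ∧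
      LinearMap.range f = LinearMap.range (a.hm (add_zero _)) := by
  obtain ⟨p, rfl⟩ : ∃ q, p = q + 1 := ⟨p - 1, by omega⟩
  let G := bigDia hP h hG
  obtain ⟨ζ⟩ := G.zig
  let τ : Bool → (tupSh ι (p + 1)).ι → (srcBrg hP ι).T := fun b J =>
    .inl (b, OrderDual.toDual (range J.2))
  let σ : S.ι → (srcBrg hP ι).T := fun a => .inr (.inl a)
  let ρ : (tupSh Unit (p + 1)).ι → (srcBrg hP ι).T := fun J =>
    .inr (.inr (OrderDual.toDual (range J.2)))
  have hτ : ∀ b, Dia.Mono (tupSh ι (p + 1)) (τ b) := fun b _ _ k => ⟨le_refl b, k⟩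
  have hσ : Dia.Mono S σ := fun k => k
  have hρ : Dia.Mono (tupSh Unit (p + 1)) ρ := fun k => k
  let φ₁ := ShH.one (tupSh ι (p + 1)) fun _ => Subset.rfl
  let φ₂ := ShH.base (tup_base ι (p + 1)) p
  let φ₃ := ShH.base hP.base p
  have r₁ : ∀ {a b}, φ₁.R a b → τ false a ≤ τ true b := fun k => ⟨Bool.false_le _, k⟩
  have r₂ : ∀ {a b}, φ₂.R a b → τ false a ≤ ρ b := fun k => ⟨rfl, k⟩
  have r₃ : ∀ {a b}, φ₃.R a b → σ a ≤ ρ b := fun k => k
  have n₀ : (range (Tup.nil : Tup Unit (p + 1)).2).Nonempty → False := fun ⟨_, k, _⟩ => k.elim0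
  have hU : ∀ {M : ℕ} {x : Amb (M * N)}, ptr2 M N x ∈ ⋃ i, D i ↔ ∃ i, x ∈ ptr2 M N ⁻¹' D i :=
    mem_iUnion
  obtain ⟨mS, qS⟩ := cap_qi (pc_prZ h (P.M o)) (p + 1)
    (A := {x | ptr2 _ N x.1 ∈ ⋃ i, D i}) fun _ => hU
  obtain ⟨mΓ, qΓ⟩ := cap_qi (pc_sgr h hG.ar) (p + 1)
    (A := {x | ptr2 _ N x.1 ∈ ⋃ i, D i}) fun _ => hU
  obtain ⟨mQ, qQ⟩ := cap_qi hP.pc (p + 1) (A := {x | x.1 ∈ A}) fun _ => ⟨fun k => ⟨(), k⟩, fun k => k.elim fun _ => id⟩
  have c : ∀ {M : ℕ} {Y : Set (Amb M)}, PA Y → CompactSpace Y := fun k =>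
    isCompact_iff_compactSpace.1 k.compact
  have := c (hP.pc (range (Tup.nil : Tup Unit (p + 1)).2))
  have := c (pc_sgr h hG.ar (range (Tup.nil : Tup ι (p + 1)).2))
  have := c (pc_sgr h (ar_prod (pa_Prj (M := P.M o)) (snc_pa h).1)
    (range (Tup.nil : Tup ι (p + 1)).2))
  have e₃ : ∀ x : P.toDg.X o, P.f o o x.1 ∈ A ↔ x ∈ A' := fun x => by rw [hP.id o _ x.2, hA]
  have s₁ : (G.hom (hτ false) (hτ true) φ₁ r₁).Sqr (i := Tup.nil) (j := Tup.nil) Subset.rfl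
      {x | ptr2 _ N x.1 ∈ ⋃ i, D i} {x | ptr2 _ N x.1 ∈ ⋃ i, D i} :=
    ⟨if_pos rfl, fun _ k => if_neg k, fun _ k => k, mΓ, mS⟩
  have v₂ := hG.exc hP.pa.closed cap_nil cap_nil
    ((G.hom (hτ false) hρ φ₂ r₂).g (i := Tup.nil) (j := Tup.nil) fun k => (n₀ k).elim) fun _ => rfl
  have s₂ : (G.hom (hτ false) hρ φ₂ r₂).Sqr (i := Tup.nil) (j := Tup.nil) (fun k => (n₀ k).elim)
      {x | ptr2 _ N x.1 ∈ ⋃ i, D i} {x | x.1 ∈ A} :=
    ⟨(ShH.base_one _ p).1, (ShH.base_one _ p).2,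
      fun x k => (hG.pt x.2.1).2.2 k, mΓ, mQ⟩
  have s₃ : (G.hom hσ hρ φ₃ r₃).Sqr (i := o) (j := Tup.nil) (fun k => (n₀ k).elim)
      A' {x | x.1 ∈ A} :=
    ⟨(ShH.base_one _ p).1, (ShH.base_one _ p).2,
      fun x k => (e₃ x).2 k, a, mQ⟩
  have v₁ := hG.vb (snc_pa h).1 (isClosed_iUnion_of_finite fun i => ((snc_pa h).2 i).closed)
    cap_nil cap_nil ((G.hom (hτ false) (hτ true) φ₁ r₁).g (i := Tup.nil) (j := Tup.nil) Subset.rfl)
    (fun _ => rfl) (n := j + 1) (by omega)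
  have v₃ : (CP univ {x | x.1 ∈ A}).QIa (CP univ A') (AS.pl ((G.hom hσ hρ φ₃ r₃).g (i := o)
      (j := Tup.nil) fun k => (n₀ k).elim)) 0 :=
    exc _ isClosed_univ (hP.pa.closed.preimage continuous_subtype_val) isClosed_univ
      ((hP.pa.closed.preimage continuous_subtype_val).of_eq_YI8 (Set.ext fun x => (hA x).symm))
      (mapsTo_univ _ _) s₃.m (fun x _ => (e₃ x).1) fun t _ =>
      ⟨⟨t.1, t.2.1⟩, ⟨trivial, Subtype.ext (hP.id o _ t.2.1)⟩, fun y k =>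
        Subtype.ext ((hP.id o _ y.2).symm.trans (congrArg Subtype.val k.2 :))⟩
  have hp : (j : ℤ) < (p + 1 : ℕ) := by exact_mod_cast hj
  have i₁ := s₁.inj (qS.2 j hp) (v₁.1 j (by omega)) (qΓ.1 j hp.le)
  have u₁ := s₁.sur (v₁.2 j (by omega)) (qΓ.2 j hp)
  have b₂ : Function.Bijective _ :=
    ⟨s₂.inj (qQ.2 j hp) (v₂.inj j) (qΓ.1 j hp.le), s₂.sur (v₂.sur j) (qΓ.2 j hp)⟩
  have g₀ := (ζ.sm (hτ true) _ (TP h (P.M o) (p + 1)).mf (TP h (P.M o) (p + 1)).hol j).good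
    Function.injective_id
  have g₁ := (ζ.mor (hτ false) (hτ true) φ₁ r₁ j).good i₁
  have g₂ := (ζ.mor (hτ false) hρ φ₂ r₂ j).good_symm b₂
  have g₃ := (ζ.mor hσ hρ φ₃ r₃ j).good (s₃.inj (qQ.2 j hp) (v₃.inj j) inj)
  have g₄ := (ζ.sm hσ _ P.mf P.hol j).good_inv Function.injective_id (g := LinearMap.id)
    fun _ => rfl
  refine ⟨_, g₄.comp (g₃.comp (g₂.comp (g₁.comp g₀))), ?_⟩
  refine Eq.trans (le_antisymm ?_ ?_) (s₃.range (qQ.2 j hp) (v₃.sur j))
  · rintro _ ⟨x, rfl⟩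
    exact ⟨_, rfl⟩
  · rintro _ ⟨x, rfl⟩
    obtain ⟨y, e⟩ := u₁ (LinearEquiv.ofBijective _ b₂ x)
    exact ⟨y, congrArg _ ((LinearEquiv.symm_apply_eq _).2 e)⟩

end Pool.Agent.CS
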