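import Mathlib
import Pool.Agent.K.MP_d34769_ag.C24

-- part Pool.Agent.P.MP_d34769_ag.YB0
section

/-! Orthogonal projectors, bundles given by projectors, projective bundles and spaces of
orthogonal lines. -/

open Matrix
open scoped Kronecker

noncomputable section
namespace Pool.Agent.CS

variable {μ ν K : Type} [Fintype μ] [Fintype ν]

/-- `Q` is the orthogonal projector onto a subspace of dimension `r` -/
structure OP (r : ℕ) (Q : Matrix μ μ ℂ) : Prop where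
  herm : Qᴴ = Q
  idem : Q * Q = Q
  tr : Q.trace = r

/-- a subbundle of rank `r` of the trivial bundle `ℂ^μ` -/
@[ext] structure Bun (Y : Type) [TopologicalSpace Y] (μ : Type) [Fintype μ] (r : ℕ) where
  Q : Y → Matrix μ μ ℂ
  cont : Continuous Q
  op : ∀ y, OP r (Q y)

variable {X Y B : Type} [TopologicalSpace X] [TopologicalSpace Y] [TopologicalSpace B] {r s : ℕ}

/-- pull-back of a bundle -/
def Bun.comap (E : Bun Y μ r) (f : C(X, Y)) : Bun X μ r :=
  ⟨fun x => E.Q (f x), E.cont.comp f.continuous, fun x => E.op (f x)⟩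

/-- constant bundle -/
def Bun.const (Y : Type) [TopologicalSpace Y] {Q : Matrix μ μ ℂ} (h : OP r Q) : Bun Y μ r :=
  ⟨fun _ => Q, continuous_const, fun _ => h⟩

@[simp] theorem Bun.comap_Q (E : Bun Y μ r) (f : C(X, Y)) (x : X) :
    (E.comap f).Q x = E.Q (f x) := rfl

@[simp] theorem Bun.const_Q {Q : Matrix μ μ ℂ} (h : OP r Q) (y : Y) :
    (Bun.const Y h).Q y = Q := rfl

theorem OP.transpose {Q : Matrix μ μ ℂ} (h : OP r Q) : OP r Qᵀ :=
  ⟨by ext i j; simpa using congrFun (congrFun h.herm j) i,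
    by rw [← transpose_mul, h.idem], by rw [trace_transpose, h.tr]⟩

theorem OP.kron {Q : Matrix μ μ ℂ} {P : Matrix ν ν ℂ} (h : OP 1 Q) (h' : OP 1 P) :
    OP 1 (Q ⊗ₖ P) :=
  ⟨by rw [conjTranspose_kronecker, h.herm, h'.herm], by rw [← mul_kronecker_mul, h.idem, h'.idem],
    by rw [trace_kronecker, h.tr, h'.tr]; simp⟩

/-- the dual bundle -/
def Bun.tr (E : Bun Y μ r) : Bun Y μ r :=
  ⟨fun y => (E.Q y)ᵀ, E.cont.matrix_transpose, fun y => (E.op y).transpose⟩

/-- tensor product of lines -/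
def Bun.tens (L : Bun Y μ 1) (L' : Bun Y ν 1) : Bun Y (μ × ν) 1 :=
  ⟨fun y => L.Q y ⊗ₖ L'.Q y,
    continuous_matrix fun i j => (L.cont.matrix_elem i.1 j.1).mul (L'.cont.matrix_elem i.2 j.2),
    fun y => (L.op y).kron (L'.op y)⟩

@[simp] theorem Bun.tr_Q (E : Bun Y μ r) (y : Y) : E.tr.Q y = (E.Q y)ᵀ := rfl

@[simp] theorem Bun.tens_Q (L : Bun Y μ 1) (L' : Bun Y ν 1) (y : Y) :
    (L.tens L').Q y = L.Q y ⊗ₖ L'.Q y := rfl

/-- `X` with the line `L` is the space of lines in the range of `Q` -/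
structure IsPP (Q : Matrix μ μ ℂ) (L : Bun X μ 1) : Prop where
  le : ∀ x, Q * L.Q x = L.Q x
  inj : Function.Injective L.Q
  sur : ∀ l, OP 1 l → Q * l = l → ∃ x, L.Q x = l

/-- `π : X → B` with the line `L` is the projective bundle of `E` -/
structure IsPE (π : C(X, B)) (E : Bun B μ r) (L : Bun X μ 1) : Prop where
  le : ∀ x, E.Q (π x) * L.Q x = L.Q x
  inj : ∀ x x', π x = π x' → L.Q x = L.Q x' → x = x'
  sur : ∀ t l, OP 1 l → E.Q t * l = l → ∃ x, π x = t ∧ L.Q x = l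

/-- data for a space of orthogonal lines: one bundle for every class of indices -/
structure LD (B : Type) [TopologicalSpace B] (μ : Type) [Fintype μ] (K : Type) where
  cl : K → K → Prop
  eqv : Equivalence cl
  r : K → ℕ
  P : ∀ a, Bun B μ (r a)
  req : ∀ a b, cl a b → r a = r b
  eq : ∀ a b, cl a b → (P a).Q = (P b).Q

/-- `π : X → B` with the lines `l a` is the space of lines `l a ≤ P a` that are pairwise orthogonal
inside every class -/
structure IsLn (π : C(X, B)) (D : LD B μ K) (l : K → Bun X μ 1) : Prop where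
  le : ∀ a x, (D.P a).Q (π x) * (l a).Q x = (l a).Q x
  orth : ∀ a b, a ≠ b → D.cl a b → ∀ x, (l a).Q x * (l b).Q x = 0
  inj : ∀ x x', π x = π x' → (∀ a, (l a).Q x = (l a).Q x') → x = x'
  sur : ∀ (t) (q : K → Matrix μ μ ℂ), (∀ a, OP 1 (q a) ∧ (D.P a).Q t * q a = q a) →
    (∀ a b, a ≠ b → D.cl a b → q a * q b = 0) → ∃ x, π x = t ∧ ∀ a, (l a).Q x = q a

/-- the number of indices in the class of `a` -/
def LD.n (D : LD B μ K) (a : K) : ℕ := Nat.card {b // D.cl a b}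

/-- the model of the space of orthogonal lines -/
def Ln (D : LD B μ K) : Type :=
  {p : B × (K → Matrix μ μ ℂ) // (∀ a, OP 1 (p.2 a) ∧ (D.P a).Q p.1 * p.2 a = p.2 a) ∧
    ∀ a b, a ≠ b → D.cl a b → p.2 a * p.2 b = 0}

instance (D : LD B μ K) : TopologicalSpace (Ln D) := instTopologicalSpaceSubtype

instance [T2Space B] (D : LD B μ K) : T2Space (Ln D) :=
  inferInstanceAs (T2Space (Subtype _))

/-- the projection to the base -/
def Ln.π (D : LD B μ K) : C(Ln D, B) := ⟨fun p => p.1.1, continuous_subtype_val.fst⟩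

/-- the tautological lines -/
def Ln.l (D : LD B μ K) (a : K) : Bun (Ln D) μ 1 :=
  ⟨fun p => p.1.2 a, (continuous_apply a).comp continuous_subtype_val.snd, fun p => (p.2.1 a).1⟩

theorem Ln.isLn (D : LD B μ K) : IsLn (Ln.π D) D (Ln.l D) :=
  ⟨fun a p => (p.2.1 a).2, fun a b h h' p => p.2.2 a b h h',
    fun _ _ h h' => Subtype.ext (Prod.ext h (funext h')),
    fun t q h h' => ⟨⟨(t, q), h, h'⟩, rfl, fun _ => rfl⟩⟩

theorem OP.norm_le {Q : Matrix μ μ ℂ} (h : OP r Q) (i j : μ) : ‖Q i j‖ ≤ 1 := by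
  have h1 : ∀ k, Q k i = star (Q i k) := fun k => by
    simpa using (congrFun (congrFun h.herm k) i).symm
  have h2 : Q i i = ((∑ k, ‖Q i k‖ ^ 2 : ℝ) : ℂ) := by
    conv_lhs => rw [← h.idem, mul_apply]
    push_cast
    exact Finset.sum_congr rfl fun k _ => by rw [h1 k]; exact Complex.mul_conj' _
  have h3 : ‖Q i i‖ = ∑ k, ‖Q i k‖ ^ 2 := by
    conv_lhs => rw [h2]
    rw [Complex.norm_real, Real.norm_of_nonneg (Finset.sum_nonneg fun k _ => sq_nonneg _)]
  have h4 : ∀ k, ‖Q i k‖ ^ 2 ≤ ‖Q i i‖ := fun k => by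
    rw [h3]; exact Finset.single_le_sum (f := fun k => ‖Q i k‖ ^ 2) (fun k _ => sq_nonneg _)
      (Finset.mem_univ k)
  have h5 := h4 i
  have h6 := h4 j
  have h7 : ‖Q i i‖ ≤ 1 := by nlinarith [norm_nonneg (Q i i)]
  nlinarith [norm_nonneg (Q i j)]

theorem isClosed_OP (r : ℕ) : IsClosed {Q : Matrix μ μ ℂ | OP r Q} := by
  have : {Q : Matrix μ μ ℂ | OP r Q} = {Q | Qᴴ = Q} ∩
      ({Q | Q * Q = Q} ∩ {Q | Q.trace = (r : ℂ)}) := by
    ext Q; exact ⟨fun h => ⟨h.1, h.2, h.3⟩, fun h => ⟨h.1, h.2.1, h.2.2⟩⟩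
  rw [this]
  exact (isClosed_eq continuous_id.matrix_conjTranspose continuous_id).inter
    ((isClosed_eq (continuous_id.matrix_mul continuous_id) continuous_id).inter
      (isClosed_eq continuous_id.matrix_trace continuous_const))

theorem isCompact_OP (r : ℕ) : IsCompact {Q : Matrix μ μ ℂ | OP r Q} := by
  refine IsCompact.of_isClosed_subset (s := Set.pi Set.univ fun _ : μ => Set.pi Set.univ
    fun _ : μ => Metric.closedBall (0 : ℂ) 1) (isCompact_univ_pi fun _ => isCompact_univ_pi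
      fun _ => isCompact_closedBall _ _) (isClosed_OP r) fun Q h i _ j _ => ?_
  simpa using OP.norm_le h i j

instance [CompactSpace B] (D : LD B μ K) : CompactSpace (Ln D) := by
  refine isCompact_iff_compactSpace.1 (IsCompact.of_isClosed_subset
    (s := Set.univ ×ˢ Set.pi Set.univ fun _ : K => {Q : Matrix μ μ ℂ | OP 1 Q})
    (isCompact_univ.prod (isCompact_univ_pi fun _ => isCompact_OP 1)) ?_
    fun p h => ⟨trivial, fun a _ => (h.1 a).1⟩)
  have hc : ∀ a, Continuous fun p : B × (K → Matrix μ μ ℂ) => p.2 a := fun a =>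
    (continuous_apply a).comp continuous_snd
  have := (isClosed_iInter fun a => ((isClosed_OP 1).preimage (hc a)).inter
    (isClosed_eq (((D.P a).cont.comp continuous_fst).matrix_mul (hc a)) (hc a))).inter
    (isClosed_iInter fun a => isClosed_iInter fun b => isClosed_iInter fun _ : a ≠ b =>
      isClosed_iInter fun _ : D.cl a b => isClosed_eq ((hc a).matrix_mul (hc b)) (continuous_const (y := 0)))
  refine Eq.mp (congrArg IsClosed (Set.ext fun p => ?_)) this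
  simp only [Set.mem_inter_iff, Set.mem_iInter]
  rfl

/-- the data with one index -/
def Bun.ld (E : Bun B μ r) : LD B μ Unit :=
  ⟨fun _ _ => True, ⟨fun _ => trivial, fun _ => trivial, fun _ _ => trivial⟩, fun _ => r,
    fun _ => E, fun _ _ _ => rfl, fun _ _ _ => rfl⟩

/-- the model of the projective bundle is `Ln E.ld` -/
theorem Bun.isPE (E : Bun B μ r) : IsPE (Ln.π E.ld) E (Ln.l E.ld ()) :=
  ⟨(Ln.isLn E.ld).le (), fun x x' h h' => (Ln.isLn E.ld).inj x x' h fun _ => h',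
    fun t l h h' => by
      obtain ⟨x, hx, hl⟩ := (Ln.isLn E.ld).sur t (fun _ => l) (fun _ => ⟨h, h'⟩)
        fun a b e => (e rfl).elim
      exact ⟨x, hx, hl ()⟩⟩

end Pool.Agent.CS
end
end

-- part Pool.Agent.P.MP_d34769_ag.YB1
section

/-! Linear algebra of orthogonal projectors and constructions of bundles. -/

open Matrix
open scoped ComplexOrder

noncomputable section
namespace Pool.Agent.CS

variable {μ ν K : Type} [Fintype μ] [Fintype ν] {r s k : ℕ} {Q P : Matrix μ μ ℂ}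

theorem OP.zero : OP 0 (0 : Matrix μ μ ℂ) := ⟨by simp, by simp, by simp⟩

theorem OP.one [DecidableEq μ] : OP (Fintype.card μ) (1 : Matrix μ μ ℂ) := ⟨by simp, by simp, by simp⟩

theorem OP.of_iso [DecidableEq ν] {u : Matrix μ ν ℂ} (h : uᴴ * u = 1) :
    OP (Fintype.card ν) (u * uᴴ) :=
  ⟨by simp, by rw [Matrix.mul_assoc, ← Matrix.mul_assoc uᴴ, h, Matrix.one_mul],
    by rw [trace_mul_comm, h]; simp⟩

theorem OP.comm (h : OP r Q) (h' : OP s P) (e : Q * P = P) : P * Q = P := by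
  have := congrArg conjTranspose e
  rwa [conjTranspose_mul, h.herm, h'.herm] at this

theorem OP.comm0 (h : OP r Q) (h' : OP s P) (e : Q * P = 0) : P * Q = 0 := by
  have := congrArg conjTranspose e
  rwa [conjTranspose_mul, h.herm, h'.herm, conjTranspose_zero] at this

theorem OP.sub (h : OP (s + k) Q) (h' : OP s P) (e : Q * P = P) : OP k (Q - P) :=
  ⟨by rw [conjTranspose_sub, h.herm, h'.herm],
    by rw [sub_mul, mul_sub, mul_sub, h.idem, h'.idem, e, h.comm h' e]; simp,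
    by rw [trace_sub, h.tr, h'.tr]; simp⟩

theorem OP.add (h : OP r Q) (h' : OP s P) (e : Q * P = 0) : OP (r + s) (Q + P) :=
  ⟨by rw [conjTranspose_add, h.herm, h'.herm],
    by rw [add_mul, mul_add, mul_add, h.idem, h'.idem, e, h.comm0 h' e]; simp,
    by rw [trace_add, h.tr, h'.tr]; simp⟩

theorem OP.sum (S : Finset K) {q : K → Matrix μ μ ℂ} (h : ∀ a ∈ S, OP 1 (q a))
    (ho : ∀ a ∈ S, ∀ b ∈ S, a ≠ b → q a * q b = 0) : OP S.card (∑ a ∈ S, q a) := by
  refine ⟨?_, ?_, ?_⟩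
  · rw [conjTranspose_sum]; exact Finset.sum_congr rfl fun a ha => (h a ha).herm
  · rw [Finset.sum_mul]
    refine Finset.sum_congr rfl fun a ha => ?_
    rw [Finset.mul_sum, Finset.sum_eq_single_of_mem a ha fun b hb e => ho a ha b hb e.symm,
      (h a ha).idem]
  · rw [trace_sum, Finset.sum_congr rfl fun a ha => (h a ha).tr]; simp

theorem trace_rank [DecidableEq μ] (h : Q * Q = Q) : Q.trace = Q.rank := by
  have hp : LinearMap.IsProj (LinearMap.range (toLin' Q)) (toLin' Q) :=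
    ⟨fun x => ⟨x, rfl⟩, by rintro _ ⟨x, rfl⟩; rw [← toLin'_mul_apply, h]⟩
  rw [← Matrix.trace_toLin'_eq, hp.trace]
  rfl

theorem OP.rank [DecidableEq μ] (h : OP r Q) : Q.rank = r := by
  have := trace_rank h.idem
  rw [h.tr] at this
  exact_mod_cast this.symm

theorem OP.of_idem (h : Qᴴ = Q) (h' : Q * Q = Q) : ∃ r, OP r Q := by
  classical exact ⟨_, h, h', trace_rank h'⟩

theorem OP.eq_zero (h : OP 0 Q) : Q = 0 := by
  have : (Qᴴ * Q).trace = 0 := by rw [h.herm, h.idem, h.tr]; simp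
  exact trace_conjTranspose_mul_self_eq_zero_iff.1 this

theorem OP.ne_zero (h : OP (r + 1) Q) : Q ≠ 0 := fun e => by
  have := h.tr
  rw [e, trace_zero] at this
  exact Nat.succ_ne_zero r (by exact_mod_cast this.symm)

theorem OP.le_rank (h : OP r Q) (h' : OP s P) (e : Q * P = P) : s ≤ r := by
  obtain ⟨k, hk⟩ := OP.of_idem (Q := Q - P) (by rw [conjTranspose_sub, h.herm, h'.herm])
    (by rw [sub_mul, mul_sub, mul_sub, h.idem, h'.idem, e, h.comm h' e]; simp)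
  have := hk.tr
  rw [trace_sub, h.tr, h'.tr, sub_eq_iff_eq_add] at this
  have : r = k + s := by exact_mod_cast this
  omega

theorem OP.eq_of_le (h : OP r Q) (h' : OP r P) (e : Q * P = P) : Q = P :=
  sub_eq_zero.1 (OP.sub (k := 0) h h' e).eq_zero

theorem OP.exists_iso (h : OP r Q) : ∃ u : Matrix μ (Fin r) ℂ, uᴴ * u = 1 ∧ u * uᴴ = Q := by
  classical
  let V : Submodule ℂ (EuclideanSpace ℂ μ) := LinearMap.range (toEuclideanLin Q)
  have hV : Module.finrank ℂ V = r := by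
    rw [← h.rank, Matrix.rank_eq_finrank_range_toLin Q (PiLp.basisFun 2 ℂ μ) (PiLp.basisFun 2 ℂ μ)]
    rfl
  let b := (stdOrthonormalBasis ℂ V).reindex (finCongr hV)
  let u : Matrix μ (Fin r) ℂ := fun i j => (b j).1 i
  have h1 : uᴴ * u = 1 := by
    ext i j
    have := orthonormal_iff_ite.1 b.orthonormal i j
    rw [Submodule.coe_inner, EuclideanSpace.inner_eq_star_dotProduct] at this
    rw [one_apply, ← this, mul_apply, dotProduct]
    exact Finset.sum_congr rfl fun k _ => mul_comm _ _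
  have h2 : Q * u = u := by
    ext i j
    obtain ⟨x, hx⟩ := (b j).2
    have : (fun k => u k j) = Q *ᵥ x.ofLp := by ext k; simp only [u]; rw [← hx]; rfl
    change (Q *ᵥ fun k => u k j) i = (fun k => u k j) i
    rw [this, mulVec_mulVec, h.idem]
  have h3 := OP.of_iso h1
  rw [Fintype.card_fin] at h3
  exact ⟨u, h1, (h.eq_of_le h3 (by rw [← Matrix.mul_assoc, h2])).symm⟩

theorem OP.exists_vec (h : OP 1 Q) : ∃ v : μ → ℂ, star v ⬝ᵥ v = 1 ∧ Q = vecMulVec v (star v) := by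
  obtain ⟨u, h1, h2⟩ := h.exists_iso
  refine ⟨fun i => u i 0, ?_, ?_⟩
  · simpa [mul_apply, dotProduct] using congrFun (congrFun h1 0) 0
  · ext i j; rw [← h2]; simp [mul_apply, vecMulVec_apply]

/-- the projector onto the line through `v` -/
def lnv (v : μ → ℂ) : Matrix μ μ ℂ := (star v ⬝ᵥ v)⁻¹ • vecMulVec v (star v)

variable {v : μ → ℂ}

theorem star_dot_ne (hv : v ≠ 0) : star v ⬝ᵥ v ≠ 0 := fun h => hv (dotProduct_star_self_eq_zero.1 h)

theorem lnv_mulVec (hv : v ≠ 0) : lnv v *ᵥ v = v := by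
  rw [lnv, smul_mulVec, vecMulVec_mulVec, op_smul_eq_smul, smul_smul,
    inv_mul_cancel₀ (star_dot_ne hv), one_smul]

omit [Fintype ν] in
theorem mul_lnv (A : Matrix ν μ ℂ) : A * lnv v = (star v ⬝ᵥ v)⁻¹ • vecMulVec (A *ᵥ v) (star v) := by
  rw [lnv, Matrix.mul_smul, mul_vecMulVec]

theorem le_lnv (h : Q *ᵥ v = v) : Q * lnv v = lnv v := by rw [mul_lnv, h, lnv]

theorem OP.lnv (hv : v ≠ 0) : OP 1 (lnv v) := by
  refine ⟨?_, le_lnv (lnv_mulVec hv), ?_⟩
  · rw [CS.lnv, conjTranspose_smul, conjTranspose_vecMulVec, star_star, star_inv₀,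
      ← star_dotProduct_star, star_star]
  · rw [CS.lnv, trace_smul, trace_vecMulVec, dotProduct_comm, smul_eq_mul,
      dotProduct_comm v, inv_mul_cancel₀ (star_dot_ne hv)]; simp

theorem OP.eq_lnv (h : OP 1 Q) (hv : v ≠ 0) (e : Q *ᵥ v = v) : Q = CS.lnv v :=
  h.eq_of_le (OP.lnv hv) (le_lnv e)

theorem OP.exists_lnv (h : OP 1 Q) : ∃ v : μ → ℂ, v ≠ 0 ∧ Q = CS.lnv v := by
  obtain ⟨v, h1, h2⟩ := h.exists_vec
  exact ⟨v, fun e => by simp [e] at h1, by rw [CS.lnv, h1, h2]; simp⟩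

omit [Fintype ν] in
theorem mul_lnv_eq_zero (hv : v ≠ 0) {A : Matrix ν μ ℂ} : A * lnv v = 0 ↔ A *ᵥ v = 0 :=
  ⟨fun h => by rw [← lnv_mulVec hv, mulVec_mulVec, h, zero_mulVec],
    fun h => by rw [mul_lnv, h]; simp⟩

theorem le_lnv_iff (hv : v ≠ 0) : Q * lnv v = lnv v ↔ Q *ᵥ v = v :=
  ⟨fun h => by rw [← lnv_mulVec hv, mulVec_mulVec, h], le_lnv⟩

theorem lnv_smul (hv : v ≠ 0) {c : ℂ} (hc : c ≠ 0) : lnv (c • v) = lnv v :=
  ((OP.lnv hv).eq_lnv (smul_ne_zero hc hv) (by rw [mulVec_smul, lnv_mulVec hv])).symm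

theorem lnv_eq_iff {w : μ → ℂ} (hv : v ≠ 0) (hw : w ≠ 0) : lnv v = lnv w ↔ ∃ c : ℂ, w = c • v := by
  refine ⟨fun h => ⟨(star v ⬝ᵥ v)⁻¹ * (star v ⬝ᵥ w), ?_⟩, ?_⟩
  · conv_lhs => rw [← lnv_mulVec hw, ← h, lnv, smul_mulVec, vecMulVec_mulVec, op_smul_eq_smul,
      smul_smul]
  · rintro ⟨c, rfl⟩
    exact (lnv_smul hv (left_ne_zero_of_smul hw)).symm

variable {X Y B : Type} [TopologicalSpace X] [TopologicalSpace Y] [TopologicalSpace B]

/-- the line spanned by a nowhere vanishing section -/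
def Bun.vec (v : Y → μ → ℂ) (hc : Continuous v) (h : ∀ y, v y ≠ 0) : Bun Y μ 1 :=
  ⟨fun y => lnv (v y), ((hc.star.dotProduct hc).inv₀ fun y => star_dot_ne (h y)).smul
    (hc.matrix_vecMulVec hc.star), fun y => OP.lnv (h y)⟩

@[simp] theorem Bun.vec_Q (v : Y → μ → ℂ) (hc : Continuous v) (h : ∀ y, v y ≠ 0) (y : Y) :
    (Bun.vec v hc h).Q y = lnv (v y) := rfl

theorem img_eq (A : Matrix ν μ ℂ) (hv : v ≠ 0) (h : A *ᵥ v ≠ 0) :
    (A * lnv v * Aᴴ).trace ≠ 0 ∧
      (A * lnv v * Aᴴ).trace⁻¹ • (A * lnv v * Aᴴ) = lnv (A *ᵥ v) := by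
  have e : A * lnv v * Aᴴ = (star v ⬝ᵥ v)⁻¹ • vecMulVec (A *ᵥ v) (star (A *ᵥ v)) := by
    rw [mul_lnv, Matrix.smul_mul, vecMulVec_mul, star_mulVec]
  have h1 := star_dot_ne hv
  have h2 := star_dot_ne h
  rw [e, trace_smul, trace_vecMulVec, dotProduct_comm (A *ᵥ v), smul_eq_mul, smul_smul, lnv]
  refine ⟨mul_ne_zero (inv_ne_zero h1) h2, ?_⟩
  congr 1
  field_simp

/-- the image of a line under a nowhere vanishing map -/
theorem Bun.exists_img (L : Bun Y μ 1) {A : Y → Matrix ν μ ℂ} (hA : Continuous A)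
    (h : ∀ y, A y * L.Q y ≠ 0) :
    ∃ L' : Bun Y ν 1, (∀ y, L'.Q y * (A y * L.Q y) = A y * L.Q y) ∧
      ∀ y (E : Matrix ν ν ℂ), E * (A y * L.Q y) = A y * L.Q y → E * L'.Q y = L'.Q y := by
  choose v hv e using fun y => (L.op y).exists_lnv
  have h' : ∀ y, A y *ᵥ v y ≠ 0 := fun y hy => h y (by rw [e, mul_lnv_eq_zero (hv y), hy])
  have hc : Continuous fun y => A y * L.Q y * (A y)ᴴ :=
    (hA.matrix_mul L.cont).matrix_mul hA.matrix_conjTranspose
  have e' : ∀ y, (A y * L.Q y * (A y)ᴴ).trace⁻¹ • (A y * L.Q y * (A y)ᴴ) = lnv (A y *ᵥ v y) :=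
    fun y => by rw [e]; exact (img_eq _ (hv y) (h' y)).2
  refine ⟨⟨fun y => lnv (A y *ᵥ v y), ?_, fun y => OP.lnv (h' y)⟩, fun y => ?_, fun y E hE => ?_⟩
  · rw [← funext e']
    exact (hc.matrix_trace.inv₀ fun y => by rw [e]; exact (img_eq _ (hv y) (h' y)).1).smul hc
  · change lnv (A y *ᵥ v y) * (A y * L.Q y) = _
    rw [e, ← Matrix.mul_assoc, mul_lnv, mul_lnv, ← mulVec_mulVec, lnv_mulVec (h' y)]
  · refine le_lnv ?_
    have := congrArg (· *ᵥ v y) hE
    simpa only [e, ← mulVec_mulVec, lnv_mulVec (hv y)] using this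

/-- the orthogonal complement of a subbundle -/
def Bun.sub (E : Bun Y μ r) (E' : Bun Y μ s) (h : ∀ y, E.Q y * E'.Q y = E'.Q y) (e : r = s + k) :
    Bun Y μ k :=
  ⟨fun y => E.Q y - E'.Q y, E.cont.sub E'.cont, fun y => OP.sub (e ▸ E.op y) (E'.op y) (h y)⟩

@[simp] theorem Bun.sub_Q (E : Bun Y μ r) (E' : Bun Y μ s) (h : ∀ y, E.Q y * E'.Q y = E'.Q y)
    (e : r = s + k) (y : Y) : (E.sub E' h e).Q y = E.Q y - E'.Q y := rfl

/-- the sum of orthogonal lines -/
def Bun.sum (S : Finset K) (l : K → Bun Y μ 1)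
    (h : ∀ a ∈ S, ∀ b ∈ S, a ≠ b → ∀ y, (l a).Q y * (l b).Q y = 0) : Bun Y μ S.card :=
  ⟨fun y => ∑ a ∈ S, (l a).Q y, continuous_finsetSum _ fun a _ => (l a).cont,
    fun y => OP.sum S (fun a _ => (l a).op y) fun a ha b hb e => h a ha b hb e y⟩

@[simp] theorem Bun.sum_Q (S : Finset K) (l : K → Bun Y μ 1)
    (h : ∀ a ∈ S, ∀ b ∈ S, a ≠ b → ∀ y, (l a).Q y * (l b).Q y = 0) (y : Y) :
    (Bun.sum S l h).Q y = ∑ a ∈ S, (l a).Q y := rfl

/-- maps to a space of orthogonal lines -/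
theorem IsLn.exists_lift [CompactSpace X] [T2Space B] {π : C(X, B)} {D : LD B μ K}
    {l : K → Bun X μ 1} (h : IsLn π D l) (f : C(Y, B)) (q : K → Bun Y μ 1)
    (hq : ∀ a y, (D.P a).Q (f y) * (q a).Q y = (q a).Q y)
    (ho : ∀ a b, a ≠ b → D.cl a b → ∀ y, (q a).Q y * (q b).Q y = 0) :
    ∃ F : C(Y, X), π.comp F = f ∧ ∀ a, (l a).comap F = q a := by
  let j : X → B × (K → Matrix μ μ ℂ) := fun x => (π x, fun a => (l a).Q x)
  have hj : Topology.IsClosedEmbedding j :=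
    (π.continuous.prodMk (continuous_pi fun a => (l a).cont)).isClosedEmbedding
      fun x x' e => h.inj x x' (congrArg Prod.fst e) fun a => congrFun (congrArg Prod.snd e) a
  choose F h1 h2 using fun y => h.sur (f y) (fun a => (q a).Q y)
    (fun a => ⟨(q a).op y, hq a y⟩) fun a b e e' => ho a b e e' y
  have : j ∘ F = fun y => (f y, fun a => (q a).Q y) := funext fun y => Prod.ext (h1 y) (funext (h2 y))
  exact ⟨⟨F, hj.isInducing.continuous_iff.2
    (this ▸ f.continuous.prodMk (continuous_pi fun a => (q a).cont))⟩, ContinuousMap.ext h1,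
    fun a => Bun.ext (funext fun y => h2 y a)⟩

theorem IsPE.isLn {π : C(X, B)} {E : Bun B μ r} {L : Bun X μ 1} (h : IsPE π E L) :
    IsLn π E.ld fun _ => L :=
  ⟨fun _ => h.le, fun _ _ e => (e rfl).elim, fun x x' e e' => h.inj x x' e (e' ()),
    fun t q hq _ => (h.sur t (q ()) (hq ()).1 (hq ()).2).imp fun _ hx => ⟨hx.1, fun _ => hx.2⟩⟩

theorem IsPE.exists_lift [CompactSpace X] [T2Space B] {π : C(X, B)} {E : Bun B μ r}
    {L : Bun X μ 1} (h : IsPE π E L) (f : C(Y, B)) (q : Bun Y μ 1)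
    (hq : ∀ y, E.Q (f y) * q.Q y = q.Q y) : ∃ F : C(Y, X), π.comp F = f ∧ L.comap F = q :=
  (h.isLn.exists_lift f (fun _ => q) (fun _ => hq) fun _ _ e => (e rfl).elim).imp
    fun _ hF => ⟨hF.1, hF.2 ()⟩

theorem IsPP.isPE {L : Bun X μ 1} (h : IsPP Q L) (hQ : OP r Q) :
    IsPE (ContinuousMap.const X ()) (Bun.const Unit hQ) L :=
  ⟨h.le, fun _ _ _ e => h.inj e, fun _ l a b => (h.sur l a b).imp fun _ e => ⟨rfl, e⟩⟩

theorem IsPP.exists_lift [CompactSpace X] {L : Bun X μ 1} (h : IsPP Q L) (hQ : OP r Q)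
    (q : Bun Y μ 1) (hq : ∀ y, Q * q.Q y = q.Q y) : ∃ F : C(Y, X), L.comap F = q :=
  ((h.isPE hQ).exists_lift (ContinuousMap.const Y ()) q hq).imp fun _ hF => hF.2

/-- a model of projective space -/
theorem isPP_model (hQ : OP r Q) : IsPP Q (Ln.l (Bun.const Unit hQ).ld ()) :=
  ⟨(Bun.const Unit hQ).isPE.le, fun x x' e => (Bun.const Unit hQ).isPE.inj x x' rfl e,
    fun l a b => ((Bun.const Unit hQ).isPE.sur () l a b).imp fun _ e => e.2⟩

/-- the orthogonal complement of the image of an injective bundle map -/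
theorem exists_compl (A : Bun Y μ s) (C : Bun Y ν r) (e : r = s + k) {φ : Y → Matrix ν μ ℂ}
    (hφ : Continuous φ) (hC : ∀ y, C.Q y * (φ y * A.Q y) = φ y * A.Q y)
    (hi : ∀ y v, A.Q y *ᵥ v = v → φ y *ᵥ v = 0 → v = 0) :
    ∃ (E : Bun Y ν k) (ψ : Y → Matrix μ ν ℂ), Continuous ψ ∧ ∀ y, C.Q y * E.Q y = E.Q y ∧
      A.Q y * ψ y = ψ y ∧ ψ y * (φ y * A.Q y) = A.Q y ∧ φ y * ψ y = C.Q y - E.Q y := by
  classical
  let F : Y → Matrix ν μ ℂ := fun y => φ y * A.Q y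
  let M : Y → Matrix μ μ ℂ := fun y => (F y)ᴴ * F y + (1 - A.Q y)
  have hF : Continuous F := hφ.matrix_mul A.cont
  have hM : Continuous M := (hF.matrix_conjTranspose.matrix_mul hF).add (continuous_const.sub A.cont)
  have a1 : ∀ y, F y * A.Q y = F y := fun y => by rw [Matrix.mul_assoc, (A.op y).idem]
  have a2 : ∀ y, A.Q y * (F y)ᴴ = (F y)ᴴ := fun y => by
    conv_lhs => rw [← (A.op y).herm, ← conjTranspose_mul, a1]
  have a3 : ∀ y, M y * A.Q y = (F y)ᴴ * F y := fun y => by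
    rw [add_mul, Matrix.mul_assoc, a1, sub_mul, (A.op y).idem]; simp
  have a4 : ∀ y, A.Q y * M y = (F y)ᴴ * F y := fun y => by
    rw [mul_add, ← Matrix.mul_assoc, a2, mul_sub, (A.op y).idem]; simp
  have hu : ∀ y, IsUnit (M y).det := fun y => by
    rw [isUnit_iff_ne_zero, Ne, ← Matrix.exists_mulVec_eq_zero_iff]
    rintro ⟨v, hv, h0⟩
    have h1 : ((F y)ᴴ * F y) *ᵥ v = 0 := by rw [← a4, ← mulVec_mulVec, h0, mulVec_zero]
    have h2 := hi y (A.Q y *ᵥ v) (by rw [mulVec_mulVec, (A.op y).idem])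
      (by rw [mulVec_mulVec]; exact (conjTranspose_mul_self_mulVec_eq_zero _ _).1 h1)
    rw [add_mulVec, h1, sub_mulVec, h2] at h0
    exact hv (by simpa using h0)
  let ψ : Y → Matrix μ ν ℂ := fun y => (M y)⁻¹ * (F y)ᴴ
  have hψ : Continuous ψ := by
    refine Continuous.matrix_mul ?_ hF.matrix_conjTranspose
    simp only [Matrix.inv_def, Ring.inverse_eq_inv']
    exact (hM.matrix_det.inv₀ fun y => (hu y).ne_zero).smul hM.matrix_adjugate
  have b1 : ∀ y, ψ y * F y = A.Q y := fun y => by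
    rw [Matrix.mul_assoc, ← a3, ← Matrix.mul_assoc, nonsing_inv_mul _ (hu y), Matrix.one_mul]
  have b2 : ∀ y, A.Q y * ψ y = ψ y := fun y => by
    have : A.Q y * (M y)⁻¹ = (M y)⁻¹ * A.Q y := by
      calc A.Q y * (M y)⁻¹ = (M y)⁻¹ * (M y * A.Q y) * (M y)⁻¹ := by
            rw [← Matrix.mul_assoc, nonsing_inv_mul _ (hu y), Matrix.one_mul]
        _ = (M y)⁻¹ * A.Q y := by
            rw [a3, ← a4, Matrix.mul_assoc, Matrix.mul_assoc, mul_nonsing_inv _ (hu y),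
              Matrix.mul_one]
    rw [← Matrix.mul_assoc, this, Matrix.mul_assoc, a2]
  have b3 : ∀ y, φ y * ψ y = F y * ψ y := fun y => by rw [Matrix.mul_assoc, b2]
  have hR : ∀ y, OP s (F y * ψ y) := fun y =>
    ⟨by
      have : (M y)ᴴ = M y := by simp [M, (A.op y).herm]
      rw [conjTranspose_mul, conjTranspose_mul, conjTranspose_conjTranspose,
        conjTranspose_nonsing_inv, this, Matrix.mul_assoc],
      by rw [Matrix.mul_assoc, ← Matrix.mul_assoc (ψ y), b1, b2],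
      by rw [trace_mul_comm, b1, (A.op y).tr]⟩
  have b4 : ∀ y, C.Q y * (F y * ψ y) = F y * ψ y := fun y => by rw [← Matrix.mul_assoc, hC]
  exact ⟨C.sub ⟨_, hF.matrix_mul hψ, hR⟩ b4 e, ψ, hψ, fun y =>
    ⟨by rw [Bun.sub_Q, mul_sub, (C.op y).idem, b4], b2 y, b1 y, by rw [b3]; simp⟩⟩

end Pool.Agent.CS
end
end

-- part Pool.Agent.P.MP_d34769_ag.YBX
section

/-! The cocycle of a line bundle given by projectors. -/

open Matrix Filter Topology Set
open scoped Kronecker ComplexOrder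

noncomputable section
namespace Pool.Agent.CS

variable {μ ν : Type} [Fintype μ] [Fintype ν]

theorem tr_vv2 (a b a' b' : μ → ℂ) :
    (vecMulVec a b * vecMulVec a' b').trace = (b ⬝ᵥ a') * (b' ⬝ᵥ a) := by
  rw [vecMulVec_mul_vecMulVec, trace_vecMulVec, dotProduct_smul, smul_eq_mul, dotProduct_comm a]

theorem tr_vv3 (a b a' b' a'' b'' : μ → ℂ) :
    (vecMulVec a b * vecMulVec a' b' * vecMulVec a'' b'').trace =
      (b ⬝ᵥ a') * (b' ⬝ᵥ a'') * (b'' ⬝ᵥ a) := by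
  rw [vecMulVec_mul_vecMulVec, tr_vv2, smul_dotProduct, smul_eq_mul]

variable {X Y : Type} [TopologicalSpace X] [TopologicalSpace Y]

/-- a cochain of one degree vanishes near `y` when it vanishes on tuples close to `y` -/
theorem AS.mem_z_of_ev {y : Y} (n : ℕ) {m : ℤ} {φ : AS Y} (hG : φ ∈ AS.G Y m) (hm : m = n)
    (h : ∀ᶠ v : Fin (n + 1) → Y in 𝓝 fun _ => y, φ.1 (List.ofFn v) = 0) : φ ∈ AS.z y := by
  rw [nhds_pi] at h
  obtain ⟨I, t, ht, hs⟩ := Filter.mem_pi'.1 h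
  refine ⟨⋂ i, t i, Filter.iInter_mem.2 ht, fun l hl => ?_⟩
  by_cases e : l.length = n + 1
  · have := hs (a := fun i => l.get (i.cast e.symm)) fun i _ =>
      mem_iInter.1 (hl _ (List.get_mem _ _)) i
    simp only [mem_ofPred_eq] at this
    rwa [← List.ofFn_congr e l.get, List.ofFn_get] at this
  · exact AS.mem_G.1 hG l (by rw [hm]; exact_mod_cast e)

theorem ev_zero_of_exp {α : Type} {F : Filter α} {s : α → ℂ} (h : Tendsto s F (𝓝 0))
    (he : ∀ᶠ a in F, Complex.exp (s a) = 1) : ∀ᶠ a in F, s a = 0 := by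
  have h1 : ∀ᶠ a in F, ‖s a‖ < 1 := by
    have := h.norm
    rw [norm_zero] at this
    exact this.eventually_lt_const one_pos
  filter_upwards [h1, he] with a h1 he
  obtain ⟨n, hn⟩ := Complex.exp_eq_one_iff.1 he
  rw [hn] at h1 ⊢
  have h2 : |(n : ℝ)| * (2 * Real.pi) < 1 := by
    simpa [abs_of_pos Real.pi_pos] using h1
  have h3 : |(n : ℝ)| < 1 := by
    have := Real.pi_gt_three
    nlinarith [abs_nonneg (n : ℝ)]
  have h4 : n = 0 := by
    have : |n| < 1 := by exact_mod_cast h3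
    exact Int.abs_lt_one_iff.1 this
  simp [h4]

theorem tendsto_log_one {α : Type} {F : Filter α} {s : α → ℂ} (h : Tendsto s F (𝓝 1)) :
    Tendsto (fun a => Complex.log (s a)) F (𝓝 0) := by
  have := h.clog Complex.one_mem_slitPlane
  rwa [Complex.log_one] at this

/-- the logarithm of a function of pairs -/
def lg2 (r : Y → Y → ℂ) : AS Y :=
  AS.mk (fun l => match l with
    | [a, b] => Complex.log (r a b)
    | _ => 0) rfl

/-- the logarithm of a function of triples -/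
def lg3 (r : Y → Y → Y → ℂ) : AS Y :=
  AS.mk (fun l => match l with
    | [a, b, c] => Complex.log (r a b c)
    | _ => 0) rfl

omit [TopologicalSpace Y] in
theorem lg2_mem (r : Y → Y → ℂ) : lg2 r ∈ AS.G Y 1 := AS.mem_G.2 fun l hl => by
  rcases l with _ | ⟨a, _ | ⟨b, _ | ⟨c, l⟩⟩⟩
  · rfl
  · rfl
  · exact (hl rfl).elim
  · rfl

omit [TopologicalSpace Y] in
theorem d_lg2_mem (r : Y → Y → ℂ) : AS.d (lg2 r) ∈ AS.G Y 2 := by
  have := AS.d_mem_G (lg2_mem r)
  rwa [show (1 : ℤ) + 1 = 2 from rfl] at this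

omit [TopologicalSpace Y] in
theorem lg3_mem (r : Y → Y → Y → ℂ) : lg3 r ∈ AS.G Y 2 := AS.mem_G.2 fun l hl => by
  rcases l with _ | ⟨a, _ | ⟨b, _ | ⟨c, _ | ⟨d, l⟩⟩⟩⟩
  · rfl
  · rfl
  · rfl
  · exact (hl rfl).elim
  · rfl

omit [TopologicalSpace Y] in
theorem d_val3 (φ : AS Y) (a b c : Y) :
    (AS.d φ).1 [a, b, c] = φ.1 [b, c] - φ.1 [a, c] + φ.1 [a, b] := by
  change dA [a, b, c] φ.1 = _
  simp only [dA]
  ring

omit [TopologicalSpace Y] in
theorem d_val4 (φ : AS Y) (a b c e : Y) :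
    (AS.d φ).1 [a, b, c, e] = φ.1 [b, c, e] - φ.1 [a, c, e] + φ.1 [a, b, e] - φ.1 [a, b, c] := by
  change dA [a, b, c, e] φ.1 = _
  simp only [dA]
  ring

omit [TopologicalSpace Y] in
theorem lg2_val (r : Y → Y → ℂ) (a b : Y) : (lg2 r).1 [a, b] = Complex.log (r a b) := rfl

omit [TopologicalSpace Y] in
theorem lg3_val (r : Y → Y → Y → ℂ) (a b c : Y) : (lg3 r).1 [a, b, c] = Complex.log (r a b c) := rfl

theorem ofFn3 {Y : Type} (v : Fin (2 + 1) → Y) : List.ofFn v = [v 0, v 1, v 2] := by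
  simp [List.ofFn_succ]

theorem ofFn4 {Y : Type} (v : Fin (3 + 1) → Y) : List.ofFn v = [v 0, v 1, v 2, v 3] := by
  simp [List.ofFn_succ]

/-- the ratio whose logarithm is the cocycle of a line -/
def Bun.cr (L : Bun Y μ 1) (a b c : Y) : ℂ := (L.Q a * L.Q b * L.Q c).trace / (L.Q a * L.Q c).trace

/-- the cocycle of a line -/
def Bun.xq (L : Bun Y μ 1) : AS Y := lg3 L.cr

theorem Bun.xq_comap (L : Bun Y μ 1) (f : C(X, Y)) : AS.pull f L.xq = (L.comap f).xq := by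
  ext l
  rcases l with _ | ⟨a, _ | ⟨b, _ | ⟨c, _ | ⟨d, l⟩⟩⟩⟩ <;> rfl

theorem Bun.xq_val (L : Bun Y μ 1) (a b c : Y) : L.xq.1 [a, b, c] = Complex.log (L.cr a b c) := rfl

theorem Bun.xq_mem_G (L : Bun Y μ 1) : L.xq ∈ AS.G Y 2 := lg3_mem _

theorem Bun.tend {n : ℕ} (L : Bun Y μ 1) (y : Y) (i : Fin n) :
    Tendsto (fun v : Fin n → Y => L.Q (v i)) (𝓝 fun _ => y) (𝓝 (L.Q y)) :=
  (L.cont.comp (continuous_apply i)).tendsto fun _ => y

theorem Bun.tend2 {n : ℕ} (L : Bun Y μ 1) (y : Y) (i j : Fin n) :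
    Tendsto (fun v : Fin n → Y => (L.Q (v i) * L.Q (v j)).trace) (𝓝 fun _ => y) (𝓝 1) := by
  have := (((L.cont.comp (continuous_apply i)).matrix_mul
    (L.cont.comp (continuous_apply j))).matrix_trace).tendsto fun _ : Fin n => y
  simpa [(L.op y).idem, (L.op y).tr] using this

theorem Bun.tend_cr {n : ℕ} (L : Bun Y μ 1) (y : Y) (i j k : Fin n) :
    Tendsto (fun v : Fin n → Y => L.cr (v i) (v j) (v k)) (𝓝 fun _ => y) (𝓝 1) := by
  have := ((((L.cont.comp (continuous_apply i)).matrix_mul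
    (L.cont.comp (continuous_apply j))).matrix_mul
    (L.cont.comp (continuous_apply k))).matrix_trace).tendsto fun _ : Fin n => y
  have h1 : Tendsto (fun v : Fin n → Y => (L.Q (v i) * L.Q (v j) * L.Q (v k)).trace)
      (𝓝 fun _ => y) (𝓝 1) := by simpa [(L.op y).idem, (L.op y).tr] using this
  have h2 := h1.div (L.tend2 y i k) one_ne_zero
  rw [div_one] at h2
  exact h2

theorem Bun.ev2 {n : ℕ} (L : Bun Y μ 1) (y : Y) :
    ∀ᶠ v : Fin n → Y in 𝓝 fun _ => y, ∀ i j, (L.Q (v i) * L.Q (v j)).trace ≠ 0 :=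
  eventually_all.2 fun i => eventually_all.2 fun j => (L.tend2 y i j).eventually_ne one_ne_zero

/-- columns and rows for a line -/
theorem Bun.exists_vec (L : Bun Y μ 1) : ∃ a b : Y → μ → ℂ, (∀ y, L.Q y = vecMulVec (a y) (b y)) ∧
    (∀ y, b y ⬝ᵥ a y = 1) ∧
    (∀ y y', (L.Q y * L.Q y').trace = (b y ⬝ᵥ a y') * (b y' ⬝ᵥ a y)) ∧
    ∀ y y' y'', (L.Q y * L.Q y'').trace ≠ 0 →
      L.cr y y' y'' = (b y ⬝ᵥ a y') * (b y' ⬝ᵥ a y'') / (b y ⬝ᵥ a y'') := by
  choose a h0 h using fun y => (L.op y).exists_vec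
  have h2 : ∀ y y', (L.Q y * L.Q y').trace = (star (a y) ⬝ᵥ a y') * (star (a y') ⬝ᵥ a y) :=
    fun y y' => by rw [h, h, tr_vv2]
  refine ⟨a, fun y => star (a y), h, h0, h2, fun y y' y'' hn => ?_⟩
  rw [h2] at hn
  rw [Bun.cr, h2, h, h, h, tr_vv3, mul_div_mul_right _ _ (right_ne_zero_of_mul hn)]

theorem alg4 {a b c d e f : ℂ} (ha : a ≠ 0) (hb : b ≠ 0) (hc : c ≠ 0) (hd : d ≠ 0) (he : e ≠ 0)
    (hf : f ≠ 0) : d * f / e / (b * f / c) * (a * e / c) / (a * d / b) = 1 := by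
  field_simp

theorem Bun.d_xq (L : Bun Y μ 1) (y : Y) : AS.d L.xq ∈ AS.z y := by
  obtain ⟨a, b, -, -, h2, h3⟩ := L.exists_vec
  refine AS.mem_z_of_ev 3 (AS.d_mem_G L.xq_mem_G) (by norm_num) ?_
  have e : ∀ v : Fin (3 + 1) → Y, (AS.d L.xq).1 (List.ofFn v) =
      Complex.log (L.cr (v 1) (v 2) (v 3)) - Complex.log (L.cr (v 0) (v 2) (v 3)) +
        Complex.log (L.cr (v 0) (v 1) (v 3)) - Complex.log (L.cr (v 0) (v 1) (v 2)) := fun v => by
    rw [ofFn4, d_val4, L.xq_val, L.xq_val, L.xq_val, L.xq_val]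
  simp only [e]
  refine ev_zero_of_exp ?_ ?_
  · simpa using (((tendsto_log_one (L.tend_cr y (1 : Fin (3 + 1)) 2 3)).sub
      (tendsto_log_one (L.tend_cr y 0 2 3))).add (tendsto_log_one (L.tend_cr y 0 1 3))).sub
      (tendsto_log_one (L.tend_cr y 0 1 2))
  · filter_upwards [L.ev2 y] with v hv
    have p : ∀ i j, b (v i) ⬝ᵥ a (v j) ≠ 0 := fun i j =>
      left_ne_zero_of_mul ((h2 (v i) (v j)).symm.trans_ne (hv i j))
    have q : ∀ i j k, Complex.exp (Complex.log (L.cr (v i) (v j) (v k))) =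
        (b (v i) ⬝ᵥ a (v j)) * (b (v j) ⬝ᵥ a (v k)) / (b (v i) ⬝ᵥ a (v k)) := fun i j k => by
      rw [h3 _ _ _ (hv i k), Complex.exp_log (div_ne_zero (mul_ne_zero (p _ _) (p _ _)) (p _ _))]
    rw [Complex.exp_sub, Complex.exp_add, Complex.exp_sub, q, q, q, q]
    exact alg4 (p 0 1) (p 0 2) (p 0 3) (p 1 2) (p 1 3) (p 2 3)

theorem Bun.xq_tens (L : Bun Y μ 1) (L' : Bun Y ν 1) (y : Y) :
    (L.tens L').xq - (L.xq + L'.xq) ∈ AS.z y := by
  refine AS.mem_z_of_ev 2 (sub_mem (L.tens L').xq_mem_G (add_mem L.xq_mem_G L'.xq_mem_G))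
    (by norm_num) ?_
  have c : ∀ a b c, (L.tens L').cr a b c = L.cr a b c * L'.cr a b c := fun a b c => by
    simp only [Bun.cr, Bun.tens_Q, ← mul_kronecker_mul, trace_kronecker, div_mul_div_comm]
  have e : ∀ v : Fin (2 + 1) → Y, ((L.tens L').xq - (L.xq + L'.xq)).1 (List.ofFn v) =
      Complex.log ((L.tens L').cr (v 0) (v 1) (v 2)) - (Complex.log (L.cr (v 0) (v 1) (v 2)) +
        Complex.log (L'.cr (v 0) (v 1) (v 2))) := fun v => by
    rw [ofFn3, AS.val_sub, AS.val_add, Bun.xq_val, Bun.xq_val, Bun.xq_val]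
  simp only [e]
  refine ev_zero_of_exp ?_ ?_
  · simpa using (tendsto_log_one ((L.tens L').tend_cr y (0 : Fin (2 + 1)) 1 2)).sub
      ((tendsto_log_one (L.tend_cr y 0 1 2)).add (tendsto_log_one (L'.tend_cr y 0 1 2)))
  · filter_upwards [(L.tend_cr y (0 : Fin (2 + 1)) 1 2).eventually_ne one_ne_zero,
      (L'.tend_cr y (0 : Fin (2 + 1)) 1 2).eventually_ne one_ne_zero] with v h1 h2
    rw [Complex.exp_sub, Complex.exp_add, c, Complex.exp_log h1, Complex.exp_log h2,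
      Complex.exp_log (mul_ne_zero h1 h2), div_self (mul_ne_zero h1 h2)]

theorem Bun.xq_const {Q : Matrix μ μ ℂ} (h : OP 1 Q) : (Bun.const Y h).xq = 0 := by
  ext l
  rcases l with _ | ⟨a, _ | ⟨b, _ | ⟨c, _ | ⟨d, l⟩⟩⟩⟩
  · rfl
  · rfl
  · rfl
  · change Complex.log ((Q * Q * Q).trace / (Q * Q).trace) = 0
    simp [h.idem, h.tr]
  · rfl

/-- the ratio whose logarithm is the primitive attached to maps between two lines -/
def Bun.ir (L : Bun Y μ 1) (L' : Bun Y ν 1) (A : Y → Matrix ν μ ℂ) (A' : Y → Matrix μ ν ℂ)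
    (a b : Y) : ℂ :=
  (L.Q a * A' a * L'.Q a * (L'.Q b * A b * L.Q b)).trace /
    ((L.Q a * L.Q b).trace * (L.Q b * A' b * L'.Q b * (L'.Q b * A b * L.Q b)).trace)

theorem tr_iso (a b a₁ b₁ : μ → ℂ) (a' b' a₁' b₁' : ν → ℂ) (A : Matrix ν μ ℂ) (A' : Matrix μ ν ℂ) :
    (vecMulVec a b * A' * vecMulVec a' b' * (vecMulVec a₁' b₁' * A * vecMulVec a₁ b₁)).trace =
      ((b ᵥ* A') ⬝ᵥ a') * (b' ⬝ᵥ a₁') * ((b₁' ᵥ* A) ⬝ᵥ a₁) * (b₁ ⬝ᵥ a) := by
  rw [vecMulVec_mul a b, vecMulVec_mul a₁' b₁', vecMulVec_mul_vecMulVec, vecMulVec_mul_vecMulVec,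
    vecMulVec_mul_vecMulVec, trace_vecMulVec]
  simp only [smul_dotProduct, smul_eq_mul, dotProduct_comm a]
  ring

theorem tend_mul {α l m n : Type} [Fintype m] {F : Filter α} {f : α → Matrix l m ℂ}
    {g : α → Matrix m n ℂ} {a : Matrix l m ℂ} {b : Matrix m n ℂ} (hf : Tendsto f F (𝓝 a))
    (hg : Tendsto g F (𝓝 b)) : Tendsto (fun x => f x * g x) F (𝓝 (a * b)) := by
  refine tendsto_pi_nhds.2 fun i => tendsto_pi_nhds.2 fun j => ?_
  simp only [mul_apply]
  exact tendsto_finsetSum _ fun k _ => (tendsto_pi_nhds.1 (tendsto_pi_nhds.1 hf i) k).mul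
    (tendsto_pi_nhds.1 (tendsto_pi_nhds.1 hg k) j)

theorem tend_trace {α : Type} {F : Filter α} {f : α → Matrix μ μ ℂ} {a : Matrix μ μ ℂ}
    (hf : Tendsto f F (𝓝 a)) : Tendsto (fun x => (f x).trace) F (𝓝 a.trace) :=
  (continuous_id.matrix_trace.tendsto a).comp hf

theorem alg2 {x y p q u w : ℂ} (hp : p ≠ 0) (hq : q ≠ 0) (hu : u ≠ 0) (hw : w ≠ 0) :
    x * y * w * q / (p * q * (u * 1 * w * 1)) = x * y / (p * u) := by
  field_simp

theorem alg3 {a b c a' b' c' u v w : ℂ} (ha : a ≠ 0) (hb : b ≠ 0) (hc : c ≠ 0) (ha' : a' ≠ 0)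
    (hb' : b' ≠ 0) (hc' : c' ≠ 0) (hu : u ≠ 0) (hv : v ≠ 0) (hw : w ≠ 0) :
    a' * b' / c' / (a * b / c) / (v * b' / (b * w) / (u * c' / (c * w)) * (u * a' / (a * v))) = 1 := by
  field_simp

/-- the local form of the invariance under isomorphism -/
theorem Bun.xq_iso_z (L : Bun Y μ 1) (L' : Bun Y ν 1) {A : Y → Matrix ν μ ℂ}
    {A' : Y → Matrix μ ν ℂ} {y : Y} (hA : ContinuousAt A y) (hA' : ContinuousAt A' y)
    (h : (L.Q y * A' y * L'.Q y * (L'.Q y * A y * L.Q y)).trace ≠ 0) :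
    L'.xq - L.xq - AS.d (lg2 (L.ir L' A A')) ∈ AS.z y := by
  obtain ⟨a, b, h1, h0, h2, h3⟩ := L.exists_vec
  obtain ⟨a', b', h1', h0', h2', h3'⟩ := L'.exists_vec
  refine AS.mem_z_of_ev 2 (sub_mem (sub_mem L'.xq_mem_G L.xq_mem_G) (d_lg2_mem _))
    (by norm_num) ?_
  have e : ∀ v : Fin (2 + 1) → Y, (L'.xq - L.xq - AS.d (lg2 (L.ir L' A A'))).1 (List.ofFn v) =
      Complex.log (L'.cr (v 0) (v 1) (v 2)) - Complex.log (L.cr (v 0) (v 1) (v 2)) -
        (Complex.log (L.ir L' A A' (v 1) (v 2)) - Complex.log (L.ir L' A A' (v 0) (v 2)) +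
          Complex.log (L.ir L' A A' (v 0) (v 1))) := fun v => by
    rw [ofFn3, AS.val_sub, AS.val_sub, d_val3, Bun.xq_val, Bun.xq_val, lg2_val, lg2_val, lg2_val]
  simp only [e]
  have t0 : ∀ i : Fin (2 + 1), Tendsto (fun v : Fin (2 + 1) → Y => v i) (𝓝 fun _ => y) (𝓝 y) :=
    fun i => (continuous_apply i).tendsto _
  have t1 : ∀ i j : Fin (2 + 1), Tendsto (fun v : Fin (2 + 1) → Y =>
      (L.Q (v i) * A' (v i) * L'.Q (v i) * (L'.Q (v j) * A (v j) * L.Q (v j))).trace)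
      (𝓝 fun _ => y) (𝓝 (L.Q y * A' y * L'.Q y * (L'.Q y * A y * L.Q y)).trace) := fun i j =>
    tend_trace (tend_mul (tend_mul (tend_mul (L.tend y i) (hA'.tendsto.comp (t0 i))) (L'.tend y i))
      (tend_mul (tend_mul (L'.tend y j) (hA.tendsto.comp (t0 j))) (L.tend y j)))
  have t2 : ∀ i j : Fin (2 + 1), Tendsto (fun v : Fin (2 + 1) → Y => L.ir L' A A' (v i) (v j))
      (𝓝 fun _ => y) (𝓝 1) := fun i j => by
    have := (t1 i j).div ((L.tend2 y i j).mul (t1 j j)) (by rwa [one_mul])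
    rw [one_mul, div_self h] at this
    exact this
  refine ev_zero_of_exp ?_ ?_
  · simpa using ((tendsto_log_one (L'.tend_cr y (0 : Fin (2 + 1)) 1 2)).sub
      (tendsto_log_one (L.tend_cr y 0 1 2))).sub (((tendsto_log_one (t2 1 2)).sub
        (tendsto_log_one (t2 0 2))).add (tendsto_log_one (t2 0 1)))
  · filter_upwards [L.ev2 y, L'.ev2 y, eventually_all.2 fun i => (t1 i i).eventually_ne h]
      with v hv hv' hn
    have p : ∀ i j, b (v i) ⬝ᵥ a (v j) ≠ 0 := fun i j =>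
      left_ne_zero_of_mul ((h2 (v i) (v j)).symm.trans_ne (hv i j))
    have p' : ∀ i j, b' (v i) ⬝ᵥ a' (v j) ≠ 0 := fun i j =>
      left_ne_zero_of_mul ((h2' (v i) (v j)).symm.trans_ne (hv' i j))
    have r : ∀ s t, (L.Q s * A' s * L'.Q s * (L'.Q t * A t * L.Q t)).trace =
        ((b s ᵥ* A' s) ⬝ᵥ a' s) * (b' s ⬝ᵥ a' t) * ((b' t ᵥ* A t) ⬝ᵥ a t) * (b t ⬝ᵥ a s) :=
      fun s t => by rw [h1, h1, h1', h1', tr_iso]
    have u : ∀ i, (b (v i) ᵥ* A' (v i)) ⬝ᵥ a' (v i) ≠ 0 := fun i =>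
      left_ne_zero_of_mul (left_ne_zero_of_mul (left_ne_zero_of_mul ((r (v i) (v i)).symm.trans_ne (hn i))))
    have u' : ∀ i, (b' (v i) ᵥ* A (v i)) ⬝ᵥ a (v i) ≠ 0 := fun i =>
      right_ne_zero_of_mul (left_ne_zero_of_mul ((r (v i) (v i)).symm.trans_ne (hn i)))
    have q : ∀ i j, Complex.exp (Complex.log (L.ir L' A A' (v i) (v j))) =
        ((b (v i) ᵥ* A' (v i)) ⬝ᵥ a' (v i)) * (b' (v i) ⬝ᵥ a' (v j)) /
        ((b (v i) ⬝ᵥ a (v j)) * ((b (v j) ᵥ* A' (v j)) ⬝ᵥ a' (v j))) := fun i j => by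
      have e1 : L.ir L' A A' (v i) (v j) =
          ((b (v i) ᵥ* A' (v i)) ⬝ᵥ a' (v i)) * (b' (v i) ⬝ᵥ a' (v j)) /
          ((b (v i) ⬝ᵥ a (v j)) * ((b (v j) ᵥ* A' (v j)) ⬝ᵥ a' (v j))) := by
        rw [Bun.ir, r, r, h2, h0, h0']
        exact alg2 (p i j) (p j i) (u j) (u' j)
      rw [e1, Complex.exp_log (div_ne_zero (mul_ne_zero (u i) (p' i j)) (mul_ne_zero (p i j) (u j)))]
    rw [Complex.exp_sub, Complex.exp_sub, Complex.exp_add, Complex.exp_sub, q, q, q,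
      h3 _ _ _ (hv 0 2), h3' _ _ _ (hv' 0 2),
      Complex.exp_log (div_ne_zero (mul_ne_zero (p _ _) (p _ _)) (p _ _)),
      Complex.exp_log (div_ne_zero (mul_ne_zero (p' _ _) (p' _ _)) (p' _ _))]
    exact alg3 (p 0 1) (p 1 2) (p 0 2) (p' 0 1) (p' 1 2) (p' 0 2) (u 0) (u 1) (u 2)

theorem iso_ne {L : Bun Y μ 1} {L' : Bun Y ν 1} {A : Y → Matrix ν μ ℂ} {y : Y}
    (h : L'.Q y * A y * L.Q y ≠ 0) :
    (L.Q y * (A y)ᴴ * L'.Q y * (L'.Q y * A y * L.Q y)).trace ≠ 0 := fun e => h <| by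
  refine trace_conjTranspose_mul_self_eq_zero_iff.1 ?_
  rw [conjTranspose_mul, conjTranspose_mul, (L.op y).herm, (L'.op y).herm, ← Matrix.mul_assoc (L.Q y)]
  exact e

variable [CompactSpace Y] [T2Space Y]

theorem mem_CC_G {n : ℤ} {φ : AS Y} : φ ∈ (CC Y).G n ↔ φ ∈ AS.G Y n :=
  ⟨fun h => h.1, fun h => ⟨h, (AS.sc Y).mem_zz.2 fun _ h => h.elim⟩⟩

theorem mem_CC_N {φ : AS Y} : φ ∈ (CC Y).N ↔ ∀ y, φ ∈ AS.z y :=
  (AS.sc Y).mem_zz.trans ⟨fun h y => h y trivial, fun h y _ => h y⟩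

theorem Bun.xq_mem (L : Bun Y μ 1) : L.xq ∈ (CC Y).Z 2 :=
  Cx.mem_Z.2 ⟨mem_CC_G.2 L.xq_mem_G, mem_CC_N.2 L.d_xq⟩

/-- X1: isomorphic lines have the same class -/
theorem Bun.xq_iso (L : Bun Y μ 1) (L' : Bun Y ν 1) {A : Y → Matrix ν μ ℂ} (hA : Continuous A)
    (h : ∀ y, L'.Q y * A y * L.Q y ≠ 0) : L'.xq - L.xq ∈ (CC Y).B 2 :=
  Cx.mem_B.2 ⟨lg2 (L.ir L' A fun y => (A y)ᴴ), mem_CC_G.2 (lg2_mem _), mem_CC_N.2 fun y =>
    L.xq_iso_z L' hA.continuousAt hA.matrix_conjTranspose.continuousAt (iso_ne (h y))⟩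

/-- X2: the class of a tensor product -/
theorem Bun.xq_tens_B (L : Bun Y μ 1) (L' : Bun Y ν 1) :
    (L.tens L').xq - (L.xq + L'.xq) ∈ (CC Y).B 2 :=
  Cx.N_le_B (mem_CC_N.2 (L.xq_tens L'))

/-- X3: a line with a nowhere vanishing section has class zero -/
theorem Bun.xq_sec (L : Bun Y μ 1) {σ : Y → μ → ℂ} (hσ : Continuous σ)
    (h : ∀ y, L.Q y *ᵥ σ y ≠ 0) : L.xq ∈ (CC Y).B 2 := by
  have h1 : OP 1 (1 : Matrix Unit Unit ℂ) := ⟨by simp, by simp, by simp⟩
  have := (Bun.const Y h1).xq_iso L (A := fun y => replicateCol Unit (σ y))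
    (continuous_matrix fun i _ => (continuous_apply i).comp hσ) fun y e => h y <| by
      ext i
      simpa [mul_apply, mulVec, dotProduct] using congrFun (congrFun e i) ()
  rwa [Bun.xq_const, sub_zero] at this

/-- X4: the class of the dual line -/
theorem Bun.xq_tr (L : Bun Y μ 1) : L.tr.xq + L.xq ∈ (CC Y).B 2 := by
  have h1 := (L.tens L.tr).xq_sec (σ := fun y p => L.Q y p.1 p.2)
    (continuous_pi fun p => L.cont.matrix_elem p.1 p.2) fun y e => (L.op y).ne_zero <| by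
      ext i j
      have h2 := congrFun e (i, j)
      have h3 := congrFun (congrFun (show L.Q y * L.Q y * L.Q y = L.Q y by
        rw [(L.op y).idem, (L.op y).idem]) i) j
      rw [← h3, Matrix.zero_apply, ← show _ = (0 : ℂ) from h2]
      simp only [mul_apply, mulVec, dotProduct, Bun.tens_Q, Bun.tr_Q, kroneckerMap_apply,
        transpose_apply, Fintype.sum_prod_type, Finset.sum_mul]
      rw [Finset.sum_comm]
      exact Finset.sum_congr rfl fun k _ => Finset.sum_congr rfl fun l _ => by ring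
  have h2 := sub_mem h1 (L.xq_tens_B L.tr)
  rwa [sub_sub_cancel, add_comm] at h2

end Pool.Agent.CS
end
end

-- part Pool.Agent.P.MP_d34769_ag.YBY
section

/-! The class of the tautological line of the projective line is not zero. -/

open Matrix Filter Topology Set

noncomputable section
namespace Pool.Agent.CS

variable {μ : Type} [Fintype μ] {X Y : Type} [TopologicalSpace X] [TopologicalSpace Y]

/-- the primitive of the cocycle of a line that is spanned by a section -/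
theorem vec_xq_z (v : Y → μ → ℂ) (hc : Continuous v) (h : ∀ y, v y ≠ 0) (y : Y) :
    (Bun.vec v hc h).xq - AS.d (lg2 fun a b => (star (v a) ⬝ᵥ v b) / (star (v b) ⬝ᵥ v b)) ∈
      AS.z y := by
  have h1 : OP 1 (1 : Matrix Unit Unit ℂ) := ⟨by simp, by simp, by simp⟩
  have hA : Continuous fun y => replicateCol Unit (v y) :=
    continuous_matrix fun i _ => (continuous_apply i).comp hc
  have e1 : ∀ b, lnv (v b) * replicateCol Unit (v b) = replicateCol Unit (v b) := fun b => by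
    rw [← replicateCol_mulVec, lnv_mulVec (h b)]
  have e2 : ∀ b, (replicateCol Unit (v b))ᴴ * lnv (v b) = (replicateCol Unit (v b))ᴴ := fun b => by
    conv_rhs => rw [← e1, conjTranspose_mul, (OP.lnv (h b)).herm]
  have e3 : ∀ a b, ((1 : Matrix Unit Unit ℂ) * (replicateCol Unit (v a))ᴴ * lnv (v a) *
      (lnv (v b) * replicateCol Unit (v b) * (1 : Matrix Unit Unit ℂ))).trace =
      star (v a) ⬝ᵥ v b := fun a b => by
    rw [Matrix.one_mul, Matrix.mul_one, e1, e2]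
    simp [Matrix.trace, mul_apply, dotProduct]
  have := (Bun.const Y h1).xq_iso_z (Bun.vec v hc h) (y := y) hA.continuousAt
    hA.matrix_conjTranspose.continuousAt ((e3 y y).trans_ne (star_dot_ne (h y)))
  rw [Bun.xq_const, sub_zero] at this
  have e4 : (Bun.const Y h1).ir (Bun.vec v hc h) (fun y => replicateCol Unit (v y))
      (fun y => (replicateCol Unit (v y))ᴴ) =
      fun a b => (star (v a) ⬝ᵥ v b) / (star (v b) ⬝ᵥ v b) := by
    funext a b
    simp only [Bun.ir, Bun.const_Q, Bun.vec_Q, e3]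
    simp
  rwa [e4] at this

/-- a local cocycle on the plane that is periodic has the same sum along two grid lines -/
theorem grid_sum (ψ : ℝ × ℝ → ℝ × ℝ → ℂ)
    (h : ∀ p, ∃ O ∈ 𝓝 p, ∀ a ∈ O, ∀ b ∈ O, ∀ c ∈ O, ψ b c - ψ a c + ψ a b = 0)
    (hp : ∀ s s', ψ (s, 1) (s', 1) = ψ (s, 0) (s', 0)) :
    ∃ N : ℕ, 3 ≤ N ∧ ∑ j ∈ Finset.range N, ψ (0, (j : ℝ) / N) (0, ((j + 1 : ℕ) : ℝ) / N) =
      ∑ j ∈ Finset.range N, ψ (1, (j : ℝ) / N) (1, ((j + 1 : ℕ) : ℝ) / N) := by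
  choose O hO h using h
  obtain ⟨ε, hε, hl⟩ := lebesgue_number_lemma_of_metric
    (isCompact_Icc (a := ((0, 0) : ℝ × ℝ)) (b := (1, 1))) (c := fun p => interior (O p))
    (fun _ => isOpen_interior) fun p _ => mem_iUnion.2 ⟨p, mem_interior_iff_mem_nhds.2 (hO p)⟩
  obtain ⟨M, hM⟩ := exists_nat_one_div_lt hε
  set N := M + 3 with hN
  have hN0 : (0 : ℝ) < N := by rw [hN]; positivity
  have hNε : 1 / (N : ℝ) < ε := lt_of_le_of_lt (one_div_le_one_div_of_le (by positivity)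
    (by rw [hN]; push_cast; linarith)) hM
  let g : ℕ → ℕ → ℝ × ℝ := fun i j => ((i : ℝ) / N, (j : ℝ) / N)
  have hd : ∀ i : ℕ, dist (((i + 1 : ℕ) : ℝ) / N) ((i : ℝ) / N) < ε := fun i => by
    rw [Real.dist_eq, ← sub_div]
    push_cast
    rwa [add_sub_cancel_left, abs_of_pos (by positivity)]
  have sq : ∀ i < N, ∀ j < N, ψ (g i j) (g i (j + 1)) - ψ (g (i + 1) j) (g (i + 1) (j + 1)) =
      ψ (g i j) (g (i + 1) j) - ψ (g i (j + 1)) (g (i + 1) (j + 1)) := fun i hi j hj => by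
    obtain ⟨p, hb⟩ := hl (g i j) ⟨⟨by positivity, by positivity⟩,
      (div_le_one hN0).2 (by exact_mod_cast hi.le), (div_le_one hN0).2 (by exact_mod_cast hj.le)⟩
    have m : ∀ q, dist q.1 (g i j).1 < ε → dist q.2 (g i j).2 < ε → q ∈ O p := fun q h1 h2 =>
      interior_subset (hb (by rw [Metric.mem_ball, Prod.dist_eq]; exact max_lt h1 h2))
    have m0 := m (g i j) (by simpa) (by simpa)
    have m1 := m (g i (j + 1)) (by simpa [g]) (hd j)
    have m2 := m (g (i + 1) j) (hd i) (by simpa [g])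
    have m3 := m (g (i + 1) (j + 1)) (hd i) (hd j)
    linear_combination h p _ m0 _ m1 _ m3 - h p _ m0 _ m2 _ m3
  have st : ∀ i ≤ N, ∑ j ∈ Finset.range N, ψ (g 0 j) (g 0 (j + 1)) =
      ∑ j ∈ Finset.range N, ψ (g i j) (g i (j + 1)) := fun i hi => by
    induction i with
    | zero => rfl
    | succ i ih =>
      rw [ih (by omega), ← sub_eq_zero, ← Finset.sum_sub_distrib,
        Finset.sum_congr rfl fun j hj => sq i hi j (Finset.mem_range.1 hj),
        Finset.sum_range_sub' fun j => ψ (g i j) (g (i + 1) j)]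
      simp only [g, div_self hN0.ne', Nat.cast_zero, zero_div, hp, sub_self]
  refine ⟨N, by omega, ?_⟩
  simpa only [g, div_self hN0.ne', Nat.cast_zero, zero_div] using st N le_rfl

/-- B1 -/
theorem IsPP.xq_not_mem [CompactSpace X] [T2Space X] {Q : Matrix μ μ ℂ} {L : Bun X μ 1}
    (h : IsPP Q L) (hQ : OP 2 Q) : L.xq ∉ (CC X).B 2 := fun hB => by
  obtain ⟨φ, -, hφ⟩ := Cx.mem_B.1 hB
  obtain ⟨u, h1, h2⟩ := hQ.exists_iso
  let c : ℝ → ℂ := fun t => Complex.exp (2 * Real.pi * Complex.I * t)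
  have hc : ∀ t, c t ≠ 0 := fun t => Complex.exp_ne_zero _
  let w : ℝ × ℝ → Fin 2 → ℂ := fun p => ![1 - p.1, p.1 * c p.2]
  let v : ℝ × ℝ → μ → ℂ := fun p => u *ᵥ w p
  have hw : Continuous w := by
    refine continuous_pi fun i => ?_
    fin_cases i
    · exact continuous_const.sub (Complex.continuous_ofReal.comp continuous_fst)
    · exact (Complex.continuous_ofReal.comp continuous_fst).mul (Complex.continuous_exp.comp
        (continuous_const.mul (Complex.continuous_ofReal.comp continuous_snd)))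
  have hv : Continuous v := continuous_const.matrix_mulVec hw
  have hdot : ∀ p q, star (v p) ⬝ᵥ v q = star (w p) ⬝ᵥ w q := fun p q => by
    rw [star_mulVec, dotProduct_mulVec, vecMul_vecMul, h1, vecMul_one]
  have hw0 : ∀ p, w p ≠ 0 := fun p e => by
    have a0 : 1 - (p.1 : ℂ) = 0 := congrFun e 0
    have a1 : (p.1 : ℂ) * c p.2 = 0 := congrFun e 1
    rw [(mul_eq_zero.1 a1).resolve_right (hc _)] at a0
    simp at a0
  have hv0 : ∀ p, v p ≠ 0 := fun p e => star_dot_ne (hw0 p) (by rw [← hdot, e, dotProduct_zero])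
  obtain ⟨F, hF⟩ := h.exists_lift hQ (Bun.vec v hv hv0) fun p => le_lnv (by
    rw [mulVec_mulVec, ← h2, Matrix.mul_assoc, h1, Matrix.mul_one])
  have hF' : ∀ p, L.Q (F p) = lnv (v p) := fun p => congrFun (congrArg Bun.Q hF) p
  let r : ℝ × ℝ → ℝ × ℝ → ℂ := fun a b => (star (v a) ⬝ᵥ v b) / (star (v b) ⬝ᵥ v b)
  let ψ : ℝ × ℝ → ℝ × ℝ → ℂ := fun a b => φ.1 [F a, F b] - Complex.log (r a b)
  have hψ : ∀ p, ∃ O ∈ 𝓝 p, ∀ a ∈ O, ∀ b ∈ O, ∀ c ∈ O, ψ b c - ψ a c + ψ a b = 0 := fun p => by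
    have z1 := AS.z_pull F.continuous.continuousAt (mem_CC_N.1 hφ (F p))
    rw [map_sub, L.xq_comap, hF] at z1
    obtain ⟨O, hO, e⟩ := sub_mem (vec_xq_z v hv hv0 p) z1
    refine ⟨O, hO, fun a ha b hb c hc => ?_⟩
    have := e [a, b, c] (by simp [ha, hb, hc])
    rw [sub_sub_sub_cancel_left, AS.val_sub, d_val3, AS.pull_val] at this
    have e2 := d_val3 φ (F a) (F b) (F c)
    simp only [lg2_val] at this
    simp only [ψ, r]
    change (AS.d φ).1 [F a, F b, F c] - _ = 0 at this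
    linear_combination this - e2
  have hψ0 : ∀ p, φ.1 [F p, F p] = 0 := fun p => by
    obtain ⟨O, hO, e⟩ := hψ p
    have m := mem_of_mem_nhds hO
    simpa [ψ, r, div_self (star_dot_ne (hv0 p))] using e p m p m p m
  have c1 : c 1 = c 0 := by simp [c]
  have v1 : ∀ s, v (s, 1) = v (s, 0) := fun s => by simp only [v, w, c1]
  obtain ⟨N, hN, e⟩ := grid_sum ψ hψ fun s s' => by
    have : ∀ s, F (s, 1) = F (s, 0) := fun s => h.inj (by rw [hF', hF', v1])
    simp only [ψ, r, this, v1]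
  have hN0 : (N : ℂ) ≠ 0 := Nat.cast_ne_zero.2 (by omega)
  have l0 : ∀ t t', ψ (0, t) (0, t') = 0 := fun t t' => by
    have a : v (0, t) = v (0, t') := by simp [v, w]
    have b : F (0, t) = F (0, t') := h.inj (by rw [hF', hF', a])
    simp only [ψ, r, a, b, hψ0, div_self (star_dot_ne (hv0 _)), Complex.log_one, sub_zero]
  have l1 : ∀ j : ℕ, ψ (1, (j : ℝ) / N) (1, ((j + 1 : ℕ) : ℝ) / N) =
      -(2 * Real.pi * Complex.I / N) := fun j => by
    have a : ∀ t, v (1, t) = c t • v (1, 0) := fun t => by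
      simp only [v]
      rw [← mulVec_smul]
      congr 1
      ext i
      fin_cases i <;> simp [w, c]
    have b : ∀ t, F (1, t) = F (1, 0) := fun t => h.inj (by
      rw [hF', hF', a, lnv_smul (hv0 _) (hc t)])
    have s : ∀ t, star (c t) = (c t)⁻¹ := fun t => by
      simp only [c]
      rw [← Complex.exp_neg, RCLike.star_def, ← Complex.exp_conj]
      congr 1
      simp [Complex.conj_ofReal, map_ofNat]
    have d : ∀ t t', r (1, t) (1, t') = Complex.exp (2 * Real.pi * Complex.I * (t' - t)) :=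
      fun t t' => by
      have := star_dot_ne (hv0 (1, 0))
      have := hc t
      have := hc t'
      simp only [r]
      rw [a t, a t', star_smul, star_smul, s, s]
      simp only [smul_dotProduct, dotProduct_smul, smul_eq_mul]
      rw [mul_sub, Complex.exp_sub]
      change _ = c t' / c t
      field_simp
    simp only [ψ]
    rw [b, b (_ / _), hψ0, d, zero_sub]
    have f : (2 * Real.pi * Complex.I * (((((j + 1 : ℕ) : ℝ) / N : ℝ) : ℂ) - (((j : ℝ) / N : ℝ) : ℂ))) =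
        ((2 * Real.pi / N : ℝ) : ℂ) * Complex.I := by
      push_cast
      field_simp
      ring
    have hN' : (3 : ℝ) ≤ N := by exact_mod_cast hN
    have g : 2 * Real.pi / N ≤ Real.pi := by
      rw [div_le_iff₀ (by linarith)]
      nlinarith [Real.pi_pos]
    have g' : 0 < 2 * Real.pi / N := div_pos Real.two_pi_pos (by linarith)
    rw [f, Complex.log_exp (by simp only [Complex.mul_I_im, Complex.ofReal_re]; linarith [Real.pi_pos])
      (by simpa only [Complex.mul_I_im, Complex.ofReal_re] using g)]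
    push_cast
    ring
  simp only [l0, l1, Finset.sum_const, Finset.card_range, smul_zero, nsmul_eq_mul] at e
  rw [mul_neg, mul_div_cancel₀ _ hN0, eq_comm, neg_eq_zero] at e
  exact Complex.two_pi_I_ne_zero e

end Pool.Agent.CS
end
end
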