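import Pool.Agent.K.MP_d34769_ag.C55

/-! Frames adapted to orthogonal lines, and the linear algebra of the diagonal. -/

set_option linter.unusedSectionVars false

open Matrix Kronecker

noncomputable section
namespace Pool.Agent.CS

variable {I J M M' : Type} [Fintype I] [DecidableEq I] [Fintype J] [DecidableEq J] [Fintype M]
  [DecidableEq M] [Fintype M'] [DecidableEq M']

/-- orthogonal idempotents `l i` that are triangular in the frame `A` with dual frame `B` -/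
structure Frm (gp : I → I → Prop) (l : I → Matrix M M ℂ) (A : Matrix M I ℂ) (B : Matrix I M ℂ) :
    Prop where
  BA : B * A = 1
  AB : A * B = ∑ i, l i
  idem : ∀ i, l i * l i = l i
  orth : ∀ i j, i ≠ j → l i * l j = 0
  tri : ∀ i j k, (B * l i * A) j k ≠ 0 → gp j i ∧ gp i k

/-- the first block -/
def blkL (Q : Matrix M M ℂ) : Matrix (M ⊕ M') (M ⊕ M') ℂ := fromBlocks Q 0 0 0

/-- the second block -/
def blkR (Q : Matrix M' M' ℂ) : Matrix (M ⊕ M') (M ⊕ M') ℂ := fromBlocks 0 0 0 Q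

namespace Frm
variable {gp : I → I → Prop} {l : I → Matrix M M ℂ} {A : Matrix M I ℂ} {B : Matrix I M ℂ}
  {gp' : J → J → Prop} {l' : J → Matrix M' M' ℂ} {A' : Matrix M' J ℂ} {B' : Matrix J M' ℂ}

theorem triv : Frm (I := I) Eq (fun i => single i i 1) 1 1 where
  BA := mul_one _
  AB := by rw [mul_one, sum_single_one]
  idem i := by simp
  orth i j h := single_mul_single_of_ne _ _ _ _ h _
  tri i j k h := by
    rw [one_mul, mul_one] at h
    by_contra e
    exact h (single_apply_of_ne _ _ _ _ _ fun e' => e ⟨e'.1.symm, e'.2⟩)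

theorem tr (F : Frm gp l A B) : Frm (fun i j => gp j i) (fun i => (l i)ᵀ) Bᵀ Aᵀ where
  BA := by rw [← transpose_mul, F.BA, transpose_one]
  AB := by rw [← transpose_mul, F.AB, transpose_sum]
  idem i := by rw [← transpose_mul, F.idem]
  orth i j h := by rw [← transpose_mul, F.orth _ _ h.symm, transpose_zero]
  tri i j k h := by
    rw [← transpose_mul, ← transpose_mul, ← Matrix.mul_assoc] at h
    exact (F.tri i k j h).symm

theorem kron (F : Frm gp l A B) (F' : Frm gp' l' A' B') :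
    Frm (fun p q : I × J => gp p.1 q.1 ∧ gp' p.2 q.2) (fun p => l p.1 ⊗ₖ l' p.2) (A ⊗ₖ A')
      (B ⊗ₖ B') where
  BA := by rw [← mul_kronecker_mul, F.BA, F'.BA, one_kronecker_one]
  AB := by
    rw [← mul_kronecker_mul, F.AB, F'.AB]
    ext p q
    simp [Matrix.sum_apply, Fintype.sum_prod_type, Finset.sum_mul_sum]
  idem p := by rw [← mul_kronecker_mul, F.idem, F'.idem]
  orth p q h := by
    rw [← mul_kronecker_mul]
    by_cases e : p.1 = q.1
    · rw [F'.orth _ _ fun e' => h (Prod.ext e e'), kronecker_zero]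
    · rw [F.orth _ _ e, zero_kronecker]
  tri p q r h := by
    rw [← mul_kronecker_mul, ← mul_kronecker_mul] at h
    have h1 := F.tri _ _ _ (left_ne_zero_of_mul h)
    have h2 := F'.tri _ _ _ (right_ne_zero_of_mul h)
    exact ⟨⟨h1.1, h2.1⟩, h1.2, h2.2⟩

theorem sum (F : Frm gp l A B) (F' : Frm gp' l' A' B') :
    Frm (Sum.LiftRel gp gp') (Sum.elim (fun i => blkL (l i)) fun j => blkR (l' j))
      (fromBlocks A 0 0 A') (fromBlocks B 0 0 B') where
  BA := by simp [fromBlocks_multiply, F.BA, F'.BA]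
  AB := by
    ext (p | p) (q | q) <;>
      simp [fromBlocks_multiply, F.AB, F'.AB, Matrix.sum_apply, blkL, blkR]
  idem := by rintro (i | i) <;> simp [blkL, blkR, fromBlocks_multiply, F.idem, F'.idem]
  orth := by
    rintro (i | i) (j | j) h <;> simp only [blkL, blkR, fromBlocks_multiply, Sum.elim_inl,
      Sum.elim_inr]
    · simp [F.orth i j fun e => h (congrArg _ e)]
    · simp
    · simp
    · simp [F'.orth i j fun e => h (congrArg _ e)]
  tri := by
    rintro (i | i) (j | j) (k | k) h <;> simp [blkL, blkR, fromBlocks_multiply] at h ⊢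
    · exact F.tri i j k h
    · exact F'.tri i j k h

theorem AB_l (F : Frm gp l A B) (i : I) : A * B * l i = l i := by
  rw [F.AB, Finset.sum_mul, Finset.sum_eq_single i (fun j _ => F.orth j i) (by simp), F.idem]

theorem l_AB (F : Frm gp l A B) (i : I) : l i * (A * B) = l i := by
  rw [F.AB, Finset.mul_sum, Finset.sum_eq_single i (fun j _ e => F.orth i j e.symm) (by simp),
    F.idem]

theorem inj (F : Frm gp l A B) {u : I → ℂ} (h : A *ᵥ u = 0) : u = 0 := by
  rw [← one_mulVec u, ← F.BA, ← mulVec_mulVec, h, mulVec_zero]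

theorem kill (F : Frm gp l A B) {r : I → Prop} (hr : ∀ i j, gp i j → r j → r i) {u : I → ℂ}
    (hu : ∀ i, ¬ r i → u i = 0) {i : I} (hi : ¬ r i) : l i *ᵥ A *ᵥ u = 0 := by
  have : (B * l i * A) *ᵥ u = 0 := funext fun j => Finset.sum_eq_zero fun k _ => by
    by_contra e
    exact right_ne_zero_of_mul e (hu k fun hk => hi (hr _ _ (F.tri i j k (left_ne_zero_of_mul e)).2 hk))
  rw [← F.AB_l i, mulVec_mulVec, Matrix.mul_assoc A, Matrix.mul_assoc A, ← mulVec_mulVec, this,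
    mulVec_zero]

/-- The lines of a down-closed set of indices span the frame vectors of that set. -/
theorem ran (F : Frm gp l A B) {r : I → Prop} [DecidablePred r] (hr : ∀ i j, gp i j → r j → r i)
    (v : M → ℂ) : (∑ i : Subtype r, l i) *ᵥ v = v ↔ ∃ u, (∀ i, ¬ r i → u i = 0) ∧ v = A *ᵥ u := by
  constructor
  · intro h
    have h1 : A *ᵥ B *ᵥ v = v := by
      rw [← h, mulVec_mulVec, mulVec_mulVec, Finset.mul_sum]
      simp only [F.AB_l]
    refine ⟨B *ᵥ v, fun j hj => ?_, h1.symm⟩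
    rw [← h, ← h1, mulVec_mulVec, mulVec_mulVec, Matrix.mul_sum, Matrix.sum_mul, sum_mulVec,
      Finset.sum_apply]
    refine Finset.sum_eq_zero fun i _ => Finset.sum_eq_zero fun k _ => ?_
    by_contra e
    exact hj (hr _ _ (F.tri i j k (left_ne_zero_of_mul e)).1 i.2)
  · rintro ⟨u, hu, rfl⟩
    have h1 : (∑ i, l i) *ᵥ A *ᵥ u = A *ᵥ u := by
      rw [← F.AB, mulVec_mulVec, Matrix.mul_assoc, F.BA, Matrix.mul_one]
    rw [← Fintype.sum_subtype_add_sum_subtype r, add_mulVec, sum_mulVec (s := Finset.univ)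
      (x := fun i : {i // ¬ r i} => l i), Finset.sum_eq_zero fun i _ => F.kill hr hu i.2,
      add_zero] at h1
    exact h1

theorem diag (F : Frm gp l A B) (hat : ∀ i j, gp i j → gp j i → i = j) {i : I}
    (ht : (l i).trace = 1) : (B * l i * A) i i = 1 := by
  have h : (B * l i * A).trace = 1 := by
    rw [Matrix.mul_assoc, trace_mul_comm, Matrix.mul_assoc, F.l_AB, ht]
  rw [← h, trace]
  symm
  refine Finset.sum_eq_single i (fun j _ e => ?_) fun h => absurd (Finset.mem_univ _) h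
  by_contra e'
  exact e (hat _ _ (F.tri i j j e').1 (F.tri i j j e').2)

end Frm

/-- a matrix as a vector -/
def vc (h : Matrix M' M ℂ) : M' × M → ℂ := fun p => h p.1 p.2

theorem kron_vc (A : Matrix M' J ℂ) (B : Matrix I M ℂ) (h : Matrix J I ℂ) :
    (A ⊗ₖ Bᵀ) *ᵥ vc h = vc (A * h * B) := by
  funext p
  simp only [mulVec, dotProduct, vc, kroneckerMap_apply, transpose_apply, mul_apply,
    Fintype.sum_prod_type, Finset.sum_mul]
  rw [Finset.sum_comm]
  exact Finset.sum_congr rfl fun _ _ => Finset.sum_congr rfl fun _ _ => by ring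

theorem vc_surj (v : M' × M → ℂ) : ∃ h, v = vc h := ⟨of fun i j => v (i, j), rfl⟩

theorem vc_inj {h h' : Matrix M' M ℂ} (e : vc h = vc h') : h = h' :=
  Matrix.ext fun i j => congrFun e (i, j)

/-- the index set of the arrows and the framing -/
abbrev Cx3 (M' M : Type) (m : ℕ) := (Fin 3 × M' × M) ⊕ M' × Fin m

variable {m : ℕ}

/-- a framed triple as a vector -/
def fl (σ : Fin 3 → Matrix M' M ℂ) (g : Matrix M' (Fin m) ℂ) : Cx3 M' M m → ℂ :=
  Sum.elim (fun p => vc (σ p.1) p.2) (vc g)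

theorem fl_surj (u : Cx3 M' M m → ℂ) : ∃ σ g, u = fl σ g :=
  ⟨fun a => of fun i j => u (.inl (a, i, j)), of fun i r => u (.inr (i, r)),
    funext fun t => by cases t <;> rfl⟩

theorem fl_inj {σ σ' : Fin 3 → Matrix M' M ℂ} {g g' : Matrix M' (Fin m) ℂ} (e : fl σ g = fl σ' g') :
    σ = σ' ∧ g = g' :=
  ⟨funext fun a => Matrix.ext fun i j => congrFun e (.inl (a, i, j)),
    Matrix.ext fun i j => congrFun e (.inr (i, j))⟩

theorem fl_sub (σ σ' : Fin 3 → Matrix M' M ℂ) (g g' : Matrix M' (Fin m) ℂ) :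
    fl σ g - fl σ' g' = fl (σ - σ') (g - g') := funext fun t => by cases t <;> rfl

theorem fl_zero : fl (0 : Fin 3 → Matrix M' M ℂ) (0 : Matrix M' (Fin m) ℂ) = 0 :=
  funext fun t => by cases t <;> rfl

/-- the matrix of `h ↦ (h ρ - ρ' h, h f)` -/
def phi (ρ : Fin 3 → Matrix M M ℂ) (ρ' : Fin 3 → Matrix M' M' ℂ) (f : Matrix M (Fin m) ℂ) :
    Matrix (Cx3 M' M m) (M' × M) ℂ :=
  fromRows (of fun p => ((1 : Matrix M' M' ℂ) ⊗ₖ (ρ p.1)ᵀ - ρ' p.1 ⊗ₖ (1 : Matrix M M ℂ)ᵀ :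
    Matrix (M' × M) (M' × M) ℂ) p.2) ((1 : Matrix M' M' ℂ) ⊗ₖ fᵀ)

theorem phi_vc (ρ : Fin 3 → Matrix M M ℂ) (ρ' : Fin 3 → Matrix M' M' ℂ) (f : Matrix M (Fin m) ℂ)
    (h : Matrix M' M ℂ) : phi ρ ρ' f *ᵥ vc h = fl (fun a => h * ρ a - ρ' a * h) (h * f) := by
  rw [phi, fromRows_mulVec, kron_vc, Matrix.one_mul]
  congr 1
  funext p
  change (((1 : Matrix M' M' ℂ) ⊗ₖ (ρ p.1)ᵀ - ρ' p.1 ⊗ₖ (1 : Matrix M M ℂ)ᵀ) *ᵥ vc h) p.2 = _
  rw [sub_mulVec, kron_vc, kron_vc, Matrix.one_mul, Matrix.mul_one]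
  rfl

/-- the frame of the space of arrows and framings -/
def frC (A : Matrix M' J ℂ) (B : Matrix I M ℂ) (m : ℕ) : Matrix (Cx3 M' M m) (Cx3 J I m) ℂ :=
  fromBlocks (1 ⊗ₖ (A ⊗ₖ Bᵀ)) 0 0 (A ⊗ₖ 1)

theorem frC_fl (A : Matrix M' J ℂ) (B : Matrix I M ℂ) (σ : Fin 3 → Matrix J I ℂ)
    (g : Matrix J (Fin m) ℂ) : frC A B m *ᵥ fl σ g = fl (fun a => A * σ a * B) (A * g) := by
  rw [frC, fl, fromBlocks_mulVec, Sum.elim_comp_inl, Sum.elim_comp_inr, zero_mulVec, zero_mulVec,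
    add_zero, zero_add, ← transpose_one (n := Fin m), kron_vc, Matrix.mul_one]
  congr 1
  funext p
  rw [← kron_vc]
  simp [mulVec, dotProduct, Fintype.sum_prod_type (α₁ := Fin 3), one_apply]

/-- the lines of the space of homomorphisms -/
def lnA (l' : J → Matrix M' M' ℂ) (l : I → Matrix M M ℂ) (p : J × I) : Matrix (M' × M) (M' × M) ℂ :=
  l' p.1 ⊗ₖ (l p.2)ᵀ

/-- the lines of the space of arrows and framings -/
def lnC (l' : J → Matrix M' M' ℂ) (l : I → Matrix M M ℂ) (m : ℕ) :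
    Cx3 J I m → Matrix (Cx3 M' M m) (Cx3 M' M m) ℂ :=
  Sum.elim (fun p => blkL (single p.1 p.1 1 ⊗ₖ lnA l' l p.2))
    fun p => blkR (l' p.1 ⊗ₖ single p.2 p.2 1)

namespace Dat
variable {D : Dat I}

theorem gp_ap {a : Fin 3} {i j k : I} (h : D.gp i j) (h' : D.ap a j k) : D.ap a i k :=
  ⟨h.1.trans h'.1, h'.2.1, D.rl_trans (D.gl_rl h.2) h'.2.2⟩

theorem ap_gp {a : Fin 3} {i j k : I} (h : D.ap a i j) (h' : D.gp j k) : D.ap a i k :=
  ⟨h.1, h'.1.symm.trans h.2.1, D.rl_trans h.2.2 (D.gl_rl h'.2)⟩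

theorem comm_mem_R {h : Matrix I I ℂ} (hh : h ∈ D.Lie) {ρ ρ' : Rp I} (hρ : ρ ∈ D.R)
    (hρ' : ρ' ∈ D.R) : (fun a => h * ρ a - ρ' a * h) ∈ D.R := by
  have h1 := D.R.sub_mem (mul_mem_R hh D.one_mem_Lie hρ) (mul_mem_R D.one_mem_Lie hh hρ')
  simp only [Matrix.mul_one, Matrix.one_mul] at h1
  exact h1

/-- the indices of the arrows and framings that occur -/
def cq (D : Dat I) : Cx3 I I D.m → Prop := Sum.elim (fun p => D.ap p.1 p.2.1 p.2.2) fun _ => True

variable {l : I → Matrix M M ℂ} {A : Matrix M I ℂ} {B : Matrix I M ℂ} {l' : I → Matrix M' M' ℂ}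
  {A' : Matrix M' I ℂ} {B' : Matrix I M' ℂ} (F : Frm D.gp l A B) (F' : Frm D.gp l' A' B')
include F F'

open Classical in
theorem ranA (v : M' × M → ℂ) : (∑ s : {s : I × I // D.gp s.1 s.2}, lnA l' l s) *ᵥ v = v ↔
    ∃ h ∈ D.Lie, v = vc (A' * h * B) := by
  refine ((F'.kron F.tr).ran (r := fun s : I × I => D.gp s.1 s.2)
    (fun p q e c => gp_trans (gp_trans e.1 c) e.2) v).trans ⟨?_, ?_⟩
  · rintro ⟨u, hu, rfl⟩
    obtain ⟨h, rfl⟩ := vc_surj u
    exact ⟨h, fun i j => hu (i, j), kron_vc _ _ _⟩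
  · rintro ⟨h, hh, rfl⟩
    exact ⟨vc h, fun p => hh p.1 p.2, (kron_vc _ _ _).symm⟩

open Classical in
theorem ranC (v : Cx3 M' M D.m → ℂ) : (∑ t : Subtype D.cq, lnC l' l D.m t) *ᵥ v = v ↔
    ∃ σ ∈ D.R, ∃ g, v = fl (fun a => A' * σ a * B) (A' * g) := by
  refine (((Frm.triv.kron (F'.kron F.tr)).sum (F'.kron Frm.triv)).ran (r := D.cq) ?_ v).trans
    ⟨?_, ?_⟩
  · rintro _ _ (@⟨p, q, e⟩ | _) c
    · exact ap_gp (gp_ap e.2.1 (e.1 ▸ c)) e.2.2
    · trivial
  · rintro ⟨u, hu, rfl⟩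
    obtain ⟨σ, g, rfl⟩ := fl_surj u
    exact ⟨σ, fun a i j => hu (.inl (a, i, j)), g, frC_fl _ _ _ _⟩
  · rintro ⟨σ, hσ, g, rfl⟩
    refine ⟨fl σ g, ?_, (frC_fl _ _ _ _).symm⟩
    rintro (p | p) c
    · exact hσ _ _ _ c
    · exact absurd trivial c

theorem phi_frm (ρ ρ' : Rp I) (f : Matrix I (Fin D.m) ℂ) (h : Matrix I I ℂ) :
    phi (fun a => A * ρ a * B) (fun a => A' * ρ' a * B') (A * f) *ᵥ vc (A' * h * B) =
      fl (fun a => A' * (h * ρ a - ρ' a * h) * B) (A' * (h * f)) := by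
  have h1 : ∀ {K : Type} (X : Matrix I K ℂ), B * (A * X) = X := fun X => by
    rw [← Matrix.mul_assoc, F.BA, Matrix.one_mul]
  have h2 : ∀ {K : Type} (X : Matrix I K ℂ), B' * (A' * X) = X := fun X => by
    rw [← Matrix.mul_assoc, F'.BA, Matrix.one_mul]
  simp only [phi_vc, Matrix.mul_assoc, h1, h2, Matrix.mul_sub, Matrix.sub_mul]

theorem fl_frm {σ τ : Rp I} {g k : Matrix I (Fin D.m) ℂ}
    (e : fl (fun a => A' * σ a * B) (A' * g) = fl (fun a => A' * τ a * B) (A' * k)) :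
    σ = τ ∧ g = k := by
  rw [← frC_fl, ← frC_fl, ← sub_eq_zero, ← mulVec_sub] at e
  exact fl_inj (sub_eq_zero.1 (((Frm.triv.kron (F'.kron F.tr)).sum (F'.kron Frm.triv)).inj e))

/-- An invertible triangular map does not kill the graded lines. -/
theorem line_ne (hat : D.Hat) {h k : Matrix I I ℂ} (hh : h ∈ D.Lie) (hk : k ∈ D.Lie)
    (e : h * k = 1) {i : I} (t : (l i).trace = 1) (t' : (l' i).trace = 1) :
    l' i * (A' * h * B) * l i ≠ 0 := fun h0 => by
  have hat' : ∀ i j, D.gp i j → D.gp j i → i = j := fun i j a b => hat i j ⟨a, b⟩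
  have dg : ∀ {X Y : Matrix I I ℂ}, (∀ k, X i k ≠ 0 → D.gp i k) → (∀ k, Y k i ≠ 0 → D.gp k i) →
      (X * Y) i i = X i i * Y i i := fun hX hY =>
    Finset.sum_eq_single i (fun j _ e => by_contra fun c => e (hat' _ _
      (hY j (right_ne_zero_of_mul c)) (hX j (left_ne_zero_of_mul c))))
      fun h => absurd (Finset.mem_univ _) h
  have hL : ∀ {X : Matrix I I ℂ}, X ∈ D.Lie → ∀ i j, X i j ≠ 0 → D.gp i j := fun hX i j c =>
    by_contra fun c' => c (hX i j c')
  have h1 : h i i * k i i = 1 := by rw [← dg (hL hh i) fun j => hL hk j i, e, one_apply_eq]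
  have h2 : (B' * l' i * A') * (h * (B * l i * A)) = 0 := by
    have := congrArg (fun X => B' * X * A) h0
    simpa only [Matrix.mul_assoc, Matrix.mul_zero, Matrix.zero_mul] using this
  have h3 := congrFun (congrFun h2 i) i
  rw [dg (fun j c => (F'.tri i i j c).2) fun j c => ?_, dg (hL hh i) fun j c => (F.tri i j i c).1,
    F.diag hat' t, F'.diag hat' t', one_mul, mul_one] at h3
  · rw [h3, Matrix.zero_apply, zero_mul] at h1
    exact zero_ne_one h1
  · obtain ⟨n, -, hn⟩ := Finset.exists_ne_zero_of_sum_ne_zero c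
    exact gp_trans (hL hh _ _ (left_ne_zero_of_mul hn)) (F.tri i n i (right_ne_zero_of_mul hn)).1

end Dat

end Pool.Agent.CS
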