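import Pool.Agent.K.MP_d34769_ag.C82
import Pool.Agent.K.MP_d34769_ag.C56
import Pool.Agent.K.MP_d34769_ag.C41
import Pool.Agent.K.MP_d34769_ag.C85
import Pool.Agent.K.MP_d34769_ag.C86

/-! The projectors of the tautological flag at a stable point. -/

open Matrix Filter Topology Set

set_option linter.unusedSectionVars false

noncomputable section
namespace Pool.Agent.CS

theorem IsPrj.mul_eq_zero {C : Type} [Fintype C] {Q Q' : Matrix C C ℂ} {U U' : Submodule ℂ (C → ℂ)}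
    (h : IsPrj Q U) (h' : IsPrj Q' U') (e : ∀ u ∈ U, ∀ v ∈ U', star u ⬝ᵥ v = 0) : Q * Q' = 0 := by
  classical
  ext i j
  have := e _ (h.mulVec_mem (Pi.single i 1)) _ (h'.mulVec_mem (Pi.single j 1))
  rw [star_mulVec, h.herm, dotProduct_mulVec, vecMul_vecMul] at this
  simpa [← Pi.single_star] using this

variable {I I' : Type} [Fintype I] [DecidableEq I] [Fintype I'] [DecidableEq I']

namespace Dat
variable (D : Dat I)

/-- the index set of the trivial bundle that contains the tautological bundles -/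
def Mu : Type := Cn D.nU I D.m × Fin D.nU

instance : Fintype D.Mu := inferInstanceAs (Fintype (Cn D.nU I D.m × Fin D.nU))
instance : DecidableEq D.Mu := Classical.decEq _

/-- an equivariant map from the trivial bundle onto the tautological bundle -/
def Xi (p : Pt I D.m) : Matrix I D.Mu ℂ :=
  of fun i c => D.Phv p i c.1 * (star (D.sv p c.2) / ∑ k, D.sv p k * star (D.sv p k))

/-- its right inverse -/
def Xp (p : Pt I D.m) : Matrix D.Mu I ℂ := pinv (D.Xi p)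

/-- the projector of a subspace -/
def Nn (p : Pt I D.m) (U : Submodule ℂ (I → ℂ)) : Matrix D.Mu D.Mu ℂ := npr (D.Xi p) U

/-- the projector of a graded piece of the flag -/
def PG (p : Pt I D.m) (a : I) : Matrix D.Mu D.Mu ℂ :=
  D.Nn p (sp {j | D.gp j a}) - D.Nn p (sp {j | D.gp j a ∧ ¬ D.gp a j})

/-- the rank of a graded piece -/
def rk (a : I) : ℕ := Nat.card {b // D.cl a b}

variable {D} {D' : Dat I'} {p q : Pt I D.m} {g : Matrix I I ℂ} {U U' : Submodule ℂ (I → ℂ)}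

theorem Xi_act (hg : g ∈ D.base.P) (p : Pt I D.m) : D.Xi (act g p) = g * D.Xi p := by
  have h0 := inv_ne_zero (pow_ne_zero D.uni.A (om_ne hg))
  ext i c
  have h1 : (g * D.Xi p) i c = (g * D.Phv p) i c.1 *
      (star (D.sv p c.2) / ∑ k, D.sv p k * star (D.sv p k)) := by
    simp only [Xi, of_apply, Matrix.mul_apply, Finset.sum_mul, mul_assoc]
  rw [h1]
  simp only [Xi, of_apply, Phv_act' hg, sv_act' hg, Matrix.smul_mul, Matrix.smul_apply,
    smul_eq_mul, star_mul']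
  generalize (D.om g ^ D.uni.A)⁻¹ = t at h0
  simp only [mul_mul_mul_comm t, ← Finset.mul_sum]
  rw [mul_comm t, mul_assoc, ← mul_div_assoc, ← mul_assoc t,
    mul_div_mul_left _ _ (mul_ne_zero h0 (star_ne_zero.2 h0))]

theorem ssq_ne (hp : D.base.St p) : ∑ k, D.sv p k * star (D.sv p k) ≠ 0 := fun e => by
  open ComplexOrder in
  obtain ⟨k, hk, -⟩ := uni_gen hp
  exact hk (congrFun (dotProduct_self_star_eq_zero.1 e) k)

theorem Xi_gram (hp : D.base.St p) : IsUnit (D.Xi p * (D.Xi p)ᴴ).det := by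
  classical
  obtain ⟨k, hk, hl⟩ := uni_gen hp
  refine isUnit_gram fun v hv => funext fun i => ?_
  have h : (fun j => if D.cc j i then v j else 0) ᵥ* D.lv p k = 0 := funext fun j => by
    have : ∑ a, v a * (D.Phv p a ((k, .inl j), i) * (star (D.sv p k) /
      ∑ k, D.sv p k * star (D.sv p k))) = 0 := congrFun hv (((k, .inl j), i), k)
    simp only [← mul_assoc, ← Finset.sum_mul] at this
    refine Eq.trans (Finset.sum_congr rfl fun a _ => ?_) ((mul_eq_zero.1 this).resolve_right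
      (div_ne_zero (star_ne_zero.2 hk) (ssq_ne hp)))
    simp only [Phv, Phi_apply]
    split_ifs
    exacts [rfl, by simp]
  simpa [D.cc_rfl i] using congrFun (eq_zero_of_vecMul_eq_zero hl.ne_zero h) i

theorem Xi_blk (p : Pt I D.m) {i j : I} (h : ¬ D.cc i j) : (D.Xi p * (D.Xi p)ᴴ) i j = 0 := by
  classical
  rw [Matrix.mul_apply]
  refine Finset.sum_eq_zero fun c _ => ?_
  simp only [Xi, conjTranspose_apply, of_apply, Phv, Phi_apply]
  split_ifs with h1 h2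
  exacts [absurd (h1.trans' h2.symm') h, by simp, by simp, by simp]

theorem Xi_cont : ContinuousOn D.Xi {p | D.base.St p} := by
  have hs : ∀ k, Continuous fun p => D.sv p k := fun k => (sv_poly k).continuous continuous_co
  refine continuousOn_pi.2 fun i => continuousOn_pi.2 fun c => ?_
  exact ((Phv_poly i c.1).continuous continuous_co).continuousOn.mul
    ((hs _).star.continuousOn.div (continuous_finsetSum _ fun k _ =>
      (hs k).mul (hs k).star).continuousOn fun _ hp => ssq_ne hp)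

theorem Xp_cont : ContinuousOn D.Xp {p | D.base.St p} :=
  continuousOn_iff_continuous_domRestrict.2 (continuous_pinv
    (continuousOn_iff_continuous_domRestrict.1 Xi_cont) fun x => Xi_gram x.2)

theorem Xi_Xp (hp : D.base.St p) : D.Xi p * D.Xp p = 1 := mul_pinv (Xi_gram hp)

theorem Xp_act (hg : g ∈ D.base.P) (p : Pt I D.m) : D.Xp (act g p) = D.Xp p * g⁻¹ := by
  rw [Xp, Xi_act hg, pinv_mul hg.2]; rfl

theorem Nn_act (hg : g ∈ D.base.P) (p : Pt I D.m) (U : Submodule ℂ (I → ℂ)) :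
    D.Nn (act g p) (U.map (toLin' g)) = D.Nn p U := by
  rw [Nn, Xi_act hg, npr_mul hg.2]; rfl

theorem Nn_prj (p : Pt I D.m) (U : Submodule ℂ (I → ℂ)) :
    IsPrj (D.Nn p U) (U.map (toLin' (D.Xp p))) := isPrj_prj _

theorem Nn_op (hp : D.base.St p) (U : Submodule ℂ (I → ℂ)) :
    OP (Module.finrank ℂ U) (D.Nn p U) :=
  ⟨(Nn_prj p U).herm, (Nn_prj p U).idem, trace_npr (Xi_gram hp) U⟩

theorem Nn_le_iff (hp : D.base.St p) : D.Nn p U' * D.Nn p U = D.Nn p U ↔ U ≤ U' :=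
  npr_le_iff (Xi_gram hp) U U'

theorem Nn_inj (hp : D.base.St p) (e : D.Nn p U = D.Nn p U') : U = U' := npr_inj (Xi_gram hp) e

theorem Nn_cont (U : Submodule ℂ (I → ℂ)) : ContinuousOn (fun p => D.Nn p U) {p | D.base.St p} :=
  continuousOn_iff_continuous_domRestrict.2 (continuous_npr
    (continuousOn_iff_continuous_domRestrict.1 Xi_cont) (fun x => Xi_gram x.2) U)

theorem Nn_top (hp : D.base.St p) : D.Nn p ⊤ = D.Xp p * D.Xi p := by
  refine (Nn_prj p ⊤).unique ⟨?_, ?_, fun v => ⟨?_, fun h => ⟨D.Xi p *ᵥ v, trivial, ?_⟩⟩⟩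
  · simp only [Xp, pinv, conjTranspose_mul, conjTranspose_conjTranspose, conjTranspose_nonsing_inv,
      Matrix.mul_assoc]
  · rw [Matrix.mul_assoc, ← Matrix.mul_assoc (D.Xi p), Xi_Xp hp, Matrix.one_mul]
  · rintro ⟨w, -, rfl⟩
    rw [toLin'_apply, mulVec_mulVec, Matrix.mul_assoc, Xi_Xp hp, Matrix.mul_one]
  · rw [toLin'_apply, mulVec_mulVec, h]

theorem map_sp_eq (hg : g ∈ D.P) {F : Set I} (hF : ∀ i j, D.gp i j → j ∈ F → i ∈ F) :
    (sp F).map (toLin' g) = sp F := by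
  have h : ∀ g ∈ D.P, (sp F).map (toLin' g) ≤ sp F := fun g hg =>
    map_sp_le.2 fun i j hi hj => hg.1 i j fun e => hi (hF i j e hj)
  refine le_antisymm (h g hg) fun v hv => ⟨g⁻¹ *ᵥ v, h _ (inv_mem_P hg) ⟨v, hv, rfl⟩, ?_⟩
  rw [toLin'_apply, mulVec_mulVec, mul_nonsing_inv _ hg.2, one_mulVec]

theorem Nn_sp_act (hg : g ∈ D.P) (p : Pt I D.m) {F : Set I} (hF : ∀ i j, D.gp i j → j ∈ F → i ∈ F) :
    D.Nn (act g p) (sp F) = D.Nn p (sp F) := by
  rw [← Nn_act (f1_le_base hg) p, map_sp_eq hg hF]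

theorem Nn_mul (hp : D.base.St p) {F G : Set I} (h : F ⊆ G) :
    D.Nn p (sp G) * D.Nn p (sp F) = D.Nn p (sp F) := (Nn_le_iff hp).2 (sp_le_sp.2 h)

theorem Nn_mul' (hp : D.base.St p) {F G : Set I} (h : F ⊆ G) :
    D.Nn p (sp F) * D.Nn p (sp G) = D.Nn p (sp F) := (Nn_op hp _).comm (Nn_op hp _) (Nn_mul hp h)

theorem Nn_orth (hp : D.base.St p) {F G : Set I} (h : ∀ i ∈ F, ∀ j ∈ G, ¬ D.cc i j) :
    D.Nn p (sp F) * D.Nn p (sp G) = 0 := by
  refine (Nn_prj p _).mul_eq_zero (Nn_prj p _) ?_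
  rintro _ ⟨u, hu, rfl⟩ _ ⟨v, hv, rfl⟩
  have e : (D.Xp p)ᴴ * D.Xp p = (D.Xi p * (D.Xi p)ᴴ)⁻¹ := by
    rw [Xp, pinv, conjTranspose_mul, conjTranspose_conjTranspose, Matrix.mul_assoc,
      ← Matrix.mul_assoc (D.Xi p), mul_nonsing_inv _ (Xi_gram hp), Matrix.mul_one,
      conjTranspose_nonsing_inv, conjTranspose_mul, conjTranspose_conjTranspose]
  rw [toLin'_apply, toLin'_apply, star_mulVec, ← dotProduct_mulVec, mulVec_mulVec, e]
  refine Finset.sum_eq_zero fun i _ => ?_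
  by_cases hi : i ∈ F
  · refine mul_eq_zero_of_right _ (Finset.sum_eq_zero fun j _ => ?_)
    by_cases hj : j ∈ G
    · exact mul_eq_zero_of_left (inv_mem_Lie (D := D.base) (fun _ _ => Xi_blk p) i j (h i hi j hj)) _
    · exact mul_eq_zero_of_right _ (mem_sp.1 hv j hj)
  · simp [mem_sp.1 hu i hi]

theorem PG_act (hg : g ∈ D.P) (p : Pt I D.m) (a : I) : D.PG (act g p) a = D.PG p a := by
  rw [PG, PG, Nn_sp_act hg p, Nn_sp_act hg p]
  exacts [fun i j e h => ⟨e.trans' h.1, fun c => h.2 (c.trans' e)⟩, fun i j e h => e.trans' h]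

theorem PG_op (hp : D.base.St p) (a : I) : OP (D.rk a) (D.PG p a) := by
  classical
  refine OP.sub ?_ (Nn_op hp _) (Nn_mul hp fun _ h => h.1)
  refine (congrArg (OP · _) ?_).mpr (Nn_op hp (sp {j | D.gp j a}))
  rw [show {j | D.gp j a} = ↑(Finset.univ.filter fun j => D.gp j a) by simp,
    show {j | D.gp j a ∧ ¬ D.gp a j} =
      ↑((Finset.univ.filter fun j => D.gp j a).filter fun j => ¬ D.gp a j) by ext; simp,
    finrank_sp, finrank_sp, add_comm, ← Finset.card_filter_add_card_filter_not (D.gp a)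
      (s := Finset.univ.filter fun j => D.gp j a), rk, Nat.card_eq_fintype_card,
    Fintype.card_subtype]
  congr 2
  ext j
  simp only [Finset.mem_filter, Finset.mem_univ, true_and]
  exact and_comm

theorem PG_eq (p : Pt I D.m) {a b : I} (h : D.cl a b) : D.PG p a = D.PG p b := by
  have e : ∀ j, D.gp j a ↔ D.gp j b := fun j => ⟨fun c => c.trans' h.1, fun c => c.trans' h.2⟩
  have e' : ∀ j, D.gp a j ↔ D.gp b j := fun j => ⟨h.2.trans', h.1.trans'⟩
  simp only [PG, e, e']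

theorem Nn_PG (hp : D.base.St p) {a : I} {F : Set I} (h : ∀ j, D.gp j a → j ∈ F) :
    D.Nn p (sp F) * D.PG p a = D.PG p a := by
  rw [PG, mul_sub, Nn_mul hp, Nn_mul hp]
  exacts [fun j e => h j e.1, h]

theorem Nn_PG_lt (hp : D.base.St p) {a : I} {F : Set I} (h : ∀ j ∈ F, D.gp j a ∧ ¬ D.gp a j) :
    D.Nn p (sp F) * D.PG p a = 0 := by
  rw [PG, mul_sub, Nn_mul' hp, Nn_mul' hp, sub_self]
  exacts [h, fun j e => (h j e).1]

theorem Nn_PG_ne (hp : D.base.St p) {a : I} {F : Set I} (h : ∀ j ∈ F, ¬ D.cc j a) :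
    D.Nn p (sp F) * D.PG p a = 0 := by
  rw [PG, mul_sub, Nn_orth hp, Nn_orth hp, sub_self]
  exacts [fun i hi j hj e => h i hi (e.trans' hj.1.to_cc),
    fun i hi j hj e => h i hi (e.trans' (gp.to_cc hj))]

theorem PG_orth (hp : D.base.St p) {a b : I} (h : ¬ D.cl a b) : D.PG p a * D.PG p b = 0 := by
  have key : ∀ a b, D.gp a b → ¬ D.gp b a → D.PG p a * D.PG p b = 0 := fun a b h h' => by
    have s : ∀ j, D.gp j a → D.gp j b ∧ ¬ D.gp b j := fun j e =>
      ⟨e.trans' h, fun c => h' (c.trans' e)⟩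
    rw [PG.eq_1 D p a, sub_mul, Nn_PG_lt hp, Nn_PG_lt hp, sub_self]
    exacts [fun j e => s j e.1, s]
  by_cases c : D.cc a b
  · rcases D.tot a b c.1 c.2 with e | e
    · exact key a b ⟨c.1, e⟩ fun e' => h ⟨⟨c.1, e⟩, e'⟩
    · exact (PG_op hp b).comm0 (PG_op hp a) (key b a ⟨c.1.symm, e⟩ fun e' => h ⟨e', c.1.symm, e⟩)
  · rw [PG.eq_1 D p a, sub_mul, Nn_PG_ne hp, Nn_PG_ne hp, sub_self]
    exacts [fun j e e' => c (e.1.to_cc.symm'.trans' e'),
      fun j e e' => c ((gp.to_cc e).symm'.trans' e')]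

theorem Xi_Nn_mem (hp : D.base.St p) (U : Submodule ℂ (I → ℂ)) (w : D.Mu → ℂ) :
    D.Xi p *ᵥ D.Nn p U *ᵥ w ∈ U := by
  obtain ⟨u, hu, e⟩ := (Nn_prj p U).mulVec_mem w
  rwa [← e, toLin'_apply, mulVec_mulVec, Xi_Xp hp, one_mulVec]

theorem Nn_Xp (p : Pt I D.m) {u : I → ℂ} (hu : u ∈ U) : D.Nn p U *ᵥ D.Xp p *ᵥ u = D.Xp p *ᵥ u :=
  ((Nn_prj p U).fix _).1 ⟨u, hu, rfl⟩

theorem PG_tri (hp : D.base.St p) {a j k : I} (h : (D.Xi p * D.PG p a * D.Xp p) j k ≠ 0) :
    D.gp j a ∧ D.gp a k := by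
  have e : (D.Xi p * D.PG p a * D.Xp p) j k =
      (D.Xi p *ᵥ D.PG p a *ᵥ D.Xp p *ᵥ Pi.single k 1) j := by
    rw [mulVec_mulVec, mulVec_mulVec, mulVec_single_one]; rfl
  rw [e] at h
  refine ⟨by_contra fun c => h ?_, by_contra fun c => h ?_⟩
  · rw [PG, sub_mulVec, mulVec_sub, Pi.sub_apply, mem_sp.1 (Xi_Nn_mem hp _ _) j c,
      mem_sp.1 (Xi_Nn_mem hp _ _) j fun c' => c c'.1, sub_self]
  · rw [← Nn_Xp (U := sp {k}) p (mem_sp.2 fun i hi => Pi.single_eq_of_ne hi _),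
      mulVec_mulVec _ (D.PG p a), (Nn_op hp _).comm0 (PG_op hp a), zero_mulVec, mulVec_zero,
      Pi.zero_apply]
    by_cases c' : D.cc k a
    · exact Nn_PG_lt hp fun j e => e ▸
        ⟨⟨c'.1, (D.tot k a c'.1 c'.2).resolve_right fun e => c ⟨c'.1.symm, e⟩⟩, c⟩
    · exact Nn_PG_ne hp fun j e => e ▸ c'

theorem rk_hat (hD : D.Hat) (a : I) : D.rk a = 1 :=
  Nat.card_eq_one_iff_exists.2 ⟨⟨a, D.gp_rfl a, D.gp_rfl a⟩, fun b => Subtype.ext (hD _ _ b.2).symm⟩

theorem PG_sum (hD : D.Hat) (hp : D.base.St p) {F : Finset I}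
    (hF : ∀ i j, D.gp i j → j ∈ F → i ∈ F) : ∑ a ∈ F, D.PG p a = D.Nn p (sp F) := by
  refine (OP.eq_of_le (finrank_sp F ▸ Nn_op hp (sp F)) (OP.sum F (fun a _ => rk_hat hD a ▸ PG_op hp a)
    fun a _ b _ e => PG_orth hp fun c => e (hD _ _ c)) ?_).symm
  rw [Finset.mul_sum]
  exact Finset.sum_congr rfl fun a ha => Nn_PG hp fun j e => hF j a e ha

theorem PG_diag (hD : D.Hat) (hp : D.base.St p) (a : I) :
    (D.Xi p * D.PG p a * D.Xp p) a a = 1 := by
  have : (D.Xi p * D.PG p a * D.Xp p).trace = 1 := by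
    rw [trace_mul_comm, ← Matrix.mul_assoc, ← Nn_top hp, ← sp_univ, Nn_PG hp fun _ _ => mem_univ _,
      (PG_op hp a).tr, rk_hat hD, Nat.cast_one]
  rw [← this]
  exact (Finset.sum_eq_single (f := fun j => (D.Xi p * D.PG p a * D.Xp p) j j) a
    (fun j _ e => by_contra fun c => e (hD _ _ (PG_tri hp c))) (by simp)).symm

theorem PG_frm (hD : D.Hat) (hp : D.base.St p) : Frm D.gp (D.PG p) (D.Xp p) (D.Xi p) where
  BA := Xi_Xp hp
  AB := by rw [PG_sum hD hp fun _ _ _ _ => Finset.mem_univ _, Finset.coe_univ, sp_univ, Nn_top hp]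
  idem a := (PG_op hp a).idem
  orth _ _ e := PG_orth hp fun c => e (hD _ _ c)
  tri _ _ _ := PG_tri hp

end Dat

end Pool.Agent.CS
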