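import Pool.Agent.K.MP_d34769_ag.C88
import Pool.Agent.K.MP_d34769_ag.C43
import Pool.Agent.K.MP_d34769_ag.C45
import Pool.Agent.K.MP_d34769_ag.C89
import Pool.Agent.K.MP_d34769_ag.C56

/-! Polynomials in the classes of the tautological lines. -/

open MvPolynomial Function Matrix

noncomputable section
namespace Pool.Agent.CS

section lines
variable {X X' B μ ν K : Type} [TopologicalSpace X] [TopologicalSpace X'] [TopologicalSpace B]
  [Fintype μ] [Fintype ν]

/-- evaluation at the classes of lines -/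
def evL (l : K → Bun X μ 1) : MvPolynomial K ℂ →ₐ[ℂ] HR X := ev fun a => (l a).x

theorem pull_evL (g : C(X', X)) (l : K → Bun X μ 1) (φ : MvPolynomial K ℂ) :
    HR.pull g (evL l φ) = evL (fun a => (l a).comap g) φ := by
  simp only [evL, pull_ev, Bun.pull_x]

theorem evL_mem_hr (l : K → Bun X μ 1) {φ : MvPolynomial K ℂ} {p : ℕ} (h : φ.IsHomogeneous p) :
    evL l φ ∈ hr X (2 * p) := ev_mem_hr (fun a => (l a).x_mem) h

theorem hp_evL (l : K → Bun X μ 1) (φ : MvPolynomial K ℂ) (p : ℕ) :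
    hp X (2 * p) (evL l φ) = evL l (homogeneousComponent p φ) := hp_ev (fun a => (l a).x_mem) φ p

variable [CompactSpace X] [T2Space B] {π : C(X, B)} {π' : C(X', B)} {Λ : LD B μ K}
  {l : K → Bun X μ 1} {l' : K → Bun X' μ 1} {φ : MvPolynomial K ℂ} {c : HR B}

theorem IsLn.ev_of (h : IsLn π Λ l) (h' : IsLn π' Λ l') (e : evL l φ = HR.pull π c) :
    evL l' φ = HR.pull π' c := by
  obtain ⟨F, h1, h2⟩ := h.exists_lift π' l' h'.le h'.orth
  rw [← h1, ← HR.pull_pull, ← e, pull_evL, funext h2]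

theorem IsLn.ev_rename (h : IsLn π Λ l) {w : Equiv.Perm K} (hw : ∀ i, Λ.cl (w i) i)
    (e : evL l φ = HR.pull π c) : evL l (rename w φ) = HR.pull π c := by
  obtain ⟨F, h1, h2⟩ := h.exists_lift π (fun a => l (w a))
    (fun a y => by rw [← Λ.eq _ _ (hw a)]; exact h.le _ y) fun a b n e => h.orth _ _
      (w.injective.ne n) (Λ.eqv.3 (hw a) (Λ.eqv.3 e (Λ.eqv.2 (hw b))))
  rw [← h1, ← HR.pull_pull, ← e, pull_evL, funext h2]
  exact CS.ev_rename _ _ _

omit [T2Space B] in
/-- maps of lines without a common zero -/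
theorem van2 [T2Space X] {τ : Type} (s : Finset τ) (L : τ → Bun X μ 1) (L' : τ → Bun X ν 1)
    {A : τ → X → Matrix ν μ ℂ} (hA : ∀ t, Continuous (A t))
    (h : ∀ x, ∃ t ∈ s, (L' t).Q x * A t x * (L t).Q x ≠ 0) :
    ∏ t ∈ s, ((L' t).x - (L t).x) = 0 :=
  supp_fin s (fun t => {x | (L' t).Q x * A t x * (L t).Q x ≠ 0}) (fun t _ => isOpen_ne_fun
    (((L' t).cont.matrix_mul (hA t)).matrix_mul (L t).cont) continuous_const) h _
    fun t _ _ _ hK => (L t).res_x_iso (L' t) (hA t) hK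

end lines

variable {I I' : Type} [Fintype I] [DecidableEq I] [Fintype I'] [DecidableEq I']

/-- a numbering of the indices -/
def o0 (I : Type) [Fintype I] (i : I) : ℕ := Fintype.equivFin I i

omit [DecidableEq I] in
theorem o0_inj : Injective (o0 I) := fun _ _ e => (Fintype.equivFin I).injective (Fin.ext e)

namespace Dat
variable {D : Dat I} {D' : Dat I'} {o o' : I → ℕ} {φ : MvPolynomial I ℂ}

/-- evaluation at the tautological lines -/
def evH (hD : D.Hat) : MvPolynomial I ℂ →ₐ[ℂ] HR D.XS := evL (ell hD)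

/-- evaluation on the flag bundle -/
abbrev evO (D : Dat I) (ho : Injective o) : MvPolynomial I ℂ →ₐ[ℂ] HR (D.hat o).XS :=
  evH (D.hat_Hat ho)

/-- the relations between the tautological classes -/
def Kr (D : Dat I) : Ideal (MvPolynomial I ℂ) := RingHom.ker (D.evO o0_inj)

theorem evO_of (ho : Injective o) (ho' : Injective o') {c : HR D.XS}
    (e : D.evO ho φ = HR.pull (D.hatMor o).mc c) : D.evO ho' φ = HR.pull (D.hatMor o').mc c :=
  (D.isLn ho).ev_of (D.isLn ho') e

theorem evO_rename (ho : Injective o) {c : HR D.XS} {w : Equiv.Perm I} (hw : w ∈ D.W)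
    (e : D.evO ho φ = HR.pull (D.hatMor o).mc c) :
    D.evO ho (rename w φ) = HR.pull (D.hatMor o).mc c := (D.isLn ho).ev_rename hw e

theorem mem_Kr (ho : Injective o) : φ ∈ D.Kr ↔ D.evO ho φ = 0 :=
  ⟨fun e => (evO_of o0_inj ho (e.trans (map_zero _).symm)).trans (map_zero _),
    fun e => (evO_of ho o0_inj (e.trans (map_zero _).symm)).trans (map_zero _)⟩

theorem ker_evO (ho : Injective o) : RingHom.ker (D.evO ho) = D.Kr :=
  Ideal.ext fun _ => (mem_Kr ho).symm

theorem Kr_rename {w : Equiv.Perm I} (hw : w ∈ D.W) (h : φ ∈ D.Kr) : rename w φ ∈ D.Kr :=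
  (evO_rename o0_inj hw (h.trans (map_zero _).symm)).trans (map_zero _)

theorem Mor.xmor (h : Mor D D') (hD : D.Hat) (hD' : D'.Hat) (φ : MvPolynomial I' ℂ) :
    HR.pull h.mc (evH hD' φ) = evH hD (rename h.w.symm φ) := by
  rw [evH, evH, pull_evL, evL, evL, ev_rename]
  congr 2
  funext i
  obtain ⟨j, rfl⟩ := h.w.surjective i
  rw [Function.comp_apply, Equiv.symm_apply_apply]
  exact Bun.x_iso _ _ h.xm_cont fun y => h.xm_ne hD hD' y j

theorem Mor.Kr (h : Mor D D') {φ : MvPolynomial I' ℂ} (e : φ ∈ D'.Kr) :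
    rename h.w.symm φ ∈ D.Kr := by
  obtain ⟨o', ho', k, e1, -⟩ := h.exists_hat o0_inj
  rw [mem_Kr o0_inj, ← e1, ← k.xmor _ (D'.hat_Hat ho'), (mem_Kr ho').1 e, map_zero]

open Classical in
theorem eT_eq (D : Dat I) (F : Finset I) : D.eT F = ∏ t ∈ Finset.univ.filter
    (fun t : Fin 3 × I × I => t.2.1 ∈ F ∧ t.2.2 ∉ F ∧ D.ap t.1 t.2.2 t.2.1),
      (X t.2.2 - X t.2.1) := by
  simp only [eT, Finset.prod_filter, Fintype.prod_prod_type]
  refine Finset.prod_congr rfl fun a _ => ?_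
  rw [← Finset.prod_subset (Finset.subset_univ F) fun k _ hk => by simp [hk]]
  refine Finset.prod_congr rfl fun k hk => ?_
  rw [← Finset.prod_subset (Finset.subset_univ Fᶜ) fun l _ hl => by simp [by simpa using hl]]
  exact Finset.prod_congr rfl fun l hl => by simp [hk, Finset.mem_compl.1 hl]

/-- The Euler class vanishes where `F` does not span a subrepresentation. -/
theorem pull_eT {Y : Type} [TopologicalSpace Y] [CompactSpace Y] [T2Space Y] (hD : D.Hat)
    {F : Finset I} (hF : ∀ i k, D.gp i k → k ∈ F → i ∈ F) (g : C(Y, D.XS))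
    (h : ∀ y p hp, g y = pt p hp → ¬ D.Sub p.1 (sp (F : Set I))) :
    HR.pull g (evH hD (D.eT F)) = 0 := by
  classical
  have := van2 (Finset.univ.filter
    fun t : Fin 3 × I × I => t.2.1 ∈ F ∧ t.2.2 ∉ F ∧ D.ap t.1 t.2.2 t.2.1)
    (fun t => (ell hD t.2.1).comap g) (fun t => (ell hD t.2.2).comap g)
    (fun t => (rt_cont t.1).comp g.continuous) fun y => by
      obtain ⟨p, hp, e⟩ := exists_pt (g y)
      by_contra! c
      refine h y p hp e.symm (sub_sp.2 fun a i k hi hk => ent_zero (ell_frm hD hp) hF hp.mem a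
        (fun k hk i hi r => ?_) hk hi)
      rw [← rt_pt hp, e]
      exact c (a, k, i) (by simp [hk, hi, r])
  rw [evH, pull_evL, eT_eq, evL, ev, AlgHom.comp_apply, map_prod]
  simp only [map_sub, aeval_X]
  rw [this, map_zero]

/-- VANJ -/
theorem eT_mem {F : Finset I} (hF : ∀ i k, D.gp i k → k ∈ F → i ∉ F → D.gp k i)
    (h0 : 0 < D.tw D.th F) : D.eT F ∈ D.Kr := by
  obtain ⟨o, ho, h⟩ := D.exists_hat_first F hF
  rw [mem_Kr ho, ← HR.pull_id (D.evO ho _)]
  exact pull_eT (D := D.hat o) _ h _ fun _ p hp _ c =>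
    (hp.ss _ c).not_gt (by rw [wt_sp]; exact h0)

end Dat

end Pool.Agent.CS
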