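import Pool.Agent.K.MP_d34769_ag.C34
import Pool.Agent.K.MP_d34769_ag.C42
import Pool.Agent.K.MP_d34769_ag.C43
import Pool.Agent.P.MP_65ad7c_ag.QNi
import Pool.Agent.P.MP_65ad7c_ag.QNi2

/-! The top class of a projective manifold is supported in every nonempty open set; cube charts. -/

open Set Filter Topology
open Pool.Agent.HT
open Pool.Agent.HIR (Mf Pt)

noncomputable section
namespace Pool.Agent.CS

variable {M e m : ℕ} {X : Set (Amb M)}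

theorem cxB_YC5 {B T : Type} [TopologicalSpace B] [AddCommGroup T] [Module ℂ T] {S : SC B T}
    {K A : Set B} {n : ℤ} {x : T} (h : x ∈ (S.cx K A).B n) : x ∈ (S.cx K ∅).B n := by
  obtain ⟨b, hb, e⟩ := Cx.mem_B.1 h
  exact Cx.mem_B.2 ⟨b, ⟨hb.1, (SC.mem_zz _).2 fun _ h => h.elim⟩, e⟩

theorem stokes_YC5 (hX : Mf e X) {b : Fin m → Fin e → ℂ} {lam : Module.Dual ℂ (Om X m)}
    (hl : QN.IsLam X b lam) (c : OM X) : lam ((omGc X).d c m) = 0 := by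
  cases m with
  | zero => exact map_zero lam
  | succ m => exact hl.stokes (mf_geo hX) (c m)

/-- ORI -/
theorem ori (hX : Mf e X) [CompactSpace X] {G : Set X} (hG : IsOpen G) {x : X} (hx : x ∈ G) :
    ∃ a ∈ (CP univ Gᶜ).Z (2 * e : ℕ), a ∉ (CC X).B (2 * e : ℕ) := by
  have hC := hG.isClosed_compl
  obtain ⟨G0, hG0, rfl⟩ := isOpen_induced_iff.1 hG
  obtain ⟨b, -⟩ := QN.exists_fr e
  obtain ⟨lam, hl⟩ := QN.exists_lam (mf_geo hX) b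
  obtain ⟨α, hα, h0⟩ := hl.ne (mf_geo hX) x.2 hG0 hx
  obtain ⟨a, rfl⟩ := Om.mk_surj α
  obtain ⟨K, hK, hKG, ha⟩ := mem_Ac.1 hα
  have hc : (Pi.single (2 * e) (Om.mk X a) : OM X) ∈
      (omCx X univ (Subtype.val ⁻¹' G0)ᶜ).Z (2 * e : ℕ) := by
    refine ⟨⟨single_mem_G _, (SC.mem_zz _).2 fun t ht => single_mem_omz.2
      ⟨Kᶜ, hK.isClosed.isOpen_compl, fun h => ht (hKG h).2, ha⟩⟩, ?_⟩
    change (omGc X).d _ ∈ (omLoc X).sc.zz univ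
    rw [om_d_single, top_zero (mf_snc hX) (Nat.lt_succ_self _) (Om.d X _ _), Pi.single_zero]
    exact zero_mem _
  obtain ⟨u, hu, h1⟩ := (Loc.ι_qia (om_poin hX) isClosed_univ hC).sur _ _
    ((om_κ_mor _ _).mem_Z hc)
  refine ⟨u, hu, fun h2 => h0 ?_⟩
  have h3 := add_mem (cxB_YC5 h1) ((om_ι_mor univ ∅).mem_B (CP_Z_CC hu).1 h2)
  rw [sub_add_cancel] at h3
  obtain ⟨w, -, h4⟩ := Cx.mem_B.1 (((omLoc X).κ_qia isClosed_univ isClosed_empty).inj _ _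
    ⟨⟨hc.1.1, (SC.mem_zz _).2 fun _ h => h.elim⟩, hc.2⟩ h3)
  have h5 := congrFun (sub_eq_zero.1 ((om_zz_univ X).le h4)) (2 * e)
  rw [Pi.single_eq_same] at h5
  exact h5 ▸ stokes_YC5 hX hl w

theorem ori_cl (hX : Mf e X) [CompactSpace X] {G : Set X} (hG : IsOpen G) {x : X} (hx : x ∈ G) :
    ∃ a ∈ (CP univ Gᶜ).Z (2 * e : ℕ), cl a ≠ 0 := by
  obtain ⟨a, ha, h⟩ := ori hX hG hx
  exact ⟨a, ha, fun h0 => h ((cl_eq_zero (CP_Z_CC ha)).1 h0)⟩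

/-- a small closed ball of a chart, for any norm -/
theorem ball_chart {φ : (Fin e → ℂ) → Amb M} {z : Fin e → ℂ} {x : Amb M} (h : Pt X φ z x)
    {W : Type} [NormedAddCommGroup W] [NormedSpace ℝ W] (L : W ≃L[ℝ] (Fin e → ℂ))
    {U : Set (Fin e → ℂ)} (hU : U ∈ 𝓝 z) :
    ∃ r : ℝ, 0 < r ∧ ∃ κ : C(Metric.closedBall (0 : W) 1, X),
      (∀ v, z + r • L v.1 ∈ U ∧ (κ v).1 = φ (z + r • L v.1)) ∧ Function.Injective κ ∧
        IsOpen (κ '' {v | ‖v.1‖ < 1}) := by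
  obtain ⟨O, g, hc, rfl, hz, -⟩ := h
  have h1 : (fun v => z + L v) ⁻¹' (O ∩ U) ∈ 𝓝 (0 : W) :=
    (continuous_const.add L.continuous).continuousAt.preimage_mem_nhds
      (by simpa using ⟨hc.isOpen.mem_nhds hz, hU⟩)
  obtain ⟨r, hr, h2⟩ := Metric.nhds_basis_closedBall.mem_iff.1 h1
  have h3 : ∀ v ∈ Metric.closedBall (0 : W) 1, z + r • L v ∈ O ∩ U := fun v hv => by
    rw [← map_smul]
    refine h2 (mem_closedBall_zero_iff.2 ?_)
    rw [norm_smul, Real.norm_of_nonneg hr.le]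
    exact mul_le_of_le_one_right hr.le (mem_closedBall_zero_iff.1 hv)
  have h4 : ∀ w ∈ O, Pt X (proj ∘ g) w (proj (g w)) := fun w hw => ⟨O, g, hc, rfl, hw, rfl⟩
  let ψ : W ≃ₜ (Fin e → ℂ) :=
    (L.toHomeomorph.trans (Homeomorph.smulOfNeZero r hr.ne')).trans (Homeomorph.addLeft z)
  have h5 : Continuous fun v : Metric.closedBall (0 : W) 1 => (proj ∘ g) (ψ v.1) :=
    ContinuousOn.comp_continuous (g := proj ∘ g) (s := O) (fun w hw =>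
      ContinuousAt.continuousWithinAt (h4 w hw).cont) (ψ.continuous.comp continuous_subtype_val)
      fun v => (h3 v.1 v.2).1
  refine ⟨r, hr, ⟨fun v => ⟨_, (h4 _ (h3 v.1 v.2).1).mem⟩, h5.subtype_mk _⟩,
    fun v => ⟨(h3 v.1 v.2).2, rfl⟩, fun v w h => Subtype.ext (ψ.injective
      (hc.inj (h3 v.1 v.2).1 (h3 w.1 w.2).1 (congrArg Subtype.val h))), ?_⟩
  obtain ⟨V, hV, h6⟩ := hc.opn (ψ '' Metric.ball 0 1)
    (by rintro _ ⟨v, hv, rfl⟩; exact (h3 v (Metric.ball_subset_closedBall hv)).1)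
    (ψ.isOpenMap _ Metric.isOpen_ball)
  refine isOpen_induced_iff.2 ⟨V, hV, Subset.antisymm (fun y hy => ?_) ?_⟩
  · obtain ⟨_, ⟨v, hv, rfl⟩, h7⟩ := h6.ge ⟨y.2, hy⟩
    exact ⟨⟨v, Metric.ball_subset_closedBall hv⟩, mem_ball_zero_iff.1 hv, Subtype.ext h7⟩
  · rintro _ ⟨v, hv, rfl⟩
    exact (h6.le ⟨_, ⟨v.1, mem_ball_zero_iff.2 hv, rfl⟩, rfl⟩).2

end Pool.Agent.CS
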