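import Pool.Agent.K.MP_d34769_ag.C92
import Pool.Agent.K.MP_d34769_ag.C96

/-! Invariant polynomials as classes on the space of orbits. -/

open MvPolynomial Function

noncomputable section
namespace Pool.Agent.CS.Dat

variable {I I' : Type} [Fintype I] [DecidableEq I] [Fintype I'] [DecidableEq I'] {D : Dat I}
  {D' : Dat I'} {o : I → ℕ} {φ ψ : MvPolynomial I ℂ} {p : ℕ}

theorem hat_pinj (D : Dat I) (ho : Injective o) : Injective (HR.pull (D.hatMor o).mc) :=
  (D.isLn ho).g_inj fun _ => le_rfl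

theorem exists_evD (D : Dat I) (φ : MvPolynomial I ℂ) :
    ∃ c, D.evO o0_inj (D.avg φ) = HR.pull (D.hatMor (o0 I)).mc c :=
  (D.isLn o0_inj).g_desc (fun _ => rfl) (D.avg_inv φ)

/-- the class of an invariant polynomial -/
def evD (D : Dat I) : MvPolynomial I ℂ →ₗ[ℂ] HR D.XS where
  toFun φ := (D.exists_evD φ).choose
  map_add' φ ψ := D.hat_pinj o0_inj (by
    rw [← (D.exists_evD _).choose_spec, map_add (HR.pull _), ← (D.exists_evD _).choose_spec,
      ← (D.exists_evD _).choose_spec, map_add, map_add])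
  map_smul' a φ := D.hat_pinj o0_inj (by
    rw [← (D.exists_evD _).choose_spec, map_smul (HR.pull _), ← (D.exists_evD _).choose_spec,
      map_smul, map_smul]
    rfl)

theorem evD_avg (ho : Injective o) (φ : MvPolynomial I ℂ) :
    HR.pull (D.hatMor o).mc (D.evD φ) = D.evO ho (D.avg φ) :=
  (evO_of o0_inj ho (D.exists_evD φ).choose_spec).symm

theorem evD_spec (ho : Injective o) (h : D.Inv φ) :
    HR.pull (D.hatMor o).mc (D.evD φ) = D.evO ho φ := by rw [evD_avg ho, h.avg]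

theorem evD_mor (h : Mor D D') {φ : MvPolynomial I' ℂ} (hφ : D'.Inv φ) :
    HR.pull h.mc (D'.evD φ) = D.evD (rename h.w.symm φ) := by
  obtain ⟨o', ho', k, e1, e2⟩ := h.exists_hat o0_inj
  refine D.hat_pinj o0_inj ?_
  rw [evD_spec o0_inj (h.inv hφ), HR.pull_pull, ← Mor.mc_comp, ← e2, Mor.mc_comp, ← HR.pull_pull,
    evD_spec ho' hφ, k.xmor, e1]

theorem evD_mul (h : D.Inv φ) (h' : D.Inv ψ) : D.evD (φ * ψ) = D.evD φ * D.evD ψ :=
  D.hat_pinj o0_inj (by simp only [map_mul, evD_spec o0_inj, h, h', h.mul h'])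

theorem evD_one : D.evD 1 = 1 := D.hat_pinj o0_inj (by simp only [map_one, evD_spec o0_inj D.inv_one])

theorem evD_gr (h : φ.IsHomogeneous p) : D.evD φ ∈ hr D.XS (2 * p) :=
  mem_hr.2 fun m hm => D.hat_pinj o0_inj (by
    rw [← hp_pull, evD_avg o0_inj, map_zero]
    exact mem_hr.1 (evL_mem_hr _ (D.avg_hom h)) m hm)

theorem evD_surj {c : HR D.XS} (h : c ∈ hr D.XS (2 * p)) :
    ∃ φ, D.Inv φ ∧ φ.IsHomogeneous p ∧ D.evD φ = c := by
  obtain ⟨ψ, e⟩ := evH_surj (D.hat_Hat o0_inj) (HR.pull (D.hatMor (o0 I)).mc c)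
  have e1 : D.evO o0_inj (homogeneousComponent p ψ) = HR.pull (D.hatMor (o0 I)).mc c := by
    rw [← mem_hr_nat.1 (show c ∈ hr D.XS (2 * p : ℕ) by exact_mod_cast h), ← hp_pull, ← e]
    exact (hp_evL _ _ _).symm
  refine ⟨_, D.avg_inv (homogeneousComponent p ψ),
    D.avg_hom (homogeneousComponent_isHomogeneous p ψ), D.hat_pinj o0_inj ?_⟩
  rw [evD_spec o0_inj (D.avg_inv _)]
  simp only [avg, LinearMap.smul_apply, LinearMap.sum_apply, AlgHom.toLinearMap_apply, map_smul,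
    map_sum, fun w : D.W => evO_rename o0_inj w.2 e1, Finset.sum_const, Finset.card_univ]
  rw [← Nat.cast_smul_eq_nsmul ℂ, smul_smul, inv_mul_cancel₀ (by simp), one_smul]

theorem hr_odd (D : Dat I) {n : ℕ} (h : Odd n) : hr D.XS n = ⊥ :=
  (Submodule.eq_bot_iff _).2 fun c hc => D.hat_pinj o0_inj (by
    obtain ⟨ψ, e⟩ := evH_surj (D.hat_Hat o0_inj) (HR.pull (D.hatMor (o0 I)).mc c)
    rw [← mem_hr_nat.1 hc, ← hp_pull, ← e, map_zero]
    exact ev_mem_HE _ _ n h)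

theorem evD_eq_zero (h : D.Inv φ) : D.evD φ = 0 ↔ φ ∈ D.Kr := by
  rw [mem_Kr o0_inj, ← evD_spec o0_inj h, map_eq_zero_iff _ (D.hat_pinj o0_inj)]

theorem Kr_sp (D : Dat I) (ho : Injective o) (c : MvPolynomial I ℂ) :
    c ∈ D.Kr.restrictScalars ℂ ⊔ Submodule.span ℂ {x | ∃ k j ψ t, j ≤ D.del o ∧
      (∀ w ∈ D.W, rename w ψ = ψ) ∧ IsHomogeneous ψ k ∧ IsHomogeneous t j ∧ x = ψ * t} := by
  obtain ⟨s, hs, e⟩ : D.evO ho c ∈ Submodule.map (D.evO ho).toLinearMap (Submodule.span ℂ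
      {x | ∃ k j ψ t, j ≤ D.del o ∧ (∀ w ∈ D.W, rename w ψ = ψ) ∧ IsHomogeneous ψ k ∧
        IsHomogeneous t j ∧ x = ψ * t}) := by
    refine Submodule.span_le.2 ?_ ((D.isLn ho).g_span (fun _ => rfl) ho (D.evO ho c))
    rintro _ ⟨u, j, t, h1, h2, rfl⟩
    rw [SetLike.mem_coe]
    induction u using hr_induction with
    | h0 => rw [map_zero, zero_mul]; exact zero_mem _
    | ha a b ha hb => simpa only [map_add, add_mul] using add_mem ha hb
    | h q a ha =>
      rcases Nat.even_or_odd' q with ⟨k, rfl | rfl⟩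
      · obtain ⟨ψ, a1, a2, rfl⟩ := evD_surj (p := k) (by exact_mod_cast ha)
        exact ⟨_, Submodule.subset_span ⟨k, j, ψ, t, h1, a1, a2, h2, rfl⟩, by
          rw [evD_spec ho a1]; exact map_mul (D.evO ho) _ _⟩
      · rw [D.hr_odd (odd_two_mul_add_one k)] at ha
        rw [show a = 0 from ha, map_zero, zero_mul]
        exact zero_mem _
  rw [← sub_add_cancel c s]
  exact Submodule.add_mem_sup ((mem_Kr ho).2 (by rw [map_sub, ← e]; exact sub_self _)) hs

theorem Kr_can (ho : Injective o) (h : D.Inv ψ) (e : D.dis o * ψ ∈ D.Kr) : ψ ∈ D.Kr := by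
  rw [mem_Kr ho, map_mul, ← evD_spec ho h] at e
  exact (evD_eq_zero h).1 ((D.isLn ho).g_can (fun _ => rfl) ho e)

end Pool.Agent.CS.Dat
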