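import Pool.Agent.K.MP_d34769_ag.C114
import Pool.Agent.K.MP_d34769_ag.C126
import Pool.Agent.K.MP_d34769_ag.C100
import Pool.Agent.K.MP_d34769_ag.C113
import Pool.Agent.K.MP_d34769_ag.C101
import Pool.Agent.K.MP_d34769_ag.C88
import Pool.Agent.K.MP_d34769_ag.C60
import Pool.Agent.K.MP_d34769_ag.C84
import Mathlib
import Pool.Agent.K.MP_d34769_ag.C123
import Pool.Agent.K.MP_d34769_ag.C119
import Pool.Agent.K.MP_d34769_ag.C106
import Pool.Agent.K.MP_d34769_ag.C107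
import Pool.Agent.K.MP_d34769_ag.C37
import Pool.Agent.K.MP_d34769_ag.C27
import Pool.Agent.K.MP_d34769_ag.C62
import Pool.Agent.K.MP_d34769_ag.C49
import Pool.Agent.K.MP_d34769_ag.C97
import Pool.Agent.K.MP_d34769_ag.C71

-- part Pool.Agent.P.MP_d34769_ag.YHC4
section

/-! Fundamental sets of one-column diagrams, shapes of words. -/

open Set

set_option linter.unusedSectionVars false

noncomputable section
namespace Pool.Agent.CS
open Pool.Agent.P.MP_d34769_ag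

variable {Γ F I : Type} [Group Γ] [Fintype Γ] [TopologicalSpace F] [CompactSpace F] [T2Space F]
  [Fintype I] [DecidableEq I] {S S' : Sh}

namespace Dg
variable {P : Dg S} {Q : Dg S'} {φ : ShH S S'} {τ : S.ι → S'.ι}

theorem Hom.map_gr (f : Hom φ P Q) (hμ : ∀ l i, φ.μ l i ≠ 0 ↔ τ l = i) (c : Q.T) {l : S.ι}
    {i : S'.ι} (e : τ l = i) (r : φ.R l i) :
    f.map c l = (φ.μ l i : ℂ) • AS.pull (f.g r) (c i) := by
  subst e
  exact (f.cov hμ).eq (l := l) rfl c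

/-- restriction to a fundamental set is injective on invariant cohomology -/
theorem Act.orb_inj {ι : Type} [Fintype ι] {p : ℕ} {P : Dg (Sh.one ι p)} (G : Act P Γ) {K : P.Fam}
    (iK : G.Inv K) {l₀ : (Sh.one ι p).ι} (ξ : C(F, P.X l₀)) (hξ : Function.Injective ξ)
    [Nonempty F] (hm : ∀ x, ξ x ∈ K.A l₀)
    (cov : ∀ l, ∀ z ∈ K.A l, ∃ g, ∃ e : G.a g l = l₀, G.t g e z ∈ range ξ)
    (dis : ∀ g (e : G.a g l₀ = l₀) x, G.t g e (ξ x) ∈ range ξ → ∀ y, G.t g e (ξ y) ∈ range ξ)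
    (n : ℤ) : (G.bc iK G.inv_bot).cx.Inj (CC F)
      (AS.pl ξ ∘ₗ LinearMap.proj (φ := fun i => AS (P.X i)) l₀) (-p) n := by
  have hF : G.pact.Fund (fun i => (Sh.one ι p).deg i = p) K.A (range ξ) :=
    ⟨rfl, (isCompact_range ξ.continuous).isClosed, range_nonempty _, range_subset_iff.2 hm,
      fun l _ => cov l, fun g e => (em (∃ x, G.t g e (ξ x) ∈ range ξ)).imp
        (fun ⟨x, hx⟩ => forall_mem_range.2 (dis g e x hx))
        fun h => forall_mem_range.2 fun x hx => h ⟨x, hx⟩⟩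
  rw [Bc.Act.inv_cx]
  intro c hc hb
  have h1 := one_mem_Z.1 (⟨hc.1.1, hc.2⟩ : c ∈ (Dg.bc K ⊥).cx.Z n)
  refine (G.act iK G.inv_bot).cx.inj n c hc (one_mem_B.2 fun i => ?_)
  rw [add_zero]
  refine CPi.B_comp (Cx.Act.ya3_le _ (hF.inj (G.col_act iK G.inv_bot p)
    ⟨fun i => ⟨fun _ => (h1 i).1, fun h => (h rfl).elim⟩, hc.1.2⟩ ((taut_YO ξ hξ).inj _ _
      ⟨(h1 l₀).1, SC.zz_anti hF.sub (h1 l₀).2⟩ ?_))) i
  rw [add_zero, sub_eq_add_neg]
  exact hb

end Dg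

/-- the indices of `S` give words, and the differential is the coboundary of words -/
structure Wd (S : Sh) (u : S.ι → List (Finset I)) : Prop where
  part : ∀ l, Part (u l)
  deg : ∀ l, S.deg l = (u l).length - 1
  rel : ∀ {l l'}, S.rel l l' → ∀ i j, Ord (u l) i j → Ord (u l') i j
  cob : ∀ l (ψ : List (Finset I) → ℤ), cob (u l) ψ = ∑ l', S.ε l l' * ψ (u l')

variable {u : S.ι → List (Finset I)}

/-- the map from words to sets of ranks -/
def Wd.sh (h : Wd S u) : ShH S (Sh.simp (Fin (Fintype.card I))) where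
  R l R := R ⊆ rks (u l)
  μ l R := if rks (u l) = R then 1 else 0
  sup l R e := by
    obtain rfl : rks (u l) = R := by_contra fun c => e (if_neg c)
    exact ⟨Finset.Subset.refl _, (h.deg l).trans (rks_card (h.part l)).symm⟩
  l r e := e.trans (rks_anti (h.rel r))
  r e r := Finset.Subset.trans r e
  comm l R := (h.cob l fun w => if rks w = R then 1 else 0).symm.trans
    ((cob_rks (h.part l) fun R' => if R' = R then (1 : ℤ) else 0).trans (by simp))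

theorem Wd.mu (h : Wd S u) (l : S.ι) (R : (Sh.simp (Fin (Fintype.card I))).ι) :
    h.sh.μ l R ≠ 0 ↔ rks (u l) = R := by
  change (if _ then (1 : ℤ) else 0) ≠ 0 ↔ _
  split_ifs with e <;> simp [e]

theorem Wd.map (h : Wd S u) {P : Dg S} {Q : Dg (Sh.simp (Fin (Fintype.card I)))}
    (f : Dg.Hom h.sh P Q) (c : Q.T) (l : S.ι) (r : h.sh.R l (rks (u l))) :
    f.map c l = AS.pull (f.g r) (c (rks (u l))) := by
  rw [f.map_gr h.mu c rfl r]
  change (((if _ then (1 : ℤ) else 0 : ℤ)) : ℂ) • _ = _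
  rw [if_pos rfl, Int.cast_one, one_smul]

theorem wd_cox {K : Type} [Fintype K] [DecidableEq K] {s : I → K} (hs : Function.Surjective s) :
    Wd (coxSh K) fun π => π.1.map (pre s) :=
  ⟨fun π => π.2.pre hs, fun _ => congrArg (· - 1) (List.length_map _).symm,
    fun r _ _ e => ord_pre.2 (r _ _ (ord_pre.1 e)), fun π ψ => (cob_map _ (pre_union s) π.1 ψ).trans
      (@yhc2_cob K _ _ ℤ _ (_) π.1 π.2 fun w => ψ (w.map (pre s)))⟩

end Pool.Agent.CS
end
end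

-- part Pool.Agent.P.MP_d34769_ag.YHC6
section

/-! The poset of subrepresentations of weight zero over the space of framed representations. -/

open Set Matrix

set_option linter.unusedSectionVars false

noncomputable section
namespace Pool.Agent.CS

variable {I : Type} [Fintype I] [DecidableEq I]

namespace Dat
variable {D E : Dat I} {p q : Pt I D.m} {g : Matrix I I ℂ} {u v : List (Finset I)}
  {R R' : Finset (Fin (Fintype.card I))}

/-- one component and no flag -/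
def Top (D : Dat I) : Prop := ∀ i j, D.gl i j

theorem Top.cp (hD : D.Top) (i j : I) : D.cp i j := D.rl_cp (D.gl_rl (hD i j))

theorem Top.cc (hD : D.Top) {i j : I} : D.cc i j ↔ D.col i = D.col j :=
  ⟨And.left, fun h => ⟨h, hD.cp i j⟩⟩

theorem Top.mem_P (hD : D.Top) :
    g ∈ D.P ↔ (∀ i j, D.col i ≠ D.col j → g i j = 0) ∧ IsUnit g.det :=
  and_congr_left fun _ => forall₂_congr fun i j => imp_congr_left
    (not_congr ⟨And.left, fun h => ⟨h, hD i j⟩⟩)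

theorem Top.P_eq (hD : D.Top) : D.base.P = D.P := Set.ext fun _ =>
  (and_congr_left fun _ => forall₂_congr fun _ _ => imp_congr_left (not_congr hD.cc)).trans
    hD.mem_P.symm

theorem Top.R_eq (hD : D.Top) : D.base.R = D.R := Submodule.ext fun _ =>
  forall₃_congr fun _ i j => imp_congr_left (not_congr (and_congr_right fun _ =>
    and_congr_right fun _ => iff_of_true (hD.cp i j) (D.gl_rl (hD i j))))

theorem Top.st (hD : D.Top) : D.base.St p ↔ D.St p :=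
  ⟨fun h => st_base.2 ⟨hD.R_eq ▸ h.mem, h⟩, St.toBase⟩

variable (D) in
/-- points with a proper nonzero subrepresentation of weight zero -/
def QS : Set (D.XS × Matrix D.Mu D.Mu ℂ) :=
  {x | ∃ p hp U, D.A p.1 U ∧ U ≠ ⊥ ∧ U ≠ ⊤ ∧ x = (pt p hp, D.Nn p U)}

theorem yhc6_back (hg : IsUnit g.det) (U : Submodule ℂ (I → ℂ)) :
    (U.map g.mulVecLin).map g⁻¹.mulVecLin = U := by
  have h := mapinv_YE1 (isUnit_nonsing_inv_det g hg) U
  rwa [nonsing_inv_nonsing_inv g hg] at h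

theorem yhc6_nn (hg : g ∈ D.base.P) (p : Pt I D.m) (U : Submodule ℂ (I → ℂ)) :
    D.Nn (act g p) (U.map g.mulVecLin) = D.Nn p U := Nn_act hg p U

theorem yhc6_move (hg : g ∈ D.base.P) {U : Submodule ℂ (I → ℂ)} (h : D.A p.1 U) (h0 : U ≠ ⊥)
    (h1 : U ≠ ⊤) : D.A (act g p).1 (U.map g.mulVecLin) ∧ U.map g.mulVecLin ≠ ⊥ ∧
      U.map g.mulVecLin ≠ ⊤ := by
  refine ⟨(a_act hg).2 h, fun e => h0 ?_, fun e => h1 ?_⟩
  · rw [← yhc6_back hg.2 U, e, Submodule.map_bot]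
  · rw [← yhc6_back hg.2 U, e, maptop_YE1 (isUnit_nonsing_inv_det g hg.2)]

theorem yhc6_mem (hp : D.St p) {Q : Matrix D.Mu D.Mu ℂ} :
    (pt p hp, Q) ∈ D.QS ↔ ∃ U, D.A p.1 U ∧ U ≠ ⊥ ∧ U ≠ ⊤ ∧ Q = D.Nn p U := by
  refine ⟨?_, fun ⟨U, h, h0, h1, e⟩ => ⟨p, hp, U, h, h0, h1, by rw [e]⟩⟩
  rintro ⟨q, hq, U, h, h0, h1, e⟩
  obtain ⟨e1, rfl⟩ := Prod.mk.inj e
  obtain ⟨g, hg, rfl⟩ := (pt_eq_iff hq hp).1 e1.symm
  obtain ⟨a, b, c⟩ := yhc6_move (D.P_le hg) h h0 h1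
  exact ⟨_, a, b, c, (yhc6_nn (D.P_le hg) q U).symm⟩

theorem yhc6_K {k : Matrix I I ℂ} (hk : k ∈ unitaryGroup I ℂ) (h : ∀ i j, k i j ≠ 0 → D.cc i j) :
    k⁻¹ ∈ D.K := by
  rw [e6_inv hk]
  exact star_mem_K ⟨D.mem_base_Lie.2 fun i j c => by_contra fun e => c (h i j e), hk⟩

theorem QS_closed (hD : D.Top) : IsClosed D.QS := by
  obtain ⟨K, hK, hs, hX⟩ := D.exists_cpt
  let φ : Matrix I I ℂ × Pt I D.m → Pt I D.m := fun z =>
    (fun a => z.1 * z.2.1 a * z.1ᴴ, z.1 * z.2.2)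
  have cφ : Continuous φ := (continuous_pi fun a => (continuous_fst.matrix_mul
    ((continuous_apply a).comp continuous_snd.fst)).matrix_mul
      continuous_fst.matrix_conjTranspose).prodMk (continuous_fst.matrix_mul continuous_snd.snd)
  have eφ : ∀ k ∈ D.K, ∀ p, φ (k, p) = act k p := fun k hk p =>
    Prod.ext (actR_unitary hk.2 p.1).symm rfl
  let T : Finset I → Set (Pt I D.m) := fun F =>
    φ '' (D.K ×ˢ K) ∩ {p | Tri (fun i j => j ∈ F → i ∈ F) p.1}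
  have hT : ∀ F, IsCompact (T F) := fun F => ((D.isCompact_K.prod hK).image cφ).inter_right
    ((isClosed_tri _).preimage continuous_fst)
  have hst : ∀ F (y : T F), D.St y.1 := by
    rintro F ⟨_, ⟨⟨k, p⟩, hz, rfl⟩, -⟩
    change D.St (φ (k, p))
    rw [eφ k hz.1]
    exact (hs p hz.2).act (hD.P_eq ▸ D.K_le hz.1)
  have e : D.QS = ⋃ F ∈ {F : Finset I | D.wt D.th (sp (F : Set I)) = 0 ∧ sp (F : Set I) ≠ ⊥ ∧
      sp (F : Set I) ≠ ⊤}, range fun y : T F => (pt y.1 (hst F y), D.Nn y.1 (sp (F : Set I))) := by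
    refine Set.ext fun x => ⟨fun hx => ?_, fun hx => ?_⟩
    · obtain ⟨x, Q⟩ := x
      obtain ⟨p, hp, e⟩ : x.1 ∈ D.pt0 '' K := hX.ge x.2
      obtain rfl : pt p (hs p hp) = x := Subtype.ext e
      obtain ⟨U, h, h0, h1, rfl⟩ := (yhc6_mem (hs p hp)).1 hx
      obtain ⟨k, hk, hc, F, rfl⟩ := e4_sub D.cc_eq h.1.gr
      have hk' := yhc6_K hk hc
      obtain ⟨a, b, c⟩ := yhc6_move (D.K_le hk') h h0 h1
      have d := yhc6_nn (D.K_le hk') p ((sp (F : Set I)).map k.mulVecLin)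
      rw [yhc6_back (e4_unit_det hk)] at a b c d
      refine mem_iUnion₂.2 ⟨F, ⟨a.2, b, c⟩, ⟨act k⁻¹ p, ⟨(k⁻¹, p), ⟨hk', hp⟩, eφ _ hk' p⟩,
        fun x i j n => sub_sp.1 a.1 x i j (fun m => n fun _ => m) (by_contra fun m =>
          n fun l => absurd l m)⟩, Prod.ext (Subtype.ext ?_) d⟩
      exact pt0_act (hD.P_eq ▸ D.K_le hk') p
    · obtain ⟨F, hF, y, rfl⟩ := mem_iUnion₂.1 hx
      exact ⟨y.1, hst F y, _, ⟨sub_sp.2 fun a i j m l => y.2.2 a i j fun n => m (n l), hF.1⟩,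
        hF.2.1, hF.2.2, rfl⟩
  rw [e]
  refine (Set.toFinite _).isClosed_biUnion fun F _ => ?_
  have : CompactSpace (T F) := isCompact_iff_compactSpace.1 (hT F)
  exact (isCompact_range ((cont_pt continuous_subtype_val (hst F)).prodMk
    ((Nn_cont _).comp_continuous continuous_subtype_val fun y => (hst F y).toBase))).isClosed

theorem mem_QS (hp : D.St p) {Q : Matrix D.Mu D.Mu ℂ} :
    (pt p hp, Q) ∈ D.QS ↔ ∃ U, D.A p.1 U ∧ U ≠ ⊥ ∧ U ≠ ⊤ ∧ Q = D.Nn p U :=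
  yhc6_mem hp

/-- the graded poset of these subrepresentations -/
def QP (hD : D.Top) : GP D.XS (Matrix D.Mu D.Mu ℂ) (Fintype.card I) :=
  GP.ofOP D.QS (QS_closed hD) _

theorem mem_QP (hD : D.Top) (hp : D.St p) {Q : Matrix D.Mu D.Mu ℂ} {r : Fin (Fintype.card I)} :
    (pt p hp, Q) ∈ (QP hD).Q r ↔
      ∃ U, D.A p.1 U ∧ U ≠ ⊥ ∧ U ≠ ⊤ ∧ Module.finrank ℂ U = r ∧ Q = D.Nn p U := by
  constructor
  · rintro ⟨h, h'⟩
    obtain ⟨U, a, b, c, rfl⟩ := (mem_QS hp).1 h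
    exact ⟨U, a, b, c, Nat.cast_injective (R := ℂ) ((Nn_op hp.toBase U).tr.symm.trans h'.tr), rfl⟩
  · rintro ⟨U, a, b, c, d, rfl⟩
    exact ⟨(mem_QS hp).2 ⟨U, a, b, c, rfl⟩, d ▸ Nn_op hp.toBase U⟩

theorem QP_cone (hD : D.Top) (hp : D.St p) (hn : ¬ D.Sem p.1) :
    ∃ s, (QP hD).Cone (pt p hp) s := by
  obtain ⟨s, a, b, c, d⟩ := exists_rad hp.ss hn
  refine ⟨_, GP.ofOP_cone (QS_closed hD) {U | D.A p.1 U ∧ U ≠ ⊥ ∧ U ≠ ⊤} (D.Nn p)
    (fun Q => (mem_QS hp).trans ⟨fun ⟨U, x, y, z, e⟩ => ⟨U, ⟨x, y, z⟩, e.symm⟩,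
      fun ⟨U, h, e⟩ => ⟨U, h.1, h.2.1, h.2.2, e.symm⟩⟩)
    (fun U h => ⟨_, ?_, Nn_op hp.toBase U⟩) (fun _ _ _ _ => Nn_le_iff hp.toBase) (s := s) ⟨a, b, c⟩
    fun U h => ⟨h.1.sup hp.ss a, fun e => b (le_bot_iff.1 (e ▸ le_sup_right)), d U h.1 h.2.2⟩⟩
  exact (Submodule.finrank_lt h.2.2).trans_eq (Module.finrank_fintype_fun_eq_card ℂ)

theorem Cm.a_dn (hu : D.Cm u) {ρ : Rp I} (ht : Tri (Ord u) ρ) {F : Finset I} (hF : Dn u F) :
    D.A ρ (sp (F : Set I)) ∧ sp (F : Set I) ≠ ⊥ ∧ sp (F : Set I) ≠ ⊤ :=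
  ⟨⟨sub_sp.2 fun a i j m l => ht a i j fun e => m (hF.dn i j e l),
      (wt_sp F).trans (hF.sum hu.1 _ hu.2)⟩,
    fun e => hF.ne (Finset.coe_eq_empty.1 (sp_inj.1 (e.trans sp_empty.symm))),
    fun e => hF.nu (Finset.coe_eq_univ.1 (sp_inj.1 (e.trans sp_univ.symm)))⟩

/-- the chain of the initial sets of a word -/
def chn (hD : D.Top) (hu : D.Cm u) (hp : D.St p) (ht : Tri (Ord u) p.1) (hR : R ⊆ rks u) :
    (QP hD).Ch R :=
  ⟨(pt p hp, fun r => D.Nn p (sp (pf u ⟨r.1, hR r.2⟩ : Set I))),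
    fun r => (mem_QP hD hp).2 ⟨_, (hu.a_dn ht (pf_dn _)).1, (hu.a_dn ht (pf_dn _)).2.1,
      (hu.a_dn ht (pf_dn _)).2.2, (finrank_sp _).trans (pf_card _), rfl⟩,
    fun r r' e => Nn_mul hp.toBase (Finset.coe_subset.2 ((pf_dn _).sub_of_card hu.1 (pf_dn _)
      (by rw [pf_card, pf_card]; exact e.le)))⟩

variable {hD : D.Top} {hu : D.Cm u} {hv : D.Cm v} {hp : D.St p} {hq : D.St q}
  {ht : Tri (Ord u) p.1}

theorem chn_pr (hR : R ⊆ rks u) : (QP hD).pr R (chn hD hu hp ht hR) = pt p hp := rfl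

theorem chn_el (hR : R ⊆ rks u) (r : R) {F : Finset I} (hF : Dn u F) (e : F.card = r.1) :
    (QP hD).el r (chn hD hu hp ht hR) = D.Nn p (sp (F : Set I)) := by
  rw [← pf_eq hu.1 ⟨r.1, hR r.2⟩ hF e]
  rfl

theorem chn_face (hR : R ⊆ rks u) (h : R' ⊆ R) :
    (QP hD).face h (chn hD hu hp ht hR) = chn hD hu hp ht (h.trans hR) := rfl

/-- a chain over the point of `p` is a chain of subrepresentations -/
theorem exists_sub (y : (QP hD).Ch R) (h : (QP hD).pr R y = pt p hp) :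
    ∃ U : R → Submodule ℂ (I → ℂ), (∀ r, D.A p.1 (U r) ∧ (QP hD).el r y = D.Nn p (U r)) ∧
      ∀ r r', U r ≤ U r' ∨ U r' ≤ U r := by
  choose U a _ _ _ e using fun r : R => (mem_QP hD hp).1 (h ▸ GP.el_mem y r)
  have key : ∀ r r' : R, r.1 ≤ r'.1 → U r ≤ U r' := fun r r' c => by
    have h1 : (QP hD).el r' y * (QP hD).el r y = (QP hD).el r y := GP.el_le y r r' c
    rwa [e, e, Nn_le_iff hp.toBase] at h1
  exact ⟨U, fun r => ⟨a r, e r⟩, fun r r' => (le_total r.1 r'.1).imp (key r r') (key r' r)⟩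

/-- a chain of coordinate subspaces is the chain of a word -/
theorem chn_of_sp (y : (QP hD).Ch R) (h : (QP hD).pr R y = pt p hp) (F : R → Finset I)
    (hF : ∀ r, (QP hD).el r y = D.Nn p (sp (F r : Set I))) :
    ∃ (u : List (Finset I)) (hu : D.Cm u) (ht : Tri (Ord u) p.1) (e : rks u = R),
      (∀ G, Dn u G ↔ ∃ r, G = F r) ∧ chn hD hu hp ht e.ge = y := by
  have h1 : ∀ r : R, D.A p.1 (sp (F r : Set I)) ∧ sp (F r : Set I) ≠ ⊥ ∧ sp (F r : Set I) ≠ ⊤ ∧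
      (F r).card = r.1 := fun r => by
    obtain ⟨U, a, b, c, d, e⟩ := (mem_QP hD hp).1 (h ▸ GP.el_mem y r)
    obtain rfl := Nn_inj hp.toBase ((hF r).symm.trans e)
    exact ⟨a, b, c, (finrank_sp _).symm.trans d⟩
  have key : ∀ r r' : R, r.1 ≤ r'.1 → F r ⊆ F r' := fun r r' c => by
    have h2 : (QP hD).el r' y * (QP hD).el r y = (QP hD).el r y := GP.el_le y r r' c
    rwa [hF, hF, Nn_le_iff hp.toBase, sp_le_sp, Finset.coe_subset] at h2
  obtain ⟨u, hu, hd⟩ := exists_word (range F)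
    (by
      rintro _ ⟨r, rfl⟩
      exact ⟨fun e => (h1 r).2.1 (by rw [e, Finset.coe_empty, sp_empty]),
        fun e => (h1 r).2.2.1 (by rw [e, Finset.coe_univ, sp_univ])⟩)
    (by
      rintro _ ⟨r, rfl⟩ _ ⟨r', rfl⟩
      exact (le_total r.1 r'.1).imp (key r r') (key r' r))
  have hc : D.Cm u := ⟨hu, hu.bal _ D.f1_sum_th fun G hG => by
    obtain ⟨r, rfl⟩ := (hd G).1 hG
    exact (wt_sp _).symm.trans (h1 r).1.2⟩
  have ht : Tri (Ord u) p.1 := fun a i j n => by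
    rw [ord_iff_dn hu] at n
    push Not at n
    obtain ⟨G, hG, l, m⟩ := n
    obtain ⟨r, rfl⟩ := (hd G).1 hG
    exact sub_sp.1 (h1 r).1.1 a i j m l
  have e : rks u = R := Finset.ext fun r => mem_rks.trans ⟨fun ⟨G, hG, c⟩ => by
      obtain ⟨r', rfl⟩ := (hd G).1 hG
      exact Fin.ext ((h1 r').2.2.2.symm.trans c) ▸ r'.2,
    fun hr => ⟨F ⟨r, hr⟩, (hd _).2 ⟨_, rfl⟩, (h1 _).2.2.2⟩⟩
  exact ⟨u, hc, ht, e, fun G => (hd G).trans (exists_congr fun _ => eq_comm),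
    GP.Ch.ext h.symm fun r => (chn_el e.ge r ((hd _).2 ⟨r, rfl⟩) (h1 r).2.2.2).trans (hF r).symm⟩

theorem exists_chn (y : (QP hD).Ch R) :
    ∃ (u : List (Finset I)) (hu : D.Cm u) (p : Pt I D.m) (hp : D.St p) (ht : Tri (Ord u) p.1)
      (e : rks u = R), chn hD hu hp ht e.ge = y := by
  obtain ⟨p, hp, h⟩ := exists_pt ((QP hD).pr R y)
  obtain ⟨U, h1, h2⟩ := exists_sub y h.symm
  obtain ⟨k, hk, hc, F, -, hF⟩ := e4_chain D.cc_eq U h2 fun r => (h1 r).1.1.gr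
  have hk' := D.K_le (yhc6_K hk hc)
  have hP : k⁻¹ ∈ D.P := hD.P_eq ▸ hk'
  obtain ⟨u, hu, ht, e, -, c⟩ := chn_of_sp (hp := hp.act hP) y
    (h.symm.trans (Subtype.ext (pt0_act hP p).symm)) F fun r => by
      rw [(h1 r).2, ← yhc6_nn hk' p (U r), hF r, yhc6_back (e4_unit_det hk)]
  exact ⟨u, hu, _, _, ht, e, c⟩

end Dat

end Pool.Agent.CS
end
end

-- part Pool.Agent.P.MP_d34769_ag.YHC6b
section

/-! Equality of chains of initial sets, the chain map of a morphism of data. -/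

open Set Matrix

set_option linter.unusedSectionVars false

noncomputable section
namespace Pool.Agent.CS

variable {I : Type} [Fintype I] [DecidableEq I]

namespace Dat
variable {D E : Dat I} {p q : Pt I D.m} {g : Matrix I I ℂ} {u v : List (Finset I)}
  {R R' : Finset (Fin (Fintype.card I))} {hD : D.Top} {hu : D.Cm u} {hv : D.Cm v} {hp : D.St p}
  {hq : D.St q} {ht : Tri (Ord u) p.1}

theorem yhc6b_Nn (hg : g ∈ D.P) (hp : D.St p) {F F' : Finset I} (e : F.card = F'.card) :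
    D.Nn p (sp (F : Set I)) = D.Nn (act g p) (sp (F' : Set I)) ↔
      ∀ i j, i ∉ F' → j ∈ F → g i j = 0 := by
  rw [← Nn_act (D.P_le hg) p, toLin'_apply']
  refine ⟨fun h => map_sp_le.1 (Nn_inj (hp.act hg).toBase h).le, fun h => congrArg _
    (Submodule.eq_of_le_of_finrank_eq (map_sp_le.2 h) ?_)⟩
  rw [e4_finrank_map hg.2, finrank_sp, finrank_sp, e]

/-- the chain only depends on the initial sets with size in `R` -/
theorem chn_eq_iff {ht' : Tri (Ord v) q.1} (hR : R ⊆ rks u) (hR' : R ⊆ rks v) :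
    chn hD hu hp ht hR = chn hD hv hq ht' hR' ↔ ∃ g ∈ D.P, q = act g p ∧
      ∀ F F', Dn u F → Dn v F' → F.card = F'.card → (∃ r ∈ R, F.card = r) →
        ∀ i j, i ∉ F' → j ∈ F → g i j = 0 := by
  constructor
  · intro h
    obtain ⟨g, hg, rfl⟩ := (pt_eq_iff hp hq).1 (congrArg ((QP hD).pr R) h)
    refine ⟨g, hg, rfl, fun F F' hF hF' e ⟨r, hr, e'⟩ => (yhc6b_Nn hg hp e).1 ?_⟩
    exact (chn_el hR ⟨r, hr⟩ hF e').symm.trans ((congrArg ((QP hD).el ⟨r, hr⟩) h).trans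
      (chn_el hR' ⟨r, hr⟩ hF' (e.symm.trans e')))
  · rintro ⟨g, hg, rfl, h⟩
    refine GP.Ch.ext ((pt_eq_iff hp hq).2 ⟨g, hg, rfl⟩) fun r => ?_
    have e := (pf_card (u := u) ⟨r.1, hR r.2⟩).trans (pf_card (u := v) ⟨r.1, hR' r.2⟩).symm
    exact (yhc6b_Nn hg hp e).2 (h _ _ (pf_dn _) (pf_dn _) e ⟨r.1, r.2, pf_card _⟩)

theorem chn_ref (h : ∀ i j, Ord u i j → Ord v i j) {ht' : Tri (Ord v) p.1} (hR : R ⊆ rks u)
    (hR' : R ⊆ rks v) : chn hD hu hp ht hR = chn hD hv hp ht' hR' :=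
  (chn_eq_iff hR hR').2 ⟨1, D.one_mem_P, (act_one p).symm, fun _ _ hF hF' e _ _ _ hi hj =>
    one_apply_ne fun c => hi (hF.eq_of_card hu.1 (hF'.anti h) e ▸ c ▸ hj)⟩

theorem chn_act (hg : g ∈ D.P) (h : ∀ i j, ¬ Ord u i j → g i j = 0) {hq : D.St (act g p)}
    {ht' : Tri (Ord u) (act g p).1} (hR : R ⊆ rks u) :
    chn hD hu hq ht' hR = chn hD hu hp ht hR :=
  ((chn_eq_iff hR hR).2 ⟨g, hg, rfl, fun _ _ hF hF' e _ i j hi hj =>
    h i j fun c => hi (hF.eq_of_card hu.1 hF' e ▸ hF.dn i j c hj)⟩).symm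

/-- the same word and all ranks: the group element is triangular -/
theorem chn_inj {ht' : Tri (Ord u) q.1} (e : rks u = R)
    (h : chn hD hu hp ht e.ge = chn hD hu hq ht' e.ge) :
    ∃ g ∈ D.P, q = act g p ∧ ∀ i j, ¬ Ord u i j → g i j = 0 := by
  obtain ⟨g, hg, e1, e2⟩ := (chn_eq_iff _ _).1 h
  refine ⟨g, hg, e1, fun i j c => by_contra fun c' => c ((ord_iff_dn hu.1).2 fun F hF hj => ?_)⟩
  exact by_contra fun hi => c' (e2 F F hF hF rfl (e ▸ hF.mem_rks) i j hi hj)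

/-- all ranks: the words differ by a permutation in the support of the group element -/
theorem chn_perm {ht' : Tri (Ord v) q.1} (e : rks u = R) (e' : rks v = R)
    (h : chn hD hu hp ht e.ge = chn hD hv hq ht' e'.ge) :
    ∃ w : Equiv.Perm I, (∀ i, D.col (w i) = D.col i) ∧ u = v.map (pre w) := by
  obtain ⟨g, hg, -, e2⟩ := (chn_eq_iff _ _).1 h
  obtain ⟨w, hw⟩ := exists_perm hg.2
  refine ⟨w, fun i => by_contra fun c => hw i ((hD.mem_P.1 hg).1 _ _ c),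
    hu.1.eq_pre hv.1 w (e.trans e'.symm) fun F F' hF hF' c i hi => by_contra fun c' => ?_⟩
  exact hw i (e2 F F' hF hF' c (e ▸ hF.mem_rks) _ _ c' hi)

theorem chn_cont {Y : Type} [TopologicalSpace Y] {f : Y → Pt I D.m} (hf : Continuous f)
    (h : ∀ y, D.St (f y)) (h' : ∀ y, Tri (Ord u) (f y).1) (hR : R ⊆ rks u) :
    Continuous fun y => chn hD hu (h y) (h' y) hR :=
  Continuous.subtype_mk ((cont_pt hf h).prodMk (continuous_pi fun _ =>
    (Nn_cont _).comp_continuous hf fun y => (h y).toBase)) _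

theorem Mor.tri (h : Mor E D) (hw : ∀ i, h.w i = i) (hE : ∀ i j, E.rl i j → Ord u i j)
    {p : Pt I E.m} (hp : p.1 ∈ E.R) : Tri (Ord u) (h.F p).1 := fun a i j c => by
  have := h.F_fst p a i j
  rw [hw, hw] at this
  rw [this]
  exact hp a i j fun c' => c (hE i j c'.2.2)

theorem yhc6b_tri (h : Mor E D) (hw : ∀ i, h.w i = i) (hE : ∀ i j, E.rl i j → Ord u i j)
    (hg : g ∈ E.P) (i j : I) (c : ¬ Ord u i j) : reindex h.w h.w g i j = 0 := by
  have e : ∀ i, h.w.symm i = i := fun i => h.w.symm_apply_eq.2 (hw i).symm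
  rw [reindex_apply, submatrix_apply, e, e]
  exact hg.1 i j fun c' => c (hE i j (E.gl_rl c'.2))

theorem exists_chm (hD : D.Top) (hu : D.Cm u) (h : Mor E D) (hw : ∀ i, h.w i = i)
    (hE : ∀ i j, E.rl i j → Ord u i j) (hR : R ⊆ rks u) : ∃ f : C(E.XS, (QP hD).Ch R),
      ∀ (p : Pt I E.m) (hp : E.St p),
        f (pt p hp) = chn hD hu (h.st hp) (h.tri hw hE hp.mem) hR := by
  refine ⟨⟨fun x => chn hD hu (h.st (sec_st x.2)) (h.tri hw hE (sec_st x.2).mem) hR,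
    Continuous.subtype_mk (Continuous.prodMk (h.mc.continuous.congr fun x => ?_)
      (continuous_pi fun r => ?_)) _⟩, fun p hp => ?_⟩
  · rw [← h.mc_pt (sec_st x.2), pt_sec]
  · refine desc_cont (f := fun p => D.Nn (h.F p) (sp (pf u ⟨r.1, hR r.2⟩ : Set I)))
      (fun p hp g hg => ?_)
      ((Nn_cont _).comp h.continuous_F.continuousOn fun p hp => (h.st hp).toBase)
    rw [h.F_act (E.Lie_le hg.1)]
    exact ((yhc6b_Nn (h.mem_P hg) (h.st hp) rfl).2 fun i j hi hj =>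
      yhc6b_tri h hw hE hg i j fun c => hi ((pf_dn _).dn i j c hj)).symm
  · obtain ⟨g, hg, e⟩ := sec_pt0 hp
    exact ((chn_eq_iff (hv := hu) (ht' := h.tri hw hE (sec_st (pt p hp).2).mem) hR hR).2
      ⟨_, h.mem_P hg, (congrArg h.F e).trans
      (h.F_act (E.Lie_le hg.1) p), fun _ _ hF hF' e _ i j hi hj => yhc6b_tri h hw hE hg i j
        fun c => hi (hF.eq_of_card hu.1 hF' e ▸ hF.dn i j c hj)⟩).symm

/-- the chain map along a morphism of data -/
def chm (hD : D.Top) (hu : D.Cm u) (h : Mor E D) (hw : ∀ i, h.w i = i)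
    (hE : ∀ i j, E.rl i j → Ord u i j) (hR : R ⊆ rks u) : C(E.XS, (QP hD).Ch R) :=
  (exists_chm hD hu h hw hE hR).choose

theorem chm_pt (h : Mor E D) (hw : ∀ i, h.w i = i) (hE : ∀ i j, E.rl i j → Ord u i j)
    (hR : R ⊆ rks u) {p : Pt I E.m} (hp : E.St p) :
    chm hD hu h hw hE hR (pt p hp) = chn hD hu (h.st hp) (h.tri hw hE hp.mem) hR :=
  (exists_chm hD hu h hw hE hR).choose_spec p hp

end Dat

end Pool.Agent.CS
end
end

-- part Pool.Agent.P.MP_d34769_ag.YHC7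
section

/-! The invariant cobar diagram on one word is the diagram of chains of subrepresentations. -/

open Set Matrix

set_option linter.unusedSectionVars false

noncomputable section
namespace Pool.Agent.CS
open Pool.Agent.P.MP_d34769_ag

variable {I : Type} [Fintype I] [DecidableEq I]

section rl
variable {u v : List (Finset I)} {R : Finset (Fin (Fintype.card I))}

theorem yhc7_pre (w : Equiv.Perm I) (hu : Part u) (hv : Part v)
    (h : ∀ i j, Ord v (w i) (w j) ↔ Ord u i j) : u = v.map (pre w) :=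
  hu.ext (hv.pre w.surjective) fun i j => (h i j).symm.trans ord_pre.symm

theorem yhc7_congr {D : Dat I} {hD : D.Top} {hu : D.Cm u} {p q : Pt I D.m} {hp : D.St p}
    {hq : D.St q} {ht : Tri (Ord u) p.1} {ht' : Tri (Ord u) q.1} (e : p = q) (hR : R ⊆ rks u) :
    Dat.chn hD hu hp ht hR = Dat.chn hD hu hq ht' hR := by
  subst e
  rfl

theorem rks_rl (w : Equiv.Perm I) (hu : Part u) (hv : Part v)
    (h : ∀ i j, Ord v (w i) (w j) ↔ Ord u i j) : rks v = rks u := by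
  rw [yhc7_pre w hu hv h, rks_perm w hv]

/-- relabelling does not change the chain -/
theorem Dat.chn_rl {D : Dat I} {hD : D.Top} {hu : D.Cm u} {hv : D.Cm v} {p q : Pt I D.m}
    {hp : D.St p} {hq : D.St q} {ht : Tri (Ord u) p.1} {ht' : Tri (Ord v) q.1} (w : Equiv.Perm I)
    (hw : ∀ i, D.col (w i) = D.col i) (e1 : ∀ a i j, q.1 a (w i) (w j) = p.1 a i j)
    (e2 : ∀ i r, q.2 (w i) r = p.2 i r) (h : ∀ i j, Ord v (w i) (w j) ↔ Ord u i j)
    (hR : R ⊆ rks u) (hR' : R ⊆ rks v) :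
    Dat.chn hD hv hq ht' hR' = Dat.chn hD hu hp ht hR := by
  have h1 : (1 : Matrix I I ℂ).submatrix id w * (1 : Matrix I I ℂ).submatrix w id = 1 := by
    rw [submatrix_mul_equiv, Matrix.mul_one, submatrix_id_id]
  refine ((Dat.chn_eq_iff hR hR').2 ⟨(1 : Matrix I I ℂ).submatrix id w, hD.mem_P.2
    ⟨fun i j c => one_apply_ne fun k : i = w j => c (k ▸ hw j), isUnit_det_of_right_inverse h1⟩,
    Prod.ext (funext fun b => ?_) ?_, fun F F' hF hF' e _ i j hi hj =>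
      one_apply_ne fun k : i = w j => hi ?_⟩).symm
  · change _ = _ * p.1 b * _
    rw [inv_eq_right_inv h1, one_submatrix_mul, mul_submatrix_one]
    ext i j
    simpa using e1 b (w.symm i) (w.symm j)
  · change _ = _ * p.2
    rw [one_submatrix_mul]
    ext i r
    simpa using e2 (w.symm i) r
  · have h2 : Dn u (pre w F') := by
      rw [yhc7_pre w hu.1 hv.1 h]
      exact (dn_pre w.surjective hv.1).2 ⟨F', hF', rfl⟩
    rw [hF.eq_of_card hu.1 h2 (e.trans (yhc1_card_pre w F').symm), mem_pre] at hj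
    exact k ▸ hj

end rl

variable {col : I → Fin 3} {th : Fin 3 → ℤ} {m : ℕ} (h0 : Adm col th [[Finset.univ]])

theorem top_Top (m : ℕ) : ((top h0).dat m).Top := fun i j =>
  ⟨[Finset.univ], List.mem_singleton.2 rfl, Finset.univ, Finset.univ, Finset.mem_univ i,
    Finset.mem_univ j, Or.inl ⟨rfl, List.mem_singleton.2 rfl⟩⟩

theorem Wx.cm (L : Wx col th 1) : ((top h0).dat m).Cm L.1.flatten := ⟨L.2.1.part, L.2.1.bal⟩

theorem Wx.ordM (L : Wx col th 1) {i j : I} : OrdM L.1 i j ↔ Ord L.1.flatten i j := by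
  obtain ⟨u, hu⟩ := L.one
  simp [hu, OrdM]

theorem Wx.rl_ord (L : Wx col th 1) (i j : I) (h : (L.dat m).rl i j) : Ord L.1.flatten i j :=
  L.ordM.1 h

theorem exists_wx {u : List (Finset I)} (hu : ((top h0).dat m).Cm u) :
    ∃ L : Wx col th 1, L.1.flatten = u := by
  obtain ⟨i, -⟩ := h0.part.1 Finset.univ (by simp)
  obtain ⟨a, ha, -⟩ := hu.1.mem i
  have e : [u].flatten = u := by simp
  exact ⟨⟨[u], ⟨e.symm ▸ hu.1, by simpa using List.ne_nil_of_mem ha, e.symm ▸ hu.2⟩, rfl⟩, e⟩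

theorem hc_relF {k : ℕ} {L K : Wx col th k} (h : RS id L.1 K.1) (p : Pt I m) :
    (relMor h m).F p = p :=
  (relMor h m).ye2_ext p (fun _ _ _ => rfl) (fun _ _ => rfl) fun _ r c => absurd rfl (c r)

theorem yhc7_st {k : ℕ} {L K : Wx col th k} (h : RS id L.1 K.1) {p : Pt I m}
    (hp : (L.dat m).St p) : (K.dat m).St p := by
  have := (relMor h m).st hp
  rwa [hc_relF] at this

theorem yhc7_mc {k : ℕ} {L K : Wx col th k} (h : RS id L.1 K.1) {p : Pt I m}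
    (hp : (L.dat m).St p) (hq : (K.dat m).St p) :
    (relMor h m).mc (Dat.pt p hp) = Dat.pt p hq :=
  ((relMor h m).mc_pt hp ((relMor h m).st hp)).trans
    (Subtype.ext (congrArg (K.dat m).pt0 (hc_relF h p)))

theorem yhc7_cc (L K : Wx col th 1) : (L.dat m).cc = (K.dat m).cc := by
  have : ∀ (L : Wx col th 1) i j, (L.dat m).cp i j := fun L i j => (L.2.1.cp_iff m).2 (by
    have h1 := slot_lt (L.2.1.part.mem_word i)
    have h2 := slot_lt (L.2.1.part.mem_word j)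
    rw [L.2.2] at h1 h2
    omega)
  exact funext₂ fun i j => propext (and_congr_right fun _ => iff_of_true (this L i j) (this K i j))

theorem Wx.st_iff (L : Wx col th 1) {p : Pt I m} :
    (L.dat m).St p ↔ ((top h0).dat m).St p ∧ Tri (Ord L.1.flatten) p.1 := by
  refine ⟨fun hp => ⟨yhc7_st (rel_top h0 L) hp, fun a i j c =>
    hp.mem a i j fun c' => c (L.rl_ord i j c'.2.2)⟩, fun ⟨hq, ht⟩ => ⟨fun a i j c => ?_,
      fun U hU => hq.ss U ((congrArg (SubE · p.1 U) (yhc7_cc L (top h0))).mp hU),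
      fun U hU => hq.gen U ((congrArg (SubE · p.1 U) (yhc7_cc L (top h0))).mp hU)⟩⟩
  by_cases e : Ord L.1.flatten i j
  · exact hq.mem a i j fun c' => c ⟨c'.1, c'.2.1, L.ordM.2 e⟩
  · exact ht a i j e

theorem Wx.mem_P (L : Wx col th 1) {g : Matrix I I ℂ} : g ∈ (L.dat m).P ↔
    g ∈ ((top h0).dat m).P ∧ ∀ i j, ¬ Ord L.1.flatten i j → g i j = 0 := by
  refine ⟨fun h => ⟨(top_Top h0 m).mem_P.2 ⟨fun i j c => h.1 i j fun c' => c c'.1, h.2⟩,
    fun i j c => h.1 i j fun c' => c (L.ordM.1 c'.2)⟩, fun ⟨h, h'⟩ => ⟨fun i j c => ?_, h.2⟩⟩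
  by_cases e : Ord L.1.flatten i j
  · exact h.1 i j fun c' => c ⟨c'.1, L.ordM.2 e⟩
  · exact h' i j e

theorem hc_ovT (L : Wx col th 1) {p : Pt I m} (hp : (L.dat m).St p)
    (hq : ((top h0).dat m).St p) : (ovT m h0).π L (Dat.pt p hp) = Dat.pt p hq := by
  rw [ovT_π]
  exact yhc7_mc _ hp hq

theorem mem_NX_pt {a : ℕ} (ha : 1 ≤ a) {p : Pt I m} (hp : ((top h0).dat m).St p) :
    Dat.pt p hp ∈ NX m h0 a ↔ ((top h0).dat m).N a p.1 := by
  rw [mem_NX]
  constructor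
  · rintro ⟨L, hL, y, e⟩
    obtain ⟨q, hq, rfl⟩ := Dat.exists_pt (D := L.dat m) y
    obtain ⟨h1, h2⟩ := (L.st_iff h0).1 hq
    obtain ⟨g, hg, rfl⟩ := (Dat.pt_eq_iff hp h1).1 (e.symm.trans (hc_ovT h0 L hq h1))
    exact (Dat.n_iff_list.2 ⟨_, L.cm h0, rfl, g, Dat.P_le _ hg, h2⟩).anti ha hL
  · intro h
    obtain ⟨l, hl, rfl, g, hg, ht⟩ := Dat.n_iff_list.1 h
    obtain ⟨L, rfl⟩ := exists_wx h0 hl
    rw [(top_Top h0 m).P_eq] at hg
    exact ⟨L, le_rfl, Dat.pt _ ((L.st_iff h0).2 ⟨hp.act hg, ht⟩), (hc_ovT h0 L _ (hp.act hg)).trans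
      ((Dat.pt_eq_iff hp _).2 ⟨g, hg, rfl⟩).symm⟩

variable (col th) in
theorem wd_T : Wd (shT col th 1) fun L => L.1.flatten := by
  refine ⟨fun L => L.2.1.part, fun _ => rfl, fun {L K} r i j e =>
    (Wx.ordM K).1 (r.ord i j ((Wx.ordM L).2 e)), fun L ψ => Eq.trans ?_
      (cobM_sum L fun K => ψ K.flatten)⟩
  obtain ⟨u, hu⟩ := Wx.one L
  simp [hu, cobM_one]

variable (m) in
/-- the poset of subrepresentations of weight zero -/
abbrev QT := Dat.QP (top_Top h0 m)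

/-- the chain of the flag -/
def chT (L : Wx col th 1) {R : Finset (Fin (Fintype.card I))} (h : R ⊆ rks L.1.flatten) :
    C((L.dat m).XS, (QT m h0).Ch R) :=
  Dat.chm (top_Top h0 m) (L.cm h0) (relMor (rel_top h0 L) m) (fun _ => rfl) L.rl_ord h

theorem chT_pt (L : Wx col th 1) {R : Finset (Fin (Fintype.card I))} (h : R ⊆ rks L.1.flatten)
    {p : Pt I m} (hp : (L.dat m).St p) (hq : ((top h0).dat m).St p)
    (ht : Tri (Ord L.1.flatten) p.1) :
    chT h0 L h (Dat.pt p hp) = Dat.chn (top_Top h0 m) (L.cm h0) hq ht h :=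
  (Dat.chm_pt _ _ _ h hp).trans (yhc7_congr (hc_relF _ p) h)

theorem yhc7_pt (L : Wx col th 1) {R : Finset (Fin (Fintype.card I))} (h : R ⊆ rks L.1.flatten)
    {p : Pt I m} (hp : (L.dat m).St p) : chT h0 L h (Dat.pt p hp) =
      Dat.chn (top_Top h0 m) (L.cm h0) ((L.st_iff h0).1 hp).1 ((L.st_iff h0).1 hp).2 h :=
  chT_pt h0 L h hp _ _

variable (m) in
/-- the map from the cobar diagram to the diagram of chains -/
def homT : Dg.Hom (wd_T col th).sh (dgT col th 1 m) (QT m h0).dg where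
  g h := chT h0 _ h
  gl {L K _} h h' x := by
    obtain ⟨p, hp, rfl⟩ := Dat.exists_pt (D := Wx.dat L m) x
    exact (congrArg _ ((DFunLike.congr_fun (dgT_mp h) _).trans
      (yhc7_mc h hp (yhc7_st h hp)))).trans ((yhc7_pt h0 K h' _).trans
      ((Dat.chn_ref ((wd_T col th).rel h) _ h').symm.trans (yhc7_pt h0 L _ hp).symm))
  gr {L _ _} h h' x := by
    obtain ⟨p, hp, rfl⟩ := Dat.exists_pt (D := Wx.dat L m) x
    exact (congrArg _ (yhc7_pt h0 L h hp)).trans ((Dat.chn_face h h').trans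
      (yhc7_pt h0 L _ hp).symm)

theorem homT_ov {L : (shT col th 1).ι} {R : (Sh.simp (Fin (Fintype.card I))).ι}
    (h : (wd_T col th).sh.R L R) (x : (dgT col th 1 m).X L) :
    (QT m h0).ov.π R ((homT m h0).g h x) = (ovT m h0).π L x := by
  obtain ⟨p, hp, rfl⟩ := Dat.exists_pt (D := Wx.dat L m) x
  exact (congrArg _ (yhc7_pt h0 L h hp)).trans (hc_ovT h0 L hp ((Wx.st_iff h0 L).1 hp).1).symm

theorem yhc7_ord {k : ℕ} (w : Wc col) {L K : Wx col th k} (e : actI col th k w L = K) (i j : I) :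
    Ord K.1.flatten (w.1 i) (w.1 j) ↔ Ord L.1.flatten i j := by
  rw [← e, actI_val, flatten_rlb, funext (image_eq_pre w.1)]
  simpa using ord_pre (s := ⇑w.1⁻¹) (π := L.1.flatten) (i := w.1 i) (j := w.1 j)

theorem homT_inv : (homT m h0).Inv (actT col th 1 m) := by
  refine ⟨fun w L R => (one_mul _).trans (if_congr ?_ rfl rfl), fun w L K R e h h' x => ?_⟩
  · exact Eq.congr_left (rks_rl w.1 L.2.1.part (actI col th 1 w L).2.1.part (yhc7_ord w rfl))
  · obtain ⟨p, hp, rfl⟩ := Dat.exists_pt (D := Wx.dat L m) x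
    exact (congrArg _ ((actMor w e m).mc_pt hp ((actMor w e m).st hp))).trans
      ((yhc7_pt h0 K h' _).trans ((Dat.chn_rl (D := (top h0).dat m) w.1 w.2 ((actMor w e m).F_fst p)
        ((actMor w e m).F_snd p) (yhc7_ord w e) h h').trans (yhc7_pt h0 L h hp).symm))

theorem homT_fib (R : (Sh.simp (Fin (Fintype.card I))).ι) (y : (QT m h0).dg.X R) :
    (homT m h0).Fib (wd_T col th).mu (actT col th 1 m) R y := by
  obtain ⟨u, hu, p, hp, ht, e, rfl⟩ := Dat.exists_chn y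
  obtain ⟨K, rfl⟩ := exists_wx h0 hu
  have hp' := (K.st_iff h0).2 ⟨hp, ht⟩
  refine Dg.Hom.fib_pt _ (l₀ := K) e.ge e (Dat.pt p hp') (chT_pt h0 K _ hp' hp ht)
    fun L h x e' hx => ?_
  obtain ⟨q, hq, rfl⟩ := Dat.exists_pt (D := Wx.dat L m) x
  obtain ⟨w, hw, h1⟩ := Dat.chn_perm e' e ((yhc7_pt h0 L h hq).symm.trans hx)
  have h2 : actI col th 1 ⟨w, hw⟩ L = K := by
    obtain ⟨u, hu⟩ := Wx.one L
    obtain ⟨v, hv⟩ := Wx.one K
    refine Subtype.ext ?_
    simp only [hu, hv, List.flatten_cons, List.flatten_nil, List.append_nil] at h1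
    change rlb w L.1 = K.1
    rw [hu, hv, h1, rlb, List.map_singleton, List.map_map]
    refine congrArg (fun z => [z]) ((List.map_congr_left fun b _ => ?_).trans (List.map_id _))
    ext i
    simp [image_eq_pre]
  have h3 := (actMor ⟨w, hw⟩ h2 m).st hq
  have h4 := (actMor ⟨w, hw⟩ h2 m).mc_pt hq h3
  obtain ⟨g, hg, h5, h6⟩ := Dat.chn_inj e ((yhc7_pt h0 K e.ge h3).symm.trans
    ((congrArg _ h4.symm).trans (((homT_inv h0).t ⟨w, hw⟩ h2 h e.ge _).trans hx)))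
  exact ⟨⟨w, hw⟩, h2, h4.trans ((Dat.pt_eq_iff h3 hp').2 ⟨g, (K.mem_P h0).2 ⟨hg, h6⟩, h5⟩)⟩

/-- F7 -/
theorem f7 {V W : Set (XT m h0)} (hV : IsClosed V) (hW : IsClosed W) :
    (Dg.bc ((QT m h0).ov.fam V) ((QT m h0).ov.fam W)).cx.Mor (bcN m h0 V W).cx (homT m h0).map 0 ∧
    (Dg.bc ((QT m h0).ov.fam V) ((QT m h0).ov.fam W)).cx.QIa (bcN m h0 V W).cx (homT m h0).map 0 :=
  have e : ∀ U, (homT m h0).Pre (fun L => rks L.1.flatten) ((ovT m h0).fam U)
      ((QT m h0).ov.fam U) := (homT m h0).pre_fam (ovT m h0) (QT m h0).ov (homT_ov h0)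
  ⟨((homT_inv h0).mor (wd_T col th).mu (e V) (e W) _ _).cx,
    (homT_inv h0).desc (wd_T col th).mu (Dg.Ov.fam_cl _ hV) (Dg.Ov.fam_cl _ hW) (e V) (e W) _ _
      fun R y _ => homT_fib h0 R y⟩

end Pool.Agent.CS
end
end

-- part Pool.Agent.P.MP_d34769_ag.YHHaus
section

/-! A compact Hausdorff space modulo a closed equivalence relation is Hausdorff. -/

namespace Pool.Agent.CS

open Topology

variable {X Y : Type} [TopologicalSpace X] [TopologicalSpace Y] [CompactSpace X] [T2Space X]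

/-- A quotient map with a closed kernel relation is a closed map. -/
theorem closedMap_of_rel {π : X → Y} (hπ : IsQuotientMap π)
    (hR : IsClosed {p : X × X | π p.1 = π p.2}) : IsClosedMap π := by
  intro C hC
  rw [← hπ.isClosed_preimage]
  have h1 : π ⁻¹' (π '' C) = Prod.snd '' ({p : X × X | π p.1 = π p.2} ∩ Prod.fst ⁻¹' C) := by
    ext x
    constructor
    · rintro ⟨c, hc, h⟩
      exact ⟨(c, x), ⟨h, hc⟩, rfl⟩
    · rintro ⟨p, ⟨h, hc⟩, rfl⟩
      exact ⟨p.1, hc, h⟩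
  rw [h1]
  exact ((hR.inter (hC.preimage continuous_fst)).isCompact.image continuous_snd).isClosed

/-- The target of a quotient map with a closed kernel relation is Hausdorff. -/
theorem t2_of_rel {π : X → Y} (hπ : IsQuotientMap π)
    (hR : IsClosed {p : X × X | π p.1 = π p.2}) : T2Space Y := by
  have hc := closedMap_of_rel hπ hR
  have hp : IsProperMap π := by
    rw [isProperMap_iff_isClosedMap_and_compact_fibers]
    refine ⟨hπ.continuous, hc, fun y => ?_⟩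
    obtain ⟨x, rfl⟩ := hπ.surjective y
    have h1 : IsClosed ({π x} : Set Y) := by
      simpa using hc {x} isClosed_singleton
    exact (h1.preimage hπ.continuous).isCompact
  rw [t2_iff_isClosed_diagonal]
  have h2 : Set.diagonal Y = Prod.map π π '' {p : X × X | π p.1 = π p.2} := by
    ext ⟨a, b⟩
    constructor
    · intro h
      obtain ⟨x, rfl⟩ := hπ.surjective a
      exact ⟨(x, x), rfl, Prod.ext rfl h⟩
    · rintro ⟨p, h, h'⟩
      rw [← h']
      exact h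
  rw [h2]
  exact (hp.prodMap hp).isClosedMap _ hR

theorem closedMap_quot (s : Setoid X) (hR : IsClosed {p : X × X | s p.1 p.2}) :
    IsClosedMap (Quotient.mk s) :=
  closedMap_of_rel isQuotientMap_quot_mk (by simpa only [Quotient.eq] using hR)

theorem t2_quot (s : Setoid X) (hR : IsClosed {p : X × X | s p.1 p.2}) : T2Space (Quotient s) :=
  t2_of_rel (π := Quotient.mk s) isQuotientMap_quot_mk (by simpa only [Quotient.eq] using hR)

omit [T2Space X] in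
theorem compact_quot (s : Setoid X) : CompactSpace (Quotient s) := Quotient.compactSpace

/-- A closed invariant set has a closed image whose preimage is the set itself. -/
theorem closed_image_quot (s : Setoid X) (hR : IsClosed {p : X × X | s p.1 p.2}) {C : Set X}
    (hC : IsClosed C) (hi : ∀ x y, s x y → x ∈ C → y ∈ C) :
    IsClosed (Quotient.mk s '' C) ∧ Quotient.mk s ⁻¹' (Quotient.mk s '' C) = C := by
  refine ⟨closedMap_quot s hR C hC, Set.Subset.antisymm ?_ (Set.subset_preimage_image _ _)⟩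
  rintro x ⟨c, hc, h⟩
  exact hi c x (Quotient.exact h) hc

end Pool.Agent.CS
end

-- part Pool.Agent.P.MP_d34769_ag.YHC8a
section

/-! The space of S-equivalence classes and the diagrams over it. -/

open Set Matrix

set_option linter.unusedSectionVars false

noncomputable section
namespace Pool.Agent.CS
open Pool.Agent.P.MP_d34769_ag

variable {I : Type} [Fintype I] [DecidableEq I]

namespace Dat
variable (D : Dat I)

/-- S-equivalence of points -/
def simS : Setoid D.XS :=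
  ⟨fun x y => D.Sim (D.sec x).1 (D.sec y).1, fun _ => Sim.refl _, Sim.symm, Sim.trans⟩

theorem yhc8a_sec {p : Pt I D.m} (hp : D.St p) : D.Sim p.1 (D.sec (pt p hp)).1 := by
  obtain ⟨g, hg, e⟩ := sec_pt0 hp
  exact Iso.sim ⟨g, D.P_le hg, (congrArg Prod.fst e).symm⟩

theorem yhc8a_sim {p q : Pt I D.m} (hp : D.St p) (hq : D.St q) :
    D.simS (pt p hp) (pt q hq) ↔ D.Sim p.1 q.1 :=
  ⟨fun h => ((D.yhc8a_sec hp).trans h).trans (D.yhc8a_sec hq).symm,
    fun h => ((D.yhc8a_sec hp).symm.trans h).trans (D.yhc8a_sec hq)⟩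

theorem yhc8a_cpt : ∃ (K : Set (Pt I D.m)) (h : ∀ p : K, D.St p.1), CompactSpace K ∧
    ∀ x : D.XS, ∃ p : K, pt p.1 (h p) = x := by
  obtain ⟨K, hK, hs, e⟩ := D.exists_cpt
  refine ⟨K, fun p => hs p.1 p.2, isCompact_iff_compactSpace.1 hK, fun x => ?_⟩
  obtain ⟨p, hp, e'⟩ := e.ge x.2
  exact ⟨⟨p, hp⟩, Subtype.ext e'⟩

theorem simS_closed : IsClosed {z : D.XS × D.XS | D.simS z.1 z.2} := by
  obtain ⟨K, h, _, hs⟩ := D.yhc8a_cpt
  have hc : Continuous fun p : K => pt p.1 (h p) := cont_pt continuous_subtype_val h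
  have h1 : IsClosed {z : K × K | D.Sim z.1.1.1 z.2.1.1} := isClosed_of_closure_subset fun z hz =>
    sim_closed (h z.1).ss (h z.2).ss (map_mem_closure (f := fun z : K × K => (z.1.1.1, z.2.1.1))
      (by fun_prop) hz fun y hy => ⟨(h y.1).ss, (h y.2).ss, hy⟩)
  refine Eq.mp (congrArg IsClosed (Set.ext fun z => ?_))
    (h1.isCompact.image (hc.prodMap hc)).isClosed
  constructor
  · rintro ⟨y, hy, rfl⟩
    exact (D.yhc8a_sim (h y.1) (h y.2)).2 hy
  · obtain ⟨x, y⟩ := z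
    obtain ⟨p, rfl⟩ := hs x
    obtain ⟨q, rfl⟩ := hs y
    exact fun e => ⟨(p, q), (D.yhc8a_sim (h p) (h q)).1 e, rfl⟩

theorem yhc8a_perm (w : Equiv.Perm I) (e : ∀ i, D.cc (w i) i) (ρ : Rp I) :
    D.Iso ρ fun a => reindex w w (ρ a) := by
  have h1 : (1 : Matrix I I ℂ).submatrix id w * (1 : Matrix I I ℂ).submatrix w id = 1 := by
    rw [submatrix_mul_equiv, Matrix.mul_one, submatrix_id_id]
  refine ⟨(1 : Matrix I I ℂ).submatrix id w, ⟨fun i j k => one_apply_ne fun c : i = w j =>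
    k (c ▸ e j), isUnit_det_of_right_inverse h1⟩, funext fun b => ?_⟩
  change _ * ρ b * _ = _
  rw [inv_eq_right_inv h1, one_submatrix_mul, mul_submatrix_one]
  rfl

/-- the space of S-equivalence classes -/
def MS : Type := Quotient D.simS

instance : TopologicalSpace D.MS := inferInstanceAs (TopologicalSpace (Quotient _))
instance : CompactSpace D.MS := compact_quot _
instance : T2Space D.MS := t2_quot _ D.simS_closed

/-- the class of a point -/
def mq : C(D.XS, D.MS) := ⟨Quotient.mk _, continuous_quotient_mk'⟩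

/-- the classes with a filtration with `a` steps -/
def NM (a : ℕ) : Set D.MS := {t | ∃ p hp, D.mq (pt p hp) = t ∧ D.N a p.1}

variable {D} {p q : Pt I D.m}

theorem mq_eq_iff (hp : D.St p) (hq : D.St q) :
    D.mq (pt p hp) = D.mq (pt q hq) ↔ D.Sim p.1 q.1 := Quotient.eq.trans (D.yhc8a_sim hp hq)

theorem mem_NM (hp : D.St p) {a : ℕ} : D.mq (pt p hp) ∈ D.NM a ↔ D.N a p.1 :=
  ⟨fun ⟨_, hq, e, h⟩ => ((mq_eq_iff hq hp).1 e).n hq.ss hp.ss h, fun h => ⟨p, hp, rfl, h⟩⟩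

theorem NM_closed (D : Dat I) (a : ℕ) : IsClosed (D.NM a) := by
  obtain ⟨K, h, _, hs⟩ := D.yhc8a_cpt
  refine Eq.mp (congrArg IsClosed (Set.ext fun z => ?_)) (((isClosed_n (D := D) a).preimage
    (f := fun p : K => p.1.1) (by fun_prop)).isCompact.image
      (D.mq.continuous.comp (cont_pt continuous_subtype_val h))).isClosed
  constructor
  · rintro ⟨y, hy, rfl⟩
    exact ⟨_, _, rfl, hy⟩
  · rintro ⟨p, hp, rfl, hn⟩
    obtain ⟨q, e⟩ := hs (pt p hp)
    rw [← mem_NM hp, ← e] at hn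
    exact ⟨q, (mem_NM _).1 hn, congrArg D.mq e⟩

theorem Slot.cm_pre {k : ℕ} {s : I → Fin k} (h : D.Slot s) {π : List (Finset (Fin k))}
    (hπ : Part π) : D.Cm (π.map (pre s)) := by
  refine ⟨hπ.pre h.surj, fun b hb => ?_⟩
  obtain ⟨c, -, rfl⟩ := List.mem_map.1 hb
  rw [pre, ← Finset.sum_fiberwise_eq_sum_filter]
  exact Finset.sum_eq_zero fun a _ => h.bal a

/-- the diagram of chains over the space of classes -/
def ovQ (hD : D.Top) : Dg.Ov (QP hD).dg D.MS where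
  π R := D.mq.comp ((QP hD).pr R)
  comm _ _ := rfl

theorem ovQ_fam (hD : D.Top) (V : Set D.MS) :
    (ovQ hD).fam V = (QP hD).ov.fam (D.mq ⁻¹' V) := rfl

end Dat

variable {col : I → Fin 3} {th : Fin 3 → ℤ} {k m m₁ : ℕ} (h0 : Adm col th [[Finset.univ]])
  (hm : k * m₁ ≤ m)

theorem top_N (m m' a : ℕ) {ρ : Rp I} : ((top h0).dat m).N a ρ ↔ ((top h0).dat m').N a ρ :=
  ⟨fun ⟨s, h, e⟩ => ⟨s, ⟨h.1, h.2⟩, e⟩, fun ⟨s, h, e⟩ => ⟨s, ⟨h.1, h.2⟩, e⟩⟩

theorem mq_NM {a : ℕ} (ha : 1 ≤ a) :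
    ((top h0).dat m).mq ⁻¹' ((top h0).dat m).NM a = NX m h0 a := Set.ext fun x => by
  obtain ⟨p, hp, rfl⟩ := Dat.exists_pt x
  exact (Dat.mem_NM hp).trans (mem_NX_pt h0 ha hp).symm

/-- the block number `b` of the framing -/
def frB (b : Fin k) : Fin m₁ ↪ Fin m :=
  ⟨fun r => ⟨b * m₁ + r, lt_of_lt_of_le (by
      have := Nat.mul_le_mul_right m₁ (Nat.succ_le_of_lt b.2)
      rw [Nat.succ_mul] at this
      omega) hm⟩, fun _ _ e => Fin.ext (Nat.add_left_cancel (congrArg Fin.val e))⟩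

theorem frB_ne {b b' : Fin k} (h : b ≠ b') (r r' : Fin m₁) : frB hm b r ≠ frB hm b' r' := fun e => by
  have h1 : (b * m₁ + r) / m₁ = (b' * m₁ + r') / m₁ := congrArg (·.1 / m₁) e
  rw [add_comm, add_comm (b' * m₁), Nat.add_mul_div_right _ _ r.pos, Nat.add_mul_div_right _ _ r.pos,
    Nat.div_eq_of_lt r.2, Nat.div_eq_of_lt r'.2, zero_add, zero_add] at h1
  exact h (Fin.ext h1)

/-- the direct sum, the slot `a` being framed through the block `β a` -/
def morX (s : Sl col th k) (β : Equiv.Perm (Fin k)) : Dat.Mor (s.wx.dat m₁) ((top h0).dat m) where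
  w := Equiv.refl I
  ι i := frB hm (β (s.1 i))
  col _ := rfl
  th := rfl
  gp i j h := ⟨h.1, top_Top h0 m i j⟩
  rl i j _ := ((top h0).dat m).gl_rl (top_Top h0 m i j)
  cp i j _ := (top_Top h0 m).cp i j
  ι_eq _ _ h := by rw [s.cp_iff.1 h]
  ι_ne _ _ h _ := frB_ne hm (β.injective.ne fun e => h (s.cp_iff.2 e))

theorem morX_fst (s : Sl col th k) (β : Equiv.Perm (Fin k)) (p : Pt I m₁) :
    ((morX h0 hm s β).F p).1 = p.1 := rfl

/-- the products over the space of classes -/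
def ovU : Dg.Ov (dgU col th k m₁) ((top h0).dat m).MS where
  π s := ((top h0).dat m).mq.comp (morX h0 hm s 1).mc
  comm h := False.elim h

theorem ovU_iff (s : Sl col th k) {p : Pt I m₁} (hp : (s.wx.dat m₁).St p) {q : Pt I m}
    (hq : ((top h0).dat m).St q) :
    (ovU h0 hm).π s (Dat.pt p hp) = ((top h0).dat m).mq (Dat.pt q hq) ↔
      ((top h0).dat m).Sim p.1 q.1 :=
  (Eq.congr_left (congrArg _ ((morX h0 hm s 1).mc_pt hp ((morX h0 hm s 1).st hp)))).trans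
    (Dat.mq_eq_iff _ hq)

theorem ovU_act (g : Gm col k) {s s' : (Sh.one (Sl col th k) (k - 1)).ι}
    (e : (actU col th k m₁).a g s = s') (x : (dgU col th k m₁).X s) :
    (ovU h0 hm).π s' ((actU col th k m₁).t g e x) = (ovU h0 hm).π s x := by
  obtain ⟨p, hp, rfl⟩ := Dat.exists_pt (D := (Sl.wx s).dat m₁) x
  refine (congrArg _ ((morU g e m₁).mc_pt hp ((morU g e m₁).st hp))).trans
    (((ovU_iff h0 hm s' _ ((morX h0 hm s 1).st hp)).2 ?_).trans
      (congrArg _ ((morX h0 hm s 1).mc_pt hp _).symm))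
  exact (Dat.yhc8a_perm _ g.1.1 (fun i => (top_Top h0 m).cc.2 (g.1.2 i)) p.1).sim.symm

theorem ovU_fam (a : ℕ) : (ovU h0 hm).fam (((top h0).dat m).NM a) = NU k m₁ h0 a :=
  Dg.Fam.ext (funext fun s => Set.ext fun x => by
    obtain ⟨p, hp, rfl⟩ := Dat.exists_pt (D := (Sl.wx s).dat m₁) x
    refine Iff.trans ?_ ((top_N h0 m m₁ a).trans (mem_NU h0 hp).symm)
    exact (iff_of_eq (congrArg (fun y => Dat.mq _ y ∈ Dat.NM _ a)
      ((morX h0 hm s 1).mc_pt hp ((morX h0 hm s 1).st hp)))).trans (Dat.mem_NM _))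

end Pool.Agent.CS
end
end

-- part Pool.Agent.P.MP_d34769_ag.YHC9
section

/-! The chains over the semisimple points of one class. -/

open Set Matrix

set_option linter.unusedSectionVars false

noncomputable section
namespace Pool.Agent.CS
open Pool.Agent.P.MP_d34769_ag

variable {I : Type} [Fintype I] [DecidableEq I]

namespace Dat.Pol
variable {D : Dat I} {k : ℕ} (S : D.Pol k) (hD : D.Top) {π π' : List (Finset (Fin k))}
  {R : Finset (Fin (Fintype.card I))} {Φ : Matrix (Fin k) (I × Fin D.m) ℂ}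

/-- the data of the orthogonal lines -/
abbrev FF : LD Unit (I × Fin D.m) (Fin k) := S.ldF (Fin D.m)

include hD in
theorem stF (h : S.FF.Fr Φ) : D.St (S.P0, S.asm Φ) :=
  st_iff.2 ⟨hD.R_eq ▸ S.mem, S.ss, S.genF h⟩

theorem tri (hπ : Part π) : Tri (Ord (π.map (pre S.slot))) S.P0 := fun a i j h =>
  S.off a i j fun e => h (ord_pre.2 (e ▸ hπ.refl _))

theorem yhc9_act (hπ : Part π) (hR : R ⊆ rks (π.map (pre S.slot)))
    {A : Matrix (Fin k) (Fin k) ℂ} (hA : S.Blk A) (hu : IsUnit A.det)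
    (ht : ∀ a b, ¬ Ord π a b → A a b = 0) (h : S.FF.Fr Φ) (h' : S.FF.Fr (A * Φ)) :
    chn hD (S.sl.cm_pre hπ) (S.stF hD h') (S.tri hπ) hR =
      chn hD (S.sl.cm_pre hπ) (S.stF hD h) (S.tri hπ) hR :=
  have hg : S.ten A ∈ D.P := hD.P_eq ▸ (S.ten_fix hA hu).1
  (yhc7_congr (S.act_ten hA hu Φ).symm hR).trans (chn_act (hq := (S.stF hD h).act hg)
    (ht' := by rw [S.act_ten hA hu]; exact S.tri hπ) hg (fun i j c => by
      rw [S.ten_apply, ht _ _ (mt ord_pre.2 c), ite_self]) hR)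

theorem yhc9_un {A : Matrix (Fin k) (Fin k) ℂ} (h : S.FF.Fr Φ) (h' : S.FF.Fr (A * Φ)) :
    A * Aᴴ = 1 := by
  rw [← (S.frF_iff.1 h').2, conjTranspose_mul, Matrix.mul_assoc, ← Matrix.mul_assoc Φ,
    (S.frF_iff.1 h).2, Matrix.one_mul]

theorem yhc9_fr {A : Matrix (Fin k) (Fin k) ℂ} (hA : S.Blk A) (hu : A * Aᴴ = 1)
    (h : S.FF.Fr Φ) : S.FF.Fr (A * Φ) :=
  S.frF_iff.2 ⟨fun a x c => by
    rw [← S.phi_asm (S.frF_iff.1 h).1, ← S.phi_ten hA, S.phi_off _ a x c], by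
    rw [conjTranspose_mul, Matrix.mul_assoc, ← Matrix.mul_assoc Φ, (S.frF_iff.1 h).2,
      Matrix.one_mul, hu]⟩

theorem yhc9_ord {σ : Equiv.Perm (Fin k)} {w : Equiv.Perm I} (h : S.Lf σ w) (i j : I) :
    Ord ((π.map (pre ⇑σ⁻¹)).map (pre S.slot)) (w i) (w j) ↔ Ord (π.map (pre S.slot)) i j := by
  rw [ord_pre, ord_pre, ord_pre, h.slot, h.slot]
  simp

theorem exists_kap (hπ : Part π) (hR : R ⊆ rks (π.map (pre S.slot))) :
    ∃ f : C(Ln S.FF, (QP hD).Ch R), ∀ Φ (h : S.FF.Fr Φ),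
      f h.ln = chn hD (S.sl.cm_pre hπ) (S.stF hD h) (S.tri hπ) hR :=
  LD.exists_desc (fun _ h => chn hD (S.sl.cm_pre hπ) (S.stF hD h) (S.tri hπ) hR)
    (chn_cont (f := fun Φ : {Φ // S.FF.Fr Φ} => (S.P0, S.asm Φ.1))
      (continuous_const.prodMk (S.cont_asm.comp continuous_subtype_val)) _ _ hR)
    fun Φ h Ψ h' u hu e => by
      subst e
      exact S.yhc9_act hD hπ hR (S.blk_diagonal u) (by
        rw [det_diagonal]
        exact (Finset.prod_ne_zero_iff.2 fun a _ => hu a).isUnit)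
        (fun a b c => diagonal_apply_ne _ fun e => c (e ▸ hπ.refl a)) h h'

/-- the chain of initial sums of a frame -/
def kap (hπ : Part π) (hR : R ⊆ rks (π.map (pre S.slot))) : C(Ln S.FF, (QP hD).Ch R) :=
  (S.exists_kap hD hπ hR).choose

theorem kap_ln (hπ : Part π) (hR : R ⊆ rks (π.map (pre S.slot))) (h : S.FF.Fr Φ) :
    S.kap hD hπ hR h.ln = chn hD (S.sl.cm_pre hπ) (S.stF hD h) (S.tri hπ) hR :=
  (S.exists_kap hD hπ hR).choose_spec Φ h

/-- the map from the constant diagram to the diagram of chains -/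
def homK : Dg.Hom (wd_cox S.sl.surj).sh (Dg.cst (coxSh (Fin k)) (Ln S.FF)) (QP hD).dg where
  g {π _} h := S.kap hD π.2 h
  gl {π π' _} h h' x := by
    obtain ⟨Φ, hΦ, rfl⟩ := LD.exists_fr x
    exact (S.kap_ln hD π'.2 h' hΦ).trans
      ((chn_ref ((wd_cox S.sl.surj).rel h) _ h').symm.trans (S.kap_ln hD π.2 _ hΦ).symm)
  gr {π _ _} h h' x := by
    obtain ⟨Φ, hΦ, rfl⟩ := LD.exists_fr x
    exact (congrArg _ (S.kap_ln hD π.2 h hΦ)).trans
      ((chn_face h h').trans (S.kap_ln hD π.2 _ hΦ).symm)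

/-- the action on the constant diagram -/
abbrev actK : Dg.Act (Dg.cst (coxSh (Fin k)) (Ln S.FF)) S.W := (S.syF _).ta.cox S.W.subtype

theorem homK_inv : (S.homK hD).Inv S.actK := by
  refine ⟨fun σ π R => (one_mul _).trans (if_congr ?_ rfl rfl), fun σ π π' R e h h' x => ?_⟩
  · obtain ⟨w, hw⟩ := S.exists_lf σ
    exact Eq.congr_left (rks_rl w (π.2.pre S.sl.surj) ((S.actK.a σ π).2.pre S.sl.surj)
      (S.yhc9_ord hw))
  · obtain ⟨w, hw⟩ := S.exists_lf σ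
    obtain ⟨Φ, hΦ, rfl⟩ := LD.exists_fr x
    subst e
    exact (congrArg _ ((S.syF _).ta_ln σ hΦ)).trans ((S.kap_ln hD (S.actK.a σ π).2 h' _).trans
      ((chn_rl w hw.col hw.P0 (hw.asm Φ) (S.yhc9_ord hw) h h').trans (S.kap_ln hD π.2 h hΦ).symm))

/-- the points of the closed orbit -/
def PS : Set D.XS := {x | ∃ p hp, pt p hp = x ∧ D.Iso S.P0 p.1}

theorem mem_PS {x : D.XS} :
    x ∈ S.PS ↔ ∃ Φ, ∃ h : S.FF.Fr Φ, x = pt (S.P0, S.asm Φ) (S.stF hD h) := by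
  refine ⟨?_, fun ⟨Φ, h, e⟩ => ⟨_, _, e.symm, Iso.refl _⟩⟩
  rintro ⟨p, hp, rfl, g, hg, e⟩
  have h1 : g⁻¹ ∈ D.P := hD.P_eq ▸ inv_mem_P hg
  have h2 : act g⁻¹ p = (S.P0, S.asm (S.Phi (g⁻¹ * p.2))) :=
    Prod.ext (by rw [act, ← e, actR_inv hg.2]) (S.asm_phi _).symm
  have h3 := (st_iff.1 (h2 ▸ hp.act h1)).2.2
  rw [S.asm_phi] at h3
  obtain ⟨A, hA, hu, h⟩ := S.exists_frF h3
  exact ⟨_, h, (pt_eq_iff _ _).2 ⟨_, mul_mem_P (hD.P_eq ▸ (S.ten_fix hA hu).1) h1, by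
    rw [act_mul, h2, S.act_ten hA hu]⟩⟩

include hD in
theorem PS_closed : IsClosed S.PS := by
  obtain ⟨π, hπ, -⟩ := yhc1_word fun _ : Fin k => 0
  have e : S.PS = range (((QP hD).pr ∅).comp (S.kap hD hπ (Finset.empty_subset _))) := by
    ext x
    rw [S.mem_PS hD]
    constructor
    · rintro ⟨Φ, h, rfl⟩
      exact ⟨h.ln, congrArg ((QP hD).pr ∅) (S.kap_ln hD hπ _ h)⟩
    · rintro ⟨y, rfl⟩
      obtain ⟨Φ, h, rfl⟩ := LD.exists_fr y
      exact ⟨Φ, h, congrArg ((QP hD).pr ∅) (S.kap_ln hD hπ _ h)⟩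
  rw [e]
  exact (isCompact_range (map_continuous _)).isClosed

theorem kap_sur (y : (QP hD).Ch R) (hy : (QP hD).pr R y ∈ S.PS) :
    ∃ (π : List (Finset (Fin k))) (hπ : Part π) (e : rks (π.map (pre S.slot)) = R) (x : Ln S.FF),
      S.kap hD hπ e.ge x = y := by
  obtain ⟨Φ, h, e⟩ := (S.mem_PS hD).1 hy
  obtain ⟨U, h1, h2⟩ := exists_sub y e
  obtain ⟨A, hu, hA, T, h3, h4⟩ := S.chain U h2 fun r => (h1 r).1
  have u1 : A * Aᴴ = 1 := mem_unitaryGroup_iff.1 hu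
  have u2 := isUnit_det_of_right_inverse u1
  have h' := S.yhc9_fr (S.blk_star hA)
    (by rw [conjTranspose_conjTranspose]; exact mem_unitaryGroup_iff'.1 hu) h
  have hg := (S.ten_fix hA u2).1
  have e1 : act (S.ten A) (S.P0, S.asm (Aᴴ * Φ)) = (S.P0, S.asm Φ) := by
    rw [S.act_ten hA u2, ← Matrix.mul_assoc, u1, Matrix.one_mul]
  obtain ⟨u, hu, ht, e2, h5, h6⟩ := chn_of_sp (hp := S.stF hD h') y
    (e.trans ((pt_eq_iff _ _).2 ⟨_, hD.P_eq ▸ hg, e1.symm⟩).symm) (fun r => pre S.slot (T r))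
    fun r => by
      rw [(h1 r).2, h4, ← e1, yhc6_nn hg]
      exact congrArg (fun F => D.Nn _ (sp F)) (Set.ext fun i => by simp)
  obtain ⟨π, hπ, h7⟩ := exists_word (range T)
    (by
      rintro _ ⟨r, rfl⟩
      have := (h5 _).2 ⟨r, rfl⟩
      exact ⟨fun c => this.ne (Finset.ext fun i => by simp [c]),
        fun c => this.nu (Finset.ext fun i => by simp [c])⟩)
    (by
      rintro _ ⟨r, rfl⟩ _ ⟨r', rfl⟩
      exact (h2 r r').imp (h3 r r').1 (h3 r' r).1)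
  obtain rfl : u = π.map (pre S.slot) := hu.1.ext_dn (hπ.pre S.sl.surj) fun G => by
    rw [h5, dn_pre S.sl.surj hπ]
    exact ⟨fun ⟨r, c⟩ => ⟨_, (h7 _).2 ⟨r, rfl⟩, c⟩, fun ⟨b, c, c'⟩ => by
      obtain ⟨r, rfl⟩ := (h7 _).1 c
      exact ⟨r, c'⟩⟩
  exact ⟨π, hπ, e2, h'.ln, (S.kap_ln hD hπ _ h').trans h6⟩

theorem kap_orb (hπ : Part π) (hπ' : Part π') (e : rks (π.map (pre S.slot)) = R)
    (e' : rks (π'.map (pre S.slot)) = R) {x x' : Ln S.FF}
    (h : S.kap hD hπ e.ge x = S.kap hD hπ' e'.ge x') :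
    ∃ σ : S.W, π.map (pre ⇑σ.1⁻¹) = π' := by
  obtain ⟨Φ, hΦ, rfl⟩ := LD.exists_fr x
  obtain ⟨Ψ, hΨ, rfl⟩ := LD.exists_fr x'
  rw [S.kap_ln, S.kap_ln] at h
  obtain ⟨g, hg, e1, e2⟩ := (chn_eq_iff _ _).1 h
  obtain ⟨A, hA, hu, rfl, -⟩ := S.exists_aut (D.P_le hg) e1
  obtain ⟨σ, hσ⟩ := exists_perm hu
  have hW : σ ∈ S.W := fun a => by_contra fun c => hσ a (hA _ _ c)
  obtain ⟨w, hw⟩ := S.exists_lf ⟨σ, hW⟩
  have e3 := (hπ.pre S.sl.surj).eq_pre (hπ'.pre S.sl.surj) w (e.trans e'.symm)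
    fun F F' hF hF' c i hi => by_contra fun c' => hσ (S.slot i) (by
      have := e2 F F' hF hF' c (e ▸ hF.mem_rks) _ _ c' hi
      rwa [S.ten_apply, if_pos (hw.tau i), hw.slot] at this)
  refine ⟨⟨σ, hW⟩, (hπ.pre σ⁻¹.surjective).ext hπ' fun a b => ?_⟩
  obtain ⟨i, rfl⟩ := (S.sl.surj.comp w.surjective) a
  obtain ⟨j, rfl⟩ := (S.sl.surj.comp w.surjective) b
  refine (ord_pre (s := S.slot) (i := w i) (j := w j)).symm.trans ((S.yhc9_ord hw i j).trans ?_)
  rw [e3, ord_pre, ord_pre]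
  rfl

theorem kap_fib (hπ : Part π) (e : rks (π.map (pre S.slot)) = R) (h : S.FF.Fr Φ) :
    S.kap hD hπ e.ge ⁻¹' {S.kap hD hπ e.ge h.ln} =
      h.fib fun a b => S.c a = S.c b ∧ Ord π a b ∧ Ord π b a := by
  ext x
  constructor
  · intro hx
    obtain ⟨Ψ, h', rfl⟩ := LD.exists_fr x
    obtain ⟨g, hg, e1, e2⟩ := chn_inj e ((S.kap_ln hD hπ _ h).symm.trans
      ((Eq.symm hx).trans (S.kap_ln hD hπ _ h')))
    obtain ⟨A, hA, -, rfl, e3⟩ := S.exists_aut (D.P_le hg) e1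
    rw [S.phi_asm (S.frF_iff.1 h).1, S.phi_asm (S.frF_iff.1 h').1] at e3
    subst e3
    have h1 : ∀ a b, A a b ≠ 0 → Ord π a b := fun a b c => by
      obtain ⟨i, j, rfl, rfl, c'⟩ := S.ten_ne hA c
      exact ord_pre.1 (by_contra fun n => c' (e2 i j n))
    refine ⟨A, h', fun a b c => ⟨by_contra fun n => c (hA a b n), h1 a b c,
      e4_inv hπ.refl (fun _ _ _ => Ord.trans hπ.pw) h1 b a ?_⟩, rfl⟩
    rw [inv_eq_right_inv (S.yhc9_un h h'), conjTranspose_apply]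
    exact star_ne_zero.2 c
  · rintro ⟨A, h', h1, rfl⟩
    exact (S.kap_ln hD hπ _ h').trans ((S.yhc9_act hD hπ _
      (fun a b n => by_contra fun c => n (h1 a b c).1)
      (isUnit_det_of_right_inverse (S.yhc9_un h h'))
      (fun a b n => by_contra fun c => n (h1 a b c).2.1) h h').trans (S.kap_ln hD hπ _ h).symm)

theorem homK_fib (R : (Sh.simp (Fin (Fintype.card I))).ι) (y : (QP hD).dg.X R)
    (hy : (QP hD).pr R y ∈ S.PS) : (S.homK hD).Fib (wd_cox S.sl.surj).mu S.actK R y := by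
  obtain ⟨π, hπ, e, x, rfl⟩ := S.kap_sur hD y hy
  obtain ⟨Φ, h, rfl⟩ := LD.exists_fr x
  refine (S.homK_inv hD).fib_all _ (l₀ := ⟨π, hπ⟩) e.ge e ⟨_, rfl⟩ (fun l _ x e' hx => ?_)
    fun n c hc hi => ?_
  · obtain ⟨σ, hσ⟩ := S.kap_orb hD l.2 hπ e' e hx
    exact ⟨σ, Subtype.ext hσ⟩
  · change c ∈ (CP (S.kap hD hπ e.ge ⁻¹' _) ∅).Z n at hc
    change ∃ a : ℂ, c - a • 1 ∈ (CP (S.kap hD hπ e.ge ⁻¹' _) ∅).B n
    rw [S.kap_fib hD hπ e] at hc ⊢
    refine h.fib_const (S.syF _) ⟨fun a => ⟨rfl, hπ.refl a, hπ.refl a⟩,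
      fun c => ⟨c.1.symm, c.2.2, c.2.1⟩, fun c d => ⟨c.1.trans d.1, c.2.1.trans hπ.pw d.2.1,
        d.2.2.trans hπ.pw c.2.2⟩⟩ (fun _ _ c => c.1)
      (fun w c => ⟨⟨w, fun a => (c a).1.symm⟩, rfl⟩) hc fun g c => hi g (Subtype.ext
        ((hπ.pre g.1⁻¹.surjective).ext hπ fun a b => ?_))
    obtain ⟨a, rfl⟩ := g.1.surjective a
    obtain ⟨b, rfl⟩ := g.1.surjective b
    rw [ord_pre, Equiv.Perm.coe_inv, Equiv.symm_apply_apply, Equiv.symm_apply_apply]
    exact ⟨fun d => ((c a).2.2.trans hπ.pw d).trans hπ.pw (c b).2.1,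
      fun d => ((c a).2.1.trans hπ.pw d).trans hπ.pw (c b).2.2⟩

theorem homK_pre : (S.homK hD).Pre (fun π => rks (π.1.map (pre S.slot))) ⊤
    ((QP hD).ov.fam S.PS) := fun {π R} h _ => (eq_univ_of_forall fun x => by
  obtain ⟨Φ, hΦ, rfl⟩ := LD.exists_fr x
  exact (S.mem_PS hD).2 ⟨Φ, hΦ, congrArg ((QP hD).pr R) (S.kap_ln hD π.2 h hΦ)⟩).symm

theorem stkA :
    (Dg.bc ((QP hD).ov.fam S.PS) ⊥).cx.Mor (S.actK.bc S.actK.inv_top S.actK.inv_bot).cx
      (S.homK hD).map 0 ∧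
    (Dg.bc ((QP hD).ov.fam S.PS) ⊥).cx.QIa (S.actK.bc S.actK.inv_top S.actK.inv_bot).cx
      (S.homK hD).map 0 :=
  have e : (S.homK hD).Pre (fun π => rks (π.1.map (pre S.slot))) ⊥ ⊥ := fun _ _ => rfl
  ⟨((S.homK_inv hD).mor (wd_cox S.sl.surj).mu (S.homK_pre hD) e _ _).cx,
    (S.homK_inv hD).desc (wd_cox S.sl.surj).mu (Dg.Ov.fam_cl _ (S.PS_closed hD)) Dg.Fam.cl_bot
      (S.homK_pre hD) e _ _ fun R y hy => S.homK_fib hD R y hy.1⟩

/-- only the closed orbit matters -/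
theorem stkB {V : Set D.XS} (hV : IsClosed V) (h : ∀ p hp, pt p hp ∈ V ↔ D.Sim p.1 S.P0) :
    (Dg.bc ((QP hD).ov.fam V) ⊥).cx.Mor (Dg.bc ((QP hD).ov.fam S.PS) ⊥).cx LinearMap.id 0 ∧
    (Dg.bc ((QP hD).ov.fam V) ⊥).cx.QIa (Dg.bc ((QP hD).ov.fam S.PS) ⊥).cx LinearMap.id 0 := by
  have h1 : ∀ R, ((QP hD).ov.fam S.PS).A R ⊆ ((QP hD).ov.fam V).A R := fun R =>
    preimage_mono fun _ ⟨p, hp, e, c⟩ => e ▸ (h p hp).2 c.sim.symm
  refine ⟨(Dg.mor_id h1 fun _ => Subset.rfl).cx, fun n => ?_⟩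
  rw [← Dg.cx_quo (A := ⊥) (A₁ := ⊥) h1]
  refine Cx.qi_quo _ _ fun l _ => ?_
  rw [Dg.cx_sub, Dg.Fam.bot_sup]
  refine GP.cone hV (S.PS_closed hD) (fun t ht => ?_) l
  obtain ⟨p, hp, rfl⟩ := exists_pt t
  exact QP_cone hD hp fun c => ht.2 ⟨p, hp, rfl, ((h p hp).1 ht.1).symm.iso S.sem c⟩

end Dat.Pol

end Pool.Agent.CS
end
end

-- part Pool.Agent.P.MP_d34769_ag.YHC8
section

/-! The comparison map from chains of subrepresentations to products. -/

open Set Matrix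

set_option linter.unusedSectionVars false

noncomputable section
namespace Pool.Agent.CS
open Pool.Agent.P.MP_d34769_ag

variable {I : Type} [Fintype I] [DecidableEq I]

section one
variable {T F : Type} [AddCommGroup T] [Module ℂ T] [TopologicalSpace F] [CompactSpace F]
  [T2Space F] {k : ℕ}

theorem yhc8_aug {S : Sh} {A : Gc T} {Y : Sys S fun _ => T} {sg : S.ι → ℤ}
    (H : ∀ k, ∑ j, sg j * S.ε j k = 0) (hA : ∀ i, Y.A i = A)
    (hp : ∀ {i j} (h : S.rel i j) x, Y.pl h x = x) (c : S.ι → T) :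
    augL sg (Y.bg.D c) = A.d (augL sg c) := by
  simp only [augL_apply, cq_δ hA hp, smul_add, Finset.sum_add_distrib, ← map_smul, ← map_sum]
  rw [cq_mm]
  simp [H]

theorem yhc8_sum {W : Type} [AddCommGroup W] [Module ℂ W] (L : W →ₗ[ℂ] T)
    (g : Equiv.Perm (Fin k)) (a : Equiv.Perm (Fin k) → (coxSh (Fin k)).ι → T)
    (b : Equiv.Perm (Fin k) → (coxSh (Fin k)).ι → W)
    (h : ∀ β π, L (b (β * g⁻¹) (coxP (Fin k) g π)) = a β π) :
    ∑ β, coxL coxT T (a β) = ((Equiv.Perm.sign g : ℤ) : ℂ) • L (∑ β, coxL coxT W (b β)) := by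
  rw [map_sum, Finset.smul_sum]
  refine Fintype.sum_equiv (Equiv.mulRight g⁻¹) _ _ fun β => ?_
  rw [coxL_apply, coxL_apply, map_sum, Finset.smul_sum]
  refine Fintype.sum_equiv (Equiv.mulLeft g) _ _ fun σ => ?_
  rw [map_smul, smul_smul, Equiv.coe_mulLeft, Equiv.coe_mulRight, ← yhc2_coxP_T, ← Int.cast_mul,
    ← Units.val_mul, map_mul, ← mul_assoc, Int.units_mul_self, one_mul, h]

theorem yhc8_mem (U : Submodule ℂ T) {a : (coxSh (Fin k)).ι → T} (h : ∀ π, a π ∈ U) :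
    coxL coxT T a ∈ U := by
  rw [coxL_apply]
  exact U.sum_mem fun σ _ => U.smul_mem _ (h _)

theorem coxL_D (hk : 0 < k) (K A : (Dg.cst (coxSh (Fin k)) F).Fam)
    (c : (Dg.cst (coxSh (Fin k)) F).T) :
    coxL coxT (AS F) ((Dg.bc K A).cx.d c) = AS.d (coxL coxT (AS F) c) := by
  classical
  have : Nonempty (Fin k) := ⟨⟨0, hk⟩⟩
  obtain ⟨sg, μ, H, h1⟩ := IsCox.ctr (Equiv.refl (Fin k)) coxSh_isCox (t := coxT) fun _ => rfl
  have h2 : coxL coxT (AS F) = augL sg := LinearMap.ext fun c => by rw [coxL_apply, h1]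
  rw [h2]
  exact yhc8_aug (Y := (Dg.cst (coxSh (Fin k)) F).sys) (A := AS.gc F) H.sε (fun _ => rfl)
    (fun _ x => AS.pull_id x) c

theorem Dg.Hom.map_D {S S' : Sh} {φ : ShH S S'} {P : Dg S} {Q : Dg S'} (f : Dg.Hom φ P Q)
    (K A : P.Fam) (K' A' : Q.Fam) (c : Q.T) :
    f.map ((Dg.bc K' A').cx.d c) = (Dg.bc K A).cx.d (f.map c) := by
  rw [cx_d, cx_d, HT.BG.D_apply, HT.BG.D_apply, map_add, f.sys.map_d, f.sys.map_δ]

theorem Dg.Act.bc_congr {S : Sh} {P : Dg S} {Γ : Type} [Group Γ] (G : Dg.Act P Γ)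
    {K K' A A' : P.Fam} (e : K = K') (e' : A = A') (iK : G.Inv K) (iA : G.Inv A) (iK' : G.Inv K')
    (iA' : G.Inv A') : G.bc iK iA = G.bc iK' iA' := by
  subst e e'
  rfl

end one

variable {col : I → Fin 3} {th : Fin 3 → ℤ} {k m m₁ : ℕ} (h0 : Adm col th [[Finset.univ]])
  (hm : k * m₁ ≤ m)

theorem Sl.rl_pre (s : Sl col th k) {π : List (Finset (Fin k))} (hπ : Part π) (i j : I)
    (h : (s.wx.dat m₁).rl i j) : Ord (π.map (pre s.1)) i j :=
  ord_pre.2 (s.rl_iff.1 h ▸ hπ.refl _)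

/-- the chain of the initial sums of a product -/
def chU (s : Sl col th k) (β : Equiv.Perm (Fin k)) {π : List (Finset (Fin k))} (hπ : Part π)
    {R : Finset (Fin (Fintype.card I))} (h : R ⊆ rks (π.map (pre s.1))) :
    C((s.wx.dat m₁).XS, (QT m h0).Ch R) :=
  Dat.chm (top_Top h0 m) ((s.toSlot rfl rfl).cm_pre hπ) (morX h0 hm s β) (fun _ => rfl)
    (s.rl_pre hπ) h

theorem yhc8_pt (s : Sl col th k) (β : Equiv.Perm (Fin k)) {π : List (Finset (Fin k))}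
    (hπ : Part π) {R : Finset (Fin (Fintype.card I))} (h : R ⊆ rks (π.map (pre s.1)))
    {p : Pt I m₁} (hp : (s.wx.dat m₁).St p) :
    chU h0 hm s β hπ h (Dat.pt p hp) = Dat.chn (top_Top h0 m) ((s.toSlot rfl rfl).cm_pre hπ)
      ((morX h0 hm s β).st hp) ((morX h0 hm s β).tri (fun _ => rfl) (s.rl_pre hπ) hp.mem) h :=
  Dat.chm_pt _ _ _ h hp

/-- the map from the constant diagram to the diagram of chains -/
def homU (s : Sl col th k) (β : Equiv.Perm (Fin k)) :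
    Dg.Hom (wd_cox s.2.1).sh (Dg.cst (coxSh (Fin k)) (s.wx.dat m₁).XS) (QT m h0).dg where
  g {π _} h := chU h0 hm s β π.2 h
  gl {π π' _} h h' x := by
    obtain ⟨p, hp, rfl⟩ := Dat.exists_pt (D := s.wx.dat m₁) x
    exact (yhc8_pt h0 hm s β π'.2 h' hp).trans
      ((Dat.chn_ref ((wd_cox s.2.1).rel h) _ h').symm.trans (yhc8_pt h0 hm s β π.2 _ hp).symm)
  gr {π _ _} h h' x := by
    obtain ⟨p, hp, rfl⟩ := Dat.exists_pt (D := s.wx.dat m₁) x
    exact (congrArg _ (yhc8_pt h0 hm s β π.2 h hp)).trans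
      ((Dat.chn_face h h').trans (yhc8_pt h0 hm s β π.2 _ hp).symm)

theorem homU_ov (s : Sl col th k) (β : Equiv.Perm (Fin k)) {π : (coxSh (Fin k)).ι}
    {R : (Sh.simp (Fin (Fintype.card I))).ι} (h : (wd_cox s.2.1).sh.R π R)
    (x : (s.wx.dat m₁).XS) :
    (Dat.ovQ (top_Top h0 m)).π R ((homU h0 hm s β).g h x) = (ovU h0 hm).π s x := by
  obtain ⟨p, hp, rfl⟩ := Dat.exists_pt (D := s.wx.dat m₁) x
  exact (congrArg _ (yhc8_pt h0 hm s β π.2 h hp)).trans
    ((ovU_iff h0 hm s hp ((morX h0 hm s β).st hp)).2 (Dat.Sim.refl _)).symm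

/-- the comparison map -/
def psi : (QT m h0).dg.T →ₗ[ℂ] (dgU col th k m₁).T :=
  LinearMap.pi fun s => ∑ β, coxL coxT (AS _) ∘ₗ (homU h0 hm s β).map

theorem psi_apply (c : (QT m h0).dg.T) (s : Sl col th k) :
    psi h0 hm c s = ∑ β, coxL coxT (AS _) ((homU h0 hm s β).map c) :=
  LinearMap.sum_apply _ _ _

theorem yhc8_map {S : Sh} {u : S.ι → List (Finset I)} (h : Wd S u) {P : Dg S}
    {Q : Dg (Sh.simp (Fin (Fintype.card I)))} (f : Dg.Hom h.sh P Q) (c : Q.T) (l : S.ι)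
    {R : Finset (Fin (Fintype.card I))} (e : rks (u l) = R) (r : h.sh.R l R) :
    f.map c l = AS.pull (f.g r) (c R) := by
  subst e
  exact h.map f c l r

theorem yhc8_ord {g : Gm col k} {s s' : Sl col th k} (e : actS col th k g s = s')
    (π : (coxSh (Fin k)).ι) (i j : I) :
    Ord ((coxP (Fin k) g.2 π).1.map (pre s'.1)) (g.1.1 i) (g.1.1 j) ↔
      Ord (π.1.map (pre s.1)) i j := by
  rw [ord_pre, ord_pre, coxP_val, ord_pre, actS_eq e, actS_eq e, Equiv.Perm.coe_inv,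
    Equiv.symm_apply_apply, Equiv.symm_apply_apply]

theorem yhc8_ch {g : Gm col k} {s s' : Sl col th k} (e : actS col th k g s = s')
    (β : Equiv.Perm (Fin k)) (π : (coxSh (Fin k)).ι) {R : Finset (Fin (Fintype.card I))}
    (h : R ⊆ rks (π.1.map (pre s.1))) (h' : R ⊆ rks ((coxP (Fin k) g.2 π).1.map (pre s'.1)))
    (x : (s.wx.dat m₁).XS) :
    chU h0 hm s' (β * g.2⁻¹) (coxP (Fin k) g.2 π).2 h' ((morU g e m₁).mc x) =
      chU h0 hm s β π.2 h x := by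
  obtain ⟨p, hp, rfl⟩ := Dat.exists_pt (D := s.wx.dat m₁) x
  refine (congrArg _ ((morU g e m₁).mc_pt hp ((morU g e m₁).st hp))).trans
    ((yhc8_pt h0 hm s' _ (coxP (Fin k) g.2 π).2 h' _).trans
      (Eq.trans ?_ (yhc8_pt h0 hm s β π.2 h hp).symm))
  refine Dat.chn_rl (D := (top h0).dat m) g.1.1 g.1.2 ((morU g e m₁).F_fst p) (fun i r => ?_)
    (yhc8_ord e π) h h'
  have h1 : ((morU g e m₁).F p).2 (g.1.1 i) = p.2 i := funext ((morU g e m₁).F_snd p i)
  have h2 : (β * g.2⁻¹) (s'.1 (g.1.1 i)) = β (s.1 i) := by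
    rw [actS_eq e, ← Equiv.Perm.mul_apply, inv_mul_cancel_right]
  change Function.extend (frB hm ((β * g.2⁻¹) (s'.1 (g.1.1 i))))
    (((morU g e m₁).F p).2 (g.1.1 i)) 0 r = Function.extend (frB hm (β (s.1 i))) (p.2 i) 0 r
  rw [h1, h2]

theorem yhc8_pull {g : Gm col k} {s s' : Sl col th k} (e : actS col th k g s = s')
    (β : Equiv.Perm (Fin k)) (π : (coxSh (Fin k)).ι) (c : (QT m h0).dg.T) :
    AS.pull (morU g e m₁).mc ((homU h0 hm s' (β * g.2⁻¹)).map c (coxP (Fin k) g.2 π)) =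
      (homU h0 hm s β).map c π := by
  have h1 := rks_rl g.1.1 (π.2.pre s.2.1) ((coxP (Fin k) g.2 π).2.pre s'.2.1) (yhc8_ord e π)
  refine (congrArg _ (yhc8_map (wd_cox s'.2.1) (homU h0 hm s' (β * g.2⁻¹)) c
    (coxP (Fin k) g.2 π) h1 h1.ge)).trans (Eq.trans ?_
      (yhc8_map (wd_cox s.2.1) (homU h0 hm s β) c π rfl (Finset.Subset.refl _)).symm)
  exact (AS.pull_pull _ _ _).trans
    (congrArg (AS.pull · _) (funext (yhc8_ch h0 hm e β π (Finset.Subset.refl _) h1.ge)))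

theorem psi_fix (c : (QT m h0).dg.T) : psi h0 hm c ∈ Fix (actU col th k m₁).r :=
  mem_fixU.2 fun g s s' e => (psi_apply h0 hm c s).trans
    ((yhc8_sum (AS.pl (morU g e m₁).mc) g.2 (fun β => (homU h0 hm s β).map c)
      (fun β => (homU h0 hm s' β).map c) fun β π => yhc8_pull h0 hm e β π c).trans
      (congrArg (fun z => _ • AS.pull (morU g e m₁).mc z) (psi_apply h0 hm c s').symm))

/-- the constant diagram over the space of classes -/
def yhc8_ov (s : Sl col th k) :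
    Dg.Ov (Dg.cst (coxSh (Fin k)) (s.wx.dat m₁).XS) ((top h0).dat m).MS :=
  ⟨fun _ => (ovU h0 hm).π s, fun _ _ => rfl⟩

theorem yhc8_sc (s : Sl col th k) (β : Equiv.Perm (Fin k)) :
    (Dat.ovQ (top_Top h0 m)).sc.Mor (yhc8_ov h0 hm s).sc (homU h0 hm s β).map 0 :=
  Dg.Hom.sc_mor _ _ _ (homU_ov h0 hm s β) _ _ _ _ (fun _ => mapsTo_univ _ _)
    fun _ => mapsTo_empty _ _

/-- the comparison map over the space of classes -/
theorem psi_sc (hk : 0 < k) : (Dat.ovQ (top_Top h0 m)).sc.Mor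
    ((actU col th k m₁).sc_act (ovU h0 hm) (ovU_act h0 hm) Dg.Fam.cl_top Dg.Fam.cl_bot
      (actU col th k m₁).inv_top (actU col th k m₁).inv_bot).inv (psi h0 hm) 0 := by
  have : Nonempty (Fin k) := ⟨⟨0, hk⟩⟩
  refine ⟨fun n x hx => ?_, fun t x hx => ?_, fun t x => ?_⟩
  · rw [SC.Act.inv_G]
    refine ⟨Dg.one_mem_G.2 fun s => Cx.meq (Submodule.sum_mem _ fun β _ => ?_)
      (psi_apply h0 hm x s).symm, psi_fix h0 hm x⟩
    exact Cx.Gcast ((IsCox.qi (Equiv.refl (Fin k)) coxSh_isCox (t := coxT) (fun _ => rfl)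
      (univ : Set ((Sl.wx s).dat m₁).XS) ∅).1.fG _ _ ((yhc8_sc h0 hm s β).fG n x hx)) (by omega)
  · refine (Dg.mem_N (A := ⊥)).2 fun s => Cx.meq (Submodule.sum_mem _ fun β _ => ?_)
      (psi_apply h0 hm x s).symm
    exact yhc8_mem _ ((Dg.mem_N (A := ⊥)).1 ((yhc8_sc h0 hm s β).fz t x hx))
  · refine Cx.meq (Submodule.zero_mem _) (sub_eq_zero.2 (funext fun s => ?_)).symm
    refine (psi_apply h0 hm _ s).trans (Eq.trans ?_
      ((Dg.one_d (K := ⊤) (A := ⊥) (psi h0 hm x) s).trans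
        (congrArg AS.d (psi_apply h0 hm x s))).symm)
    refine Eq.trans (Finset.sum_congr rfl fun β _ => ?_) (map_sum AS.d _ _).symm
    exact (congrArg _ ((homU h0 hm s β).map_D ⊤ ⊥ ⊤ ⊥ x)).trans (coxL_D hk ⊤ ⊥ _)

end Pool.Agent.CS
end
end

-- part Pool.Agent.P.MP_d34769_ag.YHCb
section

/-! The products over one class. -/

open Set Matrix

set_option linter.unusedSectionVars false

noncomputable section
namespace Pool.Agent.CS
open Pool.Agent.P.MP_d34769_ag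

variable {I : Type} [Fintype I] [DecidableEq I] {col : I → Fin 3} {th : Fin 3 → ℤ} {k m : ℕ}
  {h0 : Adm col th [[Finset.univ]]} (S : ((top h0).dat m).Pol k) (m₁ : ℕ)

namespace Dat.Pol

/-- the slots of the normal form -/
def s0 : Sl col th k := ⟨S.slot, S.sl.surj, S.sl.bal⟩

/-- the data of the lines -/
abbrev PP : LD Unit (I × Fin m₁) (Fin k) := S.ldP (Fin m₁)

variable {m₁} {Ψ : Matrix (Fin k) (I × Fin m₁) ℂ}

theorem yhcb_sub {ρ : Rp I} {U : Submodule ℂ (I → ℂ)} (h : (S.s0.wx.dat m₁).Sub ρ U) :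
    ((top h0).dat m).Sub ρ U :=
  ye2_sub_mono (E := (top h0).dat m) (D := S.s0.wx.dat m₁) rfl
    (fun i j _ => (top_Top h0 m).cp i j) h

theorem yhcb_ss : (S.s0.wx.dat m₁).SS th S.P0 := fun U hU => S.ss U (S.yhcb_sub hU)

theorem yhcb_A (T : Set (Fin k)) : (S.s0.wx.dat m₁).A S.P0 (sp (S.slot ⁻¹' T)) :=
  ⟨sub_sp.2 (sub_sp.1 (S.a_slot T).1), (S.a_slot T).2⟩

theorem stP_iff {f : Matrix I (Fin m₁) ℂ} :
    (S.s0.wx.dat m₁).St (S.P0, f) ↔ ∀ a, S.Phi f a ≠ 0 := by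
  refine ⟨fun h a e => ?_, fun h => st_iff.2 ⟨fun a i j c => ?_, S.yhcb_ss,
    (Dat.gen_iff S.yhcb_ss).2 fun U hU hf => ?_⟩⟩
  · have h1 := (Dat.gen_iff S.yhcb_ss).1 (st_iff.1 h).2.2 _ (S.yhcb_A {a}ᶜ) fun r =>
      mem_sp.2 fun i hi => (S.phi_val f i r).symm.trans (by rw [not_not.1 hi, e]; rfl)
    obtain ⟨i, hi⟩ := S.sl.surj a
    exact sp_inj.1 (h1.trans sp_univ.symm) ▸ mem_univ i <| hi
  · by_cases e : S.slot i = S.slot j
    · exact S.mem a i j fun d => c ⟨d.1, d.2.1, S.s0.rl_iff.2 e⟩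
    · exact S.off a i j e
  · have h4 : ∀ a, sp {i | S.slot i = a} ≤ U := fun a => by
      have h5 := hU.inf S.yhcb_ss (S.yhcb_A {a})
      obtain ⟨x, hx⟩ := Function.ne_iff.1 (h a)
      obtain ⟨i, hi, h6⟩ := Finset.exists_ne_zero_of_sum_ne_zero hx
      by_contra h7
      refine ((S.stb a).2 _ (S.yhcb_sub h5.1) inf_le_right (fun c => h6 ?_)
        fun c => h7 (inf_eq_right.1 c)).ne h5.2
      have h8 := congrFun ((Submodule.eq_bot_iff _).1 c _ ⟨hU.1.pr_mem (Dat.cc_eq _)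
        (F := {i | S.slot i = a}) (fun i j e hi => (S.s0.cp_iff.1 e.2).symm.trans hi) (hf x.2),
        prmem_YE1 _ _⟩) i
      rwa [pr_mulVec, if_pos (show i ∈ {i | S.slot i = a} from (Finset.mem_filter.1 hi).2.1)] at h8
    refine eq_top_iff.2 fun v _ => ?_
    rw [← Finset.univ_sum_single v]
    refine Submodule.sum_mem _ fun i _ =>
      h4 (S.slot i) (mem_sp.2 fun j hj => Pi.single_eq_of_ne ?_ _)
    rintro rfl
    exact hj rfl

theorem stP (h : (S.PP m₁).Fr Ψ) : (S.s0.wx.dat m₁).St (S.P0, S.asm Ψ) :=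
  S.stP_iff.2 fun a c => h.ne a ((congrFun (S.phi_asm (S.frP_iff.1 h).1) a).symm.trans c)

theorem yhcb_diag {u : Fin k → ℂ} (hu : ∀ a, u a ≠ 0) {Φ : Matrix (Fin k) (I × Fin m₁) ℂ}
    (e : Ψ = diagonal u * Φ) (h : (S.s0.wx.dat m₁).St (S.P0, S.asm Φ))
    (h' : (S.s0.wx.dat m₁).St (S.P0, S.asm Ψ)) :
    pt (S.P0, S.asm Ψ) h' = pt (D := S.s0.wx.dat m₁) (S.P0, S.asm Φ) h := by
  have h1 : IsUnit (diagonal u).det := by
    rw [det_diagonal]
    exact isUnit_iff_ne_zero.2 (Finset.prod_ne_zero_iff.2 fun a _ => hu a)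
  exact ((pt_eq_iff h h').2 ⟨S.ten (diagonal u), ⟨S.ten_diagonal u ▸ diagonal_mem_Lie _ _,
    (S.ten_unit (S.blk_diagonal u)).2 h1⟩, e ▸ (S.act_ten (S.blk_diagonal u) h1 Φ).symm⟩).symm

variable (m₁) in
theorem exists_xi : ∃ ξ : C(Ln (S.PP m₁), (S.s0.wx.dat m₁).XS), ∀ Ψ (h : (S.PP m₁).Fr Ψ),
    ξ h.ln = pt (S.P0, S.asm Ψ) (S.stP h) :=
  LD.exists_desc (fun Ψ h => pt (D := S.s0.wx.dat m₁) (S.P0, S.asm Ψ) (S.stP h))
    (cont_pt (continuous_const.prodMk (S.cont_asm.comp continuous_subtype_val)) _)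
    fun _ _ _ _ _ hu e => S.yhcb_diag hu e _ _

variable (m₁) in
/-- the product of projective spaces as a fibre -/
def xi : C(Ln (S.PP m₁), (S.s0.wx.dat m₁).XS) := (S.exists_xi m₁).choose

theorem xi_ln (h : (S.PP m₁).Fr Ψ) : S.xi m₁ h.ln = pt (S.P0, S.asm Ψ) (S.stP h) :=
  (S.exists_xi m₁).choose_spec Ψ h

theorem xi_inj : Function.Injective (S.xi m₁) := fun x y e => by
  obtain ⟨Φ, h, rfl⟩ := LD.exists_fr x
  obtain ⟨Ψ, h', rfl⟩ := LD.exists_fr y
  rw [xi_ln, xi_ln] at e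
  obtain ⟨g, hg, e⟩ := (pt_eq_iff _ _).1 e
  obtain ⟨A, hA, -, rfl, e'⟩ := S.exists_aut (m := m₁) (f := S.asm Φ) (f' := S.asm Ψ) (g := g)
    ⟨fun i j c => hg.1 i j fun d => c ⟨d.1, (top_Top h0 m).cp i j⟩, hg.2⟩ e
  rw [S.phi_asm (S.frP_iff.1 h).1, S.phi_asm (S.frP_iff.1 h').1] at e'
  have h1 : A = diagonal fun a => A a a := by
    ext a b
    by_cases c : a = b
    · rw [c, diagonal_apply_eq]
    · rw [diagonal_apply_ne _ c]
      by_contra d
      obtain ⟨i, j, rfl, rfl, d'⟩ := S.ten_ne hA d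
      exact d' (hg.1 i j fun n => c (S.s0.gl_iff.1 n.2))
  rw [h1] at e'
  exact (h.ln_eq_iff h').2 ⟨_, fun a c => h'.ne a (by rw [e', yhc3_diag, c, zero_smul]), e'⟩

theorem mem_range_xi {z : (S.s0.wx.dat m₁).XS} :
    z ∈ range (S.xi m₁) ↔ ∃ f hf, z = pt (D := S.s0.wx.dat m₁) (S.P0, f) hf := by
  constructor
  · rintro ⟨x, rfl⟩
    obtain ⟨Φ, h, rfl⟩ := LD.exists_fr x
    exact ⟨_, _, S.xi_ln h⟩
  · rintro ⟨f, hf, rfl⟩
    have h1 := S.stP_iff.1 hf
    obtain ⟨Φ, h, e⟩ := LD.exists_fr (D := S.PP m₁) ⟨((), fun a => lnv (S.Phi f a)),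
      fun a => ⟨OP.lnv (h1 a), le_lnv (S.le_iff.2 (S.phi_off f a))⟩, fun _ _ n c => (n c).elim⟩
    choose u hu using fun a => (lnv_eq_iff (h1 a) (h.ne a)).1 (congrArg (Ln.l _ a).Q e).symm
    refine ⟨h.ln, (S.xi_ln h).trans ((S.yhcb_diag (u := u)
      (fun a c => h.ne a (by rw [hu, c, zero_smul]))
      (funext fun a => (hu a).trans (yhc3_diag u _ a).symm) ((S.asm_phi f).symm ▸ hf) _).trans
      (Subtype.ext (congrArg (fun x => Dat.pt0 _ (S.P0, x)) (S.asm_phi f))))⟩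

theorem yhcb_mem {q : Pt I m₁} (hq : (S.s0.wx.dat m₁).St q) :
    pt q hq ∈ range (S.xi m₁) ↔ ∃ g ∈ (S.s0.wx.dat m₁).P, actR g S.P0 = q.1 := by
  rw [mem_range_xi]
  constructor
  · rintro ⟨f, hf, e⟩
    obtain ⟨g, hg, e⟩ := (pt_eq_iff _ _).1 e.symm
    exact ⟨g, hg, (congrArg Prod.fst e).symm⟩
  · rintro ⟨g, hg, e⟩
    have h1 : act g⁻¹ q = (S.P0, g⁻¹ * q.2) :=
      Prod.ext ((congrArg (actR g⁻¹) e.symm).trans (actR_inv hg.2 _)) rfl
    exact ⟨_, h1 ▸ hq.act (inv_mem_P hg), (pt_eq_iff _ _).2 ⟨_, inv_mem_P hg, h1.symm⟩⟩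

theorem xi_cov (s : Sl col th k) {p : Pt I m₁} (hp : (s.wx.dat m₁).St p)
    (h : ((top h0).dat m).Sim p.1 S.P0) : ∃ g, ∃ e : actS col th k g s = S.s0,
      (morU g e m₁).mc (pt p hp) ∈ range (S.xi m₁) := by
  have hb : ∀ a i j, s.1 i ≠ s.1 j → p.1 a i j = 0 := fun a i j n =>
    hp.mem a i j fun c => n (s.rl_iff.1 c.2.2)
  have hs : ((top h0).dat m).SS th p.1 := (ss_congr (D := s.wx.dat m₁)
    (E := (top h0).dat m) rfl (fun i j _ => (top_Top h0 m).cp i j) (R_le _ hp.mem)).2 hp.ss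
  have hl : ((top h0).dat m).Slot s.1 := s.toSlot rfl rfl
  obtain ⟨σ, w, hw, g, hg, h1, h2⟩ := S.uniq hl hb (h.symm.iso S.sem (sem_of_blocks hl hb
    fun a => by_contra fun c => S.not_n (h.n hs S.ss ((n_succ_iff hl hs hb).2 ⟨a, c⟩))))
  have h3 : IsUnit (g.submatrix w id).det := isUnit_det_of_right_inverse
    (B := g⁻¹.submatrix id w) (by rw [← submatrix_mul _ _ _ id _ Function.bijective_id,
      mul_nonsing_inv _ hg.2, submatrix_one_equiv])
  refine ⟨((⟨w, fun i => (hw i).1.1⟩ : Wc col)⁻¹, σ⁻¹), Subtype.ext (funext fun i =>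
    σ.symm_apply_eq.2 (hw i).2), ?_⟩
  rw [Mor.mc_pt _ hp (Mor.st _ hp)]
  refine (S.yhcb_mem _).2 ⟨g.submatrix w id, ⟨fun i j c => by_contra fun d => c
    ⟨(hw i).1.1.symm.trans (by_contra fun n => d (hg.1 _ _ fun x => n x.1)), S.s0.gl_iff.2
      (σ.injective ((hw i).2.symm.trans (by_contra fun n => d (h1 _ _ n))))⟩, h3⟩,
    (actR_eq_iff h3).2 fun a => ?_⟩
  exact (congrArg (submatrix · w id) ((actR_eq_iff hg.2).1 h2 a)).trans
    (submatrix_mul_equiv _ _ _ w _).symm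

theorem xi_dis (g : Gm col k) (e : actS col th k g S.s0 = S.s0) (x : Ln (S.PP m₁))
    (h : (morU g e m₁).mc (S.xi m₁ x) ∈ range (S.xi m₁)) (y : Ln (S.PP m₁)) :
    (morU g e m₁).mc (S.xi m₁ y) ∈ range (S.xi m₁) := by
  obtain ⟨Φ, h1, rfl⟩ := LD.exists_fr x
  obtain ⟨Ψ, h2, rfl⟩ := LD.exists_fr y
  rw [xi_ln, Mor.mc_pt _ _ (Mor.st _ (S.stP ‹_›))] at h ⊢
  have h3 := (S.yhcb_mem _).1 h
  exact (S.yhcb_mem _).2 h3

theorem xi_act (σ : S.W) : ∃ w : Wc col, ∃ e : actS col th k (w, σ.1) S.s0 = S.s0,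
    ∀ y, (morU _ e m₁).mc (S.xi m₁ y) = S.xi m₁ ((S.syP _).ta.t σ y) := by
  obtain ⟨w, hw⟩ := S.exists_lf σ
  refine ⟨⟨w, hw.col⟩, Subtype.ext (funext fun i =>
    (hw.slot _).symm.trans (congrArg S.slot (w.apply_symm_apply i))), fun y => ?_⟩
  obtain ⟨Φ, h, rfl⟩ := LD.exists_fr y
  rw [LD.Sy.ta_ln, xi_ln, xi_ln, Mor.mc_pt _ _ (Mor.st _ (S.stP h))]
  exact Subtype.ext (congrArg (Dat.pt0 _)
    (Mor.ye2_ext _ _ hw.P0 (hw.asm Φ) fun _ r c => absurd rfl (c r)))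

/-- the character of the stabiliser -/
abbrev sg {D : Dat I} (S : D.Pol k) : S.W →* ℤˣ := Equiv.Perm.sign.comp S.W.subtype

theorem xi_fix {c : (dgU col th k m₁).T} (hc : c ∈ Fix (actU col th k m₁).r) :
    AS.pull (S.xi m₁) (c S.s0) ∈ Fix ((S.syP (Fin m₁)).ta.r S.sg) :=
  (TA.mem_fix _ _).2 fun σ => by
    obtain ⟨w, e, h⟩ := S.xi_act (m₁ := m₁) σ
    refine (congrArg (AS.pull (S.xi m₁)) (mem_fixU.1 hc _ e)).trans
      ((map_smul _ _ _).trans (congrArg (_ • ·) ?_))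
    exact (AS.pull_pull _ _ _).trans ((congrArg (AS.pull · _) (funext h)).trans
      (AS.pull_pull _ _ _).symm)

end Dat.Pol

end Pool.Agent.CS
end
end

-- part Pool.Agent.P.MP_d34769_ag.YHCa
section

/-! Comparison of the two fibres over one class. -/

open Set Matrix

set_option linter.unusedSectionVars false

noncomputable section
namespace Pool.Agent.CS
open Pool.Agent.P.MP_d34769_ag

section gen
variable {I : Type} [Fintype I] [DecidableEq I] {D : Dat I} {k : ℕ} (S : D.Pol k) {μ ν : Type}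
  [Fintype μ] [DecidableEq μ] [Fintype ν] [DecidableEq ν] {b : Fin k → ν ↪ μ}
  (hb : ∀ {a a'}, a ≠ a' → ∀ r r', b a r ≠ b a' r') {Ψ : Matrix (Fin k) (I × ν) ℂ}

/-- the inclusion of a block of the framing -/
def Jm (I : Type) [DecidableEq I] (e : ν ↪ μ) : Matrix (I × μ) (I × ν) ℂ :=
  of fun x y => if x.1 = y.1 ∧ x.2 = e y.2 then 1 else 0

theorem Jm_mulVec (e : ν ↪ μ) (v : I × ν → ℂ) (i : I) (r : μ) :
    (Jm I e *ᵥ v) (i, r) = Function.extend e (fun s => v (i, s)) 0 r := by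
  by_cases h : ∃ s, e s = r
  · obtain ⟨s, rfl⟩ := h
    rw [e.injective.extend_apply, mulVec, dotProduct, Finset.sum_eq_single (i, s)]
    · simp [Jm]
    · rintro ⟨j, t⟩ - n
      rw [Jm, of_apply, if_neg fun c => n (Prod.ext c.1.symm (e.injective c.2).symm), zero_mul]
    · simp
  · rw [Function.extend_apply' _ _ _ h, mulVec, dotProduct]
    exact Finset.sum_eq_zero fun x _ => by
      rw [Jm, of_apply, if_neg fun c => h ⟨_, c.2.symm⟩, zero_mul]

theorem Jm_dot (e e' : ν ↪ μ) (v w : I × ν → ℂ) : star (Jm I e *ᵥ v) ⬝ᵥ (Jm I e' *ᵥ w) =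
    ∑ i, ∑ s, star (v (i, s)) * (Jm I e' *ᵥ w) (i, e s) := by
  rw [dotProduct, Fintype.sum_prod_type]
  refine Finset.sum_congr rfl fun i _ => (Finset.sum_of_injOn e e.injective.injOn
    (fun _ _ => Finset.mem_univ _) (fun r _ h => ?_) fun s _ => ?_).symm
  · rw [Pi.star_apply, Jm_mulVec, Function.extend_apply' _ _ _ fun ⟨s, c⟩ => h ⟨s, by simp, c⟩]
    simp
  · rw [Pi.star_apply, Jm_mulVec e, e.injective.extend_apply]

namespace Dat.Pol

include hb in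
theorem Jm_fr (β : Equiv.Perm (Fin k)) (Ψ : Matrix (Fin k) (I × ν) ℂ) (h : (S.ldP ν).Fr Ψ) :
    (S.ldF μ).Fr (of fun a => Jm I (b (β a)) *ᵥ Ψ a) := by
  refine ⟨fun a => S.le_iff.2 fun x hx => ?_, fun a => ?_, fun a a' n _ => ?_⟩
  · refine (Jm_mulVec _ _ x.1 x.2).trans ?_
    rw [show (fun s => Ψ a (x.1, s)) = 0 from funext fun s => (S.frP_iff.1 h).1 a _ hx]
    exact congrFun (Function.extend_zero _) _
  · refine (Jm_dot _ _ _ _).trans (Eq.trans ?_ (h.unit a))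
    simp only [Jm_mulVec, Function.Injective.extend_apply (b (β a)).injective, dotProduct,
      Fintype.sum_prod_type, Pi.star_apply]
  · refine (Jm_dot _ _ _ _).trans (Finset.sum_eq_zero fun i _ => Finset.sum_eq_zero fun s _ => ?_)
    rw [Jm_mulVec, Function.extend_apply' _ _ _ fun ⟨t, c⟩ => hb (β.injective.ne n) s t c.symm]
    simp

/-- the map to the orthogonal lines -/
def nu (β : Equiv.Perm (Fin k)) : C(Ln (S.ldP ν), Ln (S.ldF μ)) :=
  (LD.exists_emb (fun a => Jm I (b (β a))) (S.Jm_fr hb β)).choose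

theorem nu_ln (β : Equiv.Perm (Fin k)) (h : (S.ldP ν).Fr Ψ) :
    S.nu hb β h.ln = (S.Jm_fr hb β Ψ h).ln :=
  (LD.exists_emb (fun a => Jm I (b (β a))) (S.Jm_fr hb β)).choose_spec.1 Ψ h

theorem nu_y (β : Equiv.Perm (Fin k)) (a : Fin k) :
    HE.pull (S.nu hb β) ((S.ldF μ).y a) = (S.ldP ν).y a :=
  (LD.exists_emb (fun a => Jm I (b (β a))) (S.Jm_fr hb β)).choose_spec.2 a

theorem nu_act (σ : S.W) (β : Equiv.Perm (Fin k)) (x : Ln (S.ldP ν)) :
    (S.syF μ).ta.t σ (S.nu hb β x) = S.nu hb (β * σ.1⁻¹) ((S.syP ν).ta.t σ x) := by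
  obtain ⟨Ψ, h, rfl⟩ := LD.exists_fr x
  rw [nu_ln, LD.Sy.ta_ln, LD.Sy.ta_ln, nu_ln]
  rfl

theorem nu_qi {n : ℕ} (hn : n < Fintype.card ν) :
    ((S.syF μ).ta.act S.sg).inv.Mor ((S.syP ν).ta.act S.sg).inv (∑ β, AS.pl (S.nu hb β)) 0 ∧
    ((S.syF μ).ta.act S.sg).inv.QI ((S.syP ν).ta.act S.sg).inv (∑ β, AS.pl (S.nu hb β)) 0 n := by
  have h3 := LD.ev_inj (D := S.ldP ν) (S.ldP_n ν hn)
  have h4 := (sum_pl_qi (S.nu hb) (S.ldF μ).y (S.ldP ν).y (LD.y_mem (D := S.ldF μ)) (S.nu_y hb)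
    (LD.ev_surj _) (LD.ev_surj _) h3).2
  exact sum_pl_inv (S.nu hb) (S.syF μ).ta (S.syP ν).ta S.sg
    (fun σ => ⟨Equiv.mulRight σ.1⁻¹, fun β x => S.nu_act hb σ β x⟩) h4

end Dat.Pol

end gen

variable {I : Type} [Fintype I] [DecidableEq I] {col : I → Fin 3} {th : Fin 3 → ℤ} {k m m₁ : ℕ}
  {h0 : Adm col th [[Finset.univ]]} (S : ((top h0).dat m).Pol k) (hm : k * m₁ ≤ m)

namespace Dat.Pol

/-- the map to the orthogonal lines for the blocks of the framing -/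
abbrev nuB (β : Equiv.Perm (Fin k)) : C(Ln (S.PP m₁), Ln S.FF) :=
  S.nu (μ := Fin ((top h0).dat m).m) (b := frB hm) (frB_ne hm) β

theorem chU_xi (β : Equiv.Perm (Fin k)) {π : List (Finset (Fin k))} (hπ : Part π)
    {R : Finset (Fin (Fintype.card I))} (hR : R ⊆ rks (π.map (pre S.slot))) (y : Ln (S.PP m₁)) :
    chU h0 hm S.s0 β hπ hR (S.xi m₁ y) = S.kap (top_Top h0 m) hπ hR (S.nuB hm β y) := by
  obtain ⟨Ψ, h, rfl⟩ := LD.exists_fr y
  rw [xi_ln, nuB, nu_ln, kap_ln]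
  have e : (morX h0 hm S.s0 β).F (S.P0, S.asm Ψ) =
      (S.P0, S.asm (of fun a => Jm I (frB hm (β a)) *ᵥ Ψ a)) := Prod.ext rfl (funext fun i =>
    funext fun r => (Jm_mulVec (frB hm (β (S.slot i))) (Ψ (S.slot i)) (S.tau i) r).symm)
  exact (yhc8_pt h0 hm S.s0 β hπ hR _).trans (yhc7_congr (D := (top h0).dat m) e hR)

theorem psi_xi (c : (QT m h0).dg.T) : AS.pull (S.xi m₁) (psi h0 hm c S.s0) =
    (∑ β, AS.pl (S.nuB hm β)) (coxL coxT (AS _) ((S.homK (top_Top h0 m)).map c)) := by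
  rw [psi_apply, map_sum, LinearMap.sum_apply]
  refine Finset.sum_congr rfl fun β _ => ?_
  rw [coxL_apply, coxL_apply, map_sum, map_sum]
  refine Finset.sum_congr rfl fun σ _ => ?_
  rw [map_smul, map_smul, (wd_cox S.s0.2.1).map _ c _ (Finset.Subset.refl _),
    (wd_cox S.sl.surj).map _ c _ (Finset.Subset.refl _)]
  refine congrArg _ ((AS.pull_pull _ _ _).trans (Eq.trans ?_ (AS.pull_pull _ _ _).symm))
  exact congrArg (AS.pull · _) (funext fun y => S.chU_xi hm β (coxT σ).2 _ y)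

end Dat.Pol

end Pool.Agent.CS
end
end

-- part Pool.Agent.P.MP_d34769_ag.YHCz
section

/-! The strata of the cobar diagram inject into the invariant cohomology of the products. -/

open Set Matrix

set_option linter.unusedSectionVars false

noncomputable section
namespace Pool.Agent.CS
open Pool.Agent.P.MP_d34769_ag

/-- a map is a quasi-isomorphism when it is one after an injective map -/
theorem Cx.QI.of_comp_inj {T T' T'' : Type} [AddCommGroup T] [Module ℂ T] [AddCommGroup T']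
    [Module ℂ T'] [AddCommGroup T''] [Module ℂ T''] {C : Cx T} {C' : Cx T'} {C'' : Cx T''}
    {f : T →ₗ[ℂ] T'} {f' : T' →ₗ[ℂ] T''} {s s' n : ℤ} (h : C.Mor C' f s) (h' : C'.Mor C'' f' s')
    (q : C.QI C'' (f' ∘ₗ f) (s + s') n) (i : ∀ j, C'.Inj C'' f' s' j) : C.QI C' f s n :=
  ⟨fun j hj => (q.1 j hj).of_comp h h', fun j hj => (q.2 j hj).of_comp_inj h h' (i _)⟩

variable {I : Type} [Fintype I] [DecidableEq I] {col : I → Fin 3} {th : Fin 3 → ℤ} {k m m₁ n : ℕ}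
  (h0 : Adm col th [[Finset.univ]]) (hm : k * m₁ ≤ m)

/-- the invariant complex of the products over a set of classes -/
abbrev cxU (V W : Set ((top h0).dat m).MS) : Cx (dgU col th k m₁).T :=
  ((actU col th k m₁).bc ((actU col th k m₁).inv_fam (ovU h0 hm) (ovU_act h0 hm) V)
    ((actU col th k m₁).inv_fam (ovU h0 hm) (ovU_act h0 hm) W)).cx

variable {h0}

namespace Dat.Pol
variable (S : ((top h0).dat m).Pol k) {p : Pt I m} (hp : ((top h0).dat m).St p)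
  (hS : ((top h0).dat m).Sim p.1 S.P0)

/-- restriction to the product of projective spaces -/
abbrev rx : (dgU col th k m₁).T →ₗ[ℂ] AS (Ln (S.PP m₁)) :=
  AS.pl (S.xi m₁) ∘ₗ LinearMap.proj (φ := fun i => AS ((dgU col th k m₁).X i)) S.s0

include hS

theorem xi_mem (x : Ln (S.PP m₁)) :
    S.xi m₁ x ∈ ((ovU h0 hm).fam {((top h0).dat m).mq (pt p hp)}).A S.s0 := by
  obtain ⟨Ψ, h, rfl⟩ := LD.exists_fr x
  rw [S.xi_ln]
  exact (ovU_iff h0 hm S.s0 _ hp).2 hS.symm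

theorem rx_mor : (cxU h0 hm {((top h0).dat m).mq (pt p hp)} ∅).Mor
    ((S.syP (Fin m₁)).ta.act S.sg).inv S.rx (-((k - 1 : ℕ) : ℤ)) := by
  have h := Dg.one_mor (K := (ovU h0 hm).fam {((top h0).dat m).mq (pt p hp)}) S.s0 (S.xi m₁)
    (S.xi_mem hm hp hS)
  exact ⟨fun j x hx => ⟨h.fG j x ⟨hx.1, hx.2.1⟩, S.xi_fix hx.2.2⟩,
    fun j x hx => h.fN j x ⟨hx.1, hx.2.1⟩, fun j x hx => h.fd j x ⟨hx.1, hx.2.1⟩⟩

theorem rx_inj (h1 : 0 < m₁) (j : ℤ) : (cxU h0 hm {((top h0).dat m).mq (pt p hp)} ∅).Inj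
    ((S.syP (Fin m₁)).ta.act S.sg).inv S.rx (-((k - 1 : ℕ) : ℤ)) j := by
  have : Nonempty (Fin m₁) := ⟨⟨0, h1⟩⟩
  have := S.neP (Fin m₁)
  have h := (actU col th k m₁).orb_inj ((actU col th k m₁).inv_fam (ovU h0 hm) (ovU_act h0 hm)
    {((top h0).dat m).mq (pt p hp)}) (l₀ := S.s0) (S.xi m₁) S.xi_inj (S.xi_mem hm hp hS)
    (fun s z hz => by
      obtain ⟨q, hq, rfl⟩ := exists_pt (D := (Sl.wx s).dat m₁) z
      exact S.xi_cov s hq (((ovU_iff h0 hm s hq hp).1 hz).trans hS)) S.xi_dis j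
  exact fun x hx e => h x hx (Cx.Act.ya3_le _ e)

theorem stk (hk : 0 < k) (hn : n < m₁) :
    (Dg.bc ((ovQ (top_Top h0 m)).fam {((top h0).dat m).mq (pt p hp)}) ⊥).cx.QI
      (cxU h0 hm {((top h0).dat m).mq (pt p hp)} ∅) (psi h0 hm) 0 n := by
  have hD := top_Top h0 m
  have a := S.stkB hD (V := ((top h0).dat m).mq ⁻¹' {((top h0).dat m).mq (pt p hp)})
    (isClosed_singleton.preimage ((top h0).dat m).mq.continuous)
    fun q hq => (mq_eq_iff hq hp).trans ⟨fun e => e.trans hS, fun e => e.trans hS.symm⟩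
  have b := S.stkA hD
  have c := (S.syF (Fin ((top h0).dat m).m)).ta.cox_qi hk S.W.subtype
  have d := S.nu_qi (μ := Fin ((top h0).dat m).m) (b := frB hm) (frB_ne hm) (n := n)
    (by simpa using hn)
  have e1 := Cx.QIa.comp a.1 b.1 b.2 a.2
  have e2 := Cx.QIa.comp (b.1.comp a.1) c.1 c.2 e1
  have e3 := Cx.QI.comp (c.1.comp (b.1.comp a.1)) d.1 (d.2.mono (by omega)) (e2 n)
  have hψ := (psi_sc h0 hm hk).cx {((top h0).dat m).mq (pt p hp)} ∅
  rw [Dg.Ov.sc_cx, Dg.Act.sc_inv_cx _ _ (ovU_act h0 hm)] at hψ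
  refine Cx.QI.of_comp_inj hψ (S.rx_mor hm hp hS) ?_ (S.rx_inj hm hp hS (by omega))
  have e4 : S.rx ∘ₗ psi h0 hm = (∑ β, AS.pl (S.nuB hm β)) ∘ₗ coxL coxT (AS _) ∘ₗ
      (S.homK hD).map ∘ₗ LinearMap.id := LinearMap.ext fun x => S.psi_xi hm x
  rw [e4, show (0 : ℤ) + -((k - 1 : ℕ) : ℤ) = 0 + 0 + -((k - 1 : ℕ) : ℤ) + 0 by ring]
  exact e3

end Dat.Pol

variable (h0)

theorem psi_qi (hk : 0 < k) (hn : n < m₁) :
    (Dg.bc ((QT m h0).ov.fam (NX m h0 k)) ((QT m h0).ov.fam (NX m h0 (k + 1)))).cx.Mor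
      (bcU k m₁ h0).cx (psi h0 hm) 0 ∧
    (Dg.bc ((QT m h0).ov.fam (NX m h0 k)) ((QT m h0).ov.fam (NX m h0 (k + 1)))).cx.QI
      (bcU k m₁ h0).cx (psi h0 hm) 0 n := by
  have a := (psi_sc h0 hm hk).cx (((top h0).dat m).NM k) (((top h0).dat m).NM (k + 1))
  have b := SC.soft_qi (n := n) (psi_sc h0 hm hk) (((top h0).dat m).NM_closed k)
    (((top h0).dat m).NM_closed (k + 1)) fun t ht => by
      obtain ⟨⟨p, hp, rfl, h1⟩, h2⟩ := ht
      obtain ⟨S, -, hS⟩ := Dat.exists_pol hp.toBase.mem hp.ss h1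
        fun e => h2 ((Dat.mem_NM hp).2 e)
      rw [Dg.Ov.sc_cx, Dg.Act.sc_inv_cx _ _ (ovU_act h0 hm)]
      exact S.stk hm hp hS hk hn
  rw [Dg.Ov.sc_cx, Dg.Act.sc_inv_cx _ _ (ovU_act h0 hm), Dat.ovQ_fam, Dat.ovQ_fam, mq_NM h0 hk,
    mq_NM h0 (Nat.le_add_left 1 k), Dg.Act.bc_congr _ ((ovU_fam h0 hm k).trans (NU_top h0))
      (ovU_fam h0 hm (k + 1)) _ _ (actU col th k m₁).inv_top (NU_inv h0 (k + 1))] at a b
  exact ⟨a, b⟩

include hm in
/-- HC -/
theorem hc (hk : 0 < k) (hn : n < m₁) (j : ℤ) (hj : j ≤ n) :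
    ∃ J : (bcN m h0 (NX m h0 k) (NX m h0 (k + 1))).cx.H j →ₗ[ℂ] (bcU k m₁ h0).cx.H j,
      Function.Injective J := by
  obtain ⟨a, b⟩ := f7 h0 (NX_closed h0 (m := m) k) (NX_closed h0 (k + 1))
  obtain ⟨c, d⟩ := psi_qi h0 hm hk hn
  let e := LinearEquiv.ofBijective (a.hm (add_zero j))
    ⟨(a.inj_iff _).1 (b.inj j), (a.sur_iff _).1 (b.sur j)⟩
  exact ⟨c.hm (add_zero j) ∘ₗ e.symm.toLinearMap,
    ((c.inj_iff (add_zero j)).1 (d.1 j hj)).comp e.symm.injective⟩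

end Pool.Agent.CS
end
end

-- part Pool.Agent.P.MP_d34769_ag.YHD9
section

/-! The export of the blocks HC and HD. -/

noncomputable section
namespace Pool.Agent.CS

variable {I : Type} [Fintype I] [DecidableEq I] {col : I → Fin 3} {th : Fin 3 → ℤ}
  {k m m₁ m₂ n : ℕ} (h0 : Adm col th [[Finset.univ]])

theorem hcd (hk : 2 ≤ k) (h : 2 * m₂ ≤ m₁) (hn : n < m₁) (hm : Fintype.card I * m₁ ≤ m)
    (IH : ∀ (J : Type) [Fintype J] [DecidableEq J] (c : J → Fin 3),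
      Fintype.card J < Fintype.card I → ∀ h : Adm c th [[Finset.univ]], ∀ i : ℤ, i < n →
        SurN m₁ h i) {j : ℤ} (hj : j ≤ n) :
    ∃ J : (bcN m h0 (NX m h0 k) (NX m h0 (k + 1))).cx.H j →ₗ[ℂ] (bcT col th k m₁).cx.H j,
      Function.Injective J ∧ ∀ a, J a ∈ KT col th k h j :=
  hcd_of h0 hk h hm IH hj fun c => hc h0 c (by omega) hn j hj

end Pool.Agent.CS
end
end

-- part Pool.Agent.P.MP_d34769_ag.YHE2
section

/-! The dimension count. -/

open Set Module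

noncomputable section
namespace Pool.Agent.CS
open Pool.Agent.P.MP_d34769_ag

variable {I : Type} [Fintype I] [DecidableEq I] {col : I → Fin 3} {th : Fin 3 → ℤ}
  (h0 : Adm col th [[Finset.univ]]) {m m₁ m₂ n : ℕ} {θ : (Fin 3 → ℕ) → ℝ} {o : I → ℕ}

variable (m) in
theorem resN_mor : (bcT col th 1 m).Mor (bcN m h0 (NX m h0 2) ∅) LinearMap.id 0 :=
  Bc.Act.mor_inv _ _ (Dg.mor_id (fun _ => subset_univ _) fun _ => subset_rfl) fun _ _ => rfl

theorem sT_mor_N (h : 2 * m₂ ≤ m) :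
    (bcN m h0 (NX m h0 2) ∅).Mor (bcT col th 2 m₂) (sT col th 1 h) 0 := by
  refine Bc.Act.mor_inv _ _ ((WOp.hom (fr_S h)).sys.mor _ _ _ _ (fun _ _ _ _ => ?_)
    fun {L K} r a x _ hx => ?_) (WOp.hom_r _)
  · exact (SC.mem_zz _).2 fun _ e => e.elim
  · have h1 := L.2.1.len_le
    have h2 := ((opS col th 1).sup L K.1 (((opS col th 1).nat L.1).of_ne a)).2.2
    rw [L.2.2] at h1
    rw [fam_NX h0 (h1.trans h2.ge)] at hx
    exact zz_pl (mapsTo_univ _ _) hx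

theorem ker_res_le (h : 2 * m₂ ≤ m) (j : ℤ) :
    LinearMap.ker ((resN_mor h0 m).cx.hm (add_zero j)) ≤ KT col th 1 h j := by
  intro a ha
  obtain ⟨x, rfl⟩ := Cx.cls_surj j a
  refine (mem_KT h).2 ⟨?_, fun n hn => by omega⟩
  have h1 := (resN_mor h0 m).cx.mem_Z x.2
  rw [add_zero] at h1
  have := (sT_mor_N h0 h).cx.mem_B h1.1 (Cx.cls_eq_zero.1 ha)
  rwa [add_zero] at this

include h0 in
omit [DecidableEq I] in
theorem card_pos_of_top : 0 < Fintype.card I :=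
  Finset.card_pos.2 (h0.part.1 _ (by simp))

theorem he_step (H : Big col θ th o n m₂) (h : 2 * m₂ ≤ m₁) (hn : n < m₁)
    (hm : Fintype.card I * m₁ ≤ m) (h' : 2 * m₂ ≤ m)
    (IH : ∀ (J : Type) [Fintype J] [DecidableEq J] (c : J → Fin 3),
      Fintype.card J < Fintype.card I → ∀ h : Adm c th [[Finset.univ]], ∀ i : ℤ, i < n →
        SurN m₁ h i) {j : ℕ} (hj : j ≤ n) :
    SurN m h0 j ∧ LinearMap.ker ((resN_mor h0 m).cx.hm (add_zero (j : ℤ))) = KT col th 1 h' j ∧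
      ∀ c ≤ j, grd ((bcT col th 1 m).W j) (KT col th 1 h' j) c =
        par (fun c p => ak col θ o 1 (c + 1) p) j c := by
  have hc := card_pos_of_top h0
  let S := ((actT col th 1 m).sc_act (ovT m h0) (fun w _ _ e x => ovT_act h0 w e x)
    Dg.Fam.cl_top Dg.Fam.cl_bot (actT col th 1 m).inv_top (actT col th 1 m).inv_bot).inv
  have hS : ∀ V W, S.cx V W = (bcN m h0 V W).cx :=
    (actT col th 1 m).sc_inv_cx _ fun w _ _ e x => ovT_act h0 w e x
  obtain ⟨f1, g1⟩ := S.finrank_chain (N := NX m h0) (fun _ _ => NX_anti h0) j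
    (fun k => ∑ c ∈ Finset.range (j + 1), par (fun c p => ak col θ o k (c + 1) p) j c)
    (NX_big h0 (Nat.lt_succ_self _)) (Fintype.card I - 1) 2 (by omega) fun k hk => by
      obtain ⟨J, h1, h2⟩ := hcd h0 hk h hn hm IH (j := j) (by exact_mod_cast hj)
      obtain ⟨f, e, b⟩ := KT_le H (by omega : 0 < k) h hj
      have h3 : Function.Injective (J.codRestrict _ h2) := fun _ _ e => h1 (congrArg Subtype.val e)
      rw [hS]
      exact ⟨Module.Finite.of_injective _ h3, (LinearMap.finrank_le_finrank_of_injective h3).trans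
        (e.trans_le (Finset.sum_le_sum fun c hc => b c (by simpa [Nat.lt_succ_iff] using hc)))⟩
  rw [hS] at f1 g1
  obtain ⟨f2, g2⟩ := finite_T (H.mono (by omega : m₂ ≤ m)) hj
  obtain ⟨-, e3, g3⟩ := KT_le H one_pos h' hj
  obtain ⟨a, b, c⟩ := he_count _ (ker_res_le h0 h' j) (Finset.range (j + 1))
    (a := par (fun c p => ak col θ o 1 (c + 1) p) j) ((Nat.add_le_add_right g1 _).trans (by
      refine le_trans ?_ g2
      rw [Finset.sum_comm, ← Finset.sum_add_distrib]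
      refine Finset.sum_le_sum fun c _ => le_trans (le_of_eq ?_)
        (par_sum_le _ (fun c p => sum_ak_le col θ o (Fintype.card I) (c + 1) p) j c)
      rw [← Finset.insert_Icc_add_one_left_eq_Icc (a := 1) hc, Finset.sum_insert (by simp),
        add_comm]
      rfl))
    e3 fun c hc => g3 c (by simpa [Nat.lt_succ_iff] using hc)
  exact ⟨((resN_mor h0 m).cx.sur_iff _).2 a, b, fun d hd => c d (by simpa [Nat.lt_succ_iff])⟩

theorem surN_neg {j : ℤ} (hj : j < 0) : SurN m h0 j := fun y hy => ⟨0, zero_mem _, by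
  have h1 := hy.1.1
  rw [add_zero, degZ_neg _ hj] at h1
  rw [(Submodule.mem_bot ℂ).1 h1, map_zero, sub_zero]
  exact zero_mem _⟩

/-- the integer weight as a real function of the dimension vector -/
def thR (th : Fin 3 → ℤ) (e : Fin 3 → ℕ) : ℝ := (∑ v, th v * e v : ℤ)

omit [Fintype I] [DecidableEq I] in
theorem sgn_thR (col : I → Fin 3) (th : Fin 3 → ℤ) : Sgn col (thR th) th := fun F => by
  have : ∑ v, th v * (dvec col F v : ℤ) = ∑ j ∈ F, th (col j) := by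
    rw [← Finset.sum_fiberwise F col]
    refine Finset.sum_congr rfl fun v _ => ?_
    rw [Finset.sum_congr rfl fun j hj => congrArg th (Finset.mem_filter.1 hj).2, Finset.sum_const,
      nsmul_eq_mul, mul_comm, dvec]
  rw [thR, this]
  exact ⟨Int.cast_pos, Int.cast_eq_zero⟩

theorem sur_all (th : Fin 3 → ℤ) (n N : ℕ) : ∃ m₀, ∀ m, m₀ ≤ m → ∀ (J : Type) [Fintype J]
    [DecidableEq J] (c : J → Fin 3), Fintype.card J < N → ∀ h : Adm c th [[Finset.univ]],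
      ∀ i : ℤ, i ≤ n → SurN m h i := by
  induction N with
  | zero => exact ⟨0, fun _ _ _ _ _ _ h => absurd h (Nat.not_lt_zero _)⟩
  | succ N ih =>
    obtain ⟨m₀, ih⟩ := ih
    refine ⟨N * (m₀ + 2 * mG N n + n + 1), fun m hm J _ _ c hJ h i hi => ?_⟩
    rcases lt_or_ge i 0 with e | e
    · exact surN_neg h e
    lift i to ℕ using e
    have h1 := card_pos_of_top h
    have h2 : Fintype.card J * (m₀ + 2 * mG N n + n + 1) ≤ m :=
      (Nat.mul_le_mul_right _ (by omega)).trans hm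
    exact (he_step h (m₂ := mG N n) ⟨sgn_thR c th, fun _ _ _ e => o0_inj e, fun p hp =>
      mG_mono (by omega) hp⟩ (by omega) (by omega) h2 (by nlinarith) (fun J' _ _ c' a b i hi =>
        ih _ (by omega) J' c' (by omega) b i hi.le) (by exact_mod_cast hi)).1

/-- MAIN -/
theorem he_inv (hθ : Sgn col θ th) (ho : ∀ k l, col k = col l → o k = o l → k = l) (n : ℕ) :
    ∃ m₀, ∀ m, m₀ ≤ m → (∀ j : ℤ, j ≤ n → SurN m h0 j) ∧ ∀ j : ℕ, j ≤ n →
      Module.Finite ℂ ((bcT col th 1 m).cx.H j) ∧ ∀ c p, j = 2 * p + c →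
        grd ((bcT col th 1 m).W j) (LinearMap.ker ((resN_mor h0 m).cx.hm (add_zero (j : ℤ)))) c =
          har col θ o (c + 1) p := by
  obtain ⟨m₀, ih⟩ := sur_all th n (Fintype.card I)
  refine ⟨Fintype.card I * (m₀ + 2 * mG (Fintype.card I) n + n + 1), fun m hm => ?_⟩
  have h1 := card_pos_of_top h0
  have H : Big col θ th o n (mG (Fintype.card I) n) := ⟨hθ, ho, fun p hp => mG_mono le_rfl hp⟩
  have h2 : 2 * mG (Fintype.card I) n ≤ m := by nlinarith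
  have key := fun (j : ℕ) (hj : j ≤ n) => he_step h0 H (by omega) (by omega) hm h2
    (fun J _ _ c a b i hi => ih _ (by omega) J c a b i hi.le) hj
  refine ⟨fun j hj => ?_, fun j hj => ⟨(finite_T (H.mono (by omega)) hj).1, fun c p e => ?_⟩⟩
  · rcases lt_or_ge j 0 with e | e
    · exact surN_neg h0 e
    · lift j to ℕ using e
      exact (key j (by exact_mod_cast hj)).1
  · rw [(key j hj).2.1, (key j hj).2.2 c (by omega), e, par_even, ak_one]

end Pool.Agent.CS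
end
end

-- part Pool.Agent.P.MP_d34769_ag.YI9p
section

/-! From the invariant complex to the full complex. -/

open Set

noncomputable section
namespace Pool.Agent.CS

section
variable {T T' Γ : Type} [AddCommGroup T] [Module ℂ T] [AddCommGroup T'] [Module ℂ T'] [Group Γ]
  [Fintype Γ] {B : Bc T} {r : Γ →* Module.End ℂ T} (A : B.Act r) {U : Submodule ℂ T}
  (hU : ∀ x ∈ U, B.cx.d x ∈ U) (hN : B.cx.N ≤ U) {C : Cx T'} {f : T' →ₗ[ℂ] T}
  (m1 : C.Mor (B.cx.sub U hU) f 0) (q1 : C.QIa (B.cx.sub U hU) f 0) (hx : ∀ u, f u ∈ Fix r)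
  {j : ℤ}
include m1 q1 hx

theorem yi9p_inj0 (hs : A.inv.cx.Sur (A.inv.cx.quo U hU hN) LinearMap.id 0 (j - 1)) :
    C.Inj B.cx f 0 j := fun u hu hb => by
  have z1 := (Cx.mem_subZ hU).1 (Cx.Zcast (m1.mem_Z hu) (add_zero j))
  have i1 := (Cx.inj_sub_iff (C := A.inv.cx) hU hN).2 hs
  rw [sub_add_cancel] at i1
  have b1 := A.cx.ya3_B hb
  rw [avg_of_mem (hx u), ← A.inv_cx] at b1
  obtain ⟨b, hb, e⟩ := Cx.mem_B.1 (i1 _ ((Cx.mem_subZ (C := A.inv.cx) hU).2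
    ⟨⟨⟨z1.1.1.1, z1.1.1.2, hx u⟩, z1.1.2⟩, z1.2⟩) b1)
  exact q1.inj j u hu (Cx.Bcast (Cx.mem_B.2 ⟨b, ⟨⟨hb.1.1, hb.1.2.1⟩, hb.2⟩, e⟩) (add_zero j).symm)

theorem yi9p_rank0 (hm : C.Mor B.cx f 0) {K : Submodule ℂ (A.inv.cx.H j)}
    (hK : ∀ x, Cx.cls _ j x ∈ K ↔ x.1 ∈ (A.inv.cx.quo U hU hN).B j) (c : ℕ) :
    Module.rank ℂ (Sq (LinearMap.range (hm.hm (add_zero j)) ⊓ B.W j c) (B.W j (c + 1))) =
      Module.rank ℂ (Sq (K ⊓ A.inv.W j c) (A.inv.W j (c + 1))) := by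
  refine (Sq.rank_eq (A := K ⊓ A.inv.W j c) (A.mor_inc.cx.hm (add_zero j))
    (fun x hx => Submodule.mem_inf.2 ⟨?_, (A.inc_W j c x).2 hx.2⟩)
    (fun x _ => A.inc_W j _ x) ?_).symm
  · obtain ⟨z, rfl⟩ := Cx.cls_surj j x
    obtain ⟨y, hy, e⟩ := Cx.les_mid (C := A.inv.cx) hU hN z.2 ((hK z).1 hx.1)
    obtain ⟨u, hu, e1⟩ := q1.sur j y (Cx.Zcast (C := B.cx.sub U hU)
      ⟨⟨⟨hy.1.1.1, hy.1.1.2.1⟩, hy.1.2⟩, hy.2⟩ (add_zero j).symm)
    have e' := Cx.Bcast (A.mor_inc.cx.mem_B (sub_mem z.2.1 hy.1.1) e) (add_zero j)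
    exact ⟨Cx.cls _ j ⟨u, hu⟩, (Cx.cls_eq.2 (Cx.meq (add_mem e'
      (Cx.Bcast (Cx.subB_le hU e1) (add_zero j))) (sub_add_sub_cancel _ _ _))).symm⟩
  · rintro _ ⟨⟨a, rfl⟩, hw⟩
    obtain ⟨u, rfl⟩ := Cx.cls_surj j a
    have z2 := Cx.Zcast (hm.mem_Z u.2) (add_zero j)
    have hz : f u.1 ∈ A.inv.cx.Z j := ⟨⟨z2.1.1, z2.1.2, hx _⟩, z2.2⟩
    exact ⟨Cx.cls _ j ⟨_, hz⟩, ⟨(hK _).2 (Cx.N_le_B (m1.mem_Z u.2).1.2), (A.inc_W j c _).1 hw⟩,
      Cx.meq (zero_mem _) (sub_self _).symm⟩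

end

section
variable {S : Sh} {Q : Dg S} {Γ : Type} [Group Γ] (G : Q.Act Γ) {F : Q.Fam} (iF : G.Inv F)

theorem yi9p_quo : (G.bc iF G.inv_bot).cx = (G.bc G.inv_top G.inv_bot).cx.quo (Dg.bc F ⊥).N
    (Dg.N_D (K₁ := ⊤) (A₁ := ⊥) F) (Dg.N_anti (K := ⊤) (A := ⊥) fun _ => subset_univ _) :=
  Cx.ext_YA2 ((Dg.cx_d F ⊥).trans (Dg.cx_d ⊤ ⊥).symm) (funext fun n =>
    congrArg₂ (fun a b => degZ a n ⊓ (b ⊓ Fix G.r)) ((Dg.bc_bg F ⊥).trans (Dg.bc_bg ⊤ ⊥).symm)
      (Dg.U_eq F ⊤ ⊥)) rfl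

variable [Fintype Γ] {i : S.ι} (h0 : S.deg i = 0) (hF : ∀ j, j ≠ i → ∀ x, x ∈ F.A j)
  (hx : ∀ u, Q.sgl i u ∈ Fix G.r) {j : ℤ}
include h0 hF hx

theorem yi9p_inj (hs : (G.bc G.inv_top G.inv_bot).cx.Sur (G.bc iF G.inv_bot).cx LinearMap.id 0
    (j - 1)) : (CP univ (F.A i)).Inj (Dg.bc (P := Q) ⊤ ⊥).cx (Q.sgl i) 0 j := by
  obtain ⟨m1, q1⟩ := yi3_one h0 F hF
  rw [← Dg.Fam.bot_sup (K := F), ← Dg.cx_sub (A₁ := ⊥), Dg.Fam.bot_sup] at m1 q1
  rw [yi9p_quo G iF] at hs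
  exact yi9p_inj0 _ _ _ m1 q1 hx hs

theorem yi9p_rank (hm : (CP univ (F.A i)).Mor (Dg.bc (P := Q) ⊤ ⊥).cx (Q.sgl i) 0)
    {K : Submodule ℂ ((G.bc G.inv_top G.inv_bot).cx.H j)}
    (hK : ∀ x, Cx.cls _ j x ∈ K ↔ x.1 ∈ (G.bc iF G.inv_bot).cx.B j) (c : ℕ) :
    Module.rank ℂ (Sq (LinearMap.range (hm.hm (add_zero j)) ⊓ (Dg.bc (P := Q) ⊤ ⊥).W j c)
      ((Dg.bc (P := Q) ⊤ ⊥).W j (c + 1))) =
    Module.rank ℂ (Sq (K ⊓ (G.bc G.inv_top G.inv_bot).W j c)
      ((G.bc G.inv_top G.inv_bot).W j (c + 1))) := by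
  obtain ⟨m1, q1⟩ := yi3_one h0 F hF
  rw [← Dg.Fam.bot_sup (K := F), ← Dg.cx_sub (A₁ := ⊥), Dg.Fam.bot_sup] at m1 q1
  rw [yi9p_quo G iF] at hK
  exact yi9p_rank0 _ _ _ m1 q1 hx hm hK c

end

variable {I : Type} [Fintype I] [DecidableEq I] {col : I → Fin 3} {th : Fin 3 → ℤ}
  (h0 : Adm col th [[Finset.univ]]) {m : ℕ}

theorem yi9p_fix (u : AS ((dgT col th 1 m).X (top h0))) :
    (dgT col th 1 m).sgl (top h0) u ∈ Fix (actT col th 1 m).r := by
  refine mem_fixT.2 fun w L K e => ?_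
  by_cases c : L = top h0
  · subst c
    obtain rfl : K = top h0 := e.symm.trans (actI_top h0 w)
    exact (AS.pull_id _).symm.trans (congrArg (AS.pull · _) (funext (actMor_top h0 w e)).symm)
  · exact (Dg.sgl_ne (dgT col th 1 m) c u).trans ((map_zero _).symm.trans (congrArg _
      (Dg.sgl_ne (dgT col th 1 m) (fun c' => c ((actI col th 1 w).injective
        (e.trans (c'.trans (actI_top h0 w).symm)))) u).symm))

theorem yi9p_fam (L : Wx col th 1) (h : L ≠ top h0) (x) : x ∈ ((ovT m h0).fam (NX m h0 2)).A L := by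
  rw [fam_NX h0 (by_contra fun c => h (eq_top h0 (show L.1.flatten.length - 1 = 0 by omega)))]
  trivial

theorem yi9p_top : ((ovT m h0).fam (NX m h0 2)).A (top h0) = NX m h0 2 :=
  Set.ext fun x => iff_of_eq (congrArg (· ∈ NX m h0 2) (ovT_top h0 x))

variable (hm : (CP univ (NX m h0 2)).Mor (sdT col th 1 m).bc.cx
  ((dgT col th 1 m).sgl (top h0)) 0) {j : ℤ}

/-- the relative cohomology injects -/
theorem he_pass_inj (hs : SurN m h0 (j - 1)) :
    (CP univ (NX m h0 2)).Inj (sdT col th 1 m).bc.cx ((dgT col th 1 m).sgl (top h0)) 0 j := by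
  rw [← yi9p_top h0]
  exact yi9p_inj (actT col th 1 m) (inv_famT h0 _) (deg_top h0) (yi9p_fam h0) (yi9p_fix h0) hs

/-- the graded pieces of the image are those of the kernel of the restriction -/
theorem he_pass_rank {K : Submodule ℂ ((bcT col th 1 m).cx.H j)}
    (hK : ∀ x, Cx.cls _ j x ∈ K ↔ x.1 ∈ (bcN m h0 (NX m h0 2) ∅).cx.B j) (c : ℕ) :
    Module.rank ℂ (Sq (LinearMap.range (hm.hm (add_zero j)) ⊓ (sdT col th 1 m).bc.W j c)
      ((sdT col th 1 m).bc.W j (c + 1))) =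
    Module.rank ℂ (Sq (K ⊓ (bcT col th 1 m).W j c) ((bcT col th 1 m).W j (c + 1))) := by
  revert hm
  rw [← yi9p_top h0]
  exact fun hm => yi9p_rank (actT col th 1 m) (inv_famT h0 _) (deg_top h0) (yi9p_fam h0)
    (yi9p_fix h0) hm hK c

end Pool.Agent.CS
end
end

-- part Pool.Agent.P.MP_d34769_ag.YI9m
section

/-! The image of the relative cohomology in the cohomology of the cobar diagram. -/

open Set
open Pool.Agent.P.MP_d34769_ag

noncomputable section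
namespace Pool.Agent.CS

theorem mem_ker_id {T : Type} [AddCommGroup T] [Module ℂ T] {C C' : Cx T}
    (h : C.Mor C' LinearMap.id 0) {j : ℤ} (x : C.Z j) :
    C.cls j x ∈ LinearMap.ker (h.hm (add_zero j)) ↔ x.1 ∈ C'.B j := Cx.cls_eq_zero

theorem rank_sq_grd {T : Type} [AddCommGroup T] [Module ℂ T] [Module.Finite ℂ T]
    (W : ℕ → Submodule ℂ T) (K : Submodule ℂ T) (c : ℕ) :
    Module.rank ℂ (Sq (K ⊓ W c) (W (c + 1))) = grd W K c := (Module.finrank_eq_rank _ _).symm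

variable {I : Type} [Fintype I] [DecidableEq I] {col : I → Fin 3} {th : Fin 3 → ℤ}
  (h0 : Adm col th [[Finset.univ]])

theorem two_le_of_ne {L : Wx col th 1} (h : L ≠ top h0) : 2 ≤ L.1.flatten.length := by
  by_contra c
  exact h (eq_top h0 (show L.1.flatten.length - 1 = 0 by omega))

theorem sgl_top (m : ℕ) : (CP univ (NX m h0 2)).Mor (sdT col th 1 m).bc.cx
    ((dgT col th 1 m).sgl (top h0)) 0 :=
  (dgT col th 1 m).sgl_mor (deg_top h0) fun L _ e x => (mem_NX h0).2 ⟨L, two_le_of_ne h0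
    (fun c => by have := ((shT col th 1).sup _ _ e).2; rw [c] at this; omega), x, rfl⟩

theorem he_main (θ : (Fin 3 → ℕ) → ℝ) (o : I → ℕ)
    (hθ : ∀ F, (0 < θ (dvec col F) ↔ 0 < ∑ i ∈ F, th (col i)) ∧
      (θ (dvec col F) = 0 ↔ ∑ i ∈ F, th (col i) = 0))
    (ho : ∀ k l, col k = col l → o k = o l → k = l) (n : ℕ) :
    ∃ m₀ : ℕ, ∀ m, m₀ ≤ m → ∀ j : ℕ, j ≤ n →
      (CP univ (NX m h0 2)).Inj (sdT col th 1 m).bc.cx ((dgT col th 1 m).sgl (top h0)) 0 j ∧
      ∀ c a, j = 2 * a + c → Module.rank ℂ (Sq (LinearMap.range ((sgl_top h0 m).hm (add_zero _)) ⊓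
        (sdT col th 1 m).bc.W j c) ((sdT col th 1 m).bc.W j (c + 1))) = har col θ o (c + 1) a := by
  obtain ⟨m₀, h⟩ := he_inv h0 hθ ho n
  refine ⟨m₀, fun m hm j hj => ⟨he_pass_inj h0 ((h m hm).1 _ (by omega)), fun c a e => ?_⟩⟩
  obtain ⟨f, g⟩ := (h m hm).2 j hj
  exact (he_pass_rank h0 (sgl_top h0 m) (mem_ker_id (resN_mor h0 m).cx) c).trans
    ((rank_sq_grd _ _ c).trans (congrArg _ (g c a e)))

end Pool.Agent.CS
end
end

-- part Pool.Agent.P.MP_d34769_ag.YI2b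
section

/-! The space of framed semistable representations and its strictly semistable locus. -/

open Set Filter Topology Matrix
open Pool.Agent.HT (Amb proj)

noncomputable section
namespace Pool.Agent.CS

variable {I : Type} [Fintype I] [DecidableEq I] {col : I → Fin 3} {th : Fin 3 → ℤ} {k m : ℕ}

theorem relMor_F {L K : Wx col th k} (h : RS id L.1 K.1) (p : Pt I m) : (relMor h m).F p = p :=
  (relMor h m).ye2_ext p (fun _ _ _ => rfl) (fun _ _ => rfl) fun _ r hr => absurd rfl (hr r)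

theorem Wx.cp_one (L : Wx col th 1) (i j : I) : (L.dat m).cp i j := by
  obtain ⟨u, hu⟩ := L.one
  obtain ⟨v, hv, a, ha, hi⟩ := L.2.1.part.mem_word i
  obtain ⟨w, hw, b, hb, hj⟩ := L.2.1.part.mem_word j
  obtain rfl : v = w := by
    rw [hu, List.mem_singleton] at hv hw
    rw [hv, hw]
  exact ⟨v, hv, a, ha, b, hb, hi, hj⟩

variable (h0 : Adm col th [[Finset.univ]])

theorem top_gl (i j : I) : ((top h0).dat m).gl i j :=
  ⟨[Finset.univ], by simp [top], Finset.univ, Finset.univ, by simp, by simp, Or.inl ⟨rfl, by simp⟩⟩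

theorem top_P {g : Matrix I I ℂ} (hg : g ∈ ((top h0).dat m).base.P) : g ∈ ((top h0).dat m).P :=
  ⟨fun i j c => hg.1 i j fun e => c ⟨e.1, top_gl (m := m) h0 i j⟩, hg.2⟩

omit [DecidableEq I] in
include h0 in
theorem top_ne : Nonempty I := (h0.part.1 Finset.univ (by simp)).elim fun i _ => ⟨i⟩

theorem ovT_pt (L : Wx col th 1) {q : Pt I m} (hq : (L.dat m).St q) :
    ∃ h, (ovT m h0).π L (Dat.pt q hq) = Dat.pt (D := (top h0).dat m) q h := by
  have h1 := (relMor (rel_top h0 L) m).st hq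
  have h2 := (relMor (rel_top h0 L) m).mc_pt hq h1
  rw [← ovT_π] at h2
  refine ⟨by rwa [relMor_F] at h1, h2.trans ?_⟩
  simp only [relMor_F]

theorem pt_mem_NX {a : ℕ} (ha : 1 ≤ a) {p : Pt I m} (hp : ((top h0).dat m).St p) :
    Dat.pt p hp ∈ NX m h0 a ↔ ((top h0).dat m).N a p.1 := by
  rw [mem_NX]
  constructor
  · rintro ⟨L, hL, y, e⟩
    obtain ⟨q, hq, rfl⟩ := Dat.exists_pt (D := L.dat m) y
    obtain ⟨h2, h3⟩ := ovT_pt h0 L hq
    obtain ⟨g, hg, e⟩ := (Dat.pt_eq_iff hp h2).1 (e.symm.trans h3)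
    obtain ⟨u, hu⟩ := L.one
    have h1 : L.1.flatten = u := by simp [hu]
    refine Dat.N.anti (Dat.n_iff_list.2 ⟨_, ⟨L.2.1.part, L.2.1.bal⟩, rfl, g, Dat.P_le _ hg,
      fun b i j c => ?_⟩) ha hL
    refine (congrArg (·.1 b i j) e).symm.trans (hq.mem b i j fun d => c ?_)
    obtain ⟨v, hv, d⟩ := d.2.2
    rw [hu, List.mem_singleton] at hv
    rwa [h1, ← hv]
  · intro h
    obtain ⟨l, hl, e, g, hg, ht⟩ := Dat.n_iff_list.1 h
    let L : Wx col th 1 := ⟨[l], ⟨by simpa using hl.1, by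
      rw [List.forall_mem_singleton, ← List.length_pos_iff]; omega,
      fun b c => hl.2 b (by simpa using c)⟩, rfl⟩
    have hq := hp.act (top_P h0 hg)
    have hs : ∀ {U}, (L.dat m).Sub (act g p).1 U → ((top h0).dat m).Sub (act g p).1 U := fun c =>
      Dat.ye2_sub_mono (D := L.dat m) (E := (top h0).dat m) rfl
        (fun i j _ => (top h0).cp_one i j) c
    have hq' : (L.dat m).St (act g p) := ⟨fun b i j c => by
        by_cases d : Ord l i j
        · exact hq.mem b i j fun f => c ⟨f.1, f.2.1, l, by simp [L], d⟩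
        · exact ht b i j d,
      fun U c => hq.ss U (hs c), fun U c => hq.gen U (hs c)⟩
    obtain ⟨h2, h3⟩ := ovT_pt h0 L hq'
    exact ⟨L, by simp [L, e], _, h3.trans ((Dat.pt_eq_iff hp h2).2 ⟨g, top_P h0 hg, rfl⟩).symm⟩

theorem pa_NX (a : ℕ) : PA (Subtype.val '' NX m h0 a) := by
  have e : Subtype.val '' NX m h0 a = ⋃ (L : Wx col th 1) (_ : a ≤ L.1.flatten.length),
      (relMor (rel_top h0 L) m).mp '' (L.dat m).XS := by
    simp only [NX, image_iUnion, ovT_π, ← range_comp]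
    exact iUnion_congr fun L => iUnion_congr fun _ =>
      (image_eq_range (relMor (rel_top h0 L) m).mp (L.dat m).XS).symm
  rw [e]
  exact pa_iUnion fun L => pa_iUnion fun _ =>
    (ag_of_hol (L.dat m).mf (relMor _ m).mp_hol).image (pa_of_mf (L.dat m).mf) Subset.rfl

theorem fq_top : Fq ((top h0).dat m) ((top h0).dat m).ThP ((top h0).dat m).XS
    (Subtype.val '' NX m h0 2) := by
  have := top_ne h0
  refine ⟨top_gl h0, fun p => ⟨fun c => ⟨c.mem, Dat.Th_ne c⟩, fun c => Dat.st_of_Th c.1 c.2⟩, rfl,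
    fun p q hp hq => (Dat.pt0_eq_iff hp hq).trans (by simp only [eq_comm]),
    fun p hp => (Dat.nhds_map hp).ge, Dat.Th_smul.imp fun e c => ⟨c.1, fun ρ f a => c.2 a (ρ, f)⟩,
    (Dat.XS_compact _).isClosed, pa_NX h0 2, fun p hp => ?_, fun g hg p hp => hp.act hg,
    fun ρ _ hs σ hσ c => ?_, fun ρ hρ g hg c => hρ.2.scalar (Dat.P_le _ hg).1 ?_⟩
  · refine (Subtype.val_injective.mem_set_image (a := Dat.pt p hp)).trans ?_
    rw [pt_mem_NX h0 one_le_two, Dat.stb_iff, and_iff_right hp.ss, not_not]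
  · have h1 := Dat.sim_of_pair hs hσ.2.ss (closure_mono (fun x d => d.2.imp fun g e =>
      ⟨Dat.P_le _ e.1, e.2⟩) c)
    exact Dat.stb_iff.2 ⟨hs, fun d => (Dat.stb_iff.1 hσ.2).2 (h1.n hs hσ.2.ss d)⟩
  · exact (actR_eq_iff hg.2).1 c

end Pool.Agent.CS
end
end

-- part Pool.Agent.P.MP_d34769_ag.YF7
section

/-! The tautological classes come from projective spaces. -/

open Matrix Set
open Pool.Agent.HT (Amb proj amat)
open Pool.Agent.HIR (Mf HolP Prj)

set_option linter.unusedSectionVars false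

noncomputable section
namespace Pool.Agent.CS

variable {I μ ν : Type} [Fintype I] [DecidableEq I] [Fintype μ] [Fintype ν]

namespace Dat

/-- the line `L` is spanned by the section `v` of weight `χ` -/
structure Wt (D : Dat I) (χ : Matrix I I ℂ → ℂ) (L : Bun D.XS μ 1) (v : Pt I D.m → μ → ℂ) :
    Prop where
  cont : ContinuousOn v {p | D.St p}
  ne : ∀ p, D.St p → v p ≠ 0
  eq : ∀ p hp, L.Q (pt p hp) *ᵥ v p = v p
  act : ∀ g ∈ D.P, ∀ p, D.St p → v (act g p) = χ g • v p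

variable {D : Dat I} {χ χ' : Matrix I I ℂ → ℂ} {L : Bun D.XS μ 1} {L' : Bun D.XS ν 1}
  {v : Pt I D.m → μ → ℂ} {v' : Pt I D.m → ν → ℂ} {g : Matrix I I ℂ} {p : Pt I D.m}

/-- the weight determines the class -/
theorem Wt.x_eq (h : D.Wt χ L v) (h' : D.Wt χ' L' v') (e : ∀ g ∈ D.P, χ' g = χ g) :
    L'.x = L.x := by
  let f : Pt I D.m → Matrix ν μ ℂ := fun p =>
    (star (v p) ⬝ᵥ v p)⁻¹ • vecMulVec (v' p) (star (v p))
  have hi : ∀ p, D.St p → ∀ g ∈ D.P, f (CS.act g p) = f p := fun p hp g hg => by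
    have h0 : χ g ≠ 0 := fun c => h.ne _ (hp.act hg) (by rw [h.act g hg p hp, c, zero_smul])
    have h1 : star (χ g) ≠ 0 := star_ne_zero.2 h0
    simp only [f, h.act g hg p hp, h'.act g hg p hp, e g hg, star_smul, smul_dotProduct,
      dotProduct_smul, smul_vecMulVec, vecMulVec_smul, smul_smul, smul_eq_mul]
    congr 1
    field_simp
  have hc : ContinuousOn f {p | D.St p} := by
    have c1 := continuousOn_iff_continuous_domRestrict.1 h.cont
    have c2 := continuousOn_iff_continuous_domRestrict.1 h'.cont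
    exact continuousOn_iff_continuous_domRestrict.2 (((c1.star.dotProduct c1).inv₀ fun y =>
      star_dot_ne (h.ne _ y.2)).smul (c2.matrix_vecMulVec c1.star))
  refine L.x_iso L' (desc_cont hi hc) fun y c => ?_
  obtain ⟨p, hp, rfl⟩ := exists_pt y
  have := congrArg (· *ᵥ v p) c
  simp only [← mulVec_mulVec, h.eq, zero_mulVec] at this
  rw [show D.sec (pt p hp).1 = D.sec (D.pt0 p) from rfl, desc_eq hi hp, smul_mulVec,
    vecMulVec_mulVec, op_smul_eq_smul, smul_smul, inv_mul_cancel₀ (star_dot_ne (h.ne p hp)),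
    one_smul, h'.eq] at this
  exact h'.ne p hp this

theorem Wt.tens (h : D.Wt χ L v) (h' : D.Wt χ' L' v') :
    D.Wt (fun g => χ g * χ' g) (L.tens L') fun p x => v p x.1 * v' p x.2 where
  cont := continuousOn_pi.2 fun x =>
    (continuousOn_pi.1 h.cont x.1).mul (continuousOn_pi.1 h'.cont x.2)
  ne p hp c := by
    obtain ⟨i, hi⟩ := Function.ne_iff.1 (h.ne p hp)
    obtain ⟨j, hj⟩ := Function.ne_iff.1 (h'.ne p hp)
    exact mul_ne_zero hi hj (congrFun c (i, j))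
  eq p hp := funext fun x => by
    rw [← congrFun (h.eq p hp) x.1, ← congrFun (h'.eq p hp) x.2]
    simp only [Bun.tens_Q, mulVec, dotProduct, kroneckerMap_apply, Fintype.sum_prod_type,
      Finset.sum_mul_sum, mul_mul_mul_comm]
  act g hg p hp := funext fun x => by
    simp only [h.act g hg p hp, h'.act g hg p hp, Pi.smul_apply, smul_eq_mul, mul_mul_mul_comm]

theorem exists_wt (hc : ContinuousOn v {p | D.St p}) (h0 : ∀ p, D.St p → v p ≠ 0)
    (ha : ∀ g ∈ D.P, ∀ p, D.St p → v (act g p) = χ g • v p) : ∃ L, D.Wt χ L v := by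
  have hi : ∀ p, D.St p → ∀ g ∈ D.P, lnv (v (act g p)) = lnv (v p) := fun p hp g hg => by
    have := h0 _ (hp.act hg)
    rw [ha g hg p hp] at this ⊢
    exact lnv_smul (h0 p hp) (left_ne_zero_of_smul this)
  refine ⟨⟨fun x => lnv (v (D.sec x)), desc_cont (f := fun p => lnv (v p)) hi
    (continuousOn_iff_continuous_domRestrict.2 (Bun.vec _ (continuousOn_iff_continuous_domRestrict.1 hc) fun y => h0 _ y.2).cont),
    fun x => OP.lnv (h0 _ (sec_st x.2))⟩, hc, h0, fun p hp => ?_, ha⟩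
  exact (congrArg (· *ᵥ v p) (desc_eq (f := fun p => lnv (v p)) hi hp)).trans (lnv_mulVec (h0 p hp))

theorem poly_cont (h : ∀ k, IsPoly co fun p => v p k) : ContinuousOn v {p | D.St p} :=
  (continuous_pi fun k => (h k).continuous continuous_co).continuousOn

variable (D) in
/-- the classes of the lines that are spanned by polynomial sections -/
def hyp : AddSubmonoid (HE D.XS) where
  carrier := {c | ∃ (κ : Type) (_ : Fintype κ) (χ : Matrix I I ℂ → ℂ) (L : Bun D.XS κ 1)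
    (v : Pt I D.m → κ → ℂ), D.Wt χ L v ∧ (∀ k, IsPoly co fun p => v p k) ∧ c = L.x}
  add_mem' := by
    rintro _ _ ⟨κ, _, χ, L, v, h, k, rfl⟩ ⟨κ', _, χ', L', v', h', k', rfl⟩
    exact ⟨_, _, _, _, _, h.tens h', fun x => (k x.1).mul (k' x.2), (L.x_tens L').symm⟩
  zero_mem' := by
    have h1 : OP 1 (1 : Matrix Unit Unit ℂ) := ⟨by simp, by simp, by simp⟩
    exact ⟨Unit, _, 1, Bun.const _ h1, 1, ⟨continuousOn_const, fun _ _ => one_ne_zero,
      fun _ _ => one_mulVec _, fun _ _ _ _ => (one_smul _ _).symm⟩, fun _ => IsPoly.const 1,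
      (Bun.x_const h1).symm⟩

theorem amat_prj {N : ℕ} (v : Fin N → ℂ) : amat (proj v) = lnv v := by
  ext i j
  simp [amat, proj, lnv, vecMulVec_apply, dotProduct, div_eq_inv_mul, mul_comm]

theorem hyp_le {c : HE D.XS} (h : c ∈ D.hyp) : c ∈ Hyp D.mf := by
  obtain ⟨κ, _, χ, L, v, h, k, rfl⟩ := h
  let e := Fintype.equivFin κ
  have h0 : ∀ p, D.St p → v p ∘ e.symm ≠ 0 := fun p hp c =>
    h.ne p hp (funext fun x => by simpa using congrFun c (e x))
  obtain ⟨L', h'⟩ := exists_wt (v := fun p => v p ∘ e.symm) (χ := χ) (poly_cont fun x => k _) h0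
    fun g hg p hp => by rw [h.act g hg p hp]; rfl
  have ht := holP_desc (T := fun p => v p ∘ e.symm) (fun x => k _) h0 fun p hp g hg => by
    have := h0 _ (hp.act hg)
    rw [h'.act g hg p hp] at this ⊢
    exact HIR.proj_smul (left_ne_zero_of_smul this) _
  refine ⟨_, _, ht, (h'.x_eq h fun _ _ => rfl).trans (congrArg Bun.x (Bun.ext (funext fun x => ?_)))⟩
  have := h'.eq _ (sec_st x.2)
  rw [pt_sec] at this
  exact ((L'.op x).eq_lnv (h0 _ (sec_st x.2)) this).trans (amat_prj _).symm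

theorem det_hat (hD : D.Hat) (hg : g ∈ D.Lie) (B : Finset I) :
    (g.submatrix (fun j : B => j.1) fun j : B => j.1).det = ∏ j ∈ B, g j j := by
  rw [det_apply', Finset.sum_eq_single 1 (fun σ _ h1 => ?_) (by simp), ← Finset.prod_coe_sort B]
  · simp
  refine mul_eq_zero_of_right _ (by_contra fun c => h1 (Equiv.ext fun j => ?_))
  have k : ∀ j : B, D.gp (σ j) j := fun j => by_contra fun n =>
    Finset.prod_ne_zero_iff.1 c j (Finset.mem_univ _) (hg _ _ n)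
  have k' : ∀ (n : ℕ) (j : B), D.gp ((σ ^ n) j) j := fun n j => by
    induction n with
    | zero => exact D.gp_refl _
    | succ n ih => rw [pow_succ']; exact gp_trans (k _) ih
  obtain ⟨n, hn⟩ := mem_powers_iff_mem_zpowers.2 (inv_mem (Subgroup.mem_zpowers σ))
  have := k' n (σ j)
  rw [show σ ^ n = σ⁻¹ from hn, Equiv.Perm.coe_inv, Equiv.symm_apply_apply] at this
  exact Subtype.ext (hD _ _ ⟨k j, this⟩)

/-- the lines of the minors -/
theorem exists_minor (hD : D.Hat) {B : Finset I} (hB : ∀ j k, D.gp j k → j ∈ B → k ∈ B) :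
    ∃ (κ : Type) (_ : Fintype κ) (L : Bun D.XS κ 1) (v : Pt I D.m → κ → ℂ),
      D.Wt (fun g => ∏ j ∈ B, (D.om g ^ D.uni.A)⁻¹ * g j j) L v ∧ L.x ∈ D.hyp := by
  classical
  let v : Pt I D.m → (B → Cn D.nU I D.m) → ℂ := fun p J =>
    (((D.Phv p).submatrix (fun j : B => j.1) id).submatrix id J).det
  have k : ∀ J, IsPoly co fun p => v p J := fun J => IsPoly.det fun i j => Phv_poly _ _
  obtain ⟨L, h⟩ := exists_wt (v := v) (χ := fun g => ∏ j ∈ B, (D.om g ^ D.uni.A)⁻¹ * g j j)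
    (poly_cont k) (fun p hp => by
      let S : Matrix (Cn D.nU I D.m) D.Mu ℂ := of fun c d => if d.1 = c then
        star (D.sv p d.2) / ∑ k, D.sv p k * star (D.sv p k) else 0
      have e : D.Phv p * S = D.Xi p := by
        ext i d
        simp [S, mul_apply, Xi]
      obtain ⟨J, hJ⟩ := exists_minor_ne (A := (D.Phv p).submatrix (fun j : B => j.1) id)
        (M := (S * D.Xp p).submatrix id fun j : B => j.1) (by
          rw [← submatrix_mul _ _ _ _ _ Function.bijective_id, ← Matrix.mul_assoc, e,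
            Xi_Xp hp.toBase, submatrix_one _ Subtype.val_injective])
      exact fun c => hJ (congrFun c J)) fun g hg p _ => funext fun J => by
      have hG := D.Lie.smul_mem (D.om g ^ D.uni.A)⁻¹ hg.1
      have := det_hat hD hG B
      simp only [Matrix.smul_apply, smul_eq_mul] at this
      rw [Pi.smul_apply, smul_eq_mul, ← this, ← det_sub_mul]
      simp only [v, Phv_act' (D.P_le hg)]
      congr 2
      ext a c
      simp only [submatrix_apply, Matrix.mul_apply, id]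
      rw [Finset.sum_coe_sort B fun j => ((D.om g ^ D.uni.A)⁻¹ • g) a j * D.Phv p j c]
      exact (Finset.sum_subset B.subset_univ fun j _ hj => by
        rw [hG a j fun e => hj (hB _ _ e a.2), zero_mul]).symm
  exact ⟨_, _, L, v, h, _, _, _, L, v, h, k, rfl⟩

theorem ell_wt (hD : D.Hat) (i : I) :
    D.Wt (fun g => g⁻¹ i i) (ell hD i) fun p x => (D.PG p i * D.Xp p) x i where
  cont := by
    have c := fun U => continuousOn_iff_continuous_domRestrict.1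
      ((Nn_cont (D := D) U).mono fun p (h : D.St p) => h.toBase)
    have c' := continuousOn_iff_continuous_domRestrict.1
      ((Xp_cont (D := D)).mono fun p (h : D.St p) => h.toBase)
    exact continuousOn_iff_continuous_domRestrict.2 (continuous_pi fun x =>
      (((c _).sub (c _)).matrix_mul c').matrix_elem x i)
  ne p hp c := by
    have := PG_diag hD hp.toBase i
    rw [Matrix.mul_assoc, mul_apply] at this
    simp [fun x => congrFun c x] at this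
  eq p hp := funext fun x => by
    rw [ell_pt hD hp]
    change (D.PG p i * (D.PG p i * D.Xp p)) x i = _
    rw [← Matrix.mul_assoc, (PG_op hp.toBase i).idem]
  act g hg p hp := funext fun x => by
    have F := PG_frm hD hp.toBase
    have e : D.PG p i * D.Xp p = D.Xp p * (D.Xi p * D.PG p i * D.Xp p) := by
      rw [← Matrix.mul_assoc, ← Matrix.mul_assoc, F.AB_l]
    rw [PG_act hg, Xp_act (D.P_le hg), ← Matrix.mul_assoc, mul_apply, Pi.smul_apply, smul_eq_mul,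
      Finset.sum_eq_single i (fun k _ n => ?_) (by simp), mul_comm]
    by_contra c
    refine left_ne_zero_of_mul c ?_
    rw [e, mul_apply]
    refine Finset.sum_eq_zero fun j _ => mul_eq_zero_of_right _ (by_contra fun t => n ?_)
    exact hD _ _ ⟨by_contra fun s => right_ne_zero_of_mul c (inv_mem_Lie hg.1 k i s), (F.tri _ _ _ t).2⟩

theorem ell_x_mem (hD : D.Hat) (i : I) :
    (ell hD i).x ∈ Submodule.span ℂ (D.hyp : Set (HE D.XS)) := by
  classical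
  have hi : i ∈ Finset.univ.filter (D.gp i) := by simpa using D.gp_refl i
  obtain ⟨κ, _, L, v, h, m⟩ := exists_minor hD (B := Finset.univ.filter (D.gp i))
    fun j k e hj => by simpa using gp_trans (Finset.mem_filter.1 hj).2 e
  obtain ⟨κ', _, L', v', h', m'⟩ := exists_minor hD (B := (Finset.univ.filter (D.gp i)).erase i)
    fun j k e hj => by
      simp only [Finset.mem_erase, Finset.mem_filter, Finset.mem_univ, true_and] at hj ⊢
      exact ⟨fun c => hj.1 (hD _ _ ⟨c ▸ e, hj.2⟩), gp_trans hj.2 e⟩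
  obtain ⟨L₀, h₀⟩ := exists_wt (v := D.sv) (χ := fun g => (D.om g ^ D.uni.A)⁻¹)
    (poly_cont sv_poly) (fun p hp c => by
      obtain ⟨k, hk, -⟩ := uni_gen hp.toBase
      exact hk (congrFun c k)) fun g hg p _ => funext (sv_act' (D.P_le hg) p)
  have e := (h₀.tens h').x_eq ((ell_wt hD i).tens h) fun g hg => by
    have : g⁻¹ i i * g i i = 1 := by
      rw [← one_apply_eq (α := ℂ) i, ← nonsing_inv_mul g hg.2, mul_apply]
      symm
      refine Finset.sum_eq_single i (fun k _ n => by_contra fun c => n (hD _ _ ⟨?_, ?_⟩)) (by simp)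
      · exact by_contra fun s => right_ne_zero_of_mul c (hg.1 k i s)
      · exact by_contra fun s => left_ne_zero_of_mul c (inv_mem_Lie hg.1 i k s)
    rw [← Finset.mul_prod_erase _ _ hi]
    linear_combination (D.om g ^ D.uni.A)⁻¹ * (∏ j ∈ (Finset.univ.filter (D.gp i)).erase i,
      (D.om g ^ D.uni.A)⁻¹ * g j j) * this
  rw [Bun.x_tens, Bun.x_tens] at e
  rw [eq_sub_of_add_eq e]
  exact sub_mem (Submodule.subset_span (D.hyp.add_mem ⟨_, _, _, _, _, h₀, sv_poly, rfl⟩ m'))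
    (Submodule.subset_span m)

/-- the tautological classes are combinations of classes of hyperplanes -/
theorem ell_x_hyp (hD : D.Hat) (i : I) : (ell hD i).x ∈ Submodule.span ℂ (Hyp D.mf) :=
  Submodule.span_mono (fun _ => hyp_le) (ell_x_mem hD i)

end Dat

end Pool.Agent.CS
end
end

-- part Pool.Agent.P.MP_d34769_ag.YG9
section

/-! The spaces of orbits are of Tate type. -/

open MvPolynomial Function

noncomputable section
namespace Pool.Agent.CS.Dat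

variable {I : Type} [Fintype I] [DecidableEq I]

theorem tate (D : Dat I) : TateM D.mf :=
  (tateM_of_ev (D.hat (o0 I)).mf _ (ell_x_hyp (D.hat_Hat o0_inj)) (evH_surj _)).of_inj D.mf
    (D.hatMor _).mp_hol (D.hatMor _).mp_maps (D.hat_pinj o0_inj)

end Pool.Agent.CS.Dat
end
end

-- part Pool.Agent.P.MP_d34769_ag.YC6b
section

/-! A diagram of manifolds of Tate type has cohomology of Tate type. -/

open Set
open Pool.Agent.HT

noncomputable section
namespace Pool.Agent.CS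

section sys
variable {S : Sh} {V : S.ι → Type} [∀ i, AddCommGroup (V i)] [∀ i, Module ℂ (V i)] (Y : Sys S V)
  {g : ∀ i, Module.End ℂ (V i)}

theorem Sys.δ_zero {x : ∀ i, V i} {i : S.ι} (h : ∀ k, S.deg k < S.deg i → x k = 0) :
    Y.bg.δ x i = 0 := by
  rw [Sys.bg_δ, mat_eq_zero fun k r e => by
    rw [h k (by have := (S.sup i k e).2; omega), map_zero], map_zero]

variable (h : ∀ i, HG (Y.A i) (g i))
  (hp : ∀ {i j} (r : S.rel i j) x, Y.pl r (g j x) = g i (Y.pl r x))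
  {C : Cx (∀ i, V i)} (hC : IsKC (Y.kd h @hp) C) {D : ∀ i, Cx (V i)}
  (hD : ∀ i, IsKC (h i).kd (D i))

include hC hD in
theorem Sys.lead_YC6b {c j : ℕ} {x : C.Z j} (hx : x.1 ∈ Y.bg.Col c)
    (he : ∀ i (n : ℕ) (y : (D i).Z n), c + n = j → y.1 = x.1 i → (D i).cls n y = 0) :
    C.cls j x ∈ (hC.mhs j).W (c + 1) := by
  classical
  have hz := hC.mem_Z.1 x.2
  rw [Sys.mem_Col] at hx
  have key : ∀ i, ∃ z, (S.deg i = c → x.1 i = (Y.A i).d z) ∧ (S.deg i ≠ c → z = 0) := fun i => by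
    by_cases e : S.deg i = c
    swap
    · exact ⟨0, fun e' => absurd e' e, fun _ => rfl⟩
    have h0 : ∀ q, c + q ≠ j → (Y.A i).e q (x.1 i) = 0 := fun q hq => by
      have h1 : Y.bg.e c q x.1 i = 0 := congrFun ((BG.mem_Deg _).1 hz.1 c q hq) i
      rwa [Sys.bg_e, if_pos e] at h1
    rcases lt_or_ge j c with hj | hj
    · exact ⟨0, fun _ => by rw [map_zero]; exact (Y.A i).ext _ fun q => h0 q (by omega),
        fun _ => rfl⟩
    obtain ⟨n, rfl⟩ := Nat.exists_eq_add_of_le hj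
    have h1 : x.1 i ∈ (h i).kd.Deg n := (BG.mem_Deg _).2 fun p q hq => by
      cases p with
      | zero => exact h0 q (by omega)
      | succ p => rfl
    have h2 : (h i).kd.D (x.1 i) = 0 := by
      have h3 : (Y.A i).d (x.1 i) + Y.bg.δ x.1 i = 0 := congrFun hz.2 i
      rw [Y.δ_zero fun k hk => hx k (by omega)] at h3
      exact h3
    obtain ⟨z, hz'⟩ := ((hD i).mem_B h1).1
      (Cx.cls_eq_zero.1 (he i n ⟨_, (hD i).mem_Z.2 ⟨h1, h2⟩⟩ rfl rfl))
    exact ⟨z, fun _ => hz'.trans (add_zero _), fun e' => absurd e e'⟩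
  choose z h1 h2 using key
  refine hC.mem_imC.2 ⟨z, Sys.mem_Col.2 fun i hi => ?_⟩
  change x.1 i - ((Y.A i).d (z i) + Y.bg.δ z i) = 0
  rw [Y.δ_zero fun k hk => h2 k (by omega), add_zero, sub_eq_zero]
  by_cases e : S.deg i = c
  · exact h1 i e
  · rw [h2 i e, map_zero, hx i (by omega)]

include hD in
theorem Sys.tate (t : ∀ i n, ((hD i).mhs n).Tate) (j : ℕ) : (hC.mhs j).Tate := by
  have k : ∀ i n, ((hD i).mhs n).W (0 + 1) = ⊥ := fun i n => by
    change (D i).im n ((h i).kd.Col 1) = ⊥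
    rw [(h i).col_one, eq_bot_iff]
    rintro _ ⟨y, hy, rfl⟩
    rw [show y = 0 from Subtype.ext hy, map_zero]
    exact zero_mem _
  refine fun c b hb => ⟨fun a ha => ?_, fun a ha => ?_⟩
  · obtain ⟨x, hx, rfl⟩ := hC.rep_F ha
    refine Y.lead_YC6b h hp hC hD hx.1 fun i n y e e' => ?_
    have h1 := (t i n 0 b (by omega)).1 (x := (D i).cls n y) ⟨by rw [MHS.W0]; trivial,
      ⟨y, show y.1 ∈ _ from e' ▸ (Y.mem_kd_F h hp).1 hx.2 i, rfl⟩⟩
    rwa [k] at h1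
  · obtain ⟨x, hx, rfl⟩ := hC.rep_Fb ha
    refine Y.lead_YC6b h hp hC hD hx.1 fun i n y e e' => ?_
    have h1 := (t i n 0 b (by omega)).2 (x := (D i).cls n y) ⟨by rw [MHS.W0]; trivial,
      ⟨y, show y.1 ∈ _ from e' ▸ (Y.mem_kd_Fb h hp).1 hx.2 i, rfl⟩⟩
    rwa [k] at h1

end sys

theorem MHS.tate_map {H H' : Type} [AddCommGroup H] [Module ℂ H] [AddCommGroup H'] [Module ℂ H']
    {j : ℕ} (M : MHS H j) (e : H ≃ₗ[ℂ] H') : (M.map e).Tate ↔ M.Tate :=
  ⟨((M.mor_map e).good e.injective).tate, ((M.map_mor e).good e.symm.injective).tate⟩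

theorem SDg.tate {S : Sh} (P : SDg S) (h : ∀ i, TateM (P.mf i)) (j : ℕ) : (P.mhs j).Tate :=
  (MHS.tate_map _ _).2 (P.om.tate _ _ P.isKC (fun i => om_isKC (P.mf i))
    (fun i n => (MHS.tate_map _ _).1 (h i n)) j)

end Pool.Agent.CS
end
end

-- part Pool.Agent.P.MP_d34769_ag.YI9
section

/-! The Hodge numbers of the moduli space of coherent systems. -/

open Set

noncomputable section
namespace Pool.Agent.CS

open Pool.Agent.P.MP_d34769_ag Pool.Agent.PQ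

theorem top_T {I : Type} [Fintype I] [DecidableEq I] {col : I → Fin 3} {th : Fin 3 → ℤ}
    (h0 : Adm col th [[Finset.univ]]) (m : ℕ) :
    (sdT col th 1 m).Top (top h0) (Subtype.val '' NX m h0 2) where
  refl a := RS.refl _
  anti {a b} r s := by
    obtain ⟨u, hu⟩ := a.one
    obtain ⟨v, hv⟩ := b.one
    have h1 := a.2.1.part
    have h2 := b.2.1.part
    have h3 := r.ord
    have h4 := s.ord
    rw [hu, List.flatten_singleton] at h1
    rw [hv, List.flatten_singleton] at h2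
    simp only [hu, hv, OrdM, List.mem_singleton, exists_eq_left] at h3 h4
    exact Subtype.ext (hu.trans ((congrArg (fun w => [w])
      (h1.ext h2 fun i j => ⟨h3 i j, h4 i j⟩)).trans hv.symm))
  id a x hx := by
    rw [sdT_f (RS.refl _), relMor_refl]
    exact Dat.Mor.mp_id hx
  le := rel_top h0
  deg := deg_top h0
  pa := pa_NX h0 2
  sub := Subtype.coe_image_subset _ _
  maps a ha x hx := ⟨_, (mem_NX h0).2 ⟨a, two_le_of_ne h0 ha, ⟨x, hx⟩, rfl⟩, rfl⟩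

theorem hodge (n d k : ℕ) (hn : 0 < n) (hk : 0 < k) (α : ℝ) (hα : 0 < α) :
    ∀ (N e : ℕ) (ι : Type) [Finite ι] (Z : Set (Amb N)) (D : ι → Set (Amb N)), IsSNC e Z D →
      ∀ q : @Homeomorph (GMod α n d k) ↥(Z \ ⋃ i, D i) (modTop α n d k) _,
        Reg (fun x => (q x).1) →
        (∀ j c a, j ≠ 2 * a + c → hod Z D j c a = 0) ∧
        ∀ c a, ∑ b ∈ Finset.range (a + 1), hod Z D (2 * b + c) c b =
          har (I := Σ v, Fin (![d, n + d, k] v)) Sigma.fst (wgt n d k α) (fun i => i.2) (c + 1) a := by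
  intro N e ι _ Z D h q hq
  obtain ⟨th, hth⟩ := exists_th n d k α
  have i0 : Ix n d k := ⟨1, ⟨0, Nat.add_pos_left hn d⟩⟩
  have h0 : Adm (Sigma.fst : Ix n d k → Fin 3) th [[Finset.univ]] :=
    ⟨⟨by simpa using ⟨i0, Finset.mem_univ _⟩, by simp⟩, by simp, fun b hb => by
      obtain rfl : b = Finset.univ := by simpa using hb
      rw [← sum_dvec, dvec_univ]
      exact (hth _ le_rfl).2.1.2 wgt_all⟩
  have key : ∀ n0 : ℕ, (∀ j ≤ n0, ((T1 h (n0 + 1)).mhs j).Tate) ∧ ∀ c a, 2 * a + c ≤ n0 →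
      ∑ b ∈ Finset.range (a + 1), Module.rank ℂ (Sq (((T1 h (n0 + 1)).mhs (2 * b + c)).W c)
        (((T1 h (n0 + 1)).mhs (2 * b + c)).W (c + 1))) =
          har (I := Ix n d k) Sigma.fst (wgt n d k α) (fun i => i.2) (c + 1) a := fun n0 => by
    obtain ⟨m0, hm⟩ := he_main h0 (wgt n d k α) (fun i => i.2) (fun F => by
        rw [← sum_dvec]
        exact ⟨(hth _ (dvec_le F)).2.2.symm, (hth _ (dvec_le F)).2.1.symm⟩)
      (fun ⟨u, i⟩ ⟨v, j⟩ a b => by
        obtain rfl : u = v := a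
        exact congrArg _ (Fin.ext b)) n0
    obtain ⟨m, h1, h2⟩ : ∃ m, m0 ≤ m ∧ n0 + 2 ≤ m := ⟨_, le_max_left _ _, le_max_right _ _⟩
    obtain ⟨zq, hz⟩ := exists_zq (D := (top h0).dat m)
      ⟨rfl, (top h0).cp_one, fun e he => (hth e he).1⟩ (top_gl h0) hn hk hα q hq
    obtain ⟨R, hG⟩ := exists_Gam (fq_top h0) (snc_pa h.ht).1
      (isClosed_iUnion_of_finite (snc_closed h.ht)) hz
    have hc : m ≤ Fintype.card (Ix n d k × Fin ((top h0).dat m).m) := by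
      rw [Fintype.card_prod, Fintype.card_fin]
      exact Nat.le_mul_of_pos_left _ (Fintype.card_pos_iff.2 ⟨i0⟩)
    have z := fun j (hj : j ≤ n0) => zigzag (top_T h0 m) h.ht hG (Nat.lt_succ_of_le hj)
      ((by omega : j + 2 < 2 * m).trans_le (Nat.mul_le_mul_left 2 hc)) (fun x => Subtype.val_injective.mem_set_image.symm) (sgl_top h0 m)
      (hm m h1 j hj).1
    have t := fun j hj => (z j hj).elim fun _ c => c.1.tate
      ((sdT _ th 1 m).tate (fun L => Dat.tate _) j)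
    have w : ∀ c a, 2 * a + c ≤ n0 → Module.rank ℂ
        (Sq (((TP h.ht ((top h0).dat m).M (n0 + 1)).mhs (2 * a + c)).W c)
          (((TP h.ht ((top h0).dat m).M (n0 + 1)).mhs (2 * a + c)).W (c + 1))) =
        har (I := Ix n d k) Sigma.fst (wgt n d k α) (fun i => i.2) (c + 1) a := fun c a hj => by
      obtain ⟨f, g1, g2⟩ := z _ hj
      refine (g1.gr c).trans ?_
      rw [g2, SDg.mhs_W, SDg.mhs_W]
      exact (hm m h1 _ hj).2 c a rfl
    rcases (Z \ ⋃ i, D i).eq_empty_or_nonempty with c0 | c0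
    · refine ⟨fun j hj c b _ => ?_, fun c a hj => (TP.count h.ht _ _ c a
        (.inr fun j k => snc_zero h.ht _ c0 (by omega))).symm.trans (w c a hj)⟩
      have := snc_zero h.ht (n0 + 1) c0 (j := j) (by omega)
      exact ⟨fun x _ => Subsingleton.elim 0 x ▸ zero_mem _,
        fun x _ => Subsingleton.elim 0 x ▸ zero_mem _⟩
    · have hM := hc.trans (hG.card_le c0)
      exact ⟨fun j hj => snc_tate h.ht _ _ ((by omega : 0 < m).trans_le hM) (t j hj), fun c a hj =>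
        (TP.count h.ht _ _ c a (.inl (by omega))).symm.trans (w c a hj)⟩
  refine ⟨fun j c a hj => (hod_T1 h (Nat.lt_succ_self j) c a).trans
    (((key j).1 j le_rfl).hod_zero hj), fun c a => ?_⟩
  rw [← (key _).2 c a le_rfl]
  refine Finset.sum_congr rfl fun b hb => ?_
  have := Finset.mem_range.1 hb
  exact (hod_T1 h (by omega) c b).trans (((key _).1 _ (by omega)).hod_eq rfl)

end Pool.Agent.CS
end
end
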