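import Pool.Agent.K.MP_d34769_ag.C36

/-! Definitions for the construction of a normal crossing compactification. -/

open Set
open Pool.Agent.HT (Amb proj)
open Pool.Agent.PWV (pm)
open Pool.Agent.HIR

noncomputable section
namespace Pool.Agent.CS

section res
variable {n : ℕ}

/-- Along `V` there are no divisors, and the algebra contains coordinates that cut out `V`. -/
structure Nice (S : Sp n) (G : Alg S.M) (c : ℕ) (V : Set (Amb S.M)) : Prop where
  sg : V ⊆ Sg S G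
  off : ∀ x ∈ V, ∀ j, x ∉ S.D j
  ch : ∀ x ∈ V, ∃ (φ : E n → Amb S.M) (z : E n) (T : Finset (Fin n)), Pt S.X φ z x ∧ T.card = c ∧
    Sub V φ z T ∧ ∀ i ∈ T, loc G φ z 1 (co i)

/-- A sequence of blow-ups with centres off `V`, up to a centre that contains `V`. -/
inductive RsV : (S : Sp n) → Alg S.M → Set (Amb S.M) → Prop
  | hit {S : Sp n} {G : Alg S.M} {V : Set (Amb S.M)} (C : Set (Amb S.M)) :
      Ctr S C → C ⊆ Sg S G → V ⊆ C → RsV S G V
  | step {S : Sp n} {G : Alg S.M} {V : Set (Amb S.M)} (β : Bl S) : β.C ⊆ Sg S G → Disjoint β.C V →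
      RsV β.S' (tr β G) (β.S'.X ∩ β.π ⁻¹' V) → RsV S G V

end res

variable {σ : Type} {N : ℕ}

/-- the image of `W` in projective space -/
def Im (W : Set (σ → ℂ)) (Θ : Fin N → MvPolynomial σ ℂ) : Set (Amb N) :=
  (fun w => proj (pm Θ w)) '' W

/-- The polynomials `Θ` map the open set `W` onto a locally closed submanifold of dimension `e`. -/
structure PE (W : Set (σ → ℂ)) (e : ℕ) (Θ : Fin (N + 1) → MvPolynomial σ ℂ)
    (κ : Finset (Fin (N + 1))) : Prop where
  real : ∀ i, MvPolynomial.map (starRingEnd ℂ) (Θ i) = Θ i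
  mem : ∀ w, w ∈ W ↔ ∃ i ∈ κ, pm Θ w i ≠ 0
  cl : ∀ y ∈ closure (range fun p : ℂ × (σ → ℂ) => p.1 • pm Θ p.2), (∃ i ∈ κ, y i ≠ 0) →
    ∃ w ∈ W, ∃ c : ℂ, y = c • pm Θ w
  chart : ∀ x ∈ Im W Θ, ∃ (φ : E e → Amb (N + 1)) (z : E e), Pt (Im W Θ) φ z x

end Pool.Agent.CS
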