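import Pool.Agent.K.MP_d34769_ag.C12

namespace Pool.Agent.P.MP_d34769_ag

open LaurentPolynomial Matrix Module

variable {K : Type} [Field K]

/-- stability of the representation of sections, written with ambient subspaces -/
def AmbStable (α : ℝ) {n k : ℕ} {d : ℤ} (S : CohSys K n d k) : Prop :=
  ∀ (U₁ U₀ W : Submodule K (Fin n → LaurentPolynomial K)),
    U₁ ≤ S.E.F (-1) → U₀ ≤ S.E.F 0 → W ≤ S.V → U₁ ≤ U₀ →
    (∀ u ∈ U₁, (T 1 : LaurentPolynomial K) • u ∈ U₀) → W ≤ U₀ →
    ¬ (U₁ = ⊥ ∧ U₀ = ⊥ ∧ W = ⊥) → ¬ (U₁ = S.E.F (-1) ∧ U₀ = S.E.F 0 ∧ W = S.V) →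
    (n : ℝ) * (finrank K U₁ + α * finrank K W) <
      ((d : ℝ) + α * k) * ((finrank K U₀ : ℝ) - finrank K U₁)

lemma CohSys.V_le {n k : ℕ} {d : ℤ} (S : CohSys K n d k) : S.V ≤ S.E.F 0 := S.sec

instance {n k : ℕ} {d : ℤ} (S : CohSys K n d k) : FiniteDimensional K S.V :=
  Submodule.finiteDimensional_of_le S.V_le

lemma inj_of_mul_eq_one {n r : ℕ} {A : Matrix (Fin n) (Fin r) (LaurentPolynomial K)}
    {B : Matrix (Fin r) (Fin n) (LaurentPolynomial K)} (h : A * B = 1) :
    Function.Injective B.mulVec := by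
  intro u v huv
  have := congrArg A.mulVec huv
  simpa [Matrix.mulVec_mulVec, h] using this

lemma finrank_F_eq_of_inv {n n' k k' : ℕ} {d d' : ℤ} {S' : CohSys K n' d' k'}
    {S : CohSys K n d k} {A : Matrix (Fin n) (Fin n') (LaurentPolynomial K)}
    {B : Matrix (Fin n') (Fin n) (LaurentPolynomial K)} (hA : IsMor S' S A)
    (hi : Function.Injective A.mulVec) (hB : IsMor S S' B) (h : A * B = 1) (m : ℤ) :
    finrank K (S'.E.F m) = finrank K (S.E.F m) :=
  le_antisymm (finrank_F_le hA.isHom hi m) (finrank_F_le hB.isHom (inj_of_mul_eq_one h) m)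

theorem Stable.nn {α : ℝ} (hα : 0 < α) {n k : ℕ} (hk : 0 < k) {d : ℤ} {S : CohSys K n d k}
    (h : Stable α S) : S.E.NN := by
  obtain ⟨D⟩ := exists_splitting S.E
  rw [D.nn_iff]
  intro j0
  by_contra hj
  have hj : D.b j0 < 0 := by omega
  obtain ⟨r, d', S', A, hmor, hinj, hnn, -, hr0, hU⟩ :=
    generated S (S.E.F 0) S.V le_rfl S.V_le le_rfl
  obtain ⟨h1, h2⟩ := hU (S.E.F (-1)) (S.E.F_mono (by omega))
    (fun u hu => by simpa using S.E.T_smul_mem hu)
  have h3 := sum_toNat_gt D.b j0 hj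
  have h4 := sum_toNat_succ_lt D.b j0 hj
  rw [← D.finrank_neg_one, D.sum_b] at h3
  rw [← D.finrank_neg_one, ← D.finrank_zero] at h4
  have hrn : r < n := by omega
  have hr : 0 < r := by
    rw [Nat.pos_iff_ne_zero]
    intro hr
    have h5 : S.V = ⊥ := eq_bot_iff.2 (hr0 hr ▸ S.V_le)
    have h6 := S.dim
    rw [h5, finrank_bot] at h6
    omega
  have hlt := h r d' _ S' A hr hmor hinj (by
    rintro ⟨B, hB, hAB⟩
    have e1 := finrank_F_eq_of_inv hmor hinj hB hAB 0
    have e2 := finrank_F_eq_of_inv hmor hinj hB hAB (-1)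
    have e3 := hnn.finrank_zero
    have e4 : (finrank K (S'.E.F (-1)) : ℤ) = d' := hnn
    have e5 := finrank_F_le hmor.isHom hinj (n : ℤ)
    have e6 : (Module.finrank (LaurentPolynomial K) (Fin n → LaurentPolynomial K)) ≤
        Module.finrank (LaurentPolynomial K) (Fin r → LaurentPolynomial K) :=
      LinearMap.finrank_le_finrank_of_injective (f := B.mulVecLin) (inj_of_mul_eq_one hAB)
    simp at e6
    omega)
  rw [S.dim] at hlt
  have hd' : (0 : ℝ) ≤ d' := by exact_mod_cast (show (0 : ℤ) ≤ d' by omega)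
  have hdd : (d : ℝ) < d' := by exact_mod_cast (show d < d' by omega)
  have hk' : (0 : ℝ) < k := by exact_mod_cast hk
  have hr' : (0 : ℝ) < r := by exact_mod_cast hr
  have hrn' : (r : ℝ) < n := by exact_mod_cast hrn
  have hpos : 0 < (d' : ℝ) + α * k := by positivity
  have h7 : ((d' : ℝ) + α * k) / n < ((d' : ℝ) + α * k) / r :=
    div_lt_div_of_pos_left hpos hr' hrn'
  have h8 : ((d : ℝ) + α * k) / n < ((d' : ℝ) + α * k) / n :=
    div_lt_div_of_pos_right (by linarith) (by linarith)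
  linarith

lemma Bundle.NN.nonneg {n : ℕ} {d : ℤ} {E : Bundle K n d} (h : E.NN) : 0 ≤ d := by
  rw [← h]; positivity

theorem Stable.amb {α : ℝ} (hα : 0 < α) {n k : ℕ} (hn : 0 < n) (hk : 0 < k) {d : ℤ}
    {S : CohSys K n d k} (h : Stable α S) : AmbStable α S := by
  have hnn := h.nn hα hk
  intro U₁ U₀ W h1 h0 hWV h10 hT hW0 hne hprop
  have : FiniteDimensional K U₀ := Submodule.finiteDimensional_of_le h0
  obtain ⟨r, d', S', A, hmor, hinj, hnn', hmap, hr0, hU⟩ := generated S U₀ W h0 hW0 hWV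
  obtain ⟨h2, h3⟩ := hU U₁ h10 hT
  have hr : 0 < r := by
    rw [Nat.pos_iff_ne_zero]
    intro hr
    have h5 := hr0 hr
    exact hne ⟨eq_bot_iff.2 (h5 ▸ h10), h5, eq_bot_iff.2 (h5 ▸ hW0)⟩
  have hd : (0 : ℝ) ≤ d := by exact_mod_cast hnn.nonneg
  have hk' : (0 : ℝ) < k := by exact_mod_cast hk
  have hn' : (0 : ℝ) < n := by exact_mod_cast hn
  have hr' : (0 : ℝ) < r := by exact_mod_cast hr
  have hpos : 0 < (d : ℝ) + α * k := by positivity
  have h2' : (finrank K U₁ : ℝ) ≤ d' := by exact_mod_cast h2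
  have h3' : (r : ℝ) + finrank K U₁ ≤ finrank K U₀ := by exact_mod_cast h3
  by_cases hiso : ∃ B, IsMor S S' B ∧ A * B = 1
  · obtain ⟨B, hB, hAB⟩ := hiso
    have e1 := finrank_F_eq_of_inv hmor hinj hB hAB 0
    have e2 := finrank_F_eq_of_inv hmor hinj hB hAB (-1)
    have e3 := hnn'.finrank_zero
    have e4 : (finrank K (S'.E.F (-1)) : ℤ) = d' := hnn'
    have e5 := hnn.finrank_zero
    have e6 : (finrank K (S.E.F (-1)) : ℤ) = d := hnn
    have hWV' : W = S.V := by
      refine le_antisymm hWV fun v hv => ?_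
      rw [← hmap]
      exact ⟨B *ᵥ v, hB.2.2 v hv, by rw [mv_apply, Matrix.mulVec_mulVec, hAB, Matrix.one_mulVec]⟩
    have hrn : r = n := by omega
    have hdd : d' = d := by omega
    have hu0 := Submodule.finrank_mono h0
    have hu1 : finrank K U₁ < finrank K (S.E.F (-1)) := by
      by_contra hc
      apply hprop
      refine ⟨Submodule.eq_of_le_of_finrank_le h1 (by omega),
        Submodule.eq_of_le_of_finrank_le h0 (by omega), hWV'⟩
    have hu1' : (finrank K U₁ : ℝ) < d := by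
      exact_mod_cast (show (finrank K U₁ : ℤ) < d by omega)
    rw [hWV', S.dim]
    subst hrn
    calc (r : ℝ) * (finrank K U₁ + α * k) < r * (d + α * k) := by
          apply mul_lt_mul_of_pos_left _ hr'; linarith
      _ = (d + α * k) * r := by ring
      _ ≤ _ := by apply mul_le_mul_of_nonneg_left _ hpos.le; linarith
  · have hlt := h r d' _ S' A hr hmor hinj hiso
    rw [div_lt_div_iff₀ hr' hn'] at hlt
    calc (n : ℝ) * (finrank K U₁ + α * finrank K W) ≤ n * (d' + α * finrank K W) := by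
          apply mul_le_mul_of_nonneg_left _ hn'.le; linarith
      _ = (d' + α * finrank K W) * n := by ring
      _ < (d + α * k) * r := hlt
      _ ≤ _ := by apply mul_le_mul_of_nonneg_left _ hpos.le; linarith

lemma smul_K_comm {n : ℕ} (f : LaurentPolynomial K) (c : K) (p : Fin n → LaurentPolynomial K) :
    f • c • p = c • f • p := smul_comm _ _ _

theorem AmbStable.stable {α : ℝ} (hα : 0 < α) {n k : ℕ} (hn : 0 < n) (hk : 0 < k) {d : ℤ}
    {S : CohSys K n d k} (hnn : S.E.NN) (h : AmbStable α S) : Stable α S := by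
  intro n' d' k' S' A hn' hmor hinj hiso
  obtain ⟨D⟩ := exists_splitting S'.E
  have hd : (0 : ℝ) ≤ d := by exact_mod_cast hnn.nonneg
  have hk' : (0 : ℝ) < k := by exact_mod_cast hk
  have hn1 : (0 : ℝ) < n := by exact_mod_cast hn
  have hn2 : (0 : ℝ) < n' := by exact_mod_cast hn'
  have hpos : 0 < (d : ℝ) + α * k := by positivity
  have e1 : finrank K ((S'.E.F (-1)).map (mv A)) = ∑ j, (D.b j).toNat := by
    rw [finrank_map_mv hinj, D.finrank_neg_one]
  have e0 : finrank K ((S'.E.F 0).map (mv A)) = ∑ j, (D.b j + 1).toNat := by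
    rw [finrank_map_mv hinj, D.finrank_zero]
  have eV : finrank K (S'.V.map (mv A)) = k' := by rw [finrank_map_mv hinj, S'.dim]
  have i1 := sum_toNat_ge D.b
  have i2 := sum_toNat_succ_le D.b
  rw [D.sum_b, ← e1] at i1
  rw [← e1, ← e0] at i2
  have i1' : (d' : ℝ) ≤ finrank K ((S'.E.F (-1)).map (mv A)) := by exact_mod_cast i1
  have i2' : (finrank K ((S'.E.F 0).map (mv A)) : ℝ) ≤
      finrank K ((S'.E.F (-1)).map (mv A)) + n' := by exact_mod_cast i2
  by_cases hz : (S'.E.F (-1)).map (mv A) = ⊥ ∧ (S'.E.F 0).map (mv A) = ⊥ ∧ S'.V.map (mv A) = ⊥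
  · rw [hz.1, finrank_bot] at i1'
    rw [hz.2.2, finrank_bot] at eV
    subst eV
    have : ((d' : ℝ) + α * (0 : ℕ)) / n' ≤ 0 := by
      apply div_nonpos_of_nonpos_of_nonneg _ hn2.le
      simpa using i1'
    exact lt_of_le_of_lt this (div_pos hpos hn1)
  have hlt := h ((S'.E.F (-1)).map (mv A)) ((S'.E.F 0).map (mv A)) (S'.V.map (mv A))
    (by rintro _ ⟨p, hp, rfl⟩; exact hmor.isHom.map_F hp)
    (by rintro _ ⟨p, hp, rfl⟩; exact hmor.isHom.map_F hp)
    (by rintro _ ⟨p, hp, rfl⟩; exact hmor.2.2 p hp)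
    (Submodule.map_mono (S'.E.F_mono (by omega)))
    (by
      rintro _ ⟨p, hp, rfl⟩
      exact ⟨_, by simpa using S'.E.T_smul_mem hp, by simp [Matrix.mulVec_smul]⟩)
    (Submodule.map_mono S'.V_le) hz
    (by
      rintro ⟨f1, f0, fV⟩
      apply hiso
      obtain ⟨lam, hlam⟩ := LinearMap.exists_leftInverse_of_injective (mv A)
        (LinearMap.ker_eq_bot.2 hinj)
      have hlam' : ∀ c, lam (A *ᵥ c) = c := fun c => LinearMap.congr_fun hlam c
      obtain ⟨B, hB, hB'⟩ := hnn.extend S'.E lam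
        (by
          intro w hw
          rw [← f0] at hw
          obtain ⟨p, hp, rfl⟩ := hw
          rwa [mv_apply, hlam'])
        (by
          intro w hw
          rw [← f1] at hw
          obtain ⟨p, hp, rfl⟩ := hw
          rw [mv_apply, ← Matrix.mulVec_smul, hlam', hlam'])
      refine ⟨B, ⟨hB.1, hB.2, fun v hv => ?_⟩, hnn.ext fun w hw => ?_⟩
      · rw [hB' v (S.V_le hv)]
        rw [← fV] at hv
        obtain ⟨p, hp, rfl⟩ := hv
        rwa [mv_apply, hlam']
      · rw [← Matrix.mulVec_mulVec, hB' w hw, Matrix.one_mulVec]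
        rw [← f0] at hw
        obtain ⟨p, hp, rfl⟩ := hw
        rw [mv_apply, hlam'])
  rw [eV] at hlt
  rw [div_lt_div_iff₀ hn2 hn1]
  calc ((d' : ℝ) + α * k') * n ≤ (finrank K ((S'.E.F (-1)).map (mv A)) + α * k') * n := by
        apply mul_le_mul_of_nonneg_right _ hn1.le; linarith
    _ = n * (finrank K ((S'.E.F (-1)).map (mv A)) + α * k') := by ring
    _ < _ := hlt
    _ ≤ _ := by apply mul_le_mul_of_nonneg_left _ hpos.le; linarith

end Pool.Agent.P.MP_d34769_ag
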