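import Pool.Agent.K.MP_d34769_ag.C65
import Pool.Agent.P.MP_65ad7c_ag.XI5
import Pool.Agent.P.MP_65ad7c_ag.XG7

/-! The Jacobian criterion at a point where an irreducible cone is a manifold. -/

open Set Filter Topology
open Pool.Agent.HT (Amb proj)
open Pool.Agent.PWV (ZI Dim pm)
open Pool.Agent.HIR

noncomputable section
namespace Pool.Agent.CS

open MvPolynomial Matrix

variable {N n d : ℕ} {p : Ideal (MvPolynomial (Fin N) ℂ)}

theorem yj2_top {R : Type} [CommRing R] [Algebra ℂ R] {u : Fin n → Polynomial R} {a : Fin n → ℂ}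
    (h1 : ∀ i, (u i).natDegree ≤ 1) (h2 : ∀ i, (u i).coeff 1 = algebraMap ℂ R (a i))
    (f : MvPolynomial (Fin n) ℂ) : (aeval u f).natDegree ≤ f.totalDegree ∧
      (aeval u f).coeff f.totalDegree =
        algebraMap ℂ R (eval a (homogeneousComponent f.totalDegree f)) := by
  have key : ∀ (m : Fin n → ℕ) (s : Finset (Fin n)), (∏ i ∈ s, u i ^ m i).natDegree ≤ ∑ i ∈ s, m i ∧
      (∏ i ∈ s, u i ^ m i).coeff (∑ i ∈ s, m i) = algebraMap ℂ R (∏ i ∈ s, a i ^ m i) := by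
    intro m s
    induction s using Finset.induction_on with
    | empty => simp
    | insert i s hi ih =>
      have k1 := Polynomial.natDegree_pow_le_of_le (m i) (h1 i)
      have k2 := Polynomial.coeff_pow_of_natDegree_le (m := m i) (h1 i)
      rw [mul_one] at k1 k2
      rw [Finset.prod_insert hi, Finset.sum_insert hi, Finset.prod_insert hi,
        Polynomial.coeff_mul_add_eq_of_natDegree_le k1 ih.1, k2, ih.2, h2, map_mul, map_pow]
      exact ⟨Polynomial.natDegree_mul_le_of_le k1 ih.1, rfl⟩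
  have hd : ∀ m ∈ f.support, ∑ i, m i ≤ f.totalDegree := fun m hm => by
    rw [← Finsupp.degree_eq_sum]
    exact le_totalDegree hm
  rw [aeval_def, eval₂_eq', homogeneousComponent_apply, map_sum, map_sum, Finset.sum_filter,
    Polynomial.finsetSum_coeff]
  refine ⟨Polynomial.natDegree_sum_le_of_forall_le _ _ fun m hm => ?_,
    Finset.sum_congr rfl fun m hm => ?_⟩
  · rw [Polynomial.algebraMap_apply]
    exact (Polynomial.natDegree_C_mul_le _ _).trans ((key m _).1.trans (hd m hm))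
  · rw [Polynomial.algebraMap_apply, Polynomial.coeff_C_mul, Finsupp.degree_eq_sum]
    split_ifs with h
    · rw [← h, (key m _).2, eval_monomial, map_mul, Finsupp.prod_fintype _ _ (by simp)]
    · rw [Polynomial.coeff_eq_zero_of_natDegree_lt
        ((key m _).1.trans_lt (lt_of_le_of_ne (hd m hm) h)), mul_zero]

theorem yj2_step {A : Type} [CommRing A] [Algebra ℂ A] {x : Fin (n + 1) → A}
    (hx : (aeval x : MvPolynomial _ ℂ →ₐ[ℂ] A).toRingHom.IsIntegral)
    {F : MvPolynomial (Fin (n + 1)) ℂ} (hF : aeval x F = 0) {a : Fin (n + 1) → ℂ} (h0 : a 0 ≠ 0)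
    (ha : eval a (homogeneousComponent F.totalDegree F) ≠ 0) :
    (aeval fun i : Fin n => x i.succ - (a i.succ / a 0) • x 0 :
      MvPolynomial _ ℂ →ₐ[ℂ] A).toRingHom.IsIntegral := by
  set ψ : MvPolynomial (Fin n) ℂ →ₐ[ℂ] A := aeval fun i : Fin n => x i.succ - (a i.succ / a 0) • x 0
    with hψ
  let _ : Algebra (MvPolynomial (Fin n) ℂ) A := ψ.toRingHom.toAlgebra
  have e0 : ∀ b, algebraMap (MvPolynomial (Fin n) ℂ) A b = ψ b := fun _ => rfl
  let u : Fin (n + 1) → Polynomial (MvPolynomial (Fin n) ℂ) := fun i =>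
    Polynomial.C (C (a i)) * Polynomial.X + Polynomial.C (Fin.cases 0 X i)
  have e1 : ∀ f : MvPolynomial (Fin (n + 1)) ℂ,
      Polynomial.aeval ((a 0)⁻¹ • x 0) (aeval u f) = aeval x f := by
    intro f
    induction f using MvPolynomial.induction_on with
    | C c => rw [aeval_C, aeval_C, Polynomial.algebraMap_apply, Polynomial.aeval_C, e0, ψ.commutes]
    | add f g hf hg => simp only [map_add, hf, hg]
    | mul_X f i hf =>
      rw [map_mul, map_mul, map_mul, hf, aeval_X, aeval_X]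
      congr 1
      simp only [u, map_add, map_mul, Polynomial.aeval_C, Polynomial.aeval_X, e0, hψ, aeval_C,
        ← Algebra.smul_def, smul_smul]
      refine Fin.cases ?_ (fun j => ?_) i
      · simp [mul_inv_cancel₀ h0]
      · simp [div_eq_mul_inv]
  obtain ⟨k1, k2⟩ := yj2_top (u := u) (a := a) (fun i => Polynomial.natDegree_linear_le)
    (fun i => by simp [u]) F
  have h3 : IsIntegral (MvPolynomial (Fin n) ℂ) ((a 0)⁻¹ • x 0) := by
    refine ⟨Polynomial.C (C (eval a (homogeneousComponent F.totalDegree F))⁻¹) * aeval u F,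
      Polynomial.monic_of_natDegree_le_of_coeff_eq_one F.totalDegree
        ((Polynomial.natDegree_C_mul_le _ _).trans k1) ?_, ?_⟩
    · rw [Polynomial.coeff_C_mul, k2, algebraMap_eq, ← C_mul, inv_mul_cancel₀ ha, C_1]
    · rw [← Polynomial.aeval_def, map_mul, e1, hF, mul_zero]
  have h4 : ∀ f : MvPolynomial (Fin (n + 1)) ℂ,
      aeval x f ∈ integralClosure (MvPolynomial (Fin n) ℂ) A := fun f =>
    adjoin_le_integralClosure h3 (e1 f ▸ Polynomial.aeval_mem_adjoin_singleton _ _)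
  intro b
  obtain ⟨q, q1, q2⟩ := hx b
  refine isIntegral_trans (R := MvPolynomial (Fin n) ℂ)
    (A := integralClosure (MvPolynomial (Fin n) ℂ) A) b
    ⟨q.map ((aeval x : MvPolynomial _ ℂ →ₐ[ℂ] A).toRingHom.codRestrict
      (integralClosure (MvPolynomial (Fin n) ℂ) A) h4), q1.map _, ?_⟩
  rw [Polynomial.eval₂_map]
  exact q2

/-- the linear form with coefficients `c` -/
def yj2_lin (c : Fin N → ℂ) : MvPolynomial (Fin N) ℂ := ∑ j, C (c j) * X j

theorem yj2_ev (c y : Fin N → ℂ) : eval y (yj2_lin c) = c ⬝ᵥ y := by simp [yj2_lin, dotProduct]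

theorem yj2_nz {H : MvPolynomial (Fin N) ℂ} (h : H ≠ 0) : ∃ a, eval a H ≠ 0 := by
  by_contra hc
  push Not at hc
  exact h (MvPolynomial.funext fun a => by rw [hc, map_zero])

theorem yj2_lin_ne {c : Fin N → ℂ} (hc : c ≠ 0) : yj2_lin c ≠ 0 := fun e => hc <| by
  funext i
  have := yj2_ev c (Pi.single i 1)
  rw [e, map_zero] at this
  simpa using this.symm

/-- the polynomial ring in the forms `L` maps to the coordinate ring -/
def yj2_ph (p : Ideal (MvPolynomial (Fin N) ℂ)) (L : Matrix (Fin n) (Fin N) ℂ) :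
    MvPolynomial (Fin n) ℂ →ₐ[ℂ] MvPolynomial (Fin N) ℂ ⧸ p :=
  aeval fun i => Ideal.Quotient.mk p (yj2_lin (L i))

theorem yj2_ph_eq (L : Matrix (Fin n) (Fin N) ℂ) (f : MvPolynomial (Fin n) ℂ) :
    yj2_ph p L f = Ideal.Quotient.mk p (aeval (fun i => yj2_lin (L i)) f) :=
  DFunLike.congr_fun (algHom_ext (f := yj2_ph p L)
    (g := (Ideal.Quotient.mkₐ ℂ p).comp (aeval fun i => yj2_lin (L i)))
    fun i => by simp [yj2_ph]) f

theorem yj2_ev_aeval (L : Matrix (Fin n) (Fin N) ℂ) (y : Fin N → ℂ) (f : MvPolynomial (Fin n) ℂ) :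
    eval y (aeval (fun i => yj2_lin (L i)) f) = eval (L *ᵥ y) f := by
  rw [PWV.vdim_subst]
  simp only [yj2_ev]
  rfl

theorem yj2_ph_zero (hp : p.IsPrime) (L : Matrix (Fin n) (Fin N) ℂ) (f : MvPolynomial (Fin n) ℂ) :
    yj2_ph p L f = 0 ↔ ∀ y ∈ ZI p, eval (L *ᵥ y) f = 0 := by
  rw [yj2_ph_eq, Ideal.Quotient.eq_zero_iff_mem]
  exact ⟨fun h y hy => yj2_ev_aeval L y f ▸ hy _ h,
    fun h => PWV.null hp fun y hy => (yj2_ev_aeval L y f).trans (h y hy)⟩

/-- linear Noether normalisation, transversal to a given subspace -/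
theorem yj2_nn (hp : p.IsPrime) (hd : Dim (ZI p) (d + 1)) (D : E d →ₗ[ℂ] (Fin N → ℂ)) (j : ℕ) :
    ∀ L : Matrix (Fin (d + j)) (Fin N) ℂ, (∀ t, L *ᵥ D t = 0 → t = 0) →
      (yj2_ph p L).toRingHom.IsIntegral → ∃ L : Matrix (Fin d) (Fin N) ℂ,
        (∀ t, L *ᵥ D t = 0 → t = 0) ∧ (yj2_ph p L).toRingHom.IsIntegral := by
  induction j with
  | zero => exact fun L h1 h2 => ⟨L, h1, h2⟩
  | succ j ih =>
    intro L h1 h2
    obtain ⟨F, hF, hF'⟩ := hd.mono_nat (show d + 1 ≤ d + j + 1 by omega) fun i => yj2_lin (L i)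
    have h3 : yj2_ph p L F = 0 := (yj2_ph_zero hp L F).2 fun y hy => by
      have := hF' y hy
      simp only [yj2_ev] at this
      exact this
    have h4 : homogeneousComponent F.totalDegree F ≠ 0 := by
      obtain ⟨m, hm, e⟩ := F.support.exists_mem_eq_sup (support_nonempty.2 hF)
        fun s => s.sum fun _ e => e
      intro h
      have := coeff_homogeneousComponent F.totalDegree F m
      rw [h, if_pos (show Finsupp.degree m = F.totalDegree from e.symm)] at this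
      exact mem_support_iff.1 hm this.symm
    obtain ⟨f, hf, hf'⟩ := Submodule.exists_dual_map_eq_bot_of_lt_top
      (p := LinearMap.range (L.mulVecLin ∘ₗ D)) (lt_top_iff_ne_top.2 fun e => by
        have := (L.mulVecLin ∘ₗ D).finrank_range_le
        rw [e, finrank_top, Module.finrank_fin_fun, Module.finrank_fin_fun] at this
        omega) inferInstance
    have e1 : ∀ v, f v = (fun i => f (Pi.single i 1)) ⬝ᵥ v := fun v => by
      conv_lhs => rw [pi_eq_sum_univ' v]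
      simp [dotProduct, mul_comm]
    have h5 : (fun i => f (Pi.single i 1)) ≠ 0 := fun e =>
      hf (LinearMap.ext fun v => by rw [e1, e, zero_dotProduct]; rfl)
    obtain ⟨a, ha⟩ := yj2_nz (mul_ne_zero (mul_ne_zero (X_ne_zero (0 : Fin (d + j + 1))) h4)
      (yj2_lin_ne h5))
    rw [map_mul, map_mul, eval_X, yj2_ev, ← e1] at ha
    have a0 := left_ne_zero_of_mul (left_ne_zero_of_mul ha)
    refine ih (fun i => L i.succ - (a i.succ / a 0) • L 0) (fun t ht => h1 t ?_) ?_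
    · have e2 : L *ᵥ D t = ((L *ᵥ D t) 0 / a 0) • a := by
        funext i
        refine Fin.cases ?_ (fun k => ?_) i
        · rw [Pi.smul_apply, smul_eq_mul, div_mul_cancel₀ _ a0]
        · have : (L k.succ - (a k.succ / a 0) • L 0) ⬝ᵥ D t = 0 := congrFun ht k
          rw [sub_dotProduct, smul_dotProduct, sub_eq_zero] at this
          show L k.succ ⬝ᵥ D t = L 0 ⬝ᵥ D t / a 0 * a k.succ
          rw [this, smul_eq_mul]
          ring
      have e3 : f (L *ᵥ D t) = 0 := by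
        rw [← Submodule.mem_bot ℂ, ← hf']
        exact ⟨_, ⟨t, rfl⟩, rfl⟩
      rw [e2, map_smul, smul_eq_mul] at e3
      rw [e2, (mul_eq_zero.1 e3).resolve_right (right_ne_zero_of_mul ha), zero_smul]
    · have h6 := yj2_step (x := fun i => Ideal.Quotient.mk p (yj2_lin (L i))) h2 h3 a0
        (right_ne_zero_of_mul (left_ne_zero_of_mul ha))
      have e2 : ∀ i : Fin (d + j), Ideal.Quotient.mk p (yj2_lin (L i.succ - (a i.succ / a 0) • L 0)) =
          Ideal.Quotient.mk p (yj2_lin (L i.succ)) -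
            (a i.succ / a 0) • Ideal.Quotient.mk p (yj2_lin (L 0)) := fun i => by
        rw [← Ideal.Quotient.mkₐ_eq_mk ℂ, ← map_smul, ← map_sub]
        refine congrArg _ (MvPolynomial.funext fun y => ?_)
        rw [map_sub, smul_eval, yj2_ev, yj2_ev, yj2_ev, sub_dotProduct, smul_dotProduct, smul_eq_mul]
      simp only [yj2_ph, e2]
      exact h6

/-- substitution of linear forms -/
def yj2_R (L : Matrix (Fin d) (Fin N) ℂ) (u : Fin N → ℂ)
    (q : Polynomial (MvPolynomial (Fin d) ℂ)) : MvPolynomial (Fin N) ℂ :=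
  q.eval₂ (aeval fun i => yj2_lin (L i) : MvPolynomial (Fin d) ℂ →ₐ[ℂ] _).toRingHom (yj2_lin u)

variable {L : Matrix (Fin d) (Fin N) ℂ}

theorem yj2_R_ev (u y : Fin N → ℂ) (q : Polynomial (MvPolynomial (Fin d) ℂ)) :
    eval y (yj2_R L u q) = (q.map (eval (L *ᵥ y))).eval (u ⬝ᵥ y) := by
  rw [yj2_R, Polynomial.hom_eval₂, yj2_ev, Polynomial.eval_map]
  exact congrArg (fun f => q.eval₂ f (u ⬝ᵥ y)) (RingHom.ext (yj2_ev_aeval L y))

theorem yj2_R_mem (u : Fin N → ℂ) (q : Polynomial (MvPolynomial (Fin d) ℂ)) :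
    yj2_R L u q ∈ p ↔ q.eval₂ (yj2_ph p L).toRingHom (Ideal.Quotient.mk p (yj2_lin u)) = 0 := by
  rw [← Ideal.Quotient.eq_zero_iff_mem, yj2_R, Polynomial.hom_eval₂,
    show (Ideal.Quotient.mk p).comp _ = (yj2_ph p L).toRingHom from
      RingHom.ext fun f => (yj2_ph_eq L f).symm]

theorem yj2_min (hp : p.IsPrime) (hL : (yj2_ph p L).toRingHom.IsIntegral)
    (hi : Function.Injective (yj2_ph p L)) (u : Fin N → ℂ) :
    ∃ P : Polynomial (MvPolynomial (Fin d) ℂ), P.Monic ∧ yj2_R L u P ∈ p ∧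
      yj2_R L u P.derivative ∉ p ∧ ∀ b τ, (P.map (eval b)).eval τ = 0 →
        ∃ y ∈ ZI p, L *ᵥ y = b ∧ u ⬝ᵥ y = τ := by
  let _ : Algebra (MvPolynomial (Fin d) ℂ) (MvPolynomial (Fin N) ℂ ⧸ p) :=
    (yj2_ph p L).toRingHom.toAlgebra
  have : FaithfulSMul (MvPolynomial (Fin d) ℂ) (MvPolynomial (Fin N) ℂ ⧸ p) :=
    (faithfulSMul_iff_algebraMap_injective _ _).2 hi
  have h1 : IsIntegral (MvPolynomial (Fin d) ℂ) (Ideal.Quotient.mk p (yj2_lin u)) := hL _
  have h2 : ∀ q, yj2_R L u q ∈ p → minpoly _ (Ideal.Quotient.mk p (yj2_lin u)) ∣ q := fun q hq =>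
    minpoly.isIntegrallyClosed_dvd h1 ((yj2_R_mem u q).1 hq)
  refine ⟨_, minpoly.monic h1, (yj2_R_mem u _).2
    (minpoly.aeval (MvPolynomial (Fin d) ℂ) (Ideal.Quotient.mk p (yj2_lin u))), fun h => ?_,
    fun b τ hτ => ?_⟩
  · have h3 := minpoly.natDegree_pos h1
    exact h3.ne' (Polynomial.derivative_eq_zero.1
      (Polynomial.eq_zero_of_dvd_of_natDegree_lt (h2 _ h)
        (Polynomial.natDegree_derivative_lt h3.ne')))
  · let Φ := Polynomial.eval₂RingHom (yj2_ph p L).toRingHom (Ideal.Quotient.mk p (yj2_lin u))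
    let _ := Φ.toAlgebra
    have : Algebra.IsIntegral (Polynomial (MvPolynomial (Fin d) ℂ)) (MvPolynomial (Fin N) ℂ ⧸ p) :=
      ⟨RingHom.IsIntegral.tower_top Polynomial.C Φ
        ((RingHom.ext fun f => Polynomial.eval₂_C _ _ : Φ.comp Polynomial.C = _).symm ▸ hL)⟩
    have := RingHom.ker_isPrime (Polynomial.eval₂RingHom (eval b) τ)
    obtain ⟨Q, hQ, e⟩ := Ideal.exists_ideal_over_prime_of_isIntegral_of_isDomain
      (S := MvPolynomial (Fin N) ℂ ⧸ p) (RingHom.ker (Polynomial.eval₂RingHom (eval b) τ))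
      fun q hq => by
        obtain ⟨r, rfl⟩ := h2 q ((yj2_R_mem u q).2 hq)
        rw [RingHom.mem_ker, map_mul, Polynomial.coe_eval₂RingHom, ← Polynomial.eval_map, hτ,
          zero_mul]
    obtain ⟨y, hy, -⟩ := yd1_nz (Ideal.comap_isPrime (Ideal.Quotient.mk p) Q)
      (mt (Ideal.eq_top_iff_one _).2 (Ideal.comap_isPrime (Ideal.Quotient.mk p) Q).ne_top)
    have h3 : ∀ q : Polynomial (MvPolynomial (Fin d) ℂ), q.eval₂ (eval b) τ = 0 →
        (q.map (eval (L *ᵥ y))).eval (u ⬝ᵥ y) = 0 := by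
      intro q hq
      rw [← yj2_R_ev]
      refine hy _ ?_
      have h4 : Φ q ∈ Q := e.ge hq
      rw [Ideal.mem_comap, yj2_R, Polynomial.hom_eval₂,
        show (Ideal.Quotient.mk p).comp _ = (yj2_ph p L).toRingHom from
          RingHom.ext fun f => (yj2_ph_eq L f).symm]
      exact h4
    refine ⟨y, fun f hf => hy f ?_, funext fun i => ?_, ?_⟩
    · rw [Ideal.mem_comap, Ideal.Quotient.eq_zero_iff_mem.2 hf]
      exact Q.zero_mem
    · have := h3 (Polynomial.C (X i - C (b i))) (by simp)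
      rwa [Polynomial.map_C, Polynomial.eval_C, map_sub, eval_X, eval_C, sub_eq_zero] at this
    · have := h3 (Polynomial.X - Polynomial.C (C τ)) (by simp)
      rwa [Polynomial.map_sub, Polynomial.map_C, Polynomial.map_X, Polynomial.eval_sub,
        Polynomial.eval_X, Polynomial.eval_C, eval_C, sub_eq_zero] at this

theorem yj2_bd {q : Polynomial (MvPolynomial (Fin d) ℂ)} (hq : q.Monic) (b : Fin d → ℂ) :
    ∃ c : ℝ, ∀ b' ∈ Metric.closedBall b 1, ∀ τ, (q.map (eval b')).eval τ = 0 → ‖τ‖ ≤ c := by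
  obtain ⟨c, hc⟩ := (isCompact_closedBall b 1).exists_bound_of_continuousOn
    (f := fun b' (k : Fin q.natDegree) => eval b' (q.coeff k))
    (continuous_pi fun k => continuous_eval _).continuousOn
  refine ⟨c + 1, fun b' hb τ hτ => ?_⟩
  have h1 := Polynomial.IsRoot.norm_lt_cauchyBound (hq.map (eval b')).ne_zero hτ
  rw [Polynomial.cauchyBound, (hq.map (eval b')).leadingCoeff, nnnorm_one, div_one,
    hq.natDegree_map] at h1
  have h2 := h1.le.trans (add_le_add_left (Finset.sup_le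
    (a := ‖fun k : Fin q.natDegree => eval b' (q.coeff k)‖₊) fun k hk => by
      rw [Polynomial.coeff_map]
      exact nnnorm_le_pi_nnnorm (fun k : Fin q.natDegree => eval b' (q.coeff k))
        ⟨k, Finset.mem_range.1 hk⟩) 1)
  exact (NNReal.coe_le_coe.2 h2).trans (add_le_add_left (hc b' hb) 1)

theorem yj2_fib (hL : (yj2_ph p L).toRingHom.IsIntegral) (b : Fin d → ℂ) :
    {y ∈ ZI p | L *ᵥ y = b}.Finite ∧ IsCompact {y ∈ ZI p | L *ᵥ y ∈ Metric.closedBall b 1} := by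
  choose q q1 q2 using fun i => hL (Ideal.Quotient.mk p (yj2_lin (Pi.single i 1)))
  have h1 : ∀ y ∈ ZI p, ∀ i, ((q i).map (eval (L *ᵥ y))).eval (y i) = 0 := fun y hy i => by
    simpa [yj2_R_ev] using hy _ ((yj2_R_mem _ _).2 (q2 i))
  choose c hc using fun i => yj2_bd (q1 i) b
  refine ⟨(Finite.pi' fun i => Polynomial.finite_setOfPred_isRoot ((q1 i).map (eval b)).ne_zero).subset
    fun y hy i => hy.2 ▸ h1 y hy.1 i, (isCompact_closedBall 0 ‖c‖).of_isClosed_subset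
      ((PWV.zc_ZI p).isClosed.inter (Metric.isClosed_closedBall.preimage (by fun_prop)))
      fun y hy => ?_⟩
  rw [mem_closedBall_zero_iff, pi_norm_le_iff_of_nonneg (norm_nonneg c)]
  exact fun i => (hc i _ hy.2 _ (h1 y hy.1 i)).trans ((le_abs_self _).trans (norm_le_pi_norm c i))

theorem yj2_low {P : Polynomial ℂ} (hP : P.Monic) {τ : ℂ} (h0 : P.eval τ = 0)
    (h1 : P.derivative.eval τ ≠ 0) {ε : ℝ} (e0 : 0 ≤ ε) (e1 : ε ≤ 1)
    (h : ∀ s, P.eval s = 0 → s ≠ τ → ε ≤ ‖τ - s‖) : ε ^ P.natDegree ≤ ‖P.derivative.eval τ‖ := by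
  rw [(IsAlgClosed.splits P).eval_root_derivative hP ((Polynomial.mem_roots hP.ne_zero).2 h0)]
    at h1 ⊢
  refine (pow_le_pow_of_le_one e0 e1
    ((Multiset.card_erase_le (a := τ)).trans P.card_roots')).trans ?_
  rw [← normHom_apply, map_multiset_prod, Multiset.map_map, ← Multiset.prod_replicate,
    ← Multiset.map_const']
  refine Multiset.prod_map_le_prod_map₀ _ _ (fun _ _ => e0) fun s hs =>
    h s (Polynomial.isRoot_of_mem_roots (Multiset.mem_of_mem_erase hs)) fun e => h1 ?_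
  exact Multiset.prod_eq_zero (Multiset.mem_map.2 ⟨s, hs, by rw [e, sub_self]⟩)

variable {G : E d → Fin N → ℂ} {a : E d}

theorem yj2_dim (hp : p.IsPrime) (hG : AnalyticAt ℂ G a) (hy : G a ∈ ZI p)
    (hm : 𝓝[ZI p] G a ≤ Filter.map G (𝓝 a)) : Dim (ZI p) (d + 1) := by
  by_contra hd
  unfold Dim at hd
  push Not at hd
  obtain ⟨F, hF⟩ := hd
  obtain ⟨δ, hδ, h1⟩ := PWV.proj_open F hp
  have h2 : ZI (p.comap (aeval F).toRingHom) = univ := by
    refine eq_univ_of_forall fun y f hf => ?_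
    by_cases h0 : f = 0
    · rw [h0, map_zero]
    · obtain ⟨u, hu, hne⟩ := hF f h0
      exact absurd ((PWV.vdim_subst u F f).symm.trans (hu _ hf)) hne
  obtain ⟨U, hU, hU', hU''⟩ := mem_nhdsWithin.1 (hm (image_mem_map hG.eventually_analyticAt))
  obtain ⟨x, hx, hx', hxδ⟩ := mem_closure_iff.1 (dens hp hδ hy) U hU hU'
  have h3 := h1 x hx' hxδ
  rw [h2, nhdsWithin_univ] at h3
  have h4 := h3 (image_mem_map (mem_nhdsWithin.2 ⟨U, hU, hx, hU''⟩))
  have h5 : Weil.Thin (Module.finrank ℂ (Fin (d + 1) → ℂ))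
      (pm F '' (G '' {w | AnalyticAt ℂ G w})) :=
    (Weil.thin_of_param (by simp) fun w hw => hw).image fun y _ => AnalyticAt.pi fun i =>
      AnalyticOnNhd.eval_mvPolynomial (F i) y (mem_univ y)
  exact (MeasureTheory.Measure.measure_pos_of_mem_nhds MeasureTheory.volume h4).ne'
    (h5.measure_zero MeasureTheory.volume)

theorem yj2_sep (hL : (yj2_ph p L).toRingHom.IsIntegral) {y u : Fin N → ℂ} {W : Set (Fin N → ℂ)}
    (hW : IsOpen W) (hy : y ∈ W) (hi : InjOn (L *ᵥ ·) (W ∩ ZI p))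
    (hu : ∀ x ∈ ZI p, L *ᵥ x = L *ᵥ y → u ⬝ᵥ x = u ⬝ᵥ y → x = y) :
    ∃ ε : ℝ, 0 < ε ∧ ε ≤ 1 ∧ ∀ᶠ x in 𝓝 y, x ∈ ZI p → ∀ x' ∈ ZI p, L *ᵥ x' = L *ᵥ x → x' ≠ x →
      ε ≤ ‖u ⬝ᵥ x - u ⬝ᵥ x'‖ := by
  obtain ⟨c, hc, h⟩ := ((yj2_fib hL (L *ᵥ y)).2.diff hW).exists_forall_le'
    (f := fun x => ‖L *ᵥ x - L *ᵥ y‖ + ‖u ⬝ᵥ y - u ⬝ᵥ x‖) (by fun_prop) (a := 0) fun x hx => by
      refine (add_nonneg (norm_nonneg _) (norm_nonneg _)).lt_of_ne fun e => hx.2 ?_
      obtain ⟨e1, e2⟩ := (add_eq_zero_iff_of_nonneg (norm_nonneg _) (norm_nonneg _)).1 e.symm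
      rw [norm_eq_zero, sub_eq_zero] at e1 e2
      exact hu x hx.1.1 e1 e2.symm ▸ hy
  have h0 : 0 < min (c / 3) 1 := lt_min (by positivity) one_pos
  have h1 : ∀ᶠ x in 𝓝 y, ‖L *ᵥ x - L *ᵥ y‖ < min (c / 3) 1 :=
    ContinuousAt.eventually_lt (by fun_prop) continuousAt_const (by simpa using h0)
  have h2 : ∀ᶠ x in 𝓝 y, ‖u ⬝ᵥ y - u ⬝ᵥ x‖ < min (c / 3) 1 :=
    ContinuousAt.eventually_lt (by fun_prop) continuousAt_const (by simpa using h0)
  refine ⟨_, h0, min_le_right _ _, ?_⟩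
  filter_upwards [h1, h2, hW.mem_nhds hy] with x k1 k2 k3 hx x' hx' e hne
  have h3 := h x' ⟨⟨hx', by
    rw [mem_closedBall_iff_norm, e]
    exact k1.le.trans (min_le_right _ _)⟩, fun hw => hne (hi ⟨hw, hx'⟩ ⟨k3, hx⟩ e)⟩
  have h4 := norm_sub_le_norm_sub_add_norm_sub (u ⬝ᵥ y) (u ⬝ᵥ x) (u ⬝ᵥ x')
  have h5 := min_le_left (c / 3) 1
  simp only [e] at h3
  linarith

/-- the Jacobian criterion at a point where an irreducible affine variety is a manifold -/
theorem yj2_aff (hp : p.IsPrime) (hG : AnalyticAt ℂ G a)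
    (hi : ∀ t, fderiv ℂ G a t = 0 → t = 0) (hY : ∀ᶠ w in 𝓝 a, G w ∈ ZI p)
    (hm : 𝓝[ZI p] G a ≤ Filter.map G (𝓝 a)) (v : Fin N → ℂ)
    (hv : ∀ P ∈ p, fderiv ℂ (ev P) (G a) v = 0) : ∃ t, v = fderiv ℂ G a t := by
  have hy := hY.self_of_nhds
  obtain ⟨j, rfl⟩ : ∃ j, N = d + j := Nat.exists_eq_add_of_le (by
    simpa using LinearMap.finrank_le_finrank_of_injective
      (f := (fderiv ℂ G a : E d →ₗ[ℂ] (Fin N → ℂ))) ((injective_iff_map_eq_zero _).2 hi))
  obtain ⟨L, h1, hL⟩ := yj2_nn hp (yj2_dim hp hG hy hm) (fderiv ℂ G a) j 1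
    (fun t ht => hi t (by simpa using ht)) (RingHom.isIntegral_of_surjective _ fun b => by
      obtain ⟨f, rfl⟩ := Ideal.Quotient.mk_surjective b
      refine ⟨f, (yj2_ph_eq 1 f).trans (congrArg _ (MvPolynomial.funext fun y => ?_))⟩
      rw [yj2_ev_aeval, one_mulVec])
  set L' := LinearMap.toContinuousLinearMap L.mulVecLin with hL'
  obtain ⟨σ, hb⟩ := bi_of_inj ((L'.analyticAt _).comp hG) fun t ht => h1 t (by
    rwa [fderiv_comp a L'.differentiableAt hG.differentiableAt, L'.fderiv] at ht)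
  obtain ⟨t, ht⟩ := LinearMap.injective_iff_surjective.1
    ((injective_iff_map_eq_zero (L.mulVecLin ∘ₗ (fderiv ℂ G a : E d →ₗ[ℂ] _))).2 h1) (L *ᵥ v)
  refine ⟨t, sub_eq_zero.1 (by_contra fun hw => ?_)⟩
  have hw1 : L *ᵥ (v - fderiv ℂ G a t) = 0 := by
    rw [mulVec_sub, ← ht]
    exact sub_self _
  have hw2 : ∀ P ∈ p, fderiv ℂ (ev P) (G a) (v - fderiv ℂ G a t) = 0 := fun P hP => by
    have e : ev P ∘ G =ᶠ[𝓝 a] fun _ => 0 := hY.mono fun w hw => hw P hP
    have e' := e.fderiv_eq (𝕜 := ℂ)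
    rw [fderiv_comp a (an_ev P _).differentiableAt hG.differentiableAt, fderiv_fun_const] at e'
    rw [map_sub, hv P hP, zero_sub, neg_eq_zero]
    exact DFunLike.congr_fun e' t
  generalize v - fderiv ℂ G a t = w at hw hw1 hw2
  obtain ⟨u, hu⟩ := yj2_nz (H := yj2_lin w * ∏ x ∈ ((yj2_fib hL (L *ᵥ G a)).1.toFinset.erase (G a)),
    yj2_lin (x - G a)) (mul_ne_zero (yj2_lin_ne hw) (Finset.prod_ne_zero_iff.2 fun x hx =>
      yj2_lin_ne (sub_ne_zero.2 (Finset.ne_of_mem_erase hx))))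
  rw [map_mul, map_prod, mul_ne_zero_iff, Finset.prod_ne_zero_iff, yj2_ev, dotProduct_comm] at hu
  obtain ⟨W, hW, hW', hW''⟩ := mem_nhdsWithin.1 (hm (image_mem_map hb.left))
  obtain ⟨ε, e0, e1, hε⟩ := yj2_sep hL hW hW' (u := u) (fun x hx x' hx' e => by
      obtain ⟨s, hs, rfl⟩ := hW'' hx
      obtain ⟨s', hs', rfl⟩ := hW'' hx'
      exact congrArg G (hs.symm.trans ((congrArg σ e).trans hs')))
    fun x hx k1 k2 => by_contra fun k => hu.2 x
      (Finset.mem_erase.2 ⟨k, (Finite.mem_toFinset _).2 ⟨hx, k1⟩⟩) (by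
        rw [yj2_ev, dotProduct_comm, dotProduct_sub, k2, sub_self])
  obtain ⟨P, p1, p2, p3, p4⟩ := yj2_min hp hL ((injective_iff_map_eq_zero _).2 fun f hf => by
    refine poly_zero (z := (L' ∘ G) a) ?_
    rw [← hb.map_nhds, eventually_map]
    exact hY.mono fun s hs => (yj2_ph_zero hp L f).1 hf _ hs) u
  have h2 : ε ^ P.natDegree ≤ ‖eval (G a) (yj2_R L u P.derivative)‖ := by
    refine (isClosed_le continuous_const (continuous_eval _).norm).mem_of_frequently_of_tendsto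
      (((mem_closure_iff_frequently.1 (dens hp p3 hy)).and_eventually hε).mono fun x hx => ?_)
      tendsto_id
    have k := hx.1.2
    simp only [mem_ofPred_eq, id, yj2_R_ev, ← Polynomial.derivative_map] at k ⊢
    rw [← p1.natDegree_map (eval (L *ᵥ x))]
    refine yj2_low (p1.map _) (yj2_R_ev u x P ▸ hx.1.1 _ p2) k e0.le e1 fun s hs hne => ?_
    obtain ⟨x', k1, k2, rfl⟩ := p4 _ s hs
    exact hx.2 hx.1.1 x' k1 k2 fun e => hne (e ▸ rfl)
  have h3 : HasDerivAt (fun s : ℂ => G a + s • w) w 0 := by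
    simpa using ((hasDerivAt_id (0 : ℂ)).smul_const w).const_add (G a)
  have h4 := HasFDerivAt.comp_hasDerivAt_of_eq 0
    (an_ev (yj2_R L u P) (G a)).differentiableAt.hasFDerivAt h3 (by simp)
  have h5 : HasDerivAt (fun s : ℂ => u ⬝ᵥ G a + s * u ⬝ᵥ w) (u ⬝ᵥ w) 0 := by
    simpa using ((hasDerivAt_id (0 : ℂ)).mul_const (u ⬝ᵥ w)).const_add (u ⬝ᵥ G a)
  have h6 := HasDerivAt.comp_of_eq 0
    ((P.map (eval (L *ᵥ G a))).hasDerivAt (u ⬝ᵥ G a)) h5 (by simp)
  have e : ev (yj2_R L u P) ∘ (fun s : ℂ => G a + s • w) =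
      (fun x => (P.map (eval (L *ᵥ G a))).eval x) ∘ fun s : ℂ => u ⬝ᵥ G a + s * u ⬝ᵥ w := by
    funext s
    simp [ev, yj2_R_ev, mulVec_add, mulVec_smul, hw1]
  rw [e, hw2 _ p2] at h4
  rw [yj2_R_ev, ← Polynomial.derivative_map, (mul_eq_zero.1 (h6.unique h4)).resolve_right hu.1,
    norm_zero] at h2
  exact (pow_pos e0 _).not_ge h2

theorem jac {N e : ℕ} {p : Ideal (MvPolynomial (Fin N) ℂ)} (hp : p.IsPrime)
    (hc : ∀ y ∈ ZI p, ∀ c : ℂ, c • y ∈ ZI p) {g : E e → Fin N → ℂ} {z : E e}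
    (h : Pt (proj '' (ZI p \ {0})) (proj ∘ g) z (proj (g z))) (hg : AnalyticAt ℂ g z)
    (h0 : g z ≠ 0) (v : Fin N → ℂ) (hv : ∀ P ∈ p, fderiv ℂ (ev P) (g z) v = 0) :
    ∃ (u : E e) (c : ℂ), v = fderiv ℂ g z u + c • g z := by
  obtain ⟨k, hk⟩ : ∃ k, g z k ≠ 0 := Function.ne_iff.1 h0
  obtain ⟨ι, hι⟩ := h.inv
  let tl : E (e + 1) →L[ℂ] E e := ContinuousLinearMap.pi fun i => ContinuousLinearMap.proj i.succ
  let hd : E (e + 1) →L[ℂ] ℂ := ContinuousLinearMap.proj 0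
  have e0 : tl (Fin.cons 1 z) = z := rfl
  have e1 : hd (Fin.cons 1 z) = 1 := rfl
  have e2 : hd (Fin.cons 1 z) • (g ∘ tl) (Fin.cons 1 z) = g z := one_smul _ _
  have h1 : AnalyticAt ℂ (g ∘ tl) (Fin.cons 1 z) := hg.comp_of_eq (tl.analyticAt _) e0
  have h2 : ∀ t, fderiv ℂ (fun t => hd t • (g ∘ tl) t) (Fin.cons 1 z) t =
      fderiv ℂ g z (tl t) + hd t • g z := fun t => by
    have k1 : HasFDerivAt g (fderiv ℂ g z) (tl (Fin.cons 1 z)) := hg.differentiableAt.hasFDerivAt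
    rw [(hd.hasFDerivAt.fun_smul (k1.comp _ tl.hasFDerivAt)).fderiv]
    simp [e0, e1]
  have h3 : ∀ᶠ w in 𝓝 z, g w ∈ ZI p := by
    filter_upwards [h.ev, ev_ne_XE2 hg hk] with w h3 h4
    obtain ⟨y, hy, e⟩ := h3.mem
    obtain ⟨c, -, e'⟩ := (proj_eq_iff hy.2 fun k' => h4 (congrFun k' k)).1 e
    exact e' ▸ hc y hy.1 c
  have h4 : Tendsto proj (𝓝[ZI p] g z) (𝓝[proj '' (ZI p \ {0})] proj (g z)) := by
    refine tendsto_nhdsWithin_iff.2 ⟨(cont_proj h0).tendsto.mono_left nhdsWithin_le_nhds, ?_⟩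
    filter_upwards [self_mem_nhdsWithin, mem_nhdsWithin_of_mem_nhds (eventually_ne_nhds h0)]
      with y a1 a2
    exact ⟨y, ⟨a1, a2⟩, rfl⟩
  have h5 : Tendsto (fun y => ι (proj y)) (𝓝[ZI p] g z) (𝓝 z) := by
    refine Tendsto.comp ?_ h4
    rw [← h.map, tendsto_map'_iff]
    exact tendsto_id.congr' (hι.mono fun w hw => hw.symm)
  obtain ⟨t, ht⟩ := yj2_aff hp (G := fun t => hd t • (g ∘ tl) t) (a := Fin.cons 1 z)
    ((hd.analyticAt _).smul h1) (fun t ht => by
      rw [h2, add_eq_zero_iff_eq_neg, ← neg_smul] at ht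
      have k1 := h.imm hg h0 _ _ ht
      rw [k1, map_zero, eq_comm, smul_eq_zero_iff_left h0, neg_eq_zero] at ht
      funext i
      exact Fin.cases ht (fun j => congrFun k1 j) i)
    (((tl.continuous.tendsto' _ _ e0).eventually h3).mono fun w hw => hc _ hw _) (by
      rw [e2]
      refine le_map_of_right_inverse
        (mba := fun y => Fin.cons (y k / g (ι (proj y)) k) (ι (proj y))) ?_ ?_
      · filter_upwards [h4.eventually ((h.ev_iff (P := fun x => proj (g (ι x)) = x)).2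
            (hι.mono fun w hw => congrArg (proj ∘ g) hw)),
          h5.eventually (ev_ne_XE2 hg hk), mem_nhdsWithin_of_mem_nhds (eventually_ne_nhds h0)]
          with y a1 a2 a3
        obtain ⟨c, -, e'⟩ := (proj_eq_iff (fun k' => a2 (congrFun k' k)) a3).1 a1
        show (y k / g (ι (proj y)) k) • g (ι (proj y)) = y
        rw [congrFun e' k, Pi.smul_apply, smul_eq_mul, mul_div_cancel_right₀ _ a2, ← e']
      · refine tendsto_pi_nhds.2 fun i => Fin.cases ?_ (fun j => tendsto_pi_nhds.1 h5 j) i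
        rw [Fin.cons_zero, ← div_self hk]
        exact (((continuous_apply k).tendsto _).mono_left nhdsWithin_le_nhds).div
          ((an_app_XE2 hg k).continuousAt.tendsto.comp h5) hk) v (by
      rw [e2]
      exact hv)
  exact ⟨tl t, hd t, ht.trans (h2 t)⟩

end Pool.Agent.CS
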