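import Pool.Agent.K.MP_d34769_ag.C128
import Pool.Agent.K.MP_d34769_ag.C130
import Pool.Agent.P.MP_65ad7c_ag.XI2
import Pool.Agent.P.MP_65ad7c_ag.XI3
import Pool.Agent.P.MP_65ad7c_ag.XI4

/-! The start of the embedded resolution of a locally closed submanifold. -/

open Set Filter Topology
open scoped ComplexConjugate
open Pool.Agent.HT (Amb proj cj)
open Pool.Agent.PWV (pm ZI)
open Pool.Agent.HIR

noncomputable section
namespace Pool.Agent.CS

/-- functions whose differentials cut out the tangent space of `V` give coordinates -/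
theorem yj3_coords {n e M : ℕ} {V : Set (Amb M)} {φ : E n → Amb M} {x : Amb M}
    {ψ : E e → Amb M} {w : E e} (hq : Pt V ψ w x) {t : E e → E n} (ht : AnalyticAt ℂ t w)
    (e1 : φ ∘ t =ᶠ[𝓝 w] ψ) (hi : ∀ v, fderiv ℂ t w v = 0 → v = 0) {ι : Type} [Fintype ι]
    {f : ι → E n → ℂ} (hf : ∀ a, An (t w) (f a)) (h0 : ∀ᶠ y in 𝓝 (t w), φ y ∈ V → ∀ a, f a y = 0)
    (hk : ∀ v, (∀ a, fderiv ℂ (f a) (t w) v = 0) → ∃ u, v = fderiv ℂ t w u) :
    ∃ (τ σ : E n → E n) (z' : E n) (T : Finset (Fin n)), Bi τ σ (t w) z' ∧ T.card = n - e ∧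
      Sub V (φ ∘ σ) z' T ∧ ∀ i ∈ T, ∃ c : ι → ℂ, co i ∘ τ = ∑ a, (fun _ => c a) * f a := by
  classical
  obtain ⟨L, hL⟩ : ∃ L, L = fderiv ℂ t w := ⟨_, rfl⟩
  rw [← hL] at hi hk
  have i1 : Function.Injective L.toLinearMap := (injective_iff_map_eq_zero _).2 hi
  have hen : e ≤ n := by simpa using LinearMap.finrank_le_finrank_of_injective i1
  obtain ⟨T, -, hT⟩ := Finset.exists_subset_card_eq (s := (Finset.univ : Finset (Fin n)))
    (n := n - e) (by simp)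
  obtain ⟨s, hs⟩ := exists_emb (e := e) T (by omega)
  obtain ⟨L', hL'⟩ := exists_embL s
  have i2 : Function.Injective L'.toLinearMap := fun u v h => _root_.funext fun k => by
    have h1 : L' u (s k) = L' v (s k) := congrFun h (s k)
    rwa [hL', emb_apply, emb_apply] at h1
  obtain ⟨B0, hB0⟩ := Submodule.exists_linearEquiv_restrict_eq
    ((LinearEquiv.ofInjective _ i1).symm.trans (LinearEquiv.ofInjective _ i2))
  obtain ⟨B, hB, hBi⟩ : ∃ B : E n →L[ℂ] E n, (∀ u, B (L u) = emb s u) ∧ ∀ v, B v = 0 → v = 0 := by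
    refine ⟨LinearMap.toContinuousLinearMap B0.toLinearMap, fun u => ?_,
      fun v hv => B0.map_eq_zero_iff.1 hv⟩
    have h1 := hB0 (LinearEquiv.ofInjective _ i1 u)
    rw [LinearEquiv.trans_apply, LinearEquiv.symm_apply_apply, LinearEquiv.ofInjective_apply,
      LinearEquiv.ofInjective_apply] at h1
    rw [← hL']
    exact h1.symm
  have hc : ∀ i, ∃ c : ι → ℂ, i ∈ T → ∀ v, ∑ a, c a * fderiv ℂ (f a) (t w) v = B v i := by
    intro i
    by_cases hiT : i ∈ T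
    · obtain ⟨c, hc⟩ := (Submodule.mem_span_range_iff_exists_fun ℂ).1
        (mem_span_of_iInf_ker_le_ker (L := fun a => (fderiv ℂ (f a) (t w)).toLinearMap)
          (K := (LinearMap.proj i).comp B.toLinearMap) fun v hv => by
            obtain ⟨u, rfl⟩ := hk v fun a => (Submodule.mem_iInf _).1 hv a
            change B (L u) i = 0
            rw [hB]
            exact emb_of_ne s u fun k hk => (hs i).2 ⟨k, hk⟩ hiT)
      refine ⟨c, fun _ v => ?_⟩
      simpa using LinearMap.congr_fun hc v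
    · exact ⟨0, fun h => absurd h hiT⟩
  choose c hc using hc
  obtain ⟨τ, t1, t2⟩ : ∃ τ : E n → E n, (∀ i ∈ T, co i ∘ τ = ∑ a, (fun _ => c i a) * f a) ∧
      ∀ i ∉ T, co i ∘ τ = co i ∘ B :=
    ⟨fun y i => if i ∈ T then ∑ a, c i a * f a y else B y i,
      fun i hiT => _root_.funext fun y => by simp [co, hiT],
      fun i hiT => _root_.funext fun y => by simp [co, hiT]⟩
  have ha : AnalyticAt ℂ τ (t w) := by
    refine analyticAt_pi_iff.2 fun i => ?_
    change AnalyticAt ℂ (co i ∘ τ) (t w)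
    by_cases hiT : i ∈ T
    · rw [t1 i hiT]
      exact Finset.analyticAt_sum _ fun a _ => analyticAt_const.mul (hf a)
    · rw [t2 i hiT]
      exact (an_co i _).comp (B.analyticAt _)
  obtain ⟨σ, hb⟩ := bi_of_inj ha fun v hv => hBi v (_root_.funext fun i => by
    have h1 := fderiv_co_XA6 ha i v
    rw [hv] at h1
    by_cases hiT : i ∈ T
    · have h2 : HasFDerivAt (∑ a, (fun _ => c i a) * f a)
          (∑ a, c i a • fderiv ℂ (f a) (t w)) (t w) :=
        HasFDerivAt.sum fun a _ => (hf a).differentiableAt.hasFDerivAt.const_mul (c i a)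
      rw [t1 i hiT, h2.fderiv] at h1
      rw [← hc i hiT v]
      simpa using h1
    · rw [t2 i hiT, fderiv_co_XA6 (B.analyticAt _), B.fderiv] at h1
      exact h1)
  obtain ⟨R, hR⟩ : ∃ R : E n →L[ℂ] E e, ∀ y k, R y k = B y (s k) :=
    ⟨ContinuousLinearMap.pi fun k => (ContinuousLinearMap.proj (s k)).comp B, fun _ _ => rfl⟩
  obtain ⟨χ, hχ⟩ := bi_of_inj (τ := R ∘ t) ((R.analyticAt _).comp ht) fun v hv => by
    rw [fderiv_comp w R.differentiableAt ht.differentiableAt, R.fderiv, ← hL] at hv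
    funext k
    have h1 : R (L v) k = 0 := congrFun hv k
    rwa [hR, hB, emb_apply] at h1
  have z0 : ∀ y, (∀ a, f a y = 0) → ∀ i ∈ T, τ y i = 0 := fun y hy i hiT => by
    have h1 := congrFun (t1 i hiT) y
    simpa [co, hy] using h1
  refine ⟨τ, σ, _, T, hb, hT, ?_, fun i hiT => ⟨c i, t1 i hiT⟩⟩
  rw [HIR.Sub, ← hb.map_nhds, eventually_map]
  have r1 : Tendsto R (𝓝 (t w)) (𝓝 ((R ∘ t) w)) := R.continuous.tendsto _
  have r2 : Tendsto (χ ∘ R) (𝓝 (t w)) (𝓝 w) := hχ.symm.tendsto.comp r1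
  have r3 : Tendsto (t ∘ χ ∘ R) (𝓝 (t w)) (𝓝 (t w)) := ht.continuousAt.tendsto.comp r2
  filter_upwards [hb.left, h0, r1.eventually hχ.right, r2.eventually e1, r2.eventually hq.ev,
    r3.eventually hb.left, r3.eventually h0] with y a1 a2 a3 a4 a5 a6 a7
  simp only [Function.comp_apply] at a3 a4 a5 a6 a7 ⊢
  rw [a1]
  refine ⟨fun h => z0 y (a2 h), fun h => ?_⟩
  have b1 : φ (t (χ (R y))) ∈ V := a4 ▸ a5.mem
  have b2 : τ (t (χ (R y))) = τ y := _root_.funext fun i => by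
    by_cases hiT : i ∈ T
    · rw [z0 _ (a7 b1) i hiT, h i hiT]
    · obtain ⟨k, rfl⟩ := (hs i).1 hiT
      have c1 : ∀ u, τ u (s k) = R u k := fun u => (congrFun (t2 _ hiT) u).trans (hR u k).symm
      rw [c1, c1, a3]
  rwa [← a6, b2, a1] at b1

/-- a polynomial that vanishes on a cone is a sum of homogeneous ones that do -/
theorem yj3_hom {M : ℕ} {C : Set (Fin M → ℂ)} (hC : ∀ y ∈ C, ∀ c : ℂ, c • y ∈ C)
    {P : MvPolynomial (Fin M) ℂ} (hP : ∀ y ∈ C, ev P y = 0) {v ξ : Fin M → ℂ}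
    (h : ∀ (Q : MvPolynomial (Fin M) ℂ) (l : ℕ), Q.IsHomogeneous l → (∀ y ∈ C, ev Q y = 0) →
      Q ∈ jet_XG7 v ξ) : P ∈ jet_XG7 v ξ := by
  have e : ∀ u, ev P u = ∑ k ∈ Finset.range (P.totalDegree + 1),
      ev (MvPolynomial.homogeneousComponent k P) u := fun u => by
    conv_lhs => rw [← MvPolynomial.sum_homogeneousComponent P]
    simp only [ev, map_sum]
  rw [← MvPolynomial.sum_homogeneousComponent P]
  refine Ideal.sum_mem _ fun k hk =>
    h _ k (MvPolynomial.homogeneousComponent_isHomogeneous k P) fun u hu => ?_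
  have q : (∑ k ∈ Finset.range (P.totalDegree + 1),
      Polynomial.monomial k (ev (MvPolynomial.homogeneousComponent k P) u)) = 0 := by
    refine Polynomial.funext fun c => ?_
    have h2 : ev P (c • u) = 0 := hP _ (hC u hu c)
    rw [e] at h2
    simp only [ev_smul (MvPolynomial.homogeneousComponent_isHomogeneous _ P)] at h2
    simpa [Polynomial.eval_finsetSum, mul_comm] using h2
  have := congrArg (Polynomial.coeff · k) q
  simpa [Polynomial.coeff_monomial, hk] using this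

variable {σ : Type} [Finite σ] {N e : ℕ} {W : Set (σ → ℂ)} {Θ : Fin (N + 1) → MvPolynomial σ ℂ}
  {κ : Finset (Fin (N + 1))}

/-- the coordinate subspace that contains the boundary -/
def Bnd (κ : Finset (Fin (N + 1))) : Set (Amb (N + 1)) := Zs (MvPolynomial.X '' (κ : Set _))

theorem mem_bnd {x : Amb (N + 1)} : x ∈ Bnd κ ↔ ∀ k ∈ κ, ∀ i, x (k, i) = 0 := by
  simp [Bnd, Zs, ev]

theorem bnd_rh : ∀ P ∈ (MvPolynomial.X '' (κ : Set _) : Set (MvPolynomial (Fin (N + 1)) ℂ)),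
    RH P := by
  rintro _ ⟨i, -, rfl⟩
  exact rh_X i

theorem proj_bnd {v : Fin (N + 1) → ℂ} (hv : v ≠ 0) : proj v ∈ Bnd κ ↔ ∀ k ∈ κ, v k = 0 := by
  rw [Bnd, proj_Zs (fun P hP => (bnd_rh P hP).hom) hv]
  simp [ev]

theorem bnd_closed (κ : Finset (Fin (N + 1))) : IsClosed (Bnd κ) := by
  have : Bnd κ = ⋂ k ∈ κ, ⋂ i, {x : Amb (N + 1) | x (k, i) = 0} := by
    ext x
    simp [mem_bnd]
  rw [this]
  exact isClosed_biInter fun k _ => isClosed_iInter fun i =>
    isClosed_eq (by fun_prop) continuous_const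

theorem bnd_cj {x : Amb (N + 1)} : cj (N + 1) x ∈ Bnd κ ↔ x ∈ Bnd κ := by
  simp [mem_bnd, cj_apply]

theorem yj3_prime (Θ : Fin (N + 1) → MvPolynomial σ ℂ) :
    ∃ p : Ideal (MvPolynomial (Fin (N + 1)) ℂ), p.IsPrime ∧
      ZI p = closure (range fun q : ℂ × (σ → ℂ) => q.1 • pm Θ q.2) := by
  have e1 : ∀ z : Option σ → ℂ, pm (fun i => MvPolynomial.X none * MvPolynomial.rename some (Θ i))
      z = z none • pm Θ (z ∘ some) := fun z => by
    funext i
    simp [pm, MvPolynomial.eval_rename]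
  have hp : (⊥ : Ideal (MvPolynomial (Option σ) ℂ)).IsPrime := Ideal.isPrime_bot
  obtain ⟨δ, hδ, h2⟩ := chev hp (h := 1) (by simp)
    fun i => MvPolynomial.X none * MvPolynomial.rename some (Θ i)
  refine ⟨_, Ideal.comap_isPrime _ _, Subset.antisymm
    ((dens (Ideal.comap_isPrime _ _) hδ).trans (closure_mono fun y hy => ?_))
    (closure_minimal ?_ (PWV.zc_ZI _).isClosed)⟩
  · obtain ⟨x, -, -, e⟩ := h2 y hy.1 hy.2
    exact ⟨(x none, x ∘ some), (e1 x).symm.trans e⟩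
  · rintro _ ⟨q, rfl⟩ f hf
    have h3 := e1 fun o => o.elim q.1 q.2
    have h4 := yd1_pm (fun i => MvPolynomial.X none * MvPolynomial.rename some (Θ i))
      (fun o => o.elim q.1 q.2) f
    rw [h3] at h4
    exact h4.trans ((congrArg _ (Ideal.mem_bot.1 (Ideal.mem_comap.1 hf))).trans (map_zero _))

omit [Finite σ] in
theorem PE.star_pm (h : PE W e Θ κ) (w : σ → ℂ) : star (pm Θ w) = pm Θ (star w) := by
  have k : ∀ P : MvPolynomial σ ℂ, MvPolynomial.eval (star w)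
      (MvPolynomial.map (starRingEnd ℂ) P) = conj (MvPolynomial.eval w P) := fun P => by
    induction P using MvPolynomial.induction_on with
    | C a => simp
    | add p q hp hq => simp [hp, hq]
    | mul_X p i hp => simp [hp]
  funext i
  have h1 := k (Θ i)
  rw [h.real] at h1
  exact h1.symm

/-- real equations of the closure, and the smooth locus -/
theorem PE.start (h : PE W e Θ κ) : ∃ 𝒬 : Set (MvPolynomial (Fin (N + 1)) ℂ), 𝒬.Finite ∧
    (∀ P ∈ 𝒬, RH P) ∧ Im W Θ = (Prj (N + 1) ∩ Zs 𝒬) \ Bnd κ ∧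
      Nice ((mf_Prj N).sp (cj_Prj _)) (pol N (Prj (N + 1)) id 𝒬) (N - e) (Im W Θ) := by
  obtain ⟨p, hp, hz⟩ := yj3_prime Θ
  have hc : ∀ y ∈ ZI p, ∀ c : ℂ, c • y ∈ ZI p := fun y hy c => by
    rw [hz] at hy ⊢
    refine map_mem_closure (continuous_const_smul c) hy ?_
    rintro _ ⟨q, rfl⟩
    exact ⟨(c * q.1, q.2), mul_smul _ _ _⟩
  have hs : ∀ y ∈ ZI p, star y ∈ ZI p := fun y hy => by
    rw [hz] at hy ⊢
    refine map_mem_closure continuous_star hy ?_
    rintro _ ⟨q, rfl⟩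
    exact ⟨(star q.1, star q.2), by rw [star_smul, h.star_pm]⟩
  obtain ⟨Y, hY⟩ : ∃ Y, Y = proj '' (ZI p \ {0}) := ⟨_, rfl⟩
  have hm : ∀ v, v ≠ 0 → (proj v ∈ Y ↔ v ∈ ZI p) := fun v hv => by
    rw [hY]
    refine ⟨?_, fun k => ⟨v, ⟨k, hv⟩, rfl⟩⟩
    rintro ⟨u, hu, e⟩
    obtain ⟨c, -, rfl⟩ := (proj_eq_iff hu.2 hv).1 e
    exact hc u hu.1 c
  obtain ⟨q, k, G, h1, h2, h3, h4⟩ := exists_gens Y (by
    rw [hY]
    rintro _ ⟨v, hv, rfl⟩
    exact ⟨star v, ⟨hs v hv.1, star_ne_zero.2 hv.2⟩, (cj_proj v).symm⟩)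
  have b2 : ∀ P ∈ range G, RH P := by
    rintro _ ⟨a, rfl⟩
    exact ⟨⟨k, h1 a⟩, h2 a⟩
  have jet : ∀ v, v ≠ 0 → (∀ a, ev (G a) v = 0) → ∀ ξ, (∀ a, fderiv ℂ (ev (G a)) v ξ = 0) →
      ∀ P ∈ p, P ∈ jet_XG7 v ξ := fun v hv hG ξ hξ P hP =>
    yj3_hom hc (fun y hy => hy P hP) fun Q l hQ hQ0 =>
      (h4 Q l hQ (fun u hu k => hQ0 u ((hm u hu).1 k)) v hv hG).imp_right fun k => k ξ hξ
  have hZ : Prj (N + 1) ∩ Zs (range G) = Y := by
    refine Subset.antisymm ?_ ?_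
    · rintro _ ⟨⟨v, hv, rfl⟩, hx⟩
      exact (hm v hv).2 fun P hP => (jet v hv (fun a => (proj_Zs (fun Q hQ => (b2 Q hQ).hom) hv).1
        hx _ ⟨a, rfl⟩) 0 (fun _ => map_zero _) P hP).1
    · intro x hx
      obtain ⟨v, hv, rfl⟩ := hY ▸ hx
      refine ⟨⟨v, hv.2, rfl⟩, (proj_Zs (fun Q hQ => (b2 Q hQ).hom) hv.2).2 ?_⟩
      rintro _ ⟨a, rfl⟩
      exact h3 a v hv.2 hx
  have hI : Im W Θ = Y \ Bnd κ := by
    refine Subset.antisymm ?_ ?_
    · rintro _ ⟨w, hw, rfl⟩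
      obtain ⟨i, hi, h0⟩ := (h.mem w).1 hw
      have h5 : pm Θ w ≠ 0 := fun e => h0 (congrFun e i)
      refine ⟨(hm _ h5).2 ?_, fun k => h0 ((proj_bnd h5).1 k i hi)⟩
      rw [hz]
      exact subset_closure ⟨(1, w), one_smul _ _⟩
    · rintro x ⟨hx, hb⟩
      obtain ⟨v, hv, rfl⟩ := hY ▸ hx
      rw [proj_bnd hv.2] at hb
      push Not at hb
      obtain ⟨w, hw, c, rfl⟩ := h.cl v (hz ▸ hv.1) hb
      exact ⟨w, hw, (proj_smul (left_ne_zero_of_smul hv.2) _).symm⟩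
  have hP : Im W Θ ⊆ Prj (N + 1) := by
    rw [hI, ← hZ]
    exact fun x hx => hx.1.1
  refine ⟨range G, finite_range G, b2, hZ ▸ hI, ?_, fun _ _ _ k => k, fun x hx => ?_⟩
  · rw [sg_pol (S := (mf_Prj N).sp (cj_Prj _)) holP_id fun Q hQ => (b2 Q hQ).hom, hI, ← hZ]
    exact fun x hx => hx.1
  obtain ⟨ψ, w, hq⟩ := h.chart x hx
  obtain ⟨φ, z, hφ⟩ := (mf_Prj N).chart x (hP hx)
  obtain ⟨t, ht, rfl, e1, hi⟩ := fac_XI4 hφ hP hq
  obtain ⟨g, rfl, hg, h0, hj⟩ := hφ.rep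
  have hd : ∀ u, fderiv ℂ (g ∘ t) w u = fderiv ℂ g (t w) (fderiv ℂ t w u) := fun u => by
    rw [fderiv_comp w hg.differentiableAt ht.differentiableAt]
    rfl
  have hq' : Pt Y ψ w x := hq.congr_set (by
    filter_upwards [(bnd_closed κ).isOpen_compl.mem_nhds (hI ▸ hx).2] with y hy
    rw [hI]
    exact and_iff_left hy)
  have hx' : proj ((g ∘ t) w) = x := hφ.eq
  have hpt := pt_of_imm (X := Y) (hg.comp ht) h0 (fun v c hv => hi v (hj _ c (hd v ▸ hv)))
    (by rw [hx', ← hq'.map]; exact Filter.map_congr e1)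
  obtain ⟨τ, σ, z', T, hb, hT, hsub, hco⟩ := yj3_coords hq ht e1 hi
    (f := fun a y => ev (G a) (g y)) (fun a => (an_ev _ _).comp hg)
    (by
      filter_upwards [hg.continuousAt.eventually_ne h0] with y hy k a
      exact h3 a _ hy (hI ▸ k).1)
    fun v hv => by
      obtain ⟨u, c, e⟩ := jac hp hc (hY ▸ hpt) (hg.comp ht) h0 (fderiv ℂ g (t w) v)
        fun P hP => (jet _ h0 (fun a => h3 a _ h0 (hx' ▸ hq'.mem)) _ (fun a => by
          have h5 := hv a
          rwa [show (fun y => ev (G a) (g y)) = ev (G a) ∘ g from rfl,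
            fderiv_comp _ (an_ev _ _).differentiableAt hg.differentiableAt] at h5) P hP).2
      refine ⟨u, sub_eq_zero.1 (hj _ c ?_)⟩
      rw [map_sub, e, hd, add_sub_cancel_left]
      rfl
  refine ⟨_, z', T, hφ.comp hb, hT, hsub, fun i hi => ?_⟩
  obtain ⟨c, hc⟩ := hco i hi
  rw [loc_comp (S := (mf_Prj N).sp (cj_Prj _)) (pol_rees holP_id _) hφ hb,
    loc_pol (S := (mf_Prj N).sp (cj_Prj _)) (fun Q hQ => (b2 Q hQ).hom) hφ hg h0 (by rfl)]
  refine ⟨an_co i z', ?_⟩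
  rw [hc]
  have hR := lr_In (an_XI3 (𝒬 := range G) hg)
  exact hR.sum _ fun a _ => hR.hol_mul analyticAt_const (In.gen ⟨_, ⟨a, rfl⟩, rfl⟩)

end Pool.Agent.CS
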