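import Pool.Agent.K.MP_d34769_ag.C82
import Pool.Agent.K.MP_d34769_ag.C80

-- part Pool.Agent.P.MP_d34769_ag.YJ5a
section

/-! The character of the stability condition; properness of the action without framing. -/

open Matrix Filter Topology
open Pool.Agent.PWV (ZC pm)

set_option linter.unusedSectionVars false

noncomputable section
namespace Pool.Agent.CS

variable {I : Type} [Fintype I] [DecidableEq I]

theorem layer0 (w σ : I → ℝ) (hw : ∑ i, w i = 0)
    (h : ∀ l : ℝ, ∑ i ∈ Finset.univ.filter (fun i => σ i ≤ l), w i ≤ 0) : 0 ≤ ∑ i, w i * σ i := by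
  by_contra c
  rw [not_le] at c
  have hI : Nonempty I := by
    by_contra e
    rw [not_nonempty_iff] at e
    simp at c
  have hM : ∀ i, σ i - (‖σ‖ + 1) < 0 := fun i => by
    linarith [le_abs_self (σ i), show |σ i| ≤ ‖σ‖ from norm_le_pi_norm σ i]
  have hS : ∑ i, (σ i - (‖σ‖ + 1)) < 0 := Finset.sum_neg (fun i _ => hM i) Finset.univ_nonempty
  have he := div_pos_of_neg_of_neg c hS
  have := layer (fun i => w i - (∑ i, w i * σ i) / ∑ i, (σ i - (‖σ‖ + 1)))
    (fun i => σ i - (‖σ‖ + 1)) (fun e => hI.elim fun i => (hM i).ne (congrFun e i))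
    (fun l _ ⟨i, hi⟩ => ?_) fun l hl ⟨i, hi⟩ => absurd (hl.trans_le hi) (hM i).not_gt
  · simp only [sub_mul, Finset.sum_sub_distrib (f := fun i => w i * _)] at this
    rw [← Finset.mul_sum, div_mul_cancel₀ _ hS.ne] at this
    simp only [mul_sub, Finset.sum_sub_distrib, ← Finset.sum_mul, hw] at this
    linarith
  · refine (Finset.sum_lt_sum_of_nonempty ⟨i, by simpa using hi⟩ fun j _ =>
      sub_lt_self (w j) he).trans_le ?_
    simpa only [sub_le_iff_le_add] using h (l + (‖σ‖ + 1))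

theorem gap_YJ5 {κ : Type} (U : Ultrafilter κ) (τ : κ → I → ℝ) (w : I → ℝ) (hw : ∑ i, w i = 0)
    (h : ∀ F : Finset I, (∀ i j, j ∈ F → (∃ M, ∀ᶠ n in U, τ n i - τ n j ≤ M) → i ∈ F) →
      ∑ i ∈ F, w i ≤ 0) : ∃ C, ∀ᶠ n in U, C ≤ ∑ i, w i * τ n i := by
  obtain ⟨r, hr⟩ : ∃ r : I → I → Prop, ∀ i j, r i j ↔ ∃ M, ∀ᶠ n in U, τ n i - τ n j ≤ M :=
    ⟨_, fun _ _ => Iff.rfl⟩
  have r2 : ∀ {i j k}, r i j → r j k → r i k := fun a b => by
    obtain ⟨M, a⟩ := (hr _ _).1 a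
    obtain ⟨M', b⟩ := (hr _ _).1 b
    exact (hr _ _).2 ⟨M + M', (a.and b).mono fun n c => by linarith [c.1, c.2]⟩
  let s : Setoid I := ⟨fun i j => r i j ∧ r j i, fun i => (and_self_iff.trans (hr i i)).2
    ⟨0, by simp⟩, And.symm, fun a b => ⟨r2 a.1 b.1, r2 b.2 a.2⟩⟩
  obtain ⟨p, p1, p2⟩ : ∃ p : I → I, (∀ i, r (p i) i ∧ r i (p i)) ∧
      ∀ i j, r i j → r j i → p i = p j := ⟨fun i => (Quotient.mk s i).out,
    fun i => Quotient.mk_out (s := s) i, fun i j a b => congrArg _ (Quotient.sound ⟨a, b⟩)⟩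
  have h1 : ∀ i, ∃ M, ∀ᶠ n in U, M ≤ w i * (τ n i - τ n (p i)) := fun i => by
    obtain ⟨M, a⟩ := (hr _ _).1 (p1 i).1
    obtain ⟨M', b⟩ := (hr _ _).1 (p1 i).2
    refine ⟨-(|w i| * max M M'), (a.and b).mono fun n c => neg_le_of_abs_le ?_⟩
    rw [abs_mul]
    exact mul_le_mul_of_nonneg_left (abs_sub_le_iff.2 ⟨c.2.trans (le_max_right _ _),
      c.1.trans (le_max_left _ _)⟩) (abs_nonneg _)
  choose M hM using h1
  have h2 : ∀ i j, ∀ᶠ n in U, r i j → τ n (p i) ≤ τ n (p j) := fun i j => by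
    by_cases a : r i j
    · by_cases b : r j i
      · exact Eventually.of_forall fun n _ => by rw [p2 i j a b]
      · refine (Ultrafilter.eventually_not.2 fun c => b (r2 (p1 j).2 (r2 ((hr _ _).2 ⟨0, c⟩)
          (p1 i).1))).mono fun n c _ => by linarith [not_le.1 c]
    · exact Eventually.of_forall fun n b => absurd b a
  refine ⟨∑ i, M i, ((eventually_all.2 hM).and (eventually_all.2 fun i => eventually_all.2
    (h2 i))).mono fun n c => ?_⟩
  have h3 := layer0 w (fun i => τ n (p i)) hw fun l => h _ fun i j a b => by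
    simpa using (c.2 i j ((hr _ _).2 b)).trans (by simpa using a)
  have h4 := Finset.sum_le_sum fun i (_ : i ∈ Finset.univ) => c.1 i
  simp only [mul_sub, Finset.sum_sub_distrib] at h4
  linarith

theorem tendsto_actR {ι : Type} {l : Filter ι} {g : ι → Matrix I I ℂ} {g0 : Matrix I I ℂ}
    {q : ι → Rp I} {ρ : Rp I} (h0 : IsUnit g0.det) (hg : Tendsto g l (𝓝 g0))
    (hq : Tendsto q l (𝓝 ρ)) : Tendsto (fun n => actR (g n) (q n)) l (𝓝 (actR g0 ρ)) :=
  (continuous_fst.tendsto _).comp (tendsto_act (m := 0) (p := fun n => (q n, 0)) (p0 := (ρ, 0))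
    h0 hg (hq.prodMk_nhds tendsto_const_nhds))

theorem actR_smul {c : ℂ} (hc : c ≠ 0) {g : Matrix I I ℂ} (hg : IsUnit g.det) (ρ : Rp I) :
    actR (c • g) ρ = actR g ρ := funext fun a => by
  have : (c • g)⁻¹ = c⁻¹ • g⁻¹ := inv_eq_right_inv (by
    rw [Matrix.smul_mul, Matrix.mul_smul, mul_nonsing_inv _ hg, smul_inv_smul₀ hc])
  simp only [actR, this, Matrix.smul_mul, Matrix.mul_smul, inv_smul_smul₀ hc]

namespace Dat
variable (D : Dat I)

/-- the character of the stability condition -/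
def ch (g : Matrix I I ℂ) : ℂ := ∏ v, (D.cut v g).det ^ D.th v

/-- the orbit of a triple in the line bundle of the character -/
def O0 (a : ℕ) (ρ : Rp I) : Set (Option (Co I 0) → ℂ) :=
  {w | ∃ g ∈ D.base.P, w = yf3c (act g (ρ, 0), D.ch g ^ a)}

theorem ch_one : D.ch 1 = 1 := by simp [ch, cut_one]

theorem ch_diagonal (t : I → ℂ) : D.ch (diagonal t) = ∏ i, t i ^ D.th (D.col i) := by
  have h : ∀ v, D.cut v (diagonal t) = diagonal fun i => if D.col i = v then t i else 1 := fun v => by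
    ext i j
    simp only [cut, of_apply, diagonal_apply, one_apply]
    split_ifs <;> rfl
  simp only [ch, h, det_diagonal, ← Finset.prod_zpow]
  rw [Finset.prod_comm]
  refine Finset.prod_congr rfl fun i _ => ?_
  rw [Finset.prod_eq_single (D.col i) (fun v _ hv => by rw [if_neg hv.symm, _root_.one_zpow])
    (by simp), if_pos rfl]

variable {D} {g h : Matrix I I ℂ} {ρ σ : Rp I}

theorem ch_mul (hg : g ∈ D.base.P) (h : Matrix I I ℂ) : D.ch (g * h) = D.ch g * D.ch h := by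
  simp only [ch, (f1_col hg).cut_mul, det_mul, mul_zpow, Finset.prod_mul_distrib]

theorem ch_ne (hg : g ∈ D.base.P) : D.ch g ≠ 0 :=
  Finset.prod_ne_zero_iff.2 fun v _ => zpow_ne_zero _ ((f1_col hg).det_ne hg.2 v)

theorem ch_star (hg : g ∈ D.base.P) : D.ch gᴴ = star (D.ch g) := by
  simp only [ch, star_prod, star_zpow₀, (f1_col hg).cut_ct, det_conjTranspose]

theorem ch_conj (g : Matrix I I ℂ) :
    D.ch (g.map (starRingEnd ℂ)) = starRingEnd ℂ (D.ch g) := by
  have h : ∀ v, D.cut v (g.map (starRingEnd ℂ)) = (starRingEnd ℂ).mapMatrix (D.cut v g) :=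
    fun v => Matrix.ext fun i j => by simp [cut, apply_ite (starRingEnd ℂ), one_apply]
  simp only [ch, h, ← RingHom.map_det, map_prod, map_zpow₀]

theorem ch_inv (hg : g ∈ D.base.P) : D.ch g⁻¹ = (D.ch g)⁻¹ :=
  eq_inv_of_mul_eq_one_right (by rw [← ch_mul hg, mul_nonsing_inv _ hg.2, ch_one])

theorem norm_ch (hg : g ∈ D.base.P) (hu : g ∈ unitaryGroup I ℂ) : ‖D.ch g‖ = 1 := by
  have := congrArg norm (ch_mul hg gᴴ)
  rw [show g * gᴴ = 1 from mem_unitaryGroup_iff.1 hu, ch_one, ch_star hg, norm_mul, norm_star,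
    norm_one] at this
  nlinarith [norm_nonneg (D.ch g)]

theorem smul_mem_P {c : ℂ} (hc : c ≠ 0) (hg : g ∈ D.P) : c • g ∈ D.P :=
  ⟨D.Lie.smul_mem c hg.1, by rw [det_smul]; exact (hc.isUnit.pow _).mul hg.2⟩

theorem ch_smul {c : ℂ} (hc : c ≠ 0) (g : Matrix I I ℂ) : D.ch (c • g) = D.ch g := by
  have h : ∀ F : Finset I, ∏ i ∈ F, c ^ D.th (D.col i) = c ^ ∑ i ∈ F, D.th (D.col i) :=
    fun F => by
      induction F using Finset.induction_on with
      | empty => simp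
      | insert a F ha ih => rw [Finset.prod_insert ha, Finset.sum_insert ha, ih, zpow_add₀ hc]
  rw [smul_eq_diagonal_mul, ch_mul (D.base.f1_diag fun _ => hc), ch_diagonal, h, f1_sum_th,
    zpow_zero, one_mul]

theorem ch_cont (hg : g ∈ D.base.P) : ContinuousAt D.ch g :=
  tendsto_finsetProd _ fun v _ =>
    ((D.continuous_cut v).matrix_det.tendsto g).zpow₀ _ (Or.inl ((f1_col hg).det_ne hg.2 v))

theorem ch_poly : ∃ F : Matrix I I ℂ × Matrix I I ℂ → ℂ,
    IsPoly (fun z => Sum.elim (fun x : I × I => z.1 x.1 x.2) fun x : I × I => z.2 x.1 x.2) F ∧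
      ∀ g ∈ D.base.P, F (g, g⁻¹) = D.ch g := by
  refine ⟨fun z => ∏ v, ((D.cut v z.1).det ^ (D.th v).toNat * (D.cut v z.2).det ^ (-D.th v).toNat),
    IsPoly.prod _ fun v _ => IsPoly.mul (IsPoly.pow (IsPoly.det fun i j => ?_) _)
      (IsPoly.pow (IsPoly.det fun i j => ?_) _), fun g hg => Finset.prod_congr rfl fun v _ => ?_⟩
  · exact IsPoly.ite _ (IsPoly.coord (Sum.inl (i, j))) (IsPoly.const _)
  · exact IsPoly.ite _ (IsPoly.coord (Sum.inr (i, j))) (IsPoly.const _)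
  · have h := congrArg Matrix.det ((f1_col hg).cut_mul g⁻¹ v)
    rw [mul_nonsing_inv g hg.2, cut_one, det_one, det_mul] at h
    have hn := (f1_col hg).det_ne hg.2 v
    show (D.cut v g).det ^ _ * (D.cut v g⁻¹).det ^ _ = _
    rw [eq_inv_of_mul_eq_one_right h.symm, _root_.inv_pow, ← _root_.zpow_natCast,
      ← _root_.zpow_natCast, ← _root_.zpow_neg, ← zpow_add₀ hn]
    congr 1
    omega

theorem log_ch (τ : I → ℝ) :
    Real.log ‖D.ch (diagonal fun i => (Real.exp (τ i) : ℂ))‖ = ∑ i, D.th (D.col i) * τ i := by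
  rw [ch_diagonal, norm_prod, Real.log_prod]
  · refine Finset.sum_congr rfl fun i _ => ?_
    rw [norm_zpow, Complex.norm_real, Real.norm_eq_abs, abs_of_pos (Real.exp_pos _), Real.log_zpow,
      Real.log_exp]
  · intro i _
    exact norm_ne_zero_iff.2 (zpow_ne_zero _ (by exact_mod_cast (Real.exp_pos _).ne'))

variable {κ : Type} (U : Ultrafilter κ) {q : κ → Rp I} {γ : κ → Matrix I I ℂ}

theorem prop0_diag {τ : κ → I → ℝ} (hq : Tendsto q U (𝓝 ρ))
    (hσ : Tendsto (fun n => actR (diagonal fun i => (Real.exp (τ n i) : ℂ)) (q n)) U (𝓝 σ))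
    {F : Finset I} (hF : ∀ i j, j ∈ F → (∃ M, ∀ᶠ n in U, τ n i - τ n j ≤ M) → i ∈ F) :
    D.Sub ρ (sp (F : Set I)) := by
  refine f1_sub_sp fun a i j hi hj => by_contra fun c => hi (hF i j hj ⟨‖σ a i j / ρ a i j‖ + 1, ?_⟩)
  have e : Continuous fun x : Rp I => x a i j := (continuous_apply a).matrix_elem i j
  have h1 := (e.tendsto _).comp hq
  have h2 := (((e.tendsto _).comp hσ).div h1 c).norm
  filter_upwards [h1.eventually_ne c, h2.eventually (gt_mem_nhds (lt_add_one _))] with n h3 h4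
  have h5 := congrArg (·.1 a i j) (act_diagonal (m := 0) (fun i => (Real.exp (τ n i) : ℂ))
    (fun i => by exact_mod_cast (Real.exp_pos _).ne') (q n, 0))
  simp only [act, of_apply] at h5
  simp only [Pi.div_apply, Function.comp_apply] at h3 h4
  rw [h5, mul_div_cancel_right₀ _ h3, ← Complex.ofReal_div, Complex.norm_real, ← Real.exp_sub,
    Real.norm_eq_abs, abs_of_pos (Real.exp_pos _)] at h4
  linarith [Real.add_one_le_exp (τ n i - τ n j)]

theorem prop0_kak (hq : Tendsto q U (𝓝 ρ)) (hg : ∀ᶠ n in U, γ n ∈ D.base.P)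
    (hσ : Tendsto (fun n => actR (γ n) (q n)) U (𝓝 σ)) :
    ∃ (k k' : κ → Matrix I I ℂ) (τ : κ → I → ℝ), ∃ k0 ∈ D.base.P, ∃ k1 ∈ D.base.P,
      Tendsto k U (𝓝 k0) ∧ Tendsto k' U (𝓝 k1) ∧
      (∀ᶠ n in U, γ n = k n * diagonal (fun i => (Real.exp (τ n i) : ℂ)) * k' n ∧
        Real.log ‖D.ch (γ n)‖ = ∑ i, D.th (D.col i) * τ n i) ∧
      ∀ F : Finset I, (∀ i j, j ∈ F → (∃ M, ∀ᶠ n in U, τ n i - τ n j ≤ M) → i ∈ F) →
        D.Sub (actR k1 ρ) (sp (F : Set I)) := by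
  classical
  have hk : ∀ n, (if γ n ∈ D.base.P then γ n else 1) ∈ D.base.P := fun n => by
    split_ifs with e
    exacts [e, D.base.f1_one]
  choose k hk k' hk' hP hP' t ht e using fun n => D.kak (hk n)
  have he : ∀ᶠ n in U, γ n = k n * diagonal (fun i => (Real.exp (Real.log (t n i)) : ℂ)) * k' n :=
    hg.mono fun n hn => by
      have := e n
      rw [if_pos hn] at this
      simp only [Real.exp_log (ht n _)]
      exact this
  obtain ⟨k0, u0, h0, h1⟩ := f1_lim_unitary U hk hP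
  obtain ⟨k1, -, h2, h3⟩ := f1_lim_unitary U hk' hP'
  refine ⟨k, k', fun n i => Real.log (t n i), k0, h0, k1, h2, h1, h3, he.mono fun n hn => ⟨hn, ?_⟩,
    fun F => prop0_diag U (σ := actR k0ᴴ σ) (tendsto_actR h2.2 h3 hq) ?_⟩
  · rw [hn, Matrix.mul_assoc, ch_mul (hP n), ch_mul (D.base.f1_diag fun i => by
      exact_mod_cast (Real.exp_pos _).ne'), norm_mul, norm_mul, norm_ch (hP n) (hk n),
      norm_ch (hP' n) (hk' n), one_mul, mul_one, log_ch]
  · refine (tendsto_actR (D.star_mem_P h0).2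
      ((continuous_id.matrix_conjTranspose.tendsto _).comp h1) hσ).congr' (he.mono fun n hn => ?_)
    simp only [Function.comp_apply, id, hn, ← actR_mul, ← Matrix.mul_assoc]
    rw [show (k n)ᴴ * k n = 1 from mem_unitaryGroup_iff'.1 (hk n), Matrix.one_mul]

/-- PROP0, semistable case -/
theorem prop0_ss (hq : Tendsto q U (𝓝 ρ)) (hs : D.SS D.th ρ) (hg : ∀ᶠ n in U, γ n ∈ D.base.P)
    (hσ : Tendsto (fun n => actR (γ n) (q n)) U (𝓝 σ)) :
    ∃ c : ℝ, 0 < c ∧ ∀ᶠ n in U, c ≤ ‖D.ch (γ n)‖ := by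
  obtain ⟨k, k', τ, k0, -, k1, h1, -, -, h2, h3⟩ := prop0_kak U hq hg hσ
  obtain ⟨C, hC⟩ := gap_YJ5 U τ (fun i => D.th (D.col i)) (by exact_mod_cast D.f1_sum_th)
    fun F hF => by exact_mod_cast D.f1_wt_sp _ F ▸ hs.act h1 _ (h3 F hF)
  refine ⟨Real.exp C, Real.exp_pos _, ((hC.and h2).and hg).mono fun n c => ?_⟩
  rw [← Real.le_log_iff_exp_le (norm_pos_iff.2 (ch_ne c.2)), c.1.2.2]
  exact c.1.1

/-- PROP0, stable case -/
theorem prop0_stb (hq : Tendsto q U (𝓝 ρ)) (hs : D.Stb ρ) (hg : ∀ᶠ n in U, γ n ∈ D.base.P)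
    (hσ : Tendsto (fun n => actR (γ n) (q n)) U (𝓝 σ)) {C : ℝ} (hC : ∀ᶠ n in U, ‖D.ch (γ n)‖ ≤ C) :
    ∃ c : κ → ℂ, (∀ n, c n ≠ 0) ∧ ∃ g₀ ∈ D.base.P, Tendsto (fun n => c n • γ n) U (𝓝 g₀) := by
  obtain ⟨k, k', τ, k0, h0, k1, h1, t0, t1, h2, h3⟩ := prop0_kak U hq hg hσ
  have hw : ∑ i, (D.th (D.col i) : ℝ) = 0 := by exact_mod_cast D.f1_sum_th
  have key : ∀ i j, ∃ M, ∀ᶠ n in U, τ n j - τ n i ≤ M := fun i j => by
    have e : ∑ l, ((D.th (D.col l) : ℝ) + Pi.single (M := fun _ => ℝ) i 1 l -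
        Pi.single (M := fun _ => ℝ) j 1 l) = 0 := by
      simp [Finset.sum_add_distrib, hw]
    obtain ⟨C', h4⟩ := gap_YJ5 U τ _ e fun F hF => by
      rcases F.eq_empty_or_nonempty with rfl | ⟨l, hl⟩
      · simp
      rcases Fᶜ.eq_empty_or_nonempty with c | c
      · rw [(Finset.compl_eq_empty_iff F).1 c, e]
      have h5 := (hs.act h1).2 _ (h3 F hF) (fun d => by
        rw [← sp_empty, sp_inj] at d
        exact d.subset hl) (f1_sp_ne_top c)
      rw [f1_wt_sp] at h5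
      have h6 : ∑ l ∈ F, (D.th (D.col l) : ℝ) ≤ -1 := by exact_mod_cast Int.le_sub_one_of_lt h5
      simp only [Finset.sum_add_distrib, Finset.sum_sub_distrib, Finset.sum_pi_single']
      split_ifs <;> linarith
    refine ⟨Real.log C - C', (((h4.and h2).and hg).and hC).mono fun n c => ?_⟩
    have h5 := Real.log_le_log (norm_pos_iff.2 (ch_ne c.1.2)) c.2
    have h6 := c.1.1.1
    simp only [sub_mul, add_mul, Finset.sum_add_distrib, Finset.sum_sub_distrib, Pi.single_apply,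
      ite_mul, one_mul, zero_mul, Finset.sum_ite_eq', Finset.mem_univ, if_true] at h6
    linarith [c.1.1.2.2]
  obtain ⟨i⟩ := hs.1
  have h4 : ∀ j, ∃ x, Tendsto (fun n => τ n j - τ n i) U (𝓝 x) := fun j => by
    obtain ⟨M, a⟩ := key i j
    obtain ⟨M', b⟩ := key j i
    exact ((isCompact_Icc (a := -M') (b := M)).ultrafilter_le_nhds' (U.map _)
      (Filter.mem_map.2 ((a.and b).mono fun n c => ⟨by linarith [c.2], c.1⟩))).imp fun _ c => c.2
  choose x hx using h4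
  refine ⟨fun n => (Real.exp (-τ n i) : ℝ), fun n => Complex.ofReal_ne_zero.2 (Real.exp_pos _).ne',
    k0 * diagonal (fun j => (Real.exp (x j) : ℂ)) * k1, D.base.e4_P_mul (D.base.e4_P_mul h0
      (D.base.f1_diag fun i => by exact_mod_cast (Real.exp_pos _).ne')) h1, ?_⟩
  have hc : Continuous fun τ : I → ℝ => diagonal fun i => (Real.exp (τ i) : ℂ) :=
    Continuous.matrix_diagonal (by fun_prop)
  refine (f1_tendsto_mul (f1_tendsto_mul t0 ((hc.tendsto x).comp (tendsto_pi_nhds.2 hx)))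
    t1).congr' (h2.mono fun n hn => ?_)
  beta_reduce
  rw [hn.1, ← Matrix.smul_mul, ← Matrix.mul_smul, ← diagonal_smul]
  refine congrArg (fun d => k n * diagonal d * k' n) (funext fun j => ?_)
  simp only [Pi.smul_apply, smul_eq_mul, ← Complex.ofReal_mul, ← Real.exp_add, neg_add_eq_sub]

theorem O0_zc (a : ℕ) (ρ : Rp I) : ZC (closure (D.O0 a ρ)) := by
  classical
  let u : (I × I ⊕ I × I → ℂ) → Matrix I I ℂ := fun x => of fun i j => x (.inl (i, j))
  let v : (I × I ⊕ I × I → ℂ) → Matrix I I ℂ := fun x => of fun i j => x (.inr (i, j))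
  have hu : ∀ i j, IsPoly id fun x => u x i j := fun i j => IsPoly.coord (c := id) _
  have hv : ∀ i j, IsPoly id fun x => v x i j := fun i j => IsPoly.coord (c := id) _
  obtain ⟨F, hF, hF'⟩ := D.ch_poly
  have hG : ∀ t, IsPoly id fun x => yf3c (m := 0)
      ((fun b => u x * ρ b * v x, u x * (0 : Matrix I (Fin 0) ℂ)), F (u x, v x) ^ a) t := by
    rintro (_ | ⟨b, i, j⟩ | ⟨i, r⟩)
    · exact (hF.comp (g := fun x => (u x, v x)) (by rintro (t | t); exacts [hu _ _, hv _ _])).pow a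
    · exact IsPoly.mmul (A := fun x => u x * ρ b) (B := v)
        (IsPoly.mmul (B := fun _ => ρ b) hu fun _ _ => IsPoly.const _) hv i j
    · exact r.elim0
  choose G hG using hG
  have hV := yf3_zc (F := fun (k : I × I ⊕ I × I) x => k.elim
    (fun k => if D.base.gp k.1 k.2 then 0 else u x k.1 k.2)
      fun k => (u x * v x) k.1 k.2 - (1 : Matrix I I ℂ) k.1 k.2) (by
    rintro (k | k)
    exacts [IsPoly.ite _ (IsPoly.const 0) (hu _ _), (IsPoly.mmul hu hv _ _).sub (IsPoly.const _)])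
  refine (congrArg ZC (congrArg closure (Set.ext fun w => ⟨?_, ?_⟩))).mp (img_zc hV 1 G)
  · rintro ⟨x, ⟨hx, -⟩, rfl⟩
    have h1 : u x * v x = 1 := Matrix.ext fun i j => sub_eq_zero.1 (hx (.inr (i, j)))
    have h2 : u x ∈ D.base.P := ⟨fun i j hij => (if_neg hij).symm.trans (hx (.inl (i, j))),
      isUnit_det_of_right_inverse h1⟩
    refine ⟨u x, h2, funext fun t => (hG t x).symm.trans ?_⟩
    beta_reduce
    rw [← inv_eq_right_inv h1, hF' _ h2]
    rfl
  · rintro ⟨g, hg, rfl⟩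
    refine ⟨Sum.elim (fun k => g k.1 k.2) fun k => g⁻¹ k.1 k.2, ⟨?_, by simp⟩,
      funext fun t => (hG t _).symm.trans ?_⟩
    · rintro (k | k)
      · exact ite_eq_left_iff.2 (hg.1 _ _)
      · exact sub_eq_zero.2 (congrFun₂ (mul_nonsing_inv g hg.2) _ _)
    · rw [← hF' g hg]
      rfl

theorem O0_seq {a : ℕ} {w : Option (Co I 0) → ℂ} (hw : w ∈ closure (D.O0 a ρ)) :
    ∃ (U : Ultrafilter (Option (Co I 0) → ℂ)) (γ : (Option (Co I 0) → ℂ) → Matrix I I ℂ),
      (∀ᶠ n in U, γ n ∈ D.base.P) ∧ Tendsto (fun n => actR (γ n) ρ) U (𝓝 (yf3d w).1.1) ∧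
        Tendsto (fun n => D.ch (γ n) ^ a) U (𝓝 (w none)) := by
  obtain ⟨U, hU, h⟩ := mem_closure_iff_ultrafilter.1 hw
  have hU' : ∀ᶠ z : Option (Co I 0) → ℂ in U, ∃ g, g ∈ D.base.P ∧
    z = yf3c (act g (ρ, 0), D.ch g ^ a) := hU
  obtain ⟨g, hg⟩ := hU'.choice
  have c1 : Continuous fun z : Option (Co I 0) → ℂ => (yf3d z).1.1 :=
    continuous_pi fun b => continuous_matrix fun i j => continuous_apply _
  exact ⟨U, g, hg.mono fun _ e => e.1,
    ((c1.tendsto w).mono_left h).congr' (hg.mono fun z e => congrArg (fun z => (yf3d z).1.1) e.2),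
    (((continuous_apply none).tendsto w).mono_left h).congr' (hg.mono fun z e => congrFun e.2 none)⟩

theorem O0_ss {a : ℕ} (hs : D.SS D.th ρ) {w : Option (Co I 0) → ℂ}
    (hw : w ∈ closure (D.O0 a ρ)) : w none ≠ 0 := by
  obtain ⟨U, g, h1, h2, h3⟩ := O0_seq hw
  obtain ⟨c, hc, h4⟩ := prop0_ss U tendsto_const_nhds hs h1 h2
  exact norm_pos_iff.1 ((pow_pos hc a).trans_le (ge_of_tendsto h3.norm (h4.mono fun n e => by
    rw [norm_pow]
    exact pow_le_pow_left₀ hc.le e a)))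

theorem O0_closed {a : ℕ} (ha : 0 < a) (hs : D.Stb ρ) : IsClosed (D.O0 a ρ) := by
  refine closure_subset_iff_isClosed.1 fun w hw => ?_
  obtain ⟨U, g, h1, h2, h3⟩ := O0_seq hw
  obtain ⟨c, hc, g0, h0, h4⟩ := prop0_stb U tendsto_const_nhds hs h1 h2 (C := ‖w none‖ + 1)
    ((h3.norm.eventually (gt_mem_nhds (lt_add_one _))).mono fun n e => by
      rw [norm_pow] at e
      rcases le_total ‖D.ch (g n)‖ 1 with c | c
      · linarith [norm_nonneg (w none)]
      · exact (le_self_pow₀ c ha.ne').trans e.le)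
  have e1 := tendsto_nhds_unique h2 ((tendsto_actR h0.2 h4 tendsto_const_nhds).congr'
    (h1.mono fun n e => actR_smul (hc n) e.2 ρ))
  have e2 := tendsto_nhds_unique h3 ((((ch_cont h0).tendsto.comp h4).pow a).congr fun n => by
    rw [Function.comp_apply, ch_smul (hc n)])
  refine ⟨g0, h0, (yf3_cd w).symm.trans (congrArg yf3c (Prod.ext (Prod.ext e1 ?_) e2))⟩
  exact Matrix.ext fun _ r => r.elim0

/-- the triples that are not stable form an algebraic set -/
theorem NS_zc [Nonempty I] :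
    ZC {x : Co I 0 → ℂ | ((coL I 0).symm x).1 ∈ D.base.R ∧ ¬ D.Stb ((coL I 0).symm x).1} := by
  classical
  let E : Dat I := { D.base with m := 1 }
  let e := Fintype.equivFin I
  let φ : (Co I 0 ⊕ Fin (Fintype.card I) → ℂ) → Pt I 1 := fun x =>
    (fun a => of fun i j => x (.inl (.inl (a, i, j))), of fun i _ => x (.inr (e i)))
  have hφ : ∀ t, IsPoly id fun x => co (φ x) t := by
    rintro (⟨a, i, j⟩ | ⟨i, r⟩) <;> exact IsPoly.coord (c := id) _
  obtain ⟨k, -, hk⟩ := Th_smul (D := E)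
  obtain ⟨V, h1, h2⟩ := proj0 (yf3_zc fun k => (Th_poly (D := E) k).comp hφ) isOpen_univ
    fun u _ w c _ _ h l => (congrFun (hk c (φ (Sum.elim u w))) l).trans (mul_eq_zero_of_right _ (h l))
  have h3 := yf3_zc (F := fun (k : Fin 3 × I × I) (x : Co I 0 → ℂ) =>
    if D.base.ap k.1 k.2.1 k.2.2 then 0 else x (.inl k)) fun k =>
      IsPoly.ite _ (IsPoly.const 0) (IsPoly.coord (c := id) _)
  refine (congrArg ZC (Set.ext fun x => ?_)).mp (h3.inter h1)
  have h4 : x ∈ {x : Co I 0 → ℂ | ∀ k : Fin 3 × I × I,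
      (if D.base.ap k.1 k.2.1 k.2.2 then 0 else x (.inl k)) = 0} ↔
        ((coL I 0).symm x).1 ∈ D.base.R := ⟨fun h a i j c => (if_neg c).symm.trans (h (a, i, j)),
    fun h k => ite_eq_left_iff.2 (h _ _ _)⟩
  rw [Set.mem_inter_iff, h4, h2 x trivial]
  refine and_congr_right fun hR => ⟨fun ⟨w, h0, h⟩ hs => Th_ne (D := E) (p := φ (Sum.elim x w))
    (st_iff.2 ⟨hR, hs.ss, (Stb.gen_iff (D := E) hs).2 fun c => h0 (funext fun l => ?_)⟩)
      (funext h), fun hs => ?_⟩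
  · simpa [φ] using congrFun₂ c (e.symm l) 0
  · obtain ⟨U, a1, a2, a3, a4⟩ : ∃ U, D.Sub ((coL I 0).symm x).1 U ∧ U ≠ ⊥ ∧ U ≠ ⊤ ∧
        ¬ D.wt D.th U < 0 := by
      by_contra c
      exact hs ⟨inferInstance, fun U a b d => by_contra fun f => c ⟨U, a, b, d, f⟩⟩
    obtain ⟨v, hv, h0⟩ := (Submodule.ne_bot_iff U).1 a2
    refine ⟨v ∘ e.symm, fun c => h0 (funext fun i => by simpa using congrFun c (e i)), fun l => ?_⟩
    refine congrFun (by_contra fun c => a4 ((st_of_Th (D := E) (p := φ (Sum.elim x (v ∘ e.symm)))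
      hR c).gen U a1 (fun r => ?_) a3)) l
    simpa [φ] using hv

/-- stability is an open condition -/
theorem stb_ev (hs : D.Stb ρ) : ∀ᶠ q in 𝓝 ρ, q ∈ D.base.R → D.Stb q := by
  have := hs.1
  have c : Continuous fun q : Rp I => co ((q, 0) : Pt I 0) :=
    continuous_co.comp (continuous_id.prodMk continuous_const)
  exact Eventually.mono (((NS_zc (D := D)).isClosed.preimage c).isOpen_compl.mem_nhds
    fun e => e.2 hs) fun q e hq => by_contra fun d => e ⟨hq, d⟩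

end Dat

end Pool.Agent.CS
end
end

-- part Pool.Agent.P.MP_d34769_ag.YJ5
section

/-! Semi-invariants, covariants and embeddings without framing: definitions. -/

open Matrix

set_option linter.unusedSectionVars false

noncomputable section
namespace Pool.Agent.CS

variable {I : Type} [Fintype I] [DecidableEq I]

/-- the coordinates of a triple -/
def cr (ρ : Rp I) : Co I 0 → ℂ := co (ρ, 0)

/-- the complex conjugate triple -/
def cj (ρ : Rp I) : Rp I := fun a => (ρ a).map (starRingEnd ℂ)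

theorem cr_fst (p : Pt I 0) : cr p.1 = co p :=
  congrArg co (Prod.ext rfl (Subsingleton.elim _ _))

theorem act0 (g : Matrix I I ℂ) (ρ : Rp I) : act g ((ρ, 0) : Pt I 0) = (actR g ρ, 0) :=
  Prod.ext rfl (Subsingleton.elim _ _)

theorem continuous_cr : Continuous (cr : Rp I → Co I 0 → ℂ) :=
  continuous_co.comp (continuous_id.prodMk continuous_const)

theorem poly_cr (a : Fin 3) (i j : I) : IsPoly cr fun ρ : Rp I => ρ a i j :=
  IsPoly.coord (c := cr) (.inl (a, i, j))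

namespace Dat
variable (D : Dat I)

/-- the stable triples -/
def SR : Set (Rp I) := {ρ | ρ ∈ D.base.R ∧ D.Stb ρ}

/-- semi-invariants of weight `a` -/
structure SI (a : ℕ) (s : Rp I → ℂ) : Prop where
  poly : IsPoly cr s
  act : ∀ g ∈ D.base.P, ∀ ρ, D.ch g ^ a * s (actR g ρ) = s ρ

/-- covariants of weight `a` with values in matrices -/
structure CV (a : ℕ) (l : Rp I → Matrix I I ℂ) : Prop where
  poly : ∀ i j, IsPoly cr fun ρ => l ρ i j
  act : ∀ g ∈ D.base.P, ∀ ρ, D.ch g ^ a • l (actR g ρ) = g * l ρ * g⁻¹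

/-- semi-invariants and covariants of one weight that generate -/
structure Uni0 where
  N : ℕ
  A : ℕ
  S : Fin N → Rp I → ℂ
  L : Fin N → Rp I → Matrix I I ℂ
  κ : Set (Fin N)
  si : ∀ k, D.SI A (S k)
  cv : ∀ k, D.CV A (L k)
  ss : ∀ ρ ∈ D.base.R, D.SS D.th ρ → ∃ k, S k ρ ≠ 0
  stb : ∀ ρ ∈ D.base.R, D.Stb ρ ↔ ∃ k ∈ κ, S k ρ ≠ 0
  span : ∀ ρ ∈ D.SR, Submodule.span ℂ (Set.range fun k => L k ρ) = ⊤

/-- `T` embeds the space of stable orbits into projective space -/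
structure Emb0 {τ : Type} (A : ℕ) (T : Rp I → τ → ℂ) (κ : Set τ) : Prop where
  poly : ∀ t, IsPoly cr fun ρ => T ρ t
  act : ∀ g ∈ D.base.P, ∀ ρ, D.ch g ^ A • T (actR g ρ) = T ρ
  ss : ∀ ρ ∈ D.base.R, D.SS D.th ρ → T ρ ≠ 0
  stb : ∀ ρ ∈ D.base.R, D.Stb ρ ↔ ∃ t ∈ κ, T ρ t ≠ 0
  inj : ∀ ρ ∈ D.SR, ∀ (σ : Rp I) (c : ℂ), c ≠ 0 → T σ = c • T ρ → ∃ g ∈ D.base.P, actR g ρ = σ
  imm : ∀ ρ ∈ D.SR, ∀ (v : Rp I) (c : ℂ),
    (∀ t, HasDerivAt (fun z : ℂ => T (ρ + z • v) t) (c * T ρ t) 0) →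
      ∃ u ∈ D.base.Lie, v = fun a => u * ρ a - ρ a * u

/-- the dimension of the space of stable orbits -/
def dim0 : ℕ := Module.finrank ℂ D.base.R + 1 - Module.finrank ℂ D.base.Lie

variable {D} {a b : ℕ} {s t : Rp I → ℂ} {l : Rp I → Matrix I I ℂ}

theorem SI.mul (h : D.SI a s) (k : D.SI b t) : D.SI (a + b) fun ρ => s ρ * t ρ :=
  ⟨h.poly.mul k.poly, fun g hg ρ => by rw [← h.act g hg ρ, ← k.act g hg ρ]; ring⟩

theorem SI.pow (h : D.SI a s) (n : ℕ) : D.SI (a * n) fun ρ => s ρ ^ n :=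
  ⟨h.poly.pow n, fun g hg ρ => by rw [← h.act g hg ρ, pow_mul, mul_pow]⟩

theorem SI.smul (h : D.SI a s) (k : D.CV b l) : D.CV (a + b) fun ρ => s ρ • l ρ :=
  ⟨fun i j => h.poly.mul (k.poly i j), fun g hg ρ => by
    rw [Matrix.mul_smul, Matrix.smul_mul, ← k.act g hg ρ, ← h.act g hg ρ, smul_smul, smul_smul]
    congr 1
    ring⟩

end Dat

end Pool.Agent.CS
end
end

-- part Pool.Agent.P.MP_d34769_ag.YJ6b
section

/-! Semi-invariants and covariants of a linear action with a character, in abstract form. -/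

open Matrix MvPolynomial
open Pool.Agent.PWV (ZC pm)

noncomputable section
namespace Pool.Agent.CS

/-- disjoint closed sets are separated by a polynomial -/
theorem zc_sep {σ : Type} [Finite σ] {V W : Set (σ → ℂ)} (hV : ZC V) (hW : ZC W)
    (h : Disjoint V W) : ∃ P : MvPolynomial σ ℂ,
      (∀ x ∈ V, eval x P = 1) ∧ ∀ x ∈ W, eval x P = 0 := by
  obtain ⟨S, rfl⟩ := hV
  obtain ⟨T, rfl⟩ := hW
  have top : Ideal.span S ⊔ Ideal.span T = ⊤ := by
    by_contra hne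
    obtain ⟨m, hm, hle⟩ := Ideal.exists_le_maximal _ hne
    obtain ⟨x, rfl⟩ := isMaximal_iff_eq_vanishingIdeal_singleton.1 hm
    have h0 : ∀ p ∈ Ideal.span S ⊔ Ideal.span T, eval x p = 0 := fun p hp => by
      simpa using (mem_vanishingIdeal_singleton_iff x p).1 (hle hp)
    exact Set.disjoint_left.1 h (fun f hf => h0 f (Ideal.mem_sup_left (Ideal.subset_span hf)))
      fun f hf => h0 f (Ideal.mem_sup_right (Ideal.subset_span hf))
  obtain ⟨p, hp, q, hq, e⟩ := Submodule.mem_sup.1 ((Ideal.eq_top_iff_one _).1 top)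
  refine ⟨q, fun z hz => ?_, fun z hz =>
    Ideal.span_le.2 (fun f hf => (RingHom.mem_ker (f := eval z)).2 (hz f hf)) hq⟩
  have h1 : eval z p = 0 :=
    Ideal.span_le.2 (fun f hf => (RingHom.mem_ker (f := eval z)).2 (hz f hf)) hp
  simpa [h1] using congrArg (eval z) e

section gen
variable {σ : Type} [Fintype σ] [DecidableEq σ]

/-- coordinates with one more variable -/
def oc (q : σ → ℂ) (t : ℂ) : Option σ → ℂ := fun x => x.elim t q

/-- the direct sum of a scalar and a matrix -/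
def oA (A : Matrix σ σ ℂ) (c : ℂ) : Matrix (Option σ) (Option σ) ℂ :=
  fun x y => match x, y with
    | none, none => c
    | some x, some y => A x y
    | _, _ => 0

omit [Fintype σ] [DecidableEq σ] in
theorem oc_eta (w : Option σ → ℂ) : oc (fun x => w (some x)) (w none) = w := by
  funext x
  rcases x with _ | x <;> rfl

omit [DecidableEq σ] in
theorem oA_oc (A : Matrix σ σ ℂ) (c t : ℂ) (q : σ → ℂ) :
    oA A c *ᵥ oc q t = oc (A *ᵥ q) (c * t) := by
  funext x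
  rcases x with _ | x <;> simp [mulVec, dotProduct, oA, oc, Fintype.sum_option]

omit [Fintype σ] [DecidableEq σ] in
theorem oA_star (A : Matrix σ σ ℂ) (c : ℂ) : (oA A c)ᴴ = oA Aᴴ (star c) := by
  ext x y
  rcases x with _ | x <;> rcases y with _ | y <;> simp [oA]

omit [Fintype σ] [DecidableEq σ] in
theorem oc_exp {F : (Option σ → ℂ) → ℂ} (hF : IsPoly id F) :
    ∃ P : Polynomial (MvPolynomial σ ℂ), ∀ q t, F (oc q t) = (P.map (eval q)).eval t := by
  obtain ⟨P, hP⟩ := hF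
  exact ⟨_, fun q t => (hP _).trans (optionEquivLeft_elim_eval ℂ _ q t P)⟩

variable {Γ : Type} {A : Γ → Matrix σ σ ℂ} {c : Γ → ℂ}

/-- `Z` is invariant under the action and its adjoint -/
def OInv (A : Γ → Matrix σ σ ℂ) (c : Γ → ℂ) (Z : Set (Option σ → ℂ)) : Prop :=
  ∀ g, ∀ z ∈ Z, oA (A g) (c g) *ᵥ z ∈ Z ∧ (oA (A g) (c g))ᴴ *ᵥ z ∈ Z

/-- SSI: a semi-invariant that separates -/
theorem ssi_gen {V W : Set (Option σ → ℂ)} (hV : ZC V) (hW : ZC W) (h : Disjoint V W)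
    (iV : OInv A c V) (iW : OInv A c W) {x : σ → ℂ} (hx : oc x 1 ∈ V) (h0 : oc x 0 ∈ W) :
    ∃ (n : ℕ) (s : (σ → ℂ) → ℂ), 0 < n ∧ IsPoly id s ∧ s x ≠ 0 ∧
      (∀ g q, c g ^ n * s (A g *ᵥ q) = s q) ∧ ∀ q, (∀ t, oc q t ∈ W) → s q = 0 := by
  obtain ⟨P, p1, p0⟩ := zc_sep hV hW h
  obtain ⟨F, a1, a2, a3⟩ := rey (τ := Unit) (V ∪ W) (F := fun z _ => eval z P)
    fun _ => IsPoly.ev (c := id) P
  obtain ⟨Q, hQ⟩ := oc_exp (a1 ())
  have e1 : (Q.map (eval x)).eval 1 = 1 := by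
    rw [← hQ, a2 _ (Or.inl hx)]; exact p1 _ hx
  have e0 : ∀ q t, oc q t ∈ W → (Q.map (eval q)).eval t = 0 := fun q t hq => by
    rw [← hQ, a2 _ (Or.inr hq)]; exact p0 _ hq
  obtain ⟨n, hn⟩ : ∃ n, (Q.map (eval x)).coeff n ≠ 0 := by
    by_contra hc
    rw [show Q.map (eval x) = 0 from Polynomial.ext fun n =>
      by_contra fun e => hc ⟨n, e⟩, Polynomial.eval_zero] at e1
    exact zero_ne_one e1
  obtain ⟨n, hn0, hn⟩ : ∃ n, 0 < n ∧ (Q.map (eval x)).coeff n ≠ 0 := by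
    by_contra hc
    have e2 : Q.map (eval x) = 0 := Polynomial.ext fun k => by
      rcases Nat.eq_zero_or_pos k with rfl | hk
      · rw [Polynomial.coeff_zero_eq_eval_zero]
        exact e0 x 0 h0
      · exact by_contra fun e => hc ⟨k, hk, e⟩
    rw [e2] at hn
    exact hn rfl
  refine ⟨n, fun q => eval q (Q.coeff n), hn0, IsPoly.ev (c := id) _,
    by rwa [Polynomial.coeff_map] at hn, fun g q => ?_, fun q hq => ?_⟩
  · have e3 := a3 (oA (A g) (c g)) 1
      (fun z hz => hz.imp (fun hz => (iV g z hz).1) fun hz => (iW g z hz).1)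
      (fun z hz => hz.imp (fun hz => (iV g z hz).2) fun hz => (iW g z hz).2)
      (fun z hz => by
        rw [one_mulVec]
        funext u
        rcases hz with hz | hz
        · rw [p1 _ hz, p1 _ (iV g z hz).1]
        · rw [p0 _ hz, p0 _ (iW g z hz).1])
    have := yf3_coef (κ := Unit) (k := 1) (c := c g) (B := fun _ => 1)
      (p := Q.map (eval (A g *ᵥ q))) (q := fun _ => Q.map (eval q))
      (fun t => by
        have e4 := congrFun (e3 (oc q t)) ()
        rw [one_mulVec, oA_oc, hQ, hQ] at e4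
        simpa using e4) n
    simpa using this
  · have e2 : Q.map (eval q) = 0 := Polynomial.funext fun t => by
      rw [e0 q t (hq t), Polynomial.eval_zero]
    have := congrArg (·.coeff n) e2
    simpa using this

/-- COV: a covariant with a prescribed value -/
theorem cov_gen {τ : Type} [Fintype τ] {B : Γ → Matrix τ τ ℂ} {Z : Set (Option σ → ℂ)}
    (iZ : OInv A c Z) {F : (Option σ → ℂ) → τ → ℂ} (hF : ∀ t, IsPoly id fun z => F z t)
    (hB : ∀ g, ∀ z ∈ Z, F (oA (A g) (c g) *ᵥ z) = B g *ᵥ F z) {x : σ → ℂ} (hx : oc x 1 ∈ Z)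
    {s : (σ → ℂ) → ℂ} (s1 : IsPoly id s) (s2 : s x ≠ 0) (s3 : ∀ g q, c g * s (A g *ᵥ q) = s q) :
    ∃ d₀ : ℕ, ∀ d, d₀ ≤ d → ∃ l : (σ → ℂ) → τ → ℂ, (∀ t, IsPoly id fun q => l q t) ∧
      l x = F (oc x 1) ∧ ∀ g q, c g ^ d • l (A g *ᵥ q) = B g *ᵥ l q := by
  obtain ⟨F', a1, a2, a3⟩ := rey Z hF
  choose P hP using fun t => oc_exp (a1 t)
  obtain ⟨d₀, hd⟩ : ∃ d, ∀ k : τ, (P k).natDegree ≤ d :=
    ⟨_, fun k => Finset.le_sup (f := fun k : τ => (P k).natDegree) (Finset.mem_univ k)⟩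
  refine ⟨d₀, fun d hdd => ⟨fun q k => ∑ n ∈ Finset.range (d + 1),
    ((s x)⁻¹ * s q) ^ (d - n) * eval q ((P k).coeff n),
    fun k => IsPoly.sum (Finset.range (d + 1)) fun n _ =>
      (((IsPoly.const (s x)⁻¹).mul s1).pow (d - n)).mul (IsPoly.ev (c := id) ((P k).coeff n)),
    ?_, fun g q => ?_⟩⟩
  · funext k
    rw [← a2 _ hx, hP, Polynomial.eval_eq_sum_range' (Nat.lt_succ_of_le
      (Polynomial.natDegree_map_le.trans ((hd k).trans hdd)))]
    simp [inv_mul_cancel₀ s2]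
  · funext i
    have e3 := a3 (oA (A g) (c g)) (B g) (fun z hz => (iZ g z hz).1) (fun z hz => (iZ g z hz).2)
      (hB g)
    simp only [Pi.smul_apply, smul_eq_mul, mulVec, dotProduct, Finset.mul_sum]
    rw [Finset.sum_comm]
    refine Finset.sum_congr rfl fun n hn => ?_
    have := yf3_coef (k := 1) (B := B g i) (q := fun k => (P k).map (eval q))
      (p := (P i).map (eval (A g *ᵥ q))) (c := c g) (fun t => by
        have e4 := congrFun (e3 (oc q t)) i
        rw [oA_oc, hP] at e4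
        simpa only [hP, one_mul, mulVec, dotProduct] using e4) n
    simp only [Polynomial.coeff_map, one_mul] at this
    obtain ⟨e, he⟩ := Nat.exists_eq_add_of_le (Nat.lt_succ_iff.1 (Finset.mem_range.1 hn))
    simp only [mul_left_comm (B g i _), ← Finset.mul_sum, ← this, ← s3 g q, he,
      Nat.add_sub_cancel_left]
    ring

end gen

/-- a map of matrix algebras that intertwines left multiplications is a right multiplication -/
theorem cov_uniq {I κ : Type} [Fintype I] [DecidableEq I] {x x' : κ → Matrix I I ℂ}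
    {g : Matrix I I ℂ} (hg : IsUnit g.det)
    (hs : ∀ M : Matrix I I ℂ, (∀ k, M * x k = x' k * M) → ∃ c : ℂ, M = c • g)
    (Φ : Matrix I I ℂ →ₗ[ℂ] Matrix I I ℂ) (h : ∀ k y, Φ (x k * y) = x' k * Φ y) (h1 : Φ 1 = 0) :
    Φ = 0 := by
  have key : ∀ j l, ∃ c : ℂ, (Matrix.of fun i k => Φ (Matrix.single k l 1) i j) = c • g := by
    intro j l
    refine hs _ fun k => ?_
    ext i m
    have e1 : x k * Matrix.single m l (1 : ℂ) = ∑ a, x k a m • Matrix.single a l (1 : ℂ) := by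
      ext b c
      simp only [Matrix.mul_apply, Matrix.sum_apply, Matrix.smul_apply, Matrix.single_apply,
        smul_eq_mul]
      by_cases hc : l = c
      · simp [hc]
      · simp [hc]
    have e2 := congrFun (congrFun (h k (Matrix.single m l 1)) i) j
    rw [e1, map_sum] at e2
    simp only [map_smul, Matrix.sum_apply, Matrix.smul_apply, smul_eq_mul] at e2
    simp only [Matrix.mul_apply, Matrix.of_apply] at e2 ⊢
    rw [← e2]
    exact Finset.sum_congr rfl fun j _ => mul_comm _ _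
  choose c hc using key
  have e : ∀ k l i j, Φ (Matrix.single k l 1) i j = g i k * c j l := fun k l i j => by
    have := congrFun (congrFun (hc j l) i) k
    simpa [mul_comm] using this
  have e1 : g * (Matrix.of fun l j => c j l) = 0 := by
    ext i j
    have := congrFun (congrFun h1 i) j
    rw [← Matrix.sum_single_one, map_sum] at this
    simpa [Matrix.sum_apply, e, Matrix.mul_apply] using this
  have e2 : (Matrix.of fun l j => c j l) = 0 := by
    rw [← nonsing_inv_mul_cancel_left g (Matrix.of fun l j => c j l) hg, e1, Matrix.mul_zero]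
  refine Matrix.ext_linearMap ℂ fun k l => LinearMap.ext_ring ?_
  ext i j
  have := congrFun (congrFun e2 l) j
  simp only [Matrix.of_apply, Matrix.zero_apply] at this
  simp [e, this]

end Pool.Agent.CS
end
end

-- part Pool.Agent.P.MP_d34769_ag.YJ5b
section

/-! Semi-invariants that do not vanish at a semistable or stable triple. -/

open Matrix MvPolynomial Filter Topology
open Pool.Agent.PWV (ZC pm)

set_option linter.unusedSectionVars false

noncomputable section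
namespace Pool.Agent.CS

variable {I : Type} [Fintype I] [DecidableEq I]

/-- the matrix of the action on the coordinates -/
def yj6A (m : ℕ) (g : Matrix I I ℂ) : Matrix (Co I m) (Co I m) ℂ :=
  fun x y => yf3A m g 0 (some x) (some y)

theorem yj6_oA (m : ℕ) (g : Matrix I I ℂ) (c : ℂ) : oA (yj6A m g) c = yf3A m g c := by
  ext x y
  rcases x with _ | x | x <;> rcases y with _ | y | y <;> rfl

theorem yj6_oc {m : ℕ} (q : Pt I m) (t : ℂ) : oc (co q) t = yf3c (q, t) := rfl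

theorem yj6A_co {m : ℕ} (g : Matrix I I ℂ) (q : Pt I m) : yj6A m g *ᵥ co q = co (act g q) := by
  have h := oA_oc (yj6A m g) 0 0 (co q)
  rw [yj6_oA, yj6_oc, yf3_A] at h
  exact funext fun x => (congrFun h (some x)).symm

theorem yj6_closure {σ Γ : Type} [Fintype σ] {A : Γ → Matrix σ σ ℂ} {c : Γ → ℂ}
    {Z : Set (Option σ → ℂ)} (h : OInv A c Z) : OInv A c (closure Z) := fun g _ hz =>
  ⟨map_mem_closure (f := fun z => oA (A g) (c g) *ᵥ z)
      (continuous_const.matrix_mulVec continuous_id) hz fun w hw => (h g w hw).1,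
    map_mem_closure (f := fun z => (oA (A g) (c g))ᴴ *ᵥ z)
      (continuous_const.matrix_mulVec continuous_id) hz fun w hw => (h g w hw).2⟩

namespace Dat
variable {D : Dat I} {ρ : Rp I}

/-- a set that is invariant under the group is invariant under the adjoint action -/
theorem oinv_of {m a : ℕ} {Z : Set (Option (Co I m) → ℂ)}
    (h : ∀ g ∈ D.base.P, ∀ q t, yf3c (q, t) ∈ Z → yf3c (act g q, D.ch g ^ a * t) ∈ Z) :
    OInv (fun g : D.base.P => yj6A m g.1) (fun g => D.ch g.1 ^ a) Z := by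
  have k : ∀ g ∈ D.base.P, ∀ z ∈ Z, yf3A m g (D.ch g ^ a) *ᵥ z ∈ Z := fun g hg z hz => by
    rw [← yf3_cd z] at hz ⊢
    exact (yf3_A g _ _ _).symm ▸ h g hg _ _ hz
  intro g z hz
  beta_reduce
  rw [yj6_oA, yf3_As, star_pow, ← ch_star g.2]
  exact ⟨k _ g.2 z hz, k _ (star_mem_P g.2) z hz⟩

theorem O0_inv (a : ℕ) (ρ : Rp I) :
    OInv (fun g : D.base.P => yj6A 0 g.1) (fun g => D.ch g.1 ^ a) (D.O0 a ρ) := by
  refine oinv_of ?_
  rintro g hg q t ⟨k, hk, e⟩
  have e1 : (q, t) = (act k (ρ, 0), D.ch k ^ a) := congrArg yf3d e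
  obtain ⟨rfl, rfl⟩ := Prod.mk.inj e1
  exact ⟨g * k, mul_mem_P hg hk, by rw [act_mul, ch_mul hg, mul_pow]⟩

theorem O0_one (a : ℕ) (ρ : Rp I) : oc (co ((ρ, 0) : Pt I 0)) 1 ∈ D.O0 a ρ :=
  ⟨1, D.base.one_mem_P, by rw [act_one, ch_one, one_pow]; rfl⟩

theorem ssi_aux (hs : D.SS D.th ρ) {N : Set (Pt I 0)} (hN : ZC (co '' N))
    (iN : ∀ g ∈ D.base.P, ∀ q ∈ N, act g q ∈ N)
    (dN : ∀ w ∈ closure (D.O0 1 ρ), (yf3d w).1 ∉ N) :
    ∃ (a : ℕ) (s : Pt I 0 → ℂ), 0 < a ∧ IsPoly co s ∧ s (ρ, 0) ≠ 0 ∧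
      (∀ g ∈ D.base.P, ∀ q, D.ch g ^ a * s (act g q) = s q) ∧ ∀ q ∈ N, s q = 0 := by
  have inj : Function.Injective (co : Pt I 0 → _) := (coL I 0).injective
  have hW : ZC ({w : Option (Co I 0) → ℂ | eval w (X none) = 0} ∪
      {w | (fun i => eval w (X (some i))) ∈ co '' N}) :=
    (PWV.zc_zero _).union (hN.preimage fun i => X (some i))
  have mW : ∀ q t, yf3c (q, t) ∈ ({w : Option (Co I 0) → ℂ | eval w (X none) = 0} ∪
      {w | (fun i => eval w (X (some i))) ∈ co '' N}) ↔ t = 0 ∨ q ∈ N := fun q t => by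
    simp only [Set.mem_union, Set.mem_ofPred_eq, eval_X]
    exact or_congr Iff.rfl (inj.mem_set_image (a := q))
  obtain ⟨n, s, h0, h1, h2, h3, h4⟩ := ssi_gen (O0_zc (D := D) 1 ρ) hW
    (Set.disjoint_left.2 fun w hw e => by
      rw [← yf3_cd w] at e
      rcases (mW _ _).1 e with e | e
      exacts [O0_ss hs hw e, dN w hw e])
    (yj6_closure (O0_inv 1 ρ))
    (oinv_of fun g hg q t e => (mW _ _).2 (((mW _ _).1 e).imp (fun c => by rw [c, mul_zero])
      (iN g hg q)))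
    (subset_closure (O0_one 1 ρ)) ((mW _ _).2 (Or.inl rfl))
  refine ⟨n, fun q => s (co q), h0, h1.comp (g := co) fun t => IsPoly.coord t, h2,
    fun g hg q => ?_, fun q hq => h4 _ fun t => (mW _ _).2 (Or.inr hq)⟩
  have := h3 ⟨g, hg⟩ (co q)
  rwa [yj6A_co, pow_one] at this

/-- SSI, semistable case -/
theorem ssi_pt (hs : D.SS D.th ρ) : ∃ (a : ℕ) (s : Pt I 0 → ℂ), 0 < a ∧ IsPoly co s ∧
    s (ρ, 0) ≠ 0 ∧ ∀ g ∈ D.base.P, ∀ q, D.ch g ^ a * s (act g q) = s q := by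
  obtain ⟨a, s, h0, h1, h2, h3, -⟩ := ssi_aux hs (N := ∅)
    (by rw [Set.image_empty]; exact PWV.zc_empty) (fun _ _ _ h => h.elim) fun _ _ h => h
  exact ⟨a, s, h0, h1, h2, h3⟩

/-- SSI, stable case -/
theorem ssi_stb (hs : D.Stb ρ) : ∃ (a : ℕ) (s : Pt I 0 → ℂ), 0 < a ∧ IsPoly co s ∧
    s (ρ, 0) ≠ 0 ∧ (∀ g ∈ D.base.P, ∀ q, D.ch g ^ a * s (act g q) = s q) ∧
      ∀ q : Pt I 0, q.1 ∈ D.base.R → ¬ D.Stb q.1 → s q = 0 := by
  have := hs.1
  obtain ⟨a, s, h0, h1, h2, h3, h4⟩ := ssi_aux hs.ss (N := {q | q.1 ∈ D.base.R ∧ ¬ D.Stb q.1})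
    (by
      refine (congrArg ZC (Set.ext fun x => ⟨fun h => ?_, ?_⟩)).mp (NS_zc (D := D))
      · exact ⟨(coL I 0).symm x, h, (coL I 0).apply_symm_apply x⟩
      · rintro ⟨q, h, rfl⟩
        exact h)
    (fun g hg q h => ⟨actR_mem hg h.1, fun c => h.2 (by
      have := c.act (inv_mem_P hg)
      rwa [show (act g q).1 = actR g q.1 from rfl, actR_inv hg.2] at this)⟩)
    (fun w hw h => by
      rw [(O0_closed one_pos hs).closure_eq] at hw
      obtain ⟨g, hg, rfl⟩ := hw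
      exact h.2 (hs.act hg))
  exact ⟨a, s, h0, h1, h2, h3, fun q a b => h4 q ⟨a, b⟩⟩

theorem si_of {a : ℕ} {s : Pt I 0 → ℂ} (h1 : IsPoly co s)
    (h3 : ∀ g ∈ D.base.P, ∀ q, D.ch g ^ a * s (act g q) = s q) : D.SI a fun σ => s (σ, 0) :=
  ⟨(h1.imp fun _ h σ => h (σ, 0) :), fun g hg σ => by rw [← act0, h3 g hg]⟩

theorem ssi (h : D.SS D.th ρ) : ∃ a s, 0 < a ∧ D.SI a s ∧ s ρ ≠ 0 := by
  obtain ⟨a, s, h0, h1, h2, h3⟩ := ssi_pt h
  exact ⟨a, _, h0, si_of h1 h3, h2⟩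

theorem sti (hρ : ρ ∈ D.SR) :
    ∃ a s, 0 < a ∧ D.SI a s ∧ s ρ ≠ 0 ∧ ∀ σ ∈ D.base.R, s σ ≠ 0 → D.Stb σ := by
  obtain ⟨a, s, h0, h1, h2, h3, h4⟩ := ssi_stb hρ.2
  exact ⟨a, _, h0, si_of h1 h3, h2, fun σ a b => by_contra fun c => b (h4 (σ, 0) a c)⟩

end Dat

end Pool.Agent.CS
end
end
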