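import Pool.Agent.K.MP_d34769_ag.C136

/-! Finitely many semi-invariants and covariants of one weight are enough. -/

open Matrix MvPolynomial

set_option linter.unusedSectionVars false

noncomputable section
namespace Pool.Agent.CS

/-- finitely many members of a family of polynomial functions have the same common zeros -/
theorem fin_sub {V σ J : Type} [Finite σ] {c : V → σ → ℂ} {F : J → V → ℂ}
    (hF : ∀ j, IsPoly c (F j)) :
    ∃ T : Finset J, ∀ v j, F j v ≠ 0 → ∃ i ∈ T, F i v ≠ 0 := by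
  classical
  choose P hP using hF
  obtain ⟨s, hs, e⟩ := (Submodule.fg_span_iff_fg_span_finset_subset (Set.range P)).1
    (IsNoetherian.noetherian (Ideal.span (Set.range P)))
  rcases isEmpty_or_nonempty J with hJ | hJ
  · exact ⟨∅, fun v j => hJ.elim j⟩
  choose! f hf using fun p (hp : p ∈ s) => hs hp
  refine ⟨s.image f, fun v j hj => by_contra fun h => hj ?_⟩
  have h1 : P j ∈ Ideal.span (s : Set (MvPolynomial σ ℂ)) := by
    have : P j ∈ Submodule.span (MvPolynomial σ ℂ) (Set.range P) := Submodule.subset_span ⟨j, rfl⟩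
    rwa [e] at this
  rw [hP]
  refine Ideal.span_le.2 (fun p hp => (RingHom.mem_ker (f := eval (c v))).2 ?_) h1
  rw [← hf p hp, ← hP]
  exact by_contra fun k => h ⟨f p, Finset.mem_image_of_mem f hp, k⟩

variable {I : Type} [Fintype I] [DecidableEq I]

/-- the matrix of the entries of a family of matrices -/
def entM (l : I × I → Matrix I I ℂ) : Matrix (I × I) (I × I) ℂ := of fun r x => l r x.1 x.2

theorem entM_single : entM (fun r : I × I => Matrix.single r.1 r.2 (1 : ℂ)) = 1 := by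
  ext r x
  simp only [entM, of_apply, Matrix.single_apply, Matrix.one_apply, Prod.ext_iff]

theorem span_of_entM {l : I × I → Matrix I I ℂ} (h : (entM l).det ≠ 0) :
    Submodule.span ℂ (Set.range l) = ⊤ := by
  refine eq_top_iff.2 fun y _ => (Submodule.mem_span_range_iff_exists_fun ℂ).2
    ⟨(fun x : I × I => y x.1 x.2) ᵥ* (entM l)⁻¹, ?_⟩
  ext i j
  have e := congrFun (vecMul_vecMul (fun x : I × I => y x.1 x.2) (entM l)⁻¹ (entM l)) (i, j)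
  rw [nonsing_inv_mul _ (isUnit_iff_ne_zero.2 h), vecMul_one] at e
  rw [← e]
  simp only [Matrix.sum_apply, Matrix.smul_apply, smul_eq_mul]
  rfl

namespace Dat
variable {D : Dat I}

theorem SI.zero (a : ℕ) : D.SI a fun _ => 0 := ⟨IsPoly.const 0, fun _ _ _ => mul_zero _⟩

theorem CV.zero (a : ℕ) : D.CV a fun _ => 0 :=
  ⟨fun _ _ => IsPoly.const 0, fun _ _ _ => by simp⟩

/-- UNI0 from the existence of covariants at each stable triple -/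
theorem uni0_of (hc : ∀ ρ ∈ D.SR, ∀ a s, 0 < a → D.SI a s → s ρ ≠ 0 →
    ∃ (b : ℕ) (l : I × I → Rp I → Matrix I I ℂ), 0 < b ∧ (∀ r, D.CV (a * b) (l r)) ∧
      ∀ r, l r ρ = Matrix.single r.1 r.2 1) : Nonempty D.Uni0 := by
  classical
  choose a1 s1 p1 i1 n1 using fun ρ : {ρ // ρ ∈ D.base.R ∧ D.SS D.th ρ} => ssi ρ.2.2
  choose a2 s2 p2 i2 n2 z2 using fun ρ : D.SR => sti ρ.2
  choose b l pb cv hl using fun ρ : D.SR => hc ρ.1 ρ.2 _ _ (p2 ρ) (i2 ρ) (n2 ρ)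
  obtain ⟨T1, h1⟩ := fin_sub fun ρ => (i1 ρ).poly
  obtain ⟨T2, h2⟩ := fin_sub (F := fun ρ σ => s2 ρ σ * (entM fun r => l ρ r σ).det)
    fun ρ => (i2 ρ).poly.mul (IsPoly.det fun r x => (cv ρ r).poly x.1 x.2)
  obtain ⟨A, hA⟩ : ∃ A, A = (∏ ρ ∈ T1, a1 ρ) * ∏ ρ ∈ T2, a2 ρ * b ρ := ⟨_, rfl⟩
  have A0 : A ≠ 0 := by
    rw [hA]
    exact (Nat.mul_pos (Finset.prod_pos fun ρ _ => p1 ρ)
      (Finset.prod_pos fun ρ _ => Nat.mul_pos (p2 ρ) (pb ρ))).ne'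
  have d1 : ∀ ρ : T1, ∃ n, A = a1 ρ * n := fun ρ =>
    hA ▸ (Finset.dvd_prod_of_mem a1 ρ.2).mul_right _
  have d2 : ∀ ρ : T2, ∃ n, A = a2 ρ * b ρ * (n + 1) := fun ρ => by
    obtain ⟨n, hn⟩ : a2 ρ * b ρ ∣ A :=
      hA ▸ (Finset.dvd_prod_of_mem (fun ρ => a2 ρ * b ρ) ρ.2).mul_left _
    obtain ⟨n, rfl⟩ := Nat.exists_eq_add_one_of_ne_zero (n := n) fun e => A0 (by rw [hn, e]; rfl)
    exact ⟨n, hn⟩
  choose m1 e1 using d1
  choose m2 e2 using d2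
  let S : T1 ⊕ T2 × I × I ⊕ T2 → Rp I → ℂ := Sum.elim (fun ρ σ => s1 ρ σ ^ m1 ρ)
    (Sum.elim (fun _ _ => 0) fun ρ σ => s2 ρ σ ^ (b ρ * (m2 ρ + 1)))
  let L : T1 ⊕ T2 × I × I ⊕ T2 → Rp I → Matrix I I ℂ := Sum.elim (fun _ _ => 0)
    (Sum.elim (fun x σ => s2 x.1 σ ^ (b x.1 * m2 x.1) • l x.1 x.2 σ) fun _ _ => 0)
  have hS : ∀ k, D.SI A (S k) := by
    rintro (ρ | x | ρ)
    · exact (e1 ρ).symm ▸ (i1 ρ).pow (m1 ρ)
    · exact SI.zero A
    · have := (i2 ρ).pow (b ρ * (m2 ρ + 1))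
      rwa [← mul_assoc, ← e2 ρ] at this
  have hL : ∀ k, D.CV A (L k) := by
    rintro (ρ | x | ρ)
    · exact CV.zero A
    · have := ((i2 x.1).pow (b x.1 * m2 x.1)).smul (cv x.1 x.2)
      rwa [← mul_assoc, ← Nat.mul_succ, ← e2 x.1] at this
    · exact CV.zero A
  have key : ∀ σ ∈ D.SR, ∃ ρ : T2, s2 ρ σ ≠ 0 ∧ (entM fun r => l ρ r σ).det ≠ 0 := fun σ hσ => by
    obtain ⟨ρ, hρ, h⟩ := h2 σ ⟨σ, hσ⟩ (mul_ne_zero (n2 _) (by
      rw [show (fun r => l ⟨σ, hσ⟩ r σ) = _ from funext (hl ⟨σ, hσ⟩), entM_single, det_one]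
      exact one_ne_zero))
    exact ⟨⟨ρ, hρ⟩, mul_ne_zero_iff.1 h⟩
  let e := (Fintype.equivFin (T1 ⊕ T2 × I × I ⊕ T2)).symm
  refine ⟨⟨_, A, fun k => S (e k), fun k => L (e k), {k | ∃ ρ, e k = .inr (.inr ρ)},
    fun k => hS _, fun k => hL _, fun σ hσ hs => ?_, fun σ hσ => ⟨fun hs => ?_, ?_⟩,
    fun σ hσ => ?_⟩⟩
  · obtain ⟨ρ, hρ, h⟩ := h1 σ ⟨σ, hσ, hs⟩ (n1 _)
    refine ⟨e.symm (.inl ⟨ρ, hρ⟩), ?_⟩
    rw [Equiv.apply_symm_apply]
    exact pow_ne_zero _ h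
  · obtain ⟨ρ, h, -⟩ := key σ ⟨hσ, hs⟩
    refine ⟨e.symm (.inr (.inr ρ)), ⟨ρ, e.apply_symm_apply _⟩, ?_⟩
    rw [Equiv.apply_symm_apply]
    exact pow_ne_zero _ h
  · rintro ⟨k, ⟨ρ, hk⟩, h⟩
    rw [hk] at h
    refine z2 ρ σ hσ fun c => h ?_
    show s2 ρ σ ^ _ = 0
    rw [c]
    exact zero_pow (Nat.mul_pos (pb _) (Nat.succ_pos _)).ne'
  · obtain ⟨ρ, h, h'⟩ := key σ hσ
    rw [eq_top_iff, ← span_of_entM h', Submodule.span_le]
    rintro _ ⟨r, rfl⟩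
    have h3 : l ρ r σ = (s2 ρ σ ^ (b ρ * m2 ρ))⁻¹ • L (e (e.symm (.inr (.inl (ρ, r))))) σ := by
      rw [Equiv.apply_symm_apply]
      exact (inv_smul_smul₀ (pow_ne_zero _ h) _).symm
    beta_reduce
    rw [h3]
    exact Submodule.smul_mem _ _ (Submodule.subset_span ⟨_, rfl⟩)

/-- UNI0 -/
theorem nonempty_uni0 (D : Dat I) : Nonempty D.Uni0 :=
  uni0_of fun _ h _ _ ha hs h0 => exists_cv h ha hs h0

end Dat

end Pool.Agent.CS
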