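import Mathlib
import Pool.Agent.K.MP_d34769_ag.C134
import Pool.Agent.K.MP_d34769_ag.C83

-- part Pool.Agent.P.MP_d34769_ag.YJ6a
section

/-! Traces of words of length at most three in a spanning family of matrices determine the family
up to conjugation; the infinitesimal version. -/

open Matrix

noncomputable section
namespace Pool.Agent.CS

variable {I : Type} [Fintype I] [DecidableEq I] {κ : Type}

lemma yj6_nd {y : Matrix I I ℂ} (h : ∀ z : Matrix I I ℂ, trace (y * z) = 0) : y = 0 := by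
  ext i j
  have := h (Matrix.single j i 1)
  rw [Matrix.trace_mul_single] at this
  simpa using this

lemma yj6_nd_span {u : κ → Matrix I I ℂ} (hu : Submodule.span ℂ (Set.range u) = ⊤)
    {y : Matrix I I ℂ} (h : ∀ r, trace (y * u r) = 0) : y = 0 := by
  refine yj6_nd fun z => ?_
  have hz : z ∈ Submodule.span ℂ (Set.range u) := by rw [hu]; trivial
  induction hz using Submodule.span_induction with
  | mem x hx => obtain ⟨r, rfl⟩ := hx; exact h r
  | zero => simp
  | add a b _ _ ha hb => rw [Matrix.mul_add, trace_add, ha, hb, add_zero]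
  | smul c a _ ha => rw [Matrix.mul_smul, trace_smul, ha, smul_zero]

lemma yj6_ext_span {u : κ → Matrix I I ℂ} (hu : Submodule.span ℂ (Set.range u) = ⊤)
    {y y' : Matrix I I ℂ} (h : ∀ r, trace (y * u r) = trace (y' * u r)) : y = y' := by
  refine sub_eq_zero.1 (yj6_nd_span hu fun r => ?_)
  rw [Matrix.sub_mul, trace_sub, h r, sub_self]

/-- a linear map with prescribed values on a spanning family -/
lemma yj6_lin {V W : Type} [AddCommGroup V] [Module ℂ V] [AddCommGroup W] [Module ℂ W]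
    {u : κ → V} (hu : Submodule.span ℂ (Set.range u) = ⊤) (w : κ → W)
    (h : ∀ c : κ →₀ ℂ, Finsupp.linearCombination ℂ u c = 0 → Finsupp.linearCombination ℂ w c = 0) :
    ∃ T : V →ₗ[ℂ] W, ∀ r, T (u r) = w r := by
  have hs : Function.Surjective (Finsupp.linearCombination ℂ u) := by
    rw [← LinearMap.range_eq_top, Finsupp.range_linearCombination, hu]
  obtain ⟨s, hs'⟩ := (Finsupp.linearCombination ℂ u).exists_rightInverse_of_surjective
    (LinearMap.range_eq_top.2 hs)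
  refine ⟨(Finsupp.linearCombination ℂ w).comp s, fun r => ?_⟩
  have h1 : Finsupp.linearCombination ℂ u (s (u r) - Finsupp.single r 1) = 0 := by
    have := LinearMap.congr_fun hs' (u r)
    simp only [LinearMap.comp_apply, LinearMap.id_apply] at this
    rw [map_sub, this, Finsupp.linearCombination_single, one_smul, sub_self]
  have h2 := h _ h1
  rw [map_sub, Finsupp.linearCombination_single, one_smul, sub_eq_zero] at h2
  exact h2

lemma yj6_lc (u : κ → Matrix I I ℂ) (c : κ →₀ ℂ) (z : Matrix I I ℂ) :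
    trace (Finsupp.linearCombination ℂ u c * z) = c.sum fun r a => a * trace (u r * z) := by
  rw [Finsupp.linearCombination_apply, Finsupp.sum, Finsupp.sum, Finset.sum_mul, trace_sum]
  refine Finset.sum_congr rfl fun r _ => ?_
  rw [Matrix.smul_mul, trace_smul, smul_eq_mul]

/-- a statement that is bilinear holds everywhere if it holds on a spanning family -/
lemma yj6_bil {V W : Type} [AddCommGroup V] [Module ℂ V] [AddCommGroup W] [Module ℂ W]
    {u : κ → V} (hu : Submodule.span ℂ (Set.range u) = ⊤) (B C : V →ₗ[ℂ] V →ₗ[ℂ] W)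
    (h : ∀ r s, B (u r) (u s) = C (u r) (u s)) (a b : V) : B a b = C a b := by
  have h1 : B = C := by
    refine LinearMap.ext_on_range hu fun r => ?_
    exact LinearMap.ext_on_range hu fun s => h r s
  rw [h1]

/-- equal Gram matrices: the second family spans as well -/
lemma yj6_span {u u' : κ → Matrix I I ℂ} (hu : Submodule.span ℂ (Set.range u) = ⊤)
    (h2 : ∀ r s, trace (u r * u s) = trace (u' r * u' s)) :
    Submodule.span ℂ (Set.range u') = ⊤ := by
  set P := Submodule.span ℂ (Set.range u') with hP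
  let v : κ → P := fun r => ⟨u' r, Submodule.subset_span ⟨r, rfl⟩⟩
  have hv : Submodule.span ℂ (Set.range v) = ⊤ := by
    apply Submodule.map_injective_of_injective P.injective_subtype
    rw [Submodule.map_span, ← Set.range_comp, Submodule.map_top, Submodule.range_subtype]
    rfl
  obtain ⟨T, hT⟩ := yj6_lin hv u fun c hc => by
    have h0 : Finsupp.linearCombination ℂ u' c = 0 := by
      have := congrArg P.subtype hc
      rw [Finsupp.apply_linearCombination, map_zero] at this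
      exact this
    refine yj6_nd_span hu fun s => ?_
    rw [yj6_lc]
    simp only [h2]
    rw [← yj6_lc, h0, Matrix.zero_mul, trace_zero]
  have hs : LinearMap.range T = ⊤ := by
    rw [eq_top_iff, ← hu, Submodule.span_le]
    rintro _ ⟨r, rfl⟩
    exact ⟨v r, hT r⟩
  have h1 := LinearMap.finrank_range_le T
  rw [hs, finrank_top] at h1
  exact Submodule.eq_top_of_finrank_eq (le_antisymm (Submodule.finrank_le _) h1)

/-- Skolem-Noether for a multiplicative injective linear map of a matrix algebra -/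
lemma yj6_sn (T : Matrix I I ℂ →ₗ[ℂ] Matrix I I ℂ) (hi : Function.Injective T)
    (hm : ∀ a b, T (a * b) = T a * T b) :
    ∃ g : Matrix I I ℂ, IsUnit g ∧ ∀ x, T x * g = g * x := by
  rcases isEmpty_or_nonempty I with hI | ⟨⟨o⟩⟩
  · exact ⟨1, isUnit_one, fun x => Subsingleton.elim _ _⟩
  have h0 : T (Matrix.single o o 1) ≠ 0 := by
    intro h
    have h1 := hi (h.trans (map_zero T).symm)
    have h2 := congrFun (congrFun h1 o) o
    simp at h2
  obtain ⟨p, q, hpq⟩ : ∃ p q, T (Matrix.single o o 1) p q ≠ 0 := by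
    by_contra h
    push Not at h
    exact h0 (Matrix.ext h)
  let g : Matrix I I ℂ := Matrix.of fun a i => T (Matrix.single i o 1) a q
  have hg : ∀ x, T x * g = g * x := by
    intro x
    ext a i
    have e1 : x * Matrix.single i o (1 : ℂ) = ∑ j, x j i • Matrix.single j o (1 : ℂ) := by
      ext b c
      simp only [Matrix.mul_apply, Matrix.sum_apply, Matrix.smul_apply, Matrix.single_apply,
        smul_eq_mul]
      by_cases hc : o = c
      · simp [hc]
      · simp [hc]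
    have e2 := congrFun (congrFun (hm x (Matrix.single i o 1)) a) q
    rw [e1, map_sum] at e2
    simp only [map_smul, Matrix.sum_apply, Matrix.smul_apply, smul_eq_mul] at e2
    simp only [Matrix.mul_apply, g, Matrix.of_apply] at e2 ⊢
    rw [← e2]
    exact Finset.sum_congr rfl fun j _ => mul_comm _ _
  refine ⟨g, ?_, hg⟩
  rw [← Matrix.mulVec_injective_iff_isUnit]
  intro v w hvw
  by_contra hne
  obtain ⟨i, hi'⟩ : ∃ i, (v - w) i ≠ 0 := by
    by_contra h
    push Not at h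
    exact hne (sub_eq_zero.1 (funext h))
  have e0 : g *ᵥ (v - w) = 0 := by rw [Matrix.mulVec_sub, hvw, sub_self]
  have e1 : (g * Matrix.single o i (1 : ℂ)) *ᵥ (v - w) = 0 := by
    rw [← hg, ← Matrix.mulVec_mulVec, e0, Matrix.mulVec_zero]
  have e2 := congrFun e1 p
  rw [← Matrix.mulVec_mulVec] at e2
  have e3 : Matrix.single o i (1 : ℂ) *ᵥ (v - w) = Pi.single o ((v - w) i) := by
    rw [Matrix.single_mulVec]
    ext b
    by_cases hb : b = o
    · subst hb; simp
    · simp [hb]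
  rw [e3, Matrix.mulVec_single] at e2
  simp only [Pi.smul_apply, Matrix.col_apply, g, Matrix.of_apply, Pi.zero_apply,
    MulOpposite.smul_eq_mul_unop, MulOpposite.unop_op] at e2
  exact mul_ne_zero hpq hi' e2

/-- every derivation of a matrix algebra is inner -/
lemma yj6_inner (δ : Matrix I I ℂ →ₗ[ℂ] Matrix I I ℂ)
    (hm : ∀ a b, δ (a * b) = δ a * b + a * δ b) :
    ∃ h : Matrix I I ℂ, ∀ x, δ x = h * x - x * h := by
  rcases isEmpty_or_nonempty I with hI | ⟨⟨o⟩⟩
  · exact ⟨1, fun x => Subsingleton.elim _ _⟩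
  refine ⟨Matrix.of fun a i => δ (Matrix.single i o 1) a o, fun x => ?_⟩
  ext a i
  have e1 : x * Matrix.single i o (1 : ℂ) = ∑ j, x j i • Matrix.single j o (1 : ℂ) := by
    ext b c
    simp only [Matrix.mul_apply, Matrix.sum_apply, Matrix.smul_apply, Matrix.single_apply,
      smul_eq_mul]
    by_cases hc : o = c
    · simp [hc]
    · simp [hc]
  have e2 := congrFun (congrFun (hm x (Matrix.single i o 1)) a) o
  rw [e1, map_sum] at e2
  simp only [map_smul, Matrix.sum_apply, Matrix.smul_apply, smul_eq_mul, Matrix.add_apply,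
    Matrix.mul_single_apply_same, mul_one] at e2
  simp only [Matrix.mul_apply, Matrix.sub_apply, Matrix.of_apply] at e2 ⊢
  rw [eq_sub_iff_add_eq, ← e2]
  exact Finset.sum_congr rfl fun j _ => mul_comm _ _

/-- INJ: equal traces of words of length two and three -/
theorem conj_of_tr {u u' : κ → Matrix I I ℂ} (hu : Submodule.span ℂ (Set.range u) = ⊤)
    (h2 : ∀ r s, trace (u r * u s) = trace (u' r * u' s))
    (h3 : ∀ r s t, trace (u r * u s * u t) = trace (u' r * u' s * u' t)) :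
    ∃ g : Matrix I I ℂ, IsUnit g ∧ (∀ r, u' r * g = g * u r) ∧
      ∀ x x', (∀ r, trace (u r * x) = trace (u' r * x')) → x' * g = g * x := by
  have hu' := yj6_span hu h2
  obtain ⟨T, hT⟩ := yj6_lin hu u' fun c hc => by
    refine yj6_nd_span hu' fun s => ?_
    rw [yj6_lc]
    simp only [← h2]
    rw [← yj6_lc, hc, Matrix.zero_mul, trace_zero]
  have hB : ∀ a b, trace (T a * T b) = trace (a * b) := by
    intro a b
    exact yj6_bil hu
      (((LinearMap.mul ℂ (Matrix I I ℂ)).compl₁₂ T T).compr₂ (Matrix.traceLinearMap I ℂ ℂ))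
      ((LinearMap.mul ℂ (Matrix I I ℂ)).compr₂ (Matrix.traceLinearMap I ℂ ℂ))
      (fun r s => by simp [hT, h2]) a b
  have hm : ∀ a b, T (a * b) = T a * T b := by
    intro a b
    refine yj6_bil hu ((LinearMap.mul ℂ (Matrix I I ℂ)).compr₂ T)
      ((LinearMap.mul ℂ (Matrix I I ℂ)).compl₁₂ T T) (fun r s => ?_) a b
    simp only [LinearMap.compr₂_apply, LinearMap.mul_apply', LinearMap.compl₁₂_apply, hT]
    refine yj6_ext_span hu' fun t => ?_
    rw [← h3, ← hT t, hB]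
  have hi : Function.Injective T := by
    rw [injective_iff_map_eq_zero]
    intro a ha
    refine yj6_nd fun z => ?_
    rw [← hB, ha, Matrix.zero_mul, trace_zero]
  obtain ⟨g, hg, hc⟩ := yj6_sn T hi hm
  refine ⟨g, hg, fun r => by rw [← hT, hc], fun x x' hx => ?_⟩
  have : x' = T x := by
    refine yj6_ext_span hu' fun r => ?_
    rw [trace_mul_comm, ← hx, ← hT, hB, trace_mul_comm]
  rw [this, hc]

/-- IMM: the derivatives of the traces of words of length two and three vanish -/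
theorem inner_of_tr {u w : κ → Matrix I I ℂ} (hu : Submodule.span ℂ (Set.range u) = ⊤)
    (h2 : ∀ r s, trace (w r * u s) + trace (u r * w s) = 0)
    (h3 : ∀ r s t, trace (w r * u s * u t) + trace (u r * w s * u t) + trace (u r * u s * w t) = 0) :
    ∃ h : Matrix I I ℂ, (∀ r, w r = h * u r - u r * h) ∧
      ∀ x y, (∀ r, trace (w r * x) + trace (u r * y) = 0) → y = h * x - x * h := by
  obtain ⟨T, hT⟩ := yj6_lin hu w fun c hc => by
    refine yj6_nd_span hu fun s => ?_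
    rw [yj6_lc]
    have e : ∀ r, trace (w r * u s) = trace (u r * (-w s)) := fun r => by
      rw [Matrix.mul_neg, trace_neg, eq_neg_iff_add_eq_zero, h2]
    simp only [e]
    rw [← yj6_lc, hc, Matrix.zero_mul, trace_zero]
  have hB : ∀ a b, trace (T a * b) = -trace (a * T b) := by
    intro a b
    exact yj6_bil hu
      (((LinearMap.mul ℂ (Matrix I I ℂ)).compl₁₂ T LinearMap.id).compr₂
        (Matrix.traceLinearMap I ℂ ℂ))
      (-((LinearMap.mul ℂ (Matrix I I ℂ)).compl₁₂ LinearMap.id T).compr₂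
        (Matrix.traceLinearMap I ℂ ℂ))
      (fun r s => by simpa [hT, eq_neg_iff_add_eq_zero] using h2 r s) a b
  have hm : ∀ a b, T (a * b) = T a * b + a * T b := by
    intro a b
    refine yj6_bil hu ((LinearMap.mul ℂ (Matrix I I ℂ)).compr₂ T)
      ((LinearMap.mul ℂ (Matrix I I ℂ)).compl₁₂ T LinearMap.id +
        (LinearMap.mul ℂ (Matrix I I ℂ)).compl₁₂ LinearMap.id T) (fun r s => ?_) a b
    simp only [LinearMap.compr₂_apply, LinearMap.mul_apply', LinearMap.compl₁₂_apply, hT,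
      LinearMap.add_apply, LinearMap.id_apply]
    refine yj6_ext_span hu fun t => ?_
    rw [hB, hT, Matrix.add_mul, trace_add, neg_eq_iff_add_eq_zero, add_comm]
    exact h3 r s t
  obtain ⟨h, hh⟩ := yj6_inner T hm
  refine ⟨h, fun r => by rw [← hT, hh], fun x y hx => ?_⟩
  rw [← hh]
  refine yj6_ext_span hu fun r => ?_
  have e := hB (u r) x
  rw [hT] at e
  rw [trace_mul_comm, trace_mul_comm (T x)]
  have := hx r
  rw [e] at this
  linear_combination this

lemma yj6_span_smul {L : κ → Matrix I I ℂ} (hL : Submodule.span ℂ (Set.range L) = ⊤) {a : ℂ}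
    (ha : a ≠ 0) : Submodule.span ℂ (Set.range fun r => a • L r) = ⊤ := by
  rw [eq_top_iff, ← hL, Submodule.span_le]
  rintro _ ⟨r, rfl⟩
  have : L r = a⁻¹ • (a • L r) := by rw [smul_smul, inv_mul_cancel₀ ha, one_smul]
  rw [this]
  exact Submodule.smul_mem _ _ (Submodule.subset_span ⟨r, rfl⟩)

/-- INJ, homogeneous form: the tuples `(S S S, S tr L L, tr L L L)` are proportional -/
theorem conj_of_hom {L L' : κ → Matrix I I ℂ} (hL : Submodule.span ℂ (Set.range L) = ⊤)
    {S S' c : ℂ} (hS : S ≠ 0) (hc : c ≠ 0) (h0 : S' * S' * S' = c * (S * S * S))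
    (h2 : ∀ r s, S' * trace (L' r * L' s) = c * (S * trace (L r * L s)))
    (h3 : ∀ r s t, trace (L' r * L' s * L' t) = c * trace (L r * L s * L t)) :
    ∃ g : Matrix I I ℂ, IsUnit g ∧
      ∀ x x', (∀ r, S' * S' * trace (L' r * x') = c * (S * S * trace (L r * x))) →
        x' * g = g * x := by
  have hS' : S' ≠ 0 := by
    rintro rfl
    exact mul_ne_zero hc (mul_ne_zero (mul_ne_zero hS hS) hS) (by rw [← h0]; ring)
  have hcc : c = S' * S' * S' / (S * S * S) := by rw [h0]; field_simp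
  obtain ⟨g, hg, -, hx⟩ := conj_of_tr (u' := fun r => S'⁻¹ • L' r)
    (yj6_span_smul hL (inv_ne_zero hS))
    (fun r s => by
      simp only [Matrix.smul_mul, Matrix.mul_smul, trace_smul, smul_eq_mul]
      have := h2 r s
      rw [hcc] at this
      field_simp at this ⊢
      linear_combination -this)
    (fun r s t => by
      simp only [Matrix.smul_mul, Matrix.mul_smul, trace_smul, smul_eq_mul]
      have := h3 r s t
      rw [hcc] at this
      field_simp at this ⊢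
      linear_combination -this)
  refine ⟨g, hg, fun x x' h => hx x x' fun r => ?_⟩
  simp only [Matrix.smul_mul, trace_smul, smul_eq_mul]
  have := h r
  rw [hcc] at this
  field_simp at this ⊢
  linear_combination -this

/-- IMM, homogeneous form: the derivative of the tuple is a multiple of the tuple -/
theorem inner_of_hom {L dL : κ → Matrix I I ℂ} (hL : Submodule.span ℂ (Set.range L) = ⊤)
    {S dS c : ℂ} (hS : S ≠ 0) (h0 : 3 * (S * S * dS) = c * (S * S * S))
    (h2 : ∀ r s, dS * trace (L r * L s) + S * (trace (dL r * L s) + trace (L r * dL s)) =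
      c * (S * trace (L r * L s)))
    (h3 : ∀ r s t, trace (dL r * L s * L t) + trace (L r * dL s * L t) + trace (L r * L s * dL t) =
      c * trace (L r * L s * L t)) :
    ∃ h : Matrix I I ℂ,
      ∀ x y, (∀ r, 2 * (S * dS) * trace (L r * x) + S * S * (trace (dL r * x) + trace (L r * y)) =
        c * (S * S * trace (L r * x))) → y = h * x - x * h := by
  have hcc : c = 3 * dS / S := by
    field_simp
    have : S * S * (c * S - 3 * dS) = 0 := by linear_combination -h0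
    have h1 := (mul_eq_zero.1 this).resolve_left (mul_ne_zero hS hS)
    linear_combination h1
  obtain ⟨h, -, hx⟩ := inner_of_tr (w := fun r => dL r - (dS / S) • L r) hL
    (fun r s => by
      simp only [Matrix.smul_mul, Matrix.mul_smul, trace_smul, smul_eq_mul, Matrix.sub_mul,
        Matrix.mul_sub, trace_sub]
      have := h2 r s
      rw [hcc] at this
      field_simp at this ⊢
      linear_combination this)
    (fun r s t => by
      simp only [Matrix.smul_mul, Matrix.mul_smul, trace_smul, smul_eq_mul, Matrix.sub_mul,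
        Matrix.mul_sub, trace_sub]
      have := h3 r s t
      rw [hcc] at this
      field_simp at this ⊢
      linear_combination this)
  refine ⟨h, fun x y hy => hx x y fun r => ?_⟩
  simp only [Matrix.smul_mul, trace_smul, smul_eq_mul, Matrix.sub_mul, trace_sub]
  have := hy r
  rw [hcc] at this
  field_simp at this ⊢
  linear_combination this

end Pool.Agent.CS
end
end

-- part Pool.Agent.P.MP_d34769_ag.YJ7
section

/-! The embedding by traces. -/

open Matrix Filter Topology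

set_option linter.unusedSectionVars false

noncomputable section
namespace Pool.Agent.CS

variable {I : Type} [Fintype I] [DecidableEq I]

theorem yj7_diff {F : Rp I → ℂ} (h : IsPoly cr F) (ρ v : Rp I) :
    DifferentiableAt ℂ (fun z : ℂ => F (ρ + z • v)) 0 := by
  obtain ⟨P, hP⟩ := h
  simp only [hP]
  clear hP
  induction P using MvPolynomial.induction_on with
  | C a => simp
  | add p q hp hq => simpa only [map_add] using hp.fun_add hq
  | mul_X p t hp =>
    simp only [map_mul, MvPolynomial.eval_X]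
    refine hp.fun_mul ?_
    rcases t with ⟨a, i, j⟩ | ⟨i, r⟩
    · show DifferentiableAt ℂ (fun z : ℂ => ρ a i j + z * v a i j) 0
      fun_prop
    · exact r.elim0

/-- the value and the derivative at zero of a curve of matrices -/
structure Yj7D (f : ℂ → Matrix I I ℂ) (x y : Matrix I I ℂ) : Prop where
  val : f 0 = x
  der : ∀ i j, HasDerivAt (fun z => f z i j) (y i j) 0

theorem Yj7D.mul {f g : ℂ → Matrix I I ℂ} {x y x' y' : Matrix I I ℂ} (h : Yj7D f x y)
    (k : Yj7D g x' y') : Yj7D (fun z => f z * g z) (x * x') (y * x' + x * y') := by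
  refine ⟨by rw [h.1, k.1], fun i j => ?_⟩
  have := HasDerivAt.fun_sum (u := Finset.univ) fun l _ => (h.2 i l).fun_mul (k.2 l j)
  simpa only [Matrix.mul_apply, Matrix.add_apply, h.1, k.1, Finset.sum_add_distrib] using this

theorem Yj7D.tr {f : ℂ → Matrix I I ℂ} {x y : Matrix I I ℂ} (h : Yj7D f x y) :
    HasDerivAt (fun z => trace (f z)) (trace y) 0 :=
  HasDerivAt.fun_sum (u := Finset.univ) fun l _ => h.2 l l

theorem yj7_tr {A : Rp I → Matrix I I ℂ} (h : ∀ i j, IsPoly cr fun ρ => A ρ i j) :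
    IsPoly cr fun ρ => trace (A ρ) := IsPoly.sum Finset.univ fun i _ => h i i

namespace Dat
variable {D : Dat I} {ρ : Rp I}

/-- the arrows and the projections -/
def yj7X (D : Dat I) (ρ : Rp I) : Fin 3 ⊕ I → Matrix I I ℂ :=
  Sum.elim ρ fun i => pr {j | D.cc i j}

theorem yj7_act {g : Matrix I I ℂ} (hg : g ∈ D.base.P) (ρ : Rp I) (x : Fin 3 ⊕ I) :
    D.yj7X (actR g ρ) x = g * D.yj7X ρ x * g⁻¹ := by
  rcases x with a | i
  · rfl
  · have : g * pr {j | D.cc i j} = pr {j | D.cc i j} * g :=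
      (ye2_pr_comm fun a b c => D.mem_base_Lie.1 hg.1 a b fun d =>
        c ⟨fun e => D.cc_eq.trans e d, fun e => D.cc_eq.trans e (D.cc_eq.symm d)⟩).symm
    simp only [yj7X, Sum.elim_inr]
    rw [this, mul_nonsing_inv_cancel_right _ _ hg.2]

theorem yj7_lie {g : Matrix I I ℂ} (h : ∀ i, pr {j | D.cc i j} * g = g * pr {j | D.cc i j}) :
    g ∈ D.base.Lie := D.mem_base_Lie.2 fun i j c => by
  have := congrFun₂ (h i) i j
  rwa [pr_mul_apply, mul_pr_apply, if_pos (show i ∈ {j | D.cc i j} from D.cc_eq.refl i),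
    if_neg (show j ∉ {j | D.cc i j} from c)] at this

/-- the homogeneous coordinates -/
def Uni0.T (u : D.Uni0) (ρ : Rp I) : Fin u.N ⊕ (Fin u.N × Fin u.N × Fin u.N) ⊕
    (Fin u.N × Fin u.N × Fin u.N) ⊕ Fin u.N × Fin u.N × (Fin 3 ⊕ I) → ℂ
  | .inl k => u.S k ρ * u.S k ρ * u.S k ρ
  | .inr (.inl x) => u.S x.1 ρ * trace (u.L x.2.1 ρ * u.L x.2.2 ρ)
  | .inr (.inr (.inl x)) => trace (u.L x.1 ρ * u.L x.2.1 ρ * u.L x.2.2 ρ)
  | .inr (.inr (.inr x)) => u.S x.1 ρ * u.S x.1 ρ * trace (u.L x.2.1 ρ * D.yj7X ρ x.2.2)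

theorem Uni0.T_act (u : D.Uni0) {g : Matrix I I ℂ} (hg : g ∈ D.base.P) (ρ : Rp I) :
    D.ch g ^ (3 * u.A) • u.T (actR g ρ) = u.T ρ := by
  have c0 : D.ch g ^ u.A ≠ 0 := pow_ne_zero _ (ch_ne hg)
  have hS : ∀ k, u.S k (actR g ρ) = (D.ch g ^ u.A)⁻¹ * u.S k ρ := fun k => by
    rw [← (u.si k).act g hg ρ, inv_mul_cancel_left₀ c0]
  have hL : ∀ k, u.L k (actR g ρ) = (D.ch g ^ u.A)⁻¹ • (g * u.L k ρ * g⁻¹) := fun k => by
    rw [← (u.cv k).act g hg ρ, inv_smul_smul₀ c0]
  have m : ∀ x y : Matrix I I ℂ, g * x * g⁻¹ * (g * y * g⁻¹) = g * (x * y) * g⁻¹ := fun x y => by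
    simp only [Matrix.mul_assoc, nonsing_inv_mul_cancel_left _ _ hg.2]
  have t : ∀ x : Matrix I I ℂ, trace (g * x * g⁻¹) = trace x := fun x => by
    rw [trace_mul_cycle, nonsing_inv_mul _ hg.2, Matrix.one_mul]
  funext x
  rw [pow_mul']
  rcases x with k | x | x | x <;>
    simp only [Pi.smul_apply, Uni0.T, hS, hL, yj7_act hg, Matrix.smul_mul, Matrix.mul_smul, m,
      trace_smul, t, smul_eq_mul] <;>
    field_simp

theorem Uni0.emb (u : D.Uni0) : ∃ (τ : Type) (_ : Finite τ) (A : ℕ) (T : Rp I → τ → ℂ)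
    (κ : Set τ), D.Emb0 A T κ := by
  have c3 : ∀ z : ℂ, z * z * z ≠ 0 ↔ z ≠ 0 := fun z => by simp
  refine ⟨_, inferInstance, 3 * u.A, u.T, Sum.inl '' u.κ, ?_, fun g hg ρ => u.T_act hg ρ,
    fun ρ hρ hs e => ?_, fun ρ hρ => (u.stb ρ hρ).trans ⟨?_, ?_⟩, fun ρ hρ σ c hc e => ?_,
    fun ρ hρ v c e => ?_⟩
  · have hX : ∀ x i j, IsPoly cr fun ρ => D.yj7X ρ x i j := by
      rintro (a | l) i j
      exacts [poly_cr a i j, IsPoly.const _]
    rintro (k | x | x | x)
    · exact ((u.si k).poly.mul (u.si k).poly).mul (u.si k).poly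
    · exact (u.si _).poly.mul (yj7_tr (IsPoly.mmul (u.cv _).poly (u.cv _).poly))
    · exact yj7_tr (IsPoly.mmul (A := fun ρ => u.L x.1 ρ * u.L x.2.1 ρ)
        (IsPoly.mmul (u.cv _).poly (u.cv _).poly) (u.cv _).poly)
    · exact ((u.si _).poly.mul (u.si _).poly).mul (yj7_tr (IsPoly.mmul (u.cv _).poly (hX _)))
  · obtain ⟨k, hk⟩ := u.ss ρ hρ hs
    exact (c3 _).2 hk (congrFun e (.inl k))
  · rintro ⟨k, hk, h⟩
    exact ⟨_, ⟨k, hk, rfl⟩, (c3 _).2 h⟩
  · rintro ⟨_, ⟨k, hk, rfl⟩, h⟩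
    exact ⟨k, hk, (c3 _).1 h⟩
  · obtain ⟨k, -, hk⟩ := (u.stb ρ hρ.1).1 hρ.2
    obtain ⟨g, hg, hx⟩ := conj_of_hom (L' := fun r => u.L r σ) (S' := u.S k σ) (u.span ρ hρ) hk hc
      (congrFun e (.inl k)) (fun r s => congrFun e (.inr (.inl (k, r, s))))
      fun r s t => congrFun e (.inr (.inr (.inl (r, s, t))))
    have h1 : ∀ x, D.yj7X σ x * g = g * D.yj7X ρ x := fun x =>
      hx _ _ fun r => congrFun e (.inr (.inr (.inr (k, r, x))))
    have h2 := (isUnit_iff_isUnit_det g).1 hg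
    exact ⟨g, ⟨yj7_lie fun i => h1 (.inr i), h2⟩,
      (actR_eq_iff h2).2 fun a => (h1 (.inl a)).symm⟩
  · obtain ⟨k, -, hk⟩ := (u.stb ρ hρ.1).1 hρ.2
    have z0 : ρ + (0 : ℂ) • v = ρ := by simp
    have hS := (yj7_diff (u.si k).poly ρ v).hasDerivAt
    generalize deriv (fun z : ℂ => u.S k (ρ + z • v)) 0 = dS at hS
    obtain ⟨dL, hL⟩ : ∃ dL : Fin u.N → Matrix I I ℂ,
        ∀ r, Yj7D (fun z => u.L r (ρ + z • v)) (u.L r ρ) (dL r) :=
      ⟨fun r => of fun i j => deriv (fun z : ℂ => u.L r (ρ + z • v) i j) 0, fun r =>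
        ⟨by rw [z0], fun i j => (yj7_diff ((u.cv r).poly i j) ρ v).hasDerivAt⟩⟩
    have hX : ∀ x, Yj7D (fun z => D.yj7X (ρ + z • v) x) (D.yj7X ρ x) (x.elim v 0) := by
      rintro (a | l)
      · refine ⟨by rw [z0], fun i j => ?_⟩
        show HasDerivAt (fun z : ℂ => ρ a i j + z * v a i j) (v a i j) 0
        exact (hasDerivAt_mul_const _).const_add _
      · exact ⟨rfl, fun i j => hasDerivAt_const _ _⟩
    obtain ⟨h, hx⟩ := inner_of_hom (dL := dL) (dS := dS) (c := c) (u.span ρ hρ) hk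
      (by
        have := ((hS.fun_mul hS).fun_mul hS).unique (e (.inl k))
        simp only [z0, Uni0.T] at this
        linear_combination this)
      (fun r s => by
        have := (hS.fun_mul ((hL r).mul (hL s)).tr).unique (e (.inr (.inl (k, r, s))))
        simp only [z0, Uni0.T, trace_add] at this
        linear_combination this)
      fun r s t => by
        have := (((hL r).mul (hL s)).mul (hL t)).tr.unique (e (.inr (.inr (.inl (r, s, t)))))
        simp only [Uni0.T, trace_add, Matrix.add_mul] at this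
        linear_combination this
    have h1 : ∀ x : Fin 3 ⊕ I, x.elim v 0 = h * D.yj7X ρ x - D.yj7X ρ x * h := fun x =>
      hx _ _ fun r => by
        have := ((hS.fun_mul hS).fun_mul ((hL r).mul (hX x)).tr).unique
          (e (.inr (.inr (.inr (k, r, x)))))
        simp only [z0, Uni0.T, trace_add] at this
        linear_combination this
    exact ⟨h, yj7_lie fun i => (sub_eq_zero.1 (h1 (.inr i)).symm).symm,
      funext fun a => h1 (.inl a)⟩

end Dat

end Pool.Agent.CS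
end
end

-- part Pool.Agent.P.MP_d34769_ag.YJ7b
section

/-! The image of the stable triples is locally closed and carries the quotient topology. -/

open Matrix Filter Topology Set
open Pool.Agent.HT (Amb proj)

set_option linter.unusedSectionVars false

noncomputable section
namespace Pool.Agent.CS

variable {I : Type} [Fintype I] [DecidableEq I]

namespace Dat
variable {D : Dat I} {τ : Type} {A : ℕ} {T : Rp I → τ → ℂ} {κ : Set τ} {ρ : Rp I}

/-- a compact set of semistable triples that meets every semistable orbit -/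
theorem exists_cpt0 (D : Dat I) : ∃ K : Set (Rp I), IsCompact K ∧
    (∀ ρ ∈ K, ρ ∈ D.base.R ∧ D.SS D.th ρ) ∧
      ∀ ρ ∈ D.base.R, D.SS D.th ρ → ∃ g ∈ D.base.P, actR g ρ ∈ K := by
  let E : Dat I := { D.base with m := Fintype.card I }
  refine ⟨Prod.fst '' E.LL, LL_compact.image continuous_fst, ?_, fun ρ h hs => ?_⟩
  · rintro _ ⟨p, hp, rfl⟩
    exact ⟨hp.1, (LL_st hp).ss⟩
  · obtain ⟨g, hg, k⟩ := exists_LL_base (D := E)
      (p := (ρ, (1 : Matrix I I ℂ).submatrix id (Fintype.equivFin I).symm))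
      (st_iff.2 ⟨h, hs, gen_of_surj _ fun v => ⟨v ∘ (Fintype.equivFin I).symm,
        (submatrix_mulVec_equiv _ _ _ _).trans (funext fun i =>
          (congrFun (one_mulVec _) i).trans (congrArg v ((Fintype.equivFin I).symm_apply_apply i)))⟩⟩)
    exact ⟨g, hg, _, k, rfl⟩

theorem Emb0.cont (h : D.Emb0 A T κ) : Continuous T :=
  continuous_pi fun t => (h.poly t).continuous continuous_cr

theorem Emb0.ne0 (h : D.Emb0 A T κ) (hρ : ρ ∈ D.SR) : T ρ ≠ 0 := h.ss ρ hρ.1 hρ.2.ss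

theorem Emb0.lim (h : D.Emb0 A T κ) {ι : Type} (U : Ultrafilter ι) {y : ι → τ → ℂ} {y0 : τ → ℂ}
    (hy : Tendsto y U (𝓝 y0)) (h1 : ∀ᶠ n in U, ∃ ρ ∈ D.SR, ∃ c : ℂ, y n = c • T ρ) :
    ∃ (q : ι → Rp I) (ρ : Rp I) (c : ℂ), Tendsto q U (𝓝 ρ) ∧ ρ ∈ D.base.R ∧ y0 = c • T ρ ∧
      ∀ᶠ n in U, q n ∈ D.SR ∧ ∃ c : ℂ, y n = c • T (q n) := by
  obtain ⟨K, hK, hs, hm⟩ := D.exists_cpt0
  have h2 : ∀ᶠ n in U, ∃ ρ, ρ ∈ K ∧ ρ ∈ D.SR ∧ ∃ c : ℂ, y n = c • T ρ :=
    h1.mono fun n ⟨ρ, a, c, e⟩ => by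
      obtain ⟨g, hg, k⟩ := hm ρ a.1 a.2.ss
      exact ⟨_, k, ⟨(hs _ k).1, a.2.act hg⟩, c * D.ch g ^ A, by rw [e, ← h.act g hg ρ, smul_smul]⟩
  obtain ⟨q, hq⟩ := h2.choice
  obtain ⟨ρ, h3, h4⟩ := hK.ultrafilter_le_nhds' (U.map q) (mem_map.2 (hq.mono fun _ c => c.1))
  obtain ⟨j, hj⟩ := Function.ne_iff.1 (h.ss ρ (hs ρ h3).1 (hs ρ h3).2)
  have h5 : Tendsto (fun n => T (q n)) U (𝓝 (T ρ)) := (h.cont.tendsto ρ).comp h4
  have h6 := tendsto_pi_nhds.1 h5 j
  refine ⟨q, ρ, y0 j / T ρ j, h4, (hs ρ h3).1, tendsto_nhds_unique hy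
    ((((tendsto_pi_nhds.1 hy j).div h6 hj).smul h5).congr' ?_), hq.mono fun _ c => c.2⟩
  filter_upwards [hq, h6.eventually_ne hj] with n ⟨_, _, c, e⟩ k
  simp only [Pi.div_apply, e, Pi.smul_apply, smul_eq_mul, mul_div_cancel_right₀ _ k]

theorem Emb0.cl (h : D.Emb0 A T κ) {y : τ → ℂ}
    (hy : y ∈ closure {y | ∃ ρ ∈ D.base.R, ∃ c : ℂ, y = c • T ρ}) (hk : ∃ t ∈ κ, y t ≠ 0) :
    ∃ ρ ∈ D.SR, ∃ c : ℂ, y = c • T ρ := by
  obtain ⟨t, ht, h0⟩ := hk
  obtain ⟨U, hU, h1⟩ := mem_closure_iff_ultrafilter.1 hy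
  have h2 : ∀ᶠ z : τ → ℂ in U, z t ≠ 0 := h1 ((continuous_apply t).continuousAt.eventually_ne h0)
  obtain ⟨-, ρ, c, -, h3, e, -⟩ := h.lim U (y := id) h1 (by
    filter_upwards [hU, h2] with z ⟨ρ, a, c, e⟩ k
    exact ⟨ρ, ⟨a, (h.stb ρ a).2 ⟨t, ht, fun d => k (by simp [e, d])⟩⟩, c, e⟩)
  exact ⟨ρ, ⟨h3, (h.stb ρ h3).2 ⟨t, ht, fun d => h0 (by simp [e, d])⟩⟩, c, e⟩

variable {N : ℕ} {T : Rp I → Fin N → ℂ} {κ : Set (Fin N)}

theorem Emb0.proj_act0 (h : D.Emb0 A T κ) {g : Matrix I I ℂ} (hg : g ∈ D.base.P) (ρ : Rp I) :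
    proj (T (actR g ρ)) = proj (T ρ) := by
  rw [← h.act g hg ρ, HIR.proj_smul (pow_ne_zero _ (ch_ne hg))]

theorem Emb0.proj_eq (h : D.Emb0 A T κ) (hρ : ρ ∈ D.SR) {σ : Rp I} (hσ : T σ ≠ 0) :
    proj (T ρ) = proj (T σ) ↔ ∃ g ∈ D.base.P, actR g ρ = σ := by
  refine ⟨fun e => ?_, fun ⟨g, hg, e⟩ => e ▸ (h.proj_act0 hg ρ).symm⟩
  obtain ⟨c, hc, e⟩ := (HIR.proj_eq_iff (h.ne0 hρ) hσ).1 e
  exact h.inj ρ hρ σ c hc e

theorem Emb0.contAt (h : D.Emb0 A T κ) (hρ : ρ ∈ D.SR) : ContinuousAt (fun q => proj (T q)) ρ :=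
  (HIR.cont_proj (h.ne0 hρ)).comp h.cont.continuousAt

theorem Emb0.opn (h : D.Emb0 A T κ) (hρ : ρ ∈ D.SR) :
    𝓝[(fun q => proj (T q)) '' D.SR] proj (T ρ) ≤ map (fun q => proj (T q)) (𝓝[D.SR] ρ) := by
  refine le_iff_ultrafilter.2 fun U hU => ?_
  obtain ⟨j, hj⟩ := Function.ne_iff.1 (h.ne0 hρ)
  have c1 : Continuous fun (x : Amb N) i => x (i, j) := by fun_prop
  obtain ⟨q, σ, c, h1, h2, h3, h4⟩ := h.lim U ((c1.tendsto _).mono_left
    (hU.trans nhdsWithin_le_nhds)) (mem_of_superset (hU self_mem_nhdsWithin) (by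
      rintro _ ⟨σ, a, rfl⟩
      exact ⟨σ, a, _, HIR.proj_col _ j⟩))
  have key : ∀ (w v : Fin N → ℂ) (c : ℂ), proj w (j, j) ≠ 0 → (fun i => proj w (i, j)) = c • v →
      v ≠ 0 ∧ proj v = proj w := fun w v c a e => by
    have b : c * v j ≠ 0 := (congrFun e j).symm.trans_ne a
    have d := (congrFun (HIR.proj_col w j) j).symm.trans_ne a
    refine ⟨fun f => right_ne_zero_of_mul b (congrFun f j), ?_⟩
    rw [← HIR.proj_smul (left_ne_zero_of_mul b), ← e, HIR.proj_col,
      HIR.proj_smul (left_ne_zero_of_mul d)]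
  have h5 : proj (T ρ) (j, j) ≠ 0 := fun e => hj ((HIR.proj_diag (h.ne0 hρ) j).1 e)
  obtain ⟨h6, h7⟩ := key _ _ c h5 h3
  obtain ⟨g, hg, rfl⟩ := (h.proj_eq hρ h6).1 h7.symm
  have hi := D.base.inv_mem_P hg
  have h8 : Tendsto (fun x => actR g⁻¹ (q x)) U (𝓝[D.SR] ρ) := tendsto_nhdsWithin_iff.2
    ⟨by simpa only [actR_inv hg.2] using tendsto_actR hi.2 tendsto_const_nhds h1,
      h4.mono fun x a => ⟨actR_mem hi a.1.1, a.1.2.act hi⟩⟩
  have c2 : Continuous fun x : Amb N => x (j, j) := by fun_prop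
  refine Tendsto.congr' (f₂ := id) ?_ (tendsto_map.comp h8)
  filter_upwards [h4, hU self_mem_nhdsWithin,
    (hU.trans nhdsWithin_le_nhds) (c2.continuousAt.eventually_ne h5)]
  rintro _ ⟨-, c, e⟩ ⟨σ, -, rfl⟩ a
  exact (h.proj_act0 hi _).trans (key _ _ c a e).2

theorem Emb0.eq_iff (h : D.Emb0 A T κ) (hρ : ρ ∈ D.SR) {σ : Rp I} (hσ : σ ∈ D.SR) :
    proj (T ρ) = proj (T σ) ↔ ∃ g ∈ D.base.P, actR g ρ = σ := h.proj_eq hρ (h.ne0 hσ)

theorem Emb0.nhds_map (h : D.Emb0 A T κ) (hρ : ρ ∈ D.SR) :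
    map (fun σ => proj (T σ)) (𝓝[D.SR] ρ) = 𝓝[(fun σ => proj (T σ)) '' D.SR] proj (T ρ) :=
  le_antisymm ((h.contAt hρ).continuousWithinAt.tendsto_nhdsWithin (mapsTo_image _ _)) (h.opn hρ)

end Dat

end Pool.Agent.CS
end
end

-- part Pool.Agent.P.MP_d34769_ag.YJ7c
section

/-! Slices and charts of the space of stable orbits without framing. -/

open Matrix Filter Topology Set
open Pool.Agent.HT (Amb proj)

set_option linter.unusedSectionVars false

noncomputable section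
namespace Pool.Agent.CS

variable {I : Type} [Fintype I] [DecidableEq I]

/-- the infinitesimal action on triples -/
def inf0 (ρ : Rp I) : Matrix I I ℂ →ₗ[ℂ] Rp I where
  toFun u a := u * ρ a - ρ a * u
  map_add' u v := funext fun a => by simp [Matrix.add_mul, Matrix.mul_add]; abel
  map_smul' c u := funext fun a => by simp [smul_sub]

theorem tendsto_slice0 {e : ℕ} (ρ : Rp I) (L : (Fin e → ℂ) →ₗ[ℂ] Rp I) :
    Tendsto (fun n => ρ + L n) (𝓝 0) (𝓝 ρ) := by
  have hc : Continuous fun n => ρ + L n := continuous_const.add L.continuous_of_finiteDimensional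
  have := hc.tendsto 0
  rwa [map_zero, add_zero] at this

theorem an_slice0 {e : ℕ} {F : Rp I → ℂ} (hF : IsPoly cr F) (ρ : Rp I)
    (L : (Fin e → ℂ) →ₗ[ℂ] Rp I) (z : Fin e → ℂ) : AnalyticAt ℂ (fun n => F (ρ + L n)) z := by
  obtain ⟨P, hP⟩ := hF
  have := an_aff (cr ρ) ((coL I 0).toLinearMap ∘ₗ LinearMap.inl ℂ _ _ ∘ₗ L) P z
  refine this.congr (Eventually.of_forall fun n => ?_)
  beta_reduce
  rw [hP]
  refine congrArg (fun x => MvPolynomial.eval x P) ?_
  show coL I 0 (ρ, 0) + coL I 0 (L n, 0) = coL I 0 (ρ + L n, 0)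
  rw [← map_add, Prod.mk_add_mk, add_zero]

namespace Dat
variable (D : Dat I)

/-- `L` parametrises a complement of the tangent space of the orbit -/
structure Slice0 (ρ : Rp I) (L : (Fin D.dim0 → ℂ) →ₗ[ℂ] Rp I) : Prop where
  mem : ∀ n, L n ∈ D.base.R
  ind : ∀ u ∈ D.base.Lie, ∀ n, inf0 ρ u = L n → n = 0
  span : ∀ q ∈ D.base.R, ∃ u ∈ D.base.Lie, ∃ n, q = inf0 ρ u + L n

variable {D} {ρ : Rp I} {L : (Fin D.dim0 → ℂ) →ₗ[ℂ] Rp I}

theorem yj7c_mem {u v : Matrix I I ℂ} {p q : Rp I} (hu : u ∈ D.Lie) (hv : v ∈ D.Lie)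
    (hp : p ∈ D.R) (hq : q ∈ D.R) : (fun a => u * p a - q a * v) ∈ D.R := by
  have h1 := D.R.sub_mem (mul_mem_R hu D.one_mem_Lie hp) (mul_mem_R D.one_mem_Lie hv hq)
  simp only [Matrix.mul_one, Matrix.one_mul] at h1
  exact h1

/-- the infinitesimal action with values in the space of representations -/
def infR (hρ : ρ ∈ D.base.R) : D.base.Lie →ₗ[ℂ] D.base.R :=
  ((inf0 ρ).domRestrict D.base.Lie).codRestrict D.base.R fun u => yj7c_mem u.2 u.2 hρ hρ

theorem infR_ker (hρ : ρ ∈ D.SR) : Module.finrank ℂ (LinearMap.ker (infR hρ.1)) = 1 := by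
  have hne := hρ.2.1
  have e : LinearMap.ker (infR hρ.1) =
      Submodule.span ℂ {(⟨1, D.base.one_mem_Lie⟩ : D.base.Lie)} := by
    refine le_antisymm (fun u hu => ?_) ((Submodule.span_singleton_le_iff_mem _ _).2
      (Subtype.ext (funext fun a => ?_)))
    · obtain ⟨c, hc⟩ := hρ.2.scalar u.2 fun a =>
        sub_eq_zero.1 (congrFun (congrArg Subtype.val hu) a)
      exact Submodule.mem_span_singleton.2 ⟨c, Subtype.ext hc.symm⟩
    · show 1 * ρ a - ρ a * 1 = 0
      simp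
  rw [e]
  exact finrank_span_singleton fun c => one_ne_zero (congrArg Subtype.val c)

theorem dim0_range (hρ : ρ ∈ D.SR) :
    Module.finrank ℂ (LinearMap.range (infR hρ.1)) + D.dim0 = Module.finrank ℂ D.base.R := by
  have h1 := LinearMap.finrank_range_add_finrank_ker (infR hρ.1)
  have h2 := Submodule.finrank_le (LinearMap.range (infR hρ.1))
  rw [infR_ker hρ] at h1
  unfold dim0
  omega

theorem dim0_add (hρ : ρ ∈ D.SR) :
    D.dim0 + Module.finrank ℂ D.base.Lie = Module.finrank ℂ D.base.R + 1 := by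
  have h1 := LinearMap.finrank_range_add_finrank_ker (infR hρ.1)
  have h2 := dim0_range hρ
  rw [infR_ker hρ] at h1
  omega

theorem exists_slice0 (hρ : ρ ∈ D.SR) : ∃ L, D.Slice0 ρ L := by
  obtain ⟨C, hC⟩ := (LinearMap.range (infR hρ.1)).exists_isCompl
  have h1 := Submodule.finrank_add_eq_of_isCompl hC
  rw [← dim0_range hρ] at h1
  have : Module.Free ℂ C := Module.Free.of_divisionRing ℂ C
  have e : (Fin D.dim0 → ℂ) ≃ₗ[ℂ] C := LinearEquiv.ofFinrankEq _ _ (by simp; omega)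
  refine ⟨D.base.R.subtype ∘ₗ C.subtype ∘ₗ e.toLinearMap, fun n => (e n).1.2, fun u hu n h => ?_,
    fun q hq => ?_⟩
  · have h2 : (e n).1 = 0 := (Submodule.disjoint_def.1 hC.disjoint) _
      ⟨⟨u, hu⟩, Subtype.ext h⟩ (e n).2
    exact e.injective (by rw [map_zero]; exact Subtype.ext h2)
  · obtain ⟨_, ⟨u, rfl⟩, z, hz, h⟩ := Submodule.mem_sup.1
      (hC.sup_eq_top.ge (Submodule.mem_top (x := (⟨q, hq⟩ : D.base.R))))
    refine ⟨u, u.2, e.symm ⟨z, hz⟩, ?_⟩
    show q = inf0 ρ u + (e (e.symm ⟨z, hz⟩)).1.1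
    rw [e.apply_symm_apply]
    exact (congrArg Subtype.val h).symm

theorem Slice0.ev (h : D.Slice0 ρ L) (hρ : ρ ∈ D.SR) : ∀ᶠ n in 𝓝 0, ρ + L n ∈ D.SR :=
  ((tendsto_slice0 ρ L).eventually (stb_ev hρ.2)).mono fun n c =>
    ⟨D.base.R.add_mem hρ.1 (h.mem n), c (D.base.R.add_mem hρ.1 (h.mem n))⟩

/-- the quadratic part of the equation of a slice -/
def Slice0.quad (h : D.Slice0 ρ L) : (D.base.Lie × (Fin D.dim0 → ℂ) × D.base.R) →ₗ[ℂ]
    (D.base.Lie × (Fin D.dim0 → ℂ) × D.base.R) →ₗ[ℂ] D.base.R × D.base.R :=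
  LinearMap.mk₂ ℂ (fun x y => (⟨fun a => x.1.1 * y.2.2.1 a - L x.2.1 a * y.1.1,
      yj7c_mem x.1.2 y.1.2 y.2.2.2 (h.mem x.2.1)⟩, 0))
    (fun x x' y => Prod.ext (Subtype.ext (funext fun a => by
      simp [Matrix.add_mul]; abel)) (by simp))
    (fun c x y => Prod.ext (Subtype.ext (funext fun a => by simp [smul_sub])) (by simp))
    (fun x y y' => Prod.ext (Subtype.ext (funext fun a => by
      simp [Matrix.mul_add]; abel)) (by simp))
    (fun c x y => Prod.ext (Subtype.ext (funext fun a => by simp [smul_sub])) (by simp))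

/-- near a stable triple every triple is conjugate to a point of the slice -/
theorem Slice0.near (h : D.Slice0 ρ L) (hρ : ρ ∈ D.base.R) {p : (Fin D.dim0 → ℂ) → Prop}
    (hp : ∀ᶠ n in 𝓝 0, p n) :
    ∀ᶠ q in 𝓝 ρ, q ∈ D.base.R → ∃ g ∈ D.base.P, ∃ n, p n ∧ actR g q = ρ + L n := by
  obtain ⟨Λ, hΛ⟩ : ∃ Λ : (D.base.Lie × (Fin D.dim0 → ℂ) × D.base.R) →ₗ[ℂ] D.base.R × D.base.R,
      ∀ x, Λ x = (infR hρ x.1 - L.codRestrict D.base.R h.mem x.2.1 + x.2.2, x.2.2) :=
    ⟨LinearMap.prod ((infR hρ) ∘ₗ LinearMap.fst _ _ _ -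
      L.codRestrict D.base.R h.mem ∘ₗ LinearMap.fst _ _ _ ∘ₗ LinearMap.snd _ _ _ +
        LinearMap.snd _ _ _ ∘ₗ LinearMap.snd _ _ _) (LinearMap.snd _ _ _ ∘ₗ LinearMap.snd _ _ _),
      fun _ => rfl⟩
  have hs : Function.Surjective Λ := fun y => by
    obtain ⟨u, hu, n, e⟩ := h.span _ (y.1 - y.2).2
    refine ⟨(⟨u, hu⟩, -n, y.2), ?_⟩
    rw [hΛ, map_neg, sub_neg_eq_add]
    exact Prod.ext (eq_sub_iff_add_eq.1 (Subtype.ext e.symm)) rfl
  have h1 : ∀ᶠ x : D.base.Lie × (Fin D.dim0 → ℂ) × D.base.R in 𝓝 0, (1 + x.1.1).det ≠ 0 ∧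
      p x.2.1 := by
    have ht : Tendsto (fun x : D.base.Lie × (Fin D.dim0 → ℂ) × D.base.R => x.2.1) (𝓝 0) (𝓝 0) :=
      (continuous_fst.comp continuous_snd).tendsto 0
    refine Eventually.and ?_ (ht.eventually hp)
    have hc : Continuous fun x : D.base.Lie × (Fin D.dim0 → ℂ) × D.base.R => (1 + x.1.1).det :=
      (continuous_const.add (continuous_subtype_val.comp continuous_fst)).matrix_det
    exact hc.continuousAt.eventually_ne (by simp)
  have h2 := image_mem_map (m := fun x => Λ x + h.quad x x) h1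
  rw [open_quad Λ hs h.quad] at h2
  have h3 : Tendsto (fun y : D.base.R => ((0 : D.base.R), y)) (𝓝 0) (𝓝 0) :=
    (continuous_const.prodMk continuous_id).tendsto 0
  obtain ⟨T, hT, h4⟩ := (mem_nhds_subtype _ _ _).1 (h3 h2)
  have h5 : Tendsto (fun q : Rp I => q - ρ) (𝓝 ρ) (𝓝 0) := by
    have hc : Continuous fun q : Rp I => q - ρ := continuous_id.sub continuous_const
    have := hc.tendsto ρ
    rwa [sub_self] at this
  refine mem_of_superset (h5 hT) fun q hq hq' => ?_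
  obtain ⟨x, ⟨hx1, hx2⟩, e⟩ := h4 (a := ⟨q - ρ, D.base.R.sub_mem hq' hρ⟩) hq
  have hg : 1 + x.1.1 ∈ D.base.P :=
    ⟨D.base.Lie.add_mem D.base.one_mem_Lie x.1.2, isUnit_iff_ne_zero.2 hx1⟩
  beta_reduce at e
  rw [hΛ] at e
  have e2 : x.2.2.1 = q - ρ := by
    have := congrArg (fun z : D.base.R × D.base.R => z.2.1) e
    simpa [Slice0.quad] using this
  have e1 : inf0 ρ x.1.1 - L x.2.1 + x.2.2.1 +
      (fun a => x.1.1 * x.2.2.1 a - L x.2.1 a * x.1.1) = 0 :=
    congrArg (fun z : D.base.R × D.base.R => z.1.1) e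
  rw [e2] at e1
  refine ⟨_, hg, _, hx2, (actR_eq_iff hg.2).2 fun a => ?_⟩
  have e4 : x.1.1 * ρ a - ρ a * x.1.1 - L x.2.1 a + (q a - ρ a) +
      (x.1.1 * (q a - ρ a) - L x.2.1 a * x.1.1) = 0 := congrFun e1 a
  show (1 + x.1.1) * q a = (ρ a + L x.2.1 a) * (1 + x.1.1)
  rw [← sub_eq_zero, ← e4]
  noncomm_ring

theorem Slice0.map_eq (h : D.Slice0 ρ L) (hρ : ρ ∈ D.SR) {Y : Type} {F : Rp I → Y}
    (hF : ∀ g ∈ D.base.P, ∀ q, F (actR g q) = F q) :
    map (fun n => F (ρ + L n)) (𝓝 0) = map F (𝓝[D.SR] ρ) := by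
  refine le_antisymm (tendsto_map.comp (tendsto_nhdsWithin_iff.2 ⟨tendsto_slice0 ρ L, h.ev hρ⟩))
    fun S hS => ?_
  refine mem_map.2 (mem_of_superset (inter_mem (nhdsWithin_le_nhds
    (h.near hρ.1 (p := fun n => F (ρ + L n) ∈ S) hS)) self_mem_nhdsWithin) fun q hq => ?_)
  obtain ⟨g, hg, n, hn, e⟩ := hq.1 hq.2.1
  show F q ∈ S
  rwa [← hF g hg q, e]

variable {N A : ℕ} {T : Rp I → Fin N → ℂ} {κ : Set (Fin N)}

theorem Emb0.proj_act (h : D.Emb0 A T κ) {g : Matrix I I ℂ} (hg : g ∈ D.base.P) (q : Rp I) :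
    proj (T (actR g q)) = proj (T q) := by
  rw [← h.act g hg q, HIR.proj_smul (pow_ne_zero A (ch_ne hg))]

theorem Emb0.ne (h : D.Emb0 A T κ) (hρ : ρ ∈ D.SR) : T ρ ≠ 0 := by
  obtain ⟨t, -, ht⟩ := (h.stb ρ hρ.1).1 hρ.2
  exact fun c => ht (congrFun c t)

theorem Emb0.slice_chart (h : D.Emb0 A T κ) (hL : D.Slice0 ρ L) (hρ : ρ ∈ D.SR) {X : Set (Amb N)}
    (hX : map (fun q => proj (T q)) (𝓝[D.SR] ρ) = 𝓝[X] proj (T ρ)) :
    HIR.Pt X (fun n => proj (T (ρ + L n))) 0 (proj (T ρ)) := by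
  have e : T (ρ + L 0) = T ρ := by rw [map_zero, add_zero]
  have ha : AnalyticAt ℂ (fun n => T (ρ + L n)) 0 :=
    analyticAt_pi_iff.2 fun k => an_slice0 (h.poly k) ρ L 0
  have := HIR.pt_of_imm (X := X) (g := fun n => T (ρ + L n)) (z := 0) ha
    (by rw [e]; exact h.ne hρ) (fun v c hv => by
      rw [e] at hv
      obtain ⟨u, hu, e'⟩ := h.imm ρ hρ (L v) c fun t => by
        have h1 : HasDerivAt (fun z : ℂ => z • v) v 0 := by
          simpa using (hasDerivAt_id (0 : ℂ)).smul_const v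
        have h2 := HasFDerivAt.comp_hasDerivAt_of_eq (0 : ℂ) ha.differentiableAt.hasFDerivAt h1
          (zero_smul ℂ v).symm
        rw [hv] at h2
        have h3 := (hasDerivAt_pi.1 h2) t
        simpa [Function.comp_def] using h3
      exact hL.ind u hu v e'.symm)
    (by rw [e, ← hX]; exact hL.map_eq hρ (F := fun q => proj (T q)) fun g hg q => h.proj_act hg q)
  rwa [e] at this

/-- the image of the stable triples has a chart of dimension `dim0` at every point -/
theorem Emb0.chart (h : D.Emb0 A T κ) (hρ : ρ ∈ D.SR) {X : Set (Amb N)}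
    (hX : map (fun q => proj (T q)) (𝓝[D.SR] ρ) = 𝓝[X] proj (T ρ)) :
    ∃ (φ : HIR.E D.dim0 → Amb N) (z : HIR.E D.dim0), HIR.Pt X φ z (proj (T ρ)) := by
  obtain ⟨L, hL⟩ := exists_slice0 hρ
  exact ⟨_, _, h.slice_chart hL hρ hX⟩

end Dat

end Pool.Agent.CS
end
end

-- part Pool.Agent.P.MP_d34769_ag.YJ7r
section

/-! The embedding can be chosen real. -/

open Matrix Filter Topology

set_option linter.unusedSectionVars false

noncomputable section
namespace Pool.Agent.CS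

variable {I : Type} [Fintype I] [DecidableEq I]

/-- the conjugate subspace -/
def cjS (U : Submodule ℂ (I → ℂ)) : Submodule ℂ (I → ℂ) where
  carrier := {v | star v ∈ U}
  add_mem' {a b} ha hb := show star (a + b) ∈ U from star_add a b ▸ U.add_mem ha hb
  zero_mem' := show star 0 ∈ U from (star_zero (I → ℂ)).symm ▸ U.zero_mem
  smul_mem' c v hv := show star (c • v) ∈ U from star_smul c v ▸ U.smul_mem (star c) hv

theorem mem_cjS {U : Submodule ℂ (I → ℂ)} {v : I → ℂ} : v ∈ cjS U ↔ star v ∈ U := Iff.rfl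

theorem finrank_cjS (U : Submodule ℂ (I → ℂ)) :
    Module.finrank ℂ (cjS U) = Module.finrank ℂ U :=
  congrArg Cardinal.toNat (rank_eq_of_equiv_equiv star
    { toFun := fun v => ⟨star v.1, v.2⟩
      invFun := fun v => ⟨star v.1, mem_cjS.2 ((star_star v.1).symm ▸ v.2)⟩
      left_inv := fun v => Subtype.ext (star_star v.1)
      right_inv := fun v => Subtype.ext (star_star v.1)
      map_add' := fun v w => Subtype.ext (star_add v.1 w.1) }
    star_involutive.bijective fun c v => Subtype.ext (star_smul c v.1))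

theorem cjS_cjS (U : Submodule ℂ (I → ℂ)) : cjS (cjS U) = U :=
  Submodule.ext fun v => by rw [mem_cjS, mem_cjS, star_star]

theorem cj_cj (ρ : Rp I) : cj (cj ρ) = ρ :=
  funext fun a => Matrix.ext fun i j => star_star (ρ a i j)

theorem cr_cj (ρ : Rp I) : cr (cj ρ) = starRingEnd ℂ ∘ cr ρ := by
  funext x
  rcases x with x | x
  exacts [rfl, x.2.elim0]

theorem cj_actR {g : Matrix I I ℂ} (hg : IsUnit g.det) (ρ : Rp I) :
    cj (actR g ρ) = actR (g.map (starRingEnd ℂ)) (cj ρ) := funext fun a => by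
  have : (g.map (starRingEnd ℂ))⁻¹ = g⁻¹.map (starRingEnd ℂ) := inv_eq_right_inv (by
    rw [← Matrix.map_mul, mul_nonsing_inv _ hg, Matrix.map_one _ (map_zero _) (map_one _)])
  simp only [cj, actR, this, Matrix.map_mul]

theorem IsPoly.cj {F : Rp I → ℂ} (h : IsPoly cr F) :
    IsPoly cr fun ρ => starRingEnd ℂ (F (cj ρ)) := by
  obtain ⟨P, hP⟩ := h
  refine ⟨MvPolynomial.map (starRingEnd ℂ) P, fun ρ => ?_⟩
  beta_reduce
  rw [hP, MvPolynomial.map_eval, ← cr_cj, cj_cj]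

namespace Dat
variable {D : Dat I} {ρ : Rp I}

theorem cj_R (h : ρ ∈ D.R) : cj ρ ∈ D.R := fun a i j e => by simp [cj, h a i j e]

theorem cj_P {g : Matrix I I ℂ} (h : g ∈ D.P) : g.map (starRingEnd ℂ) ∈ D.P :=
  ⟨fun i j e => by simp [h.1 i j e], by
    rw [← RingHom.mapMatrix_apply, ← RingHom.map_det]
    exact h.2.map _⟩

theorem Stb.cj (h : D.Stb ρ) : D.Stb (cj ρ) := by
  refine ⟨h.1, fun U hU h0 h1 => ?_⟩
  have e : D.wt D.th (cjS U) = D.wt D.th U := Finset.sum_congr rfl fun v _ => by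
    rw [← finrank_cjS (U ⊓ _), show cjS (U ⊓ sp {i | D.col i = v}) =
      cjS U ⊓ sp {i | D.col i = v} from Submodule.ext fun x => by simp [mem_cjS, mem_sp]]
  rw [← e]
  refine h.2 _ ⟨fun i v hv => ?_, fun a v hv => ?_⟩ (fun c => h0 ?_) fun c => h1 ?_
  · refine mem_cjS.2 (Set.mem_of_eq_of_mem (funext fun j => ?_) (hU.gr i _ (mem_cjS.1 hv)))
    simp only [Pi.star_apply, apply_ite star, star_zero]
  · refine mem_cjS.2 (Set.mem_of_eq_of_mem (funext fun j => ?_) (hU.st a _ (mem_cjS.1 hv)))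
    simp [mulVec, dotProduct, CS.cj]
  · rw [← cjS_cjS U, c]
    exact Submodule.ext fun v => star_eq_zero
  · rw [← cjS_cjS U, c]
    rfl

theorem Emb0.real {τ : Type} [Finite τ] {A : ℕ} {T : Rp I → τ → ℂ} {κ : Set τ}
    (h : D.Emb0 A T κ) : ∃ (N : ℕ) (T' : Rp I → Fin (N + 1) → ℂ) (κ' : Finset (Fin (N + 1))),
      D.Emb0 A T' (κ' : Set (Fin (N + 1))) ∧ ∀ ρ t, T' (cj ρ) t = starRingEnd ℂ (T' ρ t) := by
  let e : Option (τ ⊕ τ) ≃ Fin (Nat.card (τ ⊕ τ) + 1) := Finite.equivFinOfCardEq Finite.card_option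
  let B : Rp I → τ → ℂ := fun ρ t => starRingEnd ℂ (T (cj ρ) t)
  let S : Rp I → Option (τ ⊕ τ) → ℂ := fun ρ x =>
    x.elim 0 (Sum.elim (fun t => T ρ t + B ρ t) fun t => Complex.I * (T ρ t - B ρ t))
  have hT : ∀ ρ t, T ρ t = 2⁻¹ * (S ρ (e.symm (e (some (.inl t)))) -
      Complex.I * S ρ (e.symm (e (some (.inr t))))) := fun ρ t => by
    simp only [S, Equiv.symm_apply_apply, Option.elim, Sum.elim_inl, Sum.elim_inr]
    linear_combination 2⁻¹ * (T ρ t - B ρ t) * Complex.I_mul_I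
  have a1 : ∀ g ∈ D.base.P, ∀ ρ t, D.ch g ^ A * T (actR g ρ) t = T ρ t := fun g hg ρ t =>
    congrFun (h.act g hg ρ) t
  have a2 : ∀ g ∈ D.base.P, ∀ ρ t, D.ch g ^ A * B (actR g ρ) t = B ρ t := fun g hg ρ t => by
    simp only [B]
    rw [← a1 _ (cj_P hg) (cj ρ) t, cj_actR hg.2, ch_conj]
    simp
  refine ⟨_, fun ρ x => S ρ (e.symm x), (Set.toFinite
    {x | ∃ t ∈ κ, x = e (some (.inl t)) ∨ x = e (some (.inr t))}).toFinset,
    ⟨fun x => ?_, fun g hg ρ => funext fun x => ?_, fun ρ hρ hs c => h.ss ρ hρ hs ?_,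
      fun ρ hρ => ⟨fun hs => ?_, ?_⟩, fun ρ hρ σ c hc k => h.inj ρ hρ σ c hc ?_,
      fun ρ hρ v c k => h.imm ρ hρ v c fun t => ?_⟩, fun ρ x => ?_⟩
  · rcases e.symm x with _ | t | t
    exacts [IsPoly.const 0, (h.poly t).add (h.poly t).cj,
      (IsPoly.const _).mul ((h.poly t).sub (h.poly t).cj)]
  · change D.ch g ^ A * S _ _ = S _ _
    rcases e.symm x with _ | t | t
    · exact mul_zero _
    · exact (mul_add _ _ _).trans (congrArg₂ _ (a1 g hg ρ t) (a2 g hg ρ t))
    · simp only [S, Option.elim, Sum.elim_inr]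
      rw [← a1 g hg ρ t, ← a2 g hg ρ t]
      ring
  · funext t
    rw [hT, congrFun c _, congrFun c _]
    simp
  · obtain ⟨t, ht, k⟩ := (h.stb ρ hρ).1 hs
    by_contra c
    simp only [Set.Finite.coe_toFinset, not_exists, not_and, not_not] at c
    rw [hT, c _ ⟨t, ht, Or.inl rfl⟩, c _ ⟨t, ht, Or.inr rfl⟩] at k
    simp at k
  · rintro ⟨x, hx, k⟩
    obtain ⟨t, ht, hx⟩ := (Set.Finite.mem_toFinset _).1 hx
    by_contra c
    have c1 : T ρ t = 0 := by_contra fun f => c ((h.stb ρ hρ).2 ⟨t, ht, f⟩)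
    have c2 : T (cj ρ) t = 0 := by_contra fun f =>
      c (cj_cj ρ ▸ ((h.stb _ (cj_R hρ)).2 ⟨t, ht, f⟩).cj)
    rcases hx with rfl | rfl <;> simp [S, B, c1, c2] at k
  · funext t
    rw [Pi.smul_apply, hT σ, hT ρ, congrFun k _, congrFun k _]
    simp only [Pi.smul_apply, smul_eq_mul]
    ring
  · have := (((k (e (some (.inl t)))).sub ((k (e (some (.inr t)))).const_mul Complex.I)).const_mul
      2⁻¹).congr_deriv (g' := c * T ρ t) (by rw [hT ρ]; ring)
    exact this.congr_of_eventuallyEq (Eventually.of_forall fun z => hT _ t)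
  · beta_reduce
    rcases e.symm x with _ | t | t <;> simp [S, B, cj_cj]
    · ring
    · ring

end Dat

end Pool.Agent.CS
end
end
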