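import Pool.Agent.K.MP_d34769_ag.C13
import Pool.Agent.P.MP_d34769_ag.DefsQ

namespace Pool.Agent.P.MP_d34769_ag

open LaurentPolynomial Matrix Module

variable {K : Type} [Field K]

/-- a presentation with its identification map -/
structure Pres {n d k : ℕ} (S : CohSys K n d k) (ρ : Rep K n d k)
    (φ : (Fin (n + d) → K) →ₗ[K] (Fin n → LaurentPolynomial K)) : Prop where
  inj : Function.Injective φ
  r0 : LinearMap.range φ = S.E.F 0
  injx : Function.Injective ρ.x.mulVec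
  r1 : LinearMap.range (φ ∘ₗ ρ.x.mulVecLin) = S.E.F (-1)
  hy : ∀ u, φ (ρ.y *ᵥ u) = (T 1 : LaurentPolynomial K) • φ (ρ.x *ᵥ u)
  rV : LinearMap.range (φ ∘ₗ ρ.z.mulVecLin) = S.V

lemma presents_iff {n d k : ℕ} (S : CohSys K n d k) (ρ : Rep K n d k) :
    Presents S ρ ↔ ∃ φ, Pres S ρ φ := by
  refine exists_congr fun φ => ⟨?_, fun h => ⟨h.inj, fun p => ?_, h.injx, fun p => ?_, h.hy,
    fun p => ?_⟩⟩
  · rintro ⟨h1, h2, h3, h4, h5, h6⟩
    exact ⟨h1, Submodule.ext fun p => (h2 p).symm, h3, Submodule.ext fun p => (h4 p).symm, h5,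
      Submodule.ext fun p => (h6 p).symm⟩
  · rw [← Bundle.mem_F, ← h.r0]; rfl
  · rw [← Bundle.mem_F, ← h.r1]; rfl
  · rw [← h.rV]; rfl

namespace Pres

variable {n d k : ℕ} {S : CohSys K n d k} {ρ : Rep K n d k}
  {φ : (Fin (n + d) → K) →ₗ[K] (Fin n → LaurentPolynomial K)} (h : Pres S ρ φ)
include h

lemma inj1 : Function.Injective (φ ∘ₗ ρ.x.mulVecLin) := h.inj.comp h.injx

lemma nn : S.E.NN := by
  rw [Bundle.NN, ← h.r1, LinearMap.finrank_range_of_inj h.inj1]; simp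

lemma injV : Function.Injective (φ ∘ₗ ρ.z.mulVecLin) := by
  have h1 := LinearMap.finrank_range_add_finrank_ker (φ ∘ₗ ρ.z.mulVecLin)
  rw [h.rV, S.dim, Module.finrank_fin_fun] at h1
  rw [← LinearMap.ker_eq_bot, ← Submodule.finrank_eq_zero]
  omega

lemma injz : Function.Injective ρ.z.mulVec := by
  intro u v huv
  apply h.injV
  simp [huv]

lemma mem0 (u) : φ u ∈ S.E.F 0 := h.r0 ▸ ⟨u, rfl⟩
lemma mem1 (u) : φ (ρ.x *ᵥ u) ∈ S.E.F (-1) := h.r1 ▸ ⟨u, rfl⟩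
lemma memV (u) : φ (ρ.z *ᵥ u) ∈ S.V := h.rV ▸ ⟨u, rfl⟩
lemma ex0 {p} (hp : p ∈ S.E.F 0) : ∃ u, φ u = p := by rw [← h.r0] at hp; exact hp
lemma ex1 {p} (hp : p ∈ S.E.F (-1)) : ∃ u, φ (ρ.x *ᵥ u) = p := by rw [← h.r1] at hp; exact hp
lemma exV {p} (hp : p ∈ S.V) : ∃ u, φ (ρ.z *ᵥ u) = p := by rw [← h.rV] at hp; exact hp

end Pres

lemma finrank_map_inj {V W : Type} [AddCommGroup V] [Module K V] [AddCommGroup W] [Module K W]
    {f : V →ₗ[K] W} (hf : Function.Injective f) (U : Submodule K V) :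
    finrank K (U.map f) = finrank K U :=
  (Submodule.equivMapOfInjective f hf U).symm.finrank_eq

lemma map_eq_bot_inj {V W : Type} [AddCommGroup V] [Module K V] [AddCommGroup W] [Module K W]
    {f : V →ₗ[K] W} (hf : Function.Injective f) (U : Submodule K V) :
    U.map f = ⊥ ↔ U = ⊥ := by
  rw [← Submodule.map_bot f]
  exact (Submodule.map_injective_of_injective hf).eq_iff

lemma map_eq_range_inj {V W : Type} [AddCommGroup V] [Module K V] [AddCommGroup W] [Module K W]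
    {f : V →ₗ[K] W} (hf : Function.Injective f) (U : Submodule K V) :
    U.map f = LinearMap.range f ↔ U = ⊤ := by
  rw [← Submodule.map_top f]
  exact (Submodule.map_injective_of_injective hf).eq_iff

theorem Pres.amb_iff {n d k : ℕ} {S : CohSys K n d k} {ρ : Rep K n d k}
    {φ : (Fin (n + d) → K) →ₗ[K] (Fin n → LaurentPolynomial K)} (h : Pres S ρ φ) (α : ℝ) :
    AmbStable α S ↔ QStable α ρ := by
  constructor
  · intro hS U₁ U₀ W h1 hW hne hprop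
    have := hS (U₁.map (φ ∘ₗ ρ.x.mulVecLin)) (U₀.map φ) (W.map (φ ∘ₗ ρ.z.mulVecLin))
      (by rintro _ ⟨u, -, rfl⟩; exact h.mem1 u) (by rintro _ ⟨u, -, rfl⟩; exact h.mem0 u)
      (by rintro _ ⟨u, -, rfl⟩; exact h.memV u)
      (by rintro _ ⟨u, hu, rfl⟩; exact ⟨_, (h1 u hu).1, rfl⟩)
      (by rintro _ ⟨u, hu, rfl⟩; exact ⟨_, (h1 u hu).2, h.hy u⟩)
      (by rintro _ ⟨u, hu, rfl⟩; exact ⟨_, hW u hu, rfl⟩)
      (by rwa [map_eq_bot_inj h.inj1, map_eq_bot_inj h.inj, map_eq_bot_inj h.injV])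
      (by
        rwa [← h.r1, ← h.r0, ← h.rV, map_eq_range_inj h.inj1, map_eq_range_inj h.inj,
          map_eq_range_inj h.injV])
    rw [finrank_map_inj h.inj1, finrank_map_inj h.inj, finrank_map_inj h.injV] at this
    exact_mod_cast this
  · intro hρ U₁ U₀ W h1 h0 hV h10 hT hW0 hne hprop
    rw [← h.r1] at h1
    rw [← h.r0] at h0
    rw [← h.rV] at hV
    have e1 := Submodule.map_comap_eq_self h1
    have e0 := Submodule.map_comap_eq_self h0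
    have eV := Submodule.map_comap_eq_self hV
    have := hρ (U₁.comap (φ ∘ₗ ρ.x.mulVecLin)) (U₀.comap φ) (W.comap (φ ∘ₗ ρ.z.mulVecLin))
      (fun u hu => ⟨h10 hu, by
        change φ (ρ.y *ᵥ u) ∈ U₀
        rw [h.hy]; exact hT _ hu⟩)
      (fun w hw => hW0 hw)
      (by rwa [← map_eq_bot_inj h.inj1, ← map_eq_bot_inj h.inj, ← map_eq_bot_inj h.injV,
        e1, e0, eV])
      (by rwa [← map_eq_range_inj h.inj1, ← map_eq_range_inj h.inj, ← map_eq_range_inj h.injV,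
        e1, e0, eV, h.r1, h.r0, h.rV])
    rw [← finrank_map_inj h.inj1, ← finrank_map_inj h.inj, ← finrank_map_inj h.injV,
      e1, e0, eV] at this
    exact_mod_cast this

theorem exists_pres {n d k : ℕ} (S : CohSys K n d k) (hnn : S.E.NN) : ∃ ρ φ, Pres S ρ φ := by
  have f0 : finrank K (Fin (n + d) → K) = finrank K (S.E.F 0) := by
    have := hnn.finrank_zero
    rw [Module.finrank_fin_fun]; omega
  have f1 : finrank K (Fin d → K) = finrank K (S.E.F (-1)) := by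
    have : (finrank K (S.E.F (-1)) : ℤ) = d := hnn
    rw [Module.finrank_fin_fun]; omega
  have fV : finrank K (Fin k → K) = finrank K S.V := by rw [Module.finrank_fin_fun, S.dim]
  let e0 := LinearEquiv.ofFinrankEq _ _ f0
  let e1 := LinearEquiv.ofFinrankEq _ _ f1
  let eV := LinearEquiv.ofFinrankEq _ _ fV
  let τ : S.E.F (-1) →ₗ[K] S.E.F 0 :=
    { toFun := fun u => ⟨(T 1 : LaurentPolynomial K) • u.1, by simpa using S.E.T_smul_mem u.2⟩
      map_add' := fun u v => by ext1; simp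
      map_smul' := fun c u => by ext1; simp [smul_K_comm] }
  let fx := e0.symm.toLinearMap ∘ₗ Submodule.inclusion (S.E.F_mono (by omega : (-1 : ℤ) ≤ 0)) ∘ₗ
    e1.toLinearMap
  let fy := e0.symm.toLinearMap ∘ₗ τ ∘ₗ e1.toLinearMap
  let fz := e0.symm.toLinearMap ∘ₗ Submodule.inclusion S.V_le ∘ₗ eV.toLinearMap
  refine ⟨⟨LinearMap.toMatrix' fx, LinearMap.toMatrix' fy, LinearMap.toMatrix' fz⟩,
    (S.E.F 0).subtype ∘ₗ e0.toLinearMap, ?_, ?_, ?_, ?_, ?_, ?_⟩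
  · exact (S.E.F 0).injective_subtype.comp e0.injective
  · rw [LinearMap.range_comp, LinearEquiv.range, Submodule.map_top, Submodule.range_subtype]
  · intro u v huv
    simp only [LinearMap.toMatrix'_mulVec] at huv
    exact e1.injective (Submodule.inclusion_injective (S.E.F_mono (by omega : (-1 : ℤ) ≤ 0))
      (e0.symm.injective huv))
  · ext p
    constructor
    · rintro ⟨u, rfl⟩
      simp [fx]
    · intro hp
      exact ⟨e1.symm ⟨p, hp⟩, by simp [fx]⟩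
  · intro u
    simp [fx, fy, τ]
  · ext p
    constructor
    · rintro ⟨u, rfl⟩
      simp [fz]
    · intro hp
      exact ⟨eV.symm ⟨p, hp⟩, by simp [fz]⟩

lemma exists_matrix_of_factor {a b : ℕ} {W : Type} [AddCommGroup W] [Module K W]
    (f : (Fin a → K) →ₗ[K] W) (g : (Fin b → K) →ₗ[K] W) (hg : Function.Injective g)
    (h : ∀ u, ∃ v, g v = f u) : ∃ P : Matrix (Fin b) (Fin a) K, ∀ u, g (P *ᵥ u) = f u := by
  obtain ⟨lam, hlam⟩ := LinearMap.exists_leftInverse_of_injective g (LinearMap.ker_eq_bot.2 hg)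
  refine ⟨LinearMap.toMatrix' (lam ∘ₗ f), fun u => ?_⟩
  obtain ⟨v, hv⟩ := h u
  rw [LinearMap.toMatrix'_mulVec, LinearMap.comp_apply, ← hv]
  congr 1
  exact LinearMap.congr_fun hlam v

lemma matrix_ext {a b : ℕ} {P Q : Matrix (Fin b) (Fin a) K} (h : ∀ u, P *ᵥ u = Q *ᵥ u) :
    P = Q := Matrix.toLin'.injective (LinearMap.ext h)

/-- a morphism of representations -/
def QMor {n d k : ℕ} (ρ ρ' : Rep K n d k) (P₁ : Matrix (Fin d) (Fin d) K)
    (P₀ : Matrix (Fin (n + d)) (Fin (n + d)) K) (Q : Matrix (Fin k) (Fin k) K) : Prop :=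
  P₀ * ρ.x = ρ'.x * P₁ ∧ P₀ * ρ.y = ρ'.y * P₁ ∧ P₀ * ρ.z = ρ'.z * Q

theorem Pres.qmor_of_mor {n d k : ℕ} {S S' : CohSys K n d k} {ρ ρ' : Rep K n d k}
    {φ φ' : (Fin (n + d) → K) →ₗ[K] (Fin n → LaurentPolynomial K)} (h : Pres S ρ φ)
    (h' : Pres S' ρ' φ') {A} (hA : IsMor S S' A) :
    ∃ P₁ P₀ Q, QMor ρ ρ' P₁ P₀ Q ∧ ∀ u, φ' (P₀ *ᵥ u) = A *ᵥ φ u := by
  obtain ⟨P₀, h0⟩ := exists_matrix_of_factor (mv A ∘ₗ φ) φ' h'.inj
    (fun u => h'.ex0 (hA.isHom.map_F (h.mem0 u)))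
  obtain ⟨P₁, h1⟩ := exists_matrix_of_factor (mv A ∘ₗ φ ∘ₗ ρ.x.mulVecLin)
    (φ' ∘ₗ ρ'.x.mulVecLin) h'.inj1 (fun u => h'.ex1 (hA.isHom.map_F (h.mem1 u)))
  obtain ⟨Q, hQ⟩ := exists_matrix_of_factor (mv A ∘ₗ φ ∘ₗ ρ.z.mulVecLin)
    (φ' ∘ₗ ρ'.z.mulVecLin) h'.injV (fun u => h'.exV (hA.2.2 _ (h.memV u)))
  simp only [LinearMap.comp_apply, mv_apply, Matrix.mulVecLin_apply] at h0 h1 hQ
  refine ⟨P₁, P₀, Q, ⟨matrix_ext fun u => h'.inj ?_, matrix_ext fun u => h'.inj ?_,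
    matrix_ext fun u => h'.inj ?_⟩, h0⟩
  · rw [← Matrix.mulVec_mulVec, ← Matrix.mulVec_mulVec, h0, h1]
  · rw [← Matrix.mulVec_mulVec, ← Matrix.mulVec_mulVec, h0, h'.hy, h1, h.hy, Matrix.mulVec_smul]
  · rw [← Matrix.mulVec_mulVec, ← Matrix.mulVec_mulVec, h0, hQ]

theorem Pres.mor_of_qmor {n d k : ℕ} {S S' : CohSys K n d k} {ρ ρ' : Rep K n d k}
    {φ φ' : (Fin (n + d) → K) →ₗ[K] (Fin n → LaurentPolynomial K)} (h : Pres S ρ φ)
    (h' : Pres S' ρ' φ') {P₁ P₀ Q} (hP : QMor ρ ρ' P₁ P₀ Q) :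
    ∃ A, IsMor S S' A ∧ ∀ u, φ' (P₀ *ᵥ u) = A *ᵥ φ u := by
  obtain ⟨lam, hlam⟩ := LinearMap.exists_leftInverse_of_injective φ (LinearMap.ker_eq_bot.2 h.inj)
  have hl : ∀ u, lam (φ u) = u := fun u => LinearMap.congr_fun hlam u
  obtain ⟨A, hA, hA'⟩ := h.nn.extend S'.E (φ' ∘ₗ P₀.mulVecLin ∘ₗ lam)
    (fun w _ => h'.mem0 _)
    (by
      intro w hw
      obtain ⟨u, rfl⟩ := h.ex1 hw
      simp only [LinearMap.comp_apply, Matrix.mulVecLin_apply]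
      rw [← h.hy, hl, hl, Matrix.mulVec_mulVec, Matrix.mulVec_mulVec, hP.1, hP.2.1,
        ← Matrix.mulVec_mulVec, ← Matrix.mulVec_mulVec, h'.hy])
  have key : ∀ u, φ' (P₀ *ᵥ u) = A *ᵥ φ u := fun u => by
    rw [hA' _ (h.mem0 u)]; simp [hl]
  refine ⟨A, ⟨hA.1, hA.2, fun v hv => ?_⟩, key⟩
  obtain ⟨u, rfl⟩ := h.exV hv
  rw [← key, Matrix.mulVec_mulVec, hP.2.2, ← Matrix.mulVec_mulVec]
  exact h'.memV _

lemma mul_left_cancel_inj {a b c : ℕ} {X : Matrix (Fin a) (Fin b) K}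
    (hX : Function.Injective X.mulVec) {P Q : Matrix (Fin b) (Fin c) K} (h : X * P = X * Q) :
    P = Q := matrix_ext fun u => hX (by rw [Matrix.mulVec_mulVec, Matrix.mulVec_mulVec, h])

theorem Pres.iso_iff {n d k : ℕ} {S S' : CohSys K n d k} {ρ ρ' : Rep K n d k}
    {φ φ' : (Fin (n + d) → K) →ₗ[K] (Fin n → LaurentPolynomial K)} (h : Pres S ρ φ)
    (h' : Pres S' ρ' φ') : Iso S S' ↔ QIso ρ ρ' := by
  constructor
  · rintro ⟨A, B, hA, hB, hAB, hBA⟩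
    obtain ⟨P₁, P₀, Q, hP, e⟩ := h.qmor_of_mor h' hA
    obtain ⟨P₁', P₀', Q', hP', e'⟩ := h'.qmor_of_mor h hB
    have h0 : P₀' * P₀ = 1 := matrix_ext fun u => h.inj (by
      rw [← Matrix.mulVec_mulVec, e', e, Matrix.mulVec_mulVec, hBA, Matrix.one_mulVec,
        Matrix.one_mulVec])
    have h1 : P₁' * P₁ = 1 := mul_left_cancel_inj h.injx (by
      rw [← Matrix.mul_assoc, ← hP'.1, Matrix.mul_assoc, ← hP.1, ← Matrix.mul_assoc, h0,
        Matrix.one_mul, Matrix.mul_one])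
    have h2 : Q' * Q = 1 := mul_left_cancel_inj h.injz (by
      rw [← Matrix.mul_assoc, ← hP'.2.2, Matrix.mul_assoc, ← hP.2.2, ← Matrix.mul_assoc, h0,
        Matrix.one_mul, Matrix.mul_one])
    exact ⟨P₁, P₀, Q, IsUnit.of_mul_eq_one_right _ h1, IsUnit.of_mul_eq_one_right _ h0,
      IsUnit.of_mul_eq_one_right _ h2, hP⟩
  · rintro ⟨P₁, P₀, Q, ⟨u₁, rfl⟩, ⟨u₀, rfl⟩, ⟨uQ, rfl⟩, hP⟩
    have inv : ∀ {a : ℕ} {X X' : Matrix (Fin (n + d)) (Fin a) K} {u : (Matrix (Fin a) (Fin a) K)ˣ},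
        u₀.1 * X = X' * u.1 → (u₀⁻¹).1 * X' = X * (u⁻¹).1 := by
      intro a X X' u hX
      calc (u₀⁻¹).1 * X' = (u₀⁻¹).1 * (X' * u.1) * (u⁻¹).1 := by
            rw [Matrix.mul_assoc, Matrix.mul_assoc, Units.mul_inv, Matrix.mul_one]
        _ = X * (u⁻¹).1 := by rw [← hX, ← Matrix.mul_assoc, Units.inv_mul, Matrix.one_mul]
    obtain ⟨A, hA, e⟩ := h.mor_of_qmor h' (P₁ := u₁.1) (P₀ := u₀.1) (Q := uQ.1) hP
    obtain ⟨B, hB, e'⟩ := h'.mor_of_qmor h (P₁ := (u₁⁻¹).1) (P₀ := (u₀⁻¹).1) (Q := (uQ⁻¹).1)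
      ⟨inv hP.1, inv hP.2.1, inv hP.2.2⟩
    refine ⟨A, B, hA, hB, h'.nn.ext fun w hw => ?_, h.nn.ext fun w hw => ?_⟩
    · obtain ⟨u, rfl⟩ := h'.ex0 hw
      rw [← Matrix.mulVec_mulVec, ← e', ← e, Matrix.mulVec_mulVec, Units.mul_inv,
        Matrix.one_mulVec, Matrix.one_mulVec]
    · obtain ⟨u, rfl⟩ := h.ex0 hw
      rw [← Matrix.mulVec_mulVec, ← e, ← e', Matrix.mulVec_mulVec, Units.inv_mul,
        Matrix.one_mulVec, Matrix.one_mulVec]

theorem Pres.stable_iff {n d k : ℕ} {S : CohSys K n d k} {ρ : Rep K n d k}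
    {φ : (Fin (n + d) → K) →ₗ[K] (Fin n → LaurentPolynomial K)} (h : Pres S ρ φ) {α : ℝ}
    (hα : 0 < α) (hn : 0 < n) (hk : 0 < k) : Stable α S ↔ QStable α ρ := by
  rw [← h.amb_iff]
  exact ⟨fun hS => hS.amb hα hn hk, fun hS => hS.stable hα hn hk h.nn⟩

/-- transport of a presentation along an isomorphism of representations -/
theorem Pres.of_qiso {n d k : ℕ} {S : CohSys K n d k} {ρ ρ' : Rep K n d k}
    {φ : (Fin (n + d) → K) →ₗ[K] (Fin n → LaurentPolynomial K)} (h : Pres S ρ φ)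
    (hi : QIso ρ' ρ) : ∃ φ', Pres S ρ' φ' := by
  obtain ⟨P₁, P₀, Q, h1, h0, hQ, e1, e2, e3⟩ := hi
  have surj : ∀ {a : ℕ} {P : Matrix (Fin a) (Fin a) K}, IsUnit P →
      LinearMap.range P.mulVecLin = ⊤ := fun hP =>
    LinearMap.range_eq_top.2 (Matrix.mulVec_surjective_iff_isUnit.2 hP)
  have i0 := Matrix.mulVec_injective_iff_isUnit.2 h0
  have i1 := Matrix.mulVec_injective_iff_isUnit.2 h1
  refine ⟨φ ∘ₗ P₀.mulVecLin, h.inj.comp i0, ?_, ?_, ?_, ?_, ?_⟩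
  · rw [LinearMap.range_comp, surj h0, Submodule.map_top, h.r0]
  · intro u v huv
    apply i1; apply h.injx
    rw [Matrix.mulVec_mulVec, Matrix.mulVec_mulVec, ← e1, ← Matrix.mulVec_mulVec,
      ← Matrix.mulVec_mulVec, huv]
  · rw [LinearMap.comp_assoc, ← Matrix.mulVecLin_mul, e1, Matrix.mulVecLin_mul,
      ← LinearMap.comp_assoc, LinearMap.range_comp, surj h1, Submodule.map_top, h.r1]
  · intro u
    simp only [LinearMap.comp_apply, Matrix.mulVecLin_apply]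
    rw [Matrix.mulVec_mulVec, Matrix.mulVec_mulVec, e1, e2, ← Matrix.mulVec_mulVec,
      ← Matrix.mulVec_mulVec, h.hy]
  · rw [LinearMap.comp_assoc, ← Matrix.mulVecLin_mul, e3, Matrix.mulVecLin_mul,
      ← LinearMap.comp_assoc, LinearMap.range_comp, surj hQ, Submodule.map_top, h.rV]

end Pool.Agent.P.MP_d34769_ag
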