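import Pool.Agent.K.MP_d34769_ag.C19
import Pool.Agent.P.MP_d34769_ag.DefsT

-- part Pool.Agent.P.MP_d34769_ag.BM0
section

/-! Coloured matrices, block groups, representations of a quiver and their strata. -/

open Set Classical Matrix

namespace Pool.Agent.Bet

noncomputable section

variable {ι : Type} [Fintype ι] [DecidableEq ι] {κ : Type} {Ar : Type}

/-- The general linear group. -/
abbrev GG (ι : Type) [Fintype ι] [DecidableEq ι] : Type := (Matrix ι ι ℂ)ˣ

/-- The diagonal projection onto the coordinates satisfying `P`. -/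
def dp (P : ι → Prop) : Matrix ι ι ℂ := Matrix.diagonal fun i => if P i then 1 else 0

omit [Fintype ι] in
lemma dp_apply (P : ι → Prop) (i j : ι) : dp P i j = if i = j ∧ P i then 1 else 0 := by
  simp only [dp, Matrix.diagonal_apply]
  by_cases h : i = j <;> simp [h]

lemma dp_mul_apply {n : Type} (P : ι → Prop) (M : Matrix ι n ℂ) (i : ι) (j : n) :
    (dp P * M) i j = if P i then M i j else 0 := by
  simp [dp, Matrix.diagonal_mul]

lemma mul_dp_apply {n : Type} (P : ι → Prop) (M : Matrix n ι ℂ) (i : n) (j : ι) :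
    (M * dp P) i j = if P j then M i j else 0 := by
  simp [dp, Matrix.mul_diagonal]

lemma dp_mulVec (P : ι → Prop) (x : ι → ℂ) (i : ι) : (dp P *ᵥ x) i = if P i then x i else 0 := by
  simp [dp, Matrix.mulVec_diagonal]

lemma dp_mul_dp (P P' : ι → Prop) : dp P * dp P' = dp fun i => P i ∧ P' i := by
  ext i j
  rw [dp_mul_apply, dp_apply, dp_apply]
  by_cases h : P i <;> simp [h]

lemma dp_comm (P P' : ι → Prop) : dp P * dp P' = dp P' * dp P := by
  simp only [dp_mul_dp, and_comm]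

@[simp] lemma dp_idem (P : ι → Prop) : dp P * dp P = dp P := by
  simp only [dp_mul_dp, and_self]

omit [Fintype ι] in
@[simp] lemma star_dp (P : ι → Prop) : star (dp P) = dp P := by
  ext i j
  simp only [star_apply, dp_apply]
  by_cases h : i = j
  · subst h; split_ifs <;> simp
  · simp [h, Ne.symm h]

omit [Fintype ι] in
lemma dp_congr {P P' : ι → Prop} (h : ∀ i, P i ↔ P' i) : dp P = dp P' :=
  congrArg dp (funext fun i => propext (h i))

omit [Fintype ι] in
lemma dp_false {P : ι → Prop} (h : ∀ i, ¬ P i) : dp P = 0 := by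
  ext i j
  simp [dp_apply, h]

omit [Fintype ι] in
lemma dp_add_not (P : ι → Prop) : dp P + dp (fun i => ¬ P i) = 1 := by
  ext i j
  simp only [Matrix.add_apply, dp_apply, Matrix.one_apply]
  by_cases h : i = j
  · subst h; by_cases h' : P i <;> simp [h']
  · simp [h]

lemma dp_comm_iff (P : ι → Prop) (M : Matrix ι ι ℂ) :
    dp P * M = M * dp P ↔ ∀ i j, ¬ (P i ↔ P j) → M i j = 0 := by
  simp only [← Matrix.ext_iff, dp_mul_apply, mul_dp_apply]
  refine forall₂_congr fun i j => ?_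
  by_cases h : P i <;> by_cases h' : P j <;> simp [h, h', eq_comm]

/-- The projection onto the coordinates of colour `o`; the colour `none` is frozen. -/
def dg (c : ι → Option κ) (o : Option κ) : Matrix ι ι ℂ := dp fun i => c i = o

/-- The group of invertible block matrices which are the identity on the frozen coordinates. -/
def Gc (c : ι → Option κ) : Subgroup (GG ι) where
  carrier := {g | (∀ o, dg c o * g.1 = g.1 * dg c o) ∧ dg c none * g.1 = dg c none}
  one_mem' := by simp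
  mul_mem' := by
    rintro a b ⟨h1, h2⟩ ⟨k1, k2⟩
    refine ⟨fun o => ?_, ?_⟩
    · rw [Units.val_mul, ← mul_assoc, h1, mul_assoc, k1, mul_assoc]
    · rw [Units.val_mul, ← mul_assoc, h2, k2]
  inv_mem' := by
    rintro a ⟨h1, h2⟩
    refine ⟨fun o => ?_, ?_⟩
    · exact (Commute.units_inv_right (h1 o)).eq
    · conv_lhs => rw [← h2]
      rw [mul_assoc, Units.mul_inv, mul_one]

/-- The unitary group. -/
def Un (ι : Type) [Fintype ι] [DecidableEq ι] : Subgroup (GG ι) where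
  carrier := {g | star g.1 * g.1 = 1}
  one_mem' := by simp
  mul_mem' := by
    intro a b h k
    simp only [mem_ofPred_eq, Units.val_mul, star_mul] at h k ⊢
    rw [mul_assoc, ← mul_assoc (star a.1), h, one_mul, k]
  inv_mem' := by
    intro a h
    simp only [mem_ofPred_eq] at h ⊢
    rw [Units.inv_eq_of_mul_eq_one_left h, star_star]
    exact mul_eq_one_comm.1 h

/-- The unitary block matrices. -/
def Kc (c : ι → Option κ) : Subgroup (GG ι) := Gc c ⊓ Un ι

lemma mem_Gc {c : ι → Option κ} {g : GG ι} :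
    g ∈ Gc c ↔ (∀ o, dg c o * g.1 = g.1 * dg c o) ∧ dg c none * g.1 = dg c none := Iff.rfl

lemma mem_Un {g : GG ι} : g ∈ Un ι ↔ star g.1 * g.1 = 1 := Iff.rfl

lemma mem_Kc {c : ι → Option κ} {g : GG ι} : g ∈ Kc c ↔ g ∈ Gc c ∧ g ∈ Un ι := Iff.rfl

lemma mem_Gc_iff {c : ι → Option κ} {g : GG ι} :
    g ∈ Gc c ↔ ∀ i j, c i ≠ c j ∨ c i = none → g.1 i j = if i = j then 1 else 0 := by
  rw [mem_Gc]
  simp only [dg, dp_comm_iff]
  constructor
  · rintro ⟨h1, h2⟩ i j h
    by_cases hi : c i = none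
    · have := congrFun (congrFun h2 i) j
      rw [dp_mul_apply, dp_apply] at this
      simpa [hi] using this
    · have hne := h.resolve_right hi
      rw [if_neg fun e => hne (by rw [e])]
      exact h1 (c i) i j fun e => hne (e.1 rfl).symm
  · intro h
    refine ⟨fun o i j hij => ?_, ?_⟩
    · have hne : c i ≠ c j := fun e => hij (by rw [e])
      rw [h i j (Or.inl hne), if_neg fun e => hne (by rw [e])]
    · ext i j
      rw [dp_mul_apply, dp_apply]
      by_cases hi : c i = none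
      · simp [hi, h i j (Or.inr hi)]
      · simp [hi]

lemma Kc_le (c : ι → Option κ) : Kc c ≤ Gc c := inf_le_left

lemma inv_eq_star {g : GG ι} (h : g ∈ Un ι) : (g⁻¹ : GG ι).1 = star g.1 :=
  Units.inv_eq_of_mul_eq_one_left h

/-- Tuples of matrices with the action by conjugation. -/
def Cj (Ar ι : Type) : Type := Ar → Matrix ι ι ℂ

/-- Matrices with countably many columns, with the action by left multiplication. -/
def Mt (ι : Type) : Type := Matrix ι ℕ ℂ

/-- Matrices with the action `h ↦ g h g^*`. -/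
def Hm (ι : Type) : Type := Matrix ι ι ℂ

instance : AddCommGroup (Cj Ar ι) := inferInstanceAs (AddCommGroup (Ar → Matrix ι ι ℂ))
instance : Module ℂ (Cj Ar ι) := inferInstanceAs (Module ℂ (Ar → Matrix ι ι ℂ))
instance : TopologicalSpace (Cj Ar ι) :=
  inferInstanceAs (TopologicalSpace (Ar → Matrix ι ι ℂ))
instance : IsTopologicalAddGroup (Cj Ar ι) :=
  inferInstanceAs (IsTopologicalAddGroup (Ar → Matrix ι ι ℂ))
instance : ContinuousSMul ℂ (Cj Ar ι) := inferInstanceAs (ContinuousSMul ℂ (Ar → Matrix ι ι ℂ))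
instance : T2Space (Cj Ar ι) := inferInstanceAs (T2Space (Ar → Matrix ι ι ℂ))
instance [Finite Ar] : Module.Finite ℂ (Cj Ar ι) :=
  inferInstanceAs (Module.Finite ℂ (Ar → Matrix ι ι ℂ))

instance : AddCommGroup (Mt ι) := inferInstanceAs (AddCommGroup (Matrix ι ℕ ℂ))
instance : Module ℂ (Mt ι) := inferInstanceAs (Module ℂ (Matrix ι ℕ ℂ))
instance : TopologicalSpace (Mt ι) := inferInstanceAs (TopologicalSpace (Matrix ι ℕ ℂ))
instance : IsTopologicalAddGroup (Mt ι) := inferInstanceAs (IsTopologicalAddGroup (Matrix ι ℕ ℂ))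
instance : ContinuousSMul ℂ (Mt ι) := inferInstanceAs (ContinuousSMul ℂ (Matrix ι ℕ ℂ))
instance : T2Space (Mt ι) := inferInstanceAs (T2Space (Matrix ι ℕ ℂ))

instance : TopologicalSpace (Hm ι) := inferInstanceAs (TopologicalSpace (Matrix ι ι ℂ))

/-- The underlying matrix. -/
def Mt.m (f : Mt ι) : Matrix ι ℕ ℂ := f

/-- The underlying matrix. -/
def Hm.m (h : Hm ι) : Matrix ι ι ℂ := h

instance : DistribMulAction (GG ι) (Cj Ar ι) where
  smul g φ := fun a => g.1 * φ a * (g⁻¹).1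
  one_smul φ := funext fun a => show (1 : GG ι).1 * φ a * ((1 : GG ι)⁻¹).1 = φ a by simp
  mul_smul g h φ := funext fun a =>
    show (g * h).1 * φ a * ((g * h)⁻¹).1 = g.1 * (h.1 * φ a * (h⁻¹).1) * (g⁻¹).1 by
      simp only [_root_.mul_inv_rev, Units.val_mul, mul_assoc]
  smul_zero g := funext fun a => show g.1 * (0 : Matrix ι ι ℂ) * (g⁻¹).1 = 0 by simp
  smul_add g φ ψ := funext fun a =>
    show g.1 * (φ a + ψ a) * (g⁻¹).1 = g.1 * φ a * (g⁻¹).1 + g.1 * ψ a * (g⁻¹).1 by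
      rw [mul_add, add_mul]

lemma Cj.smul_apply (g : GG ι) (φ : Cj Ar ι) (a : Ar) : (g • φ) a = g.1 * φ a * (g⁻¹).1 := rfl
omit [Fintype ι] [DecidableEq ι] in
lemma Cj.add_apply (φ ψ : Cj Ar ι) (a : Ar) : (φ + ψ) a = φ a + ψ a := rfl
omit [Fintype ι] [DecidableEq ι] in
lemma Cj.sub_apply (φ ψ : Cj Ar ι) (a : Ar) : (φ - ψ) a = φ a - ψ a := rfl
omit [Fintype ι] [DecidableEq ι] in
lemma Cj.csmul_apply (z : ℂ) (φ : Cj Ar ι) (a : Ar) : (z • φ) a = z • φ a := rfl
omit [Fintype ι] [DecidableEq ι] in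
lemma Cj.zero_apply (a : Ar) : (0 : Cj Ar ι) a = 0 := rfl
omit [Fintype ι] [DecidableEq ι] in
lemma Cj.continuous_apply (a : Ar) : Continuous fun φ : Cj Ar ι => φ a :=
  _root_.continuous_apply (A := fun _ : Ar => Matrix ι ι ℂ) a

instance : SMulCommClass (GG ι) ℂ (Cj Ar ι) :=
  ⟨fun g z φ => funext fun a => by simp [Cj.smul_apply, Cj.csmul_apply]⟩

instance : ContinuousSMul (GG ι) (Cj Ar ι) :=
  ⟨continuous_pi fun a => ((Units.continuous_val.comp continuous_fst).mul
    ((Cj.continuous_apply a).comp continuous_snd)).mul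
      (Units.continuous_coe_inv.comp continuous_fst)⟩

instance : DistribMulAction (GG ι) (Mt ι) where
  smul g f := (g.1 * f.m : Matrix ι ℕ ℂ)
  one_smul f := Matrix.one_mul f.m
  mul_smul g h f := Matrix.mul_assoc g.1 h.1 f.m
  smul_zero g := Matrix.mul_zero g.1
  smul_add g f f' := Matrix.mul_add g.1 f.m f'.m

lemma Mt.smul_m (g : GG ι) (f : Mt ι) : (g • f).m = g.1 * f.m := rfl

instance : SMulCommClass (GG ι) ℂ (Mt ι) := ⟨fun g z f => Matrix.mul_smul g.1 z f.m⟩

instance : ContinuousSMul (GG ι) (Mt ι) :=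
  ⟨Continuous.matrix_mul (Units.continuous_val.comp continuous_fst) continuous_snd⟩

instance : MulAction (GG ι) (Hm ι) where
  smul g h := (g.1 * h.m * star g.1 : Matrix ι ι ℂ)
  one_smul h := show (1 : GG ι).1 * h.m * star (1 : GG ι).1 = h.m by simp
  mul_smul g k h :=
    show (g * k).1 * h.m * star (g * k).1 = g.1 * (k.1 * h.m * star k.1) * star g.1 by
      simp only [Units.val_mul, star_mul, mul_assoc]

lemma Hm.smul_m (g : GG ι) (h : Hm ι) : (g • h).m = g.1 * h.m * star g.1 := rfl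

instance : ContinuousSMul (GG ι) (Hm ι) :=
  ⟨((Units.continuous_val.comp continuous_fst).mul
    (continuous_snd (X := GG ι) (Y := Matrix ι ι ℂ))).mul
    (Units.continuous_val.comp continuous_fst).star⟩

/-- The contractible space of frames: the rows of each colour are independent. -/
def Ec (c : ι → Option κ) : Set (Mt ι) :=
  {f | dg c none * f.m = 0 ∧
    ∀ (v : κ) (a : ι → ℂ), (∀ i, c i ≠ some v → a i = 0) → a ᵥ* f.m = 0 → a = 0}

/-- The vectors of colour `v`, as matrices supported in the first column. -/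
def F0 (c : ι → Option κ) (v : κ) : Submodule ℂ (Mt ι) where
  carrier := {f | ∀ i j, c i ≠ some v ∨ j ≠ 0 → f.m i j = 0}
  zero_mem' := fun _ _ _ => rfl
  add_mem' := fun {f g} hf hg i j h => show f.m i j + g.m i j = 0 by rw [hf i j h, hg i j h, add_zero]
  smul_mem' := fun z f hf i j h => show z * f.m i j = 0 by rw [hf i j h, mul_zero]

/-- The dimension vector of a colouring. -/
def dv (c : ι → Option κ) (v : κ) : ℕ := (Finset.univ.filter fun i => c i = some v).card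

/-- The colouring refined by `p`. -/
def cp (c : ι → Option κ) (p : ι → Bool) : ι → Option (κ × Bool) :=
  fun i => (c i).map fun v => (v, p i)

/-- The colouring with the complement of `p` frozen. -/
def c1 (c : ι → Option κ) (p : ι → Bool) : ι → Option κ := fun i => if p i then c i else none

/-- The colouring with `p` frozen. -/
def c2 (c : ι → Option κ) (p : ι → Bool) : ι → Option κ := fun i => if p i then none else c i

/-- `p` avoids the frozen coordinates. -/
def Adm (c : ι → Option κ) (p : ι → Bool) : Prop := ∀ i, p i = true → c i ≠ none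

/-- The projection onto the part `p`. -/
def e1 (p : ι → Bool) : Matrix ι ι ℂ := dp fun i => p i = true

/-- The projection onto the complement of `p`. -/
def e2 (p : ι → Bool) : Matrix ι ι ℂ := dp fun i => p i = false

omit [Fintype ι] in
lemma e1_add_e2 (p : ι → Bool) : e1 p + e2 p = 1 := by
  rw [← dp_add_not fun i => p i = true, e1, e2]
  congr 1
  exact dp_congr fun i => by simp

@[simp] lemma e1_e1 (p : ι → Bool) : e1 p * e1 p = e1 p := dp_idem _

@[simp] lemma e2_e2 (p : ι → Bool) : e2 p * e2 p = e2 p := dp_idem _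

@[simp] lemma e1_e2 (p : ι → Bool) : e1 p * e2 p = 0 := by
  rw [e1, e2, dp_mul_dp]; exact dp_false fun i => by simp

@[simp] lemma e2_e1 (p : ι → Bool) : e2 p * e1 p = 0 := by
  rw [e1, e2, dp_mul_dp]; exact dp_false fun i => by simp

omit [Fintype ι] in
@[simp] lemma star_e1 (p : ι → Bool) : star (e1 p) = e1 p := star_dp _

omit [Fintype ι] in
@[simp] lemma star_e2 (p : ι → Bool) : star (e2 p) = e2 p := star_dp _

/-- The projection onto the part `p`, with the action by conjugation. -/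
def E1 (p : ι → Bool) : Cj Unit ι := fun _ => e1 p

/-- The Grassmannian of projections. -/
def Gr (c : ι → Option κ) (p : ι → Bool) : Set (Cj Unit ι) := MulAction.orbit (Kc c) (E1 p)

/-- The block `x φ y`. -/
def blk (x y : Matrix ι ι ℂ) (φ : Cj Ar ι) : Cj Ar ι := fun a => x * φ a * y

omit [DecidableEq ι] in
lemma blk_apply (x y : Matrix ι ι ℂ) (φ : Cj Ar ι) (a : Ar) : blk x y φ a = x * φ a * y := rfl

omit [DecidableEq ι] in
lemma continuous_blk (x y : Matrix ι ι ℂ) : Continuous (blk x y : Cj Ar ι → Cj Ar ι) :=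
  continuous_pi fun a => (continuous_const.mul (Cj.continuous_apply a)).mul continuous_const

/-- The representations of the quiver with arrows `a : s a → t a`. -/
def Rc (s t : Ar → κ) (c : ι → Option κ) : Submodule ℂ (Cj Ar ι) where
  carrier := {φ | ∀ a, dg c (some (t a)) * φ a * dg c (some (s a)) = φ a}
  zero_mem' := fun a => by simp [Cj.zero_apply]
  add_mem' := fun {φ ψ} hφ hψ a => by rw [Cj.add_apply, mul_add, add_mul, hφ a, hψ a]
  smul_mem' := fun z φ hφ a => by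
    rw [Cj.csmul_apply, Matrix.mul_smul, Matrix.smul_mul, hφ a]

/-- The representations concentrated in the lower left block. -/
def R21 (s t : Ar → κ) (c : ι → Option κ) (p : ι → Bool) : Submodule ℂ (Cj Ar ι) where
  carrier := {φ | φ ∈ Rc s t c ∧ blk (e2 p) (e1 p) φ = φ}
  zero_mem' := ⟨(Rc s t c).zero_mem, funext fun a => by simp [blk, Cj.zero_apply]⟩
  add_mem' := fun {φ ψ} hφ hψ => ⟨(Rc s t c).add_mem hφ.1 hψ.1, funext fun a => by
    have h1 := congrFun hφ.2 a
    have h2 := congrFun hψ.2 a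
    simp only [blk] at h1 h2 ⊢
    rw [Cj.add_apply, mul_add, add_mul, h1, h2]⟩
  smul_mem' := fun z φ hφ => ⟨(Rc s t c).smul_mem z hφ.1, funext fun a => by
    have h1 := congrFun hφ.2 a
    simp only [blk] at h1 ⊢
    rw [Cj.csmul_apply, Matrix.mul_smul, Matrix.smul_mul, h1]⟩

/-- Graded subspaces without frozen part. -/
def Gs (c : ι → Option κ) (U : Submodule ℂ (ι → ℂ)) : Prop :=
  (∀ v, ∀ x ∈ U, dg c (some v) *ᵥ x ∈ U) ∧ ∀ x ∈ U, dg c none *ᵥ x = 0

/-- Subrepresentations. -/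
def Sr (c : ι → Option κ) (φ : Cj Ar ι) (U : Submodule ℂ (ι → ℂ)) : Prop :=
  Gs c U ∧ ∀ a, ∀ x ∈ U, φ a *ᵥ x ∈ U

/-- The dimension vector of a graded subspace. -/
def du (c : ι → Option κ) (U : Submodule ℂ (ι → ℂ)) (v : κ) : ℕ :=
  Module.finrank ℂ (U.map (dg c (some v)).mulVecLin)

/-- The coordinate subspace of the part `p`. -/
def V1 (p : ι → Bool) : Submodule ℂ (ι → ℂ) := LinearMap.range (e1 p).mulVecLin

section stab

variable [Fintype κ]

/-- The weight of a dimension vector. -/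
def th (w : κ → ℝ) (f : κ → ℕ) : ℝ := ∑ v, w v * f v

/-- The total dimension. -/
def sZ (f : κ → ℕ) : ℕ := ∑ v, f v

/-- `g` is higher than `f` in the order of the strata. -/
def Hi (w : κ → ℝ) (g f : κ → ℕ) : Prop := th w f < th w g ∨ (th w f = th w g ∧ sZ f < sZ g)

variable (s t : Ar → κ) (w : κ → ℝ) (c : ι → Option κ)

/-- Representations with a subrepresentation of dimension vector `f`. -/
def Cl (f : κ → ℕ) : Set (Cj Ar ι) := {φ | φ ∈ Rc s t c ∧ ∃ U, Sr c φ U ∧ du c U = f}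

/-- Representations all of whose quotients have nonnegative weight. -/
def Ge : Set (Cj Ar ι) := {φ | φ ∈ Rc s t c ∧ ∀ U, Sr c φ U → th w (du c U) ≤ th w (dv c)}

/-- Representations all of whose nonzero subrepresentations have negative weight. -/
def Lt : Set (Cj Ar ι) := {φ | φ ∈ Rc s t c ∧ ∀ U, Sr c φ U → U ≠ ⊥ → th w (du c U) < 0}

/-- The stratum of type `f`. -/
def St (f : κ → ℕ) : Set (Cj Ar ι) := {φ | φ ∈ Cl s t c f ∧ ∀ g, Hi w g f → φ ∉ Cl s t c g}

/-- The open set where both diagonal blocks are of the right type. -/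
def O2 (p : ι → Bool) : Set (Cj Ar ι) :=
  {φ | φ ∈ Rc s t c ∧ blk (e1 p) (e1 p) φ ∈ Ge s t w (c1 c p) ∧
    blk (e2 p) (e2 p) φ ∈ Lt s t w (c2 c p)}

/-- The slice of the stratum. -/
def Zs (p : ι → Bool) : Set (Cj Ar ι) := {φ | φ ∈ O2 s t w c p ∧ blk (e2 p) (e1 p) φ = 0}

/-- The block diagonal part of the slice. -/
def Z0 (p : ι → Bool) : Set (Cj Ar ι) := {φ | φ ∈ Zs s t w c p ∧ blk (e1 p) (e2 p) φ = 0}

/-- No proper nonzero vector below `d` has weight zero, and `d` has weight zero. -/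
def Gen (d : κ → ℕ) : Prop := th w d = 0 ∧ d ≠ 0 ∧ ∀ f ≤ d, f ≠ 0 → f ≠ d → th w f ≠ 0

omit [Fintype κ] in
/-- The dimension of the lower left block. -/
def bb [Fintype Ar] (g h : κ → ℕ) : ℕ := ∑ a, g (s a) * h (t a)

/-- The Poincare series of the classifying space. -/
def Ad (d : κ → ℕ) : PowerSeries ℚ :=
  ∏ v, ∏ i ∈ Finset.range (d v), (1 - PowerSeries.X ^ (2 * (i + 1)))⁻¹

/-- The recursion satisfied by the Poincare series, for dimension vectors below `d₀`. -/
structure Rec [Fintype Ar] (d₀ : κ → ℕ) (G L : (κ → ℕ) → PowerSeries ℚ)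
    (r : (κ → ℕ) → (κ → ℕ) → PowerSeries ℚ) : Prop where
  G0 : G 0 = 1
  L0 : L 0 = 1
  Gz : ∀ d, th w d < 0 → G d = 0
  Lz : ∀ d, d ≠ 0 → 0 ≤ th w d → L d = 0
  div : ∀ g h, g + h ≤ d₀ → PowerSeries.X ^ (2 * bb id id g h) * r g h =
    PowerSeries.X ^ (2 * bb s t g h) * (G g * L h)
  sum : ∀ d ≤ d₀, ∑ g ∈ Finset.Iic d, r g (d - g) = Ad d

end stab

/-- The Borel construction. -/
def Bo (Γ : Subgroup (GG ι)) (S : Set (Cj Ar ι)) (E : Set (Mt ι)) : Set (Q Γ (Cj Ar ι × Mt ι)) :=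
  qs Γ (S ×ˢ E)

open scoped ComplexOrder in
/-- The positive definite block matrices. -/
def Ps (c : ι → Option κ) : Set (Hm ι) :=
  {h | h.m.PosDef ∧ (∀ o, dg c o * h.m = h.m * dg c o) ∧ dg c none * h.m = dg c none}

open scoped ComplexOrder in
/-- The positive square root. -/
structure IsSq (sq : Matrix ι ι ℂ → GG ι) : Prop where
  cont : ContinuousOn sq {h | h.PosDef}
  pos : ∀ h, h.PosDef → (sq h).1.PosDef
  mul : ∀ h, h.PosDef → (sq h).1 * (sq h).1 = h
  comm : ∀ h, h.PosDef → ∀ e, e * h = h * e → e * (sq h).1 = (sq h).1 * e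
  uniq : ∀ h, h.PosDef → ∀ x : Matrix ι ι ℂ, x.PosSemidef → x * x = h → (sq h).1 = x
  fix : ∀ h, h.PosDef → ∀ e : Matrix ι ι ℂ, star e = e → e * e = e → e * h = e →
    e * (sq h).1 = e

/-- The unitary part of the polar decomposition. -/
structure IsUn (u : GG ι → GG ι) : Prop where
  cont : Continuous u
  mem : ∀ g, u g ∈ Un ι
  equiv : ∀ g, ∀ k ∈ Un ι, ∀ l ∈ Un ι, u (k * g * l) = k * u g * l
  self : ∀ g ∈ Un ι, u g = g
  comm : ∀ (g : GG ι) (e : Matrix ι ι ℂ), e * (star g.1 * g.1) = star g.1 * g.1 * e →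
    e * ((u g)⁻¹ * g).1 = ((u g)⁻¹ * g).1 * e
  herm : ∀ g : GG ι, star g.1 = g.1 → star (u g).1 = (u g).1
  blk : ∀ (κ : Type) (c : ι → Option κ), ∀ g ∈ Gc c, u g ∈ Kc c

end

end Pool.Agent.Bet
end

-- part Pool.Agent.P.MP_d34769_ag.BF1
section

/-! TASK BF1: solving the recursion in a twisted product. -/

open Classical

namespace Pool.Agent.Bet

variable {κ F : Type} [Fintype κ] [Field F]

/-- The twisted product. -/
noncomputable def cvBF1 (q : F) (χ : (κ → ℕ) → (κ → ℕ) → ℤ) (x y : (κ → ℕ) → F) (e : κ → ℕ) : F :=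
  ∑ f ∈ Finset.Iic e, x f * y (e - f) * q ^ (-χ (e - f) f)

theorem aux1_BF1 {q : F} (hq : q ≠ 0) {χ : (κ → ℕ) → (κ → ℕ) → ℤ}
    (h1 : ∀ a b e, χ (a + b) e = χ a e + χ b e) (h2 : ∀ a b e, χ e (a + b) = χ e a + χ e b)
    (x y z : (κ → ℕ) → F) (e : κ → ℕ) :
    cvBF1 q χ (cvBF1 q χ x y) z e = cvBF1 q χ x (cvBF1 q χ y z) e := by
  unfold cvBF1
  simp only [Finset.sum_mul, Finset.mul_sum]
  rw [Finset.sum_comm' (t' := Finset.Iic e) (s' := fun f => Finset.Icc f e) (by
    intro u f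
    simp only [Finset.mem_Iic, Finset.mem_Icc]
    exact ⟨fun h => ⟨⟨h.2, h.1⟩, h.2.trans h.1⟩, fun h => ⟨h.1.2, h.1.1⟩⟩)]
  refine Finset.sum_congr rfl fun f hf => ?_
  refine Finset.sum_nbij' (fun u => u - f) (fun g => f + g) (fun u hu => ?_) (fun g hg => ?_)
    (fun u hu => ?_) (fun g _ => ?_) fun u hu => ?_
  · exact Finset.mem_Iic.2 (tsub_le_tsub_right (Finset.mem_Icc.1 hu).2 f)
  · exact Finset.mem_Icc.2 ⟨le_self_add,
      add_le_of_le_tsub_left_of_le (Finset.mem_Iic.1 hf) (Finset.mem_Iic.1 hg)⟩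
  · exact add_tsub_cancel_of_le (Finset.mem_Icc.1 hu).1
  · exact add_tsub_cancel_left f g
  · obtain ⟨g, rfl⟩ := exists_add_of_le (Finset.mem_Icc.1 hu).1
    obtain ⟨h, rfl⟩ := exists_add_of_le (Finset.mem_Icc.1 hu).2
    have e1 : f + g + h - f = g + h := by rw [add_assoc, add_tsub_cancel_left]
    simp only [e1, add_tsub_cancel_left, h1, h2, neg_add, zpow_add₀ hq]
    ring

theorem aux2_BF1 (w : κ → ℝ) {e f : κ → ℕ} (h : f ≤ e) : th w (e - f) = th w e - th w f := by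
  obtain ⟨g, rfl⟩ := exists_add_of_le h
  simp [th, mul_add, Finset.sum_add_distrib]

theorem twisted {q : F} (hq : q ≠ 0) {χ : (κ → ℕ) → (κ → ℕ) → ℤ}
    (h1 : ∀ a b e, χ (a + b) e = χ a e + χ b e) (h2 : ∀ a b e, χ e (a + b) = χ e a + χ e b)
    {w : κ → ℝ} {d₀ : κ → ℕ} (hg : Gen w d₀) {B C a P : (κ → ℕ) → F} (B0 : B 0 = 1) (C0 : C 0 = 1)
    (Bz : ∀ d, th w d < 0 → B d = 0) (Cz : ∀ d, d ≠ 0 → 0 ≤ th w d → C d = 0)
    (ha : ∀ d ≤ d₀, a d = ∑ g ∈ Finset.Iic d, B g * C (d - g) * q ^ (-χ (d - g) g))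
    (P0 : P 0 = 1) (hP : ∀ e, e ≠ 0 → P e =
      -∑ f ∈ (Finset.Iic e).filter (fun f => f ≠ e ∧ 0 ≤ th w f),
        P f * a (e - f) * q ^ (-χ (e - f) f)) : P d₀ = -B d₀ := by
  have z1 : ∀ e, χ 0 e = 0 := fun e => by simpa using h1 0 0 e
  have z2 : ∀ e, χ e 0 = 0 := fun e => by simpa using h2 0 0 e
  have t0 : th w 0 = 0 := by simp [th]
  have i0 : Finset.Iic (0 : κ → ℕ) = {0} := Finset.Iic_bot
  have a0 : a 0 = 1 := by rw [ha 0 zero_le, i0]; simp [B0, C0, z1]
  let Pp : (κ → ℕ) → F := fun f => if 0 ≤ th w f then P f else 0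
  have k1 : ∀ e, e ≠ 0 → 0 ≤ th w e → cvBF1 q χ Pp a e = 0 := by
    intro e he ht
    rw [cvBF1, ← Finset.add_sum_erase _ _ (Finset.mem_Iic.2 le_rfl), tsub_self, a0, z1]
    simp only [Pp, if_pos ht, neg_zero, zpow_zero, mul_one]
    rw [hP e he, neg_add_eq_zero, ← Finset.filter_filter, Finset.filter_ne', Finset.sum_filter]
    refine Finset.sum_congr rfl fun f _ => ?_
    split_ifs <;> simp
  have k2 : ∀ e ≤ d₀, cvBF1 q χ Pp a e = cvBF1 q χ (cvBF1 q χ Pp B) C e := by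
    intro e he
    rw [aux1_BF1 hq h1 h2]
    refine Finset.sum_congr rfl fun f _ => ?_
    rw [ha (e - f) (tsub_le_self.trans he)]
    rfl
  have k3 : ∀ e, e ≤ d₀ → e ≠ 0 → 0 ≤ th w e → cvBF1 q χ Pp B e = 0 := by
    intro e
    induction e using WellFoundedLT.induction with
    | ind e ih =>
      intro he h0 ht
      have h3 := k1 e h0 ht
      rw [k2 e he, cvBF1, Finset.sum_eq_single_of_mem e (Finset.mem_Iic.2 le_rfl), tsub_self, C0,
        z1] at h3
      · simpa using h3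
      intro u hu hne
      have hu' := Finset.mem_Iic.1 hu
      by_cases h4 : 0 ≤ th w (e - u)
      · rw [Cz _ (fun h => hne (le_antisymm hu' (tsub_eq_zero_iff_le.1 h))) h4]
        simp
      · rw [aux2_BF1 w hu'] at h4
        rw [ih u (lt_of_le_of_ne hu' hne) (hu'.trans he)
          (by rintro rfl; rw [t0] at h4; linarith) (by linarith)]
        simp
  have h5 := k3 d₀ le_rfl hg.2.1 hg.1.ge
  rw [cvBF1, Finset.sum_eq_add_of_mem d₀ 0 (Finset.mem_Iic.2 le_rfl)
    (Finset.mem_Iic.2 zero_le) hg.2.1, tsub_self, tsub_zero, z1, z2, B0] at h5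
  · simp only [Pp, if_pos hg.1.ge, if_pos t0.ge, P0, neg_zero, zpow_zero, mul_one, one_mul] at h5
    exact eq_neg_of_add_eq_zero_left h5
  · intro f hf h6
    have hf' := Finset.mem_Iic.1 hf
    by_cases h7 : 0 ≤ th w f
    · rw [Bz _ (by
        rw [aux2_BF1 w hf', hg.1]
        have := lt_of_le_of_ne h7 (hg.2.2 f hf' h6.2 h6.1).symm
        linarith)]
      simp
    · simp [Pp, h7]

end Pool.Agent.Bet
end

-- part Pool.Agent.P.MP_d34769_ag.BF0
section

/-! The quiver of coherent systems in the coloured matrix model. -/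

open Set

namespace Pool.Agent.Bet

open Pool.Agent.P.MP_d34769_ag (Rep)

noncomputable section

/-- Sources of the arrows. -/
def sr3 : Fin 3 → Fin 3 := ![0, 0, 2]

/-- Targets of the arrows. -/
def tg3 : Fin 3 → Fin 3 := fun _ => 1

/-- The weights. -/
def wt3 (n d k : ℕ) (α : ℝ) : Fin 3 → ℝ := ![n + (d + α * k), -(d + α * k), n * α]

/-- The index set. -/
abbrev I3 (n d k : ℕ) : Type := Fin d ⊕ Fin (n + d) ⊕ Fin k

/-- The colouring. -/
def cl3 (n d k : ℕ) : I3 n d k → Option (Fin 3)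
  | .inl _ => some 0
  | .inr (.inl _) => some 1
  | .inr (.inr _) => some 2

/-- A map from the first block to the second block. -/
def m01 {n d k : ℕ} (x : Matrix (Fin (n + d)) (Fin d) ℂ) : Matrix (I3 n d k) (I3 n d k) ℂ
  | .inr (.inl i), .inl j => x i j
  | _, _ => 0

/-- A map from the third block to the second block. -/
def m21 {n d k : ℕ} (z : Matrix (Fin (n + d)) (Fin k) ℂ) : Matrix (I3 n d k) (I3 n d k) ℂ
  | .inr (.inl i), .inr (.inr j) => z i j
  | _, _ => 0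

/-- A representation in the coloured matrix model. -/
def toCj {n d k : ℕ} (ρ : Rep ℂ n d k) : Cj (Fin 3) (I3 n d k) := ![m01 ρ.x, m01 ρ.y, m21 ρ.z]

/-- The Laurent series `s` and the function `f` on `(0, 1)` come from one rational function. -/
def Rel (s : LaurentSeries ℚ) (f : ℚ → ℚ) : Prop :=
  ∃ N M : Polynomial ℚ, (∀ t : ℚ, 0 < t → t < 1 → M.eval t ≠ 0 ∧ f t * M.eval t = N.eval t) ∧
    s * algebraMap (Polynomial ℚ) (LaurentSeries ℚ) M = algebraMap (Polynomial ℚ) (LaurentSeries ℚ) N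

end

end Pool.Agent.Bet
end

-- part Pool.Agent.P.MP_d34769_ag.BF2
section

/-! TASK BF2: Laurent series and rational functions. -/

open Classical

namespace Pool.Agent.Bet

open Pool.Agent.P.MP_d34769_ag (pser)

variable {s s' : LaurentSeries ℚ} {f f' : ℚ → ℚ}

lemma aux1_BF2 : Function.Injective (algebraMap (Polynomial ℚ) (LaurentSeries ℚ)) :=
  Polynomial.algebraMap_hahnSeries_injective ℤ

lemma aux2_BF2 {M : Polynomial ℚ} (h : M.eval (1 / 2) ≠ 0) :
    algebraMap (Polynomial ℚ) (LaurentSeries ℚ) M ≠ 0 := by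
  intro e
  rw [← map_zero (algebraMap (Polynomial ℚ) (LaurentSeries ℚ))] at e
  rw [aux1_BF2 e] at h
  exact h Polynomial.eval_zero

theorem Rel.add (h : Rel s f) (h' : Rel s' f') : Rel (s + s') fun t => f t + f' t := by
  obtain ⟨N, M, h1, h2⟩ := h
  obtain ⟨N', M', k1, k2⟩ := h'
  refine ⟨N * M' + N' * M, M * M', fun t t0 t1 => ?_, ?_⟩
  · obtain ⟨a1, a2⟩ := h1 t t0 t1
    obtain ⟨b1, b2⟩ := k1 t t0 t1
    simp only [Polynomial.eval_mul, Polynomial.eval_add]
    refine ⟨mul_ne_zero a1 b1, ?_⟩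
    rw [← a2, ← b2]
    ring
  · rw [map_add, map_mul, map_mul, map_mul, ← h2, ← k2]
    ring

theorem Rel.mul (h : Rel s f) (h' : Rel s' f') : Rel (s * s') fun t => f t * f' t := by
  obtain ⟨N, M, h1, h2⟩ := h
  obtain ⟨N', M', k1, k2⟩ := h'
  refine ⟨N * N', M * M', fun t t0 t1 => ?_, ?_⟩
  · obtain ⟨a1, a2⟩ := h1 t t0 t1
    obtain ⟨b1, b2⟩ := k1 t t0 t1
    simp only [Polynomial.eval_mul]
    refine ⟨mul_ne_zero a1 b1, ?_⟩
    rw [← a2, ← b2]
    ring
  · rw [map_mul, map_mul, ← h2, ← k2]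
    ring

theorem Rel.neg (h : Rel s f) : Rel (-s) fun t => -f t := by
  obtain ⟨N, M, h1, h2⟩ := h
  refine ⟨-N, M, fun t t0 t1 => ?_, ?_⟩
  · obtain ⟨a1, a2⟩ := h1 t t0 t1
    refine ⟨a1, ?_⟩
    rw [Polynomial.eval_neg, ← a2]
    ring
  · rw [map_neg, ← h2]
    ring

theorem Rel.poly (p : Polynomial ℚ) :
    Rel (algebraMap (Polynomial ℚ) (LaurentSeries ℚ) p) fun t => p.eval t := by
  refine ⟨p, 1, fun t _ _ => ?_, ?_⟩
  · simp
  · rw [map_one, mul_one]

theorem Rel.inv (h : Rel s f) (h0 : ∀ t : ℚ, 0 < t → t < 1 → f t ≠ 0) :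
    Rel s⁻¹ fun t => (f t)⁻¹ := by
  obtain ⟨N, M, h1, h2⟩ := h
  have hN : ∀ t : ℚ, 0 < t → t < 1 → N.eval t ≠ 0 := fun t t0 t1 => by
    rw [← (h1 t t0 t1).2]
    exact mul_ne_zero (h0 t t0 t1) (h1 t t0 t1).1
  refine ⟨M, N, fun t t0 t1 => ⟨hN t t0 t1, ?_⟩, ?_⟩
  · rw [← (h1 t t0 t1).2, inv_mul_cancel_left₀ (h0 t t0 t1)]
  · have hs : s ≠ 0 := by
      rintro rfl
      rw [zero_mul] at h2
      exact aux2_BF2 (hN _ (by norm_num) (by norm_num)) h2.symm
    rw [← h2, inv_mul_cancel_left₀ hs]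

theorem Rel.congr (h : Rel s f) (e : ∀ t : ℚ, 0 < t → t < 1 → f t = f' t) : Rel s f' := by
  obtain ⟨N, M, h1, h2⟩ := h
  exact ⟨N, M, fun t t0 t1 => e t t0 t1 ▸ h1 t t0 t1, h2⟩

theorem Rel.left_unique (h : Rel s f) (h' : Rel s' f) : s = s' := by
  obtain ⟨N, M, h1, h2⟩ := h
  obtain ⟨N', M', k1, k2⟩ := h'
  have e : N * M' = N' * M := by
    refine Polynomial.eq_of_infinite_eval_eq _ _
      ((Set.Ioo_infinite (zero_lt_one' ℚ)).mono fun t ht => ?_)
    change (N * M').eval t = (N' * M).eval t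
    rw [Polynomial.eval_mul, Polynomial.eval_mul, ← (h1 t ht.1 ht.2).2, ← (k1 t ht.1 ht.2).2]
    ring
  have e' := congrArg (algebraMap (Polynomial ℚ) (LaurentSeries ℚ)) e
  rw [map_mul, map_mul, ← h2, ← k2] at e'
  refine mul_right_cancel₀ (mul_ne_zero (aux2_BF2 (h1 _ (by norm_num) (by norm_num)).1)
    (aux2_BF2 (k1 _ (by norm_num) (by norm_num)).1)) ?_
  rw [← mul_assoc, e']
  ring

theorem Rel.right_unique (h : Rel s f) (h' : Rel s f') {t : ℚ} (h0 : 0 < t) (h1 : t < 1) :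
    f t = f' t := by
  obtain ⟨N, M, a1, a2⟩ := h
  obtain ⟨N', M', k1, k2⟩ := h'
  have e : N * M' = N' * M := by
    refine aux1_BF2 ?_
    rw [map_mul, map_mul, ← a2, ← k2]
    ring
  have e' := congrArg (Polynomial.eval t) e
  rw [Polynomial.eval_mul, Polynomial.eval_mul, ← (a1 t h0 h1).2, ← (k1 t h0 h1).2] at e'
  refine mul_right_cancel₀ (mul_ne_zero (a1 t h0 h1).1 (k1 t h0 h1).1) ?_
  rw [← mul_assoc, e']
  ring

lemma aux3_BF2 : Rel 0 fun _ => 0 := by
  have := Rel.poly 0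
  rw [map_zero] at this
  exact this.congr fun t _ _ => Polynomial.eval_zero

lemma aux4_BF2 : Rel 1 fun _ => 1 := by
  have := Rel.poly 1
  rw [map_one] at this
  exact this.congr fun t _ _ => Polynomial.eval_one

lemma aux5_BF2 (h : Rel s f) (n : ℕ) : Rel (s ^ n) fun t => f t ^ n := by
  induction n with
  | zero => simpa only [pow_zero] using aux4_BF2
  | succ n ih => simpa only [pow_succ] using ih.mul h

theorem rel_zpow (m : ℤ) :
    Rel (algebraMap (Polynomial ℚ) (LaurentSeries ℚ) Polynomial.X ^ m) fun t => t ^ m := by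
  have hX : Rel (algebraMap (Polynomial ℚ) (LaurentSeries ℚ) Polynomial.X) fun t => t :=
    (Rel.poly Polynomial.X).congr fun t _ _ => Polynomial.eval_X
  obtain ⟨n, rfl | rfl⟩ := m.eq_nat_or_neg
  · simpa only [zpow_natCast] using aux5_BF2 hX n
  · simpa only [zpow_neg, zpow_natCast] using
      (aux5_BF2 hX n).inv fun t t0 _ => pow_ne_zero n t0.ne'

lemma aux6_BF2 {α : Type} (T : Finset α) {S : α → LaurentSeries ℚ} {F : α → ℚ → ℚ}
    (h : ∀ a ∈ T, Rel (S a) (F a)) : Rel (∑ a ∈ T, S a) fun t => ∑ a ∈ T, F a t := by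
  induction T using Finset.induction_on with
  | empty => simpa only [Finset.sum_empty] using aux3_BF2
  | insert a T ha ih =>
    simp only [Finset.sum_insert ha]
    exact (h a (Finset.mem_insert_self _ _)).add
      (ih fun b hb => h b (Finset.mem_insert_of_mem hb))

lemma aux7_BF2 {α : Type} (T : Finset α) {S : α → LaurentSeries ℚ} {F : α → ℚ → ℚ}
    (h : ∀ a ∈ T, Rel (S a) (F a)) : Rel (∏ a ∈ T, S a) fun t => ∏ a ∈ T, F a t := by
  induction T using Finset.induction_on with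
  | empty => simpa only [Finset.prod_empty] using aux4_BF2
  | insert a T ha ih =>
    simp only [Finset.prod_insert ha]
    exact (h a (Finset.mem_insert_self _ _)).mul
      (ih fun b hb => h b (Finset.mem_insert_of_mem hb))

open Pool.Agent.P.MP_d34769_ag (sz pstep)

/-- One step of the recursion over Laurent series. -/
noncomputable def step_BF2 (θ : (Fin 3 → ℕ) → ℝ) (q : LaurentSeries ℚ)
    (p : (Fin 3 → ℕ) → LaurentSeries ℚ) (e : Fin 3 → ℕ) : LaurentSeries ℚ :=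
  if e = 0 then 1 else
    - ∑ f ∈ (Finset.Iic e).filter (fun f => f ≠ e ∧ 0 ≤ θ f),
      p f * q ^ ((2 * (e 0 - f 0) + (e 2 - f 2)) * e 1) /
        ∏ i, ∏ j ∈ Finset.Ico (f i) (e i), (q ^ e i - q ^ j)

lemma aux8_BF2 {e g : Fin 3 → ℕ} (h : g ≤ e) (hne : g ≠ e) : sz g < sz e := by
  have h0 : g 0 ≤ e 0 := h 0
  have h1 : g 1 ≤ e 1 := h 1
  have h2 : g 2 ≤ e 2 := h 2
  by_contra hc
  unfold sz at hc
  refine hne (funext fun i => ?_)
  fin_cases i
  · change g 0 = e 0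
    omega
  · change g 1 = e 1
    omega
  · change g 2 = e 2
    omega

lemma aux9_BF2 (θ : (Fin 3 → ℕ) → ℝ) (q : LaurentSeries ℚ)
    {p p' : (Fin 3 → ℕ) → LaurentSeries ℚ} {e : Fin 3 → ℕ} (h : ∀ g, sz g < sz e → p g = p' g) :
    step_BF2 θ q p e = step_BF2 θ q p' e := by
  unfold step_BF2
  split_ifs
  · rfl
  · refine congrArg Neg.neg (Finset.sum_congr rfl fun g hg => ?_)
    rw [Finset.mem_filter, Finset.mem_Iic] at hg
    rw [h g (aux8_BF2 hg.1 hg.2.1)]

lemma aux10_BF2 (θ : (Fin 3 → ℕ) → ℝ) (q : LaurentSeries ℚ) (N : ℕ) :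
    ∀ (M : ℕ) (e : Fin 3 → ℕ), sz e < N → sz e < M →
      (step_BF2 θ q)^[N] 0 e = (step_BF2 θ q)^[M] 0 e := by
  induction N with
  | zero => exact fun M e h _ => absurd h (Nat.not_lt_zero _)
  | succ N ih =>
    intro M e hN hM
    obtain ⟨M, rfl⟩ : ∃ K, M = K + 1 := ⟨M - 1, by omega⟩
    rw [Function.iterate_succ_apply', Function.iterate_succ_apply']
    exact aux9_BF2 θ q fun g hg => ih M g (by omega) (by omega)

lemma aux11_BF2 (θ : (Fin 3 → ℕ) → ℝ) {q : LaurentSeries ℚ} (hq : Rel q fun t => t⁻¹ ^ 2)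
    (N : ℕ) : ∀ e, Rel ((step_BF2 θ q)^[N] 0 e) fun t => (pstep θ (t⁻¹ ^ 2))^[N] 0 e := by
  induction N with
  | zero => exact fun _ => aux3_BF2
  | succ N ih =>
    intro e
    simp only [Function.iterate_succ_apply', pstep, step_BF2]
    split_ifs
    · exact aux4_BF2
    · simp only [div_eq_mul_inv, sub_eq_add_neg]
      refine (aux6_BF2 _ fun g _ => ((ih g).mul (aux5_BF2 hq _)).mul (Rel.inv (aux7_BF2 _ fun i _ =>
        aux7_BF2 _ fun j _ => (aux5_BF2 hq _).add (aux5_BF2 hq _).neg) fun t t0 t1 => ?_)).neg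
      have h1 : 1 < t⁻¹ ^ 2 := one_lt_pow₀ ((one_lt_inv₀ t0).2 t1) two_ne_zero
      refine Finset.prod_ne_zero_iff.2 fun i _ => Finset.prod_ne_zero_iff.2 fun j hj => ?_
      rw [← sub_eq_add_neg]
      exact sub_ne_zero.2 (pow_lt_pow_right₀ h1 (Finset.mem_Ico.1 hj).2).ne'

/-- the recursion for `pser` in the field of Laurent series, at `q = x ^ (-2)` -/
theorem exists_pL (θ : (Fin 3 → ℕ) → ℝ) {q : LaurentSeries ℚ}
    (hq : q = algebraMap (Polynomial ℚ) (LaurentSeries ℚ) Polynomial.X ^ (-2 : ℤ)) :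
    ∃ P : (Fin 3 → ℕ) → LaurentSeries ℚ, (∀ e, Rel (P e) fun t => pser θ (t⁻¹ ^ 2) e) ∧ P 0 = 1 ∧
      ∀ e, e ≠ 0 → P e = -∑ f ∈ (Finset.Iic e).filter (fun f => f ≠ e ∧ 0 ≤ θ f),
        P f * q ^ ((2 * (e 0 - f 0) + (e 2 - f 2)) * e 1) /
          ∏ i, ∏ j ∈ Finset.Ico (f i) (e i), (q ^ e i - q ^ j) := by
  have hq' : Rel q fun t => t⁻¹ ^ 2 := by
    rw [hq]
    refine (rel_zpow (-2)).congr fun t _ _ => ?_
    rw [zpow_neg, inv_pow]
    rfl
  have hfix : ∀ e, (step_BF2 θ q)^[sz e + 1] 0 e =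
      step_BF2 θ q (fun g => (step_BF2 θ q)^[sz g + 1] 0 g) e := by
    intro e
    rw [Function.iterate_succ_apply']
    exact aux9_BF2 θ q fun g hg => aux10_BF2 θ q _ _ g hg (Nat.lt_succ_self _)
  refine ⟨fun e => (step_BF2 θ q)^[sz e + 1] 0 e, fun e => aux11_BF2 θ hq' _ e, ?_, fun e he => ?_⟩
  · exact (hfix 0).trans (if_pos rfl)
  · exact (hfix e).trans (if_neg he)

end Pool.Agent.Bet
end

-- part Pool.Agent.P.MP_d34769_ag.BF3
section

/-! TASK BF3: the solution of the topological recursion is the counting series. -/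

open Classical

namespace Pool.Agent.Bet

open Pool.Agent.P.MP_d34769_ag (pser wgt)

theorem th_wt3 (n d k : ℕ) (α : ℝ) : th (wt3 n d k α) = wgt n d k α := by
  funext e
  simp only [th, wt3, wgt, Fin.sum_univ_three, Matrix.cons_val_zero, Matrix.cons_val_one,
    Matrix.cons_val]
  ring

/-- The Euler form of the quiver. -/
def chi_BF3 (a b : Fin 3 → ℕ) : ℤ := (bb id id a b : ℤ) - (bb sr3 tg3 a b : ℤ)

theorem chi_eq_BF3 (a b : Fin 3 → ℕ) : chi_BF3 a b =
    (a 0 : ℤ) * b 0 + a 1 * b 1 + a 2 * b 2 - (2 * a 0 + a 2) * b 1 := by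
  simp only [chi_BF3, bb, sr3, tg3, Fin.sum_univ_three, id, Matrix.cons_val_zero,
    Matrix.cons_val_one, Matrix.cons_val]
  push_cast
  ring

theorem x_eq_BF3 : algebraMap (Polynomial ℚ) (LaurentSeries ℚ) Polynomial.X =
    HahnSeries.ofPowerSeries ℤ ℚ PowerSeries.X := by
  rw [HahnSeries.algebraMap_apply', PowerSeries.algebraMap_apply']
  simp

theorem x_ne_BF3 : HahnSeries.ofPowerSeries ℤ ℚ PowerSeries.X ≠ 0 := by
  rw [Ne, ← map_zero (HahnSeries.ofPowerSeries ℤ ℚ)]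
  exact fun h => PowerSeries.X_ne_zero (HahnSeries.ofPowerSeries_injective h)

theorem ad_BF3 (g : Fin 3 → ℕ) : HahnSeries.ofPowerSeries ℤ ℚ (Ad g) =
    (∏ v, ∏ i ∈ Finset.range (g v),
      (1 - HahnSeries.ofPowerSeries ℤ ℚ PowerSeries.X ^ (2 * (i + 1))))⁻¹ := by
  rw [Ad, map_prod, ← Finset.prod_inv_distrib]
  refine Finset.prod_congr rfl fun v _ => ?_
  rw [map_prod, ← Finset.prod_inv_distrib]
  refine Finset.prod_congr rfl fun i _ => ?_
  have h := PowerSeries.mul_inv_cancel (1 - PowerSeries.X ^ (2 * (i + 1)) : PowerSeries ℚ)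
    (by simp)
  have h2 := congrArg (HahnSeries.ofPowerSeries ℤ ℚ) h
  rw [map_mul, map_one, map_sub, map_one, map_pow] at h2
  exact eq_inv_of_mul_eq_one_right h2

theorem ico_BF3 {F : Type} [Field F] {x : F} (hx : x ≠ 0) (f g : ℕ) :
    ∏ j ∈ Finset.Ico f (f + g), ((x ^ (-2 : ℤ)) ^ (f + g) - (x ^ (-2 : ℤ)) ^ j) =
      (x ^ (-2 : ℤ)) ^ ((f + g) * g) * ∏ i ∈ Finset.range g, (1 - x ^ (2 * (i + 1))) := by
  rw [Finset.prod_Ico_eq_prod_range, Nat.add_sub_cancel_left, ← Finset.prod_range_reflect,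
    pow_mul, ← Finset.card_range g, ← Finset.prod_const, Finset.card_range,
    ← Finset.prod_mul_distrib]
  refine Finset.prod_congr rfl fun i hi => ?_
  obtain ⟨m, rfl⟩ : ∃ m, g = m + (i + 1) := ⟨g - (i + 1), by
    have := Finset.mem_range.1 hi; omega⟩
  have e1 : f + (m + (i + 1) - 1 - i) = f + m := by omega
  have e2 : (x ^ (-2 : ℤ)) ^ (i + 1) * x ^ (2 * (i + 1)) = 1 := by
    rw [pow_mul, ← mul_pow, zpow_neg, show x ^ (2 : ℤ) = x ^ 2 from zpow_ofNat x 2,
      inv_mul_cancel₀ (pow_ne_zero 2 hx), one_pow]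
  rw [e1, mul_sub, mul_one, ← add_assoc, pow_add _ (f + m), mul_assoc, e2, mul_one]

theorem term_BF3 {F : Type} [Field F] {x : F} (hx : x ≠ 0) (f g : Fin 3 → ℕ) (u : F) :
    u * (x ^ (-2 : ℤ)) ^ ((2 * ((f + g) 0 - f 0) + ((f + g) 2 - f 2)) * (f + g) 1) /
      ∏ i, ∏ j ∈ Finset.Ico (f i) ((f + g) i), ((x ^ (-2 : ℤ)) ^ (f + g) i - (x ^ (-2 : ℤ)) ^ j) =
    u * (x ^ (2 * chi_BF3 g g) * (∏ v, ∏ i ∈ Finset.range (g v), (1 - x ^ (2 * (i + 1))))⁻¹) *
      (x ^ (-2 : ℤ)) ^ (-chi_BF3 g f) := by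
  simp only [Pi.add_apply, ico_BF3 hx, Nat.add_sub_cancel_left, Finset.prod_mul_distrib]
  rw [Finset.prod_pow_eq_pow_sum, div_eq_mul_inv, mul_inv, ← zpow_natCast, ← zpow_natCast,
    ← zpow_mul, ← zpow_mul, ← zpow_mul, ← zpow_neg]
  generalize (∏ v, ∏ i ∈ Finset.range (g v), (1 - x ^ (2 * (i + 1))))⁻¹ = A
  have e : ∀ a b c d : ℤ, a + b = c + d → u * x ^ a * (x ^ b * A) = u * (x ^ c * A) * x ^ d := by
    intro a b c d h
    calc u * x ^ a * (x ^ b * A) = u * A * x ^ (a + b) := by rw [zpow_add₀ hx]; ring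
      _ = _ := by rw [h, zpow_add₀ hx]; ring
  apply e
  rw [chi_eq_BF3, chi_eq_BF3, Fin.sum_univ_three]
  push_cast
  ring

theorem rel_G {n d k : ℕ} {α : ℝ} (hg : Gen (wt3 n d k α) ![d, n + d, k])
    {G L : (Fin 3 → ℕ) → PowerSeries ℚ} {r : (Fin 3 → ℕ) → (Fin 3 → ℕ) → PowerSeries ℚ}
    (h : Rec sr3 tg3 (wt3 n d k α) ![d, n + d, k] G L r) :
    Rel (HahnSeries.ofPowerSeries ℤ ℚ ((1 - PowerSeries.X ^ 2) * G ![d, n + d, k]))
      fun t => t ^ (2 * ((k : ℤ) * (d + n - k) - n ^ 2 + 1)) * (1 - t⁻¹ ^ 2) *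
        pser (wgt n d k α) (t⁻¹ ^ 2) ![d, n + d, k] := by
  obtain ⟨P, hR, P0, hP⟩ := exists_pL (wgt n d k α) rfl
  have hz := rel_zpow
  rw [x_eq_BF3] at hP hz
  have hx := x_ne_BF3
  have had := ad_BF3
  set φ := HahnSeries.ofPowerSeries ℤ ℚ with hφ
  set x := φ PowerSeries.X with hxd
  have c1 : ∀ a b e, chi_BF3 (a + b) e = chi_BF3 a e + chi_BF3 b e := by
    intro a b e; simp only [chi_eq_BF3, Pi.add_apply]; push_cast; ring
  have c2 : ∀ a b e, chi_BF3 e (a + b) = chi_BF3 e a + chi_BF3 e b := by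
    intro a b e; simp only [chi_eq_BF3, Pi.add_apply]; push_cast; ring
  have c0 : chi_BF3 0 0 = 0 := by simp [chi_eq_BF3]
  have key := twisted (q := x ^ (-2 : ℤ)) (zpow_ne_zero _ hx) c1 c2 hg
    (B := fun e => x ^ (2 * chi_BF3 e e) * φ (G e)) (C := fun e => x ^ (2 * chi_BF3 e e) * φ (L e))
    (a := fun e => x ^ (2 * chi_BF3 e e) * φ (Ad e)) (P := P)
    (by simp only [c0, h.G0, map_one, mul_zero, zpow_zero, mul_one])
    (by simp only [c0, h.L0, map_one, mul_zero, zpow_zero, mul_one])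
    (fun e he => by simp only [h.Gz e he, map_zero, mul_zero])
    (fun e he he' => by simp only [h.Lz e he he', map_zero, mul_zero])
    (fun e he => by
      rw [← h.sum e he, map_sum, Finset.mul_sum]
      refine Finset.sum_congr rfl fun g hg => ?_
      obtain ⟨m, rfl⟩ := exists_add_of_le (show g ≤ e by simpa using hg)
      rw [add_tsub_cancel_left]
      have b1 := congrArg φ (h.div g m he)
      simp only [map_mul, map_pow] at b1
      rw [← hxd, ← zpow_natCast, ← zpow_natCast] at b1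
      have b2 : φ (r g m) = x ^ (-(2 * chi_BF3 g m)) * (φ (G g) * φ (L m)) := by
        refine mul_left_cancel₀ (zpow_ne_zero ((2 * bb id id g m : ℕ) : ℤ) hx) ?_
        rw [b1, ← mul_assoc (x ^ ((2 * bb id id g m : ℕ) : ℤ)), ← zpow_add₀ hx]
        congr 2
        rw [chi_BF3]; push_cast; ring
      rw [b2, ← zpow_mul, c1, c2, c2, ← mul_assoc, ← zpow_add₀ hx]
      have b3 : 2 * (chi_BF3 g g + chi_BF3 g m + (chi_BF3 m g + chi_BF3 m m)) +
          -(2 * chi_BF3 g m) = 2 * chi_BF3 g g + 2 * chi_BF3 m m + -2 * -chi_BF3 m g := by ring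
      rw [b3, zpow_add₀ hx, zpow_add₀ hx]
      ring) P0
    (fun e he => by
      rw [hP e he, th_wt3]
      congr 1
      refine Finset.sum_congr (by ext f; simp) fun f hf => ?_
      obtain ⟨g, rfl⟩ := exists_add_of_le (show f ≤ e by simpa using (Finset.mem_filter.1 hf).1)
      rw [add_tsub_cancel_left, had, term_BF3 hx])
  have cD : chi_BF3 ![d, n + d, k] ![d, n + d, k] =
      1 - ((k : ℤ) * (d + n - k) - n ^ 2 + 1) := by
    simp only [chi_eq_BF3, Matrix.cons_val_zero, Matrix.cons_val_one, Matrix.cons_val]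
    push_cast; ring
  generalize (k : ℤ) * (d + n - k) - n ^ 2 + 1 = β at cD ⊢
  have h1 := ((hz (2 * β)).mul ((hz 0).add (hz (-2)).neg)).mul (hR ![d, n + d, k])
  have e1 : φ ((1 - PowerSeries.X ^ 2) * G ![d, n + d, k]) =
      x ^ (2 * β) * (x ^ (0 : ℤ) + -x ^ (-2 : ℤ)) * P ![d, n + d, k] := by
    rw [key, cD, map_mul, map_sub, map_one, map_pow, ← hxd, zpow_zero]
    have b1 : x ^ (2 * β) * x ^ (2 * (1 - β)) = x ^ 2 := by
      rw [← zpow_add₀ hx, show 2 * β + 2 * (1 - β) = 2 by ring]; exact zpow_ofNat x 2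
    have b2 : x ^ (-2 : ℤ) * x ^ 2 = 1 := by
      rw [zpow_neg, show x ^ (2 : ℤ) = x ^ 2 from zpow_ofNat x 2,
        inv_mul_cancel₀ (pow_ne_zero 2 hx)]
    linear_combination (φ (G ![d, n + d, k]) * (1 - x ^ (-2 : ℤ))) * b1 -
      φ (G ![d, n + d, k]) * b2
  rw [e1]
  refine h1.congr fun t _ _ => ?_
  rw [zpow_zero, zpow_neg, show t ^ (2 : ℤ) = t ^ 2 from zpow_ofNat t 2, inv_pow, sub_eq_add_neg]

end Pool.Agent.Bet
end
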