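import Pool.Agent.K.MP_d34769_ag.C141

-- part Pool.Agent.P.MP_d34769_ag.BM4
section

/-! TASK BM4: colourings, dimensions. -/

open Set Matrix

namespace Pool.Agent.Bet

variable {ι : Type} [Fintype ι] [DecidableEq ι] {κ : Type} {Ar : Type}
  {c : ι → Option κ} {p : ι → Bool}

theorem dv_add (c : ι → Option κ) (p : ι → Bool) : dv (c1 c p) + dv (c2 c p) = dv c := by
  classical
  funext v
  simp only [Pi.add_apply, dv, Finset.card_filter, ← Finset.sum_add_distrib]
  refine Finset.sum_congr rfl fun i _ => ?_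
  cases hp : p i <;> simp [c1, c2, hp]

theorem exists_part {f : κ → ℕ} (h : f ≤ dv c) : ∃ p, Adm c p ∧ dv (c1 c p) = f := by
  classical
  have h1 : ∀ v, ∃ T : Finset ι, (∀ i ∈ T, c i = some v) ∧ T.card = f v := fun v => by
    obtain ⟨T, hT, e⟩ := Finset.exists_subset_card_eq (h v)
    exact ⟨T, fun i hi => (Finset.mem_filter.1 (hT hi)).2, e⟩
  choose T hT hc using h1
  refine ⟨fun i => decide (∃ v, i ∈ T v), fun i hi => ?_, funext fun v => ?_⟩
  · obtain ⟨v, hv⟩ := of_decide_eq_true hi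
    rw [hT v i hv]
    exact Option.some_ne_none v
  · rw [← hc v, dv]
    refine congrArg Finset.card (Finset.ext fun i => ?_)
    simp only [Finset.mem_filter, Finset.mem_univ, true_and, c1, decide_eq_true_eq]
    constructor
    · intro hi
      split_ifs at hi with h2
      obtain ⟨w, hw⟩ := h2
      have e : w = v := Option.some_injective _ ((hT w i hw).symm.trans hi)
      rwa [← e]
    · intro hi
      rw [if_pos ⟨v, hi⟩]
      exact hT v i hi

theorem dv_eq_zero : dv c = 0 ↔ ∀ i, c i = none := by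
  classical
  constructor
  · intro h i
    cases hi : c i with
    | none => rfl
    | some v =>
      have h1 : dv c v = 0 := congrFun h v
      rw [dv, Finset.card_eq_zero, Finset.filter_eq_empty_iff] at h1
      exact (h1 (Finset.mem_univ i) hi).elim
  · intro h
    funext v
    rw [Pi.zero_apply, dv, Finset.card_eq_zero, Finset.filter_eq_empty_iff]
    intro i _
    rw [h i]
    exact (Option.some_ne_none v).symm

theorem equiv_BM4 {M I : Type} [AddCommGroup M] [Module ℂ M] (co : M ≃ₗ[ℂ] (I → ℂ))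
    (Q : I → Prop) (W : Submodule ℂ M) (h : ∀ φ, φ ∈ W ↔ ∀ x, ¬ Q x → co φ x = 0) :
    Nonempty (W ≃ₗ[ℂ] ({x // Q x} → ℂ)) := by
  classical
  refine ⟨LinearEquiv.ofBijective
    (LinearMap.funLeft ℂ ℂ (Subtype.val : {x // Q x} → I) ∘ₗ co.toLinearMap ∘ₗ W.subtype)
    ⟨(injective_iff_map_eq_zero _).2 fun φ hφ => ?_, fun g => ?_⟩⟩
  · refine Subtype.ext (co.map_eq_zero_iff.1 (funext fun x => ?_))
    by_cases hx : Q x
    · exact congrFun hφ ⟨x, hx⟩
    · exact (h _).1 φ.2 x hx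
  · refine ⟨⟨co.symm fun x => if hx : Q x then g ⟨x, hx⟩ else 0, (h _).2 fun x hx => ?_⟩,
      funext fun x => ?_⟩
    · rw [LinearEquiv.apply_symm_apply, dif_neg hx]
    · change co (co.symm fun x => if hx : Q x then g ⟨x, hx⟩ else 0) x.1 = g x
      rw [LinearEquiv.apply_symm_apply, dif_pos x.2]

/-- the entries of a tuple of matrices -/
def coCj_BM4 (Ar ι : Type) : Cj Ar ι ≃ₗ[ℂ] (Ar × ι × ι → ℂ) where
  toFun φ x := φ x.1 x.2.1 x.2.2
  invFun g := fun a => Matrix.of fun i j => g (a, i, j)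
  map_add' _ _ := rfl
  map_smul' _ _ := rfl
  left_inv _ := rfl
  right_inv _ := rfl

/-- the entries of a matrix -/
def coMt_BM4 (ι : Type) : Mt ι ≃ₗ[ℂ] (ι × ℕ → ℂ) where
  toFun f x := f.m x.1 x.2
  invFun g := Matrix.of fun i j => g (i, j)
  map_add' _ _ := rfl
  map_smul' _ _ := rfl
  left_inv _ := rfl
  right_inv _ := rfl

theorem mem_R21_BM4 (s t : Ar → κ) (c : ι → Option κ) (p : ι → Bool) (φ : Cj Ar ι) :
    φ ∈ R21 s t c p ↔ ∀ a i j, ¬ (c1 c p j = some (s a) ∧ c2 c p i = some (t a)) → φ a i j = 0 := by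
  constructor
  · rintro ⟨h1, h2⟩ a i j hij
    have k1 := congrFun (congrFun (h1 a) i) j
    have k2 := congrFun (congrFun (congrFun h2 a) i) j
    simp only [dg, mul_dp_apply, dp_mul_apply] at k1
    simp only [blk, e1, e2, mul_dp_apply, dp_mul_apply] at k2
    by_contra h0
    refine hij ⟨?_, ?_⟩
    · by_cases a1 : p j = true
      · by_cases a2 : c j = some (s a)
        · simp [c1, a1, a2]
        · exact (h0 (by rw [← k1, if_neg a2])).elim
      · exact (h0 (by rw [← k2, if_neg a1])).elim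
    · by_cases a1 : p i = false
      · by_cases a2 : c i = some (t a)
        · simp [c2, a1, a2]
        · exact (h0 (by rw [← k1, if_neg a2, ite_self])).elim
      · exact (h0 (by rw [← k2, if_neg a1, ite_self])).elim
  · intro h
    refine ⟨fun a => ?_, funext fun a => ?_⟩
    · ext i j
      simp only [dg, mul_dp_apply, dp_mul_apply]
      split_ifs with a1 a2
      · rfl
      · refine (h a i j fun e => a2 ?_).symm
        have := e.2
        simp only [c2] at this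
        split_ifs at this
        exact this
      · refine (h a i j fun e => a1 ?_).symm
        have := e.1
        simp only [c1] at this
        split_ifs at this
        exact this
    · ext i j
      simp only [blk, e1, e2, mul_dp_apply, dp_mul_apply]
      split_ifs with a1 a2
      · rfl
      · refine (h a i j fun e => a2 ?_).symm
        have := e.2
        simp only [c2] at this
        split_ifs at this with a3
        simpa using a3
      · refine (h a i j fun e => a1 ?_).symm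
        have := e.1
        simp only [c1] at this
        split_ifs at this

theorem finrank_R21 [Fintype Ar] (s t : Ar → κ) (c : ι → Option κ) (p : ι → Bool) :
    Module.finrank ℂ (R21 s t c p) = bb s t (dv (c1 c p)) (dv (c2 c p)) := by
  classical
  obtain ⟨e⟩ := equiv_BM4 (coCj_BM4 Ar ι)
    (fun x => c1 c p x.2.2 = some (s x.1) ∧ c2 c p x.2.1 = some (t x.1)) (R21 s t c p) fun φ => by
      rw [mem_R21_BM4]
      exact ⟨fun h x hx => h _ _ _ hx, fun h a i j hx => h (a, i, j) hx⟩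
  rw [e.finrank_eq, Module.finrank_fintype_fun_eq_card, Fintype.card_subtype, Finset.card_filter,
    Fintype.sum_prod_type, bb]
  refine Finset.sum_congr rfl fun a _ => ?_
  rw [Fintype.sum_prod_type, Finset.sum_comm, dv, dv, Finset.card_filter, Finset.card_filter,
    Finset.sum_mul_sum]
  refine Finset.sum_congr rfl fun j _ => Finset.sum_congr rfl fun i _ => ?_
  by_cases a1 : c1 c p j = some (s a) <;> by_cases a2 : c2 c p i = some (t a) <;> simp [a1, a2]

omit [Fintype ι] [DecidableEq ι] in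
theorem equiv_F0_BM4 (c : ι → Option κ) (v : κ) :
    Nonempty (F0 c v ≃ₗ[ℂ] ({i // c i = some v} → ℂ)) := by
  obtain ⟨e⟩ := equiv_BM4 (coMt_BM4 ι) (fun x => c x.1 = some v ∧ x.2 = 0) (F0 c v) fun f =>
    ⟨fun h x hx => h _ _ (not_and_or.1 hx), fun h i j hx => h (i, j) (not_and_or.2 hx)⟩
  let σ : {i // c i = some v} ≃ {x : ι × ℕ // c x.1 = some v ∧ x.2 = 0} :=
    { toFun := fun i => ⟨(i.1, 0), i.2, rfl⟩
      invFun := fun x => ⟨x.1.1, x.2.1⟩
      left_inv := fun _ => rfl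
      right_inv := fun x => Subtype.ext (Prod.ext rfl x.2.2.symm) }
  exact ⟨e.trans (LinearEquiv.funCongrLeft ℂ ℂ σ)⟩

theorem finite_F0 (c : ι → Option κ) (v : κ) : FiniteDimensional ℂ (F0 c v) := by
  obtain ⟨e⟩ := equiv_F0_BM4 c v
  exact e.symm.finiteDimensional

theorem finrank_F0 (c : ι → Option κ) (v : κ) : Module.finrank ℂ (F0 c v) = dv c v := by
  classical
  obtain ⟨e⟩ := equiv_F0_BM4 c v
  rw [e.finrank_eq, Module.finrank_fintype_fun_eq_card, Fintype.card_subtype, dv]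

end Pool.Agent.Bet
end

-- part Pool.Agent.P.MP_d34769_ag.BM4b
section

/-! TASK BM4b: block groups and blocks. -/

open Set Matrix

namespace Pool.Agent.Bet

variable {ι : Type} [Fintype ι] [DecidableEq ι] {κ : Type} {Ar : Type}
  {c : ι → Option κ} {p : ι → Bool}

omit [Fintype ι] [DecidableEq ι] in
theorem cp_iff_BM4b (c : ι → Option κ) (p : ι → Bool) (i j : ι) :
    (cp c p i ≠ cp c p j ∨ cp c p i = none) ↔ ((c i ≠ c j ∨ c i = none) ∨ p i ≠ p j) := by
  unfold cp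
  rcases c i with _ | v <;> rcases c j with _ | v' <;> simp
  tauto

theorem mem_Kc_cp {g : GG ι} : g ∈ Kc (cp c p) ↔ g ∈ Kc c ∧ e1 p * g.1 = g.1 * e1 p := by
  rw [mem_Kc, mem_Kc, mem_Gc_iff, mem_Gc_iff, e1, dp_comm_iff]
  constructor
  · rintro ⟨h, hu⟩
    refine ⟨⟨fun i j hij => h i j ((cp_iff_BM4b c p i j).2 (Or.inl hij)), hu⟩, fun i j hij => ?_⟩
    have hne : p i ≠ p j := fun e => hij (by rw [e])
    rw [h i j ((cp_iff_BM4b c p i j).2 (Or.inr hne)), if_neg fun e => hne (by rw [e])]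
  · rintro ⟨⟨h, hu⟩, h'⟩
    refine ⟨fun i j hij => ?_, hu⟩
    rcases (cp_iff_BM4b c p i j).1 hij with e | hne
    · exact h i j e
    · rw [h' i j fun e => hne (Bool.eq_iff_iff.2 e), if_neg fun e => hne (by rw [e])]

theorem Kc_cp_le (c : ι → Option κ) (p : ι → Bool) : Kc (cp c p) ≤ Kc c := by
  exact fun g h => (mem_Kc_cp.1 h).1

theorem smul_E1 {g : GG ι} : g • E1 p = E1 p ↔ e1 p * g.1 = g.1 * e1 p := by
  constructor
  · intro h
    have := congrFun h ()
    rw [Cj.smul_apply] at this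
    exact ((Units.mul_inv_eq_iff_eq_mul g).1 this).symm
  · intro h
    funext a
    rw [Cj.smul_apply]
    exact (Units.mul_inv_eq_iff_eq_mul g).2 h.symm

theorem Ec_subset_cp (c : ι → Option κ) (p : ι → Bool) : Ec c ⊆ Ec (cp c p) := by
  rintro f ⟨h1, h2⟩
  refine ⟨?_, fun v a ha => h2 v.1 a fun i hi => ha i fun e => hi ?_⟩
  · rw [← h1, dg, dg, dp_congr (P' := fun i => c i = none) fun i => by simp [cp]]
  · unfold cp at e
    obtain ⟨u, e1, e2⟩ := Option.map_eq_some_iff.1 e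
    rw [e1, ← e2]

theorem blk_smul_BM4b {x y : Matrix ι ι ℂ} {g : GG ι} (hx : x * g.1 = g.1 * x)
    (hy : y * g.1 = g.1 * y) (φ : Cj Ar ι) : blk x y (g • φ) = g • blk x y φ := by
  funext a
  have hy' : y * (g⁻¹).1 = (g⁻¹).1 * y := (Commute.units_inv_right hy).eq
  rw [blk_apply, Cj.smul_apply, Cj.smul_apply, blk_apply, ← mul_assoc, ← mul_assoc, hx,
    mul_assoc _ (g⁻¹).1 y, ← hy']
  simp only [mul_assoc]

theorem e2_comm_BM4b {x : Matrix ι ι ℂ} (h : e1 p * x = x * e1 p) : e2 p * x = x * e2 p := by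
  rw [eq_sub_of_add_eq' (e1_add_e2 p), sub_mul, mul_sub, h, one_mul, mul_one]

theorem mem_Rc_BM4b {s t : Ar → κ} {φ : Cj Ar ι} : φ ∈ Rc s t c ↔
    ∀ a i j, c i ≠ some (t a) ∨ c j ≠ some (s a) → φ a i j = 0 := by
  refine forall_congr' fun a => ?_
  simp only [← Matrix.ext_iff, dg, dp_mul_apply, mul_dp_apply]
  refine forall₂_congr fun i j => ?_
  by_cases h : c i = some (t a) <;> by_cases h' : c j = some (s a) <;> simp [h, h', eq_comm]

theorem ivt_Rc (s t : Ar → κ) (c : ι → Option κ) : Ivt (Gc c) (Rc s t c : Set (Cj Ar ι)) := by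
  intro γ φ h a
  have := congrFun (blk_smul_BM4b (γ.2.1 (some (t a))) (γ.2.1 (some (s a))) φ) a
  rw [blk_apply, Cj.smul_apply γ.1 (blk _ _ φ), blk_apply, h a] at this
  exact this

theorem ivt_R21 (s t : Ar → κ) (c : ι → Option κ) (p : ι → Bool) :
    Ivt (Kc (cp c p)) (R21 s t c p : Set (Cj Ar ι)) := by
  rintro γ φ ⟨h1, h2⟩
  have hg := mem_Kc_cp.1 γ.2
  refine ⟨ivt_Rc s t c ⟨γ.1, hg.1.1⟩ φ h1, ?_⟩
  have := blk_smul_BM4b (e2_comm_BM4b hg.2) hg.2 φ
  rw [h2] at this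
  exact this

theorem ivt_F0 (c : ι → Option κ) (v : κ) : Ivt (Gc c) (F0 c v : Set (Mt ι)) := by
  intro γ f h i j hij
  show (γ.1.1 * f.m) i j = 0
  rw [Matrix.mul_apply]
  refine Finset.sum_eq_zero fun k _ => ?_
  by_cases hk : c k ≠ some v ∨ j ≠ 0
  · rw [h k j hk, mul_zero]
  · push Not at hk
    have hne : c i ≠ c k := by
      rw [hk.1]; exact hij.resolve_right (not_not.2 hk.2)
    rw [mem_Gc_iff.1 γ.2 i k (Or.inl hne), if_neg fun e => hne (by rw [e]), zero_mul]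

theorem blk_smul {x y : Matrix ι ι ℂ} {g : GG ι} (hx : x * g.1 = g.1 * x) (hy : y * g.1 = g.1 * y)
    (φ : Cj Ar ι) : blk x y (g • φ) = g • blk x y φ := by
  exact blk_smul_BM4b hx hy φ

theorem blk_mem_Rc {s t : Ar → κ} {φ : Cj Ar ι} (h : φ ∈ Rc s t c) (P P' : ι → Prop) :
    blk (dp P) (dp P') φ ∈ Rc s t c := by
  rw [mem_Rc_BM4b] at h ⊢
  intro a i j hij
  rw [blk_apply, mul_dp_apply, dp_mul_apply, h a i j hij]
  simp

theorem blk_mem_c1 {s t : Ar → κ} {φ : Cj Ar ι} (h : φ ∈ Rc s t c) :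
    blk (e1 p) (e1 p) φ ∈ Rc s t (c1 c p) := by
  rw [mem_Rc_BM4b] at h ⊢
  intro a i j hij
  rw [blk_apply, e1, mul_dp_apply, dp_mul_apply]
  by_cases hi : p i = true <;> by_cases hj : p j = true <;> simp only [hi, hj, if_true] <;>
    try simp
  exact h a i j (by simpa [c1, hi, hj] using hij)

theorem blk_mem_c2 {s t : Ar → κ} {φ : Cj Ar ι} (h : φ ∈ Rc s t c) :
    blk (e2 p) (e2 p) φ ∈ Rc s t (c2 c p) := by
  rw [mem_Rc_BM4b] at h ⊢
  intro a i j hij
  rw [blk_apply, e2, mul_dp_apply, dp_mul_apply]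
  by_cases hi : p i = false <;> by_cases hj : p j = false <;> simp only [hi, hj, if_true] <;>
    try simp
  exact h a i j (by simpa [c2, hi, hj] using hij)

theorem isClosed_Rc (s t : Ar → κ) (c : ι → Option κ) :
    IsClosed (Rc s t c : Set (Cj Ar ι)) := by
  have : (Rc s t c : Set (Cj Ar ι)) =
      ⋂ a, {φ | dg c (some (t a)) * φ a * dg c (some (s a)) = φ a} := by
    ext φ; rw [mem_iInter]; rfl
  rw [this]
  exact isClosed_iInter fun a => isClosed_eq
    ((continuous_const.mul (Cj.continuous_apply a)).mul continuous_const) (Cj.continuous_apply a)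

theorem part_BM4b {x y : Matrix ι ι ℂ} (xx : x * x = x) (yy : y * y = y) (xy : x * y = 0)
    (yx : y * x = 0) (a : x + y = 1) (sx : star x = x) (sy : star y = y) {g : GG ι}
    (hu : g ∈ Un ι) (h1 : x * g.1 = g.1 * x) (h2 : y * g.1 = g.1 * y) :
    ∃ g₁ ∈ Un ι, g₁.1 = x * g.1 + y := by
  have key : star (x * g.1 + y) * (x * g.1 + y) = 1 := by
    have b : star g.1 * x * (x * g.1) = x := by
      rw [mul_assoc, ← mul_assoc x, xx, h1, ← mul_assoc, mem_Un.1 hu, one_mul]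
    rw [star_add, star_mul, sx, sy, add_mul, mul_add, mul_add, b, mul_assoc, xy, ← mul_assoc, yx,
      yy]
    simpa using a
  exact ⟨⟨x * g.1 + y, star (x * g.1 + y), mul_eq_one_comm.1 key, key⟩, key, rfl⟩

/-- splitting of an element of the block group of the refined colouring -/
theorem split_Kc (hp : Adm c p) {g : GG ι} (hg : g ∈ Kc (cp c p)) :
    ∃ g₁ ∈ Kc (c1 c p), ∃ g₂ ∈ Kc (c2 c p), g = g₁ * g₂ ∧ g₁.1 = e1 p * g.1 + e2 p ∧
      g₂.1 = e1 p + e2 p * g.1 := by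
  obtain ⟨hk, h1⟩ := mem_Kc_cp.1 hg
  have h2 := e2_comm_BM4b h1
  have hG := mem_Gc_iff.1 hg.1
  have a := e1_add_e2 p
  have a' : e2 p + e1 p = 1 := by rw [add_comm, a]
  obtain ⟨g₁, u1, v1⟩ := part_BM4b (e1_e1 p) (e2_e2 p) (e1_e2 p) (e2_e1 p) a (star_e1 p)
    (star_e2 p) hk.2 h1 h2
  obtain ⟨g₂, u2, v2⟩ := part_BM4b (e2_e2 p) (e1_e1 p) (e2_e1 p) (e1_e2 p) a' (star_e2 p)
    (star_e1 p) hk.2 h2 h1
  refine ⟨g₁, ⟨mem_Gc_iff.2 fun i j hij => ?_, u1⟩, g₂, ⟨mem_Gc_iff.2 fun i j hij => ?_, u2⟩,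
    Units.ext ?_, v1, by rw [v2, add_comm]⟩
  · rw [v1, Matrix.add_apply, e1, e2, dp_mul_apply, dp_apply]
    by_cases hi : p i = true
    · rw [if_pos hi, if_neg (by simp [hi]), add_zero]
      refine hG i j ((cp_iff_BM4b c p i j).2 ?_)
      by_cases hj : p j = true
      · exact Or.inl (by simpa [c1, hi, hj] using hij)
      · exact Or.inr fun e => hj (e ▸ hi)
    · simp [hi]
  · rw [v2, Matrix.add_apply, e1, e2, dp_mul_apply, dp_apply]
    by_cases hi : p i = false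
    · rw [if_pos hi, if_neg (by simp [hi]), add_zero]
      refine hG i j ((cp_iff_BM4b c p i j).2 ?_)
      by_cases hj : p j = false
      · exact Or.inl (by simpa [c2, hi, hj] using hij)
      · exact Or.inr fun e => hj (e ▸ hi)
    · have hi' : p i = true := by simpa using hi
      simp [hi']
  · have b : g.1 * e2 p = e2 p * g.1 := h2.symm
    have b' : g.1 * e1 p = e1 p * g.1 := h1.symm
    rw [Units.val_mul, v1, v2, add_mul, mul_add, mul_add, mul_assoc (e1 p) g.1 (e1 p), b',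
      ← mul_assoc, ← mul_assoc, ← mul_assoc, mul_assoc (e1 p) g.1 (e2 p), b, ← mul_assoc]
    simp only [e1_e1, e1_e2, e2_e2, e2_e1, zero_mul, zero_add, add_zero]
    rw [← add_mul, a, one_mul]

theorem Kc_c1_le (c : ι → Option κ) (p : ι → Bool) : Kc (c1 c p) ≤ Kc (cp c p) := by
  refine fun g h => ⟨mem_Gc_iff.2 fun i j hij => mem_Gc_iff.1 h.1 i j ?_, h.2⟩
  have := (cp_iff_BM4b c p i j).1 hij
  unfold c1
  cases hi : p i <;> cases hj : p j <;> simp [hi, hj] at this ⊢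
  · exact (em _).symm
  · exact this

theorem Kc_c2_le (c : ι → Option κ) (p : ι → Bool) : Kc (c2 c p) ≤ Kc (cp c p) := by
  refine fun g h => ⟨mem_Gc_iff.2 fun i j hij => mem_Gc_iff.1 h.1 i j ?_, h.2⟩
  have := (cp_iff_BM4b c p i j).1 hij
  unfold c2
  cases hi : p i <;> cases hj : p j <;> simp [hi, hj] at this ⊢
  · exact this
  · exact (em _).symm

end Pool.Agent.Bet
end

-- part Pool.Agent.P.MP_d34769_ag.BM5
section

/-! TASK BM5: graded subspaces. -/

open Set Matrix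

namespace Pool.Agent.Bet

variable {ι : Type} [Fintype ι] [DecidableEq ι] {κ : Type} {Ar : Type}
  {c : ι → Option κ} {p : ι → Bool} {U U' : Submodule ℂ (ι → ℂ)}

theorem Gs.sup (h : Gs c U) (h' : Gs c U') : Gs c (U ⊔ U') := by
  refine ⟨fun v x hx => ?_, fun x hx => ?_⟩
  · obtain ⟨y, hy, z, hz, rfl⟩ := Submodule.mem_sup.1 hx
    rw [Matrix.mulVec_add]
    exact Submodule.add_mem_sup (h.1 v y hy) (h'.1 v z hz)
  · obtain ⟨y, hy, z, hz, rfl⟩ := Submodule.mem_sup.1 hx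
    rw [Matrix.mulVec_add, h.2 y hy, h'.2 z hz, add_zero]

theorem Gs.inf (h : Gs c U) (h' : Gs c U') : Gs c (U ⊓ U') :=
  ⟨fun v x hx => ⟨h.1 v x hx.1, h'.1 v x hx.2⟩, fun x hx => h.2 x hx.1⟩

theorem gs_bot : Gs c ⊥ := by
  refine ⟨fun v x hx => ?_, fun x hx => ?_⟩
  · rw [(Submodule.mem_bot ℂ).1 hx, Matrix.mulVec_zero]
    exact Submodule.zero_mem _
  · rw [(Submodule.mem_bot ℂ).1 hx, Matrix.mulVec_zero]

theorem du_bot : du c ⊥ = 0 := by
  funext v
  simp [du]

lemma dg_dg_BM5 (c : ι → Option κ) (o : Option κ) (x : ι → ℂ) :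
    dg c o *ᵥ (dg c o *ᵥ x) = dg c o *ᵥ x := by
  rw [Matrix.mulVec_mulVec, dg, dp_idem]

lemma dg_dg_ne_BM5 (c : ι → Option κ) {o o' : Option κ} (h : o ≠ o') (x : ι → ℂ) :
    dg c o *ᵥ (dg c o' *ᵥ x) = 0 := by
  rw [Matrix.mulVec_mulVec, dg, dg, dp_mul_dp, dp_false fun i hi => h (hi.1.symm.trans hi.2),
    Matrix.zero_mulVec]

lemma map_inf_BM5 (h : Gs c U) (h' : Gs c U') (v : κ) :
    (U ⊓ U').map (dg c (some v)).mulVecLin =
      U.map (dg c (some v)).mulVecLin ⊓ U'.map (dg c (some v)).mulVecLin := by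
  refine le_antisymm (Submodule.map_inf_le _) ?_
  rintro y ⟨⟨x, hx, e⟩, ⟨x', hx', e'⟩⟩
  simp only [Matrix.mulVecLin_apply] at e e'
  refine ⟨y, ⟨e ▸ h.1 v x hx, e' ▸ h'.1 v x' hx'⟩, ?_⟩
  rw [Matrix.mulVecLin_apply, ← e, dg_dg_BM5]

theorem du_sup_inf (h : Gs c U) (h' : Gs c U') :
    du c (U ⊔ U') + du c (U ⊓ U') = du c U + du c U' := by
  funext v
  simp only [Pi.add_apply, du]
  rw [Submodule.map_sup, map_inf_BM5 h h', Submodule.finrank_sup_add_finrank_inf_eq]

theorem du_mono (h : U ≤ U') : du c U ≤ du c U' := fun _ =>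
  Submodule.finrank_mono (Submodule.map_mono h)

theorem du_le (c : ι → Option κ) (U : Submodule ℂ (ι → ℂ)) : du c U ≤ dv c := by
  classical
  intro v
  refine (du_mono (c := c) (le_top : U ≤ ⊤) v).trans ?_
  rw [du, Submodule.map_top]
  change Matrix.rank (dg c (some v)) ≤ _
  rw [dg, dp, Matrix.rank_diagonal, dv, Fintype.card_subtype]
  refine Finset.card_le_card fun i hi => ?_
  simp only [Finset.mem_filter, Finset.mem_univ, true_and] at hi ⊢
  by_contra h
  exact hi (if_neg h)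

theorem sZ_du [Fintype κ] (h : Gs c U) : sZ (du c U) = Module.finrank ℂ U := by
  classical
  let f : U →ₗ[ℂ] (∀ v : κ, U.map (dg c (some v)).mulVecLin) :=
    LinearMap.pi fun v => (dg c (some v)).mulVecLin.submoduleMap U
  have hf : ∀ (x : U) (v : κ), (f x v : ι → ℂ) = dg c (some v) *ᵥ (x : ι → ℂ) := fun _ _ => rfl
  have hinj : Function.Injective f := by
    rw [injective_iff_map_eq_zero]
    intro x hx
    ext i
    have h0 := congrFun (h.2 x x.2) i
    rw [dg, dp_mulVec] at h0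
    cases hc : c i with
    | none => simpa [hc] using h0
    | some v =>
      have h1 := congrFun (hf x v) i
      rw [hx] at h1
      simp only [dg, dp_mulVec, if_pos hc] at h1
      simpa using h1.symm
  have hsur : Function.Surjective f := by
    intro y
    choose x hx e using fun v => (Submodule.mem_map.1 (y v).2)
    refine ⟨⟨∑ v, dg c (some v) *ᵥ x v, U.sum_mem fun v _ => h.1 v _ (hx v)⟩, ?_⟩
    funext v
    apply Subtype.ext
    rw [hf, ← e v, Matrix.mulVecLin_apply]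
    simp only [Matrix.mulVec_sum]
    rw [Finset.sum_eq_single v]
    · rw [dg_dg_BM5]
    · intro b _ hb
      exact dg_dg_ne_BM5 c (fun e => hb (Option.some.inj e).symm) _
    · simp
  rw [(LinearEquiv.ofBijective f ⟨hinj, hsur⟩).finrank_eq, Module.finrank_pi_fintype]
  rfl

theorem Gs.map (h : Gs c U) {g : GG ι} (hg : g ∈ Gc c) :
    Gs c (U.map g.1.mulVecLin) ∧ du c (U.map g.1.mulVecLin) = du c U := by
  have hc : ∀ o x, dg c o *ᵥ (g.1 *ᵥ x) = g.1 *ᵥ (dg c o *ᵥ x) := fun o x => by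
    rw [Matrix.mulVec_mulVec, Matrix.mulVec_mulVec, (mem_Gc.1 hg).1 o]
  refine ⟨⟨?_, ?_⟩, ?_⟩
  · rintro v _ ⟨x, hx, rfl⟩
    exact ⟨_, h.1 v x hx, (hc _ x).symm⟩
  · rintro _ ⟨x, hx, rfl⟩
    rw [Matrix.mulVecLin_apply, hc, h.2 x hx, Matrix.mulVec_zero]
  · funext v
    have hinj : Function.Injective g.1.mulVecLin := by
      intro x y e
      have := congrArg (fun z => (g⁻¹).1 *ᵥ z) e
      simpa only [Matrix.mulVecLin_apply, Matrix.mulVec_mulVec, Units.inv_mul,
        Matrix.one_mulVec] using this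
    have e : (U.map g.1.mulVecLin).map (dg c (some v)).mulVecLin =
        (U.map (dg c (some v)).mulVecLin).map g.1.mulVecLin := by
      rw [← Submodule.map_comp, ← Submodule.map_comp]
      congr 1
      exact LinearMap.ext fun x => hc _ x
    simp only [du]
    rw [e]
    exact (Submodule.equivMapOfInjective _ hinj _).finrank_eq.symm

theorem Sr.smul {φ : Cj Ar ι} (h : Sr c φ U) {g : GG ι} (hg : g ∈ Gc c) :
    Sr c (g • φ) (U.map g.1.mulVecLin) := by
  refine ⟨(h.1.map hg).1, ?_⟩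
  rintro a _ ⟨x, hx, rfl⟩
  refine ⟨_, h.2 a x hx, ?_⟩
  simp only [Matrix.mulVecLin_apply, Cj.smul_apply, Matrix.mulVec_mulVec, mul_assoc,
    Units.inv_mul, mul_one]

end Pool.Agent.Bet
end

-- part Pool.Agent.P.MP_d34769_ag.BM5b
section

/-! TASK BM5b: graded subspaces and coordinate subspaces. -/

open Set Matrix

namespace Pool.Agent.Bet

variable {ι : Type} [Fintype ι] [DecidableEq ι] {κ : Type} {Ar : Type}
  {c : ι → Option κ} {p : ι → Bool} {U U' : Submodule ℂ (ι → ℂ)}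

omit [DecidableEq ι] in
lemma rn_BM5b (f : (ι → ℂ) →ₗ[ℂ] (ι → ℂ)) (W : Submodule ℂ (ι → ℂ)) :
    Module.finrank ℂ (W ⊓ LinearMap.ker f : Submodule ℂ (ι → ℂ)) + Module.finrank ℂ (W.map f) =
      Module.finrank ℂ W := by
  rw [← (f.domRestrict W).finrank_range_add_finrank_ker, LinearMap.range_domRestrict,
    LinearMap.ker_domRestrict, ← Submodule.map_comap_subtype, Submodule.finrank_map_subtype_eq,
    add_comm]

lemma rank_BM5b (c : ι → Option κ) (v : κ) :
    Module.finrank ℂ (LinearMap.range (dg c (some v)).mulVecLin) = dv c v := by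
  classical
  show (dg c (some v)).rank = _
  rw [dg, dp, Matrix.rank_diagonal, Fintype.card_subtype, dv]
  exact congrArg Finset.card (Finset.ext fun i => by simp)

lemma dg1_BM5b (c : ι → Option κ) (p : ι → Bool) (v : κ) :
    dg (c1 c p) (some v) = dg c (some v) * e1 p := by
  rw [dg, dg, e1, dp_mul_dp]
  exact dp_congr fun i => by cases h : p i <;> simp [c1, h]

lemma dg2_BM5b (c : ι → Option κ) (p : ι → Bool) (v : κ) :
    dg (c2 c p) (some v) = dg c (some v) * e2 p := by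
  rw [dg, dg, e2, dp_mul_dp]
  exact dp_congr fun i => by cases h : p i <;> simp [c2, h]

lemma cm1_BM5b (c : ι → Option κ) (p : ι → Bool) (o : Option κ) :
    e1 p * dg c o = dg c o * e1 p := dp_comm _ _

lemma cm2_BM5b (c : ι → Option κ) (p : ι → Bool) (o : Option κ) :
    e2 p * dg c o = dg c o * e2 p := dp_comm _ _

lemma dpz_BM5b {P : ι → Prop} {x : ι → ℂ} : dp P *ᵥ x = 0 ↔ ∀ i, P i → x i = 0 := by
  rw [funext_iff]
  refine forall_congr' fun i => ?_
  rw [dp_mulVec]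
  by_cases h : P i <;> simp [h]

lemma fix_BM5b {x : ι → ℂ} : x ∈ V1 p ↔ e1 p *ᵥ x = x :=
  ⟨fun ⟨y, hy⟩ => by rw [← hy, mulVecLin_apply, mulVec_mulVec, e1_e1], fun h => ⟨x, h⟩⟩

lemma ker_BM5b {x : ι → ℂ} : x ∈ V1 p ↔ e2 p *ᵥ x = 0 := by
  have h : e1 p *ᵥ x + e2 p *ᵥ x = x := by rw [← add_mulVec, e1_add_e2, one_mulVec]
  rw [fix_BM5b]
  exact ⟨fun e => by rwa [e, add_eq_left] at h, fun e => by rwa [e, add_zero] at h⟩

lemma dgV_BM5b (o : Option κ) {x : ι → ℂ} (hx : x ∈ V1 p) : dg c o *ᵥ x ∈ V1 p := by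
  rw [ker_BM5b] at hx ⊢
  rw [mulVec_mulVec, cm2_BM5b, ← mulVec_mulVec, hx, mulVec_zero]

lemma dgs_BM5b (v : κ) {x : ι → ℂ} (hx : x ∈ V1 p) :
    dg (c1 c p) (some v) *ᵥ x = dg c (some v) *ᵥ x := by
  rw [dg1_BM5b, ← mulVec_mulVec, fix_BM5b.1 hx]

lemma idem_BM5b (o : Option κ) (x : ι → ℂ) : dg c o *ᵥ (dg c o *ᵥ x) = dg c o *ᵥ x := by
  rw [mulVec_mulVec, dg, dp_idem]

theorem gs_V1 (hp : Adm c p) : Gs c (V1 p) ∧ du c (V1 p) = dv (c1 c p) := by
  refine ⟨⟨fun v x hx => dgV_BM5b _ hx, fun x hx => dpz_BM5b.2 fun i hi => ?_⟩, funext fun v => ?_⟩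
  · refine dpz_BM5b.1 (ker_BM5b.1 hx) i ?_
    cases h : p i
    · rfl
    · exact absurd hi (hp i h)
  · rw [← rank_BM5b, dg1_BM5b, mulVecLin_mul, LinearMap.range_comp]
    rfl

theorem sr_V1 (hp : Adm c p) {φ : Cj Ar ι} : Sr c φ (V1 p) ↔ blk (e2 p) (e1 p) φ = 0 := by
  constructor
  · intro h
    funext a
    refine ext_iff_mulVec.2 fun x => ?_
    rw [blk_apply, Cj.zero_apply, zero_mulVec, ← mulVec_mulVec, ← mulVec_mulVec]
    exact ker_BM5b.1 (h.2 a _ ⟨x, rfl⟩)
  · refine fun h => ⟨(gs_V1 hp).1, fun a x hx => ?_⟩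
    have e : e2 p * φ a * e1 p = 0 := congrFun h a
    rw [ker_BM5b, ← fix_BM5b.1 hx, mulVec_mulVec, mulVec_mulVec, e, zero_mulVec]

/-- the whole unfrozen space is a subrepresentation -/
theorem exists_top {s t : Ar → κ} {φ : Cj Ar ι} (h : φ ∈ Rc s t c) :
    ∃ U, Sr c φ U ∧ du c U = dv c := by
  have hp : Adm c fun i => (c i).isSome := fun i hi e => by simp [e] at hi
  have e : c1 c (fun i => (c i).isSome) = c := funext fun i => by
    cases h : c i <;> simp [c1, h]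
  refine ⟨V1 fun i => (c i).isSome, (sr_V1 hp).2 (funext fun a => ?_), by rw [(gs_V1 hp).2, e]⟩
  have e0 : e2 (fun i => (c i).isSome) * dg c (some (t a)) = 0 := by
    rw [e2, dg, dp_mul_dp]
    exact dp_false fun i hi => by simp [hi.2] at hi
  rw [blk_apply, Cj.zero_apply, ← h a, ← mul_assoc, ← mul_assoc, e0, zero_mul, zero_mul, zero_mul]

/-- kernel and image of an endomorphism -/
theorem du_ker_range (hc : ∀ i, c i ≠ none) {x : Matrix ι ι ℂ} (hx : ∀ o, dg c o * x = x * dg c o) :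
    Gs c (LinearMap.ker x.mulVecLin) ∧ Gs c (LinearMap.range x.mulVecLin) ∧
      du c (LinearMap.ker x.mulVecLin) + du c (LinearMap.range x.mulVecLin) = dv c := by
  have h0 : ∀ y : ι → ℂ, dg c none *ᵥ y = 0 := fun y => dpz_BM5b.2 fun i hi => absurd hi (hc i)
  have hm : ∀ o y, x *ᵥ (dg c o *ᵥ y) = dg c o *ᵥ (x *ᵥ y) := fun o y => by
    rw [mulVec_mulVec, mulVec_mulVec, hx]
  have hk : ∀ o, ∀ y ∈ LinearMap.ker x.mulVecLin, dg c o *ᵥ y ∈ LinearMap.ker x.mulVecLin :=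
    fun o y hy => by
      rw [LinearMap.mem_ker, mulVecLin_apply] at hy ⊢
      rw [hm, hy, mulVec_zero]
  refine ⟨⟨fun v => hk _, fun y _ => h0 y⟩, ⟨?_, fun y _ => h0 y⟩, funext fun v => ?_⟩
  · rintro v _ ⟨y, rfl⟩
    exact ⟨_, hm _ y⟩
  · have e1 : (LinearMap.ker x.mulVecLin).map (dg c (some v)).mulVecLin =
        LinearMap.range (dg c (some v)).mulVecLin ⊓ LinearMap.ker x.mulVecLin := by
      refine le_antisymm ?_ ?_
      · rintro _ ⟨y, hy, rfl⟩
        exact ⟨⟨y, rfl⟩, hk _ y hy⟩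
      · rintro _ ⟨⟨y, rfl⟩, hy⟩
        exact ⟨_, hy, idem_BM5b _ y⟩
    have e2 : (LinearMap.range x.mulVecLin).map (dg c (some v)).mulVecLin =
        (LinearMap.range (dg c (some v)).mulVecLin).map x.mulVecLin := by
      rw [← LinearMap.range_comp, ← LinearMap.range_comp, ← mulVecLin_mul, ← mulVecLin_mul, hx]
    rw [Pi.add_apply, du, du, e1, e2, rn_BM5b, rank_BM5b]

/-- the parts of a graded subspace along `p` -/
theorem du_split (h : Gs c U) :
    Gs (c1 c p) (U ⊓ V1 p) ∧ Gs (c2 c p) (U.map (e2 p).mulVecLin) ∧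
      du (c1 c p) (U ⊓ V1 p) + du (c2 c p) (U.map (e2 p).mulVecLin) = du c U := by
  refine ⟨⟨fun v x hx => ?_, fun x hx => dpz_BM5b.2 fun i hi => ?_⟩, ⟨?_, ?_⟩, funext fun v => ?_⟩
  · rw [dgs_BM5b v hx.2]
    exact ⟨h.1 v x hx.1, dgV_BM5b _ hx.2⟩
  · cases e : p i
    · exact dpz_BM5b.1 (ker_BM5b.1 hx.2) i e
    · exact dpz_BM5b.1 (h.2 x hx.1) i (by simpa [c1, e] using hi)
  · rintro v _ ⟨x, hx, rfl⟩
    refine ⟨_, h.1 v x hx, ?_⟩
    rw [mulVecLin_apply, mulVecLin_apply, mulVec_mulVec, mulVec_mulVec, dg2_BM5b, mul_assoc, e2_e2,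
      cm2_BM5b]
  · rintro _ ⟨x, hx, rfl⟩
    refine dpz_BM5b.2 fun i hi => ?_
    rw [mulVecLin_apply, e2, dp_mulVec]
    cases e : p i
    · rw [if_pos rfl]
      exact dpz_BM5b.1 (h.2 x hx) i (by simpa [c2, e] using hi)
    · simp
  · have a1 : (U ⊓ V1 p).map (dg (c1 c p) (some v)).mulVecLin =
        U.map (dg c (some v)).mulVecLin ⊓ LinearMap.ker (e2 p).mulVecLin := by
      refine le_antisymm ?_ ?_
      · rintro _ ⟨y, hy, rfl⟩
        rw [mulVecLin_apply, dgs_BM5b v hy.2]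
        exact ⟨⟨y, hy.1, rfl⟩, ker_BM5b.1 (dgV_BM5b _ hy.2)⟩
      · rintro _ ⟨⟨y, hy, rfl⟩, hz⟩
        have hz' := ker_BM5b.2 hz
        exact ⟨_, ⟨h.1 v y hy, hz'⟩, (dgs_BM5b v hz').trans (idem_BM5b _ y)⟩
    have a2 : (U.map (e2 p).mulVecLin).map (dg (c2 c p) (some v)).mulVecLin =
        (U.map (dg c (some v)).mulVecLin).map (e2 p).mulVecLin := by
      rw [← Submodule.map_comp, ← Submodule.map_comp, ← mulVecLin_mul, ← mulVecLin_mul, dg2_BM5b,
        mul_assoc, e2_e2, cm2_BM5b]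
    rw [Pi.add_apply, du, du, a1, a2, rn_BM5b, du]

theorem du_c1 (h : Gs (c1 c p) U) : Gs c U ∧ U ≤ V1 p ∧ du c U = du (c1 c p) U := by
  have hV : U ≤ V1 p := fun x hx => ker_BM5b.2 (dpz_BM5b.2 fun i hi =>
    dpz_BM5b.1 (h.2 x hx) i (by simp [c1, hi]))
  refine ⟨⟨fun v x hx => dgs_BM5b (c := c) v (hV hx) ▸ h.1 v x hx, fun x hx => dpz_BM5b.2 fun i hi =>
    dpz_BM5b.1 (h.2 x hx) i (by simp [c1, hi])⟩, hV, funext fun v => ?_⟩
  have e : U.map (dg c (some v)).mulVecLin = U.map (dg (c1 c p) (some v)).mulVecLin :=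
    Submodule.ext fun y => exists_congr fun x => and_congr_right fun hx => by
      rw [mulVecLin_apply, mulVecLin_apply, dgs_BM5b v (hV hx)]
  rw [du, du, e]

theorem du_c2 (hp : Adm c p) (h : Gs (c2 c p) U) :
    Gs c (V1 p ⊔ U) ∧ du c (V1 p ⊔ U) = dv (c1 c p) + du (c2 c p) U := by
  have e : c2 c p = c1 c fun i => !p i := funext fun i => by cases h : p i <;> simp [c1, c2, h]
  rw [e] at h ⊢
  obtain ⟨h1, h2, h3⟩ := du_c1 h
  have hb : V1 p ⊓ U = ⊥ := (Submodule.eq_bot_iff _).2 fun x hx => funext fun i => by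
    cases a : p i
    · exact dpz_BM5b.1 (ker_BM5b.1 hx.1) i a
    · exact dpz_BM5b.1 (ker_BM5b.1 (h2 hx.2)) i (by simp [a])
  have h4 := du_sup_inf (gs_V1 hp).1 h1
  rw [hb, du_bot, add_zero, (gs_V1 hp).2, h3] at h4
  exact ⟨(gs_V1 hp).1.sup h1, h4⟩

end Pool.Agent.Bet
end
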