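import Pool.Agent.K.MP_d34769_ag.C141
import Pool.Agent.K.MP_d34769_ag.C143

/-! TASK BF5: the dictionary between the two models of representations. -/

open Set

namespace Pool.Agent.Bet

open Pool.Agent.P.MP_d34769_ag (Rep QIso QStable)

variable {n d k : ℕ}

theorem cl3_ne (i : I3 n d k) : cl3 n d k i ≠ none := by
  rcases i with i | i | i <;> simp [cl3]

theorem dv_cl3 (n d k : ℕ) : dv (cl3 n d k) = ![d, n + d, k] := by
  funext v
  rw [dv, Finset.card_filter]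
  fin_cases v <;> simp [Fintype.sum_sum_type, cl3]

theorem mem_Rc_BF5 {φ : Cj (Fin 3) (I3 n d k)} : φ ∈ Rc sr3 tg3 (cl3 n d k) ↔
    ∀ a i j, ¬ (cl3 n d k j = some (sr3 a) ∧ cl3 n d k i = some (tg3 a)) → φ a i j = 0 := by
  change (∀ a, _ = φ a) ↔ _
  refine forall_congr' fun a => ?_
  rw [← Matrix.ext_iff]
  refine forall₂_congr fun i j => ?_
  rw [dg, dg, mul_dp_apply, dp_mul_apply]
  by_cases h1 : cl3 n d k j = some (sr3 a) <;> by_cases h2 : cl3 n d k i = some (tg3 a) <;>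
    simp [h1, h2, eq_comm]

theorem range_toCj :
    range (toCj : Rep ℂ n d k → Cj (Fin 3) (I3 n d k)) = Rc sr3 tg3 (cl3 n d k) := by
  ext φ
  rw [SetLike.mem_coe, mem_Rc_BF5]
  constructor
  · rintro ⟨ρ, rfl⟩ a i j h
    fin_cases a <;> rcases i with i | i | i <;> rcases j with j | j | j <;>
      first | rfl | exact absurd ⟨rfl, rfl⟩ h
  · intro h
    refine ⟨⟨Matrix.of fun i j => φ 0 (.inr (.inl i)) (.inl j),
      Matrix.of fun i j => φ 1 (.inr (.inl i)) (.inl j),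
      Matrix.of fun i j => φ 2 (.inr (.inl i)) (.inr (.inr j))⟩, ?_⟩
    funext a i j
    fin_cases a <;> rcases i with i | i | i <;> rcases j with j | j | j <;>
      first | rfl | exact (h _ _ _ (by simp [cl3, sr3, tg3])).symm

theorem cont_m01_BF5 : Continuous (m01 : Matrix (Fin (n + d)) (Fin d) ℂ →
    Matrix (I3 n d k) (I3 n d k) ℂ) := by
  refine continuous_matrix fun i j => ?_
  rcases i with i | i | i <;> rcases j with j | j | j <;>
    first | exact continuous_const | exact continuous_id.matrix_elem i j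

theorem cont_m21_BF5 : Continuous (m21 : Matrix (Fin (n + d)) (Fin k) ℂ →
    Matrix (I3 n d k) (I3 n d k) ℂ) := by
  refine continuous_matrix fun i j => ?_
  rcases i with i | i | i <;> rcases j with j | j | j <;>
    first | exact continuous_const | exact continuous_id.matrix_elem i j

theorem induced_toCj : TopologicalSpace.induced (toCj : Rep ℂ n d k → Cj (Fin 3) (I3 n d k))
    inferInstance = TopologicalSpace.induced (fun ρ : Rep ℂ n d k => (ρ.x, ρ.y, ρ.z))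
      inferInstance := by
  let A : Matrix (Fin (n + d)) (Fin d) ℂ × Matrix (Fin (n + d)) (Fin d) ℂ ×
      Matrix (Fin (n + d)) (Fin k) ℂ → Cj (Fin 3) (I3 n d k) := fun u => toCj ⟨u.1, u.2.1, u.2.2⟩
  let B : Cj (Fin 3) (I3 n d k) → Matrix (Fin (n + d)) (Fin d) ℂ ×
      Matrix (Fin (n + d)) (Fin d) ℂ × Matrix (Fin (n + d)) (Fin k) ℂ := fun φ =>
    (Matrix.of fun i j => φ 0 (.inr (.inl i)) (.inl j),
      Matrix.of fun i j => φ 1 (.inr (.inl i)) (.inl j),
      Matrix.of fun i j => φ 2 (.inr (.inl i)) (.inr (.inr j)))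
  have hA : Continuous A := by
    refine continuous_pi fun a => ?_
    fin_cases a
    · exact cont_m01_BF5.comp continuous_fst
    · exact cont_m01_BF5.comp continuous_snd.fst
    · exact cont_m21_BF5.comp continuous_snd.snd
  have hB : Continuous B :=
    (continuous_matrix fun i j => (Cj.continuous_apply 0).matrix_elem _ _).prodMk
      ((continuous_matrix fun i j => (Cj.continuous_apply 1).matrix_elem _ _).prodMk
        (continuous_matrix fun i j => (Cj.continuous_apply 2).matrix_elem _ _))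
  have hI : Topology.IsInducing A :=
    Topology.IsInducing.of_comp hA hB (show Topology.IsInducing id from Topology.IsInducing.id)
  change TopologicalSpace.induced (A ∘ fun ρ : Rep ℂ n d k => (ρ.x, ρ.y, ρ.z)) _ = _
  rw [← induced_compose, ← hI.eq_induced]

/-- A block diagonal matrix. -/
def bd_BF5 (P₁ : Matrix (Fin d) (Fin d) ℂ) (P₀ : Matrix (Fin (n + d)) (Fin (n + d)) ℂ)
    (Q : Matrix (Fin k) (Fin k) ℂ) : Matrix (I3 n d k) (I3 n d k) ℂ :=
  Matrix.fromBlocks P₁ 0 0 (Matrix.fromBlocks P₀ 0 0 Q)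

section

variable (P₁ P₁' : Matrix (Fin d) (Fin d) ℂ) (P₀ P₀' : Matrix (Fin (n + d)) (Fin (n + d)) ℂ)
  (Q Q' : Matrix (Fin k) (Fin k) ℂ) (x : Matrix (Fin (n + d)) (Fin d) ℂ)
  (z : Matrix (Fin (n + d)) (Fin k) ℂ)

theorem bd_mul_BF5 :
    bd_BF5 P₁ P₀ Q * bd_BF5 P₁' P₀' Q' = bd_BF5 (P₁ * P₁') (P₀ * P₀') (Q * Q') := by
  simp [bd_BF5, Matrix.fromBlocks_multiply]

theorem bd_one_BF5 : bd_BF5 (n := n) (d := d) (k := k) 1 1 1 = 1 := by
  simp [bd_BF5]

theorem bd_m01_BF5 : bd_BF5 P₁ P₀ Q * m01 x = m01 (P₀ * x) := by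
  ext i j
  rcases i with i | i | i <;> rcases j with j | j | j <;>
    simp [bd_BF5, m01, Matrix.mul_apply, Fintype.sum_sum_type]

theorem m01_bd_BF5 : m01 x * bd_BF5 P₁ P₀ Q = m01 (x * P₁) := by
  ext i j
  rcases i with i | i | i <;> rcases j with j | j | j <;>
    simp [bd_BF5, m01, Matrix.mul_apply, Fintype.sum_sum_type]

theorem bd_m21_BF5 : bd_BF5 P₁ P₀ Q * m21 z = m21 (P₀ * z) := by
  ext i j
  rcases i with i | i | i <;> rcases j with j | j | j <;>
    simp [bd_BF5, m21, Matrix.mul_apply, Fintype.sum_sum_type]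

theorem m21_bd_BF5 : m21 z * bd_BF5 P₁ P₀ Q = m21 (z * Q) := by
  ext i j
  rcases i with i | i | i <;> rcases j with j | j | j <;>
    simp [bd_BF5, m21, Matrix.mul_apply, Fintype.sum_sum_type]

end

theorem m01_inj_BF5 {x y : Matrix (Fin (n + d)) (Fin d) ℂ}
    (h : (m01 x : Matrix (I3 n d k) (I3 n d k) ℂ) = m01 y) : x = y :=
  Matrix.ext fun i j => congrFun (congrFun h (.inr (.inl i))) (.inl j)

theorem m21_inj_BF5 {x y : Matrix (Fin (n + d)) (Fin k) ℂ}
    (h : (m21 x : Matrix (I3 n d k) (I3 n d k) ℂ) = m21 y) : x = y :=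
  Matrix.ext fun i j => congrFun (congrFun h (.inr (.inl i))) (.inr (.inr j))

theorem exists_bd_BF5 {g : GG (I3 n d k)} (h : g ∈ Gc (cl3 n d k)) :
    ∃ P₁ P₀ Q, g.1 = bd_BF5 P₁ P₀ Q := by
  refine ⟨Matrix.of fun i j => g.1 (.inl i) (.inl j),
    Matrix.of fun i j => g.1 (.inr (.inl i)) (.inr (.inl j)),
    Matrix.of fun i j => g.1 (.inr (.inr i)) (.inr (.inr j)), ?_⟩
  ext i j
  rcases i with i | i | i <;> rcases j with j | j | j <;>
    first | rfl | exact (mem_Gc_iff.1 h _ _ (Or.inl (by simp [cl3]))).trans (if_neg (by simp))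

theorem smul_eq_BF5 {g : GG (I3 n d k)} {φ ψ : Cj (Fin 3) (I3 n d k)} :
    g • φ = ψ ↔ ∀ a, g.1 * φ a = ψ a * g.1 := by
  refine funext_iff.trans (forall_congr' fun a => ?_)
  rw [Cj.smul_apply, Units.mul_inv_eq_iff_eq_mul]

theorem qiso_iff {ρ ρ' : Rep ℂ n d k} :
    QIso ρ ρ' ↔ ∃ g : Gc (cl3 n d k), g • toCj ρ = toCj ρ' := by
  constructor
  · rintro ⟨_, _, _, ⟨P₁, rfl⟩, ⟨P₀, rfl⟩, ⟨Q, rfl⟩, h1, h2, h3⟩
    refine ⟨⟨⟨bd_BF5 P₁.1 P₀.1 Q.1, bd_BF5 (P₁⁻¹).1 (P₀⁻¹).1 (Q⁻¹).1, ?_, ?_⟩,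
      mem_Gc_iff.2 fun i j h => ?_⟩, smul_eq_BF5.2 fun a => ?_⟩
    · simp only [bd_mul_BF5, Units.mul_inv, bd_one_BF5]
    · simp only [bd_mul_BF5, Units.inv_mul, bd_one_BF5]
    · have h' := h.resolve_right (cl3_ne i)
      rcases i with i | i | i <;> rcases j with j | j | j <;>
        first | exact absurd rfl h' | exact (if_neg (by simp)).symm
    · fin_cases a
      · exact (bd_m01_BF5 _ _ _ _).trans ((congrArg m01 h1).trans (m01_bd_BF5 _ _ _ _).symm)
      · exact (bd_m01_BF5 _ _ _ _).trans ((congrArg m01 h2).trans (m01_bd_BF5 _ _ _ _).symm)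
      · exact (bd_m21_BF5 _ _ _ _).trans ((congrArg m21 h3).trans (m21_bd_BF5 _ _ _ _).symm)
  · rintro ⟨⟨g, hg⟩, h⟩
    have h := smul_eq_BF5.1 h
    obtain ⟨P₁, P₀, Q, e⟩ := exists_bd_BF5 hg
    have hu : IsUnit (bd_BF5 P₁ P₀ Q) := e ▸ g.isUnit
    rw [bd_BF5, Matrix.isUnit_fromBlocks_zero₂₁, Matrix.isUnit_fromBlocks_zero₂₁] at hu
    rw [e] at h
    exact ⟨P₁, P₀, Q, hu.1, hu.2.1, hu.2.2,
      m01_inj_BF5 ((bd_m01_BF5 _ _ _ _).symm.trans ((h 0).trans (m01_bd_BF5 _ _ _ _))),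
      m01_inj_BF5 ((bd_m01_BF5 _ _ _ _).symm.trans ((h 1).trans (m01_bd_BF5 _ _ _ _))),
      m21_inj_BF5 ((bd_m21_BF5 _ _ _ _).symm.trans ((h 2).trans (m21_bd_BF5 _ _ _ _)))⟩

end Pool.Agent.Bet
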