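import Pool.Agent.K.MP_d34769_ag.C144

/-! TASK BF5b: stability in the two models. -/

open Set

namespace Pool.Agent.Bet

open Pool.Agent.P.MP_d34769_ag (Rep QIso QStable)
open Matrix Module

variable {n d k : ℕ}

theorem finrank_map_BF5b {V A B : Type} [AddCommGroup V] [Module ℂ V] [AddCommGroup A]
    [Module ℂ A] [AddCommGroup B] [Module ℂ B] [FiniteDimensional ℂ V] (U : Submodule ℂ V)
    (f : V →ₗ[ℂ] A) (g : V →ₗ[ℂ] B) (h : ∀ x, f x = 0 ↔ g x = 0) :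
    finrank ℂ (U.map f) = finrank ℂ (U.map g) := by
  have h1 := LinearMap.finrank_range_add_finrank_ker (f.domRestrict U)
  have h2 := LinearMap.finrank_range_add_finrank_ker (g.domRestrict U)
  have h3 : LinearMap.ker (f.domRestrict U) = LinearMap.ker (g.domRestrict U) := by
    ext x
    simp only [LinearMap.mem_ker, LinearMap.domRestrict_apply, h]
  rw [LinearMap.range_domRestrict, h3] at h1
  rw [LinearMap.range_domRestrict] at h2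
  omega

/-- first block -/
noncomputable def r0_BF5b : (I3 n d k → ℂ) →ₗ[ℂ] (Fin d → ℂ) := LinearMap.funLeft ℂ ℂ Sum.inl

/-- second block -/
noncomputable def r1_BF5b : (I3 n d k → ℂ) →ₗ[ℂ] (Fin (n + d) → ℂ) :=
  LinearMap.funLeft ℂ ℂ fun i => Sum.inr (Sum.inl i)

/-- third block -/
noncomputable def r2_BF5b : (I3 n d k → ℂ) →ₗ[ℂ] (Fin k → ℂ) :=
  LinearMap.funLeft ℂ ℂ fun i => Sum.inr (Sum.inr i)

theorem r0_apply_BF5b (x : I3 n d k → ℂ) (i : Fin d) : r0_BF5b x i = x (.inl i) := rfl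

theorem r1_apply_BF5b (x : I3 n d k → ℂ) (i : Fin (n + d)) :
    r1_BF5b x i = x (.inr (.inl i)) := rfl

theorem r2_apply_BF5b (x : I3 n d k → ℂ) (i : Fin k) : r2_BF5b x i = x (.inr (.inr i)) := rfl

theorem dg_BF5b (v : Fin 3) (x : I3 n d k → ℂ) (i : I3 n d k) :
    (dg (cl3 n d k) (some v) *ᵥ x) i = if cl3 n d k i = some v then x i else 0 := by
  rw [dg, dp_mulVec]
  split_ifs <;> rfl

theorem du_BF5b (U : Submodule ℂ (I3 n d k → ℂ)) : du (cl3 n d k) U =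
    ![finrank ℂ (U.map r0_BF5b), finrank ℂ (U.map r1_BF5b), finrank ℂ (U.map r2_BF5b)] := by
  funext v
  fin_cases v <;>
  · refine finrank_map_BF5b U _ _ fun x => ?_
    simp [funext_iff, dg_BF5b, cl3, r0_apply_BF5b, r1_apply_BF5b, r2_apply_BF5b]

theorem th_BF5b (α : ℝ) (a b e : ℕ) : th (wt3 n d k α) ![a, b, e] =
    (n : ℝ) * (a + α * e) - ((d : ℝ) + α * k) * ((b : ℝ) - a) := by
  simp [th, wt3, Fin.sum_univ_three]
  ring

theorem m01_BF5b (x : Matrix (Fin (n + d)) (Fin d) ℂ) (v : I3 n d k → ℂ) :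
    r0_BF5b (m01 x *ᵥ v) = 0 ∧ r1_BF5b (m01 x *ᵥ v) = x *ᵥ r0_BF5b v ∧
      r2_BF5b (m01 x *ᵥ v) = 0 := by
  refine ⟨funext fun i => ?_, funext fun i => ?_, funext fun i => ?_⟩ <;>
  simp [r0_apply_BF5b, r1_apply_BF5b, r2_apply_BF5b, mulVec, dotProduct, Fintype.sum_sum_type, m01]

theorem m21_BF5b (z : Matrix (Fin (n + d)) (Fin k) ℂ) (v : I3 n d k → ℂ) :
    r0_BF5b (m21 (d := d) z *ᵥ v) = 0 ∧ r1_BF5b (m21 (d := d) z *ᵥ v) = z *ᵥ r2_BF5b v ∧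
      r2_BF5b (m21 (d := d) z *ᵥ v) = 0 := by
  refine ⟨funext fun i => ?_, funext fun i => ?_, funext fun i => ?_⟩ <;>
  simp [r0_apply_BF5b, r1_apply_BF5b, r2_apply_BF5b, mulVec, dotProduct, Fintype.sum_sum_type, m21]

theorem rdg_BF5b (v : Fin 3) (x : I3 n d k → ℂ) :
    (r0_BF5b (dg (cl3 n d k) (some v) *ᵥ x) = r0_BF5b x ∨
      r0_BF5b (dg (cl3 n d k) (some v) *ᵥ x) = 0) ∧
    (r1_BF5b (dg (cl3 n d k) (some v) *ᵥ x) = r1_BF5b x ∨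
      r1_BF5b (dg (cl3 n d k) (some v) *ᵥ x) = 0) ∧
    (r2_BF5b (dg (cl3 n d k) (some v) *ᵥ x) = r2_BF5b x ∨
      r2_BF5b (dg (cl3 n d k) (some v) *ᵥ x) = 0) := by
  fin_cases v <;>
  simp [funext_iff, dg_BF5b, cl3, r0_apply_BF5b, r1_apply_BF5b, r2_apply_BF5b]

theorem qstable_iff {α : ℝ} (hg : Gen (wt3 n d k α) ![d, n + d, k]) {ρ : Rep ℂ n d k} :
    QStable α ρ ↔ toCj ρ ∈ Ge sr3 tg3 (wt3 n d k α) (cl3 n d k) := by
  have hR : toCj ρ ∈ Rc sr3 tg3 (cl3 n d k) := by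
    have : toCj ρ ∈ range (toCj : Rep ℂ n d k → Cj (Fin 3) (I3 n d k)) := mem_range_self ρ
    rwa [range_toCj] at this
  constructor
  · intro h
    refine ⟨hR, fun U hU => ?_⟩
    rw [dv_cl3, du_BF5b]
    by_cases hb : U.map r0_BF5b = ⊥ ∧ U.map r1_BF5b = ⊥ ∧ U.map r2_BF5b = ⊥
    · rw [hb.1, hb.2.1, hb.2.2, hg.1, th_BF5b]
      simp
    by_cases ht : U.map r0_BF5b = ⊤ ∧ U.map r1_BF5b = ⊤ ∧ U.map r2_BF5b = ⊤
    · rw [ht.1, ht.2.1, ht.2.2]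
      simp
    have h1 := h (U.map r0_BF5b) (U.map r1_BF5b) (U.map r2_BF5b) ?_ ?_ hb ht
    · rw [hg.1, th_BF5b]
      linarith
    · rintro _ ⟨x, hx, rfl⟩
      exact ⟨⟨_, hU.2 0 x hx, (m01_BF5b ρ.x x).2.1⟩, ⟨_, hU.2 1 x hx, (m01_BF5b ρ.y x).2.1⟩⟩
    · rintro _ ⟨x, hx, rfl⟩
      exact ⟨_, hU.2 2 x hx, (m21_BF5b ρ.z x).2.1⟩
  · rintro ⟨-, h⟩ U₁ U₀ W h1 h2 hb ht
    let U : Submodule ℂ (I3 n d k → ℂ) :=
      U₁.comap r0_BF5b ⊓ (U₀.comap r1_BF5b ⊓ W.comap r2_BF5b)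
    have hm : ∀ x, x ∈ U ↔ r0_BF5b x ∈ U₁ ∧ r1_BF5b x ∈ U₀ ∧ r2_BF5b x ∈ W := fun x => Iff.rfl
    have hS : Sr (cl3 n d k) (toCj ρ) U := by
      refine ⟨⟨fun v x hx => ?_, fun x _ => ?_⟩, fun a x hx => ?_⟩
      · obtain ⟨g0, g1, g2⟩ := rdg_BF5b v x
        obtain ⟨k0, k1, k2⟩ := (hm x).1 hx
        refine (hm _).2 ⟨?_, ?_, ?_⟩
        · rcases g0 with e | e <;> rw [e]
          exacts [k0, zero_mem _]
        · rcases g1 with e | e <;> rw [e]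
          exacts [k1, zero_mem _]
        · rcases g2 with e | e <;> rw [e]
          exacts [k2, zero_mem _]
      · rw [dg, dp_false cl3_ne, zero_mulVec]
      · obtain ⟨k0, k1, k2⟩ := (hm x).1 hx
        refine (hm _).2 ?_
        fin_cases a
        · obtain ⟨e0, e1, e2⟩ := m01_BF5b ρ.x x
          change r0_BF5b (m01 ρ.x *ᵥ x) ∈ U₁ ∧ r1_BF5b (m01 ρ.x *ᵥ x) ∈ U₀ ∧
            r2_BF5b (m01 ρ.x *ᵥ x) ∈ W
          rw [e0, e1, e2]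
          exact ⟨zero_mem _, (h1 _ k0).1, zero_mem _⟩
        · obtain ⟨e0, e1, e2⟩ := m01_BF5b ρ.y x
          change r0_BF5b (m01 ρ.y *ᵥ x) ∈ U₁ ∧ r1_BF5b (m01 ρ.y *ᵥ x) ∈ U₀ ∧
            r2_BF5b (m01 ρ.y *ᵥ x) ∈ W
          rw [e0, e1, e2]
          exact ⟨zero_mem _, (h1 _ k0).2, zero_mem _⟩
        · obtain ⟨e0, e1, e2⟩ := m21_BF5b ρ.z x
          change r0_BF5b (m21 ρ.z *ᵥ x) ∈ U₁ ∧ r1_BF5b (m21 ρ.z *ᵥ x) ∈ U₀ ∧
            r2_BF5b (m21 ρ.z *ᵥ x) ∈ W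
          rw [e0, e1, e2]
          exact ⟨zero_mem _, h2 _ k2, zero_mem _⟩
    have e0 : U.map r0_BF5b = U₁ := by
      refine le_antisymm (by rintro _ ⟨x, hx, rfl⟩; exact ((hm x).1 hx).1) fun u hu => ?_
      exact ⟨Sum.elim u 0, (hm _).2 ⟨hu, U₀.zero_mem, W.zero_mem⟩, rfl⟩
    have e1 : U.map r1_BF5b = U₀ := by
      refine le_antisymm (by rintro _ ⟨x, hx, rfl⟩; exact ((hm x).1 hx).2.1) fun u hu => ?_
      exact ⟨Sum.elim 0 (Sum.elim u 0), (hm _).2 ⟨U₁.zero_mem, hu, W.zero_mem⟩, rfl⟩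
    have e2 : U.map r2_BF5b = W := by
      refine le_antisymm (by rintro _ ⟨x, hx, rfl⟩; exact ((hm x).1 hx).2.2) fun u hu => ?_
      exact ⟨Sum.elim 0 (Sum.elim 0 u), (hm _).2 ⟨U₁.zero_mem, U₀.zero_mem, hu⟩, rfl⟩
    have h3 := h U hS
    have h4 := du_le (cl3 n d k) U
    rw [dv_cl3, du_BF5b, e0, e1, e2] at h3 h4
    have h5 := hg.2.2 _ h4 (fun e => hb ⟨Submodule.finrank_eq_zero.1 (congrFun e 0),
      Submodule.finrank_eq_zero.1 (congrFun e 1), Submodule.finrank_eq_zero.1 (congrFun e 2)⟩)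
      (fun e => ht ⟨Submodule.eq_top_of_finrank_eq (by simpa using congrFun e 0),
        Submodule.eq_top_of_finrank_eq (by simpa using congrFun e 1),
        Submodule.eq_top_of_finrank_eq (by simpa using congrFun e 2)⟩)
    rw [hg.1] at h3
    have h6 := lt_of_le_of_ne h3 h5
    rw [th_BF5b] at h6
    linarith

end Pool.Agent.Bet
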