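import Mathlib

-- part Pool.Agent.P.MP_d34769_ag.BZ1
section

/-! Graded singular chains with rational coefficients (adapted from the integral toolkit). -/

open Set

namespace Pool.Agent.Bet.G

noncomputable section

/-- The standard simplex with `k` vertices (of dimension `k - 1`). -/
abbrev Dl (k : ℕ) : Type := stdSimplex ℝ (Fin k)

/-- Singular simplices with `k` vertices. -/
abbrev Sx (X : Type*) [TopologicalSpace X] (k : ℕ) := C(Dl k, X)

/-- Rational singular chains on simplices with `k` vertices. -/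
abbrev Ch (X : Type*) [TopologicalSpace X] (k : ℕ) := Sx X k →₀ ℚ

/-- The face map omitting the vertex `i`. -/
def face {k : ℕ} (i : Fin (k + 1)) : C(Dl k, Dl (k + 1)) :=
  ⟨stdSimplex.map i.succAbove, stdSimplex.continuous_map _⟩

variable {X Y Z : Type*} [TopologicalSpace X] [TopologicalSpace Y] [TopologicalSpace Z]

/-- The singular boundary: the alternating sum of the faces. -/
def bd {k : ℕ} : Ch X (k + 1) →ₗ[ℚ] Ch X k :=
  ∑ i : Fin (k + 1), (-1 : ℚ) ^ (i : ℕ) • Finsupp.lmapDomain ℚ ℚ fun σ => σ.comp (face i)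

/-- The chain map induced by a continuous map. -/
def push {k : ℕ} (f : C(X, Y)) : Ch X k →ₗ[ℚ] Ch Y k :=
  Finsupp.lmapDomain ℚ ℚ fun σ => f.comp σ

/-- Chains all of whose simplices lie in `A`. -/
def ChIn (A : Set X) (k : ℕ) : Submodule ℚ (Ch X k) :=
  Finsupp.supported ℚ ℚ {σ | range σ ⊆ A}

@[simp] lemma face_same {k : ℕ} (i : Fin (k + 1)) (t : Dl k) : (face i t) i = 0 := by
  change FunOnFinite.linearMap ℝ ℝ i.succAbove t i = 0
  rw [FunOnFinite.linearMap_apply_apply]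
  refine Finset.sum_eq_zero fun j hj => ?_
  simp at hj

@[simp] lemma face_succAbove {k : ℕ} (i : Fin (k + 1)) (t : Dl k) (j : Fin k) :
    (face i t) (i.succAbove j) = t j := by
  change FunOnFinite.linearMap ℝ ℝ i.succAbove t (i.succAbove j) = t j
  rw [FunOnFinite.linearMap_apply_apply]
  have : (Finset.univ.filter fun x : Fin k => i.succAbove x = i.succAbove j) = {j} := by
    ext x; simp
  rw [this, Finset.sum_singleton]

lemma exists_face {k : ℕ} (i : Fin (k + 1)) (t : Dl (k + 1)) (h : t i = 0) :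
    ∃ s : Dl k, face i s = t := by
  refine ⟨⟨fun j => t (i.succAbove j), fun j => t.2.1 _, ?_⟩, ?_⟩
  · have := t.2.2
    rw [Fin.sum_univ_succAbove _ i] at this
    have h' : t.1 i = 0 := h
    rw [h', zero_add] at this
    exact this
  · ext j
    refine Fin.succAboveCases i ?_ (fun j => ?_) j
    · rw [face_same, h]
    · rw [face_succAbove]; rfl

lemma face_comp_face {k : ℕ} (i : Fin (k + 2)) (j : Fin (k + 1)) :
    (face (i.succAbove j)).comp (face (j.predAbove i)) = (face i).comp (face j) := by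
  ext1 t
  change stdSimplex.map _ (stdSimplex.map _ t) = stdSimplex.map _ (stdSimplex.map _ t)
  rw [stdSimplex.map_comp_apply, stdSimplex.map_comp_apply]
  congr 1
  funext l
  exact Fin.succAbove_succAbove_succAbove_predAbove i j l

/-- the `i`-th face operator -/
def bdi {k : ℕ} (i : Fin (k + 1)) : Ch X (k + 1) →ₗ[ℚ] Ch X k :=
  Finsupp.lmapDomain ℚ ℚ fun σ => σ.comp (face i)

@[simp] lemma bdi_single {k : ℕ} (i : Fin (k + 1)) (σ : C(Dl (k + 1), X)) (m : ℚ) :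
    bdi i (Finsupp.single σ m) = Finsupp.single (σ.comp (face i)) m := by
  simp [bdi, Finsupp.mapDomain_single]

lemma bd_eq {k : ℕ} (c : Ch X (k + 1)) :
    bd c = ∑ i : Fin (k + 1), (-1 : ℚ) ^ (i : ℕ) • bdi i c := by
  simp [bd, bdi, LinearMap.sum_apply]

lemma bd_single {k : ℕ} (σ : C(Dl (k + 1), X)) (m : ℚ) :
    bd (Finsupp.single σ m) =
      ∑ i : Fin (k + 1), (-1 : ℚ) ^ (i : ℕ) • Finsupp.single (σ.comp (face i)) m := by
  simp only [bd_eq, bdi_single]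

@[simp] lemma push_single {k : ℕ} (f : C(X, Y)) (σ : C(Dl k, X)) (m : ℚ) :
    push f (Finsupp.single σ m) = Finsupp.single (f.comp σ) m := by
  simp [push, Finsupp.mapDomain_single]

lemma push_push {k : ℕ} (g : C(Y, Z)) (f : C(X, Y)) (c : Ch X k) :
    push g (push f c) = push (g.comp f) c := by
  induction c using Finsupp.induction_linear with
  | zero => simp
  | add a b ha hb => simp [ha, hb]
  | single σ m => simp [ContinuousMap.comp_assoc]

@[simp] lemma push_id {k : ℕ} (c : Ch X k) : push (ContinuousMap.id X) c = c := by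
  induction c using Finsupp.induction_linear with
  | zero => simp
  | add a b ha hb => simp [ha, hb]
  | single σ m => simp

lemma bdi_push {k : ℕ} (i : Fin (k + 1)) (f : C(X, Y)) (c : Ch X (k + 1)) :
    bdi i (push f c) = push f (bdi i c) := by
  induction c using Finsupp.induction_linear with
  | zero => simp
  | add a b ha hb => simp [ha, hb]
  | single σ m => simp [ContinuousMap.comp_assoc]

lemma bd_push {k : ℕ} (f : C(X, Y)) (c : Ch X (k + 1)) : bd (push f c) = push f (bd c) := by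
  simp only [bd_eq, bdi_push, map_sum, map_smul]

@[simp] lemma bd_bd {k : ℕ} (c : Ch X (k + 2)) : bd (bd c) = 0 := by
  induction c using Finsupp.induction_linear with
  | zero => simp
  | add a b ha hb => simp [ha, hb]
  | single σ m =>
    rw [bd_single, map_sum]
    simp only [map_smul, bd_single, Finset.smul_sum]
    rw [← Finset.sum_product']
    refine Finset.sum_involution (fun p _ => (p.1.succAbove p.2, p.2.predAbove p.1)) ?_ ?_ ?_ ?_
    · rintro ⟨i, j⟩ _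
      simp only [smul_smul, ← pow_add, ContinuousMap.comp_assoc, face_comp_face]
      rw [Fin.neg_one_pow_succAbove_add_predAbove, neg_smul, add_neg_cancel]
    · rintro ⟨i, j⟩ _ _ h
      exact Fin.succAbove_ne i j (congrArg Prod.fst h)
    · simp
    · rintro ⟨i, j⟩ _
      simp [Fin.succAbove_succAbove_predAbove, Fin.predAbove_predAbove_succAbove]

lemma mem_ChIn {A : Set X} {k : ℕ} {c : Ch X k} :
    c ∈ ChIn A k ↔ ∀ σ ∈ c.support, range σ ⊆ A := Iff.rfl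

lemma single_mem_ChIn {A : Set X} {k : ℕ} {σ : C(Dl k, X)} (m : ℚ) (h : ∀ t, σ t ∈ A) :
    Finsupp.single σ m ∈ ChIn A k :=
  Finsupp.single_mem_supported ℚ m (range_subset_iff.2 h)

lemma ChIn_mono {A B : Set X} (h : A ⊆ B) (k : ℕ) : ChIn A k ≤ ChIn B k :=
  fun _ hc σ hσ => (mem_ChIn.1 hc σ hσ).trans h

@[simp] lemma mem_ChIn_univ {k : ℕ} (c : Ch X k) : c ∈ ChIn univ k :=
  fun _ _ => subset_univ _

lemma mem_ChIn_inter {A B : Set X} {k : ℕ} {c : Ch X k} :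
    c ∈ ChIn (A ∩ B) k ↔ c ∈ ChIn A k ∧ c ∈ ChIn B k := by
  simp only [mem_ChIn, subset_inter_iff]
  exact ⟨fun h => ⟨fun σ hσ => (h σ hσ).1, fun σ hσ => (h σ hσ).2⟩,
    fun h σ hσ => ⟨h.1 σ hσ, h.2 σ hσ⟩⟩

lemma mem_ChIn_empty {k : ℕ} {c : Ch X (k + 1)} : c ∈ ChIn (∅ : Set X) (k + 1) ↔ c = 0 := by
  constructor
  · intro h
    by_contra hc
    obtain ⟨σ, hσ⟩ := Finsupp.support_nonempty_iff.2 hc
    exact (mem_ChIn.1 h σ hσ ⟨stdSimplex.vertex 0, rfl⟩)
  · rintro rfl; exact Submodule.zero_mem _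

/-- every chain without vertices lies in every set -/
@[simp] lemma mem_ChIn_zero (A : Set X) (c : Ch X 0) : c ∈ ChIn A 0 := by
  rintro σ - _ ⟨t, rfl⟩
  have := t.2.2
  simp at this

/-- induction principle for chains in a set -/
lemma ChIn_induction {A : Set X} {k : ℕ} {P : Ch X k → Prop} {c : Ch X k} (hc : c ∈ ChIn A k)
    (h0 : P 0) (hadd : ∀ a b, P a → P b → P (a + b))
    (hs : ∀ (σ : C(Dl k, X)) (m : ℚ), (∀ t, σ t ∈ A) → P (Finsupp.single σ m)) : P c := by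
  rw [← Finsupp.sum_single c, Finsupp.sum]
  refine Finset.sum_induction _ P hadd h0 fun σ hσ => hs σ _ fun t => ?_
  exact mem_ChIn.1 hc σ hσ ⟨t, rfl⟩

/-- a linear map sending the simplices in `A` to `S` sends `ChIn A` to `S` -/
lemma map_mem_of_ChIn {A : Set X} {k : ℕ} {M : Type*} [AddCommGroup M] [Module ℚ M]
    (φ : Ch X k →ₗ[ℚ] M) (S : Submodule ℚ M)
    (h : ∀ σ : C(Dl k, X), (∀ t, σ t ∈ A) → φ (Finsupp.single σ 1) ∈ S) {c : Ch X k}
    (hc : c ∈ ChIn A k) : φ c ∈ S := by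
  refine ChIn_induction (P := fun c => φ c ∈ S) hc (by simp)
    (fun a b ha hb => by simpa using S.add_mem ha hb) ?_
  intro σ m hσ
  have : Finsupp.single σ m = m • Finsupp.single σ (1 : ℚ) := by simp
  rw [this, map_smul]
  exact S.smul_mem _ (h σ hσ)

lemma bdi_mem_ChIn {A : Set X} {k : ℕ} (i : Fin (k + 1)) {c : Ch X (k + 1)}
    (hc : c ∈ ChIn A (k + 1)) : bdi i c ∈ ChIn A k :=
  map_mem_of_ChIn (bdi i) _ (fun σ hσ => by
    rw [bdi_single]; exact single_mem_ChIn _ fun t => hσ _) hc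

lemma bd_mem_ChIn {A : Set X} {k : ℕ} {c : Ch X (k + 1)} (hc : c ∈ ChIn A (k + 1)) :
    bd c ∈ ChIn A k := by
  rw [bd_eq]
  exact Submodule.sum_mem _ fun i _ => Submodule.smul_mem _ _ (bdi_mem_ChIn i hc)

lemma push_mem_ChIn {A : Set X} {B : Set Y} {k : ℕ} (f : C(X, Y)) (h : MapsTo f A B)
    {c : Ch X k} (hc : c ∈ ChIn A k) : push f c ∈ ChIn B k :=
  map_mem_of_ChIn (push f) _ (fun σ hσ => by
    rw [push_single]; exact single_mem_ChIn _ fun t => h (hσ t)) hc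

lemma push_congr {A : Set X} {k : ℕ} {f g : C(X, Y)} (h : EqOn f g A) {c : Ch X k}
    (hc : c ∈ ChIn A k) : push f c = push g c := by
  refine ChIn_induction (P := fun c => push f c = push g c) hc (by simp)
    (fun a b ha hb => by simp [ha, hb]) ?_
  intro σ m hσ
  rw [push_single, push_single]
  congr 1
  ext t
  exact h (hσ t)

/-- the carrier of a chain -/
def car {k : ℕ} (c : Ch X k) : Set X := ⋃ σ ∈ c.support, range σ

lemma isCompact_car {k : ℕ} (c : Ch X k) : IsCompact (car c) :=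
  c.support.isCompact_biUnion fun σ _ => isCompact_range σ.continuous

lemma mem_ChIn_iff_car {A : Set X} {k : ℕ} {c : Ch X k} : c ∈ ChIn A k ↔ car c ⊆ A := by
  simp [mem_ChIn, car]

end

end Pool.Agent.Bet.G
end

-- part Pool.Agent.P.MP_d34769_ag.BZ2
section

/-! Affine simplices, cones and natural chain operators. -/

open Set

namespace Pool.Agent.Bet.G

noncomputable section

variable {X Y Z : Type*} [TopologicalSpace X] [TopologicalSpace Y] [TopologicalSpace Z]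

/-- the vertices of a singular simplex -/
def vx {j : ℕ} (σ : C(Dl j, X)) : Fin j → X := fun i => σ (stdSimplex.vertex i)

lemma vx_face {j : ℕ} (σ : C(Dl (j + 1), X)) (i : Fin (j + 1)) :
    vx (σ.comp (face i)) = vx σ ∘ i.succAbove := by
  funext l
  change σ (stdSimplex.map _ (stdSimplex.vertex l)) = _
  rw [stdSimplex.map_vertex]
  rfl

lemma vx_comp {j : ℕ} (f : C(X, Y)) (σ : C(Dl j, X)) : vx (f.comp σ) = f ∘ vx σ := rfl

/-- spaces with affine simplices -/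
class Cb (W : Type*) [TopologicalSpace W] where
  comb : ∀ {j : ℕ}, (Fin j → W) → C(Dl j, W)
  comb_face : ∀ {j : ℕ} (a : Fin (j + 1) → W) (i : Fin (j + 1)),
    (comb a).comp (face i) = comb (a ∘ i.succAbove)
  vx_comb : ∀ {j : ℕ} (a : Fin j → W), vx (comb a) = a

export Cb (comb comb_face vx_comb)

section Convex

variable {E : Type*} [AddCommGroup E] [Module ℝ E] [TopologicalSpace E] [ContinuousAdd E]
  [ContinuousSMul ℝ E] {s : Set E}

/-- affine simplex in a convex set -/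
def cvx (hs : Convex ℝ s) {j : ℕ} (a : Fin j → s) : C(Dl j, s) :=
  ⟨fun t => ⟨∑ i, t i • (a i : E),
      hs.sum_mem (fun i _ => t.2.1 i) t.2.2 fun i _ => (a i).2⟩, by
    refine Continuous.subtype_mk (continuous_finsetSum _ fun i _ => ?_) _
    exact ((continuous_apply i).comp continuous_subtype_val).smul continuous_const⟩

/-- convex sets have affine simplices -/
@[reducible] def cbConvex (hs : Convex ℝ s) : Cb s where
  comb := cvx hs
  comb_face a i := by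
    ext t
    change ∑ l, (face i t) l • (a l : E) = ∑ l, t l • (a (i.succAbove l) : E)
    rw [Fin.sum_univ_succAbove _ i]
    simp
  vx_comb a := by
    funext i
    ext
    change ∑ l, (stdSimplex.vertex i : Dl _) l • (a l : E) = a i
    simp [Pi.single_apply]

end Convex

instance cbDl (k : ℕ) : Cb (Dl k) := cbConvex (convex_stdSimplex ℝ (Fin k))

instance cbI : Cb unitInterval := cbConvex (convex_Icc (0 : ℝ) 1)

instance cbProd {W W' : Type*} [TopologicalSpace W] [TopologicalSpace W'] [Cb W] [Cb W'] :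
    Cb (W × W') where
  comb a := (comb (Prod.fst ∘ a)).prodMk (comb (Prod.snd ∘ a))
  comb_face a i := by
    ext1 t
    refine Prod.ext ?_ ?_
    · exact ContinuousMap.congr_fun (comb_face (Prod.fst ∘ a) i) t
    · exact ContinuousMap.congr_fun (comb_face (Prod.snd ∘ a) i) t
  vx_comb a := by
    funext i
    exact Prod.ext (congrFun (vx_comb (Prod.fst ∘ a)) i) (congrFun (vx_comb (Prod.snd ∘ a)) i)

lemma comb_Dl {k j : ℕ} (a : Fin j → Dl k) (t : Dl j) (m : Fin k) :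
    (comb a t) m = ∑ i, t i * a i m := by
  change (∑ i, t i • (a i : Fin k → ℝ)) m = _
  rw [Finset.sum_apply]
  rfl

lemma comb_const_I {j : ℕ} (x : unitInterval) (t : Dl j) : comb (fun _ : Fin j => x) t = x := by
  ext
  change ∑ i, t i • (x : ℝ) = x
  rw [← Finset.sum_smul, stdSimplex.sum_eq_one, one_smul]

section Cone

variable {W W' : Type*} [TopologicalSpace W] [TopologicalSpace W'] [Cb W] [Cb W']

/-- affine maps -/
def Aff (f : C(W, W')) : Prop := ∀ (j : ℕ) (a : Fin j → W), f.comp (comb a) = comb (f ∘ a)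

/-- straightening -/
def str {j : ℕ} : Ch W j →ₗ[ℚ] Ch W j := Finsupp.lmapDomain ℚ ℚ fun σ => comb (vx σ)

/-- cone over the straightened chain -/
def cone (b : W) {j : ℕ} : Ch W j →ₗ[ℚ] Ch W (j + 1) :=
  Finsupp.lmapDomain ℚ ℚ fun σ => comb (Fin.cons b (vx σ))

@[simp] lemma str_single {j : ℕ} (σ : C(Dl j, W)) (m : ℚ) :
    str (Finsupp.single σ m) = Finsupp.single (comb (vx σ)) m := by
  simp [str, Finsupp.mapDomain_single]

@[simp] lemma cone_single (b : W) {j : ℕ} (σ : C(Dl j, W)) (m : ℚ) :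
    cone b (Finsupp.single σ m) = Finsupp.single (comb (Fin.cons b (vx σ))) m := by
  simp [cone, Finsupp.mapDomain_single]

lemma str_cone (b : W) {j : ℕ} (c : Ch W j) : str (cone b c) = cone b c := by
  induction c using Finsupp.induction_linear with
  | zero => simp
  | add a b ha hb => simp [ha, hb]
  | single σ m => simp [vx_comb]

lemma str_push {f : C(W, W')} (hf : Aff f) {j : ℕ} (c : Ch W j) :
    str (push f c) = push f (str c) := by
  induction c using Finsupp.induction_linear with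
  | zero => simp
  | add a b ha hb => simp [ha, hb]
  | single σ m => simp [vx_comp, hf j]

lemma bdi_zero_cone (b : W) {j : ℕ} (c : Ch W j) : bdi 0 (cone b c) = str c := by
  induction c using Finsupp.induction_linear with
  | zero => simp
  | add a b ha hb => simp [ha, hb]
  | single σ m =>
    rw [cone_single, bdi_single, comb_face, str_single]
    rfl

lemma bdi_succ_cone (b : W) {j : ℕ} (i : Fin (j + 1)) (c : Ch W (j + 1)) :
    bdi i.succ (cone b c) = cone b (bdi i c) := by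
  induction c using Finsupp.induction_linear with
  | zero => simp
  | add a b ha hb => simp [ha, hb]
  | single σ m =>
    rw [cone_single, bdi_single, comb_face, bdi_single, cone_single, vx_face,
      Fin.cons_comp_succ_succAbove]
    rfl

lemma bd_cone_zero (b : W) (c : Ch W 0) : bd (cone b c) = str c := by
  rw [bd_eq, Fin.sum_univ_succ]
  simp [bdi_zero_cone]

lemma bd_cone (b : W) {j : ℕ} (c : Ch W (j + 1)) :
    bd (cone b c) = str c - cone b (bd c) := by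
  rw [bd_eq, Fin.sum_univ_succ, bdi_zero_cone, bd_eq c, map_sum, sub_eq_add_neg,
    ← Finset.sum_neg_distrib]
  simp [bdi_succ_cone, pow_succ]

end Cone

lemma aff_face {k : ℕ} (i : Fin (k + 1)) : Aff (face i) := by
  intro j a
  ext t m
  change (face i (comb a t)) m = (comb (face i ∘ a) t) m
  rw [comb_Dl]
  refine Fin.succAboveCases i ?_ (fun l => ?_) m
  · simp
  · simp [comb_Dl]

lemma comb_vx_id (k : ℕ) : comb (vx (ContinuousMap.id (Dl k))) = ContinuousMap.id (Dl k) := by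
  ext t m
  change (comb (vx (ContinuousMap.id (Dl k))) t) m = t m
  rw [comb_Dl]
  change ∑ i, t i * (stdSimplex.vertex i : Dl k) m = _
  simp [Pi.single_apply]

/-- the identity simplex -/
def io (k : ℕ) : Ch (Dl k) k := Finsupp.single (ContinuousMap.id _) 1

lemma str_io (k : ℕ) : str (io k) = io k := by rw [io, str_single, comb_vx_id]

lemma push_io {k : ℕ} (σ : C(Dl k, X)) : push σ (io k) = Finsupp.single σ 1 := by
  simp [io]

/-- natural operator given by a universal chain -/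
def nat {k j : ℕ} (u : Ch (Dl k) j) : Ch X k →ₗ[ℚ] Ch X j :=
  Finsupp.linearCombination ℚ fun σ => push σ u

@[simp] lemma nat_single {k j : ℕ} (u : Ch (Dl k) j) (σ : C(Dl k, X)) (m : ℚ) :
    nat u (Finsupp.single σ m) = m • push σ u := by simp [nat]

lemma push_nat {k j : ℕ} (u : Ch (Dl k) j) (f : C(X, Y)) (c : Ch X k) :
    push f (nat u c) = nat u (push f c) := by
  induction c using Finsupp.induction_linear with
  | zero => simp
  | add a b ha hb => simp [ha, hb]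
  | single σ m => simp [push_push]

lemma nat_mem_ChIn {k j : ℕ} (u : Ch (Dl k) j) {A : Set X} {c : Ch X k} (hc : c ∈ ChIn A k) :
    nat u c ∈ ChIn A j :=
  map_mem_of_ChIn (nat u) _ (fun σ hσ => by
    rw [nat_single, one_smul]
    exact push_mem_ChIn σ (A := univ) (fun t _ => hσ t) (mem_ChIn_univ u)) hc

lemma str_nat_bd {k j : ℕ} {u : Ch (Dl k) j} (hu : str u = u) :
    str (nat u (bd (io (k + 1)))) = nat u (bd (io (k + 1))) := by
  simp [io, bd_single, str_push (aff_face _), hu]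

/-- product with the identity of the interval -/
def pI (f : C(X, Y)) : C(X × unitInterval, Y × unitInterval) := f.prodMap (ContinuousMap.id _)

/-- inclusion at a level -/
def lev (X : Type*) [TopologicalSpace X] (s : unitInterval) : C(X, X × unitInterval) :=
  (ContinuousMap.id X).prodMk (ContinuousMap.const X s)

lemma pI_comp (g : C(Y, Z)) (f : C(X, Y)) : (pI g).comp (pI f) = pI (g.comp f) := rfl

lemma pI_lev (f : C(X, Y)) (s : unitInterval) : (pI f).comp (lev X s) = (lev Y s).comp f := rfl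

lemma aff_pI {W W' : Type*} [TopologicalSpace W] [TopologicalSpace W'] [Cb W] [Cb W']
    {f : C(W, W')} (hf : Aff f) : Aff (pI f) := by
  intro j a
  ext1 t
  exact Prod.ext (ContinuousMap.congr_fun (hf j (Prod.fst ∘ a)) t) rfl

lemma aff_lev {W : Type*} [TopologicalSpace W] [Cb W] (s : unitInterval) : Aff (lev W s) := by
  intro j a
  ext1 t
  exact Prod.ext rfl (comb_const_I s t).symm

/-- natural operator into the cylinder -/
def np {k j : ℕ} (u : Ch (Dl k × unitInterval) j) : Ch X k →ₗ[ℚ] Ch (X × unitInterval) j :=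
  Finsupp.linearCombination ℚ fun σ => push (pI σ) u

@[simp] lemma np_single {k j : ℕ} (u : Ch (Dl k × unitInterval) j) (σ : C(Dl k, X)) (m : ℚ) :
    np u (Finsupp.single σ m) = m • push (pI σ) u := by simp [np]

lemma push_np {k j : ℕ} (u : Ch (Dl k × unitInterval) j) (f : C(X, Y)) (c : Ch X k) :
    push (pI f) (np u c) = np u (push f c) := by
  induction c using Finsupp.induction_linear with
  | zero => simp
  | add a b ha hb => simp [ha, hb]
  | single σ m => simp [push_push, pI_comp]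

lemma np_mem_ChIn {k j : ℕ} (u : Ch (Dl k × unitInterval) j) {A : Set X} {c : Ch X k}
    (hc : c ∈ ChIn A k) : np u c ∈ ChIn (A ×ˢ univ) j :=
  map_mem_of_ChIn (np u) _ (fun σ hσ => by
    rw [np_single, one_smul]
    exact push_mem_ChIn (pI σ) (A := univ) (fun t _ => mk_mem_prod (hσ t.1) (mem_univ _))
      (mem_ChIn_univ u)) hc

lemma str_np_bd {k j : ℕ} {u : Ch (Dl k × unitInterval) j} (hu : str u = u) :
    str (np u (bd (io (k + 1)))) = np u (bd (io (k + 1))) := by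
  simp [io, bd_single, str_push (aff_pI (aff_face _)), hu]

lemma np_lev {k j : ℕ} (u : Ch (Dl k) j) (s : unitInterval) (c : Ch X k) :
    np (push (lev _ s) u) c = push (lev X s) (nat u c) := by
  induction c using Finsupp.induction_linear with
  | zero => simp
  | add a b ha hb => simp [ha, hb]
  | single σ m => simp [push_push, pI_lev]

lemma np_sub {k j : ℕ} (u v : Ch (Dl k × unitInterval) j) (c : Ch X k) :
    np (u - v) c = np u c - np v c := by
  induction c using Finsupp.induction_linear with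
  | zero => simp
  | add a b ha hb => simp only [map_add, ha, hb]; abel
  | single σ m => simp [smul_sub]

@[simp] lemma np_zero {k j : ℕ} (c : Ch X k) : np (0 : Ch (Dl k × unitInterval) j) c = 0 := by
  induction c using Finsupp.induction_linear with
  | zero => simp
  | add a b ha hb => simp [ha, hb]
  | single σ m => simp

@[simp] lemma nat_io {k : ℕ} (c : Ch X k) : nat (io k) c = c := by
  induction c using Finsupp.induction_linear with
  | zero => simp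
  | add a b ha hb => simp [ha, hb]
  | single σ m => simp [push_io]

lemma bd_np {k j : ℕ} {p : Ch (Dl (k + 1) × unitInterval) (j + 1)}
    {w : Ch (Dl (k + 1) × unitInterval) j} {q : Ch (Dl k × unitInterval) j}
    (h : bd p = w - np q (bd (io (k + 1)))) (c : Ch X (k + 1)) :
    bd (np p c) = np w c - np q (bd c) := by
  induction c using Finsupp.induction_linear with
  | zero => simp
  | add a b ha hb => simp only [map_add, ha, hb]; abel
  | single σ m =>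
    have : Finsupp.single σ m = m • push σ (io (k + 1)) := by simp [push_io]
    rw [np_single, np_single, map_smul, bd_push, h, map_sub, push_np, this, map_smul, map_smul,
      bd_push, smul_sub]

/-- the universal homotopy -/
def htpy (w : ∀ k, Ch (Dl k × unitInterval) k) : ∀ k, Ch (Dl k × unitInterval) (k + 1)
  | 0 => 0
  | k + 1 => cone (stdSimplex.barycenter, 0) (w (k + 1) - np (htpy w k) (bd (io (k + 1))))

theorem bd_htpy {w : ∀ k, Ch (Dl k × unitInterval) k} (h0 : w 0 = 0) (hs : ∀ k, str (w k) = w k)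
    (hb : ∀ k, bd (w (k + 1)) = np (w k) (bd (io (k + 1)))) (k : ℕ) :
    bd (htpy w (k + 1)) = w (k + 1) - np (htpy w k) (bd (io (k + 1))) := by
  have hstr : ∀ k, str (htpy w k) = htpy w k := fun k => by
    cases k with
    | zero => simp [htpy]
    | succ k => exact str_cone _ _
  induction k with
  | zero => simp [htpy, bd_cone, hs, hb, h0]
  | succ k ih =>
    rw [htpy, bd_cone, map_sub, map_sub, hs, str_np_bd (hstr _), bd_np ih, hb]
    simp

end

end Pool.Agent.Bet.G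
end

-- part Pool.Agent.P.MP_d34769_ag.BZ3
section

/-! TASK A: barycentric subdivision, small chains, prism operator. -/

open Set Filter

namespace Pool.Agent.Bet.G

noncomputable section

variable {X Y : Type*} [TopologicalSpace X] [TopologicalSpace Y]

/-- the barycentric subdivision of the standard simplex -/
def sdU : ∀ k, Ch (Dl k) k
  | 0 => io 0
  | k + 1 => cone stdSimplex.barycenter (nat (sdU k) (bd (io (k + 1))))

/-- barycentric subdivision -/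
def Sd {k : ℕ} : Module.End ℚ (Ch X k) := nat (sdU k)

lemma Sd_apply {k : ℕ} (c : Ch X k) : Sd c = nat (sdU k) c := rfl

lemma str_sdU (k : ℕ) : str (sdU k) = sdU k := by
  cases k with
  | zero => exact str_io 0
  | succ k => exact str_cone _ _

lemma bd_nat {k j : ℕ} {p : Ch (Dl (k + 1)) (j + 1)} {q : Ch (Dl k) j}
    (h : bd p = nat q (bd (io (k + 1)))) (c : Ch X (k + 1)) : bd (nat p c) = nat q (bd c) := by
  induction c using Finsupp.induction_linear with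
  | zero => simp
  | add a b ha hb => simp only [map_add, ha, hb]
  | single σ m =>
    have : Finsupp.single σ m = m • push σ (io (k + 1)) := by simp [push_io]
    rw [nat_single, map_smul, bd_push, h, push_nat, this, map_smul, map_smul, bd_push]

lemma bd_sdU (k : ℕ) : bd (sdU (k + 1)) = nat (sdU k) (bd (io (k + 1))) := by
  induction k with
  | zero => exact (bd_cone_zero _ _).trans (str_nat_bd (str_sdU 0))
  | succ k ih =>
    rw [sdU, bd_cone, str_nat_bd (str_sdU _), bd_nat ih]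
    simp

lemma bd_Sd {k : ℕ} (c : Ch X (k + 1)) : bd (Sd c) = Sd (bd c) := bd_nat (bd_sdU k) c

lemma bdi_nat {k j : ℕ} {p : Ch (Dl k) (j + 1)} {i : Fin (j + 1)} (h : bdi i p = 0) (c : Ch X k) :
    bdi i (nat p c) = 0 := by
  induction c using Finsupp.induction_linear with
  | zero => simp
  | add a b ha hb => simp only [map_add, ha, hb, add_zero]
  | single σ m => rw [nat_single, map_smul, bdi_push, h]; simp

lemma bdi_Sd_of {k : ℕ} (h : ∀ i : Fin k, bdi i.succ (sdU (k + 1)) = 0) {c : Ch X (k + 1)}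
    (hc : bd c = 0) (i : Fin (k + 1)) : bdi i (Sd c) = 0 := by
  refine Fin.cases ?_ (fun i => bdi_nat (h i) c) i
  have := bd_Sd c
  rw [hc, map_zero, bd_eq, Fin.sum_univ_succ] at this
  simpa [Sd_apply, bdi_nat (h _)] using this

lemma bdi_sdU (k : ℕ) (i : Fin k) : bdi i.succ (sdU (k + 1)) = 0 := by
  induction k with
  | zero => exact i.elim0
  | succ k ih =>
    rw [sdU, bdi_succ_cone, ← Sd_apply, bdi_Sd_of ih (bd_bd _), map_zero]

/-- the homotopy between the identity and the subdivision -/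
def Dh {k : ℕ} (c : Ch X k) : Ch X (k + 1) :=
  push ContinuousMap.fst (np (htpy (fun k => push (lev _ 0) (io k) - push (lev _ 0) (sdU k)) k) c)

lemma Dh_mem {k : ℕ} {A : Set X} {c : Ch X k} (hc : c ∈ ChIn A k) : Dh c ∈ ChIn A (k + 1) :=
  push_mem_ChIn _ (fun _ hx => hx.1) (np_mem_ChIn _ hc)

lemma Dh_add {k : ℕ} (a b : Ch X k) : Dh (a + b) = Dh a + Dh b := by simp [Dh]

lemma bd_Dh {k : ℕ} (c : Ch X (k + 1)) : bd (Dh c) = c - Sd c - Dh (bd c) := by
  have h := bd_htpy (w := fun k => push (lev _ 0) (io k) - push (lev _ 0) (sdU k)) (by simp [sdU])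
    (fun k => by simp [str_push (aff_lev _), str_io, str_sdU])
    (fun k => by simp [bd_push, np_sub, np_lev, bd_sdU]) k
  have e : (ContinuousMap.fst : C(X × unitInterval, X)).comp (lev X 0) = ContinuousMap.id X := rfl
  rw [Dh, bd_push, bd_np h, np_sub, np_lev, np_lev, map_sub, map_sub, push_push, push_push, e]
  simp [Dh, Sd_apply]

lemma Sd_mem {k : ℕ} {A : Set X} {c : Ch X k} (hc : c ∈ ChIn A k) : Sd c ∈ ChIn A k :=
  nat_mem_ChIn _ hc

/-- the sum of the coordinate distances -/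
def nn {k : ℕ} (t t' : Dl k) : ℝ := ∑ m, |t m - t' m|

lemma nn_nonneg {k : ℕ} (t t' : Dl k) : 0 ≤ nn t t' := Finset.sum_nonneg fun _ _ => abs_nonneg _

lemma nn_le {k : ℕ} (t t' : Dl k) : nn t t' ≤ 2 := by
  have : ∀ m, |t m - t' m| ≤ t m + t' m := fun m => by
    have := stdSimplex.zero_le t m
    have := stdSimplex.zero_le t' m
    rw [abs_le]; constructor <;> linarith
  refine (Finset.sum_le_sum fun m _ => this m).trans ?_
  rw [Finset.sum_add_distrib, stdSimplex.sum_eq_one, stdSimplex.sum_eq_one]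
  norm_num

lemma dist_le_nn {k : ℕ} (t t' : Dl k) : dist t t' ≤ nn t t' := by
  rw [Subtype.dist_eq, dist_pi_le_iff (nn_nonneg t t')]
  intro m
  rw [Real.dist_eq]
  exact Finset.single_le_sum (f := fun m => |t m - t' m|) (fun _ _ => abs_nonneg _)
    (Finset.mem_univ m)

lemma nn_comb {k j : ℕ} (a : Fin j → Dl k) {m : Fin k} {c : ℝ} (h : ∀ l, c ≤ a l m)
    (t t' : Dl j) : nn (comb a t) (comb a t') ≤ (1 - c) * nn t t' := by
  let b : Fin j → Fin k → ℝ := fun l x => a l x - if x = m then c else 0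
  have hb0 : ∀ l x, 0 ≤ b l x := fun l x => by
    by_cases hx : x = m
    · subst hx; simpa [b] using h l
    · simp [b, hx]
  have hb1 : ∀ l, ∑ x, b l x = 1 - c := fun l => by simp [b, Finset.sum_sub_distrib]
  have key : ∀ x, (comb a t) x - (comb a t') x = ∑ l, (t l - t' l) * b l x := fun x => by
    simp only [comb_Dl, b, mul_sub, sub_mul, Finset.sum_sub_distrib, ← Finset.sum_mul,
      stdSimplex.sum_eq_one]
    ring
  calc nn (comb a t) (comb a t') ≤ ∑ x, ∑ l, |t l - t' l| * b l x := by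
        refine Finset.sum_le_sum fun x _ => ?_
        rw [key]
        refine (Finset.abs_sum_le_sum_abs _ _).trans (le_of_eq ?_)
        exact Finset.sum_congr rfl fun l _ => by rw [abs_mul, abs_of_nonneg (hb0 l x)]
    _ = (1 - c) * nn t t' := by
        rw [Finset.sum_comm, nn, Finset.mul_sum]
        exact Finset.sum_congr rfl fun l _ => by rw [← Finset.mul_sum, hb1, mul_comm]

/-- affine simplices whose vertices have a common large coordinate -/
def Flag (k : ℕ) : Set C(Dl (k + 1), Dl (k + 1)) :=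
  {σ | comb (vx σ) = σ ∧ ∃ m, ∀ l, ((k + 1 : ℕ) : ℝ)⁻¹ ≤ vx σ l m}

lemma map_mem_of_supported {α M : Type*} [AddCommGroup M] [Module ℚ M] {s : Set α} (φ : (α →₀ ℚ) →ₗ[ℚ] M)
    (S : Submodule ℚ M) (h : ∀ σ ∈ s, φ (Finsupp.single σ 1) ∈ S) {c : α →₀ ℚ}
    (hc : c ∈ Finsupp.supported ℚ ℚ s) : φ c ∈ S := by
  rw [Finsupp.supported_eq_span_single] at hc
  refine (Submodule.span_le (p := S.comap φ)).2 ?_ hc
  rintro _ ⟨σ, hσ, rfl⟩
  exact h σ hσ

lemma sdU_flag (k : ℕ) : sdU (k + 1) ∈ Finsupp.supported ℚ ℚ (Flag k) := by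
  have hbar : ∀ (k : ℕ) (m : Fin (k + 1)),
      ((k + 1 : ℕ) : ℝ)⁻¹ ≤ (stdSimplex.barycenter : Dl (k + 1)) m := fun k m => by
    change _ ≤ (Fintype.card (Fin (k + 1)) : ℝ)⁻¹
    simp
  induction k with
  | zero =>
    rw [sdU]
    refine map_mem_of_supported (s := univ) (cone _) _ (fun σ _ => ?_) (by simp)
    rw [cone_single]
    refine Finsupp.single_mem_supported ℚ _ ⟨by rw [vx_comb], 0, fun l => ?_⟩
    rw [vx_comb, Fin.fin_one_eq_zero l]
    exact hbar 0 0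
  | succ k ih =>
    rw [sdU, io, bd_single, map_sum, map_sum]
    refine Submodule.sum_mem _ fun i _ => ?_
    rw [map_smul, map_smul, nat_single, one_smul]
    refine Submodule.smul_mem _ _ ?_
    refine map_mem_of_supported ((cone _).comp (push _)) _ ?_ ih
    rintro σ ⟨-, m, hm⟩
    rw [LinearMap.comp_apply, push_single, cone_single]
    refine Finsupp.single_mem_supported ℚ _ ⟨by rw [vx_comb], i.succAbove m, fun l => ?_⟩
    rw [vx_comb]
    refine Fin.cases (hbar _ _) (fun l => ?_) l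
    change _ ≤ face i (vx σ l) (i.succAbove m)
    rw [face_succAbove]
    refine le_trans ?_ (hm l)
    exact inv_anti₀ (by positivity) (by push_cast; linarith)

/-- contracting simplices -/
def Lip (k : ℕ) (r : ℕ) : Set C(Dl (k + 1), Dl (k + 1)) :=
  {σ | ∀ t t', nn (σ t) (σ t') ≤ (1 - ((k + 1 : ℕ) : ℝ)⁻¹) ^ r * nn t t'}

lemma rate_nonneg (k : ℕ) : 0 ≤ 1 - ((k + 1 : ℕ) : ℝ)⁻¹ :=
  sub_nonneg.2 (inv_le_one_of_one_le₀ (by push_cast; linarith [Nat.cast_nonneg (α := ℝ) k]))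

lemma pow_io_lip (k r : ℕ) : (Sd ^ r) (io (k + 1)) ∈ Finsupp.supported ℚ ℚ (Lip k r) := by
  induction r with
  | zero => exact Finsupp.single_mem_supported ℚ _ fun t t' => by simp
  | succ r ih =>
    rw [pow_succ', Module.End.mul_apply]
    refine map_mem_of_supported Sd _ (fun τ hτ => ?_) ih
    rw [Sd_apply, nat_single, one_smul]
    refine map_mem_of_supported (push τ) _ ?_ (sdU_flag k)
    rintro ρ ⟨h1, m, hm⟩
    rw [push_single]
    refine Finsupp.single_mem_supported ℚ _ fun t t' => (hτ _ _).trans ?_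
    rw [pow_succ, mul_assoc]
    refine mul_le_mul_of_nonneg_left ?_ (pow_nonneg (rate_nonneg k) r)
    have := nn_comb (vx ρ) hm t t'
    rwa [h1] at this

lemma push_pow {k : ℕ} (f : C(X, Y)) (r : ℕ) (c : Ch X k) :
    push f ((Sd ^ r) c) = (Sd ^ r) (push f c) := by
  induction r with
  | zero => rfl
  | succ r ih => rw [pow_succ', pow_succ', Module.End.mul_apply, Module.End.mul_apply, ← ih,
      Sd_apply, Sd_apply, push_nat]

lemma eventually_small {S T : Set X} (hS : IsOpen S) (hT : IsOpen T) {k : ℕ} {c : Ch X (k + 1)}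
    (hc : c ∈ ChIn (S ∪ T) (k + 1)) :
    ∀ᶠ r in atTop, (Sd ^ r) c ∈ ChIn S (k + 1) ⊔ ChIn T (k + 1) := by
  refine ChIn_induction (P := fun c => ∀ᶠ r in atTop, (Sd ^ r) c ∈ ChIn S (k + 1) ⊔ ChIn T (k + 1))
    hc (by simp) (fun a b ha hb => ?_) fun σ m hσ => ?_
  · filter_upwards [ha, hb] with r h1 h2
    rw [map_add]
    exact Submodule.add_mem _ h1 h2
  obtain ⟨δ, hδ, hl⟩ := lebesgue_number_lemma_of_metric (s := (univ : Set (Dl (k + 1))))
    (c := fun b : Bool => σ ⁻¹' (cond b S T)) isCompact_univ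
    (fun b => by cases b; exacts [hT.preimage σ.continuous, hS.preimage σ.continuous])
    (fun t _ => by
      rcases hσ t with h | h
      exacts [mem_iUnion.2 ⟨true, h⟩, mem_iUnion.2 ⟨false, h⟩])
  have hlt : 1 - ((k + 1 : ℕ) : ℝ)⁻¹ < 1 := sub_lt_self _ (by positivity)
  have ht := (tendsto_pow_atTop_nhds_zero_of_lt_one (rate_nonneg k) hlt).eventually
    (gt_mem_nhds (half_pos hδ))
  filter_upwards [ht] with r hr
  have e : Finsupp.single σ m = m • push σ (io (k + 1)) := by simp [push_io]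
  rw [e, map_smul, ← push_pow]
  refine Submodule.smul_mem _ _ (map_mem_of_supported (push σ) _ (fun τ hτ => ?_) (pow_io_lip k r))
  obtain ⟨b, hb⟩ := hl (τ (stdSimplex.vertex 0)) trivial
  have hm : ∀ t, σ (τ t) ∈ cond b S T := fun t => hb <| by
    refine (dist_le_nn _ _).trans_lt ((hτ _ _).trans_lt ?_)
    have := mul_le_mul_of_nonneg_left (nn_le t (stdSimplex.vertex 0))
      (pow_nonneg (rate_nonneg k) r)
    linarith
  rw [push_single]
  cases b
  · exact Submodule.mem_sup_right (single_mem_ChIn _ hm)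
  · exact Submodule.mem_sup_left (single_mem_ChIn _ hm)

lemma small_aux {S T : Set X} {k : ℕ} (r : ℕ) {c : Ch X (k + 1)}
    (hc : c ∈ ChIn (S ∪ T) (k + 1)) (hb : bd c ∈ ChIn S k ⊔ ChIn T k)
    (hr : (Sd ^ r) c ∈ ChIn S (k + 1) ⊔ ChIn T (k + 1)) :
    ∃ d ∈ ChIn (S ∪ T) (k + 2), c - bd d ∈ ChIn S (k + 1) ⊔ ChIn T (k + 1) := by
  induction r generalizing c with
  | zero => exact ⟨0, Submodule.zero_mem _, by simpa using hr⟩
  | succ r ih =>
    obtain ⟨a, ha, b, hb', e⟩ := Submodule.mem_sup.1 hb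
    obtain ⟨d, hd, h⟩ := ih (Sd_mem hc) (by
      rw [bd_Sd, ← e, map_add]
      exact Submodule.add_mem_sup (Sd_mem ha) (Sd_mem hb')) (by rwa [pow_succ] at hr)
    refine ⟨Dh c + d, Submodule.add_mem _ (Dh_mem hc) hd, ?_⟩
    have : c - bd (Dh c + d) = (Sd c - bd d) + (Dh a + Dh b) := by
      rw [map_add, bd_Dh, ← e, Dh_add]; abel
    rw [this]
    exact Submodule.add_mem _ h (Submodule.add_mem_sup (Dh_mem ha) (Dh_mem hb'))

end

variable {X Y : Type*} [TopologicalSpace X] [TopologicalSpace Y]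

/-- small chains for a cover by two open sets -/
theorem small {S T : Set X} (hS : IsOpen S) (hT : IsOpen T) {k : ℕ} {c : Ch X (k + 1)}
    (hc : c ∈ ChIn (S ∪ T) (k + 1)) (hb : bd c ∈ ChIn S k ⊔ ChIn T k) :
    ∃ d ∈ ChIn (S ∪ T) (k + 2), ∃ a ∈ ChIn S (k + 1), ∃ b ∈ ChIn T (k + 1),
      c = bd d + a + b := by
  obtain ⟨r, hr⟩ := (eventually_small hS hT hc).exists
  obtain ⟨d, hd, h⟩ := small_aux r hc hb hr
  obtain ⟨a, ha, b, hb', e⟩ := Submodule.mem_sup.1 h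
  exact ⟨d, hd, a, ha, b, hb', by rw [add_assoc, e]; abel⟩

/-- every cycle is homologous to a cycle killed by every single face operator -/
theorem exists_coloured {k : ℕ} (z : Ch X (k + 1)) (hz : bd z = 0) :
    ∃ z' : Ch X (k + 1), (∃ w : Ch X (k + 2), z' - z = bd w) ∧ ∀ i, bdi i z' = 0 := by
  refine ⟨Sd z, ⟨-Dh z, ?_⟩, bdi_Sd_of (bdi_sdU k) hz⟩
  rw [map_neg, bd_Dh, hz]
  simp [Dh]

/-- homotopy invariance on the chain level, with control of supports -/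
theorem homotopic_chain (f g : C(X, Y)) (H : C(X × unitInterval, Y))
    (h0 : ∀ x, H (x, 0) = f x) (h1 : ∀ x, H (x, 1) = g x) {S T : Set X} {S' T' : Set Y}
    (hS : ∀ x ∈ S, ∀ t, H (x, t) ∈ S') (hT : ∀ x ∈ T, ∀ t, H (x, t) ∈ T') {k : ℕ}
    {c : Ch X (k + 1)} (hc : c ∈ ChIn S (k + 1)) (hb : bd c ∈ ChIn T k) :
    ∃ d ∈ ChIn S' (k + 2), push g c - push f c - bd d ∈ ChIn T' (k + 1) := by
  have h := bd_htpy (w := fun k => push (lev _ 1) (io k) - push (lev _ 0) (io k))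
    (by
      rw [io, push_single, push_single, sub_eq_zero]
      congr 1
      ext1 t
      exact absurd t.2.2 (by simp))
    (fun k => by simp [str_push (aff_lev _), str_io])
    (fun k => by simp [bd_push, np_sub, np_lev]) k
  have e0 : H.comp (lev X 0) = f := ContinuousMap.ext h0
  have e1 : H.comp (lev X 1) = g := ContinuousMap.ext h1
  refine ⟨_, push_mem_ChIn H (fun x hx => hS x.1 hx.1 x.2) (np_mem_ChIn
    (htpy (fun k => push (lev _ 1) (io k) - push (lev _ 0) (io k)) (k + 1)) hc), ?_⟩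
  rw [bd_push, bd_np h, np_sub, np_lev, np_lev, nat_io, map_sub, map_sub, push_push, push_push,
    e0, e1, sub_sub_cancel]
  exact push_mem_ChIn H (fun x hx => hT x.1 hx.1 x.2) (np_mem_ChIn _ hb)

end Pool.Agent.Bet.G
end

-- part Pool.Agent.P.MP_d34769_ag.BA0
section

/-! Differential modules over `ℚ`, pairs of submodules and their homology, elementwise. -/

open Set

namespace Pool.Agent.Bet

noncomputable section

/-- A rational vector space with a differential. -/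
class Dif (C : Type) [AddCommGroup C] [Module ℚ C] where
  D : C →ₗ[ℚ] C
  DD : ∀ c, D (D c) = 0

/-- A graded differential module, the grading given by the projections `pr k`. -/
class DG (C : Type) [AddCommGroup C] [Module ℚ C] extends Dif C where
  pr : ℕ → C →ₗ[ℚ] C
  pr_pr : ∀ k l c, pr k (pr l c) = if k = l then pr l c else 0
  pr_D : ∀ k c, pr k (D c) = D (pr (k + 1) c)
  D_pr : ∀ c, D (pr 0 c) = 0
  fin : ∀ c, ∃ N, ∀ M, N ≤ M → ∑ k ∈ Finset.range M, pr k c = c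

export Dif (D DD)
export DG (pr pr_pr pr_D D_pr)

attribute [simp] DD

section ungraded

variable {C C' C'' : Type} [AddCommGroup C] [Module ℚ C] [AddCommGroup C'] [Module ℚ C']
  [AddCommGroup C''] [Module ℚ C''] [Dif C] [Dif C'] [Dif C'']

instance piDif (r : ℕ) : Dif (Fin r → C) where
  D := LinearMap.pi fun i => D ∘ₗ LinearMap.proj i
  DD c := funext fun i => DD (c i)

@[simp] lemma pi_D {r : ℕ} (c : Fin r → C) (i : Fin r) : (D c : Fin r → C) i = D (c i) := rfl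

/-- `A` is a subcomplex. -/
def Stb (A : Submodule ℚ C) : Prop := ∀ c ∈ A, D c ∈ A

/-- `(A, B)` is a pair of subcomplexes. -/
structure Pr (A B : Submodule ℚ C) : Prop where
  le : B ≤ A
  sA : Stb A
  sB : Stb B

/-- Relative cycles. -/
def ZZ (A B : Submodule ℚ C) : Submodule ℚ C := A ⊓ B.comap D

/-- Relative boundaries. -/
def BB (A B : Submodule ℚ C) : Submodule ℚ C := A.map D ⊔ B

lemma mem_ZZ {A B : Submodule ℚ C} {c : C} : c ∈ ZZ A B ↔ c ∈ A ∧ D c ∈ B := Iff.rfl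

lemma mem_BB {A B : Submodule ℚ C} {c : C} : c ∈ BB A B ↔ ∃ a ∈ A, c - D a ∈ B := by
  rw [BB, Submodule.mem_sup]
  constructor
  · rintro ⟨_, ⟨a, ha, rfl⟩, b, hb, rfl⟩
    exact ⟨a, ha, by simpa using hb⟩
  · rintro ⟨a, ha, h⟩
    exact ⟨_, ⟨a, ha, rfl⟩, _, h, by abel⟩

lemma D_mem_BB {A B : Submodule ℚ C} {a : C} (h : a ∈ A) : D a ∈ BB A B :=
  mem_BB.2 ⟨a, h, by simp⟩

lemma mem_BB_of_mem {A B : Submodule ℚ C} {b : C} (h : b ∈ B) : b ∈ BB A B :=
  mem_BB.2 ⟨0, A.zero_mem, by simpa using h⟩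

lemma ZZ_mono {A B A' B' : Submodule ℚ C} (h : A ≤ A') (h' : B ≤ B') : ZZ A B ≤ ZZ A' B' :=
  fun _ hc => ⟨h hc.1, h' hc.2⟩

lemma BB_mono {A B A' B' : Submodule ℚ C} (h : A ≤ A') (h' : B ≤ B') : BB A B ≤ BB A' B' :=
  sup_le_sup (Submodule.map_mono h) h'

lemma Pr.BB_le {A B : Submodule ℚ C} (h : Pr A B) : BB A B ≤ ZZ A B := fun c hc => by
  obtain ⟨a, ha, hb⟩ := mem_BB.1 hc
  refine mem_ZZ.2 ⟨?_, ?_⟩
  · simpa using A.add_mem (h.le hb) (h.sA a ha)
  · simpa using h.sB _ hb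

lemma stb_bot : Stb (⊥ : Submodule ℚ C) := fun c hc => by
  rw [Submodule.mem_bot] at hc ⊢; simp [hc]

lemma stb_top : Stb (⊤ : Submodule ℚ C) := fun _ _ => trivial

lemma Stb.sup {A B : Submodule ℚ C} (hA : Stb A) (hB : Stb B) : Stb (A ⊔ B) := fun c hc => by
  obtain ⟨a, ha, b, hb, rfl⟩ := Submodule.mem_sup.1 hc
  rw [map_add]
  exact Submodule.add_mem_sup (hA a ha) (hB b hb)

lemma Stb.inf {A B : Submodule ℚ C} (hA : Stb A) (hB : Stb B) : Stb (A ⊓ B) :=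
  fun c hc => ⟨hA c hc.1, hB c hc.2⟩

lemma Stb.pr_bot {A : Submodule ℚ C} (hA : Stb A) : Pr A ⊥ := ⟨bot_le, hA, stb_bot⟩

/-- The pair has no homology. -/
def Acyc (A B : Submodule ℚ C) : Prop := ZZ A B ≤ BB A B

/-- `f` induces a map on homology. -/
def HMap (f : C →ₗ[ℚ] C') (A B : Submodule ℚ C) (A' B' : Submodule ℚ C') : Prop :=
  (∀ z ∈ ZZ A B, f z ∈ ZZ A' B') ∧ ∀ z ∈ BB A B, f z ∈ BB A' B'

/-- `f` is injective on homology. -/
def Inj (f : C →ₗ[ℚ] C') (A B : Submodule ℚ C) (A' B' : Submodule ℚ C') : Prop :=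
  ∀ z ∈ ZZ A B, f z ∈ BB A' B' → z ∈ BB A B

/-- `f` is surjective on homology. -/
def Srj (f : C →ₗ[ℚ] C') (A B : Submodule ℚ C) (A' B' : Submodule ℚ C') : Prop :=
  ∀ y ∈ ZZ A' B', ∃ z ∈ ZZ A B, f z - y ∈ BB A' B'

/-- `f` induces an isomorphism on homology. -/
structure HIso (f : C →ₗ[ℚ] C') (A B : Submodule ℚ C) (A' B' : Submodule ℚ C') : Prop where
  map : HMap f A B A' B'
  inj : Inj f A B A' B'
  srj : Srj f A B A' B'

/-- `f` is a chain map from `A` to `A'`. -/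
def CMap (f : C →ₗ[ℚ] C') (A : Submodule ℚ C) (A' : Submodule ℚ C') : Prop :=
  ∀ c ∈ A, f c ∈ A' ∧ f (D c) = D (f c)

lemma CMap.hmap {f : C →ₗ[ℚ] C'} {A B : Submodule ℚ C} {A' B' : Submodule ℚ C'}
    (h : CMap f A A') (hB : ∀ c ∈ B, f c ∈ B') : HMap f A B A' B' := by
  refine ⟨fun z hz => mem_ZZ.2 ⟨(h z hz.1).1, ?_⟩, fun z hz => ?_⟩
  · rw [← (h z hz.1).2]; exact hB _ hz.2
  · obtain ⟨a, ha, hb⟩ := mem_BB.1 hz
    exact mem_BB.2 ⟨f a, (h a ha).1, by rw [← (h a ha).2, ← map_sub]; exact hB _ hb⟩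

lemma CMap.mono {f : C →ₗ[ℚ] C'} {A B : Submodule ℚ C} {A' B' : Submodule ℚ C'}
    (h : CMap f A A') (hB : B ≤ A) (hf : ∀ c ∈ B, f c ∈ B') : CMap f B B' :=
  fun c hc => ⟨hf c hc, (h c (hB hc)).2⟩

lemma cmap_id {A A' : Submodule ℚ C} (h : A ≤ A') : CMap LinearMap.id A A' :=
  fun _ hc => ⟨h hc, rfl⟩

/-- The subcomplex `A ^ r`. -/
def piS (r : ℕ) (A : Submodule ℚ C) : Submodule ℚ (Fin r → C) := Submodule.pi univ fun _ => A

omit [Dif C] in
@[simp] lemma mem_piS {r : ℕ} {A : Submodule ℚ C} {c : Fin r → C} :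
    c ∈ piS r A ↔ ∀ i, c i ∈ A := by simp [piS, Submodule.mem_pi]

/-- The map `(Λ 0, …, Λ (r - 1))`. -/
def LL (Λ : ℕ → C →ₗ[ℚ] C') (r : ℕ) : C →ₗ[ℚ] (Fin r → C') := LinearMap.pi fun i => Λ i

omit [Dif C] [Dif C'] in
@[simp] lemma LL_apply (Λ : ℕ → C →ₗ[ℚ] C') (r : ℕ) (c : C) (i : Fin r) :
    LL Λ r c i = Λ i c := rfl

/-- `(Λ 0, …, Λ (r - 1))` is an isomorphism from `H(A, B)` to `H(A', B') ^ r`. -/
structure MIso (Λ : ℕ → C →ₗ[ℚ] C') (r : ℕ) (A B : Submodule ℚ C) (A' B' : Submodule ℚ C') :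
    Prop where
  map : ∀ i < r, HMap (Λ i) A B A' B'
  inj : ∀ z ∈ ZZ A B, (∀ i < r, Λ i z ∈ BB A' B') → z ∈ BB A B
  srj : ∀ y : ℕ → C', (∀ i < r, y i ∈ ZZ A' B') → ∃ z ∈ ZZ A B, ∀ i < r, Λ i z - y i ∈ BB A' B'

/-- A family of subcomplexes indexed by the open sets of `W`, with Mayer-Vietoris property and
compact supports in `S`. -/
structure Fam {W : Type} [TopologicalSpace W] (S : Set W) (𝒜 : Set W → Submodule ℚ C) : Prop where
  stb : ∀ U, Stb (𝒜 U)
  mono : ∀ U V, U ⊆ V → 𝒜 U ≤ 𝒜 V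
  empty : 𝒜 ∅ = ⊥
  inf : ∀ U V, 𝒜 (U ∩ V) = 𝒜 U ⊓ 𝒜 V
  small : ∀ U V, IsOpen U → IsOpen V → Acyc (𝒜 (U ∪ V)) (𝒜 U ⊔ 𝒜 V)
  cpt : ∀ U, ∀ c ∈ 𝒜 U, ∃ K, IsCompact K ∧ K ⊆ U ∩ S ∧ c ∈ 𝒜 K

end ungraded

section graded

variable {C C' : Type} [AddCommGroup C] [Module ℚ C] [AddCommGroup C'] [Module ℚ C']
  [DG C] [DG C']

/-- `A` is a graded submodule. -/
def Grd (A : Submodule ℚ C) : Prop := ∀ k, ∀ c ∈ A, pr k c ∈ A

/-- A pair of graded subcomplexes. -/
structure GPr (A B : Submodule ℚ C) : Prop extends Pr A B where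
  gA : Grd A
  gB : Grd B

/-- The rank of `H_k(A, B)`. -/
def rk (A B : Submodule ℚ C) (k : ℕ) : Cardinal :=
  Module.rank ℚ ((ZZ A B ⊓ LinearMap.range (pr k : C →ₗ[ℚ] C)).map (BB A B).mkQ)

/-- `f` lowers the degree by `m`. -/
def Deg (m : ℕ) (f : C →ₗ[ℚ] C') : Prop :=
  (∀ k c, f (pr (k + m) c) = pr k (f c)) ∧ ∀ k < m, ∀ c, f (pr k c) = 0

lemma mem_range_pr {k : ℕ} {c : C} : c ∈ LinearMap.range (pr k : C →ₗ[ℚ] C) ↔ pr k c = c := by
  constructor
  · rintro ⟨a, rfl⟩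
    rw [pr_pr, if_pos rfl]
  · exact fun h => ⟨c, h⟩

lemma D_pr' (k : ℕ) (c : C) : D (pr (k + 1) c) = pr k (D c) := (pr_D k c).symm

lemma grd_bot : Grd (⊥ : Submodule ℚ C) := fun k c hc => by
  rw [Submodule.mem_bot] at hc ⊢; simp [hc]

lemma Grd.sup {A B : Submodule ℚ C} (hA : Grd A) (hB : Grd B) : Grd (A ⊔ B) := fun k c hc => by
  obtain ⟨a, ha, b, hb, rfl⟩ := Submodule.mem_sup.1 hc
  rw [map_add]
  exact Submodule.add_mem_sup (hA k a ha) (hB k b hb)

lemma Grd.inf {A B : Submodule ℚ C} (hA : Grd A) (hB : Grd B) : Grd (A ⊓ B) :=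
  fun k c hc => ⟨hA k c hc.1, hB k c hc.2⟩

lemma GPr.grd_ZZ {A B : Submodule ℚ C} (h : GPr A B) : Grd (ZZ A B) := fun k c hc => by
  refine mem_ZZ.2 ⟨h.gA k c hc.1, ?_⟩
  cases k with
  | zero => rw [D_pr]; exact B.zero_mem
  | succ k => rw [D_pr']; exact h.gB k _ hc.2

lemma GPr.grd_BB {A B : Submodule ℚ C} (h : GPr A B) : Grd (BB A B) := fun k c hc => by
  obtain ⟨a, ha, hb⟩ := mem_BB.1 hc
  exact mem_BB.2 ⟨pr (k + 1) a, h.gA _ a ha, by rw [D_pr', ← map_sub]; exact h.gB k _ hb⟩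

lemma mem_of_pr {A : Submodule ℚ C} {c : C} (h : ∀ k, pr k c ∈ A) : c ∈ A := by
  obtain ⟨N, hN⟩ := DG.fin c
  rw [← hN N le_rfl]
  exact A.sum_mem fun k _ => h k

lemma deg_id : Deg 0 (LinearMap.id : C →ₗ[ℚ] C) := ⟨fun _ _ => rfl, fun _ h => absurd h (by simp)⟩

end graded

end

end Pool.Agent.Bet
end

-- part Pool.Agent.P.MP_d34769_ag.BT0
section

/-! Total singular chains with rational coefficients. -/

open Set Classical

namespace Pool.Agent.Bet

open G (Dl face Ch)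

noncomputable section

variable {X Y Z : Type} [TopologicalSpace X] [TopologicalSpace Y] [TopologicalSpace Z]

/-- Singular simplices of all dimensions. -/
abbrev Spx (X : Type) [TopologicalSpace X] : Type := Σ k : ℕ, C(Dl (k + 1), X)

/-- Singular chains of all degrees. -/
abbrev TC (X : Type) [TopologicalSpace X] : Type := Spx X →₀ ℚ

/-- The chain given by a simplex of dimension `k`. -/
def sx (k : ℕ) (σ : C(Dl (k + 1), X)) : TC X := Finsupp.single ⟨k, σ⟩ 1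

/-- The linear map with given values on simplices. -/
def lift {M : Type} [AddCommGroup M] [Module ℚ M] (φ : ∀ k, C(Dl (k + 1), X) → M) :
    TC X →ₗ[ℚ] M := Finsupp.linearCombination ℚ fun s : Spx X => φ s.1 s.2

@[simp] lemma lift_sx {M : Type} [AddCommGroup M] [Module ℚ M] (φ : ∀ k, C(Dl (k + 1), X) → M)
    (k : ℕ) (σ : C(Dl (k + 1), X)) : lift φ (sx k σ) = φ k σ := by
  simp [lift, sx]

/-- Induction on chains. -/
lemma TC.ind {P : TC X → Prop} (c : TC X) (h0 : P 0) (hadd : ∀ a b, P a → P b → P (a + b))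
    (hs : ∀ (m : ℚ) k σ, P (m • sx k σ)) : P c := by
  induction c using Finsupp.induction_linear with
  | zero => exact h0
  | add a b ha hb => exact hadd a b ha hb
  | single s m => simpa [sx] using hs m s.1 s.2

lemma TC.ext {M : Type} [AddCommGroup M] [Module ℚ M] {f g : TC X →ₗ[ℚ] M}
    (h : ∀ k σ, f (sx k σ) = g (sx k σ)) : f = g :=
  LinearMap.ext fun c => TC.ind (P := fun c => f c = g c) c (by simp)
    (fun a b ha hb => by simp [ha, hb]) fun m k σ => by simp [h]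

/-- The inclusion of the chains of degree `k`. -/
def inc (k : ℕ) : Ch X (k + 1) →ₗ[ℚ] TC X := Finsupp.lmapDomain ℚ ℚ fun σ => (⟨k, σ⟩ : Spx X)

@[simp] lemma inc_single (k : ℕ) (σ : C(Dl (k + 1), X)) (m : ℚ) :
    inc k (Finsupp.single σ m) = m • sx k σ := by
  simp [inc, sx, Finsupp.mapDomain_single]

/-- The projection to the chains of degree `k`. -/
def prj (k : ℕ) : TC X →ₗ[ℚ] Ch X (k + 1) :=
  Finsupp.lcomapDomain (fun σ => (⟨k, σ⟩ : Spx X))
    (sigma_mk_injective (β := fun k : ℕ => C(Dl (k + 1), X)))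

@[simp] lemma prj_apply (k : ℕ) (c : TC X) (σ : C(Dl (k + 1), X)) : prj k c σ = c ⟨k, σ⟩ := rfl

@[simp] lemma prj_sx (k : ℕ) (σ : C(Dl (k + 1), X)) : prj k (sx k σ) = Finsupp.single σ 1 := by
  ext τ
  simp [sx, Finsupp.single_apply]

lemma prj_sx_ne {k l : ℕ} (h : k ≠ l) (σ : C(Dl (l + 1), X)) : prj k (sx l σ) = 0 := by
  ext τ
  simp only [prj_apply, sx, Finsupp.coe_zero, Pi.zero_apply]
  exact Finsupp.single_eq_of_ne fun e => h (congrArg Sigma.fst e)

@[simp] lemma prj_inc (k : ℕ) (c : Ch X (k + 1)) : prj k (inc k c) = c := by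
  induction c using Finsupp.induction_linear with
  | zero => simp
  | add a b ha hb => simp [ha, hb]
  | single σ m => simp

lemma prj_inc_ne {k l : ℕ} (h : k ≠ l) (c : Ch X (l + 1)) : prj k (inc l c) = 0 := by
  induction c using Finsupp.induction_linear with
  | zero => simp
  | add a b ha hb => simp [ha, hb]
  | single σ m => simp [prj_sx_ne h]

/-- The boundary of a simplex. -/
def Dsx : ∀ k, C(Dl (k + 1), X) → TC X
  | 0, _ => 0
  | k + 1, σ => ∑ i : Fin (k + 2), (-1 : ℚ) ^ (i : ℕ) • sx k (σ.comp (face i))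

lemma lift_Dsx_inc (k : ℕ) (c : Ch X (k + 2)) : lift Dsx (inc (k + 1) c) = inc k (G.bd c) := by
  induction c using Finsupp.induction_linear with
  | zero => simp
  | add a b ha hb => simp [ha, hb]
  | single σ m =>
    simp only [inc_single, map_smul, lift_sx, Dsx, G.bd_single, map_sum, Finset.smul_sum]
    exact Finset.sum_congr rfl fun i _ => smul_comm _ _ _

lemma lift_Dsx_inc_zero (c : Ch X 1) : lift Dsx (inc 0 c) = 0 := by
  induction c using Finsupp.induction_linear with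
  | zero => simp
  | add a b ha hb => simp [ha, hb]
  | single σ m => simp [Dsx]

lemma sx_eq_inc (k : ℕ) (σ : C(Dl (k + 1), X)) : sx k σ = inc k (Finsupp.single σ 1) := by simp

instance tcDG : DG (TC X) where
  D := lift Dsx
  DD c := by
    refine TC.ind (P := fun c => lift Dsx (lift Dsx c) = 0) c (by simp)
      (fun a b ha hb => by simp [ha, hb]) fun m k σ => ?_
    rw [map_smul, map_smul, sx_eq_inc]
    rcases k with _ | _ | k
    · rw [lift_Dsx_inc_zero, map_zero, smul_zero]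
    · rw [lift_Dsx_inc, lift_Dsx_inc_zero, smul_zero]
    · rw [lift_Dsx_inc, lift_Dsx_inc, G.bd_bd, map_zero, smul_zero]
  pr k := inc k ∘ₗ prj k
  pr_pr k l c := by
    split_ifs with h
    · subst h; simp
    · simp [prj_inc_ne h]
  pr_D k c := by
    refine TC.ind (P := fun c => (inc k ∘ₗ prj k) (lift Dsx c) =
      lift Dsx ((inc (k + 1) ∘ₗ prj (k + 1)) c)) c (by simp)
      (fun a b ha hb => by simp only [map_add, ha, hb]) fun m l σ => ?_
    simp only [map_smul]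
    congr 1
    rw [sx_eq_inc]
    simp only [LinearMap.comp_apply]
    rcases l with _ | l
    · rw [lift_Dsx_inc_zero, prj_inc_ne (by omega)]; simp
    · by_cases h : k = l
      · subst h; rw [prj_inc, lift_Dsx_inc, prj_inc]
      · rw [lift_Dsx_inc, prj_inc_ne h, prj_inc_ne (by omega)]; simp
  D_pr c := lift_Dsx_inc_zero _
  fin c := by
    refine TC.ind (P := fun c => ∃ N, ∀ M, N ≤ M →
      ∑ k ∈ Finset.range M, (inc k ∘ₗ prj k) c = c) c ⟨0, by simp⟩ ?_ fun m l σ => ?_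
    · rintro a b ⟨N, hN⟩ ⟨N', hN'⟩
      refine ⟨max N N', fun M hM => ?_⟩
      simp only [map_add, Finset.sum_add_distrib, hN M (le_of_max_le_left hM),
        hN' M (le_of_max_le_right hM)]
    · refine ⟨l + 1, fun M hM => ?_⟩
      rw [Finset.sum_eq_single l]
      · simp
      · intro k _ hk
        simp [prj_sx_ne hk]
      · intro h
        exact absurd (Finset.mem_range.2 hM) h

lemma pr_eq (k : ℕ) (c : TC X) : pr k c = inc k (prj k c) := rfl

lemma D_inc (k : ℕ) (c : Ch X (k + 2)) : D (inc (k + 1) c) = inc k (G.bd c) := lift_Dsx_inc k c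

@[simp] lemma D_inc_zero (c : Ch X 1) : D (inc 0 c) = 0 := lift_Dsx_inc_zero c

@[simp] lemma D_sx_zero (σ : C(Dl 1, X)) : D (sx 0 σ) = 0 := lift_sx _ _ _

lemma D_sx_succ (k : ℕ) (σ : C(Dl (k + 2), X)) :
    D (sx (k + 1) σ) = ∑ i : Fin (k + 2), (-1 : ℚ) ^ (i : ℕ) • sx k (σ.comp (face i)) :=
  lift_sx _ _ _

lemma pr_sx (k l : ℕ) (σ : C(Dl (l + 1), X)) : pr k (sx l σ) = if k = l then sx l σ else 0 := by
  rw [pr_eq]
  split_ifs with h
  · subst h; simp
  · simp [prj_sx_ne h]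

lemma prj_D (k : ℕ) (c : TC X) : prj k (D c) = G.bd (prj (k + 1) c) := by
  have := congrArg (prj k) (pr_D k c)
  rwa [pr_eq, pr_eq, prj_inc, D_inc, prj_inc] at this

/-- Chains in `S`. -/
def cn (S : Set X) : Submodule ℚ (TC X) := Finsupp.supported ℚ ℚ {s | range s.2 ⊆ S}

lemma mem_cn {S : Set X} {c : TC X} : c ∈ cn S ↔ ∀ s ∈ c.support, range s.2 ⊆ S := Iff.rfl

lemma sx_mem {S : Set X} {k : ℕ} {σ : C(Dl (k + 1), X)} (h : ∀ t, σ t ∈ S) : sx k σ ∈ cn S :=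
  Finsupp.single_mem_supported ℚ _ (range_subset_iff.2 h)

lemma cn_mono {S T : Set X} (h : S ⊆ T) : cn S ≤ cn T :=
  fun _ hc s hs => (mem_cn.1 hc s hs).trans h

@[simp] lemma cn_univ : cn (univ : Set X) = ⊤ :=
  top_unique fun _ _ _ _ => subset_univ _

@[simp] lemma cn_empty : cn (∅ : Set X) = ⊥ := by
  refine bot_unique fun c hc => ?_
  by_contra h
  obtain ⟨s, hs⟩ := Finsupp.support_nonempty_iff.2 h
  exact mem_cn.1 hc s hs ⟨stdSimplex.vertex 0, rfl⟩

lemma cn_inter (S T : Set X) : cn (S ∩ T) = cn S ⊓ cn T := by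
  ext c
  simp only [Submodule.mem_inf, mem_cn, subset_inter_iff]
  exact ⟨fun h => ⟨fun σ hσ => (h σ hσ).1, fun σ hσ => (h σ hσ).2⟩,
    fun h σ hσ => ⟨h.1 σ hσ, h.2 σ hσ⟩⟩

/-- Induction on chains in `S`. -/
lemma cn_ind {S : Set X} {P : TC X → Prop} {c : TC X} (hc : c ∈ cn S) (h0 : P 0)
    (hadd : ∀ a b, P a → P b → P (a + b))
    (hs : ∀ (m : ℚ) k (σ : C(Dl (k + 1), X)), (∀ t, σ t ∈ S) → P (m • sx k σ)) : P c := by
  rw [← Finsupp.sum_single c, Finsupp.sum]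
  refine Finset.sum_induction _ P hadd h0 fun s hs' => ?_
  simpa [sx] using hs (c s) s.1 s.2 fun t => mem_cn.1 hc s hs' ⟨t, rfl⟩

lemma map_mem_of_cn {M : Type} [AddCommGroup M] [Module ℚ M] {S : Set X} (φ : TC X →ₗ[ℚ] M)
    (A : Submodule ℚ M) (h : ∀ k (σ : C(Dl (k + 1), X)), (∀ t, σ t ∈ S) → φ (sx k σ) ∈ A)
    {c : TC X} (hc : c ∈ cn S) : φ c ∈ A :=
  cn_ind (P := fun c => φ c ∈ A) hc (by simp) (fun a b ha hb => by simpa using A.add_mem ha hb)
    fun m k σ hσ => by rw [map_smul]; exact A.smul_mem _ (h k σ hσ)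

lemma eq_of_cn {M : Type} [AddCommGroup M] [Module ℚ M] {S : Set X} {φ ψ : TC X →ₗ[ℚ] M}
    (h : ∀ k (σ : C(Dl (k + 1), X)), (∀ t, σ t ∈ S) → φ (sx k σ) = ψ (sx k σ))
    {c : TC X} (hc : c ∈ cn S) : φ c = ψ c :=
  cn_ind (P := fun c => φ c = ψ c) hc (by simp) (fun a b ha hb => by simp [ha, hb])
    fun m k σ hσ => by simp [h k σ hσ]

lemma stb_cn (S : Set X) : Stb (cn S) := fun _ hc =>
  map_mem_of_cn D _ (fun k σ hσ => by
    cases k with
    | zero => simp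
    | succ k =>
      rw [D_sx_succ]
      exact Submodule.sum_mem _ fun i _ => Submodule.smul_mem _ _ (sx_mem fun t => hσ _)) hc

lemma grd_cn (S : Set X) : Grd (cn S) := fun k _ hc =>
  map_mem_of_cn (pr k) _ (fun l σ hσ => by
    rw [pr_sx]
    split_ifs
    · exact sx_mem hσ
    · exact Submodule.zero_mem _) hc

lemma pr_cn {S T : Set X} (h : T ⊆ S) : Pr (cn S) (cn T) := ⟨cn_mono h, stb_cn S, stb_cn T⟩

lemma gpr_cn {S T : Set X} (h : T ⊆ S) : GPr (cn S) (cn T) := ⟨pr_cn h, grd_cn S, grd_cn T⟩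

lemma gpr_bot (S : Set X) : GPr (cn S) ⊥ := ⟨(stb_cn S).pr_bot, grd_cn S, grd_bot⟩

lemma inc_mem {S : Set X} {k : ℕ} {c : Ch X (k + 1)} (h : c ∈ G.ChIn S (k + 1)) :
    inc k c ∈ cn S :=
  G.map_mem_of_ChIn (inc k) _ (fun σ hσ => by simpa using sx_mem hσ) h

lemma prj_mem {S : Set X} {c : TC X} (k : ℕ) (h : c ∈ cn S) : prj k c ∈ G.ChIn S (k + 1) :=
  fun σ hσ => mem_cn.1 h ⟨k, σ⟩ (by simpa using hσ)

/-- Compact supports. -/
lemma exists_compact {S : Set X} {c : TC X} (h : c ∈ cn S) :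
    ∃ K, IsCompact K ∧ K ⊆ S ∧ c ∈ cn K :=
  ⟨⋃ s ∈ c.support, range s.2, c.support.isCompact_biUnion fun s _ => isCompact_range s.2.continuous,
    iUnion₂_subset fun s hs => mem_cn.1 h s hs,
    fun s hs => subset_iUnion₂ (s := fun (s : Spx X) (_ : s ∈ c.support) => range s.2) s hs⟩

/-- The map on chains induced by a function, to be used on sets where it is continuous. -/
def pu (f : X → Y) : TC X →ₗ[ℚ] TC Y :=
  lift fun k σ => if h : Continuous (f ∘ σ) then sx k ⟨f ∘ σ, h⟩ else 0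

lemma pu_sx' (f : X → Y) {k : ℕ} (σ : C(Dl (k + 1), X)) (h : Continuous (f ∘ σ)) :
    pu f (sx k σ) = sx k ⟨f ∘ σ, h⟩ := by
  simp [pu, h]

lemma cont_comp {f : X → Y} {S : Set X} (hf : ContinuousOn f S) {k : ℕ} {σ : C(Dl k, X)}
    (hσ : ∀ t, σ t ∈ S) : Continuous (f ∘ σ) :=
  hf.comp_continuous σ.continuous hσ

lemma pu_sx (f : C(X, Y)) {k : ℕ} (σ : C(Dl (k + 1), X)) : pu f (sx k σ) = sx k (f.comp σ) :=
  pu_sx' f σ (f.comp σ).continuous

lemma pu_inc (f : C(X, Y)) {k : ℕ} (c : Ch X (k + 1)) : pu f (inc k c) = inc k (G.push f c) := by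
  induction c using Finsupp.induction_linear with
  | zero => simp
  | add a b ha hb => simp [ha, hb]
  | single σ m => simp [pu_sx]

lemma pu_mem {f : X → Y} {S : Set X} {S' : Set Y} (h : MapsTo f S S') {c : TC X}
    (hc : c ∈ cn S) : pu f c ∈ cn S' :=
  map_mem_of_cn (pu f) _ (fun k σ hσ => by
    simp only [pu, lift_sx]
    split_ifs
    · exact sx_mem fun t => h (hσ t)
    · exact Submodule.zero_mem _) hc

lemma pu_D {f : X → Y} {S : Set X} (hf : ContinuousOn f S) {c : TC X} (hc : c ∈ cn S) :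
    pu f (D c) = D (pu f c) := by
  refine eq_of_cn (φ := pu f ∘ₗ D) (ψ := D ∘ₗ pu f) (fun k σ hσ => ?_) hc
  simp only [LinearMap.comp_apply]
  rw [pu_sx' f σ (cont_comp hf hσ)]
  cases k with
  | zero => simp
  | succ k =>
    simp only [D_sx_succ, map_sum, map_smul]
    refine Finset.sum_congr rfl fun i _ => ?_
    rw [pu_sx' f (σ.comp (face i)) (cont_comp hf fun t => hσ _)]
    rfl

lemma pu_pu {f : X → Y} {g : Y → Z} {S : Set X} (hf : ContinuousOn f S) {c : TC X}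
    (hc : c ∈ cn S) : pu g (pu f c) = pu (g ∘ f) c := by
  refine eq_of_cn (φ := pu g ∘ₗ pu f) (fun k σ hσ => ?_) hc
  simp only [LinearMap.comp_apply]
  rw [pu_sx' f σ (cont_comp hf hσ)]
  simp only [pu, lift_sx]
  rfl

lemma pu_congr {f g : X → Y} {S : Set X} (h : EqOn f g S) {c : TC X} (hc : c ∈ cn S) :
    pu f c = pu g c := by
  refine eq_of_cn (fun k σ hσ => ?_) hc
  have : f ∘ σ = g ∘ σ := funext fun t => h (hσ t)
  simp only [pu, lift_sx, this]

@[simp] lemma pu_id : pu (id : X → X) = LinearMap.id :=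
  TC.ext fun _ σ => pu_sx (ContinuousMap.id X) σ

lemma pu_of_eqOn {f : X → X} {S : Set X} (h : ∀ x ∈ S, f x = x) {c : TC X} (hc : c ∈ cn S) :
    pu f c = c := by
  rw [pu_congr (g := id) h hc, pu_id, LinearMap.id_apply]

lemma pu_pr (f : X → Y) (k : ℕ) (c : TC X) : pu f (pr k c) = pr k (pu f c) := by
  refine LinearMap.congr_fun (TC.ext (f := pu f ∘ₗ pr k) (g := pr k ∘ₗ pu f) fun l σ => ?_) c
  simp only [LinearMap.comp_apply, pr_sx]
  by_cases h : Continuous (f ∘ σ)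
  · rw [pu_sx' f σ h, pr_sx]
    split_ifs
    · exact pu_sx' f σ h
    · simp
  · have : pu f (sx l σ) = 0 := by simp [pu, h]
    split_ifs <;> simp [this]

lemma deg_pu (f : X → Y) : Deg 0 (pu f) := ⟨pu_pr f, fun _ h => absurd h (by simp)⟩

lemma cmap_pu {f : X → Y} {S : Set X} {S' : Set Y} (hf : ContinuousOn f S) (h : MapsTo f S S') :
    CMap (pu f) (cn S) (cn S') := fun _ hc => ⟨pu_mem h hc, pu_D hf hc⟩

lemma hmap_pu {f : X → Y} {S T : Set X} {S' T' : Set Y} (hf : ContinuousOn f S)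
    (h : MapsTo f S S') (h' : MapsTo f T T') : HMap (pu f) (cn S) (cn T) (cn S') (cn T') :=
  (cmap_pu hf h).hmap fun _ hc => pu_mem h' hc

/-- The sign `(-1) ^ degree`. -/
def eps : TC X →ₗ[ℚ] TC X := lift fun k σ => (-1 : ℚ) ^ k • sx k σ

@[simp] lemma eps_sx (k : ℕ) (σ : C(Dl (k + 1), X)) : eps (sx k σ) = (-1 : ℚ) ^ k • sx k σ :=
  lift_sx _ _ _

@[simp] lemma eps_eps (c : TC X) : eps (eps c) = c :=
  LinearMap.congr_fun (TC.ext (f := eps ∘ₗ eps) (g := LinearMap.id) fun k σ => by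
    simp [smul_smul, ← mul_pow]) c

lemma eps_D (c : TC X) : eps (D c) = -D (eps c) :=
  LinearMap.congr_fun (TC.ext (f := eps ∘ₗ D) (g := -(D ∘ₗ eps)) fun k σ => by
    cases k with
    | zero => simp
    | succ k =>
      simp only [LinearMap.comp_apply, LinearMap.neg_apply, eps_sx, map_smul, D_sx_succ, map_sum,
        Finset.smul_sum, smul_smul, ← Finset.sum_neg_distrib, ← neg_smul]
      exact Finset.sum_congr rfl fun i _ => by congr 1; ring) c

lemma eps_mem {S : Set X} {c : TC X} (hc : c ∈ cn S) : eps c ∈ cn S :=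
  map_mem_of_cn eps _ (fun k σ hσ => by rw [eps_sx]; exact Submodule.smul_mem _ _ (sx_mem hσ)) hc

lemma pu_eps (f : X → Y) (c : TC X) : pu f (eps c) = eps (pu f c) := by
  refine LinearMap.congr_fun (TC.ext (f := pu f ∘ₗ eps) (g := eps ∘ₗ pu f) fun l σ => ?_) c
  simp only [LinearMap.comp_apply, eps_sx, map_smul]
  by_cases h : Continuous (f ∘ σ)
  · rw [pu_sx' f σ h, eps_sx]
  · simp [pu, h]

/-- The augmentation. -/
def aug : TC X →ₗ[ℚ] ℚ := lift fun k _ => if k = 0 then 1 else 0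

@[simp] lemma aug_sx (k : ℕ) (σ : C(Dl (k + 1), X)) : aug (sx k σ) = if k = 0 then 1 else 0 :=
  lift_sx _ _ _

/-- The front face with vertices `0, …, i`. -/
def fr {k : ℕ} (i : Fin (k + 1)) : C(Dl (i + 1), Dl (k + 1)) :=
  ⟨stdSimplex.map (Fin.castLE (by omega)), stdSimplex.continuous_map _⟩

/-- The back face with vertices `i, …, k`. -/
def bk {k : ℕ} (i : Fin (k + 1)) : C(Dl (k - i + 1), Dl (k + 1)) :=
  ⟨stdSimplex.map fun j => ⟨i + j, by omega⟩, stdSimplex.continuous_map _⟩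

/-- The cap product with the cochain `ω`. -/
def cap (ω : TC X →ₗ[ℚ] ℚ) : TC X →ₗ[ℚ] TC X :=
  lift fun k σ => ∑ i : Fin (k + 1), ω (sx (k - i) (σ.comp (bk i))) • sx i (σ.comp (fr i))

lemma cap_sx (ω : TC X →ₗ[ℚ] ℚ) (k : ℕ) (σ : C(Dl (k + 1), X)) :
    cap ω (sx k σ) = ∑ i : Fin (k + 1), ω (sx (k - i) (σ.comp (bk i))) • sx i (σ.comp (fr i)) :=
  lift_sx _ _ _

/-- The slant product with the cochain `ω` on the second factor. -/
def sl (ω : TC Y →ₗ[ℚ] ℚ) : TC (X × Y) →ₗ[ℚ] TC X :=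
  pu Prod.fst ∘ₗ cap (ω ∘ₗ pu Prod.snd)

end

end Pool.Agent.Bet
end

-- part Pool.Agent.P.MP_d34769_ag.BT1
section

/-! Ranks of homology of pairs of sets, stable notions, quotients, vector bundles. -/

open Set Classical

namespace Pool.Agent.Bet

noncomputable section

section pairs

variable {X Y F : Type} [TopologicalSpace X] [TopologicalSpace Y] [TopologicalSpace F]

/-- The rank of `H_k(S, T)`. -/
def RK (S T : Set X) (k : ℕ) : Cardinal := rk (cn S) (cn T) k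

/-- `H(Z) → H(S, T)` is onto. -/
def Ont (Z S T : Set X) : Prop := Srj LinearMap.id (cn Z) ⊥ (cn S) (cn T)

/-- `p` is the Poincare series of `(S, T)`. -/
def Dim (S T : Set X) (p : PowerSeries ℚ) : Prop :=
  ∀ k, ∃ m : ℕ, RK S T k = m ∧ PowerSeries.coeff k p = m

/-- The set `B × S`. -/
def up (B : Type) {X : Type} (S : Set X) : Set (B × X) := Prod.snd ⁻¹' S

@[simp] lemma mem_up {B X : Type} {S : Set X} {x : B × X} : x ∈ up B S ↔ x.2 ∈ S := Iff.rfl

@[simp] lemma up_empty {B X : Type} : up B (∅ : Set X) = ∅ := rfl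

@[simp] lemma up_univ {B X : Type} : up B (univ : Set X) = univ := rfl

lemma up_mono {B X : Type} {S T : Set X} (h : S ⊆ T) : up B S ⊆ up B T := fun _ hx => h hx

/-- `p` is the Poincare series of `(S, T)`, stably under products. -/
def SD (S T : Set X) (p : PowerSeries ℚ) : Prop :=
  ∀ (B : Type) [TopologicalSpace B] (q : PowerSeries ℚ), Dim (univ : Set B) ∅ q →
    Dim (up B S) (up B T) (p * q)

/-- `H(Z) → H(S, T)` is stably onto. -/
def SO (Z S T : Set X) : Prop :=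
  ∀ (B : Type) [TopologicalSpace B], Ont (up B Z) (up B S) (up B T)

/-- The homology of `(S', T')` is that of `(S, T)` shifted by `m`, and surjectivity from absolute
homology passes from `(S', T')` to `(S, T)`. -/
structure Sh (m : ℕ) (S T : Set X) (S' T' : Set Y) : Prop where
  hi : ∀ (B : Type) [TopologicalSpace B] (k : ℕ),
    RK (up B S') (up B T') (k + m) = RK (up B S) (up B T) k
  lo : ∀ (B : Type) [TopologicalSpace B], ∀ k < m, RK (up B S') (up B T') k = 0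
  ont : ∀ (B : Type) [TopologicalSpace B],
    Ont (up B S') (up B S') (up B T') → Ont (up B S) (up B S) (up B T)

/-- Equivalent pairs. -/
def Eqv (S T : Set X) (S' T' : Set Y) : Prop := Sh 0 S T S' T' ∧ Sh 0 S' T' S T

/-- `f` is stably an isomorphism on the homology of pairs. -/
structure SIso (f : X → Y) (S T : Set X) (S' T' : Set Y) : Prop where
  cont : ContinuousOn f S
  le : T ⊆ S
  le' : T' ⊆ S'
  mS : MapsTo f S S'
  mT : MapsTo f T T'
  iso : ∀ (B : Type) [TopologicalSpace B], HIso (pu (Prod.map id f : B × X → B × Y))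
    (cn (up B S)) (cn (up B T)) (cn (up B S')) (cn (up B T'))

/-- `A` is relatively open in `S`. -/
def RO (A S : Set X) : Prop := ∃ U, IsOpen U ∧ A = S ∩ U

/-- A homotopy of maps from `S` to `S'`. -/
structure Htp (H : ℝ → X → Y) (S : Set X) (S' : Set Y) : Prop where
  cont : ContinuousOn (fun p : ℝ × X => H p.1 p.2) (Icc 0 1 ×ˢ S)
  map : ∀ t ∈ Icc (0 : ℝ) 1, MapsTo (H t) S S'

/-- `ω` is a cocycle of degree `m` of the pair `(A, A₀)`. -/
structure Coc (m : ℕ) (ω : TC F →ₗ[ℚ] ℚ) (A A₀ : Set F) : Prop where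
  bb : ∀ c ∈ BB (cn A) (cn A₀), ω c = 0
  dg : ∀ k, k ≠ m → ∀ c, ω (pr k c) = 0

/-- The slant product with `ω` is an isomorphism `H(W × A, W × A₀) → H(W)`. -/
def Kun (ω : TC F →ₗ[ℚ] ℚ) (A A₀ : Set F) : Prop :=
  ∀ (W : Type) [TopologicalSpace W], HIso (sl ω : TC (W × F) →ₗ[ℚ] TC W)
    (cn (up W A)) (cn (up W A₀)) ⊤ ⊥

end pairs

section quot

/-- The orbit space. -/
abbrev Q (Γ X : Type) [Group Γ] [MulAction Γ X] : Type := Quotient (MulAction.orbitRel Γ X)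

variable (Γ : Type) [Group Γ] {X Z : Type} [MulAction Γ X]

/-- The orbit map. -/
def qm (x : X) : Q Γ X := Quotient.mk _ x

/-- The image of `S` in the orbit space. -/
def qs (S : Set X) : Set (Q Γ X) := qm Γ '' S

/-- `S` is invariant. -/
def Ivt (S : Set X) : Prop := ∀ γ : Γ, ∀ x ∈ S, γ • x ∈ S

/-- The function on the orbit space induced by `g`, to be used where `g` is invariant. -/
def dsc (g : X → Z) : Q Γ X → Z := fun w => g w.out

/-- The action on `S` is principal: locally there is an equivariant map to the group. -/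
def Prin [TopologicalSpace Γ] [TopologicalSpace X] (S : Set X) : Prop :=
  ∀ x₀ ∈ S, ∃ U : Set X, IsOpen U ∧ x₀ ∈ U ∧ ∃ τ : X → Γ, ContinuousOn τ (S ∩ U) ∧
    ∀ γ : Γ, ∀ x ∈ S ∩ U, γ • x ∈ U ∧ τ (γ • x) = γ * τ x

variable {Γ}

lemma qm_eq {x y : X} : qm Γ x = qm Γ y ↔ ∃ γ : Γ, γ • y = x := Quotient.eq

@[simp] lemma qm_smul (γ : Γ) (x : X) : qm Γ (γ • x) = qm Γ x := qm_eq.2 ⟨γ, rfl⟩

lemma qm_surj (w : Q Γ X) : ∃ x, qm Γ x = w := Quotient.exists_rep w

@[simp] lemma qm_out (w : Q Γ X) : qm Γ w.out = w := Quotient.out_eq w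

lemma mem_qs {S : Set X} (hS : Ivt Γ S) {x : X} : qm Γ x ∈ qs Γ S ↔ x ∈ S := by
  refine ⟨?_, fun h => ⟨x, h, rfl⟩⟩
  rintro ⟨y, hy, e⟩
  obtain ⟨γ, rfl⟩ := qm_eq.1 e.symm
  exact hS γ y hy

lemma dsc_qm {g : X → Z} {x : X} (h : ∀ γ : Γ, g (γ • x) = g x) : dsc Γ g (qm Γ x) = g x := by
  obtain ⟨γ, e⟩ := qm_eq.1 (qm_out (qm Γ x))
  rw [dsc, ← e, h]

@[simp] lemma qs_empty : qs Γ (∅ : Set X) = ∅ := image_empty _

lemma qs_mono {S T : Set X} (h : S ⊆ T) : qs Γ S ⊆ qs Γ T := image_mono h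

lemma isOpenQuotientMap_qm [TopologicalSpace X] [ContinuousConstSMul Γ X] :
    IsOpenQuotientMap (qm Γ : X → Q Γ X) := MulAction.isOpenQuotientMap_quotientMk

lemma continuous_qm [TopologicalSpace X] : Continuous (qm Γ : X → Q Γ X) :=
  continuous_quotient_mk'

lemma Ivt.prod {Y : Type} [MulAction Γ Y] {S : Set X} {E : Set Y} (hS : Ivt Γ S) (hE : Ivt Γ E) :
    Ivt Γ (S ×ˢ E) := fun γ _ hx => ⟨hS γ _ hx.1, hE γ _ hx.2⟩

lemma Ivt.inter {S T : Set X} (hS : Ivt Γ S) (hT : Ivt Γ T) : Ivt Γ (S ∩ T) :=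
  fun γ _ hx => ⟨hS γ _ hx.1, hT γ _ hx.2⟩

lemma Ivt.diff {S T : Set X} (hS : Ivt Γ S) (hT : Ivt Γ T) : Ivt Γ (S \ T) :=
  fun γ x hx => ⟨hS γ _ hx.1, fun h => hx.2 (by simpa using hT γ⁻¹ _ h)⟩

lemma Ivt.mono {Λ Λ' : Subgroup Γ} (h : Λ ≤ Λ') {S : Set X} (hS : Ivt Λ' S) : Ivt Λ S :=
  fun γ x hx => hS ⟨γ, h γ.2⟩ x hx

/-- A space with the action through a homomorphism. -/
def Via {Λ Γ : Type} [Group Λ] [Group Γ] (_φ : Λ →* Γ) (X : Type) : Type := X

instance {Λ : Type} [Group Λ] (φ : Λ →* Γ) : MulAction Λ (Via φ X) := MulAction.compHom X φ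

instance {Λ : Type} [Group Λ] (φ : Λ →* Γ) {X : Type} [h : TopologicalSpace X] :
    TopologicalSpace (Via φ X) := h

lemma via_smul {Λ : Type} [Group Λ] (φ : Λ →* Γ) (l : Λ) (x : Via φ X) :
    l • x = (φ l • (show X from x) : X) := rfl

/-- `J` embeds the bundle associated with `F₀` over `S` into the trivial bundle. -/
structure Emb (Γ : Type) [Group Γ] [MulAction Γ X] [TopologicalSpace X] {F : Type}
    [AddCommGroup F] [Module ℂ F] [TopologicalSpace F] [MulAction Γ F]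
    (S : Set X) (F₀ : Submodule ℂ F) (J : X → F →ₗ[ℂ] (ℕ → ℂ)) : Prop where
  ivt : Ivt Γ (F₀ : Set F)
  cont : ContinuousOn (fun p : X × F => J p.1 p.2) (S ×ˢ (F₀ : Set F))
  inv : ∀ γ : Γ, ∀ x ∈ S, ∀ v ∈ F₀, J (γ • x) (γ • v) = J x v
  inj : ∀ x ∈ S, ∀ v ∈ F₀, J x v = 0 → v = 0

/-- The associated family of subspaces. -/
def asV (Γ : Type) [Group Γ] [MulAction Γ X] {F : Type} [AddCommGroup F] [Module ℂ F]
    (F₀ : Submodule ℂ F) (J : X → F →ₗ[ℂ] (ℕ → ℂ)) : Q Γ X → Submodule ℂ (ℕ → ℂ) :=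
  dsc Γ fun x => F₀.map (J x)

/-- Data showing that a circle acts with weight one on `F₀` and trivially on `S₀`: an invariant
norm `N` and an absorbing map `α`. -/
structure Wt (Γ : Type) [Group Γ] [MulAction Γ X] {Y F : Type} [MulAction Γ Y]
    [TopologicalSpace Y] [AddCommGroup F] [Module ℂ F] [TopologicalSpace F] [MulAction Γ F]
    (S₀ : Set X) (E : Set Y) (F₀ : Submodule ℂ F) (N : F → ℝ) (α : Y × F → Y) : Prop where
  cN : ContinuousOn N F₀
  pos : ∀ v ∈ F₀, v ≠ 0 → 0 < N v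
  hom : ∀ a : ℂ, ∀ v ∈ F₀, N (a • v) = ‖a‖ * N v
  inv : ∀ γ : Γ, ∀ v ∈ F₀, N (γ • v) = N v
  cα : ContinuousOn α (E ×ˢ ((F₀ : Set F) \ {0}))
  map : MapsTo α (E ×ˢ ((F₀ : Set F) \ {0})) E
  equiv : ∀ γ : Γ, ∀ x ∈ E ×ˢ ((F₀ : Set F) \ {0}), α (γ • x) = γ • α x
  circ : ∀ a : ℂ, ‖a‖ = 1 → ∃ γ : Γ, (∀ z ∈ S₀, γ • z = z) ∧ (∀ v ∈ F₀, γ • v = a • v) ∧
    ∀ y ∈ E, ∀ v ∈ F₀, v ≠ 0 → α (y, a • v) = γ • α (y, v)

end quot

section proj

/-- The ambient space of the infinite projective space (it has one extra point). -/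
abbrev PA : Type := Q ℂˣ (ℕ → ℂ)

/-- The line through `v`. -/
def pm (v : ℕ → ℂ) : PA := qm ℂˣ v

/-- The infinite projective space. -/
def Pz : Set PA := pm '' {0}ᶜ

/-- The open set where one of the first `r` coordinates is nonzero. -/
def Uo (r : ℕ) : Set PA := pm '' {v | ∃ i < r, v i ≠ 0}

/-- The projective space of the first `r` coordinates. -/
def CP (r : ℕ) : Set PA := pm '' {v | v ≠ 0 ∧ ∀ j, r ≤ j → v j = 0}

/-- The universal cocycles. -/
def IsU (u : ℕ → TC PA →ₗ[ℚ] ℚ) : Prop :=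
  ∀ n, Coc (2 * n) (u n) Pz (Uo n) ∧ Kun (u n) (Uo (n + 1)) (Uo n)

variable {W : Type} [TopologicalSpace W]

/-- `s` is a continuous frame of `V` over `S`. -/
structure Fr {r : ℕ} (S : Set W) (V : W → Submodule ℂ (ℕ → ℂ)) (s : Fin r → W → ℕ → ℂ) :
    Prop where
  cont : ∀ i, ContinuousOn (s i) S
  li : ∀ w ∈ S, LinearIndependent ℂ fun i => s i w
  sp : ∀ w ∈ S, Submodule.span ℂ (range fun i => s i w) = V w

/-- `V` is a vector bundle of rank `r` over `S`. -/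
def LF (r : ℕ) (S : Set W) (V : W → Submodule ℂ (ℕ → ℂ)) : Prop :=
  ∀ w₀ ∈ S, ∃ U, IsOpen U ∧ w₀ ∈ U ∧ ∃ s : Fin r → W → ℕ → ℂ, Fr (S ∩ U) V s

/-- The total space. -/
def Tot {W : Type} (S : Set W) (V : W → Submodule ℂ (ℕ → ℂ)) : Set (W × (ℕ → ℂ)) :=
  {x | x.1 ∈ S ∧ x.2 ∈ V x.1}

/-- The total space minus the zero section over the complement of `T`. -/
def TotC {W : Type} (S T : Set W) (V : W → Submodule ℂ (ℕ → ℂ)) : Set (W × (ℕ → ℂ)) :=
  {x | x ∈ Tot S V ∧ (x.1 ∈ T ∨ x.2 ≠ 0)}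

/-- The projective bundle. -/
def PV {W : Type} (S : Set W) (V : W → Submodule ℂ (ℕ → ℂ)) : Set (W × PA) :=
  {x | x.1 ∈ S ∧ ∃ v ∈ V x.1, v ≠ 0 ∧ pm v = x.2}

lemma Fr.mono {r : ℕ} {S T : Set W} {V : W → Submodule ℂ (ℕ → ℂ)} {s : Fin r → W → ℕ → ℂ}
    (h : Fr S V s) (hT : T ⊆ S) : Fr T V s :=
  ⟨fun i => (h.cont i).mono hT, fun w hw => h.li w (hT hw), fun w hw => h.sp w (hT hw)⟩

lemma LF.mono {r : ℕ} {S T : Set W} {V : W → Submodule ℂ (ℕ → ℂ)} (h : LF r S V) (hT : T ⊆ S) :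
    LF r T V := fun w hw => by
  obtain ⟨U, h1, h2, s, h3⟩ := h w (hT hw)
  exact ⟨U, h1, h2, s, h3.mono (inter_subset_inter_left _ hT)⟩

lemma LF.up {r : ℕ} {S : Set W} {V : W → Submodule ℂ (ℕ → ℂ)} (h : LF r S V) (B : Type)
    [TopologicalSpace B] : LF r (up B S) fun x => V x.2 := fun w hw => by
  obtain ⟨U, h1, h2, s, h3⟩ := h w.2 hw
  exact ⟨Prod.snd ⁻¹' U, h1.preimage continuous_snd, h2, fun i x => s i x.2,
    fun i => (h3.cont i).comp continuous_snd.continuousOn fun _ hx => hx,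
    fun x hx => h3.li x.2 hx, fun x hx => h3.sp x.2 hx⟩

end proj

end

end Pool.Agent.Bet
end

-- part Pool.Agent.P.MP_d34769_ag.BH1
section

/-! TASK BH1: homotopy invariance, small chains, contractible sets. -/

open Set

namespace Pool.Agent.Bet

variable {X Y : Type} [TopologicalSpace X] [TopologicalSpace Y]

/-- The inclusion of a subspace as a continuous map. -/
def val_BH1 (S : Set X) : C(S, X) := ⟨Subtype.val, continuous_subtype_val⟩

lemma inj_BH1 (S : Set X) : Function.Injective (pu (Subtype.val : S → X)) := by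
  have h1 : pu (Subtype.val : S → X) = Finsupp.lmapDomain ℚ ℚ
      (Sigma.map id fun _ σ => (val_BH1 S).comp σ : Spx S → Spx X) :=
    TC.ext fun k σ => by
      rw [show (Subtype.val : S → X) = val_BH1 S from rfl, pu_sx]
      simp only [sx, Finsupp.lmapDomain_apply, Finsupp.mapDomain_single]
      rfl
  rw [h1]
  refine Finsupp.mapDomain_injective (Function.injective_id.sigma_map fun k σ τ h => ?_)
  ext t
  exact ContinuousMap.congr_fun h t

lemma lift_BH1 {S T : Set X} {z : TC X} (hz : z ∈ cn (S ∩ T)) :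
    ∃ z' ∈ cn ((Subtype.val : S → X) ⁻¹' T), pu Subtype.val z' = z := by
  refine cn_ind (P := fun z => ∃ z' ∈ cn ((Subtype.val : S → X) ⁻¹' T), pu Subtype.val z' = z) hz
    ⟨0, Submodule.zero_mem _, map_zero _⟩ ?_ fun m k σ hσ => ?_
  · rintro _ _ ⟨a, ha, rfl⟩ ⟨b, hb, rfl⟩
    exact ⟨a + b, Submodule.add_mem _ ha hb, map_add _ _ _⟩
  · let σ' : C(G.Dl (k + 1), S) := ⟨fun t => ⟨σ t, (hσ t).1⟩, σ.continuous.subtype_mk _⟩
    refine ⟨m • sx k σ', Submodule.smul_mem _ _ (sx_mem (σ := σ') fun t => (hσ t).2), ?_⟩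
    rw [map_smul, show (Subtype.val : S → X) = val_BH1 S from rfl, pu_sx]
    rfl

lemma valD_BH1 (S : Set X) (z : TC S) :
    pu (Subtype.val : S → X) (D z) = D (pu Subtype.val z) :=
  pu_D (S := univ) continuous_subtype_val.continuousOn (by simp)

lemma htp_BH1 (f g : C(X, Y)) (H : C(X × unitInterval, Y)) (h0 : ∀ x, H (x, 0) = f x)
    (h1 : ∀ x, H (x, 1) = g x) {T : Set X} {S' T' : Set Y} (hS : ∀ x t, H (x, t) ∈ S')
    (hT : ∀ x ∈ T, ∀ t, H (x, t) ∈ T') {z : TC X} (hz : D z ∈ cn T) :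
    pu g z - pu f z ∈ BB (cn S') (cn T') := by
  refine mem_of_pr fun k => ?_
  have hb : G.bd (prj k z) ∈ G.ChIn T k := by
    cases k with
    | zero => exact G.mem_ChIn_zero _ _
    | succ k => rw [← prj_D]; exact prj_mem k hz
  obtain ⟨d, hd, h⟩ := G.homotopic_chain f g H h0 h1 (S := univ) (fun x _ t => hS x t) hT
    (G.mem_ChIn_univ _) hb
  refine mem_BB.2 ⟨inc (k + 1) d, inc_mem hd, ?_⟩
  rw [map_sub, ← pu_pr, ← pu_pr, pr_eq, pu_inc, pu_inc, D_inc, ← map_sub, ← map_sub]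
  exact inc_mem h

theorem htp_BB {H : ℝ → X → Y} {S T : Set X} {S' T' : Set Y} (h : Htp H S S')
    (hT : ∀ t ∈ Icc (0 : ℝ) 1, MapsTo (H t) T T') {z : TC X} (hz : z ∈ ZZ (cn S) (cn T)) :
    pu (H 1) z - pu (H 0) z ∈ BB (cn S') (cn T') := by
  obtain ⟨z', -, rfl⟩ := lift_BH1 (S := S) (T := univ) (z := z) (by rw [inter_univ]; exact hz.1)
  obtain ⟨w, hw, e⟩ := lift_BH1 (S := S) (T := T) (z := D (pu Subtype.val z'))
    (by rw [cn_inter]; exact ⟨stb_cn S _ hz.1, hz.2⟩)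
  rw [← valD_BH1] at e
  have e' := inj_BH1 S e
  let K : C(S × unitInterval, Y) := ⟨fun p => H p.2 p.1, h.cont.comp_continuous
    (f := fun p : S × unitInterval => ((p.2 : ℝ), (p.1 : X))) (by fun_prop)
    fun p => ⟨p.2.2, p.1.2⟩⟩
  have key := htp_BH1 (K.comp ⟨fun x => (x, 0), by fun_prop⟩)
    (K.comp ⟨fun x => (x, 1), by fun_prop⟩) K (fun _ => rfl) (fun _ => rfl)
    (T := Subtype.val ⁻¹' T) (S' := S') (T' := T') (fun x t => h.map t t.2 x.2)
    (fun x hx t => hT t t.2 hx) (z := z') (e' ▸ hw)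
  rw [pu_pu (S := univ) continuous_subtype_val.continuousOn (by simp),
    pu_pu (S := univ) continuous_subtype_val.continuousOn (by simp)]
  exact key

lemma small_BH1 {U V : Set X} (hU : IsOpen U) (hV : IsOpen V) :
    Acyc (cn (U ∪ V)) (cn U ⊔ cn V) := by
  intro z hz
  refine mem_of_pr fun k => ?_
  have hb : G.bd (prj k z) ∈ G.ChIn U k ⊔ G.ChIn V k := by
    cases k with
    | zero => exact Submodule.mem_sup_left (G.mem_ChIn_zero _ _)
    | succ k =>
      obtain ⟨a, ha, b, hb, e⟩ := Submodule.mem_sup.1 (mem_ZZ.1 hz).2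
      rw [← prj_D, ← e, map_add]
      exact Submodule.add_mem_sup (prj_mem k ha) (prj_mem k hb)
  obtain ⟨d, hd, a, ha, b, hb, e⟩ := G.small hU hV (prj_mem k hz.1) hb
  refine mem_BB.2 ⟨inc (k + 1) d, inc_mem hd, ?_⟩
  rw [pr_eq, D_inc, e, add_assoc, map_add, add_sub_cancel_left, map_add]
  exact Submodule.add_mem_sup (inc_mem ha) (inc_mem hb)

theorem small_cn (A : Set X) {U V : Set X} (hU : IsOpen U) (hV : IsOpen V) :
    Acyc (cn (A ∩ (U ∪ V))) (cn (A ∩ U) ⊔ cn (A ∩ V)) := by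
  intro z hz
  obtain ⟨z', hz', rfl⟩ := lift_BH1 hz.1
  obtain ⟨a, ha, b, hb, e⟩ := Submodule.mem_sup.1 (mem_ZZ.1 hz).2
  obtain ⟨a', ha', rfl⟩ := lift_BH1 ha
  obtain ⟨b', hb', rfl⟩ := lift_BH1 hb
  rw [← valD_BH1, ← map_add] at e
  have e' := inj_BH1 A e
  have hm : ∀ W : Set X, MapsTo (Subtype.val : A → X) (Subtype.val ⁻¹' W) (A ∩ W) :=
    fun W x hx => ⟨x.2, hx⟩
  have h1 := small_BH1 (hU.preimage (continuous_subtype_val (p := fun x => x ∈ A)))
    (hV.preimage (continuous_subtype_val (p := fun x => x ∈ A)))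
    (mem_ZZ.2 ⟨hz', e' ▸ Submodule.add_mem_sup ha' hb'⟩)
  obtain ⟨d, hd, h2⟩ := mem_BB.1 h1
  obtain ⟨u, hu, v, hv, h3⟩ := Submodule.mem_sup.1 h2
  refine mem_BB.2 ⟨pu Subtype.val d, pu_mem (hm (U ∪ V)) hd, ?_⟩
  rw [← valD_BH1, ← map_sub, ← h3, map_add]
  exact Submodule.add_mem_sup (pu_mem (hm U) hu) (pu_mem (hm V) hv)

theorem small_ro {S T : Set X} (hS : RO S (S ∪ T)) (hT : RO T (S ∪ T)) :
    Acyc (cn (S ∪ T)) (cn S ⊔ cn T) := by
  obtain ⟨U, hU, e1⟩ := hS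
  obtain ⟨V, hV, e2⟩ := hT
  have h := small_cn (S ∪ T) hU hV
  rwa [inter_union_distrib_left, ← e1, ← e2] at h

theorem exists_htp (C : Set X) [ContractibleSpace C] :
    ∃ x₀ ∈ C, ∃ H : ℝ → X → X, Htp H C C ∧ (∀ x ∈ C, H 0 x = x) ∧ ∀ x ∈ C, H 1 x = x₀ := by
  classical
  obtain ⟨y, ⟨K⟩⟩ := (contractible_iff_id_nullhomotopic C).1 inferInstance
  refine ⟨y, y.2, fun t x => if hx : x ∈ C then (K (projIcc 0 1 zero_le_one t, ⟨x, hx⟩) : X) else x,
    ⟨?_, fun t _ x hx => ?_⟩, fun x hx => ?_, fun x hx => ?_⟩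
  · rw [continuousOn_iff_continuous_domRestrict]
    have hc : Continuous fun p : (Icc (0 : ℝ) 1 ×ˢ C : Set (ℝ × X)) =>
        (K (projIcc 0 1 zero_le_one p.1.1, ⟨p.1.2, p.2.2⟩) : X) :=
      continuous_subtype_val.comp (K.continuous.comp
        ((continuous_projIcc.comp (by fun_prop)).prodMk
          ((continuous_snd.comp continuous_subtype_val).subtype_mk _)))
    refine hc.congr fun p => ?_
    have hx : p.1.2 ∈ C := p.2.2
    simp only [domRestrict_apply, dif_pos hx]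
  · simp only [dif_pos hx]
    exact Subtype.prop _
  · simp only [dif_pos hx, projIcc_left]
    exact congrArg Subtype.val (K.apply_zero ⟨x, hx⟩)
  · simp only [dif_pos hx, projIcc_right]
    exact congrArg Subtype.val (K.apply_one ⟨x, hx⟩)

lemma homot_BH1 {C : Set X} {H : ℝ → X → X} (hH : Htp H C C) {f g : C(C, C)}
    (e0 : ∀ x : C, H 0 x = f x) (e1 : ∀ x : C, H 1 x = g x) : f.Homotopic g :=
  ⟨⟨⟨fun p => ⟨H p.1 p.2, hH.map p.1 p.1.2 p.2.2⟩, (hH.cont.comp_continuous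
    (f := fun p : unitInterval × C => ((p.1 : ℝ), (p.2 : X))) (by fun_prop)
    fun p => ⟨p.1.2, p.2.2⟩).subtype_mk _⟩, fun x => Subtype.ext (e0 x),
    fun x => Subtype.ext (e1 x)⟩⟩

theorem contractible_of_htp {C : Set X} {x₀ : X} (h0 : x₀ ∈ C) {H H' : ℝ → X → X}
    (hH : Htp H C C) (hH' : Htp H' C C) (e0 : ∀ x ∈ C, H 0 x = x) (e1 : ∀ x ∈ C, H 1 x = H' 0 x)
    (e2 : ∀ x ∈ C, H' 1 x = x₀) : ContractibleSpace C := by
  have h1 : (1 : ℝ) ∈ Icc (0 : ℝ) 1 := ⟨zero_le_one, le_rfl⟩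
  let m : C(C, C) := ⟨fun x => ⟨H 1 x, hH.map 1 h1 x.2⟩, (hH.cont.comp_continuous
    (f := fun x : C => ((1 : ℝ), (x : X))) (by fun_prop) fun x => ⟨h1, x.2⟩).subtype_mk _⟩
  refine (contractible_iff_id_nullhomotopic C).2 ⟨⟨x₀, h0⟩, ?_⟩
  exact (homot_BH1 hH (f := ContinuousMap.id C) (g := m) (fun x => e0 x x.2) fun _ => rfl).trans
    (homot_BH1 hH' (fun x => (e1 x x.2).symm) fun x => e2 x x.2)

theorem fam_cn {p : Y → X} {S' : Set Y} {S : Set X} (hp : ContinuousOn p S') (hm : MapsTo p S' S) :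
    Fam S fun U => cn (S' ∩ p ⁻¹' U) := by
  refine ⟨fun U => stb_cn _, fun U V h => cn_mono (inter_subset_inter_right _ (preimage_mono h)),
    by simp, fun U V => ?_, fun U V hU hV => ?_, fun U c hc => ?_⟩
  · rw [← cn_inter, preimage_inter, inter_inter_distrib_left]
  · obtain ⟨U', hU', e1⟩ := continuousOn_iff'.1 hp U hU
    obtain ⟨V', hV', e2⟩ := continuousOn_iff'.1 hp V hV
    have h := small_cn S' hU' hV'
    rw [inter_union_distrib_left, inter_comm S' U', inter_comm S' V', ← e1, ← e2,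
      inter_comm _ S', inter_comm _ S', ← inter_union_distrib_left] at h
    exact h
  · obtain ⟨K, hK, h1, h2⟩ := exists_compact hc
    refine ⟨p '' K, hK.image_of_continuousOn (hp.mono fun x hx => (h1 hx).1), ?_,
      cn_mono (subset_inter (fun x hx => (h1 hx).1) (subset_preimage_image p K)) h2⟩
    rintro _ ⟨x, hx, rfl⟩
    exact ⟨(h1 hx).2, hm (h1 hx).1⟩

end Pool.Agent.Bet
end

-- part Pool.Agent.P.MP_d34769_ag.BA1
section

/-! TASK BA1: calculus of homology isomorphisms. -/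

open Set

namespace Pool.Agent.Bet

variable {C C' C'' : Type} [AddCommGroup C] [Module ℚ C] [AddCommGroup C'] [Module ℚ C']
  [AddCommGroup C''] [Module ℚ C''] [Dif C] [Dif C'] [Dif C'']
  {f : C →ₗ[ℚ] C'} {g : C' →ₗ[ℚ] C''} {A B E : Submodule ℚ C} {A' B' : Submodule ℚ C'}
  {A'' B'' : Submodule ℚ C''}

theorem HMap.comp (hg : HMap g A' B' A'' B'') (hf : HMap f A B A' B') :
    HMap (g ∘ₗ f) A B A'' B'' := by
  exact ⟨fun z hz => hg.1 _ (hf.1 z hz), fun z hz => hg.2 _ (hf.2 z hz)⟩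

theorem HIso.comp (hg : HIso g A' B' A'' B'') (hf : HIso f A B A' B') :
    HIso (g ∘ₗ f) A B A'' B'' := by
  refine ⟨hg.map.comp hf.map, fun z hz h => hf.inj z hz (hg.inj _ (hf.map.1 z hz) h),
    fun y hy => ?_⟩
  obtain ⟨x, hx, h1⟩ := hg.srj y hy
  obtain ⟨z, hz, h2⟩ := hf.srj x hx
  refine ⟨z, hz, ?_⟩
  have e : (g ∘ₗ f) z - y = g (f z - x) + (g x - y) := by simp
  rw [e]
  exact add_mem (hg.map.2 _ h2) h1

theorem HIso.of_comp_left (hf : HIso f A B A' B') (hg : HMap g A' B' A'' B'')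
    (h : HIso (g ∘ₗ f) A B A'' B'') : HIso g A' B' A'' B'' := by
  refine ⟨hg, fun x hx h1 => ?_, fun y hy => ?_⟩
  · obtain ⟨z, hz, h2⟩ := hf.srj x hx
    have e : (g ∘ₗ f) z = g (f z - x) + g x := by simp
    have h3 := hf.map.2 z (h.inj z hz (by rw [e]; exact add_mem (hg.2 _ h2) h1))
    simpa using sub_mem h3 h2
  · obtain ⟨z, hz, h2⟩ := h.srj y hy
    exact ⟨f z, hf.map.1 z hz, h2⟩

theorem HIso.of_comp_right (hf : HMap f A B A' B') (hg : HIso g A' B' A'' B'')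
    (h : HIso (g ∘ₗ f) A B A'' B'') : HIso f A B A' B' := by
  refine ⟨hf, fun z hz h1 => h.inj z hz (hg.map.2 _ h1), fun x hx => ?_⟩
  obtain ⟨z, hz, h2⟩ := h.srj (g x) (hg.map.1 x hx)
  exact ⟨z, hz, hg.inj _ (sub_mem (hf.1 z hz) hx) (by simpa using h2)⟩

theorem HIso.congr {f' : C →ₗ[ℚ] C'} (h : HIso f A B A' B') (hp : Pr A B) (hp' : Pr A' B')
    (e : ∀ z ∈ ZZ A B, f z - f' z ∈ BB A' B') : HIso f' A B A' B' := by
  refine ⟨⟨fun z hz => ?_, fun z hz => ?_⟩, fun z hz h1 => h.inj z hz ?_, fun y hy => ?_⟩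
  · simpa using sub_mem (h.map.1 z hz) (hp'.BB_le (e z hz))
  · simpa using sub_mem (h.map.2 z hz) (e z (hp.BB_le hz))
  · simpa using add_mem (e z hz) h1
  · obtain ⟨z, hz, h1⟩ := h.srj y hy
    exact ⟨z, hz, by simpa using sub_mem h1 (e z hz)⟩

/-- a map with a two-sided inverse on homology -/
theorem HIso.of_inv {k : C' →ₗ[ℚ] C} (hf : HMap f A B A' B') (hk : HMap k A' B' A B)
    (e : ∀ z ∈ ZZ A B, k (f z) - z ∈ BB A B) (e' : ∀ y ∈ ZZ A' B', f (k y) - y ∈ BB A' B') :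
    HIso f A B A' B' := by
  refine ⟨hf, fun z hz h1 => ?_, fun y hy => ⟨k y, hk.1 y hy, e' y hy⟩⟩
  simpa using sub_mem (hk.2 _ h1) (e z hz)

theorem hiso_id (A B : Submodule ℚ C) : HIso LinearMap.id A B A B := by
  exact ⟨⟨fun _ h => h, fun _ h => h⟩, fun _ _ h => h, fun y hy => ⟨y, hy, by simp⟩⟩

theorem Inj.of_comp (hg : HMap g A' B' A'' B'') (h : Inj (g ∘ₗ f) A B A'' B'') :
    Inj f A B A' B' := by
  exact fun z hz h1 => h z hz (hg.2 _ h1)

/-- second isomorphism theorem -/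
theorem hiso_sup (hA : Stb A) (hB : Stb B) : HIso LinearMap.id A (A ⊓ B) (A ⊔ B) B := by
  refine ⟨⟨fun z hz => ZZ_mono le_sup_left inf_le_right hz,
    fun z hz => BB_mono le_sup_left inf_le_right hz⟩, fun z hz h => ?_, fun y hy => ?_⟩
  · obtain ⟨c, hc, h1⟩ := mem_BB.1 h
    obtain ⟨a, ha, b, hb, rfl⟩ := Submodule.mem_sup.1 hc
    refine mem_BB.2 ⟨a, ha, sub_mem hz.1 (hA a ha), ?_⟩
    have e : z - D a = LinearMap.id (R := ℚ) z - D (a + b) + D b := by
      simp only [LinearMap.id_apply, map_add]; abel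
    exact e ▸ add_mem h1 (hB b hb)
  · obtain ⟨a, ha, b, hb, rfl⟩ := Submodule.mem_sup.1 hy.1
    refine ⟨a, mem_ZZ.2 ⟨ha, hA a ha, ?_⟩, mem_BB_of_mem (by simpa using hb)⟩
    have h1 : D (a + b) - D b ∈ B := sub_mem (mem_ZZ.1 hy).2 (hB b hb)
    simpa using h1

theorem Acyc.hiso_left {A₀ : Submodule ℚ C} (h : Acyc A A₀) (h1 : Pr A A₀) (h2 : Pr A₀ B) :
    HIso LinearMap.id A₀ B A B := by
  refine ⟨⟨fun z hz => ZZ_mono h1.le le_rfl hz, fun z hz => BB_mono h1.le le_rfl hz⟩,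
    fun z hz h3 => ?_, fun y hy => ?_⟩
  · obtain ⟨a, ha, h4⟩ := mem_BB.1 h3
    have h5 : D a ∈ A₀ := by simpa using sub_mem (mem_ZZ.1 hz).1 (h2.le h4)
    obtain ⟨a', -, h6⟩ := mem_BB.1 (h (mem_ZZ.2 ⟨ha, h5⟩))
    exact mem_BB.2 ⟨_, h6, by simpa using h4⟩
  · obtain ⟨a, ha, h4⟩ := mem_BB.1 (h (ZZ_mono le_rfl h2.le hy))
    refine ⟨y - D a, mem_ZZ.2 ⟨h4, by simpa using (mem_ZZ.1 hy).2⟩, ?_⟩
    simpa using D_mem_BB (B := B) ha

theorem Acyc.hiso_right {B₀ : Submodule ℚ C} (h : Acyc B B₀) (h1 : Pr A B) (h2 : Pr B B₀) :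
    HIso LinearMap.id A B₀ A B := by
  refine ⟨⟨fun z hz => ZZ_mono le_rfl h2.le hz, fun z hz => BB_mono le_rfl h2.le hz⟩,
    fun z hz h3 => ?_, fun y hy => ?_⟩
  · obtain ⟨a, ha, h4⟩ := mem_BB.1 h3
    obtain ⟨b, hb, h5⟩ := mem_BB.1 (h (mem_ZZ.2 ⟨h4, by simpa using (mem_ZZ.1 hz).2⟩))
    refine mem_BB.2 ⟨a + b, add_mem ha (h1.le hb), ?_⟩
    simpa [sub_sub] using h5
  · obtain ⟨b, hb, h4⟩ := mem_BB.1 (h (mem_ZZ.2 ⟨(mem_ZZ.1 hy).2, by simp⟩))
    refine ⟨y - b, mem_ZZ.2 ⟨sub_mem (mem_ZZ.1 hy).1 (h1.le hb), by simpa using h4⟩,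
      mem_BB_of_mem (by simpa using hb)⟩

/-- the connecting map of a triple -/
theorem Acyc.hiso_D (h : Acyc A E) (h1 : Pr A B) (h2 : Pr B E) : HIso D A B B E := by
  refine ⟨⟨fun z hz => mem_ZZ.2 ⟨(mem_ZZ.1 hz).2, by simp⟩, fun z hz => ?_⟩,
    fun z hz h3 => ?_, fun y hy => ?_⟩
  · obtain ⟨a, -, h3⟩ := mem_BB.1 hz
    simpa using D_mem_BB (B := E) h3
  · obtain ⟨b, hb, h4⟩ := mem_BB.1 h3
    obtain ⟨a, ha, h5⟩ := mem_BB.1 (h (mem_ZZ.2
      ⟨sub_mem (mem_ZZ.1 hz).1 (h1.le hb), by simpa using h4⟩))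
    refine mem_BB.2 ⟨a, ha, ?_⟩
    have e : z - D a = z - b - D a + b := by abel
    exact e ▸ add_mem (h2.le h5) hb
  · obtain ⟨a, ha, h4⟩ := mem_BB.1 (h (ZZ_mono h1.le le_rfl hy))
    refine ⟨a, mem_ZZ.2 ⟨ha, by simpa using sub_mem (mem_ZZ.1 hy).1 (h2.le h4)⟩,
      mem_BB_of_mem ?_⟩
    simpa using neg_mem h4

theorem HIso.acyc (h : HIso LinearMap.id B E A E) (h1 : Pr A B) (h2 : Pr B E) : Acyc A B := by
  intro z hz
  obtain ⟨b, hb, h3⟩ := mem_BB.1 (h.inj (D z) (mem_ZZ.2 ⟨(mem_ZZ.1 hz).2, by simp⟩)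
    (D_mem_BB (mem_ZZ.1 hz).1))
  obtain ⟨b', hb', h4⟩ := h.srj (z - b)
    (mem_ZZ.2 ⟨sub_mem (mem_ZZ.1 hz).1 (h1.le hb), by simpa using h3⟩)
  obtain ⟨a, ha, h5⟩ := mem_BB.1 h4
  refine mem_BB.2 ⟨-a, neg_mem ha, ?_⟩
  have e : z - D (-a) = b' + b - (LinearMap.id (R := ℚ) b' - (z - b) - D a) := by
    simp only [LinearMap.id_apply, map_neg]; abel
  exact e ▸ sub_mem (add_mem (mem_ZZ.1 hb').1 hb) (h2.le h5)

theorem Inj.srj (h : Inj LinearMap.id B E A E) (h1 : Pr A B) (h2 : Pr B E) :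
    Srj LinearMap.id A E A B := by
  intro y hy
  obtain ⟨b, hb, h3⟩ := mem_BB.1 (h (D y) (mem_ZZ.2 ⟨(mem_ZZ.1 hy).2, by simp⟩)
    (D_mem_BB (mem_ZZ.1 hy).1))
  exact ⟨y - b, mem_ZZ.2 ⟨sub_mem (mem_ZZ.1 hy).1 (h1.le hb), by simpa using h3⟩,
    mem_BB_of_mem (by simpa using hb)⟩

theorem Srj.inj (h : Srj LinearMap.id A E A B) (h1 : Pr A B) (h2 : Pr B E) :
    Inj LinearMap.id B E A E := by
  intro z hz h3
  obtain ⟨a, ha, h4⟩ := mem_BB.1 h3
  have h5 : D a ∈ B := by simpa using sub_mem (mem_ZZ.1 hz).1 (h2.le h4)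
  obtain ⟨w, hw, h6⟩ := h a (mem_ZZ.2 ⟨ha, h5⟩)
  obtain ⟨a', -, h7⟩ := mem_BB.1 h6
  refine mem_BB.2 ⟨_, neg_mem h7, ?_⟩
  have e : z - D (-(LinearMap.id (R := ℚ) w - a - D a')) =
      LinearMap.id (R := ℚ) z - D a + D w := by
    simp only [LinearMap.id_apply, map_neg, map_sub, DD]; abel
  exact e ▸ add_mem h4 (mem_ZZ.1 hw).2

theorem zz_BA1 {r : ℕ} {c : Fin r → C} :
    c ∈ ZZ (piS r A) (piS r B) ↔ ∀ i, c i ∈ ZZ A B := by
  simp only [mem_ZZ, mem_piS, pi_D, forall_and]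

theorem bb_BA1 {r : ℕ} {c : Fin r → C} :
    c ∈ BB (piS r A) (piS r B) ↔ ∀ i, c i ∈ BB A B := by
  simp only [mem_BB, mem_piS]
  constructor
  · rintro ⟨a, ha, h⟩ i
    exact ⟨a i, ha i, h i⟩
  · intro h
    choose a ha h using h
    exact ⟨a, ha, h⟩

theorem hiso_LL {Λ : ℕ → C →ₗ[ℚ] C'} {r : ℕ} :
    HIso (LL Λ r) A B (piS r A') (piS r B') ↔ MIso Λ r A B A' B' := by
  constructor
  · intro h
    refine ⟨fun i hi => ⟨fun z hz => zz_BA1.1 (h.map.1 z hz) ⟨i, hi⟩,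
      fun z hz => bb_BA1.1 (h.map.2 z hz) ⟨i, hi⟩⟩,
      fun z hz h1 => h.inj z hz (bb_BA1.2 fun i => h1 i i.2), fun y hy => ?_⟩
    obtain ⟨z, hz, h1⟩ := h.srj (fun i => y i) (zz_BA1.2 fun i => hy i i.2)
    exact ⟨z, hz, fun i hi => bb_BA1.1 h1 ⟨i, hi⟩⟩
  · intro h
    refine ⟨⟨fun z hz => zz_BA1.2 fun i => (h.map i i.2).1 z hz,
      fun z hz => bb_BA1.2 fun i => (h.map i i.2).2 z hz⟩,
      fun z hz h1 => h.inj z hz fun i hi => bb_BA1.1 h1 ⟨i, hi⟩, fun y hy => ?_⟩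
    obtain ⟨z, hz, h1⟩ := h.srj (fun i => if hi : i < r then y ⟨i, hi⟩ else 0) fun i hi => by
      simpa [hi] using zz_BA1.1 hy ⟨i, hi⟩
    exact ⟨z, hz, bb_BA1.2 fun i => by simpa using h1 i i.2⟩

theorem piS_bot (r : ℕ) : piS r (⊥ : Submodule ℚ C) = ⊥ := by
  ext c
  simp [funext_iff]

theorem piS_top (r : ℕ) : piS r (⊤ : Submodule ℚ C) = ⊤ := by
  ext c
  simp

theorem Pr.piS (h : Pr A B) (r : ℕ) : Pr (piS r A) (piS r B) := by
  exact ⟨fun c hc => mem_piS.2 fun i => h.le (mem_piS.1 hc i),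
    fun c hc => mem_piS.2 fun i => h.sA _ (mem_piS.1 hc i),
    fun c hc => mem_piS.2 fun i => h.sB _ (mem_piS.1 hc i)⟩

theorem cmap_LL {Λ : ℕ → C →ₗ[ℚ] C'} {r : ℕ} (h : ∀ i < r, CMap (Λ i) A A') :
    CMap (LL Λ r) A (piS r A') := by
  exact fun c hc => ⟨mem_piS.2 fun i => (h i i.2 c hc).1, funext fun i => (h i i.2 c hc).2⟩

end Pool.Agent.Bet
end

-- part Pool.Agent.P.MP_d34769_ag.BA2
section

/-! TASK BA2: five lemmas, and the induction step for Leray-Hirsch. -/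

open Set

namespace Pool.Agent.Bet

variable {C C' C'' : Type} [AddCommGroup C] [Module ℚ C] [AddCommGroup C'] [Module ℚ C']
  [AddCommGroup C''] [Module ℚ C''] [Dif C] [Dif C']
  {f : C →ₗ[ℚ] C'} {A B E : Submodule ℚ C} {A' B' E' : Submodule ℚ C'}

theorem five_mid (h1 : Pr A B) (h2 : Pr B E) (h1' : Pr A' B') (h2' : Pr B' E') (hf : CMap f A A')
    (hB : ∀ c ∈ B, f c ∈ B') (hE : ∀ c ∈ E, f c ∈ E') (i1 : HIso f B E B' E')
    (i2 : HIso f A B A' B') : HIso f A E A' E' := by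
  refine ⟨hf.hmap hE, fun z hz hfz => ?_, fun y hy => ?_⟩
  · have hz' : z ∈ ZZ A B := mem_ZZ.2 ⟨hz.1, h2.le hz.2⟩
    obtain ⟨a, ha, hb⟩ := mem_BB.1 (i2.inj z hz' (BB_mono le_rfl h2'.le hfz))
    obtain ⟨a', ha', he'⟩ := mem_BB.1 hfz
    -- b = z - D a, f b = D (a' - f a) + e'
    have hfa := hf a ha
    have hw : a' - f a ∈ ZZ A' B' := by
      refine mem_ZZ.2 ⟨A'.sub_mem ha' hfa.1, ?_⟩
      have e : D (a' - f a) = f (z - D a) - (f z - D a') := by
        rw [map_sub, map_sub, hfa.2]; abel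
      rw [e]
      exact B'.sub_mem (hB _ hb) (h2'.le he')
    obtain ⟨a1, ha1, hb'⟩ := i2.srj _ hw
    obtain ⟨a'', -, hb''⟩ := mem_BB.1 hb'
    have hfa1 := hf a1 ha1.1
    have hc : z - D a - D a1 ∈ ZZ B E := by
      refine mem_ZZ.2 ⟨B.sub_mem hb ha1.2, ?_⟩
      simpa using hz.2
    have hd : f (z - D a - D a1) ∈ BB B' E' := by
      refine mem_BB.2 ⟨-(f a1 - (a' - f a) - D a''), B'.neg_mem hb'', ?_⟩
      have e : f (z - D a - D a1) - D (-(f a1 - (a' - f a) - D a'')) = f z - D a' := by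
        simp only [map_sub, map_neg, hfa.2, hfa1.2, DD]; abel
      rw [e]; exact he'
    obtain ⟨b1, hb1, he⟩ := mem_BB.1 (i1.inj _ hc hd)
    refine mem_BB.2 ⟨a + a1 + b1, A.add_mem (A.add_mem ha ha1.1) (h1.le hb1), ?_⟩
    have e : z - D (a + a1 + b1) = z - D a - D a1 - D b1 := by
      simp only [map_add]; abel
    rw [e]; exact he
  · have hy' : y ∈ ZZ A' B' := mem_ZZ.2 ⟨hy.1, h2'.le hy.2⟩
    obtain ⟨x, hx, hfx⟩ := i2.srj y hy'
    obtain ⟨a', ha', hb'⟩ := mem_BB.1 hfx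
    have hfx' := hf x hx.1
    have hc : D x ∈ ZZ B E := mem_ZZ.2 ⟨hx.2, by simp⟩
    have hd : f (D x) ∈ BB B' E' := by
      refine mem_BB.2 ⟨f x - y - D a', hb', ?_⟩
      have e : f (D x) - D (f x - y - D a') = D y := by
        simp only [map_sub, hfx'.2, DD]; abel
      rw [e]; exact hy.2
    obtain ⟨b, hb, he⟩ := mem_BB.1 (i1.inj _ hc hd)
    have hfb := hf b (h1.le hb)
    have hw : f x - y - D a' - f b ∈ ZZ B' E' := by
      refine mem_ZZ.2 ⟨B'.sub_mem hb' (hB b hb), ?_⟩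
      have e : D (f x - y - D a' - f b) = f (D x - D b) - D y := by
        simp only [map_sub, hfx'.2, hfb.2, DD]; abel
      rw [e]
      exact E'.sub_mem (hE _ he) hy.2
    obtain ⟨b2, hb2, hb2'⟩ := i1.srj _ hw
    refine ⟨x - b - b2, mem_ZZ.2 ⟨A.sub_mem (A.sub_mem hx.1 (h1.le hb)) (h1.le hb2.1), ?_⟩, ?_⟩
    · rw [map_sub, map_sub]
      exact E.sub_mem he hb2.2
    · have e : f (x - b - b2) - y = D a' - (f b2 - (f x - y - D a' - f b)) := by
        simp only [map_sub]; abel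
      rw [e]
      exact (BB A' E').sub_mem (D_mem_BB ha') (BB_mono h1'.le le_rfl hb2')

theorem five_quot (h1 : Pr A B) (h2 : Pr B E) (h1' : Pr A' B') (h2' : Pr B' E') (hf : CMap f A A')
    (hB : ∀ c ∈ B, f c ∈ B') (hE : ∀ c ∈ E, f c ∈ E') (i1 : HIso f B E B' E')
    (i2 : HIso f A E A' E') : HIso f A B A' B' := by
  refine ⟨hf.hmap hB, fun z hz hfz => ?_, fun y hy => ?_⟩
  · obtain ⟨a', ha', hb'⟩ := mem_BB.1 hfz
    have hfz' := hf z hz.1
    have hc : D z ∈ ZZ B E := mem_ZZ.2 ⟨hz.2, by simp⟩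
    have hd : f (D z) ∈ BB B' E' := by
      refine mem_BB.2 ⟨f z - D a', hb', ?_⟩
      have e : f (D z) - D (f z - D a') = 0 := by
        simp only [map_sub, hfz'.2, DD]; abel
      rw [e]; exact E'.zero_mem
    obtain ⟨b, hb, he⟩ := mem_BB.1 (i1.inj _ hc hd)
    have hfb := hf b (h1.le hb)
    have hw : f z - D a' - f b ∈ ZZ B' E' := by
      refine mem_ZZ.2 ⟨B'.sub_mem hb' (hB b hb), ?_⟩
      have e : D (f z - D a' - f b) = f (D z - D b) := by
        simp only [map_sub, hfz'.2, hfb.2, DD]; abel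
      rw [e]
      exact hE _ he
    obtain ⟨b2, hb2, hb2'⟩ := i1.srj _ hw
    have hu : z - b - b2 ∈ ZZ A E := by
      refine mem_ZZ.2 ⟨A.sub_mem (A.sub_mem hz.1 (h1.le hb)) (h1.le hb2.1), ?_⟩
      rw [map_sub, map_sub]
      exact E.sub_mem he hb2.2
    have hv : f (z - b - b2) ∈ BB A' E' := by
      have e : f (z - b - b2) = D a' - (f b2 - (f z - D a' - f b)) := by
        simp only [map_sub]; abel
      rw [e]
      exact (BB A' E').sub_mem (D_mem_BB ha') (BB_mono h1'.le le_rfl hb2')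
    have h3 : z - b - b2 ∈ BB A B := BB_mono le_rfl h2.le (i2.inj _ hu hv)
    have e : z = z - b - b2 + (b + b2) := by abel
    rw [e]
    exact (BB A B).add_mem h3 (mem_BB_of_mem (B.add_mem hb hb2.1))
  · have hc : D y ∈ ZZ B' E' := mem_ZZ.2 ⟨hy.2, by simp⟩
    obtain ⟨b, hb, hfb⟩ := i1.srj _ hc
    obtain ⟨b', hb', he'⟩ := mem_BB.1 hfb
    have hbA : b ∈ ZZ A E := mem_ZZ.2 ⟨h1.le hb.1, hb.2⟩
    have hfb' : f b ∈ BB A' E' := by
      refine mem_BB.2 ⟨y + b', A'.add_mem hy.1 (h1'.le hb'), ?_⟩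
      have e : f b - D (y + b') = f b - D y - D b' := by
        simp only [map_add]; abel
      rw [e]; exact he'
    obtain ⟨a, ha, he⟩ := mem_BB.1 (i2.inj _ hbA hfb')
    have hfa := hf a ha
    have hDa : D a ∈ B := by
      have e : D a = b - (b - D a) := by abel
      rw [e]; exact B.sub_mem hb.1 (h2.le he)
    have hw : f a - y - b' ∈ ZZ A' E' := by
      refine mem_ZZ.2 ⟨A'.sub_mem (A'.sub_mem hfa.1 hy.1) (h1'.le hb'), ?_⟩
      have e : D (f a - y - b') = f b - D y - D b' - f (b - D a) := by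
        simp only [map_sub, hfa.2]; abel
      rw [e]
      exact E'.sub_mem he' (hE _ he)
    obtain ⟨x, hx, hfx⟩ := i2.srj _ hw
    refine ⟨a - x, mem_ZZ.2 ⟨A.sub_mem ha hx.1, ?_⟩, ?_⟩
    · rw [map_sub]
      exact B.sub_mem hDa (h2.le hx.2)
    · have e : f (a - x) - y = b' - (f x - (f a - y - b')) := by
        simp only [map_sub]; abel
      rw [e]
      exact (BB A' B').sub_mem (mem_BB_of_mem hb') (BB_mono le_rfl h2'.le hfx)

/-- One more coordinate: if `(Λ 0, …, Λ (r - 1))` is an isomorphism on `B`, and `Λ r` kills `B` and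
is an isomorphism on `(A, B)`, then `(Λ 0, …, Λ r)` is an isomorphism on `A`. -/
theorem miso_succ {Λ : ℕ → C →ₗ[ℚ] C'} {r : ℕ} (h1 : Pr A B) (hA' : Stb A')
    (hc : ∀ i ≤ r, CMap (Λ i) A A') (h0 : ∀ c ∈ B, Λ r c = 0) (i1 : MIso Λ r B ⊥ A' ⊥)
    (i2 : HIso (Λ r) A B A' ⊥) : MIso Λ (r + 1) A ⊥ A' ⊥ := by
  refine ⟨fun i hi => (hc i (Nat.lt_succ_iff.1 hi)).hmap fun c h => ?_, fun z hz h => ?_,
    fun y hy => ?_⟩
  · rw [Submodule.mem_bot] at h ⊢
    simp [h]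
  · have hDz : D z = 0 := (Submodule.mem_bot ℚ).1 hz.2
    have hz' : z ∈ ZZ A B := mem_ZZ.2 ⟨hz.1, by rw [hDz]; exact B.zero_mem⟩
    obtain ⟨a, ha, hb⟩ := mem_BB.1 (i2.inj z hz' (h r (Nat.lt_succ_self r)))
    have hbz : z - D a ∈ ZZ B ⊥ := mem_ZZ.2 ⟨hb, by simp [hDz]⟩
    have h3 : z - D a ∈ BB B ⊥ := by
      refine i1.inj _ hbz fun i hi => ?_
      have hfa := hc i hi.le a ha
      rw [map_sub, hfa.2]
      exact (BB A' ⊥).sub_mem (h i (Nat.lt_succ_of_lt hi)) (D_mem_BB hfa.1)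
    have e : z = z - D a + D a := by abel
    rw [e]
    exact (BB A ⊥).add_mem (BB_mono h1.le le_rfl h3) (D_mem_BB ha)
  · obtain ⟨x, hx, hfx⟩ := i2.srj (y r) (hy r (Nat.lt_succ_self r))
    have hc1 : D x ∈ ZZ B ⊥ := mem_ZZ.2 ⟨hx.2, by simp⟩
    have h3 : D x ∈ BB B ⊥ := by
      refine i1.inj _ hc1 fun i hi => ?_
      have hfa := hc i hi.le x hx.1
      rw [hfa.2]
      exact D_mem_BB hfa.1
    obtain ⟨b, hb, he⟩ := mem_BB.1 h3
    have he0 : D x - D b = 0 := (Submodule.mem_bot ℚ).1 he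
    have hxb : x - b ∈ A := A.sub_mem hx.1 (h1.le hb)
    have hD : D (x - b) = 0 := by rw [map_sub, he0]
    obtain ⟨w, hw, hw'⟩ := i1.srj (fun i => y i - Λ i (x - b)) fun i hi => by
      have hfa := hc i hi.le _ hxb
      have hyi := hy i (Nat.lt_succ_of_lt hi)
      refine mem_ZZ.2 ⟨A'.sub_mem hyi.1 hfa.1, ?_⟩
      rw [map_sub, ← hfa.2, hD, map_zero, sub_zero]
      exact hyi.2
    refine ⟨x - b + w, mem_ZZ.2 ⟨A.add_mem hxb (h1.le hw.1), ?_⟩, fun i hi => ?_⟩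
    · rw [map_add, hD, zero_add]
      exact hw.2
    · rcases (Nat.lt_succ_iff.1 hi).lt_or_eq with hi' | rfl
      · have e : Λ i (x - b + w) - y i = Λ i w - (y i - Λ i (x - b)) := by
          rw [map_add]; abel
        rw [e]
        exact hw' i hi'
      · rw [map_add, map_sub, h0 b hb, h0 w hw.1, sub_zero, add_zero]
        exact hfx

end Pool.Agent.Bet
end

-- part Pool.Agent.P.MP_d34769_ag.BH2
section

/-! TASK BH2: calculus of stable isomorphisms. -/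

open Set

namespace Pool.Agent.Bet

variable {X Y Z : Type} [TopologicalSpace X] [TopologicalSpace Y] [TopologicalSpace Z]
  {f : X → Y} {g : Y → Z} {S T : Set X} {S' T' : Set Y} {S'' T'' : Set Z}

lemma cont_up_BH2 {B : Type} [TopologicalSpace B] (hf : ContinuousOn f S) :
    ContinuousOn (Prod.map id f : B × X → B × Y) (up B S) :=
  continuous_fst.continuousOn.prodMk (hf.comp continuous_snd.continuousOn fun _ hx => hx)

lemma htp_up_BH2 {B : Type} [TopologicalSpace B] {H : ℝ → X → Y} (h : Htp H S S') :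
    Htp (fun t => (Prod.map id (H t) : B × X → B × Y)) (up B S) (up B S') := by
  refine ⟨?_, fun t ht _ hx => h.map t ht hx⟩
  have c1 : ContinuousOn (fun p : ℝ × B × X => H p.1 p.2.2) (Icc 0 1 ×ˢ up B S) :=
    h.cont.comp (f := fun p : ℝ × B × X => (p.1, p.2.2)) (by fun_prop) fun p hp => ⟨hp.1, hp.2⟩
  exact continuous_snd.fst.continuousOn.prodMk c1

lemma htp_id_BH2 (S : Set X) : Htp (fun _ => id) S S :=
  ⟨continuous_snd.continuousOn, fun _ _ => mapsTo_id S⟩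

/-- a homotopy equivalence of pairs, unstable form -/
theorem hiso_of_he {k : Y → X} (hT : T ⊆ S) (hT' : T' ⊆ S') (cf : ContinuousOn f S)
    (ck : ContinuousOn k S') (m1 : MapsTo f S S') (m2 : MapsTo f T T') (m3 : MapsTo k S' S)
    (m4 : MapsTo k T' T) {H : ℝ → X → X} {H' : ℝ → Y → Y} (hH : Htp H S S) (hH' : Htp H' S' S')
    (t1 : ∀ t ∈ Icc (0 : ℝ) 1, MapsTo (H t) T T) (t2 : ∀ t ∈ Icc (0 : ℝ) 1, MapsTo (H' t) T' T')
    (e0 : ∀ x ∈ S, H 0 x = x) (e1 : ∀ x ∈ S, H 1 x = k (f x)) (e0' : ∀ y ∈ S', H' 0 y = y)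
    (e1' : ∀ y ∈ S', H' 1 y = f (k y)) : HIso (pu f) (cn S) (cn T) (cn S') (cn T') := by
  refine HIso.of_inv (k := pu k) (hmap_pu cf m1 m2) (hmap_pu ck m3 m4) (fun z hz => ?_)
    fun y hy => ?_
  · have h := htp_BB hH t1 hz
    rwa [pu_of_eqOn e0 hz.1, pu_congr (g := k ∘ f) e1 hz.1, ← pu_pu cf hz.1] at h
  · have h := htp_BB hH' t2 hy
    rwa [pu_of_eqOn e0' hy.1, pu_congr (g := f ∘ k) e1' hy.1, ← pu_pu ck hy.1] at h

/-- a homotopy equivalence of pairs -/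
theorem SIso.of_he {k : Y → X} (hT : T ⊆ S) (hT' : T' ⊆ S') (cf : ContinuousOn f S)
    (ck : ContinuousOn k S') (m1 : MapsTo f S S') (m2 : MapsTo f T T') (m3 : MapsTo k S' S)
    (m4 : MapsTo k T' T) {H : ℝ → X → X} {H' : ℝ → Y → Y} (hH : Htp H S S) (hH' : Htp H' S' S')
    (t1 : ∀ t ∈ Icc (0 : ℝ) 1, MapsTo (H t) T T) (t2 : ∀ t ∈ Icc (0 : ℝ) 1, MapsTo (H' t) T' T')
    (e0 : ∀ x ∈ S, H 0 x = x) (e1 : ∀ x ∈ S, H 1 x = k (f x)) (e0' : ∀ y ∈ S', H' 0 y = y)
    (e1' : ∀ y ∈ S', H' 1 y = f (k y)) : SIso f S T S' T' := by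
  refine ⟨cf, hT, hT', m1, m2, fun B _ => ?_⟩
  exact hiso_of_he (k := Prod.map id k) (H := fun t => Prod.map id (H t))
    (H' := fun t => Prod.map id (H' t)) (up_mono hT) (up_mono hT') (cont_up_BH2 cf)
    (cont_up_BH2 ck) (fun _ hx => m1 hx) (fun _ hx => m2 hx) (fun _ hx => m3 hx)
    (fun _ hx => m4 hx) (htp_up_BH2 hH) (htp_up_BH2 hH') (fun t ht _ hx => t1 t ht hx)
    (fun t ht _ hx => t2 t ht hx) (fun x hx => Prod.ext rfl (e0 x.2 hx))
    (fun x hx => Prod.ext rfl (e1 x.2 hx)) (fun x hx => Prod.ext rfl (e0' x.2 hx))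
    (fun x hx => Prod.ext rfl (e1' x.2 hx))

/-- a homeomorphism of pairs -/
theorem SIso.of_inv {k : Y → X} (hT : T ⊆ S) (hT' : T' ⊆ S') (cf : ContinuousOn f S)
    (ck : ContinuousOn k S') (m1 : MapsTo f S S') (m2 : MapsTo f T T') (m3 : MapsTo k S' S)
    (m4 : MapsTo k T' T) (e : ∀ x ∈ S, k (f x) = x) (e' : ∀ y ∈ S', f (k y) = y) :
    SIso f S T S' T' := by
  exact SIso.of_he (H := fun _ => id) (H' := fun _ => id) hT hT' cf ck m1 m2 m3 m4
    (htp_id_BH2 S) (htp_id_BH2 S') (fun _ _ => mapsTo_id T) (fun _ _ => mapsTo_id T')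
    (fun _ _ => rfl) (fun x hx => (e x hx).symm) (fun _ _ => rfl) fun y hy => (e' y hy).symm

/-- a deformation of `(S, T)` into `(S₀, T₀)` -/
theorem SIso.of_def {S₀ T₀ : Set X} (h1 : S₀ ⊆ S) (h2 : T₀ ⊆ T) (h3 : T ⊆ S) (h4 : T₀ ⊆ S₀)
    {H : ℝ → X → X} (hH : Htp H S S) (t1 : ∀ t ∈ Icc (0 : ℝ) 1, MapsTo (H t) T T)
    (t2 : ∀ t ∈ Icc (0 : ℝ) 1, MapsTo (H t) S₀ S₀) (t3 : ∀ t ∈ Icc (0 : ℝ) 1, MapsTo (H t) T₀ T₀)
    (e0 : ∀ x ∈ S, H 0 x = x) (m1 : MapsTo (H 1) S S₀) (m2 : MapsTo (H 1) T T₀) :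
    SIso id S₀ T₀ S T := by
  have c1 : ContinuousOn (H 1) S :=
    hH.cont.comp (f := fun x : X => ((1 : ℝ), x)) (by fun_prop) fun x hx => ⟨by simp, hx⟩
  exact SIso.of_he (k := H 1) (H := H) (H' := H) h4 h3 continuousOn_id c1 (fun _ hx => h1 hx)
    (fun _ hx => h2 hx) m1 m2 ⟨hH.cont.mono (prod_mono_right h1), t2⟩ hH t3 t1
    (fun x hx => e0 x (h1 hx)) (fun _ _ => rfl) e0 fun _ _ => rfl

theorem SIso.refl (h : T ⊆ S) : SIso id S T S T := by
  exact SIso.of_inv (k := id) h h continuousOn_id continuousOn_id (mapsTo_id S) (mapsTo_id T)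
    (mapsTo_id S) (mapsTo_id T) (fun _ _ => rfl) fun _ _ => rfl

lemma hiso_bot_BH2 (φ : TC X →ₗ[ℚ] TC Y) : HIso φ ⊥ ⊥ ⊥ ⊥ := by
  refine ⟨CMap.hmap (fun c hc => ?_) fun c hc => ?_, fun z hz _ => mem_BB_of_mem hz.1,
    fun y hy => ⟨0, Submodule.zero_mem _, mem_BB_of_mem ?_⟩⟩
  · rw [Submodule.mem_bot] at hc; simp [hc]
  · rw [Submodule.mem_bot] at hc; simp [hc]
  · rw [map_zero, zero_sub]; exact Submodule.neg_mem _ hy.1

open Classical in
lemma of_homeo_BH2 (h : X ≃ₜ S') : SIso (fun x => (h x : Y)) univ ∅ S' ∅ := by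
  have cf : ContinuousOn (fun x => (h x : Y)) univ :=
    (continuous_subtype_val.comp h.continuous).continuousOn
  rcases isEmpty_or_nonempty X with hX | ⟨⟨x0⟩⟩
  · have e : S' = ∅ := eq_empty_of_forall_notMem fun y hy => hX.false (h.symm ⟨y, hy⟩)
    refine ⟨cf, empty_subset _, empty_subset _, fun x _ => (h x).2, mapsTo_empty _ _,
      fun B _ => ?_⟩
    have e1 : up B (univ : Set X) = ∅ := eq_empty_of_forall_notMem fun y _ => hX.false y.2
    have e2 : up B S' = ∅ := eq_empty_of_forall_notMem fun y hy => hX.false (h.symm ⟨y.2, hy⟩)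
    rw [e1, e2, up_empty, up_empty, cn_empty, cn_empty]
    exact hiso_bot_BH2 _
  · refine SIso.of_inv (k := fun y => if hy : y ∈ S' then h.symm ⟨y, hy⟩ else x0)
      (empty_subset _) (empty_subset _) cf ?_ (fun x _ => (h x).2) (mapsTo_empty _ _)
      (mapsTo_univ _ _) (mapsTo_empty _ _) (fun x _ => ?_) fun y hy => ?_
    · rw [continuousOn_iff_continuous_domRestrict]
      refine h.symm.continuous.congr fun y => ?_
      simp [y.2]
    · simp [(h x).2]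
    · simp [hy]

theorem SIso.val (S : Set X) : SIso (Subtype.val : S → X) univ ∅ S ∅ := by
  exact of_homeo_BH2 (Homeomorph.refl S)

theorem SIso.of_homeo (h : X ≃ₜ S') : SIso (fun x => (h x : Y)) univ ∅ S' ∅ := by
  exact of_homeo_BH2 h

theorem SIso.hiso (h : SIso f S T S' T') : HIso (pu f) (cn S) (cn T) (cn S') (cn T') := by
  have i1 : HIso (pu fun x : X => (((), x) : Unit × X)) (cn S) (cn T) (cn (up Unit S))
      (cn (up Unit T)) :=
    hiso_of_he (k := Prod.snd) (H := fun _ => id) (H' := fun _ => id) h.le (up_mono h.le)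
      (by fun_prop) continuous_snd.continuousOn (fun _ hx => hx) (fun _ hx => hx) (fun _ hx => hx)
      (fun _ hx => hx) (htp_id_BH2 _) (htp_id_BH2 _) (fun _ _ => mapsTo_id _)
      (fun _ _ => mapsTo_id _) (fun _ _ => rfl) (fun _ _ => rfl) (fun _ _ => rfl) fun _ _ => rfl
  have i2 : HIso (pu (Prod.snd : Unit × Y → Y)) (cn (up Unit S')) (cn (up Unit T')) (cn S')
      (cn T') :=
    hiso_of_he (k := fun y : Y => (((), y) : Unit × Y)) (H := fun _ => id) (H' := fun _ => id)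
      (up_mono h.le') h.le' continuous_snd.continuousOn (by fun_prop) (fun _ hx => hx)
      (fun _ hx => hx) (fun _ hx => hx) (fun _ hx => hx) (htp_id_BH2 _) (htp_id_BH2 _)
      (fun _ _ => mapsTo_id _) (fun _ _ => mapsTo_id _) (fun _ _ => rfl) (fun _ _ => rfl)
      (fun _ _ => rfl) fun _ _ => rfl
  refine (i2.comp ((h.iso Unit).comp i1)).congr (pr_cn h.le) (pr_cn h.le') fun z hz => ?_
  have c1 : ContinuousOn (fun x : X => (((), x) : Unit × X)) S := by fun_prop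
  have c2 : ContinuousOn ((Prod.map id f : Unit × X → Unit × Y) ∘
      fun x : X => (((), x) : Unit × X)) S := (cont_up_BH2 h.cont).comp c1 fun _ hx => hx
  rw [LinearMap.comp_apply, LinearMap.comp_apply, pu_pu c1 hz.1, pu_pu c2 hz.1]
  exact (sub_self (pu f z)).symm ▸ Submodule.zero_mem _

end Pool.Agent.Bet
end

-- part Pool.Agent.P.MP_d34769_ag.BH2b
section

/-! TASK BH2b: calculus of stable isomorphisms, excision. -/

open Set

namespace Pool.Agent.Bet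

variable {X Y Z : Type} [TopologicalSpace X] [TopologicalSpace Y] [TopologicalSpace Z]
  {f : X → Y} {g : Y → Z} {S T : Set X} {S' T' : Set Y} {S'' T'' : Set Z}

lemma cont_BH2b (hf : ContinuousOn f S) (B : Type) [TopologicalSpace B] :
    ContinuousOn (Prod.map id f : B × X → B × Y) (up B S) :=
  continuous_fst.continuousOn.prodMk (hf.comp continuous_snd.continuousOn fun _ hx => hx)

omit [TopologicalSpace X] [TopologicalSpace Y] in
lemma maps_BH2b (h : MapsTo f S S') (B : Type) :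
    MapsTo (Prod.map id f : B × X → B × Y) (up B S) (up B S') := fun _ hx => h hx

/-- replacing a linear map by one that agrees with it on the chains in `S` -/
lemma congr_BH2b {φ ψ : TC X →ₗ[ℚ] TC Y} (h : HIso φ (cn S) (cn T) (cn S') (cn T')) (hT : T ⊆ S)
    (hT' : T' ⊆ S') (e : ∀ c ∈ cn S, φ c = ψ c) : HIso ψ (cn S) (cn T) (cn S') (cn T') :=
  h.congr (pr_cn hT) (pr_cn hT') fun z hz => by
    rw [e z hz.1, sub_self]; exact Submodule.zero_mem _

lemma pupu_BH2b (hf : ContinuousOn f S) (B : Type) [TopologicalSpace B] :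
    ∀ c ∈ cn (up B S), (pu (Prod.map id g : B × Y → B × Z) ∘ₗ
      pu (Prod.map id f : B × X → B × Y)) c = pu (Prod.map id (g ∘ f) : B × X → B × Z) c :=
  fun _ hc => pu_pu (cont_BH2b hf B) hc

theorem SIso.comp (hg : SIso g S' T' S'' T'') (hf : SIso f S T S' T') :
    SIso (g ∘ f) S T S'' T'' :=
  ⟨hg.cont.comp hf.cont hf.mS, hf.le, hg.le', hg.mS.comp hf.mS, hg.mT.comp hf.mT, fun B _ =>
    congr_BH2b ((hg.iso B).comp (hf.iso B)) (up_mono hf.le) (up_mono hg.le') (pupu_BH2b hf.cont B)⟩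

theorem SIso.of_comp_left (hf : SIso f S T S' T') (cg : ContinuousOn g S') (m1 : MapsTo g S' S'')
    (m2 : MapsTo g T' T'') (h : SIso (g ∘ f) S T S'' T'') : SIso g S' T' S'' T'' :=
  ⟨cg, hf.le', h.le', m1, m2, fun B _ =>
    (hf.iso B).of_comp_left (hmap_pu (cont_BH2b cg B) (maps_BH2b m1 B) (maps_BH2b m2 B))
      (congr_BH2b (h.iso B) (up_mono h.le) (up_mono h.le')
        fun c hc => (pupu_BH2b hf.cont B c hc).symm)⟩

theorem SIso.of_comp_right (cf : ContinuousOn f S) (m1 : MapsTo f S S') (m2 : MapsTo f T T')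
    (hg : SIso g S' T' S'' T'') (h : SIso (g ∘ f) S T S'' T'') : SIso f S T S' T' :=
  ⟨cf, h.le, hg.le, m1, m2, fun B _ =>
    HIso.of_comp_right (hmap_pu (cont_BH2b cf B) (maps_BH2b m1 B) (maps_BH2b m2 B)) (hg.iso B)
      (congr_BH2b (h.iso B) (up_mono h.le) (up_mono h.le')
        fun c hc => (pupu_BH2b cf B c hc).symm)⟩

theorem SIso.congr {f' : X → Y} (h : SIso f S T S' T') (e : EqOn f f' S) : SIso f' S T S' T' :=
  ⟨h.cont.congr e.symm, h.le, h.le', h.mS.congr e, h.mT.congr (e.mono h.le), fun B _ =>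
    congr_BH2b (h.iso B) (up_mono h.le) (up_mono h.le') fun _ hc =>
      pu_congr (f := Prod.map id f) (g := Prod.map id f') (fun x hx => Prod.ext rfl (e hx)) hc⟩

lemma htp_BH2b {H : ℝ → X → Y} (hH : Htp H S S') (B : Type) [TopologicalSpace B] :
    Htp (fun t => (Prod.map id (H t) : B × X → B × Y)) (up B S) (up B S') := by
  refine ⟨?_, fun t ht => maps_BH2b (hH.map t ht) B⟩
  refine ContinuousOn.prodMk (continuous_fst.comp continuous_snd).continuousOn ?_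
  exact hH.cont.comp (f := fun p : ℝ × B × X => (p.1, p.2.2)) (by fun_prop)
    fun p hp => ⟨hp.1, hp.2⟩

/-- a map homotopic to a stable isomorphism -/
theorem SIso.of_htp {H : ℝ → X → Y} (hH : Htp H S S') (t1 : ∀ t ∈ Icc (0 : ℝ) 1, MapsTo (H t) T T')
    (h : SIso (H 0) S T S' T') : SIso (H 1) S T S' T' := by
  have h1 : (1 : ℝ) ∈ Icc (0 : ℝ) 1 := ⟨zero_le_one, le_rfl⟩
  refine ⟨hH.cont.comp (f := fun x : X => ((1 : ℝ), x)) (by fun_prop) fun x hx => ⟨h1, hx⟩,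
    h.le, h.le', hH.map 1 h1, t1 1 h1, fun B _ => ?_⟩
  refine (h.iso B).congr (pr_cn (up_mono h.le)) (pr_cn (up_mono h.le')) fun z hz => ?_
  have := htp_BB (htp_BH2b hH B) (fun t ht => maps_BH2b (t1 t ht) B) hz
  rw [← neg_sub]
  exact Submodule.neg_mem _ this

theorem SIso.pair (h : SIso f S ∅ S' ∅) (h' : SIso f T ∅ T' ∅) (hT : T ⊆ S) (hT' : T' ⊆ S') :
    SIso f S T S' T' :=
  ⟨h.cont, hT, hT', h.mS, h'.mS, fun B _ =>
    five_quot (pr_cn (up_mono hT)) (pr_cn (up_mono h'.le)) (pr_cn (up_mono hT'))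
      (pr_cn (up_mono h'.le')) (cmap_pu (cont_BH2b h.cont B) (maps_BH2b h.mS B))
      (fun _ hc => pu_mem (maps_BH2b h'.mS B) hc) (fun _ hc => pu_mem (maps_BH2b h'.mT B) hc)
      (h'.iso B) (h.iso B)⟩

lemma ro_BH2b {A : Set X} (h : RO A S) (B : Type) [TopologicalSpace B] :
    RO (up B A) (up B S) := by
  obtain ⟨U, hU, rfl⟩ := h
  exact ⟨Prod.snd ⁻¹' U, hU.preimage continuous_snd, rfl⟩

lemma exc_BH2b {S₁ S₂ : Set X} (h1 : RO S₁ (S₁ ∪ S₂)) (h2 : RO S₂ (S₁ ∪ S₂)) :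
    HIso LinearMap.id (cn S₁) (cn (S₁ ∩ S₂)) (cn (S₁ ∪ S₂)) (cn S₂) := by
  have a1 := hiso_sup (stb_cn S₁) (stb_cn S₂)
  have a2 := (small_ro h1 h2).hiso_left (B := cn S₂)
    ⟨sup_le (cn_mono subset_union_left) (cn_mono subset_union_right), stb_cn _,
      (stb_cn _).sup (stb_cn _)⟩ ⟨le_sup_right, (stb_cn _).sup (stb_cn _), stb_cn _⟩
  rw [cn_inter]
  exact a2.comp a1

/-- excision -/
theorem SIso.exc {S₁ A : Set X} (h1 : RO S₁ S) (h2 : RO (S \ A) S) (h3 : S ∩ A ⊆ S₁) :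
    SIso id S₁ (S₁ \ A) S (S \ A) := by
  have hs : S₁ ⊆ S := by
    obtain ⟨U, -, rfl⟩ := h1
    exact inter_subset_left
  refine ⟨continuousOn_id, sdiff_subset, sdiff_subset, fun _ hx => hs hx,
    fun _ hx => ⟨hs hx.1, hx.2⟩, fun B _ => ?_⟩
  have e1 : up B S₁ ∪ up B (S \ A) = up B S := by
    ext x
    simp only [mem_union, mem_up, mem_sdiff]
    refine ⟨fun h => h.elim (fun h => hs h) fun h => h.1, fun h => ?_⟩
    by_cases hA : x.2 ∈ A
    · exact Or.inl (h3 ⟨h, hA⟩)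
    · exact Or.inr ⟨h, hA⟩
  have e2 : up B S₁ ∩ up B (S \ A) = up B (S₁ \ A) := by
    ext x
    simp only [mem_inter_iff, mem_up, mem_sdiff]
    exact ⟨fun h => ⟨h.1, h.2.2⟩, fun h => ⟨h.1, hs h.1, h.2⟩⟩
  have := exc_BH2b (S₁ := up B S₁) (S₂ := up B (S \ A)) (by rw [e1]; exact ro_BH2b h1 B)
    (by rw [e1]; exact ro_BH2b h2 B)
  rw [e1, e2] at this
  rw [Prod.map_id, pu_id]
  exact this

theorem SIso.acyc (h : SIso id T ∅ S ∅) (B : Type) [TopologicalSpace B] :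
    Acyc (cn (up B S)) (cn (up B T)) := by
  have := h.iso B
  rw [Prod.map_id, pu_id] at this
  exact this.acyc (pr_cn (up_mono h.mS)) (pr_cn (up_mono h.le))

lemma assoc_BH2b (hT : T ⊆ S) (A B : Type) [TopologicalSpace A] [TopologicalSpace B] :
    HIso (pu (fun x : A × B × X => ((x.1, x.2.1), x.2.2))) (cn (up A (up B S)))
      (cn (up A (up B T))) (cn (up (A × B) S)) (cn (up (A × B) T)) := by
  refine HIso.of_inv (k := pu (fun y : (A × B) × X => (y.1.1, y.1.2, y.2)))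
    (hmap_pu (by fun_prop) (fun _ hx => hx) (fun _ hx => hx))
    (hmap_pu (by fun_prop) (fun _ hx => hx) (fun _ hx => hx)) (fun z hz => ?_) (fun z hz => ?_)
  · rw [pu_pu (by fun_prop) hz.1, pu_of_eqOn ?_ hz.1, sub_self]
    · exact Submodule.zero_mem _
    · exact fun _ _ => rfl
  · rw [pu_pu (by fun_prop) hz.1, pu_of_eqOn ?_ hz.1, sub_self]
    · exact Submodule.zero_mem _
    · exact fun _ _ => rfl

theorem SIso.up (h : SIso f S T S' T') (B : Type) [TopologicalSpace B] :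
    SIso (Prod.map id f) (up B S) (up B T) (up B S') (up B T') := by
  refine ⟨cont_BH2b h.cont B, up_mono h.le, up_mono h.le', maps_BH2b h.mS B, maps_BH2b h.mT B,
    fun A _ => ?_⟩
  have c2 := cont_BH2b (cont_BH2b h.cont B) A
  refine HIso.of_comp_right
    (hmap_pu c2 (maps_BH2b (maps_BH2b h.mS B) A) (maps_BH2b (maps_BH2b h.mT B) A))
    (assoc_BH2b h.le' A B) ?_
  refine congr_BH2b ((h.iso (A × B)).comp (assoc_BH2b h.le A B)) (up_mono (up_mono h.le))
    (up_mono h.le') fun c hc => ?_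
  rw [LinearMap.comp_apply, LinearMap.comp_apply, pu_pu (by fun_prop) hc, pu_pu c2 hc]
  rfl

end Pool.Agent.Bet
end

-- part Pool.Agent.P.MP_d34769_ag.BA3
section

/-! TASK BA3: ranks of homology. -/

open Set

namespace Pool.Agent.Bet

section gen

variable {V W W' : Type} [AddCommGroup V] [Module ℚ V] [AddCommGroup W] [Module ℚ W]
  [AddCommGroup W'] [Module ℚ W']

lemma fac_BA3 (X : Submodule ℚ V) (α : V →ₗ[ℚ] W) (β : V →ₗ[ℚ] W')
    (h : ∀ x ∈ X, α x = 0 → β x = 0) : ∃ φ : W →ₗ[ℚ] W', ∀ x ∈ X, φ (α x) = β x := by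
  have hk : LinearMap.ker (α ∘ₗ X.subtype) ≤ LinearMap.ker (β ∘ₗ X.subtype) :=
    fun x hx => h x x.2 hx
  obtain ⟨g, hg⟩ := LinearMap.exists_leftInverse_of_injective
    ((LinearMap.ker (α ∘ₗ X.subtype)).liftQ (α ∘ₗ X.subtype) le_rfl)
    (Submodule.ker_liftQ_eq_bot _ _ _ le_rfl)
  refine ⟨(LinearMap.ker (α ∘ₗ X.subtype)).liftQ _ hk ∘ₗ g, fun x hx => ?_⟩
  have e := LinearMap.congr_fun hg (Submodule.Quotient.mk ⟨x, hx⟩)
  rw [LinearMap.comp_apply, Submodule.liftQ_apply] at e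
  change g (α x) = _ at e
  rw [LinearMap.comp_apply, e]
  rfl

lemma map_fac_BA3 {X : Submodule ℚ V} {α : V →ₗ[ℚ] W} {β : V →ₗ[ℚ] W'} {φ : W →ₗ[ℚ] W'}
    (hφ : ∀ x ∈ X, φ (α x) = β x) : (X.map α).map φ = X.map β := by
  ext y
  constructor
  · rintro ⟨_, ⟨x, hx, rfl⟩, rfl⟩
    exact ⟨x, hx, (hφ x hx).symm⟩
  · rintro ⟨x, hx, rfl⟩
    exact ⟨_, ⟨x, hx, rfl⟩, hφ x hx⟩

lemma rank_le_BA3 (X : Submodule ℚ V) (α : V →ₗ[ℚ] W) (β : V →ₗ[ℚ] W')
    (h : ∀ x ∈ X, α x = 0 → β x = 0) : Module.rank ℚ (X.map β) ≤ Module.rank ℚ (X.map α) := by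
  obtain ⟨φ, hφ⟩ := fac_BA3 X α β h
  rw [← map_fac_BA3 hφ]
  exact rank_map_le _ _

lemma rank_add_BA3 (X : Submodule ℚ V) (α : V →ₗ[ℚ] W) (β : V →ₗ[ℚ] W')
    (h : ∀ x ∈ X, α x = 0 → β x = 0) : Module.rank ℚ (X.map α) =
      Module.rank ℚ ((X ⊓ LinearMap.ker β).map α) + Module.rank ℚ (X.map β) := by
  obtain ⟨φ, hφ⟩ := fac_BA3 X α β h
  have e := LinearMap.rank_range_add_rank_ker (φ ∘ₗ (X.map α).subtype)
  have e1 : LinearMap.range (φ ∘ₗ (X.map α).subtype) = X.map β := by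
    rw [LinearMap.range_comp, Submodule.range_subtype, map_fac_BA3 hφ]
  have e2 : (LinearMap.ker (φ ∘ₗ (X.map α).subtype)).map (X.map α).subtype =
      (X ⊓ LinearMap.ker β).map α := by
    ext y
    constructor
    · rintro ⟨⟨_, x, hx, rfl⟩, h1, rfl⟩
      refine ⟨x, ⟨hx, ?_⟩, rfl⟩
      have h2 : φ (α x) = 0 := h1
      rw [hφ x hx] at h2
      exact h2
    · rintro ⟨x, ⟨hx, h1⟩, rfl⟩
      refine ⟨⟨α x, x, hx, rfl⟩, ?_, rfl⟩
      have h2 : φ (α x) = 0 := (hφ x hx).trans h1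
      exact h2
  rw [← e, e1, ← e2, rank_map_eq (Submodule.injective_subtype _), add_comm]

lemma rank_sum_BA3 (α : V →ₗ[ℚ] W) (β : ℕ → V →ₗ[ℚ] W') (p : ℕ → Submodule ℚ W') (s : Finset ℕ) :
    ∀ X : Submodule ℚ V, (∀ x ∈ X, α x = 0 ↔ ∀ i ∈ s, β i x = 0) →
      (∀ i ∈ s, ∀ x ∈ X, β i x ∈ p i) →
      (∀ y : ℕ → W', (∀ i ∈ s, y i ∈ p i) → ∃ x ∈ X, ∀ i ∈ s, β i x = y i) →
      Module.rank ℚ (X.map α) = ∑ i ∈ s, Module.rank ℚ (p i) := by
  classical
  induction s using Finset.induction_on with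
  | empty =>
    intro X h1 _ _
    rw [Finset.sum_empty, Submodule.rank_eq_zero, eq_bot_iff]
    rintro _ ⟨x, hx, rfl⟩
    exact (h1 x hx).2 (by simp)
  | insert a s ha ih =>
    intro X h1 h2 h3
    have e : X.map (β a) = p a := by
      refine le_antisymm ?_ fun y hy => ?_
      · rintro _ ⟨x, hx, rfl⟩
        exact h2 a (Finset.mem_insert_self _ _) x hx
      · obtain ⟨x, hx, h4⟩ := h3 (fun i => if i = a then y else 0) (fun i _ => by
          by_cases hi : i = a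
          · simp [hi, hy]
          · simp [hi])
        exact ⟨x, hx, by simpa using h4 a (Finset.mem_insert_self _ _)⟩
    rw [rank_add_BA3 X α (β a) fun x hx h0 => (h1 x hx).1 h0 a (Finset.mem_insert_self _ _),
      Finset.sum_insert ha, add_comm, e, ih (X ⊓ LinearMap.ker (β a))]
    · rintro x ⟨hx, h0⟩
      rw [h1 x hx, Finset.forall_mem_insert]
      exact ⟨fun h => h.2, fun h => ⟨h0, h⟩⟩
    · exact fun i hi x hx => h2 i (Finset.mem_insert_of_mem hi) x hx.1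
    · intro y hy
      obtain ⟨x, hx, h4⟩ := h3 (fun i => if i = a then 0 else y i) (fun i hi => by
        by_cases hia : i = a
        · simp [hia]
        · simpa [hia] using hy i ((Finset.mem_insert.1 hi).resolve_left hia))
      refine ⟨x, ⟨hx, ?_⟩, fun i hi => ?_⟩
      · have := h4 a (Finset.mem_insert_self _ _)
        simpa using this
      · have hia : i ≠ a := fun h => ha (h ▸ hi)
        simpa [hia] using h4 i (Finset.mem_insert_of_mem hi)

end gen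

variable {C C' : Type} [AddCommGroup C] [Module ℚ C] [AddCommGroup C'] [Module ℚ C']
  [DG C] [DG C'] {f : C →ₗ[ℚ] C'} {A B E : Submodule ℚ C} {A' B' : Submodule ℚ C'}

lemma mkQ_zero_BA3 {P : Submodule ℚ C} {x : C} : P.mkQ x = 0 ↔ x ∈ P :=
  Submodule.Quotient.mk_eq_zero P

lemma mkQ_eq_BA3 {P : Submodule ℚ C} {x y : C} : P.mkQ x = P.mkQ y ↔ x - y ∈ P :=
  Submodule.Quotient.eq P

lemma pr_idem_BA3 (k : ℕ) (c : C) : pr k (pr k c) = pr k c := by rw [pr_pr, if_pos rfl]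

lemma red_BA3 (h : GPr A B) {k : ℕ} {z : C} (hz : z ∈ BB A B) (hk : pr k z = z) :
    ∃ a ∈ A, pr (k + 1) a = a ∧ z - D a ∈ B := by
  obtain ⟨a, ha, hb⟩ := mem_BB.1 hz
  refine ⟨pr (k + 1) a, h.gA _ a ha, pr_idem_BA3 _ _, ?_⟩
  have := h.gB k _ hb
  rwa [map_sub, hk, pr_D] at this

theorem rk_eq_zero {k : ℕ} : rk A B k = 0 ↔ ∀ z ∈ ZZ A B, pr k z = z → z ∈ BB A B := by
  rw [rk, Submodule.rank_eq_zero, eq_bot_iff]
  constructor
  · intro h z hz hk
    exact mkQ_zero_BA3.1 (h ⟨z, ⟨hz, mem_range_pr.2 hk⟩, rfl⟩)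
  · rintro h _ ⟨z, ⟨hz, hk⟩, rfl⟩
    exact mkQ_zero_BA3.2 (h z hz (mem_range_pr.1 hk))

theorem rk_iso {m : ℕ} (h : GPr A B) (h' : GPr A' B') (hd : Deg m f) (hi : HIso f A B A' B') :
    (∀ k, rk A B (k + m) = rk A' B' k) ∧ ∀ k < m, rk A B k = 0 := by
  refine ⟨fun k => ?_, fun k hk => rk_eq_zero.2 fun z hz hp => hi.inj z hz ?_⟩
  · have e : (ZZ A B ⊓ LinearMap.range (pr (k + m) : C →ₗ[ℚ] C)).map ((BB A' B').mkQ ∘ₗ f) =
        (ZZ A' B' ⊓ LinearMap.range (pr k : C' →ₗ[ℚ] C')).map (BB A' B').mkQ := by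
      refine le_antisymm ?_ ?_
      · rintro _ ⟨z, ⟨hz, hp⟩, rfl⟩
        refine ⟨f z, ⟨hi.map.1 z hz, mem_range_pr.2 ?_⟩, rfl⟩
        rw [← hd.1, mem_range_pr.1 hp]
      · rintro _ ⟨y, ⟨hy, hp⟩, rfl⟩
        obtain ⟨z, hz, e⟩ := hi.srj y hy
        refine ⟨pr (k + m) z, ⟨h.grd_ZZ _ z hz, ⟨z, rfl⟩⟩, mkQ_eq_BA3.2 ?_⟩
        have := h'.grd_BB k _ e
        rwa [map_sub, mem_range_pr.1 hp, ← hd.1] at this
    rw [rk, rk, ← e]
    refine le_antisymm (rank_le_BA3 _ _ _ fun z hz h0 => ?_) (rank_le_BA3 _ _ _ fun z hz h0 => ?_)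
    · exact mkQ_zero_BA3.2 (hi.inj z hz.1 (mkQ_zero_BA3.1 h0))
    · exact mkQ_zero_BA3.2 (hi.map.2 z (mkQ_zero_BA3.1 h0))
  · rw [← hp, hd.2 k hk]
    exact Submodule.zero_mem _

theorem rk_le (hd : Deg 0 f) (hm : HMap f A B A' B') (hi : Inj f A B A' B') (k : ℕ) :
    rk A B k ≤ rk A' B' k := by
  refine (rank_le_BA3 _ ((BB A' B').mkQ ∘ₗ f) _ fun z hz h0 => ?_).trans (Submodule.rank_mono ?_)
  · exact mkQ_zero_BA3.2 (hi z hz.1 (mkQ_zero_BA3.1 h0))
  · rintro _ ⟨z, ⟨hz, hp⟩, rfl⟩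
    refine ⟨f z, ⟨hm.1 z hz, mem_range_pr.2 ?_⟩, rfl⟩
    rw [← hd.1, add_zero, mem_range_pr.1 hp]

theorem rk_triple (h : GPr A B) (ho : Srj LinearMap.id A ⊥ A B) (k : ℕ) :
    rk A ⊥ k = rk B ⊥ k + rk A B k := by
  have hI : Inj LinearMap.id B ⊥ A ⊥ := Srj.inj ho h.toPr h.sB.pr_bot
  have gA : GPr A ⊥ := ⟨h.sA.pr_bot, h.gA, grd_bot⟩
  have e1 : (ZZ A ⊥ ⊓ LinearMap.range (pr k : C →ₗ[ℚ] C)).map (BB A B).mkQ =
      (ZZ A B ⊓ LinearMap.range (pr k : C →ₗ[ℚ] C)).map (BB A B).mkQ := by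
    refine le_antisymm (Submodule.map_mono (inf_le_inf_right _ (ZZ_mono le_rfl bot_le))) ?_
    rintro _ ⟨y, ⟨hy, hp⟩, rfl⟩
    obtain ⟨z, hz, e⟩ := ho y hy
    refine ⟨pr k z, ⟨gA.grd_ZZ _ z hz, ⟨z, rfl⟩⟩, mkQ_eq_BA3.2 ?_⟩
    have := h.grd_BB k _ e
    rwa [map_sub, mem_range_pr.1 hp] at this
  have e2 : ((ZZ A ⊥ ⊓ LinearMap.range (pr k : C →ₗ[ℚ] C)) ⊓ LinearMap.ker (BB A B).mkQ).map
      (BB A ⊥).mkQ = (ZZ B ⊥ ⊓ LinearMap.range (pr k : C →ₗ[ℚ] C)).map (BB A ⊥).mkQ := by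
    refine le_antisymm ?_ (Submodule.map_mono ?_)
    · rintro _ ⟨z, ⟨⟨hz, hp⟩, h0⟩, rfl⟩
      obtain ⟨a, ha, hk, hb⟩ := red_BA3 h (mkQ_zero_BA3.1 h0) (mem_range_pr.1 hp)
      refine ⟨z - D a, ⟨mem_ZZ.2 ⟨hb, ?_⟩, mem_range_pr.2 ?_⟩, mkQ_eq_BA3.2 ?_⟩
      · simpa using (mem_ZZ.1 hz).2
      · rw [map_sub, mem_range_pr.1 hp, pr_D, hk]
      · have : z - D a - z = D (-a) := by simp
        rw [this]
        exact D_mem_BB (A.neg_mem ha)
    · rintro z ⟨hz, hp⟩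
      exact ⟨⟨ZZ_mono h.le le_rfl hz, hp⟩, mkQ_zero_BA3.2 (mem_BB_of_mem hz.1)⟩
  rw [rk, rank_add_BA3 _ (BB A ⊥).mkQ (BB A B).mkQ fun z _ h0 =>
    mkQ_zero_BA3.2 (BB_mono le_rfl bot_le (mkQ_zero_BA3.1 h0)), e1, e2, rk, rk]
  congr 1
  refine le_antisymm (rank_le_BA3 _ _ _ fun z hz h0 => ?_) (rank_le_BA3 _ _ _ fun z hz h0 => ?_)
  · exact mkQ_zero_BA3.2 (BB_mono h.le le_rfl (mkQ_zero_BA3.1 h0))
  · exact mkQ_zero_BA3.2 (hI z hz.1 (mkQ_zero_BA3.1 h0))

theorem rk_van (h1 : GPr A B) (h2 : GPr B E) {k : ℕ} (v1 : rk A B k = 0) (v2 : rk B E k = 0) :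
    rk A E k = 0 := by
  rw [rk_eq_zero] at v1 v2 ⊢
  intro z hz hp
  obtain ⟨a, ha, hk, hb⟩ := red_BA3 h1 (v1 z (ZZ_mono le_rfl h2.le hz) hp) hp
  have h3 : z - D a ∈ BB B E := by
    refine v2 _ (mem_ZZ.2 ⟨hb, ?_⟩) ?_
    · simpa using (mem_ZZ.1 hz).2
    · rw [map_sub, hp, pr_D, hk]
  have h4 := (BB A E).add_mem (BB_mono h1.le le_rfl h3) (D_mem_BB ha)
  simpa using h4

lemma inj_van_BA3 (h1 : GPr A B) (h2 : GPr B E) {k : ℕ} (v : rk A B (k + 1) = 0) {z : C}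
    (hz : z ∈ ZZ B E) (hp : pr k z = z) (h0 : z ∈ BB A E) : z ∈ BB B E := by
  have gAE : GPr A E := ⟨⟨h2.le.trans h1.le, h1.sA, h2.sB⟩, h1.gA, h2.gB⟩
  obtain ⟨a, ha, hk, hb⟩ := red_BA3 gAE h0 hp
  have h3 : D a ∈ B := by simpa using B.sub_mem hz.1 (h2.le hb)
  obtain ⟨a', ha', hb'⟩ := mem_BB.1 (rk_eq_zero.1 v a (mem_ZZ.2 ⟨ha, h3⟩) hk)
  exact mem_BB.2 ⟨_, hb', by simpa using hb⟩

theorem rk_eq_of_van (h : GPr A B) {k : ℕ} (v1 : rk A B k = 0) (v2 : rk A B (k + 1) = 0) :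
    rk A ⊥ k = rk B ⊥ k := by
  have gB : GPr B ⊥ := ⟨h.sB.pr_bot, h.gB, grd_bot⟩
  have e : (ZZ A ⊥ ⊓ LinearMap.range (pr k : C →ₗ[ℚ] C)).map (BB A ⊥).mkQ =
      (ZZ B ⊥ ⊓ LinearMap.range (pr k : C →ₗ[ℚ] C)).map (BB A ⊥).mkQ := by
    refine le_antisymm ?_ (Submodule.map_mono (inf_le_inf_right _ (ZZ_mono h.le le_rfl)))
    rintro _ ⟨z, ⟨hz, hp⟩, rfl⟩
    have hp' := mem_range_pr.1 hp
    obtain ⟨a, ha, hk, hb⟩ := red_BA3 h (rk_eq_zero.1 v1 z (ZZ_mono le_rfl bot_le hz) hp') hp'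
    refine ⟨z - D a, ⟨mem_ZZ.2 ⟨hb, ?_⟩, mem_range_pr.2 ?_⟩, mkQ_eq_BA3.2 ?_⟩
    · simpa using (mem_ZZ.1 hz).2
    · rw [map_sub, hp', pr_D, hk]
    · have : z - D a - z = D (-a) := by simp
      rw [this]
      exact D_mem_BB (A.neg_mem ha)
  rw [rk, rk, e]
  refine le_antisymm (rank_le_BA3 _ _ _ fun z hz h0 => ?_) (rank_le_BA3 _ _ _ fun z hz h0 => ?_)
  · exact mkQ_zero_BA3.2 (BB_mono h.le le_rfl (mkQ_zero_BA3.1 h0))
  · exact mkQ_zero_BA3.2 (inj_van_BA3 h gB v2 hz.1 (mem_range_pr.1 hz.2) (mkQ_zero_BA3.1 h0))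

theorem inj_of_van (h1 : GPr A B) (h2 : GPr B E)
    (v : ∀ k, rk B E k = 0 ∨ rk A B (k + 1) = 0) : Inj LinearMap.id B E A E := by
  have gAE : GPr A E := ⟨⟨h2.le.trans h1.le, h1.sA, h2.sB⟩, h1.gA, h2.gB⟩
  intro z hz h0
  refine mem_of_pr fun k => ?_
  rcases v k with v | v
  · exact rk_eq_zero.1 v _ (h2.grd_ZZ k z hz) (pr_idem_BA3 _ _)
  · exact inj_van_BA3 h1 h2 v (h2.grd_ZZ k z hz) (pr_idem_BA3 _ _) (gAE.grd_BB k z h0)

theorem rk_miso {Λ : ℕ → C →ₗ[ℚ] C'} {r : ℕ} (h : GPr A B) (h' : GPr A' B')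
    (hd : ∀ i < r, Deg (2 * i) (Λ i)) (hi : MIso Λ r A B A' B') (k : ℕ) :
    rk A B k = ∑ i ∈ (Finset.range r).filter (fun i => 2 * i ≤ k), rk A' B' (k - 2 * i) := by
  have hdeg : ∀ i < r, 2 * i ≤ k → ∀ c, Λ i (pr k c) = pr (k - 2 * i) (Λ i c) := by
    intro i h1 h2 c
    rw [← (hd i h1).1, Nat.sub_add_cancel h2]
  refine rank_sum_BA3 (BB A B).mkQ (fun i => (BB A' B').mkQ ∘ₗ Λ i)
    (fun i => (ZZ A' B' ⊓ LinearMap.range (pr (k - 2 * i) : C' →ₗ[ℚ] C')).map (BB A' B').mkQ)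
    _ _ ?_ ?_ ?_
  · rintro z ⟨hz, hp⟩
    rw [mkQ_zero_BA3]
    constructor
    · intro h0 i hi'
      exact mkQ_zero_BA3.2 ((hi.map i (Finset.mem_range.1 (Finset.mem_filter.1 hi').1)).2 z h0)
    · intro h0
      refine hi.inj z hz fun i h1 => ?_
      by_cases h2 : 2 * i ≤ k
      · exact mkQ_zero_BA3.1 (h0 i (Finset.mem_filter.2 ⟨Finset.mem_range.2 h1, h2⟩))
      · rw [← mem_range_pr.1 hp, (hd i h1).2 k (not_le.1 h2)]
        exact Submodule.zero_mem _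
  · rintro i hi' z ⟨hz, hp⟩
    obtain ⟨h1, h2⟩ := Finset.mem_filter.1 hi'
    rw [Finset.mem_range] at h1
    refine ⟨Λ i z, ⟨(hi.map i h1).1 z hz, mem_range_pr.2 ?_⟩, rfl⟩
    rw [← hdeg i h1 h2, mem_range_pr.1 hp]
  · intro y hy
    have hy' : ∀ i, ∃ w ∈ ZZ A' B', i < r → 2 * i ≤ k →
        pr (k - 2 * i) w = w ∧ (BB A' B').mkQ w = y i := by
      intro i
      by_cases h1 : i < r ∧ 2 * i ≤ k
      · obtain ⟨w, ⟨hw, hp⟩, e⟩ := hy i (Finset.mem_filter.2 ⟨Finset.mem_range.2 h1.1, h1.2⟩)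
        exact ⟨w, hw, fun _ _ => ⟨mem_range_pr.1 hp, e⟩⟩
      · exact ⟨0, Submodule.zero_mem _, fun h2 h3 => absurd ⟨h2, h3⟩ h1⟩
    choose w hw hw' using hy'
    obtain ⟨z, hz, e⟩ := hi.srj w fun i _ => hw i
    refine ⟨pr k z, ⟨h.grd_ZZ k z hz, ⟨z, rfl⟩⟩, fun i hi' => ?_⟩
    obtain ⟨h1, h2⟩ := Finset.mem_filter.1 hi'
    rw [Finset.mem_range] at h1
    rw [← (hw' i h1 h2).2]
    refine mkQ_eq_BA3.2 ?_
    have := h'.grd_BB (k - 2 * i) _ (e i h1)
    rwa [map_sub, (hw' i h1 h2).1, ← hdeg i h1 h2] at this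

end Pool.Agent.Bet
end

-- part Pool.Agent.P.MP_d34769_ag.BH3
section

/-! TASK BH3: shifts, equivalences, relatively open sets. -/

open Set

namespace Pool.Agent.Bet

variable {X Y Z : Type} [TopologicalSpace X] [TopologicalSpace Y] [TopologicalSpace Z]
  {f : X → Y} {S T A : Set X} {S' T' A' : Set Y} {S'' T'' : Set Z}

theorem SIso.rk (h : SIso f S T S' T') (k : ℕ) : RK S T k = RK S' T' k := by
  simpa [RK] using (rk_iso (gpr_cn h.le) (gpr_cn h.le') (deg_pu f) h.hiso).1 k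

theorem SIso.ont (h : SIso f S T S' T') (hA : A ⊆ S) (m : MapsTo f A A') (ho : Ont A S T) :
    Ont A' S' T' := by
  intro y hy
  obtain ⟨z, hz, e⟩ := h.hiso.srj y hy
  obtain ⟨a, ha, e'⟩ := ho z hz
  refine ⟨pu f a, mem_ZZ.2 ⟨pu_mem m ha.1, ?_⟩, ?_⟩
  · rw [← pu_D (h.cont.mono hA) ha.1, show D a = 0 from ha.2, map_zero]
    exact Submodule.zero_mem _
  · have := Submodule.add_mem _ (h.hiso.map.2 _ e') e
    simpa using this

theorem SIso.ont_back (h : SIso f S T S' T') (h' : SIso f A ∅ A' ∅) (hA : A ⊆ S)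
    (hA' : A' ⊆ S') (ho : Ont A' S' T') : Ont A S T := by
  intro z hz
  obtain ⟨a', ha', e'⟩ := ho _ (h.hiso.map.1 z hz)
  have h1 := h'.hiso
  simp only [cn_empty] at h1
  obtain ⟨a, ha, e⟩ := h1.srj a' ha'
  refine ⟨a, ha, h.hiso.inj _ (Submodule.sub_mem _ (ZZ_mono (cn_mono hA) bot_le ha) hz) ?_⟩
  have := Submodule.add_mem _ (BB_mono (cn_mono hA') bot_le e) e'
  simpa using this

theorem SIso.sh (h : SIso f S T S' T') : Sh 0 S' T' S T := by
  exact ⟨fun B _ k => (h.up B).rk k, fun B _ k hk => absurd hk (by simp),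
    fun B _ ho => (h.up B).ont subset_rfl (h.up B).mS ho⟩

theorem SIso.eqv (h : SIso f S T S' T') (h' : SIso f S ∅ S' ∅) : Eqv S T S' T' := by
  exact ⟨⟨fun B _ k => ((h.up B).rk k).symm, fun B _ k hk => absurd hk (by simp),
    fun B _ ho => (h.up B).ont_back (h'.up B) subset_rfl subset_rfl ho⟩, h.sh⟩

theorem SIso.eqv_empty (h : SIso f S ∅ S' ∅) : Eqv S ∅ S' ∅ := by
  exact h.eqv h

theorem SIso.so (h : SIso f S T S' T') (hA : A ⊆ S) (m : MapsTo f A A') (ho : SO A S T) :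
    SO A' S' T' := by
  exact fun B _ => (h.up B).ont (up_mono hA) (fun _ hx => m hx) (ho B)

theorem SIso.so_back (h : SIso f S T S' T') (h' : SIso f A ∅ A' ∅) (hA : A ⊆ S)
    (hA' : A' ⊆ S') (ho : SO A' S' T') : SO A S T := by
  exact fun B _ => (h.up B).ont_back (h'.up B) (up_mono hA) (up_mono hA') (ho B)

theorem SO.mono {A₁ : Set X} (h : SO A S T) (hA : A ⊆ A₁) : SO A₁ S T := by
  intro B _ y hy
  obtain ⟨z, hz, e⟩ := h B y hy
  exact ⟨z, ZZ_mono (cn_mono (up_mono hA)) le_rfl hz, e⟩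

theorem Sh.trans {m n : ℕ} (h : Sh m S T S' T') (h' : Sh n S' T' S'' T'') :
    Sh (m + n) S T S'' T'' := by
  refine ⟨fun B _ k => by rw [← add_assoc, h'.hi, h.hi], fun B _ k hk => ?_,
    fun B _ ho => h.ont B (h'.ont B ho)⟩
  by_cases hn : k < n
  · exact h'.lo B k hn
  · obtain ⟨j, rfl⟩ := Nat.exists_eq_add_of_le' (not_lt.1 hn)
    rw [h'.hi, h.lo B j (by omega)]

theorem Sh.so {m : ℕ} (h : Sh m S T S' T') (ho : SO S' S' T') : SO S S T := by
  exact fun B _ => h.ont B (ho B)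

theorem Eqv.symm (h : Eqv S T S' T') : Eqv S' T' S T := by
  exact ⟨h.2, h.1⟩

theorem Eqv.trans (h : Eqv S T S' T') (h' : Eqv S' T' S'' T'') : Eqv S T S'' T'' := by
  exact ⟨h.1.trans h'.1, h'.2.trans h.2⟩

theorem RO.refl (S : Set X) : RO S S := by
  exact ⟨univ, isOpen_univ, (inter_univ _).symm⟩

theorem RO.subset (h : RO A S) : A ⊆ S := by
  obtain ⟨U, -, rfl⟩ := h
  exact inter_subset_left

theorem RO.trans (h : RO A T) (h' : RO T S) : RO A S := by
  obtain ⟨U, hU, rfl⟩ := h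
  obtain ⟨V, hV, rfl⟩ := h'
  exact ⟨V ∩ U, hV.inter hU, inter_assoc _ _ _⟩

theorem RO.inter (h : RO A S) (h' : RO T S) : RO (A ∩ T) S := by
  obtain ⟨U, hU, rfl⟩ := h
  obtain ⟨V, hV, rfl⟩ := h'
  exact ⟨U ∩ V, hU.inter hV, (inter_inter_distrib_left _ _ _).symm⟩

theorem RO.union (h : RO A S) (h' : RO T S) : RO (A ∪ T) S := by
  obtain ⟨U, hU, rfl⟩ := h
  obtain ⟨V, hV, rfl⟩ := h'
  exact ⟨U ∪ V, hU.union hV, (inter_union_distrib_left _ _ _).symm⟩

theorem RO.restrict (h : RO A S) (hT : T ⊆ S) : RO (A ∩ T) T := by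
  obtain ⟨U, hU, rfl⟩ := h
  exact ⟨U, hU, Set.ext fun x => ⟨fun h => ⟨h.2, h.1.2⟩, fun h => ⟨⟨hT h.1, h.2⟩, h.1⟩⟩⟩

theorem RO.of_subset (h : RO A S) (h1 : A ⊆ T) (h2 : T ⊆ S) : RO A T := by
  simpa only [inter_eq_left.2 h1] using h.restrict h2

theorem RO.preimage (h : RO A' S') (cf : ContinuousOn f S) (m : MapsTo f S S') :
    RO (S ∩ f ⁻¹' A') S := by
  obtain ⟨U, hU, rfl⟩ := h
  obtain ⟨V, hV, e⟩ := continuousOn_iff'.1 cf U hU
  refine ⟨V, hV, ?_⟩
  rw [inter_comm S V, ← e]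
  exact Set.ext fun x => ⟨fun h => ⟨h.2.2, h.1⟩, fun h => ⟨h.2, m h.2, h.1⟩⟩

theorem RO.of_isOpen (cf : ContinuousOn f S) (h : IsOpen A') : RO (S ∩ f ⁻¹' A') S := by
  exact RO.preimage ⟨A', h, (univ_inter _).symm⟩ cf (mapsTo_univ _ _)

theorem RO.of_isClosed (h : IsClosed A) (S : Set X) : RO (S \ A) S := by
  exact ⟨Aᶜ, h.isOpen_compl, rfl⟩

theorem RO.prod (h : RO A S) (h' : RO A' S') : RO (A ×ˢ A') (S ×ˢ S') := by
  obtain ⟨U, hU, rfl⟩ := h
  obtain ⟨V, hV, rfl⟩ := h'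
  exact ⟨U ×ˢ V, hU.prod hV, prod_inter_prod.symm⟩

theorem RO.up (h : RO A S) (B : Type) [TopologicalSpace B] : RO (up B A) (up B S) := by
  obtain ⟨U, hU, rfl⟩ := h
  exact ⟨Prod.snd ⁻¹' U, hU.preimage continuous_snd, rfl⟩

/-- The projection from a product with a contractible set. -/
theorem SIso.snd_ctr (C : Set X) [ContractibleSpace C] (S' : Set Y) :
    SIso Prod.snd (C ×ˢ S') ∅ S' ∅ := by
  obtain ⟨x₀, h0, H, hH, e0, e1⟩ := exists_htp C
  refine SIso.of_he (k := fun y => (x₀, y)) (H := fun t x => (H t x.1, x.2)) (H' := fun _ y => y)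
    (empty_subset _) (empty_subset _) continuous_snd.continuousOn (by fun_prop)
    (fun _ h => h.2) (fun _ h => h.elim) (fun _ h => ⟨h0, h⟩) (fun _ h => h.elim)
    ⟨?_, fun t ht x h => ⟨hH.map t ht h.1, h.2⟩⟩ ⟨by fun_prop, fun _ _ _ h => h⟩
    (fun _ _ _ h => h.elim) (fun _ _ _ h => h.elim) (fun x h => by rw [e0 _ h.1])
    (fun x h => by rw [e1 _ h.1]) (fun _ _ => rfl) fun _ _ => rfl
  exact (hH.cont.comp (f := fun p : ℝ × X × Y => (p.1, p.2.1)) (by fun_prop)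
    fun _ h => ⟨h.1, h.2.1⟩).prodMk (by fun_prop)

end Pool.Agent.Bet
end

-- part Pool.Agent.P.MP_d34769_ag.BH4
section

/-! TASK BH4: calculus of Poincare series. -/

open Set PowerSeries

namespace Pool.Agent.Bet

variable {Y Z : Type} [TopologicalSpace Y] [TopologicalSpace Z]
  {S T : Set Y} {S' T' : Set Z} {p q r : PowerSeries ℚ} {m : ℕ}

theorem aug_D_BH4 (c : TC Y) : aug (D c) = 0 := by
  refine LinearMap.congr_fun (TC.ext (f := aug ∘ₗ D) (g := 0) fun k σ => ?_) c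
  simp only [LinearMap.comp_apply, LinearMap.zero_apply]
  rcases k with _ | _ | k
  · simp
  · simp [D_sx_succ, Fin.sum_univ_two]
  · simp [D_sx_succ]

/-- The simplex of a point. -/
noncomputable def ptS_BH4 (k : ℕ) : TC Unit := sx k (ContinuousMap.const _ ())

theorem sx_pt_BH4 (k : ℕ) (σ : C(G.Dl (k + 1), Unit)) : sx k σ = ptS_BH4 k := by
  have : σ = ContinuousMap.const _ () := ContinuousMap.ext fun _ => rfl
  rw [this, ptS_BH4]

theorem pr_pt_BH4 (k : ℕ) (z : TC Unit) : ∃ a : ℚ, pr k z = a • ptS_BH4 k := by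
  refine TC.ind (P := fun z => ∃ a : ℚ, pr k z = a • ptS_BH4 k) z ⟨0, by simp⟩ ?_ ?_
  · rintro a b ⟨x, hx⟩ ⟨y, hy⟩
    exact ⟨x + y, by rw [map_add, hx, hy, add_smul]⟩
  · intro a l σ
    rw [map_smul, pr_sx]
    split_ifs with h
    · subst h; exact ⟨a, by rw [sx_pt_BH4]⟩
    · exact ⟨0, by simp⟩

theorem D_pt_BH4 (k : ℕ) : D (ptS_BH4 (k + 1)) = (if Even k then (0 : ℚ) else 1) • ptS_BH4 k := by
  rw [ptS_BH4, D_sx_succ]
  simp only [sx_pt_BH4]
  rw [← Finset.sum_smul, Fin.sum_univ_eq_sum_range (fun i => (-1 : ℚ) ^ i) (k + 2),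
    neg_one_geom_sum]
  simp only [Nat.even_add, even_two, iff_true]

theorem pt_ne_BH4 (k : ℕ) : ptS_BH4 k ≠ 0 := by
  simp [ptS_BH4, sx]

theorem dim_pt : Dim (univ : Set Unit) ∅ 1 := by
  intro k
  rw [RK, cn_univ, cn_empty]
  cases k with
  | zero =>
    refine ⟨1, ?_, by simp⟩
    have hne : (BB (⊤ : Submodule ℚ (TC Unit)) ⊥).mkQ (ptS_BH4 0) ≠ 0 := by
      intro h
      rw [Submodule.mkQ_apply, Submodule.Quotient.mk_eq_zero] at h
      obtain ⟨a, -, ha⟩ := mem_BB.1 h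
      rw [Submodule.mem_bot, sub_eq_zero] at ha
      have h2 := congrArg aug ha
      rw [aug_D_BH4, ptS_BH4, aug_sx] at h2
      simp at h2
    have e : (ZZ (⊤ : Submodule ℚ (TC Unit)) ⊥ ⊓
        LinearMap.range (pr 0 : TC Unit →ₗ[ℚ] TC Unit)).map (BB ⊤ ⊥).mkQ =
        Submodule.span ℚ {(BB (⊤ : Submodule ℚ (TC Unit)) ⊥).mkQ (ptS_BH4 0)} := by
      apply le_antisymm
      · rintro _ ⟨z, ⟨-, y, rfl⟩, rfl⟩
        obtain ⟨a, ha⟩ := pr_pt_BH4 0 y
        rw [ha, map_smul]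
        exact Submodule.smul_mem _ _ (Submodule.mem_span_singleton_self _)
      · rw [Submodule.span_singleton_le_iff_mem]
        refine ⟨ptS_BH4 0, ⟨mem_ZZ.2 ⟨trivial, ?_⟩, mem_range_pr.2 ?_⟩, rfl⟩
        · rw [ptS_BH4, D_sx_zero]; exact Submodule.zero_mem _
        · rw [ptS_BH4, pr_sx, if_pos rfl]
    rw [rk, e, ← (LinearEquiv.toSpanNonzeroSingleton ℚ _ _ hne).rank_eq, Module.rank_self]
    simp
  | succ k =>
    refine ⟨0, ?_, by simp [coeff_one]⟩
    rw [Nat.cast_zero, rk_eq_zero]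
    intro z hz hp
    obtain ⟨a, ha⟩ := pr_pt_BH4 (k + 1) z
    rw [hp] at ha
    by_cases hk : Even k
    · refine mem_BB.2 ⟨a • ptS_BH4 (k + 2), trivial, ?_⟩
      rw [map_smul, D_pt_BH4, if_neg (by simpa [Nat.even_add_one] using hk), one_smul, ha, sub_self]
      exact Submodule.zero_mem _
    · have h2 : D z = 0 := hz.2
      rw [ha, map_smul, D_pt_BH4, if_neg hk, one_smul, smul_eq_zero] at h2
      rw [ha, h2.resolve_right (pt_ne_BH4 k), zero_smul]
      exact Submodule.zero_mem _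

theorem Dim.unique (h : Dim S T p) (h' : Dim S T q) : p = q := by
  ext k
  obtain ⟨a, h1, h2⟩ := h k
  obtain ⟨b, h3, h4⟩ := h' k
  have : a = b := by exact_mod_cast h1.symm.trans h3
  rw [h2, h4, this]

theorem congr_BH4 (e : ∀ k, RK S T k = RK S' T' k) (h : Dim S T p) : Dim S' T' p :=
  fun k => by rw [← e k]; exact h k

theorem homeo_BH4 (h : S ≃ₜ S') (k : ℕ) : RK S ∅ k = RK S' ∅ k :=
  ((SIso.val S).rk k).symm.trans ((SIso.of_homeo h).rk k)

theorem shift_BH4 (hi : ∀ k, RK S' T' (k + m) = RK S T k) (lo : ∀ k < m, RK S' T' k = 0)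
    (h : Dim S T p) : Dim S' T' (X ^ m * p) := by
  intro k
  by_cases hk : m ≤ k
  · obtain ⟨j, rfl⟩ := Nat.exists_eq_add_of_le' hk
    rw [hi, coeff_X_pow_mul]
    exact h j
  · exact ⟨0, by rw [lo k (not_le.1 hk), Nat.cast_zero], by
      rw [coeff_X_pow_mul', if_neg hk, Nat.cast_zero]⟩

theorem SD.dim (hT : T ⊆ S) (h : SD S T p) : Dim S T p := by
  have h1 := h Unit 1 dim_pt
  rw [mul_one] at h1
  have h2 : SIso (Prod.snd : Unit × Y → Y) (up Unit S) (up Unit T) S T :=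
    SIso.of_inv (k := fun y => ((), y)) (up_mono hT) hT continuous_snd.continuousOn
      (by fun_prop) (fun _ hx => hx) (fun _ hx => hx) (fun _ hx => hx) (fun _ hx => hx)
      (fun _ _ => rfl) (fun _ _ => rfl)
  exact congr_BH4 h2.rk h1

theorem SD.of_sh (h : Sh m S T S' T') (hp : SD S T p) : SD S' T' (X ^ m * p) := by
  intro B _ u hu
  rw [mul_assoc]
  exact shift_BH4 (h.hi B) (h.lo B) (hp B u hu)

theorem SD.of_eqv (h : Eqv S T S' T') (hp : SD S T p) : SD S' T' p := by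
  simpa using SD.of_sh h.1 hp

theorem SD.of_sh' (h : Sh m S T S' T') (hr : SD S' T' r) : ∃ p, r = X ^ m * p ∧ SD S T p := by
  have h1 := hr Unit 1 dim_pt
  rw [mul_one] at h1
  obtain ⟨p, hp⟩ : X ^ m ∣ r := by
    rw [X_pow_dvd_iff]
    intro k hk
    obtain ⟨a, h2, h3⟩ := h1 k
    rw [h.lo Unit k hk] at h2
    have : a = 0 := by exact_mod_cast h2.symm
    rw [h3, this, Nat.cast_zero]
  refine ⟨p, hp, fun B _ u hu k => ?_⟩
  have h2 := hr B u hu (k + m)
  rwa [hp, mul_assoc, h.hi, coeff_X_pow_mul] at h2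

theorem triple_BH4 (hT : T ⊆ S) (ho : Ont S S T) (k : ℕ) : RK S ∅ k = RK T ∅ k + RK S T k := by
  simp only [RK, cn_empty]
  exact rk_triple (gpr_cn hT) ho k

theorem SD.triple (hT : T ⊆ S) (ho : SO S S T) (hp : SD S ∅ p) (hr : SD S T r) :
    SD T ∅ (p - r) := by
  intro B _ u hu k
  obtain ⟨a, h1, h2⟩ := hp B u hu k
  obtain ⟨b, h3, h4⟩ := hr B u hu k
  have h5 := triple_BH4 (up_mono hT) (ho B) k
  rw [up_empty] at h1 ⊢
  rw [h1, h3] at h5
  obtain ⟨n, hn⟩ := Cardinal.lt_aleph0.1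
    ((self_le_add_right _ _).trans_lt (h5 ▸ Cardinal.natCast_lt_aleph0 (n := a)))
  refine ⟨n, hn, ?_⟩
  rw [hn] at h5
  have h6 : a = n + b := by exact_mod_cast h5
  rw [sub_mul, map_sub, h2, h4, h6]
  push_cast
  ring

theorem SD.recur (hm : 0 < m) (hT : T' ⊆ S') (ho : SO S' S' T') (h : Sh m S ∅ S' T')
    (h0 : Eqv S ∅ S' ∅) (hp : SD T' ∅ p) : SD S ∅ (p * (1 - X ^ m)⁻¹) := by
  intro B _ u hu k
  have hinv : (1 - X ^ m : PowerSeries ℚ) * (1 - X ^ m)⁻¹ = 1 :=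
    PowerSeries.mul_inv_cancel _ (by simp [hm.ne'])
  generalize (1 - X ^ m : PowerSeries ℚ)⁻¹ = v at hinv ⊢
  have hs : p * v * u = p * u + X ^ m * (p * v * u) := by
    linear_combination (p * u) * hinv
  induction k using Nat.strong_induction_on with
  | _ k ih =>
    obtain ⟨a, h1, h2⟩ := hp B u hu k
    have h5 := triple_BH4 (up_mono hT) (ho B) k
    have h6 := h0.1.hi B k
    rw [add_zero] at h6
    rw [up_empty] at h1
    rw [← h6, up_empty, h5, h1, hs, map_add, h2, coeff_X_pow_mul']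
    by_cases hk : m ≤ k
    · obtain ⟨j, rfl⟩ := Nat.exists_eq_add_of_le' hk
      obtain ⟨b, h3, h4⟩ := ih j (by omega)
      refine ⟨a + b, ?_, ?_⟩
      · rw [h.hi, h3, Nat.cast_add]
      · rw [if_pos hk, Nat.add_sub_cancel, h4, Nat.cast_add]
    · exact ⟨a, by rw [h.lo B k (not_le.1 hk), add_zero], by rw [if_neg hk, add_zero]⟩

theorem SD.prod (hp : SD S ∅ p) (hq : SD S' ∅ q) : SD (S ×ˢ S') ∅ (p * q) := by
  intro B _ u hu
  have h1 : Dim (univ : Set (up B S')) ∅ (q * u) :=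
    congr_BH4 (fun k => ((SIso.val (up B S')).rk k).symm) (hq B u hu)
  have h2 := hp (up B S') (q * u) h1
  let e : up (up B S') S ≃ₜ up B (S ×ˢ S') :=
    { toFun := fun x => ⟨(x.1.1.1.1, (x.1.2, x.1.1.1.2)), x.2, x.1.1.2⟩
      invFun := fun x => ⟨(⟨(x.1.1, x.1.2.2), x.2.2⟩, x.1.2.1), x.2.1⟩
      left_inv := fun _ => rfl
      right_inv := fun _ => rfl
      continuous_toFun := by fun_prop
      continuous_invFun := by fun_prop }
  rw [mul_assoc]
  exact congr_BH4 (homeo_BH4 e) h2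

theorem SD.ctr (S : Set Y) [ContractibleSpace S] : SD S ∅ 1 := by
  intro B _ u hu
  let e : (S ×ˢ (univ : Set B) : Set (Y × B)) ≃ₜ up B S :=
    { toFun := fun x => ⟨(x.1.2, x.1.1), x.2.1⟩
      invFun := fun x => ⟨(x.1.2, x.1.1), x.2, trivial⟩
      left_inv := fun _ => rfl
      right_inv := fun _ => rfl
      continuous_toFun := by fun_prop
      continuous_invFun := by fun_prop }
  rw [one_mul]
  exact congr_BH4 (fun k => ((SIso.snd_ctr S (univ : Set B)).rk k).symm.trans (homeo_BH4 e k)) hu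

theorem SD.empty : SD (∅ : Set Y) ∅ 0 := by
  intro B _ u _ k
  refine ⟨0, ?_, by simp⟩
  rw [RK, Nat.cast_zero, rk_eq_zero]
  exact fun z hz _ => mem_BB_of_mem hz.1

theorem Dim.of_prod (hne : S'.Nonempty) (h : Dim (S ×ˢ S') ∅ r) (hq : SD S' ∅ q) :
    ∃ p, Dim S ∅ p ∧ r = q * p := by
  obtain ⟨z, hz⟩ := hne
  have cf : ContinuousOn (fun y : Y => (y, z)) S := by fun_prop
  have hle : ∀ k, RK S ∅ k ≤ RK (S ×ˢ S') ∅ k := by
    intro k
    refine rk_le (deg_pu fun y : Y => (y, z))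
      (hmap_pu cf (fun _ hy => mk_mem_prod hy hz) (mapsTo_empty _ _)) ?_ k
    refine Inj.of_comp (g := pu Prod.fst) (A'' := cn S) (B'' := cn ∅)
      (hmap_pu continuous_fst.continuousOn (fun _ hx => hx.1) (mapsTo_empty _ _)) ?_
    intro c hc hb
    rwa [LinearMap.comp_apply, pu_pu cf hc.1,
      pu_of_eqOn (f := Prod.fst ∘ fun y : Y => (y, z)) (fun _ _ => rfl) hc.1] at hb
  have hfin : ∀ k, ∃ n : ℕ, RK S ∅ k = n := by
    intro k
    obtain ⟨a, h1, -⟩ := h k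
    exact Cardinal.lt_aleph0.1 ((hle k).trans_lt (h1 ▸ Cardinal.natCast_lt_aleph0 (n := a)))
  choose n hn using hfin
  have hd : Dim S ∅ (PowerSeries.mk fun k => (n k : ℚ)) := fun k => ⟨n k, hn k, by simp⟩
  refine ⟨_, hd, h.unique ?_⟩
  have h2 := hq S _ (congr_BH4 (fun k => ((SIso.val S).rk k).symm) hd)
  let e : up S S' ≃ₜ (S ×ˢ S' : Set (Y × Z)) :=
    { toFun := fun x => ⟨(x.1.1.1, x.1.2), x.1.1.2, x.2⟩
      invFun := fun x => ⟨(⟨x.1.1, x.2.1⟩, x.1.2), x.2.2⟩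
      left_inv := fun _ => rfl
      right_inv := fun _ => rfl
      continuous_toFun := by fun_prop
      continuous_invFun := by fun_prop }
  exact congr_BH4 (homeo_BH4 e) h2

end Pool.Agent.Bet
end

-- part Pool.Agent.P.MP_d34769_ag.BH5
section

/-! TASK BH5: comparison with the singular homology of Mathlib. -/

open Set CategoryTheory Simplicial

namespace Pool.Agent.Bet

open G (Dl face Ch)

theorem aux1_BH5 {C : Type} [AddCommGroup C] [Module ℚ C] (S : ShortComplex (ModuleCat.{0} ℚ))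
    (φ : S.X₂ →ₗ[ℚ] C) (Z B : Submodule ℚ C) (h1 : ∀ x, S.g.hom x = 0 → φ x ∈ Z)
    (h2 : ∀ z ∈ Z, ∃ x, S.g.hom x = 0 ∧ φ x = z)
    (h3 : ∀ x, φ x ∈ B ↔ ∃ y, S.f.hom y = x) :
    Module.rank ℚ S.homology = Module.rank ℚ (Z.map B.mkQ) := by
  let α : LinearMap.ker S.g.hom →ₗ[ℚ] C ⧸ B := B.mkQ ∘ₗ φ ∘ₗ (LinearMap.ker S.g.hom).subtype
  have e1 : LinearMap.range S.moduleCatToCycles = LinearMap.ker α := by
    ext x
    have : x ∈ LinearMap.ker α ↔ φ x.1 ∈ B := Submodule.Quotient.mk_eq_zero B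
    rw [this, h3]
    exact exists_congr fun y => Subtype.ext_iff
  have e2 : LinearMap.range α = Z.map B.mkQ := by
    ext q
    constructor
    · rintro ⟨x, rfl⟩
      exact ⟨φ x.1, h1 x.1 x.2, rfl⟩
    · rintro ⟨z, hz, rfl⟩
      obtain ⟨x, hx, rfl⟩ := h2 z hz
      exact ⟨⟨x, hx⟩, rfl⟩
  rw [S.moduleCatHomologyIso.toLinearEquiv.rank_eq, ← e2, ← α.quotKerEquivRange.rank_eq]
  exact (Submodule.quotEquivOfEq _ _ e1).rank_eq

theorem aux2_BH5 {X : Type} [TopologicalSpace X] (K : ChainComplex (ModuleCat.{0} ℚ) ℕ)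
    (φ : ∀ k, K.X k →ₗ[ℚ] Ch X (k + 1)) (hφ : ∀ k, Function.Bijective (φ k))
    (hd : ∀ k y, φ k ((K.d (k + 1) k).hom y) = G.bd (φ (k + 1) y)) (k : ℕ) :
    Module.rank ℚ (K.homology k) = RK (univ : Set X) ∅ k := by
  have hg : ∀ (x : K.X k) (j : ℕ), j = (ComplexShape.down ℕ).next k →
      ((K.d k j).hom x = 0 ↔ D (inc k (φ k x)) = 0) := by
    intro x j hj
    cases k with
    | zero =>
      rw [K.shape 0 j (by simp)]
      simp
    | succ k =>
      rw [ChainComplex.next_nat_succ] at hj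
      subst hj
      rw [D_inc, ← hd]
      constructor
      · intro h
        rw [h, map_zero, map_zero]
      · intro h
        have := congrArg (prj j) h
        rw [prj_inc, map_zero, ← map_zero (φ j)] at this
        exact (hφ j).1 this
  have hf : ∀ (x : K.X k) (i : ℕ), i = (ComplexShape.down ℕ).prev k →
      (inc k (φ k x) ∈ BB (⊤ : Submodule ℚ (TC X)) ⊥ ↔ ∃ y, (K.d i k).hom y = x) := by
    intro x i hi
    rw [ChainComplex.prev] at hi
    subst hi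
    constructor
    · intro h
      obtain ⟨a, -, ha⟩ := mem_BB.1 h
      have h1 := congrArg (prj k) (sub_eq_zero.1 ((Submodule.mem_bot ℚ).1 ha))
      obtain ⟨y, hy⟩ := (hφ (k + 1)).2 (prj (k + 1) a)
      rw [prj_inc, prj_D, ← hy, ← hd] at h1
      exact ⟨y, ((hφ k).1 h1).symm⟩
    · rintro ⟨y, rfl⟩
      rw [hd, ← D_inc]
      exact D_mem_BB trivial
  rw [RK, cn_univ, cn_empty, rk]
  refine aux1_BH5 (K.sc k) (inc k ∘ₗ φ k) _ _ (fun x hx => ?_) (fun z hz => ?_)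
    fun x => hf x _ rfl
  · exact ⟨mem_ZZ.2 ⟨trivial, (hg x _ rfl).1 hx⟩, mem_range_pr.2 (by
      show pr k (inc k (φ k x)) = inc k (φ k x)
      rw [pr_eq, prj_inc])⟩
  · obtain ⟨x, hx⟩ := (hφ k).2 (prj k z)
    have h1 : inc k (φ k x) = z := by rw [hx]; exact mem_range_pr.1 hz.2
    exact ⟨x, (hg x _ rfl).2 (by rw [h1]; exact (mem_ZZ.1 hz.1).2), h1⟩

theorem aux3_BH5 (Y : SSet.{0}) (k : ℕ) {M : Type} [AddCommGroup M] [Module ℚ M]
    (v : Y _⦋k⦌ → M) : ∃ φ : (Y.chainComplex (ModuleCat.of ℚ ℚ)).X k →ₗ[ℚ] M,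
      ∀ x, φ ((Y.ιChainComplex (R := ModuleCat.of ℚ ℚ) x).hom 1) = v x := by
  have hφ := Limits.Cofan.IsColimit.fac
    (Y.isColimitChainComplexXCofan (ModuleCat.of ℚ ℚ) k) (A := ModuleCat.of ℚ M)
    fun x => ModuleCat.ofHom (LinearMap.toSpanSingleton ℚ M (v x))
  refine ⟨ModuleCat.Hom.hom (Limits.Cofan.IsColimit.desc
    (Y.isColimitChainComplexXCofan (ModuleCat.of ℚ ℚ) k) (A := ModuleCat.of ℚ M)
    fun x => ModuleCat.ofHom (LinearMap.toSpanSingleton ℚ M (v x))), fun x => ?_⟩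
  have := congrArg (fun f => ModuleCat.Hom.hom f (1 : ℚ)) (hφ x)
  exact this.trans (by simp)

theorem aux4_BH5 (Y : SSet.{0}) (k : ℕ) {M : Type} [AddCommGroup M] [Module ℚ M]
    {f g : (Y.chainComplex (ModuleCat.of ℚ ℚ)).X k →ₗ[ℚ] M}
    (h : ∀ x, f ((Y.ιChainComplex (R := ModuleCat.of ℚ ℚ) x).hom 1) =
      g ((Y.ιChainComplex (R := ModuleCat.of ℚ ℚ) x).hom 1)) : f = g := by
  have : ModuleCat.ofHom f = ModuleCat.ofHom g := by
    refine SSet.chainComplex_hom_ext fun x => ModuleCat.hom_ext ?_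
    exact LinearMap.ext_ring (h x)
  exact congrArg ModuleCat.Hom.hom this

theorem rank_singular (X : Type) [TopologicalSpace X] (k : ℕ) :
    Module.rank ℚ (((AlgebraicTopology.singularHomologyFunctor (ModuleCat.{0} ℚ) k).obj
      (ModuleCat.of ℚ ℚ)).obj (TopCat.of X)) = RK (univ : Set X) ∅ k := by
  let Y : SSet.{0} := TopCat.toSSet.obj (TopCat.of X)
  let e : ∀ k : ℕ, Y _⦋k⦌ ≃ C(Dl (k + 1), X) := fun k => (TopCat.of X).toSSetObjEquiv _
  have he : ∀ (k : ℕ) (i : Fin (k + 2)) (x : Y _⦋k + 1⦌),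
      e k (Y.δ i x) = (e (k + 1) x).comp (face i) := fun k i x =>
    ContinuousMap.ext fun z => TopCat.toSSetObjEquiv_δ_apply x i z
  choose φ hφ using fun k => aux3_BH5 Y k (M := Ch X (k + 1)) fun x => Finsupp.single (e k x) 1
  refine aux2_BH5 (Y.chainComplex (ModuleCat.of ℚ ℚ)) φ (fun k => ?_) (fun k => ?_) k
  · let ψ : Ch X (k + 1) →ₗ[ℚ] (Y.chainComplex (ModuleCat.of ℚ ℚ)).X k :=
      Finsupp.linearCombination ℚ fun σ =>
        (Y.ιChainComplex (R := ModuleCat.of ℚ ℚ) ((e k).symm σ)).hom 1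
    have h1 : ψ ∘ₗ φ k = LinearMap.id := aux4_BH5 Y k fun x => by
      simp only [LinearMap.comp_apply, hφ, ψ, Finsupp.linearCombination_single, one_smul,
        Equiv.symm_apply_apply, LinearMap.id_apply]
    have h2 : φ k ∘ₗ ψ = LinearMap.id := Finsupp.lhom_ext fun σ m => by
      simp only [LinearMap.comp_apply, hφ, ψ, Finsupp.linearCombination_single, map_smul,
        Equiv.apply_symm_apply, LinearMap.id_apply, Finsupp.smul_single, smul_eq_mul, mul_one]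
    exact ⟨Function.LeftInverse.injective (g := ψ) (LinearMap.congr_fun h1),
      Function.RightInverse.surjective (g := ψ) (LinearMap.congr_fun h2)⟩
  · refine LinearMap.congr_fun (aux4_BH5 Y (k + 1)
      (f := φ k ∘ₗ ((Y.chainComplex (ModuleCat.of ℚ ℚ)).d (k + 1) k).hom)
      (g := G.bd ∘ₗ φ (k + 1)) fun x => ?_)
    have h1 := congrArg (fun f => ModuleCat.Hom.hom f (1 : ℚ))
      (Y.ιChainComplex_d (ModuleCat.of ℚ ℚ) x)
    simp only [ModuleCat.hom_comp, LinearMap.comp_apply, ModuleCat.hom_sum, LinearMap.sum_apply,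
      ModuleCat.hom_zsmul, LinearMap.smul_apply] at h1
    simp only [LinearMap.comp_apply, h1, map_sum, map_zsmul, hφ, G.bd_single, he]
    refine Finset.sum_congr rfl fun i _ => ?_
    rw [← Int.cast_smul_eq_zsmul ℚ]
    simp

end Pool.Agent.Bet
end
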