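import Pool.Agent.K.MP_d34769_ag.C141
import Pool.Agent.K.MP_d34769_ag.C143
import Pool.Agent.K.MP_d34769_ag.C145
import Pool.Agent.K.MP_d34769_ag.C16
import Pool.Agent.K.MP_d34769_ag.C19
import Pool.Agent.K.MP_d34769_ag.C142

-- part Pool.Agent.P.MP_d34769_ag.BM3
section

/-! TASK BM3: invariant embeddings, invariant norms, absorbing maps. -/

open Set Matrix

namespace Pool.Agent.Bet

variable {ι : Type} [Fintype ι] [DecidableEq ι] {κ : Type} {Ar : Type}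

lemma aux1_BM3 {n : Type} {c : ι → Option κ} {f : Mt ι} (hf : f ∈ Ec c) (v : κ)
    (M : Matrix n ι ℂ) (hM : ∀ x j, c j ≠ some v → M x j = 0) (h : M * f.m = 0) : M = 0 := by
  ext x j
  have h1 : M x ᵥ* f.m = 0 := by
    funext y
    exact congrFun (congrFun h x) y
  exact congrFun (hf.2 v (M x) (hM x) h1) j

lemma aux2_BM3 {g : GG ι} (hg : g ∈ Un ι) : g.1ᴴ * g.1 = 1 := hg

omit [Fintype ι] [DecidableEq ι] in
lemma aux3_BM3 : Continuous fun f : Mt ι => f.m := continuous_id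

omit [DecidableEq ι] in
lemma aux4_BM3 {n : Type} (M : Matrix ι n ℂ) (j : n) :
    ((Mᴴ * M) j j).re = ∑ i, ‖M i j‖ ^ 2 := by
  rw [Matrix.mul_apply, Complex.re_sum]
  refine Finset.sum_congr rfl fun i _ => ?_
  rw [conjTranspose_apply, Complex.star_def, Complex.conj_mul']
  norm_cast

omit [DecidableEq ι] in
lemma aux5_BM3 (M : Matrix ι ι ℂ) :
    (trace (Mᴴ * M)).re = ∑ j, ∑ i, ‖M i j‖ ^ 2 := by
  rw [trace, Complex.re_sum]
  exact Finset.sum_congr rfl fun j _ => aux4_BM3 M j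

theorem exists_J [Finite Ar] : ∃ J : Mt ι → Cj Ar ι →ₗ[ℂ] (ℕ → ℂ),
    Continuous (fun x : Mt ι × Cj Ar ι => J x.1 x.2) ∧
    (∀ g ∈ Un ι, ∀ f φ, J (g • f) (g • φ) = J f φ) ∧
    ∀ (κ : Type) (s t : Ar → κ) (c : ι → Option κ), ∀ f ∈ Ec c, ∀ φ ∈ Rc s t c,
      J f φ = 0 → φ = 0 := by
  rcases isEmpty_or_nonempty Ar with hA | hA
  · refine ⟨fun _ => 0, continuous_const, fun _ _ _ _ => rfl, fun _ _ _ _ _ _ φ _ _ => ?_⟩
    exact funext fun a => isEmptyElim a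
  obtain ⟨e, he⟩ := exists_surjective_nat (Ar × ℕ × ℕ)
  let J : Mt ι → Cj Ar ι →ₗ[ℂ] (ℕ → ℂ) := fun f =>
    { toFun := fun φ n => (f.mᴴ * φ (e n).1 * f.m) (e n).2.1 (e n).2.2
      map_add' := fun φ ψ => by
        funext n
        rw [Cj.add_apply, Matrix.mul_add, Matrix.add_mul]
        rfl
      map_smul' := fun z φ => by
        funext n
        rw [Cj.csmul_apply, Matrix.mul_smul, Matrix.smul_mul]
        rfl }
  have hJ : ∀ f φ n, J f φ n = (f.mᴴ * φ (e n).1 * f.m) (e n).2.1 (e n).2.2 := fun _ _ _ => rfl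
  refine ⟨J, ?_, ?_, ?_⟩
  · refine continuous_pi fun n => ?_
    simp only [hJ]
    have h1 : Continuous fun x : Mt ι × Cj Ar ι => x.1.m := aux3_BM3.comp continuous_fst
    have h2 : Continuous fun x : Mt ι × Cj Ar ι => x.2 (e n).1 :=
      (Cj.continuous_apply _).comp continuous_snd
    exact ((h1.matrix_conjTranspose.matrix_mul h2).matrix_mul h1).matrix_elem _ _
  · intro g hg f φ
    funext n
    rw [hJ, hJ, Mt.smul_m, Cj.smul_apply, conjTranspose_mul]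
    have : f.mᴴ * g.1ᴴ * (g.1 * φ (e n).1 * (g⁻¹).1) * (g.1 * f.m) =
        f.mᴴ * (g.1ᴴ * g.1) * φ (e n).1 * ((g⁻¹).1 * g.1) * f.m := by
      simp only [Matrix.mul_assoc]
    rw [this, aux2_BM3 hg, Units.inv_mul, Matrix.mul_one, Matrix.mul_one]
  · intro κ s t c f hf φ hφ h
    funext a
    have h1 : f.mᴴ * φ a * f.m = 0 := by
      ext x y
      obtain ⟨n, hn⟩ := he (a, x, y)
      have := congrFun h n
      rw [hJ, hn] at this
      exact this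
    have h2 : f.mᴴ * φ a = 0 := by
      refine aux1_BM3 hf (s a) _ (fun x j hj => ?_) h1
      rw [← hφ a, ← Matrix.mul_assoc, dg, dg, mul_dp_apply, if_neg hj]
    have h3 : (φ a)ᴴ * f.m = 0 := by
      have := congrArg conjTranspose h2
      rwa [conjTranspose_mul, conjTranspose_conjTranspose, conjTranspose_zero] at this
    have h4 : (φ a)ᴴ = 0 := by
      refine aux1_BM3 hf (t a) _ (fun x j hj => ?_) h3
      rw [conjTranspose_apply, ← hφ a, Matrix.mul_assoc, dg, dp_mul_apply, if_neg hj, star_zero]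
    exact conjTranspose_eq_zero.1 h4

theorem exists_J' : ∃ J : Mt ι → Mt ι →ₗ[ℂ] (ℕ → ℂ),
    Continuous (fun x : Mt ι × Mt ι => J x.1 x.2) ∧
    (∀ g ∈ Un ι, ∀ f v, J (g • f) (g • v) = J f v) ∧
    ∀ (κ : Type) (c : ι → Option κ) (o : κ), ∀ f ∈ Ec c, ∀ v ∈ F0 c o, J f v = 0 → v = 0 := by
  let J : Mt ι → Mt ι →ₗ[ℂ] (ℕ → ℂ) := fun f =>
    { toFun := fun v n => (f.mᴴ * v.m) n 0
      map_add' := fun v w => by
        funext n
        rw [show (v + w).m = v.m + w.m from rfl, Matrix.mul_add]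
        rfl
      map_smul' := fun z v => by
        funext n
        rw [show (z • v).m = z • v.m from rfl, Matrix.mul_smul]
        rfl }
  have hJ : ∀ f v n, J f v n = (f.mᴴ * v.m) n 0 := fun _ _ _ => rfl
  refine ⟨J, ?_, ?_, ?_⟩
  · refine continuous_pi fun n => ?_
    simp only [hJ]
    have h1 : Continuous fun x : Mt ι × Mt ι => x.1.m := aux3_BM3.comp continuous_fst
    have h2 : Continuous fun x : Mt ι × Mt ι => x.2.m := aux3_BM3.comp continuous_snd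
    exact (h1.matrix_conjTranspose.matrix_mul h2).matrix_elem _ _
  · intro g hg f v
    funext n
    rw [hJ, hJ, Mt.smul_m, Mt.smul_m, conjTranspose_mul]
    have : f.mᴴ * g.1ᴴ * (g.1 * v.m) = f.mᴴ * (g.1ᴴ * g.1) * v.m := by
      simp only [Matrix.mul_assoc]
    rw [this, aux2_BM3 hg, Matrix.mul_one]
  · intro κ c o f hf v hv h
    have h1 : (fun i => star (v.m i 0)) = 0 := by
      refine hf.2 o _ (fun i hi => ?_) ?_
      · rw [hv i 0 (Or.inl hi), star_zero]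
      · funext n
        have h2 := congrArg star (congrFun h n)
        rw [hJ, Matrix.mul_apply, star_sum] at h2
        simp only [conjTranspose_apply, star_mul, star_star, Pi.zero_apply, star_zero] at h2
        exact h2
    change v.m = 0
    ext i j
    by_cases hj : j = 0
    · subst hj
      exact star_eq_zero.1 (congrFun h1 i)
    · exact hv i j (Or.inr hj)

theorem exists_N [Finite Ar] : ∃ N : Cj Ar ι → ℝ, Continuous N ∧ (∀ φ, φ ≠ 0 → 0 < N φ) ∧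
    (∀ (a : ℂ) φ, N (a • φ) = ‖a‖ * N φ) ∧ ∀ g ∈ Un ι, ∀ φ, N (g • φ) = N φ := by
  have := Fintype.ofFinite Ar
  refine ⟨fun φ => √(∑ a, ∑ j, ∑ i, ‖φ a i j‖ ^ 2), ?_, ?_, ?_, ?_⟩
  · refine Continuous.sqrt (continuous_finsetSum _ fun a _ => continuous_finsetSum _ fun j _ =>
      continuous_finsetSum _ fun i _ => ?_)
    exact ((Cj.continuous_apply a).matrix_elem i j).norm.pow 2
  · intro φ hφ
    obtain ⟨a, ha⟩ : ∃ a, φ a ≠ 0 := by
      by_contra hc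
      push Not at hc
      exact hφ (funext hc)
    obtain ⟨i, j, hij⟩ : ∃ i j, φ a i j ≠ 0 := by
      by_contra hc
      push Not at hc
      exact ha (Matrix.ext hc)
    refine Real.sqrt_pos.2 (Finset.sum_pos' (fun _ _ => by positivity) ⟨a, Finset.mem_univ _, ?_⟩)
    refine Finset.sum_pos' (fun _ _ => by positivity) ⟨j, Finset.mem_univ _, ?_⟩
    exact Finset.sum_pos' (fun _ _ => by positivity) ⟨i, Finset.mem_univ _, by positivity⟩
  · intro z φ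
    have h : ∑ a, ∑ j, ∑ i, ‖(z • φ) a i j‖ ^ 2 = ‖z‖ ^ 2 * ∑ a, ∑ j, ∑ i, ‖φ a i j‖ ^ 2 := by
      simp only [Finset.mul_sum, Cj.csmul_apply, Matrix.smul_apply, smul_eq_mul, norm_mul, mul_pow]
    simp only [h]
    rw [Real.sqrt_mul (sq_nonneg _), Real.sqrt_sq (norm_nonneg _)]
  · intro g hg φ
    refine congrArg Real.sqrt (Finset.sum_congr rfl fun a _ => ?_)
    rw [← aux5_BM3, ← aux5_BM3, Cj.smul_apply, inv_eq_star hg, star_eq_conjTranspose,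
      conjTranspose_mul, conjTranspose_mul, conjTranspose_conjTranspose]
    have h : g.1 * ((φ a)ᴴ * g.1ᴴ) * (g.1 * φ a * g.1ᴴ) =
        g.1 * ((φ a)ᴴ * (g.1ᴴ * g.1) * φ a * g.1ᴴ) := by
      simp only [Matrix.mul_assoc]
    rw [h, trace_mul_comm, aux2_BM3 hg, Matrix.mul_one, Matrix.mul_assoc, aux2_BM3 hg,
      Matrix.mul_one]

theorem exists_N' : ∃ N : Mt ι → ℝ, Continuous N ∧
    (∀ v : Mt ι, (∃ i, v.m i 0 ≠ 0) → 0 < N v) ∧
    (∀ (a : ℂ) v, N (a • v) = ‖a‖ * N v) ∧ ∀ g ∈ Un ι, ∀ v, N (g • v) = N v := by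
  refine ⟨fun v => √(∑ i, ‖v.m i 0‖ ^ 2), ?_, ?_, ?_, ?_⟩
  · exact Continuous.sqrt (continuous_finsetSum _ fun i _ =>
      (aux3_BM3.matrix_elem i 0).norm.pow 2)
  · rintro v ⟨i, hi⟩
    exact Real.sqrt_pos.2
      (Finset.sum_pos' (fun _ _ => by positivity) ⟨i, Finset.mem_univ _, by positivity⟩)
  · intro z v
    have h : ∑ i, ‖(z • v).m i 0‖ ^ 2 = ‖z‖ ^ 2 * ∑ i, ‖v.m i 0‖ ^ 2 := by
      rw [show (z • v).m = z • v.m from rfl]
      simp only [Finset.mul_sum, Matrix.smul_apply, smul_eq_mul, norm_mul, mul_pow]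
    simp only [h]
    rw [Real.sqrt_mul (sq_nonneg _), Real.sqrt_sq (norm_nonneg _)]
  · intro g hg v
    refine congrArg Real.sqrt ?_
    rw [← aux4_BM3, ← aux4_BM3, Mt.smul_m, conjTranspose_mul]
    have h : v.mᴴ * g.1ᴴ * (g.1 * v.m) = v.mᴴ * (g.1ᴴ * g.1) * v.m := by
      simp only [Matrix.mul_assoc]
    rw [h, aux2_BM3 hg, Matrix.mul_one]

/-- The columns tensored with a sequence. -/
def W_BM3 (f : Matrix ι ℕ ℂ) (z : ℕ → ℂ) : Matrix ι ℕ ℂ :=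
  Matrix.of fun i m => f i (Nat.unpair m).1 * z (Nat.unpair m).2

omit [DecidableEq ι] in
lemma aux6_BM3 (g : Matrix ι ι ℂ) (f : Matrix ι ℕ ℂ) (z : ℕ → ℂ) :
    W_BM3 (g * f) z = g * W_BM3 f z := by
  ext i m
  simp only [W_BM3, of_apply, Matrix.mul_apply, Finset.sum_mul, mul_assoc]

lemma aux7_BM3 (P : ι → Prop) (g : Matrix ι ι ℂ) (h : dp P * g = g * dp P) :
    dp (fun i => ¬ P i) * g = g * dp fun i => ¬ P i := by
  have e : dp (fun i => ¬ P i) = 1 - dp P := eq_sub_of_add_eq' (dp_add_not P)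
  rw [e, Matrix.sub_mul, Matrix.mul_sub, h, Matrix.one_mul, Matrix.mul_one]

lemma aux8_BM3 (P : ι → Prop) : dp P * dp (fun i => ¬ P i) = 0 := by
  rw [dp_mul_dp]
  exact dp_false fun i h => h.2 h.1

lemma aux9_BM3 (P : ι → Prop) : dp (fun i => ¬ P i) * dp P = 0 := by
  rw [dp_comm, aux8_BM3]

/-- the rows in `P` are tensored with `y` -/
theorem exists_abs (P : ι → Prop) : ∃ β : Mt ι × (ℕ → ℂ) → Mt ι, Continuous β ∧
    (∀ (κ : Type) (c : ι → Option κ), ∀ f ∈ Ec c, ∀ y, y ≠ 0 → β (f, y) ∈ Ec c) ∧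
    (∀ g : GG ι, dp P * g.1 = g.1 * dp P → ∀ f y, β (g • f, y) = g • β (f, y)) ∧
    ∀ (a : ℂ) f y, (β (f, a • y)).m = (a • dp P + dp fun i => ¬ P i) * (β (f, y)).m := by
  classical
  let sh : (ℕ → ℂ) → ℕ → ℂ := fun y l => if l = 0 then 0 else y (l - 1)
  let δ : ℕ → ℂ := fun l => if l = 0 then 1 else 0
  let β : Mt ι × (ℕ → ℂ) → Mt ι := fun x =>
    (dp P * W_BM3 x.1.m (sh x.2) + dp (fun i => ¬ P i) * W_BM3 x.1.m δ : Matrix ι ℕ ℂ)
  have hβ : ∀ f y, (β (f, y)).m =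
      dp P * W_BM3 f.m (sh y) + dp (fun i => ¬ P i) * W_BM3 f.m δ := fun _ _ => rfl
  have hβ' : ∀ f y i m, (β (f, y)).m i m = f.m i (Nat.unpair m).1 *
      if P i then sh y (Nat.unpair m).2 else δ (Nat.unpair m).2 := by
    intro f y i m
    rw [hβ, Matrix.add_apply, dp_mul_apply, dp_mul_apply]
    by_cases h : P i <;> simp [h, W_BM3]
  refine ⟨β, ?_, ?_, ?_, ?_⟩
  · change Continuous fun x : Mt ι × (ℕ → ℂ) => (β (x.1, x.2)).m
    refine continuous_matrix fun i m => ?_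
    simp only [hβ']
    refine ((aux3_BM3.comp continuous_fst).matrix_elem _ _).mul ?_
    by_cases h : P i
    · simp only [if_pos h, sh]
      by_cases h' : (Nat.unpair m).2 = 0
      · simp only [if_pos h']
        exact continuous_const
      · simp only [if_neg h']
        exact (continuous_apply _).comp continuous_snd
    · simp only [if_neg h]
      exact continuous_const
  · intro κ c f hf y hy
    refine ⟨?_, fun v a ha h => ?_⟩
    · ext i m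
      have h1 := congrFun (congrFun hf.1 i) (Nat.unpair m).1
      rw [dg, dp_mul_apply] at h1 ⊢
      by_cases hi : c i = none
      · rw [if_pos hi] at h1 ⊢
        rw [hβ', h1, Matrix.zero_apply, zero_mul, Matrix.zero_apply]
      · rw [if_neg hi, Matrix.zero_apply]
    · obtain ⟨l, hl⟩ : ∃ l, y l ≠ 0 := by
        by_contra hc
        push Not at hc
        exact hy (funext hc)
      have h1 : (fun i => if P i then a i else 0) = 0 := by
        refine hf.2 v _ (fun i hi => by simp [ha i hi]) ?_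
        funext j
        have h2 := congrFun h (Nat.pair j (l + 1))
        simp only [vecMul, dotProduct, hβ', Nat.unpair_pair, Pi.zero_apply] at h2 ⊢
        refine (mul_eq_zero.1 (Eq.trans ?_ h2)).resolve_right hl
        rw [Finset.sum_mul]
        refine Finset.sum_congr rfl fun i _ => ?_
        by_cases hi : P i <;> simp [hi, sh, δ, mul_assoc]
      have h3 : (fun i => if P i then 0 else a i) = 0 := by
        refine hf.2 v _ (fun i hi => by simp [ha i hi]) ?_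
        funext j
        have h2 := congrFun h (Nat.pair j 0)
        simp only [vecMul, dotProduct, hβ', Nat.unpair_pair, Pi.zero_apply] at h2 ⊢
        refine Eq.trans (Finset.sum_congr rfl fun i _ => ?_) h2
        by_cases hi : P i <;> simp [hi, sh, δ]
      funext i
      have h4 := congrFun h1 i
      have h5 := congrFun h3 i
      by_cases hi : P i
      · simpa [hi] using h4
      · simpa [hi] using h5
  · intro g hg f y
    change (β (g • f, y)).m = (g • β (f, y)).m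
    rw [Mt.smul_m, hβ, hβ, Mt.smul_m, aux6_BM3, aux6_BM3, ← Matrix.mul_assoc, ← Matrix.mul_assoc,
      hg, aux7_BM3 P _ hg, Matrix.mul_add, Matrix.mul_assoc, Matrix.mul_assoc]
  · intro a f y
    ext i m
    rw [Matrix.add_mul, Matrix.smul_mul, Matrix.add_apply, Matrix.smul_apply, dp_mul_apply,
      dp_mul_apply, hβ', hβ']
    by_cases hi : P i
    · by_cases h' : (Nat.unpair m).2 = 0
      · simp [hi, sh, h']
      · simp [hi, sh, h', mul_left_comm]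
    · simp [hi]

/-- the circle acting on the coordinates in `P` -/
theorem exists_circ (c : ι → Option κ) (P : ι → Prop)
    (h0 : ∀ i, c i = none → ¬ P i) {a : ℂ} (ha : ‖a‖ = 1) :
    ∃ g ∈ Kc c, g.1 = a • dp P + (dp fun i => ¬ P i) ∧
      (g⁻¹).1 = a⁻¹ • dp P + dp fun i => ¬ P i := by
  have ha0 : a ≠ 0 := fun h => by simp [h] at ha
  have key : ∀ x y : ℂ, x * y = 1 →
      (x • dp P + dp fun i => ¬ P i) * (y • dp P + dp fun i => ¬ P i) = 1 := by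
    intro x y hxy
    simp only [Matrix.add_mul, Matrix.mul_add, Matrix.smul_mul, Matrix.mul_smul, dp_idem,
      aux8_BM3, aux9_BM3, smul_zero, add_zero, zero_add, smul_smul, mul_comm y x, hxy, one_smul]
    exact dp_add_not P
  refine ⟨⟨a • dp P + dp fun i => ¬ P i, a⁻¹ • dp P + dp fun i => ¬ P i,
    key _ _ (mul_inv_cancel₀ ha0), key _ _ (inv_mul_cancel₀ ha0)⟩, ⟨⟨fun o => ?_, ?_⟩, ?_⟩, rfl, rfl⟩
  · change dg c o * (a • dp P + dp fun i => ¬ P i) = (a • dp P + dp fun i => ¬ P i) * dg c o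
    rw [Matrix.mul_add, Matrix.add_mul, Matrix.mul_smul, Matrix.smul_mul, dg, dp_comm _ P,
      dp_comm _ fun i => ¬ P i]
  · change dg c none * (a • dp P + dp fun i => ¬ P i) = dg c none
    rw [Matrix.mul_add, Matrix.mul_smul, dg, dp_mul_dp, dp_mul_dp,
      dp_false fun i h => h0 i h.1 h.2, smul_zero, zero_add]
    exact dp_congr fun i => ⟨fun h => h.1, fun h => ⟨h, h0 i h⟩⟩
  · change star (a • dp P + dp fun i => ¬ P i) * (a • dp P + dp fun i => ¬ P i) = 1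
    rw [star_add, star_smul, star_dp, star_dp]
    refine key _ _ ?_
    rw [Complex.star_def, Complex.conj_mul', ha]
    simp

end Pool.Agent.Bet
end

-- part Pool.Agent.P.MP_d34769_ag.BM6
section

/-! TASK BM6: graded subspaces are unitarily equivalent to coordinate subspaces. -/

open Set Matrix

namespace Pool.Agent.Bet

variable {ι : Type} [Fintype ι] [DecidableEq ι] {κ : Type} {Ar : Type}
  {c : ι → Option κ} {p : ι → Bool}

omit [DecidableEq ι] in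
lemma fin_BM6 (c : ι → Option κ) (v : κ) :
    ∃ P : Finset ι, (∀ i, i ∈ P ↔ c i = some v) ∧ dv c v = P.card :=
  ⟨_, fun i => by simp, rfl⟩

lemma onb_BM6 {A W : Submodule ℂ (ι → ℂ)} (hAW : A ≤ W) {P Q : Finset ι} (hPQ : P ⊆ Q)
    (hA : Module.finrank ℂ A = P.card) (hW : Module.finrank ℂ W = Q.card) :
    ∃ b : ι → ι → ℂ, (∀ i ∈ P, b i ∈ A) ∧ (∀ i ∈ Q, b i ∈ W) ∧
      ∀ i ∈ Q, ∀ j ∈ Q, b j ⬝ᵥ star (b i) = if i = j then 1 else 0 := by
  let L : (ι → ℂ) ≃ₗ[ℂ] EuclideanSpace ℂ ι := (WithLp.linearEquiv 2 ℂ (ι → ℂ)).symm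
  have hA' : Module.finrank ℂ (A.map L.toLinearMap) = Fintype.card P := by
    rw [LinearEquiv.finrank_map_eq, hA, Fintype.card_coe]
  have hW' : Module.finrank ℂ (W.map L.toLinearMap) = Fintype.card Q := by
    rw [LinearEquiv.finrank_map_eq, hW, Fintype.card_coe]
  let a : OrthonormalBasis P ℂ (A.map L.toLinearMap) :=
    (stdOrthonormalBasis ℂ _).reindex (Fintype.equivFinOfCardEq hA'.symm).symm
  let v : Q → W.map L.toLinearMap := fun i =>
    if h : i.1 ∈ P then ⟨a ⟨i.1, h⟩, Submodule.map_mono hAW (a ⟨i.1, h⟩).2⟩ else 0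
  have hv : Orthonormal ℂ (({i | i.1 ∈ P} : Set Q).domRestrict v) := by
    rw [orthonormal_iff_ite]
    rintro ⟨⟨i, hi⟩, hi'⟩ ⟨⟨j, hj⟩, hj'⟩
    have h1 : i ∈ P := hi'
    have h2 : j ∈ P := hj'
    have := orthonormal_iff_ite.1 a.orthonormal ⟨i, h1⟩ ⟨j, h2⟩
    simpa [v, h1, h2, Set.domRestrict] using this
  obtain ⟨b, hb⟩ := hv.exists_orthonormalBasis_extension_of_card_eq hW'
  have hm : ∀ {B : Submodule ℂ (ι → ℂ)} {x : EuclideanSpace ℂ ι},
      x ∈ B.map L.toLinearMap → x.ofLp ∈ B := by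
    rintro B _ ⟨y, hy, rfl⟩
    exact hy
  refine ⟨fun i => if h : i ∈ Q then (b ⟨i, h⟩).1.ofLp else 0, fun i hi => ?_, fun i hi => ?_,
    fun i hi j hj => ?_⟩
  · simp only [dif_pos (hPQ hi)]
    rw [hb ⟨i, hPQ hi⟩ hi]
    simp only [v, dif_pos hi]
    exact hm (a ⟨i, hi⟩).2
  · simp only [dif_pos hi]
    exact hm (b ⟨i, hi⟩).2
  · simp only [dif_pos hi, dif_pos hj]
    have := orthonormal_iff_ite.1 b.orthonormal ⟨i, hi⟩ ⟨j, hj⟩
    rw [Submodule.coe_inner, EuclideanSpace.inner_eq_star_dotProduct] at this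
    simpa using this

lemma rank_BM6 (c : ι → Option κ) (v : κ) :
    Module.finrank ℂ (LinearMap.range (dg c (some v)).mulVecLin) = dv c v := by
  classical
  obtain ⟨Q, hQ, e⟩ := fin_BM6 c v
  rw [e]
  refine (Matrix.rank_diagonal _).trans (Fintype.card_of_subtype Q fun i => ?_)
  simp [hQ]

lemma eq_BM6 {U U' : Submodule ℂ (ι → ℂ)} (hU : Gs c U) (hU' : Gs c U') (hle : U' ≤ U)
    (h : du c U' = du c U) : U = U' := by
  classical
  refine le_antisymm (fun x hx => ?_) hle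
  have e : x = ∑ o ∈ Finset.univ.image c, dg c o *ᵥ x := by
    funext i
    rw [Finset.sum_apply, Finset.sum_eq_single (c i) (fun o _ ho => by simp [dg, dp_mulVec, ho.symm])
      fun h => absurd (Finset.mem_image_of_mem c (Finset.mem_univ i)) h]
    simp [dg, dp_mulVec]
  rw [e]
  refine Submodule.sum_mem _ fun o _ => ?_
  cases o with
  | none => rw [hU.2 x hx]; exact zero_mem _
  | some v =>
    have h1 : U'.map (dg c (some v)).mulVecLin = U.map (dg c (some v)).mulVecLin :=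
      Submodule.eq_of_le_of_finrank_eq (Submodule.map_mono hle) (congrFun h v)
    obtain ⟨y, hy, e⟩ : dg c (some v) *ᵥ x ∈ U'.map (dg c (some v)).mulVecLin :=
      h1 ▸ ⟨x, hx, rfl⟩
    rw [← e]
    exact hU'.1 v y hy

theorem exists_unitary {U : Submodule ℂ (ι → ℂ)} (hp : Adm c p) (hU : Gs c U)
    (h : du c U = dv (c1 c p)) : ∃ k ∈ Kc c, U = (V1 p).map k.1.mulVecLin := by
  have key : ∀ v : κ, ∃ b : ι → ι → ℂ, (∀ i, c1 c p i = some v → b i ∈ U) ∧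
      (∀ i, c i = some v → ∀ l, c l ≠ some v → b i l = 0) ∧
      ∀ i, c i = some v → ∀ j, c j = some v → b j ⬝ᵥ star (b i) = if i = j then 1 else 0 := by
    intro v
    obtain ⟨P, hP, eP⟩ := fin_BM6 (c1 c p) v
    obtain ⟨Q, hQ, eQ⟩ := fin_BM6 c v
    have hPQ : P ⊆ Q := by
      intro i hi
      rw [hP, c1] at hi
      split_ifs at hi
      exact (hQ i).2 hi
    obtain ⟨b, h1, h2, h3⟩ := onb_BM6 (A := U.map (dg c (some v)).mulVecLin)
      LinearMap.map_le_range hPQ ((congrFun h v).trans eP) ((rank_BM6 c v).trans eQ)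
    refine ⟨b, fun i hi => ?_, fun i hi l hl => ?_,
      fun i hi j hj => h3 i ((hQ i).2 hi) j ((hQ j).2 hj)⟩
    · obtain ⟨y, hy, e⟩ := h1 i ((hP i).2 hi)
      rw [← e]
      exact hU.1 v y hy
    · obtain ⟨y, e⟩ := h2 i ((hQ i).2 hi)
      rw [← e]
      simp [dg, dp_mulVec, hl]
  choose b h1 h2 h3 using key
  let col : ι → ι → ℂ := fun j => (c j).elim (Pi.single j 1) fun v => b v j
  have c0 : ∀ j, c j = none → col j = Pi.single j 1 := fun j hj => by simp [col, hj]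
  have cs : ∀ j v, c j = some v → col j = b v j := fun j v hj => by simp [col, hj]
  have hz : ∀ i j, c i ≠ c j → col j i = 0 := by
    intro i j hij
    cases hj : c j with
    | none => rw [c0 j hj, Pi.single_eq_of_ne fun e => hij (by rw [e])]
    | some v => rw [cs j v hj, h2 v j hj i (hj ▸ hij)]
  let k : Matrix ι ι ℂ := Matrix.of fun i j => col j i
  have hk : star k * k = 1 := by
    ext i j
    have e : (star k * k) i j = col j ⬝ᵥ star (col i) := by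
      simp [Matrix.mul_apply, k, dotProduct, mul_comm]
    rw [e, Matrix.one_apply]
    by_cases hij : c i = c j
    · cases hj : c j with
      | none =>
        rw [c0 j hj, c0 i (hij.trans hj)]
        simp [Pi.single_apply]
      | some v => rw [cs j v hj, cs i v (hij.trans hj), h3 v i (hij.trans hj) j hj]
    · rw [if_neg fun e => hij (by rw [e])]
      refine Finset.sum_eq_zero fun l _ => ?_
      by_cases hl : c l = c j
      · rw [Pi.star_apply, hz l i fun e => hij (e.symm.trans hl), star_zero, mul_zero]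
      · rw [hz l j hl, zero_mul]
  let g : GG ι := ⟨k, star k, mul_eq_one_comm.1 hk, hk⟩
  have hg : g ∈ Gc c := by
    refine mem_Gc_iff.2 fun i j hij => ?_
    change col j i = _
    by_cases e : c i = c j
    · rw [c0 j (e ▸ hij.resolve_left (not_not.2 e)), Pi.single_apply]
    · rw [hz i j e, if_neg fun e' => e (by rw [e'])]
  obtain ⟨g1, g2⟩ := (gs_V1 hp).1.map hg
  refine ⟨g, ⟨hg, hk⟩, eq_BM6 hU g1 ?_ (by rw [g2, (gs_V1 hp).2, h])⟩
  rintro _ ⟨_, ⟨y, rfl⟩, rfl⟩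
  have e : g.1.mulVecLin ((e1 p).mulVecLin y) = ∑ j, (e1 p *ᵥ y) j • col j := by
    funext i
    simp [g, k, Matrix.mulVec, dotProduct, Finset.sum_apply, mul_comm]
  rw [e]
  refine Submodule.sum_mem _ fun j _ => ?_
  rw [e1, dp_mulVec]
  split_ifs with hj
  · obtain ⟨v, hv⟩ := Option.ne_none_iff_exists'.1 (hp j hj)
    rw [cs j v hv]
    exact U.smul_mem _ (h1 v j (by simp [c1, hj, hv]))
  · rw [zero_smul]
    exact zero_mem _

lemma trace_BM6 {x : Matrix ι ι ℂ} (h : x * x = x) :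
    x.trace = Module.finrank ℂ (LinearMap.range x.mulVecLin) := by
  have h1 : IsIdempotentElem x.mulVecLin := by
    change x.mulVecLin ∘ₗ x.mulVecLin = _
    rw [← Matrix.mulVecLin_mul, h]
  rw [← ((LinearMap.isProj_range_iff_isIdempotentElem _).2 h1).trace]
  exact (Matrix.trace_toLin'_eq x).symm

omit [DecidableEq ι] in
lemma absorb_BM6 {x y : Matrix ι ι ℂ} (h : x * x = x)
    (hr : LinearMap.range y.mulVecLin ≤ LinearMap.range x.mulVecLin) : x * y = y := by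
  refine Matrix.ext_iff_mulVec.2 fun z => ?_
  obtain ⟨w, hw⟩ := hr ⟨z, rfl⟩
  simp only [Matrix.mulVecLin_apply] at hw
  rw [← Matrix.mulVec_mulVec, ← hw, Matrix.mulVec_mulVec, h]

theorem gr_BM6 (hp : Adm c p) {e : Cj Unit ι} (h : e ∈ Gr c p) : star (e ()) = e () ∧
    e () * e () = e () ∧ (∀ o, dg c o * e () = e () * dg c o) ∧ dg c none * e () = 0 ∧
      ∀ v, (dg c (some v) * e ()).trace = dv (c1 c p) v := by
  obtain ⟨⟨k, hk, hu⟩, rfl⟩ := h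
  have he : ((⟨k, hk, hu⟩ : Kc c) • E1 p) () = k.1 * e1 p * (k⁻¹).1 := rfl
  have hc : ∀ o, dg c o * e1 p = e1 p * dg c o := fun o => dp_comm _ _
  simp only [he]
  refine ⟨?_, ?_, fun o => ?_, ?_, fun v => ?_⟩
  · rw [inv_eq_star hu, star_mul, star_mul, star_star, star_e1, mul_assoc]
  · rw [mul_assoc, mul_assoc, ← mul_assoc (k⁻¹).1, ← mul_assoc (k⁻¹).1, Units.inv_mul, one_mul,
      ← mul_assoc (e1 p), e1_e1, mul_assoc]
  · rw [← mul_assoc, ← mul_assoc, hk.1, mul_assoc k.1, hc, mul_assoc, mul_assoc,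
      ((Gc c).inv_mem hk).1]
    simp only [mul_assoc]
  · rw [← mul_assoc, ← mul_assoc, hk.2, dg, e1, dp_mul_dp, dp_false fun i hi => hp i hi.2 hi.1,
      zero_mul]
  · rw [← mul_assoc, ← mul_assoc, hk.1, mul_assoc k.1, Matrix.trace_units_conj,
      ← rank_BM6, ← trace_BM6 (x := dg _ _) (dp_idem _), dg, e1, dp_mul_dp]
    refine congrArg _ (dp_congr fun i => ?_)
    by_cases hi : p i = true <;> simp [c1, hi]

/-- a projection with the right traces lies in the Grassmannian -/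
theorem mem_Gr (hp : Adm c p) {e : Cj Unit ι} (h1 : star (e ()) = e ()) (h2 : e () * e () = e ())
    (h3 : ∀ o, dg c o * e () = e () * dg c o) (h4 : dg c none * e () = 0)
    (h5 : ∀ v, ‖(dg c (some v) * e ()).trace - dv (c1 c p) v‖ < 1) : e ∈ Gr c p := by
  have hU : Gs c (LinearMap.range (e ()).mulVecLin) := by
    constructor
    · rintro v _ ⟨y, rfl⟩
      refine ⟨dg c (some v) *ᵥ y, ?_⟩
      simp only [Matrix.mulVecLin_apply, Matrix.mulVec_mulVec, h3]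
    · rintro _ ⟨y, rfl⟩
      simp only [Matrix.mulVecLin_apply, Matrix.mulVec_mulVec, h4, Matrix.zero_mulVec]
  have hd : du c (LinearMap.range (e ()).mulVecLin) = dv (c1 c p) := by
    funext v
    have hi : dg c (some v) * e () * (dg c (some v) * e ()) = dg c (some v) * e () := by
      rw [mul_assoc, ← mul_assoc (e ()), ← h3, mul_assoc, h2, ← mul_assoc, dg, dp_idem]
    have h6 := h5 v
    rw [trace_BM6 hi, Matrix.mulVecLin_mul, LinearMap.range_comp, ← Int.cast_natCast,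
      ← Int.cast_natCast (dv _ _), ← Int.cast_sub, Complex.norm_intCast, ← Int.cast_abs,
      ← Int.cast_one, Int.cast_lt, Int.abs_lt_one_iff] at h6
    unfold du
    omega
  obtain ⟨k, hk, hUk⟩ := exists_unitary hp hU hd
  have hm : k • E1 p ∈ Gr c p := ⟨⟨k, hk⟩, rfl⟩
  obtain ⟨g1, g2, -⟩ := gr_BM6 hp hm
  have hr : LinearMap.range ((k • E1 p) ()).mulVecLin = LinearMap.range (e ()).mulVecLin := by
    rw [hUk, Cj.smul_apply, Matrix.mulVecLin_mul, Matrix.mulVecLin_mul, LinearMap.range_comp,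
      LinearMap.range_eq_top.2 (Matrix.mulVec_surjective_iff_isUnit.2 (k⁻¹).isUnit),
      Submodule.map_top, LinearMap.range_comp]
    rfl
  have a1 := absorb_BM6 g2 hr.ge
  have a2 := absorb_BM6 h2 hr.le
  have : e = k • E1 p := by
    funext u
    change e () = (k • E1 p) ()
    rw [← h1, ← a1, star_mul, h1, g1, a2]
  rwa [this]

theorem Gr_spec (hp : Adm c p) {e : Cj Unit ι} (h : e ∈ Gr c p) : star (e ()) = e () ∧
    e () * e () = e () ∧ (∀ o, dg c o * e () = e () * dg c o) ∧ dg c none * e () = 0 ∧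
      ∀ v, (dg c (some v) * e ()).trace = dv (c1 c p) v :=
  gr_BM6 hp h

/-- transitivity on the sphere -/
theorem exists_ray {v : κ} {i₀ : ι} (hi : c i₀ = some v) {x : Mt ι} (hx : x ∈ F0 c v)
    (h0 : x ≠ 0) : ∃ k ∈ Kc c, ∃ r : ℝ, 0 < r ∧ (k • x).m = Matrix.single i₀ 0 (r : ℂ) := by
  let y : ι → ℂ := fun i => x.m i 0
  have hy : y ≠ 0 := by
    intro e
    refine h0 (Matrix.ext fun i j => ?_)
    by_cases hj : j = 0
    · rw [hj]
      exact congrFun e i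
    · exact hx i j (Or.inr hj)
  have hv : dg c (some v) *ᵥ y = y := by
    funext i
    rw [dg, dp_mulVec]
    split_ifs with h
    · rfl
    · exact (hx i 0 (Or.inl h)).symm
  have hw : ∀ o, o ≠ some v → dg c o *ᵥ y = 0 := by
    intro o ho
    funext i
    rw [dg, dp_mulVec]
    split_ifs with h
    · exact hx i 0 (Or.inl (h ▸ ho))
    · rfl
  let q : ι → Bool := fun i => decide (i = i₀)
  have hq : Adm c q := by
    intro i h
    rw [of_decide_eq_true h, hi]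
    simp
  have hU : Gs c (Submodule.span ℂ {y}) := by
    constructor
    · intro w z hz
      obtain ⟨a, rfl⟩ := Submodule.mem_span_singleton.1 hz
      rw [Matrix.mulVec_smul]
      refine Submodule.smul_mem _ _ ?_
      by_cases e : w = v
      · rw [e, hv]
        exact Submodule.mem_span_singleton_self y
      · rw [hw _ fun e' => e (Option.some.inj e')]
        exact zero_mem _
    · intro z hz
      obtain ⟨a, rfl⟩ := Submodule.mem_span_singleton.1 hz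
      rw [Matrix.mulVec_smul, hw none (by simp), smul_zero]
  have hd : du c (Submodule.span ℂ {y}) = dv (c1 c q) := by
    funext w
    obtain ⟨P, hP, eP⟩ := fin_BM6 (c1 c q) w
    rw [eP, du, Submodule.map_span, Set.image_singleton, Matrix.mulVecLin_apply]
    by_cases e : w = v
    · have : P = {i₀} := by
        ext i
        rw [hP, Finset.mem_singleton]
        by_cases h : i = i₀ <;> simp [c1, q, h, hi, e]
      rw [e, hv, finrank_span_singleton hy, this, Finset.card_singleton]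
    · have : P = ∅ := by
        ext i
        rw [hP]
        by_cases h : i = i₀ <;> simp [c1, q, h, hi, Ne.symm e]
      rw [hw _ fun e' => e (Option.some.inj e'), Submodule.span_zero_singleton, this]
      simp
  obtain ⟨k, hk, hUk⟩ := exists_unitary hq hU hd
  obtain ⟨_, ⟨w, rfl⟩, hw'⟩ : y ∈ (V1 q).map k.1.mulVecLin :=
    hUk ▸ Submodule.mem_span_singleton_self y
  simp only [Matrix.mulVecLin_apply] at hw'
  have hz : w i₀ ≠ 0 := by
    intro e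
    have : e1 q *ᵥ w = 0 := by
      funext i
      rw [e1, dp_mulVec]
      split_ifs with h
      · rw [of_decide_eq_true h]
        exact e
      · rfl
    rw [this, Matrix.mulVec_zero] at hw'
    exact hy hw'.symm
  have hn : ‖w i₀‖ ≠ 0 := norm_ne_zero_iff.2 hz
  obtain ⟨g, hg, eg, -⟩ := exists_circ c (fun i => i = i₀) (fun i h e => by simp [e, hi] at h)
    (a := (‖w i₀‖ : ℂ) / w i₀) (by simp [hn])
  refine ⟨g * k⁻¹, mul_mem hg (inv_mem hk), ‖w i₀‖, norm_pos_iff.2 hz, ?_⟩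
  ext i j
  rw [Mt.smul_m]
  by_cases hj : j = 0
  · subst hj
    have e : ((g * k⁻¹).1 * x.m) i 0 = ((g * k⁻¹).1 *ᵥ y) i := rfl
    rw [e, ← hw', Matrix.mulVec_mulVec, ← Units.val_mul, inv_mul_cancel_right, eg,
      Matrix.add_mulVec, Matrix.smul_mulVec, Pi.add_apply, Pi.smul_apply, dp_mulVec, dp_mulVec,
      e1, dp_mulVec]
    by_cases h : i = i₀
    · simp [q, h, hz]
    · simp [q, h, Ne.symm h]
  · rw [Matrix.mul_apply, Matrix.single_apply_of_col_ne _ _ (Ne.symm hj)]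
    exact Finset.sum_eq_zero fun l _ => by rw [hx l j (Or.inr hj), mul_zero]

end Pool.Agent.Bet
end

-- part Pool.Agent.P.MP_d34769_ag.BM7
section

/-! TASK BM7: the strata, algebraically. -/

open Set Matrix

namespace Pool.Agent.Bet

variable {ι : Type} [Fintype ι] [DecidableEq ι] {κ : Type} {Ar : Type} [Fintype κ]
  {s t : Ar → κ} {w : κ → ℝ} {c : ι → Option κ} {p : ι → Bool} {f g : κ → ℕ} {φ : Cj Ar ι}

theorem th_add (w : κ → ℝ) (f g : κ → ℕ) : th w (f + g) = th w f + th w g := by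
  simp [th, mul_add, Finset.sum_add_distrib]

theorem th_zero (w : κ → ℝ) : th w 0 = 0 := by
  simp [th]

theorem St.uniq (h : φ ∈ St s t w c f) {U U' : Submodule ℂ (ι → ℂ)} (hU : Sr c φ U)
    (hU' : Sr c φ U') (e : du c U = f) (e1 : th w (du c U') = th w f) (e2 : sZ (du c U') = sZ f) :
    U' = U := by
  have key : ∀ W, Sr c φ W → th w (du c W) ≤ th w f ∧
      (th w (du c W) = th w f → sZ (du c W) ≤ sZ f) := fun W hW => by
    have := h.2 (du c W)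
    rw [imp_not_comm] at this
    have h1 := this ⟨h.1.1, W, hW, rfl⟩
    rw [Hi, not_or, not_and, not_lt, not_lt] at h1
    exact ⟨h1.1, fun e => h1.2 e.symm⟩
  have s1 : Sr c φ (U ⊔ U') := ⟨hU.1.sup hU'.1, fun a x hx => by
    obtain ⟨y, hy, z, hz, rfl⟩ := Submodule.mem_sup.1 hx
    rw [mulVec_add]
    exact Submodule.add_mem_sup (hU.2 a y hy) (hU'.2 a z hz)⟩
  have s2 : Sr c φ (U ⊓ U') :=
    ⟨hU.1.inf hU'.1, fun a x hx => ⟨hU.2 a x hx.1, hU'.2 a x hx.2⟩⟩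
  have h1 := congrArg (th w) (du_sup_inf hU.1 hU'.1)
  rw [th_add, th_add, e, e1] at h1
  have h2 := (key _ s1).2 (by linarith [(key _ s1).1, (key _ s2).1])
  have h3 : U = U ⊔ U' := Submodule.eq_of_le_of_finrank_le le_sup_left
    (by rwa [← sZ_du s1.1, ← sZ_du hU.1, e])
  have h4 : U' = U ⊔ U' := Submodule.eq_of_le_of_finrank_le le_sup_right
    (by rwa [← sZ_du s1.1, ← sZ_du hU'.1, e2])
  exact h4.trans h3.symm

theorem mem_Zs (hp : Adm c p) :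
    φ ∈ Zs s t w c p ↔ φ ∈ St s t w c (dv (c1 c p)) ∧ blk (e2 p) (e1 p) φ = 0 := by
  have v1 : ∀ x ∈ V1 p, e1 p *ᵥ x = x := by
    rintro _ ⟨y, rfl⟩
    simp [mulVec_mulVec]
  have dec : ∀ x : ι → ℂ, e1 p *ᵥ x + e2 p *ᵥ x = x := fun x => by
    rw [← add_mulVec, e1_add_e2, one_mulVec]
  have m1 : ∀ x : ι → ℂ, e1 p *ᵥ x ∈ V1 p := fun x => ⟨x, rfl⟩
  have b1 : Sr c φ (V1 p) → ∀ a, ∀ x ∈ V1 p, blk (e1 p) (e1 p) φ a *ᵥ x = φ a *ᵥ x :=
    fun h a x hx => by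
      rw [blk_apply, ← mulVec_mulVec, ← mulVec_mulVec, v1 x hx, v1 _ (h.2 a x hx)]
  have b2 : blk (e2 p) (e1 p) φ = 0 → ∀ a x,
      blk (e2 p) (e2 p) φ a *ᵥ x = e2 p *ᵥ (φ a *ᵥ x) := fun h a x => by
    have h1 : blk (e2 p) (e1 p) φ a *ᵥ x = 0 := by rw [h, Cj.zero_apply, zero_mulVec]
    conv_rhs => rw [← dec x, mulVec_add, mulVec_add]
    simp only [blk_apply, ← mulVec_mulVec] at h1 ⊢
    rw [h1, zero_add]
  constructor
  · rintro ⟨⟨hR, hG, hL⟩, h0⟩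
    have hV := (sr_V1 hp).2 h0
    refine ⟨⟨⟨hR, V1 p, hV, (gs_V1 hp).2⟩, ?_⟩, h0⟩
    rintro _ hg ⟨-, W, hW, rfl⟩
    obtain ⟨g1, g2, e⟩ := du_split (p := p) hW.1
    have h1 := hG.2 (W ⊓ V1 p) ⟨g1, fun a x hx => by
      rw [b1 hV a x hx.2]
      exact ⟨hW.2 a x hx.1, hV.2 a x hx.2⟩⟩
    have h2 := hL.2 (W.map (e2 p).mulVecLin) ⟨g2, by
      rintro a _ ⟨x, hx, rfl⟩
      refine ⟨φ a *ᵥ x, hW.2 a x hx, ?_⟩
      rw [mulVecLin_apply, mulVecLin_apply, ← b2 h0, blk_apply, mulVec_mulVec,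
        mul_assoc _ (e2 p), e2_e2]⟩
    rw [← e, Hi, th_add] at hg
    by_cases h3 : W.map (e2 p).mulVecLin = ⊥
    · rw [h3, du_bot, th_zero, add_zero, add_zero] at hg
      rcases hg with hg | hg
      · linarith
      · exact absurd (Finset.sum_le_sum fun v _ => du_le (c1 c p) (W ⊓ V1 p) v) (not_le.2 hg.2)
    · have := h2 h3
      rcases hg with hg | hg
      · linarith
      · linarith [hg.1]
  · rintro ⟨⟨⟨hR, -⟩, hS⟩, h0⟩
    have hV := (sr_V1 hp).2 h0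
    refine ⟨⟨hR, ⟨blk_mem_c1 hR, fun U hU => ?_⟩, blk_mem_c2 hR, fun U hU hne => ?_⟩, h0⟩
    · obtain ⟨g1, g2, e⟩ := du_c1 hU.1
      by_contra h1
      exact hS _ (Or.inl (not_le.1 h1))
        ⟨hR, U, ⟨g1, fun a x hx => b1 hV a x (g2 hx) ▸ hU.2 a x hx⟩, e⟩
    · obtain ⟨g1, e⟩ := du_c2 hp hU.1
      by_contra h1
      refine hS _ ?_ ⟨hR, V1 p ⊔ U, ⟨g1, fun a x hx => ?_⟩, e⟩
      · rw [Hi, th_add]
        rcases (not_lt.1 h1).lt_or_eq with h2 | h2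
        · exact Or.inl (by linarith)
        · refine Or.inr ⟨by linarith, ?_⟩
          have h3 : 0 < sZ (du (c2 c p) U) := by
            rw [sZ_du hU.1]
            exact Nat.pos_of_ne_zero fun h => hne (Submodule.finrank_eq_zero.1 h)
          simp only [sZ, Pi.add_apply, Finset.sum_add_distrib] at h3 ⊢
          omega
      · obtain ⟨y, hy, z, hz, rfl⟩ := Submodule.mem_sup.1 hx
        rw [mulVec_add, ← dec (φ a *ᵥ z), ← add_assoc, ← b2 h0]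
        exact Submodule.add_mem_sup (Submodule.add_mem _ (hV.2 a y hy) (m1 _)) (hU.2 a z hz)

end Pool.Agent.Bet
end

-- part Pool.Agent.P.MP_d34769_ag.BM7b
section

/-! TASK BM7b: invariance, description of the open strata, Schur. -/

open Set Matrix

namespace Pool.Agent.Bet

variable {ι : Type} [Fintype ι] [DecidableEq ι] {κ : Type} {Ar : Type} [Fintype κ]
  {s t : Ar → κ} {w : κ → ℝ} {c : ι → Option κ} {p : ι → Bool} {f g : κ → ℕ} {φ : Cj Ar ι}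

omit [Fintype κ] in
lemma cl_BM7b (f : κ → ℕ) : Ivt (Gc c) (Cl s t c f) := by
  rintro γ φ ⟨h, U, hU, e⟩
  exact ⟨ivt_Rc s t c γ φ h, _, hU.smul γ.2, (hU.1.map γ.2).2.trans e⟩

omit [Fintype κ] in
lemma not_cl_BM7b (γ : Gc c) (h : φ ∉ Cl s t c f) : γ • φ ∉ Cl s t c f := fun h' =>
  h (by simpa only [inv_smul_smul] using cl_BM7b f γ⁻¹ _ h')

omit [Fintype κ] in
lemma sr_bot_BM7b (φ : Cj Ar ι) : Sr c φ ⊥ :=
  ⟨gs_bot, fun a x hx => by
    rw [Submodule.mem_bot] at hx ⊢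
    rw [hx, Matrix.mulVec_zero]⟩

lemma sZ_zero_BM7b : sZ (0 : κ → ℕ) = 0 := by simp [sZ]

lemma eq_bot_BM7b {U : Submodule ℂ (ι → ℂ)} (h : Gs c U) (e : du c U = 0) : U = ⊥ := by
  have h1 := sZ_du h
  rw [e, sZ_zero_BM7b] at h1
  exact Submodule.finrank_eq_zero.1 h1.symm

lemma pos_BM7b {U : Submodule ℂ (ι → ℂ)} (h : Gs c U) (e : U ≠ ⊥) : 0 < sZ (du c U) := by
  rw [sZ_du h]
  exact Nat.pos_of_ne_zero fun h0 => e (Submodule.finrank_eq_zero.1 h0)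

lemma blk_BM7b {e : Matrix ι ι ℂ} {k k' : GG ι} (h : e * k.1 = k.1 * e) (h' : e * k'.1 = k'.1 * e)
    (h2 : k.1 * e = k'.1 * e) (φ : Cj Ar ι) : k • blk e e φ = k' • blk e e φ := by
  have h3 : e * (k⁻¹).1 = e * (k'⁻¹).1 := by
    calc e * (k⁻¹).1 = (k⁻¹).1 * e := (Commute.units_inv_right h).eq
      _ = (k⁻¹).1 * (e * k'.1) * (k'⁻¹).1 := by
          rw [mul_assoc, mul_assoc, Units.mul_inv, mul_one]
      _ = e * (k'⁻¹).1 := by rw [h', ← h2, ← mul_assoc, Units.inv_mul, one_mul]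
  funext a
  simp only [Cj.smul_apply, blk_apply]
  calc k.1 * (e * φ a * e) * (k⁻¹).1 = (k.1 * e) * φ a * (e * (k⁻¹).1) := by
        simp only [mul_assoc]
    _ = (k'.1 * e) * φ a * (e * (k'⁻¹).1) := by rw [h2, h3]
    _ = _ := by simp only [mul_assoc]

lemma e2_BM7b {x : Matrix ι ι ℂ} (h : e1 p * x = x * e1 p) : e2 p * x = x * e2 p := by
  rw [← eq_sub_iff_add_eq'.2 (e1_add_e2 p) |>.symm, sub_mul, mul_sub, one_mul, mul_one, h]

theorem ivt_Cl (f : κ → ℕ) : Ivt (Gc c) (Cl s t c f) := by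
  exact cl_BM7b f

theorem ivt_St (f : κ → ℕ) : Ivt (Gc c) (St s t w c f) := by
  rintro γ φ ⟨h, h'⟩
  exact ⟨cl_BM7b f γ φ h, fun g hg => not_cl_BM7b γ (h' g hg)⟩

lemma mem_Ge_BM7b : φ ∈ Ge s t w c ↔ φ ∈ Rc s t c ∧ ∀ g, Hi w g (dv c) → φ ∉ Cl s t c g := by
  refine and_congr_right fun h => ⟨?_, fun H U hU => ?_⟩
  · rintro H _ hg ⟨-, U, hU, rfl⟩
    rcases hg with hg | ⟨-, hg⟩
    · exact absurd (H U hU) (not_le.2 hg)
    · exact absurd (Finset.sum_le_sum fun v _ => du_le c U v) (not_le.2 hg)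
  · by_contra hn
    exact H _ (Or.inl (not_le.1 hn)) ⟨h, U, hU, rfl⟩

lemma mem_Lt_BM7b : φ ∈ Lt s t w c ↔ φ ∈ Rc s t c ∧ ∀ g, Hi w g 0 → φ ∉ Cl s t c g := by
  refine and_congr_right fun h => ⟨?_, fun H U hU h0 => ?_⟩
  · rintro H _ hg ⟨-, U, hU, rfl⟩
    by_cases h0 : U = ⊥
    · rw [h0, du_bot] at hg
      rcases hg with hg | ⟨-, hg⟩ <;> exact lt_irrefl _ hg
    · have h1 := H U hU h0
      rcases hg with hg | ⟨hg, -⟩ <;> rw [th_zero] at hg <;> linarith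
  · by_contra hn
    refine H _ ?_ ⟨h, U, hU, rfl⟩
    rcases (not_lt.1 hn).lt_or_eq with h1 | h1
    · exact Or.inl (by rwa [th_zero])
    · exact Or.inr ⟨by rwa [th_zero], by rw [sZ_zero_BM7b]; exact pos_BM7b hU.1 h0⟩

theorem ivt_Ge : Ivt (Gc c) (Ge s t w c) := by
  intro γ φ h
  rw [mem_Ge_BM7b] at h ⊢
  exact ⟨ivt_Rc s t c γ φ h.1, fun g hg => not_cl_BM7b γ (h.2 g hg)⟩

theorem ivt_Lt : Ivt (Gc c) (Lt s t w c) := by
  intro γ φ h
  rw [mem_Lt_BM7b] at h ⊢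
  exact ⟨ivt_Rc s t c γ φ h.1, fun g hg => not_cl_BM7b γ (h.2 g hg)⟩

theorem ivt_O2 (hp : Adm c p) : Ivt (Kc (cp c p)) (O2 s t w c p) := by
  rintro ⟨k, hk⟩ φ ⟨h, h1, h2⟩
  obtain ⟨g₁, m₁, g₂, m₂, -, d₁, d₂⟩ := split_Kc hp hk
  obtain ⟨hk', a1⟩ := mem_Kc_cp.1 hk
  have a2 := e2_BM7b a1
  have b1 := (mem_Kc_cp.1 (Kc_c1_le c p m₁)).2
  have b2 := e2_BM7b (mem_Kc_cp.1 (Kc_c2_le c p m₂)).2
  refine ⟨ivt_Rc s t c ⟨k, Kc_le c hk'⟩ φ h, ?_, ?_⟩
  · change blk (e1 p) (e1 p) (k • φ) ∈ _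
    rw [blk_smul a1 a1, blk_BM7b a1 b1
      (by rw [d₁, add_mul, e2_e1, add_zero, mul_assoc, ← a1, ← mul_assoc, e1_e1])]
    exact ivt_Ge ⟨g₁, Kc_le _ m₁⟩ _ h1
  · change blk (e2 p) (e2 p) (k • φ) ∈ _
    rw [blk_smul a2 a2, blk_BM7b a2 b2
      (by rw [d₂, add_mul, e1_e2, zero_add, mul_assoc, ← a2, ← mul_assoc, e2_e2])]
    exact ivt_Lt ⟨g₂, Kc_le _ m₂⟩ _ h2

theorem ivt_Zs (hp : Adm c p) : Ivt (Kc (cp c p)) (Zs s t w c p) := by
  rintro ⟨k, hk⟩ φ ⟨h, h1⟩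
  have a1 := (mem_Kc_cp.1 hk).2
  refine ⟨ivt_O2 hp ⟨k, hk⟩ φ h, ?_⟩
  change blk (e2 p) (e1 p) (k • φ) = 0
  rw [blk_smul (e2_BM7b a1) a1, h1, smul_zero]

theorem ivt_Z0 (hp : Adm c p) : Ivt (Kc (cp c p)) (Z0 s t w c p) := by
  rintro ⟨k, hk⟩ φ ⟨h, h1⟩
  have a1 := (mem_Kc_cp.1 hk).2
  refine ⟨ivt_Zs hp ⟨k, hk⟩ φ h, ?_⟩
  change blk (e1 p) (e2 p) (k • φ) = 0
  rw [blk_smul a1 (e2_BM7b a1), h1, smul_zero]

theorem Cl_le (h : φ ∈ Cl s t c f) : f ≤ dv c := by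
  obtain ⟨-, U, -, rfl⟩ := h
  exact du_le c U

theorem mem_Ge : φ ∈ Ge s t w c ↔ φ ∈ Rc s t c ∧ ∀ g, Hi w g (dv c) → φ ∉ Cl s t c g := by
  exact mem_Ge_BM7b

theorem mem_Lt : φ ∈ Lt s t w c ↔ φ ∈ Rc s t c ∧ ∀ g, Hi w g 0 → φ ∉ Cl s t c g := by
  exact mem_Lt_BM7b

theorem Ge_empty (h : th w (dv c) < 0) : Ge s t w c = ∅ := by
  refine eq_empty_of_forall_notMem fun φ hφ => ?_
  have h1 := hφ.2 ⊥ (sr_bot_BM7b φ)
  rw [du_bot, th_zero] at h1
  linarith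

theorem Lt_empty (h : 0 ≤ th w (dv c)) (h0 : dv c ≠ 0) : Lt s t w c = ∅ := by
  refine eq_empty_of_forall_notMem fun φ hφ => ?_
  obtain ⟨U, hU, e⟩ := exists_top hφ.1
  have h1 := hφ.2 U hU fun hb => h0 (by rw [← e, hb, du_bot])
  rw [e] at h1
  linarith

theorem Ge_Lt_zero (h : dv c = 0) : Ge s t w c = Rc s t c ∧ Lt s t w c = Rc s t c := by
  have h0 : ∀ U, du c U = 0 := fun U => le_antisymm (h ▸ du_le c U) zero_le
  refine ⟨Subset.antisymm (fun φ hφ => hφ.1) fun φ hφ => ⟨hφ, fun U _ => ?_⟩,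
    Subset.antisymm (fun φ hφ => hφ.1) fun φ hφ => ⟨hφ, fun U hU hb => ?_⟩⟩
  · rw [h0, h]
  · exact absurd (eq_bot_BM7b hU.1 (h0 U)) hb

/-- Schur's lemma -/
theorem schur (hc : ∀ i, c i ≠ none) (hg : Gen w (dv c)) (h : φ ∈ Ge s t w c) {x : Matrix ι ι ℂ}
    (hx : ∀ o, dg c o * x = x * dg c o) (e : ∀ a, x * φ a = φ a * x) :
    ∃ z : ℂ, x = z • (1 : Matrix ι ι ℂ) := by
  obtain ⟨g0, g1, g2⟩ := hg
  have : Nonempty ι := by
    by_contra hn
    rw [not_nonempty_iff] at hn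
    exact g1 (dv_eq_zero.2 fun i => isEmptyElim i)
  obtain ⟨z, hz⟩ := Module.End.exists_eigenvalue (x.mulVecLin : Module.End ℂ (ι → ℂ))
  obtain ⟨v, hv⟩ := hz.exists_hasEigenvector
  refine ⟨z, ?_⟩
  obtain ⟨y, hy⟩ : ∃ y, y = x - z • (1 : Matrix ι ι ℂ) := ⟨_, rfl⟩
  have hyc : ∀ m : Matrix ι ι ℂ, m * x = x * m → m * y = y * m := fun m hm => by
    rw [hy, mul_sub, sub_mul, hm, Matrix.mul_smul, Matrix.smul_mul, mul_one, one_mul]
  obtain ⟨k1, k2, k3⟩ := du_ker_range hc (x := y) fun o => hyc _ (hx o)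
  have s1 : Sr c φ (LinearMap.ker y.mulVecLin) := ⟨k1, fun a u hu => by
    rw [LinearMap.mem_ker, Matrix.mulVecLin_apply] at hu ⊢
    rw [Matrix.mulVec_mulVec, ← hyc _ (e a).symm, ← Matrix.mulVec_mulVec, hu, Matrix.mulVec_zero]⟩
  have s2 : Sr c φ (LinearMap.range y.mulVecLin) := ⟨k2, fun a u hu => by
    obtain ⟨u', rfl⟩ := hu
    refine ⟨φ a *ᵥ u', ?_⟩
    simp only [Matrix.mulVecLin_apply, Matrix.mulVec_mulVec]
    rw [hyc _ (e a).symm]⟩
  have t1 := h.2 _ s1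
  have t2 := h.2 _ s2
  have t3 := th_add w (du c (LinearMap.ker y.mulVecLin)) (du c (LinearMap.range y.mulVecLin))
  rw [k3] at t3
  have hne : LinearMap.ker y.mulVecLin ≠ ⊥ := by
    rw [Submodule.ne_bot_iff]
    refine ⟨v, ?_, hv.2⟩
    have h1 : x *ᵥ v = z • v := hv.apply_eq_smul
    rw [LinearMap.mem_ker, Matrix.mulVecLin_apply, hy, Matrix.sub_mulVec, Matrix.smul_mulVec,
      Matrix.one_mulVec, h1, sub_self]
  have hk : du c (LinearMap.ker y.mulVecLin) = dv c := by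
    by_contra hn
    exact g2 _ (du_le c _) (fun h0 => hne (eq_bot_BM7b k1 h0)) hn (by linarith)
  rw [hk, add_eq_left] at k3
  have hr := LinearMap.range_eq_bot.1 (eq_bot_BM7b k2 k3)
  have hy0 : y = 0 := by
    refine Matrix.toLin'.injective ?_
    rw [map_zero]
    exact hr
  rwa [hy, sub_eq_zero] at hy0

end Pool.Agent.Bet
end

-- part Pool.Agent.P.MP_d34769_ag.BF6
section

/-! TASK BF6: the moduli space of coherent systems is the orbit space. -/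

open Set

namespace Pool.Agent.Bet

open Pool.Agent.P.MP_d34769_ag (GMod modTop)

open Topology in
/-- Two quotient maps with the same fibres have homeomorphic targets. -/
lemma homeo_BF6 {A X Y : Type} [TopologicalSpace A] [TopologicalSpace X] [TopologicalSpace Y]
    {π : A → X} {j : A → Y} (hπ : IsQuotientMap π) (hj : IsQuotientMap j)
    (h : ∀ a b, π a = π b ↔ j a = j b) : Nonempty (X ≃ₜ Y) := by
  have e1 : ∀ a, j (Function.surjInv hπ.surjective (π a)) = j a :=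
    fun a => (h _ _).1 (Function.surjInv_eq _ _)
  have e2 : ∀ a, π (Function.surjInv hj.surjective (j a)) = π a :=
    fun a => (h _ _).2 (Function.surjInv_eq _ _)
  refine ⟨⟨⟨fun x => j (Function.surjInv hπ.surjective x),
    fun y => π (Function.surjInv hj.surjective y), fun x => ?_, fun y => ?_⟩, ?_, ?_⟩⟩
  · exact (e2 _).trans (Function.surjInv_eq _ _)
  · exact (e1 _).trans (Function.surjInv_eq _ _)
  · exact hπ.continuous_iff.2 (hj.continuous.congr fun a => (e1 a).symm)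
  · exact hj.continuous_iff.2 (hπ.continuous.congr fun a => (e2 a).symm)

open Topology Pool.Agent.P.MP_d34769_ag in
theorem exists_homeo {n d k : ℕ} (hn : 0 < n) (hk : 0 < k) {α : ℝ} (h0 : 0 < α)
    (hg : Gen (wt3 n d k α) ![d, n + d, k]) :
    Nonempty (@Homeomorph (GMod α n d k)
      (qs (Gc (cl3 n d k)) (Ge sr3 tg3 (wt3 n d k α) (cl3 n d k))) (modTop α n d k) _) := by
  obtain ⟨-, Φ, hΦ⟩ := mainA ℂ n d k hn hk α h0
  let A := {u : {S : CohSys ℂ n d k // Stable α S} × Rep ℂ n d k // Presents u.1.1 u.2}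
  let tA : TopologicalSpace A :=
    TopologicalSpace.induced (fun u => (u.1.2.x, u.1.2.y, u.1.2.z)) inferInstance
  let tM := modTop α n d k
  have hst : ∀ u : A, QStable α u.1.2 := fun u => by
    obtain ⟨φ, hφ⟩ := (presents_iff _ _).1 u.2
    exact (hφ.stable_iff h0 hn hk).1 u.1.1.2
  have hΦ' : ∀ u : A, Φ (Quot.mk _ u.1.1) = Quot.mk _ ⟨u.1.2, hst u⟩ :=
    fun u => (hΦ u.1.1 ⟨u.1.2, hst u⟩).2 u.2
  let T := qs (Gc (cl3 n d k)) (Bet.Ge sr3 tg3 (wt3 n d k α) (cl3 n d k))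
  let f : A → (qm (Gc (cl3 n d k)) ⁻¹' T : Set (Cj (Fin 3) (I3 n d k))) := fun u =>
    ⟨toCj u.1.2, _, (Bet.qstable_iff hg).1 (hst u), rfl⟩
  have f1 : IsInducing f := by
    rw [← IsInducing.subtypeVal.of_comp_iff]
    refine ⟨?_⟩
    have e : (Subtype.val ∘ f) = toCj ∘ fun u : A => u.1.2 := rfl
    rw [e, ← induced_compose, induced_toCj, induced_compose]
    rfl
  have f2 : Function.Surjective f := by
    rintro ⟨φ, hφ⟩
    have h1 := (mem_qs ivt_Ge).1 hφ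
    have h2 : φ ∈ range (toCj : Rep ℂ n d k → Cj (Fin 3) (I3 n d k)) := by
      rw [range_toCj]; exact h1.1
    obtain ⟨ρ, rfl⟩ := h2
    obtain ⟨⟨S⟩, hS⟩ := Φ.surjective (Quot.mk _ ⟨ρ, (Bet.qstable_iff hg).2 h1⟩)
    exact ⟨⟨(S, ρ), (hΦ S _).1 hS⟩, rfl⟩
  have g1 : IsOpenQuotientMap (T.restrictPreimage (qm (Gc (cl3 n d k)))) :=
    isOpenQuotientMap_qm.restrictPreimage T
  have hπ : IsQuotientMap (Y := GMod α n d k) fun u : A => Quot.mk _ u.1.1 := by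
    refine ⟨⟨rfl⟩, ?_⟩
    rintro ⟨S⟩
    obtain ⟨ρ, hρ⟩ := Quot.exists_rep (Φ (Quot.mk _ S))
    exact ⟨⟨(S, ρ.1), (hΦ S ρ).1 hρ.symm⟩, rfl⟩
  have hE : Equivalence (fun ρ ρ' : {ρ : Rep ℂ n d k // QStable α ρ} => QIso ρ.1 ρ'.1) :=
    ⟨fun ρ => qiso_refl ρ.1, QIso.symm, QIso.trans⟩
  refine homeo_BF6 hπ (g1.isQuotientMap.comp (f1.isQuotientMap_of_surjective f2)) fun a b => ?_
  have e1 : (Quot.mk _ a.1.1 : GMod α n d k) = Quot.mk _ b.1.1 ↔ QIso b.1.2 a.1.2 := by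
    refine Φ.injective.eq_iff.symm.trans ?_
    rw [hΦ', hΦ', eq_comm, Quot.eq, hE.eqvGen_iff]
  exact e1.trans (Bet.qiso_iff.trans (qm_eq.symm.trans
    ⟨fun h => Subtype.ext h, fun h => congrArg Subtype.val h⟩))

end Pool.Agent.Bet
end

-- part Pool.Agent.P.MP_d34769_ag.BM1
section

/-! TASK BM1: positive square roots and polar decomposition. -/

open Set Matrix

namespace Pool.Agent.Bet

variable {ι : Type} [Fintype ι] [DecidableEq ι] {κ : Type} {Ar : Type}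

open scoped MatrixOrder ComplexOrder Matrix.Norms.L2Operator in
theorem aux1_BM1 : ∃ s : Matrix ι ι ℂ → Matrix ι ι ℂ, ContinuousOn s {h | h.PosDef} ∧
    (∀ h, (s h).PosSemidef) ∧ (∀ h, h.PosDef → s h * s h = h) ∧
    (∀ h e, e * h = h * e → e * s h = s h * e) ∧
    ∀ h x : Matrix ι ι ℂ, x.PosSemidef → x * x = h → s h = x := by
  refine ⟨CFC.sqrt, CFC.continuousOn_sqrt.mono fun h hh => hh.posSemidef.nonneg,
    fun h => (CFC.sqrt_nonneg h).posSemidef,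
    fun h hh => CFC.sqrt_mul_sqrt_self h hh.posSemidef.nonneg, fun h e he => ?_,
    fun h x hx he => CFC.sqrt_unique he hx.nonneg⟩
  exact (Commute.cfcₙ_nnreal (show Commute h e from he.symm) _).eq.symm

open scoped Matrix.Norms.L2Operator in
theorem aux2_BM1 : Topology.IsInducing (Units.val : GG ι → Matrix ι ι ℂ) :=
  Units.isOpenEmbedding_val.isInducing

open scoped ComplexOrder in
theorem exists_sq : ∃ sq : Matrix ι ι ℂ → GG ι, IsSq sq := by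
  classical
  obtain ⟨s, h1, h2, h3, h4, h5⟩ := aux1_BM1 (ι := ι)
  have hu : ∀ h : Matrix ι ι ℂ, h.PosDef → IsUnit (s h) := by
    intro h hh
    have h6 := hh.isUnit
    rw [← h3 h hh] at h6
    exact ((Commute.refl _).isUnit_mul_iff.1 h6).1
  let sq : Matrix ι ι ℂ → GG ι := fun h => if hh : IsUnit (s h) then hh.unit else 1
  have hs : ∀ h : Matrix ι ι ℂ, h.PosDef → (sq h).1 = s h := by
    intro h hh
    simp only [sq, dif_pos (hu h hh), IsUnit.unit_spec]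
  refine ⟨sq, aux2_BM1.continuousOn_iff.2 (h1.congr hs), fun h hh => ?_, fun h hh => ?_,
    fun h hh e he => ?_, fun h hh x hx he => ?_, fun h hh e e1 e2 e3 => ?_⟩
  · rw [hs h hh]
    exact (h2 h).posDef_iff_isUnit.2 (hu h hh)
  · rw [hs h hh, h3 h hh]
  · rw [hs h hh, h4 h e he]
  · rw [hs h hh, h5 h x hx he]
  · rw [hs h hh]
    have hh' : star h = h := hh.isHermitian
    have e4 : h * e = e := by
      have := congrArg star e3
      rwa [star_mul, e1, hh'] at this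
    have e5 := h4 h e (e3.trans e4.symm)
    have e6 := h3 h hh
    have e7 : (1 - e) * s h = (1 - e)ᴴ * s h * (1 - e) := by
      rw [← star_eq_conjTranspose, star_sub, star_one, e1, mul_sub, mul_one, mul_assoc, ← e5,
        ← mul_assoc, sub_mul 1 e e, one_mul, e2, sub_self, zero_mul, sub_zero]
    have e8 : (e + (1 - e) * s h).PosSemidef := by
      refine PosSemidef.add ?_ (e7 ▸ (h2 h).conjTranspose_mul_mul_same _)
      have := posSemidef_conjTranspose_mul_self e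
      rwa [← star_eq_conjTranspose, e1, e2] at this
    have e9 : e * (1 - e) = 0 := by rw [mul_sub, mul_one, e2, sub_self]
    have e10 : (1 - e) * s h * e = 0 := by
      rw [mul_assoc, ← e5, ← mul_assoc, sub_mul 1 e e, one_mul, e2, sub_self, zero_mul]
    have e11 := h5 h _ e8 (by
      rw [add_mul, mul_add, mul_add, e2, ← mul_assoc e, e9, zero_mul, add_zero, e10, zero_add,
        ← mul_assoc, mul_sub _ 1 e, mul_one, e10, sub_zero, mul_assoc, e6, sub_mul, one_mul, e3,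
        add_sub_cancel])
    rw [e11, mul_add, e2, ← mul_assoc, e9, zero_mul, add_zero]

open scoped ComplexOrder in
theorem exists_un : ∃ u : GG ι → GG ι, IsUn u := by
  obtain ⟨sq, H⟩ := exists_sq (ι := ι)
  have hp : ∀ g : GG ι, (star g.1 * g.1).PosDef := fun g =>
    (posSemidef_conjTranspose_mul_self g.1).posDef_iff_isUnit.2 (g.isUnit.star.mul g.isUnit)
  have hi : ∀ g : GG ι, star ((sq (star g.1 * g.1))⁻¹).1 = ((sq (star g.1 * g.1))⁻¹).1 := by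
    intro g
    have h1 : star (sq (star g.1 * g.1)).1 = (sq (star g.1 * g.1)).1 :=
      (H.pos _ (hp g)).isHermitian
    have h2 := congrArg star (sq (star g.1 * g.1)).inv_mul
    rw [star_mul, h1, star_one] at h2
    exact (Units.inv_eq_of_mul_eq_one_right h2).symm
  have hm : ∀ g : GG ι, g * (sq (star g.1 * g.1))⁻¹ ∈ Un ι := by
    intro g
    rw [mem_Un, Units.val_mul, star_mul, hi, mul_assoc, ← mul_assoc (star g.1)]
    nth_rewrite 2 [← H.mul _ (hp g)]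
    rw [mul_assoc, Units.mul_inv, mul_one, Units.inv_mul]
  refine ⟨fun g => g * (sq (star g.1 * g.1))⁻¹, ?_, hm, fun g k hk l hl => ?_, fun g hg => ?_,
    fun g e he => ?_, fun g hg => ?_, fun κ c g hg => ⟨?_, hm g⟩⟩
  · exact continuous_id.mul (H.cont.comp_continuous
      (Units.continuous_val.star.mul Units.continuous_val) hp).inv
  · rw [mem_Un] at hk hl
    have h1 : (l⁻¹).1 = star l.1 := Units.inv_eq_of_mul_eq_one_left hl
    have h2 : sq (star (k * g * l).1 * (k * g * l).1) = l⁻¹ * sq (star g.1 * g.1) * l := by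
      refine Units.ext (H.uniq _ (hp _) _ ?_ ?_)
      · rw [Units.val_mul, Units.val_mul, h1]
        exact (H.pos _ (hp g)).posSemidef.conjTranspose_mul_mul_same _
      · rw [← Units.val_mul, show l⁻¹ * sq (star g.1 * g.1) * l * (l⁻¹ * sq (star g.1 * g.1) * l) =
          l⁻¹ * (sq (star g.1 * g.1) * sq (star g.1 * g.1)) * l by group]
        rw [Units.val_mul, Units.val_mul, Units.val_mul (sq _), H.mul _ (hp g)]
        simp only [Units.val_mul, star_mul, h1, mul_assoc]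
        rw [← mul_assoc (star k.1), hk, one_mul]
    beta_reduce
    rw [h2]
    group
  · rw [mem_Un] at hg
    have h1 : sq (star g.1 * g.1) = 1 :=
      Units.ext (H.uniq _ (hp g) 1 PosSemidef.one (by rw [hg, one_mul]))
    beta_reduce
    rw [h1, inv_one, mul_one]
  · beta_reduce
    rw [_root_.mul_inv_rev, inv_inv, mul_assoc, inv_mul_cancel, mul_one]
    exact H.comm _ (hp g) e he
  · have h1 := H.comm _ (hp g) g.1 (by rw [hg, mul_assoc])
    rw [Units.val_mul, star_mul, hi]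
    nth_rewrite 2 [hg]
    exact (Commute.units_inv_right h1).eq.symm
  · refine (Gc c).mul_mem hg ((Gc c).inv_mem ?_)
    obtain ⟨h1, h2⟩ := mem_Gc.1 hg
    have h0 : ∀ o, star (dg c o) = dg c o := fun o => star_dp _
    have h3 : ∀ o, dg c o * star g.1 = star g.1 * dg c o := by
      intro o
      have := congrArg star (h1 o)
      rw [star_mul, star_mul, h0] at this
      exact this.symm
    refine ⟨fun o => H.comm _ (hp g) _ ?_, H.fix _ (hp g) _ (h0 _) (dp_idem _) ?_⟩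
    · rw [← mul_assoc, h3, mul_assoc, h1, mul_assoc]
    · have := congrArg star h2
      rw [star_mul, h0] at this
      rw [← mul_assoc, h3, this, h2]

end Pool.Agent.Bet
end

-- part Pool.Agent.P.MP_d34769_ag.BM2
section

/-! TASK BM2: the block groups and the space of frames. -/

open Set Matrix

namespace Pool.Agent.Bet

variable {ι : Type} [Fintype ι] [DecidableEq ι] {κ : Type} {Ar : Type}

theorem emb_val_BM2 : Topology.IsEmbedding (Units.val : GG ι → Matrix ι ι ℂ) := by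
  refine Units.isEmbedding_val_mk' (f := fun M : Matrix ι ι ℂ => M⁻¹) ?_ ?_
  · intro M hM
    have h : IsUnit M.det := (Matrix.isUnit_iff_isUnit_det M).1 hM
    obtain ⟨u, hu⟩ := h
    refine (continuousAt_matrix_inv M ?_).continuousWithinAt
    rw [← hu]
    exact NormedRing.inverse_continuousAt u
  · intro u
    exact (Matrix.coe_units_inv u).symm

theorem compactSpace_Kc (c : ι → Option κ) : CompactSpace (Kc c) := by
  have h : IsCompact (Kc c : Set (GG ι)) := by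
    rw [emb_val_BM2.isInducing.isCompact_iff]
    have e : Units.val '' (Kc c : Set (GG ι)) = {M : Matrix ι ι ℂ | star M * M = 1} ∩
        ⋂ i, ⋂ j, ⋂ (_ : c i ≠ c j ∨ c i = none), {M | M i j = if i = j then 1 else 0} := by
      ext M
      simp only [mem_image, SetLike.mem_coe, mem_Kc, mem_Gc_iff, mem_Un, mem_inter_iff, mem_iInter]
      constructor
      · rintro ⟨g, ⟨h1, h2⟩, rfl⟩
        exact ⟨h2, h1⟩
      · rintro ⟨h1, h2⟩
        exact ⟨⟨M, star M, mul_eq_one_comm.1 h1, h1⟩, ⟨h2, h1⟩, rfl⟩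
    rw [e]
    have hc : IsCompact (Set.pi univ fun _ : ι => Set.pi univ fun _ : ι =>
        Metric.closedBall (0 : ℂ) 1) :=
      isCompact_univ_pi fun _ => isCompact_univ_pi fun _ => isCompact_closedBall _ _
    refine IsCompact.of_isClosed_subset (X := Matrix ι ι ℂ) hc ?_ ?_
    · refine IsClosed.inter ?_ (isClosed_iInter fun i => isClosed_iInter fun j =>
        isClosed_iInter fun _ => isClosed_eq (by fun_prop) continuous_const)
      exact isClosed_eq (continuous_star.mul continuous_id) continuous_const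
    · intro M hM i _ j _
      rw [mem_closedBall_zero_iff]
      exact entry_norm_bound_of_unitary (Matrix.mem_unitaryGroup_iff'.2 hM.1) i j
  exact isCompact_iff_compactSpace.1 h

theorem mem_Ec_BM2 {c : ι → Option κ} {f : Mt ι} : f ∈ Ec c ↔
    (∀ i n, c i = none → f.m i n = 0) ∧
      ∀ (v : κ) (a : ι → ℂ), (∀ i, c i ≠ some v → a i = 0) → (∀ n, ∑ i, a i * f.m i n = 0) →
        a = 0 := by
  unfold Ec
  refine and_congr ?_ (forall₃_congr fun v a _ => imp_congr_left ?_)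
  · rw [← Matrix.ext_iff]
    simp only [dg, dp_mul_apply, Matrix.zero_apply, ite_eq_right_iff]
  · rw [funext_iff]
    rfl

theorem ivt_Ec (c : ι → Option κ) : Ivt (Gc c) (Ec c) := by
  rintro ⟨g, hg⟩ f ⟨h1, h2⟩
  refine ⟨?_, fun v a ha h0 => ?_⟩
  · show dg c none * (g.1 * f.m) = 0
    rw [← Matrix.mul_assoc, hg.2, h1]
  · have h3 : (a ᵥ* g.1) ᵥ* f.m = 0 := by
      rw [Matrix.vecMul_vecMul]
      exact h0
    have h4 : a ᵥ* g.1 = 0 := by
      refine h2 v _ (fun j hj => ?_) h3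
      refine Finset.sum_eq_zero fun i _ => ?_
      by_cases hi : c i = some v
      · have hne : c i ≠ c j := fun e => hj (e ▸ hi)
        show a i * g.1 i j = 0
        rw [mem_Gc_iff.1 hg i j (Or.inl hne), if_neg fun e => hne (by rw [e]), mul_zero]
      · show a i * g.1 i j = 0
        rw [ha i hi, zero_mul]
    have h5 : (a ᵥ* g.1) ᵥ* (g⁻¹).1 = a := by
      rw [Matrix.vecMul_vecMul, Units.mul_inv, Matrix.vecMul_one]
    rw [← h5, h4, Matrix.zero_vecMul]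

theorem exists_r_BM2 {c : ι → Option κ} {f : Mt ι} (hf : f ∈ Ec c) (j : ι) :
    ∃ r : ℕ →₀ ℂ, ∀ i, c i = c j → c i ≠ none →
      ∑ n ∈ r.support, f.m i n * r n = if i = j then 1 else 0 := by
  classical
  rcases hv : c j with _ | v
  · exact ⟨0, fun i h1 h2 => absurd h1 h2⟩
  have hmem : (Pi.single j 1 : ι → ℂ) ∈ Submodule.span ℂ
      (range fun n : ℕ => fun i => if c i = some v then f.m i n else 0) := by
    by_contra hn
    obtain ⟨l, hl, hk⟩ := Submodule.exists_le_ker_of_notMem hn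
    have h0 := (mem_Ec_BM2.1 hf).2 v (fun i => if c i = some v then l (Pi.single i 1) else 0)
      (fun i hi => if_neg hi) (fun n => by
        have h1 : l (fun i => if c i = some v then f.m i n else 0) = 0 :=
          hk (Submodule.subset_span ⟨n, rfl⟩)
        rw [LinearMap.pi_apply_eq_sum_univ] at h1
        refine Eq.trans ?_ h1
        refine Finset.sum_congr rfl fun i _ => ?_
        have e : (fun j => if i = j then (1 : ℂ) else 0) = Pi.single i 1 := by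
          funext k
          rw [Pi.single_apply]
          simp only [eq_comm]
        rw [e]
        split_ifs
        · rw [smul_eq_mul, mul_comm]
        · simp)
    have h2 := congrFun h0 j
    rw [if_pos hv] at h2
    exact hl h2
  obtain ⟨r, hr⟩ := (Finsupp.mem_span_range_iff_exists_finsupp).1 hmem
  refine ⟨r, fun i h1 _ => ?_⟩
  have h2 := congrFun hr i
  rw [Finsupp.sum, Finset.sum_apply, Pi.single_apply] at h2
  rw [← h2]
  refine Finset.sum_congr rfl fun n _ => ?_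
  rw [Pi.smul_apply, if_pos h1, smul_eq_mul, mul_comm]

open Classical in
/-- the block part of a matrix -/
noncomputable def blkB_BM2 (c : ι → Option κ) (M : Matrix ι ι ℂ) : Matrix ι ι ℂ :=
  fun i j => if c i = c j ∧ c i ≠ none then M i j else if i = j then 1 else 0

theorem blkB_mul_BM2 {c : ι → Option κ} {g : GG ι} (hg : g ∈ Gc c) (M : Matrix ι ι ℂ) :
    blkB_BM2 c (g.1 * M) = g.1 * blkB_BM2 c M := by
  have hg' := mem_Gc_iff.1 hg
  have hz : ∀ i k, c i ≠ c k → g.1 i k = 0 := fun i k h => by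
    rw [hg' i k (Or.inl h), if_neg fun e => h (by rw [e])]
  ext i j
  rw [Matrix.mul_apply]
  by_cases h : c i = c j ∧ c i ≠ none
  · rw [blkB_BM2, if_pos h, Matrix.mul_apply]
    refine Finset.sum_congr rfl fun k _ => ?_
    by_cases hk : c i = c k
    · rw [blkB_BM2, if_pos ⟨hk ▸ h.1, hk ▸ h.2⟩]
    · rw [hz i k hk, zero_mul, zero_mul]
  · by_cases hi : c i = none
    · rw [Finset.sum_eq_single i]
      · rw [hg' i i (Or.inr hi), if_pos rfl, one_mul, blkB_BM2, blkB_BM2, if_neg h, if_neg h]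
      · intro k _ hk
        rw [hg' i k (Or.inr hi), if_neg (Ne.symm hk), zero_mul]
      · intro h'
        exact absurd (Finset.mem_univ i) h'
    · have hij : c i ≠ c j := fun e => h ⟨e, hi⟩
      rw [blkB_BM2, if_neg h, if_neg fun e => hij (by rw [e])]
      refine (Finset.sum_eq_zero fun k _ => ?_).symm
      by_cases hk : c i = c k
      · have hkj : c k ≠ c j := hk ▸ hij
        rw [blkB_BM2, if_neg fun e => hkj e.1, if_neg fun e => hkj (by rw [e]), mul_zero]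
      · rw [hz i k hk, zero_mul]

omit [Fintype ι] in
theorem continuous_blkB_BM2 (c : ι → Option κ) : Continuous (blkB_BM2 c) := by
  refine continuous_pi fun i => continuous_pi fun j => ?_
  unfold blkB_BM2
  split_ifs
  · fun_prop
  · exact continuous_const
  · exact continuous_const

omit [Fintype ι] [DecidableEq ι] in
theorem continuous_m_BM2 (i : ι) (n : ℕ) : Continuous fun f : Mt ι => f.m i n :=
  (continuous_apply n).comp (continuous_apply (A := fun _ : ι => ℕ → ℂ) i)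

theorem prin_Gc (c : ι → Option κ) : Prin (Gc c) (Ec c) := by
  classical
  intro f0 hf0
  choose r hr using exists_r_BM2 hf0
  let φ : Mt ι → Matrix ι ι ℂ := fun f i j => ∑ n ∈ (r j).support, f.m i n * r j n
  have hφc : Continuous φ := continuous_pi fun i => continuous_pi fun j =>
    continuous_finsetSum _ fun n _ => (continuous_m_BM2 i n).mul continuous_const
  have hφ : ∀ (g : GG ι) (f : Mt ι), φ (g • f) = g.1 * φ f := by
    intro g f
    ext i j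
    simp only [φ, Mt.smul_m, Matrix.mul_apply, Finset.sum_mul, Finset.mul_sum, mul_assoc]
    exact Finset.sum_comm
  let T : Mt ι → Matrix ι ι ℂ := fun f => blkB_BM2 c (φ f)
  have hTc : Continuous T := (continuous_blkB_BM2 c).comp hφc
  have hT : ∀ (g : Gc c) (f : Mt ι), T (g • f) = g.1.1 * T f := by
    intro g f
    show blkB_BM2 c (φ (g.1 • f)) = _
    rw [hφ, blkB_mul_BM2 g.2]
  have hT0 : T f0 = 1 := by
    ext i j
    show blkB_BM2 c (φ f0) i j = _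
    rw [blkB_BM2, Matrix.one_apply]
    by_cases h : c i = c j ∧ c i ≠ none
    · rw [if_pos h]
      exact hr j i h.1 h.2
    · rw [if_neg h]
  have hmem : ∀ f (g : GG ι), g.1 = T f → g ∈ Gc c := by
    intro f g e
    refine mem_Gc_iff.2 fun i j h => ?_
    rw [e]
    show blkB_BM2 c (φ f) i j = _
    rw [blkB_BM2, if_neg]
    rintro ⟨h1, h2⟩
    exact h.elim (fun h' => h' h1) h2
  let τ : Mt ι → Gc c := fun f =>
    if h : IsUnit (T f) then ⟨h.unit, hmem f _ h.unit_spec⟩ else 1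
  have hτ : ∀ f, IsUnit (T f) → (τ f).1.1 = T f := by
    intro f h
    simp only [τ, dif_pos h]
    exact h.unit_spec
  have hU : ∀ f, IsUnit (T f) ↔ (T f).det ≠ 0 := fun f => by
    rw [Matrix.isUnit_iff_isUnit_det, isUnit_iff_ne_zero]
  refine ⟨{f | (T f).det ≠ 0}, isOpen_ne_fun hTc.matrix_det continuous_const, ?_, τ, ?_, ?_⟩
  · show (T f0).det ≠ 0
    rw [hT0, Matrix.det_one]
    exact one_ne_zero
  · rw [(emb_val_BM2.comp Topology.IsEmbedding.subtypeVal).isInducing.continuousOn_iff]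
    exact hTc.continuousOn.congr fun f hf => hτ f ((hU f).2 hf.2)
  · intro g f hf
    have h1 : IsUnit (T f) := (hU f).2 hf.2
    have h2 : IsUnit (T (g • f)) := by
      rw [hT]
      exact g.1.isUnit.mul h1
    refine ⟨(hU _).1 h2, Subtype.ext (Units.ext ?_)⟩
    rw [hτ _ h2, hT, ← hτ _ h1]
    rfl

theorem prin_Kc (c : ι → Option κ) : Prin (Kc c) (Ec c) := by
  intro f0 hf0
  obtain ⟨U, hU, h0, τ, hc, hτ⟩ := prin_Gc c f0 hf0
  obtain ⟨u, hu⟩ := exists_un (ι := ι)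
  refine ⟨U, hU, h0, fun f => ⟨u (τ f).1, hu.blk κ c _ (τ f).2⟩, ?_, ?_⟩
  · rw [Topology.IsEmbedding.subtypeVal.isInducing.continuousOn_iff]
    exact (hu.cont.comp continuous_subtype_val).comp_continuousOn hc
  · intro g f hf
    obtain ⟨h1, h2⟩ := hτ ⟨g.1, g.2.1⟩ f hf
    refine ⟨h1, Subtype.ext ?_⟩
    have h3 : τ (g • f) = ⟨g.1, g.2.1⟩ * τ f := h2
    show u (τ (g • f)).1 = g.1 * u (τ f).1
    rw [h3]
    have h4 := hu.equiv (τ f).1 g.1 g.2.2 1 (Un ι).one_mem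
    rw [mul_one, mul_one] at h4
    exact h4

theorem shift_BM2 {N : ℕ} {s t : ℂ} (hst : s + t = 1) {x : ℕ → ℂ}
    (h : ∀ n, s * x n + t * (if N + 1 ≤ n then x (n - (N + 1)) else 0) = 0) : ∀ n, x n = 0 := by
  by_cases hs : s = 0
  · intro n
    have h1 := h (n + (N + 1))
    have ht : t = 1 := by rw [← hst, hs, zero_add]
    simpa [hs, ht] using h1
  · intro n
    induction n using Nat.strong_induction_on with
    | _ n ih =>
      have h1 := h n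
      by_cases hn : N + 1 ≤ n
      · rw [if_pos hn, ih (n - (N + 1)) (by omega), mul_zero, add_zero] at h1
        exact (mul_eq_zero.1 h1).resolve_left hs
      · rw [if_neg hn, mul_zero, add_zero] at h1
        exact (mul_eq_zero.1 h1).resolve_left hs

theorem contractible_Ec (c : ι → Option κ) : ContractibleSpace (Ec c) := by
  classical
  let N := Fintype.card ι
  let idx : ι → ℕ := fun i => (Fintype.equivFin ι i : ℕ)
  have hidx : ∀ i, idx i < N := fun i => (Fintype.equivFin ι i).2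
  have hinj : ∀ i j, idx i = idx j → i = j := fun i j h =>
    (Fintype.equivFin ι).injective (Fin.ext h)
  let e : Mt ι := fun i n => if c i ≠ none ∧ n = idx i then (1 : ℂ) else 0
  have em : ∀ i n, e.m i n = if c i ≠ none ∧ n = idx i then (1 : ℂ) else 0 := fun _ _ => rfl
  let sh : Mt ι → ι → ℕ → ℂ := fun f i n => if N + 1 ≤ n then f.m i (n - (N + 1)) else 0
  have hshc : ∀ i n, Continuous fun f => sh f i n := by
    intro i n
    simp only [sh]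
    split_ifs
    · exact continuous_m_BM2 i _
    · exact continuous_const
  have hsum : ∀ (a : ι → ℂ) (f : Mt ι) n, ∑ i, a i * sh f i n =
      if N + 1 ≤ n then ∑ i, a i * f.m i (n - (N + 1)) else 0 := by
    intro a f n
    simp only [sh]
    split_ifs <;> simp
  let H : ℝ → Mt ι → Mt ι := fun t f i n => (1 - (t : ℂ)) * f.m i n + (t : ℂ) * sh f i n
  let H' : ℝ → Mt ι → Mt ι := fun t f i n => (1 - (t : ℂ)) * sh f i n + (t : ℂ) * e.m i n
  have Hm : ∀ t f i n, (H t f).m i n = (1 - (t : ℂ)) * f.m i n + (t : ℂ) * sh f i n :=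
    fun _ _ _ _ => rfl
  have Hm' : ∀ t f i n, (H' t f).m i n = (1 - (t : ℂ)) * sh f i n + (t : ℂ) * e.m i n :=
    fun _ _ _ _ => rfl
  have hext : ∀ f g : Mt ι, (∀ i n, f.m i n = g.m i n) → f = g := fun f g h =>
    funext fun i => funext fun n => h i n
  have he : e ∈ Ec c := by
    refine mem_Ec_BM2.2 ⟨fun i n hi => by simp [em, hi], fun v a ha h => funext fun j => ?_⟩
    by_cases hj : c j = some v
    · have h1 := h (idx j)
      rw [Finset.sum_eq_single j] at h1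
      · simpa [em, hj] using h1
      · intro k _ hk
        rw [em, if_neg fun h' => hk (hinj _ _ h'.2).symm, mul_zero]
      · intro h'
        exact absurd (Finset.mem_univ j) h'
    · exact ha j hj
  have hcoe : Continuous fun p : ℝ × Mt ι => (p.1 : ℂ) :=
    Complex.continuous_ofReal.comp continuous_fst
  refine contractible_of_htp he (H := H) (H' := H') ⟨?_, ?_⟩ ⟨?_, ?_⟩ ?_ ?_ ?_
  · refine Continuous.continuousOn (continuous_pi fun i => continuous_pi fun n => ?_)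
    exact ((continuous_const.sub hcoe).mul ((continuous_m_BM2 i n).comp continuous_snd)).add
      (hcoe.mul ((hshc i n).comp continuous_snd))
  · intro t _ f hf
    obtain ⟨h1, h2⟩ := mem_Ec_BM2.1 hf
    refine mem_Ec_BM2.2 ⟨fun i n hi => by simp [Hm, sh, h1 i _ hi], fun v a ha h => ?_⟩
    refine h2 v a ha (shift_BM2 (N := N) (s := 1 - (t : ℂ)) (t := t) (by ring)
      (x := fun n => ∑ i, a i * f.m i n) fun n => ?_)
    rw [← hsum, ← h n, Finset.mul_sum, Finset.mul_sum, ← Finset.sum_add_distrib]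
    refine Finset.sum_congr rfl fun i _ => ?_
    rw [Hm]
    ring
  · refine Continuous.continuousOn (continuous_pi fun i => continuous_pi fun n => ?_)
    exact ((continuous_const.sub hcoe).mul ((hshc i n).comp continuous_snd)).add
      (hcoe.mul continuous_const)
  · intro t _ f hf
    obtain ⟨h1, h2⟩ := mem_Ec_BM2.1 hf
    by_cases ht : (1 - (t : ℂ)) = 0
    · have ht' : (t : ℂ) = 1 := (sub_eq_zero.1 ht).symm
      have e' : H' t f = e := hext _ _ fun i n => by rw [Hm', ht, ht']; ring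
      rw [e']
      exact he
    · refine mem_Ec_BM2.2 ⟨fun i n hi => by simp [Hm', em, sh, hi, h1 i _ hi],
        fun v a ha h => h2 v a ha fun n => ?_⟩
      have h3 := h (n + (N + 1))
      have h4 : ∑ i, a i * (H' t f).m i (n + (N + 1)) =
          (1 - (t : ℂ)) * ∑ i, a i * f.m i n := by
        rw [Finset.mul_sum]
        refine Finset.sum_congr rfl fun i _ => ?_
        have h5 := hidx i
        rw [Hm', em, if_neg fun h' => by omega]
        simp only [sh]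
        rw [if_pos (by omega), Nat.add_sub_cancel]
        ring
      rw [h4] at h3
      exact (mul_eq_zero.1 h3).resolve_left ht
  · intro f _
    exact hext _ _ fun i n => by rw [Hm]; simp
  · intro f _
    exact hext _ _ fun i n => by rw [Hm, Hm']; simp
  · intro f _
    exact hext _ _ fun i n => by rw [Hm']; simp

end Pool.Agent.Bet
end

-- part Pool.Agent.P.MP_d34769_ag.BM8
section

/-! TASK BM8: the strata, topologically. -/

open Set Matrix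

namespace Pool.Agent.Bet

variable {ι : Type} [Fintype ι] [DecidableEq ι] {κ : Type} {Ar : Type} [Fintype κ]
  {s t : Ar → κ} {w : κ → ℝ} {c : ι → Option κ} {p : ι → Bool}

omit [Fintype κ] in
lemma aux1_BM8 (hp : Adm c p) {φ : Cj Ar ι} {k : Kc c} (h : blk (e2 p) (e1 p) (k⁻¹ • φ) = 0) :
    Sr c φ ((V1 p).map k.1.1.mulVecLin) ∧ du c ((V1 p).map k.1.1.mulVecLin) = dv (c1 c p) := by
  have h1 := ((sr_V1 hp).2 h).smul (Kc_le c k.2)
  have e : k.1 • k⁻¹ • φ = φ := smul_inv_smul k φ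
  rw [e] at h1
  exact ⟨h1, ((gs_V1 hp).1.map (Kc_le c k.2)).2.trans (gs_V1 hp).2⟩

omit [Fintype κ] in
lemma aux2_BM8 (hp : Adm c p) {φ : Cj Ar ι} {U : Submodule ℂ (ι → ℂ)} (hU : Sr c φ U)
    (e : du c U = dv (c1 c p)) : ∃ k : Kc c, blk (e2 p) (e1 p) (k⁻¹ • φ) = 0 := by
  obtain ⟨k, hk, rfl⟩ := exists_unitary hp hU.1 e
  refine ⟨⟨k, hk⟩, (sr_V1 hp).1 ?_⟩
  have h1 := hU.smul (Kc_le c ((Kc c).inv_mem hk))
  rw [← Submodule.map_comp, ← Matrix.mulVecLin_mul, Units.inv_mul, Matrix.mulVecLin_one,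
    Submodule.map_id] at h1
  exact h1

omit [Fintype κ] in
lemma aux3_BM8 (p : ι → Bool) :
    IsClosed {x : Kc c × Cj Ar ι | blk (e2 p) (e1 p) (x.1⁻¹ • x.2) = 0} :=
  isClosed_eq ((continuous_blk _ _).comp (continuous_fst.inv.smul continuous_snd)) continuous_const

theorem isClosed_Cl (f : κ → ℕ) : IsClosed (Cl s t c f) := by
  by_cases hf : f ≤ dv c
  · obtain ⟨p, hp, rfl⟩ := exists_part hf
    have := compactSpace_Kc c
    have e : Cl s t c (dv (c1 c p)) = (Rc s t c : Set (Cj Ar ι)) ∩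
        Prod.snd '' {x : Kc c × Cj Ar ι | blk (e2 p) (e1 p) (x.1⁻¹ • x.2) = 0} := by
      ext φ
      constructor
      · rintro ⟨h1, U, hU, e⟩
        obtain ⟨k, hk⟩ := aux2_BM8 hp hU e
        exact ⟨h1, (k, φ), hk, rfl⟩
      · rintro ⟨h1, ⟨k, φ⟩, hk, rfl⟩
        exact ⟨h1, _, aux1_BM8 hp hk⟩
    rw [e]
    exact (isClosed_Rc s t c).inter (isClosedMap_snd_of_compactSpace _ (aux3_BM8 p))
  · have e : Cl s t c f = ∅ := eq_empty_of_forall_notMem fun φ h => hf (Cl_le h)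
    rw [e]
    exact isClosed_empty

lemma aux4_BM8 (f : κ → ℕ) :
    RO {φ | φ ∈ Rc s t c ∧ ∀ g, Hi w g f → φ ∉ Cl s t c g} (Rc s t c) := by
  classical
  have hfin : {g | g ≤ dv c ∧ Hi w g f}.Finite := (Set.finite_Iic (dv c)).subset fun g h => h.1
  have h := RO.of_isClosed (hfin.isClosed_biUnion fun g _ => isClosed_Cl (s := s) (t := t) (c := c) g)
    (Rc s t c : Set (Cj Ar ι))
  have e : {φ | φ ∈ Rc s t c ∧ ∀ g, Hi w g f → φ ∉ Cl s t c g} = (Rc s t c : Set (Cj Ar ι)) \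
      ⋃ g ∈ {g | g ≤ dv c ∧ Hi w g f}, Cl s t c g := by
    ext φ
    simp only [mem_sdiff, mem_iUnion, not_exists, mem_ofPred_eq, SetLike.mem_coe]
    exact and_congr_right fun _ => ⟨fun h g hg => h g hg.2, fun h g hg hφ => h g ⟨Cl_le hφ, hg⟩ hφ⟩
  rw [e]
  exact h

theorem ro_Ge : RO (Ge s t w c) (Rc s t c) := by
  rw [show Ge s t w c = _ from Set.ext fun φ => mem_Ge]
  exact aux4_BM8 _

theorem ro_Lt : RO (Lt s t w c) (Rc s t c) := by
  rw [show Lt s t w c = _ from Set.ext fun φ => mem_Lt]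
  exact aux4_BM8 _

theorem ro_O2 : RO (O2 s t w c p) (Rc s t c) := by
  have h1 := RO.preimage (S := (Rc s t c : Set (Cj Ar ι))) (ro_Ge (s := s) (t := t) (w := w)
    (c := c1 c p)) (continuous_blk (e1 p) (e1 p)).continuousOn fun φ h => blk_mem_c1 h
  have h2 := RO.preimage (S := (Rc s t c : Set (Cj Ar ι))) (ro_Lt (s := s) (t := t) (w := w)
    (c := c2 c p)) (continuous_blk (e2 p) (e2 p)).continuousOn fun φ h => blk_mem_c2 h
  have e : O2 s t w c p = (Rc s t c : Set (Cj Ar ι)) ∩ blk (e1 p) (e1 p) ⁻¹' Ge s t w (c1 c p) ∩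
      ((Rc s t c : Set (Cj Ar ι)) ∩ blk (e2 p) (e2 p) ⁻¹' Lt s t w (c2 c p)) :=
    Set.ext fun φ => ⟨fun h => ⟨⟨h.1, h.2.1⟩, h.1, h.2.2⟩, fun h => ⟨h.1.1, h.1.2, h.2.2⟩⟩
  rw [e]
  exact h1.inter h2

omit [Fintype κ] in
lemma aux5_BM8 (hp : Adm c p) {k l : Kc c}
    (h : (V1 p).map k.1.1.mulVecLin ≤ (V1 p).map l.1.1.mulVecLin) :
    (l • E1 p) () * (k • E1 p) () = (k • E1 p) () := by
  have hl := (Gr_spec hp (e := l • E1 p) ⟨l, rfl⟩).2.1
  refine Matrix.ext_iff_mulVec.2 fun x => ?_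
  have h1 : (k • E1 p) () *ᵥ x ∈ (V1 p).map k.1.1.mulVecLin := by
    refine ⟨e1 p *ᵥ ((k.1⁻¹).1 *ᵥ x), ⟨_, rfl⟩, ?_⟩
    rw [Matrix.mulVecLin_apply, Matrix.mulVec_mulVec, Matrix.mulVec_mulVec]
    rfl
  obtain ⟨_, ⟨y, rfl⟩, hy⟩ := h h1
  have h2 : (k • E1 p) () *ᵥ x = (l • E1 p) () *ᵥ (l.1.1 *ᵥ y) := by
    rw [← hy, Matrix.mulVecLin_apply, Matrix.mulVecLin_apply, Matrix.mulVec_mulVec,
      Matrix.mulVec_mulVec]
    congr 1
    change l.1.1 * e1 p = l.1.1 * e1 p * (l.1⁻¹).1 * l.1.1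
    rw [mul_assoc _ _ l.1.1, Units.inv_mul, mul_one]
  rw [← Matrix.mulVec_mulVec, h2, Matrix.mulVec_mulVec, hl]

lemma aux6_BM8 (hp : Adm c p) {φ : Cj Ar ι} (hφ : φ ∈ St s t w c (dv (c1 c p))) {k l : Kc c}
    (hk : blk (e2 p) (e1 p) (k⁻¹ • φ) = 0) (hl : blk (e2 p) (e1 p) (l⁻¹ • φ) = 0) :
    k • E1 p = l • E1 p := by
  obtain ⟨k1, k2⟩ := aux1_BM8 hp hk
  obtain ⟨l1, l2⟩ := aux1_BM8 hp hl
  have e := St.uniq hφ k1 l1 k2 (by rw [l2]) (by rw [l2])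
  have h1 := aux5_BM8 hp e.le
  have h2 := congrArg star (aux5_BM8 hp e.ge)
  rw [star_mul, (Gr_spec hp (e := l • E1 p) ⟨l, rfl⟩).1,
    (Gr_spec hp (e := k • E1 p) ⟨k, rfl⟩).1] at h2
  exact funext fun _ => h2.symm.trans h1

/-- the canonical subrepresentation depends continuously on the point of the stratum -/
theorem exists_q (hp : Adm c p) : ∃ q : Cj Ar ι → Cj Unit ι,
    ContinuousOn q (St s t w c (dv (c1 c p))) ∧ MapsTo q (St s t w c (dv (c1 c p))) (Gr c p) ∧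
    (∀ k : Kc c, ∀ φ ∈ St s t w c (dv (c1 c p)), q (k • φ) = k • q φ) ∧
    ∀ φ ∈ St s t w c (dv (c1 c p)), (q φ = E1 p ↔ φ ∈ Zs s t w c p) := by
  have := compactSpace_Kc c
  have hex : ∀ φ : Cj Ar ι, ∃ k : Kc c, φ ∈ St s t w c (dv (c1 c p)) →
      blk (e2 p) (e1 p) (k⁻¹ • φ) = 0 := fun φ => by
    by_cases h : φ ∈ St s t w c (dv (c1 c p))
    · obtain ⟨U, hU, e⟩ := h.1.2
      obtain ⟨k, hk⟩ := aux2_BM8 hp hU e
      exact ⟨k, fun _ => hk⟩
    · exact ⟨1, fun h' => (h h').elim⟩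
  choose kk hkk using hex
  refine ⟨fun φ => kk φ • E1 p, ?_, fun φ _ => ⟨kk φ, rfl⟩, fun k φ hφ => ?_, fun φ hφ => ?_⟩
  · refine continuousOn_iff_isClosed.2 fun T hT => ⟨Prod.snd ''
      ({x : Kc c × Cj Ar ι | blk (e2 p) (e1 p) (x.1⁻¹ • x.2) = 0} ∩ {x | x.1 • E1 p ∈ T}),
      isClosedMap_snd_of_compactSpace _ ((aux3_BM8 p).inter
        (hT.preimage (continuous_fst.smul continuous_const))), ?_⟩
    ext φ
    refine and_congr_left fun hφ => ⟨fun h => ⟨(kk φ, φ), ⟨hkk φ hφ, h⟩, rfl⟩, ?_⟩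
    rintro ⟨⟨k, φ⟩, ⟨h1, h2⟩, rfl⟩
    have e : kk φ • E1 p = k • E1 p := aux6_BM8 hp hφ (hkk φ hφ) h1
    change kk φ • E1 p ∈ T
    rw [e]
    exact h2
  · have h1 : k • φ ∈ St s t w c (dv (c1 c p)) := ivt_St _ ⟨k.1, Kc_le c k.2⟩ φ hφ
    change kk (k • φ) • E1 p = k • kk φ • E1 p
    rw [← mul_smul]
    refine aux6_BM8 hp h1 (hkk _ h1) ?_
    rw [_root_.mul_inv_rev, mul_smul, inv_smul_smul]
    exact hkk φ hφ
  · rw [mem_Zs hp]
    refine ⟨fun h => ⟨hφ, ?_⟩, fun h => ?_⟩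
    · have h1 : e1 p * (kk φ).1.1 = (kk φ).1.1 * e1 p := smul_E1.1 h
      have h2 : e2 p * (kk φ).1.1 = (kk φ).1.1 * e2 p := by
        rw [eq_sub_of_add_eq' (e1_add_e2 p), sub_mul, mul_sub, h1, one_mul, mul_one]
      have h3 := blk_smul h2 h1 ((kk φ)⁻¹ • φ)
      have e : (kk φ).1 • (kk φ)⁻¹ • φ = φ := smul_inv_smul (kk φ) φ
      rw [e, hkk φ hφ, smul_zero] at h3
      exact h3
    · have h1 : kk φ • E1 p = (1 : Kc c) • E1 p :=
        aux6_BM8 hp hφ (hkk φ hφ) (by rw [inv_one, one_smul]; exact h.2)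
      rw [one_smul] at h1
      exact h1

end Pool.Agent.Bet
end

-- part Pool.Agent.P.MP_d34769_ag.BM9
section

/-! TASK BM9: equivariant extension (Tietze and averaging over the compact group). -/

open Set Matrix

namespace Pool.Agent.Bet

variable {ι : Type} [Fintype ι] [DecidableEq ι] {κ : Type} {Ar : Type}

open MeasureTheory in
/-- Averaging over a compact group. -/
theorem avg_BM9 {K X Y : Type} [Group K] [TopologicalSpace K] [IsTopologicalGroup K]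
    [CompactSpace K] [TopologicalSpace X] [NormedAddCommGroup Y] [NormedSpace ℝ Y]
    [NormedSpace ℂ Y] [CompleteSpace Y] (act : K → X → X) (ρ : K → Y → Y)
    (ca : Continuous fun p : K × X => act p.1 p.2) (cρ : Continuous fun p : K × Y => ρ p.1 p.2)
    (ma : ∀ g k x, act (g * k)⁻¹ (act g x) = act k⁻¹ x) (mρ : ∀ g k y, ρ (g * k) y = ρ g (ρ k y))
    (lρ : ∀ g, IsLinearMap ℂ (ρ g)) {q0 : X → Y} (cq : Continuous q0) :
    ∃ q' : X → Y, Continuous q' ∧ (∀ g x, q' (act g x) = ρ g (q' x)) ∧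
      ∀ x y, (∀ k, ρ k (q0 (act k⁻¹ x)) = y) → q' x = y := by
  borelize K
  let μ : Measure K := Measure.haarMeasure ⊤
  have : IsProbabilityMeasure μ :=
    ⟨by simpa using Measure.haarMeasure_self (K₀ := (⊤ : TopologicalSpace.PositiveCompacts K))⟩
  let F : C(X × K, Y) := ⟨fun p => ρ p.2 (q0 (act p.2⁻¹ p.1)),
    cρ.comp (continuous_snd.prodMk (cq.comp (ca.comp (continuous_snd.inv.prodMk continuous_fst))))⟩
  have hi : ∀ g : C(K, Y), Integrable g μ := fun g =>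
    g.continuous.integrable_of_hasCompactSupport (HasCompactSupport.of_compactSpace _)
  have hI : Continuous fun g : C(K, Y) => ∫ k, g k ∂μ := by
    refine (LipschitzWith.of_dist_le_mul (K := 1) fun g g' => ?_).continuous
    rw [dist_eq_norm, ← integral_sub (hi g) (hi g'), NNReal.coe_one, one_mul]
    refine (norm_integral_le_of_norm_le_const (C := dist g g')
      (Filter.Eventually.of_forall fun k => ?_)).trans (by simp)
    rw [← dist_eq_norm]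
    exact ContinuousMap.dist_apply_le_dist k
  refine ⟨fun x => ∫ k, F.curry x k ∂μ, hI.comp F.curry.continuous, fun g x => ?_,
    fun x y h => ?_⟩
  · let L : Y →L[ℂ] Y := ⟨IsLinearMap.mk' _ (lρ g), cρ.comp (Continuous.prodMk_right g)⟩
    refine ((integral_mul_left_eq_self (fun k => F.curry (act g x) k) g).symm.trans ?_).trans
      (L.integral_comp_comm (hi (F.curry x)))
    refine integral_congr_ae (Filter.Eventually.of_forall fun k => ?_)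
    show ρ (g * k) (q0 (act (g * k)⁻¹ (act g x))) = ρ g (ρ k (q0 (act k⁻¹ x)))
    rw [ma, mρ]
  · have : (fun k => F.curry x k) = fun _ => y := funext h
    show ∫ k, F.curry x k ∂μ = y
    rw [this]
    simp

theorem exists_extension [Finite Ar] (c : ι → Option κ) {U S : Set (Cj Ar ι)} (hU : Ivt (Kc c) U)
    (hS : Ivt (Kc c) S) (h : S ⊆ U) (hc : RO (U \ S) U) {q : Cj Ar ι → Cj Unit ι}
    (cq : ContinuousOn q S) (he : ∀ k : Kc c, ∀ φ ∈ S, q (k • φ) = k • q φ) :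
    ∃ q' : Cj Ar ι → Cj Unit ι, ContinuousOn q' U ∧
      (∀ k : Kc c, ∀ φ ∈ U, q' (k • φ) = k • q' φ) ∧ EqOn q' q S := by
  classical
  have := compactSpace_Kc c
  have : TopologicalSpace.MetrizableSpace (Cj Ar ι) :=
    inferInstanceAs (TopologicalSpace.MetrizableSpace (Ar → ι → ι → ℂ))
  obtain ⟨O, hO, hOU⟩ := hc
  have hcl : IsClosed (Subtype.val ⁻¹' S : Set U) := by
    rw [← isOpen_compl_iff]
    convert hO.preimage (continuous_subtype_val (p := (· ∈ U))) using 1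
    ext x
    have := Set.ext_iff.1 hOU x.1
    simpa [x.2] using this
  let f : C((Subtype.val ⁻¹' S : Set U), Unit → ι → ι → ℂ) := ⟨fun x => q x.1.1,
    cq.comp_continuous (continuous_subtype_val.comp continuous_subtype_val) fun x => x.2⟩
  obtain ⟨q0, hq0⟩ := f.exists_restrict_eq hcl
  have h0 : ∀ x : U, x.1 ∈ S → q0 x = q x.1 := fun x hx =>
    DFunLike.congr_fun hq0 ⟨x, hx⟩
  obtain ⟨q', c', e', f'⟩ := avg_BM9 (K := Kc c) (X := U) (Y := Unit → ι → ι → ℂ)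
    (fun k x => ⟨k • x.1, hU k _ x.2⟩) (fun k y => (k • (show Cj Unit ι from y) : Cj Unit ι))
    (Continuous.subtype_mk (continuous_fst.smul (continuous_subtype_val.comp continuous_snd)) _)
    (continuous_smul (M := Kc c) (X := Cj Unit ι))
    (fun g k x => Subtype.ext (by simp [mul_smul]))
    (fun g k y => mul_smul g k (show Cj Unit ι from y))
    (fun g => ⟨fun y z => smul_add g (show Cj Unit ι from y) z,
      fun a y => smul_comm (M := GG ι) (α := Cj Unit ι) g.1 a y⟩) q0.continuous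
  refine ⟨fun φ => if hφ : φ ∈ U then q' ⟨φ, hφ⟩ else 0, ?_, fun k φ hφ => ?_, fun φ hφ => ?_⟩
  · rw [continuousOn_iff_continuous_domRestrict]
    refine c'.congr fun x => ?_
    simp [x.2]
  · simp only [dif_pos hφ, dif_pos (hU k φ hφ)]
    exact e' k ⟨φ, hφ⟩
  · simp only [dif_pos (h hφ)]
    refine f' _ _ fun k => ?_
    rw [h0 _ (hS k⁻¹ φ hφ)]
    show k • q (k⁻¹ • φ) = q φ
    rw [he _ _ hφ, smul_inv_smul]

end Pool.Agent.Bet
end

-- part Pool.Agent.P.MP_d34769_ag.BM10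
section

/-! TASK BM10: an equivariant neighbourhood retraction onto the Grassmannian. -/

open Set Matrix

namespace Pool.Agent.Bet

variable {ι : Type} [Fintype ι] [DecidableEq ι] {κ : Type} {Ar : Type} [Finite κ]
  {c : ι → Option κ} {p : ι → Bool}

omit [Finite κ] in
lemma dg_ne_BM10 {o o' : Option κ} (h : o ≠ o') : dg c o * dg c o' = 0 := by
  rw [dg, dg, dp_mul_dp]
  exact dp_false fun i hi => h (hi.1.symm.trans hi.2)

omit [Finite κ] in
lemma dg_idem_BM10 (o : Option κ) : dg c o * dg c o = dg c o := dp_idem _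

omit [Finite κ] [Fintype ι] in
lemma dg_sum_BM10 [Fintype κ] : dg c none + ∑ v, dg c (some v) = 1 := by
  ext i j
  simp only [Matrix.add_apply, Matrix.sum_apply, dg, dp, Matrix.diagonal_apply, Matrix.one_apply]
  by_cases h : i = j
  · simp only [if_pos h]
    rcases Option.eq_none_or_eq_some (c i) with hc | ⟨v, hc⟩
    · simp [hc]
    · rw [if_neg (by simp [hc]), zero_add, Finset.sum_eq_single v (fun b _ hb => if_neg (by
        simpa [hc] using hb.symm)) (by simp), if_pos hc]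
  · simp [h]

lemma exists_s_BM10 (c : ι → Option κ) : ∃ s : Cj Unit ι → Matrix ι ι ℂ, Continuous s ∧
    (∀ x, star (s x) = s x) ∧ (∀ x o, dg c o * s x = s x * dg c o) ∧
    (∀ x, dg c none * s x = -dg c none) ∧ (∀ k ∈ Kc c, ∀ x, s (k • x) = k.1 * s x * (k⁻¹).1) ∧
    ∀ x : Cj Unit ι, star (x ()) = x () → (∀ o, dg c o * x () = x () * dg c o) →
      dg c none * x () = 0 → s x = x () + x () - 1 := by
  have := Fintype.ofFinite κ
  refine ⟨fun x => ∑ v, dg c (some v) * (x () + star (x ())) * dg c (some v) - 1, ?_, fun x => ?_,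
    fun x o => ?_, fun x => ?_, fun k hk x => ?_, fun x h1 h2 h3 => ?_⟩
  · have h := Cj.continuous_apply (ι := ι) ()
    exact (continuous_finsetSum _ fun v _ =>
      (continuous_const.mul (h.add h.star)).mul continuous_const).sub continuous_const
  · simp only [star_sub, star_sum, star_mul, star_add, star_star, dg, star_dp, star_one, mul_assoc,
      add_comm]
  · rw [mul_sub, sub_mul, mul_one, one_mul, Finset.mul_sum, Finset.sum_mul]
    refine congrArg (· - _) (Finset.sum_congr rfl fun v _ => ?_)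
    rw [← mul_assoc, ← mul_assoc, mul_assoc _ (dg c (some v)) (dg c o)]
    by_cases h : o = some v
    · rw [h, dg_idem_BM10]
    · rw [dg_ne_BM10 h, dg_ne_BM10 (Ne.symm h), zero_mul, zero_mul, mul_zero]
  · rw [mul_sub, mul_one, Finset.mul_sum, Finset.sum_eq_zero, zero_sub]
    intro v _
    rw [← mul_assoc, ← mul_assoc, dg_ne_BM10 (by simp), zero_mul, zero_mul]
  · have h1 := hk.1.1
    have h2 := ((Gc c).inv_mem hk.1).1
    have h3 : star (k⁻¹).1 = k.1 := by rw [inv_eq_star hk.2, star_star]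
    simp only [Cj.smul_apply, star_mul, h3, ← inv_eq_star hk.2, mul_sub, sub_mul, mul_one,
      Units.mul_inv, Finset.mul_sum, Finset.sum_mul]
    refine congrArg (· - _) (Finset.sum_congr rfl fun v _ => ?_)
    rw [← mul_assoc k.1 (star _), ← add_mul, ← mul_add, mul_assoc, mul_assoc (k.1 * _), ← h2,
      ← mul_assoc, ← mul_assoc, ← mul_assoc, h1]
    simp only [mul_assoc]
  · have h4 : ∀ v, dg c (some v) * (x () + x ()) * dg c (some v) =
        dg c (some v) * (x () + x ()) := fun v => by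
      rw [mul_assoc, add_mul, ← h2, ← mul_add, ← mul_assoc, dg_idem_BM10]
    simp only [h1, h4, ← Finset.sum_mul]
    rw [eq_sub_of_add_eq' (dg_sum_BM10 (c := c)), sub_mul, mul_add (dg c none), h3]
    simp

omit [Finite κ] in
lemma exists_S_BM10 {X : Type} [TopologicalSpace X] {s : X → Matrix ι ι ℂ} (hs : Continuous s) :
    ∃ S : X → GG ι, ContinuousOn S {x | (s x).det ≠ 0} ∧ ∀ x, (s x).det ≠ 0 → (S x).1 = s x := by
  classical
  have h : ∀ x, ∃ g : GG ι, (s x).det ≠ 0 → g.1 = s x := fun x => by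
    by_cases h : (s x).det ≠ 0
    · exact ⟨((Matrix.isUnit_iff_isUnit_det _).2 h.isUnit).unit, fun _ => rfl⟩
    · exact ⟨1, fun h' => absurd h' h⟩
  choose S hS using h
  refine ⟨S, ?_, hS⟩
  rw [continuousOn_iff_continuous_domRestrict, Units.continuous_iff]
  have h1 : Continuous fun x : {x | (s x).det ≠ 0} => s x := hs.comp continuous_subtype_val
  refine ⟨h1.congr fun x => (hS x x.2).symm,
    ((h1.matrix_det.inv₀ fun x => x.2).smul h1.matrix_adjugate).congr fun x => ?_⟩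
  rw [Matrix.coe_units_inv, domRestrict_apply, hS x x.2, Matrix.inv_def, Ring.inverse_eq_inv']
  rfl

omit [Finite κ] in
lemma un_BM10 {u : GG ι → GG ι} (hu : IsUn u) {S : GG ι} (h1 : ∀ o, dg c o * S.1 = S.1 * dg c o)
    (h2 : dg c none * S.1 = -dg c none) :
    (∀ o, dg c o * (u S).1 = (u S).1 * dg c o) ∧ dg c none * (u S).1 = -dg c none := by
  have e1 := dg_idem_BM10 (c := c) none
  have hd : (1 - dg c none - dg c none) * (1 - dg c none - dg c none) = 1 := by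
    simp only [mul_sub, sub_mul, mul_one, one_mul, e1]
    abel
  let d : GG ι := ⟨_, _, hd, hd⟩
  have d1 : ∀ o, dg c o * d.1 = d.1 * dg c o := fun o => by
    simp only [d, mul_sub, sub_mul, mul_one, one_mul, dg, dp_comm]
  have d2 : dg c none * d.1 = -dg c none := by
    simp only [d, mul_sub, mul_one, e1]
    abel
  have d3 : d ∈ Un ι := by
    rw [mem_Un]
    simpa only [d, star_sub, star_one, dg, star_dp] using hd
  have h3 : u (d * S) ∈ Gc c := (hu.blk κ c (d * S) ⟨fun o => by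
    rw [Units.val_mul, ← mul_assoc, d1, mul_assoc, h1, mul_assoc], by
      rw [Units.val_mul, ← mul_assoc, d2, neg_mul, h2, neg_neg]⟩).1
  have h4 := hu.equiv S d d3 1 (Un ι).one_mem
  rw [mul_one, mul_one] at h4
  rw [h4, mem_Gc, Units.val_mul] at h3
  refine ⟨fun o => d.isUnit.mul_left_cancel ?_, ?_⟩
  · rw [← mul_assoc, ← d1, mul_assoc, h3.1, mul_assoc]
  · have h5 := h3.2
    rw [← mul_assoc, d2, neg_mul] at h5
    exact neg_eq_iff_eq_neg.1 h5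

theorem exists_retraction (hp : Adm c p) : ∃ (N : Set (Cj Unit ι)) (ρ : Cj Unit ι → Cj Unit ι),
    IsOpen N ∧ Ivt (Kc c) N ∧ Gr c p ⊆ N ∧ ContinuousOn ρ N ∧ MapsTo ρ N (Gr c p) ∧
      (∀ k : Kc c, ∀ x ∈ N, ρ (k • x) = k • ρ x) ∧ ∀ x ∈ Gr c p, ρ x = x := by
  obtain ⟨u, hu⟩ := exists_un (ι := ι)
  obtain ⟨s, s1, s2, s3, s4, s5, s6⟩ := exists_s_BM10 c
  obtain ⟨S, S1, S2⟩ := exists_S_BM10 s1
  let ρ : Cj Unit ι → Cj Unit ι := fun x _ => (2⁻¹ : ℂ) • (1 + (u (S x)).1)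
  let T : Set (Cj Unit ι) := {e | ∀ v, ‖(dg c (some v) * e ()).trace - dv (c1 c p) v‖ < 1}
  have hT : IsOpen T := by
    rw [show T = ⋂ v, {e : Cj Unit ι | ‖(dg c (some v) * e ()).trace - dv (c1 c p) v‖ < 1} from
      ofPred_forall _]
    exact isOpen_iInter_of_finite fun v => isOpen_lt
      ((continuous_const.mul (Cj.continuous_apply ())).matrix_trace.sub continuous_const).norm
      continuous_const
  have hρ : ContinuousOn ρ {x | (s x).det ≠ 0} := continuousOn_pi.2 fun _ =>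
    (continuousOn_const.add ((Units.continuous_val.comp hu.cont).comp_continuousOn S1)).const_smul
      (2⁻¹ : ℂ)
  have h1 : ∀ k : Kc c, ∀ x, (s (k • x)).det = (s x).det := fun k x => by
    rw [Subgroup.smul_def, s5 _ k.2, Matrix.det_units_conj]
  have h2 : ∀ k : Kc c, ∀ x, (s x).det ≠ 0 → ρ (k • x) = k • ρ x := fun k x hx => by
    have h3 : S (k • x) = k.1 * S x * k.1⁻¹ := Units.ext (by
      rw [S2 _ (by rwa [h1]), Subgroup.smul_def, s5 _ k.2, Units.val_mul, Units.val_mul, S2 _ hx])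
    funext a
    rw [Subgroup.smul_def k (ρ x), Cj.smul_apply]
    simp only [ρ, h3, hu.equiv _ _ k.2.2 _ ((Un ι).inv_mem k.2.2),
      Units.val_mul, Matrix.mul_smul, Matrix.smul_mul, mul_add, add_mul, mul_one,
      Units.mul_inv]
  have h3 : ∀ x ∈ Gr c p, (s x).det ≠ 0 ∧ ρ x = x := fun x hx => by
    obtain ⟨g1, g2, g3, g4, -⟩ := Gr_spec hp hx
    have h4 : s x * s x = 1 := by
      simp only [s6 x g1 g3 g4, mul_sub, sub_mul, mul_add, add_mul, g2, mul_one, one_mul]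
      abel
    have h5 := (Matrix.isUnit_det_of_left_inverse h4).ne_zero
    refine ⟨h5, funext fun a => ?_⟩
    simp only [ρ]
    rw [hu.self _ (by rw [mem_Un, S2 _ h5, s2, h4]), S2 _ h5, s6 x g1 g3 g4, add_sub_cancel,
      ← two_smul ℂ, smul_smul, inv_mul_cancel₀ two_ne_zero, one_smul]
  refine ⟨{x | (s x).det ≠ 0} ∩ ρ ⁻¹' T, ρ, hρ.isOpen_inter_preimage
    (isOpen_ne_fun s1.matrix_det continuous_const) hT, fun k x hx => ⟨?_, fun v => ?_⟩,
    fun x hx => ⟨(h3 x hx).1, fun v => ?_⟩, hρ.mono inter_subset_left, fun x hx => ?_,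
    fun k x hx => h2 k x hx.1, fun x hx => (h3 x hx).2⟩
  · exact (h1 k x).trans_ne hx.1
  · rw [h2 k x hx.1, Subgroup.smul_def, Cj.smul_apply, ← mul_assoc, ← mul_assoc, k.2.1.1,
      mul_assoc k.1.1, Matrix.trace_units_conj]
    exact hx.2 v
  · rw [(h3 x hx).2, (Gr_spec hp hx).2.2.2.2 v, sub_self, norm_zero]
    exact one_pos
  · have h4 := hu.herm (S x) (by rw [S2 _ hx.1, s2])
    have h5 := mem_Un.1 (hu.mem (S x))
    obtain ⟨h6, h7⟩ := un_BM10 (c := c) hu (S := S x) (by rw [S2 _ hx.1]; exact s3 x)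
      (by rw [S2 _ hx.1, s4])
    rw [h4] at h5
    refine mem_Gr hp ?_ ?_ (fun o => ?_) ?_ hx.2
    · simp [ρ, h4]
    · simp only [ρ, Matrix.mul_smul, Matrix.smul_mul, mul_add, add_mul, mul_one, one_mul, h5]
      module
    · simp only [ρ, Matrix.mul_smul, Matrix.smul_mul, mul_add, add_mul, mul_one, one_mul, h6]
    · simp only [ρ, Matrix.mul_smul, mul_add, mul_one, h7, add_neg_cancel, smul_zero]

end Pool.Agent.Bet
end

-- part Pool.Agent.P.MP_d34769_ag.BB1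
section

/-! TASK BB1: orbit spaces. -/

open Set

namespace Pool.Agent.Bet

section

variable {X X' Y Y' Z : Type} [TopologicalSpace X] [TopologicalSpace X'] [TopologicalSpace Y]
  [TopologicalSpace Y'] [TopologicalSpace Z]

theorem liftOn_cont {π : X → Y} (hπ : IsOpenQuotientMap π) {A : Set X}
    (hA : ∀ x ∈ A, ∀ y, π y = π x → y ∈ A) {g : Y → Z} (hg : ContinuousOn (g ∘ π) A) :
    ContinuousOn g (π '' A) := by
  rw [continuousOn_iff'] at hg ⊢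
  intro t ht
  obtain ⟨V, hV, e⟩ := hg t ht
  refine ⟨π '' V, hπ.isOpenMap V hV, ?_⟩
  ext y
  constructor
  · rintro ⟨h1, a, ha, rfl⟩
    have h2 : a ∈ (g ∘ π) ⁻¹' t ∩ A := ⟨h1, ha⟩
    rw [e] at h2
    exact ⟨⟨a, h2.1, rfl⟩, a, ha, rfl⟩
  · rintro ⟨⟨v, hv, rfl⟩, a, ha, e'⟩
    have h2 : v ∈ V ∩ A := ⟨hv, hA a ha v e'.symm⟩
    rw [← e] at h2
    exact ⟨h2.1, a, ha, e'⟩

/-- maps which are inverse to each other modulo the fibres of two open quotient maps -/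
theorem quot_iso {π : X → Y} {π' : X' → Y'} (hπ : IsOpenQuotientMap π)
    (hπ' : IsOpenQuotientMap π') {S T : Set X} {S' T' : Set X'}
    (hS : ∀ x ∈ S, ∀ y, π y = π x → y ∈ S) (hS' : ∀ x ∈ S', ∀ y, π' y = π' x → y ∈ S')
    (hT : T ⊆ S) (hT' : T' ⊆ S') {j : X → X'} {i : X' → X} (cj : ContinuousOn j S)
    (ci : ContinuousOn i S') (m1 : MapsTo j S S') (m2 : MapsTo j T T') (m3 : MapsTo i S' S)
    (m4 : MapsTo i T' T) (wj : ∀ x ∈ S, ∀ y ∈ S, π x = π y → π' (j x) = π' (j y))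
    (wi : ∀ x ∈ S', ∀ y ∈ S', π' x = π' y → π (i x) = π (i y))
    (ij : ∀ x ∈ S, π (i (j x)) = π x) (ji : ∀ x ∈ S', π' (j (i x)) = π' x) :
    ∃ f : Y → Y', (∀ x ∈ S, f (π x) = π' (j x)) ∧ SIso f (π '' S) (π '' T) (π' '' S') (π' '' T') ∧
      SIso f (π '' S) ∅ (π' '' S') ∅ := by
  have key : ∀ {X X' Y Y' : Type} [TopologicalSpace X] [TopologicalSpace X'] [TopologicalSpace Y]
      [TopologicalSpace Y'] {π : X → Y} {π' : X' → Y'}, IsOpenQuotientMap π →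
      IsOpenQuotientMap π' → ∀ {S : Set X}, (∀ x ∈ S, ∀ y, π y = π x → y ∈ S) →
      ∀ {j : X → X'}, ContinuousOn j S → (∀ x ∈ S, ∀ y ∈ S, π x = π y → π' (j x) = π' (j y)) →
      ∃ f : Y → Y', (∀ x ∈ S, f (π x) = π' (j x)) ∧ ContinuousOn f (π '' S) := by
    intro X X' Y Y' _ _ _ _ π π' hπ hπ' S hS j cj wj
    have h1 : ∀ x ∈ S, π' (j (Function.surjInv hπ.surjective (π x))) = π' (j x) := fun x hx =>
      wj _ (hS x hx _ (Function.surjInv_eq _ _)) x hx (Function.surjInv_eq _ _)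
    refine ⟨fun y => π' (j (Function.surjInv hπ.surjective y)), h1, liftOn_cont hπ hS ?_⟩
    exact (hπ'.continuous.comp_continuousOn cj).congr h1
  obtain ⟨f, f1, f2⟩ := key hπ hπ' hS cj wj
  obtain ⟨k, k1, k2⟩ := key hπ' hπ hS' ci wi
  have a1 : MapsTo f (π '' S) (π' '' S') := by
    rintro _ ⟨x, hx, rfl⟩
    exact ⟨j x, m1 hx, (f1 x hx).symm⟩
  have a2 : MapsTo f (π '' T) (π' '' T') := by
    rintro _ ⟨x, hx, rfl⟩
    exact ⟨j x, m2 hx, (f1 x (hT hx)).symm⟩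
  have a3 : MapsTo k (π' '' S') (π '' S) := by
    rintro _ ⟨x, hx, rfl⟩
    exact ⟨i x, m3 hx, (k1 x hx).symm⟩
  have a4 : MapsTo k (π' '' T') (π '' T) := by
    rintro _ ⟨x, hx, rfl⟩
    exact ⟨i x, m4 hx, (k1 x (hT' hx)).symm⟩
  have e1 : ∀ y ∈ π '' S, k (f y) = y := by
    rintro _ ⟨x, hx, rfl⟩
    rw [f1 x hx, k1 _ (m1 hx), ij x hx]
  have e2 : ∀ y ∈ π' '' S', f (k y) = y := by
    rintro _ ⟨x, hx, rfl⟩
    rw [k1 x hx, f1 _ (m3 hx), ji x hx]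
  exact ⟨f, f1, SIso.of_inv (image_mono hT) (image_mono hT') f2 k2 a1 a2 a3 a4 e1 e2,
    SIso.of_inv (empty_subset _) (empty_subset _) f2 k2 a1 (mapsTo_empty _ _) a3
      (mapsTo_empty _ _) e1 e2⟩

end

variable {Γ Λ X Y Z : Type} [Group Γ] [Group Λ] [TopologicalSpace X] [TopologicalSpace Y]
  [TopologicalSpace Z] [MulAction Γ X] [ContinuousConstSMul Γ X] {S T A : Set X}

omit [TopologicalSpace X] [ContinuousConstSMul Γ X] in
theorem sat_BB1 (hS : Ivt Γ S) : ∀ x ∈ S, ∀ y, qm Γ y = qm Γ x → y ∈ S := by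
  intro x hx y e
  obtain ⟨γ, rfl⟩ := qm_eq.1 e
  exact hS γ x hx

omit [TopologicalSpace X] [ContinuousConstSMul Γ X] in
theorem qs_diff (hA : Ivt Γ A) : qs Γ (S \ A) = qs Γ S \ qs Γ A := by
  ext w
  constructor
  · rintro ⟨x, hx, rfl⟩
    exact ⟨⟨x, hx.1, rfl⟩, fun h => hx.2 ((mem_qs hA).1 h)⟩
  · rintro ⟨⟨x, hx, rfl⟩, h⟩
    exact ⟨x, ⟨hx, fun h' => h ⟨x, h', rfl⟩⟩, rfl⟩

omit [TopologicalSpace X] [ContinuousConstSMul Γ X] in
theorem qs_inter (hA : Ivt Γ A) : qs Γ (S ∩ A) = qs Γ S ∩ qs Γ A := by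
  ext w
  constructor
  · rintro ⟨x, hx, rfl⟩
    exact ⟨⟨x, hx.1, rfl⟩, x, hx.2, rfl⟩
  · rintro ⟨⟨x, hx, rfl⟩, h⟩
    exact ⟨x, ⟨hx, (mem_qs hA).1 h⟩, rfl⟩

theorem RO.qs (h : RO A S) (hA : Ivt Γ A) (hS : Ivt Γ S) : RO (qs Γ A) (qs Γ S) := by
  have _hA := hA
  obtain ⟨U, hU, e⟩ := h
  refine ⟨Bet.qs Γ U, isOpenQuotientMap_qm.isOpenMap U hU, ?_⟩
  rw [e, inter_comm, qs_inter hS, inter_comm]

theorem dsc_cont (hS : Ivt Γ S) {g : X → Z} (hg : ContinuousOn g S)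
    (hi : ∀ γ : Γ, ∀ x ∈ S, g (γ • x) = g x) : ContinuousOn (dsc Γ g) (qs Γ S) := by
  refine liftOn_cont isOpenQuotientMap_qm (sat_BB1 hS) ?_
  exact hg.congr fun x hx => dsc_qm fun γ => hi γ x hx

/-- equivariant homeomorphisms, possibly only modulo orbits -/
theorem q_eqv [MulAction Λ Y] [ContinuousConstSMul Λ Y] {S' T' : Set Y} (hS : Ivt Γ S)
    (hS' : Ivt Λ S') (hT : T ⊆ S) (hT' : T' ⊆ S') {j : X → Y} {i : Y → X} (cj : ContinuousOn j S)
    (ci : ContinuousOn i S') (m1 : MapsTo j S S') (m2 : MapsTo j T T') (m3 : MapsTo i S' S)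
    (m4 : MapsTo i T' T) (wj : ∀ γ : Γ, ∀ x ∈ S, ∃ l : Λ, l • j x = j (γ • x))
    (wi : ∀ l : Λ, ∀ y ∈ S', ∃ γ : Γ, γ • i y = i (l • y))
    (ij : ∀ x ∈ S, ∃ γ : Γ, γ • x = i (j x)) (ji : ∀ y ∈ S', ∃ l : Λ, l • y = j (i y)) :
    SIso (dsc Γ fun x => qm Λ (j x)) (qs Γ S) (qs Γ T) (qs Λ S') (qs Λ T') ∧
      SIso (dsc Γ fun x => qm Λ (j x)) (qs Γ S) ∅ (qs Λ S') ∅ ∧
      Eqv (qs Γ S) (qs Γ T) (qs Λ S') (qs Λ T') := by
  obtain ⟨f, f1, f2, f3⟩ := quot_iso (π := qm Γ) (π' := qm Λ) isOpenQuotientMap_qm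
    isOpenQuotientMap_qm (sat_BB1 hS) (sat_BB1 hS') hT hT' cj ci m1 m2 m3 m4
    (by
      intro x _ y hy e
      obtain ⟨γ, rfl⟩ := qm_eq.1 e
      exact qm_eq.2 (wj γ y hy))
    (by
      intro x _ y hy e
      obtain ⟨γ, rfl⟩ := qm_eq.1 e
      exact qm_eq.2 (wi γ y hy))
    (fun x hx => qm_eq.2 (ij x hx)) (fun y hy => qm_eq.2 (ji y hy))
  have e : EqOn f (dsc Γ fun x => qm Λ (j x)) (qs Γ S) := by
    rintro _ ⟨x, hx, rfl⟩
    rw [f1 x hx]
    exact (dsc_qm (g := fun x => qm Λ (j x)) fun γ => qm_eq.2 (wj γ x hx)).symm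
  exact ⟨f2.congr e, f3.congr e, f2.eqv f3⟩

/-- an equivariant homotopy descends -/
theorem q_htp [MulAction Λ Y] {S' : Set Y} (hS : Ivt Γ S) {H : ℝ → X → Y} (hH : Htp H S S')
    (he : ∀ t ∈ Icc (0 : ℝ) 1, ∀ γ : Γ, ∀ x ∈ S, ∃ l : Λ, l • H t x = H t (γ • x)) :
    Htp (fun t => dsc Γ fun x => qm Λ (H t x)) (qs Γ S) (qs Λ S') := by
  have e : ∀ t ∈ Icc (0 : ℝ) 1, ∀ x ∈ S,
      dsc Γ (fun x => qm Λ (H t x)) (qm Γ x) = qm Λ (H t x) := fun t ht x hx =>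
    dsc_qm (g := fun x => qm Λ (H t x)) fun γ => qm_eq.2 (he t ht γ x hx)
  constructor
  · have h1 : IsOpenQuotientMap (Prod.map (id : ℝ → ℝ) (qm Γ : X → Q Γ X)) :=
      IsOpenQuotientMap.id.prodMap isOpenQuotientMap_qm
    have h2 : Icc (0 : ℝ) 1 ×ˢ qs Γ S =
        Prod.map (id : ℝ → ℝ) (qm Γ : X → Q Γ X) '' (Icc (0 : ℝ) 1 ×ˢ S) := by
      rw [prodMap_image_prod, image_id]
      rfl
    rw [h2]
    refine liftOn_cont h1 ?_ ?_
    · rintro ⟨t, x⟩ hx ⟨t', y⟩ e'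
      obtain ⟨e1, e2⟩ := Prod.ext_iff.1 e'
      have e3 : t' = t := e1
      exact ⟨e3 ▸ hx.1, sat_BB1 hS x hx.2 y e2⟩
    · exact ((continuous_qm (Γ := Λ)).comp_continuousOn hH.cont).congr fun p hp =>
        e p.1 hp.1 p.2 hp.2
  · rintro t ht _ ⟨x, hx, rfl⟩
    exact ⟨H t x, hH.map t ht hx, (e t ht x hx).symm⟩

/-- an equivariant deformation -/
theorem q_def {S₀ T₀ : Set X} (hS : Ivt Γ S) (h1 : S₀ ⊆ S) (h2 : T₀ ⊆ T) (h3 : T ⊆ S)
    (h4 : T₀ ⊆ S₀) {H : ℝ → X → X} (hH : Htp H S S)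
    (he : ∀ t ∈ Icc (0 : ℝ) 1, ∀ γ : Γ, ∀ x ∈ S, H t (γ • x) = γ • H t x)
    (t1 : ∀ t ∈ Icc (0 : ℝ) 1, MapsTo (H t) T T) (t2 : ∀ t ∈ Icc (0 : ℝ) 1, MapsTo (H t) S₀ S₀)
    (t3 : ∀ t ∈ Icc (0 : ℝ) 1, MapsTo (H t) T₀ T₀) (e0 : ∀ x ∈ S, H 0 x = x)
    (m1 : MapsTo (H 1) S S₀) (m2 : MapsTo (H 1) T T₀) :
    SIso id (qs Γ S₀) (qs Γ T₀) (qs Γ S) (qs Γ T) := by
  have he' : ∀ t ∈ Icc (0 : ℝ) 1, ∀ γ : Γ, ∀ x ∈ S, ∃ l : Γ, l • H t x = H t (γ • x) :=
    fun t ht γ x hx => ⟨γ, (he t ht γ x hx).symm⟩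
  have e : ∀ t ∈ Icc (0 : ℝ) 1, ∀ x ∈ S,
      dsc Γ (fun x => qm Γ (H t x)) (qm Γ x) = qm Γ (H t x) := fun t ht x hx =>
    dsc_qm (g := fun x => qm Γ (H t x)) fun γ => qm_eq.2 (he' t ht γ x hx)
  have mp : ∀ t ∈ Icc (0 : ℝ) 1, ∀ {B B' : Set X}, B ⊆ S → MapsTo (H t) B B' →
      MapsTo (dsc Γ fun x => qm Γ (H t x)) (qs Γ B) (qs Γ B') := by
    rintro t ht B B' hB hm _ ⟨x, hx, rfl⟩
    exact ⟨H t x, hm hx, (e t ht x (hB hx)).symm⟩
  have o1 : (1 : ℝ) ∈ Icc (0 : ℝ) 1 := ⟨zero_le_one, le_rfl⟩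
  refine SIso.of_def (qs_mono h1) (qs_mono h2) (qs_mono h3) (qs_mono h4) (q_htp hS hH he')
    (fun t ht => mp t ht h3 (t1 t ht)) (fun t ht => mp t ht h1 (t2 t ht))
    (fun t ht => mp t ht (h2.trans h3) (t3 t ht)) ?_ (mp 1 o1 Subset.rfl m1) (mp 1 o1 h3 m2)
  rintro _ ⟨x, hx, rfl⟩
  show dsc Γ (fun x => qm Γ (H 0 x)) (qm Γ x) = qm Γ x
  rw [e 0 ⟨le_rfl, zero_le_one⟩ x hx, e0 x hx]

/-- equivariant excision -/
theorem q_exc {S₁ : Set X} (hS : Ivt Γ S) (hS₁ : Ivt Γ S₁) (hA : Ivt Γ A) (h1 : RO S₁ S)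
    (h2 : RO (S \ A) S) (h3 : S ∩ A ⊆ S₁) :
    SIso id (qs Γ S₁) (qs Γ (S₁ \ A)) (qs Γ S) (qs Γ (S \ A)) := by
  have h4 := h2.qs (hS.diff hA) hS
  rw [qs_diff hA] at h4
  rw [qs_diff hA, qs_diff hA]
  refine SIso.exc (h1.qs hS₁ hS) h4 ?_
  rw [← qs_inter hA]
  exact qs_mono h3

/-- equivariant excision, product form -/
theorem q_exc_prod [MulAction Γ Y] [ContinuousConstSMul Γ Y] {S₁ : Set X} {E : Set Y}
    (hE : Ivt Γ E) (hS : Ivt Γ S) (hS₁ : Ivt Γ S₁) (hA : Ivt Γ A) (h1 : RO S₁ S)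
    (h2 : RO (S \ A) S) (h3 : S ∩ A ⊆ S₁) :
    SIso id (qs Γ (S₁ ×ˢ E)) (qs Γ ((S₁ \ A) ×ˢ E)) (qs Γ (S ×ˢ E)) (qs Γ ((S \ A) ×ˢ E)) := by
  have e : ∀ B : Set X, (B \ A) ×ˢ E = (B ×ˢ E) \ (A ×ˢ E) := by
    intro B
    ext p
    constructor
    · rintro ⟨⟨a1, a2⟩, a3⟩
      exact ⟨⟨a1, a3⟩, fun h => a2 h.1⟩
    · rintro ⟨⟨a1, a3⟩, a2⟩
      exact ⟨⟨a1, fun h => a2 ⟨h, a3⟩⟩, a3⟩
  have h4 := h2.prod (RO.refl E)
  rw [e] at h4
  rw [e, e]
  exact q_exc (hS.prod hE) (hS₁.prod hE) (hA.prod hE) (h1.prod (RO.refl E)) h4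
    fun p hp => ⟨h3 ⟨hp.1.1, hp.2.1⟩, hp.1.2⟩

end Pool.Agent.Bet
end

-- part Pool.Agent.P.MP_d34769_ag.BB2
section

/-! TASK BB2: induction from a subgroup of a compact group, principal actions. -/

open Set

namespace Pool.Agent.Bet

theorem q_ind {𝔾 X : Type} [Group 𝔾] [TopologicalSpace 𝔾] [TopologicalSpace X] [MulAction 𝔾 X]
    [ContinuousSMul 𝔾 X] {Λ Γ : Subgroup 𝔾} (h : Λ ≤ Γ) [CompactSpace Γ] {S S₀ T : Set X}
    (hS : Ivt Γ S) (hS₀ : Ivt Λ S₀) (hT : Ivt Γ T) (h0 : S₀ ⊆ S) (h1 : T ⊆ S)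
    (hc : RO (S \ S₀) S) (cov : ∀ x ∈ S, ∃ γ : Γ, γ • x ∈ S₀)
    (stab : ∀ γ : Γ, ∀ x ∈ S₀, γ • x ∈ S₀ → ∃ l : Λ, l • x = γ • x) :
    Eqv (qs Λ S₀) (qs Λ (S₀ ∩ T)) (qs Γ S) (qs Γ T) := by
  classical
  set G : X → Q Λ X := fun x => qm Λ (if e : ∃ γ : Γ, γ • x ∈ S₀ then e.choose • x else x) with hG
  have key : ∀ x, ∀ γ : Γ, γ • x ∈ S₀ → G x = qm Λ (γ • x) := by
    intro x γ hγ
    have e : ∃ γ : Γ, γ • x ∈ S₀ := ⟨γ, hγ⟩
    have e1 : (γ * e.choose⁻¹) • e.choose • x = γ • x := by rw [mul_smul, inv_smul_smul]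
    obtain ⟨l, hl⟩ := stab (γ * e.choose⁻¹) _ e.choose_spec (e1.symm ▸ hγ)
    rw [hG]
    simp only [dif_pos e]
    rw [← e1, ← hl, qm_smul]
  have inv : ∀ δ : Γ, ∀ x ∈ S, G (δ • x) = G x := by
    intro δ x hx
    obtain ⟨γ, hγ⟩ := cov _ (hS δ x hx)
    rw [key _ γ hγ, key x (γ * δ) (by rwa [mul_smul]), mul_smul]
  have cG : ContinuousOn G S := by
    obtain ⟨U, hU, eU⟩ := hc
    refine continuousOn_iff_isClosed.2 fun t ht => ⟨Prod.snd '' {p : Γ × X |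
      p.1 • p.2 ∈ qm Λ ⁻¹' t ∩ Uᶜ}, isClosedMap_snd_of_compactSpace _ ?_, ?_⟩
    · exact ((ht.preimage continuous_qm).inter hU.isClosed_compl).preimage continuous_smul
    · ext x
      refine and_congr_left fun hx => ⟨fun hx' => ?_, ?_⟩
      · obtain ⟨γ, hγ⟩ := cov x hx
        refine ⟨(γ, x), ⟨?_, fun hu => ?_⟩, rfl⟩
        · show qm Λ (γ • x) ∈ t
          rw [← key x γ hγ]
          exact hx'
        · have : γ • x ∈ S \ S₀ := eU ▸ ⟨h0 hγ, hu⟩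
          exact this.2 hγ
      · rintro ⟨⟨γ, y⟩, ⟨a1, a2⟩, rfl⟩
        have a3 : γ • y ∈ S₀ := by
          by_contra a4
          have : γ • y ∈ S ∩ U := eU ▸ ⟨hS γ y hx, a4⟩
          exact a2 this.2
        show G y ∈ t
        rw [key y γ a3]
        exact a1
  have fl : ∀ l : Λ, ∀ x : X, qm Γ (l • x) = qm Γ x := fun l x => qm_smul (⟨l, h l.2⟩ : Γ) x
  have ef : ∀ x, dsc Λ (qm Γ) (qm Λ x) = qm Γ x := fun x => dsc_qm fun l => fl l x
  have eg : ∀ x ∈ S, dsc Γ G (qm Γ x) = G x := fun x hx => dsc_qm fun γ => inv γ x hx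
  have cf : ContinuousOn (dsc Λ (qm Γ : X → Q Γ X)) (qs Λ S₀) :=
    dsc_cont hS₀ continuous_qm.continuousOn fun l x _ => fl l x
  have cg : ContinuousOn (dsc Γ G) (qs Γ S) := dsc_cont hS cG inv
  have m1 : MapsTo (dsc Λ (qm Γ : X → Q Γ X)) (qs Λ S₀) (qs Γ S) := by
    rintro _ ⟨x, hx, rfl⟩
    exact ⟨x, h0 hx, (ef x).symm⟩
  have m2 : MapsTo (dsc Λ (qm Γ : X → Q Γ X)) (qs Λ (S₀ ∩ T)) (qs Γ T) := by
    rintro _ ⟨x, hx, rfl⟩
    exact ⟨x, hx.2, (ef x).symm⟩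
  have m3 : MapsTo (dsc Γ G) (qs Γ S) (qs Λ S₀) := by
    rintro _ ⟨x, hx, rfl⟩
    obtain ⟨γ, hγ⟩ := cov x hx
    exact ⟨γ • x, hγ, by rw [eg x hx, key x γ hγ]⟩
  have m4 : MapsTo (dsc Γ G) (qs Γ T) (qs Λ (S₀ ∩ T)) := by
    rintro _ ⟨x, hx, rfl⟩
    obtain ⟨γ, hγ⟩ := cov x (h1 hx)
    exact ⟨γ • x, ⟨hγ, hT γ x hx⟩, by rw [eg x (h1 hx), key x γ hγ]⟩
  have e1 : ∀ w ∈ qs Λ S₀, dsc Γ G (dsc Λ (qm Γ) w) = w := by
    rintro _ ⟨x, hx, rfl⟩
    rw [ef, eg x (h0 hx), key x 1 (by rwa [one_smul]), one_smul]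
  have e2 : ∀ w ∈ qs Γ S, dsc Λ (qm Γ) (dsc Γ G w) = w := by
    rintro _ ⟨x, hx, rfl⟩
    obtain ⟨γ, hγ⟩ := cov x hx
    rw [eg x hx, key x γ hγ, ef, qm_smul]
  exact (SIso.of_inv (qs_mono inter_subset_left) (qs_mono h1) cf cg m1 m2 m3 m4 e1 e2).eqv
    (SIso.of_inv (empty_subset _) (empty_subset _) cf cg m1 (mapsTo_empty _ _) m3
      (mapsTo_empty _ _) e1 e2)

variable {Γ X Y : Type} [Group Γ] [TopologicalSpace Γ] [TopologicalSpace X] [TopologicalSpace Y]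
  [MulAction Γ X] [MulAction Γ Y]

theorem Prin.pull {S : Set X} {S' : Set Y} (h : Prin Γ S') (hS : Ivt Γ S) {r : X → Y}
    (cr : ContinuousOn r S) (m : MapsTo r S S') (he : ∀ γ : Γ, ∀ x ∈ S, r (γ • x) = γ • r x) :
    Prin Γ S := by
  intro x₀ hx₀
  obtain ⟨U', hU', m', τ, cτ, eτ⟩ := h (r x₀) (m hx₀)
  obtain ⟨U, hU, eU⟩ := continuousOn_iff'.1 cr U' hU'
  have a : ∀ x ∈ S, r x ∈ U' ↔ x ∈ U := fun x hx =>
    ⟨fun hr => (eU ▸ ⟨hr, hx⟩ : x ∈ U ∩ S).1, fun hr => (eU ▸ ⟨hr, hx⟩ : x ∈ r ⁻¹' U' ∩ S).1⟩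
  refine ⟨U, hU, (a x₀ hx₀).1 m', τ ∘ r, cτ.comp (cr.mono inter_subset_left)
    fun x hx => ⟨m hx.1, (a x hx.1).2 hx.2⟩, fun γ x hx => ?_⟩
  obtain ⟨b1, b2⟩ := eτ γ (r x) ⟨m hx.1, (a x hx.1).2 hx.2⟩
  rw [← he γ x hx.1] at b1 b2
  exact ⟨(a _ (hS γ x hx.1)).1 b1, b2⟩

theorem Prin.prod_right {S : Set X} {E : Set Y} (h : Prin Γ E) : Prin Γ (S ×ˢ E) := by
  intro x₀ hx₀
  obtain ⟨U, hU, m, τ, cτ, eτ⟩ := h x₀.2 hx₀.2
  exact ⟨Prod.snd ⁻¹' U, hU.preimage continuous_snd, m, τ ∘ Prod.snd,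
    cτ.comp continuous_snd.continuousOn fun x hx => ⟨hx.1.2, hx.2⟩,
    fun γ x hx => eτ γ x.2 ⟨hx.1.2, hx.2⟩⟩

theorem Prin.prod_left {S : Set X} {E : Set Y} (h : Prin Γ S) : Prin Γ (S ×ˢ E) := by
  intro x₀ hx₀
  obtain ⟨U, hU, m, τ, cτ, eτ⟩ := h x₀.1 hx₀.1
  exact ⟨Prod.fst ⁻¹' U, hU.preimage continuous_fst, m, τ ∘ Prod.fst,
    cτ.comp continuous_fst.continuousOn fun x hx => ⟨hx.1.1, hx.2⟩,
    fun γ x hx => eτ γ x.1 ⟨hx.1.1, hx.2⟩⟩

theorem Prin.mono {S T : Set X} (h : Prin Γ S) (hT : T ⊆ S) : Prin Γ T := by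
  intro x₀ hx₀
  obtain ⟨U, hU, m, τ, cτ, eτ⟩ := h x₀ (hT hx₀)
  exact ⟨U, hU, m, τ, cτ.mono (inter_subset_inter_left _ hT),
    fun γ x hx => eτ γ x ⟨hT hx.1, hx.2⟩⟩

theorem Prin.free {S : Set X} (h : Prin Γ S) {x : X} (hx : x ∈ S) {γ : Γ} (e : γ • x = x) :
    γ = 1 := by
  obtain ⟨U, -, m, τ, -, eτ⟩ := h x hx
  have := (eτ γ x ⟨hx, m⟩).2
  rw [e] at this
  exact mul_eq_right.1 this.symm

end Pool.Agent.Bet
end

-- part Pool.Agent.P.MP_d34769_ag.BL5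
section

/-! TASK BL5: geometry of the infinite projective space. -/

open Set

namespace Pool.Agent.Bet

theorem pm_eq {v v' : ℕ → ℂ} : pm v = pm v' ↔ ∃ a : ℂ, a ≠ 0 ∧ a • v' = v := by
  refine qm_eq.trans ⟨fun ⟨γ, h⟩ => ⟨γ, γ.ne_zero, h⟩, fun ⟨a, ha, h⟩ => ⟨Units.mk0 a ha, h⟩⟩

theorem pm_smul {a : ℂ} (ha : a ≠ 0) (v : ℕ → ℂ) : pm (a • v) = pm v := by
  exact pm_eq.2 ⟨a, ha, rfl⟩

theorem isOpenQuotientMap_pm : IsOpenQuotientMap pm := by
  exact isOpenQuotientMap_qm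

theorem open1_BL5 (i : ℕ) : IsOpen {v : ℕ → ℂ | v i ≠ 0} :=
  isOpen_ne_fun (continuous_apply i) continuous_const

theorem open_BL5 (r : ℕ) : IsOpen {v : ℕ → ℂ | ∃ i < r, v i ≠ 0} := by
  have e : {v : ℕ → ℂ | ∃ i < r, v i ≠ 0} = ⋃ i ∈ Iio r, {v : ℕ → ℂ | v i ≠ 0} := by
    ext v; simp
  rw [e]
  exact isOpen_biUnion fun i _ => open1_BL5 i

theorem isOpen_Uo (r : ℕ) : IsOpen (Uo r) := by
  exact isOpenQuotientMap_pm.isOpenMap _ (open_BL5 r)

theorem Uo_zero : Uo 0 = ∅ := by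
  simp [Uo]

theorem Uo_mono {r r' : ℕ} (h : r ≤ r') : Uo r ⊆ Uo r' := by
  exact image_mono fun v ⟨i, hi, hv⟩ => ⟨i, hi.trans_le h, hv⟩

theorem Uo_subset (r : ℕ) : Uo r ⊆ Pz := by
  exact image_mono fun v ⟨i, _, hv⟩ h => hv (congrFun h i)

theorem exists_Uo {K : Set PA} (hK : IsCompact K) (h : K ⊆ Pz) : ∃ r, K ⊆ Uo r := by
  refine hK.elim_directed_cover Uo isOpen_Uo (fun w hw => ?_)
    (Monotone.directed_le fun _ _ => Uo_mono)
  obtain ⟨v, hv, rfl⟩ := h hw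
  obtain ⟨i, hi⟩ := Function.ne_iff.1 hv
  exact mem_iUnion.2 ⟨i + 1, v, ⟨i, i.lt_succ_self, hi⟩, rfl⟩

/-- scale the coordinates from `m` on -/
noncomputable def sc_BL5 (m : ℕ) (t : ℝ) (v : ℕ → ℂ) (j : ℕ) : ℂ :=
  if j < m then v j else (1 - t) * v j

theorem lt_BL5 {m j : ℕ} (t : ℝ) (v : ℕ → ℂ) (h : j < m) : sc_BL5 m t v j = v j := if_pos h

theorem cont_BL5 (m : ℕ) : Continuous fun p : ℝ × (ℕ → ℂ) => sc_BL5 m p.1 p.2 := by
  refine continuous_pi fun j => ?_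
  unfold sc_BL5
  split_ifs <;> fun_prop

theorem smul_BL5 (m : ℕ) (t : ℝ) (γ : ℂˣ) (v : ℕ → ℂ) :
    sc_BL5 m t (γ • v) = γ • sc_BL5 m t v := by
  funext j
  simp only [sc_BL5, Pi.smul_apply, Units.smul_def, smul_eq_mul]
  split_ifs
  · rfl
  · ring

theorem zero_BL5 (m : ℕ) (v : ℕ → ℂ) : sc_BL5 m 0 v = v := by
  funext j
  simp [sc_BL5]

theorem ne_BL5 (γ : ℂˣ) {v : ℕ → ℂ} {i : ℕ} (h : v i ≠ 0) : (γ • v) i ≠ 0 :=
  mul_ne_zero γ.ne_zero h

theorem ivt_BL5 (r : ℕ) : Ivt ℂˣ {v : ℕ → ℂ | ∃ i < r, v i ≠ 0} :=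
  fun γ _ ⟨i, hi, hv⟩ => ⟨i, hi, ne_BL5 γ hv⟩

theorem sub_BL5 (r : ℕ) :
    {v : ℕ → ℂ | v ≠ 0 ∧ ∀ j, r ≤ j → v j = 0} ⊆ {v : ℕ → ℂ | ∃ i < r, v i ≠ 0} := fun v hv => by
  obtain ⟨i, hi⟩ := Function.ne_iff.1 hv.1
  exact ⟨i, not_le.1 fun h => hi (hv.2 i h), hi⟩

theorem siso_CP (r : ℕ) : SIso id (CP r) ∅ (Uo r) ∅ := by
  have h := q_def (Γ := ℂˣ) (S := {v : ℕ → ℂ | ∃ i < r, v i ≠ 0}) (T := ∅)
    (S₀ := {v | v ≠ 0 ∧ ∀ j, r ≤ j → v j = 0}) (T₀ := ∅) (ivt_BL5 r) (sub_BL5 r) Subset.rfl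
    (empty_subset _) (empty_subset _) (H := sc_BL5 r)
    ⟨(cont_BL5 r).continuousOn, fun t _ v ⟨i, hi, hv⟩ => ⟨i, hi, by rwa [lt_BL5 t v hi]⟩⟩
    (fun t _ γ v _ => smul_BL5 r t γ v) (fun _ _ => mapsTo_empty _ _)
    (fun t _ v hv => ⟨fun h => ?_, fun j hj => ?_⟩) (fun _ _ => mapsTo_empty _ _)
    (fun v _ => zero_BL5 r v) (fun v ⟨i, hi, hv⟩ => ⟨fun h => ?_, fun j hj => ?_⟩)
    (mapsTo_empty _ _)
  · rw [qs_empty] at h
    exact h
  · obtain ⟨i, hi, h'⟩ := sub_BL5 r hv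
    exact h' ((lt_BL5 t v hi).symm.trans (congrFun h i))
  · rw [sc_BL5, if_neg hj.not_gt, hv.2 j hj, mul_zero]
  · exact hv ((lt_BL5 1 v hi).symm.trans (congrFun h i))
  · simp [sc_BL5, hj.not_gt]

/-- the point with coordinates `x, 1, 0, 0, ...` -/
noncomputable def ex_BL5 (r : ℕ) (x : Fin r → ℂ) (j : ℕ) : ℂ :=
  if h : j < r then x ⟨j, h⟩ else if j = r then 1 else 0

theorem excont_BL5 (r : ℕ) : Continuous (ex_BL5 r) := by
  refine continuous_pi fun j => ?_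
  unfold ex_BL5
  split_ifs <;> fun_prop

theorem div_BL5 (r : ℕ) (γ : ℂˣ) (v : ℕ → ℂ) :
    (fun i : Fin r => (γ • v) i / (γ • v) r) = fun i : Fin r => v i / v r :=
  funext fun _ => mul_div_mul_left _ _ γ.ne_zero

theorem exists_cell (r : ℕ) :
    ∃ e : (Fin r → ℂ) → PA, SIso e univ {0}ᶜ (Uo (r + 1)) (Uo r) := by
  have iO : Ivt ℂˣ {v : ℕ → ℂ | v r ≠ 0} := fun γ _ h => ne_BL5 γ h
  have iA : Ivt ℂˣ {v : ℕ → ℂ | ∃ i < r, v i ≠ 0}ᶜ := by
    rintro γ v hv ⟨i, hi, h⟩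
    exact hv ⟨i, hi, fun h' => h (by simp [h'])⟩
  have e1 : {v : ℕ → ℂ | ∃ i < r + 1, v i ≠ 0} \ {v : ℕ → ℂ | ∃ i < r, v i ≠ 0}ᶜ =
      {v : ℕ → ℂ | ∃ i < r, v i ≠ 0} := by
    rw [Set.sdiff_compl]
    exact inter_eq_right.2 fun v ⟨i, hi, hv⟩ => ⟨i, hi.trans r.lt_succ_self, hv⟩
  have h1 := q_exc (Γ := ℂˣ) (ivt_BL5 (r + 1)) iO iA
    ⟨_, open1_BL5 r, (inter_eq_right.2 fun v hv => by exact ⟨r, r.lt_succ_self, hv⟩).symm⟩
    ⟨_, open_BL5 r, Set.sdiff_compl⟩ (by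
      rintro v ⟨⟨i, hi, hv⟩, h⟩
      rcases Nat.lt_succ_iff_lt_or_eq.1 hi with h' | rfl
      · exact absurd ⟨i, h', hv⟩ h
      · exact hv)
  rw [e1, Set.sdiff_compl] at h1
  have hk : ∀ v : ℕ → ℂ, dsc ℂˣ (fun (v : ℕ → ℂ) (i : Fin r) => v i / v r) (qm ℂˣ v) =
      fun i : Fin r => v i / v r := fun v => dsc_qm fun γ => div_BL5 r γ v
  have hs : ∀ t (v : ℕ → ℂ), dsc ℂˣ (fun x => qm ℂˣ (sc_BL5 (r + 1) t x)) (qm ℂˣ v) =
      qm ℂˣ (sc_BL5 (r + 1) t v) := fun t v => dsc_qm fun γ => by rw [smul_BL5, qm_smul]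
  have hr : ∀ x : Fin r → ℂ, ex_BL5 r x r = 1 := fun x => by simp [ex_BL5]
  have hi : ∀ (x : Fin r → ℂ) (i : Fin r), ex_BL5 r x i = x i := fun x i => by simp [ex_BL5]
  refine ⟨_, h1.comp (SIso.of_he (f := fun x => qm ℂˣ (ex_BL5 r x))
    (k := dsc ℂˣ fun (v : ℕ → ℂ) (i : Fin r) => v i / v r) (H := fun _ x => x)
    (H' := fun t => dsc ℂˣ fun x => qm ℂˣ (sc_BL5 (r + 1) t x)) (subset_univ _)
    (qs_mono inter_subset_left) (continuous_qm.comp (excont_BL5 r)).continuousOn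
    (dsc_cont iO (continuousOn_pi.2 fun i => (continuous_apply _).continuousOn.div
      (continuous_apply r).continuousOn fun _ h => h) fun γ v _ => div_BL5 r γ v)
    (fun x _ => ⟨_, by simp [hr], rfl⟩) (fun x hx => ?_) (mapsTo_univ _ _) ?_
    ⟨continuous_snd.continuousOn, fun _ _ => mapsTo_univ _ _⟩
    (q_htp iO ⟨(cont_BL5 _).continuousOn, fun t _ v hv => by
      rwa [mem_ofPred_eq, lt_BL5 t v r.lt_succ_self]⟩ fun t _ γ v _ => ⟨γ, (smul_BL5 _ t γ v).symm⟩)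
    (fun _ _ => mapsTo_id _) (fun t _ => ?_) (fun _ _ => rfl) (fun x _ => ?_) ?_ ?_)⟩
  · obtain ⟨i, h⟩ := Function.ne_iff.1 hx
    exact ⟨_, ⟨by simp [hr], i, i.2, by rwa [hi]⟩, rfl⟩
  · rintro _ ⟨v, ⟨h0, i, h, hv⟩, rfl⟩ h'
    rw [hk] at h'
    exact div_ne_zero hv h0 (congrFun h' ⟨i, h⟩)
  · rintro _ ⟨v, ⟨h0, i, h, hv⟩, rfl⟩
    refine ⟨_, ⟨?_, i, h, ?_⟩, (hs t v).symm⟩
    · rwa [mem_ofPred_eq, lt_BL5 t v r.lt_succ_self]
    · rwa [lt_BL5 t v (h.trans r.lt_succ_self)]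
  · rw [hk]
    funext i
    rw [hi, hr, div_one]
  · rintro _ ⟨v, -, rfl⟩
    rw [hs, zero_BL5]
  · rintro _ ⟨v, hv, rfl⟩
    rw [hs, hk]
    refine pm_eq.2 ⟨v r, hv, funext fun j => ?_⟩
    have hv' : v r ≠ 0 := hv
    rcases lt_trichotomy j r with h | rfl | h
    · rw [lt_BL5 1 v (h.trans r.lt_succ_self), Pi.smul_apply, hi _ ⟨j, h⟩, smul_eq_mul,
        mul_div_cancel₀ _ hv']
    · rw [lt_BL5 1 v j.lt_succ_self, Pi.smul_apply, hr, smul_eq_mul, mul_one]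
    · simp [sc_BL5, ex_BL5, h.not_gt, h.ne', h.not_ge]

/-- the point with coordinates `a, v 0, v 1, ...` -/
def sh_BL5 (a : ℂ) (v : ℕ → ℂ) : ℕ → ℂ := fun j => Nat.casesOn j a v

theorem contractible_ne : ContractibleSpace ({0}ᶜ : Set (ℕ → ℂ)) := by
  have c1 : Continuous fun p : ℂ × (ℕ → ℂ) => sh_BL5 p.1 p.2 := continuous_pi fun j => by
    cases j
    · exact continuous_fst
    · exact (continuous_apply _).comp continuous_snd
  refine contractible_of_htp (x₀ := sh_BL5 1 0) (fun h => one_ne_zero (congrFun h 0))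
    (H := fun t v => (1 - (t : ℂ)) • v + (t : ℂ) • sh_BL5 0 v)
    (H' := fun t v => sh_BL5 t ((1 - (t : ℂ)) • v)) ⟨Continuous.continuousOn ?_, fun t _ v hv h => ?_⟩
    ⟨Continuous.continuousOn ?_, fun t _ v hv h => ?_⟩ (fun v _ => by simp) (fun v _ => by simp)
    fun v _ => by simp
  · have c2 : Continuous fun p : ℝ × (ℕ → ℂ) => sh_BL5 0 p.2 :=
      c1.comp (continuous_const.prodMk continuous_snd)
    fun_prop
  · have h0 : (1 - (t : ℂ)) * v 0 = 0 := by simpa [sh_BL5] using congrFun h 0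
    have h1 : ∀ j, (1 - (t : ℂ)) * v (j + 1) + t * v j = 0 := fun j => congrFun h (j + 1)
    refine hv (funext fun j => ?_)
    by_cases ht : 1 - (t : ℂ) = 0
    · have h2 := h1 j
      rwa [ht, zero_mul, zero_add, ← sub_eq_zero.1 ht, one_mul] at h2
    · induction j with
      | zero => exact (mul_eq_zero.1 h0).resolve_left ht
      | succ j ih =>
        have h2 := h1 j
        rw [ih, Pi.zero_apply, mul_zero, add_zero] at h2
        exact (mul_eq_zero.1 h2).resolve_left ht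
  · have c2 : Continuous fun p : ℝ × (ℕ → ℂ) => (((p.1 : ℂ), (1 - (p.1 : ℂ)) • p.2) : ℂ × (ℕ → ℂ)) := by
      fun_prop
    exact c1.comp c2
  · have h0 : (t : ℂ) = 0 := congrFun h 0
    refine hv (funext fun j => ?_)
    have h1 : (1 - (t : ℂ)) * v j = 0 := congrFun h (j + 1)
    rwa [h0, sub_zero, one_mul] at h1

end Pool.Agent.Bet
end

-- part Pool.Agent.P.MP_d34769_ag.BL7
section

/-! TASK BL7: coordinates in a frame, trivialisation of the projective bundle. -/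

open Set

namespace Pool.Agent.Bet

variable {W : Type} [TopologicalSpace W] {r : ℕ} {S : Set W} {V : W → Submodule ℂ (ℕ → ℂ)}
  {s : Fin r → W → ℕ → ℂ}

theorem dual_BL7 {u : Fin r → ℕ → ℂ} (h : LinearIndependent ℂ u) :
    ∃ L : (ℕ → ℂ) →ₗ[ℂ] Fin r → ℂ, Continuous L ∧ ∀ i, L (u i) = Pi.single i 1 := by
  have hsp : Submodule.span ℂ (range fun n i => u i n) = ⊤ := by
    by_contra hne
    obtain ⟨φ, h0, hφ⟩ := Submodule.exists_le_ker_of_lt_top _ (lt_top_iff_ne_top.2 hne)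
    have h1 : ∑ i, φ (Pi.single i 1) • u i = 0 := by
      funext n
      have h2 : φ (fun i => u i n) = 0 := hφ (Submodule.subset_span ⟨n, rfl⟩)
      rw [LinearMap.pi_apply_eq_sum_univ] at h2
      rw [Finset.sum_apply, Pi.zero_apply, ← h2]
      refine Finset.sum_congr rfl fun i _ => ?_
      rw [Pi.smul_apply, smul_eq_mul, smul_eq_mul, mul_comm]
      congr 2
      funext j
      simp [Pi.single_apply, eq_comm]
    have h3 := Fintype.linearIndependent_iff.1 h _ h1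
    exact h0 ((Pi.basisFun ℂ (Fin r)).ext fun i => by simpa using h3 i)
  have hex : ∀ j : Fin r, ∃ c : ℕ →₀ ℂ, (c.sum fun n a => a • fun i => u i n) = Pi.single j 1 :=
    fun j => Finsupp.mem_span_range_iff_exists_finsupp.1 (hsp ▸ Submodule.mem_top)
  choose c hc using hex
  refine ⟨LinearMap.pi fun j => ∑ n ∈ (c j).support, c j n • LinearMap.proj n,
    continuous_pi fun j => ?_, fun i => funext fun j => ?_⟩
  · simp only [LinearMap.pi_apply, LinearMap.sum_apply, LinearMap.smul_apply, LinearMap.proj_apply]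
    fun_prop
  · have := congrFun (hc j) i
    simp only [Finsupp.sum, Finset.sum_apply, Pi.smul_apply] at this
    simp only [LinearMap.pi_apply, LinearMap.sum_apply, LinearMap.smul_apply, LinearMap.proj_apply,
      this, Pi.single_apply, eq_comm]

theorem Fr.coord (h : Fr S V s) : ∃ co : W × (ℕ → ℂ) → Fin r → ℂ, ContinuousOn co (Tot S V) ∧
    ∀ x ∈ Tot S V, ∑ i, co x i • s i x.1 = x.2 := by
  have hex : ∀ x : W × (ℕ → ℂ), ∃ c : Fin r → ℂ, x ∈ Tot S V → ∑ i, c i • s i x.1 = x.2 := fun x => by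
    by_cases hx : x ∈ Tot S V
    · obtain ⟨c, hc⟩ := (Submodule.mem_span_range_iff_exists_fun ℂ).1 ((h.sp x.1 hx.1).symm ▸ hx.2)
      exact ⟨c, fun _ => hc⟩
    · exact ⟨0, fun h' => absurd h' hx⟩
  choose co hco using hex
  refine ⟨co, fun x₀ hx₀ => ?_, hco⟩
  obtain ⟨L, hL, hL1⟩ := dual_BL7 (h.li _ hx₀.1)
  let M : W × (ℕ → ℂ) → Matrix (Fin r) (Fin r) ℂ := fun x => Matrix.of fun i j => L (s i x.1) j
  have hM : ContinuousWithinAt M (Tot S V) x₀ := by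
    refine continuousWithinAt_pi.2 fun i => hL.continuousAt.comp_continuousWithinAt
      (f := fun x : W × (ℕ → ℂ) => s i x.1) ?_
    exact (h.cont i _ hx₀.1).comp continuous_fst.continuousWithinAt fun x hx => hx.1
  have hM0 : M x₀ = 1 := by
    ext i j
    simp [M, hL1, Pi.single_apply, Matrix.one_apply, eq_comm]
  have hdet : ContinuousWithinAt (fun x => (M x).det) (Tot S V) x₀ :=
    (continuous_id.matrix_det).continuousAt.comp_continuousWithinAt hM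
  have hd0 : (M x₀).det ≠ 0 := by rw [hM0]; simp
  have hadj : ContinuousWithinAt (fun x => (M x).adjugate) (Tot S V) x₀ :=
    (continuous_id.matrix_adjugate).continuousAt.comp_continuousWithinAt hM
  have hv : ContinuousWithinAt (fun x : W × (ℕ → ℂ) =>
      ((M x).det)⁻¹ • Matrix.vecMul (L x.2) (M x).adjugate) (Tot S V) x₀ := by
    refine (hdet.inv₀ hd0).smul ?_
    have hc : Continuous fun p : (Fin r → ℂ) × Matrix (Fin r) (Fin r) ℂ => Matrix.vecMul p.1 p.2 :=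
      continuous_fst.matrix_vecMul continuous_snd
    have hc' : ContinuousWithinAt (fun x : W × (ℕ → ℂ) => (L x.2, (M x).adjugate)) (Tot S V) x₀ :=
      (hL.comp continuous_snd).continuousWithinAt.prodMk hadj
    exact ContinuousAt.comp_continuousWithinAt
      (f := fun x : W × (ℕ → ℂ) => (L x.2, (M x).adjugate)) hc.continuousAt hc'
  have key : ∀ x ∈ Tot S V, (M x).det ≠ 0 →
      co x = ((M x).det)⁻¹ • Matrix.vecMul (L x.2) (M x).adjugate := fun x hx hd => by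
    have e : L x.2 = Matrix.vecMul (co x) (M x) := by
      rw [← hco x hx, map_sum]
      funext j
      simp [M, Matrix.vecMul, dotProduct]
    rw [e, Matrix.vecMul_vecMul, Matrix.mul_adjugate, Matrix.vecMul_smul, Matrix.vecMul_one,
      smul_smul, inv_mul_cancel₀ hd, one_smul]
  refine hv.congr_of_eventuallyEq ?_ (key x₀ hx₀ hd0)
  filter_upwards [self_mem_nhdsWithin, hdet.eventually_ne hd0] with x hx hd using key x hx hd

/-- the shift by `r` -/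
def sh_BL7 (r : ℕ) (v : ℕ → ℂ) : ℕ → ℂ := fun j => if j < r then 0 else v (j - r)

/-- extension by zero -/
def ex_BL7 {r : ℕ} (c : Fin r → ℂ) : ℕ → ℂ := fun j => if h : j < r then c ⟨j, h⟩ else 0

/-- the path of vectors -/
noncomputable def F_BL7 (s : Fin r → W → ℕ → ℂ) (t : ℝ) (w : W) (a : ℕ → ℂ) : ℕ → ℂ :=
  ((max 0 (1 - 2 * t) : ℝ) : ℂ) • a +
    ((t * (1 - t) : ℝ) : ℂ) • sh_BL7 r (∑ i : Fin r, a i • s i w) +
    ((max 0 (2 * t - 1) : ℝ) : ℂ) • ∑ i : Fin r, a i • s i w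

omit [TopologicalSpace W] in
theorem F_smul_BL7 (t : ℝ) (w : W) (c : ℂ) (a : ℕ → ℂ) :
    F_BL7 s t w (c • a) = c • F_BL7 s t w a := by
  funext j
  simp only [F_BL7, sh_BL7, Pi.add_apply, Pi.smul_apply, smul_eq_mul, Finset.sum_apply, mul_assoc,
    ← Finset.mul_sum]
  split_ifs <;> ring

theorem out_BL7 (a : ℕ → ℂ) : ∃ c : ℂ, c ≠ 0 ∧ c • a = (pm a).out := pm_eq.1 (qm_out (pm a))

theorem ne_BL7 {α β γ : ℂ} {a v : ℕ → ℂ} (ha : a ≠ 0) (ha' : ∀ j, r ≤ j → a j = 0) (hv : v ≠ 0)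
    (h1 : γ ≠ 0 → α = 0) (h2 : γ = 0 → α = 0 → β ≠ 0) : α • a + β • sh_BL7 r v + γ • v ≠ 0 := by
  intro h
  have e : ∀ j, α * a j + β * (if j < r then 0 else v (j - r)) + γ * v j = 0 := fun j => congrFun h j
  obtain ⟨j, hj⟩ := Function.ne_iff.1 ha
  have hjr : j < r := not_le.1 fun h' => hj (ha' j h')
  by_cases hγ : γ = 0
  · have e1 := e j
    rw [if_pos hjr, hγ] at e1
    have hα : α = 0 := (mul_eq_zero.1 (show α * a j = 0 by linear_combination e1)).resolve_right hj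
    refine hv (funext fun k => ?_)
    have e2 := e (k + r)
    rw [if_neg (by omega), hγ, hα, Nat.add_sub_cancel] at e2
    exact (mul_eq_zero.1 (show β * v k = 0 by linear_combination e2)).resolve_left (h2 hγ hα)
  · refine hv (funext fun k => ?_)
    induction k using Nat.strong_induction_on with
    | _ k ih =>
      have e2 := e k
      have e3 : (if k < r then 0 else v (k - r)) = 0 := by
        split_ifs with hk
        · rfl
        · exact ih _ (by omega)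
      rw [e3, h1 hγ] at e2
      exact (mul_eq_zero.1 (show γ * v k = 0 by linear_combination e2)).resolve_left hγ

/-- the trivialisation, and a homotopy inside projective space to the standard frame -/
theorem Fr.triv (h : Fr S V s) : ∃ J : ℝ → W × PA → PA,
    Htp J (S ×ˢ CP r) Pz ∧ (∀ x ∈ S ×ˢ CP r, J 0 x = x.2) ∧
      SIso (fun x => (x.1, J 1 x)) (S ×ˢ CP r) ∅ (PV S V) ∅ := by
  obtain ⟨co, hc, hco⟩ := h.coord
  let J : ℝ → W × PA → PA := fun t x => pm (F_BL7 s t x.1 x.2.out)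
  have hJ : ∀ t w a, J t (w, pm a) = pm (F_BL7 s t w a) := fun t w a => by
    obtain ⟨c, hc0, e⟩ := out_BL7 a
    show pm (F_BL7 s t w (pm a).out) = _
    rw [← e, F_smul_BL7, pm_smul hc0]
  have hpm : Continuous pm := isOpenQuotientMap_pm.continuous
  have hv : ∀ w ∈ S, ∀ a : ℕ → ℂ, a ≠ 0 → (∀ j, r ≤ j → a j = 0) →
      ∑ i : Fin r, a i • s i w ≠ 0 := fun w hw a ha ha' h0 => by
    refine ha (funext fun j => ?_)
    rcases lt_or_ge j r with hj | hj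
    · exact Fintype.linearIndependent_iff.1 (h.li w hw) (fun i => a i) h0 ⟨j, hj⟩
    · exact ha' j hj
  have hmem : ∀ w ∈ S, ∀ c : Fin r → ℂ, ∑ i, c i • s i w ∈ V w := fun w hw c =>
    h.sp w hw ▸ (Submodule.mem_span_range_iff_exists_fun ℂ).2 ⟨c, rfl⟩
  have huniq : ∀ w ∈ S, ∀ c : Fin r → ℂ, co (w, ∑ i, c i • s i w) = c := fun w hw c =>
    funext fun i => (Fintype.linearIndependent_iffₛ.1 (h.li w hw)) _ _ (hco _ ⟨hw, hmem w hw c⟩) i
  have hJ1 : ∀ w a, J 1 (w, pm a) = pm (∑ i : Fin r, a i • s i w) := fun w a => by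
    rw [hJ]
    congr 1
    norm_num [F_BL7]
  have hcont : ContinuousOn (fun p : ℝ × W × PA => J p.1 p.2) (univ ×ˢ S ×ˢ univ) := by
    have hπ : IsOpenQuotientMap (Prod.map id (Prod.map id pm) :
        ℝ × W × (ℕ → ℂ) → ℝ × W × PA) :=
      IsOpenQuotientMap.id.prodMap (IsOpenQuotientMap.id.prodMap isOpenQuotientMap_pm)
    refine (liftOn_cont hπ (A := univ ×ˢ S ×ˢ univ) (fun x hx y e => ?_) ?_).mono ?_
    · have e1 : y.2.1 = x.2.1 := congrArg (fun z : ℝ × W × PA => z.2.1) e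
      exact ⟨trivial, e1 ▸ hx.2.1, trivial⟩
    · have hs : ContinuousOn (fun p : ℝ × W × (ℕ → ℂ) => ∑ i : Fin r, p.2.2 i • s i p.2.1)
          (univ ×ˢ S ×ˢ univ) :=
        continuousOn_finsetSum _ fun i _ =>
          ContinuousOn.smul (f := fun p : ℝ × W × (ℕ → ℂ) => p.2.2 i) (by fun_prop)
            ((h.cont i).comp (f := fun p : ℝ × W × (ℕ → ℂ) => p.2.1) (by fun_prop)
              fun x hx => hx.2.1)
      have hsh : Continuous (sh_BL7 r) := continuous_pi fun j => by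
        unfold sh_BL7
        split_ifs <;> fun_prop
      refine (hpm.comp_continuousOn (f := fun p : ℝ × W × (ℕ → ℂ) => F_BL7 s p.1 p.2.1 p.2.2)
        ?_).congr fun p _ => hJ p.1 p.2.1 p.2.2
      unfold F_BL7
      refine ContinuousOn.fun_add (ContinuousOn.fun_add ?_ (ContinuousOn.fun_smul ?_
        (hsh.comp_continuousOn hs))) (ContinuousOn.fun_smul ?_ hs) <;> fun_prop
    · rintro ⟨t, w, x⟩ hx
      obtain ⟨a, rfl⟩ := isOpenQuotientMap_pm.surjective x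
      exact ⟨(t, w, a), ⟨trivial, hx.2.1, trivial⟩, rfl⟩
  let k : W × PA → W × PA := fun x => (x.1, pm (ex_BL7 (co (x.1, x.2.out))))
  have hk : ∀ w ∈ S, ∀ v ∈ V w, k (w, pm v) = (w, pm (ex_BL7 (co (w, v)))) := fun w hw v hv => by
    obtain ⟨c, hc0, e⟩ := out_BL7 v
    have e1 : co (w, c • v) = c • co (w, v) := by
      rw [← huniq w hw (c • co (w, v))]
      congr 2
      conv_lhs => rw [← show ∑ i, co (w, v) i • s i w = v from hco (w, v) ⟨hw, hv⟩]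
      simp [Finset.smul_sum, smul_smul]
    have e2 : ex_BL7 (c • co (w, v)) = c • ex_BL7 (co (w, v)) := funext fun j => by
      simp only [ex_BL7, Pi.smul_apply]
      split_ifs <;> simp
    show (w, pm (ex_BL7 (co (w, (pm v).out)))) = _
    rw [← e, e1, e2, pm_smul hc0]
  have hexs : ∀ w (c : Fin r → ℂ), ∑ i : Fin r, ex_BL7 c i • s i w = ∑ i, c i • s i w :=
    fun w c => Finset.sum_congr rfl fun i _ => by simp [ex_BL7]
  refine ⟨J, ⟨hcont.mono fun p hp => ⟨trivial, hp.2.1, trivial⟩, ?_⟩, ?_, SIso.of_inv (k := k)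
    (empty_subset _) (empty_subset _) ?_ ?_ ?_ (mapsTo_empty _ _) ?_ (mapsTo_empty _ _) ?_ ?_⟩
  · rintro t ht ⟨w, _⟩ ⟨hw, a, ha, rfl⟩
    rw [hJ]
    refine ⟨_, ne_BL7 ha.1 ha.2 (hv w hw a ha.1 ha.2) (fun h1 => ?_) fun h1 h2 => ?_, rfl⟩
    · have h3 : ¬ 2 * t - 1 ≤ 0 := fun h4 => h1 (by rw [max_eq_left h4, Complex.ofReal_zero])
      rw [max_eq_left (by linarith), Complex.ofReal_zero]
    · have h3 : max 0 (2 * t - 1) = 0 := by exact_mod_cast h1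
      have h4 : max 0 (1 - 2 * t) = 0 := by exact_mod_cast h2
      have h5 : t = 1 / 2 := by linarith [max_eq_left_iff.1 h3, max_eq_left_iff.1 h4]
      rw [h5]
      norm_num
  · rintro ⟨w, _⟩ ⟨-, a, -, rfl⟩
    rw [hJ]
    congr 1
    norm_num [F_BL7]
  · exact continuousOn_fst.prodMk (hcont.comp (f := fun x : W × PA => ((1 : ℝ), x)) (by fun_prop)
      fun x hx => ⟨trivial, hx.1, trivial⟩)
  · have hπ : IsOpenQuotientMap (Prod.map id pm : W × (ℕ → ℂ) → W × PA) :=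
      IsOpenQuotientMap.id.prodMap isOpenQuotientMap_pm
    have hex : Continuous (ex_BL7 (r := r)) := continuous_pi fun j => by
      unfold ex_BL7
      split_ifs <;> fun_prop
    refine (liftOn_cont hπ (A := Tot S V) (fun x hx y e => ?_) ?_).mono ?_
    · have e1 : y.1 = x.1 := congrArg (fun z : W × PA => z.1) e
      obtain ⟨c, -, e2⟩ := pm_eq.1 (congrArg (fun z : W × PA => z.2) e : pm y.2 = pm x.2)
      exact ⟨e1 ▸ hx.1, by rw [e1, ← e2]; exact Submodule.smul_mem _ _ hx.2⟩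
    · exact (continuousOn_fst.prodMk ((hpm.comp hex).comp_continuousOn hc)).congr
        fun x hx => hk x.1 hx.1 x.2 hx.2
    · rintro ⟨w, _⟩ ⟨hw, v, hv, -, rfl⟩
      exact ⟨(w, v), ⟨hw, hv⟩, rfl⟩
  · rintro ⟨w, _⟩ ⟨hw, a, ha, rfl⟩
    exact ⟨hw, _, hmem w hw _, hv w hw a ha.1 ha.2, (hJ1 w a).symm⟩
  · rintro ⟨w, _⟩ ⟨hw, v, hv, h0, rfl⟩
    rw [hk w hw v hv]
    refine ⟨hw, _, ⟨fun h1 => h0 ?_, fun j hj => dif_neg (by omega)⟩, rfl⟩
    rw [← show ∑ i, co (w, v) i • s i w = v from hco (w, v) ⟨hw, hv⟩, ← hexs, h1]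
    simp
  · rintro ⟨w, _⟩ ⟨hw, a, ha, rfl⟩
    show k (w, J 1 (w, pm a)) = _
    rw [hJ1, hk w hw _ (hmem w hw _), huniq w hw]
    congr 2
    funext j
    unfold ex_BL7
    split_ifs with hj
    · rfl
    · exact (ha.2 j (by omega)).symm
  · rintro ⟨w, _⟩ ⟨hw, v, hv, h0, rfl⟩
    rw [hk w hw v hv]
    show (w, J 1 (w, pm _)) = _
    rw [hJ1, hexs, show ∑ i, co (w, v) i • s i w = v from hco (w, v) ⟨hw, hv⟩]

end Pool.Agent.Bet
end

-- part Pool.Agent.P.MP_d34769_ag.BB4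
section

/-! TASK BB4: associated vector bundles. -/

open Set

namespace Pool.Agent.Bet

variable {Γ X F : Type} [Group Γ] [TopologicalSpace Γ] [IsTopologicalGroup Γ]
  [TopologicalSpace X] [MulAction Γ X] [ContinuousSMul Γ X] [AddCommGroup F] [Module ℂ F]
  [TopologicalSpace F] [IsTopologicalAddGroup F] [ContinuousSMul ℂ F] [T2Space F]
  [DistribMulAction Γ F] [SMulCommClass Γ ℂ F] [ContinuousSMul Γ F]
  {S : Set X} {F₀ : Submodule ℂ F} [FiniteDimensional ℂ F₀] {J : X → F →ₗ[ℂ] (ℕ → ℂ)}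

omit [TopologicalSpace Γ] [IsTopologicalGroup Γ] [ContinuousSMul Γ X] [IsTopologicalAddGroup F]
  [ContinuousSMul ℂ F] [T2Space F] [SMulCommClass Γ ℂ F] [ContinuousSMul Γ F]
  [FiniteDimensional ℂ F₀] in
theorem map_smul_BB4 (hJ : Emb Γ S F₀ J) {x : X} (hx : x ∈ S) (γ : Γ) :
    F₀.map (J (γ • x)) = F₀.map (J x) := by
  ext y
  constructor
  · rintro ⟨v, hv, rfl⟩
    refine ⟨γ⁻¹ • v, hJ.ivt _ _ hv, ?_⟩
    rw [← hJ.inv γ x hx _ (hJ.ivt _ _ hv), smul_inv_smul]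
  · rintro ⟨v, hv, rfl⟩
    exact ⟨γ • v, hJ.ivt _ _ hv, hJ.inv γ x hx v hv⟩

omit [TopologicalSpace Γ] [IsTopologicalGroup Γ] [ContinuousSMul Γ X] [IsTopologicalAddGroup F]
  [ContinuousSMul ℂ F] [T2Space F] [ContinuousSMul Γ F] [FiniteDimensional ℂ F₀] in
theorem frame_BB4 (hJ : Emb Γ S F₀ J) {r : ℕ} (b : Module.Basis (Fin r) ℂ F₀) {x : X} (hx : x ∈ S)
    (γ : Γ) : LinearIndependent ℂ (fun i => J x (γ • (b i : F))) ∧
      Submodule.span ℂ (range fun i => J x (γ • (b i : F))) = F₀.map (J x) := by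
  set L : F₀ →ₗ[ℂ] (ℕ → ℂ) := J x ∘ₗ DistribSMul.toLinearMap ℂ F γ ∘ₗ F₀.subtype with hL
  have e : (fun i => J x (γ • (b i : F))) = L ∘ b := rfl
  rw [e]
  refine ⟨b.linearIndependent.map' L (LinearMap.ker_eq_bot'.2 fun v hv => ?_), ?_⟩
  · have := hJ.inj x hx (γ • (v : F)) (hJ.ivt _ _ v.2) hv
    exact Subtype.ext ((smul_eq_zero_iff_eq γ).1 this)
  · rw [range_comp, ← Submodule.map_span, b.span_eq]
    ext y
    constructor
    · rintro ⟨v, -, rfl⟩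
      exact ⟨γ • (v : F), hJ.ivt _ _ v.2, rfl⟩
    · rintro ⟨v, hv, rfl⟩
      refine ⟨⟨γ⁻¹ • v, hJ.ivt _ _ hv⟩, trivial, ?_⟩
      change J x (γ • γ⁻¹ • v) = J x v
      rw [smul_inv_smul]

theorem asV_qm (hS : Ivt Γ S) (hJ : Emb Γ S F₀ J) {x : X} (hx : x ∈ S) :
    asV Γ F₀ J (qm Γ x) = F₀.map (J x) := by
  exact dsc_qm (g := fun x => F₀.map (J x)) (map_smul_BB4 hJ hx)

theorem assoc_lf (hS : Ivt Γ S) (hP : Prin Γ S) (hJ : Emb Γ S F₀ J) :
    LF (Module.finrank ℂ F₀) (qs Γ S) (asV Γ F₀ J) := by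
  rintro _ ⟨x₀, hx₀, rfl⟩
  obtain ⟨U, hU, hxU, τ, cτ, hτ⟩ := hP x₀ hx₀
  have hSU : Ivt Γ (S ∩ U) := fun γ x hx => ⟨hS γ x hx.1, (hτ γ x hx).1⟩
  have e : qs Γ S ∩ qm Γ '' U = qs Γ (S ∩ U) := by
    ext w
    constructor
    · rintro ⟨hw, u, hu, rfl⟩
      exact ⟨u, ⟨(mem_qs hS).1 hw, hu⟩, rfl⟩
    · rintro ⟨u, hu, rfl⟩
      exact ⟨⟨u, hu.1, rfl⟩, u, hu.2, rfl⟩
  let b := Module.finBasis ℂ F₀
  refine ⟨qm Γ '' U, isOpenQuotientMap_qm.isOpenMap U hU, ⟨x₀, hxU, rfl⟩,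
    fun i => dsc Γ fun x => J x (τ x • (b i : F)), ?_⟩
  rw [e]
  have ho : ∀ w ∈ qs Γ (S ∩ U), w.out ∈ S := fun w hw => by
    rw [← qm_out w] at hw
    exact ((mem_qs hSU).1 hw).1
  refine ⟨fun i => dsc_cont hSU ?_ fun γ x hx => ?_, fun w hw => (frame_BB4 hJ b (ho w hw) _).1,
    fun w hw => (frame_BB4 hJ b (ho w hw) _).2⟩
  · exact hJ.cont.comp (f := fun x => (x, τ x • (b i : F)))
      (continuousOn_id.prodMk (cτ.smul continuousOn_const))
      fun x hx => ⟨hx.1, hJ.ivt _ _ (b i).2⟩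
  · rw [(hτ γ x hx).2, mul_smul, hJ.inv γ x hx.1 _ (hJ.ivt _ _ (b i).2)]

theorem assoc_inv (hS : Ivt Γ S) (hP : Prin Γ S) (hJ : Emb Γ S F₀ J) :
    ∃ g : Q Γ X × (ℕ → ℂ) → Q Γ (X × F), ContinuousOn g (Tot (qs Γ S) (asV Γ F₀ J)) ∧
      ∀ x ∈ S, ∀ v ∈ F₀, g (qm Γ x, J x v) = qm Γ (x, v) := by
  let b := Module.finBasis ℂ F₀
  have hF : Fr S (fun x => F₀.map (J x)) fun i x => J x (b i) := by
    refine ⟨fun i => hJ.cont.comp (f := fun x => (x, (b i : F)))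
      (continuousOn_id.prodMk continuousOn_const) fun x hx => ⟨hx, (b i).2⟩,
      fun x hx => ?_, fun x hx => ?_⟩
    · simpa only [one_smul] using (frame_BB4 hJ b hx 1).1
    · simpa only [one_smul] using (frame_BB4 hJ b hx 1).2
  obtain ⟨co, cc, hco⟩ := hF.coord
  set G : X × (ℕ → ℂ) → Q Γ (X × F) := fun p => qm Γ (p.1, ∑ i, co p i • (b i : F)) with hG
  have h1 : ∀ x ∈ S, ∀ v ∈ F₀, G (x, J x v) = qm Γ (x, v) := fun x hx v hv => by
    have := hco (x, J x v) ⟨hx, v, hv, rfl⟩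
    have h2 := hJ.inj x hx (∑ i, co (x, J x v) i • (b i : F) - v)
      (sub_mem (Submodule.sum_mem _ fun i _ => Submodule.smul_mem _ _ (b i).2) hv) (by
        rw [map_sub, map_sum, sub_eq_zero]
        simpa only [map_smul] using this)
    rw [hG]
    simp only [sub_eq_zero.1 h2]
  have h2 : ∀ x ∈ S, ∀ v ∈ F₀, G ((qm Γ x).out, J x v) = qm Γ (x, v) := fun x hx v hv => by
    obtain ⟨γ, e⟩ := qm_eq.1 (qm_out (qm Γ x))
    rw [← e, ← hJ.inv γ x hx v hv, h1 _ (hS γ x hx) _ (hJ.ivt γ v hv)]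
    exact qm_smul γ (x, v)
  refine ⟨fun p => G (p.1.out, p.2), ?_, h2⟩
  have e : Tot (qs Γ S) (asV Γ F₀ J) =
      Prod.map (qm Γ) id '' Tot S fun x => F₀.map (J x) := by
    ext ⟨w, y⟩
    constructor
    · rintro ⟨⟨x, hx, rfl⟩, hy⟩
      exact ⟨(x, y), ⟨hx, (asV_qm hS hJ hx).le hy⟩, rfl⟩
    · rintro ⟨⟨x, y'⟩, ⟨hx, hy⟩, h⟩
      obtain ⟨rfl, rfl⟩ := Prod.mk.inj h
      exact ⟨⟨x, hx, rfl⟩, (asV_qm hS hJ hx).ge hy⟩
  rw [e]
  refine liftOn_cont (isOpenQuotientMap_qm.prodMap .id) ?_ ?_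
  · rintro ⟨x, y⟩ ⟨hx, hy⟩ ⟨x', y'⟩ h
    obtain ⟨h3, rfl⟩ := Prod.mk.inj h
    obtain ⟨γ, rfl⟩ := qm_eq.1 h3
    exact ⟨hS γ x hx, (map_smul_BB4 hJ hx γ).ge hy⟩
  · have cG : ContinuousOn G (Tot S fun x => F₀.map (J x)) :=
      continuous_qm.comp_continuousOn (continuousOn_fst.prodMk
        (continuousOn_finsetSum _ fun i _ =>
          ((continuous_apply i).comp_continuousOn cc).smul continuousOn_const))
    refine cG.congr ?_
    rintro ⟨x, y⟩ ⟨hx, v, hv, (rfl : J x v = y)⟩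
    exact (h2 x hx v hv).trans (h1 x hx v hv).symm

end Pool.Agent.Bet
end

-- part Pool.Agent.P.MP_d34769_ag.BL1
section

/-! TASK BL1: the boundary formula for the cap product. -/

open Set

namespace Pool.Agent.Bet

open G (Dl face)

variable {X : Type} [TopologicalSpace X]

/-- The simplex with the vertices `v 0, …, v a` of `σ`. -/
noncomputable def vs_BL1 {N : ℕ} (σ : C(Dl N, X)) (a : ℕ) (v : ℕ → Fin N) : TC X :=
  sx a (σ.comp ⟨stdSimplex.map fun j : Fin (a + 1) => v j, stdSimplex.continuous_map _⟩)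

/-- The list of vertices with the entry `j` removed. -/
def sk_BL1 {α : Type} (j : ℕ) (v : ℕ → α) : ℕ → α := fun l => if l < j then v l else v (l + 1)

lemma vs_congr_BL1 {N : ℕ} (σ : C(Dl N, X)) {a : ℕ} {v w : ℕ → Fin N}
    (h : ∀ j ≤ a, v j = w j) : vs_BL1 σ a v = vs_BL1 σ a w := by
  have : (fun j : Fin (a + 1) => v j) = fun j : Fin (a + 1) => w j :=
    funext fun j => h j (Nat.lt_succ_iff.1 j.2)
  simp only [vs_BL1, this]

lemma vs_comp_BL1 {N a b : ℕ} (σ : C(Dl N, X)) (v w : ℕ → Fin N) (g : Fin (b + 1) → Fin (a + 1))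
    (h : ∀ j, v (g j) = w j) :
    sx b ((σ.comp ⟨stdSimplex.map fun j : Fin (a + 1) => v j, stdSimplex.continuous_map _⟩).comp
      ⟨stdSimplex.map g, stdSimplex.continuous_map _⟩) = vs_BL1 σ b w := by
  unfold vs_BL1
  refine congrArg (sx b) (ContinuousMap.ext fun t => ?_)
  change σ (stdSimplex.map _ (stdSimplex.map _ t)) = σ (stdSimplex.map _ t)
  rw [stdSimplex.map_comp_apply]
  exact congrArg (fun u => σ (stdSimplex.map u t)) (funext h)

lemma D_vs_BL1 {N : ℕ} (σ : C(Dl N, X)) (a : ℕ) (v : ℕ → Fin N) :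
    D (vs_BL1 σ (a + 1) v) =
      ∑ j ∈ Finset.range (a + 2), (-1 : ℚ) ^ j • vs_BL1 σ a (sk_BL1 j v) := by
  rw [vs_BL1, D_sx_succ, Finset.sum_range]
  refine Finset.sum_congr rfl fun i _ => congrArg _ (vs_comp_BL1 σ v _ _ fun j => ?_)
  unfold sk_BL1 Fin.succAbove
  by_cases h : (j : ℕ) < i
  · rw [if_pos h, if_pos (by simpa [Fin.lt_def] using h)]; rfl
  · rw [if_neg h, if_neg (by simpa [Fin.lt_def] using h)]; rfl

lemma D_vs_zero_BL1 {N : ℕ} (σ : C(Dl N, X)) (v : ℕ → Fin N) : D (vs_BL1 σ 0 v) = 0 :=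
  D_sx_zero _

lemma eps_vs_BL1 {N : ℕ} (σ : C(Dl N, X)) (a : ℕ) (v : ℕ → Fin N) :
    eps (vs_BL1 σ a v) = (-1 : ℚ) ^ a • vs_BL1 σ a v := eps_sx _ _

lemma cap_vs_BL1 (ω : TC X →ₗ[ℚ] ℚ) {N : ℕ} (σ : C(Dl N, X)) (k : ℕ) (v : ℕ → Fin N) :
    cap ω (vs_BL1 σ k v) = ∑ i ∈ Finset.range (k + 1),
      ω (vs_BL1 σ (k - i) fun l => v (i + l)) • vs_BL1 σ i v := by
  rw [vs_BL1, cap_sx, Finset.sum_range]
  refine Finset.sum_congr rfl fun i _ => ?_
  exact congrArg₂ (fun a b => ω a • b) (vs_comp_BL1 σ v (fun l => v (i + l)) _ fun _ => rfl)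
    (vs_comp_BL1 σ v v _ fun _ => rfl)

lemma cap_term_BL1 (ω : TC X →ₗ[ℚ] ℚ) {N : ℕ} (σ : C(Dl N, X)) (i d : ℕ) (v : ℕ → Fin N) :
    ∑ j ∈ Finset.range (i + 1 + (d + 1)), (-1 : ℚ) ^ j •
      ω (vs_BL1 σ d fun l => sk_BL1 j v (i + l)) • vs_BL1 σ i (sk_BL1 j v) =
    ω (vs_BL1 σ d fun l => v (i + 1 + l)) • D (vs_BL1 σ (i + 1) v) +
      ω (D (vs_BL1 σ (d + 1) fun l => v (i + l))) • (-1 : ℚ) ^ i • vs_BL1 σ i v := by
  rw [Finset.sum_range_add, D_vs_BL1, D_vs_BL1, Finset.sum_range_succ _ (i + 1),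
    Finset.sum_range_succ' _ (d + 1), smul_add, map_add, add_smul, Finset.smul_sum, map_sum,
    Finset.sum_smul]
  have e1 : vs_BL1 σ i (sk_BL1 (i + 1) v) = vs_BL1 σ i v :=
    vs_congr_BL1 σ fun j hj => if_pos (by omega)
  have e2 : vs_BL1 σ d (sk_BL1 0 fun l => v (i + l)) = vs_BL1 σ d fun l => v (i + 1 + l) :=
    vs_congr_BL1 σ fun j _ => (if_neg (by omega)).trans (congrArg v (by omega))
  have e3 : ∀ j ∈ Finset.range (i + 1), (-1 : ℚ) ^ j •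
      ω (vs_BL1 σ d fun l => sk_BL1 j v (i + l)) • vs_BL1 σ i (sk_BL1 j v) =
      ω (vs_BL1 σ d fun l => v (i + 1 + l)) • (-1 : ℚ) ^ j • vs_BL1 σ i (sk_BL1 j v) := by
    intro j hj
    have hj' := Finset.mem_range.1 hj
    have a1 : (vs_BL1 σ d fun l => sk_BL1 j v (i + l)) = vs_BL1 σ d fun l => v (i + 1 + l) :=
      vs_congr_BL1 σ fun l _ => (if_neg (by omega)).trans (congrArg v (by omega))
    rw [smul_comm, a1]
  have e4 : ∀ m ∈ Finset.range (d + 1), (-1 : ℚ) ^ (i + 1 + m) •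
      ω (vs_BL1 σ d fun l => sk_BL1 (i + 1 + m) v (i + l)) • vs_BL1 σ i (sk_BL1 (i + 1 + m) v) =
      ω ((-1 : ℚ) ^ (m + 1) • vs_BL1 σ d (sk_BL1 (m + 1) fun l => v (i + l))) •
        (-1 : ℚ) ^ i • vs_BL1 σ i v := by
    intro m _
    have a1 : vs_BL1 σ i (sk_BL1 (i + 1 + m) v) = vs_BL1 σ i v :=
      vs_congr_BL1 σ fun j hj => if_pos (by omega)
    have a2 : (vs_BL1 σ d fun l => sk_BL1 (i + 1 + m) v (i + l)) =
        vs_BL1 σ d (sk_BL1 (m + 1) fun l => v (i + l)) := by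
      refine vs_congr_BL1 σ fun j _ => ?_
      unfold sk_BL1
      by_cases h : j < m + 1
      · rw [if_pos h, if_pos (by omega)]
      · rw [if_neg h, if_neg (by omega)]; rfl
    rw [a1, a2, map_smul, smul_smul, smul_smul, smul_eq_mul]
    congr 1
    ring
  rw [Finset.sum_congr rfl e3, Finset.sum_congr rfl e4, e1, e2, pow_zero, one_smul, pow_succ,
    mul_neg_one, neg_smul, smul_neg]
  abel

lemma cap_D_vs_BL1 (ω : TC X →ₗ[ℚ] ℚ) {N : ℕ} (σ : C(Dl N, X)) (k : ℕ) (v : ℕ → Fin N) :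
    cap ω (D (vs_BL1 σ k v)) =
      D (cap ω (vs_BL1 σ k v)) + eps (cap (ω ∘ₗ D) (vs_BL1 σ k v)) := by
  cases k with
  | zero => simp [cap_vs_BL1, D_vs_zero_BL1]
  | succ k =>
    rw [cap_vs_BL1 ω, cap_vs_BL1 (ω ∘ₗ D), Finset.sum_range_succ' _ (k + 1),
      Finset.sum_range_succ _ (k + 1), D_vs_BL1]
    simp only [map_add, map_sum, map_smul, D_vs_zero_BL1, Nat.sub_self, LinearMap.comp_apply,
      map_zero, smul_zero, zero_smul, add_zero, cap_vs_BL1, eps_vs_BL1, Finset.smul_sum]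
    rw [Finset.sum_comm, ← Finset.sum_add_distrib]
    refine Finset.sum_congr rfl fun i hi => ?_
    obtain ⟨d, rfl⟩ : ∃ d, k = i + d := ⟨k - i, by have := Finset.mem_range.1 hi; omega⟩
    have e1 : i + d - i = d := by omega
    have e2 : i + d + 1 - (i + 1) = d := by omega
    have e3 : i + d + 1 - i = d + 1 := by omega
    have e4 : i + d + 2 = i + 1 + (d + 1) := by omega
    rw [e1, e2, e3, e4]
    exact cap_term_BL1 ω σ i d v

theorem cap_D (ω : TC X →ₗ[ℚ] ℚ) (c : TC X) :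
    cap ω (D c) = D (cap ω c) + eps (cap (ω ∘ₗ D) c) := by
  refine LinearMap.congr_fun (TC.ext (f := cap ω ∘ₗ D)
    (g := D ∘ₗ cap ω + eps ∘ₗ cap (ω ∘ₗ D)) fun k σ => ?_) c
  have e : sx k σ = vs_BL1 σ k fun j => ⟨min j k, by omega⟩ := by
    unfold vs_BL1
    refine congrArg (sx k) (ContinuousMap.ext fun t => ?_)
    have : (fun j : Fin (k + 1) => (⟨min j k, by omega⟩ : Fin (k + 1))) = id :=
      funext fun j => Fin.ext (min_eq_left (Nat.lt_succ_iff.1 j.2))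
    change σ t = σ (stdSimplex.map _ t)
    rw [this, stdSimplex.map_id_apply]
  rw [e]
  exact cap_D_vs_BL1 ω σ k _

end Pool.Agent.Bet
end

-- part Pool.Agent.P.MP_d34769_ag.BA4
section

/-! TASK BA4: the algebra behind the Thom isomorphism, extension of functionals. -/

open Set

namespace Pool.Agent.Bet

theorem rank_map_BA4 {V V' V'' : Type} [AddCommGroup V] [Module ℚ V] [AddCommGroup V']
    [Module ℚ V'] [AddCommGroup V''] [Module ℚ V''] (X : Submodule ℚ V) (α : V →ₗ[ℚ] V')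
    (β : V →ₗ[ℚ] V'') (h : ∀ x ∈ X, α x = 0 ↔ β x = 0) :
    Module.rank ℚ (X.map α) = Module.rank ℚ (X.map β) := by
  have hk : LinearMap.ker (α.domRestrict X) = LinearMap.ker (β.domRestrict X) := by
    ext x
    exact h x.1 x.2
  rw [← LinearMap.range_domRestrict, ← LinearMap.range_domRestrict,
    ← (α.domRestrict X).quotKerEquivRange.rank_eq, ← (β.domRestrict X).quotKerEquivRange.rank_eq]
  exact (Submodule.quotEquivOfEq _ _ hk).rank_eq

theorem factor_BA4 {V V' : Type} [AddCommGroup V] [Module ℚ V] [AddCommGroup V'] [Module ℚ V']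
    (X : Submodule ℚ V) (g : V →ₗ[ℚ] V') (ω : V →ₗ[ℚ] ℚ) (h : ∀ x ∈ X, g x = 0 → ω x = 0) :
    ∃ ω' : V' →ₗ[ℚ] ℚ, ∀ x ∈ X, ω' (g x) = ω x := by
  have h1 : ω.domRestrict X ∈ (LinearMap.ker (g.domRestrict X)).dualAnnihilator := by
    rw [Submodule.mem_dualAnnihilator]
    exact fun x hx => h x.1 x.2 hx
  rw [← LinearMap.range_dualMap_eq_dualAnnihilator_ker] at h1
  obtain ⟨ω', hω'⟩ := h1
  exact ⟨ω', fun x hx => LinearMap.congr_fun hω' ⟨x, hx⟩⟩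

section

variable {C C' : Type} [AddCommGroup C] [Module ℚ C] [AddCommGroup C'] [Module ℚ C']
  [Dif C] [Dif C'] {Λ : ℕ → C →ₗ[ℚ] C'} {r : ℕ} {P A B N : Submodule ℚ C} {S T : Submodule ℚ C'}

theorem key1_BA4 (hNA : Pr N A) (hNB : Pr N B) (hN : Acyc N (A ⊔ B)) {n : C} (hn : n ∈ ZZ N A) :
    ∃ b ∈ ZZ B (B ⊓ A), n - b ∈ BB N A := by
  obtain ⟨n', hn', h⟩ := mem_BB.1 (hN (mem_ZZ.2 ⟨hn.1, Submodule.mem_sup_left hn.2⟩))
  obtain ⟨a, ha, b, hb, e⟩ := Submodule.mem_sup.1 h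
  refine ⟨b, mem_ZZ.2 ⟨hb, hNB.sB b hb, ?_⟩, mem_BB.2 ⟨n', hn', ?_⟩⟩
  · have e1 : b = n - D n' - a := by rw [← e]; abel
    have e2 : D b = D n - D a := by rw [e1, map_sub, map_sub, DD, sub_zero]
    rw [e2]
    exact A.sub_mem hn.2 (hNA.sB a ha)
  · have e1 : n - b - D n' = a := by rw [sub_right_comm, ← e]; abel
    rwa [e1]

/-- a relative cycle of `(P, A)` which bounds modulo `N` comes from `B` -/
theorem key1'_BA4 (hPN : Pr P N) (hNA : Pr N A) (hNB : Pr N B) (hN : Acyc N (A ⊔ B)) {x : C}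
    (hx : D x ∈ A) (hb : x ∈ BB P N) : ∃ b ∈ ZZ B (B ⊓ A), x - b ∈ BB P A := by
  obtain ⟨p, hp, hn⟩ := mem_BB.1 hb
  have h1 : x - D p ∈ ZZ N A := mem_ZZ.2 ⟨hn, by rwa [map_sub, DD, sub_zero]⟩
  obtain ⟨b, hb1, hb2⟩ := key1_BA4 hNA hNB hN h1
  refine ⟨b, hb1, ?_⟩
  have e : x - b = x - D p - b + D p := by abel
  rw [e]
  exact add_mem (BB_mono hPN.le le_rfl hb2) (D_mem_BB hp)

theorem key2_BA4 (hPN : Pr P N) (hNA : Pr N A) (hNB : Pr N B) (hN : Acyc N (A ⊔ B))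
    (h1 : MIso Λ (r + 1) P A S T) (h2 : MIso Λ r B (B ⊓ A) S T) :
    Srj LinearMap.id P A P N := by
  refine Inj.srj (fun n hn hb => ?_) hPN hNA
  obtain ⟨b, hb1, hb2⟩ := key1_BA4 hNA hNB hN hn
  have h3 : b ∈ BB P A := by
    have e : b = n - (n - b) := by abel
    rw [e]
    exact sub_mem hb (BB_mono hPN.le le_rfl hb2)
  have h4 := h2.inj b hb1 fun i hi => (h1.map i (by omega)).2 b h3
  have e : n = n - b + b := by abel
  rw [e]
  exact add_mem hb2 (BB_mono hNB.le inf_le_right h4)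

theorem key3_BA4 (hPN : Pr P N) (hNA : Pr N A) (hNB : Pr N B) (hN : Acyc N (A ⊔ B))
    (h1 : MIso Λ (r + 1) P A S T) (h2 : MIso Λ r B (B ⊓ A) S T) {x : C} (hx : x ∈ ZZ P A)
    (hΛ : ∀ i < r, Λ i x ∈ BB S T) (hb : x ∈ BB P N) : x ∈ BB P A := by
  obtain ⟨b, hb1, hb2⟩ := key1'_BA4 hPN hNA hNB hN hx.2 hb
  have h4 := h2.inj b hb1 fun i hi => by
    have e : Λ i b = Λ i x - Λ i (x - b) := by rw [map_sub]; abel
    rw [e]
    exact sub_mem (hΛ i hi) ((h1.map i (by omega)).2 _ hb2)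
  have e : x = x - b + b := by abel
  rw [e]
  exact add_mem hb2 (BB_mono (hNB.le.trans hPN.le) inf_le_right h4)

theorem srj_last_BA4 (h1 : MIso Λ (r + 1) P A S T) {y : C'} (hy : y ∈ ZZ S T) :
    ∃ x ∈ ZZ P A, (∀ i < r, Λ i x ∈ BB S T) ∧ Λ r x - y ∈ BB S T := by
  obtain ⟨x, hx, h⟩ := h1.srj (fun i => if i = r then y else 0) fun i _ => by
    split_ifs
    · exact hy
    · exact zero_mem _
  refine ⟨x, hx, fun i hi => ?_, ?_⟩
  · have := h i (by omega)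
    rwa [if_neg hi.ne, sub_zero] at this
  · have := h r (by omega)
    rwa [if_pos rfl] at this

end

section

variable {C C' : Type} [AddCommGroup C] [Module ℚ C] [AddCommGroup C'] [Module ℚ C']
  [DG C] [DG C'] {Λ : ℕ → C →ₗ[ℚ] C'} {r : ℕ} {P A B N : Submodule ℚ C} {S T : Submodule ℚ C'}

theorem deg_mem_BA4 {d : ℕ} {f : C →ₗ[ℚ] C'} (hd : Deg d f) {W : Submodule ℚ C'} (hW : Grd W)
    {x : C} (hx : f x ∈ W) (m : ℕ) : f (pr m x) ∈ W := by
  rcases lt_or_ge m d with h | h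
  · rw [hd.2 m h]
    exact zero_mem _
  · obtain ⟨k, rfl⟩ : ∃ k, m = k + d := ⟨m - d, by omega⟩
    rw [hd.1]
    exact hW k _ hx

theorem key4_BA4 (hPN : GPr P N) (hNA : GPr N A) (hNB : GPr N B) (hST : GPr S T)
    (hN : Acyc N (A ⊔ B)) (hd : ∀ i ≤ r, Deg (2 * i) (Λ i)) (h1 : MIso Λ (r + 1) P A S T)
    (h2 : MIso Λ r B (B ⊓ A) S T) (m : ℕ) {z : C} (hz : z ∈ ZZ P N) (hm : pr m z = z) :
    ∃ x ∈ ZZ P A, pr m x = x ∧ (∀ i < r, Λ i x ∈ BB S T) ∧ x - z ∈ BB P N := by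
  have hPA : GPr P A := ⟨⟨hNA.le.trans hPN.le, hPN.sA, hNA.sB⟩, hPN.gA, hNA.gB⟩
  obtain ⟨x, hx, hxz⟩ := key2_BA4 hPN.toPr hNA.toPr hNB.toPr hN h1 h2 z hz
  obtain ⟨w, hw, hΛ⟩ := h2.srj (fun i => Λ i x) fun i hi => (h1.map i (by omega)).1 x hx
  have h3 : x - w ∈ ZZ P A := sub_mem hx (ZZ_mono (hNB.le.trans hPN.le) inf_le_right hw)
  refine ⟨pr m (x - w), hPA.grd_ZZ m _ h3, by rw [pr_pr, if_pos rfl], fun i hi => ?_, ?_⟩
  · refine deg_mem_BA4 (hd i hi.le) hST.grd_BB ?_ m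
    have := neg_mem (hΛ i hi)
    rwa [neg_sub, ← map_sub] at this
  · have h4 : x - w - z ∈ BB P N := by
      rw [sub_right_comm]
      exact sub_mem hxz (mem_BB_of_mem (hNB.le hw.1))
    have := hPN.grd_BB m _ h4
    rwa [map_sub, hm] at this

theorem thom_alg (hPN : GPr P N) (hNA : GPr N A) (hNB : GPr N B) (hST : GPr S T)
    (hN : Acyc N (A ⊔ B)) (hd : ∀ i ≤ r, Deg (2 * i) (Λ i)) (h1 : MIso Λ (r + 1) P A S T)
    (h2 : MIso Λ r B (B ⊓ A) S T) :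
    (∀ k, rk P N (k + 2 * r) = rk S T k) ∧ ∀ k < 2 * r, rk P N k = 0 := by
  have hPA : GPr P A := ⟨⟨hNA.le.trans hPN.le, hPN.sA, hNA.sB⟩, hPN.gA, hNA.gB⟩
  have hlast : ∀ x ∈ ZZ P A, (∀ i < r, Λ i x ∈ BB S T) → Λ r x ∈ BB S T → x ∈ BB P N :=
    fun x hx ha hb => BB_mono le_rfl hNA.le (h1.inj x hx fun i hi => by
      rcases Nat.lt_succ_iff_lt_or_eq.1 hi with h | h
      · exact ha i h
      · rw [h]; exact hb)
  refine ⟨fun k => ?_, fun k hk => rk_eq_zero.2 fun z hz hm => ?_⟩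
  · let X : Submodule ℚ C := (ZZ P A ⊓ LinearMap.range (pr (k + 2 * r) : C →ₗ[ℚ] C)) ⊓
      ⨅ i : Fin r, (BB S T).comap (Λ i)
    have hX : ∀ x, x ∈ X ↔ x ∈ ZZ P A ∧ pr (k + 2 * r) x = x ∧ ∀ i < r, Λ i x ∈ BB S T := by
      intro x
      simp only [X, Submodule.mem_inf, mem_range_pr, Submodule.mem_iInf, Submodule.mem_comap,
        and_assoc]
      exact and_congr_right fun _ => and_congr_right fun _ =>
        ⟨fun h i hi => h ⟨i, hi⟩, fun h i => h i i.2⟩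
    have e1 : (ZZ P N ⊓ LinearMap.range (pr (k + 2 * r) : C →ₗ[ℚ] C)).map (BB P N).mkQ =
        X.map (BB P N).mkQ := by
      refine le_antisymm ?_ (Submodule.map_mono fun x hx => ?_)
      · rintro _ ⟨z, hz, rfl⟩
        obtain ⟨x, a1, a2, a3, a4⟩ := key4_BA4 hPN hNA hNB hST hN hd h1 h2 (k + 2 * r) hz.1
          (mem_range_pr.1 hz.2)
        exact ⟨x, (hX x).2 ⟨a1, a2, a3⟩, (Submodule.Quotient.eq _).2 a4⟩
      · obtain ⟨a1, a2, -⟩ := (hX x).1 hx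
        exact ⟨ZZ_mono le_rfl hNA.le a1, mem_range_pr.2 a2⟩
    have e2 : (ZZ S T ⊓ LinearMap.range (pr k : C' →ₗ[ℚ] C')).map (BB S T).mkQ =
        X.map ((BB S T).mkQ ∘ₗ Λ r) := by
      refine le_antisymm ?_ ?_
      · rintro _ ⟨y, hy, rfl⟩
        obtain ⟨x, a1, a2, a3⟩ := srj_last_BA4 h1 hy.1
        refine ⟨pr (k + 2 * r) x, (hX _).2 ⟨hPA.grd_ZZ _ _ a1, by rw [pr_pr, if_pos rfl],
          fun i hi => deg_mem_BA4 (hd i hi.le) hST.grd_BB (a2 i hi) _⟩,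
          (Submodule.Quotient.eq _).2 ?_⟩
        have := hST.grd_BB k _ a3
        rwa [map_sub, mem_range_pr.1 hy.2, ← (hd r le_rfl).1] at this
      · rintro _ ⟨x, hx, rfl⟩
        obtain ⟨a1, a2, -⟩ := (hX x).1 hx
        refine ⟨Λ r x, ⟨(h1.map r (by omega)).1 x a1, mem_range_pr.2 ?_⟩, rfl⟩
        rw [← (hd r le_rfl).1, a2]
    unfold rk
    rw [e1, e2]
    refine rank_map_BA4 X _ _ fun x hx => ?_
    obtain ⟨a1, -, a3⟩ := (hX x).1 hx
    rw [LinearMap.comp_apply, Submodule.mkQ_apply, Submodule.mkQ_apply,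
      Submodule.Quotient.mk_eq_zero, Submodule.Quotient.mk_eq_zero]
    exact ⟨fun h => (h1.map r (by omega)).2 x
      (key3_BA4 hPN.toPr hNA.toPr hNB.toPr hN h1 h2 a1 a3 h), hlast x a1 a3⟩
  · obtain ⟨x, a1, a2, a3, a4⟩ := key4_BA4 hPN hNA hNB hST hN hd h1 h2 k hz hm
    have h3 : x ∈ BB P N := hlast x a1 a3 (by
      rw [← a2, (hd r le_rfl).2 k hk]
      exact zero_mem _)
    have e : z = x - (x - z) := by abel
    rw [e]
    exact sub_mem h3 a4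

theorem thom_onto (hPN : Pr P N) (hNA : Pr N A) (hNB : Pr N B) (hST : Pr S T)
    (hN : Acyc N (A ⊔ B)) (h1 : MIso Λ (r + 1) P A S T) (h2 : MIso Λ r B (B ⊓ A) S T)
    (a1 : MIso Λ (r + 1) P ⊥ S ⊥) (a2 : MIso Λ r B ⊥ S ⊥) (ho : Srj LinearMap.id P ⊥ P N) :
    Srj LinearMap.id S ⊥ S T := by
  intro y hy
  obtain ⟨x, hx, b1, b2⟩ := srj_last_BA4 h1 hy
  obtain ⟨z, hz, hzx⟩ := ho x (ZZ_mono le_rfl hNA.le hx)
  have hzx' : z - x ∈ BB P N := hzx
  have hz0 : D z = 0 := (Submodule.mem_bot ℚ).1 hz.2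
  have hD : D (z - x) ∈ A := by
    rw [map_sub, hz0, zero_sub]
    exact neg_mem hx.2
  obtain ⟨b, hb1, hb2⟩ := key1'_BA4 hPN hNA hNB hN hD hzx'
  obtain ⟨w, hw, hΛ⟩ := a2.srj (fun i => Λ i z) fun i hi => (a1.map i (by omega)).1 z hz
  have h3 : b - w ∈ BB B (B ⊓ A) := h2.inj _ (sub_mem hb1 (ZZ_mono le_rfl bot_le hw)) fun i hi => by
    have e : Λ i (b - w) = -(Λ i w - Λ i z) - Λ i x - Λ i (z - x - b) := by
      simp only [map_sub]
      abel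
    rw [e]
    exact sub_mem (sub_mem (neg_mem (BB_mono le_rfl bot_le (hΛ i hi))) (b1 i hi))
      ((h1.map i (by omega)).2 _ hb2)
  have h4 : z - w - x ∈ BB P A := by
    have e : z - w - x = z - x - b + (b - w) := by abel
    rw [e]
    exact add_mem hb2 (BB_mono (hNB.le.trans hPN.le) inf_le_right h3)
  refine ⟨Λ r (z - w), (a1.map r (by omega)).1 _
    (sub_mem hz (ZZ_mono (hNB.le.trans hPN.le) le_rfl hw)), ?_⟩
  have e : Λ r (z - w) - y = Λ r (z - w - x) + (Λ r x - y) := by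
    simp only [map_sub]
    abel
  change Λ r (z - w) - y ∈ BB S T
  rw [e]
  exact add_mem ((h1.map r (by omega)).2 _ h4) b2

end

section

variable {C C' : Type} [AddCommGroup C] [Module ℚ C] [AddCommGroup C'] [Module ℚ C']
  [Dif C] [Dif C'] {f : C →ₗ[ℚ] C'} {A B : Submodule ℚ C} {A' B' : Submodule ℚ C'}

/-- extension of a cocycle along a map which is injective on homology -/
theorem exists_ext (hi : Inj f A B A' B') {ω : C →ₗ[ℚ] ℚ} (hω : ∀ c ∈ BB A B, ω c = 0) :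
    ∃ ω' : C' →ₗ[ℚ] ℚ, (∀ c ∈ BB A' B', ω' c = 0) ∧ ∀ z ∈ ZZ A B, ω' (f z) = ω z := by
  obtain ⟨ω₁, h₁⟩ := factor_BA4 (ZZ A B) ((BB A' B').mkQ ∘ₗ f) ω fun z hz h0 =>
    hω z (hi z hz ((Submodule.Quotient.mk_eq_zero _).1 h0))
  refine ⟨ω₁ ∘ₗ (BB A' B').mkQ, fun c hc => ?_, h₁⟩
  rw [LinearMap.comp_apply, Submodule.mkQ_apply, (Submodule.Quotient.mk_eq_zero _).2 hc, map_zero]

/-- a functional vanishing on cycles is a coboundary -/
theorem exists_cobd (h : Pr A B) {ω : C →ₗ[ℚ] ℚ} (hω : ∀ z ∈ ZZ A B, ω z = 0) :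
    ∃ β : C →ₗ[ℚ] ℚ, (∀ b ∈ B, β b = 0) ∧ ∀ a ∈ A, ω a = β (D a) := by
  obtain ⟨ω₁, h₁⟩ := factor_BA4 A (B.mkQ ∘ₗ D) ω fun z hz h0 =>
    hω z (mem_ZZ.2 ⟨hz, (Submodule.Quotient.mk_eq_zero _).1 h0⟩)
  refine ⟨ω₁ ∘ₗ B.mkQ, fun c hc => ?_, fun a ha => (h₁ a ha).symm⟩
  rw [LinearMap.comp_apply, Submodule.mkQ_apply, (Submodule.Quotient.mk_eq_zero _).2 hc, map_zero]

end

end Pool.Agent.Bet
end

-- part Pool.Agent.P.MP_d34769_ag.BL2
section

/-! TASK BL2: properties of cap and slant products. -/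

open Set

namespace Pool.Agent.Bet

variable {X Y F : Type} [TopologicalSpace X] [TopologicalSpace Y] [TopologicalSpace F]
  {ω ω' : TC X →ₗ[ℚ] ℚ} {S A A₀ : Set X} {c : TC X}

theorem cap_mem (ω : TC X →ₗ[ℚ] ℚ) (hc : c ∈ cn S) : cap ω c ∈ cn S := by
  refine map_mem_of_cn (cap ω) _ (fun k σ hσ => ?_) hc
  rw [cap_sx]
  exact Submodule.sum_mem _ fun i _ => Submodule.smul_mem _ _ (sx_mem fun t => hσ _)

theorem cap_congr (h : ∀ a ∈ cn S, ω a = ω' a) (hc : c ∈ cn S) : cap ω c = cap ω' c := by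
  refine eq_of_cn (fun k σ hσ => ?_) hc
  rw [cap_sx, cap_sx]
  exact Finset.sum_congr rfl fun i _ => by rw [h _ (sx_mem (σ := σ.comp (bk i)) fun t => hσ _)]

theorem cap_zero (h : ∀ a ∈ cn S, ω a = 0) (hc : c ∈ cn S) : cap ω c = 0 := by
  refine eq_of_cn (ψ := 0) (fun k σ hσ => ?_) hc
  rw [cap_sx]
  exact Finset.sum_eq_zero fun i _ => by
    rw [h _ (sx_mem (σ := σ.comp (bk i)) fun t => hσ _), zero_smul]

theorem cap_sub (ω ω' : TC X →ₗ[ℚ] ℚ) (c : TC X) : cap (ω - ω') c = cap ω c - cap ω' c := by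
  refine LinearMap.congr_fun (TC.ext (f := cap (ω - ω')) (g := cap ω - cap ω') fun k σ => ?_) c
  simp only [LinearMap.sub_apply, cap_sx, sub_smul, Finset.sum_sub_distrib]

theorem cap_smul (a : ℚ) (ω : TC X →ₗ[ℚ] ℚ) (c : TC X) : cap (a • ω) c = a • cap ω c := by
  refine LinearMap.congr_fun (TC.ext (f := cap (a • ω)) (g := a • cap ω) fun k σ => ?_) c
  simp only [LinearMap.smul_apply, cap_sx, smul_assoc, Finset.smul_sum]

theorem cap_aug (c : TC X) : cap aug c = c := by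
  refine LinearMap.congr_fun (TC.ext (f := cap aug) (g := LinearMap.id) fun k σ => ?_) c
  rw [cap_sx, Finset.sum_eq_single (Fin.last k)]
  · rw [aug_sx, if_pos (by simp), one_smul]
    change sx k (σ.comp (fr (Fin.last k))) = sx k σ
    congr 1
    ext t
    exact congrArg σ (stdSimplex.map_id_apply t)
  · intro i _ hi
    have h1 := i.2
    have h2 : (i : ℕ) ≠ k := fun h => hi (Fin.ext h)
    rw [aug_sx, if_neg (by omega), zero_smul]
  · simp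

theorem cap_nat {f : X → Y} (hf : ContinuousOn f S) (η : TC Y →ₗ[ℚ] ℚ) (hc : c ∈ cn S) :
    pu f (cap (η ∘ₗ pu f) c) = cap η (pu f c) := by
  refine eq_of_cn (φ := pu f ∘ₗ cap (η ∘ₗ pu f)) (ψ := cap η ∘ₗ pu f) (fun k σ hσ => ?_) hc
  simp only [LinearMap.comp_apply]
  rw [pu_sx' f σ (cont_comp hf hσ), cap_sx, cap_sx, map_sum]
  refine Finset.sum_congr rfl fun i _ => ?_
  rw [map_smul, LinearMap.comp_apply, pu_sx' f (σ.comp (bk i)) (cont_comp hf fun t => hσ _),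
    pu_sx' f (σ.comp (fr i)) (cont_comp hf fun t => hσ _)]
  rfl

theorem cap_deg {m : ℕ} (h : ∀ k, k ≠ m → ∀ c, ω (pr k c) = 0) : Deg m (cap ω) := by
  have h0 : ∀ j, j ≠ m → ∀ τ, ω (sx j τ) = 0 := fun j hj τ => by
    have := h j hj (sx j τ)
    rwa [pr_sx, if_pos rfl] at this
  refine ⟨fun k c => LinearMap.congr_fun (TC.ext (f := cap ω ∘ₗ pr (k + m)) (g := pr k ∘ₗ cap ω)
    fun l σ => ?_) c, fun k hk c =>
      LinearMap.congr_fun (TC.ext (f := cap ω ∘ₗ pr k) (g := 0) fun l σ => ?_) c⟩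
  · simp only [LinearMap.comp_apply]
    rw [pr_sx, cap_sx, map_sum]
    split_ifs with e
    · rw [cap_sx]
      refine Finset.sum_congr rfl fun i _ => ?_
      have h1 := i.2
      rw [map_smul, pr_sx]
      split_ifs with e'
      · rfl
      · rw [h0 _ (by omega), zero_smul, zero_smul]
    · rw [map_zero]
      refine (Finset.sum_eq_zero fun i _ => ?_).symm
      have h1 := i.2
      rw [map_smul, pr_sx]
      split_ifs with e'
      · rw [h0 _ (by omega), zero_smul]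
      · rw [smul_zero]
  · simp only [LinearMap.comp_apply, LinearMap.zero_apply]
    rw [pr_sx]
    split_ifs with e
    · rw [cap_sx]
      exact Finset.sum_eq_zero fun i _ => by rw [h0 _ (by omega), zero_smul]
    · exact map_zero _

theorem cap_cmap (h : ∀ a ∈ cn A, ω (D a) = 0) : CMap (cap ω) (cn A) (cn A) := by
  intro c hc
  refine ⟨cap_mem ω hc, ?_⟩
  rw [cap_D, cap_zero (ω := ω ∘ₗ D) h hc, map_zero, add_zero]

/-- cohomologous cocycles give homologous cap products -/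
theorem cap_coh (hA : A₀ ⊆ A) (h : ∀ z ∈ ZZ (cn A) (cn A₀), ω z = ω' z)
    (hz : c ∈ ZZ (cn A) (cn A₀)) : cap ω c - cap ω' c ∈ BB (cn A) ⊥ := by
  obtain ⟨β, h1, h2⟩ := exists_cobd (pr_cn hA) (ω := ω - ω')
    fun z hz => by rw [LinearMap.sub_apply, h z hz, sub_self]
  have h3 := cap_D β c
  rw [cap_zero h1 hz.2] at h3
  have h4 : cap (β ∘ₗ D) c = D (eps (cap β c)) := by
    rw [← eps_eps (cap (β ∘ₗ D) c), eq_neg_of_add_eq_zero_right h3.symm, map_neg, eps_D, neg_neg]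
  rw [← cap_sub, cap_congr (ω' := β ∘ₗ D) h2 hz.1, h4]
  exact D_mem_BB (eps_mem (cap_mem β hz.1))

theorem aug_D (c : TC X) : aug (D c) = 0 := by
  refine LinearMap.congr_fun (TC.ext (f := aug ∘ₗ D) (g := 0) fun k σ => ?_) c
  rcases k with _ | _ | k
  · simp
  · simp [D_sx_succ, Fin.sum_univ_two]
  · simp [D_sx_succ]

theorem aug_pu {f : X → Y} (hf : ContinuousOn f S) (hc : c ∈ cn S) : aug (pu f c) = aug c := by
  refine eq_of_cn (φ := aug ∘ₗ pu f) (fun k σ hσ => ?_) hc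
  rw [LinearMap.comp_apply, pu_sx' f σ (cont_comp hf hσ), aug_sx, aug_sx]

/-- the contraction of the chains of a point -/
noncomputable def ctr_BL2 (x : X) : TC X →ₗ[ℚ] TC X :=
  lift fun k _ => if Even k then 0 else sx (k + 1) (ContinuousMap.const _ x)

theorem pu_const_BL2 (x : X) (c : TC X) : pu (fun _ => x) c =
    D (ctr_BL2 x c) + ctr_BL2 x (D c) + aug c • sx 0 (ContinuousMap.const _ x) := by
  refine LinearMap.congr_fun (TC.ext (f := pu fun _ => x) (g := D ∘ₗ ctr_BL2 x + ctr_BL2 x ∘ₗ D +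
    aug.smulRight (sx 0 (ContinuousMap.const _ x))) fun k σ => ?_) c
  have h0 : pu (fun _ => x) (sx k σ) = sx k (ContinuousMap.const _ x) :=
    pu_sx (ContinuousMap.const X x) σ
  have h1 : ∀ l (τ : C(G.Dl (l + 1), X)), ctr_BL2 x (sx l τ) =
      if Even l then 0 else sx (l + 1) (ContinuousMap.const _ x) := fun l τ => lift_sx _ _ _
  simp only [LinearMap.add_apply, LinearMap.comp_apply, LinearMap.smulRight_apply, h0, aug_sx]
  cases k with
  | zero => simp [h1]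
  | succ k =>
    rw [if_neg k.succ_ne_zero, zero_smul, add_zero, D_sx_succ, map_sum]
    simp only [map_smul, h1, ← Finset.sum_smul, Fin.sum_neg_one_pow]
    by_cases hk : Even k
    · rw [if_neg (Nat.even_add_one.not.2 (not_not.2 hk)), if_pos hk, smul_zero, add_zero,
        D_sx_succ]
      simp only [ContinuousMap.const_comp, ← Finset.sum_smul, Fin.sum_neg_one_pow]
      rw [if_neg (by simpa [Nat.even_add] using hk), one_smul]
    · rw [if_pos (Nat.even_add_one.2 hk), if_neg hk, map_zero, zero_add,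
        if_neg (by simpa [Nat.even_add] using hk), one_smul]

/-- on a contractible set a cocycle is a multiple of the augmentation on cycles -/
theorem coc_ctr (C : Set X) [ContractibleSpace C] (h : ∀ a ∈ cn C, ω (D a) = 0) :
    ∃ a : ℚ, ∀ z ∈ ZZ (cn C) ⊥, ω z = a * aug z := by
  obtain ⟨x₀, hx, H, hH, e0, e1⟩ := exists_htp C
  refine ⟨ω (sx 0 (ContinuousMap.const _ x₀)), fun z hz => ?_⟩
  have h1 := htp_BB (T := ∅) (T' := ∅) hH (fun _ _ => mapsTo_empty _ _) (z := z) (by simpa using hz)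
  rw [pu_of_eqOn e0 hz.1, pu_congr (g := fun _ => x₀) e1 hz.1, cn_empty] at h1
  obtain ⟨b, hb, h2⟩ := mem_BB.1 h1
  have h3 : z = pu (fun _ => x₀) z - D b := by
    rw [← sub_eq_zero.1 (Submodule.mem_bot ℚ |>.1 h2)]; abel
  have h4 : D z = 0 := hz.2
  have h5 : ctr_BL2 x₀ z ∈ cn C := by
    refine map_mem_of_cn (ctr_BL2 x₀) _ (fun k σ _ => ?_) hz.1
    rw [ctr_BL2, lift_sx]
    split_ifs
    · exact Submodule.zero_mem _
    · exact sx_mem fun _ => hx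
  have h6 : ω z = ω (pu (fun _ => x₀) z) := by
    conv_lhs => rw [h3, map_sub, h b hb, sub_zero]
  rw [h6, pu_const_BL2, h4, map_zero, add_zero, map_add, h _ h5, zero_add, map_smul, smul_eq_mul,
    mul_comm]

theorem sl_deg {η : TC F →ₗ[ℚ] ℚ} {m : ℕ} (h : ∀ k, k ≠ m → ∀ c, η (pr k c) = 0) :
    Deg m (sl η : TC (X × F) →ₗ[ℚ] TC X) := by
  have := cap_deg (ω := η ∘ₗ pu (Prod.snd : X × F → F)) (m := m) fun k hk c => by
    rw [LinearMap.comp_apply, pu_pr, h k hk]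
  refine ⟨fun k c => ?_, fun k hk c => ?_⟩
  · simp only [sl, LinearMap.comp_apply]
    rw [this.1, pu_pr]
  · simp only [sl, LinearMap.comp_apply]
    rw [this.2 k hk, map_zero]

theorem sl_mem (η : TC F →ₗ[ℚ] ℚ) {S' : Set (X × F)} (h : MapsTo Prod.fst S' S) {c : TC (X × F)}
    (hc : c ∈ cn S') : sl η c ∈ cn S := by
  exact pu_mem h (cap_mem _ hc)

theorem sl_zero {η : TC F →ₗ[ℚ] ℚ} {E : Set F} (h0 : ∀ a ∈ cn E, η a = 0) {S' : Set (X × F)}
    (h : MapsTo Prod.snd S' E) {c : TC (X × F)} (hc : c ∈ cn S') : sl η c = 0 := by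
  rw [sl, LinearMap.comp_apply,
    cap_zero (ω := η ∘ₗ pu Prod.snd) (fun a ha => h0 _ (pu_mem h ha)) hc, map_zero]

theorem sl_cmap {η : TC F →ₗ[ℚ] ℚ} {E : Set F} (h0 : ∀ a ∈ cn E, η (D a) = 0) {S' : Set (X × F)}
    (h1 : MapsTo Prod.fst S' S) (h2 : MapsTo Prod.snd S' E) : CMap (sl η) (cn S') (cn S) := by
  intro c hc
  refine ⟨sl_mem η h1 hc, ?_⟩
  have := cap_cmap (ω := η ∘ₗ pu (Prod.snd : X × F → F)) (A := S') (fun a ha => by
    rw [LinearMap.comp_apply, pu_D continuousOn_snd ha, h0 _ (pu_mem h2 ha)]) c hc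
  simp only [sl, LinearMap.comp_apply]
  rw [this.2, pu_D continuousOn_fst this.1]

theorem sl_pu (η : TC F →ₗ[ℚ] ℚ) {Θ : X → Y × F} (hΘ : ContinuousOn Θ S) (hc : c ∈ cn S) :
    sl η (pu Θ c) = pu (fun x => (Θ x).1) (cap (η ∘ₗ pu fun x => (Θ x).2) c) := by
  rw [sl, LinearMap.comp_apply, ← cap_nat hΘ _ hc, pu_pu hΘ (cap_mem _ hc),
    cap_congr (ω' := η ∘ₗ pu fun x => (Θ x).2) (fun a ha => congrArg η (pu_pu hΘ ha)) hc]
  rfl

end Pool.Agent.Bet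
end

-- part Pool.Agent.P.MP_d34769_ag.BL3
section

/-! TASK BL3: transfer of generating cocycles. -/

open Set

namespace Pool.Agent.Bet

variable {F F' : Type} [TopologicalSpace F] [TopologicalSpace F'] {m : ℕ} {e : F → F'}
  {A A₀ : Set F} {A' A₀' A'' : Set F'}

lemma aux1_BL3 {W : Type} [TopologicalSpace W] (he : ContinuousOn e A) (ω : TC F' →ₗ[ℚ] ℚ)
    {c : TC (W × F)} (hc : c ∈ cn (up W A)) :
    sl ω (pu (Prod.map id e : W × F → W × F') c) = sl (ω ∘ₗ pu e) c := by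
  have h1 : ContinuousOn (Prod.map id e : W × F → W × F') (up W A) :=
    continuous_fst.continuousOn.prodMk (he.comp continuous_snd.continuousOn fun _ hx => hx)
  rw [sl_pu ω h1 hc]
  simp only [sl, LinearMap.comp_apply]
  congr 1
  refine cap_congr (fun a ha => ?_) hc
  simp only [LinearMap.comp_apply]
  rw [pu_pu continuous_snd.continuousOn ha]
  rfl

lemma aux2_BL3 {W : Type} [TopologicalSpace W] (hA : A₀ ⊆ A) {ω ω' : TC F →ₗ[ℚ] ℚ}
    (h : ∀ z ∈ ZZ (cn A) (cn A₀), ω z = ω' z) {z : TC (W × F)}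
    (hz : z ∈ ZZ (cn (up W A)) (cn (up W A₀))) :
    sl ω z - sl ω' z ∈ BB (⊤ : Submodule ℚ (TC W)) ⊥ := by
  have h1 : HMap (pu (Prod.snd : W × F → F)) (cn (up W A)) (cn (up W A₀)) (cn A) (cn A₀) :=
    hmap_pu continuous_snd.continuousOn (fun _ hx => hx) (fun _ hx => hx)
  have h2 := cap_coh (ω := ω ∘ₗ pu (Prod.snd : W × F → F)) (ω' := ω' ∘ₗ pu Prod.snd)
    (up_mono hA) (fun y hy => h _ (h1.1 y hy)) hz
  have h3 : HMap (pu (Prod.fst : W × F → W)) (cn (up W A)) (cn ∅) (cn univ) (cn ∅) :=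
    hmap_pu continuous_fst.continuousOn (mapsTo_univ _ _) (fun _ hx => hx.elim)
  rw [cn_empty, cn_empty, cn_univ] at h3
  have h4 := h3.2 _ h2
  rwa [map_sub] at h4

lemma aux3_BL3 {ω : TC F →ₗ[ℚ] ℚ} (h : ∀ k, k ≠ m → ∀ c, ω (pr k c) = 0) (c : TC F) :
    ω (pr m c) = ω c := by
  refine LinearMap.congr_fun (TC.ext (f := ω ∘ₗ pr m) (g := ω) fun k σ => ?_) c
  rw [LinearMap.comp_apply, pr_sx]
  split_ifs with hk
  · rfl
  · have h1 := h k (fun h2 => hk h2.symm) (sx k σ)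
    rw [pr_sx, if_pos rfl] at h1
    rw [h1, map_zero]

lemma aux4_BL3 (W : Type) [TopologicalSpace W] : GPr (⊤ : Submodule ℚ (TC W)) ⊥ := by
  simpa using gpr_bot (univ : Set W)

theorem kun_pull (h : SIso e A A₀ A' A₀') {ω : TC F' →ₗ[ℚ] ℚ} (hω : Coc m ω A' A₀')
    (hk : Kun ω A' A₀') : Coc m (ω ∘ₗ pu e) A A₀ ∧ Kun (ω ∘ₗ pu e) A A₀ := by
  refine ⟨⟨fun c hc => hω.bb _ ((hmap_pu h.cont h.mS h.mT).2 c hc), fun k hk' c => ?_⟩,
    fun W _ => ?_⟩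
  · rw [LinearMap.comp_apply, pu_pr]
    exact hω.dg k hk' _
  · refine ((hk W).comp (h.iso W)).congr (pr_cn (up_mono h.le)) (aux4_BL3 W).toPr fun z hz => ?_
    rw [LinearMap.comp_apply, aux1_BL3 h.cont ω hz.1, sub_self]
    exact Submodule.zero_mem _

theorem kun_push (h : SIso e A A₀ A' A₀') (hA : A' ⊆ A'')
    (hi : Inj LinearMap.id (cn A') (cn A₀') (cn A'') (cn A₀')) {ω : TC F →ₗ[ℚ] ℚ}
    (hω : Coc m ω A A₀) (hk : Kun ω A A₀) : ∃ ω', Coc m ω' A'' A₀' ∧ Kun ω' A' A₀' := by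
  have h1 : Inj (pu e) (cn A) (cn A₀) (cn A'') (cn A₀') := fun z hz hb =>
    h.hiso.inj z hz (hi _ (h.hiso.map.1 z hz) hb)
  obtain ⟨η, h2, h3⟩ := exists_ext h1 hω.bb
  have h4 : Coc m (η ∘ₗ pr m) A'' A₀' := by
    refine ⟨fun c hc => h2 _ ((gpr_cn (h.le'.trans hA)).grd_BB m c hc), fun k hk' c => ?_⟩
    rw [LinearMap.comp_apply, pr_pr, if_neg (fun h5 => hk' h5.symm), map_zero]
  refine ⟨η ∘ₗ pr m, h4, fun W _ => ?_⟩
  refine (h.iso W).of_comp_left ?_ ?_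
  · have h5 : CMap (sl (η ∘ₗ pr m) : TC (W × F') →ₗ[ℚ] TC W) (cn (up W A')) (cn univ) :=
      sl_cmap (E := A') (fun a ha => h4.bb _ (D_mem_BB (cn_mono hA ha))) (mapsTo_univ _ _)
        (fun _ hx => hx)
    rw [cn_univ] at h5
    refine h5.hmap fun c hc => ?_
    rw [sl_zero (E := A₀') (fun a ha => h4.bb _ (mem_BB_of_mem ha)) (fun _ hx => hx) hc]
    exact Submodule.zero_mem _
  · refine (hk W).congr (pr_cn (up_mono h.le)) (aux4_BL3 W).toPr fun z hz => ?_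
    rw [LinearMap.comp_apply, aux1_BL3 h.cont _ hz.1]
    refine aux2_BL3 h.le (fun y hy => ?_) hz
    rw [LinearMap.comp_apply, LinearMap.comp_apply, ← pu_pr,
      h3 _ ((gpr_cn h.le).grd_ZZ m y hy), aux3_BL3 hω.dg]

theorem Kun.rk {ω : TC F →ₗ[ℚ] ℚ} (hA : A₀ ⊆ A) (hω : Coc m ω A A₀) (hk : Kun ω A A₀) (W : Type)
    [TopologicalSpace W] : (∀ k, RK (up W A) (up W A₀) (k + m) = RK (univ : Set W) ∅ k) ∧
      ∀ k < m, RK (up W A) (up W A₀) k = 0 := by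
  simp only [RK, cn_univ, cn_empty]
  exact rk_iso (gpr_cn (up_mono hA)) (aux4_BL3 W) (sl_deg hω.dg) (hk W)

theorem kun_aug (C : Set F) [ContractibleSpace C] : Coc 0 aug C ∅ ∧ Kun aug C ∅ := by
  refine ⟨⟨fun c hc => ?_, fun k hk c => ?_⟩, fun W _ => ?_⟩
  · obtain ⟨a, -, ha⟩ := mem_BB.1 hc
    rw [cn_empty, Submodule.mem_bot, sub_eq_zero] at ha
    rw [ha, aug_D]
  · refine LinearMap.congr_fun (TC.ext (f := aug ∘ₗ pr k) (g := 0) fun l σ => ?_) c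
    rw [LinearMap.comp_apply, pr_sx]
    split_ifs with hl
    · rw [aug_sx, if_neg (hl ▸ hk)]
      rfl
    · simp
  · have h1 : SIso (Prod.swap : W × F → F × W) (up W C) ∅ (C ×ˢ univ) ∅ :=
      SIso.of_inv (k := Prod.swap) (empty_subset _) (empty_subset _) continuous_swap.continuousOn
        continuous_swap.continuousOn (fun _ hx => ⟨hx, trivial⟩) (fun _ hx => hx.elim)
        (fun _ hx => hx.1) (fun _ hx => hx.elim) (fun _ _ => rfl) (fun _ _ => rfl)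
    have h2 := ((SIso.snd_ctr C (univ : Set W)).comp h1).hiso
    have h3 : (sl aug : TC (W × F) →ₗ[ℚ] TC W) = pu (Prod.snd ∘ Prod.swap) := by
      have h4 : (aug ∘ₗ pu (Prod.snd : W × F → F)) = aug := LinearMap.ext fun c =>
        aug_pu (S := univ) continuous_snd.continuousOn (by simp)
      refine LinearMap.ext fun c => ?_
      rw [sl, h4, LinearMap.comp_apply, cap_aug]
      rfl
    rw [h3, up_empty]
    simpa only [cn_univ, cn_empty] using h2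

end Pool.Agent.Bet
end

-- part Pool.Agent.P.MP_d34769_ag.BL4
section

/-! TASK BL4: the local homology of a vector space. -/

open Set

namespace Pool.Agent.Bet

theorem hiso_eps_BL4 {W : Type} [TopologicalSpace W] :
    HIso (eps : TC W →ₗ[ℚ] TC W) ⊤ ⊥ ⊤ ⊥ := by
  have h : HMap (eps : TC W →ₗ[ℚ] TC W) ⊤ ⊥ ⊤ ⊥ := by
    refine ⟨fun z hz => mem_ZZ.2 ⟨trivial, ?_⟩, fun z hz => ?_⟩
    · have h1 : D z = 0 := (Submodule.mem_bot ℚ).1 (mem_ZZ.1 hz).2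
      have h2 := eps_D z
      rw [h1, map_zero] at h2
      exact (Submodule.mem_bot ℚ).2 (neg_eq_zero.1 h2.symm)
    · obtain ⟨a, -, ha⟩ := mem_BB.1 hz
      have h1 : z = D a := sub_eq_zero.1 ((Submodule.mem_bot ℚ).1 ha)
      rw [h1, eps_D]
      exact Submodule.neg_mem _ (D_mem_BB trivial)
  exact HIso.of_inv h h (fun z _ => by simp) fun z _ => by simp

theorem sl_D_BL4 {W F : Type} [TopologicalSpace W] [TopologicalSpace F] (η : TC F →ₗ[ℚ] ℚ)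
    (c : TC (W × F)) : eps (sl η (D c)) - sl (η ∘ₗ D) c = -D (eps (sl η c : TC W)) := by
  have h1 : (η ∘ₗ D) ∘ₗ pu (Prod.snd : W × F → F) = (η ∘ₗ pu Prod.snd) ∘ₗ D := by
    refine LinearMap.ext fun a => ?_
    simp only [LinearMap.comp_apply]
    rw [pu_D (S := univ) continuous_snd.continuousOn (by simp)]
  simp only [sl, LinearMap.comp_apply]
  rw [h1, cap_D, map_add, map_add, pu_eps, eps_eps,
    pu_D (S := univ) continuous_fst.continuousOn (by simp), eps_D]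
  abel

theorem kun_bd_BL4 {F : Type} [TopologicalSpace F] {m : ℕ} {η : TC F →ₗ[ℚ] ℚ} {P M : Set F}
    (hM : M ⊆ P) (hc : Coc m η P M) (hk : Kun η P M) (ha : SIso id M ∅ univ ∅) :
    Coc (m + 1) (η ∘ₗ D) univ P ∧ Kun (η ∘ₗ D) univ P := by
  refine ⟨⟨fun c hc' => ?_, fun k hk' c => ?_⟩, fun W _ => ?_⟩
  · obtain ⟨a, -, hb⟩ := mem_BB.1 hc'
    have := hc.bb _ (D_mem_BB hb)
    rw [map_sub, DD, sub_zero] at this
    exact this
  · rw [LinearMap.comp_apply]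
    cases k with
    | zero => rw [D_pr, map_zero]
    | succ k => rw [D_pr']; exact hc.dg k (by omega) _
  · have p1 : Pr (cn (up W (univ : Set F))) (cn (up W P)) := pr_cn (up_mono (subset_univ _))
    have h1 := (ha.acyc W).hiso_D p1 (pr_cn (up_mono hM))
    refine (hiso_eps_BL4.comp ((hk W).comp h1)).congr p1 stb_top.pr_bot fun z _ => ?_
    simp only [LinearMap.comp_apply]
    rw [sl_D_BL4]
    exact Submodule.neg_mem _ (D_mem_BB trivial)

theorem kun_susp {F : Type} [NormedAddCommGroup F] [NormedSpace ℝ F] {m : ℕ}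
    (h : ∃ ω, Coc m ω (univ : Set F) {0}ᶜ ∧ Kun ω (univ : Set F) {0}ᶜ) :
    ∃ ω, Coc (m + 1) ω (univ : Set (F × ℝ)) {0}ᶜ ∧ Kun ω (univ : Set (F × ℝ)) {0}ᶜ := by
  obtain ⟨ω, hc, hk⟩ := h
  obtain ⟨Ap, hAp⟩ : ∃ Ap : Set (F × ℝ), Ap = {x | x.1 ≠ 0 ∨ 0 < x.2} := ⟨_, rfl⟩
  obtain ⟨A, hA⟩ : ∃ A : Set (F × ℝ), A = {x | x.1 = 0 ∧ 0 ≤ x.2} := ⟨_, rfl⟩
  have mp : ∀ x, x ∈ Ap ↔ x.1 ≠ 0 ∨ 0 < x.2 := fun x => by rw [hAp]; rfl
  have mT : ∀ x, x ∈ Ap \ A ↔ x.1 ≠ 0 := fun x => by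
    rw [hAp, hA]
    constructor
    · rintro ⟨h1 | h1, h2⟩
      · exact h1
      · exact fun h3 => h2 ⟨h3, le_of_lt h1⟩
    · exact fun h1 => ⟨Or.inl h1, fun h2 => h1 h2.1⟩
  have mM : ∀ x, x ∈ ({0}ᶜ : Set (F × ℝ)) \ A ↔ x.1 ≠ 0 ∨ x.2 < 0 := fun x => by
    rw [hA]
    constructor
    · rintro ⟨-, h2⟩
      by_contra h3
      push Not at h3
      exact h2 h3
    · rintro (h1 | h1)
      · exact ⟨fun h2 => h1 (congrArg Prod.fst h2), fun h2 => h1 h2.1⟩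
      · exact ⟨fun h2 => h1.ne (congrArg Prod.snd h2), fun h2 => absurd h2.2 (not_le.2 h1)⟩
  have s1 : SIso Prod.fst Ap (Ap \ A) (univ : Set F) {0}ᶜ := by
    refine SIso.of_he (k := fun y => (y, 1)) (H := fun t x => (x.1, (1 - t) * x.2 + t))
      (H' := fun _ y => y) sdiff_subset (subset_univ _) continuous_fst.continuousOn
      (by fun_prop) (mapsTo_univ _ _) (fun x hx => (mT x).1 hx)
      (fun y _ => (mp _).2 (Or.inr one_pos)) (fun y hy => (mT _).2 hy) ⟨by fun_prop, ?_⟩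
      ⟨by fun_prop, fun _ _ => mapsTo_univ _ _⟩ (fun t _ x hx => (mT _).2 ((mT x).1 hx))
      (fun _ _ _ hy => hy) (fun x _ => by simp) (fun x _ => by simp) (fun _ _ => rfl)
      fun _ _ => rfl
    intro t ht x hx
    rcases (mp x).1 hx with h1 | h1
    · exact (mp _).2 (Or.inl h1)
    · refine (mp _).2 (Or.inr ?_)
      show 0 < (1 - t) * x.2 + t
      rcases eq_or_lt_of_le ht.2 with h2 | h2
      · rw [h2]; norm_num
      · have := mul_pos (sub_pos.2 h2) h1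
        linarith [ht.1]
  have oA : IsOpen Ap := by
    rw [hAp]
    exact (isOpen_ne_fun continuous_fst continuous_const).union
      (isOpen_lt continuous_const continuous_snd)
  have cA : IsClosed A := by
    rw [hA]
    exact (isClosed_eq continuous_fst continuous_const).inter
      (isClosed_le continuous_const continuous_snd)
  have s2 : SIso id Ap (Ap \ A) ({0}ᶜ : Set (F × ℝ)) ({0}ᶜ \ A) := by
    refine SIso.exc ⟨Ap, oA, (inter_eq_right.2 fun x hx h0 => ?_).symm⟩ (RO.of_isClosed cA _) ?_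
    · rw [mem_singleton_iff.1 h0] at hx
      simpa using (mp _).1 hx
    · rintro x ⟨h1, h2⟩
      rw [hA] at h2
      refine (mp x).2 (Or.inr (lt_of_le_of_ne h2.2 fun h3 => h1 ?_))
      exact Prod.ext h2.1 h3.symm
  have s3 : SIso id (({0}ᶜ : Set (F × ℝ)) \ A) ∅ univ ∅ := by
    refine SIso.of_def (H := fun t x => ((1 - t) • x.1, (1 - t) * x.2 - t)) (subset_univ _)
      subset_rfl (empty_subset _) (empty_subset _) ⟨by fun_prop, fun _ _ => mapsTo_univ _ _⟩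
      (fun _ _ => mapsTo_empty _ _) ?_ (fun _ _ => mapsTo_empty _ _) (fun x _ => by simp)
      (fun x _ => (mM _).2 (Or.inr (by norm_num))) (mapsTo_empty _ _)
    intro t ht x hx
    refine (mM _).2 ?_
    rcases eq_or_lt_of_le ht.2 with h2 | h2
    · rw [h2]; exact Or.inr (by norm_num)
    · rcases (mM x).1 hx with h1 | h1
      · exact Or.inl (smul_ne_zero (sub_pos.2 h2).ne' h1)
      · refine Or.inr ?_
        show (1 - t) * x.2 - t < 0
        have := mul_neg_of_pos_of_neg (sub_pos.2 h2) h1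
        linarith [ht.1]
  obtain ⟨c1, k1⟩ := kun_pull s1 hc hk
  obtain ⟨η, c2, k2⟩ := kun_push s2 subset_rfl (hiso_id _ _).inj c1 k1
  exact ⟨_, kun_bd_BL4 sdiff_subset c2 k2 s3⟩

theorem kun_sph (r : ℕ) :
    ∃ ω, Coc (2 * r) ω (univ : Set (Fin r → ℂ)) {0}ᶜ ∧ Kun ω (univ : Set (Fin r → ℂ)) {0}ᶜ := by
  induction r with
  | zero =>
    have h : ({0}ᶜ : Set (Fin 0 → ℂ)) = ∅ :=
      eq_empty_of_forall_notMem fun x hx => hx (Subsingleton.elim x 0)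
    have : ContractibleSpace (univ : Set (Fin 0 → ℂ)) :=
      (convex_univ (𝕜 := ℝ)).contractibleSpace univ_nonempty
    rw [h]
    exact ⟨aug, kun_aug univ⟩
  | succ r ih =>
    obtain ⟨ω, hc, hk⟩ := kun_susp (kun_susp ih)
    have e1 : ∀ v : Fin (r + 1) → ℂ,
        (Fin.cons ((v 0).re + (v 0).im * Complex.I) (Fin.tail v) : Fin (r + 1) → ℂ) = v :=
      fun v => by rw [Complex.re_add_im, Fin.cons_self_tail]
    have s : SIso (fun v : Fin (r + 1) → ℂ => ((Fin.tail v, (v 0).re), (v 0).im)) univ {0}ᶜ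
        (univ : Set (((Fin r → ℂ) × ℝ) × ℝ)) {0}ᶜ := by
      refine SIso.of_inv (k := fun y => Fin.cons (y.1.2 + y.2 * Complex.I) y.1.1) (subset_univ _)
        (subset_univ _) ?_ ?_ (mapsTo_univ _ _) ?_ (mapsTo_univ _ _) ?_ (fun v _ => e1 v) ?_
      · refine Continuous.continuousOn ?_
        unfold Fin.tail
        fun_prop
      · refine Continuous.continuousOn (continuous_pi fun i => ?_)
        refine Fin.cases ?_ (fun i => ?_) i
        · simp only [Fin.cons_zero]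
          fun_prop
        · simp only [Fin.cons_succ]
          fun_prop
      · intro v hv h0
        have h1 := mem_singleton_iff.1 h0
        simp only [Prod.mk_eq_zero] at h1
        apply hv
        rw [mem_singleton_iff, ← e1 v, h1.1.1, h1.1.2, h1.2]
        funext i
        refine Fin.cases ?_ (fun i => ?_) i <;> simp
      · rintro ⟨⟨u, a⟩, b⟩ hy h0
        have h1 := mem_singleton_iff.1 h0
        have h2 := congrFun h1 0
        simp only [Fin.cons_zero, Pi.zero_apply] at h2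
        have h3 := congrArg Complex.re h2
        have h4 := congrArg Complex.im h2
        apply hy
        rw [mem_singleton_iff]
        refine Prod.ext (Prod.ext (funext fun i => ?_) ?_) ?_
        · simpa using congrFun h1 i.succ
        · simpa using h3
        · simpa using h4
      · rintro ⟨⟨u, a⟩, b⟩ -
        simp
    exact ⟨_, kun_pull s hc hk⟩

end Pool.Agent.Bet
end

-- part Pool.Agent.P.MP_d34769_ag.BL6
section

/-! TASK BL6: the universal cocycles and the homology of projective space. -/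

open Set PowerSeries

namespace Pool.Agent.Bet

lemma rk_self_BL6 {Y : Type} [TopologicalSpace Y] (S : Set Y) (k : ℕ) : RK S S k = 0 :=
  rk_eq_zero.2 fun _ hz _ => mem_BB_of_mem hz.1

lemma van_fin_BL6 {Y : Type} [TopologicalSpace Y] {U : ℕ → Set Y} (hU : Monotone U) {n k : ℕ}
    (h : ∀ j, n ≤ j → RK (U (j + 1)) (U j) k = 0) {m : ℕ} (hm : n ≤ m) :
    RK (U m) (U n) k = 0 := by
  induction m, hm using Nat.le_induction with
  | base => exact rk_self_BL6 _ _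
  | succ m hm ih => exact rk_van (gpr_cn (hU (Nat.le_succ m))) (gpr_cn (hU hm)) (h m hm) ih

lemma van_lim_BL6 {Y : Type} [TopologicalSpace Y] {U : ℕ → Set Y} (hU : Monotone U) {P : Set Y}
    (hP : ∀ r, U r ⊆ P) (hK : ∀ K, IsCompact K → K ⊆ P → ∃ r, K ⊆ U r) {n k : ℕ}
    (h : ∀ j, n ≤ j → RK (U (j + 1)) (U j) k = 0) : RK P (U n) k = 0 := by
  refine rk_eq_zero.2 fun z hz hk => ?_
  obtain ⟨K, h1, h2, h3⟩ := exists_compact hz.1
  obtain ⟨r, hr⟩ := hK K h1 h2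
  have h4 : z ∈ cn (U (max n r)) := cn_mono (hr.trans (hU (le_max_right n r))) h3
  have h5 := rk_eq_zero.1 (van_fin_BL6 hU h (le_max_left n r)) z (mem_ZZ.2 ⟨h4, hz.2⟩) hk
  exact BB_mono (cn_mono (hP _)) le_rfl h5

lemma cell_BL6 (n : ℕ) (W : Type) [TopologicalSpace W] :
    (∀ k, RK (up W (Uo (n + 1))) (up W (Uo n)) (k + 2 * n) = RK (univ : Set W) ∅ k) ∧
      ∀ k < 2 * n, RK (up W (Uo (n + 1))) (up W (Uo n)) k = 0 := by
  obtain ⟨ω, h1, h2⟩ := kun_sph n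
  obtain ⟨e, he⟩ := exists_cell n
  obtain ⟨ω', h3, h4⟩ := kun_push he subset_rfl (fun _ _ h => h) h1 h2
  exact h4.rk (Uo_mono (Nat.le_succ n)) h3 W

lemma cell_pt_BL6 {n k : ℕ} (hk : k ≠ 2 * n) : RK (Uo (n + 1)) (Uo n) k = 0 := by
  have h : SIso (Prod.snd : Unit × PA → PA) (up Unit (Uo (n + 1))) (up Unit (Uo n))
      (Uo (n + 1)) (Uo n) :=
    SIso.of_inv (k := fun y => ((), y)) (up_mono (Uo_mono (Nat.le_succ n)))
      (Uo_mono (Nat.le_succ n)) continuous_snd.continuousOn (by fun_prop) (fun _ hx => hx)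
      (fun _ hx => hx) (fun _ hx => hx) (fun _ hx => hx) (fun _ _ => rfl) fun _ _ => rfl
  rw [← h.rk]
  rcases lt_or_gt_of_ne hk with hk | hk
  · exact (cell_BL6 n Unit).2 k hk
  · obtain ⟨j, rfl⟩ : ∃ j, k = j + 1 + 2 * n := ⟨k - 2 * n - 1, by omega⟩
    rw [(cell_BL6 n Unit).1]
    obtain ⟨m, h1, h2⟩ := dim_pt (j + 1)
    rw [coeff_one, if_neg (Nat.succ_ne_zero j)] at h2
    have h3 : m = 0 := by exact_mod_cast h2.symm
    rw [h1, h3, Nat.cast_zero]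

theorem exists_U : ∃ u, IsU u := by
  have h : ∀ n, ∃ ω, Coc (2 * n) ω Pz (Uo n) ∧ Kun ω (Uo (n + 1)) (Uo n) := fun n => by
    obtain ⟨ω, h1, h2⟩ := kun_sph n
    obtain ⟨e, he⟩ := exists_cell n
    refine kun_push he (Uo_subset _) (inj_of_van (gpr_cn (Uo_subset _))
      (gpr_cn (Uo_mono (Nat.le_succ n))) fun k => ?_) h1 h2
    by_cases hk : k = 2 * n
    · exact Or.inr (van_lim_BL6 (fun _ _ h => Uo_mono h) Uo_subset (fun _ => exists_Uo)
        fun j _ => cell_pt_BL6 (by omega))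
    · exact Or.inl (cell_pt_BL6 hk)
  choose u hu using h
  exact ⟨u, hu⟩

lemma triv_Uo_BL6 {u : ℕ → TC PA →ₗ[ℚ] ℚ} (hu : IsU u) (r : ℕ) (W : Type) [TopologicalSpace W] :
    MIso (fun i => (sl (u i) : TC (W × PA) →ₗ[ℚ] TC W)) r (cn (up W (Uo r))) ⊥ ⊤ ⊥ := by
  induction r with
  | zero =>
    rw [Uo_zero, up_empty, cn_empty]
    exact ⟨fun _ h => absurd h (Nat.not_lt_zero _), fun _ hz _ => mem_BB_of_mem hz.1,
      fun _ _ => ⟨0, Submodule.zero_mem _, fun _ h => absurd h (Nat.not_lt_zero _)⟩⟩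
  | succ r ih =>
    have h0 : ∀ c ∈ cn (up W (Uo r)), (sl (u r) : TC (W × PA) →ₗ[ℚ] TC W) c = 0 := fun c hc =>
      sl_zero (E := Uo r) (fun a ha => (hu r).1.bb _ (mem_BB_of_mem ha)) (fun _ hx => hx) hc
    refine miso_succ (pr_cn (up_mono (Uo_mono (Nat.le_succ r)))) stb_top (fun i _ => ?_) h0 ih
      ((hu r).2 W)
    rw [← cn_univ]
    exact sl_cmap (E := Pz) (fun a ha => (hu i).1.bb _ (D_mem_BB ha)) (mapsTo_univ _ _)
      fun _ hx => Uo_subset _ hx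

theorem IsU.triv {u : ℕ → TC PA →ₗ[ℚ] ℚ} (hu : IsU u) (r : ℕ) (W : Type) [TopologicalSpace W] :
    MIso (fun i => (sl (u i) : TC (W × PA) →ₗ[ℚ] TC W)) r (cn (up W (CP r))) ⊥ ⊤ ⊥ := by
  have h1 := (siso_CP r).iso W
  rw [Prod.map_id, pu_id, up_empty, cn_empty] at h1
  have h2 := (hiso_LL.2 (triv_Uo_BL6 hu r W)).comp h1
  rw [LinearMap.comp_id] at h2
  exact hiso_LL.1 h2

lemma coeff_BL6 (q : PowerSeries ℚ) {k r : ℕ} (h : k < 2 * r) :
    coeff k ((1 - X ^ 2 : PowerSeries ℚ)⁻¹ * q) =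
      ∑ i ∈ (Finset.range r).filter (fun i => 2 * i ≤ k), coeff (k - 2 * i) q := by
  have h0 : constantCoeff (1 - X ^ 2 : PowerSeries ℚ) ≠ 0 := by simp
  have h1 : (1 - X ^ 2 : PowerSeries ℚ)⁻¹ * (1 - X ^ 2) = 1 := PowerSeries.inv_mul_cancel _ h0
  have h2 := mul_neg_geom_sum (X ^ 2 : PowerSeries ℚ) r
  have h3 : (1 - X ^ 2 : PowerSeries ℚ)⁻¹ * q =
      (∑ i ∈ Finset.range r, (X ^ 2) ^ i) * q + X ^ (2 * r) * ((1 - X ^ 2)⁻¹ * q) := by
    rw [pow_mul]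
    linear_combination (-(1 - X ^ 2 : PowerSeries ℚ)⁻¹ * q) * h2 +
      ((∑ i ∈ Finset.range r, (X ^ 2 : PowerSeries ℚ) ^ i) * q) * h1
  rw [h3, map_add, coeff_X_pow_mul', if_neg (by omega), add_zero, Finset.sum_mul, map_sum,
    Finset.sum_filter]
  refine Finset.sum_congr rfl fun i _ => ?_
  rw [← pow_mul, coeff_X_pow_mul']

theorem sd_Pz : SD Pz ∅ (1 - X ^ 2)⁻¹ := by
  intro B _ q hq k
  obtain ⟨u, hu⟩ := exists_U
  choose m hm using hq
  have hv : ∀ l < 2 * (k + 1), RK (up B Pz) (up B (Uo (k + 1))) l = 0 := fun l hl =>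
    van_lim_BL6 (U := fun r => up B (Uo r)) (fun _ _ h => up_mono (Uo_mono h))
      (fun r => up_mono (Uo_subset r)) (fun K h1 h2 => by
        obtain ⟨r, hr⟩ := exists_Uo (h1.image continuous_snd) (image_subset_iff.2 h2)
        exact ⟨r, image_subset_iff.1 hr⟩)
      fun j hj => (cell_BL6 j B).2 l (by omega)
  have h1 := rk_eq_of_van (gpr_cn (up_mono (Uo_subset (k + 1)))) (hv k (by omega))
    (hv (k + 1) (by omega))
  have h2 : GPr (⊤ : Submodule ℚ (TC B)) ⊥ := cn_univ (X := B) ▸ gpr_bot univ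
  have h3 := rk_miso (gpr_bot _) h2 (fun i _ => sl_deg (hu i).1.dg) (triv_Uo_BL6 hu (k + 1) B) k
  refine ⟨∑ i ∈ (Finset.range (k + 1)).filter (fun i => 2 * i ≤ k), m (k - 2 * i), ?_, ?_⟩
  · rw [RK, up_empty, cn_empty, h1, h3, Nat.cast_sum]
    refine Finset.sum_congr rfl fun i _ => ?_
    rw [← (hm _).1, RK, cn_univ, cn_empty]
  · rw [coeff_BL6 q (r := k + 1) (by omega), Nat.cast_sum]
    exact Finset.sum_congr rfl fun i _ => (hm _).2

end Pool.Agent.Bet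
end

-- part Pool.Agent.P.MP_d34769_ag.BA5
section

/-! TASK BA5: gluing local isomorphisms. -/

open Set

namespace Pool.Agent.Bet

variable {C C' : Type} [AddCommGroup C] [Module ℚ C] [AddCommGroup C'] [Module ℚ C']
  [Dif C] [Dif C'] {W : Type} [TopologicalSpace W] {S : Set W}

theorem union_BA5 {𝒜 : Set W → Submodule ℚ C} {𝒜' : Set W → Submodule ℚ C'} (h : Fam S 𝒜)
    (h' : Fam S 𝒜') {f : C →ₗ[ℚ] C'} (hf : ∀ U, CMap f (𝒜 U) (𝒜' U)) {U V : Set W}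
    (hU : IsOpen U) (hV : IsOpen V) (gU : HIso f (𝒜 U) ⊥ (𝒜' U) ⊥)
    (gV : HIso f (𝒜 V) ⊥ (𝒜' V) ⊥) (gI : HIso f (𝒜 (U ∩ V)) ⊥ (𝒜' (U ∩ V)) ⊥) :
    HIso f (𝒜 (U ∪ V)) ⊥ (𝒜' (U ∪ V)) ⊥ := by
  have hb : ∀ c ∈ (⊥ : Submodule ℚ C), f c ∈ (⊥ : Submodule ℚ C') := fun c hc => by
    rw [Submodule.mem_bot] at hc ⊢; simp [hc]
  rw [h.inf, h'.inf] at gI
  have sI := (h.stb U).inf (h.stb V)
  have sI' := (h'.stb U).inf (h'.stb V)
  have sS := (h.stb U).sup (h.stb V)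
  have sS' := (h'.stb U).sup (h'.stb V)
  have le1 : 𝒜 U ⊔ 𝒜 V ≤ 𝒜 (U ∪ V) :=
    sup_le (h.mono _ _ subset_union_left) (h.mono _ _ subset_union_right)
  have le2 : 𝒜' U ⊔ 𝒜' V ≤ 𝒜' (U ∪ V) :=
    sup_le (h'.mono _ _ subset_union_left) (h'.mono _ _ subset_union_right)
  have cS : CMap f (𝒜 U ⊔ 𝒜 V) (𝒜' U ⊔ 𝒜' V) := (hf (U ∪ V)).mono le1 fun c hc => by
    obtain ⟨a, ha, b, hb, rfl⟩ := Submodule.mem_sup.1 hc
    rw [map_add]
    exact Submodule.add_mem_sup (hf U a ha).1 (hf V b hb).1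
  have i1 : HIso f (𝒜 U) (𝒜 U ⊓ 𝒜 V) (𝒜' U) (𝒜' U ⊓ 𝒜' V) :=
    five_quot ⟨inf_le_left, h.stb U, sI⟩ sI.pr_bot ⟨inf_le_left, h'.stb U, sI'⟩ sI'.pr_bot (hf U)
      (fun c hc => ⟨(hf U c hc.1).1, (hf V c hc.2).1⟩) hb gI gU
  have i2 : HIso f (𝒜 U ⊔ 𝒜 V) (𝒜 V) (𝒜' U ⊔ 𝒜' V) (𝒜' V) :=
    (hiso_sup (h.stb U) (h.stb V)).of_comp_left (cS.hmap fun c hc => (hf V c hc).1)
      ((hiso_sup (h'.stb U) (h'.stb V)).comp i1)
  have i3 : HIso f (𝒜 U ⊔ 𝒜 V) ⊥ (𝒜' U ⊔ 𝒜' V) ⊥ :=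
    five_mid ⟨le_sup_right, sS, h.stb V⟩ (h.stb V).pr_bot ⟨le_sup_right, sS', h'.stb V⟩
      (h'.stb V).pr_bot cS (fun c hc => (hf V c hc).1) hb gV i2
  exact ((h.small U V hU hV).hiso_left ⟨le1, h.stb _, sS⟩ sS.pr_bot).of_comp_left
    ((hf _).hmap hb) (((h'.small U V hU hV).hiso_left ⟨le2, h'.stb _, sS'⟩ sS'.pr_bot).comp i3)

theorem glue {𝒜 : Set W → Submodule ℚ C} {𝒜' : Set W → Submodule ℚ C'} (h : Fam S 𝒜)
    (h' : Fam S 𝒜') {f : C →ₗ[ℚ] C'} (hf : ∀ U, CMap f (𝒜 U) (𝒜' U))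
    (loc : ∀ w ∈ S, ∃ U₀, IsOpen U₀ ∧ w ∈ U₀ ∧
      ∀ U, IsOpen U → U ⊆ U₀ → HIso f (𝒜 U) ⊥ (𝒜' U) ⊥) {U : Set W} (hU : IsOpen U) :
    HIso f (𝒜 U) ⊥ (𝒜' U) ⊥ := by
  have hb : ∀ c ∈ (⊥ : Submodule ℚ C), f c ∈ (⊥ : Submodule ℚ C') := fun c hc => by
    rw [Submodule.mem_bot] at hc ⊢; simp [hc]
  have key : ∀ K, IsCompact K → K ⊆ S → ∃ O, IsOpen O ∧ K ⊆ O ∧
      ∀ X, IsOpen X → X ⊆ O → HIso f (𝒜 X) ⊥ (𝒜' X) ⊥ := fun K hK hKS => by
    refine hK.induction_on (p := fun K => ∃ O, IsOpen O ∧ K ⊆ O ∧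
      ∀ X, IsOpen X → X ⊆ O → HIso f (𝒜 X) ⊥ (𝒜' X) ⊥) ?_ ?_ ?_ ?_
    · refine ⟨∅, isOpen_empty, Subset.rfl, fun X _ hX => ?_⟩
      obtain rfl := subset_empty_iff.1 hX
      refine ⟨(hf _).hmap hb, fun z hz _ => mem_BB_of_mem (h.empty ▸ hz.1), fun y hy =>
        ⟨0, zero_mem _, mem_BB_of_mem ?_⟩⟩
      rw [map_zero, zero_sub]
      exact neg_mem (h'.empty ▸ hy.1)
    · rintro s t hst ⟨O, h1, h2, h3⟩
      exact ⟨O, h1, hst.trans h2, h3⟩
    · rintro s t ⟨O, h1, h2, h3⟩ ⟨O', k1, k2, k3⟩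
      refine ⟨O ∪ O', h1.union k1, union_subset_union h2 k2, fun X hX hXO => ?_⟩
      rw [← inter_eq_left.2 hXO, inter_union_distrib_left]
      exact union_BA5 h h' hf (hX.inter h1) (hX.inter k1) (h3 _ (hX.inter h1) inter_subset_right)
        (k3 _ (hX.inter k1) inter_subset_right)
        (h3 _ ((hX.inter h1).inter (hX.inter k1)) fun x hx => hx.1.2)
    · intro w hw
      obtain ⟨O, h1, h2, h3⟩ := loc w (hKS hw)
      exact ⟨O, mem_nhdsWithin_of_mem_nhds (h1.mem_nhds h2), O, h1, Subset.rfl, h3⟩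
  refine ⟨(hf U).hmap hb, fun z hz hfz => ?_, fun y hy => ?_⟩
  · obtain ⟨a, ha, hab⟩ := mem_BB.1 hfz
    obtain ⟨K, k1, k2, k3⟩ := h.cpt U z hz.1
    obtain ⟨K', l1, l2, l3⟩ := h'.cpt U a ha
    obtain ⟨O, o1, o2, o3⟩ := key _ (k1.union l1)
      (union_subset (fun x hx => (k2 hx).2) fun x hx => (l2 hx).2)
    refine BB_mono (h.mono _ _ inter_subset_right) le_rfl
      ((o3 (O ∩ U) (o1.inter hU) inter_subset_left).inj z
        ⟨h.mono K (O ∩ U) (fun x hx => ⟨o2 (Or.inl hx), (k2 hx).1⟩) k3, hz.2⟩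
        (mem_BB.2 ⟨a, ?_, hab⟩))
    exact h'.mono K' (O ∩ U) (fun x hx => ⟨o2 (Or.inr hx), (l2 hx).1⟩) l3
  · obtain ⟨K, k1, k2, k3⟩ := h'.cpt U y hy.1
    obtain ⟨O, o1, o2, o3⟩ := key _ k1 fun x hx => (k2 hx).2
    obtain ⟨z, hz, hzy⟩ := (o3 (O ∩ U) (o1.inter hU) inter_subset_left).srj y
      ⟨h'.mono K (O ∩ U) (fun x hx => ⟨o2 hx, (k2 hx).1⟩) k3, hy.2⟩
    exact ⟨z, ZZ_mono (h.mono _ _ inter_subset_right) le_rfl hz,
      BB_mono (h'.mono _ _ inter_subset_right) le_rfl hzy⟩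

omit [Dif C] in
theorem piS_sup_BA5 (r : ℕ) (A B : Submodule ℚ C) : piS r A ⊔ piS r B = piS r (A ⊔ B) := by
  refine le_antisymm (sup_le (fun c hc => mem_piS.2 fun i => Submodule.mem_sup_left
    (mem_piS.1 hc i)) fun c hc => mem_piS.2 fun i => Submodule.mem_sup_right (mem_piS.1 hc i))
    fun c hc => ?_
  choose a ha b hb e using fun i => Submodule.mem_sup.1 (mem_piS.1 hc i)
  exact Submodule.mem_sup.2 ⟨a, mem_piS.2 ha, b, mem_piS.2 hb, funext e⟩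

theorem Fam.piS {𝒜 : Set W → Submodule ℚ C} (h : Fam S 𝒜) (r : ℕ) :
    Fam S fun U => piS r (𝒜 U) := by
  refine ⟨fun U c hc => mem_piS.2 fun i => h.stb U _ (mem_piS.1 hc i),
    fun U V hUV c hc => mem_piS.2 fun i => h.mono U V hUV (mem_piS.1 hc i), ?_, fun U V => ?_,
    fun U V hU hV z hz => ?_, fun U c hc => ?_⟩
  · rw [h.empty, piS_bot]
  · ext c
    simp only [h.inf, mem_piS, Submodule.mem_inf, forall_and]
  · rw [piS_sup_BA5] at hz ⊢
    choose a ha hb using fun i => mem_BB.1 (h.small U V hU hV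
      (mem_ZZ.2 ⟨mem_piS.1 hz.1 i, mem_piS.1 (mem_ZZ.1 hz).2 i⟩))
    exact mem_BB.2 ⟨a, mem_piS.2 ha, mem_piS.2 hb⟩
  · choose K k1 k2 k3 using fun i => h.cpt U _ (mem_piS.1 hc i)
    exact ⟨⋃ i, K i, isCompact_iUnion k1, iUnion_subset k2,
      mem_piS.2 fun i => h.mono _ _ (subset_iUnion K i) (k3 i)⟩

end Pool.Agent.Bet
end

-- part Pool.Agent.P.MP_d34769_ag.BL8
section

/-! TASK BL8: the Leray-Hirsch theorem for projective bundles. -/

open Set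

namespace Pool.Agent.Bet

theorem move_BL8 {C C' E E' : Type} [AddCommGroup C] [Module ℚ C] [AddCommGroup C'] [Module ℚ C']
    [AddCommGroup E] [Module ℚ E] [AddCommGroup E'] [Module ℚ E'] [Dif C] [Dif C'] [Dif E] [Dif E']
    {r : ℕ} {Λ : ℕ → C →ₗ[ℚ] C'} {Λ₀ : ℕ → E →ₗ[ℚ] E'} {φ : E →ₗ[ℚ] C} {ψ : E' →ₗ[ℚ] C'}
    {A B : Submodule ℚ C} {A' B' : Submodule ℚ C'} {A₀ B₀ : Submodule ℚ E}
    {A₀' B₀' : Submodule ℚ E'} (hφ : HIso φ A₀ B₀ A B) (hψ : HIso ψ A₀' B₀' A' B')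
    (h : MIso Λ₀ r A₀ B₀ A₀' B₀') (hm : ∀ i < r, HMap (Λ i) A B A' B')
    (e : ∀ i < r, ∀ z ∈ ZZ A₀ B₀, Λ i (φ z) - ψ (Λ₀ i z) ∈ BB A' B') : MIso Λ r A B A' B' := by
  refine ⟨hm, fun z hz hb => ?_, fun y hy => ?_⟩
  · obtain ⟨z₀, hz₀, h1⟩ := hφ.srj z hz
    have h2 : z₀ ∈ BB A₀ B₀ := h.inj z₀ hz₀ fun i hi => hψ.inj _ ((h.map i hi).1 z₀ hz₀) (by
      have := sub_mem (add_mem ((hm i hi).2 _ h1) (hb i hi)) (e i hi z₀ hz₀)
      rwa [map_sub, sub_add_cancel, sub_sub_cancel] at this)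
    have := sub_mem (hφ.map.2 z₀ h2) h1
    rwa [sub_sub_cancel] at this
  · have h1 : ∀ i, ∃ y₀, i < r → y₀ ∈ ZZ A₀' B₀' ∧ ψ y₀ - y i ∈ BB A' B' := fun i => by
      by_cases hi : i < r
      · obtain ⟨y₀, h1⟩ := hψ.srj _ (hy i hi)
        exact ⟨y₀, fun _ => h1⟩
      · exact ⟨0, fun h => absurd h hi⟩
    choose y₀ h1 using h1
    obtain ⟨z₀, hz₀, h2⟩ := h.srj y₀ fun i hi => (h1 i hi).1
    refine ⟨φ z₀, hφ.map.1 z₀ hz₀, fun i hi => ?_⟩
    have := add_mem (add_mem (e i hi z₀ hz₀) (hψ.map.2 _ (h2 i hi))) (h1 i hi).2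
    rwa [map_sub, sub_add_sub_cancel, sub_add_sub_cancel] at this

variable {W : Type} [TopologicalSpace W] {r : ℕ} {S T : Set W} {V : W → Submodule ℂ (ℕ → ℂ)}
  {u : ℕ → TC PA →ₗ[ℚ] ℚ}

theorem cmap_BL8 (hu : IsU u) (S : Set W) (V : W → Submodule ℂ (ℕ → ℂ)) (i : ℕ) :
    CMap (sl (u i) : TC (W × PA) →ₗ[ℚ] TC W) (cn (PV S V)) (cn S) :=
  sl_cmap (E := Pz) (fun _ ha => (hu i).1.bb _ (D_mem_BB ha)) (fun _ hx => hx.1)
    fun _ ⟨_, v, _, h1, h2⟩ => ⟨v, h1, h2⟩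

theorem val_BL8 (hS : S.Nonempty) (A : Set PA) :
    SIso (Prod.map Subtype.val id : S × PA → W × PA) (up S A) ∅ (S ×ˢ A) ∅ := by
  classical
  obtain ⟨w₀, h₀⟩ := hS
  obtain ⟨k, hk⟩ : ∃ k : W → S, ∀ w ∈ S, (k w : W) = w :=
    ⟨fun w => if h : w ∈ S then ⟨w, h⟩ else ⟨w₀, h₀⟩, fun w h => by simp [h]⟩
  have ck : ContinuousOn k S :=
    Topology.IsInducing.subtypeVal.continuousOn_iff.2 (continuousOn_id.congr hk)
  exact SIso.of_inv (k := Prod.map k id) (empty_subset _) (empty_subset _)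
    (continuous_subtype_val.prodMap continuous_id).continuousOn (ck.prodMap continuousOn_id)
    (fun x hx => ⟨x.1.2, hx⟩) (mapsTo_empty _ _) (fun _ hx => hx.2) (mapsTo_empty _ _)
    (fun x _ => Prod.ext (Subtype.ext (hk _ x.1.2)) rfl) fun y hy => Prod.ext (hk _ hy.1) rfl

theorem IsU.frame (hu : IsU u) {s : Fin r → W → ℕ → ℂ} (h : Fr S V s) :
    MIso (fun i => (sl (u i) : TC (W × PA) →ₗ[ℚ] TC W)) r (cn (PV S V)) ⊥ (cn S) ⊥ := by
  have hm : ∀ i < r, HMap (sl (u i) : TC (W × PA) →ₗ[ℚ] TC W) (cn (PV S V)) ⊥ (cn S) ⊥ :=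
    fun i _ => (cmap_BL8 hu S V i).hmap fun c hc => by
      rw [Submodule.mem_bot] at hc ⊢
      rw [hc, map_zero]
  rcases S.eq_empty_or_nonempty with rfl | hS
  · have e : PV (∅ : Set W) V = ∅ := eq_empty_of_forall_notMem fun _ hx => hx.1
    refine ⟨hm, fun z hz _ => mem_BB_of_mem ?_, fun y hy => ⟨0, zero_mem _, fun i hi => ?_⟩⟩
    · have := hz.1
      rwa [e, cn_empty] at this
    · have := (hy i hi).1
      rw [cn_empty] at this
      rw [map_zero, zero_sub]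
      exact neg_mem (mem_BB_of_mem this)
  obtain ⟨J, hJ, h0, h1⟩ := h.triv
  have hv := val_BL8 hS (CP r)
  have hΘ := h1.comp hv
  have hφ := hΘ.hiso
  have hψ := (SIso.val S).hiso
  rw [cn_empty, cn_empty] at hφ
  rw [cn_empty, cn_empty, cn_univ] at hψ
  refine move_BL8 hφ hψ (hu.triv r S) hm fun i _ z hz => ?_
  have hH : Htp (fun t (x : S × PA) => J t (Prod.map Subtype.val id x)) (up S (CP r)) Pz :=
    ⟨hJ.cont.comp (f := fun p : ℝ × (S × PA) => (p.1, Prod.map Subtype.val id p.2))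
      (Continuous.continuousOn (by fun_prop)) fun _ hp => ⟨hp.1, hv.mS hp.2⟩,
      fun t ht _ hx => hJ.map t ht (hv.mS hx)⟩
  have hc := cap_coh (A := up S (CP r)) (A₀ := ∅) (c := z)
    (ω := u i ∘ₗ pu fun x : S × PA => J 1 (Prod.map Subtype.val id x))
    (ω' := u i ∘ₗ pu Prod.snd) (empty_subset _) (fun a ha => ?_) (by rwa [cn_empty])
  · have h2 := (hmap_pu (f := fun x : S × PA => (x.1 : W)) (S := up S (CP r)) (T := ∅) (S' := S)
      (T' := ∅) (Continuous.continuousOn (by fun_prop)) (fun x _ => x.1.2)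
      (mapsTo_empty _ _)).2 _ (by rwa [cn_empty])
    rw [cn_empty, map_sub] at h2
    rw [sl_pu _ hΘ.cont hz.1, sl, LinearMap.comp_apply,
      pu_pu continuous_fst.continuousOn (cap_mem _ hz.1)]
    exact h2
  · have h2 := (hu i).1.bb _ (BB_mono le_rfl (cn_mono (empty_subset _))
      (htp_BB hH (fun _ _ => mapsTo_empty _ _) ha))
    rw [map_sub, sub_eq_zero] at h2
    exact h2.trans (congrArg (u i) (pu_congr (fun x hx => h0 _ (hv.mS hx)) ha.1))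

theorem IsU.lh (hu : IsU u) (h : LF r S V) :
    MIso (fun i => (sl (u i) : TC (W × PA) →ₗ[ℚ] TC W)) r (cn (PV S V)) ⊥ (cn S) ⊥ := by
  have e : ∀ U : Set W, PV S V ∩ Prod.fst ⁻¹' U = PV (S ∩ U) V := fun U =>
    Set.ext fun _ => ⟨fun h => ⟨⟨h.1.1, h.2⟩, h.1.2⟩, fun h => ⟨⟨h.1.1, h.2⟩, h.1.2⟩⟩
  have := glue (f := LL (fun i => (sl (u i) : TC (W × PA) →ₗ[ℚ] TC W)) r)
    (fam_cn (p := Prod.fst) (S' := PV S V) (S := S) continuous_fst.continuousOn fun _ hx => hx.1)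
    ((fam_cn (p := id) continuousOn_id (mapsTo_id S)).piS r) (fun U => ?_) (fun w hw => ?_)
    isOpen_univ
  · rw [preimage_univ, preimage_univ, inter_univ, inter_univ, ← piS_bot r] at this
    exact hiso_LL.1 this
  · rw [e]
    exact cmap_LL fun i _ => cmap_BL8 hu (S ∩ U) V i
  · obtain ⟨U₀, h1, h2, s, h3⟩ := h w hw
    refine ⟨U₀, h1, h2, fun U _ hU => ?_⟩
    rw [e, ← piS_bot r]
    exact hiso_LL.2 (hu.frame (h3.mono (inter_subset_inter_right _ hU)))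

theorem IsU.lh_pair (hu : IsU u) (h : LF r S V) (hT : T ⊆ S) :
    MIso (fun i => (sl (u i) : TC (W × PA) →ₗ[ℚ] TC W)) r (cn (PV S V)) (cn (PV T V))
      (cn S) (cn T) := by
  refine hiso_LL.1 (five_quot (pr_cn fun _ hx => ⟨hT hx.1, hx.2⟩) (stb_cn _).pr_bot
    ((pr_cn hT).piS r) ((stb_cn T).pr_bot.piS r) (cmap_LL fun i _ => cmap_BL8 hu S V i)
    (fun c hc => (cmap_LL (fun i _ => cmap_BL8 hu T V i) c hc).1) (fun c hc => ?_)
    (hiso_LL.2 (hu.lh (h.mono hT))) (hiso_LL.2 (hu.lh h)))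
  rw [Submodule.mem_bot] at hc
  rw [hc, map_zero]
  exact zero_mem _

end Pool.Agent.Bet
end

-- part Pool.Agent.P.MP_d34769_ag.BL9
section

/-! TASK BL9: the projective completion of a vector bundle. -/

open Set

namespace Pool.Agent.Bet

noncomputable section

/-- drop the first coordinate -/
def tl_BL9 : (ℕ → ℂ) →ₗ[ℂ] (ℕ → ℂ) := LinearMap.funLeft ℂ ℂ Nat.succ

/-- put a new first coordinate -/
def cs_BL9 (a : ℂ) (v : ℕ → ℂ) : ℕ → ℂ := fun i => if i = 0 then a else v (i - 1)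

lemma tl_apply_BL9 (v : ℕ → ℂ) (i : ℕ) : tl_BL9 v i = v (i + 1) := rfl

lemma cs_zero_BL9 (a : ℂ) (v : ℕ → ℂ) : cs_BL9 a v 0 = a := rfl

lemma tl_cs_BL9 (a : ℂ) (v : ℕ → ℂ) : tl_BL9 (cs_BL9 a v) = v := by
  funext i
  simp [tl_apply_BL9, cs_BL9]

lemma ext_BL9 {v v' : ℕ → ℂ} (h0 : v 0 = v' 0) (h : tl_BL9 v = tl_BL9 v') : v = v' := by
  funext i
  cases i with
  | zero => exact h0
  | succ i => exact congrFun h i

lemma cont_tl_BL9 : Continuous tl_BL9 := continuous_pi fun i => continuous_apply (i + 1)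

lemma cont_cs_BL9 : Continuous fun p : ℂ × (ℕ → ℂ) => cs_BL9 p.1 p.2 := by
  refine continuous_pi fun i => ?_
  unfold cs_BL9
  split_ifs
  · exact continuous_fst
  · exact (continuous_apply _).comp continuous_snd

/-- the shift -/
def sh_BL9 : (ℕ → ℂ) →ₗ[ℂ] (ℕ → ℂ) where
  toFun := cs_BL9 0
  map_add' a b := ext_BL9 (by simp [cs_zero_BL9]) (by simp [tl_cs_BL9])
  map_smul' a b := ext_BL9 (by simp [cs_zero_BL9]) (by simp [tl_cs_BL9])

lemma sh_apply_BL9 (v : ℕ → ℂ) : sh_BL9 v = cs_BL9 0 v := rfl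

lemma sh_ker_BL9 : LinearMap.ker sh_BL9 = ⊥ := by
  rw [LinearMap.ker_eq_bot']
  intro v hv
  rw [← tl_cs_BL9 0 v, ← sh_apply_BL9, hv, map_zero]

lemma mem_map_BL9 {P : Submodule ℂ (ℕ → ℂ)} {v : ℕ → ℂ} :
    v ∈ P.map sh_BL9 ↔ v 0 = 0 ∧ tl_BL9 v ∈ P := by
  constructor
  · rintro ⟨u, hu, rfl⟩
    exact ⟨rfl, by rwa [sh_apply_BL9, tl_cs_BL9]⟩
  · rintro ⟨h0, h⟩
    exact ⟨_, h, ext_BL9 h0.symm (tl_cs_BL9 _ _)⟩

lemma sup_BL9 (P : Submodule ℂ (ℕ → ℂ)) :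
    Submodule.span ℂ {cs_BL9 1 0} ⊔ P.map sh_BL9 = P.comap tl_BL9 := by
  apply le_antisymm
  · refine sup_le ?_ fun v hv => (mem_map_BL9.1 hv).2
    rw [Submodule.span_singleton_le_iff_mem, Submodule.mem_comap, tl_cs_BL9]
    exact P.zero_mem
  · intro v hv
    have : v = v 0 • cs_BL9 1 0 + sh_BL9 (tl_BL9 v) :=
      ext_BL9 (by simp [cs_zero_BL9, sh_apply_BL9]) (by simp [tl_cs_BL9, sh_apply_BL9])
    rw [this]
    exact Submodule.add_mem_sup (Submodule.smul_mem _ _ (Submodule.mem_span_singleton_self _))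
      (Submodule.mem_map_of_mem hv)

lemma pm_surj_BL9 (x : PA) : ∃ v, pm v = x := qm_surj x

lemma mem_img_BL9 {A : Set (ℕ → ℂ)} (hA : ∀ a : ℂ, a ≠ 0 → ∀ v ∈ A, a • v ∈ A) {v : ℕ → ℂ} :
    pm v ∈ pm '' A ↔ v ∈ A := by
  refine ⟨?_, fun h => ⟨v, h, rfl⟩⟩
  rintro ⟨u, hu, e⟩
  obtain ⟨a, ha, rfl⟩ := pm_eq.1 e.symm
  exact hA a ha u hu

lemma mem_tl_BL9 {v : ℕ → ℂ} : pm v ∈ pm '' {v | tl_BL9 v ≠ 0} ↔ tl_BL9 v ≠ 0 :=
  mem_img_BL9 (A := {v | tl_BL9 v ≠ 0}) fun a ha u hu => by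
    show tl_BL9 (a • u) ≠ 0
    rw [map_smul]
    exact smul_ne_zero ha hu

lemma mem_hd_BL9 {v : ℕ → ℂ} : pm v ∈ pm '' {v | v 0 ≠ 0} ↔ v 0 ≠ 0 :=
  mem_img_BL9 (A := {v | v 0 ≠ 0}) fun _ ha _ hu => mul_ne_zero ha hu

lemma mem_PV_BL9 {W : Type} {S : Set W} {V : W → Submodule ℂ (ℕ → ℂ)} {w : W} {v : ℕ → ℂ} :
    (w, pm v) ∈ PV S V ↔ w ∈ S ∧ v ∈ V w ∧ v ≠ 0 := by
  refine ⟨?_, fun h => ⟨h.1, v, h.2.1, h.2.2, rfl⟩⟩
  rintro ⟨hw, u, hu, h0, e⟩
  obtain ⟨a, ha, rfl⟩ := pm_eq.1 (Eq.symm e)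
  exact ⟨hw, Submodule.smul_mem _ _ hu, smul_ne_zero ha h0⟩

/-- shrinking the first coordinate -/
def hh_BL9 (t : ℝ) : PA → PA :=
  dsc ℂˣ fun v : ℕ → ℂ => pm (cs_BL9 ((1 - t) * v 0) (tl_BL9 v))

lemma hh_pm_BL9 (t : ℝ) (v : ℕ → ℂ) :
    hh_BL9 t (pm v) = pm (cs_BL9 ((1 - t) * v 0) (tl_BL9 v)) := by
  refine dsc_qm (g := fun v : ℕ → ℂ => pm (cs_BL9 ((1 - t) * v 0) (tl_BL9 v))) fun γ => ?_
  rw [← pm_smul γ.ne_zero (cs_BL9 ((1 - t) * v 0) (tl_BL9 v))]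
  refine congrArg pm (ext_BL9 ?_ ?_)
  · simp only [cs_zero_BL9, Pi.smul_apply, Units.smul_def, smul_eq_mul]
    ring
  · rw [tl_cs_BL9, Units.smul_def, map_smul, map_smul, tl_cs_BL9]

lemma cont_hh_BL9 : Continuous fun p : ℝ × PA => hh_BL9 p.1 p.2 := by
  rw [← ((IsOpenQuotientMap.id (X := ℝ)).prodMap isOpenQuotientMap_pm).continuous_comp_iff]
  have : (fun p : ℝ × PA => hh_BL9 p.1 p.2) ∘ Prod.map id pm
      = fun p : ℝ × (ℕ → ℂ) => pm (cs_BL9 ((1 - p.1) * p.2 0) (tl_BL9 p.2)) :=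
    funext fun p => hh_pm_BL9 p.1 p.2
  rw [this]
  refine isOpenQuotientMap_pm.continuous.comp (cont_cs_BL9.comp
    (f := fun p : ℝ × (ℕ → ℂ) => ((1 - (p.1 : ℂ)) * p.2 0, tl_BL9 p.2)) ?_)
  exact Continuous.prodMk (by fun_prop) (cont_tl_BL9.comp continuous_snd)

/-- the affine chart -/
def ch_BL9 : PA → ℕ → ℂ := dsc ℂˣ fun v : ℕ → ℂ => (v 0)⁻¹ • tl_BL9 v

lemma ch_inv_BL9 (γ : ℂˣ) (v : ℕ → ℂ) :
    ((γ • v) 0)⁻¹ • tl_BL9 (γ • v) = (v 0)⁻¹ • tl_BL9 v := by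
  rw [Units.smul_def, map_smul, smul_smul, Pi.smul_apply, smul_eq_mul, mul_inv, mul_right_comm,
    inv_mul_cancel₀ γ.ne_zero, one_mul]

lemma ch_pm_BL9 (v : ℕ → ℂ) : ch_BL9 (pm v) = (v 0)⁻¹ • tl_BL9 v :=
  dsc_qm (g := fun v : ℕ → ℂ => (v 0)⁻¹ • tl_BL9 v) fun γ => ch_inv_BL9 γ v

lemma cont_ch_BL9 : ContinuousOn ch_BL9 (pm '' {v | v 0 ≠ 0}) :=
  dsc_cont (Γ := ℂˣ) (S := {v : ℕ → ℂ | v 0 ≠ 0})
    (fun γ _ hv => mul_ne_zero γ.ne_zero hv)
    (((continuous_apply 0).continuousOn.inv₀ fun _ hv => hv).smul cont_tl_BL9.continuousOn)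
    fun γ v _ => ch_inv_BL9 γ v

lemma open_tl_BL9 : IsOpen (pm '' {v | tl_BL9 v ≠ 0}) :=
  isOpenQuotientMap_pm.isOpenMap _ (isOpen_ne_fun cont_tl_BL9 continuous_const)

lemma open_hd_BL9 : IsOpen (pm '' {v | v 0 ≠ 0}) :=
  isOpenQuotientMap_pm.isOpenMap _ (isOpen_ne_fun (continuous_apply 0) continuous_const)

end

variable {W : Type} [TopologicalSpace W] {r : ℕ} {S T : Set W} {V : W → Submodule ℂ (ℕ → ℂ)}

lemma fr0_BL9 {s : Fin r → W → ℕ → ℂ} (h : Fr S V s) :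
    Fr S (fun w => (V w).map sh_BL9) fun i w => sh_BL9 (s i w) := by
  refine ⟨fun i => ?_, fun w hw => (h.li w hw).map' _ sh_ker_BL9, fun w hw => ?_⟩
  · exact cont_cs_BL9.comp_continuousOn (f := fun w => ((0 : ℂ), s i w))
      (continuousOn_const.prodMk (h.cont i))
  · rw [← h.sp w hw, Submodule.map_span, ← range_comp]
    rfl

lemma fr1_BL9 {s : Fin r → W → ℕ → ℂ} (h : Fr S V s) :
    Fr S (fun w => (V w).comap tl_BL9)
      fun i w => (Fin.cons (cs_BL9 1 0) (fun i => sh_BL9 (s i w)) : Fin (r + 1) → ℕ → ℂ) i := by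
  have h0 := fr0_BL9 h
  refine ⟨fun i => ?_, fun w hw => ?_, fun w hw => ?_⟩
  · refine Fin.cases ?_ (fun i => ?_) i
    · exact continuousOn_const
    · exact h0.cont i
  · refine (h0.li w hw).finCons ?_
    rw [h0.sp w hw, mem_map_BL9, cs_zero_BL9]
    simp
  · rw [← sup_BL9, ← h0.sp w hw, ← Submodule.span_insert, ← Fin.range_cons]

omit [TopologicalSpace W] in
lemma mem_B_BL9 {w : W} {v : ℕ → ℂ} :
    (w, pm v) ∈ PV S (fun w => (V w).comap tl_BL9) ∩ Prod.snd ⁻¹' (pm '' {v | tl_BL9 v ≠ 0})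
      ↔ w ∈ S ∧ tl_BL9 v ∈ V w ∧ tl_BL9 v ≠ 0 := by
  rw [mem_inter_iff, mem_PV_BL9, mem_preimage, mem_tl_BL9]
  exact ⟨fun h => ⟨h.1.1, h.1.2.1, h.2⟩,
    fun h => ⟨⟨h.1, h.2.1, fun e => h.2.2 (by rw [e, map_zero])⟩, h.2.2⟩⟩

omit [TopologicalSpace W] in
lemma mem_P0_BL9 {w : W} {v : ℕ → ℂ} :
    (w, pm v) ∈ PV S (fun w => (V w).map sh_BL9)
      ↔ (w ∈ S ∧ tl_BL9 v ∈ V w ∧ tl_BL9 v ≠ 0) ∧ v 0 = 0 := by
  rw [mem_PV_BL9, mem_map_BL9]
  exact ⟨fun h => ⟨⟨h.1, h.2.1.2, fun e => h.2.2 (ext_BL9 h.2.1.1 (by rw [e, map_zero]))⟩,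
    h.2.1.1⟩, fun h => ⟨h.1.1, ⟨h.2, h.1.2.1⟩, fun e => h.1.2.2 (by rw [e, map_zero])⟩⟩

lemma def_BL9 (hT : T ⊆ S) :
    SIso id (PV S fun w => (V w).map sh_BL9) (PV T fun w => (V w).map sh_BL9)
      (PV S (fun w => (V w).comap tl_BL9) ∩ Prod.snd ⁻¹' (pm '' {v | tl_BL9 v ≠ 0}))
      (PV T (fun w => (V w).comap tl_BL9) ∩ Prod.snd ⁻¹' (pm '' {v | tl_BL9 v ≠ 0})) := by
  have a1 : ∀ S : Set W, (PV S fun w => (V w).map sh_BL9) ⊆
      PV S (fun w => (V w).comap tl_BL9) ∩ Prod.snd ⁻¹' (pm '' {v | tl_BL9 v ≠ 0}) := by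
    rintro S ⟨w, x⟩ hx
    obtain ⟨v, rfl⟩ := pm_surj_BL9 x
    exact mem_B_BL9.2 (mem_P0_BL9.1 hx).1
  have a2 : ∀ (S : Set W) (t : ℝ), MapsTo (fun x : W × PA => (x.1, hh_BL9 t x.2))
      (PV S (fun w => (V w).comap tl_BL9) ∩ Prod.snd ⁻¹' (pm '' {v | tl_BL9 v ≠ 0}))
      (PV S (fun w => (V w).comap tl_BL9) ∩ Prod.snd ⁻¹' (pm '' {v | tl_BL9 v ≠ 0})) := by
    rintro S t ⟨w, x⟩ hx
    obtain ⟨v, rfl⟩ := pm_surj_BL9 x
    simp only [hh_pm_BL9]
    rw [mem_B_BL9, tl_cs_BL9]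
    exact mem_B_BL9.1 hx
  have a3 : ∀ (S : Set W) (t : ℝ), MapsTo (fun x : W × PA => (x.1, hh_BL9 t x.2))
      (PV S fun w => (V w).map sh_BL9) (PV S fun w => (V w).map sh_BL9) := by
    rintro S t ⟨w, x⟩ hx
    obtain ⟨v, rfl⟩ := pm_surj_BL9 x
    simp only [hh_pm_BL9]
    rw [mem_P0_BL9, tl_cs_BL9, cs_zero_BL9, (mem_P0_BL9.1 hx).2, mul_zero]
    exact ⟨(mem_P0_BL9.1 hx).1, rfl⟩
  have a4 : ∀ S : Set W, MapsTo (fun x : W × PA => (x.1, hh_BL9 1 x.2))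
      (PV S (fun w => (V w).comap tl_BL9) ∩ Prod.snd ⁻¹' (pm '' {v | tl_BL9 v ≠ 0}))
      (PV S fun w => (V w).map sh_BL9) := by
    rintro S ⟨w, x⟩ hx
    obtain ⟨v, rfl⟩ := pm_surj_BL9 x
    simp only [hh_pm_BL9]
    rw [mem_P0_BL9, tl_cs_BL9, cs_zero_BL9]
    exact ⟨mem_B_BL9.1 hx, by simp⟩
  refine SIso.of_def (H := fun t x => (x.1, hh_BL9 t x.2)) (a1 S) (a1 T)
    (inter_subset_inter_left _ fun x hx => ⟨hT hx.1, hx.2⟩) (fun x hx => ⟨hT hx.1, hx.2⟩)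
    ⟨?_, fun t _ => a2 S t⟩ (fun t _ => a2 T t) (fun t _ => a3 S t) (fun t _ => a3 T t) ?_
    (a4 S) (a4 T)
  · refine Continuous.continuousOn (Continuous.prodMk (continuous_fst.comp continuous_snd) ?_)
    exact cont_hh_BL9.comp (f := fun p : ℝ × W × PA => (p.1, p.2.2)) (by fun_prop)
  · rintro ⟨w, x⟩ _
    obtain ⟨v, rfl⟩ := pm_surj_BL9 x
    simp only [hh_pm_BL9]
    refine Prod.ext rfl (congrArg pm (ext_BL9 ?_ (tl_cs_BL9 _ _)))
    simp [cs_zero_BL9]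

lemma chart_BL9 :
    SIso (fun x : W × (ℕ → ℂ) => (x.1, pm (cs_BL9 1 x.2))) (Tot S V) (TotC S T V)
      (PV S (fun w => (V w).comap tl_BL9) ∩ Prod.snd ⁻¹' (pm '' {v | v 0 ≠ 0}))
      ((PV S (fun w => (V w).comap tl_BL9) ∩ Prod.snd ⁻¹' (pm '' {v | v 0 ≠ 0})) \
        (PV T (fun w => (V w).comap tl_BL9) ∪
          PV S (fun w => (V w).comap tl_BL9) ∩ Prod.snd ⁻¹' (pm '' {v | tl_BL9 v ≠ 0}))ᶜ) := by
  have n1 : ∀ v : ℕ → ℂ, cs_BL9 1 v ≠ 0 := fun v e => one_ne_zero (congrFun e 0)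
  have m1 : MapsTo (fun x : W × (ℕ → ℂ) => (x.1, pm (cs_BL9 1 x.2))) (Tot S V)
      (PV S (fun w => (V w).comap tl_BL9) ∩ Prod.snd ⁻¹' (pm '' {v | v 0 ≠ 0})) := by
    rintro ⟨w, v⟩ hx
    refine ⟨mem_PV_BL9.2 ⟨hx.1, ?_, n1 v⟩, mem_hd_BL9.2 one_ne_zero⟩
    rw [Submodule.mem_comap, tl_cs_BL9]
    exact hx.2
  have m3 : MapsTo (fun y : W × PA => (y.1, ch_BL9 y.2))
      (PV S (fun w => (V w).comap tl_BL9) ∩ Prod.snd ⁻¹' (pm '' {v | v 0 ≠ 0})) (Tot S V) := by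
    rintro ⟨w, x⟩ hx
    obtain ⟨v, rfl⟩ := pm_surj_BL9 x
    simp only [ch_pm_BL9]
    obtain ⟨h1, h2, -⟩ := mem_PV_BL9.1 hx.1
    exact ⟨h1, Submodule.smul_mem _ _ h2⟩
  refine SIso.of_inv (k := fun y : W × PA => (y.1, ch_BL9 y.2)) (fun x hx => hx.1) sdiff_subset
    ?_ ?_ m1 ?_ m3 ?_ ?_ ?_
  · refine Continuous.continuousOn (continuous_fst.prodMk (isOpenQuotientMap_pm.continuous.comp ?_))
    exact cont_cs_BL9.comp (f := fun x : W × (ℕ → ℂ) => ((1 : ℂ), x.2)) (by fun_prop)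
  · exact continuous_fst.continuousOn.prodMk
      (cont_ch_BL9.comp continuous_snd.continuousOn fun _ hx => hx.2)
  · rintro ⟨w, v⟩ hx
    refine ⟨m1 hx.1, not_not.2 ?_⟩
    rcases hx.2 with h | h
    · exact Or.inl ⟨h, (m1 hx.1).1.2⟩
    · refine Or.inr (mem_B_BL9.2 ?_)
      rw [tl_cs_BL9]
      exact ⟨hx.1.1, hx.1.2, h⟩
  · rintro ⟨w, x⟩ hx
    obtain ⟨v, rfl⟩ := pm_surj_BL9 x
    refine ⟨m3 hx.1, ?_⟩
    rcases not_not.1 hx.2 with h | h
    · exact Or.inl h.1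
    · refine Or.inr ?_
      simp only [ch_pm_BL9]
      exact smul_ne_zero (inv_ne_zero (mem_hd_BL9.1 hx.1.2)) (mem_B_BL9.1 h).2.2
  · rintro ⟨w, v⟩ _
    simp only [ch_pm_BL9, cs_zero_BL9, tl_cs_BL9, inv_one, one_smul]
  · rintro ⟨w, x⟩ hx
    obtain ⟨v, rfl⟩ := pm_surj_BL9 x
    have h0 : v 0 ≠ 0 := mem_hd_BL9.1 hx.2
    simp only [ch_pm_BL9]
    refine Prod.ext rfl ?_
    rw [← pm_smul (inv_ne_zero h0) v]
    refine congrArg pm (ext_BL9 ?_ ?_)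
    · rw [cs_zero_BL9, Pi.smul_apply, smul_eq_mul, inv_mul_cancel₀ h0]
    · rw [tl_cs_BL9, map_smul]

theorem completion (h : LF r S V) (hT : RO T S) :
    ∃ (V₀ V₁ : W → Submodule ℂ (ℕ → ℂ)) (B : Set (W × PA)) (j : W × (ℕ → ℂ) → W × PA),
      LF r S V₀ ∧ LF (r + 1) S V₁ ∧ RO B (PV S V₁) ∧ RO (PV T V₁) (PV S V₁) ∧
      SIso id (PV S V₀) (PV T V₀) B (B ∩ PV T V₁) ∧ SIso id (PV S V₀) ∅ B ∅ ∧
      SIso j (Tot S V) (TotC S T V) (PV S V₁) (PV T V₁ ∪ B) := by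
  have hTS := hT.subset
  have r1 : RO (PV S (fun w => (V w).comap tl_BL9) ∩ Prod.snd ⁻¹' (pm '' {v | tl_BL9 v ≠ 0}))
      (PV S fun w => (V w).comap tl_BL9) := ⟨_, open_tl_BL9.preimage continuous_snd, rfl⟩
  have r2 : RO (PV T fun w => (V w).comap tl_BL9) (PV S fun w => (V w).comap tl_BL9) := by
    obtain ⟨U, hU, rfl⟩ := hT
    refine ⟨Prod.fst ⁻¹' U, hU.preimage continuous_fst, Set.ext fun x => ?_⟩
    exact ⟨fun hx => ⟨⟨hx.1.1, hx.2⟩, hx.1.2⟩, fun hx => ⟨⟨hx.1.1, hx.2⟩, hx.1.2⟩⟩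
  refine ⟨fun w => (V w).map sh_BL9, fun w => (V w).comap tl_BL9,
    PV S (fun w => (V w).comap tl_BL9) ∩ Prod.snd ⁻¹' (pm '' {v | tl_BL9 v ≠ 0}),
    fun x => (x.1, pm (cs_BL9 1 x.2)), fun w hw => ?_, fun w hw => ?_, r1, r2, ?_, ?_, ?_⟩
  · obtain ⟨U, h1, h2, s, h3⟩ := h w hw
    exact ⟨U, h1, h2, _, fr0_BL9 h3⟩
  · obtain ⟨U, h1, h2, s, h3⟩ := h w hw
    exact ⟨U, h1, h2, _, fr1_BL9 h3⟩
  · have e : PV S (fun w => (V w).comap tl_BL9) ∩ Prod.snd ⁻¹' (pm '' {v | tl_BL9 v ≠ 0}) ∩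
        PV T (fun w => (V w).comap tl_BL9)
        = PV T (fun w => (V w).comap tl_BL9) ∩ Prod.snd ⁻¹' (pm '' {v | tl_BL9 v ≠ 0}) :=
      Set.ext fun x => ⟨fun hx => ⟨hx.2, hx.1.2⟩, fun hx => ⟨⟨r2.subset hx.1, hx.2⟩, hx.1⟩⟩
    rw [e]
    exact def_BL9 hTS
  · have e : ∀ V' : W → Submodule ℂ (ℕ → ℂ), PV ∅ V' = ∅ := fun V' =>
      eq_empty_of_forall_notMem fun x hx => hx.1
    have := def_BL9 (V := V) (empty_subset S)
    rwa [e, e, empty_inter] at this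
  · have r3 := r2.union r1
    have e : PV S (fun w => (V w).comap tl_BL9) \ (PV T (fun w => (V w).comap tl_BL9) ∪
        PV S (fun w => (V w).comap tl_BL9) ∩ Prod.snd ⁻¹' (pm '' {v | tl_BL9 v ≠ 0}))ᶜ
        = PV T (fun w => (V w).comap tl_BL9) ∪
          PV S (fun w => (V w).comap tl_BL9) ∩ Prod.snd ⁻¹' (pm '' {v | tl_BL9 v ≠ 0}) := by
      rw [sdiff_compl, inter_eq_right.2 r3.subset]
    have hex := SIso.exc (S := PV S fun w => (V w).comap tl_BL9)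
      (S₁ := PV S (fun w => (V w).comap tl_BL9) ∩ Prod.snd ⁻¹' (pm '' {v | v 0 ≠ 0}))
      (A := (PV T (fun w => (V w).comap tl_BL9) ∪
        PV S (fun w => (V w).comap tl_BL9) ∩ Prod.snd ⁻¹' (pm '' {v | tl_BL9 v ≠ 0}))ᶜ)
      ⟨_, open_hd_BL9.preimage continuous_snd, rfl⟩ (by rw [e]; exact r3) (by
        rintro ⟨w, x⟩ hx
        obtain ⟨v, rfl⟩ := pm_surj_BL9 x
        refine ⟨hx.1, mem_hd_BL9.2 fun h0 => hx.2 (Or.inr ⟨hx.1, mem_tl_BL9.2 fun h1 => ?_⟩)⟩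
        exact (mem_PV_BL9.1 hx.1).2.2 (ext_BL9 h0 (by rw [h1, map_zero])))
    rw [e] at hex
    exact hex.comp chart_BL9

end Pool.Agent.Bet
end

-- part Pool.Agent.P.MP_d34769_ag.BL10
section

/-! TASK BL10: the Thom isomorphism. -/

open Set

namespace Pool.Agent.Bet

variable {W : Type} [TopologicalSpace W] {r : ℕ} {S T : Set W} {V : W → Submodule ℂ (ℕ → ℂ)}

theorem move_BL10 {u : ℕ → TC PA →ₗ[ℚ] ℚ} (hu : IsU u) {S₀ T₀ S₁ T₁ : Set (W × PA)}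
    (hi : SIso id S₀ T₀ S₁ T₁) (h1 : S₁ ⊆ PV S V) (h2 : MapsTo Prod.fst T₁ T)
    (h : MIso (fun i => (sl (u i) : TC (W × PA) →ₗ[ℚ] TC W)) r (cn S₀) (cn T₀) (cn S) (cn T)) :
    MIso (fun i => (sl (u i) : TC (W × PA) →ₗ[ℚ] TC W)) r (cn S₁) (cn T₁) (cn S) (cn T) := by
  have e := hi.hiso
  rw [pu_id] at e
  refine hiso_LL.1 (e.of_comp_left (CMap.hmap (cmap_LL fun i _ => ?_) fun c hc => ?_)
    (hiso_LL.2 h))
  · refine sl_cmap (E := Pz) (fun a ha => (hu i).1.bb _ (D_mem_BB ha)) (fun x hx => (h1 hx).1)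
      fun x hx => ?_
    obtain ⟨v, -, h0, e⟩ := (h1 hx).2
    exact ⟨v, h0, e⟩
  · exact mem_piS.2 fun i => sl_mem _ h2 hc

theorem thom_rk (h : LF r S V) (hT : RO T S) :
    (∀ k, RK (Tot S V) (TotC S T V) (k + 2 * r) = RK S T k) ∧
    (∀ k < 2 * r, RK (Tot S V) (TotC S T V) k = 0) ∧
    (Ont (Tot S V) (Tot S V) (TotC S T V) → Ont S S T) := by
  obtain ⟨V₀, V₁, B, j, h0, h1, hB, hA, i1, i2, i3⟩ := completion h hT
  obtain ⟨u, hu⟩ := exists_U
  have hs : PV T V₁ ∪ B ⊆ PV S V₁ := union_subset hA.subset hB.subset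
  have hN := small_ro (hA.of_subset subset_union_left hs) (hB.of_subset subset_union_right hs)
  have m1 := hu.lh_pair h1 hT.subset
  have m2 := move_BL10 hu i1 hB.subset (fun x hx => hx.2.1) (hu.lh_pair h0 hT.subset)
  rw [cn_inter] at m2
  have a2 := move_BL10 (T := ∅) hu i2 hB.subset (mapsTo_empty _ _)
    (by rw [cn_empty, cn_empty]; exact hu.lh h0)
  rw [cn_empty, cn_empty] at a2
  have key := thom_alg (gpr_cn hs) (gpr_cn subset_union_left) (gpr_cn subset_union_right)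
    (gpr_cn hT.subset) hN (fun i _ => sl_deg (hu i).1.dg) m1 m2
  refine ⟨fun k => (i3.rk _).trans (key.1 k), fun k hk => (i3.rk _).trans (key.2 k hk),
    fun ho => ?_⟩
  exact thom_onto (pr_cn hs) (pr_cn subset_union_left) (pr_cn subset_union_right)
    (pr_cn hT.subset) hN m1 m2 (hu.lh h1) a2 (i3.ont subset_rfl i3.mS ho)

theorem assoc_BL10 (S T : Set W) (V : W → Submodule ℂ (ℕ → ℂ)) (B : Type) [TopologicalSpace B] :
    SIso (fun x : B × W × (ℕ → ℂ) => ((x.1, x.2.1), x.2.2)) (up B (Tot S V)) (up B (TotC S T V))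
      (Tot (up B S) fun x => V x.2) (TotC (up B S) (up B T) fun x => V x.2) :=
  SIso.of_inv (k := fun y => (y.1.1, y.1.2, y.2)) (fun _ hx => hx.1) (fun _ hx => hx.1)
    (by fun_prop) (by fun_prop) (fun _ hx => hx) (fun _ hx => hx) (fun _ hx => hx)
    (fun _ hx => hx) (fun _ _ => rfl) fun _ _ => rfl

theorem thom (h : LF r S V) (hT : RO T S) : Sh (2 * r) S T (Tot S V) (TotC S T V) := by
  refine ⟨fun B _ k => ?_, fun B _ k hk => ?_, fun B _ ho => ?_⟩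
  · exact ((assoc_BL10 S T V B).rk _).trans ((thom_rk (h.up B) (hT.up B)).1 k)
  · exact ((assoc_BL10 S T V B).rk _).trans ((thom_rk (h.up B) (hT.up B)).2.1 k hk)
  · exact (thom_rk (h.up B) (hT.up B)).2.2
      ((assoc_BL10 S T V B).ont subset_rfl (assoc_BL10 S T V B).mS ho)

end Pool.Agent.Bet
end

-- part Pool.Agent.P.MP_d34769_ag.BB5
section

/-! TASK BB5: the equivariant Thom isomorphism. -/

open Set

namespace Pool.Agent.Bet

variable {Γ X F : Type} [Group Γ] [TopologicalSpace Γ] [IsTopologicalGroup Γ]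
  [TopologicalSpace X] [MulAction Γ X] [ContinuousSMul Γ X] [AddCommGroup F] [Module ℂ F]
  [TopologicalSpace F] [IsTopologicalAddGroup F] [ContinuousSMul ℂ F] [T2Space F]
  [DistribMulAction Γ F] [SMulCommClass Γ ℂ F] [ContinuousSMul Γ F]
  {S T : Set X} {F₀ : Submodule ℂ F} [FiniteDimensional ℂ F₀] {J : X → F →ₗ[ℂ] (ℕ → ℂ)}

theorem assoc_eqv (hS : Ivt Γ S) (hP : Prin Γ S) (hJ : Emb Γ S F₀ J) (hT : Ivt Γ T) (h : T ⊆ S) :
    Eqv (qs Γ (S ×ˢ (F₀ : Set F))) (qs Γ {x | x ∈ S ×ˢ (F₀ : Set F) ∧ (x.1 ∈ T ∨ x.2 ≠ 0)})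
      (Tot (qs Γ S) (asV Γ F₀ J)) (TotC (qs Γ S) (qs Γ T) (asV Γ F₀ J)) := by
  obtain ⟨g, cg, hg⟩ := assoc_inv hS hP hJ
  have hI : Ivt Γ (S ×ˢ (F₀ : Set F)) := hS.prod hJ.ivt
  have hi : ∀ γ : Γ, ∀ x ∈ S ×ˢ (F₀ : Set F),
      (qm Γ (γ • x).1, J (γ • x).1 (γ • x).2) = (qm Γ x.1, J x.1 x.2) := fun γ x hx =>
    Prod.ext (qm_smul γ x.1) (hJ.inv γ x.1 hx.1 x.2 hx.2)
  have hf : ∀ x ∈ S ×ˢ (F₀ : Set F),
      dsc Γ (fun x : X × F => (qm Γ x.1, J x.1 x.2)) (qm Γ x) = (qm Γ x.1, J x.1 x.2) :=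
    fun x hx => dsc_qm fun γ => hi γ x hx
  have cf : ContinuousOn (dsc Γ fun x : X × F => (qm Γ x.1, J x.1 x.2))
      (qs Γ (S ×ˢ (F₀ : Set F))) :=
    dsc_cont hI ((continuous_qm.comp continuous_fst).continuousOn.prodMk hJ.cont) hi
  have hT' : ∀ y ∈ Tot (qs Γ S) (asV Γ F₀ J), ∃ x ∈ S, ∃ v ∈ F₀, y = (qm Γ x, J x v) := by
    rintro ⟨w, y⟩ ⟨⟨x, hx, rfl⟩, hy⟩
    have hy' : y ∈ F₀.map (J x) := by
      rw [← asV_qm hS hJ hx]
      exact hy
    obtain ⟨v, hv, rfl⟩ := hy'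
    exact ⟨x, hx, v, hv, rfl⟩
  have m1 : MapsTo (dsc Γ fun x : X × F => (qm Γ x.1, J x.1 x.2)) (qs Γ (S ×ˢ (F₀ : Set F)))
      (Tot (qs Γ S) (asV Γ F₀ J)) := by
    rintro _ ⟨x, hx, rfl⟩
    rw [hf x hx]
    refine ⟨⟨x.1, hx.1, rfl⟩, ?_⟩
    show J x.1 x.2 ∈ asV Γ F₀ J (qm Γ x.1)
    rw [asV_qm hS hJ hx.1]
    exact ⟨x.2, hx.2, rfl⟩
  have m3 : MapsTo g (Tot (qs Γ S) (asV Γ F₀ J)) (qs Γ (S ×ˢ (F₀ : Set F))) := by
    intro y hy
    obtain ⟨x, hx, v, hv, rfl⟩ := hT' y hy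
    rw [hg x hx v hv]
    exact ⟨(x, v), ⟨hx, hv⟩, rfl⟩
  have e : ∀ w ∈ qs Γ (S ×ˢ (F₀ : Set F)),
      g (dsc Γ (fun x : X × F => (qm Γ x.1, J x.1 x.2)) w) = w := by
    rintro _ ⟨x, hx, rfl⟩
    rw [hf x hx, hg x.1 hx.1 x.2 hx.2]
  have e' : ∀ y ∈ Tot (qs Γ S) (asV Γ F₀ J),
      dsc Γ (fun x : X × F => (qm Γ x.1, J x.1 x.2)) (g y) = y := by
    intro y hy
    obtain ⟨x, hx, v, hv, rfl⟩ := hT' y hy
    rw [hg x hx v hv, hf (x, v) ⟨hx, hv⟩]
  refine SIso.eqv (SIso.of_inv (qs_mono fun x hx => hx.1) (fun y hy => hy.1) cf cg m1 ?_ m3 ?_ e e')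
    (SIso.of_inv (empty_subset _) (empty_subset _) cf cg m1 (mapsTo_empty _ _) m3
      (mapsTo_empty _ _) e e')
  · rintro _ ⟨x, hx, rfl⟩
    refine ⟨m1 ⟨x, hx.1, rfl⟩, ?_⟩
    rw [hf x hx.1]
    rcases hx.2 with h1 | h1
    · exact Or.inl ⟨x.1, h1, rfl⟩
    · exact Or.inr fun h2 => h1 (hJ.inj x.1 hx.1.1 x.2 hx.1.2 h2)
  · intro y hy
    obtain ⟨x, hx, v, hv, rfl⟩ := hT' y hy.1
    rw [hg x hx v hv]
    refine ⟨(x, v), ⟨⟨hx, hv⟩, ?_⟩, rfl⟩
    rcases hy.2 with h1 | h1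
    · exact Or.inl ((mem_qs hT).1 h1)
    · refine Or.inr fun h2 => h1 ?_
      show J x v = 0
      rw [show v = 0 from h2, map_zero]

theorem q_thom (hS : Ivt Γ S) (hP : Prin Γ S) (hJ : Emb Γ S F₀ J) (hT : Ivt Γ T) (h : RO T S) :
    Sh (2 * Module.finrank ℂ F₀) (qs Γ S) (qs Γ T) (qs Γ (S ×ˢ (F₀ : Set F)))
      (qs Γ {x | x ∈ S ×ˢ (F₀ : Set F) ∧ (x.1 ∈ T ∨ x.2 ≠ 0)}) := by
  exact (thom (assoc_lf hS hP hJ) (h.qs hT hS)).trans (assoc_eqv hS hP hJ hT h.subset).2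

end Pool.Agent.Bet
end

-- part Pool.Agent.P.MP_d34769_ag.BS1
section

/-! TASK BS1: the neighbourhood of a stratum, and the Thom isomorphism for block bundles. -/

open Set Matrix

namespace Pool.Agent.Bet

variable {ι : Type} [Fintype ι] [DecidableEq ι] {κ : Type} {Ar : Type} [Fintype κ] [Fintype Ar]
  {s t : Ar → κ} {w : κ → ℝ} {c : ι → Option κ} {p : ι → Bool}

theorem exists_nbhd (hp : Adm c p) {U : Set (Cj Ar ι)} (hU : Ivt (Kc c) U)
    (h1 : St s t w c (dv (c1 c p)) ⊆ U) (h2 : RO (U \ St s t w c (dv (c1 c p))) U) :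
    ∃ (W : Set (Cj Ar ι)) (q : Cj Ar ι → Cj Unit ι), RO W U ∧ Ivt (Kc c) W ∧
      St s t w c (dv (c1 c p)) ⊆ W ∧ ContinuousOn q W ∧ MapsTo q W (Gr c p) ∧
      (∀ k : Kc c, ∀ φ ∈ W, q (k • φ) = k • q φ) ∧
      ∀ φ ∈ St s t w c (dv (c1 c p)), (q φ = E1 p ↔ φ ∈ Zs s t w c p) := by
  obtain ⟨q₀, c0, m0, e0, z0⟩ := exists_q (s := s) (t := t) (w := w) hp
  have hS : Ivt (Kc c) (St s t w c (dv (c1 c p))) := (ivt_St _).mono (Kc_le c)
  obtain ⟨q', c1', e1', x1⟩ := exists_extension c hU hS h1 h2 c0 e0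
  obtain ⟨N, ρ, oN, iN, gN, cρ, mρ, eρ, fρ⟩ := exists_retraction hp
  refine ⟨U ∩ q' ⁻¹' N, fun φ => ρ (q' φ), RO.of_isOpen c1' oN, ?_, ?_, ?_, ?_, ?_, ?_⟩
  · intro k φ hφ
    refine ⟨hU k φ hφ.1, ?_⟩
    rw [mem_preimage, e1' k φ hφ.1]
    exact iN k _ hφ.2
  · intro φ hφ
    refine ⟨h1 hφ, ?_⟩
    rw [mem_preimage, x1 hφ]
    exact gN (m0 hφ)
  · exact cρ.comp (c1'.mono inter_subset_left) fun φ hφ => hφ.2
  · exact fun φ hφ => mρ hφ.2
  · intro k φ hφ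
    show ρ (q' (k • φ)) = k • ρ (q' φ)
    rw [e1' k φ hφ.1, eρ k _ hφ.2]
  · intro φ hφ
    show ρ (q' φ) = E1 p ↔ _
    rw [x1 hφ, fρ _ (m0 hφ)]
    exact z0 φ hφ

theorem prin_cp (c : ι → Option κ) (p : ι → Bool) : Prin (Kc (cp c p)) (Ec c) := by
  exact (prin_Kc (cp c p)).mono (Ec_subset_cp c p)

theorem ivt_Ec_cp (c : ι → Option κ) (p : ι → Bool) : Ivt (Kc (cp c p)) (Ec c) := by
  exact (ivt_Ec c).mono ((Kc_cp_le c p).trans (Kc_le c))

/-- the Thom isomorphism for the bundle with fibre the lower left block of another quiver -/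
theorem thom_R21 {Ar' : Type} [Fintype Ar'] (s' t' : Ar' → κ) {S T : Set (Cj Ar ι)}
    (hS : Ivt (Kc (cp c p)) S) (hT : Ivt (Kc (cp c p)) T) (h : RO T S) :
    Sh (2 * bb s' t' (dv (c1 c p)) (dv (c2 c p))) (Bo (Kc (cp c p)) S (Ec c))
      (Bo (Kc (cp c p)) T (Ec c))
      (qs (Kc (cp c p)) ((S ×ˢ Ec c) ×ˢ (R21 s' t' c p : Set (Cj Ar' ι))))
      (qs (Kc (cp c p)) {x | x ∈ (S ×ˢ Ec c) ×ˢ (R21 s' t' c p : Set (Cj Ar' ι)) ∧
        (x.1.1 ∈ T ∨ x.2 ≠ 0)}) := by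
  obtain ⟨J, cJ, iJ, nJ⟩ := exists_J (ι := ι) (Ar := Ar')
  have hE := ivt_Ec_cp c p
  have hJ : Emb (Kc (cp c p)) (S ×ˢ Ec c) (R21 s' t' c p) fun x : Cj Ar ι × Mt ι => J x.2 :=
    ⟨ivt_R21 s' t' c p,
      (cJ.comp ((continuous_snd.comp continuous_fst).prodMk continuous_snd)).continuousOn,
      fun γ x _ v _ => iJ γ.1 (mem_Kc.1 γ.2).2 x.2 v,
      fun x hx v hv h0 => nJ κ s' t' c x.2 hx.2 v hv.1 h0⟩
  have key := q_thom (hS.prod hE) (prin_cp c p).prod_right hJ (hT.prod hE) (h.prod (RO.refl _))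
  have e : {x : (Cj Ar ι × Mt ι) × Cj Ar' ι |
      x ∈ (S ×ˢ Ec c) ×ˢ (R21 s' t' c p : Set (Cj Ar' ι)) ∧ (x.1 ∈ T ×ˢ Ec c ∨ x.2 ≠ 0)} =
      {x | x ∈ (S ×ˢ Ec c) ×ˢ (R21 s' t' c p : Set (Cj Ar' ι)) ∧ (x.1.1 ∈ T ∨ x.2 ≠ 0)} :=
    Set.ext fun x => and_congr_right fun hx => or_congr_left (and_iff_left hx.1.2)
  rw [e, finrank_R21] at key
  exact key

end Pool.Agent.Bet
end

-- part Pool.Agent.P.MP_d34769_ag.BM11
section

/-! TASK BM11: the big cell of the Grassmannian. -/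

open Set Matrix

namespace Pool.Agent.Bet

variable {ι : Type} [Fintype ι] [DecidableEq ι] {κ : Type} {Ar : Type} [Fintype κ]
  {c : ι → Option κ} {p : ι → Bool}

open scoped ComplexOrder in
lemma unit_BM11 (x : Matrix ι ι ℂ) : IsUnit (1 + (x - star x)) := by
  have h := (PosDef.one.add_posSemidef (posSemidef_conjTranspose_mul_self (x - star x))).isUnit
  have e : 1 + (x - star x)ᴴ * (x - star x) = (1 - (x - star x)) * (1 + (x - star x)) := by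
    rw [← star_eq_conjTranspose, star_sub, star_star]
    noncomm_ring
  rw [e, isUnit_iff_isUnit_det, det_mul] at h
  exact (isUnit_iff_isUnit_det _).2 (isUnit_of_mul_isUnit_right h)

/-- The unit `1 + x - x^*`. -/
noncomputable def gBM11 (x : Matrix ι ι ℂ) : GG ι := (unit_BM11 x).unit

lemma inv_BM11 {A : Matrix ι ι ℂ} (h : A.det ≠ 0) : ContinuousAt Inv.inv A :=
  continuousAt_matrix_inv A (NormedRing.inverse_continuousAt (Units.mk0 _ h))

lemma cont_BM11 : Continuous (gBM11 : Matrix ι ι ℂ → GG ι) := by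
  have h : Continuous fun x : Matrix ι ι ℂ => 1 + (x - star x) := by fun_prop
  refine Units.continuous_iff.2 ⟨h, ?_⟩
  simp only [coe_units_inv]
  exact continuous_iff_continuousAt.2 fun x => ContinuousAt.comp (g := Inv.inv)
    (inv_BM11 ((isUnit_iff_isUnit_det _).1 (unit_BM11 x)).ne_zero) h.continuousAt

omit [Fintype κ] in
lemma mem_BM11 {x : Matrix ι ι ℂ} (h1 : ∀ o, dg c o * x = x * dg c o) (h2 : dg c none * x = 0) :
    gBM11 x ∈ Gc c := by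
  have h3 : ∀ o, dg c o * star x = star x * dg c o := fun o => by
    simpa [dg] using (congrArg star (h1 o)).symm
  have h4 : dg c none * star x = 0 := by
    rw [h3]
    simpa [dg] using congrArg star h2
  refine ⟨fun o => ?_, ?_⟩
  · show dg c o * (1 + (x - star x)) = (1 + (x - star x)) * dg c o
    rw [mul_add, add_mul, mul_sub, sub_mul, h1, h3, mul_one, one_mul]
  · show dg c none * (1 + (x - star x)) = _
    rw [mul_add, mul_sub, h2, h4, mul_one, sub_zero, add_zero]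

/-- The sum of the diagonal blocks. -/
noncomputable def xBM11 (c : ι → Option κ) (a : Cj κ ι) : Matrix ι ι ℂ :=
  ∑ v, dg c (some v) * a v * dg c (some v)

omit [Fintype κ] in
lemma dgdg_BM11 {o o' : Option κ} (h : o ≠ o') : dg c o * dg c o' = 0 := by
  rw [dg, dg, dp_mul_dp]
  exact dp_false fun i hi => h (hi.1.symm.trans hi.2)

lemma xl_BM11 (a : Cj κ ι) (v : κ) :
    dg c (some v) * xBM11 c a = dg c (some v) * a v * dg c (some v) := by
  rw [xBM11, Finset.mul_sum, Finset.sum_eq_single v]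
  · rw [← mul_assoc, ← mul_assoc, dg, dp_idem]
  · intro w _ h
    rw [← mul_assoc, ← mul_assoc, dgdg_BM11 (by simpa using h.symm), zero_mul, zero_mul]
  · simp

lemma xr_BM11 (a : Cj κ ι) (v : κ) :
    xBM11 c a * dg c (some v) = dg c (some v) * a v * dg c (some v) := by
  rw [xBM11, Finset.sum_mul, Finset.sum_eq_single v]
  · rw [mul_assoc _ (dg c (some v)), dg, dp_idem]
  · intro w _ h
    rw [mul_assoc, dgdg_BM11 (by simpa using h), mul_zero]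
  · simp

lemma xn_BM11 (a : Cj κ ι) : dg c none * xBM11 c a = 0 := by
  rw [xBM11, Finset.mul_sum]
  refine Finset.sum_eq_zero fun v _ => ?_
  rw [← mul_assoc, ← mul_assoc, dgdg_BM11 (by simp), zero_mul, zero_mul]

lemma xc_BM11 (a : Cj κ ι) (o : Option κ) : dg c o * xBM11 c a = xBM11 c a * dg c o := by
  cases o with
  | some v => rw [xl_BM11, xr_BM11]
  | none =>
    rw [xn_BM11, xBM11, Finset.sum_mul]
    refine (Finset.sum_eq_zero fun v _ => ?_).symm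
    rw [mul_assoc, dgdg_BM11 (by simp), mul_zero]

lemma xz_BM11 {z : Matrix ι ι ℂ} (h1 : ∀ o, dg c o * z = z * dg c o) (h2 : dg c none * z = 0) :
    xBM11 c (fun v => dg c (some v) * z * dg c (some v)) = z := by
  have h3 : ∑ o, dg c o = 1 := by
    ext i j
    rw [Matrix.sum_apply, Finset.sum_eq_single (c i) (fun o _ h => by simp [dg, dp_apply, h.symm])
      (by simp)]
    simp [dg, dp_apply, one_apply]
  conv_rhs => rw [← one_mul z, ← h3, Finset.sum_mul, Fintype.sum_option, h2, zero_add]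
  refine Finset.sum_congr rfl fun v _ => ?_
  have h4 : dg c (some v) * dg c (some v) = dg c (some v) := dp_idem _
  simp only [h1, mul_assoc, h4]
  rw [← mul_assoc, h1, mul_assoc, h4]

section ring
variable {R : Type} [Ring R] {P Q x y e : R}

lemma comm_BM11 (h1 : P * x = 0) (h2 : x * P = x) (h3 : P * y = y)
    (h4 : y * P = 0) : P * ((1 - (x - y)) * (1 + (x - y))) = (1 - (x - y)) * (1 + (x - y)) * P := by
  have h5 : x * x = 0 := by rw [← h2, mul_assoc, ← mul_assoc P, h1, zero_mul, mul_zero]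
  have h6 : y * y = 0 := by rw [← h3, mul_assoc, ← mul_assoc y, h4, zero_mul, mul_zero]
  have h7 : (1 - (x - y)) * (1 + (x - y)) = 1 + x * y + y * x - x * x - y * y := by noncomm_ring
  rw [h7, h5, h6, sub_zero, sub_zero, mul_add, mul_add, add_mul, add_mul, ← mul_assoc, ← mul_assoc,
    h1, h3, mul_assoc, mul_assoc, h4, h2, mul_one, one_mul, zero_mul, mul_zero]

lemma key_BM11 (hP : P * P = P) (h2 : x * P = x) (h1 : P * x = 0) (h4 : y * P = 0)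
    (he : e * (1 + (x - y)) = (1 + (x - y)) * P) :
    e * ((1 - (x - y)) * (1 + (x - y)) * P) = P + x := by
  have h7 : (1 - (x - y)) * (1 + (x - y)) = (1 + (x - y)) * (1 - (x - y)) := by noncomm_ring
  have h8 : P * ((1 - (x - y)) * P) = P := by
    rw [sub_mul, sub_mul, h2, h4, one_mul, sub_zero, mul_sub, h1, hP, sub_zero]
  rw [h7, mul_assoc, ← mul_assoc e, he, mul_assoc, h8, add_mul, sub_mul, h2, h4, one_mul, sub_zero]

end ring

omit [Fintype κ] in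
lemma conj_BM11 {u : GG ι → GG ι} (hu : IsUn u) {x : Matrix ι ι ℂ} (hx : e2 p * x * e1 p = x) :
    (e1 p * x = 0 ∧ x * e1 p = x ∧ e1 p * star x = star x ∧ star x * e1 p = 0 ∧ e2 p * x = x) ∧
    (u (gBM11 x) • E1 p) () * (1 + (x - star x)) = (1 + (x - star x)) * e1 p := by
  have h1 : e1 p * x = 0 := by rw [← hx, ← mul_assoc, ← mul_assoc, e1_e2, zero_mul, zero_mul]
  have h2 : x * e1 p = x := by rw [← hx, mul_assoc _ (e1 p), e1_e1]
  have h3 : e1 p * star x = star x := by simpa using congrArg star h2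
  have h4 : star x * e1 p = 0 := by simpa using congrArg star h1
  refine ⟨⟨h1, h2, h3, h4, by rw [← hx, ← mul_assoc, ← mul_assoc, e2_e2]⟩, ?_⟩
  have h5 := hu.comm (gBM11 x) (e1 p) (by
    have e : star (gBM11 x).1 = 1 - (x - star x) := by
      show star (1 + (x - star x)) = _
      rw [star_add, star_sub, star_star, star_one]
      abel
    rw [e]
    exact comm_BM11 h1 h2 h3 h4)
  show (u (gBM11 x)).1 * e1 p * ((u (gBM11 x))⁻¹).1 * (gBM11 x).1 = (gBM11 x).1 * e1 p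
  rw [mul_assoc, mul_assoc, ← Units.val_mul, h5, ← mul_assoc, ← Units.val_mul, mul_inv_cancel_left]

open scoped ComplexOrder in
theorem exists_cell_Gr (hp : Adm c p) :
    ∃ (Ω : Set (Cj Unit ι)) (kk : Cj κ ι → Kc c) (aa : Cj Unit ι → Cj κ ι),
      IsOpen Ω ∧ Ivt (Kc (cp c p)) Ω ∧ ContinuousOn kk (R21 id id c p) ∧ kk 0 = 1 ∧
      (∀ l ∈ Kc (cp c p), ∀ a ∈ R21 id id c p, (kk (l • a)).1 = l * (kk a).1 * l⁻¹) ∧
      ContinuousOn aa (Gr c p ∩ Ω) ∧ MapsTo aa (Gr c p ∩ Ω) (R21 id id c p) ∧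
      (∀ a ∈ R21 id id c p, kk a • E1 p ∈ Ω ∧ aa (kk a • E1 p) = a) ∧
      ∀ e ∈ Gr c p ∩ Ω, kk (aa e) • E1 p = e := by
  obtain ⟨u, hu⟩ := exists_un (ι := ι)
  have hM : Continuous fun e : Cj Unit ι => e1 p * e () * e1 p + e2 p :=
    ((continuous_const.mul (Cj.continuous_apply ())).mul continuous_const).add continuous_const
  have hx : Continuous (xBM11 c) := continuous_finsetSum _ fun v _ =>
    (continuous_const.mul (Cj.continuous_apply v)).mul continuous_const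
  have hQ : e2 p = 1 - e1 p := eq_sub_of_add_eq' (e1_add_e2 p)
  have c1 : ∀ o, dg c o * e1 p = e1 p * dg c o := fun o => dp_comm _ _
  have c2 : ∀ o, dg c o * e2 p = e2 p * dg c o := fun o => dp_comm _ _
  have c3 : ∀ o, dg c o * dg c o = dg c o := fun o => dp_idem _
  refine ⟨{e | (e1 p * e () * e1 p + e2 p).det ≠ 0},
    fun a => ⟨u (gBM11 (xBM11 c a)), hu.blk κ c _ (mem_BM11 (xc_BM11 a) (xn_BM11 a))⟩,
    fun e v => dg c (some v) * (e2 p * (e () * (e1 p * e () * e1 p + e2 p)⁻¹) * e1 p) *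
      dg c (some v), isOpen_ne_fun hM.matrix_det continuous_const, fun l e he => ?_,
    ((hu.cont.comp (cont_BM11.comp hx)).subtype_mk _).continuousOn, Subtype.ext ?_,
    fun l hl a _ => ?_, continuousOn_pi.2 fun v => ?_, fun e _ => ⟨fun v => ?_, funext fun v => ?_⟩,
    fun a ha => ?_, fun e he => ?_⟩
  · have h1 : Commute (e1 p) l.1.1 := (mem_Kc_cp.1 l.2).2
    have h2 : Commute (e2 p) l.1.1 := hQ ▸ (Commute.one_left _).sub_left h1
    have h3 : e1 p * (l.1.1 * e () * (l.1⁻¹).1) * e1 p + e2 p =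
        l.1.1 * (e1 p * e () * e1 p + e2 p) * (l.1⁻¹).1 := by
      rw [mul_add, add_mul, ← h2.eq, Units.mul_inv_cancel_right]
      simp only [← mul_assoc, h1.eq]
      rw [mul_assoc _ _ (e1 p), ← h1.units_inv_right.eq, ← mul_assoc]
    show (e1 p * (l.1.1 * e () * (l.1⁻¹).1) * e1 p + e2 p).det ≠ 0
    rwa [h3, det_units_conj]
  · have h1 : gBM11 (xBM11 c (0 : Cj κ ι)) = 1 := Units.ext (by
      show 1 + (xBM11 c 0 - star (xBM11 c 0)) = 1
      simp [xBM11, Cj.zero_apply])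
    exact (congrArg u h1).trans (hu.self 1 (one_mem _))
  · obtain ⟨h1, h2⟩ := (mem_Kc_cp.1 hl).1
    have h3 : xBM11 c (l • a) = l.1 * xBM11 c a * (l⁻¹).1 := by
      rw [xBM11, xBM11, Finset.mul_sum, Finset.sum_mul]
      refine Finset.sum_congr rfl fun v _ => ?_
      simp only [Cj.smul_apply, ← mul_assoc, h1.1]
      rw [mul_assoc _ _ (dg c _), ← ((Gc c).inv_mem h1).1, ← mul_assoc]
    have h4 : gBM11 (xBM11 c (l • a)) = l * gBM11 (xBM11 c a) * l⁻¹ := Units.ext (by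
      show 1 + (xBM11 c _ - star (xBM11 c _)) = l.1 * (1 + (xBM11 c a - star (xBM11 c a))) * (l⁻¹).1
      rw [h3, star_mul, star_mul, ← inv_eq_star h2, inv_eq_star h2, star_star, ← inv_eq_star h2,
        mul_add, add_mul, mul_sub, sub_mul, mul_one, Units.mul_inv, mul_assoc l.1 (star _)])
    exact (congrArg u h4).trans (hu.equiv _ _ h2 _ (inv_mem h2))
  · refine (continuousOn_const.mul ((continuousOn_const.mul
      ((Cj.continuous_apply ()).continuousOn.mul fun e he => ?_)).mul continuousOn_const)).mul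
      continuousOn_const
    exact (ContinuousAt.comp_of_eq (inv_BM11 he.2) hM.continuousAt rfl).continuousWithinAt
  · simp only [id, ← mul_assoc, c3]
    rw [mul_assoc _ _ (dg c _), c3]
  · simp only [blk_apply, ← mul_assoc, c2]
    rw [e2_e2, mul_assoc _ _ (e1 p), c1, ← mul_assoc, mul_assoc _ (e1 p) (e1 p), e1_e1]
  · have h0 : e2 p * xBM11 c a * e1 p = xBM11 c a := by
      rw [xBM11, Finset.mul_sum, Finset.sum_mul]
      refine Finset.sum_congr rfl fun v _ => ?_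
      rw [show dg c (some v) * a v * dg c (some v) = a v from ha.1 v]
      exact congrFun ha.2 v
    obtain ⟨⟨h1, h2, h3, h4, h5⟩, h6⟩ := conj_BM11 hu h0
    have h7 := key_BM11 (e1_e1 p) h2 h1 h4 h6
    have h8 := comm_BM11 h1 h2 h3 h4
    generalize (1 - (xBM11 c a - star (xBM11 c a))) * (1 + (xBM11 c a - star (xBM11 c a))) = h
      at h7 h8
    change (e1 p * (u (gBM11 (xBM11 c a)) • E1 p) () * e1 p + e2 p).det ≠ 0 ∧
      (fun v => dg c (some v) * (e2 p * ((u (gBM11 (xBM11 c a)) • E1 p) () *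
        (e1 p * (u (gBM11 (xBM11 c a)) • E1 p) () * e1 p + e2 p)⁻¹) * e1 p) * dg c (some v)) = a
    generalize (u (gBM11 (xBM11 c a)) • E1 p) () = e at h7
    have h9 : e1 p * (h * e1 p) = h * e1 p := by rw [← mul_assoc, h8, mul_assoc, e1_e1]
    have h10 : (e1 p * e * e1 p + e2 p) * (h * e1 p + e2 p) = 1 := by
      rw [add_mul, mul_add, mul_add, mul_assoc _ (e1 p), h9, mul_assoc (e1 p), h7, mul_add, h1,
        mul_assoc _ (e1 p), e1_e2, ← h8, ← mul_assoc (e2 p), e2_e1, e1_e1, e2_e2, zero_mul,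
        mul_zero, add_zero, add_zero, zero_add, e1_add_e2]
    refine ⟨(isUnit_det_of_right_inverse h10).ne_zero, funext fun v => ?_⟩
    rw [inv_eq_right_inv h10, mul_assoc (e2 p), mul_assoc e, add_mul, mul_assoc h, e1_e1, e2_e1,
      add_zero, h7, mul_add, e2_e1, zero_add, h5, xl_BM11, mul_assoc _ (dg c _), c3]
    exact ha.1 v
  · obtain ⟨g1, g2, g3, g4, -⟩ := Gr_spec hp he.1
    have hd : IsUnit (e1 p * e () * e1 p + e2 p).det := Ne.isUnit he.2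
    have h1 : ∀ w, Commute w (e1 p * e () * e1 p + e2 p) →
        Commute w (e1 p * e () * e1 p + e2 p)⁻¹ := fun w hw => by
      obtain ⟨U, hU⟩ := (isUnit_iff_isUnit_det _).2 hd
      rw [← hU] at hw ⊢
      rw [← coe_units_inv]
      exact hw.units_inv_right
    have h2 := mul_nonsing_inv _ hd
    have h3 := h1 (e1 p) (by simp [Commute, SemiconjBy, mul_add, add_mul, ← mul_assoc,
      mul_assoc _ (e1 p) (e1 p)])
    have h4 : ∀ o, Commute (dg c o) (e1 p * e () * e1 p + e2 p)⁻¹ := fun o => h1 _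
      ((Commute.mul_right (Commute.mul_right (c1 o) (g3 o)) (c1 o)).add_right (c2 o))
    change u (gBM11 (xBM11 c fun v => dg c (some v) * (e2 p * (e () *
      (e1 p * e () * e1 p + e2 p)⁻¹) * e1 p) * dg c (some v))) • E1 p = e
    generalize (e1 p * e () * e1 p + e2 p)⁻¹ = N at h2 h3 h4
    have h5 : ∀ o, Commute (dg c o) (e2 p * (e () * N) * e1 p) := fun o =>
      Commute.mul_right (Commute.mul_right (c2 o) (Commute.mul_right (g3 o) (h4 o))) (c1 o)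
    have h6 : dg c none * (e2 p * (e () * N) * e1 p) = 0 := by
      rw [← mul_assoc, ← mul_assoc, c2, mul_assoc (e2 p), ← mul_assoc (dg c none), g4]
      simp
    rw [xz_BM11 h5 h6]
    have h7 : e1 p + e2 p * (e () * N) * e1 p = e () * (N * e1 p) := by
      have h8 := congrArg (e1 p * ·) h2
      simp only [← mul_assoc, mul_add, e1_e1, e1_e2, add_zero, mul_one] at h8
      rw [hQ, sub_mul, sub_mul, one_mul, ← mul_assoc (e1 p), mul_assoc _ N, mul_assoc _ N,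
        ← h3.eq, ← mul_assoc (e1 p * e ()), h8, add_sub_cancel]
    have hz : e2 p * (e2 p * (e () * N) * e1 p) * e1 p = e2 p * (e () * N) * e1 p := by
      rw [← mul_assoc, ← mul_assoc, e2_e2, mul_assoc _ (e1 p), e1_e1]
    have hm := hu.blk κ c _ (mem_BM11 h5 h6)
    generalize e2 p * (e () * N) * e1 p = z at h7 hz hm
    obtain ⟨⟨-, k2, -, k4, -⟩, k6⟩ := conj_BM11 hu hz
    obtain ⟨f1, f2, -⟩ := Gr_spec hp (e := u (gBM11 z) • E1 p) ⟨⟨_, hm⟩, rfl⟩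
    have t1 : ((u (gBM11 z) • E1 p) ()).trace = (e ()).trace := by
      obtain ⟨k, rfl⟩ := he.1
      exact (trace_units_conj _ _).trans (trace_units_conj _ _).symm
    funext ⟨⟩
    generalize (u (gBM11 z) • E1 p) () = e' at k6 f1 f2 t1
    have k7 : e () * e' = e' := by
      refine (unit_BM11 z).mul_right_cancel ?_
      rw [mul_assoc, k6, add_mul, sub_mul, k2, k4, one_mul, sub_zero, h7, ← mul_assoc, g2]
    have k8 : e' * e () = e' := by simpa [g1, f1] using congrArg star k7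
    refine (sub_eq_zero.1 (trace_conjTranspose_mul_self_eq_zero_iff.1 ?_)).symm
    rw [← star_eq_conjTranspose, star_sub, g1, f1, sub_mul, mul_sub, mul_sub, g2, k7, k8, f2,
      sub_self, sub_zero, trace_sub, t1, sub_self]

end Pool.Agent.Bet
end

-- part Pool.Agent.P.MP_d34769_ag.BS2
section

/-! TASK BS2: from the stratum to the slice. -/

open Set Matrix

namespace Pool.Agent.Bet

variable {ι : Type} [Fintype ι] [DecidableEq ι] {κ : Type} {Ar : Type} [Fintype κ] [Fintype Ar]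
  {s t : Ar → κ} {w : κ → ℝ} {c : ι → Option κ} {p : ι → Bool}

theorem step_A (hp : Adm c p) {U : Set (Cj Ar ι)} (hU : Ivt (Kc c) U) (h0 : RO U (Rc s t c))
    (h1 : St s t w c (dv (c1 c p)) ⊆ U) (h2 : RO (U \ St s t w c (dv (c1 c p))) U) :
    ∃ O : Set (Cj Ar ι), Ivt (Kc (cp c p)) O ∧ RO O (O2 s t w c p) ∧ Zs s t w c p ⊆ O ∧
      Sh (2 * bb id id (dv (c1 c p)) (dv (c2 c p))) (Bo (Kc c) U (Ec c))
        (Bo (Kc c) (U \ St s t w c (dv (c1 c p))) (Ec c)) (Bo (Kc (cp c p)) O (Ec c))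
        (Bo (Kc (cp c p)) (O \ Zs s t w c p) (Ec c)) := by
  obtain ⟨W, q, rW, iW, sW, cq, mq, eq, hq⟩ := exists_nbhd hp hU h1 h2
  obtain ⟨Ω, kk, aa, oΩ, iΩ, ck, k0, ek, ca, ma, hka, hak⟩ := exists_cell_Gr (c := c) hp
  set Sx := St s t w c (dv (c1 c p)) with hSx
  set Zx := Zs s t w c p with hZx
  have hLK := Kc_cp_le c p
  have := compactSpace_Kc c
  have iS : Ivt (Kc c) Sx := (ivt_St _).mono (Kc_le c)
  have iE : Ivt (Kc c) (Ec c) := (ivt_Ec c).mono (Kc_le c)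
  have iEL := ivt_Ec_cp c p
  have iZ : Ivt (Kc (cp c p)) Zx := ivt_Zs hp
  have ZS : Zx ⊆ Sx := fun φ h => ((mem_Zs hp).1 h).1
  have eqL : ∀ l : Kc (cp c p), ∀ φ ∈ W, q (l • φ) = l • q φ := fun l => eq ⟨l.1, hLK l.2⟩
  have fixL : ∀ l : Kc (cp c p), l • E1 p = E1 p := fun l =>
    smul_E1.2 (mem_Kc_cp.1 l.2).2
  have iWL : Ivt (Kc (cp c p)) W := iW.mono hLK
  have iR := ivt_R21 (id : κ → κ) id c p
  have hE1 : E1 p ∈ Ω ∧ aa (E1 p) = 0 := by
    simpa [k0] using hka 0 (Submodule.zero_mem _)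
  have eaa : ∀ l : Kc (cp c p), ∀ e ∈ Gr c p ∩ Ω, aa (l • e) = l • aa e := by
    intro l e he
    have h3 := (hka _ (iR l _ (ma he))).2
    have h4 : kk (l • aa e) • E1 p = l • e := by
      conv_rhs => rw [← hak e he]
      change (kk (l.1 • aa e)).1 • E1 p = l.1 • (kk (aa e)).1 • E1 p
      rw [ek l.1 l.2 _ (ma he), mul_smul, mul_smul]
      exact congrArg _ (congrArg _ (fixL l⁻¹))
    rwa [h4] at h3
  set W₀ : Set (Cj Ar ι) := W ∩ q ⁻¹' {E1 p} with hW₀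
  set W' : Set (Cj Ar ι) := W ∩ q ⁻¹' Ω with hW'
  have iW₀ : Ivt (Kc (cp c p)) W₀ := fun l φ h =>
    ⟨iWL l φ h.1, by rw [mem_preimage, eqL l φ h.1, show q φ = E1 p from h.2]; exact fixL l⟩
  have iW' : Ivt (Kc (cp c p)) W' := fun l φ h =>
    ⟨iWL l φ h.1, by rw [mem_preimage, eqL l φ h.1]; exact iΩ l _ h.2⟩
  have rW' : RO W' W := RO.of_isOpen cq oΩ
  have rne : RO (W \ W₀) W := by
    have := RO.of_isOpen cq (isOpen_compl_singleton (x := E1 p))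
    convert this using 1
    ext φ
    simp only [hW₀, mem_sdiff, mem_inter_iff, mem_preimage, mem_compl_iff]
    tauto
  have rWS : RO (W \ Sx) W := by
    have := h2.restrict rW.subset
    convert this using 1
    ext φ
    exact ⟨fun h => ⟨⟨rW.subset h.1, h.2⟩, h.1⟩, fun h => ⟨h.2, h.1.2⟩⟩
  have ZW₀ : Zx ⊆ W₀ := fun φ h => ⟨sW (ZS h), (hq φ (ZS h)).2 h⟩
  have d0 : ∀ φ ∈ W₀, φ ∉ Zx ↔ φ ∉ Sx := fun φ h =>
    ⟨fun h3 h4 => h3 ((hq φ h4).1 h.2), fun h3 h4 => h3 (ZS h4)⟩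
  have ZW' : Zx ⊆ W' := fun φ h =>
    ⟨sW (ZS h), by rw [mem_preimage, (hq φ (ZS h)).2 h]; exact hE1.1⟩
  have rR : RO W' (Rc s t c) := (rW'.trans rW).trans h0
  have rO2 : RO (O2 s t w c p) (Rc s t c) := ro_O2
  refine ⟨W' ∩ O2 s t w c p, iW'.inter (ivt_O2 hp), rR.restrict rO2.subset,
    fun φ h => ⟨ZW' h, h.1⟩, ?_⟩
  have a1 := (q_exc_prod iE hU iW iS rW h2 fun φ h => sW h.2).sh
  have a2 := q_ind hLK (iW.prod iE) (iW₀.prod iEL) ((iW.diff iS).prod iE)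
    (prod_mono inter_subset_left subset_rfl) (prod_mono sdiff_subset subset_rfl)
    (by
      convert rne.prod (RO.refl (Ec c)) using 1
      ext x
      simp only [mem_sdiff, mem_prod]
      tauto)
    (by
      rintro ⟨φ, f⟩ ⟨h3, h4⟩
      obtain ⟨k, hk⟩ := mq h3
      refine ⟨k⁻¹, ⟨iW _ _ h3, ?_⟩, iE _ _ h4⟩
      change q (k⁻¹ • φ) = E1 p
      rw [eq _ _ h3, ← hk, inv_smul_smul])
    (by
      rintro k ⟨φ, f⟩ ⟨h3, -⟩ ⟨h5, -⟩
      have h6 : q (k • φ) = E1 p := h5.2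
      rw [eq _ _ h3.1, show q φ = E1 p from h3.2] at h6
      exact ⟨⟨k.1, mem_Kc_cp.2 ⟨k.2, smul_E1.1 h6⟩⟩, rfl⟩)
  have e2 : (W₀ ×ˢ Ec c) ∩ ((W \ Sx) ×ˢ Ec c) = (W₀ \ Zx) ×ˢ Ec c := by
    ext x
    simp only [mem_inter_iff, mem_prod, mem_sdiff]
    exact ⟨fun h => ⟨⟨h.1.1, (d0 _ h.1.1).2 h.2.1.2⟩, h.1.2⟩,
      fun h => ⟨⟨h.1.1, h.2⟩, ⟨h.1.1.1, (d0 _ h.1.1).1 h.1.2⟩, h.2⟩⟩
  rw [e2] at a2
  have a3 := thom_R21 (id : κ → κ) id iW₀ (iW₀.diff iZ) (by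
    convert rWS.restrict (inter_subset_left : W₀ ⊆ W) using 1
    ext φ
    exact ⟨fun h => ⟨⟨h.1.1, (d0 _ h.1).1 h.2⟩, h.1⟩, fun h => ⟨h.2, (d0 _ h.2).2 h.1.2⟩⟩)
  have qj : ∀ φ ∈ W₀, ∀ a, q (kk a • φ) = kk a • E1 p := fun φ h a => by
    rw [eq _ _ h.1, show q φ = E1 p from h.2]
  have gq : ∀ ψ ∈ W', q ψ ∈ Gr c p ∩ Ω := fun ψ h => ⟨mq h.1, h.2⟩
  have caq : ContinuousOn (fun x : Cj Ar ι × Mt ι => aa (q x.1)) (W' ×ˢ Ec c) :=
    ca.comp ((cq.mono inter_subset_left).comp continuous_fst.continuousOn fun x h => h.1)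
      fun x h => gq _ h.1
  have a4 := (q_eqv (Γ := Kc (cp c p)) (Λ := Kc (cp c p))
    (S := (W₀ ×ˢ Ec c) ×ˢ (R21 id id c p : Set (Cj κ ι)))
    (T := {x | x ∈ (W₀ ×ˢ Ec c) ×ˢ (R21 id id c p : Set (Cj κ ι)) ∧ (x.1.1 ∈ W₀ \ Zx ∨ x.2 ≠ 0)})
    (S' := W' ×ˢ Ec c) (T' := (W' \ Zx) ×ˢ Ec c) ((iW₀.prod iEL).prod iR) (iW'.prod iEL)
    (fun x h => h.1) (prod_mono sdiff_subset subset_rfl)
    (j := fun x => (kk x.2 • x.1.1, x.1.2))
    (i := fun x => (((kk (aa (q x.1)))⁻¹ • x.1, x.2), aa (q x.1)))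
    (((ck.comp continuous_snd.continuousOn fun x h => h.2).smul
      (continuous_fst.comp continuous_fst).continuousOn).prodMk
      (continuous_snd.comp continuous_fst).continuousOn)
    ((((ck.comp caq fun x h => ma (gq _ h.1)).inv.smul continuous_fst.continuousOn).prodMk
      continuous_snd.continuousOn).prodMk caq)
    (fun x h => ⟨⟨iW _ _ h.1.1.1, by rw [mem_preimage, qj _ h.1.1]; exact (hka _ h.2).1⟩, h.1.2⟩)
    (by
      rintro ⟨⟨φ, f⟩, a⟩ ⟨⟨⟨h3, h4⟩, h5⟩, h6⟩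
      refine ⟨⟨⟨iW _ _ h3.1, by rw [mem_preimage, qj _ h3]; exact (hka _ h5).1⟩, fun h7 => ?_⟩, h4⟩
      have h8 : q (kk a • φ) = E1 p := (ZW₀ h7).2
      have h9 : a = 0 := by rw [← (hka a h5).2, ← qj _ h3, h8, hE1.2]
      subst h9
      simp only [k0, one_smul] at h7
      exact (h6.resolve_right (by simp)).2 h7)
    (fun x h => ⟨⟨⟨iW _ _ h.1.1, by
      rw [mem_preimage, eq _ _ h.1.1, mem_singleton_iff, inv_smul_eq_iff, hak _ (gq _ h.1)]⟩, h.2⟩,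
      ma (gq _ h.1)⟩)
    (by
      rintro ⟨ψ, f⟩ ⟨⟨h3, h4⟩, h5⟩
      have h6 : (kk (aa (q ψ)))⁻¹ • ψ ∈ W₀ := ⟨iW _ _ h3.1, by
        rw [mem_preimage, eq _ _ h3.1, mem_singleton_iff, inv_smul_eq_iff, hak _ (gq _ h3)]⟩
      refine ⟨⟨⟨h6, h5⟩, ma (gq _ h3)⟩, ?_⟩
      by_cases h7 : aa (q ψ) = 0
      · refine Or.inl ⟨h6, ?_⟩
        simp only [h7, k0, inv_one, one_smul]
        exact h4
      · exact Or.inr h7)
    (by
      rintro l ⟨⟨φ, f⟩, a⟩ ⟨-, h5⟩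
      refine ⟨l, Prod.ext ?_ rfl⟩
      change l.1 • (kk a).1 • φ = (kk (l.1 • a)).1 • l.1 • φ
      rw [ek l.1 l.2 a h5, mul_smul, mul_smul, inv_smul_smul])
    (by
      rintro l ⟨ψ, f⟩ ⟨h3, -⟩
      have h4 : aa (q (l • ψ)) = l • aa (q ψ) := by rw [eqL l ψ h3.1, eaa l _ (gq _ h3)]
      refine ⟨l, Prod.ext (Prod.ext ?_ rfl) h4.symm⟩
      change l.1 • ((kk (aa (q ψ))).1)⁻¹ • ψ = ((kk (aa (q (l • ψ)))).1)⁻¹ • l.1 • ψ
      rw [h4]
      change _ = ((kk (l.1 • aa (q ψ))).1)⁻¹ • l.1 • ψ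
      rw [ek l.1 l.2 _ (ma (gq _ h3))]
      simp [mul_smul])
    (by
      rintro ⟨⟨φ, f⟩, a⟩ ⟨⟨h3, -⟩, h5⟩
      refine ⟨1, ?_⟩
      simp only [one_smul, qj _ h3, (hka a h5).2, inv_smul_smul])
    (by
      rintro ⟨ψ, f⟩ -
      exact ⟨1, by simp⟩)).2.2
  have a5 := (q_exc_prod iEL iW' (iW'.inter (ivt_O2 (s := s) (t := t) (w := w) hp)) iZ
    (by rw [inter_comm]; exact rO2.restrict rR.subset)
    (by
      convert (rWS.union rne).restrict (inter_subset_left : W' ⊆ W) using 1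
      ext φ
      simp only [mem_sdiff, mem_inter_iff, mem_union]
      refine ⟨fun h => ⟨?_, h.1⟩, fun h => ⟨h.2, fun h3 => h.1.elim (fun h4 => h4.2 (ZS h3))
        fun h4 => h4.2 (ZW₀ h3)⟩⟩
      by_cases h3 : φ ∈ W₀
      · exact Or.inl ⟨h3.1, (d0 _ h3).1 h.2⟩
      · exact Or.inr ⟨h.1.1, h3⟩)
    fun φ h => ⟨h.1, h.2.1⟩).sh
  simpa only [zero_add, add_zero, Bo] using (((a1.trans a2.2).trans a3).trans a4.1).trans a5

end Pool.Agent.Bet
end

-- part Pool.Agent.P.MP_d34769_ag.BH6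
section

/-! TASK BH6: locally trivial maps with contractible fibre. -/

open Set

namespace Pool.Agent.Bet

variable {Y W F : Type} [TopologicalSpace Y] [TopologicalSpace W] [TopologicalSpace F]

theorem fib {p : Y → W} {S' : Set Y} {S : Set W} (C : Set F) [ContractibleSpace C]
    (hp : ContinuousOn p S') (hm : MapsTo p S' S)
    (loc : ∀ w ∈ S, ∃ U, IsOpen U ∧ w ∈ U ∧ ∃ (φ : Y → F) (ψ : W × F → Y),
      ContinuousOn φ (S' ∩ p ⁻¹' U) ∧ MapsTo φ (S' ∩ p ⁻¹' U) C ∧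
      ContinuousOn ψ ((S ∩ U) ×ˢ C) ∧ MapsTo ψ ((S ∩ U) ×ˢ C) S' ∧
      (∀ x ∈ (S ∩ U) ×ˢ C, p (ψ x) = x.1) ∧ ∀ y ∈ S' ∩ p ⁻¹' U, ψ (p y, φ y) = y) :
    SIso p S' ∅ S ∅ := by
  refine ⟨hp, empty_subset _, empty_subset _, hm, mapsTo_empty _ _, fun B _ => ?_⟩
  obtain ⟨x₀, hx₀, H, hH, h0, h1⟩ := exists_htp C
  have cP : ContinuousOn (Prod.map id p : B × Y → B × W) (up B S') :=
    continuousOn_fst.prodMk (hp.comp continuousOn_snd fun _ hx => hx)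
  have mP : MapsTo (Prod.map id p : B × Y → B × W) (up B S') (up B S) := fun _ hx => hm hx
  have key := glue (fam_cn cP mP) (fam_cn (p := id) continuousOn_id (mapsTo_id (up B S)))
    (f := pu (Prod.map id p)) (fun U => cmap_pu (cP.mono inter_subset_left)
      fun _ hx => ⟨mP hx.1, hx.2⟩) (fun w hw => ?_) isOpen_univ
  · simpa using key
  obtain ⟨U, hU, hwU, φ, ψ, cφ, mφ, cψ, mψ, e1, e2⟩ := loc w.2 hw
  refine ⟨Prod.snd ⁻¹' U, hU.preimage continuous_snd, hwU, fun V _ hV => ?_⟩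
  have a1 : ∀ y ∈ up B S' ∩ Prod.map id p ⁻¹' V, y.2 ∈ S' ∩ p ⁻¹' U := fun y hy => ⟨hy.1, hV hy.2⟩
  have a2 : ∀ z ∈ up B S ∩ id ⁻¹' V, (z.2, x₀) ∈ (S ∩ U) ×ˢ C := fun z hz =>
    ⟨⟨hz.1, hV hz.2⟩, hx₀⟩
  have a3 : ∀ t ∈ Icc (0 : ℝ) 1, ∀ y ∈ up B S' ∩ Prod.map id p ⁻¹' V,
      (p y.2, H t (φ y.2)) ∈ (S ∩ U) ×ˢ C := fun t ht y hy =>
    ⟨⟨hm hy.1, hV hy.2⟩, hH.map t ht (mφ (a1 y hy))⟩
  have := hiso_of_he (f := (Prod.map id p : B × Y → B × W))
    (S := up B S' ∩ Prod.map id p ⁻¹' V) (T := ∅) (S' := up B S ∩ id ⁻¹' V) (T' := ∅)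
    (k := fun z => (z.1, ψ (z.2, x₀))) (H := fun t y => (y.1, ψ (p y.2, H t (φ y.2))))
    (H' := fun _ z => z) (empty_subset _) (empty_subset _) (cP.mono inter_subset_left)
    (continuousOn_fst.prodMk (cψ.comp (continuousOn_snd.prodMk continuousOn_const) a2))
    (fun _ hx => ⟨mP hx.1, hx.2⟩) (mapsTo_empty _ _)
    (fun z hz => ⟨mψ (a2 z hz), by
      show (z.1, p (ψ (z.2, x₀))) ∈ V
      rw [e1 _ (a2 z hz)]; exact hz.2⟩) (mapsTo_empty _ _)
    ⟨?_, fun t ht y hy => ⟨mψ (a3 t ht y hy), by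
      show (y.1, p (ψ (p y.2, H t (φ y.2)))) ∈ V
      rw [e1 _ (a3 t ht y hy)]; exact hy.2⟩⟩ ⟨continuousOn_snd, fun _ _ => mapsTo_id _⟩
    (fun _ _ => mapsTo_empty _ _) (fun _ _ => mapsTo_empty _ _)
    (fun y hy => by simp only [h0 _ (mφ (a1 y hy)), e2 _ (a1 y hy)])
    (fun y hy => by simp only [h1 _ (mφ (a1 y hy))]; rfl) (fun _ _ => rfl)
    (fun z hz => by
      show z = (z.1, p (ψ (z.2, x₀)))
      rw [e1 _ (a2 z hz)])
  · simpa only [cn_empty] using this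
  · have c2 : ContinuousOn (fun q : ℝ × B × Y => q.2.2)
        (Icc 0 1 ×ˢ (up B S' ∩ Prod.map id p ⁻¹' V)) := continuous_snd.snd.continuousOn
    refine continuous_snd.fst.continuousOn.prodMk (cψ.comp (ContinuousOn.prodMk ?_ ?_)
      fun q hq => a3 q.1 hq.1 q.2 hq.2)
    · exact hp.comp c2 fun q hq => hq.2.1
    · exact hH.cont.comp (continuousOn_fst.prodMk (cφ.comp c2 fun q hq => a1 q.2 hq.2))
        fun q hq => ⟨hq.1, mφ (a1 q.2 hq.2)⟩

end Pool.Agent.Bet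
end

-- part Pool.Agent.P.MP_d34769_ag.BB3
section

/-! TASK BB3: contractible fibres over principal actions, change of the model. -/

open Set

namespace Pool.Agent.Bet

variable {Γ X Y Y' : Type} [Group Γ] [TopologicalSpace Γ] [IsTopologicalGroup Γ]
  [TopologicalSpace X] [TopologicalSpace Y] [TopologicalSpace Y'] [MulAction Γ X] [MulAction Γ Y]
  [MulAction Γ Y'] [ContinuousSMul Γ X] [ContinuousSMul Γ Y] [ContinuousSMul Γ Y']
  {S : Set X} {E : Set Y} {E' : Set Y'}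

theorem fst_qm_BB3 {Γ X Y : Type} [Group Γ] [MulAction Γ X] [MulAction Γ Y] (x : X × Y) :
    dsc Γ (fun x : X × Y => qm Γ x.1) (qm Γ x) = qm Γ x.1 :=
  dsc_qm (g := fun x : X × Y => qm Γ x.1) fun γ => qm_smul γ x.1

theorem q_fib (hS : Ivt Γ S) (hP : Prin Γ S) (hE : Ivt Γ E) [ContractibleSpace E] :
    SIso (dsc Γ fun x : X × Y => qm Γ x.1) (qs Γ (S ×ˢ E)) ∅ (qs Γ S) ∅ := by
  refine fib E (dsc_cont (hS.prod hE) (continuous_qm.comp continuous_fst).continuousOn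
    fun γ x _ => qm_smul γ x.1) ?_ ?_
  · rintro _ ⟨x, hx, rfl⟩
    rw [fst_qm_BB3]
    exact ⟨x.1, hx.1, rfl⟩
  rintro _ ⟨x₀, hx₀, rfl⟩
  obtain ⟨U, hU, hxU, τ, cτ, hτ⟩ := hP x₀ hx₀
  have hA : Ivt Γ (S ∩ U) := fun γ x hx => ⟨hS γ x hx.1, (hτ γ x hx).1⟩
  have key : ∀ x ∈ S, qm Γ x ∈ qm Γ '' U → x ∈ S ∩ U := by
    rintro x hx ⟨u, hu, e⟩
    have h1 : u ∈ S := (mem_qs hS).1 ⟨x, hx, e.symm⟩
    exact (mem_qs hA).1 ⟨u, ⟨h1, hu⟩, e⟩
  have key1 : ∀ w ∈ qs Γ S ∩ qm Γ '' U, ∃ x ∈ S ∩ U, qm Γ x = w := by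
    rintro _ ⟨⟨x, hx, rfl⟩, h⟩
    exact ⟨x, key x hx h, rfl⟩
  have key2 : ∀ w ∈ qs Γ (S ×ˢ E) ∩ (dsc Γ fun x : X × Y => qm Γ x.1) ⁻¹' (qm Γ '' U),
      ∃ x ∈ (S ∩ U) ×ˢ E, qm Γ x = w := by
    rintro _ ⟨⟨x, hx, rfl⟩, h⟩
    rw [mem_preimage, fst_qm_BB3] at h
    exact ⟨x, ⟨key x.1 hx.1 h, hx.2⟩, rfl⟩
  have iφ : ∀ γ : Γ, ∀ x ∈ (S ∩ U) ×ˢ E,
      (τ (γ • x).1)⁻¹ • (γ • x).2 = (τ x.1)⁻¹ • x.2 := by
    intro γ x hx
    rw [Prod.smul_fst, Prod.smul_snd, (hτ γ x.1 hx.1).2, mul_inv_rev, mul_smul, inv_smul_smul]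
  have eφ : ∀ x ∈ (S ∩ U) ×ˢ E,
      dsc Γ (fun z : X × Y => (τ z.1)⁻¹ • z.2) (qm Γ x) = (τ x.1)⁻¹ • x.2 :=
    fun x hx => dsc_qm (g := fun z : X × Y => (τ z.1)⁻¹ • z.2) fun γ => iφ γ x hx
  have eψ : ∀ x ∈ S ∩ U, ∀ y : Y,
      dsc Γ (fun x : X => qm Γ (x, τ x • y)) (qm Γ x) = qm Γ (x, τ x • y) := by
    intro x hx y
    refine dsc_qm (g := fun x : X => qm Γ (x, τ x • y)) fun γ => ?_
    rw [(hτ γ x hx).2, mul_smul]
    exact qm_smul γ (x, τ x • y)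
  have cτ' : ContinuousOn (fun z : X × Y => τ z.1) ((S ∩ U) ×ˢ E) :=
    cτ.comp continuous_fst.continuousOn fun _ hz => hz.1
  refine ⟨qm Γ '' U, isOpenQuotientMap_qm.isOpenMap U hU, ⟨x₀, hxU, rfl⟩,
    dsc Γ (fun z : X × Y => (τ z.1)⁻¹ • z.2),
    fun z => dsc Γ (fun x : X => qm Γ (x, τ x • z.2)) z.1, ?_, ?_, ?_, ?_, ?_, ?_⟩
  · exact (dsc_cont (hA.prod hE) (cτ'.inv.smul continuous_snd.continuousOn) iφ).mono key2
  · intro w hw
    obtain ⟨x, hx, rfl⟩ := key2 w hw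
    rw [eφ x hx]
    exact hE _ _ hx.2
  · have h1 := liftOn_cont (π := Prod.map (qm Γ) id) (A := (S ∩ U) ×ˢ E)
      (isOpenQuotientMap_qm.prodMap IsOpenQuotientMap.id)
      (g := fun z : Q Γ X × Y => dsc Γ (fun x : X => qm Γ (x, τ x • z.2)) z.1) ?_ ?_
    · refine h1.mono ?_
      rintro ⟨w, y⟩ ⟨hw, hy⟩
      obtain ⟨x, hx, rfl⟩ := key1 w hw
      exact ⟨(x, y), ⟨hx, hy⟩, rfl⟩
    · intro x hx y e
      have e1 : qm Γ y.1 = qm Γ x.1 := congrArg Prod.fst e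
      have e2 : y.2 = x.2 := (Prod.ext_iff.1 e).2
      exact ⟨(mem_qs hA).1 ⟨x.1, hx.1, e1.symm⟩, e2 ▸ hx.2⟩
    · refine ContinuousOn.congr (f := fun z : X × Y => qm Γ (z.1, τ z.1 • z.2)) ?_
        fun z hz => eψ z.1 hz.1 z.2
      exact continuous_qm.comp_continuousOn
        (continuous_fst.continuousOn.prodMk (cτ'.smul continuous_snd.continuousOn))
  · rintro ⟨w, y⟩ ⟨hw, hy⟩
    obtain ⟨x, hx, rfl⟩ := key1 w hw
    exact ⟨(x, τ x • y), ⟨hx.1, hE _ _ hy⟩, (eψ x hx y).symm⟩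
  · rintro ⟨w, y⟩ ⟨hw, -⟩
    obtain ⟨x, hx, rfl⟩ := key1 w hw
    simp only
    rw [eψ x hx y, fst_qm_BB3]
  · intro w hw
    obtain ⟨x, hx, rfl⟩ := key2 w hw
    simp only
    rw [fst_qm_BB3, eφ x hx, eψ x.1 hx.1, smul_inv_smul]

omit [IsTopologicalGroup Γ] in
theorem swap_BB3 (hS : Ivt Γ S) (hE : Ivt Γ E) (hE' : Ivt Γ E') :
    SIso (dsc Γ fun x : (X × Y) × Y' => qm Γ ((x.1.1, x.2), x.1.2)) (qs Γ ((S ×ˢ E) ×ˢ E')) ∅
      (qs Γ ((S ×ˢ E') ×ˢ E)) ∅ :=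
  (q_eqv (T := ∅) (T' := ∅) (j := fun x : (X × Y) × Y' => ((x.1.1, x.2), x.1.2))
    (i := fun x : (X × Y') × Y => ((x.1.1, x.2), x.1.2)) ((hS.prod hE).prod hE')
    ((hS.prod hE').prod hE) (empty_subset _) (empty_subset _) (by fun_prop) (by fun_prop)
    (fun _ hx => ⟨⟨hx.1.1, hx.2⟩, hx.1.2⟩) (mapsTo_empty _ _)
    (fun _ hx => ⟨⟨hx.1.1, hx.2⟩, hx.1.2⟩) (mapsTo_empty _ _) (fun γ _ _ => ⟨γ, rfl⟩)
    (fun γ _ _ => ⟨γ, rfl⟩) (fun x _ => ⟨1, one_smul _ x⟩) (fun x _ => ⟨1, one_smul _ x⟩)).2.1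

theorem q_chg (hS : Ivt Γ S) (hE : Ivt Γ E) (hE' : Ivt Γ E') [ContractibleSpace E]
    [ContractibleSpace E'] (hP : Prin Γ (S ×ˢ E)) (hP' : Prin Γ (S ×ˢ E')) :
    Eqv (qs Γ (S ×ˢ E)) ∅ (qs Γ (S ×ˢ E')) ∅ :=
  (q_fib (hS.prod hE) hP hE').eqv_empty.symm.trans
    ((q_fib (hS.prod hE') hP' hE).comp (swap_BB3 hS hE hE')).eqv_empty

theorem q_abs (hS : Ivt Γ S) (hE : Ivt Γ E) (hE' : Ivt Γ E') [ContractibleSpace E]
    [ContractibleSpace E'] (hP : Prin Γ (S ×ˢ E)) (hP' : Prin Γ (S ×ˢ E')) {α : X × Y → Y'}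
    (cα : ContinuousOn α (S ×ˢ E)) (m : MapsTo α (S ×ˢ E) E')
    (he : ∀ γ : Γ, ∀ x ∈ S ×ˢ E, α (γ • x) = γ • α x) :
    SIso (dsc Γ fun x : X × Y => qm Γ (x.1, α x)) (qs Γ (S ×ˢ E)) ∅ (qs Γ (S ×ˢ E')) ∅ := by
  have i1 : ∀ γ : Γ, ∀ x ∈ S ×ˢ E, qm Γ (γ • x, α (γ • x)) = qm Γ (x, α x) := by
    intro γ x hx
    rw [he γ x hx]
    exact qm_smul γ (x, α x)
  have e1 : ∀ x ∈ S ×ˢ E, dsc Γ (fun x : X × Y => qm Γ (x, α x)) (qm Γ x) = qm Γ (x, α x) :=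
    fun x hx => dsc_qm (g := fun x : X × Y => qm Γ (x, α x)) fun γ => i1 γ x hx
  have h1 : SIso (dsc Γ fun x : X × Y => qm Γ (x, α x)) (qs Γ (S ×ˢ E)) ∅
      (qs Γ ((S ×ˢ E) ×ˢ E')) ∅ := by
    refine SIso.of_comp_right (dsc_cont (hS.prod hE)
      (continuous_qm.comp_continuousOn (continuousOn_id.prodMk cα)) i1) ?_ (mapsTo_empty _ _)
      (q_fib (hS.prod hE) hP hE') ((SIso.refl (empty_subset _)).congr ?_)
    · rintro _ ⟨x, hx, rfl⟩
      exact ⟨(x, α x), ⟨hx, m hx⟩, (e1 x hx).symm⟩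
    · rintro _ ⟨x, hx, rfl⟩
      rw [Function.comp_apply, e1 x hx, fst_qm_BB3]
      rfl
  refine (((q_fib (hS.prod hE') hP' hE).comp (swap_BB3 hS hE hE')).comp h1).congr ?_
  rintro _ ⟨x, hx, rfl⟩
  have e2 : dsc Γ (fun x : (X × Y) × Y' => qm Γ ((x.1.1, x.2), x.1.2)) (qm Γ (x, α x)) =
      qm Γ ((x.1, α x), x.2) :=
    dsc_qm (g := fun x : (X × Y) × Y' => qm Γ ((x.1.1, x.2), x.1.2)) fun γ =>
      qm_smul γ ((x.1, α x), x.2)
  have e3 : dsc Γ (fun x : X × Y => qm Γ (x.1, α x)) (qm Γ x) = qm Γ (x.1, α x) := by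
    refine dsc_qm (g := fun x : X × Y => qm Γ (x.1, α x)) fun γ => ?_
    rw [he γ x hx]
    exact qm_smul γ (x.1, α x)
  rw [Function.comp_apply, Function.comp_apply, e1 x hx, e2, fst_qm_BB3, e3]

end Pool.Agent.Bet
end

-- part Pool.Agent.P.MP_d34769_ag.BB6
section

/-! TASK BB6: the absorbing self-map of the punctured bundle. -/

open Set

namespace Pool.Agent.Bet

variable {Γ X Y F : Type} [Group Γ] [TopologicalSpace Γ] [IsTopologicalGroup Γ]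
  [TopologicalSpace X] [MulAction Γ X] [ContinuousSMul Γ X] [TopologicalSpace Y] [MulAction Γ Y]
  [ContinuousSMul Γ Y] [AddCommGroup F] [Module ℂ F]
  [TopologicalSpace F] [IsTopologicalAddGroup F] [ContinuousSMul ℂ F] [T2Space F]
  [DistribMulAction Γ F] [SMulCommClass Γ ℂ F] [ContinuousSMul Γ F]
  {S₀ : Set X} {E : Set Y} {F₀ : Submodule ℂ F} {N : F → ℝ} {α : Y × F → Y}

/-- the rescaling homotopy of the punctured fibre -/
noncomputable def sc_BB6 (N : F → ℝ) (t : ℝ) (v : F) : F :=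
  (((1 - t) + t * (N v)⁻¹ : ℝ) : ℂ) • v

theorem Wt.siso (h : Wt Γ S₀ E F₀ N α) (hS : Ivt Γ S₀) (hE : Ivt Γ E) (hF : Ivt Γ (F₀ : Set F))
    (hP : Prin Γ E) [ContractibleSpace E] :
    ∃ μ : (X × Y) × F → (X × Y) × F,
      ContinuousOn μ ((S₀ ×ˢ E) ×ˢ ((F₀ : Set F) \ {0})) ∧
      (∀ x ∈ (S₀ ×ˢ E) ×ˢ ((F₀ : Set F) \ {0}), ∀ a : ℂ, a ≠ 0 →
        qm Γ (μ (x.1, a • x.2)) = qm Γ (μ x)) ∧
      (∀ x ∈ (S₀ ×ˢ E) ×ˢ ((F₀ : Set F) \ {0}), ∀ γ : Γ, qm Γ (μ (γ • x)) = qm Γ (μ x)) ∧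
      SIso (dsc Γ fun x => qm Γ (μ x)) (qs Γ ((S₀ ×ˢ E) ×ˢ ((F₀ : Set F) \ {0}))) ∅
        (qs Γ ((S₀ ×ˢ E) ×ˢ ((F₀ : Set F) \ {0}))) ∅ := by
  set P : Set F := (F₀ : Set F) \ {0} with hPdef
  have iP : Ivt Γ P := fun γ v hv =>
    ⟨hF γ v hv.1, fun e => hv.2 ((smul_eq_zero_iff_eq γ).1 e)⟩
  have scm : ∀ t ∈ Icc (0 : ℝ) 1, ∀ v ∈ P, sc_BB6 N t v ∈ P := by
    intro t ht v hv
    have hp := h.pos v hv.1 hv.2
    refine ⟨F₀.smul_mem _ hv.1, fun e => hv.2 ?_⟩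
    have hpos : (0 : ℝ) < (1 - t) + t * (N v)⁻¹ := by
      have h1 := inv_pos.2 hp
      rcases eq_or_lt_of_le ht.1 with h0 | h0
      · rw [← h0]; norm_num
      · have := mul_pos h0 h1
        linarith [ht.2]
    rcases smul_eq_zero.1 (show sc_BB6 N t v = 0 from e) with h2 | h2
    · exact absurd (Complex.ofReal_eq_zero.1 h2) hpos.ne'
    · exact h2
  have sce : ∀ t : ℝ, ∀ γ : Γ, ∀ v ∈ P, sc_BB6 N t (γ • v) = γ • sc_BB6 N t v := by
    intro t γ v hv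
    rw [sc_BB6, sc_BB6, h.inv γ v hv.1, smul_comm γ]
  have scc : ContinuousOn (fun p : ℝ × F => sc_BB6 N p.1 p.2) (univ ×ˢ P) := by
    have c1 : ContinuousOn (fun p : ℝ × F => (N p.2)⁻¹) (univ ×ˢ P) :=
      ((h.cN.comp continuous_snd.continuousOn fun p hp => hp.2.1)).inv₀
        fun p hp => (h.pos _ hp.2.1 hp.2.2).ne'
    refine ContinuousOn.smul ?_ continuous_snd.continuousOn
    exact Complex.continuous_ofReal.comp_continuousOn
      ((continuous_const.sub continuous_fst).continuousOn.add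
        (continuous_fst.continuousOn.mul c1))
  have sc0 : ∀ v : F, sc_BB6 N 0 v = v := fun v => by simp [sc_BB6]
  have h1 : (1 : ℝ) ∈ Icc (0 : ℝ) 1 := ⟨zero_le_one, le_rfl⟩
  have c1 : ContinuousOn (sc_BB6 N 1) P :=
    scc.comp (f := fun v : F => ((1 : ℝ), v)) (continuous_const.prodMk continuous_id).continuousOn
      fun v hv => ⟨mem_univ _, hv⟩
  let H : ℝ → (X × Y) × F → (X × Y) × F := fun t x =>
    ((x.1.1, α (x.1.2, sc_BB6 N 1 x.2)), sc_BB6 N t x.2)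
  have cA : ContinuousOn (fun x : (X × Y) × F => α (x.1.2, sc_BB6 N 1 x.2)) ((S₀ ×ˢ E) ×ˢ P) :=
    h.cα.comp ((continuous_snd.comp continuous_fst).continuousOn.prodMk
      (c1.comp continuous_snd.continuousOn fun x hx => hx.2))
      fun x hx => ⟨hx.1.2, scm 1 h1 _ hx.2⟩
  have hH : Htp H ((S₀ ×ˢ E) ×ˢ P) ((S₀ ×ˢ E) ×ˢ P) := by
    refine ⟨?_, fun t ht x hx => ⟨⟨hx.1.1, h.map ⟨hx.1.2, scm 1 h1 _ hx.2⟩⟩, scm t ht _ hx.2⟩⟩
    refine ContinuousOn.prodMk (ContinuousOn.prodMk ?_ ?_) ?_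
    · exact (continuous_fst.comp (continuous_fst.comp continuous_snd)).continuousOn
    · exact cA.comp continuous_snd.continuousOn fun p hp => hp.2
    · exact scc.comp (f := fun p : ℝ × ((X × Y) × F) => (p.1, p.2.2))
        (continuous_fst.prodMk (continuous_snd.comp continuous_snd)).continuousOn
        fun p hp => ⟨mem_univ _, hp.2.2⟩
  have He : ∀ t : ℝ, ∀ γ : Γ, ∀ x ∈ (S₀ ×ˢ E) ×ˢ P, H t (γ • x) = γ • H t x := by
    intro t γ x hx
    have e1 := h.equiv γ (x.1.2, sc_BB6 N 1 x.2) ⟨hx.1.2, scm 1 h1 _ hx.2⟩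
    refine Prod.ext (Prod.ext rfl ?_) (sce t γ _ hx.2)
    change α (γ • x.1.2, sc_BB6 N 1 (γ • x.2)) = γ • α (x.1.2, sc_BB6 N 1 x.2)
    rw [sce 1 γ _ hx.2, ← e1]
    rfl
  have iW : Ivt Γ ((S₀ ×ˢ E) ×ˢ P) := (hS.prod hE).prod iP
  have iW' : Ivt Γ ((S₀ ×ˢ P) ×ˢ E) := (hS.prod iP).prod hE
  refine ⟨H 1, ?_, ?_, ?_, ?_⟩
  · exact hH.cont.comp (f := fun x : (X × Y) × F => ((1 : ℝ), x))
      (continuous_const.prodMk continuous_id).continuousOn fun x hx => ⟨h1, hx⟩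
  · intro x hx a ha
    have hn : (‖a‖ : ℂ) ≠ 0 := Complex.ofReal_ne_zero.2 (norm_ne_zero_iff.2 ha)
    have hb : ‖a / (‖a‖ : ℂ)‖ = 1 := by
      rw [norm_div, Complex.norm_real, norm_norm, div_self (norm_ne_zero_iff.2 ha)]
    obtain ⟨γ, g1, g2, g3⟩ := h.circ _ hb
    have hv := scm 1 h1 _ hx.2
    have e : sc_BB6 N 1 (a • x.2) = (a / (‖a‖ : ℂ)) • sc_BB6 N 1 x.2 := by
      have hN : (N x.2 : ℂ) ≠ 0 := Complex.ofReal_ne_zero.2 (h.pos _ hx.2.1 hx.2.2).ne'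
      rw [sc_BB6, sc_BB6, h.hom a _ hx.2.1, smul_smul, smul_smul]
      congr 1
      push_cast
      field_simp
      ring
    rw [← qm_smul γ (H 1 x)]
    congr 1
    refine Prod.ext (Prod.ext (g1 _ hx.1.1).symm ?_) ?_
    · change α (x.1.2, sc_BB6 N 1 (a • x.2)) = γ • α (x.1.2, sc_BB6 N 1 x.2)
      rw [e, g3 _ hx.1.2 _ hv.1 hv.2]
    · change sc_BB6 N 1 (a • x.2) = γ • sc_BB6 N 1 x.2
      rw [e, g2 _ hv.1]
  · intro x hx γ
    rw [He 1 γ x hx, qm_smul]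
  · let j : (X × Y) × F → (X × F) × Y := fun x => ((x.1.1, x.2), x.1.2)
    let i : (X × F) × Y → (X × Y) × F := fun x => ((x.1.1, x.2), x.1.2)
    have cj : Continuous j := by fun_prop
    have ci : Continuous i := by fun_prop
    have mj : MapsTo j ((S₀ ×ˢ E) ×ˢ P) ((S₀ ×ˢ P) ×ˢ E) := fun x hx => ⟨⟨hx.1.1, hx.2⟩, hx.1.2⟩
    have mi : MapsTo i ((S₀ ×ˢ P) ×ˢ E) ((S₀ ×ˢ E) ×ˢ P) := fun x hx => ⟨⟨hx.1.1, hx.2⟩, hx.1.2⟩
    have s1 := (q_eqv (Γ := Γ) (Λ := Γ) (T := ∅) (T' := ∅) iW iW' (empty_subset _) (empty_subset _)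
      cj.continuousOn ci.continuousOn mj (mapsTo_empty _ _) mi (mapsTo_empty _ _)
      (fun γ x _ => ⟨γ, rfl⟩) (fun γ x _ => ⟨γ, rfl⟩) (fun x _ => ⟨1, one_smul _ _⟩)
      (fun x _ => ⟨1, one_smul _ _⟩)).2.1
    have s3 := (q_eqv (Γ := Γ) (Λ := Γ) (T := ∅) (T' := ∅) iW' iW (empty_subset _) (empty_subset _)
      ci.continuousOn cj.continuousOn mi (mapsTo_empty _ _) mj (mapsTo_empty _ _)
      (fun γ x _ => ⟨γ, rfl⟩) (fun γ x _ => ⟨γ, rfl⟩) (fun x _ => ⟨1, one_smul _ _⟩)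
      (fun x _ => ⟨1, one_smul _ _⟩)).2.1
    have ea : ∀ γ : Γ, ∀ x ∈ (S₀ ×ˢ P) ×ˢ E,
        α ((γ • x).2, sc_BB6 N 1 (γ • x).1.2) = γ • α (x.2, sc_BB6 N 1 x.1.2) := fun γ x hx =>
      congrArg (fun p : (X × Y) × F => p.1.2) (He 1 γ (i x) (mi hx))
    have s2 := q_abs (Γ := Γ) (S := S₀ ×ˢ P) (E := E) (E' := E) (hS.prod iP) hE hE hP.prod_right
      hP.prod_right (α := fun x : (X × F) × Y => α (x.2, sc_BB6 N 1 x.1.2))
      (cA.comp ci.continuousOn mi) (fun x hx => h.map ⟨hx.2, scm 1 h1 _ hx.1.2⟩) ea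
    have s4 := (s3.comp (s2.comp s1)).congr (f' := dsc Γ fun x => qm Γ (H 0 x)) (by
      rintro _ ⟨x, hx, rfl⟩
      simp only [Function.comp_apply]
      rw [dsc_qm (g := fun x => qm Γ (j x)) (fun γ => qm_smul γ (j x)),
        dsc_qm (g := fun x : (X × F) × Y => qm Γ (x.1, α (x.2, sc_BB6 N 1 x.1.2))) (fun γ => by
          rw [ea γ _ (mj hx)]
          exact qm_smul γ ((j x).1, α ((j x).2, sc_BB6 N 1 (j x).1.2))),
        dsc_qm (g := fun x => qm Γ (i x)) (fun γ => qm_smul γ (i _)),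
        dsc_qm (g := fun x => qm Γ (H 0 x)) (fun γ => by rw [He 0 γ x hx, qm_smul])]
      simp only [H, sc0]
      rfl)
    exact SIso.of_htp (q_htp (Λ := Γ) iW hH fun t _ γ x hx => ⟨γ, (He t γ x hx).symm⟩)
      (fun _ _ => mapsTo_empty _ _) s4

end Pool.Agent.Bet
end

-- part Pool.Agent.P.MP_d34769_ag.BL11
section

/-! TASK BL11: the Gysin sequence splits if the sphere bundle injects into the projective
bundle. -/

open Set

namespace Pool.Agent.Bet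

variable {W : Type} [TopologicalSpace W] {r : ℕ} {S : Set W} {V : W → Submodule ℂ (ℕ → ℂ)}

lemma hmap_BL11 {X Y : Type} [TopologicalSpace X] [TopologicalSpace Y] {f : X → Y} {A : Set X}
    {A' : Set Y} (hf : Continuous f) (h : MapsTo f A A') : HMap (pu f) (cn A) ⊥ (cn A') ⊥ := by
  simpa using hmap_pu (T := ∅) (T' := ∅) hf.continuousOn h (mapsTo_empty _ _)

theorem core_ont (h : LF r S V)
    (hi : Inj (pu (Prod.map id pm)) (cn (TotC S ∅ V)) ⊥ (cn (PV S V)) ⊥) :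
    Ont (Tot S V) (Tot S V) (TotC S ∅ V) := by
  obtain ⟨u, hu⟩ := exists_U
  have hsub : TotC S ∅ V ⊆ Tot S V := fun x hx => hx.1
  refine Inj.srj ?_ ⟨cn_mono hsub, stb_cn _, stb_cn _⟩ (stb_cn _).pr_bot
  intro z hz hb
  have hfst : pu Prod.fst z ∈ BB (cn S) ⊥ :=
    (hmap_BL11 (A := Tot S V) continuous_fst fun x hx => hx.1).2 z hb
  have hc : Continuous pm := isOpenQuotientMap_pm.continuous
  have hc' : Continuous (Prod.map id pm : W × (ℕ → ℂ) → W × PA) := continuous_id.prodMap hc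
  have hm : MapsTo (Prod.map id pm) (TotC S ∅ V) (PV S V) :=
    fun x hx => ⟨hx.1.1, x.2, hx.1.2, hx.2.resolve_left id, rfl⟩
  have hs : MapsTo Prod.snd (TotC S ∅ V) ({0}ᶜ : Set (ℕ → ℂ)) :=
    fun x hx => hx.2.resolve_left id
  refine hi z hz ((hu.lh h).inj _ ((hmap_BL11 hc' hm).1 z hz) fun i _ => ?_)
  have := contractible_ne
  obtain ⟨a, ha⟩ := coc_ctr (ω := u i ∘ₗ pu pm) {0}ᶜ fun c hc0 => by
    rw [LinearMap.comp_apply, pu_D hc.continuousOn hc0]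
    exact (hu i).1.bb _ (D_mem_BB (pu_mem (mapsTo_image _ _) hc0))
  rw [sl_pu (u i) hc'.continuousOn hz.1]
  have hcoh := cap_coh (A := TotC S ∅ V) (A₀ := ∅)
    (ω := u i ∘ₗ pu fun x : W × (ℕ → ℂ) => (Prod.map id pm x).2) (ω' := a • aug) (c := z)
    (empty_subset _) (fun w hw => by
      rw [cn_empty] at hw
      have h1 := ha _ ((hmap_BL11 continuous_snd hs).1 w hw)
      rw [LinearMap.comp_apply, pu_pu continuous_snd.continuousOn hw.1,
        aug_pu continuous_snd.continuousOn hw.1] at h1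
      exact h1) (by rwa [cn_empty])
  rw [cap_smul, cap_aug] at hcoh
  have h2 := (hmap_BL11 (A := TotC S ∅ V) (A' := S) continuous_fst fun x hx => hx.1.1).2 _ hcoh
  rw [map_sub, map_smul] at h2
  have h3 := Submodule.add_mem _ h2 (Submodule.smul_mem _ a hfst)
  rw [sub_add_cancel] at h3
  exact h3

theorem core (h : LF r S V) (hi : ∀ (B : Type) [TopologicalSpace B],
    Inj (pu (Prod.map id (Prod.map id pm))) (cn (up B (TotC S ∅ V))) ⊥ (cn (up B (PV S V))) ⊥) :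
    SO (Tot S V) (Tot S V) (TotC S ∅ V) := by
  intro B _
  have hc : Continuous pm := isOpenQuotientMap_pm.continuous
  have c1 : Continuous fun x : (B × W) × (ℕ → ℂ) => (x.1.1, (x.1.2, x.2)) := by fun_prop
  have c2 : Continuous fun x : B × (W × (ℕ → ℂ)) => ((x.1, x.2.1), x.2.2) := by fun_prop
  have c3 : Continuous fun x : (B × W) × PA => (x.1.1, (x.1.2, x.2)) := by fun_prop
  have c4 : Continuous (Prod.map id pm : (B × W) × (ℕ → ℂ) → (B × W) × PA) :=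
    continuous_id.prodMap hc
  have ho := core_ont (h.up B) fun z hz hb => by
    have h1 := (hmap_BL11 (A := TotC (up B S) ∅ fun x => V x.2) (A' := up B (TotC S ∅ V)) c1
      fun _ hx => hx).1 z hz
    have h2 := (hmap_BL11 (A := PV (up B S) fun x => V x.2) (A' := up B (PV S V)) c3
      fun _ hx => hx).2 _ hb
    rw [pu_pu c4.continuousOn hz.1] at h2
    have h3 := hi B _ h1 (by rw [pu_pu c1.continuousOn hz.1]; exact h2)
    have h4 := (hmap_BL11 (A' := TotC (up B S) ∅ fun x => V x.2) (A := up B (TotC S ∅ V)) c2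
      fun _ hx => hx).2 _ h3
    rwa [pu_pu c1.continuousOn hz.1, pu_of_eqOn ?_ hz.1] at h4
    exact fun _ _ => rfl
  exact (SIso.of_inv (S := Tot (up B S) fun x => V x.2) (T := TotC (up B S) ∅ fun x => V x.2)
    (S' := up B (Tot S V)) (T' := up B (TotC S ∅ V)) (fun _ hx => hx.1) (fun _ hx => hx.1)
    c1.continuousOn c2.continuousOn (fun _ hx => hx) (fun _ hx => hx) (fun _ hx => hx)
    (fun _ hx => hx) (fun _ _ => rfl) fun _ _ => rfl).ont subset_rfl (fun _ hx => hx) ho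

end Pool.Agent.Bet
end

-- part Pool.Agent.P.MP_d34769_ag.BB7
section

/-! TASK BB7: the lemma of Atiyah and Bott for a weight one action. -/

open Set

namespace Pool.Agent.Bet

theorem inj_BB7 {A B C : Type} [TopologicalSpace A] [TopologicalSpace B] [TopologicalSpace C]
    {p : A → B} {ρ : B → C} {k : A → C} {S : Set A} {S' : Set B} {S'' : Set C}
    (cp : ContinuousOn p S) (cρ : ContinuousOn ρ S') (mρ : MapsTo ρ S' S'')
    (e : ∀ x ∈ S, ρ (p x) = k x) (hk : SIso k S ∅ S'' ∅) (W : Type) [TopologicalSpace W] :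
    Inj (pu (Prod.map id p : W × A → W × B)) (cn (up W S)) ⊥ (cn (up W S')) ⊥ := by
  intro z hz hb
  have c1 : ContinuousOn (Prod.map id ρ : W × B → W × C) (up W S') :=
    continuous_fst.continuousOn.prodMk (cρ.comp continuous_snd.continuousOn fun _ hx => hx)
  have c2 : ContinuousOn (Prod.map id p : W × A → W × B) (up W S) :=
    continuous_fst.continuousOn.prodMk (cp.comp continuous_snd.continuousOn fun _ hx => hx)
  have h1 := hmap_pu (T := ∅) (T' := ∅) (S' := up W S'') c1 (fun _ hx => mρ hx) (mapsTo_empty _ _)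
  have h2 := (hk.iso W).inj
  simp only [up_empty, cn_empty] at h1 h2
  refine h2 z hz ?_
  have h3 := h1.2 _ hb
  have e1 : EqOn (Prod.map id ρ ∘ Prod.map id p : W × A → W × C) (Prod.map id k) (up W S) :=
    fun x hx => Prod.ext rfl (e x.2 hx)
  rwa [pu_pu c2 hz.1, pu_congr e1 hz.1] at h3

variable {Γ X Y F : Type} [Group Γ] [TopologicalSpace Γ] [IsTopologicalGroup Γ]
  [TopologicalSpace X] [MulAction Γ X] [ContinuousSMul Γ X] [TopologicalSpace Y] [MulAction Γ Y]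
  [ContinuousSMul Γ Y] [AddCommGroup F] [Module ℂ F]
  [TopologicalSpace F] [IsTopologicalAddGroup F] [ContinuousSMul ℂ F] [T2Space F]
  [DistribMulAction Γ F] [SMulCommClass Γ ℂ F] [ContinuousSMul Γ F]
  {S₀ : Set X} {E : Set Y} {F₀ : Submodule ℂ F} {N : F → ℝ} {α : Y × F → Y}

theorem totc_BB7 {S : Set X} [FiniteDimensional ℂ F₀] {J : X → F →ₗ[ℂ] (ℕ → ℂ)} (hS : Ivt Γ S)
    (hJ : Emb Γ S F₀ J) {x : Q Γ X × (ℕ → ℂ)} : x ∈ TotC (qs Γ S) ∅ (asV Γ F₀ J) ↔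
      ∃ y ∈ S ×ˢ ((F₀ : Set F) \ {0}), (qm Γ y.1, J y.1 y.2) = x := by
  constructor
  · rintro ⟨⟨⟨z, hz, e⟩, h2⟩, h3⟩
    rw [← e, asV_qm hS hJ hz] at h2
    obtain ⟨v, hv, e'⟩ := h2
    refine ⟨(z, v), ⟨hz, hv, fun h0 => ?_⟩, Prod.ext e e'⟩
    have h4 : v = 0 := h0
    rw [h4, map_zero] at e'
    exact h3.elim (fun h => h) fun h => h e'.symm
  · rintro ⟨⟨z, v⟩, ⟨hz, hv, h0⟩, rfl⟩
    refine ⟨⟨⟨z, hz, rfl⟩, ?_⟩, Or.inr fun h => h0 (hJ.inj z hz v hv h)⟩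
    show J z v ∈ asV Γ F₀ J (qm Γ z)
    rw [asV_qm hS hJ hz]
    exact ⟨v, hv, rfl⟩

theorem siso_BB7 {S : Set X} [FiniteDimensional ℂ F₀] {J : X → F →ₗ[ℂ] (ℕ → ℂ)} (hS : Ivt Γ S)
    (hJ : Emb Γ S F₀ J) {g : Q Γ X × (ℕ → ℂ) → Q Γ (X × F)}
    (cg : ContinuousOn g (Tot (qs Γ S) (asV Γ F₀ J)))
    (hg : ∀ x ∈ S, ∀ v ∈ F₀, g (qm Γ x, J x v) = qm Γ (x, v)) :
    SIso g (TotC (qs Γ S) ∅ (asV Γ F₀ J)) ∅ (qs Γ (S ×ˢ ((F₀ : Set F) \ {0}))) ∅ := by
  have hA : Ivt Γ (S ×ˢ ((F₀ : Set F) \ {0})) :=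
    hS.prod (hJ.ivt.diff fun γ v hv => by rw [show v = 0 from hv]; exact smul_zero γ)
  have hi : ∀ γ : Γ, ∀ x ∈ S ×ˢ ((F₀ : Set F) \ {0}),
      (qm Γ (γ • x).1, J (γ • x).1 (γ • x).2) = (qm Γ x.1, J x.1 x.2) :=
    fun γ x hx => Prod.ext (qm_smul γ x.1) (hJ.inv γ x.1 hx.1 x.2 hx.2.1)
  have hf : ∀ x ∈ S ×ˢ ((F₀ : Set F) \ {0}),
      dsc Γ (fun x : X × F => (qm Γ x.1, J x.1 x.2)) (qm Γ x) = (qm Γ x.1, J x.1 x.2) :=
    fun x hx => dsc_qm fun γ => hi γ x hx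
  refine SIso.of_inv (k := dsc Γ fun x : X × F => (qm Γ x.1, J x.1 x.2)) (empty_subset _)
    (empty_subset _) (cg.mono fun _ hx => hx.1) (dsc_cont hA ?_ hi) ?_ (mapsTo_empty _ _) ?_
    (mapsTo_empty _ _) ?_ ?_
  · exact (continuous_qm.comp continuous_fst).continuousOn.prodMk
      (hJ.cont.mono fun _ hx => ⟨hx.1, hx.2.1⟩)
  · intro x hx
    obtain ⟨y, hy, rfl⟩ := (totc_BB7 hS hJ).1 hx
    exact ⟨y, hy, (hg _ hy.1 _ hy.2.1).symm⟩
  · rintro _ ⟨y, hy, rfl⟩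
    exact (totc_BB7 hS hJ).2 ⟨y, hy, (hf y hy).symm⟩
  · intro x hx
    obtain ⟨y, hy, rfl⟩ := (totc_BB7 hS hJ).1 hx
    rw [hg _ hy.1 _ hy.2.1]
    exact hf y hy
  · rintro _ ⟨y, hy, rfl⟩
    rw [hf y hy, hg _ hy.1 _ hy.2.1]

theorem Wt.so [FiniteDimensional ℂ F₀] (h : Wt Γ S₀ E F₀ N α) (hS : Ivt Γ S₀) (hE : Ivt Γ E)
    (hP : Prin Γ E) [ContractibleSpace E] {J : X × Y → F →ₗ[ℂ] (ℕ → ℂ)}
    (hJ : Emb Γ (S₀ ×ˢ E) F₀ J) :
    SO (qs Γ ((S₀ ×ˢ E) ×ˢ (F₀ : Set F))) (qs Γ ((S₀ ×ˢ E) ×ˢ (F₀ : Set F)))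
      (qs Γ ((S₀ ×ˢ E) ×ˢ ((F₀ : Set F) \ {0}))) := by
  have hSE : Ivt Γ (S₀ ×ˢ E) := hS.prod hE
  have hP' : Prin Γ (S₀ ×ˢ E) := fun x hx => by
    obtain ⟨U, h1, h2, τ, h3, h4⟩ := hP x.2 hx.2
    exact ⟨Prod.snd ⁻¹' U, h1.preimage continuous_snd, h2, fun y => τ y.2,
      h3.comp continuous_snd.continuousOn fun y hy => ⟨hy.1.2, hy.2⟩,
      fun γ y hy => h4 γ y.2 ⟨hy.1.2, hy.2⟩⟩
  have e0 : (S₀ ×ˢ E) ×ˢ ((F₀ : Set F) \ {0}) =
      {x | x ∈ (S₀ ×ˢ E) ×ˢ (F₀ : Set F) ∧ (x.1 ∈ (∅ : Set (X × Y)) ∨ x.2 ≠ 0)} :=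
    Set.ext fun x => ⟨fun hx => ⟨⟨hx.1, hx.2.1⟩, Or.inr hx.2.2⟩,
      fun hx => ⟨hx.1.1, hx.1.2, hx.2.resolve_left fun h => h⟩⟩
  have h1 := (assoc_eqv hSE hP' hJ (T := ∅) (fun _ _ hx => hx) (empty_subset _)).1
  rw [← e0, qs_empty] at h1
  refine h1.so (core (assoc_lf hSE hP' hJ) ?_)
  obtain ⟨g, cg, hg⟩ := assoc_inv hSE hP' hJ
  obtain ⟨μ, -, h3, h4, h5⟩ := h.siso hS hE hJ.ivt hP
  have h6 := h5.comp (siso_BB7 hSE hJ cg hg)
  have hπ : IsOpenQuotientMap (Prod.map id pm : Q Γ (X × Y) × (ℕ → ℂ) → Q Γ (X × Y) × PA) :=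
    IsOpenQuotientMap.id.prodMap isOpenQuotientMap_qm
  have e1 : PV (qs Γ (S₀ ×ˢ E)) (asV Γ F₀ J) =
      Prod.map id pm '' TotC (qs Γ (S₀ ×ˢ E)) ∅ (asV Γ F₀ J) := by
    ext x
    constructor
    · rintro ⟨h7, v, h8, h9, e⟩
      exact ⟨(x.1, v), ⟨⟨h7, h8⟩, Or.inr h9⟩, Prod.ext rfl e⟩
    · rintro ⟨y, hy, rfl⟩
      exact ⟨hy.1.1, y.2, hy.1.2, hy.2.resolve_left fun h => h, rfl⟩
  have e2 : ∀ x ∈ TotC (qs Γ (S₀ ×ˢ E)) ∅ (asV Γ F₀ J),
      dsc Γ (fun x => qm Γ (μ x)) (g (x.1, (pm x.2).out)) =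
        ((dsc Γ fun x => qm Γ (μ x)) ∘ g) x := by
    intro x hx
    obtain ⟨y, hy, rfl⟩ := (totc_BB7 hSE hJ).1 hx
    obtain ⟨a, ha⟩ := qm_eq.1 (qm_out (pm (J y.1 y.2)))
    have hy' : (y.1, (a : ℂ) • y.2) ∈ (S₀ ×ˢ E) ×ˢ ((F₀ : Set F) \ {0}) :=
      ⟨hy.1, F₀.smul_mem _ hy.2.1, smul_ne_zero a.ne_zero hy.2.2⟩
    have e3 : (pm (J y.1 y.2)).out = J y.1 ((a : ℂ) • y.2) := by
      rw [← ha, map_smul]
      rfl
    simp only [Function.comp]
    rw [e3, hg _ hy.1 _ hy'.2.1, hg _ hy.1 _ hy.2.1, dsc_qm fun γ => h4 _ hy' γ,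
      dsc_qm fun γ => h4 _ hy γ]
    exact h3 y hy a a.ne_zero
  refine inj_BB7 (ρ := fun x => dsc Γ (fun x => qm Γ (μ x)) (g (x.1, x.2.out)))
    hπ.continuous.continuousOn ?_ ?_ e2 h6
  · rw [e1]
    refine liftOn_cont hπ ?_ (h6.cont.congr e2)
    intro x hx y e
    obtain ⟨a, ha⟩ := qm_eq.1 (congrArg Prod.snd e)
    have e4 : y.1 = x.1 := (Prod.ext_iff.1 e).1
    have e5 : y.2 = (a : ℂ) • x.2 := ha.symm
    refine ⟨⟨e4 ▸ hx.1.1, ?_⟩, Or.inr ?_⟩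
    · rw [e4, e5]
      exact Submodule.smul_mem _ _ hx.1.2
    · rw [e5]
      exact smul_ne_zero a.ne_zero (hx.2.resolve_left fun h => h)
  · rw [e1]
    rintro _ ⟨x, hx, rfl⟩
    have h7 := h6.mS hx
    rw [← e2 x hx] at h7
    exact h7

end Pool.Agent.Bet
end

-- part Pool.Agent.P.MP_d34769_ag.BS3
section

/-! TASK BS3: the normal bundle of the slice. -/

set_option linter.unusedSectionVars false

open Set Matrix

namespace Pool.Agent.Bet

variable {ι : Type} [Fintype ι] [DecidableEq ι] {κ : Type} {Ar : Type} [Fintype κ] [Fintype Ar]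
  {s t : Ar → κ} {w : κ → ℝ} {c : ι → Option κ} {p : ι → Bool}

omit [Fintype κ] [Fintype Ar] in
lemma rc_entry_BS3 {φ : Cj Ar ι} (h : φ ∈ Rc s t c) {a : Ar} {i j : ι} (h0 : φ a i j ≠ 0) :
    c i = some (t a) ∧ c j = some (s a) := by
  rw [← h a, dg, dg, mul_dp_apply, dp_mul_apply] at h0
  by_contra h1
  rw [not_and_or] at h1
  rcases h1 with h1 | h1 <;> simp [h1] at h0

omit [Fintype Ar] in
lemma blk_add_BS3 (x y : Matrix ι ι ℂ) (φ ψ : Cj Ar ι) :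
    blk x y (φ + ψ) = blk x y φ + blk x y ψ :=
  funext fun a => by simp only [blk, Cj.add_apply, mul_add, add_mul]

omit [Fintype Ar] in
lemma blk_sub_BS3 (x y : Matrix ι ι ℂ) (φ ψ : Cj Ar ι) :
    blk x y (φ - ψ) = blk x y φ - blk x y ψ :=
  funext fun a => by simp only [blk, Cj.sub_apply, mul_sub, sub_mul]

omit [Fintype Ar] in
lemma blk_csmul_BS3 (x y : Matrix ι ι ℂ) (z : ℂ) (φ : Cj Ar ι) :
    blk x y (z • φ) = z • blk x y φ :=
  funext fun a => by simp only [blk, Cj.csmul_apply, Matrix.mul_smul, Matrix.smul_mul]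

omit [Fintype Ar] in
lemma blk_blk_BS3 (x y x' y' : Matrix ι ι ℂ) (φ : Cj Ar ι) :
    blk x y (blk x' y' φ) = blk (x * x') (y' * y) φ :=
  funext fun a => by simp only [blk, mul_assoc]

omit [Fintype Ar] in
lemma blk_zl_BS3 (y : Matrix ι ι ℂ) (φ : Cj Ar ι) : blk 0 y φ = 0 :=
  funext fun a => by simp [blk, Cj.zero_apply]

omit [Fintype Ar] in
lemma blk_zr_BS3 (y : Matrix ι ι ℂ) (φ : Cj Ar ι) : blk y 0 φ = 0 :=
  funext fun a => by simp [blk, Cj.zero_apply]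

omit [Fintype κ] in
lemma comm_BS3 (l : Kc (cp c p)) : e1 p * l.1.1 = l.1.1 * e1 p ∧ e2 p * l.1.1 = l.1.1 * e2 p := by
  have h := (mem_Kc_cp.1 l.2).2
  refine ⟨h, ?_⟩
  rw [← sub_eq_iff_eq_add'.2 (e1_add_e2 p).symm, sub_mul, mul_sub, h, one_mul, mul_one]

theorem so_R21 (hp : Adm c p) :
    SO (qs (Kc (cp c p)) ((Z0 s t w c p ×ˢ Ec c) ×ˢ (R21 s t c p : Set (Cj Ar ι))))
      (qs (Kc (cp c p)) ((Z0 s t w c p ×ˢ Ec c) ×ˢ (R21 s t c p : Set (Cj Ar ι))))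
      (qs (Kc (cp c p)) ((Z0 s t w c p ×ˢ Ec c) ×ˢ ((R21 s t c p : Set (Cj Ar ι)) \ {0}))) := by
  obtain ⟨J, cJ, iJ, nJ⟩ := exists_J (ι := ι) (Ar := Ar)
  obtain ⟨N, cN, pN, hN, iN⟩ := exists_N (ι := ι) (Ar := Ar)
  obtain ⟨β, cβ, mβ, eβ, hβ⟩ := exists_abs fun i => c i ≠ none ∧ p i = false
  have := contractible_Ec c
  refine Wt.so (N := N) (α := fun x => β (x.1, J x.1 x.2)) (J := fun x => J x.2)
    ⟨cN.continuousOn, fun v _ => pN v, fun a v _ => hN a v, fun γ v _ => iN γ.1 γ.2.2 v,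
      (cβ.comp (continuous_fst.prodMk cJ)).continuousOn,
      fun x h => mβ κ c _ h.1 _ fun h0 => h.2.2 (nJ κ s t c _ h.1 _ h.2.1.1 h0), ?_, ?_⟩
    (ivt_Z0 hp) (ivt_Ec_cp c p) (prin_cp c p)
    ⟨ivt_R21 s t c p, (cJ.comp ((continuous_snd.comp continuous_fst).prodMk
      continuous_snd)).continuousOn, fun γ x _ v _ => iJ γ.1 γ.2.2 _ _,
      fun x h v hv => nJ κ s t c _ h.2 _ hv.1⟩
  · intro γ x _
    change β (γ.1 • x.1, J (γ.1 • x.1) (γ.1 • x.2)) = γ.1 • β (x.1, J x.1 x.2)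
    rw [iJ γ.1 γ.2.2, eβ]
    refine (dp_comm_iff _ _).2 fun i j hij => ?_
    have hne : cp c p i ≠ cp c p j ∨ cp c p i = none := by
      by_contra h
      push Not at h
      refine hij ?_
      have h3 := h.1
      have h4 := h.2
      simp only [cp] at h3 h4
      cases hi : c i <;> cases hj : c j <;> simp_all
    rw [mem_Gc_iff.1 γ.2.1 i j hne, if_neg fun e => hij (by rw [e])]
  · intro a ha
    have ha0 : a ≠ 0 := fun h => by simp [h] at ha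
    obtain ⟨g, hg, e, e'⟩ := exists_circ (cp c p) (fun i => c i ≠ none ∧ p i = false)
      (fun i hi h => h.1 (by simpa [cp] using hi)) ha
    have key : ∀ (φ : Cj Ar ι) (b : Ar) (i j : ι), (g • φ) b i j =
        (if c i ≠ none ∧ p i = false then a else 1) * φ b i j *
          (if c j ≠ none ∧ p j = false then a⁻¹ else 1) := by
      intro φ b i j
      rw [Cj.smul_apply, e, e']
      simp only [add_mul, mul_add, Matrix.smul_mul, Matrix.mul_smul, Matrix.add_apply,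
        Matrix.smul_apply, mul_dp_apply, dp_mul_apply, smul_eq_mul]
      split_ifs <;> ring
    refine ⟨⟨g, hg⟩, fun φ hφ => ?_, fun φ hφ => ?_, fun y _ v _ _ => ?_⟩
    · funext b
      ext i j
      change (g • φ) b i j = _
      rw [key]
      by_cases h0 : φ b i j = 0
      · simp [h0]
      obtain ⟨h3, h4⟩ := rc_entry_BS3 hφ.1.1.1 h0
      have h5 := congrFun (congrFun (congrFun hφ.1.2 b) i) j
      have h6 := congrFun (congrFun (congrFun hφ.2 b) i) j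
      simp only [blk, e1, e2, mul_dp_apply, dp_mul_apply, Cj.zero_apply, Matrix.zero_apply] at h5 h6
      cases hi : p i <;> cases hj : p j <;> simp_all
      field_simp
    · funext b
      ext i j
      change (g • φ) b i j = a * φ b i j
      rw [key]
      by_cases h0 : φ b i j = 0
      · simp [h0]
      obtain ⟨h3, h4⟩ := rc_entry_BS3 hφ.1 h0
      have h5 := congrFun (congrFun (congrFun hφ.2 b) i) j
      simp only [blk, e1, e2, mul_dp_apply, dp_mul_apply] at h5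
      cases hi : p i <;> cases hj : p j <;> simp_all
    · change β (y, J y (a • v)) = g • β (y, J y v)
      rw [map_smul]
      exact (hβ a y _).trans (by rw [← e]; rfl)

omit [Fintype Ar] in
lemma o12_BS3 (z : ℂ) (φ : Cj Ar ι) (h : φ ∈ O2 s t w c p) :
    φ - z • blk (e1 p) (e2 p) φ ∈ O2 s t w c p :=
  ⟨Submodule.sub_mem _ h.1 (Submodule.smul_mem _ _ (blk_mem_Rc h.1 _ _)),
    by simpa [blk_sub_BS3, blk_csmul_BS3, blk_blk_BS3, blk_zr_BS3] using h.2.1,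
    by simpa [blk_sub_BS3, blk_csmul_BS3, blk_blk_BS3, blk_zl_BS3] using h.2.2⟩

omit [Fintype Ar] in
lemma o21_BS3 (z : ℂ) (φ : Cj Ar ι) (h : φ ∈ O2 s t w c p) :
    φ - z • blk (e2 p) (e1 p) φ ∈ O2 s t w c p :=
  ⟨Submodule.sub_mem _ h.1 (Submodule.smul_mem _ _ (blk_mem_Rc h.1 _ _)),
    by simpa [blk_sub_BS3, blk_csmul_BS3, blk_blk_BS3, blk_zl_BS3] using h.2.1,
    by simpa [blk_sub_BS3, blk_csmul_BS3, blk_blk_BS3, blk_zr_BS3] using h.2.2⟩

theorem eqv_O2 (hp : Adm c p) :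
    Eqv (qs (Kc (cp c p)) ((Z0 s t w c p ×ˢ Ec c) ×ˢ (R21 s t c p : Set (Cj Ar ι))))
      (qs (Kc (cp c p)) ((Z0 s t w c p ×ˢ Ec c) ×ˢ ((R21 s t c p : Set (Cj Ar ι)) \ {0})))
      (Bo (Kc (cp c p)) (O2 s t w c p) (Ec c))
      (Bo (Kc (cp c p)) (O2 s t w c p \ Zs s t w c p) (Ec c)) := by
  have o12 := o12_BS3 (s := s) (t := t) (w := w) (c := c) (p := p)
  have m1 : MapsTo (fun x : (Cj Ar ι × Mt ι) × Cj Ar ι => (x.1.1 + x.2, x.1.2))
      ((Z0 s t w c p ×ˢ Ec c) ×ˢ (R21 s t c p : Set (Cj Ar ι)))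
      ({φ | φ ∈ O2 s t w c p ∧ blk (e1 p) (e2 p) φ = 0} ×ˢ Ec c) := by
    rintro ⟨⟨φ, f⟩, ψ⟩ ⟨⟨h1, h2⟩, h3, h4⟩
    simp only at h1 h2 h3 h4
    refine ⟨⟨⟨Submodule.add_mem _ h1.1.1.1 h3, ?_, ?_⟩, ?_⟩, h2⟩
    · rw [blk_add_BS3, ← h4, blk_blk_BS3, e1_e2, blk_zl_BS3, add_zero]; exact h1.1.1.2.1
    · rw [blk_add_BS3, ← h4, blk_blk_BS3, e1_e2, blk_zr_BS3, add_zero]; exact h1.1.1.2.2
    · rw [blk_add_BS3, ← h4, blk_blk_BS3, e1_e2, blk_zl_BS3, add_zero]; exact h1.2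
  have m3 : MapsTo (fun x : Cj Ar ι × Mt ι =>
      ((x.1 - blk (e2 p) (e1 p) x.1, x.2), blk (e2 p) (e1 p) x.1))
      ({φ | φ ∈ O2 s t w c p ∧ blk (e1 p) (e2 p) φ = 0} ×ˢ Ec c)
      ((Z0 s t w c p ×ˢ Ec c) ×ˢ (R21 s t c p : Set (Cj Ar ι))) := by
    rintro ⟨φ, f⟩ ⟨⟨h1, h2⟩, h3⟩
    refine ⟨⟨⟨⟨by simpa using o21_BS3 1 φ h1, ?_⟩, ?_⟩, h3⟩, blk_mem_Rc h1.1 _ _, ?_⟩
    · simp [blk_sub_BS3, blk_blk_BS3]
    · simpa [blk_sub_BS3, blk_blk_BS3, blk_zl_BS3] using h2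
    · simp [blk_blk_BS3]
  have iE := ivt_Ec_cp c p
  have iO : Ivt (Kc (cp c p)) (O2 s t w c p) := ivt_O2 hp
  set O0 : Set (Cj Ar ι) := {φ | φ ∈ O2 s t w c p ∧ blk (e1 p) (e2 p) φ = 0} with hO0
  have iO0 : Ivt (Kc (cp c p)) O0 := fun l φ h => ⟨iO l φ h.1, by
    change blk _ _ (l.1 • φ) = 0
    rw [blk_smul (comm_BS3 l).1 (comm_BS3 l).2, h.2, smul_zero]⟩
  have a1 := (q_eqv (Γ := Kc (cp c p)) (Λ := Kc (cp c p))
    (S := (Z0 s t w c p ×ˢ Ec c) ×ˢ (R21 s t c p : Set (Cj Ar ι)))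
    (T := (Z0 s t w c p ×ˢ Ec c) ×ˢ ((R21 s t c p : Set (Cj Ar ι)) \ {0}))
    (S' := O0 ×ˢ Ec c) (T' := (O0 \ Zs s t w c p) ×ˢ Ec c)
    (((ivt_Z0 hp).prod iE).prod (ivt_R21 s t c p)) (iO0.prod iE)
    (prod_mono subset_rfl sdiff_subset) (prod_mono sdiff_subset subset_rfl)
    (j := fun x => (x.1.1 + x.2, x.1.2))
    (i := fun x => ((x.1 - blk (e2 p) (e1 p) x.1, x.2), blk (e2 p) (e1 p) x.1))
    (by fun_prop)
    ((((continuous_fst.sub ((continuous_blk _ _).comp continuous_fst)).prodMk continuous_snd).prodMk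
      ((continuous_blk _ _).comp continuous_fst)).continuousOn)
    m1 (fun x h => ⟨⟨(m1 ⟨h.1, h.2.1⟩).1, fun h3 => h.2.2 (by
      have h4 := h3.2
      rwa [blk_add_BS3, h.1.1.1.2, zero_add, h.2.1.2] at h4)⟩, h.1.2⟩)
    m3 (fun x h => ⟨(m3 ⟨h.1.1, h.2⟩).1, (m3 ⟨h.1.1, h.2⟩).2, fun h3 => h.1.2 ⟨h.1.1.1, h3⟩⟩)
    (fun l x _ => ⟨l, Prod.ext (smul_add l _ _) rfl⟩)
    (fun l x _ => by
      have h4 : blk (e2 p) (e1 p) (l • x.1) = l • blk (e2 p) (e1 p) x.1 :=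
        blk_smul (comm_BS3 l).2 (comm_BS3 l).1 _
      exact ⟨l, Prod.ext (Prod.ext ((smul_sub l _ _).trans (by rw [← h4]; rfl)) rfl) h4.symm⟩)
    (fun x h => ⟨1, by
      simp only [one_smul, blk_add_BS3, h.1.1.1.2, zero_add, h.2.2, add_sub_cancel_right]⟩)
    (fun x _ => ⟨1, by simp⟩)).2.2
  have hd : ∀ T : Set (Cj Ar ι), (∀ z : ℂ, ∀ φ ∈ T, φ - z • blk (e1 p) (e2 p) φ ∈ T) →
      T ⊆ O2 s t w c p → SIso id (qs (Kc (cp c p)) (O0 ×ˢ Ec c))
        (qs (Kc (cp c p)) ((O0 ∩ T) ×ˢ Ec c)) (qs (Kc (cp c p)) (O2 s t w c p ×ˢ Ec c))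
        (qs (Kc (cp c p)) (T ×ˢ Ec c)) := fun T h1 h2 =>
    q_def (H := fun r x => (x.1 - (r : ℂ) • blk (e1 p) (e2 p) x.1, x.2)) (iO.prod iE)
      (prod_mono (fun _ h => h.1) subset_rfl) (prod_mono inter_subset_right subset_rfl)
      (prod_mono h2 subset_rfl) (prod_mono inter_subset_left subset_rfl)
      ⟨(((continuous_fst.comp continuous_snd).sub ((Complex.continuous_ofReal.comp
        continuous_fst).smul ((continuous_blk _ _).comp (continuous_fst.comp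
          continuous_snd)))).prodMk (continuous_snd.comp continuous_snd)).continuousOn,
        fun r _ x h => ⟨o12 _ _ h.1, h.2⟩⟩
      (fun r _ l x _ => Prod.ext (by
        change l.1 • x.1 - (r : ℂ) • blk _ _ (l.1 • x.1) = l.1 • (x.1 - (r : ℂ) • blk _ _ x.1)
        rw [blk_smul (comm_BS3 l).1 (comm_BS3 l).2, smul_sub, smul_comm l.1]) rfl)
      (fun r _ x h => ⟨h1 _ _ h.1, h.2⟩)
      (fun r _ x h => ⟨by simpa only [h.1.2, smul_zero, sub_zero] using h.1, h.2⟩)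
      (fun r _ x h => ⟨by simpa only [h.1.1.2, smul_zero, sub_zero] using h.1, h.2⟩)
      (fun x _ => by simp)
      (fun x h => ⟨⟨o12 _ _ h.1, by simp [blk_sub_BS3, blk_blk_BS3]⟩, h.2⟩)
      (fun x h => ⟨⟨⟨o12 _ _ (h2 h.1), by simp [blk_sub_BS3, blk_blk_BS3]⟩, h1 _ _ h.1⟩, h.2⟩)
  have a2 := hd (O2 s t w c p \ Zs s t w c p) (fun z φ h => ⟨o12 _ _ h.1, fun h3 => h.2 ⟨h.1, by
    simpa [blk_sub_BS3, blk_csmul_BS3, blk_blk_BS3, blk_zl_BS3] using h3.2⟩⟩) sdiff_subset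
  have a3 := hd ∅ (fun _ _ h => h) (empty_subset _)
  simp only [inter_empty, empty_prod, qs_empty] at a3
  have e : O0 ∩ (O2 s t w c p \ Zs s t w c p) = O0 \ Zs s t w c p :=
    Set.ext fun φ => ⟨fun h => ⟨h.1, h.2.2⟩, fun h => ⟨h.1, h.1.1, h.2⟩⟩
  rw [e] at a2
  exact a1.trans (a2.eqv a3)

theorem step_B (hp : Adm c p) {O : Set (Cj Ar ι)} (h1 : Ivt (Kc (cp c p)) O)
    (h2 : RO O (O2 s t w c p)) (h3 : Zs s t w c p ⊆ O) :
    Sh (2 * bb s t (dv (c1 c p)) (dv (c2 c p))) (Bo (Kc (cp c p)) (Z0 s t w c p) (Ec c)) ∅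
        (Bo (Kc (cp c p)) O (Ec c)) (Bo (Kc (cp c p)) (O \ Zs s t w c p) (Ec c)) ∧
      SO (Bo (Kc (cp c p)) O (Ec c)) (Bo (Kc (cp c p)) O (Ec c))
        (Bo (Kc (cp c p)) (O \ Zs s t w c p) (Ec c)) := by
  have iE := ivt_Ec_cp c p
  have iO : Ivt (Kc (cp c p)) (O2 s t w c p) := ivt_O2 hp
  have iZ : Ivt (Kc (cp c p)) (Zs s t w c p) := ivt_Zs hp
  have a1 := thom_R21 s t (T := ∅) (ivt_Z0 (s := s) (t := t) (w := w) hp) (fun _ _ h => h)
    ⟨∅, isOpen_empty, (inter_empty _).symm⟩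
  have e : {x : (Cj Ar ι × Mt ι) × Cj Ar ι |
      x ∈ (Z0 s t w c p ×ˢ Ec c) ×ˢ (R21 s t c p : Set (Cj Ar ι)) ∧
        (x.1.1 ∈ (∅ : Set (Cj Ar ι)) ∨ x.2 ≠ 0)} =
      (Z0 s t w c p ×ˢ Ec c) ×ˢ ((R21 s t c p : Set (Cj Ar ι)) \ {0}) :=
    Set.ext fun x => ⟨fun h => ⟨h.1.1, h.1.2, h.2.resolve_left id⟩,
      fun h => ⟨⟨h.1, h.2.1⟩, Or.inr h.2.2⟩⟩
  rw [e] at a1
  simp only [Bo, empty_prod, qs_empty] at a1
  have a2 := eqv_O2 (s := s) (t := t) (w := w) hp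
  have a3 := q_exc_prod iE iO h1 iZ h2 (by
    convert RO.of_isOpen (S := O2 s t w c p) (continuous_blk (e2 p) (e1 p)).continuousOn
      (isOpen_compl_singleton (x := 0)) using 1
    exact Set.ext fun φ => ⟨fun h => ⟨h.1, fun h4 => h.2 ⟨h.1, h4⟩⟩,
      fun h => ⟨h.1, fun h4 => h.2 h4.2⟩⟩) fun φ h => h3 h.2
  refine ⟨by simpa only [add_zero, Bo] using (a1.trans a2.1).trans a3.sh, ?_⟩
  have a4 : SIso id (qs (Kc (cp c p)) (Zs s t w c p ×ˢ Ec c)) (qs (Kc (cp c p)) ∅)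
      (qs (Kc (cp c p)) (O2 s t w c p ×ˢ Ec c)) (qs (Kc (cp c p)) ∅) :=
    q_def (H := fun r x => (x.1 - (r : ℂ) • blk (e2 p) (e1 p) x.1, x.2)) (iO.prod iE)
      (prod_mono (fun _ h => h.1) subset_rfl) subset_rfl (empty_subset _) (empty_subset _)
      ⟨(((continuous_fst.comp continuous_snd).sub ((Complex.continuous_ofReal.comp
        continuous_fst).smul ((continuous_blk _ _).comp (continuous_fst.comp
          continuous_snd)))).prodMk (continuous_snd.comp continuous_snd)).continuousOn,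
        fun r _ x h => ⟨o21_BS3 _ _ h.1, h.2⟩⟩
      (fun r _ l x _ => Prod.ext (by
        change l.1 • x.1 - (r : ℂ) • blk _ _ (l.1 • x.1) = l.1 • (x.1 - (r : ℂ) • blk _ _ x.1)
        rw [blk_smul (comm_BS3 l).2 (comm_BS3 l).1, smul_sub, smul_comm l.1]) rfl)
      (fun _ _ _ h => h.elim)
      (fun r _ x h => ⟨by simpa only [h.1.2, smul_zero, sub_zero] using h.1, h.2⟩)
      (fun _ _ _ h => h.elim) (fun x _ => by simp)
      (fun x h => ⟨⟨o21_BS3 _ _ h.1, by simp [blk_sub_BS3, blk_blk_BS3]⟩, h.2⟩)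
      (fun _ h => h.elim)
  rw [qs_empty] at a4
  have a5 := (SIso.refl a3.le').so_back a4 a4.mS subset_rfl (a2.2.so (so_R21 hp))
  have a6 : qs (Kc (cp c p)) (Zs s t w c p ×ˢ Ec c) ⊆ qs (Kc (cp c p)) (O ×ˢ Ec c) :=
    qs_mono (prod_mono h3 subset_rfl)
  exact (a3.so_back (SIso.refl (empty_subset _)) a6 a4.mS a5).mono a6

end Pool.Agent.Bet
end

-- part Pool.Agent.P.MP_d34769_ag.BS4
section

/-! TASK BS4: the product decomposition. -/

open Set Matrix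

namespace Pool.Agent.Bet

section aux

variable {ι : Type} [Fintype ι] [DecidableEq ι] {κ κ' : Type} {Ar : Type}
  {s t : Ar → κ} {c c' : ι → Option κ} {p : ι → Bool} {P P' : ι → Prop}

lemma dp_le_BS4 (h : ∀ i, P' i → P i) : dp P * dp P' = dp P' ∧ dp P' * dp P = dp P' := by
  rw [dp_comm P' P, and_self, dp_mul_dp]
  exact dp_congr fun i => ⟨fun hi => hi.2, fun hi => ⟨h i hi, hi⟩⟩

lemma rc_dp_BS4 {φ : Cj Ar ι} (hφ : φ ∈ Rc s t c) (h : ∀ i, c i ≠ none → P i) (a : Ar) :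
    dp P * φ a = φ a ∧ φ a * dp P = φ a := by
  have e : ∀ v, dp P * dg c (some v) = dg c (some v) ∧ dg c (some v) * dp P = dg c (some v) :=
    fun v => dp_le_BS4 fun i hi => h i (by rw [hi]; exact Option.some_ne_none v)
  rw [← hφ a]
  exact ⟨by rw [← mul_assoc, ← mul_assoc, (e _).1], by rw [mul_assoc _ _ (dp P), (e _).2]⟩

lemma rc_mono_BS4 {φ : Cj Ar ι} (hφ : φ ∈ Rc s t c') (h : ∀ i v, c' i = some v → c i = some v) :
    φ ∈ Rc s t c := fun a => by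
  have e : ∀ v, dg c (some v) * dg c' (some v) = dg c' (some v) ∧
      dg c' (some v) * dg c (some v) = dg c' (some v) := fun v => dp_le_BS4 fun i => h i v
  rw [← hφ a, ← mul_assoc, ← mul_assoc, (e _).1, mul_assoc _ (dg c' _), (e _).2]

lemma row_zero_BS4 {f : Mt ι} : dg c none * f.m = 0 ↔ ∀ i, c i = none → ∀ j, f.m i j = 0 := by
  simp only [← Matrix.ext_iff, dg, dp_mul_apply, Matrix.zero_apply, ite_eq_right_iff]
  exact forall_congr' fun i => forall_comm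

lemma ec_dp_BS4 {f : Mt ι} (hf : f ∈ Ec c) (h : ∀ i, c i ≠ none → P i) : dp P * f.m = f.m := by
  ext i j
  rw [dp_mul_apply]
  split_ifs with hi
  · rfl
  · exact (row_zero_BS4.1 hf.1 i (by_contra fun e => hi (h i e)) j).symm

omit [DecidableEq ι] in
lemma vecMul_congr_BS4 {a : ι → ℂ} {M N : Matrix ι ℕ ℂ} (h : ∀ i, a i ≠ 0 → ∀ j, M i j = N i j) :
    a ᵥ* M = a ᵥ* N := by
  funext j
  refine Finset.sum_congr rfl fun i _ => ?_
  by_cases hi : a i = 0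
  · rw [hi, zero_mul, zero_mul]
  · exact congrArg (a i * ·) (h i hi j)

/-- groups of colourings with disjoint supports act trivially -/
lemma triv_BS4 (h : ∀ i, c' i ≠ none → c i = none) {g : GG ι} (hg : g ∈ Gc c)
    {x : Cj Ar ι × Mt ι} (h1 : x.1 ∈ Rc s t c') (h2 : x.2 ∈ Ec c') : g • x = x := by
  have e1 : g.1 * dg c none = dg c none := (hg.1 none).symm.trans hg.2
  have e2 : dg c none * (g⁻¹).1 = dg c none := ((Gc c).inv_mem hg).2
  refine Prod.ext (funext fun a => ?_) ?_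
  · obtain ⟨k1, k2⟩ := rc_dp_BS4 (P := fun i => c i = none) h1 h a
    change dg c none * _ = _ at k1
    change _ * dg c none = _ at k2
    show g.1 * x.1 a * (g⁻¹).1 = x.1 a
    rw [← k1, ← mul_assoc, e1, k1, ← k2, mul_assoc, e2]
  · have k : dg c none * x.2.m = x.2.m := ec_dp_BS4 (P := fun i => c i = none) h2 h
    show g.1 * x.2.m = x.2.m
    rw [← k, ← Matrix.mul_assoc, e1]

/-- the diagonal block -/
def prj_BS4 (e : Matrix ι ι ℂ) (x : Cj Ar ι × Mt ι) : Cj Ar ι × Mt ι :=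
  (blk e e x.1, (e * x.2.m : Matrix ι ℕ ℂ))

omit [DecidableEq ι] in
lemma prj_cont_BS4 (e : Matrix ι ι ℂ) : Continuous (prj_BS4 e : Cj Ar ι × Mt ι → _) :=
  ((continuous_blk e e).comp continuous_fst).prodMk
    (Continuous.matrix_mul continuous_const (continuous_snd (X := Cj Ar ι) (Y := Matrix ι ℕ ℂ)))

lemma prj_smul_BS4 {e : Matrix ι ι ℂ} {g : GG ι} (h : e * g.1 = g.1 * e) (x : Cj Ar ι × Mt ι) :
    prj_BS4 e (g • x) = g • prj_BS4 e x := by
  refine Prod.ext (blk_smul h h _) ?_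
  show e * (g.1 * x.2.m) = g.1 * (e * x.2.m)
  rw [← Matrix.mul_assoc, h, Matrix.mul_assoc]

lemma prj_ec_BS4 {d : ι → Option κ'} {f : Mt ι} (hf : f ∈ Ec d)
    (h0 : ∀ i, c i = none → P i → d i = none)
    (h1 : ∀ v, ∃ v', ∀ i, c i = some v → P i ∧ d i = some v') :
    (dp P * f.m : Matrix ι ℕ ℂ) ∈ Ec c := by
  refine ⟨row_zero_BS4.2 fun i hi j => ?_, fun v a ha e => ?_⟩
  · show (dp P * f.m) i j = 0
    rw [dp_mul_apply]
    split_ifs with hP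
    · exact row_zero_BS4.1 hf.1 i (h0 i hi hP) j
    · rfl
  · obtain ⟨v', hv⟩ := h1 v
    refine hf.2 v' a (fun i hi => ha i fun e => hi (hv i e).2) (Eq.trans ?_ e)
    refine vecMul_congr_BS4 fun i hi j => ?_
    show f.m i j = (dp P * f.m) i j
    rw [dp_mul_apply, if_pos (hv i (by_contra fun e => hi (ha i e))).1]

lemma ec1_BS4 {f : Mt ι} (hf : f ∈ Ec (cp c p)) :
    (e1 p * f.m : Matrix ι ℕ ℂ) ∈ Ec (c1 c p) := by
  refine prj_ec_BS4 hf (fun i hi hP => ?_) fun v => ⟨(v, true), fun i hi => ?_⟩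
  · simp only [c1, hP, if_true] at hi
    simp [cp, hi]
  · cases hP : p i
    · simp [c1, hP] at hi
    · simp only [c1, hP, if_true] at hi
      simp [cp, hi, hP]

lemma ec2_BS4 {f : Mt ι} (hf : f ∈ Ec (cp c p)) :
    (e2 p * f.m : Matrix ι ℕ ℂ) ∈ Ec (c2 c p) := by
  refine prj_ec_BS4 hf (fun i hi hP => ?_) fun v => ⟨(v, false), fun i hi => ?_⟩
  · simp only [c2, hP, Bool.false_eq_true, if_false] at hi
    simp [cp, hi]
  · cases hP : p i
    · simp only [c2, hP, Bool.false_eq_true, if_false] at hi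
      simp [cp, hi, hP]
    · simp [c2, hP] at hi

omit [Fintype ι] [DecidableEq ι] in
lemma c1_ne_BS4 (i : ι) (h : c1 c p i ≠ none) : p i = true := by
  cases hP : p i
  · simp [c1, hP] at h
  · rfl

omit [Fintype ι] [DecidableEq ι] in
lemma c2_ne_BS4 (i : ι) (h : c2 c p i ≠ none) : p i = false := by
  cases hP : p i
  · rfl
  · simp [c2, hP] at h

lemma ec_add_BS4 {f g : Mt ι} (hf : f ∈ Ec (c1 c p)) (hg : g ∈ Ec (c2 c p)) :
    f + g ∈ Ec (cp c p) := by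
  have z1 := row_zero_BS4.1 hf.1
  have z2 := row_zero_BS4.1 hg.1
  refine ⟨row_zero_BS4.2 fun i hi j => ?_, fun v a ha e => ?_⟩
  · have h : c i = none := by simpa [cp] using hi
    show f.m i j + g.m i j = 0
    rw [z1 i (by simp [c1, h]), z2 i (by simp [c2, h]), add_zero]
  · obtain ⟨v, b⟩ := v
    have h : ∀ i, a i ≠ 0 → c i = some v ∧ p i = b := fun i hi => by
      have h := by_contra fun e => hi (ha i e)
      simpa [cp] using h
    cases b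
    · refine hg.2 v a (fun i hi => by_contra fun e => hi (by simp [c2, h i e])) (Eq.trans ?_ e)
      refine vecMul_congr_BS4 fun i hi j => ?_
      show g.m i j = f.m i j + g.m i j
      rw [z1 i (by simp [c1, h i hi]), zero_add]
    · refine hf.2 v a (fun i hi => by_contra fun e => hi (by simp [c1, h i e])) (Eq.trans ?_ e)
      refine vecMul_congr_BS4 fun i hi j => ?_
      show f.m i j = f.m i j + g.m i j
      rw [z2 i (by simp [c2, h i hi]), add_zero]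

lemma blk_add_BS4 {φ ψ : Cj Ar ι} (hφ : φ ∈ Rc s t (c1 c p)) (hψ : ψ ∈ Rc s t (c2 c p)) :
    blk (e1 p) (e1 p) (φ + ψ) = φ ∧ blk (e2 p) (e2 p) (φ + ψ) = ψ ∧
      blk (e2 p) (e1 p) (φ + ψ) = 0 ∧ blk (e1 p) (e2 p) (φ + ψ) = 0 := by
  have a1 : ∀ a, e1 p * φ a = φ a ∧ φ a * e1 p = φ a := rc_dp_BS4 hφ c1_ne_BS4
  have a2 : ∀ a, e2 p * ψ a = ψ a ∧ ψ a * e2 p = ψ a := rc_dp_BS4 hψ c2_ne_BS4
  have b1 : ∀ a, e1 p * (φ a + ψ a) = φ a := fun a => by
    rw [mul_add, (a1 a).1, ← (a2 a).1, ← mul_assoc, e1_e2, zero_mul, add_zero]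
  have b2 : ∀ a, e2 p * (φ a + ψ a) = ψ a := fun a => by
    rw [mul_add, (a2 a).1, ← (a1 a).1, ← mul_assoc, e2_e1, zero_mul, zero_add]
  refine ⟨funext fun a => ?_, funext fun a => ?_, funext fun a => ?_, funext fun a => ?_⟩ <;>
    rw [blk_apply, Cj.add_apply]
  · rw [b1, (a1 a).2]
  · rw [b2, (a2 a).2]
  · rw [b2, ← (a2 a).2, mul_assoc, e2_e1, mul_zero, Cj.zero_apply]
  · rw [b1, ← (a1 a).2, mul_assoc, e1_e2, mul_zero, Cj.zero_apply]

lemma row_add_BS4 {f g : Mt ι} (hf : f ∈ Ec (c1 c p)) (hg : g ∈ Ec (c2 c p)) :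
    e1 p * (f.m + g.m) = f.m ∧ e2 p * (f.m + g.m) = g.m := by
  have a1 : e1 p * f.m = f.m := ec_dp_BS4 hf c1_ne_BS4
  have a2 : e2 p * g.m = g.m := ec_dp_BS4 hg c2_ne_BS4
  constructor
  · rw [Matrix.mul_add, a1, ← a2, ← Matrix.mul_assoc, e1_e2, Matrix.zero_mul, add_zero]
  · rw [Matrix.mul_add, a2, ← a1, ← Matrix.mul_assoc, e2_e1, Matrix.zero_mul, zero_add]

lemma prj_sum_BS4 {x : Cj Ar ι × Mt ι} (h1 : blk (e2 p) (e1 p) x.1 = 0)
    (h2 : blk (e1 p) (e2 p) x.1 = 0) : prj_BS4 (e1 p) x + prj_BS4 (e2 p) x = x := by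
  refine Prod.ext (funext fun a => ?_) ?_
  · have k1 : e2 p * x.1 a * e1 p = 0 := congrFun h1 a
    have k2 : e1 p * x.1 a * e2 p = 0 := congrFun h2 a
    show e1 p * x.1 a * e1 p + e2 p * x.1 a * e2 p = x.1 a
    conv_rhs => rw [← one_mul (x.1 a), ← mul_one (1 * x.1 a), ← e1_add_e2 p]
    rw [add_mul, mul_add, add_mul, add_mul, k1, k2, add_zero, zero_add]
  · show e1 p * x.2.m + e2 p * x.2.m = x.2.m
    rw [← Matrix.add_mul, e1_add_e2, Matrix.one_mul]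

end aux

variable {ι : Type} [Fintype ι] [DecidableEq ι] {κ : Type} {Ar : Type} [Fintype κ] [Fintype Ar]
  {s t : Ar → κ} {w : κ → ℝ} {c : ι → Option κ} {p : ι → Bool}

omit [Fintype Ar] in
lemma z0_add_BS4 {φ ψ : Cj Ar ι} (hφ : φ ∈ Ge s t w (c1 c p)) (hψ : ψ ∈ Lt s t w (c2 c p)) :
    φ + ψ ∈ Z0 s t w c p := by
  obtain ⟨b1, b2, b3, b4⟩ := blk_add_BS4 hφ.1 hψ.1
  refine ⟨⟨⟨(Rc s t c).add_mem (rc_mono_BS4 hφ.1 fun i v hi => ?_)
    (rc_mono_BS4 hψ.1 fun i v hi => ?_), ?_, ?_⟩, b3⟩, b4⟩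
  · simpa [c1, c1_ne_BS4 i (by rw [hi]; exact Option.some_ne_none v)] using hi
  · simpa [c2, c2_ne_BS4 i (by rw [hi]; exact Option.some_ne_none v)] using hi
  · rwa [b1]
  · rwa [b2]

theorem eqv_prod (hp : Adm c p) :
    Eqv (Bo (Kc (cp c p)) (Z0 s t w c p) (Ec (cp c p))) ∅
      (Bo (Kc (c1 c p)) (Ge s t w (c1 c p)) (Ec (c1 c p)) ×ˢ
        Bo (Kc (c2 c p)) (Lt s t w (c2 c p)) (Ec (c2 c p))) ∅ := by
  have i0 : Ivt (Kc (cp c p)) (Z0 s t w c p ×ˢ Ec (cp c p)) :=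
    (ivt_Z0 hp).prod (Ivt.mono (Kc_le _) (ivt_Ec _))
  have i1 : Ivt (Kc (c1 c p)) (Ge s t w (c1 c p) ×ˢ Ec (c1 c p)) :=
    Ivt.prod (Ivt.mono (Kc_le _) ivt_Ge) (Ivt.mono (Kc_le _) (ivt_Ec _))
  have i2 : Ivt (Kc (c2 c p)) (Lt s t w (c2 c p) ×ˢ Ec (c2 c p)) :=
    Ivt.prod (Ivt.mono (Kc_le _) ivt_Lt) (Ivt.mono (Kc_le _) (ivt_Ec _))
  have d1 : ∀ i, c2 c p i ≠ none → c1 c p i = none := fun i hi => by simp [c1, c2_ne_BS4 i hi]
  have d2 : ∀ i, c1 c p i ≠ none → c2 c p i = none := fun i hi => by simp [c2, c1_ne_BS4 i hi]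
  have m1 : MapsTo (fun x : Cj Ar ι × Mt ι => (prj_BS4 (e1 p) x, prj_BS4 (e2 p) x))
      (Z0 s t w c p ×ˢ Ec (cp c p))
      ((Ge s t w (c1 c p) ×ˢ Ec (c1 c p)) ×ˢ (Lt s t w (c2 c p) ×ˢ Ec (c2 c p))) :=
    fun x hx => ⟨⟨hx.1.1.1.2.1, ec1_BS4 hx.2⟩, hx.1.1.1.2.2, ec2_BS4 hx.2⟩
  refine (quot_iso (π := qm (Kc (cp c p)))
    (π' := Prod.map (qm (Kc (c1 c p))) (qm (Kc (c2 c p)))) isOpenQuotientMap_qm
    (isOpenQuotientMap_qm.prodMap isOpenQuotientMap_qm) (T := ∅) (T' := ∅)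
    (S := Z0 s t w c p ×ˢ Ec (cp c p))
    (S' := (Ge s t w (c1 c p) ×ˢ Ec (c1 c p)) ×ˢ (Lt s t w (c2 c p) ×ˢ Ec (c2 c p)))
    (j := fun x : Cj Ar ι × Mt ι => (prj_BS4 (e1 p) x, prj_BS4 (e2 p) x))
    (i := fun y : (Cj Ar ι × Mt ι) × Cj Ar ι × Mt ι => y.1 + y.2)
    (fun x hx y e => (mem_qs i0).1 ⟨x, hx, e.symm⟩)
    (fun x hx y e => ⟨(mem_qs i1).1 ⟨x.1, hx.1, (congrArg Prod.fst e).symm⟩,
      (mem_qs i2).1 ⟨x.2, hx.2, (congrArg Prod.snd e).symm⟩⟩)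
    (empty_subset _) (empty_subset _) ((prj_cont_BS4 _).prodMk (prj_cont_BS4 _)).continuousOn
    continuous_add.continuousOn m1 (mapsTo_empty _ _) ?_ (mapsTo_empty _ _) ?_ ?_ ?_ ?_).elim
    fun f h => ?_
  · exact fun x hx => ⟨z0_add_BS4 hx.1.1 hx.2.1, ec_add_BS4 hx.1.2 hx.2.2⟩
  · intro x _ y hy e
    obtain ⟨⟨g, hg⟩, rfl⟩ := qm_eq.1 e
    obtain ⟨g₁, h₁, g₂, h₂, rfl, -⟩ := split_Kc hp hg
    have k1 := (mem_Kc_cp.1 hg).2
    have k2 : e2 p * (g₁ * g₂).1 = (g₁ * g₂).1 * e2 p := by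
      rw [← add_right_inj (e1 p * (g₁ * g₂).1), ← add_mul, k1, ← mul_add, e1_add_e2, one_mul,
        mul_one]
    obtain ⟨a1, a2⟩ := m1 hy
    have a3 := i2 ⟨g₂, h₂⟩ _ a2
    have q1 : g₁ • prj_BS4 (e1 p) y = prj_BS4 (e1 p) ((g₁ * g₂) • y) := by
      rw [prj_smul_BS4 k1, mul_smul, triv_BS4 d2 h₂.1 a1.1.1 a1.2]
    have q2 : g₂ • prj_BS4 (e2 p) y = prj_BS4 (e2 p) ((g₁ * g₂) • y) := by
      rw [prj_smul_BS4 k2, mul_smul]
      exact (triv_BS4 d1 h₁.1 a3.1.1 a3.2).symm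
    exact congrArg₂ Prod.mk ((qm_eq (Γ := Kc (c1 c p))).2 ⟨⟨g₁, h₁⟩, q1⟩)
      ((qm_eq (Γ := Kc (c2 c p))).2 ⟨⟨g₂, h₂⟩, q2⟩)
  · rintro ⟨x, x'⟩ ⟨-, hx'⟩ ⟨y, y'⟩ ⟨hy, -⟩ e
    obtain ⟨⟨g₁, h₁⟩, q1⟩ := (qm_eq (Γ := Kc (c1 c p)) (x := x) (y := y)).1 (congrArg Prod.fst e)
    obtain ⟨⟨g₂, h₂⟩, q2⟩ := (qm_eq (Γ := Kc (c2 c p)) (x := x') (y := y')).1 (congrArg Prod.snd e)
    change g₁ • y = x at q1
    change g₂ • y' = x' at q2
    have q : (g₁ * g₂) • (y + y') = x + x' := by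
      rw [mul_smul, smul_add, smul_add, triv_BS4 d2 h₂.1 hy.1.1 hy.2, q1, q2,
        triv_BS4 d1 h₁.1 hx'.1.1 hx'.2]
    exact (qm_eq (Γ := Kc (cp c p))).2 ⟨⟨g₁ * g₂, mul_mem (Kc_c1_le c p h₁) (Kc_c2_le c p h₂)⟩, q⟩
  · exact fun x hx => congrArg _ (prj_sum_BS4 hx.1.1.2 hx.1.2)
  · rintro ⟨x, y⟩ ⟨hx, hy⟩
    obtain ⟨b1, b2, -⟩ := blk_add_BS4 hx.1.1 hy.1.1
    obtain ⟨r1, r2⟩ := row_add_BS4 hx.2 hy.2
    exact congrArg _ (Prod.ext (Prod.ext b1 r1) (Prod.ext b2 r2))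
  · rw [Set.prodMap_image_prod] at h
    exact h.2.2.eqv_empty

theorem sd_Z0 (hp : Adm c p) {p₁ p₂ : PowerSeries ℚ}
    (h1 : SD (Bo (Kc (c1 c p)) (Ge s t w (c1 c p)) (Ec (c1 c p))) ∅ p₁)
    (h2 : SD (Bo (Kc (c2 c p)) (Lt s t w (c2 c p)) (Ec (c2 c p))) ∅ p₂) :
    SD (Bo (Kc (cp c p)) (Z0 s t w c p) (Ec c)) ∅ (p₁ * p₂) := by
  have := contractible_Ec c
  have := contractible_Ec (cp c p)
  exact SD.of_eqv ((q_chg (ivt_Z0 hp) (ivt_Ec_cp c p) ((ivt_Ec _).mono (Kc_le _))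
    (prin_cp c p).prod_right (prin_Kc _).prod_right).trans (eqv_prod hp)).symm (h1.prod h2)

end Pool.Agent.Bet
end

-- part Pool.Agent.P.MP_d34769_ag.BS5
section

/-! TASK BS5: the punctured standard representation. -/

open Set Matrix

namespace Pool.Agent.Bet

variable {ι : Type} [Fintype ι] [DecidableEq ι] {κ : Type} {Ar : Type}
  {c : ι → Option κ}

/-- The open ray through the standard vector. -/
def ray_BS5 (i₀ : ι) : Set (Mt ι) := {f | ∃ r : ℝ, 0 < r ∧ f.m = Matrix.single i₀ 0 (r : ℂ)}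

lemma le_BS5 (c : ι → Option κ) (i₀ : ι) : Kc (Function.update c i₀ none) ≤ Kc c := by
  rintro g ⟨h1, h2⟩
  refine ⟨mem_Gc_iff.2 fun i j h => mem_Gc_iff.1 h1 i j ?_, h2⟩
  by_cases hi : i = i₀
  · right; simp [hi]
  by_cases hj : j = i₀
  · subst hj
    rw [Function.update_self]
    exact (em _).symm
  · rwa [Function.update_of_ne hi, Function.update_of_ne hj]

lemma col_BS5 {i₀ : ι} {g : GG ι} (hg : g ∈ Gc (Function.update c i₀ none)) (i : ι) :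
    g.1 i i₀ = if i = i₀ then 1 else 0 := by
  refine mem_Gc_iff.1 hg i i₀ ?_
  rw [Function.update_self]
  exact (em _).symm

lemma row_BS5 {i₀ : ι} {g : GG ι} (hg : g ∈ Gc (Function.update c i₀ none)) (j : ι) :
    g.1 i₀ j = if i₀ = j then 1 else 0 :=
  mem_Gc_iff.1 hg i₀ j (Or.inr (by simp))

lemma mul_BS5 (g : Matrix ι ι ℂ) (i₀ i : ι) (j : ℕ) (z : ℂ) :
    (g * Matrix.single i₀ (0 : ℕ) z) i j = if j = 0 then g i i₀ * z else 0 := by
  rw [Matrix.mul_apply, Finset.sum_eq_single i₀]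
  · by_cases h : j = 0
    · simp [h]
    · simp [h, Ne.symm h]
  · intro b _ hb
    simp [Ne.symm hb]
  · simp

lemma ivt_ray_BS5 (i₀ : ι) : Ivt (Kc (Function.update c i₀ none)) (ray_BS5 i₀) := by
  rintro γ f ⟨r, hr, e⟩
  refine ⟨r, hr, ?_⟩
  show γ.1.1 * f.m = _
  ext i j
  rw [e, mul_BS5, col_BS5 γ.2.1, Matrix.single_apply]
  simp only [@eq_comm _ i₀ i, @eq_comm _ 0 j]
  by_cases h : j = 0 <;> by_cases h' : i = i₀ <;> simp [h, h']

omit [Fintype ι] in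
lemma contr_ray_BS5 (i₀ : ι) : ContractibleSpace (ray_BS5 i₀) := by
  have h : Convex ℝ {f : Matrix ι ℕ ℂ | ∃ r : ℝ, 0 < r ∧ f = Matrix.single i₀ 0 (r : ℂ)} := by
    rintro _ ⟨r, hr, rfl⟩ _ ⟨r', hr', rfl⟩ a b ha hb hab
    refine ⟨a * r + b * r', ?_, ?_⟩
    · exact (convex_Ioi (0 : ℝ)) hr hr' ha hb hab
    · ext i j
      simp only [Matrix.add_apply, Matrix.smul_apply, Matrix.single_apply]
      split_ifs <;> simp
  exact h.contractibleSpace ⟨_, 1, one_pos, rfl⟩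

lemma ivt_F0_BS5 (v : κ) : Ivt (Kc c) (F0 c v : Set (Mt ι)) := by
  intro γ f hf i j h
  show (γ.1.1 * f.m) i j = 0
  rw [Matrix.mul_apply]
  refine Finset.sum_eq_zero fun k _ => ?_
  by_cases hk : c k = some v
  · rcases h with h | h
    · have hne : c i ≠ c k := by rwa [hk]
      rw [mem_Gc_iff.1 γ.2.1 i k (Or.inl hne), if_neg fun e => hne (by rw [e]), zero_mul]
    · rw [hf k j (Or.inr h), mul_zero]
  · rw [hf k j (Or.inl hk), mul_zero]

lemma stab_BS5 {i₀ : ι} {g : GG ι} (hg : g ∈ Kc c) {f : Mt ι} (hf : f ∈ ray_BS5 i₀)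
    (hf' : g • f ∈ ray_BS5 i₀) : g ∈ Kc (Function.update c i₀ none) := by
  obtain ⟨r, hr, e⟩ := hf
  obtain ⟨r', hr', e'⟩ := hf'
  rw [Mt.smul_m, e] at e'
  have hr0 : (r : ℂ) ≠ 0 := by exact_mod_cast hr.ne'
  have h1 : ∀ i, g.1 i i₀ = if i = i₀ then ((r' / r : ℝ) : ℂ) else 0 := by
    intro i
    have := congrFun (congrFun e' i) 0
    rw [mul_BS5, if_pos rfl, Matrix.single_apply] at this
    by_cases h : i = i₀
    · subst h
      simp only [and_self, if_true] at this ⊢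
      rw [Complex.ofReal_div, eq_div_iff hr0, this]
    · rw [if_neg fun e => h e.1.symm] at this
      rw [if_neg h]
      exact (mul_eq_zero.1 this).resolve_right hr0
  have h2 : ∀ k, star (g.1 i₀ k) * ((r' / r : ℝ) : ℂ) = if k = i₀ then 1 else 0 := by
    intro k
    have := congrFun (congrFun (mem_Un.1 hg.2) k) i₀
    rw [Matrix.mul_apply, Matrix.one_apply, Finset.sum_eq_single i₀] at this
    · rwa [h1, if_pos rfl, Matrix.star_apply] at this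
    · intro b _ hb
      rw [h1, if_neg hb, mul_zero]
    · simp
  have h3 : r' / r = 1 := by
    have := h2 i₀
    rw [h1, if_pos rfl, if_pos rfl, Complex.star_def, Complex.conj_ofReal,
      ← Complex.ofReal_mul] at this
    have h4 : r' / r * (r' / r) = 1 := by exact_mod_cast this
    have h5 : 0 < r' / r := div_pos hr' hr
    nlinarith
  rw [h3] at h1 h2
  refine ⟨mem_Gc_iff.2 fun i j h => ?_, hg.2⟩
  by_cases hi : i = i₀
  · subst hi
    have := congrArg star (h2 j)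
    simp only [Complex.ofReal_one, mul_one, star_star] at this
    rw [this]
    simp only [@eq_comm _ i j]
    by_cases hj : j = i <;> simp [hj]
  by_cases hj : j = i₀
  · subst hj
    simpa using h1 i
  · rw [Function.update_of_ne hi, Function.update_of_ne hj] at h
    exact mem_Gc_iff.1 hg.1 i j h

lemma prin_BS5 (c : ι → Option κ) (i₀ : ι) : Prin (Kc (Function.update c i₀ none)) (Ec c) := by
  refine (prin_Kc (Function.update c i₀ none)).pull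
    ((ivt_Ec c).mono ((le_BS5 c i₀).trans (Kc_le c)))
    (r := fun f => (dp (fun i => i ≠ i₀) * f.m : Matrix ι ℕ ℂ)) ?_ ?_ ?_
  · exact (Continuous.matrix_mul continuous_const (continuous_id (X := Matrix ι ℕ ℂ))).continuousOn
  · rintro f ⟨h1, h2⟩
    refine ⟨?_, fun v a ha h => ?_⟩
    · show dg _ none * (dp (fun i => i ≠ i₀) * f.m) = 0
      ext i j
      have := congrFun (congrFun h1 i) j
      rw [dg, dp_mul_apply] at this
      rw [dg, dp_mul_apply, dp_mul_apply]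
      by_cases hi : i = i₀
      · simp [hi]
      · simpa [hi] using this
    · have ha0 : a i₀ = 0 := ha i₀ (by simp)
      refine h2 v a (fun i hi => ?_) ?_
      · by_cases h' : i = i₀
        · rw [h', ha0]
        · exact ha i (by rwa [Function.update_of_ne h'])
      · have e : a ᵥ* dp (fun i => i ≠ i₀) = a := by
          ext i
          rw [dp, Matrix.vecMul_diagonal]
          by_cases h' : i = i₀ <;> simp [h', ha0]
        have h' : a ᵥ* (dp (fun i => i ≠ i₀) * f.m) = 0 := h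
        rwa [← Matrix.vecMul_vecMul, e] at h'
  · intro γ f _
    show dp (fun i => i ≠ i₀) * (γ.1.1 * f.m) = γ.1.1 * (dp (fun i => i ≠ i₀) * f.m)
    rw [← Matrix.mul_assoc, ← Matrix.mul_assoc]
    congr 1
    refine (dp_comm_iff _ _).2 fun i j h => ?_
    by_cases hi : i = i₀
    · subst hi
      rw [row_BS5 γ.2.1, if_neg]
      rintro rfl
      exact h Iff.rfl
    · have hj : j = i₀ := by
        by_contra hj
        exact h (iff_of_true hi hj)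
      rw [hj, col_BS5 γ.2.1, if_neg hi]

omit [Fintype ι] in
lemma closed_BS5 (i₀ : ι) : IsClosed {f : Mt ι |
    f.m = Matrix.single i₀ 0 (((f.m i₀ 0).re : ℝ) : ℂ) ∧ 0 ≤ (f.m i₀ 0).re} := by
  have h : Continuous fun f : Matrix ι ℕ ℂ => (f i₀ 0).re :=
    Complex.continuous_re.comp (continuous_apply_apply i₀ 0)
  refine IsClosed.inter (isClosed_eq (continuous_id (X := Matrix ι ℕ ℂ)) ?_)
    (isClosed_le continuous_const h)
  refine continuous_pi fun i => continuous_pi fun j => ?_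
  simp only [Matrix.single_apply]
  split_ifs
  · exact Complex.continuous_ofReal.comp h
  · exact continuous_const

theorem eqv_punct {v : κ} {i₀ : ι} (hi : c i₀ = some v) :
    Eqv (qs (Kc c) ((({0} : Set (Cj Ar ι)) ×ˢ Ec c) ×ˢ ((F0 c v : Set (Mt ι)) \ {0}))) ∅
      (Bo (Kc (Function.update c i₀ none)) ({0} : Set (Cj Ar ι))
        (Ec (Function.update c i₀ none))) ∅ := by
  have := compactSpace_Kc c
  have := contractible_Ec c
  have := contractible_Ec (Function.update c i₀ none)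
  have := contr_ray_BS5 i₀
  have z0 : ∀ Γ : Subgroup (GG ι), Ivt Γ ({0} : Set (Cj Ar ι)) := by
    rintro Γ γ _ rfl
    exact smul_zero γ.1
  have z1 : Ivt (Kc c) ({0} : Set (Mt ι)) := by
    rintro γ _ rfl
    exact smul_zero γ.1
  have hE : Ivt (Kc c) (Ec c) := (ivt_Ec c).mono (Kc_le c)
  have hE' := hE.mono (le_BS5 c i₀)
  have hsub : ray_BS5 i₀ ⊆ (F0 c v : Set (Mt ι)) \ {0} := by
    rintro f ⟨r, hr, e⟩
    refine ⟨fun i j h => ?_, fun h0 => ?_⟩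
    · rw [e, Matrix.single_apply, if_neg]
      rintro ⟨rfl, rfl⟩
      simp [hi] at h
    · have h1 : f.m i₀ 0 = 0 := by rw [mem_singleton_iff.1 h0]; rfl
      rw [e, Matrix.single_apply_same] at h1
      exact hr.ne' (by exact_mod_cast h1)
  have s1 := q_ind (le_BS5 c i₀)
    (S := (({0} : Set (Cj Ar ι)) ×ˢ Ec c) ×ˢ ((F0 c v : Set (Mt ι)) \ {0}))
    (S₀ := (({0} : Set (Cj Ar ι)) ×ˢ Ec c) ×ˢ ray_BS5 i₀) (T := ∅)
    (((z0 _).prod hE).prod ((ivt_F0_BS5 v).diff z1)) (((z0 _).prod hE').prod (ivt_ray_BS5 i₀))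
    (fun _ _ h => h.elim) (prod_mono subset_rfl hsub) (empty_subset _) ?_ ?_ ?_
  · rw [inter_empty, qs_empty, qs_empty] at s1
    have s2 := q_fib ((z0 _).prod hE') (Prin.prod_right (S := ({0} : Set (Cj Ar ι)))
      (prin_BS5 c i₀)) (ivt_ray_BS5 (c := c) i₀)
    exact (s1.symm.trans s2.eqv_empty).trans (q_chg (z0 _) hE' ((ivt_Ec _).mono (Kc_le _))
      (prin_BS5 c i₀).prod_right (prin_Kc _).prod_right)
  · refine ⟨_, ((closed_BS5 i₀).preimage continuous_snd).isOpen_compl, ?_⟩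
    ext x
    refine and_congr_right fun hx => not_congr ⟨?_, ?_⟩
    · rintro ⟨-, r, hr, e⟩
      have h1 : (x.2.m i₀ 0).re = r := by rw [e, Matrix.single_apply_same, Complex.ofReal_re]
      show _ ∧ _
      rw [h1]
      exact ⟨e, hr.le⟩
    · rintro ⟨h1, h2⟩
      refine ⟨hx.1, _, h2.lt_of_ne fun h0 => hx.2.2 ?_, h1⟩
      rw [← h0] at h1
      show x.2.m = 0
      rw [h1]
      simp
  · intro x hx
    obtain ⟨k, hk, h⟩ := exists_ray hi hx.2.1 hx.2.2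
    exact ⟨⟨k, hk⟩, ((z0 _).prod hE) ⟨k, hk⟩ _ hx.1, h⟩
  · intro γ x hx hx'
    exact ⟨⟨γ.1, stab_BS5 γ.2 hx.2 hx'.2⟩, rfl⟩

end Pool.Agent.Bet
end

-- part Pool.Agent.P.MP_d34769_ag.BS6
section

/-! TASK BS6: the classifying space of the block group. -/

open Set Matrix

namespace Pool.Agent.Bet

variable {ι : Type} [Fintype ι] [DecidableEq ι] {κ : Type} {Ar : Type} [Fintype κ]

omit [Fintype κ] in
theorem ivt0_BS6 (c : ι → Option κ) : Ivt (Kc c) ({0} : Set (Cj Ar ι)) := by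
  rintro γ _ rfl
  exact smul_zero γ

theorem base_BS6 {c : ι → Option κ} (h : ∀ i, c i = none) :
    SD (Bo (Kc c) ({0} : Set (Cj Ar ι)) (Ec c)) ∅ (Ad (dv c)) := by
  have e1 : dg c none = 1 := by
    ext i j
    simp [dg, dp_apply, h, Matrix.one_apply]
  have e2 : Ec c = {0} := by
    refine eq_singleton_iff_unique_mem.2 ⟨⟨Matrix.mul_zero _, fun v a ha _ => funext fun i =>
      ha i (by simp [h])⟩, fun f hf => ?_⟩
    have := hf.1
    rwa [e1, Matrix.one_mul] at this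
  rw [dv_eq_zero.2 h, Bo, e2, singleton_prod_singleton, qs, image_singleton,
    show Ad (0 : κ → ℕ) = 1 by simp [Ad]]
  exact SD.ctr _

theorem Ad_BS6 {c : ι → Option κ} {v : κ} {i₀ : ι} (hi : c i₀ = some v) : 0 < dv c v ∧
    Ad (dv c) = Ad (dv (Function.update c i₀ none)) * (1 - PowerSeries.X ^ (2 * dv c v))⁻¹ := by
  classical
  have e1 : dv c v = dv (Function.update c i₀ none) v + 1 := by
    simp only [dv]
    rw [← Finset.card_insert_of_notMem (a := i₀) (by simp)]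
    congr 1
    ext i
    by_cases h : i = i₀
    · simp [h, hi]
    · simp [h]
  have e2 : ∀ u, u ≠ v → dv c u = dv (Function.update c i₀ none) u := fun u hu => by
    simp only [dv]
    congr 1
    ext i
    by_cases h : i = i₀
    · simp [h, hi, hu.symm]
    · simp [h]
  refine ⟨by omega, ?_⟩
  simp only [Ad]
  rw [← Finset.mul_prod_erase _ _ (Finset.mem_univ v),
    ← Finset.mul_prod_erase _ _ (Finset.mem_univ v), e1, Finset.prod_range_succ, mul_right_comm]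
  congr 2
  exact Finset.prod_congr rfl fun u hu => by rw [e2 u (Finset.ne_of_mem_erase hu)]

omit [Fintype κ] in
theorem wt_BS6 (c : ι → Option κ) (v : κ) : ∃ (J : Cj Ar ι × Mt ι → Mt ι →ₗ[ℂ] (ℕ → ℂ))
    (N : Mt ι → ℝ) (α : Mt ι × Mt ι → Mt ι),
    Emb (Kc c) (({0} : Set (Cj Ar ι)) ×ˢ Ec c) (F0 c v) J ∧
      Wt (Kc c) ({0} : Set (Cj Ar ι)) (Ec c) (F0 c v) N α := by
  obtain ⟨J, J1, J2, J3⟩ := exists_J' (ι := ι)
  obtain ⟨N, N1, N2, N3, N4⟩ := exists_N' (ι := ι)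
  obtain ⟨β, b1, b2, b3, b4⟩ := exists_abs (fun i => c i = some v)
  refine ⟨fun x => J x.2, N, fun x => β (x.1, J x.1 x.2),
    ⟨Ivt.mono (Kc_le c) (ivt_F0 c v),
      (J1.comp (continuous_fst.snd.prodMk continuous_snd)).continuousOn,
      fun γ x _ u _ => J2 γ.1 γ.2.2 x.2 u, fun x hx u hu => J3 κ c v x.2 hx.2 u hu⟩,
    N1.continuousOn, fun u hu h0 => N2 u ?_, fun a u _ => N3 a u, fun γ u _ => N4 γ.1 γ.2.2 u,
    (b1.comp (continuous_fst.prodMk J1)).continuousOn,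
    fun x hx => b2 κ c _ hx.1 _ fun e => hx.2.2 (J3 κ c v _ hx.1 _ hx.2.1 e), fun γ x _ => ?_,
    fun a ha => ?_⟩
  · by_contra hn
    refine h0 (funext fun i => funext fun j => ?_)
    by_cases hj : j = 0
    · subst hj
      exact by_contra fun e => hn ⟨i, e⟩
    · exact hu i j (Or.inr hj)
  · show β (γ.1 • x.1, J (γ.1 • x.1) (γ.1 • x.2)) = γ.1 • β (x.1, J x.1 x.2)
    rw [J2 γ.1 γ.2.2]
    exact b3 γ.1 (γ.2.1.1 (some v)) _ _
  · obtain ⟨g, hg, e, -⟩ := exists_circ c (fun i => c i = some v) (fun i h => by simp [h]) ha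
    refine ⟨⟨g, hg⟩, ?_, fun u hu => ?_, fun y _ u _ _ => ?_⟩
    · rintro _ rfl
      exact smul_zero _
    · show g.1 * u.m = a • u.m
      rw [e, Matrix.add_mul, Matrix.smul_mul]
      ext i j
      rw [Matrix.add_apply, Matrix.smul_apply, Matrix.smul_apply, dp_mul_apply, dp_mul_apply]
      by_cases h : c i = some v
      · simp [h]
      · simp [h, hu i j (Or.inl h)]
    · show (β (y, J y (a • u))).m = g.1 * (β (y, J y u)).m
      rw [map_smul, b4, e]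

theorem step_BS6 {c : ι → Option κ} {v : κ} {i₀ : ι} (hi : c i₀ = some v)
    (ih : SD (Bo (Kc (Function.update c i₀ none)) ({0} : Set (Cj Ar ι))
      (Ec (Function.update c i₀ none))) ∅ (Ad (dv (Function.update c i₀ none)))) :
    SD (Bo (Kc c) ({0} : Set (Cj Ar ι)) (Ec c)) ∅ (Ad (dv c)) := by
  obtain ⟨J, N, α, hJ, hW⟩ := wt_BS6 (Ar := Ar) c v
  have := finite_F0 c v
  have := contractible_Ec c
  have : ContractibleSpace (F0 c v : Set (Mt ι)) :=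
    contractible_of_htp (C := (F0 c v : Set (Mt ι))) (F0 c v).zero_mem
      (H := fun t x => ((1 - t : ℝ) : ℂ) • x) (H' := fun _ _ => 0)
      ⟨(by fun_prop : Continuous fun p : ℝ × Mt ι => ((1 - p.1 : ℝ) : ℂ) • p.2).continuousOn,
        fun _ _ _ hx => (F0 c v).smul_mem _ hx⟩
      ⟨continuousOn_const, fun _ _ _ _ => (F0 c v).zero_mem⟩ (fun x _ => by simp)
      (fun x _ => by simp) fun _ _ => rfl
  have hE : Ivt (Kc c) (Ec c) := Ivt.mono (Kc_le c) (ivt_Ec c)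
  have hS := (ivt0_BS6 (Ar := Ar) c).prod hE
  have hP : Prin (Kc c) (({0} : Set (Cj Ar ι)) ×ˢ Ec c) := (prin_Kc c).prod_right
  have h1 := q_thom hS hP hJ (T := ∅) (fun _ _ h => h) ⟨∅, isOpen_empty, (inter_empty _).symm⟩
  rw [finrank_F0, qs_empty, show {x | x ∈ (({0} : Set (Cj Ar ι)) ×ˢ Ec c) ×ˢ (F0 c v : Set (Mt ι)) ∧
      (x.1 ∈ (∅ : Set (Cj Ar ι × Mt ι)) ∨ x.2 ≠ 0)} =
      (({0} : Set (Cj Ar ι)) ×ˢ Ec c) ×ˢ ((F0 c v : Set (Mt ι)) \ {0}) from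
    Set.ext fun x => ⟨fun h => ⟨h.1.1, h.1.2, h.2.resolve_left id⟩,
      fun h => ⟨⟨h.1, h.2.1⟩, Or.inr h.2.2⟩⟩] at h1
  rw [(Ad_BS6 hi).2]
  exact SD.recur (by have := (Ad_BS6 hi).1; omega) (qs_mono (prod_mono_right sdiff_subset))
    (hW.so (ivt0_BS6 c) hE (prin_Kc c) hJ) h1 (q_fib hS hP hJ.ivt).eqv_empty.symm
    (SD.of_eqv (eqv_punct hi).symm ih)

theorem sd_pt (c : ι → Option κ) :
    SD (Bo (Kc c) ({0} : Set (Cj Ar ι)) (Ec c)) ∅ (Ad (dv c)) := by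
  classical
  induction h : (Finset.univ.filter fun i => c i ≠ none).card using Nat.strong_induction_on
    generalizing c with
  | _ n ih =>
    by_cases h0 : ∀ i, c i = none
    · exact base_BS6 h0
    · obtain ⟨i₀, h1⟩ := not_forall.1 h0
      obtain ⟨v, hv⟩ := Option.ne_none_iff_exists'.1 h1
      refine step_BS6 hv (ih _ ?_ _ rfl)
      rw [← h]
      refine Finset.card_lt_card (Finset.ssubset_iff_of_subset (fun i hi => ?_) |>.2
        ⟨i₀, by simpa using h1, by simp⟩)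
      by_cases e : i = i₀
      · simp [e] at hi
      · simpa [e] using hi

theorem sd_Rc (s t : Ar → κ) (c : ι → Option κ) :
    SD (Bo (Kc c) (Rc s t c : Set (Cj Ar ι)) (Ec c)) ∅ (Ad (dv c)) := by
  have hE : Ivt (Kc c) (Ec c) := Ivt.mono (Kc_le c) (ivt_Ec c)
  have hS := (Ivt.mono (Kc_le c) (ivt_Rc s t c)).prod hE
  have h := q_def (S₀ := ({0} : Set (Cj Ar ι)) ×ˢ Ec c) (T := ∅) (T₀ := ∅) hS
    (prod_mono_left (singleton_subset_iff.2 (Rc s t c).zero_mem)) Subset.rfl (empty_subset _)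
    (empty_subset _) (H := fun r x => (((1 - r : ℝ) : ℂ) • x.1, x.2))
    ⟨(by fun_prop : Continuous fun p : ℝ × Cj Ar ι × Mt ι =>
      (((1 - p.1 : ℝ) : ℂ) • p.2.1, p.2.2)).continuousOn,
      fun _ _ _ hx => ⟨(Rc s t c).smul_mem _ hx.1, hx.2⟩⟩
    (fun r _ γ x _ => Prod.ext (smul_comm γ.1 ((1 - r : ℝ) : ℂ) x.1).symm rfl)
    (fun _ _ => mapsTo_empty _ _)
    (fun r _ x hx => ⟨(congrArg _ (mem_singleton_iff.1 hx.1)).trans (smul_zero _), hx.2⟩)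
    (fun _ _ => mapsTo_empty _ _) (fun x _ => by simp) (fun x hx => ⟨by simp, hx.2⟩)
    (mapsTo_empty _ _)
  rw [qs_empty] at h
  exact SD.of_eqv h.eqv_empty (sd_pt c)

end Pool.Agent.Bet
end

-- part Pool.Agent.P.MP_d34769_ag.BS7
section

/-! TASK BS7: removing the strata one at a time. -/

open PowerSeries Classical

open Set Matrix

namespace Pool.Agent.Bet

variable {ι : Type} [Fintype ι] [DecidableEq ι] {κ : Type} {Ar : Type} [Fintype κ] [Fintype Ar]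
  {s t : Ar → κ} {w : κ → ℝ} {c : ι → Option κ} {p : ι → Bool}

theorem step (hp : Adm c p) {U : Set (Cj Ar ι)} (hU : Ivt (Kc c) U) (h0 : RO U (Rc s t c))
    (h1 : St s t w c (dv (c1 c p)) ⊆ U) (h2 : RO (U \ St s t w c (dv (c1 c p))) U)
    {p₁ p₂ q : PowerSeries ℚ}
    (k1 : SD (Bo (Kc (c1 c p)) (Ge s t w (c1 c p)) (Ec (c1 c p))) ∅ p₁)
    (k2 : SD (Bo (Kc (c2 c p)) (Lt s t w (c2 c p)) (Ec (c2 c p))) ∅ p₂)
    (k3 : SD (Bo (Kc c) U (Ec c)) ∅ q) :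
    ∃ r, X ^ (2 * bb id id (dv (c1 c p)) (dv (c2 c p))) * r =
        X ^ (2 * bb s t (dv (c1 c p)) (dv (c2 c p))) * (p₁ * p₂) ∧
      SD (Bo (Kc c) (U \ St s t w c (dv (c1 c p))) (Ec c)) ∅ (q - r) := by
  obtain ⟨O, o1, o2, o3, shA⟩ := step_A hp hU h0 h1 h2
  obtain ⟨shB, soB⟩ := step_B hp o1 o2 o3
  obtain ⟨r, er, hr⟩ := SD.of_sh' shA (SD.of_sh shB (sd_Z0 hp k1 k2))
  exact ⟨r, er.symm,
    SD.triple (qs_mono (prod_mono diff_subset Subset.rfl)) (shA.so soB) k3 hr⟩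

omit [Fintype ι] [DecidableEq ι] [Fintype Ar] in
theorem exists_low_BS7 {T : Finset (κ → ℕ)} (hT : T.Nonempty) :
    ∃ g ∈ T, ∀ h ∈ T, ¬ Hi w g h := by
  obtain ⟨g, hg, hm⟩ := T.exists_min_image (fun g => toLex (th w g, sZ g)) hT
  refine ⟨g, hg, fun h hh hi => (hm h hh).not_gt ?_⟩
  rw [Prod.Lex.toLex_lt_toLex]
  exact hi

omit [Fintype κ] [Fintype Ar] in
theorem ro_BS7 [Fintype κ] (T : Finset (κ → ℕ)) :
    RO {φ | φ ∈ Rc s t c ∧ ∀ g ∈ T, φ ∉ Cl s t c g} (Rc s t c : Set (Cj Ar ι)) := by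
  have e : {φ | φ ∈ Rc s t c ∧ ∀ g ∈ T, φ ∉ Cl s t c g} =
      (Rc s t c : Set (Cj Ar ι)) \ ⋃ g ∈ T, Cl s t c g := by
    ext φ; simp
  rw [e]
  exact RO.of_isClosed (isClosed_biUnion_finset fun g _ => isClosed_Cl g) _

omit [Fintype κ] [Fintype Ar] in
theorem ivt_BS7 [Fintype κ] (T : Finset (κ → ℕ)) :
    Ivt (Kc c) {φ : Cj Ar ι | φ ∈ Rc s t c ∧ ∀ g ∈ T, φ ∉ Cl s t c g} := by
  refine Ivt.mono (Kc_le c) fun γ φ hφ => ⟨ivt_Rc s t c γ φ hφ.1, fun g hg h => hφ.2 g hg ?_⟩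
  simpa using ivt_Cl g γ⁻¹ _ h

/-- removing an upper set `T` of strata -/
theorem remove {G L : (κ → ℕ) → PowerSeries ℚ} (T : Finset (κ → ℕ)) (hT : ∀ g ∈ T, g ≤ dv c)
    (hup : ∀ g ∈ T, ∀ h ≤ dv c, Hi w h g → h ∈ T)
    (ih : ∀ p, Adm c p → dv (c1 c p) ∈ T →
      SD (Bo (Kc (c1 c p)) (Ge s t w (c1 c p)) (Ec (c1 c p))) ∅ (G (dv (c1 c p))) ∧
      SD (Bo (Kc (c2 c p)) (Lt s t w (c2 c p)) (Ec (c2 c p))) ∅ (L (dv (c2 c p)))) :
    ∃ r : (κ → ℕ) → PowerSeries ℚ,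
      (∀ g ∈ T, X ^ (2 * bb id id g (dv c - g)) * r g =
        X ^ (2 * bb s t g (dv c - g)) * (G g * L (dv c - g))) ∧
      SD (Bo (Kc c) {φ | φ ∈ Rc s t c ∧ ∀ g ∈ T, φ ∉ Cl s t c g} (Ec c)) ∅
        (Ad (dv c) - ∑ g ∈ T, r g) := by
  induction hn : T.card generalizing T with
  | zero =>
    obtain rfl := Finset.card_eq_zero.1 hn
    refine ⟨fun _ => 0, by simp, ?_⟩
    have e : {φ : Cj Ar ι | φ ∈ Rc s t c ∧ ∀ g ∈ (∅ : Finset (κ → ℕ)), φ ∉ Cl s t c g} =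
        (Rc s t c : Set (Cj Ar ι)) := by
      ext φ; simp
    rw [e, Finset.sum_empty, sub_zero]
    exact sd_Rc s t c
  | succ n IH =>
    obtain ⟨g, hg, hm⟩ := exists_low_BS7 (w := w) (Finset.card_pos.1 (by omega : 0 < T.card))
    obtain ⟨r, hr, hs⟩ := IH (T.erase g) (fun h hh => hT h (Finset.mem_of_mem_erase hh))
      (fun g' hg' h hh hi => Finset.mem_erase.2
        ⟨fun e => hm g' (Finset.mem_of_mem_erase hg') (e ▸ hi),
          hup g' (Finset.mem_of_mem_erase hg') h hh hi⟩)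
      (fun p hp hp' => ih p hp (Finset.mem_of_mem_erase hp'))
      (by rw [Finset.card_erase_of_mem hg]; omega)
    obtain ⟨p, hp, rfl⟩ := exists_part (hT g hg)
    have e2 : dv (c2 c p) = dv c - dv (c1 c p) := by
      rw [← dv_add c p]; exact (add_tsub_cancel_left _ _).symm
    have hirr : ∀ f : κ → ℕ, ¬ Hi w f f := fun f h => by
      rcases h with h | h
      · exact lt_irrefl _ h
      · exact lt_irrefl _ h.2
    have h1 : St s t w c (dv (c1 c p)) ⊆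
        {φ | φ ∈ Rc s t c ∧ ∀ g ∈ T.erase (dv (c1 c p)), φ ∉ Cl s t c g} := by
      intro φ hφ
      refine ⟨hφ.1.1, fun h hh hc => ?_⟩
      obtain ⟨hne, hh⟩ := Finset.mem_erase.1 hh
      have n1 : ¬ Hi w h (dv (c1 c p)) := fun hi => hφ.2 h hi hc
      have n2 := hm h hh
      unfold Hi at n1 n2
      push Not at n1 n2
      have t1 : th w h = th w (dv (c1 c p)) := le_antisymm n1.1 n2.1
      have t2 : sZ h = sZ (dv (c1 c p)) := le_antisymm (n1.2 t1.symm) (n2.2 t1)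
      obtain ⟨U, hU, eU⟩ := hφ.1.2
      obtain ⟨U', hU', eU'⟩ := hc.2
      have := St.uniq hφ hU hU' eU (by rw [eU', t1]) (by rw [eU', t2])
      exact hne (by rw [← eU', this, eU])
    have e3 : {φ : Cj Ar ι | φ ∈ Rc s t c ∧ ∀ g ∈ T.erase (dv (c1 c p)), φ ∉ Cl s t c g} \
        St s t w c (dv (c1 c p)) = {φ | φ ∈ Rc s t c ∧ ∀ g ∈ T, φ ∉ Cl s t c g} := by
      ext φ
      constructor
      · rintro ⟨⟨a1, a2⟩, a3⟩
        refine ⟨a1, fun h hh hc => ?_⟩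
        by_cases e : h = dv (c1 c p)
        · subst e
          refine a3 ⟨hc, fun h' hi hc' => a2 h' (Finset.mem_erase.2 ⟨?_, ?_⟩) hc'⟩
          · rintro rfl; exact hirr _ hi
          · exact hup _ hg h' (Cl_le hc') hi
        · exact a2 h (Finset.mem_erase.2 ⟨e, hh⟩) hc
      · rintro ⟨a1, a2⟩
        exact ⟨⟨a1, fun h hh => a2 h (Finset.mem_of_mem_erase hh)⟩, fun h => a2 _ hg h.1⟩
    obtain ⟨k1, k2⟩ := ih p hp hg
    obtain ⟨r₀, er, hr₀⟩ := step hp (ivt_BS7 _) (ro_BS7 _) h1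
      (by
        rw [e3]
        exact (ro_BS7 T).of_subset
          (fun φ hφ => ⟨hφ.1, fun h hh => hφ.2 h (Finset.mem_of_mem_erase hh)⟩)
          fun φ hφ => hφ.1) k1 k2 hs
    rw [e3] at hr₀
    rw [e2] at er
    refine ⟨Function.update r (dv (c1 c p)) r₀, fun h hh => ?_, ?_⟩
    · by_cases e : h = dv (c1 c p)
      · subst e
        rw [Function.update_self]; exact er
      · rw [Function.update_of_ne e]
        exact hr h (Finset.mem_erase.2 ⟨e, hh⟩)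
    · rw [Finset.sum_update_of_mem hg, Finset.sdiff_singleton_eq_erase, add_comm, ← sub_sub]
      exact hr₀

end Pool.Agent.Bet
end

-- part Pool.Agent.P.MP_d34769_ag.BS8
section

/-! TASK BS8: the recursion. -/

open Set Matrix

namespace Pool.Agent.Bet

variable {ι : Type} [Fintype ι] [DecidableEq ι] {κ : Type} {Ar : Type} [Fintype κ] [Fintype Ar]
  {s t : Ar → κ} {w : κ → ℝ} {c : ι → Option κ} {p : ι → Bool}

section aux

open Classical PowerSeries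

lemma exists_fix_BS8 {α β : Type} (b₀ : β) (m : α → ℕ) (Φ : (α → β) → α → β)
    (h : ∀ f f' a, (∀ b, m b < m a → f b = f' b) → Φ f a = Φ f' a) : ∃ F, ∀ a, F a = Φ F a := by
  let F : α → β := (measure m).wf.fix
    fun a ih => Φ (fun b => if hb : m b < m a then ih b hb else b₀) a
  refine ⟨F, fun a => ?_⟩
  have e : F a = Φ (fun b => if _hb : m b < m a then F b else b₀) a := WellFounded.fix_eq _ _ a
  rw [e]
  exact h _ _ a fun b hb => dif_pos hb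

/-- division by a power of the variable -/
noncomputable def qq_BS8 (a : ℕ) (Y : PowerSeries ℚ) : PowerSeries ℚ :=
  PowerSeries.mk fun n => PowerSeries.coeff (n + a) Y

lemma qq_eq_BS8 {a : ℕ} {Y r : PowerSeries ℚ} (h : X ^ a * r = Y) : qq_BS8 a Y = r := by
  ext n
  rw [qq_BS8, coeff_mk, ← h, coeff_X_pow_mul]

/-- the list of strata to be removed -/
noncomputable def ls_BS8 (w : κ → ℝ) (d : κ → ℕ) : Finset (κ → ℕ) :=
  (Finset.Iic d).filter fun g => g ≠ 0 ∧ 0 ≤ th w g ∧ th w (d - g) < 0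

lemma mem_ls_BS8 {d g : κ → ℕ} :
    g ∈ ls_BS8 w d ↔ g ≤ d ∧ g ≠ 0 ∧ 0 ≤ th w g ∧ th w (d - g) < 0 := by
  rw [ls_BS8, Finset.mem_filter, Finset.mem_Iic]

lemma th_sub_BS8 {d g : κ → ℕ} (h : g ≤ d) : th w (d - g) = th w d - th w g := by
  have := th_add w g (d - g)
  rw [add_tsub_cancel_of_le h] at this
  linarith

lemma sZ_add_BS8 (f g : κ → ℕ) : sZ (f + g) = sZ f + sZ g := by
  simp [sZ, Finset.sum_add_distrib]

lemma sZ_pos_BS8 {f : κ → ℕ} (h : f ≠ 0) : 0 < sZ f := by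
  by_contra h0
  have h1 : sZ f = 0 := by omega
  rw [sZ, Finset.sum_eq_zero_iff] at h1
  exact h (funext fun v => h1 v (Finset.mem_univ v))

lemma sZ_zero_BS8 : sZ (0 : κ → ℕ) = 0 := by simp [sZ]

lemma sZ_le_BS8 {d g : κ → ℕ} (h : g ≤ d) : sZ g ≤ sZ d := Finset.sum_le_sum fun v _ => h v

lemma ls_lt_BS8 {d g : κ → ℕ} (h : g ∈ ls_BS8 w d) : sZ g < sZ d ∧ sZ (d - g) < sZ d := by
  obtain ⟨h1, h2, -, h4⟩ := mem_ls_BS8.1 h
  have h5 := sZ_add_BS8 g (d - g)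
  rw [add_tsub_cancel_of_le h1] at h5
  have h6 : d - g ≠ 0 := fun e => by
    rw [e, th_zero] at h4
    exact lt_irrefl _ h4
  have := sZ_pos_BS8 h2
  have := sZ_pos_BS8 h6
  omega

lemma exists_F_BS8 (s t : Ar → κ) (w : κ → ℝ) : ∃ F : (κ → ℕ) → PowerSeries ℚ, ∀ d,
    F d = Ad d - ∑ g ∈ ls_BS8 w d,
      qq_BS8 (2 * bb id id g (d - g)) (X ^ (2 * bb s t g (d - g)) * (F g * F (d - g))) := by
  refine exists_fix_BS8 0 sZ (fun F d => Ad d - ∑ g ∈ ls_BS8 w d,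
      qq_BS8 (2 * bb id id g (d - g)) (X ^ (2 * bb s t g (d - g)) * (F g * F (d - g)))) ?_
  intro f f' d h
  congr 1
  refine Finset.sum_congr rfl fun g hg => ?_
  rw [h g (ls_lt_BS8 hg).1, h (d - g) (ls_lt_BS8 hg).2]

/-- the series of the first kind -/
noncomputable def GG_BS8 (w : κ → ℝ) (F : (κ → ℕ) → PowerSeries ℚ) (d : κ → ℕ) : PowerSeries ℚ :=
  if 0 ≤ th w d then F d else 0

/-- the series of the second kind -/
noncomputable def LL_BS8 (w : κ → ℝ) (F : (κ → ℕ) → PowerSeries ℚ) (d : κ → ℕ) : PowerSeries ℚ :=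
  if d = 0 ∨ th w d < 0 then F d else 0

/-- the series of the strata -/
noncomputable def rr_BS8 (s t : Ar → κ) (w : κ → ℝ) (F : (κ → ℕ) → PowerSeries ℚ)
    (g h : κ → ℕ) : PowerSeries ℚ :=
  qq_BS8 (2 * bb id id g h) (X ^ (2 * bb s t g h) * (GG_BS8 w F g * LL_BS8 w F h))

variable {F : (κ → ℕ) → PowerSeries ℚ}

lemma GG_pos_BS8 {d : κ → ℕ} (h : 0 ≤ th w d) : GG_BS8 w F d = F d := if_pos h

lemma GG_neg_BS8 {d : κ → ℕ} (h : th w d < 0) : GG_BS8 w F d = 0 := if_neg (not_le.2 h)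

lemma LL_neg_BS8 {d : κ → ℕ} (h : th w d < 0) : LL_BS8 w F d = F d := if_pos (Or.inr h)

lemma LL_zero_BS8 : LL_BS8 w F 0 = F 0 := if_pos (Or.inl rfl)

lemma LL_pos_BS8 {d : κ → ℕ} (h0 : d ≠ 0) (h : 0 ≤ th w d) : LL_BS8 w F d = 0 :=
  if_neg fun hh => hh.elim h0 (not_lt.2 h)

omit [Fintype κ] in
lemma bb_left_BS8 {A : Type} [Fintype A] (s t : A → κ) (h : κ → ℕ) : bb s t 0 h = 0 := by
  simp [bb]

omit [Fintype κ] in
lemma bb_right_BS8 {A : Type} [Fintype A] (s t : A → κ) (g : κ → ℕ) : bb s t g 0 = 0 := by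
  simp [bb]

lemma rr_left_BS8 (h : κ → ℕ) : rr_BS8 s t w F 0 h = GG_BS8 w F 0 * LL_BS8 w F h :=
  qq_eq_BS8 (by rw [bb_left_BS8, bb_left_BS8])

lemma rr_right_BS8 (g : κ → ℕ) : rr_BS8 s t w F g 0 = GG_BS8 w F g * LL_BS8 w F 0 :=
  qq_eq_BS8 (by rw [bb_right_BS8, bb_right_BS8])

lemma rr_zero_BS8 {g h : κ → ℕ} (h0 : GG_BS8 w F g * LL_BS8 w F h = 0) :
    rr_BS8 s t w F g h = 0 :=
  qq_eq_BS8 (by rw [h0, mul_zero, mul_zero])

lemma fix_rr_BS8 (hF : ∀ d, F d = Ad d - ∑ g ∈ ls_BS8 w d,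
      qq_BS8 (2 * bb id id g (d - g)) (X ^ (2 * bb s t g (d - g)) * (F g * F (d - g))))
    (d : κ → ℕ) : F d = Ad d - ∑ g ∈ ls_BS8 w d, rr_BS8 s t w F g (d - g) := by
  rw [hF d]
  congr 1
  refine Finset.sum_congr rfl fun g hg => ?_
  obtain ⟨-, -, h3, h4⟩ := mem_ls_BS8.1 hg
  rw [rr_BS8, GG_pos_BS8 h3, LL_neg_BS8 h4]

lemma F_zero_BS8 (hF : ∀ d, F d = Ad d - ∑ g ∈ ls_BS8 w d, rr_BS8 s t w F g (d - g)) :
    F 0 = 1 := by
  have h : ls_BS8 w 0 = ∅ := Finset.eq_empty_of_forall_notMem fun g hg => by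
    have := (ls_lt_BS8 hg).1
    rw [sZ_zero_BS8] at this
    omega
  rw [hF 0, h]
  simp [Ad]

lemma sum_BS8 (hF : ∀ d, F d = Ad d - ∑ g ∈ ls_BS8 w d, rr_BS8 s t w F g (d - g)) (d : κ → ℕ) :
    ∑ g ∈ Finset.Iic d, rr_BS8 s t w F g (d - g) = Ad d := by
  have h0 := F_zero_BS8 hF
  rw [← Finset.sum_filter_add_sum_filter_not (Finset.Iic d)
    (fun g => g ≠ 0 ∧ 0 ≤ th w g ∧ th w (d - g) < 0)]
  change ∑ g ∈ ls_BS8 w d, rr_BS8 s t w F g (d - g) + _ = _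
  rw [add_comm, ← eq_sub_iff_add_eq, ← hF d]
  by_cases hd : 0 ≤ th w d
  · rw [Finset.sum_eq_single_of_mem d]
    · rw [tsub_self, rr_right_BS8, GG_pos_BS8 hd, LL_zero_BS8, h0, mul_one]
    · rw [Finset.mem_filter, Finset.mem_Iic, tsub_self, th_zero]
      exact ⟨le_rfl, fun h => lt_irrefl _ h.2.2⟩
    · intro g hg hne
      rw [Finset.mem_filter, Finset.mem_Iic] at hg
      have hdg : d - g ≠ 0 := fun e => hne (le_antisymm hg.1 (tsub_eq_zero_iff_le.1 e))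
      refine rr_zero_BS8 ?_
      by_cases h1 : 0 ≤ th w g
      · by_cases h2 : th w (d - g) < 0
        · have h3 : g = 0 := by
            by_contra h3
            exact hg.2 ⟨h3, h1, h2⟩
          rw [h3, tsub_zero] at h2
          exact absurd h2 (not_lt.2 hd)
        · rw [LL_pos_BS8 hdg (not_lt.1 h2), mul_zero]
      · rw [GG_neg_BS8 (not_le.1 h1), zero_mul]
  · have hd' := not_le.1 hd
    rw [Finset.sum_eq_single_of_mem 0]
    · rw [tsub_zero, rr_left_BS8, GG_pos_BS8 (th_zero w).ge, LL_neg_BS8 hd', h0, one_mul]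
    · rw [Finset.mem_filter, Finset.mem_Iic]
      exact ⟨bot_le, fun h => h.1 rfl⟩
    · intro g hg hne
      rw [Finset.mem_filter, Finset.mem_Iic] at hg
      refine rr_zero_BS8 ?_
      by_cases h1 : 0 ≤ th w g
      · have h2 := th_sub_BS8 (w := w) hg.1
        exact absurd ⟨hne, h1, by linarith⟩ hg.2
      · rw [GG_neg_BS8 (not_le.1 h1), zero_mul]

omit [Fintype κ] [Fintype Ar] in
lemma sd_empty_BS8 (c : ι → Option κ) : SD (Bo (Kc c) (∅ : Set (Cj Ar ι)) (Ec c)) ∅ 0 := by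
  rw [Bo, empty_prod, qs_empty]
  exact SD.empty

omit [Fintype Ar] in
lemma Ge_eq_BS8 (h : 0 ≤ th w (dv c)) :
    Ge s t w c = {φ | φ ∈ Rc s t c ∧ ∀ g ∈ ls_BS8 w (dv c), φ ∉ Cl s t c g} := by
  ext φ
  rw [mem_Ge, mem_ofPred_eq]
  refine and_congr_right fun _ => ⟨fun h1 g hg => h1 g ?_, fun h1 g hg hφ => h1 g ?_ hφ⟩
  · obtain ⟨k1, -, -, k4⟩ := mem_ls_BS8.1 hg
    rw [th_sub_BS8 k1] at k4
    exact Or.inl (by linarith)
  · have k1 := Cl_le hφ
    have k2 : th w (dv c) < th w g :=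
      hg.resolve_right fun k => absurd k.2 (not_lt.2 (sZ_le_BS8 k1))
    refine mem_ls_BS8.2 ⟨k1, fun e => ?_, by linarith, by rw [th_sub_BS8 k1]; linarith⟩
    rw [e, th_zero] at k2
    linarith

omit [Fintype Ar] in
lemma Lt_eq_BS8 (h : th w (dv c) < 0) :
    Lt s t w c = {φ | φ ∈ Rc s t c ∧ ∀ g ∈ ls_BS8 w (dv c), φ ∉ Cl s t c g} := by
  ext φ
  rw [mem_Lt, mem_ofPred_eq]
  refine and_congr_right fun _ => ⟨fun h1 g hg => h1 g ?_, fun h1 g hg hφ => h1 g ?_ hφ⟩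
  · obtain ⟨-, k2, k3, -⟩ := mem_ls_BS8.1 hg
    rw [Hi, th_zero, sZ_zero_BS8]
    rcases k3.lt_or_eq with k | k
    · exact Or.inl k
    · exact Or.inr ⟨k, sZ_pos_BS8 k2⟩
  · have k1 := Cl_le hφ
    rw [Hi, th_zero, sZ_zero_BS8] at hg
    have k3 : 0 ≤ th w g := hg.elim le_of_lt fun k => k.1.le
    refine mem_ls_BS8.2 ⟨k1, fun e => ?_, k3, by rw [th_sub_BS8 k1]; linarith⟩
    rw [e, th_zero, sZ_zero_BS8] at hg
    exact hg.elim (lt_irrefl _) fun k => lt_irrefl _ k.2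

lemma main_BS8 (hF : ∀ d, F d = Ad d - ∑ g ∈ ls_BS8 w d, rr_BS8 s t w F g (d - g)) (n : ℕ) :
    ∀ c : ι → Option κ, sZ (dv c) < n →
      SD (Bo (Kc c) (Ge s t w c) (Ec c)) ∅ (GG_BS8 w F (dv c)) ∧
      SD (Bo (Kc c) (Lt s t w c) (Ec c)) ∅ (LL_BS8 w F (dv c)) ∧
      ∀ g ∈ ls_BS8 w (dv c), X ^ (2 * bb id id g (dv c - g)) * rr_BS8 s t w F g (dv c - g) =
        X ^ (2 * bb s t g (dv c - g)) * (GG_BS8 w F g * LL_BS8 w F (dv c - g)) := by
  induction n with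
  | zero => intro c h; omega
  | succ n ih =>
    intro c hc
    obtain ⟨r, h1, h2⟩ := remove (s := s) (t := t) (w := w) (c := c) (G := GG_BS8 w F)
      (L := LL_BS8 w F) (ls_BS8 w (dv c)) (fun g hg => (mem_ls_BS8.1 hg).1)
      (by
        intro g hg h hh hi
        obtain ⟨k1, -, k3, k4⟩ := mem_ls_BS8.1 hg
        rw [th_sub_BS8 k1] at k4
        have k5 : th w g ≤ th w h := hi.elim le_of_lt fun k => k.1.le
        refine mem_ls_BS8.2 ⟨hh, fun e => ?_, by linarith, by rw [th_sub_BS8 hh]; linarith⟩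
        rw [e, Hi, th_zero, sZ_zero_BS8] at hi
        exact hi.elim (not_lt.2 k3) fun k => Nat.not_lt_zero _ k.2)
      (by
        intro p _ hp
        have k1 := ls_lt_BS8 hp
        have k2 : dv c - dv (c1 c p) = dv (c2 c p) := by
          rw [← dv_add c p, add_tsub_cancel_left]
        rw [k2] at k1
        exact ⟨(ih _ (by omega)).1, (ih _ (by omega)).2.1⟩)
    have h3 : ∀ g ∈ ls_BS8 w (dv c), rr_BS8 s t w F g (dv c - g) = r g :=
      fun g hg => qq_eq_BS8 (h1 g hg)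
    rw [← Finset.sum_congr rfl h3, ← hF] at h2
    refine ⟨?_, ?_, fun g hg => by rw [h3 g hg, h1 g hg]⟩
    · by_cases hd : 0 ≤ th w (dv c)
      · rw [Ge_eq_BS8 hd, GG_pos_BS8 hd]
        exact h2
      · rw [Ge_empty (not_le.1 hd), GG_neg_BS8 (not_le.1 hd)]
        exact sd_empty_BS8 c
    · by_cases hd : 0 ≤ th w (dv c)
      · by_cases h0 : dv c = 0
        · rw [(Ge_Lt_zero h0).2, ← (Ge_Lt_zero (w := w) h0).1, Ge_eq_BS8 hd, LL_BS8,
            if_pos (Or.inl h0)]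
          exact h2
        · rw [Lt_empty hd h0, LL_pos_BS8 h0 hd]
          exact sd_empty_BS8 c
      · rw [Lt_eq_BS8 (not_le.1 hd), LL_neg_BS8 (not_le.1 hd)]
        exact h2

lemma div_BS8 (hF : ∀ d, F d = Ad d - ∑ g ∈ ls_BS8 w d, rr_BS8 s t w F g (d - g))
    (c : ι → Option κ) (g h : κ → ℕ) (hle : g + h ≤ dv c) :
    X ^ (2 * bb id id g h) * rr_BS8 s t w F g h =
      X ^ (2 * bb s t g h) * (GG_BS8 w F g * LL_BS8 w F h) := by
  by_cases hg : g = 0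
  · rw [hg, rr_left_BS8, bb_left_BS8, bb_left_BS8]
  by_cases hh : h = 0
  · rw [hh, rr_right_BS8, bb_right_BS8, bb_right_BS8]
  by_cases h1 : 0 ≤ th w g
  · by_cases h2 : th w h < 0
    · obtain ⟨p, -, hp⟩ := exists_part hle
      have h3 := (main_BS8 hF _ (c1 c p) (Nat.lt_succ_self _)).2.2 g
      rw [hp, add_tsub_cancel_left] at h3
      exact h3 (mem_ls_BS8.2 ⟨le_self_add, hg, h1, by rwa [add_tsub_cancel_left]⟩)
    · have h3 : GG_BS8 w F g * LL_BS8 w F h = 0 := by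
        rw [LL_pos_BS8 hh (not_lt.1 h2), mul_zero]
      rw [rr_zero_BS8 h3, h3, mul_zero, mul_zero]
  · have h3 : GG_BS8 w F g * LL_BS8 w F h = 0 := by
      rw [GG_neg_BS8 (not_le.1 h1), zero_mul]
    rw [rr_zero_BS8 h3, h3, mul_zero, mul_zero]

end aux

theorem recursion (s t : Ar → κ) (w : κ → ℝ) (c : ι → Option κ) :
    ∃ G L r, Rec s t w (dv c) G L r ∧ SD (Bo (Kc c) (Ge s t w c) (Ec c)) ∅ (G (dv c)) := by
  obtain ⟨F, hF'⟩ := exists_F_BS8 s t w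
  have hF := fix_rr_BS8 hF'
  have h0 := F_zero_BS8 hF
  refine ⟨GG_BS8 w F, LL_BS8 w F, rr_BS8 s t w F, ⟨?_, ?_, fun d hd => GG_neg_BS8 hd,
    fun d hd hd' => LL_pos_BS8 hd hd', div_BS8 hF c, fun d _ => sum_BS8 hF d⟩,
    (main_BS8 hF _ c (Nat.lt_succ_self _)).1⟩
  · rw [GG_pos_BS8 (th_zero w).ge, h0]
  · rw [LL_zero_BS8, h0]

end Pool.Agent.Bet
end

-- part Pool.Agent.P.MP_d34769_ag.BS9
section

/-! TASK BS9: from the unitary group to the general linear group. -/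

open Set Matrix
open scoped ComplexOrder

namespace Pool.Agent.Bet

variable {ι : Type} [Fintype ι] [DecidableEq ι] {κ : Type} {Ar : Type}
  {c : ι → Option κ}

/-- The identity matrix. -/
def oneBS9 (ι : Type) [DecidableEq ι] : Hm ι := (1 : Matrix ι ι ℂ)

lemma one_mem_BS9 : oneBS9 ι ∈ Ps c :=
  ⟨Matrix.PosDef.one, fun _ => (mul_one _).trans (one_mul _).symm, mul_one _⟩

lemma ctr_BS9 : ContractibleSpace (Ps c) := by
  have h : Convex ℝ {h : Matrix ι ι ℂ | h.PosDef ∧ (∀ o, dg c o * h = h * dg c o) ∧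
      dg c none * h = dg c none} := by
    refine convex_iff_forall_pos.2 fun x hx y hy a b ha hb hab => ⟨?_, fun o => ?_, ?_⟩
    · exact (hx.1.smul ha).add (hy.1.smul hb)
    · simp only [mul_add, add_mul, Matrix.mul_smul, Matrix.smul_mul, hx.2.1 o, hy.2.1 o]
    · simp only [mul_add, Matrix.mul_smul, hx.2.2, hy.2.2]
      rw [← add_smul, hab, one_smul]
  exact h.contractibleSpace ⟨1, one_mem_BS9⟩

lemma ivt_BS9 : Ivt (Gc c) (Ps c) := by
  rintro ⟨g, g1, g2⟩ h ⟨h1, h2, h3⟩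
  have e : ((⟨g, g1, g2⟩ : Gc c) • h).m = g.1 * h.m * star g.1 := rfl
  have s1 : ∀ o, dg c o * star g.1 = star g.1 * dg c o := fun o => by
    have := congrArg star (g1 o)
    simp only [star_mul, dg, star_dp] at this
    exact this.symm
  have s2 : dg c none * star g.1 = dg c none := by
    have := congrArg star g2
    simp only [star_mul, dg, star_dp] at this
    exact (s1 none).trans this
  refine ⟨?_, fun o => ?_, ?_⟩
  · rw [e]
    exact h1.mul_mul_conjTranspose_same (Matrix.vecMul_injective_of_isUnit g.isUnit)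
  · rw [e, ← mul_assoc, ← mul_assoc, g1, mul_assoc g.1, h2, mul_assoc, mul_assoc, s1]
    simp only [mul_assoc]
  · rw [e, ← mul_assoc, ← mul_assoc, g2, h3, s2]

lemma un_BS9 {g : GG ι} : g ∈ Un ι ↔ g • oneBS9 ι = oneBS9 ι := by
  rw [mem_Un, mul_eq_one_comm]
  change _ ↔ g.1 * 1 * star g.1 = 1
  rw [mul_one]

lemma sq_BS9 {sq : Matrix ι ι ℂ → GG ι} (hq : IsSq sq) {h : Hm ι} (hh : h ∈ Ps c) :
    sq h.m ∈ Gc c ∧ sq h.m • oneBS9 ι = h := by
  refine ⟨⟨fun o => hq.comm _ hh.1 _ (hh.2.1 o),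
    hq.fix _ hh.1 _ (star_dp _) (dp_idem _) hh.2.2⟩, ?_⟩
  change (sq h.m).1 * 1 * star (sq h.m).1 = h.m
  rw [mul_one, star_eq_conjTranspose, (hq.pos _ hh.1).isHermitian.eq, hq.mul _ hh.1]

theorem eqv_KG {S : Set (Cj Ar ι)} (hS : Ivt (Gc c) S) :
    Eqv (Bo (Kc c) S (Ec c)) ∅ (Bo (Gc c) S (Ec c)) ∅ := by
  obtain ⟨sq, hq⟩ := exists_sq (ι := ι)
  have hW : Ivt (Gc c) (S ×ˢ Ec c) := hS.prod (ivt_Ec c)
  have := ctr_BS9 (c := c)
  have h2 := (q_fib hW (prin_Gc c).prod_right (ivt_BS9 (c := c))).eqv_empty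
  have h1 := q_eqv (Γ := Kc c) (Λ := Gc c) (S := S ×ˢ Ec c) (T := ∅)
    (S' := (S ×ˢ Ec c) ×ˢ Ps c) (T' := ∅) (hW.mono (Kc_le c)) (hW.prod ivt_BS9)
    (empty_subset _) (empty_subset _) (j := fun x => (x, oneBS9 ι))
    (i := fun y => (sq y.2.m)⁻¹ • y.1) (continuous_id.prodMk continuous_const).continuousOn
    ((hq.cont.comp (f := fun y : (Cj Ar ι × Mt ι) × Hm ι => y.2.m) continuous_snd.continuousOn
      fun y hy => hy.2.1).inv.smul continuous_fst.continuousOn)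
    (fun x hx => ⟨hx, one_mem_BS9⟩) (mapsTo_empty _ _)
    (fun y hy => hW ⟨_, (Gc c).inv_mem (sq_BS9 hq hy.2).1⟩ _ hy.1) (mapsTo_empty _ _)
    (fun γ x _ => ⟨⟨γ.1, γ.2.1⟩, Prod.ext rfl (un_BS9.1 γ.2.2)⟩)
    (fun l y hy => by
      have a1 := sq_BS9 hq hy.2
      have a2 := sq_BS9 hq (ivt_BS9 l _ hy.2)
      refine ⟨⟨(sq (l • y.2).m)⁻¹ * l.1 * sq y.2.m, (Gc c).mul_mem
        ((Gc c).mul_mem ((Gc c).inv_mem a2.1) l.2) a1.1, un_BS9.2 ?_⟩, ?_⟩
      · rw [mul_smul, mul_smul, a1.2, inv_smul_eq_iff, a2.2]; rfl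
      · change ((sq (l • y.2).m)⁻¹ * l.1 * sq y.2.m) • (sq y.2.m)⁻¹ • y.1 =
          (sq (l • y.2).m)⁻¹ • l.1 • y.1
        rw [mul_smul, mul_smul, smul_inv_smul])
    (fun x _ => by
      have a1 := sq_BS9 hq (one_mem_BS9 (c := c))
      exact ⟨⟨_, (Kc c).inv_mem ⟨a1.1, un_BS9.2 a1.2⟩⟩, rfl⟩)
    (fun y hy => by
      have a1 := sq_BS9 hq hy.2
      exact ⟨⟨_, (Gc c).inv_mem a1.1⟩, Prod.ext rfl (inv_smul_eq_iff.2 a1.2.symm)⟩)
  exact h1.2.1.eqv_empty.trans h2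

end Pool.Agent.Bet
end

-- part Pool.Agent.P.MP_d34769_ag.BS10
section

/-! TASK BS10: local slices for the action on Schur representations. -/

open Set Matrix

namespace Pool.Agent.Bet

variable {ι : Type} [Fintype ι] [DecidableEq ι] {κ : Type} {Ar : Type} [Fintype Ar]
  {s t : Ar → κ} {c : ι → Option κ}

theorem small_BS10 {A : Type} [NormedRing A] [NormedAlgebra ℂ A] (W : Submodule ℂ A)
    (φ₀ : Ar → A) (π : (Ar → A) →L[ℂ] W)
    (hπ : ∀ y : W, π (fun a => y.1 * φ₀ a - φ₀ a * y.1) = y) {σ σ' : Ar → A}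
    (h1 : ‖σ - φ₀‖ < (2 * (‖π‖ + 1))⁻¹) (h2 : ‖σ' - φ₀‖ < (2 * (‖π‖ + 1))⁻¹) (y : W)
    (h : π (fun a => y.1 * σ a - σ' a * y.1) = 0) : y = 0 := by
  have e : y = π (fun a => (σ' - φ₀) a * y.1 - y.1 * (σ - φ₀) a) := by
    have : (fun a => (σ' - φ₀) a * y.1 - y.1 * (σ - φ₀) a) =
        (fun a => y.1 * φ₀ a - φ₀ a * y.1) - fun a => y.1 * σ a - σ' a * y.1 := by
      funext a
      simp only [Pi.sub_apply]
      noncomm_ring
    rw [this, map_sub, hπ, h, sub_zero]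
  have hp : 0 < 2 * (‖π‖ + 1) := by positivity
  have hb : ‖fun a => (σ' - φ₀) a * y.1 - y.1 * (σ - φ₀) a‖ ≤ 2 * (2 * (‖π‖ + 1))⁻¹ * ‖y‖ := by
    refine (pi_norm_le_iff_of_nonneg (by positivity)).2 fun a => ?_
    have k1 := (norm_le_pi_norm (σ - φ₀) a).trans h1.le
    have k2 := (norm_le_pi_norm (σ' - φ₀) a).trans h2.le
    have k3 := norm_mul_le ((σ' - φ₀) a) y.1
    have k4 := norm_mul_le y.1 ((σ - φ₀) a)
    have k5 := norm_sub_le ((σ' - φ₀) a * y.1) (y.1 * (σ - φ₀) a)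
    have k6 : ‖y‖ = ‖y.1‖ := rfl
    rw [k6]
    nlinarith [norm_nonneg y.1]
  have hc := (π.le_opNorm _).trans (mul_le_mul_of_nonneg_left hb (norm_nonneg π))
  rw [← e] at hc
  have hlt : ‖π‖ * (2 * (2 * (‖π‖ + 1))⁻¹) < 1 := by
    rw [← div_eq_mul_inv, ← mul_div_assoc, div_lt_one hp]
    linarith
  by_contra hy
  have := norm_pos_iff.2 hy
  nlinarith

theorem abs_BS10 {A : Type} [NormedRing A] [NormedAlgebra ℂ A] [FiniteDimensional ℂ A]
    (W : Submodule ℂ A) (φ₀ : Ar → A) (hinj : ∀ y ∈ W, (∀ a, y * φ₀ a = φ₀ a * y) → y = 0) :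
    ∃ N : Set (Ar → A), IsOpen N ∧ φ₀ ∈ N ∧ ∃ (y : (Ar → A) → W) (σ : (Ar → A) → Ar → A),
      ContinuousOn y N ∧ (∀ x ∈ N, IsUnit (1 + (y x).1)) ∧
      (∀ x ∈ N, ∀ a, (1 + (y x).1) * σ x a = x a * (1 + (y x).1)) ∧
      ∀ x ∈ N, ∀ x' ∈ N, ∀ (z : ℂ) (u : W),
        (∀ a, (z • 1 + u.1) * σ x a = σ x' a * (z • 1 + u.1)) → u = 0 := by
  have : CompleteSpace A := FiniteDimensional.complete ℂ A
  have : CompleteSpace W := FiniteDimensional.complete ℂ W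
  let d : W →ₗ[ℂ] (Ar → A) := LinearMap.pi fun a =>
    (LinearMap.mulRight ℂ (φ₀ a) - LinearMap.mulLeft ℂ (φ₀ a)) ∘ₗ W.subtype
  have hd : ∀ y : W, d y = fun a => y.1 * φ₀ a - φ₀ a * y.1 := fun y => rfl
  have hk : LinearMap.ker d = ⊥ := by
    refine LinearMap.ker_eq_bot'.2 fun y hy => Subtype.ext (hinj y.1 y.2 fun a => ?_)
    exact sub_eq_zero.1 (congrFun ((hd y).symm.trans hy) a)
  obtain ⟨π₀, hπ₀⟩ := d.exists_leftInverse_of_injective hk
  let π : (Ar → A) →L[ℂ] W := LinearMap.toContinuousLinearMap π₀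
  have hπ : ∀ y : W, π (fun a => y.1 * φ₀ a - φ₀ a * y.1) = y := fun y =>
    LinearMap.congr_fun hπ₀ y
  let Θ : W × (Ar → A) × (Ar → A) → W × (Ar → A) × (Ar → A) := fun p =>
    (π p.2.1, fun a => (1 + p.1.1) * p.2.1 a - p.2.2 a * (1 + p.1.1), p.2.2)
  let D₀ : (W × (Ar → A) × (Ar → A)) →ₗ[ℂ] (W × (Ar → A) × (Ar → A)) :=
    (π₀ ∘ₗ LinearMap.fst ℂ _ _ ∘ₗ LinearMap.snd ℂ _ _).prod
      ((d ∘ₗ LinearMap.fst ℂ _ _ + LinearMap.fst ℂ _ _ ∘ₗ LinearMap.snd ℂ _ _ -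
        LinearMap.snd ℂ _ _ ∘ₗ LinearMap.snd ℂ _ _).prod
        (LinearMap.snd ℂ _ _ ∘ₗ LinearMap.snd ℂ _ _))
  have hD₀ : ∀ p, D₀ p = (π p.2.1, d p.1 + p.2.1 - p.2.2, p.2.2) := fun p => rfl
  have hi : Function.Injective D₀ := by
    refine (injective_iff_map_eq_zero D₀).2 fun p hp => ?_
    rw [hD₀] at hp
    have k1 : π p.2.1 = 0 := congrArg (·.1) hp
    have k2 : d p.1 + p.2.1 - p.2.2 = 0 := congrArg (·.2.1) hp
    have k3 : p.2.2 = 0 := congrArg (·.2.2) hp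
    rw [k3, sub_zero] at k2
    have k4 : p.1 = 0 := by
      have := congrArg π k2
      rwa [map_add, k1, add_zero, map_zero, hd, hπ] at this
    rw [k4, map_zero, zero_add] at k2
    exact Prod.ext k4 (Prod.ext k2 k3)
  let D := (LinearEquiv.ofInjectiveEndo D₀ hi).toContinuousLinearEquiv
  have hΘ : HasStrictFDerivAt Θ
      (D : (W × (Ar → A) × (Ar → A)) →L[ℂ] (W × (Ar → A) × (Ar → A))) (0, φ₀, φ₀) := by
    let P := W × (Ar → A) × (Ar → A)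
    let Y : P →L[ℂ] A := W.subtypeL ∘L ContinuousLinearMap.fst ℂ _ _
    let S : P →L[ℂ] (Ar → A) := ContinuousLinearMap.fst ℂ _ _ ∘L ContinuousLinearMap.snd ℂ _ _
    let X : P →L[ℂ] (Ar → A) := ContinuousLinearMap.snd ℂ _ _ ∘L ContinuousLinearMap.snd ℂ _ _
    let p₀ : P := (0, φ₀, φ₀)
    have hY := (Y.hasStrictFDerivAt (x := p₀)).const_add 1
    have h2 := hasStrictFDerivAt_pi.2 fun a : Ar =>
      (hY.mul' ((ContinuousLinearMap.proj a ∘L S).hasStrictFDerivAt (x := p₀))).sub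
        (((ContinuousLinearMap.proj a ∘L X).hasStrictFDerivAt (x := p₀)).mul' hY)
    have h3 := ((π ∘L S).hasStrictFDerivAt (x := p₀)).prodMk
      (h2.prodMk (X.hasStrictFDerivAt (x := p₀)))
    refine h3.congr_fderiv ?_
    refine ContinuousLinearMap.ext fun p => ?_
    show _ = D₀ p
    rw [hD₀, hd]
    refine Prod.ext rfl (Prod.ext (funext fun a => ?_) rfl)
    show ((1 + 0) * p.2.1 a + p.1.1 * φ₀ a) - (φ₀ a * p.1.1 + p.2.2 a * (1 + 0)) =
      p.1.1 * φ₀ a - φ₀ a * p.1.1 + p.2.1 a - p.2.2 a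
    noncomm_ring
  let e := hΘ.toOpenPartialHomeomorph Θ
  have he : ∀ p, e p = Θ p := fun p => rfl
  have hs0 : ((0 : W), φ₀, φ₀) ∈ e.source := hΘ.mem_toOpenPartialHomeomorph_source
  let j : (Ar → A) → W × (Ar → A) × (Ar → A) := fun x => (π φ₀, 0, x)
  have hj : Continuous j := by fun_prop
  have hj0 : e (0, φ₀, φ₀) = j φ₀ := by
    rw [he]
    refine Prod.ext rfl (Prod.ext (funext fun a => ?_) rfl)
    simp [Θ, j]
  have hc : ContinuousOn (fun x => e.symm (j x)) (j ⁻¹' e.target) :=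
    e.continuousOn_symm.comp hj.continuousOn fun x hx => hx
  let U : Set (W × (Ar → A) × (Ar → A)) :=
    {p | IsUnit (1 + p.1.1)} ∩ {p | ‖p.2.1 - φ₀‖ < (2 * (‖π‖ + 1))⁻¹}
  have hU : IsOpen U :=
    (Units.isOpen.preimage (f := fun p : W × (Ar → A) × (Ar → A) => 1 + p.1.1)
      (by fun_prop)).inter (isOpen_lt (by fun_prop) continuous_const)
  have key : ∀ x ∈ j ⁻¹' e.target, π (e.symm (j x)).2.1 = π φ₀ ∧ ∀ a,
      (1 + (e.symm (j x)).1.1) * (e.symm (j x)).2.1 a = x a * (1 + (e.symm (j x)).1.1) := by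
    intro x hx
    have h := (he _).symm.trans (e.right_inv hx)
    have k3 : (e.symm (j x)).2.2 = x := congrArg (·.2.2) h
    refine ⟨congrArg (·.1) h, fun a => ?_⟩
    have k2 : (1 + (e.symm (j x)).1.1) * (e.symm (j x)).2.1 a -
      (e.symm (j x)).2.2 a * (1 + (e.symm (j x)).1.1) = 0 := congrArg (·.2.1 a) h
    rwa [k3, sub_eq_zero] at k2
  refine ⟨j ⁻¹' e.target ∩ (fun x => e.symm (j x)) ⁻¹' U,
    hc.isOpen_inter_preimage (e.open_target.preimage hj) hU, ⟨?_, ?_⟩,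
    fun x => (e.symm (j x)).1, fun x => (e.symm (j x)).2.1,
    (continuous_fst.comp_continuousOn hc).mono inter_subset_left, fun x hx => hx.2.1,
    fun x hx => (key x hx.1).2, fun x hx x' hx' z u hu => ?_⟩
  · show j φ₀ ∈ e.target
    rw [← hj0]
    exact e.map_source hs0
  · show e.symm (j φ₀) ∈ U
    rw [← hj0, e.left_inv hs0]
    refine ⟨by simp, ?_⟩
    show ‖φ₀ - φ₀‖ < _
    rw [sub_self, norm_zero]
    positivity
  · refine small_BS10 W φ₀ π hπ hx.2.2 hx'.2.2 u ?_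
    have : (fun a => u.1 * (e.symm (j x)).2.1 a - (e.symm (j x')).2.1 a * u.1) =
        z • ((e.symm (j x')).2.1 - (e.symm (j x)).2.1) := by
      funext a
      have := hu a
      simp only [add_mul, mul_add, smul_mul_assoc, mul_smul_comm, one_mul, mul_one] at this
      simp only [Pi.smul_apply, Pi.sub_apply, smul_sub]
      rw [sub_eq_sub_iff_add_eq_add, add_comm, this]
    rw [this, map_smul, map_sub, (key x hx.1).1, (key x' hx'.1).1, sub_self, smul_zero]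

theorem exists_slice (hc : ∀ i, c i ≠ none) (i₀ : ι) {φ₀ : Cj Ar ι} (h0 : φ₀ ∈ Rc s t c)
    (hs : ∀ x : Matrix ι ι ℂ, (∀ o, dg c o * x = x * dg c o) → (∀ a, x * φ₀ a = φ₀ a * x) →
      ∃ z : ℂ, x = z • (1 : Matrix ι ι ℂ)) :
    ∃ N : Set (Cj Ar ι), IsOpen N ∧ φ₀ ∈ N ∧ ∃ γ : Cj Ar ι → Gc c,
      ContinuousOn γ (Rc s t c ∩ N) ∧ ∀ x ∈ (Rc s t c : Set (Cj Ar ι)) ∩ N,
        ∀ y ∈ (Rc s t c : Set (Cj Ar ι)) ∩ N, ∀ g : Gc c, g • (γ x)⁻¹ • x = (γ y)⁻¹ • y →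
          ∃ z : ℂ, g.1.1 = z • (1 : Matrix ι ι ℂ) := by
  classical
  let _ : NormedRing (Matrix ι ι ℂ) := Matrix.linftyOpNormedRing
  let _ : NormedAlgebra ℂ (Matrix ι ι ℂ) := Matrix.linftyOpNormedAlgebra
  have : CompleteSpace (Matrix ι ι ℂ) := FiniteDimensional.complete ℂ _
  have hn : dg c none = (0 : Matrix ι ι ℂ) := dp_false hc
  let W : Submodule ℂ (Matrix ι ι ℂ) :=
    { carrier := {y | (∀ o, dg c o * y = y * dg c o) ∧ y i₀ i₀ = 0}
      zero_mem' := ⟨fun o => by simp, rfl⟩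
      add_mem' := fun {x y} hx hy => ⟨fun o => by rw [mul_add, add_mul, hx.1, hy.1],
        by rw [Matrix.add_apply, hx.2, hy.2, add_zero]⟩
      smul_mem' := fun z x hx => ⟨fun o => by rw [Matrix.mul_smul, Matrix.smul_mul, hx.1],
        by rw [Matrix.smul_apply, hx.2, smul_zero]⟩ }
  obtain ⟨N, hN, hN0, y, σ, hy, hu, hσ, huniq⟩ := abs_BS10 (A := Matrix ι ι ℂ) W φ₀ (by
    intro y hy h
    obtain ⟨z, rfl⟩ := hs y hy.1 h
    have := hy.2
    simp only [Matrix.smul_apply, Matrix.one_apply_eq, smul_eq_mul, mul_one] at this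
    rw [this, zero_smul])
  let γ : Cj Ar ι → Gc c := fun x =>
    if h : IsUnit (1 + (y x).1) then ⟨h.unit, fun o => by
      rw [h.unit_spec, mul_add, add_mul, (y x).2.1, mul_one, one_mul], by rw [hn, zero_mul]⟩
    else 1
  have hγ : ∀ x ∈ N, (γ x).1.1 = 1 + (y x).1 := fun x hx => by
    simp only [γ, dif_pos (hu x hx), IsUnit.unit_spec]
  have hγσ : ∀ x ∈ N, (γ x)⁻¹ • (show Cj Ar ι from x) = (show Cj Ar ι from σ x) := by
    intro x hx
    funext a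
    show ((γ x).1⁻¹).1 * x a * ((γ x).1⁻¹⁻¹).1 = σ x a
    rw [inv_inv, mul_assoc, hγ x hx, ← hσ x hx a, ← hγ x hx, Units.inv_mul_cancel_left]
  refine ⟨N, hN, hN0, γ, ?_, fun x hx x' hx' g hg => ⟨g.1.1 i₀ i₀, ?_⟩⟩
  · refine ContinuousOn.mono ?_ inter_subset_right
    have hind : Topology.IsInducing fun g : Gc c => g.1.1 :=
      (Units.isOpenEmbedding_val (R := Matrix ι ι ℂ)).isInducing.comp
        Topology.IsInducing.subtypeVal
    refine hind.continuousOn_iff.2 (ContinuousOn.congr ?_ hγ)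
    exact continuousOn_const.add (continuous_subtype_val.comp_continuousOn hy)
  · rw [hγσ x hx.2, hγσ x' hx'.2] at hg
    have hm : g.1.1 - g.1.1 i₀ i₀ • (1 : Matrix ι ι ℂ) ∈ W :=
      ⟨fun o => by
        rw [mul_sub, sub_mul, g.2.1, Matrix.mul_smul, Matrix.smul_mul, mul_one, one_mul],
        by simp⟩
    have := huniq x hx.2 x' hx'.2 (g.1.1 i₀ i₀) ⟨_, hm⟩ fun a => by
      have h : g.1.1 * σ x a * (g.1⁻¹).1 = σ x' a := congrFun hg a
      simp only [add_sub_cancel]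
      rw [← h, Units.inv_mul_cancel_right]
    exact sub_eq_zero.1 (congrArg Subtype.val this)

end Pool.Agent.Bet
end

-- part Pool.Agent.P.MP_d34769_ag.BS11
section

/-! TASK BS11: a character of weight one, and the principal action. -/

open Set Matrix

namespace Pool.Agent.Bet

variable {ι : Type} [Fintype ι] [DecidableEq ι] {κ : Type} {Ar : Type} [Fintype κ] [Fintype Ar]
  {s t : Ar → κ} {c : ι → Option κ}

theorem bez_BS11 {f : κ → ℕ} (h : Finset.univ.gcd f = 1) : ∃ a : κ → ℤ, ∑ v, f v * a v = 1 := by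
  obtain ⟨a, ha⟩ := Finset.gcd_eq_sum_mul Finset.univ fun v => (f v : ℤ)
  refine ⟨a, ha.symm.trans (Int.eq_one_of_dvd_one Finset.Int.finsetGcd_nonneg ?_)⟩
  rw [← Int.natAbs_dvd, ← Nat.cast_one, Int.natCast_dvd_natCast, ← h]
  refine Finset.dvd_gcd fun v hv => ?_
  rw [← Int.natCast_dvd_natCast, Int.natAbs_dvd]
  exact Finset.gcd_dvd hv

omit [Fintype κ] in
theorem zpow_BS11 {z : ℂ} (hz : z ≠ 0) (F : Finset κ) (e : κ → ℤ) :
    ∏ v ∈ F, z ^ e v = z ^ ∑ v ∈ F, e v := by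
  induction F using Finset.cons_induction with
  | empty => simp
  | cons a F ha ih => rw [Finset.prod_cons, Finset.sum_cons, zpow_add₀ hz, ih]

/-- the block of colour `v`, completed by the identity -/
noncomputable def blk_BS11 (c : ι → Option κ) (v : κ) : Gc c →* Matrix ι ι ℂ where
  toFun g := dg c (some v) * g.1.1 + (1 - dg c (some v))
  map_one' := by simp
  map_mul' g h := by
    have h1 : dg c (some v) * dg c (some v) = dg c (some v) := dp_idem _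
    have h2 : dg c (some v) * g.1.1 * dg c (some v) = dg c (some v) * g.1.1 := by
      rw [mul_assoc, ← g.2.1, ← mul_assoc, h1]
    rw [Subgroup.coe_mul, Units.val_mul]
    simp only [add_mul, mul_add, mul_sub, sub_mul, ← mul_assoc, mul_one, one_mul, h1, h2]
    abel

omit [Fintype κ] in
theorem cont_blk_BS11 (c : ι → Option κ) (v : κ) : Continuous (blk_BS11 c v) :=
  (continuous_const.mul (Units.continuous_val.comp continuous_subtype_val)).add continuous_const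

omit [Fintype κ] in
theorem det_blk_BS11 (v : κ) (g : Gc c) (z : ℂ) (h : g.1.1 = z • (1 : Matrix ι ι ℂ)) :
    (blk_BS11 c v g).det = z ^ dv c v := by
  classical
  have h1 : blk_BS11 c v g = Matrix.diagonal fun i => if c i = some v then z else 1 := by
    ext i j
    change (dg c (some v) * g.1.1 + (1 - dg c (some v))) i j = _
    rw [h, dg, Matrix.add_apply, Matrix.sub_apply, dp_mul_apply, dp_apply, Matrix.smul_apply,
      Matrix.one_apply, Matrix.diagonal_apply]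
    by_cases h3 : c i = some v <;> simp only [h3] <;> by_cases h2 : i = j <;> simp [h2]
  rw [h1, Matrix.det_diagonal, Finset.prod_ite, Finset.prod_const_one, mul_one, Finset.prod_const,
    dv]

theorem exists_chi (hc : ∀ i, c i ≠ none) (hg : Finset.univ.gcd (dv c) = 1) :
    ∃ χ : Gc c →* ℂˣ, Continuous χ ∧
      ∀ (g : Gc c) (z : ℂ), g.1.1 = z • (1 : Matrix ι ι ℂ) → (χ g : ℂ) = z := by
  have _ := hc
  obtain ⟨a, ha⟩ := bez_BS11 hg
  let D : κ → Gc c →* ℂˣ := fun v => (Matrix.detMonoidHom.comp (blk_BS11 c v)).toHomUnits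
  have hD : ∀ v, Continuous (D v) := fun v => Units.continuous_iff.2
    ⟨(cont_blk_BS11 c v).matrix_det, ((cont_blk_BS11 c v).comp continuous_inv).matrix_det⟩
  refine ⟨∏ v, D v ^ a v, ?_, fun g z h => ?_⟩
  · refine (continuous_finsetProd Finset.univ fun v _ => (hD v).zpow (a v)).congr fun g => ?_
    simp only [MonoidHom.finsetProd_apply, MonoidHom.zpow_apply, Pi.pow_apply]
  · have h1 : ∀ v, (D v g : ℂ) = z ^ dv c v := fun v => det_blk_BS11 v g z h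
    have hz : z ≠ 0 := by
      rintro rfl
      rw [Finset.sum_eq_zero] at ha
      · exact zero_ne_one ha
      · intro v _
        have h2 := (D v g).ne_zero
        rw [h1] at h2
        rw [not_not.1 (mt (zero_pow (M₀ := ℂ)) h2), Nat.cast_zero, zero_mul]
    simp only [MonoidHom.finsetProd_apply, MonoidHom.zpow_apply, Units.coe_prod,
      Units.val_zpow_eq_zpow_val, h1, ← zpow_natCast, ← _root_.zpow_mul]
    rw [zpow_BS11 hz, ha, zpow_one]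

/-- the scalar matrices -/
noncomputable def sc_BS11 (hc : ∀ i, c i ≠ none) : ℂˣ →* Gc c :=
  (Units.map (algebraMap ℂ (Matrix ι ι ℂ)).toMonoidHom).codRestrict (Gc c) fun z =>
    ⟨fun o => (Algebra.commutes z.1 (dg c o)).symm, by rw [dg, dp_false hc, zero_mul]⟩

omit [Fintype κ] in
theorem sc_val_BS11 (hc : ∀ i, c i ≠ none) (z : ℂˣ) :
    (sc_BS11 hc z).1.1 = (z : ℂ) • (1 : Matrix ι ι ℂ) := Algebra.algebraMap_eq_smul_one z.1

omit [Fintype κ] in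
theorem cont_sc_BS11 (hc : ∀ i, c i ≠ none) : Continuous (sc_BS11 hc) :=
  (Continuous.units_map _ (continuous_algebraMap ℂ (Matrix ι ι ℂ))).subtype_mk _

theorem prin_schur (hc : ∀ i, c i ≠ none) (i₀ : ι) {χ : Gc c →* ℂˣ} (cχ : Continuous χ)
    (hχ : ∀ (g : Gc c) (z : ℂ), g.1.1 = z • (1 : Matrix ι ι ℂ) → (χ g : ℂ) = z)
    {S : Set (Cj Ar ι)} (hS : Ivt (Gc c) S) (h0 : S ⊆ Rc s t c)
    (hs : ∀ φ ∈ S, ∀ x : Matrix ι ι ℂ, (∀ o, dg c o * x = x * dg c o) →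
      (∀ a, x * φ a = φ a * x) → ∃ z : ℂ, x = z • (1 : Matrix ι ι ℂ)) :
    Prin (Gc c) (S ×ˢ (show Set (Via χ (ℕ → ℂ)) from ({0}ᶜ : Set (ℕ → ℂ)))) := by
  classical
  rintro ⟨x₀, s₀⟩ ⟨hx₀, hs₀⟩
  obtain ⟨n, hn⟩ : ∃ n, (show ℕ → ℂ from s₀) n ≠ 0 := Function.ne_iff.1 hs₀
  obtain ⟨N, hN, hxN, γ, cγ, hγ⟩ := exists_slice hc i₀ (h0 hx₀) (hs x₀ hx₀)
  let ev : Cj Ar ι × Via χ (ℕ → ℂ) → ℂ := fun y => (show ℕ → ℂ from y.2) n
  have cev : Continuous ev := (continuous_apply n).comp continuous_snd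
  have sev : ∀ (h : Gc c) y, ev (h • y) = χ h * ev y := fun h y => rfl
  let u : Cj Ar ι × Via χ (ℕ → ℂ) → ℂˣ := fun y => if h : ev y = 0 then 1 else Units.mk0 _ h
  have hu : ∀ y, ev y ≠ 0 → (u y : ℂ) = ev y := fun y hy => by
    simp only [u, dif_neg hy, Units.val_mk0]
  have cu : ContinuousOn u {y | ev y ≠ 0} :=
    Units.isEmbedding_val₀.isInducing.continuousOn_iff.2 (cev.continuousOn.congr hu)
  let A : Gc c → Cj Ar ι → Gc c := fun g x => g * γ (g⁻¹ • x)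
  let P : Gc c → ℂˣ → Gc c := fun g z => g * sc_BS11 hc (z / χ g)
  have h1 : ∀ z, χ (sc_BS11 hc z) = z := fun z => Units.ext (hχ _ _ (sc_val_BS11 hc z))
  have h2 : ∀ g g' : Gc c, ∀ x ∈ S, g⁻¹ • x ∈ N → g'⁻¹ • x ∈ N → ∀ z,
      P (A g x) z = P (A g' x) z := fun g g' x hx k1 k2 z => by
    obtain ⟨w, hw⟩ := hγ _ ⟨h0 (hS g⁻¹ x hx), k1⟩ _ ⟨h0 (hS g'⁻¹ x hx), k2⟩ ((A g' x)⁻¹ * A g x)
      (by simp only [A, smul_smul, _root_.mul_inv_rev, mul_assoc, mul_inv_cancel_left,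
        mul_inv_cancel, mul_one])
    have k3 : A g x = A g' x * sc_BS11 hc (χ ((A g' x)⁻¹ * A g x)) := by
      rw [← inv_mul_eq_iff_eq_mul]
      exact Subtype.ext (Units.ext (by rw [sc_val_BS11, hχ _ w hw, hw]))
    generalize χ ((A g' x)⁻¹ * A g x) = w' at k3
    simp only [P]
    rw [k3, map_mul, h1, mul_assoc, ← map_mul]
    congr 2
    rw [div_mul_eq_div_div, mul_div_cancel]
  have h3 : ∀ g : Gc c, IsOpen {y : Cj Ar ι × Via χ (ℕ → ℂ) | g⁻¹ • y.1 ∈ N} := fun g =>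
    hN.preimage (continuous_fst.const_smul g⁻¹)
  let G : Cj Ar ι → Gc c := fun x => Classical.epsilon fun g => g⁻¹ • x ∈ N
  have hG : ∀ x (g : Gc c), g⁻¹ • x ∈ N → (G x)⁻¹ • x ∈ N := fun x g hg =>
    Classical.epsilon_spec (p := fun g : Gc c => g⁻¹ • x ∈ N) ⟨g, hg⟩
  refine ⟨(⋃ g : Gc c, {y | g⁻¹ • y.1 ∈ N}) ∩ {y | ev y ≠ 0},
    (isOpen_iUnion h3).inter (isOpen_ne_fun cev continuous_const),
    ⟨mem_iUnion.2 ⟨1, by simpa using hxN⟩, hn⟩, fun y => P (A (G y.1) y.1) (u y), ?_, ?_⟩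
  · refine continuousOn_of_locally_continuousOn fun y hy => ?_
    obtain ⟨g, hg⟩ := mem_iUnion.1 hy.2.1
    have k0 : ContinuousOn (fun y : Cj Ar ι × Via χ (ℕ → ℂ) => γ (g⁻¹ • y.1))
        {y | (y.1 ∈ S ∧ g⁻¹ • y.1 ∈ N) ∧ ev y ≠ 0} :=
      cγ.comp (f := fun y : Cj Ar ι × Via χ (ℕ → ℂ) => g⁻¹ • y.1)
        (continuous_fst.const_smul g⁻¹).continuousOn fun y hy => ⟨h0 (hS _ _ hy.1.1), hy.1.2⟩
    have k1 : ContinuousOn (fun y : Cj Ar ι × Via χ (ℕ → ℂ) => A g y.1)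
        {y | (y.1 ∈ S ∧ g⁻¹ • y.1 ∈ N) ∧ ev y ≠ 0} := continuousOn_const.fun_mul k0
    have k2 : ContinuousOn (fun y : Cj Ar ι × Via χ (ℕ → ℂ) => P (A g y.1) (u y))
        {y | (y.1 ∈ S ∧ g⁻¹ • y.1 ∈ N) ∧ ev y ≠ 0} :=
      k1.fun_mul ((cont_sc_BS11 hc).comp_continuousOn'
        ((cu.mono fun y hy => hy.2).div' (cχ.comp_continuousOn' k1)))
    exact ⟨_, h3 g, hg, (k2.mono fun y hy => ⟨⟨hy.1.1.1, hy.2⟩, hy.1.2.2⟩).congr
      fun y hy => h2 _ _ _ hy.1.1.1 (hG _ g hy.2) hy.2 _⟩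
  · intro h y hy
    obtain ⟨g, hg⟩ := mem_iUnion.1 hy.2.1
    have k0 : (h * g)⁻¹ • (h • y).1 = g⁻¹ • y.1 := by
      rw [Prod.smul_fst, smul_smul, _root_.mul_inv_rev, inv_mul_cancel_right]
    have k1 : (h * g)⁻¹ • (h • y).1 ∈ N := k0 ▸ hg
    have k2 : ev (h • y) ≠ 0 := by
      rw [sev]
      exact mul_ne_zero (χ h).ne_zero hy.2.2
    refine ⟨⟨mem_iUnion.2 ⟨_, k1⟩, k2⟩, ?_⟩
    have k3 : u (h • y) = χ h * u y := Units.ext (by
      rw [hu _ k2, sev, Units.val_mul, hu _ hy.2.2])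
    change P (A (G (h • y).1) (h • y).1) (u (h • y)) = h * P (A (G y.1) y.1) (u y)
    rw [h2 _ _ (h • y).1 (hS h _ hy.1.1) (hG _ _ k1) k1, h2 _ _ _ hy.1.1 (hG _ g hg) hg, k3]
    simp only [P, A]
    rw [k0, mul_assoc h g, map_mul χ h, mul_div_mul_left_eq_div, mul_assoc h]

end Pool.Agent.Bet
end

-- part Pool.Agent.P.MP_d34769_ag.BS12
section

/-! TASK BS12: the Poincare series of the moduli space. -/

open PowerSeries

open Set Matrix

namespace Pool.Agent.Bet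

variable {ι : Type} [Fintype ι] [DecidableEq ι] {κ : Type} {Ar : Type} [Fintype κ] [Fintype Ar]
  {s t : Ar → κ} {w : κ → ℝ} {c : ι → Option κ} {p : ι → Bool}

theorem gcd_of_gen {d : κ → ℕ} (hg : Gen w d) : Finset.univ.gcd d = 1 := by
  obtain ⟨h0, hd, hf⟩ := hg
  by_contra h1
  have hm0 : Finset.univ.gcd d ≠ 0 := fun h =>
    hd (funext fun v => Finset.gcd_eq_zero_iff.1 h v (Finset.mem_univ v))
  have hdv : ∀ v, ∃ k, d v = Finset.univ.gcd d * k := fun v => Finset.gcd_dvd (Finset.mem_univ v)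
  choose f hfd using hdv
  generalize Finset.univ.gcd d = m at h1 hm0 hfd
  have hm : 2 ≤ m := by omega
  refine hf f (fun v => ?_) (fun h => hd (funext fun v => ?_)) (fun h => hd (funext fun v => ?_)) ?_
  · rw [hfd v]
    exact Nat.le_mul_of_pos_left _ (by omega)
  · rw [hfd v, h]
    simp
  · have h2 := hfd v
    rw [h] at h2
    show d v = 0
    nlinarith
  · have h2 : th w d = m * th w f := by
      simp only [th, Finset.mul_sum]
      refine Finset.sum_congr rfl fun v _ => ?_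
      rw [hfd v]
      push_cast
      ring
    rw [h2] at h0
    exact (mul_eq_zero.1 h0).resolve_left (Nat.cast_ne_zero.2 hm0)

omit [Fintype κ] [Fintype Ar] in
theorem scal_BS12 (hc : ∀ i, c i ≠ none) {z : ℂ} (hz : z ≠ 0) :
    ∃ g : Gc c, g.1.1 = z • (1 : Matrix ι ι ℂ) ∧ ∀ φ : Cj Ar ι, g • φ = φ := by
  have e1 : (z • (1 : Matrix ι ι ℂ)) * (z⁻¹ • (1 : Matrix ι ι ℂ)) = 1 := by
    rw [Matrix.smul_mul, Matrix.one_mul, smul_smul, mul_inv_cancel₀ hz, one_smul]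
  have e2 : (z⁻¹ • (1 : Matrix ι ι ℂ)) * (z • (1 : Matrix ι ι ℂ)) = 1 := by
    rw [Matrix.smul_mul, Matrix.one_mul, smul_smul, inv_mul_cancel₀ hz, one_smul]
  refine ⟨⟨⟨_, _, e1, e2⟩, fun o => ?_, ?_⟩, rfl, fun φ => funext fun a => ?_⟩
  · show dg c o * (z • (1 : Matrix ι ι ℂ)) = (z • (1 : Matrix ι ι ℂ)) * dg c o
    rw [Matrix.smul_mul, Matrix.mul_smul, Matrix.one_mul, Matrix.mul_one]
  · have h0 : dg c none = 0 := dp_false hc
    rw [h0, Matrix.zero_mul]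
  · show (z • (1 : Matrix ι ι ℂ)) * φ a * (z⁻¹ • (1 : Matrix ι ι ℂ)) = φ a
    rw [Matrix.smul_mul, Matrix.one_mul, Matrix.mul_smul, Matrix.mul_one, smul_smul,
      inv_mul_cancel₀ hz, one_smul]

omit [Fintype κ] [Fintype Ar] in
theorem eqv_BS12 (hc : ∀ i, c i ≠ none) {χ : Gc c →* ℂˣ}
    [ContinuousSMul (Gc c) (Via χ (ℕ → ℂ))]
    (hχ : ∀ (g : Gc c) (z : ℂ), g.1.1 = z • (1 : Matrix ι ι ℂ) → (χ g : ℂ) = z)
    {S : Set (Cj Ar ι)} (hS : Ivt (Gc c) S) {E : Set (Via χ (ℕ → ℂ))}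
    (hE : ∀ x : ℕ → ℂ, (show Via χ (ℕ → ℂ) from x) ∈ E ↔ x ≠ 0) (hI : Ivt (Gc c) E) :
    Eqv (qs (Gc c) (S ×ˢ E)) ∅ (qs (Gc c) S ×ˢ Pz) ∅ := by
  obtain ⟨f, -, -, hf⟩ := quot_iso (π := (qm (Gc c) : Cj Ar ι × Via χ (ℕ → ℂ) → _))
    (π' := Prod.map (qm (Gc c) : Cj Ar ι → _) pm) isOpenQuotientMap_qm
    (isOpenQuotientMap_qm.prodMap isOpenQuotientMap_pm) (S := S ×ˢ E) (T := ∅)
    (S' := S ×ˢ ({0}ᶜ : Set (ℕ → ℂ))) (T' := ∅)
    (fun x hx y e => (mem_qs (hS.prod hI)).1 ⟨x, hx, e.symm⟩)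
    (fun x hx y e => by
      obtain ⟨e1, e2⟩ := Prod.mk.inj e
      refine ⟨(mem_qs hS).1 ⟨x.1, hx.1, e1.symm⟩, ?_⟩
      obtain ⟨a, ha, e3⟩ := pm_eq.1 e2
      show y.2 ≠ 0
      rw [← e3]
      exact smul_ne_zero ha hx.2)
    (empty_subset _) (empty_subset _) (j := fun x => (x.1, x.2)) (i := fun x => (x.1, x.2))
    continuousOn_id continuousOn_id (fun x hx => ⟨hx.1, (hE x.2).1 hx.2⟩) (fun _ h => h)
    (fun x hx => ⟨hx.1, (hE x.2).2 hx.2⟩) (fun _ h => h)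
    (fun x _ y _ e => by
      obtain ⟨γ, rfl⟩ := qm_eq.1 e
      exact Prod.ext (qm_smul γ y.1) (qm_smul (χ γ) (show ℕ → ℂ from y.2)))
    (fun x _ y _ e => by
      obtain ⟨e1, e2⟩ := Prod.mk.inj e
      obtain ⟨γ, e3⟩ := qm_eq.1 e1
      obtain ⟨a, ha, e4⟩ := pm_eq.1 e2
      obtain ⟨g, g1, g2⟩ := scal_BS12 (Ar := Ar) hc (div_ne_zero ha (χ γ).ne_zero)
      refine qm_eq.2 ⟨γ * g, Prod.ext ?_ ?_⟩
      · show (γ * g) • y.1 = x.1
        rw [mul_smul, g2, e3]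
      · show ((χ (γ * g) : ℂˣ) : ℂ) • y.2 = x.2
        rw [map_mul, Units.val_mul, hχ g _ g1, mul_div_cancel₀ _ (χ γ).ne_zero, e4])
    (fun _ _ => rfl) (fun _ _ => rfl)
  rw [prodMap_image_prod] at hf
  exact hf.eqv_empty

theorem dim_moduli (hc : ∀ i, c i ≠ none) (hg : Gen w (dv c)) {q : PowerSeries ℚ}
    (h : SD (Bo (Kc c) (Ge s t w c) (Ec c)) ∅ q) :
    Dim (qs (Gc c) (Ge s t w c)) ∅ ((1 - X ^ 2) * q) := by
  obtain ⟨i₀, -⟩ : ∃ i, c i ≠ none := by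
    by_contra h0
    exact hg.2.1 (dv_eq_zero.2 fun i => not_not.1 fun hi => h0 ⟨i, hi⟩)
  obtain ⟨χ, cχ, hχ⟩ := exists_chi hc (gcd_of_gen hg)
  have i1 : ContinuousSMul (Gc c) (Via χ (ℕ → ℂ)) :=
    ⟨show Continuous fun x : Gc c × (ℕ → ℂ) => χ x.1 • x.2 from
      (cχ.comp continuous_fst).smul continuous_snd⟩
  have i2 := contractible_Ec c
  have i3 : ContractibleSpace (show Set (Via χ (ℕ → ℂ)) from ({0}ᶜ : Set (ℕ → ℂ))) :=
    contractible_ne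
  have hI : Ivt (Gc c) (show Set (Via χ (ℕ → ℂ)) from ({0}ᶜ : Set (ℕ → ℂ))) := fun γ x hx =>
    smul_ne_zero (χ γ).ne_zero (show (show ℕ → ℂ from x) ≠ 0 from hx)
  have h1 := q_chg (ivt_Ge (s := s) (t := t) (w := w) (c := c)) (ivt_Ec c) hI
    (prin_Gc c).prod_right (prin_schur hc i₀ cχ hχ ivt_Ge (fun _ hφ => hφ.1)
      fun φ hφ x hx e => schur hc hg hφ hx e)
  have h2 := SD.of_eqv (((eqv_KG ivt_Ge).trans h1).trans
    (eqv_BS12 hc hχ ivt_Ge (fun _ => Iff.rfl) hI)) h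
  obtain ⟨r, hr, e⟩ := Dim.of_prod (S' := Pz) ⟨pm 1, 1, one_ne_zero, rfl⟩
    (h2.dim (empty_subset _)) sd_Pz
  rw [e, ← mul_assoc, PowerSeries.mul_inv_cancel _ (by simp), one_mul]
  exact hr

end Pool.Agent.Bet
end

-- part Pool.Agent.P.MP_d34769_ag.BF7
section

/-! The Betti numbers of the moduli space. -/

open Set

namespace Pool.Agent.Bet

open Pool.Agent.P.MP_d34769_ag (GMod modTop pser wgt)

theorem betti (n d k : ℕ) (hn : 0 < n) (hk : 0 < k) (hc : Nat.gcd n (Nat.gcd d k) = 1) (α : ℝ)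
    (h0 : 0 < α) (hα : Irrational α) :
    ∃ P : Polynomial ℚ, (∀ j : ℕ,
      Module.Finite ℚ (((AlgebraicTopology.singularHomologyFunctor (ModuleCat.{0} ℚ) j).obj
        (ModuleCat.of ℚ ℚ)).obj (@TopCat.of (GMod α n d k) (modTop α n d k))) ∧
      (Module.finrank ℚ (((AlgebraicTopology.singularHomologyFunctor (ModuleCat.{0} ℚ) j).obj
        (ModuleCat.of ℚ ℚ)).obj (@TopCat.of (GMod α n d k) (modTop α n d k))) : ℚ) = P.coeff j) ∧
      ∀ t : ℚ, 0 < t → t < 1 → P.eval t = t ^ (2 * ((k : ℤ) * (d + n - k) - n ^ 2 + 1)) *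
        (1 - t⁻¹ ^ 2) * pser (wgt n d k α) (t⁻¹ ^ 2) ![d, n + d, k] := by
  have hg := gen_of_irrational hn hk hc hα
  obtain ⟨G, L, r, h1, h2⟩ := recursion sr3 tg3 (wt3 n d k α) (cl3 n d k)
  have h3 := dim_moduli cl3_ne (by rw [dv_cl3]; exact hg) h2
  rw [dv_cl3] at h1 h3
  obtain ⟨P, hP, hP'⟩ := exists_pol hn hk hc h0 hα (rel_G hg h1)
  refine ⟨P, fun j => ?_, hP'⟩
  letI := modTop α n d k
  obtain ⟨e⟩ := exists_homeo hn hk h0 hg
  obtain ⟨m, hm, hm'⟩ := h3 j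
  have h4 := ((rank_singular (GMod α n d k) j).trans ((SIso.of_homeo e).rk j)).trans hm
  refine ⟨Module.rank_lt_aleph0_iff.1 (h4 ▸ Cardinal.natCast_lt_aleph0), ?_⟩
  rw [Module.finrank_eq_of_rank_eq h4, ← hm', ← hP, Polynomial.coeff_coe]

end Pool.Agent.Bet
end
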