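import Pool.Agent.K.MP_d34769_ag.C18

/-! The flip loci and their point counts. -/

namespace Pool.Agent.P.MP_d34769_ag

open Module Classical QR Matrix Filter Topology

lemma card_quot_split {X : Type} (r : X → X → Prop) (hr : Equivalence r) (P Q R : X → Prop)
    (hQ : ∀ x y, r x y → Q x → Q y) (h : ∀ x, P x ↔ Q x ∨ R x) (hd : ∀ x, ¬ (Q x ∧ R x))
    [Finite (Quot fun x y : {x // P x} => r x.1 y.1)] :
    Finite (Quot fun x y : {x // R x} => r x.1 y.1) ∧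
    Nat.card (Quot fun x y : {x // P x} => r x.1 y.1) =
      Nat.card (Quot fun x y : {x // Q x} => r x.1 y.1) +
        Nat.card (Quot fun x y : {x // R x} => r x.1 y.1) := by
  have hE : Equivalence fun x y : {x // P x} => r x.1 y.1 :=
    ⟨fun x => hr.refl _, hr.symm, hr.trans⟩
  let f : (Quot fun x y : {x // Q x} => r x.1 y.1) ⊕ (Quot fun x y : {x // R x} => r x.1 y.1) →
      (Quot fun x y : {x // P x} => r x.1 y.1) :=
    Sum.elim (Quot.map (fun x => ⟨x.1, (h _).2 (Or.inl x.2)⟩) fun _ _ h => h)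
      (Quot.map (fun x => ⟨x.1, (h _).2 (Or.inr x.2)⟩) fun _ _ h => h)
  have hf : Function.Bijective f := by
    constructor
    · rintro (⟨⟨x⟩⟩ | ⟨⟨x⟩⟩) (⟨⟨y⟩⟩ | ⟨⟨y⟩⟩) hxy
      all_goals have h1 := hE.eqvGen_iff.1 (Quot.eq.1 hxy)
      · exact congrArg _ (Quot.sound h1)
      · exact absurd ⟨hQ _ _ h1 x.2, y.2⟩ (hd _)
      · exact absurd ⟨hQ _ _ (hr.symm h1) y.2, x.2⟩ (hd _)
      · exact congrArg _ (Quot.sound h1)
    · rintro ⟨x, hx⟩
      rcases (h x).1 hx with h1 | h1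
      · exact ⟨Sum.inl (Quot.mk _ ⟨x, h1⟩), rfl⟩
      · exact ⟨Sum.inr (Quot.mk _ ⟨x, h1⟩), rfl⟩
  have h1 : Finite (Quot fun x y : {x // Q x} => r x.1 y.1) :=
    Finite.of_injective _ (hf.1.comp Sum.inl_injective)
  have h2 : Finite (Quot fun x y : {x // R x} => r x.1 y.1) :=
    Finite.of_injective _ (hf.1.comp Sum.inr_injective)
  exact ⟨h2, by rw [← Nat.card_eq_of_bijective f hf, Nat.card_sum]⟩

variable {K : Type} [Field K]

lemma IsMor.comp {n n' n'' k k' k'' : ℕ} {d d' d'' : ℤ} {S : CohSys K n d k}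
    {S' : CohSys K n' d' k'} {S'' : CohSys K n'' d'' k''} {A B} (hA : IsMor S' S A)
    (hB : IsMor S'' S' B) : IsMor S'' S (A * B) := by
  obtain ⟨h1, ⟨A', h2, h3⟩, h4⟩ := hA
  obtain ⟨h5, ⟨B', h6, h7⟩, h8⟩ := hB
  refine ⟨Ge.matmul h1 h5, ⟨A' * B', Le.matmul h2 h6, ?_⟩, fun v hv => ?_⟩
  · rw [Matrix.mul_assoc, h7, ← Matrix.mul_assoc, h3, Matrix.mul_assoc]
  · rw [← Matrix.mulVec_mulVec]
    exact h4 _ (h8 v hv)

lemma iso_equiv {n k : ℕ} {d : ℤ} : Equivalence (Iso : CohSys K n d k → CohSys K n d k → Prop) := by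
  refine ⟨iso_refl, fun ⟨A, B, h1, h2, h3, h4⟩ => ⟨B, A, h2, h1, h4, h3⟩, ?_⟩
  rintro S S' S'' ⟨A, B, h1, h2, h3, h4⟩ ⟨A', B', h5, h6, h7, h8⟩
  refine ⟨A' * A, B * B', h5.comp h1, h2.comp h6, ?_, ?_⟩
  · rw [Matrix.mul_assoc, ← Matrix.mul_assoc A, h3, Matrix.one_mul, h7]
  · rw [Matrix.mul_assoc, ← Matrix.mul_assoc B', h8, Matrix.one_mul, h4]

lemma Stable.of_iso {n k : ℕ} {d : ℤ} {α : ℝ} {S T : CohSys K n d k} (h : Iso S T)
    (hS : Stable α S) : Stable α T := by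
  obtain ⟨A, B, h1, h2, h3, h4⟩ := h
  intro n' d' k' S' C hn hC hi hs
  refine hS n' d' k' S' (B * C) hn (h2.comp hC) (fun u v huv => hi ?_) ?_
  · have := congrArg A.mulVec huv
    simpa only [Matrix.mulVec_mulVec, ← Matrix.mul_assoc, h3, Matrix.one_mul] using this
  · rintro ⟨D, hD, e⟩
    refine hs ⟨D * B, hD.comp h2, ?_⟩
    calc C * (D * B) = A * (B * C * D) * B := by
          simp only [← Matrix.mul_assoc, h3, Matrix.one_mul]
      _ = 1 := by rw [e, Matrix.mul_one, h3]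

lemma Simple.of_iso {n k : ℕ} {d : ℤ} {S T : CohSys K n d k} (h : Iso S T)
    (hS : Simple S) : Simple T := by
  obtain ⟨A, B, h1, h2, h3, h4⟩ := h
  intro C hC
  obtain ⟨c, hc⟩ := hS _ (h2.comp (hC.comp h1))
  refine ⟨c, ?_⟩
  calc C = A * (B * (C * A)) * B := by
        simp only [← Matrix.mul_assoc, h3, Matrix.one_mul]
        rw [Matrix.mul_assoc, h3, Matrix.mul_one]
    _ = _ := by
        rw [hc, ← (Matrix.scalar_commute _ (fun _ => Commute.all _ _) A).eq, Matrix.mul_assoc, h3,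
          Matrix.mul_one]

lemma Stable.between {n k : ℕ} {d : ℤ} {α γ β : ℝ} (h1 : α < γ) (h2 : γ < β) {S : CohSys K n d k}
    (hα : Stable α S) (hβ : Stable β S) : Stable γ S := by
  intro n' d' k' S' C hn hC hi hs
  have h3 := hα n' d' k' S' C hn hC hi hs
  have h4 := hβ n' d' k' S' C hn hC hi hs
  simp only [add_div, mul_div_assoc] at h3 h4 ⊢
  rcases le_total ((k' : ℝ) / n') ((k : ℝ) / n) with h | h <;> nlinarith

lemma exists_eps (n d k : ℕ) (γ : ℝ) : ∃ ε > 0, ∀ α, |α - γ| < ε →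
    ∀ e ≤ ![d, n + d, k], wgt n d k γ e < 0 → wgt n d k α e < 0 := by
  have : ∀ᶠ α in 𝓝 γ, ∀ e ∈ Finset.Iic ![d, n + d, k], wgt n d k γ e < 0 → wgt n d k α e < 0 := by
    rw [eventually_all_finset]
    intro e _
    by_cases h : wgt n d k γ e < 0
    · have hc : Continuous fun α => wgt n d k α e := by
        unfold wgt
        fun_prop
      exact (hc.continuousAt.eventually (gt_mem_nhds h)).mono fun _ h _ => h
    · exact Eventually.of_forall fun _ h' => absurd h' h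
  obtain ⟨ε, h1, h2⟩ := Metric.eventually_nhds_iff.1 this
  exact ⟨ε, h1, fun α hα e he => h2 hα e (Finset.mem_Iic.2 he)⟩

lemma Stable.near {n d k : ℕ} (hn : 0 < n) (hk : 0 < k) {α γ : ℝ} (hα : 0 < α) (hγ : 0 < γ)
    (h : ∀ e ≤ ![d, n + d, k], wgt n d k γ e < 0 → wgt n d k α e < 0) {S : CohSys K n d k}
    (hS : Stable γ S) : Stable α S := by
  obtain ⟨ρ, φ, hρ⟩ := exists_pres S (hS.nn hγ hk)
  rw [hρ.stable_iff hγ hn hk, qstable_iff hn] at hS
  rw [hρ.stable_iff hα hn hk, qstable_iff hn]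
  refine ⟨by rw [dv_toQR, tw_w3, wgt_self], hS.2.1, fun U hU h0 h1 => ?_⟩
  have := hS.2.2 U hU h0 h1
  rw [th, tw_w3] at this ⊢
  exact h _ (dv_toQR ρ ▸ ds_le U) this

lemma flip_count {n d k : ℕ} (hn : 0 < n) (hk : 0 < k) {α β γ : ℝ} (hβ : 0 < β) (hγ : 0 < γ)
    (h : ∀ (K : Type) [Field K] (S : CohSys K n d k), Stable γ S ↔ Stable α S ∧ Stable β S) :
    ∃ P : Polynomial ℚ, (∀ q : ℚ, 1 < q → P.eval q =
        cnt (wgt n d k β) ![d, n + d, k] q - cnt (wgt n d k γ) ![d, n + d, k] q) ∧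
      ∀ (K : Type) [Field K] [Finite K],
        Finite (Quot fun S S' : {S : CohSys K n d k // Stable β S ∧ ¬ Stable α S ∧ Simple S} =>
          Iso S.1 S'.1) ∧
        (Nat.card (Quot fun S S' : {S : CohSys K n d k // Stable β S ∧ ¬ Stable α S ∧ Simple S} =>
          Iso S.1 S'.1) : ℚ) = P.eval (Nat.card K : ℚ) := by
  obtain ⟨P, hP, hP'⟩ := mainB n d k hn hk β hβ
  obtain ⟨Q, hQ, hQ'⟩ := mainB n d k hn hk γ hγ
  refine ⟨P - Q, fun q hq => by rw [Polynomial.eval_sub, hP q hq, hQ q hq], fun K _ _ => ?_⟩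
  have := (hP' K).1
  obtain ⟨h1, h2⟩ := card_quot_split _ iso_equiv
    (fun S : CohSys K n d k => Stable β S ∧ Simple S) (fun S => Stable γ S ∧ Simple S)
    (fun S => Stable β S ∧ ¬ Stable α S ∧ Simple S)
    (fun _ _ hi h => ⟨h.1.of_iso hi, h.2.of_iso hi⟩) (fun S => by rw [h]; tauto)
    (fun S => by rw [h]; tauto)
  refine ⟨h1, ?_⟩
  rw [Polynomial.eval_sub, ← (hP' K).2, ← (hQ' K).2, h2]
  push_cast
  ring

theorem mainC (n d k : ℕ) (hn : 0 < n) (hk : 0 < k) (γ : ℝ) (hγ : 0 < γ) :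
    ∃ ε > 0, ∀ α β : ℝ, 0 < α → 0 < β → |α - γ| < ε → |β - γ| < ε → (α - γ) * (β - γ) < 0 →
      (∀ (K : Type) [Field K] (S : CohSys K n d k), Stable γ S ↔ Stable α S ∧ Stable β S) ∧
      ∃ P : Polynomial ℚ, (∀ q : ℚ, 1 < q → P.eval q =
          cnt (wgt n d k β) ![d, n + d, k] q - cnt (wgt n d k γ) ![d, n + d, k] q) ∧
        ∀ (K : Type) [Field K] [Finite K],
          Finite (Quot fun S S' : {S : CohSys K n d k // Stable β S ∧ ¬ Stable α S ∧ Simple S} =>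
            Iso S.1 S'.1) ∧
          (Nat.card (Quot fun S S' : {S : CohSys K n d k // Stable β S ∧ ¬ Stable α S ∧ Simple S} =>
            Iso S.1 S'.1) : ℚ) = P.eval (Nat.card K : ℚ) := by
  obtain ⟨ε, h1, h2⟩ := exists_eps n d k γ
  refine ⟨ε, h1, fun α β hα hβ h3 h4 h5 => ?_⟩
  have h : ∀ (K : Type) [Field K] (S : CohSys K n d k), Stable γ S ↔ Stable α S ∧ Stable β S := by
    intro K _ S
    refine ⟨fun h => ⟨h.near hn hk hα hγ (h2 α h3), h.near hn hk hβ hγ (h2 β h4)⟩, fun h => ?_⟩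
    rcases mul_neg_iff.1 h5 with h6 | h6
    · exact h.2.between (by linarith [h6.2]) (by linarith [h6.1]) h.1
    · exact h.1.between (by linarith [h6.1]) (by linarith [h6.2]) h.2
  exact ⟨h, flip_count hn hk hβ hγ h⟩

end Pool.Agent.P.MP_d34769_ag
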