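import Pool.Agent.K.MP_d34769_ag.C2

/-! Counting homomorphisms and automorphisms of polystable representations. -/

namespace Pool.Agent.P.MP_d34769_ag

open Module Classical

lemma card_of_fiber {α β : Type} [Finite α] [Finite β] (f : α → β) (c : ℕ)
    (h : ∀ b, Nat.card {a // f a = b} = c) : Nat.card α = Nat.card β * c := by
  have := Fintype.ofFinite β
  rw [← Nat.card_congr (Equiv.sigmaFiberEquiv f), Nat.card_sigma]
  simp [h]

namespace QR

variable {K : Type} [Field K] {ι A : Type} {s t : A → ι}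
variable {X Y Z : QR K s t}

lemma fam_ext {f g : Fam X Y} (h : ∀ i x, f i x = g i x) : f = g :=
  funext fun i => LinearMap.ext (h i)

lemma Iso.ext' {φ ψ : Iso X Y} (h : ∀ i x, φ.fam i x = ψ.fam i x) : φ = ψ :=
  Subtype.ext (funext fun i => LinearEquiv.ext (h i))

@[simp] lemma Iso.symm_apply_apply (φ : Iso X Y) (i x) : φ.symm.fam i (φ.fam i x) = x :=
  (φ.1 i).symm_apply_apply x

@[simp] lemma Iso.apply_symm_apply (φ : Iso X Y) (i x) : φ.fam i (φ.symm.fam i x) = x :=
  (φ.1 i).apply_symm_apply x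

@[simp] lemma Iso.trans_apply (φ : Iso X Y) (ψ : Iso Y Z) (i x) :
    (φ.trans ψ).fam i x = ψ.fam i (φ.fam i x) := rfl

@[simp] lemma comp_apply (g : Fam Y Z) (f : Fam X Y) (i x) : comp g f i x = g i (f i x) := rfl

lemma homN_congr {X' Y' : QR K s t} (h : Isom X X') (h' : Isom Y Y') :
    homN X Y = homN X' Y' := by
  obtain ⟨φ⟩ := h
  obtain ⟨ψ⟩ := h'
  refine Nat.card_congr ⟨fun f => ⟨comp (comp ψ.fam f.1) φ.symm.fam,
    (ψ.isHom.comp f.2).comp φ.symm.isHom⟩, fun f => ⟨comp (comp ψ.symm.fam f.1) φ.fam,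
    (ψ.symm.isHom.comp f.2).comp φ.isHom⟩, fun f => ?_, fun f => ?_⟩
  · exact Subtype.ext (fam_ext fun i x => by simp)
  · exact Subtype.ext (fam_ext fun i x => by simp)

lemma card_iso_congr {X' Y' : QR K s t} (h : Isom X X') (h' : Isom Y Y') :
    Nat.card (Iso X Y) = Nat.card (Iso X' Y') := by
  obtain ⟨φ⟩ := h
  obtain ⟨ψ⟩ := h'
  refine Nat.card_congr ⟨fun f => φ.symm.trans (f.trans ψ), fun f => φ.trans (f.trans ψ.symm),
    fun f => ?_, fun f => ?_⟩
  · exact Iso.ext' fun i x => by simp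
  · exact Iso.ext' fun i x => by simp

lemma Isom.autN_eq (h : Isom X Y) : autN X = autN Y := card_iso_congr h h

lemma homN_prod (S X Y : QR K s t) : homN S (X.prod Y) = homN S X * homN S Y := by
  rw [homN, homN, homN, ← Nat.card_prod]
  exact Nat.card_congr ⟨fun f => (⟨comp (fst X Y) f.1, isHom_fst.comp f.2⟩,
    ⟨comp (snd X Y) f.1, isHom_snd.comp f.2⟩), fun p => ⟨pairF p.1.1 p.2.1, p.1.2.pairF p.2.2⟩,
    fun f => rfl, fun p => rfl⟩

lemma homN_zero (S : QR K s t) : homN S (zero K s t) = 1 := by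
  rw [homN, Nat.card_eq_one_iff_unique]
  exact ⟨⟨fun f g => Subtype.ext (fam_ext fun _ _ => rfl)⟩, ⟨⟨0, IsHom.zero⟩⟩⟩

lemma autN_zero : autN (zero K s t) = 1 := by
  rw [autN, Nat.card_eq_one_iff_unique]
  exact ⟨⟨fun f g => Iso.ext' fun _ _ => rfl⟩, ⟨Iso.refl _⟩⟩

variable [Fintype ι] {w : ι → ℝ}

lemma homN_st_ne (hX : St w X) (hY : St w Y) (h : ¬ Isom X Y) : homN X Y = 1 := by
  rw [homN, Nat.card_eq_one_iff_unique]
  have : ∀ f : {f : Fam X Y // IsHom X Y f}, f.1 = 0 := fun f => by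
    by_contra h0
    exact h (f.2.isom (hX.bij hY f.2 h0))
  exact ⟨⟨fun f g => Subtype.ext ((this f).trans (this g).symm)⟩, ⟨⟨0, IsHom.zero⟩⟩⟩

lemma St.idF_ne (hX : St w X) : idF X ≠ 0 := fun h => by
  refine hX.top_ne_bot (eq_bot_iff.2 fun i x _ => ?_)
  exact LinearMap.congr_fun (congrFun h i) x

/-- Every nonzero map from a stable representation can be detected by a map back. -/
def PS (w : ι → ℝ) (X : QR K s t) : Prop :=
  ∀ S, St w S → ∀ j, IsHom S X j → j ≠ 0 → ∃ π, IsHom X S π ∧ comp π j ≠ 0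

lemma ps_zero : PS w (zero K s t) := fun _ _ _ _ h => absurd (fam_ext fun _ _ => rfl) h

lemma PS.of_isom (h : PS w X) (hi : Isom X Y) : PS w Y := by
  obtain ⟨φ⟩ := hi
  intro S hS j hj h0
  obtain ⟨π, hπ, h1⟩ := h S hS (comp φ.symm.fam j) (φ.symm.isHom.comp hj) fun h => h0 <|
    fam_ext fun i x => φ.symm.inj i ((LinearMap.congr_fun (congrFun h i) x).trans (by simp))
  exact ⟨comp π φ.symm.fam, hπ.comp φ.symm.isHom, h1⟩

lemma PS.prod (hX : St w X) (hY : PS w Y) : PS w (X.prod Y) := by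
  intro S hS j hj h0
  by_cases h1 : comp (fst X Y) j = 0
  · obtain ⟨π, hπ, h2⟩ := hY S hS (comp (snd X Y) j) (isHom_snd.comp hj) fun h => h0 <|
      fam_ext fun i x => Prod.ext (LinearMap.congr_fun (congrFun h1 i) x)
        (LinearMap.congr_fun (congrFun h i) x)
    exact ⟨comp π (snd X Y), hπ.comp isHom_snd, h2⟩
  · let φ := Iso.ofBij (isHom_fst.comp hj) (hS.bij hX (isHom_fst.comp hj) h1)
    refine ⟨comp φ.symm.fam (fst X Y), φ.symm.isHom.comp isHom_fst, fun h => hS.idF_ne ?_⟩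
    rw [← h]
    exact fam_ext fun i x => (φ.symm_apply_apply i x).symm

variable [Finite K]

lemma homN_pos : 0 < homN X Y :=
  have : Nonempty {f : Fam X Y // IsHom X Y f} := ⟨⟨0, IsHom.zero⟩⟩
  Nat.card_pos

lemma autN_pos : 0 < autN X :=
  have : Nonempty (Iso X X) := ⟨Iso.refl X⟩
  Nat.card_pos

lemma St.one_lt_homN (hX : St w X) : 1 < homN X X := by
  rw [homN, Finite.one_lt_card_iff_nontrivial]
  exact ⟨⟨idF X, IsHom.id⟩, ⟨0, IsHom.zero⟩, fun h => hX.idF_ne (congrArg Subtype.val h)⟩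

noncomputable def Iso.ofInj {f : Fam X X} (hf : IsHom X X f) (h : ∀ i, Function.Injective (f i)) :
    Iso X X := Iso.ofBij hf fun i => Finite.injective_iff_bijective.1 (h i)

lemma exists_aut_inl {S : QR K s t} (hS : St w S) (hX : PS w X) {j : Fam S (S.prod X)}
    (hj : IsHom _ _ j) (h0 : j ≠ 0) :
    ∃ ψ : Iso (S.prod X) (S.prod X), comp ψ.fam (inl S X) = j := by
  have key : ∀ j : Fam S (S.prod X), IsHom _ _ j → comp (fst S X) j ≠ 0 →
      ∃ ψ : Iso (S.prod X) (S.prod X), comp ψ.fam (inl S X) = j := by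
    intro j hj h1
    have hb := hS.bij hS (isHom_fst.comp hj) h1
    refine ⟨Iso.ofInj ((hj.comp isHom_fst).add (isHom_inr.comp isHom_snd)) fun i => ?_, ?_⟩
    · rw [injective_iff_map_eq_zero]
      intro p hp
      have h2 : (j i p.1).1 + 0 = 0 := congrArg Prod.fst hp
      have h3 : (j i p.1).2 + p.2 = 0 := congrArg Prod.snd hp
      have h4 : p.1 = 0 := (hb i).1 ((add_zero _).symm.trans (h2.trans (map_zero _).symm))
      rw [h4, map_zero] at h3
      exact Prod.ext h4 ((zero_add _).symm.trans h3)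
    · exact fam_ext fun i x => add_zero (j i x)
  by_cases h1 : comp (fst S X) j = 0
  · obtain ⟨π, hπ, h2⟩ := hX S hS (comp (snd S X) j) (isHom_snd.comp hj) fun h => h0 <|
      fam_ext fun i x => Prod.ext (LinearMap.congr_fun (congrFun h1 i) x)
        (LinearMap.congr_fun (congrFun h i) x)
    let σ : Iso (S.prod X) (S.prod X) :=
      Iso.ofInj (IsHom.id.add (isHom_inl.comp (hπ.comp isHom_snd))) fun i => by
        rw [injective_iff_map_eq_zero]
        intro p hp
        have h3 : p.1 + π i p.2 = 0 := congrArg Prod.fst hp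
        have h4 : p.2 + 0 = 0 := congrArg Prod.snd hp
        rw [add_zero] at h4
        rw [h4, map_zero, add_zero] at h3
        exact Prod.ext h3 h4
    obtain ⟨ψ, hψ⟩ := key (comp σ.fam j) (σ.isHom.comp hj) fun h => h2 <| fam_ext fun i x => by
      have h3 : (j i x).1 + π i (j i x).2 = 0 := LinearMap.congr_fun (congrFun h i) x
      have h4 : (j i x).1 = 0 := LinearMap.congr_fun (congrFun h1 i) x
      rw [h4, zero_add] at h3
      exact h3
    refine ⟨ψ.trans σ.symm, fam_ext fun i x => ?_⟩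
    have := LinearMap.congr_fun (congrFun hψ i) x
    simp only [comp_apply] at this
    simp [this]
  · exact key j hj h1

lemma card_stab_inl (S X : QR K s t) :
    Nat.card {ψ : Iso (S.prod X) (S.prod X) // comp ψ.fam (inl S X) = inl S X} =
      homN X S * autN X := by
  rw [homN, autN, ← Nat.card_prod]
  symm
  refine Nat.card_eq_of_bijective (fun p => ⟨Iso.ofInj
    ((isHom_fst.add (p.1.2.comp isHom_snd)).pairF (p.2.isHom.comp isHom_snd)) fun i => ?_, ?_⟩)
    ⟨?_, ?_⟩
  · rw [injective_iff_map_eq_zero]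
    intro x hx
    have h1 : x.1 + p.1.1 i x.2 = 0 := congrArg Prod.fst hx
    have h2 : p.2.fam i x.2 = 0 := congrArg Prod.snd hx
    have h3 : x.2 = 0 := p.2.inj i (h2.trans (map_zero _).symm)
    rw [h3, map_zero, add_zero] at h1
    exact Prod.ext h1 h3
  · refine fam_ext fun i x => Prod.ext ?_ ?_
    · change x + p.1.1 i 0 = x
      simp
    · change p.2.fam i 0 = 0
      simp
  · intro p p' h
    have h1 := fun i x => congrArg (fun ψ : {ψ : Iso (S.prod X) (S.prod X) //
      comp ψ.fam (inl S X) = inl S X} => ψ.1.fam i (inr S X i x)) h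
    refine Prod.ext (Subtype.ext (fam_ext fun i x => ?_)) (Iso.ext' fun i x => ?_)
    · have h2 : 0 + p.1.1 i x = 0 + p'.1.1 i x := congrArg Prod.fst (h1 i x)
      simpa using h2
    · exact congrArg Prod.snd (h1 i x)
  · rintro ⟨ψ, hψ⟩
    have hψ' : ∀ i x, ψ.fam i (inl S X i x) = inl S X i x :=
      fun i x => LinearMap.congr_fun (congrFun hψ i) x
    refine ⟨(⟨comp (fst S X) (comp ψ.fam (inr S X)), isHom_fst.comp (ψ.isHom.comp isHom_inr)⟩,
      Iso.ofInj (isHom_snd.comp (ψ.isHom.comp isHom_inr)) fun i => ?_), ?_⟩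
    · rw [injective_iff_map_eq_zero]
      intro x hx
      have h1 : ψ.fam i (inr S X i x) = ψ.fam i (inl S X i (ψ.fam i (inr S X i x)).1) := by
        rw [hψ']
        exact Prod.ext rfl hx
      exact congrArg Prod.snd (ψ.inj i h1)
    · refine Subtype.ext (Iso.ext' fun i x => ?_)
      have h1 : x = inl S X i x.1 + inr S X i x.2 := Prod.ext (add_zero _).symm (zero_add _).symm
      conv_rhs => rw [h1, map_add, hψ']
      exact Prod.ext rfl (zero_add _).symm

lemma autN_prod {S : QR K s t} (hS : St w S) (hX : PS w X) :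
    autN (S.prod X) = (homN S (S.prod X) - 1) * (homN X S * autN X) := by
  have h0 : inl S X ≠ 0 := fun h => hS.idF_ne <| fam_ext fun i x =>
    congrArg Prod.fst (LinearMap.congr_fun (congrFun h i) x)
  rw [autN, card_of_fiber (β := {j : {j : Fam S (S.prod X) // IsHom _ _ j} // j ≠ ⟨0, IsHom.zero⟩})
    (fun ψ => ⟨⟨comp ψ.fam (inl S X), ψ.isHom.comp isHom_inl⟩, fun h => h0 <| fam_ext fun i x =>
      ψ.inj i ((LinearMap.congr_fun (congrFun (congrArg Subtype.val h) i) x).trans (by simp))⟩)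
    (homN X S * autN X)]
  · congr 1
    have := Fintype.ofFinite {j : Fam S (S.prod X) // IsHom _ _ j}
    rw [homN, Nat.card_eq_fintype_card, Nat.card_eq_fintype_card, Fintype.card_subtype_compl]
    simp
  · rintro ⟨⟨j, hj⟩, hj0⟩
    obtain ⟨ψ₀, rfl⟩ := exists_aut_inl hS hX hj fun h => hj0 (Subtype.ext h)
    rw [← card_stab_inl]
    refine Nat.card_congr ⟨fun ψ => ⟨ψ.1.trans ψ₀.symm, fam_ext fun i x => ?_⟩,
      fun ψ => ⟨ψ.1.trans ψ₀, Subtype.ext (Subtype.ext (fam_ext fun i x => ?_))⟩, fun ψ => ?_,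
      fun ψ => ?_⟩
    · have := LinearMap.congr_fun (congrFun (congrArg (fun z => z.1.1) ψ.2) i) x
      simp only [comp_apply] at this
      simp [this]
    · have := LinearMap.congr_fun (congrFun ψ.2 i) x
      simp only [comp_apply] at this
      simp [this]
    · exact Subtype.ext (Iso.ext' fun i x => by simp)
    · exact Subtype.ext (Iso.ext' fun i x => by simp)

end QR

end Pool.Agent.P.MP_d34769_ag
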