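import Pool.Agent.K.MP_d34769_ag.C148

/-! The glued representations are the semistable ones; comparison of stability. -/

noncomputable section
namespace Pool.Agent.P.MP_d34769_ag.FL

open Module Classical QR Matrix

variable {ι A : Type} {s t : A → ι} {J : Type} {a : J → J → ℕ}

section quotient
variable (X : QR ℂ s t) (U : X.Sub) (hU : X.IsSub U)

@[reducible] def quo : QR ℂ s t where
  M i := X.M i ⧸ U i
  a e := (U (s e)).mapQ (U (t e)) (X.a e) (hU e)

def mkF : Fam X (quo X U hU) := fun i => (U i).mkQ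

lemma isHom_mkF : QR.IsHom _ _ (mkF X U hU) := fun _ _ => rfl

lemma mkF_surj (i) : Function.Surjective (mkF X U hU i) := (U i).mkQ_surjective

lemma comapS_mkF : comapS (mkF X U hU) ⊥ = U := funext fun i => (U i).ker_mkQ

lemma dv_quo : (quo X U hU).dv + ds U = X.dv := by
  have h := ds_mapS (mkF X U hU) ⊤
  rwa [top_inf_eq, comapS_mkF, mapS_top_eq_top.2 (mkF_surj X U hU), ds_top, ds_top] at h

variable [Fintype ι] {w : ι → ℝ}

lemma ss_quo (hX : SS w X) (h0 : th w U = 0) : SS w (quo X U hU) := by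
  refine ⟨?_, fun V hV => ?_⟩
  · have h := congrArg (tw w) (dv_quo X U hU)
    rw [tw_add, hX.1] at h
    rw [th] at h0
    linarith
  · have h := th_mapS (w := w) (mkF X U hU) (comapS (mkF X U hU) V)
    have h4 : comapS (mkF X U hU) V ⊓ comapS (mkF X U hU) ⊥ = comapS (mkF X U hU) ⊥ :=
      inf_eq_right.2 fun i => Submodule.comap_mono bot_le
    rw [h4, mapS_comapS, mapS_top_eq_top.2 (mkF_surj X U hU), top_inf_eq, comapS_mkF, h0] at h
    have := hX.2 _ ((isHom_mkF X U hU).comapS hV)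
    linarith

end quotient

lemma tw_sum [Fintype ι] (w : ι → ℝ) {κ : Type} (T : Finset κ) (e : κ → ι → ℕ) :
    tw w (∑ b ∈ T, e b) = ∑ b ∈ T, tw w (e b) := by
  induction T using Finset.induction_on with
  | empty => simp [tw_zero]
  | insert b T h ih => rw [Finset.sum_insert h, Finset.sum_insert h, tw_add, ih]

/-- The representation with one basis vector. -/
@[reducible] def one (a : J → J → ℕ) (i : J) : LRep a where
  s := 1
  c _ := i
  m _ _ _ := 0
  supp _ _ _ _ _ h := absurd rfl h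

/-- A new first basis vector. -/
@[reducible] def cons (M : LRep a) (i : J) (τ : ∀ b, Fin (a (M.c b) i) → ℂ) : LRep a where
  s := M.s + 1
  c := Fin.cons i M.c
  m i' j' l := Matrix.of (Fin.cons (Fin.cons 0 fun b =>
    if h : M.c b = i' ∧ i = j' then τ b (Fin.cast (by rw [h.1, h.2]) l) else 0)
    fun b' => Fin.cons 0 (M.m i' j' l b'))
  supp i' j' l b' b := by
    refine Fin.cases ?_ (fun b' => ?_) b' <;> refine Fin.cases ?_ (fun b => ?_) b
    · exact fun h => absurd rfl h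
    · intro h
      have h' : M.c b = i' ∧ i = j' := by
        by_contra h'
        exact h (dif_neg h')
      exact ⟨h'.1, h'.2, Fin.succ_pos b⟩
    · exact fun h => absurd rfl h
    · intro h
      obtain ⟨h1, h2, h3⟩ := M.supp i' j' l b' b h
      exact ⟨h1, h2, Fin.succ_lt_succ_iff.2 h3⟩

namespace LD

variable (D : LD s t a) {M N : LRep a}

lemma dv_G (M : LRep a) : (D.G M).dv = ∑ b, (D.R (M.c b)).dv := by
  funext v
  rw [Finset.sum_apply]
  exact Module.finrank_pi_fintype ℂ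

lemma tens_surj {P : Matrix (Fin N.s) (Fin M.s) ℂ} (hP : ∀ b' b, P b' b ≠ 0 → N.c b' = M.c b)
    (h : Function.Surjective P.mulVec) (v) : Function.Surjective (D.tens P v) := by
  rw [← LinearMap.range_eq_top, eq_top_iff]
  intro u _
  rw [← Finset.univ_sum_single u]
  refine Submodule.sum_mem _ fun b' _ => ?_
  obtain ⟨y, hy⟩ := h (Pi.single b' 1)
  refine ⟨fun b => y b • idc D.R (N.c b') (M.c b) v (u b'), funext fun b'' => ?_⟩
  rw [D.tens_pure hP, hy]
  by_cases h1 : b'' = b'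
  · subst h1
    rw [Pi.single_eq_same, Pi.single_eq_same, idc_self, one_smul]
    rfl
  · rw [Pi.single_eq_of_ne h1, Pi.single_eq_of_ne h1, zero_smul]

lemma ext_surj_aux (M : LRep a) (i : J) (r : ℕ) :
    ∀ g : ∀ b, C1 (D.R (M.c b)) (D.R i), (∀ b : Fin M.s, b.1 + r < M.s → g b = 0) →
      ∃ (τ : ∀ b, Fin (a (M.c b) i) → ℂ) (F : ∀ b, Fam (D.R (M.c b)) (D.R i)),
        ∀ b, g b = D.sm _ _ (τ b) + dl (F b) + ∑ b'', lc (F b'') (D.E M b'' b) := by
  induction r with
  | zero =>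
    intro g hg
    refine ⟨0, 0, fun b => ?_⟩
    rw [hg b b.2]
    simp [dl_zero, zero_lc]
  | succ r ih =>
    intro g hg
    have h0 : ∀ b, ∃ τ f, g b = D.sm _ _ τ + dl f ∧ (g b = 0 → f = 0) := fun b => by
      by_cases h : g b = 0
      · exact ⟨0, 0, by rw [h, map_zero, dl_zero, add_zero], fun _ => rfl⟩
      · obtain ⟨τ, f, e⟩ := D.exists_sm (g b)
        exact ⟨τ, f, e, fun h' => absurd h' h⟩
    choose τ F h1 h2 using h0
    obtain ⟨τ', F', h3⟩ := ih (fun b => -∑ b'', lc (F b'') (D.E M b'' b)) fun b hb => by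
      rw [neg_eq_zero]
      refine Finset.sum_eq_zero fun b'' _ => ?_
      by_cases h : b'' < b
      · rw [h2 b'' (hg b'' (by have : b''.1 < b.1 := h; omega)), zero_lc]
      · rw [D.E_eq_zero M h, lc_zero]
    refine ⟨τ + τ', F + F', fun b => ?_⟩
    have h4 := h3 b
    simp only [Pi.add_apply τ, Pi.add_apply F, map_add, dl_add, add_lc, Finset.sum_add_distrib]
    rw [h1 b, ← sub_eq_zero, ← sub_eq_zero.2 h4]
    abel

lemma ext_surj (M : LRep a) (i : J) (g : C1 (D.G M) (D.R i)) :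
    ∃ (τ : ∀ b, Fin (a (M.c b) i) → ℂ) (f : Fam (D.G M) (D.R i)), ∀ e u,
      g e u = ∑ b, D.sm _ _ (τ b) e (u b) + dl f e u := by
  obtain ⟨τ, F, h⟩ := D.ext_surj_aux M i M.s
    (fun b e => g e ∘ₗ LinearMap.single ℂ (fun b => (D.R (M.c b)).M (s e)) b) fun b hb => by omega
  let f : Fam (D.G M) (D.R i) := fun v => ∑ b, F b v ∘ₗ LinearMap.proj b
  have hf : ∀ v u, f v u = ∑ b, F b v (u b) := fun v u => LinearMap.sum_apply _ _ _
  refine ⟨τ, f, fun e u => ?_⟩
  have h1 : g e u = ∑ b, (D.sm _ _ (τ b) + dl (F b) + ∑ b'', lc (F b'') (D.E M b'' b)) e (u b) := by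
    conv_lhs => rw [← Finset.univ_sum_single u, map_sum]
    exact Finset.sum_congr rfl fun b _ => LinearMap.congr_fun (congrFun (h b) e) (u b)
  rw [h1, dl_apply, hf, hf, Finset.sum_congr rfl fun b _ => congrArg (F b (t e)) (D.G_a M e u b)]
  simp only [map_add, map_sum, Pi.add_apply, LinearMap.add_apply, Finset.sum_apply,
    LinearMap.sum_apply, dl_apply, lc_apply, Finset.sum_add_distrib, Finset.sum_sub_distrib]
  rw [Finset.sum_comm (f := fun b b'' => F b (t e) (D.E M b b'' e (u b'')))]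
  abel

lemma E_cons_zero (i : J) (τ : ∀ b, Fin (a (M.c b) i) → ℂ) (b : Fin M.s) :
    D.E (cons M i τ) 0 b.succ = D.sm _ _ (τ b) := by
  refine congrArg (D.sm (M.c b) i) (funext fun l => ?_)
  exact dif_pos ⟨rfl, rfl⟩

lemma isom_cons {X : QR ℂ s t} {i : J} {j : Fam (D.R i) X} {π : Fam X (D.G M)}
    (hj : QR.IsHom _ _ j) (hπ : QR.IsHom _ _ π) (h1 : ∀ v, Function.Injective (j v))
    (h2 : ∀ v, Function.Surjective (π v)) (h3 : ∀ v x, π v x = 0 ↔ ∃ y, j v y = x) :
    ∃ τ, Isom X (D.G (cons M i τ)) := by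
  choose r hr using fun v => (j v).exists_leftInverse_of_injective (LinearMap.ker_eq_bot.2 (h1 v))
  choose σ hσ using fun v => (π v).exists_rightInverse_of_surjective
    (LinearMap.range_eq_top.2 (h2 v))
  have hr' : ∀ v y, r v (j v y) = y := fun v y => LinearMap.congr_fun (hr v) y
  have hσ' : ∀ v z, π v (σ v z) = z := fun v z => LinearMap.congr_fun (hσ v) z
  have hπj : ∀ v y, π v (j v y) = 0 := fun v y => (h3 v _).2 ⟨y, rfl⟩
  obtain ⟨τ, f, hf⟩ := D.ext_surj M i (rc (dl r) σ)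
  have h4 : ∀ e x, dl r e (σ _ (π _ x)) = dl r e x := fun e x => by
    obtain ⟨y, hy⟩ := (h3 (s e) (σ _ (π _ x) - x)).1 (by rw [map_sub, hσ', sub_self])
    rw [← sub_eq_zero, ← map_sub, ← hy, dl_apply, ← hj, hr', hr', sub_self]
  let ψ : Fam X (D.G (cons M i τ)) := fun v => LinearMap.pi fun b =>
    Fin.cases (motive := fun b => X.M v →ₗ[ℂ] (D.R ((cons M i τ).c b)).M v)
      (r v - f v ∘ₗ π v) (fun b => LinearMap.proj b ∘ₗ π v) b
  have e0 : ∀ v x, ψ v x 0 = r v x - f v (π v x) := fun _ _ => rfl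
  have e1 : ∀ v x (b : Fin M.s), ψ v x b.succ = π v x b := fun _ _ _ => rfl
  refine ⟨τ, IsHom.isom (f := ψ) (fun e x => funext fun b => ?_) fun v => ⟨?_, ?_⟩⟩
  · rw [D.G_a, Fin.sum_univ_succ, D.E_eq_zero _ (Fin.not_lt_zero b)]
    refine Fin.cases ?_ (fun b => ?_) b
    · have h5 := hf e (π _ x)
      rw [rc_apply, h4, dl_apply, dl_apply, ← hπ] at h5
      simp only [E_cons_zero]
      change r _ (X.a e x) - f _ (π _ (X.a e x)) = (D.R i).a e (r _ x - f _ (π _ x)) +
        (0 + ∑ b, D.sm _ _ (τ b) e (π _ x b))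
      rw [map_sub, zero_add, ← sub_eq_zero, ← sub_eq_zero.2 h5]
      abel
    · change π _ (X.a e x) b = (D.R (M.c b)).a e (π _ x b) + (0 + ∑ b'', D.E M b b'' e (π _ x b''))
      rw [hπ, D.G_a, zero_add]
  · rw [injective_iff_map_eq_zero]
    intro x hx
    have h5 : π v x = 0 := funext fun b => (e1 v x b).symm.trans (congrFun hx b.succ)
    have h6 : r v x - f v (π v x) = 0 := congrFun hx 0
    obtain ⟨y, rfl⟩ := (h3 v x).1 h5
    rw [h5, map_zero, sub_zero, hr'] at h6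
    rw [h6, map_zero]
  · intro u
    let z : (D.G M).M v := fun b => u b.succ
    let y : (D.R i).M v := u 0
    refine ⟨σ v z + j v (y - (r v (σ v z) - f v z)), funext fun b => ?_⟩
    have h5 : π v (σ v z + j v (y - (r v (σ v z) - f v z))) = z := by
      rw [map_add, hσ', hπj, add_zero]
    refine Fin.cases ?_ (fun b => ?_) b
    · change r v _ - f v (π v _) = y
      rw [h5, map_add, hr']
      abel
    · exact (e1 v _ b).trans (congrFun h5 b)

variable [Fintype ι] {w w' : ι → ℝ}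

lemma tw_G (w : ι → ℝ) (M : LRep a) : tw w (D.G M).dv = ∑ b, tw w (D.R (M.c b)).dv := by
  rw [dv_G, tw_sum]

lemma ss_G (h : ∀ i, St w (D.R i)) (M : LRep a) : SS w (D.G M) := by
  refine ⟨by rw [tw_G]; exact Finset.sum_eq_zero fun b _ => (h _).1, fun U hU => ?_⟩
  let W : ℕ → (D.G M).Sub := fun r v =>
    { carrier := {u | ∀ b : Fin M.s, r ≤ b.1 → u b = 0}
      add_mem' := fun hu hv b hb => by rw [Pi.add_apply, hu b hb, hv b hb, add_zero]
      zero_mem' := fun _ _ => rfl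
      smul_mem' := fun c u hu b hb => by rw [Pi.smul_apply, hu b hb, smul_zero] }
  have hE : ∀ (r : ℕ) e, ∀ u ∈ W r (s e), ∀ b : Fin M.s, r ≤ b.1 + 1 →
      (D.G M).a e u b = (D.R (M.c b)).a e (u b) := fun r e u hu b hb => by
    rw [D.G_a, Finset.sum_eq_zero, add_zero]
    intro b'' _
    by_cases h1 : b < b''
    · rw [hu b'' (by have : b.1 < b''.1 := h1; omega), map_zero]
    · rw [D.E_eq_zero M h1]
      rfl
  have hW : ∀ r, (D.G M).IsSub (W r) := fun r e u hu b hb => by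
    rw [hE r e u hu b (by omega), hu b hb, map_zero]
  have key : ∀ r, r ≤ M.s → th w (U ⊓ W r) ≤ 0 := by
    intro r
    induction r with
    | zero =>
      intro _
      have : U ⊓ W 0 = ⊥ := funext fun v => eq_bot_iff.2 fun u hu =>
        funext fun b => hu.2 b (Nat.zero_le _)
      rw [this, th_bot]
    | succ r ih =>
      intro hr
      let p : Fam (D.G M) (D.R (M.c ⟨r, hr⟩)) := fun v => LinearMap.proj (⟨r, hr⟩ : Fin M.s)
      have h1 := th_mapS (w := w) p (U ⊓ W (r + 1))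
      have h2 : U ⊓ W (r + 1) ⊓ comapS p ⊥ = U ⊓ W r := funext fun v => Submodule.ext fun u => by
        refine ⟨fun ⟨⟨h3, h4⟩, h5⟩ => ⟨h3, fun b hb => ?_⟩,
          fun ⟨h3, h4⟩ => ⟨⟨h3, fun b hb => h4 b (by omega)⟩, h4 ⟨r, hr⟩ le_rfl⟩⟩
        rcases hb.eq_or_lt with h6 | h6
        · obtain rfl : b = ⟨r, hr⟩ := Fin.ext h6.symm
          exact h5
        · exact h4 b h6
      have h3 : (D.R (M.c ⟨r, hr⟩)).IsSub (mapS p (U ⊓ W (r + 1))) := by
        rintro e _ ⟨u, hu, rfl⟩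
        exact ⟨_, (hU.inf (hW _)) e u hu, hE _ e u hu.2 ⟨r, hr⟩ le_rfl⟩
      have h4 := (h _).np _ h3
      have h5 := ih (by omega)
      rw [h2] at h1
      linarith
  have : U ⊓ W M.s = U := inf_eq_left.2 fun v u _ b hb => absurd b.2 (by omega)
  exact this ▸ key _ le_rfl

theorem ess_surj (hc : ∀ X : QR ℂ s t, St w X → ∃ i, Isom (D.R i) X) (r : ℕ) :
    ∀ X : QR ℂ s t, ∑ v, X.dv v < r → SS w X → ∃ M, Isom X (D.G M) := by
  induction r with
  | zero => intro _ h; omega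
  | succ r ih =>
    intro X hr hX
    by_cases h0 : X.dv = 0
    · let M : LRep a := ⟨0, Fin.elim0, fun _ _ _ => 0, fun _ _ _ b => b.elim0⟩
      exact ⟨M, (isom_zero_of_dv h0).trans (isom_zero_of_dv (by rw [dv_G]; rfl)).symm⟩
    obtain ⟨V, hV, -, hS⟩ := hX.2.exists_st IsSub.top (fun h => h0 (dv_eq_zero.2 h))
      (by rw [th_top, hX.1])
    obtain ⟨i, ⟨φ⟩⟩ := hc _ hS
    have h1 := dv_quo X V hV
    have h2 := hS.2.1
    rw [dv_sub] at h2
    obtain ⟨M, ⟨ψ⟩⟩ := ih (quo X V hV) (by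
      have h3 : ∑ v, (quo X V hV).dv v + ∑ v, ds V v = ∑ v, X.dv v := by
        rw [← Finset.sum_add_distrib, ← h1]
        rfl
      have h4 : ∑ v, ds V v ≠ 0 := fun h =>
        h2 (funext fun v => Finset.sum_eq_zero_iff.1 h v (Finset.mem_univ _))
      omega) (ss_quo X V hV hX (by rw [th, ← dv_sub hV, hS.1]))
    obtain ⟨τ, h⟩ := D.isom_cons ((isHom_subF hV).comp φ.isHom) (ψ.isHom.comp (isHom_mkF X V hV))
      (fun v => (subF_inj hV v).comp (φ.inj v)) (fun v => (ψ.surj v).comp (mkF_surj X V hV v))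
      fun v x => by
        rw [QR.comp_apply, map_eq_zero_iff _ (ψ.inj v)]
        refine (Submodule.Quotient.mk_eq_zero _).trans ⟨fun hx => ?_, ?_⟩
        · obtain ⟨y, hy⟩ := φ.surj v ⟨x, hx⟩
          exact ⟨y, congrArg Subtype.val hy⟩
        · rintro ⟨y, rfl⟩
          exact (φ.fam v y).2
    exact ⟨_, h⟩

omit [Fintype ι] in
lemma s_le {f : Fam (D.G M) (D.G N)} (hf : QR.IsHom _ _ f) (h : ∀ v, Function.Injective (f v)) :
    M.s ≤ N.s := by
  obtain ⟨P, hP, rfl⟩ := D.full hf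
  simpa using LinearMap.finrank_le_finrank_of_injective (f := P.mulVecLin) (D.inj_of_tens hP.1 h)

omit [Fintype ι] in
lemma dv_G_eq_zero : (D.G M).dv = 0 ↔ M.s = 0 := by
  rw [dv_G]
  refine ⟨fun h => ?_, fun h => ?_⟩
  · by_contra h'
    exact D.ne _ (Finset.sum_eq_zero_iff.1 h ⟨0, Nat.pos_of_ne_zero h'⟩ (Finset.mem_univ _))
  · exact Finset.sum_eq_zero fun b _ => absurd b.2 (by omega)

/-- Stability of the glued representation for a nearby weight. -/
theorem st_iff (h : ∀ i, St w (D.R i)) (hc : ∀ X : QR ℂ s t, St w X → ∃ i, Isom (D.R i) X)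
    (h0 : tw w' (D.G M).dv = 0) (h1 : (D.G M).dv ≠ 0)
    (hn : ∀ e ≤ (D.G M).dv, tw w e < 0 → tw w' e < 0) :
    St w' (D.G M) ↔ ∀ N P, LHom N M P → Function.Injective P.mulVec → 0 < N.s → N.s < M.s →
      tw w' (D.G N).dv < 0 := by
  constructor
  · intro hS N P hP hi h2 h3
    have h4 := D.tens_inj hP.1 hi
    have h5 := D.isHom_tens hP
    rw [← th_top, ← th_mapS_inj h4]
    refine hS.2.2 _ (h5.mapS IsSub.top) (fun h6 => ?_) fun h6 => ?_
    · have := ds_mapS_inj h4 ⊤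
      rw [h6, ds_bot, ds_top] at this
      have := D.dv_G_eq_zero.1 this.symm
      omega
    · obtain ⟨φ⟩ := (h5.isom fun v => ⟨h4 v, mapS_top_eq_top.1 h6 v⟩).symm
      have := D.s_le φ.isHom φ.inj
      omega
  · intro hS
    refine ⟨h0, h1, fun U hU h2 h3 => ?_⟩
    have hG := D.ss_G h M
    rcases (hG.2 U hU).lt_or_eq with h4 | h4
    · exact hn _ (ds_le U) h4
    obtain ⟨N, ⟨φ⟩⟩ := D.ess_surj hc _ ((D.G M).sub U hU) (Nat.lt_succ_self _)
      ⟨by rw [dv_sub]; exact h4, hG.2.of_inj (isHom_subF hU) (subF_inj hU)⟩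
    have h5 : (D.G N).dv = ds U := by rw [← dv_sub hU, Isom.dv_eq ⟨φ⟩]
    have h6 := (isHom_subF hU).comp φ.symm.isHom
    have h7 : ∀ v, Function.Injective (comp ((D.G M).subF U hU) φ.symm.fam v) := fun v =>
      (subF_inj hU v).comp (φ.symm.inj v)
    obtain ⟨P, hP, e⟩ := D.full h6
    rw [e] at h7
    have h8 := D.inj_of_tens hP.1 h7
    rw [th, ← h5]
    refine hS N P hP h8 (Nat.pos_of_ne_zero fun h9 => h2 ?_)
      (lt_of_le_of_ne (D.s_le (D.isHom_tens hP) h7) fun h9 => h3 ?_)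
    · rw [← ds_eq_zero, ← h5, D.dv_G_eq_zero.2 h9]
    · have h10 : Function.Surjective P.mulVecLin :=
        (LinearMap.injective_iff_surjective_of_finrank_eq_finrank (by simp [h9])).1 h8
      refine funext fun v => eq_top_iff.2 fun x _ => ?_
      obtain ⟨y, rfl⟩ := D.tens_surj hP.1 h10 v x
      rw [← e]
      exact (φ.symm.fam v y).2

theorem st_iff_one (h : ∀ i, St w (D.R i)) (hc : ∀ X : QR ℂ s t, St w X → ∃ i, Isom (D.R i) X)
    (h1 : (D.G M).dv ≠ 0) : St w (D.G M) ↔ M.s = 1 := by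
  rw [D.st_iff h hc (D.ss_G h M).1 h1 fun _ _ h => h]
  have h2 : 0 < M.s := Nat.pos_of_ne_zero fun h' => h1 (D.dv_G_eq_zero.2 h')
  refine ⟨fun hS => ?_, fun h3 N P _ _ h4 h5 => by omega⟩
  by_contra h3
  let b0 : Fin M.s := ⟨0, h2⟩
  refine absurd (hS (one a (M.c b0)) (Matrix.of fun b' _ => if b' = b0 then 1 else 0)
    ⟨fun b' b hb => ?_, fun i j l => ?_⟩ (fun u v huv => ?_) Nat.one_pos
    (by change 1 < M.s; omega)) (by rw [(D.ss_G h _).1]; exact lt_irrefl _)
  · by_contra h'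
    exact hb (if_neg fun e => h' (congrArg M.c e))
  · ext b' b
    rw [Matrix.mul_zero, Matrix.mul_apply, Finset.sum_eq_zero]
    · rfl
    intro b'' _
    by_cases h4 : b'' = b0
    · rw [m_eq_zero M l fun h' => absurd h'.2.2 (by rw [h4]; exact Nat.not_lt_zero _), zero_mul]
    · rw [Matrix.of_apply, if_neg h4, mul_zero]
  · funext b
    have := congrFun huv b0
    obtain rfl : b = (0 : Fin 1) := Subsingleton.elim (α := Fin 1) _ _
    simpa [Matrix.mulVec, dotProduct] using this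

end LD

end Pool.Agent.P.MP_d34769_ag.FL
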