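import Pool.Agent.K.MP_d34769_ag.C14

namespace Pool.Agent.P.MP_d34769_ag

open LaurentPolynomial Matrix Module

variable {K : Type} [Field K]

/-- the Kronecker part has no subrepresentation with `u₀ ≤ u₁` -/
def Good {n d k : ℕ} (ρ : Rep K n d k) : Prop :=
  ∀ (U₁ : Submodule K (Fin d → K)) (U₀ : Submodule K (Fin (n + d) → K)),
    (∀ u ∈ U₁, ρ.x *ᵥ u ∈ U₀ ∧ ρ.y *ᵥ u ∈ U₀) → U₁ ≠ ⊥ → finrank K U₁ < finrank K U₀

lemma QStable.good {α : ℝ} (hα : 0 < α) {n d k : ℕ} (hk : 0 < k) {ρ : Rep K n d k}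
    (h : QStable α ρ) : Good ρ := by
  intro U₁ U₀ h1 hne
  have : Nonempty (Fin k) := ⟨⟨0, hk⟩⟩
  have h2 := h U₁ U₀ ⊥ h1 (by simp) (fun hc => hne hc.1) (fun hc => bot_ne_top hc.2.2)
  have hk' : (0 : ℝ) < k := by exact_mod_cast hk
  have hpos : 0 < (d : ℝ) + α * k := by positivity
  have h3 : (0 : ℝ) ≤ n * (finrank K U₁ + α * finrank K (⊥ : Submodule K (Fin k → K))) := by
    positivity
  have h4 := (mul_pos_iff_of_pos_left hpos).1 (lt_of_le_of_lt h3 h2)
  exact_mod_cast (show (finrank K U₁ : ℝ) < finrank K U₀ by linarith)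

lemma QStable.injz {α : ℝ} (hα : 0 < α) {n d k : ℕ} (hn : 0 < n) {ρ : Rep K n d k}
    (h : QStable α ρ) : Function.Injective ρ.z.mulVec := by
  rw [← Matrix.coe_mulVecLin, ← LinearMap.ker_eq_bot]
  by_contra hne
  have : Nonempty (Fin (n + d)) := ⟨⟨0, by omega⟩⟩
  have h2 := h ⊥ ⊥ (LinearMap.ker ρ.z.mulVecLin) (by simp) (fun w hw => by simpa using hw)
    (fun hc => hne hc.2.2) (fun hc => bot_ne_top hc.2.1)
  simp only [finrank_bot, Nat.cast_zero, zero_add, sub_self, mul_zero] at h2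
  have : (0 : ℝ) ≤ n * (α * finrank K (LinearMap.ker ρ.z.mulVecLin)) := by positivity
  linarith

lemma Good.injx {n d k : ℕ} {ρ : Rep K n d k} (h : Good ρ) : Function.Injective ρ.x.mulVec := by
  rw [← Matrix.coe_mulVecLin, ← LinearMap.ker_eq_bot]
  by_contra hne
  have h2 := h (LinearMap.ker ρ.x.mulVecLin) ((LinearMap.ker ρ.x.mulVecLin).map ρ.y.mulVecLin)
    (fun u hu => ⟨by
      have : ρ.x *ᵥ u = 0 := hu
      rw [this]; exact Submodule.zero_mem _, ⟨u, hu, rfl⟩⟩) hne
  have h3 := Submodule.finrank_map_le ρ.y.mulVecLin (LinearMap.ker ρ.x.mulVecLin)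
  omega

lemma Good.chain {n d k : ℕ} {ρ : Rep K n d k} (h : Good ρ) (w : ℕ → Fin d → K) (m : ℕ)
    (hm : d ≤ m) (hw : ∀ i < m, ρ.y *ᵥ w i = ρ.x *ᵥ w (i + 1)) : ∀ i ≤ m, w i = 0 := by
  by_cases h0 : w 0 = 0
  · intro i
    induction i with
    | zero => exact fun _ => h0
    | succ i ih =>
      intro hi
      apply h.injx
      rw [← hw i (by omega), ih (by omega)]; simp
  exfalso
  let U : ℕ → Submodule K (Fin d → K) := fun j => Submodule.span K (w '' {i | i ≤ j})
  have hmono : ∀ j, U j ≤ U (j + 1) := fun j =>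
    Submodule.span_mono (Set.image_mono fun i (hi : i ≤ j) => (by omega : i ≤ j + 1))
  have hne : ∀ j, U j ≠ ⊥ := fun j hj => h0 (by
    have : w 0 ∈ U j := Submodule.subset_span ⟨0, Nat.zero_le j, rfl⟩
    rwa [hj, Submodule.mem_bot] at this)
  have hlt : ∀ j < m, U j < U (j + 1) := by
    intro j hj
    refine lt_of_le_of_ne (hmono j) fun heq => ?_
    have h2 := h (U j) ((U j).map ρ.x.mulVecLin) (fun u hu => ⟨⟨u, hu, rfl⟩, by
      refine Submodule.span_induction
        (p := fun u _ => ρ.y *ᵥ u ∈ (U j).map ρ.x.mulVecLin) ?_ ?_ ?_ ?_ hu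
      · rintro _ ⟨i, hi, rfl⟩
        have hi : i ≤ j := hi
        rw [hw i (by omega)]
        refine ⟨w (i + 1), ?_, rfl⟩
        rw [heq]
        exact Submodule.subset_span ⟨i + 1, (by omega : i + 1 ≤ j + 1), rfl⟩
      · simp
      · intro a b _ _ ha hb; rw [Matrix.mulVec_add]; exact Submodule.add_mem _ ha hb
      · intro c a _ ha; rw [Matrix.mulVec_smul]; exact Submodule.smul_mem _ c ha⟩) (hne j)
    have h3 := Submodule.finrank_map_le ρ.x.mulVecLin (U j)
    omega
  have hdim : ∀ j ≤ m, j + 1 ≤ finrank K (U j) := by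
    intro j
    induction j with
    | zero =>
      intro _
      have := Submodule.finrank_lt_finrank_of_lt (bot_lt_iff_ne_bot.2 (hne 0))
      omega
    | succ j ih =>
      intro hj
      have := Submodule.finrank_lt_finrank_of_lt (hlt j (by omega))
      have := ih (by omega)
      omega
  have h1 := hdim m le_rfl
  have h2 := Submodule.finrank_le (U m)
  rw [Module.finrank_fin_fun] at h2
  omega

/-- the transposed pencil -/
noncomputable def Psi {n d k : ℕ} (ρ : Rep K n d k) :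
    Matrix (Fin d) (Fin (n + d)) (LaurentPolynomial K) :=
  Matrix.of fun i l => C (ρ.y l i) - T 1 * C (ρ.x l i)

lemma dual_Psi {n d k : ℕ} (ρ : Rep K n d k) (μ : (Fin d → LaurentPolynomial K) →ₗ[K] K)
    (l : Fin (n + d)) (j : ℕ) :
    μ (Psi ρ *ᵥ Pi.single l (T (j : ℤ))) =
      (ρ.y *ᵥ fun i => μ (Pi.single i (T (j : ℤ)))) l -
      (ρ.x *ᵥ fun i => μ (Pi.single i (T ((j + 1 : ℕ) : ℤ)))) l := by
  have h1 : Psi ρ *ᵥ Pi.single l (T (j : ℤ)) =
      ∑ i, (ρ.y l i • (Pi.single i (T (j : ℤ)) : Fin d → LaurentPolynomial K) -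
        ρ.x l i • (Pi.single i (T ((j + 1 : ℕ) : ℤ)) : Fin d → LaurentPolynomial K)) := by
    ext1 i
    rw [Matrix.mulVec_single, Finset.sum_apply, Finset.sum_eq_single i]
    · simp only [Psi, Pi.smul_apply, Matrix.col_apply, Matrix.of_apply,
        MulOpposite.smul_eq_mul_unop, MulOpposite.unop_op, Pi.sub_apply, Pi.single_eq_same,
        smul_eq_C_mul]
      rw [show ((j + 1 : ℕ) : ℤ) = 1 + j by push_cast; ring, T_add]; ring
    · intro b _ hb; simp [Pi.single_eq_of_ne hb.symm]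
    · simp
  rw [h1, map_sum]
  simp [Matrix.mulVec, dotProduct, Finset.sum_sub_distrib]

lemma single_mem_winPi {r : ℕ} {a : Fin r → ℤ} (l : Fin r) (j : ℕ) (hj : (j : ℤ) ≤ a l) :
    (Pi.single l (T (j : ℤ)) : Fin r → LaurentPolynomial K) ∈ winPi K a := by
  refine mem_winPi.2 fun i => ?_
  by_cases h : i = l
  · subst h; rw [Pi.single_eq_same]; exact ⟨(Ge.T _).mono (by omega), (Le.T _).mono hj⟩
  · rw [Pi.single_eq_of_ne h]; exact ⟨Ge.zero _, Le.zero _⟩

lemma dual_eq_zero {r : ℕ} {a : Fin r → ℤ} (μ : (Fin r → LaurentPolynomial K) →ₗ[K] K)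
    (h : ∀ (l : Fin r) (j : ℕ), (j : ℤ) ≤ a l → μ (Pi.single l (T (j : ℤ))) = 0) {q}
    (hq : q ∈ winPi K a) : μ q = 0 := by
  have hq := mem_winPi.1 hq
  rw [← Finset.univ_sum_single q, map_sum]
  refine Finset.sum_eq_zero fun l _ => ?_
  have : (Pi.single l (q l) : Fin r → LaurentPolynomial K) =
      ∑ i : Fin (a l + 1).toNat, (q l).coeff (i : ℕ) • Pi.single l (T ((i : ℕ) : ℤ)) := by
    ext1 i
    by_cases hi : i = l
    · subst hi
      rw [Finset.sum_apply]
      simp only [Pi.single_eq_same, Pi.smul_apply]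
      exact eq_sum_of_win (hq i).1 (hq i).2
    · simp [Finset.sum_apply, Pi.single_eq_of_ne hi]
  rw [this, map_sum]
  refine Finset.sum_eq_zero fun i _ => ?_
  rw [map_smul, h l i (by have := i.2; omega), smul_zero]

lemma Psi_mem {n d k : ℕ} (ρ : Rep K n d k) (m : ℤ) {p} (hp : p ∈ winPi K (fun _ => m)) :
    Psi ρ *ᵥ p ∈ winPi K (fun _ => m + 1) := by
  have hp := mem_winPi.1 hp
  refine mem_winPi.2 fun i => ⟨?_, ?_⟩
  · have := Ge.mulVec (a := 0) (b := 0) (A := Psi ρ) (fun i l =>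
      (Ge.C _).sub (by simpa using ((Ge.T 1).mono (by omega : (0 : ℤ) ≤ 1)).mul (Ge.C _)))
      (fun l => (hp l).1) i
    simpa using this
  · have := Le.mulVec (a := 1) (b := m) (A := Psi ρ) (fun i l =>
      ((Le.C _).mono (by omega)).sub (by simpa using (Le.T 1).mul (Le.C _)))
      (fun l => (hp l).2) i
    rwa [add_comm] at this

lemma Good.surj {n d k : ℕ} {ρ : Rep K n d k} (h : Good ρ) (m : ℕ) (hm : d ≤ m) :
    (winPi K (fun _ => (m : ℤ))).map (mv (Psi ρ)) = winPi K (fun _ => (m : ℤ) + 1) := by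
  refine le_antisymm (by rintro _ ⟨p, hp, rfl⟩; exact Psi_mem ρ m hp) fun q hq => ?_
  by_contra hc
  obtain ⟨μ, hμ, hμ'⟩ := Submodule.exists_dual_map_eq_bot_of_notMem hc inferInstance
  apply hμ
  have hz := h.chain (fun j i => μ (Pi.single i (T (j : ℤ)))) (m + 1) (by omega) (by
    intro j hj
    ext l
    rw [← sub_eq_zero, ← dual_Psi, ← Submodule.mem_bot K, ← hμ']
    exact ⟨_, ⟨_, single_mem_winPi l j (by omega), rfl⟩, rfl⟩)
  exact dual_eq_zero μ (fun l j hj => congrFun (hz j (by omega)) l) hq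

theorem exists_sys {n d k : ℕ} {ρ : Rep K n d k} (h : Good ρ)
    (hz : Function.Injective ρ.z.mulVec) : ∃ S φ, Pres S ρ φ := by
  classical
  let M : Submodule K (Fin (n + d) → LaurentPolynomial K) :=
    M0 K (n + d) ⊓ LinearMap.ker (mv (Psi ρ))
  let O : Bundle K (n + d) 0 := Ob K 0 0 (by simp)
  obtain ⟨D⟩ := exists_subSplit O M
    (by
      rintro p ⟨hp, hp'⟩
      refine ⟨fun i => ?_, ?_⟩
      · rw [Pi.smul_apply, smul_eq_mul, ge_T_mul]; exact (hp i).mono (by omega)
      · have hp' : Psi ρ *ᵥ p = 0 := hp'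
        change Psi ρ *ᵥ _ = 0
        rw [Matrix.mulVec_smul, hp', smul_zero])
    (fun p hp => hp.1)
  have hOF : ∀ m : ℤ, O.F m = winPi K (fun _ => m) := fun m => by
    rw [Ob_F]; simp
  have hMF : ∀ m : ℤ, M ⊓ O.F m = winPi K (fun _ => m) ⊓ LinearMap.ker (mv (Psi ρ)) := by
    intro m
    rw [inf_right_comm, M0_inf, hOF]
  have hdim : ∀ m : ℕ, d ≤ m →
      ∑ j, ((m : ℤ) + D.b j + 1).toNat + d * (m + 2) = (n + d) * (m + 1) := by
    intro m hm
    have h1 := LinearMap.finrank_range_add_finrank_ker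
      ((mv (Psi ρ)).domRestrict (winPi K (fun _ => (m : ℤ))))
    rw [LinearMap.range_domRestrict, h.surj m hm, finrank_winPi, finrank_winPi,
      LinearMap.ker_domRestrict, ← finrank_map_inj (Submodule.injective_subtype _),
      Submodule.map_comap_subtype, ← hMF, D.finrank_eq] at h1
    simp only [Finset.sum_const, Finset.card_univ, Fintype.card_fin, smul_eq_mul] at h1
    have e1 : ((m : ℤ) + 1 + 1).toNat = m + 2 := by omega
    have e2 : ((m : ℤ) + 1).toNat = m + 1 := by omega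
    rw [e1, e2] at h1
    omega
  obtain ⟨β, hβ⟩ := (Set.finite_range D.b).bddBelow
  have hβ' : ∀ j, β ≤ D.b j := fun j => hβ ⟨j, rfl⟩
  have hdim' : ∀ m : ℕ, d ≤ m → -β ≤ m →
      (D.r : ℤ) * (m + 1) + ∑ j, D.b j + d * (m + 2) = (n + d) * (m + 1) := by
    intro m hm hm'
    have h1 := hdim m hm
    have h2 := sum_toNat_eq (fun j => (m : ℤ) + D.b j + 1) (fun j => by have := hβ' j; omega)
    have h3 : ∑ j, ((m : ℤ) + D.b j + 1) = (D.r : ℤ) * (m + 1) + ∑ j, D.b j := by
      simp only [Finset.sum_add_distrib, Finset.sum_const, Finset.card_univ, Fintype.card_fin]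
      simp; ring
    rw [← h3, ← h2]
    exact_mod_cast h1
  have e1 := hdim' (d + (-β).toNat) (by omega) (by omega)
  have e2 := hdim' (d + (-β).toNat + 1) (by omega) (by omega)
  have hr : D.r = n := by
    have : (D.r : ℤ) = n := by push_cast at e1 e2; linarith
    exact_mod_cast this
  have hb : ∑ j, (-D.b) j = (d : ℤ) := by
    simp only [Pi.neg_apply, Finset.sum_neg_distrib]
    have hr' : (D.r : ℤ) = n := by exact_mod_cast hr
    rw [hr'] at e1
    push_cast at e1; linarith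
  have hle : ∀ l j, Le (-D.b j) (D.A l j) := by
    intro l j
    have := D.inv l j
    rw [Ob_h, neg_zero, show dT K (0 : Fin (n + d) → ℤ) = 1 by simp [dT], Matrix.one_mul, dT,
      Matrix.mul_diagonal, mul_comm, le_T_mul] at this
    simpa using this
  have hnn : ∀ j, 0 ≤ (-D.b) j := by
    intro j
    by_contra hj
    have h1 : D.A *ᵥ Pi.single j 1 = D.A *ᵥ 0 := by
      ext1 l
      have := eq_zero_of_le_of_ge (hle l j) (D.pol l j) (by simpa using hj)
      simp [this]
    have := congrFun (D.inj h1) j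
    simp at this
  have hcolz : Psi ρ * D.A = 0 := by
    ext1 i j
    have : Psi ρ *ᵥ (fun l => D.A l j) = 0 := (D.col j).2
    exact congrFun this i
  have hcoord : ∀ p ∈ winPi K (fun _ => ((2 * d : ℕ) : ℤ)), Psi ρ *ᵥ p = 0 →
      ∃ c, p = D.A *ᵥ c := by
    intro p hp hp'
    have : p ∈ M ⊓ O.F ((2 * d : ℕ) : ℤ) := by rw [hMF]; exact ⟨hp, hp'⟩
    obtain ⟨c, -, hc⟩ := D.exists_coord this.1 this.2
    exact ⟨c, hc⟩
  have hpol := D.pol
  clear hdim hdim' e1 e2 hβ hβ'
  generalize D.A = A at *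
  generalize D.b = b at *
  generalize D.r = r at *
  subst hr
  let φ : (Fin (r + d) → K) →ₗ[K] (Fin r → LaurentPolynomial K) :=
    { toFun := fun u => Aᵀ *ᵥ fun l => C (u l)
      map_add' := fun u v => by
        rw [← Matrix.mulVec_add]; congr 1; ext1 l; simp
      map_smul' := fun c u => by
        rw [RingHom.id_apply, ← mulVec_smul_K]; congr 1; ext1 l; simp [smul_eq_C_mul] }
  have hφ : ∀ u j, φ u j = ∑ l, A l j * C (u l) := fun u j => rfl
  let E : Bundle K r d := Ob K (-b) d hb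
  have hE0 : ∀ u, φ u ∈ E.F 0 := by
    intro u
    rw [Ob_F, mem_winPi]
    intro j
    rw [hφ]
    exact ⟨Ge.sum fun l _ => by simpa using (hpol l j).mul (Ge.C _),
      Le.sum fun l _ => by simpa using (hle l j).mul (Le.C _)⟩
  have hEnn : E.NN := by
    change (finrank K (E.F (-1)) : ℤ) = d
    rw [Ob_F, finrank_winPi, ← hb, ← sum_toNat_eq _ hnn]
    congr 1
    refine Finset.sum_congr rfl fun j _ => ?_
    congr 1; ring
  have hinj : Function.Injective φ := by
    rw [injective_iff_map_eq_zero]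
    intro u hu
    let lam : (Fin (r + d) → LaurentPolynomial K) →ₗ[K] K :=
      { toFun := fun p => (∑ l, C (u l) * p l).coeff d
        map_add' := fun p q => by simp [mul_add, Finset.sum_add_distrib]
        map_smul' := fun c p => by simp [Finset.mul_sum] }
    have hmem : lam.domRestrict (winPi K (fun _ => ((2 * d : ℕ) : ℤ))) ∈
        (LinearMap.ker ((mv (Psi ρ)).domRestrict
          (winPi K (fun _ => ((2 * d : ℕ) : ℤ))))).dualAnnihilator := by
      rw [Submodule.mem_dualAnnihilator]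
      rintro ⟨p, hp⟩ hp'
      obtain ⟨c, rfl⟩ := hcoord p hp hp'
      have : ∑ l, C (u l) * (A *ᵥ c) l = ∑ j, φ u j * c j := by
        simp only [hφ, Matrix.mulVec, dotProduct, Finset.mul_sum, Finset.sum_mul]
        rw [Finset.sum_comm]
        exact Finset.sum_congr rfl fun j _ => Finset.sum_congr rfl fun l _ => by ring
      change (∑ l, C (u l) * (A *ᵥ c) l).coeff d = 0
      rw [this, hu]; simp
    rw [← LinearMap.range_dualMap_eq_dualAnnihilator_ker] at hmem
    obtain ⟨μ, hμ⟩ := hmem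
    have key : ∀ j ≤ 2 * d, ∀ l, (ρ.y *ᵥ fun i => μ (Pi.single i (T (j : ℤ)))) l -
        (ρ.x *ᵥ fun i => μ (Pi.single i (T ((j + 1 : ℕ) : ℤ)))) l = if j = d then u l else 0 := by
      intro j hj l
      rw [← dual_Psi]
      have h1 := LinearMap.congr_fun hμ ⟨_, single_mem_winPi l j (by omega)⟩
      refine h1.trans ?_
      change (∑ l', C (u l') * (Pi.single l (T (j : ℤ)) : Fin (r + d) → _) l').coeff d = _
      rw [Finset.sum_eq_single l]
      · rw [Pi.single_eq_same, coeff_C_mul, T_apply]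
        simp
      · intro b' _ hb'; simp [Pi.single_eq_of_ne hb']
      · simp
    have c1 := h.chain (fun j i => μ (Pi.single i (T (j : ℤ)))) d le_rfl (by
      intro j hj
      ext l
      rw [← sub_eq_zero, key j (by omega), if_neg (by omega)])
    have c2 := h.chain (fun j i => μ (Pi.single i (T ((d + 1 + j : ℕ) : ℤ)))) d le_rfl (by
      intro j hj
      ext l
      have := key (d + 1 + j) (by omega) l
      rw [if_neg (by omega), sub_eq_zero] at this
      exact this)
    ext l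
    have h1 := key d (by omega) l
    have h2 := c1 d le_rfl
    have h3 := c2 0 (Nat.zero_le _)
    simp only [Nat.add_zero] at h3
    rw [if_pos rfl, h2, h3] at h1
    simpa using h1.symm
  have hy : ∀ u, φ (ρ.y *ᵥ u) = (T 1 : LaurentPolynomial K) • φ (ρ.x *ᵥ u) := by
    intro u
    ext1 j
    rw [← sub_eq_zero, Pi.smul_apply, smul_eq_mul, hφ, hφ]
    have h1 : ∑ i, (Psi ρ * A) i j * C (u i) = 0 := by rw [hcolz]; simp
    rw [← h1]
    simp only [Matrix.mul_apply, Psi, Matrix.of_apply, Matrix.mulVec, dotProduct, map_sum,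
      map_mul, Finset.mul_sum, Finset.sum_mul, ← Finset.sum_sub_distrib]
    rw [Finset.sum_comm]
    exact Finset.sum_congr rfl fun i _ => Finset.sum_congr rfl fun l _ => by ring
  have hV : LinearMap.range (φ ∘ₗ ρ.z.mulVecLin) ≤ E.F 0 := by
    rintro _ ⟨u, rfl⟩; exact hE0 _
  refine ⟨⟨E, LinearMap.range (φ ∘ₗ ρ.z.mulVecLin), hV, ?_⟩, φ, hinj, ?_, h.injx, ?_, hy, rfl⟩
  · rw [LinearMap.finrank_range_of_inj (f := φ ∘ₗ ρ.z.mulVecLin) (hinj.comp hz)]; simp
  · refine Submodule.eq_of_le_of_finrank_eq (by rintro _ ⟨u, rfl⟩; exact hE0 _) ?_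
    rw [LinearMap.finrank_range_of_inj hinj, Module.finrank_fin_fun]
    have := hEnn.finrank_zero
    change _ = finrank K (E.F 0)
    omega
  · refine Submodule.eq_of_le_of_finrank_eq ?_ ?_
    · rintro _ ⟨u, rfl⟩
      refine E.mem_of_T_smul ((E.sec_iff 0 _).1 (hE0 _)).1 ?_
      have := hE0 (ρ.y *ᵥ u)
      rw [hy] at this
      simpa using this
    · rw [LinearMap.finrank_range_of_inj (f := φ ∘ₗ ρ.x.mulVecLin) (hinj.comp h.injx),
        Module.finrank_fin_fun]
      have : (finrank K (E.F (-1)) : ℤ) = d := hEnn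
      change _ = finrank K (E.F (-1))
      omega

end Pool.Agent.P.MP_d34769_ag
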