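import Pool.Agent.K.MP_d34769_ag.C8
import Pool.Agent.K.MP_d34769_ag.C16

/-! From matrices to abstract representations, and the point count. -/

namespace Pool.Agent.P.MP_d34769_ag

open Module Classical QR Matrix LaurentPolynomial

variable {K : Type} [Field K] {n d k : ℕ}

def toStr (ρ : Rep K n d k) : (std K s3 t3 ![d, n + d, k]).Str
  | ⟨0, _⟩ => ρ.x.mulVecLin
  | ⟨1, _⟩ => ρ.y.mulVecLin
  | ⟨2, _⟩ => ρ.z.mulVecLin

def toQR (ρ : Rep K n d k) : QR K s3 t3 := (std K s3 t3 ![d, n + d, k]).withA (toStr ρ)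

lemma dv_toQR (ρ : Rep K n d k) : (toQR ρ).dv = ![d, n + d, k] :=
  dv_std (K := K) (s := s3) (t := t3) _

lemma toStr_surj (σ : (std K s3 t3 ![d, n + d, k]).Str) : ∃ ρ : Rep K n d k, toStr ρ = σ := by
  refine ⟨⟨LinearMap.toMatrix' (σ 0), LinearMap.toMatrix' (σ 1), LinearMap.toMatrix' (σ 2)⟩,
    funext fun e => ?_⟩
  fin_cases e
  · exact Matrix.toLin'_toMatrix' (σ 0)
  · exact Matrix.toLin'_toMatrix' (σ 1)
  · exact Matrix.toLin'_toMatrix' (σ 2)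

def w3 (n d k : ℕ) (α : ℝ) : Fin 3 → ℝ := ![n + (d + α * k), -(d + α * k), n * α]

lemma tw_w3 (α : ℝ) : tw (w3 n d k α) = wgt n d k α := by
  funext e
  simp [tw, w3, wgt, Fin.sum_univ_three]
  ring

def mkSub (ρ : Rep K n d k) (U₁ : Submodule K (Fin d → K)) (U₀ : Submodule K (Fin (n + d) → K))
    (W : Submodule K (Fin k → K)) : (toQR ρ).Sub
  | ⟨0, _⟩ => U₁
  | ⟨1, _⟩ => U₀
  | ⟨2, _⟩ => W

def mkFam (ρ ρ' : Rep K n d k) (P₁ : Matrix (Fin d) (Fin d) K)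
    (P₀ : Matrix (Fin (n + d)) (Fin (n + d)) K) (Q : Matrix (Fin k) (Fin k) K) :
    Fam (toQR ρ) (toQR ρ')
  | ⟨0, _⟩ => P₁.mulVecLin
  | ⟨1, _⟩ => P₀.mulVecLin
  | ⟨2, _⟩ => Q.mulVecLin

lemma mkFam_surj {ρ ρ' : Rep K n d k} (f : Fam (toQR ρ) (toQR ρ')) :
    ∃ P₁ P₀ Q, mkFam ρ ρ' P₁ P₀ Q = f := by
  refine ⟨LinearMap.toMatrix' (f 0), LinearMap.toMatrix' (f 1), LinearMap.toMatrix' (f 2),
    funext fun e => ?_⟩
  fin_cases e
  · exact Matrix.toLin'_toMatrix' (f 0)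
  · exact Matrix.toLin'_toMatrix' (f 1)
  · exact Matrix.toLin'_toMatrix' (f 2)

lemma isHom_mkFam {ρ ρ' : Rep K n d k} {P₁ P₀ Q} :
    QR.IsHom _ _ (mkFam ρ ρ' P₁ P₀ Q) ↔ QMor ρ ρ' P₁ P₀ Q := by
  rw [QR.IsHom, Fin.forall_fin_succ, Fin.forall_fin_two, QMor]
  have key : ∀ {a : ℕ} (X X' : Matrix (Fin (n + d)) (Fin a) K) (P : Matrix (Fin a) (Fin a) K),
      (∀ u, P₀ *ᵥ X *ᵥ u = X' *ᵥ P *ᵥ u) ↔ P₀ * X = X' * P := fun X X' P => by
    simp only [Matrix.mulVec_mulVec]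
    exact ⟨matrix_ext, fun h u => by rw [h]⟩
  exact and_congr (key _ _ _) (and_congr (key _ _ _) (key _ _ _))

lemma qiso_iff {ρ ρ' : Rep K n d k} : QIso ρ ρ' ↔ Isom (toQR ρ) (toQR ρ') := by
  constructor
  · rintro ⟨P₁, P₀, Q, h1, h0, hQ, hP⟩
    refine (isHom_mkFam.2 hP).isom fun i => ?_
    fin_cases i
    · exact ⟨Matrix.mulVec_injective_iff_isUnit.2 h1, Matrix.mulVec_surjective_iff_isUnit.2 h1⟩
    · exact ⟨Matrix.mulVec_injective_iff_isUnit.2 h0, Matrix.mulVec_surjective_iff_isUnit.2 h0⟩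
    · exact ⟨Matrix.mulVec_injective_iff_isUnit.2 hQ, Matrix.mulVec_surjective_iff_isUnit.2 hQ⟩
  · rintro ⟨φ⟩
    obtain ⟨P₁, P₀, Q, h⟩ := mkFam_surj φ.fam
    have hi := φ.inj
    have hh := φ.isHom
    rw [← h] at hi hh
    exact ⟨P₁, P₀, Q, Matrix.mulVec_injective_iff_isUnit.1 (hi 0),
      Matrix.mulVec_injective_iff_isUnit.1 (hi 1), Matrix.mulVec_injective_iff_isUnit.1 (hi 2),
      isHom_mkFam.1 hh⟩

lemma wgt_self (α : ℝ) : wgt n d k α ![d, n + d, k] = 0 := by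
  simp [wgt]
  ring

lemma dim_ne (hn : 0 < n) : ![d, n + d, k] ≠ 0 := fun h => by
  have : n + d = 0 := congrFun h 1
  omega

lemma qstable_iff (hn : 0 < n) {α : ℝ} {ρ : Rep K n d k} :
    QStable α ρ ↔ St (w3 n d k α) (toQR ρ) := by
  have h3 : ∀ U V : (toQR ρ).Sub, U = V ↔ U 0 = V 0 ∧ U 1 = V 1 ∧ U 2 = V 2 := fun U V => by
    rw [funext_iff, Fin.forall_fin_succ, Fin.forall_fin_two]
    rfl
  constructor
  · intro h
    refine ⟨by rw [dv_toQR, tw_w3, wgt_self], by rw [dv_toQR]; exact dim_ne hn,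
      fun U hU h0 h1 => ?_⟩
    have := h (U 0) (U 1) (U 2) (fun u hu => ⟨hU 0 u hu, hU 1 u hu⟩) (hU 2)
      (fun h => h0 ((h3 _ _).2 h)) (fun h => h1 ((h3 _ _).2 h))
    rw [th, tw_w3, wgt, sub_neg]
    exact this
  · intro h U₁ U₀ W h1 h2 h0 h4
    have := h.2.2 (mkSub ρ U₁ U₀ W) (fun e => by
      fin_cases e
      · exact fun u hu => (h1 u hu).1
      · exact fun u hu => (h1 u hu).2
      · exact h2) (fun h => h0 ((h3 _ _).1 h)) (fun h => h4 ((h3 _ _).1 h))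
    rw [th, tw_w3, wgt, sub_neg] at this
    exact this

lemma Pres.simple_iff {S : CohSys K n d k} {ρ : Rep K n d k}
    {φ : (Fin (n + d) → K) →ₗ[K] (Fin n → LaurentPolynomial K)} (h : Pres S ρ φ) :
    Simple S ↔ Sc (toQR ρ) := by
  have hs : ∀ (c : K) (p : Fin n → LaurentPolynomial K),
      Matrix.scalar (Fin n) (C c) *ᵥ p = c • p := fun c p => by
    funext i
    rw [Matrix.scalar_apply, Matrix.mulVec_diagonal, Pi.smul_apply, ← smul_eq_C_mul]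
  constructor
  · intro hS f hf
    obtain ⟨P₁, P₀, Q, rfl⟩ := mkFam_surj f
    have hP := isHom_mkFam.1 hf
    obtain ⟨A, hA, e⟩ := h.mor_of_qmor h hP
    obtain ⟨c, rfl⟩ := hS A hA
    have h0 : ∀ u, P₀ *ᵥ u = c • u := fun u => h.inj (by rw [e, hs, map_smul])
    refine ⟨c, fun i => ?_⟩
    fin_cases i
    · intro (u : Fin d → K)
      refine h.injx (?_ : ρ.x *ᵥ P₁ *ᵥ u = ρ.x *ᵥ (c • u))
      rw [Matrix.mulVec_mulVec, ← hP.1, ← Matrix.mulVec_mulVec, h0, Matrix.mulVec_smul]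
    · exact h0
    · intro (u : Fin k → K)
      refine h.injz (?_ : ρ.z *ᵥ Q *ᵥ u = ρ.z *ᵥ (c • u))
      rw [Matrix.mulVec_mulVec, ← hP.2.2, ← Matrix.mulVec_mulVec, h0, Matrix.mulVec_smul]
  · intro hS A hA
    obtain ⟨P₁, P₀, Q, hP, e⟩ := h.qmor_of_mor h hA
    obtain ⟨c, hc⟩ := hS _ (isHom_mkFam.2 hP)
    refine ⟨c, h.nn.ext fun p hp => ?_⟩
    obtain ⟨u, rfl⟩ := h.ex0 hp
    rw [← e, hs, ← map_smul]
    exact congrArg φ (hc 1 u)

theorem quot_equiv [Finite K] (hn : 0 < n) (hk : 0 < k) {α : ℝ} (hα : 0 < α) :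
    Nonempty ((Quot fun S S' : {S : CohSys K n d k // Stable α S ∧ Simple S} => Iso S.1 S'.1) ≃
      {S : StC K s3 t3 (w3 n d k α) // S.dv = ![d, n + d, k] ∧ S.q = Nat.card K}) := by
  obtain ⟨Φ, -⟩ := exists_equiv (fun S : CohSys K n d k => Stable α S ∧ Simple S)
    (fun ρ => QStable α ρ ∧ Sc (toQR ρ)) (fun _ h => h.1.nn hα hk)
    (fun _ h => exists_sys (h.1.good hα hk) (h.1.injz hα hn))
    (fun _ _ _ h => and_congr (h.stable_iff hα hn hk) h.simple_iff)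
  refine ⟨Φ.trans (Equiv.ofBijective (Quot.lift (fun ρ => ⟨⟨cl (toQR ρ.1), (qstable_iff hn).1 ρ.2.1⟩,
    dv_toQR ρ.1, (sc_iff (by rw [dv_toQR]; exact dim_ne hn)).1 ρ.2.2⟩)
    fun ρ ρ' h => Subtype.ext (StC.ext (cl_eq.2 (qiso_iff.1 h)))) ⟨?_, ?_⟩)⟩
  · rintro ⟨ρ⟩ ⟨ρ'⟩ h
    exact Quot.sound (qiso_iff.2 (cl_eq.1 (congrArg (fun z => z.1.1) h)))
  · rintro ⟨⟨C, hC⟩, h1, h2⟩
    obtain ⟨X, rfl⟩ := cl_surj C
    obtain ⟨σ, hσ⟩ := exists_std X h1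
    obtain ⟨ρ, rfl⟩ := toStr_surj σ
    have hX : St (w3 n d k α) X := hC
    have hρ : St (w3 n d k α) (toQR ρ) := hX.of_isom hσ.symm
    exact ⟨Quot.mk _ ⟨ρ, (qstable_iff hn).2 hρ, (sc_iff hρ.2.1).2 ((homN_congr hσ hσ).trans h2)⟩,
      Subtype.ext (StC.ext (cl_eq.2 hσ))⟩

theorem card_quot [Finite K] (hn : 0 < n) (hk : 0 < k) {α : ℝ} (hα : 0 < α) :
    Nat.card (Quot fun S S' : {S : CohSys K n d k // Stable α S ∧ Simple S} => Iso S.1 S'.1) =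
      absN K s3 t3 (w3 n d k α) ![d, n + d, k] :=
  (quot_equiv hn hk hα).elim Nat.card_congr

theorem finite_quot [Finite K] (hn : 0 < n) (hk : 0 < k) {α : ℝ} (hα : 0 < α) :
    Finite (Quot fun S S' : {S : CohSys K n d k // Stable α S ∧ Simple S} => Iso S.1 S'.1) := by
  obtain ⟨Φ⟩ := quot_equiv (K := K) (d := d) hn hk hα
  have := (finite_cl (K := K) (s := s3) (t := t3) ![d, n + d, k]).to_subtype
  have : Finite {S : StC K s3 t3 (w3 n d k α) // S.dv = ![d, n + d, k] ∧ S.q = Nat.card K} :=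
    Finite.of_injective (fun S => (⟨S.1.1, S.2.1⟩ : {C : Cl K s3 t3 | Cl.dv C = ![d, n + d, k]}))
      fun S S' h => Subtype.ext (StC.ext (congrArg Subtype.val h))
  exact Finite.of_equiv _ Φ.symm

theorem card_eq_cnt [Finite K] (hn : 0 < n) (hk : 0 < k) {α : ℝ} (hα : 0 < α) :
    (Nat.card (Quot fun S S' : {S : CohSys K n d k // Stable α S ∧ Simple S} => Iso S.1 S'.1) : ℚ) =
      cnt (wgt n d k α) ![d, n + d, k] (Nat.card K) := by
  rw [card_quot hn hk hα, absN_eq K _ _ (dim_ne hn) (by rw [tw_w3, wgt_self]), tw_w3]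

end Pool.Agent.P.MP_d34769_ag
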