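import Pool.Agent.K.MP_d34769_ag.C149
import Pool.Agent.K.MP_d34769_ag.C17
import Pool.Agent.K.MP_d34769_ag.C147
import Pool.Agent.K.MP_d34769_ag.C47
import Pool.Agent.K.MP_d34769_ag.C26
import Pool.Agent.K.MP_d34769_ag.C19

-- part Pool.Agent.P.MP_d34769_ag.FL4
section

/-! From matrices to cochains. -/

noncomputable section
namespace Pool.Agent.P.MP_d34769_ag.FL

open Module Classical QR Matrix

section basis
variable {ι A : Type} {s t : A → ι}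

noncomputable def dlL (X Y : QR ℂ s t) : Fam X Y →ₗ[ℂ] C1 X Y where
  toFun := dl
  map_add' := dl_add
  map_smul' := dl_smul

lemma exists_basis [Fintype ι] [Fintype A] (X Y : QR ℂ s t) (a : ℕ)
    (h : a + ∑ v, X.dv v * Y.dv v =
      ∑ e, X.dv (s e) * Y.dv (t e) + finrank ℂ (LinearMap.ker (dlL X Y))) :
    ∃ ε : Fin a → C1 X Y, ∀ g, ∃! τ : Fin a → ℂ, ∃ f, g = ∑ l, τ l • ε l + dl f := by
  obtain ⟨W, hW⟩ := Submodule.exists_isCompl (LinearMap.range (dlL X Y))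
  have h1 := Submodule.finrank_add_eq_of_isCompl hW
  have h2 := LinearMap.finrank_range_add_finrank_ker (dlL X Y)
  have h3 : finrank ℂ (Fam X Y) = ∑ v, X.dv v * Y.dv v := by
    rw [Module.finrank_pi_fintype]
    exact Finset.sum_congr rfl fun v _ => Module.finrank_linearMap ℂ ℂ _ _
  have h4 : finrank ℂ (C1 X Y) = ∑ e, X.dv (s e) * Y.dv (t e) := by
    rw [Module.finrank_pi_fintype]
    exact Finset.sum_congr rfl fun v _ => Module.finrank_linearMap ℂ ℂ _ _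
  let B := Module.finBasisOfFinrankEq ℂ W (show finrank ℂ W = a by omega)
  have hB : ∀ τ : Fin a → ℂ, ∑ l, τ l • (B l : C1 X Y) = (B.equivFun.symm τ : W) := fun τ => by
    rw [Basis.equivFun_symm_apply, Submodule.coe_sum]
    rfl
  refine ⟨fun l => B l, fun g => ?_⟩
  obtain ⟨_, ⟨f, rfl⟩, x, hx, rfl⟩ := Submodule.mem_sup.1 (hW.sup_eq_top ▸ Submodule.mem_top (x := g))
  refine ⟨B.equivFun ⟨x, hx⟩, ⟨f, by rw [hB, LinearEquiv.symm_apply_apply, add_comm]; rfl⟩, ?_⟩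
  rintro τ ⟨f', e⟩
  rw [hB] at e
  apply B.equivFun.symm.injective
  rw [LinearEquiv.symm_apply_apply, ← sub_eq_zero]
  refine Subtype.ext (Submodule.disjoint_def.1 hW.disjoint _ ⟨f - f', ?_⟩ (Submodule.coe_mem _))
  rw [map_sub, Submodule.coe_sub, sub_eq_sub_iff_add_eq_add, e]
  rfl

lemma finrank_ker {J : Type} (R : J → QR ℂ s t)
    (hom : ∀ i j f, QR.IsHom (R i) (R j) f → ∃ c : ℂ, f = c • idc R i j) (ne : ∀ i, (R i).dv ≠ 0)
    (i j : J) : finrank ℂ (LinearMap.ker (dlL (R i) (R j))) = if i = j then 1 else 0 := by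
  have h : LinearMap.ker (dlL (R i) (R j)) = Submodule.span ℂ {idc R i j} := by
    refine le_antisymm (fun f hf => ?_) ((Submodule.span_singleton_le_iff_mem _ _).2
      (dl_eq_zero.2 (isHom_idc R i j)))
    obtain ⟨c, rfl⟩ := hom i j f (dl_eq_zero.1 hf)
    exact Submodule.smul_mem _ _ (Submodule.mem_span_singleton_self _)
  rw [h]
  split_ifs with h1
  · subst h1
    refine finrank_span_singleton fun h2 => ne i (funext fun v => ?_)
    rw [idc_self] at h2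
    have : Subsingleton ((R i).M v) := ⟨fun x y =>
      (LinearMap.congr_fun (congrFun h2 v) x).trans (LinearMap.congr_fun (congrFun h2 v) y).symm⟩
    exact Module.finrank_zero_of_subsingleton
  · rw [idc_ne R h1, Submodule.span_zero_singleton, finrank_bot]

lemma sum_rc {X Y Z : QR ℂ s t} {κ : Type} [Fintype κ] (c : κ → ℂ) (g : κ → C1 Y Z) (f : Fam X Y) :
    rc (∑ l, c l • g l) f = ∑ l, c l • rc (g l) f := c1_ext fun e x => by
  simp only [rc_apply, Finset.sum_apply, LinearMap.sum_apply, Pi.smul_apply, LinearMap.smul_apply]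

lemma isHom_pi {J : Type} {a : J → J → ℕ} (D : LD s t a) (M : LRep a) {X : QR ℂ s t}
    (F : ∀ b, Fam X (D.R (M.c b))) :
    QR.IsHom X (D.G M) (fun v => LinearMap.pi fun b => F b v) ↔
      ∀ b', dl (F b') = ∑ b, rc (D.E M b' b) (F b) := by
  have key : ∀ e x b', (F b' (t e) (X.a e x) = (D.G M).a e (fun b => F b (s e) x) b') ↔
      dl (F b') e x = (∑ b, rc (D.E M b' b) (F b)) e x := fun e x b' => by
    rw [D.G_a, dl_apply, sub_eq_iff_eq_add', Finset.sum_apply, LinearMap.sum_apply]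
    rfl
  exact ⟨fun h b' => c1_ext fun e x => (key e x b').1 (congrFun (h e x) b'),
    fun h e x => funext fun b' => (key e x b').2 (by rw [h b'])⟩

end basis

abbrev T3 (p d k : ℕ) :=
  Matrix (Fin p) (Fin d) ℂ × Matrix (Fin p) (Fin d) ℂ × Matrix (Fin p) (Fin k) ℂ

section three
variable {n d k n' d' k' n'' d'' k'' : ℕ} (ρ : Rep ℂ n d k) (σ : Rep ℂ n' d' k')

noncomputable def toC0 (g : T3 (n' + d') d k) : C1 (toQR ρ) (toQR σ)
  | ⟨0, _⟩ => g.1.mulVecLin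
  | ⟨1, _⟩ => g.2.1.mulVecLin
  | ⟨2, _⟩ => g.2.2.mulVecLin

noncomputable def toC : T3 (n' + d') d k →ₗ[ℂ] C1 (toQR ρ) (toQR σ) where
  toFun := toC0 ρ σ
  map_add' g g' := funext fun e => by
    fin_cases e
    · exact Matrix.mulVecLin_add g.1 g'.1
    · exact Matrix.mulVecLin_add g.2.1 g'.2.1
    · exact Matrix.mulVecLin_add g.2.2 g'.2.2
  map_smul' c g := funext fun e => by
    fin_cases e
    · exact Matrix.toLin'.map_smul c g.1
    · exact Matrix.toLin'.map_smul c g.2.1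
    · exact Matrix.toLin'.map_smul c g.2.2

lemma toC_inj : Function.Injective (toC ρ σ) := fun _ _ h =>
  Prod.ext (Matrix.toLin'.injective (congrFun h 0))
    (Prod.ext (Matrix.toLin'.injective (congrFun h 1)) (Matrix.toLin'.injective (congrFun h 2)))

lemma toC_surj : Function.Surjective (toC ρ σ) := fun g => by
  refine ⟨(LinearMap.toMatrix' (g 0), LinearMap.toMatrix' (g 1), LinearMap.toMatrix' (g 2)),
    funext fun e => ?_⟩
  fin_cases e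
  · exact Matrix.toLin'_toMatrix' (g 0)
  · exact Matrix.toLin'_toMatrix' (g 1)
  · exact Matrix.toLin'_toMatrix' (g 2)

noncomputable def toF (P₁ : Matrix (Fin d') (Fin d) ℂ) (P₀ : Matrix (Fin (n' + d')) (Fin (n + d)) ℂ)
    (Q : Matrix (Fin k') (Fin k) ℂ) : Fam (toQR ρ) (toQR σ)
  | ⟨0, _⟩ => P₁.mulVecLin
  | ⟨1, _⟩ => P₀.mulVecLin
  | ⟨2, _⟩ => Q.mulVecLin

lemma toF_surj (f : Fam (toQR ρ) (toQR σ)) : ∃ P₁ P₀ Q, toF ρ σ P₁ P₀ Q = f := by
  refine ⟨LinearMap.toMatrix' (f 0), LinearMap.toMatrix' (f 1), LinearMap.toMatrix' (f 2),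
    funext fun e => ?_⟩
  fin_cases e
  · exact Matrix.toLin'_toMatrix' (f 0)
  · exact Matrix.toLin'_toMatrix' (f 1)
  · exact Matrix.toLin'_toMatrix' (f 2)

lemma toC_cbd (P₁ P₀ Q) : toC ρ σ (cbd ρ σ P₁ P₀ Q) = dl (toF ρ σ P₁ P₀ Q) := by
  have key : ∀ {a a' : ℕ} (X : Matrix (Fin (n + d)) (Fin a) ℂ) (X' : Matrix (Fin (n' + d')) (Fin a') ℂ)
      (P : Matrix (Fin a') (Fin a) ℂ) (u), (P₀ * X - X' * P) *ᵥ u = P₀ *ᵥ X *ᵥ u - X' *ᵥ P *ᵥ u :=
    fun X X' P u => by rw [Matrix.sub_mulVec, Matrix.mulVec_mulVec, Matrix.mulVec_mulVec]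
  refine c1_ext fun e => ?_
  fin_cases e
  · exact key ρ.x σ.x P₁
  · exact key ρ.y σ.y P₁
  · exact key ρ.z σ.z Q

lemma rc_toC (ξ : Rep ℂ n'' d'' k'') (g : T3 (n'' + d'') d' k') (P₁ P₀ Q) :
    rc (toC σ ξ g) (toF ρ σ P₁ P₀ Q) = toC ρ ξ (g.1 * P₁, g.2.1 * P₁, g.2.2 * Q) := by
  funext e
  fin_cases e
  · exact (Matrix.mulVecLin_mul g.1 P₁).symm
  · exact (Matrix.mulVecLin_mul g.2.1 P₁).symm
  · exact (Matrix.mulVecLin_mul g.2.2 Q).symm

lemma basis_iff {a : ℕ} (ε : Fin a → T3 (n' + d') d k) (g : T3 (n' + d') d k) (τ : Fin a → ℂ) :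
    (∃ f, toC ρ σ g = ∑ l, τ l • toC ρ σ (ε l) + dl f) ↔
      ∃ P₁ P₀ Q, g = ∑ l, τ l • ε l + cbd ρ σ P₁ P₀ Q := by
  have key : ∀ P₁ P₀ Q, toC ρ σ (∑ l, τ l • ε l + cbd ρ σ P₁ P₀ Q) =
      ∑ l, τ l • toC ρ σ (ε l) + dl (toF ρ σ P₁ P₀ Q) := fun P₁ P₀ Q => by
    simp only [map_add, map_sum, map_smul, toC_cbd]
  constructor
  · rintro ⟨f, h⟩
    obtain ⟨P₁, P₀, Q, rfl⟩ := toF_surj ρ σ f
    exact ⟨P₁, P₀, Q, toC_inj ρ σ (h.trans (key _ _ _).symm)⟩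
  · rintro ⟨P₁, P₀, Q, rfl⟩
    exact ⟨_, key _ _ _⟩

end three

variable {α μ : ℝ}

lemma ne_toQR (R : ∀ i : Vtx α μ, Rep ℂ i.n i.d i.k) (i : Vtx α μ) : (toQR (R i)).dv ≠ 0 := by
  rw [dv_toQR]
  exact dim_ne i.pos

lemma nonempty_loc (R : ∀ i : Vtx α μ, Rep ℂ i.n i.d i.k)
    (hR : ∀ i, ∃ S, Quot.mk _ S = i.pt ∧ Presents S.1 (R i))
    (hom : ∀ i j f, QR.IsHom (toQR (R i)) (toQR (R j)) f →
      ∃ c : ℂ, f = c • idc (fun i => toQR (R i)) i j) : Nonempty (Loc α μ) := by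
  have h : ∀ i j, ∃ ε : Fin (arr α μ i j) → T3 (j.n + j.d) i.d i.k, ∀ g,
      ∃! τ : Fin (arr α μ i j) → ℂ, ∃ P₁ P₀ Q,
        g = ∑ l, τ l • ε l + cbd (R i) (R j) P₁ P₀ Q := fun i j => by
    have h1 := finrank_ker (fun i => toQR (R i)) hom (ne_toQR R) i j
    have h2 := LinearMap.finrank_range_add_finrank_ker (dlL (toQR (R i)) (toQR (R j)))
    have h3 : finrank ℂ (Fam (toQR (R i)) (toQR (R j))) =
        ∑ v, (toQR (R i)).dv v * (toQR (R j)).dv v := by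
      rw [Module.finrank_pi_fintype]
      exact Finset.sum_congr rfl fun v _ => Module.finrank_linearMap ℂ ℂ _ _
    have h4 : finrank ℂ (C1 (toQR (R i)) (toQR (R j))) =
        ∑ e, (toQR (R i)).dv (s3 e) * (toQR (R j)).dv (t3 e) := by
      rw [Module.finrank_pi_fintype]
      exact Finset.sum_congr rfl fun v _ => Module.finrank_linearMap ℂ ℂ _ _
    have h5 := Submodule.finrank_le (LinearMap.range (dlL (toQR (R i)) (toQR (R j))))
    obtain ⟨ε, hε⟩ := exists_basis (toQR (R i)) (toQR (R j)) (arr α μ i j) (by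
      rw [h3, h1] at h2
      rw [h4] at h5
      rw [h1]
      rw [dv_toQR, dv_toQR] at h2 h5 ⊢
      simp only [Fin.sum_univ_three, s3, t3, Matrix.cons_val] at h2 h5 ⊢
      zify at h2 h5 ⊢
      rw [arr, Int.toNat_of_nonneg (by linarith)]
      ring)
    choose ε' hε' using fun l => toC_surj (R i) (R j) (ε l)
    refine ⟨ε', fun g => ?_⟩
    simp only [← basis_iff, hε']
    exact hε _
  choose ε hε using h
  exact ⟨⟨R, hR, ε, hε⟩⟩

variable (L : Loc α μ) (hom : ∀ i j f, QR.IsHom (toQR (L.R i)) (toQR (L.R j)) f →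
  ∃ c : ℂ, f = c • idc (fun i => toQR (L.R i)) i j)

@[reducible] noncomputable def ld : LD s3 t3 (arr α μ) where
  R i := toQR (L.R i)
  ε i j l := toC _ _ (L.ε i j l)
  basis i j g := by
    obtain ⟨g, rfl⟩ := toC_surj _ _ g
    simp only [basis_iff]
    exact L.basis i j g
  hom := hom
  ne := ne_toQR L.R

lemma dv_ld (M : LRep (arr α μ)) :
    ((ld L hom).G M).dv = ![(typ M).2.1, (typ M).1 + (typ M).2.1, (typ M).2.2] := by
  rw [LD.dv_G]
  funext v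
  simp only [Finset.sum_apply, dv_toQR, typ, Prod.fst_sum, Prod.snd_sum]
  fin_cases v <;> simp [Finset.sum_add_distrib]

lemma built_iff {n d k : ℕ} (S : CohSys ℂ n d k) (M : LRep (arr α μ)) :
    Built L S M ↔ ∃ ρ, Presents S ρ ∧ Isom (toQR ρ) ((ld L hom).G M) := by
  refine exists_congr fun ρ => and_congr_right fun _ => ?_
  have key : ∀ (P₁ : ∀ b, Matrix (Fin (M.c b).d) (Fin d) ℂ)
      (P₀ : ∀ b, Matrix (Fin ((M.c b).n + (M.c b).d)) (Fin (n + d)) ℂ)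
      (Q : ∀ b, Matrix (Fin (M.c b).k) (Fin k) ℂ),
      QR.IsHom (toQR ρ) ((ld L hom).G M)
        (fun v => LinearMap.pi fun b => toF ρ (L.R (M.c b)) (P₁ b) (P₀ b) (Q b) v) ↔
      ∀ b', cbd ρ (L.R (M.c b')) (P₁ b') (P₀ b') (Q b') = ∑ b, ∑ l, M.m (M.c b) (M.c b') l b' b •
        ((L.ε (M.c b) (M.c b') l).1 * P₁ b, (L.ε (M.c b) (M.c b') l).2.1 * P₁ b,
          (L.ε (M.c b) (M.c b') l).2.2 * Q b) := fun P₁ P₀ Q => by
    rw [isHom_pi (ld L hom) M fun b => toF ρ (L.R (M.c b)) (P₁ b) (P₀ b) (Q b)]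
    refine forall_congr' fun b' => ?_
    rw [← (toC_inj ρ (L.R (M.c b'))).eq_iff, toC_cbd, map_sum]
    refine Eq.congr_right (Finset.sum_congr rfl fun b _ => ?_)
    rw [LD.E, LD.sm_apply, sum_rc, map_sum]
    exact Finset.sum_congr rfl fun l _ => by rw [map_smul, rc_toC]
  constructor
  · rintro ⟨P₁, P₀, Q, h1, h0, h2, h⟩
    refine ((key P₁ P₀ Q).2 h).isom fun v => ?_
    fin_cases v
    · exact h1
    · exact h0
    · exact h2
  · rintro ⟨φ⟩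
    choose P₁ P₀ Q h using fun b => toF_surj ρ (L.R (M.c b))
      fun v => LinearMap.proj b ∘ₗ φ.fam v
    have e : φ.fam = fun v => LinearMap.pi fun b =>
        toF ρ (L.R (M.c b)) (P₁ b) (P₀ b) (Q b) v := by
      simp only [h]
      rfl
    have h1 := φ.inj
    have h2 := φ.surj
    have h3 := φ.isHom
    rw [e] at h1 h2 h3
    exact ⟨P₁, P₀, Q, ⟨h1 0, h2 0⟩, ⟨h1 1, h2 1⟩, ⟨h1 2, h2 2⟩, (key P₁ P₀ Q).1 h3⟩

end Pool.Agent.P.MP_d34769_ag.FL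
end
end

-- part Pool.Agent.P.MP_d34769_ag.FL5
section

/-! The systems which are stable near a critical value, through the local quiver. -/

namespace Pool.Agent.P.MP_d34769_ag.FL

open Module Classical QR Matrix

variable {α μ : ℝ} {n d k : ℕ}

lemma typ_pos (M : LRep (arr α μ)) (h : 0 < M.s) : 0 < (typ M).1 := by
  rw [typ, Prod.fst_sum]
  exact Finset.sum_pos (fun b _ => (M.c b).pos) ⟨⟨0, h⟩, Finset.mem_univ _⟩

lemma tw_lt_iff (hn : 0 < n) (β : ℝ) {n' : ℕ} (d' k' : ℕ) (hn' : 0 < n') :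
    tw (w3 n d k β) ![d', n' + d', k'] < 0 ↔
      ((d' : ℝ) + β * k') / n' < ((d : ℝ) + β * k) / n := by
  rw [div_lt_div_iff₀ (by exact_mod_cast hn') (by exact_mod_cast hn), tw_w3, wgt]
  simp only [Matrix.cons_val, Nat.cast_add]
  constructor <;> intro h <;> linarith

variable (hn : 0 < n) (hk : 0 < k) (hα : 0 < α) (hμ : ((d : ℝ) + α * k) / n = μ)
include hn hk hα hμ

lemma vtx_hom {R : ∀ i : Vtx α μ, Rep ℂ i.n i.d i.k}
    (hR : ∀ i, ∃ S, Quot.mk _ S = i.pt ∧ Presents S.1 (R i)) (i j : Vtx α μ)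
    (f : Fam (toQR (R i)) (toQR (R j))) (hf : QR.IsHom _ _ f) :
    ∃ c : ℂ, f = c • idc (fun i => toQR (R i)) i j := by
  by_cases h : i = j
  · subst h
    rw [idc_self]
    exact (vtx_st hn hk hα hμ hR i).scal hf
  · refine ⟨0, ?_⟩
    rw [zero_smul]
    by_contra h0
    exact h (vtx_inj hR (hf.isom
      ((vtx_st hn hk hα hμ hR i).bij (vtx_st hn hk hα hμ hR j) hf h0)))

theorem loc_nonempty : Nonempty (Loc α μ) := by
  obtain ⟨R, hR⟩ := vtx_pres (α := α) (μ := μ) hα (by rw [← hμ]; positivity)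
  exact nonempty_loc R hR (vtx_hom hn hk hα hμ hR)

theorem local_model {β : ℝ} (hβ : 0 < β)
    (hε : ∀ e ≤ ![d, n + d, k], wgt n d k α e < 0 → wgt n d k β e < 0) (L : Loc α μ) :
    (∀ S : CohSys ℂ n d k, Stable β S → ∃ M, Built L S M) ∧
    (∀ M, typ M = (n, d, k) → LSt β M → ∃ S : CohSys ℂ n d k, Built L S M) ∧
    ∀ (S : CohSys ℂ n d k) M, Built L S M → typ M = (n, d, k) ∧ (Stable β S ↔ LSt β M) ∧
      (Stable α S ↔ M.s = 1) ∧ ∀ S' M', Built L S' M' → (Iso S S' ↔ LIso M M') := by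
  have hom := vtx_hom hn hk hα hμ L.pres
  have hst : ∀ i, St (w3 n d k α) ((ld L hom).R i) := vtx_st hn hk hα hμ L.pres
  have hc : ∀ X : QR ℂ s3 t3, St (w3 n d k α) X → ∃ i, Isom ((ld L hom).R i) X :=
    vtx_all hn hk hα hμ L.pres
  have key : ∀ M, typ M = (n, d, k) → (St (w3 n d k β) ((ld L hom).G M) ↔ LSt β M) := by
    intro M hM
    have h1 : ((ld L hom).G M).dv = ![d, n + d, k] := by rw [dv_ld, hM]
    rw [(ld L hom).st_iff hst hc (by rw [h1, tw_w3, wgt_self]) (by rw [h1]; exact dim_ne hn)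
      (by rw [h1, tw_w3, tw_w3]; exact hε), LSt, hM]
    refine forall_congr' fun N => forall_congr' fun P => forall_congr' fun _ =>
      forall_congr' fun _ => forall_congr' fun h2 => forall_congr' fun _ => ?_
    rw [dv_ld, tw_lt_iff hn β _ _ (typ_pos N h2)]
  refine ⟨fun S hS => ?_, fun M hM hS => ?_, fun S M hB => ?_⟩
  · obtain ⟨ρ, φ, hρ⟩ := exists_pres S (hS.nn hβ hk)
    have h1 := (qstable_iff hn).1 ((hρ.stable_iff hβ hn hk).1 hS)
    obtain ⟨M, hM⟩ := (ld L hom).ess_surj hc _ (toQR ρ) (Nat.lt_succ_self _)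
      ⟨by rw [dv_toQR, tw_w3, wgt_self], fun U hU => by
        by_contra h2
        have h3 : ds U ≤ ![d, n + d, k] := dv_toQR ρ ▸ ds_le U
        have h4 : ∀ γ, wgt n d k γ (![d, n + d, k] - ds U) = -th (w3 n d k γ) U := fun γ => by
          have h5 := tw_add (w3 n d k γ) (![d, n + d, k] - ds U) (ds U)
          rw [tsub_add_cancel_of_le h3, tw_w3, wgt_self] at h5
          rw [th, tw_w3]
          linarith
        have h6 := hε _ tsub_le_self (by rw [h4]; linarith)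
        have h7 := h1.np U hU
        rw [h4] at h6
        linarith⟩
    exact ⟨M, (built_iff L hom S M).2 ⟨ρ, (presents_iff _ _).2 ⟨φ, hρ⟩, hM⟩⟩
  · obtain ⟨σ, h1⟩ := exists_std ((ld L hom).G M) (e := ![d, n + d, k]) (by rw [dv_ld, hM])
    obtain ⟨ρ, rfl⟩ := toStr_surj σ
    have h2 : QStable β ρ := (qstable_iff hn).2 (((key M hM).2 hS).of_isom h1.symm)
    obtain ⟨S, φ, h3⟩ := exists_sys (h2.good hβ hk) (h2.injz hβ hn)
    exact ⟨S, (built_iff L hom S M).2 ⟨ρ, (presents_iff _ _).2 ⟨φ, h3⟩, h1⟩⟩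
  · obtain ⟨ρ, h1, h2⟩ := (built_iff L hom S M).1 hB
    obtain ⟨φ, h1⟩ := (presents_iff _ _).1 h1
    have h3 := h2.dv_eq
    rw [dv_toQR, dv_ld] at h3
    have hM : typ M = (n, d, k) := by
      have e0 : d = (typ M).2.1 := congrFun h3 0
      have e1 : n + d = (typ M).1 + (typ M).2.1 := congrFun h3 1
      have e2 : k = (typ M).2.2 := congrFun h3 2
      exact Prod.ext (by change _ = n; omega) (Prod.ext e0.symm e2.symm)
    have h4 : ∀ γ, 0 < γ → (Stable γ S ↔ St (w3 n d k γ) ((ld L hom).G M)) := fun γ hγ => by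
      rw [h1.stable_iff hγ hn hk, qstable_iff hn]
      exact ⟨fun h => h.of_isom h2, fun h => h.of_isom h2.symm⟩
    refine ⟨hM, (h4 β hβ).trans (key M hM), (h4 α hα).trans ((ld L hom).st_iff_one hst hc
      (by rw [← h2.dv_eq, dv_toQR]; exact dim_ne hn)), fun S' M' hB' => ?_⟩
    obtain ⟨ρ', h5, h6⟩ := (built_iff L hom S' M').1 hB'
    obtain ⟨φ', h5⟩ := (presents_iff _ _).1 h5
    rw [h1.iso_iff h5, qiso_iff, ← (ld L hom).isom_iff]
    exact ⟨fun h => h2.symm.trans (h.trans h6), fun h => h2.trans (h.trans h6.symm)⟩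

omit hn hk hα hμ in
/-- The flip loci. -/
theorem flipsL (n d k : ℕ) (hn : 0 < n) (hk : 0 < k) (α : ℝ) (hα : 0 < α) :
    ∃ ε > 0, ∀ β γ μ : ℝ, 0 < β → 0 < γ → |β - α| < ε → |γ - α| < ε → (β - α) * (γ - α) < 0 →
      (d + α * k) / n = μ → Nonempty (Loc α μ) ∧ ∀ L : Loc α μ,
      (∀ S : CohSys ℂ n d k, Stable β S → ∃ M, Built L S M) ∧
      (∀ M, typ M = (n, d, k) → LSt β M → ∃ S : CohSys ℂ n d k, Built L S M) ∧
      ∀ (S : CohSys ℂ n d k) M, Built L S M → typ M = (n, d, k) ∧ (Stable β S ↔ LSt β M) ∧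
        (Stable β S ∧ Stable γ S ↔ M.s = 1) ∧
        ∀ S' M', Built L S' M' → (Iso S S' ↔ LIso M M') := by
  obtain ⟨ε, h1, h2⟩ := mainC n d k hn hk α hα
  obtain ⟨δ, h3, h4⟩ := exists_eps n d k α
  refine ⟨min ε δ, lt_min h1 h3, fun β γ μ hβ hγ h5 h6 h7 hμ =>
    ⟨loc_nonempty hn hk hα hμ, fun L => ?_⟩⟩
  have h8 := (h2 β γ hβ hγ (h5.trans_le (min_le_left _ _)) (h6.trans_le (min_le_left _ _)) h7).1 ℂ
  simp only [← h8]
  exact local_model hn hk hα hμ hβ (h4 β (h5.trans_le (min_le_right _ _))) L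

end Pool.Agent.P.MP_d34769_ag.FL
end

-- part Pool.Agent.P.MP_d34769_ag.FL6
section

/-! The flip loci as the stable nilpotent representations of length greater than one. -/

namespace Pool.Agent.P.MP_d34769_ag.FL

open Matrix

lemma Built.pos {α μ : ℝ} {n d k : ℕ} (hn : 0 < n) {L : Loc α μ} {S : CohSys ℂ n d k}
    {M : LRep (arr α μ)} (h : Built L S M) : 0 < M.s := by
  obtain ⟨ρ, -, P₁, P₀, Q, -, h0, -⟩ := h
  refine Nat.pos_of_ne_zero fun e => ?_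
  have : IsEmpty (Fin M.s) := e ▸ Fin.isEmpty
  exact zero_ne_one (congrFun (h0.1 (a₁ := 0) (a₂ := 1) (Subsingleton.elim _ _)) ⟨0, by omega⟩)

theorem flipsM (n d k : ℕ) (hn : 0 < n) (hk : 0 < k) (α : ℝ) (hα : 0 < α) :
    ∃ ε > 0, ∀ β γ μ : ℝ, 0 < β → 0 < γ → |β - α| < ε → |γ - α| < ε → (β - α) * (γ - α) < 0 →
      (d + α * k) / n = μ → Nonempty (Loc α μ) ∧ ∀ L : Loc α μ,
      (∀ S : CohSys ℂ n d k, Stable β S → ∃ M, Built L S M) ∧
      (∀ M, typ M = (n, d, k) → LSt β M → ∃ S : CohSys ℂ n d k, Built L S M) ∧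
      ∀ (S : CohSys ℂ n d k) M, Built L S M → typ M = (n, d, k) ∧ (Stable β S ↔ LSt β M) ∧
        (Stable β S ∧ ¬ Stable γ S ↔ LSt β M ∧ 1 < M.s) ∧
        ∀ S' M', Built L S' M' → (Iso S S' ↔ LIso M M') := by
  obtain ⟨ε, h0, h⟩ := flipsL n d k hn hk α hα
  refine ⟨ε, h0, fun β γ μ a b c e f g => ?_⟩
  obtain ⟨h2, h3⟩ := h β γ μ a b c e f g
  refine ⟨h2, fun L => ⟨(h3 L).1, (h3 L).2.1, fun S M hB => ?_⟩⟩
  obtain ⟨h1, h4, h5, h6⟩ := (h3 L).2.2 S M hB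
  have h7 := Built.pos hn hB
  refine ⟨h1, h4, ?_, h6⟩
  rw [← h4]
  refine and_congr_right fun hS => ⟨fun hγ => ?_, fun h8 hγ => ?_⟩
  · have : M.s ≠ 1 := fun e => hγ (h5.2 e).2
    omega
  · have := h5.1 ⟨hS, hγ⟩
    omega

end Pool.Agent.P.MP_d34769_ag.FL
end

-- part Pool.Agent.P.MP_d34769_ag.YZ0
section

/-! Families of subcomplexes over the open sets of a space, and gluing of local isomorphisms. -/

open Set

noncomputable section
namespace Pool.Agent.CS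

variable {X T T' : Type} [AddCommGroup T] [Module ℂ T] [AddCommGroup T'] [Module ℂ T']

section rank
variable {C : Cx T} {C' : Cx T'} {f : T →ₗ[ℂ] T'} {s n m : ℤ}

theorem Cx.QIa.rank (q : C.QIa C' f s) (h : C.Mor C' f s) (e : n + s = m) :
    Module.rank ℂ (C.H n) = Module.rank ℂ (C'.H m) :=
  (LinearEquiv.ofBijective (h.hm e)
    ⟨(h.inj_iff e).1 (q.inj n), (h.sur_iff e).1 (q.sur n)⟩).rank_eq

theorem Cx.ac_iff_rank : C.Ac n ↔ Module.rank ℂ (C.H n) = 0 := by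
  rw [rank_zero_iff_forall_zero]
  refine ⟨fun h a => ?_, fun h x hx => (Cx.cls_eq_zero (x := ⟨x, hx⟩)).1 (h _)⟩
  obtain ⟨x, rfl⟩ := Cx.cls_surj n a
  exact Cx.cls_eq_zero.2 (h x.2)

theorem Cx.le1_of_rank (h : Module.rank ℂ (C.H n) ≤ 1) : C.Le1 n := by
  obtain ⟨a, ha⟩ := rank_le_one_iff.1 h
  obtain ⟨x, rfl⟩ := Cx.cls_surj n a
  refine ⟨x.1, x.2, fun b hb => ?_⟩
  obtain ⟨r, e⟩ := ha (C.cls n ⟨b, hb⟩)
  exact ⟨r, Cx.cls_eq.1 (e.symm.trans (map_smul _ _ _).symm)⟩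

end rank

variable [TopologicalSpace X]

/-- a family of subcomplexes with compact supports and the Mayer-Vietoris property -/
structure Fm (C : Cx T) (𝒜 : Set X → Submodule ℂ T) : Prop where
  d : ∀ V, ∀ x ∈ 𝒜 V, C.d x ∈ 𝒜 V
  N : ∀ V, C.N ≤ 𝒜 V
  mono : ∀ {U V}, U ⊆ V → 𝒜 U ≤ 𝒜 V
  empty : 𝒜 ∅ ≤ C.N
  inf : ∀ U V, 𝒜 U ⊓ 𝒜 V ≤ 𝒜 (U ∩ V)
  small : ∀ {U V}, IsOpen U → IsOpen V → ∀ n, ∀ x ∈ C.G n, x ∈ 𝒜 (U ∪ V) → C.d x ∈ 𝒜 U ⊔ 𝒜 V →
    ∃ b ∈ C.G (n - 1) ⊓ 𝒜 (U ∪ V), ∃ a ∈ C.G n ⊓ 𝒜 U, x - C.d b - a ∈ 𝒜 V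
  cpt : ∀ V, ∀ x ∈ 𝒜 V, ∃ K, IsCompact K ∧ K ⊆ V ∧ ∀ O, K ⊆ O → x ∈ 𝒜 O

namespace Fm
variable {C : Cx T} {C' : Cx T'} {𝒜 : Set X → Submodule ℂ T} {𝒜' : Set X → Submodule ℂ T'}
  {f : T →ₗ[ℂ] T'} {s : ℤ} {U V : Set X}

/-- the complex of the set `V` -/
abbrev on (h : Fm C 𝒜) (V : Set X) : Cx T := C.sub (𝒜 V) (h.d V)

theorem sub_inf (h : Fm C 𝒜) (U V : Set X) : (h.on U).sub (𝒜 V) (h.d V) = h.on (U ∩ V) :=
  Cx.ext_YA2 rfl (funext fun n => (inf_assoc _ _ _).trans (congrArg (C.G n ⊓ ·) (le_antisymm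
    (h.inf U V) (le_inf (h.mono inter_subset_left) (h.mono inter_subset_right))))) rfl

theorem exc_mor (h : Fm C 𝒜) (U V : Set X) : ((h.on U).quo (𝒜 V) (h.d V) (h.N V)).Mor
    ((h.on (U ∪ V)).quo (𝒜 V) (h.d V) (h.N V)) LinearMap.id 0 :=
  ⟨fun n _ hx => ⟨Cx.Gcast hx.1 (add_zero n).symm, h.mono subset_union_left hx.2⟩,
    fun _ _ _ hx => hx, fun _ _ _ => Cx.meq (zero_mem _) (sub_self _).symm⟩

theorem exc (h : Fm C 𝒜) (hU : IsOpen U) (hV : IsOpen V) :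
    ((h.on U).quo (𝒜 V) (h.d V) (h.N V)).QIa ((h.on (U ∪ V)).quo (𝒜 V) (h.d V) (h.N V))
      LinearMap.id 0 := by
  refine Cx.qia_iff.2 fun n => ⟨fun x hx hb => ?_, fun y hy => ?_⟩
  · obtain ⟨b, hb, e⟩ := (Cx.mem_quoB _ _ (n := n - 1) (by ring)).1 hb
    have e : x - C.d b ∈ 𝒜 V := e
    obtain ⟨b', hb', a, ha, e'⟩ := h.small hU hV _ b hb.1 hb.2 (Cx.meq (sub_mem
      (Submodule.mem_sup_left hx.1.2) (Submodule.mem_sup_right e)) (sub_sub_cancel _ _))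
    refine (Cx.mem_quoB _ _ (n := n - 1) (by ring)).2 ⟨a, ha, Cx.meq
      (add_mem (add_mem e (h.d V _ e')) (h.N V (C.dd _ b' hb'.1))) ?_⟩
    show _ = x - C.d a
    simp only [map_sub]
    abel
  · rw [add_zero] at hy ⊢
    have e : C.d y ∈ 𝒜 V := hy.2
    obtain ⟨b, hb, a, ha, e'⟩ := h.small hU hV _ y hy.1.1 hy.1.2 (Submodule.mem_sup_right e)
    have e2 : C.d a ∈ 𝒜 V := Cx.meq (sub_mem (sub_mem e (h.d V _ e')) (h.N V (C.dd _ b hb.1)))
      (by simp only [map_sub]; abel)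
    exact ⟨a, ⟨ha, e2⟩,
      (Cx.mem_quoB _ _ (n := n - 1) (by ring)).2 ⟨b, hb, Cx.meq e' (sub_right_comm _ _ _)⟩⟩

variable (h : Fm C 𝒜) (h' : Fm C' 𝒜') (m : ∀ V, (h.on V).Mor (h'.on V) f s)
include m

theorem union (hU : IsOpen U) (hV : IsOpen V) (qU : (h.on U).QIa (h'.on U) f s)
    (qV : (h.on V).QIa (h'.on V) f s) (qI : (h.on (U ∩ V)).QIa (h'.on (U ∩ V)) f s) :
    (h.on (U ∪ V)).QIa (h'.on (U ∪ V)) f s := by
  have hf : ∀ O n, ∀ x ∈ (h.on O).G n, x ∈ 𝒜 V → f x ∈ 𝒜' V := fun O n x hx hV =>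
    ((m V).fG n x ⟨hx.1, hV⟩).2
  have q1 : ((h.on U).quo _ (h.d V) (h.N V)).QIa ((h'.on U).quo _ (h'.d V) (h'.N V)) f s :=
    fun n => Cx.five_quo _ _ _ _ (m U) (hf U) (qU _) (by rw [sub_inf, sub_inf]; exact qI _)
  have mq : ∀ O, ((h.on O).quo _ (h.d V) (h.N V)).Mor ((h'.on O).quo _ (h'.d V) (h'.N V)) f s :=
    fun O => Cx.Mor.quo _ _ _ _ (m O) (hf O)
  have q2 := Cx.QIa.comp (mq U) (h'.exc_mor U V) (h'.exc hU hV) q1
  have q3 := Cx.QIa.right (h.exc_mor U V) (mq _) (h.exc hU hV)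
    (by rw [zero_add]; rw [add_zero] at q2; exact q2)
  refine fun n => Cx.five_mid _ _ _ _ (m _) (hf _) ?_ (q3 n)
  rw [sub_inf, sub_inf, inter_eq_right.2 subset_union_right]
  exact qV n

omit m in
theorem dir (q : ∀ K, IsCompact K → K ⊆ V → ∃ O, K ⊆ O ∧ O ⊆ V ∧ (h.on O).QIa (h'.on O) f s) :
    (h.on V).QIa (h'.on V) f s := by
  refine Cx.qia_iff.2 fun n => ⟨fun x hx hb => ?_, fun y hy => ?_⟩
  · obtain ⟨b, hb, e⟩ := Cx.mem_B.1 hb
    obtain ⟨K, k1, k2, k3⟩ := h.cpt V x hx.1.2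
    obtain ⟨L, l1, l2, l3⟩ := h'.cpt V b hb.2
    obtain ⟨O, o1, o2, o3⟩ := q _ (k1.union l1) (union_subset k2 l2)
    obtain ⟨c, hc, e'⟩ := Cx.mem_B.1 (o3.inj n x ⟨⟨hx.1.1, k3 O (subset_union_left.trans o1)⟩, hx.2⟩
      (Cx.mem_B.2 ⟨b, ⟨hb.1, l3 O (subset_union_right.trans o1)⟩, e⟩))
    exact Cx.mem_B.2 ⟨c, ⟨hc.1, h.mono o2 hc.2⟩, e'⟩
  · obtain ⟨L, l1, l2, l3⟩ := h'.cpt V y hy.1.2
    obtain ⟨O, o1, o2, o3⟩ := q _ l1 l2
    obtain ⟨x, hx, e⟩ := o3.sur n y ⟨⟨hy.1.1, l3 O o1⟩, hy.2⟩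
    obtain ⟨c, hc, e'⟩ := Cx.mem_B.1 e
    exact ⟨x, ⟨⟨hx.1.1, h.mono o2 hx.1.2⟩, hx.2⟩, Cx.mem_B.2 ⟨c, ⟨hc.1, h'.mono o2 hc.2⟩, e'⟩⟩

omit m in
theorem qia_empty : (h.on ∅).QIa (h'.on ∅) f s :=
  Cx.qia_iff.2 fun _ => ⟨Cx.Ac.inj fun _ hx => Cx.N_le_B (h.empty hx.1.2),
    Cx.Ac.sur fun _ hx => Cx.N_le_B (h'.empty hx.1.2)⟩

theorem glue {𝓑 : Set (Set X)} (ho : ∀ B ∈ 𝓑, IsOpen B) (hi : ∀ B ∈ 𝓑, ∀ B' ∈ 𝓑, B ∩ B' ∈ 𝓑)
    (hq : ∀ B ∈ 𝓑, (h.on B).QIa (h'.on B) f s) (hc : ∀ x ∈ V, ∃ B ∈ 𝓑, x ∈ B ∧ B ⊆ V) :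
    (h.on V).QIa (h'.on V) f s := by
  have key : ∀ k (B : Fin k → Set X), (∀ i, B i ∈ 𝓑) →
      (h.on (⋃ i, B i)).QIa (h'.on (⋃ i, B i)) f s := fun k => by
    induction k with
    | zero => intro B _; rw [iUnion_of_empty]; exact h.qia_empty h'
    | succ k ih =>
      intro B hB
      rw [iUnion_fin_add_one_eq_iUnion_succ]
      refine h.union h' m (ho _ (hB 0)) (isOpen_iUnion fun i => ho _ (hB _)) (hq _ (hB 0))
        (ih _ fun i => hB _) ?_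
      rw [inter_iUnion]
      exact ih _ fun i => hi _ (hB 0) _ (hB _)
  refine h.dir h' fun K hK hV => ?_
  choose B b1 b2 b3 using fun x : K => hc x (hV x.2)
  obtain ⟨t, ht⟩ := hK.elim_finite_subcover B (fun x => ho _ (b1 x))
    fun x hx => mem_iUnion.2 ⟨⟨x, hx⟩, b2 _⟩
  refine ⟨⋃ i, B (t.equivFin.symm i), fun x hx => ?_, iUnion_subset fun i => b3 _,
    key _ _ fun i => b1 _⟩
  obtain ⟨y, hy, e⟩ := mem_iUnion₂.1 (ht hx)
  exact mem_iUnion.2 ⟨t.equivFin ⟨y, hy⟩, by rwa [Equiv.symm_apply_apply]⟩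

end Fm

/-- `V` is an open cell modelled on the unit ball of `W` -/
def Cell (W : Type) [NormedAddCommGroup W] (V : Set X) : Prop :=
  IsOpen V ∧ ∃ κ : C(Bl W, X), Function.Injective κ ∧ V = κ '' {v | ‖v.1‖ < 1}

end Pool.Agent.CS
end
end

-- part Pool.Agent.P.MP_d34769_ag.YZ1
section

/-! Singular chains with complex coefficients. -/

open Set TensorProduct
open Pool.Agent.Bet (TC)

noncomputable section
namespace Pool.Agent.CS

section bc
variable {M N : Type} [AddCommGroup M] [Module ℚ M] [AddCommGroup N] [Module ℚ N]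

open Classical in
/-- coordinates for a rational basis of the complex numbers -/
def yz1_co (x : ℂ ⊗[ℚ] M) : Module.Basis.ofVectorSpaceIndex ℚ ℂ →₀ M :=
  equivFinsuppOfBasisLeft (Module.Basis.ofVectorSpace ℚ ℂ) x

theorem yz1_co_map (f : M →ₗ[ℚ] N) (x : ℂ ⊗[ℚ] M) (i) :
    yz1_co (f.baseChange ℂ x) i = f (yz1_co x i) := by
  unfold yz1_co
  induction x with
  | zero => simp
  | tmul a m => simp
  | add a b ha hb => simp only [map_add, Finsupp.add_apply, ha, hb]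

theorem yz1_mem {S : Submodule ℚ M} {x : ℂ ⊗[ℚ] M} :
    x ∈ S.baseChange ℂ ↔ ∀ i, yz1_co x i ∈ S := by
  classical
  constructor
  · rintro ⟨y, rfl⟩ i
    rw [yz1_co_map]
    exact (yz1_co y i).2
  · intro h
    have e := (equivFinsuppOfBasisLeft (Module.Basis.ofVectorSpace ℚ ℂ)).symm_apply_apply x
    rw [equivFinsuppOfBasisLeft_symm_apply] at e
    rw [← e]
    exact Submodule.sum_mem _ fun i _ => Submodule.tmul_mem_baseChange_of_mem _ (h i)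

theorem yz1_inf (A B : Submodule ℚ M) :
    (A ⊓ B).baseChange ℂ = A.baseChange ℂ ⊓ B.baseChange ℂ := by
  ext x
  simp only [Submodule.mem_inf, yz1_mem, forall_and]

theorem yz1_comap (f : M →ₗ[ℚ] N) (S : Submodule ℚ N) :
    (S.comap f).baseChange ℂ = (S.baseChange ℂ).comap (f.baseChange ℂ) := by
  ext x
  simp only [Submodule.mem_comap, yz1_mem, yz1_co_map]

theorem yz1_le {A : Submodule ℚ M} {U : Submodule ℂ (ℂ ⊗[ℚ] M)}
    (h : ∀ c ∈ A, (1 : ℂ) ⊗ₜ c ∈ U) : A.baseChange ℂ ≤ U := by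
  rw [Submodule.baseChange_eq_span, Submodule.span_le]
  rintro _ ⟨c, hc, rfl⟩
  exact h c hc

theorem yz1_sup (A B : Submodule ℚ M) :
    (A ⊔ B).baseChange ℂ = A.baseChange ℂ ⊔ B.baseChange ℂ := by
  refine le_antisymm (yz1_le fun c hc => ?_)
    (sup_le (Submodule.baseChange_mono _ le_sup_left) (Submodule.baseChange_mono _ le_sup_right))
  obtain ⟨a, ha, b, hb, rfl⟩ := Submodule.mem_sup.1 hc
  rw [tmul_add]
  exact Submodule.add_mem_sup (Submodule.tmul_mem_baseChange_of_mem _ ha)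
    (Submodule.tmul_mem_baseChange_of_mem _ hb)

theorem yz1_map (f : M →ₗ[ℚ] N) (S : Submodule ℚ M) :
    (S.map f).baseChange ℂ = (S.baseChange ℂ).map (f.baseChange ℂ) := by
  refine le_antisymm (yz1_le ?_) ?_
  · rintro _ ⟨c, hc, rfl⟩
    exact ⟨_, Submodule.tmul_mem_baseChange_of_mem 1 hc, rfl⟩
  · rw [Submodule.map_le_iff_le_comap, ← yz1_comap]
    exact Submodule.baseChange_mono _ (Submodule.le_comap_map f S)

theorem yz1_ker (f : M →ₗ[ℚ] N) :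
    LinearMap.ker (f.baseChange ℂ) = (LinearMap.ker f).baseChange ℂ := by
  rw [← Submodule.comap_bot, ← Submodule.comap_bot, yz1_comap, Submodule.baseChange_bot]

theorem yz1_rank (S : Submodule ℚ M) : Module.rank ℂ (S.baseChange ℂ) = Module.rank ℚ S := by
  have h : Function.Injective (S.subtype.baseChange ℂ) := by
    rw [← LinearMap.ker_eq_bot, yz1_ker, Submodule.ker_subtype, Submodule.baseChange_bot]
  rw [Submodule.baseChange, ← (LinearEquiv.ofInjective _ h).rank_eq, Module.rank_baseChange,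
    Cardinal.lift_id]

theorem yz1_quot (Z B : Submodule ℚ M) {Z' B' : Submodule ℂ (ℂ ⊗[ℚ] M)} (hZ : Z' = Z.baseChange ℂ)
    (hB : ∀ x ∈ Z', x ∈ B' ↔ x ∈ B.baseChange ℂ) :
    Module.rank ℂ (Z' ⧸ B'.submoduleOf Z') = Module.rank ℚ (Z.map B.mkQ) := by
  have h : B'.submoduleOf Z' = LinearMap.ker (B.mkQ.baseChange ℂ ∘ₗ Z'.subtype) := by
    ext x
    rw [LinearMap.ker_comp, yz1_ker, Submodule.ker_mkQ]
    exact hB x.1 x.2
  rw [h, (LinearMap.quotKerEquivRange _).rank_eq, LinearMap.range_comp, Submodule.range_subtype,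
    hZ, ← yz1_map, yz1_rank]

end bc

variable {X : Type} [TopologicalSpace X]

/-- complex chains -/
abbrev CT (X : Type) [TopologicalSpace X] : Type := ℂ ⊗[ℚ] TC X

/-- rational chains of degree `-m` -/
def dgr (X : Type) [TopologicalSpace X] (m : ℤ) : Submodule ℚ (TC X) :=
  ⨅ (k : ℕ) (_ : (k : ℤ) ≠ -m), LinearMap.ker (Bet.pr k)

theorem mem_dgr {m : ℤ} {c : TC X} : c ∈ dgr X m ↔ ∀ k : ℕ, (k : ℤ) ≠ -m → Bet.pr k c = 0 := by
  simp [dgr]

theorem mem_dgr_nat {k : ℕ} {c : TC X} : c ∈ dgr X (-k) ↔ Bet.pr k c = c := by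
  rw [mem_dgr, neg_neg]
  refine ⟨fun h => ?_, fun h l hl => ?_⟩
  · rw [eq_comm, ← sub_eq_zero, ← Submodule.mem_bot ℚ]
    refine Bet.mem_of_pr fun l => ?_
    rw [map_sub, Bet.pr_pr, Submodule.mem_bot]
    split_ifs with e
    · rw [e, sub_self]
    · rw [h l (by exact_mod_cast e), sub_self]
  · rw [← h, Bet.pr_pr, if_neg (by exact_mod_cast hl)]

theorem dgr_pos {m : ℤ} (h : 0 < m) : dgr X m = ⊥ :=
  bot_unique fun _ hc => Bet.mem_of_pr fun k => (Submodule.mem_bot ℚ).2 (mem_dgr.1 hc k (by omega))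

theorem yz1_pr (k : ℕ) (c : TC X) : Bet.pr k c ∈ dgr X (-k) :=
  mem_dgr_nat.2 (by rw [Bet.pr_pr, if_pos rfl])

theorem yz1_pr' (k : ℕ) (c : TC X) : Bet.pr (k + 1) c ∈ dgr X (-k - 1) := by
  have := yz1_pr (k + 1) c
  rwa [show (-((k + 1 : ℕ) : ℤ)) = -k - 1 by push_cast; ring] at this

/-- induction over the complexification of an intersection -/
theorem bc_ind {M : Type} [AddCommGroup M] [Module ℚ M] {A B : Submodule ℚ M}
    {U : Submodule ℂ (ℂ ⊗[ℚ] M)} (h : ∀ c ∈ A, c ∈ B → (1 : ℂ) ⊗ₜ c ∈ U) :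
    A.baseChange ℂ ⊓ B.baseChange ℂ ≤ U := by
  rw [← yz1_inf]
  exact yz1_le fun c hc => h c hc.1 hc.2

/-- the complex of chains, in negative degrees -/
def cT (X : Type) [TopologicalSpace X] : Cx (CT X) where
  d := (Bet.D : TC X →ₗ[ℚ] TC X).baseChange ℂ
  G m := (dgr X m).baseChange ℂ
  N := ⊥
  dG n x hx := yz1_mem.2 fun i => by
    rw [yz1_co_map]
    refine mem_dgr.2 fun k hk => ?_
    rw [Bet.pr_D, mem_dgr.1 (yz1_mem.1 hx i) (k + 1) (by omega), map_zero]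
  dN _ h := by rw [(Submodule.mem_bot ℂ).1 h, map_zero]; rfl
  dd _ x _ := by
    rw [← Submodule.baseChange_bot (R := ℚ)]
    refine yz1_mem.2 fun i => ?_
    rw [yz1_co_map, yz1_co_map, Bet.DD]
    exact zero_mem _

/-- chains in `V` -/
def fT (V : Set X) : Submodule ℂ (CT X) := (Bet.cn V).baseChange ℂ

theorem yz1_small {U V : Set X} (hU : IsOpen U) (hV : IsOpen V) (n : ℤ) :
    dgr X n ⊓ Bet.cn (U ∪ V) ⊓ (Bet.cn U ⊔ Bet.cn V).comap Bet.D ≤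
      ((dgr X (n - 1) ⊓ Bet.cn (U ∪ V)).map Bet.D ⊔ dgr X n ⊓ Bet.cn U) ⊔ Bet.cn V := by
  rintro c ⟨⟨h1, h2⟩, h3⟩
  rcases lt_or_ge 0 n with h | h
  · rw [dgr_pos h] at h1
    rw [(Submodule.mem_bot ℚ).1 h1]
    exact zero_mem _
  obtain ⟨k, rfl⟩ := Int.exists_eq_neg_ofNat h
  have h4 := Bet.small_cn univ hU hV
  simp only [univ_inter] at h4
  obtain ⟨a, ha, e⟩ := Bet.mem_BB.1 (h4 (Bet.mem_ZZ.2 ⟨h2, h3⟩))
  obtain ⟨u, hu, v, hv, e'⟩ := Submodule.mem_sup.1 e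
  have e2 : c = Bet.D (Bet.pr (k + 1) a) + Bet.pr k u + Bet.pr k v := by
    rw [← Bet.pr_D, add_assoc, ← map_add, ← map_add, e', add_sub_cancel, mem_dgr_nat.1 h1]
  rw [e2]
  exact Submodule.add_mem_sup (Submodule.add_mem_sup
    ⟨_, ⟨yz1_pr' k a, Bet.grd_cn _ _ _ ha⟩, rfl⟩ ⟨yz1_pr k u, Bet.grd_cn _ _ _ hu⟩)
    (Bet.grd_cn _ _ _ hv)

theorem fm_T : Fm (cT X) fT where
  d V x hx := yz1_mem.2 fun i => by
    have := yz1_co_map (Bet.D : TC X →ₗ[ℚ] TC X) x i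
    exact this ▸ Bet.stb_cn V _ (yz1_mem.1 hx i)
  N _ := bot_le
  mono h := Submodule.baseChange_mono _ (Bet.cn_mono h)
  empty := by rw [fT, Bet.cn_empty, Submodule.baseChange_bot]; exact bot_le
  inf U V := by rw [fT, fT, fT, Bet.cn_inter, yz1_inf]
  small {U V} hU hV n x h1 h2 h3 := by
    have h := Submodule.baseChange_mono ℂ (yz1_small hU hV n)
    simp only [yz1_inf, yz1_sup, yz1_comap, yz1_map] at h
    obtain ⟨y, hy, v, hv, rfl⟩ := Submodule.mem_sup.1 (h ⟨⟨h1, h2⟩, h3⟩)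
    obtain ⟨_, ⟨b, hb, rfl⟩, a, ha, rfl⟩ := Submodule.mem_sup.1 hy
    refine ⟨b, hb, a, ha, Cx.meq hv ?_⟩
    change v = (cT X).d b + a + v - (cT X).d b - a
    abel
  cpt V x hx := by
    choose K k1 k2 k3 using fun i => Bet.exists_compact (yz1_mem.1 hx i)
    refine ⟨⋃ i ∈ (yz1_co x).support, K i, Finset.isCompact_biUnion _ fun i _ => k1 i,
      iUnion₂_subset fun i _ => k2 i, fun O hO => yz1_mem.2 fun i => ?_⟩
    by_cases hi : i ∈ (yz1_co x).support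
    · exact Bet.cn_mono ((subset_biUnion_of_mem (u := K) hi).trans hO) (k3 i)
    · rw [Finsupp.notMem_support_iff.1 hi]
      exact zero_mem _

theorem rank_T (V : Set X) (k : ℕ) : Module.rank ℂ ((fm_T.on V).H (-k)) = Bet.RK V ∅ k := by
  have hr : LinearMap.range (Bet.pr k : TC X →ₗ[ℚ] TC X) = dgr X (-k) := by
    ext c
    rw [Bet.mem_range_pr, mem_dgr_nat]
  have hZ : (fm_T.on V).Z (-k) = (Bet.ZZ (Bet.cn V) ⊥ ⊓ dgr X (-k)).baseChange ℂ := by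
    rw [Bet.ZZ, yz1_inf, yz1_inf, yz1_comap, Submodule.baseChange_bot, inf_comm, ← inf_assoc]
    rfl
  have hB : (fm_T.on V).B (-k) = ((dgr X (-k - 1) ⊓ Bet.cn V).map Bet.D).baseChange ℂ := by
    rw [yz1_map, yz1_inf]
    exact sup_bot_eq _
  rw [Bet.RK, Bet.rk, hr, Bet.cn_empty]
  refine yz1_quot _ _ hZ fun x hx => ?_
  rw [hB]
  refine ⟨fun h => Submodule.baseChange_mono _ ?_ h, fun h => ?_⟩
  · rintro _ ⟨a, ha, rfl⟩
    exact Bet.D_mem_BB ha.2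
  · rw [hZ] at hx
    refine bc_ind (fun c h1 h2 => Submodule.tmul_mem_baseChange_of_mem _ ?_) ⟨hx, h⟩
    obtain ⟨a, ha, e⟩ := Bet.mem_BB.1 h2
    refine ⟨_, ⟨yz1_pr' k a, Bet.grd_cn _ _ _ ha⟩, ?_⟩
    rw [← Bet.pr_D, ← sub_eq_zero.1 ((Submodule.mem_bot ℚ).1 e), mem_dgr_nat.1 h1.2]

theorem sph_T (V : Set X) [ContractibleSpace V] : (fm_T.on V).Sph 0 := by
  have hd := (Bet.SD.ctr V).dim (empty_subset _)
  refine ⟨fun n hn => ?_, Cx.le1_of_rank ?_⟩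
  · rcases lt_or_ge 0 n with h | h
    · intro x hx
      have h1 : x ∈ (dgr X n).baseChange ℂ := hx.1.1
      rw [dgr_pos h, Submodule.baseChange_bot] at h1
      rw [(Submodule.mem_bot ℂ).1 h1]
      exact zero_mem _
    · obtain ⟨k, rfl⟩ := Int.exists_eq_neg_ofNat h
      obtain ⟨m, h1, h2⟩ := hd k
      rw [PowerSeries.coeff_one, if_neg (by omega)] at h2
      rw [Cx.ac_iff_rank, rank_T, h1]
      exact_mod_cast h2.symm
  · obtain ⟨m, h1, h2⟩ := hd 0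
    rw [PowerSeries.coeff_one, if_pos rfl] at h2
    have h3 : Module.rank ℂ ((fm_T.on V).H 0) = Bet.RK V ∅ 0 := rank_T V 0
    rw [h3, h1]
    exact_mod_cast h2.ge

end Pool.Agent.CS
end
end

-- part Pool.Agent.P.MP_d34769_ag.YZ2
section

/-! Linear forms with compact support on the cochains. -/

open Set Module

noncomputable section
namespace Pool.Agent.CS

variable {X : Type}

/-- cochains whose component of degree `k` vanishes -/
def off (X : Type) (k : ℤ) : Submodule ℂ (AS X) where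
  carrier := {φ | ∀ l : List X, (l.length : ℤ) = k + 1 → φ.1 l = 0}
  add_mem' ha hb l hl := by rw [AS.val_add, ha l hl, hb l hl, add_zero]
  zero_mem' _ _ := rfl
  smul_mem' c _ h l hl := by rw [AS.val_smul, h l hl, mul_zero]

theorem off_d {k : ℤ} {φ : AS X} (h : φ ∈ off X k) : AS.d φ ∈ off X (k + 1) := fun l hl =>
  (congrFun (AS.coe_d φ) l).trans (LA.da_zero fun t ht => h t (by omega))

/-- the dual complex -/
def cE (X : Type) : Cx (Dual ℂ (AS X)) where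
  d := LinearMap.dualMap AS.d
  G m := (off X (-m)).dualAnnihilator
  N := ⊥
  dG m lam h := (Submodule.mem_dualAnnihilator _).2 fun φ hφ =>
    (Submodule.mem_dualAnnihilator _).1 h _ (by simpa using off_d hφ)
  dN _ h := by rw [(Submodule.mem_bot ℂ).1 h, map_zero]; rfl
  dd _ lam _ := LinearMap.ext fun φ => (congrArg lam (AS.d_d φ)).trans (map_zero _)

theorem cE_d (lam : Dual ℂ (AS X)) (φ : AS X) : (cE X).d lam φ = lam (AS.d φ) := rfl

theorem mem_cE_G {m : ℤ} {lam : Dual ℂ (AS X)} :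
    lam ∈ (cE X).G m ↔ ∀ φ ∈ off X (-m), lam φ = 0 := Submodule.mem_dualAnnihilator _

theorem mem_cE_N {lam : Dual ℂ (AS X)} : lam ∈ (cE X).N ↔ lam = 0 := Iff.rfl

variable [TopologicalSpace X] [CompactSpace X] [T2Space X]

/-- linear forms with compact support in `V` -/
def fE (V : Set X) : Submodule ℂ (Dual ℂ (AS X)) where
  carrier := {lam | ∃ K, IsCompact K ∧ K ⊆ V ∧ ∀ φ ∈ zz K, lam φ = 0}
  add_mem' := fun ⟨K, k1, k2, k3⟩ ⟨L, l1, l2, l3⟩ => ⟨K ∪ L, k1.union l1, union_subset k2 l2,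
    fun φ h => by rw [LinearMap.add_apply, k3 φ (SC.zz_anti subset_union_left h),
      l3 φ (SC.zz_anti subset_union_right h), add_zero]⟩
  zero_mem' := ⟨∅, isCompact_empty, empty_subset _, fun _ _ => rfl⟩
  smul_mem' := fun c _ ⟨K, k1, k2, k3⟩ => ⟨K, k1, k2, fun φ h => by
    rw [LinearMap.smul_apply, k3 φ h, smul_zero]⟩

theorem mem_fE {V : Set X} {lam : Dual ℂ (AS X)} :
    lam ∈ fE V ↔ ∃ K, IsCompact K ∧ K ⊆ V ∧ ∀ φ ∈ zz K, lam φ = 0 := Iff.rfl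

theorem zz_split {K L : Set X} (hK : IsClosed K) (hL : IsClosed L) {φ : AS X}
    (h : φ ∈ zz (K ∩ L)) : ∃ ψ ∈ zz L, ψ - φ ∈ zz K := by
  obtain ⟨U, V, hU, hV, e₁, e₂, hd⟩ := normal_separation hK
    (hL.inter (AS.z_open φ).isClosed_compl)
    (disjoint_left.2 fun t h1 h2 => h2.2 (zz_iff.1 h t ⟨h1, h2.1⟩))
  refine ⟨AS.cut U φ, zz_iff.2 fun t ht => ?_,
    zz_iff.2 fun t ht => AS.cut_in (hU.mem_nhds (e₁ ht)) φ⟩
  by_cases e : φ ∈ AS.z t
  · exact AS.cut_z U e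
  · exact AS.cut_out (Filter.mem_of_superset (hV.mem_nhds (e₂ ⟨ht, e⟩)) hd.subset_compl_left) φ

theorem fm_E : Fm (cE X) fE where
  d _ _ := fun ⟨K, k1, k2, k3⟩ => ⟨K, k1, k2, fun φ h => k3 _ (SC.zz_d K φ h)⟩
  N _ _ h := mem_cE_N.1 h ▸ zero_mem _
  mono h _ := fun ⟨K, k1, k2, k3⟩ => ⟨K, k1, k2.trans h, k3⟩
  empty _ := fun ⟨_, _, k2, k3⟩ => LinearMap.ext fun φ => k3 φ (zz_iff.2 fun _ ht => (k2 ht).elim)
  inf _ _ lam := fun ⟨⟨K, k1, k2, k3⟩, L, l1, l2, l3⟩ =>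
    ⟨K ∩ L, k1.inter_right l1.isClosed, inter_subset_inter k2 l2, fun φ h => by
      obtain ⟨ψ, h1, h2⟩ := zz_split k1.isClosed l1.isClosed h
      simpa [l3 ψ h1] using k3 _ h2⟩
  small := fun {U V} hU hV n lam hG ⟨K, k1, k2, k3⟩ _ => by
    obtain ⟨O, o1, o2, o3⟩ := normal_exists_closure_subset (k1.isClosed.sdiff hV) hU
      fun t ht => (k2 ht.1).resolve_right ht.2
    refine ⟨0, zero_mem _, lam ∘ₗ AS.cut O, ⟨mem_cE_G.2 fun φ h => mem_cE_G.1 hG _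
      fun l hl => AS.cut_zero O (h l hl), K ∩ closure O, k1.inter_right isClosed_closure,
      fun t ht => o3 ht.2, fun φ h => k3 _ (zz_iff.2 fun t ht => ?_)⟩, K \ O, k1.diff o1,
      fun t ht => by_contra fun e => ht.2 (o2 ⟨ht.1, e⟩), fun φ h => ?_⟩
    · by_cases e : t ∈ closure O
      · exact AS.cut_z O (zz_iff.1 h t ⟨ht, e⟩)
      · exact AS.cut_out (Filter.mem_of_superset (isClosed_closure.isOpen_compl.mem_nhds e)
          (compl_subset_compl.2 subset_closure)) φ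
    · have := k3 (AS.cut O φ - φ) (zz_iff.2 fun t ht => by
        by_cases e : t ∈ O
        · exact AS.cut_in (o1.mem_nhds e) φ
        · exact sub_mem (AS.cut_z O (zz_iff.1 h t ⟨ht, e⟩)) (zz_iff.1 h t ⟨ht, e⟩))
      rw [map_sub, sub_eq_zero] at this
      simp [this]
  cpt _ _ := fun ⟨K, k1, k2, k3⟩ => ⟨K, k1, k2, fun _ h => ⟨K, k1, h, k3⟩⟩

theorem zz_e {K : Set X} {φ : AS X} (h : φ ∈ zz K) (k : ℕ) : (AS.gc X).e k φ ∈ zz K :=
  zz_iff.2 fun t ht => AS.z_e (zz_iff.1 h t ht) k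

omit [TopologicalSpace X] [CompactSpace X] [T2Space X] in
theorem e_off {k : ℕ} {φ : AS X} (h : φ ∈ off X k) : (AS.gc X).e k φ = 0 := AS.ext fun l => by
  rw [AS.val_e]
  split_ifs with e
  exacts [h l (by omega), rfl]

theorem E_prim {V : Set X}
    (hV : ∀ K, IsCompact K → K ⊆ V → ∃ L, IsCompact L ∧ K ⊆ L ∧ L ⊆ V ∧ AS.Acy L) {j : ℤ}
    {lam : Dual ℂ (AS X)} (h : lam ∈ (fm_E.on V).Z j) (h1 : lam 1 = 0) :
    lam ∈ (fm_E.on V).B j := by
  obtain ⟨⟨hG, K, k1, k2, k3⟩, hd⟩ := h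
  have hG := mem_cE_G.1 hG
  have hd : ∀ φ, lam (AS.d φ) = 0 := LinearMap.congr_fun (mem_cE_N.1 hd)
  rcases lt_or_ge 0 j with e | e
  · refine Cx.meq (zero_mem _) (LinearMap.ext fun φ => (hG φ fun l hl => ?_).symm)
    rw [List.length_eq_zero_iff.1 (show l.length = 0 by omega), φ.nil]
  obtain ⟨k, rfl⟩ : ∃ k : ℕ, j = -k := ⟨(-j).toNat, by omega⟩
  obtain ⟨L, l1, l2, l3, l4⟩ := hV K k1 k2
  have he : ∀ φ, lam ((AS.gc X).e k φ) = lam φ := fun φ => by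
    rw [← sub_eq_zero, ← map_sub]
    exact hG _ fun l hl => by rw [AS.val_sub, AS.val_e, if_pos (by omega), sub_self]
  obtain ⟨μ, hμ⟩ : lam ∈ LinearMap.range ((zz L).mkQ ∘ₗ AS.d ∘ₗ (AS.gc X).e k).dualMap := by
    rw [LinearMap.range_dualMap_eq_dualAnnihilator_ker, Submodule.mem_dualAnnihilator]
    intro φ hφ
    obtain ⟨c, hc⟩ := l4.2 k ((AS.gc X).e k φ) ⟨⟨AS.e_mem_G k φ, zz_iff.2 fun _ ht => ht.elim⟩,
      (Submodule.Quotient.mk_eq_zero (zz L)).1 hφ⟩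
    obtain ⟨b, -, hb⟩ := Cx.mem_B.1 hc
    have := k3 _ (SC.zz_anti l2 hb)
    rwa [map_sub, map_sub, map_smul, h1, he, show lam ((CP L ∅).d b) = 0 from hd b, smul_zero,
      sub_zero, sub_zero] at this
  refine Cx.mem_B.2 ⟨μ ∘ₗ (zz L).mkQ ∘ₗ (AS.gc X).e (k + 1), ⟨mem_cE_G.2 fun φ hφ => ?_, L, l1, l3,
    fun φ hφ => ?_⟩, sub_eq_zero.2 (hμ.symm.trans (LinearMap.ext fun φ => ?_))⟩
  · rw [LinearMap.comp_apply, LinearMap.comp_apply,
      e_off (k := k + 1) fun l hl => hφ l (by omega), map_zero, map_zero]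
  · exact (congrArg μ ((Submodule.Quotient.mk_eq_zero _).2 (zz_e hφ _))).trans (map_zero _)
  · exact congrArg (fun ψ => μ ((zz L).mkQ ψ)) ((AS.gc X).ed k φ).symm

theorem qia_E {T : Type} [AddCommGroup T] [Module ℂ T] {C : Cx T} {f : T →ₗ[ℂ] Dual ℂ (AS X)}
    {m s : ℤ} (e : m + s = 0) {V : Set X}
    (hV : ∀ K, IsCompact K → K ⊆ V → ∃ L, IsCompact L ∧ K ⊆ L ∧ L ⊆ V ∧ AS.Acy L)
    (h : C.Mor (fm_E.on V) f s) (hs : C.Sph m) {x : T} (hx : x ∈ C.Z m) (h1 : f x 1 ≠ 0) :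
    C.QIa (fm_E.on V) f s := by
  refine Cx.qia_iff.2 fun n => ?_
  by_cases hn : n = m
  · subst hn
    refine ⟨hs.2.inj h hx fun hb => h1 ?_, fun y hy => ?_⟩
    · obtain ⟨b, -, hb⟩ := Cx.mem_B.1 hb
      rw [sub_eq_zero.1 (mem_cE_N.1 hb)]
      exact (congrArg b AS.d_one).trans (map_zero _)
    · have hx' := Submodule.smul_mem _ (y 1 / f x 1) hx
      refine ⟨_, hx', E_prim hV (sub_mem hy (h.mem_Z hx')) ?_⟩
      rw [map_smul, LinearMap.sub_apply, LinearMap.smul_apply, smul_eq_mul, div_mul_cancel₀ _ h1,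
        sub_self]
  · refine ⟨(hs.1 n hn).inj, Cx.Ac.sur fun y hy => E_prim hV hy (mem_cE_G.1 hy.1.1 _ fun l hl => ?_)⟩
    rw [AS.val_one, if_neg (by omega)]

end Pool.Agent.CS
end
end

-- part Pool.Agent.P.MP_d34769_ag.YZ3
section

/-! Singular chains as linear forms on cochains. -/

open Set Module TensorProduct
open Pool.Agent.Bet (TC)

noncomputable section
namespace Pool.Agent.CS

open Pool.Agent.Bet.G (Dl Ch face bd)

/-- the linear forms on cochains given by a form on the model simplex -/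
def yz3_ev {m : ℕ} (lam : Dual ℂ (AS (Dl m))) (Y : Type) [TopologicalSpace Y] :
    Ch Y m →ₗ[ℚ] Dual ℂ (AS Y) := Finsupp.linearCombination ℚ fun σ => lam ∘ₗ AS.pl σ

theorem yz3_ev_single {m : ℕ} (lam : Dual ℂ (AS (Dl m))) {Y : Type} [TopologicalSpace Y]
    (σ : C(Dl m, Y)) (q : ℚ) (φ : AS Y) :
    yz3_ev lam Y (Finsupp.single σ q) φ = q • lam (AS.pull σ φ) := by
  simp [yz3_ev]

theorem yz3_ind {m : ℕ} {Y : Type} [TopologicalSpace Y] {f g : Ch Y m →ₗ[ℚ] Dual ℂ (AS Y)}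
    {φ ψ : AS Y} (h : ∀ σ, f (Finsupp.single σ 1) φ = g (Finsupp.single σ 1) ψ) (c : Ch Y m) :
    f c φ = g c ψ := by
  induction c using Finsupp.induction_linear with
  | zero => simp
  | add a b ha hb => simp [ha, hb]
  | single σ q => rw [← Finsupp.smul_single_one, map_smul, map_smul, LinearMap.smul_apply,
      LinearMap.smul_apply, h]

theorem yz3_off {Y Z : Type} (g : Y → Z) {k : ℤ} {φ : AS Z} (h : φ ∈ off Z k) :
    AS.pull g φ ∈ off Y k := fun l hl => h _ (by simpa using hl)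

theorem yz3_one {Y : Type} (k : ℕ) : (1 : AS Y) ∈ off Y (k + 1 : ℕ) := fun l hl =>
  if_neg (by omega)

/-- a form on the model simplex that can be extended one step -/
structure YZ3Gd (k : ℕ) (lam : Dual ℂ (AS (Dl (k + 1)))) : Prop where
  off : ∀ φ ∈ off _ k, lam φ = 0
  zz : ∀ φ ∈ zz univ, lam φ = 0
  dd : ∀ c ψ, yz3_ev lam (Dl (k + 2)) (bd c) (AS.d ψ) = 0
  one : ∀ c, yz3_ev lam (Dl (k + 2)) (bd c) 1 = 0

theorem yz3_step {k : ℕ} {lam : Dual ℂ (AS (Dl (k + 1)))} (h : YZ3Gd k lam) :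
    ∃ lam', YZ3Gd (k + 1) lam' ∧ ∀ (Y : Type) [TopologicalSpace Y] (c : Ch Y (k + 2)) φ,
      yz3_ev lam' Y c (AS.d φ) = yz3_ev lam Y (bd c) φ := by
  let μ := yz3_ev lam (Dl (k + 2)) (bd (Finsupp.single (.id _) 1))
  have m1 : ∀ c, ∀ φ ∈ off (Dl (k + 2)) k, yz3_ev lam _ c φ = 0 := fun c φ hφ =>
    yz3_ind (g := 0) (ψ := 0) (fun σ => by
      rw [yz3_ev_single, h.off _ (yz3_off σ hφ), smul_zero]; rfl) c
  have m2 : ∀ c, ∀ φ ∈ zz (univ : Set (Dl (k + 2))), yz3_ev lam _ c φ = 0 := fun c φ hφ =>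
    yz3_ind (g := 0) (ψ := 0) (fun σ => by
      rw [yz3_ev_single, h.zz _ (zz_iff.2 fun t _ =>
        AS.z_pull σ.continuous.continuousAt (zz_iff.1 hφ _ trivial)), smul_zero]; rfl) c
  have ac : AS.Acy (univ : Set (Dl (k + 2))) := AS.acy_star (stdSimplex.vertex 0).2
    ((convex_stdSimplex ℝ _).starConvex (stdSimplex.vertex 0).2)
  let Q := off (Dl (k + 2)) (k + 1 : ℕ) ⊔ zz univ
  obtain ⟨ν, hν⟩ : μ ∈ LinearMap.range (Q.mkQ ∘ₗ AS.d).dualMap := by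
    rw [LinearMap.range_dualMap_eq_dualAnnihilator_ker, Submodule.mem_dualAnnihilator]
    intro φ hφ
    obtain ⟨u, hu, v, hv, e⟩ := Submodule.mem_sup.1 ((Submodule.Quotient.mk_eq_zero Q).1 hφ)
    have e1 : (AS.gc _).e (k + 1) u = 0 := AS.ext fun l => by
      rw [AS.val_e]
      split_ifs with c
      exacts [hu l (by omega), rfl]
    have e2 : AS.d ((AS.gc _).e k φ) ∈ zz univ := by
      rw [← (AS.gc _).ed, ← e, map_add, e1, zero_add]
      exact zz_iff.2 fun t ht => AS.z_e (zz_iff.1 hv t ht) _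
    obtain ⟨c, hc⟩ := ac.2 k _ ⟨⟨AS.e_mem_G k φ, zz_iff.2 fun _ c => c.elim⟩, e2⟩
    obtain ⟨_, ⟨b, -, rfl⟩, w, hw, e3⟩ := Submodule.mem_sup.1 hc
    have e4 : φ = (φ - (AS.gc _).e k φ) + (AS.d b + w) + c • 1 := by
      rw [show AS.d b + w = _ from e3]; abel
    rw [e4, map_add, map_add, map_add, map_smul, m1 _ _ fun l hl => ?_, h.dd, m2 _ _ hw, h.one]
    · simp
    · rw [AS.val_sub, AS.val_e, if_pos (by omega), sub_self]
  have key : ∀ (Y : Type) [TopologicalSpace Y] (c : Ch Y (k + 2)) φ,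
      yz3_ev (ν ∘ₗ Q.mkQ) Y c (AS.d φ) = yz3_ev lam Y (bd c) φ := fun Y _ c φ =>
    yz3_ind (g := yz3_ev lam Y ∘ₗ bd) (fun σ => by
      rw [yz3_ev_single, one_smul, AS.pull_d]
      refine (LinearMap.congr_fun hν _).trans ?_
      simp only [μ, LinearMap.comp_apply, Bet.G.bd_single, map_sum, map_smul, LinearMap.sum_apply,
        LinearMap.smul_apply, yz3_ev_single, AS.pull_pull]
      rfl) c
  have k1 : ∀ φ ∈ Q, (ν ∘ₗ Q.mkQ) φ = 0 := fun φ hφ =>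
    (congrArg ν ((Submodule.Quotient.mk_eq_zero Q).2 hφ)).trans (map_zero ν)
  refine ⟨_, ⟨fun φ c => k1 φ (Submodule.mem_sup_left c), fun φ c => k1 φ (Submodule.mem_sup_right c),
    fun c ψ => by rw [key, Bet.G.bd_bd, map_zero]; rfl, fun c => ?_⟩, key⟩
  exact yz3_ind (g := 0) (ψ := 0) (fun σ => by
    rw [yz3_ev_single, map_one, k1 _ (Submodule.mem_sup_left (yz3_one k)), smul_zero]; rfl) _

/-- evaluation at the vertex -/
def yz3_pt : Dual ℂ (AS (Dl 1)) where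
  toFun φ := φ.1 [stdSimplex.vertex 0]
  map_add' _ _ := rfl
  map_smul' _ _ := rfl

theorem yz3_pt_d (φ : AS (Dl 1)) : yz3_pt (AS.d φ) = 0 :=
  (congrFun (AS.coe_d φ) _).trans (by simp [LA.da_cons])

theorem yz3_zero : YZ3Gd 0 yz3_pt := by
  refine ⟨fun φ h => h _ rfl, fun φ h => ?_, fun c ψ => ?_, fun c => ?_⟩
  · obtain ⟨O, hO, e⟩ := zz_iff.1 h (stdSimplex.vertex 0) trivial
    exact e _ fun y hy => List.mem_singleton.1 hy ▸ mem_of_mem_nhds hO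
  · exact yz3_ind (g := 0) (ψ := 0) (fun σ => by
      rw [yz3_ev_single, AS.pull_d, yz3_pt_d, smul_zero]; rfl) _
  · exact yz3_ind (f := yz3_ev yz3_pt _ ∘ₗ bd) (g := 0) (ψ := 0) (fun σ => by
      simp [Bet.G.bd_single, yz3_ev_single]) c

theorem yz3_seq : ∃ lam : ∀ k, Dual ℂ (AS (Dl (k + 1))), (∀ k, YZ3Gd k (lam k)) ∧ lam 0 = yz3_pt ∧
    ∀ k (Y : Type) [TopologicalSpace Y] (c : Ch Y (k + 2)) φ,
      yz3_ev (lam (k + 1)) Y c (AS.d φ) = yz3_ev (lam k) Y (bd c) φ := by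
  choose F h1 h2 using fun k (x : {lam // YZ3Gd k lam}) => yz3_step x.2
  let L : ∀ k, {lam // YZ3Gd k lam} := fun k => Nat.rec ⟨_, yz3_zero⟩ (fun k x => ⟨F k x, h1 k x⟩) k
  exact ⟨fun k => (L k).1, fun k => (L k).2, rfl, fun k => h2 k (L k)⟩

variable {X : Type} [TopologicalSpace X] [CompactSpace X] [T2Space X]

theorem exists_a : ∃ a : CT X →ₗ[ℂ] Dual ℂ (AS X), (∀ V, (fm_T.on V).Mor (fm_E.on V) a 0) ∧
    ∀ V : Set X, V.Nonempty → ∃ x ∈ (fm_T.on V).Z 0, a x 1 ≠ 0 := by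
  obtain ⟨lam, h1, h2, h3⟩ := yz3_seq
  let A : TC X →ₗ[ℚ] Dual ℂ (AS X) := Bet.lift fun k σ => lam k ∘ₗ AS.pl σ
  have hA : ∀ k σ, A (Bet.sx k σ) = yz3_ev (lam k) X (Finsupp.single σ 1) := fun k σ => by
    simp [A, yz3_ev]
  have hI : ∀ k c, A (Bet.inc k c) = yz3_ev (lam k) X c := fun k c => LinearMap.ext fun φ =>
    yz3_ind (f := A ∘ₗ Bet.inc k) (fun σ => by rw [← hA, Bet.sx_eq_inc]; rfl) c
  have a1 : ∀ c, A.liftBaseChange ℂ (1 ⊗ₜ c) = A c := fun c => by simp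
  have hD : A ∘ₗ Bet.D = (AS.d.dualMap.restrictScalars ℚ) ∘ₗ A := Bet.TC.ext fun k σ =>
    LinearMap.ext fun φ => by
      show A (Bet.D (Bet.sx k σ)) φ = A (Bet.sx k σ) (AS.d φ)
      rw [hA]
      cases k with
      | zero => rw [Bet.D_sx_zero, yz3_ev_single, h2, AS.pull_d, yz3_pt_d, map_zero, smul_zero]; rfl
      | succ k => rw [h3, Bet.sx_eq_inc, Bet.D_inc, hI]
  refine ⟨A.liftBaseChange ℂ, fun V => ⟨fun n x hx => ?_, fun n x _ hx => ?_, fun n x hx => ?_⟩,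
    fun V ⟨v, hv⟩ => ⟨1 ⊗ₜ Bet.sx 0 (.const _ v), ⟨⟨?_, ?_⟩, ?_⟩, ?_⟩⟩
  · refine bc_ind (U := ((fm_E.on V).G (n + 0)).comap (A.liftBaseChange ℂ)) (fun c c1 c2 => ?_) hx
    rw [Submodule.mem_comap, a1, add_zero]
    refine ⟨mem_cE_G.2 fun φ hφ => ?_, Bet.cn_ind (P := fun c => A c ∈ fE V) c2 ?_
      (fun a b ha hb => ?_) fun q k σ hσ => ?_⟩
    · obtain ⟨N, hN⟩ := Bet.DG.fin c
      rw [← hN N le_rfl, map_sum, LinearMap.sum_apply]
      refine Finset.sum_eq_zero fun k _ => ?_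
      by_cases e : (k : ℤ) = -n
      · exact (LinearMap.congr_fun (hI k _) φ).trans (yz3_ind (g := 0) (ψ := 0) (fun σ => by
          rw [yz3_ev_single, (h1 k).off _ (yz3_off σ (e ▸ hφ)), smul_zero]; rfl) _)
      · rw [mem_dgr.1 c1 k e, map_zero]; rfl
    · rw [map_zero]; exact zero_mem _
    · rw [map_add]; exact add_mem ha hb
    · rw [map_smul, hA]
      refine Submodule.smul_of_tower_mem _ q ⟨range σ, isCompact_range σ.continuous,
        range_subset_iff.2 hσ, fun φ hφ => ?_⟩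
      rw [yz3_ev_single, (h1 k).zz _ (zz_iff.2 fun t _ =>
        AS.z_pull σ.continuous.continuousAt (zz_iff.1 hφ _ ⟨t, rfl⟩)), smul_zero]
  · rw [(Submodule.mem_bot ℂ).1 hx, map_zero]; exact zero_mem _
  · refine mem_cE_N.2 (sub_eq_zero.2 ?_)
    show A.liftBaseChange ℂ (Bet.D.baseChange ℂ x) = AS.d.dualMap (A.liftBaseChange ℂ x)
    clear hx
    induction x using TensorProduct.induction_on with
    | zero => simp
    | add a b ha hb => simp only [map_add, ha, hb]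
    | tmul r c =>
      rw [LinearMap.baseChange_tmul, LinearMap.liftBaseChange_tmul, LinearMap.liftBaseChange_tmul,
        map_smul]
      exact congrArg (r • ·) (LinearMap.congr_fun hD c)
  · exact Submodule.tmul_mem_baseChange_of_mem _ (mem_dgr.2 fun k hk => by
      rw [Bet.pr_sx, if_neg (by omega)])
  · exact Submodule.tmul_mem_baseChange_of_mem _ (Bet.sx_mem fun _ => hv)
  · show Bet.D.baseChange ℂ _ ∈ (⊥ : Submodule ℂ (CT X))
    rw [LinearMap.baseChange_tmul, Bet.D_sx_zero, tmul_zero]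
    exact zero_mem _
  · rw [a1, hA, yz3_ev_single, map_one, h2, one_smul]
    exact one_ne_zero

end Pool.Agent.CS
end
end

-- part Pool.Agent.P.MP_d34769_ag.YZ4
section

/-! Cochains with compact support as linear forms on cochains. -/

open Set Module

noncomputable section
namespace Pool.Agent.CS

variable {X : Type} [TopologicalSpace X] [CompactSpace X] [T2Space X]

theorem zz_supp {V : Set X} {ψ : AS X} (h : ψ ∈ zz Vᶜ) :
    IsCompact {t | ψ ∈ AS.z t}ᶜ ∧ {t | ψ ∈ AS.z t}ᶜ ⊆ V :=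
  ⟨(AS.z_open ψ).isClosed_compl.isCompact, fun t ht => by_contra fun e => ht (zz_iff.1 h t e)⟩

theorem fm_C : Fm (CC X) fun V : Set X => zz Vᶜ where
  d _ := SC.zz_d _
  N _ := SC.zz_anti (subset_univ _)
  mono h := SC.zz_anti (compl_subset_compl.2 h)
  empty := SC.zz_anti (by simp)
  inf U V := by rw [compl_inter]; exact (SC.zz_union _ _).ge
  small := fun {U V} hU hV n x hG hx _ => by
    obtain ⟨c, hc, e₁, e₂⟩ := (AS.sc X).glue Vᶜ Uᶜ hV.isClosed_compl hU.isClosed_compl n x hG.1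
      fun t ht => zz_iff.1 hx t fun e => e.elim ht.2 ht.1
    refine ⟨0, zero_mem _, c, ⟨⟨hc, zz_iff.2 fun _ ht => ht.elim⟩, zz_iff.2 e₂⟩,
      zz_iff.2 fun t ht => ?_⟩
    rw [map_zero, sub_zero, ← neg_sub]
    exact neg_mem (e₁ t ht)
  cpt _ ψ h := ⟨_, (zz_supp h).1, (zz_supp h).2, fun _ e => zz_iff.2 fun _ ht =>
    by_contra fun k => ht (e k)⟩

/-- a sign that depends on the degree -/
def tauS (X : Type) : Module.End ℂ (AS X) where
  toFun φ := AS.mk (fun l => (-1) ^ l.length.choose 2 * φ.1 l) (by simp)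
  map_add' φ ψ := AS.ext fun l => by simp [mul_add]
  map_smul' c φ := AS.ext fun l => by simp [mul_left_comm]

omit [TopologicalSpace X] [CompactSpace X] [T2Space X] in
theorem tauS_G {k : ℕ} {φ : AS X} (h : φ ∈ AS.G X k) :
    tauS X φ = (-1 : ℂ) ^ (k + 1).choose 2 • φ := AS.ext fun l => by
  show (-1) ^ l.length.choose 2 * φ.1 l = (-1) ^ (k + 1).choose 2 * φ.1 l
  by_cases e : l.length = k + 1
  · rw [e]
  · rw [AS.mem_G.1 h l (by omega), mul_zero, mul_zero]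

omit [TopologicalSpace X] [CompactSpace X] [T2Space X] in
theorem mul_off {i j : ℤ} {ψ φ : AS X} (h : ψ ∈ AS.G X i) (h' : φ ∈ off X j) :
    ψ * φ ∈ off X (i + j) := fun l hl => by
  rw [AS.coe_mul, LA.cup_apply]
  refine Finset.sum_eq_zero fun k hk => ?_
  have := Finset.mem_range.1 hk
  by_cases e : (k : ℤ) = i
  · rw [h' _ (by simp; omega), mul_zero]
  · rw [AS.mem_G.1 h _ (by simp; omega), zero_mul]

theorem fm_C_on (V : Set X) : fm_C.on V = CP univ Vᶜ :=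
  (SC.cx_sub univ ∅ Vᶜ).trans (by rw [empty_union])

theorem exists_b {n : ℕ} {ι : Type} [Finite ι] (a : ι → AS X) (ha : ∀ i, a i ∈ AS.G X n)
    (h : ∀ i, a i ∉ (CC X).B n) : ∃ b : AS X →ₗ[ℂ] Dual ℂ (AS X),
      (∀ V, (fm_C.on V).Mor (fm_E.on V) b (-n)) ∧
      (∀ ψ ∈ AS.G X n, ψ ∈ (CC X).B n → b ψ 1 = 0) ∧ ∀ i, b (a i) 1 ≠ 0 := by
  obtain ⟨μ, hμ⟩ := Module.exists_dual_forall_apply_ne_zero (K := ℂ)
    (fun i => ((CC X).B n).mkQ (a i)) fun i e => h i ((Submodule.Quotient.mk_eq_zero _).1 e)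
  let Λ : Dual ℂ (AS X) := μ ∘ₗ ((CC X).B n).mkQ ∘ₗ (AS.gc X).e n
  have hB : ∀ φ, (AS.gc X).e n φ ∈ (CC X).B n → Λ φ = 0 := fun φ e =>
    (congrArg μ ((Submodule.Quotient.mk_eq_zero _).2 e)).trans (map_zero _)
  have hN : ∀ φ ∈ zz (univ : Set X), Λ φ = 0 := fun φ e => hB φ (Cx.N_le_B (zz_e e n))
  have hd : ∀ φ, Λ (AS.d φ) = 0 := fun φ => hB _ (by
    cases n with
    | zero => exact Cx.meq (zero_mem _) ((AS.gc X).ed0 φ).symm
    | succ n => exact Cx.meq (Cx.d_mem_B (C := CC X)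
        ⟨AS.e_mem_G n φ, zz_iff.2 fun _ ht => ht.elim⟩ (by simp)) ((AS.gc X).ed n φ).symm)
  let b : AS X →ₗ[ℂ] Dual ℂ (AS X) := (LinearMap.mul ℂ (AS X)).compr₂ Λ ∘ₗ tauS X
  have hb : ∀ (k : ℕ), ∀ ψ ∈ AS.G X k, ∀ φ, b ψ φ = (-1) ^ (k + 1).choose 2 * Λ (ψ * φ) :=
    fun k ψ e φ => by
      show Λ (tauS X ψ * φ) = _
      rw [tauS_G e, smul_mul_assoc, map_smul, smul_eq_mul]
  have hc : ∀ (P : ℤ → AS X → Prop), (∀ i, P i 0) → (∀ k : ℕ, ∀ ψ ∈ AS.G X k, P k ψ) →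
      ∀ i, ∀ ψ ∈ AS.G X i, P i ψ := fun P h0 h1 i ψ e => by
    rcases lt_or_ge i 0 with hi | hi
    · exact AS.G_neg hi e ▸ h0 i
    · obtain ⟨k, rfl⟩ := Int.eq_ofNat_of_zero_le hi
      exact h1 k ψ e
  refine ⟨b, fun V => ⟨fun i ψ e => ?_, fun i ψ e => ?_, fun i ψ e => ?_⟩, fun ψ e e' => ?_,
    fun i => ?_⟩
  · refine hc (fun i ψ => ψ ∈ zz Vᶜ → b ψ ∈ (fm_E.on V).G (i + -n))
      (fun _ _ => by rw [map_zero]; exact zero_mem _) (fun k ψ e e' => ?_) i ψ e.1.1 e.2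
    refine ⟨mem_cE_G.2 fun φ hφ => ?_, _, (zz_supp e').1, (zz_supp e').2, fun φ hφ => ?_⟩
    · rw [hb k ψ e, hB _ (by rw [e_off (by simpa using mul_off e hφ)]; exact zero_mem _), mul_zero]
    · rw [hb k ψ e, hN _ (zz_iff.2 fun t _ => ?_), mul_zero]
      by_cases h : ψ ∈ AS.z t
      exacts [AS.z_mul_right h _, AS.z_mul_left _ (zz_iff.1 hφ t h)]
  · refine hc (fun _ ψ => ψ ∈ zz univ → b ψ = 0) (fun _ _ => map_zero _)
      (fun k ψ e e' => LinearMap.ext fun φ => ?_) i ψ e.1.1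
    rw [hb k ψ e, hN _ (zz_iff.2 fun t ht => AS.z_mul_right (zz_iff.1 e' t ht) _), mul_zero]
    rfl
  · refine sub_eq_zero.2 (hc (fun _ ψ => b (AS.d ψ) = (cE X).d (b ψ)) (fun _ => by simp)
      (fun k ψ e => LinearMap.ext fun φ => ?_) i ψ e.1.1)
    have h1 := hd (ψ * φ)
    rw [AS.d_mul, AS.s_of_G e, smul_mul_assoc, map_add, map_smul, smul_eq_mul] at h1
    have e1 : AS.d ψ ∈ AS.G X (k + 1 : ℕ) := by rw [Nat.cast_succ]; exact AS.d_mem_G e
    rw [cE_d, hb k ψ e, hb (k + 1) (AS.d ψ) e1, eq_neg_of_add_eq_zero_left h1,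
      Nat.choose_succ_succ' (k + 1) 1, Nat.choose_one_right, pow_add, pow_succ]
    have h2 : (-1 : ℂ) ^ k * (-1) ^ k = 1 := by rw [← mul_pow]; simp
    linear_combination ((-1) ^ (k + 1).choose 2 * Λ (ψ * AS.d φ)) * h2
  · rw [hb n ψ e, mul_one, hB _ (by rwa [AS.e_of_G e]), mul_zero]
  · rw [hb n _ (ha i), mul_one]
    refine mul_ne_zero (pow_ne_zero _ (by simp)) fun e => hμ i ?_
    rwa [← AS.e_of_G (ha i)]

end Pool.Agent.CS
end
end

-- part Pool.Agent.P.MP_d34769_ag.YZ5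
section

/-! Open cells. -/

open Set Metric

noncomputable section
namespace Pool.Agent.CS

variable {X : Type} [TopologicalSpace X] [CompactSpace X] [T2Space X] {W : Type}
  [NormedAddCommGroup W] [NormedSpace ℝ W] [FiniteDimensional ℝ W] {V : Set X}

theorem Cell.nonempty (h : Cell W V) : V.Nonempty := by
  obtain ⟨-, κ, -, rfl⟩ := h
  exact ⟨_, ⟨0, mem_closedBall_self zero_le_one⟩, by simp, rfl⟩

theorem Cell.contr (h : Cell W V) : ContractibleSpace V := by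
  obtain ⟨-, κ, hi, rfl⟩ := h
  have e1 := (κ.continuous.isClosedEmbedding hi).isEmbedding.homeomorphImage {v | ‖v.1‖ < 1}
  have e2 := (Topology.IsEmbedding.subtypeVal (p := (· ∈ closedBall (0 : W) 1))).homeomorphImage
    {v | ‖v.1‖ < 1}
  have e3 : Subtype.val '' {v : Bl W | ‖v.1‖ < 1} = ball (0 : W) 1 := by
    ext w
    refine ⟨?_, fun hw => ⟨⟨w, ball_subset_closedBall hw⟩, mem_ball_zero_iff.1 hw, rfl⟩⟩
    rintro ⟨v, hv, rfl⟩
    exact mem_ball_zero_iff.2 hv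
  have : ContractibleSpace (Subtype.val '' {v : Bl W | ‖v.1‖ < 1}) := by
    rw [e3]
    exact (convex_ball 0 1).contractibleSpace ⟨0, mem_ball_self one_pos⟩
  exact (e1.symm.trans e2).contractibleSpace

theorem Cell.acy (h : Cell W V) :
    ∀ K, IsCompact K → K ⊆ V → ∃ L, IsCompact L ∧ K ⊆ L ∧ L ⊆ V ∧ AS.Acy L := by
  obtain ⟨-, κ, hi, rfl⟩ := h
  intro K hK hKV
  let o : Bl W := ⟨0, mem_closedBall_self zero_le_one⟩
  obtain ⟨u, hu, hm⟩ := ((hK.isClosed.preimage κ.continuous).isCompact.insert o).exists_isMaxOn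
    (insert_nonempty _ _) (continuous_norm.comp continuous_subtype_val).continuousOn
  have h1 : ‖u.1‖ < 1 := by
    rcases hu with rfl | hu
    · simp [o]
    · exact hi.mem_set_image.1 (hKV hu)
  have hs : closedBall (0 : W) ‖u.1‖ ⊆ closedBall 0 1 := closedBall_subset_closedBall h1.le
  have := FiniteDimensional.proper_real W
  have : CompactSpace (closedBall (0 : W) ‖u.1‖) :=
    isCompact_iff_compactSpace.1 (isCompact_closedBall _ _)
  have hc : Continuous (κ ∘ inclusion hs) := κ.continuous.comp (continuous_inclusion hs)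
  have h0 : (0 : W) ∈ closedBall (0 : W) ‖u.1‖ := mem_closedBall_self (norm_nonneg _)
  refine ⟨range (κ ∘ inclusion hs), isCompact_range hc, fun x hx => ?_, ?_,
    (AS.acy_star h0 ((convex_closedBall _ _).starConvex h0)).range hc
      (hi.comp (inclusion_injective hs))⟩
  · obtain ⟨v, -, rfl⟩ := hKV hx
    exact ⟨⟨v.1, mem_closedBall_zero_iff.2 (hm (mem_insert_of_mem _ hx))⟩, rfl⟩
  · rintro _ ⟨v, rfl⟩
    exact ⟨inclusion hs v, (mem_closedBall_zero_iff.1 v.2).trans_lt h1, rfl⟩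

theorem Cell.sph (h : Cell W V) : (CP univ Vᶜ).Sph (Module.finrank ℝ W) := by
  obtain ⟨o, κ, hi, rfl⟩ := h
  refine ys5_cell_sph κ isClosed_univ o.isClosed_compl (fun _ => trivial) (fun v => ?_)
    (fun t ht => ?_) (ys5_ball _ W rfl)
  · rw [mem_compl_iff, hi.mem_set_image]
    exact ⟨fun a => (ys5_le v).antisymm (not_lt.1 a), fun a b => ne_of_lt b a⟩
  · obtain ⟨v, -, rfl⟩ := not_not.1 ht.2
    exact ⟨v, rfl, fun _ e => hi e⟩

theorem Cell.basis (h : Cell W V) : ∃ 𝓑 : Set (Set X),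
    (∀ B ∈ 𝓑, B ⊆ V ∧ (B = ∅ ∨ Cell W B)) ∧ (∀ B ∈ 𝓑, ∀ B' ∈ 𝓑, B ∩ B' ∈ 𝓑) ∧
      ∀ O, IsOpen O → ∀ x ∈ O ∩ V, ∃ B ∈ 𝓑, x ∈ B ∧ B ⊆ O := by
  obtain ⟨o, κ, hi, rfl⟩ := h
  refine ⟨{B | ∃ s : Set W, IsOpen s ∧ Convex ℝ s ∧ s ⊆ ball 0 1 ∧ B = κ '' {v | v.1 ∈ s}}, ?_, ?_,
    fun O hO x hx => ?_⟩
  · rintro _ ⟨s, so, sc, sb, rfl⟩
    have h1 : κ '' {v | v.1 ∈ s} ⊆ κ '' {v | ‖v.1‖ < 1} :=
      image_mono fun v hv => mem_ball_zero_iff.1 (sb hv)
    refine ⟨h1, ?_⟩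
    rcases s.eq_empty_or_nonempty with rfl | hs
    · exact Or.inl (by simp)
    refine Or.inr ⟨?_, ?_⟩
    · have h2 : κ '' {v | v.1 ∈ s} = κ '' {v | ‖v.1‖ < 1} ∩ (κ '' {v | v.1 ∈ s}ᶜ)ᶜ := by
        refine subset_antisymm ?_ ?_
        · rintro _ ⟨v, hv, rfl⟩
          exact ⟨h1 (mem_image_of_mem _ hv), fun a => hi.mem_set_image.1 a hv⟩
        · rintro _ ⟨⟨v, -, rfl⟩, a⟩
          exact mem_image_of_mem _ (not_not.1 fun b => a (mem_image_of_mem _ b))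
      rw [h2]
      exact o.inter ((so.preimage continuous_subtype_val).isClosed_compl.isCompact.image
        κ.continuous).isClosed.isOpen_compl
    · obtain ⟨g, g1, g2, -⟩ := exists_homeomorph_image_interior_closure_frontier_eq_unitBall sc
        (by rwa [so.interior_eq]) (isBounded_ball.subset sb)
      rw [so.interior_eq] at g1
      have h2 : ∀ v : Bl W, g.symm v.1 ∈ closedBall (0 : W) 1 := fun v => by
        obtain ⟨w, hw, e⟩ := g2.ge v.2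
        rw [← e, g.symm_apply_apply]
        exact closure_minimal (sb.trans ball_subset_closedBall) isClosed_closedBall hw
      refine ⟨κ.comp ⟨fun v => ⟨g.symm v.1, h2 v⟩,
        (g.symm.continuous.comp continuous_subtype_val).subtype_mk _⟩,
        fun a b e => Subtype.ext (g.symm.injective (congrArg Subtype.val (hi e))), ?_⟩
      refine subset_antisymm ?_ ?_
      · rintro _ ⟨v, hv, rfl⟩
        have h3 : g v.1 ∈ ball (0 : W) 1 := g1.le (mem_image_of_mem _ hv)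
        exact ⟨⟨g v.1, ball_subset_closedBall h3⟩, mem_ball_zero_iff.1 h3,
          congrArg κ (Subtype.ext (g.symm_apply_apply _))⟩
      · rintro _ ⟨v, hv, rfl⟩
        obtain ⟨w, hw, e⟩ := g1.ge (mem_ball_zero_iff.2 hv)
        refine ⟨_, ?_, rfl⟩
        show g.symm v.1 ∈ s
        rwa [← e, g.symm_apply_apply]
  · rintro _ ⟨s, so, sc, sb, rfl⟩ _ ⟨t, tO, tc, -, rfl⟩
    exact ⟨s ∩ t, so.inter tO, sc.inter tc, inter_subset_left.trans sb, (image_inter hi).symm⟩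
  · obtain ⟨h1, v, hv, rfl⟩ := hx
    obtain ⟨ε, hε, e⟩ := Metric.isOpen_iff.1 (hO.preimage κ.continuous) v h1
    refine ⟨_, ⟨ball v.1 ε ∩ ball 0 1, isOpen_ball.inter isOpen_ball,
      (convex_ball _ _).inter (convex_ball _ _), inter_subset_right, rfl⟩,
      ⟨v, ⟨mem_ball_self hε, mem_ball_zero_iff.2 hv⟩, rfl⟩, ?_⟩
    rintro _ ⟨w, hw, rfl⟩
    exact e hw.1

theorem Fm.cells {T T' : Type} [AddCommGroup T] [Module ℂ T] [AddCommGroup T'] [Module ℂ T']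
    {C : Cx T} {C' : Cx T'} {𝒜 : Set X → Submodule ℂ T} {𝒜' : Set X → Submodule ℂ T'}
    {f : T →ₗ[ℂ] T'} {s : ℤ} (h : Fm C 𝒜) (h' : Fm C' 𝒜') (m : ∀ V, (h.on V).Mor (h'.on V) f s)
    {ι : Type} {P : ι → Set X} (hP : ∀ i, Cell W (P i)) (cov : ∀ x, ∃ i, x ∈ P i)
    (q : ∀ i B, Cell W B → B ⊆ P i → (h.on B).QIa (h'.on B) f s) (hV : IsOpen V) :
    (h.on V).QIa (h'.on V) f s := by
  refine h.glue h' m (𝓑 := {B | IsOpen B ∧ ∃ i, B ⊆ P i}) (fun _ b => b.1)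
    (fun _ ⟨b, i, e⟩ _ b' => ⟨b.inter b'.1, i, inter_subset_left.trans e⟩)
    (fun O ⟨o, i, e⟩ => ?_) fun x hx => ?_
  · obtain ⟨𝓑, b1, b2, b3⟩ := (hP i).basis
    refine h.glue h' m (fun B hB => ?_) b2 (fun B hB => ?_) fun x hx => b3 O o x ⟨hx, e hx⟩
    · rcases (b1 B hB).2 with rfl | c
      exacts [isOpen_empty, c.1]
    · rcases (b1 B hB).2 with rfl | c
      exacts [h.qia_empty h', q i B c (b1 B hB).1]
  · obtain ⟨i, hi⟩ := cov x
    exact ⟨V ∩ P i, ⟨hV.inter (hP i).1, i, inter_subset_right⟩, ⟨hx, hi⟩, inter_subset_left⟩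

end Pool.Agent.CS
end
end

-- part Pool.Agent.P.MP_d34769_ag.YZ6
section

/-! Poincare duality between singular homology and cohomology with compact support. -/

open Set

noncomputable section
namespace Pool.Agent.CS

variable {X : Type} [TopologicalSpace X] [CompactSpace X] [T2Space X] {W : Type}
  [NormedAddCommGroup W] [NormedSpace ℝ W] [FiniteDimensional ℝ W]

theorem pdual {n : ℕ} (hn : Module.finrank ℝ W = n) (hc : ∀ x : X, ∃ V, Cell W V ∧ x ∈ V)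
    (ho : ∀ G : Set X, IsOpen G → G.Nonempty → ∃ a ∈ (CP univ Gᶜ).Z n, a ∉ (CC X).B n)
    {U : Set X} (hU : IsOpen U) (k : ℕ) :
    Bet.RK U ∅ k = Module.rank ℂ ((CP univ Uᶜ).H (n - k)) := by
  choose P hP hx using hc
  obtain ⟨t, ht⟩ := isCompact_univ.elim_finite_subcover P (fun x => (hP x).1)
    fun x _ => mem_iUnion.2 ⟨x, hx x⟩
  have cov : ∀ x, ∃ i : t, x ∈ P i := fun x => by
    obtain ⟨y, hy, e⟩ := mem_iUnion₂.1 (ht (mem_univ x))
    exact ⟨⟨y, hy⟩, e⟩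
  have hB : ∀ (V : Set X), (CP univ Vᶜ).B n ≤ (CC X).B n := fun V =>
    sup_le_sup_right (Submodule.map_mono (inf_le_inf_left _ (SC.zz_anti (empty_subset _)))) _
  choose c hc1 hc2 using fun i : t => ho (P i) (hP i).1 (hP i).nonempty
  obtain ⟨a, a1, a2⟩ := exists_a (X := X)
  obtain ⟨b, b1, b2, b3⟩ := exists_b c (fun i => (hc1 i).1.1) hc2
  have qa := fm_T.cells fm_E a1 (fun i : t => hP i) cov (fun i B hB _ => by
    obtain ⟨x, x1, x2⟩ := a2 B hB.nonempty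
    have := hB.contr
    exact qia_E (add_zero 0) hB.acy (a1 B) (sph_T B) x1 x2) hU
  have qb := fm_C.cells fm_E b1 (fun i : t => hP i) cov (fun i B cB e => by
    obtain ⟨x, x1, x2⟩ := ho B cB.1 cB.nonempty
    refine qia_E (add_neg_cancel (n : ℤ)) cB.acy (b1 B) (by rw [fm_C_on, ← hn]; exact cB.sph)
      (x := x) (by rwa [fm_C_on]) fun x0 => ?_
    have x3 : x ∈ (CP univ (P i)ᶜ).Z n := ⟨⟨x1.1.1, SC.zz_anti (compl_subset_compl.2 e) x1.1.2⟩, x1.2⟩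
    obtain ⟨g, -, hg⟩ := (hn ▸ (hP i).sph : (CP univ (P i)ᶜ).Sph n).2
    obtain ⟨r, hr⟩ := hg x x3
    obtain ⟨s, hs⟩ := hg _ (hc1 i)
    have r0 : r ≠ 0 := fun c => x2 (hB _ (by simpa [c] using hr))
    have h1 : c i - (s / r) • x ∈ (CC X).B n := hB _ (Cx.meq
      (sub_mem hs (Submodule.smul_mem _ (s / r) hr))
      (by rw [smul_sub, smul_smul, div_mul_cancel₀ _ r0]; abel))
    have h2 := b2 _ (sub_mem (hc1 i).1.1 (Submodule.smul_mem _ _ x1.1.1)) h1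
    rw [map_sub, map_smul, LinearMap.sub_apply, LinearMap.smul_apply, x0, smul_zero, sub_zero] at h2
    exact b3 i h2) hU
  rw [← rank_T, qa.rank (a1 U) (add_zero _), ← fm_C_on,
    qb.rank (b1 U) (n := n - k) (m := -k) (by ring)]

end Pool.Agent.CS
end
end
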