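import Pool.Agent.K.MP_d34769_ag.C78
import Pool.Agent.K.MP_d34769_ag.C8

/-! Definitions for the closed formula of the Hodge polynomial. -/

open Module

noncomputable section
namespace Pool.Agent.CS.EC
open Pool.Agent.P.MP_d34769_ag

/-- dimension vectors -/
abbrev V := Fin 3 → ℕ

section series
open PowerSeries

/-- the number of arrows from a set of type `f` to a set of type `g` -/
def dl (f g : V) : ℕ := (2 * f 0 + f 2) * g 1

/-- the degree of the discriminant -/
def cb (d : V) : ℕ := ∑ v, (d v).choose 2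

/-- the inverse of the product of the `1 - t ^ j`, `1 ≤ j ≤ n` -/
def iq (n : ℕ) : ℚ⟦X⟧ := ∏ j ∈ Finset.range n, (1 - X ^ (j + 1))⁻¹

/-- the Hilbert series of the alternating polynomials -/
def hF (d : V) : ℚ⟦X⟧ := ∏ v, (X ^ (d v).choose 2 * iq (d v))

/-- the Hilbert series of the alternating constants -/
def hZ (d : V) : ℚ⟦X⟧ := if ∀ v, d v ≤ 1 then 1 else 0

/-- the factorisation of `hF` into a part of weight `≥ 0` and a part of weight `< 0` -/
structure Bk (θ : V → ℝ) (P N : V → ℚ⟦X⟧) : Prop where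
  P0 : P 0 = 1
  N0 : N 0 = 1
  Pz : ∀ d, θ d < 0 → P d = 0
  Nz : ∀ d, d ≠ 0 → 0 ≤ θ d → N d = 0
  eq : ∀ d, hF d = ∑ f ∈ Finset.Iic d, X ^ dl f (d - f) * (P f * N (d - f))

/-- the series of a block with label `t` -/
def hh (P N : V → ℚ⟦X⟧) (t : Fin 4) (d : V) : ℚ⟦X⟧ := ![hZ d, hF d, P d, N d] t

/-- `s` is the expansion at zero of the rational function `f` -/
def Ser (f : ℚ → ℚ) (s : ℚ⟦X⟧) : Prop :=
  ∃ A B : Polynomial ℚ, (∀ q : ℚ, 1 < q → B.eval q ≠ 0 ∧ f q * B.eval q = A.eval q) ∧ s * B = A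

/-- the substitution of `t ^ r` for `t` (for `r ≥ 1`) -/
def ex (r : ℕ) : ℚ⟦X⟧ →ₐ[ℚ] ℚ⟦X⟧ := expand (r - 1 + 1) (Nat.succ_ne_zero _)

theorem ex_eq {r : ℕ} (h : r ≠ 0) : ex r = expand r h := by
  obtain ⟨r, rfl⟩ := Nat.exists_eq_succ_of_ne_zero h
  rfl

/-- convolution -/
def cv {R : Type} [CommRing R] (a b : V → R) (e : V) : R := ∑ f ∈ Finset.Iic e, a f * b (e - f)

/-- the logarithmic derivative of the plethystic exponential of `L` -/
def GG (L : V → ℚ⟦X⟧) (e : V) : ℚ⟦X⟧ :=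
  ∑ r ∈ (Finset.univ.gcd e).divisors, (sz fun i => e i / r : ℚ⟦X⟧) * ex r (L fun i => e i / r)

/-- a signed count -/
def sc {A : Type} (ok : A → Prop) (ln : A → ℕ) (w : A → V × ℕ) (d : V) : ℚ⟦X⟧ :=
  PowerSeries.mk fun p => ∑ ℓ ∈ Finset.range (sz d + 1),
    (-1) ^ ℓ * (Nat.card {a // ok a ∧ ln a = ℓ ∧ w a = (d, p)} : ℚ)

theorem th0 {θ : V → ℝ} (hθ : ∀ a b, θ (a + b) = θ a + θ b) : θ 0 = 0 := by simpa using hθ 0 0

theorem th_sub {θ : V → ℝ} (hθ : ∀ a b, θ (a + b) = θ a + θ b) {f e : V} (h : f ≤ e) :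
    θ (e - f) = θ e - θ f := by
  rw [eq_sub_iff_add_eq, ← hθ, tsub_add_cancel_of_le h]

theorem sz_add (a b : V) : sz (a + b) = sz a + sz b := by
  simp only [sz, Pi.add_apply]
  ring

end series

section words
variable {X : Type} (wt : X → V × ℕ)

/-- an alphabet with finitely many letters of each weight -/
structure Alp : Prop where
  ne : ∀ x, (wt x).1 ≠ 0
  fin : ∀ g, {x | wt x = g}.Finite

/-- the weight of a word -/
def ww (w : List X) : V × ℕ := (w.map wt).sum

/-- functions on the words of length `ℓ` and weight `g` that kill all shuffles -/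
def Ksp (ℓ : ℕ) (g : V × ℕ) : Submodule ℂ (List X → ℂ) where
  carrier := {c | (∀ w, ¬ (w.length = ℓ ∧ ww wt w = g) → c w = 0) ∧
    ∀ u v, u ≠ [] → v ≠ [] → shuf u v c = 0}
  add_mem' {a b} ha hb := ⟨fun w h => by rw [Pi.add_apply, ha.1 w h, hb.1 w h, add_zero],
    fun u v hu hv => ((shuf_nat u v).add a b).trans (by rw [ha.2 u v hu hv, hb.2 u v hu hv, add_zero])⟩
  zero_mem' := ⟨fun _ _ => rfl, fun u v _ _ => (shuf_nat u v).zero⟩
  smul_mem' c a ha := ⟨fun w h => by rw [Pi.smul_apply, ha.1 w h, smul_zero],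
    fun u v hu hv => ((shuf_nat u v).smul c a).trans (by rw [ha.2 u v hu hv, smul_zero])⟩

/-- its dimension -/
def Kd (ℓ : ℕ) (g : V × ℕ) : ℕ := finrank ℂ (Ksp wt ℓ g)

/-- the alternating sum of these dimensions -/
def LL (d : V) : PowerSeries ℚ :=
  PowerSeries.mk fun p => ∑ ℓ ∈ Finset.range (sz d), (-1) ^ ℓ * (Kd wt (ℓ + 1) (d, p) : ℚ)

/-- one plus the series of the letters -/
def pp (d : V) : PowerSeries ℚ :=
  if d = 0 then 1 else PowerSeries.mk fun p => (Nat.card {x // wt x = (d, p)} : ℚ)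

/-- no element of odd length is repeated -/
def Adm {J : Type} [DecidableEq J] (len : J → ℕ) (s : Multiset J) : Prop :=
  ∀ j, Odd (len j) → s.count j ≤ 1

variable {wt}

theorem ww_nil : ww wt [] = 0 := rfl
theorem ww_cons (x : X) (w : List X) : ww wt (x :: w) = wt x + ww wt w := by simp [ww]
theorem ww_append (u v : List X) : ww wt (u ++ v) = ww wt u + ww wt v := by simp [ww]
theorem ww_perm {u v : List X} (h : u.Perm v) : ww wt u = ww wt v := (h.map wt).sum_eq

theorem Alp.le (h : Alp wt) (g : V × ℕ) : {x | wt x ≤ g}.Finite :=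
  (((Set.finite_Iic g.1).prod (Set.finite_Iic g.2)).biUnion fun a _ => h.fin a).subset fun x hx =>
    Set.mem_biUnion (x := wt x) hx rfl

theorem Alp.len (h : Alp wt) (w : List X) : w.length ≤ sz (ww wt w).1 := by
  induction w with
  | nil => exact Nat.zero_le _
  | cons x w ih =>
    have := Nat.pos_of_ne_zero fun k => h.ne x (sz_eq_zero k)
    rw [ww_cons, Prod.fst_add, sz_add, List.length_cons]
    omega

theorem Alp.words (h : Alp wt) (g : V × ℕ) : {w | ww wt w = g}.Finite := by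
  have := (h.le g).to_subtype
  refine ((List.finite_length_le {x | wt x ≤ g} (sz g.1)).image (List.map Subtype.val)).subset ?_
  rintro w rfl
  refine ⟨w.attachWith (· ∈ {x | wt x ≤ ww wt w}) fun x hx => List.single_le_sum
    (l := w.map wt) (fun _ _ => zero_le) _ (List.mem_map_of_mem hx), ?_,
    List.attachWith_map_subtype_val _⟩
  exact List.length_attachWith.trans_le (h.len w)

end words

section poly
open MvPolynomial
variable {I : Type} [Fintype I] [DecidableEq I] (col : I → Fin 3) (θ : V → ℝ) (o : I → ℕ)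

/-- the generators of the ideal of a block with label `t` -/
def gen (t : Fin 4) (b : Finset I) : Set (MvPolynomial I ℂ) :=
  ![X '' (b : Set I), ∅, {e | ∃ G ⊆ b, θ (dvec col b) < θ (dvec col G) ∧ e = eul col b G},
    {e | ∃ G ⊆ b, G ≠ ∅ ∧ 0 ≤ θ (dvec col G) ∧ e = eul col b G}] t

/-- the ideal of a list of labelled blocks -/
def JJ (c : List (Finset I × Fin 4)) : Ideal (MvPolynomial I ℂ) :=
  Ideal.span {e | ∃ x ∈ c, e ∈ gen col θ x.2 x.1}

/-- `l` is a partition of the indices (empty blocks are allowed) -/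
def Pa (l : List (Finset I)) : Prop := (l.map Finset.val).sum = Finset.univ.val

/-- the permutations that keep the colours and the blocks -/
def WL (l : List (Finset I)) : Subgroup (Equiv.Perm I) where
  carrier := {w | (∀ i, col (w i) = col i) ∧ ∀ b ∈ l, ∀ i, w i ∈ b ↔ i ∈ b}
  mul_mem' ha hb := ⟨fun i => (ha.1 _).trans (hb.1 i),
    fun b h i => (ha.2 b h _).trans (hb.2 b h i)⟩
  one_mem' := ⟨fun _ => rfl, fun _ _ _ => Iff.rfl⟩
  inv_mem' {w} h := ⟨fun i => by rw [← h.1 (w⁻¹ i)]; simp,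
    fun b k i => by rw [← h.2 b k (w⁻¹ i)]; simp⟩

/-- the permutations of one block -/
def Wb (b : Finset I) : Subgroup (Equiv.Perm I) where
  carrier := {w | (∀ i, col (w i) = col i) ∧ ∀ i ∉ b, w i = i}
  mul_mem' {v w} ha hb := ⟨fun i => (ha.1 _).trans (hb.1 i),
    fun i h => by rw [Equiv.Perm.mul_apply, hb.2 i h, ha.2 i h]⟩
  one_mem' := ⟨fun _ => rfl, fun _ _ => rfl⟩
  inv_mem' {w} h := ⟨fun i => by rw [← h.1 (w⁻¹ i)]; simp,
    fun i k => Equiv.Perm.inv_eq_iff_eq.2 (h.2 i k).symm⟩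

/-- alternating polynomials of degree `p` -/
def An (G : Subgroup (Equiv.Perm I)) (p : ℕ) : Submodule ℂ (MvPolynomial I ℂ) where
  carrier := {g | g.IsHomogeneous p ∧ ∀ w ∈ G, rename w g = ((Equiv.Perm.sign w : ℤ) : ℂ) • g}
  add_mem' ha hb := ⟨ha.1.add hb.1, fun w h => by rw [map_add, ha.2 w h, hb.2 w h, smul_add]⟩
  zero_mem' := ⟨isHomogeneous_zero _ _ _, fun _ _ => by simp⟩
  smul_mem' c _ ha := ⟨(homogeneousSubmodule I ℂ p).smul_mem c ha.1,
    fun w h => by rw [map_smul, ha.2 w h, smul_comm]⟩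

/-- invariant polynomials of degree `p` -/
def In (G : Subgroup (Equiv.Perm I)) (p : ℕ) : Submodule ℂ (MvPolynomial I ℂ) where
  carrier := {g | g.IsHomogeneous p ∧ ∀ w ∈ G, rename w g = g}
  add_mem' ha hb := ⟨ha.1.add hb.1, fun w h => by rw [map_add, ha.2 w h, hb.2 w h]⟩
  zero_mem' := ⟨isHomogeneous_zero _ _ _, fun _ _ => by simp⟩
  smul_mem' c _ ha := ⟨(homogeneousSubmodule I ℂ p).smul_mem c ha.1,
    fun w h => by rw [map_smul, ha.2 w h]⟩

/-- the dimension of the image of `U` modulo `J` -/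
def qd (U : Submodule ℂ (MvPolynomial I ℂ)) (J : Ideal (MvPolynomial I ℂ)) : ℕ :=
  finrank ℂ (U.map (J.restrictScalars ℂ).mkQ)

/-- a Hilbert series -/
def hs (U : ℕ → Submodule ℂ (MvPolynomial I ℂ)) (J : Ideal (MvPolynomial I ℂ)) : PowerSeries ℚ :=
  PowerSeries.mk fun p => (qd (U p) J : ℚ)

/-- the Hilbert series of the alternating part -/
def HS (c : List (Finset I × Fin 4)) : PowerSeries ℚ :=
  hs (An (WL col (c.map Prod.fst))) (JJ col θ c)

/-- the Hilbert series of the tautological ring -/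
def HI (l : List (Finset I)) : PowerSeries ℚ := hs (In (WL col l)) (RelI col θ o l)

/-- `e` is not a zero divisor modulo `J` -/
def Nz (J : Ideal (MvPolynomial I ℂ)) (e : MvPolynomial I ℂ) : Prop := ∀ g, g * e ∈ J → g ∈ J

/-- `J` is homogeneous -/
def Hm (J : Ideal (MvPolynomial I ℂ)) : Prop := ∀ g ∈ J, ∀ p, homogeneousComponent p g ∈ J

/-- Harrison cochains -/
def HarS (p : ℕ) : Submodule ℂ (List (Finset I) → MvPolynomial I ℂ) where
  carrier := {φ | Har col θ o p φ}
  add_mem' {a b} ha hb := ⟨fun l => (ha.1 l).add (hb.1 l),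
    fun w hw l => by rw [Pi.add_apply, Pi.add_apply, ha.2.1 w hw, hb.2.1 w hw, map_add],
    fun u v hu hv h => (shuf_nat u v).add a b ▸
      (RelI col θ o _).add_mem (ha.2.2 u v hu hv h) (hb.2.2 u v hu hv h)⟩
  zero_mem' := ⟨fun _ => isHomogeneous_zero _ _ _, fun _ _ _ => by simp,
    fun u v _ _ _ => (shuf_nat u v).memS (RelI col θ o _) fun _ _ => zero_mem _⟩
  smul_mem' c a ha := ⟨fun l => (homogeneousSubmodule I ℂ p).smul_mem c (ha.1 l),
    fun w hw l => by rw [Pi.smul_apply, Pi.smul_apply, ha.2.1 w hw, map_smul],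
    fun u v hu hv h => (shuf_nat u v).smul c a ▸
      (RelI col θ o _).smul_of_tower_mem c (ha.2.2 u v hu hv h)⟩

/-- cochains whose values in length `ℓ` are relations -/
def Nl (ℓ : ℕ) : Submodule ℂ (List (Finset I) → MvPolynomial I ℂ) where
  carrier := {φ | ∀ l, Cmp col θ l → l.length = ℓ → Rel col θ o l (φ l)}
  add_mem' ha hb l h k := (RelI col θ o _).add_mem (ha l h k) (hb l h k)
  zero_mem' _ _ _ := (RelI col θ o _).zero_mem
  smul_mem' c _ ha l h k := (RelI col θ o _).smul_of_tower_mem c (ha l h k)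

/-- the dimension of the Harrison cochains of length `ℓ` -/
def cd (ℓ p : ℕ) : ℕ := finrank ℂ ((HarS col θ o p).map (Nl col θ o ℓ).mkQ)

variable {col θ o}

omit [Fintype I] [DecidableEq I] in
theorem hc_mul {e : MvPolynomial I ℂ} {δ : ℕ} (h : e.IsHomogeneous δ) (f : MvPolynomial I ℂ)
    (p : ℕ) : homogeneousComponent p (f * e) =
      if δ ≤ p then homogeneousComponent (p - δ) f * e else 0 := by
  let := MvPolynomial.gradedAlgebra (σ := I) (R := ℂ)
  have k : ∀ (g : MvPolynomial I ℂ) n, (DirectSum.decompose (homogeneousSubmodule I ℂ) g n :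
      MvPolynomial I ℂ) = homogeneousComponent n g := decomposition.decompose'_apply
  rw [← k, ← k]
  exact DirectSum.coe_decompose_mul_of_right_mem (homogeneousSubmodule I ℂ) p h

omit [DecidableEq I] in
theorem fin_of_hom {U : Submodule ℂ (MvPolynomial I ℂ)} {p : ℕ} (h : ∀ g ∈ U, g.IsHomogeneous p) :
    Module.Finite ℂ U :=
  have := Module.Finite.iff_fg.2 (homogeneousSubmodule_fg (σ := I) (R := ℂ) p)
  Submodule.finiteDimensional_of_le (S₂ := homogeneousSubmodule I ℂ p) h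

theorem fin_An (G : Subgroup (Equiv.Perm I)) (p : ℕ) : Module.Finite ℂ (An G p) :=
  fin_of_hom fun _ h => h.1

omit [DecidableEq I] in
theorem fin_In (G : Subgroup (Equiv.Perm I)) (p : ℕ) : Module.Finite ℂ (In G p) :=
  fin_of_hom fun _ h => h.1

theorem sq_eq {M M' : Type} [AddCommGroup M] [Module ℂ M] [AddCommGroup M'] [Module ℂ M']
    (A B : Submodule ℂ M) (A' B' : Submodule ℂ M') (f : M →ₗ[ℂ] M')
    (h : ∀ x ∈ A, f x ∈ A' ⊔ B') (h' : ∀ y ∈ A', ∃ x ∈ A, y - f x ∈ B')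
    (k : ∀ x ∈ A, f x ∈ B' ↔ x ∈ B) : finrank ℂ (A.map B.mkQ) = finrank ℂ (A'.map B'.mkQ) := by
  have e1 : A.map B.mkQ = LinearMap.range (B.mkQ ∘ₗ A.subtype) := by
    rw [LinearMap.range_comp, Submodule.range_subtype]
  have e2 : A'.map B'.mkQ = LinearMap.range (B'.mkQ ∘ₗ f ∘ₗ A.subtype) := by
    refine le_antisymm ?_ ?_
    · rintro _ ⟨y, hy, rfl⟩
      obtain ⟨x, hx, e⟩ := h' y hy
      exact ⟨⟨x, hx⟩, ((Submodule.Quotient.eq _).2 e).symm⟩
    · rintro _ ⟨x, rfl⟩
      obtain ⟨y, hy, z, hz, e⟩ := Submodule.mem_sup.1 (h x.1 x.2)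
      exact ⟨y, hy, ((Submodule.Quotient.eq _).2 (by
        rw [show (f ∘ₗ A.subtype) x = y + z from e.symm, add_sub_cancel_left]; exact hz)).symm⟩
  have e3 : LinearMap.ker (B.mkQ ∘ₗ A.subtype) = LinearMap.ker (B'.mkQ ∘ₗ f ∘ₗ A.subtype) := by
    ext x
    simp [k x.1 x.2]
  rw [e1, e2, ← (LinearMap.quotKerEquivRange _).finrank_eq,
    ← (LinearMap.quotKerEquivRange _).finrank_eq, e3]

end poly

section letters
variable (θ : V → ℝ)

/-- the standard set of indices of type `d` -/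
abbrev Id (d : V) : Type := Σ v, Fin (d v)

open Classical in
/-- the dimension of the tautological ring of type `d` in degree `p` -/
def vd (d : V) (p : ℕ) : ℕ := if d ≠ 0 ∧ θ d = 0 then
  qd (In (WL (I := Id d) Sigma.fst [Finset.univ]) p)
    (RelI (I := Id d) Sigma.fst θ (fun i => i.2) [Finset.univ]) else 0

/-- the alphabet -/
abbrev Lt : Type := Σ g : V × ℕ, Fin (vd θ g.1 g.2)

variable {I X : Type} [Fintype I] [DecidableEq I] {wt : X → V × ℕ} (h : Alp wt) (col : I → Fin 3)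
  (o : I → ℕ) (ab : Finset I → X → MvPolynomial I ℂ)

/-- the ways to attach to each block `b` a letter from `T b` -/
def Zd (T : Finset I → Finset X) : List (Finset I) → Finset (List (Finset I × X))
  | [] => {[]}
  | b :: l => (T b ×ˢ Zd T l).map ⟨fun q => (b, q.1) :: q.2, fun _ _ e => by
      simpa [Prod.ext_iff] using e⟩

/-- the letters of the type of `b` and degree at most `p` -/
def Tp (p : ℕ) (b : Finset I) : Finset X :=
  (h.le (dvec col b, p)).toFinset.filter fun x => (wt x).1 = dvec col b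

/-- decorations of total degree `p` -/
def Zp (p : ℕ) (l : List (Finset I)) : Finset (List (Finset I × X)) :=
  (Zd (Tp h col p) l).filter fun z => (z.map fun y => (wt y.2).2).sum = p

/-- the cochain of a function on words -/
def Ph (p : ℕ) (c : List X → ℂ) (l : List (Finset I)) : MvPolynomial I ℂ :=
  ∑ z ∈ Zp h col p l, c (z.map Prod.snd) • (z.map fun y => ab y.1 y.2).prod

/-- the products of the `ab b x` are bases of the tautological rings -/
structure Bas : Prop where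
  eqv : ∀ w : Equiv.Perm I, (∀ i, col (w i) = col i) → ∀ b x,
    MvPolynomial.rename w (ab b x) = ab (b.image w) x
  hom : ∀ b x, (ab b x).IsHomogeneous (wt x).2
  span : ∀ p l, Cmp col θ l → ∀ f ∈ In (WL col l) p, ∃ c, Rel col θ o l (f - Ph h col ab p c l)
  ind : ∀ p l, Cmp col θ l → ∀ c, Rel col θ o l (Ph h col ab p c l) →
    ∀ z ∈ Zp h col p l, c (z.map Prod.snd) = 0

omit [Fintype I] [DecidableEq I] in
theorem sum_Zd {M : Type} [AddCommMonoid M] (T : Finset I → Finset X) (b : Finset I)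
    (l : List (Finset I)) (F : List (Finset I × X) → M) :
    ∑ z ∈ Zd T (b :: l), F z = ∑ x ∈ T b, ∑ z ∈ Zd T l, F ((b, x) :: z) := by
  rw [Zd, Finset.sum_map, Finset.sum_product]
  rfl

omit [Fintype I] [DecidableEq I] in
theorem mem_Zd (T : Finset I → Finset X) (l : List (Finset I)) :
    ∀ z, z ∈ Zd T l ↔ z.map Prod.fst = l ∧ ∀ y ∈ z, y.2 ∈ T y.1 := by
  induction l with
  | nil => intro z; simp +contextual [Zd]
  | cons b l ih =>
    intro z
    simp only [Zd, Finset.mem_map, Finset.mem_product, ih, Function.Embedding.coeFn_mk]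
    constructor
    · rintro ⟨q, ⟨h1, h2, h3⟩, rfl⟩
      exact ⟨by simp [h2], List.forall_mem_cons.2 ⟨h1, h3⟩⟩
    · rintro ⟨h1, h2⟩
      obtain ⟨y, z, rfl, rfl, rfl⟩ := List.map_eq_cons_iff.1 h1
      rw [List.forall_mem_cons] at h2
      exact ⟨(y.2, z), ⟨h2.1, rfl, h2.2⟩, rfl⟩

omit [Fintype I] [DecidableEq I] in
theorem mem_Zp (p : ℕ) (l : List (Finset I)) (z : List (Finset I × X)) :
    z ∈ Zp h col p l ↔ z.map Prod.fst = l ∧ (∀ y ∈ z, (wt y.2).1 = dvec col y.1) ∧
      (z.map fun y => (wt y.2).2).sum = p := by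
  simp only [Zp, Finset.mem_filter, mem_Zd, Tp, Set.Finite.mem_toFinset, Set.mem_ofPred_eq]
  refine ⟨fun k => ⟨k.1.1, fun y hy => (k.1.2 y hy).2, k.2⟩,
    fun k => ⟨⟨k.1, fun y hy => ⟨⟨(k.2.1 y hy).le, ?_⟩, k.2.1 y hy⟩⟩, k.2.2⟩⟩
  exact k.2.2 ▸ List.single_le_sum (fun _ _ => zero_le) _
    (List.mem_map_of_mem (f := fun y => (wt y.2).2) hy)

end letters

end Pool.Agent.CS.EC
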