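import Pool.Agent.K.MP_d34769_ag.C154

/-! From power series to the counting function. -/

open PowerSeries

noncomputable section
namespace Pool.Agent.CS.EC
open Pool.Agent.P.MP_d34769_ag
variable {θ : V → ℝ} {P N : V → ℚ⟦X⟧}

theorem Ser.cancel {f : ℚ → ℚ} {s : ℚ⟦X⟧} {n : ℕ} (h : Ser (fun q => q ^ n * f q) (X ^ n * s)) :
    Ser f s := by
  obtain ⟨A, B, h1, h2⟩ := h
  refine ⟨A, Polynomial.X ^ n * B, fun q hq => ?_, ?_⟩
  · simp only [Polynomial.eval_mul, Polynomial.eval_pow, Polynomial.eval_X, ← (h1 q hq).2]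
    exact ⟨mul_ne_zero (pow_ne_zero _ (zero_lt_one.trans hq).ne') (h1 q hq).1, by ring⟩
  · rw [← h2, Polynomial.coe_mul, Polynomial.coe_pow, Polynomial.coe_X]
    ring

theorem Ser.eq {f : ℚ → ℚ} {s : ℚ⟦X⟧} (h : Ser f s) {A : Polynomial ℚ}
    (hA : ∀ q : ℚ, 1 < q → A.eval q = f q) : s = A := by
  obtain ⟨A', B, h1, h2⟩ := h
  have hB : (B : ℚ⟦X⟧) ≠ 0 := fun h0 =>
    (h1 2 one_lt_two).1 (by rw [Polynomial.coe_eq_zero_iff.1 h0, Polynomial.eval_zero])
  have h3 : A' = A * B := Polynomial.eq_of_infinite_eval_eq _ _ ((Set.Ioi_infinite 1).mono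
    fun q hq => by
      rw [Set.mem_ofPred_eq, Polynomial.eval_mul, hA q hq, (h1 q hq).2])
  rw [h3, Polynomial.coe_mul] at h2
  exact mul_right_cancel₀ hB h2

section closure
variable {f g : ℚ → ℚ} {s t : ℚ⟦X⟧}

theorem Ser.congr_U6 (h : Ser f s) (e : ∀ q, 1 < q → f q = g q) (e' : s = t) : Ser g t := by
  obtain ⟨A, B, h1, h2⟩ := h
  exact ⟨A, B, fun q hq => e q hq ▸ h1 q hq, e' ▸ h2⟩

theorem Ser.const_U6 (c : ℚ) : Ser (fun _ => c) (C c) :=
  ⟨Polynomial.C c, 1, fun q _ => by simp, by simp⟩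

theorem Ser.pow_U6 (n : ℕ) : Ser (fun q => q ^ n) (X ^ n) :=
  ⟨Polynomial.X ^ n, 1, fun q _ => by simp, by simp⟩

theorem Ser.add_U6 (hf : Ser f s) (hg : Ser g t) : Ser (fun q => f q + g q) (s + t) := by
  obtain ⟨A, B, h, k⟩ := hf
  obtain ⟨A', B', h', k'⟩ := hg
  refine ⟨A * B' + A' * B, B * B', fun q hq => ?_, ?_⟩
  · simp only [Polynomial.eval_mul, Polynomial.eval_add, ← (h q hq).2, ← (h' q hq).2]
    exact ⟨mul_ne_zero (h q hq).1 (h' q hq).1, by ring⟩
  · simp only [Polynomial.coe_mul, Polynomial.coe_add, ← k, ← k']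
    ring

theorem Ser.mul_U6 (hf : Ser f s) (hg : Ser g t) : Ser (fun q => f q * g q) (s * t) := by
  obtain ⟨A, B, h, k⟩ := hf
  obtain ⟨A', B', h', k'⟩ := hg
  refine ⟨A * A', B * B', fun q hq => ?_, ?_⟩
  · simp only [Polynomial.eval_mul, ← (h q hq).2, ← (h' q hq).2]
    exact ⟨mul_ne_zero (h q hq).1 (h' q hq).1, by ring⟩
  · simp only [Polynomial.coe_mul, ← k, ← k']
    ring

theorem Ser.int_U6 (c : ℤ) : Ser (fun _ => c) c :=
  (Ser.const_U6 c).congr_U6 (fun _ _ => rfl) (by simp)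

theorem Ser.neg_U6 (hf : Ser f s) : Ser (fun q => -f q) (-s) :=
  ((Ser.int_U6 (-1)).mul_U6 hf).congr_U6 (fun _ _ => by simp) (by simp)

theorem Ser.sum_U6 {β : Type} (T : Finset β) {F : β → ℚ → ℚ} {S : β → ℚ⟦X⟧}
    (h : ∀ b ∈ T, Ser (F b) (S b)) : Ser (fun q => ∑ b ∈ T, F b q) (∑ b ∈ T, S b) := by
  classical
  induction T using Finset.induction_on with
  | empty => simpa using Ser.int_U6 0
  | insert b T hb ih =>
    simp only [Finset.sum_insert hb]
    exact (h b (by simp)).add_U6 (ih fun c hc => h c (by simp [hc]))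

theorem Ser.prod_U6 {β : Type} (T : Finset β) {F : β → ℚ → ℚ} {S : β → ℚ⟦X⟧}
    (h : ∀ b ∈ T, Ser (F b) (S b)) : Ser (fun q => ∏ b ∈ T, F b q) (∏ b ∈ T, S b) := by
  classical
  induction T using Finset.induction_on with
  | empty => simpa using Ser.int_U6 1
  | insert b T hb ih =>
    simp only [Finset.prod_insert hb]
    exact (h b (by simp)).mul_U6 (ih fun c hc => h c (by simp [hc]))

theorem ex_coe_U6 {r : ℕ} (hr : r ≠ 0) (A : Polynomial ℚ) :
    ex r A = (Polynomial.expand ℚ r A : Polynomial ℚ) := by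
  ext n
  rw [ex_eq hr, coeff_expand, Polynomial.coeff_coe, Polynomial.coeff_coe,
    Polynomial.coeff_expand (Nat.pos_of_ne_zero hr)]

theorem Ser.ex_U6 (hf : Ser f s) {r : ℕ} (hr : r ≠ 0) : Ser (fun q => f (q ^ r)) (ex r s) := by
  obtain ⟨A, B, h, k⟩ := hf
  refine ⟨Polynomial.expand ℚ r A, Polynomial.expand ℚ r B, fun q hq => ?_, ?_⟩
  · simpa only [Polynomial.expand_eval] using h _ (one_lt_pow₀ hq hr)
  · rw [← ex_coe_U6 hr, ← ex_coe_U6 hr, ← map_mul, k]

theorem ser_iq_U6 (n : ℕ) : Ser (fun q => ∏ j ∈ Finset.range n, (1 - q ^ (j + 1))⁻¹) (iq n) :=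
  Ser.prod_U6 _ fun j _ => ⟨1, 1 - Polynomial.X ^ (j + 1), fun q hq => by
    have := sub_ne_zero.2 (one_lt_pow₀ hq j.succ_ne_zero).ne
    simp only [Polynomial.eval_sub, Polynomial.eval_one, Polynomial.eval_pow, Polynomial.eval_X]
    exact ⟨this, inv_mul_cancel₀ this⟩, by
    rw [Polynomial.coe_sub, Polynomial.coe_one, Polynomial.coe_pow, Polynomial.coe_X]
    exact PowerSeries.inv_mul_cancel _ (by simp)⟩

end closure

theorem it_U6 (T : (V → ℚ) → V → ℚ)
    (h : ∀ p p' e, (∀ f, sz f < sz e → p f = p' f) → T p e = T p' e) (e : V) :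
    T^[sz e + 1] 0 e = T (fun f => T^[sz f + 1] 0 f) e := by
  have key : ∀ n m e, sz e < n → sz e < m → T^[n] 0 e = T^[m] 0 e := fun n => by
    induction n with
    | zero => exact fun _ _ k => absurd k (Nat.not_lt_zero _)
    | succ n ih =>
      intro m e h1 h2
      obtain ⟨m, rfl⟩ := Nat.exists_eq_succ_of_ne_zero (Nat.ne_zero_of_lt h2)
      rw [Function.iterate_succ_apply', Function.iterate_succ_apply']
      exact h _ _ e fun f hf => ih m f (by omega) (by omega)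
  rw [Function.iterate_succ_apply']
  exact h _ _ e fun f hf => key _ _ f hf (Nat.lt_succ_self _)

theorem pser_U6 (q : ℚ) (e : V) : pser θ q e = pstep θ q (pser θ q) e :=
  it_U6 _ (fun p p' e h => by
    simp only [pstep]
    split_ifs
    · rfl
    · refine congrArg _ (Finset.sum_congr rfl fun f hf => ?_)
      rw [Finset.mem_filter, Finset.mem_Iic] at hf
      rw [h f (sz_lt hf.1 hf.2.1)]) e

theorem gser_U6 (q : ℚ) (e : V) : gser θ q e = gstep θ q (gser θ q) e :=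
  it_U6 _ (fun p p' e h => by
    simp only [gstep]
    refine congrArg _ (Finset.sum_congr rfl fun f hf => ?_)
    rw [Finset.mem_filter, Finset.mem_Iic] at hf
    rw [h f (sz_lt hf.1 hf.2.1)]) e

theorem ico_U6 (q : ℚ) (m f : ℕ) :
    q ^ f.choose 2 * ∏ j ∈ Finset.Ico f (f + m), (q ^ (f + m) - q ^ j) =
      q ^ (f + m).choose 2 * ((-1) ^ m * ∏ j ∈ Finset.range m, (1 - q ^ (j + 1))) := by
  induction m generalizing f with
  | zero => simp
  | succ m ih =>
    have h := ih (f + 1)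
    rw [Nat.choose_succ_succ' f 1, Nat.choose_one_right] at h
    rw [Finset.prod_eq_prod_Ico_succ_bot (by omega), Finset.prod_range_succ,
      show f + (m + 1) = f + 1 + m by omega]
    linear_combination (q ^ (m + 1) - 1) * h

theorem ico'_U6 {q : ℚ} (hq : 1 < q) {f e : ℕ} (h : f ≤ e) :
    (-1) ^ (e - f) * (∏ j ∈ Finset.range (e - f), (1 - q ^ (j + 1))⁻¹) * q ^ f.choose 2 =
      q ^ e.choose 2 * (∏ j ∈ Finset.Ico f e, (q ^ e - q ^ j))⁻¹ := by
  obtain ⟨m, rfl⟩ := Nat.exists_eq_add_of_le h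
  have h1 : ∏ j ∈ Finset.Ico f (f + m), (q ^ (f + m) - q ^ j) ≠ 0 :=
    Finset.prod_ne_zero_iff.2 fun j hj =>
      sub_ne_zero.2 (pow_lt_pow_right₀ hq (Finset.mem_Ico.1 hj).2).ne'
  have h2 : ∏ j ∈ Finset.range m, (1 - q ^ (j + 1)) ≠ 0 :=
    Finset.prod_ne_zero_iff.2 fun j _ => sub_ne_zero.2 (one_lt_pow₀ hq j.succ_ne_zero).ne
  have h3 : ((-1 : ℚ) ^ m) * (-1) ^ m = 1 := by rw [← mul_pow]; simp
  rw [Nat.add_sub_cancel_left, Finset.prod_inv_distrib, eq_mul_inv_iff_mul_eq₀ h1, mul_assoc,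
    ico_U6]
  field_simp
  linear_combination h3

open Classical in
theorem split_U6 {M : Type} [AddCommGroup M] (e : V) (F : V → M) (p : V → Prop)
    (h : ∀ f, ¬ p f → F f = 0) : ∑ f ∈ Finset.Iic e, F f =
      F e + ∑ f ∈ (Finset.Iic e).filter (fun f => f ≠ e ∧ p f), F f := by
  rw [← Finset.add_sum_erase _ _ (Finset.mem_Iic.2 le_rfl)]
  refine congrArg _ (Finset.sum_subset (fun f hf => ?_) fun f hf k => h f fun c => k ?_).symm
  · rw [Finset.mem_filter] at hf
    exact Finset.mem_erase.2 ⟨hf.2.1, hf.1⟩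
  · rw [Finset.mem_erase] at hf
    exact Finset.mem_filter.2 ⟨hf.2, hf.1, c⟩

theorem ser_P (hθ : ∀ a b, θ (a + b) = θ a + θ b) (h : Bk θ P N) {e : V} (h0 : 0 ≤ θ e) :
    Ser (fun q => q ^ cb e * pser θ q e) (P e) := by
  classical
  induction k : sz e using Nat.strong_induction_on generalizing e with
  | _ n ih =>
  subst k
  by_cases he : e = 0
  · subst he
    refine (Ser.int_U6 1).congr_U6 (fun q _ => ?_) (by simp [h.P0])
    rw [pser_U6, pstep, if_pos rfl]
    simp [cb]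
  have h1 := h.rec_P hθ he h0
  rw [split_U6 e _ (fun f => 0 ≤ θ f) fun f c => by rw [h.Pz f (not_le.1 c)]; simp] at h1
  refine (Ser.sum_U6 ((Finset.Iic e).filter fun f => f ≠ e ∧ 0 ≤ θ f) fun f hf =>
    (Ser.pow_U6 (dl (e - f) e)).mul_U6 (((Ser.int_U6 ((-1) ^ sz (e - f))).mul_U6
      (Ser.prod_U6 Finset.univ fun v _ => ser_iq_U6 (e v - f v))).mul_U6
        (ih _ (sz_lt (Finset.mem_Iic.1 (Finset.mem_filter.1 hf).1) (Finset.mem_filter.1 hf).2.1)
          (Finset.mem_filter.1 hf).2.2 rfl))).neg_U6.congr_U6 (fun q hq => ?_) ?_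
  · rw [pser_U6 q e, pstep, if_neg he, mul_neg, Finset.mul_sum]
    refine congrArg _ (Finset.sum_congr (Finset.filter_congr_decidable ..) fun f hf => ?_)
    have hf' := Finset.mem_Iic.1 (Finset.mem_filter.1 hf).1
    have h2 := Finset.prod_congr rfl fun v (_ : v ∈ Finset.univ) => ico'_U6 hq (hf' v)
    simp only [Finset.prod_mul_distrib, Finset.prod_pow_eq_pow_sum] at h2
    rw [Finset.prod_inv_distrib (s := Finset.univ)] at h2
    rw [div_eq_mul_inv, sz_eq, cb, cb, dl]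
    push_cast
    simp only [Pi.sub_apply]
    linear_combination (q ^ ((2 * (e 0 - f 0) + (e 2 - f 2)) * e 1) * pser θ q f) * h2
  · rw [neg_eq_iff_add_eq_zero, add_comm, ← h1]
    simp [dl, iq, sz]

theorem mob_U6 {M : Type} [AddCommGroup M] (F : ℕ → M) {g : ℕ} (hg : g ≠ 0) :
    ∑ r ∈ g.divisors, ArithmeticFunction.moebius r • ∑ s ∈ (g / r).divisors, F (r * s) = F 1 := by
  have h := (ArithmeticFunction.sum_eq_iff_sum_smul_moebius_eq (f := fun i => F (g / i))
    (g := fun n => ∑ i ∈ n.divisors, F (g / i))).1 (fun _ _ => rfl) g (Nat.pos_of_ne_zero hg)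
  rw [Nat.sum_divisorsAntidiagonal fun a b =>
    ArithmeticFunction.moebius a • ∑ i ∈ b.divisors, F (g / i),
    Nat.div_self (Nat.pos_of_ne_zero hg)] at h
  refine (Finset.sum_congr rfl fun r hr => congrArg _ ?_).trans h
  obtain ⟨n, rfl⟩ := Nat.dvd_of_mem_divisors hr
  rw [Nat.mul_div_cancel_left _ (Nat.pos_of_mem_divisors hr),
    ← Nat.sum_div_divisors n fun s => F (r * s)]
  exact Finset.sum_congr rfl fun i hi => by rw [Nat.mul_div_assoc _ (Nat.dvd_of_mem_divisors hi)]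

theorem th_div_U6 (hθ : ∀ a b, θ (a + b) = θ a + θ b) {e : V} {r : ℕ}
    (hr : r ∈ (Finset.univ.gcd e).divisors) : θ e = r * θ fun i => e i / r := by
  have h1 : ∀ (n : ℕ) d, θ (n • d) = n * θ d := fun n d => by
    induction n with
    | zero => simp [th0 hθ]
    | succ n ih => rw [succ_nsmul, hθ, ih]; push_cast; ring
  rw [← h1]
  exact congrArg θ (funext fun i => (Nat.mul_div_cancel'
    ((Nat.dvd_of_mem_divisors hr).trans (Finset.gcd_dvd (Finset.mem_univ i)))).symm)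

theorem ser_cnt (hθ : ∀ a b, θ (a + b) = θ a + θ b) {p L : V → ℚ⟦X⟧}
    (hp : ∀ e, θ e = 0 → Ser (fun q => pser θ q e) (p e)) (p0 : p 0 = 1)
    (hL : ∀ d, θ d ≠ 0 → L d = 0) (hlog : ∀ e, (sz e : ℚ⟦X⟧) * p e = cv (GG L) p e) {e : V}
    (he : e ≠ 0) (h0 : θ e = 0) : Ser (cnt θ e) ((1 - X) * L e) := by
  classical
  have h1 : ∀ f, ¬ θ f = 0 → GG L f = 0 := fun f hf => Finset.sum_eq_zero fun r hr => by
    rw [hL _ fun c => hf (by rw [th_div_U6 hθ hr, c, mul_zero]), map_zero, mul_zero]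
  have h2 : ∀ n e, sz e = n → θ e = 0 → Ser (fun q => gser θ q e) (GG L e) := fun n => by
    induction n using Nat.strong_induction_on with
    | _ n ih =>
    rintro e rfl h0
    refine (((Ser.int_U6 (sz e)).mul_U6 (hp e h0)).add_U6 (Ser.sum_U6
      ((Finset.Iic e).filter fun f => f ≠ e ∧ θ f = 0)
      (F := fun f q => gser θ q f * pser θ q (e - f)) (S := fun f => GG L f * p (e - f))
      fun f hf => ?_).neg_U6).congr_U6 (fun q _ => ?_) ?_
    · rw [Finset.mem_filter, Finset.mem_Iic] at hf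
      exact (ih _ (sz_lt hf.1 hf.2.1) f rfl hf.2.2).mul_U6
        (hp _ (by rw [th_sub hθ hf.1, h0, hf.2.2, sub_zero]))
    · rw [gser_U6 q e, gstep, sub_eq_add_neg, Int.cast_natCast]
    · rw [Int.cast_natCast, hlog, cv, split_U6 e _ (fun f => θ f = 0) fun f c => by
        rw [h1 f c, zero_mul], tsub_self, p0, mul_one, add_neg_cancel_right]
  have hg : Finset.univ.gcd e ≠ 0 := fun h => he (funext fun i =>
    Finset.gcd_eq_zero_iff.1 h i (Finset.mem_univ _))
  have h3 := mob_U6 (fun m => (sz fun i => e i / m : ℚ⟦X⟧) * ex m (L fun i => e i / m)) hg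
  have h4 : (sz e : ℚ) ≠ 0 := Nat.cast_ne_zero.2 fun h => he (sz_eq_zero h)
  refine ((((Ser.int_U6 1).add_U6 (Ser.pow_U6 1).neg_U6).mul_U6 (Ser.const_U6 (sz e)⁻¹)).mul_U6
    (Ser.sum_U6 (Finset.univ.gcd e).divisors fun r hr =>
      (Ser.int_U6 (ArithmeticFunction.moebius r)).mul_U6 ((h2 _ (fun i => e i / r) rfl
        ((mul_eq_zero.1 ((th_div_U6 hθ hr).symm.trans h0)).resolve_left
          (Nat.cast_ne_zero.2 (Nat.pos_of_mem_divisors hr).ne'))).ex_U6
            (Nat.pos_of_mem_divisors hr).ne'))).congr_U6 (fun q _ => ?_) ?_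
  · rw [cnt, div_eq_mul_inv, sub_eq_add_neg, pow_one, Int.cast_one]
  · rw [(Finset.sum_congr rfl fun r hr => ?_).trans h3]
    · simp only [Nat.div_one]
      rw [ex_eq one_ne_zero, expand_one_apply, mul_assoc, ← mul_assoc (C _),
        ← map_natCast (C (R := ℚ)), ← map_mul, inv_mul_cancel₀ h4, map_one, one_mul, pow_one,
        Int.cast_one, sub_eq_add_neg]
    have hr0 := (Nat.pos_of_mem_divisors hr).ne'
    rw [zsmul_eq_mul, GG, gcd_div hr, map_sum]
    refine congrArg _ (Finset.sum_congr rfl fun s hs => ?_)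
    have hs0 := (Nat.pos_of_mem_divisors hs).ne'
    simp only [Nat.div_div_eq_div_mul]
    rw [map_mul, map_natCast, ex_eq hr0, ex_eq hs0, ex_eq (mul_ne_zero hr0 hs0), expand_mul]

end Pool.Agent.CS.EC
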