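import Pool.Agent.K.MP_d34769_ag.C74

-- part Pool.Agent.P.MP_d34769_ag.YW1
section

/-! The signed shuffle algebra. -/

noncomputable section
namespace Pool.Agent.CS.HA
open Pool.Agent.P.MP_d34769_ag

section basis
variable (R : Type) [CommRing R] {A B M : Type} [AddCommGroup M] [Module R M]

/-- a basis vector -/
def bs (a : A) : A →₀ R := Finsupp.single a 1

/-- linear extension -/
@[irreducible] def lc (φ : A → M) : (A →₀ R) →ₗ[R] M := Finsupp.linearCombination R φ

variable {R}

@[simp] theorem lc_bs (φ : A → M) (a : A) : lc R φ (bs R a) = φ a := by simp [lc, bs]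

theorem hom_bs {f g : (A →₀ R) →ₗ[R] M} (h : ∀ a, f (bs R a) = g (bs R a)) : f = g :=
  Finsupp.lhom_ext' fun a => LinearMap.ext_ring (h a)

theorem eq_bs (f g : (A →₀ R) →ₗ[R] M) (h : ∀ a, f (bs R a) = g (bs R a)) (x : A →₀ R) :
    f x = g x := by rw [hom_bs h]

theorem eq_bs₂ (f g : (A →₀ R) →ₗ[R] (B →₀ R) →ₗ[R] M)
    (h : ∀ a b, f (bs R a) (bs R b) = g (bs R a) (bs R b)) (x : A →₀ R) (y : B →₀ R) :
    f x y = g x y := by rw [hom_bs fun a => hom_bs (h a)]

theorem _root_.Pool.Agent.CS.NatOp.lin {N : Type} [AddCommGroup N] [Module R N]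
    {O : ∀ (M : Type) [AddCommGroup M], (A → M) → M} {F : A → Prop} (h : NatOp O F)
    (f : M →ₗ[R] N) (φ : A → M) : f (O M φ) = O N fun a => f (φ a) := h.nat f.toAddMonoidHom φ

end basis

section words
variable (R : Type) [CommRing R] {X M : Type} [AddCommGroup M]

/-- prepend a letter -/
def pre (a : X) : (List X →₀ R) →ₗ[R] (List X →₀ R) := lc R fun l => bs R (a :: l)

/-- the sign of the length -/
def sgn : (List X →₀ R) →ₗ[R] (List X →₀ R) := lc R fun l => (-1 : ℤ) ^ l.length • bs R l

/-- the shuffle product -/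
def shp : (List X →₀ R) →ₗ[R] (List X →₀ R) →ₗ[R] (List X →₀ R) :=
  lc R fun u => lc R fun v => shuf u v (bs R)

/-- the boundary -/
def bdr [Union X] : (List X →₀ R) →ₗ[R] (List X →₀ R) := lc R fun l => cob l (bs R)

/-- join a letter to the first letter -/
def jn [Union X] (a : X) : (List X →₀ R) →ₗ[R] (List X →₀ R) := lc R (mrg a (bs R))

variable {R}

theorem pre_bs (a : X) (l : List X) : pre R a (bs R l) = bs R (a :: l) := lc_bs _ _
theorem sgn_bs (l : List X) : sgn R (bs R l) = (-1 : ℤ) ^ l.length • bs R l := lc_bs _ _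
theorem shp_bs (u v : List X) : shp R (bs R u) (bs R v) = shuf u v (bs R) := by simp [shp]
theorem bdr_bs [Union X] (l : List X) : bdr R (bs R l) = cob l (bs R) := lc_bs _ _

theorem sgn_nil : sgn R (bs R ([] : List X)) = bs R [] := by simp [sgn_bs]

theorem sgn_pre (a : X) (x : List X →₀ R) : sgn R (pre R a x) = -pre R a (sgn R x) :=
  eq_bs (sgn R ∘ₗ pre R a) (-pre R a ∘ₗ sgn R) (fun l => by
    simp [pre_bs, sgn_bs, pow_succ]) x

theorem sgn_sgn (x : List X →₀ R) : sgn R (sgn R x) = x :=
  eq_bs (sgn R ∘ₗ sgn R) LinearMap.id (fun l => by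
    simp [sgn_bs, smul_smul, ← mul_pow]) x

theorem nil_shp (y : List X →₀ R) : shp R (bs R []) y = y :=
  eq_bs (shp R (bs R [])) LinearMap.id (fun v => shp_bs [] v) y

theorem shp_nil (x : List X →₀ R) : shp R x (bs R []) = x :=
  eq_bs ((shp R).flip (bs R [])) LinearMap.id (fun u => (shp_bs u []).trans (shuf_nil' u _)) x

theorem shp_pre (a b : X) (x y : List X →₀ R) : shp R (pre R a x) (pre R b y) =
    pre R a (shp R x (pre R b y)) - pre R b (shp R (pre R a (sgn R x)) y) :=
  eq_bs₂ ((shp R).compl₁₂ (pre R a) (pre R b)) (((shp R).compl₂ (pre R b)).compr₂ (pre R a) +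
    (shp R ∘ₗ pre R a ∘ₗ sgn R).compr₂ (-pre R b)) (fun u v => by
      simp [pre_bs, sgn_bs, shp_bs, shuf_cons, (shuf_nat _ _).lin, pow_succ]) x y |>.trans
    (sub_eq_add_neg _ _).symm

theorem sgn_shp (x y : List X →₀ R) : sgn R (shp R x y) = shp R (sgn R x) (sgn R y) :=
  eq_bs₂ ((shp R).compr₂ (sgn R)) ((shp R).compl₁₂ (sgn R) (sgn R)) (fun u v => by
    simp only [LinearMap.compr₂_apply, LinearMap.compl₁₂_apply, sgn_bs, shp_bs, map_zsmul,
      LinearMap.smul_apply, (shuf_nat _ _).lin, smul_smul, ← pow_add]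
    rw [← (shuf_nat u v).smul]
    exact (shuf_nat u v).congr fun w hw => by rw [hw.2.2.length_eq, List.length_append, add_comm]) x y

theorem shp_assoc (x y z : List X →₀ R) : shp R (shp R x y) z = shp R x (shp R y z) := by
  refine eq_bs (shp R (shp R x y)) (shp R x ∘ₗ shp R y) (fun t => ?_) z
  induction t generalizing x y with
  | nil => simp [shp_nil]
  | cons c t it =>
    refine eq_bs ((shp R).flip _ ∘ₗ shp R x) (shp R x ∘ₗ (shp R).flip _) (fun v => ?_) y
    induction v generalizing x with
    | nil => simp [shp_nil, nil_shp]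
    | cons b v iv =>
      refine eq_bs ((shp R).flip _ ∘ₗ (shp R).flip _) ((shp R).flip _) (fun u => ?_) x
      induction u with
      | nil => simp [nil_shp]
      | cons a u iu =>
        simp only [LinearMap.comp_apply, LinearMap.flip_apply, ← pre_bs] at it iv iu ⊢
        have h := it (pre R a (sgn R (bs R u))) (pre R b (sgn R (bs R v)))
        rw [shp_pre, sgn_sgn] at h
        simp only [shp_pre a b, map_sub, LinearMap.sub_apply] at h ⊢
        rw [shp_pre a c, shp_pre b c, iu, iv, shp_pre b c]
        simp only [map_sub, shp_pre a, sgn_shp, sgn_pre, map_neg, sgn_sgn, ← h, LinearMap.neg_apply]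
        abel

theorem shuf_comm (u v : List X) : ∀ φ : List X → M,
    shuf u v φ = (-1 : ℤ) ^ (u.length * v.length) • shuf v u φ := by
  induction u generalizing v with
  | nil => intro φ; simp [shuf_nil, shuf_nil']
  | cons a u ih =>
    induction v with
    | nil => intro φ; simp [shuf_nil, shuf_nil']
    | cons b v iv =>
      intro φ
      rw [shuf_cons, shuf_cons, ih, iv, add_comm, smul_add, smul_smul, smul_smul, ← pow_add,
        ← pow_add]
      simp only [List.length_cons]
      rw [show (u.length + 1) * (v.length + 1) + (v.length + 1) =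
        u.length * (v.length + 1) + 2 * (v.length + 1) by ring, pow_add _ _ (2 * _), pow_mul _ 2,
        show u.length + 1 + (u.length + 1) * v.length = (u.length + 1) * (v.length + 1) by ring]
      simp

section bd
variable [Union X]

theorem bdr_nil : bdr R (bs R ([] : List X)) = 0 := by simp [bdr_bs, cob_nil]

theorem jn_nil (a : X) : jn R a (bs R []) = 0 := lc_bs _ _

theorem jn_pre (a b : X) (x : List X →₀ R) : jn R a (pre R b x) = pre R (a ∪ b) x :=
  eq_bs (jn R a ∘ₗ pre R b) _ (fun l => by simp [pre_bs, jn, mrg]) x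

theorem bdr_pre (a : X) (x : List X →₀ R) : bdr R (pre R a x) = jn R a x - pre R a (bdr R x) :=
  eq_bs (bdr R ∘ₗ pre R a) (jn R a - pre R a ∘ₗ bdr R) (fun l => by
    simp [pre_bs, bdr_bs, jn, cob_cons, (cob_nat _).lin]) x

theorem sgn_bdr (x : List X →₀ R) : sgn R (bdr R x) = -bdr R (sgn R x) :=
  eq_bs (sgn R ∘ₗ bdr R) (-bdr R ∘ₗ sgn R) (fun l => by
    simp only [LinearMap.comp_apply, LinearMap.neg_apply, sgn_bs, bdr_bs, map_zsmul,
      (cob_nat _).lin]
    rw [← neg_smul, ← (cob_nat l).smul]
    exact (cob_nat l).congr fun w ⟨s, a, b, t, h1, h2⟩ => by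
      simp [h1, h2, ← add_assoc, pow_succ]) x

theorem jn_shp (a b : X) (x y : List X →₀ R) : shp R (jn R a x) (pre R b y) =
    jn R a (shp R x (pre R b y)) - pre R (a ∪ b) (shp R (sgn R x) y) +
      pre R b (shp R (jn R a (sgn R x)) y) := by
  refine eq_bs ((shp R).flip _ ∘ₗ jn R a) (jn R a ∘ₗ (shp R).flip _ -
    pre R (a ∪ b) ∘ₗ (shp R).flip y ∘ₗ sgn R + pre R b ∘ₗ (shp R).flip y ∘ₗ jn R a ∘ₗ sgn R)
    (fun u => ?_) x
  cases u with
  | nil => simp [jn_nil, nil_shp, sgn_nil, jn_pre]
  | cons c u => simp [← pre_bs, jn_pre, shp_pre, sgn_pre, sub_eq_add_neg]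

theorem shp_jn (a b : X) (x y : List X →₀ R) : shp R (pre R a x) (jn R b y) =
    pre R a (shp R x (jn R b y)) + jn R b (shp R (pre R a x) y) - pre R (b ∪ a) (shp R x y) := by
  refine eq_bs (shp R _ ∘ₗ jn R b) (pre R a ∘ₗ shp R x ∘ₗ jn R b + jn R b ∘ₗ shp R _ -
    pre R (b ∪ a) ∘ₗ shp R x) (fun v => ?_) y
  cases v with
  | nil => simp [jn_nil, shp_nil, jn_pre]
  | cons c v =>
    simp only [← pre_bs, jn_pre, shp_pre, LinearMap.comp_apply, LinearMap.sub_apply,
      LinearMap.add_apply, map_sub]
    abel

theorem bdr_shp [Std.Commutative (α := X) (· ∪ ·)] (x y : List X →₀ R) :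
    bdr R (shp R x y) = shp R (bdr R x) y + shp R (sgn R x) (bdr R y) := by
  refine eq_bs (bdr R ∘ₗ shp R x) (shp R (bdr R x) + shp R (sgn R x) ∘ₗ bdr R) (fun v => ?_) y
  induction v generalizing x with
  | nil => simp [shp_nil, bdr_nil]
  | cons b v iv =>
    refine eq_bs (bdr R ∘ₗ (shp R).flip (bs R (b :: v))) ((shp R).flip (bs R (b :: v)) ∘ₗ bdr R +
      (shp R).flip (bdr R (bs R (b :: v))) ∘ₗ sgn R) (fun u => ?_) x
    induction u with
    | nil => simp [nil_shp, bdr_nil, sgn_nil]
    | cons a u iu =>
      have hc : b ∪ a = a ∪ b := Std.Commutative.comm (op := (· ∪ ·)) b a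
      simp only [LinearMap.comp_apply, LinearMap.flip_apply, LinearMap.add_apply, ← pre_bs]
        at iv iu ⊢
      rw [shp_pre, map_sub, bdr_pre, bdr_pre, iu, iv]
      simp only [bdr_pre, sgn_pre, map_sub, map_add, map_neg, LinearMap.sub_apply,
        LinearMap.neg_apply, jn_shp, shp_jn, shp_pre, sgn_sgn, sgn_bdr, hc]
      abel

theorem cob_cob [Std.Associative (α := X) (· ∪ ·)] (l : List X) : ∀ φ : List X → M,
    (cob l fun w => cob w φ) = 0 := by
  induction l with
  | nil => intro φ; rfl
  | cons a l ih =>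
    intro φ
    simp only [cob_cons a, cob_sub, ih, sub_zero]
    match l with
    | [] => simp [mrg, cob_nil]
    | [b] => simp [mrg, cob]
    | b :: c :: t =>
      simp [mrg, cob, Std.Associative.assoc (op := fun x y : X => x ∪ y) a b c]

theorem shuf_cob [Std.Commutative (α := X) (· ∪ ·)] (u v : List X) (φ : List X → M) :
    (shuf u v fun w => cob w φ) = cob u (fun w => shuf w v φ) +
      (-1 : ℤ) ^ u.length • cob v fun w => shuf u w φ := by
  have h := congrArg (lc ℤ φ) (bdr_shp (bs ℤ u) (bs ℤ v))
  rw [sgn_bs, map_zsmul, LinearMap.smul_apply, bdr_bs, bdr_bs, ← LinearMap.flip_apply (shp ℤ) (cob u _),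
    (cob_nat u).lin, (cob_nat v).lin] at h
  simpa only [shp_bs, (shuf_nat _ _).lin, (cob_nat _).lin, bdr_bs, lc_bs, map_add, map_zsmul,
    LinearMap.flip_apply] using h

end bd

end words

end Pool.Agent.CS.HA
end
end

-- part Pool.Agent.P.MP_d34769_ag.YW2
section

/-! Deconcatenation, iterated shuffles, and the chain map identities. -/

noncomputable section
namespace Pool.Agent.CS.HA
open Pool.Agent.P.MP_d34769_ag

variable {X Y M : Type} [AddCommGroup M]

/-- the sum over all ways to cut a word in two -/
def dc : List X → (List X × List X → M) → M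
  | [], F => F ([], [])
  | a :: l, F => F ([], a :: l) + dc l fun p => F (a :: p.1, p.2)

theorem dc_nat (l : List X) : NatOp (fun _ _ F => dc l F) fun p => p.1 ++ p.2 = l := by
  induction l with
  | nil => exact ⟨fun _ _ => rfl, fun P φ h => h _ rfl⟩
  | cons a l ih =>
    exact ⟨fun f φ => by simp only [dc, map_add, ih.nat], fun P φ h =>
      add_mem (h _ rfl) (ih.mem P _ fun p hp => h _ (congrArg (a :: ·) hp))⟩

theorem dc_map (f : X → Y) (l : List X) : ∀ F : List Y × List Y → M,
    dc (l.map f) F = dc l fun p => F (p.1.map f, p.2.map f) := by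
  induction l with
  | nil => intro F; rfl
  | cons a l ih => intro F; simp only [List.map_cons, dc, ih, List.map_nil]

theorem dc_first (l : List X) (F : List X × List X → M) (h : ∀ p, p.1 ≠ [] → F p = 0) :
    dc l F = F ([], l) := by
  cases l with
  | nil => rfl
  | cons a l => rw [dc, (dc_nat l).eq_zero fun p _ => h _ (by simp), add_zero]

theorem dc_last (l : List X) : ∀ F : List X × List X → M, (∀ p, p.2 ≠ [] → F p = 0) →
    dc l F = F (l, []) := by
  induction l with
  | nil => intro F _; rfl
  | cons a l ih => intro F h; rw [dc, h _ (by simp), zero_add, ih _ fun p hp => h (a :: p.1, p.2) hp]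

theorem shuf_sgn (u v : List X) (φ : List X → M) :
    (shuf u v fun w => (-1 : ℤ) ^ w.length • φ w) = (-1 : ℤ) ^ (u.length + v.length) • shuf u v φ := by
  rw [← (shuf_nat u v).smul]
  exact (shuf_nat u v).congr fun w hw => by rw [hw.2.2.length_eq, List.length_append]

theorem shuf_dc (u v : List X) : ∀ F : List X × List X → M, (shuf u v fun l => dc l F) =
    dc u fun p => dc v fun q => (-1 : ℤ) ^ (p.2.length * q.1.length) •
      shuf p.1 q.1 fun w => shuf p.2 q.2 fun t => F (w, t) := by
  induction u generalizing v with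
  | nil => intro F; simp [shuf_nil, dc]
  | cons a u ih =>
    induction v with
    | nil => intro F; simp [shuf_nil', dc]
    | cons b v iv =>
      intro F
      simp only [dc] at iv
      simp only [shuf_cons, dc, (shuf_nat _ _).add, ih, iv, shuf_nil, shuf_nil', smul_add,
        (dc_nat _).add, List.length_nil, mul_zero, pow_zero, one_smul, List.length_cons,
        ← (dc_nat _).smul, smul_smul, ← pow_add]
      have e1 : ∀ n m : ℕ, n + n * m = n * (m + 1) := fun n m => by ring
      have e2 : (dc u fun p => dc v fun q => (-1 : ℤ) ^ (u.length + 1 + p.2.length * q.1.length) •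
          shuf (a :: p.1) q.1 fun w => shuf p.2 q.2 fun t => F (b :: w, t)) = dc u fun p => dc v
          fun q => (-1 : ℤ) ^ (p.2.length * (q.1.length + 1) + (p.1.length + 1)) •
          shuf (a :: p.1) q.1 fun w => shuf p.2 q.2 fun t => F (b :: w, t) :=
        (dc_nat u).congr fun p hp => by
          rw [← hp, List.length_append]
          congr 1
          funext q
          congr 2
          ring
      rw [e2]
      simp only [e1, one_mul]
      exact (fun x₁ x₂ x₃ x₄ x₅ x₆ : M => (by abel :
        x₁ + (x₂ + x₃) + (x₄ + (x₅ + x₆)) = x₁ + x₄ + x₅ + (x₂ + (x₃ + x₆)))) _ _ _ _ _ _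

theorem shuf_dc_prim (u v : List X) (F : List X × List X → M) (h0 : ∀ t, F ([], t) = 0)
    (h : ∀ a b t, a ≠ [] → b ≠ [] → (shuf a b fun w => F (w, t)) = 0) :
    (shuf u v fun l => dc l F) = (dc u fun p => shuf p.2 v fun t => F (p.1, t)) +
      dc v fun q => (-1 : ℤ) ^ (u.length * q.1.length) • shuf u q.2 fun t => F (q.1, t) := by
  have k : ∀ p q : List X × List X, (-1 : ℤ) ^ (p.2.length * q.1.length) •
      (shuf p.1 q.1 fun w => shuf p.2 q.2 fun t => F (w, t)) =
      (if q.1 = [] then shuf p.2 q.2 fun t => F (p.1, t) else 0) + if p.1 = [] then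
        (-1 : ℤ) ^ (p.2.length * q.1.length) • shuf p.2 q.2 fun t => F (q.1, t) else 0 := by
    rintro ⟨a, c⟩ ⟨b, e⟩
    by_cases ha : a = [] <;> by_cases hb : b = []
    · simp [ha, hb, shuf_nil, h0, (shuf_nat _ _).zero]
    · simp [ha, hb, shuf_nil]
    · simp [ha, hb, shuf_nil']
    · rw [(shuf_nat a b).swap (shuf_nat c e)]
      simp [ha, hb, h, (shuf_nat _ _).zero]
  simp only [shuf_dc, k, (dc_nat _).add]
  congr 1
  · exact congrArg _ (funext fun p => by rw [dc_first _ _ fun q hq => if_neg hq, if_pos rfl])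
  · rw [dc_first _ _ fun p hp => by simp only [if_neg hp, (dc_nat _).zero]]
    simp

section cob
variable [Union X]

theorem fc_length {l w : List X} (h : Fc l w) : l.length = w.length + 1 := by
  obtain ⟨s, a, b, t, rfl, rfl⟩ := h
  simp [add_assoc]

theorem fc_ne {l w : List X} (h : Fc l w) : w ≠ [] := by
  obtain ⟨s, a, b, t, rfl, rfl⟩ := h
  simp

theorem cob_sgn (n : ℕ) (u : List X) (φ : List X → M) :
    (cob u fun w => (-1 : ℤ) ^ (w.length * n) • φ w) = (-1 : ℤ) ^ (u.length * n + n) • cob u φ := by
  rw [← (cob_nat u).smul]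
  exact (cob_nat u).congr fun w hw => by
    rw [fc_length hw, show (w.length + 1) * n + n = w.length * n + 2 * n by ring, pow_add, pow_mul _ 2]
    simp

theorem cob_dc (l : List X) : ∀ F : List X × List X → M, (cob l fun w => dc w F) =
    dc l fun p => cob p.1 (fun w => F (w, p.2)) +
      (-1 : ℤ) ^ p.1.length • cob p.2 fun w => F (p.1, w) := by
  induction l with
  | nil => intro F; simp [dc, cob_nil]
  | cons a l ih =>
    intro F
    have h : mrg a (fun w => dc w F) l = mrg a (fun w => F ([], w)) l +
        dc l fun p => mrg a (fun w => F (w, p.2)) p.1 := by cases l <;> simp [mrg, dc]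
    simp only [cob_cons, dc, h, (cob_nat _).add, ih, cob_nil, List.length_nil, pow_zero, one_smul,
      List.length_cons, pow_succ, mul_neg, mul_one, neg_smul, (dc_nat _).add, (dc_nat _).sub,
      (dc_nat _).neg]
    abel

theorem cobM_cobM [Std.Associative (α := X) (· ∪ ·)] (L : List (List X)) :
    ∀ φ : List (List X) → M, (cobM L fun K => cobM K φ) = 0 := by
  induction L with
  | nil => intro φ; rfl
  | cons u L ih =>
    intro φ
    have h := cob_sgn 1 u fun w => cobM L fun K => φ (w :: K)
    simp only [mul_one] at h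
    simp only [cobM, (cob_nat _).add, (cobM_nat _).add, (cobM_nat _).smul, cob_cob, ih, h,
      (cobM_nat L).swap (cob_nat u), pow_succ]
    simp

theorem sM_cobM [Std.Commutative (α := X) (· ∪ ·)] (L : List (List X)) (φ : List (List X) → M) :
    (sM L fun K => cobM K φ) = cobM L fun K => sM K φ := by
  match L with
  | [] => rfl
  | [u] => simp [sM, cobM, cob_zero]
  | u :: v :: L =>
    simp only [sM, cobM, (shuf_nat _ _).add, shuf_cob, shuf_sgn, smul_add, smul_smul, ← pow_add,
      (cobM_nat L).swap (shuf_nat u v), add_assoc]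

theorem tau_cobM (i : ℕ) (L : List (List X)) : ∀ φ : List (List X) → M,
    (tau i L fun K => cobM K φ) = cobM L fun K => tau i K φ := by
  induction i generalizing L with
  | zero =>
    intro φ
    match L with
    | [] => rfl
    | [u] => simp [tau, cobM, cob_zero]
    | u :: v :: L =>
      simp only [tau, cobM, cob_sgn, mul_comm u.length, (cobM_nat _).smul, smul_add, smul_smul,
        ← pow_add]
      rw [show u.length + (v.length * u.length + u.length) = v.length * u.length + 2 * u.length by
        ring, pow_add _ _ (2 * _), pow_mul _ 2, show u.length + (v.length + v.length * u.length) =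
        v.length * u.length + (v.length + u.length) by ring]
      simp only [neg_one_sq, one_pow, mul_one]
      abel
  | succ i ih =>
    intro φ
    match L with
    | [] => rfl
    | u :: L =>
      simp only [tau, cobM, (tau_nat _ _).add, (tau_nat _ _).smul, ih, (tau_nat i L).swap (cob_nat u)]

theorem cobM_append (K L : List (List X)) : ∀ φ : List (List X) → M, cobM (K ++ L) φ =
    cobM K (fun T => φ (T ++ L)) + (-1 : ℤ) ^ K.flatten.length • cobM L fun T => φ (K ++ T) := by
  induction K with
  | nil => intro φ; simp [cobM]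
  | cons u K ih =>
    intro φ
    simp only [List.cons_append, cobM, ih, smul_add, smul_smul, List.flatten_cons,
      List.length_append, pow_add, add_assoc]

end cob

/-- the sum over all ways to cut a word into `k` nonempty words -/
def decs : ℕ → List X → (List (List X) → M) → M
  | 0, l, φ => if l = [] then φ [] else 0
  | k + 1, l, φ => dc l fun p => if p.1 = [] then 0 else decs k p.2 fun K => φ (p.1 :: K)

/-- the iterated shuffle -/
def shufs : List (List X) → (List X → M) → M
  | [], φ => φ []
  | u :: L, φ => shufs L fun w => shuf u w φ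

theorem decs_nat (k : ℕ) (l : List X) : NatOp (fun _ _ φ => decs k l φ)
    fun K => K.length = k ∧ (∀ u ∈ K, u ≠ []) ∧ K.flatten = l := by
  induction k generalizing l with
  | zero =>
    refine ⟨fun f φ => by simp [decs, apply_ite f], fun P φ h => ?_⟩
    simp only [decs]
    split_ifs with c
    exacts [h _ (by simp [c]), zero_mem P]
  | succ k ih =>
    refine ⟨fun f φ => by simp only [decs, (dc_nat _).nat, apply_ite f, map_zero, (ih _).nat],
      fun P φ h => (dc_nat l).mem P _ fun p hp => ?_⟩
    split_ifs with c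
    exacts [zero_mem P, (ih _).mem P _ fun K hK => h _ ⟨by simp [hK.1],
      List.forall_mem_cons.2 ⟨c, hK.2.1⟩, by simp [hK.2.2, hp]⟩]

theorem shufs_nat (L : List (List X)) : NatOp (fun _ _ φ => shufs L φ) fun w => w.Perm L.flatten := by
  induction L with
  | nil => exact ⟨fun _ _ => rfl, fun P φ h => h _ (by simp)⟩
  | cons u L ih =>
    exact ⟨fun f φ => by simp only [shufs, ih.nat, (shuf_nat _ _).nat], fun P φ h =>
      ih.mem P _ fun w hw => (shuf_nat u w).mem P _ fun t ht => h _ (ht.2.2.trans (hw.append_left u))⟩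

theorem decs_map (f : X → Y) (k : ℕ) : ∀ (l : List X) (φ : List (List Y) → M),
    decs k (l.map f) φ = decs k l fun K => φ (K.map (List.map f)) := by
  induction k with
  | zero => intro l φ; simp [decs]
  | succ k ih => intro l φ; simp [decs, dc_map, ih]

theorem shufs_map (f : X → Y) (L : List (List X)) : ∀ φ : List Y → M,
    shufs (L.map (List.map f)) φ = shufs L fun w => φ (w.map f) := by
  induction L with
  | nil => intro φ; rfl
  | cons u L ih => intro φ; simp only [List.map_cons, shufs, ih, shuf_map]

theorem decs_one (l : List X) (h : l ≠ []) (φ : List (List X) → M) : decs 1 l φ = φ [l] := by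
  rw [decs, dc_last _ _ fun p hp => by simp [decs, hp]]
  simp [decs, h]

theorem cob_decs [Union X] (k : ℕ) : ∀ (l : List X) (φ : List (List X) → M),
    (cob l fun w => decs k w φ) = decs k l fun K => cobM K φ := by
  induction k with
  | zero =>
    intro l φ
    rw [(cob_nat l).eq_zero (φ := fun w => decs 0 w φ) fun w hw => if_neg (fc_ne hw)]
    simp [decs, cobM]
  | succ k ih =>
    intro l φ
    simp only [decs, cob_dc, cobM, (decs_nat _ _).add, (decs_nat _ _).smul]
    congr 1
    funext p
    by_cases c : p.1 = []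
    · simp [c, cob_nil, cob_zero]
    · simp only [if_neg c, ih, (decs_nat k p.2).swap (cob_nat p.1)]
      rw [(cob_nat p.1).congr fun w hw => if_neg (fc_ne hw)]

theorem shufs_cob [Union X] [Std.Commutative (α := X) (· ∪ ·)] (L : List (List X)) :
    ∀ φ : List X → M, (shufs L fun w => cob w φ) = cobM L fun K => shufs K φ := by
  induction L with
  | nil => intro φ; rfl
  | cons u L ih =>
    intro φ
    simp only [shufs, cobM, shuf_cob, (shufs_nat _).add, (shufs_nat _).smul, ih,
      (shufs_nat L).swap (cob_nat u)]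

theorem shufs_nil (A B : List (List X)) : ∀ φ : List X → M,
    shufs (A ++ [] :: B) φ = shufs (A ++ B) φ := by
  induction A with
  | nil => intro φ; rfl
  | cons u A ih => intro φ; exact ih _

/-- cut a first part off one of the words -/
def rr : List (List X) → (List X × List (List X) → M) → M
  | [], _ => 0
  | u :: L, G => (dc u fun p => G (p.1, p.2 :: L)) +
      rr L fun q => (-1 : ℤ) ^ (u.length * q.1.length) • G (q.1, u :: q.2)

/-- move one of the words to the front -/
def rp : List (List X) → (List X × List (List X) → M) → M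
  | [], _ => 0
  | u :: L, G => G (u, L) + rp L fun q => (-1 : ℤ) ^ (u.length * q.1.length) • G (q.1, u :: q.2)

/-- the signed sum over all orders of the first `k` words -/
def sym : ℕ → List (List X) → (List (List X) → M) → M
  | 0, L, φ => φ L
  | k + 1, L, φ => rp L fun q => sym k q.2 fun K => φ (q.1 :: K)

/-- the cochain kills shuffles in each of the first `k` words -/
def Prim : ℕ → (List (List X) → M) → Prop
  | 0, _ => True
  | k + 1, φ => (∀ u v K, u ≠ [] → v ≠ [] → (shuf u v fun w => φ (w :: K)) = 0) ∧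
      ∀ u, Prim k fun K => φ (u :: K)

theorem rp_nat (L : List (List X)) : NatOp (fun _ _ G => rp L G) fun q => (q.1 :: q.2).Perm L := by
  induction L with
  | nil => exact ⟨fun f _ => map_zero f, fun P _ _ => zero_mem P⟩
  | cons u L ih =>
    exact ⟨fun f φ => by simp only [rp, map_add, ih.nat, map_zsmul], fun P φ h =>
      add_mem (h _ (List.Perm.refl _)) (ih.mem P _ fun q hq =>
        zsmul_mem (h _ ((List.Perm.swap _ _ _).trans (hq.cons u))) _)⟩

theorem shufs_dc (L : List (List X)) : ∀ F : List X × List X → M, (∀ t, F ([], t) = 0) →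
    (∀ a b t, a ≠ [] → b ≠ [] → (shuf a b fun w => F (w, t)) = 0) →
    (shufs L fun l => dc l F) = rr L fun q => shufs q.2 fun t => F (q.1, t) := by
  induction L with
  | nil => intro F h0 _; exact h0 _
  | cons u L ih =>
    intro F h0 h
    simp only [shufs, rr, shuf_dc_prim _ _ F h0 h, (shufs_nat _).add, (shufs_nat L).swap (dc_nat u)]
    rw [ih (fun q => (-1 : ℤ) ^ (u.length * q.1.length) • shuf u q.2 fun t => F (q.1, t))
      (fun t => by simp [h0, (shuf_nat _ _).zero]) fun a b t ha hb => ?_]
    · simp only [(shufs_nat _).smul]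
    · rw [(shuf_nat a b).congr (ψ := fun w => (-1 : ℤ) ^ (u.length * (a ++ b).length) •
        shuf u t fun s => F (w, s)) fun w hw => by rw [hw.2.2.length_eq], (shuf_nat _ _).smul,
        (shuf_nat a b).swap (shuf_nat u t)]
      simp [h, ha, hb, (shuf_nat _ _).zero]

theorem rr_zero (L : List (List X)) : ∀ G : List X × List (List X) → M,
    (∀ q, L.countP (· ≠ []) ≤ q.2.countP (· ≠ []) + 1 → G q = 0) → rr L G = 0 := by
  induction L with
  | nil => intro G _; rfl
  | cons u L ih =>
    intro G h
    rw [rr, (dc_nat u).eq_zero fun p _ => h _ ?_, ih _ fun q hq => by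
      rw [h _ (by simp only [List.countP_cons] at hq ⊢; omega), smul_zero], add_zero]
    simp only [List.countP_cons]; split_ifs <;> omega

theorem rr_rp (L : List (List X)) : ∀ G : List X × List (List X) → M, (∀ u ∈ L, u ≠ []) →
    (∀ q, q.2.length = L.length → (∀ u ∈ q.2, u ≠ []) → G q = 0) →
    (∀ u A B, G (u, A ++ [] :: B) = G (u, A ++ B)) → rr L G = rp L G := by
  induction L with
  | nil => intro G _ _ _; rfl
  | cons u L ih =>
    intro G h h1 h2
    rw [List.forall_mem_cons] at h
    rw [rr, rp, dc_last _ _ fun p hp => h1 (p.1, p.2 :: L) rfl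
      (List.forall_mem_cons (p := (· ≠ [])).2 ⟨hp, h.2⟩),
      ih (fun q => (-1 : ℤ) ^ (u.length * q.1.length) • G (q.1, u :: q.2)) h.2 (fun q a b => by
        rw [h1 (q.1, u :: q.2) (congrArg (· + 1) a)
          (List.forall_mem_cons (p := (· ≠ [])).2 ⟨h.1, b⟩), smul_zero])
        fun v A B => congrArg (_ • ·) (h2 v (u :: A) B)]
    exact congrArg (· + _) (h2 u [] L)

theorem shufs_decs_succ (k : ℕ) (L : List (List X)) {φ : List (List X) → M} (h : Prim (k + 1) φ) :
    (shufs L fun l => decs (k + 1) l φ) = rr L fun q => shufs q.2 fun t =>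
      if q.1 = [] then 0 else decs k t fun K => φ (q.1 :: K) :=
  shufs_dc L (fun p => if p.1 = [] then 0 else decs k p.2 fun K => φ (p.1 :: K)) (by simp)
    fun a b t ha hb => by
      rw [(shuf_nat a b).congr (ψ := fun w => decs k t fun K => φ (w :: K)) fun w hw =>
        if_neg fun c : w = [] => ha (List.sublist_nil.1 (c ▸ hw.1)),
        (shuf_nat a b).swap (decs_nat k t)]
      exact (decs_nat k t).eq_zero fun K _ => h.1 a b K ha hb

theorem shufs_decs_zero (k : ℕ) : ∀ (L : List (List X)) (φ : List (List X) → M), Prim k φ →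
    k < L.countP (· ≠ []) → (shufs L fun l => decs k l φ) = 0 := by
  induction k with
  | zero =>
    intro L φ _ h
    obtain ⟨u, hu, h⟩ := List.countP_pos_iff.1 h
    refine (shufs_nat L).eq_zero fun w hw => if_neg fun c : w = [] => ?_
    rw [c, List.nil_perm, List.flatten_eq_nil_iff] at hw
    simp [hw u hu] at h
  | succ k ih =>
    intro L φ h hk
    rw [shufs_decs_succ k L h]
    refine rr_zero L _ fun q hq => ?_
    split_ifs
    exacts [(shufs_nat _).zero, ih _ _ (h.2 _) (by omega)]

theorem shufs_decs_sym (k : ℕ) : ∀ (L : List (List X)) (φ : List (List X) → M), Prim k φ →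
    L.length = k → (∀ u ∈ L, u ≠ []) → (shufs L fun l => decs k l φ) = sym k L φ := by
  induction k with
  | zero =>
    intro L φ _ h _
    obtain rfl := List.length_eq_zero_iff.1 h
    rfl
  | succ k ih =>
    intro L φ h hk hL
    rw [shufs_decs_succ k L h, rr_rp L _ hL (fun q a b => ?_) fun u A B => shufs_nil A B _, sym]
    · refine (rp_nat L).congr fun q hq => ?_
      have h1 : ∀ u ∈ q.1 :: q.2, u ≠ [] := fun u hu => hL u (hq.subset hu)
      rw [List.forall_mem_cons] at h1
      simp only [if_neg h1.1]
      exact ih _ _ (h.2 _) (by simpa [hk] using hq.length_eq) h1.2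
    · split_ifs
      exacts [(shufs_nat _).zero, shufs_decs_zero k _ _ (h.2 _) (by
        rw [List.countP_eq_length.2 fun u hu => by simpa using b u hu]; omega)]

end Pool.Agent.CS.HA
end
end
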