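import Pool.Agent.K.MP_d34769_ag.C156
import Pool.Agent.K.MP_d34769_ag.C75

/-! The signed shuffle algebra is free on its indecomposables. -/

open Module

noncomputable section
namespace Pool.Agent.CS.EC
open Pool.Agent.P.MP_d34769_ag HA

variable {X : Type} (wt : X → V × ℕ)

/-- combinations of words of length `ℓ` and weight `g` -/
def Sup (ℓ : ℕ) (g : V × ℕ) : Submodule ℂ (List X →₀ ℂ) :=
  Submodule.span ℂ (bs ℂ '' {w | w.length = ℓ ∧ ww wt w = g})

/-- remove an initial segment -/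
def der (c : List X → ℂ) : End ℂ (List X →₀ ℂ) := lc ℂ fun l => dc l fun p => c p.1 • bs ℂ p.2

variable {wt} {ℓ m : ℕ} {g k : V × ℕ} {a b : List X →₀ ℂ} {c : List X → ℂ}

theorem bs_mem {w : List X} (h1 : w.length = ℓ) (h2 : ww wt w = g) : bs ℂ w ∈ Sup wt ℓ g :=
  Submodule.subset_span ⟨w, ⟨h1, h2⟩, rfl⟩

theorem Sup_le {P : Submodule ℂ (List X →₀ ℂ)}
    (h : ∀ w, w.length = ℓ → ww wt w = g → bs ℂ w ∈ P) : Sup wt ℓ g ≤ P :=
  Submodule.span_le.2 fun _ ⟨w, hw, e⟩ => e ▸ h w hw.1 hw.2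

theorem Sup_eq {M : Type} [AddCommGroup M] [Module ℂ M] (f f' : (List X →₀ ℂ) →ₗ[ℂ] M)
    (h : ∀ w, w.length = ℓ → ww wt w = g → f (bs ℂ w) = f' (bs ℂ w)) (ha : a ∈ Sup wt ℓ g) :
    f a = f' a := Sup_le (P := LinearMap.eqLocus f f') h ha

theorem finrank_Sup : finrank ℂ (Sup wt ℓ g) =
    Nat.card {w : List X // w.length = ℓ ∧ ww wt w = g} := by
  have h : LinearIndependent ℂ fun w : {w : List X // w.length = ℓ ∧ ww wt w = g} => bs ℂ w.1 :=
    (Finsupp.basisSingleOne (ι := List X) (R := ℂ)).linearIndependent.comp _ Subtype.val_injective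
  rw [← finrank_eq_nat_card_basis (Basis.span h), Sup, Set.image_eq_range]
  rfl

theorem shp_mem (ha : a ∈ Sup wt ℓ g) (hb : b ∈ Sup wt m k) :
    shp ℂ a b ∈ Sup wt (ℓ + m) (g + k) :=
  Sup_le (P := (Sup wt (ℓ + m) (g + k)).comap ((shp ℂ).flip b)) (fun u u1 u2 =>
    Sup_le (P := (Sup wt (ℓ + m) (g + k)).comap (shp ℂ (bs ℂ u))) (fun v v1 v2 => by
      rw [Submodule.mem_comap, shp_bs]
      exact (shuf_nat u v).memS _ fun w hw => bs_mem
        (by rw [hw.2.2.length_eq, List.length_append, u1, v1])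
        (by rw [ww_perm hw.2.2, ww_append, u2, v2])) hb) ha

theorem shp_comm (ha : a ∈ Sup wt ℓ g) (hb : b ∈ Sup wt m k) :
    shp ℂ a b = (-1 : ℂ) ^ (ℓ * m) • shp ℂ b a :=
  Sup_eq ((shp ℂ).flip b) ((-1 : ℂ) ^ (ℓ * m) • shp ℂ b) (fun u u1 _ =>
    Sup_eq (shp ℂ (bs ℂ u)) ((-1 : ℂ) ^ (ℓ * m) • (shp ℂ).flip (bs ℂ u)) (fun v v1 _ => by
      simp only [LinearMap.smul_apply, LinearMap.flip_apply, shp_bs]
      rw [shuf_comm, u1, v1, ← Int.cast_smul_eq_zsmul ℂ]
      simp) hb) ha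

theorem shp_mul (a b : List X →₀ ℂ) :
    (shp ℂ a * shp ℂ b : End ℂ (List X →₀ ℂ)) = shp ℂ (shp ℂ a b) :=
  LinearMap.ext fun z => (shp_assoc a b z).symm

theorem der_bs (c : List X → ℂ) (l : List X) :
    der c (bs ℂ l) = dc l fun p => c p.1 • bs ℂ p.2 := lc_bs _ _

theorem der_short (hc : c ∈ Ksp wt m k) (ha : a ∈ Sup wt ℓ g) (h : ℓ ≤ m) :
    der c a = lc ℂ c a • bs ℂ [] :=
  Sup_eq (der c) ((lc ℂ c).smulRight (bs ℂ [])) (fun w w1 _ => by
    rw [der_bs, (dc_nat w).congr (ψ := fun p => if p.2 = [] then c p.1 • bs ℂ p.2 else 0)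
      fun p hp => ?_, dc_last _ _ fun p hp => if_neg hp]
    · simp
    · split_ifs with e
      · rfl
      · have := List.length_pos_iff.2 e
        rw [← hp, List.length_append] at w1
        rw [hc.1 p.1 fun e => by omega, zero_smul]) ha

theorem der_shp (hc : c ∈ Ksp wt m k) (hm : m ≠ 0) (ha : a ∈ Sup wt ℓ g) (b : List X →₀ ℂ) :
    der c (shp ℂ a b) = shp ℂ (der c a) b + (-1 : ℂ) ^ (m * ℓ) • shp ℂ a (der c b) :=
  Sup_eq (der c ∘ₗ (shp ℂ).flip b) ((shp ℂ).flip b ∘ₗ der c +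
    (-1 : ℂ) ^ (m * ℓ) • (shp ℂ).flip (der c b)) (fun u u1 _ =>
    eq_bs (der c ∘ₗ shp ℂ (bs ℂ u)) (shp ℂ (der c (bs ℂ u)) +
      (-1 : ℂ) ^ (m * ℓ) • shp ℂ (bs ℂ u) ∘ₗ der c) (fun v => by
      simp only [LinearMap.comp_apply, LinearMap.add_apply, LinearMap.smul_apply, shp_bs,
        (shuf_nat u v).lin, der_bs]
      rw [shuf_dc_prim u v _ (fun t => by rw [hc.1 [] fun e => hm e.1.symm, zero_smul])
        fun a b t ha hb => ((shuf_nat a b).lin (LinearMap.toSpanSingleton ℂ _ (bs ℂ t)) c).symm.trans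
          (by rw [hc.2 a b ha hb, map_zero]),
        ← LinearMap.flip_apply (shp ℂ) (dc u _), (dc_nat u).lin, (dc_nat v).lin, ← (dc_nat v).smul]
      congr 1
      · refine congrArg _ (funext fun p => ?_)
        rw [map_smul, LinearMap.flip_apply, shp_bs]
        exact (shuf_nat p.2 v).smul (c p.1) (bs ℂ)
      · refine congrArg _ (funext fun q => ?_)
        rw [map_smul, shp_bs]
        refine (congrArg _ ((shuf_nat u q.2).smul (c q.1) (bs ℂ))).trans ?_
        by_cases e : q.1.length = m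
        · rw [e, u1, ← Int.cast_smul_eq_zsmul ℂ, mul_comm]
          simp
        · rw [hc.1 q.1 fun k => e k.1]
          simp) b) ha

theorem der_mul (hc : c ∈ Ksp wt m k) (hm : m ≠ 0) (ha : a ∈ Sup wt ℓ g) (h : ℓ ≤ m) :
    der c * shp ℂ a = lc ℂ c a • 1 + (-1 : ℂ) ^ (m * ℓ) • (shp ℂ a * der c) :=
  LinearMap.ext fun b => (der_shp hc hm ha b).trans (by
    rw [der_short hc ha h, map_smul, LinearMap.smul_apply, nil_shp]
    rfl)

theorem shp_prod {J : Type} (q : J → List X →₀ ℂ) (js : List J) (b : List X →₀ ℂ) :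
    shp ℂ ((js.map fun j => (shp ℂ (q j) : End ℂ _)).prod (bs ℂ [])) b =
      (js.map fun j => (shp ℂ (q j) : End ℂ _)).prod b := by
  induction js with
  | nil => exact nil_shp b
  | cons j js ih =>
    rw [List.map_cons, List.prod_cons, End.mul_apply, End.mul_apply, shp_assoc, ih]

theorem card_of_dual {J : Type} [LinearOrder J] (len : J → ℕ) (w : J → V × ℕ)
    (q : J → List X →₀ ℂ) (lam : J → List X → ℂ) (h0 : ∀ j, len j ≠ 0)
    (mono : ∀ i j, j ≤ i → len j ≤ len i) (hq : ∀ j, q j ∈ Sup wt (len j) (w j))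
    (hl : ∀ j, lam j ∈ Ksp wt (len j) (w j))
    (dual : ∀ i j, lc ℂ (lam i) (q j) = if j = i then 1 else 0)
    (sep : ∀ ℓ g, ℓ ≠ 0 → ∀ c ∈ Ksp wt ℓ g, (∀ j, len j = ℓ → w j = g → lc ℂ c (q j) = 0) → c = 0)
    (ℓ : ℕ) (g : V × ℕ) : Nat.card {u : List X // u.length = ℓ ∧ ww wt u = g} =
      Nat.card {s : Multiset J // Adm len s ∧ (s.map len).sum = ℓ ∧ (s.map w).sum = g} := by
  classical
  set y : J → End ℂ (List X →₀ ℂ) := fun j => shp ℂ (q j) with hy
  have hc : ∀ i j, y i * y j = (-1 : ℂ) ^ (len i * len j) • (y j * y i) := fun i j => by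
    simp only [hy, shp_mul]
    rw [shp_comm (hq i) (hq j), map_smul]
  have li := mon_indep (dl := fun j => der (lam j)) (u := bs ℂ []) hc
    (Finsupp.single_ne_zero.2 one_ne_zero)
    (fun i => by
      rw [der_short (hl i) (bs_mem rfl rfl) (Nat.zero_le _), lc_bs,
        (hl i).1 [] fun e => h0 i e.1.symm, zero_smul])
    fun i j h => by
      rw [der_mul (hl i) (h0 i) (hq j) (mono i j h), dual]
      split_ifs <;> simp [hy]
  let PL : ℕ → V × ℕ → Submodule ℂ (List X →₀ ℂ) := fun ℓ g => Submodule.span ℂ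
    ((fun js : List J => (js.map y).prod (bs ℂ [])) ''
      {js | (js.map len).sum = ℓ ∧ (js.map w).sum = g})
  have mem : ∀ js : List J, (js.map y).prod (bs ℂ []) ∈ PL (js.map len).sum (js.map w).sum :=
    fun js => Submodule.subset_span ⟨js, ⟨rfl, rfl⟩, rfl⟩
  have mul : ∀ {ℓ m g k a b}, a ∈ PL ℓ g → b ∈ PL m k → shp ℂ a b ∈ PL (ℓ + m) (g + k) :=
    fun {ℓ m g k a b} ha hb => Submodule.span_le (p := (PL (ℓ + m) (g + k)).comap
      ((shp ℂ).flip b)).2 (by
      rintro _ ⟨js, ⟨rfl, rfl⟩, rfl⟩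
      refine Submodule.span_le (p := (PL _ _).comap (shp ℂ _)).2 ?_ hb
      rintro _ ⟨ks, ⟨rfl, rfl⟩, rfl⟩
      have := mem (js ++ ks)
      simp only [List.map_append, List.sum_append, List.prod_append, End.mul_apply] at this
      rw [SetLike.mem_coe, Submodule.mem_comap, shp_prod]
      exact this) ha
  have sp : ∀ ℓ g, Sup wt ℓ g ≤ PL ℓ g := fun ℓ => by
    induction ℓ using Nat.strong_induction_on with
    | _ ℓ ih =>
    intro g a ha
    rcases eq_or_ne ℓ 0 with rfl | hℓ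
    · refine Sup_le (fun u u1 u2 => ?_) ha
      obtain rfl := List.length_eq_zero_iff.1 u1
      exact u2 ▸ mem []
    by_contra hn
    obtain ⟨f, f1, f2⟩ := Submodule.exists_dual_map_eq_bot_of_notMem hn inferInstance
    have f0 : ∀ x ∈ PL ℓ g, f x = 0 := fun x hx =>
      (Submodule.mem_bot ℂ).1 (f2 ▸ Submodule.mem_map_of_mem hx)
    let c : List X → ℂ := fun u => if u.length = ℓ ∧ ww wt u = g then f (bs ℂ u) else 0
    have e : ∀ x ∈ Sup wt ℓ g, lc ℂ c x = f x := fun x hx =>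
      Sup_eq _ _ (fun u u1 u2 => (lc_bs _ _).trans (if_pos ⟨u1, u2⟩)) hx
    have hc : c ∈ Ksp wt ℓ g := ⟨fun u h => if_neg h, fun u v hu hv => by
      by_cases h : (u ++ v).length = ℓ ∧ ww wt (u ++ v) = g
      · have u0 := List.length_pos_iff.2 hu
        have v0 := List.length_pos_iff.2 hv
        rw [List.length_append, ww_append] at h
        rw [(shuf_nat u v).congr (ψ := fun t => f (bs ℂ t)) fun t ht => if_pos
          ⟨by rw [ht.2.2.length_eq, List.length_append, h.1], by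
            rw [ww_perm ht.2.2, ww_append, h.2]⟩, ← (shuf_nat u v).lin, ← shp_bs]
        exact f0 _ (h.1 ▸ h.2 ▸ mul (ih _ (by omega) _ (bs_mem rfl rfl))
          (ih _ (by omega) _ (bs_mem rfl rfl)))
      · exact (shuf_nat u v).eq_zero fun t ht => if_neg fun k =>
          h ⟨ht.2.2.length_eq ▸ k.1, ww_perm ht.2.2 ▸ k.2⟩⟩
    have c0 := sep ℓ g hℓ c hc fun j j1 j2 => by
      have := mem [j]
      simp only [List.map_cons, List.map_nil, List.sum_cons, List.sum_nil, add_zero,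
        List.prod_cons, List.prod_nil, mul_one, hy, shp_nil, j1, j2] at this
      rw [e _ (j1 ▸ j2 ▸ hq j), f0 _ this]
    refine f1 ?_
    rw [← e a ha, c0]
    exact eq_bs (lc ℂ 0) 0 (fun u => lc_bs _ _) a
  have ps : ∀ js : List J, (js.map y).prod (bs ℂ []) ∈
      Sup wt (js.map len).sum (js.map w).sum := fun js => by
    induction js with
    | nil => exact bs_mem rfl rfl
    | cons j js ih =>
      simp only [List.map_cons, List.sum_cons, List.prod_cons, End.mul_apply]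
      exact shp_mem (hq j) ih
  have li' := li.comp (fun s : {s : Multiset J // Adm len s ∧ (s.map len).sum = ℓ ∧
    (s.map w).sum = g} => (⟨s.1, s.2.1⟩ : {s : Multiset J // Adm len s})) fun s t e =>
    Subtype.ext (congrArg (fun x => x.1) e)
  have tl : ∀ {M : Type} [AddCommMonoid M] (F : J → M) (s : Multiset J),
      (s.toList.map F).sum = (s.map F).sum := fun F s => by
    rw [← Multiset.sum_coe, ← Multiset.map_coe, Multiset.coe_toList]
  rw [← finrank_Sup, ← finrank_eq_nat_card_basis (Basis.span li')]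
  refine congrArg (fun P : Submodule ℂ (List X →₀ ℂ) => finrank ℂ P)
    (le_antisymm ((sp ℓ g).trans (Submodule.span_le.2 ?_)) (Submodule.span_le.2 ?_))
  · rintro _ ⟨js, ⟨h1, h2⟩, rfl⟩
    by_cases h : Adm len (js : Multiset J)
    · obtain ⟨e, -, he⟩ := pr_perm hc (Multiset.coe_eq_coe.1 (Multiset.coe_toList (js : Multiset J))).symm
      simp only [he, LinearMap.smul_apply]
      exact Submodule.smul_mem _ _ (Submodule.subset_span
        ⟨⟨js, h, by simpa using h1, by simpa using h2⟩, rfl⟩)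
    · obtain ⟨j, j1, j2⟩ : ∃ j, Odd (len j) ∧ ¬ (js : Multiset J).count j ≤ 1 := by
        simpa [Adm] using h
      simp only [pr_zero hc j1 (js := js) (by rw [Multiset.coe_count] at j2; omega)]
      exact zero_mem _
  · rintro _ ⟨s, rfl⟩
    have := ps s.1.toList
    rw [tl, tl, s.2.2.1, s.2.2.2] at this
    exact this

theorem fin_Ksp (h : Alp wt) (ℓ : ℕ) (g : V × ℕ) : Module.Finite ℂ (Ksp wt ℓ g) := by
  have := (h.words g).to_subtype
  exact Module.Finite.of_injective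
    (LinearMap.funLeft ℂ ℂ (Subtype.val : {w | ww wt w = g} → List X) ∘ₗ (Ksp wt ℓ g).subtype)
    ((injective_iff_map_eq_zero _).2 fun c hc => Subtype.ext (funext fun w => by
      by_cases e : ww wt w = g
      · exact congrFun hc ⟨w, e⟩
      · exact c.2.1 w fun k => e k.2))

theorem exists_dual (h : Alp wt) (ℓ : ℕ) (g : V × ℕ) :
    ∃ (q : Fin (Kd wt ℓ g) → List X →₀ ℂ) (lam : Fin (Kd wt ℓ g) → List X → ℂ),
      (∀ j, q j ∈ Sup wt ℓ g) ∧ (∀ j, lam j ∈ Ksp wt ℓ g) ∧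
      (∀ i j, lc ℂ (lam i) (q j) = if j = i then 1 else 0) ∧
      ∀ c ∈ Ksp wt ℓ g, (∀ j, lc ℂ c (q j) = 0) → c = 0 := by
  classical
  have := fin_Ksp h ℓ g
  let β := finBasis ℂ (Ksp wt ℓ g)
  let ev : (List X →₀ ℂ) →ₗ[ℂ] Dual ℂ (Ksp wt ℓ g) :=
    lc ℂ fun w => LinearMap.proj w ∘ₗ (Ksp wt ℓ g).subtype
  have e : ∀ a (c : Ksp wt ℓ g), ev a c = lc ℂ c.1 a := fun a c =>
    eq_bs (LinearMap.applyₗ c ∘ₗ ev) (lc ℂ c.1) (fun w => by simp [ev]) a
  have su : (Sup wt ℓ g).map ev = ⊤ := by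
    rw [← Subspace.dualCoannihilator_dualAnnihilator_eq (W := (Sup wt ℓ g).map ev),
      Submodule.dualAnnihilator_eq_top_iff, eq_bot_iff]
    intro c hc
    refine Subtype.ext (funext fun w => ?_)
    by_cases k : w.length = ℓ ∧ ww wt w = g
    · have := (Submodule.mem_dualCoannihilator c).1 hc _ (Submodule.mem_map_of_mem (bs_mem k.1 k.2))
      rwa [e, lc_bs] at this
    · exact c.2.1 w k
  choose q q1 q2 using fun j => Submodule.mem_map.1 (su ▸ Submodule.mem_top (x := β.coord j))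
  refine ⟨q, fun i => (β i).1, q1, fun i => (β i).2, fun i j => ?_, fun c hc k => ?_⟩
  · rw [← e, q2, Basis.coord_apply, Basis.repr_self, Finsupp.single_apply]
    exact if_congr eq_comm rfl rfl
  · exact congrArg Subtype.val (β.forall_coord_eq_zero_iff (x := ⟨c, hc⟩).1 fun j => by
      rw [← q2, e, k])

variable (wt) in
/-- the generators of the shuffle algebra -/
abbrev Gn : Type := Σ k : ℕ × V × ℕ, Fin (Kd wt (k.1 + 1) k.2)

theorem card_words (h : Alp wt) [i : DecidableEq (Gn wt)] (ℓ : ℕ) (g : V × ℕ) :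
    Nat.card {u : List X // u.length = ℓ ∧ ww wt u = g} =
      Nat.card {s : Multiset (Gn wt) // Adm (fun j => j.1.1 + 1) s ∧
        (s.map fun j => j.1.1 + 1).sum = ℓ ∧ (s.map fun j => j.1.2).sum = g} := by
  choose q lam h1 h2 h3 h4 using exists_dual h
  obtain ⟨f⟩ := nonempty_encodable (Gn wt)
  let o : LinearOrder (Gn wt) := LinearOrder.lift' (fun j => toLex (j.1.1, Encodable.encode j))
    fun _ _ e => Encodable.encode_injective (congrArg (fun x => (ofLex x).2) e)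
  obtain rfl : i = o.toDecidableEq := Subsingleton.elim _ _
  refine card_of_dual (J := Gn wt) _ _ (fun j => q _ _ j.2) (fun j => lam _ _ j.2)
    (fun j => Nat.succ_ne_zero _)
    (fun i j e => Nat.succ_le_succ (Prod.Lex.monotone_fst_ofLex e)) (fun j => h1 _ _ _)
    (fun j => h2 _ _ _) (fun ⟨a, i⟩ ⟨b, j⟩ => ?_) (fun ℓ g h0 c hc k => ?_) ℓ g
  · rcases eq_or_ne b a with rfl | e
    · rw [h3]
      simp
    · rw [if_neg fun k => e (congrArg Sigma.fst k)]
      exact Sup_eq _ 0 (fun w w1 w2 => (lc_bs _ _).trans ((h2 _ _ i).1 w fun k =>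
        e (Prod.ext (Nat.succ_injective (w1.symm.trans k.1)) (w2.symm.trans k.2)))) (h1 _ _ j)
  · obtain ⟨n, rfl⟩ := Nat.exists_eq_succ_of_ne_zero h0
    exact h4 _ _ c hc fun j => k ⟨(n, g), j⟩ rfl rfl

end Pool.Agent.CS.EC
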