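import Pool.Agent.K.MP_d34769_ag.C154

/-! Logarithmic derivatives of signed counts. -/

open PowerSeries

noncomputable section
namespace Pool.Agent.CS.EC
open Pool.Agent.P.MP_d34769_ag

section conv
variable {R : Type} [CommRing R]

theorem cv_comm_Ua (a b : V → R) : cv a b = cv b a := funext fun e =>
  (sum_Iic_refl e fun f g => a f * b g).trans (Finset.sum_congr rfl fun _ _ => mul_comm _ _)

theorem cv_assoc_Ua (a b c : V → R) : cv (cv a b) c = cv a (cv b c) := funext fun e => by
  simp only [cv, Finset.sum_mul, Finset.mul_sum, ← mul_assoc]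
  exact sum_Iic_Iic e fun f g k => a f * b g * c k

theorem cv_one_Ua (a : V → R) : cv (fun e => if e = 0 then 1 else 0) a = a := funext fun e => by
  simp [cv]

theorem cv_der_Ua (a b : V → R) (e : V) : (sz e : R) * cv a b e =
    cv (fun f => (sz f : R) * a f) b e + cv a (fun f => (sz f : R) * b f) e := by
  simp only [cv, Finset.mul_sum, ← Finset.sum_add_distrib]
  refine Finset.sum_congr rfl fun f hf => ?_
  have k : sz e = sz f + sz (e - f) := by
    rw [← sz_add, add_tsub_cancel_of_le (Finset.mem_Iic.1 hf)]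
  rw [k, Nat.cast_add]
  ring

theorem log_inv {p n G : V → R}
    (h : ∀ e, cv p n e = if e = 0 then 1 else 0) (k : ∀ e, (sz e : R) * n e = cv G n e) (e : V) :
    (sz e : R) * p e = - cv G p e := by
  have h1 : cv n p = fun e => if e = 0 then 1 else 0 := (cv_comm_Ua n p).trans (funext h)
  have h2 : cv (fun f => (sz f : R) * p f) n = fun f => - G f := funext fun f => by
    have h3 := cv_der_Ua p n f
    rw [funext k, cv_comm_Ua p (cv G n), cv_assoc_Ua, h1, cv_comm_Ua G, cv_one_Ua, h] at h3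
    rw [eq_neg_iff_add_eq_zero, ← h3]
    split_ifs with h4
    · simp [h4, sz]
    · exact mul_zero _
  have h3 := congrFun (cv_assoc_Ua (fun f => (sz f : R) * p f) n p) e
  rw [h1, h2, cv_comm_Ua _ fun e => if e = 0 then 1 else 0, cv_one_Ua] at h3
  rw [← h3]
  simp [cv]

end conv

/-- a coefficient of a family of series -/
def cfU (a : V → ℚ⟦X⟧) (g : V × ℕ) : ℚ := coeff g.2 (a g.1)

/-- the weights below `g` -/
def IU (g : V × ℕ) : Finset (V × ℕ) := Finset.Iic g.1 ×ˢ Finset.Iic g.2

theorem mem_IU {f g : V × ℕ} : f ∈ IU g ↔ f ≤ g := by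
  simp only [IU, Finset.mem_product, Finset.mem_Iic, Prod.le_def]

theorem cfU_cv (a b : V → ℚ⟦X⟧) (g : V × ℕ) :
    cfU (cv a b) g = ∑ f ∈ IU g, cfU a f * cfU b (g - f) := by
  rw [cfU, cv, map_sum, IU, Finset.sum_product]
  refine Finset.sum_congr rfl fun f _ => ?_
  rw [coeff_mul, Finset.Nat.sum_antidiagonal_eq_sum_range_succ_mk, Nat.range_succ_eq_Iic]
  rfl

theorem cfU_sc {A : Type} (ok : A → Prop) (ln : A → ℕ) (w : A → V × ℕ) (g : V × ℕ)
    (M : Finset A) (hM : ∀ a, a ∈ M ↔ ok a ∧ w a = g) (hl : ∀ a ∈ M, ln a ≤ sz g.1) :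
    cfU (sc ok ln w) g = ∑ a ∈ M, (-1) ^ ln a := by
  rw [cfU, sc, coeff_mk, ← Finset.sum_fiberwise_of_maps_to (s := M) (g := ln)
    fun a ha => Finset.mem_range.2 (Nat.lt_succ_of_le (hl a ha))]
  refine Finset.sum_congr rfl fun ℓ _ => ?_
  rw [Finset.sum_congr rfl fun a ha => by rw [(Finset.mem_filter.1 ha).2], Finset.sum_const,
    nsmul_eq_mul, mul_comm, Nat.subtype_card (M.filter fun a => ln a = ℓ)]
  intro a
  rw [Finset.mem_filter, hM]
  tauto

section letters
variable {A : Type} {wt : A → V × ℕ} (h : Alp wt)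

theorem sum_le_Ua (g : V × ℕ) (F : V × ℕ → ℚ) : ∑ x ∈ (h.le g).toFinset, F (wt x) =
    ∑ f ∈ IU g, ((h.fin f).toFinset.card : ℚ) * F f := by
  classical
  rw [← Finset.sum_fiberwise_of_maps_to (t := IU g) (g := wt)
    fun x hx => mem_IU.2 ((h.le g).mem_toFinset.1 hx)]
  refine Finset.sum_congr rfl fun f hf => ?_
  rw [Finset.sum_congr rfl fun a ha => by rw [(Finset.mem_filter.1 ha).2], Finset.sum_const,
    nsmul_eq_mul]
  refine congrArg (fun s : Finset A => (s.card : ℚ) * F f) (Finset.ext fun x => ?_)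
  simp only [Finset.mem_filter, Set.Finite.mem_toFinset, Set.mem_ofPred_eq]
  exact ⟨fun k => k.2, fun k => ⟨k ▸ mem_IU.1 hf, k⟩⟩

theorem cfU_pp (f : V × ℕ) :
    cfU (pp wt) f = (if f = 0 then 1 else 0) + ((h.fin f).toFinset.card : ℚ) := by
  rw [cfU, pp]
  split_ifs with h1 h2 h2
  · rw [h2, Finset.card_eq_zero.2 (Finset.eq_empty_of_forall_notMem fun x hx => ?_)]
    · simp
    · exact h.ne x (congrArg Prod.fst ((h.fin _).mem_toFinset.1 hx))
  · rw [coeff_one, if_neg fun k : f.2 = 0 => h2 (Prod.ext h1 k),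
      Finset.card_eq_zero.2 (Finset.eq_empty_of_forall_notMem fun x hx => ?_)]
    · simp
    · exact h.ne x ((congrArg Prod.fst ((h.fin _).mem_toFinset.1 hx)).trans h1)
  · exact absurd (congrArg Prod.fst h2) h1
  · rw [coeff_mk, zero_add, Nat.subtype_card (h.fin f).toFinset fun x => by simp]

theorem sum_words_Ua (g : V × ℕ) (F : List A → ℚ) : ∑ u ∈ (h.words g).toFinset, F u =
    (if g = 0 then F [] else 0) +
      ∑ x ∈ (h.le g).toFinset, ∑ u ∈ (h.words (g - wt x)).toFinset, F (x :: u) := by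
  classical
  rw [← Finset.sum_filter_add_sum_filter_not _ (· = []), Finset.sum_sigma']
  refine congrArg₂ _ ?_ (Finset.sum_bij (fun q _ => q.1 :: q.2) ?_ ?_ ?_ fun _ _ => rfl).symm
  · split_ifs with k
    · exact Finset.sum_eq_single_of_mem [] (by simp [k, ww_nil])
        fun _ hu hu' => absurd (Finset.mem_filter.1 hu).2 hu'
    · refine Finset.sum_eq_zero fun u hu => absurd ?_ k
      obtain ⟨h1, rfl⟩ := Finset.mem_filter.1 hu
      exact ((h.words g).mem_toFinset.1 h1).symm
  · rintro ⟨x, u⟩ hq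
    simp only [Finset.mem_sigma, Set.Finite.mem_toFinset, Set.mem_ofPred_eq] at hq
    simp only [Finset.mem_filter, Set.Finite.mem_toFinset, Set.mem_ofPred_eq, ww_cons, hq.2]
    exact ⟨add_tsub_cancel_of_le hq.1, List.cons_ne_nil _ _⟩
  · rintro ⟨x, u⟩ _ ⟨y, v⟩ _ e
    obtain ⟨rfl, rfl⟩ := List.cons_eq_cons.1 e
    rfl
  · intro u hu
    simp only [Finset.mem_filter, Set.Finite.mem_toFinset, Set.mem_ofPred_eq] at hu
    obtain ⟨x, u, rfl⟩ := List.exists_cons_of_ne_nil hu.2
    refine ⟨⟨x, u⟩, ?_, rfl⟩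
    simp only [Finset.mem_sigma, Set.Finite.mem_toFinset, Set.mem_ofPred_eq, ← hu.1, ww_cons]
    exact ⟨le_self_add, (add_tsub_cancel_left _ _).symm⟩

end letters

theorem inv_words {A : Type} {wt : A → V × ℕ} (h : Alp wt) (e : V) :
    cv (pp wt) (sc (fun _ => True) List.length (ww wt)) e = if e = 0 then 1 else 0 := by
  have h1 : ∀ g, cfU (sc (fun _ => True) List.length (ww wt)) g =
      ∑ u ∈ (h.words g).toFinset, (-1) ^ u.length := fun g =>
    cfU_sc _ _ _ g _ (fun _ => by simp) fun u hu => by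
      rw [← show ww wt u = g from (h.words g).mem_toFinset.1 hu]
      exact h.len u
  ext p
  refine (cfU_cv _ _ (e, p)).trans ?_
  simp only [cfU_pp h, add_mul, Finset.sum_add_distrib, ite_mul, one_mul, zero_mul,
    Finset.sum_ite_eq', mem_IU, zero_le, if_true, tsub_zero]
  rw [← sum_le_Ua h (e, p) fun f => cfU (sc (fun _ => True) List.length (ww wt)) ((e, p) - f),
    h1, sum_words_Ua h]
  simp only [h1, List.length_cons, pow_succ, mul_neg, mul_one, Finset.sum_neg_distrib]
  by_cases k : e = 0 <;> simp [k, coeff_one, Prod.ext_iff]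

section multi
variable {J : Type} [DecidableEq J] {w : J → V × ℕ} (h : Alp w) (len : J → ℕ)
include h

theorem fin_multi_Ua (g : V × ℕ) : {s : Multiset J | Adm len s ∧ (s.map w).sum = g}.Finite :=
  ((h.words g).image fun l : List J => (l : Multiset J)).subset fun s hs => by
    induction s using Quotient.inductionOn with
    | _ l => exact ⟨l, by simpa [ww] using hs.2, rfl⟩

/-- the signed number of admissible multisets -/
def nU (g : V × ℕ) : ℚ := ∑ s ∈ (fin_multi_Ua h len g).toFinset, (-1) ^ (s.map len).sum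

/-- the same, with the multiplicity of `j` -/
def aU (j : J) (g : V × ℕ) : ℚ :=
  ∑ s ∈ (fin_multi_Ua h len g).toFinset, (-1) ^ (s.map len).sum * (s.count j : ℚ)

theorem sz_nU (g : V × ℕ) :
    (sz g.1 : ℚ) * nU h len g = ∑ j ∈ (h.le g).toFinset, (sz (w j).1 : ℚ) * aU h len j g := by
  simp only [nU, aU, Finset.mul_sum]
  rw [Finset.sum_comm]
  refine Finset.sum_congr rfl fun s hs => ?_
  have h1 : (s.map w).sum = g := ((fin_multi_Ua h len g).mem_toFinset.1 hs).2
  have h2 : ∀ t : Multiset J, sz (t.map w).sum.1 = (t.map fun j => sz (w j).1).sum := fun t => by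
    induction t using Multiset.induction_on with
    | empty => rfl
    | cons a t ih => simp [sz_add, ih]
  rw [← h1, h2, Finset.sum_multiset_map_count, Nat.cast_sum, Finset.sum_mul]
  refine Finset.sum_subset_zero_on_sdiff (fun j hj => ?_) (fun j hj => ?_) fun j _ => ?_
  · exact (h.le _).mem_toFinset.2 (Multiset.single_le_sum (s := s.map w) (fun _ _ => zero_le) _
      (Multiset.mem_map_of_mem w (Multiset.mem_toFinset.1 hj)))
  · rw [Multiset.count_eq_zero_of_notMem fun k =>
      (Finset.mem_sdiff.1 hj).2 (Multiset.mem_toFinset.2 k)]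
    simp
  · rw [smul_eq_mul, Nat.cast_mul]
    ring

theorem aU_zero {j : J} {g : V × ℕ} (k : ¬ w j ≤ g) : aU h len j g = 0 :=
  Finset.sum_eq_zero fun s hs => by
    rw [Multiset.count_eq_zero_of_notMem fun m => k ?_, Nat.cast_zero, mul_zero]
    rw [← ((fin_multi_Ua h len g).mem_toFinset.1 hs).2]
    exact Multiset.single_le_sum (s := s.map w) (fun _ _ => zero_le) _
      (Multiset.mem_map_of_mem w m)

theorem aU_rec {j : J} {g : V × ℕ} (k : w j ≤ g) :
    aU h len j g = (-1) ^ len j * nU h len (g - w j) + aU h len j (g - w j) := by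
  classical
  rw [nU, aU, aU, Finset.mul_sum, ← Finset.sum_add_distrib]
  refine Eq.symm ((Finset.sum_filter_of_ne (p := fun t => Adm len (j ::ₘ t)) ?_).symm.trans ?_)
  · intro t ht h1 i hi
    have h2 := ((fin_multi_Ua h len _).mem_toFinset.1 ht).1 i hi
    rw [Multiset.count_cons]
    split_ifs with e
    · subst e
      by_contra h3
      rw [hi.neg_one_pow, show t.count i = 1 by omega] at h1
      simp at h1
    · exact h2
  refine Finset.sum_of_injOn (fun t => j ::ₘ t) (fun _ _ _ _ e => (Multiset.cons_inj_right j).1 e)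
    (fun t ht => ?_) (fun s hs hs' => ?_) fun t ht => ?_
  · simp only [Finset.coe_filter, Set.Finite.mem_toFinset, Set.mem_ofPred_eq] at ht
    simp only [Set.Finite.coe_toFinset, Set.mem_ofPred_eq, Multiset.map_cons, Multiset.sum_cons,
      ht.1.2]
    exact ⟨ht.2, add_tsub_cancel_of_le k⟩
  · rw [Multiset.count_eq_zero_of_notMem fun m => hs' ?_, Nat.cast_zero, mul_zero]
    obtain ⟨t, rfl⟩ := Multiset.exists_cons_of_mem m
    obtain ⟨h1, h2⟩ := (fin_multi_Ua h len g).mem_toFinset.1 hs
    refine ⟨t, ?_, rfl⟩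
    simp only [Finset.coe_filter, Set.Finite.mem_toFinset, Set.mem_ofPred_eq]
    refine ⟨⟨fun i hi => (Multiset.count_le_count_cons i j t).trans (h1 i hi), ?_⟩, h1⟩
    rw [← h2, Multiset.map_cons, Multiset.sum_cons, add_tsub_cancel_left]
  · have h1 := (Finset.mem_filter.1 ht).2 j
    rw [Multiset.count_cons_self] at h1 ⊢
    rw [Multiset.map_cons, Multiset.sum_cons, pow_add]
    rcases Nat.even_or_odd (len j) with e | e
    · rw [e.neg_one_pow]
      push_cast
      ring
    · rw [show t.count j = 0 by have := h1 e; omega]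
      simp

open Classical in
theorem aU_eq (j : J) (N : ℕ) : ∀ g : V × ℕ, sz g.1 ≤ N → aU h len j g = (-1) ^ len j *
    ∑ r ∈ Finset.range N, if (r + 1) • w j ≤ g then nU h len (g - (r + 1) • w j) else 0 := by
  have h0 := Nat.pos_of_ne_zero fun k => h.ne j (sz_eq_zero k)
  have h1 : ∀ g : V × ℕ, w j ≤ g → sz g.1 = sz (w j).1 + sz (g - w j).1 := fun g k => by
    rw [← sz_add, Prod.fst_sub, add_tsub_cancel_of_le k.1]
  induction N with
  | zero =>
    intro g hg
    rw [aU_zero h len fun k => by have := h1 g k; omega]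
    simp
  | succ N ih =>
    intro g hg
    by_cases k : w j ≤ g
    · rw [aU_rec h len k, ih _ (by have := h1 g k; omega), Finset.sum_range_succ', zero_add,
        one_smul, if_pos k, mul_add, add_comm]
      simp only [le_tsub_iff_right k, tsub_tsub, succ_nsmul (w j) (_ + 1), add_comm (w j)]
    · rw [aU_zero h len k, Finset.sum_eq_zero, mul_zero]
      exact fun r _ => if_neg fun m => k (le_trans le_add_self (succ_nsmul (w j) r ▸ m))

theorem cfU_GG (hl : ∀ j, len j ≤ sz (w j).1) {f g : V × ℕ} (hf : f ≤ g) :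
    cfU (GG (sc (fun _ => True) len w)) f = ∑ j ∈ (h.le g).toFinset, (sz (w j).1 : ℚ) *
      (-1) ^ len j * ∑ r ∈ Finset.range (sz g.1), if f = (r + 1) • w j then 1 else 0 := by
  classical
  have h1 : ∀ a, cfU (sc (fun _ => True) len w) a = ∑ j ∈ (h.fin a).toFinset, (-1) ^ len j :=
    fun a => cfU_sc _ _ _ a _ (fun _ => by simp) fun j hj => by
      rw [← show w j = a from (h.fin a).mem_toFinset.1 hj]
      exact hl j
  simp only [Finset.mul_sum]
  rw [Finset.sum_comm, cfU, GG, map_sum, Finset.range_eq_Ico,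
    Finset.sum_Ico_add' (fun r => ∑ j ∈ (h.le g).toFinset, (sz (w j).1 : ℚ) * (-1) ^ len j *
      if f = r • w j then 1 else 0) 0 _ 1]
  refine Finset.sum_subset_zero_on_sdiff (fun r hr => ?_) (fun r hr => ?_) fun r hr => ?_
  · obtain ⟨h2, h3⟩ := Nat.mem_divisors.1 hr
    obtain ⟨i, -, hi⟩ : ∃ i ∈ Finset.univ, f.1 i ≠ 0 := by
      by_contra! k
      exact h3 (Finset.gcd_eq_zero_iff.2 k)
    have h4 := Nat.le_of_dvd (Nat.pos_of_ne_zero hi) (h2.trans (Finset.gcd_dvd (Finset.mem_univ i)))
    have h5 : g.1 i ≤ sz g.1 := sz_eq g.1 ▸ Finset.single_le_sum (fun _ _ => Nat.zero_le _)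
      (Finset.mem_univ i)
    have h6 : f.1 i ≤ g.1 i := hf.1 i
    have h7 := Nat.pos_of_mem_divisors hr
    rw [Finset.mem_Ico]
    omega
  · refine Finset.sum_eq_zero fun j _ => ?_
    obtain ⟨h2, h3⟩ := Finset.mem_sdiff.1 hr
    rw [if_neg, mul_zero]
    rintro rfl
    refine h3 (Nat.mem_divisors.2 ⟨Finset.dvd_gcd fun i _ => Dvd.intro _ rfl, fun k => h.ne j ?_⟩)
    funext i
    have h4 : r * (w j).1 i = 0 := Finset.gcd_eq_zero_iff.1 k i (Finset.mem_univ i)
    exact (Nat.mul_eq_zero.1 h4).resolve_left (by have := Finset.mem_Ico.1 h2; omega)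
  · have h2 := Nat.pos_of_mem_divisors hr
    have h3 : ∀ i, r ∣ f.1 i := fun i =>
      (Nat.dvd_of_mem_divisors hr).trans (Finset.gcd_dvd (Finset.mem_univ i))
    rw [← map_natCast (C : ℚ →+* ℚ⟦X⟧), coeff_C_mul, ex_eq h2.ne', coeff_expand]
    split_ifs with h4
    · have h5 : ∀ a : V × ℕ, f = r • a ↔ a = (fun i => f.1 i / r, f.2 / r) := fun a => by
        constructor
        · rintro rfl
          exact Prod.ext (funext fun i => (Nat.mul_div_cancel_left _ h2).symm)
            (Nat.mul_div_cancel_left _ h2).symm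
        · rintro rfl
          exact Prod.ext (funext fun i => (Nat.mul_div_cancel' (h3 i)).symm)
            (Nat.mul_div_cancel' h4).symm
      refine (congrArg _ (h1 (fun i => f.1 i / r, f.2 / r))).trans ?_
      rw [Finset.mul_sum]
      refine Finset.sum_subset_zero_on_sdiff (fun j hj => ?_) (fun j hj => ?_) fun j hj => ?_
      · refine (h.le g).mem_toFinset.2 (le_trans ((h.fin _).mem_toFinset.1 hj).le (le_trans ?_ hf))
        exact ⟨fun i => Nat.div_le_self _ _, Nat.div_le_self _ _⟩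
      · rw [if_neg fun k => (Finset.mem_sdiff.1 hj).2 ((h.fin _).mem_toFinset.2 ((h5 _).1 k)),
          mul_zero]
      · have h6 : w j = _ := (h.fin _).mem_toFinset.1 hj
        rw [if_pos ((h5 _).2 h6), mul_one, h6]
    · rw [mul_zero, Finset.sum_eq_zero fun j _ => ?_]
      rw [if_neg, mul_zero]
      rintro rfl
      exact h4 (Dvd.intro _ rfl)

end multi

theorem log_multi {J : Type} [DecidableEq J] {w : J → V × ℕ} (h : Alp w) {len : J → ℕ}
    (hl : ∀ j, len j ≤ sz (w j).1) (e : V) :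
    (sz e : ℚ⟦X⟧) * sc (Adm len) (fun s => (s.map len).sum) (fun s => (s.map w).sum) e =
      cv (GG (sc (fun _ => True) len w))
        (sc (Adm len) (fun s => (s.map len).sum) fun s => (s.map w).sum) e := by
  classical
  have h1 : ∀ g, cfU (sc (Adm len) (fun s => (s.map len).sum) fun s => (s.map w).sum) g =
      nU h len g := fun g =>
    cfU_sc _ _ _ g _ (fun _ => (fin_multi_Ua h len g).mem_toFinset) fun s hs => by
      rw [← ((fin_multi_Ua h len g).mem_toFinset.1 hs).2]
      clear hs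
      induction s using Multiset.induction_on with
      | empty => exact Nat.zero_le _
      | cons a t ih =>
        simp only [Multiset.map_cons, Multiset.sum_cons, Prod.fst_add, sz_add]
        exact add_le_add (hl a) ih
  ext p
  refine Eq.trans ?_ (cfU_cv _ _ (e, p)).symm
  rw [← map_natCast (C : ℚ →+* ℚ⟦X⟧), coeff_C_mul]
  refine (congrArg _ (h1 (e, p))).trans ((sz_nU h len (e, p)).trans ?_)
  refine Eq.trans ?_ (Finset.sum_congr rfl fun f hf => by
    rw [cfU_GG h len hl (mem_IU.1 hf), h1, Finset.sum_mul]).symm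
  rw [Finset.sum_comm]
  refine Finset.sum_congr rfl fun j _ => ?_
  rw [aU_eq h len j _ _ le_rfl]
  simp only [mul_assoc, ← Finset.mul_sum, Finset.sum_mul]
  rw [Finset.sum_comm]
  simp only [ite_mul, one_mul, zero_mul, Finset.sum_ite_eq', mem_IU]

end Pool.Agent.CS.EC
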