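import Pool.Agent.K.MP_d34769_ag.C153

/-! Euler classes, partitions and non zero divisors. -/

open MvPolynomial

noncomputable section
namespace Pool.Agent.CS.EC
open Pool.Agent.P.MP_d34769_ag
variable {I : Type} [Fintype I] [DecidableEq I] {col : I → Fin 3} {θ : V → ℝ} {o : I → ℕ}
  {b F G H : Finset I} {l : List (Finset I)} {c : List (Finset I × Fin 4)}

omit [Fintype I] in
theorem eul_empty (b : Finset I) : eul col b ∅ = 1 := Finset.prod_empty

omit [Fintype I] in
theorem eul_self (b : Finset I) : eul col b b = 1 := by simp [eul]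

omit [Fintype I] in
theorem eul_dvd_sub (h : G ⊆ F) (h' : F ⊆ b) : eul col b G ∣ eul col F G * eul col b F := by
  refine Dvd.dvd.trans ?_ (mul_dvd_mul_left _ (Finset.prod_dvd_prod_of_subset G F _ h))
  rw [eul, eul, ← Finset.prod_mul_distrib]
  refine Finset.prod_dvd_prod_of_dvd _ _ fun k _ => ?_
  rw [← Finset.prod_union (Finset.disjoint_left.2 fun x a c =>
    (Finset.mem_sdiff.1 c).2 (Finset.mem_sdiff.1 a).1)]
  refine Finset.prod_dvd_prod_of_subset _ _ _ fun x hx => ?_
  simp only [Finset.mem_union, Finset.mem_sdiff] at hx ⊢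
  tauto

omit [Fintype I] in
theorem eul_dvd_union (h : G ⊆ b \ F) :
    eul col b (F ∪ G) ∣ eul col (b \ F) G * eul col b F := by
  rw [eul, Finset.prod_union (Finset.disjoint_left.2 fun x a c => (Finset.mem_sdiff.1 (h c)).2 a),
    mul_comm, eul, sdiff_sdiff_left]
  exact mul_dvd_mul_left _ (Finset.prod_dvd_prod_of_dvd _ _ fun k _ =>
    Finset.prod_dvd_prod_of_subset _ _ _ (Finset.sdiff_subset_sdiff le_rfl Finset.subset_union_left))

omit [Fintype I] in
theorem eul_dvd_inter (h : F ⊆ b) (H : Finset I) : eul col F (H ∩ F) ∣ eul col b H := by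
  refine Dvd.dvd.trans ?_ (Finset.prod_dvd_prod_of_subset (H ∩ F) H _ Finset.inter_subset_left)
  refine Finset.prod_dvd_prod_of_dvd _ _ fun k _ =>
    Finset.prod_dvd_prod_of_subset _ _ _ fun x hx => ?_
  simp only [Finset.mem_sdiff, Finset.mem_inter] at hx ⊢
  exact ⟨h hx.1, fun c => hx.2 ⟨c, hx.1⟩⟩

omit [Fintype I] [DecidableEq I] in
theorem dvec_empty : dvec col ∅ = 0 := rfl

omit [Fintype I] [DecidableEq I] in
theorem sz_dvec (b : Finset I) : sz (dvec col b) = b.card :=
  (sz_eq _).trans (Finset.card_eq_sum_card_fiberwise fun _ _ => Finset.mem_univ _).symm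

omit [Fintype I] [DecidableEq I] in
theorem dvec_mono (h : F ⊆ b) : dvec col F ≤ dvec col b :=
  fun _ => Finset.card_le_card (Finset.filter_subset_filter _ h)

omit [Fintype I] in
theorem dvec_sdiff (h : F ⊆ b) : dvec col (b \ F) = dvec col b - dvec col F := by
  conv_rhs => rw [← Finset.union_sdiff_of_subset h, dvec_union Finset.disjoint_sdiff,
    add_tsub_cancel_left]

omit [Fintype I] [DecidableEq I] in
theorem sum_col_U2 (b : Finset I) (f : Fin 3 → ℕ) :
    ∑ k ∈ b, f (col k) = ∑ v, dvec col b v * f v := by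
  rw [← Finset.sum_fiberwise' b col f]
  simp [dvec]

omit [Fintype I] in
theorem eul_hom (h : F ⊆ b) :
    (eul col b F).IsHomogeneous (dl (dvec col F) (dvec col b - dvec col F)) := by
  have k : (eul col b F).IsHomogeneous
      (∑ k ∈ F, ∑ m ∈ b \ F, if col m = 1 then ![2, 0, 1] (col k) else 0) :=
    IsHomogeneous.prod _ _ _ fun k _ => IsHomogeneous.prod _ _ _ fun m _ => by
      simpa only [one_mul] using ((isHomogeneous_X ℂ m).sub (isHomogeneous_X ℂ k)).pow _
  rw [sum_col_U2 F fun v => ∑ m ∈ b \ F, if col m = 1 then ![2, 0, 1] v else 0] at k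
  simp only [fun n => sum_col_U2 (col := col) (b \ F) fun u => if u = 1 then n else 0,
    dvec_sdiff h] at k
  refine (congrArg _ ?_).mp k
  simp [Fin.sum_univ_three, dl]
  ring

omit [Fintype I] in
theorem eul_rename (w : Equiv.Perm I) (hw : ∀ i, col (w i) = col i) (b F : Finset I) :
    rename w (eul col b F) = eul col (b.image w) (F.image w) := by
  simp only [eul, ← Finset.image_sdiff _ _ w.injective, Finset.prod_image w.injective.injOn, hw,
    map_prod, map_pow, map_sub, rename_X]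

theorem disj_U2 (l : List (Finset I)) (h : (l.map Finset.val).sum.Nodup) :
    l.Pairwise Disjoint := by
  induction l with
  | nil => exact .nil
  | cons b l ih =>
    rw [List.map_cons, List.sum_cons, Multiset.nodup_add] at h
    exact .cons (fun a ha => Finset.disjoint_val.1 (h.2.2.mono_right
      (List.single_le_sum (fun _ _ => zero_le) _ (List.mem_map_of_mem ha)))) (ih h.2.1)

theorem Pa.disj (h : Pa l) : l.Pairwise Disjoint := disj_U2 l (h ▸ Finset.univ.nodup)

theorem Pa.cover (h : Pa l) (i : I) : ∃ b ∈ l, i ∈ b := by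
  have k : i ∈ (l.map Finset.val).sum := h ▸ Finset.mem_univ i
  clear h
  induction l with
  | nil => simp at k
  | cons b l ih =>
    rw [List.map_cons, List.sum_cons, Multiset.mem_add] at k
    exact k.elim (fun c => ⟨b, by simp, c⟩) fun c => (ih c).imp fun _ e => ⟨by simp [e.1], e.2⟩

omit [DecidableEq I] in
theorem Pa.perm {l' : List (Finset I)} (h : Pa l) (e : l.Perm l') : Pa l' :=
  (e.map _).sum_eq.symm.trans h

theorem Pa.split (h : Pa (b :: l)) (hF : F ⊆ b) : Pa (F :: (b \ F) :: l) := by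
  refine Eq.trans ?_ h
  simp only [List.map_cons, List.sum_cons, ← add_assoc, Finset.sdiff_val]
  rw [add_tsub_cancel_of_le (Finset.val_le_iff.2 hF)]

omit [DecidableEq I] in
theorem pa_univ : Pa [(Finset.univ : Finset I)] := by simp [Pa]

theorem pa_dvec (h : Pa l) : (l.map (dvec col)).sum = dvec col Finset.univ := by
  funext v
  have k : ∀ l : List (Finset I), (l.map (dvec col)).sum v =
      ((l.map Finset.val).sum.filter fun i => col i = v).card := fun l => by
    induction l with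
    | nil => rfl
    | cons b l ih =>
      rw [List.map_cons, List.sum_cons, Pi.add_apply, ih, List.map_cons, List.sum_cons,
        Multiset.filter_add, Multiset.card_add]
      rfl
  rw [k, h]
  rfl

theorem image_WL {w : Equiv.Perm I} (hw : w ∈ WL col l) (hb : b ∈ l) : b.image w = b := by
  ext i
  rw [← w.apply_symm_apply i, w.injective.mem_finset_image, hw.2 b hb]

omit [Fintype I] in
theorem gen_cases {t : Fin 4} {e : MvPolynomial I ℂ} (h : e ∈ gen col θ t b) :
    (t = 0 ∧ ∃ k ∈ b, e = X k) ∨ ∃ G ⊆ b, e = eul col b G := by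
  fin_cases t
  · obtain ⟨k, hk, rfl⟩ := h
    exact .inl ⟨rfl, k, hk, rfl⟩
  · exact h.elim
  · obtain ⟨G, h1, -, h2⟩ := h
    exact .inr ⟨G, h1, h2⟩
  · obtain ⟨G, h1, -, -, h2⟩ := h
    exact .inr ⟨G, h1, h2⟩

theorem JJ_hm : Hm (JJ col θ c) := by
  intro g hg p
  suffices ∀ f p, homogeneousComponent p (f * g) ∈ JJ col θ c by simpa using this 1 p
  induction hg using Submodule.span_induction with
  | mem e he =>
    intro f p
    obtain ⟨n, hn⟩ : ∃ n, e.IsHomogeneous n := by
      obtain ⟨x, -, hx⟩ := he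
      rcases gen_cases hx with ⟨-, k, -, rfl⟩ | ⟨G, h, rfl⟩
      exacts [⟨_, isHomogeneous_X ℂ k⟩, ⟨_, eul_hom h⟩]
    rw [hc_mul hn]
    split_ifs
    exacts [Ideal.mul_mem_left _ _ (Ideal.subset_span he), zero_mem _]
  | zero => simp
  | add a b _ _ ha hb => exact fun f p => by rw [mul_add, map_add]; exact add_mem (ha f p) (hb f p)
  | smul a b _ hb => exact fun f p => by rw [smul_eq_mul, ← mul_assoc]; exact hb _ p

theorem JJ_rename {w : Equiv.Perm I} (hw : w ∈ WL col (c.map Prod.fst)) {g : MvPolynomial I ℂ}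
    (h : g ∈ JJ col θ c) : rename w g ∈ JJ col θ c := by
  refine (Ideal.span_le (I := (JJ col θ c).comap (rename w : _ →ₐ[ℂ] _))).2 ?_ h
  rintro e ⟨⟨b, t⟩, hx, he⟩
  have hb : b ∈ c.map Prod.fst := List.mem_map_of_mem hx
  have k := image_WL hw hb
  have s : ∀ G ⊆ b, G.image w ⊆ b := fun G hG => k ▸ Finset.image_subset_image hG
  refine Ideal.subset_span ⟨(b, t), hx, ?_⟩
  fin_cases t
  · obtain ⟨i, hi, rfl⟩ := he
    exact ⟨w i, (hw.2 b hb i).2 hi, (rename_X _ _).symm⟩
  · exact he.elim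
  · obtain ⟨G, h1, h2, rfl⟩ := he
    exact ⟨G.image w, s G h1, by rwa [dvec_image w hw.1], by rw [eul_rename w hw.1, k]⟩
  · obtain ⟨G, h1, h2, h3, rfl⟩ := he
    exact ⟨G.image w, s G h1, by simpa using h2, by rwa [dvec_image w hw.1],
      by rw [eul_rename w hw.1, k]⟩

omit [Fintype I] [DecidableEq I] in
theorem Nz.mul {J : Ideal (MvPolynomial I ℂ)} {e e' : MvPolynomial I ℂ} (h : Nz J e)
    (h' : Nz J e') : Nz J (e * e') := fun g k => h g (h' _ (mul_assoc g e e' ▸ k))

omit [Fintype I] [DecidableEq I] in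
theorem Nz.prod {J : Ideal (MvPolynomial I ℂ)} {ι : Type} (s : Finset ι)
    (e : ι → MvPolynomial I ℂ) (h : ∀ i ∈ s, Nz J (e i)) : Nz J (∏ i ∈ s, e i) :=
  Finset.prod_induction e (Nz J) (fun _ _ => Nz.mul) (fun g k => mul_one g ▸ k) h

omit [Fintype I] [DecidableEq I] in
theorem Nz.pow {J : Ideal (MvPolynomial I ℂ)} {e : MvPolynomial I ℂ} (h : Nz J e) (n : ℕ) :
    Nz J (e ^ n) := by simpa using Nz.prod (Finset.range n) (fun _ => e) fun _ _ => h

/-- the translation of the variables in `F` -/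
def tauU (F : Finset I) : MvPolynomial I ℂ →ₐ[ℂ] Polynomial (MvPolynomial I ℂ) :=
  aeval fun i => Polynomial.C (X i) + if i ∈ F then Polynomial.X else 0

theorem nz_tau (h : Pa (c.map Prod.fst)) {x : Finset I × Fin 4} (hx : x ∈ c) (ht : x.2 ≠ 0)
    {e : MvPolynomial I ℂ} (he : tauU x.1 e = Polynomial.X + Polynomial.C e) :
    Nz (JJ col θ c) e := by
  intro g hg
  let φ := (Polynomial.mapRingHom (Ideal.Quotient.mk (JJ col θ c))).comp (tauU x.1).toRingHom
  have h1 : JJ col θ c ≤ RingHom.ker φ := Ideal.span_le.2 fun e he => by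
    have : tauU x.1 e = Polynomial.C e := by
      obtain ⟨y, hy, k⟩ := he
      have : Std.Symm fun a b : Finset I × Fin 4 => Disjoint a.1 b.1 := ⟨fun _ _ e => e.symm⟩
      have d : y ≠ x → ∀ i ∈ y.1, i ∉ x.1 := fun c i hi =>
        Finset.disjoint_left.1 ((List.pairwise_map.1 h.disj).forall hy hx c) hi
      rcases gen_cases k with ⟨t, i, hi, rfl⟩ | ⟨G, hG, rfl⟩
      · simp [tauU, d (fun c => ht (c ▸ t)) i hi]
      · simp only [eul, map_prod, map_pow, map_sub]
        refine Finset.prod_congr rfl fun i hi => Finset.prod_congr rfl fun j hj => ?_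
        have hj := (Finset.mem_sdiff.1 hj).1
        by_cases c : y = x
        · simp [tauU, ← c, hG hi, hj]
        · simp [tauU, d c i (hG hi), d c j hj]
    have k : e ∈ JJ col θ c := Ideal.subset_span he
    simpa [φ, this, Ideal.Quotient.eq_zero_iff_mem] using k
  have h2 : φ g * φ e = 0 := (map_mul φ g e).symm.trans (h1 hg)
  have h3 : (φ e).Monic := by
    simpa [φ, he] using Polynomial.monic_X_add_C (Ideal.Quotient.mk (JJ col θ c) e)
  have h4 := congrArg (·.coeff 0) (h3.mul_left_eq_zero_iff.1 h2)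
  have h5 : ∀ g, (tauU x.1 g).coeff 0 = g := fun g => by
    induction g using MvPolynomial.induction_on with
    | C a => simp [tauU]
    | add a b ha hb => simp [ha, hb]
    | mul_X a i ha =>
      rw [map_mul, Polynomial.mul_coeff_zero, ha]
      by_cases c : i ∈ x.1 <;> simp [tauU, c]
  simpa [φ, h5, Ideal.Quotient.eq_zero_iff_mem] using h4

theorem nz_sub (h : Pa (c.map Prod.fst)) {x : Finset I × Fin 4} (hx : x ∈ c) (ht : x.2 ≠ 0)
    {k m : I} (hk : k ∈ x.1) (hm : m ∉ x.1) :
    Nz (JJ col θ c) (X m - X k) ∧ Nz (JJ col θ c) (X k - X m) := by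
  have : Nz (JJ col θ c) (X k - X m) := nz_tau h hx ht (by simp [tauU, hk, hm]; ring)
  exact ⟨fun g hg => this g (by rw [← neg_sub, mul_neg]; exact neg_mem hg), this⟩

theorem nz_X (h : Pa (c.map Prod.fst)) {x : Finset I × Fin 4} (hx : x ∈ c) (ht : x.2 ≠ 0)
    {k : I} (hk : k ∈ x.1) : Nz (JJ col θ c) (X k) :=
  nz_tau h hx ht (by simp [tauU, hk, add_comm])

theorem rel_iff (h : ∀ b ∈ l, θ (dvec col b) = 0) (f : MvPolynomial I ℂ) : Rel col θ o l f ↔
    (l.map (dis col o)).prod * f ∈ JJ col θ (l.map fun b => (b, 2)) := by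
  refine iff_of_eq (congrArg (fun s => _ ∈ Ideal.span s) (Set.ext fun e => ⟨?_, ?_⟩))
  · rintro ⟨b, hb, G, h1, h2, h3⟩
    exact ⟨(b, 2), List.mem_map_of_mem hb, G, h1, (h b hb).symm ▸ h2, h3⟩
  · rintro ⟨x, hx, k⟩
    obtain ⟨b, hb, rfl⟩ := List.mem_map.1 hx
    obtain ⟨G, h1, h2, h3⟩ := k
    exact ⟨b, hb, G, h1, h b hb ▸ h2, h3⟩

omit [Fintype I] in
theorem rel_one (hb : b ∈ l) {f : MvPolynomial I ℂ} (h : Rel col θ o [b] f) :
    Rel col θ o l f := by
  obtain ⟨g, hg⟩ := List.dvd_prod (List.mem_map_of_mem (f := dis col o) hb)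
  unfold P.MP_d34769_ag.Rel at h ⊢
  rw [hg, mul_right_comm]
  refine Ideal.mul_mem_right _ _ (Ideal.span_mono ?_ (by simpa using h))
  rintro e ⟨G, k⟩
  exact ⟨b, hb, G, k⟩

theorem rel_merge (hθ : ∀ a b, θ (a + b) = θ a + θ b) {s t : List (Finset I)} {a : Finset I}
    (h : Cmp col θ (s ++ a :: b :: t)) {f : MvPolynomial I ℂ}
    (k : Rel col θ o (s ++ (a ∪ b) :: t) f) : Rel col θ o (s ++ a :: b :: t) f := by
  have p : (s ++ a :: b :: t).Perm (a :: b :: (s ++ t)) :=
    List.perm_middle.trans (List.perm_middle.cons a)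
  have h1 := cmp_perm p h
  have k1 := rel_perm List.perm_middle k
  refine rel_perm p.symm ((rel_iff (fun b hb => (h1.1 b hb).2) f).2 ?_)
  have pa : Pa (((a :: b :: (s ++ t)).map fun b => (b, (2 : Fin 4))).map Prod.fst) := by
    rw [List.map_map]
    exact (List.map_id _).symm ▸ h1.2
  have d : Disjoint a b := List.rel_of_pairwise_cons (Pa.disj h1.2) (by simp)
  have e : dis col o (a ∪ b) = dis col o a * dis col o b *
      ((∏ k ∈ a, ∏ m ∈ b with col k = col m ∧ o k < o m, (X m - X k)) *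
        ∏ k ∈ b, ∏ m ∈ a with col k = col m ∧ o k < o m, (X m - X k)) := by
    simp only [dis, Finset.prod_filter, Finset.prod_union d, Finset.prod_mul_distrib]
    ring
  have z := fun {k m} (hk : k ∈ a) (hm : m ∈ b) => nz_sub (col := col) (θ := θ) pa (x := (a, 2))
    (by simp) (by simp) hk (Finset.disjoint_right.1 d hm)
  refine Nz.mul (Nz.prod a _ fun k hk => Nz.prod (b.filter fun m => col k = col m ∧ o k < o m) _
    fun m hm => (z hk (Finset.mem_filter.1 hm).1).1) (Nz.prod b _ fun k hk =>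
    Nz.prod (a.filter fun m => col k = col m ∧ o k < o m) _
    fun m hm => (z (Finset.mem_filter.1 hm).1 hk).2) _ ?_
  unfold P.MP_d34769_ag.Rel at k1
  rw [List.map_cons, List.prod_cons, e] at k1
  refine (congrArg (· ∈ _) (by simp only [List.map_cons, List.prod_cons]; ring)).mp
    (Ideal.span_le.2 ?_ k1)
  rintro _ ⟨x, hx, G, h2, h3, rfl⟩
  have z0 := fun b hb => (h1.1 b hb).2
  rcases List.mem_cons.1 hx with rfl | hx
  · rw [← Finset.inter_eq_left.2 h2, Finset.inter_union_distrib_left, dvec_union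
      (d.mono Finset.inter_subset_right Finset.inter_subset_right), hθ] at h3
    by_cases c : 0 < θ (dvec col (G ∩ a))
    · exact Ideal.mem_of_dvd _ (eul_dvd_inter Finset.subset_union_left G) (Ideal.subset_span
        ⟨(a, 2), by simp, _, Finset.inter_subset_right, (z0 a (by simp)).symm ▸ c, rfl⟩)
    · exact Ideal.mem_of_dvd _ (eul_dvd_inter Finset.subset_union_right G) (Ideal.subset_span
        ⟨(b, 2), by simp, _, Finset.inter_subset_right, by rw [z0 b (by simp)]; linarith, rfl⟩)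
  · have hx' : x ∈ a :: b :: (s ++ t) := by simp only [List.mem_cons, hx, or_true]
    exact Ideal.subset_span ⟨(x, 2), List.mem_map_of_mem hx', G, h2, (z0 x hx').symm ▸ h3, rfl⟩

end Pool.Agent.CS.EC
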