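import Pool.Agent.K.MP_d34769_ag.C159
import Pool.Agent.K.MP_d34769_ag.C160
import Pool.Agent.K.MP_d34769_ag.C154

-- part Pool.Agent.P.MP_d34769_ag.YU3
section

/-! The two filtrations of a free block. -/

open MvPolynomial

noncomputable section
namespace Pool.Agent.CS.EC
open Pool.Agent.P.MP_d34769_ag
variable {I : Type} [Fintype I] [DecidableEq I] {col : I → Fin 3} {θ : V → ℝ}
  {b F H : Finset I} {c : List (Finset I × Fin 4)}

omit [Fintype I] in
theorem exists_sub (b : Finset I) :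
    ∃ r : V → Finset I, ∀ f ≤ dvec col b, r f ⊆ b ∧ dvec col (r f) = f := by
  have k : ∀ f : V, ∃ F : Finset I, f ≤ dvec col b → F ⊆ b ∧ dvec col F = f := by
    intro f
    by_cases h : f ≤ dvec col b
    · choose s hs hc using fun v => Finset.exists_subset_card_eq (h v)
      have m : ∀ v, ∀ i ∈ s v, i ∈ b ∧ col i = v := fun v i hi => Finset.mem_filter.1 (hs v hi)
      refine ⟨Finset.univ.biUnion s, fun _ => ⟨fun i hi => ?_, funext fun v => ?_⟩⟩
      · obtain ⟨v, -, hv⟩ := Finset.mem_biUnion.1 hi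
        exact (m v i hv).1
      · rw [← hc v]
        refine congrArg Finset.card (Finset.ext fun i => ?_)
        rw [Finset.mem_filter, Finset.mem_biUnion]
        exact ⟨fun ⟨⟨u, _, hu⟩, e⟩ => (e ▸ (m u i hu).2 ▸ hu :),
          fun hi => ⟨⟨v, Finset.mem_univ _, hi⟩, (m v i hi).2⟩⟩
    · exact ⟨∅, fun k => absurd k h⟩
  choose r hr using k
  exact ⟨r, hr⟩

theorem exists_Wb (hF : F ⊆ b) (hH : H ⊆ b) (e : dvec col F = dvec col H) :
    ∃ w ∈ Wb col b, F.image w = H := by
  induction hn : (F \ H).card using Nat.strong_induction_on generalizing F with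
  | _ n ih =>
  rcases (F \ H).eq_empty_or_nonempty with h0 | ⟨k, hk⟩
  · refine ⟨1, one_mem _, ?_⟩
    rw [Equiv.Perm.coe_one, Finset.image_id]
    refine Finset.eq_of_subset_of_card_le (Finset.sdiff_eq_empty_iff_subset.1 h0) ?_
    rw [← sz_dvec (col := col), ← sz_dvec (col := col), e]
  obtain ⟨kF, kH⟩ := Finset.mem_sdiff.1 hk
  obtain ⟨m, mH, mc, mF⟩ : ∃ m ∈ H, col m = col k ∧ m ∉ F := by
    by_contra! hc
    have s : (H.filter fun i => col i = col k) ⊆ F.filter fun i => col i = col k := fun i hi =>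
      have q := Finset.mem_filter.1 hi
      Finset.mem_filter.2 ⟨hc i q.1 q.2, q.2⟩
    have := Finset.eq_of_subset_of_card_le s (congrFun e (col k)).le
    exact kH (Finset.mem_filter.1 (this.symm ▸ Finset.mem_filter.2 ⟨kF, rfl⟩ :
      k ∈ H.filter fun i => col i = col k)).1
  have sc : ∀ i, col (Equiv.swap k m i) = col i := fun i => Equiv.apply_swap_eq_self mc.symm i
  have sw : Equiv.swap k m ∈ Wb col b := ⟨sc, fun i hi => Equiv.swap_apply_of_ne_of_ne
    (fun e => hi (e ▸ hF kF)) fun e => hi (e ▸ hH mH)⟩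
  have key : ∀ x ∈ F.image (Equiv.swap k m), x = m ∨ x ∈ F.erase k := by
    intro x hx
    obtain ⟨y, hy, rfl⟩ := Finset.mem_image.1 hx
    by_cases yk : y = k
    · exact .inl (yk ▸ Equiv.swap_apply_left _ _)
    · rw [Equiv.swap_apply_of_ne_of_ne yk (ne_of_mem_of_not_mem hy mF)]
      exact .inr (Finset.mem_erase.2 ⟨yk, hy⟩)
  have lt : (F.image (Equiv.swap k m) \ H).card < n := by
    rw [← hn]
    refine (Finset.card_le_card fun x hx => ?_).trans_lt (Finset.card_erase_lt_of_mem hk)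
    obtain ⟨x1, x2⟩ := Finset.mem_sdiff.1 hx
    obtain rfl | q := key x x1
    · exact absurd mH x2
    · have q' := Finset.mem_erase.1 q
      exact Finset.mem_erase.2 ⟨q'.1, Finset.mem_sdiff.2 ⟨q'.2, x2⟩⟩
  obtain ⟨w, hw, ew⟩ := ih _ lt (fun x hx => (key x hx).elim (fun q => q ▸ hH mH)
    fun q => hF (Finset.mem_of_mem_erase q)) ((dvec_image _ sc F).trans e) rfl
  exact ⟨w * Equiv.swap k m, mul_mem hw sw, by rw [Equiv.Perm.coe_mul, ← Finset.image_image, ew]⟩

theorem Wb_le_U3 {l : List (Finset I)} (h : Pa (b :: l)) : Wb col b ≤ WL col (b :: l) := by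
  intro w hw
  have k : ∀ i ∈ b, w i ∈ b := fun i hi => by
    by_contra q
    exact q ((w.injective (hw.2 _ q)).symm ▸ hi)
  refine ⟨hw.1, fun a ha i => ?_⟩
  by_cases hi : i ∈ b
  · rcases List.mem_cons.1 ha with rfl | ha
    · exact iff_of_true (k i hi) hi
    · have d := Finset.disjoint_left.1 ((List.pairwise_cons.1 h.disj).1 a ha)
      exact iff_of_false (d (k i hi)) (d hi)
  · rw [hw.2 i hi]

theorem WL_split_U3 {l : List (Finset I)} (hF : F ⊆ b) (w : Equiv.Perm I) :
    w ∈ WL col (F :: (b \ F) :: l) ↔ w ∈ WL col (b :: l) ∧ F.image w = F := by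
  constructor
  · intro h
    refine ⟨⟨h.1, fun a ha i => ?_⟩, image_WL h List.mem_cons_self⟩
    rcases List.mem_cons.1 ha with rfl | ha
    · have h1 := h.2 F List.mem_cons_self i
      have h2 := h.2 (a \ F) (List.mem_cons_of_mem _ List.mem_cons_self) i
      have h3 := @hF i
      have h4 := @hF (w i)
      rw [Finset.mem_sdiff, Finset.mem_sdiff] at h2
      tauto
    · exact h.2 a (List.mem_cons_of_mem _ (List.mem_cons_of_mem _ ha)) i
  · rintro ⟨h, e⟩
    have k : ∀ i, w i ∈ F ↔ i ∈ F := fun i => by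
      conv_lhs => rw [← e]
      exact w.injective.mem_finset_image
    refine ⟨h.1, fun a ha i => ?_⟩
    rcases List.mem_cons.1 ha with rfl | ha
    · exact k i
    rcases List.mem_cons.1 ha with rfl | ha
    · rw [Finset.mem_sdiff, Finset.mem_sdiff, k i, h.2 b List.mem_cons_self i]
    · exact h.2 a (List.mem_cons_of_mem _ ha) i

theorem step_U3 {L : Type} [LinearOrder L] (h : Pa (b :: c.map Prod.fst)) (r : V → Finset I)
    (hr : ∀ f ≤ dvec col b, r f ⊆ b ∧ dvec col (r f) = f) (s t : Fin 4) (val : V → L)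
    (δ : V → ℕ) (e : Finset I → MvPolynomial I ℂ)
    (eq : ∀ w : Equiv.Perm I, (∀ i, col (w i) = col i) → b.image w = b → ∀ F,
      rename w (e F) = e (F.image w))
    (he : ∀ F ⊆ b, (e F).IsHomogeneous (δ (dvec col F)))
    (ha : ∀ F ⊆ b, ∀ g, g ∈ gen col θ s F ∨ g ∈ gen col θ t (b \ F) →
      ∃ H ⊆ b, val (dvec col F) < val (dvec col H) ∧ e H ∣ g * e F)
    (hb : ∀ F ⊆ b, ∀ H ⊆ b, H ≠ F → val (dvec col F) ≤ val (dvec col H) →
      ∃ g, (g ∈ gen col θ s F ∨ g ∈ gen col θ t (b \ F)) ∧ g ∣ e H)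
    (hc : ∀ F ⊆ b, Nz (JJ col θ ((F, s) :: (b \ F, t) :: c)) (e F)) (hd : e ∅ = 1) :
    HS col θ ((b, 1) :: c) = ∑ f ∈ Finset.Iic (dvec col b),
      PowerSeries.X ^ δ f * HS col θ ((r f, s) :: (b \ r f, t) :: c) := by
  have hr' : ∀ f ∈ Finset.Iic (dvec col b), r f ⊆ b ∧ dvec col (r f) = f := fun f hf =>
    hr f (Finset.mem_Iic.1 hf)
  refine filt (WL col (b :: c.map Prod.fst)) b.powerset (dvec col) val δ e
    (JJ col θ ((b, 1) :: c)) (Finset.Iic (dvec col b)) r
    (fun f => WL col (r f :: (b \ r f) :: c.map Prod.fst))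
    (fun f => JJ col θ ((r f, s) :: (b \ r f, t) :: c))
    (fun F hF => Finset.mem_Iic.2 (dvec_mono (Finset.mem_powerset.1 hF)))
    (fun f hf => ⟨Finset.mem_powerset.2 (hr' f hf).1, (hr' f hf).2⟩) (fun w hw F hF => ?_)
    (fun F hF => ?_) (fun f hf w => WL_split_U3 (hr' f hf).1 w)
    (fun F hF => he F (Finset.mem_powerset.1 hF)) JJ_hm
    (fun w hw g hg => JJ_rename (c := (b, 1) :: c) hw hg) (fun f hf g hg => ?_)
    (fun f hf H hH ne le => ?_) (fun f hf => Ideal.span_mono ?_) (fun f hf => hc _ (hr' f hf).1)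
    ⟨∅, Finset.empty_mem_powerset _, hd⟩
  · have q := image_WL hw List.mem_cons_self
    exact ⟨Finset.mem_powerset.2 (q ▸ Finset.image_subset_image (Finset.mem_powerset.1 hF)),
      dvec_image w hw.1 F, eq w hw.1 q F⟩
  · have hF := Finset.mem_powerset.1 hF
    have q := hr _ (dvec_mono (col := col) hF)
    obtain ⟨w, hw, ew⟩ := exists_Wb q.1 hF q.2
    exact ⟨w, Wb_le_U3 h hw, ew⟩
  · obtain ⟨q1, q2⟩ := hr' f hf
    have k : ∀ g, g ∈ gen col θ s (r f) ∨ g ∈ gen col θ t (b \ r f) → g * e (r f) ∈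
        JJ col θ ((b, 1) :: c) ⊔
          Ideal.span (e '' {H | H ∈ b.powerset ∧ val f < val (dvec col H)}) := by
      intro g hg
      obtain ⟨H, h1, h2, h3⟩ := ha _ q1 g hg
      exact Ideal.mem_sup_right (Ideal.mem_of_dvd _ h3
        (Ideal.subset_span ⟨H, ⟨Finset.mem_powerset.2 h1, q2 ▸ h2⟩, rfl⟩))
    refine Submodule.span_induction (fun g hg => ?_) (by rw [zero_mul]; exact zero_mem _)
      (fun x y _ _ hx hy => by rw [add_mul]; exact add_mem hx hy)
      (fun a x _ hx => by rw [smul_eq_mul, mul_assoc]; exact Ideal.mul_mem_left _ _ hx) hg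
    obtain ⟨x, hx, hg⟩ := hg
    rcases List.mem_cons.1 hx with rfl | hx
    · exact k g (.inl hg)
    rcases List.mem_cons.1 hx with rfl | hx
    · exact k g (.inr hg)
    · exact Ideal.mem_sup_left (Ideal.mul_mem_right _ _
        (Ideal.subset_span ⟨x, List.mem_cons_of_mem _ hx, hg⟩))
  · obtain ⟨q1, q2⟩ := hr' f hf
    obtain ⟨g, hg, d⟩ := hb _ q1 H (Finset.mem_powerset.1 hH) ne (q2.symm ▸ le)
    refine Ideal.mem_of_dvd _ d (Ideal.subset_span ?_)
    rcases hg with hg | hg
    · exact ⟨_, List.mem_cons_self, hg⟩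
    · exact ⟨_, List.mem_cons_of_mem _ List.mem_cons_self, hg⟩
  · rintro g ⟨x, hx, hg⟩
    rcases List.mem_cons.1 hx with rfl | hx
    · exact absurd hg (Set.notMem_empty g)
    · exact ⟨x, List.mem_cons_of_mem _ (List.mem_cons_of_mem _ hx), hg⟩

theorem step_PN (hθ : ∀ a b, θ (a + b) = θ a + θ b) (h : Pa (b :: c.map Prod.fst))
    (r : V → Finset I) (hr : ∀ f ≤ dvec col b, r f ⊆ b ∧ dvec col (r f) = f) :
    HS col θ ((b, 1) :: c) = ∑ f ∈ Finset.Iic (dvec col b),
      PowerSeries.X ^ dl f (dvec col b - f) * HS col θ ((r f, 2) :: (b \ r f, 3) :: c) := by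
  refine step_U3 h r hr 2 3 (fun f => toLex (θ f, sz f)) (fun f => dl f (dvec col b - f))
    (eul col b) (fun w hw q F => by rw [eul_rename w hw, q]) (fun F hF => eul_hom hF)
    (fun F hF g hg => ?_) (fun F hF H hH ne le => ?_) (fun F hF => ?_) (eul_empty b)
  · rcases hg with ⟨G, h1, h2, rfl⟩ | ⟨G, h1, h2, h3, rfl⟩
    · exact ⟨G, h1.trans hF, Prod.Lex.lt_iff.2 (.inl h2), eul_dvd_sub h1 hF⟩
    · refine ⟨F ∪ G, Finset.union_subset hF (h1.trans Finset.sdiff_subset), ?_, eul_dvd_union h1⟩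
      rw [dvec_union (Finset.disjoint_sdiff.mono_right h1), Prod.Lex.lt_iff]
      have p : 0 < G.card := Finset.card_pos.2 (Finset.nonempty_iff_ne_empty.2 h2)
      simp only [ofLex_toLex, hθ, sz_add, sz_dvec]
      rcases h3.eq_or_lt with q | q
      · exact .inr ⟨by rw [← q, add_zero], by omega⟩
      · exact .inl (lt_add_of_pos_right _ q)
  · by_cases q : θ (dvec col F) < θ (dvec col (H ∩ F))
    · exact ⟨_, .inl ⟨H ∩ F, Finset.inter_subset_right, q, rfl⟩, eul_dvd_inter hF H⟩
    have u : H ∩ F ∪ H ∩ (b \ F) = H := by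
      rw [← Finset.inter_union_distrib_left, Finset.union_sdiff_of_subset hF,
        Finset.inter_eq_left.2 hH]
    have v : θ (dvec col H) = θ (dvec col (H ∩ F)) + θ (dvec col (H ∩ (b \ F))) := by
      rw [← hθ, ← dvec_union (Finset.disjoint_sdiff.mono Finset.inter_subset_right
        Finset.inter_subset_right), u]
    rw [Prod.Lex.le_iff] at le
    simp only [ofLex_toLex, sz_dvec] at le
    have le' : θ (dvec col F) ≤ θ (dvec col H) := le.elim le_of_lt fun k => k.1.le
    refine ⟨_, .inr ⟨H ∩ (b \ F), Finset.inter_subset_right, fun z => ?_, by linarith, rfl⟩,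
      eul_dvd_inter Finset.sdiff_subset H⟩
    rw [z, Finset.union_empty] at u
    rw [u] at q
    exact ne (Finset.eq_of_subset_of_card_le (Finset.inter_eq_left.1 u)
      (le.elim (fun k => absurd k q) fun k => k.2))
  · exact Nz.prod _ _ fun k hk => Nz.prod _ _ fun m hm => Nz.pow
      (nz_sub (c := (F, 2) :: (b \ F, 3) :: c) (h.split hF) List.mem_cons_self
        (show (2 : Fin 4) ≠ 0 by decide) hk (Finset.mem_sdiff.1 hm).2).1 _

theorem step_Z (h : Pa (b :: c.map Prod.fst))
    (r : V → Finset I) (hr : ∀ f ≤ dvec col b, r f ⊆ b ∧ dvec col (r f) = f) :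
    HS col θ ((b, 1) :: c) = ∑ f ∈ Finset.Iic (dvec col b),
      PowerSeries.X ^ sz f * HS col θ ((r f, 1) :: (b \ r f, 0) :: c) := by
  refine step_U3 h r hr 1 0 sz sz (fun F => ∏ k ∈ F, X k) (fun w _ _ F => ?_) (fun F _ => ?_)
    (fun F hF g hg => ?_) (fun F _ H hH ne le => ?_) (fun F hF => ?_) Finset.prod_empty
  · rw [map_prod, Finset.prod_image w.injective.injOn]
    exact Finset.prod_congr rfl fun k _ => rename_X _ _
  · rw [sz_dvec, Finset.card_eq_sum_ones]
    exact IsHomogeneous.prod _ _ _ fun k _ => isHomogeneous_X ℂ k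
  · rcases hg with hg | ⟨k, hk, rfl⟩
    · exact absurd hg (Set.notMem_empty g)
    · obtain ⟨k1, k2⟩ := Finset.mem_sdiff.1 (Finset.mem_coe.1 hk)
      refine ⟨insert k F, Finset.insert_subset k1 hF, ?_, by rw [Finset.prod_insert k2]⟩
      rw [sz_dvec, sz_dvec, Finset.card_insert_of_notMem k2]
      exact Nat.lt_succ_self _
  · rw [sz_dvec, sz_dvec] at le
    obtain ⟨k, k1, k2⟩ := Finset.not_subset.1 fun q => ne (Finset.eq_of_subset_of_card_le q le)
    exact ⟨X k, .inr ⟨k, Finset.mem_coe.2 (Finset.mem_sdiff.2 ⟨hH k1, k2⟩), rfl⟩,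
      Finset.dvd_prod_of_mem _ k1⟩
  · exact Nz.prod _ _ fun k hk =>
      nz_X (c := (F, 1) :: (b \ F, 0) :: c) (h.split hF) List.mem_cons_self one_ne_zero hk

end Pool.Agent.CS.EC
end
end

-- part Pool.Agent.P.MP_d34769_ag.YU4
section

/-! The Hilbert series of a list of labelled blocks is a product. -/

open MvPolynomial

noncomputable section
namespace Pool.Agent.CS.EC
open Pool.Agent.P.MP_d34769_ag
variable {I : Type} [Fintype I] [DecidableEq I] {col : I → Fin 3} {θ : V → ℝ}
  {c : List (Finset I × Fin 4)} {P N : V → PowerSeries ℚ}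

omit [Fintype I] in
theorem gen_empty_U4 (t : Fin 4) : gen col θ t ∅ = ∅ := by
  rw [Set.eq_empty_iff_forall_notMem]
  intro e he
  fin_cases t
  · simp [gen] at he
  · simp [gen] at he
  · obtain ⟨G, hG, h1, -⟩ := he
    rw [Finset.subset_empty.1 hG] at h1
    exact lt_irrefl _ h1
  · obtain ⟨G, hG, h1, -⟩ := he
    exact h1 (Finset.subset_empty.1 hG)

theorem HS_ext_U4 {c' : List (Finset I × Fin 4)} (h : ∀ x ∈ c, x.1 = ∅ ∨ x ∈ c')
    (h' : ∀ x ∈ c', x.1 = ∅ ∨ x ∈ c) : HS col θ c = HS col θ c' := by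
  have k1 : ∀ a a' : List (Finset I × Fin 4), (∀ x ∈ a, x.1 = ∅ ∨ x ∈ a') →
      WL col (a'.map Prod.fst) ≤ WL col (a.map Prod.fst) := by
    intro a a' e w hw
    refine ⟨hw.1, fun b hb i => ?_⟩
    obtain ⟨x, hx, rfl⟩ := List.mem_map.1 hb
    rcases e x hx with k | k
    · simp [k]
    · exact hw.2 _ (List.mem_map_of_mem k) i
  have k2 : ∀ a a' : List (Finset I × Fin 4), (∀ x ∈ a, x.1 = ∅ ∨ x ∈ a') →
      JJ col θ a ≤ JJ col θ a' := by
    intro a a' e
    refine Ideal.span_mono ?_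
    rintro g ⟨x, hx, hg⟩
    rcases e x hx with k | k
    · rw [k, gen_empty_U4] at hg
      exact hg.elim
    · exact ⟨x, k, hg⟩
  unfold HS
  rw [le_antisymm (k1 c' c h') (k1 c c' h), le_antisymm (k2 c c' h) (k2 c' c h')]

omit [Fintype I] [DecidableEq I] in
theorem qd_zero_U4 {U : Submodule ℂ (MvPolynomial I ℂ)} {J : Ideal (MvPolynomial I ℂ)}
    (h : ∀ g ∈ U, g ∈ J) : qd U J = 0 := by
  have e : U.map (J.restrictScalars ℂ).mkQ = ⊥ := by
    rw [eq_bot_iff]
    rintro _ ⟨g, hg, rfl⟩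
    exact (Submodule.Quotient.mk_eq_zero _).2 (h g hg)
  unfold qd
  rw [e, finrank_bot]

theorem HS_top_U4 (h : (1 : MvPolynomial I ℂ) ∈ JJ col θ c) : HS col θ c = 0 := by
  ext p
  rw [HS, hs, PowerSeries.coeff_mk, qd_zero_U4 fun g _ => by
    simpa using (JJ col θ c).mul_mem_left g h]
  simp

theorem JJ_base_U4 (h : Pa (c.map Prod.fst)) (h0 : ∀ x ∈ c, x.2 = 0 ∨ x.1 = ∅) :
    JJ col θ c = Ideal.span (X '' (Set.univ : Set I)) := by
  unfold JJ
  congr 1
  ext e
  constructor
  · rintro ⟨x, hx, he⟩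
    rcases h0 x hx with k | k
    · rw [k] at he
      obtain ⟨i, -, rfl⟩ := he
      exact ⟨i, trivial, rfl⟩
    · rw [k, gen_empty_U4] at he
      exact he.elim
  · rintro ⟨i, -, rfl⟩
    obtain ⟨b, hb, hi⟩ := h.cover i
    obtain ⟨x, hx, rfl⟩ := List.mem_map.1 hb
    rcases h0 x hx with k | k
    · exact ⟨x, hx, by rw [k]; exact ⟨i, hi, rfl⟩⟩
    · rw [k] at hi
      exact (Finset.notMem_empty _ hi).elim

theorem HS_base (h : Pa (c.map Prod.fst)) (h0 : ∀ x ∈ c, x.2 = 0 ∨ x.1 = ∅) :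
    HS col θ c = (c.map fun x => hZ (dvec col x.1)).prod := by
  have hJ := JJ_base_U4 (col := col) (θ := θ) h h0
  have pos : ∀ p, p ≠ 0 → qd (An (WL col (c.map Prod.fst)) p) (JJ col θ c) = 0 := by
    intro p hp
    refine qd_zero_U4 fun g hg => ?_
    rw [hJ, mem_ideal_span_X_image]
    intro m hm
    by_contra k
    have e : m = 0 := by
      ext i
      by_contra k'
      exact k ⟨i, trivial, k'⟩
    have := hg.1 (mem_support_iff.1 hm)
    rw [e, map_zero] at this
    exact hp this.symm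
  have con : ∀ g : MvPolynomial I ℂ, g.IsHomogeneous 0 → ∃ a, g = C a := fun g hg =>
    ⟨_, totalDegree_eq_zero_iff_eq_C.1 (Nat.le_zero.1 hg.totalDegree_le)⟩
  by_cases k : ∀ x ∈ c, ∀ v, dvec col x.1 v ≤ 1
  · have e1 : (c.map fun x => hZ (dvec col x.1)).prod = 1 := by
      refine List.prod_eq_one fun y hy => ?_
      obtain ⟨x, hx, rfl⟩ := List.mem_map.1 hy
      exact if_pos (k x hx)
    have e2 : ∀ w ∈ WL col (c.map Prod.fst), w = 1 := by
      intro w hw
      ext i
      obtain ⟨b, hb, hi⟩ := h.cover i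
      have hi' := (hw.2 b hb i).2 hi
      obtain ⟨x, hx, rfl⟩ := List.mem_map.1 hb
      exact Finset.card_le_one.1 (k x hx (col i)) _ (Finset.mem_filter.2 ⟨hi', hw.1 i⟩) _
        (Finset.mem_filter.2 ⟨hi, rfl⟩)
    have e3 : An (WL col (c.map Prod.fst)) 0 = Submodule.span ℂ {1} := by
      refine le_antisymm (fun g hg => ?_) ?_
      · obtain ⟨a, rfl⟩ := con g hg.1
        exact Submodule.mem_span_singleton.2 ⟨a, by rw [smul_eq_C_mul, mul_one]⟩
      · rw [Submodule.span_singleton_le_iff_mem]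
        exact ⟨isHomogeneous_one _ _, fun w hw => by rw [e2 w hw]; simp⟩
    have e4 : qd (An (WL col (c.map Prod.fst)) 0) (JJ col θ c) = 1 := by
      unfold qd
      rw [e3, Submodule.map_span, Set.image_singleton]
      refine finrank_span_singleton fun z => ?_
      have z' : (1 : MvPolynomial I ℂ) ∈ JJ col θ c := (Submodule.Quotient.mk_eq_zero _).1 z
      rw [hJ, mem_ideal_span_X_image] at z'
      obtain ⟨i, -, hi⟩ := z' 0 (by simp)
      exact hi rfl
    ext p
    rw [e1, HS, hs, PowerSeries.coeff_mk, PowerSeries.coeff_one]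
    split_ifs with hp
    · rw [hp, e4, Nat.cast_one]
    · rw [pos p hp, Nat.cast_zero]
  · push Not at k
    obtain ⟨x, hx, v, hv⟩ := k
    have e1 : (c.map fun x => hZ (dvec col x.1)).prod = 0 :=
      List.prod_eq_zero (List.mem_map.2 ⟨x, hx, if_neg fun k => (k v).not_gt hv⟩)
    obtain ⟨i, hi, j, hj, hij⟩ := Finset.one_lt_card.1 hv
    rw [Finset.mem_filter] at hi hj
    have e2 : Equiv.swap i j ∈ WL col (c.map Prod.fst) := by
      have key : ∀ {A : Type} (f : I → A), f i = f j → ∀ m, f (Equiv.swap i j m) = f m := by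
        intro A f e m
        rw [Equiv.swap_apply_def]
        split_ifs with a1 a2
        · rw [a1, e]
        · rw [a2, e]
        · rfl
      refine ⟨key col (hi.2.trans hj.2.symm), fun b hb m => ?_⟩
      refine (key (fun m => m ∈ b) ?_ m).to_iff
      by_cases e : b = x.1
      · rw [e]
        exact propext (iff_of_true hi.1 hj.1)
      · have hd : Disjoint b x.1 :=
          h.disj.forall hb (List.mem_map_of_mem hx) e
        exact propext (iff_of_false (fun a => Finset.disjoint_left.1 hd a hi.1)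
          fun a => Finset.disjoint_left.1 hd a hj.1)
    ext p
    rw [e1, HS, hs, PowerSeries.coeff_mk, map_zero]
    by_cases hp : p = 0
    · rw [hp, qd_zero_U4, Nat.cast_zero]
      intro g hg
      obtain ⟨a, rfl⟩ := con g hg.1
      have := hg.2 _ e2
      rw [Equiv.Perm.sign_swap hij, rename_C] at this
      have e : (C a : MvPolynomial I ℂ) = 0 := by
        have h2 : (2 : ℂ) • (C a : MvPolynomial I ℂ) = 0 := by
          rw [two_smul]
          nth_rewrite 1 [this]
          simp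
        exact (smul_eq_zero.1 h2).resolve_left two_ne_zero
      rw [e]
      exact zero_mem _
    · rw [pos p hp, Nat.cast_zero]

/-- the measure for the induction -/
def mu_U4 (c : List (Finset I × Fin 4)) : ℕ :=
  (c.map fun x => ![0, 2 * x.1.card ^ 2 - 1, 2 * x.1.card ^ 2, 2 * x.1.card ^ 2] x.2).sum

omit [Fintype I] [DecidableEq I] in
theorem card_r_U4 {b F : Finset I} (h : F ⊆ b) (k : dvec col F ≠ dvec col b) : F.card < b.card :=
  Finset.card_lt_card (h.ssubset_of_ne fun e => k (by rw [e]))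

omit [Fintype I] [DecidableEq I] in
theorem eq_r_U4 {b F : Finset I} (h : F ⊆ b) (k : dvec col F = dvec col b) : F = b :=
  Finset.eq_of_subset_of_card_le h (by rw [← sz_dvec (col := col), ← sz_dvec (col := col), k])

theorem step1_U4 {b : Finset I} (hb : b ≠ ∅) (h : Pa (b :: c.map Prod.fst))
    (ih : ∀ a : List (Finset I × Fin 4), mu_U4 a < mu_U4 ((b, 1) :: c) → Pa (a.map Prod.fst) →
      HS col θ a = (a.map fun x => hh P N x.2 (dvec col x.1)).prod) :
    HS col θ ((b, 1) :: c) = hF (dvec col b) * (c.map fun x => hh P N x.2 (dvec col x.1)).prod := by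
  obtain ⟨r, hr⟩ := exists_sub (col := col) b
  set R := (c.map fun x => hh P N x.2 (dvec col x.1)).prod
  have hn : 0 < b.card := Finset.card_pos.2 (Finset.nonempty_iff_ne_empty.2 hb)
  have e1 := step_Z (θ := θ) h r hr
  have e2 := hF_rec (dvec col b)
  have hd : dvec col b ∈ Finset.Iic (dvec col b) := Finset.mem_Iic.2 le_rfl
  rw [← Finset.add_sum_erase _ _ hd] at e1 e2
  have e3 : r (dvec col b) = b := eq_r_U4 (hr _ le_rfl).1 (hr _ le_rfl).2
  have e4 : HS col θ ((b, 1) :: (b \ b, 0) :: c) = HS col θ ((b, 1) :: c) :=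
    HS_ext_U4 (by simp +contextual) (by simp +contextual)
  have e5 : hZ (dvec col b - dvec col b) = 1 := by
    rw [tsub_self]
    exact if_pos fun _ => Nat.zero_le 1
  have e6 : ∑ f ∈ (Finset.Iic (dvec col b)).erase (dvec col b),
      PowerSeries.X ^ sz f * HS col θ ((r f, 1) :: (b \ r f, 0) :: c) =
      (∑ f ∈ (Finset.Iic (dvec col b)).erase (dvec col b),
        PowerSeries.X ^ sz f * (hF f * hZ (dvec col b - f))) * R := by
    rw [Finset.sum_mul]
    refine Finset.sum_congr rfl fun f hf => ?_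
    obtain ⟨h1, h2⟩ := Finset.mem_erase.1 hf
    obtain ⟨h3, h4⟩ := hr f (Finset.mem_Iic.1 h2)
    have h5 := card_r_U4 h3 (h4.trans_ne h1)
    rw [ih ((r f, 1) :: (b \ r f, 0) :: c) ?_ (h.split h3)]
    · simp only [List.map_cons, List.prod_cons]
      rw [dvec_sdiff h3, h4]
      change _ * (hF f * (hZ (dvec col b - f) * R)) = _
      ring
    · simp only [mu_U4, List.map_cons, List.sum_cons, Matrix.cons_val_zero, Matrix.cons_val_one]
      have : (r f).card ^ 2 < b.card ^ 2 := Nat.pow_lt_pow_left h5 two_ne_zero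
      omega
  rw [e3, e4, e6] at e1
  rw [e5, mul_one] at e2
  have u : (1 - PowerSeries.X ^ sz (dvec col b) : PowerSeries ℚ) ≠ 0 := by
    intro z
    have := congrArg PowerSeries.constantCoeff z
    rw [sz_dvec] at this
    simp [hn.ne'] at this
  refine mul_left_cancel₀ u ?_
  linear_combination e1 - e2 * R

theorem step2_U4 (hθ : ∀ a b, θ (a + b) = θ a + θ b) (hB : Bk θ P N) {b : Finset I} (hb : b ≠ ∅)
    (h : Pa (b :: c.map Prod.fst))
    (ih : ∀ a : List (Finset I × Fin 4), mu_U4 a < mu_U4 ((b, 2) :: c) → Pa (a.map Prod.fst) →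
      HS col θ a = (a.map fun x => hh P N x.2 (dvec col x.1)).prod) :
    HS col θ ((b, 2) :: c) = P (dvec col b) * (c.map fun x => hh P N x.2 (dvec col x.1)).prod ∧
    HS col θ ((b, 3) :: c) = N (dvec col b) * (c.map fun x => hh P N x.2 (dvec col x.1)).prod := by
  obtain ⟨r, hr⟩ := exists_sub (col := col) b
  have hn : 0 < b.card := Finset.card_pos.2 (Finset.nonempty_iff_ne_empty.2 hb)
  have e0 := ih ((b, 1) :: c) (by
    simp only [mu_U4, List.map_cons, List.sum_cons, Matrix.cons_val_zero, Matrix.cons_val_one,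
      Matrix.cons_val]
    have := pow_pos hn 2
    omega) h
  simp only [List.map_cons, List.prod_cons] at e0
  set R := (c.map fun x => hh P N x.2 (dvec col x.1)).prod
  have e1 := step_PN hθ h r hr
  have e2 := hB.eq (dvec col b)
  have d0 : dvec col b ≠ 0 := fun z => by
    have := sz_dvec (col := col) b
    rw [z] at this
    exact hn.ne this
  have hd : dvec col b ∈ Finset.Iic (dvec col b) := Finset.mem_Iic.2 le_rfl
  have hd0 : (0 : V) ∈ (Finset.Iic (dvec col b)).erase (dvec col b) :=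
    Finset.mem_erase.2 ⟨d0.symm, Finset.mem_Iic.2 zero_le⟩
  rw [← Finset.add_sum_erase _ _ hd, ← Finset.add_sum_erase _ _ hd0] at e1 e2
  have e3 : r (dvec col b) = b := eq_r_U4 (hr _ le_rfl).1 (hr _ le_rfl).2
  have e3' : r 0 = ∅ := by
    rw [← Finset.card_eq_zero, ← sz_dvec (col := col), (hr 0 zero_le).2]
    rfl
  have e4 : HS col θ ((b, 2) :: (b \ b, 3) :: c) = HS col θ ((b, 2) :: c) :=
    HS_ext_U4 (by simp +contextual) (by simp +contextual)
  have e4' : HS col θ ((∅, 2) :: (b \ ∅, 3) :: c) = HS col θ ((b, 3) :: c) :=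
    HS_ext_U4 (by simp +contextual) (by simp +contextual)
  have e5 : dl (dvec col b) (dvec col b - dvec col b) = 0 := by simp [dl]
  have e5' : dl 0 (dvec col b - 0) = 0 := by simp [dl]
  have e6 : ∑ f ∈ ((Finset.Iic (dvec col b)).erase (dvec col b)).erase 0,
      PowerSeries.X ^ dl f (dvec col b - f) * HS col θ ((r f, 2) :: (b \ r f, 3) :: c) =
      (∑ f ∈ ((Finset.Iic (dvec col b)).erase (dvec col b)).erase 0,
        PowerSeries.X ^ dl f (dvec col b - f) * (P f * N (dvec col b - f))) * R := by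
    rw [Finset.sum_mul]
    refine Finset.sum_congr rfl fun f hf => ?_
    obtain ⟨h0, hf⟩ := Finset.mem_erase.1 hf
    obtain ⟨h1, h2⟩ := Finset.mem_erase.1 hf
    obtain ⟨h3, h4⟩ := hr f (Finset.mem_Iic.1 h2)
    have h5 := card_r_U4 h3 (h4.trans_ne h1)
    have h6 : 0 < (r f).card := by
      rw [← sz_dvec (col := col), h4]
      exact Nat.pos_of_ne_zero fun z => h0 (sz_eq_zero z)
    rw [ih ((r f, 2) :: (b \ r f, 3) :: c) ?_ (h.split h3)]
    · simp only [List.map_cons, List.prod_cons]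
      rw [dvec_sdiff h3, h4]
      change _ * (P f * (N (dvec col b - f) * R)) = _
      ring
    · simp only [mu_U4, List.map_cons, List.sum_cons, Matrix.cons_val]
      have h7 := Finset.card_sdiff_add_card_eq_card h3
      have h8 : 0 < (b \ r f).card := by omega
      have : (r f).card ^ 2 + (b \ r f).card ^ 2 < b.card ^ 2 := by
        rw [← h7]
        nlinarith [Nat.mul_pos h6 h8]
      omega
  rw [e3, e3', e4, e4', e6, e5, e5', e0] at e1
  rw [e5, e5', tsub_self, tsub_zero, hB.P0, hB.N0] at e2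
  have e7 : hh P N 1 (dvec col b) = hF (dvec col b) := rfl
  rw [e7] at e1
  rcases lt_or_ge (θ (dvec col b)) 0 with t | t
  · have z : HS col θ ((b, 2) :: c) = 0 := HS_top_U4 (Ideal.subset_span
      ⟨(b, 2), List.mem_cons_self, ∅, Finset.empty_subset _, by rwa [dvec_empty, th0 hθ],
        (eul_empty b).symm⟩)
    rw [hB.Pz _ t] at e2 ⊢
    rw [z] at e1 ⊢
    exact ⟨(zero_mul _).symm, by linear_combination e2 * R - e1⟩
  · have z : HS col θ ((b, 3) :: c) = 0 := HS_top_U4 (Ideal.subset_span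
      ⟨(b, 3), List.mem_cons_self, b, subset_rfl, hb, t, (eul_self b).symm⟩)
    rw [hB.Nz _ d0 t] at e2 ⊢
    rw [z] at e1 ⊢
    exact ⟨by linear_combination e2 * R - e1, (zero_mul _).symm⟩

theorem HS_prod (hθ : ∀ a b, θ (a + b) = θ a + θ b) (hB : Bk θ P N) (h : Pa (c.map Prod.fst)) :
    HS col θ c = (c.map fun x => hh P N x.2 (dvec col x.1)).prod := by
  induction hm : mu_U4 c using Nat.strong_induction_on generalizing c with
  | _ n ih =>
  by_cases h0 : ∀ x ∈ c, x.2 = 0 ∨ x.1 = ∅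
  · rw [HS_base h h0]
    congr 1
    refine List.map_congr_left fun x hx => ?_
    rcases h0 x hx with k | k
    · rw [k]
      rfl
    · rw [k, dvec_empty]
      have z : hZ 0 = 1 := by
        unfold hZ
        exact if_pos fun _ => Nat.zero_le 1
      generalize x.2 = t
      fin_cases t
      · rfl
      · exact z.trans hF_zero.symm
      · exact z.trans hB.P0.symm
      · exact z.trans hB.N0.symm
  · push Not at h0
    obtain ⟨⟨b, t⟩, hx, ht, hb'⟩ := h0
    have hb : b ≠ ∅ := hb'.ne_empty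
    clear hb'
    have pm := List.perm_cons_erase hx
    have h1 : Pa (b :: (c.erase (b, t)).map Prod.fst) := h.perm (pm.map Prod.fst)
    have h2 : mu_U4 ((b, t) :: c.erase (b, t)) = n := hm ▸ ((pm.map _).sum_eq).symm
    rw [HS_ext_U4 (fun x k => Or.inr (pm.mem_iff.1 k)) (fun x k => Or.inr (pm.mem_iff.2 k)),
      (pm.map _).prod_eq, List.map_cons, List.prod_cons]
    generalize c.erase (b, t) = a at h1 h2 ⊢
    fin_cases t
    · exact (ht rfl).elim
    · exact step1_U4 hb h1 fun a' k k' => ih _ (k.trans_eq h2) k' rfl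
    · exact (step2_U4 hθ hB hb h1 fun a' k k' => ih _ (k.trans_eq h2) k' rfl).1
    · exact (step2_U4 hθ hB hb h1 fun a' k k' => ih _ (k.trans_eq h2) k' rfl).2

end Pool.Agent.CS.EC
end
end
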