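import Pool.Agent.K.MP_d34769_ag.C160

/-! Alternating polynomials are multiples of the discriminant. -/

open MvPolynomial

noncomputable section
namespace Pool.Agent.CS.EC
open Pool.Agent.P.MP_d34769_ag
variable {I : Type} [Fintype I] [DecidableEq I] {col : I → Fin 3} {θ : V → ℝ} {o o' : I → ℕ}
  {l : List (Finset I)}

variable (col o) in
/-- the pairs of one block -/
def prs_U7 (b : Finset I) : Finset (I × I) :=
  (b ×ˢ b).filter fun q => col q.1 = col q.2 ∧ o q.1 < o q.2

omit [Fintype I] [DecidableEq I] in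
theorem mem_prs_U7 {b : Finset I} {q : I × I} : q ∈ prs_U7 col o b ↔
    (q.1 ∈ b ∧ q.2 ∈ b) ∧ col q.1 = col q.2 ∧ o q.1 < o q.2 := by
  rw [prs_U7, Finset.mem_filter, Finset.mem_product]

omit [Fintype I] [DecidableEq I] in
theorem dis_prs_U7 (b : Finset I) : dis col o b = ∏ q ∈ prs_U7 col o b, (X q.2 - X q.1) := by
  rw [dis, prs_U7, Finset.prod_filter, Finset.prod_product]
  simp only [Finset.prod_filter]

omit [Fintype I] in
theorem dis_o (b : Finset I) (ho : ∀ k ∈ b, ∀ m ∈ b, col k = col m → o k = o m → k = m)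
    (ho' : ∀ k ∈ b, ∀ m ∈ b, col k = col m → o' k = o' m → k = m) :
    ∃ s : ℂ, s * s = 1 ∧ dis col o' b = s • dis col o b := by
  let t : I × I → I × I := fun q => if o q.1 < o q.2 then q else q.swap
  let t' : I × I → I × I := fun q => if o' q.1 < o' q.2 then q else q.swap
  have g : ∀ {o o' : I → ℕ}, (∀ k ∈ b, ∀ m ∈ b, col k = col m → o k = o m → k = m) → ∀ q : I × I,
      ((q.1 ∈ b ∧ q.2 ∈ b) ∧ col q.1 = col q.2 ∧ o' q.1 < o' q.2) → ¬ o q.1 < o q.2 →
        o q.2 < o q.1 :=
    fun ho q a c => lt_of_le_of_ne (not_lt.1 c) fun e => by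
      have := a.2.2
      rw [ho _ a.1.1 _ a.1.2 a.2.1 e.symm] at this
      exact lt_irrefl _ this
  refine ⟨∏ q ∈ prs_U7 col o' b, if o q.1 < o q.2 then 1 else -1, ?_, ?_⟩
  · rw [← Finset.prod_mul_distrib]
    exact Finset.prod_eq_one fun q _ => by split_ifs <;> simp
  rw [dis_prs_U7, dis_prs_U7, smul_eq_C_mul, map_prod,
    ← Finset.prod_nbij' (f := fun q => X (t q).2 - X (t q).1) t t' (s := prs_U7 col o' b)
    (t := prs_U7 col o b) ?_ ?_ ?_ ?_ fun _ _ => rfl, ← Finset.prod_mul_distrib]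
  · refine Finset.prod_congr rfl fun q _ => ?_
    simp only [t]
    split_ifs <;> simp
  all_goals
    intro q hq
    simp only [mem_prs_U7, t, t'] at hq ⊢
  · split_ifs with c
    exacts [⟨hq.1, hq.2.1, c⟩, ⟨hq.1.symm, hq.2.1.symm, g ho q hq c⟩]
  · split_ifs with c
    exacts [⟨hq.1, hq.2.1, c⟩, ⟨hq.1.symm, hq.2.1.symm, g ho' q hq c⟩]
  · by_cases c : o q.1 < o q.2
    · simp [c, hq.2.2]
    · simp [c, hq.2.2.not_gt]
  · by_cases c : o' q.1 < o' q.2
    · simp [c, hq.2.2]
    · simp [c, hq.2.2.not_gt]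

omit [Fintype I] in
theorem dis_hom (ho : ∀ k m, col k = col m → o k = o m → k = m) (b : Finset I) :
    (dis col o b).IsHomogeneous (cb (dvec col b)) := by
  have h : cb (dvec col b) = ∑ _q ∈ prs_U7 col o b, 1 := by
    rw [← Finset.card_eq_sum_ones, Finset.card_eq_sum_card_fiberwise (f := fun q => col q.1)
      (t := Finset.univ) fun _ _ => Finset.mem_univ _]
    refine Finset.sum_congr rfl fun v _ => ?_
    have hi : Set.InjOn o (b.filter fun i => col i = v) := fun k hk m hm =>
      ho k m ((Finset.mem_filter.1 hk).2.trans (Finset.mem_filter.1 hm).2.symm)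
    rw [dvec, ← Finset.card_image_of_injOn hi, ← Finset.card_product_filter_lt]
    refine (Finset.card_nbij (Prod.map o o) (fun q hq => ?_) (fun q hq r hr e => ?_)
      fun q hq => ?_).symm
    · simp only [Finset.coe_filter, mem_prs_U7, Set.mem_ofPred_eq, Finset.mem_product] at hq ⊢
      exact ⟨⟨Finset.mem_image_of_mem _ (Finset.mem_filter.2 ⟨hq.1.1.1, hq.2⟩),
        Finset.mem_image_of_mem _ (Finset.mem_filter.2 ⟨hq.1.1.2, hq.1.2.1 ▸ hq.2⟩)⟩, hq.1.2.2⟩
    · simp only [Finset.coe_filter, mem_prs_U7, Set.mem_ofPred_eq] at hq hr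
      exact Prod.ext (ho _ _ (hq.2.trans hr.2.symm) (congrArg Prod.fst e)) (ho _ _
        (hq.1.2.1.symm.trans (hq.2.trans (hr.2.symm.trans hr.1.2.1))) (congrArg Prod.snd e))
    · simp only [Finset.coe_filter, Set.mem_ofPred_eq, Finset.mem_product, Finset.mem_image,
        Finset.mem_filter] at hq
      obtain ⟨⟨⟨k, hk, e⟩, m, hm, e'⟩, h⟩ := hq
      exact ⟨(k, m), Finset.mem_coe.2 (Finset.mem_filter.2 ⟨mem_prs_U7.2 ⟨⟨hk.1, hm.1⟩,
        hk.2.trans hm.2.symm, by rwa [← e, ← e'] at h⟩, hk.2⟩), Prod.ext e e'⟩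
  rw [h, dis_prs_U7]
  exact IsHomogeneous.prod _ _ _ fun q _ => (isHomogeneous_X _ _).sub (isHomogeneous_X _ _)

omit [Fintype I] in
theorem ren_dis_U7 (w : Equiv.Perm I) (hw : ∀ i, col (w i) = col i) (b : Finset I) :
    rename w (dis col o b) = dis col (o ∘ w.symm) (b.image w) := by
  simp only [dis, map_prod, map_sub, rename_X]
  refine Finset.prod_equiv w (by simp) fun k _ => Finset.prod_equiv w (fun m => ?_) fun _ _ => rfl
  simp [hw]

omit [Fintype I] in
theorem ren_D_U7 (ho : ∀ k m, col k = col m → o k = o m → k = m) (w : Equiv.Perm I)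
    (hw : ∀ i, col (w i) = col i) (l : List (Finset I)) : ∃ s : ℂ, s * s = 1 ∧
      rename w (l.map (dis col o)).prod = s • ((l.map fun b => b.image w).map (dis col o)).prod := by
  induction l with
  | nil => exact ⟨1, by simp⟩
  | cons b l ih =>
    obtain ⟨s, h1, h2⟩ := ih
    obtain ⟨t, h3, h4⟩ := dis_o (o' := o ∘ w.symm) (b.image w) (fun k _ m _ => ho k m)
      fun k _ m _ a c => w.symm.injective (ho _ _ (by rw [← hw, ← hw (w.symm m)]; simpa using a) c)
    refine ⟨t * s, by linear_combination (s * s) * h3 + h1, ?_⟩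
    simp only [List.map_cons, List.prod_cons, map_mul]
    rw [h2, ren_dis_U7 w hw, h4, smul_mul_smul_comm]

variable (col o l) in
/-- all pairs -/
def all_U7 : Finset (I × I) := Finset.univ.filter fun q =>
  (∃ b ∈ l, q.1 ∈ b ∧ q.2 ∈ b) ∧ col q.1 = col q.2 ∧ o q.1 < o q.2

theorem D_all_U7 (h : l.Pairwise Disjoint) :
    (l.map (dis col o)).prod = ∏ q ∈ all_U7 col o l, (X q.2 - X q.1) := by
  induction l with
  | nil => simp [all_U7]
  | cons b l ih =>
    rw [List.pairwise_cons] at h
    rw [List.map_cons, List.prod_cons, ih h.2, dis_prs_U7, ← Finset.prod_union]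
    · refine Finset.prod_congr (Finset.ext fun q => ?_) fun _ _ => rfl
      simp only [all_U7, Finset.mem_union, mem_prs_U7, Finset.mem_filter, Finset.mem_univ,
        true_and, List.exists_mem_cons_iff, or_and_right]
    · refine Finset.disjoint_left.2 fun q h1 h2 => ?_
      obtain ⟨c, hc, h3, -⟩ := (Finset.mem_filter.1 h2).2.1
      exact Finset.disjoint_left.1 (h.1 c hc) (mem_prs_U7.1 h1).1.1 h3

omit [Fintype I] in
theorem swap_WL_U7 {k m : I} (h : col k = col m) (h' : ∀ b ∈ l, k ∈ b ↔ m ∈ b) :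
    Equiv.swap k m ∈ WL col l := by
  refine ⟨fun i => ?_, fun b hb i => ?_⟩ <;> rw [Equiv.swap_apply_def] <;> split_ifs with a c
  exacts [a ▸ h.symm, c ▸ h, rfl, a ▸ (h' b hb).symm, c ▸ h' b hb, Iff.rfl]

theorem all_WL_U7 (h : Pa l) {q : I × I} (hq : q ∈ all_U7 col o l) :
    Equiv.swap q.1 q.2 ∈ WL col l := by
  obtain ⟨⟨c, hc, h1, h2⟩, h3, -⟩ := (Finset.mem_filter.1 hq).2
  refine swap_WL_U7 h3 fun b hb => ?_
  by_cases e : b = c
  · exact e ▸ iff_of_true h1 h2
  · have := Finset.disjoint_right.1 (h.disj.forall hb hc e)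
    exact iff_of_false (this h1) (this h2)

omit [Fintype I] in
theorem rho_swap_U7 (k m : I) (g : MvPolynomial I ℂ) :
    rename (Function.update id m k) (rename (Equiv.swap k m) g) =
      rename (Function.update id m k) g := by
  rw [rename_rename]
  refine congrArg (rename · g) (funext fun i => ?_)
  simp only [Function.comp, Equiv.swap_apply_def, Function.update_apply, id]
  split_ifs <;> simp_all

theorem rho_ne_U7 {q : I × I} (hq : q ∈ all_U7 col o l) {R : Finset (I × I)}
    (hR : R ⊆ all_U7 col o l) (h : q ∉ R) :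
    rename (Function.update id q.2 q.1) (∏ r ∈ R, (X r.2 - X r.1) : MvPolynomial I ℂ) ≠ 0 := by
  rw [map_prod]
  refine Finset.prod_ne_zero_iff.2 fun r hr => ?_
  have h1 := (Finset.mem_filter.1 hq).2.2.2
  have h2 := (Finset.mem_filter.1 (hR hr)).2.2.2
  rw [map_sub, rename_X, rename_X, sub_ne_zero]
  intro e
  have h3 := X_injective e
  simp only [Function.update_apply, id] at h3
  split_ifs at h3 with a c c
  · rw [a, c] at h2
    exact lt_irrefl _ h2
  · exact h ((Prod.ext h3 a.symm : q = r) ▸ hr)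
  · rw [c, h3] at h2
    exact h1.not_gt h2
  · rw [h3] at h2
    exact lt_irrefl _ h2

omit [Fintype I] [DecidableEq I] in
theorem neg_zero_U7 {g : MvPolynomial I ℂ} (h : g = -g) : g = 0 := by
  have : (2 : ℂ) • g = 0 := by rw [two_smul]; exact eq_neg_iff_add_eq_zero.1 h
  exact (smul_eq_zero.1 this).resolve_left two_ne_zero

theorem swap_D_U7 (ho : ∀ k m, col k = col m → o k = o m → k = m) (h : Pa l) {q : I × I}
    (hq : q ∈ all_U7 col o l) : rename (Equiv.swap q.1 q.2) (l.map (dis col o)).prod =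
      -(l.map (dis col o)).prod := by
  have hw := all_WL_U7 h hq
  obtain ⟨s, h1, h2⟩ := ren_D_U7 ho _ hw.1 l
  rw [List.map_congr_left fun b hb => image_WL hw hb, List.map_id'] at h2
  rcases mul_self_eq_one_iff.1 h1 with rfl | rfl
  swap
  · rw [h2, neg_one_smul]
  rw [one_smul, D_all_U7 h.disj, ← Finset.mul_prod_erase _ _ hq, map_mul, map_sub, rename_X,
    rename_X, Equiv.swap_apply_left, Equiv.swap_apply_right, ← neg_sub, neg_mul_comm] at h2
  have h3 := congrArg (rename (Function.update id q.2 q.1)) (mul_left_cancel₀ (sub_ne_zero.2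
    fun e => (Finset.mem_filter.1 hq).2.2.2.ne' (congrArg o (X_injective e))) h2)
  rw [map_neg, rho_swap_U7] at h3
  exact absurd (neg_zero_U7 h3.symm)
    (rho_ne_U7 hq (Finset.erase_subset _ _) (Finset.notMem_erase _ _))

theorem dis_rename (ho : ∀ k m, col k = col m → o k = o m → k = m) (h : Pa l) {w : Equiv.Perm I}
    (hw : w ∈ WL col l) : rename w (l.map (dis col o)).prod =
      ((Equiv.Perm.sign w : ℤ) : ℂ) • (l.map (dis col o)).prod := by
  induction e : w.support.card using Nat.strong_induction_on generalizing w with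
  | _ n ih =>
  subst e
  by_cases h1 : w = 1
  · subst h1
    simp
  obtain ⟨i, hi⟩ : ∃ i, w i ≠ i := by
    by_contra! c
    exact h1 (Equiv.ext c)
  have h2 : Equiv.swap i (w i) ∈ WL col l :=
    swap_WL_U7 (hw.1 i).symm fun b hb => (hw.2 b hb i).symm
  have h3 := ih _ (Equiv.Perm.card_support_swap_mul hi) (mul_mem h2 hw) rfl
  have h4 : rename (Equiv.swap i (w i)) (l.map (dis col o)).prod = -(l.map (dis col o)).prod := by
    obtain ⟨b, hb, k⟩ := h.cover i
    have k' := (hw.2 b hb i).2 k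
    rcases lt_or_gt_of_ne fun c => hi (ho _ _ (hw.1 i) c) with c | c
    · rw [Equiv.swap_comm]
      exact swap_D_U7 ho h (q := (w i, i))
        (Finset.mem_filter.2 ⟨Finset.mem_univ _, ⟨b, hb, k', k⟩, hw.1 i, c⟩)
    · exact swap_D_U7 ho h (q := (i, w i))
        (Finset.mem_filter.2 ⟨Finset.mem_univ _, ⟨b, hb, k, k'⟩, (hw.1 i).symm, c⟩)
  have h5 := congrArg (rename (Equiv.swap i (w i))) h3
  rw [rename_rename, ← Equiv.Perm.coe_mul, Equiv.swap_mul_self_mul, map_smul, h4, map_mul,
    Equiv.Perm.sign_swap hi.symm] at h5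
  simpa using h5

omit [Fintype I] in
theorem rho_dvd_U7 (k m : I) (g : MvPolynomial I ℂ) :
    X m - X k ∣ g - rename (Function.update id m k) g := by
  induction g using MvPolynomial.induction_on with
  | C a => simp
  | add p q hp hq =>
    rw [map_add, add_sub_add_comm]
    exact dvd_add hp hq
  | mul_X p i hp =>
    have h : (X m - X k : MvPolynomial I ℂ) ∣ X i - X (Function.update id m k i) := by
      by_cases e : i = m <;> simp [e]
    rw [map_mul, rename_X]
    exact Dvd.dvd.trans (dvd_add (hp.mul_right (X i))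
      (h.mul_left (rename (Function.update id m k) p))) (dvd_of_eq (by ring))

theorem dis_dvd (h : Pa l) {q : ℕ} {g : MvPolynomial I ℂ} (hg : g ∈ An (WL col l) q) :
    (l.map (dis col o)).prod ∣ g := by
  rw [D_all_U7 h.disj]
  suffices ∀ R ⊆ all_U7 col o l, (∏ r ∈ R, (X r.2 - X r.1) : MvPolynomial I ℂ) ∣ g from
    this _ subset_rfl
  intro R
  induction R using Finset.induction_on with
  | empty => simp
  | insert r R h1 ih =>
  intro k
  obtain ⟨hr, hR⟩ := Finset.insert_subset_iff.1 k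
  obtain ⟨f, e⟩ := ih hR
  have h2 := congrArg (rename (Function.update id r.2 r.1)) (hg.2 _ (all_WL_U7 h hr))
  rw [rho_swap_U7, Equiv.Perm.sign_swap fun e =>
    (Finset.mem_filter.1 hr).2.2.2.ne (congrArg o e)] at h2
  have h3 : rename (Function.update id r.2 r.1) g = 0 := neg_zero_U7 (by simpa using h2)
  rw [e, map_mul, mul_eq_zero, or_iff_right (rho_ne_U7 hr hR h1)] at h3
  have h4 := rho_dvd_U7 r.1 r.2 f
  rw [h3, sub_zero] at h4
  rw [Finset.prod_insert h1, mul_comm, e]
  exact mul_dvd_mul_left _ h4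

theorem rel_rename (ho : ∀ k m, col k = col m → o k = o m → k = m) (w : Equiv.Perm I)
    (hw : ∀ i, col (w i) = col i) {f : MvPolynomial I ℂ} (h : Rel col θ o l f) :
    Rel col θ o (l.map fun b => b.image w) (rename w f) := by
  obtain ⟨s, h1, h2⟩ := ren_D_U7 ho w hw l
  have h3 : Ideal.span {e | ∃ b ∈ l, ∃ F ⊆ b, 0 < θ (dvec col F) ∧ e = eul col b F} ≤
      (Ideal.span {e | ∃ b ∈ l.map fun b => b.image w, ∃ F ⊆ b, 0 < θ (dvec col F) ∧
        e = eul col b F}).comap (rename w) := Ideal.span_le.2 (by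
    rintro _ ⟨b, hb, F, hF, k, rfl⟩
    exact Ideal.subset_span ⟨_, List.mem_map_of_mem hb, F.image w, Finset.image_subset_image hF,
      by rwa [dvec_image w hw], eul_rename w hw b F⟩)
  have h4 := Submodule.smul_of_tower_mem _ s (Ideal.mem_comap.1 (h3 h))
  rwa [map_mul, h2, smul_mul_assoc, smul_smul, h1, one_smul] at h4

theorem HS_HI (ho : ∀ k m, col k = col m → o k = o m → k = m) (h : Cmp col θ l) :
    HS col θ (l.map fun b => (b, 2)) =
      PowerSeries.X ^ (l.map fun b => cb (dvec col b)).sum * HI col θ o l := by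
  have hp : Pa l := h.2
  have hD : ∀ l : List (Finset I), (l.map (dis col o)).prod.IsHomogeneous
      (l.map fun b => cb (dvec col b)).sum := fun l => by
    induction l with
    | nil => exact isHomogeneous_one _ _
    | cons b l ih => exact (dis_hom ho b).mul ih
  have h0 : (l.map (dis col o)).prod ≠ 0 := by
    rw [D_all_U7 hp.disj]
    exact Finset.prod_ne_zero_iff.2 fun q hq => sub_ne_zero.2
      fun e => (Finset.mem_filter.1 hq).2.2.2.ne' (congrArg o (X_injective e))
  have h1 : ∀ p, ∀ y ∈ An (WL col l) p, ∃ x, y = if (l.map fun b => cb (dvec col b)).sum ≤ p then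
      homogeneousComponent (p - (l.map fun b => cb (dvec col b)).sum) x *
        (l.map (dis col o)).prod else 0 := fun p y hy => by
    obtain ⟨x, e⟩ := dis_dvd (o := o) hp hy
    exact ⟨x, by rw [← hc_mul (hD l), mul_comm, ← e, homogeneousComponent_of_mem hy.1, if_pos rfl]⟩
  ext p
  rw [PowerSeries.coeff_X_pow_mul', HS, List.map_map, show (Prod.fst ∘ fun b : Finset I =>
    (b, (2 : Fin 4))) = id from rfl, List.map_id]
  simp only [HI, hs, PowerSeries.coeff_mk]
  split_ifs with c
  · refine congrArg _ (sq_eq (In (WL col l) _) ((RelI col θ o l).restrictScalars ℂ)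
      (An (WL col l) p) ((JJ col θ (l.map fun b => (b, 2))).restrictScalars ℂ)
      (LinearMap.mulLeft ℂ (l.map (dis col o)).prod)
      (fun x hx => Submodule.mem_sup_left ⟨?_, fun w hw => ?_⟩) (fun y hy => ?_)
      fun x _ => (rel_iff (fun b hb => (h.1 b hb).2) x).symm).symm
    · exact Nat.add_sub_cancel' c ▸ (hD l).mul hx.1
    · rw [LinearMap.mulLeft_apply, map_mul, hx.2 w hw, dis_rename ho hp hw, smul_mul_assoc]
    · obtain ⟨x, e⟩ := h1 p y hy
      rw [if_pos c] at e
      refine ⟨_, ⟨homogeneousComponent_isHomogeneous _ x, fun w hw => ?_⟩,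
        by rw [LinearMap.mulLeft_apply, mul_comm, ← e, sub_self]; exact zero_mem _⟩
      have h2 := hy.2 w hw
      rw [e, map_mul, dis_rename ho hp hw, ← mul_smul_comm] at h2
      exact mul_right_cancel₀ (smul_ne_zero (by simp) h0) h2
  · rw [qd, (Submodule.eq_bot_iff _).2 fun y hy => (h1 p y hy).elim fun x e => e.trans (if_neg c)]
    simp

end Pool.Agent.CS.EC
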