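import Pool.Agent.K.MP_d34769_ag.C161
import Pool.Agent.K.MP_d34769_ag.C163

/-! Bases of the tautological rings. -/

open MvPolynomial

noncomputable section
namespace Pool.Agent.CS.EC
open Pool.Agent.P.MP_d34769_ag
variable {I : Type} [Fintype I] [DecidableEq I] {col : I → Fin 3} {θ : V → ℝ} {o : I → ℕ}
  {P N : V → PowerSeries ℚ}

theorem lt_Uc (x : Lt θ) : x.1.1 ≠ 0 ∧ θ x.1.1 = 0 := by
  by_contra k
  exact (x.2.cast (if_neg k)).elim0

theorem alp_Lt (θ : V → ℝ) : Alp fun x : Lt θ => x.1 :=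
  ⟨fun x => (lt_Uc x).1, fun g =>
    (Set.finite_range fun j : Fin (vd θ g.1 g.2) => (⟨g, j⟩ : Lt θ)).subset (by
      rintro ⟨g', j⟩ rfl
      exact ⟨j, rfl⟩)⟩

theorem lt_theta (x : Lt θ) : θ x.1.1 = 0 := (lt_Uc x).2

theorem dvec_Uc (d : V) : dvec (I := Id d) Sigma.fst Finset.univ = d := by
  funext v
  rw [dvec, ← Finset.univ_sigma_univ, Finset.filter_sigma, Finset.card_sigma,
    Finset.sum_eq_single v (fun u _ c => by simp [c]) (by simp)]
  simp

theorem HI_Uc (hθ : ∀ a b, θ (a + b) = θ a + θ b) (hB : Bk θ P N)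
    (ho : ∀ k m, col k = col m → o k = o m → k = m) {l : List (Finset I)} (h : Cmp col θ l) :
    PowerSeries.X ^ (l.map fun b => cb (dvec col b)).sum * HI col θ o l =
      (l.map fun b => P (dvec col b)).prod := by
  rw [← HS_HI ho h, HS_prod hθ hB (by simpa [Function.comp_def, Pa] using h.2), List.map_map]
  rfl

theorem pp_Lt (hθ : ∀ a b, θ (a + b) = θ a + θ b) (hB : Bk θ P N) {d : V} (h : θ d = 0) :
    PowerSeries.X ^ cb d * pp (fun x : Lt θ => x.1) d = P d := by
  by_cases h0 : d = 0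
  · simp [h0, pp, cb, hB.P0]
  have h1 := HI_Uc (col := Sigma.fst) (o := fun i : Id d => i.2) hθ hB (l := [Finset.univ])
    (fun ⟨u, i⟩ ⟨v, j⟩ a b => by
      obtain rfl : u = v := a
      exact congrArg _ (Fin.ext b))
    ⟨fun b hb => by
      rw [List.mem_singleton.1 hb, dvec_Uc]
      refine ⟨Finset.card_pos.1 (Nat.pos_of_ne_zero fun k => h0 (sz_eq_zero ?_)), h⟩
      rw [← k, ← sz_dvec (col := Sigma.fst), dvec_Uc], pa_univ⟩
  simp only [List.map_cons, List.map_nil, List.sum_cons, List.sum_nil, add_zero, List.prod_cons,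
    List.prod_nil, mul_one, dvec_Uc] at h1
  rw [← h1, pp, if_neg h0]
  refine congrArg _ (PowerSeries.ext fun p => ?_)
  rw [HI, hs, PowerSeries.coeff_mk, PowerSeries.coeff_mk,
    Nat.card_congr (Equiv.sigmaSubtype (d, p)), Nat.card_fin, vd, if_pos ⟨h0, h⟩]

omit [Fintype I] [DecidableEq I] in
theorem card_Zp {A : Type} {wt : A → V × ℕ} (h : Alp wt) {l : List (Finset I)}
    (hl : ∀ b ∈ l, b.Nonempty) (p : ℕ) : ((Zp h col p l).card : ℚ) =
      PowerSeries.coeff p (l.map fun b => pp wt (dvec col b)).prod := by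
  induction l generalizing p with
  | nil =>
    rw [List.map_nil, List.prod_nil, PowerSeries.coeff_one, Zp, Zd, Finset.filter_singleton]
    by_cases k : p = 0
    · simp [k]
    · simp [k, Ne.symm k]
  | cons b l ih =>
    have h1 : dvec col b ≠ 0 := fun k => by
      have := sz_dvec (col := col) b
      rw [k] at this
      exact (hl b List.mem_cons_self).card_pos.ne this
    have h2 : ((Finset.HasAntidiagonal.antidiagonal p).sigma fun q =>
        (h.fin (dvec col b, q.1)).toFinset ×ˢ Zp h col q.2 l).card =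
        (Zp h col p (b :: l)).card := by
      refine Finset.card_bij (fun y _ => (b, y.2.1) :: y.2.2) ?_ ?_ ?_
      · rintro ⟨q, x, z⟩ hy
        simp only [Finset.mem_sigma, Finset.HasAntidiagonal.mem_antidiagonal, Finset.mem_product,
          Set.Finite.mem_toFinset, Set.mem_ofPred_eq, mem_Zp] at hy
        obtain ⟨k1, k2, k3, k4, k5⟩ := hy
        refine (mem_Zp h col p _ _).2 ⟨by simp [k3], List.forall_mem_cons.2 ⟨by rw [k2], k4⟩, ?_⟩
        rw [List.map_cons, List.sum_cons, k2, k5, k1]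
      · rintro ⟨q, x, z⟩ hy ⟨q', x', z'⟩ hy' e
        simp only [Finset.mem_sigma, Finset.HasAntidiagonal.mem_antidiagonal, Finset.mem_product,
          Set.Finite.mem_toFinset, Set.mem_ofPred_eq, mem_Zp] at hy hy'
        simp only [List.cons.injEq, Prod.mk.injEq, true_and] at e
        obtain ⟨rfl, rfl⟩ := e
        obtain rfl : q = q' := Prod.ext (congrArg Prod.snd (hy.2.1.symm.trans hy'.2.1))
          (hy.2.2.2.2.symm.trans hy'.2.2.2.2)
        rfl
      · intro z hz
        obtain ⟨k1, k2, k3⟩ := (mem_Zp h col p _ _).1 hz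
        obtain ⟨y, z, rfl, rfl, rfl⟩ := List.map_eq_cons_iff.1 k1
        rw [List.forall_mem_cons] at k2
        refine ⟨⟨((wt y.2).2, (z.map fun y => (wt y.2).2).sum), y.2, z⟩, ?_, rfl⟩
        simp only [Finset.mem_sigma, Finset.HasAntidiagonal.mem_antidiagonal, Finset.mem_product,
          Set.Finite.mem_toFinset, Set.mem_ofPred_eq, mem_Zp, true_and, and_true]
        exact ⟨k3, Prod.ext k2.1 rfl, k2.2⟩
    rw [← h2, Finset.card_sigma, List.map_cons, List.prod_cons, PowerSeries.coeff_mul,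
      Nat.cast_sum]
    refine Finset.sum_congr rfl fun q _ => ?_
    rw [Finset.card_product, Nat.cast_mul, ih fun b hb => hl b (List.mem_cons_of_mem _ hb), pp,
      if_neg h1, PowerSeries.coeff_mk,
      Nat.subtype_card (h.fin (dvec col b, q.1)).toFinset fun x => by simp]

/-- the product attached to a decoration -/
def prU (ab : Finset I → Lt θ → MvPolynomial I ℂ) (z : List (Finset I × Lt θ)) :
    MvPolynomial I ℂ := (z.map fun y => ab y.1 y.2).prod

theorem span_Uc {ab : Finset I → Lt θ → MvPolynomial I ℂ} {l : List (Finset I)}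
    (hl : Cmp col θ l)
    (h : ∀ b : Finset I, b.Nonempty → θ (dvec col b) = 0 → ∀ p, ∀ g ∈ In (Wb col b) p,
      g ∈ supported ℂ (b : Set I) → ∃ c : Fin (vd θ (dvec col b) p) → ℂ,
        Rel col θ o [b] (g - ∑ j, c j • ab b ⟨(dvec col b, p), j⟩))
    (z : List (Finset I × ℕ × MvPolynomial I ℂ)) (hz : ∀ y ∈ z, y.1 ∈ l ∧
      y.2.2 ∈ In (Wb col y.1) y.2.1 ∧ y.2.2 ∈ supported ℂ (y.1 : Set I)) :
    (z.map fun y => y.2.2).prod ∈ Submodule.span ℂ (prU ab ''
      Zp (alp_Lt θ) col (z.map fun y => y.2.1).sum (z.map Prod.fst)) ⊔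
        (RelI col θ o l).restrictScalars ℂ := by
  induction z with
  | nil =>
    exact Submodule.mem_sup_left (Submodule.subset_span
      ⟨[], (mem_Zp _ col _ _ _).2 ⟨rfl, by simp, rfl⟩, rfl⟩)
  | cons y z ih =>
    rw [List.forall_mem_cons] at hz
    obtain ⟨m, hm, r, hr, e⟩ := Submodule.mem_sup.1 (ih hz.2)
    obtain ⟨c, hc⟩ := h y.1 (hl.1 _ hz.1.1).1 (hl.1 _ hz.1.1).2 _ _ hz.1.2.1 hz.1.2.2
    have h1 : _ ∈ RelI col θ o l := rel_one hz.1.1 hc
    simp only [List.map_cons, List.prod_cons, List.sum_cons, ← e]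
    refine Submodule.mem_sup.2 ⟨(∑ j, c j • ab y.1 ⟨(dvec col y.1, y.2.1), j⟩) * m, ?_, _,
      (RelI col θ o l).add_mem (Ideal.mul_mem_right m _ h1) (Ideal.mul_mem_left _ y.2.2 hr),
      by ring⟩
    rw [Finset.sum_mul]
    refine Submodule.sum_mem _ fun j _ => ?_
    rw [smul_mul_assoc]
    refine Submodule.smul_mem _ _ (Submodule.mem_comap.1 ((Submodule.span_le (p := Submodule.comap
      (LinearMap.mulLeft ℂ (ab y.1 ⟨(dvec col y.1, y.2.1), j⟩)) (Submodule.span ℂ _))).2 ?_ hm))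
    rintro _ ⟨u, hu, rfl⟩
    obtain ⟨k1, k2, k3⟩ := (mem_Zp _ col _ _ _).1 hu
    refine Submodule.subset_span ⟨(y.1, ⟨(dvec col y.1, y.2.1), j⟩) :: u, (mem_Zp _ col _ _ _).2
      ⟨by simp [k1], List.forall_mem_cons.2 ⟨rfl, k2⟩, ?_⟩, by simp [prU]⟩
    rw [List.map_cons, List.sum_cons, k3]

theorem exists_bas (hθ : ∀ a b, θ (a + b) = θ a + θ b)
    (ho : ∀ k m, col k = col m → o k = o m → k = m) :
    ∃ ab, Bas θ (alp_Lt θ) col o ab := by
  obtain ⟨ab, a1, a2, -, a4⟩ := exists_ab (θ := θ) ho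
  obtain ⟨P, N, hB⟩ := exists_bk hθ
  have s1 : ∀ p l, Cmp col θ l → In (WL col l) p ≤
      Submodule.span ℂ (prU ab '' Zp (alp_Lt θ) col p l) ⊔ (RelI col θ o l).restrictScalars ℂ :=
    fun p l hl f hf => Submodule.span_le.2 (by
      rintro _ ⟨z, rfl, k1, rfl, rfl⟩
      exact span_Uc hl a4 z fun y hy => ⟨List.mem_map_of_mem hy, k1 y hy⟩) (span_blocks hl.2 hf)
  have s2 : ∀ z : List (Finset I × Lt θ),
      (prU ab z).IsHomogeneous (z.map fun y => y.2.1.2).sum := fun z => by
    induction z with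
    | nil => exact isHomogeneous_one _ _
    | cons y z ih => exact (a2 y.1 y.2).mul ih
  refine ⟨ab, a1, a2, fun p l hl f hf => ?_, fun p l hl c hc z hz => ?_⟩
  · obtain ⟨m, hm, r, hr, rfl⟩ := Submodule.mem_sup.1 (s1 p l hl hf)
    obtain ⟨k, rfl⟩ := (Submodule.mem_span_image_finset_iff_exists_fun' ℂ).1 hm
    refine ⟨fun w => k (l.zip w), ?_⟩
    have e : Ph (alp_Lt θ) col ab p (fun w => k (l.zip w)) l =
        ∑ z ∈ Zp (alp_Lt θ) col p l, k z • prU ab z := Finset.sum_congr rfl fun z hz => by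
      beta_reduce
      rw [← ((mem_Zp _ col _ _ _).1 hz).1, List.zip_map', List.map_id']
      rfl
    rw [e, add_sub_cancel_left]
    exact hr
  · have s3 : ∀ z ∈ Zp (alp_Lt θ) col p l, prU ab z ∈ In (WL col l) p := fun z hz => by
      obtain ⟨k1, -, k3⟩ := (mem_Zp _ col _ _ _).1 hz
      refine ⟨k3 ▸ s2 z, fun w hw => ?_⟩
      rw [prU, map_list_prod, List.map_map]
      refine congrArg _ (List.map_congr_left fun y hy => ?_)
      rw [Function.comp_apply, a1 w hw.1, image_WL hw (k1 ▸ List.mem_map_of_mem hy)]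
    have s4 : Submodule.span ℂ (Set.range fun z : Zp (alp_Lt θ) col p l =>
        ((RelI col θ o l).restrictScalars ℂ).mkQ (prU ab z)) =
        (In (WL col l) p).map ((RelI col θ o l).restrictScalars ℂ).mkQ := by
      refine le_antisymm (Submodule.span_le.2 ?_) ((Submodule.map_mono (s1 p l hl)).trans ?_)
      · rintro _ ⟨z, rfl⟩
        exact ⟨_, s3 z z.2, rfl⟩
      · rw [Submodule.map_sup, Submodule.mkQ_map_self, sup_bot_eq, Submodule.map_span,
          Submodule.span_le]
        rintro _ ⟨_, ⟨z, hz, rfl⟩, rfl⟩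
        exact Submodule.subset_span ⟨⟨z, hz⟩, rfl⟩
    have s5 : HI col θ o l = (l.map fun b => pp (fun x : Lt θ => x.1) (dvec col b)).prod := by
      refine mul_left_cancel₀ (pow_ne_zero (l.map fun b => cb (dvec col b)).sum
        PowerSeries.X_ne_zero) ?_
      rw [HI_Uc hθ hB ho hl, List.map_congr_left fun b hb => (pp_Lt hθ hB (hl.1 b hb).2).symm,
        List.prod_map_mul]
      refine congrArg (· * _) ?_
      generalize l = u
      induction u with
      | nil => simp
      | cons a u ih => simp only [List.map_cons, List.prod_cons, List.sum_cons, pow_add, ih]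
    have s6 := card_Zp (col := col) (alp_Lt θ) (fun b hb => (hl.1 b hb).1) p
    rw [← s5, HI, hs, PowerSeries.coeff_mk, Nat.cast_inj, qd, ← s4, ← Fintype.card_coe] at s6
    refine Fintype.linearIndependent_iff.1 (linearIndependent_iff_card_eq_finrank_span.2 s6)
      (fun z => c (z.1.map Prod.snd)) ?_ ⟨z, hz⟩
    simp only [← map_smul, ← map_sum]
    rw [Finset.sum_coe_sort _ fun z => c (z.map Prod.snd) • prU ab z]
    exact (Submodule.Quotient.mk_eq_zero _).2 hc

end Pool.Agent.CS.EC
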