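import Pool.Agent.K.MP_d34769_ag.C1

/-! The Moebius invariant of a representation over a finite field. -/

namespace Pool.Agent.P.MP_d34769_ag

open Module Classical

namespace QR

variable {K : Type} [Field K] [Finite K] {ι A : Type} {s t : A → ι} [Fintype ι]

instance (X : QR K s t) (i : ι) : Finite (X.M i) := Module.finite_of_finite K

instance (X : QR K s t) : Finite X.Sub :=
  haveI : ∀ i, Finite (Submodule K (X.M i)) := fun _ =>
    Finite.of_injective _ SetLike.coe_injective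
  Pi.finite

instance (X Y : QR K s t) : Finite (Fam X Y) :=
  haveI : ∀ i, Finite (X.M i →ₗ[K] Y.M i) := fun _ =>
    Finite.of_injective _ DFunLike.coe_injective
  Pi.finite

instance (X Y : QR K s t) : Finite (Iso X Y) :=
  Finite.of_injective (fun φ : Iso X Y => φ.fam) fun _ _ h =>
    Subtype.ext (funext fun i => LinearEquiv.toLinearMap_injective (congrFun h i))

def GG (w : ι → ℝ) (X : QR K s t) (U : X.Sub) : Prop := X.IsSub U ∧ 0 ≤ th w U

noncomputable def cc (w : ι → ℝ) (X : QR K s t) : ℤ := mob (GG w X) ⊤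

noncomputable def homN (X Y : QR K s t) : ℕ := Nat.card {f : Fam X Y // IsHom X Y f}

noncomputable def autN (X : QR K s t) : ℕ := Nat.card (Iso X X)

variable {w : ι → ℝ} {X Y Z : QR K s t}

lemma mob_mapS {f : Fam X Y} (hf : IsHom X Y f) (hi : ∀ i, Function.Injective (f i))
    (U : X.Sub) : mob (GG w Y) (mapS f U) = mob (GG w X) U := by
  refine mob_transport _ _ (mapS f) (mapS_le_iff hi) (mapS_bot f)
    (fun U hU => ⟨hf.mapS hU.1, by rw [th_mapS_inj hi]; exact hU.2⟩) ?_ U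
  intro V U' hle hU'
  have : mapS f (comapS f U') = U' := by
    rw [mapS_comapS, inf_eq_right]
    exact hle.trans (mapS_mono f le_top)
  refine ⟨comapS f U', ⟨hf.comapS hU'.1, ?_⟩, this⟩
  rw [← th_mapS_inj hi, this]
  exact hU'.2

lemma mob_eq_cc {U : X.Sub} (hU : X.IsSub U) : mob (GG w X) U = cc w (X.sub U hU) := by
  rw [cc, ← mob_mapS (isHom_subF hU) (subF_inj hU), mapS_subF_top]

lemma Isom.cc_eq (h : Isom X Y) : cc w X = cc w Y := by
  obtain ⟨φ⟩ := h
  rw [cc, ← mob_mapS φ.isHom φ.inj, mapS_top_eq_top.2 φ.surj, cc]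

lemma cc_of_dv_zero (h : X.dv = 0) : cc w X = 1 := by
  have := Fintype.ofFinite X.Sub
  rw [cc, mob_eq, if_pos (dv_eq_zero.1 h), Finset.sum_eq_zero, sub_zero]
  intro U hU
  simp only [Finset.mem_filter, Finset.mem_univ, true_and, dv_eq_zero.1 h] at hU
  exact absurd hU.1 not_lt_bot

lemma cc_unstable (h0 : tw w X.dv = 0) (h : ¬ NP w X) : cc w X = 0 := by
  have := Fintype.ofFinite X.Sub
  obtain ⟨U₀, hU₀, hmax⟩ := Finset.exists_max_image (Finset.univ.filter X.IsSub) (th w)
    ⟨⊥, by simp [IsSub.bot]⟩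
  simp only [Finset.mem_filter, Finset.mem_univ, true_and] at hU₀ hmax
  have hpos : 0 < th w U₀ := by
    by_contra h'
    exact h fun U hU => (hmax U hU).trans (not_lt.1 h')
  obtain ⟨S, ⟨hS, hSth⟩, hmin⟩ := (wellFounded_lt (α := X.Sub)).has_min
    {V | X.IsSub V ∧ th w V = th w U₀} ⟨U₀, hU₀, rfl⟩
  have hS0 : S ≠ ⊥ := fun h' => by
    rw [h', th_bot] at hSth
    linarith
  have hW := weisner (GG w X) S hS0 (fun U hU => ⟨hU.1.sup hS, by
    have := th_sup_inf (w := w) U S
    have := hmax _ (hU.1.inf hS)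
    have := hU.2
    linarith⟩) ⊤ ⟨IsSub.top, by rw [th_top, h0]⟩ le_top
  rw [Finset.sum_eq_single ⊤] at hW
  · exact hW
  · intro U hU hne
    simp only [Finset.mem_filter, Finset.mem_univ, true_and] at hU
    exfalso
    have h1 := th_sup_inf (w := w) U S
    rw [hU.2, th_top, h0] at h1
    have h2 := hmax _ (hU.1.1.inf hS)
    have h3 := hU.1.2
    have h4 : U ⊓ S = S := by
      by_contra h5
      exact hmin (U ⊓ S) ⟨hU.1.1.inf hS, by linarith⟩ (lt_of_le_of_ne inf_le_right h5)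
    exact hne (by rw [← hU.2, sup_eq_left.2 (inf_eq_right.1 h4)])
  · intro h'
    exact absurd (by simp [GG, IsSub.top, th_top, h0]) h'

lemma cc_atom [Fintype X.Sub] (hX : SS w X) {S : QR K s t} (hS : St w S) {j : Fam S X}
    (hj : IsHom S X j) (hi : ∀ i, Function.Injective (j i)) :
    cc w X = - ∑ U ∈ Finset.univ.filter
      (fun U => X.IsSub U ∧ U ⊓ mapS j ⊤ = ⊥ ∧ U ⊔ mapS j ⊤ = ⊤), mob (GG w X) U := by
  have ha : X.IsSub (mapS j ⊤) := hj.mapS IsSub.top
  have ha0 : mapS j ⊤ ≠ ⊥ := fun h => hS.top_ne_bot (mapS_inj hi (h.trans (mapS_bot _).symm))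
  have hath : th w (mapS j ⊤) = 0 := by rw [th_mapS_inj hi, th_top, hS.1]
  have hW := weisner (GG w X) (mapS j ⊤) ha0 (fun U hU => ⟨hU.1.sup ha,
    hU.2.trans (th_comapS_le j hS.np hj hU.1 hS.1)⟩) ⊤ ⟨IsSub.top, by rw [th_top, hX.1]⟩ le_top
  have hset : Finset.univ.filter (fun U => GG w X U ∧ U ⊔ mapS j ⊤ = ⊤) = insert ⊤
      (Finset.univ.filter (fun U => X.IsSub U ∧ U ⊓ mapS j ⊤ = ⊥ ∧ U ⊔ mapS j ⊤ = ⊤)) := by
    ext U
    simp only [Finset.mem_filter, Finset.mem_univ, true_and, Finset.mem_insert]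
    constructor
    · rintro ⟨hU, h2⟩
      by_cases h3 : comapS j U = ⊥
      · refine Or.inr ⟨hU.1, ?_, h2⟩
        rw [inf_comm, ← mapS_comapS, h3, mapS_bot]
      · left
        have h4 := th_sup_inf (w := w) U (mapS j ⊤)
        rw [h2, th_top, hX.1, hath, inf_comm, ← mapS_comapS, th_mapS_inj hi] at h4
        have h5 := hS.eq_top (hj.comapS hU.1) h3 (by linarith [hU.2])
        have h6 : mapS j ⊤ ≤ U := by
          rw [← h5, mapS_comapS]
          exact inf_le_right
        rw [← h2, sup_eq_left.2 h6]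
    · rintro (rfl | ⟨h1, h2, h3⟩)
      · exact ⟨⟨IsSub.top, by rw [th_top, hX.1]⟩, by simp⟩
      · refine ⟨⟨h1, ?_⟩, h3⟩
        have h4 := th_sup_inf (w := w) U (mapS j ⊤)
        rw [h2, h3, th_top, hX.1, hath, th_bot] at h4
        linarith
  have hW' : ∑ U ∈ Finset.univ.filter (fun U => GG w X U ∧ U ⊔ mapS j ⊤ = ⊤), mob (GG w X) U = 0 := by
    convert hW
  rw [hset, Finset.sum_insert (by simp [ha0])] at hW'
  rw [cc]
  linarith

/-- A representation of weight zero with nonzero invariant splits off a stable summand. -/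
lemma exists_split (h0 : tw w X.dv = 0) (h1 : X.dv ≠ 0) (hc : cc w X ≠ 0) :
    ∃ S Y : QR K s t, St w S ∧ cc w Y ≠ 0 ∧ Isom (S.prod Y) X := by
  have := Fintype.ofFinite X.Sub
  have hnp : NP w X := by
    by_contra h
    exact hc (cc_unstable h0 h)
  obtain ⟨V, hV, -, hst⟩ := hnp.exists_st IsSub.top (fun h => h1 (dv_eq_zero.2 h))
    (by rw [th_top, h0])
  rw [cc_atom ⟨h0, hnp⟩ hst (isHom_subF hV) (subF_inj hV), neg_ne_zero] at hc
  obtain ⟨U, hU, hne⟩ := Finset.exists_ne_zero_of_sum_ne_zero hc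
  simp only [Finset.mem_filter, Finset.mem_univ, true_and, mapS_subF_top] at hU
  rw [mob_eq_cc hU.1] at hne
  exact ⟨_, _, hst, hne, isom_prod_of_compl hV hU.1 (by rw [inf_comm, hU.2.1])
    (by rw [sup_comm, hU.2.2])⟩

def pairF (f : Fam Z X) (g : Fam Z Y) : Fam Z (X.prod Y) := fun i => (f i).prod (g i)

omit [Finite K] [Fintype ι] in
lemma IsHom.pairF {f : Fam Z X} {g : Fam Z Y} (hf : IsHom Z X f) (hg : IsHom Z Y g) :
    IsHom _ _ (pairF f g) := fun e x => Prod.ext (hf e x) (hg e x)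

lemma cc_prod {S : QR K s t} (hS : St w S) (hX : SS w X) :
    cc w (S.prod X) = - homN X S * cc w X := by
  have := Fintype.ofFinite (S.prod X).Sub
  have := Fintype.ofFinite {f : Fam X S // IsHom X S f}
  have hinj : ∀ (f : Fam X S) i, Function.Injective (pairF f (idF X) i) :=
    fun f i x y h => congrArg Prod.snd h
  rw [cc_atom (hS.ss.prod hX) hS isHom_inl (fun _ => LinearMap.inl_injective), neg_mul, neg_inj,
    homN, Nat.card_eq_fintype_card, ← nsmul_eq_mul, ← Finset.card_univ, ← Finset.sum_const]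
  symm
  refine Finset.sum_bij (fun f _ => mapS (pairF f.1 (idF X)) ⊤) ?_ ?_ ?_ ?_
  · intro f _
    simp only [Finset.mem_filter, Finset.mem_univ, true_and]
    refine ⟨(f.2.pairF IsHom.id).mapS IsSub.top, ?_, ?_⟩
    · funext i
      refine eq_bot_iff.2 ?_
      rintro _ ⟨⟨x, -, rfl⟩, ⟨y, -, h⟩⟩
      have : x = 0 := (congrArg Prod.snd h).symm
      rw [this, map_zero]
      exact Submodule.zero_mem _
    · funext i
      refine eq_top_iff.2 fun p _ => Submodule.mem_sup.2
        ⟨_, ⟨p.2, trivial, rfl⟩, _, ⟨p.1 - f.1 i p.2, trivial, rfl⟩, ?_⟩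
      exact Prod.ext (add_sub_cancel _ _) (add_zero _)
  · intro f _ g _ h
    refine Subtype.ext (funext fun i => LinearMap.ext fun x => ?_)
    have : pairF f.1 (idF X) i x ∈ mapS (pairF g.1 (idF X)) ⊤ i := h ▸ ⟨x, trivial, rfl⟩
    obtain ⟨y, -, hy⟩ := this
    have h2 : y = x := congrArg Prod.snd hy
    subst h2
    exact (congrArg Prod.fst hy).symm
  · intro U hU
    simp only [Finset.mem_filter, Finset.mem_univ, true_and] at hU
    obtain ⟨hU, h1, h2⟩ := hU
    have hb : ∀ i, Function.Bijective (comp (snd S X) (subF _ U hU) i) := by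
      intro i
      constructor
      · rw [injective_iff_map_eq_zero]
        intro x hx
        have : x.1 ∈ (U ⊓ mapS (inl S X) ⊤) i := ⟨x.2, x.1.1, trivial, Prod.ext rfl hx.symm⟩
        rw [h1] at this
        exact Subtype.ext this
      · intro y
        have : inr S X i y ∈ (U ⊔ mapS (inl S X) ⊤) i := h2 ▸ trivial
        obtain ⟨p, hp, _, ⟨z, -, rfl⟩, h⟩ := Submodule.mem_sup.1 this
        exact ⟨⟨p, hp⟩, (add_zero _).symm.trans (congrArg Prod.snd h)⟩
    let φ := Iso.ofBij (isHom_snd.comp (isHom_subF hU)) hb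
    refine ⟨⟨comp (comp (fst S X) (subF _ U hU)) φ.symm.fam,
      (isHom_fst.comp (isHom_subF hU)).comp φ.symm.isHom⟩, Finset.mem_univ _, ?_⟩
    have key : ∀ i x, pairF (comp (comp (fst S X) (subF _ U hU)) φ.symm.fam) (idF X) i x =
        ((φ.1 i).symm x).1 := fun i x =>
      Prod.ext rfl ((φ.1 i).apply_symm_apply x).symm
    funext i
    ext p
    constructor
    · rintro ⟨x, -, rfl⟩
      rw [key]
      exact ((φ.1 i).symm x).2
    · intro hp
      refine ⟨φ.1 i ⟨p, hp⟩, trivial, ?_⟩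
      rw [key, LinearEquiv.symm_apply_apply]
  · intro f _
    rw [mob_mapS (f.2.pairF IsHom.id) (hinj f.1), cc]

end QR

end Pool.Agent.P.MP_d34769_ag
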