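import Pool.Agent.K.MP_d34769_ag.C22
import Pool.Agent.P.MP_65ad7c_ag.HAlg

/-! Double complexes with allowed and null elements; degeneration at the second page. -/

open Pool.Agent.HT (BG KD)

noncomputable section
namespace Pool.Agent.CS
variable {T T' : Type} [AddCommGroup T] [Module ℂ T] [AddCommGroup T'] [Module ℂ T']

/-- total degree `n` -/
def degZ (B : BG T) (n : ℤ) : Submodule ℂ T :=
  ⨅ (p : ℕ) (q : ℕ) (_ : (p : ℤ) + q ≠ n), LinearMap.ker (B.e p q)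

/-- column `p`, row `n` -/
def rowZ (B : BG T) (p : ℕ) (n : ℤ) : Submodule ℂ T :=
  ⨅ (p' : ℕ) (q : ℕ) (_ : ¬(p' = p ∧ (q : ℤ) = n)), LinearMap.ker (B.e p' q)

theorem mem_degZ {B : BG T} {n : ℤ} {x : T} :
    x ∈ degZ B n ↔ ∀ p q : ℕ, (p : ℤ) + q ≠ n → B.e p q x = 0 := by simp [degZ]

theorem mem_rowZ {B : BG T} {p : ℕ} {n : ℤ} {x : T} :
    x ∈ rowZ B p n ↔ ∀ p' q : ℕ, ¬(p' = p ∧ (q : ℤ) = n) → B.e p' q x = 0 := by
  simp only [rowZ, Submodule.mem_iInf, LinearMap.mem_ker]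

theorem degZ_nat (B : BG T) (n : ℕ) : degZ B n = B.Deg n := by
  ext x
  rw [mem_degZ, B.mem_Deg]
  exact forall₂_congr fun p q => imp_congr_left (by omega)

theorem rowZ_nat (B : BG T) (p n : ℕ) : rowZ B p n = B.H p n := by
  ext x
  rw [mem_rowZ]
  refine ⟨fun h => B.mem_H.2 (B.ext' fun p' q => ?_), fun h p' q hq => BG.e_of_H h (by omega)⟩
  rw [B.e_e]
  split_ifs with e
  · rfl
  · exact (h p' q (by omega)).symm

theorem degZ_neg (B : BG T) {n : ℤ} (h : n < 0) : degZ B n = ⊥ :=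
  eq_bot_iff.2 fun x hx => B.ext x fun p q => mem_degZ.1 hx p q (by omega)

theorem rowZ_neg (B : BG T) (p : ℕ) {n : ℤ} (h : n < 0) : rowZ B p n = ⊥ :=
  eq_bot_iff.2 fun x hx => B.ext x fun p' q => mem_rowZ.1 hx p' q (by omega)

/-- the projection to column `p` and row `n` -/
def eZ (B : BG T) (p : ℕ) (n : ℤ) : Module.End ℂ T := if 0 ≤ n then B.e p n.toNat else 0

section ez
open Cx (meq)
variable {B : BG T} {p c : ℕ} {n j : ℤ} {x : T}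

theorem eZ_nat {m : ℕ} (e : n = m) : eZ B p n = B.e p m := by simp [eZ, e]

theorem eZ_neg (h : n < 0) (x : T) : eZ B p n x = 0 := by simp [eZ, h.not_ge]

theorem eZ_ind {U : Submodule ℂ T} (h : ∀ m : ℕ, n = m → B.e p m x ∈ U) : eZ B p n x ∈ U := by
  rcases lt_or_ge n 0 with h0 | h0
  · rw [eZ_neg h0]
    exact U.zero_mem
  · rw [eZ_nat (Int.toNat_of_nonneg h0).symm]
    exact h _ (Int.toNat_of_nonneg h0).symm

theorem eZ_row (p : ℕ) (n : ℤ) (x : T) : eZ B p n x ∈ rowZ B p n :=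
  eZ_ind fun m e => by rw [e, rowZ_nat]; exact B.e_mem p m x

theorem eZ_of_row (h : x ∈ rowZ B p n) : eZ B p n x = x := by
  rcases lt_or_ge n 0 with h0 | h0
  · rw [rowZ_neg B p h0] at h
    rw [eZ_neg h0, (Submodule.mem_bot ℂ).1 h]
  · obtain ⟨m, rfl⟩ := Int.eq_ofNat_of_zero_le h0
    rw [rowZ_nat] at h
    rw [eZ_nat rfl, B.mem_H.1 h]

theorem eZ_of_ne (h : x ∈ rowZ B c j) (e : ¬(p = c ∧ n = j)) : eZ B p n x = 0 :=
  (Submodule.mem_bot ℂ).1 (eZ_ind fun m hm => mem_rowZ.1 h p m (hm ▸ e))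

theorem eZ_col (h : x ∈ B.Col (c + 1)) (n : ℤ) : eZ B c n x = 0 :=
  (Submodule.mem_bot ℂ).1 (eZ_ind fun m _ => B.mem_Col.1 h c (Nat.lt_succ_self c) m)

theorem eZ_d (e : n + 1 = j) (x : T) : eZ B p j (B.d x) = B.d (eZ B p n x) := by
  rcases lt_trichotomy j 0 with h | rfl | h
  · rw [eZ_neg h, eZ_neg (by omega), map_zero]
  · rw [eZ_nat (n := 0) (m := 0) rfl, B.ed0, eZ_neg (by omega), map_zero]
  · obtain ⟨m, rfl⟩ := Int.eq_ofNat_of_zero_le (show 0 ≤ n by omega)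
    rw [eZ_nat (m := m + 1) (by omega), eZ_nat rfl, B.ed]

theorem row_deg (h : x ∈ rowZ B p n) (e : p + n = j) : x ∈ degZ B j :=
  mem_degZ.2 fun p' q _ => mem_rowZ.1 h p' q (by omega)

theorem row_col (h : x ∈ rowZ B p n) (e : c ≤ p) : x ∈ B.Col c :=
  B.mem_Col.2 fun p' _ q => mem_rowZ.1 h p' q (by omega)

theorem row_d (h : x ∈ rowZ B p n) : B.d x ∈ rowZ B p (n + 1) :=
  meq (eZ_row p _ (B.d x)) (by rw [eZ_d rfl, eZ_of_row h])

theorem row_δ (h : x ∈ rowZ B p n) : B.δ x ∈ rowZ B (p + 1) n := mem_rowZ.2 fun p' q e => by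
  cases p' with
  | zero => exact B.eδ0 q x
  | succ p' => rw [B.eδ, mem_rowZ.1 h p' q (by omega), map_zero]

theorem deg_D (h : x ∈ degZ B n) : B.D x ∈ degZ B (n + 1) := mem_degZ.2 fun p q e => by
  have h1 : B.e p q (B.d x) = 0 := by
    cases q with
    | zero => exact B.ed0 p x
    | succ q => rw [B.ed, mem_degZ.1 h p q (by omega), map_zero]
  have h2 : B.e p q (B.δ x) = 0 := by
    cases p with
    | zero => exact B.eδ0 q x
    | succ p => rw [B.eδ, mem_degZ.1 h p q (by omega), map_zero]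
  rw [B.D_apply, map_add, h1, h2, add_zero]

theorem deg_ind {U : Submodule ℂ T} (h : x ∈ degZ B j)
    (hU : ∀ p m : ℕ, (p : ℤ) + m = j → B.e p m x ∈ U) : x ∈ U := by
  rcases lt_or_ge j 0 with h0 | h0
  · rw [degZ_neg B h0] at h
    exact meq U.zero_mem ((Submodule.mem_bot ℂ).1 h).symm
  · obtain ⟨m, rfl⟩ := Int.eq_ofNat_of_zero_le h0
    rw [degZ_nat] at h
    rw [← B.tr_of_mem h, BG.tr, LinearMap.sum_apply]
    exact U.sum_mem fun p hp => hU _ _ (by have := Finset.mem_range.1 hp; omega)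

theorem deg_zero (h : x ∈ degZ B j) (hc : x ∈ B.Col c) (e : j < c) : x = 0 :=
  B.ext x fun p m => by
    by_cases hp : p < c
    · exact B.mem_Col.1 hc p hp m
    · exact mem_degZ.1 h p m (by omega)

theorem sub_eZ (h : x ∈ degZ B j) (hc : x ∈ B.Col c) (e : c + n = j) :
    x - eZ B c n x ∈ B.Col (c + 1) := by
  rcases lt_or_ge n 0 with h0 | h0
  · rw [deg_zero h hc (by omega), map_zero, sub_zero]
    exact Submodule.zero_mem _
  · obtain ⟨m, rfl⟩ := Int.eq_ofNat_of_zero_le h0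
    rw [← e, ← Nat.cast_add, degZ_nat] at h
    rw [eZ_nat rfl]
    exact BG.sub_e_mem h hc rfl

theorem eZ_D (hc : x ∈ B.Col c) (e : n + 1 = j) : eZ B c j (B.D x) = B.d (eZ B c n x) := by
  rw [B.D_apply, map_add, eZ_d e, eZ_col (BG.δ_mem_col hc), add_zero]

end ez

/-- A double complex with allowed elements `U` and null elements `N`. -/
structure Bc (T : Type) [AddCommGroup T] [Module ℂ T] extends BG T where
  U : Submodule ℂ T
  N : Submodule ℂ T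
  eU : ∀ p n, ∀ x ∈ U, e p n x ∈ U
  dU : ∀ x ∈ U, d x ∈ U
  δU : ∀ x ∈ U, δ x ∈ U
  eN : ∀ p n, ∀ x ∈ N, e p n x ∈ N
  dN : ∀ x ∈ N, d x ∈ N
  δN : ∀ x ∈ N, δ x ∈ N

namespace Bc
variable (B : Bc T) (B' : Bc T')

/-- the total complex -/
def cx : Cx T where
  d := B.D
  G n := degZ B.toBG n ⊓ B.U
  N := B.N
  dG _ x hx := ⟨deg_D hx.1, B.U.add_mem (B.dU x hx.2) (B.δU x hx.2)⟩
  dN x hx := B.N.add_mem (B.dN x hx) (B.δN x hx)
  dd _ x _ := Cx.meq B.N.zero_mem (B.DD x).symm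

/-- the column `p`, graded by the rows -/
def col (p : ℕ) : Cx T where
  d := B.d
  G n := rowZ B.toBG p n ⊓ B.U
  N := B.N
  dG _ x hx := ⟨row_d hx.1, B.dU x hx.2⟩
  dN := B.dN
  dd _ x _ := Cx.meq B.N.zero_mem (B.dd x).symm

/-- the columns `≥ c` -/
def fil (c : ℕ) : Cx T := B.cx.sub (B.Col c) fun _ h => BG.D_mem_col h

theorem fil_zero : B.fil 0 = B.cx :=
  SC.ya3_ext rfl (funext fun _ => inf_eq_left.2 fun x _ => BG.col_zero x) rfl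

/-- the filtration by columns on cohomology -/
def W (j : ℤ) (c : ℕ) : Submodule ℂ (B.cx.H j) :=
  ((B.Col c).comap (B.cx.Z j).subtype).map (B.cx.cls j)

/-- a map of double complexes that shifts the rows by `s` -/
structure Mor (f : T →ₗ[ℂ] T') (s : ℤ) : Prop where
  fG : ∀ p n, ∀ x ∈ (B.col p).G n, f x ∈ (B'.col p).G (n + s)
  fN : ∀ x ∈ B.U, x ∈ B.N → f x ∈ B'.N
  fd : ∀ x ∈ B.U, f (B.d x) - B'.d (f x) ∈ B'.N
  fδ : ∀ x ∈ B.U, f (B.δ x) - B'.δ (f x) ∈ B'.N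

/-- cocycles of the previous column -/
def prev : ℕ → ℕ → Submodule ℂ T
  | 0, _ => ⊥
  | c + 1, n => (B.col c).Z n

/-- every class of the second page survives -/
def E2a : Prop := ∀ c n : ℕ, ∀ y ∈ (B.col c).Z n, B.δ y ∈ (B.col (c + 1)).B n →
  ∃ x ∈ (B.fil c).Z (c + n), B.e c n x - y ∈ (B.col c).B n

/-- no class of the second page is hit -/
def E2b : Prop := ∀ c n : ℕ, ∀ x ∈ (B.fil c).Z (c + n), x ∈ B.cx.B (c + n) ⊔ B.Col (c + 1) →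
  ∃ u ∈ B.prev c n, B.e c n x - B.δ u ∈ (B.col c).B n

/-- a group action -/
structure Act {Γ : Type} [Group Γ] (r : Γ →* Module.End ℂ T) : Prop where
  d : ∀ g x, r g (B.d x) = B.d (r g x)
  δ : ∀ g x, r g (B.δ x) = B.δ (r g x)
  e : ∀ g p n x, r g (B.e p n x) = B.e p n (r g x)
  U : ∀ g, ∀ x ∈ B.U, r g x ∈ B.U
  N : ∀ g, ∀ x ∈ B.N, r g x ∈ B.N

variable {B B'} {f : T →ₗ[ℂ] T'} {s k : ℤ} {c n : ℕ} {x : T}

open Cx (meq Gcast Zcast Bcast mem_B' mem_Z)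

theorem mem_filZ {j : ℤ} : x ∈ (B.fil c).Z j ↔ x ∈ B.cx.Z j ∧ x ∈ B.Col c := Cx.mem_subZ _

theorem mem_filB {i j : ℤ} (e : i + 1 = j) :
    x ∈ (B.fil c).B j ↔ ∃ b ∈ (B.fil c).G i, x - B.D b ∈ B.N := mem_B' e

theorem mem_cxB {i j : ℤ} (e : i + 1 = j) :
    x ∈ B.cx.B j ↔ ∃ b ∈ B.cx.G i, x - B.D b ∈ B.N := mem_B' e

theorem mem_colB {i j : ℤ} (e : i + 1 = j) :
    x ∈ (B.col c).B j ↔ ∃ b ∈ (B.col c).G i, x - B.d b ∈ B.N := mem_B' e

theorem filB_le {j : ℤ} : (B.fil c).B j ≤ B.cx.B j := Cx.subB_le _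

theorem eZ_N (h : x ∈ B.N) (p : ℕ) (i : ℤ) : eZ B.toBG p i x ∈ B.N :=
  eZ_ind fun m _ => B.eN p m x h

theorem eZ_G (h : x ∈ B.U) (p : ℕ) (i : ℤ) : eZ B.toBG p i x ∈ (B.col p).G i :=
  ⟨eZ_row p i x, eZ_ind fun m _ => B.eU p m x h⟩

theorem e_G (h : x ∈ B.U) (p m : ℕ) : B.e p m x ∈ (B.col p).G m :=
  meq (eZ_G h p m) (by rw [eZ_nat rfl])

theorem col_fil {p : ℕ} {i j : ℤ} (h : x ∈ (B.col p).G i) (e : p + i = j) (hc : c ≤ p) :
    x ∈ (B.fil c).G j := ⟨⟨row_deg h.1 e, h.2⟩, row_col h.1 hc⟩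

theorem δ_G {i : ℤ} (h : x ∈ (B.col c).G i) : B.δ x ∈ (B.col (c + 1)).G i :=
  ⟨row_δ h.1, B.δU x h.2⟩

theorem δ_Z {i : ℤ} (h : x ∈ (B.col c).Z i) : B.δ x ∈ (B.col (c + 1)).Z i :=
  mem_Z.2 ⟨δ_G h.1, meq (B.N.neg_mem (B.δN _ h.2)) (B.dδ x).symm⟩

theorem δ_B {i : ℤ} (h : x ∈ (B.col c).B i) : B.δ x ∈ (B.col (c + 1)).B i := by
  obtain ⟨b, hb, e⟩ := (mem_colB (sub_add_cancel i 1)).1 h
  exact (mem_colB (sub_add_cancel i 1)).2 ⟨-B.δ b, Submodule.neg_mem _ (δ_G hb),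
    meq (B.δN _ e) (by rw [map_sub, map_neg, B.dδ, neg_neg])⟩

theorem mem_cn {i j : ℤ} (h : x ∈ (B.fil c).G j) (e : c + i = j) :
    x ∈ B.Col (c + 1) ⊔ B.N ↔ eZ B.toBG c i x ∈ B.N := by
  refine ⟨fun hx => ?_, fun hx => Submodule.mem_sup.2
    ⟨_, sub_eZ h.1.1 h.2 e, _, hx, sub_add_cancel _ _⟩⟩
  obtain ⟨y, hy, z, hz, rfl⟩ := Submodule.mem_sup.1 hx
  rw [map_add, eZ_col hy, zero_add]
  exact eZ_N hz c i

theorem peel {j : ℤ} (h : x ∈ (B.fil c).G j) (hx : x ∈ B.Col (c + 1) ⊔ B.N) :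
    ∃ y ∈ (B.fil (c + 1)).G j, x - y ∈ B.N :=
  ⟨x - eZ B.toBG c (j - c) x, ⟨Submodule.sub_mem _ h.1
    (col_fil (eZ_G h.1.2 c (j - c)) (by ring) le_rfl).1, sub_eZ h.1.1 h.2 (by ring)⟩,
    meq ((mem_cn h (by ring)).1 hx) (sub_sub_cancel _ _).symm⟩

theorem peel_all {j : ℤ} (h : x ∈ B.cx.G j) (hx : x ∈ B.Col c ⊔ B.N) :
    ∃ y ∈ (B.fil c).G j, x - y ∈ B.N := by
  induction c with
  | zero => exact ⟨x, ⟨h, BG.col_zero x⟩, by simp⟩
  | succ c ih =>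
    obtain ⟨y, hy, e⟩ := ih ((sup_le_sup_right (show B.Col (c + 1) ≤ B.Col c from
      fun _ => BG.col_mono (Nat.le_succ c)) B.N) hx)
    obtain ⟨z, hz, e'⟩ := peel hy
      (meq (Submodule.sub_mem _ hx (Submodule.mem_sup_right e)) (sub_sub_cancel _ _))
    exact ⟨z, hz, meq (B.N.add_mem e e') (sub_add_sub_cancel _ _ _)⟩

theorem cn_D (c : ℕ) : ∀ x ∈ B.Col c ⊔ B.N, (B.fil n).d x ∈ B.Col c ⊔ B.N := fun x hx => by
  obtain ⟨y, hy, z, hz, rfl⟩ := Submodule.mem_sup.1 hx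
  rw [map_add]
  exact Submodule.add_mem_sup (BG.D_mem_col hy) (B.cx.dN z hz)

variable (B) in
/-- the graded piece -/
def gr (c : ℕ) : Cx T := (B.fil c).quo (B.Col (c + 1) ⊔ B.N) (cn_D _) le_sup_right

variable (B) in
/-- the next step of the filtration, up to null elements -/
def nx (c : ℕ) : Cx T := (B.fil c).sub (B.Col (c + 1) ⊔ B.N) (cn_D _)

theorem mem_grZ {i j : ℤ} (h : x ∈ (B.fil c).G j) (e : c + i = j) :
    x ∈ (B.gr c).Z j ↔ eZ B.toBG c i x ∈ (B.col c).Z i := by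
  have h1 := mem_cn (i := i + 1) ((B.fil c).dG j x h) (by omega)
  rw [show (B.fil c).d x = B.D x from rfl, eZ_D h.2 rfl] at h1
  exact ⟨fun a => ⟨eZ_G h.1.2 c i, h1.1 a.2⟩, fun a => ⟨h, h1.2 a.2⟩⟩

theorem mem_grB {i j : ℤ} (h : x ∈ (B.fil c).G j) (e : c + i = j) :
    x ∈ (B.gr c).B j ↔ eZ B.toBG c i x ∈ (B.col c).B i := by
  have h1 : ∀ b ∈ (B.fil c).G (j - 1), x - B.D b ∈ B.Col (c + 1) ⊔ B.N ↔
      eZ B.toBG c i x - B.d (eZ B.toBG c (i - 1) b) ∈ B.N := fun b hb => by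
    rw [← eZ_D hb.2 (sub_add_cancel i 1), ← map_sub]
    exact mem_cn (Submodule.sub_mem _ h (Gcast ((B.fil c).dG _ b hb) (by ring))) e
  refine ⟨fun a => ?_, fun a => ?_⟩
  · obtain ⟨b, hb, e'⟩ := Cx.mem_B.1 a
    exact (mem_colB (sub_add_cancel i 1)).2 ⟨_, eZ_G hb.1.2 c _, (h1 b hb).1 e'⟩
  · obtain ⟨b, hb, e'⟩ := (mem_colB (sub_add_cancel i 1)).1 a
    have h2 : b ∈ (B.fil c).G (j - 1) := col_fil hb (by omega) le_rfl
    exact Cx.mem_B.2 ⟨b, h2, (h1 b h2).2 (by rwa [eZ_of_row hb.1])⟩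

theorem grB_le {j : ℤ} : (B.gr c).B j ≤ B.cx.B j ⊔ B.Col (c + 1) := fun x hx => by
  obtain ⟨b, hb, e⟩ := Cx.mem_B.1 hx
  obtain ⟨y, hy, z, hz, e'⟩ := Submodule.mem_sup.1 e
  refine Submodule.mem_sup.2 ⟨x - y, Cx.mem_B.2 ⟨b, hb.1, meq hz ?_⟩, y, hy, sub_add_cancel _ _⟩
  rw [sub_right_comm]
  exact eq_sub_of_add_eq' e'

theorem fil_nx {j : ℤ} (h : x ∈ (B.fil (c + 1)).G j) : x ∈ (B.nx c).G j :=
  ⟨⟨h.1, BG.col_mono (Nat.le_succ c) h.2⟩, Submodule.mem_sup_left h.2⟩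

theorem nxB {j : ℤ} : (B.nx c).B j = (B.fil (c + 1)).B j := by
  ext x
  refine ⟨fun a => ?_, fun a => ?_⟩ <;> obtain ⟨b, hb, e⟩ := Cx.mem_B.1 a
  · obtain ⟨y, hy, e'⟩ := peel hb.1 hb.2
    exact (mem_filB (sub_add_cancel j 1)).2 ⟨y, hy, meq (B.N.add_mem e (B.cx.dN _ e'))
      (by rw [map_sub]; exact sub_add_sub_cancel _ _ _)⟩
  · exact Cx.mem_B.2 ⟨b, fil_nx hb, e⟩

theorem nxZ {j : ℤ} (h : x ∈ (B.nx c).Z j) : ∃ y ∈ (B.fil (c + 1)).Z j, x - y ∈ B.N := by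
  obtain ⟨y, hy, e⟩ := peel h.1.1 h.1.2
  exact ⟨y, mem_Z.2 ⟨hy, meq (B.N.sub_mem h.2 (B.cx.dN _ e))
    (by rw [map_sub]; exact sub_sub_cancel _ _)⟩, e⟩

theorem prev_spec {u : T} (h : u ∈ B.prev c n) :
    u ∈ B.cx.G (c + n - 1) ∧ B.d u ∈ B.N ∧ B.δ u ∈ (B.col c).Z n := by
  cases c with
  | zero =>
    rw [(Submodule.mem_bot ℂ).1 h, map_zero, map_zero]
    exact ⟨Submodule.zero_mem _, Submodule.zero_mem _, Submodule.zero_mem _⟩
  | succ c => exact ⟨(col_fil h.1 (by push_cast; ring) le_rfl).1, h.2, δ_Z h⟩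

theorem mem_W {j : ℤ} {x : B.cx.Z j} :
    B.cx.cls j x ∈ B.W j c ↔ ∃ y ∈ (B.fil c).Z j, x.1 - y ∈ B.cx.B j :=
  ⟨fun ⟨y, hy, e⟩ => ⟨y.1, mem_filZ.2 ⟨y.2, hy⟩, Cx.cls_eq.1 e.symm⟩,
    fun ⟨y, hy, e⟩ => ⟨⟨y, (mem_filZ.1 hy).1⟩, (mem_filZ.1 hy).2, (Cx.cls_eq.2 e).symm⟩⟩

/-- a cocycle in `B + Col c` is cohomologous to a cocycle in `Col c` -/
theorem exists_fil {j : ℤ} (hx : x ∈ B.cx.Z j) (h : x ∈ B.cx.B j ⊔ B.Col c) :
    ∃ y ∈ (B.fil c).Z j, x - y ∈ B.cx.B j := by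
  obtain ⟨z, hz, w, hw, e⟩ := Submodule.mem_sup.1 h
  obtain ⟨b, hb, e'⟩ := (mem_cxB (sub_add_cancel j 1)).1 hz
  have h1 : x - B.D b ∈ B.cx.Z j := Submodule.sub_mem _ hx (Zcast (Cx.d_mem_Z hb) (by ring))
  obtain ⟨y, hy, e2⟩ := peel_all h1.1 (meq (Submodule.add_mem_sup hw e') (by rw [← e]; abel))
  exact ⟨y, mem_Z.2 ⟨hy, meq (B.N.sub_mem h1.2 (B.cx.dN _ e2))
    (by rw [map_sub _ (x - B.D b)]; exact sub_sub_cancel _ _)⟩,
    (mem_cxB (sub_add_cancel j 1)).2 ⟨b, hb, meq e2 (sub_right_comm _ _ _)⟩⟩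

theorem W_zero (j : ℤ) : B.W j 0 = ⊤ := eq_top_iff.2 fun a _ => by
  obtain ⟨x, rfl⟩ := Cx.cls_surj j a
  exact ⟨x, BG.col_zero x.1, rfl⟩

theorem W_anti (j : ℤ) : Antitone (B.W j) :=
  fun _ _ h => Submodule.map_mono (Submodule.comap_mono fun _ => BG.col_mono h)

theorem W_big {j : ℤ} (h : j < c) : B.W j c = ⊥ := eq_bot_iff.2 fun _ ⟨y, hy, e⟩ => by
  rw [← e, Submodule.mem_bot, Cx.cls_eq_zero, deg_zero y.2.1.1 hy h]
  exact Submodule.zero_mem _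

theorem Mor.col (h : B.Mor B' f s) (p : ℕ) : (B.col p).Mor (B'.col p) f s :=
  ⟨h.fG p, fun _ x hx => h.fN x hx.2, fun _ x hx => h.fd x hx.2⟩

theorem Mor.cx (h : B.Mor B' f s) : B.cx.Mor B'.cx f s :=
  ⟨fun _ _ hx => deg_ind (U := (B'.cx.G _).comap f) hx.1 fun p m e =>
      (col_fil (h.fG p m _ (e_G hx.2 p m)) (by omega) le_rfl).1,
    fun _ x hx => h.fN x hx.2, fun _ x hx => meq (B'.N.add_mem (h.fd x hx.2) (h.fδ x hx.2))
      (by change _ = f (B.d x + B.δ x) - (B'.d (f x) + B'.δ (f x)); rw [map_add]; abel)⟩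

theorem Mor.col_mem (h : B.Mor B' f s) {j : ℤ} (hx : x ∈ B.cx.G j) (hc : x ∈ B.Col c) :
    f x ∈ B'.Col c := deg_ind (U := (B'.Col c).comap f) hx.1 fun p m _ => by
  by_cases hp : p < c
  · rw [B.mem_Col.1 hc p hp]
    exact Submodule.zero_mem _
  · exact row_col (h.fG p m _ (e_G hx.2 p m)).1 (not_lt.1 hp)

theorem Mor.fil (h : B.Mor B' f s) (c : ℕ) : (B.fil c).Mor (B'.fil c) f s :=
  Cx.Mor.sub _ _ h.cx fun _ _ hx hc => h.col_mem hx hc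

theorem Mor.eZ (h : B.Mor B' f s) {j : ℤ} (hx : x ∈ B.cx.G j) (p : ℕ) {i i' : ℤ}
    (e : i + s = i') : f (eZ B.toBG p i x) = eZ B'.toBG p i' (f x) := by
  refine sub_eq_zero.1 (deg_ind
    (U := LinearMap.ker (f ∘ₗ CS.eZ B.toBG p i - CS.eZ B'.toBG p i' ∘ₗ f)) hx.1 fun q m _ => ?_)
  have h1 := e_G hx.2 q m
  have h2 := (h.fG q m _ h1).1
  refine sub_eq_zero.2 (show f (CS.eZ _ p i _) = CS.eZ _ p i' (f _) from ?_)
  by_cases a : p = q ∧ i = m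
  · rw [← e, a.1, a.2, eZ_of_row h1.1, eZ_of_row h2]
  · rw [eZ_of_ne h1.1 a, eZ_of_ne h2 (by omega), map_zero]

theorem Mor.e (h : B.Mor B' f s) {j : ℤ} (hx : x ∈ B.cx.G j) (p : ℕ) {n n' : ℕ}
    (e : (n : ℤ) + s = n') : f (B.e p n x) = B'.e p n' (f x) := by
  have := h.eZ hx p e
  rwa [eZ_nat rfl, eZ_nat rfl] at this

theorem Mor.W (h : B.Mor B' f s) {j j' : ℤ} (e : j + s = j') (c : ℕ) :
    ∀ a ∈ B.W j c, h.cx.hm e a ∈ B'.W j' c := by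
  subst e
  rintro _ ⟨y, hy, rfl⟩
  exact ⟨⟨f y.1, h.cx.mem_Z y.2⟩, h.col_mem y.2.1 hy, rfl⟩

theorem Mor.cn (h : B.Mor B' f s) (c : ℕ) : ∀ j, ∀ x ∈ (B.fil c).G j, x ∈ B.Col (c + 1) ⊔ B.N →
    f x ∈ B'.Col (c + 1) ⊔ B'.N := fun j x hx a => by
  rw [mem_cn (i := j - c + s) ((h.fil c).fG j x hx) (by ring), ← h.eZ hx.1 c rfl]
  exact h.fN _ (eZ_G hx.1.2 c _).2 ((mem_cn hx (by ring)).1 a)

theorem qi_gr (h : B.Mor B' f s) (q : (B.col c).QI (B'.col c) f s (k - c)) :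
    (B.gr c).QI (B'.gr c) f s k := by
  refine ⟨fun j hj x hx a => ?_, fun j hj y hy => ?_⟩
  · have e : (c : ℤ) + (j - c) = j := by ring
    rw [mem_grB (i := j - c + s) ((h.fil c).fG j x hx.1) (by ring), ← h.eZ hx.1.1 c rfl] at a
    exact (mem_grB hx.1 e).2 (q.1 _ (by omega) _ ((mem_grZ hx.1 e).1 hx) a)
  · obtain ⟨x, hx, a⟩ := q.2 (j - c) (by omega) _ ((mem_grZ hy.1 (by ring)).1 hy)
    have h1 : x ∈ (B.fil c).G j := col_fil hx.1 (by ring) le_rfl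
    refine ⟨x, (mem_grZ (i := j - c) h1 (by ring)).2 (by rwa [eZ_of_row hx.1.1]),
      (mem_grB (i := j - c + s) (Submodule.sub_mem _ hy.1 ((h.fil c).fG j x h1)) (by ring)).2 ?_⟩
    rwa [map_sub, eZ_of_row (h.fG c _ x hx.1).1]

theorem qi_nx (h : B.Mor B' f s) (q : (B.fil (c + 1)).QI (B'.fil (c + 1)) f s k) :
    (B.nx c).QI (B'.nx c) f s k := by
  refine ⟨fun j hj x hx a => ?_, fun j hj y hy => ?_⟩
  · obtain ⟨y, hy, e⟩ := nxZ hx
    rw [nxB] at a ⊢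
    have h1 := h.fN _ (B.U.sub_mem hx.1.1.1.2 hy.1.1.2) e
    exact meq (Submodule.add_mem _ (Cx.N_le_B (C := B.fil (c + 1)) e) (q.1 j hj y hy
      (meq (Submodule.sub_mem _ a (Cx.N_le_B (C := B'.fil (c + 1)) h1))
        (by rw [map_sub, sub_sub_cancel])))) (sub_add_cancel _ _)
  · obtain ⟨y', hy', e⟩ := nxZ hy
    obtain ⟨x, hx, a⟩ := q.2 j hj y' hy'
    refine ⟨x, ⟨fil_nx hx.1, hx.2⟩, ?_⟩
    rw [nxB]
    exact meq (Submodule.add_mem _ (Cx.N_le_B (C := B'.fil (c + 1)) e) a) (sub_add_sub_cancel _ _ _)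

theorem filt (h : B.Mor B' f s) (q : ∀ p : ℕ, (B.col p).QI (B'.col p) f s (k - p)) (c : ℕ) :
    (B.fil c).QI (B'.fil c) f s k := by
  have key : ∀ m c : ℕ, k + |s| < c + m → (B.fil c).QI (B'.fil c) f s k := fun m => by
    induction m with
    | zero =>
      intro c hc
      have := le_abs_self s
      have := abs_nonneg s
      exact ⟨fun j hj => Cx.Ac.inj fun x hx =>
          meq (Submodule.zero_mem _) (deg_zero hx.1.1.1 hx.1.2 (by omega)).symm,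
        fun j hj => Cx.Ac.sur fun x hx =>
          meq (Submodule.zero_mem _) (deg_zero hx.1.1.1 hx.1.2 (by omega)).symm⟩
    | succ m ih =>
      intro c hc
      exact Cx.five_mid (cn_D _) le_sup_right (cn_D _) le_sup_right (h.fil c) (h.cn c)
        (qi_nx h (ih (c + 1) (by omega))) (qi_gr h (q c))
  exact key ((k + |s|).toNat + 1) c (by omega)

theorem filt_cx (h : B.Mor B' f s) (q : ∀ p : ℕ, (B.col p).QI (B'.col p) f s (k - p)) :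
    B.cx.QI B'.cx f s k := by
  have := filt h q 0
  rwa [fil_zero, fil_zero] at this

theorem filta (h : B.Mor B' f s) (q : ∀ p : ℕ, (B.col p).QIa (B'.col p) f s) (c : ℕ) :
    (B.fil c).QIa (B'.fil c) f s := fun k => filt h (fun p => q p (k - p)) c

theorem filta_cx (h : B.Mor B' f s) (q : ∀ p : ℕ, (B.col p).QIa (B'.col p) f s) :
    B.cx.QIa B'.cx f s := fun k => filt_cx h fun p => q p (k - p)

/-- a columnwise quasi-isomorphism reflects the filtration -/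
theorem filta_W (h : B.Mor B' f s) (q : ∀ p : ℕ, (B.col p).QIa (B'.col p) f s) {j j' : ℤ}
    (e : j + s = j') (c : ℕ) (a : B.cx.H j) : h.cx.hm e a ∈ B'.W j' c ↔ a ∈ B.W j c := by
  refine ⟨fun ha => ?_, h.W e c a⟩
  subst e
  obtain ⟨x, rfl⟩ := Cx.cls_surj j a
  obtain ⟨y', hy', e⟩ := mem_W.1 ha
  obtain ⟨y, hy, e'⟩ := (filta h q c).sur j y' hy'
  exact mem_W.2 ⟨y, hy, (filta_cx h q).inj j _ (Submodule.sub_mem _ x.2 (mem_filZ.1 hy).1)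
    (meq (Submodule.add_mem _ e (filB_le e'))
      (by rw [map_sub]; exact sub_add_sub_cancel _ _ _))⟩

theorem ac_of_col (h : ∀ p : ℕ, (B.col p).Ac (k - p)) : B.cx.Ac k := fun x hx => by
  have key : ∀ c : ℕ, ∃ y ∈ (B.fil c).Z k, x - y ∈ B.cx.B k := fun c => by
    induction c with
    | zero => exact ⟨x, mem_filZ.2 ⟨hx, BG.col_zero x⟩, by simp⟩
    | succ c ih =>
      obtain ⟨y, hy, e⟩ := ih
      have e0 : (c : ℤ) + (k - c) = k := by ring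
      obtain ⟨z, hz, e'⟩ := exists_fil (mem_filZ.1 hy).1 (grB_le ((mem_grB hy.1 e0).2
        (h c ((mem_grZ hy.1 e0).1 (Cx.Z_le_quo _ _ hy)))))
      exact ⟨z, hz, meq (Submodule.add_mem _ e e') (sub_add_sub_cancel _ _ _)⟩
  obtain ⟨y, hy, e⟩ := key (k.toNat + 1)
  rwa [deg_zero hy.1.1.1 hy.1.2 (by omega), sub_zero] at e

theorem lead_Z (hx : x ∈ (B.fil c).Z (c + n)) :
    B.e c n x ∈ (B.col c).Z n ∧ B.δ (B.e c n x) ∈ (B.col (c + 1)).B n := by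
  have h1 := (mem_grZ hx.1 rfl).1 (Cx.Z_le_quo _ _ hx)
  rw [eZ_nat rfl] at h1
  refine ⟨h1, (mem_colB (sub_add_cancel _ 1)).2
    ⟨_, Submodule.neg_mem _ (eZ_G hx.1.1.2 (c + 1) _), meq (B.eN (c + 1) n _ hx.2) ?_⟩⟩
  rw [map_neg, ← eZ_d (sub_add_cancel _ 1), eZ_nat rfl, ← B.eδ, sub_neg_eq_add, ← map_add,
    add_comm (B.δ x)]
  rfl

theorem lead_B (hx : x ∈ (B.fil c).Z (c + n)) {u : T} (hu : u ∈ B.prev c n)
    (h : B.e c n x - B.δ u ∈ (B.col c).B n) :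
    ∃ y ∈ (B.fil (c + 1)).Z (c + n), x - y ∈ B.cx.B (c + n) := by
  obtain ⟨b, hb, e⟩ := (mem_colB (sub_add_cancel _ 1)).1 h
  obtain ⟨a1, a2, -⟩ := prev_spec hu
  have h1 := sub_eZ (n := n) hx.1.1.1 hx.1.2 rfl
  rw [eZ_nat rfl] at h1
  refine exists_fil (mem_filZ.1 hx).1 (meq (Submodule.add_mem_sup
    ((mem_cxB (x := x - (x - B.e c n x - B.δ b)) (sub_add_cancel _ 1)).2 ⟨u + b,
      Submodule.add_mem _ a1 (col_fil hb (by ring) le_rfl).1, meq (B.N.sub_mem e a2) ?_⟩)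
    (Submodule.sub_mem _ h1 (row_col (row_δ hb.1) le_rfl))) (sub_add_cancel _ _))
  simp only [BG.D_apply, map_add]
  abel

theorem lead_fil_B (hx : x ∈ (B.fil c).G (c + n)) (h : x ∈ (B.fil c).B (c + n)) :
    B.e c n x ∈ (B.col c).B n := by
  have h1 := (mem_grB hx rfl).1 (Cx.B_le_quo _ _ h)
  rwa [eZ_nat rfl] at h1

theorem Mor.prev (h : B.Mor B' f 0) {u : T} (hu : u ∈ B.prev c n) : f u ∈ B'.prev c n := by
  cases c with
  | zero =>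
    rw [(Submodule.mem_bot ℂ).1 hu, map_zero]
    exact Submodule.zero_mem _
  | succ c => exact Zcast ((h.col c).mem_Z hu) (add_zero _)

theorem prev_sur (q : ∀ p : ℕ, (B.col p).QIa (B'.col p) f 0) {u' : T'} (hu : u' ∈ B'.prev c n) :
    ∃ u ∈ B.prev c n, B'.δ (u' - f u) ∈ (B'.col c).B n := by
  cases c with
  | zero => exact ⟨0, Submodule.zero_mem _, by simp [(Submodule.mem_bot ℂ).1 hu]⟩
  | succ c =>
    obtain ⟨u, a, e⟩ := (q c).sur n u' (Zcast hu (add_zero _).symm)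
    exact ⟨u, a, δ_B (Bcast e (add_zero _))⟩

theorem e2a_iff (h : B.Mor B' f 0) (q : ∀ p : ℕ, (B.col p).QIa (B'.col p) f 0) :
    B.E2a ↔ B'.E2a := by
  refine ⟨fun a c n y' hy' hδ => ?_, fun a c n y hy hδ => ?_⟩
  · obtain ⟨y, hy, e⟩ := (q c).sur n y' (Zcast hy' (add_zero _).symm)
    have e := Bcast e (add_zero _)
    obtain ⟨x, hx, e'⟩ := a c n y hy ((q (c + 1)).inj n _ (δ_Z hy) (Bcast (meq (Submodule.add_mem _
      (Submodule.sub_mem _ hδ (δ_B e)) (Cx.N_le_B (C := B'.col (c + 1)) (h.fδ y hy.1.2)))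
      (by rw [map_sub]; abel)) (add_zero _).symm))
    refine ⟨f x, Zcast ((h.fil c).mem_Z hx) (add_zero _), meq (Submodule.sub_mem _ (Bcast
      ((h.col c).mem_B (Submodule.sub_mem _ (lead_Z hx).1.1 hy.1) e') (add_zero _)) e) ?_⟩
    rw [map_sub, h.e hx.1.1 c (add_zero _)]
    abel
  · obtain ⟨x', hx', e⟩ := a c n (f y) (Zcast ((h.col c).mem_Z hy) (add_zero _))
      (meq (Submodule.sub_mem _ (Bcast ((h.col (c + 1)).mem_B (δ_G hy.1) hδ) (add_zero _))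
        (Cx.N_le_B (C := B'.col (c + 1)) (h.fδ y hy.1.2))) (sub_sub_cancel _ _))
    obtain ⟨x, hx, e'⟩ := (filta h q c).sur _ x' (Zcast hx' (add_zero _).symm)
    have h1 := lead_fil_B (Submodule.sub_mem _ hx'.1 (Gcast ((h.fil c).fG _ x hx.1) (add_zero _)))
      (Bcast e' (add_zero _))
    refine ⟨x, hx, (q c).inj n _ (Submodule.sub_mem _ (lead_Z hx).1 hy)
      (Bcast (meq (Submodule.sub_mem _ e h1) ?_) (add_zero _).symm)⟩
    rw [map_sub, map_sub, h.e hx.1.1 c (add_zero _)]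
    abel

theorem e2b_iff (h : B.Mor B' f 0) (q : ∀ p : ℕ, (B.col p).QIa (B'.col p) f 0) :
    B.E2b ↔ B'.E2b := by
  refine ⟨fun a c n x' hx' hb => ?_, fun a c n x hx hb => ?_⟩
  · obtain ⟨x, hx, e⟩ := (filta h q c).sur _ x' (Zcast hx' (add_zero _).symm)
    have e := Bcast e (add_zero _)
    have hz := (mem_filZ.1 hx).1
    obtain ⟨y, hy, e1⟩ := mem_W.1 ((filta_W h q (add_zero _) (c + 1) (B.cx.cls _ ⟨x, hz⟩)).1
      (mem_W.2 (exists_fil (Zcast (h.cx.mem_Z hz) (add_zero _))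
        (meq (Submodule.sub_mem _ hb (Submodule.mem_sup_left (filB_le e))) (sub_sub_cancel _ _)))))
    obtain ⟨u, hu, e2⟩ := a c n x hx (meq (Submodule.add_mem_sup e1 hy.1.2) (sub_add_cancel _ _))
    obtain ⟨a1, -, a3⟩ := prev_spec hu
    refine ⟨f u, h.prev hu, meq (Submodule.add_mem _ (Submodule.add_mem _ (lead_fil_B
      (Submodule.sub_mem _ hx'.1 (Gcast ((h.fil c).fG _ x hx.1) (add_zero _))) e)
      (Bcast ((h.col c).mem_B (Submodule.sub_mem _ (lead_Z hx).1.1 a3.1) e2) (add_zero _)))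
      (Cx.N_le_B (C := B'.col c) (h.fδ u a1.2))) ?_⟩
    rw [map_sub, map_sub, h.e hx.1.1 c (add_zero _)]
    abel
  · have hz := (mem_filZ.1 hx).1
    obtain ⟨y, hy, e⟩ := exists_fil hz hb
    obtain ⟨u', hu', e1⟩ := a c n (f x) (Zcast ((h.fil c).mem_Z hx) (add_zero _))
      (meq (Submodule.add_mem_sup (Bcast (h.cx.mem_B (Submodule.sub_mem _ hz.1 hy.1.1) e)
        (add_zero _)) (h.col_mem hy.1.1 hy.1.2)) (by rw [map_sub, sub_add_cancel]))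
    obtain ⟨u, hu, e2⟩ := prev_sur q hu'
    obtain ⟨a1, -, a3⟩ := prev_spec hu
    refine ⟨u, hu, (q c).inj n _ (Submodule.sub_mem _ (lead_Z hx).1 a3) (Bcast (meq
      (Submodule.sub_mem _ (Submodule.add_mem _ e1 e2)
        (Cx.N_le_B (C := B'.col c) (h.fδ u a1.2))) ?_) (add_zero _).symm)⟩
    rw [map_sub, map_sub, h.e hz.1 c (add_zero _)]
    abel

section act
variable {Γ : Type} [Group Γ] {r : Γ →* Module.End ℂ T}

/-- the invariant double complex -/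
def Act.inv (h : B.Act r) : Bc T :=
  { B with
    U := B.U ⊓ Fix r
    eU := fun p n x hx => ⟨B.eU p n x hx.1, mem_Fix.2 fun g => by rw [h.e, mem_Fix.1 hx.2]⟩
    dU := fun x hx => ⟨B.dU x hx.1, mem_Fix.2 fun g => by rw [h.d, mem_Fix.1 hx.2]⟩
    δU := fun x hx => ⟨B.δU x hx.1, mem_Fix.2 fun g => by rw [h.δ, mem_Fix.1 hx.2]⟩ }

theorem Act.cx (h : B.Act r) : B.cx.Act r :=
  ⟨fun g x => by
      change r g (B.d x + B.δ x) = B.d (r g x) + B.δ (r g x)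
      rw [map_add, h.d, h.δ],
    fun g _ x hx => ⟨mem_degZ.2 fun p q e => by rw [← h.e, mem_degZ.1 hx.1 p q e, map_zero],
      h.U g x hx.2⟩, h.N⟩

theorem Act.col (h : B.Act r) (p : ℕ) : (B.col p).Act r :=
  ⟨h.d, fun g _ x hx => ⟨mem_rowZ.2 fun p q e => by rw [← h.e, mem_rowZ.1 hx.1 p q e, map_zero],
    h.U g x hx.2⟩, h.N⟩

theorem Act.fil (h : B.Act r) (c : ℕ) : (B.fil c).Act r :=
  ⟨h.cx.d, fun g n x hx => ⟨h.cx.G g n x hx.1, B.mem_Col.2 fun p hp q => by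
    rw [← h.e, B.mem_Col.1 hx.2 p hp q, map_zero]⟩, h.N⟩

theorem Act.inv_cx (h : B.Act r) : h.inv.cx = h.cx.inv :=
  SC.ya3_ext rfl (funext fun _ => (inf_assoc _ _ _).symm) rfl

theorem Act.inv_col (h : B.Act r) (p : ℕ) : h.inv.col p = (h.col p).inv :=
  SC.ya3_ext rfl (funext fun _ => (inf_assoc _ _ _).symm) rfl

theorem Act.inv_fil (h : B.Act r) (c : ℕ) : h.inv.fil c = (h.fil c).inv :=
  SC.ya3_ext rfl (funext fun _ => Submodule.ext fun _ =>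
    ⟨fun a => ⟨⟨⟨a.1.1, a.1.2.1⟩, a.2⟩, a.1.2.2⟩, fun a => ⟨⟨a.1.1.1, a.1.1.2, a.2⟩, a.1.2⟩⟩) rfl

theorem Act.mor_inc (h : B.Act r) : h.inv.Mor B LinearMap.id 0 :=
  ⟨fun p n _ hx => Gcast (C := B.col p) ⟨hx.1, hx.2.1⟩ (add_zero n).symm, fun _ _ a => a,
    fun x _ => meq B.N.zero_mem (sub_self (B.d x)).symm,
    fun x _ => meq B.N.zero_mem (sub_self (B.δ x)).symm⟩

variable [Fintype Γ]

theorem Act.avg_filZ (h : B.Act r) {j : ℤ} (hx : x ∈ (B.fil c).Z j) :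
    avg r x ∈ (h.inv.fil c).Z j := by
  rw [h.inv_fil]
  exact Zcast ((h.fil c).mor_avg.mem_Z hx) (add_zero _)

theorem Act.avg_colB (h : B.Act r) {j : ℤ} (hx : x ∈ (B.col c).B j) :
    avg r x ∈ (h.inv.col c).B j := by
  rw [h.inv_col]
  exact (h.col c).ya3_B hx

theorem Act.e2a (h : B.Act r) (a : B.E2a) : h.inv.E2a := fun c n y hy hδ => by
  obtain ⟨x, hx, e⟩ := a c n y (Zcast ((h.mor_inc.col c).mem_Z hy) (add_zero _))
    (Bcast ((h.mor_inc.col (c + 1)).mem_B (δ_G hy.1) hδ) (add_zero _))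
  refine ⟨avg r x, h.avg_filZ hx, meq (h.avg_colB e) ?_⟩
  rw [map_sub, avg_of_mem hy.1.2.2, ← ya3_comm (f := B.e c n) fun g x => (h.e g c n x).symm]
  rfl

theorem Act.e2b (h : B.Act r) (a : B.E2b) : h.inv.E2b := fun c n x hx hb => by
  have hz := (mem_filZ.1 hx).1
  obtain ⟨y, hy, e⟩ := exists_fil hz hb
  obtain ⟨u, hu, e1⟩ := a c n x (Zcast ((h.mor_inc.fil c).mem_Z hx) (add_zero _))
    (meq (Submodule.add_mem_sup (Bcast (h.mor_inc.cx.mem_B (Submodule.sub_mem _ hz.1 hy.1.1) e)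
      (add_zero _)) hy.1.2) (sub_add_cancel _ _))
  refine ⟨avg r u, ?_, meq (h.avg_colB e1) ?_⟩
  · cases c with
    | zero =>
      rw [(Submodule.mem_bot ℂ).1 hu, map_zero]
      exact Submodule.zero_mem _
    | succ c =>
      change _ ∈ (h.inv.col c).Z n
      rw [h.inv_col]
      exact Zcast ((h.col c).mor_avg.mem_Z hu) (add_zero _)
  · rw [map_sub, ← ya3_comm (f := B.e c n) fun g x => (h.e g c n x).symm, avg_of_mem hz.1.2.2,
      ← ya3_comm (f := B.δ) fun g x => (h.δ g x).symm]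
    rfl

theorem Act.inc_W (h : B.Act r) (j : ℤ) (c : ℕ) (a : h.inv.cx.H j) :
    h.mor_inc.cx.hm (add_zero j) a ∈ B.W j c ↔ a ∈ h.inv.W j c := by
  refine ⟨fun ha => ?_, h.mor_inc.W _ c a⟩
  obtain ⟨x, rfl⟩ := Cx.cls_surj j a
  obtain ⟨y, hy, e⟩ := mem_W.1 ha
  refine mem_W.2 ⟨avg r y, h.avg_filZ hy, ?_⟩
  have h1 := h.cx.ya3_B e
  rw [← h.inv_cx, map_sub] at h1
  exact meq h1 (congrArg (· - avg r y) (avg_of_mem x.2.1.2.2))

end act

end Bc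

/-- a double complex without extra data -/
def bcOf (B : BG T) : Bc T :=
  { B with
    U := ⊤
    N := ⊥
    eU := fun _ _ _ _ => trivial
    dU := fun _ _ => trivial
    δU := fun _ _ => trivial
    eN := fun _ _ _ h => by rw [(Submodule.mem_bot ℂ).1 h, map_zero]; rfl
    dN := fun _ h => by rw [(Submodule.mem_bot ℂ).1 h, map_zero]; rfl
    δN := fun _ h => by rw [(Submodule.mem_bot ℂ).1 h, map_zero]; rfl }

theorem kd_e2a (K : KD T) : (bcOf K.toBG).E2a := fun c n y hy hδ => by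
  obtain ⟨b, hb, e⟩ := (Bc.mem_colB (sub_add_cancel _ 1)).1 hδ
  have e : K.δ y - K.d b = 0 := e
  have hd : K.d y = 0 := hy.2
  have h1 : y - b ∈ degZ K.toBG (c + n : ℕ) :=
    Submodule.sub_mem _ (row_deg hy.1.1 (by omega)) (row_deg hb.1 (by omega))
  have h2 : y - b ∈ K.Col c :=
    Submodule.sub_mem _ (row_col hy.1.1 le_rfl) (row_col hb.1 (Nat.le_succ c))
  rw [degZ_nat] at h1
  obtain ⟨z, hz, e'⟩ := KD.raise h1 h2 (Cx.meq (Submodule.neg_mem _ (row_col (row_δ hb.1) le_rfl))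
    (by
      rw [BG.D_apply, map_sub, map_sub, hd, sub_eq_zero.1 e]
      abel))
  have h3 : y - b - z ∈ degZ K.toBG (c + n : ℕ) := by
    rw [degZ_nat]
    exact Submodule.sub_mem _ h1 hz.1
  refine ⟨y - b - z, ⟨⟨⟨h3, trivial⟩, Submodule.sub_mem _ h2 (BG.col_mono (Nat.le_succ c) hz.2)⟩,
    show K.D _ = 0 by rw [map_sub, e', sub_self]⟩, Cx.meq (Submodule.zero_mem _) ?_⟩
  have h4 := eZ_of_row hy.1.1
  rw [eZ_nat rfl] at h4
  change 0 = K.e c n _ - y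
  rw [map_sub, map_sub, K.mem_Col.1 hz.2 c (Nat.lt_succ_self c),
    K.mem_Col.1 (row_col hb.1 le_rfl) c (Nat.lt_succ_self c), sub_zero, sub_zero]
  exact (sub_eq_zero.2 h4).symm

theorem kd_e2b (K : KD T) : (bcOf K.toBG).E2b := fun c n x hx hb => by
  obtain ⟨z', hz', w, hw, e⟩ := Submodule.mem_sup.1 hb
  obtain ⟨z, -, e1⟩ := (Bc.mem_cxB (sub_add_cancel _ 1)).1 hz'
  have e1 : z' = K.D z := sub_eq_zero.1 e1
  obtain ⟨u, hu, v, e2⟩ := KD.degen (K := K) (z := z) (c := c) (Cx.meq (Submodule.sub_mem _ hx.1.2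
    (BG.col_mono (Nat.le_succ c) hw)) (by rw [← e, e1, add_sub_cancel_right])) n
  have h1 : K.e c n x - K.δ u = K.d v := by
    rw [← e, e1, map_add, K.mem_Col.1 hw c (Nat.lt_succ_self c), e2]
    abel
  have h2 : K.d v ∈ rowZ K.toBG c n := by
    rw [rowZ_nat, ← h1]
    exact Submodule.sub_mem _ (K.e_mem c n x) hu.2
  have h3 : K.e c n x - K.δ u ∈ ((bcOf K.toBG).col c).B n :=
    (Bc.mem_colB (sub_add_cancel _ 1)).2 ⟨eZ K.toBG c (n - 1) v, ⟨eZ_row _ _ _, trivial⟩,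
      sub_eq_zero.2 (by rw [h1, ← eZ_of_row h2, eZ_d (sub_add_cancel _ 1)]; rfl)⟩
  cases c with
  | zero =>
    have h4 : K.δ u = 0 := (K.mem_H.1 hu.2).symm.trans (K.eδ0 n u)
    exact ⟨0, Submodule.zero_mem _, by rwa [h4, ← map_zero K.δ] at h3⟩
  | succ c => exact ⟨u, ⟨⟨by rw [rowZ_nat]; exact hu.1.2, trivial⟩, hu.1.1.1⟩, h3⟩

end Pool.Agent.CS
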