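import Pool.Agent.K.MP_d34769_ag.C25
import Pool.Agent.K.MP_d34769_ag.C27
import Pool.Agent.P.MP_65ad7c_ag.HTwo

/-! The mixed Hodge structure of a double complex with Hodge theory. -/

open Pool.Agent.HT (BG KD EGe)

noncomputable section
namespace Pool.Agent.CS

variable {T T' T'' : Type} [AddCommGroup T] [Module ℂ T] [AddCommGroup T'] [Module ℂ T']
  [AddCommGroup T''] [Module ℂ T'']

namespace Cx
variable {C : Cx T} {C' : Cx T'} {D : Cx T''} {f : T →ₗ[ℂ] T''} {g : T' →ₗ[ℂ] T''} {n : ℤ}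

theorem QIa.bij (h : C.Mor D f 0) (q : C.QIa D f 0) (n : ℤ) :
    Function.Bijective (h.hm (add_zero n)) :=
  ⟨(h.inj_iff _).1 (q.inj n), (h.sur_iff _).1 (q.sur n)⟩

/-- the isomorphism given by two quasi-isomorphisms with the same target -/
def zig (h : C.Mor D f 0) (h' : C'.Mor D g 0) (q : C.QIa D f 0) (q' : C'.QIa D g 0) (n : ℤ) :
    C.H n ≃ₗ[ℂ] C'.H n :=
  (LinearEquiv.ofBijective _ (q.bij h n)).trans (LinearEquiv.ofBijective _ (q'.bij h' n)).symm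

theorem zig_eq (h : C.Mor D f 0) (h' : C'.Mor D g 0) (q : C.QIa D f 0) (q' : C'.QIa D g 0)
    {a : C.H n} {b : C'.H n} :
    zig h h' q q' n a = b ↔ h.hm (add_zero n) a = h'.hm (add_zero n) b :=
  LinearEquiv.symm_apply_eq _

theorem zig_cls (h : C.Mor D f 0) (h' : C'.Mor D g 0) (q : C.QIa D f 0) (q' : C'.QIa D g 0)
    {a : C.Z n} {b : C'.Z n} :
    zig h h' q q' n (C.cls n a) = C'.cls n b ↔ f a.1 - g b.1 ∈ D.B n := by
  rw [zig_eq, Mor.hm_cls, Mor.hm_cls, cls_eq]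

variable (C) in
/-- the classes that have a representative in `U` -/
def im (n : ℤ) (U : Submodule ℂ T) : Submodule ℂ (C.H n) :=
  (U.comap (C.Z n).subtype).map (C.cls n)

theorem mem_im {U : Submodule ℂ T} {x : C.Z n} :
    C.cls n x ∈ C.im n U ↔ ∃ y ∈ C.Z n, y ∈ U ∧ x.1 - y ∈ C.B n :=
  ⟨fun ⟨y, hy, e⟩ => ⟨y.1, y.2, hy, cls_eq.1 e.symm⟩,
    fun ⟨y, hy, hU, e⟩ => ⟨⟨y, hy⟩, hU, (cls_eq.2 e).symm⟩⟩

theorem im_mono {U U' : Submodule ℂ T} (h : U ≤ U') : C.im n U ≤ C.im n U' :=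
  Submodule.map_mono (Submodule.comap_mono h)

theorem im_top {U : Submodule ℂ T} (h : ∀ x ∈ C.Z n, x ∈ U) : C.im n U = ⊤ :=
  eq_top_iff.2 fun a _ => by
    obtain ⟨x, rfl⟩ := cls_surj n a
    exact ⟨x, h _ x.2, rfl⟩

theorem Mor.im (h : C.Mor D f 0) {U : Submodule ℂ T} {U' : Submodule ℂ T''}
    (e : ∀ x ∈ C.Z n, x ∈ U → f x ∈ U') : ∀ a ∈ C.im n U, h.hm (add_zero n) a ∈ D.im n U' := by
  rintro _ ⟨x, hx, rfl⟩
  exact ⟨_, e _ x.2 hx, (h.hm_cls _ x).symm⟩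

end Cx

theorem eigs_map {κ : Type} {Q : κ → Prop} {μ : κ → ℂ} {g : Module.End ℂ T} {g' : Module.End ℂ T'}
    (f : T →ₗ[ℂ] T') (e : ∀ x, f (g x) = g' (f x)) {x : T}
    (hx : x ∈ ⨆ (b : κ) (_ : Q b), g.eigenspace (μ b)) :
    f x ∈ ⨆ (b : κ) (_ : Q b), g'.eigenspace (μ b) := by
  refine (iSup₂_le fun b hb y hy => ?_ :
    _ ≤ (⨆ (b : κ) (_ : Q b), g'.eigenspace (μ b)).comap f) hx
  refine (le_iSup₂_of_le (f := fun (b : κ) (_ : Q b) => g'.eigenspace (μ b)) b hb le_rfl) ?_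
  rw [Module.End.mem_eigenspace_iff] at hy ⊢
  rw [← e, hy, map_smul]

theorem eigs_pi {κ ι : Type} [Finite ι] {Q : κ → Prop} {μ : κ → ℂ} {V : ι → Type}
    [∀ i, AddCommGroup (V i)] [∀ i, Module ℂ (V i)] {g : ∀ i, Module.End ℂ (V i)}
    {G : Module.End ℂ (∀ i, V i)} (hG : ∀ x i, G x i = g i (x i)) {x : ∀ i, V i} :
    x ∈ ⨆ (b : κ) (_ : Q b), G.eigenspace (μ b) ↔
      ∀ i, x i ∈ ⨆ (b : κ) (_ : Q b), (g i).eigenspace (μ b) := by
  classical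
  have := Fintype.ofFinite ι
  refine ⟨fun h i => eigs_map (LinearMap.proj i) (fun y => hG y i) h, fun h => ?_⟩
  rw [← Finset.univ_sum_single x]
  refine Submodule.sum_mem _ fun i _ => eigs_map (LinearMap.single ℂ V i) (fun y => ?_) (h i)
  funext k
  rw [hG]
  exact (Pi.apply_single (fun i => g i) (fun i => map_zero _) i y k).symm

theorem kd_F0 (K : KD T) (x : T) : x ∈ K.F 0 := KD.mem_F'.2 fun p n =>
  HT.Sp.mono (S := KD.sv n) (fun _ hl => by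
    obtain ⟨b, -, e⟩ := hl
    rw [HT.mem_GE, e, KD.im_sv]
    have : (0 : ℝ) ≤ b := b.cast_nonneg
    push_cast
    linarith) le_rfl (KD.sp_of_H (K.e_mem p n x))

/-- `C` is the total complex of `K` -/
structure IsKC (K : KD T) (C : Cx T) : Prop where
  d : C.d = K.D
  G : C.G = degZ K.toBG
  N : C.N = ⊥

namespace IsKC
variable {K : KD T} {C : Cx T} {K' : KD T'} {C' : Cx T'} {j : ℕ} {x : T}

theorem mem_Z (h : IsKC K C) : x ∈ C.Z j ↔ x ∈ K.Deg j ∧ K.D x = 0 := by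
  rw [Cx.mem_Z, h.G, h.d, h.N, degZ_nat, Submodule.mem_bot]

theorem mem_B (h : IsKC K C) (hx : x ∈ K.Deg j) : x ∈ C.B j ↔ ∃ z, x = K.D z := by
  rw [Cx.mem_B, h.G, h.d, h.N]
  refine ⟨fun ⟨b, _, e⟩ => ⟨b, sub_eq_zero.1 e⟩, fun ⟨z, e⟩ => ?_⟩
  have e' : x = K.tr j (K.D z) := by rw [← e, K.tr_of_mem hx]
  cases j with
  | zero => exact ⟨0, zero_mem _, by rw [e', K.tr_D_zero]; simp⟩
  | succ j =>
    refine ⟨K.tr j z, ?_, by rw [e', K.tr_D, sub_self]; exact zero_mem _⟩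
    rw [Nat.cast_succ, add_sub_cancel_right, degZ_nat]
    exact K.tr_mem j z

theorem mem_im (h : IsKC K C) {U : Submodule ℂ T} (hU : ∀ y ∈ U, K.tr j y ∈ U) {x : C.Z j} :
    C.cls j x ∈ C.im j U ↔ ∃ z, x.1 - K.D z ∈ U := by
  have hx := h.mem_Z.1 x.2
  rw [Cx.mem_im]
  constructor
  · rintro ⟨y, hy, hU, e⟩
    obtain ⟨z, hz⟩ := (h.mem_B (sub_mem hx.1 (h.mem_Z.1 hy).1)).1 e
    exact ⟨z, by rwa [← hz, sub_sub_cancel]⟩
  · rintro ⟨z, hz⟩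
    obtain ⟨z', hz'⟩ := K.tr_D_ex j z
    have e : K.tr j (x.1 - K.D z) = x.1 - K.D z' := by rw [map_sub, K.tr_of_mem hx.1, hz']
    have h1 : x.1 - K.D z' ∈ K.Deg j := e ▸ K.tr_mem j _
    exact ⟨x.1 - K.D z', h.mem_Z.2 ⟨h1, by rw [map_sub, hx.2, K.DD, sub_zero]⟩, e ▸ hU _ hz,
      (h.mem_B (sub_mem hx.1 h1)).2 ⟨z', sub_sub_cancel _ _⟩⟩

theorem mem_imC (h : IsKC K C) {c : ℕ} {x : C.Z j} :
    C.cls j x ∈ C.im j (K.Col c) ↔ ∃ z, x.1 - K.D z ∈ K.Col c :=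
  h.mem_im fun _ hy => BG.tr_mem_col hy j

theorem mem_imF (h : IsKC K C) {b : ℕ} {x : C.Z j} :
    C.cls j x ∈ C.im j (K.F b) ↔ ∃ z, x.1 - K.D z ∈ K.F b :=
  h.mem_im fun _ hy => KD.tr_mem_F hy j

theorem mem_imFb (h : IsKC K C) {b : ℕ} {x : C.Z j} :
    C.cls j x ∈ C.im j (K.Fb b) ↔ ∃ z, x.1 - K.D z ∈ K.Fb b :=
  h.mem_im fun _ hy => KD.tr_mem_F (K := K.neg) hy j

/-- the mixed Hodge structure -/
def mhs (h : IsKC K C) (j : ℕ) : MHS (C.H j) j where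
  W c := C.im j (K.Col c)
  F b := C.im j (K.F b)
  Fb b := C.im j (K.Fb b)
  aW _ _ e := Cx.im_mono fun _ hx => BG.col_mono e hx
  aF _ _ e := Cx.im_mono fun _ hx => KD.F_mono e hx
  aFb _ _ e := Cx.im_mono fun _ hx => KD.F_mono (K := K.neg) e hx
  W0 := Cx.im_top fun x _ => BG.col_zero x
  Wj := eq_bot_iff.2 (by
    rintro _ ⟨x, hx, rfl⟩
    rw [show x = 0 from Subtype.ext (BG.eq_zero_of_lt (h.mem_Z.1 x.2).1 hx j.lt_succ_self),
      map_zero]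
    exact zero_mem _)
  F0 := Cx.im_top fun x _ => kd_F0 K x
  Fb0 := Cx.im_top fun x _ => kd_F0 K.neg x
  span c b b' e := by
    rintro _ ⟨x, hx, rfl⟩
    have hz := h.mem_Z.1 x.2
    obtain ⟨f, hf, f', hf', z, h1, h2, h3⟩ := K.span_two (N := j) (c := c) (b := b) (b' := b')
      (by omega) ⟨hz.1, hx⟩ hz.2
    let u : C.Z j := ⟨f, h.mem_Z.2 ⟨hf.1.1, h1⟩⟩
    let u' : C.Z j := ⟨f', h.mem_Z.2 ⟨hf'.1.1, h2⟩⟩
    rw [show x = u + u' + (x - u - u') by abel, map_add, map_add]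
    exact Submodule.add_mem_sup (Submodule.add_mem_sup ⟨⟨u, hf.1.2, rfl⟩, u, hf.2, rfl⟩
      ⟨⟨u', hf'.1.2, rfl⟩, u', hf'.2, rfl⟩) (h.mem_imC.2 ⟨z, h3⟩)
  disj c b b' e a ha a' ha' h3 := by
    obtain ⟨x, rfl⟩ := Cx.cls_surj _ a
    obtain ⟨x', rfl⟩ := Cx.cls_surj _ a'
    rw [← map_sub] at h3
    exact h.mem_imC.2 (K.disj_two e (h.mem_Z.1 x.2).1 (h.mem_Z.1 x'.2).1 (h.mem_Z.1 x.2).2
      (h.mem_Z.1 x'.2).2 (h.mem_imC.1 ha.1) (h.mem_imF.1 ha.2) (h.mem_imC.1 ha'.1)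
      (h.mem_imFb.1 ha'.2) (h.mem_imC.1 h3))

theorem mor (h : IsKC K C) (h' : IsKC K' C') {f : T →ₗ[ℂ] T'} (hf : C.Mor C' f 0)
    (he : ∀ p n x, f (K.e p n x) = K'.e p n (f x)) (hg : ∀ x, f (K.g x) = K'.g (f x)) (j : ℕ) :
    (h.mhs j).Mor (h'.mhs j) (hf.hm (add_zero _)) where
  W _ := hf.im fun x _ hx => K'.mem_Col.2 fun p hp n => by
    rw [← he, K.mem_Col.1 hx p hp n, map_zero]
  F _ := hf.im fun x _ hx => K'.mem_F.2 fun p n => he p n x ▸ eigs_map f hg (K.mem_F.1 hx p n)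
  Fb _ := hf.im fun x _ hx => K'.mem_Fb.2 fun p n => he p n x ▸ eigs_map f
    (fun y => by rw [LinearMap.neg_apply, LinearMap.neg_apply, map_neg, hg]) (K.mem_Fb.1 hx p n)

/-- one representative for both filtrations -/
theorem rep_F (h : IsKC K C) {c b : ℕ} {a : C.H j} (ha : a ∈ (h.mhs j).W c ⊓ (h.mhs j).F b) :
    ∃ x : C.Z j, x.1 ∈ K.Col c ⊓ K.F b ∧ C.cls j x = a := by
  obtain ⟨x, rfl⟩ := Cx.cls_surj _ a
  have hx := h.mem_Z.1 x.2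
  obtain ⟨z, hz⟩ := KD.strict c hx.1 hx.2 (h.mem_imC.1 ha.1) (h.mem_imF.1 ha.2)
  exact ⟨⟨x.1 - K.D z, h.mem_Z.2 ⟨hz.1.1.1, hz.1.2⟩⟩, ⟨hz.1.1.2, hz.2⟩, (Cx.cls_eq.2
    ((h.mem_B (sub_mem hx.1 hz.1.1.1)).2 ⟨z, sub_sub_cancel _ _⟩)).symm⟩

theorem rep_Fb (h : IsKC K C) {c b : ℕ} {a : C.H j} (ha : a ∈ (h.mhs j).W c ⊓ (h.mhs j).Fb b) :
    ∃ x : C.Z j, x.1 ∈ K.Col c ⊓ K.Fb b ∧ C.cls j x = a :=
  rep_F (K := K.neg) ⟨h.d, h.G, h.N⟩ ha

end IsKC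

/-- a graded complex with Hodge theory -/
structure HG (A : Gc T) (g : Module.End ℂ T) : Prop where
  eg : ∀ n x, A.e n (g x) = g (A.e n x)
  poly : ∀ n x, A.e n x ∈ ⨆ b ∈ Finset.range (n + 1),
    g.eigenspace (Complex.I * (2 * (b : ℂ) - n))
  hA : ∀ x, A.d x = 0 → ∃ b, A.d (g (x - A.d b)) = 0
  hB : ∀ x, g ((g * A.d - A.d * g) x) - (g * A.d - A.d * g) (g x) = -A.d x
  hC : ∀ y, (g * A.d - A.d * g) (A.d y) = 0 → ∃ b, A.d y = A.d ((g * A.d - A.d * g) b)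
  hD : ∀ y, A.d ((g * A.d - A.d * g) y) = 0 →
    ∃ b, (g * A.d - A.d * g) y = A.d ((g * A.d - A.d * g) b)

/-- one column -/
def HG.kd {A : Gc T} {g : Module.End ℂ T} (h : HG A g) : KD T where
  d := A.d
  δ := 0
  e p n := if p = 0 then A.e n else 0
  ee p n x := by by_cases e : p = 0 <;> simp [e, A.ee]
  ee' p n p' n' x e := by
    by_cases a : p = 0 <;> by_cases a' : p' = 0
    · simp [a, a', A.ee' n n' x fun c => e ⟨a.trans a'.symm, c⟩]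
    all_goals simp [a, a']
  ext x e := A.ext x fun n => by simpa using e 0 n
  ed p n x := by by_cases e : p = 0 <;> simp [e, A.ed]
  ed0 p x := by by_cases e : p = 0 <;> simp [e, A.ed0]
  eδ p n x := by simp
  eδ0 n x := by simp
  dd := A.dd
  δδ _ := rfl
  dδ x := by simp
  g := g
  eg p n x := by by_cases e : p = 0 <;> simp [e, h.eg]
  gδ x := by simp
  poly p n x := by
    split_ifs
    · exact h.poly n x
    · exact zero_mem _
  hA := h.hA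
  hB := h.hB
  hC := h.hC
  hD := h.hD

section one
variable {A : Gc T} {g : Module.End ℂ T} (h : HG A g) {x : T}

theorem HG.isKC {C : Cx T} (hd : C.d = A.d) (hG : C.G = A.G) (hN : C.N = ⊥) : IsKC h.kd C := by
  refine ⟨hd.trans (add_zero A.d).symm, hG.trans (funext fun n => Submodule.ext fun x => ?_), hN⟩
  rw [Gc.mem_G, mem_degZ]
  refine ⟨fun a p q e => ?_, fun a m e => a 0 m (by simpa using e)⟩
  cases p with
  | zero => exact a q (by simpa using e)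
  | succ p => rfl

theorem HG.col_one : h.kd.Col 1 = ⊥ :=
  eq_bot_iff.2 fun x hx => A.ext x fun n => h.kd.mem_Col.1 hx 0 Nat.one_pos n

theorem HG.mem_F {b : ℕ} : x ∈ h.kd.F b ↔ ∀ n : ℕ, A.e n x ∈ EGe g (2 * (b : ℝ) - n) := by
  rw [KD.mem_F]
  refine ⟨fun a n => a 0 n, fun a p n => ?_⟩
  cases p with
  | zero => exact a n
  | succ p => exact zero_mem _

theorem HG.mem_Fb {b : ℕ} : x ∈ h.kd.Fb b ↔ ∀ n : ℕ, A.e n x ∈ EGe (-g) (2 * (b : ℝ) - n) := by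
  rw [KD.mem_Fb]
  refine ⟨fun a n => a 0 n, fun a p n => ?_⟩
  cases p with
  | zero => exact a n
  | succ p => exact zero_mem _

end one

section sys
variable {S : Sh} {V : S.ι → Type} [∀ i, AddCommGroup (V i)] [∀ i, Module ℂ (V i)] (Y : Sys S V)
  {g : ∀ i, Module.End ℂ (V i)}

/-- the total complex of a system with Hodge theory -/
def Sys.kd (h : ∀ i, HG (Y.A i) (g i))
    (hp : ∀ {i j} (r : S.rel i j) x, Y.pl r (g j x) = g i (Y.pl r x)) : KD (∀ i, V i) where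
  toBG := Y.bg
  g := LinearMap.piMap g
  eg p n x := funext fun i => by
    refine (Y.bg_e p n _ i).trans (Eq.trans ?_ (congrArg (g i) (Y.bg_e p n x i)).symm)
    split_ifs
    · exact (h i).eg n _
    · exact (map_zero _).symm
  gδ x := funext fun i => (Gc.map_s (f := g i) (fun n y => ((h i).eg n y).symm) _).trans
    (congrArg (Y.A i).s (mat_op (g i) fun _ r _ => (hp r _).symm))
  poly p n x := (eigs_pi (g := g) fun _ _ => rfl).2 fun i => by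
    rw [Y.bg_e]
    split_ifs
    · exact (h i).poly n _
    · exact zero_mem _
  hA x hx := by
    choose b hb using fun i => (h i).hA (x i) (congrFun hx i)
    exact ⟨b, funext hb⟩
  hB x := funext fun i => (h i).hB (x i)
  hC y hy := by
    choose b hb using fun i => (h i).hC (y i) (congrFun hy i)
    exact ⟨b, funext hb⟩
  hD y hy := by
    choose b hb using fun i => (h i).hD (y i) (congrFun hy i)
    exact ⟨b, funext hb⟩

theorem Sys.e_ege {G : Module.End ℂ (∀ i, V i)} (hG : ∀ x i, G x i = g i (x i)) {t : ℕ → ℝ}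
    {x : ∀ i, V i} : (∀ p n, Y.bg.e p n x ∈ EGe G (t n)) ↔
      ∀ i n, (Y.A i).e n (x i) ∈ EGe (g i) (t n) := by
  refine ⟨fun a i n => ?_, fun a p n => (eigs_pi hG).2 fun i => ?_⟩
  · have h1 := (eigs_pi hG).1 (a (S.deg i) n) i
    rwa [Y.bg_e, if_pos rfl] at h1
  · rw [Y.bg_e]
    split_ifs
    · exact a i n
    · exact zero_mem _

variable (h : ∀ i, HG (Y.A i) (g i))
  (hp : ∀ {i j} (r : S.rel i j) x, Y.pl r (g j x) = g i (Y.pl r x))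

theorem Sys.mem_kd_F {b : ℕ} {x : ∀ i, V i} :
    x ∈ (Y.kd h @hp).F b ↔ ∀ i, x i ∈ (h i).kd.F b :=
  (KD.mem_F _).trans ((Y.e_ege (g := g) fun _ _ => rfl).trans
    (forall_congr' fun i => (h i).mem_F.symm))

theorem Sys.mem_kd_Fb {b : ℕ} {x : ∀ i, V i} :
    x ∈ (Y.kd h @hp).Fb b ↔ ∀ i, x i ∈ (h i).kd.Fb b :=
  (KD.mem_Fb _).trans ((Y.e_ege (g := fun i => -g i) fun _ _ => rfl).trans
    (forall_congr' fun i => (h i).mem_Fb.symm))

end sys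

theorem Bc.eq_bcOf (B : Bc T) (hU : B.U = ⊤) (hN : B.N = ⊥) : B = bcOf B.toBG := by
  obtain ⟨b, U, N, _, _, _, _, _, _⟩ := B
  obtain rfl : U = ⊤ := hU
  obtain rfl : N = ⊥ := hN
  rfl

theorem Bc.isKC (B : Bc T) (K : KD T) (e : K.toBG = B.toBG) (hU : B.U = ⊤) (hN : B.N = ⊥) :
    IsKC K B.cx :=
  ⟨congrArg BG.D e.symm, funext fun n => by
    rw [e, ← inf_top_eq (degZ B.toBG n), ← hU]
    rfl, hN⟩

theorem mat_piMap {ι κ : Type} [Fintype κ] {V W : ι → Type} {V' W' : κ → Type}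
    [∀ i, AddCommGroup (V i)] [∀ i, Module ℂ (V i)] [∀ i, AddCommGroup (V' i)]
    [∀ i, Module ℂ (V' i)] [∀ i, AddCommGroup (W i)] [∀ i, Module ℂ (W i)]
    [∀ i, AddCommGroup (W' i)] [∀ i, Module ℂ (W' i)] {R : ι → κ → Prop} (μ : ι → κ → ℤ)
    (g : ∀ {i j}, R i j → V' j →ₗ[ℂ] V i) (g' : ∀ {i j}, R i j → W' j →ₗ[ℂ] W i)
    (u : ∀ i, V i →ₗ[ℂ] W i) (u' : ∀ j, V' j →ₗ[ℂ] W' j)
    (e : ∀ {i j} (h : R i j) x, g' h (u' j x) = u i (g h x)) (c : ∀ j, V' j) :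
    mat μ (@g') (LinearMap.piMap u' c) = LinearMap.piMap u (mat μ (@g) c) :=
  funext fun i => (mat_op (u i) fun _ r _ => (e r _).symm).symm

end Pool.Agent.CS
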