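import Pool.Agent.P.MP_d34769_ag.HDef
import Pool.Agent.K.MP_d34769_ag.C35
import Pool.Agent.K.MP_d34769_ag.C36
import Pool.Agent.K.MP_d34769_ag.C37
import Pool.Agent.P.MP_65ad7c_ag.QFA
import Pool.Agent.P.MP_65ad7c_ag.XG1

/-! The Hodge numbers of the statement are those of the diagram of strata. -/

open Set
open Pool.Agent.HT
open Pool.Agent.P.MP_d34769_ag (FW hod)

noncomputable section
namespace Pool.Agent.CS

section rank
variable {A H : Type} [AddCommGroup A] [Module ℂ A] [AddCommGroup H] [Module ℂ H]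

theorem Sq.rank_comap {ψ : A →ₗ[ℂ] H} (h : Function.Surjective ψ) (U U₁ U₂ : Submodule ℂ H) :
    Module.rank ℂ (Sq (U.comap ψ) (U₁.comap ψ ⊔ U₂.comap ψ)) = Module.rank ℂ (Sq U (U₁ ⊔ U₂)) := by
  refine Sq.rank_eq ψ (fun _ hx => hx) (fun x _ => ⟨fun hx => ?_, fun hx => ?_⟩) fun y hy => ?_
  · obtain ⟨u, hu, v, hv, e⟩ := Submodule.mem_sup.1 hx
    obtain ⟨v, rfl⟩ := h v
    refine Submodule.mem_sup.2 ⟨x - v, ?_, v, hv, sub_add_cancel _ _⟩
    rwa [Submodule.mem_comap, map_sub, ← e, add_sub_cancel_right]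
  · exact (sup_le (Submodule.comap_mono le_sup_left) (Submodule.comap_mono le_sup_right) :
      _ ≤ (U₁ ⊔ U₂).comap ψ) hx
  · obtain ⟨x, rfl⟩ := h y
    exact ⟨x, hy, by rw [sub_self]; exact zero_mem _⟩

theorem Sq.rank_map {ψ : A →ₗ[ℂ] H} (h : Function.Injective ψ) (U U' : Submodule ℂ A) :
    Module.rank ℂ (Sq U U') = Module.rank ℂ (Sq (U.map ψ) (U'.map ψ)) :=
  Sq.rank_eq ψ (fun x hx => ⟨x, hx, rfl⟩)
    (fun x _ => ⟨fun ⟨_, hy, e⟩ => h e ▸ hy, fun hx => ⟨x, hx, rfl⟩⟩)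
    (by rintro _ ⟨x, hx, rfl⟩; exact ⟨x, hx, by rw [sub_self]; exact zero_mem _⟩)

theorem MHS.hod_map {j : ℕ} (M : MHS A j) (e : A ≃ₗ[ℂ] H) (c a : ℕ) :
    (M.map e).hod c a = M.hod c a :=
  Sq.rank_comap (ψ := e.symm.toLinearMap) e.symm.surjective (M.W c ⊓ M.F a)
    (M.W c ⊓ M.F (a + 1)) (M.W (c + 1) ⊓ M.F a)

end rank

variable {N e : ℕ} {ι : Type} {Z : Set (Amb N)} {D : ι → Set (Amb N)}

theorem strat_mono {p q : ℕ} {J : Fin p → ι} {J' : Fin q → ι} (h : range J' ⊆ range J) :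
    strat Z D J ⊆ strat Z D J' := fun _ hx => ⟨hx.1, mem_iInter.2 fun j => by
  obtain ⟨k, e⟩ := h ⟨j, rfl⟩
  exact e ▸ mem_iInter.1 hx.2 k⟩

variable (Z D) in
/-- truncation -/
def trT (P : ℕ) : Tot Z D →ₗ[ℂ] ∀ J : Tup ι P, OM (strat Z D J.2) where
  toFun y J n := y J.1 n J.2
  map_add' _ _ := rfl
  map_smul' _ _ := rfl

/-- extension by zero -/
def exT {P : ℕ} (x : ∀ J : Tup ι P, OM (strat Z D J.2)) : Tot Z D :=
  fun p n I => if h : p < P + 1 then x ⟨⟨p, h⟩, I⟩ n else 0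

theorem trT_exT {P : ℕ} (x : ∀ J : Tup ι P, OM (strat Z D J.2)) : trT Z D P (exT x) = x :=
  funext fun J => funext fun _ => dif_pos J.1.2

theorem tr_exT {P j : ℕ} (hj : j ≤ P) (y : Tot Z D) :
    (totBG Z D).tr j (exT (trT Z D P y)) = (totBG Z D).tr j y := by
  rw [← sub_eq_zero, ← map_sub]
  refine BG.eq_zero_of_lt (BG.tr_mem _ j _)
    (BG.tr_mem_col (c := P + 1) (mem_totCol.2 fun p hp => ?_) j) (by omega)
  funext n I
  exact sub_eq_zero.2 (dif_pos hp)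

variable [Finite ι]

/-- the diagram of strata -/
def sncDg (h : IsSNC e Z D) (P : ℕ) : SDg (tupSh ι P) where
  M _ := N
  X J := strat Z D J.2
  f _ _ := id
  dm J := e - (range J.2).ncard
  mf J := mf_strat h J.2
  maps r := strat_mono r
  hol _ := HIR.holP_id
  comp _ _ _ _ := rfl

variable (h : IsSNC e Z D)

/-- the double complex of forms on the strata -/
def sncK (P : ℕ) : KD (∀ J : Tup ι P, OM (strat Z D J.2)) := (sncDg h P).kd

/-- its total complex -/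
def sncC (P : ℕ) : Cx (∀ J : Tup ι P, OM (strat Z D J.2)) := (sncDg h P).obc.cx

theorem sncI (P : ℕ) : IsKC (sncK h P) (sncC h P) := (sncDg h P).isKC

variable {P : ℕ}

theorem trT_D (y : Tot Z D) : (sncK h P).D (trT Z D P y) = trT Z D P (Dt Z D y) := by
  funext J n
  have h1 := congrFun (tup_mat (@(sncDg h P).om.pl) (trT Z D P y) J) n
  refine congrArg₂ (· + ·) (x' := totD Z D y J.1 n J.2) (y' := totδ Z D y J.1 n J.2)
    (by cases n <;> rfl) ((congrArg ((-1 : ℂ) ^ n • ·) h1).trans ?_)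
  obtain ⟨⟨p, hp⟩, J⟩ := J
  cases p with
  | zero => exact (congrArg _ (congrFun (Finset.sum_empty) n)).trans (smul_zero _)
  | succ p =>
    refine Eq.trans (congrArg _ ?_) (totδ_succ' y p n J).symm
    refine (Finset.sum_apply _ _ _).trans (Finset.sum_congr rfl fun j _ => congrArg _ ?_)
    exact SmM.pl1_res ((sncDg h P).sm (i := ⟨⟨p + 1, hp⟩, J⟩) (j := Tup.face ⟨⟨p + 1, hp⟩, J⟩ j)
      (Tup.face_sub _ j)) (fun _ _ => rfl) _ _

theorem trT_e (p n : ℕ) (y : Tot Z D) :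
    (sncK h P).e p n (trT Z D P y) = trT Z D P (totE Z D p n y) := by
  funext J m
  refine (congrFun ((sncDg h P).om.bg_e p n _ J) m).trans
    (Eq.trans ?_ (totE_apply p n y J.1 m J.2).symm)
  by_cases a : (J.1 : ℕ) = p
  · refine (congrFun (if_pos a) m).trans ((om_e_apply _ _ _).trans ?_)
    by_cases b : m = n
    · rw [if_pos b, if_pos ⟨a, b⟩]; rfl
    · rw [if_neg b, if_neg fun c => b c.2]; rfl
  · exact (congrFun (if_neg a) m).trans (if_neg fun c => a c.1).symm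

theorem trT_tr (j : ℕ) (y : Tot Z D) :
    (sncK h P).tr j (trT Z D P y) = trT Z D P ((totBG Z D).tr j y) := by
  simp only [BG.tr, LinearMap.sum_apply, map_sum]
  exact Finset.sum_congr rfl fun p _ => trT_e h p _ y

theorem trT_mem_Z {j : ℕ} {y : Tot Z D} (h1 : y ∈ (totBG Z D).Deg j) (h2 : Dt Z D y = 0) :
    trT Z D P y ∈ (sncC h P).Z j := (sncI h P).mem_Z.2 ⟨by
  rw [← BG.tr_of_mem _ h1, ← trT_tr h]
  exact BG.tr_mem _ _ _, by rw [trT_D, h2, map_zero]⟩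

theorem trT_iff {j : ℕ} (hj : j ≤ P) {U : Submodule ℂ (Tot Z D)}
    {U' : Submodule ℂ (∀ J : Tup ι P, OM (strat Z D J.2))} (h1 : ∀ y ∈ U, trT Z D P y ∈ U')
    (h2 : ∀ x ∈ U', exT x ∈ U) (h3 : ∀ y ∈ U, (totBG Z D).tr j y ∈ U) {y : Tot Z D}
    (hy : y ∈ (totBG Z D).Deg j) :
    (∃ z, trT Z D P y - (sncK h P).D z ∈ U') ↔ ∃ z, y - Dt Z D z ∈ U := by
  refine ⟨fun ⟨z, hz⟩ => ?_, fun ⟨z, hz⟩ => ⟨trT Z D P z, by rw [trT_D, ← map_sub]; exact h1 _ hz⟩⟩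
  obtain ⟨w, hw⟩ := (totBG Z D).tr_D_ex j (exT z)
  rw [← trT_exT z, trT_D, ← map_sub] at hz
  have h4 := h3 _ (h2 _ hz)
  rw [tr_exT hj, map_sub, BG.tr_of_mem _ hy, ← totBG_D, hw] at h4
  exact ⟨w, h4⟩

/-- the class of a closed form with compact support -/
def clsC (P j : ℕ) : (Cc Z D j).comap (Nul Z j).mkQ →ₗ[ℂ] (sncC h P).H j :=
  (sncC h P).cls j ∘ₗ (trT Z D P ∘ₗ inc Z D j ∘ₗ (Nul Z j).mkQ ∘ₗ
    Submodule.subtype _).codRestrict _ fun α => trT_mem_Z h (inc_mem_Deg _) (Cc.Dt_inc α.2)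

theorem clsC_surj {j : ℕ} (hj : j < P) : Function.Surjective (clsC h P j) := fun a => by
  obtain ⟨x, rfl⟩ := Cx.cls_surj _ a
  have hx := (sncI h P).mem_Z.1 x.2
  have h1 : Dt Z D ((totBG Z D).tr j (exT x.1)) = 0 := by
    rw [← totBG_D, ← BG.tr_D, ← tr_exT hj, totBG_D, ← trT_D h, trT_exT, hx.2,
      ← map_zero (trT Z D P), tr_exT hj, map_zero]
  obtain ⟨α, hα, w, hw⟩ := h.geo.lift (BG.tr_mem _ j _) h1
  obtain ⟨α, rfl⟩ := Om.mk_surj α
  have h2 := congrArg (trT Z D P) hw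
  rw [← trT_tr h, trT_exT, BG.tr_of_mem _ hx.1, map_sub, ← trT_D h] at h2
  refine ⟨⟨α, hα⟩, Cx.cls_eq.2 (((sncI h P).mem_B (sub_mem
    ((sncI h P).mem_Z.1 (trT_mem_Z h (inc_mem_Deg _) (Cc.Dt_inc hα))).1 hx.1)).2
      ⟨trT Z D P w, ?_⟩)⟩
  rw [← h2]
  exact sub_sub_cancel _ _

theorem clsC_W {j : ℕ} (hj : j ≤ P) (c : ℕ) (α : (Cc Z D j).comap (Nul Z j).mkQ) :
    clsC h P j α ∈ ((sncI h P).mhs j).W c ↔ Om.mk Z α.1 ∈ col Z D c j := by
  refine ((sncI h P).mem_imC.trans (trT_iff h hj (fun y hy => ?_) (fun x hx => ?_)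
    (fun y hy => BG.tr_mem_col hy j) (inc_mem_Deg _))).trans mem_col.symm
  · exact (Sys.mem_Col (Y := (sncDg h P).om)).2 fun J hJ =>
      funext fun n => congrFun (congrFun (mem_totCol.1 hy J.1 hJ) n) J.2
  · refine mem_totCol.2 fun p hp => funext fun n => funext fun I => ?_
    unfold exT
    split_ifs with a
    · exact congrFun ((Sys.mem_Col (Y := (sncDg h P).om)).1 hx ⟨⟨p, a⟩, I⟩ hp) n
    · rfl

theorem clsC_F {j : ℕ} (hj : j ≤ P) (b : ℕ) (α : (Cc Z D j).comap (Nul Z j).mkQ) :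
    clsC h P j α ∈ ((sncI h P).mhs j).F b ↔ Om.mk Z α.1 ∈ Fil Z D b j := by
  have g := fun p (I : Fin p → ι) => mf_good (mf_strat h I)
  let K := totKD (fun p I => (g p I).1) fun p I => (g p I).2.1
  refine ((sncI h P).mem_imF.trans (trT_iff h hj (U := K.F b) (fun y hy => ?_)
    (fun x hx => ?_) (fun y hy => KD.tr_mem_F hy j) (inc_mem_Deg _))).trans
      (mem_cls_of_eq fun y => ?_).symm
  · exact (sncDg h P).mem_kd_F.2 fun J n => (mem_totF _ _).1 hy J.1 n J.2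
  · refine (mem_totF _ _).2 fun p n I => ?_
    unfold exT
    split_ifs with a
    · exact (sncDg h P).mem_kd_F.1 hx ⟨⟨p, a⟩, I⟩ n
    · exact zero_mem _
  · exact (forall₃_congr fun p q I => (g p I).2.2 b q _).trans (mem_totF _ _).symm

theorem FW_eq {j : ℕ} (hj : j ≤ P) (c a : ℕ) : FW Z D j c a =
    ((((sncI h P).mhs j).W c ⊓ ((sncI h P).mhs j).F a).comap (clsC h P j)).map
      ((sf (Amb N) j).subtype ∘ₗ Submodule.subtype _) := by
  refine (congrArg _ (Set.ext fun α => ⟨?_, ?_⟩)).trans (Submodule.span_eq _)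
  · rintro ⟨h1, h2, h3, h4⟩
    let β : SF (Amb N) j := ⟨α, h1.1⟩
    exact ⟨⟨β, (PQ.ac_iff β).2 h1, (PQ.cl_eq_zero (SF.d j β)).2 h2⟩,
      ⟨(clsC_W h hj c _).2 ((PQ.col_iff Z D c β).1 h3),
        (clsC_F h hj a _).2 ((PQ.fil_iff Z D a β).1 h4)⟩, rfl⟩
  · rintro ⟨β, hβ, rfl⟩
    exact ⟨(PQ.ac_iff β.1).1 β.2.1, (PQ.cl_eq_zero (SF.d j β.1)).1 β.2.2,
      (PQ.col_iff Z D c β.1).2 ((clsC_W h hj c _).1 hβ.1),
      (PQ.fil_iff Z D a β.1).2 ((clsC_F h hj a _).1 hβ.2)⟩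

/-- the Hodge numbers of the statement -/
theorem hod_eq {j : ℕ} (hj : j < P) (c a : ℕ) :
    hod Z D j c a = ((sncDg h P).mhs j).hod c a := by
  rw [hod, FW_eq h hj.le, FW_eq h hj.le, FW_eq h hj.le, ← Submodule.map_sup]
  exact ((Sq.rank_map (Subtype.val_injective.comp Subtype.val_injective) _ _).symm.trans
    (Sq.rank_comap (clsC_surj h hj) _ _ _)).trans (MHS.hod_map _ _ c a).symm

/-- the diagram of strata of a pair as in the statement -/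
abbrev T1 (h : PQ.IsSNC e Z D) (P : ℕ) : SDg (tupSh ι P) := sncDg h.ht P

theorem hod_T1 (h : PQ.IsSNC e Z D) {j : ℕ} (hj : j < P) (c a : ℕ) :
    hod Z D j c a = ((T1 h P).mhs j).hod c a := hod_eq h.ht hj c a

end Pool.Agent.CS
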