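import Pool.Agent.K.MP_d34769_ag.C3

/-! Counting representations over a finite field: one-step recursion and mass formula. -/

namespace Pool.Agent.P.MP_d34769_ag

open Module Classical

/-- The number of linearly independent `k`-tuples in an `n`-dimensional space. -/
def gam (q n k : ℕ) : ℕ := ∏ j ∈ Finset.range k, (q ^ n - q ^ j)

section
variable {K : Type} [Field K] [Finite K] {V W : Type} [AddCommGroup V] [Module K V]
  [FiniteDimensional K V] [AddCommGroup W] [Module K W] [FiniteDimensional K W]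

lemma card_li {k : ℕ} (hk : k ≤ finrank K V) :
    Nat.card {s : Fin k → V // LinearIndependent K s} = gam (Nat.card K) (finrank K V) k := by
  have := Fintype.ofFinite K
  have : Finite V := Module.finite_of_finite K
  rw [card_linearIndependent hk, gam, Nat.card_eq_fintype_card, Finset.prod_range]

lemma card_grass {k : ℕ} (hk : k ≤ finrank K V) :
    Nat.card {U : Submodule K V // finrank K U = k} * gam (Nat.card K) k k =
      gam (Nat.card K) (finrank K V) k := by
  have : Finite V := Module.finite_of_finite K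
  have : Finite (Submodule K V) := Finite.of_injective _ SetLike.coe_injective
  rw [← card_li hk]
  symm
  refine card_of_fiber (fun s => ⟨Submodule.span K (Set.range s.1), by
    rw [finrank_span_eq_card s.2, Fintype.card_fin]⟩) _ ?_
  rintro ⟨U, hU⟩
  have h1 := card_li (K := K) (V := U) hU.ge
  rw [hU] at h1
  rw [← h1]
  symm
  refine Nat.card_eq_of_bijective (fun s => ⟨⟨fun j => (s.1 j).1,
    s.2.map' U.subtype (Submodule.ker_subtype U)⟩, Subtype.ext ?_⟩) ⟨?_, ?_⟩
  · refine Submodule.eq_of_le_of_finrank_eq (Submodule.span_le.2 ?_) ?_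
    · rintro _ ⟨j, rfl⟩
      exact (s.1 j).2
    · exact (finrank_span_eq_card (s.2.map' U.subtype (Submodule.ker_subtype U))).trans
        ((Fintype.card_fin k).trans hU.symm)
  · intro s s' h
    exact Subtype.ext (funext fun j => Subtype.ext (congrFun (congrArg (fun z => z.1.1) h) j))
  · rintro ⟨⟨s, hs⟩, h⟩
    have h2 : Submodule.span K (Set.range s) = U := congrArg Subtype.val h
    refine ⟨⟨fun j => ⟨s j, h2 ▸ Submodule.subset_span ⟨j, rfl⟩⟩, ?_⟩, rfl⟩
    exact LinearIndependent.of_comp U.subtype hs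

lemma card_linearEquiv {n : ℕ} (h : finrank K V = n) :
    Nat.card ((Fin n → K) ≃ₗ[K] V) = gam (Nat.card K) n n := by
  have h1 := card_li (K := K) (V := V) h.ge
  rw [h] at h1
  rw [← h1]
  refine Nat.card_eq_of_bijective (fun φ => ⟨fun j => φ (Pi.basisFun K (Fin n) j),
    (Pi.basisFun K (Fin n)).linearIndependent.map' φ.toLinearMap φ.ker⟩) ⟨?_, ?_⟩
  · intro φ ψ hh
    exact LinearEquiv.toLinearMap_injective
      ((Pi.basisFun K (Fin n)).ext (congrFun (congrArg Subtype.val hh)))
  · rintro ⟨s, hs⟩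
    let b : Basis (Fin n) K V := Basis.mk hs
      (hs.span_eq_top_of_card_eq_finrank' (by rw [h, Fintype.card_fin])).ge
    refine ⟨(Pi.basisFun K (Fin n)).equiv b (Equiv.refl _), Subtype.ext (funext fun j => ?_)⟩
    change (Pi.basisFun K (Fin n)).equiv b (Equiv.refl _) (Pi.basisFun K (Fin n) j) = s j
    rw [Basis.equiv_apply]
    simp [b]

lemma card_linearMap :
    Nat.card (V →ₗ[K] W) = Nat.card K ^ (finrank K V * finrank K W) := by
  rw [Module.natCard_eq_pow_finrank (K := K), Module.finrank_linearMap]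

lemma gam_pos {q n k : ℕ} (hq : 1 < q) (hk : k ≤ n) : 0 < gam q n k :=
  Finset.prod_pos fun j hj => Nat.sub_pos_of_lt
    (Nat.pow_lt_pow_right hq ((Finset.mem_range.1 hj).trans_le hk))
end

namespace QR

variable {K : Type} [Field K] {ι A : Type} {s t : A → ι}

abbrev Str (X : QR K s t) := ∀ e, X.M (s e) →ₗ[K] X.M (t e)

abbrev withA (X : QR K s t) (ρ : X.Str) : QR K s t := { X with a := ρ }

def subSp (X : QR K s t) (U : X.Sub) : QR K s t where
  M i := U i
  a _ := 0

def std (K : Type) [Field K] (s t : A → ι) (e : ι → ℕ) : QR K s t where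
  M i := Fin (e i) → K
  a _ := 0

lemma dv_std (e : ι → ℕ) : (std K s t e).dv = e := funext fun _ => Module.finrank_fin_fun K

/-- Transport of structure along a family of linear equivalences. -/
def pull {X Y : QR K s t} (φ : ∀ i, X.M i ≃ₗ[K] Y.M i) (ρ : Y.Str) : X.Str :=
  fun e => (φ (t e)).symm.toLinearMap ∘ₗ ρ e ∘ₗ (φ (s e)).toLinearMap

def pullIso {X Y : QR K s t} (φ : ∀ i, X.M i ≃ₗ[K] Y.M i) (ρ : Y.Str) :
    Iso (X.withA (pull φ ρ)) (Y.withA ρ) :=
  ⟨φ, fun e x => by simp [pull]⟩

variable [Finite K] [Fintype ι] [Fintype A] (w : ι → ℝ)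

instance (X : QR K s t) : Finite X.Str :=
  haveI : ∀ e, Finite (X.M (s e) →ₗ[K] X.M (t e)) := fun _ =>
    Finite.of_injective _ DFunLike.coe_injective
  Pi.finite

noncomputable instance (X : QR K s t) : Fintype X.Str := Fintype.ofFinite _

noncomputable def PP (X : QR K s t) : ℤ := ∑ ρ : X.Str, cc w (X.withA ρ)

lemma PP_congr {X Y : QR K s t} (h : X.dv = Y.dv) : PP w X = PP w Y := by
  have φ : ∀ i, X.M i ≃ₗ[K] Y.M i := fun i => LinearEquiv.ofFinrankEq _ _ (congrFun h i)
  symm
  refine Finset.sum_bij' (fun ρ _ => pull φ ρ) (fun ρ _ => pull (fun i => (φ i).symm) ρ)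
    (by simp) (by simp) ?_ ?_ ?_
  · intro ρ _
    funext e
    ext x
    simp [pull]
  · intro ρ _
    funext e
    ext x
    simp [pull]
  · intro ρ _
    exact (Isom.cc_eq ⟨pullIso φ ρ⟩).symm

lemma sum_isSub (X : QR K s t) (U : X.Sub) :
    ∑ ρ ∈ Finset.univ.filter (fun ρ : X.Str => (X.withA ρ).IsSub U), mob (GG w (X.withA ρ)) U =
      PP w (X.subSp U) * (Nat.card K) ^ (∑ e, (X.dv (s e) - ds U (s e)) * X.dv (t e)) := by
  choose C hC using fun i => Submodule.exists_isCompl (U i)
  have : ∀ e, Finite (C (s e) →ₗ[K] X.M (t e)) := fun _ =>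
    Finite.of_injective _ DFunLike.coe_injective
  have := Fintype.ofFinite (∀ e, C (s e) →ₗ[K] X.M (t e))
  have hcard : (Fintype.card (∀ e, C (s e) →ₗ[K] X.M (t e)) : ℤ) =
      (Nat.card K) ^ (∑ e, (X.dv (s e) - ds U (s e)) * X.dv (t e)) := by
    rw [← Nat.card_eq_fintype_card, Nat.card_pi, ← Finset.prod_pow_eq_pow_sum]
    push_cast
    refine Finset.prod_congr rfl fun e _ => ?_
    have : Finite (C (s e)) := inferInstance
    rw [card_linearMap, ← Nat.cast_pow]
    congr 3
    have := Submodule.finrank_add_eq_of_isCompl (hC (s e))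
    change _ = finrank K (X.M (s e)) - finrank K (U (s e))
    omega
  rw [← hcard, PP, Finset.sum_mul]
  have : ∀ ρ : (X.subSp U).Str, cc w ((X.subSp U).withA ρ) *
      (Fintype.card (∀ e, C (s e) →ₗ[K] X.M (t e)) : ℤ) =
      ∑ _h : (∀ e, C (s e) →ₗ[K] X.M (t e)), cc w ((X.subSp U).withA ρ) := by
    intro ρ
    simp [mul_comm]
  simp only [this]
  rw [← Finset.sum_product']
  refine Finset.sum_bij' (fun ρ hρ => (fun e => (ρ e).restrict ((Finset.mem_filter.1 hρ).2 e),
    fun e => (ρ e).domRestrict (C (s e))))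
    (fun p _ e => LinearMap.ofIsCompl (hC (s e)) ((U (t e)).subtype ∘ₗ p.1 e) (p.2 e))
    (by simp) ?_ ?_ ?_ ?_
  · intro p _
    simp only [Finset.mem_filter, Finset.mem_univ, true_and]
    intro e x hx
    have := LinearMap.ofIsCompl_apply_left (hC (s e)) (φ := (U (t e)).subtype ∘ₗ p.1 e)
      (ψ := p.2 e) ⟨x, hx⟩
    change LinearMap.ofIsCompl _ _ _ x ∈ _
    rw [this]
    exact (p.1 e ⟨x, hx⟩).2
  · intro ρ hρ
    funext e
    exact LinearMap.ofIsCompl_eq _ (fun _ => rfl) (fun _ => rfl)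
  · intro p _
    refine Prod.ext (funext fun e => LinearMap.ext fun x => Subtype.ext ?_)
      (funext fun e => LinearMap.ext fun x => ?_)
    · exact LinearMap.ofIsCompl_apply_left (hC (s e)) x
    · exact LinearMap.ofIsCompl_apply_right (hC (s e)) x
  · intro ρ hρ
    exact mob_eq_cc (Finset.mem_filter.1 hρ).2

lemma card_ds (X : QR K s t) {e : ι → ℕ} (he : e ≤ X.dv) :
    Nat.card {U : X.Sub // ds U = e} * ∏ i, gam (Nat.card K) (e i) (e i) =
      ∏ i, gam (Nat.card K) (X.dv i) (e i) := by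
  have : Nat.card {U : X.Sub // ds U = e} =
      Nat.card (∀ i, {U : Submodule K (X.M i) // finrank K U = e i}) :=
    Nat.card_congr ((Equiv.subtypeEquivRight fun U => funext_iff).trans
      (Equiv.subtypePiEquivPi (p := fun i (U : Submodule K (X.M i)) => finrank K U = e i)))
  rw [this, Nat.card_pi, ← Finset.prod_mul_distrib]
  exact Finset.prod_congr rfl fun i _ => card_grass (he i)

lemma PP_rec [DecidableEq ι] (X : QR K s t) (h : X.dv ≠ 0) :
    PP w X = - ∑ e ∈ (Finset.Iic X.dv).filter (fun e => e ≠ X.dv ∧ 0 ≤ tw w e),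
      (Nat.card {U : X.Sub // ds U = e} : ℤ) *
        (PP w (std K s t e) * (Nat.card K) ^ (∑ a, (X.dv (s a) - e (s a)) * X.dv (t a))) := by
  have := Fintype.ofFinite X.Sub
  have h1 : ∀ ρ : X.Str, cc w (X.withA ρ) =
      - ∑ U ∈ Finset.univ.filter (fun U : X.Sub => U ≠ ⊤ ∧ 0 ≤ th w U),
        if (X.withA ρ).IsSub U then mob (GG w (X.withA ρ)) U else 0 := by
    intro ρ
    rw [cc, mob_eq, if_neg (fun h' => h (dv_eq_zero.2 h')), zero_sub, ← Finset.sum_filter,
      Finset.filter_filter]
    congr 1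
    refine Finset.sum_congr ?_ fun _ _ => rfl
    ext U
    simp only [Finset.mem_filter, Finset.mem_univ, true_and, lt_top_iff_ne_top, GG]
    tauto
  simp only [PP, h1, Finset.sum_neg_distrib]
  rw [Finset.sum_comm, neg_inj]
  simp only [← Finset.sum_filter, sum_isSub]
  rw [← Finset.sum_fiberwise_of_maps_to (g := fun U : X.Sub => ds U)
    (t := (Finset.Iic X.dv).filter (fun e => e ≠ X.dv ∧ 0 ≤ tw w e))]
  · refine Finset.sum_congr rfl fun e he => ?_
    simp only [Finset.mem_filter, Finset.mem_Iic] at he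
    rw [Finset.sum_congr rfl (g := fun _ => PP w (std K s t e) *
      (Nat.card K) ^ (∑ a, (X.dv (s a) - e (s a)) * X.dv (t a))), Finset.sum_const, nsmul_eq_mul]
    · congr 2
      rw [Nat.card_eq_fintype_card, Fintype.card_subtype]
      congr 1
      ext U
      simp only [Finset.mem_filter, Finset.mem_univ, true_and, and_iff_right_iff_imp]
      rintro rfl
      exact ⟨fun h' => he.2.1 (ds_eq_dv.2 h'), he.2.2⟩
    · intro U hU
      simp only [Finset.mem_filter] at hU
      rw [hU.2, PP_congr w (Y := std K s t e) (by rw [dv_std, ← hU.2]; rfl)]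
  · intro U hU
    simp only [Finset.mem_filter, Finset.mem_univ, true_and, Finset.mem_Iic] at hU ⊢
    exact ⟨ds_le U, fun h' => hU.1 (ds_eq_dv.1 h'), hU.2⟩

lemma PP_zero : PP w (std K s t 0) = 1 := by
  have : Subsingleton (std K s t 0).Str := ⟨fun _ _ => funext fun _ => LinearMap.ext fun _ =>
    funext fun j => j.elim0⟩
  rw [PP, Fintype.sum_subsingleton _ 0]
  exact cc_of_dv_zero (dv_std 0)

/-- The mass formula. -/
lemma mass (X : QR K s t) :
    Nat.card {ρ : (std K s t X.dv).Str // Isom ((std K s t X.dv).withA ρ) X} * autN X =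
      ∏ i, gam (Nat.card K) (X.dv i) (X.dv i) := by
  have h1 : Nat.card (∀ i, (std K s t X.dv).M i ≃ₗ[K] X.M i) =
      ∏ i, gam (Nat.card K) (X.dv i) (X.dv i) := by
    rw [Nat.card_pi]
    exact Finset.prod_congr rfl fun i _ => card_linearEquiv rfl
  have : ∀ i, Finite ((std K s t X.dv).M i ≃ₗ[K] X.M i) := fun _ =>
    Finite.of_injective _ DFunLike.coe_injective
  rw [← h1]
  symm
  refine card_of_fiber (fun φ => ⟨pull φ X.a, ⟨pullIso φ X.a⟩⟩) _ ?_
  rintro ⟨ρ, hρ⟩
  rw [autN, ← card_iso_congr hρ (Isom.refl X)]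
  refine Nat.card_congr (Equiv.subtypeEquivRight fun φ => ?_)
  rw [Subtype.ext_iff]
  constructor
  · rintro rfl
    exact (pullIso φ X.a).2
  · intro h
    funext e
    ext x
    have := h e x
    simp only [LinearEquiv.coe_coe] at this
    simp [pull, ← this]

end QR

end Pool.Agent.P.MP_d34769_ag
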