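import Pool.Agent.K.MP_d34769_ag.C37
import Pool.Agent.K.MP_d34769_ag.C39

/-! Maps of shapes and their squares with relative cochains. -/

open Set

noncomputable section
namespace Pool.Agent.CS

variable {S S' : Sh}

open Classical in
/-- the identity of a shape -/
def ShH.one (S : Sh) (h : ∀ a, S.rel a a) : ShH S S where
  R := S.rel
  μ a b := if a = b then 1 else 0
  sup a b e := by
    obtain rfl : a = b := by_contra fun c => e (if_neg c)
    exact ⟨h a, rfl⟩
  l := S.trans
  r := S.trans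
  comm a b := by simp

/-- a vertex `o` of degree zero and a class of vertices that contains all faces of `o` -/
structure Sh.Base (S : Sh) (o : S.ι) (nz : S.ι → Prop) : Prop where
  deg : S.deg o = 0
  l : ∀ {a a'}, S.rel a a' → nz a' → nz a
  ε : ∀ a, S.ε a o ≠ 0 → nz a

open Classical in
/-- the map to the shape of a pair -/
def ShH.base {o : S.ι} {nz : S.ι → Prop} (h : S.Base o nz) (p : ℕ) :
    ShH S (tupSh Unit (p + 1)) where
  R a J := (range J.2).Nonempty → nz a
  μ a J := if J.1.1 = 0 then (if a = o then 1 else 0) else if J.1.1 = 1 then S.ε a o else 0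
  sup a J e := by
    split_ifs at e with c d c'
    · exact ⟨fun ⟨_, x, _⟩ => absurd x.2 (by omega), (d ▸ h.deg).trans c.symm⟩
    · exact absurd rfl e
    · exact ⟨fun _ => h.ε a e, (S.sup a o e).2.trans (by rw [h.deg]; exact c'.symm)⟩
    · exact absurd rfl e
  l e e' k := h.l e (e' k)
  r e e' k := e (k.mono e')
  comm a J := by
    have key : ∀ J' : Tup Unit (p + 1), (tupSh Unit (p + 1)).ε J' J ≠ 0 → J'.1.1 = J.1.1 + 1 :=
      fun J' e => ((tupSh Unit (p + 1)).sup J' J e).2
    by_cases c : J.1.1 = 0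
    · let J1 : Tup Unit (p + 1) := ⟨⟨1, by omega⟩, fun _ => ()⟩
      have e1 : (tupSh Unit (p + 1)).ε J1 J = 1 := by
        have : ∀ j, J1.face j = J := fun j => (Tup.eq_nil (by
          have := J1.face_deg j
          change 1 = _ at this
          omega)).trans (Tup.eq_nil c).symm
        change ∑ j : Fin 1, _ = _
        simp [this]
      rw [Finset.sum_eq_single (ι := (tupSh Unit (p + 1)).ι) J1 (fun J' _ d => ?_) (by simp), e1]
      · simp [c, J1]
      · refine mul_eq_zero_of_right _ (by_contra fun e => d ?_)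
        have := key J' e
        obtain ⟨⟨q, hq⟩, f⟩ := J'
        obtain rfl : q = 1 := this.trans (by rw [c])
        rfl
    · rw [Finset.sum_eq_zero (s := (Finset.univ : Finset (tupSh Unit (p + 1)).ι)) fun J' _ => ?_]
      · simp only [if_neg c]
        split_ifs
        exacts [S.εε a o, by simp]
      · by_cases e : (tupSh Unit (p + 1)).ε J' J = 0
        · rw [e, mul_zero]
        · have := key J' e
          rw [if_neg (by omega), if_neg (by omega), zero_mul]

theorem tup_base (ι : Type) [Finite ι] (p : ℕ) :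
    (tupSh ι p).Base Tup.nil fun J => (range J.2).Nonempty :=
  ⟨rfl, fun e k => k.mono e, fun J e =>
    ⟨_, ⟨0, lt_of_lt_of_eq one_pos ((tupSh ι p).sup J _ e).2.symm⟩, rfl⟩⟩

variable {φ : ShH S S'} {P Q : Dg S} {P' : Dg S'}

theorem Dg.Hom.map_one {h : ∀ a, S.rel a a} (F : Dg.Hom (ShH.one S h) P Q) :
    F.map = Dg.dpl fun a => F.g (h a) := by
  refine LinearMap.ext fun c => funext fun a => (mat_apply _ _ c a).trans ?_
  rw [Finset.sum_eq_single a (fun b _ e => ?_) (by simp),
    dif_pos (show (ShH.one S h).R a a from h a)]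
  · simp only [ShH.one, if_true, Int.cast_one, one_smul]
    rfl
  · simp only [ShH.one, if_neg e.symm, Int.cast_zero, zero_smul, dite_eq_ite, ite_self]

theorem Dg.Hom.tot (F : Dg.Hom φ P P') : P'.tot.Mor P.tot F.map 0 :=
  F.mor (fun _ => mapsTo_univ _ _) fun _ => mapsTo_empty _ _

theorem Dg.Hom.map_sgl (F : Dg.Hom φ P P') {i : S.ι} {j : S'.ι} (h : φ.R i j) (h1 : φ.μ i j = 1)
    (h0 : ∀ a, a ≠ i → φ.μ a j = 0) (u : AS (P'.X j)) :
    F.map (P'.sgl j u) = P.sgl i (AS.pull (F.g h) u) := by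
  funext a
  refine (mat_apply _ _ _ a).trans ?_
  rw [Finset.sum_eq_single j (fun b _ e => by simp [P'.sgl_ne e]) (by simp), Dg.sgl_same]
  by_cases e : a = i
  · subst e
    rw [dif_pos h, h1, Dg.sgl_same, Int.cast_one, one_smul]
    rfl
  · simp [h0 a e, P.sgl_ne e]

/-- a square of relative cochains and total complexes -/
structure Dg.Hom.Sqr (F : Dg.Hom φ P P') {i : S.ι} {j : S'.ι} (h : φ.R i j) (A : Set (P.X i))
    (A' : Set (P'.X j)) : Prop where
  h1 : φ.μ i j = 1
  h0 : ∀ a, a ≠ i → φ.μ a j = 0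
  m : MapsTo (F.g h) A A'
  a : (CP univ A).Mor P.tot.cx (P.sgl i) 0
  a' : (CP univ A').Mor P'.tot.cx (P'.sgl j) 0

namespace Dg.Hom.Sqr
variable {F : Dg.Hom φ P P'} {i : S.ι} {j : S'.ι} {h : φ.R i j} {A : Set (P.X i)}
  {A' : Set (P'.X j)} (s : F.Sqr h A A') {n : ℤ}
include s

theorem sq : F.map ∘ₗ P'.sgl j = P.sgl i ∘ₗ AS.pl (F.g h) :=
  LinearMap.ext (F.map_sgl h s.h1 s.h0)

theorem mor : (CP univ A').Mor (CP univ A) (AS.pl (F.g h)) 0 :=
  AS.pull_mor (F.g h).continuous (mapsTo_univ _ _) s.m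

theorem inj (u : (CP univ A').Sur P'.tot.cx (P'.sgl j) 0 n)
    (v : (CP univ A').Inj (CP univ A) (AS.pl (F.g h)) 0 n)
    (w : (CP univ A).Inj P.tot.cx (P.sgl i) 0 n) :
    Function.Injective (F.tot.cx.hm (add_zero n)) := by
  have := Cx.Inj.of_comp_sur s.a' F.tot.cx
    (s.sq ▸ Cx.Inj.comp s.mor ((add_zero n).symm ▸ w) v) u
  rw [add_zero] at this
  exact (F.tot.cx.inj_iff _).1 this

theorem sur (v : (CP univ A').Sur (CP univ A) (AS.pl (F.g h)) 0 n)
    (w : (CP univ A).Sur P.tot.cx (P.sgl i) 0 n) :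
    Function.Surjective (F.tot.cx.hm (add_zero n)) := by
  have := Cx.Sur.of_comp (f' := F.map) (s' := 0) s.a'
    (s.sq ▸ Cx.Sur.comp s.mor s.a ((add_zero n).symm ▸ w) v)
  rw [add_zero] at this
  exact (F.tot.cx.sur_iff _).1 this

theorem range (u : (CP univ A').Sur P'.tot.cx (P'.sgl j) 0 n)
    (v : (CP univ A').Sur (CP univ A) (AS.pl (F.g h)) 0 n) :
    LinearMap.range (F.tot.cx.hm (add_zero n)) = LinearMap.range (s.a.hm (add_zero n)) := by
  have e : F.tot.cx.hm (add_zero n) ∘ₗ s.a'.hm (add_zero n) =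
      s.a.hm (add_zero n) ∘ₗ s.mor.hm (add_zero n) := LinearMap.ext fun x => by
    obtain ⟨x, rfl⟩ := Cx.cls_surj n x
    exact congrArg (P.tot.cx.cls n) (Subtype.ext (F.map_sgl h s.h1 s.h0 x.1))
  rw [← LinearMap.range_comp_of_range_eq_top _
      (LinearMap.range_eq_top.2 ((s.a'.sur_iff (add_zero n)).1 u)), e,
    LinearMap.range_comp_of_range_eq_top _
      (LinearMap.range_eq_top.2 ((s.mor.sur_iff (add_zero n)).1 v))]

end Dg.Hom.Sqr

end Pool.Agent.CS
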