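import Pool.Agent.K.MP_d34769_ag.C42
import Pool.Agent.K.MP_d34769_ag.C43

/-! Stalks, excision, tautness, maps with acyclic fibres. -/

open Set

noncomputable section
namespace Pool.Agent.CS
variable {X Y : Type} [TopologicalSpace X] [CompactSpace X] [T2Space X] [TopologicalSpace Y]
  [CompactSpace Y] [T2Space Y] {n : ℤ} {a : AS X}

theorem mem_CP_G {K A : Set X} : a ∈ (CP K A).G n ↔ a ∈ AS.G X n ∧ ∀ t ∈ A, a ∈ AS.z t :=
  AS.mem_cp_G

theorem mem_CP_N {K A : Set X} : a ∈ (CP K A).N ↔ ∀ t ∈ K, a ∈ AS.z t := AS.mem_cp_N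

theorem stalk_ac (x : X) (h : n ≠ 0) : (CP {x} ∅).Ac n := AS.stalk_ac x h

theorem stalk_zero (x : X) (h : a ∈ (CP {x} ∅).Z 0) : a - a.1 [x] • 1 ∈ AS.z x :=
  AS.stalk_zero h

theorem stalk_B_zero {K A : Set X} (h : a ∈ (CP K A).B 0) {x : X} (hx : x ∈ K) : a.1 [x] = 0 :=
  AS.B_val h hx

theorem stalk_qia (g : C(X, Y)) {x : X} {y : Y} (h : g x = y) :
    (CP {y} ∅).QIa (CP {x} ∅) (AS.pl g) 0 := h ▸ AS.stalk_qia g x

theorem ac_of_subset {K A : Set X} (h : K ⊆ A) (n : ℤ) : (CP K A).Ac n := fun _ ha =>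
  Cx.N_le_B (mem_CP_N.2 fun t ht => (mem_CP_G.1 ha.1).2 t (h ht))

section
variable (g : C(X, Y)) {K A : Set Y} {K' A' : Set X} (hK : IsClosed K) (hA : IsClosed A)
  (hK' : IsClosed K') (hA' : IsClosed A') (mK : MapsTo g K' K) (mA : MapsTo g A' A)
  (e : ∀ x ∈ K', g x ∈ A → x ∈ A')
include hK hA hK' hA' mK mA e

/-- Vietoris-Begle, by germs along the fibres -/
theorem vb (h : ∀ t ∈ K \ A, (CP {t} ∅).QI (CP (K' ∩ g ⁻¹' {t}) ∅) (AS.pl g) 0 n) :
    (CP K A).QI (CP K' A') (AS.pl g) 0 n := by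
  have := isCompact_iff_compactSpace.1 hK'.isCompact
  have hc : Continuous (g ∘ (Subtype.val : K' → X)) := g.continuous.comp continuous_subtype_val
  have e0 : AS.pl (Subtype.val : K' → X) ∘ₗ AS.pl g = AS.pl (g ∘ Subtype.val) :=
    LinearMap.ext fun φ => AS.pull_pull _ _ φ
  have q := AS.vb (n := n) hc hK hA fun t ht => by
    have hF : IsClosed (K' ∩ g ⁻¹' {t}) := hK'.inter (isClosed_singleton.preimage g.continuous)
    have q := Cx.QI.comp (AS.pull_mor (K := K' ∩ g ⁻¹' {t}) (K' := {t}) (A := ∅) (A' := ∅)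
      g.continuous (fun _ h => h.2) (mapsTo_empty _ _))
      (AS.pull_mor continuous_subtype_val (mapsTo_preimage _ _) (mapsTo_preimage _ _))
      (AS.taut (g := (Subtype.val : K' → X)) continuous_subtype_val Subtype.val_injective hF
        isClosed_empty (fun x hx => ⟨⟨x, hx.1.1⟩, rfl⟩) (n + 0)) (h t ht)
    rwa [e0, add_zero, preimage_inter, Subtype.coe_preimage_self, univ_inter] at q
  have e1 : g ∘ (Subtype.val : K' → X) ⁻¹' K = univ := eq_univ_of_forall fun x => mK x.2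
  have e2 : g ∘ (Subtype.val : K' → X) ⁻¹' A = Subtype.val ⁻¹' A' :=
    Set.ext fun x => ⟨e x x.2, fun h => mA h⟩
  rw [e1, e2, ← e0] at q
  exact Cx.QI.left (AS.pull_mor g.continuous mK mA)
    (AS.pull_mor continuous_subtype_val (fun x _ => x.2) fun _ h => h) (AS.taut_val K' hA') q

/-- excision -/
theorem exc (h : ∀ t ∈ K \ A, ∃! x, x ∈ K' ∧ g x = t) :
    (CP K A).QIa (CP K' A') (AS.pl g) 0 := fun n => vb g hK hA hK' hA' mK mA e fun t ht => by
  obtain ⟨x, hx, u⟩ := h t ht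
  have : K' ∩ g ⁻¹' {t} = {x} := Set.ext fun y => ⟨u y, fun e => e ▸ hx⟩
  rw [this]
  exact stalk_qia g hx.2 n

end

theorem exc_pre (g : C(X, Y)) {K A : Set Y} (hK : IsClosed K) (hA : IsClosed A)
    (h : ∀ t ∈ K \ A, ∃! x, g x = t) : (CP K A).QIa (CP (g ⁻¹' K) (g ⁻¹' A)) (AS.pl g) 0 :=
  AS.exc g.continuous hK hA h

/-- tautness -/
theorem taut (K : Set X) [CompactSpace K] {A : Set X} (hA : IsClosed A) :
    (CP K A).QIa (CP (univ : Set K) (Subtype.val ⁻¹' A)) (AS.pl Subtype.val) 0 :=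
  AS.taut_val K hA

theorem taut0 (K : Set X) [CompactSpace K] : (CP K ∅).QIa (CC K) (AS.pl Subtype.val) 0 :=
  AS.taut_val K isClosed_empty

/-- an embedding onto a closed subset -/
theorem taut_inj (g : C(X, Y)) (hg : Function.Injective g) :
    (CP (range g) ∅).QIa (CC X) (AS.pl g) 0 := AS.taut_range0 g.continuous hg

theorem ys1_cl_zero {F : Type} [TopologicalSpace F] {φ : AS F} (h : φ ∈ Zc F) (b : AS F)
    (e : ∀ t, φ - AS.d b ∈ AS.z t) : cl φ = 0 :=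
  (cl_mk ⟨φ, h⟩).trans (Ideal.Quotient.eq_zero_iff_mem.2 ⟨b, mem_Nl.2 e⟩)

theorem ys1_res_Z {K : Set X} [CompactSpace K] (ha : a ∈ (CP K ∅).Z n) :
    AS.pull (Subtype.val : K → X) a ∈ (CC K).Z n :=
  Cx.Zcast ((AS.pull_mor continuous_subtype_val (fun x _ => x.2) (mapsTo_empty _ _)).mem_Z ha)
    (add_zero n)

theorem ys1_Z_mono {K : Set X} (ha : a ∈ (CC X).Z n) : a ∈ (CP K ∅).Z n :=
  AS.mem_cp_Z.2 ⟨(AS.mem_cp_Z.1 ha).1, fun t _ => (AS.mem_cp_Z.1 ha).2 t trivial⟩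

theorem cl_res_eq_zero {K : Set X} (hK : IsClosed K) (ha : a ∈ (CP K ∅).Z n) :
    cl (AS.pull (Subtype.val : K → X) a) = 0 ↔ a ∈ (CP K ∅).B n := by
  have := isCompact_iff_compactSpace.1 hK.isCompact
  rw [cl_eq_zero (ys1_res_Z ha)]
  exact ⟨fun h => (taut0 K).inj n a ha (Cx.Bcast h (add_zero n).symm), fun h => Cx.Bcast
    ((AS.pull_mor continuous_subtype_val (fun x _ => x.2) (mapsTo_empty _ _)).mem_B ha.1 h)
    (add_zero n)⟩

theorem res_cl_eq_zero {K : Set X} (hK : IsClosed K) (ha : a ∈ (CC X).Z n) :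
    HR.res K (cl a) = 0 ↔ a ∈ (CP K ∅).B n := by
  rw [pull_cl _ (Z_Zc ha)]
  exact cl_res_eq_zero hK (ys1_Z_mono ha)

theorem cl_res_mem {K : Set X} (ha : a ∈ (CP K ∅).Z n) :
    AS.pull (Subtype.val : K → X) a ∈ Zc K ∧ cl (AS.pull (Subtype.val : K → X) a) ∈ hr K n := by
  rw [AS.mem_cp_Z] at ha
  have hG := AS.pull_mem_G (Subtype.val : K → X) ha.1.1
  have h : AS.pull (Subtype.val : K → X) a ∈ Zc K := ⟨mem_Nl.2 fun t => by
    rw [← AS.pull_d]; exact AS.z_pull continuous_subtype_val.continuousAt (ha.2 t t.2),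
    (n + 1).toNat, fun l hl => AS.mem_G.1 hG l (by omega)⟩
  exact ⟨h, mem_hr.2 fun m hm => by rw [hp_cl h, AS.e_of_G_ne hG hm, cl_zero]⟩

theorem exists_cl_res {K : Set X} (hK : IsClosed K) {c : HR K} (hc : c ∈ hr K n) :
    ∃ a ∈ (CP K ∅).Z n, cl (AS.pull (Subtype.val : K → X) a) = c := by
  have := isCompact_iff_compactSpace.1 hK.isCompact
  obtain ⟨b, hb, rfl⟩ := exists_cl hc
  obtain ⟨a, ha, e⟩ := (taut0 K).sur n b (Cx.Zcast hb (add_zero n).symm)
  exact ⟨a, ha, ((cl_eq hb (ys1_res_Z ha)).2 (Cx.Bcast e (add_zero n))).symm⟩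

/-- a class that vanishes on a closed set comes from a relative class -/
theorem exists_rel {A : Set X} (hA : IsClosed A) {c : HR X} (hc : c ∈ hr X n)
    (h : HR.res A c = 0) : ∃ a ∈ (CP univ A).Z n, cl a = c := by
  obtain ⟨a, ha, rfl⟩ := exists_cl hc
  obtain ⟨b, hb, e⟩ := AS.mem_cp_B.1 ((res_cl_eq_zero hA ha).1 h)
  have h1 : a - AS.d b ∈ (CP univ A).Z n := AS.mem_cp_Z.2 ⟨⟨sub_mem (AS.mem_cp_Z.1 ha).1.1
    (by simpa using AS.d_mem_G hb.1), e⟩, fun t ht => by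
      rw [map_sub, AS.d_d, sub_zero]; exact (AS.mem_cp_Z.1 ha).2 t ht⟩
  exact ⟨_, h1, ((cl_eq ha (CP_Z_CC h1)).2 (AS.mem_cp_B.2 ⟨b, hb, fun t _ => by simp⟩)).symm⟩

theorem res_cl_rel {A : Set X} (ha : a ∈ (CP univ A).Z n) : HR.res A (cl a) = 0 := by
  rw [pull_cl _ (Z_Zc (CP_Z_CC ha))]
  refine ys1_cl_zero (cl_res_mem (ys1_Z_mono (CP_Z_CC ha))).1 0 fun t => ?_
  rw [map_zero, sub_zero]
  exact AS.z_pull continuous_subtype_val.continuousAt ((AS.mem_cp_Z.1 ha).1.2 t t.2)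

theorem pull_eq_zero_iff (g : C(X, Y)) (hg : Function.Injective g) (c : HR Y) :
    HR.pull g c = 0 ↔ HR.res (range g) c = 0 := by
  let e := (g.continuous.isClosedEmbedding hg).isEmbedding.toHomeomorph
  have : HR.pull (e : C(X, range g)) (HR.res (range g) c) = HR.pull g c := HR.pull_pull _ _ c
  rw [← this]
  exact map_eq_zero_iff _ (HR.pull_bij e).1

theorem pull_eq_zero_of {K : Set Y} (g : C(X, Y)) (h : ∀ x, g x ∈ K) {c : HR Y}
    (hc : HR.res K c = 0) : HR.pull g c = 0 := by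
  have : HR.pull (⟨fun x => ⟨g x, h x⟩, g.continuous.subtype_mk h⟩ : C(X, K)) (HR.res K c) =
      HR.pull g c := HR.pull_pull _ _ c
  rw [← this, hc, map_zero]

theorem ys1_res_mono {F : Type} [TopologicalSpace F] {K K' : Set F} (h : K ⊆ K') {c : HR F}
    (hc : HR.res K' c = 0) : HR.res K c = 0 := by
  have : HR.pull (⟨inclusion h, continuous_inclusion h⟩ : C(K, K')) (HR.res K' c) = HR.res K c :=
    HR.pull_pull _ _ c
  rw [← this, hc, map_zero]

/-- a class that vanishes on a closed set vanishes near it -/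
theorem res_nhds {A : Set X} (hA : IsClosed A) {c : HR X} (h : HR.res A c = 0) :
    ∃ O, IsOpen O ∧ A ⊆ O ∧ HR.res O c = 0 := by
  have key : ∀ p : ℕ, ∃ O, IsOpen O ∧ A ⊆ O ∧ HR.res O (hp X p c) = 0 := fun p => by
    obtain ⟨a, ha, e⟩ := exists_cl (hp_mem p c)
    obtain ⟨b, -, hb⟩ := AS.mem_cp_B.1 ((res_cl_eq_zero hA ha).1
      (by rw [e, ← hp_pull, h, map_zero]))
    refine ⟨_, AS.z_open (a - AS.d b), hb, ?_⟩
    rw [← e, pull_cl _ (Z_Zc ha)]
    refine ys1_cl_zero (cl_res_mem (ys1_Z_mono ha)).1 (AS.pull Subtype.val b) fun t => ?_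
    have := AS.z_pull (g := Subtype.val) (x := t) continuous_subtype_val.continuousAt t.2
    rwa [map_sub, AS.pull_d] at this
  choose O hO hA hc using key
  obtain ⟨M, -, e⟩ := exists_sum_hp c
  refine ⟨⋂ p ∈ Finset.range M, O p, isOpen_biInter_finset fun p _ => hO p,
    subset_iInter₂ fun p _ => hA p, ?_⟩
  rw [e M le_rfl, map_sum]
  exact Finset.sum_eq_zero fun p hp => ys1_res_mono (biInter_subset_of_mem hp) (hc p)

/-- the space has the cohomology of a point in degrees `< n` -/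
def PtTo (F : Type) [TopologicalSpace F] (n : ℤ) : Prop :=
  Nonempty F ∧ ∀ k < n, hr F k ≤ Submodule.span ℂ {1}

theorem ptTo_unique (F : Type) [TopologicalSpace F] [Unique F] (n : ℤ) : PtTo F n := by
  refine ⟨inferInstance, fun k _ c hc => ?_⟩
  obtain ⟨a, ha, rfl⟩ := exists_cl hc
  have h : a - a.1 [default] • 1 ∈ (CC F).B k := by
    have := AS.stalk_B (x := default) (ys1_Z_mono ha)
    rwa [← univ_unique] at this
  rw [(cl_eq ha (AS.val_smul_one_Z (AS.mem_cp_Z.1 ha).1.1 default)).2 h, cl_smul, cl_one]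
  exact Submodule.smul_mem _ _ (Submodule.mem_span_singleton_self _)

theorem hr_point (F : Type) [TopologicalSpace F] [Subsingleton F] (h : n ≠ 0) : hr F n = ⊥ := by
  refine (ac_iff n).1 ?_
  cases isEmpty_or_nonempty F with
  | inl e => exact ac_of_subset (fun x => e.elim x) n
  | inr e =>
    obtain ⟨x⟩ := e
    have := stalk_ac x h
    rwa [show ({x} : Set F) = univ from eq_univ_of_forall fun y => Subsingleton.elim y x] at this

theorem PtTo.hr {F : Type} [TopologicalSpace F] (h : PtTo F n) {k : ℤ} (hk : k < n) (h0 : k ≠ 0) :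
    hr F k = ⊥ := eq_bot_iff.2 fun c hc => by
  obtain ⟨r, rfl⟩ := Submodule.mem_span_singleton.1 (h.2 k hk hc)
  exact hr_disj hc (Submodule.smul_mem _ _ one_mem_hr) h0

theorem PtTo.qi (g : C(X, Y)) {t : Y} {F : Set X} (hF : IsClosed F) (m : ∀ x ∈ F, g x = t)
    (h : PtTo F n) : (CP {t} ∅).QI (CP F ∅) (AS.pl g) 0 n := by
  obtain ⟨x, hx⟩ := h.1
  refine ⟨fun k _ ψ hψ e => ?_, fun k hk φ hφ => ?_⟩
  · have := AS.stalk_B hψ
    rwa [show ψ.1 [t] = 0 from m x hx ▸ AS.B_val (φ := AS.pull g ψ) e hx, zero_smul, sub_zero]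
      at this
  · rw [add_zero] at hφ ⊢
    by_cases h0 : k = 0
    · subst h0
      obtain ⟨r, e⟩ := Submodule.mem_span_singleton.1 (h.2 0 hk (cl_res_mem hφ).2)
      refine ⟨r • 1, Submodule.smul_mem _ _ AS.one_mem_Z, ?_⟩
      have h1 : r • (1 : AS X) ∈ (CP F ∅).Z 0 := Submodule.smul_mem _ _ AS.one_mem_Z
      have := (cl_res_eq_zero hF (sub_mem hφ h1)).1 (by
        rw [map_sub, cl_sub (cl_res_mem hφ).1 (cl_res_mem h1).1, ← e, map_smul, map_one, cl_smul,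
          cl_one, sub_self])
      simpa using this
    · refine ⟨0, zero_mem _, ?_⟩
      rw [map_zero, sub_zero]
      exact (cl_res_eq_zero hF hφ).1 ((Submodule.mem_bot ℂ).1 (h.hr hk h0 ▸ (cl_res_mem hφ).2))

end Pool.Agent.CS
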