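import Pool.Agent.K.MP_d34769_ag.C44

/-! Homotopy invariance. -/

open Set

noncomputable section
namespace Pool.Agent.CS
variable {X Y : Type} [TopologicalSpace X] [CompactSpace X] [T2Space X] [TopologicalSpace Y]
  [CompactSpace Y] [T2Space Y] {n : ℤ}

theorem ys2_stalk {a : AS X} {x : X} (hG : a ∈ AS.G X n) (hd : AS.d a ∈ AS.z x) :
    a ∈ (CP {x} ∅).Z n :=
  ⟨mem_CP_G.2 ⟨hG, fun _ h => h.elim⟩, (mem_CP_N (A := ∅)).2 fun _ h => mem_singleton_iff.1 h ▸ hd⟩

/-- a cocycle near a point is the germ of a strict cocycle -/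
theorem ys2_strict {a : AS X} {x : X} (hG : a ∈ AS.G X n) (hd : AS.d a ∈ AS.z x) :
    ∃ u ∈ AS.G X n, AS.d u = 0 ∧ a - u ∈ AS.z x := by
  by_cases h : n = 0
  · subst h
    exact ⟨a.1 [x] • 1, Submodule.smul_mem _ _ AS.one_mem_G, by rw [map_smul, AS.d_one, smul_zero],
      stalk_zero x (ys2_stalk hG hd)⟩
  · obtain ⟨b, hb, e⟩ := Cx.mem_B.1 (stalk_ac x h (ys2_stalk hG hd))
    refine ⟨AS.d b, ?_, AS.d_d b, mem_CP_N.1 e x rfl⟩
    have := AS.d_mem_G (mem_CP_G.1 hb).1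
    rwa [sub_add_cancel] at this

theorem hr_zero_connected [ConnectedSpace X] : hr X 0 = Submodule.span ℂ {1} := by
  refine le_antisymm (fun c hc => ?_) ((Submodule.span_singleton_le_iff_mem _ _).2 one_mem_hr)
  obtain ⟨a, ha, rfl⟩ := exists_cl hc
  have h1 : ∀ x : X, a - a.1 [x] • 1 ∈ AS.z x := fun x =>
    stalk_zero x (ys2_stalk (mem_CP_G.1 ha.1).1 ((mem_CP_N (A := ∅)).1 ha.2 x trivial))
  have h2 : IsLocallyConstant fun x : X => a.1 [x] := by
    refine (IsLocallyConstant.iff_eventually_eq _).2 fun x => ?_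
    obtain ⟨O, hO, h⟩ := h1 x
    filter_upwards [hO] with y hy
    have := h [y] (by simpa using hy)
    rw [AS.val_sub, AS.val_smul, AS.val_one, if_pos (List.length_singleton), mul_one] at this
    exact sub_eq_zero.1 this
  obtain ⟨r, hr⟩ := h2.exists_eq_const
  have h3 : (r • 1 : AS X) ∈ (CC X).Z 0 :=
    ⟨mem_CP_G.2 ⟨Submodule.smul_mem _ _ AS.one_mem_G, fun _ h => h.elim⟩, by
      change AS.d (r • 1 : AS X) ∈ (CC X).N
      rw [map_smul, AS.d_one, smul_zero]
      exact zero_mem _⟩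
  have h4 : cl a = cl (r • 1 : AS X) := (cl_eq ha h3).2 (Cx.N_le_B (mem_CP_N.2 fun x _ => by
    have e : a.1 [x] = r := congrFun hr x
    exact e ▸ h1 x))
  rw [h4, cl_smul, cl_one]
  exact Submodule.smul_mem _ _ (Submodule.mem_span_singleton_self _)

theorem ys2_interval (h : n ≠ 0) : (CC unitInterval).Ac n := by
  intro a ha
  have hG := (mem_CP_G.1 ha.1).1
  have hloc : ∀ x : unitInterval, ∃ b ∈ AS.G unitInterval (n - 1), a - AS.d b ∈ AS.z x := fun x => by
    obtain ⟨b, hb, e⟩ := Cx.mem_B.1 (stalk_ac x h (ys2_stalk hG ((mem_CP_N (A := ∅)).1 ha.2 x trivial)))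
    exact ⟨b, (mem_CP_G.1 hb).1, mem_CP_N.1 e x rfl⟩
  choose b hb hz using hloc
  obtain ⟨t, t0, tm, ⟨M, tM⟩, ht⟩ := exists_monotone_Icc_subset_open_cover_unitInterval
    (c := fun x => {s | a - AS.d (b x) ∈ AS.z s}) (fun x => AS.z_open _)
    fun x _ => mem_iUnion.2 ⟨x, hz x⟩
  have key : ∀ j, ∃ c ∈ AS.G unitInterval (n - 1), ∀ s ∈ Iic (t j), a - AS.d c ∈ AS.z s := by
    intro j
    induction j with
    | zero =>
      refine ⟨b 0, hb 0, fun s hs => ?_⟩
      rw [t0] at hs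
      have : s = 0 := le_antisymm hs s.2.1
      exact this ▸ hz 0
    | succ j ih =>
      obtain ⟨c, hc, e⟩ := ih
      obtain ⟨x, hx⟩ := ht j
      have hx' : ∀ s ∈ Icc (t j) (t (j + 1)), a - AS.d (b x) ∈ AS.z s := hx
      obtain ⟨u, hu, du, eu⟩ := ys2_strict (x := t j) (Submodule.sub_mem _ hc (hb x))
        (Cx.meq (Submodule.sub_mem _ (hx' (t j) ⟨le_rfl, tm (Nat.le_succ j)⟩) (e (t j) self_mem_Iic))
          (by rw [map_sub]; abel))
      obtain ⟨v, hv, e1, e2⟩ := (AS.sc unitInterval).glue (Iic (t j)) (Icc (t j) (t (j + 1)))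
        isClosed_Iic isClosed_Icc (n - 1) (c - b x - u)
        (Submodule.sub_mem _ (Submodule.sub_mem _ hc (hb x)) hu)
        fun s hs => (le_antisymm hs.2.1 hs.1 : t j = s) ▸ eu
      refine ⟨b x + u + v, Submodule.add_mem _ (Submodule.add_mem _ (hb x) hu) hv, fun s hs => ?_⟩
      rcases le_total s (t j) with h1 | h1
      · exact Cx.meq (Submodule.sub_mem _ (e s h1) (AS.z_d (e1 s h1)))
          (by simp only [map_sub, map_add]; abel)
      · exact Cx.meq (Submodule.sub_mem _ (hx' s ⟨h1, hs⟩) (AS.z_d (e2 s ⟨h1, hs⟩)))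
          (by simp only [map_add, du]; abel)
  obtain ⟨c, hc, e⟩ := key M
  rw [tM M le_rfl] at e
  exact Cx.mem_B.2 ⟨c, mem_CP_G.2 ⟨hc, fun _ h => h.elim⟩, mem_CP_N.2 fun s _ => e s s.2.2⟩

theorem ptTo_interval (n : ℤ) : PtTo unitInterval n := by
  refine ⟨inferInstance, fun k _ => ?_⟩
  by_cases h : k = 0
  · rw [h, hr_zero_connected]
  · rw [(ac_iff k).1 (ys2_interval h)]
    exact bot_le

theorem PtTo.of_factor {F F' : Type} [TopologicalSpace F] [TopologicalSpace F'] [Nonempty F]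
    (i : C(F, F')) (r : C(F', F)) (e : ∀ c, HR.pull (r.comp i) c = c) (h : PtTo F' n) :
    PtTo F n := by
  refine ⟨inferInstance, fun k hk c hc => ?_⟩
  obtain ⟨s, hs⟩ := Submodule.mem_span_singleton.1 (h.2 k hk (pull_mem_hr r hc))
  rw [← e c, ← HR.pull_pull, ← hs, map_smul, map_one]
  exact Submodule.smul_mem _ _ (Submodule.mem_span_singleton_self _)

theorem fst_qia {K A : Set X} (hK : IsClosed K) (hA : IsClosed A) :
    (CP K A).QIa (CP (Prod.snd ⁻¹' K : Set (unitInterval × X)) (Prod.snd ⁻¹' A))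
      (AS.pl Prod.snd) 0 := by
  intro n
  let g : C(unitInterval × X, X) := ⟨Prod.snd, continuous_snd⟩
  refine vb g hK hA (hK.preimage continuous_snd) (hA.preimage continuous_snd) (fun _ h => h)
    (fun _ h => h) (fun _ _ h => h) fun t ht => PtTo.qi g
      ((hK.preimage continuous_snd).inter (isClosed_singleton.preimage g.continuous))
      (fun _ h => h.2) ?_
  let r : C(unitInterval, ↥((Prod.snd ⁻¹' K : Set (unitInterval × X)) ∩ g ⁻¹' {t})) :=
    ⟨fun s => ⟨(s, t), ht.1, rfl⟩, by fun_prop⟩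
  have : Nonempty ↥((Prod.snd ⁻¹' K : Set (unitInterval × X)) ∩ g ⁻¹' {t}) := ⟨r 0⟩
  refine PtTo.of_factor ⟨fun p => p.1.1, by fun_prop⟩ r (fun c => ?_) (ptTo_interval n)
  rw [show r.comp ⟨fun p => p.1.1, _⟩ = ContinuousMap.id _ from
    ContinuousMap.ext fun p => Subtype.ext (Prod.ext rfl p.2.2.symm), HR.pull_id]

theorem htpy {f g : C(X, Y)} (H : f.Homotopy g) {K A : Set X} {K' A' : Set Y} (hK : IsClosed K)
    (hA : IsClosed A) (mK : ∀ t, ∀ x ∈ K, H (t, x) ∈ K') (mA : ∀ t, ∀ x ∈ A, H (t, x) ∈ A') :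
    ∀ a ∈ (CP K' A').Z n, AS.pull f a - AS.pull g a ∈ (CP K A).B n := by
  intro a ha
  have h1 := (mor_pl H.toContinuousMap (K := Prod.snd ⁻¹' K) (A := Prod.snd ⁻¹' A)
    (fun p hp => mK p.1 p.2 hp) fun p hp => mA p.1 p.2 hp).mem_Z ha
  obtain ⟨x, hx, e⟩ := (fst_qia hK hA).sur n _ h1
  have hx' := (mor_pl (⟨Prod.snd, continuous_snd⟩ : C(unitInterval × X, X))
    (K := Prod.snd ⁻¹' K) (A := Prod.snd ⁻¹' A) (fun _ h => h) fun _ h => h).mem_Z hx
  have h2 : ∀ t : unitInterval, AS.pull (fun y => H (t, y)) a - x ∈ (CP K A).B n := by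
    intro t
    have h3 := (mor_pl (⟨fun y => (t, y), by fun_prop⟩ : C(X, unitInterval × X)) (K := K) (A := A)
      (K' := Prod.snd ⁻¹' K) (A' := Prod.snd ⁻¹' A) (fun _ h => h) fun _ h => h).mem_B
      (Submodule.sub_mem _ h1.1 hx'.1) e
    rw [add_zero, add_zero] at h3
    refine Cx.meq h3 ?_
    refine AS.ext fun l => ?_
    simp [Function.comp_def]
  have h4 := Submodule.sub_mem _ (h2 0) (h2 1)
  rw [sub_sub_sub_cancel_right] at h4
  simpa only [H.apply_zero, H.apply_one] using h4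

theorem HR.pull_homotopic {f g : C(X, Y)} (h : f.Homotopic g) : HR.pull f = HR.pull g := by
  obtain ⟨H⟩ := h
  refine AlgHom.ext (hr_induction (by rw [map_zero, map_zero])
    (fun a b ha hb => by rw [map_add, map_add, ha, hb]) fun p c hc => ?_)
  obtain ⟨a, ha, rfl⟩ := exists_cl hc
  have hz : ∀ k : C(X, Y), AS.pull k a ∈ (CC X).Z p := fun k =>
    Cx.Zcast ((mor_pl k (mapsTo_univ _ _) (mapsTo_empty _ _)).mem_Z ha) (add_zero _)
  rw [pull_cl f (Z_Zc ha), pull_cl g (Z_Zc ha), cl_eq (hz f) (hz g)]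
  exact htpy H isClosed_univ isClosed_empty (fun _ _ _ => mem_univ _) (fun _ _ h => h.elim) a ha

/-- a pair that can be deformed into its second member -/
theorem ac_of_deform {r : C(X, X)} (H : (ContinuousMap.id X).Homotopy r) {K A : Set X}
    (hK : IsClosed K) (hA : IsClosed A) (mK : ∀ t, ∀ x ∈ K, H (t, x) ∈ K)
    (mA : ∀ t, ∀ x ∈ A, H (t, x) ∈ A) (hr : MapsTo r K A) (n : ℤ) : (CP K A).Ac n := by
  intro a ha
  have h1 := htpy H hK hA mK mA a ha
  have h2 : AS.pull r a ∈ (CP K A).B n := Cx.N_le_B (mem_CP_N.2 fun x hx =>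
    AS.z_pull r.continuous.continuousAt ((mem_CP_G.1 ha.1).2 _ (hr hx)))
  have h3 := Submodule.add_mem _ h1 h2
  rwa [sub_add_cancel, ContinuousMap.coe_id, AS.pull_id] at h3

theorem ptTo_contractible [ContractibleSpace X] (n : ℤ) : PtTo X n := by
  obtain ⟨y, hy⟩ := id_nullhomotopic X
  have : Nonempty X := ⟨y⟩
  refine PtTo.of_factor (ContinuousMap.const X ()) (ContinuousMap.const Unit y) (fun c => ?_)
    (ptTo_unique Unit n)
  rw [ContinuousMap.const_comp, ← HR.pull_homotopic hy, HR.pull_id]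

theorem ptTo_convex {V : Type} [NormedAddCommGroup V] [NormedSpace ℝ V] {K : Set V}
    (hK : IsCompact K) (hc : Convex ℝ K) (hne : K.Nonempty) (n : ℤ) : PtTo K n := by
  have := isCompact_iff_compactSpace.1 hK
  have := hc.contractibleSpace hne
  exact ptTo_contractible n

end Pool.Agent.CS
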