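import Pool.Agent.K.MP_d34769_ag.C38
import Pool.Agent.K.MP_d34769_ag.C40
import Pool.Agent.K.MP_d34769_ag.C49
import Pool.Agent.K.MP_d34769_ag.C50

/-! The product of projective space with the diagram of strata. -/

open Set
open Pool.Agent.HT (Amb IsSNC strat)
open Pool.Agent.HIR (Prj Mf HolP ptr)

noncomputable section
namespace Pool.Agent.CS

/-- the points of `X` that lie in all `A i` with `i ∈ B` -/
def cap {E ι : Type} (X : Set E) (A : ι → Set E) (B : Set ι) : Set E :=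
  {x | x ∈ X ∧ ∀ i ∈ B, x ∈ A i}

theorem cap_anti {E ι : Type} {X X' : Set E} {A : ι → Set E} {B B' : Set ι} (h : X ⊆ X')
    (h' : B' ⊆ B) : cap X A B ⊆ cap X' A B' := fun _ hx => ⟨h hx.1, fun i hi => hx.2 i (h' hi)⟩

theorem cap_nil {E ι : Type} {X : Set E} {A : ι → Set E} {p : ℕ} :
    cap X A (range (Tup.nil : Tup ι p).2) = X :=
  Set.ext fun _ => ⟨fun h => h.1, fun h => ⟨h, fun _ ⟨j, _⟩ => j.elim0⟩⟩

theorem pa_cap {M : ℕ} {ι : Type} [Finite ι] {X : Set (Amb M)} {A : ι → Set (Amb M)} (hX : PA X)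
    (hA : ∀ i, PA (X ∩ A i)) (B : Set ι) : PA (cap X A B) := by
  induction B, B.toFinite using Set.Finite.induction_on with
  | empty =>
    rwa [show cap X A ∅ = X from Set.ext fun _ => ⟨fun h => h.1, fun h => ⟨h, fun _ k => k.elim⟩⟩]
  | @insert a B _ _ ih =>
    rw [show cap X A (insert a B) = X ∩ A a ∩ cap X A B from Set.ext fun x =>
      ⟨fun k => ⟨⟨k.1, k.2 _ (.inl rfl)⟩, k.1, fun i hi => k.2 i (.inr hi)⟩,
        fun k => ⟨k.1.1, fun i hi => hi.elim (· ▸ k.1.2) (k.2.2 i)⟩⟩]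
    exact (hA a).inter ih

section pe
variable {X B μ : Type} [Fintype μ] [TopologicalSpace X] [CompactSpace X] [T2Space X]
  [TopologicalSpace B] [CompactSpace B] [T2Space B] {r : ℕ} {π : C(X, B)} {E : Bun B μ r}
  {L : Bun X μ 1} {n : ℤ} {u : Fin r → AS B}

theorem xq_pow_YI8 (L : Bun X μ 1) (k : ℕ) :
    L.xq ^ k ∈ (CC X).Z (2 * k) ∧ cl (L.xq ^ k) = (L.x ^ k).1 := by
  induction k with
  | zero => rw [pow_zero, pow_zero]; exact ⟨AS.one_mem_Z, cl_one⟩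
  | succ k ih =>
    rw [pow_succ, pow_succ, cl_mul (Z_Zc ih.1) L.xq_Zc, ih.2]
    exact ⟨Cx.Zcast (mul_mem_Z ih.1 L.xq_mem) (by push_cast; ring), rfl⟩

theorem pe_sum_YI8 (π : C(X, B)) (L : Bun X μ 1) (hu : ∀ b, u b ∈ (CC B).Z (n - tw2 b)) :
    ∑ b, AS.pull π (u b) * L.xq ^ b.1 ∈ (CC X).Z n ∧
      cl (∑ b, AS.pull π (u b) * L.xq ^ b.1) = ∑ b, HR.pull π (cl (u b)) * (L.x ^ b.1).1 := by
  have h1 : ∀ b, AS.pull π (u b) * L.xq ^ b.1 ∈ (CC X).Z n := fun b =>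
    Cx.Zcast (mul_mem_Z (pull_mem_Z π (hu b)) (xq_pow_YI8 L b).1) (sub_add_cancel _ _)
  refine ⟨Submodule.sum_mem _ fun b _ => h1 b, (cl_sum _ fun b _ => Z_Zc (h1 b)).trans
    (Finset.sum_congr rfl fun b _ => ?_)⟩
  rw [cl_mul (Z_Zc (pull_mem_Z π (hu b))) (Z_Zc (xq_pow_YI8 L b).1), (xq_pow_YI8 L b).2,
    pull_cl π (Z_Zc (hu b))]

theorem IsPE.inj_YI8 (h : IsPE π E L) (hu : ∀ b, u b ∈ (CC B).Z (n - tw2 b))
    (e : ∑ b, AS.pull π (u b) * L.xq ^ b.1 ∈ (CC X).B n) (b : Fin r) :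
    u b ∈ (CC B).B (n - tw2 b) :=
  (cl_eq_zero (hu b)).1 (congrFun (h.inj' ((pe_sum_YI8 π L hu).2.symm.trans
    ((cl_eq_zero (pe_sum_YI8 π L hu).1).2 e))) b)

theorem IsPE.sur_YI8 (h : IsPE π E L) {y : AS X} (hy : y ∈ (CC X).Z n) :
    ∃ u : Fin r → AS B, (∀ b, u b ∈ (CC B).Z (n - tw2 b)) ∧
      y - ∑ b, AS.pull π (u b) * L.xq ^ b.1 ∈ (CC X).B n := by
  obtain ⟨c, hc, e⟩ := h.sur' (cl_mem_hr hy)
  choose u hu e' using fun b => exists_cl (hc b)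
  have hu' : ∀ b, u b ∈ (CC B).Z (n - tw2 b) := fun b => Cx.Zcast (hu b) (by simp [tw2])
  refine ⟨u, hu', (cl_eq hy (pe_sum_YI8 π L hu').1).1 ?_⟩
  rw [(pe_sum_YI8 π L hu').2, e]
  simp only [e']

end pe

theorem rank_pi_YI8 {r : ℕ} (V : Fin r → Type) [∀ i, AddCommGroup (V i)] [∀ i, Module ℂ (V i)] :
    Module.rank ℂ (∀ i, V i) = ∑ i, Module.rank ℂ (V i) := by
  induction r with
  | zero => exact rank_subsingleton' _ _
  | succ r ih => rw [← (Fin.consLinearEquiv ℂ V).rank_eq, rank_prod', ih, Fin.sum_univ_succ]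

theorem sq_pi_YI8 {r : ℕ} {V : Fin r → Type} [∀ i, AddCommGroup (V i)] [∀ i, Module ℂ (V i)]
    {H : Type} [AddCommGroup H] [Module ℂ H] (φ : (∀ i, V i) ≃ₗ[ℂ] H) {A B : Submodule ℂ H}
    {A' B' : ∀ i, Submodule ℂ (V i)} (hA : ∀ x, φ x ∈ A ↔ ∀ i, x i ∈ A' i)
    (hB : ∀ x, φ x ∈ B ↔ ∀ i, x i ∈ B' i) :
    Module.rank ℂ (Sq A B) = ∑ i, Module.rank ℂ (Sq (A' i) (B' i)) := by
  have h0 := fun x : A => (hA _).1 ((φ.apply_symm_apply x).symm ▸ x.2)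
  obtain ⟨g, hg⟩ : ∃ g : A →ₗ[ℂ] ∀ i, Sq (A' i) (B' i),
      ∀ x i, g x i = Sq.mk _ _ ⟨φ.symm x.1 i, h0 x i⟩ :=
    ⟨.pi fun i => Sq.mk _ _ ∘ₗ .codRestrict _ (.proj i ∘ₗ φ.symm.toLinearMap ∘ₗ A.subtype)
      fun x => h0 x i, fun _ _ => rfl⟩
  have h1 : LinearMap.ker (Sq.mk A B) = LinearMap.ker g := by
    ext x
    simp only [LinearMap.mem_ker, funext_iff, hg, Pi.zero_apply, Sq.mk_eq_zero, ← hB,
      LinearEquiv.apply_symm_apply]
  have h2 : Function.Surjective g := fun y => by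
    choose x hx using fun i => Sq.mk_surj _ _ (y i)
    refine ⟨⟨φ fun i => x i, (hA _).2 fun i => (x i).2⟩, funext fun i => ?_⟩
    simp only [hg, LinearEquiv.symm_apply_apply, hx]
  rw [← ((Sq.mk A B).quotKerEquivOfSurjective (Sq.mk_surj A B)).rank_eq, h1,
    (g.quotKerEquivOfSurjective h2).rank_eq, rank_pi_YI8]

theorem zero_YI8 {S : Sh} {Q : Dg S} {i : S.ι} {A : Set (Q.X i)} {j : ℤ} (hA : univ ⊆ A)
    (m : (CP univ A).Mor Q.tot.cx (Q.sgl i) 0) (q : (CP univ A).Sur Q.tot.cx (Q.sgl i) 0 j) :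
    Subsingleton (Q.tot.cx.H j) := subsingleton_of_forall_eq 0 fun a => by
  obtain ⟨y, rfl⟩ := Cx.cls_surj _ a
  obtain ⟨x, hx, k⟩ := q y.1 (Cx.Zcast y.2 (add_zero j).symm)
  exact Cx.cls_eq_zero.2 (Cx.Bcast (Cx.meq (add_mem k (m.mem_B hx.1 (ac_of_subset hA j hx)))
    (sub_add_cancel _ _)) (add_zero j))

variable {N e : ℕ} {ι : Type} {Z : Set (Amb N)} {D : ι → Set (Amb N)}

/-- the product with projective space -/
def prZ (M : ℕ) (Z : Set (Amb N)) : Set (Amb (M * N)) := Sgr fun x z => x ∈ Prj M ∧ z ∈ Z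

theorem cap_prZ (hZ : Z ⊆ Prj N) (M : ℕ) {p : ℕ} (J : Fin p → ι) :
    cap (prZ M Z) (fun i => ptr2 M N ⁻¹' D i) (range J) = prZ M (strat Z D J) := by
  ext s
  constructor
  · rintro ⟨⟨x, z, ⟨hx, hz⟩, rfl⟩, k⟩
    exact ⟨x, z, ⟨hx, hz, mem_iInter.2 fun j => ptr2_seg hx (hZ hz) ▸ k _ ⟨j, rfl⟩⟩, rfl⟩
  · rintro ⟨x, z, ⟨hx, hz⟩, rfl⟩
    refine ⟨⟨x, z, ⟨hx, hz.1⟩, rfl⟩, ?_⟩
    rintro _ ⟨j, rfl⟩
    rw [mem_preimage, ptr2_seg hx (hZ hz.1)]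
    exact mem_iInter.1 hz.2 j

theorem mf_prj (M : ℕ) : Mf (M - 1) (Prj M) := by
  cases M with
  | zero =>
    rw [show Prj 0 = ∅ from eq_empty_of_forall_notMem fun _ ⟨_, hv, _⟩ => hv (Subsingleton.elim _ _)]
    exact ⟨isCompact_empty, fun _ h => h.elim⟩
  | succ N => exact HIR.mf_Prj N

variable [Finite ι] (h : IsSNC e Z D) (M p : ℕ)
include h

theorem snc_pa : PA Z ∧ ∀ i, PA (D i) := by
  refine ⟨?_, fun i => ?_⟩
  · have := pa_of_mf (mf_strat h (Fin.elim0 : Fin 0 → ι))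
    rwa [strat, iInter_of_empty, inter_univ] at this
  · have := pa_of_mf (mf_strat h fun _ : Fin 1 => i)
    rwa [strat, iInter_const, inter_eq_right.2 (h.sub i)] at this

theorem mf_cap {q : ℕ} (J : Fin q → ι) : Mf (M - 1 + (e - (range J).ncard))
    (cap (prZ M Z) (fun i => ptr2 M N ⁻¹' D i) (range J)) := by
  rw [cap_prZ (snc_pa h).1.1]
  exact mf_sgr (mf_prj M) (mf_strat h J)

/-- the diagram of the products of projective space with the strata -/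
def TP : SDg (tupSh ι p) where
  M _ := M * N
  X J := cap (prZ M Z) (fun i => ptr2 M N ⁻¹' D i) (range J.2)
  f _ _ := id
  dm J := M - 1 + (e - (range J.2).ncard)
  mf J := mf_cap h M J.2
  maps r := cap_anti Subset.rfl r
  hol _ := HIR.holP_id
  comp _ _ _ _ := rfl

/-- the projection to the strata -/
def TP.hom : SDg.Hom (ShH.one (tupSh ι p) fun _ => Subset.rfl) (TP h M p) (sncDg h p) where
  g _ _ := ptr2 M N
  maps {J J'} r s hs := by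
    obtain ⟨x, z, ⟨hx, hz⟩, rfl⟩ := (cap_prZ (snc_pa h).1.1 M J.2).subset hs
    exact (ptr2_seg hx ((snc_pa h).1.1 hz.1)).symm ▸ strat_mono r hz
  hol {J _} _ := (ar_prod pa_Prj (snc_pa h).1).hp_ptr2 _ _ _ id (mf_cap h M J.2) HIR.holP_id
    fun _ hx => hx.1
  gl _ _ _ _ := rfl
  gr _ _ _ _ := rfl

theorem TP.free : ∃ ξ : ∀ J, Fin M → AS ((TP h M p).toDg.X J),
    Free (P := (TP h M p).toDg) (Q := (sncDg h p).toDg)
      (fun J => (TP.hom h M p).toHom.g (show (tupSh ι p).rel J J from Subset.rfl)) ξ ∧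
      ∀ (hr : 0 < M) J, ξ J ⟨0, hr⟩ = 1 := by
  have hZ := (snc_pa h).1.1
  have h0 : ∀ (J : (tupSh ι p).ι) (t : (TP h M p).X J), ptr M N t.1 ∈ Prj M ∧
      t.1 = seg (ptr M N t.1) (ptr2 M N t.1) := by
    rintro J ⟨_, ⟨x, z, ⟨hx, hz⟩, rfl⟩, -⟩
    exact ⟨(ptr_seg hx (hZ hz)).symm ▸ hx,
      (congrArg₂ seg (ptr_seg hx (hZ hz)) (ptr2_seg hx (hZ hz))).symm⟩
  let L : ∀ J, Bun ((TP h M p).toDg.X J) (Fin M) 1 := fun J => prjL (fun t => ptr M N t.1)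
    (HIR.cont_ptr.comp continuous_subtype_val) fun t => (h0 J t).1
  have h1 : ∀ J : (tupSh ι p).ι, IsPE ((TP.hom h M p).toHom.g
      (show (tupSh ι p).rel J J from Subset.rfl)) (Bun.const _ (op_one M)) (L J) := fun J => by
    refine ⟨fun _ => Matrix.one_mul _, fun x y a b => Subtype.ext ((h0 J x).2.trans
      ((congrArg₂ seg (HT.amat_inj b) (congrArg Subtype.val a)).trans (h0 J y).2.symm)),
      fun t l a _ => ?_⟩
    obtain ⟨v, hv, rfl⟩ := a.exists_lnv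
    have hx : HT.proj v ∈ Prj M := ⟨v, hv, rfl⟩
    exact ⟨⟨seg (HT.proj v) t.1, (cap_prZ hZ M J.2).superset ⟨_, _, ⟨hx, t.2⟩, rfl⟩⟩,
      Subtype.ext (ptr2_seg hx (hZ t.2.1)),
      (congrArg HT.amat (ptr_seg hx (hZ t.2.1))).trans (amat_lnv_YC6 v)⟩
  exact ⟨fun J b => (L J).xq ^ b.1, ⟨fun _ _ => rfl, fun J b => (xq_pow_YI8 (L J) b).1,
    fun r b => (map_pow _ _ _).trans (congrArg (· ^ b.1) (Bun.xq_comap _ _)),
    fun J _ _ => (h1 J).inj_YI8, fun J _ _ => (h1 J).sur_YI8⟩, fun _ _ => pow_zero _⟩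

/-- if the divisors cover everything there is no cohomology -/
theorem snc_zero (hG : Z \ ⋃ i, D i = ∅) {j : ℤ} (hj : j < p) :
    Subsingleton ((sncDg h p).bc.cx.H j) := by
  refine zero_YI8 (fun t _ => ?_) ((sncDg h p).toDg.sgl_mor (i := Tup.nil) rfl fun J e k x => ?_)
    ((simp_qi (sncDg h p).toDg (fun i => Subtype.val ⁻¹' D i)
    (fun i => (snc_closed h i).preimage continuous_subtype_val) (fun _ => rfl)
    (fun J x y e => Subtype.ext (congrArg Subtype.val e :)) fun J => Set.ext fun t =>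
      ⟨by rintro ⟨x, rfl⟩ a; exact mem_iInter.1 x.2.2 a,
        fun k => ⟨⟨t.1, t.2.1, mem_iInter.2 k⟩, rfl⟩⟩).2 j hj)
  · exact mem_iUnion.2 (mem_iUnion.1 (sdiff_eq_empty.1 hG t.2.1) :)
  · exact mem_iUnion.2 ⟨J.2 ⟨0, ((tupSh ι p).sup _ _ k).2.ge.trans_lt' (Nat.succ_pos _)⟩,
      mem_iInter.1 x.2.2 _⟩

theorem snc_tate (hM : 0 < M) {j : ℕ} (t : ((TP h M p).mhs j).Tate) :
    ((sncDg h p).mhs j).Tate := by
  obtain ⟨ξ, f, h1⟩ := TP.free h M p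
  refine (((TP.hom h M p).mor j).good ((Cx.Mor.inj_iff _ _).1 ?_)).tate t
  exact (TP.hom h M p).toHom.map_one ▸ f.inj_dpl hM (h1 hM) j

/-- the graded pieces of the product -/
theorem TP.count (c a : ℕ)
    (hz : a < M ∨ ∀ j : ℤ, j ≤ (2 * a + c : ℕ) → Subsingleton ((sncDg h p).bc.cx.H j)) :
    Module.rank ℂ (Sq (((TP h M p).mhs (2 * a + c)).W c) (((TP h M p).mhs (2 * a + c)).W (c + 1))) =
      ∑ b ∈ Finset.range (a + 1), Module.rank ℂ
        (Sq (((sncDg h p).mhs (2 * b + c)).W c) (((sncDg h p).mhs (2 * b + c)).W (c + 1))) := by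
  obtain ⟨ξ, f, -⟩ := TP.free h M p
  obtain ⟨φ, hφ⟩ := f.equiv (2 * a + c : ℕ)
  let g : ℤ → Cardinal := fun k =>
    Module.rank ℂ (Sq ((sncDg h p).bc.W k c) ((sncDg h p).bc.W k (c + 1)))
  rw [SDg.mhs_W, SDg.mhs_W, Finset.sum_congr rfl fun b _ => by rw [SDg.mhs_W, SDg.mhs_W]]
  refine (sq_pi_YI8 φ (hφ c) (hφ _)).trans ?_
  change ∑ b : Fin M, g ((2 * a + c : ℕ) - 2 * b.1) = ∑ b ∈ Finset.range (a + 1), g (2 * b + c : ℕ)
  rcases hz with hz | hz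
  · rw [Fin.sum_univ_eq_sum_range fun b : ℕ => g ((2 * a + c : ℕ) - 2 * b),
      ← Finset.sum_subset (Finset.range_mono (Nat.succ_le_of_lt hz)) fun b _ hb => ?_,
      ← Finset.sum_range_reflect]
    · refine Finset.sum_congr rfl fun b hb => congrArg g ?_
      have := Finset.mem_range.1 hb
      omega
    · rw [Finset.mem_range] at hb
      simp only [g]
      rw [Sq.eq_bot ((Bc.W_big (by omega)).le.trans bot_le), rank_bot]
  · have h0 : ∀ k ≤ ((2 * a + c : ℕ) : ℤ), g k = 0 := fun k hk => by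
      have := hz k hk
      exact rank_subsingleton' _ _
    rw [Finset.sum_eq_zero fun b _ => h0 _ (by omega), Finset.sum_eq_zero fun b hb => h0 _ ?_]
    have := Finset.mem_range.1 hb
    omega

end Pool.Agent.CS
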