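import Pool.Agent.K.MP_d34769_ag.C54

/-! Groups, subrepresentations and weights. -/

open Matrix Classical

noncomputable section
namespace Pool.Agent.CS

variable {I I' : Type} [Fintype I] [DecidableEq I] [Fintype I'] [DecidableEq I']

omit [Fintype I] [DecidableEq I] in
lemma mem_sp {F : Set I} {v : I → ℂ} : v ∈ sp F ↔ ∀ i, i ∉ F → v i = 0 := e4_mem_sp

omit [Fintype I] in
lemma sp_le_sp {F G : Set I} : sp F ≤ sp G ↔ F ⊆ G := by
  refine ⟨fun h j hj => by_contra fun hn => ?_, e4_sp_mono⟩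
  have h1 : (Pi.single j 1 : I → ℂ) ∈ sp F := mem_sp.2 fun l hl =>
    Pi.single_eq_of_ne (fun h' : l = j => hl (h' ▸ hj)) _
  simpa using mem_sp.1 (h h1) j hn

omit [Fintype I] in
lemma sp_inj {F G : Set I} : sp F = sp G ↔ F = G :=
  ⟨fun h => (sp_le_sp.1 h.le).antisymm (sp_le_sp.1 h.ge), fun h => h ▸ rfl⟩

omit [Fintype I] [DecidableEq I] in
@[simp] lemma sp_univ : sp (Set.univ : Set I) = ⊤ :=
  eq_top_iff.2 fun _ _ => mem_sp.2 fun _ h => absurd trivial h

omit [Fintype I] [DecidableEq I] in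
@[simp] lemma sp_empty : sp (∅ : Set I) = ⊥ :=
  eq_bot_iff.2 fun _ hv => (Submodule.mem_bot ℂ).2 (funext fun i => mem_sp.1 hv i id)

omit [Fintype I] [DecidableEq I] in
lemma sp_inter (F G : Set I) : sp (F ∩ G) = sp F ⊓ sp G := (e4_sp_inf F G).symm

omit [Fintype I] [DecidableEq I] in
lemma sp_union (F G : Set I) : sp (F ∪ G) = sp F ⊔ sp G := by
  refine le_antisymm (fun v hv => ?_)
    (sup_le (e4_sp_mono Set.subset_union_left) (e4_sp_mono Set.subset_union_right))
  refine Submodule.mem_sup.2 ⟨fun i => if i ∈ F then v i else 0, mem_sp.2 fun i hi => if_neg hi,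
    fun i => if i ∈ F then 0 else v i, mem_sp.2 fun i hi => ?_, funext fun i => ?_⟩
  · split_ifs with h
    · rfl
    · exact mem_sp.1 hv i fun h' => h'.elim h hi
  · simp only [Pi.add_apply]
    split_ifs <;> simp

lemma finrank_sp (F : Finset I) : Module.finrank ℂ (sp (F : Set I)) = F.card := by
  rw [e4_finrank_sp, Set.ncard_coe_finset]

/-- the coordinate projection -/
def pr (F : Set I) : Matrix I I ℂ := diagonal fun i => if i ∈ F then 1 else 0

lemma pr_mulVec (F : Set I) (v : I → ℂ) (i : I) : (pr F *ᵥ v) i = if i ∈ F then v i else 0 := by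
  rw [pr, mulVec_diagonal]; split_ifs <;> simp

lemma pr_mul_apply {μ : Type} (F : Set I) (h : Matrix I μ ℂ) (i : I) (j : μ) :
    (pr F * h) i j = if i ∈ F then h i j else 0 := by
  rw [pr, diagonal_mul]; split_ifs <;> simp

lemma mul_pr_apply {μ : Type} (F : Set I) (h : Matrix μ I ℂ) (i : μ) (j : I) :
    (h * pr F) i j = if j ∈ F then h i j else 0 := by
  rw [pr, mul_diagonal]; split_ifs <;> simp

lemma pr_mul_pr (F G : Set I) : pr F * pr G = pr (F ∩ G) := by
  rw [pr, pr, pr, diagonal_mul_diagonal]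
  congr 1
  funext i
  by_cases h : i ∈ F <;> by_cases h' : i ∈ G <;> simp [h, h']

omit [Fintype I] in
lemma pr_add_compl (F : Set I) : pr F + pr Fᶜ = 1 := by
  rw [pr, pr, diagonal_add, ← diagonal_one]
  congr 1
  funext i
  by_cases h : i ∈ F <;> simp [h]

omit [Fintype I] in
lemma pr_star (F : Set I) : (pr F)ᴴ = pr F := by
  rw [pr, diagonal_conjTranspose]
  congr 1
  funext i
  by_cases h : i ∈ F <;> simp [h]

lemma range_pr (F : Set I) : LinearMap.range (pr F).mulVecLin = sp F := by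
  apply le_antisymm
  · rintro _ ⟨v, rfl⟩
    exact mem_sp.2 fun i hi => by rw [mulVecLin_apply, pr_mulVec, if_neg hi]
  · intro v hv
    refine ⟨v, funext fun i => ?_⟩
    rw [mulVecLin_apply, pr_mulVec]
    split_ifs with h
    · rfl
    · exact (mem_sp.1 hv i h).symm

lemma ker_pr (F : Set I) : LinearMap.ker (pr F).mulVecLin = sp Fᶜ := by
  ext v
  rw [LinearMap.mem_ker, mem_sp, mulVecLin_apply, funext_iff]
  refine forall_congr' fun i => ?_
  rw [pr_mulVec]
  by_cases h : i ∈ F <;> simp [h]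

lemma pr_eq_self {F : Set I} {v : I → ℂ} : pr F *ᵥ v = v ↔ v ∈ sp F := by
  rw [mem_sp, funext_iff]
  refine forall_congr' fun i => ?_
  rw [pr_mulVec]
  by_cases h : i ∈ F <;> simp [h, eq_comm]

lemma map_sp_le {h : Matrix I' I ℂ} {F : Set I} {G : Set I'} :
    (sp F).map h.mulVecLin ≤ sp G ↔ ∀ i j, i ∉ G → j ∈ F → h i j = 0 := by
  refine ⟨fun H i j hi hj => ?_, fun H => ?_⟩
  · have h1 : (Pi.single j 1 : I → ℂ) ∈ sp F := mem_sp.2 fun l hl =>
      Pi.single_eq_of_ne (fun h' : l = j => hl (h' ▸ hj)) _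
    simpa using mem_sp.1 (H ⟨_, h1, rfl⟩) i hi
  · rintro _ ⟨v, hv, rfl⟩
    refine mem_sp.2 fun i hi => Finset.sum_eq_zero fun j _ => ?_
    by_cases hj : j ∈ F
    · simp [H i j hi hj]
    · simp [mem_sp.1 hv j hj]

/-- an invertible matrix has a nonzero term in its determinant -/
lemma exists_perm {g : Matrix I I ℂ} (hg : IsUnit g.det) :
    ∃ w : Equiv.Perm I, ∀ j, g (w j) j ≠ 0 := by
  have h := hg.ne_zero
  rw [det_apply'] at h
  obtain ⟨w, -, hw⟩ := Finset.exists_ne_zero_of_sum_ne_zero h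
  exact ⟨w, fun j => Finset.prod_ne_zero_iff.1 (right_ne_zero_of_mul hw) j (Finset.mem_univ j)⟩

lemma actR_one (ρ : Rp I) : actR 1 ρ = ρ := by
  funext a; simp [actR]

lemma actR_mul (g h : Matrix I I ℂ) (ρ : Rp I) : actR (g * h) ρ = actR g (actR h ρ) := by
  funext a; simp only [actR, Matrix.mul_inv_rev, Matrix.mul_assoc]

lemma actR_inv {g : Matrix I I ℂ} (hg : IsUnit g.det) (ρ : Rp I) : actR g⁻¹ (actR g ρ) = ρ := by
  rw [← actR_mul, nonsing_inv_mul _ hg, actR_one]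

lemma actR_inv' {g : Matrix I I ℂ} (hg : IsUnit g.det) (ρ : Rp I) : actR g (actR g⁻¹ ρ) = ρ := by
  rw [← actR_mul, mul_nonsing_inv _ hg, actR_one]

lemma actR_eq_iff {g : Matrix I I ℂ} (hg : IsUnit g.det) {ρ σ : Rp I} :
    actR g ρ = σ ↔ ∀ a, g * ρ a = σ a * g := by
  rw [funext_iff]
  refine forall_congr' fun a => ⟨fun h => ?_, fun h => ?_⟩
  · rw [← h, actR, Matrix.mul_assoc _ g⁻¹, nonsing_inv_mul _ hg, Matrix.mul_one]
  · rw [actR, h, Matrix.mul_assoc, mul_nonsing_inv _ hg, Matrix.mul_one]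

lemma actR_unitary {k : Matrix I I ℂ} (hk : k ∈ unitaryGroup I ℂ) (ρ : Rp I) :
    actR k ρ = fun a => k * ρ a * kᴴ := by
  funext a
  rw [actR, inv_eq_right_inv (show k * kᴴ = 1 from mem_unitaryGroup_iff.1 hk)]

lemma continuous_actR (g : Matrix I I ℂ) : Continuous (actR g) :=
  continuous_pi fun a => (continuous_const.matrix_mul (continuous_apply a)).matrix_mul
    continuous_const

lemma act_one {m : ℕ} (p : Pt I m) : act 1 p = p :=
  Prod.ext (actR_one _) (Matrix.one_mul _)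

lemma act_mul {m : ℕ} (g h : Matrix I I ℂ) (p : Pt I m) : act (g * h) p = act g (act h p) :=
  Prod.ext (actR_mul _ _ _) (Matrix.mul_assoc _ _ _)

lemma act_inv {m : ℕ} {g : Matrix I I ℂ} (hg : IsUnit g.det) (p : Pt I m) :
    act g⁻¹ (act g p) = p := by
  rw [← act_mul, nonsing_inv_mul _ hg, act_one]

lemma act_inv' {m : ℕ} {g : Matrix I I ℂ} (hg : IsUnit g.det) (p : Pt I m) :
    act g (act g⁻¹ p) = p := by
  rw [← act_mul, mul_nonsing_inv _ hg, act_one]

lemma continuous_act {m : ℕ} (g : Matrix I I ℂ) : Continuous (act (m := m) g) :=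
  ((continuous_actR g).comp continuous_fst).prodMk (continuous_const.matrix_mul continuous_snd)

namespace SubE
variable {e e' : I → I → Prop} {ρ : Rp I} {U U' : Submodule ℂ (I → ℂ)}

omit [DecidableEq I] in
lemma bot : SubE e ρ ⊥ := by
  refine ⟨fun i v hv => ?_, fun a v hv => ?_⟩ <;> rw [(Submodule.mem_bot ℂ).1 hv]
  · exact (Submodule.mem_bot ℂ).2 (funext fun j => ite_self _)
  · exact (Submodule.mem_bot ℂ).2 (mulVec_zero _)

omit [DecidableEq I] in
lemma top : SubE e ρ ⊤ := ⟨fun _ _ _ => trivial, fun _ _ _ => trivial⟩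

omit [DecidableEq I] in
lemma inf (h : SubE e ρ U) (h' : SubE e ρ U') : SubE e ρ (U ⊓ U') :=
  ⟨fun i v hv => ⟨h.gr i v hv.1, h'.gr i v hv.2⟩, fun a v hv => ⟨h.st a v hv.1, h'.st a v hv.2⟩⟩

omit [DecidableEq I] in
lemma sup (h : SubE e ρ U) (h' : SubE e ρ U') : SubE e ρ (U ⊔ U') := by
  refine ⟨fun i v hv => ?_, fun a v hv => ?_⟩ <;>
    obtain ⟨x, hx, y, hy, rfl⟩ := Submodule.mem_sup.1 hv
  · refine Submodule.mem_sup.2 ⟨_, h.gr i x hx, _, h'.gr i y hy, funext fun j => ?_⟩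
    simp only [Pi.add_apply]
    split_ifs <;> simp
  · exact Submodule.mem_sup.2 ⟨_, h.st a x hx, _, h'.st a y hy, (mulVec_add _ _ _).symm⟩

omit [DecidableEq I] in
lemma iSup {κ : Type} {V : κ → Submodule ℂ (I → ℂ)} (h : ∀ s, SubE e ρ (V s)) :
    SubE e ρ (⨆ s, V s) := by
  refine ⟨fun i v hv => ?_, fun a v hv => ?_⟩
  · induction hv using Submodule.iSup_induction' with
    | mem s x hx => exact Submodule.mem_iSup_of_mem s ((h s).gr i x hx)
    | zero =>
      rw [show (fun j => if e i j then (0 : I → ℂ) j else 0) = 0 from funext fun j => ite_self _]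
      exact Submodule.zero_mem _
    | add x y _ _ hx hy =>
      have : (fun j => if e i j then (x + y) j else 0) =
          (fun j => if e i j then x j else 0) + fun j => if e i j then y j else 0 := by
        funext j
        simp only [Pi.add_apply]
        split_ifs <;> simp
      rw [this]
      exact Submodule.add_mem _ hx hy
  · induction hv using Submodule.iSup_induction' with
    | mem s x hx => exact Submodule.mem_iSup_of_mem s ((h s).st a x hx)
    | zero => rw [mulVec_zero]; exact Submodule.zero_mem _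
    | add x y _ _ hx hy => rw [mulVec_add]; exact Submodule.add_mem _ hx hy

/-- a graded subspace is stable under the projection to a union of classes -/
lemma pr_mem (he : Equivalence e) (h : SubE e ρ U) {F : Set I} (hF : ∀ i j, e i j → i ∈ F → j ∈ F)
    {v : I → ℂ} (hv : v ∈ U) : pr F *ᵥ v ∈ U := by
  refine e4_le_of_gr (V := U.comap (pr F).mulVecLin) he h.gr (fun i x hx => ?_) hv
  show pr F *ᵥ x ∈ U
  by_cases hi : i ∈ F
  · rw [pr_eq_self.2 (e4_sp_mono (fun j hj => hF i j hj hi) hx.2)]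
    exact hx.1
  · have : x ∈ LinearMap.ker (pr F).mulVecLin := by
      rw [ker_pr]
      exact e4_sp_mono (fun j hj hjF => hi (hF j i (he.symm hj) hjF)) hx.2
    rw [show pr F *ᵥ x = 0 from this]
    exact U.zero_mem

lemma mono (he : Equivalence e) (he' : Equivalence e') (hle : ∀ i j, e i j → e' i j)
    (h : SubE e ρ U) : SubE e' ρ U := by
  refine ⟨fun i v hv => ?_, h.st⟩
  have := h.pr_mem he (F := {j | e' i j}) (fun a b hab ha => he'.trans ha (hle a b hab)) hv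
  rwa [show pr {j | e' i j} *ᵥ v = fun j => if e' i j then v j else 0 from
    funext fun j => pr_mulVec _ _ _] at this

end SubE

lemma sub_sp {e : I → I → Prop} {ρ : Rp I} {F : Set I} :
    SubE e ρ (sp F) ↔ ∀ a i j, i ∉ F → j ∈ F → ρ a i j = 0 := by
  refine ⟨fun h a => map_sp_le.1 ?_, fun h => ⟨e4_gr_sp F, fun a v hv =>
    map_sp_le.2 (h a) ⟨v, hv, rfl⟩⟩⟩
  rintro _ ⟨v, hv, rfl⟩
  exact h.st a v hv

namespace Dat
variable (D : Dat I)

lemma cc_eq : Equivalence D.cc := D.e4_cc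

lemma gp_refl (i : I) : D.gp i i := ⟨rfl, D.gl_refl i⟩

variable {D} in
lemma gp_trans {i j k : I} (h : D.gp i j) (h' : D.gp j k) : D.gp i k :=
  ⟨h.1.trans h'.1, D.gl_trans h.2 h'.2⟩

variable {D} in
lemma gp_cc {i j : I} (h : D.gp i j) : D.cc i j := ⟨h.1, D.rl_cp (D.gl_rl h.2)⟩

lemma cl_eq : Equivalence D.cl :=
  ⟨fun i => ⟨D.gp_refl i, D.gp_refl i⟩, fun h => h.symm,
    fun h h' => ⟨gp_trans h.1 h'.1, gp_trans h'.2 h.2⟩⟩

lemma mem_Lie {h : Matrix I I ℂ} : h ∈ D.Lie ↔ ∀ i j, ¬ D.gp i j → h i j = 0 := Iff.rfl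

lemma mem_base_Lie {h : Matrix I I ℂ} : h ∈ D.base.Lie ↔ ∀ i j, ¬ D.cc i j → h i j = 0 := Iff.rfl

lemma mem_R {ρ : Rp I} : ρ ∈ D.R ↔ ∀ a i j, ¬ D.ap a i j → ρ a i j = 0 := Iff.rfl

lemma diagonal_mem_Lie (t : I → ℂ) : diagonal t ∈ D.Lie := fun i _ h =>
  diagonal_apply_ne t fun e => h (e ▸ D.gp_refl i)

lemma one_mem_Lie : (1 : Matrix I I ℂ) ∈ D.Lie := D.diagonal_mem_Lie _

lemma pr_mem_Lie (F : Set I) : pr F ∈ D.Lie := D.diagonal_mem_Lie _

lemma one_mem_P : (1 : Matrix I I ℂ) ∈ D.P := ⟨D.one_mem_Lie, by simp⟩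

lemma Lie_le : D.Lie ≤ D.base.Lie := fun _ h i j hn => h i j fun h' => hn (gp_cc (D := D) h')

lemma P_le : D.P ⊆ D.base.P := fun _ h => ⟨D.Lie_le h.1, h.2⟩

lemma R_le : D.R ≤ D.base.R := fun _ h a i j hn =>
  h a i j fun h' => hn ⟨h'.1, h'.2.1, D.rl_cp h'.2.2⟩

lemma isClosed_R : IsClosed (D.R : Set (Rp I)) := by
  have : (D.R : Set (Rp I)) = ⋂ a, ⋂ i, ⋂ j, ⋂ _ : ¬ D.ap a i j, {ρ | ρ a i j = 0} := by
    ext h
    simp only [Set.mem_iInter]
    exact Iff.rfl
  rw [this]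
  exact isClosed_iInter fun a => isClosed_iInter fun i => isClosed_iInter fun j =>
    isClosed_iInter fun _ => isClosed_eq ((continuous_apply a).matrix_elem i j) continuous_const

lemma isClosed_Lie : IsClosed (D.Lie : Set (Matrix I I ℂ)) := by
  have : (D.Lie : Set (Matrix I I ℂ)) = ⋂ i, ⋂ j, ⋂ _ : ¬ D.gp i j, {h | h i j = 0} := by
    ext h
    simp only [Set.mem_iInter]
    exact Iff.rfl
  rw [this]
  exact isClosed_iInter fun i => isClosed_iInter fun j => isClosed_iInter fun _ =>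
    isClosed_eq (continuous_id.matrix_elem i j) continuous_const

lemma finrank_Lie : Module.finrank ℂ D.Lie = Nat.card {x : I × I // D.gp x.1 x.2} := by
  let E : D.Lie ≃ₗ[ℂ] ({x : I × I // D.gp x.1 x.2} → ℂ) :=
    { toFun := fun h x => h.1 x.1.1 x.1.2
      invFun := fun v => ⟨of fun i j => if h : D.gp i j then v ⟨(i, j), h⟩ else 0,
        fun _ _ h => dif_neg h⟩
      map_add' := fun _ _ => rfl
      map_smul' := fun _ _ => rfl
      left_inv := fun h => Subtype.ext (Matrix.ext fun i j => by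
        simp only [of_apply]
        split_ifs with hh
        · rfl
        · exact (h.2 i j hh).symm)
      right_inv := fun v => funext fun x => dif_pos x.2 }
  rw [E.finrank_eq, Module.finrank_fintype_fun_eq_card, Nat.card_eq_fintype_card]

lemma finrank_R :
    Module.finrank ℂ D.R = Nat.card {x : Fin 3 × I × I // D.ap x.1 x.2.1 x.2.2} := by
  let E : D.R ≃ₗ[ℂ] ({x : Fin 3 × I × I // D.ap x.1 x.2.1 x.2.2} → ℂ) :=
    { toFun := fun h x => h.1 x.1.1 x.1.2.1 x.1.2.2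
      invFun := fun v => ⟨fun a => of fun i j => if h : D.ap a i j then v ⟨(a, i, j), h⟩ else 0,
        fun _ _ _ h => dif_neg h⟩
      map_add' := fun _ _ => rfl
      map_smul' := fun _ _ => rfl
      left_inv := fun h => Subtype.ext (funext fun a => Matrix.ext fun i j => by
        simp only [of_apply]
        split_ifs with hh
        · rfl
        · exact (h.2 a i j hh).symm)
      right_inv := fun v => funext fun x => dif_pos x.2 }
  rw [E.finrank_eq, Module.finrank_fintype_fun_eq_card, Nat.card_eq_fintype_card]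

/-- the maximal compact subgroup of the group of the base datum -/
def K : Set (Matrix I I ℂ) := {k | k ∈ D.base.Lie ∧ k ∈ unitaryGroup I ℂ}

lemma K_le : D.K ⊆ D.base.P := fun _ h => ⟨h.1, e4_unit_det h.2⟩

lemma isCompact_K : IsCompact D.K := by
  have h1 : IsCompact (Set.pi Set.univ fun _ : I => Set.pi Set.univ fun _ : I =>
      Metric.closedBall (0 : ℂ) 1) :=
    isCompact_univ_pi fun _ => isCompact_univ_pi fun _ => isCompact_closedBall _ _
  refine IsCompact.of_isClosed_subset (X := Matrix I I ℂ) h1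
    (IsClosed.inter D.base.isClosed_Lie ?_) ?_
  · have : {k : Matrix I I ℂ | k ∈ unitaryGroup I ℂ} = {k | k * kᴴ = 1} :=
      Set.ext fun k => mem_unitaryGroup_iff
    show IsClosed {k : Matrix I I ℂ | k ∈ unitaryGroup I ℂ}
    rw [this]
    exact isClosed_eq (continuous_id.matrix_mul continuous_id.matrix_conjTranspose)
      continuous_const
  · intro k hk i _ j _
    simpa using entry_norm_bound_of_unitary hk.2 i j

variable {D}

lemma mul_mem_Lie {g h : Matrix I I ℂ} (hg : g ∈ D.Lie) (hh : h ∈ D.Lie) : g * h ∈ D.Lie :=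
  fun i j hn => by_contra fun h0 => hn (e4_mul (e := D.gp) (fun _ _ _ => gp_trans)
    (fun i j h => by_contra fun h' => h (hg i j h')) (fun i j h => by_contra fun h' => h (hh i j h'))
    i j h0)

lemma inv_mem_Lie {g : Matrix I I ℂ} (hg : g ∈ D.Lie) : g⁻¹ ∈ D.Lie :=
  fun i j hn => by_contra fun h0 => hn (e4_inv (e := D.gp) D.gp_refl (fun _ _ _ => gp_trans)
    (fun i j h => by_contra fun h' => h (hg i j h')) i j h0)

lemma star_mem_Lie {g : Matrix I I ℂ} (hg : g ∈ D.base.Lie) : gᴴ ∈ D.base.Lie := fun i j hn => by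
  rw [conjTranspose_apply, hg j i fun h => hn (D.cc_eq.symm h), star_zero]

lemma mul_mem_P {g h : Matrix I I ℂ} (hg : g ∈ D.P) (hh : h ∈ D.P) : g * h ∈ D.P := D.e4_P_mul hg hh

lemma inv_mem_P {g : Matrix I I ℂ} (hg : g ∈ D.P) : g⁻¹ ∈ D.P := D.e4_P_inv hg

lemma star_mem_P {g : Matrix I I ℂ} (hg : g ∈ D.base.P) : gᴴ ∈ D.base.P :=
  ⟨star_mem_Lie hg.1, by rw [det_conjTranspose]; exact hg.2.star⟩

lemma star_mem_K {k : Matrix I I ℂ} (hk : k ∈ D.K) : kᴴ ∈ D.K :=
  ⟨star_mem_Lie hk.1, Unitary.star_mem hk.2⟩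

lemma mul_mem_K {k k' : Matrix I I ℂ} (hk : k ∈ D.K) (hk' : k' ∈ D.K) : k * k' ∈ D.K :=
  ⟨mul_mem_Lie hk.1 hk'.1, mul_mem hk.2 hk'.2⟩

lemma mul_mem_R {g h : Matrix I I ℂ} (hg : g ∈ D.Lie) (hh : h ∈ D.Lie) {ρ : Rp I} (hρ : ρ ∈ D.R) :
    (fun a => g * ρ a * h) ∈ D.R := by
  intro c i j hn
  by_contra h0
  beta_reduce at h0
  rw [Matrix.mul_apply] at h0
  obtain ⟨l, -, h1⟩ := Finset.exists_ne_zero_of_sum_ne_zero h0
  have h2 := left_ne_zero_of_mul h1
  rw [Matrix.mul_apply] at h2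
  obtain ⟨l', -, h3⟩ := Finset.exists_ne_zero_of_sum_ne_zero h2
  have a1 : D.gp i l' := by_contra fun h' => left_ne_zero_of_mul h3 (hg _ _ h')
  have a2 : D.gp l j := by_contra fun h' => right_ne_zero_of_mul h1 (hh _ _ h')
  have a3 : D.ap c l' l := by_contra fun h' => right_ne_zero_of_mul h3 (hρ c l' l h')
  exact hn ⟨a1.1.trans a3.1, a2.1.symm.trans a3.2.1,
    D.rl_trans (D.gl_rl a1.2) (D.rl_trans a3.2.2 (D.gl_rl a2.2))⟩

lemma actR_mem {g : Matrix I I ℂ} (hg : g ∈ D.P) {ρ : Rp I} (hρ : ρ ∈ D.R) :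
    actR g ρ ∈ D.R := mul_mem_R hg.1 (inv_mem_Lie hg.1) hρ

lemma sub_map {h : Matrix I I ℂ} (hh : h ∈ D.base.Lie) {ρ σ : Rp I} (hi : ∀ a, h * ρ a = σ a * h)
    {U : Submodule ℂ (I → ℂ)} (hU : D.Sub ρ U) : D.Sub σ (U.map h.mulVecLin) := by
  refine ⟨e4_gr_map D.cc_eq (fun i j h0 => by_contra fun h' => h0 (hh i j h')) hU.gr, ?_⟩
  rintro a _ ⟨v, hv, rfl⟩
  exact ⟨_, hU.st a v hv, by simp only [mulVecLin_apply, mulVec_mulVec, hi]⟩

lemma sub_comap {h : Matrix I I ℂ} (hh : h ∈ D.base.Lie) {ρ σ : Rp I} (hi : ∀ a, h * ρ a = σ a * h)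
    {U : Submodule ℂ (I → ℂ)} (hU : D.Sub σ U) : D.Sub ρ (U.comap h.mulVecLin) := by
  refine ⟨fun i v hv => ?_, fun a v hv => ?_⟩
  · show h *ᵥ _ ∈ U
    rw [← e4_proj_mulVec D.cc_eq (fun i j h0 => by_contra fun h' => h0 (hh i j h'))]
    exact hU.gr i _ hv
  · show h *ᵥ _ ∈ U
    rw [mulVec_mulVec, hi, ← mulVec_mulVec]
    exact hU.st a _ hv

lemma sub_act {g : Matrix I I ℂ} (hg : g ∈ D.base.P) {ρ : Rp I} {U : Submodule ℂ (I → ℂ)} :
    D.Sub (actR g ρ) (U.map g.mulVecLin) ↔ D.Sub ρ U := by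
  have hi := (actR_eq_iff hg.2 (ρ := ρ)).1 rfl
  refine ⟨fun h => ?_, sub_map hg.1 hi⟩
  have h1 : Function.Injective g.mulVecLin :=
    Matrix.mulVec_injective_iff_isUnit.2 ((isUnit_iff_isUnit_det g).2 hg.2)
  have := sub_comap hg.1 hi h
  rwa [Submodule.comap_map_eq_of_injective h1] at this

end Dat

end Pool.Agent.CS
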