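import Pool.Agent.K.MP_d34769_ag.C26

/-! Acyclicity of a finite family of sets with maps and coefficients. -/

open Set Topology

noncomputable section
namespace Pool.Agent.CS

section nul
variable {V W : Type}

theorem pull_s (g : V → W) (φ : AS W) :
    AS.pull g ((AS.gc W).s φ) = (AS.gc V).s (AS.pull g φ) :=
  Gc.map_s (f := AS.pl g) (AS.pull_e g) φ

theorem s_mem_G {n : ℤ} {φ : AS V} (h : φ ∈ AS.G V n) : (AS.gc V).s φ ∈ AS.G V n :=
  Gc.mem_G.2 fun m hm => by rw [← Gc.se, Gc.mem_G.1 h m hm, map_zero]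

variable [TopologicalSpace V] [TopologicalSpace W] {X : Set V} {Y : Set W} {φ : AS V}

/-- cochains whose restriction to `X` vanishes locally -/
def nul (X : Set V) : Submodule ℂ (AS V) := ⨅ x : X, (AS.z x).comap (AS.pl ((↑) : X → V))

theorem mem_nul : φ ∈ nul X ↔ ∀ x : X, AS.pull ((↑) : X → V) φ ∈ AS.z x := by simp [nul]

theorem nul_empty (h : X = ∅) (φ : AS V) : φ ∈ nul X :=
  mem_nul.2 fun x => ((eq_empty_iff_forall_notMem.1 h) _ x.2).elim

theorem nul_d (h : φ ∈ nul X) : AS.d φ ∈ nul X :=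
  mem_nul.2 fun x => by rw [AS.pull_d]; exact AS.z_d (mem_nul.1 h x)

theorem nul_s (h : φ ∈ nul X) : (AS.gc V).s φ ∈ nul X :=
  mem_nul.2 fun x => by rw [pull_s]; exact AS.z_s (mem_nul.1 h x)

theorem nul_pull {f : W → V} (hc : ContinuousOn f Y) (hm : MapsTo f Y X) (h : φ ∈ nul X) :
    AS.pull f φ ∈ nul Y := mem_nul.2 fun y => by
  have := AS.z_pull (hc.mapsToRestrict hm).continuousAt (mem_nul.1 h (hm.restrict _ _ _ y))
  rw [AS.pull_pull] at this ⊢
  exact this

omit [TopologicalSpace V] in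
theorem nul_eqOn {f g : W → V} (h : EqOn f g Y) (φ : AS V) :
    AS.pull f φ - AS.pull g φ ∈ nul Y := mem_nul.2 fun y => by
  rw [map_sub, AS.pull_pull, AS.pull_pull,
    show f ∘ ((↑) : Y → W) = g ∘ (↑) from funext fun y => h y.2, sub_self]
  exact zero_mem _

theorem nul_id {f : V → V} (h : ∀ x ∈ X, f x = x) (φ : AS V) : AS.pull f φ - φ ∈ nul X := by
  simpa only [AS.pull_id] using nul_eqOn (g := id) h φ

end nul

variable {A A' : Type} {V : A → Type}

/-- the total differential on the indices `J` -/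
def DJ (J : Finset A) (f : ∀ a b, V a → V b) (ε : A → A → ℤ) :
    Module.End ℂ (∀ a, AS (V a)) :=
  LinearMap.pi fun a => AS.d ∘ₗ LinearMap.proj a +
    (AS.gc _).s ∘ₗ ∑ b ∈ J, (ε a b : ℂ) • AS.pl (f a b) ∘ₗ LinearMap.proj b

variable {J J₁ : Finset A} {f : ∀ a b, V a → V b} {deg : A → ℕ} {ε : A → A → ℤ}
  {c c' : ∀ a, AS (V a)} {a b : A} {n : ℤ} {rel : A → A → Prop}

theorem DJ_apply (c : ∀ a, AS (V a)) (a : A) : DJ J f ε c a =
    AS.d (c a) + (AS.gc _).s (∑ b ∈ J, (ε a b : ℂ) • AS.pull (f a b) (c b)) := by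
  simp [DJ]

theorem DJ_mem_G (ha : a ∈ J) (hs : ∀ b ∈ J, ε a b ≠ 0 → deg a = deg b + 1)
    (h : ∀ a ∈ J, c a ∈ AS.G _ (n - 1 - deg a)) : DJ J f ε c a ∈ AS.G _ (n - deg a) := by
  rw [DJ_apply]
  refine add_mem (by simpa [sub_right_comm] using AS.d_mem_G (h a ha))
    (s_mem_G (Submodule.sum_mem _ fun b hb => ?_))
  by_cases e : ε a b = 0
  · simp [e]
  · rw [hs b hb e, show n - ((deg b + 1 : ℕ) : ℤ) = n - 1 - deg b by push_cast; ring]
    exact Submodule.smul_mem _ _ (AS.pull_mem_G _ (h b hb))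

theorem exists_ext {W : A → Type} (r : A' → A) {J' : Set A'} (hr : InjOn r J') (c₀ : ∀ a, W a)
    (c : ∀ u, W (r u)) :
    ∃ c₂ : ∀ a, W a, (∀ u ∈ J', c₂ (r u) = c u) ∧ ∀ a ∉ r '' J', c₂ a = c₀ a := by
  classical
  refine ⟨fun a => if h : a ∈ r '' J' then h.choose_spec.2 ▸ c h.choose else c₀ a,
    fun u hu => ?_, fun a ha => dif_neg ha⟩
  have h : r u ∈ r '' J' := ⟨u, hu, rfl⟩
  have : ∀ u' (e : r u' = r u), u' = u → e ▸ c u' = c u := by rintro _ _ rfl; rfl
  exact (dif_pos h).trans (this _ _ (hr h.choose_spec.1 hu h.choose_spec.2))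

variable [∀ a, TopologicalSpace (V a)] {X : ∀ a, Set (V a)}

/-- the total complex on the indices `J` is exact -/
def Acy (J : Finset A) (X : ∀ a, Set (V a)) (f : ∀ a b, V a → V b) (deg : A → ℕ)
    (ε : A → A → ℤ) : Prop :=
  ∀ (n : ℤ) (c : ∀ a, AS (V a)), (∀ a ∈ J, c a ∈ AS.G _ (n - deg a)) →
    (∀ a ∈ J, DJ J f ε c a ∈ nul (X a)) → ∃ b : ∀ a, AS (V a),
      (∀ a ∈ J, b a ∈ AS.G _ (n - 1 - deg a)) ∧ ∀ a ∈ J, c a - DJ J f ε b a ∈ nul (X a)

/-- the data form a diagram -/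
structure Ok (J : Finset A) (X : ∀ a, Set (V a)) (f : ∀ a b, V a → V b) (deg : A → ℕ)
    (ε : A → A → ℤ) (rel : A → A → Prop) : Prop where
  cpt : ∀ a ∈ J, IsCompact (X a)
  sup : ∀ a ∈ J, ∀ b ∈ J, ε a b ≠ 0 → rel a b ∧ deg a = deg b + 1
  trans : ∀ a b c, rel a b → rel b c → rel a c
  εε : ∀ a ∈ J, ∀ c ∈ J, ∑ b ∈ J, ε a b * ε b c = 0
  cont : ∀ a ∈ J, ∀ b ∈ J, rel a b → ContinuousOn (f a b) (X a)
  maps : ∀ a ∈ J, ∀ b ∈ J, rel a b → MapsTo (f a b) (X a) (X b)
  comp : ∀ a ∈ J, ∀ b ∈ J, ∀ c ∈ J, rel a b → rel b c → ∀ x ∈ X a, f b c (f a b x) = f a c x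

theorem acy_empty (h : ∀ a ∈ J, X a = ∅) : Acy J X f deg ε := fun _ _ _ _ =>
  ⟨0, fun _ _ => zero_mem _, fun a ha => nul_empty (h a ha) _⟩

/-- transport along a map of index sets; empty members may be dropped -/
theorem acy_iff (r : A' → A) {J' : Finset A'} {X' : ∀ u, Set (V (r u))} {deg' : A' → ℕ}
    {ε' : A' → A' → ℤ} (m : ℤ) (hr : InjOn r J') (hJ : MapsTo r J' J)
    (hX : ∀ u ∈ J', X' u = X (r u)) (hd : ∀ u ∈ J', (deg' u : ℤ) = deg (r u) + m)
    (hε : ∀ u ∈ J', ∀ v ∈ J', ε' u v = ε (r u) (r v)) (h0 : ∀ a ∈ J, a ∉ r '' J' → X a = ∅)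
    (h1 : ∀ u ∈ J', ∀ b ∈ J, b ∉ r '' J' → ε (r u) b ≠ 0 → X (r u) = ∅) :
    Acy J' X' (fun u v => f (r u) (r v)) deg' ε' ↔ Acy J X f deg ε := by
  have key : ∀ (c : ∀ a, AS (V a)) (c' : ∀ u, AS (V (r u))), (∀ u ∈ J', c (r u) = c' u) →
      ∀ u ∈ J', X (r u) = ∅ ∨ DJ J' (fun u v => f (r u) (r v)) ε' c' u = DJ J f ε c (r u) := by
    intro c c' e u hu
    refine or_iff_not_imp_left.2 fun hn => ?_
    rw [DJ_apply, DJ_apply, e u hu]
    congr 2
    refine Finset.sum_of_injOn r hr hJ (fun b hb hb' => ?_) fun v hv => by rw [e v hv, hε u hu v hv]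
    rw [by_contra fun h => hn (h1 u hu b hb hb' h), Int.cast_zero, zero_smul]
  constructor
  · intro h n c hc hD
    obtain ⟨b', hb, hb'⟩ := h (n + m) (fun u => c (r u))
      (fun u hu => by rw [hd u hu, add_sub_add_right_eq_sub]; exact hc _ (hJ hu)) fun u hu => by
        rw [hX u hu]
        rcases key c _ (fun _ _ => rfl) u hu with e | e
        · exact nul_empty e _
        · rw [e]; exact hD _ (hJ hu)
    obtain ⟨b, e1, e2⟩ := exists_ext (W := fun a => AS (V a)) r hr 0 b'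
    refine ⟨b, fun a ha => ?_, fun a ha => ?_⟩ <;> by_cases h2 : a ∈ r '' J'
    · obtain ⟨u, hu, rfl⟩ := h2
      have := hb u hu
      rwa [hd u hu, show n + m - 1 - (deg (r u) + m) = n - 1 - deg (r u) by ring, ← e1 u hu] at this
    · rw [e2 a h2]; exact zero_mem _
    · obtain ⟨u, hu, rfl⟩ := h2
      rcases key b b' e1 u hu with e | e
      · exact nul_empty e _
      · rw [← e, ← hX u hu]; exact hb' u hu
    · exact nul_empty (h0 a ha h2) _
  · intro h n c' hc hD
    obtain ⟨c, e1, e2⟩ := exists_ext (W := fun a => AS (V a)) r hr 0 c'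
    obtain ⟨b, hb, hb'⟩ := h (n - m) c (fun a ha => by
      by_cases h2 : a ∈ r '' J'
      · obtain ⟨u, hu, rfl⟩ := h2
        have := hc u hu
        rwa [hd u hu, show n - (deg (r u) + m) = n - m - deg (r u) by ring, ← e1 u hu] at this
      · rw [e2 a h2]; exact zero_mem _) fun a ha => by
      by_cases h2 : a ∈ r '' J'
      · obtain ⟨u, hu, rfl⟩ := h2
        rcases key c c' e1 u hu with e | e
        · exact nul_empty e _
        · rw [← e, ← hX u hu]; exact hD u hu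
      · exact nul_empty (h0 a ha h2) _
    refine ⟨fun u => b (r u), fun u hu => ?_, fun u hu => ?_⟩
    · rw [hd u hu, show n - 1 - (deg (r u) + m) = n - m - 1 - deg (r u) by ring]
      exact hb _ (hJ hu)
    · rw [hX u hu]
      rcases key b _ (fun _ _ => rfl) u hu with e | e
      · exact nul_empty e _
      · rw [e, ← e1 u hu]; exact hb' _ (hJ hu)

open Classical in
theorem Ok.cong (ok : Ok J X f deg ε rel) (ha : a ∈ J) (hJ : J₁ ⊆ J)
    (h0 : c a - c' a ∈ nul (X a))
    (h1 : ∀ b ∈ J, ε a b ≠ 0 → c b - (if b ∈ J₁ then c' b else 0) ∈ nul (X b)) :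
    DJ J f ε c a - DJ J₁ f ε c' a ∈ nul (X a) := by
  have e : ∑ b ∈ J₁, (ε a b : ℂ) • AS.pull (f a b) (c' b) =
      ∑ b ∈ J, (ε a b : ℂ) • AS.pull (f a b) (if b ∈ J₁ then c' b else 0) :=
    (Finset.sum_congr rfl fun b hb => by rw [if_pos hb]).trans
      (Finset.sum_subset hJ fun b _ hb => by rw [if_neg hb, map_zero, smul_zero])
  rw [DJ_apply, DJ_apply, e, add_sub_add_comm, ← map_sub, ← map_sub, ← Finset.sum_sub_distrib]
  refine add_mem (nul_d h0) (nul_s (Submodule.sum_mem _ fun b hb => ?_))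
  rw [← smul_sub, ← map_sub]
  by_cases e : ε a b = 0
  · simp [e]
  · have := (ok.sup a ha b hb e).1
    exact Submodule.smul_mem _ _ (nul_pull (ok.cont a ha b hb this) (ok.maps a ha b hb this)
      (h1 b hb e))

theorem Ok.dd (ok : Ok J X f deg ε rel) (ha : a ∈ J) (c : ∀ a, AS (V a)) :
    DJ J f ε (DJ J f ε c) a ∈ nul (X a) := by
  have e1 : DJ J f ε (DJ J f ε c) a = ∑ b ∈ J, ∑ e ∈ J,
      ((ε a b * ε b e : ℤ) : ℂ) • AS.pull (f a b) (AS.pull (f b e) (c e)) := by
    simp only [DJ_apply, map_add, map_sum, map_smul, smul_add, Finset.sum_add_distrib, AS.d_d,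
      Gc.ds, AS.pull_d, pull_s, Gc.ss, Finset.smul_sum, smul_smul, Int.cast_mul, smul_neg,
      Finset.sum_neg_distrib]
    abel
  have e2 : ∑ b ∈ J, ∑ e ∈ J, ((ε a b * ε b e : ℤ) : ℂ) • AS.pull (f a e) (c e) = 0 := by
    rw [Finset.sum_comm]
    refine Finset.sum_eq_zero fun e he => ?_
    rw [← Finset.sum_smul, ← Int.cast_sum, ok.εε a ha e he, Int.cast_zero, zero_smul]
  rw [← sub_zero (DJ J f ε _ a), e1, ← e2, ← Finset.sum_sub_distrib]
  refine Submodule.sum_mem _ fun b hb => ?_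
  rw [← Finset.sum_sub_distrib]
  refine Submodule.sum_mem _ fun e he => ?_
  rw [← smul_sub, AS.pull_pull]
  by_cases h : ε a b * ε b e = 0
  · rw [h, Int.cast_zero, zero_smul]; exact zero_mem _
  · exact Submodule.smul_mem _ _ (nul_eqOn (ok.comp a ha b hb e he
      (ok.sup a ha b hb (left_ne_zero_of_mul h)).1 (ok.sup b hb e he (right_ne_zero_of_mul h)).1) _)

open Classical in
/-- a block triangular complex with exact blocks is exact -/
theorem Ok.blk (ok : Ok J X f deg ε rel) {β : Type} (blk : A → β) (rk : β → ℕ)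
    (tri : ∀ a ∈ J, ∀ b ∈ J, ε a b ≠ 0 → blk a = blk b ∨ rk (blk b) < rk (blk a))
    (h : ∀ k, Acy (J.filter (blk · = k)) X f deg ε) : Acy J X f deg ε := by
  intro n c hc hD
  have key : ∀ r, ∃ b : ∀ a, AS (V a), (∀ a ∈ J, b a ∈ AS.G _ (n - 1 - deg a)) ∧
      ∀ a ∈ J, rk (blk a) < r → (c - DJ J f ε b) a ∈ nul (X a) := by
    intro r
    induction r with
    | zero => exact ⟨0, fun _ _ => zero_mem _, fun _ _ h => (Nat.not_lt_zero _ h).elim⟩
    | succ r ih =>
      obtain ⟨b, hb, hb'⟩ := ih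
      have : ∀ k, ∃ u : ∀ a, AS (V a), rk k = r → (∀ a ∈ J.filter (blk · = k),
          u a ∈ AS.G _ (n - 1 - deg a)) ∧ ∀ a ∈ J.filter (blk · = k),
            (c - DJ J f ε b) a - DJ (J.filter (blk · = k)) f ε u a ∈ nul (X a) := fun k => by
        by_cases hk : rk k = r
        swap
        · exact ⟨0, fun e => (hk e).elim⟩
        simp only [hk, true_imp_iff]
        refine h k n _ (fun a ha => ?_) fun a ha => ?_ <;>
          obtain ⟨ha, e⟩ := Finset.mem_filter.1 ha
        · exact sub_mem (hc a ha) (DJ_mem_G ha (fun b hb e => (ok.sup a ha b hb e).2) hb)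
        · have h1 := ok.cong (c := c - DJ J f ε b) (c' := c - DJ J f ε b) ha
            (J.filter_subset (blk · = k)) (by simp) fun b hb h0 => by
              split_ifs with h2
              · simp
              · rw [sub_zero]
                refine hb' b hb ((tri a ha b hb h0).elim (fun h3 => (h2 ?_).elim) fun h3 => by
                  rwa [e, hk] at h3)
                exact Finset.mem_filter.2 ⟨hb, h3 ▸ e⟩
          have h2 : DJ J f ε (c - DJ J f ε b) a ∈ nul (X a) := by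
            rw [map_sub]; exact sub_mem (hD a ha) (ok.dd ha b)
          simpa using sub_mem h2 h1
      choose u hu using this
      let w : ∀ a, AS (V a) := fun a => if rk (blk a) = r then u (blk a) a else 0
      refine ⟨b + w, fun a ha => add_mem (hb a ha) ?_, fun a ha h0 => ?_⟩
      · simp only [w]
        split_ifs with e
        · exact (hu _ e).1 a (Finset.mem_filter.2 ⟨ha, rfl⟩)
        · exact zero_mem _
      rw [map_add, ← sub_sub, Pi.sub_apply]
      rcases (Nat.lt_succ_iff.1 h0).eq_or_lt with e | e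
      · have h1 := ok.cong (c := w) (c' := u (blk a)) ha (J.filter_subset (blk · = blk a))
          (by simp [w, e]) fun b hb h2 => by
            rcases tri a ha b hb h2 with h3 | h3
            · simp [w, ← h3, e, hb]
            · have h4 : blk b ≠ blk a := fun h4 => by simp [h4] at h3
              simp [w, h4, (h3.trans_eq e).ne]
        simpa using sub_mem ((hu _ e).2 a (Finset.mem_filter.2 ⟨ha, rfl⟩)) h1
      · have h1 := ok.cong (c := w) (c' := 0) ha subset_rfl (by simp [w, e.ne]) fun b hb h2 => by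
          have : rk (blk b) ≠ r := (tri a ha b hb h2).elim (fun h3 => h3 ▸ e.ne)
            fun h3 => (h3.trans e).ne
          simp [w, this]
        exact sub_mem (hb' a ha e) (by simpa using h1)
  obtain ⟨b, hb, hb'⟩ := key (J.sup (fun a => rk (blk a)) + 1)
  exact ⟨b, hb, fun a ha => hb' a ha (Nat.lt_succ_of_le (Finset.le_sup (f := fun a => rk (blk a)) ha))⟩

/-- two homeomorphic sets -/
theorem acy_two [DecidableEq A] (hd : deg a = deg b + 1)
    (hs : ∀ u v, ε u v ≠ 0 → deg u = deg v + 1) (hε : ε a b ≠ 0) (g : V b → V a)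
    (cg : ContinuousOn g (X b)) (mg : MapsTo g (X b) (X a)) (gf : ∀ y ∈ X a, g (f a b y) = y)
    (fg : ∀ x ∈ X b, f a b (g x) = x) : Acy {a, b} X f deg ε := by
  have hab : a ≠ b := fun e => by simp [e] at hd
  have z : ∀ u v, deg u ≠ deg v + 1 → (ε u v : ℂ) = 0 := fun u v h => by
    rw [by_contra fun e => h (hs u v e), Int.cast_zero]
  have hε' : (ε a b : ℂ) ≠ 0 := Int.cast_ne_zero.2 hε
  intro n c hc hD
  refine ⟨Pi.single b ((ε a b : ℂ)⁻¹ • (AS.gc _).s (AS.pull g (c a))), fun u hu => ?_,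
    fun u hu => ?_⟩ <;> rcases Finset.mem_insert.1 hu with rfl | hu
  · rw [Pi.single_eq_of_ne hab]; exact zero_mem _
  · obtain rfl := Finset.mem_singleton.1 hu
    have := hc a (by simp)
    rw [hd, show n - ((deg u + 1 : ℕ) : ℤ) = n - 1 - deg u by push_cast; ring] at this
    rw [Pi.single_eq_same]
    exact Submodule.smul_mem _ _ (s_mem_G (AS.pull_mem_G _ this))
  · rw [DJ_apply, Finset.sum_pair hab, Pi.single_eq_of_ne hab, Pi.single_eq_same]
    simp only [map_zero, smul_zero, zero_add, map_smul, smul_smul, mul_inv_cancel₀ hε', one_smul,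
      pull_s, Gc.ss, AS.pull_pull]
    simpa using neg_mem (nul_id (f := g ∘ f u b) gf (c u))
  · obtain rfl := Finset.mem_singleton.1 hu
    have h1 := nul_s (nul_pull cg mg (hD a (by simp)))
    rw [DJ_apply, Finset.sum_pair hab, z a a (by omega)] at h1
    rw [DJ_apply, Finset.sum_pair hab, z u a (by omega), z u u (by omega), Pi.single_eq_same]
    have h2 := sub_mem (Submodule.smul_mem _ (ε a u : ℂ)⁻¹ h1) (nul_id (f := f a u ∘ g) fg (c u))
    simp only [zero_smul, zero_mul, zero_add, add_zero, map_zero, map_add, map_smul, pull_s, Gc.ss, Gc.ds,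
      AS.pull_pull, AS.pull_d, smul_add, smul_smul, inv_mul_cancel₀ hε', one_smul] at h2 ⊢
    convert h2 using 1
    simp only [smul_neg]
    abel

end Pool.Agent.CS
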