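import Pool.Agent.K.MP_d34769_ag.C63
import Pool.Agent.K.MP_d34769_ag.C44
import Pool.Agent.K.MP_d34769_ag.C36

-- part Pool.Agent.P.MP_d34769_ag.YD61
section

/-! Diagrams of sets: comparison with `Acy`, fibres, cones. -/

open Set Topology

noncomputable section
namespace Pool.Agent.CS

section rs
variable {ι κ : Type} {V : ι → Type} {W : κ → Type} {X : ∀ i, Set (V i)} {Y : ∀ j, Set (W j)}

/-- restriction of cochains to subsets -/
def rs (X : ∀ i, Set (V i)) : (∀ i, AS (V i)) →ₗ[ℂ] ∀ i, AS (X i) :=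
  LinearMap.piMap fun i => AS.pl ((↑) : X i → V i)

theorem rs_apply (c : ∀ i, AS (V i)) (i : ι) : rs X c i = AS.pull ((↑) : X i → V i) (c i) := rfl

/-- a matrix of pull-backs -/
def mx [Fintype κ] (μ : ι → κ → ℤ) (f : ∀ i j, V i → W j) (c : ∀ j, AS (W j)) (i : ι) : AS (V i) :=
  ∑ j, (μ i j : ℂ) • AS.pull (f i j) (c j)

theorem mat_rs [Fintype κ] {R : ι → κ → Prop} {μ : ι → κ → ℤ} (g : ∀ {i j}, R i j → X i → Y j)
    (f : ∀ i j, V i → W j) (hg : ∀ {i j} (h : R i j) x, (g h x).1 = f i j x.1)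
    (sup : ∀ i j, μ i j ≠ 0 → R i j) (c : ∀ j, AS (W j)) :
    mat (T := fun i => AS (X i)) (T' := fun j => AS (Y j)) μ (fun {_ _} h => AS.pl (g h)) (rs Y c) =
      rs X (mx μ f c) := by
  funext i
  rw [mat_apply, rs_apply, mx, map_sum]
  refine Finset.sum_congr rfl fun j _ => ?_
  split_ifs with h
  · rw [map_smul, AS.pull_pull, rs_apply]
    exact congrArg _ ((AS.pull_pull _ _ _).trans (congrArg (AS.pull · _) (funext (hg h))))
  · rw [by_contra fun e => h (sup i j e), Int.cast_zero, zero_smul, map_zero]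

theorem rs_mx_mx [Fintype κ] {κ' : Type} [Fintype κ'] {U : κ' → Type} {μ : ι → κ → ℤ}
    {μ' : κ → κ' → ℤ} {f : ∀ i j, V i → W j} {f' : ∀ j k, W j → U k} (g : ∀ i k, V i → U k)
    (h : ∀ i j k, μ i j ≠ 0 → μ' j k ≠ 0 → ∀ x ∈ X i, f' j k (f i j x) = g i k x)
    (c : ∀ k, AS (U k)) :
    rs X (mx μ f (mx μ' f' c)) = rs X (mx (fun i k => ∑ j, μ i j * μ' j k) g c) := by
  funext i
  simp only [rs_apply, mx, map_sum, map_smul, Finset.smul_sum, Int.cast_sum, Finset.sum_smul,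
    smul_smul, AS.pull_pull, ← Int.cast_mul]
  rw [Finset.sum_comm]
  refine Finset.sum_congr rfl fun k _ => Finset.sum_congr rfl fun j _ => ?_
  by_cases e : μ i j * μ' j k = 0
  · rw [e, Int.cast_zero, zero_smul, zero_smul]
  · exact congrArg _ (congrArg (AS.pull · _) (funext fun x =>
      h i j k (left_ne_zero_of_mul e) (right_ne_zero_of_mul e) x.1 x.2))

theorem exists_rs {n : ι → ℤ} {y : ∀ i, AS (X i)} (h : ∀ i, y i ∈ AS.G _ (n i)) :
    ∃ c, (∀ i, c i ∈ AS.G _ (n i)) ∧ rs X c = y := by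
  have : ∀ i, ∃ ψ ∈ AS.G (V i) (n i), AS.pull ((↑) : X i → V i) ψ = y i := fun i => by
    rcases isEmpty_or_nonempty (X i) with e | e
    · refine ⟨0, zero_mem _, AS.ext fun l => ?_⟩
      cases l with
      | nil => simp
      | cons a _ => exact e.elim a
    · obtain ⟨ρ, hρ⟩ := (Subtype.val_injective (p := (· ∈ X i))).hasLeftInverse
      exact ⟨AS.pull ρ (y i), AS.pull_mem_G _ (h i), by
        rw [AS.pull_pull, hρ.comp_eq_id, AS.pull_id]⟩
  choose c h1 h2 using this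
  exact ⟨c, h1, funext h2⟩

end rs

/-- the restriction of a map -/
def rm {V W : Type} [TopologicalSpace V] [TopologicalSpace W] {X : Set V} {Y : Set W} {f : V → W}
    (hc : ContinuousOn f X) (h : MapsTo f X Y) : C(X, Y) := ⟨h.restrict f X Y, hc.mapsToRestrict h⟩

variable {S S' : Sh}

section setd
variable {V : S.ι → Type} [∀ i, TopologicalSpace (V i)] {V' : S'.ι → Type}
  [∀ i, TopologicalSpace (V' i)]

/-- a diagram of compact subsets -/
structure SetD (S : Sh) {V : S.ι → Type} [∀ i, TopologicalSpace (V i)] (X : ∀ i, Set (V i))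
    (f : ∀ i j, V i → V j) : Prop where
  cpt : ∀ i, IsCompact (X i)
  cont : ∀ {i j}, S.rel i j → ContinuousOn (f i j) (X i)
  maps : ∀ {i j}, S.rel i j → MapsTo (f i j) (X i) (X j)
  comp : ∀ {i j k}, S.rel i j → S.rel j k → ∀ x ∈ X i, f j k (f i j x) = f i k x

/-- a map of diagrams of subsets -/
structure SetH (φ : ShH S S') (X : ∀ i, Set (V i)) (f : ∀ i j, V i → V j) (X' : ∀ i, Set (V' i))
    (f' : ∀ i j, V' i → V' j) (g : ∀ i j, V i → V' j) : Prop where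
  cont : ∀ {i j}, φ.R i j → ContinuousOn (g i j) (X i)
  maps : ∀ {i j}, φ.R i j → MapsTo (g i j) (X i) (X' j)
  gl : ∀ {i i' j}, S.rel i i' → φ.R i' j → ∀ x ∈ X i, g i' j (f i i' x) = g i j x
  gr : ∀ {i j j'}, φ.R i j → S'.rel j j' → ∀ x ∈ X i, f' j j' (g i j x) = g i j' x

variable [∀ i, T2Space (V i)] [∀ i, T2Space (V' i)] {X : ∀ i, Set (V i)} {f : ∀ i j, V i → V j}
  {X' : ∀ i, Set (V' i)} {f' : ∀ i j, V' i → V' j} {g : ∀ i j, V i → V' j} {φ : ShH S S'}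
  {c : ∀ i, AS (V i)} {n : ℤ}

/-- the diagram of spaces -/
def SetD.dg (h : SetD S X f) : Dg S where
  X i := X i
  cpt i := isCompact_iff_compactSpace.1 (h.cpt i)
  mp r := rm (h.cont r) (h.maps r)
  comp r r' x := Subtype.ext (h.comp r r' x.1 x.2)

/-- the total complex -/
abbrev SetD.cx (h : SetD S X f) : Cx h.dg.T := (Dg.bc (⊤ : h.dg.Fam) ⊥).cx

/-- restriction of cochains -/
def SetD.r (h : SetD S X f) : (∀ i, AS (V i)) →ₗ[ℂ] h.dg.T := rs X

/-- the map of diagrams of spaces -/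
def SetH.hom (k : SetH φ X f X' f' g) (h : SetD S X f) (h' : SetD S' X' f') :
    Dg.Hom φ h.dg h'.dg where
  g r := rm (k.cont r) (k.maps r)
  gl r r' x := Subtype.ext (k.gl r r' x.1 x.2)
  gr r r' x := Subtype.ext (k.gr r r' x.1 x.2)

theorem SetH.mor (k : SetH φ X f X' f' g) (h : SetD S X f) (h' : SetD S' X' f') :
    h'.cx.Mor h.cx (k.hom h h').map 0 :=
  ((k.hom h h').mor (fun _ => mapsTo_univ _ _) fun _ => mapsTo_empty _ _).cx

theorem SetH.map_r (k : SetH φ X f X' f' g) (h : SetD S X f) (h' : SetD S' X' f')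
    (c : ∀ i, AS (V' i)) : (k.hom h h').map (h'.r c) = h.r (mx φ.μ g c) :=
  mat_rs (X := X) (Y := X') (fun {i j} r => (k.maps r).restrict (g i j) _ _) g (fun _ _ => rfl) (fun i j e => (φ.sup i j e).1) c

theorem SetD.d_r (h : SetD S X f) (c : ∀ i, AS (V i)) :
    h.cx.d (h.r c) = h.r (DJ Finset.univ f S.ε c) := by
  funext i
  have e1 := congrFun (mat_rs (X := X) (Y := X) (fun {i j} r => (h.maps r).restrict (f i j) _ _) f
    (fun _ _ => rfl) (fun i j e => (S.sup i j e).1) c) i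
  have e2 : rs X (DJ Finset.univ f S.ε c) i =
      AS.d (rs X c i) + (AS.gc _).s (rs X (mx S.ε f c) i) := by
    rw [rs_apply, DJ_apply, map_add, AS.pull_d, pull_s]; rfl
  rw [← e1] at e2
  exact e2.symm

theorem SetD.r_N (h : SetD S X f) : h.r c ∈ h.cx.N ↔ ∀ i, c i ∈ nul (X i) :=
  (Dg.mem_N (A := ⊥)).trans (forall_congr' fun _ => (SC.mem_zz _).trans
    ⟨fun a => mem_nul.2 fun x => a x (mem_univ _), fun a x _ => mem_nul.1 a x⟩)

theorem SetD.mem_G (h : SetD S X f) {y : h.dg.T} :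
    y ∈ h.cx.G n ↔ ∀ i, y i ∈ AS.G _ (n - S.deg i) :=
  Dg.mem_cx_G.trans (forall_congr' fun _ => mem_CP_G.trans (and_iff_left fun _ h => h.elim))

theorem SetD.r_G (h : SetD S X f) (hc : ∀ i, c i ∈ AS.G _ (n - S.deg i)) : h.r c ∈ h.cx.G n :=
  h.mem_G.2 fun i => AS.pull_mem_G _ (hc i)

theorem SetD.sur_G (h : SetD S X f) {y : h.dg.T} (hy : y ∈ h.cx.G n) :
    ∃ c, (∀ i, c i ∈ AS.G _ (n - S.deg i)) ∧ h.r c = y := exists_rs (X := X) (h.mem_G.1 hy)

theorem SetD.r_Z (h : SetD S X f) (hc : ∀ i, c i ∈ AS.G _ (n - S.deg i)) :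
    h.r c ∈ h.cx.Z n ↔ ∀ i, DJ Finset.univ f S.ε c i ∈ nul (X i) := by
  rw [Cx.mem_Z, h.d_r, h.r_N, and_iff_right (h.r_G hc)]

theorem SetD.r_B (h : SetD S X f) : h.r c ∈ h.cx.B n ↔ ∃ b : ∀ i, AS (V i),
    (∀ i, b i ∈ AS.G _ (n - 1 - S.deg i)) ∧ ∀ i, c i - DJ Finset.univ f S.ε b i ∈ nul (X i) := by
  rw [Cx.mem_B]
  constructor
  · rintro ⟨y, hy, e⟩
    obtain ⟨b, hb, rfl⟩ := h.sur_G hy
    rw [h.d_r, ← map_sub] at e
    exact ⟨b, hb, h.r_N.1 e⟩
  · rintro ⟨b, hb, e⟩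
    exact ⟨_, h.r_G hb, by rw [h.d_r, ← map_sub]; exact h.r_N.2 e⟩

theorem SetD.acy (h : SetD S X f) : Acy Finset.univ X f S.deg S.ε ↔ ∀ n, h.cx.Ac n := by
  simp only [Acy, Finset.mem_univ, true_imp_iff]
  refine forall_congr' fun n => ⟨fun a y hy => ?_, fun a c hc hD => h.r_B.1 (a ((h.r_Z hc).2 hD))⟩
  obtain ⟨c, hc, rfl⟩ := h.sur_G hy.1
  exact h.r_B.2 (a c hc ((h.r_Z hc).1 hy))

theorem SetD.fib (h : SetD S X f) {W : Type} [TopologicalSpace W] [T2Space W] (p : ∀ i, V i → W)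
    (hp : ∀ i, ContinuousOn (p i) (X i))
    (hf : ∀ {i j}, S.rel i j → ∀ x ∈ X i, p j (f i j x) = p i x)
    (a : ∀ t, Acy Finset.univ (fun i => X i ∩ p i ⁻¹' {t}) f S.deg S.ε) :
    Acy Finset.univ X f S.deg S.ε := by
  let B : Set W := ⋃ i, p i '' X i
  have : CompactSpace B := isCompact_iff_compactSpace.1
    (isCompact_iUnion fun i => (h.cpt i).image_of_continuousOn (hp i))
  let O : Dg.Ov h.dg B := ⟨fun i => rm (hp i) fun x hx => mem_iUnion.2 ⟨i, x, hx, rfl⟩,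
    fun r x => Subtype.ext (hf r x.1 x.2)⟩
  refine h.acy.2 fun n => O.acf Dg.Fam.cl_top Dg.Fam.cl_bot (fun t k _ => ?_) n le_rfl
  have h' : SetD S (fun i => X i ∩ p i ⁻¹' {t.1}) f :=
    ⟨fun i => (h.cpt i).of_isClosed_subset
      ((hp i).preimage_isClosed_of_isClosed (h.cpt i).isClosed isClosed_singleton) inter_subset_left,
      fun r => (h.cont r).mono inter_subset_left,
      fun r x hx => ⟨h.maps r hx.1, (hf r x hx.1).trans hx.2⟩,
      fun r r' x hx => h.comp r r' x hx.1⟩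
  let g : ∀ i, C(h'.dg.X i, h.dg.X i) := fun i => ⟨inclusion inter_subset_left,
    continuous_inclusion _⟩
  have e : ∀ i, (⊤ ⊓ O.fam {t} : h.dg.Fam).A i = range (g i) := fun i => Set.ext fun x =>
    ⟨fun hx => ⟨⟨x.1, x.2, congrArg Subtype.val hx.2⟩, rfl⟩,
      fun ⟨y, hy⟩ => ⟨trivial, hy ▸ Subtype.ext y.2.2⟩⟩
  have m : (Dg.bc (⊤ ⊓ O.fam {t}) ⊥).Mor (Dg.bc (⊤ : h'.dg.Fam) ⊥) (Dg.dpl g) 0 :=
    Dg.Com.mor (fun _ _ => rfl) (fun i x _ => e i ▸ mem_range_self x) fun _ => mapsTo_empty _ _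
  have q := Bc.filta_cx m fun p n => Dg.dpl_col_qi p fun i _ => by
    simp only [e, Dg.Fam.top_A, Dg.Fam.bot_A]
    exact taut_inj (g i) (inclusion_injective inter_subset_left) n
  exact Cx.Ac.of_inj (q.inj k) m.cx (h'.acy.1 (a t.1) (k + 0))

end setd

section ok
variable {A : Type} {V : A → Type} [∀ a, TopologicalSpace (V a)] [∀ a, T2Space (V a)]
  {J : Finset A} {X : ∀ a, Set (V a)} {f : ∀ a b, V a → V b} {deg : A → ℕ} {ε : A → A → ℤ}
  {rel : A → A → Prop}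

/-- a diagram with exact fibres is exact -/
theorem Ok.fib (ok : Ok J X f deg ε rel) {W : Type} [TopologicalSpace W] [T2Space W]
    (p : ∀ a, V a → W) (hp : ∀ a ∈ J, ContinuousOn (p a) (X a))
    (hf : ∀ a ∈ J, ∀ b ∈ J, rel a b → ∀ x ∈ X a, p b (f a b x) = p a x)
    (h : ∀ t, Acy J (fun a => X a ∩ p a ⁻¹' {t}) f deg ε) : Acy J X f deg ε := by
  let S : Sh := ⟨J, fun a => deg a, fun a b => rel a b, fun a b => ε a b,
    fun a b => ok.sup a a.2 b b.2, ok.trans _ _ _, fun a c =>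
      (J.sum_coe_sort fun b => ε a b * ε b c).trans (ok.εε a a.2 c c.2)⟩
  have e : ∀ Y : ∀ a, Set (V a), Acy Finset.univ (fun a : J => Y a) (fun a b => f a b) S.deg S.ε ↔
      Acy J Y f deg ε := fun Y =>
    acy_iff Subtype.val 0 Subtype.val_injective.injOn (fun a _ => a.2) (fun _ _ => rfl)
      (fun _ _ => (add_zero _).symm) (fun _ _ _ _ => rfl)
      (fun a ha h => (h ⟨⟨a, ha⟩, by simp, rfl⟩).elim)
      fun _ _ a ha h => (h ⟨⟨a, ha⟩, by simp, rfl⟩).elim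
  exact (e X).1 (SetD.fib (S := S) (V := fun a : J => V a) (X := fun a : J => X a)
    (f := fun a b : J => f a b) ⟨fun a => ok.cpt a a.2,
    fun {a b} => ok.cont a a.2 b b.2, fun {a b} => ok.maps a a.2 b b.2,
    fun {a b c} => ok.comp a a.2 b b.2 c c.2⟩ (fun a => p a) (fun a => hp a a.2)
    (fun {a b} => hf a a.2 b b.2) fun t => (e fun a => X a ∩ p a ⁻¹' {t}).2 (h t))

end ok

section cone

/-- the coefficients of the cone -/
def ShH.cε (φ : ShH S S') : S.ι ⊕ S'.ι → S.ι ⊕ S'.ι → ℤ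
  | .inl i, .inl j => S.ε i j
  | .inl i, .inr j => φ.μ i j
  | .inr _, .inl _ => 0
  | .inr i, .inr j => -S'.ε i j

/-- the degrees of the cone -/
def cdeg (S S' : Sh) : S.ι ⊕ S'.ι → ℕ
  | .inl i => S.deg i + 1
  | .inr i => S'.deg i

theorem ShH.cεε (φ : ShH S S') (u w : S.ι ⊕ S'.ι) : ∑ v, φ.cε u v * φ.cε v w = 0 := by
  rcases u with u | u <;> rcases w with w | w <;>
    simp [Fintype.sum_sum_type, ShH.cε, S.εε, S'.εε, φ.comm]

variable {φ : ShH S S'} {V : S.ι ⊕ S'.ι → Type} [∀ u, TopologicalSpace (V u)] [∀ u, T2Space (V u)]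
  {X : ∀ u, Set (V u)} {f : ∀ u v, V u → V v}

theorem cone_qia (h : SetD S (fun i => X (.inl i)) fun i j => f (.inl i) (.inl j))
    (h' : SetD S' (fun i => X (.inr i)) fun i j => f (.inr i) (.inr j))
    (k : SetH φ (fun i => X (.inl i)) (fun i j => f (.inl i) (.inl j)) (fun i => X (.inr i))
      (fun i j => f (.inr i) (.inr j)) fun i j => f (.inl i) (.inr j))
    (ac : Acy Finset.univ X f (cdeg S S') φ.cε) : h'.cx.QIa h.cx (k.hom h h').map 0 := by
  have el : ∀ (w : ∀ u, AS (V u)) i, DJ Finset.univ f φ.cε w (.inl i) =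
      DJ Finset.univ (fun i j => f (.inl i) (.inl j)) S.ε (fun i => w (.inl i)) i +
      mx φ.μ (fun i j => f (.inl i) (.inr j)) (fun j => (AS.gc _).s (w (.inr j))) i := by
    intro w i
    simp only [DJ_apply, Fintype.sum_sum_type, ShH.cε, mx, map_add, map_sum, map_smul, pull_s,
      add_assoc]
  have er : ∀ (w : ∀ u, AS (V u)) i, DJ Finset.univ f φ.cε w (.inr i) = -(AS.gc _).s
      (DJ Finset.univ (fun i j => f (.inr i) (.inr j)) S'.ε (fun j => (AS.gc _).s (w (.inr j))) i) := by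
    intro w i
    simp [DJ_apply, Fintype.sum_sum_type, ShH.cε, pull_s, Gc.ds, Gc.ss, add_comm]
  simp only [Acy, Finset.mem_univ, true_imp_iff, Sum.forall, el, er, cdeg, Nat.cast_add,
    Nat.cast_one] at ac
  refine Cx.qia_iff.2 fun n => ⟨fun x hZ hB => ?_, fun y hZ => ?_⟩
  · obtain ⟨x, hx, rfl⟩ := h'.sur_G hZ.1
    have hD := (h'.r_Z hx).1 hZ
    rw [k.map_r, add_zero] at hB
    obtain ⟨b, hb, e⟩ := h.r_B.1 hB
    obtain ⟨u, hu, -, hu'⟩ := ac n (Sum.rec (fun i => -b i) fun j => (AS.gc _).s (x j))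
      ⟨fun i => by rw [← sub_sub]; exact neg_mem (by simpa [sub_right_comm] using hb i),
        fun j => s_mem_G (hx j)⟩
      ⟨fun i => by
        simp only [Gc.ss]
        rw [show (fun i => -b i) = -b from rfl, map_neg, Pi.neg_apply, neg_add_eq_sub]
        exact e i, fun j => by simp only [Gc.ss]; exact neg_mem (nul_s (hD j))⟩
    refine h'.r_B.2 ⟨-fun j => (AS.gc _).s (u (.inr j)), fun j => neg_mem (s_mem_G (hu.2 j)),
      fun j => ?_⟩
    simpa [Gc.ss] using nul_s (hu' j)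
  · rw [add_zero] at hZ ⊢
    obtain ⟨y, hy, rfl⟩ := h.sur_G hZ.1
    have hD := (h.r_Z hy).1 hZ
    obtain ⟨u, hu, hu', hu''⟩ := ac (n + 1) (Sum.rec y fun _ => 0)
      ⟨fun i => by rw [add_sub_add_right_eq_sub]; exact hy i, fun j => zero_mem _⟩
      ⟨fun i => by simpa [mx] using hD i, fun j => by simp [DJ_apply]⟩
    refine ⟨h'.r fun j => (AS.gc _).s (u (.inr j)), (h'.r_Z fun j => s_mem_G (by
      simpa using hu.2 j)).2 fun j => by simpa [Gc.ss] using nul_s (hu'' j), ?_⟩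
    rw [k.map_r, ← map_sub]
    refine h.r_B.2 ⟨fun i => u (.inl i), fun i => ?_, fun i => ?_⟩
    · have := hu.1 i
      rwa [show n + 1 - 1 - (S.deg i + 1) = n - 1 - S.deg i by ring] at this
    · rw [Pi.sub_apply, sub_sub, add_comm]
      exact hu' i

end cone

end Pool.Agent.CS
end
end

-- part Pool.Agent.P.MP_d34769_ag.YD62
section

/-! Cubical hyperresolutions: the data and the inductive step. -/

open Set Topology
open Pool.Agent.HT (Amb)
open Pool.Agent.HIR (Mf HolP)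

noncomputable section
namespace Pool.Agent.CS

/-- augmented shapes -/
structure Cu where
  S : Type
  [fin : Fintype S]
  [ord : PartialOrder S]
  [top : OrderTop S]
  deg : S → ℕ
  ε : S → S → ℤ
  sup : ∀ s t, ε s t ≠ 0 → s ≤ t ∧ deg s = deg t + 1
  εε : ∀ s u, ∑ t, ε s t * ε t u = 0
  deg0 : ∀ s, deg s = 0 ↔ s = ⊤

attribute [instance] Cu.fin Cu.ord Cu.top

/-- the point -/
def Cu.pt : Cu where
  S := Unit
  deg _ := 0
  ε _ _ := 0
  sup _ _ h := (h rfl).elim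
  εε _ _ := by simp
  deg0 _ := by simp

theorem Cu.ε_eq (s : Cu) {t u : s.S} (h : s.deg t ≠ s.deg u + 1) : s.ε t u = 0 :=
  by_contra fun e => h (s.sup t u e).2

theorem Cu.deg_top (s : Cu) : s.deg ⊤ = 0 := (s.deg0 _).2 rfl

theorem Cu.ε_top (s : Cu) (u : s.S) : s.ε ⊤ u = 0 := s.ε_eq (by rw [s.deg_top]; omega)

open Classical in
/-- the product with an arrow -/
def Cu.succ (s : Cu) : Cu where
  S := Bool × s.S
  deg p := s.deg p.2 + if p.1 then 0 else 1
  ε p q := if p.1 = q.1 then s.ε p.2 q.2 else if q.1 ∧ p.2 = q.2 then (-1) ^ s.deg p.2 else 0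
  sup := by
    rintro ⟨a, t⟩ ⟨b, u⟩ h
    split_ifs at h with h1 h2
    · obtain rfl : a = b := h1
      exact ⟨⟨le_rfl, (s.sup _ _ h).1⟩, by simp only [(s.sup _ _ h).2]; omega⟩
    · obtain ⟨rfl, rfl⟩ : b = true ∧ t = u := h2
      exact ⟨⟨le_top, le_rfl⟩, by simp [show a = false by simpa using h1]⟩
    · exact (h rfl).elim
  εε := by
    rintro ⟨a, t⟩ ⟨b, u⟩
    cases a <;> cases b <;> simp [Fintype.sum_prod_type, s.εε]
    by_cases h : s.ε t u = 0
    · simp [h]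
    · rw [(s.sup _ _ h).2]; ring
  deg0 := by
    rintro ⟨a, t⟩
    cases a <;> simp [s.deg0, Prod.ext_iff]

section ul
variable {A ι κ S : Type} [Preorder A] [Preorder ι] [Preorder κ] [PartialOrder S] [OrderTop S]

/-- unique lifting of relations -/
structure UL (base : A → ι) (top : ι → A) (σ : A → S) : Prop where
  bt : ∀ i, base (top i) = i
  st : ∀ i, σ (top i) = ⊤
  ts : ∀ a, σ a = ⊤ → top (base a) = a
  mb : Monotone base
  ms : Monotone σ
  lift : ∀ a j t, base a ≤ j → σ a ≤ t → ∃! b, a ≤ b ∧ base b = j ∧ σ b = t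

variable {base : A → ι} {top : ι → A} {σ : A → S} (h : UL base top σ) {a b c : A} {i j : ι}
include h

theorem UL.le_top (e : base a ≤ j) : a ≤ top j := by
  obtain ⟨b, ⟨h1, rfl, h2⟩, -⟩ := h.lift a j ⊤ e _root_.le_top
  rwa [h.ts b h2]

theorem UL.mt : Monotone top := fun i _ e => h.le_top (by rwa [h.bt])

theorem UL.uniq (e : a ≤ b) (e' : a ≤ c) (h1 : base b = base c) (h2 : σ b = σ c) : b = c :=
  (h.lift a _ _ (h.mb e') (h.ms e')).unique ⟨e, h1, h2⟩ ⟨e', rfl, rfl⟩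

theorem UL.top_le (e : top i ≤ b) : ∃ j, i ≤ j ∧ b = top j :=
  ⟨base b, by simpa [h.bt] using h.mb e, (h.ts b (top_unique (h.st i ▸ h.ms e))).symm⟩

theorem UL.inj : Function.Injective top := Function.LeftInverse.injective h.bt

open Classical in
theorem UL.sum [Fintype A] [Fintype S] (a c : A) (j : ι) (w : S → ℤ)
    (hw : ∀ t, w t ≠ 0 → (base a ≤ j ∧ σ a ≤ t) ∧ j ≤ base c ∧ t ≤ σ c) :
    ∑ b, (if base b = j ∧ a ≤ b ∧ b ≤ c then w (σ b) else 0) = if a ≤ c then ∑ t, w t else 0 := by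
  split_ifs with e
  · rw [← Finset.sum_filter]
    refine Finset.sum_of_injOn σ (fun b hb b' hb' e => ?_) (fun _ _ => by simp)
      (fun t _ ht => by_contra fun h0 => ht ?_) fun _ _ => rfl
    · simp only [Finset.coe_filter, Finset.mem_univ, true_and, mem_ofPred_eq] at hb hb'
      exact h.uniq hb.2.1 hb'.2.1 (hb.1.trans hb'.1.symm) e
    · obtain ⟨b, ⟨h1, rfl, rfl⟩, -⟩ := h.lift a j t (hw t h0).1.1 (hw t h0).1.2
      obtain ⟨d, ⟨h2, h3, h4⟩, -⟩ := h.lift b _ _ (hw _ h0).2.1 (hw _ h0).2.2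
      exact ⟨b, by simpa [h1] using h.uniq (h1.trans h2) e h3 h4 ▸ h2, rfl⟩
  · exact Finset.sum_eq_zero fun b _ => if_neg fun h1 => e (h1.2.1.trans h1.2.2)

theorem UL.comp {S' : Type} [PartialOrder S'] [OrderTop S'] {β : ι → κ} {τ : κ → ι} {sd : ι → S'}
    (p : UL β τ sd) : UL (β ∘ base) (top ∘ τ) fun a => (sd (base a), σ a) where
  bt i := by simp [h.bt, p.bt]
  st i := Prod.ext (by simp [h.bt, p.st]) (h.st _)
  ts a e := by
    rw [Prod.ext_iff] at e
    simp [p.ts _ e.1, h.ts a e.2]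
  mb := p.mb.comp h.mb
  ms := (p.ms.comp h.mb).prodMk h.ms
  lift a j t e e' := by
    obtain ⟨k, ⟨h1, rfl, h2⟩, h3⟩ := p.lift (base a) j t.1 e e'.1
    obtain ⟨b, ⟨h4, rfl, h5⟩, h6⟩ := h.lift a k t.2 h1 e'.2
    exact ⟨b, ⟨h4, rfl, Prod.ext h2 h5⟩, fun c hc => h6 c ⟨hc.1,
      h3 _ ⟨h.mb hc.1, hc.2.1, congrArg Prod.fst hc.2.2⟩, congrArg Prod.snd hc.2.2⟩⟩

end ul

variable {A ι κ : Type} [Preorder A] [Preorder ι] [Preorder κ]

/-- change of the index set -/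
def Dia.comap (T : Dia A) (r : ι → A) (h : Monotone r) : Dia ι where
  M i := T.M (r i)
  X i := T.X (r i)
  f i j := T.f (r i) (r j)
  ag _ _ e := T.ag _ _ (h e)
  maps _ _ e := T.maps _ _ (h e)
  id _ := T.id _
  comp _ _ _ e e' := T.comp _ _ _ (h e) (h e')

/-- restriction to subsets -/
def Dia.res (G : Dia ι) (K : ∀ i, Set (Amb (G.M i))) (pa : ∀ i, PA (K i)) (sub : ∀ i, K i ⊆ G.X i)
    (maps : ∀ i j, i ≤ j → MapsTo (G.f i j) (K i) (K j)) : Dia ι where
  M := G.M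
  X := K
  f := G.f
  ag i j e := (G.ag i j e).mono (pa i) (sub i)
  maps := maps
  id i x hx := G.id i x (sub i hx)
  comp i j k e e' x hx := G.comp i j k e e' x (sub i hx)

theorem Dia.pa (G : Dia ι) (i : ι) : PA (G.X i) := (G.ag i i le_rfl).pa

theorem Dia.closed (G : Dia ι) {i j : ι} (e : i ≤ j) {Z : Set (Amb (G.M j))} (hZ : IsClosed Z) :
    IsClosed (G.X i ∩ G.f i j ⁻¹' Z) :=
  (G.ag i j e).cont.preimage_isClosed_of_isClosed (G.pa i).closed hZ

open Classical in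
/-- the lifted coefficients -/
def lε (s : Cu) (σ : A → s.S) (a b : A) : ℤ := if a ≤ b then s.ε (σ a) (σ b) else 0

theorem lε_sup {s : Cu} {σ : A → s.S} {a b : A} (h : lε s σ a b ≠ 0) :
    a ≤ b ∧ s.deg (σ a) = s.deg (σ b) + 1 := by
  unfold lε at h
  split_ifs at h with e
  exacts [⟨e, (s.sup _ _ h).2⟩, (h rfl).elim]

variable [Fintype A]

open Classical in
/-- the indices over `i` -/
def fibJ (base : A → ι) (i : ι) : Finset A := Finset.univ.filter (base · = i)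

omit [Preorder A] [Preorder ι] in
@[simp] theorem mem_fibJ {base : A → ι} {i : ι} {a : A} : a ∈ fibJ base i ↔ base a = i := by
  simp [fibJ]

section
variable {s : Cu} {base : A → ι} {top : ι → A} {σ : A → s.S} (h : UL base top σ) (T : Dia A) (i : ι)
  {Z : Set (Amb (T.M (top i)))} (hZ : IsClosed Z)
include h hZ

theorem UL.ok : Ok (fibJ base i) (fun a => T.X a ∩ T.f a (top i) ⁻¹' Z) T.f (fun a => s.deg (σ a))
    (lε s σ) (· ≤ ·) where
  cpt a ha := (T.pa a).compact.of_isClosed_subset (T.closed (h.le_top (mem_fibJ.1 ha).le) hZ)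
    inter_subset_left
  sup _ _ _ _ := lε_sup
  trans _ _ _ := le_trans
  εε a ha c hc := by
    classical
    have := h.sum a c i (fun t => s.ε (σ a) t * s.ε t (σ c)) fun t e =>
      ⟨⟨(mem_fibJ.1 ha).le, (s.sup _ _ (left_ne_zero_of_mul e)).1⟩, (mem_fibJ.1 hc).ge,
        (s.sup _ _ (right_ne_zero_of_mul e)).1⟩
    rw [s.εε, ite_self] at this
    rw [← this, fibJ, Finset.sum_filter]
    refine Finset.sum_congr rfl fun b _ => ?_
    by_cases h1 : base b = i <;> by_cases h2 : a ≤ b <;> by_cases h3 : b ≤ c <;>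
      simp [lε, h1, h2, h3]
  cont a _ b _ e := (T.ag a b e).cont.mono inter_subset_left
  maps a _ b hb e y hy := ⟨T.maps a b e hy.1, by
    rw [mem_preimage, T.comp a b _ e (h.le_top (mem_fibJ.1 hb).le) y hy.1]; exact hy.2⟩
  comp a _ b _ c _ e e' y hy := T.comp a b c e e' y hy.1

theorem UL.acy (a : ∀ x, Acy (fibJ base i) (fun a => T.X a ∩ T.f a (top i) ⁻¹' {x}) T.f
    (fun a => s.deg (σ a)) (lε s σ)) : Acy (fibJ base i) (fun a => T.X a ∩ T.f a (top i) ⁻¹' Z) T.f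
    (fun a => s.deg (σ a)) (lε s σ) := by
  refine (h.ok T i hZ).fib (fun a => T.f a (top i))
    (fun a ha => (T.ag a _ (h.le_top (mem_fibJ.1 ha).le)).cont.mono inter_subset_left)
    (fun a _ b hb e y hy => T.comp a b _ e (h.le_top (mem_fibJ.1 hb).le) y hy.1) fun x => ?_
  by_cases hx : x ∈ Z
  · simpa only [inter_assoc, ← preimage_inter, inter_eq_right.2 (singleton_subset_iff.2 hx)]
      using a x
  · exact acy_empty fun a _ => eq_empty_of_forall_notMem fun y hy => hx (hy.2 ▸ hy.1.2)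

end

/-- `T` is a hyperresolution of its part over the top of the shape -/
structure HypD (s : Cu) (T : Dia A) (base : A → ι) (top : ι → A) (σ : A → s.S) : Prop where
  ul : UL base top σ
  mf : ∀ a, σ a ≠ ⊤ → ∃ e, Mf e (T.X a) ∧ ∀ b, a ≤ b → HolP e (T.X a) (T.f a b)
  acy : ∀ i x, Acy (fibJ base i) (fun a => T.X a ∩ T.f a (top i) ⁻¹' {x}) T.f
    (fun a => s.deg (σ a)) (lε s σ)

/-- the diagram has a hyperresolution -/
def HypR (G : Dia ι) : Prop :=
  ∃ (s : Cu) (A : Type) (_ : Fintype A) (_ : PartialOrder A) (T : Dia A) (base : A → ι)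
    (top : ι → A) (σ : A → s.S) (h : HypD s T base top σ), T.comap top h.ul.mt = G

/-- a resolution that is an isomorphism off `K` -/
structure Pre (G : Dia κ) (K : ∀ k, Set (Amb (G.M k))) (β : κ → ι) (τ : ι → κ) (sd : κ → Bool) :
    Prop where
  ul : UL β τ sd
  mf : ∀ k, sd k ≠ ⊤ → ∃ e, Mf e (G.X k) ∧ ∀ l, k ≤ l → HolP e (G.X k) (G.f k l)
  pa : ∀ k, PA (K k)
  sub : ∀ k, K k ⊆ G.X k
  maps : ∀ k l, k ≤ l → MapsTo (G.f k l) (K k) (K l)
  pre : ∀ k i, β k = i → ∀ y ∈ G.X k, G.f k (τ i) y ∈ K (τ i) → y ∈ K k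
  one : ∀ i, ∀ x ∈ G.X (τ i), x ∉ K (τ i) → ∃ k, β k = i ∧ sd k = false ∧
    (∃! y, y ∈ G.X k ∧ G.f k (τ i) y = x) ∧
    ∀ l, β l = i → sd l = false → l ≠ k → ∀ y ∈ G.X l, G.f l (τ i) y ≠ x

theorem hyp_zero {ι : Type} [Fintype ι] [PartialOrder ι] (G : Dia ι) (h : ∀ i, G.X i = ∅) :
    HypR G :=
  ⟨.pt, ι, inferInstance, inferInstance, G, id, id, fun _ => ⊤,
    ⟨⟨fun _ => rfl, fun _ => rfl, fun _ _ => rfl, monotone_id, monotone_const,
      fun _ j _ e _ => ⟨j, ⟨e, rfl, rfl⟩, fun _ h => h.2.1⟩⟩, fun _ e => (e rfl).elim,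
      fun _ _ => acy_empty fun a _ => by rw [h, empty_inter]⟩, rfl⟩

theorem hyp_step {G : Dia κ} {K : ∀ k, Set (Amb (G.M k))} {β : κ → ι} {τ : ι → κ} {sd : κ → Bool}
    (p : Pre G K β τ sd) (h : HypR (G.res K p.pa p.sub p.maps)) : HypR (G.comap τ p.ul.mt) := by
  classical
  obtain ⟨s, A, _, _, T, base, top, σ, h, e⟩ := h
  obtain ⟨M, X, f, ag, maps, id, comp⟩ := G
  cases e
  obtain ⟨Y, e1, e2⟩ := exists_ext top (h.ul.inj.injOn (s := univ)) T.X X
  obtain rfl : X = fun k => Y (top k) := funext fun k => (e1 k trivial).symm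
  have H : ∀ a, (∃ k, a = top k) ∨ σ a ≠ ⊤ ∧ Y a = T.X a := fun a =>
    or_iff_not_imp_left.2 fun e => ⟨fun e' => e ⟨_, (h.ul.ts a e').symm⟩,
      e2 a fun ⟨k, _, e'⟩ => e ⟨k, e'.symm⟩⟩
  have sub : ∀ a, T.X a ⊆ Y a := fun a => by
    rcases H a with ⟨k, rfl⟩ | e
    exacts [p.sub k, e.2.ge]
  let U : Dia A := ⟨T.M, Y, T.f, fun a b e => by
      rcases H a with ⟨k, rfl⟩ | e'
      · obtain ⟨l, hl, rfl⟩ := h.ul.top_le e
        exact ag k l hl
      · exact e'.2 ▸ T.ag a b e, fun a b e => by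
      rcases H a with ⟨k, rfl⟩ | e'
      · obtain ⟨l, hl, rfl⟩ := h.ul.top_le e
        exact maps k l hl
      · exact e'.2 ▸ (T.maps a b e).mono_right (sub b), fun a => by
      rcases H a with ⟨k, rfl⟩ | e'
      exacts [id k, e'.2 ▸ T.id a], fun a b c e e' => by
      rcases H a with ⟨k, rfl⟩ | e''
      · obtain ⟨l, hl, rfl⟩ := h.ul.top_le e
        obtain ⟨m, hm, rfl⟩ := h.ul.top_le e'
        exact comp k l m hl hm
      · exact e''.2 ▸ T.comp a b c e e'⟩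
  have ul := h.ul.comp p.ul
  refine ⟨s.succ, A, inferInstance, inferInstance, U, β ∘ base, top ∘ τ,
    fun a => (sd (base a), σ a), ⟨ul, fun a ha => ?_, fun i x => ?_⟩, rfl⟩
  · rcases H a with ⟨k, rfl⟩ | e'
    · obtain ⟨e, h1, h2⟩ := p.mf k fun e => ha (Prod.ext ((congrArg sd (h.ul.bt k)).trans e)
        (h.ul.st k))
      refine ⟨e, h1, fun b hb => ?_⟩
      obtain ⟨l, hl, rfl⟩ := h.ul.top_le hb
      exact h2 l hl
    · exact (show U.X a = T.X a from e'.2) ▸ h.mf a e'.1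
  have ok := UL.ok (s := s.succ) ul U i (isClosed_singleton (x := x))
  by_cases hx : x ∈ T.X (top (τ i))
  · refine ok.blk base (fun k => if sd k then 0 else 1) (fun a ha b hb e => ?_) fun k => ?_
    · have h1 := h.ul.mb (lε_sup e).1
      by_cases h2 : sd (base a) = sd (base b)
      · exact .inl (p.ul.uniq le_rfl h1 ((mem_fibJ.1 ha).trans (mem_fibJ.1 hb).symm) h2)
      · have := (p.ul.ms h1).lt_of_ne h2
        rw [Bool.lt_iff] at this
        simp [this.1, this.2]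
    by_cases hk : β k = i
    swap
    · refine acy_empty fun a ha => (hk ?_).elim
      obtain ⟨h1, rfl⟩ := Finset.mem_filter.1 ha
      exact (mem_fibJ (a := a)).1 h1
    have h0 : k ≤ τ i := p.ul.le_top hk.le
    refine (acy_iff (fun a => a) (if sd k then 0 else 1) (injOn_id _)
      (fun a ha => mem_fibJ.2 (Finset.mem_filter.1 ha).2) (fun a ha => ?_) (fun a ha => ?_)
      (fun a ha b hb => ?_) (fun a ha e => (e ⟨a, ?_, rfl⟩).elim)
      fun _ _ a ha e => (e ⟨a, ?_, rfl⟩).elim).2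
      (h.ul.acy T k (T.closed (h.ul.mt h0) (isClosed_singleton (x := x))) (h.acy k))
    · have h1 : a ≤ top k := h.ul.le_top (Finset.mem_filter.1 ha).2.le
      refine Set.ext fun y => ⟨fun hy => ?_, fun hy => ⟨sub a hy.1, ?_⟩⟩
      · have h2 := (U.comp a _ _ h1 (h.ul.mt h0) y hy.1).trans hy.2
        have h3 := p.pre k i hk _ (U.maps a _ h1 hy.1) (h2 ▸ hx)
        refine ⟨?_, h3, h2⟩
        rcases H a with ⟨l, rfl⟩ | e
        · obtain rfl : l = k := (h.ul.bt l).symm.trans (Finset.mem_filter.1 ha).2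
          exact id l y hy.1 ▸ h3
        · exact e.2 ▸ hy.1
      · exact (T.comp a _ _ h1 (h.ul.mt h0) y hy.1).symm.trans hy.2.2
    · simp [Cu.succ, (Finset.mem_filter.1 ha).2]
    · simp [lε, Cu.succ, (Finset.mem_filter.1 ha).2, (Finset.mem_filter.1 hb).2]
    · simpa [mem_fibJ.1 ha] using hk
    · simpa [mem_fibJ.1 ha] using hk
  by_cases hx' : x ∈ Y (top (τ i))
  swap
  · exact acy_empty fun a ha => eq_empty_of_forall_notMem fun y hy =>
      hx' (hy.2 ▸ U.maps a _ (ul.le_top (mem_fibJ.1 ha).le) hy.1)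
  obtain ⟨k, hk, h1, ⟨y, hy, h2⟩, h3⟩ := p.one i x hx' hx
  have h0 : ∀ a ∈ fibJ (β ∘ base) i, a ∉ (fun a => a) '' (({top k, top (τ i)} : Finset A) : Set A) →
      U.X a ∩ U.f a (top (τ i)) ⁻¹' {x} = ∅ := fun a ha e => eq_empty_of_forall_notMem fun v hv => by
    have h4 := mem_fibJ.1 ha
    rcases H a with ⟨l, rfl⟩ | e'
    · rw [Function.comp_apply, h.ul.bt] at h4
      refine h3 l h4 (by_contra fun h5 => e ⟨_, ?_, rfl⟩) (fun h5 => e ⟨_, by simp [h5], rfl⟩) v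
        hv.1 hv.2
      simp [← h4, p.ul.ts l (by simpa using h5)]
    · exact hx (hv.2 ▸ T.maps a _ (ul.le_top h4.le) (e'.2 ▸ hv.1))
  have hJ : ∀ a ∈ ({top k, top (τ i)} : Finset A), a ∈ fibJ (β ∘ base) i := by
    simp [h.ul.bt, p.ul.bt, hk]
  refine (acy_iff (fun a => a) 0 (injOn_id _) hJ (fun _ _ => rfl)
    (fun _ _ => (add_zero _).symm) (fun _ _ _ _ => rfl) h0 fun a ha b hb e e' => ?_).1
    (acy_two (by simp [Cu.succ, h.ul.bt, h.ul.st, h1, p.ul.st]) (fun _ _ e => (lε_sup e).2) ?_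
      (fun _ => y) continuousOn_const (fun _ _ => hy) (fun v hv => (h2 v hv).symm)
      fun v hv => hy.2.trans ((id _ v hv.1).symm.trans hv.2).symm)
  · exact eq_empty_of_forall_notMem fun v hv =>
      notMem_empty _ ((h0 b hb e).le (ok.maps a (hJ a ha) b hb (lε_sup e').1 hv))
  · simp [lε, Cu.succ, h.ul.bt, h.ul.st, h1, p.ul.st, h.ul.mt (p.ul.le_top hk.le)]

end Pool.Agent.CS
end
end
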