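import Pool.Agent.K.MP_d34769_ag.C36

/-! Irreducible components and dimension. -/

open Set Filter Topology
open Pool.Agent.HT (Amb proj cj)
open Pool.Agent.PWV (ZC ZI Dim zcl pm)
open Pool.Agent.HIR

noncomputable section
namespace Pool.Agent.CS

variable {M N k : ℕ} {X A B : Set (Amb M)} {f : Amb M → Amb N}

/-- The ideal of the cone. -/
def yd3_id (X : Set (Amb M)) : Ideal (MvPolynomial (Fin M) ℂ) where
  carrier := {P | ∀ v ∈ cn X, MvPolynomial.eval v P = 0}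
  add_mem' := fun h h' v hv => by rw [map_add, h v hv, h' v hv, add_zero]
  zero_mem' := fun v _ => map_zero _
  smul_mem' := fun c P h v hv => by rw [smul_eq_mul, map_mul, h v hv, mul_zero]

theorem yd3_sep (hB : PA B) (hX : X ⊆ Prj M) (hn : ¬ X ⊆ B) : ∃ P ∈ yd3_id B, P ∉ yd3_id X := by
  obtain ⟨x, hx, hb⟩ := not_subset.1 hn
  obtain ⟨v, hv, rfl⟩ := hX hx
  obtain ⟨P, -, -, h1, h2⟩ := hB.exists_hom hv hb
  exact ⟨P, fun u hu => h2 u hu.1 hu.2, fun h => h1 (h v ⟨hv, hx⟩)⟩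

theorem PA.comps (h : PA X) : ∃ s : Set (Set (Amb M)), s.Finite ∧ (∀ Y ∈ s, Irr Y) ∧ ⋃₀ s = X := by
  obtain ⟨p, hp⟩ : ∃ p, yd3_id X = p := ⟨_, rfl⟩
  induction p using WellFoundedGT.induction generalizing X with
  | ind p ih =>
    subst hp
    rcases X.eq_empty_or_nonempty with rfl | hne
    · exact ⟨∅, finite_empty, fun _ h => h.elim, sUnion_empty⟩
    by_cases hi : Irr X
    · exact ⟨{X}, finite_singleton _, fun _ e => e ▸ hi, sUnion_singleton _⟩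
    obtain ⟨A, B, hA, hB, hc, h1, h2⟩ :
        ∃ A B, PA A ∧ PA B ∧ X ⊆ A ∪ B ∧ ¬ X ⊆ A ∧ ¬ X ⊆ B := by
      by_contra hc
      refine hi ⟨h, hne, fun A B hA hB hs => ?_⟩
      by_contra hn
      exact hc ⟨A, B, hA, hB, hs, fun e => hn (Or.inl e), fun e => hn (Or.inr e)⟩
    have key : ∀ A, PA A → ¬ X ⊆ A → ∃ s : Set (Set (Amb M)), s.Finite ∧ (∀ Y ∈ s, Irr Y) ∧
        ⋃₀ s = X ∩ A := fun A hA h1 => by
      obtain ⟨P, p1, p2⟩ := yd3_sep (h.inter hA) h.1 fun e => h1 fun x hx => (e hx).2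
      exact ih (yd3_id (X ∩ A)) (lt_of_le_of_ne (fun Q hQ v hv => hQ v ⟨hv.1, hv.2.1⟩)
        fun e => p2 (e ▸ p1)) (h.inter hA) rfl
    obtain ⟨s, s1, s2, s3⟩ := key A hA h1
    obtain ⟨t, t1, t2, t3⟩ := key B hB h2
    refine ⟨s ∪ t, s1.union t1, fun Y hY => hY.elim (s2 Y) (t2 Y), ?_⟩
    rw [sUnion_union, s3, t3, ← inter_union_distrib_left, inter_eq_left.2 hc]

theorem yd3_van (h : PA X) (P : MvPolynomial (Fin M) ℂ) :
    PA {x | x ∈ X ∧ ∀ v, v ≠ 0 → proj v = x → MvPolynomial.eval v P = 0} := by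
  refine pa_of_hom (fun x hx => h.1 hx.1) fun v hv hn => ?_
  by_cases hx : proj v ∈ X
  · obtain ⟨u, hu, e, h0⟩ : ∃ u, u ≠ 0 ∧ proj u = proj v ∧ MvPolynomial.eval u P ≠ 0 := by
      by_contra hc
      exact hn ⟨hx, fun u hu e => by_contra fun h0 => hc ⟨u, hu, e, h0⟩⟩
    obtain ⟨c, hc, rfl⟩ := (proj_eq_iff hv hu).1 e.symm
    have e1 : ∀ w : Fin M → ℂ, ev (MvPolynomial.aeval
        (fun i => MvPolynomial.C c * MvPolynomial.X i) P) w = MvPolynomial.eval (c • w) P := by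
      intro w
      rw [ev, PWV.vdim_subst]
      simp only [map_mul, MvPolynomial.eval_C, MvPolynomial.eval_X]
      rfl
    refine ⟨_, by rw [e1]; exact h0, fun w hw hm => ?_⟩
    rw [e1]
    exact hm.2 _ (smul_ne_zero hc hw) (proj_smul hc w)
  · obtain ⟨Q, -, -, h1, h2⟩ := h.exists_hom hv hx
    exact ⟨Q, h1, fun u hu hm => h2 u hu hm.1⟩

theorem yd3_line (v : Fin M → ℂ) (P : MvPolynomial (Fin M) ℂ) :
    ∃ F : Polynomial ℂ, ∀ c : ℂ, F.eval c = MvPolynomial.eval (c • v) P := by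
  induction P using MvPolynomial.induction_on with
  | C a => exact ⟨Polynomial.C a, fun c => by simp⟩
  | add p q hp hq =>
    obtain ⟨F, hF⟩ := hp
    obtain ⟨G, hG⟩ := hq
    exact ⟨F + G, fun c => by rw [Polynomial.eval_add, map_add, hF, hG]⟩
  | mul_X p i hp =>
    obtain ⟨F, hF⟩ := hp
    exact ⟨F * (Polynomial.X * Polynomial.C (v i)), fun c => by simp [hF, mul_comm c]⟩

theorem yd3_prime (h : Irr X) : (yd3_id X).IsPrime := by
  refine ⟨fun e => ?_, fun {P Q} hPQ => ?_⟩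
  · obtain ⟨x, hx⟩ := h.ne
    obtain ⟨v, hv, rfl⟩ := h.pa.1 hx
    have : (1 : MvPolynomial (Fin M) ℂ) ∈ yd3_id X := e ▸ Submodule.mem_top
    simpa using this v ⟨hv, hx⟩
  · refine (h.irr _ _ (yd3_van h.pa P) (yd3_van h.pa Q) fun x hx => ?_).imp
      (fun e v hv => (e hv.2).2 v hv.1 rfl) fun e v hv => (e hv.2).2 v hv.1 rfl
    obtain ⟨v, hv, rfl⟩ := h.pa.1 hx
    obtain ⟨F, hF⟩ := yd3_line v P
    obtain ⟨G, hG⟩ := yd3_line v Q
    have h0 : F * G = 0 := by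
      refine Polynomial.eq_zero_of_infinite_isRoot _
        ((finite_singleton (0 : ℂ)).infinite_compl.mono fun c hc => ?_)
      have := hPQ (c • v) ⟨smul_ne_zero hc hv, by rwa [proj_smul hc]⟩
      rw [map_mul, ← hF, ← hG] at this
      simpa using this
    refine (mul_eq_zero.1 h0).imp (fun e => ⟨hx, fun u hu e' => ?_⟩) fun e => ⟨hx, fun u hu e' => ?_⟩
    · obtain ⟨c, -, rfl⟩ := (proj_eq_iff hv hu).1 e'.symm
      rw [← hF, e, Polynomial.eval_zero]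
    · obtain ⟨c, -, rfl⟩ := (proj_eq_iff hv hu).1 e'.symm
      rw [← hG, e, Polynomial.eval_zero]

theorem yd3_zi (h : PA X) {v : Fin M → ℂ} (hv : v ≠ 0) : proj v ∈ X ↔ v ∈ ZI (yd3_id X) := by
  refine ⟨fun hx P hP => hP v ⟨hv, hx⟩, fun hz => by_contra fun hx => ?_⟩
  obtain ⟨P, -, -, h1, h2⟩ := h.exists_hom hv hx
  exact h1 (hz P fun u hu => h2 u hu.1 hu.2)

theorem Irr.prime (h : Irr X) : ∃ p : Ideal (MvPolynomial (Fin M) ℂ), p.IsPrime ∧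
    ∀ v, v ≠ 0 → (proj v ∈ X ↔ v ∈ ZI p) :=
  ⟨_, yd3_prime h, fun _ hv => yd3_zi h.pa hv⟩

theorem Irr.sub_biUnion (h : Irr X) {ι : Type*} {s : Set ι} (hs : s.Finite) {A : ι → Set (Amb M)}
    (hA : ∀ i ∈ s, PA (A i)) (hX : X ⊆ ⋃ i ∈ s, A i) : ∃ i ∈ s, X ⊆ A i := by
  induction s, hs using Set.Finite.induction_on with
  | empty =>
    obtain ⟨x, hx⟩ := h.ne
    simpa using hX hx
  | insert _ hs ih =>
    rw [biUnion_insert] at hX
    have h1 := fun i hi => hA i (mem_insert_of_mem _ hi)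
    rcases h.irr _ _ (hA _ (mem_insert _ _)) (pa_biUnion hs h1) hX with e | e
    · exact ⟨_, mem_insert _ _, e⟩
    · obtain ⟨i, hi, e'⟩ := ih h1 e
      exact ⟨i, mem_insert_of_mem _ hi, e'⟩

theorem Irr.image (h : Irr A) (hf : AG A f) : Irr (f '' A) := by
  refine ⟨hf.image h.pa Subset.rfl, h.ne.image f, fun B C hB hC hs => ?_⟩
  refine (h.irr _ _ (hf.preimage hB) (hf.preimage hC) fun x hx => ?_).imp
    (fun e => image_subset_iff.2 fun x hx => (e hx).2) fun e =>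
      image_subset_iff.2 fun x hx => (e hx).2
  exact (hs (mem_image_of_mem f hx)).imp (fun e => ⟨hx, e⟩) fun e => ⟨hx, e⟩

theorem Irr.dense (h : Irr X) (hB : PA B) (hn : ¬ X ⊆ B) : X ⊆ closure (X \ B) := by
  obtain ⟨P, p1, p2⟩ := yd3_sep hB h.pa.1 hn
  intro x hx
  obtain ⟨v, hv, rfl⟩ := h.pa.1 hx
  have h1 := mem_closure_iff_frequently.1 (dens (yd3_prime h) p2 ((yd3_zi h.pa hv).1 hx))
  refine mem_closure_iff_frequently.2 ((cont_proj hv).frequently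
    ((h1.and_eventually (eventually_ne_nhds hv)).mono fun u hu => ?_))
  exact ⟨(yd3_zi h.pa hu.2).2 hu.1.1, fun hb => hu.1.2 (p1 u ⟨hu.2, hb⟩)⟩

theorem Dm.mono (h : Dm X k) (s : A ⊆ X) : Dm A k :=
  PWV.Dim.mono h fun _ hv => ⟨hv.1, s hv.2⟩

theorem Dm.mono_nat (h : Dm X k) {l : ℕ} (hl : k ≤ l) : Dm X l :=
  PWV.Dim.mono_nat h (Nat.succ_le_succ hl)

theorem dm_empty : Dm (∅ : Set (Amb M)) k :=
  (PWV.dim_empty _).mono fun _ hv => hv.2.elim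

theorem Dm.union (hA : Dm A k) (hB : Dm B k) : Dm (A ∪ B) k :=
  (PWV.Dim.union hA hB).mono fun _ hv => hv.2.imp (fun e => ⟨hv.1, e⟩) fun e => ⟨hv.1, e⟩

theorem yd3_biUnion {ι : Type*} {s : Set ι} (hs : s.Finite) {A : ι → Set (Amb M)}
    (h : ∀ i ∈ s, Dm (A i) k) : Dm (⋃ i ∈ s, A i) k := by
  induction s, hs using Set.Finite.induction_on with
  | empty => simpa using dm_empty
  | insert _ _ ih =>
    rw [biUnion_insert]
    exact (h _ (mem_insert _ _)).union (ih fun i hi => h i (mem_insert_of_mem _ hi))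

theorem dm_iUnion {ι : Sort*} [Finite ι] {A : ι → Set (Amb M)} (h : ∀ i, Dm (A i) k) :
    Dm (⋃ i, A i) k := by
  refine (yd3_biUnion (A := id) (finite_range A) ?_).mono fun x hx => ?_
  · rintro _ ⟨i, rfl⟩
    exact h i
  · obtain ⟨i, hi⟩ := mem_iUnion.1 hx
    exact mem_biUnion (mem_range_self i) hi

theorem dm_biUnion {ι : Type*} {s : Set ι} (hs : s.Finite) {A : ι → Set (Amb M)}
    (h : ∀ i ∈ s, Dm (A i) k) : Dm (⋃ i ∈ s, A i) k :=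
  yd3_biUnion hs h

theorem dm_top (X : Set (Amb M)) : Dm X M :=
  (PWV.dim_univ M).mono (subset_univ _)

theorem Dm.eq_empty (h : Dm X 0) (hX : X ⊆ Prj M) : X = ∅ := by
  refine eq_empty_of_forall_notMem fun x hx => ?_
  obtain ⟨v, hv, rfl⟩ := hX hx
  obtain ⟨i, hi⟩ : ∃ i, v i ≠ 0 := Function.ne_iff.1 hv
  obtain ⟨P, h0, hP⟩ := h fun _ => MvPolynomial.X i
  refine mul_ne_zero h0 (MvPolynomial.X_ne_zero 0) (MvPolynomial.funext fun y => ?_)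
  rw [map_mul, map_zero, MvPolynomial.eval_X]
  by_cases hy : y 0 = 0
  · rw [hy, mul_zero]
  have hc : y 0 / v i ≠ 0 := div_ne_zero hy hi
  have h1 := hP ((y 0 / v i) • v) ⟨smul_ne_zero hc hv, by rwa [proj_smul hc]⟩
  have e : (fun _ : Fin (0 + 1) => MvPolynomial.eval ((y 0 / v i) • v)
      (MvPolynomial.X i : MvPolynomial (Fin M) ℂ)) = y := by
    funext j
    rw [MvPolynomial.eval_X, Pi.smul_apply, smul_eq_mul, div_mul_cancel₀ _ hi,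
      Subsingleton.elim (α := Fin 1) j 0]
  rw [e] at h1
  rw [h1, zero_mul]

theorem Irr.drop (h : Irr X) (hB : PA B) (hn : ¬ X ⊆ B) (hd : Dm X (k + 1)) : Dm (X ∩ B) k := by
  obtain ⟨P, p1, p2⟩ := yd3_sep hB h.pa.1 hn
  exact (PWV.drop (yd3_prime h) p2 (PWV.Dim.zcl hd)).mono fun v hv =>
    ⟨(yd3_zi h.pa hv.1).1 hv.2.1, p1 v ⟨hv.1, hv.2.2⟩⟩

theorem yd3_key {R : Amb M → Amb N → Prop} (hR : AR R) {δ : MvPolynomial (Fin N) ℂ} {d : ℕ}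
    (hδ : δ.IsHomogeneous d)
    (hu : ∀ x x' w, w ≠ 0 → ev δ w ≠ 0 → R x (proj w) → R x' (proj w) → x = x') {e : ℕ}
    (hd : Dim {w | w ≠ 0 ∧ ∃ x, R x (proj w)} e) :
    Dim {v | v ≠ 0 ∧ ∃ w, w ≠ 0 ∧ ev δ w ≠ 0 ∧ R (proj v) (proj w)} e := by
  obtain ⟨-, V, hV, hm⟩ := hR
  let S : Fin M × Fin N → Set (Fin M ⊕ Fin N → ℂ) := fun a =>
    (V ∩ {z | MvPolynomial.eval z (MvPolynomial.X (Sum.inl a.1) -
      MvPolynomial.X (Sum.inr a.2) : MvPolynomial _ ℂ) = 0}) ∩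
    {z | MvPolynomial.eval z (MvPolynomial.X (Sum.inl a.1) * MvPolynomial.rename Sum.inr δ) ≠ 0}
  have hS : ∀ a v w, Sum.elim v w ∈ S a ↔
      Sum.elim v w ∈ V ∧ v a.1 = w a.2 ∧ v a.1 ≠ 0 ∧ ev δ w ≠ 0 := by
    intro a v w
    simp only [S, mem_inter_iff, mem_ofPred_eq, map_sub, map_mul, MvPolynomial.eval_X,
      MvPolynomial.eval_rename, Sum.elim_inl, Sum.elim_inr, Sum.elim_comp_inr, sub_eq_zero,
      mul_ne_zero_iff, and_assoc, ev]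
  have hS' : ∀ a v w, Sum.elim v w ∈ S a → v ≠ 0 ∧ w ≠ 0 ∧ R (proj v) (proj w) := by
    intro a v w h
    obtain ⟨h1, h2, h3, -⟩ := (hS a v w).1 h
    have hv : v ≠ 0 := fun e => h3 (by rw [e]; rfl)
    have hw : w ≠ 0 := fun e => h3 (by rw [h2, e]; rfl)
    exact ⟨hv, hw, (hm v w hv hw).2 h1⟩
  have hel : ∀ z : Fin M ⊕ Fin N → ℂ, ∃ v w, z = Sum.elim v w := fun z =>
    ⟨_, _, (Sum.elim_comp_inl_inr z).symm⟩
  have hp : ∀ v w, pm (fun j => MvPolynomial.X (Sum.inr j)) (Sum.elim v w : Fin M ⊕ Fin N → ℂ) =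
      w := fun v w => funext fun j => by simp [pm]
  have h1 : ∀ a, Dim (S a) e := fun a => by
    refine dim_of_inj (hV.inter (PWV.zc_zero _)) _ (fun j => MvPolynomial.X (Sum.inr j))
      (fun z hz z' hz' h => ?_) (hd.mono ?_)
    · obtain ⟨v, w, rfl⟩ := hel z
      obtain ⟨v', w', rfl⟩ := hel z'
      rw [hp, hp] at h
      subst h
      obtain ⟨a1, a2, a3⟩ := hS' a v w hz
      obtain ⟨b1, -, b3⟩ := hS' a v' w hz'
      obtain ⟨-, c1, c2, c3⟩ := (hS a v w).1 hz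
      obtain ⟨-, d1, -, -⟩ := (hS a v' w).1 hz'
      obtain ⟨c, -, rfl⟩ := (proj_eq_iff a1 b1).1 (hu _ _ w a2 c3 a3 b3)
      have : c = 1 := mul_right_cancel₀ c2 (by rw [one_mul]; exact d1.trans c1.symm)
      rw [this, one_smul]
    · rintro _ ⟨z, hz, rfl⟩
      obtain ⟨v, w, rfl⟩ := hel z
      rw [hp]
      exact ⟨(hS' a v w hz).2.1, _, (hS' a v w hz).2.2⟩
  refine ((PWV.dim_biUnion finite_univ fun a _ => h1 a).image
    fun i => MvPolynomial.X (Sum.inl i)).mono ?_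
  rintro v ⟨hv, w, hw, h2, h3⟩
  obtain ⟨i, hi⟩ : ∃ i, v i ≠ 0 := Function.ne_iff.1 hv
  obtain ⟨j, hj⟩ : ∃ j, w j ≠ 0 := Function.ne_iff.1 hw
  have hc : v i / w j ≠ 0 := div_ne_zero hi hj
  refine ⟨Sum.elim v ((v i / w j) • w), mem_biUnion (mem_univ (i, j)) ((hS _ _ _).2
    ⟨(hm _ _ hv (smul_ne_zero hc hw)).1 (by rwa [proj_smul hc]), ?_, hi, ?_⟩),
    funext fun l => by simp⟩
  · exact (div_mul_cancel₀ _ hj).symm
  · rw [ev_smul hδ]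
    exact mul_ne_zero (pow_ne_zero _ hc) h2

theorem AG.dm (h : AG X f) (hd : Dm X k) : Dm (f '' X) k := by
  refine (yd3_key h.ar.swap (MvPolynomial.isHomogeneous_one _ _)
    (fun y y' w _ _ a b => a.2.symm.trans b.2)
    (PWV.Dim.mono hd fun w hw => ⟨hw.1, hw.2.choose_spec.1⟩)).mono ?_
  rintro w ⟨hw, x, hx, e⟩
  obtain ⟨v, hv, rfl⟩ := h.pa.1 hx
  exact ⟨hw, v, hv, by simp [ev], hx, e⟩

theorem Mod.dm {A' : Set (Amb N)} {π : Amb N → Amb M} (h : Mod A' A π) (hd : Dm A k) :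
    Dm A' k := by
  obtain ⟨S, hS, hn, hi⟩ := h.inj
  obtain ⟨x, hx, hb⟩ := not_subset.1 hn
  obtain ⟨w₀, hw₀, rfl⟩ := h.irr.pa.1 hx
  obtain ⟨δ, d, hδ, h1, h2⟩ := hS.exists_hom hw₀ hb
  have hz : ∀ w, w ≠ 0 → (proj w ∈ {y | ∃ u, u ≠ 0 ∧ proj u = y ∧ ev δ u = 0} ↔ ev δ w = 0) := by
    refine fun w hw => ⟨?_, fun e => ⟨w, hw, rfl, e⟩⟩
    rintro ⟨u, hu, e, h0⟩
    obtain ⟨c, -, rfl⟩ := (proj_eq_iff hu hw).1 e
    rw [ev_smul hδ, h0, mul_zero]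
  have hZ : PA {y | ∃ u, u ≠ 0 ∧ proj u = y ∧ ev δ u = 0} :=
    ⟨fun y ⟨u, hu, e, _⟩ => ⟨u, hu, e⟩, _, PWV.zc_zero δ, hz⟩
  obtain ⟨P, p1, p2⟩ := yd3_sep (h.ag.preimage hZ) h.irr'.pa.1 fun e => by
    obtain ⟨x', hx', e'⟩ := h.im.ge hx
    exact h1 ((hz _ hw₀).1 (e' ▸ (e hx').2))
  have h3 := yd3_key h.ag.ar hδ (fun x x' w hw h0 a b => hi
    ⟨a.1, fun e => h0 (h2 w hw (a.2 ▸ e))⟩ ⟨b.1, fun e => h0 (h2 w hw (b.2 ▸ e))⟩
      (a.2.trans b.2.symm)) (PWV.Dim.mono hd fun w ⟨hw, x, a⟩ => ⟨hw, h.im.le ⟨x, a⟩⟩)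
  refine h3.zcl.mono fun v hv Q hQ => ?_
  refine ((yd3_prime h.irr').mem_or_mem (x := P) (y := Q) fun u hu => ?_).resolve_left p2 v hv
  rw [map_mul]
  obtain ⟨w, hw, e⟩ := h.ag.prj hu.2
  by_cases h0 : ev δ w = 0
  · rw [p1 u ⟨hu.1, hu.2, ⟨w, hw, e, h0⟩⟩, zero_mul]
  · rw [hQ u ⟨hu.1, w, hw, h0, hu.2, e.symm⟩, mul_zero]

end Pool.Agent.CS
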