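import Pool.Agent.K.MP_d34769_ag.C6

/-! Galois descent for stable representations over finite fields. -/

namespace Pool.Agent.P.MP_d34769_ag

open Module Classical TensorProduct

namespace QR

variable {ι A : Type} {s t : A → ι} [Fintype ι]
variable {K : Type} [Field K] {L : Type} [Field L] [Finite L] [Algebra K L]
variable {F : Type} [Field F] [Finite F] [Algebra K F]

/-- The properties of the extension of scalars of `T` along `τ`. -/
structure BC (τ : F →ₐ[K] L) (T : QR F s t) : Type 1 where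
  N : QR L s t
  f : Fam (res K T) (res K N)
  κ : Type
  [fin : Fintype κ]
  b : κ → L
  π : κ → Fam (res K N) (res K T)
  dv : N.dv = T.dv
  hf : IsHom _ _ f
  hπ : ∀ l, IsHom _ _ (π l)
  semi : ∀ (c : F) i x, f i (c • x) = τ c • f i x
  recon : ∀ i z, z = ∑ l, b l • f i (π l i z)
  univ : ∀ (N' : QR L s t) (g : Fam (res K T) (res K N')), IsHom _ _ g →
    (∀ (c : F) i x, g i (c • x) = τ c • g i x) →
    ∃ ψ : Fam N N', IsHom _ _ ψ ∧ ∀ i x, resF K ψ i (f i x) = g i x

attribute [instance] BC.fin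

lemma nonempty_bc (τ : F →ₐ[K] L) (T : QR F s t) : Nonempty (BC τ T) := by
  letI : Algebra F L := τ.toRingHom.toAlgebra
  have hτ : ∀ c : K, algebraMap F L (algebraMap K F c) = algebraMap K L c := τ.commutes
  let N : QR L s t := { M := fun i => L ⊗[F] T.M i, a := fun e => (T.a e).baseChange L }
  let b := Module.finBasis F L
  have hs : ∀ i (c : F) (x : T.M i), (1 : L) ⊗ₜ[F] (c • x) = τ c • (1 : L) ⊗ₜ[F] x := by
    intro i c x
    rw [tmul_smul, ← algebraMap_smul L c]
    rfl
  let π : Fin (finrank F L) → ∀ i, L ⊗[F] T.M i →ₗ[F] T.M i := fun l i =>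
    (TensorProduct.lid F (T.M i)).toLinearMap ∘ₗ (b.coord l).rTensor (T.M i)
  have hπ : ∀ l i (a : L) (x : T.M i), π l i (a ⊗ₜ x) = b.repr a l • x := fun l i a x => by
    simp [π]
  refine ⟨{
    N := N
    f := fun i => ⟨(TensorProduct.mk F L (T.M i) 1).toAddHom, fun c x =>
      (hs i (algebraMap K F c) x).trans (by rw [τ.commutes]; rfl)⟩
    κ := Fin (finrank F L)
    b := b
    π := fun l i => ⟨(π l i).toAddHom, fun c z => ?_⟩
    dv := funext fun i => Module.finrank_baseChange
    hf := fun e x => rfl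
    hπ := fun l e z => ?_
    semi := fun c i x => hs i c x
    recon := fun i z => ?_
    univ := fun N' g hg hsemi => ?_ }⟩
  · change π l i (algebraMap K L c • (show L ⊗[F] T.M i from z)) = algebraMap K F c • π l i z
    rw [← hτ, algebraMap_smul, map_smul]
  · change π l (t e) ((T.a e).baseChange L z) = T.a e (π l (s e) z)
    induction z using TensorProduct.induction_on with
    | zero => simp
    | tmul a x => rw [LinearMap.baseChange_tmul, hπ, hπ, map_smul]
    | add x y hx hy => simp only [map_add, hx, hy]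
  · change (show L ⊗[F] T.M i from z) = ∑ l, b l • (1 : L) ⊗ₜ[F] π l i z
    induction z using TensorProduct.induction_on with
    | zero => simp
    | tmul a x =>
      simp only [hπ]
      conv_lhs => rw [← b.sum_repr a, sum_tmul]
      refine Finset.sum_congr rfl fun l _ => ?_
      rw [smul_tmul', smul_eq_mul, mul_one, smul_tmul]
    | add x y hx hy =>
      simp only [map_add, tmul_add, smul_add, Finset.sum_add_distrib] at hx hy ⊢
      rw [← hx, ← hy]
  · letI : ∀ i, Module F (N'.M i) := fun i => Module.compHom _ (algebraMap F L)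
    have : ∀ i, IsScalarTower F L (N'.M i) := fun i => IsScalarTower.of_algebraMap_smul
      fun _ _ => rfl
    let g' : ∀ i, T.M i →ₗ[F] N'.M i := fun i => ⟨(g i).toAddHom, fun c x => hsemi c i x⟩
    refine ⟨fun i => (g' i).liftBaseChange L, fun e z => ?_, fun i x =>
      LinearMap.liftBaseChange_one_tmul L (g' i) x⟩
    change (g' (t e)).liftBaseChange L ((T.a e).baseChange L z) =
      N'.a e ((g' (s e)).liftBaseChange L z)
    induction z using TensorProduct.induction_on with
    | zero => simp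
    | tmul a x =>
      rw [LinearMap.baseChange_tmul, LinearMap.liftBaseChange_tmul,
        LinearMap.liftBaseChange_tmul, map_smul]
      exact congrArg _ (hg e x)
    | add x y hx hy => simp only [map_add, hx, hy]

namespace BC

variable {τ : F →ₐ[K] L} {T : QR F s t} (B : BC τ T) {w : ι → ℝ}

lemma inj {i} {z : (res K B.N).M i} (h : ∀ l, B.π l i z = 0) : z = 0 := by
  rw [B.recon i z]
  simp [h]

lemma np (hS : St w (res K T)) : NP w (res K B.N) := fun U hU =>
  np_of_family hS.np B.π B.hπ Finset.univ U hU fun _ _ _ h => B.inj fun l => h l (Finset.mem_univ _)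

lemma hom_eq (hT : ScR K T) {g : Fam (res K T) (res K B.N)} (hg : IsHom _ _ g) :
    ∃ c : L, ∀ i x, g i x = c • B.f i x := by
  choose c hc using fun l => hT _ ((B.hπ l).comp hg)
  refine ⟨∑ l, B.b l * τ (c l), fun i x => ?_⟩
  rw [B.recon i (g i x), Finset.sum_smul]
  refine Finset.sum_congr rfl fun l _ => ?_
  rw [mul_smul, ← B.semi]
  exact congrArg (fun y => B.b l • B.f i y) (hc l i x)

lemma exists_pi {X : QR K s t} {g : Fam X (res K B.N)} (h0 : g ≠ 0) :
    ∃ l, comp (B.π l) g ≠ 0 := by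
  by_contra h
  push Not at h
  exact h0 (fam_ext fun i x => B.inj fun l => LinearMap.congr_fun (congrFun (h l) i) x)

variable [Finite K]

lemma dv_ne (hS : St w (res K T)) : B.N.dv ≠ 0 := fun h => hS.2.1 (by
  rw [dv_res, ← B.dv, h, smul_zero])

lemma f_ne (hS : St w (res K T)) : B.f ≠ 0 := fun h => by
  obtain ⟨i, x, hx⟩ := exists_ne_of_dv (B.dv_ne hS)
  refine hx ((B.recon i x).trans ?_)
  simp [h]
  rfl

lemma st (hS : St w (res K T)) (hT : ScR K T) : St w B.N := by
  refine ⟨?_, B.dv_ne hS, fun U hU h0 h1 => ?_⟩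
  · have := hS.1
    rw [dv_res, tw_smul, mul_eq_zero] at this
    rw [B.dv]
    exact this.resolve_left (Nat.cast_ne_zero.2 finrank_pos'.ne')
  by_contra hth
  obtain ⟨V, hV, hVU, hst⟩ := (B.np hS).exists_st (IsSub.resS hU)
    (fun h => h0 (eq_bot_iff.2 fun i x hx => (eq_bot_iff.1 h) i hx))
    (by rw [th_resS]; exact mul_nonneg (Nat.cast_nonneg _) (not_lt.1 hth))
  have hne : subF _ V hV ≠ 0 := fun h => hst.top_ne_bot (comapS_bot_eq_top.2 h ▸
    comapS_bot_eq_bot.2 (subF_inj hV))
  obtain ⟨l, hl⟩ := B.exists_pi hne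
  let φ := Iso.ofBij ((B.hπ l).comp (isHom_subF hV))
    (hst.bij hS ((B.hπ l).comp (isHom_subF hV)) hl)
  obtain ⟨c, hc⟩ := B.hom_eq hT ((isHom_subF hV).comp φ.symm.isHom)
  have hc0 : c ≠ 0 := by
    rintro rfl
    refine hne (fam_ext fun i x => ?_)
    have := hc i (φ.fam i x)
    simpa using this
  have hf : ∀ i x, B.f i x ∈ U i := fun i x => by
    have : c • B.f i x ∈ U i := hc i x ▸ hVU i (φ.symm.fam i x).2
    exact ((U i).smul_mem_iff hc0).1 this
  refine h1 (eq_top_iff.2 fun i z _ => ?_)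
  rw [B.recon i z]
  exact (U i).sum_mem fun l _ => (U i).smul_mem _ (hf i _)

omit [Finite K] in
lemma sc (hT : ScR K T) : Sc B.N := by
  intro ψ hψ
  obtain ⟨c, hc⟩ := B.hom_eq hT ((hψ.resF (K := K)).comp B.hf)
  refine ⟨c, fun i z => ?_⟩
  change resF K ψ i z = c • (show (res K B.N).M i from z)
  rw [B.recon i z, map_sum, Finset.smul_sum]
  refine Finset.sum_congr rfl fun l _ => ?_
  rw [resF_smul, smul_comm]
  exact congrArg _ (hc i _)

lemma isom (hS : St w (res K T)) (hT : ScR K T) {N : QR L s t} (hN : St w N)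
    {g : Fam (res K T) (res K N)} (hg : IsHom _ _ g) (h0 : g ≠ 0)
    (hsemi : ∀ (c : F) i x, g i (c • x) = τ c • g i x) : Isom B.N N := by
  obtain ⟨ψ, hψ, h⟩ := B.univ N g hg hsemi
  refine hψ.isom ((B.st hS hT).bij hN hψ ?_)
  rintro rfl
  exact h0 (fam_ext fun i x => (h i x).symm)

end BC

variable [Finite K] {w : ι → ℝ}

lemma exists_scalar {T : QR F s t} (hS : St w (res K T)) (hT : ScR K T) {N : QR L s t}
    (hN : St w N) (hsc : Sc N) {g : Fam (res K T) (res K N)} (hg : IsHom _ _ g) (h0 : g ≠ 0)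
    (c : F) : ∃ d : L, ∀ i x, g i (c • x) = d • g i x := by
  obtain ⟨π, hπ, hπ0⟩ := exists_retr hS hN hg h0
  have hg' := hg.comp (isHom_smulF T c)
  let γ : Fam (res K T) (res K (N.prod N)) := fun i =>
    ⟨((g i).prod (comp g (smulF K T c) i)).toAddHom,
      ((g i).prod (comp g (smulF K T c) i)).map_smul⟩
  have hγ : IsHom _ _ γ := fun e x => Prod.ext (hg e x) (hg' e x)
  have hΓ := isSub_spanS hγ
  have hth := th_spanS hS.ss hγ
  have hmem : ∀ i x, (γ i x : (N.prod N).M i) ∈ spanS γ i := fun i x =>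
    Submodule.subset_span ⟨x, rfl⟩
  have hker : spanS γ ⊓ comapS (fst N N) ⊥ = mapS (inr N N) (comapS (inr N N) (spanS γ)) := by
    rw [mapS_comapS, inf_comm]
    congr 1
    funext i
    change LinearMap.ker (LinearMap.fst L _ _) = Submodule.map (LinearMap.inr L _ _) ⊤
    rw [Submodule.map_top, LinearMap.range_inr]
  have h1 := th_mapS (w := w) (fst N N) (spanS γ)
  rw [hker, th_mapS_inj (f := inr N N) (fun _ => LinearMap.inr_injective)] at h1
  have h2 := hN.np _ (isHom_fst.mapS hΓ)
  have h3 := hN.np _ (isHom_inr.comapS hΓ)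
  have h4 : comapS (inr N N) (spanS γ) = ⊥ := by
    by_contra h5
    have h6 := hN.eq_top (isHom_inr.comapS hΓ) h5 (by linarith)
    refine hπ0 (fam_ext fun i y => ?_)
    have h7 : inr N N i y ∈ spanS γ i := by
      change y ∈ comapS (inr N N) (spanS γ) i
      rw [h6]
      trivial
    have h8 := spanS_le γ i (AddMonoidHom.ker
      (((comp (smulF K T c) π i).toAddMonoidHom.comp (fst N N i).toAddMonoidHom) -
        ((π i).toAddMonoidHom.comp (snd N N i).toAddMonoidHom))) (fun a x => by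
        obtain ⟨d, hd⟩ := hT _ (hπ.comp ((isHom_smulF N a).comp hg))
        change c • π i (a • g i x) - π i (a • g i (c • x)) = 0
        have e1 : π i (a • g i x) = d • x := hd i x
        have e2 : π i (a • g i (c • x)) = d • c • x := hd i (c • x)
        rw [e1, e2, smul_comm, sub_self]) h7
    have h9 : c • π i 0 - π i y = 0 := h8
    simpa using h9
  have h5 : mapS (fst N N) (spanS γ) = ⊤ := hN.eq_top (isHom_fst.mapS hΓ) (fun h => h0 <|
    fam_ext fun i x => by
      have : (g i x : N.M i) ∈ mapS (fst N N) (spanS γ) i := ⟨_, hmem i x, rfl⟩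
      rw [h] at this
      exact this) (by rw [h4, th_bot] at h1; linarith)
  have hb : ∀ i, Function.Bijective (comp (fst N N) (subF _ _ hΓ) i) := by
    intro i
    constructor
    · rw [injective_iff_map_eq_zero]
      intro z hz
      have : z.1 ∈ (spanS γ ⊓ comapS (fst N N) ⊥) i := ⟨z.2, hz⟩
      rw [hker, h4, mapS_bot] at this
      exact Subtype.ext this
    · intro y
      have : y ∈ mapS (fst N N) (spanS γ) i := h5 ▸ trivial
      obtain ⟨z, hz, rfl⟩ := this
      exact ⟨⟨z, hz⟩, rfl⟩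
  let φ := Iso.ofBij (isHom_fst.comp (isHom_subF hΓ)) hb
  obtain ⟨d, hd⟩ := hsc _ ((isHom_snd.comp (isHom_subF hΓ)).comp φ.symm.isHom)
  refine ⟨d, fun i x => ?_⟩
  have := hd i (φ.fam i ⟨γ i x, hmem i x⟩)
  simp only [comp_apply, Iso.symm_apply_apply] at this
  exact this

lemma exists_tau {T : QR F s t} (hS : St w (res K T)) (hT : ScR K T) {N : QR L s t}
    (hN : St w N) (hsc : Sc N) {g : Fam (res K T) (res K N)} (hg : IsHom _ _ g) (h0 : g ≠ 0) :
    ∃ τ : F →ₐ[K] L, ∀ (c : F) i x, g i (c • x) = τ c • g i x := by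
  choose d hd using exists_scalar hS hT hN hsc hg h0
  obtain ⟨i, x, hx⟩ : ∃ i x, g i x ≠ 0 := by
    by_contra h
    push Not at h
    exact h0 (fam_ext h)
  have hinj := smul_left_injective L hx
  refine ⟨⟨⟨⟨⟨d, hinj ?_⟩, fun a b => hinj ?_⟩, hinj ?_, fun a b => hinj ?_⟩, fun c => hinj ?_⟩, hd⟩
  · simp only [← hd, one_smul]
  · simp only [mul_smul, ← hd]
  · simp only [← hd, zero_smul, map_zero]
  · simp only [add_smul, ← hd, map_add]
  · simp only [← hd]
    exact (g i).map_smul c x

omit [Finite K] in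
lemma BC.tau_eq {τ τ' : F →ₐ[K] L} {T : QR F s t} (B : BC τ T) (B' : BC τ' T) (h0 : B.f ≠ 0)
    (hT : ScR K T) (h : Isom B.N B'.N) : τ = τ' := by
  obtain ⟨φ⟩ := h
  obtain ⟨a, ha⟩ := B'.hom_eq hT ((φ.isHom.resF (K := K)).comp B.hf)
  obtain ⟨i, x, hx⟩ : ∃ i x, B.f i x ≠ 0 := by
    by_contra h
    push Not at h
    exact h0 (fam_ext h)
  have hx' : resF K φ.fam i (B.f i x) ≠ 0 := fun h => hx (φ.inj i (h.trans (map_zero _).symm))
  refine AlgHom.ext fun c => smul_left_injective L hx' ?_
  have h1 := ha i (c • x)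
  have h2 := ha i x
  simp only [comp_apply] at h1 h2 ⊢
  rw [← resF_smul, ← B.semi, h1, h2, B'.semi, smul_comm]

end QR

end Pool.Agent.P.MP_d34769_ag
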