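import Pool.Agent.K.MP_d34769_ag.C23

/-! Leading terms of cocycles in a double complex with an algebraic model of the first page. -/

open Pool.Agent.HT (BG)
open Module

noncomputable section
namespace Pool.Agent.CS
variable {T T' Φ Φ' : Type} [AddCommGroup T] [Module ℂ T] [AddCommGroup T'] [Module ℂ T']
  [AddCommGroup Φ] [Module ℂ Φ] [AddCommGroup Φ'] [Module ℂ Φ']

/-- A linear relation that is total and reflects the null parts bounds the dimension. -/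
theorem rel_le (R : Submodule ℂ (T × Φ)) {P P₀ : Submodule ℂ T} {Q Q₀ : Submodule ℂ Φ}
    (h1 : ∀ x ∈ P, ∃ y ∈ Q, (x, y) ∈ R) (h2 : ∀ x y, (x, y) ∈ R → y ∈ Q₀ → x ∈ P₀)
    [Module.Finite ℂ (Q.map Q₀.mkQ)] :
    Module.Finite ℂ (P.map P₀.mkQ) ∧ finrank ℂ (P.map P₀.mkQ) ≤ finrank ℂ (Q.map Q₀.mkQ) := by
  let R' : Submodule ℂ (T × Φ) := R ⊓ P.prod Q
  let a : R' →ₗ[ℂ] T ⧸ P₀ := P₀.mkQ ∘ₗ LinearMap.fst ℂ T Φ ∘ₗ R'.subtype
  let b : R' →ₗ[ℂ] Φ ⧸ Q₀ := Q₀.mkQ ∘ₗ LinearMap.snd ℂ T Φ ∘ₗ R'.subtype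
  have hk : LinearMap.ker b ≤ LinearMap.ker a := fun z hz =>
    (Submodule.Quotient.mk_eq_zero _).2 (h2 _ _ z.2.1 ((Submodule.Quotient.mk_eq_zero _).1 hz))
  have ha : LinearMap.range a = P.map P₀.mkQ := by
    refine le_antisymm ?_ ?_
    · rintro _ ⟨z, rfl⟩
      exact ⟨z.1.1, z.2.2.1, rfl⟩
    · rintro _ ⟨x, hx, rfl⟩
      obtain ⟨y, hy, e⟩ := h1 x hx
      exact ⟨⟨(x, y), e, hx, hy⟩, rfl⟩
  have hb : LinearMap.range b ≤ Q.map Q₀.mkQ := by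
    rintro _ ⟨z, rfl⟩
    exact ⟨z.1.2, z.2.2.2, rfl⟩
  have : Module.Finite ℂ (LinearMap.range b) := Submodule.finiteDimensional_of_le hb
  let g : LinearMap.range b →ₗ[ℂ] T ⧸ P₀ :=
    (LinearMap.ker b).liftQ a hk ∘ₗ b.quotKerEquivRange.symm.toLinearMap
  have hg : LinearMap.range g = LinearMap.range a := by
    rw [LinearMap.range_comp, LinearEquiv.range, Submodule.map_top, Submodule.range_liftQ]
  rw [← ha, ← hg]
  exact ⟨inferInstance, (LinearMap.finrank_range_le g).trans (Submodule.finrank_mono hb)⟩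

/-- the dimension of the graded piece of `K` -/
def grd (W : ℕ → Submodule ℂ T) (K : Submodule ℂ T) (c : ℕ) : ℕ :=
  finrank ℂ ((K ⊓ W c).map (W (c + 1)).mkQ)

theorem gr_step {W : ℕ → Submodule ℂ T} (h : Antitone W) (K : Submodule ℂ T) (c : ℕ)
    [Module.Finite ℂ ↥(K ⊓ W (c + 1))] [Module.Finite ℂ ((K ⊓ W c).map (W (c + 1)).mkQ)] :
    Module.Finite ℂ ↥(K ⊓ W c) ∧
      finrank ℂ ↥(K ⊓ W c) = grd W K c + finrank ℂ ↥(K ⊓ W (c + 1)) := by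
  let a : ↥(K ⊓ W c) →ₗ[ℂ] T ⧸ W (c + 1) := (W (c + 1)).mkQ ∘ₗ (K ⊓ W c).subtype
  have ha : LinearMap.range a = (K ⊓ W c).map (W (c + 1)).mkQ := by
    rw [LinearMap.range_comp, Submodule.range_subtype]
  have hk : LinearMap.ker a = (K ⊓ W (c + 1)).submoduleOf (K ⊓ W c) := by
    ext x
    exact (Submodule.Quotient.mk_eq_zero _).trans ⟨fun e => ⟨x.2.1, e⟩, fun e => e.2⟩
  have e := Submodule.submoduleOfEquivOfLe (inf_le_inf_left K (h c.le_succ))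
  have f1 : Module.Finite ℂ (LinearMap.ker a) := hk ▸ Module.Finite.equiv e.symm
  have f2 : Module.Finite ℂ (LinearMap.range a) := ha ▸ inferInstance
  have f3 : Module.Finite ℂ (↥(K ⊓ W c) ⧸ LinearMap.ker a) :=
    Module.Finite.equiv a.quotKerEquivRange.symm
  have f4 : Module.Finite ℂ ↥(K ⊓ W c) := Module.Finite.of_submodule_quotient (LinearMap.ker a)
  refine ⟨f4, ?_⟩
  rw [← a.finrank_range_add_finrank_ker, ha, hk, e.finrank_eq, grd]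

theorem gr_sum {W : ℕ → Submodule ℂ T} (h : Antitone W) (h0 : W 0 = ⊤) {j : ℕ} (hj : W j = ⊥)
    (K : Submodule ℂ T) (hf : ∀ c < j, Module.Finite ℂ ((K ⊓ W c).map (W (c + 1)).mkQ)) :
    Module.Finite ℂ K ∧ finrank ℂ K = ∑ c ∈ Finset.range j, grd W K c := by
  have key : ∀ i c, c + i = j → Module.Finite ℂ ↥(K ⊓ W c) ∧
      finrank ℂ ↥(K ⊓ W c) = ∑ a ∈ Finset.Ico c j, grd W K a := by
    intro i
    induction i with
    | zero =>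
      rintro c rfl
      rw [add_zero] at hj
      rw [hj, inf_bot_eq]
      exact ⟨inferInstance, by simp⟩
    | succ i ih =>
      intro c e
      obtain ⟨f, g⟩ := ih (c + 1) (by omega)
      have := hf c (by omega)
      obtain ⟨f', g'⟩ := gr_step h K c
      exact ⟨f', by rw [g', g, Finset.sum_eq_sum_Ico_succ_bot (by omega : c < j)]⟩
  have := key j 0 (zero_add j)
  rwa [h0, inf_top_eq, ← Finset.range_eq_Ico] at this

theorem Bc.δ_mem_Z {B : Bc T} {c n : ℕ} {y : T} (h : y ∈ (B.col c).Z n) :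
    B.δ y ∈ (B.col (c + 1)).Z n := by
  refine ⟨⟨?_, B.δU y h.1.2⟩, ?_⟩
  · have h1 := h.1.1
    rw [rowZ_nat] at h1 ⊢
    exact BG.δ_mem_H h1
  · change B.d (B.δ y) ∈ B.N
    rw [B.dδ]
    exact B.N.neg_mem (B.δN _ h.2)

/-- An algebraic model of the first page in the rows `≤ 2 n`. -/
structure Mdl (B : Bc T) (Φ : Type) [AddCommGroup Φ] [Module ℂ Φ] (n : ℕ) where
  b : Module.End ℂ Φ
  C : ℕ → Submodule ℂ Φ
  R : ℕ → Submodule ℂ Φ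
  ev : ℕ → ℕ → Submodule ℂ (Φ × T)
  bC : ∀ p, ∀ φ ∈ C p, b φ ∈ C p
  b0 : ∀ φ, b φ ∈ R 0
  ex : ∀ c p, ∀ φ ∈ C p, ∃ y ∈ (B.col c).Z (2 * p : ℕ), (φ, y) ∈ ev c p
  su : ∀ c p, ∀ y ∈ (B.col c).Z (2 * p : ℕ), ∃ φ ∈ C p, (φ, y) ∈ ev c p
  ker : ∀ c, ∀ p ≤ n, ∀ φ ∈ C p, ∀ y ∈ (B.col c).Z (2 * p : ℕ), (φ, y) ∈ ev c p →
    (y ∈ (B.col c).B (2 * p : ℕ) ↔ φ ∈ R c)
  nul : ∀ c p, ∀ y ∈ (B.col c).Z (2 * p : ℕ), y ∈ (B.col c).B (2 * p : ℕ) → (0, y) ∈ ev c p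
  evb : ∀ c p, ∀ φ ∈ C p, ∀ y ∈ (B.col c).Z (2 * p : ℕ), (φ, y) ∈ ev c p →
    (b φ, B.δ y) ∈ ev (c + 1) p
  odd : ∀ c p, (B.col c).Ac (2 * p + 1 : ℕ)
  e2a : B.E2a
  e2b : B.E2b

namespace Mdl
variable {B : Bc T} {B' : Bc T'} {n n' : ℕ} (M : Mdl B Φ n) (M' : Mdl B' Φ' n')

/-- cocycles of the model -/
def Z (c p : ℕ) : Submodule ℂ Φ := M.C p ⊓ (M.R (c + 1)).comap M.b

/-- coboundaries and relations of the model -/
def Bd (c p : ℕ) : Submodule ℂ Φ := (M.C p).map M.b ⊔ M.R c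

/-- `φ` is the leading term of the cocycle `x` -/
structure Lead (c p : ℕ) (φ : Φ) (x : T) : Prop where
  z : x ∈ (B.fil c).Z (c + (2 * p : ℕ))
  m : φ ∈ M.C p
  e : (φ, B.e c (2 * p) x) ∈ M.ev c p

variable {M M'} {c p : ℕ} {φ ψ : Φ} {x y : T}

theorem Lead.add (h : M.Lead c p φ x) (h' : M.Lead c p ψ y) : M.Lead c p (φ + ψ) (x + y) :=
  ⟨add_mem h.z h'.z, add_mem h.m h'.m, by simpa using add_mem h.e h'.e⟩

theorem Lead.smul (a : ℂ) (h : M.Lead c p φ x) : M.Lead c p (a • φ) (a • x) :=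
  ⟨Submodule.smul_mem _ a h.z, Submodule.smul_mem _ a h.m, by
    simpa using Submodule.smul_mem _ a h.e⟩

theorem Lead.zero : M.Lead c p 0 0 := ⟨zero_mem _, zero_mem _, by rw [map_zero]; exact zero_mem _⟩

theorem Lead.sub (h : M.Lead c p φ x) (h' : M.Lead c p ψ y) : M.Lead c p (φ - ψ) (x - y) :=
  ⟨sub_mem h.z h'.z, sub_mem h.m h'.m, by simpa using sub_mem h.e h'.e⟩

theorem Lead.sum {κ : Type} (s : Finset κ) {φ : κ → Φ} {x : κ → T}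
    (h : ∀ k ∈ s, M.Lead c p (φ k) (x k)) : M.Lead c p (∑ k ∈ s, φ k) (∑ k ∈ s, x k) :=
  by
  classical
  induction s using Finset.induction_on with
  | empty => simpa using Lead.zero
  | insert a s ha ih =>
    rw [Finset.sum_insert ha, Finset.sum_insert ha]
    exact (h a (by simp)).add (ih fun k hk => h k (by simp [hk]))

theorem Lead.cx (h : M.Lead c p φ x) : x ∈ B.cx.Z (c + (2 * p : ℕ)) := ⟨h.z.1.1, h.z.2⟩

theorem exists_lead (hx : x ∈ (B.fil c).Z (c + (2 * p : ℕ))) : ∃ φ, M.Lead c p φ x := by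
  obtain ⟨φ, h1, h2⟩ := M.su c p _ (Bc.lead_Z hx).1
  exact ⟨φ, hx, h1, h2⟩

theorem Lead.mem_Z (h : M.Lead c p φ x) (hp : p ≤ n) : φ ∈ M.Z c p :=
  have h1 := Bc.lead_Z h.z
  ⟨h.m, (M.ker _ p hp _ (M.bC p φ h.m) _ (Bc.δ_mem_Z h1.1) (M.evb c p φ h.m _ h1.1 h.e)).1 h1.2⟩

theorem exists_lift (hp : p ≤ n) (h : φ ∈ M.Z c p) : ∃ x, M.Lead c p φ x := by
  obtain ⟨y, h1, h2⟩ := M.ex c p φ h.1
  obtain ⟨x, h3, h4⟩ := M.e2a c (2 * p) y h1 ((M.ker _ p hp _ (M.bC p φ h.1) _ (Bc.δ_mem_Z h1)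
    (M.evb c p φ h.1 _ h1 h2)).2 h.2)
  exact ⟨x, h3, h.1, by simpa using add_mem h2 (M.nul c p _ (sub_mem (Bc.lead_Z h3).1 h1) h4)⟩

theorem Lead.bd_iff (h : M.Lead c p φ x) (hp : p ≤ n) :
    (∃ y ∈ (B.fil (c + 1)).Z (c + (2 * p : ℕ)), x - y ∈ B.cx.B (c + (2 * p : ℕ))) ↔
      φ ∈ M.Bd c p := by
  have h1 := (Bc.lead_Z h.z).1
  have key : ∀ c', c = c' + 1 → ∀ ψ ∈ M.C p, ∀ u ∈ (B.col c').Z (2 * p : ℕ),
      (ψ, u) ∈ M.ev c' p → (B.e c (2 * p) x - B.δ u ∈ (B.col c).B (2 * p : ℕ) ↔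
        φ - M.b ψ ∈ M.R c) := by
    rintro c' rfl ψ hψ u hu e
    exact M.ker _ p hp _ (sub_mem h.m (M.bC p ψ hψ)) _ (sub_mem h1 (Bc.δ_mem_Z hu))
      (by simpa using sub_mem h.e (M.evb c' p ψ hψ u hu e))
  constructor
  · rintro ⟨y, hy, e⟩
    obtain ⟨u, hu, h2⟩ := M.e2b c (2 * p) x h.z
      (Submodule.mem_sup.2 ⟨_, e, y, hy.1.2, sub_add_cancel _ _⟩)
    cases c with
    | zero =>
      rw [(Submodule.mem_bot ℂ).1 hu, map_zero, sub_zero] at h2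
      exact Submodule.mem_sup_right ((M.ker _ p hp _ h.m _ h1 h.e).1 h2)
    | succ c =>
      obtain ⟨ψ, h3, h4⟩ := M.su c p u hu
      exact Submodule.mem_sup.2 ⟨_, ⟨ψ, h3, rfl⟩, _, (key c rfl ψ h3 u hu h4).1 h2,
        add_sub_cancel _ _⟩
  · intro e
    obtain ⟨_, ⟨ψ, hψ, rfl⟩, ρ, hρ, rfl⟩ := Submodule.mem_sup.1 e
    cases c with
    | zero =>
      refine Bc.lead_B h.z (zero_mem _) ?_
      rw [map_zero, sub_zero]
      exact (M.ker _ p hp _ h.m _ h1 h.e).2 (add_mem (M.b0 ψ) hρ)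
    | succ c =>
      obtain ⟨u, h3, h4⟩ := M.ex c p ψ hψ
      exact Bc.lead_B h.z (u := u) h3 ((key c rfl ψ hψ u h3 h4).2 (by simpa using hρ))

theorem Lead.bd_of_B (h : M.Lead c p φ x) (hp : p ≤ n) (e : x ∈ B.cx.B (c + (2 * p : ℕ))) :
    φ ∈ M.Bd c p := (h.bd_iff hp).1 ⟨0, zero_mem _, by simpa using e⟩

theorem Lead.mem_W_iff {j : ℤ} (e : j = c + (2 * p : ℕ)) {x : B.cx.Z j} (h : M.Lead c p φ x.1)
    (hp : p ≤ n) : B.cx.cls j x ∈ B.W j (c + 1) ↔ φ ∈ M.Bd c p := by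
  subst e
  rw [Bc.mem_W, h.bd_iff hp]

theorem exists_lead_W {j : ℤ} (e : j = c + (2 * p : ℕ)) {a : B.cx.H j} (h : a ∈ B.W j c) :
    ∃ (x : B.cx.Z j) (φ : Φ), B.cx.cls j x = a ∧ M.Lead c p φ x.1 := by
  subst e
  obtain ⟨x, hx, rfl⟩ := h
  obtain ⟨φ, h⟩ := M.exists_lead (x := x.1) ⟨⟨x.2.1, hx⟩, x.2.2⟩
  exact ⟨x, φ, rfl, h⟩

theorem Lead.mem_W {j : ℤ} {x : B.cx.Z j} (h : M.Lead c p φ x.1) : B.cx.cls j x ∈ B.W j c :=
  ⟨x, h.z.1.2, rfl⟩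

include M in
theorem W_odd {j : ℤ} (e : j = c + (2 * p + 1 : ℕ)) : B.W j c ≤ B.W j (c + 1) := by
  subst e
  rintro _ ⟨x, hx, rfl⟩
  have h : x.1 ∈ (B.fil c).Z (c + (2 * p + 1 : ℕ)) := ⟨⟨x.2.1, hx⟩, x.2.2⟩
  refine Bc.mem_W.2 (Bc.lead_B h (zero_mem _) ?_)
  rw [map_zero, sub_zero]
  exact M.odd c p (Bc.lead_Z h).1

/-- leading terms along a map of double complexes -/
theorem Lead.map {f : T →ₗ[ℂ] T'} {q p' : ℕ} (hf : B.Mor B' f (2 * q : ℕ)) (e : p + q = p')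
    {φ' : Φ'} (h : M.Lead c p φ x) (hc : φ' ∈ M'.C p')
    (he : (φ', f (B.e c (2 * p) x)) ∈ M'.ev c p') : M'.Lead c p' φ' (f x) := by
  subst e
  refine ⟨?_, hc, ?_⟩
  · have := (hf.fil c).mem_Z h.z
    rwa [show (c : ℤ) + (2 * p : ℕ) + (2 * q : ℕ) = c + (2 * (p + q) : ℕ) by push_cast; ring] at this
  · rwa [← hf.e h.cx.1 c (n := 2 * p) (n' := 2 * (p + q)) (by push_cast; ring)]

variable (M) in
/-- the leading term as a relation on cohomology -/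
def LH (j : ℤ) (c p : ℕ) : Submodule ℂ (B.cx.H j × Φ) where
  carrier := {z | ∃ x : B.cx.Z j, B.cx.cls j x = z.1 ∧ M.Lead c p z.2 x.1}
  add_mem' := by
    rintro _ _ ⟨x, h1, h2⟩ ⟨y, h3, h4⟩
    exact ⟨x + y, by rw [map_add, h1, h3]; rfl, h2.add h4⟩
  zero_mem' := ⟨0, map_zero _, Lead.zero⟩
  smul_mem' := by
    rintro a _ ⟨x, h1, h2⟩
    exact ⟨a • x, by rw [map_smul, h1]; rfl, h2.smul a⟩

theorem gr_le {j : ℤ} (e : j = c + (2 * p : ℕ)) (hp : p ≤ n) (K : Submodule ℂ (B.cx.H j))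
    (Q : Submodule ℂ Φ) [Module.Finite ℂ (Q.map (M.Bd c p).mkQ)]
    (h : ∀ (x : B.cx.Z j) φ, M.Lead c p φ x.1 → B.cx.cls j x ∈ K → φ ∈ Q) :
    Module.Finite ℂ ((K ⊓ B.W j c).map (B.W j (c + 1)).mkQ) ∧
      grd (B.W j) K c ≤ finrank ℂ (Q.map (M.Bd c p).mkQ) := by
  refine rel_le (M.LH j c p) (fun a ha => ?_) ?_
  · obtain ⟨x, φ, rfl, h1⟩ := M.exists_lead_W e ha.2
    exact ⟨φ, h x φ h1 ha.1, x, rfl, h1⟩
  · rintro _ φ ⟨x, rfl, h1⟩ h2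
    exact (h1.mem_W_iff e hp).2 h2

theorem le_gr {j : ℤ} (e : j = c + (2 * p : ℕ)) (hp : p ≤ n)
    [Module.Finite ℂ ((⊤ ⊓ B.W j c).map (B.W j (c + 1)).mkQ)] :
    finrank ℂ ((M.Z c p).map (M.Bd c p).mkQ) ≤ grd (B.W j) ⊤ c := by
  refine (rel_le ((M.LH j c p).comap (LinearEquiv.prodComm ℂ _ _).toLinearMap)
    (fun φ hφ => ?_) ?_).2
  · obtain ⟨x, h⟩ := M.exists_lift hp hφ
    exact ⟨B.cx.cls j ⟨x, e ▸ h.cx⟩, ⟨trivial, Lead.mem_W (x := ⟨x, e ▸ h.cx⟩) h⟩, _, rfl, h⟩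
  · rintro φ _ ⟨x, rfl, h1⟩ h2
    exact (h1.mem_W_iff e hp).1 h2

include M in
theorem gr_odd {j : ℤ} (e : j = c + (2 * p + 1 : ℕ)) (K : Submodule ℂ (B.cx.H j)) :
    (K ⊓ B.W j c).map (B.W j (c + 1)).mkQ = ⊥ := by
  rw [eq_bot_iff]
  rintro _ ⟨a, ha, rfl⟩
  exact (Submodule.Quotient.mk_eq_zero _).2 (M.W_odd e ha.2)

end Mdl

/-- the value of `a` on the diagonal `c + 2 p = j` -/
def par (a : ℕ → ℕ → ℕ) (j c : ℕ) : ℕ := if (j - c) % 2 = 0 then a c ((j - c) / 2) else 0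

namespace Mdl
variable {B : Bc T} {n : ℕ} (M : Mdl B Φ n) {j : ℕ}

theorem gr_le_par (hj : j ≤ n) (K : Submodule ℂ (B.cx.H j)) (Q : ℕ → ℕ → Submodule ℂ Φ)
    (hQ : ∀ c p, Module.Finite ℂ ((Q c p).map (M.Bd c p).mkQ))
    (h : ∀ c p, j = c + 2 * p → ∀ (x : B.cx.Z j) φ, M.Lead c p φ x.1 → B.cx.cls j x ∈ K → φ ∈ Q c p)
    {c : ℕ} (hc : c ≤ j) : Module.Finite ℂ ((K ⊓ B.W j c).map (B.W j (c + 1)).mkQ) ∧
      grd (B.W j) K c ≤ par (fun c p => finrank ℂ ((Q c p).map (M.Bd c p).mkQ)) j c := by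
  unfold par
  split_ifs with e
  · have := hQ c ((j - c) / 2)
    exact gr_le (by omega) (by omega) K _ (h c _ (by omega))
  · rw [grd, M.gr_odd (p := (j - c) / 2) (by omega)]
    exact ⟨inferInstance, by simp⟩

theorem finrank_le (hj : j ≤ n) (K : Submodule ℂ (B.cx.H j)) (Q : ℕ → ℕ → Submodule ℂ Φ)
    (hQ : ∀ c p, Module.Finite ℂ ((Q c p).map (M.Bd c p).mkQ))
    (h : ∀ c p, j = c + 2 * p → ∀ (x : B.cx.Z j) φ, M.Lead c p φ x.1 → B.cx.cls j x ∈ K →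
      φ ∈ Q c p) :
    Module.Finite ℂ K ∧ finrank ℂ K = ∑ c ∈ Finset.range (j + 1), grd (B.W j) K c :=
  gr_sum (Bc.W_anti _) (Bc.W_zero _) (Bc.W_big (by omega)) K fun _ hc =>
    (M.gr_le_par hj K Q hQ h (by omega)).1

theorem finite_H (hj : j ≤ n) (hQ : ∀ c p, Module.Finite ℂ ((M.Z c p).map (M.Bd c p).mkQ)) :
    Module.Finite ℂ (B.cx.H j) ∧ ∑ c ∈ Finset.range (j + 1),
      par (fun c p => finrank ℂ ((M.Z c p).map (M.Bd c p).mkQ)) j c ≤ finrank ℂ (B.cx.H j) := by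
  have h : ∀ c p, j = c + 2 * p → ∀ (x : B.cx.Z j) φ, M.Lead c p φ x.1 → B.cx.cls j x ∈ (⊤ : Submodule ℂ _) →
      φ ∈ M.Z c p := fun c p e x φ h _ => h.mem_Z (by omega)
  obtain ⟨f, e⟩ := M.finrank_le hj ⊤ M.Z hQ h
  refine ⟨Module.Finite.equiv Submodule.topEquiv, ?_⟩
  rw [← finrank_top, e]
  refine Finset.sum_le_sum fun c hc => ?_
  have hc' : c ≤ j := by simpa [Nat.lt_succ_iff] using hc
  have := (M.gr_le_par hj ⊤ M.Z hQ h hc').1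
  unfold par
  split_ifs with e
  · exact le_gr (by omega) (by omega)
  · exact Nat.zero_le _

end Mdl

end Pool.Agent.CS
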