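import Pool.Agent.K.MP_d34769_ag.C73

/-! Operators on cochains of lists of words, and the spaces of the count. -/

open MvPolynomial

noncomputable section
namespace Pool.Agent.CS
open Pool.Agent.P.MP_d34769_ag

/-- `O` is an integer combination of evaluations at points that satisfy `F`. -/
structure NatOp {A : Type} (O : ∀ (M : Type) [AddCommGroup M], (A → M) → M) (F : A → Prop) :
    Prop where
  nat : ∀ {M N : Type} [AddCommGroup M] [AddCommGroup N] (f : M →+ N) (φ : A → M),
    f (O M φ) = O N fun a => f (φ a)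
  mem : ∀ {M : Type} [AddCommGroup M] (P : AddSubgroup M) (φ : A → M), (∀ a, F a → φ a ∈ P) →
    O M φ ∈ P

namespace NatOp
variable {A B M : Type} [AddCommGroup M] {O : ∀ (M : Type) [AddCommGroup M], (A → M) → M}
  {F : A → Prop} (h : NatOp O F)
include h

theorem add (φ ψ : A → M) : (O M fun a => φ a + ψ a) = O M φ + O M ψ := by
  have h1 := h.nat (AddMonoidHom.fst M M) fun a => (φ a, ψ a)
  have h2 := h.nat (AddMonoidHom.snd M M) fun a => (φ a, ψ a)
  have h3 := h.nat (AddMonoidHom.fst M M + AddMonoidHom.snd M M) fun a => (φ a, ψ a)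
  simp only [AddMonoidHom.add_apply, AddMonoidHom.coe_fst, AddMonoidHom.coe_snd] at h1 h2 h3
  rw [← h3, h1, h2]

theorem zero : (O M fun _ => 0) = 0 :=
  AddSubgroup.mem_bot.1 (h.mem ⊥ _ fun _ _ => rfl)

/-- the operator as an additive map -/
def hom (M : Type) [AddCommGroup M] : (A → M) →+ M where
  toFun := O M
  map_zero' := h.zero
  map_add' := h.add

theorem neg (φ : A → M) : (O M fun a => -φ a) = -O M φ := (h.hom M).map_neg φ

theorem sub (φ ψ : A → M) : (O M fun a => φ a - ψ a) = O M φ - O M ψ := (h.hom M).map_sub φ ψ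

theorem smul {R : Type} [Monoid R] [DistribMulAction R M] (c : R) (φ : A → M) :
    (O M fun a => c • φ a) = c • O M φ := (h.nat (DistribSMul.toAddMonoidHom M c) φ).symm

theorem sum {ι : Type} (s : Finset ι) (φ : ι → A → M) :
    (O M fun a => ∑ i ∈ s, φ i a) = ∑ i ∈ s, O M (φ i) := by
  have := map_sum (h.hom M) φ s
  rw [show (∑ i ∈ s, φ i) = fun a => ∑ i ∈ s, φ i a from funext fun a => Finset.sum_apply a s φ]
    at this
  exact this

theorem congr {φ ψ : A → M} (e : ∀ a, F a → φ a = ψ a) : O M φ = O M ψ := by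
  rw [← sub_eq_zero, ← h.sub]
  exact AddSubgroup.mem_bot.1 (h.mem ⊥ _ fun a ha => by simp [e a ha])

theorem eq_zero {φ : A → M} (e : ∀ a, F a → φ a = 0) : O M φ = 0 := (h.congr e).trans h.zero

theorem memS {S : Type} [SetLike S M] [AddSubgroupClass S M] (P : S) {φ : A → M}
    (e : ∀ a, F a → φ a ∈ P) : O M φ ∈ P :=
  h.mem (AddSubgroup.ofClass P) φ e

theorem mono {G : A → Prop} (e : ∀ a, F a → G a) : NatOp O G :=
  ⟨h.nat, fun P φ k => h.mem P φ fun a ha => k a (e a ha)⟩

theorem swap {O' : ∀ (M : Type) [AddCommGroup M], (B → M) → M} {G : B → Prop} (h' : NatOp O' G)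
    (φ : A → B → M) : (O M fun a => O' M (φ a)) = O' M fun b => O M fun a => φ a b := by
  rw [show (O M fun a => O' M (φ a)) = O' M (O (B → M) φ) from (h.nat (h'.hom M) φ).symm]
  congr 1
  funext b
  exact h.nat (Pi.evalAddMonoidHom (fun _ : B => M) b) φ

/-- a nonzero matrix entry sits at a point that satisfies `F` -/
theorem of_ne [DecidableEq A] {a : A} (e : (O ℤ fun b => if b = a then 1 else 0) ≠ 0) : F a := by
  by_contra k
  exact e (h.eq_zero fun b hb => if_neg fun c : b = a => k (c ▸ hb))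

/-- the operator is given by its integer matrix -/
theorem matrix [DecidableEq A] (s : Finset A) (hs : ∀ a, F a → a ∈ s) (φ : A → M) :
    O M φ = ∑ a ∈ s, (O ℤ fun b => if b = a then 1 else 0) • φ a := by
  rw [h.congr (ψ := fun b => ∑ a ∈ s, (if b = a then (1 : ℤ) else 0) • φ a) fun b hb => by
    simp [hs b hb], h.sum]
  exact Finset.sum_congr rfl fun a _ => (h.nat (zmultiplesHom M (φ a)) _).symm

end NatOp

section ops
variable {X Y M : Type} [AddCommGroup M]

/-- The coboundary on lists of words. -/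
def cobM [Union X] : List (List X) → (List (List X) → M) → M
  | [], _ => 0
  | u :: L, φ => cob u (fun w => φ (w :: L)) + (-1 : ℤ) ^ u.length • cobM L fun K => φ (u :: K)

/-- Shuffle the first two words. -/
def sM : List (List X) → (List (List X) → M) → M
  | u :: v :: L, φ => shuf u v fun w => φ (w :: L)
  | _, _ => 0

/-- Exchange the words `i` and `i + 1` (zero if the list is too short). -/
def tau : ℕ → List (List X) → (List (List X) → M) → M
  | 0, u :: v :: L, φ => (-1 : ℤ) ^ (u.length * v.length) • φ (v :: u :: L)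
  | i + 1, u :: L, φ => tau i L fun K => φ (u :: K)
  | _, _, _ => 0

/-- `w` is a face of `l` -/
def Fc [Union X] (l w : List X) : Prop :=
  ∃ s a b t, l = s ++ a :: b :: t ∧ w = s ++ (a ∪ b) :: t

/-- `K` is a face of `L` -/
def FcM [Union X] (L K : List (List X)) : Prop :=
  ∃ A u w B, L = A ++ u :: B ∧ K = A ++ w :: B ∧ Fc u w

/-- `w` is a shuffle of `u` and `v` (at least when `w` has no repetition) -/
def Sf (u v w : List X) : Prop := u.Sublist w ∧ v.Sublist w ∧ w.Perm (u ++ v)

/-- `K` is `L` with the first two words shuffled -/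
def SfM (L K : List (List X)) : Prop := ∃ u v w T, L = u :: v :: T ∧ K = w :: T ∧ Sf u v w

/-- `K` is `L` with the words `i`, `i + 1` exchanged -/
def Sw (i : ℕ) (L K : List (List X)) : Prop :=
  ∃ A u v B, A.length = i ∧ L = A ++ u :: v :: B ∧ K = A ++ v :: u :: B

theorem shuf_nil (v : List X) (φ : List X → M) : shuf [] v φ = φ v := rfl

theorem shuf_nil' (u : List X) : ∀ φ : List X → M, shuf u [] φ = φ u := by
  induction u with
  | nil => intro φ; rfl
  | cons a u ih => intro φ; simp [shuf, ih]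

theorem shuf_cons (a b : X) (u v : List X) (φ : List X → M) :
    shuf (a :: u) (b :: v) φ = shuf u (b :: v) (fun w => φ (a :: w)) +
      (-1 : ℤ) ^ (u.length + 1) • shuf (a :: u) v fun w => φ (b :: w) := by
  rw [shuf, List.length_cons, Finset.sum_range_succ', add_comm, shuf, Finset.smul_sum]
  congr 1
  · simp
  · refine Finset.sum_congr rfl fun j _ => ?_
    rw [smul_smul, ← pow_add, show u.length + 1 + j * (u.length + 1) = (j + 1) * (u.length + 1) by
      ring]
    rfl

theorem shuf_nat (u v : List X) : NatOp (fun _ _ φ => shuf u v φ) (Sf u v) := by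
  induction u generalizing v with
  | nil => exact ⟨fun _ _ => rfl, fun P φ h => h v ⟨by simp, by simp, by simp⟩⟩
  | cons a u ih =>
    induction v with
    | nil =>
      exact ⟨fun _ _ => by simp only [shuf_nil'],
        fun P φ h => by simpa only [shuf_nil'] using h _ ⟨by simp, by simp, by simp⟩⟩
    | cons b v iv =>
      refine ⟨fun f φ => by simp only [shuf_cons, map_add, map_zsmul, (ih _).nat, iv.nat],
        fun P φ h => ?_⟩
      simp only [shuf_cons]
      refine add_mem ((ih _).mem P _ fun w hw => h _ ⟨hw.1.cons_cons a, hw.2.1.cons a,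
        hw.2.2.cons a⟩) (zsmul_mem (iv.mem P _ fun w hw => h _ ⟨hw.1.cons b, hw.2.1.cons_cons b,
        (hw.2.2.cons b).trans List.perm_middle.symm⟩) _)

theorem cob_nat [Union X] (l : List X) : NatOp (fun _ _ φ => cob l φ) (Fc l) := by
  refine ⟨fun f φ => (cob_hom f l φ).symm, ?_⟩
  induction l with
  | nil => intro M _ P φ _; simp [cob_nil]
  | cons a l ih =>
    intro M _ P φ h
    simp only [cob_cons]
    refine sub_mem ?_ (ih P _ fun w ⟨s, c, e, t, h1, h2⟩ =>
      h _ ⟨a :: s, c, e, t, by simp [h1], by simp [h2]⟩)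
    cases l with
    | nil => exact zero_mem P
    | cons b l => exact h _ ⟨[], a, b, l, rfl, rfl⟩

theorem cobM_nat [Union X] (L : List (List X)) : NatOp (fun _ _ φ => cobM L φ) (FcM L) := by
  induction L with
  | nil => exact ⟨fun f _ => map_zero f, fun P _ _ => zero_mem P⟩
  | cons u L ih =>
    refine ⟨fun f φ => by simp only [cobM, map_add, map_zsmul, (cob_nat u).nat, ih.nat],
      fun P φ h => add_mem ((cob_nat u).mem P _ fun w hw => h _ ⟨[], u, w, L, rfl, rfl, hw⟩)
        (zsmul_mem (ih.mem P _ fun K ⟨A, v, w, B, h1, h2, h3⟩ =>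
          h _ ⟨u :: A, v, w, B, by simp [h1], by simp [h2], h3⟩) _)⟩

theorem sM_nat (L : List (List X)) : NatOp (fun _ _ φ => sM L φ) (SfM L) := by
  match L with
  | [] => exact ⟨fun f _ => map_zero f, fun P _ _ => zero_mem P⟩
  | [_] => exact ⟨fun f _ => map_zero f, fun P _ _ => zero_mem P⟩
  | u :: v :: L =>
    exact ⟨fun f φ => (shuf_nat u v).nat f _,
      fun P φ h => (shuf_nat u v).mem P _ fun w hw => h _ ⟨u, v, w, L, rfl, rfl, hw⟩⟩

theorem tau_nat (i : ℕ) (L : List (List X)) : NatOp (fun _ _ φ => tau i L φ) (Sw i L) := by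
  induction i generalizing L with
  | zero =>
    match L with
    | [] => exact ⟨fun f _ => map_zero f, fun P _ _ => zero_mem P⟩
    | [_] => exact ⟨fun f _ => map_zero f, fun P _ _ => zero_mem P⟩
    | u :: v :: L =>
      exact ⟨fun f φ => map_zsmul f _ _, fun P φ h => zsmul_mem (h _ ⟨[], u, v, L, rfl, rfl, rfl⟩) _⟩
  | succ i ih =>
    match L with
    | [] => exact ⟨fun f _ => map_zero f, fun P _ _ => zero_mem P⟩
    | u :: L =>
      exact ⟨fun f φ => (ih L).nat f _, fun P φ h => (ih L).mem P _ fun K ⟨A, a, b, B, h1, h2, h3⟩ =>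
        h _ ⟨u :: A, a, b, B, by simp [h1], by simp [h2], by simp [h3]⟩⟩

theorem shuf_map (f : X → Y) (u v : List X) : ∀ φ : List Y → M,
    shuf (u.map f) (v.map f) φ = shuf u v fun w => φ (w.map f) := by
  induction u generalizing v with
  | nil => intro φ; rfl
  | cons a u ih =>
    induction v with
    | nil => intro φ; simp only [List.map_nil, shuf_nil']
    | cons b v iv =>
      intro φ
      have h1 := ih (b :: v)
      simp only [List.map_cons] at h1 iv
      simp only [List.map_cons, shuf_cons, h1, iv, List.length_map]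

theorem cob_map [Union X] [Union Y] (f : X → Y) (hf : ∀ a b, f (a ∪ b) = f a ∪ f b) (l : List X) :
    ∀ φ : List Y → M, cob (l.map f) φ = cob l fun w => φ (w.map f) := by
  induction l with
  | nil => intro φ; rfl
  | cons a l ih =>
    intro φ
    rw [List.map_cons, cob_cons, cob_cons, ih]
    cases l <;> simp [mrg, hf]

theorem cobM_map [Union X] [Union Y] (f : X → Y) (hf : ∀ a b, f (a ∪ b) = f a ∪ f b)
    (L : List (List X)) : ∀ φ : List (List Y) → M,
    cobM (L.map (List.map f)) φ = cobM L fun K => φ (K.map (List.map f)) := by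
  induction L with
  | nil => intro φ; rfl
  | cons u L ih => intro φ; simp only [List.map_cons, cobM, cob_map f hf, ih, List.length_map]

theorem sM_map (f : X → Y) (L : List (List X)) (φ : List (List Y) → M) :
    sM (L.map (List.map f)) φ = sM L fun K => φ (K.map (List.map f)) := by
  match L with
  | [] => rfl
  | [_] => rfl
  | u :: v :: L => exact shuf_map f u v _

theorem tau_map (f : X → Y) (i : ℕ) (L : List (List X)) : ∀ φ : List (List Y) → M,
    tau i (L.map (List.map f)) φ = tau i L fun K => φ (K.map (List.map f)) := by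
  induction i generalizing L with
  | zero =>
    intro φ
    match L with
    | [] => rfl
    | [_] => rfl
    | u :: v :: L => simp only [List.map_cons, tau, List.length_map]
  | succ i ih =>
    intro φ
    match L with
    | [] => rfl
    | u :: L => exact ih L _

theorem cobM_one [Union X] (u : List X) (φ : List (List X) → M) :
    cobM [u] φ = cob u fun w => φ [w] := by simp [cobM]

end ops

/-- cochains on lists of words of sets of indices -/
abbrev MC (I : Type) := List (List (Finset I)) → MvPolynomial I ℂ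

/-- a natural operator as a linear map on cochains -/
def lin {A B M : Type} [AddCommGroup M] [Module ℂ M]
    {O : B → ∀ (M : Type) [AddCommGroup M], (A → M) → M} {F : B → A → Prop}
    (h : ∀ b, NatOp (O b) (F b)) : (A → M) →ₗ[ℂ] (B → M) where
  toFun φ b := O b M φ
  map_add' φ ψ := funext fun b => (h b).add φ ψ
  map_smul' c φ := funext fun b => (h b).smul c φ

section spaces
variable {I : Type} [Fintype I] [DecidableEq I] (col : I → Fin 3) (θ : (Fin 3 → ℕ) → ℝ) (o : I → ℕ)

/-- the coboundary -/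
def dL : MC I →ₗ[ℂ] MC I := lin cobM_nat
/-- the shuffle operator -/
def sL : MC I →ₗ[ℂ] MC I := lin sM_nat
/-- the transpositions -/
def tL (i : ℕ) : MC I →ₗ[ℂ] MC I := lin (tau_nat i)

omit [Fintype I] in
@[simp] theorem dL_apply (φ : MC I) (L) : dL φ L = cobM L φ := rfl
omit [Fintype I] [DecidableEq I] in
@[simp] theorem sL_apply (φ : MC I) (L) : sL φ L = sM L φ := rfl
omit [Fintype I] [DecidableEq I] in
@[simp] theorem tL_apply (i : ℕ) (φ : MC I) (L) : tL i φ L = tau i L φ := rfl

/-- `k` nonempty words with `ℓ` letters in all, which partition the indices -/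
structure Cm (k ℓ : ℕ) (L : List (List (Finset I))) : Prop where
  len : L.length = k
  ne : ∀ u ∈ L, u ≠ []
  cmp : Cmp col θ L.flatten
  tot : L.flatten.length = ℓ

/-- the ideal of relations of `l` -/
def RelI (l : List (Finset I)) : Ideal (MvPolynomial I ℂ) :=
  Submodule.comap (LinearMap.mulLeft (MvPolynomial I ℂ) (l.map (dis col o)).prod)
    (Ideal.span {e | ∃ b ∈ l, ∃ F ⊆ b, 0 < θ (dvec col F) ∧ e = eul col b F})

omit [Fintype I] in
theorem mem_RelI {l : List (Finset I)} {f : MvPolynomial I ℂ} :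
    f ∈ RelI col θ o l ↔ Rel col θ o l f := Iff.rfl

/-- homogeneous equivariant cochains -/
def Cc (p : ℕ) : Submodule ℂ (MC I) where
  carrier := {φ | (∀ L, (φ L).IsHomogeneous p) ∧ ∀ w : Equiv.Perm I, (∀ i, col (w i) = col i) →
    ∀ L : List (List (Finset I)), φ (L.map (List.map fun b => b.image w)) = rename w (φ L)}
  add_mem' ha hb := ⟨fun L => (ha.1 L).add (hb.1 L), fun w hw L => by
    simp only [Pi.add_apply, ha.2 w hw, hb.2 w hw, map_add]⟩
  zero_mem' := ⟨fun _ => isHomogeneous_zero _ _ _, fun _ _ _ => by simp⟩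
  smul_mem' c _ ha := ⟨fun L => (homogeneousSubmodule I ℂ p).smul_mem c (ha.1 L), fun w hw L => by
    simp only [Pi.smul_apply, ha.2 w hw, map_smul]⟩

/-- cochains whose values are relations -/
def NlW (k ℓ : ℕ) : Submodule ℂ (MC I) where
  carrier := {φ | ∀ L, Cm col θ k ℓ L → Rel col θ o L.flatten (φ L)}
  add_mem' ha hb L h := (RelI col θ o _).add_mem (ha L h) (hb L h)
  zero_mem' _ _ := (RelI col θ o _).zero_mem
  smul_mem' c _ ha L h := (RelI col θ o _).smul_of_tower_mem c (ha L h)

/-- cocycles -/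
def Zk (k ℓ p : ℕ) : Submodule ℂ (MC I) := Cc col p ⊓ (NlW col θ o k (ℓ + 1)).comap dL

/-- coboundaries and null cochains -/
def Bk (k ℓ p : ℕ) : Submodule ℂ (MC I) := (Cc col p).map dL ⊔ NlW col θ o k ℓ

/-- symmetric primitive cocycles -/
def Kk (k ℓ p : ℕ) : Submodule ℂ (MC I) :=
  Zk col θ o k ℓ p ⊓ (Bk col θ o (k + 1) ℓ p).comap sL ⊓
    ⨅ i, ⨅ _ : i + 1 < k, (Bk col θ o k ℓ p).comap (tL i - LinearMap.id)

/-- the dimension of the symmetric primitive classes -/
def ak (k ℓ p : ℕ) : ℕ := Module.finrank ℂ ((Kk col θ o k ℓ p).map (Bk col θ o k ℓ p).mkQ)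

/-- the dimension of the cohomology of the cobar complex -/
def xt (ℓ p : ℕ) : ℕ := Module.finrank ℂ ((Zk col θ o 1 ℓ p).map (Bk col θ o 1 ℓ p).mkQ)

/-- the sum of the variables -/
def yS (I : Type) [Fintype I] : MvPolynomial I ℂ := ∑ i, X i

/-- the translation derivation -/
def dS (I : Type) [Fintype I] : Derivation ℂ (MvPolynomial I ℂ) (MvPolynomial I ℂ) :=
  ∑ i, pderiv i

theorem mem_Zk {k ℓ p : ℕ} {φ : MC I} : φ ∈ Zk col θ o k ℓ p ↔ φ ∈ Cc col p ∧
    ∀ L, Cm col θ k (ℓ + 1) L → Rel col θ o L.flatten (cobM L φ) := Iff.rfl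

theorem mem_Bk {k ℓ p : ℕ} {φ : MC I} : φ ∈ Bk col θ o k ℓ p ↔ ∃ ψ ∈ Cc col p,
    ∀ L, Cm col θ k ℓ L → Rel col θ o L.flatten (φ L - cobM L ψ) := by
  rw [Bk, Submodule.mem_sup]
  constructor
  · rintro ⟨_, ⟨ψ, h, rfl⟩, z, hz, rfl⟩
    exact ⟨ψ, h, fun L k => by simpa using hz L k⟩
  · rintro ⟨ψ, h, k⟩
    exact ⟨dL ψ, ⟨ψ, h, rfl⟩, φ - dL ψ, k, by simp⟩

theorem mem_Kk {k ℓ p : ℕ} {φ : MC I} : φ ∈ Kk col θ o k ℓ p ↔ φ ∈ Zk col θ o k ℓ p ∧
    sL φ ∈ Bk col θ o (k + 1) ℓ p ∧ ∀ i, i + 1 < k → tL i φ - φ ∈ Bk col θ o k ℓ p := by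
  simp [Kk, and_assoc]

end spaces

end Pool.Agent.CS
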