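import Pool.Agent.K.MP_d34769_ag.C76

/-! Operators on chains of lists of words. -/

noncomputable section
namespace Pool.Agent.CS.HA
open Pool.Agent.P.MP_d34769_ag Module

variable {X : Type}

/-- operators on chains of lists of words -/
abbrev Op (X : Type) := End ℂ (List (List X) →₀ ℂ)

theorem _root_.Pool.Agent.CS.NatOp.app {A V M : Type} [AddCommGroup V] [Module ℂ V]
    [AddCommGroup M] [Module ℂ M] {O : ∀ (M : Type) [AddCommGroup M], (A → M) → M} {F : A → Prop}
    (h : NatOp O F) (φ : A → V →ₗ[ℂ] M) (x : V) : O _ φ x = O M fun a => φ a x :=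
  h.lin (LinearMap.applyₗ x) φ

/-- put a fixed list behind a word -/
def tl (L : List (List X)) : (List X →₀ ℂ) →ₗ[ℂ] (List (List X) →₀ ℂ) := lc ℂ fun w => bs ℂ (w :: L)

/-- a function on nonempty lists, extended by zero -/
def ne0 {A M : Type} [Zero M] (F : A → List A → M) : List A → M
  | [] => 0
  | u :: L => F u L

/-- act on the first word -/
def hd (T : End ℂ (List X →₀ ℂ)) : Op X := lc ℂ (ne0 fun u L => tl L (T (bs ℂ u)))

theorem tl_bs (L : List (List X)) (w : List X) : tl L (bs ℂ w) = bs ℂ (w :: L) := lc_bs _ _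
theorem hd_nil (T : End ℂ (List X →₀ ℂ)) : hd T (bs ℂ []) = 0 := lc_bs _ _
theorem hd_bs (T : End ℂ (List X →₀ ℂ)) (u : List X) (L : List (List X)) :
    hd T (bs ℂ (u :: L)) = tl L (T (bs ℂ u)) := lc_bs _ _

theorem hd_tl (T : End ℂ (List X →₀ ℂ)) (L : List (List X)) (x : List X →₀ ℂ) :
    hd T (tl L x) = tl L (T x) := eq_bs (hd T ∘ₗ tl L) (tl L ∘ₗ T) (fun u => by simp [tl_bs, hd_bs]) x

/-- act on the words after the first -/
def lf0 (O : Op X) : Op X := lc ℂ (ne0 fun u L => pre ℂ u (O (bs ℂ L)))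

theorem lf0_nil (O : Op X) : lf0 O (bs ℂ []) = 0 := lc_bs _ _

theorem lf0_pre (O : Op X) (u : List X) (y : List (List X) →₀ ℂ) :
    lf0 O (pre ℂ u y) = pre ℂ u (O y) :=
  eq_bs (lf0 O ∘ₗ pre ℂ u) (pre ℂ u ∘ₗ O) (fun L => by simp [pre_bs, lf0, ne0]) y

theorem op_ext {M : Type} [AddCommGroup M] [Module ℂ M] {f g : (List (List X) →₀ ℂ) →ₗ[ℂ] M}
    (h0 : f (bs ℂ []) = g (bs ℂ [])) (h : ∀ u L, f (bs ℂ (u :: L)) = g (bs ℂ (u :: L))) : f = g :=
  hom_bs fun L => by cases L; exacts [h0, h _ _]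

/-- act on the words after the first -/
def lf : Op X →ₙ+* Op X where
  toFun := lf0
  map_zero' := op_ext (lf0_nil _) fun u L => by simp [← pre_bs, lf0_pre]
  map_add' a b := op_ext (by simp [lf0_nil]) fun u L => by simp [← pre_bs, lf0_pre]
  map_mul' a b := op_ext (by simp [lf0_nil]) fun u L => by simp [← pre_bs, lf0_pre]

theorem lf_nil (O : Op X) : lf O (bs ℂ []) = 0 := lf0_nil O
theorem lf_pre (O : Op X) (u : List X) (y : List (List X) →₀ ℂ) :
    lf O (pre ℂ u y) = pre ℂ u (O y) := lf0_pre O u y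
theorem lf_bs (O : Op X) (u : List X) (L : List (List X)) :
    lf O (bs ℂ (u :: L)) = pre ℂ u (O (bs ℂ L)) := by rw [← pre_bs, lf_pre]

theorem lf_iter (i : ℕ) : ∀ L : List (List X), i ≤ L.length → lf^[i] 1 (bs ℂ L) = bs ℂ L := by
  induction i with
  | zero => intro _ _; rfl
  | succ i ih =>
    rintro (_ | ⟨u, L⟩) h
    · simp at h
    · rw [Function.iterate_succ_apply', lf_bs, ih L (by simpa using h), pre_bs]

/-- the boundary -/
def dC [Union X] : Op X := lc ℂ fun L => cobM L (bs ℂ)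
/-- shuffle the first two words -/
def sC : Op X := lc ℂ fun L => sM L (bs ℂ)
/-- exchange two words -/
def tC (i : ℕ) : Op X := lc ℂ fun L => tau i L (bs ℂ)
/-- cut the first word into `k` words -/
def cC (k : ℕ) : Op X := lc ℂ (ne0 fun u L => decs k u fun K => bs ℂ (K ++ L))
/-- shuffle all words -/
def aC : Op X := lc ℂ fun L => shufs L fun w => bs ℂ [w]
/-- relabel the letters -/
def mC (f : X → X) : Op X := lc ℂ fun L => bs ℂ (L.map (List.map f))
/-- the idempotent in the first `k` words -/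
def eC : ℕ → Op X
  | 0 => 1
  | k + 1 => hd ee * lf (eC k)
/-- move a word to the front -/
def rC : ℕ → Op X
  | 0 => 0
  | k + 1 => 1 + tC 0 * lf (rC k)
/-- the sum over all orders -/
def yC : ℕ → Op X
  | 0 => 1
  | k + 1 => lf (yC k) * rC (k + 1)

theorem lf_tC (i : ℕ) : lf (tC i) = (tC (i + 1) : Op X) :=
  op_ext (by simp [lf_nil, tC, tau]) fun u L => by
    simp [lf_bs, tC, tau, (tau_nat _ _).lin, pre_bs]

theorem tC_iter (i : ℕ) : lf^[i] (tC 0) = (tC i : Op X) := by
  induction i with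
  | zero => rfl
  | succ i ih => rw [Function.iterate_succ_apply', ih, lf_tC]

theorem lf_hd (T : End ℂ (List X →₀ ℂ)) (h : ∀ u, T (bs ℂ u) ∈ spn fun w => w.Perm u) :
    lf (hd T) = tC 0 * hd T * tC 0 := by
  refine op_ext (by simp [lf_nil, tC, tau]) fun u L => ?_
  cases L with
  | nil => simp [lf_bs, hd_nil, tC, tau]
  | cons v L =>
    have := spn_eq (tC 0 ∘ₗ tl (u :: L)) ((-1 : ℤ) ^ (u.length * v.length) • pre ℂ u ∘ₗ tl L)
      (fun w hw => by simp [tl_bs, tC, tau, pre_bs, hw.length_eq, mul_comm]) (h v)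
    simp only [LinearMap.comp_apply, LinearMap.smul_apply] at this
    rw [End.mul_apply, End.mul_apply, lf_bs, hd_bs, show tC 0 (bs ℂ (u :: v :: L)) =
      (-1 : ℤ) ^ (u.length * v.length) • bs ℂ (v :: u :: L) from lc_bs _ _, map_zsmul, map_zsmul,
      hd_bs, this, smul_smul, ← mul_pow]
    simp

theorem hd_psi {u : List X} (h : u ≠ []) (L : List (List X)) :
    (hd psi - (2 : ℂ) • 1) (bs ℂ (u :: L)) = (sC * cC 2 : Op X) (bs ℂ (u :: L)) := by
  rw [LinearMap.sub_apply, hd_bs, psi, lc_bs, dc_red h, shuf_nil, shuf_nil', map_add, map_add, tl_bs,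
    two_smul, LinearMap.add_apply, End.one_apply, add_sub_cancel_left, End.mul_apply, cC, lc_bs, ne0,
    decs, (dc_nat u).lin, (dc_nat u).lin]
  refine congrArg _ (funext fun p => ?_)
  split_ifs with a b
  · simp
  · simp [b, decs, dc]
  · simp [decs_one _ b, sC, sM, (shuf_nat _ _).lin, tl_bs]

theorem rC_bs (L : List (List X)) : rC L.length (bs ℂ L) = rp L fun q => bs ℂ (q.1 :: q.2) := by
  induction L with
  | nil => rfl
  | cons u L ih =>
    simp [rC, rp, lf_bs, ih, (rp_nat _).lin, pre_bs, tC, tau]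

theorem yC_bs (k : ℕ) : ∀ L : List (List X), L.length = k → ∀ {M : Type} [AddCommGroup M]
    [Module ℂ M] (φ : List (List X) → M), lc ℂ φ (yC k (bs ℂ L)) = sym k L φ := by
  induction k with
  | zero => intro L _ M _ _ φ; exact lc_bs _ _
  | succ k ih =>
    intro L h M _ _ φ
    rw [yC, End.mul_apply, ← h, rC_bs, (rp_nat _).lin, (rp_nat _).lin, h, sym]
    refine (rp_nat L).congr fun q hq => ?_
    rw [lf_bs, ← ih q.2 (by simpa [h] using hq.length_eq)]
    exact eq_bs (lc ℂ φ ∘ₗ pre ℂ q.1) _ (fun K => by simp [pre_bs]) _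

theorem eC_prim [Union X] (k : ℕ) : ∀ {M : Type} [AddCommGroup M] [Module ℂ M]
    (φ : (List (List X) →₀ ℂ) →ₗ[ℂ] M), Prim k fun L => φ (eC k (bs ℂ L)) := by
  induction k with
  | zero => intro _ _ _ _; trivial
  | succ k ih =>
    intro M _ _ φ
    simp only [eC, End.mul_apply]
    refine ⟨fun u v K hu hv => ?_, fun u => ?_⟩ <;> simp only [lf_bs]
    · have := eq_bs (shuf u v fun w => φ ∘ₗ hd ee ∘ₗ pre ℂ w) 0 (fun T => by
        simp only [(shuf_nat u v).app, LinearMap.comp_apply, pre_bs, hd_bs,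
          ← (shuf_nat u v).lin, ee_shuf hu hv, map_zero, LinearMap.zero_apply]) (eC k (bs ℂ K))
      rwa [(shuf_nat u v).app] at this
    · exact ih (φ ∘ₗ hd ee ∘ₗ pre ℂ u)

/-- `k` nonempty words whose letters are those of `l` -/
def Nw (k : ℕ) (l : List X) (L : List (List X)) : Prop :=
  L.length = k ∧ (∀ u ∈ L, u ≠ []) ∧ L.flatten.Perm l

variable [Union X]

/-- chain maps from lists of `k'` words to lists of `k` words -/
structure Good (k k' : ℕ) (O : Op X) : Prop where
  chain : dC * O = O * dC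
  nat : ∀ f : X → X, (∀ a b, f (a ∪ b) = f a ∪ f b) → mC f * O = O * mC f
  supp : ∀ l L, Nw k' l L → O (bs ℂ L) ∈ spn (Nw k l)

namespace Good
variable {k k' k'' : ℕ} {O O' : Op X}

theorem one : Good k k (1 : Op X) := ⟨by simp, by simp, fun _ _ h => bs_spn h⟩

theorem zero : Good k k' (0 : Op X) := ⟨by simp, by simp, fun _ _ _ => zero_mem _⟩

theorem mul (h : Good k k' O) (h' : Good k' k'' O') : Good k k'' (O * O') :=
  ⟨by rw [← mul_assoc, h.chain, mul_assoc, h'.chain, mul_assoc],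
    fun f e => by rw [← mul_assoc, h.nat f e, mul_assoc, h'.nat f e, mul_assoc],
    fun l L e => spn_ind O _ (h.supp l) (h'.supp l L e)⟩

theorem add (h : Good k k' O) (h' : Good k k' O') : Good k k' (O + O') :=
  ⟨by rw [mul_add, add_mul, h.chain, h'.chain], fun f e => by
    rw [mul_add, add_mul, h.nat f e, h'.nat f e], fun l L e => add_mem (h.supp l L e) (h'.supp l L e)⟩

theorem smul (c : ℂ) (h : Good k k' O) : Good k k' (c • O) :=
  ⟨by rw [mul_smul_comm, smul_mul_assoc, h.chain], fun f e => by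
    rw [mul_smul_comm, smul_mul_assoc, h.nat f e],
    fun l L e => Submodule.smul_mem _ c (h.supp l L e)⟩

theorem sub (h : Good k k' O) (h' : Good k k' O') : Good k k' (O - O') := by
  rw [show O - O' = O + (-1 : ℂ) • O' by module]
  exact h.add (h'.smul (-1))

theorem pol (h : Good k k O) (n : ℕ) : Good k k (pol O n) := by
  induction n with
  | zero => exact one
  | succ n ih => exact (one.add ((h.sub (one.smul _)).smul _)).mul ih

end Good

theorem dC_pre (u : List X) (y : List (List X) →₀ ℂ) : dC (pre ℂ u y) =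
    cob u (fun w => pre ℂ w y) + (-1 : ℤ) ^ u.length • pre ℂ u (dC y) :=
  eq_bs (dC ∘ₗ pre ℂ u) ((cob u fun w => pre ℂ w) + (-1 : ℤ) ^ u.length • pre ℂ u ∘ₗ dC) (fun L => by
    simp [pre_bs, dC, cobM, (cobM_nat _).lin, (cob_nat u).app]) y |>.trans (by
    rw [LinearMap.add_apply, (cob_nat u).app]; rfl)

omit [Union X] in
theorem mC_pre (f : X → X) (u : List X) (y : List (List X) →₀ ℂ) :
    mC f (pre ℂ u y) = pre ℂ (u.map f) (mC f y) :=
  eq_bs (mC f ∘ₗ pre ℂ u) (pre ℂ (u.map f) ∘ₗ mC f) (fun L => by simp [pre_bs, mC]) y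

omit [Union X] in
theorem Nw.cons {k k' : ℕ} {l u : List X} {L : List (List X)} (h : Nw (k + 1) l (u :: L)) :
    u ≠ [] ∧ Nw k L.flatten L ∧ ∀ w K, w.Perm u → Nw k' L.flatten K → Nw (k' + 1) l (w :: K) := by
  obtain ⟨h1, h2, h3⟩ := h
  rw [List.forall_mem_cons] at h2
  refine ⟨h2.1, ⟨by simpa using h1, h2.2, .refl _⟩, fun w K a b => ⟨by simp [b.1],
    List.forall_mem_cons (p := (· ≠ [])).2 ⟨fun c => h2.1 ?_, b.2.1⟩, (a.append b.2.2).trans h3⟩⟩
  simpa [c] using a

theorem Good.lf {k k' : ℕ} {O : Op X} (h : Good k k' O) : Good (k + 1) (k' + 1) (lf O) where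
  chain := op_ext (by simp [lf_nil, dC, cobM]) fun u L => by
    simp only [End.mul_apply, ← pre_bs, lf_pre, dC_pre, map_add, map_zsmul, (cob_nat _).lin]
    rw [← End.mul_apply dC, h.chain, End.mul_apply]
  nat f e := op_ext (by simp [lf_nil, mC]) fun u L => by
    simp only [End.mul_apply, ← pre_bs, lf_pre, mC_pre]
    rw [← End.mul_apply (mC f), h.nat f e, End.mul_apply]
  supp l L e := by
    obtain _ | ⟨u, L⟩ := L
    · exact absurd e.1 (by simp)
    · rw [lf_bs]
      exact spn_ind _ _ (fun K hK => pre_bs (R := ℂ) u K ▸ bs_spn (e.cons.2.2 u K (.refl _) hK))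
        (h.supp _ L (e.cons (k' := 0)).2.1)

theorem Good.iter {k k' : ℕ} {O : Op X} (h : Good k k' O) (i : ℕ) :
    Good (k + i) (k' + i) (HA.lf^[i] O) := by
  induction i with
  | zero => exact h
  | succ i ih => rw [Function.iterate_succ_apply']; exact ih.lf

theorem GW.hd {T : End ℂ (List X →₀ ℂ)} (h : GW T) (k : ℕ) : Good k k (hd T) where
  chain := op_ext (by simp [hd_nil, dC, cobM]) fun u L => by
    have h1 := spn_eq (dC ∘ₗ tl L) (tl L ∘ₗ bdr ℂ + (-1 : ℤ) ^ u.length • cobM L tl) (fun w hw => by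
      simp [tl_bs, dC, cobM, bdr_bs, (cob_nat _).lin, hw.length_eq, (cobM_nat L).app]) (h.supp u)
    simp only [LinearMap.comp_apply, LinearMap.add_apply, LinearMap.smul_apply, h.chain, bdr_bs,
      (cob_nat _).lin] at h1
    simp only [End.mul_apply, hd_bs, h1]
    simp only [dC, lc_bs, cobM, map_add, map_zsmul, (cob_nat _).lin, (cobM_nat _).lin, hd_bs,
      (cobM_nat L).app]
  nat f _ := op_ext (by simp [hd_nil, mC]) fun u L => by
    have h1 := eq_bs (mC f ∘ₗ tl L) (tl (L.map (List.map f)) ∘ₗ mw f)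
      (fun w => by simp [tl_bs, mC, mw]) (T (bs ℂ u))
    simp only [LinearMap.comp_apply, h.nat] at h1
    simp only [End.mul_apply, hd_bs, h1]
    simp [mC, mw, hd_bs]
  supp l L e := by
    obtain _ | ⟨u, L⟩ := L
    · rw [hd_nil]; exact zero_mem _
    · obtain rfl : L.length + 1 = k := e.1
      rw [hd_bs]
      exact spn_ind _ _ (fun w hw => tl_bs L w ▸ bs_spn (e.cons.2.2 w L hw (e.cons (k' := 0)).2.1))
        (h.supp u)

theorem tC_good (i k : ℕ) : Good k k (tC i : Op X) where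
  chain := hom_bs fun L => by
    simp only [End.mul_apply, dC, tC, lc_bs, (tau_nat _ _).lin, (cobM_nat _).lin, tau_cobM]
  nat f _ := hom_bs fun L => by
    simp only [End.mul_apply, mC, tC, lc_bs, (tau_nat _ _).lin, tau_map]
  supp l L e := by
    rw [tC, lc_bs]
    refine (tau_nat i L).memS _ fun K ⟨A, u, v, B, _, h2, h3⟩ => bs_spn ?_
    have : K.Perm L := h2 ▸ h3 ▸ (List.Perm.swap _ _ _).append_left A
    exact ⟨this.length_eq.trans e.1, fun w hw => e.2.1 w (this.subset hw), this.flatten.trans e.2.2⟩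

theorem cC_good (j k : ℕ) : Good (j + k) (k + 1) (cC j : Op X) where
  chain := op_ext (by simp [cC, ne0, dC, cobM]) fun u L => by
    simp only [End.mul_apply, dC, cC, lc_bs, ne0, (decs_nat _ _).lin, cobM, map_add, map_zsmul,
      (cob_nat _).lin, (cobM_nat _).lin, cob_decs, cobM_append, (cobM_nat L).swap (decs_nat j u),
      ← (decs_nat _ _).smul, ← (decs_nat _ _).add]
    exact (decs_nat j u).congr fun K hK => by rw [hK.2.2]
  nat f _ := op_ext (by simp [cC, ne0, mC]) fun u L => by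
    simp [mC, cC, ne0, (decs_nat _ _).lin, decs_map]
  supp l L e := by
    obtain _ | ⟨u, L⟩ := L
    · exact absurd e.1 (by simp)
    · rw [cC, lc_bs]
      obtain ⟨h1, h2, h3⟩ := e
      exact (decs_nat j u).memS _ fun K hK => bs_spn ⟨by simpa [hK.1] using h1,
        List.forall_mem_append.2 ⟨hK.2.1, (List.forall_mem_cons.1 h2).2⟩, by simpa [hK.2.2] using h3⟩

theorem rC_good (j k : ℕ) : Good (k + j) (k + j) (rC j : Op X) := by
  induction j with
  | zero => exact .zero
  | succ j ih => exact Good.one.add ((tC_good 0 _).mul ih.lf)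

theorem yC_good (j k : ℕ) : Good (k + j) (k + j) (yC j : Op X) := by
  induction j with
  | zero => exact .one
  | succ j ih => exact ih.lf.mul (rC_good (j + 1) k)

variable [Std.Commutative (α := X) (· ∪ ·)]

theorem sC_good (k : ℕ) : Good k (k + 1) (sC : Op X) where
  chain := hom_bs fun L => by
    simp only [End.mul_apply, dC, sC, lc_bs, (sM_nat _).lin, (cobM_nat _).lin, sM_cobM]
  nat f _ := hom_bs fun L => by simp only [End.mul_apply, mC, sC, lc_bs, (sM_nat _).lin, sM_map]
  supp l L e := by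
    rw [sC, lc_bs]
    refine (sM_nat L).memS _ fun K ⟨u, v, w, T, h1, h2, h3⟩ => bs_spn ?_
    subst h1 h2
    obtain ⟨h1, h2, h4⟩ := e
    simp only [List.forall_mem_cons] at h2
    exact ⟨by simpa using h1, List.forall_mem_cons (p := (· ≠ [])).2
      ⟨fun c => h2.1 (List.sublist_nil.1 (c ▸ h3.1)), h2.2.2⟩,
      (h3.2.2.append_right _).trans (by simpa using h4)⟩

theorem aC_good (k : ℕ) : Good 1 (k + 1) (aC : Op X) where
  chain := hom_bs fun L => by
    simp only [End.mul_apply, dC, aC, lc_bs, (shufs_nat _).lin, (cobM_nat _).lin, cobM_one, shufs_cob]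
  nat f _ := hom_bs fun L => by
    simp [mC, aC, (shufs_nat _).lin, shufs_map]
  supp l L e := by
    rw [aC, lc_bs]
    refine (shufs_nat L).memS _ fun w hw => bs_spn ⟨rfl, fun u hu c => ?_, by simpa using hw.trans e.2.2⟩
    obtain _ | ⟨v, L⟩ := L
    · exact absurd e.1 (by simp)
    · rw [List.mem_singleton.1 hu] at c
      rw [c, List.nil_perm, List.flatten_eq_nil_iff] at hw
      exact e.2.1 v (by simp) (hw v (by simp))

theorem eC_good (j k : ℕ) : Good (k + j) (k + j) (eC j : Op X) := by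
  induction j with
  | zero => exact .one
  | succ j ih => exact (ee_GW.hd _).mul ih.lf

end Pool.Agent.CS.HA
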