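import Mathlib

/-! Maximal minors, tensor products of tuples, right inverses and orthogonal projectors. -/

open Matrix

noncomputable section
namespace Pool.Agent.CS

section Minors
variable {R B C : Type} [CommRing R] [Fintype B] [DecidableEq B]

theorem det_sub_mul (g : Matrix B B R) (A : Matrix B C R) (J : B → C) :
    ((g * A).submatrix id J).det = g.det * (A.submatrix id J).det := by
  rw [← det_mul]
  congr 1

theorem minor_cramer (A : Matrix B C R) (J : B → C) (i : B) (k : C) :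
    ∑ j, A i (J j) * (A.submatrix id (Function.update J j k)).det =
      (A.submatrix id J).det * A i k := by
  have h := congrFun (mulVec_cramer (A.submatrix id J) fun a => A a k) i
  simp only [mulVec, dotProduct, cramer_apply, Pi.smul_apply, smul_eq_mul] at h
  rw [← h]
  refine Finset.sum_congr rfl fun j _ => ?_
  refine congrArg (A i (J j) * ·) (congrArg det ?_)
  ext a b
  by_cases hb : b = j
  · subst hb; simp
  · simp [hb]

/-- proportional minors give the same row space -/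
theorem pl_ring {A A2 : Matrix B C R} {J0 : B → C} (h1 : IsUnit (A.submatrix id J0).det)
    (h2 : IsUnit (A2.submatrix id J0).det)
    (h : ∀ J, (A2.submatrix id J).det * (A.submatrix id J0).det =
      (A.submatrix id J).det * (A2.submatrix id J0).det) :
    A2 = A2.submatrix id J0 * (A.submatrix id J0)⁻¹ * A := by
  let K : Matrix B C R := of fun j k => (A.submatrix id (Function.update J0 j k)).det
  have e1 : A.submatrix id J0 * K = (A.submatrix id J0).det • A := by
    ext i k; simpa [K, mul_apply] using minor_cramer A J0 i k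
  have e2 : A2.submatrix id J0 * K = (A.submatrix id J0).det • A2 := by
    ext i k
    apply h2.mul_left_cancel
    simp only [K, mul_apply, submatrix_apply, id, of_apply, Matrix.smul_apply, smul_eq_mul,
      Finset.mul_sum]
    rw [mul_left_comm, ← minor_cramer A2 J0 i k, Finset.mul_sum]
    exact Finset.sum_congr rfl fun j _ => by
      linear_combination (-A2 i (J0 j)) * h (Function.update J0 j k)
  apply h1.smul_left_cancel.1
  rw [← e2, ← Matrix.mul_smul, ← e1, Matrix.mul_assoc, nonsing_inv_mul_cancel_left _ _ h1]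

theorem pl {A A2 : Matrix B C R} {J0 : B → C} (h1 : IsUnit (A.submatrix id J0).det)
    (h2 : IsUnit (A2.submatrix id J0).det)
    (h : ∀ J, (A2.submatrix id J).det * (A.submatrix id J0).det =
      (A.submatrix id J).det * (A2.submatrix id J0).det) :
    ∃ g : Matrix B B R, IsUnit g.det ∧ A2 = g * A :=
  ⟨_, by rw [det_mul]; exact h2.mul (isUnit_nonsing_inv_det _ h1), pl_ring h1 h2 h⟩

/-- Cauchy-Binet, summed over all column choices -/
theorem det_mul_cb [Fintype C] (A : Matrix B C R) (M : Matrix C B R) :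
    (A * M).det = ∑ J : B → C, (A.submatrix id J).det * ∏ j, M (J j) j := by
  classical
  simp only [det_apply', mul_apply, Finset.prod_univ_sum, Finset.mul_sum,
    Fintype.piFinset_univ, submatrix_apply, id, Finset.sum_mul]
  rw [Finset.sum_comm]
  refine Finset.sum_congr rfl fun J _ => Finset.sum_congr rfl fun σ _ => ?_
  rw [Finset.prod_mul_distrib, mul_assoc]

theorem exists_minor_ne [Nontrivial R] [Fintype C] {A : Matrix B C R} {M : Matrix C B R}
    (h : A * M = 1) : ∃ J : B → C, (A.submatrix id J).det ≠ 0 := by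
  by_contra! h0
  have := det_mul_cb A M
  simp [h, h0] at this

theorem row_inj_of_minor [IsDomain R] {A : Matrix B C R} {J : B → C}
    (h : (A.submatrix id J).det ≠ 0) (v : B → R) (hv : v ᵥ* A = 0) : v = 0 := by
  refine eq_zero_of_vecMul_eq_zero h ?_
  ext j
  exact congrFun hv (J j)

end Minors

section Tens
variable {R ι : Type} [CommRing R] [Fintype ι] [DecidableEq ι] {σ : ι → Type}

theorem prod_update_tens (a : ∀ i, σ i → R) (J : ∀ i, σ i) (i : ι) (s : σ i) :
    ∏ j, a j (Function.update J i s j) = a i s * ∏ j ∈ Finset.univ.erase i, a j (J j) := by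
  rw [← Finset.mul_prod_erase _ _ (Finset.mem_univ i), Function.update_self]
  congr 1
  exact Finset.prod_congr rfl fun j hj => by
    rw [Function.update_of_ne (Finset.ne_of_mem_erase hj)]

/-- proportional tensor products have proportional factors -/
theorem tens_prop {a b : ∀ i, σ i → R} {J0 : ∀ i, σ i} (ha : IsUnit (∏ i, a i (J0 i)))
    (hb : IsUnit (∏ i, b i (J0 i)))
    (h : ∀ J : ∀ i, σ i, (∏ i, b i (J i)) * ∏ i, a i (J0 i) = (∏ i, a i (J i)) * ∏ i, b i (J0 i))
    (i : ι) (s : σ i) : b i s * a i (J0 i) = a i s * b i (J0 i) := by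
  have := h (Function.update J0 i s)
  rw [prod_update_tens, prod_update_tens, ← Finset.mul_prod_erase _ (fun i => a i (J0 i))
    (Finset.mem_univ i), ← Finset.mul_prod_erase _ (fun i => b i (J0 i)) (Finset.mem_univ i)]
    at this
  rw [← Finset.mul_prod_erase _ _ (Finset.mem_univ i)] at ha hb
  apply ((isUnit_of_mul_isUnit_right ha).mul (isUnit_of_mul_isUnit_right hb)).mul_left_cancel
  linear_combination this

end Tens

section Pinv
variable {A B C : Type} [Fintype A] [DecidableEq A] [Fintype B] [DecidableEq B] [Fintype C]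
  [DecidableEq C]

/-- the right inverse of a matrix of full row rank -/
def pinv (Ξ : Matrix B C ℂ) : Matrix C B ℂ := Ξᴴ * (Ξ * Ξᴴ)⁻¹

omit [DecidableEq C] in
theorem isUnit_gram {Ξ : Matrix B C ℂ} (h : ∀ v, v ᵥ* Ξ = 0 → v = 0) :
    IsUnit (Ξ * Ξᴴ).det := by
  open ComplexOrder in
  rw [isUnit_iff_ne_zero, Ne, ← exists_vecMul_eq_zero_iff]
  rintro ⟨v, hv, h0⟩
  exact hv (h v ((vecMul_self_mul_conjTranspose_eq_zero Ξ v).1 h0))

omit [DecidableEq C] in
theorem row_inj_of_gram {Ξ : Matrix B C ℂ} (h : IsUnit (Ξ * Ξᴴ).det) (v : B → ℂ)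
    (hv : v ᵥ* Ξ = 0) : v = 0 :=
  eq_zero_of_vecMul_eq_zero h.ne_zero (by rw [← vecMul_vecMul, hv, zero_vecMul])

omit [DecidableEq C] in
theorem mul_pinv {Ξ : Matrix B C ℂ} (h : IsUnit (Ξ * Ξᴴ).det) : Ξ * pinv Ξ = 1 := by
  rw [pinv, ← Matrix.mul_assoc, mul_nonsing_inv _ h]

omit [DecidableEq C] in
theorem isUnit_gram_mul {Ξ : Matrix B C ℂ} {g : Matrix B B ℂ} (hg : IsUnit g.det)
    (h : IsUnit (Ξ * Ξᴴ).det) : IsUnit (g * Ξ * (g * Ξ)ᴴ).det := by
  rw [conjTranspose_mul, Matrix.mul_assoc, ← Matrix.mul_assoc Ξ, det_mul, det_mul,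
    det_conjTranspose]
  exact hg.mul (h.mul hg.star)

omit [DecidableEq C] in
theorem pinv_mul {Ξ : Matrix B C ℂ} {g : Matrix B B ℂ} (hg : IsUnit g.det) :
    pinv (g * Ξ) = pinv Ξ * g⁻¹ := by
  have hs : IsUnit gᴴ.det := by rw [det_conjTranspose]; exact hg.star
  rw [pinv, pinv, conjTranspose_mul, Matrix.mul_assoc g, ← Matrix.mul_assoc Ξ,
    Matrix.mul_inv_rev, Matrix.mul_inv_rev]
  simp only [Matrix.mul_assoc]
  rw [mul_nonsing_inv_cancel_left _ _ hs]

omit [DecidableEq C] in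
theorem pinv_mulVec_inj {Ξ : Matrix B C ℂ} (h : IsUnit (Ξ * Ξᴴ).det) (v : B → ℂ)
    (hv : pinv Ξ *ᵥ v = 0) : v = 0 := by
  have := congrArg (Ξ *ᵥ ·) hv
  simpa [mulVec_mulVec, mul_pinv h] using this

theorem continuous_inv_of_unit {X : Type} [TopologicalSpace X] {g : X → Matrix B B ℂ}
    (hg : Continuous g) (h : ∀ x, IsUnit (g x).det) : Continuous fun x => (g x)⁻¹ := by
  simp only [inv_def, Ring.inverse_eq_inv']
  exact (hg.matrix_det.inv₀ fun x => (h x).ne_zero).smul hg.matrix_adjugate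

omit [DecidableEq C] in
theorem continuous_pinv {X : Type} [TopologicalSpace X] {Ξ : X → Matrix B C ℂ}
    (hΞ : Continuous Ξ) (h : ∀ x, IsUnit (Ξ x * (Ξ x)ᴴ).det) : Continuous fun x => pinv (Ξ x) :=
  hΞ.matrix_conjTranspose.matrix_mul
    (continuous_inv_of_unit (hΞ.matrix_mul hΞ.matrix_conjTranspose) h)

/-- `Q` is the orthogonal projector onto `U` -/
structure IsPrj (Q : Matrix C C ℂ) (U : Submodule ℂ (C → ℂ)) : Prop where
  herm : Qᴴ = Q
  idem : Q * Q = Q
  fix : ∀ v, v ∈ U ↔ Q *ᵥ v = v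

omit [DecidableEq C] in
theorem IsPrj.mulVec_mem {Q : Matrix C C ℂ} {U : Submodule ℂ (C → ℂ)} (h : IsPrj Q U)
    (v : C → ℂ) : Q *ᵥ v ∈ U := (h.fix _).2 (by rw [mulVec_mulVec, h.idem])

theorem IsPrj.le_iff {Q Q' : Matrix C C ℂ} {U U' : Submodule ℂ (C → ℂ)} (h : IsPrj Q U)
    (h' : IsPrj Q' U') : U ≤ U' ↔ Q' * Q = Q := by
  constructor
  · intro hle
    refine Matrix.ext_of_mulVec_single fun j => ?_
    rw [← mulVec_mulVec]
    exact (h'.fix _).1 (hle (h.mulVec_mem _))
  · intro he v hv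
    rw [h'.fix, ← (h.fix v).1 hv, mulVec_mulVec, he]

theorem IsPrj.unique {Q Q' : Matrix C C ℂ} {U : Submodule ℂ (C → ℂ)} (h : IsPrj Q U)
    (h' : IsPrj Q' U) : Q = Q' := by
  have a := (h.le_iff h').1 le_rfl
  have b := (h'.le_iff h).1 le_rfl
  rw [← h.herm, ← a, conjTranspose_mul, h.herm, h'.herm, b]

theorem IsPrj.range {Q : Matrix C C ℂ} {U : Submodule ℂ (C → ℂ)} (h : IsPrj Q U) :
    LinearMap.range (toLin' Q) = U := by
  ext v
  constructor
  · rintro ⟨w, rfl⟩; exact h.mulVec_mem w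
  · intro hv; exact ⟨v, (h.fix v).1 hv⟩

theorem IsPrj.trace {Q : Matrix C C ℂ} {U : Submodule ℂ (C → ℂ)} (h : IsPrj Q U) :
    Q.trace = Module.finrank ℂ U := by
  have hp : LinearMap.IsProj U (toLin' Q) := ⟨h.mulVec_mem, fun v hv => (h.fix v).1 hv⟩
  rw [← hp.trace, trace_toLin'_eq]

omit [DecidableEq C] in
theorem isUnit_gram_prj {M : Matrix C A ℂ} {P : Matrix A A ℂ} {U : Submodule ℂ (A → ℂ)}
    (hP : IsPrj P U) (hM : ∀ v ∈ U, M *ᵥ v = 0 → v = 0) :
    IsUnit ((M * P)ᴴ * (M * P) + (1 - P)).det := by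
  open ComplexOrder in
  rw [isUnit_iff_ne_zero, Ne, ← exists_mulVec_eq_zero_iff]
  rintro ⟨v, hv, h0⟩
  have e1 : P * ((M * P)ᴴ * (M * P) + (1 - P)) = (M * P)ᴴ * (M * P) := by
    rw [Matrix.mul_add, Matrix.mul_sub, hP.idem, Matrix.mul_one, sub_self, add_zero,
      conjTranspose_mul, hP.herm, ← Matrix.mul_assoc, ← Matrix.mul_assoc, ← Matrix.mul_assoc,
      hP.idem, Matrix.mul_assoc (P * Mᴴ)]
  have e2 : ((M * P)ᴴ * (M * P)) *ᵥ v = 0 := by rw [← e1, ← mulVec_mulVec, h0, mulVec_zero]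
  have e3 : P *ᵥ v = 0 := hM _ (hP.mulVec_mem v) (by
    rw [mulVec_mulVec]; exact (conjTranspose_mul_self_mulVec_eq_zero _ v).1 e2)
  rw [add_mulVec, e2, zero_add, sub_mulVec, e3, one_mulVec, sub_zero] at h0
  exact hv h0

omit [DecidableEq C] in
/-- the explicit projector onto the image of `U` under a map that is injective on `U` -/
theorem IsPrj.map {M : Matrix C A ℂ} {P : Matrix A A ℂ} {U : Submodule ℂ (A → ℂ)}
    (hP : IsPrj P U) (hM : ∀ v ∈ U, M *ᵥ v = 0 → v = 0) :
    IsPrj (M * P * ((M * P)ᴴ * (M * P) + (1 - P))⁻¹ * (M * P)ᴴ) (U.map (toLin' M)) := by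
  have hu := isUnit_gram_prj hP hM
  set φ := M * P with hφ
  set G := φᴴ * φ + (1 - P) with hG
  have hφP : φ * P = φ := by rw [hφ, Matrix.mul_assoc, hP.idem]
  have hGP : G * P = φᴴ * φ := by
    rw [hG, Matrix.add_mul, Matrix.sub_mul, hP.idem, Matrix.one_mul, sub_self, add_zero,
      Matrix.mul_assoc, hφP]
  have hk : φ * G⁻¹ * φᴴ * φ = φ := by
    rw [Matrix.mul_assoc, ← hGP, Matrix.mul_assoc, nonsing_inv_mul_cancel_left _ _ hu, hφP]
  have hGh : Gᴴ = G := by
    rw [hG, conjTranspose_add, conjTranspose_sub, conjTranspose_one, hP.herm, conjTranspose_mul,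
      conjTranspose_conjTranspose]
  refine ⟨?_, ?_, fun v => ⟨?_, fun hv => ?_⟩⟩
  · rw [conjTranspose_mul, conjTranspose_conjTranspose, conjTranspose_mul φ,
      conjTranspose_nonsing_inv, hGh, Matrix.mul_assoc φ]
  · rw [← Matrix.mul_assoc, ← Matrix.mul_assoc, hk]
  · rintro ⟨w, hw, rfl⟩
    have : toLin' M w = φ *ᵥ w := by rw [hφ, ← mulVec_mulVec, (hP.fix w).1 hw, toLin'_apply]
    rw [this, mulVec_mulVec, hk]
  · refine ⟨P *ᵥ ((G⁻¹ * φᴴ) *ᵥ v), hP.mulVec_mem _, ?_⟩
    rw [toLin'_apply, mulVec_mulVec, mulVec_mulVec, ← hφ, ← Matrix.mul_assoc, hv]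

theorem exists_isPrj (U : Submodule ℂ (C → ℂ)) : ∃ Q : Matrix C C ℂ, IsPrj Q U := by
  let b := Module.finBasis ℂ U
  let M : Matrix C (Fin (Module.finrank ℂ U)) ℂ := of fun i j => (b j : C → ℂ) i
  have hM : ∀ v, M *ᵥ v = ((b.equivFun.symm v : U) : C → ℂ) := fun v => by
    ext i
    simp [M, mulVec, dotProduct, Module.Basis.equivFun_symm_apply, Finset.sum_apply, mul_comm]
  have h1 : IsPrj (1 : Matrix (Fin (Module.finrank ℂ U)) (Fin (Module.finrank ℂ U)) ℂ) ⊤ :=
    ⟨by simp, by simp, by simp⟩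
  have h2 := h1.map (M := M) fun v _ hv => by
    rw [hM] at hv
    exact b.equivFun.symm.injective (by rw [map_zero]; exact Subtype.ext hv)
  have h3 : (⊤ : Submodule ℂ _).map (toLin' M) = U := by
    ext v
    constructor
    · rintro ⟨w, -, rfl⟩; rw [toLin'_apply, hM]; exact Subtype.prop _
    · intro hv
      exact ⟨b.equivFun ⟨v, hv⟩, trivial, by rw [toLin'_apply, hM]; simp⟩
  exact ⟨_, h3 ▸ h2⟩

/-- the orthogonal projector onto a subspace -/
def prj (U : Submodule ℂ (C → ℂ)) : Matrix C C ℂ := (exists_isPrj U).choose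

theorem isPrj_prj (U : Submodule ℂ (C → ℂ)) : IsPrj (prj U) U := (exists_isPrj U).choose_spec

theorem IsPrj.eq_prj {Q : Matrix C C ℂ} {U : Submodule ℂ (C → ℂ)} (h : IsPrj Q U) : prj U = Q :=
  (isPrj_prj U).unique h

theorem prj_injective : Function.Injective (prj : Submodule ℂ (C → ℂ) → Matrix C C ℂ) :=
  fun U U' h => by rw [← (isPrj_prj U).range, h, (isPrj_prj U').range]

/-- the projector depends continuously on an injective map and on the source -/
theorem continuous_prj_map {X : Type} [TopologicalSpace X] {M : X → Matrix C A ℂ}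
    {U : X → Submodule ℂ (A → ℂ)} (hM : Continuous M) (hU : Continuous fun x => prj (U x))
    (hi : ∀ x, ∀ v ∈ U x, M x *ᵥ v = 0 → v = 0) :
    Continuous fun x => prj ((U x).map (toLin' (M x))) := by
  have hφ := hM.matrix_mul hU
  simp only [fun x => ((isPrj_prj (U x)).map (hi x)).eq_prj]
  exact (hφ.matrix_mul (continuous_inv_of_unit
    ((hφ.matrix_conjTranspose.matrix_mul hφ).add (continuous_const.sub hU))
    fun x => isUnit_gram_prj (isPrj_prj (U x)) (hi x))).matrix_mul hφ.matrix_conjTranspose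

/-- the projector onto `Ξ⁺ U` -/
def npr (Ξ : Matrix B C ℂ) (U : Submodule ℂ (B → ℂ)) : Matrix C C ℂ :=
  prj (U.map (toLin' (pinv Ξ)))

theorem npr_mul {Ξ : Matrix B C ℂ} {g : Matrix B B ℂ} (hg : IsUnit g.det)
    (U : Submodule ℂ (B → ℂ)) : npr (g * Ξ) (U.map (toLin' g)) = npr Ξ U := by
  rw [npr, npr, ← Submodule.map_comp, ← toLin'_mul, pinv_mul hg, Matrix.mul_assoc,
    nonsing_inv_mul _ hg, Matrix.mul_one]

theorem continuous_npr {X : Type} [TopologicalSpace X] {Ξ : X → Matrix B C ℂ}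
    (hΞ : Continuous Ξ) (h : ∀ x, IsUnit (Ξ x * (Ξ x)ᴴ).det) (U : Submodule ℂ (B → ℂ)) :
    Continuous fun x => npr (Ξ x) U :=
  continuous_prj_map (U := fun _ => U) (continuous_pinv hΞ h) continuous_const
    fun x v _ => pinv_mulVec_inj (h x) v

theorem map_npr {Ξ : Matrix B C ℂ} (h : IsUnit (Ξ * Ξᴴ).det) (U : Submodule ℂ (B → ℂ)) :
    (U.map (toLin' (pinv Ξ))).map (toLin' Ξ) = U := by
  rw [← Submodule.map_comp, ← toLin'_mul, mul_pinv h, toLin'_one, Submodule.map_id]

theorem npr_le_iff {Ξ : Matrix B C ℂ} (h : IsUnit (Ξ * Ξᴴ).det) (U U' : Submodule ℂ (B → ℂ)) :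
    npr Ξ U' * npr Ξ U = npr Ξ U ↔ U ≤ U' := by
  rw [npr, npr, ← (isPrj_prj _).le_iff (isPrj_prj _)]
  exact ⟨fun hl => by rw [← map_npr h U, ← map_npr h U']; exact Submodule.map_mono hl,
    Submodule.map_mono⟩

theorem npr_inj {Ξ : Matrix B C ℂ} (h : IsUnit (Ξ * Ξᴴ).det) {U U' : Submodule ℂ (B → ℂ)}
    (e : npr Ξ U = npr Ξ U') : U = U' := by
  rw [← map_npr h U, ← map_npr h U', prj_injective e]

theorem trace_npr {Ξ : Matrix B C ℂ} (h : IsUnit (Ξ * Ξᴴ).det) (U : Submodule ℂ (B → ℂ)) :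
    (npr Ξ U).trace = Module.finrank ℂ U := by
  rw [npr, (isPrj_prj _).trace]
  congr 1
  refine (Submodule.equivMapOfInjective _ ?_ U).finrank_eq.symm
  exact (injective_iff_map_eq_zero _).2 fun v hv => pinv_mulVec_inj h v hv

end Pinv

end Pool.Agent.CS
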