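import Pool.Agent.P.MP_d34769_ag.Defs

namespace Pool.Agent.P.MP_d34769_ag

open LaurentPolynomial Matrix Module

variable {K : Type} [Field K]

/-- degree at most `a` -/
def Le (a : ℤ) (f : LaurentPolynomial K) : Prop := ∀ m : ℤ, a < m → f.coeff m = 0

/-- order at least `a` -/
def Ge (a : ℤ) (f : LaurentPolynomial K) : Prop := ∀ m : ℤ, m < a → f.coeff m = 0

lemma inv_iff (f : LaurentPolynomial K) : Inv f ↔ Le 0 f := Iff.rfl
lemma pol_iff (f : LaurentPolynomial K) : Pol f ↔ Ge 0 f := Iff.rfl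

lemma coeff_T_mul (a m : ℤ) (f : LaurentPolynomial K) :
    ((T a : LaurentPolynomial K) * f).coeff m = f.coeff (m - a) := by
  rw [T, AddMonoidAlgebra.coeff_single_mul_apply, one_mul]
  congr 1; ring

lemma coeff_C_mul (c : K) (m : ℤ) (f : LaurentPolynomial K) :
    (C c * f).coeff m = c * f.coeff m := by
  rw [← single_eq_C, AddMonoidAlgebra.coeff_single_mul_apply]
  simp

lemma coeff_mul_sum (f g : LaurentPolynomial K) (m : ℤ) :
    (f * g).coeff m = ∑ a ∈ f.coeff.support, f.coeff a * g.coeff (m - a) := by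
  rw [AddMonoidAlgebra.coeff_mul_apply_left, Finsupp.sum]
  refine Finset.sum_congr rfl fun a _ => ?_
  congr 2; ring

lemma Le.zero (a : ℤ) : Le a (0 : LaurentPolynomial K) := fun _ _ => by simp
lemma Ge.zero (a : ℤ) : Ge a (0 : LaurentPolynomial K) := fun _ _ => by simp

lemma Le.add {a : ℤ} {f g : LaurentPolynomial K} (hf : Le a f) (hg : Le a g) : Le a (f + g) :=
  fun m hm => by simp [hf m hm, hg m hm]
lemma Ge.add {a : ℤ} {f g : LaurentPolynomial K} (hf : Ge a f) (hg : Ge a g) : Ge a (f + g) :=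
  fun m hm => by simp [hf m hm, hg m hm]
lemma Le.sub {a : ℤ} {f g : LaurentPolynomial K} (hf : Le a f) (hg : Le a g) : Le a (f - g) :=
  fun m hm => by simp [hf m hm, hg m hm]
lemma Ge.sub {a : ℤ} {f g : LaurentPolynomial K} (hf : Ge a f) (hg : Ge a g) : Ge a (f - g) :=
  fun m hm => by simp [hf m hm, hg m hm]
lemma Le.smul {a : ℤ} {f : LaurentPolynomial K} (c : K) (hf : Le a f) : Le a (c • f) :=
  fun m hm => by simp [hf m hm]
lemma Ge.smul {a : ℤ} {f : LaurentPolynomial K} (c : K) (hf : Ge a f) : Ge a (c • f) :=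
  fun m hm => by simp [hf m hm]
lemma Le.mono {a b : ℤ} {f : LaurentPolynomial K} (hf : Le a f) (h : a ≤ b) : Le b f :=
  fun m hm => hf m (by omega)
lemma Ge.mono {a b : ℤ} {f : LaurentPolynomial K} (hf : Ge a f) (h : b ≤ a) : Ge b f :=
  fun m hm => hf m (by omega)

lemma Le.sum {ι : Type*} {a : ℤ} {s : Finset ι} {f : ι → LaurentPolynomial K}
    (h : ∀ i ∈ s, Le a (f i)) : Le a (∑ i ∈ s, f i) :=
  Finset.sum_induction f (Le a) (fun _ _ => Le.add) (Le.zero a) h
lemma Ge.sum {ι : Type*} {a : ℤ} {s : Finset ι} {f : ι → LaurentPolynomial K}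
    (h : ∀ i ∈ s, Ge a (f i)) : Ge a (∑ i ∈ s, f i) :=
  Finset.sum_induction f (Ge a) (fun _ _ => Ge.add) (Ge.zero a) h

lemma Le.mul {a b : ℤ} {f g : LaurentPolynomial K} (hf : Le a f) (hg : Le b g) :
    Le (a + b) (f * g) := by
  intro m hm
  rw [coeff_mul_sum]
  refine Finset.sum_eq_zero fun c _ => ?_
  by_cases h : a < c
  · rw [hf c h, zero_mul]
  · rw [hg (m - c) (by omega), mul_zero]

lemma Ge.mul {a b : ℤ} {f g : LaurentPolynomial K} (hf : Ge a f) (hg : Ge b g) :
    Ge (a + b) (f * g) := by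
  intro m hm
  rw [coeff_mul_sum]
  refine Finset.sum_eq_zero fun c _ => ?_
  by_cases h : c < a
  · rw [hf c h, zero_mul]
  · rw [hg (m - c) (by omega), mul_zero]

lemma Le.coeff_mul {a b : ℤ} {f g : LaurentPolynomial K} (hf : Le a f) (hg : Le b g) :
    (f * g).coeff (a + b) = f.coeff a * g.coeff b := by
  rw [coeff_mul_sum, Finset.sum_eq_single a]
  · congr 2; ring
  · intro c _ hc
    by_cases h : a < c
    · rw [hf c h, zero_mul]
    · rw [hg (a + b - c) (by omega), mul_zero]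
  · intro h
    rw [Finsupp.notMem_support_iff.1 h, zero_mul]

lemma Ge.coeff_mul {a b : ℤ} {f g : LaurentPolynomial K} (hf : Ge a f) (hg : Ge b g) :
    (f * g).coeff (a + b) = f.coeff a * g.coeff b := by
  rw [coeff_mul_sum, Finset.sum_eq_single a]
  · congr 2; ring
  · intro c _ hc
    by_cases h : c < a
    · rw [hf c h, zero_mul]
    · rw [hg (a + b - c) (by omega), mul_zero]
  · intro h
    rw [Finsupp.notMem_support_iff.1 h, zero_mul]

lemma Le.T (a : ℤ) : Le a (T a : LaurentPolynomial K) := fun m hm => by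
  rw [T_apply, if_neg (by omega)]
lemma Ge.T (a : ℤ) : Ge a (T a : LaurentPolynomial K) := fun m hm => by
  rw [T_apply, if_neg (by omega)]
lemma Le.C (c : K) : Le 0 (C c : LaurentPolynomial K) := fun m hm => by
  rw [C_apply, if_neg (by omega)]
lemma Ge.C (c : K) : Ge 0 (C c : LaurentPolynomial K) := fun m hm => by
  rw [C_apply, if_neg (by omega)]
lemma Le.one : Le 0 (1 : LaurentPolynomial K) := by simpa using Le.T (K := K) 0
lemma Ge.one : Ge 0 (1 : LaurentPolynomial K) := by simpa using Ge.T (K := K) 0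

lemma le_T_mul {a b : ℤ} {f : LaurentPolynomial K} :
    Le a ((T b : LaurentPolynomial K) * f) ↔ Le (a - b) f := by
  constructor
  · intro h m hm
    have := h (m + b) (by omega)
    rwa [coeff_T_mul, add_sub_cancel_right] at this
  · intro h m hm
    rw [coeff_T_mul]; exact h _ (by omega)

lemma ge_T_mul {a b : ℤ} {f : LaurentPolynomial K} :
    Ge a ((T b : LaurentPolynomial K) * f) ↔ Ge (a - b) f := by
  constructor
  · intro h m hm
    have := h (m + b) (by omega)
    rwa [coeff_T_mul, add_sub_cancel_right] at this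
  · intro h m hm
    rw [coeff_T_mul]; exact h _ (by omega)

lemma eq_zero_of_le_of_ge {a b : ℤ} {f : LaurentPolynomial K} (h : Le a f) (h' : Ge b f)
    (hab : a < b) : f = 0 := by
  ext m
  by_cases hm : a < m
  · simp [h m hm]
  · simp [h' m (by omega)]

lemma exists_le (f : LaurentPolynomial K) : ∃ a : ℤ, Le a f := by
  obtain ⟨a, ha⟩ := f.coeff.support.bddAbove
  refine ⟨a, fun m hm => ?_⟩
  by_contra h
  have := ha (Finsupp.mem_support_iff.2 h)
  omega

lemma exists_ge (f : LaurentPolynomial K) : ∃ a : ℤ, Ge a f := by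
  obtain ⟨a, ha⟩ := f.coeff.support.bddBelow
  refine ⟨a, fun m hm => ?_⟩
  by_contra h
  have := ha (Finsupp.mem_support_iff.2 h)
  omega

lemma exists_le_fam {ι : Type*} [Finite ι] (f : ι → LaurentPolynomial K) :
    ∃ a : ℤ, ∀ i, Le a (f i) := by
  choose a ha using fun i => exists_le (f i)
  obtain ⟨b, hb⟩ := (Set.finite_range a).bddAbove
  exact ⟨b, fun i => (ha i).mono (hb ⟨i, rfl⟩)⟩

lemma exists_ge_fam {ι : Type*} [Finite ι] (f : ι → LaurentPolynomial K) :
    ∃ a : ℤ, ∀ i, Ge a (f i) := by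
  choose a ha using fun i => exists_ge (f i)
  obtain ⟨b, hb⟩ := (Set.finite_range a).bddBelow
  exact ⟨b, fun i => (ha i).mono (hb ⟨i, rfl⟩)⟩

lemma exists_top {f : LaurentPolynomial K} (hf : f ≠ 0) : ∃ a, Le a f ∧ f.coeff a ≠ 0 := by
  have hne : f.coeff.support.Nonempty := by
    rw [Finsupp.support_nonempty_iff]
    intro h; apply hf; ext m; simp [h]
  refine ⟨f.coeff.support.max' hne, fun m hm => ?_,
    Finsupp.mem_support_iff.1 (Finset.max'_mem _ hne)⟩
  by_contra h
  have := Finset.le_max' _ _ (Finsupp.mem_support_iff.2 h)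
  omega

lemma exists_bot {f : LaurentPolynomial K} (hf : f ≠ 0) : ∃ a, Ge a f ∧ f.coeff a ≠ 0 := by
  have hne : f.coeff.support.Nonempty := by
    rw [Finsupp.support_nonempty_iff]
    intro h; apply hf; ext m; simp [h]
  refine ⟨f.coeff.support.min' hne, fun m hm => ?_,
    Finsupp.mem_support_iff.1 (Finset.min'_mem _ hne)⟩
  by_contra h
  have := Finset.min'_le _ _ (Finsupp.mem_support_iff.2 h)
  omega

lemma eq_C_of_le_ge {f : LaurentPolynomial K} (h : Le 0 f) (h' : Ge 0 f) :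
    f = C (f.coeff 0) := by
  ext m
  rw [C_apply]
  split_ifs with hm
  · rw [hm]
  · rcases lt_or_gt_of_ne hm with h1 | h1
    · exact h' m h1
    · exact h m h1

/-- a unit of `K[t]` is constant -/
lemma const_of_ge {u v : LaurentPolynomial K} (hu : Ge 0 u) (hv : Ge 0 v) (h : u * v = 1) :
    ∃ c : K, c ≠ 0 ∧ u = C c := by
  have hu0 : u ≠ 0 := by rintro rfl; simp at h
  have hv0 : v ≠ 0 := by rintro rfl; simp at h
  obtain ⟨a, ha, ha'⟩ := exists_top hu0
  obtain ⟨b, hb, hb'⟩ := exists_top hv0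
  have h1 := ha.coeff_mul hb
  have hab : a + b ≤ 0 := by
    by_contra hc
    rw [h, Le.one _ (by omega)] at h1
    exact mul_ne_zero ha' hb' h1.symm
  have ha0 : 0 ≤ a := by by_contra hc; exact ha' (hu a (by omega))
  have hb0 : 0 ≤ b := by by_contra hc; exact hb' (hv b (by omega))
  have : a = 0 := by omega
  subst this
  exact ⟨u.coeff 0, ha', eq_C_of_le_ge ha hu⟩

/-- a unit of `K[1/t]` is constant -/
lemma const_of_le {u v : LaurentPolynomial K} (hu : Le 0 u) (hv : Le 0 v) (h : u * v = 1) :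
    ∃ c : K, c ≠ 0 ∧ u = C c := by
  have hu0 : u ≠ 0 := by rintro rfl; simp at h
  have hv0 : v ≠ 0 := by rintro rfl; simp at h
  obtain ⟨a, ha, ha'⟩ := exists_bot hu0
  obtain ⟨b, hb, hb'⟩ := exists_bot hv0
  have h1 := ha.coeff_mul hb
  have hab : 0 ≤ a + b := by
    by_contra hc
    rw [h, Ge.one _ (by omega)] at h1
    exact mul_ne_zero ha' hb' h1.symm
  have ha0 : a ≤ 0 := by by_contra hc; exact ha' (hu a (by omega))
  have hb0 : b ≤ 0 := by by_contra hc; exact hb' (hv b (by omega))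
  have : a = 0 := by omega
  subst this
  exact ⟨u.coeff 0, ha', eq_C_of_le_ge hu ha⟩

lemma Le.prod0 {ι : Type*} {s : Finset ι} {f : ι → LaurentPolynomial K}
    (h : ∀ i ∈ s, Le 0 (f i)) : Le 0 (∏ i ∈ s, f i) :=
  Finset.prod_induction f (Le 0) (fun _ _ h1 h2 => by simpa using h1.mul h2) Le.one h
lemma Ge.prod0 {ι : Type*} {s : Finset ι} {f : ι → LaurentPolynomial K}
    (h : ∀ i ∈ s, Ge 0 (f i)) : Ge 0 (∏ i ∈ s, f i) :=
  Finset.prod_induction f (Ge 0) (fun _ _ h1 h2 => by simpa using h1.mul h2) Ge.one h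

lemma Le.det {n : ℕ} {A : Matrix (Fin n) (Fin n) (LaurentPolynomial K)}
    (h : ∀ i j, Le 0 (A i j)) : Le 0 A.det := by
  rw [Matrix.det_apply]
  refine Le.sum fun σ _ => ?_
  have : Le 0 (∏ i, A (σ i) i) := Le.prod0 fun i _ => h _ _
  rcases Int.units_eq_one_or (Equiv.Perm.sign σ) with h1 | h1 <;> rw [h1]
  · simpa using this
  · intro m hm; simp [this m hm]

lemma Ge.det {n : ℕ} {A : Matrix (Fin n) (Fin n) (LaurentPolynomial K)}
    (h : ∀ i j, Ge 0 (A i j)) : Ge 0 A.det := by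
  rw [Matrix.det_apply]
  refine Ge.sum fun σ _ => ?_
  have : Ge 0 (∏ i, A (σ i) i) := Ge.prod0 fun i _ => h _ _
  rcases Int.units_eq_one_or (Equiv.Perm.sign σ) with h1 | h1 <;> rw [h1]
  · simpa using this
  · intro m hm; simp [this m hm]

lemma Le.mulVec {n r : ℕ} {a b : ℤ} {A : Matrix (Fin n) (Fin r) (LaurentPolynomial K)}
    {p : Fin r → LaurentPolynomial K} (hA : ∀ i j, Le a (A i j)) (hp : ∀ j, Le b (p j)) (i) :
    Le (a + b) ((A *ᵥ p) i) := Le.sum fun j _ => (hA i j).mul (hp j)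

lemma Ge.mulVec {n r : ℕ} {a b : ℤ} {A : Matrix (Fin n) (Fin r) (LaurentPolynomial K)}
    {p : Fin r → LaurentPolynomial K} (hA : ∀ i j, Ge a (A i j)) (hp : ∀ j, Ge b (p j)) (i) :
    Ge (a + b) ((A *ᵥ p) i) := Ge.sum fun j _ => (hA i j).mul (hp j)

lemma Le.matmul {n r s : ℕ} {A : Matrix (Fin n) (Fin r) (LaurentPolynomial K)}
    {B : Matrix (Fin r) (Fin s) (LaurentPolynomial K)} (hA : ∀ i j, Le 0 (A i j))
    (hB : ∀ i j, Le 0 (B i j)) (i j) : Le 0 ((A * B) i j) :=
  Le.sum fun l _ => by simpa using (hA i l).mul (hB l j)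

lemma Ge.matmul {n r s : ℕ} {A : Matrix (Fin n) (Fin r) (LaurentPolynomial K)}
    {B : Matrix (Fin r) (Fin s) (LaurentPolynomial K)} (hA : ∀ i j, Ge 0 (A i j))
    (hB : ∀ i j, Ge 0 (B i j)) (i j) : Ge 0 ((A * B) i j) :=
  Ge.sum fun l _ => by simpa using (hA i l).mul (hB l j)

lemma T_mul_T_neg (a : ℤ) : (T a : LaurentPolynomial K) * T (-a) = 1 := by
  rw [← T_add]; simp

lemma T_inj {a b : ℤ} {c c' : K} (hc : c ≠ 0)
    (h : (C c * T a : LaurentPolynomial K) = C c' * T b) : a = b := by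
  by_contra hab
  have := congrArg (fun f : LaurentPolynomial K => f.coeff a) h
  simp only [coeff_C_mul, T_apply, if_true, if_neg (Ne.symm hab), mul_one, mul_zero] at this
  exact hc this

/-- the window of Laurent polynomials with exponents in `[0, a]` -/
def win (K : Type) [Field K] (a : ℤ) : Submodule K (LaurentPolynomial K) where
  carrier := {f | Ge 0 f ∧ Le a f}
  add_mem' := fun hf hg => ⟨hf.1.add hg.1, hf.2.add hg.2⟩
  zero_mem' := ⟨Ge.zero _, Le.zero _⟩
  smul_mem' := fun c _ hf => ⟨hf.1.smul c, hf.2.smul c⟩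

lemma eq_sum_of_win {a : ℤ} {f : LaurentPolynomial K} (h0 : Ge 0 f) (ha : Le a f) :
    f = ∑ i : Fin (a + 1).toNat, f.coeff (i : ℕ) • (T (i : ℕ) : LaurentPolynomial K) := by
  ext m
  simp only [AddMonoidAlgebra.coeff_sum, Finsupp.coe_finsetSum, Finset.sum_apply,
    AddMonoidAlgebra.coeff_smul, Finsupp.smul_apply, T_apply, smul_eq_mul, mul_ite, mul_one,
    mul_zero]
  by_cases hm : 0 ≤ m ∧ m ≤ a
  · rw [Finset.sum_eq_single ⟨m.toNat, by omega⟩]
    · have : ((m.toNat : ℕ) : ℤ) = m := by omega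
      simp [this]
    · intro b _ hb
      rw [if_neg]
      intro h; apply hb; ext; simp; omega
    · simp
  · have : f.coeff m = 0 := by
      by_cases h1 : m < 0
      · exact h0 m h1
      · exact ha m (by omega)
    rw [this]
    symm
    refine Finset.sum_eq_zero fun i _ => ?_
    rw [if_neg]
    have := i.2
    omega

/-- coordinates on the window -/
noncomputable def winEquiv (K : Type) [Field K] (a : ℤ) :
    win K a ≃ₗ[K] (Fin (a + 1).toNat → K) where
  toFun f := fun i => f.1.coeff (i : ℕ)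
  map_add' f g := by ext i; simp
  map_smul' c f := by ext i; simp
  invFun c := ⟨∑ i : Fin (a + 1).toNat, c i • (T (i : ℕ) : LaurentPolynomial K),
    Ge.sum fun i _ => ((Ge.T _).mono (by omega)).smul _,
    Le.sum fun i _ => ((Le.T _).mono (by have := i.2; omega)).smul _⟩
  left_inv f := by
    apply Subtype.ext
    exact (eq_sum_of_win f.2.1 f.2.2).symm
  right_inv c := by
    ext i
    simp only [AddMonoidAlgebra.coeff_sum, Finsupp.coe_finsetSum, Finset.sum_apply,
      AddMonoidAlgebra.coeff_smul, Finsupp.smul_apply, T_apply, smul_eq_mul, mul_ite, mul_one,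
      mul_zero]
    rw [Finset.sum_eq_single i]
    · simp
    · intro b _ hb
      rw [if_neg]
      intro h; apply hb; ext; exact_mod_cast h
    · simp

instance (a : ℤ) : FiniteDimensional K (win K a) := (winEquiv K a).symm.finiteDimensional

lemma finrank_win (a : ℤ) : finrank K (win K a) = (a + 1).toNat := by
  rw [(winEquiv K a).finrank_eq]; simp

end Pool.Agent.P.MP_d34769_ag
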