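import Pool.Agent.K.MP_d34769_ag.C93
import Pool.Agent.K.MP_d34769_ag.C89
import Pool.Agent.K.MP_d34769_ag.C50

-- part Pool.Agent.P.MP_d34769_ag.YG2a
section

/-! The algebra of the class of the diagonal. -/

open MvPolynomial

noncomputable section
namespace Pool.Agent.CS

variable {I J : Type}

/-- the restriction to the second group of variables -/
def sndP : MvPolynomial (I ⊕ J) ℂ →ₐ[ℂ] MvPolynomial J ℂ := aeval (Sum.elim 0 X)

theorem split_hom {e : MvPolynomial (I ⊕ J) ℂ} {N : ℕ} (he : e.IsHomogeneous N) :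
    ∃ (s : Finset (I ⊕ J →₀ ℕ)) (a : (I ⊕ J →₀ ℕ) → MvPolynomial I ℂ)
      (b : (I ⊕ J →₀ ℕ) → MvPolynomial J ℂ),
      e = ∑ i ∈ s, rename Sum.inl (a i) * rename Sum.inr (b i) ∧
      ∀ i ∈ s, ∃ p q, p + q = N ∧ (a i).IsHomogeneous p ∧ (b i).IsHomogeneous q := by
  refine ⟨e.support, fun i => monomial (i.comapDomain Sum.inl Sum.inl_injective.injOn) (coeff i e),
    fun i => monomial (i.comapDomain Sum.inr Sum.inr_injective.injOn) 1, ?_, fun i hi => ?_⟩
  · conv_lhs => rw [e.as_sum]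
    refine Finset.sum_congr rfl fun i _ => ?_
    rw [rename_monomial, rename_monomial, monomial_mul, mul_one, ← Finsupp.sumElim_eq_add,
      Finsupp.comapDomain_sumElim_comapDomain]
  · refine ⟨_, _, ?_, isHomogeneous_monomial _ rfl, isHomogeneous_monomial _ rfl⟩
    rw [← Finsupp.degree_mapDomain (Sum.inl : I → I ⊕ J) (i.comapDomain _ _),
      ← Finsupp.degree_mapDomain (Sum.inr : J → I ⊕ J) (i.comapDomain Sum.inr _), ← map_add,
      ← Finsupp.sumElim_eq_add, Finsupp.comapDomain_sumElim_comapDomain, Finsupp.degree_eq_weight_one]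
    exact he (mem_support_iff.1 hi)

theorem sndP_mul (a : MvPolynomial I ℂ) (b : MvPolynomial J ℂ) :
    sndP (rename Sum.inl a * rename Sum.inr b) = constantCoeff a • b := by
  rw [map_mul, sndP, aeval_rename, aeval_rename, Sum.elim_comp_inl, Sum.elim_comp_inr,
    aeval_X_left_apply, aeval_zero, Algebra.smul_def]

theorem cc_hom {a : MvPolynomial I ℂ} {p : ℕ} (ha : a.IsHomogeneous p) :
    (p = 0 ∧ a = C (constantCoeff a)) ∨ (0 < p ∧ constantCoeff a = 0) := by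
  rcases Nat.eq_zero_or_pos p with rfl | hp
  · exact .inl ⟨rfl, totalDegree_eq_zero_iff_eq_C.1 ((totalDegree_zero_iff_isHomogeneous _).2 ha)⟩
  · exact .inr ⟨hp, ha.coeff_eq_zero (by simpa using hp.ne)⟩

theorem sndP_hom {e : MvPolynomial (I ⊕ J) ℂ} {N : ℕ} (he : e.IsHomogeneous N) :
    (sndP e).IsHomogeneous N := by
  obtain ⟨s, a, b, rfl, h⟩ := split_hom he
  rw [map_sum]
  refine IsHomogeneous.sum _ _ _ fun i hi => ?_
  obtain ⟨p, q, e, h1, h2⟩ := h i hi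
  rw [sndP_mul]
  rcases cc_hom h1 with ⟨rfl, -⟩ | ⟨-, h3⟩
  · exact (homogeneousSubmodule J ℂ N).smul_mem _ (by rwa [← e, zero_add])
  · rw [h3, zero_smul]
    exact isHomogeneous_zero _ _ _

variable {R R' T : Type} [Ring R] [Algebra ℂ R] [Ring R'] [Algebra ℂ R'] [Ring T] [Algebra ℂ T]
  {ev : MvPolynomial I ℂ →ₐ[ℂ] R} {ev' : MvPolynomial J ℂ →ₐ[ℂ] R'} {p1 : R →ₐ[ℂ] T}
  {p2 : R' →ₐ[ℂ] T} {E : MvPolynomial (I ⊕ J) ℂ →ₐ[ℂ] T} {e : MvPolynomial (I ⊕ J) ℂ} {N : ℕ}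

/-- the slant product with a functional is well defined -/
def Slant (p1 : R →ₐ[ℂ] T) (p2 : R' →ₐ[ℂ] T) : Prop :=
  ∀ (κ : Type) (s : Finset κ) (u : κ → R) (v : κ → R') (μ : R' →ₗ[ℂ] ℂ),
    ∑ i ∈ s, p1 (u i) * p2 (v i) = 0 → ∑ i ∈ s, μ (v i) • u i = 0

/-- A top class that is killed by the class of the correspondence vanishes. -/
theorem diag_top (h1 : ∀ a, E (rename Sum.inl a) = p1 (ev a))
    (h2 : ∀ b, E (rename Sum.inr b) = p2 (ev' b)) (sl : Slant p1 p2) (he : e.IsHomogeneous N)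
    (h0 : ev' (sndP e) ≠ 0) {t : MvPolynomial I ℂ}
    (hi : ∀ a p, 0 < p → IsHomogeneous a p → ev (t * a) = 0) (ht : p1 (ev t) * E e = 0) :
    ev t = 0 := by
  obtain ⟨s, a, b, rfl, h⟩ := split_hom he
  obtain ⟨μ, hμ⟩ := Module.Projective.exists_dual_ne_zero ℂ h0
  have h3 := sl _ s (fun i => ev (t * a i)) (fun i => ev' (b i)) μ (by
    simpa only [map_sum, map_mul, h1, h2, Finset.mul_sum, mul_assoc] using ht)
  rw [Finset.sum_congr rfl (g := fun i => μ (ev' (constantCoeff (a i) • b i)) • ev t) fun i hi' => ?_,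
    ← Finset.sum_smul] at h3
  · refine (smul_eq_zero.1 h3).resolve_left ?_
    simpa only [map_sum, sndP_mul] using hμ
  · obtain ⟨p, q, -, c, -⟩ := h i hi'
    rcases cc_hom c with ⟨-, c'⟩ | ⟨hp, c'⟩
    · conv_lhs => rw [c', mul_comm, ← smul_eq_C_mul]
      rw [map_smul, map_smul, map_smul, smul_smul, smul_eq_mul, mul_comm]
    · rw [hi _ _ hp c, c', zero_smul, map_zero, map_zero, smul_zero, zero_smul]

/-- The class of the diagonal gives generation and Poincaré duality. -/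
theorem pd_of_diag {p2 : R →ₐ[ℂ] T} {E : MvPolynomial (I ⊕ I) ℂ →ₐ[ℂ] T}
    {e : MvPolynomial (I ⊕ I) ℂ} (h1 : ∀ a, E (rename Sum.inl a) = p1 (ev a))
    (h2 : ∀ b, E (rename Sum.inr b) = p2 (ev b)) (sl : Slant p1 p2) (he : e.IsHomogeneous N)
    (cen : ∀ a c, p2 c * p1 (ev a) = p1 (ev a) * p2 c) (dg : ∀ c, p1 c * E e = p2 c * E e)
    {μ : R →ₗ[ℂ] ℂ} (hμ : ∀ p c, IsHomogeneous c p → p ≠ N → μ (ev c) = 0)
    (h0 : μ (ev (sndP e)) ≠ 0) :
    Function.Surjective ev ∧ PD N (RingHom.ker ev) (μ ∘ₗ ev.toLinearMap) := by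
  obtain ⟨s, a, b, rfl, h⟩ := split_hom he
  have key : ∀ c, μ (ev (sndP (∑ i ∈ s, rename Sum.inl (a i) * rename Sum.inr (b i)))) • c =
      ∑ i ∈ s, μ (c * ev (b i)) • ev (a i) := fun c => by
    have h3 := sl _ (s.disjSum s) (Sum.elim (fun i => c * ev (a i)) fun i => -ev (a i))
      (Sum.elim (fun i => ev (b i)) fun i => c * ev (b i)) μ (by
        have := dg c
        simp only [map_sum, map_mul, h1, h2, Finset.mul_sum, ← mul_assoc, cen] at this
        simp only [Finset.sum_disjSum, Sum.elim_inl, Sum.elim_inr, map_mul, map_neg, neg_mul,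
          Finset.sum_neg_distrib, ← mul_assoc, this, add_neg_cancel])
    simp only [Finset.sum_disjSum, Sum.elim_inl, Sum.elim_inr, smul_neg, Finset.sum_neg_distrib,
      add_neg_eq_zero] at h3
    rw [← h3]
    simp only [map_sum, sndP_mul, Finset.sum_smul]
    refine Finset.sum_congr rfl fun i hi => ?_
    obtain ⟨p, q, e, c1, c2⟩ := h i hi
    rcases cc_hom c1 with ⟨-, c'⟩ | ⟨hp, c'⟩
    · conv_rhs => rw [c', ← algebraMap_eq, AlgHom.commutes, ← Algebra.commutes, ← Algebra.smul_def]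
      rw [map_smul, map_smul, smul_smul, smul_eq_mul, mul_comm]
    · rw [c', hμ q _ c2 (by omega), zero_smul, zero_smul, map_zero, map_zero, zero_smul]
  refine ⟨fun c => ?_, hμ, fun c => ⟨fun hc b => ?_, fun hc => ?_⟩⟩
  · refine ⟨(μ (ev (sndP (∑ i ∈ s, rename Sum.inl (a i) * rename Sum.inr (b i)))))⁻¹ •
      ∑ i ∈ s, μ (c * ev (b i)) • a i, ?_⟩
    rw [map_smul, inv_smul_eq_iff₀ h0, key]
    simp only [map_sum, map_smul]
  · change μ (ev (c * b)) = 0
    rw [map_mul, RingHom.mem_ker.1 hc, zero_mul, map_zero]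
  · refine (smul_eq_zero.1 ((key (ev c)).trans (Finset.sum_eq_zero fun i _ => ?_))).resolve_left h0
    rw [← map_mul, show μ (ev (c * b i)) = 0 from hc (b i), zero_smul]

/-- the constant term of the quotient of two split polynomials -/
def quo0 {S σ τ : Type} [CommRing S] (u : Finset σ) (v : Finset τ) (a : σ → S) (c : τ → S) : S :=
  (Polynomial.divByMonic (∏ t ∈ v, (Polynomial.X - Polynomial.C (c t)))
    (∏ s ∈ u, (Polynomial.X - Polynomial.C (a s)))).coeff 0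

theorem map_quo0 {S H σ τ : Type} [CommRing S] [CommRing H] (f : S →+* H) (u : Finset σ)
    (v : Finset τ) (a : σ → S) (c : τ → S) {g : Polynomial H}
    (h : ∏ t ∈ v, (Polynomial.X - Polynomial.C (f (c t))) =
      (∏ s ∈ u, (Polynomial.X - Polynomial.C (f (a s)))) * g) : f (quo0 u v a c) = g.coeff 0 := by
  rw [quo0, ← Polynomial.coeff_map,
    Polynomial.map_divByMonic _ (Polynomial.monic_prod_X_sub_C _ _)]
  simp only [Polynomial.map_prod, Polynomial.map_sub, Polynomial.map_X, Polynomial.map_C]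
  rw [h, Polynomial.mul_divByMonic_cancel_left _ (Polynomial.monic_prod_X_sub_C _ _)]

end Pool.Agent.CS
end
end

-- part Pool.Agent.P.MP_d34769_ag.YG1
section

/-! The class of the diagonal. -/

set_option linter.unusedSectionVars false

open Matrix Set

noncomputable section
namespace Pool.Agent.CS

variable {I M M' μ ν X Y : Type} [Fintype I] [DecidableEq I] [Fintype M] [DecidableEq M]
  [Fintype M'] [DecidableEq M'] [Fintype μ] [DecidableEq μ] [Fintype ν] [DecidableEq ν]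
  [TopologicalSpace X] [TopologicalSpace Y] {m N : ℕ}

theorem Bun.x_inl (L : Bun Y μ 1) : (L.inl ν).x = L.x := L.x_iso _ continuous_const L.inl_ne

theorem Bun.x_inr (L : Bun Y ν 1) : (L.inr μ).x = L.x := L.x_iso _ continuous_const L.inr_ne

/-- the roots of the bundle of homomorphisms -/
def aX (s : I × I) : MvPolynomial (I ⊕ I) ℂ := .X (.inr s.1) - .X (.inl s.2)

/-- the roots of the bundle of arrows and framings -/
def cX (m : ℕ) : Cx3 I I m → MvPolynomial (I ⊕ I) ℂ :=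
  Sum.elim (fun p => aX p.2) fun p => .X (.inr p.1)

/-- the class of the diagonal as a polynomial -/
def Dat.eD (D : Dat I) (N : ℕ) : MvPolynomial (I ⊕ I) ℂ :=
  MvPolynomial.homogeneousComponent N (quo0 D.sA D.sC aX (cX D.m))

theorem Dat.eD_hom (D : Dat I) (N : ℕ) : (D.eD N).IsHomogeneous N :=
  MvPolynomial.homogeneousComponent_isHomogeneous _ _

namespace Tb
variable (T : Tb I m Y M) (T' : Tb I m Y M')

/-- the classes of the lines -/
def x (i : I) : HE Y := (T.l i).x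

theorem x_comap (g : C(X, Y)) : (T.comap g).x = fun i => HE.pull g (T.x i) :=
  funext fun i => ((T.l i).pull_x g).symm

theorem pull_ev (g : C(X, Y)) (φ : MvPolynomial I ℂ) :
    HR.pull g (ev T.x φ) = ev (T.comap g).x φ := by rw [x_comap, CS.pull_ev]

theorem bA_x (s : I × I) : (T.bA T' s).x = MvPolynomial.aeval (Sum.elim T.x T'.x) (aX s) := by
  simp [bA, aX, Bun.x_tens, Bun.x_tr, x, sub_eq_add_neg]

theorem bC_x (t : Cx3 I I m) :
    (T.bC T' t).x = MvPolynomial.aeval (Sum.elim T.x T'.x) (cX m t) := by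
  cases t <;> simp [bC, cX, Bun.x_inl, Bun.x_inr, Bun.x_tens, Bun.x_const, bA_x, x]

end Tb

variable [CompactSpace Y] [T2Space Y] {D : Dat I} {T : Tb I D.m Y M} {T' : Tb I D.m Y M'}
  (hp : ∀ y, ∃ p p' A B A' B', Pair D T T' y p p' A B A' B') (hN : D.sC.card = D.sA.card + N)
include hp hN

theorem exists_E : ∃ (E : Bun Y (Cx3 M' M D.m) N) (ψ : Y → Matrix (M' × M) (Cx3 M' M D.m) ℂ),
    Continuous ψ ∧ ev (Sum.elim T.x T'.x) (D.eD N) = (E.g.coeff 0).1 ∧
    (∀ y v, (∑ s ∈ D.sA, (T.bA T' s).Q y) *ᵥ v = v → ψ y *ᵥ T.ph T' y *ᵥ v = v) ∧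
    ∀ y u, (∑ t ∈ D.sC, (T.bC T' t).Q y) *ᵥ u = u → (E.Q y *ᵥ u = 0 ↔
      ∃ v, (∑ s ∈ D.sA, (T.bA T' s).Q y) *ᵥ v = v ∧ T.ph T' y *ᵥ v = u) := by
  choose p p' A B A' B' h using hp
  obtain ⟨_, ψ, h1, h2⟩ := exists_compl
    (Bun.sum D.sA (T.bA T') fun _ _ _ _ e y => (h y).orthA e)
    (Bun.sum D.sC (T.bC T') fun _ _ _ _ e y => (h y).orthC e) hN (T.cont_ph T')
    (fun y => (h y).into) fun y => (h y).inj
  obtain ⟨E, h3, -, h4⟩ := Bun.ch
    (Bun.sum D.sA (T.bA T') fun _ _ _ _ e y => (h y).orthA e)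
    (Bun.sum D.sC (T.bC T') fun _ _ _ _ e y => (h y).orthC e) hN (T.cont_ph T')
    (fun y => (h y).into) fun y => (h y).inj
  simp only [Bun.g_sum, Tb.bA_x, Tb.bC_x] at h3
  refine ⟨E, ψ, h1, ?_, fun y v hv => ?_, h4⟩
  · rw [Dat.eD, ← hp_ev (by rintro (i | i) <;> exact Bun.x_mem _)]
    change CS.hp Y (2 * N) (MvPolynomial.aeval _ _ : HE Y).1 = _
    rw [show MvPolynomial.aeval (Sum.elim T.x T'.x) (quo0 D.sA D.sC aX (cX D.m)) = _ from
      map_quo0 (g := E.g) (MvPolynomial.aeval (Sum.elim T.x T'.x)).toRingHom D.sA D.sC aX (cX D.m)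
        (by simpa only [AlgHom.toRingHom_eq_coe, RingHom.coe_coe] using h3)]
    exact mem_hr_nat.1 (by exact_mod_cast E.g_coeff_zero)
  · simpa only [← mulVec_mulVec, Bun.sum_Q, hv] using congrArg (· *ᵥ v) (h2 y).2.2.1

/-- The class of the diagonal lives on the closed set of the framed homomorphisms. -/
theorem exists_homs : ∃ (Γ : Set Y) (h : Y → Matrix M' M ℂ), IsClosed Γ ∧ Continuous h ∧
    (∀ c, HR.res Γ c = 0 → c * ev (Sum.elim T.x T'.x) (D.eD N) = 0) ∧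
    ∀ y ∈ Γ, ∀ p p' A B A' B', Pair D T T' y p p' A B A' B' → ∃ k ∈ D.Lie, h y = A' * k * B ∧
      (∀ a, k * p.1 a = p'.1 a * k) ∧ k * p.2 = p'.2 := by
  obtain ⟨E, ψ, h1, h2, h3, h4⟩ := exists_E hp hN
  have h0 := isClosed_eq (E.cont.matrix_mulVec T'.cont_sec) (continuous_const (y := 0))
  refine ⟨_, fun y => of fun i j => (ψ y *ᵥ T'.sec y) (i, j), h0,
    continuous_matrix fun i j => (continuous_apply (i, j)).comp (h1.matrix_mulVec T'.cont_sec),
    fun c hc => (supp h0 hc fun K hK hd => ?_).2, fun y hy p p' A B A' B' h => ?_⟩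
  · rw [h2]
    exact E.res_g_sec T'.cont_sec hK fun y hy => disjoint_left.1 hd hy
  · obtain ⟨v, h5, h6⟩ := (h4 y _ h.secC).1 hy
    obtain ⟨k, hk, e, h7⟩ := h.sol h5 h6
    exact ⟨k, hk, vc_inj (((congrArg _ h6.symm).trans (h3 y v h5)).trans e), h7⟩

end Pool.Agent.CS
end
end

-- part Pool.Agent.P.MP_d34769_ag.YBE
section

/-! The top class of a bundle with a section that has one transversal zero. -/

open Matrix Set Polynomial

noncomputable section
namespace Pool.Agent.CS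

variable {μ : Type} [Fintype μ] {X Y : Type} [TopologicalSpace X] [TopologicalSpace Y] {r N : ℕ}
  {Q : Matrix μ μ ℂ} {V : Type} [NormedAddCommGroup V] [NormedSpace ℝ V] [FiniteDimensional ℝ V]

theorem lnv_mulVec_eq_zero {w e : μ → ℂ} (hw : w ≠ 0) : lnv w *ᵥ e = 0 ↔ star e ⬝ᵥ w = 0 := by
  rw [lnv, smul_mulVec, vecMulVec_mulVec, op_smul_eq_smul, smul_smul, smul_eq_zero,
    or_iff_left hw, mul_eq_zero, or_iff_right (inv_ne_zero (star_dot_ne hw)),
    star_dotProduct, star_eq_zero]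

omit [FiniteDimensional ℝ V] in
/-- every line outside a hyperplane is met once by the cell -/
theorem cell_uniq {e : μ → ℂ} (he : e ≠ 0) (hQe : Q *ᵥ e = e) {T : V →ₗ[ℝ] (μ → ℂ)}
    (hT : Function.Injective T) (hr : ∀ w, (∃ v, T v = w) ↔ Q *ᵥ w = w ∧ star e ⬝ᵥ w = 0)
    (hn : ∀ v : V, ((1 - ‖v‖ : ℝ) : ℂ) • e + T v ≠ 0) {w : μ → ℂ} (hw : w ≠ 0) (hQw : Q *ᵥ w = w)
    (hc : star e ⬝ᵥ w ≠ 0) : ∃! v : Bl V, lnv (((1 - ‖v.1‖ : ℝ) : ℂ) • e + T v.1) = lnv w := by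
  have h0 : ∀ v, star e ⬝ᵥ T v = 0 := fun v => ((hr _).1 ⟨v, rfl⟩).2
  have hd := star_dot_ne he
  have hdot : ∀ v : V, star e ⬝ᵥ (((1 - ‖v‖ : ℝ) : ℂ) • e + T v) =
      ((1 - ‖v‖ : ℝ) : ℂ) * (star e ⬝ᵥ e) := fun v => by
    rw [dotProduct_add, h0, add_zero, dotProduct_smul, smul_eq_mul]
  obtain ⟨u, hu⟩ := (hr (((star e ⬝ᵥ e) / (star e ⬝ᵥ w)) • w - e)).2
    ⟨by rw [mulVec_sub, mulVec_smul, hQw, hQe],
      by rw [dotProduct_sub, dotProduct_smul, smul_eq_mul, div_mul_cancel₀ _ hc, sub_self]⟩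
  have hp : 0 < 1 + ‖u‖ := by positivity
  have hs : ∀ v : V, ‖v‖ ≠ 1 → ((1 - ‖v‖ : ℝ) : ℂ) ≠ 0 := fun v hv =>
    Complex.ofReal_ne_zero.2 (sub_ne_zero.2 hv.symm)
  have key2 : ∀ v : Bl V, lnv (((1 - ‖v.1‖ : ℝ) : ℂ) • e + T v.1) = lnv w ↔
      v.1 = (1 - ‖v.1‖) • u := fun v => by
    constructor
    · intro ev
      obtain ⟨c, ec⟩ := (lnv_eq_iff hw (hn v.1)).1 ev.symm
      have h3 := hdot v.1
      rw [ec, dotProduct_smul, smul_eq_mul] at h3
      apply hT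
      rw [map_smul, hu, ← Complex.coe_smul, smul_sub, smul_smul, ← mul_div_assoc, ← h3,
        mul_div_cancel_right₀ _ hc, ← ec, add_sub_cancel_left]
    · intro ev
      have h1 : ‖v.1‖ ≠ 1 := fun e1 => by
        rw [e1, sub_self, zero_smul] at ev
        simp [ev] at e1
      conv_lhs => rw [ev, map_smul, hu, ← ev, ← Complex.coe_smul, ← smul_add, add_sub_cancel,
        smul_smul]
      exact lnv_smul hw (mul_ne_zero (hs _ h1) (div_ne_zero hd hc))
  have hu' : ‖(1 + ‖u‖)⁻¹ • u‖ = (1 + ‖u‖)⁻¹ * ‖u‖ := by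
    rw [norm_smul, Real.norm_of_nonneg (by positivity)]
  refine ⟨⟨(1 + ‖u‖)⁻¹ • u, ?_⟩, (key2 _).2 ?_, fun v hv => Subtype.ext ?_⟩
  · rw [mem_closedBall_zero_iff, hu', inv_mul_le_iff₀ hp]; linarith
  · simp only [hu']
    congr 1
    field_simp
    ring
  · have h3 := (key2 v).1 hv
    have h4 : ‖v.1‖ = (1 - ‖v.1‖) * ‖u‖ := by
      conv_lhs => rw [h3, norm_smul, Real.norm_of_nonneg
        (sub_nonneg.2 (mem_closedBall_zero_iff.1 v.2))]
    rw [h3]
    congr 1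
    field_simp
    linarith

/-- the sum of a bundle and the trivial line -/
def Bun.plus (E : Bun Y μ r) : Bun Y (μ ⊕ Unit) (r + 1) :=
  ⟨fun y => fromBlocks (E.Q y) 0 0 1,
    E.cont.matrix_fromBlocks continuous_const continuous_const continuous_const,
    fun y => ⟨by simp [fromBlocks_conjTranspose, (E.op y).herm],
      by simp [fromBlocks_multiply, (E.op y).idem],
      by have := (E.op y).tr; simp only [Matrix.trace, diag] at this; simp [Matrix.trace, this]⟩⟩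

theorem Bun.plus_mulVec (E : Bun Y μ r) (y : Y) (w : μ ⊕ Unit → ℂ) :
    E.plus.Q y *ᵥ w = Sum.elim (E.Q y *ᵥ (w ∘ Sum.inl)) (w ∘ Sum.inr) := by
  simp [Bun.plus, fromBlocks_mulVec]

/-- the vector with a given last coordinate -/
def vpl (a : μ → ℂ) (c : ℂ) : μ ⊕ Unit → ℂ := Sum.elim a fun _ => c

theorem Bun.plus_vpl (E : Bun Y μ r) (y : Y) (a : μ → ℂ) (c : ℂ) :
    E.plus.Q y *ᵥ vpl (E.Q y *ᵥ a) c = vpl (E.Q y *ᵥ a) c := by
  rw [E.plus_mulVec, vpl, Sum.elim_comp_inl, Sum.elim_comp_inr, mulVec_mulVec, (E.op y).idem]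

theorem dot_vpl (w : μ ⊕ Unit → ℂ) : star (vpl (0 : μ → ℂ) 1) ⬝ᵥ w = w (Sum.inr ()) := by
  simp [vpl, dotProduct]

omit [Fintype μ] in
theorem vpl_ne {a : μ → ℂ} {c : ℂ} (h : a = 0 → c ≠ 0) : vpl a c ≠ 0 := fun e =>
  h (funext fun i => congrFun e (Sum.inl i)) (congrFun e (Sum.inr ()))

omit [Fintype μ] in
theorem cont_vpl {a : Y → μ → ℂ} {c : Y → ℂ} (ha : Continuous a) (hc : Continuous c) :
    Continuous fun y => vpl (a y) (c y) :=
  continuous_pi fun i => by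
    rcases i with i | i
    exacts [(continuous_apply i).comp ha, hc]

/-- EUL -/
theorem Bun.eul [CompactSpace X] [T2Space X] (E : Bun X μ N) (κ : C(Bl V, X)) {A : Set X}
    (hA : IsClosed A) (mA : ∀ v, κ v ∈ A ↔ v ∈ Bd V) (hκ : ∀ t ∉ A, ∃! v, κ v = t)
    (ori : ∃ a ∈ (CP univ A).Z (2 * N), a ∉ (CC X).B (2 * N)) {s : X → μ → ℂ} (hs : Continuous s)
    (hs0 : ∀ y ∈ A, E.Q y *ᵥ s y ≠ 0) (ψ : Bl V → V →ₗ[ℝ] (μ → ℂ))
    (hψ : Continuous fun p : Bl V × V => ψ p.1 p.2)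
    (hi : ∀ v w, E.Q (κ v) *ᵥ ψ v w = 0 → w = 0)
    (hsψ : ∀ v, E.Q (κ v) *ᵥ s (κ v) = E.Q (κ v) *ᵥ ψ v v.1) : E.g.coeff 0 ≠ 0 := by
  classical
  intro hg
  obtain ⟨a₀, ha₀, hb₀⟩ := ori
  have hκ' : ∀ t ∈ univ \ A, ∃! v, κ v = t := fun t ht => hκ t ht.2
  have hV : Module.finrank ℝ V = 2 * N := by
    by_contra hn
    exact hb₀ (CP_B_CC (cell_ac κ isClosed_univ hA (fun _ => trivial) mA hκ'
      (fun e => hn (by exact_mod_cast e.symm)) ha₀))
  let o : Bl V := ⟨0, Metric.mem_closedBall_self zero_le_one⟩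
  have ho : κ o ∉ A := fun h => by simpa [Bd, o] using (mA o).1 h
  -- the projective completion
  set π := Ln.π E.plus.ld
  set L := Ln.l E.plus.ld ()
  have hP : IsPE π E.plus L := E.plus.isPE
  let e : μ ⊕ Unit → ℂ := vpl 0 1
  have he : e ≠ 0 := vpl_ne fun _ => one_ne_zero
  have hH := isClosed_hyp L e
  set H := {x | L.Q x *ᵥ e = 0}
  have hu : (pev π L.x E.g).1 ∈ hr _ (2 * N) := by
    rw [pev_sum π L.x (E.g_mo.1.trans_lt (Nat.lt_succ_self N))]
    refine Submodule.sum_mem _ fun j _ => ?_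
    have := mul_mem_hr (pull_mem_hr π (E.g_coeff j)) (L.x_pow_mem j)
    rwa [show (2 * N - 2 * (j : ℕ) + (2 * j.1 : ℕ) : ℤ) = 2 * N by push_cast; ring] at this
  have hu0 : HR.res H (pev π L.x E.g).1 = 0 := by
    rw [← HE.pull_val, pull_pev, Bun.pull_x]
    have hm : ∀ w : μ ⊕ Unit → ℂ, fromCols (1 : Matrix μ μ ℂ) (0 : Matrix μ Unit ℂ) *ᵥ w =
        w ∘ Sum.inl := fun w => by simp [fromCols_mulVec]
    refine congrArg Subtype.val (E.g_root _ (L.comap ⟨Subtype.val, continuous_subtype_val⟩)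
      (A := fun _ => fromCols 1 0) continuous_const (fun x => ?_) fun x => ?_)
    · obtain ⟨w, hw, ew⟩ := (L.op x.1).exists_lnv
      have h1 := (le_lnv_iff hw).1 (ew ▸ hP.le x.1)
      have h2 : E.Q (π x) *ᵥ (w ∘ Sum.inl) = w ∘ Sum.inl := by
        rw [E.plus_mulVec] at h1
        exact funext fun i => congrFun h1 (Sum.inl i)
      change E.Q (π x) * (fromCols 1 0 * L.Q x) = fromCols 1 0 * L.Q x
      rw [ew, ← Matrix.mul_assoc, mul_lnv, mul_lnv, ← mulVec_mulVec, hm, h2]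
    · obtain ⟨w, hw, ew⟩ := (L.op x.1).exists_lnv
      have h1 : lnv w *ᵥ e = 0 := ew ▸ x.2
      rw [lnv_mulVec_eq_zero hw, dot_vpl] at h1
      change fromCols (1 : Matrix μ μ ℂ) (0 : Matrix μ Unit ℂ) * L.Q x ≠ 0
      rw [ew, Ne, mul_lnv_eq_zero hw, hm]
      exact fun h0 => hw (funext fun i => by cases i; exacts [congrFun h0 _, h1])
  obtain ⟨u, huZ, eu⟩ := exists_rel hH hu hu0
  have hH' : ∀ x (a : μ → ℂ) (c : ℂ), vpl a c ≠ 0 → L.Q x = lnv (vpl a c) → (x ∈ H ↔ c = 0) :=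
    fun x a c h1 h2 => by
      change L.Q x *ᵥ e = 0 ↔ _
      rw [h2, lnv_mulVec_eq_zero h1, dot_vpl]
      rfl
  -- the section
  obtain ⟨τ, t0, t1, t2⟩ := exists_continuous_zero_one_of_isClosed hA
    (isClosed_singleton (x := κ o)) (disjoint_singleton_right.2 ho)
  have t1' : τ (κ o) = 1 := t1 rfl
  have n1 : ∀ y, vpl (E.Q y *ᵥ s y) (τ y) ≠ 0 := fun y => vpl_ne fun h0 => by
    obtain ⟨v, rfl, -⟩ := hκ y fun h => hs0 y h h0
    obtain rfl : v = o := Subtype.ext (hi v _ ((hsψ v).symm.trans h0))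
    simp [t1']
  obtain ⟨σ, s1, s2⟩ := hP.exists_lift (.id X) (Bun.vec _ (cont_vpl (E.cont.matrix_mulVec hs)
    (Complex.continuous_ofReal.comp τ.continuous)) n1) fun y => le_lnv (E.plus_vpl y _ _)
  have s3 : ∀ y, L.Q (σ y) = lnv (vpl (E.Q y *ᵥ s y) (τ y)) := fun y =>
    congrFun (congrArg Bun.Q s2) y
  have mσ := mor_pl σ (K := univ) (A := A) (K' := univ) (A' := H) (mapsTo_univ _ _) fun y hy =>
    (hH' _ _ _ (n1 y) (s3 y)).2 (by simp [t0 hy])
  have z1 : AS.pull σ u ∈ (CP univ A).Z (2 * N) := by simpa using mσ.mem_Z huZ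
  have b1 : AS.pull σ u ∈ (CC X).B (2 * N) := by
    rw [← cl_eq_zero (CP_Z_CC z1), ← pull_cl σ (Z_Zc (CP_Z_CC huZ)), eu, ← HE.pull_val, pull_pev,
      Bun.pull_x, s1, s2, Bun.x_vec, pev_zero, hg]
    rfl
  have b2 : AS.pull σ u ∈ (CP univ A).B (2 * N) :=
    (cell_le1 κ isClosed_univ hA (fun _ => trivial) mA hκ' (2 * N)).inj
      (mor_pl (.id X) (mapsTo_univ _ _) (mapsTo_empty _ _)) ha₀
      (by simpa [AS.pull_id] using hb₀) _ z1 (by simpa [AS.pull_id] using b1)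
  have b3 : AS.pull (σ.comp κ) u ∈ (CP univ (Bd V)).B (2 * N) := by
    simpa [AS.pull_pull] using (mor_pl κ (K := univ) (A := Bd V) (K' := univ) (A' := A)
      (mapsTo_univ _ _) fun v hv => (mA v).2 hv).mem_B z1.1 b2
  -- the homotopy
  let sc : C(unitInterval × Bl V, Bl V) := ⟨fun p => ⟨p.1.1 • p.2.1, by
      rw [mem_closedBall_zero_iff, norm_smul, Real.norm_of_nonneg p.1.2.1]
      exact mul_le_one₀ p.1.2.2 (norm_nonneg _) (mem_closedBall_zero_iff.1 p.2.2)⟩,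
    continuous_induced_rng.2 (continuous_fst.subtype_val.smul continuous_snd.subtype_val)⟩
  let c : unitInterval × Bl V → ℝ := fun p => (1 - p.1.1) * (1 - ‖p.2.1‖) + p.1.1 * τ (κ p.2)
  have hc : Continuous c := ((continuous_const.sub continuous_fst.subtype_val).mul
    (continuous_const.sub continuous_snd.subtype_val.norm)).add (continuous_fst.subtype_val.mul
      (τ.continuous.comp (κ.continuous.comp continuous_snd)))
  have n2 : ∀ p, vpl (E.Q (κ (sc p)) *ᵥ ψ (sc p) p.2.1) (c p) ≠ 0 := fun p => vpl_ne fun h0 => by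
    have : p.2 = o := Subtype.ext (hi _ _ h0)
    simp [c, this, t1', o]
  obtain ⟨F, f1, f2⟩ := hP.exists_lift (κ.comp sc) (Bun.vec _ (cont_vpl ((E.cont.comp
    (κ.comp sc).continuous).matrix_mulVec (hψ.comp (sc.continuous.prodMk
      continuous_snd.subtype_val))) (Complex.continuous_ofReal.comp hc)) n2)
    fun p => le_lnv (E.plus_vpl _ _ _)
  have f3 : ∀ p, L.Q (F p) = lnv (vpl (E.Q (κ (sc p)) *ᵥ ψ (sc p) p.2.1) (c p)) := fun p =>
    congrFun (congrArg Bun.Q f2) p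
  have f4 : ∀ p, π (F p) = κ (sc p) := fun p => congrArg (· p) f1
  -- the fibre
  have hQ := E.plus.op (κ o)
  have h₀ := isPP_model hQ
  set L₀ := Ln.l (Bun.const Unit hQ).ld ()
  obtain ⟨ι, i1, i2⟩ := hP.exists_lift (.const _ (κ o)) L₀ h₀.le
  have i3 : ∀ x, L.Q (ι x) = L₀.Q x := fun x => congrFun (congrArg Bun.Q i2) x
  have n3 : ∀ v : V, vpl (E.Q (κ o) *ᵥ ψ o v) ((1 - ‖v‖ : ℝ) : ℂ) ≠ 0 := fun v => vpl_ne fun h0 => by
    simp [hi _ _ h0]
  obtain ⟨g, g1⟩ := h₀.exists_lift hQ (Bun.vec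
    (fun v : Bl V => vpl (E.Q (κ o) *ᵥ ψ o v.1) ((1 - ‖v.1‖ : ℝ) : ℂ))
    (cont_vpl (continuous_const.matrix_mulVec (hψ.comp (continuous_const.prodMk
      continuous_subtype_val))) (Complex.continuous_ofReal.comp (continuous_const.sub
        continuous_subtype_val.norm))) fun v => n3 v.1) fun v => le_lnv (E.plus_vpl _ _ _)
  have g2 : ∀ v, L₀.Q (g v) = lnv (vpl (E.Q (κ o) *ᵥ ψ o v.1) ((1 - ‖v.1‖ : ℝ) : ℂ)) := fun v =>
    congrFun (congrArg Bun.Q g1) v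
  let Ht : (ι.comp g).Homotopy (σ.comp κ) := ⟨F, fun v => by
      have a : sc (0, v) = o := Subtype.ext (zero_smul _ _)
      refine hP.inj _ _ ((f4 _).trans (by rw [a]; exact (congrArg (· (g v)) i1).symm)) ?_
      refine (f3 _).trans (Eq.trans ?_ ((i3 _).trans (g2 v)).symm)
      simp [a, c],
    fun v => by
      have a : sc (1, v) = v := Subtype.ext (one_smul _ _)
      refine hP.inj _ _ ((f4 _).trans (by rw [a]; exact (congrArg (· (κ v)) s1).symm)) ?_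
      refine (f3 _).trans (Eq.trans ?_ (s3 _).symm)
      simp [a, c, hsψ]⟩
  have b4 : AS.pull g (AS.pull ι u) ∈ (CP univ (Bd V)).B (2 * N) := by
    have := add_mem (htpy Ht isClosed_univ (isClosed_Bd V) (K' := univ) (A' := H)
      (fun _ _ _ => trivial) (fun t v hv => (hH' _ _ _ (n2 (t, v)) (f3 (t, v))).2 (by
        have h1 : ‖v.1‖ = 1 := hv
        simp [c, h1, t0 ((mA v).2 hv)])) u huZ) b3
    rwa [sub_add_cancel, ContinuousMap.coe_comp, ← AS.pull_pull] at this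
  -- the cell
  let T₀ : V →ₗ[ℝ] (μ → ℂ) := ((E.Q (κ o)).mulVecLin.restrictScalars ℝ) ∘ₗ ψ o
  have hT₀ : Function.Injective T₀ := (injective_iff_map_eq_zero _).2 (hi o)
  have hr₀ : ∀ w, E.Q (κ o) *ᵥ w = w → ∃ v, T₀ v = w := by
    obtain ⟨T₁, h1, h2⟩ := (E.op (κ o)).exists_coord
    have : LinearMap.range T₀ = LinearMap.range T₁ := Submodule.eq_of_le_of_finrank_eq
      (by
        rintro _ ⟨v, rfl⟩
        exact (h2 _).2 (by
          change E.Q (κ o) *ᵥ (E.Q (κ o) *ᵥ _) = E.Q (κ o) *ᵥ _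
          rw [mulVec_mulVec, (E.op _).idem]))
      (by rw [LinearMap.finrank_range_of_inj hT₀, LinearMap.finrank_range_of_inj h1, hV]; simp)
    exact fun w hw => show w ∈ LinearMap.range T₀ from this ▸ (h2 w).2 hw
  let T : V →ₗ[ℝ] (μ ⊕ Unit → ℂ) :=
    ⟨⟨fun v => vpl (T₀ v) 0, fun a b => by ext (i | i) <;> simp [vpl]⟩,
      fun a b => by ext (i | i) <;> simp [vpl]⟩
  have eT : ∀ v : V, ((1 - ‖v‖ : ℝ) : ℂ) • e + T v =
      vpl (E.Q (κ o) *ᵥ ψ o v) ((1 - ‖v‖ : ℝ) : ℂ) := fun v => by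
    ext (i | i) <;> simp [vpl, e, T, T₀]
  have hH₀ : IsClosed (ι ⁻¹' H) := hH.preimage ι.continuous
  have q := cell_qia g isClosed_univ hH₀ (fun _ => trivial) (fun v => by
      rw [mem_preimage, hH' _ _ _ (n3 v.1) ((i3 _).trans (g2 v)), Complex.ofReal_eq_zero,
        sub_eq_zero, eq_comm]
      rfl) fun x hx => by
    obtain ⟨w, hw, ew⟩ := (L₀.op x).exists_lnv
    have := cell_uniq (Q := E.plus.Q (κ o)) he (by simpa using E.plus_vpl (κ o) 0 1) (T := T)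
      (fun a b h => hT₀ (funext fun i => congrFun h (Sum.inl i))) (fun w => ⟨by
        rintro ⟨v, rfl⟩
        exact ⟨E.plus_vpl _ _ _, dot_vpl _⟩, fun ⟨h1, h2⟩ => by
        rw [E.plus_mulVec] at h1
        rw [dot_vpl] at h2
        obtain ⟨v, hv⟩ := hr₀ (w ∘ Sum.inl) (funext fun i => congrFun h1 (Sum.inl i))
        exact ⟨v, funext fun i => by cases i; exacts [congrFun hv _, h2.symm]⟩⟩)
      (fun v => eT v ▸ n3 v) hw ((le_lnv_iff hw).1 (ew ▸ h₀.le x)) fun h0 => hx.2 (by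
        change L.Q (ι x) *ᵥ e = 0
        rw [i3, ew, lnv_mulVec_eq_zero hw, h0])
    simp only [eT, ← g2, ← ew, h₀.inj.eq_iff] at this
    exact this
  have z2 : AS.pull ι u ∈ (CP univ (ι ⁻¹' H)).Z (2 * N) := by
    simpa using (mor_pl ι (K := univ) (K' := univ) (mapsTo_univ _ _)
      (mapsTo_preimage _ _)).mem_Z huZ
  have b5 := (cl_eq_zero (CP_Z_CC z2)).2 (CP_B_CC (q.inj _ _ z2 (by simpa using b4)))
  rw [← pull_cl ι (Z_Zc (CP_Z_CC huZ)), eu, ← HE.pull_val, pull_pev, Bun.pull_x, i1, i2,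
    ← ContinuousMap.comp_id (.const _ _), ← pev_map, ← Bun.g_comap,
    show E.comap (.const _ (κ o)) = Bun.const _ (E.op (κ o)) from rfl, Bun.g_const, map_pow,
    pev_X] at b5
  exact h₀.x_pow_ne hQ (Nat.lt_succ_self N) (Subtype.ext b5)

end Pool.Agent.CS
end
end
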