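import Pool.Agent.K.MP_d34769_ag.C97

/-! No relations in low degree when the weights vanish. -/

open MvPolynomial Function Matrix

noncomputable section
namespace Pool.Agent.CS

variable {I : Type} [Fintype I] [DecidableEq I] {m : ℕ} {q : I → Matrix (Fin m) (Fin m) ℂ}
  {k k' : I → Fin m}

/-- one row of every projector -/
def rws (q : I → Matrix (Fin m) (Fin m) ℂ) (k : I → Fin m) : Matrix I (Fin m) ℂ :=
  of fun j => q j (k j)

omit [Fintype I] in
theorem rws_mul (h1 : ∀ a, OP 1 (q a)) (h2 : ∀ a b, a ≠ b → q a * q b = 0) (i j : I) (r : Fin m) :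
    (rws q k * q i) j r = if j = i then q i (k i) r else 0 := by
  change (q j * q i) (k j) r = _
  split_ifs with c
  · rw [c, (h1 i).idem]
  · rw [h2 j i c, Matrix.zero_apply]

theorem rws_surj (h1 : ∀ a, OP 1 (q a)) (h2 : ∀ a b, a ≠ b → q a * q b = 0)
    (hk : ∀ j, q j (k j) (k j) ≠ 0) : Surjective (rws q k).mulVec := fun v => by
  refine ⟨(of fun r i => q i r (k i) * (q i (k i) (k i))⁻¹) *ᵥ v, ?_⟩
  rw [mulVec_mulVec, show rws q k * (of fun r i => q i r (k i) * (q i (k i) (k i))⁻¹) = 1 from ?_,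
    one_mulVec]
  ext j i
  have := rws_mul (k := k) h1 h2 i j (k i)
  simp only [mul_apply, of_apply, ← mul_assoc, ← Finset.sum_mul] at this ⊢
  rw [this, one_apply]
  split_ifs
  exacts [mul_inv_cancel₀ (hk i), zero_mul _]

theorem rws_diag (h1 : ∀ a, OP 1 (q a)) (hk : ∀ j, q j (k j) (k j) ≠ 0)
    (hk' : ∀ j, q j (k' j) (k' j) ≠ 0) :
    ∃ t : I → ℂ, (∀ j, t j ≠ 0) ∧ diagonal t * rws q k = rws q k' := by
  choose v _ e using fun a => (h1 a).exists_vec
  obtain rfl : q = fun a => vecMulVec (v a) (star (v a)) := funext e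
  simp only [vecMulVec_apply] at hk hk'
  refine ⟨fun j => v j (k' j) / v j (k j), fun j =>
    div_ne_zero (left_ne_zero_of_mul (hk' j)) (left_ne_zero_of_mul (hk j)), ?_⟩
  ext j r
  simp only [diagonal_mul, rws, of_apply, vecMulVec_apply]
  rw [← mul_assoc, div_mul_cancel₀ _ (left_ne_zero_of_mul (hk j))]

theorem OP.exists_diag {Q : Matrix (Fin m) (Fin m) ℂ} (h : OP 1 Q) : ∃ r, Q r r ≠ 0 :=
  (Finset.exists_ne_zero_of_sum_ne_zero (s := Finset.univ) (f := fun r => Q r r)
    fun e => by simpa using h.tr.symm.trans e).imp fun _ c => c.2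

namespace Dat
variable {D : Dat I}

/-- Orthogonal lines in the framing come from the space of orbits. -/
theorem exists_frame (ht : D.th = 0) (hD : D.Hat) {Y : Type} [TopologicalSpace Y]
    (l : I → Bun Y (Fin D.m) 1) (h2 : ∀ y a b, a ≠ b → (l a).Q y * (l b).Q y = 0) :
    ∃ g : C(Y, D.XS), ∀ i, ((ell hD i).comap g).x = (l i).x := by
  choose k hk using fun y a => ((l a).op y).exists_diag
  have st : ∀ y (k : I → Fin D.m), (∀ j, (l j).Q y (k j) (k j) ≠ 0) →
      D.St (0, rws (fun a => (l a).Q y) k) := fun y k hk =>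
    st_iff.2 ⟨D.R.zero_mem, ht ▸ ss_zero _,
      gen_of_surj _ (rws_surj (fun a => (l a).op y) (h2 y) hk)⟩
  have hc : Continuous fun y => pt _ (st y (k y) (hk y)) := by
    refine Continuous.subtype_mk (continuous_iff_continuousAt.2 fun y₀ => ?_) _
    have c1 : Continuous fun y => ((0, rws (fun a => (l a).Q y) (k y₀)) : Pt I D.m) :=
      continuous_const.prodMk (continuous_matrix fun j r => (l j).cont.matrix_elem _ r)
    refine (ContinuousAt.comp (f := fun y => ((0, rws (fun a => (l a).Q y) (k y₀)) : Pt I D.m))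
      (pt0_cont (st y₀ _ (hk y₀))) c1.continuousAt).congr ?_
    filter_upwards [Filter.eventually_all.2 fun j =>
      ((l j).cont.matrix_elem (k y₀ j) (k y₀ j)).continuousAt.eventually_ne (hk y₀ j)] with y hy
    obtain ⟨t, t0, e⟩ := rws_diag (fun a => (l a).op y) hy (hk y)
    refine (pt0_act (g := diagonal t) ⟨D.diagonal_mem_Lie t, ?_⟩ _).symm.trans
      (congrArg D.pt0 (Prod.ext (funext fun a => by simp [act, actR]) e))
    rw [det_diagonal]
    exact (Finset.prod_ne_zero_iff.2 fun j _ => t0 j).isUnit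
  refine ⟨⟨_, hc⟩, fun i => Bun.x_iso _ _ (ft_cont.comp hc) fun y h0 => ?_⟩
  have hp := st y (k y) (hk y)
  have h3 := (congrArg₂ (fun A B => A * B * (l i).Q y) (ell_pt hD hp i) (ft_pt hp)).symm.trans h0
  obtain ⟨p, e⟩ : ∃ p : Pt I D.m, p = (0, rws (fun a => (l a).Q y) (k y)) := ⟨_, rfl⟩
  rw [← e] at h3 hp
  have h4 : (D.Xi p * D.PG p i * D.Xp p * (p.2 * (l i).Q y)) i (k y i) = 0 := by
    simp only [Matrix.mul_assoc] at h3 ⊢
    rw [h3, Matrix.mul_zero, Matrix.zero_apply]
  have h5 := fun j => rws_mul (k := k y) (fun a => (l a).op y) (h2 y) i j (k y i)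
  rw [mul_apply, Finset.sum_eq_single i (fun j _ c => ?_) (by simp), PG_diag hD hp.toBase,
    one_mul, e, h5, if_pos rfl] at h4
  · exact hk y i h4
  · rw [e, h5, if_neg c, mul_zero]

/-- FREE -/
theorem Kr_free (_hD : D.Bs) {n r : ℕ} (hm : Fintype.card I + n ≤ D.m) (hr : r ≤ n)
    {c : MvPolynomial I ℂ} (hc : c.IsHomogeneous r) (h : c ∈ D.zero.Kr) : c = 0 := by
  let Λ : LD Unit (Fin D.m) I := ⟨fun _ _ => True, ⟨fun _ => trivial, id, fun _ => id⟩,
    fun _ => D.m, fun _ => Bun.const _ (op_one _), fun _ _ _ => rfl, fun _ _ _ => rfl⟩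
  obtain ⟨g, hg⟩ := exists_frame (D := D.zero.hat (o0 I)) rfl (D.zero.hat_Hat o0_inj) (Ln.l Λ)
    fun y a b e => (Ln.isLn Λ).orth a b e trivial y
  refine (Ln.isLn Λ).g_free (fun a => ?_) hr hc ?_
  · exact le_of_eq_of_le (congrArg (· + n) ((Nat.card_congr
      (Equiv.subtypeUnivEquiv fun _ => trivial)).trans Nat.card_eq_fintype_card)) hm
  · have := pull_evL g (ell (D.zero.hat_Hat o0_inj)) c
    rw [evL, evL, funext hg] at this
    exact this.symm.trans ((congrArg (HR.pull g) h).trans (map_zero _))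

end Dat

end Pool.Agent.CS
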